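import Pool.Agent.MP_f6c0e6_an.All.ChartA

section

/-! The divergence of a lifted field. -/

set_option autoImplicit false

open MeasureTheory Filter Topology Set Metric
open scoped ENNReal RealInnerProductSpace

namespace Pool.Agent.MP_f6c0e6_an.Gen

variable {m N : ℕ}

theorem AlgB_line {X Y : Type*} [NormedAddCommGroup X] [NormedSpace ℝ X] [NormedAddCommGroup Y]
    [NormedSpace ℝ Y] {φ : X → Y} {x : X} (h : DifferentiableAt ℝ φ x) (v : X) :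
    HasDerivAt (fun t : ℝ => φ (x + t • v)) (fderiv ℝ φ x v) 0 := by
  have h1 : HasDerivAt (fun t : ℝ => x + t • v) v 0 := by
    simpa using ((hasDerivAt_id (0 : ℝ)).smul_const v).const_add x
  have h2 : HasFDerivAt φ (fderiv ℝ φ x) (x + (0 : ℝ) • v) := by simpa using h.hasFDerivAt
  exact h2.comp_hasDerivAt 0 h1

/-- a symmetric map can be moved from one argument of a bilinear form to the other in a trace -/
theorem AlgB_mv {B : E m → E m → ℝ} (h1 : ∀ b, IsLinearMap ℝ fun a => B a b)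
    (h2 : ∀ a, IsLinearMap ℝ (B a)) {M : E m →L[ℝ] E m} (hM : ∀ u v, ⟪M u, v⟫ = ⟪u, M v⟫) :
    ∑ i, B (M (ev i)) (ev i) = ∑ i, B (ev i) (M (ev i)) := by
  have e1 : ∀ i, B (M (ev i)) (ev i) = ∑ j, ⟪ev j, M (ev i)⟫ * B (ev j) (ev i) := fun i => by
    have := map_sum ((h1 (ev i)).mk' _) (fun j => ⟪ev j, M (ev i)⟫ • (ev j : E m)) Finset.univ
    rw [sum_ev] at this
    simp only [IsLinearMap.mk'_apply] at this
    rw [this]
    exact Finset.sum_congr rfl fun j _ => (h1 (ev i)).map_smul _ _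
  have e2 : ∀ i, B (ev i) (M (ev i)) = ∑ j, ⟪ev j, M (ev i)⟫ * B (ev i) (ev j) := fun i => by
    have := map_sum ((h2 (ev i)).mk' _) (fun j => ⟪ev j, M (ev i)⟫ • (ev j : E m)) Finset.univ
    rw [sum_ev] at this
    simp only [IsLinearMap.mk'_apply] at this
    rw [this]
    exact Finset.sum_congr rfl fun j _ => (h2 (ev i)).map_smul _ _
  simp only [e1, e2]
  rw [Finset.sum_comm]
  refine Finset.sum_congr rfl fun i _ => Finset.sum_congr rfl fun j _ => ?_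
  rw [← hM, real_inner_comm]

/-- the trace of a bilinear form along a family of vectors -/
theorem AlgB_tr {B : E m → E m → ℝ} (h1 : ∀ b, IsLinearMap ℝ fun a => B a b)
    (h2 : ∀ a, IsLinearMap ℝ (B a)) (a : Fin m → E m) :
    ∑ l, B (a l) (a l) = ∑ i, B (ev i) (∑ l, ⟪a l, ev i⟫ • a l) := by
  have e1 : ∀ l, B (a l) (a l) = ∑ i, ⟪a l, ev i⟫ * B (ev i) (a l) := fun l => by
    have := map_sum ((h1 (a l)).mk' _) (fun j => ⟪ev j, a l⟫ • (ev j : E m)) Finset.univ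
    rw [sum_ev] at this
    simp only [IsLinearMap.mk'_apply] at this
    rw [this]
    refine Finset.sum_congr rfl fun j _ => ?_
    rw [real_inner_comm]
    exact (h1 (a l)).map_smul _ _
  have e2 : ∀ i, B (ev i) (∑ l, ⟪a l, ev i⟫ • a l) = ∑ l, ⟪a l, ev i⟫ * B (ev i) (a l) :=
    fun i => by
    have := map_sum ((h2 (ev i)).mk' _) (fun l => ⟪a l, ev i⟫ • a l) Finset.univ
    simp only [IsLinearMap.mk'_apply] at this
    rw [this]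
    exact Finset.sum_congr rfl fun j _ => (h2 (ev i)).map_smul _ _
  simp only [e1, e2]
  rw [Finset.sum_comm]

namespace Ref

variable (S : Ref m N)

/-- the tangential divergence of the lift of the constant vector `e` -/
noncomputable def dlift (ξ : E m) (z : E N) (s : Fin m → E N) (e : E m) : ℝ :=
  ∑ l, ⟪s l, fderiv ℝ (fun q : E m × E N => S.lift q.1 q.2 e) (ξ, z)
    (S.eta ξ z (s l), S.mm ξ z (s l))⟫

theorem AlgB_w2 : ContDiff ℝ 2 S.w := S.smooth.of_le (by norm_num)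

theorem AlgB_H1 : ContDiff ℝ 1 (fderiv ℝ (fderiv ℝ S.w)) := by
  have h : ContDiff ℝ 2 (fderiv ℝ S.w) := S.smooth.fderiv_right (by norm_num)
  exact h.fderiv_right (by norm_num)

theorem AlgB_G1 : ContDiff ℝ 1 (giW S.w) := by
  have h : ContDiff ℝ ((1 + 1 : ℕ) : ℕ) S.w := S.AlgB_w2
  exact (contDiff_gW h).2.1

theorem AlgB_II (ξ u : E m) (z : E N) :
    S.II ξ z u = ∑ i, ⟪z, fderiv ℝ (fderiv ℝ S.w) ξ (ev i) u⟫ • ev i := by
  simp [II]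

theorem AlgB_KK (ξ u : E m) (z : E N) : S.KK ξ z u = giW S.w ξ (S.II ξ z u) := rfl

theorem contDiff_lift : ContDiff ℝ 1 (fun q : E m × E N => S.KK q.1 q.2) ∧
    ContDiff ℝ 1 fun q : (E m × E N) × E m => S.lift q.1.1 q.1.2 q.2 := by
  have h1 : ContDiff ℝ 1 (fun q : E m × E N => S.KK q.1 q.2) := by
    rw [contDiff_clm_apply_iff]
    intro u
    simp only [AlgB_KK, AlgB_II]
    refine (S.AlgB_G1.comp contDiff_fst).clm_apply (ContDiff.sum fun i _ => ?_)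
    refine ContDiff.smul (ContDiff.inner ℝ contDiff_snd ?_) contDiff_const
    exact (((S.AlgB_H1.comp contDiff_fst).clm_apply contDiff_const).clm_apply contDiff_const)
  refine ⟨h1, ?_⟩
  have hL : ContDiff ℝ 1 S.La := (S.F_calc 0).2.2.1.of_le (by norm_num)
  unfold lift
  exact (hL.comp (contDiff_fst.comp contDiff_fst)).clm_apply
    (contDiff_snd.sub ((h1.comp contDiff_fst).clm_apply contDiff_snd))

theorem AlgB_dlift (e : E m) (p : E m × E N) :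
    DifferentiableAt ℝ (fun q : E m × E N => S.lift q.1 q.2 e) p := by
  have h := S.contDiff_lift.2.comp
    (contDiff_id.prodMk (contDiff_const (c := e)) : ContDiff ℝ 1 fun q : E m × E N => (q, e))
  exact (h.differentiable (by norm_num)) p

theorem fderiv_lift (ξ η e : E m) (z n : E N) :
    fderiv ℝ (fun q : E m × E N => S.lift q.1 q.2 e) (ξ, z) (η, n) =
      fderiv ℝ (fderiv ℝ S.w) ξ η (e - S.KK ξ z e) -
        S.La ξ (fderiv ℝ (giW S.w) ξ η (S.II ξ z e) +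
          giW S.w ξ (∑ i, ⟪z, fderiv ℝ (fun x => fderiv ℝ (fderiv ℝ S.w) x (ev i)) ξ η e⟫ • ev i) +
          S.KK ξ n e) := by
  have h0 := AlgB_line (S.AlgB_dlift e (ξ, z)) (η, n)
  have hL : DifferentiableAt ℝ S.La ξ :=
    ((S.F_calc 0).2.2.1.differentiable (by norm_num)) ξ
  have h1 := AlgB_line hL η
  rw [(S.F_calc ξ).2.2.2.1] at h1
  have h2 := AlgB_line ((S.AlgB_G1.differentiable (by norm_num)) ξ) η
  have hz : HasDerivAt (fun t : ℝ => z + t • n) n 0 := by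
    simpa using ((hasDerivAt_id (0 : ℝ)).smul_const n).const_add z
  have h3 : ∀ i : Fin m, HasDerivAt
      (fun t : ℝ => ⟪z + t • n, fderiv ℝ (fderiv ℝ S.w) (ξ + t • η) (ev i) e⟫ • (ev i : E m))
      ((⟪z, fderiv ℝ (fun x => fderiv ℝ (fderiv ℝ S.w) x (ev i)) ξ η e⟫ +
        ⟪n, fderiv ℝ (fderiv ℝ S.w) ξ (ev i) e⟫) • ev i) 0 := fun i => by
    have hi : DifferentiableAt ℝ (fun x => fderiv ℝ (fderiv ℝ S.w) x (ev i)) ξ :=
      ((S.AlgB_H1.clm_apply contDiff_const).differentiable (by norm_num)) ξ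
    have h4 := (AlgB_line hi η).clm_apply (hasDerivAt_const (0 : ℝ) e)
    have h5 := (hz.inner ℝ h4).smul_const (ev i : E m)
    simpa using h5
  have h6 := HasDerivAt.fun_sum (u := Finset.univ) fun i _ => h3 i
  have h7 := h1.clm_apply ((h2.clm_apply h6).const_sub e)
  have h8 : (fun t : ℝ => (fun q : E m × E N => S.lift q.1 q.2 e) ((ξ, z) + t • (η, n))) =
      fun t : ℝ => S.La (ξ + t • η) (e - giW S.w (ξ + t • η)
        (∑ i, ⟪z + t • n, fderiv ℝ (fderiv ℝ S.w) (ξ + t • η) (ev i) e⟫ • (ev i : E m))) := by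
    funext t
    simp only [lift, AlgB_KK, AlgB_II, Prod.fst_add, Prod.snd_add, Prod.smul_fst, Prod.smul_snd]
  rw [h8] at h0
  rw [h0.unique h7]
  simp only [zero_smul, add_zero, AlgB_KK, AlgB_II, add_smul, Finset.sum_add_distrib, map_add,
    map_neg, neg_add]
  abel

theorem dlift_linear (ξ : E m) (z : E N) (s : Fin m → E N) (e : E m) :
    S.dlift ξ z s e = ∑ i, e i * S.dlift ξ z s (ev i) := by
  have hl : IsLinearMap ℝ (S.dlift ξ z s) := by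
    constructor
    · intro a b
      simp only [dlift, fderiv_lift, map_add, map_sub, inner_add_right, inner_sub_right, add_smul,
        Finset.sum_add_distrib, Finset.sum_sub_distrib]
      ring
    · intro c a
      simp only [dlift, fderiv_lift, map_add, map_sub, map_smul, inner_add_right, inner_sub_right,
        inner_smul_right, mul_smul, ← Finset.smul_sum, smul_eq_mul, Finset.mul_sum]
      refine Finset.sum_congr rfl fun l _ => ?_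
      ring
  have := map_sum (hl.mk' _) (fun j => ⟪ev j, e⟫ • (ev j : E m)) Finset.univ
  rw [sum_ev] at this
  simp only [IsLinearMap.mk'_apply] at this
  rw [this]
  refine Finset.sum_congr rfl fun j _ => ?_
  rw [hl.map_smul, inner_ev, smul_eq_mul]

theorem AlgB_third (ξ u a b : E m) :
    fderiv ℝ (fun x => fderiv ℝ (fderiv ℝ S.w) x u) ξ a b =
      fderiv ℝ (fun x => fderiv ℝ (fderiv ℝ S.w) x u) ξ b a := by
  have h2 : ContDiff ℝ 2 (fderiv ℝ S.w) := S.smooth.fderiv_right (by norm_num)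
  have h3 : ContDiff ℝ 2 fun y => fderiv ℝ S.w y u := h2.clm_apply contDiff_const
  have h4 : (fun x => fderiv ℝ (fderiv ℝ S.w) x u) = fderiv ℝ fun y => fderiv ℝ S.w y u := by
    funext x
    ext1 v
    rw [hess_symm S.AlgB_w2, fderiv_clm_apply ((h2.differentiable (by norm_num)) x)
      (differentiableAt_const u)]
    simp
  rw [h4]
  exact hess_symm h3 ξ a b

/-- the derivative of the minimal surface system (`D` is open; the third derivative is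
symmetric) -/
theorem min_deriv {ξ : E m} (hξ : ξ ∈ S.D) (e : E m) :
    ∑ i, fderiv ℝ (fun x => fderiv ℝ (fderiv ℝ S.w) x (ev i)) ξ (giW S.w ξ (ev i)) e =
      -∑ i, fderiv ℝ (fderiv ℝ S.w) ξ (ev i) (fderiv ℝ (giW S.w) ξ e (ev i)) := by
  have h2 := AlgB_line ((S.AlgB_G1.differentiable (by norm_num)) ξ) e
  have h3 : ∀ i : Fin m, HasDerivAt
      (fun t : ℝ => fderiv ℝ (fderiv ℝ S.w) (ξ + t • e) (ev i) (giW S.w (ξ + t • e) (ev i)))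
      (fderiv ℝ (fun x => fderiv ℝ (fderiv ℝ S.w) x (ev i)) ξ (giW S.w ξ (ev i)) e +
        fderiv ℝ (fderiv ℝ S.w) ξ (ev i) (fderiv ℝ (giW S.w) ξ e (ev i))) 0 := fun i => by
    have hi : DifferentiableAt ℝ (fun x => fderiv ℝ (fderiv ℝ S.w) x (ev i)) ξ :=
      ((S.AlgB_H1.clm_apply contDiff_const).differentiable (by norm_num)) ξ
    have h4 := (AlgB_line hi e).clm_apply (h2.clm_apply (hasDerivAt_const (0 : ℝ) (ev i)))
    rw [S.AlgB_third]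
    simpa using h4
  have h6 := HasDerivAt.fun_sum (u := Finset.univ) fun i _ => h3 i
  have hc : ContinuousAt (fun t : ℝ => ξ + t • e) 0 := by fun_prop
  have hev : ∀ᶠ t : ℝ in 𝓝 0, ξ + t • e ∈ S.D :=
    hc.preimage_mem_nhds (by simpa using S.isOpen.mem_nhds hξ)
  have h7 : HasDerivAt (fun t : ℝ => ∑ i, fderiv ℝ (fderiv ℝ S.w) (ξ + t • e) (ev i)
      (giW S.w (ξ + t • e) (ev i))) 0 0 :=
    (hasDerivAt_const (0 : ℝ) (0 : E N)).congr_of_eventuallyEq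
      (hev.mono fun t ht => S.min _ ht)
  have h8 := h6.unique h7
  rw [Finset.sum_add_distrib] at h8
  exact eq_neg_of_add_eq_zero_left h8

end Ref

/-- the terms of order one in the height -/
noncomputable def AlgB_p1 (W : E m →L[ℝ] E N) (H : E m →L[ℝ] E m →L[ℝ] E N)
    (g K : E m →L[ℝ] E m) (DG : E m →L[ℝ] E m →L[ℝ] E m) (T : E m →L[ℝ] E m) (u e a b : E m) : ℝ :=
  -⟪W a, H b (K e)⟫ - ⟪g a, DG b u⟫ - ⟪a, T b⟫ + ⟪W (K b), H a e⟫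

/-- the terms of order at most one in the height -/
noncomputable def AlgB_ps (W : E m →L[ℝ] E N) (H : E m →L[ℝ] E m →L[ℝ] E N)
    (g K : E m →L[ℝ] E m) (DG : E m →L[ℝ] E m →L[ℝ] E m) (T : E m →L[ℝ] E m) (u e a b : E m) : ℝ :=
  ⟪W a, H b e⟫ + ⟪W a, H (K b) e⟫ + AlgB_p1 W H g K DG T u e a b

section abstract

variable {W : E m →L[ℝ] E N} {H : E m →L[ℝ] E m →L[ℝ] E N} {G g I K : E m →L[ℝ] E m}
  {DG : E m →L[ℝ] E m →L[ℝ] E m} {T : E m →L[ℝ] E m} {u e : E m}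

theorem AlgB_lin : (∀ b, IsLinearMap ℝ fun a => AlgB_ps W H g K DG T u e a b) ∧
    ∀ a, IsLinearMap ℝ (AlgB_ps W H g K DG T u e a) := by
  refine ⟨fun b => ⟨fun x y => ?_, fun c x => ?_⟩, fun a => ⟨fun x y => ?_, fun c x => ?_⟩⟩
  · simp only [AlgB_ps, AlgB_p1, map_add, inner_add_left, inner_add_right,
      add_apply]
    ring
  · simp only [AlgB_ps, AlgB_p1, map_smul, real_inner_smul_left, real_inner_smul_right,
      smul_apply, smul_eq_mul]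
    ring
  · simp only [AlgB_ps, AlgB_p1, map_add, inner_add_left, inner_add_right,
      add_apply]
    ring
  · simp only [AlgB_ps, AlgB_p1, map_smul, real_inner_smul_left, real_inner_smul_right,
      smul_apply, smul_eq_mul]
    ring

theorem AlgB_mv2 (P Q : E m →L[ℝ] E N) (hG : ∀ u v, ⟪G u, v⟫ = ⟪u, G v⟫) :
    ∑ i, ⟪P (G (ev i)), Q (ev i)⟫ = ∑ i, ⟪P (ev i), Q (G (ev i))⟫ :=
  AlgB_mv (B := fun a b => ⟪P a, Q b⟫)
    (fun _ => ⟨fun x y => by simp only [map_add, inner_add_left],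
      fun c x => by simp only [map_smul, real_inner_smul_left, smul_eq_mul]⟩)
    (fun _ => ⟨fun x y => by simp only [map_add, inner_add_right],
      fun c x => by simp only [map_smul, real_inner_smul_right, smul_eq_mul]⟩) hG

/-- the cancellation of the terms of order one -/
theorem AlgB_id (hH : ∀ u v, H u v = H v u) (hG : ∀ u v, ⟪G u, v⟫ = ⟪u, G v⟫)
    (hg : ∀ u v, ⟪g u, v⟫ = ⟪u, g v⟫) (hI : ∀ u v, ⟪I u, v⟫ = ⟪u, I v⟫)
    (hK : ∀ v, K v = G (I v)) (hGg : ∀ v, G (g v) = v)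
    (hDG : ∀ a b, ⟪DG e a, b⟫ = -(⟪H e (G a), W (G b)⟫ + ⟪W (G a), H e (G b)⟫))
    (hdiv : ∑ i, ⟪H (K e) (ev i), W (G (ev i))⟫ + ∑ j, ⟪ev j, DG (ev j) u⟫ = 0)
    (hmin : ∑ i, ⟪ev i, T (G (ev i))⟫ = -∑ i, ⟪DG e (ev i), I (ev i)⟫) :
    ∑ i, AlgB_ps W H g K DG T u e (ev i) (G (ev i)) = ∑ i, ⟪H e (ev i), W (G (ev i))⟫ := by
  have hS : ∀ a b, ⟪(G ∘L I ∘L G) a, b⟫ = ⟪a, (G ∘L I ∘L G) b⟫ := fun a b => by
    simp only [ContinuousLinearMap.comp_apply]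
    rw [hG, hI, hG]
  have t0 : ∑ i, ⟪W (ev i), H (G (ev i)) e⟫ = ∑ i, ⟪H e (ev i), W (G (ev i))⟫ := by
    simp only [hH _ e]
    exact GCalc_swap hG W (H e)
  have t1 : ∑ i, ⟪W (ev i), H (K (G (ev i))) e⟫ = ∑ i, ⟪W (ev i), H e (G (I (G (ev i))))⟫ := by
    simp only [hH _ e, hK]
  have t2 : ∑ i, ⟪W (ev i), H (G (ev i)) (K e)⟫ = ∑ i, ⟪H (K e) (ev i), W (G (ev i))⟫ := by
    simp only [hH _ (K e)]
    exact GCalc_swap hG W (H (K e))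
  have t3 : ∑ i, ⟪g (ev i), DG (G (ev i)) u⟫ = ∑ j, ⟪ev j, DG (ev j) u⟫ := by
    have := AlgB_mv (B := fun a b => ⟪a, DG (G b) u⟫)
      (fun _ => ⟨fun x y => by simp only [inner_add_left],
        fun c x => by simp only [real_inner_smul_left, smul_eq_mul]⟩)
      (fun _ => ⟨fun x y => by simp only [map_add, add_apply, inner_add_right],
        fun c x => by simp only [map_smul, smul_apply, real_inner_smul_right,
          smul_eq_mul]⟩) hg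
    simpa only [hGg] using this
  have t5 : ∑ i, ⟪W (K (G (ev i))), H (ev i) e⟫ = ∑ i, ⟪W (ev i), H e (G (I (G (ev i))))⟫ := by
    have := GCalc_swap hS W (H e)
    simp only [ContinuousLinearMap.comp_apply] at this
    rw [this]
    refine Finset.sum_congr rfl fun i _ => ?_
    rw [hH _ e, hK, real_inner_comm]
  have t6 : ∑ i, ⟪W (G (ev i)), H e (G (I (ev i)))⟫ =
      ∑ i, ⟪W (ev i), H e (G (I (G (ev i))))⟫ := by
    simpa only [ContinuousLinearMap.comp_apply] using AlgB_mv2 W (H e ∘L G ∘L I) hG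
  have t7 : ∑ i, ⟪H e (G (ev i)), W (G (I (ev i)))⟫ =
      ∑ i, ⟪W (ev i), H e (G (I (G (ev i))))⟫ := by
    have h1 := AlgB_mv2 (H e) (W ∘L G ∘L I) hG
    have h2 := GCalc_swap hS W (H e)
    simp only [ContinuousLinearMap.comp_apply] at h1 h2
    rw [h1, h2]
  have t4 : ∑ i, ⟪ev i, T (G (ev i))⟫ = 2 * ∑ i, ⟪W (ev i), H e (G (I (G (ev i))))⟫ := by
    rw [hmin]
    simp only [hDG, Finset.sum_neg_distrib, Finset.sum_add_distrib]
    rw [t6, t7]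
    ring
  simp only [AlgB_ps, AlgB_p1, Finset.sum_add_distrib, Finset.sum_sub_distrib,
    Finset.sum_neg_distrib]
  rw [t0, t1, t2, t3, t4, t5]
  linarith only [hdiv]

theorem AlgB_p0_bd (hW : ‖W‖ ≤ 1) (hH : ‖H‖ ≤ 1) (a b v : E m) :
    |⟪W a, H b v⟫| ≤ ‖a‖ * ‖b‖ * ‖v‖ := by
  have h1 : ‖W a‖ ≤ ‖a‖ := by simpa using W.le_of_opNorm_le hW a
  have h2 : ‖H b‖ ≤ ‖b‖ := by simpa using H.le_of_opNorm_le hH b
  have h3 : ‖H b v‖ ≤ ‖b‖ * ‖v‖ := (H b).le_of_opNorm_le h2 v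
  calc |⟪W a, H b v⟫| ≤ ‖W a‖ * ‖H b v‖ := abs_real_inner_le_norm _ _
    _ ≤ ‖a‖ * (‖b‖ * ‖v‖) := by gcongr
    _ = _ := by ring

theorem AlgB_p1_bd {r : ℝ} (hW : ‖W‖ ≤ 1) (hH : ‖H‖ ≤ 1) (hg : ‖g‖ ≤ 2) (hDG : ‖DG‖ ≤ 2)
    (hK : ‖K‖ ≤ r) (hu : ‖u‖ ≤ r / 4 * ‖e‖) (hT : ∀ b, ‖T b‖ ≤ m * r * ‖b‖ * ‖e‖) (a b : E m) :
    |AlgB_p1 W H g K DG T u e a b| ≤ (m + 3) * r * ‖a‖ * ‖b‖ * ‖e‖ := by
  have hr : 0 ≤ r := (norm_nonneg _).trans hK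
  have h1 : |⟪W a, H b (K e)⟫| ≤ r * ‖a‖ * ‖b‖ * ‖e‖ := by
    calc _ ≤ ‖a‖ * ‖b‖ * ‖K e‖ := AlgB_p0_bd hW hH a b _
      _ ≤ ‖a‖ * ‖b‖ * (r * ‖e‖) := by gcongr; exact K.le_of_opNorm_le hK e
      _ = _ := by ring
  have h2 : |⟪g a, DG b u⟫| ≤ r * ‖a‖ * ‖b‖ * ‖e‖ := by
    calc _ ≤ ‖g a‖ * ‖DG b u‖ := abs_real_inner_le_norm _ _
      _ ≤ (2 * ‖a‖) * ((2 * ‖b‖) * (r / 4 * ‖e‖)) := by
        gcongr
        · exact g.le_of_opNorm_le hg a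
        · exact ((DG b).le_of_opNorm_le (DG.le_of_opNorm_le hDG b) u).trans (by gcongr)
      _ = _ := by ring
  have h3 : |⟪a, T b⟫| ≤ m * r * ‖a‖ * ‖b‖ * ‖e‖ := by
    calc _ ≤ ‖a‖ * ‖T b‖ := abs_real_inner_le_norm _ _
      _ ≤ ‖a‖ * (m * r * ‖b‖ * ‖e‖) := by gcongr; exact hT b
      _ = _ := by ring
  have h4 : |⟪W (K b), H a e⟫| ≤ r * ‖a‖ * ‖b‖ * ‖e‖ := by
    calc _ ≤ ‖K b‖ * ‖a‖ * ‖e‖ := AlgB_p0_bd hW hH _ a e
      _ ≤ (r * ‖b‖) * ‖a‖ * ‖e‖ := by gcongr; exact K.le_of_opNorm_le hK b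
      _ = _ := by ring
  rw [abs_le] at h1 h2 h3 h4 ⊢
  unfold AlgB_p1
  constructor <;> nlinarith only [h1, h2, h3, h4, h1.1, h1.2, h2.1, h2.2, h3.1, h3.2, h4.1, h4.2]

theorem AlgB_ps_bd {r : ℝ} (hW : ‖W‖ ≤ 1) (hH : ‖H‖ ≤ 1) (hg : ‖g‖ ≤ 2) (hDG : ‖DG‖ ≤ 2)
    (hK : ‖K‖ ≤ r) (hu : ‖u‖ ≤ r / 4 * ‖e‖) (hT : ∀ b, ‖T b‖ ≤ m * r * ‖b‖ * ‖e‖) (hr : r ≤ 1)
    (a b : E m) : |AlgB_ps W H g K DG T u e a b| ≤ (m + 5) * ‖a‖ * ‖b‖ * ‖e‖ := by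
  have h1 := AlgB_p0_bd hW hH a b e
  have h2 : |⟪W a, H (K b) e⟫| ≤ ‖a‖ * ‖b‖ * ‖e‖ := by
    refine (AlgB_p0_bd hW hH a (K b) e).trans ?_
    gcongr
    simpa using K.le_of_opNorm_le (hK.trans hr) b
  have h3 : |AlgB_p1 W H g K DG T u e a b| ≤ (m + 3) * 1 * ‖a‖ * ‖b‖ * ‖e‖ :=
    (AlgB_p1_bd hW hH hg hDG hK hu hT a b).trans (by gcongr)
  rw [abs_le] at h1 h2 h3 ⊢
  unfold AlgB_ps
  constructor <;> nlinarith only [h1, h2, h3, h1.1, h1.2, h2.1, h2.2, h3.1, h3.2]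

/-- the remainder for one vector of the frame -/
theorem AlgB_rem {r : ℝ} (hW : ‖W‖ ≤ 1) (hH : ‖H‖ ≤ 1 / 4) (hg : ‖g‖ ≤ 2) (hDG : ‖DG‖ ≤ 2)
    (hK : ‖K‖ ≤ r / 2) (hu : ‖u‖ ≤ r / 4 * ‖e‖) (hT : ∀ b, ‖T b‖ ≤ m * r * ‖b‖ * ‖e‖)
    {a η : E m} {n : E N} (ha : ‖a‖ ≤ 1) (hη : ‖η‖ ≤ 2) (hae : η = a + K η) :
    |⟪W a, H η (e - K e)⟫ + ⟪n, H η (e - K e)⟫ - (⟪g a, DG η u⟫ + ⟪a, T η⟫ +
      (⟪n, H a e⟫ - ⟪W (K η), H a e⟫)) - AlgB_ps W H g K DG T u e a a| ≤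
      (‖n‖ ^ 2 + (m + 5) * r ^ 2) * ‖e‖ := by
  have hr : 0 ≤ r := by linarith only [hK, norm_nonneg K]
  have hH1 : ‖H‖ ≤ 1 := by linarith only [hH]
  have hK1 : ‖K‖ ≤ r := by linarith only [hK, hr]
  have hKη : ‖K η‖ ≤ r := by
    have := K.le_of_opNorm_le hK η
    nlinarith only [this, hη, hr, norm_nonneg η]
  have hKK : ‖K (K η)‖ ≤ r ^ 2 := by
    have := K.le_of_opNorm_le hK1 (K η)
    nlinarith only [this, hr, hKη, norm_nonneg (K η)]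
  have hid : ⟪W a, H η (e - K e)⟫ + ⟪n, H η (e - K e)⟫ - (⟪g a, DG η u⟫ + ⟪a, T η⟫ +
      (⟪n, H a e⟫ - ⟪W (K η), H a e⟫)) - AlgB_ps W H g K DG T u e a a =
      (⟪n, H (K η) e⟫ - ⟪n, H η (K e)⟫) + ⟪W a, H (K (K η)) e⟫ +
        AlgB_p1 W H g K DG T u e a (K η) := by
    generalize hk : K η = k at hae
    have hk2 : k = K a + K k := by rw [← map_add, ← hae, hk]
    have e1 : ⟪W a, H k e⟫ = ⟪W a, H (K a) e⟫ + ⟪W a, H (K k) e⟫ := by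
      conv_lhs => rw [hk2]
      simp only [map_add, add_apply, inner_add_right]
    have e2 : ⟪W k, H a e⟫ = ⟪W (K a), H a e⟫ + ⟪W (K k), H a e⟫ := by
      conv_lhs => rw [hk2]
      simp only [map_add, inner_add_left]
    rw [hae]
    simp only [AlgB_ps, AlgB_p1, map_add, map_sub, add_apply, inner_add_right,
      inner_sub_right]
    linarith only [e1, e2]
  have b1 : |⟪n, H (K η) e⟫| ≤ ‖n‖ * (1 / 4 * r * ‖e‖) := by
    refine (abs_real_inner_le_norm _ _).trans ?_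
    gcongr
    refine (H (K η)).le_of_opNorm_le ((H.le_of_opNorm_le hH _).trans ?_) e
    gcongr
  have b2 : |⟪n, H η (K e)⟫| ≤ ‖n‖ * (1 / 4 * 2 * (r * ‖e‖)) := by
    refine (abs_real_inner_le_norm _ _).trans ?_
    gcongr
    refine ((H η).le_of_opNorm_le (H.le_of_opNorm_le hH _) (K e)).trans ?_
    gcongr
    exact K.le_of_opNorm_le hK1 e
  have b3 : |⟪W a, H (K (K η)) e⟫| ≤ 1 * r ^ 2 * ‖e‖ :=
    (AlgB_p0_bd hW hH1 a _ e).trans (by gcongr)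
  have b4 : |AlgB_p1 W H g K DG T u e a (K η)| ≤ (m + 3) * r * 1 * r * ‖e‖ :=
    (AlgB_p1_bd hW hH1 hg hDG hK1 hu hT a _).trans (by gcongr)
  have b5 : ‖n‖ * r * ‖e‖ ≤ (‖n‖ ^ 2 + r ^ 2) * ‖e‖ := by
    gcongr
    nlinarith only [sq_nonneg (‖n‖ - r), norm_nonneg n]
  have b6 : 0 ≤ ‖n‖ * r * ‖e‖ := by positivity
  rw [hid]
  rw [abs_le] at b1 b2 b3 b4 ⊢
  constructor <;> nlinarith only [b1, b2, b3, b4, b5, b1.1, b1.2, b2.1, b2.2, b3.1, b3.2, b4.1, b4.2]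

end abstract

/-- the third derivative in the direction `z`, applied to `e` -/
noncomputable def AlgB_T (S : Ref m N) (ξ : E m) (z : E N) (e : E m) : E m →L[ℝ] E m :=
  ∑ i, (innerSL ℝ z ∘L
    (fderiv ℝ (fun x => fderiv ℝ (fderiv ℝ S.w) x (ev i)) ξ).flip e).smulRight (ev i)

theorem AlgB_T_apply (S : Ref m N) (ξ : E m) (z : E N) (e η : E m) : AlgB_T S ξ z e η =
    ∑ i, ⟪z, fderiv ℝ (fun x => fderiv ℝ (fderiv ℝ S.w) x (ev i)) ξ η e⟫ • ev i := by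
  simp [AlgB_T]

theorem AlgB_T_bd (S : Ref m N) (ξ : E m) (z : E N) (e b : E m) :
    ‖AlgB_T S ξ z e b‖ ≤ m * ‖z‖ * ‖b‖ * ‖e‖ := by
  rw [AlgB_T_apply]
  refine (norm_sum_le _ _).trans ?_
  have : ∀ i : Fin m, ‖⟪z, fderiv ℝ (fun x => fderiv ℝ (fderiv ℝ S.w) x (ev i)) ξ b e⟫ •
      (ev i : E m)‖ ≤ ‖z‖ * ‖b‖ * ‖e‖ := fun i => by
    rw [norm_smul, norm_ev, mul_one, Real.norm_eq_abs]
    refine (abs_real_inner_le_norm _ _).trans ?_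
    have h1 : ‖fderiv ℝ (fun x => fderiv ℝ (fderiv ℝ S.w) x (ev i)) ξ‖ ≤ 1 := by
      have := S.b3 ξ (ev i)
      rw [norm_ev] at this
      linarith only [this]
    have h2 := ((fderiv ℝ (fun x => fderiv ℝ (fderiv ℝ S.w) x (ev i)) ξ) b).le_of_opNorm_le
      ((fderiv ℝ (fun x => fderiv ℝ (fderiv ℝ S.w) x (ev i)) ξ).le_of_opNorm_le h1 b) e
    calc _ ≤ ‖z‖ * (1 * ‖b‖ * ‖e‖) := by gcongr
      _ = _ := by ring
  calc _ ≤ ∑ _i : Fin m, ‖z‖ * ‖b‖ * ‖e‖ := Finset.sum_le_sum fun i _ => this i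
    _ = _ := by simp; ring

theorem AlgB_div (S : Ref m N) {ξ : E m} (hξ : ξ ∈ S.D) (u : E m) :
    ∑ i, ⟪fderiv ℝ (fderiv ℝ S.w) ξ (giW S.w ξ u) (ev i), fderiv ℝ S.w ξ (giW S.w ξ (ev i))⟫ +
      ∑ j, ⟪ev j, fderiv ℝ (giW S.w) ξ (ev j) u⟫ = 0 := by
  have h := div_sgW ξ S.AlgB_w2 (S.min ξ hξ) u
  have hd := GCalc_diff ξ S.AlgB_w2
  have hs : 0 < sgW S.w ξ := lt_of_lt_of_le one_pos (sgW_bd S.w ξ).2.1
  have h1 : ∀ v, fderiv ℝ (fun y => sgW S.w y • giW S.w y u) ξ v =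
      sgW S.w ξ • fderiv ℝ (giW S.w) ξ v u + fderiv ℝ (sgW S.w) ξ v • giW S.w ξ u := fun v => by
    have h2 := AlgB_line (hd.2.2.fun_smul (hd.2.1.clm_apply (differentiableAt_const u))) v
    have h3 := (AlgB_line hd.2.2 v).fun_smul
      ((AlgB_line hd.2.1 v).clm_apply (hasDerivAt_const (0 : ℝ) u))
    have h4 := h2.unique h3
    simpa using h4
  have h2 : ∑ j, fderiv ℝ (sgW S.w) ξ (ev j) * ⟪ev j, giW S.w ξ u⟫ =
      fderiv ℝ (sgW S.w) ξ (giW S.w ξ u) := by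
    conv_rhs => rw [← sum_ev (giW S.w ξ u)]
    simp only [map_sum, map_smul, smul_eq_mul]
    exact Finset.sum_congr rfl fun j _ => mul_comm _ _
  simp only [dv, h1, inner_add_right, real_inner_smul_right, Finset.sum_add_distrib,
    ← Finset.mul_sum] at h
  rw [h2, fderiv_sgW ξ S.AlgB_w2, ← mul_add] at h
  rw [add_comm]
  exact (mul_eq_zero.1 h).resolve_left hs.ne'

theorem AlgB_main (S : Ref m N) {ξ : E m} (hξ : ξ ∈ S.D) (z : E N) (e : E m) :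
    ∑ i, AlgB_ps (fderiv ℝ S.w ξ) (fderiv ℝ (fderiv ℝ S.w) ξ) (gW S.w ξ) (S.KK ξ z)
      (fderiv ℝ (giW S.w) ξ) (AlgB_T S ξ z e) (S.II ξ z e) e (ev i) (giW S.w ξ (ev i)) =
      fderiv ℝ (sgW S.w) ξ e / sgW S.w ξ := by
  have hs : 0 < sgW S.w ξ := lt_of_lt_of_le one_pos (sgW_bd S.w ξ).2.1
  rw [fderiv_sgW ξ S.AlgB_w2, mul_div_cancel_left₀ _ hs.ne']
  refine AlgB_id (I := S.II ξ z) (hess_symm S.AlgB_w2 ξ) (giW_symm S.w ξ) (gW_symm S.w ξ)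
    (fun u v => (S.II_calc ξ u v z).2.1) (fun _ => rfl) (fun v => (giW_gW S.w ξ v).1)
    (fun a b => ?_) (AlgB_div S hξ _) ?_
  · rw [fderiv_giW ξ S.AlgB_w2, inner_neg_left, giW_symm, fderiv_gW ξ S.AlgB_w2]
  · have h := congrArg (fun v => ⟪z, v⟫) (S.min_deriv hξ e)
    simp only [inner_neg_right, inner_sum] at h
    have h1 : ∀ i, ⟪ev i, AlgB_T S ξ z e (giW S.w ξ (ev i))⟫ = ⟪z, fderiv ℝ
        (fun x => fderiv ℝ (fderiv ℝ S.w) x (ev i)) ξ (giW S.w ξ (ev i)) e⟫ := fun i => by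
      rw [AlgB_T_apply, inner_ev]
      simp [ev, Finset.sum_apply, Pi.single_apply]
    simp only [h1]
    rw [h]
    congr 1
    refine Finset.sum_congr rfl fun i _ => ?_
    rw [real_inner_comm (S.II ξ z (ev i)), (S.II_calc ξ _ _ z).1]

theorem AlgB_one (S : Ref m N) (ξ : E m) {z : E N} (hz : ‖z‖ ≤ 1 / 2) (s : E N) (e : E m) :
    ⟪s, fderiv ℝ (fun q : E m × E N => S.lift q.1 q.2 e) (ξ, z) (S.eta ξ z s, S.mm ξ z s)⟫ =
      ⟪fderiv ℝ S.w ξ (S.al ξ s), fderiv ℝ (fderiv ℝ S.w) ξ (S.eta ξ z s) (e - S.KK ξ z e)⟫ +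
      ⟪S.nor ξ s, fderiv ℝ (fderiv ℝ S.w) ξ (S.eta ξ z s) (e - S.KK ξ z e)⟫ -
      (⟪gW S.w ξ (S.al ξ s), fderiv ℝ (giW S.w) ξ (S.eta ξ z s) (S.II ξ z e)⟫ +
        ⟪S.al ξ s, AlgB_T S ξ z e (S.eta ξ z s)⟫ +
        (⟪S.nor ξ s, fderiv ℝ (fderiv ℝ S.w) ξ (S.al ξ s) e⟫ -
          ⟪fderiv ℝ S.w ξ (S.KK ξ z (S.eta ξ z s)), fderiv ℝ (fderiv ℝ S.w) ξ (S.al ξ s) e⟫)) := by
  have hLa : ∀ a u v, ⟪S.La ξ a, fderiv ℝ (fderiv ℝ S.w) ξ u v⟫ =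
      ⟪fderiv ℝ S.w ξ a, fderiv ℝ (fderiv ℝ S.w) ξ u v⟫ := fun a u v => by
    have h := (S.La_bd ξ u v).2.2.2.2.2.2.1
    have h2 : ⟪S.ι.toContinuousLinearMap a, fderiv ℝ (fderiv ℝ S.w) ξ u v⟫ = 0 := by
      rw [← ContinuousLinearMap.adjoint_inner_right]
      unfold pr at h
      rw [h, inner_zero_right]
    simp only [Ref.La, add_apply, inner_add_left, h2, zero_add]
  have hgG : ∀ v, ⟪gW S.w ξ (S.al ξ s), giW S.w ξ v⟫ = ⟪S.al ξ s, v⟫ := fun v => by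
    rw [gW_symm, (giW_gW S.w ξ v).2]
  rw [S.fderiv_lift, inner_sub_right, (S.al_calc ξ _ s).2.2.1, ← AlgB_T_apply, inner_add_right,
    inner_add_right, hgG, S.AlgB_KK ξ e (S.mm ξ z s), hgG, ← (S.II_calc ξ _ _ _).2.1,
    (S.II_calc ξ _ _ _).1, (S.eta_calc ξ hz s).2.2.2.2.1, inner_sub_left, hLa]
  congr 1
  conv_lhs => rw [(S.al_calc ξ e s).1, inner_add_left, hLa]
  rw [← (S.al_calc ξ e s).1]

/-- Write `H = D² w`, `s_l = La a_l + n_l`, `η_l = a_l + K η_l`, `mm_l = n_l - La K η_l`. The terms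
with `n_l` add up to `∑ ⟪n_l, H (η_l, e - K e) - H (a_l, e)⟫ = O (√d ‖z‖)`. In the others replace
`∑ a_l ⊗ a_l` by `g⁻¹` at the cost `O (d)` (`sum_al`, or expand in the basis). The term of order
zero is `g^{ij} ⟪w_i, H (e_j, e)⟫ = D log sgW e` (`fderiv_sgW`). Terms of order one in `z`: with
`P = g^{ij} g^{ab} II_{bj} ⟪w_i, H (e_a, e)⟫`, the terms `g^{ij} ⟪w_i, H (K e_j, e)⟫` and
`g^{ij} ⟪Dw K e_i, H (e_j, e)⟫` are equal to `P`, the third derivative gives `- 2 P` (`min_deriv`,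
`fderiv_giW`, `fderiv_gW`), and `- D log sgW (K e) - ∑ j, ⟪e_j, ∂_j g⁻¹ (II e)⟫ = 0` is `div_sgW`
for `u = II e`. -/
theorem Ref.dlift_bd (m : ℕ) : ∃ c : ℝ, 1 ≤ c ∧ ∀ {N : ℕ} (S : Ref m N) (ξ : E m) (z : E N)
    (s : Fin m → E N) (e : E m), ξ ∈ S.D → ‖z‖ ≤ 1 / 2 → Orthonormal ℝ s →
    |S.dlift ξ z s e - fderiv ℝ (sgW S.w) ξ e / sgW S.w ξ| ≤
      c * (S.tilt ξ s + ‖z‖ ^ 2) * ‖e‖ := by
  refine ⟨1 + m * (m + 5), le_add_of_nonneg_right (by positivity), ?_⟩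
  intro N S ξ z s e hξ hz hs
  set Ψ := AlgB_ps (fderiv ℝ S.w ξ) (fderiv ℝ (fderiv ℝ S.w) ξ) (gW S.w ξ) (S.KK ξ z)
      (fderiv ℝ (giW S.w) ξ) (AlgB_T S ξ z e) (S.II ξ z e) e with hΨ
  have hW : ‖fderiv ℝ S.w ξ‖ ≤ 1 := (S.b1 ξ).trans (by norm_num)
  have hH : ‖fderiv ℝ (fderiv ℝ S.w) ξ‖ ≤ 1 / 4 := (S.b2 ξ).trans (by norm_num)
  have hH1 : ‖fderiv ℝ (fderiv ℝ S.w) ξ‖ ≤ 1 := (S.b2 ξ).trans (by norm_num)
  have hg : ‖gW S.w ξ‖ ≤ 2 := (S.La_bd ξ e e).2.2.2.2.2.2.2.trans (by norm_num)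
  have hDG : ‖fderiv ℝ (giW S.w) ξ‖ ≤ 2 := (dgW_bd ξ S.AlgB_w2 hW hH1).2.1
  have hz0 := norm_nonneg z
  have hK : ‖S.KK ξ z‖ ≤ ‖z‖ / 2 := (S.II_calc ξ e e z).2.2.2.1.trans (by linarith only [hz0])
  have hu : ‖S.II ξ z e‖ ≤ ‖z‖ / 4 * ‖e‖ :=
    (S.II ξ z).le_of_opNorm_le ((S.II_calc ξ e e z).2.2.1.trans (by linarith only [hz0])) e
  have hT := AlgB_T_bd S ξ z e
  have hd := S.str_bd ξ hs
  have h1 : |S.dlift ξ z s e - ∑ l, Ψ (S.al ξ (s l)) (S.al ξ (s l))| ≤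
      (S.tilt ξ s + m * (m + 5) * ‖z‖ ^ 2) * ‖e‖ := by
    rw [Ref.dlift, ← Finset.sum_sub_distrib]
    refine (Finset.abs_sum_le_sum_abs _ _).trans ?_
    calc _ ≤ ∑ l, (‖S.nor ξ (s l)‖ ^ 2 + (m + 5) * ‖z‖ ^ 2) * ‖e‖ := by
          refine Finset.sum_le_sum fun l _ => ?_
          have hl := hs.1 l
          rw [AlgB_one S ξ hz]
          refine AlgB_rem hW hH hg hDG hK hu hT ?_ ?_ ?_
          · exact (S.al_calc ξ e (s l)).2.2.2.2.2.1.trans hl.le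
          · have := (S.eta_calc ξ hz (s l)).2.2.2.2.2.1
            rw [hl] at this
            linarith only [this]
          · rw [← (S.eta_calc ξ hz (s l)).2.2.2.1]
            abel
      _ = _ := by
          rw [← Finset.sum_mul, Finset.sum_add_distrib, Ref.tilt]
          simp only [Finset.sum_const, Finset.card_univ, Fintype.card_fin, nsmul_eq_mul]
          ring
  have h2 : ∑ l, Ψ (S.al ξ (s l)) (S.al ξ (s l)) = fderiv ℝ (sgW S.w) ξ e / sgW S.w ξ -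
      ∑ i, Ψ (ev i) (S.str ξ s (ev i)) := by
    rw [AlgB_tr AlgB_lin.1 AlgB_lin.2, ← AlgB_main S hξ z e, ← Finset.sum_sub_distrib]
    refine Finset.sum_congr rfl fun i _ => ?_
    rw [← (AlgB_lin.2 (ev i)).map_sub]
    congr 1
    simp [Ref.str]
  have h3 : |∑ i, Ψ (ev i) (S.str ξ s (ev i))| ≤ m * (m + 5) * S.tilt ξ s * ‖e‖ := by
    refine (Finset.abs_sum_le_sum_abs _ _).trans ?_
    calc _ ≤ ∑ _i : Fin m, (m + 5) * S.tilt ξ s * ‖e‖ := by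
          refine Finset.sum_le_sum fun i _ => ?_
          refine (AlgB_ps_bd hW hH1 hg hDG (hK.trans (by linarith only [hz0])) hu hT (by linarith only [hz]) _ _).trans ?_
          have := (S.str ξ s).le_of_opNorm_le hd.2.2.2.2.1 (ev i)
          rw [norm_ev, mul_one] at this
          rw [norm_ev, mul_one]
          gcongr
      _ = _ := by
          simp only [Finset.sum_const, Finset.card_univ, Fintype.card_fin, nsmul_eq_mul]
          ring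
  rw [h2] at h1
  have h4 : 0 ≤ ‖z‖ ^ 2 * ‖e‖ := by positivity
  rw [abs_le] at h1 h3 ⊢
  constructor <;> nlinarith only [h1, h3, h4, h1.1, h1.2, h3.1, h3.2]

end Pool.Agent.MP_f6c0e6_an.Gen

end

section

/-! The geometry of the base of a piece. -/

set_option autoImplicit false

open MeasureTheory Filter Topology Set Metric
open scoped ENNReal RealInnerProductSpace

namespace Pool.Agent.MP_f6c0e6_an.Gen

variable {m N : ℕ}

/-- a bound for the value and the derivative at a point -/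
def BaseB_B {Y : Type*} [NormedAddCommGroup Y] [NormedSpace ℝ Y] (f : E m → Y) (x : E m)
    (a b : ℝ) : Prop := DifferentiableAt ℝ f x ∧ ‖f x‖ ≤ a ∧ ‖fderiv ℝ f x‖ ≤ b

section

variable {X Y Z : Type*} [NormedAddCommGroup X] [NormedSpace ℝ X] [NormedAddCommGroup Y]
  [NormedSpace ℝ Y] [NormedAddCommGroup Z] [NormedSpace ℝ Z] {x : E m} {a b a' b' : ℝ}

theorem BaseB_mono {f : E m → Y} (h : BaseB_B f x a b) (ha : a ≤ a') (hb : b ≤ b') :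
    BaseB_B f x a' b' := ⟨h.1, h.2.1.trans ha, h.2.2.trans hb⟩

theorem BaseB_add {f g : E m → Y} (h : BaseB_B f x a b) (h' : BaseB_B g x a' b') :
    BaseB_B (fun y => f y + g y) x (a + a') (b + b') := by
  refine ⟨h.1.add h'.1, (norm_add_le _ _).trans (add_le_add h.2.1 h'.2.1), ?_⟩
  rw [(h.1.hasFDerivAt.fun_add h'.1.hasFDerivAt).fderiv]
  exact (norm_add_le _ _).trans (add_le_add h.2.2 h'.2.2)

theorem BaseB_neg {f : E m → Y} (h : BaseB_B f x a b) : BaseB_B (fun y => -f y) x a b := by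
  refine ⟨h.1.neg, by rw [norm_neg]; exact h.2.1, ?_⟩
  rw [h.1.hasFDerivAt.fun_neg.fderiv, norm_neg]
  exact h.2.2

theorem BaseB_comp {f : E m → Y →L[ℝ] Z} {g : E m → X →L[ℝ] Y} (h : BaseB_B f x a b)
    (h' : BaseB_B g x a' b') :
    BaseB_B (fun y => f y ∘L g y) x (a * a') (a * b' + b * a') := by
  have ha : 0 ≤ a := (norm_nonneg _).trans h.2.1
  have hb : 0 ≤ b := (norm_nonneg _).trans h.2.2
  have ha' : 0 ≤ a' := (norm_nonneg _).trans h'.2.1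
  have hb' : 0 ≤ b' := (norm_nonneg _).trans h'.2.2
  refine ⟨h.1.clm_comp h'.1, (ContinuousLinearMap.opNorm_comp_le _ _).trans
    (mul_le_mul h.2.1 h'.2.1 (norm_nonneg _) ha), ?_⟩
  refine ContinuousLinearMap.opNorm_le_bound _ (by positivity) fun v => ?_
  have e : fderiv ℝ (fun y => f y ∘L g y) x v =
      f x ∘L fderiv ℝ g x v + fderiv ℝ f x v ∘L g x := by
    rw [(h.1.hasFDerivAt.clm_comp h'.1.hasFDerivAt).fderiv]
    rfl
  rw [e]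
  have e1 := (ContinuousLinearMap.opNorm_comp_le (f x) (fderiv ℝ g x v)).trans
    (mul_le_mul h.2.1 ((fderiv ℝ g x).le_of_opNorm_le h'.2.2 v) (norm_nonneg _) ha)
  have e2 := (ContinuousLinearMap.opNorm_comp_le (fderiv ℝ f x v) (g x)).trans
    (mul_le_mul ((fderiv ℝ f x).le_of_opNorm_le h.2.2 v) h'.2.1 (norm_nonneg _) (by positivity))
  exact ((norm_add_le _ _).trans (add_le_add e1 e2)).trans_eq (by ring)

theorem BaseB_apply {f : E m → Y →L[ℝ] Z} {g : E m → Y} (h : BaseB_B f x a b)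
    (h' : BaseB_B g x a' b') :
    BaseB_B (fun y => f y (g y)) x (a * a') (a * b' + b * a') := by
  have ha : 0 ≤ a := (norm_nonneg _).trans h.2.1
  have hb : 0 ≤ b := (norm_nonneg _).trans h.2.2
  have ha' : 0 ≤ a' := (norm_nonneg _).trans h'.2.1
  have hb' : 0 ≤ b' := (norm_nonneg _).trans h'.2.2
  refine ⟨h.1.clm_apply h'.1, ((f x).le_opNorm _).trans
    (mul_le_mul h.2.1 h'.2.1 (norm_nonneg _) ha), ?_⟩
  refine ContinuousLinearMap.opNorm_le_bound _ (by positivity) fun v => ?_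
  have e : fderiv ℝ (fun y => f y (g y)) x v =
      f x (fderiv ℝ g x v) + fderiv ℝ f x v (g x) := by
    rw [(h.1.hasFDerivAt.clm_apply h'.1.hasFDerivAt).fderiv]
    rfl
  rw [e]
  have e1 := ((f x).le_opNorm (fderiv ℝ g x v)).trans
    (mul_le_mul h.2.1 ((fderiv ℝ g x).le_of_opNorm_le h'.2.2 v) (norm_nonneg _) ha)
  have e2 := ((fderiv ℝ f x v).le_opNorm (g x)).trans
    (mul_le_mul ((fderiv ℝ f x).le_of_opNorm_le h.2.2 v) h'.2.1 (norm_nonneg _) (by positivity))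
  exact ((norm_add_le _ _).trans (add_le_add e1 e2)).trans_eq (by ring)

theorem BaseB_adj {f : E m → E m →L[ℝ] E N} (h : BaseB_B f x a b) :
    BaseB_B (fun y => (f y).adjoint) x a b := by
  have hb : 0 ≤ b := (norm_nonneg _).trans h.2.2
  have h1 := (GCalc_adj m N).hasFDerivAt.comp x h.1.hasFDerivAt
  refine ⟨h1.differentiableAt, by rw [LinearIsometryEquiv.norm_map]; exact h.2.1, ?_⟩
  refine ContinuousLinearMap.opNorm_le_bound _ hb fun v => ?_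
  have e : fderiv ℝ (fun y => (f y).adjoint) x = _ := h1.fderiv
  rw [e, ContinuousLinearMap.comp_apply, GCalc_adj_apply, LinearIsometryEquiv.norm_map]
  exact (fderiv ℝ f x).le_of_opNorm_le h.2.2 v

end

namespace Ref

variable (S : Ref m N)

/-- the coordinates of the tangential projection -/
noncomputable def BaseB_A (ξ : E m) : E N →L[ℝ] E m := giW S.w ξ ∘L (S.La ξ).adjoint

theorem BaseB_w2 : ContDiff ℝ 2 S.w := S.smooth.of_le (by norm_num)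

theorem BaseB_A_smooth : ContDiff ℝ 2 S.BaseB_A :=
  (contDiff_gW (n := 2) S.smooth).2.1.clm_comp
    ((GCalc_adj m N).contDiff.comp (S.F_calc 0).2.2.1)

theorem BaseB_gi (x : E m) : BaseB_B (giW S.w) x 1 2 :=
  ⟨(GCalc_diff x S.BaseB_w2).2.1, (gW_bd S.w x).1,
    (dgW_bd x S.BaseB_w2 ((S.b1 x).trans (by norm_num)) ((S.b2 x).trans (by norm_num))).2.1⟩

theorem BaseB_La (x : E m) : BaseB_B S.La x 2 1 :=
  ⟨(S.F_calc x).2.2.1.differentiable two_ne_zero x, (S.La_bd x 0 0).2.2.2.2.1.trans (by norm_num),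
    by rw [(S.F_calc x).2.2.2.1]; exact (S.b2 x).trans (by norm_num)⟩

theorem BaseB_Dw (x : E m) : BaseB_B (fderiv ℝ S.w) x 1 1 :=
  ⟨(GCalc_hasFDerivAt x S.BaseB_w2).differentiableAt, (S.b1 x).trans (by norm_num),
    (S.b2 x).trans (by norm_num)⟩

theorem BaseB_H (x v : E m) :
    BaseB_B (fun y => fderiv ℝ (fderiv ℝ S.w) y v) x ‖v‖ ‖v‖ := by
  have h1 : ContDiff ℝ 2 (fderiv ℝ S.w) := S.smooth.fderiv_right (by norm_num)
  have h2 : ContDiff ℝ 1 (fderiv ℝ (fderiv ℝ S.w)) := h1.fderiv_right (by norm_num)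
  have h0 := norm_nonneg v
  refine ⟨(h2.differentiable one_ne_zero x).clm_apply (differentiableAt_const v), ?_, ?_⟩
  · exact ((fderiv ℝ (fderiv ℝ S.w) x).le_of_opNorm_le (S.b2 x) v).trans (by linarith only [h0])
  · exact (S.b3 x v).trans (by linarith only [h0])

theorem BaseB_dA (x v : E m) : fderiv ℝ S.BaseB_A x v =
    giW S.w x ∘L (fderiv ℝ (fderiv ℝ S.w) x v).adjoint +
      (-((giW S.w x ∘L ((fderiv ℝ S.w x).adjoint ∘L fderiv ℝ (fderiv ℝ S.w) x v +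
        (fderiv ℝ (fderiv ℝ S.w) x v).adjoint ∘L fderiv ℝ S.w x)) ∘L giW S.w x)) ∘L
        (S.La x).adjoint := by
  have h1 := (S.BaseB_gi x).1.hasFDerivAt.clm_comp
    ((GCalc_adj m N).hasFDerivAt.comp x (S.BaseB_La x).1.hasFDerivAt)
  have h2 : fderiv ℝ S.BaseB_A x = _ := h1.fderiv
  have h3 : fderiv ℝ S.BaseB_A x v = giW S.w x ∘L (fderiv ℝ S.La x v).adjoint +
      fderiv ℝ (giW S.w) x v ∘L (S.La x).adjoint := by
    rw [h2]
    rfl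
  rw [h3, (S.F_calc x).2.2.2.1, GCalc_fderiv_giW x S.BaseB_w2, GCalc_fderiv_gW x S.BaseB_w2]
  rfl

theorem BaseB_dA_bd (x v : E m) :
    BaseB_B (fun y => fderiv ℝ S.BaseB_A y v) x (5 * ‖v‖) (29 * ‖v‖) := by
  have hg := S.BaseB_gi x
  have hH := S.BaseB_H x v
  have hD := S.BaseB_Dw x
  have h := BaseB_add (BaseB_comp hg (BaseB_adj hH))
    (BaseB_comp (BaseB_neg (BaseB_comp (BaseB_comp hg (BaseB_add (BaseB_comp (BaseB_adj hD) hH)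
      (BaseB_comp (BaseB_adj hH) hD))) hg)) (BaseB_adj (S.BaseB_La x)))
  rw [funext fun y => S.BaseB_dA y v]
  exact BaseB_mono h (le_of_eq (by ring)) (le_of_eq (by ring))

theorem BaseB_G (ξ₀ x : E m) :
    BaseB_B (fun y => S.F y - S.F ξ₀) x (2 * ‖x - ξ₀‖) 2 := by
  have h1 := (S.F_calc x).1.sub_const (S.F ξ₀)
  have h0 := norm_nonneg (x - ξ₀)
  refine ⟨h1.differentiableAt, (S.F_lip x ξ₀).2.1.trans (by linarith only [h0]), ?_⟩
  rw [h1.fderiv]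
  exact (S.BaseB_La x).2.1

end Ref

namespace Ref

variable (S : Ref m N) (ξ₀ : E m)

/-- the square of the distance to `F ξ₀` -/
noncomputable def r2 (ξ : E m) : ℝ := ‖S.F ξ - S.F ξ₀‖ ^ 2

/-- half the gradient of `r2` -/
noncomputable def X0 (ξ : E m) : E m := S.al ξ (S.F ξ - S.F ξ₀)

theorem BaseB_sqrt (ξ : E m) : √(S.r2 ξ₀ ξ) = ‖S.F ξ - S.F ξ₀‖ := Real.sqrt_sq (norm_nonneg _)

theorem r2_calc : ContDiff ℝ 2 (S.r2 ξ₀) ∧ ContDiff ℝ 2 (S.X0 ξ₀) ∧ ∀ ξ,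
    ‖ξ - ξ₀‖ ^ 2 ≤ S.r2 ξ₀ ξ ∧ S.r2 ξ₀ ξ ≤ 2 * ‖ξ - ξ₀‖ ^ 2 ∧
    (∀ v, fderiv ℝ (S.r2 ξ₀) ξ v = 2 * ⟪gW S.w ξ (S.X0 ξ₀ ξ), v⟫) ∧ ‖S.X0 ξ₀ ξ‖ ≤ 2 * ‖ξ - ξ₀‖ ∧
    (∀ t : ℝ, 0 ≤ t → t ≤ 1 → S.r2 ξ₀ (ξ₀ + t • (ξ - ξ₀)) ≤ S.r2 ξ₀ ξ) ∧
    (∀ ξ', |√(S.r2 ξ₀ ξ) - √(S.r2 ξ₀ ξ')| ≤ 2 * ‖ξ - ξ'‖) ∧
    ⟪gW S.w ξ (S.X0 ξ₀ ξ), S.X0 ξ₀ ξ⟫ - S.r2 ξ₀ ξ = -‖S.nor ξ (S.F ξ - S.F ξ₀)‖ ^ 2 := by
  have hG : ContDiff ℝ 2 fun ξ => S.F ξ - S.F ξ₀ :=
    ((S.F_calc ξ₀).2.1.of_le (by norm_num)).sub contDiff_const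
  refine ⟨hG.norm_sq ℝ, S.BaseB_A_smooth.clm_apply hG, fun ξ => ?_⟩
  obtain ⟨h1, h2, -⟩ := S.F_lip ξ ξ₀
  have h0 := norm_nonneg (ξ - ξ₀)
  refine ⟨pow_le_pow_left₀ h0 h1 2, ?_, fun v => ?_, ?_, fun t ht0 ht1 => ?_, fun ξ' => ?_, ?_⟩
  · refine (pow_le_pow_left₀ (norm_nonneg _) h2 2).trans ?_
    nlinarith only [sq_nonneg ‖ξ - ξ₀‖]
  · have h3 : fderiv ℝ (S.r2 ξ₀) ξ = _ := ((S.F_calc ξ).1.sub_const (S.F ξ₀)).norm_sq.fderiv
    rw [h3, X0, ← (S.al_calc ξ v (S.F ξ - S.F ξ₀)).2.2.1, two_smul, two_mul]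
    rfl
  · exact (S.al_calc ξ 0 _).2.2.2.2.2.1.trans (h2.trans (by linarith only [h1, h2]))
  · have h4 := S.F_star ξ₀ ξ ht0 ht1
    rw [r2, r2]
    exact pow_le_pow_left₀ (norm_nonneg _) h4 2
  · rw [S.BaseB_sqrt, S.BaseB_sqrt]
    refine (abs_norm_sub_norm_le _ _).trans ?_
    rw [sub_sub_sub_cancel_right]
    have h4 := norm_nonneg (ξ - ξ')
    exact (S.F_lip ξ ξ').2.1.trans (by linarith only [h4])
  · rw [← (S.La_bd ξ _ _).2.1, real_inner_self_eq_norm_sq, r2,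
      (S.al_calc ξ 0 (S.F ξ - S.F ξ₀)).2.2.2.2.1, X0]
    ring

theorem BaseB_dX (x v : E m) :
    fderiv ℝ (S.X0 ξ₀) x v = v + fderiv ℝ S.BaseB_A x v (S.F x - S.F ξ₀) := by
  have h1 := (S.BaseB_A_smooth.differentiable two_ne_zero x).hasFDerivAt.clm_apply
    ((S.F_calc x).1.sub_const (S.F ξ₀))
  have h2 : fderiv ℝ (S.X0 ξ₀) x = _ := h1.fderiv
  have h3 : fderiv ℝ (S.X0 ξ₀) x v =
      S.al x (S.La x v) + fderiv ℝ S.BaseB_A x v (S.F x - S.F ξ₀) := by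
    rw [h2]
    rfl
  rw [h3, (S.al_calc x v 0).2.2.2.1]

theorem BaseB_dX_bd (x : E m) : ‖fderiv ℝ (S.X0 ξ₀) x - 1‖ ≤ 10 * ‖x - ξ₀‖ := by
  refine ContinuousLinearMap.opNorm_le_bound _ (by positivity) fun v => ?_
  have h := (BaseB_apply (S.BaseB_dA_bd x v) (S.BaseB_G ξ₀ x)).2.1
  rw [sub_apply, S.BaseB_dX, one_apply_eq_self, add_sub_cancel_left]
  exact h.trans_eq (by ring)

theorem BaseB_ddX_bd (x : E m) (hx : ‖x - ξ₀‖ ≤ 1) :
    ‖fderiv ℝ (fderiv ℝ (S.X0 ξ₀)) x‖ ≤ 68 := by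
  have h1 : ContDiff ℝ 1 (fderiv ℝ (S.X0 ξ₀)) := (S.r2_calc ξ₀).2.1.fderiv_right (by norm_num)
  have h2 := (h1.differentiable one_ne_zero x).hasFDerivAt
  refine ContinuousLinearMap.opNorm_le_bound _ (by positivity) fun u => ?_
  refine ContinuousLinearMap.opNorm_le_bound _ (by positivity) fun v => ?_
  have h := BaseB_apply (S.BaseB_dA_bd x v) (S.BaseB_G ξ₀ x)
  have h3 := (h2.clm_apply (hasFDerivAt_const v x)).fderiv
  rw [funext fun y => S.BaseB_dX ξ₀ y v, (h.1.hasFDerivAt.const_add v).fderiv] at h3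
  have h4 : fderiv ℝ (fun y => fderiv ℝ S.BaseB_A y v (S.F y - S.F ξ₀)) x u =
      fderiv ℝ (fderiv ℝ (S.X0 ξ₀)) x u v := by
    rw [h3]
    simp
  rw [← h4]
  refine ((fderiv ℝ _ x).le_of_opNorm_le h.2.2 u).trans ?_
  have h5 := mul_nonneg (norm_nonneg u) (norm_nonneg v)
  nlinarith only [hx, h5]

theorem BaseB_nor (x : E m) : ‖S.nor x (S.F x - S.F ξ₀)‖ ≤ ‖x - ξ₀‖ ^ 2 / 100 := by
  refine (S.al_calc x (x - ξ₀) _).2.2.2.2.2.2.trans ?_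
  have h := (S.F_lip ξ₀ x).2.2.2.1
  rw [norm_sub_rev ξ₀ x, ← norm_neg] at h
  refine le_of_eq_of_le (congrArg _ ?_) h
  simp only [map_sub]
  abel

theorem BaseB_nor_bd (x : E m) (hx : ‖x - ξ₀‖ ≤ 1) :
    BaseB_B (fun y => S.nor y (S.F y - S.F ξ₀)) x 6 26 := by
  have h1 : BaseB_B (S.X0 ξ₀) x 2 11 := by
    refine ⟨(S.r2_calc ξ₀).2.1.differentiable two_ne_zero x,
      ((S.r2_calc ξ₀).2.2 x).2.2.2.1.trans (by linarith), ?_⟩
    have h2 := norm_add_le (fderiv ℝ (S.X0 ξ₀) x - 1) 1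
    have h3 : ‖(1 : E m →L[ℝ] E m)‖ ≤ 1 := ContinuousLinearMap.norm_id_le
    have h4 := S.BaseB_dX_bd ξ₀ x
    rw [sub_add_cancel] at h2
    linarith
  have h := BaseB_add (S.BaseB_G ξ₀ x) (BaseB_neg (BaseB_apply (S.BaseB_La x) h1))
  have e : (fun y => S.nor y (S.F y - S.F ξ₀)) =
      fun y => S.F y - S.F ξ₀ + -S.La y (S.X0 ξ₀ y) := by
    funext y
    rw [nor, X0, sub_eq_add_neg (S.F y - S.F ξ₀)]
  rw [e]
  exact BaseB_mono h (by linarith) (by norm_num)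

end Ref

/-- `X0 = A (F - F ξ₀)` with `A ξ = giW ∘ (La ξ)ᵀ`, `A La = 1`, and the first two derivatives of `A`
are bounded (`fderiv_giW`, `fderiv_gW`, `b2`, `b3`). The normal part `n` of `F ξ - F ξ₀` is at most
`‖ξ - ξ₀‖² / 100` (`F_lip`), and `n = F - F ξ₀ - La X0` has the derivative
`La (v - DX0 v) - H (v, X0)`. -/
theorem Ref.X0_bd (m : ℕ) : ∃ c : ℝ, 1 ≤ c ∧ ∀ {N : ℕ} (S : Ref m N) (ξ₀ ξ : E m), ‖ξ - ξ₀‖ ≤ 1 →
    ‖fderiv ℝ (S.X0 ξ₀) ξ - 1‖ ≤ c * ‖ξ - ξ₀‖ ∧ ‖fderiv ℝ (fderiv ℝ (S.X0 ξ₀)) ξ‖ ≤ c ∧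
    |⟪gW S.w ξ (S.X0 ξ₀ ξ), S.X0 ξ₀ ξ⟫ - S.r2 ξ₀ ξ| ≤ c * ‖ξ - ξ₀‖ ^ 3 ∧
    ‖fderiv ℝ (fun x => ⟪gW S.w x (S.X0 ξ₀ x), S.X0 ξ₀ x⟫ - S.r2 ξ₀ x) ξ‖ ≤ c * ‖ξ - ξ₀‖ ^ 2 := by
  refine ⟨68, by norm_num, fun S ξ₀ ξ h => ?_⟩
  have h0 := norm_nonneg (ξ - ξ₀)
  have hn := S.BaseB_nor ξ₀ ξ
  refine ⟨(S.BaseB_dX_bd ξ₀ ξ).trans (by linarith), S.BaseB_ddX_bd ξ₀ ξ h, ?_, ?_⟩
  · rw [((S.r2_calc ξ₀).2.2 ξ).2.2.2.2.2.2, abs_neg, abs_of_nonneg (sq_nonneg _)]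
    refine (pow_le_pow_left₀ (norm_nonneg _) hn 2).trans ?_
    have h3 : 0 ≤ ‖ξ - ξ₀‖ ^ 3 := by positivity
    have h4 : ‖ξ - ξ₀‖ ^ 3 * ‖ξ - ξ₀‖ ≤ ‖ξ - ξ₀‖ ^ 3 * 1 := mul_le_mul_of_nonneg_left h h3
    nlinarith only [h3, h4]
  · have hb := S.BaseB_nor_bd ξ₀ ξ h
    rw [funext fun x => ((S.r2_calc ξ₀).2.2 x).2.2.2.2.2.2,
      hb.1.hasFDerivAt.norm_sq.fun_neg.fderiv, norm_neg, two_smul]
    have h1 := ContinuousLinearMap.opNorm_comp_le (innerSL ℝ (S.nor ξ (S.F ξ - S.F ξ₀)))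
      (fderiv ℝ (fun y => S.nor y (S.F y - S.F ξ₀)) ξ)
    rw [innerSL_apply_norm] at h1
    have h2 := h1.trans (mul_le_mul hn hb.2.2 (norm_nonneg _) (by positivity))
    refine (norm_add_le _ _).trans ?_
    nlinarith only [h2, sq_nonneg ‖ξ - ξ₀‖]

end Pool.Agent.MP_f6c0e6_an.Gen

end
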