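import Pool.Agent.MP_f6c0e6_an.Defs

section

/-!
Working definitions for the proof in every dimension.
-/

set_option autoImplicit false

open MeasureTheory Filter Topology Set Metric
open scoped ENNReal RealInnerProductSpace

namespace Pool.Agent.MP_f6c0e6_an.Gen

abbrev E (N : ℕ) := EuclideanSpace ℝ (Fin N)

variable {m N : ℕ}

/-! ### Calculus -/

/-- the standard basis -/
noncomputable def ev (i : Fin m) : E m := EuclideanSpace.single i 1

/-- the divergence -/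
noncomputable def dv (V : E m → E m) (x : E m) : ℝ := ∑ i, ⟪ev i, fderiv ℝ V x (ev i)⟫

/-- the Laplacian -/
noncomputable def lap {F : Type*} [NormedAddCommGroup F] [NormedSpace ℝ F] (g : E m → F)
    (x : E m) : F := ∑ i, fderiv ℝ (fderiv ℝ g) x (ev i) (ev i)

/-- test functions of class `C^k` with compact support in a set -/
structure Test {F : Type*} [NormedAddCommGroup F] [NormedSpace ℝ F] (k : ℕ) (g : E m → F)
    (O : Set (E m)) : Prop where
  smooth : ContDiff ℝ k g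
  cpt : HasCompactSupport g
  supp : tsupport g ⊆ O

/-- bounds for a function and its first two derivatives -/
structure Bd2 {F : Type*} [NormedAddCommGroup F] [NormedSpace ℝ F] (g : E m → F)
    (a0 a1 a2 : ℝ) : Prop where
  b0 : ∀ x, ‖g x‖ ≤ a0
  b1 : ∀ x, ‖fderiv ℝ g x‖ ≤ a1
  b2 : ∀ x, ‖fderiv ℝ (fderiv ℝ g) x‖ ≤ a2

/-- a Lipschitz bound with a real constant -/
def Lip {X : Type*} [NormedAddCommGroup X] {F : Type*} [NormedAddCommGroup F] (K : ℝ)
    (f : X → F) : Prop := ∀ x x', ‖f x - f x'‖ ≤ K * ‖x - x'‖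

/-- a weight: values in `[0, 1]`, Lipschitz, zero outside `O` -/
structure Wt (ω : E m → ℝ) (K : ℝ) (O : Set (E m)) : Prop where
  nonneg : ∀ x, 0 ≤ ω x
  le_one : ∀ x, ω x ≤ 1
  lip : Lip K ω
  zero : ∀ x, x ∉ O → ω x = 0

/-! ### Kernels -/

/-- the profile of the mollifier -/
noncomputable def gam (t : ℝ) : ℝ := (max (1 - t) 0) ^ 4

/-- the profile of the potential kernel; its derivative is `- 5 * gam` -/
noncomputable def Gam (t : ℝ) : ℝ := (max (1 - t) 0) ^ 5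

/-- the mass of the kernel -/
noncomputable def cg (m : ℕ) : ℝ := ∫ x : E m, gam (‖x‖ ^ 2)

/-- the mollifier of radius `r`, of integral one -/
noncomputable def rho (r : ℝ) (v : E m) : ℝ := gam (‖v‖ ^ 2 / r ^ 2) / (cg m * r ^ m)

/-- the kernel whose gradient is `- rho r v • v`; it is homogeneous of degree `2 - m` -/
noncomputable def pk (r : ℝ) (v : E m) : ℝ :=
  Gam (‖v‖ ^ 2 / r ^ 2) * r ^ 2 / (10 * cg m * r ^ m)

/-- the truncated Newtonian potential; its Laplacian is `rho b - rho a` -/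
noncomputable def Gm (a b : ℝ) (v : E m) : ℝ := ∫ r in a..b, pk r v / r

/-- the gradient of `Gm a b` is `- Gt a b v • v` -/
noncomputable def Gt (a b : ℝ) (v : E m) : ℝ := ∫ r in a..b, rho r v / r

/-- a smooth bump on the line of integral one, supported in `[-1, 1]` -/
noncomputable def bump1 : ℝ → ℝ :=
  (⟨1 / 2, 1, by norm_num, by norm_num⟩ : ContDiffBump (0 : ℝ)).normed volume

/-- a smooth mollifier of product form, supported in the ball of radius `s` -/
noncomputable def th (s : ℝ) (x : E m) : ℝ :=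
  ∏ i, (((m : ℝ) + 1) / s * bump1 (((m : ℝ) + 1) / s * x i))

/-! ### Frames, stationarity, kernel mass -/

/-- a measurable field of orthonormal `m`-frames -/
structure Fr (m N : ℕ) where
  s : Fin m → E N → E N
  meas : ∀ i, Measurable (s i)
  orth : ∀ y, Orthonormal ℝ fun i => s i y

/-- the tangential divergence -/
noncomputable def Fr.div (fr : Fr m N) (X : E N → E N) (y : E N) : ℝ :=
  ∑ i, ⟪fr.s i y, fderiv ℝ X y (fr.s i y)⟫

/-- stationarity in the set `O`, in a form that needs no cut-off functions -/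
def Stat (fr : Fr m N) (μ : Measure (E N)) (O : Set (E N)) : Prop :=
  ∀ (X : E N → E N) (K : Set (E N)), IsCompact K → K ⊆ O → (∀ y ∈ K, ContDiffAt ℝ 1 X y) →
    (∀ᵐ y ∂μ, y ∉ K → X =ᶠ[𝓝 y] 0) → ∫ y, fr.div X y ∂μ = 0

/-- the mass ratio with the kernel `gam` -/
noncomputable def mk (m : ℕ) (μ : Measure (E N)) (y : E N) (ρ : ℝ) : ℝ :=
  (ρ ^ m)⁻¹ * ∫ x, gam (‖x - y‖ ^ 2 / ρ ^ 2) ∂μ

/-- the upper limit of the mass ratio at `y` is at least `κ` -/
def LD (m : ℕ) (μ : Measure (E N)) (y : E N) (κ : ℝ) : Prop :=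
  ∀ ε > 0, ∃ᶠ ρ in 𝓝[>] (0 : ℝ), κ - ε ≤ mk m μ y ρ

/-- the mass of every ball is at most `A ρ ^ m` -/
def UB (m : ℕ) (μ : Measure (E N)) (A : ℝ) : Prop :=
  ∀ (y : E N) (ρ : ℝ), 0 < ρ → (μ (ball y ρ)).toReal ≤ A * ρ ^ m

/-- the modulus of the determinant of `m` vectors of `ℝ^m` -/
noncomputable def vol (v : Fin m → E m) : ℝ := |(Matrix.of fun i j => v j i).det|

/-- the Jacobian of a map into `ℝ^m` along the frame -/
noncomputable def Fr.jac (fr : Fr m N) (g : E N → E m) (y : E N) : ℝ :=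
  vol fun j => fderiv ℝ g y (fr.s j y)

/-- the area formula with integer multiplicity -/
def AreaProp (fr : Fr m N) (μ : Measure (E N)) : Prop :=
  ∀ (O : Set (E N)) (g : E N → E m), IsOpen O → ContDiffOn ℝ 1 g O → Measurable g →
    ∃ θ : E m → ℕ∞, Measurable θ ∧ ∀ ψ : E m → ℝ≥0∞, Measurable ψ →
      ∫⁻ y in O, ψ (g y) * ENNReal.ofReal (fr.jac g y) ∂μ = ∫⁻ ξ, ψ ξ * (θ ξ : ℝ≥0∞)

/-- the rescaled measure -/
noncomputable def scl (m : ℕ) (μ : Measure (E N)) (y₀ : E N) (r : ℝ) : Measure (E N) :=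
  ENNReal.ofReal (r ^ m)⁻¹ • μ.map fun y => r⁻¹ • (y - y₀)

/-- the frames of the rescaled varifold -/
noncomputable def Fr.scl (fr : Fr m N) (y₀ : E N) (r : ℝ) : Fr m N where
  s := fun i y => fr.s i (y₀ + r • y)
  meas := fun i => (fr.meas i).comp (by fun_prop)
  orth := fun y => fr.orth _

/-! ### The base model for the multiplicity -/

/-- A finite measure on an abstract space with a foot point `ζ` in the open set `O`, tilt `d`,
square height `h`, the inner variation identity and the area formula. -/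
structure Lk (m : ℕ) (c : ℝ) (Ω : Type) [MeasurableSpace Ω] where
  μ : Measure Ω
  ζ : Ω → E m
  d : Ω → ℝ
  h : Ω → ℝ
  Nm : Ω → Fin m → Fin m → ℝ
  Bv : Ω → E m
  J : Ω → ℝ
  θ : E m → ℕ
  O : Set (E m)
  T : ℝ
  c_ge : 1 ≤ c
  fin : IsFiniteMeasure μ
  mζ : Measurable ζ
  md : Measurable d
  mh : Measurable h
  mN : ∀ i j, Measurable fun y => Nm y i j
  mBv : Measurable Bv
  mJ : Measurable J
  mθ : Measurable θ
  isOpen : IsOpen O
  ae : ∀ᵐ y ∂μ, ‖ζ y‖ ≤ 100 ∧ 0 ≤ d y ∧ d y ≤ m ∧ 0 ≤ h y ∧ h y ≤ T ^ 2 ∧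
    (∀ i j, |Nm y i j| ≤ c * d y) ∧ ‖Bv y‖ ≤ c * (d y + h y) ∧ 0 ≤ J y ∧
    |1 - d y / 2 - J y| ≤ c * (d y ^ 2 + h y)
  inner : ∀ V : E m → E m, Test 1 V O →
    ∫ y, (dv V (ζ y) - ∑ i, ∑ j, Nm y i j * ⟪ev i, fderiv ℝ V (ζ y) (ev j)⟫ +
      ⟪Bv y, V (ζ y)⟫) ∂μ = 0
  area : ∀ ψ : E m → ℝ≥0∞, Measurable ψ →
    ∫⁻ y, ψ (ζ y) * ENNReal.ofReal (J y) ∂μ = ∫⁻ ξ, ψ ξ * (θ ξ : ℝ≥0∞)

namespace Lk

variable {c : ℝ} {Ω : Type} [MeasurableSpace Ω] (B : Lk m c Ω)

/-- energy plus square height over a set of foot points -/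
noncomputable def PP (Z : Set (E m)) : ℝ := ∫ y in B.ζ ⁻¹' Z, (B.d y + B.h y) ∂B.μ

/-- the local mass at scale `s` -/
noncomputable def ff (s : ℝ) (ξ : E m) : ℝ := ∫ y, rho s (B.ζ y - ξ) * (1 - B.d y / 2) ∂B.μ

/-- the signed defect tested against `g` -/
noncomputable def Y (Q : ℕ) (g : E m → ℝ) : ℝ :=
  2 * Q * (∫ ξ, g ξ) - 2 * ∫ y, g (B.ζ y) * (1 - B.d y / 2) ∂B.μ

/-- the mass of the steep part over a set of foot points -/
noncomputable def steep (x : ℝ) (Z : Set (E m)) : ℝ := (B.μ {y | x < B.d y ∧ B.ζ y ∈ Z}).toReal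

/-- the square of the tilt over a set of foot points -/
noncomputable def D2 (Z : Set (E m)) : ℝ := ∫ y in B.ζ ⁻¹' Z, B.d y ^ 2 ∂B.μ

/-- the measure dominating the defect -/
noncomputable def bet (Q : ℕ) : Measure (E m) :=
  (B.μ.withDensity fun y => ENNReal.ofReal (2 * c * (B.d y ^ 2 + B.h y))).map B.ζ +
    volume.withDensity fun ξ => ENNReal.ofReal (2 * |(B.θ ξ : ℝ) - Q|)

end Lk

/-! ### Graphs and the minimal surface system -/

/-- the metric of the graph of `w` -/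
noncomputable def gW (w : E m → E N) (x : E m) : E m →L[ℝ] E m :=
  1 + (fderiv ℝ w x).adjoint ∘L fderiv ℝ w x

/-- the inverse metric -/
noncomputable def giW (w : E m → E N) (x : E m) : E m →L[ℝ] E m := Ring.inverse (gW w x)

/-- the area element -/
noncomputable def sgW (w : E m → E N) (x : E m) : ℝ :=
  √(LinearMap.det (gW w x : E m →ₗ[ℝ] E m))

/-- the minimal surface system in non-divergence form -/
def MinAt (w : E m → E N) (x : E m) : Prop :=
  ∑ i, fderiv ℝ (fderiv ℝ w) x (ev i) (giW w x (ev i)) = 0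

/-- the coefficient of the first order part of the adjoint Jacobi operator -/
noncomputable def cW (w ψ : E m → E N) (j : Fin m) (x : E m) : E N :=
  fderiv ℝ w x (giW w x ((fderiv ℝ (fderiv ℝ w) x (ev j)).adjoint (ψ x)))

/-- the adjoint of the linearised minimal surface operator for the measure `sgW w x dx` -/
noncomputable def Lst (w ψ : E m → E N) (x : E m) : E N :=
  ∑ j, fderiv ℝ (fderiv ℝ ψ) x (ev j) (giW w x (ev j)) +
    (2 : ℝ) • ∑ j, fderiv ℝ (cW w ψ j) x (giW w x (ev j))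

/-- an integer vector as a point of `ℝ^m` -/
noncomputable def kv (k : Fin m → ℤ) : E m := WithLp.toLp 2 fun i => (k i : ℝ)

/-- `f` is an absolutely convergent trigonometric series, of norm at most `M` in the Wiener algebra
with weight `(1 + |k|) ^ s` -/
def Wn (s : ℕ) (f : E m → E N) (M : ℝ) : Prop :=
  ∃ a b : (Fin m → ℤ) → E N,
    Summable (fun k => (1 + ‖kv k‖) ^ s * (‖a k‖ + ‖b k‖)) ∧
    ∑' k, (1 + ‖kv k‖) ^ s * (‖a k‖ + ‖b k‖) ≤ M ∧
    ∀ x, HasSum (fun k => Real.cos ⟪kv k, x⟫ • a k + Real.sin ⟪kv k, x⟫ • b k) (f x)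

/-- the order of the Wiener algebra of the references -/
def s0 (m : ℕ) : ℕ := m + 8

/-! ### Flat frames -/

/-- the orthogonal projection on the plane of `ι`, in coordinates -/
noncomputable def pr (ι : E m →ₗᵢ[ℝ] E N) : E N →L[ℝ] E m := ι.toContinuousLinearMap.adjoint

/-- the vertical part -/
noncomputable def vt (ι : E m →ₗᵢ[ℝ] E N) (y : E N) : E N := y - ι (pr ι y)

/-- the gradient of `g * √(g ^ 2 + |z| ^ 2)` -/
noncomputable def Ph1 (g : ℝ) (z : E N) : E N := (g / √(g ^ 2 + ‖z‖ ^ 2)) • z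

/-- the Hessian of `g * √(g ^ 2 + |z| ^ 2)` -/
noncomputable def Ph2 (g : ℝ) (z u v : E N) : ℝ :=
  g / √(g ^ 2 + ‖z‖ ^ 2) * (⟪u, v⟫ - ⟪z, u⟫ * ⟪z, v⟫ / (g ^ 2 + ‖z‖ ^ 2))

/-- one half of the pair energy density, for frames `s` at the first and `s'` at the second point
and the height difference `z` -/
noncomputable def peh (ι : E m →ₗᵢ[ℝ] E N) (g : ℝ) (z : E N) (s s' : Fin m → E N) : ℝ :=
  ∑ l, Ph2 g z (vt ι (s l)) (vt ι (s l)) -
    ∑ l, ∑ l', ⟪pr ι (s l), pr ι (s' l')⟫ * Ph2 g z (vt ι (s l)) (vt ι (s' l'))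

/-- the pair energy density -/
noncomputable def pe (fr : Fr m N) (ι : E m →ₗᵢ[ℝ] E N) (g : ℝ) (y y' : E N) : ℝ :=
  peh ι g (vt ι (y - y')) (fun l => fr.s l y) (fun l => fr.s l y') +
    peh ι g (vt ι (y - y')) (fun l => fr.s l y') (fun l => fr.s l y)

/-- the pair energy at height `g` and distance `r` with the weight `ω` on the first point -/
noncomputable def PR (fr : Fr m N) (μ : Measure (E N)) (ι : E m →ₗᵢ[ℝ] E N) (g r : ℝ)
    (ω : E N → ℝ) : ℝ :=
  ∫ y, ∫ y', ω y * rho r (pr ι (y - y')) * pe fr ι g y y' ∂μ ∂μ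

/-- the tilt of a frame -/
noncomputable def tlt (ι : E m →ₗᵢ[ℝ] E N) (s : Fin m → E N) : ℝ := ∑ l, ‖vt ι (s l)‖ ^ 2

/-- the horizontal part of the projection on the normal space of the frame -/
noncomputable def NF (ι : E m →ₗᵢ[ℝ] E N) (s : Fin m → E N) (u v : E m) : ℝ :=
  ⟪u, v⟫ - ∑ l, ⟪pr ι (s l), u⟫ * ⟪pr ι (s l), v⟫

/-- the vertical part of the tangential projection of a horizontal vector -/
noncomputable def BF (ι : E m →ₗᵢ[ℝ] E N) (s : Fin m → E N) (u : E m) : E N :=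
  ∑ l, ⟪pr ι (s l), u⟫ • vt ι (s l)

/-- the open cylinder of the flat model -/
def cylF (ι : E m →ₗᵢ[ℝ] E N) : Set (E N) := {y | ‖pr ι y‖ < 10 ∧ ‖vt ι y‖ < 1}

/-- A stationary varifold over the ball of radius `10` of the plane of `ι`, of height at most `τ`,
with about `Q` sheets. -/
structure Flat (m N Q : ℕ) (A : ℝ) where
  fr : Fr m N
  μ : Measure (E N)
  ι : E m →ₗᵢ[ℝ] E N
  τ : ℝ
  τ_pos : 0 < τ
  τ_le : τ ≤ 1 / 100
  A_ge : 1 ≤ A
  fin : IsFiniteMeasure μ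
  ae : ∀ᵐ y ∂μ, ‖pr ι y‖ < 10 ∧ ‖vt ι y‖ ≤ τ ∧ LD m μ y (cg m)
  stat : Stat fr μ (cylF ι)
  mass : UB m μ A
  area : AreaProp fr μ
  anchor : |∫ y, rho 1 (pr ι y) * (1 - tlt ι (fun l => fr.s l y) / 2) ∂μ - Q| ≤ 1 / 20

namespace Flat

variable {Q : ℕ} {A : ℝ} (F : Flat m N Q A)

/-- the foot point -/
noncomputable def x (y : E N) : E m := pr F.ι y

/-- the height -/
noncomputable def z (y : E N) : E N := vt F.ι y

/-- the horizontal part of the frame -/
noncomputable def a (l : Fin m) (y : E N) : E m := pr F.ι (F.fr.s l y)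

/-- the vertical part of the frame -/
noncomputable def b (l : Fin m) (y : E N) : E N := vt F.ι (F.fr.s l y)

/-- the tilt -/
noncomputable def d (y : E N) : ℝ := tlt F.ι fun l => F.fr.s l y

/-- the stress -/
noncomputable def NN (y : E N) (u v : E m) : ℝ := NF F.ι (fun l => F.fr.s l y) u v

/-- the slope -/
noncomputable def Bt (y : E N) (u : E m) : E N := BF F.ι (fun l => F.fr.s l y) u

/-- the contraction of the stress with a linear map -/
noncomputable def ND (y : E N) (L : E m →L[ℝ] E m) : ℝ := ∑ i, F.NN y (ev i) (L (ev i))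

/-- the excess of mass tested against `f` -/
noncomputable def ee (f : E m → ℝ) : ℝ := ∫ y, f (F.x y) ∂F.μ - Q * ∫ ξ, f ξ

/-- the energy tested against `f` -/
noncomputable def DD (f : E m → ℝ) : ℝ := ∫ y, f (F.x y) * F.d y ∂F.μ

/-- the energy over a set of foot points -/
noncomputable def DS (Z : Set (E m)) : ℝ := ∫ y in F.x ⁻¹' Z, F.d y ∂F.μ

/-- the signed defect -/
noncomputable def Y (f : E m → ℝ) : ℝ := F.DD f - 2 * F.ee f

/-- the energy ratio -/
noncomputable def psi (ξ : E m) (ρ : ℝ) : ℝ := F.DD fun v => pk ρ (v - ξ)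

/-- the excess ratio -/
noncomputable def Phi (ξ : E m) (ρ : ℝ) : ℝ := F.ee fun v => pk ρ (v - ξ)

/-- the defect ratio -/
noncomputable def eta (ξ : E m) (ρ : ℝ) : ℝ := F.Y fun v => pk ρ (v - ξ)

/-- the radial energy ratio -/
noncomputable def nn (ξ : E m) (ρ : ℝ) : ℝ :=
  ∫ y, rho ρ (F.x y - ξ) * F.NN y (F.x y - ξ) (F.x y - ξ) ∂F.μ

/-- the almost monotone quantity -/
noncomputable def Xi (ξ : E m) (ρ : ℝ) : ℝ := max (F.Phi ξ ρ) (F.psi ξ ρ / 2)

/-- the potential of the energy -/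
noncomputable def UU (a b : ℝ) (ξ : E m) : ℝ := F.DD fun v => Gm a b (v - ξ)

/-- the pair energy over a set of foot points -/
noncomputable def RS (g r : ℝ) (Z : Set (E m)) : ℝ :=
  PR F.fr F.μ F.ι g r fun y => Z.indicator 1 (F.x y)

end Flat

/-! ### Reference graphs and Fermi coordinates -/

/-- the graph of a function with small derivatives, minimal over the open set `D` -/
structure Ref (m N : ℕ) where
  ι : E m →ₗᵢ[ℝ] E N
  w : E m → E N
  D : Set (E m)
  smooth : ContDiff ℝ 3 w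
  vert : ∀ ξ, pr ι (w ξ) = 0
  b0 : ∀ ξ, ‖w ξ‖ ≤ 1 / 100
  b1 : ∀ ξ, ‖fderiv ℝ w ξ‖ ≤ 1 / 100
  b2 : ∀ ξ, ‖fderiv ℝ (fderiv ℝ w) ξ‖ ≤ 1 / 100
  b3 : ∀ ξ u, ‖fderiv ℝ (fun x => fderiv ℝ (fderiv ℝ w) x u) ξ‖ ≤ 1 / 100 * ‖u‖
  isOpen : IsOpen D
  min : ∀ ξ ∈ D, MinAt w ξ

namespace Ref

variable (S : Ref m N)

/-- the parametrisation -/
noncomputable def F (ξ : E m) : E N := S.ι ξ + S.w ξ

/-- its derivative -/
noncomputable def La (ξ : E m) : E m →L[ℝ] E N := S.ι.toContinuousLinearMap + fderiv ℝ S.w ξ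

/-- the height over the graph -/
noncomputable def gh (y : E N) : E N := y - S.F (pr S.ι y)

/-- the tubular neighbourhood -/
def tube : Set (E N) := {y | ‖S.gh y‖ < 1 / 2}

open Classical in
/-- the foot point -/
noncomputable def zeta (y : E N) : E m :=
  if y ∈ S.tube then Classical.epsilon fun ξ => (S.La ξ).adjoint (y - S.F ξ) = 0 else 0

open Classical in
/-- the normal displacement -/
noncomputable def zz (y : E N) : E N := if y ∈ S.tube then y - S.F (S.zeta y) else 0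

/-- the tangential part of `s` is `La ξ (al ξ s)` -/
noncomputable def al (ξ : E m) (s : E N) : E m := giW S.w ξ ((S.La ξ).adjoint s)

/-- the normal part -/
noncomputable def nor (ξ : E m) (s : E N) : E N := s - S.La ξ (S.al ξ s)

/-- the second fundamental form in the direction `z` -/
noncomputable def II (ξ : E m) (z : E N) : E m →L[ℝ] E m :=
  ∑ i, (innerSL ℝ z ∘L fderiv ℝ (fderiv ℝ S.w) ξ (ev i)).smulRight (ev i)

/-- the shape operator in the direction `z` -/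
noncomputable def KK (ξ : E m) (z : E N) : E m →L[ℝ] E m := giW S.w ξ ∘L S.II ξ z

/-- the derivative of the foot point in the direction `s` -/
noncomputable def eta (ξ : E m) (z s : E N) : E m := Ring.inverse (1 - S.KK ξ z) (S.al ξ s)

/-- the derivative of the normal displacement in the direction `s` -/
noncomputable def mm (ξ : E m) (z s : E N) : E N := s - S.La ξ (S.eta ξ z s)

/-- the lift of the base vector `e` -/
noncomputable def lift (ξ : E m) (z : E N) (e : E m) : E N := S.La ξ (e - S.KK ξ z e)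

/-- the tilt of the frame `s` at the foot point `ξ` -/
noncomputable def tilt (ξ : E m) (s : Fin m → E N) : ℝ := ∑ l, ‖S.nor ξ (s l)‖ ^ 2

/-- the stress of the frame `s` at the foot point `ξ`, on covectors -/
noncomputable def str (ξ : E m) (s : Fin m → E N) : E m →L[ℝ] E m :=
  giW S.w ξ - ∑ l, (innerSL ℝ (S.al ξ (s l))).smulRight (S.al ξ (s l))

variable (fr : Fr m N)

/-- the tilt -/
noncomputable def dd (y : E N) : ℝ := S.tilt (S.zeta y) fun l => fr.s l y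

/-- the stress -/
noncomputable def Nn (y : E N) : E m →L[ℝ] E m := S.str (S.zeta y) fun l => fr.s l y

/-- the horizontal part of the tangential projection of the displacement -/
noncomputable def pp (y : E N) : E m :=
  ∑ l, ⟪S.zz y, fr.s l y⟫ • S.al (S.zeta y) (fr.s l y)

/-- the square of the tangential derivative of the height over the graph -/
noncomputable def qq (y : E N) : ℝ :=
  ∑ l, ‖fr.s l y - S.La (pr S.ι y) (pr S.ι (fr.s l y))‖ ^ 2

/-- the defect in Fermi coordinates -/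
noncomputable def YF (μ : Measure (E N)) (Q : ℕ) (g : E m → ℝ) : ℝ :=
  2 * Q * (∫ ξ, g ξ) -
    2 * ∫ y, g (S.zeta y) * (1 - S.dd fr y / 2) / sgW S.w (S.zeta y) ∂μ

/-- the weighted local mean of the height at scale `s` -/
noncomputable def mean (μ : Measure (E N)) (Q s : ℝ) (ξ : E m) : E N :=
  ∫ y, th s (pr S.ι y - ξ) • ((Q * sgW S.w (pr S.ι y))⁻¹ • S.gh y) ∂μ

/-- the weighted local mass at scale `s` -/
noncomputable def mass (μ : Measure (E N)) (s : ℝ) (ξ : E m) : ℝ :=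
  ∫ y, th s (pr S.ι y - ξ) / sgW S.w (pr S.ι y) ∂μ

/-- the square integral of the height over a ball -/
noncomputable def I2 (μ : Measure (E N)) (y₀ : E N) (t : ℝ) : ℝ :=
  ∫ y in ball y₀ t, ‖S.gh y‖ ^ 2 ∂μ

/-- the points of the base whose image is in a ball -/
def dom (y₀ : E N) (t : ℝ) : Set (E m) := {ξ | ‖S.F ξ - y₀‖ < t}

end Ref

/-- a stationary piece in the ball of centre `y₀` and radius `R`, of height at most `T` -/
structure Piece (S : Ref m N) (fr : Fr m N) (μ : Measure (E N)) (y₀ : E N) (R T A : ℝ) :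
    Prop where
  T_pos : 0 < T
  T_le : T ≤ R / 100
  R_le : R ≤ 1 / 10
  y_le : ‖y₀‖ ≤ 1
  A_ge : 1 ≤ A
  sub : S.dom y₀ (R + T) ⊆ S.D
  cen : ‖S.gh y₀‖ ≤ T
  fin : IsFiniteMeasure μ
  ae : ∀ᵐ y ∂μ, y ∈ ball y₀ R ∧ ‖S.gh y‖ ≤ T ∧ LD m μ y (cg m)
  stat : Stat fr μ (ball y₀ R)
  mass : UB m μ A
  area : AreaProp fr μ

/-! ### The base model for the Carleman estimate -/

/-- The data pushed to the base: metric `gg`, square `r2` of the distance to the centre `ξ₀`, half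
its gradient `X0`, stress `Nn`, horizontal part `p`, and the three first variation identities. -/
structure Base (m : ℕ) (c : ℝ) (Ω : Type) [MeasurableSpace Ω] extends Lk m c Ω where
  Nn : Ω → E m →L[ℝ] E m
  p : Ω → E m
  gg : E m → E m →L[ℝ] E m
  r2 : E m → ℝ
  X0 : E m → E m
  ξ₀ : E m
  R : ℝ
  R_pos : 0 < R
  R_le : R ≤ 1 / 10
  T_pos : 0 < T
  T_le : T ≤ 1 / 100
  mNn : ∀ u v, Measurable fun y => ⟪u, Nn y v⟫
  mp : Measurable p
  O_eq : O = {ξ | r2 ξ < R ^ 2}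
  cgg : ContDiff ℝ 1 gg
  cr2 : ContDiff ℝ 2 r2
  cX0 : ContDiff ℝ 2 X0
  gg_symm : ∀ ξ u v, ⟪gg ξ u, v⟫ = ⟪u, gg ξ v⟫
  gg_bd : ∀ ξ, ‖gg ξ‖ ≤ 2
  r2_lo : ∀ ξ, ‖ξ - ξ₀‖ ^ 2 ≤ r2 ξ
  r2_hi : ∀ ξ, r2 ξ ≤ 2 * ‖ξ - ξ₀‖ ^ 2
  dr2 : ∀ ξ v, fderiv ℝ r2 ξ v = 2 * ⟪gg ξ (X0 ξ), v⟫
  X0_bd : ∀ ξ, ‖X0 ξ‖ ≤ 2 * ‖ξ - ξ₀‖
  dX0 : ∀ ξ, ‖ξ - ξ₀‖ ≤ 1 → ‖fderiv ℝ X0 ξ - 1‖ ≤ c * ‖ξ - ξ₀‖ ∧
    ‖fderiv ℝ (fderiv ℝ X0) ξ‖ ≤ c
  rad0 : ∀ ξ, ‖ξ - ξ₀‖ ≤ 1 → |⟪gg ξ (X0 ξ), X0 ξ⟫ - r2 ξ| ≤ c * ‖ξ - ξ₀‖ ^ 3 ∧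
    ‖fderiv ℝ (fun x => ⟪gg x (X0 x), X0 x⟫ - r2 x) ξ‖ ≤ c * ‖ξ - ξ₀‖ ^ 2
  ae2 : ∀ᵐ y ∂μ, (∀ u v, ⟪Nn y u, v⟫ = ⟪u, Nn y v⟫) ∧ (∀ u, 0 ≤ ⟪u, Nn y u⟫) ∧
    ‖Nn y‖ ≤ c * d y ∧ ∑ i, ⟪ev i, Nn y (gg (ζ y) (ev i))⟫ = d y ∧
    ∀ u, ⟪u, p y⟫ ^ 2 ≤ h y * ⟪u, Nn y u⟫
  inn : ∀ V : E m → E m, Test 1 V O →
    |∫ y, (dv V (ζ y) - ∑ i, ⟪ev i, fderiv ℝ V (ζ y) (Nn y (gg (ζ y) (ev i)))⟫) ∂μ| ≤
      c * ∫ y, (T * d y * ‖fderiv ℝ V (ζ y)‖ + (d y + h y) * ‖V (ζ y)‖) ∂μ
  outer : ∀ g : E m → ℝ, Test 1 g O →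
    |∫ y, (g (ζ y) * d y + fderiv ℝ g (ζ y) (p y)) ∂μ| ≤
      c * ∫ y, (|g (ζ y)| * (h y + √(h y * d y)) + ‖fderiv ℝ g (ζ y)‖ * h y) ∂μ
  outer2 : ∀ V : E m → E m, Test 1 V O →
    |∫ y, (2 * ⟪p y, gg (ζ y) (V (ζ y))⟫ + h y * dv V (ζ y)) ∂μ| ≤
      c * ∫ y, h y * (‖V (ζ y)‖ + (T + d y) * ‖fderiv ℝ V (ζ y)‖) ∂μ

/-! ### The global data -/

/-- The rescaled varifold in the unit ball. -/
structure Glob (m N Q : ℕ) (e0 T0 : ℝ) where
  fr : Fr m N
  μ : Measure (E N)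
  ι : E m →ₗᵢ[ℝ] E N
  Gd : Set (E N)
  eH : ℝ → ℝ
  fin : IsFiniteMeasure μ
  stat : Stat fr μ (ball 0 1)
  mGd : MeasurableSet Gd
  ae : ∀ᵐ y ∂μ, y ∈ ball (0 : E N) 1 ∧ LD m μ y (cg m) ∧
    (y ∈ Gd → LD m μ y (Q * cg m)) ∧ ‖vt ι y‖ ≤ T0
  upper : ∀ y ∈ ball (0 : E N) (1 / 2), ∀ ρ, 0 < ρ → ρ ≤ 1 / 4 →
    mk m μ y ρ ≤ (Q + 1 / 1000) * cg m
  centre : LD m μ 0 (Q * cg m)
  area : AreaProp fr μ
  small : ∀ r, 0 < r → r ≤ 1 → (μ (Gdᶜ ∩ ball 0 r)).toReal ≤ eH r * r ^ m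
  eH_le : ∀ r, eH r ≤ e0
  eH_lim : Tendsto eH (𝓝[>] 0) (𝓝 0)

/-- The reference `S` is minimal in the ball of radius `R + T` about the origin and the varifold
has height at most `T` in the ball of radius `R`. -/
structure Pre {Q : ℕ} {e0 T0 : ℝ} (G : Glob m N Q e0 T0) (S : Ref m N) (R T : ℝ) : Prop where
  ι_eq : S.ι = G.ι
  zero_le : ‖S.gh 0‖ ≤ T
  sub : S.dom 0 (R + T) ⊆ S.D
  height : ∀ᵐ y ∂G.μ, y ∈ ball (0 : E N) R → ‖S.gh y‖ ≤ T

end Pool.Agent.MP_f6c0e6_an.Gen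

end

section

/-! The smooth mollifier. -/

set_option autoImplicit false

open MeasureTheory Filter Topology Set Metric
open scoped ENNReal RealInnerProductSpace

namespace Pool.Agent.MP_f6c0e6_an.Gen

variable {m N : ℕ}

theorem Th_contDiff_bump1 (n : ℕ) : ContDiff ℝ n bump1 := by
  unfold bump1
  exact ContDiffBump.contDiff_normed (n := (n : ℕ∞)) _

theorem Th_bump1_nonneg (t : ℝ) : 0 ≤ bump1 t := ContDiffBump.nonneg_normed _ t

theorem Th_bump1_neg (t : ℝ) : bump1 (-t) = bump1 t := ContDiffBump.normed_neg _ t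

theorem Th_bump1_eq_zero {t : ℝ} (ht : 1 ≤ |t|) : bump1 t = 0 := by
  by_contra h
  have h1 : t ∈ Function.support bump1 := h
  unfold bump1 at h1
  rw [ContDiffBump.support_normed_eq] at h1
  simp only [mem_ball, dist_zero_right, Real.norm_eq_abs] at h1
  linarith

theorem Th_integral_bump1 : ∫ t, bump1 t = 1 := ContDiffBump.integral_normed _

theorem contDiff_th (s : ℝ) (n : ℕ) : ContDiff ℝ n (th s : E m → ℝ) := by
  unfold th
  refine contDiff_prod fun i _ => contDiff_const.mul ((Th_contDiff_bump1 n).comp ?_)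
  exact contDiff_const.mul (EuclideanSpace.proj (𝕜 := ℝ) i).contDiff

theorem th_nonneg {s : ℝ} (hs : 0 < s) (x : E m) : 0 ≤ th s x := by
  unfold th
  exact Finset.prod_nonneg fun i _ => mul_nonneg (by positivity) (Th_bump1_nonneg _)

/-- every coordinate is at most `s / (m + 1)` on the support -/
theorem th_eq_zero {s : ℝ} (hs : 0 < s) {x : E m} (hx : s ≤ ‖x‖) (hm : 1 ≤ m) : th s x = 0 := by
  have hm1 : (0 : ℝ) < (m : ℝ) + 1 := by positivity
  by_cases h : ∃ i, 1 ≤ |((m : ℝ) + 1) / s * x i|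
  · obtain ⟨i, hi⟩ := h
    unfold th
    exact Finset.prod_eq_zero (Finset.mem_univ i) (by rw [Th_bump1_eq_zero hi, mul_zero])
  · exfalso
    push Not at h
    have h1 : ∀ i, x i ^ 2 ≤ (s / ((m : ℝ) + 1)) ^ 2 := by
      intro i
      have h2 := h i
      rw [abs_mul, abs_of_pos (by positivity : 0 < ((m : ℝ) + 1) / s), div_mul_eq_mul_div,
        div_lt_one hs] at h2
      have h3 : |x i| ≤ s / ((m : ℝ) + 1) := by
        rw [le_div_iff₀ hm1]; linarith
      rw [← sq_abs]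
      exact pow_le_pow_left₀ (abs_nonneg _) h3 2
    have h2 : ‖x‖ ^ 2 ≤ m * (s / ((m : ℝ) + 1)) ^ 2 := by
      rw [EuclideanSpace.real_norm_sq_eq]
      calc ∑ i, x i ^ 2 ≤ ∑ _i : Fin m, (s / ((m : ℝ) + 1)) ^ 2 :=
            Finset.sum_le_sum fun i _ => h1 i
        _ = m * (s / ((m : ℝ) + 1)) ^ 2 := by simp
    have h3 : s ^ 2 ≤ ‖x‖ ^ 2 := pow_le_pow_left₀ hs.le hx 2
    have h4 : (m : ℝ) * (s / ((m : ℝ) + 1)) ^ 2 < s ^ 2 := by
      rw [div_pow, ← mul_div_assoc, div_lt_iff₀ (by positivity)]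
      have : (0 : ℝ) < s ^ 2 := by positivity
      have h5 : (m : ℝ) < ((m : ℝ) + 1) ^ 2 := by
        have : (0 : ℝ) ≤ m := Nat.cast_nonneg m
        nlinarith
      nlinarith
    linarith

theorem th_neg (s : ℝ) (x : E m) : th s (-x) = th s x := by
  unfold th
  refine Finset.prod_congr rfl fun i _ => ?_
  rw [PiLp.neg_apply, mul_neg, Th_bump1_neg]

theorem integral_th {s : ℝ} (hs : 0 < s) (ξ : E m) : ∫ x, th s (x - ξ) = 1 := by
  rw [integral_sub_right_eq_self (fun x : E m => th s x) ξ]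
  have hc : (0 : ℝ) < ((m : ℝ) + 1) / s := by positivity
  have h1 := (PiLp.volume_preserving_toLp (Fin m)).integral_comp
    (MeasurableEquiv.toLp 2 (Fin m → ℝ)).measurableEmbedding (th s : E m → ℝ)
  rw [← h1]
  have h2 := integral_fintype_prod_volume_eq_prod (𝕜 := ℝ) (E := fun _ : Fin m => ℝ)
    (fun _ t => ((m : ℝ) + 1) / s * bump1 (((m : ℝ) + 1) / s * t))
  have h3 : ∫ t : ℝ, ((m : ℝ) + 1) / s * bump1 (((m : ℝ) + 1) / s * t) = 1 := by
    rw [integral_const_mul, Measure.integral_comp_mul_left, Th_integral_bump1,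
      abs_of_pos (inv_pos.mpr hc), smul_eq_mul, mul_one, mul_inv_cancel₀ hc.ne']
  simp only [h3, Finset.prod_const_one] at h2
  exact h2

theorem Th_scale {s : ℝ} (hs : 0 < s) (x : E m) : th s x = th 1 (s⁻¹ • x) / s ^ m := by
  unfold th
  have h1 : s ^ m = ∏ _i : Fin m, s := by simp
  rw [h1, ← Finset.prod_div_distrib]
  refine Finset.prod_congr rfl fun i _ => ?_
  have h2 : ((m : ℝ) + 1) / 1 * (s⁻¹ • x) i = ((m : ℝ) + 1) / s * x i := by
    rw [PiLp.smul_apply, smul_eq_mul]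
    field_simp
  rw [h2]
  field_simp

theorem Th_cpt (m : ℕ) : HasCompactSupport (th 1 : E m → ℝ) := by
  refine HasCompactSupport.intro (isCompact_closedBall (0 : E m) 1) fun x hx => ?_
  rw [mem_closedBall, dist_zero_right, not_le] at hx
  rcases Nat.eq_zero_or_pos m with h | h
  · subst h
    have : x = 0 := Subsingleton.elim _ _
    rw [this, norm_zero] at hx
    linarith
  · exact th_eq_zero one_pos hx.le h

/-- scaling from `s = 1` -/
theorem th_bd (m : ℕ) : ∃ C : ℝ, 1 ≤ C ∧ ∀ s : ℝ, 0 < s →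
    (∀ x : E m, th s x ≤ C / s ^ m) ∧ Lip (C / s ^ (m + 1)) (th s : E m → ℝ) := by
  obtain ⟨B, hB⟩ := (contDiff_th (m := m) 1 1).continuous.bounded_above_of_compact_support
    (Th_cpt m)
  obtain ⟨K, hK⟩ := (contDiff_th (m := m) 1 1).lipschitzWith_of_hasCompactSupport (Th_cpt m)
    (by simp)
  refine ⟨max 1 (max B K), le_max_left _ _, fun s hs => ⟨fun x => ?_, fun x x' => ?_⟩⟩
  · rw [Th_scale hs]
    refine div_le_div_of_nonneg_right ?_ (by positivity)
    exact ((le_abs_self _).trans (hB _)).trans ((le_max_left _ _).trans (le_max_right _ _))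
  · rw [Th_scale hs x, Th_scale hs x', ← sub_div, norm_div,
      Real.norm_of_nonneg (by positivity : (0 : ℝ) ≤ s ^ m)]
    have h1 := hK.norm_sub_le (s⁻¹ • x) (s⁻¹ • x')
    rw [← smul_sub, norm_smul, norm_inv, Real.norm_of_nonneg hs.le] at h1
    have h2 : (K : ℝ) ≤ max 1 (max B K) := (le_max_right _ _).trans (le_max_right _ _)
    calc ‖th 1 (s⁻¹ • x) - th 1 (s⁻¹ • x')‖ / s ^ m
        ≤ max 1 (max B K) * (s⁻¹ * ‖x - x'‖) / s ^ m := by
          refine div_le_div_of_nonneg_right (h1.trans ?_) (by positivity)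
          exact mul_le_mul_of_nonneg_right h2 (by positivity)
      _ = max 1 (max B K) / s ^ (m + 1) * ‖x - x'‖ := by
          field_simp
          ring

end Pool.Agent.MP_f6c0e6_an.Gen

end

section

/-! The sequence lemma. -/

set_option autoImplicit false

open MeasureTheory Filter Topology Set Metric
open scoped ENNReal RealInnerProductSpace

namespace Pool.Agent.MP_f6c0e6_an.Gen

variable {m N : ℕ}

theorem IterA_exp {γ x : ℝ} (hγ : 0 < γ) (h0 : 0 ≤ x) (hx : x ≤ γ / (1 + γ)) :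
    Real.exp (-((1 + γ) * x)) ≤ 1 - x := by
  rw [le_div_iff₀ (by linarith)] at hx
  have h1 := Real.add_one_le_exp ((1 + γ) * x)
  have h2 : 0 < (1 + γ) * x + 1 := by positivity
  rw [Real.exp_neg]
  refine (inv_anti₀ h2 h1).trans ?_
  rw [inv_le_iff_one_le_mul₀ h2]
  nlinarith [mul_le_mul_of_nonneg_left hx h0]

theorem IterA_grow {γ q : ℝ} (hγ : 0 < γ) (hq : q < 1) {x b : ℕ → ℝ} (h0 : ∀ j, 0 ≤ x j)
    (hx : ∀ j, x j ≤ γ / (1 + γ)) (hq' : ∀ j, x (j + 1) = q * x j) {j₀ : ℕ}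
    (hb0 : 0 < b j₀) (hb : ∀ j, j₀ ≤ j → 0 ≤ b j ∧ (1 - x j) * b j ≤ b (j + 1)) :
    ∃ c > 0, ∀ j, j₀ ≤ j → c ≤ b j := by
  have h1 : 0 < 1 - q := by linarith
  set K := (1 + γ) / (1 - q) with hK
  have hK0 : 0 ≤ K := by positivity
  have key : ∀ j, j₀ ≤ j → Real.exp (-(K * x j₀)) * b j₀ ≤ Real.exp (-(K * x j)) * b j := by
    intro j hj
    induction j, hj using Nat.le_induction with
    | base => exact le_rfl
    | succ j hj ih =>
      refine ih.trans ?_
      have e : -(K * x j) = -(K * x (j + 1)) + -((1 + γ) * x j) := by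
        rw [hq', hK]; field_simp; ring
      rw [e, Real.exp_add, mul_assoc]
      exact mul_le_mul_of_nonneg_left ((mul_le_mul_of_nonneg_right
        (IterA_exp hγ (h0 j) (hx j)) (hb j hj).1).trans (hb j hj).2) (Real.exp_pos _).le
  refine ⟨_, mul_pos (Real.exp_pos _) hb0, fun j hj => (key j hj).trans ?_⟩
  refine mul_le_of_le_one_left (hb j hj).1 (Real.exp_le_one_iff.2 ?_)
  exact neg_nonpos.2 (mul_nonneg hK0 (h0 j))

/-- If `a j ≥ L j ^ (-b)` once, then `a j / L j` stays bounded below (the product of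
the `1 - L j ^ (-b)` converges), so the radii stay above the radius given by the second
hypothesis. Otherwise the series of the `a j` converges. -/
theorem seq_lemma {γ b : ℝ} (hγ : 0 < γ) (hb : 0 < b) {L a t : ℕ → ℝ} (hL0 : 0 < L 0)
    (hL1 : (L 0) ^ (-b) ≤ γ / (1 + γ)) (hL : ∀ j, L (j + 1) = (1 + γ) * L j)
    (ht : ∀ j, 0 < t j) (hanti : Antitone t)
    (h1 : ∀ j, (L j) ^ (-b) ≤ a j → (1 + γ) * (1 - (L j) ^ (-b)) * a j ≤ a (j + 1))
    (h2 : ∀ κ > 0, ∃ ρ > 0, ∃ J, ∀ j, J ≤ j → t j ≤ ρ → a (j + 1) ≤ κ * L (j + 1))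
    (h3 : ∀ j, Real.log (t j) - Real.log (t (j + 1)) ≤ 2 * a (j + 1) + 1 / L j) :
    ∃ τ > 0, ∀ j, τ ≤ t j := by
  have hp : ∀ j, 0 < L j := fun j => by
    induction j with
    | zero => exact hL0
    | succ j ih => rw [hL]; positivity
  have hq : (1 + γ) ^ (-b) < 1 :=
    Real.rpow_lt_one_of_one_lt_of_neg (by linarith) (by linarith)
  have hq' : ∀ j, (L (j + 1)) ^ (-b) = (1 + γ) ^ (-b) * (L j) ^ (-b) := fun j => by
    rw [hL, Real.mul_rpow (by linarith) (hp j).le]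
  have h0' : ∀ j, 0 < (L j) ^ (-b) := fun j => Real.rpow_pos_of_pos (hp j) _
  have h0 : ∀ j, 0 ≤ (L j) ^ (-b) := fun j => (h0' j).le
  have hm : ∀ j, (L (j + 1)) ^ (-b) ≤ (L j) ^ (-b) := fun j => by
    rw [hq']; exact mul_le_of_le_one_left (h0 j) hq.le
  by_cases hc : ∃ j, (L j) ^ (-b) ≤ a j
  · obtain ⟨j₀, hj₀⟩ := hc
    have hx : ∀ j, (L j) ^ (-b) ≤ γ / (1 + γ) := fun j => by
      induction j with
      | zero => exact hL1
      | succ j ih => exact (hm j).trans ih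
    have ha : ∀ j, j₀ ≤ j → (L j) ^ (-b) ≤ a j := by
      intro j hj
      induction j, hj using Nat.le_induction with
      | base => exact hj₀
      | succ j hj ih =>
        refine (hm j).trans (ih.trans (le_trans (le_mul_of_one_le_left
          ((h0 j).trans ih) ?_) (h1 j ih)))
        have h4 := hx j
        rw [le_div_iff₀ (by linarith)] at h4
        linarith
    obtain ⟨c, hc0, hc⟩ := IterA_grow (x := fun j => (L j) ^ (-b))
      (b := fun j => a j / L j) hγ hq h0 hx hq' (j₀ := j₀)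
      (div_pos ((h0' _).trans_le hj₀) (hp _)) fun j hj => by
        refine ⟨div_nonneg ((h0 j).trans (ha j hj)) (hp j).le, ?_⟩
        refine le_trans (le_of_eq ?_) (div_le_div_of_nonneg_right (h1 j (ha j hj)) (hp _).le)
        have := (hp j).ne'
        rw [hL]
        field_simp
    obtain ⟨ρ, hρ, J, hJ⟩ := h2 (c / 2) (by positivity)
    refine ⟨ρ, hρ, fun j => le_trans ?_ (hanti (le_max_left j (max J j₀)))⟩
    by_contra hn
    have h4 := hJ _ ((le_max_left _ _).trans (le_max_right j _)) (not_le.1 hn).le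
    have h5 := hc (max j (max J j₀) + 1) (by omega)
    rw [le_div_iff₀ (hp _)] at h5
    nlinarith [mul_pos hc0 (hp (max j (max J j₀) + 1))]
  · have hc' : ∀ j, a j ≤ (L j) ^ (-b) := fun j => (not_le.1 fun h => hc ⟨j, h⟩).le
    have hq1 : 0 < 1 - (1 + γ) ^ (-b) := by linarith
    obtain ⟨K, hK⟩ : ∃ K : ℝ, K = 2 / (1 - (1 + γ) ^ (-b)) := ⟨_, rfl⟩
    have hK0 : 0 ≤ K := by rw [hK]; positivity
    have hK1 : K * (1 - (1 + γ) ^ (-b)) = 2 := by rw [hK]; field_simp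
    have key : ∀ j, Real.log (t 0) - K * (L 0) ^ (-b) - (1 + γ) / γ / L 0 ≤
        Real.log (t j) - K * (L j) ^ (-b) - (1 + γ) / γ / L j := fun j => by
      induction j with
      | zero => exact le_rfl
      | succ j ih =>
        have e : (1 + γ) / γ / L j = (1 + γ) / γ / L (j + 1) + 1 / L j := by
          have := (hp j).ne'
          rw [hL]; field_simp
        have e2 : K * (L j) ^ (-b) = K * (L (j + 1)) ^ (-b) + 2 * (L j) ^ (-b) := by
          rw [hq', ← hK1]; ring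
        linarith [h3 j, hc' (j + 1), hm j]
    refine ⟨Real.exp (Real.log (t 0) - K * (L 0) ^ (-b) - (1 + γ) / γ / L 0), Real.exp_pos _,
      fun j => ?_⟩
    rw [← Real.le_log_iff_exp_le (ht j)]
    have h6 : 0 ≤ (1 + γ) / γ / L j := by have := hp j; positivity
    have h7 : 0 ≤ K * (L j) ^ (-b) := mul_nonneg hK0 (h0 j)
    linarith [key j]

end Pool.Agent.MP_f6c0e6_an.Gen

end

section

/-! The kernels. -/

set_option autoImplicit false

open MeasureTheory Filter Topology Set Metric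
open scoped ENNReal RealInnerProductSpace

namespace Pool.Agent.MP_f6c0e6_an.Gen

variable {m N : ℕ}

theorem Kern_deriv (n : ℕ) (t : ℝ) :
    HasDerivAt (fun t : ℝ => (max (1 - t) 0) ^ (n + 2))
      (-((n : ℝ) + 2) * (max (1 - t) 0) ^ (n + 1)) t := by
  have hp : ∀ t : ℝ, HasDerivAt (fun t : ℝ => (1 - t) ^ (n + 2))
      (-((n : ℝ) + 2) * (1 - t) ^ (n + 1)) t := fun t => by
    have h := ((hasDerivAt_id t).const_sub 1).pow (n + 2)
    refine HasDerivAt.congr_deriv h ?_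
    simp only [id, Nat.add_succ_sub_one]
    push_cast
    ring
  rcases lt_trichotomy t 1 with h | h | h
  · rw [max_eq_left (by linarith)]
    refine (hp t).congr_of_eventuallyEq ?_
    filter_upwards [Iio_mem_nhds h] with x hx
    rw [max_eq_left (by linarith [mem_Iio.1 hx])]
  · subst h
    have h1 : HasDerivWithinAt (fun t : ℝ => (max (1 - t) 0) ^ (n + 2)) 0 (Iic 1) 1 := by
      have h2 := (hp 1).hasDerivWithinAt (s := Iic 1)
      have e : -((n : ℝ) + 2) * (1 - 1) ^ (n + 1) = 0 := by simp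
      rw [e] at h2
      refine h2.congr (fun x hx => ?_) (by simp)
      rw [max_eq_left (by linarith [mem_Iic.1 hx])]
    have h3 : HasDerivWithinAt (fun t : ℝ => (max (1 - t) 0) ^ (n + 2)) 0 (Ici 1) 1 := by
      refine (hasDerivWithinAt_const (1 : ℝ) (Ici 1) (0 : ℝ)).congr (fun x hx => ?_) (by simp)
      rw [max_eq_right (by linarith [mem_Ici.1 hx])]
      simp
    have h4 := h1.union h3
    rw [Iic_union_Ici, hasDerivWithinAt_univ] at h4
    simpa using h4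
  · rw [max_eq_right (by linarith)]
    have e : -((n : ℝ) + 2) * 0 ^ (n + 1) = 0 := by simp
    rw [e]
    refine (hasDerivAt_const t (0 : ℝ)).congr_of_eventuallyEq ?_
    filter_upwards [Ioi_mem_nhds h] with x hx
    rw [max_eq_right (by linarith [mem_Ioi.1 hx])]
    simp

theorem Kern_contDiff (n : ℕ) : ContDiff ℝ n fun t : ℝ => (max (1 - t) 0) ^ (n + 1) := by
  induction n with
  | zero =>
    rw [Nat.cast_zero, contDiff_zero]
    fun_prop
  | succ n ih =>
    rw [Nat.cast_succ, contDiff_succ_iff_deriv]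
    refine ⟨fun t => (Kern_deriv n t).differentiableAt, fun h => by simp at h, ?_⟩
    have e : deriv (fun t : ℝ => (max (1 - t) 0) ^ (n + 1 + 1)) =
        fun t : ℝ => -((n : ℝ) + 2) * (max (1 - t) 0) ^ (n + 1) :=
      funext fun t => (Kern_deriv n t).deriv
    rw [e]
    exact contDiff_const.mul ih

theorem contDiff_gam : ContDiff ℝ 3 gam := by
  exact Kern_contDiff 3

theorem hasDerivAt_gam (t : ℝ) : HasDerivAt gam (-4 * (max (1 - t) 0) ^ 3) t := by
  refine HasDerivAt.congr_deriv (Kern_deriv 2 t) ?_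
  norm_num

theorem contDiff_Gam : ContDiff ℝ 4 Gam := by
  exact Kern_contDiff 4

theorem hasDerivAt_Gam (t : ℝ) : HasDerivAt Gam (-5 * gam t) t := by
  refine HasDerivAt.congr_deriv (Kern_deriv 3 t) ?_
  rw [gam]
  norm_num

theorem gam_nonneg (t : ℝ) : 0 ≤ gam t := by
  exact pow_nonneg (le_max_right _ _) 4

theorem gam_le_one {t : ℝ} (ht : 0 ≤ t) : gam t ≤ 1 := by
  exact pow_le_one₀ (le_max_right _ _) (max_le (by linarith) zero_le_one)

theorem gam_anti : Antitone gam := by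
  intro a b h
  exact pow_le_pow_left₀ (le_max_right _ _) (max_le_max (by linarith) le_rfl) 4

theorem gam_eq_zero {t : ℝ} (ht : 1 ≤ t) : gam t = 0 := by
  rw [gam, max_eq_right (by linarith)]
  simp

theorem gam_lip {a b : ℝ} (ha : 0 ≤ a) (hb : 0 ≤ b) : |gam a - gam b| ≤ 4 * |a - b| := by
  have h1 := abs_pow_sub_pow_le (max (1 - a) 0) (max (1 - b) 0) 4
  have h2 : |max (1 - a) 0 - max (1 - b) 0| ≤ |a - b| := by
    refine (abs_max_sub_max_le_abs _ _ _).trans (le_of_eq ?_)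
    rw [show 1 - a - (1 - b) = -(a - b) by ring, abs_neg]
  have h3 : max |max (1 - a) 0| |max (1 - b) 0| ≤ 1 := by
    refine max_le ?_ ?_
    · rw [abs_of_nonneg (le_max_right _ _)]
      exact max_le (by linarith) zero_le_one
    · rw [abs_of_nonneg (le_max_right _ _)]
      exact max_le (by linarith) zero_le_one
  have h4 : (max |max (1 - a) 0| |max (1 - b) 0|) ^ (4 - 1) ≤ 1 :=
    pow_le_one₀ (le_max_of_le_left (abs_nonneg _)) h3
  have h5 : 0 ≤ (max |max (1 - a) 0| |max (1 - b) 0|) ^ (4 - 1) :=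
    pow_nonneg (le_max_of_le_left (abs_nonneg _)) _
  have h6 := abs_nonneg (max (1 - a) 0 - max (1 - b) 0)
  refine h1.trans ?_
  have h7 := mul_le_mul_of_nonneg_left h4 h6
  rw [Nat.cast_ofNat]
  linarith

theorem Gam_nonneg (t : ℝ) : 0 ≤ Gam t := by
  exact pow_nonneg (le_max_right _ _) 5

theorem Gam_le_gam {t : ℝ} (ht : 0 ≤ t) : Gam t ≤ gam t := by
  exact pow_le_pow_of_le_one (le_max_right _ _) (max_le (by linarith) zero_le_one) (by norm_num)

theorem Gam_anti : Antitone Gam := by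
  intro a b h
  exact pow_le_pow_left₀ (le_max_right _ _) (max_le_max (by linarith) le_rfl) 5

theorem Gam_eq_zero {t : ℝ} (ht : 1 ≤ t) : Gam t = 0 := by
  rw [Gam, max_eq_right (by linarith)]
  simp

theorem Kern_zero {x : E m} (hx : x ∉ closedBall (0 : E m) 1) : gam (‖x‖ ^ 2) = 0 := by
  rw [mem_closedBall_zero_iff, not_le] at hx
  exact gam_eq_zero (one_le_pow₀ hx.le)

theorem Kern_vol : (volume (closedBall (0 : E m) 1)).toReal ≤ 2 ^ m := by
  have h1 : closedBall (0 : E m) 1 ⊆ WithLp.ofLp ⁻¹' closedBall (0 : Fin m → ℝ) 1 := fun x hx => by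
    rw [mem_preimage, mem_closedBall_zero_iff, pi_norm_le_iff_of_nonneg zero_le_one]
    exact fun i => (PiLp.norm_apply_le x i).trans (mem_closedBall_zero_iff.1 hx)
  have h2 := (measure_mono h1).trans_eq ((PiLp.volume_preserving_ofLp (Fin m)).measure_preimage
    measurableSet_closedBall.nullMeasurableSet)
  rw [Real.volume_pi_closedBall _ zero_le_one, mul_one, Fintype.card_fin] at h2
  exact ENNReal.toReal_le_of_le_ofReal (by positivity) h2

theorem Kern_cg : cg m ≤ (volume (closedBall (0 : E m) 1)).toReal := by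
  have h := norm_setIntegral_le_of_norm_le_const (μ := volume) (s := closedBall (0 : E m) 1)
    (f := fun x => gam (‖x‖ ^ 2)) (C := 1) measure_closedBall_lt_top fun x _ => by
      rw [Real.norm_eq_abs, abs_of_nonneg (gam_nonneg _)]
      exact gam_le_one (by positivity)
  rw [setIntegral_eq_integral_of_forall_compl_eq_zero fun x hx => Kern_zero hx, one_mul] at h
  exact (le_abs_self _).trans h

theorem cg_pos (m : ℕ) : 0 < cg m := by
  refine Continuous.integral_pos_of_hasCompactSupport_nonneg_nonzero (x := 0)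
    (contDiff_gam.continuous.comp (by fun_prop))
    (HasCompactSupport.intro (isCompact_closedBall 0 1) fun x hx => Kern_zero hx)
    (fun x => gam_nonneg _) ?_
  simp [gam]

/-- the unit ball is contained in a cube of side two -/
theorem cg_le (m : ℕ) : cg m ≤ 2 ^ m := by
  exact Kern_cg.trans Kern_vol

theorem volume_ball_le (ξ : E m) {r : ℝ} (hr : 0 ≤ r) :
    (volume (closedBall ξ r)).toReal ≤ 2 ^ m * r ^ m ∧
      cg m * r ^ m ≤ (volume (closedBall ξ r)).toReal := by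
  rw [Measure.addHaar_closedBall' volume ξ hr, ENNReal.toReal_mul,
    ENNReal.toReal_ofReal (by positivity), finrank_euclideanSpace_fin, mul_comm]
  exact ⟨mul_le_mul_of_nonneg_right Kern_vol (by positivity),
    mul_le_mul_of_nonneg_right Kern_cg (by positivity)⟩

theorem Kern_arg {t : ℝ} (ht : 0 < t) (r : ℝ) (x : E m) :
    ‖t • x‖ ^ 2 / (t * r) ^ 2 = ‖x‖ ^ 2 / r ^ 2 := by
  rw [norm_smul, Real.norm_eq_abs, abs_of_pos ht, mul_pow, mul_pow,
    mul_div_mul_left _ _ (by positivity)]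

theorem integral_gam {r : ℝ} (hr : 0 < r) (ξ : E m) :
    ∫ x : E m, gam (‖x - ξ‖ ^ 2 / r ^ 2) = cg m * r ^ m := by
  rw [integral_sub_right_eq_self (fun x : E m => gam (‖x‖ ^ 2 / r ^ 2)) ξ]
  have e : ∀ x : E m, ‖x‖ ^ 2 / r ^ 2 = ‖r⁻¹ • x‖ ^ 2 := fun x => by
    rw [← Kern_arg (inv_pos.2 hr), inv_mul_cancel₀ hr.ne', one_pow, div_one]
  simp only [e]
  rw [Measure.integral_comp_inv_smul_of_nonneg volume (fun x : E m => gam (‖x‖ ^ 2)) hr.le,
    finrank_euclideanSpace_fin, smul_eq_mul, mul_comm, cg]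

/-! ### The mollifier -/

theorem contDiff_rho (r : ℝ) : ContDiff ℝ 3 (rho r : E m → ℝ) := by
  exact (contDiff_gam.comp ((contDiff_norm_sq ℝ).div_const _)).div_const _

theorem rho_nonneg {r : ℝ} (hr : 0 < r) (x : E m) : 0 ≤ rho r x := by
  have := cg_pos m
  exact div_nonneg (gam_nonneg _) (by positivity)

theorem rho_neg (r : ℝ) (x : E m) : rho r (-x) = rho r x := by
  rw [rho, rho, norm_neg]

theorem Kern_ge {r : ℝ} (hr : 0 < r) {x : E m} (hx : r ≤ ‖x‖) : 1 ≤ ‖x‖ ^ 2 / r ^ 2 := by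
  rw [le_div_iff₀ (by positivity), one_mul]
  exact pow_le_pow_left₀ hr.le hx 2

theorem Kern_le {r : ℝ} (hr : 0 < r) {x : E m} (hx : ‖x‖ ≤ r / 2) : ‖x‖ ^ 2 / r ^ 2 ≤ 1 / 4 := by
  rw [div_le_iff₀ (by positivity)]
  refine (pow_le_pow_left₀ (norm_nonneg x) hx 2).trans (le_of_eq ?_)
  ring

theorem Kern_mono {r s : ℝ} (hr : 0 < r) (hrs : r ≤ s) (x : E m) :
    ‖x‖ ^ 2 / s ^ 2 ≤ ‖x‖ ^ 2 / r ^ 2 :=
  div_le_div_of_nonneg_left (by positivity) (by positivity) (pow_le_pow_left₀ hr.le hrs 2)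

theorem rho_eq_zero {r : ℝ} (hr : 0 < r) {x : E m} (hx : r ≤ ‖x‖) : rho r x = 0 := by
  rw [rho, gam_eq_zero (Kern_ge hr hx), zero_div]

theorem rho_le {r : ℝ} (hr : 0 < r) (x : E m) : rho r x ≤ 1 / (cg m * r ^ m) := by
  have := cg_pos m
  exact div_le_div_of_nonneg_right (gam_le_one (by positivity)) (by positivity)

theorem rho_ge {r : ℝ} (hr : 0 < r) {x : E m} (hx : ‖x‖ ≤ r / 2) :
    1 / (4 * cg m * r ^ m) ≤ rho r x := by
  have := cg_pos m
  have h1 : 1 / 4 ≤ gam (‖x‖ ^ 2 / r ^ 2) := by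
    refine le_trans ?_ (gam_anti (Kern_le hr hx))
    rw [gam, max_eq_left (by norm_num)]
    norm_num
  refine le_trans (le_of_eq ?_) (div_le_div_of_nonneg_right h1 (by positivity))
  rw [div_div, mul_assoc]

/-- comparison of two scales -/
theorem rho_le_rho {r s : ℝ} (hr : 0 < r) (hrs : r ≤ s) (x : E m) :
    rho r x ≤ (s / r) ^ m * rho s x := by
  have := cg_pos m
  have hs : 0 < s := hr.trans_le hrs
  refine (div_le_div_of_nonneg_right (gam_anti (Kern_mono hr hrs x)) (by positivity)).trans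
    (le_of_eq ?_)
  rw [rho, div_pow]
  field_simp

theorem rho_smul {t : ℝ} (ht : 0 < t) (r : ℝ) (x : E m) :
    rho (t * r) (t • x) = rho r x / t ^ m := by
  rw [rho, rho, Kern_arg ht, mul_pow, div_div]
  congr 1
  ring

theorem integral_rho {r : ℝ} (hr : 0 < r) (ξ : E m) : ∫ x, rho r (x - ξ) = 1 := by
  have := cg_pos m
  simp only [rho]
  rw [integral_div, integral_gam hr, div_self (by positivity)]

theorem tsupport_rho {r : ℝ} (hr : 0 < r) (ξ : E m) :
    tsupport (fun x => rho r (x - ξ)) ⊆ closedBall ξ r := by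
  refine closure_minimal (fun x hx => ?_) isClosed_closedBall
  rw [mem_closedBall, dist_eq_norm]
  by_contra h
  exact hx (rho_eq_zero hr (not_le.1 h).le)

theorem Kern_fderiv {g : ℝ → ℝ} {g' : ℝ} (r c : ℝ) (v u : E m)
    (h : HasDerivAt g g' (‖v‖ ^ 2 / r ^ 2)) :
    fderiv ℝ (fun x : E m => g (‖x‖ ^ 2 / r ^ 2) * c) v u = g' * (2 * ⟪v, u⟫ / r ^ 2) * c := by
  have h1 : HasFDerivAt (fun x : E m => ‖x‖ ^ 2 / r ^ 2) _ v :=
    (hasStrictFDerivAt_norm_sq v).hasFDerivAt.mul_const (r ^ 2)⁻¹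
  have h2 := (h.comp_hasFDerivAt v h1).mul_const c
  refine (congrArg (fun L => L u) h2.fderiv).trans ?_
  simp only [smul_apply, innerSL_apply_apply, smul_eq_mul, nsmul_eq_mul,
    Nat.cast_ofNat]
  ring

theorem Kern_scal {r : ℝ} (hr : 0 < r) (a : ℝ) :
    HasDerivAt (fun s : ℝ => a / s ^ 2) (-2 * a / r ^ 3) r := by
  refine ((hasDerivAt_const r a).div (hasDerivAt_pow 2 r) (by positivity)).congr_deriv ?_
  simp only [Nat.cast_ofNat, Nat.add_one_sub_one, pow_one]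
  field_simp
  ring

theorem Kern_pow {r : ℝ} (hr : 0 < r) (c : ℝ) (m : ℕ) :
    HasDerivAt (fun s : ℝ => c * s ^ m) (c * (m * r ^ m / r)) r := by
  refine ((hasDerivAt_pow m r).const_mul c).congr_deriv ?_
  congr 1
  cases m with
  | zero => simp
  | succ m =>
    rw [Nat.add_one_sub_one, pow_succ]
    field_simp

theorem fderiv_rho {r : ℝ} (hr : 0 < r) (v u : E m) :
    fderiv ℝ (rho r) v u =
      -8 * (max (1 - ‖v‖ ^ 2 / r ^ 2) 0) ^ 3 / (cg m * r ^ m) * (⟪v, u⟫ / r ^ 2) := by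
  refine (Kern_fderiv r (cg m * r ^ m)⁻¹ v u (hasDerivAt_gam _)).trans ?_
  ring

/-- homogeneity: `r ∂_r rho = - m rho - v · ∇ rho` -/
theorem hasDerivAt_rho {r : ℝ} (hr : 0 < r) (v : E m) :
    HasDerivAt (fun s => rho s v) ((-(m : ℝ) * rho r v - fderiv ℝ (rho r) v v) / r) r := by
  have := cg_pos m
  have h := ((hasDerivAt_gam _).comp r (Kern_scal hr (‖v‖ ^ 2))).div (Kern_pow hr (cg m) m)
    (by positivity)
  refine HasDerivAt.congr_deriv h ?_
  rw [fderiv_rho hr, real_inner_self_eq_norm_sq, rho, Function.comp_apply]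
  field_simp
  ring

theorem Kern_cont : ContinuousOn (fun q : ℝ × E m => ‖q.2‖ ^ 2 / q.1 ^ 2) (Ioi 0 ×ˢ univ) :=
  ContinuousOn.div (by fun_prop) (by fun_prop) fun _ hq => pow_ne_zero _ (ne_of_gt hq.1)

theorem continuousOn_rho : ContinuousOn (fun q : ℝ × E m => rho q.1 q.2) (Ioi 0 ×ˢ univ) := by
  exact (contDiff_gam.continuous.comp_continuousOn Kern_cont).div (by fun_prop)
    fun q hq => mul_ne_zero (cg_pos m).ne' (pow_ne_zero _ (ne_of_gt hq.1))

theorem Kern_scale {F : Type} [NormedAddCommGroup F] [NormedSpace ℝ F] {g : E m → F}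
    (hg : Differentiable ℝ g) (a b : ℝ) (ξ : E m) :
    fderiv ℝ (fun x => a • g (b • (x - ξ))) = fun x => (a * b) • fderiv ℝ g (b • (x - ξ)) := by
  funext x
  have h1 : HasFDerivAt (fun x : E m => b • (x - ξ)) (b • ContinuousLinearMap.id ℝ (E m)) x :=
    ((hasFDerivAt_id x).sub_const ξ).const_smul b
  have h2 := ((hg (b • (x - ξ))).hasFDerivAt.comp x h1).const_smul a
  refine (HasFDerivAt.fderiv h2).trans ?_
  ext v
  simp [mul_smul]

theorem Kern_norm {F : Type} [NormedAddCommGroup F] [NormedSpace ℝ F] {g : E m → F}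
    (hg : Continuous g) (hc : HasCompactSupport g) :
    ∃ C : ℝ, ∀ C' a : ℝ, C ≤ C' → 0 < a → ∀ y, ‖a • g y‖ ≤ a * C' := by
  obtain ⟨C, h⟩ := hg.bounded_above_of_compact_support hc
  refine ⟨C, fun C' a h' ha y => ?_⟩
  rw [norm_smul, Real.norm_eq_abs, abs_of_pos ha]
  exact mul_le_mul_of_nonneg_left ((h y).trans h') ha.le

theorem Kern_lip {F : Type} [NormedAddCommGroup F] [NormedSpace ℝ F] {g : E m → F}
    (s1 : ContDiff ℝ 1 g) (hc : HasCompactSupport g) :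
    ∃ C : ℝ, ∀ C' a b : ℝ, C ≤ C' → 0 < a → 0 < b → ∀ ξ : E m,
      Lip (a * b * C') fun x => a • g (b • (x - ξ)) := by
  obtain ⟨C, h⟩ := Kern_norm (s1.continuous_fderiv (by norm_num)) (hc.fderiv ℝ)
  have d1 := s1.differentiable (by norm_num)
  refine ⟨C, fun C' a b h' ha hb ξ x x' => ?_⟩
  refine convex_univ.norm_image_sub_le_of_norm_fderiv_le (𝕜 := ℝ)
    (f := fun x => a • g (b • (x - ξ))) (fun y _ => ?_) (fun y _ => ?_) (mem_univ x') (mem_univ x)
  · fun_prop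
  · rw [Kern_scale d1]
    exact h C' _ h' (mul_pos ha hb) _

theorem Kern_bd {g : E m → ℝ} (s3 : ContDiff ℝ 3 g) (hc : HasCompactSupport g) :
    ∃ C : ℝ, 1 ≤ C ∧ ∀ a b : ℝ, 0 < a → 0 < b → ∀ ξ : E m,
      Bd2 (fun x => a • g (b • (x - ξ))) (a * C) (a * b * C) (a * b * b * C) ∧
      Lip (a * b * b * b * C) (fderiv ℝ (fderiv ℝ fun x => a • g (b • (x - ξ)))) := by
  have s2 : ContDiff ℝ 2 (fderiv ℝ g) := s3.fderiv_right (by norm_num)
  have s1 : ContDiff ℝ 1 (fderiv ℝ (fderiv ℝ g)) := s2.fderiv_right (by norm_num)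
  obtain ⟨C0, h0⟩ := Kern_norm s3.continuous hc
  obtain ⟨C1, h1⟩ := Kern_norm s2.continuous (hc.fderiv ℝ)
  obtain ⟨C2, h2⟩ := Kern_norm s1.continuous ((hc.fderiv ℝ).fderiv ℝ)
  obtain ⟨C3, h3⟩ := Kern_lip s1 ((hc.fderiv ℝ).fderiv ℝ)
  obtain ⟨C, c, c0, c1, c2, c3⟩ : ∃ C : ℝ, 1 ≤ C ∧ C0 ≤ C ∧ C1 ≤ C ∧ C2 ≤ C ∧ C3 ≤ C :=
    ⟨max 1 (max (max C0 C1) (max C2 C3)), by simp, by simp, by simp, by simp, by simp⟩
  refine ⟨C, c, fun a b ha hb ξ => ?_⟩
  have e1 := Kern_scale (s3.differentiable (by norm_num)) a b ξ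
  have e2 := Kern_scale (s2.differentiable (by norm_num)) (a * b) b ξ
  have p1 := mul_pos ha hb
  have p2 := mul_pos p1 hb
  refine ⟨⟨fun x => h0 C a c0 ha _, fun x => ?_, fun x => ?_⟩, ?_⟩
  · rw [e1]
    exact h1 C _ c1 p1 _
  · rw [e1, e2]
    exact h2 C _ c2 p2 _
  · rw [e1, e2]
    exact h3 C _ b c3 p2 hb ξ

/-- scaling from `r = 1`, where the functions are continuous with compact support -/
theorem rho_bd (m : ℕ) : ∃ C : ℝ, 1 ≤ C ∧ ∀ r : ℝ, 0 < r → ∀ ξ : E m,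
    Bd2 (fun x => rho r (x - ξ)) (C / r ^ m) (C / r ^ (m + 1)) (C / r ^ (m + 2)) ∧
      Lip (C / r ^ (m + 3)) (fderiv ℝ (fderiv ℝ fun x => rho r (x - ξ))) := by
  have hc : HasCompactSupport (rho 1 : E m → ℝ) :=
    HasCompactSupport.intro (isCompact_closedBall 0 1) fun x hx =>
      rho_eq_zero one_pos (not_le.1 fun h => hx (mem_closedBall_zero_iff.2 h)).le
  obtain ⟨C, h1, hC⟩ := Kern_bd (contDiff_rho 1) hc
  refine ⟨C, h1, fun r hr ξ => ?_⟩
  have e0 : (fun x => rho r (x - ξ)) = fun x => (r ^ m)⁻¹ • rho 1 (r⁻¹ • (x - ξ)) := by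
    funext x
    have h := rho_smul hr 1 (r⁻¹ • (x - ξ))
    rw [mul_one, smul_inv_smul₀ hr.ne'] at h
    rw [h, smul_eq_mul, div_eq_inv_mul]
  have h := hC (r ^ m)⁻¹ r⁻¹ (by positivity) (by positivity) ξ
  rw [e0, show C / r ^ m = (r ^ m)⁻¹ * C by ring,
    show C / r ^ (m + 1) = (r ^ m)⁻¹ * r⁻¹ * C by ring,
    show C / r ^ (m + 2) = (r ^ m)⁻¹ * r⁻¹ * r⁻¹ * C by ring,
    show C / r ^ (m + 3) = (r ^ m)⁻¹ * r⁻¹ * r⁻¹ * r⁻¹ * C by ring]
  exact h

/-! ### The potential kernel -/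

theorem contDiff_pk (r : ℝ) : ContDiff ℝ 4 (pk r : E m → ℝ) := by
  exact ((contDiff_Gam.comp ((contDiff_norm_sq ℝ).div_const _)).mul contDiff_const).div_const _

theorem pk_nonneg {r : ℝ} (hr : 0 < r) (v : E m) : 0 ≤ pk r v := by
  have := cg_pos m
  exact div_nonneg (mul_nonneg (Gam_nonneg _) (by positivity)) (by positivity)

theorem pk_neg (r : ℝ) (v : E m) : pk r (-v) = pk r v := by
  rw [pk, pk, norm_neg]

theorem pk_eq_zero {r : ℝ} (hr : 0 < r) {v : E m} (hv : r ≤ ‖v‖) : pk r v = 0 := by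
  rw [pk, Gam_eq_zero (Kern_ge hr hv), zero_mul, zero_div]

theorem pk_le {r : ℝ} (hr : 0 < r) (v : E m) :
    pk r v ≤ r ^ 2 / 10 * rho r v ∧ pk r v ≤ r ^ 2 / (10 * cg m * r ^ m) := by
  have := cg_pos m
  have h1 : pk r v ≤ r ^ 2 / 10 * rho r v := by
    refine (div_le_div_of_nonneg_right (mul_le_mul_of_nonneg_right
      (Gam_le_gam (by positivity)) (by positivity)) (by positivity)).trans (le_of_eq ?_)
    rw [rho]
    ring
  refine ⟨h1, h1.trans ((mul_le_mul_of_nonneg_left (rho_le hr v) (by positivity)).trans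
    (le_of_eq ?_))⟩
  ring

theorem pk_ge {r : ℝ} (hr : 0 < r) {v : E m} (hv : ‖v‖ ≤ r / 2) :
    r ^ 2 / (50 * cg m * r ^ m) ≤ pk r v := by
  have := cg_pos m
  have h1 : 1 / 5 ≤ Gam (‖v‖ ^ 2 / r ^ 2) := by
    refine le_trans ?_ (Gam_anti (Kern_le hr hv))
    rw [Gam, max_eq_left (by norm_num)]
    norm_num
  refine le_trans (le_of_eq ?_) (div_le_div_of_nonneg_right
    (mul_le_mul_of_nonneg_right h1 (by positivity)) (by positivity))
  ring

theorem Kern_pk {r : ℝ} (hr : 0 < r) (v : E m) :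
    r ^ m * pk r v = r ^ 2 / (10 * cg m) * Gam (‖v‖ ^ 2 / r ^ 2) := by
  have := cg_pos m
  rw [pk]
  field_simp

/-- comparison of two scales -/
theorem pk_le_pk {r s : ℝ} (hr : 0 < r) (hrs : r ≤ s) (v : E m) :
    r ^ m * s ^ 2 * pk r v ≤ s ^ m * r ^ 2 * pk s v := by
  have := cg_pos m
  have hs : 0 < s := hr.trans_le hrs
  rw [mul_right_comm, Kern_pk hr, mul_right_comm (s ^ m), Kern_pk hs]
  refine (mul_le_mul_of_nonneg_right (mul_le_mul_of_nonneg_left
    (Gam_anti (Kern_mono hr hrs v)) (by positivity)) (by positivity)).trans (le_of_eq ?_)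
  ring

/-- comparison of two scales and two centres -/
theorem pk_le_pk' {r s : ℝ} (hr : 0 < r) {v v' : E m} (h : ‖v - v'‖ + r ≤ s / 2) :
    r ^ m * s ^ 2 * pk r v ≤ 5 * s ^ m * r ^ 2 * pk s v' ∧
      r ^ m * rho r v ≤ 4 * s ^ m * rho s v' := by
  have := cg_pos m
  have hs : 0 < s := by linarith [norm_nonneg (v - v')]
  have p1 := pk_nonneg hs v'
  have p2 := rho_nonneg hs v'
  rcases le_or_gt r ‖v‖ with hv | hv
  · rw [pk_eq_zero hr hv, rho_eq_zero hr hv, mul_zero, mul_zero]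
    exact ⟨by positivity, by positivity⟩
  · have h1 : ‖v'‖ ≤ s / 2 := by linarith [norm_le_insert v v']
    refine ⟨(mul_le_mul_of_nonneg_left (pk_le hr v).2 (by positivity)).trans
      (le_trans (le_of_eq ?_) (mul_le_mul_of_nonneg_left (pk_ge hs h1) (by positivity))),
      (mul_le_mul_of_nonneg_left (rho_le hr v) (by positivity)).trans
      (le_trans (le_of_eq ?_) (mul_le_mul_of_nonneg_left (rho_ge hs h1) (by positivity)))⟩
    · field_simp
      norm_num
    · field_simp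

/-- the mollifier is dominated by the potential kernel of twice the radius -/
theorem rho_le_pk {r : ℝ} (hr : 0 < r) (v : E m) :
    r ^ 2 * rho r v ≤ 13 * 2 ^ m * pk (2 * r) v := by
  have := cg_pos m
  have hs : 0 < 2 * r := by positivity
  have p1 := pk_nonneg hs v
  rcases le_or_gt r ‖v‖ with hv | hv
  · rw [rho_eq_zero hr hv, mul_zero]
    positivity
  · refine (mul_le_mul_of_nonneg_left (rho_le hr v) (by positivity)).trans
      (le_trans ?_ (mul_le_mul_of_nonneg_left (pk_ge hs (by linarith)) (by positivity)))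
    have e : 13 * 2 ^ m * ((2 * r) ^ 2 / (50 * cg m * (2 * r) ^ m)) =
        26 / 25 * (r ^ 2 * (1 / (cg m * r ^ m))) := by
      rw [mul_pow 2 r m]
      field_simp
      norm_num
    rw [e]
    exact le_mul_of_one_le_left (by positivity) (by norm_num)

theorem pk_smul {t : ℝ} (ht : 0 < t) (r : ℝ) (x : E m) :
    pk (t * r) (t • x) = t ^ 2 * pk r x / t ^ m := by
  rw [pk, pk, Kern_arg ht, mul_pow, mul_pow]
  ring

theorem fderiv_pk {r : ℝ} (hr : 0 < r) (v u : E m) :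
    fderiv ℝ (pk r) v u = -rho r v * ⟪v, u⟫ := by
  have := cg_pos m
  have e : (pk r : E m → ℝ) =
      fun x => Gam (‖x‖ ^ 2 / r ^ 2) * (r ^ 2 / (10 * cg m * r ^ m)) :=
    funext fun x => mul_div_assoc _ _ _
  rw [e, Kern_fderiv r _ v u (hasDerivAt_Gam _), rho]
  field_simp
  ring

theorem hasDerivAt_pk {r : ℝ} (hr : 0 < r) (v : E m) :
    HasDerivAt (fun s => pk s v) ((rho r v * ‖v‖ ^ 2 + (2 - m) * pk r v) / r) r := by
  have := cg_pos m
  have h := (((hasDerivAt_Gam _).comp r (Kern_scal hr (‖v‖ ^ 2))).mul (hasDerivAt_pow 2 r)).div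
    (Kern_pow hr (10 * cg m) m) (by positivity)
  refine HasDerivAt.congr_deriv h ?_
  simp only [rho, pk, Function.comp_apply, Pi.mul_apply, Nat.cast_ofNat, Nat.add_one_sub_one,
    pow_one]
  field_simp
  ring

theorem lap_pk {r : ℝ} (hr : 0 < r) (v : E m) :
    lap (pk r) v = -(m : ℝ) * rho r v - fderiv ℝ (rho r) v v := by
  have d1 : DifferentiableAt ℝ (fderiv ℝ (pk r : E m → ℝ)) v :=
    ((contDiff_pk r).fderiv_right (m := 1) (by norm_num)).differentiable (by norm_num) v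
  have d2 := ((contDiff_rho r).differentiable (by norm_num) v).hasFDerivAt
  have key : ∀ u : E m, fderiv ℝ (fderiv ℝ (pk r)) v u u =
      -rho r v * ⟪u, u⟫ - fderiv ℝ (rho r) v (⟪u, v⟫ • u) := fun u => by
    have h1 := (d1.hasFDerivAt.clm_apply (hasFDerivAt_const u v)).fderiv
    have h2 := (d2.neg.mul (innerSL ℝ u).hasFDerivAt).fderiv
    have e : (fun y : E m => fderiv ℝ (pk r) y u) = -rho r * ⇑(innerSL ℝ u) := by
      funext y
      rw [fderiv_pk hr, real_inner_comm]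
      rfl
    rw [e, h2] at h1
    have h3 := congrArg (fun L => L u) h1
    simp only [add_apply, smul_apply,
      neg_apply, innerSL_apply_apply, smul_eq_mul, Pi.neg_apply,
      ContinuousLinearMap.comp_zero,
      ContinuousLinearMap.flip_apply, zero_add] at h3
    rw [← h3, map_smul, smul_eq_mul]
    ring
  have h1 : ∀ i : Fin m, ⟪ev i, ev i⟫ = (1 : ℝ) := fun i => by
    simp [ev]
  have h2 : ∑ i, ⟪ev i, v⟫ • ev i = v := by
    have h := (EuclideanSpace.basisFun (Fin m) ℝ).sum_repr' v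
    simp only [EuclideanSpace.basisFun_apply] at h
    exact h
  simp only [lap, key, h1]
  rw [Finset.sum_sub_distrib, ← map_sum, h2, Finset.sum_const, Finset.card_univ,
    Fintype.card_fin, nsmul_eq_mul]
  ring

theorem continuousOn_pk : ContinuousOn (fun q : ℝ × E m => pk q.1 q.2) (Ioi 0 ×ˢ univ) := by
  exact ((contDiff_Gam.continuous.comp_continuousOn Kern_cont).mul (by fun_prop)).div
    (by fun_prop) fun q hq => mul_ne_zero (mul_ne_zero (by norm_num) (cg_pos m).ne')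
      (pow_ne_zero _ (ne_of_gt hq.1))

theorem pk_bd (m : ℕ) : ∃ C : ℝ, 1 ≤ C ∧ ∀ r : ℝ, 0 < r → ∀ ξ : E m,
    Bd2 (fun x => pk r (x - ξ)) (C * r ^ 2 / r ^ m) (C * r / r ^ m) (C / r ^ m) := by
  have hc : HasCompactSupport (pk 1 : E m → ℝ) :=
    HasCompactSupport.intro (isCompact_closedBall 0 1) fun x hx =>
      pk_eq_zero one_pos (not_le.1 fun h => hx (mem_closedBall_zero_iff.2 h)).le
  obtain ⟨C, h1, hC⟩ := Kern_bd ((contDiff_pk 1).of_le (by norm_num)) hc
  refine ⟨C, h1, fun r hr ξ => ?_⟩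
  have e0 : (fun x => pk r (x - ξ)) = fun x => (r ^ 2 / r ^ m) • pk 1 (r⁻¹ • (x - ξ)) := by
    funext x
    have h := pk_smul hr 1 (r⁻¹ • (x - ξ))
    rw [mul_one, smul_inv_smul₀ hr.ne'] at h
    rw [h, smul_eq_mul]
    ring
  have h := (hC (r ^ 2 / r ^ m) r⁻¹ (by positivity) (by positivity) ξ).1
  rw [e0, show C * r ^ 2 / r ^ m = r ^ 2 / r ^ m * C by ring,
    show C * r / r ^ m = r ^ 2 / r ^ m * r⁻¹ * C by field_simp,
    show C / r ^ m = r ^ 2 / r ^ m * r⁻¹ * r⁻¹ * C by field_simp]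
  exact h

end Pool.Agent.MP_f6c0e6_an.Gen

end
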