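import Pool.Agent.MP_f6c0e6_an.All.Basic

section

/-! Calculus of the metric of a graph. -/

set_option autoImplicit false

open MeasureTheory Filter Topology Set Metric
open scoped ENNReal RealInnerProductSpace

namespace Pool.Agent.MP_f6c0e6_an.Gen

variable {m N : ℕ}

theorem GCalc_ev (i : Fin m) : (EuclideanSpace.basisFun (Fin m) ℝ) i = ev i := by
  simp [ev]

theorem sum_ev (v : E m) : ∑ i, ⟪ev i, v⟫ • ev i = v := by
  simpa only [GCalc_ev] using (EuclideanSpace.basisFun (Fin m) ℝ).sum_repr' v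

theorem inner_ev (i : Fin m) (v : E m) : ⟪ev i, v⟫ = v i := by
  simp [ev, EuclideanSpace.inner_single_left]

theorem norm_ev (i : Fin m) : ‖(ev i : E m)‖ = 1 := by
  simp [ev]

theorem sum_inner_ev (u v : E m) : ∑ i, ⟪ev i, u⟫ * ⟪ev i, v⟫ = ⟪u, v⟫ := by
  conv_rhs => rw [← sum_ev u, sum_inner]
  exact Finset.sum_congr rfl fun i _ => (real_inner_smul_left _ _ _).symm

/-- the trace in terms of the standard basis -/
theorem sum_ev_trace (L : E m →L[ℝ] E m) :
    ∑ i, ⟪ev i, L (ev i)⟫ = LinearMap.trace ℝ (E m) (L : E m →ₗ[ℝ] E m) := by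
  rw [LinearMap.trace_eq_sum_inner _ (EuclideanSpace.basisFun (Fin m) ℝ)]
  simp only [GCalc_ev, ContinuousLinearMap.coe_coe]

theorem sum_ev_comm (L L' : E m →L[ℝ] E m) :
    ∑ i, ⟪ev i, L (L' (ev i))⟫ = ∑ i, ⟪ev i, L' (L (ev i))⟫ := by
  have h1 := sum_ev_trace (L ∘L L')
  have h2 := sum_ev_trace (L' ∘L L)
  simp only [ContinuousLinearMap.comp_apply] at h1 h2
  rw [h1, h2]
  exact LinearMap.trace_mul_comm ℝ (L : E m →ₗ[ℝ] E m) (L' : E m →ₗ[ℝ] E m)

theorem abs_sum_ev_le (L : E m →L[ℝ] E m) : |∑ i, ⟪ev i, L (ev i)⟫| ≤ m * ‖L‖ := by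
  refine (Finset.abs_sum_le_sum_abs _ _).trans ?_
  have h : ∀ i : Fin m, |⟪ev i, L (ev i)⟫| ≤ ‖L‖ := fun i => by
    refine (abs_real_inner_le_norm _ _).trans ?_
    rw [norm_ev, one_mul]
    simpa only [norm_ev, mul_one] using L.le_opNorm (ev i)
  refine (Finset.sum_le_sum fun i _ => h i).trans ?_
  simp

/-- the second derivative of a `C²` map is symmetric -/
theorem hess_symm {F : Type*} [NormedAddCommGroup F] [NormedSpace ℝ F] {w : E m → F}
    (hw : ContDiff ℝ 2 w) (x u v : E m) :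
    fderiv ℝ (fderiv ℝ w) x u v = fderiv ℝ (fderiv ℝ w) x v u := by
  exact hw.contDiffAt.isSymmSndFDerivAt (by simp) u v

/-- the adjoint as a real linear map -/
noncomputable def GCalc_adj (m N : ℕ) : (E m →L[ℝ] E N) →L[ℝ] (E N →L[ℝ] E m) :=
  LinearMap.mkContinuous
    { toFun := fun A => A.adjoint
      map_add' := fun A B => map_add _ A B
      map_smul' := fun c A => by simp }
    1 fun A => by simp

theorem GCalc_adj_apply (A : E m →L[ℝ] E N) : GCalc_adj m N A = A.adjoint := rfl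

/-- the matrix of a map in the standard basis -/
noncomputable def GCalc_mat (L : E m →L[ℝ] E m) : Matrix (Fin m) (Fin m) ℝ :=
  LinearMap.toMatrix (EuclideanSpace.basisFun (Fin m) ℝ).toBasis
    (EuclideanSpace.basisFun (Fin m) ℝ).toBasis (L : E m →ₗ[ℝ] E m)

theorem GCalc_mat_apply (L : E m →L[ℝ] E m) (i j : Fin m) : GCalc_mat L i j = L (ev j) i := by
  simp [GCalc_mat, LinearMap.toMatrix_apply, ev]

/-- the determinant -/
noncomputable def GCalc_dt (L : E m →L[ℝ] E m) : ℝ := LinearMap.det (L : E m →ₗ[ℝ] E m)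

theorem GCalc_dt_eq (L : E m →L[ℝ] E m) : GCalc_dt L = (GCalc_mat L).det :=
  (LinearMap.det_toMatrix _ _).symm

theorem GCalc_dt_mul (L L' : E m →L[ℝ] E m) : GCalc_dt (L * L') = GCalc_dt L * GCalc_dt L' :=
  map_mul LinearMap.det (L : E m →ₗ[ℝ] E m) (L' : E m →ₗ[ℝ] E m)

theorem GCalc_dt_one : GCalc_dt (1 : E m →L[ℝ] E m) = 1 :=
  map_one (LinearMap.det : (E m →ₗ[ℝ] E m) →* ℝ)

theorem GCalc_dt_smooth (n : WithTop ℕ∞) : ContDiff ℝ n (GCalc_dt : (E m →L[ℝ] E m) → ℝ) := by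
  have h : (GCalc_dt : (E m →L[ℝ] E m) → ℝ) = fun L => ∑ σ : Equiv.Perm (Fin m),
      ((Equiv.Perm.sign σ : ℤ) : ℝ) * ∏ i, ⟪ev (σ i), L (ev i)⟫ := by
    funext L
    rw [GCalc_dt_eq, Matrix.det_apply']
    simp only [GCalc_mat_apply, inner_ev]
  rw [h]
  refine ContDiff.sum fun σ _ => contDiff_const.mul (contDiff_prod fun i _ => ?_)
  exact contDiff_const.inner ℝ (contDiff_id.clm_apply contDiff_const)

theorem GCalc_dt_one_add (K : E m →L[ℝ] E m) :
    HasDerivAt (fun t : ℝ => GCalc_dt (1 + t • K)) (∑ i, ⟪ev i, K (ev i)⟫) 0 := by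
  obtain ⟨p, hp⟩ : ∃ p : Polynomial ℝ, ∀ t : ℝ,
      (1 + t • GCalc_mat K).det = 1 + (GCalc_mat K).trace * t + p.eval t * t ^ 2 :=
    ⟨_, fun t => Matrix.det_one_add_smul t _⟩
  have h : (fun t : ℝ => GCalc_dt (1 + t • K)) =
      fun t => 1 + (GCalc_mat K).trace * t + p.eval t * t ^ 2 := by
    funext t
    rw [← hp, GCalc_dt_eq]
    congr 1
    ext i j
    simp [GCalc_mat_apply, ev, Matrix.one_apply]
  have h1 := (((hasDerivAt_id (0 : ℝ)).const_mul (GCalc_mat K).trace).const_add 1).add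
    ((p.hasDerivAt 0).mul (hasDerivAt_pow 2 (0 : ℝ)))
  rw [h]
  refine h1.congr_deriv ?_
  simp [Matrix.trace, GCalc_mat_apply, inner_ev]

/-- Jacobi's formula for the determinant -/
theorem GCalc_fderiv_dt {g gi : E m →L[ℝ] E m} (h : g * gi = 1) (H : E m →L[ℝ] E m) :
    fderiv ℝ GCalc_dt g H = GCalc_dt g * ∑ i, ⟪ev i, gi (H (ev i))⟫ := by
  have h1 : HasDerivAt (fun t : ℝ => g + t • H) H 0 := by
    simpa using ((hasDerivAt_id (0 : ℝ)).smul_const H).const_add g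
  have h2 : HasFDerivAt GCalc_dt (fderiv ℝ GCalc_dt g) (g + (0 : ℝ) • H) := by
    rw [show g + (0 : ℝ) • H = g by ext; simp]
    exact ((GCalc_dt_smooth 1).differentiable one_ne_zero g).hasFDerivAt
  have h3 := h2.comp_hasDerivAt (0 : ℝ) h1
  have h4 := (GCalc_dt_one_add (gi * H)).const_mul (GCalc_dt g)
  have h5 : (GCalc_dt ∘ fun t : ℝ => g + t • H) =
      fun t : ℝ => GCalc_dt g * GCalc_dt (1 + t • (gi * H)) := by
    funext t
    have h6 : ∀ v, g (gi v) = v := fun v => DFunLike.congr_fun h v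
    rw [← GCalc_dt_mul, Function.comp_apply]
    congr 1
    ext1 v
    simp [h6]
  rw [h5] at h3
  exact h3.unique h4

theorem GCalc_swap {S : E m →L[ℝ] E m} (hS : ∀ u v, ⟪S u, v⟫ = ⟪u, S v⟫) (P Q : E m →L[ℝ] E N) :
    ∑ i, ⟪P (ev i), Q (S (ev i))⟫ = ∑ i, ⟪Q (ev i), P (S (ev i))⟫ := by
  have h := sum_ev_comm (P.adjoint ∘L Q) S
  simp only [ContinuousLinearMap.comp_apply, ContinuousLinearMap.adjoint_inner_right, ← hS] at h
  rw [h]
  exact Finset.sum_congr rfl fun i _ => real_inner_comm _ _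

variable (w : E m → E N) (x : E m)

theorem inner_gW (u v : E m) :
    ⟪gW w x u, v⟫ = ⟪u, v⟫ + ⟪fderiv ℝ w x u, fderiv ℝ w x v⟫ := by
  simp [gW, inner_add_left, ContinuousLinearMap.adjoint_inner_left]

theorem gW_symm (u v : E m) : ⟪gW w x u, v⟫ = ⟪u, gW w x v⟫ := by
  rw [inner_gW, real_inner_comm (gW w x v), inner_gW, real_inner_comm u v,
    real_inner_comm (fderiv ℝ w x u)]

theorem GCalc_le_gW (v : E m) : ‖v‖ ≤ ‖gW w x v‖ := by
  have h1 := inner_gW w x v v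
  rw [real_inner_self_eq_norm_sq, real_inner_self_eq_norm_sq] at h1
  have h2 := real_inner_le_norm (gW w x v) v
  rcases (norm_nonneg v).eq_or_lt with h | h
  · rw [← h]
    exact norm_nonneg _
  · refine le_of_mul_le_mul_right ?_ h
    nlinarith only [h1, h2, sq_nonneg ‖fderiv ℝ w x v‖]

/-- `‖v‖ ≤ ‖gW v‖`, so the map is injective, hence bijective -/
theorem isUnit_gW : IsUnit (gW w x) := by
  rw [ContinuousLinearMap.isUnit_iff_isUnit_toLinearMap, LinearMap.isUnit_iff_ker_eq_bot,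
    LinearMap.ker_eq_bot']
  intro v hv
  have h := GCalc_le_gW w x v
  rw [show gW w x v = 0 from hv, norm_zero] at h
  exact norm_le_zero_iff.1 h

theorem GCalc_mul_inv : gW w x * giW w x = 1 := Ring.mul_inverse_cancel _ (isUnit_gW w x)

theorem GCalc_inv_mul : giW w x * gW w x = 1 := Ring.inverse_mul_cancel _ (isUnit_gW w x)

theorem giW_gW (v : E m) : giW w x (gW w x v) = v ∧ gW w x (giW w x v) = v := by
  exact ⟨DFunLike.congr_fun (GCalc_inv_mul w x) v, DFunLike.congr_fun (GCalc_mul_inv w x) v⟩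

theorem giW_symm (u v : E m) : ⟪giW w x u, v⟫ = ⟪u, giW w x v⟫ := by
  have h := gW_symm w x (giW w x u) (giW w x v)
  rw [(giW_gW w x u).2, (giW_gW w x v).2] at h
  exact h.symm

theorem gW_bd : ‖giW w x‖ ≤ 1 ∧ ‖gW w x - 1‖ ≤ ‖fderiv ℝ w x‖ ^ 2 ∧
    ‖giW w x - 1‖ ≤ ‖fderiv ℝ w x‖ ^ 2 := by
  have h1 : ‖giW w x‖ ≤ 1 := ContinuousLinearMap.opNorm_le_bound _ zero_le_one fun v => by
    have h := GCalc_le_gW w x (giW w x v)
    rwa [(giW_gW w x v).2, ← one_mul ‖v‖] at h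
  have h2 : ‖gW w x - 1‖ ≤ ‖fderiv ℝ w x‖ ^ 2 := by
    rw [gW, add_sub_cancel_left, sq]
    refine (ContinuousLinearMap.opNorm_comp_le _ _).trans ?_
    rw [LinearIsometryEquiv.norm_map]
  refine ⟨h1, h2, ?_⟩
  have h3 : giW w x - 1 = -(giW w x * (gW w x - 1)) := by
    rw [mul_sub, GCalc_inv_mul, mul_one, neg_sub]
  rw [h3, norm_neg]
  refine (norm_mul_le _ _).trans ?_
  calc _ ≤ 1 * ‖fderiv ℝ w x‖ ^ 2 := mul_le_mul h1 h2 (norm_nonneg _) zero_le_one
    _ = _ := one_mul _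

/-- eigenvalues of a symmetric map, all between `1` and `2` -/
theorem sgW_bd : 1 ≤ LinearMap.det (gW w x : E m →ₗ[ℝ] E m) ∧ 1 ≤ sgW w x ∧
    (‖fderiv ℝ w x‖ ≤ 1 → sgW w x ≤ 2 ^ m) := by
  have hs : (gW w x : E m →ₗ[ℝ] E m).IsSymmetric := gW_symm w x
  have hn : Module.finrank ℝ (E m) = m := finrank_euclideanSpace_fin
  have he : ∀ i, hs.eigenvalues hn i = 1 + ‖fderiv ℝ w x (hs.eigenvectorBasis hn i)‖ ^ 2 := by
    intro i
    have h1 := inner_gW w x (hs.eigenvectorBasis hn i) (hs.eigenvectorBasis hn i)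
    have h2 : gW w x (hs.eigenvectorBasis hn i) = hs.eigenvalues hn i • hs.eigenvectorBasis hn i :=
      hs.apply_eigenvectorBasis hn i
    rw [h2, real_inner_smul_left, real_inner_self_eq_norm_sq, real_inner_self_eq_norm_sq,
      (hs.eigenvectorBasis hn).orthonormal.1 i] at h1
    simpa using h1
  have hdet : LinearMap.det (gW w x : E m →ₗ[ℝ] E m) = ∏ i, hs.eigenvalues hn i :=
    hs.det_eq_prod_eigenvalues hn
  have h1 : 1 ≤ LinearMap.det (gW w x : E m →ₗ[ℝ] E m) := by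
    rw [hdet]
    refine Finset.one_le_prod fun i _ => ?_
    rw [he]
    exact le_add_of_nonneg_right (sq_nonneg _)
  refine ⟨h1, Real.one_le_sqrt.2 h1, fun h => ?_⟩
  have h2 : LinearMap.det (gW w x : E m →ₗ[ℝ] E m) ≤ 2 ^ m := by
    rw [hdet]
    calc _ ≤ ∏ _i : Fin m, (2 : ℝ) := by
          refine Finset.prod_le_prod (fun i _ => by rw [he]; positivity) fun i _ => ?_
          have h3 := (fderiv ℝ w x).le_opNorm (hs.eigenvectorBasis hn i)
          rw [(hs.eigenvectorBasis hn).orthonormal.1 i, mul_one] at h3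
          have h4 := pow_le_one₀ (norm_nonneg _) (h3.trans h) (n := 2)
          rw [he]
          linarith only [hn, h4]
      _ = _ := by simp
  refine Real.sqrt_le_iff.2 ⟨by positivity, h2.trans ?_⟩
  exact le_self_pow₀ (one_le_pow₀ one_le_two) two_ne_zero

variable {w}

theorem contDiff_gW {n : ℕ} (hw : ContDiff ℝ (n + 1 : ℕ) w) :
    ContDiff ℝ n (gW w) ∧ ContDiff ℝ n (giW w) ∧ ContDiff ℝ n (sgW w) := by
  have h1 : ContDiff ℝ n (fderiv ℝ w) := hw.fderiv_right (by simp)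
  have h2 : ContDiff ℝ n (gW w) :=
    contDiff_const.add (((GCalc_adj m N).contDiff.comp h1).clm_comp h1)
  refine ⟨h2, contDiff_iff_contDiffAt.2 fun x => ?_, ?_⟩
  · obtain ⟨u, hu⟩ := isUnit_gW w x
    have h3 := contDiffAt_ringInverse ℝ (n := n) u
    rw [hu] at h3
    exact h3.comp x h2.contDiffAt
  · exact ((GCalc_dt_smooth n).comp h2).sqrt fun x =>
      (zero_lt_one.trans_le (sgW_bd w x).1).ne'

theorem GCalc_hasFDerivAt (hw : ContDiff ℝ 2 w) :
    HasFDerivAt (fderiv ℝ w) (fderiv ℝ (fderiv ℝ w) x) x :=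
  (((hw.fderiv_right (m := 1) (by norm_num)).differentiable one_ne_zero) x).hasFDerivAt

theorem GCalc_fderiv_gW (hw : ContDiff ℝ 2 w) (v : E m) :
    fderiv ℝ (gW w) x v = (fderiv ℝ w x).adjoint ∘L fderiv ℝ (fderiv ℝ w) x v +
      (fderiv ℝ (fderiv ℝ w) x v).adjoint ∘L fderiv ℝ w x := by
  have h1 := GCalc_hasFDerivAt x hw
  have h2 := (((GCalc_adj m N).hasFDerivAt.comp x h1).clm_comp h1).const_add 1
  have h3 : fderiv ℝ (gW w) x = _ := h2.fderiv
  rw [h3]
  rfl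

theorem GCalc_diff (hw : ContDiff ℝ 2 w) : DifferentiableAt ℝ (gW w) x ∧
    DifferentiableAt ℝ (giW w) x ∧ DifferentiableAt ℝ (sgW w) x := by
  obtain ⟨h1, h2, h3⟩ := contDiff_gW (n := 1) hw
  exact ⟨h1.differentiable (by simp) x, h2.differentiable (by simp) x,
    h3.differentiable (by simp) x⟩

theorem GCalc_fderiv_giW (hw : ContDiff ℝ 2 w) (v : E m) :
    fderiv ℝ (giW w) x v = -(giW w x * fderiv ℝ (gW w) x v * giW w x) := by
  obtain ⟨u, hu⟩ := isUnit_gW w x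
  have h1 := hasFDerivAt_ringInverse (𝕜 := ℝ) u
  rw [hu] at h1
  have h2 : fderiv ℝ (giW w) x = _ := (h1.comp x (GCalc_diff x hw).1.hasFDerivAt).fderiv
  have h3 : giW w x = ((u⁻¹ : (E m →L[ℝ] E m)ˣ) : E m →L[ℝ] E m) := by
    rw [giW, ← hu, Ring.inverse_unit]
  rw [h2, h3]
  rfl

theorem fderiv_gW (hw : ContDiff ℝ 2 w) (v a b : E m) :
    ⟪fderiv ℝ (gW w) x v a, b⟫ = ⟪fderiv ℝ (fderiv ℝ w) x v a, fderiv ℝ w x b⟫ +
      ⟪fderiv ℝ w x a, fderiv ℝ (fderiv ℝ w) x v b⟫ := by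
  rw [GCalc_fderiv_gW x hw]
  simp only [add_apply, ContinuousLinearMap.comp_apply, inner_add_left,
    ContinuousLinearMap.adjoint_inner_left]

theorem fderiv_giW (hw : ContDiff ℝ 2 w) (v a : E m) :
    fderiv ℝ (giW w) x v a = -giW w x (fderiv ℝ (gW w) x v (giW w x a)) := by
  rw [GCalc_fderiv_giW x hw]
  rfl

/-- Jacobi's formula: `det (g + t h) = det g * det (1 + t g⁻¹ h)`, and the derivative of the
determinant at the identity is the trace (`Matrix.det_one_add_smul` or multilinearity). -/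
theorem fderiv_sgW (hw : ContDiff ℝ 2 w) (v : E m) :
    fderiv ℝ (sgW w) x v = sgW w x *
      ∑ i, ⟪fderiv ℝ (fderiv ℝ w) x v (ev i), fderiv ℝ w x (giW w x (ev i))⟫ := by
  have hpos : 0 < GCalc_dt (gW w x) := zero_lt_one.trans_le (sgW_bd w x).1
  have h1 := ((((GCalc_dt_smooth 1).differentiable one_ne_zero (gW w x)).hasFDerivAt).comp x
    (GCalc_diff x hw).1.hasFDerivAt).sqrt hpos.ne'
  have h2 : fderiv ℝ (sgW w) x = _ := h1.fderiv
  have h3 : sgW w x * sgW w x = GCalc_dt (gW w x) := Real.mul_self_sqrt hpos.le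
  have h4 : sgW w x ≠ 0 := (zero_lt_one.trans_le (sgW_bd w x).2.1).ne'
  have h5 : ∑ i, ⟪ev i, giW w x (fderiv ℝ (gW w) x v (ev i))⟫ =
      2 * ∑ i, ⟪fderiv ℝ (fderiv ℝ w) x v (ev i), fderiv ℝ w x (giW w x (ev i))⟫ := by
    rw [two_mul]
    nth_rewrite 2 [GCalc_swap (giW_symm w x)]
    rw [← Finset.sum_add_distrib]
    refine Finset.sum_congr rfl fun i _ => ?_
    rw [← giW_symm, real_inner_comm, fderiv_gW x hw]
  rw [h2]
  change 1 / (2 * sgW w x) * fderiv ℝ GCalc_dt (gW w x) (fderiv ℝ (gW w) x v) = _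
  rw [GCalc_fderiv_dt (GCalc_mul_inv w x), h5, ← h3]
  field_simp

/-- The coordinates are harmonic on a minimal graph: `∂_j (√g g^{jl}) = 0`. In indices,
`∂_j √g = √g g^{ab} ⟪H_{ja}, w_b⟫` and
`∂_j g^{jl} = - g^{ja} g^{bl} (⟪H_{ja}, w_b⟫ + ⟪w_a, H_{jb}⟫)`, where the first term vanishes by
`MinAt` and the second cancels `g^{jl} ∂_j √g` after renaming the indices. -/
theorem div_sgW (hw : ContDiff ℝ 2 w) (hmin : MinAt w x) (u : E m) :
    dv (fun y => sgW w y • giW w y u) x = 0 := by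
  obtain ⟨-, h2, h3⟩ := GCalc_diff x hw
  have h4 := h3.hasFDerivAt.smul (h2.hasFDerivAt.clm_apply (hasFDerivAt_const u x))
  have h5 : fderiv ℝ (fun y => sgW w y • giW w y u) x = _ := h4.fderiv
  have h6 : ∀ i, ⟪ev i, fderiv ℝ (fun y => sgW w y • giW w y u) x (ev i)⟫ =
      fderiv ℝ (sgW w) x (⟪ev i, giW w x u⟫ • ev i) - sgW w x *
        (⟪fderiv ℝ (fderiv ℝ w) x (giW w x u) (ev i), fderiv ℝ w x (giW w x (ev i))⟫ +
          ⟪fderiv ℝ w x (giW w x u), fderiv ℝ (fderiv ℝ w) x (ev i) (giW w x (ev i))⟫) := by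
    intro i
    have h7 : fderiv ℝ (fun y => sgW w y • giW w y u) x (ev i) =
        sgW w x • fderiv ℝ (giW w) x (ev i) u + fderiv ℝ (sgW w) x (ev i) • giW w x u := by
      rw [h5]
      simp
    rw [h7, inner_add_right, real_inner_smul_right, real_inner_smul_right, fderiv_giW x hw,
      inner_neg_right, ← giW_symm, real_inner_comm (fderiv ℝ (gW w) x (ev i) (giW w x u)),
      fderiv_gW x hw, hess_symm hw x (ev i) (giW w x u), map_smul, smul_eq_mul]
    ring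
  rw [dv, Finset.sum_congr rfl fun i _ => h6 i, Finset.sum_sub_distrib, ← map_sum, sum_ev,
    ← Finset.mul_sum, Finset.sum_add_distrib, ← inner_sum, hmin, inner_zero_right, add_zero,
    fderiv_sgW x hw, sub_self]

/-- first derivatives of the coefficients -/
theorem dgW_bd (hw : ContDiff ℝ 2 w) (h1 : ‖fderiv ℝ w x‖ ≤ 1)
    (h2 : ‖fderiv ℝ (fderiv ℝ w) x‖ ≤ 1) :
    ‖fderiv ℝ (gW w) x‖ ≤ 2 ∧ ‖fderiv ℝ (giW w) x‖ ≤ 2 ∧ ‖fderiv ℝ (sgW w) x‖ ≤ m * sgW w x ∧
      ‖fderiv ℝ (fun y => (sgW w y)⁻¹) x‖ ≤ m := by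
  have hH : ∀ v, ‖fderiv ℝ (fderiv ℝ w) x v‖ ≤ ‖v‖ := fun v =>
    ((fderiv ℝ (fderiv ℝ w) x).le_of_opNorm_le h2 v).trans_eq (one_mul _)
  have hg : ∀ v, ‖fderiv ℝ (gW w) x v‖ ≤ 2 * ‖v‖ := fun v => by
    rw [GCalc_fderiv_gW x hw]
    refine (norm_add_le _ _).trans ?_
    have e1 := ContinuousLinearMap.opNorm_comp_le (fderiv ℝ w x).adjoint
      (fderiv ℝ (fderiv ℝ w) x v)
    have e2 := ContinuousLinearMap.opNorm_comp_le (fderiv ℝ (fderiv ℝ w) x v).adjoint
      (fderiv ℝ w x)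
    rw [LinearIsometryEquiv.norm_map] at e1 e2
    have e3 := mul_le_mul h1 (hH v) (norm_nonneg _) zero_le_one
    rw [mul_comm] at e2
    linarith only [e1, e2, e3]
  have hgi := (gW_bd w x).1
  have hs1 := (sgW_bd w x).2.1
  have hs : ‖fderiv ℝ (sgW w) x‖ ≤ m * sgW w x := by
    refine ContinuousLinearMap.opNorm_le_bound _ (by positivity) fun v => ?_
    have e1 := abs_sum_ev_le (giW w x ∘L (fderiv ℝ w x).adjoint ∘L fderiv ℝ (fderiv ℝ w) x v)
    have e2 : ‖giW w x ∘L (fderiv ℝ w x).adjoint ∘L fderiv ℝ (fderiv ℝ w) x v‖ ≤ ‖v‖ := by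
      refine (ContinuousLinearMap.opNorm_comp_le _ _).trans ?_
      have e3 := ContinuousLinearMap.opNorm_comp_le (fderiv ℝ w x).adjoint
        (fderiv ℝ (fderiv ℝ w) x v)
      rw [LinearIsometryEquiv.norm_map] at e3
      have e4 := mul_le_mul h1 (hH v) (norm_nonneg _) zero_le_one
      exact (mul_le_mul hgi (e3.trans e4) (norm_nonneg _) zero_le_one).trans_eq (by ring)
    simp only [ContinuousLinearMap.comp_apply, ← giW_symm,
      ContinuousLinearMap.adjoint_inner_right] at e1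
    rw [fderiv_sgW x hw, Real.norm_eq_abs, abs_mul, abs_of_nonneg (zero_le_one.trans hs1),
      Finset.sum_congr rfl fun i _ => real_inner_comm _ _, mul_comm (m : ℝ), mul_assoc]
    exact mul_le_mul_of_nonneg_left (e1.trans (mul_le_mul_of_nonneg_left e2 (by positivity)))
      (zero_le_one.trans hs1)
  refine ⟨ContinuousLinearMap.opNorm_le_bound _ zero_le_two hg,
    ContinuousLinearMap.opNorm_le_bound _ zero_le_two fun v => ?_, hs, ?_⟩
  · rw [GCalc_fderiv_giW x hw, norm_neg]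
    refine (norm_mul_le _ _).trans ?_
    have e1 := (norm_mul_le _ _).trans (mul_le_mul hgi (hg v) (norm_nonneg _) zero_le_one)
    exact (mul_le_mul e1 hgi (norm_nonneg _) (by positivity)).trans_eq (by ring)
  · have hs0 : 0 < sgW w x := zero_lt_one.trans_le hs1
    have e1 := (hasDerivAt_inv hs0.ne').comp_hasFDerivAt x (GCalc_diff x hw).2.2.hasFDerivAt
    have e2 : fderiv ℝ (fun y => (sgW w y)⁻¹) x = _ := e1.fderiv
    rw [e2, norm_smul, norm_neg, Real.norm_of_nonneg (by positivity)]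
    calc _ ≤ (sgW w x ^ 2)⁻¹ * (m * sgW w x) := mul_le_mul_of_nonneg_left hs (by positivity)
      _ = m / sgW w x := by field_simp
      _ ≤ m := div_le_self (by positivity) hs1

/-- `vol` is multiplicative -/
theorem vol_map (L : E m →L[ℝ] E m) (v : Fin m → E m) :
    vol (fun j => L (v j)) = |LinearMap.det (L : E m →ₗ[ℝ] E m)| * vol v := by
  have h : (Matrix.of fun i j => L (v j) i) = GCalc_mat L * Matrix.of fun i j => v j i := by
    ext i j
    rw [Matrix.mul_apply, Matrix.of_apply]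
    conv_lhs => rw [← sum_ev (v j), map_sum, ← inner_ev, inner_sum]
    refine Finset.sum_congr rfl fun k _ => ?_
    rw [map_smul, real_inner_smul_right, inner_ev, inner_ev, GCalc_mat_apply, Matrix.of_apply,
      mul_comm]
  rw [vol, h, Matrix.det_mul, abs_mul, ← GCalc_dt_eq]
  rfl

/-- the square of `vol` is the determinant of `∑ v_j ⊗ v_j` -/
theorem vol_sq (v : Fin m → E m) : vol v ^ 2 =
    LinearMap.det ((∑ j, (innerSL ℝ (v j)).smulRight (v j) : E m →L[ℝ] E m) : E m →ₗ[ℝ] E m) := by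
  have h : GCalc_mat (∑ j, (innerSL ℝ (v j)).smulRight (v j) : E m →L[ℝ] E m) =
      (Matrix.of fun i j => v j i) * (Matrix.of fun i j => v j i).transpose := by
    ext i k
    rw [GCalc_mat_apply, Matrix.mul_apply, sum_apply, ← inner_ev, inner_sum]
    refine Finset.sum_congr rfl fun j _ => ?_
    rw [ContinuousLinearMap.smulRight_apply, real_inner_smul_right, innerSL_apply_apply,
      real_inner_comm, inner_ev, inner_ev, mul_comm]
    rfl
  change _ = GCalc_dt _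
  rw [GCalc_dt_eq, h, Matrix.det_mul, Matrix.det_transpose, vol, sq_abs, sq]

theorem GCalc_taylor {X : Type*} [NormedAddCommGroup X] [NormedSpace ℝ X] [ProperSpace X]
    {φ : X → ℝ} (hφ : ContDiff ℝ 2 φ) (h0 : φ 0 = 0) (h1 : fderiv ℝ φ 0 = 0) (R : ℝ) :
    ∃ C : ℝ, 1 ≤ C ∧ ∀ L, ‖L‖ ≤ R → |φ L| ≤ C * ‖L‖ ^ 2 := by
  have hd : ContDiff ℝ 1 (fderiv ℝ φ) := hφ.fderiv_right (m := 1) (by norm_num)
  obtain ⟨C, hC⟩ := (isCompact_closedBall (0 : X) R).exists_bound_of_continuousOn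
    (hd.continuous_fderiv one_ne_zero).continuousOn
  refine ⟨max C 1, le_max_right _ _, fun L hL => ?_⟩
  have hR : 0 ≤ R := (norm_nonneg L).trans hL
  have h2 : ∀ y ∈ closedBall (0 : X) ‖L‖, ‖fderiv ℝ φ y‖ ≤ max C 1 * ‖L‖ := by
    intro y hy
    have h3 := (convex_closedBall (0 : X) R).norm_image_sub_le_of_norm_fderiv_le
      (fun z _ => hd.differentiable one_ne_zero z) (fun z hz => (hC z hz).trans (le_max_left C 1))
      (mem_closedBall_self hR) (closedBall_subset_closedBall hL hy)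
    rw [h1, sub_zero, sub_zero] at h3
    exact h3.trans (mul_le_mul_of_nonneg_left (mem_closedBall_zero_iff.1 hy) (by positivity))
  have h4 := (convex_closedBall (0 : X) ‖L‖).norm_image_sub_le_of_norm_fderiv_le
    (fun z _ => hφ.differentiable two_ne_zero z) h2 (mem_closedBall_self (norm_nonneg L))
    (mem_closedBall_zero_iff.2 le_rfl)
  rw [h0, sub_zero, sub_zero, Real.norm_eq_abs] at h4
  rw [sq, ← mul_assoc]
  exact h4

theorem GCalc_num {C J t : ℝ} (hC : 1 ≤ C) (hJ : 0 ≤ J) (ht : 0 ≤ t)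
    (h : |J ^ 2 - 1 + t| ≤ C * t ^ 2) : |1 - t / 2 - J| ≤ (2 * C + 3) * t ^ 2 := by
  obtain ⟨h1, h2⟩ := abs_le.1 h
  have hCt : 0 ≤ C * t ^ 2 := by positivity
  have ht2 : 0 ≤ t ^ 2 := by positivity
  rcases le_total t 1 with h3 | h3
  · have h4 : |1 - t / 2 - J| * (1 - t / 2 + J) ≤ C * t ^ 2 + t ^ 2 / 4 := by
      rw [← abs_of_nonneg (show 0 ≤ 1 - t / 2 + J by linarith only [hJ, h3]), ← abs_mul, abs_le]
      constructor <;> nlinarith only [h2, h1]
    have h5 : |1 - t / 2 - J| * (1 / 2) ≤ |1 - t / 2 - J| * (1 - t / 2 + J) :=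
      mul_le_mul_of_nonneg_left (by linarith only [hJ, h3]) (abs_nonneg _)
    nlinarith only [h4, h5]
  · have h4 : t ≤ t ^ 2 := by nlinarith only [ht, h3]
    have h5 : 2 * J ≤ 1 + J ^ 2 := by nlinarith only [sq_nonneg (J - 1)]
    rw [abs_le]
    constructor <;> nlinarith only [h1, h2, h3, h4, h5, hJ]

/-- The determinant near the identity. Expand over permutations, or use the compactness of the
unit ball and Taylor's formula for the polynomial `det`. -/
theorem det_expand (m : ℕ) : ∃ C : ℝ, 1 ≤ C ∧ ∀ L : E m →L[ℝ] E m, ‖L‖ ≤ 2 * m + 2 →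
    |LinearMap.det ((1 - L : E m →L[ℝ] E m) : E m →ₗ[ℝ] E m) - 1 + ∑ i, ⟪ev i, L (ev i)⟫| ≤
      C * ‖L‖ ^ 2 := by
  let τ : (E m →L[ℝ] E m) →L[ℝ] ℝ :=
    ∑ i, innerSL ℝ (ev i) ∘L ContinuousLinearMap.apply ℝ (E m) (ev i)
  have hτ : ∀ L, τ L = ∑ i, ⟪ev i, L (ev i)⟫ := fun L => by simp [τ]
  have h1 : ContDiff ℝ 2 fun L : E m →L[ℝ] E m => GCalc_dt (1 - L) - 1 + τ L :=
    (((GCalc_dt_smooth 2).comp (contDiff_const.sub contDiff_id)).sub contDiff_const).add
      τ.contDiff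
  have h2 : HasFDerivAt GCalc_dt (fderiv ℝ GCalc_dt (1 : E m →L[ℝ] E m))
      ((1 : E m →L[ℝ] E m) - 0) := by
    rw [sub_zero]
    exact ((GCalc_dt_smooth 1).differentiable one_ne_zero _).hasFDerivAt
  have h3 := ((h2.comp 0 ((hasFDerivAt_id (0 : E m →L[ℝ] E m)).const_sub 1)).sub_const 1).add
    τ.hasFDerivAt
  have h4 : fderiv ℝ (fun L : E m →L[ℝ] E m => GCalc_dt (1 - L) - 1 + τ L) 0 = _ := h3.fderiv
  have : FiniteDimensional ℝ (E m →L[ℝ] E m) := inferInstance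
  have : ProperSpace (E m →L[ℝ] E m) := FiniteDimensional.proper_real _
  obtain ⟨C, hC, h⟩ := GCalc_taylor h1 (by simp [GCalc_dt_one]) (by
    rw [h4]
    ext L
    simp [GCalc_fderiv_dt (one_mul 1), GCalc_dt_one, hτ]) (2 * m + 2)
  refine ⟨C, hC, fun L hL => ?_⟩
  rw [← hτ]
  exact h L hL

/-- the square root version: if `J ≥ 0`, `J² = det (1 - L)` and `‖L‖ ≤ 2 t`, where `t` is the trace
of `L`, `t ≤ m`, then `J = 1 - t / 2 + O (t²)` -/
theorem sqrt_det_expand (m : ℕ) : ∃ C : ℝ, 1 ≤ C ∧ ∀ (L : E m →L[ℝ] E m) (J t : ℝ), 0 ≤ J →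
    J ^ 2 = LinearMap.det ((1 - L : E m →L[ℝ] E m) : E m →ₗ[ℝ] E m) →
    t = ∑ i, ⟪ev i, L (ev i)⟫ → ‖L‖ ≤ 2 * t → t ≤ m → |1 - t / 2 - J| ≤ C * t ^ 2 := by
  obtain ⟨C, hC, h⟩ := det_expand m
  refine ⟨2 * (4 * C) + 3, by linarith, fun L J t hJ hJ2 ht hL htm => ?_⟩
  have h0 : 0 ≤ t := by linarith only [hL, norm_nonneg L]
  refine GCalc_num (by linarith) hJ h0 ?_
  have h1 := h L (by linarith)
  rw [← hJ2, ← ht] at h1
  refine h1.trans ?_
  calc C * ‖L‖ ^ 2 ≤ C * (2 * t) ^ 2 :=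
        mul_le_mul_of_nonneg_left (pow_le_pow_left₀ (norm_nonneg _) hL 2) (by linarith)
    _ = _ := by ring

end Pool.Agent.MP_f6c0e6_an.Gen

end

section

/-! Linear algebra of a frame with respect to a plane. -/

set_option autoImplicit false

open MeasureTheory Filter Topology Set Metric
open scoped ENNReal RealInnerProductSpace

namespace Pool.Agent.MP_f6c0e6_an.Gen

variable {m N : ℕ}

section
variable (ι : E m →ₗᵢ[ℝ] E N)

theorem pr_iota (ξ : E m) : pr ι (ι ξ) = ξ := by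
  refine ext_inner_right ℝ fun v => ?_
  rw [pr, ContinuousLinearMap.adjoint_inner_left]
  exact ι.inner_map_map ξ v

theorem inner_iota (u : E m) (y : E N) : ⟪ι u, y⟫ = ⟪u, pr ι y⟫ := by
  rw [pr, ContinuousLinearMap.adjoint_inner_right]
  rfl

theorem pr_vt (y : E N) : pr ι (vt ι y) = 0 := by
  rw [vt, map_sub, pr_iota, sub_self]

theorem iota_pr_add_vt (y : E N) : ι (pr ι y) + vt ι y = y := by
  rw [vt, add_sub_cancel]

theorem vt_iota (ξ : E m) : vt ι (ι ξ) = 0 := by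
  rw [vt, pr_iota, sub_self]

theorem vt_of_pr {y : E N} (h : pr ι y = 0) : vt ι y = y := by
  rw [vt, h, map_zero, sub_zero]

/-- the vertical part as a continuous linear map -/
noncomputable def vtL : E N →L[ℝ] E N := 1 - ι.toContinuousLinearMap ∘L pr ι

theorem vtL_apply (y : E N) : vtL ι y = vt ι y := by
  rfl

theorem vt_add (y y' : E N) : vt ι (y + y') = vt ι y + vt ι y' := by
  exact map_add (vtL ι) y y'

theorem vt_sub (y y' : E N) : vt ι (y - y') = vt ι y - vt ι y' := by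
  exact map_sub (vtL ι) y y'

theorem vt_smul (t : ℝ) (y : E N) : vt ι (t • y) = t • vt ι y := by
  exact map_smul (vtL ι) t y

theorem inner_vt (y y' : E N) : ⟪vt ι y, y'⟫ = ⟪y, vt ι y'⟫ ∧
    ⟪y, y'⟫ = ⟪pr ι y, pr ι y'⟫ + ⟪vt ι y, vt ι y'⟫ := by
  have h1 : ⟪vt ι y, y'⟫ = ⟪y, y'⟫ - ⟪pr ι y, pr ι y'⟫ := by
    rw [vt, inner_sub_left, inner_iota]
  have h2 : ⟪y, vt ι y'⟫ = ⟪y, y'⟫ - ⟪pr ι y, pr ι y'⟫ := by
    rw [vt, inner_sub_right, real_inner_comm (ι (pr ι y')), inner_iota,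
      real_inner_comm (pr ι y)]
  have h3 : ⟪vt ι y, vt ι y'⟫ = ⟪y, vt ι y'⟫ := by
    conv_lhs => rw [show vt ι y = y - ι (pr ι y) from rfl, inner_sub_left, inner_iota, pr_vt,
      inner_zero_right, sub_zero]
  exact ⟨h1.trans h2.symm, by rw [h3, h2]; ring⟩

theorem norm_sq_split (y : E N) : ‖y‖ ^ 2 = ‖pr ι y‖ ^ 2 + ‖vt ι y‖ ^ 2 := by
  simpa only [real_inner_self_eq_norm_sq] using (inner_vt ι y y).2

theorem norm_pr_le (y : E N) :
    ‖pr ι y‖ ≤ ‖y‖ ∧ ‖vt ι y‖ ≤ ‖y‖ ∧ ‖y‖ ≤ ‖pr ι y‖ + ‖vt ι y‖ := by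
  have h := norm_sq_split ι y
  refine ⟨abs_le_of_sq_le_sq' ?_ (norm_nonneg _) |>.2,
    abs_le_of_sq_le_sq' ?_ (norm_nonneg _) |>.2, ?_⟩
  · rw [h]
    exact le_add_of_nonneg_right (sq_nonneg _)
  · rw [h]
    exact le_add_of_nonneg_left (sq_nonneg _)
  · have h1 := norm_add_le (ι (pr ι y)) (vt ι y)
    rwa [iota_pr_add_vt, ι.norm_map] at h1

theorem hasFDerivAt_vt (y : E N) : HasFDerivAt (vt ι) (vtL ι) y := by
  exact (vtL ι).hasFDerivAt

theorem contDiff_vt (n : ℕ) : ContDiff ℝ n (vt ι) := by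
  exact (vtL ι).contDiff

theorem isOpen_cylF : IsOpen (cylF ι) := by
  exact (isOpen_lt (pr ι).continuous.norm continuous_const).inter
    (isOpen_lt (vtL ι).continuous.norm continuous_const)

variable (s : Fin m → E N)

/-- the map whose bilinear form is `NF` -/
noncomputable def FlatA_L : E m →L[ℝ] E m :=
  1 - ∑ l, (innerSL ℝ (pr ι (s l))).smulRight (pr ι (s l))

theorem FlatA_L_apply (u : E m) :
    FlatA_L ι s u = u - ∑ l, ⟪pr ι (s l), u⟫ • pr ι (s l) := by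
  simp only [FlatA_L, sub_apply, sum_apply, ContinuousLinearMap.smulRight_apply,
    innerSL_apply_apply]
  rfl

theorem FlatA_NF (u v : E m) : NF ι s u v = ⟪u, FlatA_L ι s v⟫ := by
  rw [FlatA_L_apply, inner_sub_right, inner_sum, NF]
  congr 1
  exact Finset.sum_congr rfl fun l _ => by
    rw [real_inner_smul_right, real_inner_comm (pr ι (s l)) u, mul_comm]

/-- the component of `ι u` normal to the frame -/
noncomputable def FlatA_T : E m →L[ℝ] E N :=
  (1 - ∑ l, (innerSL ℝ (s l)).smulRight (s l) : E N →L[ℝ] E N) ∘L ι.toContinuousLinearMap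

theorem FlatA_T_apply (u : E m) : FlatA_T ι s u = ι u - ∑ l, ⟪s l, ι u⟫ • s l := by
  simp only [FlatA_T, ContinuousLinearMap.comp_apply, sub_apply, sum_apply,
    ContinuousLinearMap.smulRight_apply, innerSL_apply_apply,
    LinearIsometry.coe_toContinuousLinearMap]
  rfl

theorem FlatA_iota (y : E N) (u : E m) : ⟪y, ι u⟫ = ⟪pr ι y, u⟫ := by
  rw [real_inner_comm, inner_iota, real_inner_comm]

theorem FlatA_pr (u : E m) : pr ι (FlatA_T ι s u) = FlatA_L ι s u := by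
  simp only [FlatA_T_apply, FlatA_L_apply, map_sub, map_sum, map_smul, pr_iota, FlatA_iota]

theorem FlatA_vt (u : E m) : vt ι (FlatA_T ι s u) = -BF ι s u := by
  rw [FlatA_T_apply, vt_sub, vt_iota, zero_sub, ← vtL_apply, map_sum, BF]
  simp only [map_smul, vtL_apply, FlatA_iota]

theorem FlatA_hs (T : E m →L[ℝ] E N) (u : E m) :
    ‖T u‖ ^ 2 ≤ (∑ i, ‖T (ev i)‖ ^ 2) * ‖u‖ ^ 2 := by
  have h1 : ‖T u‖ ≤ ∑ i, ‖T (ev i)‖ * |u i| := by
    conv_lhs => rw [← sum_ev u, map_sum]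
    refine (norm_sum_le _ _).trans_eq (Finset.sum_congr rfl fun i _ => ?_)
    rw [map_smul, norm_smul, inner_ev, Real.norm_eq_abs, mul_comm]
  refine (pow_le_pow_left₀ (norm_nonneg _) h1 2).trans
    ((Finset.sum_mul_sq_le_sq_mul_sq _ _ _).trans_eq ?_)
  rw [EuclideanSpace.real_norm_sq_eq]
  simp only [sq_abs]

theorem NF_symm (u v : E m) : NF ι s u v = NF ι s v u := by
  simp only [NF, real_inner_comm u v, mul_comm]

theorem NF_add (u u' v : E m) : NF ι s (u + u') v = NF ι s u v + NF ι s u' v := by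
  simp only [NF, inner_add_left, inner_add_right, add_mul, Finset.sum_add_distrib]
  ring

theorem NF_smul (t : ℝ) (u v : E m) : NF ι s (t • u) v = t * NF ι s u v := by
  simp only [NF, real_inner_smul_left, real_inner_smul_right, mul_assoc, ← Finset.mul_sum]
  ring

theorem NF_expand (u v : E m) :
    NF ι s u v = ∑ i, ∑ j, NF ι s (ev i) (ev j) * (u i * v j) := by
  have h : ∀ u v : E m, NF ι s u v = ∑ i, NF ι s (ev i) v * u i := fun u v => by
    rw [FlatA_NF, ← sum_inner_ev]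
    exact Finset.sum_congr rfl fun i _ => by rw [FlatA_NF, inner_ev i u, mul_comm]
  rw [h]
  refine Finset.sum_congr rfl fun i _ => ?_
  rw [NF_symm, h, Finset.sum_mul]
  refine Finset.sum_congr rfl fun j _ => ?_
  rw [NF_symm]
  ring

theorem BF_add (u u' : E m) : BF ι s (u + u') = BF ι s u + BF ι s u' := by
  simp only [BF, inner_add_right, add_smul, Finset.sum_add_distrib]

theorem BF_smul (t : ℝ) (u : E m) : BF ι s (t • u) = t • BF ι s u := by
  simp only [BF, real_inner_smul_right, mul_smul, Finset.smul_sum]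

theorem pr_BF (u : E m) : pr ι (BF ι s u) = 0 := by
  simp only [BF, map_sum, map_smul, pr_vt, smul_zero, Finset.sum_const_zero]

/-- the trace of a linear map along the horizontal parts of the frame -/
theorem sum_inner_pr (L : E m →L[ℝ] E m) : ∑ l, ⟪pr ι (s l), L (pr ι (s l))⟫ =
    ∑ i, ⟪ev i, L (ev i)⟫ - ∑ i, NF ι s (ev i) (L (ev i)) := by
  have h : ∀ a : E m, ⟪a, L a⟫ = ∑ i, ⟪a, ev i⟫ * ⟪a, L (ev i)⟫ := fun a => by
    conv_lhs => rw [← congrArg L (sum_ev a), map_sum, inner_sum]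
    refine Finset.sum_congr rfl fun i _ => ?_
    rw [map_smul, real_inner_smul_right, real_inner_comm]
  simp only [NF, Finset.sum_sub_distrib, sub_sub_cancel]
  rw [Finset.sum_comm]
  exact Finset.sum_congr rfl fun l _ => h _

variable {s}

theorem FlatA_inner (hs : Orthonormal ℝ s) (u v : E m) :
    NF ι s u v = ⟪FlatA_T ι s u, FlatA_T ι s v⟫ := by
  rw [FlatA_T_apply, FlatA_T_apply, inner_sub_left, inner_sub_right, inner_sub_right,
    hs.inner_sum _ _ Finset.univ, sum_inner, inner_sum, ι.inner_map_map, NF]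
  simp only [real_inner_smul_left, real_inner_smul_right, real_inner_comm (s _) (ι u), FlatA_iota,
    conj_trivial, mul_comm]
  ring

theorem tlt_bd (hs : Orthonormal ℝ s) : 0 ≤ tlt ι s ∧ tlt ι s ≤ m := by
  refine ⟨Finset.sum_nonneg fun l _ => sq_nonneg _, ?_⟩
  have h : ∀ l, ‖vt ι (s l)‖ ^ 2 ≤ 1 := fun l =>
    pow_le_one₀ (norm_nonneg _) ((norm_pr_le ι (s l)).2.1.trans_eq (hs.1 l))
  refine (Finset.sum_le_sum fun l _ => h l).trans ?_
  simp

/-- `NF u u` is the square of the component of `ι u` normal to the frame -/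
theorem NF_self (hs : Orthonormal ℝ s) (u : E m) :
    NF ι s u u = ‖ι u - ∑ l, ⟪s l, ι u⟫ • s l‖ ^ 2 := by
  rw [FlatA_inner ι hs, real_inner_self_eq_norm_sq, FlatA_T_apply]

theorem NF_trace (hs : Orthonormal ℝ s) {I : Type} [Fintype I] (b : OrthonormalBasis I ℝ (E m)) :
    ∑ i, NF ι s (b i) (b i) = tlt ι s := by
  have hI : (Fintype.card I : ℝ) = m := by
    rw [← Module.finrank_eq_card_basis b.toBasis, finrank_euclideanSpace_fin]
  have h1 : ∀ l, ∑ i, ⟪pr ι (s l), b i⟫ * ⟪pr ι (s l), b i⟫ = 1 - ‖vt ι (s l)‖ ^ 2 := fun l => by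
    have h2 := b.sum_inner_mul_inner (pr ι (s l)) (pr ι (s l))
    have h3 := norm_sq_split ι (s l)
    rw [hs.1 l] at h3
    rw [real_inner_self_eq_norm_sq] at h2
    simp only [real_inner_comm (pr ι (s l))] at h2 ⊢
    linarith
  have h4 : ∀ i, ⟪b i, b i⟫ = (1 : ℝ) := fun i => by
    rw [real_inner_self_eq_norm_sq, b.orthonormal.1 i, one_pow]
  simp only [NF, Finset.sum_sub_distrib, h4]
  rw [Finset.sum_comm]
  simp only [h1, Finset.sum_sub_distrib, Finset.sum_const, Finset.card_univ, Fintype.card_fin,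
    nsmul_eq_mul, mul_one, hI, tlt]
  ring

theorem NF_trace_ev (hs : Orthonormal ℝ s) : ∑ i, NF ι s (ev i) (ev i) = tlt ι s := by
  simpa only [GCalc_ev] using NF_trace ι hs (EuclideanSpace.basisFun (Fin m) ℝ)

theorem NF_bd (hs : Orthonormal ℝ s) (u v : E m) : 0 ≤ NF ι s u u ∧
    NF ι s u u ≤ tlt ι s * ‖u‖ ^ 2 ∧ NF ι s u v ^ 2 ≤ NF ι s u u * NF ι s v v ∧
    |NF ι s u v| ≤ tlt ι s * ‖u‖ * ‖v‖ ∧ NF ι s (u + v) (u + v) ≤ 2 * NF ι s u u + 2 * NF ι s v v := by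
  have h0 : ∀ u, NF ι s u u = ‖FlatA_T ι s u‖ ^ 2 := fun u => by
    rw [FlatA_inner ι hs, real_inner_self_eq_norm_sq]
  have h1 : ∀ u, NF ι s u u ≤ tlt ι s * ‖u‖ ^ 2 := fun u => by
    rw [← NF_trace_ev ι hs]
    simp only [h0]
    exact FlatA_hs _ u
  have h2 : NF ι s u v ^ 2 ≤ NF ι s u u * NF ι s v v := by
    rw [h0, h0, FlatA_inner ι hs, ← mul_pow]
    exact sq_le_sq' (neg_le_of_abs_le (abs_real_inner_le_norm _ _)) (real_inner_le_norm _ _)
  have ht := (tlt_bd ι hs).1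
  refine ⟨by rw [h0]; positivity, h1 u, h2, abs_le_of_sq_le_sq (h2.trans ?_) (by positivity), ?_⟩
  · refine (mul_le_mul (h1 u) (h1 v) (by rw [h0]; positivity) (by positivity)).trans_eq ?_
    ring
  · rw [h0, h0, h0, map_add]
    have h3 := norm_add_le (FlatA_T ι s u) (FlatA_T ι s v)
    have h4 := pow_le_pow_left₀ (norm_nonneg _) h3 2
    nlinarith [sq_nonneg (‖FlatA_T ι s u‖ - ‖FlatA_T ι s v‖)]

/-- `Bᵀ B = N - N²` -/
theorem inner_BF (hs : Orthonormal ℝ s) (u v : E m) :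
    ⟪BF ι s u, BF ι s v⟫ = NF ι s u v - ∑ i, NF ι s u (ev i) * NF ι s (ev i) v := by
  have h1 := (inner_vt ι (FlatA_T ι s u) (FlatA_T ι s v)).2
  rw [← FlatA_inner ι hs, FlatA_vt, FlatA_vt, inner_neg_neg, FlatA_pr, FlatA_pr,
    ← sum_inner_ev (FlatA_L ι s u)] at h1
  have h2 : ∑ i, ⟪ev i, FlatA_L ι s u⟫ * ⟪ev i, FlatA_L ι s v⟫ =
      ∑ i, NF ι s u (ev i) * NF ι s (ev i) v :=
    Finset.sum_congr rfl fun i _ => by rw [NF_symm ι s u, FlatA_NF, FlatA_NF]
  rw [h2] at h1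
  linarith

theorem BF_bd (hs : Orthonormal ℝ s) (u : E m) : ‖BF ι s u‖ ^ 2 ≤ NF ι s u u ∧
    NF ι s u u ≤ ‖BF ι s u‖ ^ 2 + tlt ι s ^ 2 * ‖u‖ ^ 2 ∧ ‖BF ι s u‖ ≤ √(tlt ι s) * ‖u‖ ∧
    ∑ i, ‖BF ι s (ev i)‖ ^ 2 ≤ tlt ι s ∧ tlt ι s ≤ ∑ i, ‖BF ι s (ev i)‖ ^ 2 + tlt ι s ^ 2 := by
  have h0 : ∀ u, ‖BF ι s u‖ ^ 2 = NF ι s u u - ∑ i, NF ι s u (ev i) ^ 2 := fun u => by
    rw [← real_inner_self_eq_norm_sq, inner_BF ι hs]
    congr 1
    exact Finset.sum_congr rfl fun i _ => by rw [NF_symm ι s (ev i), sq]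
  have h1 : ∀ u, ‖BF ι s u‖ ^ 2 ≤ NF ι s u u := fun u => by
    rw [h0]
    exact sub_le_self _ (Finset.sum_nonneg fun i _ => sq_nonneg _)
  have h2 : ∀ u, NF ι s u u ≤ ‖BF ι s u‖ ^ 2 + NF ι s u u * tlt ι s := fun u => by
    have h3 : ∑ i, NF ι s u (ev i) ^ 2 ≤ NF ι s u u * tlt ι s := by
      rw [← NF_trace_ev ι hs, Finset.mul_sum]
      exact Finset.sum_le_sum fun i _ => (NF_bd ι hs u (ev i)).2.2.1
    rw [h0]
    linarith
  have ht := (tlt_bd ι hs).1
  have h4 := (NF_bd ι hs u u).2.1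
  refine ⟨h1 u, (h2 u).trans ?_, ?_, ?_, ?_⟩
  · have h5 := mul_le_mul_of_nonneg_right h4 ht
    nlinarith
  · refine (abs_le_of_sq_le_sq' ?_ (by positivity)).2
    rw [mul_pow, Real.sq_sqrt ht]
    exact (h1 u).trans h4
  · rw [← NF_trace_ev ι hs]
    exact Finset.sum_le_sum fun i _ => h1 _
  · have h5 := Finset.sum_le_sum fun i (_ : i ∈ Finset.univ) => h2 (ev i)
    rw [Finset.sum_add_distrib, ← Finset.sum_mul, NF_trace_ev ι hs] at h5
    rwa [sq (tlt ι s)]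

theorem abs_sum_NF_le (hs : Orthonormal ℝ s) (L : E m →L[ℝ] E m) :
    |∑ i, NF ι s (ev i) (L (ev i))| ≤ m * tlt ι s * ‖L‖ := by
  refine (Finset.abs_sum_le_sum_abs _ _).trans ?_
  have h : ∀ i : Fin m, |NF ι s (ev i) (L (ev i))| ≤ tlt ι s * ‖L‖ := fun i => by
    refine (NF_bd ι hs _ _).2.2.2.1.trans ?_
    rw [norm_ev, mul_one]
    refine mul_le_mul_of_nonneg_left ?_ (tlt_bd ι hs).1
    simpa only [norm_ev, mul_one] using L.le_opNorm (ev i)
  refine (Finset.sum_le_sum fun i _ => h i).trans ?_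
  simp [mul_assoc]

end

/-- `vol_sq` and `sqrt_det_expand` for the map `N` -/
theorem vol_pr (m : ℕ) : ∃ C : ℝ, 1 ≤ C ∧ ∀ {N : ℕ} (ι : E m →ₗᵢ[ℝ] E N) (s : Fin m → E N),
    Orthonormal ℝ s → |1 - tlt ι s / 2 - vol fun l => pr ι (s l)| ≤ C * tlt ι s ^ 2 := by
  obtain ⟨C, hC, h⟩ := sqrt_det_expand m
  refine ⟨C, hC, fun ι s hs => h (FlatA_L ι s) _ _ (abs_nonneg _) ?_ ?_ ?_ (tlt_bd ι hs).2⟩
  · rw [FlatA_L, sub_sub_cancel]
    exact vol_sq _
  · rw [← NF_trace_ev ι hs]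
    exact Finset.sum_congr rfl fun i _ => FlatA_NF ι s _ _
  · have ht := (tlt_bd ι hs).1
    refine ContinuousLinearMap.opNorm_le_bound _ (by positivity) fun u => ?_
    have h1 := (le_abs_self _).trans (NF_bd ι hs (FlatA_L ι s u) u).2.2.2.1
    rw [FlatA_NF, real_inner_self_eq_norm_sq] at h1
    rcases (norm_nonneg (FlatA_L ι s u)).eq_or_lt with h2 | h2
    · rw [← h2]
      positivity
    · refine le_of_mul_le_mul_right ?_ h2
      have h3 : 0 ≤ tlt ι s * ‖FlatA_L ι s u‖ * ‖u‖ := by positivity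
      nlinarith

end Pool.Agent.MP_f6c0e6_an.Gen

end

section

/-! Minimal graphs. -/

set_option autoImplicit false

open MeasureTheory Filter Topology Set Metric
open scoped ENNReal RealInnerProductSpace

namespace Pool.Agent.MP_f6c0e6_an.Gen

variable {m N : ℕ}

theorem Graph_inner (ι : E m →ₗᵢ[ℝ] E N) (a : E m) (y : E N) : ⟪ι a, y⟫ = ⟪a, pr ι y⟫ :=
  (ContinuousLinearMap.adjoint_inner_right ι.toContinuousLinearMap a y).symm

theorem Graph_vert (ι : E m →ₗᵢ[ℝ] E N) {W : E m → E N} (hv : ∀ ξ, pr ι (W ξ) = 0) (ξ a : E m) :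
    pr ι (fderiv ℝ W ξ a) = 0 := by
  by_cases h : DifferentiableAt ℝ W ξ
  · have h1 := (pr ι).hasFDerivAt.comp ξ h.hasFDerivAt
    rw [show pr ι ∘ W = fun _ => 0 from funext hv] at h1
    exact congrArg (fun T : E m →L[ℝ] E m => T a) (h1.unique (hasFDerivAt_const 0 ξ))
  · rw [fderiv_zero_of_not_differentiableAt h, zero_apply, map_zero]

/-- the trace over a frame that is orthonormal for the metric of the graph -/
theorem Graph_trace (ι : E m →ₗᵢ[ℝ] E N) {W : E m → E N} (hv : ∀ ξ, pr ι (W ξ) = 0) {ξ : E m}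
    (hmin : MinAt W ξ) {a : Fin m → E m}
    (ha : Orthonormal ℝ fun k => ι (a k) + fderiv ℝ W ξ (a k)) :
    ∑ k, fderiv ℝ (fderiv ℝ W) ξ (a k) (a k) = 0 := by
  have h1 : ∀ k l, ⟪a k, gW W ξ (a l)⟫ = if k = l then 1 else 0 := fun k l => by
    rw [← orthonormal_iff_ite.1 ha k l, ← gW_symm, inner_gW, inner_add_left, inner_add_right,
      inner_add_right, ι.inner_map_map, Graph_inner, real_inner_comm (ι (a l)), Graph_inner,
      Graph_vert ι hv, Graph_vert ι hv, inner_zero_right, inner_zero_right, add_zero, zero_add]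
  have h2 : LinearIndependent ℝ a :=
    LinearIndependent.of_comp (ι.toLinearMap + (fderiv ℝ W ξ : E m →ₗ[ℝ] E N)) ha.linearIndependent
  have h3 : (∑ k, ((innerSL ℝ (a k)) ∘L gW W ξ).smulRight (a k) : E m →L[ℝ] E m) = 1 := by
    refine ContinuousLinearMap.coe_injective (LinearMap.ext_on_range
      (h2.span_eq_top_of_card_eq_finrank' (by simp)) fun l => ?_)
    simp [h1]
  have h4 : ∀ u, giW W ξ u = ∑ k, ⟪u, a k⟫ • a k := fun u => by
    have h5 := congrArg (fun T : E m →L[ℝ] E m => T (giW W ξ u)) h3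
    simpa [(giW_gW W ξ u).2, real_inner_comm] using h5.symm
  rw [← hmin]
  simp only [h4, map_sum, map_smul]
  rw [Finset.sum_comm]
  refine Finset.sum_congr rfl fun k _ => ?_
  conv_lhs => rw [← congrArg (fun z => fderiv ℝ (fderiv ℝ W) ξ z (a k)) (sum_ev (a k))]
  simp only [map_sum, map_smul, sum_apply, smul_apply]

section

variable {U V X Y : Type} [NormedAddCommGroup U] [NormedSpace ℝ U] [NormedAddCommGroup V]
  [NormedSpace ℝ V] [NormedAddCommGroup X] [NormedSpace ℝ X] [NormedAddCommGroup Y]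
  [NormedSpace ℝ Y] (K : X →L[ℝ] Y) (B : U →L[ℝ] V) {W : V → X} {ρ : ℝ}

theorem Graph_first (hW : ContDiffOn ℝ (⊤ : ℕ∞) W (ball 0 ρ)) (x₀ : X) (p : V) {x : U}
    (hx : B x - p ∈ ball (0 : V) ρ) (v : U) :
    fderiv ℝ (fun y => K (x₀ + W (B y - p))) x v = K (fderiv ℝ W (B x - p) (B v)) := by
  have h1 := ((hW.contDiffAt (isOpen_ball.mem_nhds hx)).differentiableAt (by simp)).hasFDerivAt
  have h2 := K.hasFDerivAt.comp x
    ((h1.comp x ((B.hasFDerivAt (x := x)).sub_const p)).const_add x₀)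
  exact congrArg (fun T : U →L[ℝ] Y => T v) h2.fderiv

theorem Graph_second (hW : ContDiffOn ℝ (⊤ : ℕ∞) W (ball 0 ρ)) (x₀ : X) (p : V) {x : U}
    (hx : B x - p ∈ ball (0 : V) ρ) (v : U) :
    fderiv ℝ (fun z => fderiv ℝ (fun y => K (x₀ + W (B y - p))) z v) x v =
      K (fderiv ℝ (fderiv ℝ W) (B x - p) (B v) (B v)) := by
  have h0 : ContDiffAt ℝ 1 (fderiv ℝ W) (B x - p) :=
    (hW.contDiffAt (isOpen_ball.mem_nhds hx)).fderiv_right
      (WithTop.coe_le_coe.2 (le_top : (1 + 1 : ℕ∞) ≤ ⊤))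
  have h1 := (h0.differentiableAt (by simp)).hasFDerivAt.comp x
    ((B.hasFDerivAt (x := x)).sub_const p)
  have h2 := (K ∘L ContinuousLinearMap.apply ℝ X (B v)).hasFDerivAt.comp x h1
  have h3 : (fun z => fderiv ℝ (fun y => K (x₀ + W (B y - p))) z v) =ᶠ[𝓝 x]
      fun z => K (fderiv ℝ W (B z - p) (B v)) := by
    filter_upwards [(isOpen_ball.preimage (B.continuous.sub continuous_const)).mem_nhds hx]
      with z hz
    exact Graph_first K B hW x₀ p hz v
  rw [h3.fderiv_eq]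
  exact congrArg (fun T : U →L[ℝ] Y => T v) h2.fderiv

end

/-- Let `σ` be the range of `ι`, `e : E m ≃ₗᵢ[ℝ] σ`, `Ω = e '' ball (pr ι x₀) ρ` and
`u x = vt ι x₀ + W (e.symm x - pr ι x₀)`. If the vectors `ι v_k + D W v_k` are orthonormal, then
`⟪gW v_k, v_l⟫ = δ_kl`, so `∑ v_k ⊗ v_k = giW` and `∑ D² W (v_k, v_k) = 0` is `MinAt`. -/
theorem graph_minimal (ι : E m →ₗᵢ[ℝ] E N) {W : E m → E N} {ρ : ℝ}
    (hW : ContDiffOn ℝ (⊤ : ℕ∞) W (ball 0 ρ)) (hv : ∀ ξ, pr ι (W ξ) = 0)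
    (hmin : ∀ ξ ∈ ball (0 : E m) ρ, MinAt W ξ) (x₀ : E N) {O : Set (E N)} (hO : IsOpen O)
    (hx : x₀ ∈ O) :
    IsMinimalGraphNear m x₀ (O ∩ (fun ξ => x₀ + ι ξ + W ξ) '' ball 0 ρ) := by
  let σ : Submodule ℝ (E N) := LinearMap.range ι.toLinearMap
  let e : E m ≃ₗᵢ[ℝ] σ := ι.equivRange
  have he : ∀ a, (e a : E N) = ι a := fun _ => rfl
  let K : E N →L[ℝ] σᗮ := (1 - ι.toContinuousLinearMap ∘L pr ι).codRestrict σᗮ fun y => by
    rintro _ ⟨a, rfl⟩
    change ⟪ι a, y - ι (pr ι y)⟫ = 0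
    rw [inner_sub_right, ι.inner_map_map, Graph_inner, sub_self]
  have hK : ∀ y, (K y : E N) = y - ι (pr ι y) := fun _ => rfl
  let B : σ →L[ℝ] E m := e.symm.toContinuousLinearEquiv
  have hB : ∀ a, B (e a) = a := fun a => e.symm_apply_apply a
  have hA : ContDiff ℝ (⊤ : ℕ∞) fun x : σ => B x - pr ι x₀ := B.contDiff.sub contDiff_const
  have hΩ : IsOpen ((fun x : σ => B x - pr ι x₀) ⁻¹' ball 0 ρ) :=
    isOpen_ball.preimage hA.continuous
  refine ⟨σ, O, _, fun x => K (x₀ + W (B x - pr ι x₀)), ?_, hO, hx, hΩ,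
    K.contDiff.comp_contDiffOn (contDiffOn_const.add (hW.comp hA.contDiffOn fun _ h => h)),
    fun x hx v hv' n _ => ?_, ?_⟩
  · rw [← e.toLinearEquiv.finrank_eq, finrank_euclideanSpace_fin]
  · have h1 : ∀ k, graphVec (fun x => K (x₀ + W (B x - pr ι x₀))) x (v k) =
        ι (B (v k)) + fderiv ℝ W (B x - pr ι x₀) (B (v k)) := fun k => by
      obtain ⟨a, ha⟩ := e.surjective (v k)
      rw [graphVec, Graph_first K B hW x₀ _ hx, hK, Graph_vert ι hv, map_zero, sub_zero, ← ha, hB,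
        he]
    have h2 : ∀ k, graphHess (fun x => K (x₀ + W (B x - pr ι x₀))) x (v k) =
        σᗮ.subtypeL (K (fderiv ℝ (fderiv ℝ W) (B x - pr ι x₀) (B (v k)) (B (v k)))) := fun k => by
      rw [graphHess, Graph_second K B hW x₀ _ hx]
      rfl
    simp only [h1] at hv'
    simp only [h2]
    rw [← map_sum, ← map_sum, Graph_trace ι hv (hmin _ hx) hv', map_zero, map_zero,
      inner_zero_right]
  · congr 1
    ext y
    constructor
    · rintro ⟨ξ, hξ, rfl⟩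
      refine ⟨e (ξ + pr ι x₀), by simpa [hB] using hξ, ?_⟩
      simp only [hB, he, hK]
      simp only [add_sub_cancel_right, map_add, hv, add_zero]
      abel
    · rintro ⟨x, hx, rfl⟩
      obtain ⟨a, rfl⟩ := e.surjective x
      refine ⟨_, hx, ?_⟩
      simp only [hB, he, hK]
      simp only [map_sub, map_add, hv, add_zero]
      abel

end Pool.Agent.MP_f6c0e6_an.Gen

end

section

/-! One flat piece. -/

set_option autoImplicit false

open MeasureTheory Filter Topology Set Metric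
open scoped ENNReal RealInnerProductSpace

namespace Pool.Agent.MP_f6c0e6_an.Gen

variable {m N : ℕ}

theorem RectD_lip (m : ℕ) {X Y : Type} [MetricSpace X] [MeasurableSpace X] [BorelSpace X]
    [MetricSpace Y] [MeasurableSpace Y] [BorelSpace Y] {f : X → Y} {s : Set X} {K : ℝ}
    (hK : 0 ≤ K) (h : ∀ x ∈ s, ∀ y ∈ s, dist (f x) (f y) ≤ K * dist x y) :
    Measure.euclideanHausdorffMeasure m (f '' s) ≤
      ENNReal.ofReal (K ^ m) * Measure.euclideanHausdorffMeasure m s := by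
  have h1 : LipschitzOnWith K.toNNReal f s :=
    LipschitzOnWith.of_dist_le_mul fun x hx y hy => by
      rw [Real.coe_toNNReal _ hK]
      exact h x hx y hy
  have h2 := h1.hausdorffMeasure_image_le (d := (m : ℝ)) (Nat.cast_nonneg m)
  have h3 : ((K.toNNReal : NNReal) : ℝ≥0∞) ^ (m : ℝ) = ENNReal.ofReal (K ^ m) := by
    rw [ENNReal.rpow_natCast, ENNReal.ofReal_pow hK]
    rfl
  rw [h3] at h2
  simp only [Measure.euclideanHausdorffMeasure_def, Measure.smul_apply, ENNReal.smul_def,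
    smul_eq_mul]
  rw [mul_left_comm]
  exact mul_le_mul_right h2 _

theorem RectD_vol (s : Set (E m)) : Measure.euclideanHausdorffMeasure m s = volume s := by
  have h := InnerProductSpace.euclideanHausdorffMeasure_eq_volume (V := E m)
  rw [finrank_euclideanSpace_fin] at h
  rw [h]

/-- the linear map that sends the standard basis to `v` -/
noncomputable def RectD_map (v : Fin m → E m) : E m →ₗ[ℝ] E m :=
  Matrix.toLpLin 2 2 (Matrix.of fun i j => v j i)

theorem RectD_map_apply (v : Fin m → E m) (x : E m) : RectD_map v x = ∑ j, x j • v j := by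
  ext i
  simp [RectD_map, Matrix.toLpLin_apply, Matrix.mulVec, dotProduct, mul_comm]

theorem RectD_lin (v : Fin m → E m) (s : Set (E m)) :
    volume (RectD_map v '' s) = ENNReal.ofReal (vol v) * volume s := by
  rw [Measure.addHaar_image_linearMap volume (RectD_map v) s, RectD_map, LinearMap.det_toLpLin]
  rfl

theorem RectD_norm_le (x : E m) {c : ℝ} (h : ∀ i, |x i| ≤ c) : ‖x‖ ≤ m * c := by
  have h1 : x = ∑ i, x i • EuclideanSpace.single i (1 : ℝ) := by
    ext j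
    simp [Pi.single_apply]
  calc ‖x‖ = ‖∑ i, x i • EuclideanSpace.single i (1 : ℝ)‖ := by rw [← h1]
    _ ≤ ∑ i : Fin m, c := by
      refine norm_sum_le_of_le _ fun i _ => ?_
      rw [norm_smul, PiLp.norm_single, norm_one, mul_one]
      exact h i
    _ = m * c := by simp

/-- the inverse of the linear map that sends the standard basis to `v` -/
theorem RectD_inv {v : Fin m → E m} {Λ j : ℝ} (hΛ : 1 ≤ Λ) (hj : 0 < j) (hv : ∀ i, ‖v i‖ ≤ Λ)
    (hD : j ≤ vol v) : ∃ M : E m →ₗ[ℝ] E m, (∀ w, RectD_map v (M w) = w) ∧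
      (∀ w, M (RectD_map v w) = w) ∧
      ∀ w, ‖M w‖ ≤ m * (m * (m.factorial * Λ ^ m) / j) * ‖w‖ := by
  set A : Matrix (Fin m) (Fin m) ℝ := Matrix.of fun i j => v j i with hA
  have hD1 : j ≤ |A.det| := hD
  have hD0 : A.det ≠ 0 := fun h => by
    rw [h, abs_zero] at hD1
    linarith
  have hadj : ∀ i k, |A.adjugate i k| ≤ m.factorial * Λ ^ m := by
    intro i k
    rw [Matrix.adjugate_apply]
    have h := Matrix.det_le (A := A.updateRow k (Pi.single i 1)) (abv := AbsoluteValue.abs)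
      (x := Λ) (fun a b => by
        rw [AbsoluteValue.abs_apply, Matrix.updateRow_apply]
        split_ifs with hab
        · rw [Pi.single_apply]
          split_ifs
          · simpa using hΛ
          · simp only [abs_zero]
            linarith
        · exact (PiLp.norm_apply_le (v b) a).trans (hv b))
    simpa using h
  refine ⟨Matrix.toLpLin 2 2 ((A.det)⁻¹ • A.adjugate), fun w => ?_, fun w => ?_, fun w => ?_⟩
  · rw [RectD_map, ← hA, ← LinearMap.comp_apply, ← Matrix.toLpLin_mul_same, Matrix.mul_smul,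
      Matrix.mul_adjugate, smul_smul, inv_mul_cancel₀ hD0, one_smul, Matrix.toLpLin_one]
    rfl
  · rw [RectD_map, ← hA, ← LinearMap.comp_apply, ← Matrix.toLpLin_mul_same, Matrix.smul_mul,
      Matrix.adjugate_mul, smul_smul, inv_mul_cancel₀ hD0, one_smul, Matrix.toLpLin_one]
    rfl
  · rw [mul_assoc]
    refine RectD_norm_le _ fun i => ?_
    have h1 : (Matrix.toLpLin 2 2 ((A.det)⁻¹ • A.adjugate) w) i =
        (∑ k, A.adjugate i k * w k) / A.det := by
      simp [Matrix.toLpLin_apply, Matrix.mulVec, dotProduct, div_eq_inv_mul, Finset.mul_sum]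
    have hB : 0 ≤ (m.factorial : ℝ) * Λ ^ m := by positivity
    have h2 : |∑ k, A.adjugate i k * w k| ≤ m * (m.factorial * Λ ^ m) * ‖w‖ := by
      refine (Finset.abs_sum_le_sum_abs _ _).trans ?_
      calc ∑ k, |A.adjugate i k * w k| ≤ ∑ k : Fin m, m.factorial * Λ ^ m * ‖w‖ := by
            refine Finset.sum_le_sum fun k _ => ?_
            rw [abs_mul]
            exact mul_le_mul (hadj i k) (PiLp.norm_apply_le w k) (abs_nonneg _) hB
        _ = _ := by
            rw [Finset.sum_const, Finset.card_univ, Fintype.card_fin, nsmul_eq_mul]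
            ring
    rw [h1, abs_div]
    calc _ ≤ m * (m.factorial * Λ ^ m) * ‖w‖ / j := div_le_div₀ (by positivity) h2 hj hD1
      _ = _ := by ring

theorem RectD_norm {t : Fin m → E N} (ht : Orthonormal ℝ t) (x : E m) :
    ‖∑ i, x i • t i‖ = ‖x‖ := by
  have h3 : ‖∑ i, x i • t i‖ ^ 2 = ‖x‖ ^ 2 := by
    rw [← real_inner_self_eq_norm_sq, ht.inner_sum, EuclideanSpace.real_norm_sq_eq]
    simp [sq]
  exact (pow_left_inj₀ (norm_nonneg _) (norm_nonneg _) two_ne_zero).1 h3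

theorem RectD_delta (m : ℕ) {ε : ℝ} (hε : 0 < ε) :
    ∃ δ : ℝ, 0 < δ ∧ δ ≤ 1 / 2 ∧ (1 + 2 * δ) ^ m ≤ 1 + ε := by
  have h1 : Continuous fun δ : ℝ => (1 + 2 * δ) ^ m := by fun_prop
  have h2 : ∀ᶠ δ in 𝓝 (0 : ℝ), (1 + 2 * δ) ^ m < 1 + ε :=
    h1.continuousAt.eventually_lt continuousAt_const (by simpa using hε)
  have h3 : ∀ᶠ δ in 𝓝 (0 : ℝ), δ < 1 / 2 := eventually_lt_nhds (by norm_num)
  obtain ⟨δ, h4, h5⟩ := (((h2.and h3).filter_mono nhdsWithin_le_nhds).and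
    (self_mem_nhdsWithin (s := Ioi (0 : ℝ)))).exists
  exact ⟨δ, h5, h4.2.le, h4.1.le⟩

/-- One almost flat piece and one almost linear map. Let `L₀ : E m ≃L[ℝ] E m` send `ev i` to
`L (t i)`, with determinant of modulus `J`; its inverse has norm at most `C Λ ^ m / J` (or use
compactness of the set of such maps). The map `L₀⁻¹ ∘ g` changes the distances on `Γ` by a factor
between `1 - C η` and `1 + C η`; use `LipschitzOnWith.hausdorffMeasure_image_le` in both
directions, `InnerProductSpace.euclideanHausdorffMeasure_eq_volume` and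
`Measure.addHaar_image_linearMap`. -/
theorem flat_piece (m : ℕ) (Λ j₀ : ℝ) (hΛ : 1 ≤ Λ) (hj : 0 < j₀) (ε : ℝ) (hε : 0 < ε) :
    ∃ η : ℝ, 0 < η ∧ ∀ {N : ℕ} (Γ : Set (E N)) (t : Fin m → E N) (L : E N →L[ℝ] E m)
    (g : E N → E m), Orthonormal ℝ t → ‖L‖ ≤ Λ → j₀ ≤ vol (fun i => L (t i)) →
    (∀ y ∈ Γ, ∀ y' ∈ Γ, ‖(y - y') - ∑ i, ⟪t i, y - y'⟫ • t i‖ ≤ η * ‖y - y'‖ ∧
      ‖g y - g y' - L (y - y')‖ ≤ η * ‖y - y'‖) →
    InjOn g Γ ∧
      volume (g '' Γ) ≤ ENNReal.ofReal ((1 + ε) * vol fun i => L (t i)) *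
        Measure.euclideanHausdorffMeasure m Γ ∧
      ENNReal.ofReal (vol fun i => L (t i)) * Measure.euclideanHausdorffMeasure m Γ ≤
        ENNReal.ofReal (1 + ε) * volume (g '' Γ) := by
  obtain ⟨δ, hδ0, hδ2, hδ1⟩ := RectD_delta m hε
  set K : ℝ := m * (m * (m.factorial * Λ ^ m) / j₀) with hKd
  have hK0 : 0 ≤ K := by positivity
  set C : ℝ := 1 + K * (1 + Λ) with hC
  have hC0 : 0 < C := by positivity
  refine ⟨δ / C, by positivity, ?_⟩
  intro N Γ t L g ht hL hJ h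
  have hn : ∀ i, ‖L (t i)‖ ≤ Λ := fun i => by
    have h1 := L.le_opNorm (t i)
    rw [ht.1 i, mul_one] at h1
    exact h1.trans hL
  obtain ⟨M, hM1, hM2, hM3⟩ := RectD_inv hΛ hj hn hJ
  have key : ∀ y ∈ Γ, ∀ y' ∈ Γ, |‖M (g y) - M (g y')‖ - ‖y - y'‖| ≤ δ * ‖y - y'‖ := by
    intro y hy y' hy'
    obtain ⟨h1, h2⟩ := h y hy y' hy'
    set v := y - y' with hv
    set x : E m := WithLp.toLp 2 fun i => ⟪t i, v⟫ with hx
    have hx1 : ∑ i, ⟪t i, v⟫ • t i = ∑ i, x i • t i := rfl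
    rw [hx1] at h1
    set e2 := v - ∑ i, x i • t i with he2
    set e1 := g y - g y' - L v with he1
    have h3 : g y - g y' = RectD_map (fun i => L (t i)) x + (e1 + L e2) := by
      rw [he1, he2, map_sub L v, map_sum, RectD_map_apply]
      simp only [map_smul]
      abel
    have h4 : ‖e1 + L e2‖ ≤ (1 + Λ) * (δ / C * ‖v‖) := by
      have h5 : ‖L e2‖ ≤ Λ * (δ / C * ‖v‖) :=
        (L.le_opNorm e2).trans (mul_le_mul hL h1 (norm_nonneg _) (by linarith))
      have h6 := norm_add_le e1 (L e2)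
      linarith
    have h7 : ‖M (e1 + L e2)‖ ≤ K * ((1 + Λ) * (δ / C * ‖v‖)) :=
      (hM3 _).trans (mul_le_mul_of_nonneg_left h4 hK0)
    have h8 : |‖x + M (e1 + L e2)‖ - ‖x‖| ≤ ‖M (e1 + L e2)‖ := by
      have h11 := abs_norm_sub_norm_le (x + M (e1 + L e2)) x
      rwa [add_sub_cancel_left] at h11
    have h9 : |‖v‖ - ‖x‖| ≤ δ / C * ‖v‖ := by
      rw [← RectD_norm ht x]
      exact (abs_norm_sub_norm_le _ _).trans h1
    have h10 : δ * ‖v‖ = δ / C * ‖v‖ + K * ((1 + Λ) * (δ / C * ‖v‖)) := by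
      have : δ * ‖v‖ = C * (δ / C * ‖v‖) := by field_simp
      rw [this]
      generalize δ / C * ‖v‖ = s
      rw [hC]
      ring
    rw [← map_sub, h3, map_add, hM2, h10, abs_le]
    rw [abs_le] at h8 h9
    constructor <;> linarith [h8.1, h8.2, h9.1, h9.2]
  have up : ∀ y ∈ Γ, ∀ y' ∈ Γ, dist (M (g y)) (M (g y')) ≤ (1 + 2 * δ) * dist y y' := by
    intro y hy y' hy'
    have h1 := (abs_le.1 (key y hy y' hy')).2
    rw [dist_eq_norm, dist_eq_norm]
    nlinarith [norm_nonneg (y - y')]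
  have low : ∀ y ∈ Γ, ∀ y' ∈ Γ, dist y y' ≤ (1 + 2 * δ) * dist (M (g y)) (M (g y')) := by
    intro y hy y' hy'
    have h1 := (abs_le.1 (key y hy y' hy')).1
    rw [dist_eq_norm, dist_eq_norm]
    have h2 : (1 - δ) * ‖y - y'‖ ≤ ‖M (g y) - M (g y')‖ := by linarith
    have h3 : 0 ≤ δ * (1 - 2 * δ) * ‖y - y'‖ :=
      mul_nonneg (mul_nonneg hδ0.le (by linarith)) (norm_nonneg _)
    have h4 := mul_le_mul_of_nonneg_left h2 (show 0 ≤ 1 + 2 * δ by linarith)
    nlinarith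
  have hinj : InjOn (fun y => M (g y)) Γ := by
    intro y hy y' hy' he
    have h1 := low y hy y' hy'
    simp only at he
    rw [he, dist_self, mul_zero] at h1
    exact dist_le_zero.1 h1
  have hK : ENNReal.ofReal ((1 + 2 * δ) ^ m) ≤ ENNReal.ofReal (1 + ε) :=
    ENNReal.ofReal_le_ofReal hδ1
  have him : g '' Γ = RectD_map (fun i => L (t i)) '' ((fun y => M (g y)) '' Γ) := by
    rw [image_image]
    simp only [hM1]
  have h1 := RectD_lip m (K := 1 + 2 * δ) (by linarith) up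
  have h2 := RectD_lip m (K := 1 + 2 * δ) (f := Function.invFunOn (fun y => M (g y)) Γ)
    (s := (fun y => M (g y)) '' Γ) (by linarith) (by
      rintro _ ⟨y, hy, rfl⟩ _ ⟨y', hy', rfl⟩
      rw [hinj.leftInvOn_invFunOn hy, hinj.leftInvOn_invFunOn hy']
      exact low y hy y' hy')
  rw [hinj.invFunOn_image Subset.rfl, RectD_vol] at h2
  rw [RectD_vol] at h1
  have hv0 : 0 ≤ vol fun i => L (t i) := abs_nonneg _
  refine ⟨fun y hy y' hy' he => hinj hy hy' (by simp only [he]), ?_, ?_⟩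
  · rw [him, RectD_lin, mul_comm (1 + ε), ENNReal.ofReal_mul hv0, mul_assoc]
    exact mul_le_mul_right (h1.trans (mul_le_mul_left hK _)) _
  · rw [him, RectD_lin, mul_left_comm]
    exact mul_le_mul_right (h2.trans (mul_le_mul_left hK _)) _

end Pool.Agent.MP_f6c0e6_an.Gen

end
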