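import Pool.Agent.MP_f6c0e6_an.All.Stat
import Pool.Agent.MP_f6c0e6_an.All.Calc

section

/-! Frames. -/

set_option autoImplicit false

open MeasureTheory Filter Topology Set Metric
open scoped ENNReal RealInnerProductSpace

namespace Pool.Agent.MP_f6c0e6_an.Gen

variable {m N : ℕ}

theorem RectA_select {ι : Type} (T : Finset ι) {v : ι → E N → E N} (hv : ∀ j, Measurable (v j)) :
    ∃ u : E N → E N, Measurable u ∧ ∀ x, (∃ j ∈ T, v j x ≠ 0) →
      ∃ j, v j x ≠ 0 ∧ u x = ‖v j x‖⁻¹ • v j x := by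
  classical
  induction T using Finset.induction_on with
  | empty => exact ⟨fun _ => 0, measurable_const, fun x hx => by simp at hx⟩
  | insert i T _ ih =>
    obtain ⟨u, hu, h⟩ := ih
    refine ⟨fun x => if v i x = 0 then u x else ‖v i x‖⁻¹ • v i x,
      Measurable.ite (hv i (measurableSet_singleton 0)) hu ((hv i).norm.inv.smul (hv i)), ?_⟩
    rintro x ⟨j, hj, hjx⟩
    by_cases h0 : v i x = 0
    · simp only [if_pos h0]
      refine h x ⟨j, ?_, hjx⟩
      rcases Finset.mem_insert.1 hj with rfl | hj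
      · exact absurd h0 hjx
      · exact hj
    · exact ⟨i, h0, if_neg h0⟩

theorem RectA_big {k : ℕ} {P : Submodule ℝ (E N)} (hP : k < Module.finrank ℝ P)
    (a : Fin k → E N) :
    ∃ j, P.starProjection (EuclideanSpace.single j 1) ∉ Submodule.span ℝ (range a) := by
  classical
  by_contra hc
  push Not at hc
  have h1 : P ≤ Submodule.span ℝ (range a) := fun v hv => by
    rw [← Submodule.starProjection_eq_self_iff.2 hv, ← (EuclideanSpace.basisFun (Fin N) ℝ).sum_repr v,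
      map_sum]
    refine Submodule.sum_mem _ fun j _ => ?_
    rw [map_smul, EuclideanSpace.basisFun_apply]
    exact Submodule.smul_mem _ _ (hc j)
  have h2 := Submodule.finrank_mono h1
  have h3 : Module.finrank ℝ (Submodule.span ℝ (range a)) ≤ Fintype.card (Fin k) :=
    finrank_range_le_card a
  rw [Fintype.card_fin] at h3
  omega

theorem RectA_step {S : E N → Submodule ℝ (E N)}
    (hS : ∀ v, Measurable fun x => (S x).starProjection v) (k : ℕ) (hk : k ≤ m) :
    ∃ s : Fin k → E N → E N, (∀ i, Measurable (s i)) ∧ ∀ x, Module.finrank ℝ (S x) = m →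
      (Orthonormal ℝ fun i => s i x) ∧ ∀ i, s i x ∈ S x := by
  classical
  induction k with
  | zero =>
    exact ⟨fun i => i.elim0, fun i => i.elim0, fun x _ =>
      ⟨⟨fun i => i.elim0, fun i => i.elim0⟩, fun i => i.elim0⟩⟩
  | succ k ih =>
    obtain ⟨s, hs, hs'⟩ := ih (by omega)
    obtain ⟨b, hb, hb'⟩ := RectA_select Finset.univ
      (v := fun (j : Fin N) x => (S x).starProjection (EuclideanSpace.single j 1) -
        ∑ i, ⟪s i x, (S x).starProjection (EuclideanSpace.single j 1)⟫ • s i x)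
      fun j => (hS _).sub (Finset.measurable_sum _ fun i _ =>
        ((hs i).inner (𝕜 := ℝ) (hS (EuclideanSpace.single j 1))).smul (hs i))
    refine ⟨Fin.cons b s, fun i => Fin.cases hb hs i, fun x hx => ?_⟩
    obtain ⟨ho, hmem⟩ := hs' x hx
    obtain ⟨j, hj, hbj⟩ := hb' x (by
      obtain ⟨j, hj⟩ := RectA_big (k := k) (P := S x) (by omega) fun i => s i x
      refine ⟨j, Finset.mem_univ _, fun h => hj ?_⟩
      rw [sub_eq_zero.1 h]
      exact Submodule.sum_mem _ fun i _ =>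
        Submodule.smul_mem _ _ (Submodule.subset_span (mem_range_self i)))
    have b1 : ‖b x‖ = 1 := by rw [hbj]; exact norm_smul_inv_norm hj
    have ab : ∀ i, ⟪s i x, b x⟫ = 0 := fun i => by
      rw [hbj, inner_smul_right, inner_sub_right, ho.inner_right_fintype]
      simp
    have bS : b x ∈ S x := by
      rw [hbj]
      exact Submodule.smul_mem _ _ (Submodule.sub_mem _ (Submodule.starProjection_apply_mem _ _)
        (Submodule.sum_mem _ fun i _ => Submodule.smul_mem _ _ (hmem i)))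
    refine ⟨⟨fun i => ?_, fun i i' hii => ?_⟩, fun i => ?_⟩
    · exact Fin.cases b1 (fun i => ho.1 i) i
    · revert hii
      refine Fin.cases ?_ (fun i => ?_) i <;> refine Fin.cases ?_ (fun i' => ?_) i'
      · exact fun h => absurd rfl h
      · exact fun _ => (real_inner_comm _ _).trans (ab _)
      · exact fun _ => ab _
      · exact fun h => ho.2 fun h' => h (congrArg Fin.succ h')
    · exact Fin.cases bS (fun i => hmem i) i

/-- Gram-Schmidt on the projections of the standard basis, the index being the first one with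
non-zero (residual) projection; a fixed frame where the dimension is not `m`. -/
theorem exists_frame (hN : m ≤ N) {S : E N → Submodule ℝ (E N)}
    (hS : ∀ v, Measurable fun x => (S x).starProjection v) :
    ∃ fr : Fr m N, ∀ x, Module.finrank ℝ (S x) = m →
      Submodule.span ℝ (range fun i => fr.s i x) = S x := by
  classical
  obtain ⟨s, hs, hs'⟩ := RectA_step (m := m) hS m le_rfl
  set G : E N → Prop := fun x => Orthonormal ℝ fun i => s i x with hG
  have hGm : MeasurableSet {x | G x} := by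
    have : {x | G x} = ⋂ i, ⋂ j, {x | ⟪s i x, s j x⟫ = if i = j then (1 : ℝ) else 0} := by
      ext x
      simp only [hG, mem_ofPred_eq, mem_iInter, orthonormal_iff_ite]
    rw [this]
    exact MeasurableSet.iInter fun i => MeasurableSet.iInter fun j =>
      ((hs i).inner (hs j)) (measurableSet_singleton _)
  set e : Fin m → E N := fun i => EuclideanSpace.single (Fin.castLE hN i) 1 with he
  have heo : Orthonormal ℝ e :=
    (EuclideanSpace.orthonormal_single (𝕜 := ℝ)).comp _ (Fin.castLE_injective hN)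
  refine ⟨⟨fun i x => if G x then s i x else e i, fun i => ?_, fun x => ?_⟩,
    fun x hx => ?_⟩
  · exact Measurable.ite hGm (hs i) measurable_const
  · by_cases hx : G x
    · simp only [if_pos hx]
      exact hx
    · simp only [if_neg hx]
      exact heo
  · obtain ⟨ho, hmem⟩ := hs' x hx
    have hGx : G x := ho
    simp only [if_pos hGx]
    refine Submodule.eq_of_le_of_finrank_eq (Submodule.span_le.2 ?_) ?_
    · rintro _ ⟨i, rfl⟩
      exact hmem i
    · rw [hx]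
      exact (finrank_span_eq_card ho.linearIndependent).trans (Fintype.card_fin m)

theorem tanDiv_eq {S : E N → Submodule ℝ (E N)} (fr : Fr m N) (X : E N → E N) {x : E N}
    (h : Submodule.span ℝ (range fun i => fr.s i x) = S x) : tanDiv S X x = fr.div X x := by
  have hP : ∀ v, (S x).starProjection v = ∑ i, ⟪fr.s i x, v⟫ • fr.s i x := fun v => by
    refine Submodule.eq_starProjection_of_mem_of_inner_eq_zero ?_ fun w hw => ?_
    · rw [← h]
      exact Submodule.sum_mem _ fun i _ =>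
        Submodule.smul_mem _ _ (Submodule.subset_span (mem_range_self i))
    · rw [← h] at hw
      induction hw using Submodule.span_induction with
      | mem w hw =>
        obtain ⟨i, rfl⟩ := hw
        rw [inner_sub_left, (fr.orth x).inner_left_fintype, real_inner_comm]
        simp
      | zero => exact inner_zero_right _
      | add u w _ _ hu hw => rw [inner_add_right, hu, hw, add_zero]
      | smul t u _ hu => rw [inner_smul_right, hu, mul_zero]
  have hL : ((S x).starProjection.comp (fderiv ℝ X x)).toLinearMap =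
      ∑ i, (((innerSL ℝ (fr.s i x)).comp (fderiv ℝ X x)).toLinearMap).smulRight (fr.s i x) := by
    refine LinearMap.ext fun v => ?_
    rw [LinearMap.sum_apply]
    exact hP _
  rw [tanDiv, hL, map_sum, Fr.div]
  exact Finset.sum_congr rfl fun i _ => LinearMap.trace_smulRight _ _

/-- multiply by a smooth cut-off function -/
theorem stat_of_isStationary {U : Set (E N)} (hU : IsOpen U) {μ : Measure (E N)}
    {S : E N → Submodule ℝ (E N)} (h : IsStationary U μ S) (fr : Fr m N)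
    (hfr : ∀ᵐ x ∂μ, Submodule.span ℝ (range fun i => fr.s i x) = S x) : Stat fr μ U := by
  intro X K hK hKU hX h0
  have hW : IsOpen ({y | ContDiffAt ℝ 1 X y} ∩ U) :=
    (isOpen_iff_mem_nhds.2 fun y hy => ContDiffAt.eventually hy (by simp)).inter hU
  obtain ⟨L, hL, hKL, hLW⟩ := exists_compact_between hK hW fun y hy => ⟨hX y hy, hKU hy⟩
  obtain ⟨f, hf1, hf0, -⟩ := exists_contMDiffMap_one_nhds_of_subset_interior
    (n := 1) (modelWithCornersSelf ℝ (E N)) hK.isClosed hKL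
  have hf : ContDiff ℝ 1 f := f.contMDiff.contDiff
  have hsupp : tsupport (fun y => f y • X y) ⊆ L :=
    closure_minimal (fun y hy => by
      by_contra hyL
      exact hy (by simp [hf0 y hyL])) hL.isClosed
  have hY : ContDiff ℝ 1 fun y => f y • X y := contDiff_iff_contDiffAt.2 fun y => by
    by_cases hy : y ∈ L
    · exact hf.contDiffAt.smul (hLW hy).1
    · exact contDiffAt_const.congr_of_eventuallyEq
        (notMem_tsupport_iff_eventuallyEq.1 fun hh => hy (hsupp hh))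
  rw [← h _ hY (hL.of_isClosed_subset (isClosed_tsupport _) hsupp)
    (hsupp.trans fun y hy => (hLW hy).2)]
  refine integral_congr_ae ?_
  filter_upwards [hfr, h0] with y hy1 hy2
  have he : (fun y => f y • X y) =ᶠ[𝓝 y] X := by
    by_cases hy : y ∈ K
    · filter_upwards [hf1.filter_mono (nhds_le_nhdsSet hy)] with z hz
      rw [hz, one_smul]
    · filter_upwards [hy2 hy] with z hz
      rw [hz, Pi.zero_apply, smul_zero]
  rw [tanDiv_eq fr _ hy1, Fr.div, Fr.div, he.fderiv_eq]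

end Pool.Agent.MP_f6c0e6_an.Gen

end

section

/-! Planes and densities. -/

set_option autoImplicit false

open MeasureTheory Filter Topology Set Metric
open scoped ENNReal RealInnerProductSpace

namespace Pool.Agent.MP_f6c0e6_an.Gen

variable {m N : ℕ}

/-- a plane is the image of an isometry -/
theorem exists_iso (P : Submodule ℝ (E N)) (hP : Module.finrank ℝ P = m) :
    ∃ ι : E m →ₗᵢ[ℝ] E N, (P : Set (E N)) = range ι := by
  let b : OrthonormalBasis (Fin m) ℝ P := (stdOrthonormalBasis ℝ P).reindex (finCongr hP)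
  refine ⟨P.subtypeₗᵢ.comp b.repr.symm.toLinearIsometry, Set.ext fun y => ⟨fun hy => ?_, ?_⟩⟩
  · exact ⟨b.repr ⟨y, hy⟩, by simp⟩
  · rintro ⟨v, rfl⟩
    exact (b.repr.symm v).2

theorem integral_plane (ι : E m →ₗᵢ[ℝ] E N) (f : E N → ℝ) :
    ∫ y in range ι, f y ∂(Measure.euclideanHausdorffMeasure m) = ∫ ξ : E m, f (ι ξ) := by
  have hi := ι.isometry
  rw [← hi.map_euclideanHausdorffMeasure, hi.isClosedEmbedding.integral_map]
  have hv := InnerProductSpace.euclideanHausdorffMeasure_eq_volume (V := E m)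
  rw [finrank_euclideanSpace_fin] at hv
  rw [hv]

/-- radial test functions -/
theorem RectB_radial {μ : Measure (E N)} {x : E N} {P : Submodule ℝ (E N)} {κ : ℝ}
    (h : HasTangentPlane m μ x P κ) {g : ℝ → ℝ} (hg : Continuous g) {t : ℝ}
    (ht : ∀ s, t ≤ s → g s = 0) :
    Tendsto (fun r : ℝ => (r ^ m)⁻¹ * ∫ y, g (‖y - x‖ / r) ∂μ) (𝓝[>] 0)
      (𝓝 (κ * ∫ ξ : E m, g ‖ξ‖)) := by
  obtain ⟨ι, hP⟩ := exists_iso P h.1
  have h1 := h.2 (fun y => g ‖y‖) (hg.comp continuous_norm)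
    (HasCompactSupport.intro (isCompact_closedBall 0 t) fun y hy => ht _ (by
      rw [mem_closedBall_zero_iff, not_le] at hy; exact hy.le))
  rw [hP, integral_plane] at h1
  simp only [ι.norm_map] at h1
  refine h1.congr' ?_
  filter_upwards [self_mem_nhdsWithin] with r hr
  have hr' : (0 : ℝ) < r := hr
  simp only [norm_smul, norm_inv, Real.norm_eq_abs, abs_of_pos hr', div_eq_inv_mul]

theorem mk_tendsto {μ : Measure (E N)} {x : E N} {P : Submodule ℝ (E N)} {κ : ℝ}
    (h : HasTangentPlane m μ x P κ) : Tendsto (mk m μ x) (𝓝[>] 0) (𝓝 (κ * cg m)) := by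
  have h1 := RectB_radial h (g := fun s => gam (s ^ 2))
    (contDiff_gam.continuous.comp (continuous_pow 2)) (t := 1)
    fun s hs => gam_eq_zero (by nlinarith)
  simp only [div_pow] at h1
  exact h1

theorem LD_of_tangent {μ : Measure (E N)} {x : E N} {P : Submodule ℝ (E N)} {κ κ' : ℝ}
    (h : HasTangentPlane m μ x P κ) (hκ : κ' ≤ κ) : LD m μ x (κ' * cg m) := by
  intro ε hε
  have h1 : κ' * cg m - ε < κ * cg m := by
    have := mul_le_mul_of_nonneg_right hκ (cg_pos m).le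
    linarith
  exact (((mk_tendsto h).eventually (lt_mem_nhds h1)).mono fun _ k => k.le).frequently

/-- a continuous function between two indicators -/
noncomputable def RectB_cut (s t a : ℝ) : ℝ := max 0 (min 1 ((t - a) / (t - s)))

theorem RectB_cut_cont (s t : ℝ) : Continuous (RectB_cut s t) := by
  unfold RectB_cut; fun_prop

theorem RectB_cut_nonneg (s t a : ℝ) : 0 ≤ RectB_cut s t a := le_max_left _ _

theorem RectB_cut_le (s t a : ℝ) : RectB_cut s t a ≤ 1 := max_le zero_le_one (min_le_left _ _)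

theorem RectB_cut_zero {s t a : ℝ} (hst : s < t) (h : t ≤ a) : RectB_cut s t a = 0 :=
  max_eq_left ((min_le_right _ _).trans
    (div_nonpos_of_nonpos_of_nonneg (by linarith) (by linarith)))

theorem RectB_cut_one {s t a : ℝ} (hst : s < t) (h : a ≤ s) : RectB_cut s t a = 1 := by
  unfold RectB_cut
  rw [min_eq_left ((one_le_div (by linarith)).2 (by linarith)), max_eq_right zero_le_one]

theorem RectB_squeeze {X : Type*} [NormedAddCommGroup X] [MeasurableSpace X] [BorelSpace X]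
    (μ : Measure X) (x : X) {s t r : ℝ} (hst : s < t) (hr : 0 < r)
    (hfin : μ (ball x (t * r)) < ⊤) :
    (μ (ball x (s * r))).toReal ≤ ∫ y, RectB_cut s t (‖y - x‖ / r) ∂μ ∧
      ∫ y, RectB_cut s t (‖y - x‖ / r) ∂μ ≤ (μ (ball x (t * r))).toReal := by
  have hup : ∀ y, RectB_cut s t (‖y - x‖ / r) ≤ (ball x (t * r)).indicator (fun _ => (1 : ℝ)) y := by
    intro y
    by_cases hy : y ∈ ball x (t * r)
    · rw [indicator_of_mem hy]; exact RectB_cut_le _ _ _
    · rw [indicator_of_notMem hy]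
      rw [mem_ball_iff_norm, not_lt] at hy
      exact (RectB_cut_zero hst ((le_div_iff₀ hr).2 hy)).le
  have hlo : ∀ y, (ball x (s * r)).indicator (fun _ => (1 : ℝ)) y ≤ RectB_cut s t (‖y - x‖ / r) := by
    intro y
    by_cases hy : y ∈ ball x (s * r)
    · rw [indicator_of_mem hy]
      rw [mem_ball_iff_norm] at hy
      exact (RectB_cut_one hst ((div_le_iff₀ hr).2 hy.le)).ge
    · rw [indicator_of_notMem hy]; exact RectB_cut_nonneg _ _ _
  have hint : Integrable ((ball x (t * r)).indicator fun _ => (1 : ℝ)) μ :=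
    (integrable_indicator_iff measurableSet_ball).2 (integrableOn_const hfin.ne)
  have hm : Measurable fun y => RectB_cut s t (‖y - x‖ / r) :=
    ((RectB_cut_cont s t).comp (by fun_prop)).measurable
  have hi : Integrable (fun y => RectB_cut s t (‖y - x‖ / r)) μ :=
    hint.mono' hm.aestronglyMeasurable (Eventually.of_forall fun y => by
      rw [Real.norm_eq_abs, abs_of_nonneg (RectB_cut_nonneg _ _ _)]; exact hup y)
  constructor
  · have := integral_mono_of_nonneg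
      (Eventually.of_forall fun y => indicator_nonneg (fun _ _ => zero_le_one) y) hi
      (Eventually.of_forall hlo)
    rwa [integral_indicator measurableSet_ball, setIntegral_const, smul_eq_mul, mul_one] at this
  · have := integral_mono hi hint hup
    rwa [integral_indicator measurableSet_ball, setIntegral_const, smul_eq_mul, mul_one] at this

theorem RectB_disc {s t : ℝ} (hs : 0 < s) (hst : s < t) :
    (volume (ball (0 : E m) 1)).toReal * s ^ m ≤ ∫ ξ : E m, RectB_cut s t ‖ξ‖ ∧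
      ∫ ξ : E m, RectB_cut s t ‖ξ‖ ≤ (volume (ball (0 : E m) 1)).toReal * t ^ m := by
  have h := RectB_squeeze (volume : Measure (E m)) 0 hst one_pos measure_ball_lt_top
  have hv : ∀ a : ℝ, 0 < a →
      (volume (ball (0 : E m) a)).toReal = (volume (ball (0 : E m) 1)).toReal * a ^ m := by
    intro a ha
    rw [Measure.addHaar_ball_of_pos _ _ ha, finrank_euclideanSpace_fin, ENNReal.toReal_mul,
      ENNReal.toReal_ofReal (pow_pos ha m).le, mul_comm]
  simp only [mul_one, sub_zero, div_one] at h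
  rwa [hv s hs, hv t (hs.trans hst)] at h

/-- squeeze the indicator of the unit ball between continuous functions -/
theorem density_eq {μ : Measure (E N)} {x : E N} {P : Submodule ℝ (E N)} {κ : ℝ}
    (h : HasTangentPlane m μ x P κ) (hfin : ∃ r > 0, μ (ball x r) < ⊤) : density m μ x = κ := by
  obtain ⟨r0, hr0, hfin⟩ := hfin
  have hπ : 0 < (volume (ball (0 : E m) 1)).toReal :=
    ENNReal.toReal_pos (measure_ball_pos _ _ one_pos).ne' measure_ball_lt_top.ne
  have hκ : 0 ≤ κ := by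
    have := ge_of_tendsto (mk_tendsto h)
      (eventually_mem_nhdsWithin.mono fun r hr => mk_nonneg μ x hr)
    exact nonneg_of_mul_nonneg_left this (cg_pos m)
  have hsm : ∀ t : ℝ, 0 < t → ∀ᶠ r in 𝓝[>] (0 : ℝ), 0 < r ∧ μ (ball x (t * r)) < ⊤ := by
    intro t ht
    filter_upwards [Ioo_mem_nhdsGT (div_pos hr0 ht)] with r hr
    refine ⟨hr.1, (measure_mono (ball_subset_ball ?_)).trans_lt hfin⟩
    have := (lt_div_iff₀ ht).1 hr.2
    linarith
  have hc : Tendsto (fun s : ℝ => κ * s ^ m) (𝓝 1) (𝓝 κ) := by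
    have : Continuous fun s : ℝ => κ * s ^ m := by fun_prop
    simpa using this.tendsto 1
  have hd := @RectB_disc m
  unfold density
  refine Tendsto.limUnder_eq ?_
  generalize (volume (ball (0 : E m) 1)).toReal = w at hπ hd
  refine tendsto_order.2 ⟨fun a ha => ?_, fun a ha => ?_⟩
  · obtain ⟨s, hs, hs0, hs1⟩ : ∃ s : ℝ, a < κ * s ^ m ∧ 0 < s ∧ s < 1 :=
      (((hc.mono_left nhdsWithin_le_nhds).eventually (lt_mem_nhds ha)).and
        (Ioo_mem_nhdsLT (zero_lt_one' ℝ))).exists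
    have h1 := RectB_radial h (RectB_cut_cont s 1) fun b hb => RectB_cut_zero hs1 hb
    have h2 : a * w < κ * ∫ ξ : E m, RectB_cut s 1 ‖ξ‖ := by
      have k1 := mul_le_mul_of_nonneg_left (hd hs0 hs1).1 hκ
      have k2 := mul_lt_mul_of_pos_right hs hπ
      linarith
    filter_upwards [h1.eventually (lt_mem_nhds h2), hsm 1 one_pos] with r h3 h4
    have h5 := (RectB_squeeze μ x hs1 h4.1 h4.2).2
    have hr2 : 0 < r ^ m := pow_pos h4.1 m
    rw [one_mul] at h5
    rw [lt_div_iff₀ (mul_pos hπ hr2)]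
    rw [inv_mul_eq_div, lt_div_iff₀ hr2] at h3
    linarith
  · obtain ⟨t, ht, ht1⟩ : ∃ t : ℝ, κ * t ^ m < a ∧ 1 < t :=
      (((hc.mono_left nhdsWithin_le_nhds).eventually (gt_mem_nhds ha)).and
        (self_mem_nhdsWithin (s := Ioi (1 : ℝ)))).exists
    have h1 := RectB_radial h (RectB_cut_cont 1 t) fun b hb => RectB_cut_zero ht1 hb
    have h2 : κ * ∫ ξ : E m, RectB_cut 1 t ‖ξ‖ < a * w := by
      have k1 := mul_le_mul_of_nonneg_left (hd zero_lt_one ht1).2 hκ
      have k2 := mul_lt_mul_of_pos_right ht hπ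
      linarith
    filter_upwards [h1.eventually (gt_mem_nhds h2), hsm t (by linarith)] with r h3 h4
    have h5 := (RectB_squeeze μ x ht1 h4.1 h4.2).1
    have hr2 : 0 < r ^ m := pow_pos h4.1 m
    rw [one_mul] at h5
    rw [div_lt_iff₀ (mul_pos hπ hr2)]
    rw [inv_mul_eq_div, div_lt_iff₀ hr2] at h3
    linarith

/-- the tangent plane only depends on the measure near the point -/
theorem tangent_restrict {μ : Measure (E N)} {x : E N} {P : Submodule ℝ (E N)} {κ : ℝ}
    (h : HasTangentPlane m μ x P κ) {V : Set (E N)} (hV : IsOpen V) (hx : x ∈ V) :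
    HasTangentPlane m (μ.restrict V) x P κ := by
  refine ⟨h.1, fun φ hφ hc => (h.2 φ hφ hc).congr' ?_⟩
  obtain ⟨ε, hε, hb⟩ := Metric.isOpen_iff.1 hV x hx
  obtain ⟨R, hR, hs⟩ := hc.isCompact.isBounded.subset_ball_lt 0 0
  filter_upwards [Ioo_mem_nhdsGT (div_pos hε hR)] with r hr
  rw [setIntegral_eq_integral_of_forall_compl_eq_zero]
  intro y hy
  refine image_eq_zero_of_notMem_tsupport fun hm => hy (hb ?_)
  have h1 := hs hm
  rw [mem_ball_zero_iff, norm_smul, norm_inv, Real.norm_eq_abs, abs_of_pos hr.1,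
    inv_mul_lt_iff₀ hr.1] at h1
  rw [mem_ball_iff_norm]
  have := (lt_div_iff₀ hR).1 hr.2
  linarith

end Pool.Agent.MP_f6c0e6_an.Gen

end

section

/-! Cones. -/

set_option autoImplicit false

open MeasureTheory Filter Topology Set Metric
open scoped ENNReal RealInnerProductSpace

namespace Pool.Agent.MP_f6c0e6_an.Gen

variable {m N : ℕ}

/-- the normal part with respect to a frame -/
noncomputable def RectC_q (s : Fin m → E N) (z : E N) : E N := z - ∑ i, ⟪s i, z⟫ • s i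

theorem RectC_q_sub (s : Fin m → E N) (a b : E N) :
    RectC_q s (a - b) = RectC_q s a - RectC_q s b := by
  simp only [RectC_q, inner_sub_right, sub_smul, Finset.sum_sub_distrib]
  abel

theorem RectC_q_smul (s : Fin m → E N) (c : ℝ) (a : E N) :
    RectC_q s (c • a) = c • RectC_q s a := by
  simp only [RectC_q, real_inner_smul_right, smul_sub, Finset.smul_sum, mul_smul]

theorem RectC_q_cont (s : Fin m → E N) : Continuous (RectC_q s) := by
  unfold RectC_q
  fun_prop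

theorem RectC_term_le {u : E N} (hu : ‖u‖ = 1) (z : E N) : ‖⟪u, z⟫ • u‖ ≤ ‖z‖ := by
  rw [norm_smul, hu, mul_one]
  have := norm_inner_le_norm (𝕜 := ℝ) u z
  rwa [hu, one_mul] at this

theorem RectC_q_le {s : Fin m → E N} (hs : Orthonormal ℝ s) (z : E N) :
    ‖RectC_q s z‖ ≤ ((m : ℝ) + 1) * ‖z‖ := by
  have h2 := norm_sub_le z (∑ i, ⟪s i, z⟫ • s i)
  have h3 : ‖∑ i, ⟪s i, z⟫ • s i‖ ≤ ∑ _i : Fin m, ‖z‖ :=
    norm_sum_le_of_le _ fun i _ => RectC_term_le (hs.1 i) z
  rw [Finset.sum_const, Finset.card_univ, Fintype.card_fin, nsmul_eq_mul] at h3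
  simp only [RectC_q]
  linarith

theorem RectC_term_sub {u v : E N} (hu : ‖u‖ = 1) (hv : ‖v‖ = 1) {δ : ℝ} (h : ‖u - v‖ ≤ δ)
    (z : E N) : ‖⟪u, z⟫ • u - ⟪v, z⟫ • v‖ ≤ 2 * δ * ‖z‖ := by
  have e : ⟪u, z⟫ • u - ⟪v, z⟫ • v = ⟪u - v, z⟫ • u + ⟪v, z⟫ • (u - v) := by
    rw [inner_sub_left, sub_smul, smul_sub]; abel
  have h1 : ‖⟪u - v, z⟫ • u‖ ≤ δ * ‖z‖ := by
    rw [norm_smul, hu, mul_one]
    exact (norm_inner_le_norm (𝕜 := ℝ) _ _).trans (by gcongr)
  have h2 : ‖⟪v, z⟫ • (u - v)‖ ≤ ‖z‖ * δ := by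
    rw [norm_smul]
    have := norm_inner_le_norm (𝕜 := ℝ) v z
    rw [hv, one_mul] at this
    gcongr
  rw [e]
  have := norm_add_le (⟪u - v, z⟫ • u) (⟪v, z⟫ • (u - v))
  linarith

theorem RectC_q_change {s t : Fin m → E N} (hs : Orthonormal ℝ s) (ht : Orthonormal ℝ t) {δ : ℝ}
    (h : ∀ i, ‖s i - t i‖ ≤ δ) (z : E N) :
    ‖RectC_q t z‖ ≤ ‖RectC_q s z‖ + 2 * m * δ * ‖z‖ := by
  have e : RectC_q t z = RectC_q s z + ∑ i, (⟪s i, z⟫ • s i - ⟪t i, z⟫ • t i) := by
    simp only [RectC_q, Finset.sum_sub_distrib]; abel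
  rw [e]
  have h2 := norm_add_le (RectC_q s z) (∑ i, (⟪s i, z⟫ • s i - ⟪t i, z⟫ • t i))
  have h3 : ‖∑ i, (⟪s i, z⟫ • s i - ⟪t i, z⟫ • t i)‖ ≤ ∑ _i : Fin m, 2 * δ * ‖z‖ :=
    norm_sum_le_of_le _ fun i _ => RectC_term_sub (hs.1 i) (ht.1 i) (h i) z
  rw [Finset.sum_const, Finset.card_univ, Fintype.card_fin, nsmul_eq_mul] at h3
  linarith

theorem RectC_q_span {s : Fin m → E N} (hs : Orthonormal ℝ s) {z : E N}
    (hz : z ∈ Submodule.span ℝ (range s)) : RectC_q s z = 0 := by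
  obtain ⟨c, rfl⟩ := (Submodule.mem_span_range_iff_exists_fun ℝ).1 hz
  simp only [RectC_q, hs.inner_right_fintype, sub_self]

/-- the test function vanishing on the plane -/
noncomputable def RectC_phi (s : Fin m → E N) (δ : ℝ) (z : E N) : ℝ :=
  max (3 - ‖z‖) 0 * (‖RectC_q s z‖ / δ)

theorem RectC_phi_cont (s : Fin m → E N) (δ : ℝ) : Continuous (RectC_phi s δ) := by
  have := RectC_q_cont s
  unfold RectC_phi
  fun_prop

theorem RectC_phi_cpt (s : Fin m → E N) (δ : ℝ) : HasCompactSupport (RectC_phi s δ) := by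
  refine HasCompactSupport.intro (isCompact_closedBall (0 : E N) 3) fun z hz => ?_
  have : 3 < ‖z‖ := by simpa using hz
  rw [RectC_phi, max_eq_right (by linarith), zero_mul]

theorem RectC_phi_nonneg (s : Fin m → E N) {δ : ℝ} (hδ : 0 < δ) (z : E N) :
    0 ≤ RectC_phi s δ z := by
  unfold RectC_phi
  positivity

theorem RectC_gam_nonneg (t : ℝ) : 0 ≤ gam t := by
  unfold gam
  positivity

theorem RectC_gam_le {t : ℝ} (ht : 0 ≤ t) : gam t ≤ 1 := by
  unfold gam
  exact pow_le_one₀ (le_max_right _ _) (max_le (by linarith) zero_le_one)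

theorem RectC_gam_zero {t : ℝ} (ht : 1 ≤ t) : gam t = 0 := by
  unfold gam
  rw [max_eq_right (by linarith)]
  norm_num

/-- the good set at scale `r` -/
def RectC_A (μ : Measure (E N)) (fr : Fr m N) (δ r : ℝ) : Set (E N) :=
  {y | ∀ ρ, 0 < ρ → ρ < r → cg m / 2 < mk m μ y ρ ∧
    (ρ ^ m)⁻¹ * ∫ x, RectC_phi (fun i => fr.s i y) δ (ρ⁻¹ • (x - y)) ∂μ < cg m / 2 * δ ^ m}

theorem RectC_mem_A {μ : Measure (E N)} (fr : Fr m N) {δ : ℝ} (hδ : 0 < δ) {y : E N} {κ : ℝ}
    (hκ : 1 ≤ κ)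
    (h : HasTangentPlane m μ y (Submodule.span ℝ (range fun i => fr.s i y)) κ) :
    ∃ j : ℕ, y ∈ RectC_A μ fr δ (1 / ((j : ℝ) + 1)) := by
  have h1 := mk_tendsto h
  have h2 := h.2 _ (RectC_phi_cont (fun i => fr.s i y) δ) (RectC_phi_cpt (fun i => fr.s i y) δ)
  have h0 : ∫ z in ((Submodule.span ℝ (range fun i => fr.s i y) : Submodule ℝ (E N)) : Set (E N)),
      RectC_phi (fun i => fr.s i y) δ z ∂(Measure.euclideanHausdorffMeasure m) = 0 := by
    refine setIntegral_eq_zero_of_forall_eq_zero fun z hz => ?_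
    rw [RectC_phi, RectC_q_span (fr.orth y) hz]
    simp
  rw [h0, mul_zero] at h2
  have hcg := cg_pos m
  have hlt : cg m / 2 < κ * cg m := by nlinarith
  have e1 := h1.eventually (lt_mem_nhds hlt)
  have e2 := h2.eventually (gt_mem_nhds (show (0 : ℝ) < cg m / 2 * δ ^ m by positivity))
  obtain ⟨u, hu, hsub⟩ := mem_nhdsGT_iff_exists_Ioo_subset.1 (e1.and e2)
  obtain ⟨j, hj⟩ := exists_nat_one_div_lt (show (0 : ℝ) < u from hu)
  exact ⟨j, fun ρ hρ hρ' => hsub ⟨hρ, hρ'.trans hj⟩⟩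

theorem RectC_cone {μ : Measure (E N)} [IsFiniteMeasure μ] (fr : Fr m N) {δ r : ℝ} (hδ : 0 < δ)
    (hδ1 : δ ≤ 1) {y y' : E N} (hy : y ∈ RectC_A μ fr δ r) (hy' : y' ∈ RectC_A μ fr δ r)
    (hr : ‖y' - y‖ < r) :
    ‖RectC_q (fun i => fr.s i y) (y' - y)‖ ≤ ((m : ℝ) + 2) * δ * ‖y' - y‖ := by
  rcases (norm_nonneg (y' - y)).eq_or_lt with h0 | hρ
  · have := RectC_q_le (fr.orth y) (y' - y)
    rw [← h0] at this ⊢
    linarith
  by_contra hcon
  push Not at hcon
  set ρ := ‖y' - y‖ with hρdef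
  set s : Fin m → E N := fun i => fr.s i y with hs
  have hδρ : 0 < δ * ρ := mul_pos hδ hρ
  have hle : δ * ρ ≤ ρ := by nlinarith
  have h1 := (hy' (δ * ρ) hδρ (hle.trans_lt hr)).1
  have h2 := (hy ρ hρ hr).2
  have hint : Integrable (fun x => RectC_phi s δ (ρ⁻¹ • (x - y))) μ := by
    obtain ⟨C, hC⟩ := (RectC_phi_cont s δ).bounded_above_of_compact_support (RectC_phi_cpt s δ)
    refine Integrable.of_bound ?_ C (Eventually.of_forall fun x => hC _)
    exact ((RectC_phi_cont s δ).comp (by fun_prop)).aestronglyMeasurable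
  have hpt : ∀ x, gam (‖x - y'‖ ^ 2 / (δ * ρ) ^ 2) ≤ RectC_phi s δ (ρ⁻¹ • (x - y)) := by
    intro x
    by_cases hx : δ * ρ ≤ ‖x - y'‖
    · rw [RectC_gam_zero]
      · exact RectC_phi_nonneg s hδ _
      · rw [one_le_div (by positivity)]
        gcongr
    push Not at hx
    refine (RectC_gam_le (by positivity)).trans ?_
    have hn : ‖ρ⁻¹ • (x - y)‖ ≤ 2 := by
      rw [norm_smul, norm_inv, Real.norm_of_nonneg hρ.le, inv_mul_le_iff₀ hρ]
      have : ‖x - y‖ ≤ ‖x - y'‖ + ‖y' - y‖ := norm_sub_le_norm_sub_add_norm_sub x y' y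
      linarith
    have hq : δ * ρ ≤ ‖RectC_q s (x - y)‖ := by
      have e : RectC_q s (y' - y) = RectC_q s (x - y) - RectC_q s (x - y') := by
        rw [← RectC_q_sub]; congr 1; abel
      have h3 := RectC_q_le (fr.orth y) (x - y')
      have h4 := norm_sub_le (RectC_q s (x - y)) (RectC_q s (x - y'))
      rw [← e] at h4
      have h5 : ((m : ℝ) + 1) * ‖x - y'‖ ≤ ((m : ℝ) + 1) * (δ * ρ) := by gcongr
      linarith
    have hq' : 1 ≤ ‖RectC_q s (ρ⁻¹ • (x - y))‖ / δ := by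
      rw [one_le_div hδ, RectC_q_smul, norm_smul, norm_inv, Real.norm_of_nonneg hρ.le,
        le_inv_mul_iff₀ hρ]
      linarith
    have hm : 1 ≤ max (3 - ‖ρ⁻¹ • (x - y)‖) 0 := le_max_of_le_left (by linarith)
    exact one_le_mul_of_one_le_of_one_le hm hq'
  have h3 : ∫ x, gam (‖x - y'‖ ^ 2 / (δ * ρ) ^ 2) ∂μ ≤
      ∫ x, RectC_phi s δ (ρ⁻¹ • (x - y)) ∂μ :=
    integral_mono_of_nonneg (Eventually.of_forall fun x => RectC_gam_nonneg _) hint
      (Eventually.of_forall hpt)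
  rw [mk, lt_inv_mul_iff₀ (by positivity)] at h1
  rw [inv_mul_lt_iff₀ (by positivity)] at h2
  rw [mul_pow] at h1
  linarith

theorem RectC_clos {X : Type*} [TopologicalSpace X] {B : Set X} {f g : X × X → ℝ}
    (hf : Continuous f) (hg : Continuous g) (h : ∀ y ∈ B, ∀ y' ∈ B, f (y, y') ≤ g (y, y')) :
    ∀ y ∈ closure B, ∀ y' ∈ closure B, f (y, y') ≤ g (y, y') := by
  intro y hy y' hy'
  have hm : (y, y') ∈ closure (B ×ˢ B) := by
    rw [closure_prod_eq]; exact ⟨hy, hy'⟩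
  exact closure_minimal (fun p hp => h p.1 hp.1 p.2 hp.2) (isClosed_le hf hg) hm

theorem RectC_closure {B : Set (E N)} {t : Fin m → E N} {η : ℝ}
    (h : ∀ y ∈ B, ∀ y' ∈ B, ‖y - y'‖ ≤ η ∧ ‖RectC_q t (y - y')‖ ≤ η * ‖y - y'‖) :
    ∀ y ∈ closure B, ∀ y' ∈ closure B,
      ‖y - y'‖ ≤ η ∧ ‖RectC_q t (y - y')‖ ≤ η * ‖y - y'‖ := by
  have hq := RectC_q_cont t
  generalize RectC_q t = q at h hq ⊢
  have hs : Continuous fun p : E N × E N => p.1 - p.2 := continuous_fst.sub continuous_snd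
  have h1 : Continuous fun p : E N × E N => ‖p.1 - p.2‖ := hs.norm
  have h2 : Continuous fun p : E N × E N => ‖q (p.1 - p.2)‖ := (hq.comp hs).norm
  have h3 : Continuous fun p : E N × E N => η * ‖p.1 - p.2‖ := continuous_const.mul h1
  intro y hy y' hy'
  exact ⟨RectC_clos h1 (continuous_const (y := η)) (fun a ha b hb => (h a ha b hb).1) y hy y' hy',
    RectC_clos h2 h3 (fun a ha b hb => (h a ha b hb).2) y hy y' hy'⟩

/-- Almost all of `μ` is covered by countably many closed sets with the cone property. For a good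
`y` and small `ρ`, the ball of radius `ρ` about `y` has mass at least `c ρ ^ m` and its part at distance
at least `η ρ / 4` from the tangent plane has mass less than `c (η ρ / 8) ^ m`. Let `A j` be the set
where this holds for all `ρ < 1 / j`. If `y, y'` are in `A j` at distance `ρ / 2 < 1 / (2 j)`,
then `y'` is within `η ρ / 2` of the tangent plane at `y`. Split `A j` into countably many parts
of diameter less than `min η (1 / (2 j))` on which the frames are within `η / 10` of a frame `t`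
of one of its points, and take closures. -/
theorem exists_cones {μ : Measure (E N)} [IsFiniteMeasure μ] (fr : Fr m N)
    (h : ∀ᵐ y ∂μ, ∃ κ : ℝ, 1 ≤ κ ∧
      HasTangentPlane m μ y (Submodule.span ℝ (range fun i => fr.s i y)) κ) {η : ℝ} (hη : 0 < η) :
    ∃ (Γ : ℕ → Set (E N)) (t : ℕ → Fin m → E N), (∀ k, MeasurableSet (Γ k)) ∧
      Pairwise (Function.onFun Disjoint Γ) ∧ μ (⋃ k, Γ k)ᶜ = 0 ∧ (∀ k, Orthonormal ℝ (t k)) ∧
      (∀ k, ∀ y ∈ Γ k, ∀ i, ‖fr.s i y - t k i‖ ≤ η) ∧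
      ∀ k, ∀ y ∈ Γ k, ∀ y' ∈ Γ k, ‖y - y'‖ ≤ η ∧
        ‖(y - y') - ∑ i, ⟪t k i, y - y'⟫ • t k i‖ ≤ η * ‖y - y'‖ := by
  set δ := min η 1 / (3 * (m : ℝ) + 2) with hδdef
  have hm1 : min η 1 ≤ η := min_le_left _ _
  have hm2 : min η 1 ≤ 1 := min_le_right _ _
  have hm0 : 0 < min η 1 := lt_min hη one_pos
  have hδ : 0 < δ := by positivity
  have hmm : (0 : ℝ) ≤ m := Nat.cast_nonneg m
  have hδe : (3 * (m : ℝ) + 2) * δ = min η 1 := by
    rw [hδdef]; field_simp
  have hmδ : 0 ≤ (m : ℝ) * δ := by positivity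
  have hδ1 : δ ≤ 1 := by linarith
  have hδη : (3 * (m : ℝ) + 2) * δ ≤ η := by linarith
  let Fm := {t : Fin m → E N // Orthonormal ℝ t}
  have : Nonempty Fm := ⟨⟨fun i => fr.s i 0, fr.orth 0⟩⟩
  obtain ⟨T, hT⟩ := TopologicalSpace.exists_dense_seq Fm
  obtain ⟨X, hX⟩ := TopologicalSpace.exists_dense_seq (E N)
  obtain ⟨e, he⟩ := exists_surjective_nat (ℕ × ℕ × ℕ)
  let B : ℕ × ℕ × ℕ → Set (E N) := fun p =>
    {y | y ∈ RectC_A μ fr δ (1 / ((p.1 : ℝ) + 1)) ∧
      ‖y - X p.2.1‖ < min η (1 / ((p.1 : ℝ) + 1)) / 2 ∧ ∀ i, ‖fr.s i y - (T p.2.2).1 i‖ ≤ δ}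
  let G : ℕ → Set (E N) := fun k =>
    closure (B (e k)) ∩ ⋂ i, {y | ‖fr.s i y - (T (e k).2.2).1 i‖ ≤ η}
  have hG : ∀ k, MeasurableSet (G k) := fun k =>
    isClosed_closure.measurableSet.inter (MeasurableSet.iInter fun i =>
      measurableSet_le ((fr.meas i).sub_const _).norm measurable_const)
  have hB : ∀ p, ∀ y ∈ B p, ∀ y' ∈ B p,
      ‖y - y'‖ ≤ η ∧ ‖RectC_q (T p.2.2).1 (y - y')‖ ≤ η * ‖y - y'‖ := by
    intro p y hy y' hy'
    have hd : ‖y - y'‖ < min η (1 / ((p.1 : ℝ) + 1)) := by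
      have h1 : ‖y - y'‖ ≤ ‖y - X p.2.1‖ + ‖X p.2.1 - y'‖ :=
        norm_sub_le_norm_sub_add_norm_sub _ _ _
      rw [norm_sub_rev (X p.2.1)] at h1
      linarith [hy.2.1, hy'.2.1]
    refine ⟨(hd.trans_le (min_le_left _ _)).le, ?_⟩
    have h1 := RectC_cone fr hδ hδ1 hy'.1 hy.1 (hd.trans_le (min_le_right _ _))
    have h2 := RectC_q_change (fr.orth y') (T p.2.2).2 hy'.2.2 (y - y')
    have h3 : (3 * (m : ℝ) + 2) * δ * ‖y - y'‖ ≤ η * ‖y - y'‖ := by gcongr
    linarith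
  refine ⟨disjointed G, fun k => (T (e k).2.2).1, MeasurableSet.disjointed hG,
    disjoint_disjointed G, ?_, fun k => (T (e k).2.2).2, ?_, ?_⟩
  · rw [iUnion_disjointed]
    refine measure_mono_null ?_ (ae_iff.1 h)
    intro y hy hgood
    obtain ⟨κ, hκ, hP⟩ := hgood
    obtain ⟨j, hj⟩ := RectC_mem_A fr hδ hκ hP
    have hpos : 0 < min η (1 / ((j : ℝ) + 1)) / 2 := by
      have : 0 < min η (1 / ((j : ℝ) + 1)) := lt_min hη (by positivity)
      linarith
    obtain ⟨a, ha⟩ := hX.exists_dist_lt y hpos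
    obtain ⟨b, hb⟩ := hT.exists_dist_lt (⟨fun i => fr.s i y, fr.orth y⟩ : Fm) hδ
    obtain ⟨k, hk⟩ := he (j, a, b)
    have hb' : ∀ i, ‖fr.s i y - (T b).1 i‖ ≤ δ := by
      intro i
      rw [Subtype.dist_eq] at hb
      rw [← dist_eq_norm]
      exact (dist_le_pi_dist (fun i => fr.s i y) (T b).1 i).trans hb.le
    refine hy (mem_iUnion.2 ⟨k, subset_closure ?_, mem_iInter.2 fun i => ?_⟩)
    · rw [hk]
      exact ⟨hj, by rwa [← dist_eq_norm], hb'⟩
    · rw [hk]
      exact (hb' i).trans (by linarith)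
  · intro k y hy i
    exact mem_iInter.1 (disjointed_subset G k hy).2 i
  · intro k y hy y' hy'
    exact RectC_closure (hB (e k)) y (disjointed_subset G k hy).1 y'
      (disjointed_subset G k hy').1

end Pool.Agent.MP_f6c0e6_an.Gen

end

section

/-! The area formula. -/

set_option autoImplicit false

open MeasureTheory Filter Topology Set Metric
open scoped ENNReal RealInnerProductSpace

namespace Pool.Agent.MP_f6c0e6_an.Gen

variable {m N : ℕ}

/-- `g` is injective on `P` and changes the measure of the subsets of `P` by at most the factor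
`c`. -/
def RectE_Good (lam : Measure (E N)) (g : E N → E m) (c : ℝ≥0∞) (P : Set (E N)) : Prop :=
  MeasurableSet P ∧ InjOn g P ∧ ∀ A, A ⊆ P → MeasurableSet A →
    volume (g '' A) ≤ c * lam A ∧ lam A ≤ c * volume (g '' A)

theorem RectE_Good_mono {lam : Measure (E N)} {g : E N → E m} {c : ℝ≥0∞} {P Q : Set (E N)}
    (h : RectE_Good lam g c P) (hQ : MeasurableSet Q) (hQP : Q ⊆ P) : RectE_Good lam g c Q :=
  ⟨hQ, h.2.1.mono hQP, fun A hA hm => h.2.2 A (hA.trans hQP) hm⟩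

theorem RectE_Good_empty (lam : Measure (E N)) (g : E N → E m) (c : ℝ≥0∞) :
    RectE_Good lam g c ∅ := by
  refine ⟨MeasurableSet.empty, injOn_empty g, fun A hA _ => ?_⟩
  rw [subset_empty_iff.1 hA]
  simp

/-- from a countable family to a disjoint sequence -/
theorem RectE_disj {lam : Measure (E N)} {g : E N → E m} {c : ℝ≥0∞} {S : Set (Set (E N))}
    (hS : S.Countable) (hg : ∀ P ∈ S, RectE_Good lam g c P) (h0 : lam (⋃₀ S)ᶜ = 0) :
    ∃ Q : ℕ → Set (E N), Pairwise (Function.onFun Disjoint Q) ∧ (∀ k, RectE_Good lam g c (Q k)) ∧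
      lam (⋃ k, Q k)ᶜ = 0 := by
  obtain ⟨f, hf⟩ := (hS.insert ∅).exists_eq_range (insert_nonempty _ _)
  have hfg : ∀ k, RectE_Good lam g c (f k) := by
    intro k
    have : f k ∈ insert ∅ S := by rw [hf]; exact mem_range_self k
    rcases this with h | h
    · rw [h]; exact RectE_Good_empty lam g c
    · exact hg _ h
  refine ⟨disjointed f, disjoint_disjointed f, fun k => RectE_Good_mono (hfg k)
    (MeasurableSet.disjointed (fun k => (hfg k).1) k) (disjointed_subset f k), ?_⟩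
  rw [iUnion_disjointed]
  refine measure_mono_null (compl_subset_compl.2 ?_) h0
  rintro x ⟨P, hP, hx⟩
  have : P ∈ range f := by rw [← hf]; exact mem_insert_of_mem _ hP
  obtain ⟨k, rfl⟩ := this
  exact mem_iUnion.2 ⟨k, hx⟩

theorem RectE_le {x y : ℝ≥0∞} (h : ∀ c : ℝ≥0∞, 1 < c → x ≤ c * y) : x ≤ y := by
  refine ENNReal.le_of_forall_lt_one_mul_le fun a ha => ?_
  rcases eq_or_ne a 0 with rfl | h0
  · simp
  have ht : a ≠ ⊤ := ne_top_of_lt ha
  calc a * x ≤ a * (a⁻¹ * y) := by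
        gcongr
        exact h _ (ENNReal.one_lt_inv.2 ha)
    _ = y := by rw [← mul_assoc, ENNReal.mul_inv_cancel h0 ht, one_mul]

/-- the exact change of measure on a piece -/
theorem RectE_exact {lam : Measure (E N)} {g : E N → E m} (hg : Measurable g)
    (hcov : ∀ c : ℝ≥0∞, 1 < c → ∃ Q : ℕ → Set (E N), Pairwise (Function.onFun Disjoint Q) ∧
      (∀ k, RectE_Good lam g c (Q k)) ∧ lam (⋃ k, Q k)ᶜ = 0)
    {c₀ : ℝ≥0∞} {A : Set (E N)} (hA : RectE_Good lam g c₀ A) : volume (g '' A) = lam A := by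
  apply le_antisymm
  · refine RectE_le fun c hc => ?_
    obtain ⟨Q, hd, hQ, h0⟩ := hcov c hc
    have hU : MeasurableSet (⋃ k, Q k) := MeasurableSet.iUnion fun k => (hQ k).1
    have h1 : volume (g '' (A \ ⋃ k, Q k)) = 0 := by
      have := (hA.2.2 (A \ ⋃ k, Q k) sdiff_subset (hA.1.diff hU)).1
      rw [measure_mono_null (fun x hx => hx.2) h0, mul_zero] at this
      exact le_antisymm this zero_le
    have h2 : g '' A ⊆ g '' (A \ ⋃ k, Q k) ∪ ⋃ k, g '' (A ∩ Q k) := by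
      rintro _ ⟨x, hx, rfl⟩
      by_cases hxU : x ∈ ⋃ k, Q k
      · obtain ⟨k, hk⟩ := mem_iUnion.1 hxU
        exact Or.inr (mem_iUnion.2 ⟨k, x, ⟨hx, hk⟩, rfl⟩)
      · exact Or.inl ⟨x, ⟨hx, hxU⟩, rfl⟩
    have h3 : lam (⋃ k, A ∩ Q k) = ∑' k, lam (A ∩ Q k) :=
      measure_iUnion (fun i j hij => (hd hij).mono inter_subset_right inter_subset_right)
        fun k => hA.1.inter (hQ k).1
    calc volume (g '' A) ≤ volume (g '' (A \ ⋃ k, Q k)) + volume (⋃ k, g '' (A ∩ Q k)) :=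
          (measure_mono h2).trans (measure_union_le _ _)
      _ ≤ 0 + ∑' k, volume (g '' (A ∩ Q k)) := by
          rw [h1]; gcongr; exact measure_iUnion_le _
      _ ≤ ∑' k, c * lam (A ∩ Q k) := by
          rw [zero_add]
          exact ENNReal.tsum_le_tsum fun k =>
            ((hQ k).2.2 _ inter_subset_right (hA.1.inter (hQ k).1)).1
      _ = c * lam (⋃ k, A ∩ Q k) := by rw [ENNReal.tsum_mul_left, h3]
      _ ≤ c * lam A := by
          gcongr
          exact iUnion_subset fun k => inter_subset_left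
  · refine RectE_le fun c hc => ?_
    obtain ⟨Q, hd, hQ, h0⟩ := hcov c hc
    have h2 : A ⊆ (⋃ k, Q k)ᶜ ∪ ⋃ k, A ∩ Q k := by
      intro x hx
      by_cases hxU : x ∈ ⋃ k, Q k
      · obtain ⟨k, hk⟩ := mem_iUnion.1 hxU
        exact Or.inr (mem_iUnion.2 ⟨k, hx, hk⟩)
      · exact Or.inl hxU
    have h3 : volume (⋃ k, g '' (A ∩ Q k)) = ∑' k, volume (g '' (A ∩ Q k)) := by
      refine measure_iUnion (fun i j hij => ?_) fun k =>
        (hA.1.inter (hQ k).1).image_of_measurable_injOn hg (hA.2.1.mono inter_subset_left)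
      refine Set.disjoint_left.2 ?_
      rintro _ ⟨x, hx, rfl⟩ ⟨y, hy, hxy⟩
      have : y = x := hA.2.1 hy.1 hx.1 hxy
      subst this
      exact Set.disjoint_left.1 (hd hij) hx.2 hy.2
    calc lam A ≤ lam (⋃ k, Q k)ᶜ + lam (⋃ k, A ∩ Q k) :=
          (measure_mono h2).trans (measure_union_le _ _)
      _ ≤ 0 + ∑' k, lam (A ∩ Q k) := by
          rw [h0]; gcongr; exact measure_iUnion_le _
      _ ≤ ∑' k, c * volume (g '' (A ∩ Q k)) := by
          rw [zero_add]
          exact ENNReal.tsum_le_tsum fun k =>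
            ((hQ k).2.2 _ inter_subset_right (hA.1.inter (hQ k).1)).2
      _ = c * volume (⋃ k, g '' (A ∩ Q k)) := by rw [ENNReal.tsum_mul_left, h3]
      _ ≤ c * volume (g '' A) := by
          gcongr
          exact iUnion_subset fun k => image_mono inter_subset_left

/-- the change of variables on a piece -/
theorem RectE_piece {lam : Measure (E N)} {g : E N → E m} (hg : Measurable g)
    (hcov : ∀ c : ℝ≥0∞, 1 < c → ∃ Q : ℕ → Set (E N), Pairwise (Function.onFun Disjoint Q) ∧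
      (∀ k, RectE_Good lam g c (Q k)) ∧ lam (⋃ k, Q k)ᶜ = 0)
    {c₀ : ℝ≥0∞} {P : Set (E N)} (hP : RectE_Good lam g c₀ P) {ψ : E m → ℝ≥0∞}
    (hψ : Measurable ψ) : ∫⁻ y in P, ψ (g y) ∂lam = ∫⁻ ξ in g '' P, ψ ξ := by
  have hmap : Measure.map g (lam.restrict P) = volume.restrict (g '' P) := by
    ext B hB
    rw [Measure.map_apply hg hB, Measure.restrict_apply (hg hB), Measure.restrict_apply hB,
      ← RectE_exact hg hcov (RectE_Good_mono hP ((hg hB).inter hP.1) inter_subset_right),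
      image_preimage_inter]
  rw [← hmap, lintegral_map hψ hg]

theorem RectE_enat {ι : Type} (a : ι → ℕ) : ∃ q : ℕ∞, (q : ℝ≥0∞) = ∑' k, (a k : ℝ≥0∞) := by
  refine ⟨⨆ s : Finset ι, ((∑ k ∈ s, a k : ℕ) : ℕ∞), ?_⟩
  rw [ENat.toENNReal_iSup, ENNReal.tsum_eq_iSup_sum]
  congr 1
  ext s
  rw [ENat.toENNReal_coe]
  simp

/-- the abstract area formula -/
theorem RectE_abs {lam : Measure (E N)} {g : E N → E m} (hg : Measurable g) {θ : E N → ℕ}
    (hθ : Measurable θ)
    (hcov : ∀ c : ℝ≥0∞, 1 < c → ∃ Q : ℕ → Set (E N), Pairwise (Function.onFun Disjoint Q) ∧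
      (∀ k, RectE_Good lam g c (Q k)) ∧ lam (⋃ k, Q k)ᶜ = 0) :
    ∃ θ' : E m → ℕ∞, Measurable θ' ∧ ∀ ψ : E m → ℝ≥0∞, Measurable ψ →
      ∫⁻ y, ψ (g y) * (θ y : ℝ≥0∞) ∂lam = ∫⁻ ξ, ψ ξ * (θ' ξ : ℝ≥0∞) := by
  classical
  obtain ⟨Q, hd, hQ, h0⟩ := hcov 2 (by norm_num)
  let P : ℕ × ℕ → Set (E N) := fun k => Q k.1 ∩ θ ⁻¹' {k.2}
  have hP : ∀ k, RectE_Good lam g 2 (P k) := fun k =>
    RectE_Good_mono (hQ k.1) ((hQ k.1).1.inter (hθ (measurableSet_singleton _))) inter_subset_left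
  have hPd : Pairwise (Function.onFun Disjoint P) := by
    rintro ⟨i, q⟩ ⟨j, n⟩ hij
    refine Set.disjoint_left.2 fun x hx hy => ?_
    by_cases h : i = j
    · subst h
      have e1 : θ x = q := hx.2
      have e2 : θ x = n := hy.2
      exact hij (by rw [← e1, ← e2])
    · exact Set.disjoint_left.1 (hd h) hx.1 hy.1
  have hPU : (⋃ k, P k) = ⋃ k, Q k := by
    ext x
    simp only [mem_iUnion]
    constructor
    · rintro ⟨k, hk⟩
      exact ⟨k.1, hk.1⟩
    · rintro ⟨k, hk⟩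
      exact ⟨(k, θ x), hk, rfl⟩
  have hI : ∀ k, MeasurableSet (g '' P k) := fun k =>
    (hP k).1.image_of_measurable_injOn hg (hP k).2.1
  let a : ℕ × ℕ → E m → ℕ := fun k => (g '' P k).indicator fun _ => k.2
  have ha : ∀ k, Measurable fun ξ => (a k ξ : ℝ≥0∞) := fun k =>
    measurable_from_top.comp (measurable_const.indicator (hI k))
  choose θ' hθ' using fun ξ => RectE_enat fun k => a k ξ
  have hF : Measurable fun ξ => ∑' k, (a k ξ : ℝ≥0∞) := Measurable.tsum ha
  refine ⟨θ', ENat.measurable_iff.2 fun n => ?_, fun ψ hψ => ?_⟩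
  · have : θ' ⁻¹' {(n : ℕ∞)} = (fun ξ => ∑' k, (a k ξ : ℝ≥0∞)) ⁻¹' {((n : ℕ∞) : ℝ≥0∞)} := by
      ext ξ
      simp only [mem_preimage, mem_singleton_iff, ← hθ' ξ, ENat.toENNReal_inj]
    rw [this]
    exact hF (measurableSet_singleton _)
  · have hae : (⋃ k, P k) =ᵐ[lam] univ := by
      rw [hPU]
      exact ae_eq_univ.2 h0
    calc ∫⁻ y, ψ (g y) * (θ y : ℝ≥0∞) ∂lam
        = ∫⁻ y in ⋃ k, P k, ψ (g y) * (θ y : ℝ≥0∞) ∂lam := by
          rw [setLIntegral_congr hae, Measure.restrict_univ]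
      _ = ∑' k, ∫⁻ y in P k, ψ (g y) * (θ y : ℝ≥0∞) ∂lam :=
          lintegral_iUnion (fun k => (hP k).1) hPd _
      _ = ∑' k, ∫⁻ ξ, ψ ξ * (a k ξ : ℝ≥0∞) := by
          congr 1
          ext k
          have e1 : ∫⁻ y in P k, ψ (g y) * (θ y : ℝ≥0∞) ∂lam =
              ∫⁻ y in P k, ψ (g y) * (k.2 : ℝ≥0∞) ∂lam := by
            refine setLIntegral_congr_fun (hP k).1 fun y hy => ?_
            have : θ y = k.2 := hy.2
            simp only [this]
          rw [e1, RectE_piece hg hcov (hP k) (ψ := fun ξ => ψ ξ * (k.2 : ℝ≥0∞))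
            (hψ.mul_const _), ← lintegral_indicator (hI k)]
          congr 1
          ext ξ
          by_cases hξ : ξ ∈ g '' P k
          · simp only [a, indicator_of_mem hξ]
          · simp only [a, indicator_of_notMem hξ, Nat.cast_zero, mul_zero]
      _ = ∫⁻ ξ, ψ ξ * (θ' ξ : ℝ≥0∞) := by
          rw [← lintegral_tsum (f := fun k ξ => ψ ξ * (a k ξ : ℝ≥0∞))
            fun k => (hψ.mul (ha k)).aemeasurable]
          congr 1
          ext ξ
          rw [hθ' ξ, ENNReal.tsum_mul_left]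

theorem RectE_vol_cont : Continuous (vol : (Fin m → E m) → ℝ) := by
  refine continuous_abs.comp (Continuous.matrix_det (continuous_matrix fun i j => ?_))
  simp only [Matrix.of_apply]
  fun_prop

theorem RectE_jac_meas (fr : Fr m N) (g : E N → E m) : Measurable (fr.jac g) := by
  have h : ∀ i, Measurable fun y => fderiv ℝ g y (fr.s i y) := fun i =>
    ContinuousLinearMap.measurable_apply₂.comp ((measurable_fderiv ℝ g).prodMk (fr.meas i))
  exact RectE_vol_cont.measurable.comp (measurable_pi_lambda _ h)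

/-- the Jacobian changes little when the map and the frame change little -/
theorem RectE_jac_close (m : ℕ) {Λ δ : ℝ} (hΛ : 1 ≤ Λ) (hδ : 0 < δ) : ∃ η₁ : ℝ, 0 < η₁ ∧
    ∀ {N : ℕ} {D L : E N →L[ℝ] E m} {s t : Fin m → E N} {η : ℝ}, 0 ≤ η → η ≤ η₁ →
      Orthonormal ℝ s → Orthonormal ℝ t → ‖D‖ ≤ Λ → ‖L‖ ≤ Λ → ‖D - L‖ ≤ η →
      (∀ i, ‖s i - t i‖ ≤ η) → |vol (fun i => D (s i)) - vol fun i => L (t i)| ≤ δ := by
  obtain ⟨r, hr, hu⟩ := Metric.uniformContinuousOn_iff_le.1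
    ((isCompact_closedBall (0 : Fin m → E m) Λ).uniformContinuousOn_of_continuous
      RectE_vol_cont.continuousOn) δ hδ
  refine ⟨r / (2 * Λ), by positivity, fun {N D L s t η} hη hη1 hs ht hD hL hDL hst => ?_⟩
  have ha : ∀ i, ‖D (s i)‖ ≤ Λ := fun i => by
    have := D.le_opNorm (s i)
    rw [hs.1 i, mul_one] at this
    exact this.trans hD
  have hb : ∀ i, ‖L (t i)‖ ≤ Λ := fun i => by
    have := L.le_opNorm (t i)
    rw [ht.1 i, mul_one] at this
    exact this.trans hL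
  have hr' : 2 * Λ * η ≤ r := by
    rw [le_div_iff₀ (by positivity)] at hη1
    linarith
  have hab : ∀ i, ‖D (s i) - L (t i)‖ ≤ r := fun i => by
    have e : D (s i) - L (t i) = (D - L) (s i) + L (s i - t i) := by
      simp only [sub_apply, map_sub]; abel
    have h1 := (D - L).le_opNorm (s i)
    rw [hs.1 i, mul_one] at h1
    have h2 : ‖L (s i - t i)‖ ≤ Λ * η :=
      (L.le_opNorm _).trans (mul_le_mul hL (hst i) (norm_nonneg _) (by linarith))
    rw [e]
    calc _ ≤ ‖(D - L) (s i)‖ + ‖L (s i - t i)‖ := norm_add_le _ _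
      _ ≤ η + Λ * η := add_le_add (h1.trans hDL) h2
      _ ≤ 2 * Λ * η := by nlinarith only [hΛ, hη]
      _ ≤ r := hr'
  rw [← Real.dist_eq]
  refine hu _ ?_ _ ?_ ?_
  · exact mem_closedBall_zero_iff.2 ((pi_norm_le_iff_of_nonneg (by linarith)).2 ha)
  · exact mem_closedBall_zero_iff.2 ((pi_norm_le_iff_of_nonneg (by linarith)).2 hb)
  · exact (dist_pi_le_iff hr.le).2 fun i => by rw [dist_eq_norm]; exact hab i

/-- a piece on which the density is almost constant -/
theorem RectE_good_of {H lam : Measure (E N)} {g : E N → E m} {f : E N → ℝ} (hf : Measurable f)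
    {P : Set (E N)} (hP : MeasurableSet P) {J ε : ℝ} (hε : 0 < ε)
    (hlam : ∀ A, A ⊆ P → MeasurableSet A → lam A = ∫⁻ y in A, ENNReal.ofReal (f y) ∂H)
    (hJ1 : ∀ y ∈ P, J ≤ (1 + ε) * f y) (hJ2 : ∀ y ∈ P, f y ≤ (1 + ε) * J)
    (hflat : ∀ A, A ⊆ P → InjOn g A ∧ volume (g '' A) ≤ ENNReal.ofReal ((1 + ε) * J) * H A ∧
      ENNReal.ofReal J * H A ≤ ENNReal.ofReal (1 + ε) * volume (g '' A)) :
    RectE_Good lam g (ENNReal.ofReal ((1 + ε) ^ 2)) P := by
  have h1 : (0 : ℝ) ≤ 1 + ε := by linarith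
  have hsq : ENNReal.ofReal ((1 + ε) ^ 2) = ENNReal.ofReal (1 + ε) * ENNReal.ofReal (1 + ε) := by
    rw [sq, ENNReal.ofReal_mul h1]
  refine ⟨hP, (hflat P subset_rfl).1, fun A hA hm => ⟨?_, ?_⟩⟩
  · calc volume (g '' A) ≤ ENNReal.ofReal ((1 + ε) * J) * H A := (hflat A hA).2.1
      _ = ENNReal.ofReal (1 + ε) * ∫⁻ _ in A, ENNReal.ofReal J ∂H := by
          rw [ENNReal.ofReal_mul h1, setLIntegral_const, mul_assoc]
      _ ≤ ENNReal.ofReal (1 + ε) *
            ∫⁻ y in A, ENNReal.ofReal (1 + ε) * ENNReal.ofReal (f y) ∂H := by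
          gcongr ?_ * ?_
          · exact le_rfl
          refine setLIntegral_mono' hm fun y hy => ?_
          rw [← ENNReal.ofReal_mul h1]
          exact ENNReal.ofReal_le_ofReal (hJ1 y (hA hy))
      _ = ENNReal.ofReal ((1 + ε) ^ 2) * lam A := by
          rw [lintegral_const_mul _ hf.ennreal_ofReal, hlam A hA hm, hsq, mul_assoc]
  · calc lam A = ∫⁻ y in A, ENNReal.ofReal (f y) ∂H := hlam A hA hm
      _ ≤ ∫⁻ _ in A, ENNReal.ofReal ((1 + ε) * J) ∂H :=
          setLIntegral_mono' hm fun y hy => ENNReal.ofReal_le_ofReal (hJ2 y (hA hy))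
      _ = ENNReal.ofReal (1 + ε) * (ENNReal.ofReal J * H A) := by
          rw [ENNReal.ofReal_mul h1, setLIntegral_const, mul_assoc]
      _ ≤ ENNReal.ofReal (1 + ε) * (ENNReal.ofReal (1 + ε) * volume (g '' A)) := by
          gcongr ?_ * ?_
          · exact le_rfl
          exact (hflat A hA).2.2
      _ = ENNReal.ofReal ((1 + ε) ^ 2) * volume (g '' A) := by rw [hsq, mul_assoc]

/-- good neighbourhoods for a `C¹` map -/
theorem RectE_nhds {O : Set (E N)} {g : E N → E m} (hO : IsOpen O) (hg : ContDiffOn ℝ 1 g O)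
    {η : ℝ} (hη : 0 < η) {x : E N} (hx : x ∈ O) : ∃ U : Set (E N), IsOpen U ∧ x ∈ U ∧
      (∀ y ∈ U, ‖fderiv ℝ g y - fderiv ℝ g x‖ ≤ η) ∧
      ∀ y ∈ U, ∀ y' ∈ U, ‖g y - g y' - fderiv ℝ g x (y - y')‖ ≤ η * ‖y - y'‖ := by
  have hgx : ContDiffAt ℝ 1 g x := hg.contDiffAt (hO.mem_nhds hx)
  obtain ⟨V, hV, hVa⟩ := (hgx.hasStrictFDerivAt one_ne_zero).approximates_deriv_on_nhds
    (c := ⟨η, hη.le⟩) (Or.inr hη)
  have hc : ContinuousAt (fderiv ℝ g) x :=
    (hg.continuousOn_fderiv_of_isOpen hO le_rfl).continuousAt (hO.mem_nhds hx)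
  have hW : ∀ᶠ y in 𝓝 x, fderiv ℝ g y ∈ closedBall (fderiv ℝ g x) η :=
    hc (closedBall_mem_nhds _ hη)
  obtain ⟨U, hUs, hUo, hxU⟩ := _root_.mem_nhds_iff.1 (inter_mem hV hW)
  refine ⟨U, hUo, hxU, fun y hy => ?_, fun y hy y' hy' => hVa y (hUs hy).1 y' (hUs hy').1⟩
  have : fderiv ℝ g y ∈ closedBall (fderiv ℝ g x) η := (hUs hy).2
  rwa [mem_closedBall, dist_eq_norm] at this

/-- one stratum is covered by good pieces -/
theorem RectE_stratum {μ : Measure (E N)} [IsFiniteMeasure μ] (fr : Fr m N)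
    (h : ∀ᵐ y ∂μ, ∃ κ : ℝ, 1 ≤ κ ∧
      HasTangentPlane m μ y (Submodule.span ℝ (range fun i => fr.s i y)) κ)
    {O : Set (E N)} {g : E N → E m} (hO : IsOpen O) (hg : ContDiffOn ℝ 1 g O)
    {lam : Measure (E N)} {Z : Set (E N)} (hZ : MeasurableSet Z) (hZO : Z ⊆ O)
    (hlam : ∀ A, A ⊆ Z → MeasurableSet A →
      lam A = ∫⁻ y in A, ENNReal.ofReal (fr.jac g y) ∂(Measure.euclideanHausdorffMeasure m))
    {Λ j ε : ℝ} (hΛ : 1 ≤ Λ) (hj : 0 < j) (hε : 0 < ε) (hε1 : ε ≤ 1)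
    (hZΛ : ∀ y ∈ Z, ‖fderiv ℝ g y‖ ≤ Λ) (hZj : ∀ y ∈ Z, j ≤ fr.jac g y) :
    ∃ S : Set (Set (E N)), S.Countable ∧
      (∀ P ∈ S, RectE_Good lam g (ENNReal.ofReal ((1 + ε) ^ 2)) P) ∧ μ (Z \ ⋃₀ S) = 0 := by
  obtain ⟨η₀, hη₀, hflat⟩ := flat_piece m Λ (j / 2) hΛ (by positivity) ε hε
  obtain ⟨η₁, hη₁, hjac⟩ := RectE_jac_close m hΛ (δ := ε * j / 2) (by positivity)
  obtain ⟨η, hη, hη0, hη1⟩ : ∃ η : ℝ, 0 < η ∧ η ≤ η₀ ∧ η ≤ η₁ :=
    ⟨min η₀ η₁, lt_min hη₀ hη₁, min_le_left _ _, min_le_right _ _⟩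
  obtain ⟨Γ, t, hΓm, -, hΓ0, hto, hts, hcone⟩ := exists_cones fr h hη
  choose! U hUo hxU hUD hUa using fun x (hx : x ∈ O) => RectE_nhds hO hg hη hx
  obtain ⟨T, hTZ, hTc, hT⟩ := TopologicalSpace.countable_cover_nhdsWithin (f := U) (s := Z)
    fun x hx => mem_nhdsWithin_of_mem_nhds ((hUo x (hZO hx)).mem_nhds (hxU x (hZO hx)))
  refine ⟨⋃ x ∈ T, range fun k => Z ∩ U x ∩ Γ k, hTc.biUnion fun x _ => countable_range _,
    ?_, ?_⟩
  · intro P hP
    simp only [mem_iUnion, mem_range] at hP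
    obtain ⟨x, hxT, k, rfl⟩ := hP
    have hxZ := hTZ hxT
    have hxO := hZO hxZ
    rcases (Z ∩ U x ∩ Γ k).eq_empty_or_nonempty with he | ⟨y₀, hy₀⟩
    · rw [he]; exact RectE_Good_empty _ _ _
    have hclose : ∀ y ∈ Z ∩ U x ∩ Γ k, abs (fr.jac g y -
        (vol fun i => fderiv ℝ g x (t k i))) ≤ ε * j / 2 := fun y hy =>
      hjac (s := fun i => fr.s i y) hη.le hη1 (fr.orth y) (hto k) (hZΛ y hy.1.1)
        (hZΛ x hxZ) (hUD x hxO y hy.1.2) (hts k y hy.2)
    have hεj : ε * j ≤ j := by nlinarith only [hj, hε1]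
    have hJ : j / 2 ≤ (vol fun i => fderiv ℝ g x (t k i)) := by
      have := (abs_le.1 (hclose y₀ hy₀)).2
      have := hZj y₀ hy₀.1.1
      linarith
    refine RectE_good_of (H := Measure.euclideanHausdorffMeasure m)
      (J := (vol fun i => fderiv ℝ g x (t k i))) (RectE_jac_meas fr g)
      ((hZ.inter (hUo x hxO).measurableSet).inter (hΓm k)) hε
      (fun A hA hm => hlam A (fun y hy => (hA hy).1.1) hm) (fun y hy => ?_) (fun y hy => ?_)
      fun A hA => hflat A (t k) (fderiv ℝ g x) g (hto k) (hZΛ x hxZ) hJ fun y hy y' hy' => ⟨?_, ?_⟩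
    · have h1 := (abs_le.1 (hclose y hy)).1
      have h2 := hZj y hy.1.1
      nlinarith only [h1, hε, hεj, hJ, h2]
    · have h1 := (abs_le.1 (hclose y hy)).2
      nlinarith only [h1, hε, hJ]
    · exact (hcone k y (hA hy).2 y' (hA hy').2).2.trans
        (mul_le_mul_of_nonneg_right hη0 (norm_nonneg _))
    · exact (hUa x hxO y (hA hy).1.2 y' (hA hy').1.2).trans
        (mul_le_mul_of_nonneg_right hη0 (norm_nonneg _))
  · refine measure_mono_null (fun y hy => ?_) hΓ0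
    intro hyΓ
    obtain ⟨k, hk⟩ := mem_iUnion.1 hyΓ
    obtain ⟨x, hxT, hyx⟩ := mem_iUnion₂.1 (hT hy.1)
    exact hy.2 ⟨Z ∩ U x ∩ Γ k, mem_iUnion₂.2 ⟨x, hxT, k, rfl⟩, ⟨hy.1, hyx⟩, hk⟩

/-- Let `ν` be the Hausdorff measure on `M`; it has the same null sets as `μ`. Exhaust the part of
`O` where the Jacobian is positive by measurable sets `Z` with compact closure in `O` on which
`jac ≥ j₀` and `‖fderiv g‖ ≤ Λ`. For every `ε`, `exists_cones` with a small `η` (uniform
continuity of `fderiv g` near the closure, `L = fderiv g` at a point of the piece) splits `Z` into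
pieces to which `flat_piece` applies, as well as to all their subsets. Fix one such partition;
on a piece `Γ` the map `g` is injective and continuous, and refining the partition with `ε → 0`
gives `volume (g '' A) = ∫⁻ y in A, jac dν` for all measurable `A ⊆ Γ ∩ M`. Hence the image under
`g` of `jac θ ν` on `Γ` is Lebesgue measure on `g '' (Γ ∩ M)` with density `θ ∘ g⁻¹`
(`MeasurableEmbedding`, `MeasurableSet.image_of_continuousOn_injOn`); sum over the pieces. -/
theorem areaProp_of {μ : Measure (E N)} [IsFiniteMeasure μ] (fr : Fr m N) {M : Set (E N)}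
    {θ : E N → ℕ} (hM : MeasurableSet M) (hθ : Measurable θ) (h1 : ∀ x ∈ M, 1 ≤ θ x)
    (hμ : μ = ((Measure.euclideanHausdorffMeasure m).restrict M).withDensity
      fun x => (θ x : ℝ≥0∞))
    (h : ∀ᵐ y ∂μ, HasTangentPlane m μ y (Submodule.span ℝ (range fun i => fr.s i y)) (θ y)) :
    AreaProp fr μ := by
  intro O g hO hg hgm
  have hθm : Measurable fun x => (θ x : ℝ≥0∞) := measurable_from_top.comp hθ
  have hjm : Measurable fun y => ENNReal.ofReal (fr.jac g y) :=
    (RectE_jac_meas fr g).ennreal_ofReal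
  obtain ⟨ν, hν⟩ : ∃ ν : Measure (E N), ν = (Measure.euclideanHausdorffMeasure m).restrict M :=
    ⟨_, rfl⟩
  rw [← hν] at hμ
  have hνM : ∀ᵐ y ∂ν, y ∈ M := by rw [hν]; exact ae_restrict_mem hM
  have hμν : μ ≪ ν := by rw [hμ]; exact withDensity_absolutelyContinuous _ _
  have hνμ : ν ≪ μ := by
    rw [hμ]
    refine withDensity_absolutelyContinuous' hθm.aemeasurable (hνM.mono fun y hy => ?_)
    have := h1 y hy
    exact Nat.cast_ne_zero.2 (by omega)
  have h' : ∀ᵐ y ∂μ, ∃ κ : ℝ, 1 ≤ κ ∧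
      HasTangentPlane m μ y (Submodule.span ℝ (range fun i => fr.s i y)) κ := by
    filter_upwards [h, hμν.ae_le hνM] with y hy hyM
    exact ⟨θ y, by exact_mod_cast h1 y hyM, hy⟩
  obtain ⟨lam, hlam⟩ : ∃ lam : Measure (E N),
      lam = (ν.restrict O).withDensity fun y => ENNReal.ofReal (fr.jac g y) := ⟨_, rfl⟩
  have hlμ : lam ≪ μ := by
    rw [hlam]
    exact ((withDensity_absolutelyContinuous _ _).trans
      Measure.restrict_le_self.absolutelyContinuous).trans hνμ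
  have hlA : ∀ A, A ⊆ M ∩ O → MeasurableSet A →
      lam A = ∫⁻ y in A, ENNReal.ofReal (fr.jac g y) ∂(Measure.euclideanHausdorffMeasure m) := by
    intro A hA hm
    rw [hlam, withDensity_apply _ hm, hν, Measure.restrict_restrict hm,
      Measure.restrict_restrict (hm.inter hO.measurableSet),
      inter_eq_left.2 fun y hy => (hA hy).2, inter_eq_left.2 fun y hy => (hA hy).1]
  have hW : lam ((M ∩ O) ∩ {y | fr.jac g y ≠ 0})ᶜ = 0 := by
    have hWm : MeasurableSet ((M ∩ O) ∩ {y | fr.jac g y ≠ 0})ᶜ :=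
      ((hM.inter hO.measurableSet).inter
        (RectE_jac_meas fr g (measurableSet_singleton 0)).compl).compl
    rw [hlam, withDensity_apply _ hWm]
    refine (lintegral_congr_ae ?_).trans lintegral_zero
    filter_upwards [ae_restrict_mem hWm, ae_restrict_of_ae (ae_restrict_mem hO.measurableSet),
      ae_restrict_of_ae (ae_restrict_of_ae hνM)] with y hy hyO hyM
    have : fr.jac g y = 0 := by
      by_contra hne
      exact hy ⟨⟨hyM, hyO⟩, hne⟩
    rw [this, ENNReal.ofReal_zero]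
  have hcov : ∀ c : ℝ≥0∞, 1 < c → ∃ Q : ℕ → Set (E N), Pairwise (Function.onFun Disjoint Q) ∧
      (∀ k, RectE_Good lam g c (Q k)) ∧ lam (⋃ k, Q k)ᶜ = 0 := by
    intro c hc
    obtain ⟨ε, hε, hε1, hεc⟩ : ∃ ε : ℝ, 0 < ε ∧ ε ≤ 1 ∧ ENNReal.ofReal ((1 + ε) ^ 2) ≤ c := by
      obtain ⟨r, hr1, hrc⟩ := ENNReal.lt_iff_exists_nnreal_btwn.1 hc
      have hr : (1 : ℝ) < r := by exact_mod_cast hr1
      have ha : 0 < min 1 (((r : ℝ) - 1) / 3) := lt_min one_pos (by linarith only [hr])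
      have hb : min 1 (((r : ℝ) - 1) / 3) ≤ 1 := min_le_left _ _
      have hd : min 1 (((r : ℝ) - 1) / 3) ≤ ((r : ℝ) - 1) / 3 := min_le_right _ _
      refine ⟨_, ha, hb, le_trans ?_ hrc.le⟩
      rw [← ENNReal.ofReal_coe_nnreal]
      exact ENNReal.ofReal_le_ofReal (by nlinarith only [hd, ha, hb])
    let Z : ℕ → Set (E N) := fun q => (M ∩ O) ∩
      ({y | ‖fderiv ℝ g y‖ ≤ (q : ℝ) + 1} ∩ {y | 1 / ((q : ℝ) + 1) ≤ fr.jac g y})
    have hZm : ∀ q, MeasurableSet (Z q) := fun q => (hM.inter hO.measurableSet).inter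
      ((measurableSet_le (measurable_fderiv ℝ g).norm measurable_const).inter
        (measurableSet_le measurable_const (RectE_jac_meas fr g)))
    choose S hSc hSg hS0 using fun q : ℕ => RectE_stratum fr h' hO hg (lam := lam) (hZm q)
      (fun y hy => hy.1.2) (fun A hA hm => hlA A (fun y hy => (hA hy).1) hm)
      (Λ := (q : ℝ) + 1) (j := 1 / ((q : ℝ) + 1)) (le_add_of_nonneg_left (Nat.cast_nonneg q))
      (by positivity) hε hε1 (fun y hy => hy.2.1) fun y hy => hy.2.2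
    refine RectE_disj (S := ⋃ q, S q) (countable_iUnion hSc) (fun P hP => ?_) ?_
    · obtain ⟨q, hm⟩ := mem_iUnion.1 hP
      have hP' := hSg q P hm
      refine ⟨hP'.1, hP'.2.1, fun A hA hAm => ⟨(hP'.2.2 A hA hAm).1.trans ?_,
        (hP'.2.2 A hA hAm).2.trans ?_⟩⟩ <;> gcongr
    · refine measure_mono_null (t := ((M ∩ O) ∩ {y | fr.jac g y ≠ 0})ᶜ ∪ ⋃ q, (Z q \ ⋃₀ S q))
        (fun y hy => ?_) (measure_union_null hW (measure_iUnion_null fun q => hlμ (hS0 q)))
      by_cases hyW : y ∈ (M ∩ O) ∩ {y | fr.jac g y ≠ 0}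
      · have hpos : 0 < fr.jac g y := lt_of_le_of_ne (abs_nonneg _) (Ne.symm hyW.2)
        obtain ⟨q, hm⟩ := exists_nat_ge (max ‖fderiv ℝ g y‖ (1 / fr.jac g y))
        have hm1 : ‖fderiv ℝ g y‖ ≤ (q : ℝ) + 1 := by
          linarith [le_max_left ‖fderiv ℝ g y‖ (1 / fr.jac g y)]
        have hm2 : 1 / ((q : ℝ) + 1) ≤ fr.jac g y := by
          rw [one_div_le (by positivity) hpos]
          linarith [le_max_right ‖fderiv ℝ g y‖ (1 / fr.jac g y)]
        refine Or.inr (mem_iUnion.2 ⟨q, ⟨hyW.1, hm1, hm2⟩, ?_⟩)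
        rintro ⟨P, hP, hyP⟩
        exact hy ⟨P, mem_iUnion.2 ⟨q, hP⟩, hyP⟩
      · exact Or.inl hyW
  obtain ⟨θ', hθ', hint⟩ := RectE_abs hgm hθ hcov
  refine ⟨θ', hθ', fun ψ hψ => ?_⟩
  have hψg : Measurable fun y => ψ (g y) := hψ.comp hgm
  rw [← hint ψ hψ, hlam, hμ, restrict_withDensity hO.measurableSet,
    lintegral_withDensity_eq_lintegral_mul _ hθm (hψg.fun_mul hjm),
    lintegral_withDensity_eq_lintegral_mul _ hjm (hψg.fun_mul hθm)]
  congr 1
  ext y
  simp only [Pi.mul_apply]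
  ring

end Pool.Agent.MP_f6c0e6_an.Gen

end

section

/-! The blow-ups satisfy the global hypotheses. -/

set_option autoImplicit false

open MeasureTheory Filter Topology Set Metric
open scoped ENNReal RealInnerProductSpace

namespace Pool.Agent.MP_f6c0e6_an.Gen

variable {m N : ℕ}

theorem StartB_cont_gam : Continuous gam := contDiff_gam.continuous

/-- the auxiliary cut-off function -/
noncomputable def StartB_chi (z : E N) : ℝ := max (3 - ‖z‖) 0

theorem StartB_chi_cont : Continuous (StartB_chi (N := N)) := by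
  unfold StartB_chi; fun_prop

theorem StartB_chi_nonneg (z : E N) : 0 ≤ StartB_chi z := le_max_right _ _

theorem StartB_chi_ge {z : E N} (hz : ‖z‖ ≤ 2) : 1 ≤ StartB_chi z :=
  le_max_of_le_left (by linarith only [hz])

theorem StartB_chi_cpt : HasCompactSupport (StartB_chi (N := N)) := by
  refine HasCompactSupport.intro (isCompact_closedBall (0 : E N) 3) fun z hz => ?_
  have : 3 < ‖z‖ := by simpa [mem_closedBall, dist_zero_right] using hz
  exact max_eq_right (by linarith only [this])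

/-- the kernel at radius one quarter -/
noncomputable def StartB_ph (y z : E N) : ℝ := gam (‖z - y‖ ^ 2 / (1 / 4) ^ 2)

theorem StartB_ph_cont (y : E N) : Continuous (StartB_ph y) := by
  unfold StartB_ph
  exact StartB_cont_gam.comp (by fun_prop)

theorem StartB_ph_zero {y z : E N} (h : 1 / 4 ≤ ‖z - y‖) : StartB_ph y z = 0 := by
  apply gam_eq_zero
  rw [le_div_iff₀ (by norm_num)]
  nlinarith only [h]

theorem StartB_ph_cpt (y : E N) : HasCompactSupport (StartB_ph y) := by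
  refine HasCompactSupport.intro (isCompact_closedBall y (1 / 4)) fun z hz => ?_
  have : 1 / 4 < ‖z - y‖ := by simpa [mem_closedBall, dist_eq_norm] using hz
  exact StartB_ph_zero this.le

theorem StartB_ph_le {y y' : E N} (hy : ‖y‖ ≤ 1) (hy' : ‖y'‖ ≤ 1) (z : E N) :
    StartB_ph y z ≤ StartB_ph y' z + 400 * ‖y - y'‖ * StartB_chi z := by
  by_cases hz : ‖z‖ ≤ 2
  · have h1 := StartB_chi_ge hz
    have h2 := gam_lip (a := ‖z - y‖ ^ 2 / (1 / 4) ^ 2) (b := ‖z - y'‖ ^ 2 / (1 / 4) ^ 2)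
      (by positivity) (by positivity)
    have h3 : |‖z - y‖ - ‖z - y'‖| ≤ ‖y - y'‖ := by
      have := abs_norm_sub_norm_le (z - y) (z - y')
      rwa [show z - y - (z - y') = -(y - y') by abel, norm_neg] at this
    have h4 : ‖z - y‖ ≤ 3 := (norm_sub_le _ _).trans (by linarith only [hy, hz])
    have h5 : ‖z - y'‖ ≤ 3 := (norm_sub_le _ _).trans (by linarith only [hy', hz])
    have h6 : |‖z - y‖ ^ 2 / (1 / 4) ^ 2 - ‖z - y'‖ ^ 2 / (1 / 4) ^ 2| ≤ 96 * ‖y - y'‖ := by
      rw [show ‖z - y‖ ^ 2 / (1 / 4) ^ 2 - ‖z - y'‖ ^ 2 / (1 / 4) ^ 2 =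
        (16 * (‖z - y‖ + ‖z - y'‖)) * (‖z - y‖ - ‖z - y'‖) by ring, abs_mul,
        abs_of_nonneg (by positivity)]
      exact mul_le_mul (by linarith only [h4, h5]) h3 (abs_nonneg _) (by norm_num)
    have h7 := (abs_le.1 h2).2
    have h8 : ‖y - y'‖ ≤ ‖y - y'‖ * StartB_chi z := le_mul_of_one_le_right (norm_nonneg _) h1
    have h9 := norm_nonneg (y - y')
    unfold StartB_ph
    linarith only [h6, h7, h8, h9]
  · have h1 : 1 / 4 ≤ ‖z - y‖ := by
      have := norm_sub_norm_le z y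
      linarith only [hy, this, not_le.1 hz]
    rw [StartB_ph_zero h1]
    have h2 : 0 ≤ StartB_ph y' z := gam_nonneg _
    have h3 := StartB_chi_nonneg z
    positivity

theorem StartB_integrable {μ : Measure (E N)} [IsFiniteMeasure μ] {f : E N → ℝ}
    (hf : Continuous f) (hc : HasCompactSupport f) (x₀ : E N) (r : ℝ) :
    Integrable (fun x => f (r⁻¹ • (x - x₀))) μ := by
  obtain ⟨C, hC⟩ := hf.bounded_above_of_compact_support hc
  refine Integrable.of_bound (C := C) ?_ (Eventually.of_forall fun x => hC _)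
  exact (hf.comp (by fun_prop)).aestronglyMeasurable

theorem StartB_pr_inner (ι : E m →ₗᵢ[ℝ] E N) (z : E N) (w : E m) : ⟪pr ι z, w⟫ = ⟪z, ι w⟫ := by
  unfold pr
  rw [ContinuousLinearMap.adjoint_inner_left]
  rfl

theorem StartB_pr_iota (ι : E m →ₗᵢ[ℝ] E N) (ξ : E m) : pr ι (ι ξ) = ξ := by
  refine ext_inner_right ℝ fun w => ?_
  rw [StartB_pr_inner, ι.inner_map_map]

theorem StartB_pyth (ι : E m →ₗᵢ[ℝ] E N) (z : E N) :
    ‖vt ι z‖ ^ 2 + ‖pr ι z‖ ^ 2 = ‖z‖ ^ 2 := by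
  unfold vt
  rw [norm_sub_sq_real, ← StartB_pr_inner, real_inner_self_eq_norm_sq, ι.norm_map]
  ring

theorem StartB_vt_le (ι : E m →ₗᵢ[ℝ] E N) (z : E N) (ξ : E m) : ‖vt ι z‖ ≤ ‖z - ι ξ‖ := by
  have e : vt ι (z - ι ξ) = vt ι z := by
    unfold vt
    rw [map_sub, StartB_pr_iota, map_sub]
    abel
  have h := StartB_pyth ι (z - ι ξ)
  rw [e] at h
  exact (pow_le_pow_iff_left₀ (norm_nonneg _) (norm_nonneg _) two_ne_zero).1
    (by linarith only [h, sq_nonneg ‖pr ι (z - ι ξ)‖])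

theorem StartB_plane (ι : E m →ₗᵢ[ℝ] E N) (y : E N) :
    4 ^ m * ∫ ξ : E m, StartB_ph y (ι ξ) ≤ cg m := by
  have key : ∀ ξ : E m, ‖ξ - pr ι y‖ ^ 2 ≤ ‖ι ξ - y‖ ^ 2 := by
    intro ξ
    have h := StartB_pyth ι (ι ξ - y)
    rw [map_sub, StartB_pr_iota] at h
    linarith only [h, sq_nonneg ‖vt ι (ι ξ - y)‖]
  have hr : (0 : ℝ) < 1 / 4 := by norm_num
  have hint := integral_gam hr (pr ι y)
  have hc := cg_pos m
  have hI : Integrable fun x : E m => gam (‖x - pr ι y‖ ^ 2 / (1 / 4) ^ 2) := by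
    by_contra h
    rw [integral_undef h] at hint
    exact (show (0 : ℝ) < cg m * (1 / 4) ^ m by positivity).ne hint
  have h3 : ∫ ξ : E m, StartB_ph y (ι ξ) ≤
      ∫ x : E m, gam (‖x - pr ι y‖ ^ 2 / (1 / 4) ^ 2) := by
    refine integral_mono_of_nonneg (Eventually.of_forall fun ξ => gam_nonneg _)
      hI (Eventually.of_forall fun ξ => ?_)
    exact gam_anti (div_le_div_of_nonneg_right (key ξ) (by norm_num))
  rw [hint] at h3
  calc (4 : ℝ) ^ m * ∫ ξ : E m, StartB_ph y (ι ξ) ≤ 4 ^ m * (cg m * (1 / 4) ^ m) :=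
        mul_le_mul_of_nonneg_left h3 (by positivity)
    _ = cg m := by
        rw [one_div, inv_pow]
        field_simp

theorem StartB_mk_eq (μ : Measure (E N)) (x₀ y : E N) {r : ℝ} (hr : 0 < r) :
    mk m μ (x₀ + r • y) (r * (1 / 4)) =
      4 ^ m * ((r ^ m)⁻¹ * ∫ x, StartB_ph y (r⁻¹ • (x - x₀)) ∂μ) := by
  unfold mk StartB_ph
  have e : ∀ x : E N, ‖x - (x₀ + r • y)‖ ^ 2 / (r * (1 / 4)) ^ 2 =
      ‖r⁻¹ • (x - x₀) - y‖ ^ 2 / (1 / 4) ^ 2 := by
    intro x
    have : x - (x₀ + r • y) = r • (r⁻¹ • (x - x₀) - y) := by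
      rw [smul_sub, smul_smul, mul_inv_cancel₀ hr.ne', one_smul]; abel
    rw [this, norm_smul, Real.norm_eq_abs, abs_of_pos hr]
    field_simp
  simp only [e]
  rw [← mul_assoc]
  congr 1
  rw [mul_pow, one_div, inv_pow, mul_inv, inv_inv, mul_comm]

theorem StartB_upper {μ : Measure (E N)} [IsFiniteMeasure μ] {x₀ : E N} {Q : ℕ}
    (ι : E m →ₗᵢ[ℝ] E N) {P : Submodule ℝ (E N)}
    (hP : (P : Set (E N)) = range ι) (htan : HasTangentPlane m μ x₀ P Q) {η : ℝ}
    (hη : 0 < η) : ∀ᶠ r in 𝓝[>] (0 : ℝ), ∀ y ∈ closedBall (0 : E N) (1 / 2),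
      mk m μ (x₀ + r • y) (r * (1 / 4)) ≤ Q * cg m + η := by
  obtain ⟨M, hM0, hM⟩ : ∃ M : ℝ, 0 < M ∧ ∀ᶠ r in 𝓝[>] (0 : ℝ),
      (r ^ m)⁻¹ * ∫ x, StartB_chi (r⁻¹ • (x - x₀)) ∂μ ≤ M := by
    have h := htan.2 StartB_chi StartB_chi_cont StartB_chi_cpt
    refine ⟨|(Q : ℝ) * ∫ y in (P : Set (E N)), StartB_chi y
      ∂(Measure.euclideanHausdorffMeasure m)| + 1, by positivity, ?_⟩
    exact h.eventually (eventually_le_nhds (by linarith only [le_abs_self ((Q : ℝ) *
      ∫ y in (P : Set (E N)), StartB_chi y ∂(Measure.euclideanHausdorffMeasure m))]))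
  obtain ⟨F, hF⟩ : ∃ F : ℝ, F = 4 ^ m := ⟨_, rfl⟩
  have hF0 : 0 < F := by rw [hF]; positivity
  obtain ⟨η', hη'⟩ : ∃ η' : ℝ, η' = η / (2 * F) := ⟨_, rfl⟩
  have hη0 : 0 < η' := by rw [hη']; positivity
  have hηF : F * η' = η / 2 := by rw [hη']; field_simp
  have main : ∀ᶠ r in 𝓝 (0 : ℝ), ∀ y ∈ closedBall (0 : E N) (1 / 2), 0 < r →
      mk m μ (x₀ + r • y) (r * (1 / 4)) ≤ Q * cg m + η := by
    refine (isCompact_closedBall (0 : E N) (1 / 2)).eventually_forall_of_forall_eventually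
      (P := fun r y => 0 < r → mk m μ (x₀ + r • y) (r * (1 / 4)) ≤ Q * cg m + η)
      fun y' hy' => ?_
    have hy1 : ‖y'‖ ≤ 1 / 2 := by simpa [mem_closedBall, dist_zero_right] using hy'
    have h := htan.2 (StartB_ph y') (StartB_ph_cont y') (StartB_ph_cpt y')
    rw [hP, integral_plane ι] at h
    have hpl := StartB_plane ι y'
    rw [← hF] at hpl
    have hQ : (0 : ℝ) ≤ Q := Nat.cast_nonneg Q
    have h1 : ∀ᶠ r in 𝓝[>] (0 : ℝ), (r ^ m)⁻¹ * ∫ x, StartB_ph y' (r⁻¹ • (x - x₀)) ∂μ ≤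
        Q * (∫ ξ : E m, StartB_ph y' (ι ξ)) + η' :=
      h.eventually (eventually_le_nhds (by linarith only [hη0]))
    have h3 := eventually_nhdsWithin_iff.1 (h1.and hM)
    set δ : ℝ := min (1 / 2) (η' / (400 * M)) with hδ
    have hδ0 : 0 < δ := lt_min (by norm_num) (by positivity)
    rw [nhds_prod_eq]
    filter_upwards [h3.prod_mk (ball_mem_nhds y' hδ0)] with q hq hr
    obtain ⟨r, y⟩ := q
    obtain ⟨hq1, hq2⟩ := hq
    obtain ⟨ha, hb⟩ := hq1 hr
    have hyy : ‖y - y'‖ < δ := by simpa [mem_ball, dist_eq_norm] using hq2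
    have hy2 : ‖y‖ ≤ 1 := by
      have := norm_sub_norm_le y y'
      linarith only [hy1, hδ, hyy, this, min_le_left (1 / 2 : ℝ) (η' / (400 * M))]
    simp only at hr ha hb ⊢
    rw [StartB_mk_eq μ x₀ y hr, ← hF]
    have i1 := StartB_integrable (μ := μ) (StartB_ph_cont y) (StartB_ph_cpt y) x₀ r
    have i2 := StartB_integrable (μ := μ) (StartB_ph_cont y') (StartB_ph_cpt y') x₀ r
    have i3 := StartB_integrable (μ := μ) StartB_chi_cont StartB_chi_cpt x₀ r
    have h4 : ∫ x, StartB_ph y (r⁻¹ • (x - x₀)) ∂μ ≤ ∫ x, StartB_ph y' (r⁻¹ • (x - x₀)) ∂μ +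
        400 * ‖y - y'‖ * ∫ x, StartB_chi (r⁻¹ • (x - x₀)) ∂μ := by
      rw [← integral_const_mul, ← integral_add i2 (i3.const_mul _)]
      exact integral_mono i1 (i2.add (i3.const_mul _)) fun x =>
        StartB_ph_le hy2 (by linarith only [hy1]) _
    have h5 : (0 : ℝ) ≤ (r ^ m)⁻¹ := by positivity
    have h6 := mul_le_mul_of_nonneg_left h4 h5
    have h7 : 400 * ‖y - y'‖ * M ≤ η' := by
      have : ‖y - y'‖ ≤ η' / (400 * M) := hyy.le.trans (min_le_right _ _)
      rw [le_div_iff₀ (by positivity)] at this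
      linarith only [this]
    have h8 : 400 * ‖y - y'‖ * ((r ^ m)⁻¹ * ∫ x, StartB_chi (r⁻¹ • (x - x₀)) ∂μ) ≤
        400 * ‖y - y'‖ * M := mul_le_mul_of_nonneg_left hb (by positivity)
    have h9 : (r ^ m)⁻¹ * ∫ x, StartB_ph y (r⁻¹ • (x - x₀)) ∂μ ≤
        Q * (∫ ξ : E m, StartB_ph y' (ι ξ)) + 2 * η' := by linarith only [ha, h6, h7, h8]
    have h10 := mul_le_mul_of_nonneg_left h9 hF0.le
    have h11 := mul_le_mul_of_nonneg_left hpl hQ
    linarith only [h10, h11, hηF]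
  filter_upwards [nhdsWithin_le_nhds main, self_mem_nhdsWithin] with r hr hr0 y hy
  exact hr y hy hr0

theorem StartB_flat {μ : Measure (E N)} [IsFiniteMeasure μ] {fr : Fr m N} {x₀ : E N} {r₀ : ℝ}
    (hr₀ : 0 < r₀) {Q : ℕ} (ι : E m →ₗᵢ[ℝ] E N) {P : Submodule ℝ (E N)}
    (hP : (P : Set (E N)) = range ι) (htan : HasTangentPlane m μ x₀ P Q)
    (hstat : Stat fr μ (ball x₀ r₀)) {T0 : ℝ} (hT : 0 < T0) :
    ∀ᶠ r in 𝓝[>] (0 : ℝ), ∀ y ∈ ball x₀ r, LD m μ y (cg m) →
      ∃ ξ, ‖r⁻¹ • (y - x₀) - ι ξ‖ ≤ T0 := by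
  set T : ℝ := min T0 1 with hTdef
  have hT0 : 0 < T := lt_min hT one_pos
  have hT1 : T ≤ 1 := min_le_right _ _
  have hT2 : T ≤ T0 := min_le_left _ _
  set f : E N → ℝ := fun z => StartB_chi z * infDist z (P : Set (E N)) with hf
  have hfc : Continuous f := StartB_chi_cont.mul (continuous_infDist_pt _)
  have hfs : HasCompactSupport f := StartB_chi_cpt.mul_right
  have hf0 : ∀ z, 0 ≤ f z := fun z => mul_nonneg (StartB_chi_nonneg z) infDist_nonneg
  have h := htan.2 f hfc hfs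
  have hz : ∫ y in (P : Set (E N)), f y ∂(Measure.euclideanHausdorffMeasure m) = 0 := by
    refine setIntegral_eq_zero_of_forall_eq_zero fun y hy => ?_
    simp only [hf, infDist_zero_of_mem hy, mul_zero]
  rw [hz, mul_zero] at h
  have hpi := cg_pos m
  have h1 := h.eventually (eventually_lt_nhds
    (show (0 : ℝ) < (T / 2) ^ (m + 1) * cg m by positivity))
  filter_upwards [h1, Ioo_mem_nhdsGT (show (0 : ℝ) < r₀ / 2 by positivity)] with r hr hr1 y hy hLD
  obtain ⟨hr0, hr2⟩ := hr1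
  by_contra hcon
  push Not at hcon
  have hne : (P : Set (E N)).Nonempty := ⟨0, P.zero_mem⟩
  have hd : T ≤ infDist (r⁻¹ • (y - x₀)) (P : Set (E N)) := by
    rw [le_infDist hne]
    intro z hz
    rw [hP] at hz
    obtain ⟨ξ, rfl⟩ := hz
    rw [dist_eq_norm]
    linarith only [hT2, hcon ξ]
  have hyn : ‖y - x₀‖ < r := by simpa [mem_ball, dist_eq_norm] using hy
  have hρ : 0 < T * r / 2 := by positivity
  have hρr : T * r / 2 ≤ r / 2 := by nlinarith only [hT1, hr0]
  have hsub : ball y (T * r / 2) ⊆ ball x₀ r₀ := by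
    intro x hx
    have : ‖x - y‖ < T * r / 2 := by simpa [mem_ball, dist_eq_norm] using hx
    rw [mem_ball, dist_eq_norm]
    have h3 := norm_add_le (x - y) (y - x₀)
    rw [sub_add_sub_cancel] at h3
    linarith only [hr2, hyn, hρ, hρr, this, h3]
  have hpt : ∀ x ∈ ball y (T * r / 2), T / 2 ≤ f (r⁻¹ • (x - x₀)) := by
    intro x hx
    have hxy : ‖x - y‖ < T * r / 2 := by simpa [mem_ball, dist_eq_norm] using hx
    have e1 : dist (r⁻¹ • (y - x₀)) (r⁻¹ • (x - x₀)) ≤ T / 2 := by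
      rw [dist_eq_norm, ← smul_sub, norm_smul, Real.norm_eq_abs, abs_of_pos (inv_pos.2 hr0),
        show y - x₀ - (x - x₀) = -(x - y) by abel, norm_neg, inv_mul_le_iff₀ hr0]
      linarith only [hxy]
    have e2 := infDist_le_infDist_add_dist (x := r⁻¹ • (y - x₀)) (y := r⁻¹ • (x - x₀))
      (s := (P : Set (E N)))
    have e3 : ‖r⁻¹ • (x - x₀)‖ ≤ 2 := by
      rw [norm_smul, Real.norm_eq_abs, abs_of_pos (inv_pos.2 hr0), inv_mul_le_iff₀ hr0]
      have h5 := norm_add_le (x - y) (y - x₀)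
      rw [sub_add_sub_cancel] at h5
      linarith only [hyn, hρ, hρr, hxy, h5]
    have e4 := StartB_chi_ge e3
    have e5 : T / 2 ≤ infDist (r⁻¹ • (x - x₀)) (P : Set (E N)) := by linarith only [hd, e1, e2]
    calc T / 2 ≤ 1 * infDist (r⁻¹ • (x - x₀)) (P : Set (E N)) := by linarith only [e5]
      _ ≤ _ := mul_le_mul_of_nonneg_right e4 infDist_nonneg
  have hI := StartB_integrable (μ := μ) hfc hfs x₀ r
  have h5 : T / 2 * (μ (ball y (T * r / 2))).toReal ≤ ∫ x, f (r⁻¹ • (x - x₀)) ∂μ := by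
    calc T / 2 * (μ (ball y (T * r / 2))).toReal
        ≤ ∫ x in ball y (T * r / 2), f (r⁻¹ • (x - x₀)) ∂μ :=
          setIntegral_ge_of_const_le_real measurableSet_ball (measure_ne_top _ _) hpt
            hI.integrableOn
      _ ≤ _ := setIntegral_le_integral hI (Eventually.of_forall fun x => hf0 _)
  have h6 : cg m * (T * r / 2) ^ m ≤ (μ (ball y (T * r / 2))).toReal :=
    LD.le_ball hstat hLD hρ hsub
  have h7 : T / 2 * (cg m * (T * r / 2) ^ m) ≤ ∫ x, f (r⁻¹ • (x - x₀)) ∂μ :=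
    (mul_le_mul_of_nonneg_left h6 (by positivity)).trans h5
  rw [inv_mul_lt_iff₀ (by positivity)] at hr
  have h8 : T / 2 * (cg m * (T * r / 2) ^ m) = r ^ m * ((T / 2) ^ (m + 1) * cg m) := by
    rw [show T * r / 2 = T / 2 * r by ring, mul_pow]
    ring
  rw [h8] at h7
  exact absurd hr (not_lt.2 h7)

/-- The blow-ups satisfy the global hypotheses. Upper bound: by `mono_one` it is enough to treat
the radius `r / 4`; the functions `gam (16 |x - y|²)`, `|y| ≤ 1 / 2`, are uniformly Lipschitz in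
`y`, take a finite net; the limit is `4 ^ m Q ∫ gam (16 |ι ξ - y|²) ≤ Q cg m`. Flatness: a good
point of `ball x₀ r` at distance more than `T0 r` from the plane has mass at least `c (T0 r) ^ m` in
the ball of radius `T0 r / 2` (`LD.le_ball`, we may assume `T0 ≤ 1`), while a
continuous function vanishing on the plane has a small integral. Take
`eH ρ = min e0 (ρ r)^(-m) μ (Gdᶜ ∩ ball x₀ (ρ r))`. -/
theorem exists_glob {μ : Measure (E N)} [IsFiniteMeasure μ] {fr : Fr m N} {x₀ : E N} {r₀ : ℝ}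
    (hr₀ : 0 < r₀) {Q : ℕ} (ι : E m →ₗᵢ[ℝ] E N) {P : Submodule ℝ (E N)}
    (hP : (P : Set (E N)) = range ι) (htan : HasTangentPlane m μ x₀ P Q)
    (hstat : Stat fr μ (ball x₀ r₀)) (harea : AreaProp fr μ) {Gd : Set (E N)}
    (hGd : MeasurableSet Gd) (hae : ∀ᵐ y ∂μ, LD m μ y (cg m) ∧ (y ∈ Gd → LD m μ y (Q * cg m)))
    (hH : Tendsto (fun r : ℝ => (r ^ m)⁻¹ * (μ (Gdᶜ ∩ ball x₀ r)).toReal) (𝓝[>] 0) (𝓝 0))
    {e0 T0 : ℝ} (he : 0 < e0) (hT : 0 < T0) :
    ∃ r, 0 < r ∧ r ≤ r₀ ∧ ∃ G : Glob m N Q e0 T0,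
      G.μ = (scl m μ x₀ r).restrict (ball 0 1) ∧ G.ι = ι := by
  have hc := cg_pos m
  have hU := StartB_upper ι hP htan (show 0 < 1 / 1000 * cg m by positivity)
  have hF := StartB_flat hr₀ ι hP htan hstat hT
  have hE := hH.eventually (eventually_le_nhds he)
  obtain ⟨r₁, hr₁, hE'⟩ := (nhdsGT_basis (0 : ℝ)).eventually_iff.1 hE
  obtain ⟨r, ⟨⟨hU', hF'⟩, hr0, hrr⟩, -, hr1⟩ := (((hU.and hF).and
    (Ioo_mem_nhdsGT hr₀)).and (Ioo_mem_nhdsGT hr₁)).exists
  have hback : ∀ y : E N, x₀ + r • (r⁻¹ • (y - x₀)) = y := by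
    intro y
    rw [smul_smul, mul_inv_cancel₀ hr0.ne', one_smul]; abel
  have hnorm : ∀ y : E N, ‖r⁻¹ • (y - x₀)‖ = r⁻¹ * ‖y - x₀‖ := by
    intro y
    rw [norm_smul, Real.norm_eq_abs, abs_of_pos (inv_pos.2 hr0)]
  have hmG : MeasurableSet ((fun y : E N => x₀ + r • y) ⁻¹' Gd) :=
    (show Measurable fun y : E N => x₀ + r • y by fun_prop) hGd
  have hfin : IsFiniteMeasure (scl m μ x₀ r) := scl_finite μ x₀ r
  have hsub1 : ball (0 : E N) 1 ⊆ (fun y : E N => x₀ + r • y) ⁻¹' ball x₀ r₀ := by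
    intro y hy
    have hy1 : ‖y‖ < 1 := by simpa [mem_ball, dist_zero_right] using hy
    rw [mem_preimage, mem_ball, dist_eq_norm, add_sub_cancel_left, norm_smul, Real.norm_eq_abs,
      abs_of_pos hr0]
    nlinarith only [hr0, hrr, hy1]
  have b5 : ∀ y ∈ ball (0 : E N) 1, ∀ κ : ℝ, LD m μ (x₀ + r • y) κ →
      LD m ((scl m μ x₀ r).restrict (ball 0 1)) y κ := fun y hy κ h =>
    (LD.scl hr0 h).restrict isOpen_ball hy
  refine ⟨r, hr0, hrr.le,
    { fr := fr.scl x₀ r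
      μ := (scl m μ x₀ r).restrict (ball 0 1)
      ι := ι
      Gd := (fun y : E N => x₀ + r • y) ⁻¹' Gd
      eH := fun ρ => min e0 (((ρ * r) ^ m)⁻¹ * (μ (Gdᶜ ∩ ball x₀ (ρ * r))).toReal)
      fin := inferInstance
      stat := (hstat.scl x₀ hr0).restrict isOpen_ball hsub1
      mGd := hmG
      ae := ?_
      upper := ?_
      centre := ?_
      area := (harea.scl x₀ hr0).restrict isOpen_ball
      small := ?_
      eH_le := fun ρ => min_le_left _ _
      eH_lim := ?_ }, rfl, rfl⟩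
  · rw [ae_restrict_iff' measurableSet_ball, ae_scl μ x₀ hr0]
    filter_upwards [hae] with y hy hmem
    have hyb : y ∈ ball x₀ r := by
      rw [mem_ball, dist_zero_right, hnorm, inv_mul_lt_iff₀ hr0] at hmem
      rw [mem_ball, dist_eq_norm]
      linarith only [hmem]
    obtain ⟨ξ, hξ⟩ := hF' y hyb hy.1
    refine ⟨hmem, b5 _ hmem _ (by rw [hback]; exact hy.1), fun hG => ?_,
      (StartB_vt_le ι _ ξ).trans hξ⟩
    refine b5 _ hmem _ ?_
    rw [hback]
    apply hy.2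
    have : x₀ + r • (r⁻¹ • (y - x₀)) ∈ Gd := hG
    rwa [hback] at this
  · intro y hy ρ hρ hρ4
    have hyn : ‖y‖ < 1 / 2 := by simpa [mem_ball, dist_zero_right] using hy
    have hsub : ball (x₀ + r • y) (r * (1 / 4)) ⊆ ball x₀ r₀ := by
      intro x hx
      have h3 : ‖x - (x₀ + r • y)‖ < r * (1 / 4) := by simpa [mem_ball, dist_eq_norm] using hx
      rw [mem_ball, dist_eq_norm]
      have h4 := norm_add_le (x - (x₀ + r • y)) (r • y)
      rw [show x - (x₀ + r • y) + r • y = x - x₀ by abel, norm_smul, Real.norm_eq_abs,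
        abs_of_pos hr0] at h4
      nlinarith only [hr0, hrr, hyn, h3, h4]
    calc mk m ((scl m μ x₀ r).restrict (ball 0 1)) y ρ ≤ mk m (scl m μ x₀ r) y ρ :=
          mk_mono Measure.restrict_le_self y hρ
      _ = mk m μ (x₀ + r • y) (r * ρ) := mk_scl μ x₀ hr0 y ρ
      _ ≤ mk m μ (x₀ + r • y) (r * (1 / 4)) :=
          mono_one hstat (by positivity) (mul_le_mul_of_nonneg_left hρ4 hr0.le) hsub
      _ ≤ Q * cg m + 1 / 1000 * cg m := hU' y (ball_subset_closedBall hy)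
      _ = _ := by ring
  · refine b5 0 (mem_ball_self one_pos) _ ?_
    rw [smul_zero, add_zero]
    exact LD_of_tangent htan le_rfl
  · intro ρ hρ hρ1
    rw [Measure.restrict_apply (hmG.compl.inter measurableSet_ball), scl_apply μ x₀ hr0]
    have hρr : 0 < ρ * r := by positivity
    have hρr' : ρ * r ≤ r := by nlinarith only [hρ, hρ1, hρr, hr0]
    have hset : (fun y : E N => r⁻¹ • (y - x₀)) ⁻¹'
        (((fun y : E N => x₀ + r • y) ⁻¹' Gd)ᶜ ∩ ball 0 ρ ∩ ball 0 1) =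
        Gdᶜ ∩ ball x₀ (ρ * r) := by
      ext y
      simp only [mem_inter_iff, mem_preimage, mem_compl_iff, hback, mem_ball, dist_eq_norm,
        sub_zero, hnorm, inv_mul_lt_iff₀ hr0]
      constructor
      · rintro ⟨⟨h3, h4⟩, -⟩
        exact ⟨h3, by linarith only [h4]⟩
      · rintro ⟨h3, h4⟩
        exact ⟨⟨h3, by linarith only [h4]⟩, by linarith only [hρr', h4]⟩
    rw [hset]
    have h3 := hE' (show ρ * r ∈ Ioo 0 r₁ from ⟨hρr, by linarith only [hr1, hρr']⟩)
    rw [min_eq_right h3]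
    apply le_of_eq
    rw [mul_pow]
    field_simp
  · have h3 : Tendsto (fun ρ : ℝ => ρ * r) (𝓝[>] 0) (𝓝[>] 0) := by
      refine tendsto_nhdsWithin_iff.2 ⟨?_, ?_⟩
      · have : Tendsto (fun ρ : ℝ => ρ * r) (𝓝 0) (𝓝 (0 * r)) :=
          (continuous_id.mul continuous_const).tendsto 0
        rw [zero_mul] at this
        exact this.mono_left nhdsWithin_le_nhds
      · filter_upwards [self_mem_nhdsWithin] with ρ hρ
        exact mul_pos hρ hr0
    have h4 := (tendsto_const_nhds (x := e0)).min (hH.comp h3)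
    rw [min_eq_right he.le] at h4
    exact h4

end Pool.Agent.MP_f6c0e6_an.Gen

end
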