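import Pool.Agent.MP_f6c0e6_an.All.Basic

section

/-! The truncated Newtonian potential. -/

set_option autoImplicit false

open MeasureTheory Filter Topology Set Metric
open scoped ENNReal RealInnerProductSpace

namespace Pool.Agent.MP_f6c0e6_an.Gen

variable {m N : ℕ}

/-! ### Differentiation under the integral sign -/

theorem KernB_part {G : Type} [NormedAddCommGroup G] [NormedSpace ℝ G] {n k : WithTop ℕ∞}
    {F : ℝ → E m → G} (hF : ContDiff ℝ k fun q : ℝ × E m => F q.1 q.2) (h : n + 1 ≤ k) :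
    ContDiff ℝ n fun q : ℝ × E m => fderiv ℝ (F q.1) q.2 := by
  have h1 : ContDiff ℝ k (Function.uncurry fun (q : ℝ × E m) (y : E m) => F q.1 y) :=
    hF.comp (contDiff_fst.fst.prodMk contDiff_snd)
  exact ContDiff.fderiv h1 contDiff_snd h

theorem KernB_slice {G : Type} [TopologicalSpace G]
    {F : ℝ → E m → G} (hF : Continuous fun q : ℝ × E m => F q.1 q.2) (x : E m) :
    Continuous fun s => F s x :=
  hF.comp (continuous_id.prodMk continuous_const)

theorem KernB_has {G : Type} [NormedAddCommGroup G] [NormedSpace ℝ G]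
    {F : ℝ → E m → G} (hF : ContDiff ℝ 1 fun q : ℝ × E m => F q.1 q.2) (α β : ℝ) (x : E m) :
    HasFDerivAt (fun y => ∫ s in α..β, F s y) (∫ s in α..β, fderiv ℝ (F s) x) x := by
  have hD : Continuous fun q : ℝ × E m => fderiv ℝ (F q.1) q.2 :=
    (KernB_part (n := 0) hF (by norm_num)).continuous
  obtain ⟨C, hC⟩ := ((isCompact_uIcc (a := α) (b := β)).prod
    (isCompact_closedBall x 1)).exists_bound_of_continuousOn hD.continuousOn
  refine intervalIntegral.hasFDerivAt_integral_of_dominated_of_fderiv_le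
    (F := fun y s => F s y) (F' := fun y s => fderiv ℝ (F s) y) (bound := fun _ => C)
    (closedBall_mem_nhds x one_pos) ?_ ?_ ?_ ?_ ?_ ?_
  · exact Eventually.of_forall fun y => (KernB_slice hF.continuous y).aestronglyMeasurable
  · exact (KernB_slice hF.continuous x).intervalIntegrable _ _
  · exact (KernB_slice (F := fun s y => fderiv ℝ (F s) y) hD x).aestronglyMeasurable
  · exact Eventually.of_forall fun s hs y hy => hC (s, y) ⟨uIoc_subset_uIcc hs, hy⟩
  · exact intervalIntegrable_const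
  · refine Eventually.of_forall fun s _ y _ => ?_
    have h1 : ContDiff ℝ 1 (F s) := hF.comp (contDiff_const.prodMk contDiff_id)
    exact (h1.differentiable (by norm_num) y).hasFDerivAt

theorem KernB_cd (n : ℕ) : ∀ {G : Type} [NormedAddCommGroup G] [NormedSpace ℝ G]
    {F : ℝ → E m → G}, (ContDiff ℝ n fun q : ℝ × E m => F q.1 q.2) → ∀ α β : ℝ,
    ContDiff ℝ n fun y => ∫ s in α..β, F s y := by
  induction n with
  | zero =>
    intro G _ _ F hF α β
    have h1 : Continuous (Function.uncurry fun (y : E m) (s : ℝ) => F s y) :=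
      hF.continuous.comp continuous_swap
    exact contDiff_zero.2 (intervalIntegral.continuous_parametric_intervalIntegral_of_continuous'
      h1 α β)
  | succ n ih =>
    intro G _ _ F hF α β
    have hle : (1 : WithTop ℕ∞) ≤ ((n + 1 : ℕ) : WithTop ℕ∞) := by
      exact_mod_cast Nat.le_add_left 1 n
    have h1 := hF.of_le hle
    have e : (fderiv ℝ fun y => ∫ s in α..β, F s y) =
        fun y => ∫ s in α..β, fderiv ℝ (F s) y := funext fun y => (KernB_has h1 α β y).fderiv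
    rw [Nat.cast_succ, contDiff_succ_iff_fderiv]
    refine ⟨fun y => (KernB_has h1 α β y).differentiableAt, by simp, ?_⟩
    rw [e]
    exact ih (F := fun s y => fderiv ℝ (F s) y) (KernB_part hF (by rw [Nat.cast_succ])) α β

/-! ### The logarithmic variable -/

theorem KernB_sub (f : ℝ → ℝ) {a b : ℝ} (ha : 0 < a) (hab : a ≤ b) :
    ∫ r in a..b, f r / r = ∫ s in Real.log a..Real.log b, f (Real.exp s) := by
  have h := intervalIntegral.integral_comp_mul_deriv_of_deriv_nonneg (a := Real.log a)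
    (b := Real.log b) (f := Real.exp) (f' := Real.exp) (g := fun r => f r / r)
    Real.continuous_exp.continuousOn (fun x _ => Real.hasDerivAt_exp x)
    (fun x _ => (Real.exp_pos x).le)
  rw [Real.exp_log ha, Real.exp_log (ha.trans_le hab)] at h
  rw [← h]
  refine intervalIntegral.integral_congr fun s _ => ?_
  simp only [Function.comp]
  exact div_mul_cancel₀ _ (Real.exp_pos s).ne'

theorem KernB_Gm {a b : ℝ} (ha : 0 < a) (hab : a ≤ b) :
    (Gm a b : E m → ℝ) = fun v => ∫ s in Real.log a..Real.log b, pk (Real.exp s) v :=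
  funext fun v => KernB_sub (fun r => pk r v) ha hab

theorem KernB_Gt {a b : ℝ} (ha : 0 < a) (hab : a ≤ b) :
    (Gt a b : E m → ℝ) = fun v => ∫ s in Real.log a..Real.log b, rho (Real.exp s) v :=
  funext fun v => KernB_sub (fun r => rho r v) ha hab

theorem KernB_arg (n : WithTop ℕ∞) :
    ContDiff ℝ n fun q : ℝ × E m => ‖q.2‖ ^ 2 / Real.exp q.1 ^ 2 := by
  refine ContDiff.div ((contDiff_norm_sq ℝ).comp contDiff_snd)
    ((Real.contDiff_exp.comp contDiff_fst).pow 2) fun q => ?_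
  exact (pow_pos (Real.exp_pos _) 2).ne'

theorem KernB_rho : ContDiff ℝ 3 fun q : ℝ × E m => rho (Real.exp q.1) q.2 := by
  unfold rho
  refine ContDiff.div (contDiff_gam.comp (KernB_arg 3))
    (contDiff_const.mul ((Real.contDiff_exp.comp contDiff_fst).pow m)) fun q => ?_
  exact (mul_pos (cg_pos m) (pow_pos (Real.exp_pos _) m)).ne'

theorem KernB_pk : ContDiff ℝ 4 fun q : ℝ × E m => pk (Real.exp q.1) q.2 := by
  unfold pk
  refine ContDiff.div ((contDiff_Gam.comp (KernB_arg 4)).mul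
    ((Real.contDiff_exp.comp contDiff_fst).pow 2))
    (contDiff_const.mul ((Real.contDiff_exp.comp contDiff_fst).pow m)) fun q => ?_
  exact (mul_pos (mul_pos (by norm_num) (cg_pos m)) (pow_pos (Real.exp_pos _) m)).ne'

theorem KernB_rho1 : ContDiff ℝ 2 fun q : ℝ × E m => fderiv ℝ (rho (Real.exp q.1)) q.2 :=
  KernB_part (F := fun s v => rho (Real.exp s) v) KernB_rho (by norm_num)

theorem KernB_rho2 :
    ContDiff ℝ 1 fun q : ℝ × E m => fderiv ℝ (fderiv ℝ (rho (Real.exp q.1))) q.2 :=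
  KernB_part (F := fun s v => fderiv ℝ (rho (Real.exp s)) v) KernB_rho1 (by norm_num)

theorem KernB_fd1 {a b : ℝ} (ha : 0 < a) (hab : a ≤ b) :
    fderiv ℝ (Gt a b : E m → ℝ) =
      fun v => ∫ s in Real.log a..Real.log b, fderiv ℝ (rho (Real.exp s)) v := by
  rw [KernB_Gt ha hab]
  exact funext fun v => (KernB_has (F := fun s v => rho (Real.exp s) v)
    (KernB_rho.of_le (by norm_num)) _ _ v).fderiv

theorem KernB_fd2 {a b : ℝ} (ha : 0 < a) (hab : a ≤ b) (v : E m) :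
    fderiv ℝ (fderiv ℝ (Gt a b : E m → ℝ)) v =
      ∫ s in Real.log a..Real.log b, fderiv ℝ (fderiv ℝ (rho (Real.exp s))) v := by
  rw [KernB_fd1 ha hab]
  exact (KernB_has (F := fun s v => fderiv ℝ (rho (Real.exp s)) v)
    (KernB_rho1.of_le (by norm_num)) _ _ v).fderiv

/-- differentiation under the integral sign in `r`; the integrand is jointly of class `C⁴` on
`r > 0` -/
theorem contDiff_Gm {a b : ℝ} (ha : 0 < a) (hab : a ≤ b) :
    ContDiff ℝ 4 (Gm a b : E m → ℝ) ∧ ContDiff ℝ 3 (Gt a b : E m → ℝ) := by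
  rw [KernB_Gm ha hab, KernB_Gt ha hab]
  exact ⟨KernB_cd 4 (F := fun s v => pk (Real.exp s) v) KernB_pk _ _,
    KernB_cd 3 (F := fun s v => rho (Real.exp s) v) KernB_rho _ _⟩

theorem fderiv_Gm {a b : ℝ} (ha : 0 < a) (hab : a ≤ b) (v u : E m) :
    fderiv ℝ (Gm a b) v u = -Gt a b v * ⟪v, u⟫ := by
  have hc : Continuous fun q : ℝ × E m => fderiv ℝ (pk (Real.exp q.1)) q.2 :=
    (KernB_part (n := 0) (F := fun s v => pk (Real.exp s) v) KernB_pk (by norm_num)).continuous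
  rw [KernB_Gm ha hab, KernB_Gt ha hab, (KernB_has (F := fun s v => pk (Real.exp s) v)
    (KernB_pk.of_le (by norm_num)) _ _ v).fderiv, ContinuousLinearMap.intervalIntegral_apply
    ((KernB_slice (F := fun s v => fderiv ℝ (pk (Real.exp s)) v) hc v).intervalIntegrable _ _),
    ← intervalIntegral.integral_neg, ← intervalIntegral.integral_mul_const]
  exact intervalIntegral.integral_congr fun s _ => fderiv_pk (Real.exp_pos s) v u

theorem KernB_has_smul {g : E m → ℝ} {v : E m} (hg : DifferentiableAt ℝ g v) :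
    HasFDerivAt (fun x => g x • x)
      (g v • ContinuousLinearMap.id ℝ (E m) + (fderiv ℝ g v).smulRight v) v :=
  hg.hasFDerivAt.smul (hasFDerivAt_id v)

theorem KernB_sum_ev (v : E m) : ∑ i, ⟪ev i, v⟫ • ev i = v := by
  have h := (EuclideanSpace.basisFun (Fin m) ℝ).sum_repr' v
  simpa [ev] using h

theorem KernB_ev_ev (i : Fin m) : ⟪(ev i : E m), ev i⟫ = 1 := by
  simp [ev]

theorem KernB_dv {g : E m → ℝ} {v : E m} (hg : DifferentiableAt ℝ g v) :
    dv (fun x => g x • x) v = m * g v + fderiv ℝ g v v := by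
  unfold dv
  rw [(KernB_has_smul hg).fderiv]
  have h1 : ∀ i : Fin m, ⟪ev i, (g v • ContinuousLinearMap.id ℝ (E m) +
      (fderiv ℝ g v).smulRight v) (ev i)⟫ = g v + fderiv ℝ g v (⟪ev i, v⟫ • ev i) := by
    intro i
    rw [add_apply, smul_apply, ContinuousLinearMap.id_apply, ContinuousLinearMap.smulRight_apply, inner_add_right,
      inner_smul_right, inner_smul_right, KernB_ev_ev, map_smul, smul_eq_mul]
    ring
  rw [Finset.sum_congr rfl fun i _ => h1 i, Finset.sum_add_distrib, ← map_sum, KernB_sum_ev]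
  simp

/-- `dv (rho r v • v) = m rho + v · ∇ rho = - r ∂_r rho` -/
theorem dv_Gt {a b : ℝ} (ha : 0 < a) (hab : a ≤ b) (v : E m) :
    dv (fun x => Gt a b x • x) v = rho a v - rho b v := by
  have c0 := KernB_slice (F := fun s v => rho (Real.exp s) v) KernB_rho.continuous v
  have c1 := KernB_slice (F := fun s v => fderiv ℝ (rho (Real.exp s)) v) KernB_rho1.continuous v
  have c2 : Continuous fun s => fderiv ℝ (rho (Real.exp s)) v v := c1.clm_apply continuous_const
  have hd : ∀ s ∈ uIcc (Real.log a) (Real.log b), HasDerivAt (fun s => -rho (Real.exp s) v)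
      (m * rho (Real.exp s) v + fderiv ℝ (rho (Real.exp s)) v v) s := by
    intro s _
    have h := ((hasDerivAt_rho (Real.exp_pos s) v).comp s (Real.hasDerivAt_exp s)).neg
    rw [div_mul_cancel₀ _ (Real.exp_pos s).ne'] at h
    exact h.congr_deriv (by ring)
  have c3 : Continuous fun s => (m : ℝ) * rho (Real.exp s) v := continuous_const.mul c0
  have h := intervalIntegral.integral_eq_sub_of_hasDerivAt hd
    ((c3.add c2).intervalIntegrable _ _)
  rw [Real.exp_log ha, Real.exp_log (ha.trans_le hab), intervalIntegral.integral_add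
    (c3.intervalIntegrable _ _) (c2.intervalIntegrable _ _),
    intervalIntegral.integral_const_mul] at h
  rw [KernB_dv ((contDiff_Gm ha hab).2.differentiable (by norm_num) v), KernB_fd1 ha hab,
    KernB_Gt ha hab, ContinuousLinearMap.intervalIntegral_apply (c1.intervalIntegrable _ _)]
  beta_reduce
  linarith

theorem hess_Gm {a b : ℝ} (ha : 0 < a) (hab : a ≤ b) (v u u' : E m) :
    fderiv ℝ (fderiv ℝ (Gm a b)) v u u' = -⟪u', fderiv ℝ (fun x => Gt a b x • x) v u⟫ := by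
  have e : fderiv ℝ (Gm a b : E m → ℝ) = fun x => -innerSL ℝ (Gt a b x • x) := by
    funext x
    ext u
    rw [fderiv_Gm ha hab]
    simp
  have hd : DifferentiableAt ℝ (fun x : E m => Gt a b x • x) v :=
    (KernB_has_smul ((contDiff_Gm ha hab).2.differentiable (by norm_num) v)).differentiableAt
  have h := ((innerSL ℝ (E := E m)).hasFDerivAt.comp v hd.hasFDerivAt).neg
  rw [e]
  have h2 : fderiv ℝ (fun x : E m => -innerSL ℝ (Gt a b x • x)) v = _ := h.fderiv
  rw [h2, real_inner_comm]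
  rfl

theorem lap_Gm {a b : ℝ} (ha : 0 < a) (hab : a ≤ b) (v : E m) :
    lap (Gm a b) v = rho b v - rho a v := by
  have h := dv_Gt ha hab v
  unfold dv at h
  unfold lap
  rw [Finset.sum_congr rfl fun i _ => hess_Gm ha hab v (ev i) (ev i), Finset.sum_neg_distrib, h]
  ring

theorem Gm_nonneg {a b : ℝ} (ha : 0 < a) (hab : a ≤ b) (v : E m) :
    0 ≤ Gm a b v ∧ 0 ≤ Gt a b v :=
  ⟨intervalIntegral.integral_nonneg hab fun _ hr =>
      div_nonneg (pk_nonneg (ha.trans_le hr.1) v) (ha.le.trans hr.1),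
    intervalIntegral.integral_nonneg hab fun _ hr =>
      div_nonneg (rho_nonneg (ha.trans_le hr.1) v) (ha.le.trans hr.1)⟩

theorem Gm_neg (a b : ℝ) (v : E m) : Gm a b (-v) = Gm a b v ∧ Gt a b (-v) = Gt a b v := by
  simp only [Gm, Gt, pk_neg, rho_neg, and_self]

theorem Gm_eq_zero {a b : ℝ} (ha : 0 < a) (hab : a ≤ b) {v : E m} (hv : b ≤ ‖v‖) :
    Gm a b v = 0 ∧ Gt a b v = 0 := by
  constructor
  · unfold Gm
    rw [intervalIntegral.integral_congr (g := fun _ => 0), intervalIntegral.integral_zero]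
    intro r hr
    rw [uIcc_of_le hab] at hr
    simp only [pk_eq_zero (ha.trans_le hr.1) (hr.2.trans hv), zero_div]
  · unfold Gt
    rw [intervalIntegral.integral_congr (g := fun _ => 0), intervalIntegral.integral_zero]
    intro r hr
    rw [uIcc_of_le hab] at hr
    simp only [rho_eq_zero (ha.trans_le hr.1) (hr.2.trans hv), zero_div]

theorem Gm_add {a b c : ℝ} (ha : 0 < a) (hab : a ≤ b) (hbc : b ≤ c) (v : E m) :
    Gm a c v = Gm a b v + Gm b c v ∧ Gt a c v = Gt a b v + Gt b c v := by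
  have c0 := KernB_slice (F := fun s v => rho (Real.exp s) v) KernB_rho.continuous v
  have c1 := KernB_slice (F := fun s v => pk (Real.exp s) v) KernB_pk.continuous v
  have hb := ha.trans_le hab
  rw [KernB_Gm ha hab, KernB_Gm hb hbc, KernB_Gm ha (hab.trans hbc), KernB_Gt ha hab,
    KernB_Gt hb hbc, KernB_Gt ha (hab.trans hbc)]
  exact ⟨(intervalIntegral.integral_add_adjacent_intervals (c1.intervalIntegrable _ _)
    (c1.intervalIntegrable _ _)).symm, (intervalIntegral.integral_add_adjacent_intervals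
    (c0.intervalIntegrable _ _) (c0.intervalIntegrable _ _)).symm⟩

theorem Gm_smul {t a b : ℝ} (ht : 0 < t) (ha : 0 < a) (hab : a ≤ b) (v : E m) :
    Gm (t * a) (t * b) (t • v) = t ^ 2 * Gm a b v / t ^ m ∧
      Gt (t * a) (t * b) (t • v) = Gt a b v / t ^ m := by
  have hr : ∀ r ∈ uIcc a b, r ≠ 0 := fun r hr => by
    rw [uIcc_of_le hab] at hr
    exact (ha.trans_le hr.1).ne'
  have ht' := ht.ne'
  constructor
  · unfold Gm
    rw [← intervalIntegral.mul_integral_comp_mul_left, ← intervalIntegral.integral_const_mul,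
      ← intervalIntegral.integral_const_mul, ← intervalIntegral.integral_div]
    refine intervalIntegral.integral_congr fun r h => ?_
    have := hr r h
    simp only [pk_smul ht]
    field_simp
  · unfold Gt
    rw [← intervalIntegral.mul_integral_comp_mul_left, ← intervalIntegral.integral_const_mul,
      ← intervalIntegral.integral_div]
    refine intervalIntegral.integral_congr fun r h => ?_
    have := hr r h
    simp only [rho_smul ht]
    field_simp

/-! ### Bounds -/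

theorem KernB_tail {C : ℝ} (hC : 0 ≤ C) {k : ℕ} (hk : 1 ≤ k) {L β : ℝ} (h : L ≤ β) :
    ∫ s in L..β, C / Real.exp s ^ k ≤ C / Real.exp L ^ k := by
  have hk' : (1 : ℝ) ≤ k := by exact_mod_cast hk
  have e : ∀ s : ℝ, C / Real.exp s ^ k = C * Real.exp (-(k * s)) := fun s => by
    rw [Real.exp_neg, Real.exp_nat_mul, div_eq_mul_inv]
  have hd : ∀ s ∈ uIcc L β, HasDerivAt (fun s => -(C * Real.exp (-(k * s))))
      (k * (C * Real.exp (-(k * s)))) s := fun s _ =>
    ((((hasDerivAt_id s).const_mul (k : ℝ)).neg.exp.const_mul C).neg).congr_deriv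
      (by simp only [id, Pi.neg_apply]; ring)
  have hc : Continuous fun s : ℝ => C * Real.exp (-(k * s)) := by fun_prop
  have hc' : Continuous fun s : ℝ => k * (C * Real.exp (-(k * s))) := by fun_prop
  have h1 := intervalIntegral.integral_eq_sub_of_hasDerivAt hd (hc'.intervalIntegrable _ _)
  have h2 : ∫ s in L..β, C * Real.exp (-(k * s)) ≤ ∫ s in L..β, k * (C * Real.exp (-(k * s))) :=
    intervalIntegral.integral_mono_on h (hc.intervalIntegrable _ _) (hc'.intervalIntegrable _ _)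
      fun s _ => le_mul_of_one_le_left (by positivity) hk'
  have h3 : 0 ≤ C * Real.exp (-(k * β)) := by positivity
  simp only [e]
  linarith

theorem KernB_bd {G : Type} [NormedAddCommGroup G] [NormedSpace ℝ G] {g : ℝ → G}
    (hg : Continuous g) {C t a b : ℝ} (hC : 0 ≤ C) {k : ℕ} (hk : 1 ≤ k) (ha : 0 < a) (hab : a ≤ b)
    (h0 : ∀ s, Real.exp s < t → g s = 0) (h1 : ∀ s, ‖g s‖ ≤ C / Real.exp s ^ k) :
    ‖∫ s in Real.log a..Real.log b, g s‖ ≤ C / (max t a) ^ k := by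
  have hM : 0 < max t a := ha.trans_le (le_max_right _ _)
  have hz : ∀ c, Real.log a ≤ c → c ≤ Real.log (max t a) → ∫ s in Real.log a..c, g s = 0 := by
    intro c hc hc'
    rw [intervalIntegral.integral_of_le hc, integral_Ioc_eq_integral_Ioo]
    refine setIntegral_eq_zero_of_forall_eq_zero fun s hs => h0 s ?_
    have h2 : Real.exp s < max t a := (Real.lt_log_iff_exp_lt hM).1 (hs.2.trans_le hc')
    have h3 : a < Real.exp s := (Real.log_lt_iff_lt_exp ha).1 hs.1
    rcases lt_max_iff.1 h2 with h | h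
    · exact h
    · exact absurd h3 h.not_gt
  have hlab : Real.log a ≤ Real.log b := Real.log_le_log ha hab
  rcases le_total (Real.log b) (Real.log (max t a)) with h | h
  · rw [hz _ hlab h, norm_zero]
    positivity
  · rw [← intervalIntegral.integral_add_adjacent_intervals (b := Real.log (max t a))
      (hg.intervalIntegrable _ _) (hg.intervalIntegrable _ _),
      hz _ (Real.log_le_log ha (le_max_right _ _)) le_rfl, zero_add]
    have hc : Continuous fun s : ℝ => C / Real.exp s ^ k :=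
      continuous_const.div (Real.continuous_exp.pow k) fun s => (pow_pos (Real.exp_pos s) k).ne'
    refine (intervalIntegral.norm_integral_le_integral_norm h).trans
      ((intervalIntegral.integral_mono_on h (hg.norm.intervalIntegrable _ _)
        (hc.intervalIntegrable _ _) fun s _ => h1 s).trans ?_)
    have h4 := KernB_tail hC hk h
    rwa [Real.exp_log hM] at h4

theorem KernB_ev0 {r : ℝ} (hr : 0 < r) {v : E m} (hv : r < ‖v‖) : rho r =ᶠ[𝓝 v] fun _ => 0 := by
  filter_upwards [(isOpen_lt continuous_const continuous_norm).mem_nhds hv] with x hx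
  exact rho_eq_zero hr (le_of_lt hx)

theorem KernB_Gt_bd (m : ℕ) (hm : 1 ≤ m) : ∃ C : ℝ, 1 ≤ C ∧ ∀ a b : ℝ, 0 < a → a ≤ b →
    ∀ v : E m, ‖Gt a b v‖ ≤ C / (max ‖v‖ a) ^ m ∧
    ‖fderiv ℝ (Gt a b) v‖ ≤ C / (max ‖v‖ a) ^ (m + 1) ∧
    ‖fderiv ℝ (fderiv ℝ (Gt a b)) v‖ ≤ C / (max ‖v‖ a) ^ (m + 2) := by
  obtain ⟨C, hC, h⟩ := rho_bd m
  have hB : ∀ r : ℝ, 0 < r →
      Bd2 (rho r : E m → ℝ) (C / r ^ m) (C / r ^ (m + 1)) (C / r ^ (m + 2)) := fun r hr => by
    have := (h r hr 0).1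
    simpa only [sub_zero] using this
  have hC0 : 0 ≤ C := zero_le_one.trans hC
  refine ⟨C, hC, fun a b ha hab v => ⟨?_, ?_, ?_⟩⟩
  · rw [KernB_Gt ha hab]
    exact KernB_bd (KernB_slice (F := fun s v => rho (Real.exp s) v) KernB_rho.continuous v)
      hC0 hm ha hab (fun s hs => rho_eq_zero (Real.exp_pos s) hs.le)
      fun s => (hB _ (Real.exp_pos s)).b0 v
  · rw [KernB_fd1 ha hab]
    refine KernB_bd (KernB_slice (F := fun s v => fderiv ℝ (rho (Real.exp s)) v)
      KernB_rho1.continuous v) hC0 (by omega) ha hab (fun s hs => ?_)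
      fun s => (hB _ (Real.exp_pos s)).b1 v
    rw [(KernB_ev0 (Real.exp_pos s) hs).fderiv_eq]
    simp
  · rw [KernB_fd2 ha hab]
    refine KernB_bd (KernB_slice (F := fun s v => fderiv ℝ (fderiv ℝ (rho (Real.exp s))) v)
      KernB_rho2.continuous v) hC0 (by omega) ha hab (fun s hs => ?_)
      fun s => (hB _ (Real.exp_pos s)).b2 v
    rw [(KernB_ev0 (Real.exp_pos s) hs).fderiv.fderiv_eq]
    simp

theorem KernB_n1 {g : E m → ℝ} {v : E m} (hg : DifferentiableAt ℝ g v) :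
    ‖fderiv ℝ (fun x => g x • x) v‖ ≤ ‖g v‖ + ‖fderiv ℝ g v‖ * ‖v‖ := by
  rw [(KernB_has_smul hg).fderiv]
  refine (norm_add_le _ _).trans (add_le_add ?_ (ContinuousLinearMap.norm_smulRight_apply _ _).le)
  rw [norm_smul]
  exact mul_le_of_le_one_right (norm_nonneg _) ContinuousLinearMap.norm_id_le

theorem KernB_n2 {g : E m → ℝ} (hg : ContDiff ℝ 2 g) (v : E m) :
    ‖fderiv ℝ (fderiv ℝ fun x => g x • x) v‖ ≤
      2 * ‖fderiv ℝ g v‖ + ‖fderiv ℝ (fderiv ℝ g) v‖ * ‖v‖ := by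
  have d1 : Differentiable ℝ g := hg.differentiable (by norm_num)
  have d2 : Differentiable ℝ (fderiv ℝ g) :=
    (hg.fderiv_right (m := 1) (by norm_num)).differentiable (by norm_num)
  have e : (fderiv ℝ fun x : E m => g x • x) = fun x => g x • ContinuousLinearMap.id ℝ (E m) +
      ContinuousLinearMap.smulRightL ℝ (E m) (E m) (fderiv ℝ g x) x :=
    funext fun x => (KernB_has_smul (d1 x)).fderiv
  have h := ((d1 v).hasFDerivAt.smul_const (ContinuousLinearMap.id ℝ (E m))).add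
    ((ContinuousLinearMap.smulRightL ℝ (E m) (E m)).hasFDerivAt_of_bilinear (d2 v).hasFDerivAt
      (hasFDerivAt_id v))
  have h2 : fderiv ℝ (fun x : E m => g x • ContinuousLinearMap.id ℝ (E m) +
      ContinuousLinearMap.smulRightL ℝ (E m) (E m) (fderiv ℝ g x) x) v = _ := h.fderiv
  rw [e, h2]
  refine ContinuousLinearMap.opNorm_le_bound _ (by positivity) fun u => ?_
  refine ContinuousLinearMap.opNorm_le_bound _ (by positivity) fun w => ?_
  have e2 : ∀ z : E m, z = fderiv ℝ g v u • w + (fderiv ℝ g v w • u +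
      fderiv ℝ (fderiv ℝ g) v u w • v) → ‖z‖ ≤
      (2 * ‖fderiv ℝ g v‖ + ‖fderiv ℝ (fderiv ℝ g) v‖ * ‖v‖) * ‖u‖ * ‖w‖ := by
    intro z hz
    have a1 : ‖fderiv ℝ g v u • w‖ ≤ ‖fderiv ℝ g v‖ * ‖u‖ * ‖w‖ := by
      rw [norm_smul]
      exact mul_le_mul_of_nonneg_right ((fderiv ℝ g v).le_opNorm u) (norm_nonneg _)
    have a2 : ‖fderiv ℝ g v w • u‖ ≤ ‖fderiv ℝ g v‖ * ‖w‖ * ‖u‖ := by
      rw [norm_smul]
      exact mul_le_mul_of_nonneg_right ((fderiv ℝ g v).le_opNorm w) (norm_nonneg _)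
    have a3 : ‖fderiv ℝ (fderiv ℝ g) v u w • v‖ ≤
        ‖fderiv ℝ (fderiv ℝ g) v‖ * ‖u‖ * ‖w‖ * ‖v‖ := by
      rw [norm_smul]
      exact mul_le_mul_of_nonneg_right ((fderiv ℝ (fderiv ℝ g) v).le_opNorm₂ u w) (norm_nonneg _)
    have a4 := (norm_add_le (fderiv ℝ g v u • w) _).trans
      (add_le_add a1 ((norm_add_le _ _).trans (add_le_add a2 a3)))
    rw [hz]
    refine a4.trans (le_of_eq ?_)
    ring
  refine e2 _ ?_
  simp

/-- The integrands vanish for `r ≤ ‖v‖`; integrate the bounds of `rho_bd` over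
`r ≥ max ‖v‖ a`. -/
theorem Gt_bd (m : ℕ) (hm : 1 ≤ m) : ∃ C : ℝ, 1 ≤ C ∧ ∀ a b : ℝ, 0 < a → a ≤ b → ∀ v : E m,
    Gt a b v ≤ C / (max ‖v‖ a) ^ m ∧
    ‖fderiv ℝ (Gt a b) v‖ ≤ C / (max ‖v‖ a) ^ (m + 1) ∧
    ‖fderiv ℝ (fun x => Gt a b x • x) v‖ ≤ C / (max ‖v‖ a) ^ m ∧
    ‖fderiv ℝ (fderiv ℝ fun x => Gt a b x • x) v‖ ≤ C / (max ‖v‖ a) ^ (m + 1) := by
  obtain ⟨C, hC, h⟩ := KernB_Gt_bd m hm
  have hC0 : 0 ≤ C := zero_le_one.trans hC
  refine ⟨3 * C, by linarith, fun a b ha hab v => ?_⟩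
  obtain ⟨h0, h1, h2⟩ := h a b ha hab v
  have hM : 0 < max ‖v‖ a := ha.trans_le (le_max_right _ _)
  have hv : ‖v‖ ≤ max ‖v‖ a := le_max_left _ _
  have hG := (contDiff_Gm (m := m) ha hab).2
  have n1 := KernB_n1 (hG.differentiable (by norm_num) v)
  have n2 := KernB_n2 (hG.of_le (by norm_num)) v
  generalize max ‖v‖ a = M at *
  have e : ∀ k : ℕ, C / M ^ (k + 1) * M = C / M ^ k := fun k => by
    rw [pow_succ]
    field_simp
  have p : ∀ k : ℕ, 0 ≤ C / M ^ k := fun k => by positivity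
  have q1 := mul_le_mul h1 hv (norm_nonneg _) (p _)
  have q2 := mul_le_mul h2 hv (norm_nonneg _) (p _)
  rw [e] at q1 q2
  have h0' := (le_abs_self _).trans h0
  have p0 := p m
  have p1 := p (m + 1)
  simp only [mul_div_assoc]
  refine ⟨?_, ?_, ?_, ?_⟩ <;> linarith

theorem Gm_bd (m : ℕ) (hm : 3 ≤ m) : ∃ C : ℝ, 1 ≤ C ∧ ∀ a b : ℝ, 0 < a → a ≤ b → ∀ v : E m,
    Gm a b v ≤ C * (max ‖v‖ a) ^ 2 / (max ‖v‖ a) ^ m := by
  obtain ⟨C, hC, h⟩ := pk_bd m
  obtain ⟨k, rfl⟩ : ∃ k, m = k + 2 := ⟨m - 2, by omega⟩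
  have e : ∀ r : ℝ, 0 < r → C * r ^ 2 / r ^ (k + 2) = C / r ^ k := fun r hr => by
    rw [pow_add]
    field_simp
  refine ⟨C, hC, fun a b ha hab v => ?_⟩
  rw [e _ (ha.trans_le (le_max_right _ _)), KernB_Gm ha hab]
  refine (le_abs_self _).trans (KernB_bd
    (KernB_slice (F := fun s v => pk (Real.exp s) v) KernB_pk.continuous v)
    (zero_le_one.trans hC) (by omega) ha hab (fun s hs => pk_eq_zero (Real.exp_pos s) hs.le)
    fun s => ?_)
  have := (h _ (Real.exp_pos s) 0).b0 v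
  rwa [sub_zero, e _ (Real.exp_pos s)] at this

/-! ### Integrals -/

theorem KernB_int {g : E m → ℝ} (hg : Continuous g) {r : ℝ} (h0 : ∀ v, r ≤ ‖v‖ → g v = 0) :
    Integrable g := by
  refine hg.integrable_of_hasCompactSupport
    (HasCompactSupport.intro (isCompact_closedBall (0 : E m) r) fun v hv => h0 v ?_)
  rw [mem_closedBall_zero_iff, not_le] at hv
  exact hv.le

theorem KernB_prod {F : ℝ → E m → ℝ} (hF : Continuous fun q : ℝ × E m => F q.1 q.2)
    (h0 : ∀ s v, Real.exp s ≤ ‖v‖ → F s v = 0) {α β : ℝ} (h : α ≤ β) :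
    Integrable (Function.uncurry F) ((volume.restrict (uIoc α β)).prod volume) := by
  have hK : IsCompact (Icc α β ×ˢ closedBall (0 : E m) (Real.exp β)) :=
    isCompact_Icc.prod (isCompact_closedBall _ _)
  have h1 : IntegrableOn (Function.uncurry F) (Icc α β ×ˢ closedBall (0 : E m) (Real.exp β))
      ((volume : Measure ℝ).prod (volume : Measure (E m))) :=
    ContinuousOn.integrableOn_compact hK hF.continuousOn
  have h2 : IntegrableOn (Function.uncurry F) (Ioc α β ×ˢ (univ : Set (E m)))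
      ((volume : Measure ℝ).prod (volume : Measure (E m))) := by
    refine h1.of_forall_sdiff_eq_zero (measurableSet_Ioc.prod MeasurableSet.univ) fun q hq => ?_
    refine h0 q.1 q.2 ?_
    by_contra hlt
    refine hq.2 ⟨Ioc_subset_Icc_self hq.1.1, ?_⟩
    rw [mem_closedBall_zero_iff]
    exact (not_le.1 hlt).le.trans (Real.exp_le_exp.2 hq.1.1.2)
  rw [uIoc_of_le h, ← Measure.restrict_univ (μ := (volume : Measure (E m))),
    Measure.prod_restrict]
  exact h2

theorem KernB_fub {F : ℝ → E m → ℝ} (hF : Continuous fun q : ℝ × E m => F q.1 q.2)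
    (h0 : ∀ s v, Real.exp s ≤ ‖v‖ → F s v = 0) {α β : ℝ} (h : α ≤ β) {φ : ℝ → ℝ}
    (hφ : Continuous φ) (hle : ∀ s, ∫ v, F s v ≤ φ s) :
    ∫ v, ∫ s in α..β, F s v ≤ ∫ s in α..β, φ s := by
  have hp := KernB_prod hF h0 h
  rw [← intervalIntegral_integral_swap hp]
  refine intervalIntegral.integral_mono_on h ?_ (hφ.intervalIntegrable _ _) fun s _ => hle s
  rw [intervalIntegrable_iff]
  exact hp.integral_prod_left

theorem integral_Gm (m : ℕ) : ∃ C : ℝ, 1 ≤ C ∧ ∀ a b : ℝ, 0 < a → a ≤ b →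
    ∫ v : E m, Gm a b v ≤ C * b ^ 2 ∧ ∫ v : E m, Gt a b v * ‖v‖ ≤ C * b ∧
      ∫ v : E m, Gt a b v = Real.log (b / a) := by
  refine ⟨1, le_rfl, fun a b ha hab => ?_⟩
  have hb := ha.trans_le hab
  have hl : Real.log a ≤ Real.log b := Real.log_le_log ha hab
  have i1 : ∀ r : ℝ, 0 < r → ∫ v : E m, rho r v = 1 := fun r hr => by
    have := integral_rho hr (0 : E m)
    simpa only [sub_zero] using this
  have i2 : ∀ r : ℝ, 0 < r → Integrable (rho r : E m → ℝ) := fun r hr =>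
    KernB_int (contDiff_rho r).continuous fun v hv => rho_eq_zero hr hv
  have i3 : ∫ s in Real.log a..Real.log b, Real.exp s = b - a := by
    rw [integral_exp, Real.exp_log ha, Real.exp_log hb]
  rw [KernB_Gm ha hab, KernB_Gt ha hab]
  refine ⟨?_, ?_, ?_⟩
  · refine (KernB_fub (F := fun s v => pk (Real.exp s) v) KernB_pk.continuous
      (fun s v hv => pk_eq_zero (Real.exp_pos s) hv) hl (φ := fun s => Real.exp s ^ 2)
      (by fun_prop) fun s => ?_).trans ?_
    · have hr := Real.exp_pos s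
      calc ∫ v : E m, pk (Real.exp s) v
          ≤ ∫ v : E m, Real.exp s ^ 2 / 10 * rho (Real.exp s) v :=
            integral_mono (KernB_int (contDiff_pk _).continuous fun v hv => pk_eq_zero hr hv)
              ((i2 _ hr).const_mul _) fun v => (pk_le hr v).1
        _ = Real.exp s ^ 2 / 10 := by rw [integral_const_mul, i1 _ hr, mul_one]
        _ ≤ Real.exp s ^ 2 := by
            have := pow_pos hr 2
            linarith
    · calc ∫ s in Real.log a..Real.log b, Real.exp s ^ 2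
          ≤ ∫ s in Real.log a..Real.log b, b * Real.exp s := by
            refine intervalIntegral.integral_mono_on hl
              (Continuous.intervalIntegrable (by fun_prop) _ _)
              (Continuous.intervalIntegrable (by fun_prop) _ _) fun s hs => ?_
            have h1 : Real.exp s ≤ b := (Real.le_log_iff_exp_le hb).1 hs.2
            rw [sq]
            exact mul_le_mul_of_nonneg_right h1 (Real.exp_pos s).le
        _ = b * (b - a) := by rw [intervalIntegral.integral_const_mul, i3]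
        _ ≤ 1 * b ^ 2 := by nlinarith [mul_pos ha hb]
  · simp only [← intervalIntegral.integral_mul_const]
    refine (KernB_fub (F := fun s v => rho (Real.exp s) v * ‖v‖)
      (KernB_rho.continuous.mul continuous_snd.norm)
      (fun s v hv => by rw [rho_eq_zero (Real.exp_pos s) hv, zero_mul]) hl (φ := Real.exp)
      Real.continuous_exp fun s => ?_).trans ?_
    · have hr := Real.exp_pos s
      calc ∫ v : E m, rho (Real.exp s) v * ‖v‖
          ≤ ∫ v : E m, rho (Real.exp s) v * Real.exp s := by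
            refine integral_mono (KernB_int ((contDiff_rho _).continuous.mul continuous_norm)
              fun v hv => by rw [rho_eq_zero hr hv, zero_mul]) ((i2 _ hr).mul_const _)
              fun v => ?_
            rcases le_total (Real.exp s) ‖v‖ with hv | hv
            · simp only [rho_eq_zero hr hv, zero_mul, le_refl]
            · exact mul_le_mul_of_nonneg_left hv (rho_nonneg hr v)
        _ = Real.exp s := by rw [integral_mul_const, i1 _ hr, one_mul]
    · rw [i3]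
      linarith
  · rw [← intervalIntegral_integral_swap (KernB_prod (F := fun s v => rho (Real.exp s) v)
      KernB_rho.continuous (fun s v hv => rho_eq_zero (Real.exp_pos s) hv) hl),
      Real.log_div hb.ne' ha.ne']
    simp only [fun s => i1 _ (Real.exp_pos s)]
    simp

end Pool.Agent.MP_f6c0e6_an.Gen

end

section

/-! Stationarity and mass ratios. -/

set_option autoImplicit false

open MeasureTheory Filter Topology Set Metric
open scoped ENNReal RealInnerProductSpace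

namespace Pool.Agent.MP_f6c0e6_an.Gen

variable {m N : ℕ}

theorem Fr.norm_s (fr : Fr m N) (i : Fin m) (y : E N) : ‖fr.s i y‖ = 1 := (fr.orth y).1 i

theorem StatA_div_congr (fr : Fr m N) {X Y : E N → E N} {y : E N} (h : X =ᶠ[𝓝 y] Y) :
    fr.div X y = fr.div Y y := by
  unfold Fr.div
  rw [h.fderiv_eq]

theorem StatA_div_zero (fr : Fr m N) {X : E N → E N} {y : E N} (h : X =ᶠ[𝓝 y] 0) :
    fr.div X y = 0 := by
  rw [StatA_div_congr fr h]
  simp [Fr.div]

theorem Fr.measurable_div (fr : Fr m N) (X : E N → E N) : Measurable (fr.div X) := by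
  unfold Fr.div
  refine Finset.measurable_sum _ fun i _ => (fr.meas i).inner ?_
  exact ContinuousLinearMap.measurable_apply₂.comp ((measurable_fderiv ℝ X).prodMk (fr.meas i))

/-- the derivative is bounded on the compact set and vanishes almost everywhere outside -/
theorem Fr.integrable_div (fr : Fr m N) {μ : Measure (E N)} [IsFiniteMeasure μ] {X : E N → E N}
    {K : Set (E N)} (hK : IsCompact K) (hX : ∀ y ∈ K, ContDiffAt ℝ 1 X y)
    (h0 : ∀ᵐ y ∂μ, y ∉ K → X =ᶠ[𝓝 y] 0) : Integrable (fr.div X) μ := by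
  obtain ⟨M, hM⟩ := hK.exists_bound_of_continuousOn (f := fderiv ℝ X) fun y hy =>
    ((hX y hy).continuousAt_fderiv one_ne_zero).continuousWithinAt
  refine Integrable.of_bound (fr.measurable_div X).aestronglyMeasurable (m * |M|) ?_
  filter_upwards [h0] with y hy
  by_cases hyK : y ∈ K
  · unfold Fr.div
    refine (norm_sum_le_of_le _ (n := fun _ => |M|) fun i _ => ?_).trans (by simp)
    refine (norm_inner_le_norm _ _).trans ?_
    rw [fr.norm_s, one_mul]
    refine ((fderiv ℝ X y).le_opNorm _).trans ?_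
    rw [fr.norm_s, mul_one]
    exact (hM y hyK).trans (le_abs_self M)
  · rw [StatA_div_zero fr (hy hyK), norm_zero]; positivity

theorem Fr.div_smul (fr : Fr m N) {f : E N → ℝ} {X : E N → E N} {y : E N}
    (hf : DifferentiableAt ℝ f y) (hX : DifferentiableAt ℝ X y) :
    fr.div (fun x => f x • X x) y =
      f y * fr.div X y + ∑ i, fderiv ℝ f y (fr.s i y) * ⟪fr.s i y, X y⟫ := by
  unfold Fr.div
  rw [(hf.hasFDerivAt.fun_smul hX.hasFDerivAt).fderiv, Finset.mul_sum, ← Finset.sum_add_distrib]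
  refine Finset.sum_congr rfl fun i _ => ?_
  simp only [add_apply, smul_apply, ContinuousLinearMap.smulRight_apply, inner_add_right,
    real_inner_smul_right]

theorem Stat.mono {fr : Fr m N} {μ : Measure (E N)} {O O' : Set (E N)} (h : Stat fr μ O)
    (hO : O' ⊆ O) : Stat fr μ O' := by
  exact fun X K hK hKO hX h0 => h X K hK (hKO.trans hO) hX h0

/-- Restriction to an open subset `O'`. Multiply `X` by a smooth function equal to one near `K`
with compact support `K'` in `O'` and in the open set where `X` is `C¹`, and apply the hypothesis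
with `K'`. -/
theorem Stat.restrict {fr : Fr m N} {μ : Measure (E N)} {O O' : Set (E N)} (h : Stat fr μ O)
    (hO' : IsOpen O') (hO : O' ⊆ O) : Stat fr (μ.restrict O') O' := by
  intro X K hK hKO hX h0
  have hU : IsOpen (O' ∩ {y | ContDiffAt ℝ 1 X y}) :=
    hO'.inter (isOpen_iff_mem_nhds.2 fun y hy => ContDiffAt.eventually hy (by simp))
  obtain ⟨L, hL, hKL, hLU⟩ := exists_compact_between hK hU fun y hy => ⟨hKO hy, hX y hy⟩
  obtain ⟨f, f1, f0, -⟩ := exists_contMDiffMap_one_nhds_of_subset_interior (n := 1)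
    (modelWithCornersSelf ℝ (E N)) hK.isClosed hKL
  have hf : ContDiff ℝ 1 f := f.contMDiff.contDiff
  have hz : ∀ y, y ∉ L → (fun x => f x • X x) =ᶠ[𝓝 y] 0 := fun y hy => by
    filter_upwards [hL.isClosed.isOpen_compl.mem_nhds hy] with x hx
    rw [f0 x hx, zero_smul]; rfl
  have h1 := h (fun x => f x • X x) L hL (fun y hy => hO (hLU hy).1)
    (fun y hy => hf.contDiffAt.smul (hLU hy).2) (Eventually.of_forall hz)
  rw [← integral_indicator hO'.measurableSet, ← h1]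
  refine integral_congr_ae ?_
  filter_upwards [(ae_restrict_iff' hO'.measurableSet).1 h0] with y hy
  by_cases hyO : y ∈ O'
  · rw [indicator_of_mem hyO]
    refine StatA_div_congr fr ?_
    by_cases hyK : y ∈ K
    · filter_upwards [f1.filter_mono (nhds_le_nhdsSet hyK)] with x hx
      rw [hx, one_smul]
    · filter_upwards [hy hyO hyK] with x hx
      rw [hx]; simp
  · rw [indicator_of_notMem hyO, StatA_div_zero fr (hz y fun hh => hyO (hLU hh).1)]

/-- Restriction to a part `V` that is separated from the rest by a `C¹` function. -/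
theorem Stat.part {fr : Fr m N} {μ : Measure (E N)} {O V : Set (E N)} (h : Stat fr μ O)
    (hO : IsOpen O) (hV : MeasurableSet V) {χ : E N → ℝ} (hχ : ∀ y ∈ O, ContDiffAt ℝ 1 χ y)
    (h01 : ∀ᵐ y ∂μ, (y ∈ V → χ =ᶠ[𝓝 y] 1) ∧ (y ∉ V → χ =ᶠ[𝓝 y] 0)) :
    Stat fr (μ.restrict V) O := by
  intro X K hK hKO hX h0
  have h2 := (ae_restrict_iff' hV).1 h0
  have hz : ∀ y, χ =ᶠ[𝓝 y] 0 → (fun x => χ x • X x) =ᶠ[𝓝 y] 0 := fun y hy => by
    filter_upwards [hy] with x hx
    rw [hx]; simp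
  have h1 := h (fun x => χ x • X x) K hK hKO (fun y hy => (hχ y (hKO hy)).smul (hX y hy)) (by
    filter_upwards [h2, h01] with y hy hy' hyK
    by_cases hyV : y ∈ V
    · filter_upwards [hy hyV hyK] with x hx
      rw [hx]; simp
    · exact hz y (hy'.2 hyV))
  rw [← integral_indicator hV, ← h1]
  refine integral_congr_ae ?_
  filter_upwards [h01] with y hy
  by_cases hyV : y ∈ V
  · rw [indicator_of_mem hyV]
    refine StatA_div_congr fr ?_
    filter_upwards [hy.1 hyV] with x hx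
    rw [hx]; simp
  · rw [indicator_of_notMem hyV, StatA_div_zero fr (hz y (hy.2 hyV))]

theorem StatA_int (μ : Measure (E N)) [IsFiniteMeasure μ] (y : E N) (ρ : ℝ) :
    Integrable (fun x => gam (‖x - y‖ ^ 2 / ρ ^ 2)) μ := by
  have hc : Continuous fun x : E N => gam (‖x - y‖ ^ 2 / ρ ^ 2) :=
    contDiff_gam.continuous.comp (by fun_prop)
  refine Integrable.of_bound hc.aestronglyMeasurable 1 (Eventually.of_forall fun x => ?_)
  rw [Real.norm_of_nonneg (gam_nonneg _)]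
  exact gam_le_one (by positivity)

theorem StatA_zero {y x : E N} {ρ : ℝ} (hρ : 0 < ρ) (hx : x ∉ ball y ρ) :
    gam (‖x - y‖ ^ 2 / ρ ^ 2) = 0 := by
  rw [mem_ball, dist_eq_norm, not_lt] at hx
  refine gam_eq_zero ?_
  rw [le_div_iff₀ (by positivity), one_mul]
  exact pow_le_pow_left₀ hρ.le hx 2

theorem mk_nonneg (μ : Measure (E N)) (y : E N) {ρ : ℝ} (hρ : 0 < ρ) : 0 ≤ mk m μ y ρ := by
  exact mul_nonneg (by positivity) (integral_nonneg fun x => gam_nonneg _)

theorem mk_mono {μ ν : Measure (E N)} [IsFiniteMeasure ν] (h : μ ≤ ν) (y : E N) {ρ : ℝ} (hρ : 0 < ρ) :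
    mk m μ y ρ ≤ mk m ν y ρ := by
  exact mul_le_mul_of_nonneg_left (integral_mono_measure h
    (Eventually.of_forall fun x => gam_nonneg _) (StatA_int ν y ρ)) (by positivity)

theorem mk_add (μ ν : Measure (E N)) [IsFiniteMeasure μ] [IsFiniteMeasure ν] (y : E N) (ρ : ℝ) :
    mk m (μ + ν) y ρ = mk m μ y ρ + mk m ν y ρ := by
  unfold mk
  rw [integral_add_measure (StatA_int μ y ρ) (StatA_int ν y ρ), mul_add]

theorem mk_restrict (μ : Measure (E N)) {V : Set (E N)} (hV : MeasurableSet V) {y : E N} {ρ : ℝ}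
    (hρ : 0 < ρ) (h : ball y ρ ⊆ V) : mk m (μ.restrict V) y ρ = mk m μ y ρ := by
  unfold mk
  rw [setIntegral_eq_integral_of_forall_compl_eq_zero fun x hx => StatA_zero hρ fun hh => hx (h hh)]

theorem mk_le_ball (μ : Measure (E N)) [IsFiniteMeasure μ] (y : E N) {ρ : ℝ} (hρ : 0 < ρ) :
    mk m μ y ρ * ρ ^ m ≤ (μ (ball y ρ)).toReal := by
  unfold mk
  rw [mul_comm, ← mul_assoc, mul_inv_cancel₀ (by positivity), one_mul,
    ← setIntegral_eq_integral_of_forall_compl_eq_zero fun x hx => StatA_zero hρ hx]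
  refine (setIntegral_mono (StatA_int μ y ρ).integrableOn (integrable_const (1 : ℝ))
    fun x => gam_le_one (by positivity)).trans ?_
  simp [Measure.real]

theorem ball_le_mk (μ : Measure (E N)) [IsFiniteMeasure μ] (y : E N) {ρ t : ℝ} (hρ : 0 < ρ)
    (ht : 0 ≤ t) : gam (t ^ 2) * (μ (closedBall y (t * ρ))).toReal ≤ mk m μ y ρ * ρ ^ m := by
  unfold mk
  rw [mul_comm _ (ρ ^ m), ← mul_assoc, mul_inv_cancel₀ (by positivity), one_mul]
  refine le_trans ?_ (setIntegral_le_integral (s := closedBall y (t * ρ)) (StatA_int μ y ρ)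
    (Eventually.of_forall fun x => gam_nonneg _))
  refine le_trans (le_of_eq ?_) (setIntegral_mono_on (integrable_const (gam (t ^ 2)))
    (StatA_int μ y ρ).integrableOn measurableSet_closedBall fun x hx => gam_anti ?_)
  · simp [Measure.real, mul_comm]
  · rw [mem_closedBall, dist_eq_norm] at hx
    rw [div_le_iff₀ (by positivity), ← mul_pow]
    exact pow_le_pow_left₀ (norm_nonneg _) hx 2

theorem LD.restrict {μ : Measure (E N)} {y : E N} {κ : ℝ} (h : LD m μ y κ) {V : Set (E N)}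
    (hV : IsOpen V) (hy : y ∈ V) : LD m (μ.restrict V) y κ := by
  intro ε hε
  obtain ⟨r, hr, hb⟩ := Metric.isOpen_iff.1 hV y hy
  refine ((h ε hε).and_eventually (Ioo_mem_nhdsGT hr)).mono fun ρ hρ => ?_
  rw [mk_restrict μ hV.measurableSet hρ.2.1 ((ball_subset_ball hρ.2.2.le).trans hb)]
  exact hρ.1

theorem LD.of_le {μ ν : Measure (E N)} [IsFiniteMeasure ν] (hle : μ ≤ ν) {y : E N} {κ : ℝ}
    (h : LD m μ y κ) : LD m ν y κ := by
  intro ε hε
  refine ((h ε hε).and_eventually self_mem_nhdsWithin).mono fun ρ hρ => ?_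
  exact hρ.1.trans (mk_mono hle y hρ.2)

theorem LD.le {μ : Measure (E N)} {y : E N} {κ A ρ0 : ℝ} (h : LD m μ y κ) (hρ0 : 0 < ρ0)
    (hA : ∀ ρ, 0 < ρ → ρ ≤ ρ0 → mk m μ y ρ ≤ A) : κ ≤ A := by
  refine le_of_forall_pos_le_add fun ε hε => ?_
  obtain ⟨ρ, h1, h2⟩ := ((h ε hε).and_eventually (Ioo_mem_nhdsGT hρ0)).exists
  linarith [hA ρ h2.1 h2.2.le]


theorem UB.mono {μ ν : Measure (E N)} [IsFiniteMeasure ν] (hle : μ ≤ ν) {A : ℝ} (h : UB m ν A) :
    UB m μ A := by
  intro y ρ hρ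
  exact (ENNReal.toReal_mono (measure_ne_top ν _) (hle _)).trans (h y ρ hρ)

theorem UB.closedBall {μ : Measure (E N)} [IsFiniteMeasure μ] {A : ℝ} (h : UB m μ A) (y : E N)
    {ρ : ℝ} (hρ : 0 < ρ) : (μ (closedBall y ρ)).toReal ≤ A * ρ ^ m := by
  have hc : Tendsto (fun r : ℝ => A * r ^ m) (𝓝[>] ρ) (𝓝 (A * ρ ^ m)) :=
    ((continuous_const.mul (continuous_pow m)).tendsto ρ).mono_left nhdsWithin_le_nhds
  refine ge_of_tendsto hc ?_
  filter_upwards [self_mem_nhdsWithin] with r hr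
  have hr' : ρ < r := hr
  exact (ENNReal.toReal_mono (measure_ne_top μ _)
    (measure_mono (closedBall_subset_ball hr'))).trans (h y r (hρ.trans hr'))

theorem AreaProp.restrict {fr : Fr m N} {μ : Measure (E N)} (h : AreaProp fr μ) {V : Set (E N)}
    (hV : IsOpen V) : AreaProp fr (μ.restrict V) := by
  intro O g hO hg hm
  obtain ⟨θ, hθ, hψ⟩ := h (O ∩ V) g (hO.inter hV) (hg.mono inter_subset_left) hm
  refine ⟨θ, hθ, fun ψ hψm => ?_⟩
  rw [Measure.restrict_restrict hO.measurableSet]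
  exact hψ ψ hψm

/-- Bessel's inequality -/
theorem Fr.bessel (fr : Fr m N) (y v : E N) : ∑ i, ⟪fr.s i y, v⟫ ^ 2 ≤ ‖v‖ ^ 2 := by
  have h := (fr.orth y).sum_inner_products_le v (s := Finset.univ)
  simpa only [Real.norm_eq_abs, sq_abs] using h

theorem Fr.abs_div_le (fr : Fr m N) (X : E N → E N) (y : E N) :
    |fr.div X y| ≤ m * ‖fderiv ℝ X y‖ := by
  unfold Fr.div
  refine (Finset.abs_sum_le_sum_abs _ _).trans ?_
  refine (Finset.sum_le_sum (g := fun _ => ‖fderiv ℝ X y‖) fun i _ => ?_).trans (by simp)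
  refine (abs_real_inner_le_norm _ _).trans ?_
  rw [fr.norm_s, one_mul]
  refine ((fderiv ℝ X y).le_opNorm _).trans ?_
  rw [fr.norm_s, mul_one]

theorem Fr.div_add (fr : Fr m N) {X Y : E N → E N} {y : E N} (hX : DifferentiableAt ℝ X y)
    (hY : DifferentiableAt ℝ Y y) :
    fr.div (fun x => X x + Y x) y = fr.div X y + fr.div Y y := by
  unfold Fr.div
  rw [fderiv_fun_add hX hY, ← Finset.sum_add_distrib]
  refine Finset.sum_congr rfl fun i _ => ?_
  rw [add_apply, inner_add_right]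

theorem Fr.div_id (fr : Fr m N) (c y : E N) : fr.div (fun x => x - c) y = m := by
  unfold Fr.div
  have h : fderiv ℝ (fun x : E N => x - c) y = ContinuousLinearMap.id ℝ (E N) :=
    ((hasFDerivAt_id y).sub_const c).fderiv
  rw [h]
  simp only [ContinuousLinearMap.id_apply, real_inner_self_eq_norm_sq, fr.norm_s]
  simp

theorem Fr.measurable_jac (fr : Fr m N) (g : E N → E m) : Measurable (fr.jac g) := by
  unfold Fr.jac vol
  refine continuous_abs.measurable.comp ?_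
  simp only [Matrix.det_apply', Matrix.of_apply]
  refine Finset.measurable_sum _ fun σ _ => measurable_const.mul ?_
  refine Finset.measurable_prod _ fun j _ => ?_
  have h1 : Measurable fun y => fderiv ℝ g y (fr.s j y) :=
    ContinuousLinearMap.measurable_apply₂.comp ((measurable_fderiv ℝ g).prodMk (fr.meas j))
  exact (EuclideanSpace.proj (σ j) : E m →L[ℝ] ℝ).continuous.measurable.comp h1

end Pool.Agent.MP_f6c0e6_an.Gen

end

section

/-! The monotonicity formula. -/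

set_option autoImplicit false

open MeasureTheory Filter Topology Set Metric
open scoped ENNReal RealInnerProductSpace

namespace Pool.Agent.MP_f6c0e6_an.Gen

variable {m N : ℕ}

/-- the weighted mass ratio -/
noncomputable def mkf (m : ℕ) (μ : Measure (E N)) (f : E N → ℝ) (y : E N) (ρ : ℝ) : ℝ :=
  (ρ ^ m)⁻¹ * ∫ x, f x * gam (‖x - y‖ ^ 2 / ρ ^ 2) ∂μ

/-- the error term of the monotonicity formula -/
noncomputable def mer (fr : Fr m N) (μ : Measure (E N)) (f : E N → ℝ) (y : E N) (ρ : ℝ) : ℝ :=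
  ∫ x, gam (‖x - y‖ ^ 2 / ρ ^ 2) * ∑ i, fderiv ℝ f x (fr.s i x) * ⟪fr.s i x, x - y⟫ ∂μ

/-- the derivative of the profile -/
noncomputable def StatB_G (t : ℝ) : ℝ := -4 * (max (1 - t) 0) ^ 3

/-- the derivative of the kernel with respect to the radius -/
noncomputable def StatB_D (m : ℕ) (r ρ : ℝ) : ℝ :=
  -(1 / ρ ^ (m + 1)) * (m * gam (r / ρ ^ 2) + 2 * (StatB_G (r / ρ ^ 2) * (r / ρ ^ 2)))

theorem StatB_G_nonpos (t : ℝ) : StatB_G t ≤ 0 := by
  have h : 0 ≤ (max (1 - t) 0) ^ 3 := pow_nonneg (le_max_right _ _) 3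
  unfold StatB_G
  linarith

theorem StatB_G_zero {t : ℝ} (ht : 1 ≤ t) : StatB_G t = 0 := by
  unfold StatB_G
  rw [max_eq_right (by linarith)]
  norm_num

theorem StatB_G_bd {t : ℝ} (ht : 0 ≤ t) : -4 ≤ StatB_G t * t := by
  rcases le_total 1 t with h | h
  · rw [StatB_G_zero h]; norm_num
  · unfold StatB_G
    rw [max_eq_left (by linarith)]
    have h1 : (1 - t) ^ 3 ≤ 1 := pow_le_one₀ (by linarith) (by linarith)
    have h2 := mul_le_mul h1 h ht zero_le_one
    linarith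

theorem StatB_G_cont : Continuous StatB_G := by
  unfold StatB_G
  fun_prop

theorem StatB_abs (m : ℕ) {t p : ℝ} (hp : 0 ≤ p) (hpt : p ≤ t) :
    |m * gam t + 2 * (StatB_G t * p)| ≤ m + 8 := by
  have h0 : (0 : ℝ) ≤ m := Nat.cast_nonneg m
  have h1 := mul_nonneg h0 (gam_nonneg t)
  have h2 := mul_le_of_le_one_right h0 (gam_le_one (hp.trans hpt))
  have h3 := StatB_G_bd (hp.trans hpt)
  have h4 := mul_le_mul_of_nonpos_left hpt (StatB_G_nonpos t)
  have h5 := mul_nonpos_of_nonpos_of_nonneg (StatB_G_nonpos t) hp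
  exact abs_le.2 ⟨by linarith, by linarith⟩

theorem StatB_deriv (m : ℕ) (r : ℝ) {ρ : ℝ} (hρ : 0 < ρ) :
    HasDerivAt (fun ρ : ℝ => (ρ ^ m)⁻¹ * gam (r / ρ ^ 2)) (StatB_D m r ρ) ρ := by
  have h1 : ∀ k : ℕ, HasDerivAt (fun ρ : ℝ => (ρ ^ k)⁻¹) (-(k / ρ ^ (k + 1))) ρ := fun k => by
    refine ((hasDerivAt_pow k ρ).inv (by positivity)).congr_deriv ?_
    rcases k with _ | k
    · simp
    · rw [Nat.add_sub_cancel]
      field_simp
      ring
  have h2 : HasDerivAt (fun ρ : ℝ => r / ρ ^ 2) (r * -((2 : ℕ) / ρ ^ (2 + 1))) ρ := by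
    simpa only [div_eq_mul_inv] using (h1 2).const_mul r
  have h3 := (hasDerivAt_gam (r / ρ ^ 2)).comp ρ h2
  refine ((h1 m).mul h3).congr_deriv ?_
  simp only [StatB_D, StatB_G, Function.comp_apply, div_eq_mul_inv]
  push_cast
  ring

theorem StatB_D_bd (m : ℕ) {r ρ σ : ℝ} (hr : 0 ≤ r) (hσ : 0 < σ) (h : σ ≤ ρ) :
    |StatB_D m r ρ| ≤ 1 / σ ^ (m + 1) * (m + 8) := by
  have hρ : 0 < ρ := hσ.trans_le h
  rw [StatB_D, abs_mul, abs_neg, abs_of_pos (by positivity : 0 < 1 / ρ ^ (m + 1))]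
  refine mul_le_mul ?_ (StatB_abs m (by positivity) le_rfl) (abs_nonneg _) (by positivity)
  exact div_le_div_of_nonneg_left zero_le_one (by positivity) (pow_le_pow_left₀ hσ.le h _)

theorem StatB_meas_D (m : ℕ) (y : E N) (ρ : ℝ) :
    Measurable fun x : E N => StatB_D m (‖x - y‖ ^ 2) ρ := by
  have h1 := contDiff_gam.continuous
  have h2 := StatB_G_cont
  refine Continuous.measurable ?_
  unfold StatB_D
  fun_prop

/-- differentiation under the integral sign -/
theorem StatB_hasDerivAt (m : ℕ) {μ : Measure (E N)} [IsFiniteMeasure μ] {F : E N → ℝ}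
    (hm : Measurable F) {C : ℝ} (hC : ∀ x, |F x| ≤ C) (y : E N) {ρ : ℝ} (hρ : 0 < ρ) :
    Integrable (fun x => F x * StatB_D m (‖x - y‖ ^ 2) ρ) μ ∧
      HasDerivAt (mkf m μ F y) (∫ x, F x * StatB_D m (‖x - y‖ ^ 2) ρ ∂μ) ρ := by
  have hg := contDiff_gam.continuous
  have hc : ∀ σ : ℝ, Measurable fun x : E N => F x * ((σ ^ m)⁻¹ * gam (‖x - y‖ ^ 2 / σ ^ 2)) :=
    fun σ => hm.mul (Continuous.measurable (by fun_prop))
  have e : mkf m μ F y = fun σ => ∫ x, F x * ((σ ^ m)⁻¹ * gam (‖x - y‖ ^ 2 / σ ^ 2)) ∂μ := by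
    funext σ
    rw [mkf, ← integral_const_mul]
    exact integral_congr_ae (Eventually.of_forall fun x => by ring)
  rw [e]
  refine hasDerivAt_integral_of_dominated_loc_of_deriv_le (s := Ioi (ρ / 2))
    (F' := fun σ x => F x * StatB_D m (‖x - y‖ ^ 2) σ)
    (bound := fun _ => C * (1 / (ρ / 2) ^ (m + 1) * (m + 8)))
    (Ioi_mem_nhds (half_lt_self hρ)) (Eventually.of_forall fun σ => (hc σ).aestronglyMeasurable)
    ?_ (hm.mul (StatB_meas_D m y ρ)).aestronglyMeasurable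
    (Eventually.of_forall fun x σ hσ => ?_) (integrable_const _)
    (Eventually.of_forall fun x σ hσ => ?_)
  · refine Integrable.of_bound (hc ρ).aestronglyMeasurable (C * ((ρ ^ m)⁻¹ * 1))
      (Eventually.of_forall fun x => ?_)
    rw [Real.norm_eq_abs, abs_mul]
    refine mul_le_mul (hC x) ?_ (abs_nonneg _) ((abs_nonneg _).trans (hC x))
    rw [abs_of_nonneg (mul_nonneg (by positivity) (gam_nonneg _))]
    exact mul_le_mul_of_nonneg_left (gam_le_one (by positivity)) (by positivity)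
  · rw [Real.norm_eq_abs, abs_mul]
    exact mul_le_mul (hC x) (StatB_D_bd m (sq_nonneg _) (half_pos hρ) (le_of_lt hσ))
      (abs_nonneg _) ((abs_nonneg _).trans (hC x))
  · exact (StatB_deriv m _ ((half_pos hρ).trans hσ)).const_mul _

theorem StatB_out {y x : E N} {ρ ρ₂ : ℝ} (hρ : 0 < ρ) (h2 : ρ ≤ ρ₂) (hx : x ∉ closedBall y ρ₂) :
    1 ≤ ‖x - y‖ ^ 2 / ρ ^ 2 := by
  rw [mem_closedBall_iff_norm, not_le] at hx
  rw [le_div_iff₀ (by positivity), one_mul]
  exact pow_le_pow_left₀ hρ.le (h2.trans hx.le) 2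

theorem StatB_div (fr : Fr m N) {f : E N → ℝ} (y : E N) (ρ : ℝ) {x : E N}
    (hf : DifferentiableAt ℝ f x) :
    fr.div (fun x => (f x * gam (‖x - y‖ ^ 2 / ρ ^ 2)) • (x - y)) x =
      gam (‖x - y‖ ^ 2 / ρ ^ 2) * ∑ i, fderiv ℝ f x (fr.s i x) * ⟪fr.s i x, x - y⟫ +
        f x * (m * gam (‖x - y‖ ^ 2 / ρ ^ 2) +
          2 * (StatB_G (‖x - y‖ ^ 2 / ρ ^ 2) * ((∑ i, ⟪fr.s i x, x - y⟫ ^ 2) / ρ ^ 2))) := by
  have h0 : HasFDerivAt (fun x : E N => x - y) (ContinuousLinearMap.id ℝ (E N)) x :=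
    (hasFDerivAt_id x).sub_const y
  have h1 := h0.norm_sq.mul_const ((ρ ^ 2)⁻¹)
  have h2 := (hasDerivAt_gam (‖x - y‖ ^ 2 * (ρ ^ 2)⁻¹)).comp_hasFDerivAt x h1
  have h3 := hf.hasFDerivAt.mul h2
  have h4 : HasFDerivAt (fun x => f x * gam (‖x - y‖ ^ 2 / ρ ^ 2)) _ x := h3
  have h5 : ∀ i, fderiv ℝ (fun x => f x * gam (‖x - y‖ ^ 2 / ρ ^ 2)) x (fr.s i x) *
      ⟪fr.s i x, x - y⟫ =
      gam (‖x - y‖ ^ 2 / ρ ^ 2) * (fderiv ℝ f x (fr.s i x) * ⟪fr.s i x, x - y⟫) +
        f x * 2 * StatB_G (‖x - y‖ ^ 2 / ρ ^ 2) * (ρ ^ 2)⁻¹ * ⟪fr.s i x, x - y⟫ ^ 2 := fun i => by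
    rw [h4.fderiv]
    simp only [ContinuousLinearMap.id_apply, _root_.add_apply, _root_.smul_apply,
      ContinuousLinearMap.comp_apply, innerSL_apply_apply, smul_eq_mul, Function.comp_apply,
      StatB_G, div_eq_mul_inv, nsmul_eq_mul, real_inner_comm (fr.s _ x) (x - y)]
    push_cast
    ring
  rw [fr.div_smul h4.differentiableAt h0.differentiableAt, fr.div_id, Finset.sum_congr rfl
    fun i _ => h5 i, Finset.sum_add_distrib, ← Finset.mul_sum, ← Finset.mul_sum]
  ring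

/-- Test with `X = f gam (|x - y|² / ρ²) (x - y)` and `K = closedBall y ρ₂`; then
`ρ ∂_ρ (ρ^(-m) gam) = ρ^(-m) (- m gam - 2 gam' |x - y|² / ρ²)`, `gam' ≤ 0`, Bessel, the fundamental
theorem of calculus in `ρ` and Fubini. The function `f` is measurable and `C¹` near the closed
ball. -/
theorem mono_gen {fr : Fr m N} {μ : Measure (E N)} [IsFiniteMeasure μ] {O : Set (E N)}
    (h : Stat fr μ O) {y : E N} {ρ₁ ρ₂ : ℝ} (h1 : 0 < ρ₁) (h12 : ρ₁ ≤ ρ₂)
    (hO : closedBall y ρ₂ ⊆ O) {f : E N → ℝ} (hm : Measurable f)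
    (hf : ∀ x ∈ closedBall y ρ₂, ContDiffAt ℝ 1 f x ∧ 0 ≤ f x) {g : ℝ → ℝ}
    (hg : ContinuousOn g (Icc ρ₁ ρ₂)) (hG : ∀ ρ ∈ Icc ρ₁ ρ₂, -g ρ ≤ mer fr μ f y ρ) :
    mkf m μ f y ρ₁ ≤ mkf m μ f y ρ₂ + ∫ ρ in ρ₁..ρ₂, g ρ / ρ ^ (m + 1) := by
  have hK := isCompact_closedBall y ρ₂
  obtain ⟨C, hC⟩ := hK.exists_bound_of_continuousOn (f := f)
    fun x hx => (hf x hx).1.continuousAt.continuousWithinAt
  have hC0 : 0 ≤ C := (norm_nonneg _).trans (hC y (mem_closedBall_self (h1.le.trans h12)))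
  obtain ⟨F, hF⟩ : ∃ F : E N → ℝ, F = (closedBall y ρ₂).indicator f := ⟨_, rfl⟩
  have hFm : Measurable F := hF ▸ hm.indicator measurableSet_closedBall
  have hF1 : ∀ x ∈ closedBall y ρ₂, F x = f x := fun x hx => by rw [hF, indicator_of_mem hx]
  have hF0 : ∀ x, x ∉ closedBall y ρ₂ → F x = 0 := fun x hx => by rw [hF, indicator_of_notMem hx]
  have hFp : ∀ x, 0 ≤ F x := fun x => by
    by_cases hx : x ∈ closedBall y ρ₂
    · rw [hF1 x hx]; exact (hf x hx).2
    · rw [hF0 x hx]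
  have hFC : ∀ x, |F x| ≤ C := fun x => by
    by_cases hx : x ∈ closedBall y ρ₂
    · rw [hF1 x hx]; exact hC x hx
    · rw [hF0 x hx, abs_zero]; exact hC0
  have he : ∀ ρ, 0 < ρ → ρ ≤ ρ₂ → mkf m μ f y ρ = mkf m μ F y ρ := by
    intro ρ hρ h2
    rw [mkf, mkf]
    congr 1
    refine integral_congr_ae (Eventually.of_forall fun x => ?_)
    by_cases hx : x ∈ closedBall y ρ₂
    · simp only [hF1 x hx]
    · simp only [gam_eq_zero (StatB_out hρ h2 hx), mul_zero]
  have key : ∀ ρ ∈ Ioo ρ₁ ρ₂,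
      -(g ρ / ρ ^ (m + 1)) ≤ ∫ x, F x * StatB_D m (‖x - y‖ ^ 2) ρ ∂μ := by
    intro ρ hρ
    have hρ0 : 0 < ρ := h1.trans hρ.1
    have hX : ∀ x ∈ closedBall y ρ₂,
        ContDiffAt ℝ 1 (fun x => (f x * gam (‖x - y‖ ^ 2 / ρ ^ 2)) • (x - y)) x := by
      intro x hx
      have h2 : ContDiff ℝ 1 fun x : E N => x - y := contDiff_id.sub contDiff_const
      have h3 : ContDiff ℝ 1 fun x : E N => gam (‖x - y‖ ^ 2 / ρ ^ 2) :=
        (contDiff_gam.of_le (by norm_num)).comp ((h2.norm_sq ℝ).div_const _)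
      exact ((hf x hx).1.mul h3.contDiffAt).smul h2.contDiffAt
    have hX0 : ∀ x, x ∉ closedBall y ρ₂ →
        (fun x => (f x * gam (‖x - y‖ ^ 2 / ρ ^ 2)) • (x - y)) =ᶠ[𝓝 x] 0 := by
      intro x hx
      filter_upwards [isClosed_closedBall.isOpen_compl.mem_nhds hx] with z hz
      simp only [gam_eq_zero (StatB_out hρ0 hρ.2.le hz), mul_zero, zero_smul, Pi.zero_apply]
    have i1 := fr.integrable_div (μ := μ) hK hX (Eventually.of_forall hX0)
    have e1 := h _ _ hK hO hX (Eventually.of_forall hX0)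
    obtain ⟨P, hP⟩ : ∃ P : E N → ℝ, P = fun x => (∑ i, ⟪fr.s i x, x - y⟫ ^ 2) / ρ ^ 2 := ⟨_, rfl⟩
    have hPm : Measurable P := by
      rw [hP]
      exact (Finset.measurable_fun_sum _ fun i _ =>
        ((fr.meas i).inner (measurable_id.sub_const y)).pow_const 2).div_const _
    have hP0 : ∀ x, 0 ≤ P x := fun x => by rw [hP]; positivity
    have hP1 : ∀ x, P x ≤ ‖x - y‖ ^ 2 / ρ ^ 2 := fun x => by
      rw [hP]
      refine div_le_div_of_nonneg_right ?_ (by positivity)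
      simpa only [Real.norm_eq_abs, sq_abs] using
        (fr.orth x).sum_inner_products_le (s := Finset.univ) (x - y)
    have i2 : Integrable (fun x => F x * (m * gam (‖x - y‖ ^ 2 / ρ ^ 2) +
        2 * (StatB_G (‖x - y‖ ^ 2 / ρ ^ 2) * P x))) μ := by
      have hg := contDiff_gam.continuous
      have hG := StatB_G_cont
      have m1 : Measurable fun x : E N => gam (‖x - y‖ ^ 2 / ρ ^ 2) :=
        Continuous.measurable (by fun_prop)
      have m2 : Measurable fun x : E N => StatB_G (‖x - y‖ ^ 2 / ρ ^ 2) :=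
        Continuous.measurable (by fun_prop)
      refine Integrable.of_bound (hFm.fun_mul ((m1.const_mul _).fun_add
        ((m2.fun_mul hPm).const_mul _))).aestronglyMeasurable (C * (m + 8))
        (Eventually.of_forall fun x => ?_)
      rw [Real.norm_eq_abs, abs_mul]
      exact mul_le_mul (hFC x) (StatB_abs m (hP0 x) (hP1 x)) (abs_nonneg _) hC0
    have e2 : mer fr μ f y ρ = -∫ x, F x * (m * gam (‖x - y‖ ^ 2 / ρ ^ 2) +
        2 * (StatB_G (‖x - y‖ ^ 2 / ρ ^ 2) * P x)) ∂μ := by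
      rw [← zero_sub, ← e1, ← integral_sub i1 i2, mer]
      refine integral_congr_ae (Eventually.of_forall fun x => ?_)
      by_cases hx : x ∈ closedBall y ρ₂
      · simp only [StatB_div fr y ρ ((hf x hx).1.differentiableAt one_ne_zero), hF1 x hx, hP,
          add_sub_cancel_right]
      · simp only [Fr.div, (hX0 x hx).fderiv_eq, gam_eq_zero (StatB_out hρ0 hρ.2.le hx), hF0 x hx,
          fderiv_zero, Pi.zero_apply, _root_.zero_apply, inner_zero_right, Finset.sum_const_zero,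
          zero_mul, mul_zero, sub_zero]
    have h3 := div_le_div_of_nonneg_right (hG ρ ⟨hρ.1.le, hρ.2.le⟩) (pow_pos hρ0 (m + 1)).le
    rw [neg_div, e2, ← integral_neg, ← integral_div] at h3
    refine h3.trans (integral_mono (i2.neg.div_const _) (StatB_hasDerivAt m hFm hFC y hρ0).1
      fun x => ?_)
    have h4 := mul_le_mul_of_nonneg_left (mul_le_mul_of_nonneg_left
      (mul_le_mul_of_nonpos_left (hP1 x) (StatB_G_nonpos (‖x - y‖ ^ 2 / ρ ^ 2))) (hFp x))
      (by positivity : 0 ≤ 2 / ρ ^ (m + 1))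
    simp only [StatB_D, div_eq_mul_inv] at h4 ⊢
    linarith
  have hd := fun ρ (hρ : ρ₁ ≤ ρ) => (StatB_hasDerivAt m (μ := μ) hFm hFC y (h1.trans_le hρ)).2
  have h5 := intervalIntegral.integral_le_sub_of_hasDeriv_right_of_le (g := mkf m μ F y)
    (φ := fun ρ => -(g ρ / ρ ^ (m + 1))) h12 (fun ρ hρ => (hd ρ hρ.1).continuousAt.continuousWithinAt)
    (fun ρ hρ => (hd ρ hρ.1.le).hasDerivWithinAt)
    (ContinuousOn.integrableOn_Icc (hg.div (continuousOn_pow (m + 1))
      fun ρ hρ => (pow_pos (h1.trans_le hρ.1) (m + 1)).ne').neg) key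
  rw [intervalIntegral.integral_neg] at h5
  rw [he ρ₁ h1 h12, he ρ₂ (h1.trans_le h12) le_rfl]
  linarith

end Pool.Agent.MP_f6c0e6_an.Gen

end

section

/-! Consequences of the monotonicity formula. -/

set_option autoImplicit false

open MeasureTheory Filter Topology Set Metric
open scoped ENNReal RealInnerProductSpace

namespace Pool.Agent.MP_f6c0e6_an.Gen

variable {m N : ℕ}

theorem StatC_meas (y : E N) (ρ : ℝ) : Measurable fun x : E N => gam (‖x - y‖ ^ 2 / ρ ^ 2) :=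
  (contDiff_gam.continuous.comp (by fun_prop)).measurable

theorem StatC_zero {y x : E N} {ρ : ℝ} (hρ : 0 < ρ) (hx : ρ ≤ ‖x - y‖) :
    gam (‖x - y‖ ^ 2 / ρ ^ 2) = 0 :=
  gam_eq_zero ((one_le_div (by positivity)).2 (pow_le_pow_left₀ hρ.le hx 2))

theorem StatC_int (μ : Measure (E N)) [IsFiniteMeasure μ] (y : E N) (ρ : ℝ) :
    Integrable (fun x : E N => gam (‖x - y‖ ^ 2 / ρ ^ 2)) μ :=
  (integrable_const (1 : ℝ)).mono' (StatC_meas y ρ).aestronglyMeasurable (ae_of_all _ fun x => by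
    rw [Real.norm_eq_abs, abs_of_nonneg (gam_nonneg _)]
    exact gam_le_one (by positivity))

theorem StatC_bd {y : E N} {ρ ρ₂ B : ℝ} (hρ : 0 < ρ) (h : ρ ≤ ρ₂) {f : E N → ℝ}
    (hf : ∀ x ∈ closedBall y ρ₂, 0 ≤ f x ∧ f x ≤ B) (x : E N) :
    0 ≤ f x * gam (‖x - y‖ ^ 2 / ρ ^ 2) ∧ f x * gam (‖x - y‖ ^ 2 / ρ ^ 2) ≤ B := by
  have hB : 0 ≤ B := (hf y (mem_closedBall_self (hρ.le.trans h))).1.trans
    (hf y (mem_closedBall_self (hρ.le.trans h))).2
  rcases le_total ρ ‖x - y‖ with hx | hx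
  · rw [StatC_zero hρ hx, mul_zero]
    exact ⟨le_rfl, hB⟩
  · have := hf x (mem_closedBall_iff_norm.2 (hx.trans h))
    exact ⟨mul_nonneg this.1 (gam_nonneg _),
      (mul_le_of_le_one_right this.1 (gam_le_one (by positivity))).trans this.2⟩

theorem StatC_one (μ : Measure (E N)) (y : E N) (ρ : ℝ) : mkf m μ (fun _ => 1) y ρ = mk m μ y ρ := by
  simp [mkf, mk]

theorem StatC_int' (μ : Measure (E N)) [IsFiniteMeasure μ] {y : E N} {ρ ρ₂ B : ℝ} (hρ : 0 < ρ)
    (h : ρ ≤ ρ₂) {f : E N → ℝ} (hm : Measurable f)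
    (hf : ∀ x ∈ closedBall y ρ₂, 0 ≤ f x ∧ f x ≤ B) :
    Integrable (fun x => f x * gam (‖x - y‖ ^ 2 / ρ ^ 2)) μ :=
  (integrable_const B).mono' (hm.mul (StatC_meas y ρ)).aestronglyMeasurable
    (ae_of_all _ fun x => by
      rw [Real.norm_eq_abs, abs_of_nonneg (StatC_bd hρ h hf x).1]
      exact (StatC_bd hρ h hf x).2)

theorem StatC_sup {y : E N} {ρ₂ : ℝ} {f : E N → ℝ}
    (hf : ∀ x ∈ closedBall y ρ₂, ContDiffAt ℝ 1 f x ∧ 0 ≤ f x) :
    ∃ B, ∀ x ∈ closedBall y ρ₂, 0 ≤ f x ∧ f x ≤ B := by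
  obtain ⟨B, hB⟩ := (isCompact_closedBall y ρ₂).exists_bound_of_continuousOn
    (f := f) fun x hx => (hf x hx).1.continuousAt.continuousWithinAt
  exact ⟨B, fun x hx => ⟨(hf x hx).2, (le_abs_self _).trans (hB x hx)⟩⟩

/-- the passage to the scale zero -/
theorem StatC_lim {μ : Measure (E N)} [IsFiniteMeasure μ] {y : E N} {κ ρ₂ C : ℝ}
    (hy : LD m μ y κ) (h2 : 0 < ρ₂) {f : E N → ℝ} (hm : Measurable f)
    (hf : ∀ x ∈ closedBall y ρ₂, ContDiffAt ℝ 1 f x ∧ 0 ≤ f x)
    (key : ∀ ρ₁, 0 < ρ₁ → ρ₁ ≤ ρ₂ → mkf m μ f y ρ₁ ≤ C) : f y * κ ≤ C := by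
  obtain ⟨B, hf'⟩ := StatC_sup hf
  have hy0 := hf y (mem_closedBall_self h2.le)
  rcases hy0.2.eq_or_lt with e | hpos
  · rw [← e, zero_mul]
    exact le_trans (mul_nonneg (by positivity)
      (integral_nonneg fun x => (StatC_bd h2 le_rfl hf' x).1)) (key ρ₂ h2 le_rfl)
  have lim : ∀ ε ∈ Ioo 0 (f y), (f y - ε) * (κ - ε) ≤ C := by
    intro ε hε
    obtain ⟨r, hr, H⟩ := Metric.eventually_nhds_iff.1
      (hy0.1.continuousAt.eventually (lt_mem_nhds (show f y - ε < f y by linarith [hε.1])))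
    obtain ⟨ρ, h3, h4⟩ := ((hy ε hε.1).and_eventually
      (Ioo_mem_nhdsGT (lt_min hr h2))).exists
    have h5 : ρ ≤ ρ₂ := h4.2.le.trans (min_le_right _ _)
    have h6 := h4.1
    refine le_trans ((mul_le_mul_of_nonneg_left h3 (sub_nonneg.2 hε.2.le)).trans ?_)
      (key ρ h4.1 h5)
    unfold mk mkf
    rw [mul_left_comm, ← integral_const_mul]
    refine mul_le_mul_of_nonneg_left (integral_mono ((StatC_int μ y ρ).const_mul _)
      (StatC_int' μ h4.1 h5 hm hf') fun x => ?_) (by positivity)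
    rcases le_total ρ ‖x - y‖ with hx | hx
    · simp only [StatC_zero h4.1 hx, mul_zero, le_refl]
    · refine mul_le_mul_of_nonneg_right (H ?_).le (gam_nonneg _)
      rw [dist_eq_norm]
      exact hx.trans_lt (h4.2.trans_le (min_le_left _ _))
  have hc : ContinuousAt (fun ε : ℝ => (f y - ε) * (κ - ε)) 0 := by fun_prop
  have := le_of_tendsto (hc.tendsto.mono_left (nhdsWithin_le_nhds (s := Ioi 0)))
    (mem_of_superset (Ioo_mem_nhdsGT hpos) lim)
  simpa using this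

theorem mono_one {fr : Fr m N} {μ : Measure (E N)} [IsFiniteMeasure μ] {O : Set (E N)}
    (h : Stat fr μ O) {y : E N} {ρ₁ ρ₂ : ℝ} (h1 : 0 < ρ₁) (h12 : ρ₁ ≤ ρ₂)
    (hO : ball y ρ₂ ⊆ O) : mk m μ y ρ₁ ≤ mk m μ y ρ₂ := by
  rcases h12.eq_or_lt with rfl | hlt
  · exact le_rfl
  have h2 : 0 < ρ₂ := h1.trans hlt
  have key : ∀ ρ ∈ Ioo ρ₁ ρ₂,
      mk m μ y ρ₁ ≤ (ρ ^ m)⁻¹ * ∫ x, gam (‖x - y‖ ^ 2 / ρ₂ ^ 2) ∂μ := by
    intro ρ hρ
    have hρ0 : 0 < ρ := h1.trans hρ.1
    have := mono_gen h h1 hρ.1.le ((closedBall_subset_ball hρ.2).trans hO) (f := fun _ => 1)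
      measurable_const (fun x _ => ⟨contDiffAt_const, zero_le_one⟩) (g := fun _ => 0)
      continuousOn_const (fun t _ => by simp [mer])
    simp only [StatC_one, zero_div, intervalIntegral.integral_zero, add_zero] at this
    refine this.trans (mul_le_mul_of_nonneg_left
      (integral_mono (StatC_int μ y ρ) (StatC_int μ y ρ₂) fun x => gam_anti ?_) (by positivity))
    have := hρ.2.le
    gcongr
  have hc : ContinuousAt (fun ρ : ℝ => (ρ ^ m)⁻¹ * ∫ x, gam (‖x - y‖ ^ 2 / ρ₂ ^ 2) ∂μ) ρ₂ :=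
    ((continuousAt_id.pow m).inv₀ (pow_pos h2 m).ne').mul continuousAt_const
  exact ge_of_tendsto (hc.tendsto.mono_left (nhdsWithin_le_nhds (s := Iio ρ₂)))
    (mem_of_superset (Ioo_mem_nhdsLT hlt) key)

theorem LD.le_mk {fr : Fr m N} {μ : Measure (E N)} [IsFiniteMeasure μ] {O : Set (E N)}
    (h : Stat fr μ O) {y : E N} {κ ρ : ℝ} (hy : LD m μ y κ) (hρ : 0 < ρ) (hO : ball y ρ ⊆ O) :
    κ ≤ mk m μ y ρ := by
  exact hy.le hρ fun t ht htρ => mono_one h ht htρ hO

theorem mono_log {fr : Fr m N} {μ : Measure (E N)} [IsFiniteMeasure μ] {O : Set (E N)}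
    (h : Stat fr μ O) {y : E N} {ρ₁ ρ₂ : ℝ} (h1 : 0 < ρ₁) (h12 : ρ₁ ≤ ρ₂)
    (hO : closedBall y ρ₂ ⊆ O) {f : E N → ℝ} (hm : Measurable f)
    (hf : ∀ x ∈ closedBall y ρ₂, ContDiffAt ℝ 1 f x ∧ 0 ≤ f x) {a b : ℝ} (hb : 0 ≤ b)
    (hG : ∀ ρ ∈ Icc ρ₁ ρ₂, -(a * ρ ^ m + b * ρ ^ (m + 1)) ≤ mer fr μ f y ρ) :
    mkf m μ f y ρ₁ ≤ mkf m μ f y ρ₂ + a * Real.log (ρ₂ / ρ₁) + b * ρ₂ := by
  have h2 : 0 < ρ₂ := h1.trans_le h12
  have := mono_gen h h1 h12 hO hm hf (g := fun ρ => a * ρ ^ m + b * ρ ^ (m + 1)) (by fun_prop) hG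
  have e : ∫ ρ in ρ₁..ρ₂, (a * ρ ^ m + b * ρ ^ (m + 1)) / ρ ^ (m + 1)
      = (a * Real.log ρ₂ + b * ρ₂) - (a * Real.log ρ₁ + b * ρ₁) := by
    refine intervalIntegral.integral_eq_sub_of_hasDerivAt (f := fun ρ => a * Real.log ρ + b * ρ)
      (fun t ht => ?_) (ContinuousOn.intervalIntegrable ?_)
    · rw [uIcc_of_le h12] at ht
      have ht0 : t ≠ 0 := (h1.trans_le ht.1).ne'
      refine (((Real.hasDerivAt_log ht0).const_mul a).add
        ((hasDerivAt_id t).const_mul b)).congr_deriv ?_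
      rw [pow_succ]
      field_simp
    · rw [uIcc_of_le h12]
      exact ContinuousOn.div (by fun_prop) (by fun_prop) fun t ht =>
        pow_ne_zero _ (h1.trans_le ht.1).ne'
  rw [e] at this
  rw [Real.log_div h2.ne' h1.ne']
  linarith [mul_nonneg hb h1.le]

/-- Mean value inequality for a subsolution. If `M` is the supremum of `mkf` on `[ρ₁, ρ₂]` (finite)
then `mono_gen` on `[ρ, ρ₂]` with `g ρ = ρ ^ (m + 2) * M` gives `M ≤ mkf ρ₂ + M / 2`; then let `ρ₁`
tend to zero along the sequence given by `LD`. -/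
theorem mean_ineq {fr : Fr m N} {μ : Measure (E N)} [IsFiniteMeasure μ] {O : Set (E N)}
    (h : Stat fr μ O) {y : E N} {κ ρ₂ : ℝ} (hy : LD m μ y κ) (h2 : 0 < ρ₂) (h21 : ρ₂ ≤ 1)
    (hO : closedBall y ρ₂ ⊆ O) {f : E N → ℝ} (hm : Measurable f)
    (hf : ∀ x ∈ closedBall y ρ₂, ContDiffAt ℝ 1 f x ∧ 0 ≤ f x)
    (hG : ∀ ρ, 0 < ρ → ρ ≤ ρ₂ → -(ρ ^ (m + 2) * mkf m μ f y ρ) ≤ mer fr μ f y ρ) :
    f y * κ ≤ 2 * mkf m μ f y ρ₂ := by
  obtain ⟨B, hf'⟩ := StatC_sup hf
  have h0 : ∀ ρ, 0 < ρ → ρ ≤ ρ₂ → 0 ≤ mkf m μ f y ρ := fun ρ h1 h12 =>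
    mul_nonneg (by positivity) (integral_nonneg fun x => (StatC_bd h1 h12 hf' x).1)
  refine StatC_lim hy h2 hm hf fun ρ₁ h1 h12 => ?_
  have hbd : BddAbove (mkf m μ f y '' Icc ρ₁ ρ₂) := by
    refine ⟨(ρ₁ ^ m)⁻¹ * ∫ _, B ∂μ, ?_⟩
    rintro _ ⟨ρ, hρ, rfl⟩
    have hρ0 := h1.trans_le hρ.1
    refine mul_le_mul (by have := hρ.1; gcongr) (integral_mono (StatC_int' μ hρ0 hρ.2 hm hf')
      (integrable_const B) fun x => (StatC_bd hρ0 hρ.2 hf' x).2)
      (integral_nonneg fun x => (StatC_bd hρ0 hρ.2 hf' x).1) (by positivity)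
  set M := sSup (mkf m μ f y '' Icc ρ₁ ρ₂) with hM
  have hle : ∀ ρ ∈ Icc ρ₁ ρ₂, mkf m μ f y ρ ≤ M := fun ρ hρ => le_csSup hbd ⟨ρ, hρ, rfl⟩
  have hM0 : 0 ≤ M := (h0 ρ₁ h1 h12).trans (hle ρ₁ ⟨le_rfl, h12⟩)
  have hM1 : M ≤ mkf m μ f y ρ₂ + M / 2 := by
    refine csSup_le ⟨_, ρ₁, ⟨le_rfl, h12⟩, rfl⟩ ?_
    rintro _ ⟨ρ, hρ, rfl⟩
    have hρ0 := h1.trans_le hρ.1
    have := mono_gen h hρ0 hρ.2 hO hm hf (g := fun t => t ^ (m + 2) * M) (by fun_prop) fun t ht =>
      le_trans (neg_le_neg (mul_le_mul_of_nonneg_left (hle t ⟨hρ.1.trans ht.1, ht.2⟩)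
        (pow_nonneg (hρ0.trans_le ht.1).le _))) (hG t (hρ0.trans_le ht.1) ht.2)
    have e : ∫ t in ρ..ρ₂, t ^ (m + 2) * M / t ^ (m + 1) = ∫ t in ρ..ρ₂, t * M := by
      refine intervalIntegral.integral_congr fun t ht => ?_
      rw [uIcc_of_le hρ.2] at ht
      have ht0 : t ≠ 0 := (hρ0.trans_le ht.1).ne'
      simp only [pow_succ _ (m + 1)]
      field_simp
    rw [e, intervalIntegral.integral_mul_const, integral_id] at this
    have h3 : (ρ₂ ^ 2 - ρ ^ 2) / 2 ≤ 1 / 2 := by nlinarith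
    linarith [mul_le_mul_of_nonneg_right h3 hM0]
  linarith [hle ρ₁ ⟨le_rfl, h12⟩]

/-- the weighted monotonicity down to the scale zero -/
theorem mono_zero {fr : Fr m N} {μ : Measure (E N)} [IsFiniteMeasure μ] {O : Set (E N)}
    (h : Stat fr μ O) {y : E N} {κ ρ₂ : ℝ} (hy : LD m μ y κ) (h2 : 0 < ρ₂)
    (hO : closedBall y ρ₂ ⊆ O) {f : E N → ℝ} (hm : Measurable f)
    (hf : ∀ x ∈ closedBall y ρ₂, ContDiffAt ℝ 1 f x ∧ 0 ≤ f x) {g : ℝ → ℝ} {G : ℝ}
    (hg : ContinuousOn g (Ioc 0 ρ₂)) (hG : ∀ ρ ∈ Ioc 0 ρ₂, -g ρ ≤ mer fr μ f y ρ)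
    (hI : ∀ ρ₁ ∈ Ioc 0 ρ₂, ∫ ρ in ρ₁..ρ₂, g ρ / ρ ^ (m + 1) ≤ G) :
    f y * κ ≤ mkf m μ f y ρ₂ + G := by
  refine StatC_lim hy h2 hm hf fun ρ₁ h1 h12 => ?_
  have hs : Icc ρ₁ ρ₂ ⊆ Ioc 0 ρ₂ := Icc_subset_Ioc_left h1
  linarith [mono_gen h h1 h12 hO hm hf (hg.mono hs) fun ρ hρ => hG ρ (hs hρ), hI ρ₁ ⟨h1, h12⟩]

/-- lower bound for the mass of a ball about a good point -/
theorem LD.le_ball {fr : Fr m N} {μ : Measure (E N)} [IsFiniteMeasure μ] {O : Set (E N)}
    (h : Stat fr μ O) {y : E N} {κ ρ : ℝ} (hy : LD m μ y κ) (hρ : 0 < ρ) (hO : ball y ρ ⊆ O) :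
    κ * ρ ^ m ≤ (μ (ball y ρ)).toReal := by
  exact (mul_le_mul_of_nonneg_right (hy.le_mk h hρ hO) (pow_nonneg hρ.le m)).trans
    (mk_le_ball μ y hρ)

/-- Upper bound for the mass of all balls. A ball of radius `ρ ≤ 1 / 10` that meets `ball y₀ R` at
`p` is contained in `closedBall p (2 ρ)`; use `ball_le_mk` at `p` with the radius `5 ρ / 2`. For
larger balls use the centre `y₀` and the radius `1 / 4`. -/
theorem UB_of_mk (m : ℕ) (A : ℝ) : ∃ A' : ℝ, 1 ≤ A' ∧ ∀ {N : ℕ} {μ : Measure (E N)}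
    [IsFiniteMeasure μ] {y₀ : E N} {R : ℝ}, ‖y₀‖ ≤ 1 / 10 → R ≤ 1 / 10 →
    (∀ y ∈ ball (0 : E N) (1 / 2), ∀ ρ, 0 < ρ → ρ ≤ 1 / 4 → mk m μ y ρ ≤ A) →
    UB m (μ.restrict (ball y₀ R)) A' := by
  have hg : 0 < gam ((4 / 5) ^ 2) := by
    unfold gam
    exact pow_pos (lt_max_of_lt_left (by norm_num)) _
  refine ⟨max 1 (|A| * (5 / 2) ^ m / gam ((4 / 5) ^ 2)), le_max_left _ _, ?_⟩
  intro N μ _ y₀ R hy₀ hR hA y ρ hρ
  have key : ∃ p ∈ ball (0 : E N) (1 / 2), ∃ r, 0 < r ∧ r ≤ 1 / 4 ∧ r ≤ 5 / 2 * ρ ∧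
      ball y ρ ∩ ball y₀ R ⊆ closedBall p (4 / 5 * r) := by
    have h0 : y₀ ∈ ball (0 : E N) (1 / 2) := mem_ball_zero_iff.2 (by linarith)
    rcases le_total ρ (1 / 10) with h1 | h1
    · rcases (ball y ρ ∩ ball y₀ R).eq_empty_or_nonempty with e | ⟨p, hp, hp'⟩
      · exact ⟨y₀, h0, 5 / 2 * ρ, by positivity, by linarith, le_rfl, e ▸ empty_subset _⟩
      · refine ⟨p, mem_ball_zero_iff.2 ?_, 5 / 2 * ρ, by positivity, by linarith, le_rfl,
          fun x hx => ?_⟩
        · have := norm_le_norm_add_norm_sub' p y₀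
          linarith [mem_ball_iff_norm.1 hp']
        · have := dist_triangle_right x p y
          rw [mem_closedBall]
          linarith [mem_ball.1 hx.1, mem_ball.1 hp]
    · refine ⟨y₀, h0, 1 / 4, by norm_num, le_rfl, by linarith, fun x hx => ?_⟩
      rw [mem_closedBall]
      linarith [mem_ball.1 hx.2]
  obtain ⟨p, hp, r, hr, hr1, hr2, hs⟩ := key
  have h1 := ball_le_mk (m := m) μ p hr (t := 4 / 5) (by norm_num)
  have h2 : mk m μ p r * r ^ m ≤ |A| * (5 / 2 * ρ) ^ m :=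
    mul_le_mul ((hA p hp r hr hr1).trans (le_abs_self A)) (pow_le_pow_left₀ hr.le hr2 m)
      (by positivity) (abs_nonneg A)
  rw [Measure.restrict_apply measurableSet_ball]
  refine (ENNReal.toReal_mono (measure_ne_top μ _) (measure_mono hs)).trans
    (le_trans ?_ (mul_le_mul_of_nonneg_right (le_max_right _ _) (by positivity)))
  rw [div_mul_eq_mul_div (|A| * _), le_div_iff₀' hg, mul_assoc, ← mul_pow]
  exact h1.trans h2

end Pool.Agent.MP_f6c0e6_an.Gen

end

section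

/-! Rescaling. -/

set_option autoImplicit false

open MeasureTheory Filter Topology Set Metric
open scoped ENNReal RealInnerProductSpace

namespace Pool.Agent.MP_f6c0e6_an.Gen

variable {m N : ℕ}

/-- the rescaling as a homeomorphism -/
noncomputable def StartA_hom (x₀ : E N) {r : ℝ} (hr : 0 < r) : E N ≃ₜ E N where
  toFun y := r⁻¹ • (y - x₀)
  invFun y := x₀ + r • y
  left_inv y := by simp [smul_smul, hr.ne']
  right_inv y := by simp [smul_smul, hr.ne']
  continuous_toFun := by fun_prop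
  continuous_invFun := by fun_prop

theorem StartA_emb (x₀ : E N) {r : ℝ} (hr : 0 < r) :
    MeasurableEmbedding fun y : E N => r⁻¹ • (y - x₀) :=
  (StartA_hom x₀ hr).measurableEmbedding

theorem StartA_inv (x₀ : E N) {r : ℝ} (hr : 0 < r) (y : E N) : x₀ + r • r⁻¹ • (y - x₀) = y :=
  (StartA_hom x₀ hr).left_inv y

theorem StartA_fderiv {F : Type} [NormedAddCommGroup F] [NormedSpace ℝ F] (g : E N → F)
    (x₀ : E N) (r : ℝ) (y v : E N) : fderiv ℝ (fun x => g (r⁻¹ • (x - x₀))) y v =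
      r⁻¹ • fderiv ℝ g (r⁻¹ • (y - x₀)) v := by
  rw [fderiv_comp_sub (f := fun x => g (r⁻¹ • x)), fderiv_comp_smul]
  rfl

theorem StartA_vol (c : ℝ) (v : Fin m → E m) : vol (fun j => c • v j) = |c| ^ m * vol v := by
  have h : (Matrix.of fun i j => (c • v j) i) = c • Matrix.of fun i j => v j i := by
    ext i j
    simp
  rw [vol, vol, h, Matrix.det_smul, abs_mul, abs_pow, Fintype.card_fin]

theorem scl_finite (μ : Measure (E N)) [IsFiniteMeasure μ] (y₀ : E N) (r : ℝ) :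
    IsFiniteMeasure (scl m μ y₀ r) :=
  Measure.smul_finite _ ENNReal.ofReal_ne_top

theorem integral_scl {F : Type} [NormedAddCommGroup F] [NormedSpace ℝ F] (μ : Measure (E N))
    (y₀ : E N) {r : ℝ} (hr : 0 < r) (f : E N → F) :
    ∫ y, f y ∂(scl m μ y₀ r) = (r ^ m)⁻¹ • ∫ y, f (r⁻¹ • (y - y₀)) ∂μ := by
  rw [scl, integral_smul_measure, (StartA_emb y₀ hr).integral_map,
    ENNReal.toReal_ofReal (by positivity)]

theorem scl_apply (μ : Measure (E N)) (y₀ : E N) {r : ℝ} (hr : 0 < r) (Z : Set (E N)) :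
    (scl m μ y₀ r Z).toReal = (r ^ m)⁻¹ * (μ ((fun y => r⁻¹ • (y - y₀)) ⁻¹' Z)).toReal := by
  rw [scl, Measure.smul_apply, (StartA_emb y₀ hr).map_apply, smul_eq_mul, ENNReal.toReal_mul,
    ENNReal.toReal_ofReal (by positivity)]

theorem ae_scl (μ : Measure (E N)) (y₀ : E N) {r : ℝ} (hr : 0 < r) (q : E N → Prop) :
    (∀ᵐ y ∂(scl m μ y₀ r), q y) ↔ ∀ᵐ y ∂μ, q (r⁻¹ • (y - y₀)) := by
  rw [scl, Measure.ae_ennreal_smul_measure_iff
    (ENNReal.ofReal_pos.mpr (by positivity)).ne', (StartA_emb y₀ hr).ae_map_iff]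

theorem scl_restrict (μ : Measure (E N)) (y₀ : E N) {r : ℝ} (hr : 0 < r) (Z : Set (E N)) :
    (scl m μ y₀ r).restrict Z = scl m (μ.restrict ((fun y => r⁻¹ • (y - y₀)) ⁻¹' Z)) y₀ r := by
  rw [scl, scl, Measure.restrict_smul, (StartA_emb y₀ hr).restrict_map]

theorem Stat.scl {fr : Fr m N} {μ : Measure (E N)} {O : Set (E N)} (h : Stat fr μ O) (y₀ : E N)
    {r : ℝ} (hr : 0 < r) :
    Stat (fr.scl y₀ r) (scl m μ y₀ r) ((fun y => y₀ + r • y) ⁻¹' O) := by
  intro X K hK hKO hX hae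
  rw [ae_scl μ y₀ hr] at hae
  have hA : Continuous fun y : E N => r⁻¹ • (y - y₀) := by fun_prop
  have h4 := h (fun y => X (r⁻¹ • (y - y₀))) ((fun y => r⁻¹ • (y - y₀)) ⁻¹' K)
    ((StartA_hom y₀ hr).isCompact_preimage.mpr hK)
    (fun y hy => by
      have h1 := hKO hy
      rwa [mem_preimage, StartA_inv y₀ hr] at h1)
    (fun y hy => (hX _ hy).comp y (f := fun y : E N => r⁻¹ • (y - y₀)) (by fun_prop))
    (by
      filter_upwards [hae] with y hy hyK
      exact (hA.tendsto y).eventually (hy hyK))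
  have h5 : ∀ y, fr.div (fun y => X (r⁻¹ • (y - y₀))) y =
      r⁻¹ * (fr.scl y₀ r).div X (r⁻¹ • (y - y₀)) := fun y => by
    simp only [Fr.div, StartA_fderiv, inner_smul_right, ← Finset.mul_sum, Fr.scl,
      StartA_inv y₀ hr]
  simp only [h5] at h4
  rw [integral_const_mul, mul_eq_zero, or_iff_right (inv_ne_zero hr.ne')] at h4
  rw [integral_scl μ y₀ hr, h4, smul_zero]

theorem AreaProp.scl {fr : Fr m N} {μ : Measure (E N)} (h : AreaProp fr μ) (y₀ : E N)
    {r : ℝ} (hr : 0 < r) : AreaProp (fr.scl y₀ r) (scl m μ y₀ r) := by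
  intro O g hO hg hm
  have hA : Continuous fun y : E N => r⁻¹ • (y - y₀) := by fun_prop
  obtain ⟨θ, hθ, H⟩ := h ((fun y => r⁻¹ • (y - y₀)) ⁻¹' O)
    (fun y => g (r⁻¹ • (y - y₀))) (hO.preimage hA)
    (hg.comp (f := fun y : E N => r⁻¹ • (y - y₀)) (by fun_prop) fun y hy => hy)
    (hm.comp hA.measurable)
  refine ⟨θ, hθ, fun ψ hψ => ?_⟩
  rw [← H ψ hψ, scl_restrict μ y₀ hr, Gen.scl, lintegral_smul_measure,
    (StartA_emb y₀ hr).lintegral_map, smul_eq_mul,
    ← lintegral_const_mul' _ _ ENNReal.ofReal_ne_top]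
  refine lintegral_congr fun y => ?_
  rw [mul_left_comm, ← ENNReal.ofReal_mul (by positivity)]
  congr 2
  simp only [Fr.jac, Fr.scl, StartA_inv y₀ hr, StartA_fderiv, StartA_vol]
  rw [abs_of_pos (inv_pos.mpr hr), inv_pow]

theorem mk_scl (μ : Measure (E N)) (y₀ : E N) {r : ℝ} (hr : 0 < r) (y : E N) (ρ : ℝ) :
    mk m (scl m μ y₀ r) y ρ = mk m μ (y₀ + r • y) (r * ρ) := by
  rw [mk, mk, integral_scl μ y₀ hr, smul_eq_mul, ← mul_assoc, mul_pow, mul_inv, mul_comm (r ^ m)⁻¹]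
  congr 1
  refine integral_congr_ae (Eventually.of_forall fun x => congrArg gam ?_)
  have h1 : x - (y₀ + r • y) = r • (r⁻¹ • (x - y₀) - y) := by
    rw [smul_sub, smul_smul, mul_inv_cancel₀ hr.ne', one_smul, sub_sub]
  rw [h1, norm_smul, Real.norm_of_nonneg hr.le, mul_pow, mul_pow,
    mul_div_mul_left _ _ (pow_ne_zero 2 hr.ne')]

theorem LD.scl {μ : Measure (E N)} {y₀ y : E N} {r κ : ℝ} (hr : 0 < r)
    (h : LD m μ (y₀ + r • y) κ) : LD m (scl m μ y₀ r) y κ := by
  intro ε hε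
  have h1 : Tendsto (fun σ : ℝ => σ / r) (𝓝[>] 0) (𝓝[>] 0) := by
    refine tendsto_nhdsWithin_iff.mpr ⟨?_, ?_⟩
    · refine Tendsto.mono_left ?_ nhdsWithin_le_nhds
      simpa using (continuous_id.div_const r).tendsto (0 : ℝ)
    · filter_upwards [self_mem_nhdsWithin] with σ hσ using div_pos hσ hr
  refine h1.frequently ((h ε hε).mono fun σ hσ => ?_)
  rw [mk_scl μ y₀ hr, mul_div_cancel₀ _ hr.ne']
  exact hσ

theorem UB.scl {μ : Measure (E N)} {A : ℝ} (h : UB m μ A) (y₀ : E N) {r : ℝ} (hr : 0 < r) :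
    UB m (scl m μ y₀ r) A := by
  intro y ρ hρ
  have h1 : (fun x : E N => r⁻¹ • (x - y₀)) ⁻¹' ball y ρ = ball (y₀ + r • y) (r * ρ) := by
    ext x
    have h2 : x - (y₀ + r • y) = r • (r⁻¹ • (x - y₀) - y) := by
      rw [smul_sub, smul_smul, mul_inv_cancel₀ hr.ne', one_smul, sub_sub]
    rw [mem_preimage, mem_ball_iff_norm, mem_ball_iff_norm, h2, norm_smul,
      Real.norm_of_nonneg hr.le, mul_lt_mul_iff_right₀ hr]
  rw [scl_apply μ y₀ hr, h1, inv_mul_le_iff₀ (by positivity)]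
  calc _ ≤ A * (r * ρ) ^ m := h _ _ (by positivity)
    _ = _ := by ring

end Pool.Agent.MP_f6c0e6_an.Gen

end
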