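import Pool.Agent.MP_f6c0e6_an.All.ChartB
import Pool.Agent.MP_f6c0e6_an.All.Stat
import Pool.Agent.MP_f6c0e6_an.All.Basic
import Pool.Agent.MP_f6c0e6_an.All.Rect

section

/-! Differentiability of the Fermi chart, measurability. -/

set_option autoImplicit false

open MeasureTheory Filter Topology Set Metric
open scoped ENNReal RealInnerProductSpace

namespace Pool.Agent.MP_f6c0e6_an.Gen

variable {m N : ℕ}

/-- the component normal to an orthonormal frame is not longer than the vector -/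
theorem ChartB_proj {s : Fin m → E N} (hs : Orthonormal ℝ s) (v : E N) :
    ‖v - ∑ l, ⟪s l, v⟫ • s l‖ ≤ ‖v‖ := by
  have h1 : ⟪v, ∑ l, ⟪s l, v⟫ • s l⟫ = ∑ l, ⟪s l, v⟫ ^ 2 := by
    rw [inner_sum]
    refine Finset.sum_congr rfl fun l _ => ?_
    rw [real_inner_smul_right, real_inner_comm, sq]
  have h2 : ‖∑ l, ⟪s l, v⟫ • s l‖ ^ 2 = ∑ l, ⟪s l, v⟫ ^ 2 := by
    rw [← real_inner_self_eq_norm_sq, hs.inner_sum _ _ Finset.univ]
    refine Finset.sum_congr rfl fun l _ => ?_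
    rw [conj_trivial, sq]
  have h3 : 0 ≤ ∑ l, ⟪s l, v⟫ ^ 2 := Finset.sum_nonneg fun l _ => sq_nonneg _
  refine (abs_le_of_sq_le_sq' ?_ (norm_nonneg _)).2
  rw [norm_sub_sq_real, h1, h2]
  linarith

namespace Ref

variable (S : Ref m N)

/-- the defining equation of the foot point -/
noncomputable def ChartB_G (q : E N × E m) : E m := (S.La q.2).adjoint (q.1 - S.F q.2)

theorem ChartB_cLa : ContDiff ℝ 1 S.La := (S.F_calc 0).2.2.1.of_le (by norm_num)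

theorem ChartB_cF : ContDiff ℝ 1 S.F := (S.F_calc 0).2.1.of_le (by norm_num)

theorem ChartB_contDiff : ContDiff ℝ 1 S.ChartB_G :=
  (((GCalc_adj m N).contDiff.comp S.ChartB_cLa).comp contDiff_snd).clm_apply
    (contDiff_fst.sub (S.ChartB_cF.comp contDiff_snd))

theorem ChartB_II (ξ v : E m) (z : E N) :
    (fderiv ℝ (fderiv ℝ S.w) ξ v).adjoint z = gW S.w ξ (S.KK ξ z v) := by
  have h : gW S.w ξ (S.KK ξ z v) = S.II ξ z v := (giW_gW S.w ξ _).2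
  rw [h]
  refine ext_inner_right ℝ fun u => ?_
  rw [ContinuousLinearMap.adjoint_inner_left, (S.II_calc ξ v u z).1]

theorem ChartB_fderiv (y : E N) (ξ : E m) (s : E N) (v : E m) :
    fderiv ℝ S.ChartB_G (y, ξ) (s, v) =
      gW S.w ξ (S.al ξ s - (1 - S.KK ξ (y - S.F ξ)) v) := by
  have h0 : HasFDerivAt (Prod.snd : E N × E m → E m) (ContinuousLinearMap.snd ℝ (E N) (E m))
      (y, ξ) := hasFDerivAt_snd
  have hL : HasFDerivAt S.La (fderiv ℝ (fderiv ℝ S.w) ξ) ξ := by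
    rw [← (S.F_calc ξ).2.2.2.1]
    exact ((S.ChartB_cLa.differentiable one_ne_zero) ξ).hasFDerivAt
  have h1 := ((GCalc_adj m N).hasFDerivAt.comp ξ hL).comp (y, ξ) h0
  have h2 := (hasFDerivAt_fst (𝕜 := ℝ) (p := (y, ξ))).sub ((S.F_calc ξ).1.comp (y, ξ) h0)
  have h3 : HasFDerivAt S.ChartB_G _ (y, ξ) := h1.clm_apply h2
  rw [h3.fderiv]
  show (S.La ξ).adjoint (s - S.La ξ v) +
    (fderiv ℝ (fderiv ℝ S.w) ξ v).adjoint (y - S.F ξ) = _
  have h4 : gW S.w ξ (S.al ξ s) = (S.La ξ).adjoint s := (giW_gW S.w ξ _).2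
  have h5 : (1 - S.KK ξ (y - S.F ξ)) v = v - S.KK ξ (y - S.F ξ) v := rfl
  rw [S.ChartB_II, map_sub, (S.La_bd ξ v v).2.2.1, h5, map_sub, map_sub, h4]
  abel

theorem ChartB_solve {ξ v : E m} (h : gW S.w ξ v = 0) : v = 0 := by
  rw [← (giW_gW S.w ξ v).1, h, map_zero]

theorem ChartB_inv {ξ : E m} {z : E N} (hz : ‖z‖ ≤ 1 / 2) (v : E m) :
    Ring.inverse (1 - S.KK ξ z) ((1 - S.KK ξ z) v) = v :=
  DFunLike.congr_fun (Ring.inverse_mul_cancel _ (S.eta_calc ξ hz 0).1) v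

theorem ChartB_zz {y : E N} (hy : y ∈ S.tube) : S.zz y = y - S.F (S.zeta y) := if_pos hy

theorem ChartB_zero {y : E N} (hy : y ∈ S.tube) : S.ChartB_G (y, S.zeta y) = 0 := by
  have := (S.zz_bd y).2.2
  rwa [S.ChartB_zz hy] at this

theorem ChartB_zz_ev {y : E N} (hy : y ∈ S.tube) :
    S.zz =ᶠ[𝓝 y] fun y => y - S.F (S.zeta y) :=
  eventually_of_mem (S.isOpen_tube.1.mem_nhds hy) fun _ h => S.ChartB_zz h

theorem ChartB_cont {y : E N} (hy : y ∈ S.tube) : ContinuousAt S.zeta y := by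
  have h : LipschitzOnWith (102 / 100) S.zeta S.tube :=
    LipschitzOnWith.of_dist_le_mul fun a ha b hb => by
      rw [dist_eq_norm, dist_eq_norm]
      exact_mod_cast (S.zeta_lip ha hb).1
  exact h.continuousOn.continuousAt (S.isOpen_tube.1.mem_nhds hy)

/-- Implicit function theorem for `(y, ξ) ↦ (La ξ)ᵀ (y - F ξ)`, whose derivative in `ξ` is
`- gW ∘ (1 - KK)`; for instance invert `(y, ξ) ↦ (y, G (y, ξ))` with
`ContDiffAt.toOpenPartialHomeomorph` or `ContDiffAt.to_localInverse` and use `foot_unique`. -/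
theorem contDiffAt_zeta {y : E N} (hy : y ∈ S.tube) :
    ContDiffAt ℝ 1 S.zeta y ∧ ContDiffAt ℝ 1 S.zz y := by
  have hG : ContDiffAt ℝ 1 S.ChartB_G (y, S.zeta y) := S.ChartB_contDiff.contDiffAt
  have hz : ‖y - S.F (S.zeta y)‖ ≤ 1 / 2 := by
    rw [← S.ChartB_zz hy]
    exact (S.zz_bd y).1
  have hinj : Function.Injective
      (fderiv ℝ S.ChartB_G (y, S.zeta y) ∘L ContinuousLinearMap.inr ℝ (E N) (E m)).toLinearMap := by
    refine (injective_iff_map_eq_zero _).2 fun v hv => ?_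
    have h1 : fderiv ℝ S.ChartB_G (y, S.zeta y) (0, v) = 0 := hv
    rw [S.ChartB_fderiv] at h1
    have h2 := S.ChartB_solve h1
    have h3 : S.al (S.zeta y) 0 = 0 := by rw [al, map_zero, map_zero]
    rw [h3, zero_sub, neg_eq_zero] at h2
    rw [← S.ChartB_inv (ξ := S.zeta y) hz v, h2, map_zero]
  have hinv : (fderiv ℝ S.ChartB_G (y, S.zeta y) ∘L
      ContinuousLinearMap.inr ℝ (E N) (E m)).IsInvertible :=
    ⟨(LinearEquiv.ofInjectiveEndo _ hinj).toContinuousLinearEquiv,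
      ContinuousLinearMap.ext fun _ => rfl⟩
  have hT := S.isOpen_tube.1.mem_nhds hy
  have hc : Tendsto (fun y' => (y', S.zeta y')) (𝓝 y) (𝓝 (y, S.zeta y)) :=
    continuousAt_id.prodMk (S.ChartB_cont hy)
  have hev : S.zeta =ᶠ[𝓝 y] hG.implicitFunction one_ne_zero hinv := by
    filter_upwards [hc.eventually (hG.eventually_apply_eq_iff_implicitFunction one_ne_zero hinv),
      hT] with y' h1 h2
    exact (h1.1 (by rw [S.ChartB_zero h2, S.ChartB_zero hy])).symm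
  have h1 : ContDiffAt ℝ 1 S.zeta y :=
    (hG.contDiffAt_implicitFunction one_ne_zero hinv).congr_of_eventuallyEq hev
  exact ⟨h1, (contDiffAt_id.sub (S.ChartB_cF.contDiffAt.comp y h1)).congr_of_eventuallyEq
    (S.ChartB_zz_ev hy)⟩

theorem fderiv_zeta {y : E N} (hy : y ∈ S.tube) (s : E N) :
    fderiv ℝ S.zeta y s = S.eta (S.zeta y) (S.zz y) s ∧
      fderiv ℝ S.zz y s = S.mm (S.zeta y) (S.zz y) s := by
  have h1 := ((S.contDiffAt_zeta hy).1.differentiableAt one_ne_zero).hasFDerivAt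
  have h2 := ((S.ChartB_contDiff.differentiable one_ne_zero) (y, S.zeta y)).hasFDerivAt.comp y
    (f := fun y' => (y', S.zeta y')) ((hasFDerivAt_id y).prodMk h1)
  have h3 : (S.ChartB_G ∘ fun y' => (y', S.zeta y')) =ᶠ[𝓝 y] fun _ => 0 :=
    eventually_of_mem (S.isOpen_tube.1.mem_nhds hy) fun _ h => S.ChartB_zero h
  have h4 := ((hasFDerivAt_const (𝕜 := ℝ) (0 : E m) y).congr_of_eventuallyEq h3).unique h2
  have h5 : (0 : E m) = fderiv ℝ S.ChartB_G (y, S.zeta y) (s, fderiv ℝ S.zeta y s) :=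
    congrArg (fun L : E N →L[ℝ] E m => L s) h4
  rw [S.ChartB_fderiv, ← S.ChartB_zz hy] at h5
  have h6 : fderiv ℝ S.zeta y s = S.eta (S.zeta y) (S.zz y) s := by
    rw [eta, sub_eq_zero.1 (S.ChartB_solve h5.symm), S.ChartB_inv (S.zz_bd y).1]
  refine ⟨h6, ?_⟩
  have h7 : HasFDerivAt S.zz _ y :=
    ((hasFDerivAt_id y).sub ((S.F_calc _).1.comp y h1)).congr_of_eventuallyEq (S.ChartB_zz_ev hy)
  rw [h7.fderiv, mm, ← h6]
  rfl

/-- the direction of the `l`-th frame vector in Fermi coordinates -/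
noncomputable def dir (fr : Fr m N) (l : Fin m) (y : E N) : E m × E N :=
  (S.eta (S.zeta y) (S.zz y) (fr.s l y), S.mm (S.zeta y) (S.zz y) (fr.s l y))

theorem ChartB_m_ri {f : E N → E m →L[ℝ] E m} (mf : Measurable f) (hf : ∀ y, IsUnit (f y)) :
    Measurable fun y => Ring.inverse (f y) := by
  have h1 : ContinuousOn (Ring.inverse : (E m →L[ℝ] E m) → E m →L[ℝ] E m) {L | IsUnit L} :=
    fun L hL => by
      obtain ⟨u, rfl⟩ := hL
      exact (NormedRing.inverse_continuousAt u).continuousWithinAt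
  have h3 : Measurable fun y => (⟨f y, hf y⟩ : {L : E m →L[ℝ] E m | IsUnit L}) := mf.subtype_mk
  exact h1.domRestrict.measurable.comp h3

theorem ChartB_m_app {X Y : Type*} [NormedAddCommGroup X] [NormedSpace ℝ X] [NormedAddCommGroup Y]
    [NormedSpace ℝ Y] [MeasurableSpace X] [BorelSpace X] [MeasurableSpace Y] [BorelSpace Y]
    [FiniteDimensional ℝ X] [FiniteDimensional ℝ Y] {L : E N → X →L[ℝ] Y} {v : E N → X}
    (hL : Measurable L) (hv : Measurable v) : Measurable fun y => L y (v y) :=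
  ContinuousLinearMap.measurable_apply₂.comp (hL.prodMk hv)

section Meas

variable {ζ : E N → E m} {z s : E N → E N}

theorem ChartB_m_KK (mζ : Measurable ζ) (mz : Measurable z) :
    Measurable fun y => S.KK (ζ y) (z y) := by
  have h := S.contDiff_lift.1.continuous.measurable.comp (mζ.prodMk mz)
  exact h

theorem ChartB_m_inv (mζ : Measurable ζ) (mz : Measurable z) (hz : ∀ y, ‖z y‖ ≤ 1 / 2) :
    Measurable fun y => Ring.inverse (1 - S.KK (ζ y) (z y)) :=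
  ChartB_m_ri (measurable_const.sub (S.ChartB_m_KK mζ mz)) fun y => (S.eta_calc (ζ y) (hz y) 0).1

theorem ChartB_m_g (mζ : Measurable ζ) :
    (Measurable fun y => gW S.w (ζ y)) ∧ Measurable fun y => giW S.w (ζ y) := by
  have hw : ContDiff ℝ (0 + 1 : ℕ) S.w := S.smooth.of_le (by norm_num)
  have h1 := (contDiff_gW hw).1.continuous.measurable.comp mζ
  have h2 := (contDiff_gW hw).2.1.continuous.measurable.comp mζ
  exact ⟨h1, h2⟩

theorem ChartB_m_La (mζ : Measurable ζ) :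
    (Measurable fun y => S.La (ζ y)) ∧ Measurable fun y => (S.La (ζ y)).adjoint := by
  have h1 := S.ChartB_cLa.continuous.measurable.comp mζ
  have h2 := (GCalc_adj m N).continuous.measurable.comp h1
  exact ⟨h1, h2⟩

theorem ChartB_m_al (mζ : Measurable ζ) (ms : Measurable s) :
    Measurable fun y => S.al (ζ y) (s y) := by
  have h := ChartB_m_app (S.ChartB_m_g mζ).2 (ChartB_m_app (S.ChartB_m_La mζ).2 ms)
  exact h

theorem ChartB_m_nor (mζ : Measurable ζ) (ms : Measurable s) :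
    Measurable fun y => S.nor (ζ y) (s y) := by
  have h := ms.sub (ChartB_m_app (S.ChartB_m_La mζ).1 (S.ChartB_m_al mζ ms))
  exact h

theorem ChartB_m_eta (mζ : Measurable ζ) (mz : Measurable z) (hz : ∀ y, ‖z y‖ ≤ 1 / 2)
    (ms : Measurable s) : Measurable fun y => S.eta (ζ y) (z y) (s y) := by
  have h := ChartB_m_app (S.ChartB_m_inv mζ mz hz) (S.ChartB_m_al mζ ms)
  exact h

theorem ChartB_m_mm (mζ : Measurable ζ) (mz : Measurable z) (hz : ∀ y, ‖z y‖ ≤ 1 / 2)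
    (ms : Measurable s) : Measurable fun y => S.mm (ζ y) (z y) (s y) := by
  have h := ms.sub (ChartB_m_app (S.ChartB_m_La mζ).1 (S.ChartB_m_eta mζ mz hz ms))
  exact h

theorem ChartB_m_str (mζ : Measurable ζ) (fr : Fr m N) {v : E N → E m} (hv : Measurable v) :
    Measurable fun y => S.str (ζ y) (fun l => fr.s l y) (v y) := by
  have e : (fun y => S.str (ζ y) (fun l => fr.s l y) (v y)) = fun y =>
      giW S.w (ζ y) (v y) - ∑ l, ⟪S.al (ζ y) (fr.s l y), v y⟫ • S.al (ζ y) (fr.s l y) := by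
    funext y
    simp only [str, sub_apply, sum_apply, ContinuousLinearMap.smulRight_apply,
      innerSL_apply_apply]
  rw [e]
  exact (ChartB_m_app (S.ChartB_m_g mζ).2 hv).sub (Finset.measurable_sum _ fun l _ =>
    ((S.ChartB_m_al mζ (fr.meas l)).inner (𝕜 := ℝ) hv).smul (S.ChartB_m_al mζ (fr.meas l)))

theorem ChartB_m_Nm (mζ : Measurable ζ) (mz : Measurable z) (hz : ∀ y, ‖z y‖ ≤ 1 / 2)
    (fr : Fr m N) (v : E m) : Measurable fun y => S.Nm (ζ y) (z y) (fun l => fr.s l y) v := by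
  have h1 : Measurable fun y => (1 - S.KK (ζ y) (z y)) v :=
    ChartB_m_app (measurable_const.sub (S.ChartB_m_KK mζ mz)) measurable_const
  have h2 := ChartB_m_app (S.ChartB_m_inv mζ mz hz)
    (S.ChartB_m_str mζ fr (ChartB_m_app (S.ChartB_m_g mζ).1 h1))
  simpa only [Nm, ContinuousLinearMap.comp_apply] using h2

theorem ChartB_m_dlift (mζ : Measurable ζ) (mz : Measurable z) (hz : ∀ y, ‖z y‖ ≤ 1 / 2)
    (fr : Fr m N) (e : E m) : Measurable fun y => S.dlift (ζ y) (z y) (fun l => fr.s l y) e := by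
  have h1 : Measurable fun y => fderiv ℝ (fun q : E m × E N => S.lift q.1 q.2 e) (ζ y, z y) := by
    have h := (measurable_fderiv ℝ fun q : E m × E N => S.lift q.1 q.2 e).comp (mζ.prodMk mz)
    exact h
  unfold dlift
  exact Finset.measurable_sum _ fun l _ => (fr.meas l).inner (𝕜 := ℝ) (ChartB_m_app h1
    ((S.ChartB_m_eta mζ mz hz (fr.meas l)).prodMk (S.ChartB_m_mm mζ mz hz (fr.meas l))))

end Meas

theorem measurable_all (fr : Fr m N) :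
    (∀ l, Measurable (S.dir fr l)) ∧ Measurable (S.dd fr) ∧ Measurable (S.pp fr) ∧
      Measurable (S.qq fr) ∧ (∀ u v, Measurable fun y => ⟪u, S.Nn fr y v⟫) ∧
      (∀ u v, Measurable fun y => ⟪u, S.Nm (S.zeta y) (S.zz y) (fun l => fr.s l y) v⟫) ∧
      (∀ e, Measurable fun y => S.dlift (S.zeta y) (S.zz y) (fun l => fr.s l y) e) ∧
      (∀ l, Measurable fun y => S.al (S.zeta y) (fr.s l y)) ∧
      ∀ l, Measurable fun y => S.nor (S.zeta y) (fr.s l y) := by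
  obtain ⟨mζ, mz⟩ := S.measurable_zeta
  have hz : ∀ y, ‖S.zz y‖ ≤ 1 / 2 := fun y => (S.zz_bd y).1
  have mal : ∀ l, Measurable fun y => S.al (S.zeta y) (fr.s l y) := fun l =>
    S.ChartB_m_al mζ (fr.meas l)
  have mnor : ∀ l, Measurable fun y => S.nor (S.zeta y) (fr.s l y) := fun l =>
    S.ChartB_m_nor mζ (fr.meas l)
  refine ⟨fun l => ?_, ?_, ?_, ?_, fun u v => ?_, fun u v => ?_,
    fun e => S.ChartB_m_dlift mζ mz hz fr e, mal, mnor⟩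
  · unfold dir
    exact (S.ChartB_m_eta mζ mz hz (fr.meas l)).prodMk (S.ChartB_m_mm mζ mz hz (fr.meas l))
  · unfold dd tilt
    exact Finset.measurable_sum _ fun l _ => (mnor l).norm.pow_const 2
  · unfold pp
    exact Finset.measurable_sum _ fun l _ => (mz.inner (𝕜 := ℝ) (fr.meas l)).smul (mal l)
  · have mp : Measurable fun y => pr S.ι y := (pr S.ι).continuous.measurable
    unfold qq
    exact Finset.measurable_sum _ fun l _ => ((fr.meas l).sub (ChartB_m_app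
      (S.ChartB_m_La mp).1 (mp.comp (fr.meas l)))).norm.pow_const 2
  · unfold Nn
    exact measurable_const.inner (𝕜 := ℝ) (S.ChartB_m_str mζ fr measurable_const)
  · exact measurable_const.inner (𝕜 := ℝ) (S.ChartB_m_Nm mζ mz hz fr v)

theorem ChartB_La_pr (x : E m) (s : E N) : ‖S.La x (pr S.ι s)‖ ≤ 101 / 100 * ‖s‖ :=
  ((S.La x).le_opNorm _).trans (mul_le_mul (S.La_bd x 0 0).2.2.2.2.1 (norm_pr_le S.ι s).1
    (norm_nonneg _) (by norm_num))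

theorem ChartB_split (ζ x : E m) {s : E N} (hs : ‖s‖ = 1) :
    ‖s - S.La x (pr S.ι s)‖ ≤ ‖ζ - x‖ / 100 + 201 / 100 * ‖S.nor ζ s‖ := by
  obtain ⟨h1, -, -, -, -, h2, -⟩ := S.al_calc ζ 0 s
  have h3 : pr S.ι s = S.al ζ s + pr S.ι (S.nor ζ s) := by
    conv_lhs => rw [h1, map_add, (S.La_bd ζ _ 0).1]
  have h4 : s - S.La x (pr S.ι s) =
      (S.La ζ - S.La x) (S.al ζ s) + (S.nor ζ s - S.La x (pr S.ι (S.nor ζ s))) := by
    rw [h3, map_add, sub_apply, nor]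
    abel
  have h5 : ‖(S.La ζ - S.La x) (S.al ζ s)‖ ≤ ‖ζ - x‖ / 100 * 1 :=
    (ContinuousLinearMap.le_opNorm _ _).trans (mul_le_mul (S.F_lip ζ x).2.2.1 (h2.trans_eq hs)
      (norm_nonneg _) (by positivity))
  have h6 := norm_sub_le (S.nor ζ s) (S.La x (pr S.ι (S.nor ζ s)))
  have h7 := S.ChartB_La_pr x (S.nor ζ s)
  rw [h4]
  refine (norm_add_le _ _).trans ?_
  linarith

/-- for `s = La ζ a + n` we have `s - La x (pr s) = (La ζ - La x) a + n - La x (pr n)` -/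
theorem dd_bd (fr : Fr m N) (y : E N) : 0 ≤ S.dd fr y ∧ S.dd fr y ≤ m ∧ 0 ≤ S.qq fr y ∧
    S.qq fr y ≤ 5 * m ∧ S.tilt (pr S.ι y) (fun l => fr.s l y) ≤ S.qq fr y ∧
    (y ∈ S.tube → S.qq fr y ≤ 10 * S.dd fr y + m * ‖S.zz y‖ ^ 2) := by
  have h0 := S.str_bd (S.zeta y) (fr.orth y)
  refine ⟨h0.1, h0.2.1, Finset.sum_nonneg fun l _ => sq_nonneg _, ?_, ?_, fun hy => ?_⟩
  · refine (Finset.sum_le_sum (g := fun _ => (5 : ℝ)) fun l _ => ?_).trans (by simp [mul_comm])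
    have h1 := norm_sub_le (fr.s l y) (S.La (pr S.ι y) (pr S.ι (fr.s l y)))
    have h2 := S.ChartB_La_pr (pr S.ι y) (fr.s l y)
    rw [fr.norm_s] at h1 h2
    have h3 := norm_nonneg (fr.s l y - S.La (pr S.ι y) (pr S.ι (fr.s l y)))
    nlinarith
  · exact Finset.sum_le_sum fun l _ => pow_le_pow_left₀ (norm_nonneg _)
      (S.al_calc (pr S.ι y) (pr S.ι (fr.s l y)) (fr.s l y)).2.2.2.2.2.2 2
  · have e : 10 * S.dd fr y + m * ‖S.zz y‖ ^ 2 =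
        ∑ l, (10 * ‖S.nor (S.zeta y) (fr.s l y)‖ ^ 2 + ‖S.zz y‖ ^ 2) := by
      rw [Finset.sum_add_distrib, ← Finset.mul_sum, dd, tilt]
      simp
    rw [e]
    refine Finset.sum_le_sum fun l _ => ?_
    have h1 := S.ChartB_split (S.zeta y) (pr S.ι y) (fr.norm_s l y)
    have h2 := (S.tube_spec hy).2.2.2.2
    have h3 : ‖fr.s l y - S.La (pr S.ι y) (pr S.ι (fr.s l y))‖ ≤
        ‖S.zz y‖ / 10000 + 201 / 100 * ‖S.nor (S.zeta y) (fr.s l y)‖ := by linarith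
    refine (pow_le_pow_left₀ (norm_nonneg _) h3 2).trans ?_
    nlinarith [sq_nonneg (‖S.zz y‖ / 10000 - 201 / 100 * ‖S.nor (S.zeta y) (fr.s l y)‖),
      sq_nonneg ‖S.zz y‖, sq_nonneg ‖S.nor (S.zeta y) (fr.s l y)‖]

/-- the component of a frame vector at `y` that is normal to the frame at `y'` -/
theorem nrm_bd (fr : Fr m N) (y y' : E N) (l : Fin m) :
    ‖fr.s l y - ∑ l', ⟪fr.s l' y', fr.s l y⟫ • fr.s l' y'‖ ≤
      √(S.dd fr y) + 2 * √(S.dd fr y') + ‖S.zeta y - S.zeta y'‖ / 100 := by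
  obtain ⟨h1, -, -, -, -, h2, -⟩ := S.al_calc (S.zeta y) 0 (fr.s l y)
  rw [fr.norm_s] at h2
  set a := S.al (S.zeta y) (fr.s l y) with ha
  set n := S.nor (S.zeta y) (fr.s l y) with hn
  have h3 : ‖n‖ ≤ √(S.dd fr y) := Real.le_sqrt_of_sq_le
    (Finset.single_le_sum (f := fun l => ‖S.nor (S.zeta y) (fr.s l y)‖ ^ 2)
      (fun _ _ => sq_nonneg _) (Finset.mem_univ l))
  have h4 : ‖(S.La (S.zeta y) - S.La (S.zeta y')) a‖ ≤ ‖S.zeta y - S.zeta y'‖ / 100 * 1 :=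
    (ContinuousLinearMap.le_opNorm _ _).trans (mul_le_mul (S.F_lip _ _).2.2.1 h2
      (norm_nonneg _) (by positivity))
  have h5 : ‖S.La (S.zeta y') a - ∑ l', ⟪fr.s l' y', S.La (S.zeta y') a⟫ • fr.s l' y'‖ ≤
      2 * √(S.dd fr y') * 1 :=
    ((S.str_bd (S.zeta y') (fr.orth y')).2.2.2.2.2.2.2.1 a).trans
      (mul_le_mul_of_nonneg_left h2 (by positivity))
  set v := n + (S.La (S.zeta y) - S.La (S.zeta y')) a with hv
  have h6 : ‖v - ∑ l', ⟪fr.s l' y', v⟫ • fr.s l' y'‖ ≤ ‖v‖ := ChartB_proj (fr.orth y') v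
  have h7 : ‖v‖ ≤ ‖n‖ + ‖(S.La (S.zeta y) - S.La (S.zeta y')) a‖ := norm_add_le _ _
  have h8 : fr.s l y = v + S.La (S.zeta y') a := by
    rw [h1, hv, sub_apply]
    abel
  have h9 : fr.s l y - ∑ l', ⟪fr.s l' y', fr.s l y⟫ • fr.s l' y' =
      (v - ∑ l', ⟪fr.s l' y', v⟫ • fr.s l' y') +
        (S.La (S.zeta y') a - ∑ l', ⟪fr.s l' y', S.La (S.zeta y') a⟫ • fr.s l' y') := by
    rw [h8]
    simp only [inner_add_right, add_smul, Finset.sum_add_distrib]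
    abel
  rw [h9]
  refine (norm_add_le _ _).trans ?_
  linarith

end Ref

end Pool.Agent.MP_f6c0e6_an.Gen

end

section

/-! Elementary facts on pieces. -/

set_option autoImplicit false

open MeasureTheory Filter Topology Set Metric
open scoped ENNReal RealInnerProductSpace

namespace Pool.Agent.MP_f6c0e6_an.Gen

variable {m N : ℕ}

/-- the local mass at the scale `R / 10` is close to `Q` -/
def Anch (S : Ref m N) (fr : Fr m N) (μ : Measure (E N)) (Q : ℕ) (y₀ : E N) (R : ℝ) : Prop :=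
  |S.YF fr μ Q fun ξ => rho (R / 10) (ξ - pr S.ι y₀)| ≤ 1 / 5

theorem Ref.I2_mono (S : Ref m N) (μ : Measure (E N)) [IsFiniteMeasure μ] {y₀ y₁ : E N} {t t' : ℝ}
    (h : ball y₀ t ⊆ ball y₁ t') : 0 ≤ S.I2 μ y₀ t ∧ S.I2 μ y₀ t ≤ S.I2 μ y₁ t' := by
  have hc : Continuous fun y => ‖S.gh y‖ ^ 2 := ((S.gh_calc 0).2.1.continuous.norm).pow 2
  refine ⟨integral_nonneg fun y => by positivity, ?_⟩
  refine setIntegral_mono_set ?_ (ae_of_all _ fun y => by positivity) h.eventuallyLE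
  exact (hc.continuousOn.integrableOn_compact (isCompact_closedBall y₁ t')).mono_set
    ball_subset_closedBall

theorem Ref.I2_restrict (S : Ref m N) (μ : Measure (E N)) {y₀ y₁ : E N} {t R : ℝ}
    (h : ball y₀ t ⊆ ball y₁ R) : S.I2 (μ.restrict (ball y₁ R)) y₀ t = S.I2 μ y₀ t := by
  unfold Ref.I2
  rw [Measure.restrict_restrict measurableSet_ball, inter_eq_left.2 h]

namespace Piece

variable {S : Ref m N} {fr : Fr m N} {μ : Measure (E N)} {y₀ : E N} {R T A : ℝ}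

theorem ae_tube (P : Piece S fr μ y₀ R T A) : ∀ᵐ y ∂μ, y ∈ S.tube ∧ ‖S.zz y‖ ≤ T ∧
    S.zeta y ∈ S.D ∧ pr S.ι y ∈ S.D ∧ ‖S.F (S.zeta y) - S.F (pr S.ι y₀)‖ < R + 2 * T ∧
    ‖S.zeta y - pr S.ι y‖ ≤ T / 100 ∧ ‖y - y₀‖ ≤ ‖S.F (S.zeta y) - S.F (pr S.ι y₀)‖ + 2 * T ∧
    ‖S.F (S.zeta y) - S.F (pr S.ι y₀)‖ ≤ ‖y - y₀‖ + 2 * T := by
  filter_upwards [P.ae] with y hy
  obtain ⟨h1, h2, -⟩ := hy
  have hT := P.T_le
  have hR := P.R_le
  have hc := P.cen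
  rw [mem_ball, dist_eq_norm] at h1
  have ht : y ∈ S.tube := by
    change ‖S.gh y‖ < 1 / 2
    linarith
  obtain ⟨-, e, b1, -, b3⟩ := S.tube_spec ht
  have hz : ‖S.zz y‖ ≤ T := b1.trans h2
  have e1 : S.F (S.zeta y) - y₀ = (y - y₀) - S.zz y := by
    have : S.F (S.zeta y) = y - S.zz y := eq_sub_of_add_eq e.symm
    rw [this]; abel
  have e2 : S.F (pr S.ι y) - y₀ = (y - y₀) - S.gh y := by
    unfold Ref.gh; abel
  have e3 : S.F (S.zeta y) - S.F (pr S.ι y₀) = (y - y₀) - S.zz y + S.gh y₀ := by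
    rw [← e1]; unfold Ref.gh; abel
  have e4 : y - y₀ = (S.F (S.zeta y) - S.F (pr S.ι y₀)) + S.zz y - S.gh y₀ := by
    rw [e3]; abel
  have k3 : ‖S.F (S.zeta y) - S.F (pr S.ι y₀)‖ ≤ ‖y - y₀‖ + 2 * T := by
    rw [e3]
    have a1 := norm_add_le ((y - y₀) - S.zz y) (S.gh y₀)
    have a2 := norm_sub_le (y - y₀) (S.zz y)
    linarith
  refine ⟨ht, hz, P.sub ?_, P.sub ?_, by linarith, by linarith, ?_, k3⟩
  · change ‖S.F (S.zeta y) - y₀‖ < R + T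
    rw [e1]
    have a2 := norm_sub_le (y - y₀) (S.zz y)
    linarith
  · change ‖S.F (pr S.ι y) - y₀‖ < R + T
    rw [e2]
    have a2 := norm_sub_le (y - y₀) (S.gh y)
    linarith
  · have a1 := norm_sub_le ((S.F (S.zeta y) - S.F (pr S.ι y₀)) + S.zz y) (S.gh y₀)
    have a2 := norm_add_le (S.F (S.zeta y) - S.F (pr S.ι y₀)) (S.zz y)
    rw [← e4] at a1
    linarith

/-- restriction to a smaller ball, with a better bound for the height -/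
theorem restrict (P : Piece S fr μ y₀ R T A) {y₁ : E N} {R₁ T₁ : ℝ} (h0 : 0 < T₁)
    (hT : T₁ ≤ R₁ / 100) (hs : ‖y₁ - y₀‖ + R₁ + T₁ ≤ R + T) (hs' : ‖y₁ - y₀‖ + R₁ ≤ R)
    (h1 : ‖y₁‖ ≤ 1) (hc : ‖S.gh y₁‖ ≤ T₁) (hh : ∀ᵐ y ∂μ, y ∈ ball y₁ R₁ → ‖S.gh y‖ ≤ T₁) :
    Piece S fr (μ.restrict (ball y₁ R₁)) y₁ R₁ T₁ A := by
  have := P.fin
  have hn := norm_nonneg (y₁ - y₀)
  have hb : ball y₁ R₁ ⊆ ball y₀ R := ball_subset_ball' (by rw [dist_eq_norm]; linarith)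
  refine ⟨h0, hT, by linarith [P.R_le], h1, P.A_ge, fun ξ hξ => P.sub ?_, hc, inferInstance, ?_,
    P.stat.restrict isOpen_ball hb, UB.mono Measure.restrict_le_self P.mass,
    P.area.restrict isOpen_ball⟩
  · change ‖S.F ξ - y₁‖ < R₁ + T₁ at hξ
    change ‖S.F ξ - y₀‖ < R + T
    have := norm_sub_le_norm_sub_add_norm_sub (S.F ξ) y₁ y₀
    linarith
  · rw [ae_restrict_iff' measurableSet_ball]
    filter_upwards [P.ae, hh] with y hy hy' hy1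
    exact ⟨hy1, hy' hy1, hy.2.2.restrict isOpen_ball hy1⟩

/-- the points over the ball are in the ball of radius `3 ρ` about `F ξ` -/
theorem mass_cyl (P : Piece S fr μ y₀ R T A) (ξ : E m) {ρ : ℝ} (hρ : T ≤ ρ) :
    (μ (S.zeta ⁻¹' closedBall ξ ρ)).toReal ≤ A * 3 ^ m * ρ ^ m ∧
      (μ (pr S.ι ⁻¹' closedBall ξ ρ)).toReal ≤ A * 3 ^ m * ρ ^ m ∧
      (μ univ).toReal ≤ A * R ^ m := by
  have := P.fin
  have hT := P.T_pos
  have hρ0 : 0 < ρ := hT.trans_le hρ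
  have hR : 0 < R := by linarith [P.T_le]
  have key : ∀ Z : Set (E N), (∀ᵐ y ∂μ, y ∈ Z → y ∈ ball (S.F ξ) (3 * ρ)) →
      (μ Z).toReal ≤ A * 3 ^ m * ρ ^ m := fun Z hZ => by
    have h1 : μ Z ≤ μ (ball (S.F ξ) (3 * ρ)) := measure_mono_ae hZ
    have h2 := P.mass (S.F ξ) (3 * ρ) (by positivity)
    rw [mul_pow, ← mul_assoc] at h2
    exact (ENNReal.toReal_mono (measure_ne_top _ _) h1).trans h2
  refine ⟨key _ ?_, key _ ?_, ?_⟩
  · filter_upwards [P.ae_tube] with y hy hz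
    rw [mem_preimage, mem_closedBall, dist_eq_norm] at hz
    rw [mem_ball, dist_eq_norm]
    obtain ⟨-, e, -⟩ := S.tube_spec hy.1
    have e1 : y - S.F ξ = (S.F (S.zeta y) - S.F ξ) + S.zz y := by
      have : S.F (S.zeta y) = y - S.zz y := eq_sub_of_add_eq e.symm
      rw [this]; abel
    have a1 := norm_add_le (S.F (S.zeta y) - S.F ξ) (S.zz y)
    have a2 := (S.F_lip (S.zeta y) ξ).2.1
    have a3 := hy.2.1
    rw [e1]
    linarith
  · filter_upwards [P.ae] with y hy hz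
    rw [mem_preimage, mem_closedBall, dist_eq_norm] at hz
    rw [mem_ball, dist_eq_norm]
    have e1 : y - S.F ξ = (S.F (pr S.ι y) - S.F ξ) + S.gh y := by
      unfold Ref.gh; abel
    have a1 := norm_add_le (S.F (pr S.ι y) - S.F ξ) (S.gh y)
    have a2 := (S.F_lip (pr S.ι y) ξ).2.1
    have a3 := hy.2.1
    rw [e1]
    linarith
  · have h1 : μ univ ≤ μ (ball y₀ R) := measure_mono_ae (P.ae.mono fun y hy _ => hy.1)
    exact (ENNReal.toReal_mono (measure_ne_top _ _) h1).trans (P.mass y₀ R hR)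

theorem integrable_of_bd (P : Piece S fr μ y₀ R T A) {G : Type} [NormedAddCommGroup G]
    [MeasurableSpace G] [BorelSpace G] [SecondCountableTopology G] {f : E N → G}
    (hf : Measurable f) {M : ℝ} (h : ∀ y ∈ ball y₀ R, ‖S.gh y‖ ≤ T → ‖f y‖ ≤ M) :
    Integrable f μ := by
  have := P.fin
  exact (integrable_const M).mono' hf.aestronglyMeasurable
    (P.ae.mono fun y hy => h y hy.1 hy.2.1)

theorem I2_univ (P : Piece S fr μ y₀ R T A) : ∫ y, ‖S.gh y‖ ^ 2 ∂μ = S.I2 μ y₀ R ∧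
    ∫ y, ‖S.zz y‖ ^ 2 ∂μ ≤ S.I2 μ y₀ R ∧ S.I2 μ y₀ R ≤ A * T ^ 2 * R ^ m := by
  have := P.fin
  have hT := P.T_pos
  have e : ∫ y, ‖S.gh y‖ ^ 2 ∂μ = S.I2 μ y₀ R := by
    unfold Ref.I2
    rw [Measure.restrict_eq_self_of_ae_mem (P.ae.mono fun y hy => hy.1)]
  have hc : Continuous fun y => ‖S.gh y‖ ^ 2 := ((S.gh_calc 0).2.1.continuous.norm).pow 2
  have hi : Integrable (fun y => ‖S.gh y‖ ^ 2) μ :=
    P.integrable_of_bd hc.measurable (M := T ^ 2) fun y _ hy => by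
      rw [Real.norm_eq_abs, abs_of_nonneg (by positivity)]
      exact pow_le_pow_left₀ (norm_nonneg _) hy 2
  refine ⟨e, ?_, ?_⟩
  · rw [← e]
    refine integral_mono_of_nonneg (ae_of_all _ fun y => by positivity) hi
      (ae_of_all _ fun y => ?_)
    exact pow_le_pow_left₀ (norm_nonneg _) (S.zz_bd y).2.1 2
  · rw [← e]
    have h1 : ∫ y, ‖S.gh y‖ ^ 2 ∂μ ≤ ∫ _y, T ^ 2 ∂μ :=
      integral_mono_ae hi (integrable_const _)
        (P.ae.mono fun y hy => pow_le_pow_left₀ (norm_nonneg _) hy.2.1 2)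
    rw [integral_const, smul_eq_mul, Measure.real] at h1
    have h2 := (P.mass_cyl 0 le_rfl).2.2
    calc _ ≤ (μ univ).toReal * T ^ 2 := h1
      _ ≤ A * R ^ m * T ^ 2 := mul_le_mul_of_nonneg_right h2 (by positivity)
      _ = _ := by ring

/-- First variation for a field given in Fermi coordinates: apply `Stat` to
`y ↦ Ψ (zeta y, zz y)` and the compact set over `K` of height `T` (`isCompact_cyl`). -/
theorem fv (P : Piece S fr μ y₀ R T A) {Ψ : E m × E N → E N} (hΨ : ContDiff ℝ 1 Ψ)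
    {K : Set (E m)} (hK : IsCompact K) (hKR : K ⊆ S.dom y₀ (R - T))
    (h0 : ∀ q : E m × E N, q.1 ∉ K → Ψ q = 0) :
    Integrable (fun y => ∑ l, ⟪fr.s l y, fderiv ℝ Ψ (S.zeta y, S.zz y) (S.dir fr l y)⟫) μ ∧
      ∫ y, ∑ l, ⟪fr.s l y, fderiv ℝ Ψ (S.zeta y, S.zz y) (S.dir fr l y)⟫ ∂μ = 0 := by
  have := P.fin
  have hT := P.T_le
  have hR := P.R_le
  have hK' := (S.isCompact_cyl hK (T := T) (by linarith)).1
  have hsub : {y | y ∈ S.tube ∧ S.zeta y ∈ K ∧ ‖S.zz y‖ ≤ T} ⊆ ball y₀ R := by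
    rintro y ⟨h1, h2, h3⟩
    have h4 : ‖S.F (S.zeta y) - y₀‖ < R - T := hKR h2
    obtain ⟨-, e, -⟩ := S.tube_spec h1
    have e1 : y - y₀ = (S.F (S.zeta y) - y₀) + S.zz y := by
      have : S.F (S.zeta y) = y - S.zz y := eq_sub_of_add_eq e.symm
      rw [this]; abel
    have a1 := norm_add_le (S.F (S.zeta y) - y₀) (S.zz y)
    rw [mem_ball, dist_eq_norm, e1]
    linarith
  have hC : ∀ y ∈ {y | y ∈ S.tube ∧ S.zeta y ∈ K ∧ ‖S.zz y‖ ≤ T},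
      ContDiffAt ℝ 1 (fun y => Ψ (S.zeta y, S.zz y)) y := fun y hy =>
    hΨ.contDiffAt.comp y ((S.contDiffAt_zeta hy.1).1.prodMk (S.contDiffAt_zeta hy.1).2)
  have hz : ∀ᵐ y ∂μ, y ∉ {y | y ∈ S.tube ∧ S.zeta y ∈ K ∧ ‖S.zz y‖ ≤ T} →
      (fun y => Ψ (S.zeta y, S.zz y)) =ᶠ[𝓝 y] 0 := by
    filter_upwards [P.ae_tube] with y hy hn
    have h1 : S.zeta y ∈ Kᶜ := fun h => hn ⟨hy.1, h, hy.2.1⟩
    have h2 := (S.contDiffAt_zeta hy.1).1.continuousAt.eventually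
      (hK.isClosed.isOpen_compl.mem_nhds h1)
    filter_upwards [h2] with x hx
    exact h0 _ hx
  have he : fr.div (fun y => Ψ (S.zeta y, S.zz y)) =ᵐ[μ]
      fun y => ∑ l, ⟪fr.s l y, fderiv ℝ Ψ (S.zeta y, S.zz y) (S.dir fr l y)⟫ := by
    filter_upwards [P.ae_tube] with y hy
    have d1 := (S.contDiffAt_zeta hy.1).1.differentiableAt one_ne_zero
    have d2 := (S.contDiffAt_zeta hy.1).2.differentiableAt one_ne_zero
    have d3 : HasFDerivAt (fun y => Ψ (S.zeta y, S.zz y))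
        ((fderiv ℝ Ψ (S.zeta y, S.zz y)).comp ((fderiv ℝ S.zeta y).prod (fderiv ℝ S.zz y))) y :=
      HasFDerivAt.comp y (f := fun y => (S.zeta y, S.zz y))
        (hΨ.differentiable one_ne_zero _).hasFDerivAt (d1.hasFDerivAt.prodMk d2.hasFDerivAt)
    unfold Fr.div
    refine Finset.sum_congr rfl fun l _ => ?_
    rw [d3.fderiv, ContinuousLinearMap.comp_apply, ContinuousLinearMap.prod_apply,
      (S.fderiv_zeta hy.1 _).1, (S.fderiv_zeta hy.1 _).2]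
    rfl
  refine ⟨(fr.integrable_div hK' hC hz).congr he, ?_⟩
  rw [← integral_congr_ae he]
  exact P.stat _ _ hK' hsub hC hz

/-- first variation for a field that vanishes unless the projection is in `K` -/
theorem fvP (P : Piece S fr μ y₀ R T A) {X : E N → E N} (hX : ∀ y ∈ S.tube, ContDiffAt ℝ 1 X y)
    {K : Set (E m)} (hK : IsCompact K) (hKR : K ⊆ S.dom y₀ (R - T))
    (h0 : ∀ y, pr S.ι y ∉ K → X y = 0) :
    Integrable (fr.div X) μ ∧ ∫ y, fr.div X y ∂μ = 0 := by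
  have := P.fin
  have hT := P.T_le
  have hR := P.R_le
  have hK' := (S.isCompact_cyl hK (T := T) (by linarith)).2
  have hsub : {y | pr S.ι y ∈ K ∧ ‖S.gh y‖ ≤ T} ⊆ ball y₀ R := by
    rintro y ⟨h2, h3⟩
    have h4 : ‖S.F (pr S.ι y) - y₀‖ < R - T := hKR h2
    have e1 : y - y₀ = (S.F (pr S.ι y) - y₀) + S.gh y := by
      unfold Ref.gh; abel
    have a1 := norm_add_le (S.F (pr S.ι y) - y₀) (S.gh y)
    rw [mem_ball, dist_eq_norm, e1]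
    linarith
  have hC : ∀ y ∈ {y | pr S.ι y ∈ K ∧ ‖S.gh y‖ ≤ T}, ContDiffAt ℝ 1 X y := fun y hy =>
    hX y (by
      have h3 : ‖S.gh y‖ ≤ T := hy.2
      change ‖S.gh y‖ < 1 / 2
      linarith)
  have hz : ∀ᵐ y ∂μ, y ∉ {y | pr S.ι y ∈ K ∧ ‖S.gh y‖ ≤ T} → X =ᶠ[𝓝 y] 0 := by
    filter_upwards [P.ae] with y hy hn
    have h1 : pr S.ι y ∈ Kᶜ := fun h => hn ⟨h, hy.2.1⟩
    have h2 := (pr S.ι).continuous.continuousAt.eventually
      (hK.isClosed.isOpen_compl.mem_nhds h1)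
    filter_upwards [h2] with x hx
    exact h0 _ hx
  exact ⟨fr.integrable_div hK' hC hz, P.stat _ _ hK' hsub hC hz⟩

/-- the defect of a weight with small support only depends on the measure near the support -/
theorem YF_restrict (P : Piece S fr μ y₀ R T A) (Q : ℕ) {ξ : E m} {ρ R₁ : ℝ}
    (h : 2 * ρ + T ≤ R₁) {g : E m → ℝ} (h0 : ∀ x, x ∉ ball ξ ρ → g x = 0) :
    S.YF fr (μ.restrict (ball (S.F ξ) R₁)) Q g = S.YF fr μ Q g := by
  unfold Ref.YF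
  rw [setIntegral_eq_integral_of_ae_compl_eq_zero]
  filter_upwards [P.ae_tube] with y hy hn
  rw [h0 (S.zeta y), zero_mul, zero_div]
  intro hz
  apply hn
  rw [mem_ball, dist_eq_norm] at hz ⊢
  obtain ⟨-, e, -⟩ := S.tube_spec hy.1
  have e1 : y - S.F ξ = (S.F (S.zeta y) - S.F ξ) + S.zz y := by
    have : S.F (S.zeta y) = y - S.zz y := eq_sub_of_add_eq e.symm
    rw [this]; abel
  have a1 := norm_add_le (S.F (S.zeta y) - S.F ξ) (S.zz y)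
  have a2 := (S.F_lip (S.zeta y) ξ).2.1
  have a3 := hy.2.1
  have a4 := norm_nonneg (S.zeta y - ξ)
  rw [e1]
  linarith

end Piece

end Pool.Agent.MP_f6c0e6_an.Gen

end

section

/-! The supremum bound. -/

set_option autoImplicit false

open MeasureTheory Filter Topology Set Metric
open scoped ENNReal RealInnerProductSpace

namespace Pool.Agent.MP_f6c0e6_an.Gen

variable {m N : ℕ}

theorem Height_fderiv_g (y x s : E N) (ρ : ℝ) :
    fderiv ℝ (fun x : E N => Gam (‖x - y‖ ^ 2 / ρ ^ 2)) x s =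
      -5 * gam (‖x - y‖ ^ 2 / ρ ^ 2) * (2 * ⟪x - y, s⟫ / ρ ^ 2) := by
  have h1 : HasFDerivAt (fun x : E N => x - y) (ContinuousLinearMap.id ℝ (E N)) x :=
    (hasFDerivAt_id x).sub_const y
  have h2 := (h1.norm_sq.mul_const ((ρ ^ 2)⁻¹))
  have h3 := (hasDerivAt_Gam (‖x - y‖ ^ 2 * (ρ ^ 2)⁻¹)).comp_hasFDerivAt x h2
  have h4 : HasFDerivAt (fun x : E N => Gam (‖x - y‖ ^ 2 / ρ ^ 2)) _ x := h3
  rw [h4.fderiv]
  simp only [smul_apply, ContinuousLinearMap.comp_apply,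
    ContinuousLinearMap.id_apply, innerSL_apply_apply, smul_eq_mul, div_eq_mul_inv, nsmul_eq_mul]
  push_cast
  ring

theorem Height_fderiv_f (S : Ref m N) {x : E N} (hx : x ∈ S.tube) (s : E N) :
    fderiv ℝ (fun x => ‖S.zz x‖ ^ 2) x s = 2 * ⟪S.zz x, s⟫ := by
  have h1 := ((S.contDiffAt_zeta hx).2.differentiableAt one_ne_zero).hasFDerivAt.norm_sq
  rw [h1.fderiv]
  simp only [smul_apply, ContinuousLinearMap.comp_apply,
    innerSL_apply_apply, nsmul_eq_mul]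
  rw [(S.fderiv_zeta hx s).2, Ref.mm, inner_sub_right, ← ContinuousLinearMap.adjoint_inner_left,
    (S.zz_bd x).2.2]
  simp

theorem Height_int (S : Ref m N) (μ : Measure (E N)) [IsFiniteMeasure μ] :
    Integrable (fun x => ‖S.zz x‖ ^ 2) μ := by
  refine Integrable.of_bound (S.measurable_zeta.2.norm.pow_const 2).aestronglyMeasurable 1
    (Eventually.of_forall fun x => ?_)
  have := (S.zz_bd x).1
  rw [Real.norm_of_nonneg (by positivity)]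
  nlinarith [norm_nonneg (S.zz x)]

theorem Height_int_gam (S : Ref m N) (μ : Measure (E N)) [IsFiniteMeasure μ] (y : E N) (ρ : ℝ) :
    Integrable (fun x => ‖S.zz x‖ ^ 2 * gam (‖x - y‖ ^ 2 / ρ ^ 2)) μ := by
  refine (Height_int S μ).mul_bdd (c := 1) ?_ (Eventually.of_forall fun x => ?_)
  · exact (StatC_meas y ρ).aestronglyMeasurable
  · rw [Real.norm_of_nonneg (gam_nonneg _)]
    exact gam_le_one (by positivity)

theorem Height_mer {S : Ref m N} {fr : Fr m N} {μ : Measure (E N)} [IsFiniteMeasure μ]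
    {O : Set (E N)} (h : Stat fr μ O) {y : E N} {ρ c : ℝ} (hc : 0 ≤ c) (hρ : 0 < ρ)
    (hO : closedBall y ρ ⊆ O) (hT : closedBall y ρ ⊆ S.tube)
    (hd : ∀ᵐ x ∂μ, -(c * ‖S.zz x‖ ^ 2) ≤ fr.div S.zz x) :
    -(c * ρ ^ (m + 2) * mkf m μ (fun x => ‖S.zz x‖ ^ 2) y ρ) ≤
      mer fr μ (fun x => ‖S.zz x‖ ^ 2) y ρ := by
  have hg : ContDiff ℝ 1 fun x : E N => Gam (‖x - y‖ ^ 2 / ρ ^ 2) :=
    (contDiff_Gam.of_le (by norm_num)).comp
      (((contDiff_id.sub contDiff_const).norm_sq ℝ).div_const _)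
  have hone : ∀ x : E N, x ∉ closedBall y ρ → 1 ≤ ‖x - y‖ ^ 2 / ρ ^ 2 := fun x hx =>
    StatB_out hρ le_rfl hx
  have hX : ∀ x ∈ closedBall y ρ,
      ContDiffAt ℝ 1 (fun x : E N => Gam (‖x - y‖ ^ 2 / ρ ^ 2) • S.zz x) x :=
    fun x hx => hg.contDiffAt.smul (S.contDiffAt_zeta (hT hx)).2
  have hX0 : ∀ x : E N, x ∉ closedBall y ρ →
      (fun x : E N => Gam (‖x - y‖ ^ 2 / ρ ^ 2) • S.zz x) =ᶠ[𝓝 x] 0 := fun x hx => by
    filter_upwards [isClosed_closedBall.isOpen_compl.mem_nhds hx] with x' hx'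
    rw [Gam_eq_zero (hone x' hx'), zero_smul]
    rfl
  have h1 := h _ _ (isCompact_closedBall y ρ) hO hX (Eventually.of_forall hX0)
  have h2 := fr.integrable_div (μ := μ) (isCompact_closedBall y ρ) hX (Eventually.of_forall hX0)
  have h3 := Height_int_gam S μ y ρ
  have h4 : 0 ≤ ∫ x, ‖S.zz x‖ ^ 2 * gam (‖x - y‖ ^ 2 / ρ ^ 2) ∂μ :=
    integral_nonneg fun x => mul_nonneg (by positivity) (gam_nonneg _)
  have e : c * ρ ^ (m + 2) * mkf m μ (fun x => ‖S.zz x‖ ^ 2) y ρ =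
      c * ρ ^ 2 * ∫ x, ‖S.zz x‖ ^ 2 * gam (‖x - y‖ ^ 2 / ρ ^ 2) ∂μ := by
    unfold mkf
    rw [pow_add]
    field_simp
  have hp : 0 ≤ c * ρ ^ 2 * ∫ x, ‖S.zz x‖ ^ 2 * gam (‖x - y‖ ^ 2 / ρ ^ 2) ∂μ :=
    mul_nonneg (by positivity) h4
  rw [e, mer]
  by_cases hi : Integrable (fun x => gam (‖x - y‖ ^ 2 / ρ ^ 2) *
      ∑ i, fderiv ℝ (fun x => ‖S.zz x‖ ^ 2) x (fr.s i x) * ⟪fr.s i x, x - y⟫) μ
  swap
  · rw [integral_undef hi]
    linarith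
  have i1 : Integrable (fun x => -(ρ ^ 2 / 5) *
      fr.div (fun x : E N => Gam (‖x - y‖ ^ 2 / ρ ^ 2) • S.zz x) x) μ := h2.const_mul _
  have i2 : Integrable (fun x => c * ρ ^ 2 * (‖S.zz x‖ ^ 2 * gam (‖x - y‖ ^ 2 / ρ ^ 2))) μ :=
    h3.const_mul _
  have i3 : Integrable (fun x => -(ρ ^ 2 / 5) *
      fr.div (fun x : E N => Gam (‖x - y‖ ^ 2 / ρ ^ 2) • S.zz x) x -
      c * ρ ^ 2 * (‖S.zz x‖ ^ 2 * gam (‖x - y‖ ^ 2 / ρ ^ 2))) μ := i1.sub i2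
  have h5 := integral_mono_ae i3 hi (by
    filter_upwards [hd] with x hdx
    by_cases hx : x ∈ closedBall y ρ
    · have e1 := fr.div_smul (hg.differentiable one_ne_zero x)
        ((S.contDiffAt_zeta (hT hx)).2.differentiableAt one_ne_zero)
      have e2 : ∑ i, fderiv ℝ (fun x : E N => Gam (‖x - y‖ ^ 2 / ρ ^ 2)) x (fr.s i x) *
          ⟪fr.s i x, S.zz x⟫ = -(5 / ρ ^ 2) * (gam (‖x - y‖ ^ 2 / ρ ^ 2) *
            ∑ i, fderiv ℝ (fun x => ‖S.zz x‖ ^ 2) x (fr.s i x) * ⟪fr.s i x, x - y⟫) := by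
        rw [Finset.mul_sum, Finset.mul_sum]
        refine Finset.sum_congr rfl fun i _ => ?_
        rw [Height_fderiv_g, Height_fderiv_f S (hT hx), real_inner_comm (fr.s i x) (x - y),
          real_inner_comm (fr.s i x) (S.zz x)]
        ring
      rw [e1, e2]
      have b1 := Gam_nonneg (‖x - y‖ ^ 2 / ρ ^ 2)
      have b2 := Gam_le_gam (t := ‖x - y‖ ^ 2 / ρ ^ 2) (by positivity)
      have b3 := mul_le_mul_of_nonneg_left hdx b1
      have b4 := mul_le_mul_of_nonneg_right b2 (show 0 ≤ c * ‖S.zz x‖ ^ 2 by positivity)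
      have b0 : 0 ≤ gam (‖x - y‖ ^ 2 / ρ ^ 2) * (c * ‖S.zz x‖ ^ 2) :=
        mul_nonneg (gam_nonneg _) (by positivity)
      have b5 : -(Gam (‖x - y‖ ^ 2 / ρ ^ 2) * fr.div S.zz x) / 5 -
          gam (‖x - y‖ ^ 2 / ρ ^ 2) * (c * ‖S.zz x‖ ^ 2) ≤ 0 := by linarith
      have b6 := mul_nonpos_of_nonneg_of_nonpos (sq_nonneg ρ) b5
      refine le_of_sub_nonpos (le_of_eq_of_le ?_ b6)
      field_simp
      ring
    · rw [StatA_div_zero fr (hX0 x hx), gam_eq_zero (hone x hx)]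
      simp)
  rw [integral_sub i1 i2, integral_const_mul, integral_const_mul, h1] at h5
  linarith

/-- the mean value inequality with a constant -/
theorem Height_mean {fr : Fr m N} {μ : Measure (E N)} [IsFiniteMeasure μ] {O : Set (E N)}
    (h : Stat fr μ O) {y : E N} {κ ρ₂ c : ℝ} (hy : LD m μ y κ) (h2 : 0 < ρ₂) (hc : 0 ≤ c)
    (h21 : c * ρ₂ ^ 2 ≤ 1) (hO : closedBall y ρ₂ ⊆ O) {f : E N → ℝ} (hm : Measurable f)
    (hf : ∀ x ∈ closedBall y ρ₂, ContDiffAt ℝ 1 f x ∧ 0 ≤ f x)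
    (hG : ∀ ρ, 0 < ρ → ρ ≤ ρ₂ → -(c * ρ ^ (m + 2) * mkf m μ f y ρ) ≤ mer fr μ f y ρ) :
    f y * κ ≤ 2 * mkf m μ f y ρ₂ := by
  obtain ⟨B, hf'⟩ := StatC_sup hf
  have h0 : ∀ ρ, 0 < ρ → ρ ≤ ρ₂ → 0 ≤ mkf m μ f y ρ := fun ρ h1 h12 =>
    mul_nonneg (by positivity) (integral_nonneg fun x => (StatC_bd h1 h12 hf' x).1)
  refine StatC_lim hy h2 hm hf fun ρ₁ h1 h12 => ?_
  have hbd : BddAbove (mkf m μ f y '' Icc ρ₁ ρ₂) := by
    refine ⟨(ρ₁ ^ m)⁻¹ * ∫ _, B ∂μ, ?_⟩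
    rintro _ ⟨ρ, hρ, rfl⟩
    have hρ0 := h1.trans_le hρ.1
    refine mul_le_mul (by have := hρ.1; gcongr) (integral_mono (StatC_int' μ hρ0 hρ.2 hm hf')
      (integrable_const B) fun x => (StatC_bd hρ0 hρ.2 hf' x).2)
      (integral_nonneg fun x => (StatC_bd hρ0 hρ.2 hf' x).1) (by positivity)
  set M := sSup (mkf m μ f y '' Icc ρ₁ ρ₂) with hM
  have hle : ∀ ρ ∈ Icc ρ₁ ρ₂, mkf m μ f y ρ ≤ M := fun ρ hρ => le_csSup hbd ⟨ρ, hρ, rfl⟩
  have hM0 : 0 ≤ M := (h0 ρ₁ h1 h12).trans (hle ρ₁ ⟨le_rfl, h12⟩)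
  have hM1 : M ≤ mkf m μ f y ρ₂ + M / 2 := by
    refine csSup_le ⟨_, ρ₁, ⟨le_rfl, h12⟩, rfl⟩ ?_
    rintro _ ⟨ρ, hρ, rfl⟩
    have hρ0 := h1.trans_le hρ.1
    have := mono_gen h hρ0 hρ.2 hO hm hf (g := fun t => c * t ^ (m + 2) * M) (by fun_prop)
      fun t ht => le_trans (neg_le_neg (mul_le_mul_of_nonneg_left (hle t ⟨hρ.1.trans ht.1, ht.2⟩)
        (mul_nonneg hc (pow_nonneg (hρ0.trans_le ht.1).le _)))) (hG t (hρ0.trans_le ht.1) ht.2)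
    have e : ∫ t in ρ..ρ₂, c * t ^ (m + 2) * M / t ^ (m + 1) = ∫ t in ρ..ρ₂, t * (c * M) := by
      refine intervalIntegral.integral_congr fun t ht => ?_
      rw [uIcc_of_le hρ.2] at ht
      have ht0 : t ≠ 0 := (hρ0.trans_le ht.1).ne'
      simp only [pow_succ _ (m + 1)]
      field_simp
    rw [e, intervalIntegral.integral_mul_const, integral_id] at this
    have h3 : c * ((ρ₂ ^ 2 - ρ ^ 2) / 2) ≤ 1 / 2 := by
      have := mul_nonneg hc (sq_nonneg ρ)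
      linarith
    linarith [mul_le_mul_of_nonneg_right h3 hM0]
  linarith [hle ρ₁ ⟨le_rfl, h12⟩]

/-- the kernel integral of the displacement is at most the integral of the height over a ball -/
theorem Height_le_I2 (S : Ref m N) (μ : Measure (E N)) [IsFiniteMeasure μ] (y : E N) {ρ σ : ℝ}
    (hρ : 0 < ρ) (h : ρ ≤ σ) :
    ∫ x, ‖S.zz x‖ ^ 2 * gam (‖x - y‖ ^ 2 / ρ ^ 2) ∂μ ≤ S.I2 μ y σ := by
  have hc : Continuous fun x => ‖S.gh x‖ ^ 2 := (S.gh_calc y).2.1.continuous.norm.pow 2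
  have i1 : IntegrableOn (fun x => ‖S.gh x‖ ^ 2) (ball y σ) μ :=
    (hc.continuousOn.integrableOn_compact (isCompact_closedBall y σ)).mono_set
      ball_subset_closedBall
  rw [← setIntegral_eq_integral_of_forall_compl_eq_zero (s := ball y σ) fun x hx => by
    rw [StatA_zero hρ fun hh => hx (ball_subset_ball h hh), mul_zero]]
  refine setIntegral_mono (Height_int_gam S μ y ρ).integrableOn i1 fun x => ?_
  exact (mul_le_of_le_one_right (by positivity) (gam_le_one (by positivity))).trans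
    (pow_le_pow_left₀ (norm_nonneg _) (S.zz_bd x).2.1 2)

/-- Let `f = ‖zz‖²`; then `fderiv f s = 2 ⟪zz, s⟫`. Test `Stat` with `Gam (|x - y|² / ρ²) • zz x`;
by `div_jac` the divergence of `zz` is at least `- c ‖zz‖²` almost everywhere, so
`mer ≥ - (c / 5) ρ ^ (m + 2) mkf`. Prove the variant of `mean_ineq` with the constant `c` and
`c ρ₂² ≤ 1` (copy its proof), or apply `mono_gen` directly; take `ρ₂ = σ / (10 c)`: this closed
ball is in the tube (`gh_calc`). -/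
theorem Piece.sup_bound (m : ℕ) : ∃ C : ℝ, 1 ≤ C ∧ ∀ {N : ℕ} {S : Ref m N} {fr : Fr m N}
    {μ : Measure (E N)} {y₀ : E N} {R T A : ℝ}, Piece S fr μ y₀ R T A → ∀ (σ : ℝ) (y : E N),
    0 < σ → ‖y - y₀‖ + σ ≤ R → ‖S.gh y‖ ≤ T → LD m μ y (cg m) →
    ‖S.gh y‖ ^ 2 ≤ C / σ ^ m * S.I2 μ y σ := by
  obtain ⟨c, hc, H⟩ := Ref.div_jac m
  have hg := cg_pos m
  refine ⟨max 1 (4 * (10 * c) ^ m / cg m), le_max_left _ _, ?_⟩
  intro N S fr μ y₀ R T A P σ y hσ hσR hy hL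
  have := P.fin
  have hR := P.R_le
  have hT := P.T_le
  have hσ1 : σ ≤ 1 / 10 := by linarith [norm_nonneg (y - y₀)]
  have h2 : 0 < σ / (10 * c) := by positivity
  have h3 : σ / (10 * c) ≤ σ / 10 :=
    div_le_div_of_nonneg_left hσ.le (by norm_num) (by linarith)
  have h4 : c * (σ / (10 * c)) ^ 2 ≤ 1 := by
    have e : c * (σ / (10 * c)) ^ 2 = σ / 10 * (σ / (10 * c)) := by
      field_simp
    rw [e]
    exact mul_le_one₀ (by linarith) h2.le (by linarith)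
  have hO : closedBall y (σ / (10 * c)) ⊆ ball y₀ R := fun x hx => by
    rw [mem_closedBall_iff_norm] at hx
    rw [mem_ball_iff_norm]
    linarith [norm_sub_le_norm_sub_add_norm_sub x y y₀]
  have hU : closedBall y (σ / (10 * c)) ⊆ S.tube := fun x hx => by
    rw [mem_closedBall_iff_norm] at hx
    have h5 := (S.gh_calc y).2.2.2.1 x y
    have h6 := norm_le_norm_add_norm_sub' (S.gh x) (S.gh y)
    show ‖S.gh x‖ < 1 / 2
    linarith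
  have hd : ∀ᵐ x ∂μ, -(c * ‖S.zz x‖ ^ 2) ≤ fr.div S.zz x := by
    filter_upwards [P.ae_tube] with x hx
    have e : fr.div S.zz x = ∑ l, ⟪fr.s l x, S.mm (S.zeta x) (S.zz x) (fr.s l x)⟫ := by
      unfold Fr.div
      exact Finset.sum_congr rfl fun i _ => by rw [(S.fderiv_zeta hx.1 _).2]
    rw [e]
    exact (H S (S.zeta x) (S.zz x) (fun l => fr.s l x) hx.2.2.1 (S.zz_bd x).1 (fr.orth x)).2.1
  have h5 := Height_mean P.stat hL h2 (by linarith) h4 hO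
    (f := fun x => ‖S.zz x‖ ^ 2) (S.measurable_zeta.2.norm.pow_const 2)
    (fun x hx => ⟨(S.contDiffAt_zeta (hU hx)).2.norm_sq ℝ, by positivity⟩)
    fun ρ h0 hρ => Height_mer P.stat (by linarith) h0 ((closedBall_subset_closedBall hρ).trans hO)
      ((closedBall_subset_closedBall hρ).trans hU) hd
  have h6 := Height_le_I2 S μ y (σ := σ) h2 (h3.trans (by linarith))
  have h7 : 0 ≤ S.I2 μ y σ := integral_nonneg fun x => by positivity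
  have h8 := mul_le_mul_of_nonneg_left h6 (show 0 ≤ ((σ / (10 * c)) ^ m)⁻¹ by positivity)
  have h9 : ‖S.gh y‖ ^ 2 ≤ 2 * ‖S.zz y‖ ^ 2 := by
    have h10 := (S.tube_spec (hU (mem_closedBall_self h2.le))).2.2.2.1
    have h11 := pow_le_pow_left₀ (norm_nonneg _) h10 2
    nlinarith [sq_nonneg ‖S.zz y‖]
  unfold mkf at h5
  refine le_trans ?_ (mul_le_mul_of_nonneg_right (div_le_div_of_nonneg_right (le_max_right _ _)
    (by positivity)) h7)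
  have e : 4 * (10 * c) ^ m / cg m / σ ^ m * S.I2 μ y σ =
      4 * (((σ / (10 * c)) ^ m)⁻¹ * S.I2 μ y σ) / cg m := by
    rw [div_pow]
    field_simp
  rw [e, le_div_iff₀ hg]
  have h12 := mul_le_mul_of_nonneg_right h9 hg.le
  linarith

end Pool.Agent.MP_f6c0e6_an.Gen

end

section

/-! Flat frames tangent to the reference graph. -/

set_option autoImplicit false

open MeasureTheory Filter Topology Set Metric
open scoped ENNReal RealInnerProductSpace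

namespace Pool.Agent.MP_f6c0e6_an.Gen

variable {m N : ℕ}

theorem FrameA_vol_ev : vol (fun j : Fin m => (ev j : E m)) = 1 := by
  have h : (Matrix.of fun i j : Fin m => (ev j : E m) i) = 1 := by
    ext i j
    simp [ev, Matrix.one_apply]
  rw [vol, h, Matrix.det_one, abs_one]

theorem FrameA_vol (L : E m →L[ℝ] E m) :
    vol (fun j => L (ev j)) = |LinearMap.det (L : E m →ₗ[ℝ] E m)| := by
  rw [vol_map, FrameA_vol_ev, mul_one]

theorem FrameA_orth (ι : E m →ₗᵢ[ℝ] E N) : Orthonormal ℝ fun j => ι (ev j) := by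
  have h : Orthonormal ℝ fun j : Fin m => (ev j : E m) := by
    have := (EuclideanSpace.basisFun (Fin m) ℝ).orthonormal
    have e : (fun j : Fin m => (ev j : E m)) = EuclideanSpace.basisFun (Fin m) ℝ := by
      funext j
      exact (GCalc_ev j).symm
    rw [e]
    exact this
  exact h.comp_linearIsometry ι

theorem FrameA_vt_vt (ι : E m →ₗᵢ[ℝ] E N) (y y' : E N) :
    ⟪vt ι y, y'⟫ = ⟪vt ι y, vt ι y'⟫ := by
  rw [(inner_vt ι (vt ι y) y').2, pr_vt, inner_zero_left, zero_add, vt_of_pr ι (pr_vt ι y)]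

theorem FrameA_div {p c : ℝ} (hp : 0 ≤ p) (hc : 0 ≤ c) (h : p ^ 2 ≤ p * c) : p ≤ c := by
  rcases hp.eq_or_lt with h0 | h0
  · rw [← h0]
    exact hc
  · rw [sq] at h
    exact le_of_mul_le_mul_left h h0

namespace Ref

variable (S : Ref m N)

/-- `ι'` parametrises the tangent plane at `ξ₁` -/
def Tan (ξ₁ : E m) (ι' : E m →ₗᵢ[ℝ] E N) : Prop := ∀ u, S.La ξ₁ (S.al ξ₁ (ι' u)) = ι' u

/-- the change of coordinates -/
noncomputable def AA (ξ₁ : E m) (ι' : E m →ₗᵢ[ℝ] E N) : E m →L[ℝ] E m :=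
  giW S.w ξ₁ ∘L (S.La ξ₁).adjoint ∘L ι'.toContinuousLinearMap

/-- the projection of the graph on the plane of `ι'` -/
noncomputable def Psi (ξ₁ : E m) (ι' : E m →ₗᵢ[ℝ] E N) (ξ : E m) : E m := pr ι' (S.F ξ - S.F ξ₁)

/-- the tilt of the tangent plane at `ξ` with respect to the plane of `ι'` -/
noncomputable def tl0 (ι' : E m →ₗᵢ[ℝ] E N) (ξ : E m) : ℝ :=
  ∑ j, ⟪vt ι' (S.La ξ (giW S.w ξ (ev j))), S.La ξ (ev j)⟫

/-- `exists_iso` for the range of `La ξ₁` -/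
theorem exists_tan (ξ₁ : E m) : ∃ ι' : E m →ₗᵢ[ℝ] E N, S.Tan ξ₁ ι' := by
  have hinj : Function.Injective (S.La ξ₁ : E m →ₗ[ℝ] E N) := by
    rw [injective_iff_map_eq_zero]
    intro u hu
    have h := (S.La_bd ξ₁ u u).2.2.2.1
    have hu' : S.La ξ₁ u = 0 := hu
    rw [hu', norm_zero] at h
    exact norm_le_zero_iff.1 h
  have hr : Module.finrank ℝ (LinearMap.range (S.La ξ₁ : E m →ₗ[ℝ] E N)) = m := by
    rw [LinearMap.finrank_range_of_inj hinj]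
    simp
  obtain ⟨ι', hι⟩ := exists_iso _ hr
  refine ⟨ι', fun u => ?_⟩
  have hu : ι' u ∈ (LinearMap.range (S.La ξ₁ : E m →ₗ[ℝ] E N) : Set (E N)) := by
    rw [hι]
    exact mem_range_self u
  obtain ⟨v, hv⟩ := hu
  have hv' : S.La ξ₁ v = ι' u := hv
  rw [← hv', (S.al_calc ξ₁ v 0).2.2.2.1]

theorem FrameA_approx (ξ₁ x x' : E m) :
    ‖S.F x - S.F x' - S.La ξ₁ (x - x')‖ ≤ ‖x - x'‖ / 50 := by
  have hd : Differentiable ℝ S.w := S.smooth.differentiable (by norm_num)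
  have h1 : ‖S.w x - S.w x'‖ ≤ 1 / 100 * ‖x - x'‖ :=
    convex_univ.norm_image_sub_le_of_norm_fderiv_le (𝕜 := ℝ) (fun y _ => hd y)
      (fun y _ => S.b1 y) (mem_univ x') (mem_univ x)
  have h2 : ‖fderiv ℝ S.w ξ₁ (x - x')‖ ≤ 1 / 100 * ‖x - x'‖ :=
    ((fderiv ℝ S.w ξ₁).le_opNorm _).trans
      (mul_le_mul_of_nonneg_right (S.b1 ξ₁) (norm_nonneg _))
  have e : S.F x - S.F x' - S.La ξ₁ (x - x') = S.w x - S.w x' - fderiv ℝ S.w ξ₁ (x - x') := by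
    simp only [F, La, add_apply, LinearIsometry.coe_toContinuousLinearMap,
      map_sub S.ι]
    abel
  rw [e]
  have := norm_sub_le (S.w x - S.w x') (fderiv ℝ S.w ξ₁ (x - x'))
  linarith only [h1, h2, this]

theorem FrameA_La_le (ξ u : E m) : ‖S.La ξ u‖ ≤ 101 / 100 * ‖u‖ :=
  ((S.La ξ).le_opNorm _).trans
    (mul_le_mul_of_nonneg_right (S.La_bd ξ u u).2.2.2.2.1 (norm_nonneg _))

theorem FrameA_La_sub (ξ ξ' u : E m) : ‖S.La ξ u - S.La ξ' u‖ ≤ ‖ξ - ξ'‖ * ‖u‖ / 100 := by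
  have h := ((S.La ξ - S.La ξ').le_opNorm u).trans
    (mul_le_mul_of_nonneg_right (S.F_lip ξ ξ').2.2.1 (norm_nonneg _))
  rw [sub_apply] at h
  linarith

variable {S} {ξ₁ : E m} {ι' : E m →ₗᵢ[ℝ] E N}

theorem FrameA_LA (h : S.Tan ξ₁ ι') (u : E m) : S.La ξ₁ (S.AA ξ₁ ι' u) = ι' u := h u

theorem FrameA_A_le (h : S.Tan ξ₁ ι') (u : E m) : ‖S.AA ξ₁ ι' u‖ ≤ ‖u‖ := by
  have h1 := (S.La_bd ξ₁ (S.AA ξ₁ ι' u) u).2.2.2.1
  rwa [FrameA_LA h, ι'.norm_map] at h1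

theorem FrameA_A_inj (h : S.Tan ξ₁ ι') : Function.Injective (S.AA ξ₁ ι') := by
  intro u u' hu
  apply ι'.injective
  rw [← FrameA_LA h, ← FrameA_LA h, hu]

theorem FrameA_A_surj (h : S.Tan ξ₁ ι') : Function.Surjective (S.AA ξ₁ ι') :=
  (LinearMap.injective_iff_surjective (f := (S.AA ξ₁ ι' : E m →ₗ[ℝ] E m))).1 (FrameA_A_inj h)

theorem FrameA_A_pr (h : S.Tan ξ₁ ι') (u : E m) : S.AA ξ₁ ι' (pr ι' (S.La ξ₁ u)) = u := by
  obtain ⟨u', rfl⟩ := FrameA_A_surj h u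
  rw [FrameA_LA h, pr_iota]

theorem FrameA_vt_La (h : S.Tan ξ₁ ι') (u : E m) : vt ι' (S.La ξ₁ u) = 0 := by
  obtain ⟨u', rfl⟩ := FrameA_A_surj h u
  rw [FrameA_LA h, vt_iota]

theorem FrameA_vt_nor (h : S.Tan ξ₁ ι') (v : E N) : vt ι' v = S.nor ξ₁ v := by
  obtain ⟨h1, h2, -⟩ := S.al_calc ξ₁ 0 v
  have h3 : pr ι' (S.nor ξ₁ v) = 0 := by
    apply ext_inner_left ℝ
    intro u
    rw [← inner_iota, ← FrameA_LA h, ← ContinuousLinearMap.adjoint_inner_right, h2,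
      inner_zero_right, inner_zero_right]
  conv_lhs => rw [h1]
  rw [vt_add, FrameA_vt_La h, zero_add, vt_of_pr ι' h3]

theorem FrameA_inner_A (u v : E m) :
    ⟪S.AA ξ₁ ι' u, v⟫ = ⟪u, pr ι' (S.La ξ₁ (giW S.w ξ₁ v))⟫ := by
  rw [← inner_iota, ← ContinuousLinearMap.adjoint_inner_left, ← giW_symm]
  rfl

theorem FrameA_sum_A (h : S.Tan ξ₁ ι') :
    (∑ j, (innerSL ℝ (S.AA ξ₁ ι' (ev j))).smulRight (S.AA ξ₁ ι' (ev j)) : E m →L[ℝ] E m) =
      giW S.w ξ₁ := by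
  ext1 v
  rw [sum_apply, ← FrameA_A_pr h (giW S.w ξ₁ v)]
  conv_rhs => rw [← sum_ev (pr ι' (S.La ξ₁ (giW S.w ξ₁ v))), map_sum]
  refine Finset.sum_congr rfl fun j _ => ?_
  rw [ContinuousLinearMap.smulRight_apply, innerSL_apply_apply, FrameA_inner_A, map_smul]

theorem FrameA_det (h : S.Tan ξ₁ ι') :
    |LinearMap.det (S.AA ξ₁ ι' : E m →ₗ[ℝ] E m)| * sgW S.w ξ₁ = 1 := by
  have h1 := vol_sq fun j => S.AA ξ₁ ι' (ev j)
  rw [FrameA_sum_A h, FrameA_vol] at h1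
  have h2 := GCalc_dt_mul (giW S.w ξ₁) (gW S.w ξ₁)
  rw [GCalc_inv_mul, GCalc_dt_one] at h2
  have h3 := (sgW_bd S.w ξ₁).1
  have h4 : sgW S.w ξ₁ ^ 2 = LinearMap.det (gW S.w ξ₁ : E m →ₗ[ℝ] E m) :=
    Real.sq_sqrt (by linarith)
  have h5 : (|LinearMap.det (S.AA ξ₁ ι' : E m →ₗ[ℝ] E m)| * sgW S.w ξ₁) ^ 2 = 1 := by
    rw [mul_pow, h1, h4]
    exact h2.symm
  have h6 : 0 ≤ |LinearMap.det (S.AA ξ₁ ι' : E m →ₗ[ℝ] E m)| * sgW S.w ξ₁ :=
    mul_nonneg (abs_nonneg _) (Real.sqrt_nonneg _)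
  exact (pow_eq_one_iff_of_nonneg h6 two_ne_zero).1 h5

/-- the tilt is the tilt of a tangent frame -/
theorem FrameA_tl0 (h : S.Tan ξ₁ ι') (ι : E m →ₗᵢ[ℝ] E N) :
    S.tl0 ι ξ₁ = tlt ι fun j => ι' (ev j) := by
  set P : E m →L[ℝ] E N := vtL ι ∘L S.La ξ₁ with hP
  have hPa : ∀ u, P u = vt ι (S.La ξ₁ u) := fun u => vtL_apply ι _
  set B : E m →L[ℝ] E m := pr ι' ∘L S.La ξ₁ ∘L giW S.w ξ₁ with hB
  have h1 := sum_ev_comm (B ∘L P.adjoint ∘L P) (S.AA ξ₁ ι')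
  have h2 := sum_ev_comm (S.AA ξ₁ ι' ∘L B) (P.adjoint ∘L P)
  have hAB : ∀ u, S.AA ξ₁ ι' (B u) = giW S.w ξ₁ u := fun u => FrameA_A_pr h _
  calc S.tl0 ι ξ₁ = ∑ j, ⟪ev j, (P.adjoint ∘L P) ((S.AA ξ₁ ι' ∘L B) (ev j))⟫ := by
        refine Finset.sum_congr rfl fun j _ => ?_
        change _ = ⟪ev j, P.adjoint (P (S.AA ξ₁ ι' (B (ev j))))⟫
        rw [hAB, ContinuousLinearMap.adjoint_inner_right, hPa, hPa, FrameA_vt_vt, real_inner_comm]
    _ = ∑ j, ⟪ev j, (B ∘L P.adjoint ∘L P) (S.AA ξ₁ ι' (ev j))⟫ := by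
        rw [h1, ← h2]
        rfl
    _ = _ := by
        refine Finset.sum_congr rfl fun j _ => ?_
        have e : ⟪ev j, (B ∘L P.adjoint ∘L P) (S.AA ξ₁ ι' (ev j))⟫ =
            ⟪S.AA ξ₁ ι' (ev j), P.adjoint (P (S.AA ξ₁ ι' (ev j)))⟫ := by
          rw [FrameA_inner_A]
          rfl
        rw [e, ContinuousLinearMap.adjoint_inner_right, hPa, FrameA_LA h,
          real_inner_self_eq_norm_sq]

theorem FrameA_vt_le (h : S.Tan ξ₁ ι') (ξ u : E m) :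
    ‖vt ι' (S.La ξ u)‖ ≤ ‖ξ - ξ₁‖ * ‖u‖ / 100 := by
  rw [FrameA_vt_nor h]
  exact (S.al_calc ξ₁ u (S.La ξ u)).2.2.2.2.2.2.trans (S.FrameA_La_sub ξ ξ₁ u)

theorem FrameA_pr_le (h : S.Tan ξ₁ ι') (ξ : E m) {z : E N} (hz : (S.La ξ).adjoint z = 0) :
    ‖pr ι' z‖ ≤ ‖ξ - ξ₁‖ * ‖z‖ / 100 := by
  refine FrameA_div (norm_nonneg _) (by positivity) ?_
  have h0 : ⟪S.La ξ (S.AA ξ₁ ι' (pr ι' z)), z⟫ = 0 := by
    rw [← ContinuousLinearMap.adjoint_inner_right, hz, inner_zero_right]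
  have h1 : ‖pr ι' z‖ ^ 2 =
      ⟪S.La ξ₁ (S.AA ξ₁ ι' (pr ι' z)) - S.La ξ (S.AA ξ₁ ι' (pr ι' z)), z⟫ := by
    rw [inner_sub_left, h0, sub_zero, FrameA_LA h, inner_iota, real_inner_self_eq_norm_sq]
  have h2 := S.FrameA_La_sub ξ₁ ξ (S.AA ξ₁ ι' (pr ι' z))
  rw [norm_sub_rev ξ₁ ξ] at h2
  have h3 := FrameA_A_le h (pr ι' z)
  have h4 : ‖ξ - ξ₁‖ * ‖S.AA ξ₁ ι' (pr ι' z)‖ ≤ ‖ξ - ξ₁‖ * ‖pr ι' z‖ :=
    mul_le_mul_of_nonneg_left h3 (norm_nonneg _)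
  calc ‖pr ι' z‖ ^ 2 ≤ _ := h1.le
    _ ≤ _ := real_inner_le_norm _ _
    _ ≤ ‖ξ - ξ₁‖ * ‖pr ι' z‖ / 100 * ‖z‖ :=
        mul_le_mul_of_nonneg_right (by linarith only [h2, h4]) (norm_nonneg _)
    _ = _ := by ring

theorem FrameA_A_psi (h : S.Tan ξ₁ ι') (x x' : E m) :
    ‖S.AA ξ₁ ι' (pr ι' (S.F x - S.F x')) - (x - x')‖ ≤
      ‖S.F x - S.F x' - S.La ξ₁ (x - x')‖ := by
  have e : S.AA ξ₁ ι' (pr ι' (S.F x - S.F x')) - (x - x') =
      S.AA ξ₁ ι' (pr ι' (S.F x - S.F x' - S.La ξ₁ (x - x'))) := by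
    rw [map_sub (pr ι') (S.F x - S.F x'), map_sub (S.AA ξ₁ ι'), FrameA_A_pr h]
  rw [e]
  exact (FrameA_A_le h _).trans (norm_pr_le ι' _).1

/-- the range of `ι'` is the range of `La ξ₁` (dimension) -/
theorem Tan.calc (h : S.Tan ξ₁ ι') (u : E m) (v : E N) : S.La ξ₁ (S.AA ξ₁ ι' u) = ι' u ∧
    S.AA ξ₁ ι' (pr ι' (S.La ξ₁ u)) = u ∧ vt ι' v = S.nor ξ₁ v ∧ ‖S.AA ξ₁ ι' u‖ ≤ ‖u‖ ∧
    ‖u‖ ≤ 101 / 100 * ‖S.AA ξ₁ ι' u‖ ∧
    |LinearMap.det (S.AA ξ₁ ι' : E m →ₗ[ℝ] E m)| * sgW S.w ξ₁ = 1 := by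
  refine ⟨FrameA_LA h u, FrameA_A_pr h u, FrameA_vt_nor h v, FrameA_A_le h u, ?_, FrameA_det h⟩
  have h1 := S.FrameA_La_le ξ₁ (S.AA ξ₁ ι' u)
  rwa [FrameA_LA h, ι'.norm_map] at h1

theorem Tan.near (h : S.Tan ξ₁ ι') (ξ u : E m) (z : E N) :
    ‖vt ι' (S.La ξ u)‖ ≤ ‖ξ - ξ₁‖ * ‖u‖ / 100 ∧
    ((S.La ξ).adjoint z = 0 → ‖pr ι' z‖ ≤ ‖ξ - ξ₁‖ * ‖z‖ / 100) ∧
    ‖vt ι' (S.F ξ - S.F ξ₁)‖ ≤ ‖ξ - ξ₁‖ ^ 2 / 100 ∧
    ‖ξ₁ + S.AA ξ₁ ι' (S.Psi ξ₁ ι' ξ) - ξ‖ ≤ ‖ξ - ξ₁‖ ^ 2 / 100 ∧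
    ‖ξ₁ + S.AA ξ₁ ι' (S.Psi ξ₁ ι' ξ) - ξ‖ ≤ ‖ξ - ξ₁‖ / 50 ∧
    0 ≤ S.tl0 ι' ξ ∧ S.tl0 ι' ξ ≤ m * ‖ξ - ξ₁‖ ^ 2 := by
  obtain ⟨-, -, -, h4, h5⟩ := S.F_lip ξ ξ₁
  have e : ξ₁ + S.AA ξ₁ ι' (S.Psi ξ₁ ι' ξ) - ξ =
      S.AA ξ₁ ι' (pr ι' (S.F ξ - S.F ξ₁)) - (ξ - ξ₁) := by
    rw [Psi]
    abel
  refine ⟨FrameA_vt_le h ξ u, FrameA_pr_le h ξ, ?_, ?_, ?_, ?_, ?_⟩
  · rw [FrameA_vt_nor h]
    exact (S.al_calc ξ₁ (ξ - ξ₁) _).2.2.2.2.2.2.trans h4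
  · rw [e]
    exact (FrameA_A_psi h ξ ξ₁).trans h4
  · rw [e]
    exact (FrameA_A_psi h ξ ξ₁).trans h5
  · obtain ⟨ι'', h''⟩ := S.exists_tan ξ
    rw [FrameA_tl0 h'']
    exact (tlt_bd ι' (FrameA_orth ι'')).1
  · have hb : ∀ j : Fin m, ⟪vt ι' (S.La ξ (giW S.w ξ (ev j))), S.La ξ (ev j)⟫ ≤
        ‖ξ - ξ₁‖ ^ 2 := by
      intro j
      have h1 := FrameA_vt_le h ξ (giW S.w ξ (ev j))
      have h2 := FrameA_vt_le h ξ (ev j)
      have h3 : ‖giW S.w ξ (ev j)‖ ≤ 1 := by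
        have := (giW S.w ξ).le_opNorm (ev j)
        rw [norm_ev, mul_one] at this
        exact this.trans (gW_bd S.w ξ).1
      have h6 : ‖ξ - ξ₁‖ * ‖giW S.w ξ (ev j)‖ ≤ ‖ξ - ξ₁‖ * 1 :=
        mul_le_mul_of_nonneg_left h3 (norm_nonneg _)
      rw [norm_ev] at h2
      have hd := norm_nonneg (ξ - ξ₁)
      rw [FrameA_vt_vt]
      calc _ ≤ _ := real_inner_le_norm _ _
        _ ≤ ‖ξ - ξ₁‖ * ‖ξ - ξ₁‖ :=
            mul_le_mul (by linarith only [h1, h6, hd]) (by linarith only [h2, hd]) (norm_nonneg _) hd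
        _ = _ := by ring
    calc S.tl0 ι' ξ ≤ ∑ _j : Fin m, ‖ξ - ξ₁‖ ^ 2 := Finset.sum_le_sum fun j _ => hb j
      _ = _ := by simp

theorem FrameA_vert (h : S.Tan ξ₁ ι') {z : E N} (hz : pr S.ι z = 0) :
    ‖pr ι' z‖ ≤ ‖z‖ / 100 := by
  refine FrameA_div (norm_nonneg _) (by positivity) ?_
  have h1 : ‖pr ι' z‖ ^ 2 = ⟪fderiv ℝ S.w ξ₁ (S.AA ξ₁ ι' (pr ι' z)), z⟫ := by
    rw [← real_inner_self_eq_norm_sq, ← inner_iota, ← FrameA_LA h]
    have e : S.La ξ₁ (S.AA ξ₁ ι' (pr ι' z)) =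
        S.ι (S.AA ξ₁ ι' (pr ι' z)) + fderiv ℝ S.w ξ₁ (S.AA ξ₁ ι' (pr ι' z)) := rfl
    rw [e, inner_add_left, inner_iota, hz, inner_zero_right, zero_add]
  have h2 : ‖fderiv ℝ S.w ξ₁ (S.AA ξ₁ ι' (pr ι' z))‖ ≤ 1 / 100 * ‖pr ι' z‖ :=
    ((fderiv ℝ S.w ξ₁).le_opNorm _).trans
      (mul_le_mul (S.b1 ξ₁) (FrameA_A_le h _) (norm_nonneg _) (by norm_num))
  calc ‖pr ι' z‖ ^ 2 ≤ _ := h1.le
    _ ≤ _ := real_inner_le_norm _ _
    _ ≤ 1 / 100 * ‖pr ι' z‖ * ‖z‖ := mul_le_mul_of_nonneg_right h2 (norm_nonneg _)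
    _ = _ := by ring

theorem FrameA_lower (h : S.Tan ξ₁ ι') (x x' : E m) :
    49 / 50 * ‖x - x'‖ ≤ ‖pr ι' (S.F x - S.F x')‖ := by
  have h1 := (FrameA_A_psi h x x').trans (S.FrameA_approx ξ₁ x x')
  have h2 := FrameA_A_le h (pr ι' (S.F x - S.F x'))
  have h3 := norm_sub_norm_le (x - x') (S.AA ξ₁ ι' (pr ι' (S.F x - S.F x')))
  rw [norm_sub_rev (x - x')] at h3
  linarith only [h1, h2, h3]

/-- the projections on the two planes are comparable; a vertical vector is almost normal -/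
theorem Tan.sep (h : S.Tan ξ₁ ι') (y y' : E N) :
    49 / 50 * ‖pr S.ι y - pr S.ι y'‖ - (‖S.gh y‖ + ‖S.gh y'‖) / 100 ≤ ‖pr ι' (y - y')‖ ∧
      ‖y - y'‖ ≤ 101 / 100 * ‖pr S.ι y - pr S.ι y'‖ + ‖S.gh y‖ + ‖S.gh y'‖ := by
  have e : y - y' = S.F (pr S.ι y) - S.F (pr S.ι y') + (S.gh y - S.gh y') := by
    simp only [gh]
    abel
  constructor
  · have h1 := FrameA_lower h (pr S.ι y) (pr S.ι y')
    have h2 := FrameA_vert h (S.gh_calc y).1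
    have h3 := FrameA_vert h (S.gh_calc y').1
    have e2 : pr ι' (S.F (pr S.ι y) - S.F (pr S.ι y')) =
        pr ι' (y - y') - (pr ι' (S.gh y) - pr ι' (S.gh y')) := by
      rw [e, map_add, map_sub (pr ι') (S.gh y), add_sub_cancel_right]
    have h4 := norm_sub_le (pr ι' (y - y')) (pr ι' (S.gh y) - pr ι' (S.gh y'))
    have h5 := norm_sub_le (pr ι' (S.gh y)) (pr ι' (S.gh y'))
    rw [e2] at h1
    linarith only [h1, h2, h3, h4, h5]
  · have h1 := (S.F_lip (pr S.ι y) (pr S.ι y')).2.1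
    have h2 := norm_add_le (S.F (pr S.ι y) - S.F (pr S.ι y')) (S.gh y - S.gh y')
    have h3 := norm_sub_le (S.gh y) (S.gh y')
    rw [← e] at h2
    linarith only [h1, h2, h3]

theorem FrameA_split (ι : E m →ₗᵢ[ℝ] E N) (ξ : E m) (s : E N) :
    ‖vt ι s‖ ^ 2 = ‖vt ι (S.La ξ (S.al ξ s))‖ ^ 2 + ‖S.nor ξ s‖ ^ 2 -
      2 * ⟪pr ι (S.La ξ (S.al ξ s)), pr ι (S.nor ξ s)⟫ - ‖pr ι (S.nor ξ s)‖ ^ 2 := by
  obtain ⟨h1, h2, -⟩ := S.al_calc ξ 0 s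
  have h3 : ⟪S.La ξ (S.al ξ s), S.nor ξ s⟫ = 0 := by
    rw [← ContinuousLinearMap.adjoint_inner_right, h2, inner_zero_right]
  have h4 := (inner_vt ι (S.La ξ (S.al ξ s)) (S.nor ξ s)).2
  have h5 := norm_sq_split ι (S.nor ξ s)
  have h6 : vt ι s = vt ι (S.La ξ (S.al ξ s)) + vt ι (S.nor ξ s) := by
    rw [← vt_add, ← h1]
  rw [h6, norm_add_sq_real]
  linarith only [h3, h4, h5]

theorem FrameA_tan_sum (h : S.Tan ξ₁ ι') (ξ : E m) {s : Fin m → E N} (hs : Orthonormal ℝ s) :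
    |∑ l, ‖vt ι' (S.La ξ (S.al ξ (s l)))‖ ^ 2 - S.tl0 ι' ξ| ≤
      m * ‖ξ - ξ₁‖ ^ 2 * S.tilt ξ s / 2 := by
  set P : E m →L[ℝ] E N := vtL ι' ∘L S.La ξ with hP
  have hPa : ∀ u, P u = vt ι' (S.La ξ u) := fun u => vtL_apply ι' _
  have hd := norm_nonneg (ξ - ξ₁)
  have hPn : ‖P‖ ≤ ‖ξ - ξ₁‖ / 100 := by
    refine P.opNorm_le_bound (by positivity) fun u => ?_
    rw [hPa]
    have := FrameA_vt_le h ξ u
    linarith only [this]
  set L : E m →L[ℝ] E m := giW S.w ξ ∘L P.adjoint ∘L P with hL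
  have hLa : ∀ u, L u = giW S.w ξ (P.adjoint (P u)) := fun u => rfl
  have h1 := S.sum_al ξ s L
  have h2 : ∑ l, ⟪gW S.w ξ (S.al ξ (s l)), L (S.al ξ (s l))⟫ =
      ∑ l, ‖vt ι' (S.La ξ (S.al ξ (s l)))‖ ^ 2 := by
    refine Finset.sum_congr rfl fun l _ => ?_
    rw [hLa, ← giW_symm, (giW_gW S.w ξ _).1, ContinuousLinearMap.adjoint_inner_right, hPa,
      real_inner_self_eq_norm_sq]
  have h3 : ∑ i, ⟪ev i, L (ev i)⟫ = S.tl0 ι' ξ := by
    refine Finset.sum_congr rfl fun i _ => ?_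
    rw [hLa, ← giW_symm, ContinuousLinearMap.adjoint_inner_right, hPa, hPa, ← FrameA_vt_vt]
  obtain ⟨ht0, -, -, -, hstr, -⟩ := S.str_bd ξ hs
  have hLn : ‖L‖ ≤ ‖ξ - ξ₁‖ ^ 2 / 100 := by
    have a1 : ‖L‖ ≤ ‖giW S.w ξ‖ * ‖P.adjoint ∘L P‖ := ContinuousLinearMap.opNorm_comp_le _ _
    have a2 : ‖P.adjoint ∘L P‖ = ‖P‖ * ‖P‖ := ContinuousLinearMap.norm_adjoint_comp_self P
    have a3 : ‖P‖ * ‖P‖ ≤ ‖ξ - ξ₁‖ / 100 * (‖ξ - ξ₁‖ / 100) :=
      mul_le_mul hPn hPn (norm_nonneg _) (by positivity)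
    have a4 : ‖giW S.w ξ‖ * ‖P.adjoint ∘L P‖ ≤ 1 * ‖P.adjoint ∘L P‖ :=
      mul_le_mul_of_nonneg_right (gW_bd S.w ξ).1 (norm_nonneg _)
    nlinarith only [a1, a2, a3, a4, sq_nonneg ‖ξ - ξ₁‖]
  have h4 := abs_sum_ev_le (L ∘L S.str ξ s ∘L gW S.w ξ)
  have h5 : ‖L ∘L S.str ξ s ∘L gW S.w ξ‖ ≤ ‖ξ - ξ₁‖ ^ 2 / 100 * (S.tilt ξ s * (101 / 100)) := by
    refine (ContinuousLinearMap.opNorm_comp_le _ _).trans
      (mul_le_mul hLn ?_ (norm_nonneg _) (by positivity))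
    exact (ContinuousLinearMap.opNorm_comp_le _ _).trans
      (mul_le_mul hstr (S.La_bd ξ 0 0).2.2.2.2.2.2.2 (norm_nonneg _) ht0)
  have h6 : ∑ l, ‖vt ι' (S.La ξ (S.al ξ (s l)))‖ ^ 2 - S.tl0 ι' ξ =
      -∑ i, ⟪ev i, (L ∘L S.str ξ s ∘L gW S.w ξ) (ev i)⟫ := by
    rw [← h2, h1, h3]
    simp only [ContinuousLinearMap.comp_apply]
    ring
  rw [h6, abs_neg]
  have h7 : 0 ≤ (m : ℝ) * (‖ξ - ξ₁‖ ^ 2 * S.tilt ξ s) := by positivity
  calc _ ≤ _ := h4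
    _ ≤ m * (‖ξ - ξ₁‖ ^ 2 / 100 * (S.tilt ξ s * (101 / 100))) :=
        mul_le_mul_of_nonneg_left h5 (Nat.cast_nonneg m)
    _ ≤ _ := by nlinarith only [h7]

/-- the tilt in the flat frame; `⟪vt (La a), n⟫ = - ⟪La a, ι' (pr n)⟫` -/
theorem Tan.tilt (h : S.Tan ξ₁ ι') (ξ : E m) {s : Fin m → E N} (hs : Orthonormal ℝ s) :
    |tlt ι' s - (S.tl0 ι' ξ + S.tilt ξ s -
      2 * ∑ l, ⟪pr ι' (S.La ξ (S.al ξ (s l))), pr ι' (S.nor ξ (s l))⟫)| ≤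
        m * ‖ξ - ξ₁‖ ^ 2 * S.tilt ξ s ∧
      tlt ι' s ≤ 2 * S.tilt ξ s + m * ‖ξ - ξ₁‖ ^ 2 := by
  have hd := norm_nonneg (ξ - ξ₁)
  obtain ⟨ht0, htm, -⟩ := S.str_bd ξ hs
  constructor
  · have h1 : tlt ι' s = ∑ l, ‖vt ι' (S.La ξ (S.al ξ (s l)))‖ ^ 2 + S.tilt ξ s -
        2 * ∑ l, ⟪pr ι' (S.La ξ (S.al ξ (s l))), pr ι' (S.nor ξ (s l))⟫ -
        ∑ l, ‖pr ι' (S.nor ξ (s l))‖ ^ 2 := by
      rw [tlt, Ref.tilt, Finset.mul_sum, ← Finset.sum_add_distrib, ← Finset.sum_sub_distrib,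
        ← Finset.sum_sub_distrib]
      exact Finset.sum_congr rfl fun l _ => FrameA_split ι' ξ (s l)
    have h2 := FrameA_tan_sum h ξ hs
    have h3 : 0 ≤ ∑ l, ‖pr ι' (S.nor ξ (s l))‖ ^ 2 := Finset.sum_nonneg fun l _ => sq_nonneg _
    have h4 : ∑ l, ‖pr ι' (S.nor ξ (s l))‖ ^ 2 ≤ ‖ξ - ξ₁‖ ^ 2 * S.tilt ξ s / 2 := by
      rw [Ref.tilt, Finset.mul_sum, Finset.sum_div]
      refine Finset.sum_le_sum fun l _ => ?_
      have a1 := FrameA_pr_le h ξ (S.al_calc ξ 0 (s l)).2.1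
      have a2 := pow_le_pow_left₀ (norm_nonneg _) a1 2
      have a3 : 0 ≤ (‖ξ - ξ₁‖ * ‖S.nor ξ (s l)‖) ^ 2 := sq_nonneg _
      nlinarith only [a2]
    have h5 : ‖ξ - ξ₁‖ ^ 2 * S.tilt ξ s ≤ m * ‖ξ - ξ₁‖ ^ 2 * S.tilt ξ s := by
      rcases Nat.eq_zero_or_pos m with h0 | h0
      · have : S.tilt ξ s = 0 := by
          refine le_antisymm ?_ ht0
          simpa [h0] using htm
        rw [this, mul_zero, mul_zero]
      · have a1 : (1 : ℝ) ≤ m := by exact_mod_cast h0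
        have a2 : 0 ≤ ‖ξ - ξ₁‖ ^ 2 * S.tilt ξ s := by positivity
        nlinarith only [h3, a1, h4]
    rw [abs_le] at h2 ⊢
    constructor <;> linarith only [h1, h2, h4, h5, h3, h2.1, h2.2]
  · have hb : ∀ l, ‖vt ι' (s l)‖ ^ 2 ≤ 2 * ‖S.nor ξ (s l)‖ ^ 2 + ‖ξ - ξ₁‖ ^ 2 := by
      intro l
      obtain ⟨a1, -, -, -, -, a2, -⟩ := S.al_calc ξ 0 (s l)
      rw [hs.1 l] at a2
      have a3 : vt ι' (s l) = vt ι' (S.La ξ (S.al ξ (s l))) + vt ι' (S.nor ξ (s l)) := by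
        rw [← vt_add, ← a1]
      have a4 := FrameA_vt_le h ξ (S.al ξ (s l))
      have a5 : ‖ξ - ξ₁‖ * ‖S.al ξ (s l)‖ ≤ ‖ξ - ξ₁‖ * 1 := mul_le_mul_of_nonneg_left a2 hd
      have a6 := (norm_pr_le ι' (S.nor ξ (s l))).2.1
      have a7 : ‖vt ι' (s l)‖ ≤ ‖ξ - ξ₁‖ / 100 + ‖S.nor ξ (s l)‖ := by
        have := norm_add_le (vt ι' (S.La ξ (S.al ξ (s l)))) (vt ι' (S.nor ξ (s l)))
        rw [← a3] at this
        linarith
      have a8 := pow_le_pow_left₀ (norm_nonneg _) a7 2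
      nlinarith only [a8, sq_nonneg (‖ξ - ξ₁‖ / 100 - ‖S.nor ξ (s l)‖), sq_nonneg ‖ξ - ξ₁‖]
    calc tlt ι' s ≤ ∑ l, (2 * ‖S.nor ξ (s l)‖ ^ 2 + ‖ξ - ξ₁‖ ^ 2) :=
          Finset.sum_le_sum fun l _ => hb l
      _ = _ := by
          rw [Finset.sum_add_distrib, ← Finset.mul_sum, Ref.tilt]
          simp

theorem FrameA_psi_sub (x x' : E m) :
    S.Psi ξ₁ ι' x - S.Psi ξ₁ ι' x' = pr ι' (S.F x - S.F x') := by
  rw [Psi, Psi, ← map_sub, sub_sub_sub_cancel_right]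

theorem FrameA_psi_inj (h : S.Tan ξ₁ ι') : Function.Injective (S.Psi ξ₁ ι') := by
  intro x x' hx
  have h1 := FrameA_lower h x x'
  rw [← FrameA_psi_sub (ξ₁ := ξ₁), hx, sub_self, norm_zero] at h1
  have h2 : ‖x - x'‖ ≤ 0 := by linarith only [h1]
  exact sub_eq_zero.1 (norm_le_zero_iff.1 h2)

theorem FrameA_psi_surj (h : S.Tan ξ₁ ι') : Function.Surjective (S.Psi ξ₁ ι') := by
  have ha : ApproximatesLinearOn (fun ξ => S.AA ξ₁ ι' (S.Psi ξ₁ ι' ξ))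
      ((ContinuousLinearEquiv.refl ℝ (E m) : E m ≃L[ℝ] E m) : E m →L[ℝ] E m) univ (1 / 50) := by
    intro x _ x' _
    have h1 := (FrameA_A_psi h x x').trans (S.FrameA_approx ξ₁ x x')
    rw [← FrameA_psi_sub (ξ₁ := ξ₁), map_sub] at h1
    have e : ((1 / 50 : NNReal) : ℝ) * ‖x - x'‖ = ‖x - x'‖ / 50 := by
      push_cast
      ring
    rw [e]
    exact h1
  have hs : Function.Surjective fun ξ => S.AA ξ₁ ι' (S.Psi ξ₁ ι' ξ) := by
    refine ha.surjective ?_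
    rcases subsingleton_or_nontrivial (E m) with h0 | h0
    · exact Or.inl h0
    · right
      have e : ‖((ContinuousLinearEquiv.refl ℝ (E m)).symm : E m →L[ℝ] E m)‖₊ = 1 :=
        ContinuousLinearMap.nnnorm_id
      rw [e, inv_one, ← NNReal.coe_lt_coe]
      push_cast
      norm_num
  intro X
  obtain ⟨ξ, hξ⟩ := hs (S.AA ξ₁ ι' X)
  exact ⟨ξ, FrameA_A_inj h hξ⟩

/-- The map `ξ ↦ ξ₁ + AA (Psi ξ)` differs from the identity by a map with Lipschitz constant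
`1 / 50` (`ApproximatesLinearOn`), so `Psi` is a bijection; then
`integral_image_eq_integral_abs_det_fderiv_smul`. -/
theorem Tan.change (h : S.Tan ξ₁ ι') (ω : E m → ℝ) :
    ∫ X, ω X = ∫ ξ, ω (S.Psi ξ₁ ι' ξ) * vol fun j => pr ι' (S.La ξ (ev j)) := by
  have hD : ∀ ξ ∈ (univ : Set (E m)),
      HasFDerivWithinAt (S.Psi ξ₁ ι') (pr ι' ∘L S.La ξ) univ ξ := fun ξ _ =>
    ((pr ι').hasFDerivAt.comp ξ ((S.F_calc ξ).1.sub_const (S.F ξ₁))).hasFDerivWithinAt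
  have h1 := integral_image_eq_integral_abs_det_fderiv_smul volume MeasurableSet.univ hD
    (FrameA_psi_inj h).injOn ω
  rw [image_univ, (FrameA_psi_surj h).range_eq, Measure.restrict_univ] at h1
  rw [h1]
  refine integral_congr_ae (Eventually.of_forall fun ξ => ?_)
  have e := FrameA_vol (pr ι' ∘L S.La ξ)
  simp only [ContinuousLinearMap.comp_apply] at e
  simp only [smul_eq_mul]
  rw [e, mul_comm]

end Ref

/-- Take `ι''` tangent at `ξ`; `vol_pr` for the frame `ι'' (ev j) = La ξ (AA (ev j))`, `vol_map`. -/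
theorem Ref.jac_psi (m : ℕ) : ∃ C : ℝ, 1 ≤ C ∧ ∀ {N : ℕ} (S : Ref m N) (ι' : E m →ₗᵢ[ℝ] E N)
    (ξ : E m), |sgW S.w ξ * (1 - S.tl0 ι' ξ / 2) - vol fun j => pr ι' (S.La ξ (ev j))| ≤
      C * S.tl0 ι' ξ ^ 2 := by
  obtain ⟨C, hC, hv⟩ := vol_pr m
  have h2 : (1 : ℝ) ≤ 2 ^ m := one_le_pow₀ (by norm_num)
  refine ⟨2 ^ m * C, one_le_mul_of_one_le_of_one_le h2 hC, fun {N} S ι' ξ => ?_⟩
  obtain ⟨ι'', h''⟩ := S.exists_tan ξ
  have h1 := hv ι' _ (FrameA_orth ι'')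
  rw [← Ref.FrameA_tl0 h''] at h1
  have e1 := FrameA_vol (pr ι' ∘L S.La ξ)
  simp only [ContinuousLinearMap.comp_apply] at e1
  have e2 := vol_map (pr ι' ∘L S.La ξ) fun j => S.AA ξ ι'' (ev j)
  simp only [ContinuousLinearMap.comp_apply, Ref.FrameA_LA h''] at e2
  rw [FrameA_vol, ← e1] at e2
  have e3 := Ref.FrameA_det h''
  obtain ⟨-, s1, s2⟩ := sgW_bd S.w ξ
  have s3 := s2 ((S.b1 ξ).trans (by norm_num))
  have e4 : (vol fun j => pr ι' (S.La ξ (ev j))) = sgW S.w ξ * vol fun l => pr ι' (ι'' (ev l)) := by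
    rw [e2, mul_comm (sgW S.w ξ), mul_assoc, e3, mul_one]
  rw [e4, ← mul_sub, abs_mul, abs_of_nonneg (by linarith : 0 ≤ sgW S.w ξ), mul_assoc]
  exact mul_le_mul s3 h1 (abs_nonneg _) (by positivity)

/-- two tangent frames at nearby points -/
theorem Ref.Tan.cmp {S : Ref m N} {ξ₁ ξ₂ : E m} {ι₁ ι₂ : E m →ₗᵢ[ℝ] E N} (h₁ : S.Tan ξ₁ ι₁)
    (h₂ : S.Tan ξ₂ ι₂) (v : E N) : ‖vt ι₁ v - vt ι₂ v‖ ≤ ‖ξ₁ - ξ₂‖ * ‖v‖ / 20 ∧
    |‖pr ι₁ v‖ ^ 2 - ‖pr ι₂ v‖ ^ 2| ≤ ‖ξ₁ - ξ₂‖ * ‖v‖ ^ 2 / 10 := by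
  have h1 : ‖vt ι₁ v - vt ι₂ v‖ ≤ ‖ξ₁ - ξ₂‖ * ‖v‖ / 20 := by
    rw [Ref.FrameA_vt_nor h₁, Ref.FrameA_vt_nor h₂]
    exact S.nor_lip ξ₁ ξ₂ v
  refine ⟨h1, ?_⟩
  have e : ‖pr ι₁ v‖ ^ 2 - ‖pr ι₂ v‖ ^ 2 =
      -((‖vt ι₁ v‖ - ‖vt ι₂ v‖) * (‖vt ι₁ v‖ + ‖vt ι₂ v‖)) := by
    have a1 := norm_sq_split ι₁ v
    have a2 := norm_sq_split ι₂ v
    linarith only [a1, a2]
  have a3 := (abs_norm_sub_norm_le (vt ι₁ v) (vt ι₂ v)).trans h1
  have a4 := (norm_pr_le ι₁ v).2.1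
  have a5 := (norm_pr_le ι₂ v).2.1
  rw [e, abs_neg, abs_mul, abs_of_nonneg (by positivity : 0 ≤ ‖vt ι₁ v‖ + ‖vt ι₂ v‖)]
  calc _ ≤ ‖ξ₁ - ξ₂‖ * ‖v‖ / 20 * (2 * ‖v‖) :=
        mul_le_mul a3 (by linarith) (by positivity) (by positivity)
    _ = _ := by ring

end Pool.Agent.MP_f6c0e6_an.Gen

end
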