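import Pool.Agent.MP_f6c0e6_an.All.Stat
import Pool.Agent.MP_f6c0e6_an.All.Calc
import Pool.Agent.MP_f6c0e6_an.All.Basic

section

/-! Convolution and integration by parts. -/

set_option autoImplicit false

open MeasureTheory Filter Topology Set Metric
open scoped ENNReal RealInnerProductSpace

namespace Pool.Agent.MP_f6c0e6_an.Gen

variable {m N : ℕ}

section aux

variable {Ω F G H : Type} [MeasurableSpace Ω] [NormedAddCommGroup F] [NormedSpace ℝ F]
  [NormedAddCommGroup G] [NormedSpace ℝ G] [NormedAddCommGroup H]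
  [NormedSpace ℝ H] {μ : Measure Ω} {ζ : Ω → E m} {w : Ω → F}

theorem Conv_meas (B : G →L[ℝ] F →L[ℝ] H) (hζ : Measurable ζ) (hw : Integrable w μ) {k : E m → G}
    (hk : Continuous k) (ξ : E m) : AEStronglyMeasurable (fun y => B (k (ζ y - ξ)) (w y)) μ :=
  B.aestronglyMeasurable_comp₂
    (hk.comp_aestronglyMeasurable (hζ.sub_const ξ).aestronglyMeasurable) hw.1

omit [MeasurableSpace Ω] in
theorem Conv_bd (B : G →L[ℝ] F →L[ℝ] H) {k : E m → G} {a : ℝ} (hb : ∀ x, ‖k x‖ ≤ a) (ξ : E m)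
    (y : Ω) : ‖B (k (ζ y - ξ)) (w y)‖ ≤ ‖B‖ * a * ‖w y‖ :=
  (B.le_opNorm₂ _ _).trans (mul_le_mul_of_nonneg_right
    (mul_le_mul_of_nonneg_left (hb _) B.opNorm_nonneg) (norm_nonneg _))

theorem Conv_int (B : G →L[ℝ] F →L[ℝ] H) (hζ : Measurable ζ) (hw : Integrable w μ) {k : E m → G}
    (hk : Continuous k) {a : ℝ} (hb : ∀ x, ‖k x‖ ≤ a) (ξ : E m) :
    Integrable (fun y => B (k (ζ y - ξ)) (w y)) μ :=
  (hw.norm.const_mul (‖B‖ * a)).mono' (Conv_meas B hζ hw hk ξ)
    (Eventually.of_forall (Conv_bd B hb ξ))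

theorem Conv_cont (B : G →L[ℝ] F →L[ℝ] H) (hζ : Measurable ζ) (hw : Integrable w μ) {k : E m → G}
    (hk : Continuous k) {a : ℝ} (hb : ∀ x, ‖k x‖ ≤ a) :
    Continuous fun ξ => ∫ y, B (k (ζ y - ξ)) (w y) ∂μ :=
  continuous_of_dominated (Conv_meas B hζ hw hk) (fun ξ => Eventually.of_forall (Conv_bd B hb ξ))
    (hw.norm.const_mul (‖B‖ * a)) (Eventually.of_forall fun y => by fun_prop)

theorem Conv_der (B : G →L[ℝ] F →L[ℝ] H) (hζ : Measurable ζ) (hw : Integrable w μ) {k : E m → G}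
    {k' : E m → E m →L[ℝ] G} (hk : ∀ x, HasFDerivAt k (-k' x) x) (hk' : Continuous k') {a b : ℝ}
    (ha : ∀ x, ‖k x‖ ≤ a) (hb : ∀ x, ‖k' x‖ ≤ b) (ξ : E m) :
    HasFDerivAt (fun ξ => ∫ y, B (k (ζ y - ξ)) (w y) ∂μ)
      (∫ y, B.precompL (E m) (k' (ζ y - ξ)) (w y) ∂μ) ξ := by
  have c : Continuous k := continuous_iff_continuousAt.2 fun x => (hk x).continuousAt
  refine hasFDerivAt_integral_of_dominated_of_fderiv_le (s := univ)
    (F' := fun ξ y => B.precompL (E m) (k' (ζ y - ξ)) (w y)) univ_mem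
    (Eventually.of_forall (Conv_meas B hζ hw c)) (Conv_int B hζ hw c ha ξ)
    (Conv_meas _ hζ hw hk' ξ) (Eventually.of_forall fun y x _ => Conv_bd _ hb x y)
    (hw.norm.const_mul _) (Eventually.of_forall fun y x _ => ?_)
  have h1 : HasFDerivAt (fun x => ζ y - x) (-ContinuousLinearMap.id ℝ (E m)) x :=
    (hasFDerivAt_id x).const_sub (ζ y)
  have h2 := (B.flip (w y)).hasFDerivAt.comp x ((hk (ζ y - x)).comp x h1)
  refine h2.congr_fderiv ?_
  ext v
  simp

theorem Conv_one [CompleteSpace F] (μ : Measure Ω) (hζ : Measurable ζ)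
    (hw : Integrable w μ) {k : E m → ℝ} (hk : ContDiff ℝ 1 k) {a0 a1 : ℝ}
    (h0 : ∀ x, ‖k x‖ ≤ a0) (h1 : ∀ x, ‖fderiv ℝ k x‖ ≤ a1) :
    ContDiff ℝ 1 (fun ξ => ∫ y, k (ζ y - ξ) • w y ∂μ) ∧
    ∀ ξ v, fderiv ℝ (fun ξ => ∫ y, k (ζ y - ξ) • w y ∂μ) ξ v =
      -∫ y, fderiv ℝ k (ζ y - ξ) v • w y ∂μ := by
  set B : ℝ →L[ℝ] F →L[ℝ] F := ContinuousLinearMap.lsmul ℝ ℝ with hB
  have c1 : Continuous fun x => -fderiv ℝ k x := (hk.continuous_fderiv one_ne_zero).neg
  have n1 : ∀ x, ‖-fderiv ℝ k x‖ ≤ a1 := fun x => by rw [norm_neg]; exact h1 x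
  have d1 := Conv_der B hζ hw (k := k) (k' := fun x => -fderiv ℝ k x)
    (fun x => by rw [neg_neg]; exact (hk.differentiable one_ne_zero x).hasFDerivAt) c1 h0 n1
  have i1 := Conv_int (B.precompL (E m)) hζ hw (k := fun x => -fderiv ℝ k x) c1 n1
  have e0 : (fun ξ => ∫ y, k (ζ y - ξ) • w y ∂μ) = fun ξ => ∫ y, B (k (ζ y - ξ)) (w y) ∂μ := rfl
  have e1 := funext fun ξ => (d1 ξ).fderiv
  rw [e0]
  refine ⟨?_, fun ξ v => ?_⟩
  · rw [contDiff_one_iff_fderiv]
    refine ⟨fun ξ => (d1 ξ).differentiableAt, ?_⟩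
    rw [show (fderiv ℝ fun ξ => ∫ y, B (k (ζ y - ξ)) (w y) ∂μ) = _ from e1]
    exact Conv_cont (G := E m →L[ℝ] ℝ) (H := E m →L[ℝ] F) _ hζ hw c1 n1
  · rw [(d1 ξ).fderiv, ContinuousLinearMap.integral_apply (i1 ξ), ← integral_neg]
    exact integral_congr_ae (Eventually.of_forall fun y => by simp [hB])

theorem Conv_fd2 {g : E m → G} (hg : ContDiff ℝ 2 g) (v : E m) :
    ContDiff ℝ 1 (fun x => fderiv ℝ g x v) ∧
      ∀ x u, fderiv ℝ (fun x => fderiv ℝ g x v) x u = fderiv ℝ (fderiv ℝ g) x u v := by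
  have h : ContDiff ℝ 1 (fderiv ℝ g) := hg.fderiv_right (m := 1) le_rfl
  refine ⟨h.clm_apply contDiff_const, fun x u => ?_⟩
  rw [fderiv_clm_apply (h.differentiable one_ne_zero x) (differentiableAt_const v)]
  simp

theorem Conv_cf {g : E m → G} (hg : ContDiff ℝ 1 g) (v : E m) :
    Continuous fun x => fderiv ℝ g x v :=
  (hg.continuous_fderiv one_ne_zero).clm_apply continuous_const

theorem Conv_ismul {k : E m → ℝ} {g : E m → G} (hk : Continuous k) (hc : HasCompactSupport k)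
    (hg : Continuous g) : Integrable fun x => k x • g x :=
  (hk.smul hg).integrable_of_hasCompactSupport hc.smul_right

omit [NormedSpace ℝ G] in
theorem Conv_shift {g : E m → G} (hc : HasCompactSupport g) (ξ : E m) :
    HasCompactSupport fun x => g (x - ξ) :=
  hc.comp_homeomorph (Homeomorph.subRight ξ)

end aux

/-- differentiation under the integral sign -/
theorem conv_meas {Ω F : Type} [MeasurableSpace Ω] [NormedAddCommGroup F] [NormedSpace ℝ F]
    [CompleteSpace F] (μ : Measure Ω) {ζ : Ω → E m} (hζ : Measurable ζ) {w : Ω → F}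
    (hw : Integrable w μ) {k : E m → ℝ} (hk : ContDiff ℝ 2 k) {a0 a1 a2 : ℝ}
    (hb : Bd2 k a0 a1 a2) :
    ContDiff ℝ 2 (fun ξ => ∫ y, k (ζ y - ξ) • w y ∂μ) ∧
    (∀ ξ v, fderiv ℝ (fun ξ => ∫ y, k (ζ y - ξ) • w y ∂μ) ξ v =
      -∫ y, fderiv ℝ k (ζ y - ξ) v • w y ∂μ) ∧
    (∀ ξ u v, fderiv ℝ (fderiv ℝ fun ξ => ∫ y, k (ζ y - ξ) • w y ∂μ) ξ u v =
      ∫ y, fderiv ℝ (fderiv ℝ k) (ζ y - ξ) u v • w y ∂μ) ∧
    ∀ ξ, lap (fun ξ => ∫ y, k (ζ y - ξ) • w y ∂μ) ξ = ∫ y, lap k (ζ y - ξ) • w y ∂μ := by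
  set B : ℝ →L[ℝ] F →L[ℝ] F := ContinuousLinearMap.lsmul ℝ ℝ with hB
  have c1 : ContDiff ℝ 1 (fderiv ℝ k) := hk.fderiv_right (m := 1) le_rfl
  have c2 : Continuous (fderiv ℝ (fderiv ℝ k)) := c1.continuous_fderiv one_ne_zero
  have n1 : ∀ x, ‖-fderiv ℝ k x‖ ≤ a1 := fun x => by rw [norm_neg]; exact hb.b1 x
  have d1 := Conv_der B hζ hw (k := k) (k' := fun x => -fderiv ℝ k x)
    (fun x => by rw [neg_neg]; exact (hk.differentiable two_ne_zero x).hasFDerivAt)
    c1.continuous.neg hb.b0 n1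
  have d2 := Conv_der (B.precompL (E m)) hζ hw (k := fun x => -fderiv ℝ k x)
    (k' := fderiv ℝ (fderiv ℝ k))
    (fun x => (c1.differentiable one_ne_zero x).hasFDerivAt.neg) c2 n1 hb.b2
  have i2 := Conv_int (G := E m →L[ℝ] E m →L[ℝ] ℝ) (H := E m →L[ℝ] E m →L[ℝ] F)
    ((B.precompL (E m)).precompL (E m)) hζ hw c2 hb.b2
  have e0 : (fun ξ => ∫ y, k (ζ y - ξ) • w y ∂μ) = fun ξ => ∫ y, B (k (ζ y - ξ)) (w y) ∂μ := rfl
  have e1 := funext fun ξ => (d1 ξ).fderiv
  have e2 := funext fun ξ => (d2 ξ).fderiv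
  have f2 : ∀ ξ u v, fderiv ℝ (fderiv ℝ fun ξ => ∫ y, B (k (ζ y - ξ)) (w y) ∂μ) ξ u v =
      ∫ y, fderiv ℝ (fderiv ℝ k) (ζ y - ξ) u v • w y ∂μ := fun ξ u v => by
    rw [show (fderiv ℝ fun ξ => ∫ y, B (k (ζ y - ξ)) (w y) ∂μ) = _ from e1, (d2 ξ).fderiv,
      ContinuousLinearMap.integral_apply (i2 ξ),
      ContinuousLinearMap.integral_apply ((i2 ξ).apply_continuousLinearMap u)]
    rfl
  have cd : ContDiff ℝ 2 fun ξ => ∫ y, B (k (ζ y - ξ)) (w y) ∂μ := by
    rw [show (2 : WithTop ℕ∞) = 1 + 1 from rfl, contDiff_succ_iff_fderiv]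
    refine ⟨fun ξ => (d1 ξ).differentiableAt, by simp, ?_⟩
    rw [show (fderiv ℝ fun ξ => ∫ y, B (k (ζ y - ξ)) (w y) ∂μ) = _ from e1, contDiff_one_iff_fderiv]
    refine ⟨fun ξ => (d2 ξ).differentiableAt, ?_⟩
    rw [show (fderiv ℝ fun ξ => ∫ y, B.precompL (E m) (-fderiv ℝ k (ζ y - ξ)) (w y) ∂μ) = _
      from e2]
    exact Conv_cont (G := E m →L[ℝ] E m →L[ℝ] ℝ) (H := E m →L[ℝ] E m →L[ℝ] F) _ hζ hw c2 hb.b2
  refine ⟨cd, (Conv_one μ hζ hw (hk.of_le one_le_two) hb.b0 hb.b1).2, f2, fun ξ => ?_⟩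
  have j : ∀ u, Integrable (fun y => fderiv ℝ (fderiv ℝ k) (ζ y - ξ) u u • w y) μ := fun u =>
    ((i2 ξ).apply_continuousLinearMap u).apply_continuousLinearMap u
  rw [e0, lap]
  simp only [f2]
  rw [← integral_finsetSum _ fun i _ => j (ev i)]
  simp only [lap, Finset.sum_smul]

/-- the same for a kernel of class `C¹` -/
theorem conv_meas1 {Ω F : Type} [MeasurableSpace Ω] [NormedAddCommGroup F] [NormedSpace ℝ F]
    [CompleteSpace F] (μ : Measure Ω) {ζ : Ω → E m} (hζ : Measurable ζ) {w : Ω → F}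
    (hw : Integrable w μ) {k : E m → ℝ} (hk : ContDiff ℝ 1 k) {a0 a1 : ℝ}
    (h0 : ∀ x, |k x| ≤ a0) (h1 : ∀ x, ‖fderiv ℝ k x‖ ≤ a1) :
    ContDiff ℝ 1 (fun ξ => ∫ y, k (ζ y - ξ) • w y ∂μ) ∧
    ∀ ξ v, fderiv ℝ (fun ξ => ∫ y, k (ζ y - ξ) • w y ∂μ) ξ v =
      -∫ y, fderiv ℝ k (ζ y - ξ) v • w y ∂μ := by
  exact Conv_one μ hζ hw hk h0 h1

/-- a function of class `C²` with compact support has bounded derivatives -/
theorem exists_Bd2 {F : Type} [NormedAddCommGroup F] [NormedSpace ℝ F] {g : E m → F}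
    (hg : ContDiff ℝ 2 g) (hc : HasCompactSupport g) : ∃ a : ℝ, Bd2 g a a a := by
  have c1 : ContDiff ℝ 1 (fderiv ℝ g) := hg.fderiv_right (m := 1) le_rfl
  obtain ⟨a, ha⟩ := hg.continuous.bounded_above_of_compact_support hc
  obtain ⟨b, hb⟩ := c1.continuous.bounded_above_of_compact_support (hc.fderiv ℝ)
  obtain ⟨c, hc⟩ := (c1.continuous_fderiv one_ne_zero).bounded_above_of_compact_support
    ((hc.fderiv ℝ).fderiv ℝ)
  exact ⟨max a (max b c), fun x => (ha x).trans (le_max_left _ _),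
    fun x => (hb x).trans ((le_max_left _ _).trans (le_max_right _ _)),
    fun x => (hc x).trans ((le_max_right _ _).trans (le_max_right _ _))⟩

theorem integral_fderiv_zero {F : Type} [NormedAddCommGroup F] [NormedSpace ℝ F] [CompleteSpace F]
    {g : E m → F} (hg : ContDiff ℝ 1 g) (hc : HasCompactSupport g) (v : E m) :
    ∫ x, fderiv ℝ g x v = 0 := by
  have h1 : Integrable (fun x => fderiv ℝ g x v) :=
    (Conv_cf hg v).integrable_of_hasCompactSupport (hc.fderiv_apply ℝ v)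
  have := integral_smul_fderiv_eq_neg_fderiv_smul_of_integrable (μ := (volume : Measure (E m)))
    (f := fun _ : E m => (1 : ℝ)) (g := g) (v := v) (by simp) (by simpa using h1)
    (by simpa using hg.continuous.integrable_of_hasCompactSupport hc)
    (fun _ _ => differentiableAt_const _) fun x _ => hg.differentiable one_ne_zero x
  simpa using this

theorem integral_dv {V : E m → E m} (hV : ContDiff ℝ 1 V) (hc : HasCompactSupport V) :
    ∫ x, dv V x = 0 := by
  have h1 : ∀ v, Integrable (fun x => fderiv ℝ V x v) := fun v =>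
    (Conv_cf hV v).integrable_of_hasCompactSupport (hc.fderiv_apply ℝ v)
  simp only [dv]
  rw [integral_finsetSum _ fun i _ => (h1 (ev i)).const_inner (ev i)]
  refine Finset.sum_eq_zero fun i _ => ?_
  rw [integral_inner (h1 _), integral_fderiv_zero hV hc, inner_zero_right]

theorem dv_smul {f : E m → ℝ} {V : E m → E m} {x : E m} (hf : DifferentiableAt ℝ f x)
    (hV : DifferentiableAt ℝ V x) :
    dv (fun y => f y • V y) x = f x * dv V x + fderiv ℝ f x (V x) := by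
  have h : fderiv ℝ f x (V x) = ∑ i, fderiv ℝ f x (ev i) * ⟪ev i, V x⟫ := by
    conv_lhs => rw [← sum_ev (V x), map_sum]
    simp only [map_smul, smul_eq_mul, mul_comm]
  simp only [dv, fderiv_fun_smul hf hV, add_apply, smul_apply,
    ContinuousLinearMap.smulRight_apply, inner_add_right, real_inner_smul_right,
    Finset.sum_add_distrib, Finset.mul_sum, h]

theorem dv_add {V W : E m → E m} {x : E m} (hV : DifferentiableAt ℝ V x)
    (hW : DifferentiableAt ℝ W x) : dv (fun y => V y + W y) x = dv V x + dv W x := by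
  simp only [dv, fderiv_fun_add hV hW, add_apply, inner_add_right, Finset.sum_add_distrib]

theorem dv_id (c x : E m) : dv (fun y => y - c) x = m := by
  simp [dv, fderiv_sub_const, norm_ev]

theorem abs_dv_le (V : E m → E m) (x : E m) : |dv V x| ≤ m * ‖fderiv ℝ V x‖ := by
  exact abs_sum_ev_le _

theorem continuous_dv {V : E m → E m} (hV : ContDiff ℝ 1 V) : Continuous (dv V) := by
  exact continuous_finsetSum _ fun i _ => continuous_const.inner (Conv_cf hV (ev i))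

theorem dv_gradient {f : E m → ℝ} (hf : ContDiff ℝ 2 f) (x : E m) :
    dv (gradient f) x = lap f x := by
  have e : gradient f = fun y => ∑ j, fderiv ℝ f y (ev j) • ev j := funext fun y => by
    rw [← sum_ev (gradient f y)]
    refine Finset.sum_congr rfl fun j _ => ?_
    rw [real_inner_comm, gradient, InnerProductSpace.toDual_symm_apply]
  have d : ∀ j, DifferentiableAt ℝ (fun y => fderiv ℝ f y (ev j)) x := fun j =>
    (Conv_fd2 hf (ev j)).1.differentiable one_ne_zero x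
  have h : HasFDerivAt (fun y => ∑ j, fderiv ℝ f y (ev j) • (ev j : E m))
      (∑ j, (fderiv ℝ (fun y => fderiv ℝ f y (ev j)) x).smulRight (ev j)) x :=
    HasFDerivAt.fun_sum fun j _ => (d j).hasFDerivAt.smul_const _
  rw [dv, lap, e, h.fderiv]
  refine Finset.sum_congr rfl fun i _ => ?_
  simp only [sum_apply, ContinuousLinearMap.smulRight_apply,
    (Conv_fd2 hf _).2, inner_sum, real_inner_smul_right]
  conv_rhs => rw [← sum_ev (ev i : E m), map_sum]
  refine Finset.sum_congr rfl fun j _ => ?_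
  rw [map_smul, smul_eq_mul, mul_comm, real_inner_comm, sum_ev]

theorem continuous_lap {F : Type} [NormedAddCommGroup F] [NormedSpace ℝ F] {g : E m → F}
    (hg : ContDiff ℝ 2 g) : Continuous (lap g) := by
  have c : Continuous (fderiv ℝ (fderiv ℝ g)) :=
    (hg.fderiv_right (m := 1) le_rfl).continuous_fderiv one_ne_zero
  exact continuous_finsetSum _ fun i _ => (c.clm_apply continuous_const).clm_apply continuous_const

theorem norm_lap_le {F : Type} [NormedAddCommGroup F] [NormedSpace ℝ F] (g : E m → F) (x : E m) :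
    ‖lap g x‖ ≤ m * ‖fderiv ℝ (fderiv ℝ g) x‖ := by
  refine (norm_sum_le _ _).trans ((Finset.sum_le_card_nsmul _ _ ‖fderiv ℝ (fderiv ℝ g) x‖
    fun i _ => ?_).trans_eq (by simp))
  simpa [norm_ev] using (fderiv ℝ (fderiv ℝ g) x).le_opNorm₂ (ev i) (ev i)

/-- integration by parts, first order -/
theorem integral_parts {F : Type} [NormedAddCommGroup F] [NormedSpace ℝ F] [CompleteSpace F]
    {k : E m → ℝ} {g : E m → F} (hk : ContDiff ℝ 1 k) (hc : HasCompactSupport k)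
    (hg : ContDiff ℝ 1 g) (v : E m) :
    ∫ x, fderiv ℝ k x v • g x = -∫ x, k x • fderiv ℝ g x v := by
  have i1 := Conv_ismul (Conv_cf hk v) (hc.fderiv_apply ℝ v) hg.continuous
  have i2 := Conv_ismul hk.continuous hc (Conv_cf hg v)
  have h := integral_fderiv_zero (g := fun x => k x • g x) (hk.smul hg) hc.smul_right v
  simp only [fderiv_fun_smul (hk.differentiable one_ne_zero _) (hg.differentiable one_ne_zero _),
    add_apply, smul_apply, ContinuousLinearMap.smulRight_apply] at h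
  rw [integral_add i2 i1] at h
  exact eq_neg_of_add_eq_zero_right h

/-- Green's identity -/
theorem integral_green {F : Type} [NormedAddCommGroup F] [NormedSpace ℝ F] [CompleteSpace F]
    {k : E m → ℝ} {g : E m → F} (hk : ContDiff ℝ 2 k) (hc : HasCompactSupport k)
    (hg : ContDiff ℝ 2 g) : ∫ x, lap k x • g x = ∫ x, k x • lap g x := by
  have i1 : ∀ v, Integrable fun x => fderiv ℝ (fderiv ℝ k) x v v • g x := fun v => by
    simpa only [(Conv_fd2 hk v).2] using Conv_ismul (Conv_cf (Conv_fd2 hk v).1 v)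
      ((hc.fderiv_apply ℝ v).fderiv_apply ℝ v) hg.continuous
  have i2 : ∀ v, Integrable fun x => k x • fderiv ℝ (fderiv ℝ g) x v v := fun v => by
    simpa only [(Conv_fd2 hg v).2] using Conv_ismul hk.continuous hc (Conv_cf (Conv_fd2 hg v).1 v)
  simp only [lap, Finset.sum_smul, Finset.smul_sum]
  rw [integral_finsetSum _ fun i _ => i1 (ev i), integral_finsetSum _ fun i _ => i2 (ev i)]
  refine Finset.sum_congr rfl fun i _ => ?_
  have h1 := integral_parts (Conv_fd2 hk (ev i)).1 (hc.fderiv_apply ℝ (ev i))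
    (hg.of_le one_le_two) (ev i)
  have h2 := integral_parts (hk.of_le one_le_two) hc (Conv_fd2 hg (ev i)).1 (ev i)
  simp only [(Conv_fd2 hk _).2, (Conv_fd2 hg _).2] at h1 h2
  rw [h1, h2, neg_neg]

theorem Conv_rho {r : ℝ} (hr : 0 < r) : HasCompactSupport (rho r : E m → ℝ) :=
  HasCompactSupport.intro (isCompact_closedBall 0 r) fun _ hx =>
    rho_eq_zero hr (not_le.1 (mt mem_closedBall_zero_iff.2 hx)).le

/-- the representation by the truncated potential -/
theorem green_Gm {F : Type} [NormedAddCommGroup F] [NormedSpace ℝ F] [CompleteSpace F]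
    {g : E m → F} (hg : ContDiff ℝ 2 g) {a b : ℝ} (ha : 0 < a) (hab : a ≤ b) (ξ : E m) :
    (∫ x, rho b (x - ξ) • g x) - ∫ x, rho a (x - ξ) • g x = ∫ x, Gm a b (x - ξ) • lap g x := by
  have hb : 0 < b := ha.trans_le hab
  have c1 : ContDiff ℝ 2 (Gm a b : E m → ℝ) := (contDiff_Gm ha hab).1.of_le (by norm_num)
  have c2 : HasCompactSupport (Gm a b : E m → ℝ) :=
    HasCompactSupport.intro (isCompact_closedBall 0 b) fun x hx =>
      (Gm_eq_zero ha hab (not_le.1 (mt mem_closedBall_zero_iff.2 hx)).le).1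
  have e : ∀ x, lap (fun x => Gm a b (x - ξ)) x = rho b (x - ξ) - rho a (x - ξ) := fun x => by
    have e1 : fderiv ℝ (fun x => Gm a b (x - ξ)) = fun x => fderiv ℝ (Gm a b) (x - ξ) :=
      funext fun x => fderiv_comp_sub ξ
    rw [← lap_Gm ha hab, lap, lap, e1, fderiv_comp_sub]
  have i : ∀ r, 0 < r → Integrable fun x => rho r (x - ξ) • g x := fun r hr =>
    Conv_ismul ((contDiff_rho r).continuous.comp (continuous_id.sub continuous_const))
      (Conv_shift (Conv_rho hr) ξ) hg.continuous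
  rw [← integral_green (k := fun x => Gm a b (x - ξ)) (c1.comp (contDiff_id.sub contDiff_const))
    (Conv_shift c2 ξ) hg, ← integral_sub (i b hb) (i a ha)]
  simp only [e, sub_smul]

/-- the integral of a Jacobian determinant vanishes -/
theorem Conv_swap {f g : E m → ℝ} (hf : ContDiff ℝ 1 f) (cf : HasCompactSupport f)
    (hg : ContDiff ℝ 1 g) (cg : HasCompactSupport g) (u v : E m) :
    ∫ x, fderiv ℝ g x v * fderiv ℝ f x u = ∫ x, fderiv ℝ f x v * fderiv ℝ g x u := by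
  have key : ∀ {f g : E m → ℝ}, ContDiff ℝ 1 f → HasCompactSupport f → ContDiff ℝ 1 g →
      HasCompactSupport g → ∃ L : E m →L[ℝ] ℝ,
        HasFDerivAt (fun ξ => ∫ x, g (x - ξ) * fderiv ℝ f x u) L 0 ∧
          L v = -∫ x, fderiv ℝ g x v * fderiv ℝ f x u := by
    intro f g hf cf hg cg
    obtain ⟨a, ha⟩ := hg.continuous.bounded_above_of_compact_support cg
    obtain ⟨b, hb⟩ := (hg.continuous_fderiv one_ne_zero).bounded_above_of_compact_support
      (cg.fderiv ℝ)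
    obtain ⟨h1, h2⟩ := Conv_one (volume : Measure (E m)) measurable_id
      ((Conv_cf hf u).integrable_of_hasCompactSupport (cf.fderiv_apply ℝ u)) hg ha hb
    exact ⟨_, (h1.differentiable one_ne_zero 0).hasFDerivAt, by simpa using h2 0 v⟩
  obtain ⟨L, l1, l2⟩ := key hf cf hg cg
  obtain ⟨M, m1, m2⟩ := key hg cg hf cf
  have e : (fun ξ => ∫ x, g (x - ξ) * fderiv ℝ f x u) =
      fun ξ => -∫ x, f (x - -ξ) * fderiv ℝ g x u := funext fun ξ => by
    have h := integral_parts (k := fun x => g (x - ξ)) (hg.comp (contDiff_id.sub contDiff_const))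
      (Conv_shift cg ξ) hf u
    simp only [fderiv_comp_sub, smul_eq_mul] at h
    rw [← integral_sub_right_eq_self (fun x => f (x - -ξ) * fderiv ℝ g x u) ξ,
      eq_neg_iff_add_eq_zero, add_comm, ← eq_neg_iff_add_eq_zero, ← h]
    simp only [sub_neg_eq_add, sub_add_cancel, mul_comm]
  have m3 : HasFDerivAt (fun ξ => ∫ x, f (x - ξ) * fderiv ℝ g x u) M (-0) := by rwa [neg_zero]
  have m4 := (m3.comp (0 : E m) (hasFDerivAt_id (0 : E m)).neg).neg
  rw [e] at l1
  have h := congrArg (fun T : E m →L[ℝ] ℝ => T v) (l1.unique m4)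
  simp only [neg_apply, ContinuousLinearMap.comp_apply,
    ContinuousLinearMap.id_apply, map_neg, neg_neg, l2, m2] at h
  exact neg_injective h

/-- the square integral of the Hessian is the square integral of the Laplacian: mollify, or use
the Fourier transform, or integrate by parts against `rho ε * u` and let `ε` tend to zero -/
theorem integral_sq_hess {u : E m → ℝ} (hu : ContDiff ℝ 2 u) (hc : HasCompactSupport u) :
    ∫ x, ∑ i, ∑ j, (fderiv ℝ (fderiv ℝ u) x (ev i) (ev j)) ^ 2 = ∫ x, (lap u x) ^ 2 := by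
  have c : ∀ a b : E m, Continuous fun x => fderiv ℝ (fderiv ℝ u) x a b := fun a b => by
    simpa only [(Conv_fd2 hu b).2] using Conv_cf (Conv_fd2 hu b).1 a
  have k : ∀ a b : E m, HasCompactSupport fun x => fderiv ℝ (fderiv ℝ u) x a b := fun a b => by
    simpa only [(Conv_fd2 hu b).2] using (hc.fderiv_apply ℝ b).fderiv_apply ℝ a
  have I : ∀ a b a' b' : E m, Integrable fun x =>
      fderiv ℝ (fderiv ℝ u) x a b * fderiv ℝ (fderiv ℝ u) x a' b' := fun a b a' b' =>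
    Conv_ismul (c a b) (k a b) (c a' b')
  simp only [lap, sq, Finset.sum_mul_sum]
  rw [integral_finsetSum _ fun i _ => integrable_finsetSum _ fun j _ => I _ _ _ _,
    integral_finsetSum _ fun i _ => integrable_finsetSum _ fun j _ => I _ _ _ _]
  refine Finset.sum_congr rfl fun i _ => ?_
  rw [integral_finsetSum _ fun j _ => I _ _ _ _, integral_finsetSum _ fun j _ => I _ _ _ _]
  refine Finset.sum_congr rfl fun j _ => ?_
  have h := Conv_swap (Conv_fd2 hu (ev i)).1 (hc.fderiv_apply ℝ (ev i)) (Conv_fd2 hu (ev j)).1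
    (hc.fderiv_apply ℝ (ev j)) (ev j) (ev i)
  simp only [(Conv_fd2 hu _).2] at h
  rw [← h]
  exact integral_congr_ae (Eventually.of_forall fun x => by
    beta_reduce
    rw [hess_symm hu x (ev j) (ev i)])

/-- Young's inequality in `L²` for a kernel of integral at most `a` -/
theorem young_L2 {k g : E m → ℝ} (hk : Continuous k) (hc : HasCompactSupport k) {a : ℝ}
    (ha : ∫ x, |k x| ≤ a) (hg : Measurable g) (hg2 : Integrable (fun x => g x ^ 2))
    (hg1 : Integrable g) :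
    Integrable (fun ξ => (∫ x, k (x - ξ) * g x) ^ 2) ∧
      ∫ ξ, (∫ x, k (x - ξ) * g x) ^ 2 ≤ a ^ 2 * ∫ x, g x ^ 2 := by
  obtain ⟨b, hb⟩ := hk.bounded_above_of_compact_support hc
  have ik : Integrable fun x => |k x| := (hk.integrable_of_hasCompactSupport hc).abs
  have a0 : 0 ≤ a := (integral_nonneg fun x => abs_nonneg _).trans ha
  have ct : Continuous fun ξ => ∫ x, k (x - ξ) * g x :=
    Conv_cont (ContinuousLinearMap.mul ℝ ℝ) measurable_id hg1 hk hb
  have e : (fun ξ => ∫ x, |k (x - ξ)| * g x ^ 2) = MeasureTheory.convolution (fun x => g x ^ 2)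
      (fun x => |k (-x)|) (ContinuousLinearMap.mul ℝ ℝ) volume := funext fun ξ => by
    simp only [MeasureTheory.convolution, ContinuousLinearMap.mul_apply', neg_sub, mul_comm]
  have iH : Integrable fun ξ => ∫ x, |k (x - ξ)| * g x ^ 2 :=
    e ▸ hg2.integrable_convolution _ ik.comp_neg
  have vH : ∫ ξ, ∫ x, |k (x - ξ)| * g x ^ 2 = (∫ x, g x ^ 2) * ∫ x, |k x| := by
    rw [e, integral_convolution _ hg2 ik.comp_neg, integral_neg_eq_self fun x => |k x|]
    rfl
  have cs : ∀ ξ, (∫ x, k (x - ξ) * g x) ^ 2 ≤ a * ∫ x, |k (x - ξ)| * g x ^ 2 := fun ξ => by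
    have hb' : ∀ x, ‖|k x|‖ ≤ b := fun x => by simpa using hb x
    have i0 : Integrable fun x => |k (x - ξ)| := ik.comp_sub_right ξ
    have i1 : Integrable fun x => |k (x - ξ)| * |g x| :=
      Conv_int (ContinuousLinearMap.mul ℝ ℝ) measurable_id hg1.abs hk.abs hb' ξ
    have i2 : Integrable fun x => |k (x - ξ)| * g x ^ 2 :=
      Conv_int (ContinuousLinearMap.mul ℝ ℝ) measurable_id hg2 hk.abs hb' ξ
    have d := discrim_le_zero (a := ∫ x, |k (x - ξ)|) (b := -2 * ∫ x, |k (x - ξ)| * |g x|)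
      (c := ∫ x, |k (x - ξ)| * g x ^ 2) fun t => by
        have h1 : 0 ≤ ∫ x, (|k (x - ξ)| * (t * t) + -2 * (|k (x - ξ)| * |g x|) * t +
            |k (x - ξ)| * g x ^ 2) := integral_nonneg fun x => by
          have h2 := mul_nonneg (abs_nonneg (k (x - ξ))) (sq_nonneg (t - |g x|))
          have h3 := sq_abs (g x)
          change 0 ≤ _
          rw [← h3]
          linarith only [h2]
        have j : Integrable fun x => |k (x - ξ)| * (t * t) + -2 * (|k (x - ξ)| * |g x|) * t :=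
          (i0.mul_const _).add ((i1.const_mul _).mul_const _)
        rwa [integral_add j i2,
          integral_add (i0.mul_const _) ((i1.const_mul _).mul_const _), integral_mul_const,
          integral_mul_const, integral_const_mul] at h1
    rw [discrim, integral_sub_right_eq_self (fun x => |k x|) ξ] at d
    have h1 : |∫ x, k (x - ξ) * g x| ≤ ∫ x, |k (x - ξ)| * |g x| := by
      simpa only [abs_mul] using abs_integral_le_integral_abs (f := fun x => k (x - ξ) * g x)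
    have h2 := pow_le_pow_left₀ (abs_nonneg _) h1 2
    have h3 : 0 ≤ ∫ x, |k (x - ξ)| * g x ^ 2 := integral_nonneg fun x => by positivity
    have h4 := mul_le_mul_of_nonneg_right ha h3
    rw [sq_abs] at h2
    linarith
  have i3 : Integrable fun ξ => (∫ x, k (x - ξ) * g x) ^ 2 :=
    (iH.const_mul a).mono' (ct.pow 2).aestronglyMeasurable (Eventually.of_forall fun ξ => by
      rw [Real.norm_of_nonneg (sq_nonneg _)]
      exact cs ξ)
  refine ⟨i3, (integral_mono i3 (iH.const_mul a) cs).trans ?_⟩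
  have h5 : 0 ≤ ∫ x, g x ^ 2 := integral_nonneg fun x => sq_nonneg _
  rw [integral_const_mul, vH]
  calc _ ≤ a * ((∫ x, g x ^ 2) * a) :=
        mul_le_mul_of_nonneg_left (mul_le_mul_of_nonneg_left ha h5) a0
    _ = _ := by ring

theorem Conv_avg {F : Type} [NormedAddCommGroup F] [NormedSpace ℝ F] {h : E m → F} {C r : ℝ}
    (hr : 0 < r) (hb : ∀ x, ‖x‖ < r → ‖h x‖ ≤ C) : ‖∫ x, rho r x • h x‖ ≤ C := by
  have one : ∫ x : E m, rho r x = 1 := by simpa using integral_rho hr (0 : E m)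
  have i : Integrable (rho r : E m → ℝ) :=
    (contDiff_rho r).continuous.integrable_of_hasCompactSupport (Conv_rho hr)
  refine (norm_integral_le_of_norm_le (i.mul_const C) (Eventually.of_forall fun x => ?_)).trans_eq
    (by rw [integral_mul_const, one, one_mul])
  rw [norm_smul, Real.norm_of_nonneg (rho_nonneg hr x)]
  rcases lt_or_ge ‖x‖ r with hx | hx
  · exact mul_le_mul_of_nonneg_left (hb x hx) (rho_nonneg hr x)
  · rw [rho_eq_zero hr hx, zero_mul, zero_mul]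

/-- mollification of a Lipschitz function -/
theorem moll_lip {F : Type} [NormedAddCommGroup F] [NormedSpace ℝ F] [CompleteSpace F]
    {g : E m → F} {K r : ℝ} (hg : Lip K g) (hK : 0 ≤ K) (hr : 0 < r) :
    ContDiff ℝ 3 (fun ξ => ∫ x, rho r (x - ξ) • g x) ∧ Lip K (fun ξ => ∫ x, rho r (x - ξ) • g x) ∧
      (∀ ξ, ‖fderiv ℝ (fun ξ => ∫ x, rho r (x - ξ) • g x) ξ‖ ≤ K) ∧
      ∀ ξ, ‖(∫ x, rho r (x - ξ) • g x) - g ξ‖ ≤ K * r := by
  have cg : Continuous g := (LipschitzWith.of_dist_le' (K := K) fun x y => by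
    rw [dist_eq_norm, dist_eq_norm]
    exact hg x y).continuous
  have e : ∀ ξ, ∫ x, rho r (x - ξ) • g x = ∫ x, rho r x • g (x + ξ) := fun ξ => by
    rw [← integral_sub_right_eq_self (fun x => rho r x • g (x + ξ)) ξ]
    simp only [sub_add_cancel]
  have cr := (contDiff_rho (m := m) r).continuous
  have i : ∀ ξ, Integrable fun x => rho r x • g (x + ξ) := fun ξ =>
    Conv_ismul cr (Conv_rho hr) (cg.comp (continuous_id.add continuous_const))
  have one : ∫ x : E m, rho r x = 1 := by simpa using integral_rho hr (0 : E m)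
  have lip : Lip K fun ξ => ∫ x, rho r (x - ξ) • g x := fun ξ ξ' => by
    beta_reduce
    rw [e, e, ← integral_sub (i ξ) (i ξ')]
    simp only [← smul_sub]
    exact Conv_avg hr fun x _ => by simpa using hg (x + ξ) (x + ξ')
  refine ⟨?_, lip, fun ξ => norm_fderiv_le_of_lip' ℝ hK (Eventually.of_forall fun x => lip x ξ),
    fun ξ => ?_⟩
  · have h := (Conv_rho hr).contDiff_convolution_right (μ := volume) (n := 3)
      (ContinuousLinearMap.lsmul ℝ ℝ : ℝ →L[ℝ] F →L[ℝ] F).flip cg.locallyIntegrable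
      (contDiff_rho r)
    have e2 : (fun ξ => ∫ x, rho r (x - ξ) • g x) = MeasureTheory.convolution g (rho r)
        (ContinuousLinearMap.lsmul ℝ ℝ : ℝ →L[ℝ] F →L[ℝ] F).flip volume := funext fun ξ => by
      simp only [MeasureTheory.convolution, ContinuousLinearMap.flip_apply,
        ContinuousLinearMap.lsmul_apply, ← rho_neg r (ξ - _), neg_sub]
    rw [e2]
    exact h
  · have e3 : g ξ = ∫ x : E m, rho r x • g ξ := by rw [integral_smul_const, one, one_smul]
    rw [e, e3, ← integral_sub (i ξ) (Conv_ismul cr (Conv_rho hr) continuous_const)]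
    simp only [← smul_sub]
    refine Conv_avg hr fun x hx => (hg (x + ξ) ξ).trans ?_
    rw [add_sub_cancel_right]
    exact mul_le_mul_of_nonneg_left hx.le hK

end Pool.Agent.MP_f6c0e6_an.Gen

end

section

/-! Cut-off functions and partitions of unity. -/

set_option autoImplicit false

open MeasureTheory Filter Topology Set Metric
open scoped ENNReal RealInnerProductSpace

namespace Pool.Agent.MP_f6c0e6_an.Gen

variable {m N : ℕ}

/-- a transition function on the line -/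
theorem exists_trans : ∃ (ψ : ℝ → ℝ) (C : ℝ), 1 ≤ C ∧ ContDiff ℝ 3 ψ ∧ Antitone ψ ∧
    (∀ t, t ≤ 0 → ψ t = 1) ∧ (∀ t, 1 ≤ t → ψ t = 0) ∧ (∀ t, 0 ≤ ψ t ∧ ψ t ≤ 1) ∧
    (∀ t, |deriv ψ t| ≤ C) ∧ ∀ t, |deriv (deriv ψ) t| ≤ C := by
  let ψ : ℝ → ℝ := fun t => Real.smoothTransition (1 - t)
  have h3 : ContDiff ℝ 3 ψ := Real.smoothTransition.contDiff.comp (contDiff_const.sub contDiff_id)
  have h0 : ∀ t, t ≤ 0 → ψ t = 1 := fun t ht =>
    Real.smoothTransition.one_of_one_le (by linarith)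
  have h1 : ∀ t, 1 ≤ t → ψ t = 0 := fun t ht =>
    Real.smoothTransition.zero_of_nonpos (by linarith)
  have hc : HasCompactSupport (deriv ψ) := by
    refine HasCompactSupport.intro (isCompact_Icc (a := (0 : ℝ)) (b := 1)) fun t ht => ?_
    rw [mem_Icc, not_and_or, not_le, not_le] at ht
    rcases ht with ht | ht
    · have : ψ =ᶠ[𝓝 t] fun _ => 1 := (Iio_mem_nhds ht : Iio 0 ∈ 𝓝 t) |> fun h =>
        mem_of_superset h fun r hr => h0 r (le_of_lt hr)
      rw [this.deriv_eq, deriv_const]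
    · have : ψ =ᶠ[𝓝 t] fun _ => 0 := (Ioi_mem_nhds ht : Ioi 1 ∈ 𝓝 t) |> fun h =>
        mem_of_superset h fun r hr => h1 r (le_of_lt hr)
      rw [this.deriv_eq, deriv_const]
  have h2 : ContDiff ℝ 2 (deriv ψ) := (show ContDiff ℝ (2 + 1) ψ from h3).deriv'
  obtain ⟨C1, hC1⟩ := h2.continuous.bounded_above_of_compact_support hc
  obtain ⟨C2, hC2⟩ := (h2.continuous_deriv (by norm_num)).bounded_above_of_compact_support hc.deriv
  refine ⟨ψ, max 1 (max C1 C2), le_max_left _ _, h3,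
    fun x y h => Real.smoothTransition.monotone (by linarith), h0, h1,
    fun t => ⟨Real.smoothTransition.nonneg _, Real.smoothTransition.le_one _⟩,
    fun t => (hC1 t).trans ((le_max_left _ _).trans (le_max_right _ _)),
    fun t => (hC2 t).trans ((le_max_right _ _).trans (le_max_right _ _))⟩

theorem Cut_deriv_zero {f : ℝ → ℝ} (h : ∀ t, 1 < t → f t = 0) (t : ℝ) (ht : 1 < t) :
    deriv f t = 0 := by
  have : f =ᶠ[𝓝 t] fun _ => 0 := mem_of_superset (Ioi_mem_nhds ht) fun r hr => h r hr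
  rw [this.deriv_eq, deriv_const]

theorem Cut_norm {V W : Type} [NormedAddCommGroup V] [NormedSpace ℝ V] [NormedAddCommGroup W]
    [NormedSpace ℝ W] (J : V →L[ℝ] W) (hJ : ‖J‖ ≤ 1) (α γ β : ℝ) (l : V →L[ℝ] ℝ) (w : W) :
    ‖α • (γ • J) + (β • l).smulRight w‖ ≤ |α| * |γ| + |β| * ‖l‖ * ‖w‖ := by
  refine (norm_add_le _ _).trans ?_
  rw [ContinuousLinearMap.norm_smulRight_apply, norm_smul, norm_smul, norm_smul]
  simp only [Real.norm_eq_abs]
  nlinarith only [hJ, mul_nonneg (abs_nonneg α) (abs_nonneg γ)]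

/-- cut-off functions: `ψ ((|x - p|² - a²) / (b'² - a²))` with `b' = (a + b) / 2` -/
theorem exists_cut : ∃ C : ℝ, 1 ≤ C ∧ ∀ {m : ℕ} (p : E m) (a b : ℝ), 0 ≤ a → a < b →
    ∃ χ : E m → ℝ, Test 3 χ (ball p b) ∧ (∀ x, 0 ≤ χ x ∧ χ x ≤ 1) ∧
      (∀ x ∈ closedBall p a, χ x = 1) ∧ Bd2 χ 1 (C / (b - a)) (C / (b - a) ^ 2) := by
  obtain ⟨ψ, C, hC, h3, -, h0, h1, hb, hd1, hd2⟩ := exists_trans
  refine ⟨24 * C, by linarith, fun {m} p a b ha hab => ?_⟩
  obtain ⟨c, hc⟩ : ∃ c, c = (a + b) / 2 := ⟨_, rfl⟩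
  obtain ⟨D, hD⟩ : ∃ D, D = c ^ 2 - a ^ 2 := ⟨_, rfl⟩
  have hh : 0 < b - a := by linarith
  have hac : a < c := by linarith
  have hc0 : 0 < c := by linarith
  have hD1 : c * (b - a) ≤ 2 * D := by rw [hD, hc]; nlinarith only [ha, hab]
  have hD2 : (b - a) ^ 2 ≤ 4 * D := by rw [hD, hc]; nlinarith only [ha, hab]
  have hD0 : 0 < D := by nlinarith only [hD2, hab]
  let u : E m → ℝ := fun x => (‖x - p‖ ^ 2 - a ^ 2) / D
  obtain ⟨J, hJ, hJn⟩ : ∃ J : E m →L[ℝ] E m →L[ℝ] ℝ, (∀ v, J v = innerSL ℝ v) ∧ ‖J‖ ≤ 1 :=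
    ⟨innerSL ℝ, fun _ => rfl, norm_innerSL_le ℝ⟩
  let L : E m → E m →L[ℝ] ℝ := fun x => (2 / D) • J (x - p)
  have hu3 : ContDiff ℝ 3 u :=
    (((contDiff_norm_sq ℝ).comp (contDiff_id.sub contDiff_const)).sub contDiff_const).div_const D
  have hu : ∀ x, HasFDerivAt u (L x) x := fun x => by
    have h4 := ((((hasFDerivAt_id x).sub_const p).norm_sq).sub_const (a ^ 2)).mul_const D⁻¹
    refine (h4.congr_fderiv ?_).congr_of_eventuallyEq (Eventually.of_forall fun y => ?_)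
    · ext v
      simp [L, hJ]
      ring
    · simp only [u, div_eq_mul_inv, id]
  have hL : ∀ x, HasFDerivAt L ((2 / D) • J) x := fun x => by
    have h4 := (J.hasFDerivAt.comp x
      ((hasFDerivAt_id x).sub_const p)).const_smul (2 / D)
    exact h4.congr_fderiv (by rw [ContinuousLinearMap.comp_id])
  have h2 : ContDiff ℝ 2 (deriv ψ) := (show ContDiff ℝ (2 + 1) ψ from h3).deriv'
  have dψ : ∀ t, HasDerivAt ψ (deriv ψ t) t := fun t =>
    (h3.differentiable (by norm_num) t).hasDerivAt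
  have dψ' : ∀ t, HasDerivAt (deriv ψ) (deriv (deriv ψ) t) t := fun t =>
    (h2.differentiable (by norm_num) t).hasDerivAt
  have z1 : ∀ t, 1 < t → deriv ψ t = 0 := Cut_deriv_zero fun t ht => h1 t ht.le
  have z2 : ∀ t, 1 < t → deriv (deriv ψ) t = 0 := Cut_deriv_zero z1
  have e1 : fderiv ℝ (fun x => ψ (u x)) = fun x => deriv ψ (u x) • L x :=
    funext fun x => ((dψ (u x)).comp_hasFDerivAt x (hu x)).fderiv
  have e2 : ∀ x, fderiv ℝ (fun x => deriv ψ (u x) • L x) x =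
      deriv ψ (u x) • ((2 / D) • J) +
        (deriv (deriv ψ) (u x) • L x).smulRight (L x) := fun x =>
    (((dψ' (u x)).comp_hasFDerivAt x (hu x)).smul (hL x)).fderiv
  have hLb : ∀ x, u x ≤ 1 → ‖L x‖ ≤ 4 / (b - a) := fun x hx => by
    have h4 : ‖x - p‖ ^ 2 ≤ c ^ 2 := by
      have := (div_le_one hD0).1 hx
      linarith
    have h5 : ‖x - p‖ ≤ c := (pow_le_pow_iff_left₀ (norm_nonneg _) hc0.le two_ne_zero).1 h4
    simp only [L]
    rw [norm_smul, hJ, innerSL_apply_norm, Real.norm_eq_abs, abs_of_pos (by positivity),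
      div_mul_eq_mul_div, div_le_div_iff₀ hD0 hh]
    nlinarith only [hD1, hab, h5]
  have hz : ∀ x, x ∉ closedBall p c → ψ (u x) = 0 := fun x hx => by
    rw [mem_closedBall, dist_eq_norm, not_le] at hx
    refine h1 _ ((one_le_div hD0).2 ?_)
    nlinarith only [hD, ha, hx, hac]
  have hsupp : Function.support (fun x => ψ (u x)) ⊆ closedBall p c := fun x hx =>
    by_contra fun h => hx (hz x h)
  refine ⟨fun x => ψ (u x), ⟨h3.comp hu3, HasCompactSupport.intro (isCompact_closedBall p c) hz,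
    (closure_minimal hsupp isClosed_closedBall).trans
      (closedBall_subset_ball (by linarith))⟩, fun x => hb _, fun x hx => ?_,
    fun x => ?_, fun x => ?_, fun x => ?_⟩
  · rw [mem_closedBall, dist_eq_norm] at hx
    refine h0 _ (div_nonpos_of_nonpos_of_nonneg ?_ hD0.le)
    nlinarith only [ha, hx, norm_nonneg (x - p)]
  · rw [Real.norm_eq_abs, abs_of_nonneg (hb _).1]
    exact (hb _).2
  · rw [e1]
    rcases le_or_gt (u x) 1 with hx | hx
    · rw [norm_smul]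
      refine (mul_le_mul (hd1 _) (hLb x hx) (norm_nonneg _) (by linarith)).trans ?_
      rw [← mul_div_assoc]
      exact div_le_div_of_nonneg_right (by linarith) hh.le
    · simp only [z1 _ hx, zero_smul, norm_zero]
      positivity
  · rw [e1, e2]
    refine (Cut_norm J hJn _ _ _ (L x) (L x)).trans ?_
    rcases le_or_gt (u x) 1 with hx | hx
    · have k1 : |2 / D| ≤ 8 / (b - a) ^ 2 := by
        rw [abs_of_pos (by positivity), div_le_div_iff₀ hD0 (by positivity)]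
        linarith
      have k2 := mul_le_mul (hd2 (u x)) (hLb x hx) (norm_nonneg _) (by linarith)
      have k3 := mul_le_mul k2 (hLb x hx) (norm_nonneg _) (by positivity)
      have k4 := mul_le_mul (hd1 (u x)) k1 (abs_nonneg _) (by linarith)
      refine (add_le_add k4 k3).trans (le_of_eq ?_)
      field_simp
      ring
    · simp only [z1 _ hx, z2 _ hx, abs_zero, zero_mul, add_zero]
      positivity

theorem Cut_int_bd {φ : E m → ℝ} {ξ : E m} {r a : ℝ} (hr : 0 ≤ r) (ha : 0 ≤ a)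
    (h1 : ∀ x, ‖φ x‖ ≤ a) (h0 : ∀ x, x ∉ closedBall ξ r → φ x = 0) :
    ‖∫ x, φ x‖ ≤ a * (2 ^ m * r ^ m) := by
  rw [← setIntegral_eq_integral_of_forall_compl_eq_zero h0]
  refine (norm_setIntegral_le_of_norm_le_const measure_closedBall_lt_top fun x _ => h1 x).trans ?_
  exact mul_le_mul_of_nonneg_left (volume_ball_le ξ hr).1 ha

/-- mollification of an integrable function with values in `[0, 1]` -/
theorem Cut_moll (m : ℕ) : ∃ C : ℝ, 1 ≤ C ∧ ∀ (g : E m → ℝ) (r : ℝ), 0 < r → Integrable g →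
    (∀ x, 0 ≤ g x ∧ g x ≤ 1) →
    ContDiff ℝ 3 (fun ξ => ∫ x, rho r (x - ξ) • g x) ∧
      (∀ ξ, 0 ≤ ∫ x, rho r (x - ξ) • g x ∧ ∫ x, rho r (x - ξ) • g x ≤ 1) ∧
      Bd2 (fun ξ => ∫ x, rho r (x - ξ) • g x) 1 (C / r) (C / r ^ 2) := by
  obtain ⟨C, hC, hb⟩ := rho_bd m
  refine ⟨C * 2 ^ m, one_le_mul_of_one_le_of_one_le hC (one_le_pow₀ one_le_two),
    fun g r hr hg hg1 => ?_⟩
  have hb0 : Bd2 (rho r : E m → ℝ) (C / r ^ m) (C / r ^ (m + 1)) (C / r ^ (m + 2)) := by
    simpa using (hb r hr 0).1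
  have hs : tsupport (rho r : E m → ℝ) ⊆ closedBall 0 r := by
    simpa using tsupport_rho hr (0 : E m)
  have hc : HasCompactSupport (rho r : E m → ℝ) :=
    (isCompact_closedBall 0 r).of_isClosed_subset (isClosed_tsupport _) hs
  have hC0 : 0 ≤ C := by linarith
  have hgn : ∀ x, ‖g x‖ ≤ 1 := fun x => by
    rw [Real.norm_eq_abs, abs_of_nonneg (hg1 x).1]
    exact (hg1 x).2
  have hout : ∀ ξ x : E m, x ∉ closedBall ξ r → x - ξ ∉ tsupport (rho r : E m → ℝ) :=
    fun ξ x hx h => hx (by simpa [mem_closedBall, dist_eq_norm] using hs h)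
  obtain ⟨-, d1, d2, -⟩ := conv_meas (volume : Measure (E m)) (ζ := fun x => x) measurable_id hg
    ((contDiff_rho r).of_le (by norm_num)) hb0
  have hval : ∀ ξ, 0 ≤ ∫ x, rho r (x - ξ) • g x ∧ ∫ x, rho r (x - ξ) • g x ≤ 1 := fun ξ => by
    refine ⟨integral_nonneg fun x => mul_nonneg (rho_nonneg hr _) (hg1 x).1, ?_⟩
    rw [← integral_rho hr ξ]
    refine integral_mono_of_nonneg
      (Eventually.of_forall fun x => mul_nonneg (rho_nonneg hr _) (hg1 x).1) ?_
      (Eventually.of_forall fun x => mul_le_of_le_one_right (rho_nonneg hr _) (hg1 x).2)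
    exact ((contDiff_rho r).continuous.integrable_of_hasCompactSupport hc).comp_sub_right ξ
  refine ⟨?_, hval, fun ξ => ?_, fun ξ => ?_, fun ξ => ?_⟩
  · have h3 := hc.contDiff_convolution_right (ContinuousLinearMap.lsmul ℝ ℝ) (n := 3)
      (μ := volume) hg.locallyIntegrable (contDiff_rho r)
    refine (congrArg (ContDiff ℝ 3) (funext fun ξ => ?_)).mp h3
    rw [convolution_def]
    refine integral_congr_ae (Eventually.of_forall fun x => ?_)
    simp only [ContinuousLinearMap.lsmul_apply, smul_eq_mul]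
    rw [← neg_sub x ξ, rho_neg, mul_comm]
  · rw [Real.norm_eq_abs, abs_of_nonneg (hval ξ).1]
    exact (hval ξ).2
  · refine ContinuousLinearMap.opNorm_le_bound _ (by positivity) fun v => ?_
    rw [d1, norm_neg]
    refine (Cut_int_bd (ξ := ξ) (a := C / r ^ (m + 1) * ‖v‖) hr.le (by positivity)
      (fun x => ?_) fun x hx => ?_).trans (le_of_eq ?_)
    · rw [norm_smul]
      refine (mul_le_of_le_one_right (norm_nonneg _) (hgn x)).trans ?_
      exact ((fderiv ℝ (rho r) (x - ξ)).le_opNorm v).trans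
        (mul_le_mul_of_nonneg_right (hb0.b1 _) (norm_nonneg _))
    · rw [fderiv_of_notMem_tsupport ℝ (hout ξ x hx)]
      simp
    · field_simp
      ring
  · refine ContinuousLinearMap.opNorm_le_bound _ (by positivity) fun u => ?_
    refine ContinuousLinearMap.opNorm_le_bound _ (by positivity) fun v => ?_
    rw [d2]
    refine (Cut_int_bd (ξ := ξ) (a := C / r ^ (m + 2) * ‖u‖ * ‖v‖) hr.le (by positivity)
      (fun x => ?_) fun x hx => ?_).trans (le_of_eq ?_)
    · rw [norm_smul]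
      refine (mul_le_of_le_one_right (norm_nonneg _) (hgn x)).trans ?_
      refine ((fderiv ℝ (fderiv ℝ (rho r)) (x - ξ)).le_opNorm₂ u v).trans ?_
      gcongr
      exact hb0.b2 _
    · rw [fderiv_of_notMem_tsupport ℝ fun h => hout ξ x hx (tsupport_fderiv_subset ℝ h)]
      simp
    · field_simp
      ring

/-- cut-off functions for a bounded set: mollify the indicator function of
`thickening (σ / 2) K` with `rho (σ / 4)` -/
theorem exists_cut_set (m : ℕ) : ∃ C : ℝ, 1 ≤ C ∧ ∀ (K : Set (E m)) (σ : ℝ), Bornology.IsBounded K →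
    0 < σ → ∃ χ : E m → ℝ, Test 3 χ (thickening σ K) ∧ (∀ x, 0 ≤ χ x ∧ χ x ≤ 1) ∧
      (∀ x ∈ thickening (σ / 4) K, χ x = 1) ∧ Bd2 χ 1 (C / σ) (C / σ ^ 2) := by
  obtain ⟨C, hC, hm⟩ := Cut_moll m
  refine ⟨16 * C, by linarith, fun K σ hK hσ => ?_⟩
  have hr : 0 < σ / 4 := by positivity
  let g : E m → ℝ := (thickening (σ / 2) K).indicator fun _ => 1
  have hg : Integrable g := by
    rw [integrable_indicator_iff isOpen_thickening.measurableSet]
    exact integrableOn_const hK.thickening.measure_lt_top.ne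
  have hg1 : ∀ x, 0 ≤ g x ∧ g x ≤ 1 := fun x => by
    simp only [g, indicator]
    split_ifs <;> norm_num
  obtain ⟨h3, hv, hb⟩ := hm g (σ / 4) hr hg hg1
  have hz : ∀ ξ, ξ ∉ cthickening (3 * σ / 4) K → ∫ x, rho (σ / 4) (x - ξ) • g x = 0 := by
    intro ξ hξ
    refine integral_eq_zero_of_ae (Eventually.of_forall fun x => ?_)
    by_cases hx : x ∈ thickening (σ / 2) K
    · obtain ⟨z, hz, hd⟩ := mem_thickening_iff.1 hx
      have h1 : σ / 4 ≤ ‖x - ξ‖ := by
        by_contra h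
        refine hξ (thickening_subset_cthickening _ _ (mem_thickening_iff.2 ⟨z, hz, ?_⟩))
        have := dist_triangle ξ x z
        rw [dist_comm ξ x, dist_eq_norm x ξ] at this
        linarith only [hd, h, this, not_le.1 h]
      simp [rho_eq_zero hr h1]
    · simp [g, hx]
  have hsupp : Function.support (fun ξ => ∫ x, rho (σ / 4) (x - ξ) • g x) ⊆
      cthickening (3 * σ / 4) K := fun x hx => by_contra fun h => hx (hz x h)
  refine ⟨fun ξ => ∫ x, rho (σ / 4) (x - ξ) • g x, ⟨h3, HasCompactSupport.intro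
    (isCompact_of_isClosed_isBounded isClosed_cthickening hK.cthickening) hz,
    (closure_minimal hsupp isClosed_cthickening).trans
      (cthickening_subset_thickening' hσ (by linarith) K)⟩, hv, fun ξ hξ => ?_,
    hb.b0, fun ξ => (hb.b1 ξ).trans ?_, fun ξ => (hb.b2 ξ).trans (le_of_eq ?_)⟩
  · rw [← integral_rho hr ξ]
    refine integral_congr_ae (Eventually.of_forall fun x => ?_)
    obtain ⟨z, hz, hd⟩ := mem_thickening_iff.1 hξ
    rcases le_or_gt (σ / 4) ‖x - ξ‖ with h | h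
    · simp [rho_eq_zero hr h]
    · have hx : x ∈ thickening (σ / 2) K := by
        refine mem_thickening_iff.2 ⟨z, hz, ?_⟩
        have := dist_triangle x ξ z
        rw [dist_eq_norm x ξ] at this
        linarith
      simp [g, hx]
  · rw [div_div_eq_mul_div]
    exact div_le_div_of_nonneg_right (by linarith) hσ.le
  · field_simp
    ring

/-- the profile of the partition of unity -/
noncomputable def cc (t : ℝ) : ℝ :=
  Real.cos (Real.pi / 2 * Real.smoothTransition t) *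
    Real.cos (Real.pi / 2 * Real.smoothTransition (-t))

/-- the points of the lattice -/
noncomputable def lc (h : ℝ) (j : Fin m → ℤ) : E m := (h / ((m : ℝ) + 1)) • kv j

/-- the partition of unity: the squares add up to one -/
noncomputable def lp (h : ℝ) (j : Fin m → ℤ) (x : E m) : ℝ :=
  ∏ i, cc (((m : ℝ) + 1) / h * x i - j i)

theorem Cut_cos (t : ℝ) : 0 ≤ Real.cos (Real.pi / 2 * Real.smoothTransition t) := by
  have h0 := Real.smoothTransition.nonneg t
  have h1 := Real.smoothTransition.le_one t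
  have hp := Real.pi_pos
  exact Real.cos_nonneg_of_neg_pi_div_two_le_of_le (by nlinarith only [hp, h0]) (by nlinarith only [h1, hp])

theorem Cut_cc_bd (t : ℝ) : 0 ≤ cc t ∧ cc t ≤ 1 :=
  ⟨mul_nonneg (Cut_cos _) (Cut_cos _),
    mul_le_one₀ (Real.cos_le_one _) (Cut_cos _) (Real.cos_le_one _)⟩

theorem Cut_cc_zero {t : ℝ} (ht : 1 ≤ |t|) : cc t = 0 := by
  unfold cc
  rcases le_abs.1 ht with h | h
  · rw [Real.smoothTransition.one_of_one_le h, mul_one, Real.cos_pi_div_two, zero_mul]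
  · rw [Real.smoothTransition.one_of_one_le h, mul_one, Real.cos_pi_div_two, mul_zero]

theorem Cut_cc_sq {t : ℝ} (h0 : 0 ≤ t) (h1 : t ≤ 1) : cc t ^ 2 + cc (t - 1) ^ 2 = 1 := by
  have e : Real.smoothTransition (-(t - 1)) = 1 - Real.smoothTransition t := by
    have hp := (Real.smoothTransition.pos_denom t).ne'
    unfold Real.smoothTransition
    rw [neg_sub, sub_sub_cancel, add_comm (expNegInvGlue (1 - t))]
    field_simp
    ring
  unfold cc
  rw [e, Real.smoothTransition.zero_of_nonpos (neg_nonpos.2 h0),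
    Real.smoothTransition.zero_of_nonpos (sub_nonpos.2 h1), mul_zero, Real.cos_zero, mul_one,
    one_mul, mul_sub, mul_one, Real.cos_pi_div_two_sub, Real.cos_sq_add_sin_sq]

theorem Cut_contDiff_cc (n : ℕ) : ContDiff ℝ n cc :=
  (contDiff_const.mul Real.smoothTransition.contDiff).cos.mul
    (contDiff_const.mul (Real.smoothTransition.contDiff.comp contDiff_neg)).cos

theorem Cut_coord {h : ℝ} (hh : 0 < h) (j : Fin m → ℤ) (x : E m) (i : Fin m) :
    ((m : ℝ) + 1) / h * x i - j i = ((m : ℝ) + 1) / h * (x - lc h j) i := by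
  simp only [lc, kv, PiLp.sub_apply, PiLp.smul_apply, smul_eq_mul]
  field_simp

theorem contDiff_lp (h : ℝ) (j : Fin m → ℤ) (n : ℕ) : ContDiff ℝ n (lp h j) := by
  refine contDiff_prod fun i _ => (Cut_contDiff_cc n).comp ?_
  exact (contDiff_const.mul (EuclideanSpace.proj (𝕜 := ℝ) i).contDiff).sub contDiff_const

theorem lp_nonneg (h : ℝ) (j : Fin m → ℤ) (x : E m) : 0 ≤ lp h j x ∧ lp h j x ≤ 1 := by
  exact ⟨Finset.prod_nonneg fun i _ => (Cut_cc_bd _).1,
    Finset.prod_le_one (fun i _ => (Cut_cc_bd _).1) fun i _ => (Cut_cc_bd _).2⟩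

/-- the support is in a cube of half side `h / (m + 1)`, so in the closed ball of radius
`√m h / (m + 1) ≤ h / 2` -/
theorem lp_eq_zero {h : ℝ} (hh : 0 < h) (j : Fin m → ℤ) {x : E m} (hx : h / 2 < ‖x - lc h j‖) :
    lp h j x = 0 := by
  by_contra hne
  have hm : (0 : ℝ) ≤ m := Nat.cast_nonneg m
  have h1 : ∀ i, ((x - lc h j) i) ^ 2 ≤ (h / ((m : ℝ) + 1)) ^ 2 := fun i => by
    have h2 : |((m : ℝ) + 1) / h * x i - j i| < 1 := by
      by_contra h3
      exact hne (Finset.prod_eq_zero (Finset.mem_univ i) (Cut_cc_zero (not_lt.1 h3)))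
    rw [Cut_coord hh, abs_mul, abs_of_pos (by positivity), div_mul_eq_mul_div,
      div_lt_one hh] at h2
    rw [← sq_abs]
    refine pow_le_pow_left₀ (abs_nonneg _) ?_ 2
    rw [le_div_iff₀ (by positivity)]
    linarith
  have h2 : ‖x - lc h j‖ ^ 2 ≤ (h / 2) ^ 2 := by
    rw [EuclideanSpace.real_norm_sq_eq]
    refine (Finset.sum_le_card_nsmul _ _ _ fun i _ => h1 i).trans ?_
    rw [Finset.card_univ, Fintype.card_fin, nsmul_eq_mul, div_pow, div_pow, ← mul_div_assoc,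
      div_le_div_iff₀ (by positivity) (by positivity)]
    nlinarith only [mul_nonneg (sq_nonneg h) (sq_nonneg ((m : ℝ) - 1))]
  exact absurd (pow_le_pow_left₀ (by positivity) hx.le 2 |>.antisymm h2) fun e => by
    have := (pow_left_inj₀ (by positivity) (norm_nonneg _) two_ne_zero).1 e
    linarith only [hx, this]

theorem test_lp {h : ℝ} (hh : 0 < h) (j : Fin m → ℤ) (n : ℕ) :
    Test n (lp h j) (ball (lc h j) h) ∧ tsupport (lp h j) ⊆ closedBall (lc h j) (h / 2) := by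
  have hz : ∀ x, x ∉ closedBall (lc h j) (h / 2) → lp h j x = 0 := fun x hx => by
    rw [mem_closedBall, dist_eq_norm, not_le] at hx
    exact lp_eq_zero hh j hx
  have hs : tsupport (lp h j) ⊆ closedBall (lc h j) (h / 2) :=
    closure_minimal (fun x hx => by_contra fun h => hx (hz x h)) isClosed_closedBall
  exact ⟨⟨contDiff_lp h j n, HasCompactSupport.intro (isCompact_closedBall _ _) hz,
    hs.trans (closedBall_subset_ball (by linarith))⟩, hs⟩

theorem Cut_scale {F : Type} [NormedAddCommGroup F] [NormedSpace ℝ F] {G : E m → F}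
    (hG : Differentiable ℝ G) (t : ℝ) (c x : E m) :
    HasFDerivAt (fun x => G (t • x - c)) (t • fderiv ℝ G (t • x - c)) x := by
  have h1 := (hG (t • x - c)).hasFDerivAt.comp x
    (((hasFDerivAt_id x).const_smul t).sub_const c)
  refine h1.congr_fderiv ?_
  ext v
  simp

theorem Cut_scale_bd {P : E m → ℝ} (hP : ContDiff ℝ 2 P) {a t : ℝ} (hb : Bd2 P a a a)
    (h1 : ∀ x, ‖P x‖ ≤ 1) (ht : 0 ≤ t) (c : E m) :
    Bd2 (fun x => P (t • x - c)) 1 (t * a) (t ^ 2 * a) ∧ Lip (t * a) fun x => P (t • x - c) := by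
  have hd : Differentiable ℝ P := hP.differentiable (by norm_num)
  have hd' : Differentiable ℝ (fderiv ℝ P) :=
    (hP.fderiv_right (m := 1) (by norm_num)).differentiable (by norm_num)
  have e1 : fderiv ℝ (fun x => P (t • x - c)) = fun x => t • fderiv ℝ P (t • x - c) :=
    funext fun x => (Cut_scale hd t c x).fderiv
  have b1 : ∀ x, ‖fderiv ℝ (fun x => P (t • x - c)) x‖ ≤ t * a := fun x => by
    rw [e1, norm_smul, Real.norm_of_nonneg ht]
    exact mul_le_mul_of_nonneg_left (hb.b1 _) ht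
  refine ⟨⟨fun x => h1 _, b1, fun x => ?_⟩, fun x x' => ?_⟩
  · have e2 : fderiv ℝ (fun x => t • fderiv ℝ P (t • x - c)) x =
        t • (t • fderiv ℝ (fderiv ℝ P) (t • x - c)) :=
      ((Cut_scale hd' t c x).const_smul t).fderiv
    rw [e1, e2, smul_smul, ← sq]
    refine (ContinuousLinearMap.opNorm_smul_le _ _).trans ?_
    rw [Real.norm_of_nonneg (sq_nonneg t)]
    exact mul_le_mul_of_nonneg_left (hb.b2 _) (sq_nonneg t)
  · exact convex_univ.norm_image_sub_le_of_norm_fderiv_le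
      (fun y _ => (Cut_scale hd t c y).differentiableAt) (fun y _ => b1 y) (mem_univ _)
      (mem_univ _)

theorem Cut_Bd2_mono {g : E m → ℝ} {a1 a2 b1 b2 : ℝ} (h : Bd2 g 1 a1 a2 ∧ Lip a1 g)
    (h1 : a1 ≤ b1) (h2 : a2 ≤ b2) : Bd2 g 1 b1 b2 ∧ Lip b1 g :=
  ⟨⟨h.1.b0, fun x => (h.1.b1 x).trans h1, fun x => (h.1.b2 x).trans h2⟩,
    fun x x' => (h.2 x x').trans (mul_le_mul_of_nonneg_right h1 (norm_nonneg _))⟩

theorem lp_bd (m : ℕ) : ∃ C : ℝ, 1 ≤ C ∧ ∀ h : ℝ, 0 < h → ∀ j : Fin m → ℤ,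
    Bd2 (lp h j) 1 (C / h) (C / h ^ 2) ∧
      Bd2 (fun x => lp h j x ^ 2) 1 (C / h) (C / h ^ 2) ∧ Lip (C / h) (lp h j) ∧
      Lip (C / h) fun x => lp h j x ^ 2 := by
  have hm : (0 : ℝ) < (m : ℝ) + 1 := by positivity
  have hm1 : (1 : ℝ) ≤ (m : ℝ) + 1 := by linarith [Nat.cast_nonneg (α := ℝ) m]
  have hT := (test_lp hm (0 : Fin m → ℤ) 2).1
  have hP : ContDiff ℝ 2 (lp ((m : ℝ) + 1) (0 : Fin m → ℤ)) := hT.smooth
  have hP2 : ContDiff ℝ 2 fun x => lp ((m : ℝ) + 1) (0 : Fin m → ℤ) x ^ 2 := hP.pow 2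
  obtain ⟨a, ha⟩ := exists_Bd2 hP hT.cpt
  obtain ⟨a', ha'⟩ := exists_Bd2 hP2
    (hT.cpt.comp_left (g := fun t : ℝ => t ^ 2) (by norm_num))
  have n1 : ∀ x, ‖lp ((m : ℝ) + 1) (0 : Fin m → ℤ) x‖ ≤ 1 := fun x => by
    rw [Real.norm_of_nonneg (lp_nonneg _ _ _).1]
    exact (lp_nonneg _ _ _).2
  have n2 : ∀ x, ‖lp ((m : ℝ) + 1) (0 : Fin m → ℤ) x ^ 2‖ ≤ 1 := fun x => by
    rw [norm_pow]
    exact pow_le_one₀ (norm_nonneg _) (n1 x)
  obtain ⟨A, hA1, hA2, hA3⟩ : ∃ A : ℝ, 1 ≤ A ∧ a ≤ A ∧ a' ≤ A :=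
    ⟨max 1 (max a a'), le_max_left _ _, (le_max_left _ _).trans (le_max_right _ _),
      (le_max_right _ _).trans (le_max_right _ _)⟩
  refine ⟨((m : ℝ) + 1) ^ 2 * A, one_le_mul_of_one_le_of_one_le (one_le_pow₀ hm1) hA1,
    fun h hh j => ?_⟩
  have e : lp h j = fun x =>
      lp ((m : ℝ) + 1) (0 : Fin m → ℤ) ((((m : ℝ) + 1) / h) • x - kv j) := by
    funext x
    simp only [lp, kv, div_self hm.ne', one_mul, PiLp.sub_apply, PiLp.smul_apply, smul_eq_mul,
      Pi.zero_apply, Int.cast_zero, sub_zero]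
  have ht : 0 ≤ ((m : ℝ) + 1) / h := by positivity
  have k1 : ∀ b, b ≤ A → ((m : ℝ) + 1) / h * b ≤ ((m : ℝ) + 1) ^ 2 * A / h := fun b hb => by
    rw [div_mul_eq_mul_div]
    refine div_le_div_of_nonneg_right ?_ hh.le
    nlinarith only [hb, hm, hA1, mul_le_mul_of_nonneg_left hb hm.le, mul_nonneg hm.le (zero_le_one.trans hA1)]
  have k2 : ∀ b, b ≤ A → (((m : ℝ) + 1) / h) ^ 2 * b ≤ ((m : ℝ) + 1) ^ 2 * A / h ^ 2 :=
    fun b hb => by
      rw [div_pow, div_mul_eq_mul_div]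
      gcongr
  have r1 := Cut_Bd2_mono (Cut_scale_bd hP ha n1 ht (kv j)) (k1 _ hA2) (k2 _ hA2)
  have r2 := Cut_Bd2_mono (Cut_scale_bd hP2 ha' n2 ht (kv j)) (k1 _ hA3) (k2 _ hA3)
  rw [e]
  exact ⟨r1.1, r2.1, r1.2, r2.2⟩

/-- `cc t ^ 2 + cc (t - 1) ^ 2 = 1` on `[0, 1]`; product over the coordinates -/
theorem sum_lp_sq {h : ℝ} (hh : 0 < h) (J : Finset (Fin m → ℤ)) (x : E m) :
    ∑ j ∈ J, lp h j x ^ 2 ≤ 1 ∧
      ((∀ j, ‖x - lc h j‖ ≤ h / 2 → j ∈ J) → ∑ j ∈ J, lp h j x ^ 2 = 1) := by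
  classical
  let y : Fin m → ℝ := fun i => ((m : ℝ) + 1) / h * x i
  let T : Finset (Fin m → ℤ) := Fintype.piFinset fun i => {⌊y i⌋, ⌊y i⌋ + 1}
  have hT : ∑ j ∈ T, lp h j x ^ 2 = 1 := by
    have e := Finset.prod_univ_sum (fun i => ({⌊y i⌋, ⌊y i⌋ + 1} : Finset ℤ))
      fun i k => cc (y i - k) ^ 2
    simp only [lp, ← Finset.prod_pow]
    rw [← e]
    refine Finset.prod_eq_one fun i _ => ?_
    rw [Finset.sum_pair (by omega)]
    push_cast
    rw [← sub_sub]
    exact Cut_cc_sq (by linarith [Int.floor_le (y i)]) (by linarith [Int.lt_floor_add_one (y i)])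
  have hz : ∀ j, j ∉ T → lp h j x ^ 2 = 0 := fun j hj => by
    simp only [T, Fintype.mem_piFinset, not_forall, Finset.mem_insert, Finset.mem_singleton] at hj
    obtain ⟨i, hi⟩ := hj
    refine pow_eq_zero_iff two_ne_zero |>.2
      (Finset.prod_eq_zero (Finset.mem_univ i) (Cut_cc_zero (t := y i - j i) ?_))
    have a1 := Int.floor_le (y i)
    have a2 := Int.lt_floor_add_one (y i)
    rcases (by omega : j i + 1 ≤ ⌊y i⌋ ∨ ⌊y i⌋ + 2 ≤ j i) with h1 | h1
    · have : (j i : ℝ) + 1 ≤ ⌊y i⌋ := by exact_mod_cast h1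
      exact le_abs.2 (Or.inl (by linarith))
    · have : (⌊y i⌋ : ℝ) + 2 ≤ j i := by exact_mod_cast h1
      exact le_abs.2 (Or.inr (by linarith))
  have hU : ∑ j ∈ J ∪ T, lp h j x ^ 2 = 1 := by
    rw [← hT]
    exact (Finset.sum_subset Finset.subset_union_right fun j _ hj => hz j hj).symm
  rw [← hU]
  refine ⟨Finset.sum_le_sum_of_subset_of_nonneg Finset.subset_union_left
    fun j _ _ => sq_nonneg _, fun hJ => Finset.sum_subset Finset.subset_union_left
      fun j _ hj => ?_⟩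
  rw [lp_eq_zero hh j (not_le.1 fun h1 => hj (hJ j h1))]
  norm_num

theorem Cut_card (c : ℝ) {r : ℝ} (hr : 0 ≤ r) :
    ((Finset.Icc ⌈c - r⌉ ⌊c + r⌋).card : ℝ) ≤ 2 * r + 1 := by
  rw [Int.card_Icc]
  rcases le_total (⌊c + r⌋ + 1 - ⌈c - r⌉) 0 with h | h
  · rw [Int.toNat_eq_zero.2 h]
    push_cast
    linarith
  · have h1 : (((⌊c + r⌋ + 1 - ⌈c - r⌉).toNat : ℤ) : ℝ) = ((⌊c + r⌋ + 1 - ⌈c - r⌉ : ℤ) : ℝ) := by
      rw [Int.toNat_of_nonneg h]
    rw [Int.cast_natCast] at h1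
    rw [h1]
    push_cast
    linarith [Int.floor_le (c + r), Int.le_ceil (c - r)]

theorem Cut_mem {c r : ℝ} {m : ℤ} (h : |c - m| ≤ r) : m ∈ Finset.Icc ⌈c - r⌉ ⌊c + r⌋ := by
  rw [Finset.mem_Icc, Int.ceil_le, Int.le_floor]
  constructor <;> linarith [(abs_le.1 h).1, (abs_le.1 h).2]

theorem Cut_box {h : ℝ} (hh : 0 < h) (x : E m) {R : ℝ} (hR : 0 ≤ R) :
    ∃ T : Finset (Fin m → ℤ), (∀ j, ‖x - lc h j‖ ≤ R → j ∈ T) ∧
      (T.card : ℝ) ≤ (2 * (((m : ℝ) + 1) / h * R) + 1) ^ m := by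
  refine ⟨Fintype.piFinset fun i => Finset.Icc
    ⌈((m : ℝ) + 1) / h * x i - ((m : ℝ) + 1) / h * R⌉
    ⌊((m : ℝ) + 1) / h * x i + ((m : ℝ) + 1) / h * R⌋, fun j hj => ?_, ?_⟩
  · refine Fintype.mem_piFinset.2 fun i => Cut_mem ?_
    rw [Cut_coord hh, abs_mul, abs_of_pos (by positivity)]
    exact mul_le_mul_of_nonneg_left ((PiLp.norm_apply_le (x - lc h j) i).trans hj) (by positivity)
  · rw [Fintype.card_piFinset, Nat.cast_prod]
    refine (Finset.prod_le_prod (fun i _ => Nat.cast_nonneg _)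
      fun i _ => Cut_card _ (by positivity)).trans (le_of_eq ?_)
    rw [Finset.prod_const, Finset.card_univ, Fintype.card_fin]

/-- the lattice points in a bounded set, and bounded overlap -/
theorem lattice_bd (m : ℕ) : ∃ C : ℝ, 1 ≤ C ∧ ∀ h : ℝ, 0 < h →
    (∀ Z : Set (E m), Bornology.IsBounded Z → {j : Fin m → ℤ | lc h j ∈ Z}.Finite) ∧
    ∀ (J : Finset (Fin m → ℤ)) (x : E m) (R : ℝ), h ≤ R →
      ((J.filter fun j => ‖x - lc h j‖ ≤ R).card : ℝ) ≤ C * (R / h) ^ m := by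
  have hm : (0 : ℝ) ≤ m := Nat.cast_nonneg m
  refine ⟨(2 * (m : ℝ) + 3) ^ m, one_le_pow₀ (by linarith), fun h hh =>
    ⟨fun Z hZ => ?_, fun J x R hR => ?_⟩⟩
  · obtain ⟨R, hR0, hR⟩ := hZ.exists_pos_norm_le
    obtain ⟨T, hT, -⟩ := Cut_box hh (0 : E m) hR0.le
    refine T.finite_toSet.subset fun j hj => hT j ?_
    rw [zero_sub, norm_neg]
    exact hR _ hj
  · obtain ⟨T, hT, hc⟩ := Cut_box hh x (hh.le.trans hR)
    have h1 : 1 ≤ R / h := (one_le_div hh).2 hR
    refine (Nat.cast_le.2 (Finset.card_le_card fun j hj =>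
      hT j (Finset.mem_filter.1 hj).2)).trans (hc.trans ?_)
    rw [← mul_pow]
    have e : ((m : ℝ) + 1) / h * R = ((m : ℝ) + 1) * (R / h) := by ring
    rw [e]
    exact pow_le_pow_left₀ (by positivity) (by nlinarith only [h1]) m

/-- bounded overlap for integrals -/
theorem sum_ball_le (m : ℕ) : ∃ C : ℝ, 1 ≤ C ∧ ∀ {Ω : Type} [MeasurableSpace Ω] (μ : Measure Ω)
    (ζ : Ω → E m) (f : Ω → ℝ) (h R : ℝ) (J : Finset (Fin m → ℤ)) (Z : Set (E m)), 0 < h → h ≤ R →
    Measurable ζ → Integrable f μ → (∀ᵐ y ∂μ, 0 ≤ f y) → (∀ j ∈ J, ball (lc h j) R ⊆ Z) →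
    MeasurableSet Z →
    ∑ j ∈ J, ∫ y in ζ ⁻¹' ball (lc h j) R, f y ∂μ ≤ C * (R / h) ^ m * ∫ y in ζ ⁻¹' Z, f y ∂μ := by
  classical
  obtain ⟨C, hC, hL⟩ := lattice_bd m
  refine ⟨C, hC, fun {Ω} _ μ ζ f h R J Z hh hR hζ hf hf0 hZ hZm => ?_⟩
  have hB : ∀ j : Fin m → ℤ, MeasurableSet (ζ ⁻¹' ball (lc h j) R) := fun j =>
    hζ measurableSet_ball
  have hR0 : 0 < R := hh.trans_le hR
  simp only [← integral_indicator (hB _), ← integral_indicator (hζ hZm)]
  rw [← integral_finsetSum _ fun j _ => hf.indicator (hB j), ← integral_const_mul]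
  refine integral_mono_ae (integrable_finsetSum _ fun j _ => hf.indicator (hB j))
    ((hf.indicator (hζ hZm)).const_mul _) ?_
  filter_upwards [hf0] with y hy
  have e : ∑ j ∈ J, (ζ ⁻¹' ball (lc h j) R).indicator f y =
      ((J.filter fun j => ζ y ∈ ball (lc h j) R).card : ℝ) * f y := by
    rw [← nsmul_eq_mul, ← Finset.sum_const, Finset.sum_filter]
    rfl
  rw [e]
  by_cases hyZ : ζ y ∈ Z
  · rw [indicator_of_mem (show y ∈ ζ ⁻¹' Z from hyZ)]
    refine mul_le_mul_of_nonneg_right (le_trans (Nat.cast_le.2 (Finset.card_le_card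
      fun j hj => ?_)) ((hL h hh).2 J (ζ y) R hR)) hy
    obtain ⟨h1, h2⟩ := Finset.mem_filter.1 hj
    exact Finset.mem_filter.2 ⟨h1, (mem_ball_iff_norm.1 h2).le⟩
  · rw [indicator_of_notMem (show y ∉ ζ ⁻¹' Z from hyZ), mul_zero,
      Finset.filter_eq_empty_iff.2 fun j hj h1 => hyZ (hZ j hj h1)]
    simp

end Pool.Agent.MP_f6c0e6_an.Gen

end

section

/-! Covering and the bound in L2. -/

set_option autoImplicit false

open MeasureTheory Filter Topology Set Metric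
open scoped ENNReal RealInnerProductSpace

namespace Pool.Agent.MP_f6c0e6_an.Gen

variable {m N : ℕ}

/-- Vitali covering for the set where a measure has a large ratio at some scale -/
theorem exists_vitali (ν : Measure (E m)) [IsFiniteMeasure ν] {lam s₀ : ℝ} (hl : 0 < lam)
    (Z : Set (E m)) (s : E m → ℝ) (hs : ∀ ξ ∈ Z, 0 < s ξ ∧ s ξ ≤ s₀ ∧
      lam * s ξ ^ m ≤ (ν (ball ξ (s ξ))).toReal) :
    ∃ u : Set (E m), u ⊆ Z ∧ u.Countable ∧ Z ⊆ ⋃ ξ ∈ u, ball ξ (6 * s ξ) ∧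
      ∑' ξ : u, ENNReal.ofReal (lam * s ξ ^ m) ≤ ν (⋃ ξ ∈ Z, ball ξ (s ξ)) := by
  obtain ⟨u, huZ, hdis, hcov⟩ := Vitali.exists_disjoint_subfamily_covering_enlargement_ball Z
    (fun ξ => ξ) s s₀ (fun a ha => (hs a ha).2.1) 6 (by norm_num)
  have hc : u.Countable := hdis.countable_of_isOpen (fun _ _ => isOpen_ball)
    fun a ha => nonempty_ball.2 (hs a (huZ ha)).1
  refine ⟨u, huZ, hc, fun a ha => ?_, ?_⟩
  · obtain ⟨b, hb, hab⟩ := hcov a ha
    exact mem_biUnion hb (hab (mem_ball_self (hs a ha).1))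
  · calc ∑' ξ : u, ENNReal.ofReal (lam * s ξ ^ m) ≤ ∑' ξ : u, ν (ball (ξ : E m) (s ξ)) :=
          ENNReal.tsum_le_tsum fun ξ =>
            ENNReal.ofReal_le_of_le_toReal (hs ξ (huZ ξ.2)).2.2
      _ = ν (⋃ ξ ∈ u, ball ξ (s ξ)) :=
          (measure_biUnion hc hdis fun _ _ => measurableSet_ball).symm
      _ ≤ ν (⋃ ξ ∈ Z, ball ξ (s ξ)) := measure_mono (biUnion_subset_biUnion_left huZ)

theorem weak_max (hm : 1 ≤ m) (ν : Measure (E m)) [IsFiniteMeasure ν] {lam : ℝ} (hl : 0 < lam) :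
    volume {ξ : E m | ∃ s, 0 < s ∧ lam * s ^ m < (ν (ball ξ s)).toReal} ≤
      ENNReal.ofReal (12 ^ m / lam) * ν univ := by
  set Z := {ξ : E m | ∃ s, 0 < s ∧ lam * s ^ m < (ν (ball ξ s)).toReal} with hZ
  have h1 : ∀ ξ : E m, ∃ s : ℝ, ξ ∈ Z → 0 < s ∧ lam * s ^ m < (ν (ball ξ s)).toReal := by
    intro ξ
    by_cases h : ξ ∈ Z
    · obtain ⟨s, hs⟩ := h
      exact ⟨s, fun _ => hs⟩
    · exact ⟨0, fun h' => absurd h' h⟩
  choose s hs using h1
  obtain ⟨u, huZ, hc, hcov, hsum⟩ := exists_vitali ν (s₀ := 1 + (ν univ).toReal / lam) hl Z s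
    (fun ξ hξ => by
      obtain ⟨h0, h2⟩ := hs ξ hξ
      refine ⟨h0, ?_, h2.le⟩
      have h3 : (ν (ball ξ (s ξ))).toReal ≤ (ν univ).toReal :=
        ENNReal.toReal_mono (measure_ne_top _ _) (measure_mono (subset_univ _))
      have h4 : s ξ ^ m ≤ (ν univ).toReal / lam := by
        rw [le_div_iff₀ hl]
        linarith
      have h5 : 0 ≤ (ν univ).toReal / lam := div_nonneg ENNReal.toReal_nonneg hl.le
      rcases le_total (s ξ) 1 with h6 | h6
      · linarith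
      · have h7 : s ξ ≤ s ξ ^ m := le_self_pow₀ h6 (by omega)
        linarith)
  calc volume Z ≤ volume (⋃ ξ ∈ u, ball ξ (6 * s ξ)) := measure_mono hcov
    _ ≤ ∑' ξ : u, volume (ball (ξ : E m) (6 * s ξ)) := measure_biUnion_le _ hc _
    _ ≤ ∑' ξ : u, ENNReal.ofReal (12 ^ m / lam) * ENNReal.ofReal (lam * s ξ ^ m) := by
        refine ENNReal.tsum_le_tsum fun ξ => ?_
        have h0 := (hs ξ (huZ ξ.2)).1
        have h6 := (volume_ball_le (ξ : E m) (r := 6 * s ξ) (by positivity)).1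
        have h7 : volume (closedBall (ξ : E m) (6 * s ξ)) ≠ ⊤ :=
          (isCompact_closedBall _ _).measure_lt_top.ne
        refine (measure_mono ball_subset_closedBall).trans ?_
        rw [← ENNReal.ofReal_mul (by positivity), ← ENNReal.ofReal_toReal h7]
        refine ENNReal.ofReal_le_ofReal (h6.trans (le_of_eq ?_))
        have h5 : 12 ^ m / lam * (lam * s ξ ^ m) = 12 ^ m * s ξ ^ m := by field_simp
        rw [h5, mul_pow, ← mul_assoc, ← mul_pow]
        norm_num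
    _ = ENNReal.ofReal (12 ^ m / lam) * ∑' ξ : u, ENNReal.ofReal (lam * s ξ ^ m) :=
        ENNReal.tsum_mul_left
    _ ≤ ENNReal.ofReal (12 ^ m / lam) * ν univ := by
        gcongr
        exact hsum.trans (measure_mono (subset_univ _))

/-- the singular kernel -/
noncomputable def czK (a b : ℝ) (i j : Fin m) (v : E m) : ℝ :=
  ⟪ev i, fderiv ℝ (fun x : E m => Gt a b x • x) v (ev j)⟫

theorem CZA_integrable {g : E m → ℝ} (hg : Measurable g) {M ρ : ℝ}
    (hM : ∀ x, |g x| ≤ M) (hρ : ∀ x, ρ ≤ ‖x‖ → g x = 0) : Integrable g := by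
  have h1 : ∀ x, x ∉ closedBall (0 : E m) ρ → g x = 0 := fun x hx =>
    hρ x (by simpa using (le_of_lt (by simpa using hx) : ρ ≤ ‖x‖))
  have h2 : IntegrableOn g (closedBall (0 : E m) ρ) :=
    Measure.integrableOn_of_bounded (isCompact_closedBall 0 ρ).measure_lt_top.ne
      hg.aestronglyMeasurable (Eventually.of_forall hM)
  exact (integrableOn_iff_integrable_of_support_subset
    (Function.support_subset_iff'.2 h1)).1 h2

theorem CZA_cpt {k : E m → ℝ} {b : ℝ} (h : ∀ v, b ≤ ‖v‖ → k v = 0) : HasCompactSupport k :=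
  HasCompactSupport.intro (isCompact_closedBall 0 b) fun x hx =>
    h x (by simpa using (le_of_lt (by simpa using hx) : b ≤ ‖x‖))

theorem CZA_hess {u : E m → ℝ} (hu : ContDiff ℝ 2 u) (hc : HasCompactSupport u) (i j : Fin m) :
    Integrable fun x => (fderiv ℝ (fderiv ℝ u) x (ev i) (ev j)) ^ 2 := by
  have h1 : ContDiff ℝ 1 (fderiv ℝ u) := hu.fderiv_right (by norm_num)
  have h2 : Continuous (fderiv ℝ (fderiv ℝ u)) := h1.continuous_fderiv (by norm_num)
  have h3 : HasCompactSupport (fderiv ℝ (fderiv ℝ u)) := (hc.fderiv ℝ).fderiv ℝ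
  refine Continuous.integrable_of_hasCompactSupport ?_ (h3.mono fun x hx h => hx ?_)
  · exact ((h2.clm_apply continuous_const).clm_apply continuous_const).pow 2
  · simp [h]

/-- The `L²` bound: `U = Gm a b * g` is of class `C²` with compact support, its Hessian is
`- czK * g` (`conv_meas`, `hess_Gm`), its Laplacian is `(rho b - rho a) * g`; use
`integral_sq_hess` and `young_L2`. -/
theorem cz_L2 {a b : ℝ} (ha : 0 < a) (hab : a ≤ b) (i j : Fin m) {g : E m → ℝ} (hg : Measurable g)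
    {M ρ : ℝ} (hM : ∀ x, |g x| ≤ M) (hρ : ∀ x, ρ ≤ ‖x‖ → g x = 0) :
    Integrable (fun ξ => (∫ x, czK a b i j (x - ξ) * g x) ^ 2) ∧
      ∫ ξ, (∫ x, czK a b i j (x - ξ) * g x) ^ 2 ≤ 4 * ∫ x, g x ^ 2 := by
  have hi := CZA_integrable hg hM hρ
  have hb : 0 < b := ha.trans_le hab
  have hG : ContDiff ℝ 2 (Gm a b : E m → ℝ) := (contDiff_Gm ha hab).1.of_le (by norm_num)
  have hGc : HasCompactSupport (Gm a b : E m → ℝ) := CZA_cpt fun v hv => (Gm_eq_zero ha hab hv).1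
  obtain ⟨a0, hbd⟩ := exists_Bd2 hG hGc
  obtain ⟨hU, -, hH, hL⟩ := conv_meas (volume : Measure (E m)) (ζ := fun x => x) measurable_id hi
    hG hbd
  set U : E m → ℝ := fun ξ => ∫ y, Gm a b (y - ξ) • g y with hUdef
  have hUc : HasCompactSupport U := by
    refine CZA_cpt (b := ρ + b) fun ξ hξ => ?_
    have : ∀ y, Gm a b (y - ξ) • g y = 0 := by
      intro y
      rcases le_total ρ ‖y‖ with h | h
      · rw [hρ y h, smul_zero]
      · have h1 : b ≤ ‖y - ξ‖ := by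
          have := norm_sub_norm_le ξ y
          rw [norm_sub_rev] at this
          linarith
        rw [(Gm_eq_zero ha hab h1).1, zero_smul]
    simp only [hUdef, this, integral_zero]
  have e1 : (fun ξ => (∫ x, czK a b i j (x - ξ) * g x) ^ 2) =
      fun ξ => (fderiv ℝ (fderiv ℝ U) ξ (ev j) (ev i)) ^ 2 := by
    funext ξ
    rw [hH ξ (ev j) (ev i)]
    have : ∀ y, fderiv ℝ (fderiv ℝ (Gm a b)) (y - ξ) (ev j) (ev i) • g y =
        -(czK a b i j (y - ξ) * g y) := by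
      intro y
      rw [hess_Gm ha hab, smul_eq_mul, czK, neg_mul]
    simp only [this, integral_neg, neg_sq]
  have hg2 : Integrable fun x => g x ^ 2 := by
    simp_rw [sq]
    exact hi.mul_bdd hg.aestronglyMeasurable (Eventually.of_forall fun x => by simpa using hM x)
  rw [e1]
  refine ⟨CZA_hess hU hUc j i, ?_⟩
  have hk : Continuous fun v : E m => rho b v - rho a v :=
    (contDiff_rho b).continuous.sub (contDiff_rho a).continuous
  have hkc : HasCompactSupport fun v : E m => rho b v - rho a v :=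
    CZA_cpt (b := b) fun v hv => by
      rw [rho_eq_zero hb hv, rho_eq_zero ha (hab.trans hv), sub_zero]
  have hr : ∀ r : ℝ, 0 < r → Integrable (rho r : E m → ℝ) ∧ ∫ x : E m, rho r x = 1 := by
    intro r hr
    have h1 : ∫ x : E m, rho r x = 1 := by simpa using integral_rho hr (0 : E m)
    exact ⟨Integrable.of_integral_ne_zero (by rw [h1]; exact one_ne_zero), h1⟩
  have hk2 : ∫ v : E m, |rho b v - rho a v| ≤ 2 := by
    have h1 : ∫ v : E m, |rho b v - rho a v| ≤ ∫ v : E m, (rho b v + rho a v) := by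
      refine integral_mono ((hr b hb).1.sub (hr a ha).1).abs ((hr b hb).1.add (hr a ha).1)
        fun v => ?_
      have := rho_nonneg hb v
      have := rho_nonneg ha v
      simp only [abs_le]
      constructor <;> linarith
    rw [integral_add (hr b hb).1 (hr a ha).1, (hr b hb).2, (hr a ha).2] at h1
    linarith
  have hY := (young_L2 hk hkc hk2 hg hg2 hi).2
  have e2 : (fun ξ => (lap U ξ) ^ 2) =
      fun ξ => (∫ x, (rho b (x - ξ) - rho a (x - ξ)) * g x) ^ 2 := by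
    funext ξ
    rw [hL ξ]
    simp only [lap_Gm ha hab, smul_eq_mul]
  calc ∫ ξ, (fderiv ℝ (fderiv ℝ U) ξ (ev j) (ev i)) ^ 2
      ≤ ∫ ξ, ∑ i, ∑ j, (fderiv ℝ (fderiv ℝ U) ξ (ev i) (ev j)) ^ 2 := by
        refine integral_mono (CZA_hess hU hUc j i)
          (integrable_finsetSum _ fun i _ => integrable_finsetSum _ fun j _ =>
            CZA_hess hU hUc i j) fun ξ => ?_
        exact (Finset.single_le_sum (f := fun i' => (fderiv ℝ (fderiv ℝ U) ξ (ev j) (ev i')) ^ 2)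
          (fun _ _ => sq_nonneg _) (Finset.mem_univ i)).trans
          (Finset.single_le_sum
            (f := fun j' => ∑ i', (fderiv ℝ (fderiv ℝ U) ξ (ev j') (ev i')) ^ 2)
            (fun _ _ => Finset.sum_nonneg fun _ _ => sq_nonneg _) (Finset.mem_univ j))
    _ = ∫ ξ, (lap U ξ) ^ 2 := integral_sq_hess hU hUc
    _ ≤ 2 ^ 2 * ∫ x, g x ^ 2 := by rw [e2]; exact hY
    _ = 4 * ∫ x, g x ^ 2 := by norm_num

end Pool.Agent.MP_f6c0e6_an.Gen

end

section

/-! The contraction lemma. -/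

set_option autoImplicit false

open MeasureTheory Filter Topology Set Metric
open scoped ENNReal RealInnerProductSpace

namespace Pool.Agent.MP_f6c0e6_an.Gen

variable {m N : ℕ}

/-- a finite sum of kernels; the entries are centre, radius and coefficient -/
noncomputable def ksum (l : List (E m × ℝ × ℝ)) (x : E m) : ℝ :=
  (l.map fun p => p.2.2 * pk p.2.1 (x - p.1)).sum

theorem Contr_append (l l' : List (E m × ℝ × ℝ)) (x : E m) :
    ksum (l ++ l') x = ksum l x + ksum l' x := by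
  simp only [ksum, List.map_append, List.sum_append]

theorem Contr_near {h : ℝ} (hh : 0 < h) (x : E m) : ∃ j : Fin m → ℤ, ‖x - lc h j‖ ≤ h / 2 := by
  obtain ⟨T, hT, -⟩ := Cut_box hh x (half_pos hh).le
  have h1 := (sum_lp_sq hh T x).2 hT
  by_contra hne
  rw [Finset.sum_eq_zero fun j _ => ?_] at h1
  · exact zero_ne_one h1
  · rw [lp_eq_zero hh j (not_le.1 fun hj => hne ⟨j, hj⟩), zero_pow two_ne_zero]

theorem Contr_net (m : ℕ) : ∃ C : ℝ, 1 ≤ C ∧ ∀ (A : Set (E m)) (h : ℝ), 0 < h →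
    Bornology.IsBounded A → ∃ (J : Finset (Fin m → ℤ)) (s : (Fin m → ℤ) → E m),
      (∀ j ∈ J, s j ∈ A) ∧ (∀ ξ ∈ A, ∃ j ∈ J, ‖ξ - s j‖ ≤ h / 2) ∧
      ∀ x, ((J.filter fun j => ‖x - s j‖ ≤ 2 * h).card : ℝ) ≤ C := by
  classical
  obtain ⟨C, hC, hL⟩ := lattice_bd m
  refine ⟨C * 6 ^ m, one_le_mul_of_one_le_of_one_le hC (one_le_pow₀ (by norm_num)),
    fun A h hh hA => ?_⟩
  obtain ⟨hfin, hcard⟩ := hL (h / 2) (half_pos hh)
  obtain ⟨R, hR0, hR⟩ := hA.exists_pos_norm_le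
  have hf : {j : Fin m → ℤ | ∃ ξ ∈ A, ‖ξ - lc (h / 2) j‖ ≤ h / 4}.Finite := by
    refine (hfin (closedBall 0 (R + h / 4)) isBounded_closedBall).subset ?_
    rintro j ⟨ξ, hξ, hj⟩
    have h1 := norm_sub_norm_le (lc (h / 2) j : E m) ξ
    rw [norm_sub_rev] at h1
    have h2 := hR ξ hξ
    rw [mem_ofPred_eq, mem_closedBall_zero_iff]
    linarith only [hj, h1, h2]
  have hch : ∀ j : Fin m → ℤ, ∃ s : E m, j ∈ hf.toFinset → s ∈ A ∧ ‖s - lc (h / 2) j‖ ≤ h / 4 := by
    intro j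
    by_cases hj : j ∈ hf.toFinset
    · obtain ⟨ξ, hξ⟩ := hf.mem_toFinset.1 hj
      exact ⟨ξ, fun _ => hξ⟩
    · exact ⟨0, fun h' => absurd h' hj⟩
  choose s hs using hch
  refine ⟨hf.toFinset, s, fun j hj => (hs j hj).1, fun ξ hξ => ?_, fun x => ?_⟩
  · obtain ⟨j, hj⟩ := Contr_near (half_pos hh) ξ
    have hj' : ‖ξ - lc (h / 2) j‖ ≤ h / 4 := by linarith
    have hm : j ∈ hf.toFinset := hf.mem_toFinset.2 ⟨ξ, hξ, hj'⟩
    refine ⟨j, hm, ?_⟩
    have h1 := norm_sub_le_norm_sub_add_norm_sub ξ (lc (h / 2) j) (s j)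
    have h2 := (hs j hm).2
    rw [norm_sub_rev] at h2
    linarith only [hj, h1, h2]
  · have h1 := hcard hf.toFinset x (3 * h) (by linarith)
    have e : 3 * h / (h / 2) = 6 := by
      field_simp
      norm_num
    rw [e] at h1
    refine (Nat.cast_le.2 (Finset.card_le_card fun j hj => ?_)).trans h1
    obtain ⟨h2, h3⟩ := Finset.mem_filter.1 hj
    refine Finset.mem_filter.2 ⟨h2, ?_⟩
    have h4 := norm_sub_le_norm_sub_add_norm_sub x (s j) (lc (h / 2) j)
    have h5 := (hs j h2).2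
    linarith only [hh, h3, h4, h5]

theorem Contr_sum {ι : Type} (J : Finset ι) (q : ι → Prop) [DecidablePred q] (f : ι → ℝ)
    {C B : ℝ} (hB : 0 ≤ B) (hC : ((J.filter q).card : ℝ) ≤ C) (h1 : ∀ j ∈ J, q j → f j ≤ B)
    (h0 : ∀ j ∈ J, ¬q j → f j ≤ 0) : ∑ j ∈ J, f j ≤ C * B := by
  rw [← Finset.sum_filter_add_sum_filter_not J q]
  have a1 : ∑ j ∈ J.filter q, f j ≤ (J.filter q).card * B := by
    rw [← nsmul_eq_mul]
    exact Finset.sum_le_card_nsmul _ _ _ fun j hj =>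
      h1 j (Finset.mem_filter.1 hj).1 (Finset.mem_filter.1 hj).2
  have a2 : ∑ j ∈ J.filter (fun j => ¬q j), f j ≤ 0 :=
    Finset.sum_nonpos fun j hj => h0 j (Finset.mem_filter.1 hj).1 (Finset.mem_filter.1 hj).2
  have a3 := mul_le_mul_of_nonneg_right hC hB
  linarith

theorem Contr_le_one {a : ℝ} (ha : 0 ≤ a) : Gam a ≤ 1 := (Gam_le_gam ha).trans (gam_le_one ha)

theorem Contr_zero {t : ℝ} (ht : 0 < t) {v : E m} (hv : t ≤ ‖v‖) : Gam (‖v‖ ^ 2 / t ^ 2) = 0 :=
  Gam_eq_zero ((one_le_div (pow_pos ht 2)).2 (pow_le_pow_left₀ ht.le hv 2))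

theorem Contr_Gam_lip {a b : ℝ} (ha : 0 ≤ a) (hb : 0 ≤ b) : Gam a - Gam b ≤ 5 * |a - b| := by
  have h1 := abs_pow_sub_pow_le (max (1 - a) 0) (max (1 - b) 0) 5
  have h2 : |max (1 - a) 0 - max (1 - b) 0| ≤ |a - b| := by
    refine (abs_max_sub_max_le_abs _ _ _).trans (le_of_eq ?_)
    rw [abs_sub_comm a b]
    congr 1
    ring
  have h3 : ∀ c : ℝ, 0 ≤ c → |max (1 - c) 0| ≤ 1 := fun c hc => by
    rw [abs_of_nonneg (le_max_right _ _)]
    exact max_le (by linarith) zero_le_one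
  have h4 : (max |max (1 - a) 0| |max (1 - b) 0|) ^ (5 - 1) ≤ 1 :=
    pow_le_one₀ ((abs_nonneg _).trans (le_max_left _ _)) (max_le (h3 a ha) (h3 b hb))
  have h5 := mul_le_mul (mul_le_mul_of_nonneg_right h2 (Nat.cast_nonneg 5)) h4
    (by positivity) (by positivity)
  have h6 := (le_abs_self _).trans (h1.trans h5)
  unfold Gam
  push_cast at h6
  linarith

theorem Contr_lip {t : ℝ} (ht : 0 < t) (v v' : E m) :
    Gam (‖v‖ ^ 2 / t ^ 2) - Gam (‖v'‖ ^ 2 / t ^ 2) ≤ 15 * (‖v - v'‖ / t) := by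
  have hd : 0 ≤ ‖v - v'‖ / t := by positivity
  have g0 := Gam_nonneg (‖v'‖ ^ 2 / t ^ 2)
  rcases le_total t ‖v‖ with hv | hv
  · rw [Contr_zero ht hv]
    linarith
  rcases le_total t ‖v - v'‖ with hw | hw
  · have h1 : 1 ≤ ‖v - v'‖ / t := (one_le_div ht).2 hw
    have h2 : Gam (‖v‖ ^ 2 / t ^ 2) ≤ 1 := Contr_le_one (by positivity)
    linarith only [g0, h1, h2]
  have h1 := Contr_Gam_lip (a := ‖v‖ ^ 2 / t ^ 2) (b := ‖v'‖ ^ 2 / t ^ 2) (by positivity)
    (by positivity)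
  have h2 : |‖v‖ - ‖v'‖| ≤ ‖v - v'‖ := abs_norm_sub_norm_le v v'
  have h3 : ‖v‖ + ‖v'‖ ≤ 3 * t := by linarith [(abs_le.1 h2).1]
  have h4 : |‖v‖ ^ 2 / t ^ 2 - ‖v'‖ ^ 2 / t ^ 2| ≤ 3 * (‖v - v'‖ / t) := by
    have e : ‖v‖ ^ 2 / t ^ 2 - ‖v'‖ ^ 2 / t ^ 2 = (‖v‖ + ‖v'‖) * (‖v‖ - ‖v'‖) / t ^ 2 := by ring
    have e' : 3 * (‖v - v'‖ / t) = 3 * t * ‖v - v'‖ / t ^ 2 := by field_simp
    rw [e, e', abs_div, abs_mul, abs_of_nonneg (by positivity : 0 ≤ ‖v‖ + ‖v'‖),
      abs_of_pos (pow_pos ht 2)]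
    exact div_le_div_of_nonneg_right (mul_le_mul h3 h2 (abs_nonneg _) (by positivity))
      (pow_pos ht 2).le
  linarith only [h1, h4]

theorem Contr_exp {x : ℝ} (hx : x ≤ 1 / 4) : Real.exp x ≤ 2 := by
  have h1 := Real.add_one_le_exp (-x)
  have h2 : Real.exp x * Real.exp (-x) = 1 := by rw [← Real.exp_add, add_neg_cancel, Real.exp_zero]
  have h3 := Real.exp_pos x
  nlinarith

theorem Contr_key {a a' f f' u e : ℝ} (ha : 0 < a) (h1 : a' ≤ a * e)
    (h2 : f - f' ≤ 240 / 244 * u * a) (h3 : f ≤ 2 / 244 * a) (hu : 0 ≤ u) (he : u + 1 ≤ e) :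
    a' - f' ≤ (a - f) * (e * e) := by
  have p1 : 0 ≤ e - 1 := by linarith
  have p2 : 0 ≤ e * e - 1 := by nlinarith only [hu, he]
  have q1 : f * (e * e - 1) ≤ 2 / 244 * a * (e * e - 1) := mul_le_mul_of_nonneg_right h3 p2
  have q2 : u * a ≤ (e - 1) * a := mul_le_mul_of_nonneg_right (by linarith only [he]) ha.le
  have q3 : 0 ≤ a * ((e - 1) * (e - 1)) := mul_nonneg ha.le (mul_nonneg p1 p1)
  nlinarith only [h1, h2, q1, q2, q3]

theorem Contr_step (m : ℕ) : ∃ c : ℝ, 0 < c ∧ c ≤ 1 / 2 ∧ ∀ (Ω : E m → ℝ) (h : ℝ)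
    (Z : Set (E m)) (P : E m → ℝ → Prop), 0 < h → Bornology.IsBounded Z → (∀ x, 0 < Ω x) →
    (∀ x x', Ω x' ≤ Ω x * Real.exp (‖x - x'‖ / (8 * h))) →
    ∃ l : List (E m × ℝ × ℝ),
      (∀ p ∈ l, p.1 ∈ Z ∧ P p.1 p.2.1 ∧ h ≤ p.2.1 ∧ p.2.1 ≤ 2 * h ∧ 0 ≤ p.2.2) ∧
      (∀ x, 0 ≤ ksum l x) ∧ (∀ x, 0 < Ω x - ksum l x) ∧
      (∀ x x', Ω x' - ksum l x' ≤ (Ω x - ksum l x) * Real.exp (‖x - x'‖ / (4 * h))) ∧
      ∀ ξ ∈ Z, (∃ t ∈ Icc h (2 * h), P ξ t) → Ω ξ - ksum l ξ ≤ (1 - c) * Ω ξ := by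
  classical
  obtain ⟨C, hC, hN⟩ := Contr_net m
  have hC0 : 0 < C := by linarith
  obtain ⟨c, hc⟩ : ∃ c : ℝ, c = 1 / (244 * C) := ⟨_, rfl⟩
  have hc0 : 0 < c := by
    rw [hc]
    positivity
  have hcC : c * C = 1 / 244 := by
    rw [hc]
    field_simp
  have hc1 : c ≤ 1 / 244 := by nlinarith only [hcC, hC, hc0]
  refine ⟨c / 10, by positivity, by linarith, fun Ω h Z P hh hZ hΩ hL => ?_⟩
  obtain ⟨J, s, hsA, hcov, hcard⟩ := hN {ξ | ξ ∈ Z ∧ ∃ t ∈ Icc h (2 * h), P ξ t} h hh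
    (hZ.subset fun ξ hξ => hξ.1)
  have hch : ∀ j : Fin m → ℤ, ∃ t : ℝ, j ∈ J → t ∈ Icc h (2 * h) ∧ P (s j) t := by
    intro j
    by_cases hj : j ∈ J
    · obtain ⟨t, ht⟩ := (hsA j hj).2
      exact ⟨t, fun _ => ht⟩
    · exact ⟨0, fun h' => absurd h' hj⟩
  choose t ht using hch
  have ht0 : ∀ j ∈ J, 0 < t j := fun j hj => hh.trans_le (ht j hj).1.1
  have hcg := cg_pos m
  obtain ⟨F, hF⟩ : ∃ F : E m → ℝ, ∀ x, F x = ∑ j ∈ J, Ω (s j) * Gam (‖x - s j‖ ^ 2 / t j ^ 2) :=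
    ⟨_, fun _ => rfl⟩
  have hk : ∀ x, ksum (J.toList.map fun j =>
      (s j, t j, c * Ω (s j) * (10 * cg m * t j ^ m / t j ^ 2))) x = c * F x := by
    intro x
    unfold ksum
    rw [List.map_map, Finset.sum_map_toList, hF, Finset.mul_sum]
    refine Finset.sum_congr rfl fun j hj => ?_
    have := (ht0 j hj).ne'
    simp only [Function.comp, pk]
    field_simp
  have hnear : ∀ x j, ‖x - s j‖ ≤ 2 * h → Ω (s j) ≤ 2 * Ω x := fun x j hj => by
    have h1 : Real.exp (‖x - s j‖ / (8 * h)) ≤ 2 :=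
      Contr_exp ((div_le_iff₀ (by positivity)).2 (by linarith only [hj]))
    have h2 := mul_le_mul_of_nonneg_left h1 (hΩ x).le
    linarith [hL x (s j)]
  have hfar : ∀ x, ∀ j ∈ J, ¬‖x - s j‖ ≤ 2 * h → Gam (‖x - s j‖ ^ 2 / t j ^ 2) = 0 :=
    fun x j hj h' => Contr_zero (ht0 j hj) ((ht j hj).1.2.trans (not_le.1 h').le)
  have F0 : ∀ x, 0 ≤ F x := fun x => by
    rw [hF]
    exact Finset.sum_nonneg fun j _ => mul_nonneg (hΩ _).le (Gam_nonneg _)
  have F1 : ∀ x, c * F x ≤ 2 / 244 * Ω x := fun x => by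
    have h1 : F x ≤ C * (2 * Ω x) := by
      rw [hF]
      refine Contr_sum J _ _ (by linarith [hΩ x]) (hcard x) (fun j _ hq => ?_) fun j hj hq => ?_
      · exact (mul_le_of_le_one_right (hΩ _).le (Contr_le_one (by positivity))).trans
          (hnear x j hq)
      · rw [hfar x j hj hq, mul_zero]
    calc c * F x ≤ c * (C * (2 * Ω x)) := mul_le_mul_of_nonneg_left h1 hc0.le
      _ = c * C * (2 * Ω x) := by ring
      _ = 2 / 244 * Ω x := by
          rw [hcC]
          ring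
  have F2 : ∀ x x', c * F x - c * F x' ≤ 240 / 244 * (‖x - x'‖ / (8 * h)) * Ω x := fun x x' => by
    have hd : 0 ≤ 15 * (‖x - x'‖ / h) := by positivity
    have h1 : F x - F x' ≤ C * (2 * Ω x * (15 * (‖x - x'‖ / h))) := by
      rw [hF, hF, ← Finset.sum_sub_distrib]
      refine Contr_sum J _ _ (mul_nonneg (by linarith [hΩ x]) hd) (hcard x)
        (fun j hj hq => ?_) fun j hj hq => ?_
      · have h2 := Contr_lip (ht0 j hj) (x - s j) (x' - s j)
        rw [sub_sub_sub_cancel_right] at h2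
        have h3 : ‖x - x'‖ / t j ≤ ‖x - x'‖ / h :=
          div_le_div_of_nonneg_left (norm_nonneg _) hh (ht j hj).1.1
        rw [← mul_sub]
        exact (mul_le_mul_of_nonneg_left (h2.trans (by linarith only [h3])) (hΩ _).le).trans
          (mul_le_mul_of_nonneg_right (hnear x j hq) hd)
      · rw [hfar x j hj hq, mul_zero, zero_sub, neg_nonpos]
        exact mul_nonneg (hΩ _).le (Gam_nonneg _)
    calc c * F x - c * F x' = c * (F x - F x') := by ring
      _ ≤ c * (C * (2 * Ω x * (15 * (‖x - x'‖ / h)))) := mul_le_mul_of_nonneg_left h1 hc0.le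
      _ = c * C * (2 * Ω x * (15 * (‖x - x'‖ / h))) := by ring
      _ = 240 / 244 * (‖x - x'‖ / (8 * h)) * Ω x := by
          rw [hcC]
          field_simp
          ring
  refine ⟨J.toList.map fun j => (s j, t j, c * Ω (s j) * (10 * cg m * t j ^ m / t j ^ 2)),
    fun p hp => ?_, fun x => ?_, fun x => ?_, fun x x' => ?_, fun ξ hξ hP => ?_⟩
  rotate_left
  · rw [hk]
    exact mul_nonneg hc0.le (F0 x)
  · rw [hk]
    linarith only [F1 x, hΩ x]
  · rw [hk, hk]
    have e : ‖x - x'‖ / (4 * h) = ‖x - x'‖ / (8 * h) + ‖x - x'‖ / (8 * h) := by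
      field_simp
      ring
    rw [e, Real.exp_add]
    exact Contr_key (hΩ x) (hL x x') (F2 x x') (F1 x) (by positivity) (Real.add_one_le_exp _)
  · rw [hk]
    obtain ⟨j, hj, hd⟩ := hcov ξ ⟨hξ, hP⟩
    have h1 : Ω (s j) * Gam (‖ξ - s j‖ ^ 2 / t j ^ 2) ≤ F ξ := by
      rw [hF]
      exact Finset.single_le_sum (f := fun j => Ω (s j) * Gam (‖ξ - s j‖ ^ 2 / t j ^ 2))
        (fun j _ => mul_nonneg (hΩ _).le (Gam_nonneg _)) hj
    have h2 : ‖ξ - s j‖ ^ 2 / t j ^ 2 ≤ 1 / 4 := by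
      rw [div_le_iff₀ (pow_pos (ht0 j hj) 2)]
      have h3 : ‖ξ - s j‖ ≤ t j / 2 := by linarith [(ht j hj).1.1]
      have h4 := pow_le_pow_left₀ (norm_nonneg _) h3 2
      linarith only [h4, show (t j / 2) ^ 2 = 1 / 4 * t j ^ 2 by ring]
    have h3 : 1 / 5 ≤ Gam (‖ξ - s j‖ ^ 2 / t j ^ 2) := by
      refine le_trans ?_ (Gam_anti h2)
      unfold Gam
      rw [max_eq_left (by norm_num)]
      norm_num
    have h4 : Ω ξ ≤ 2 * Ω (s j) := by
      have h5 : Real.exp (‖s j - ξ‖ / (8 * h)) ≤ 2 := by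
        rw [norm_sub_rev]
        exact Contr_exp ((div_le_iff₀ (by positivity)).2 (by linarith only [hh, hd]))
      have h6 := mul_le_mul_of_nonneg_left h5 (hΩ (s j)).le
      linarith only [h6, hL (s j) ξ]
    have h5 := mul_le_mul_of_nonneg_left h3 (hΩ (s j)).le
    have h6 : Ω ξ / 10 ≤ F ξ := by linarith only [h1, h4, h5]
    have h7 := mul_le_mul_of_nonneg_left h6 hc0.le
    linarith only [h7]
  · obtain ⟨j, hj, rfl⟩ := List.mem_map.1 hp
    have hj' := Finset.mem_toList.1 hj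
    have h1 := ht0 j hj'
    have h2 := hΩ (s j)
    exact ⟨(hsA j hj').1, (ht j hj').2, (ht j hj').1.1, (ht j hj').1.2, by positivity⟩

theorem Contr_fin {Ω : E m → ℝ} {B H : ℝ} (hH : 0 < H) (h0 : ∀ x, 0 < Ω x) (hB : ∀ x, Ω x ≤ B)
    (hL : ∀ x x', Ω x' ≤ Ω x * Real.exp (‖x - x'‖ / (4 * H))) (x x' : E m) :
    Ω x' - Ω x ≤ B / H * ‖x - x'‖ := by
  have h1 := Real.add_one_le_exp (-(‖x - x'‖ / (4 * H)))
  have h2 : Ω x' * Real.exp (-(‖x - x'‖ / (4 * H))) ≤ Ω x := by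
    rw [Real.exp_neg, ← div_eq_mul_inv, div_le_iff₀ (Real.exp_pos _)]
    exact hL x x'
  have h3 := mul_le_mul_of_nonneg_left h1 (h0 x').le
  have hd : 0 ≤ ‖x - x'‖ / (4 * H) := by positivity
  have h4 := mul_le_mul_of_nonneg_right (hB x') hd
  have hB0 : 0 < B := (h0 x).trans_le (hB x)
  have h5 : B * (‖x - x'‖ / (4 * H)) = B / H * ‖x - x'‖ / 4 := by field_simp
  have h6 : 0 ≤ B / H * ‖x - x'‖ := by positivity
  nlinarith only [h2, h3, h4, h5, h6]

open Classical in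
/-- Downward induction on the windows `l = j - 1, ..., i`, with `h = r 2 ^ l`. Invariant before the
window `l`: the remainder `Ω = ω + κ - ksum` is positive and
`Ω x' ≤ Ω x * exp (‖x - x'‖ / (8 h))`. Step: take a maximal `h / 2`-separated (finite) subset of
the points of `Z` that have an admissible radius `t ∈ [h, 2 h]`, and put
`Ω' = Ω - c ∑ Ω (ξ) Gam (|x - ξ|² / t²) = Ω (1 - c G)`, where `0 ≤ G ≤ C` and `G` is Lipschitz with
constant `C / h` (bounded overlap). For small `c` the logarithm of `1 - c G` is Lipschitz with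
constant `1 / (8 h)`, which gives the invariant for `h / 2`, and at the points of `Z` with an
admissible radius `G ≥ (3 / 4) ^ 5 / e`. -/
theorem contraction (m : ℕ) : ∃ c₀ : ℝ, 0 < c₀ ∧ c₀ ≤ 1 / 2 ∧ ∀ (ω : E m → ℝ) (K κ M r : ℝ)
    (i j : ℕ) (Z : Set (E m)) (P : E m → ℝ → Prop), 0 < r → 0 < κ → i ≤ j →
    (∀ x, 0 ≤ ω x ∧ ω x ≤ M) → Lip K ω → 0 ≤ K → K * (r * 2 ^ j) ≤ κ / 4 →
    Bornology.IsBounded Z →
    ∃ l : List (E m × ℝ × ℝ),
      (∀ p ∈ l, p.1 ∈ Z ∧ P p.1 p.2.1 ∧ r * 2 ^ i ≤ p.2.1 ∧ p.2.1 ≤ r * 2 ^ j ∧ 0 ≤ p.2.2) ∧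
      (∀ x, ksum l x ≤ ω x + κ) ∧
      (∀ ξ ∈ Z, ω ξ + κ - ksum l ξ ≤ (1 - c₀) ^ ((Finset.Ico i j).filter fun n =>
        ∃ t ∈ Icc (r * 2 ^ n) (2 * (r * 2 ^ n)), P ξ t).card * (ω ξ + κ)) ∧
      Lip ((M + κ) / (r * 2 ^ i)) fun x => ω x - ksum l x := by
  obtain ⟨c, hc0, hc1, hstep⟩ := Contr_step m
  refine ⟨c, hc0, hc1, fun ω K κ M r i j Z P hr hκ hij hω hLip hK hKr hZ => ?_⟩
  have main : ∀ k n : ℕ, n + k = j → ∃ l : List (E m × ℝ × ℝ),
      (∀ p ∈ l, p.1 ∈ Z ∧ P p.1 p.2.1 ∧ r * 2 ^ n ≤ p.2.1 ∧ p.2.1 ≤ r * 2 ^ j ∧ 0 ≤ p.2.2) ∧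
      (∀ x, 0 ≤ ksum l x) ∧ (∀ x, 0 < ω x + κ - ksum l x) ∧
      (∀ x x', ω x' + κ - ksum l x' ≤
        (ω x + κ - ksum l x) * Real.exp (‖x - x'‖ / (4 * (r * 2 ^ n)))) ∧
      ∀ ξ ∈ Z, ω ξ + κ - ksum l ξ ≤ (1 - c) ^ ((Finset.Ico n j).filter fun n =>
        ∃ t ∈ Icc (r * 2 ^ n) (2 * (r * 2 ^ n)), P ξ t).card * (ω ξ + κ) := by
    intro k
    induction k with
    | zero =>
      intro n hn
      obtain rfl : n = j := by omega
      have e : ∀ x : E m, ksum [] x = 0 := fun x => rfl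
      refine ⟨[], fun p hp => absurd hp List.not_mem_nil, fun x => (e x).ge, fun x => ?_,
        fun x x' => ?_, fun ξ _ => ?_⟩
      · rw [e]
        linarith only [hκ, (hω x).1]
      · rw [e, e, sub_zero, sub_zero]
        have hH : 0 < r * 2 ^ n := by positivity
        have h1 := hLip x' x
        rw [norm_sub_rev x' x, Real.norm_eq_abs] at h1
        have h2 := (le_abs_self _).trans h1
        have h3 := Real.add_one_le_exp (‖x - x'‖ / (4 * (r * 2 ^ n)))
        have h4 : 0 ≤ ω x + κ := by linarith only [hκ, (hω x).1]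
        have h5 := mul_le_mul_of_nonneg_left h3 h4
        have hd : 0 ≤ ‖x - x'‖ / (4 * (r * 2 ^ n)) := by positivity
        have h6 := mul_nonneg (hω x).1 hd
        have h7 : K * ‖x - x'‖ = 4 * (K * (r * 2 ^ n)) * (‖x - x'‖ / (4 * (r * 2 ^ n))) := by
          field_simp
        have h8 : 4 * (K * (r * 2 ^ n)) * (‖x - x'‖ / (4 * (r * 2 ^ n))) ≤
            κ * (‖x - x'‖ / (4 * (r * 2 ^ n))) := mul_le_mul_of_nonneg_right (by linarith) hd
        linarith only [h2, h5, h6, h7, h8]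
      · rw [e, Finset.Ico_self, Finset.filter_empty, Finset.card_empty, pow_zero, one_mul,
          sub_zero]
    | succ k ih =>
      intro n hn
      obtain ⟨l, a1, a2, a3, a4, a5⟩ := ih (n + 1) (by omega)
      have hH : 0 < r * 2 ^ n := by positivity
      have e8 : 4 * (r * 2 ^ (n + 1)) = 8 * (r * 2 ^ n) := by ring
      rw [e8] at a4
      obtain ⟨l', b1, b2, b3, b4, b5⟩ := hstep (fun x => ω x + κ - ksum l x) (r * 2 ^ n) Z P hH hZ
        a3 a4
      have e : ∀ x, ω x + κ - ksum (l ++ l') x = ω x + κ - ksum l x - ksum l' x := fun x => by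
        rw [Contr_append]
        ring
      have hp1 : r * 2 ^ (n + 1) = 2 * (r * 2 ^ n) := by ring
      have hp2 : r * 2 ^ (n + 1) ≤ r * 2 ^ j :=
        mul_le_mul_of_nonneg_left (pow_le_pow_right₀ (by norm_num) (by omega)) hr.le
      refine ⟨l ++ l', fun p hp => ?_, fun x => ?_, fun x => ?_, fun x x' => ?_, fun ξ hξ => ?_⟩
      · rcases List.mem_append.1 hp with hp | hp
        · obtain ⟨c1, c2, c3, c4, c5⟩ := a1 p hp
          exact ⟨c1, c2, by linarith, c4, c5⟩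
        · obtain ⟨c1, c2, c3, c4, c5⟩ := b1 p hp
          exact ⟨c1, c2, c3, by linarith, c5⟩
      · rw [Contr_append]
        exact add_nonneg (a2 x) (b2 x)
      · rw [e]
        exact b3 x
      · rw [e, e]
        exact b4 x x'
      · have hI : Finset.Ico n j = insert n (Finset.Ico (n + 1) j) := by
          ext q
          simp only [Finset.mem_Ico, Finset.mem_insert]
          omega
        rw [e, hI, Finset.filter_insert]
        split_ifs with hP
        · rw [Finset.card_insert_of_notMem (by simp), pow_succ', mul_assoc]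
          exact (b5 ξ hξ hP).trans (mul_le_mul_of_nonneg_left (a5 ξ hξ) (by linarith only [hc0, hc1]))
        · linarith [a5 ξ hξ, b2 ξ]
  obtain ⟨l, a1, a2, a3, a4, a5⟩ := main (j - i) i (by omega)
  refine ⟨l, a1, fun x => by linarith [a3 x], a5, fun x x' => ?_⟩
  have hH : 0 < r * 2 ^ i := by positivity
  have hB : ∀ x, ω x + κ - ksum l x ≤ M + κ := fun x => by linarith [a2 x, (hω x).2]
  have h1 := Contr_fin (Ω := fun x => ω x + κ - ksum l x) hH a3 hB a4 x x'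
  have h2 := Contr_fin (Ω := fun x => ω x + κ - ksum l x) hH a3 hB a4 x' x
  rw [norm_sub_rev x' x] at h2
  rw [Real.norm_eq_abs, abs_le]
  constructor <;> linarith only [h1, h2]

end Pool.Agent.MP_f6c0e6_an.Gen

end
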