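import Pool.Agent.MP_f6c0e6_an.All.Lock
import Pool.Agent.MP_f6c0e6_an.All.Conv
import Pool.Agent.MP_f6c0e6_an.All.ChartC
import Pool.Agent.MP_f6c0e6_an.All.ChartB

section

/-! Elementary facts on the base model. -/

set_option autoImplicit false

open MeasureTheory Filter Topology Set Metric
open scoped ENNReal RealInnerProductSpace

namespace Pool.Agent.MP_f6c0e6_an.Gen

variable {m N : ℕ}

/-- the square height over a set of foot points -/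
noncomputable def Lk.II {c : ℝ} {Ω : Type} [MeasurableSpace Ω] (B : Lk m c Ω) (Z : Set (E m)) : ℝ :=
  ∫ y in B.ζ ⁻¹' Z, B.h y ∂B.μ

namespace Base

variable {c : ℝ} {Ω : Type} [MeasurableSpace Ω] (B : Base m c Ω)

/-- the ball for the distance `√r2` -/
def bl (t : ℝ) : Set (E m) := {ξ | B.r2 ξ < t ^ 2}

/-- further properties of the model -/
structure Ex (A : ℝ) : Prop where
  star : ∀ ξ (t : ℝ), 0 ≤ t → t ≤ 1 → B.r2 (B.ξ₀ + t • (ξ - B.ξ₀)) ≤ B.r2 ξ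
  lip : ∀ ξ ξ', |√(B.r2 ξ) - √(B.r2 ξ')| ≤ 2 * ‖ξ - ξ'‖
  mass : ∀ ξ ρ, B.T ≤ ρ → (B.μ (B.ζ ⁻¹' closedBall ξ ρ)).toReal ≤ A * ρ ^ m

theorem BaseA_bl {t : ℝ} (ht : 0 ≤ t) : B.bl t ⊆ ball B.ξ₀ t := fun ξ hξ =>
  mem_ball_iff_norm.2 (lt_of_pow_lt_pow_left₀ 2 ht ((B.r2_lo ξ).trans_lt hξ))

theorem BaseA_mN {w : Ω → E m} (hw : Measurable w) : Measurable fun y => B.Nn y (w y) := by
  have e : (fun y => B.Nn y (w y)) =
      fun y => ∑ i, (∑ j, ⟪ev j, w y⟫ * ⟪ev i, B.Nn y (ev j)⟫) • ev i := by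
    funext y
    conv_lhs => rw [← sum_ev (B.Nn y (w y))]
    refine Finset.sum_congr rfl fun i _ => ?_
    congr 1
    conv_lhs => rw [← sum_ev (w y), map_sum, inner_sum]
    exact Finset.sum_congr rfl fun j _ => by rw [map_smul, real_inner_smul_right]
  rw [e]
  exact Finset.measurable_sum _ fun i _ => (Finset.measurable_sum _ fun j _ =>
    (measurable_const.inner hw).mul (B.mNn _ _)).smul_const _

theorem BaseA_bd {f : E m → ℝ} (hf : Continuous f) (hc : HasCompactSupport f) {w : Ω → ℝ}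
    (hw : Integrable w B.μ) : Integrable (fun y => f (B.ζ y) * w y) B.μ := by
  obtain ⟨a, ha⟩ := hf.bounded_above_of_compact_support hc
  exact hw.bdd_mul (hf.measurable.comp B.mζ).aestronglyMeasurable
    (Eventually.of_forall fun y => ha _)

theorem BaseA_II (Z : Set (E m)) : B.II Z ≤ B.T ^ 2 * (B.μ (B.ζ ⁻¹' Z)).toReal := by
  have := B.fin
  exact (le_abs_self _).trans (norm_setIntegral_le_of_norm_le_const_ae (measure_lt_top _ _)
    (ae_restrict_of_ae (B.ae.mono fun y hy => by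
      rw [Real.norm_of_nonneg hy.2.2.2.1]
      exact hy.2.2.2.2.1)))

theorem BaseA_hP (Z : Set (E m)) : B.II Z ≤ B.PP Z :=
  integral_mono_ae B.LockA_h.integrableOn B.LockA_int.integrableOn
    (ae_restrict_of_ae (B.ae.mono fun _ hy => le_add_of_nonneg_left hy.2.1))

theorem II_mono {Z Z' : Set (E m)} (h : Z ⊆ Z') : 0 ≤ B.II Z ∧ B.II Z ≤ B.II Z' := by
  refine ⟨integral_nonneg_of_ae (ae_restrict_of_ae (B.ae.mono fun y hy => hy.2.2.2.1)), ?_⟩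
  exact setIntegral_mono_set B.LockA_h.integrableOn
    (ae_restrict_of_ae (B.ae.mono fun y hy => hy.2.2.2.1)) (preimage_mono h).eventuallyLE

theorem bl_calc {A : ℝ} (h : B.Ex A) {t : ℝ} (ht : 0 ≤ t) : IsOpen (B.bl t) ∧
    B.bl t ⊆ ball B.ξ₀ t ∧ ball B.ξ₀ (t / 2) ⊆ B.bl t ∧
    ∀ ξ ρ, 0 ≤ ρ → √(B.r2 ξ) + 2 * ρ < t → closedBall ξ ρ ⊆ B.bl t := by
  refine ⟨isOpen_lt B.cr2.continuous continuous_const, B.BaseA_bl ht, fun ξ hξ => ?_,
    fun ξ ρ hρ hlt x hx => ?_⟩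
  · have h1 := mem_ball_iff_norm.1 hξ
    have h2 := B.r2_hi ξ
    have h3 := norm_nonneg (ξ - B.ξ₀)
    show B.r2 ξ < t ^ 2
    nlinarith only [h1, h2, h3]
  · have h1 := mem_closedBall_iff_norm.1 hx
    have h2 := (abs_le.1 (h.lip x ξ)).2
    have h3 := Real.sqrt_nonneg (B.r2 ξ)
    exact (Real.sqrt_lt' (by linarith only [hlt, hρ, h3])).1 (by linarith only [h1, h2, hlt])

theorem norm_p_le : ∀ᵐ y ∂B.μ, ‖B.p y‖ ^ 2 ≤ c * (B.h y * B.d y) := by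
  filter_upwards [B.ae, B.ae2] with y ⟨_, h1, _, h2, _⟩ ⟨_, _, h3, _, h4⟩
  have hc : 0 ≤ c := zero_le_one.trans B.c_ge
  by_cases hp : B.p y = 0
  · rw [hp, norm_zero, zero_pow two_ne_zero]
    positivity
  have hn : 0 < ‖B.p y‖ ^ 2 := pow_pos (norm_pos_iff.2 hp) 2
  have h5 := h4 (B.p y)
  rw [real_inner_self_eq_norm_sq] at h5
  have h6 : ⟪B.p y, B.Nn y (B.p y)⟫ ≤ ‖B.p y‖ * (c * B.d y * ‖B.p y‖) :=
    (real_inner_le_norm _ _).trans (mul_le_mul_of_nonneg_left (((B.Nn y).le_opNorm _).trans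
      (mul_le_mul_of_nonneg_right h3 (norm_nonneg _))) (norm_nonneg _))
  refine le_of_mul_le_mul_right ?_ hn
  nlinarith only [h5, mul_le_mul_of_nonneg_left h6 h2]

/-- the inner variation in terms of the defect: `inn` and `integral_dv` -/
theorem inner_Y (Q : ℕ) {V : E m → E m} (hV : Test 1 V B.O) :
    |B.Y Q (dv V) - ∫ y, (B.d y * dv V (B.ζ y) -
        2 * ∑ i, ⟪ev i, fderiv ℝ V (B.ζ y) (B.Nn y (B.gg (B.ζ y) (ev i)))⟫) ∂B.μ| ≤
      2 * c * ∫ y, (B.T * B.d y * ‖fderiv ℝ V (B.ζ y)‖ + (B.d y + B.h y) * ‖V (B.ζ y)‖) ∂B.μ := by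
  have hs : ContDiff ℝ 1 V := by exact_mod_cast hV.smooth
  have hc : 0 ≤ c := zero_le_one.trans B.c_ge
  have hc' := hs.continuous_fderiv (by simp)
  obtain ⟨a, ha⟩ := hc'.bounded_above_of_compact_support (hV.cpt.fderiv ℝ)
  have ha0 : 0 ≤ a := (norm_nonneg _).trans (ha 0)
  have hdv : ∀ x, ‖dv V x‖ ≤ m * a := fun x =>
    (abs_dv_le V x).trans (mul_le_mul_of_nonneg_left (ha x) (Nat.cast_nonneg m))
  have m1 : Measurable fun y => dv V (B.ζ y) := (continuous_dv hs).measurable.comp B.mζ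
  have i0 : Integrable (fun y => dv V (B.ζ y)) B.μ :=
    B.integrable_of_bd m1 (Eventually.of_forall fun y => hdv _)
  have i1 : Integrable (fun y => B.d y * dv V (B.ζ y)) B.μ :=
    B.LockA_d.mul_bdd m1.aestronglyMeasurable (Eventually.of_forall fun y => hdv _)
  have i2 : Integrable (fun y =>
      ∑ i, ⟪ev i, fderiv ℝ V (B.ζ y) (B.Nn y (B.gg (B.ζ y) (ev i)))⟫) B.μ := by
    refine integrable_finsetSum _ fun i _ => ?_
    have m2 : Measurable fun y => B.Nn y (B.gg (B.ζ y) (ev i)) :=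
      B.BaseA_mN ((B.cgg.continuous.clm_apply continuous_const).measurable.comp B.mζ)
    have m3 : Measurable fun y => ⟪ev i, fderiv ℝ V (B.ζ y) (B.Nn y (B.gg (B.ζ y) (ev i)))⟫ :=
      (show Continuous fun q : E m × E m => ⟪ev i, fderiv ℝ V q.1 q.2⟫ by
        fun_prop).measurable.comp (B.mζ.prodMk m2)
    refine (((B.LockA_d.const_mul c).mul_const 2).const_mul a).mono' m3.aestronglyMeasurable ?_
    filter_upwards [B.ae, B.ae2] with y ⟨_, h1, _⟩ ⟨_, _, h3, _⟩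
    refine (abs_real_inner_le_norm _ _).trans ?_
    rw [norm_ev, one_mul]
    refine ((fderiv ℝ V (B.ζ y)).le_opNorm _).trans (mul_le_mul (ha _) ?_ (norm_nonneg _) ha0)
    refine ((B.Nn y).le_opNorm _).trans (mul_le_mul h3 ?_ (norm_nonneg _) (by positivity))
    refine ((B.gg (B.ζ y)).le_opNorm _).trans ?_
    rw [norm_ev, mul_one]
    exact B.gg_bd _
  have h1 := B.inn V hV
  have e1 : ∫ y, dv V (B.ζ y) * (1 - B.d y / 2) ∂B.μ =
      ∫ y, dv V (B.ζ y) ∂B.μ - 1 / 2 * ∫ y, B.d y * dv V (B.ζ y) ∂B.μ := by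
    rw [← integral_const_mul, ← integral_sub i0 (i1.const_mul _)]
    exact integral_congr_ae (Eventually.of_forall fun y => by ring)
  rw [integral_sub i0 i2] at h1
  rw [Lk.Y, integral_dv hs hV.cpt, e1, integral_sub i1 (i2.const_mul 2), integral_const_mul]
  rw [abs_le] at h1 ⊢
  constructor <;> linarith only [h1.1, h1.2]

theorem Y_lin (Q : ℕ) {f g : E m → ℝ} (hf : Continuous f) (hg : Continuous g)
    (hf' : HasCompactSupport f) (hg' : HasCompactSupport g) (t : ℝ) :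
    B.Y Q (fun x => f x + g x) = B.Y Q f + B.Y Q g ∧ B.Y Q (fun x => t * f x) = t * B.Y Q f := by
  have i1 := hf.integrable_of_hasCompactSupport (μ := volume) hf'
  have i2 := hg.integrable_of_hasCompactSupport (μ := volume) hg'
  have j1 := B.BaseA_bd hf hf' B.LockA_w
  have j2 := B.BaseA_bd hg hg' B.LockA_w
  constructor
  · simp only [Lk.Y, add_mul]
    rw [integral_add i1 i2, integral_add j1 j2]
    ring
  · simp only [Lk.Y, mul_assoc t]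
    rw [integral_const_mul, integral_const_mul]
    ring

theorem Y_sum (Q : ℕ) {I : Type} (J : Finset I) {f : I → E m → ℝ}
    (hf : ∀ j ∈ J, Continuous (f j) ∧ HasCompactSupport (f j)) :
    B.Y Q (fun x => ∑ j ∈ J, f j x) = ∑ j ∈ J, B.Y Q (f j) := by
  have i1 := fun j hj => (hf j hj).1.integrable_of_hasCompactSupport (μ := volume) (hf j hj).2
  have j1 := fun j hj => B.BaseA_bd (hf j hj).1 (hf j hj).2 B.LockA_w
  simp only [Lk.Y, Finset.sum_mul]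
  rw [integral_finsetSum J i1, integral_finsetSum J j1, Finset.sum_sub_distrib, Finset.mul_sum,
    Finset.mul_sum]

theorem BaseA_alg {c g n h d r x : ℝ} (hc : 1 ≤ c) (hh : 0 ≤ h) (hd : 0 ≤ d)
    (hr : r ^ 2 = h * d) (p : ℝ) (hp : p ^ 2 ≤ c * (h * d)) (hx : |x| ≤ 2 * |g| * n * p) :
    g ^ 2 * d ≤ 2 * (g ^ 2 * d + x) - 2 * c * (g ^ 2 * (h + r) + 2 * |g| * n * h) +
      14 * c ^ 2 * (h * (n ^ 2 + g ^ 2)) := by
  have e0 := sq_abs g
  have h0 : 0 ≤ c := zero_le_one.trans hc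
  have hcc : c ≤ c ^ 2 := by nlinarith only [hc]
  have e1 : 2 * |g| * n * p ≤ g ^ 2 * d / 4 + 4 * c * (h * n ^ 2) := by
    refine abs_le_of_sq_le_sq' ?_ (by positivity) |>.2
    have e2 : (2 * |g| * n * p) ^ 2 = 4 * g ^ 2 * n ^ 2 * p ^ 2 := by
      rw [mul_pow, mul_pow, mul_pow, e0]; ring
    have e3 := mul_le_mul_of_nonneg_left hp (show 0 ≤ 4 * g ^ 2 * n ^ 2 by positivity)
    nlinarith only [e2, e3, sq_nonneg (g ^ 2 * d / 4 - 4 * c * (h * n ^ 2))]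
  have e4 : c * r ≤ d / 4 + c ^ 2 * h := by
    refine abs_le_of_sq_le_sq' ?_ (by positivity) |>.2
    have e5 : (c * r) ^ 2 = c ^ 2 * (h * d) := by rw [mul_pow, hr]
    nlinarith only [e5, sq_nonneg (d / 4 - c ^ 2 * h)]
  have e5 := mul_le_mul_of_nonneg_left e4 (sq_nonneg g)
  have e6 : 2 * |g| * n ≤ g ^ 2 + n ^ 2 := by nlinarith only [e0, sq_nonneg (|g| - n)]
  have e7 := mul_le_mul_of_nonneg_left e6 (mul_nonneg h0 hh)
  have e8 := mul_le_mul_of_nonneg_right hcc (show 0 ≤ h * n ^ 2 by positivity)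
  have e9 := mul_le_mul_of_nonneg_right hcc (show 0 ≤ h * g ^ 2 by positivity)
  have e10 : 0 ≤ c ^ 2 * (h * n ^ 2) := by positivity
  have e11 : 0 ≤ c ^ 2 * (h * g ^ 2) := by positivity
  nlinarith only [neg_abs_le x, hx, e1, e5, e7, e8, e9, e10, e11]

theorem BaseA_cacc {g : E m → ℝ} (hg : Test 1 g B.O) :
    ∫ y, g (B.ζ y) ^ 2 * B.d y ∂B.μ ≤
      14 * c ^ 2 * ∫ y, B.h y * (‖fderiv ℝ g (B.ζ y)‖ ^ 2 + g (B.ζ y) ^ 2) ∂B.μ := by
  have hs : ContDiff ℝ 1 g := by exact_mod_cast hg.smooth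
  have hsupp : tsupport (fun x => g x ^ 2) ⊆ tsupport g :=
    closure_mono fun x hx h0 => hx (by simp [h0])
  have hg2 : Test 1 (fun x => g x ^ 2) B.O :=
    ⟨hg.smooth.pow 2, hg.cpt.of_isClosed_subset (isClosed_tsupport _) hsupp, hsupp.trans hg.supp⟩
  have hc0 : 0 ≤ c := zero_le_one.trans B.c_ge
  have hc := hs.continuous
  have hc' := hs.continuous_fderiv (by simp)
  have hd : ∀ x, fderiv ℝ (fun x => g x ^ 2) x = (2 * g x) • fderiv ℝ g x := fun x => by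
    have := ((hs.differentiable (by simp) x).hasFDerivAt.pow 2).fderiv
    simpa using this
  have h1 := (le_abs_self _).trans (B.outer _ hg2)
  simp only [hd, norm_smul, Real.norm_eq_abs, abs_mul, abs_two, abs_pow, sq_abs] at h1
  obtain ⟨a, ha⟩ := hc.bounded_above_of_compact_support hg.cpt
  obtain ⟨b, hb⟩ := hc'.bounded_above_of_compact_support (hg.cpt.fderiv ℝ)
  have ha0 : 0 ≤ a := (norm_nonneg _).trans (ha 0)
  have hb0 : 0 ≤ b := (norm_nonneg _).trans (hb 0)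
  have hx : ∀ y, |((2 * g (B.ζ y)) • fderiv ℝ g (B.ζ y)) (B.p y)| ≤
      2 * |g (B.ζ y)| * ‖fderiv ℝ g (B.ζ y)‖ * ‖B.p y‖ := fun y => by
    refine (((2 * g (B.ζ y)) • fderiv ℝ g (B.ζ y)).le_opNorm (B.p y)).trans_eq ?_
    rw [norm_smul, Real.norm_eq_abs, abs_mul, abs_two]
  have hhd : ∀ᵐ y ∂B.μ, B.h y * B.d y ≤ B.T ^ 2 * m := B.ae.mono fun y hy =>
    mul_le_mul hy.2.2.2.2.1 hy.2.2.1 hy.2.1 (sq_nonneg _)
  have ir : Integrable (fun y => √(B.h y * B.d y)) B.μ :=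
    B.integrable_of_bd (B.mh.mul B.md).sqrt (M := √(B.T ^ 2 * m)) (hhd.mono fun y hy => by
      rw [Real.norm_of_nonneg (Real.sqrt_nonneg _)]
      exact Real.sqrt_le_sqrt hy)
  have c2 : HasCompactSupport fun x => g x ^ 2 := hg2.cpt
  have i1 := B.BaseA_bd (f := fun x => g x ^ 2) (hc.pow 2) c2 B.LockA_d
  have i2 : Integrable (fun y => ((2 * g (B.ζ y)) • fderiv ℝ g (B.ζ y)) (B.p y)) B.μ := by
    refine B.integrable_of_bd ((show Continuous fun q : E m × E m =>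
      ((2 * g q.1) • fderiv ℝ g q.1) q.2 by fun_prop).measurable.comp (B.mζ.prodMk B.mp))
      (M := 2 * a * b * √(c * (B.T ^ 2 * m))) ?_
    filter_upwards [B.norm_p_le, hhd] with y h2 h3
    refine (hx y).trans (mul_le_mul (mul_le_mul (mul_le_mul_of_nonneg_left (ha _) zero_le_two)
      (hb _) (norm_nonneg _) (by positivity)) (Real.le_sqrt_of_sq_le
        (h2.trans (mul_le_mul_of_nonneg_left h3 hc0))) (norm_nonneg _) (by positivity))
  have i3 := B.BaseA_bd (f := fun x => g x ^ 2) (hc.pow 2) c2 (B.LockA_h.fun_add ir)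
  have i4 := B.BaseA_bd (f := fun x => 2 * |g x| * ‖fderiv ℝ g x‖) (by fun_prop)
    (hg.cpt.fderiv ℝ).norm.mul_left B.LockA_h
  have i5 : Integrable (fun y => B.h y * (‖fderiv ℝ g (B.ζ y)‖ ^ 2 + g (B.ζ y) ^ 2)) B.μ :=
    B.LockA_h.mul_bdd (c := b ^ 2 + a ^ 2) ((show Continuous fun x =>
      ‖fderiv ℝ g x‖ ^ 2 + g x ^ 2 by fun_prop).measurable.comp B.mζ).aestronglyMeasurable
      (Eventually.of_forall fun y => by
        rw [Real.norm_of_nonneg (by positivity), ← sq_abs (g _)]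
        exact add_le_add (pow_le_pow_left₀ (norm_nonneg _) (hb _) 2)
          (pow_le_pow_left₀ (abs_nonneg _) (ha _) 2))
  have j1 := (i1.fun_add i2).const_mul 2
  have j2 := (i3.fun_add i4).const_mul (2 * c)
  have j3 := i5.const_mul (14 * c ^ 2)
  have h2 := integral_mono_ae i1 ((j1.sub' j2).fun_add j3) (by
    filter_upwards [B.ae, B.norm_p_le] with y ⟨_, h2, _, h4, _⟩ hp
    exact BaseA_alg B.c_ge h4 h2 (Real.sq_sqrt (mul_nonneg h4 h2)) _ hp (hx y))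
  rw [integral_add (j1.sub' j2) j3, integral_sub j1 j2, integral_const_mul, integral_const_mul,
    integral_const_mul] at h2
  linarith only [h1, h2]

theorem BaseA_PP {Z Z' : Set (E m)} (hZ : MeasurableSet Z) (hZZ : Z ⊆ Z')
    (hO : Z' ⊆ B.O) {χ : E m → ℝ} (hχ : Test 1 χ Z') (h01 : ∀ x, 0 ≤ χ x ∧ χ x ≤ 1)
    (h1 : ∀ x ∈ Z, χ x = 1) {K t : ℝ} (ht : 0 < t) (ht1 : t ≤ 1)
    (hb : ∀ x, ‖fderiv ℝ χ x‖ ≤ K / t) :
    B.PP Z ≤ (14 * c ^ 2 * (K ^ 2 + 1) + 1) * B.II Z' / t ^ 2 := by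
  have hs : ContDiff ℝ 1 χ := by exact_mod_cast hχ.smooth
  have hc := hs.continuous
  have hc' := hs.continuous_fderiv (by simp)
  have e3 : 1 ≤ 1 / t ^ 2 := one_le_one_div (by positivity) (pow_le_one₀ ht.le ht1)
  have hle : ∀ x, ‖fderiv ℝ χ x‖ ^ 2 + χ x ^ 2 ≤ (K ^ 2 + 1) / t ^ 2 := fun x => by
    have e1 := pow_le_pow_left₀ (norm_nonneg _) (hb x) 2
    have e2 := pow_le_one₀ (h01 x).1 (h01 x).2 (n := 2)
    rw [div_pow] at e1
    rw [add_div]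
    linarith only [e1, e2, e3]
  have i1 : Integrable (fun y => χ (B.ζ y) ^ 2 * B.d y) B.μ :=
    B.LockA_d.bdd_mul (c := 1) ((hc.pow 2).measurable.comp B.mζ).aestronglyMeasurable
      (Eventually.of_forall fun y => by
        rw [Real.norm_of_nonneg (sq_nonneg _)]
        exact pow_le_one₀ (h01 _).1 (h01 _).2)
  have i4 : Integrable (fun y => B.h y * (‖fderiv ℝ χ (B.ζ y)‖ ^ 2 + χ (B.ζ y) ^ 2)) B.μ :=
    B.LockA_h.mul_bdd (c := (K ^ 2 + 1) / t ^ 2) ((show Continuous fun x =>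
      ‖fderiv ℝ χ x‖ ^ 2 + χ x ^ 2 by fun_prop).measurable.comp B.mζ).aestronglyMeasurable
      (Eventually.of_forall fun y => by
        rw [Real.norm_of_nonneg (by positivity)]
        exact hle _)
  have h2 : ∫ y in B.ζ ⁻¹' Z, B.d y ∂B.μ ≤ ∫ y, χ (B.ζ y) ^ 2 * B.d y ∂B.μ := by
    refine le_trans (setIntegral_congr_fun (B.mζ hZ) fun y hy => ?_).le (setIntegral_le_integral i1
      (B.ae.mono fun y hy => mul_nonneg (sq_nonneg _) hy.2.1))
    simp [h1 _ hy]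
  have h3 : ∫ y, B.h y * (‖fderiv ℝ χ (B.ζ y)‖ ^ 2 + χ (B.ζ y) ^ 2) ∂B.μ ≤
      B.II Z' * ((K ^ 2 + 1) / t ^ 2) := by
    rw [← setIntegral_eq_integral_of_forall_compl_eq_zero (s := B.ζ ⁻¹' Z') fun y hy => by
      simp [image_eq_zero_of_notMem_tsupport fun h => hy (hχ.supp h),
        fderiv_of_notMem_tsupport ℝ fun h => hy (hχ.supp h)], Lk.II, ← integral_mul_const]
    exact integral_mono_ae i4.integrableOn (B.LockA_h.integrableOn.mul_const _)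
      ((ae_restrict_of_ae B.ae).mono fun y hy => mul_le_mul_of_nonneg_left (hle _) hy.2.2.2.1)
  have h4 := (B.BaseA_cacc ⟨hχ.smooth, hχ.cpt, hχ.supp.trans hO⟩).trans
    (mul_le_mul_of_nonneg_left h3 (by positivity))
  have h5 := B.II_mono hZZ
  have h6 := mul_le_mul_of_nonneg_left e3 (h5.1.trans h5.2)
  have h7 : B.PP Z = ∫ y in B.ζ ⁻¹' Z, B.d y ∂B.μ + B.II Z :=
    integral_add B.LockA_d.integrableOn B.LockA_h.integrableOn
  calc B.PP Z ≤ 14 * c ^ 2 * (B.II Z' * ((K ^ 2 + 1) / t ^ 2)) + B.II Z' * (1 / t ^ 2) := by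
        linarith only [h2, h4, h5.2, h6, h7]
    _ = _ := by ring

theorem BaseA_cut {ψ : ℝ → ℝ} {K : ℝ} (hψ : ContDiff ℝ 3 ψ) (hψ1 : ∀ t, t ≤ 0 → ψ t = 1)
    (hψ0 : ∀ t, 1 ≤ t → ψ t = 0) (hψb : ∀ t, 0 ≤ ψ t ∧ ψ t ≤ 1) (hψd : ∀ t, |deriv ψ t| ≤ K)
    {a b : ℝ} (ha : 0 ≤ a) (hab : a < b) : ∃ χ : E m → ℝ, Test 1 χ (B.bl b) ∧
      (∀ x, 0 ≤ χ x ∧ χ x ≤ 1) ∧ (∀ x ∈ B.bl a, χ x = 1) ∧
      ∀ x, ‖fderiv ℝ χ x‖ ≤ 16 * K / (b - a) := by
  set b' := (a + b) / 2 with hb'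
  have h1 : a < b' := by linarith only [hb', hab]
  have h2 : b' < b := by linarith only [hb', hab]
  have h0 : 0 < b' := ha.trans_lt h1
  have hD : 0 < b' ^ 2 - a ^ 2 := sub_pos.2 (pow_lt_pow_left₀ h1 ha two_ne_zero)
  have hK : 0 ≤ K := (abs_nonneg _).trans (hψd 0)
  have hba : 0 < b - a := sub_pos.2 hab
  have hsupp : tsupport (fun x => ψ ((B.r2 x - a ^ 2) / (b' ^ 2 - a ^ 2))) ⊆
      {x | B.r2 x ≤ b' ^ 2} := by
    refine closure_minimal (fun x hx => ?_) (isClosed_le B.cr2.continuous continuous_const)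
    by_contra hn
    exact hx (hψ0 _ ((one_le_div hD).2 (by
      linarith only [(not_le.1 hn : b' ^ 2 < B.r2 x)])))
  have hn : ∀ x, B.r2 x ≤ b' ^ 2 → ‖x - B.ξ₀‖ ≤ b' := fun x hx =>
    le_of_pow_le_pow_left₀ two_ne_zero h0.le ((B.r2_lo x).trans hx)
  refine ⟨fun x => ψ ((B.r2 x - a ^ 2) / (b' ^ 2 - a ^ 2)), ⟨?_, ?_, hsupp.trans fun x hx =>
    lt_of_le_of_lt hx (pow_lt_pow_left₀ h2 h0.le two_ne_zero)⟩, fun x => hψb _, fun x hx =>
    hψ1 _ (div_nonpos_of_nonpos_of_nonneg (sub_nonpos.2 (le_of_lt hx)) hD.le), fun x => ?_⟩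
  · exact (hψ.of_le (by exact_mod_cast (by norm_num : 1 ≤ 3))).comp
      (((B.cr2.of_le (by exact_mod_cast (by norm_num : 1 ≤ 2))).sub contDiff_const).div_const _)
  · exact (isCompact_closedBall B.ξ₀ b').of_isClosed_subset (isClosed_tsupport _)
      (hsupp.trans fun x hx => mem_closedBall_iff_norm.2 (hn x hx))
  by_cases hx : B.r2 x ≤ b' ^ 2
  swap
  · rw [fderiv_of_notMem_tsupport ℝ fun h => hx (hsupp h), norm_zero]
    positivity
  have d1 := (hψ.differentiable (by simp) ((B.r2 x - a ^ 2) / (b' ^ 2 - a ^ 2))).hasDerivAt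
  have d2 := ((B.cr2.differentiable (by simp) x).hasFDerivAt.sub_const (a ^ 2)).mul_const
    (b' ^ 2 - a ^ 2)⁻¹
  have d3 : ‖fderiv ℝ B.r2 x‖ ≤ 8 * b' := by
    refine ContinuousLinearMap.opNorm_le_bound _ (by positivity) fun v => ?_
    rw [B.dr2, norm_mul, Real.norm_two]
    have e1 := (norm_inner_le_norm (𝕜 := ℝ) (B.gg x (B.X0 x)) v).trans
      (mul_le_mul_of_nonneg_right (((B.gg x).le_opNorm _).trans (mul_le_mul (B.gg_bd x)
        ((B.X0_bd x).trans (mul_le_mul_of_nonneg_left (hn x hx) zero_le_two)) (norm_nonneg _)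
        zero_le_two)) (norm_nonneg v))
    linarith only [e1]
  simp only [div_eq_mul_inv] at d1 ⊢
  rw [show fderiv ℝ (fun x => ψ ((B.r2 x - a ^ 2) * (b' ^ 2 - a ^ 2)⁻¹)) x = _ from
    (d1.comp_hasFDerivAt x d2).fderiv, norm_smul, norm_smul, Real.norm_eq_abs,
    Real.norm_of_nonneg (inv_nonneg.2 hD.le)]
  have e2 : (b' ^ 2 - a ^ 2)⁻¹ * (8 * b') ≤ 16 * (b - a)⁻¹ := by
    rw [inv_mul_eq_div, ← div_eq_mul_inv, div_le_div_iff₀ hD hba]
    have e3 : b - a = 2 * (b' - a) := by linarith only [hb']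
    rw [e3]
    nlinarith only [mul_nonneg ha (sub_pos.2 h1).le]
  calc _ ≤ K * ((b' ^ 2 - a ^ 2)⁻¹ * (8 * b')) := mul_le_mul (hψd _)
        (mul_le_mul_of_nonneg_left d3 (inv_nonneg.2 hD.le)) (by positivity) hK
    _ ≤ K * (16 * (b - a)⁻¹) := mul_le_mul_of_nonneg_left e2 hK
    _ = _ := by ring

end Base

/-- Caccioppoli: `outer` with `g ^ 2`; then `exists_cut`, and `g = ψ ((r2 - a²) / (b'² - a²))` with
`ψ` from `exists_trans` and `b' = (a + b) / 2` -/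
theorem Base.cacc (m : ℕ) (c : ℝ) : ∃ C : ℝ, 1 ≤ C ∧ ∀ {Ω : Type} [MeasurableSpace Ω]
    (B : Base m c Ω), (∀ g : E m → ℝ, Test 1 g B.O → ∫ y, g (B.ζ y) ^ 2 * B.d y ∂B.μ ≤
      C * ∫ y, B.h y * (‖fderiv ℝ g (B.ζ y)‖ ^ 2 + g (B.ζ y) ^ 2) ∂B.μ) ∧
    (∀ (q : E m) (a b : ℝ), 0 ≤ a → a < b → b ≤ 1 → ball q b ⊆ B.O →
      B.PP (closedBall q a) ≤ C * B.II (ball q b) / (b - a) ^ 2) ∧
    ∀ a b : ℝ, 0 ≤ a → a < b → b ≤ B.R → B.PP (B.bl a) ≤ C * B.II (B.bl b) / (b - a) ^ 2 := by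
  obtain ⟨C, hC, hcut⟩ := exists_cut
  obtain ⟨ψ, K, hK, hψ, -, hψ1, hψ0, hψb, hψd, -⟩ := exists_trans
  have e0 : 0 ≤ 14 * c ^ 2 := by positivity
  have e1 : 0 ≤ 14 * c ^ 2 * (C ^ 2 + (16 * K) ^ 2) := by positivity
  refine ⟨14 * c ^ 2 * (C ^ 2 + (16 * K) ^ 2 + 1) + 1, by nlinarith only [e0, e1], fun B =>
    ⟨fun g hg => (B.BaseA_cacc hg).trans (mul_le_mul_of_nonneg_right (by nlinarith only [e0, e1])
      (integral_nonneg_of_ae (B.ae.mono fun y hy => mul_nonneg hy.2.2.2.1 (by positivity)))),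
      fun q a b ha hab hb hs => ?_, fun a b ha hab hb => ?_⟩⟩
  · obtain ⟨χ, hχ, h01, h1, hbd⟩ := hcut q a b ha hab
    refine (B.BaseA_PP (K := C) (t := b - a) measurableSet_closedBall
      (closedBall_subset_ball hab) hs ⟨hχ.smooth.of_le (by exact_mod_cast (by norm_num : 1 ≤ 3)),
        hχ.cpt, hχ.supp⟩ h01 h1 (sub_pos.2 hab) (by linarith only [ha, hb]) hbd.b1).trans ?_
    have h2 := (B.II_mono (subset_refl (ball q b))).1
    have h3 := sq_nonneg (16 * K)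
    gcongr
    linarith only [h3]
  · obtain ⟨χ, hχ, h01, h1, hbd⟩ := B.BaseA_cut hψ hψ1 hψ0 hψb hψd ha hab
    have hb0 : 0 < b := ha.trans_lt hab
    have hs : B.bl b ⊆ B.O := by
      rw [B.O_eq]
      exact fun x hx => lt_of_lt_of_le hx (pow_le_pow_left₀ hb0.le hb 2)
    have hm : ∀ t, MeasurableSet (B.bl t) := fun t =>
      (isOpen_lt B.cr2.continuous continuous_const).measurableSet
    refine (B.BaseA_PP (K := 16 * K) (t := b - a) (Z' := B.bl b) (hm a)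
      (fun x hx => lt_of_lt_of_le hx (pow_le_pow_left₀ ha hab.le 2)) hs hχ h01 h1 (sub_pos.2 hab)
      (by linarith only [ha, hb, B.R_le]) hbd).trans ?_
    have h2 := (B.II_mono (subset_refl (B.bl b))).1
    have h3 := sq_nonneg C
    gcongr
    linarith only [h3]

/-- Locking. By `cacc` and the mass bound `PP (ball ξ (3 s)) ≤ C T² s ^ (m - 2)`. Use `lock_path`
along the segment from `(s₁, ξ₀)` to `(s, ξ₀)` and then to `(s, ξ)` (`star`). For the second part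
use `lemmaM` at the scale `s` and `abs_Y_le`. -/
theorem Base.lock (m : ℕ) (hm : 1 ≤ m) (c A : ℝ) (Q : ℕ) : ∃ δ C : ℝ, 0 < δ ∧ δ ≤ 1 ∧ 1 ≤ C ∧
    ∀ {Ω : Type} [MeasurableSpace Ω] (B : Base m c Ω) (s s₁ : ℝ), B.Ex A → B.T ≤ δ * s → s ≤ s₁ →
    9 * s₁ ≤ B.R → |B.Y Q fun ξ => rho s₁ (ξ - B.ξ₀)| ≤ 1 / 2 →
    (∀ ξ, √(B.r2 ξ) + 9 * s ≤ B.R → |B.Y Q fun x => rho s (x - ξ)| ≤ 1 / 50) ∧
    ∀ (f : E m → ℝ) (M : ℝ) (Z : Set (E m)), Measurable f → (∀ x, |f x| ≤ M) → MeasurableSet Z →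
      Z ⊆ B.bl (B.R - 9 * s) → (∀ x, x ∉ Z → f x = 0) →
      |B.Y Q f| ≤ C * M * B.PP (thickening s Z) := by
  obtain ⟨C₁, hC₁, hcacc⟩ := Base.cacc m c
  obtain ⟨δ₁, hδ₁, hpath⟩ := Lk.lock_path m hm c
  obtain ⟨δ₂, C₂, hδ₂, hδ₂', hC₂, hM⟩ := Lk.lemmaM m hm c Q
  set K : ℝ := C₁ * (|A| + 1) * 4 ^ m with hK
  have hK1 : 1 ≤ K := one_le_mul_of_one_le_of_one_le (one_le_mul_of_one_le_of_one_le hC₁
    (by linarith only [abs_nonneg A])) (one_le_pow₀ (by norm_num))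
  have hK0 : 0 < K := one_pos.trans_le hK1
  have hδ0 : 0 < min δ₁ δ₂ / K := div_pos (lt_min hδ₁ hδ₂) hK0
  have hδa : min δ₁ δ₂ / K ≤ δ₂ := (div_le_self (lt_min hδ₁ hδ₂).le hK1).trans (min_le_right _ _)
  have hm0 : (0 : ℝ) ≤ m := Nat.cast_nonneg m
  refine ⟨min δ₁ δ₂ / K, C₂ * (m + 1), hδ0, hδa.trans hδ₂',
    one_le_mul_of_one_le_of_one_le hC₂ (by linarith only [hm0]), ?_⟩
  intro Ω _ B s s₁ hE hT hs hs₁ hY
  set δ := min δ₁ δ₂ / K with hδ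
  have hδ1 : δ ≤ 1 := hδa.trans hδ₂'
  have hs0 : 0 < s := (pos_iff_pos_of_mul_pos (B.T_pos.trans_le hT)).1 hδ0
  have hR := B.R_le
  have hO : B.O = B.bl B.R := B.O_eq
  have key : ∀ (r : ℝ) (ξ : E m), s ≤ r → √(B.r2 ξ) + 9 * r ≤ B.R →
      ball ξ (3 * r) ⊆ B.O ∧ B.PP (ball ξ (3 * r)) ≤ min δ₁ δ₂ * r ^ m := by
    intro r ξ hr hξ
    have hr0 : 0 < r := hs0.trans_le hr
    have h0 := Real.sqrt_nonneg (B.r2 ξ)
    have h1 : closedBall ξ (4 * r) ⊆ B.O := hO ▸ (B.bl_calc hE B.R_pos.le).2.2.2 ξ (4 * r)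
      (by positivity) (by linarith only [hξ, hr0])
    have h2 := (hcacc B).2.1 ξ (3 * r) (4 * r) (by positivity) (by linarith only [hr0])
      (by linarith only [hξ, h0, hR]) (ball_subset_closedBall.trans h1)
    have hTr : B.T ≤ δ * r := hT.trans (mul_le_mul_of_nonneg_left hr hδ0.le)
    have h3 := hE.mass ξ (4 * r) (by nlinarith only [hTr, hδ1, hr0])
    have h4 := B.BaseA_II (closedBall ξ (4 * r))
    have h5 := (B.II_mono (ball_subset_closedBall (x := ξ) (ε := 4 * r))).2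
    refine ⟨(ball_subset_ball (by linarith only [hr0])).trans (ball_subset_closedBall.trans h1),
      (B.PP_mono ball_subset_closedBall).2.1.trans (h2.trans ?_)⟩
    have h6 : A * (4 * r) ^ m ≤ (|A| + 1) * (4 * r) ^ m :=
      mul_le_mul_of_nonneg_right (by linarith only [le_abs_self A]) (by positivity)
    have h7 : B.II (ball ξ (4 * r)) ≤ (δ * r) ^ 2 * ((|A| + 1) * (4 * r) ^ m) :=
      h5.trans (h4.trans (mul_le_mul (pow_le_pow_left₀ B.T_pos.le hTr 2) (h3.trans h6)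
        ENNReal.toReal_nonneg (by positivity)))
    have h8 : K * δ = min δ₁ δ₂ := by rw [hδ, mul_div_cancel₀ _ hK0.ne']
    rw [show 4 * r - 3 * r = r by ring, div_le_iff₀ (by positivity), ← h8]
    calc C₁ * B.II (ball ξ (4 * r)) ≤ C₁ * ((δ * r) ^ 2 * ((|A| + 1) * (4 * r) ^ m)) :=
          mul_le_mul_of_nonneg_left h7 (zero_le_one.trans hC₁)
      _ = δ * (K * δ * r ^ m * r ^ 2) := by rw [hK, mul_pow 4 r]; ring
      _ ≤ K * δ * r ^ m * r ^ 2 := mul_le_of_le_one_left (by positivity) hδ1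
  have h00 : √(B.r2 B.ξ₀) = 0 := by
    have h := B.r2_hi B.ξ₀
    rw [sub_self, norm_zero] at h
    exact Real.sqrt_eq_zero'.2 (by linarith only [h])
  have hff : ∀ ξ, √(B.r2 ξ) + 9 * s ≤ B.R → |B.ff s ξ - Q| ≤ 1 / 100 := by
    intro ξ hξ
    have hP : IsPreconnected ((fun r : ℝ => (r, B.ξ₀)) '' Icc s s₁ ∪
        (fun t : ℝ => (s, B.ξ₀ + t • (ξ - B.ξ₀))) '' Icc 0 1) :=
      IsPreconnected.union (s, B.ξ₀) ⟨s, ⟨le_rfl, hs⟩, rfl⟩ ⟨0, ⟨le_rfl, zero_le_one⟩, by simp⟩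
        (isPreconnected_Icc.image _ (by fun_prop)) (isPreconnected_Icc.image _ (by fun_prop))
    refine hpath B.toLk Q _ hP ?_ ⟨(s₁, B.ξ₀), Or.inl ⟨s₁, ⟨hs, le_rfl⟩, rfl⟩, ?_⟩ (s, ξ)
      (Or.inr ⟨1, ⟨zero_le_one, le_rfl⟩, by simp⟩)
    · have h : ∀ (r : ℝ) (x : E m), s ≤ r → √(B.r2 x) + 9 * r ≤ B.R → 0 < r ∧ r ≤ 10 ∧
          ball x (3 * r) ⊆ B.O ∧ B.PP (ball x (3 * r)) ≤ δ₁ * r ^ m := fun r x hr hx =>
        ⟨hs0.trans_le hr, by linarith only [hx, Real.sqrt_nonneg (B.r2 x), hR], (key r x hr hx).1,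
          (key r x hr hx).2.trans (mul_le_mul_of_nonneg_right (min_le_left _ _)
            (pow_nonneg (hs0.le.trans hr) m))⟩
      rintro q (⟨r, hr, rfl⟩ | ⟨t, ht, rfl⟩)
      · exact h r _ hr.1 (by linarith only [h00, hr.2, hs₁])
      · exact h s _ le_rfl (by linarith only [hξ, Real.sqrt_le_sqrt (hE.star ξ t ht.1 ht.2)])
    · rw [B.ff_eq_Y Q (hs0.trans_le hs), abs_div, abs_neg, abs_two]
      linarith only [hY]
  refine ⟨fun ξ hξ => ?_, fun f M Z hf hfM hZ hZs hf0 => ?_⟩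
  · have h := hff ξ hξ
    rw [B.ff_eq_Y Q hs0, abs_div, abs_neg, abs_two] at h
    linarith only [h]
  have ht : 0 ≤ B.R - 9 * s := by linarith only [hs, hs₁]
  have hs1 : s ≤ 1 := by linarith only [ht, hR]
  have hZb := hZs.trans (B.BaseA_bl ht)
  have hM0 : 0 ≤ M := (abs_nonneg _).trans (hfM 0)
  have hZ' : ∀ ξ ∈ Z, √(B.r2 ξ) + 9 * s ≤ B.R := fun ξ hξ => by
    linarith only [Real.sqrt_le_iff.2 ⟨ht, le_of_lt (hZs hξ)⟩]
  have h1 := (hM B.toLk s Z hs0 hs1 (by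
      rw [abs_of_pos B.T_pos]
      exact hT.trans ((mul_le_of_le_one_right hδ0.le hs1).trans hδa)) hZ fun ξ hξ =>
    ⟨(key s ξ le_rfl (hZ' ξ hξ)).1, (key s ξ le_rfl (hZ' ξ hξ)).2.trans
      (mul_le_mul_of_nonneg_right (min_le_right _ _) (pow_nonneg hs0.le m)),
      (hff ξ (hZ' ξ hξ)).trans (by norm_num)⟩).2
  have h2 := (B.abs_Y_le Q hf hfM (ρ := ‖B.ξ₀‖ + B.R) fun x hx => hf0 x fun hxZ => by
    have e1 := mem_ball_iff_norm.1 (hZb hxZ)
    linarith only [e1, hx, hs0, norm_sub_norm_le x B.ξ₀]).2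
  have h3 : ∫ x, |f x| ∂(B.bet Q) ≤ M * (B.bet Q Z).toReal := by
    rw [← setIntegral_eq_integral_of_forall_compl_eq_zero (s := Z) fun x hx => by simp [hf0 x hx]]
    exact (le_abs_self _).trans (norm_setIntegral_le_of_norm_le_const (f := fun x => |f x|) (C := M)
      (B.bet_finite Q (isBounded_ball.subset hZb)) fun x _ => by simpa using hfM x)
  have h4 := (B.PP_mono (subset_refl (thickening s Z))).2.2.2.2
  have h5 : ∫ y in B.ζ ⁻¹' Z, B.h y ∂B.μ ≤ B.PP (thickening s Z) :=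
    (B.BaseA_hP Z).trans (B.PP_mono (self_subset_thickening hs0 Z)).2.1
  calc |B.Y Q f| ≤ M * (B.bet Q Z).toReal := h2.trans h3
    _ ≤ M * (C₂ * (m * B.PP (thickening s Z) + B.PP (thickening s Z))) :=
        mul_le_mul_of_nonneg_left (h1.trans (mul_le_mul_of_nonneg_left (add_le_add h4 h5)
          (zero_le_one.trans hC₂))) hM0
    _ = C₂ * (m + 1) * M * B.PP (thickening s Z) := by ring

end Pool.Agent.MP_f6c0e6_an.Gen

end

section

/-! The three first variation identities of a piece. -/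

set_option autoImplicit false

open MeasureTheory Filter Topology Set Metric
open scoped ENNReal RealInnerProductSpace

namespace Pool.Agent.MP_f6c0e6_an.Gen

variable {m N : ℕ}

theorem BaseC_cmp {μ : Measure (E N)} {I L b : E N → ℝ} (hI : Integrable I μ)
    (h0 : ∫ y, I y ∂μ = 0) (hb : Integrable b μ) (c : ℝ)
    (h : ∀ᵐ y ∂μ, |L y - I y| ≤ c * b y) : |∫ y, L y ∂μ| ≤ c * ∫ y, b y ∂μ := by
  rw [← integral_const_mul]
  by_cases hL : Integrable L μ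
  · have := norm_integral_le_of_norm_le (f := fun y => L y - I y) (hb.const_mul c) h
    rwa [integral_sub hL hI, h0, sub_zero] at this
  · rw [integral_undef hL, abs_zero]
    exact integral_nonneg_of_ae (h.mono fun y hy => (abs_nonneg _).trans hy)

theorem BaseC_test {F : Type} [NormedAddCommGroup F] [NormedSpace ℝ F] {V : E m → F}
    {O : Set (E m)} (hV : Test 1 V O) :
    ContDiff ℝ 1 V ∧ Differentiable ℝ V ∧ Continuous V ∧ Continuous (fderiv ℝ V) ∧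
      ∃ M, 0 ≤ M ∧ (∀ x, ‖V x‖ ≤ M) ∧ ∀ x, ‖fderiv ℝ V x‖ ≤ M := by
  have h0 : ContDiff ℝ 1 V := by exact_mod_cast hV.smooth
  have h1 := h0.continuous_fderiv one_ne_zero
  obtain ⟨M₁, h2⟩ := h0.continuous.bounded_above_of_compact_support hV.cpt
  obtain ⟨M₂, h3⟩ := h1.bounded_above_of_compact_support (hV.cpt.fderiv (𝕜 := ℝ))
  exact ⟨h0, h0.differentiable one_ne_zero, h0.continuous, h1, max M₁ M₂,
    ((norm_nonneg _).trans (h2 0)).trans (le_max_left _ _),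
    fun x => (h2 x).trans (le_max_left _ _), fun x => (h3 x).trans (le_max_right _ _)⟩

theorem BaseC_sum {f : Fin m → ℝ} {c : ℝ} (h : ∀ i, |f i| ≤ c) : |∑ i, f i| ≤ m * c := by
  refine (Finset.abs_sum_le_sum_abs _ _).trans ((Finset.sum_le_sum fun i _ => h i).trans ?_)
  simp

theorem BaseC_fst {F : Type} [NormedAddCommGroup F] [NormedSpace ℝ F] {V : E m → F}
    {V' : E m →L[ℝ] F} {q : E m × E N} (hV : HasFDerivAt V V' q.1) :
    HasFDerivAt (fun q : E m × E N => V q.1) (V'.comp (ContinuousLinearMap.fst ℝ (E m) (E N))) q :=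
  hV.comp q hasFDerivAt_fst

namespace Ref

variable (S : Ref m N) (fr : Fr m N)

theorem BaseC_sg : ContDiff ℝ 2 (sgW S.w) := by
  have h : ContDiff ℝ (2 + 1 : ℕ) S.w := by exact_mod_cast S.smooth
  exact_mod_cast (contDiff_gW h).2.2

theorem BaseC_pos (ξ : E m) : 0 < sgW S.w ξ := zero_lt_one.trans_le (sgW_bd S.w ξ).2.1

theorem BaseC_inv : ContDiff ℝ 1 fun ξ => (sgW S.w ξ)⁻¹ :=
  (S.BaseC_sg.of_le (by norm_num)).inv fun ξ => (S.BaseC_pos ξ).ne'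

theorem BaseC_u (ξ : E m) : HasFDerivAt (fun ξ => (sgW S.w ξ)⁻¹)
    ((-(sgW S.w ξ ^ 2)⁻¹) • fderiv ℝ (sgW S.w) ξ) ξ :=
  (hasDerivAt_inv (S.BaseC_pos ξ).ne').comp_hasFDerivAt ξ
    (S.BaseC_sg.differentiable (by norm_num) ξ).hasFDerivAt

theorem BaseC_dsg (ξ v : E m) : |fderiv ℝ (sgW S.w) ξ v / sgW S.w ξ| ≤ m * ‖v‖ := by
  have h := (dgW_bd ξ (S.smooth.of_le (by norm_num)) ((S.b1 ξ).trans (by norm_num))
    ((S.b2 ξ).trans (by norm_num))).2.2.1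
  have hp := S.BaseC_pos ξ
  rw [abs_div, abs_of_pos hp, div_le_iff₀ hp]
  refine ((fderiv ℝ (sgW S.w) ξ).le_opNorm v).trans ?_
  calc _ ≤ m * sgW S.w ξ * ‖v‖ := mul_le_mul_of_nonneg_right h (norm_nonneg _)
    _ = _ := by ring

/-- the lift as a family of linear maps -/
noncomputable def BaseC_L (q : E m × E N) : E m →L[ℝ] E N := S.La q.1 ∘L (1 - S.KK q.1 q.2)

theorem BaseC_L_apply (q : E m × E N) (e : E m) : S.BaseC_L q e = S.lift q.1 q.2 e := rfl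

theorem BaseC_La : ContDiff ℝ 1 fun q : E m × E N => S.La q.1 :=
  ((S.F_calc 0).2.2.1.of_le (by norm_num)).comp contDiff_fst

theorem BaseC_L_cd : ContDiff ℝ 1 S.BaseC_L :=
  S.BaseC_La.clm_comp (contDiff_const.sub S.contDiff_lift.1)

theorem BaseC_fd_lift {W : E m → E m} {W' : E m →L[ℝ] E m} {q : E m × E N}
    (hW : HasFDerivAt W W' q.1) (v : E m × E N) :
    fderiv ℝ (fun q : E m × E N => S.lift q.1 q.2 (W q.1)) q v =
      fderiv ℝ (fun p : E m × E N => S.lift p.1 p.2 (W q.1)) q v + S.lift q.1 q.2 (W' v.1) := by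
  have h := (S.BaseC_L_cd.differentiable one_ne_zero q).hasFDerivAt
  have h1 := h.clm_apply (BaseC_fst hW)
  have h2 := h.clm_apply (hasFDerivAt_const (W q.1) q)
  simp only [BaseC_L_apply] at h1 h2
  rw [h1.fderiv, h2.fderiv]
  simp only [_root_.add_apply, ContinuousLinearMap.comp_apply,
    ContinuousLinearMap.coe_fst', _root_.zero_apply, map_zero, zero_add,
    BaseC_L_apply]
  rw [add_comm]

theorem BaseC_zs {ξ : E m} {z : E N} (hn : (S.La ξ).adjoint z = 0) (u : E m) :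
    ⟪z, S.La ξ u⟫ = 0 := by
  rw [← ContinuousLinearMap.adjoint_inner_left, hn, inner_zero_left]

theorem BaseC_nor (ξ : E m) (s : Fin m → E N) (l : Fin m) :
    ‖S.nor ξ (s l)‖ ≤ √(S.tilt ξ s) :=
  Real.le_sqrt_of_sq_le (Finset.single_le_sum (f := fun l => ‖S.nor ξ (s l)‖ ^ 2)
    (fun _ _ => sq_nonneg _) (Finset.mem_univ l))

theorem BaseC_zbd {ξ : E m} {z : E N} (hn : (S.La ξ).adjoint z = 0) (s : Fin m → E N)
    (l : Fin m) : |⟪z, s l⟫| ≤ ‖z‖ * √(S.tilt ξ s) := by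
  rw [(S.al_calc ξ 0 (s l)).1, inner_add_right, S.BaseC_zs hn, zero_add]
  exact (abs_real_inner_le_norm _ _).trans
    (mul_le_mul_of_nonneg_left (S.BaseC_nor ξ s l) (norm_nonneg _))

section

variable {ξ : E m} {z : E N} (hz : ‖z‖ ≤ 1 / 2) {s : Fin m → E N} (hs : Orthonormal ℝ s)
include hz hs

theorem BaseC_eta (l : Fin m) : ‖S.eta ξ z (s l)‖ ≤ 2 := by
  have h := (S.eta_calc ξ hz (s l)).2.2.2.2.2.1
  rw [hs.1 l] at h
  linarith only [h]

theorem BaseC_inner (v : E m) (G : E m →L[ℝ] E m) :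
    (∑ i, ⟪ev i, G (ev i)⟫ - ∑ i, ⟪ev i, G (S.Nm ξ z s (ev i))⟫ +
      ⟪∑ i, (S.dlift ξ z s (ev i) - fderiv ℝ (sgW S.w) ξ (ev i - S.Nm ξ z s (ev i)) /
        sgW S.w ξ) • ev i, v⟫) / sgW S.w ξ =
      S.dlift ξ z s ((sgW S.w ξ)⁻¹ • v) + ∑ l, ⟪s l, S.lift ξ z (((sgW S.w ξ)⁻¹ • G +
        ((-(sgW S.w ξ ^ 2)⁻¹) • fderiv ℝ (sgW S.w) ξ).smulRight v) (S.eta ξ z (s l)))⟫ := by
  rw [(S.Nm_bd ξ hz hs _).2.2.1, S.dlift_linear ξ z s ((sgW S.w ξ)⁻¹ • v), sum_inner,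
    ← Finset.sum_sub_distrib, ← Finset.sum_sub_distrib, ← Finset.sum_add_distrib,
    ← Finset.sum_add_distrib, Finset.sum_div]
  refine Finset.sum_congr rfl fun i _ => ?_
  have hp := (S.BaseC_pos ξ).ne'
  simp only [_root_.add_apply, _root_.smul_apply,
    ContinuousLinearMap.smulRight_apply, inner_add_right, real_inner_smul_right,
    real_inner_smul_left, map_sub, smul_eq_mul, PiLp.smul_apply, inner_ev i v]
  field_simp
  ring

theorem BaseC_Bv {c : ℝ} (h : ∀ e, |S.dlift ξ z s e - fderiv ℝ (sgW S.w) ξ e /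
      sgW S.w ξ| ≤ c * (S.tilt ξ s + ‖z‖ ^ 2) * ‖e‖) :
    ‖∑ i, (S.dlift ξ z s (ev i) - fderiv ℝ (sgW S.w) ξ (ev i - S.Nm ξ z s (ev i)) /
        sgW S.w ξ) • (ev i : E m)‖ ≤ m * (c + 2 * m) * (S.tilt ξ s + ‖z‖ ^ 2) := by
  have hd := (S.str_bd ξ hs).1
  have hm : (0 : ℝ) ≤ m := Nat.cast_nonneg m
  refine (norm_sum_le _ _).trans ((Finset.sum_le_sum (g := fun _ =>
    (c + 2 * m) * (S.tilt ξ s + ‖z‖ ^ 2)) fun i _ => ?_).trans (by simp [mul_assoc]))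
  have h1 := h (ev i)
  have h2 := S.BaseC_dsg ξ (S.Nm ξ z s (ev i))
  have h3 := ((S.Nm ξ z s).le_opNorm (ev i)).trans
    (mul_le_mul_of_nonneg_right (S.Nm_bd ξ hz hs 0).1 (norm_nonneg _))
  rw [norm_ev, mul_one] at h1 h3
  rw [norm_smul, norm_ev, mul_one, Real.norm_eq_abs, map_sub, sub_div, ← sub_add]
  have h4 := mul_le_mul_of_nonneg_left h3 hm
  have h5 := mul_nonneg hm (sq_nonneg ‖z‖)
  refine (abs_add_le _ _).trans ?_
  linarith only [h1, h2, h4, h5]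

theorem BaseC_outer (hn : (S.La ξ).adjoint z = 0) {c : ℝ} (hc : 0 ≤ c)
    (h : |∑ l, ⟪s l, S.mm ξ z (s l)⟫ - S.tilt ξ s| ≤ c * (‖z‖ ^ 2 + ‖z‖ * S.tilt ξ s))
    (g : ℝ) (G : E m →L[ℝ] ℝ) :
    |(g * S.tilt ξ s + G (∑ l, ⟪z, s l⟫ • S.al ξ (s l))) / sgW S.w ξ -
      ∑ l, ⟪s l, (g * (sgW S.w ξ)⁻¹) • S.mm ξ z (s l) +
        (g * (-(sgW S.w ξ ^ 2)⁻¹ * fderiv ℝ (sgW S.w) ξ (S.eta ξ z (s l))) +
          (sgW S.w ξ)⁻¹ * G (S.eta ξ z (s l))) • z⟫| ≤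
      (c * (m + 1) + 2 * m ^ 2 + m) * ((|g| * (‖z‖ ^ 2 + √(‖z‖ ^ 2 * S.tilt ξ s)) +
        ‖G‖ * ‖z‖ ^ 2) / sgW S.w ξ) := by
  obtain ⟨hd, hdm, -⟩ := S.str_bd ξ hs
  have hm : (0 : ℝ) ≤ m := Nat.cast_nonneg m
  have hp := S.BaseC_pos ξ
  have hr : √(‖z‖ ^ 2 * S.tilt ξ s) = ‖z‖ * √(S.tilt ξ s) := by
    rw [Real.sqrt_mul (sq_nonneg _), Real.sqrt_sq (norm_nonneg _)]
  have hr0 : 0 ≤ ‖z‖ * √(S.tilt ξ s) := mul_nonneg (norm_nonneg _) (Real.sqrt_nonneg _)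
  have h1 : ‖z‖ * S.tilt ξ s ≤ (m + 1) * (‖z‖ * √(S.tilt ξ s)) := by
    have e1 : √(S.tilt ξ s) ≤ m + 1 := Real.sqrt_le_iff.2 ⟨by linarith only [hm], by
      nlinarith only [hm, hdm]⟩
    calc _ = √(S.tilt ξ s) * (‖z‖ * √(S.tilt ξ s)) := by
          rw [mul_left_comm, Real.mul_self_sqrt hd]
      _ ≤ _ := mul_le_mul_of_nonneg_right e1 hr0
  have h2 : |∑ l, ⟪z, s l⟫ * G (S.al ξ (s l) - S.eta ξ z (s l))| ≤ m * (‖G‖ * ‖z‖ ^ 2) := by
    refine BaseC_sum fun l => ?_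
    have e1 := (S.eta_calc ξ hz (s l)).2.2.2.1
    have e2 := abs_real_inner_le_norm z (s l)
    rw [hs.1 l, mul_one] at e2
    have e3 : ‖S.al ξ (s l) - S.eta ξ z (s l)‖ ≤ ‖z‖ := by
      rw [norm_sub_rev, e1]
      refine ((S.KK ξ z).le_opNorm _).trans ((mul_le_mul (S.II_calc ξ 0 0 z).2.2.2.1
        (S.BaseC_eta hz hs l) (norm_nonneg _) (by positivity)).trans ?_)
      linarith only [norm_nonneg z]
    rw [abs_mul]
    calc _ ≤ ‖z‖ * (‖G‖ * ‖z‖) := mul_le_mul e2 ((G.le_opNorm _).trans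
          (mul_le_mul_of_nonneg_left e3 (norm_nonneg _))) (abs_nonneg _) (norm_nonneg _)
      _ = _ := by ring
  have h3 : |∑ l, ⟪z, s l⟫ * (fderiv ℝ (sgW S.w) ξ (S.eta ξ z (s l)) / sgW S.w ξ)| ≤
      m * (‖z‖ * √(S.tilt ξ s) * (m * 2)) := by
    refine BaseC_sum fun l => ?_
    rw [abs_mul]
    exact mul_le_mul (S.BaseC_zbd hn s l) ((S.BaseC_dsg ξ _).trans
      (mul_le_mul_of_nonneg_left (S.BaseC_eta hz hs l) hm)) (abs_nonneg _) hr0
  have e : (g * S.tilt ξ s + G (∑ l, ⟪z, s l⟫ • S.al ξ (s l))) / sgW S.w ξ -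
      ∑ l, ⟪s l, (g * (sgW S.w ξ)⁻¹) • S.mm ξ z (s l) +
        (g * (-(sgW S.w ξ ^ 2)⁻¹ * fderiv ℝ (sgW S.w) ξ (S.eta ξ z (s l))) +
          (sgW S.w ξ)⁻¹ * G (S.eta ξ z (s l))) • z⟫ =
      (-g * (∑ l, ⟪s l, S.mm ξ z (s l)⟫ - S.tilt ξ s) +
        ∑ l, ⟪z, s l⟫ * G (S.al ξ (s l) - S.eta ξ z (s l)) +
        g * ∑ l, ⟪z, s l⟫ * (fderiv ℝ (sgW S.w) ξ (S.eta ξ z (s l)) / sgW S.w ξ)) /
          sgW S.w ξ := by
    rw [map_sum, mul_sub, Finset.mul_sum, Finset.mul_sum, add_div, Finset.sum_div, add_div,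
      add_div, sub_div, Finset.sum_div, Finset.sum_div, Finset.sum_div, add_sub_assoc,
      ← Finset.sum_sub_distrib, sub_eq_neg_add (∑ _, _), add_assoc, add_assoc,
      ← Finset.sum_add_distrib, ← Finset.sum_add_distrib]
    congr 1
    · ring
    refine Finset.sum_congr rfl fun l _ => ?_
    simp only [map_sub, map_smul, smul_eq_mul, inner_add_right, real_inner_smul_right,
      real_inner_comm z]
    field_simp
    ring
  rw [e, hr, abs_div, abs_of_pos hp, ← mul_div_assoc]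
  refine div_le_div_of_nonneg_right ?_ hp.le
  have hg := abs_nonneg g
  have hG := mul_nonneg (norm_nonneg G) (sq_nonneg ‖z‖)
  have a1 : |-g * (∑ l, ⟪s l, S.mm ξ z (s l)⟫ - S.tilt ξ s)| ≤
      c * (m + 1) * (|g| * (‖z‖ ^ 2 + ‖z‖ * √(S.tilt ξ s))) := by
    rw [abs_mul, abs_neg, mul_left_comm]
    refine mul_le_mul_of_nonneg_left (h.trans ?_) hg
    rw [mul_assoc]
    refine mul_le_mul_of_nonneg_left ?_ hc
    have := mul_nonneg hm (sq_nonneg ‖z‖)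
    linarith only [h1, this]
  have a3 : |g * ∑ l, ⟪z, s l⟫ * (fderiv ℝ (sgW S.w) ξ (S.eta ξ z (s l)) / sgW S.w ξ)| ≤
      2 * m ^ 2 * (|g| * (‖z‖ ^ 2 + ‖z‖ * √(S.tilt ξ s))) := by
    rw [abs_mul, mul_left_comm]
    refine mul_le_mul_of_nonneg_left (h3.trans ?_) hg
    have := mul_nonneg (sq_nonneg (m : ℝ)) (sq_nonneg ‖z‖)
    linarith only [this]
  have b0 : 0 ≤ |g| * (‖z‖ ^ 2 + ‖z‖ * √(S.tilt ξ s)) :=
    mul_nonneg hg (add_nonneg (sq_nonneg _) hr0)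
  have b1 := mul_nonneg hm b0
  have b2 := mul_nonneg (mul_nonneg hc (by linarith only [hm] : (0 : ℝ) ≤ m + 1)) hG
  have b3 := mul_nonneg (sq_nonneg (m : ℝ)) hG
  refine ((abs_add_le _ _).trans (add_le_add ((abs_add_le _ _).trans (add_le_add a1 h2)) a3)).trans ?_
  linarith only [b1, b2, b3]

theorem BaseC_outer2 (hn : (S.La ξ).adjoint z = 0) {T : ℝ} (hT : ‖z‖ ≤ T) (v : E m)
    (G : E m →L[ℝ] E m) :
    |(2 * ⟪∑ l, ⟪z, s l⟫ • S.al ξ (s l), gW S.w ξ v⟫ + ‖z‖ ^ 2 * ∑ i, ⟪ev i, G (ev i)⟫) /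
        sgW S.w ξ -
      ∑ l, ⟪s l, (‖z‖ ^ 2 * (sgW S.w ξ)⁻¹) • (S.La ξ (G (S.eta ξ z (s l))) +
          fderiv ℝ (fderiv ℝ S.w) ξ (S.eta ξ z (s l)) v) +
        (‖z‖ ^ 2 * (-(sgW S.w ξ ^ 2)⁻¹ * fderiv ℝ (sgW S.w) ξ (S.eta ξ z (s l))) +
          (sgW S.w ξ)⁻¹ * (2 * ⟪z, S.mm ξ z (s l)⟫)) • S.La ξ v⟫| ≤
      (4 * m ^ 2 + 2 * m) * (‖z‖ ^ 2 * (‖v‖ + (T + S.tilt ξ s) * ‖G‖) / sgW S.w ξ) := by
  have hd := (S.str_bd ξ hs).1
  have hm : (0 : ℝ) ≤ m := Nat.cast_nonneg m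
  have hp := S.BaseC_pos ξ
  have hv := norm_nonneg v
  have hmm : ∀ l, ⟪z, S.mm ξ z (s l)⟫ = ⟪z, s l⟫ := fun l => by
    rw [mm, inner_sub_right, S.BaseC_zs hn, sub_zero]
  have hal : ∀ l, ⟪S.al ξ (s l), gW S.w ξ v⟫ = ⟪s l, S.La ξ v⟫ := fun l => by
    rw [(S.al_calc ξ v (s l)).2.2.1, gW_symm]
  have h1 := (S.Nm_bd ξ hz hs G).2.2.2
  have h2 : |∑ l, ⟪s l, fderiv ℝ (fderiv ℝ S.w) ξ (S.eta ξ z (s l)) v⟫| ≤ m * ‖v‖ := by
    refine BaseC_sum fun l => (abs_real_inner_le_norm _ _).trans ?_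
    rw [hs.1 l, one_mul]
    refine (ContinuousLinearMap.le_opNorm _ _).trans (mul_le_of_le_one_left hv ?_)
    refine (ContinuousLinearMap.le_opNorm _ _).trans ((mul_le_mul (S.b2 ξ)
      (S.BaseC_eta hz hs l) (norm_nonneg _) (by norm_num)).trans (by norm_num))
  have h3 : |∑ l, fderiv ℝ (sgW S.w) ξ (S.eta ξ z (s l)) / sgW S.w ξ * ⟪s l, S.La ξ v⟫| ≤
      m * (m * 2 * (2 * ‖v‖)) := by
    refine BaseC_sum fun l => ?_
    rw [abs_mul]
    refine mul_le_mul ((S.BaseC_dsg ξ _).trans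
      (mul_le_mul_of_nonneg_left (S.BaseC_eta hz hs l) hm)) ((abs_real_inner_le_norm _ _).trans ?_)
      (abs_nonneg _) (by positivity)
    rw [hs.1 l, one_mul]
    exact ((S.La ξ).le_opNorm v).trans (mul_le_mul_of_nonneg_right
      ((S.La_bd ξ 0 0).2.2.2.2.1.trans (by norm_num)) hv)
  have e : (2 * ⟪∑ l, ⟪z, s l⟫ • S.al ξ (s l), gW S.w ξ v⟫ + ‖z‖ ^ 2 * ∑ i, ⟪ev i, G (ev i)⟫) /
        sgW S.w ξ -
      ∑ l, ⟪s l, (‖z‖ ^ 2 * (sgW S.w ξ)⁻¹) • (S.La ξ (G (S.eta ξ z (s l))) +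
          fderiv ℝ (fderiv ℝ S.w) ξ (S.eta ξ z (s l)) v) +
        (‖z‖ ^ 2 * (-(sgW S.w ξ ^ 2)⁻¹ * fderiv ℝ (sgW S.w) ξ (S.eta ξ z (s l))) +
          (sgW S.w ξ)⁻¹ * (2 * ⟪z, S.mm ξ z (s l)⟫)) • S.La ξ v⟫ =
      ‖z‖ ^ 2 * (-(∑ l, ⟪s l, S.La ξ (G (S.eta ξ z (s l)))⟫ - ∑ i, ⟪ev i, G (ev i)⟫) -
        ∑ l, ⟪s l, fderiv ℝ (fderiv ℝ S.w) ξ (S.eta ξ z (s l)) v⟫ +
        ∑ l, fderiv ℝ (sgW S.w) ξ (S.eta ξ z (s l)) / sgW S.w ξ * ⟪s l, S.La ξ v⟫) /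
          sgW S.w ξ := by
    rw [sum_inner, Finset.mul_sum, Finset.mul_sum, ← Finset.sum_add_distrib, Finset.sum_div,
      ← Finset.sum_sub_distrib, ← Finset.sum_sub_distrib, ← Finset.sum_neg_distrib,
      ← Finset.sum_sub_distrib, ← Finset.sum_add_distrib, Finset.mul_sum, Finset.sum_div]
    refine Finset.sum_congr rfl fun l _ => ?_
    simp only [hmm, hal, inner_add_right, real_inner_smul_right, real_inner_smul_left]
    field_simp
    ring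
  rw [e, abs_div, abs_of_pos hp, ← mul_div_assoc]
  refine div_le_div_of_nonneg_right ?_ hp.le
  rw [abs_mul, abs_of_nonneg (sq_nonneg ‖z‖), mul_left_comm]
  refine mul_le_mul_of_nonneg_left ?_ (sq_nonneg _)
  have a1 : 2 * m * (‖z‖ + S.tilt ξ s) * ‖G‖ ≤ 2 * m * ((T + S.tilt ξ s) * ‖G‖) := by
    rw [mul_assoc]
    exact mul_le_mul_of_nonneg_left (mul_le_mul_of_nonneg_right (by linarith only [hT])
      (norm_nonneg _)) (by positivity)
  have b0 : 0 ≤ (T + S.tilt ξ s) * ‖G‖ :=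
    mul_nonneg (add_nonneg ((norm_nonneg _).trans hT) hd) (norm_nonneg _)
  have b1 := mul_nonneg (sq_nonneg (m : ℝ)) b0
  have b2 := mul_nonneg hm hv
  refine ((abs_add_le _ _).trans (add_le_add ((abs_sub _ _).trans
    (add_le_add ((abs_neg _).trans_le (h1.trans a1)) h2)) h3)).trans ?_
  linarith only [b1, b2]

end

/-- the stress of the inner variation -/
noncomputable def NmY (y : E N) : E m →L[ℝ] E m := S.Nm (S.zeta y) (S.zz y) fun l => fr.s l y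

/-- the term of order zero of the inner variation -/
noncomputable def BvY (y : E N) : E m :=
  ∑ i, (S.dlift (S.zeta y) (S.zz y) (fun l => fr.s l y) (ev i) -
    fderiv ℝ (sgW S.w) (S.zeta y) (ev i - S.NmY fr y (ev i)) / sgW S.w (S.zeta y)) • ev i

theorem measurable_BvY : Measurable (S.BvY fr) := by
  obtain ⟨-, -, -, -, -, m1, m2, -⟩ := S.measurable_all fr
  have m3 := S.measurable_zeta.1
  have c1 := S.BaseC_sg.continuous
  have c2 := S.BaseC_sg.continuous_fderiv (by norm_num)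
  refine Finset.measurable_sum _ fun i _ => Measurable.smul_const ((m2 _).sub
    (Measurable.div ?_ (c1.measurable.comp m3))) _
  have e : (fun y => fderiv ℝ (sgW S.w) (S.zeta y) (ev i - S.NmY fr y (ev i))) = fun y =>
      fderiv ℝ (sgW S.w) (S.zeta y) (ev i) - ∑ j, ⟪ev j, S.NmY fr y (ev i)⟫ *
        fderiv ℝ (sgW S.w) (S.zeta y) (ev j) := by
    funext y
    rw [map_sub]
    congr 1
    conv_lhs => rw [← sum_ev (S.NmY fr y (ev i)), map_sum]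
    simp only [map_smul, smul_eq_mul]
  have m4 : ∀ j, Measurable fun y => fderiv ℝ (sgW S.w) (S.zeta y) (ev j) := fun j =>
    (c2.clm_apply continuous_const).measurable.comp m3
  rw [e]
  exact (m4 i).sub (Finset.measurable_sum _ fun j _ => (m1 _ _).mul (m4 j))

end Ref

namespace Piece

/-- `fv` for `Ψ (ξ, z) = lift ξ z (W ξ)` with `W = (sgW)⁻¹ • V`; the divergence is
`dlift (W ζ) + ∑ ⟪s_l, lift (DW η_l)⟫` (`contDiff_lift`, `Nm_bd`), and
`sgW • DW = DV - V ⊗ D log sgW`. -/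
theorem inner {S : Ref m N} {fr : Fr m N} {μ : Measure (E N)} {y₀ : E N} {R T A : ℝ}
    (P : Piece S fr μ y₀ R T A) {V : E m → E m} (hV : Test 1 V (S.dom y₀ (R - T))) :
    ∫ y, (dv V (S.zeta y) - ∑ i, ⟪ev i, fderiv ℝ V (S.zeta y) (S.NmY fr y (ev i))⟫ +
      ⟪S.BvY fr y, V (S.zeta y)⟫) / sgW S.w (S.zeta y) ∂μ = 0 := by
  obtain ⟨k1, k2, -⟩ := BaseC_test hV
  have hΨ : ContDiff ℝ 1 fun q : E m × E N => S.lift q.1 q.2 ((sgW S.w q.1)⁻¹ • V q.1) :=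
    S.BaseC_L_cd.clm_apply ((S.BaseC_inv.smul k1).comp contDiff_fst)
  rw [← (P.fv hΨ hV.cpt.isCompact hV.supp fun q hq => by
    rw [image_eq_zero_of_notMem_tsupport hq, smul_zero, ← S.BaseC_L_apply, map_zero]).2]
  refine integral_congr_ae (.of_forall fun y => ?_)
  have h1 := (S.BaseC_u (S.zeta y)).fun_smul (k2 (S.zeta y)).hasFDerivAt
  have h2 := fun v => S.BaseC_fd_lift (q := (S.zeta y, S.zz y))
    (W := fun ξ => (sgW S.w ξ)⁻¹ • V ξ) h1 v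
  simp only [h2, inner_add_right, Finset.sum_add_distrib]
  exact S.BaseC_inner (S.zz_bd y).1 (fr.orth y) (V (S.zeta y)) (fderiv ℝ V (S.zeta y))

/-- `dlift_bd`, `Nm_bd`, `dgW_bd`. Outer variation: `fv` for `(g ξ / sgW ξ) • z` (`div_jac`;
`∑ ⟪z, s_l⟫ η_l = (1 - K)⁻¹ p` and `‖p‖² ≤ h d` by `str_bd`). Third identity: `fv` for
`(‖z‖² / sgW ξ) • La ξ (V ξ)`; the derivative of `‖z‖²` along `dir l` is `2 ⟪z, s_l⟫` because `z` is
normal. -/
theorem outer (m : ℕ) : ∃ c : ℝ, 1 ≤ c ∧ ∀ {N : ℕ} {S : Ref m N} {fr : Fr m N}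
    {μ : Measure (E N)} {y₀ : E N} {R T A : ℝ}, Piece S fr μ y₀ R T A →
    (∀ y, S.zeta y ∈ S.D → ‖S.BvY fr y‖ ≤ c * (S.dd fr y + ‖S.zz y‖ ^ 2)) ∧
    (∀ g : E m → ℝ, Test 1 g (S.dom y₀ (R - T)) →
      |∫ y, (g (S.zeta y) * S.dd fr y + fderiv ℝ g (S.zeta y) (S.pp fr y)) /
          sgW S.w (S.zeta y) ∂μ| ≤
        c * ∫ y, (|g (S.zeta y)| * (‖S.zz y‖ ^ 2 + √(‖S.zz y‖ ^ 2 * S.dd fr y)) +
          ‖fderiv ℝ g (S.zeta y)‖ * ‖S.zz y‖ ^ 2) / sgW S.w (S.zeta y) ∂μ) ∧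
    ∀ V : E m → E m, Test 1 V (S.dom y₀ (R - T)) →
      |∫ y, (2 * ⟪S.pp fr y, gW S.w (S.zeta y) (V (S.zeta y))⟫ + ‖S.zz y‖ ^ 2 * dv V (S.zeta y)) /
          sgW S.w (S.zeta y) ∂μ| ≤
        c * ∫ y, ‖S.zz y‖ ^ 2 * (‖V (S.zeta y)‖ + (T + S.dd fr y) * ‖fderiv ℝ V (S.zeta y)‖) /
          sgW S.w (S.zeta y) ∂μ := by
  obtain ⟨c₁, hc₁, h₁⟩ := Ref.dlift_bd m
  obtain ⟨c₂, hc₂, h₂⟩ := Ref.div_jac m
  have hm : (0 : ℝ) ≤ m := Nat.cast_nonneg m
  have p1 : 0 ≤ m * (c₁ + 2 * m) := by positivity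
  have p2 : 0 ≤ c₂ * (m + 1) + 2 * m ^ 2 + m := by positivity
  have p3 : (0 : ℝ) ≤ 4 * m ^ 2 + 2 * m := by positivity
  refine ⟨1 + m * (c₁ + 2 * m) + (c₂ * (m + 1) + 2 * m ^ 2 + m) + (4 * m ^ 2 + 2 * m),
    by linarith only [p1, p2, p3], fun {N S fr μ y₀ R T A} P => ?_⟩
  obtain ⟨-, m1, -⟩ := S.measurable_all fr
  obtain ⟨m3, m4⟩ := S.measurable_zeta
  have m5 : Measurable fun y => sgW S.w (S.zeta y) := S.BaseC_sg.continuous.measurable.comp m3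
  have m2 : Measurable fun y => ‖S.zz y‖ ^ 2 := m4.norm.pow_const 2
  have hh : ∀ y, ‖S.zz y‖ ^ 2 ≤ 1 := fun y =>
    (pow_le_pow_left₀ (norm_nonneg _) (S.zz_bd y).1 2).trans (by norm_num)
  have hint : ∀ (f : E N → ℝ) (M : ℝ), Measurable f → (∀ y, 0 ≤ f y ∧ f y ≤ M) →
      Integrable (fun y => f y / sgW S.w (S.zeta y)) μ := fun f M hf h =>
    P.integrable_of_bd (hf.div m5) (M := M) fun y _ _ => by
      rw [Real.norm_of_nonneg (div_nonneg (h y).1 (S.BaseC_pos _).le)]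
      exact (div_le_self (h y).1 (sgW_bd S.w _).2.1).trans (h y).2
  refine ⟨fun y hy => ?_, fun g hg => ?_, fun V hV => ?_⟩
  · refine (S.BaseC_Bv (S.zz_bd y).1 (fr.orth y) fun e =>
      h₁ S _ _ _ e hy (S.zz_bd y).1 (fr.orth y)).trans ?_
    exact mul_le_mul_of_nonneg_right (by linarith only [p2, p3])
      (add_nonneg (S.dd_bd fr y).1 (sq_nonneg _))
  · obtain ⟨k1, k2, k6, k7, M, k0, k8, k9⟩ := BaseC_test hg
    have b0 : ∀ y, 0 ≤ |g (S.zeta y)| * (‖S.zz y‖ ^ 2 + √(‖S.zz y‖ ^ 2 * S.dd fr y)) +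
        ‖fderiv ℝ g (S.zeta y)‖ * ‖S.zz y‖ ^ 2 := fun y => by positivity
    obtain ⟨i1, i2⟩ := P.fv (Ψ := fun q => (g q.1 * (sgW S.w q.1)⁻¹) • q.2)
      (((k1.mul S.BaseC_inv).comp contDiff_fst).smul contDiff_snd) hg.cpt.isCompact hg.supp
      fun q hq => by simp only [image_eq_zero_of_notMem_tsupport hq, zero_mul, zero_smul]
    refine BaseC_cmp i1 i2 (hint _ (M * (1 + √(1 * m)) + M * 1) (((k6.measurable.comp m3).abs.mul
      (m2.add (m2.mul m1).sqrt)).add ((k7.norm.measurable.comp m3).mul m2)) fun y => ⟨b0 y, ?_⟩) _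
      (P.ae_tube.mono fun y hy => ?_)
    · obtain ⟨a3, a4, -⟩ := S.dd_bd fr y
      exact add_le_add (mul_le_mul (k8 _) (add_le_add (hh y) (Real.sqrt_le_sqrt
        (mul_le_mul (hh y) a4 a3 zero_le_one))) (add_nonneg (sq_nonneg _) (Real.sqrt_nonneg _)) k0)
        (mul_le_mul (k9 _) (hh y) (sq_nonneg _) k0)
    · have h1 := ((BaseC_fst (q := (S.zeta y, S.zz y)) (k2 (S.zeta y)).hasFDerivAt).fun_mul
        (BaseC_fst (q := (S.zeta y, S.zz y)) (S.BaseC_u (S.zeta y)))).fun_smul hasFDerivAt_snd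
      rw [h1.fderiv]
      simp only [Ref.dd, Ref.pp, Ref.dir, _root_.add_apply,
        _root_.smul_apply, ContinuousLinearMap.coe_snd',
        ContinuousLinearMap.smulRight_apply, ContinuousLinearMap.comp_apply,
        ContinuousLinearMap.coe_fst', smul_eq_mul]
      refine (S.BaseC_outer (S.zz_bd y).1 (fr.orth y) (S.zz_bd y).2.2 (zero_le_one.trans hc₂)
        (h₂ S _ _ _ hy.2.2.1 (S.zz_bd y).1 (fr.orth y)).1 _ _).trans ?_
      exact mul_le_mul_of_nonneg_right (by linarith only [p1, p3])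
        (div_nonneg (b0 y) (S.BaseC_pos _).le)
  · obtain ⟨k1, k2, k6, k7, M, k0, k8, k9⟩ := BaseC_test hV
    have hT := P.T_pos.le
    have b0 : ∀ y, 0 ≤ ‖S.zz y‖ ^ 2 * (‖V (S.zeta y)‖ + (T + S.dd fr y) *
        ‖fderiv ℝ V (S.zeta y)‖) := fun y => by
      have := (S.dd_bd fr y).1
      positivity
    obtain ⟨i1, i2⟩ := P.fv (Ψ := fun q => (‖q.2‖ ^ 2 * (sgW S.w q.1)⁻¹) • S.La q.1 (V q.1))
      ((((contDiff_norm_sq ℝ).comp contDiff_snd).mul (S.BaseC_inv.comp contDiff_fst)).smul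
        (S.BaseC_La.clm_apply (k1.comp contDiff_fst))) hV.cpt.isCompact hV.supp
      fun q hq => by simp only [image_eq_zero_of_notMem_tsupport hq, map_zero, smul_zero]
    refine BaseC_cmp i1 i2 (hint _ (1 * (M + (T + m) * M)) (m2.mul
      ((k6.norm.measurable.comp m3).add ((m1.const_add T).mul (k7.norm.measurable.comp m3))))
      fun y => ⟨b0 y, ?_⟩) _ (P.ae_tube.mono fun y hy => ?_)
    · obtain ⟨a3, a4, -⟩ := S.dd_bd fr y
      exact mul_le_mul (hh y) (add_le_add (k8 _) (mul_le_mul (by linarith only [a4]) (k9 _)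
        (norm_nonneg _) (add_nonneg hT hm)))
        (add_nonneg (norm_nonneg _) (mul_nonneg (add_nonneg hT a3) (norm_nonneg _))) zero_le_one
    · have h0 : HasFDerivAt S.La (fderiv ℝ (fderiv ℝ S.w) (S.zeta y)) (S.zeta y) := by
        rw [← (S.F_calc (S.zeta y)).2.2.2.1]
        exact ((S.F_calc 0).2.2.1.differentiable (by norm_num) _).hasFDerivAt
      have h1 := ((hasFDerivAt_snd (p := (S.zeta y, S.zz y))).norm_sq.fun_mul
        (BaseC_fst (q := (S.zeta y, S.zz y)) (S.BaseC_u (S.zeta y)))).fun_smul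
          ((BaseC_fst (q := (S.zeta y, S.zz y)) h0).clm_apply
            (BaseC_fst (q := (S.zeta y, S.zz y)) (k2 (S.zeta y)).hasFDerivAt))
      rw [h1.fderiv]
      simp only [Ref.dd, Ref.pp, Ref.dir, dv, _root_.add_apply,
        _root_.smul_apply, ContinuousLinearMap.coe_snd',
        ContinuousLinearMap.smulRight_apply, ContinuousLinearMap.comp_apply,
        ContinuousLinearMap.coe_fst', smul_eq_mul, ContinuousLinearMap.flip_apply,
        coe_innerSL_apply, nsmul_eq_mul, Nat.cast_ofNat]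
      refine (S.BaseC_outer2 (S.zz_bd y).1 (fr.orth y) (S.zz_bd y).2.2 hy.2.1 _ _).trans ?_
      exact mul_le_mul_of_nonneg_right (by linarith only [p1, p2])
        (div_nonneg (b0 y) (S.BaseC_pos _).le)

end Piece

end Pool.Agent.MP_f6c0e6_an.Gen

end

section

/-! The base model of a piece. -/

set_option autoImplicit false

open MeasureTheory Filter Topology Set Metric
open scoped ENNReal RealInnerProductSpace

namespace Pool.Agent.MP_f6c0e6_an.Gen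

variable {m N : ℕ}

/-- the relation between a piece and its base model -/
structure Dict {c : ℝ} (S : Ref m N) (fr : Fr m N) (μ : Measure (E N)) (y₀ : E N) (R T : ℝ)
    (B : Base m c (E N)) : Prop where
  ζ_eq : B.ζ = S.zeta
  d_eq : B.d = S.dd fr
  h_eq : B.h = fun y => ‖S.zz y‖ ^ 2
  T_eq : B.T = T
  R_eq : B.R = R - 2 * T
  ξ_eq : B.ξ₀ = pr S.ι y₀
  r2_eq : B.r2 = S.r2 (pr S.ι y₀)
  int : ∀ f : E N → ℝ, ∫ y, f y ∂B.μ = ∫ y, f y / sgW S.w (S.zeta y) ∂μ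
  Y_eq : ∀ Q g, B.Y Q g = S.YF fr μ Q g
  cmp : ∀ (f : E N → ℝ) (Z : Set (E N)), MeasurableSet Z → Integrable f μ → (∀ y, 0 ≤ f y) →
    ∫ y in Z, f y ∂B.μ ≤ ∫ y in Z, f y ∂μ ∧ ∫ y in Z, f y ∂μ ≤ 2 ^ m * ∫ y in Z, f y ∂B.μ

theorem BaseD_sg (S : Ref m N) (x : E m) : 1 ≤ sgW S.w x ∧ sgW S.w x ≤ 2 ^ m :=
  ⟨(sgW_bd S.w x).2.1, (sgW_bd S.w x).2.2 ((S.b1 x).trans (by norm_num))⟩

theorem BaseD_cg (S : Ref m N) : ContDiff ℝ 1 (gW S.w) ∧ Continuous (sgW S.w) := by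
  have h : ContDiff ℝ (1 + 1 : ℕ) S.w := S.smooth.of_le (by norm_num)
  obtain ⟨h1, -, h3⟩ := contDiff_gW (n := 1) h
  exact ⟨by exact_mod_cast h1, h3.continuous⟩

theorem BaseD_msg (S : Ref m N) : Measurable fun y => sgW S.w (S.zeta y) :=
  (BaseD_cg S).2.measurable.comp S.measurable_zeta.1

/-- the measure of the base model -/
noncomputable def BaseD_mu (S : Ref m N) (μ : Measure (E N)) : Measure (E N) :=
  μ.withDensity fun y => ENNReal.ofReal (sgW S.w (S.zeta y))⁻¹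

theorem BaseD_int (S : Ref m N) (μ : Measure (E N)) (f : E N → ℝ) :
    ∫ y, f y ∂BaseD_mu S μ = ∫ y, f y / sgW S.w (S.zeta y) ∂μ := by
  have hm : Measurable fun y => ENNReal.ofReal (sgW S.w (S.zeta y))⁻¹ :=
    (BaseD_msg S).inv.ennreal_ofReal
  rw [BaseD_mu, integral_withDensity_eq_integral_toReal_smul hm
    (Eventually.of_forall fun y => ENNReal.ofReal_lt_top)]
  refine integral_congr_ae (Eventually.of_forall fun y => ?_)
  have h2 : 0 ≤ (sgW S.w (S.zeta y))⁻¹ := inv_nonneg.2 (zero_le_one.trans (BaseD_sg S _).1)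
  simp only [ENNReal.toReal_ofReal h2, smul_eq_mul]
  rw [div_eq_inv_mul]

theorem BaseD_le (S : Ref m N) (μ : Measure (E N)) : BaseD_mu S μ ≤ μ := by
  conv_rhs => rw [← withDensity_one (μ := μ)]
  refine withDensity_mono (Eventually.of_forall fun y => ?_)
  simp only [Pi.one_apply]
  exact ENNReal.ofReal_le_one.2 (inv_le_one_of_one_le₀ (BaseD_sg S _).1)

theorem BaseD_cmp (S : Ref m N) (μ : Measure (E N)) (f : E N → ℝ) (Z : Set (E N))
    (hZ : MeasurableSet Z) (hf : Integrable f μ) (h0 : ∀ y, 0 ≤ f y) :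
    ∫ y in Z, f y ∂BaseD_mu S μ ≤ ∫ y in Z, f y ∂μ ∧
      ∫ y in Z, f y ∂μ ≤ 2 ^ m * ∫ y in Z, f y ∂BaseD_mu S μ := by
  have hi : Integrable (Z.indicator f) μ := hf.indicator hZ
  have hp : ∀ y, 0 ≤ Z.indicator f y := fun y => indicator_nonneg (fun y _ => h0 y) y
  have hj : Integrable (fun y => Z.indicator f y / sgW S.w (S.zeta y)) μ := by
    refine hi.mono' (hi.1.aemeasurable.div (BaseD_msg S).aemeasurable).aestronglyMeasurable
      (Eventually.of_forall fun y => ?_)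
    have h1 := (BaseD_sg S (S.zeta y)).1
    rw [Real.norm_of_nonneg (div_nonneg (hp y) (by linarith))]
    exact div_le_self (hp y) h1
  rw [← integral_indicator hZ, ← integral_indicator hZ, BaseD_int, ← integral_const_mul]
  refine ⟨integral_mono hj hi fun y => div_le_self (hp y) (BaseD_sg S _).1,
    integral_mono hi (hj.const_mul _) fun y => ?_⟩
  obtain ⟨h1, h2⟩ := BaseD_sg S (S.zeta y)
  simp only
  rw [← mul_div_assoc, le_div_iff₀ (by linarith), mul_comm]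
  exact mul_le_mul_of_nonneg_right h2 (hp y)

theorem BaseD_mvol (S : Ref m N) (fr : Fr m N) :
    Measurable fun y => vol fun l => S.eta (S.zeta y) (S.zz y) (fr.s l y) := by
  have h1 : Continuous fun v : Fin m → E m => vol v := by
    unfold vol
    refine Continuous.abs (Continuous.matrix_det ?_)
    refine continuous_matrix fun i j => ?_
    simp only [Matrix.of_apply]
    fun_prop
  exact h1.measurable.comp (measurable_pi_lambda _ fun l => ((S.measurable_all fr).1 l).fst)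

theorem BaseD_area {S : Ref m N} {fr : Fr m N} {μ : Measure (E N)} {y₀ : E N} {R T A C : ℝ}
    (P : Piece S fr μ y₀ R T A) (hC : 1 ≤ C)
    (h : ∀ᵐ y ∂μ, |1 - S.dd fr y / 2 - sgW S.w (S.zeta y) *
      vol fun l => S.eta (S.zeta y) (S.zz y) (fr.s l y)| ≤ C * (S.dd fr y ^ 2 + ‖S.zz y‖ ^ 2)) :
    ∃ θ : E m → ℕ, Measurable θ ∧ ∀ ψ : E m → ℝ≥0∞, Measurable ψ →
      ∫⁻ y, ψ (S.zeta y) * ENNReal.ofReal (sgW S.w (S.zeta y) *
        vol fun l => S.eta (S.zeta y) (S.zz y) (fr.s l y)) ∂BaseD_mu S μ =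
        ∫⁻ ξ, ψ ξ * (θ ξ : ℝ≥0∞) := by
  obtain ⟨θ, h1, h2⟩ := P.area S.tube S.zeta S.isOpen_tube.1
    (fun y hy => (S.contDiffAt_zeta hy).1.contDiffWithinAt) S.measurable_zeta.1
  rw [Measure.restrict_eq_self_of_ae_mem (P.ae_tube.mono fun y hy => hy.1)] at h2
  have h3 : ∀ᵐ y ∂μ, fr.jac S.zeta y = vol fun l => S.eta (S.zeta y) (S.zz y) (fr.s l y) :=
    P.ae_tube.mono fun y hy => by simp only [Fr.jac, (S.fderiv_zeta hy.1 _).1]
  have h4 : Measurable fun ξ => (θ ξ : ℝ≥0∞) := (measurable_from_top (f := ENat.toENNReal)).comp h1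
  have := P.fin
  have h5 : ∀ᵐ ξ : E m, (θ ξ : ℝ≥0∞) < ∞ := by
    refine ae_lt_top h4 ?_
    have e := h2 1 measurable_one
    simp only [Pi.one_apply, one_mul] at e
    rw [← e]
    refine ne_top_of_le_ne_top (b := ∫⁻ _, ENNReal.ofReal (1 + C * (m ^ 2 + 1)) ∂μ) (by
      rw [lintegral_const]; exact ENNReal.mul_ne_top ENNReal.ofReal_ne_top (measure_ne_top _ _))
      (lintegral_mono_ae ?_)
    filter_upwards [h3, h] with y hy hy'
    refine ENNReal.ofReal_le_ofReal ?_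
    rw [hy]
    have b1 := (abs_le.1 hy').1
    obtain ⟨b2, b3, -⟩ := S.dd_bd fr y
    have b5 : ‖S.zz y‖ ^ 2 ≤ 1 := pow_le_one₀ (norm_nonneg _) ((S.zz_bd y).1.trans (by norm_num))
    have b4 : C * (S.dd fr y ^ 2 + ‖S.zz y‖ ^ 2) ≤ C * (m ^ 2 + 1) :=
      mul_le_mul_of_nonneg_left (add_le_add (pow_le_pow_left₀ b2 b3 2) b5) (by linarith)
    have b6 : 0 ≤ vol fun l => S.eta (S.zeta y) (S.zz y) (fr.s l y) := abs_nonneg _
    have b7 := le_mul_of_one_le_left b6 (BaseD_sg S (S.zeta y)).1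
    linarith
  refine ⟨fun ξ => (θ ξ).toNat, (measurable_from_top (f := ENat.toNat)).comp h1, fun ψ hψ => ?_⟩
  have m3 : Measurable fun y => ENNReal.ofReal (sgW S.w (S.zeta y))⁻¹ :=
    (BaseD_msg S).inv.ennreal_ofReal
  have m4 : Measurable fun y => ψ (S.zeta y) * ENNReal.ofReal (sgW S.w (S.zeta y) *
      vol fun l => S.eta (S.zeta y) (S.zz y) (fr.s l y)) :=
    (hψ.comp S.measurable_zeta.1).mul ((BaseD_msg S).mul (BaseD_mvol S fr)).ennreal_ofReal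
  rw [BaseD_mu, lintegral_withDensity_eq_lintegral_mul _ m3 m4]
  refine (lintegral_congr_ae (h3.mono fun y hy => ?_)).trans
    ((h2 ψ hψ).trans (lintegral_congr_ae (h5.mono fun ξ hξ => ?_)))
  · have : 0 < sgW S.w (S.zeta y) := zero_lt_one.trans_le (BaseD_sg S _).1
    simp only [Pi.mul_apply]
    rw [hy, mul_left_comm, ← ENNReal.ofReal_mul (inv_pos.2 this).le, inv_mul_cancel_left₀ this.ne']
  · simp only
    rw [← ENat.toENNReal_coe, ENat.natCast_toNat (by simpa using hξ.ne)]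

theorem BaseD_expand (L M : E m →L[ℝ] E m) :
    ∑ i, ∑ j, ⟪ev j, M (ev i)⟫ * ⟪ev i, L (ev j)⟫ = ∑ i, ⟪ev i, L (M (ev i))⟫ := by
  refine Finset.sum_congr rfl fun i _ => ?_
  conv_rhs => rw [← sum_ev (M (ev i)), map_sum, inner_sum]
  simp only [map_smul, real_inner_smul_right]

theorem BaseD_cmp2 {Ω : Type} [MeasurableSpace Ω] {μ : Measure Ω} {I L b : Ω → ℝ}
    (hI : Integrable I μ) (h0 : ∫ y, I y ∂μ = 0) (hb : Integrable b μ)
    (h : ∀ᵐ y ∂μ, |L y - I y| ≤ b y) : |∫ y, L y ∂μ| ≤ ∫ y, b y ∂μ := by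
  by_cases hL : Integrable L μ
  · have := norm_integral_le_of_norm_le (f := fun y => L y - I y) hb h
    rwa [integral_sub hL hI, h0, sub_zero] at this
  · rw [integral_undef hL, abs_zero]
    exact integral_nonneg_of_ae (h.mono fun y hy => (abs_nonneg _).trans hy)

theorem BaseD_test {V : E m → E m} {O : Set (E m)} (hV : Test 1 V O) : Continuous V ∧
    Continuous (fderiv ℝ V) ∧ Continuous (dv V) ∧
    ∃ M, (∀ x, ‖V x‖ ≤ M) ∧ ∀ x, ‖fderiv ℝ V x‖ ≤ M := by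
  have h0 : ContDiff ℝ 1 V := by exact_mod_cast hV.smooth
  have h1 := h0.continuous_fderiv one_ne_zero
  obtain ⟨M₁, h2⟩ := h0.continuous.bounded_above_of_compact_support hV.cpt
  obtain ⟨M₂, h3⟩ := h1.bounded_above_of_compact_support (hV.cpt.fderiv (𝕜 := ℝ))
  exact ⟨h0.continuous, h1, continuous_dv h0, max M₁ M₂, fun x => (h2 x).trans (le_max_left _ _),
    fun x => (h3 x).trans (le_max_right _ _)⟩

/-- the approximate inner variation from the exact one -/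
theorem BaseD_inn {c : ℝ} {Ω : Type} [MeasurableSpace Ω] (B : Lk m c Ω) (hc : (m : ℝ) ≤ c)
    {M M' : Ω → E m →L[ℝ] E m} (hM : ∀ y i j, B.Nm y i j = ⟪ev j, M y (ev i)⟫)
    (hM' : ∀ᵐ y ∂B.μ, ‖M y - M' y‖ ≤ B.T * B.d y) {V : E m → E m} (hV : Test 1 V B.O) :
    |∫ y, (dv V (B.ζ y) - ∑ i, ⟪ev i, fderiv ℝ V (B.ζ y) (M' y (ev i))⟫) ∂B.μ| ≤
      c * ∫ y, (B.T * B.d y * ‖fderiv ℝ V (B.ζ y)‖ + (B.d y + B.h y) * ‖V (B.ζ y)‖) ∂B.μ := by
  obtain ⟨c0, c1, c2, K, k0, k1⟩ := BaseD_test hV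
  have hc1 := B.c_ge
  have mζ := B.mζ.aestronglyMeasurable (μ := B.μ)
  have i1 : Integrable (fun y => dv V (B.ζ y)) B.μ :=
    B.integrable_of_bd (c2.measurable.comp B.mζ) (M := m * K) (Eventually.of_forall fun y =>
      (abs_dv_le V _).trans (mul_le_mul_of_nonneg_left (k1 _) (Nat.cast_nonneg _)))
  have i2 : ∀ i j, Integrable (fun y => B.Nm y i j * ⟪ev i, fderiv ℝ V (B.ζ y) (ev j)⟫) B.μ := by
    intro i j
    have e1 : Continuous fun x => ⟪ev i, fderiv ℝ V x (ev j)⟫ :=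
      continuous_const.inner (c1.clm_apply continuous_const)
    refine Integrable.mul_bdd (c := K) (B.integrable_of_bd (B.mN i j) (M := c * m)
      (B.ae.mono fun y hy => (hy.2.2.2.2.2.1 i j).trans
        (mul_le_mul_of_nonneg_left hy.2.2.1 (by linarith)))) (e1.comp_aestronglyMeasurable mζ)
      (Eventually.of_forall fun y => ?_)
    refine (abs_real_inner_le_norm _ _).trans ?_
    rw [norm_ev, one_mul]
    refine ((fderiv ℝ V (B.ζ y)).le_opNorm _).trans ?_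
    rw [norm_ev, mul_one]
    exact k1 _
  have i3 : Integrable (fun y => ⟪B.Bv y, V (B.ζ y)⟫) B.μ := by
    refine ((B.LockA_int.const_mul c).mul_const K).mono'
      (B.mBv.aestronglyMeasurable.inner (c0.comp_aestronglyMeasurable mζ))
      (B.ae.mono fun y hy => (abs_real_inner_le_norm _ _).trans ?_)
    exact mul_le_mul hy.2.2.2.2.2.2.1 (k0 _) (norm_nonneg _)
      ((norm_nonneg _).trans hy.2.2.2.2.2.2.1)
  have i4 : Integrable (fun y => B.T * B.d y * ‖fderiv ℝ V (B.ζ y)‖ +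
      (B.d y + B.h y) * ‖V (B.ζ y)‖) B.μ :=
    ((B.LockA_d.const_mul B.T).mul_bdd (c := K) (c1.norm.comp_aestronglyMeasurable mζ)
      (Eventually.of_forall fun y => by rw [norm_norm]; exact k1 _)).add
    (B.LockA_int.mul_bdd (c := K) (c0.norm.comp_aestronglyMeasurable mζ)
      (Eventually.of_forall fun y => by rw [norm_norm]; exact k0 _))
  rw [← integral_const_mul]
  refine BaseD_cmp2 ((i1.sub (integrable_finsetSum _ fun i _ =>
    integrable_finsetSum _ fun j _ => i2 i j)).add i3) (B.inner V hV) (i4.const_mul c) ?_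
  filter_upwards [B.ae, hM'] with y hy hy'
  obtain ⟨-, d0, -, h0, -, -, hB, -⟩ := hy
  simp only [hM, BaseD_expand, Pi.add_apply, Pi.sub_apply]
  have e1 := abs_sum_ev_le (fderiv ℝ V (B.ζ y) ∘L (M y - M' y))
  simp only [ContinuousLinearMap.comp_apply, sub_apply, map_sub,
    inner_sub_right, Finset.sum_sub_distrib] at e1
  have e2 : ‖fderiv ℝ V (B.ζ y) ∘L (M y - M' y)‖ ≤ B.T * B.d y * ‖fderiv ℝ V (B.ζ y)‖ := by
    rw [mul_comm]
    exact (ContinuousLinearMap.opNorm_comp_le _ _).trans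
      (mul_le_mul_of_nonneg_left hy' (norm_nonneg _))
  have e3 : (m : ℝ) * ‖fderiv ℝ V (B.ζ y) ∘L (M y - M' y)‖ ≤
      c * (B.T * B.d y * ‖fderiv ℝ V (B.ζ y)‖) :=
    mul_le_mul hc e2 (norm_nonneg _) (by linarith)
  have e4 : |⟪B.Bv y, V (B.ζ y)⟫| ≤ c * (B.d y + B.h y) * ‖V (B.ζ y)‖ :=
    (abs_real_inner_le_norm _ _).trans (mul_le_mul_of_nonneg_right hB (norm_nonneg _))
  rw [abs_le] at e1 e4 ⊢
  constructor <;> linarith [e1.1, e1.2, e4.1, e4.2, e3]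

theorem BaseD_cen (S : Ref m N) (y₀ : E N) (ξ : E m) :
    √(S.r2 (pr S.ι y₀) ξ) = ‖S.F ξ - S.F (pr S.ι y₀)‖ ∧
    ‖S.F ξ - y₀‖ ≤ ‖S.F ξ - S.F (pr S.ι y₀)‖ + ‖S.gh y₀‖ ∧
    ‖S.F ξ - S.F (pr S.ι y₀)‖ ≤ ‖S.F ξ - y₀‖ + ‖S.gh y₀‖ := by
  refine ⟨Real.sqrt_sq (norm_nonneg _), ?_, ?_⟩
  · have : S.F ξ - y₀ = S.F ξ - S.F (pr S.ι y₀) - S.gh y₀ := by rw [Ref.gh]; abel
    rw [this]
    exact norm_sub_le _ _
  · have : S.F ξ - S.F (pr S.ι y₀) = S.F ξ - y₀ + S.gh y₀ := by rw [Ref.gh]; abel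
    rw [this]
    exact norm_add_le _ _

theorem BaseD_dom {S : Ref m N} {fr : Fr m N} {μ : Measure (E N)} {y₀ : E N} {R T A : ℝ}
    (P : Piece S fr μ y₀ R T A) {F : Type} [NormedAddCommGroup F] [NormedSpace ℝ F] {V : E m → F}
    (hV : Test 1 V {ξ | S.r2 (pr S.ι y₀) ξ < (R - 2 * T) ^ 2}) :
    Test 1 V (S.dom y₀ (R - T)) := by
  refine ⟨hV.smooth, hV.cpt, hV.supp.trans fun ξ hξ => ?_⟩
  have h1 : ‖S.F ξ - S.F (pr S.ι y₀)‖ < R - 2 * T :=
    lt_of_pow_lt_pow_left₀ 2 (by linarith [P.T_pos, P.T_le]) hξ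
  have h2 := (BaseD_cen S y₀ ξ).2.1
  have h3 := P.cen
  change ‖S.F ξ - y₀‖ < R - T
  linarith

/-- The measure is `μ` with density `(sgW ∘ zeta)⁻¹`, `Nm y i j = ⟪ev j, NmY y (ev i)⟫`,
`J = sgW * jac zeta`, `θ` is the multiplicity of `AreaProp` for the open set `tube` (finite almost
everywhere; take `toNat`), `gg = gW w`, `O = {r2 < (R - 2 T)²} ⊆ dom y₀ (R - T)`. -/
theorem Piece.exists_base (m : ℕ) : ∃ c : ℝ, ∀ {N : ℕ} {S : Ref m N} {fr : Fr m N}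
    {μ : Measure (E N)} {y₀ : E N} {R T A : ℝ}, Piece S fr μ y₀ R T A →
    ∃ B : Base m c (E N), Dict S fr μ y₀ R T B ∧ B.Ex (A * 3 ^ m) := by
  obtain ⟨c1, h1, H1⟩ := Ref.div_jac m
  obtain ⟨c2, h2, H2⟩ := Piece.outer m
  obtain ⟨c3, h3, H3⟩ := Ref.X0_bd m
  have hm0 : (0 : ℝ) ≤ m := Nat.cast_nonneg m
  obtain ⟨c, g1, g2, g3, g4, g5⟩ : ∃ c : ℝ, c1 ≤ c ∧ c2 ≤ c ∧ c3 ≤ c ∧ (m : ℝ) ≤ c ∧ 2 ≤ c :=
    ⟨c1 + c2 + c3 + m, by linarith, by linarith, by linarith, by linarith, by linarith⟩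
  refine ⟨c, fun {N S fr μ y₀ R T A} P => ?_⟩
  obtain ⟨o1, o2, o3⟩ := H2 P
  have hT := P.T_pos
  have hTR := P.T_le
  have hR := P.R_le
  have hJ : ∀ᵐ y ∂μ, |1 - S.dd fr y / 2 - sgW S.w (S.zeta y) *
      vol fun l => S.eta (S.zeta y) (S.zz y) (fr.s l y)| ≤ c * (S.dd fr y ^ 2 + ‖S.zz y‖ ^ 2) :=
    P.ae_tube.mono fun y hy => (H1 S _ _ _ hy.2.2.1 (S.zz_bd y).1 (fr.orth y)).2.2.trans
      (mul_le_mul_of_nonneg_right g1 (by positivity))
  obtain ⟨θ, t1, t2⟩ := BaseD_area P (by linarith) hJ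
  obtain ⟨-, md, mp, -, mNn, mNm, -⟩ := S.measurable_all fr
  obtain ⟨r1, r2, r3⟩ := S.r2_calc (pr S.ι y₀)
  have hac : BaseD_mu S μ ≪ μ := withDensity_absolutelyContinuous _ _
  have := P.fin
  have hpos : ∀ y, 0 < sgW S.w (S.zeta y) := fun y => zero_lt_one.trans_le (BaseD_sg S _).1
  let L : Lk m c (E N) :=
    { μ := BaseD_mu S μ
      ζ := S.zeta
      d := S.dd fr
      h := fun y => ‖S.zz y‖ ^ 2
      Nm := fun y i j => ⟪ev j, S.NmY fr y (ev i)⟫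
      Bv := S.BvY fr
      J := fun y => sgW S.w (S.zeta y) * vol fun l => S.eta (S.zeta y) (S.zz y) (fr.s l y)
      θ := θ
      O := {ξ | S.r2 (pr S.ι y₀) ξ < (R - 2 * T) ^ 2}
      T := T
      c_ge := by linarith
      fin := isFiniteMeasure_of_le μ (BaseD_le S μ)
      mζ := S.measurable_zeta.1
      md := md
      mh := S.measurable_zeta.2.norm.pow_const 2
      mN := fun i j => mNm _ _
      mBv := S.measurable_BvY fr
      mJ := (BaseD_msg S).mul (BaseD_mvol S fr)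
      mθ := t1
      isOpen := isOpen_lt r1.continuous continuous_const
      ae := by
        refine hac.ae_le ?_
        filter_upwards [P.ae, P.ae_tube, hJ] with y hy hy' hy''
        obtain ⟨d0, d1, -⟩ := S.dd_bd fr y
        refine ⟨?_, d0, d1, by positivity, pow_le_pow_left₀ (norm_nonneg _) hy'.2.1 2,
          fun i j => ?_, (o1 y hy'.2.2.1).trans (mul_le_mul_of_nonneg_right g2 (by positivity)),
          mul_nonneg (hpos y).le (abs_nonneg _), hy''⟩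
        · have e1 := norm_le_norm_add_norm_sub' (S.zeta y) (pr S.ι y)
          have e2 := (norm_pr_le S.ι y).1
          have e3 := norm_le_norm_add_norm_sub' y y₀
          have e4 := mem_ball_iff_norm.1 hy.1
          have e5 := hy'.2.2.2.2.2.1
          have e6 := P.y_le
          linarith
        · have e1 := (S.Nm_bd (S.zeta y) (S.zz_bd y).1 (fr.orth y) 0).1
          refine (abs_real_inner_le_norm _ _).trans ?_
          rw [norm_ev, one_mul]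
          refine ((S.NmY fr y).le_opNorm _).trans ?_
          rw [norm_ev, mul_one]
          exact e1.trans (mul_le_mul_of_nonneg_right g5 d0)
      inner := fun V hV => by
        rw [BaseD_int]
        simp only [BaseD_expand]
        exact P.inner (BaseD_dom P hV)
      area := t2 }
  refine ⟨{ L with
      Nn := S.Nn fr
      p := S.pp fr
      gg := gW S.w
      r2 := S.r2 (pr S.ι y₀)
      X0 := S.X0 (pr S.ι y₀)
      ξ₀ := pr S.ι y₀
      R := R - 2 * T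
      R_pos := by linarith
      R_le := by linarith
      T_pos := hT
      T_le := by change T ≤ 1 / 100; linarith
      mNn := mNn
      mp := mp
      O_eq := rfl
      cgg := (BaseD_cg S).1
      cr2 := r1
      cX0 := r2
      gg_symm := gW_symm S.w
      gg_bd := fun ξ => (S.La_bd ξ 0 0).2.2.2.2.2.2.2.trans (by norm_num)
      r2_lo := fun ξ => (r3 ξ).1
      r2_hi := fun ξ => (r3 ξ).2.1
      dr2 := fun ξ => (r3 ξ).2.2.1
      X0_bd := fun ξ => (r3 ξ).2.2.2.1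
      dX0 := fun ξ hξ => ⟨(H3 S _ ξ hξ).1.trans (mul_le_mul_of_nonneg_right g3 (norm_nonneg _)),
        (H3 S _ ξ hξ).2.1.trans g3⟩
      rad0 := fun ξ hξ =>
        ⟨(H3 S _ ξ hξ).2.2.1.trans (mul_le_mul_of_nonneg_right g3 (by positivity)),
          (H3 S _ ξ hξ).2.2.2.trans (mul_le_mul_of_nonneg_right g3 (by positivity))⟩
      ae2 := Eventually.of_forall fun y => ?_
      inn := fun V hV => ?_
      outer := fun g hg => ?_
      outer2 := fun V hV => ?_ },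
    ⟨rfl, rfl, rfl, rfl, rfl, rfl, rfl, BaseD_int S μ, fun Q g => ?_, BaseD_cmp S μ⟩,
    ⟨fun ξ t h0 h1 => pow_le_pow_left₀ (norm_nonneg _) (S.F_star _ ξ h0 h1) 2,
      fun ξ => (r3 ξ).2.2.2.2.2.1, fun ξ ρ hρ => ?_⟩⟩
  · obtain ⟨s0, -, s1, s2, s3, s4, -, -, s5⟩ := S.str_bd (S.zeta y) (fr.orth y)
    exact ⟨s1, s2, s3.trans (le_mul_of_one_le_left s0 (by linarith)), s4, s5 _ (S.zz_bd y).2.2⟩
  · refine BaseD_inn L g4 (M := S.NmY fr)
      (M' := fun y => S.Nn fr y ∘L gW S.w (S.zeta y)) (fun _ _ _ => rfl) (hac.ae_le ?_) hV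
    filter_upwards [P.ae_tube] with y hy
    exact (S.Nm_bd (S.zeta y) (S.zz_bd y).1 (fr.orth y) 0).2.1.trans
      (mul_le_mul_of_nonneg_right hy.2.1 (S.dd_bd fr y).1)
  · change |∫ y, _ ∂BaseD_mu S μ| ≤ c * ∫ y, _ ∂BaseD_mu S μ
    rw [BaseD_int, BaseD_int]
    refine (o2 g (BaseD_dom P hg)).trans (mul_le_mul_of_nonneg_right g2
      (integral_nonneg fun y => div_nonneg (by positivity) (hpos y).le))
  · change |∫ y, _ ∂BaseD_mu S μ| ≤ c * ∫ y, _ ∂BaseD_mu S μ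
    rw [BaseD_int, BaseD_int]
    refine (o3 V (BaseD_dom P hV)).trans (mul_le_mul_of_nonneg_right g2
      (integral_nonneg fun y => div_nonneg ?_ (hpos y).le))
    have := (S.dd_bd fr y).1
    positivity
  · change 2 * Q * (∫ ξ, g ξ) - 2 * ∫ y, _ ∂BaseD_mu S μ = _
    rw [BaseD_int]
    rfl
  · exact (ENNReal.toReal_mono (measure_ne_top μ _) (BaseD_le S μ _)).trans (P.mass_cyl ξ hρ).1

theorem BaseD_PP {c : ℝ} {S : Ref m N} {fr : Fr m N} {μ : Measure (E N)} {y₀ : E N} {R T A : ℝ}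
    (P : Piece S fr μ y₀ R T A) {B : Base m c (E N)} (D : Dict S fr μ y₀ R T B) {Z : Set (E m)}
    (hZ : MeasurableSet Z) :
    B.PP Z ≤ ∫ y in S.zeta ⁻¹' Z, (S.dd fr y + ‖S.zz y‖ ^ 2) ∂μ ∧
    (∀ W : Set (E N), (∀ᵐ y ∂μ, y ∈ W → S.zeta y ∈ Z) →
      ∫ y in W, S.dd fr y ∂μ ≤ 2 ^ m * B.PP Z) ∧
    B.II Z ≤ S.I2 μ y₀ R := by
  have := P.fin
  have i1 : Integrable (S.dd fr) μ := P.integrable_of_bd (S.measurable_all fr).2.1 (M := m)
    fun y _ _ => by rw [Real.norm_of_nonneg (S.dd_bd fr y).1]; exact (S.dd_bd fr y).2.1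
  have i2 : Integrable (fun y => ‖S.zz y‖ ^ 2) μ :=
    P.integrable_of_bd (S.measurable_zeta.2.norm.pow_const 2) (M := 1) fun y _ _ => by
      rw [Real.norm_of_nonneg (by positivity)]
      exact pow_le_one₀ (norm_nonneg _) ((S.zz_bd y).1.trans (by norm_num))
  have h0 : ∀ y, 0 ≤ S.dd fr y + ‖S.zz y‖ ^ 2 := fun y =>
    add_nonneg (S.dd_bd fr y).1 (by positivity)
  have i3 : Integrable (fun y => S.dd fr y + ‖S.zz y‖ ^ 2) μ := i1.add i2
  have hZ' : MeasurableSet (S.zeta ⁻¹' Z) := S.measurable_zeta.1 hZ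
  obtain ⟨e1, e2⟩ := D.cmp _ _ hZ' i3 h0
  have e0 : B.PP Z = ∫ y in S.zeta ⁻¹' Z, (S.dd fr y + ‖S.zz y‖ ^ 2) ∂B.μ := by
    rw [Lk.PP, D.ζ_eq, D.d_eq, D.h_eq]
  rw [← e0] at e1 e2
  refine ⟨e1, fun W hW => le_trans ?_ e2, ?_⟩
  · refine le_trans (setIntegral_mono_set i1.integrableOn
      (Eventually.of_forall fun y => (S.dd_bd fr y).1) (t := S.zeta ⁻¹' Z) hW) ?_
    exact integral_mono i1.integrableOn i3.integrableOn fun y =>
      le_add_of_nonneg_right (by positivity)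
  · rw [Lk.II, D.ζ_eq, D.h_eq]
    refine (D.cmp _ _ hZ' i2 fun y => by positivity).1.trans (le_trans ?_ P.I2_univ.2.1)
    exact setIntegral_le_integral i2 (Eventually.of_forall fun y => by positivity)

theorem BaseD_II {c A : ℝ} {Ω : Type} [MeasurableSpace Ω] (B : Base m c Ω) (h : B.Ex A) (ξ : E m)
    {ρ : ℝ} (hρ : B.T ≤ ρ) : B.II (ball ξ ρ) ≤ B.T ^ 2 * (A * ρ ^ m) := by
  have := B.fin
  refine (B.II_mono ball_subset_closedBall).2.trans (le_trans ?_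
    (mul_le_mul_of_nonneg_left (h.mass ξ ρ hρ) (sq_nonneg _)))
  have e := integral_mono_ae (μ := B.μ.restrict (B.ζ ⁻¹' closedBall ξ ρ))
    B.toLk.LockA_h.integrableOn (integrable_const (B.T ^ 2))
    (ae_restrict_of_ae (B.ae.mono fun y hy => hy.2.2.2.2.1))
  rw [setIntegral_const, smul_eq_mul, Measure.real, mul_comm] at e
  exact e

/-- `exists_base`, `cacc` (for the first bound with `bl (R - 8 σ)` and `bl (R - 2 T)`), `lock` with
`s₁ = R / 10` -/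
theorem Piece.energy (m : ℕ) (hm : 1 ≤ m) (Q : ℕ) (A : ℝ) : ∃ δ C : ℝ, 0 < δ ∧ δ ≤ 1 ∧ 1 ≤ C ∧
    ∀ {N : ℕ} {S : Ref m N} {fr : Fr m N} {μ : Measure (E N)} {y₀ : E N} {R T : ℝ},
    Piece S fr μ y₀ R T A →
    (∀ σ : ℝ, T ≤ σ → ∫ y in ball y₀ (R - 10 * σ), S.dd fr y ∂μ ≤ C * S.I2 μ y₀ R / σ ^ 2) ∧
    (∀ (ξ : E m) (ρ : ℝ), T ≤ ρ → ‖S.F ξ - y₀‖ + 10 * ρ ≤ R →
      ∫ y in S.zeta ⁻¹' closedBall ξ ρ, S.dd fr y ∂μ ≤ C * T ^ 2 * ρ ^ m / ρ ^ 2) ∧
    ∀ s, Anch S fr μ Q y₀ R → T ≤ δ * s → s ≤ R / 10 →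
      (∀ ξ, ‖S.F ξ - y₀‖ + 10 * s ≤ R → |S.YF fr μ Q fun x => rho s (x - ξ)| ≤ 1 / 50) ∧
      ∀ (f : E m → ℝ) (M : ℝ) (Z : Set (E m)), Measurable f → (∀ x, |f x| ≤ M) →
        MeasurableSet Z → Z ⊆ S.dom y₀ (R - 10 * s) → (∀ x, x ∉ Z → f x = 0) →
        |S.YF fr μ Q f| ≤
          C * M * ∫ y in S.zeta ⁻¹' thickening s Z, (S.dd fr y + ‖S.zz y‖ ^ 2) ∂μ := by
  obtain ⟨c, hc⟩ := Piece.exists_base m
  obtain ⟨C1, c1, H1⟩ := Base.cacc m c
  obtain ⟨δ, C2, d0, d1, c2, H2⟩ := Base.lock m hm c (A * 3 ^ m) Q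
  have p2 : (1 : ℝ) ≤ 2 ^ m := one_le_pow₀ (by norm_num)
  have p3 : (1 : ℝ) ≤ 3 ^ m := one_le_pow₀ (by norm_num)
  have q1 : 0 ≤ 2 ^ m * C1 := by positivity
  have q2 : 0 ≤ 2 ^ m * C1 * (|A| * 3 ^ m * 2 ^ m) := by positivity
  obtain ⟨C, g1, g2, g3⟩ : ∃ C : ℝ, 2 ^ m * C1 ≤ C ∧ 2 ^ m * C1 * (|A| * 3 ^ m * 2 ^ m) ≤ C ∧
      C2 ≤ C := ⟨2 ^ m * C1 + 2 ^ m * C1 * (|A| * 3 ^ m * 2 ^ m) + C2, by linarith, by linarith,
        by linarith⟩
  refine ⟨min δ (1 / 3), C, lt_min d0 (by norm_num), (min_le_left _ _).trans d1, c2.trans g3,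
    fun {N S fr μ y₀ R T} P => ?_⟩
  obtain ⟨B, D, hE⟩ := hc P
  obtain ⟨-, k2, k3⟩ := H1 B
  have hT := P.T_pos
  have hTR := P.T_le
  have hR := P.R_le
  have hcen := P.cen
  have := P.fin
  have hI := (S.I2_mono μ (subset_refl (ball y₀ R))).1
  have hbl : ∀ t x, ‖S.F x - S.F (pr S.ι y₀)‖ < t → x ∈ B.bl t := fun t x hx => by
    change B.r2 x < t ^ 2
    rw [D.r2_eq]
    exact pow_lt_pow_left₀ hx (norm_nonneg _) two_ne_zero
  refine ⟨fun σ hσ => ?_, fun ξ ρ hρ hξ => ?_, fun s hA hδ hs => ?_⟩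
  · have hσ0 : 0 < σ := hT.trans_le hσ
    rcases le_or_gt (R - 10 * σ) 0 with h | h
    · rw [ball_eq_empty.2 h, Measure.restrict_empty, integral_zero_measure]
      have : 0 ≤ C := q1.trans g1
      positivity
    have a0 : 0 ≤ R - 8 * σ := by linarith
    have e1 := k3 (R - 8 * σ) (R - 2 * T) a0 (by linarith) D.R_eq.ge
    have e2 := (BaseD_PP P D (B.bl_calc hE a0).1.measurableSet).2.1 (ball y₀ (R - 10 * σ))
      (P.ae_tube.mono fun y hy hy' => hbl _ _ (by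
        have := hy.2.2.2.2.2.2.2
        have := mem_ball_iff_norm.1 hy'
        linarith))
    have e3 := (BaseD_PP P D (B.bl_calc hE (t := R - 2 * T) (by linarith)).1.measurableSet).2.2
    have e4 : C1 * B.II (B.bl (R - 2 * T)) / (R - 2 * T - (R - 8 * σ)) ^ 2 ≤
        C1 * S.I2 μ y₀ R / σ ^ 2 :=
      div_le_div₀ (by positivity) (mul_le_mul_of_nonneg_left e3 (by linarith)) (by positivity)
        (pow_le_pow_left₀ hσ0.le (by linarith) 2)
    calc _ ≤ 2 ^ m * (C1 * S.I2 μ y₀ R / σ ^ 2) :=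
          e2.trans (mul_le_mul_of_nonneg_left (e1.trans e4) (by positivity))
      _ = 2 ^ m * C1 * S.I2 μ y₀ R / σ ^ 2 := by ring
      _ ≤ _ := by gcongr
  · have hρ0 : 0 < ρ := hT.trans_le hρ
    have n0 := norm_nonneg (S.F ξ - y₀)
    have hsub : ball ξ (2 * ρ) ⊆ B.O := fun x hx => by
      rw [B.O_eq, D.R_eq]
      refine hbl _ _ ?_
      have e1 := (S.F_lip x ξ).2.1
      have e2 := mem_ball_iff_norm.1 hx
      have e3 := norm_sub_le_norm_sub_add_norm_sub (S.F x) (S.F ξ) (S.F (pr S.ι y₀))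
      have e4 := (BaseD_cen S y₀ ξ).2.2
      linarith
    have e1 := k2 ξ ρ (2 * ρ) hρ0.le (by linarith) (by linarith) hsub
    have e2 := (BaseD_PP P D (measurableSet_closedBall (x := ξ) (ε := ρ))).2.1
      (S.zeta ⁻¹' closedBall ξ ρ) (Eventually.of_forall fun y hy => hy)
    have e3 := BaseD_II B hE ξ (ρ := 2 * ρ) (by rw [D.T_eq]; linarith)
    rw [D.T_eq] at e3
    rw [show 2 * ρ - ρ = ρ by ring] at e1
    have hA : |A| = A := abs_of_nonneg (zero_le_one.trans P.A_ge)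
    calc _ ≤ 2 ^ m * (C1 * (T ^ 2 * (A * 3 ^ m * (2 * ρ) ^ m)) / ρ ^ 2) := by
          refine e2.trans (mul_le_mul_of_nonneg_left (e1.trans ?_) (by positivity))
          gcongr
      _ = 2 ^ m * C1 * (|A| * 3 ^ m * 2 ^ m) * T ^ 2 * ρ ^ m / ρ ^ 2 := by
          rw [hA, mul_pow]; ring
      _ ≤ _ := by gcongr
  · have hs0 : 0 < s := by
      by_contra h
      have := mul_nonpos_of_nonneg_of_nonpos (lt_min d0 (by norm_num : (0 : ℝ) < 1 / 3)).le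
        (not_lt.1 h)
      linarith
    have hδ1 : T ≤ δ * s := hδ.trans (mul_le_mul_of_nonneg_right (min_le_left _ _) hs0.le)
    have hδ2 : T ≤ 1 / 3 * s := hδ.trans (mul_le_mul_of_nonneg_right (min_le_right _ _) hs0.le)
    obtain ⟨l1, l2⟩ := H2 B s (R / 10) hE (D.T_eq ▸ hδ1) hs (by rw [D.R_eq]; linarith) (by
      rw [D.Y_eq, D.ξ_eq]
      exact le_trans hA (by norm_num))
    refine ⟨fun ξ hξ => ?_, fun f M Z hf hM hZ hZs h0 => ?_⟩
    · rw [← D.Y_eq]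
      refine l1 ξ ?_
      obtain ⟨e1, -, e2⟩ := BaseD_cen S y₀ ξ
      rw [D.r2_eq, D.R_eq, e1]
      linarith
    · rw [← D.Y_eq]
      have hM0 : 0 ≤ M := (abs_nonneg _).trans (hM 0)
      have e1 := l2 f M Z hf hM hZ (fun x hx => hbl _ _ (by
        have e2 : ‖S.F x - y₀‖ < R - 10 * s := hZs hx
        have e3 := (BaseD_cen S y₀ x).2.2
        rw [D.R_eq]
        linarith)) h0
      have e2 := (BaseD_PP P D (isOpen_thickening (δ := s) (E := Z)).measurableSet).1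
      have e3 : 0 ≤ ∫ y in S.zeta ⁻¹' thickening s Z, (S.dd fr y + ‖S.zz y‖ ^ 2) ∂μ :=
        integral_nonneg fun y => add_nonneg (S.dd_bd fr y).1 (by positivity)
      refine e1.trans ((mul_le_mul_of_nonneg_left e2 (by positivity)).trans ?_)
      gcongr

end Pool.Agent.MP_f6c0e6_an.Gen

end
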