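import Pool.Agent.MP_f6c0e6_an.All.BaseA

section

/-! Calculus for the Carleman identity. -/

set_option autoImplicit false

open MeasureTheory Filter Topology Set Metric
open scoped ENNReal RealInnerProductSpace

namespace Pool.Agent.MP_f6c0e6_an.Gen

variable {m N : ℕ}

theorem CarlA_test_add {G : Type} [NormedAddCommGroup G] [NormedSpace ℝ G] {f g : E m → G}
    {O : Set (E m)} (hf : Test 1 f O) (hg : Test 1 g O) : Test 1 (fun x => f x + g x) O :=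
  ⟨hf.smooth.add hg.smooth, hf.cpt.add hg.cpt,
    (tsupport_add f g).trans (union_subset hf.supp hg.supp)⟩

theorem CarlA_deriv_zero {f : ℝ → ℝ} {a b : ℝ} (h0 : ∀ τ, τ ∉ Icc a b → f τ = 0) (τ : ℝ)
    (hτ : τ ∉ Icc a b) : deriv f τ = 0 := by
  have h : f =ᶠ[𝓝 τ] fun _ => 0 := by
    filter_upwards [isClosed_Icc.isOpen_compl.mem_nhds hτ] with t ht using h0 t ht
  rw [h.deriv_eq, deriv_const]

theorem CarlA_off {G : Type} [NormedAddCommGroup G] [NormedSpace ℝ G] {f : E m → G} {x : E m}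
    (h : x ∉ tsupport f) : f x = 0 ∧ fderiv ℝ f x = 0 :=
  ⟨image_eq_zero_of_notMem_tsupport h, fderiv_of_notMem_tsupport ℝ h⟩

/-- the trace as a continuous linear map -/
noncomputable def CarlA_tr (m : ℕ) : (E m →L[ℝ] E m) →L[ℝ] ℝ :=
  ∑ i, innerSL ℝ (ev i) ∘L ContinuousLinearMap.apply ℝ (E m) (ev i)

theorem CarlA_tr_apply (L : E m →L[ℝ] E m) : CarlA_tr m L = ∑ i, ⟪ev i, L (ev i)⟫ := by
  simp [CarlA_tr]

theorem CarlA_tr_one : ∑ i : Fin m, ⟪(ev i : E m), ev i⟫ = (m : ℝ) := by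
  simp [norm_ev]

theorem CarlA_dv_calc {X : E m → E m} (hX : ContDiff ℝ 2 X) : ContDiff ℝ 1 (dv X) ∧
    ∀ ξ, ‖fderiv ℝ (dv X) ξ‖ ≤ m * ‖fderiv ℝ (fderiv ℝ X) ξ‖ ∧
      |dv X ξ - m| ≤ m * ‖fderiv ℝ X ξ - 1‖ := by
  have e : dv X = fun ξ => CarlA_tr m (fderiv ℝ X ξ) := funext fun ξ => (CarlA_tr_apply _).symm
  have h1 : ContDiff ℝ 1 (fderiv ℝ X) := hX.fderiv_right (m := 1) (by norm_num)
  refine ⟨by rw [e]; exact (CarlA_tr m).contDiff.comp h1, fun ξ => ⟨?_, ?_⟩⟩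
  · have h2 := (CarlA_tr m).hasFDerivAt.comp ξ (h1.differentiable one_ne_zero ξ).hasFDerivAt
    have h3 : fderiv ℝ (fun ξ => CarlA_tr m (fderiv ℝ X ξ)) ξ = _ := h2.fderiv
    rw [e, h3]
    refine ContinuousLinearMap.opNorm_le_bound _ (by positivity) fun v => ?_
    rw [ContinuousLinearMap.comp_apply, CarlA_tr_apply, Real.norm_eq_abs, mul_assoc]
    exact (abs_sum_ev_le _).trans (mul_le_mul_of_nonneg_left
      (ContinuousLinearMap.le_opNorm _ v) (Nat.cast_nonneg m))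
  · have h := abs_sum_ev_le (fderiv ℝ X ξ - 1)
    simp only [sub_apply, one_apply_eq_self, inner_sub_right,
      Finset.sum_sub_distrib, CarlA_tr_one] at h
    exact h

namespace Base

variable {c : ℝ} {Ω : Type} [MeasurableSpace Ω] (B : Base m c Ω)

/-- the logarithm of the distance to the centre -/
noncomputable def lg (ξ : E m) : ℝ := Real.log (B.r2 ξ) / 2

/-- the square of the gradient of the distance -/
noncomputable def vr (ξ : E m) : ℝ := ⟪B.gg ξ (B.X0 ξ), B.X0 ξ⟫ / B.r2 ξ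

/-- the radial stress -/
noncomputable def Nr (y : Ω) : ℝ :=
  ⟪B.gg (B.ζ y) (B.X0 (B.ζ y)), B.Nn y (B.gg (B.ζ y) (B.X0 (B.ζ y)))⟫ / B.r2 (B.ζ y)

/-- the derivative of `lg` along `p` -/
noncomputable def pt (y : Ω) : ℝ := ⟪B.gg (B.ζ y) (B.X0 (B.ζ y)), B.p y⟫ / B.r2 (B.ζ y)

theorem CarlA_r (ξ : E m) : 0 ≤ B.r2 ξ ∧ ‖ξ - B.ξ₀‖ ≤ √(B.r2 ξ) ∧ ‖B.X0 ξ‖ ≤ 2 * √(B.r2 ξ) ∧
    ‖B.gg ξ (B.X0 ξ)‖ ≤ 4 * √(B.r2 ξ) ∧ √(B.r2 ξ) ^ 2 = B.r2 ξ := by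
  have h0 : 0 ≤ B.r2 ξ := (sq_nonneg _).trans (B.r2_lo ξ)
  have h1 : ‖ξ - B.ξ₀‖ ≤ √(B.r2 ξ) := Real.le_sqrt_of_sq_le (B.r2_lo ξ)
  have h2 : ‖B.X0 ξ‖ ≤ 2 * √(B.r2 ξ) := (B.X0_bd ξ).trans (by linarith)
  refine ⟨h0, h1, h2, ?_, Real.sq_sqrt h0⟩
  calc ‖B.gg ξ (B.X0 ξ)‖ ≤ ‖B.gg ξ‖ * ‖B.X0 ξ‖ := ContinuousLinearMap.le_opNorm _ _
    _ ≤ 2 * (2 * √(B.r2 ξ)) := mul_le_mul (B.gg_bd ξ) h2 (norm_nonneg _) (by norm_num)
    _ = 4 * √(B.r2 ξ) := by ring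

theorem pt_bd : ∀ᵐ y ∂B.μ, 0 ≤ B.Nr y ∧ B.Nr y ≤ 16 * c * B.d y ∧
    B.pt y ^ 2 ≤ B.h y * B.Nr y / B.r2 (B.ζ y) := by
  filter_upwards [B.ae, B.ae2] with y hy hy2
  obtain ⟨-, hd, -⟩ := hy
  obtain ⟨-, n2, n3, -, n5⟩ := hy2
  obtain ⟨r0, -, -, r3, r4⟩ := B.CarlA_r (B.ζ y)
  have hc : 0 ≤ c := zero_le_one.trans B.c_ge
  unfold Nr pt
  generalize B.gg (B.ζ y) (B.X0 (B.ζ y)) = G at r3 ⊢
  refine ⟨div_nonneg (n2 G) r0, ?_, ?_⟩
  · refine div_le_of_le_mul₀ r0 (by positivity) ?_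
    have k1 : ‖B.Nn y G‖ ≤ c * B.d y * ‖G‖ :=
      (ContinuousLinearMap.le_opNorm _ _).trans (mul_le_mul_of_nonneg_right n3 (norm_nonneg _))
    have k2 : ‖G‖ ^ 2 ≤ 16 * B.r2 (B.ζ y) := by
      rw [← r4]
      linarith only [pow_le_pow_left₀ (norm_nonneg G) r3 2]
    calc ⟪G, B.Nn y G⟫ ≤ ‖G‖ * ‖B.Nn y G‖ := real_inner_le_norm _ _
      _ ≤ ‖G‖ * (c * B.d y * ‖G‖) := mul_le_mul_of_nonneg_left k1 (norm_nonneg _)
      _ = c * B.d y * ‖G‖ ^ 2 := by ring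
      _ ≤ c * B.d y * (16 * B.r2 (B.ζ y)) := mul_le_mul_of_nonneg_left k2 (mul_nonneg hc hd)
      _ = _ := by ring
  · calc (⟪G, B.p y⟫ / B.r2 (B.ζ y)) ^ 2 = ⟪G, B.p y⟫ ^ 2 / B.r2 (B.ζ y) ^ 2 := div_pow _ _ _
      _ ≤ B.h y * ⟪G, B.Nn y G⟫ / B.r2 (B.ζ y) ^ 2 :=
        div_le_div_of_nonneg_right (n5 G) (sq_nonneg _)
      _ = _ := by ring

theorem CarlA_dr2 (ξ : E m) : ‖fderiv ℝ B.r2 ξ‖ ≤ 8 * √(B.r2 ξ) := by
  obtain ⟨-, -, -, r3, -⟩ := B.CarlA_r ξ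
  refine ContinuousLinearMap.opNorm_le_bound _ (by positivity) fun v => ?_
  rw [B.dr2, Real.norm_eq_abs, abs_mul, abs_two]
  have h := (abs_real_inner_le_norm (B.gg ξ (B.X0 ξ)) v).trans
    (mul_le_mul_of_nonneg_right r3 (norm_nonneg v))
  linarith

/-- the derivative of a quotient by `r2` -/
theorem CarlA_quot {φ : E m → ℝ} {ξ : E m} (h : 0 < B.r2 ξ) (hφ : DifferentiableAt ℝ φ ξ) :
    (∀ v, fderiv ℝ (fun x => φ x / B.r2 x) ξ v =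
      fderiv ℝ φ ξ v / B.r2 ξ - 2 * φ ξ * ⟪B.gg ξ (B.X0 ξ), v⟫ / B.r2 ξ ^ 2) ∧
    ‖fderiv ℝ (fun x => φ x / B.r2 x) ξ‖ ≤
      ‖fderiv ℝ φ ξ‖ / B.r2 ξ + 8 * |φ ξ| * √(B.r2 ξ) / B.r2 ξ ^ 2 := by
  obtain ⟨-, -, -, r3, -⟩ := B.CarlA_r ξ
  have h1 := (B.cr2.differentiable (by norm_num) ξ).hasFDerivAt
  have h2 := hφ.hasFDerivAt.mul ((hasDerivAt_inv h.ne').comp_hasFDerivAt ξ h1)
  have h3 : fderiv ℝ (fun x => φ x * (B.r2 x)⁻¹) ξ = _ := h2.fderiv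
  have e : (fun x => φ x / B.r2 x) = fun x => φ x * (B.r2 x)⁻¹ := funext fun x => div_eq_mul_inv _ _
  have h4 : ∀ v, fderiv ℝ (fun x => φ x / B.r2 x) ξ v =
      fderiv ℝ φ ξ v / B.r2 ξ - 2 * φ ξ * ⟪B.gg ξ (B.X0 ξ), v⟫ / B.r2 ξ ^ 2 := fun v => by
    rw [e, h3]
    simp only [add_apply, smul_apply, smul_eq_mul, B.dr2,
      Function.comp_apply]
    ring
  refine ⟨h4, ContinuousLinearMap.opNorm_le_bound _ (by positivity) fun v => ?_⟩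
  rw [h4, Real.norm_eq_abs]
  have k1 : |fderiv ℝ φ ξ v| ≤ ‖fderiv ℝ φ ξ‖ * ‖v‖ := (fderiv ℝ φ ξ).le_opNorm v
  have k2 := (abs_real_inner_le_norm (B.gg ξ (B.X0 ξ)) v).trans
    (mul_le_mul_of_nonneg_right r3 (norm_nonneg v))
  calc _ ≤ |fderiv ℝ φ ξ v / B.r2 ξ| + |2 * φ ξ * ⟪B.gg ξ (B.X0 ξ), v⟫ / B.r2 ξ ^ 2| := abs_sub _ _
    _ = |fderiv ℝ φ ξ v| / B.r2 ξ + 2 * |φ ξ| * |⟪B.gg ξ (B.X0 ξ), v⟫| / B.r2 ξ ^ 2 := by
      rw [abs_div, abs_div, abs_mul, abs_mul, abs_two, abs_of_pos h, abs_of_pos (pow_pos h 2)]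
    _ ≤ ‖fderiv ℝ φ ξ‖ * ‖v‖ / B.r2 ξ + 2 * |φ ξ| * (4 * √(B.r2 ξ) * ‖v‖) / B.r2 ξ ^ 2 := by
      gcongr
    _ = _ := by ring

theorem lg_calc (ξ : E m) (h : ξ ≠ B.ξ₀) : 0 < B.r2 ξ ∧ Real.exp (B.lg ξ) = √(B.r2 ξ) ∧
    ContDiffAt ℝ 2 B.lg ξ ∧ ContDiffAt ℝ 1 B.vr ξ ∧
    (∀ v, fderiv ℝ B.lg ξ v = ⟪B.gg ξ (B.X0 ξ), v⟫ / B.r2 ξ) ∧
    ‖fderiv ℝ B.lg ξ‖ ≤ 4 / √(B.r2 ξ) ∧
    (√(B.r2 ξ) ≤ 1 → |B.vr ξ - 1| ≤ c * √(B.r2 ξ) ∧ ‖fderiv ℝ B.vr ξ‖ ≤ 9 * c) := by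
  obtain ⟨-, r1, -, r3, r4⟩ := B.CarlA_r ξ
  have hc : 0 ≤ c := zero_le_one.trans B.c_ge
  have h0 : 0 < B.r2 ξ := (pow_pos (norm_pos_iff.2 (sub_ne_zero.2 h)) 2).trans_le (B.r2_lo ξ)
  have hr : 0 < √(B.r2 ξ) := Real.sqrt_pos.2 h0
  have c1 : ContDiff ℝ 1 B.X0 := B.cX0.of_le (by norm_num)
  have c2 : ContDiff ℝ 1 B.r2 := B.cr2.of_le (by norm_num)
  have c3 : ContDiff ℝ 1 fun x => ⟪B.gg x (B.X0 x), B.X0 x⟫ := (B.cgg.clm_apply c1).inner ℝ c1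
  have h5 : ∀ v, fderiv ℝ B.lg ξ v = ⟪B.gg ξ (B.X0 ξ), v⟫ / B.r2 ξ := fun v => by
    have k := (((c2.differentiable one_ne_zero ξ).hasFDerivAt).log h0.ne').mul_const (1 / 2 : ℝ)
    have e : B.lg = fun x => Real.log (B.r2 x) * (1 / 2) := funext fun x => by unfold lg; ring
    rw [e, k.fderiv]
    simp only [smul_apply, smul_eq_mul, B.dr2]
    ring
  refine ⟨h0, ?_, (B.cr2.contDiffAt.log h0.ne').div_const 2,
    c3.contDiffAt.div c2.contDiffAt h0.ne', h5, ?_, fun h1 => ?_⟩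
  · unfold lg
    rw [Real.exp_half, Real.exp_log h0]
  · refine ContinuousLinearMap.opNorm_le_bound _ (by positivity) fun v => ?_
    rw [h5, Real.norm_eq_abs, abs_div, abs_of_pos h0]
    have k2 := (abs_real_inner_le_norm (B.gg ξ (B.X0 ξ)) v).trans
      (mul_le_mul_of_nonneg_right r3 (norm_nonneg v))
    calc _ ≤ 4 * √(B.r2 ξ) * ‖v‖ / B.r2 ξ := div_le_div_of_nonneg_right k2 h0.le
      _ = 4 * √(B.r2 ξ) * ‖v‖ / √(B.r2 ξ) ^ 2 := by rw [r4]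
      _ = _ := by field_simp
  · obtain ⟨k1, k2⟩ := B.rad0 ξ (r1.trans h1)
    have k3 : |⟪B.gg ξ (B.X0 ξ), B.X0 ξ⟫ - B.r2 ξ| ≤ c * √(B.r2 ξ) ^ 3 := k1.trans (by gcongr)
    have k4 := k2.trans (show c * ‖ξ - B.ξ₀‖ ^ 2 ≤ c * √(B.r2 ξ) ^ 2 by gcongr)
    constructor
    · have e : B.vr ξ - 1 = (⟪B.gg ξ (B.X0 ξ), B.X0 ξ⟫ - B.r2 ξ) / B.r2 ξ := by
        unfold vr
        field_simp
      rw [e, abs_div, abs_of_pos h0]
      calc _ ≤ c * √(B.r2 ξ) ^ 3 / B.r2 ξ := div_le_div_of_nonneg_right k3 h0.le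
        _ = c * √(B.r2 ξ) ^ 3 / √(B.r2 ξ) ^ 2 := by rw [r4]
        _ = _ := by field_simp
    · have e : B.vr =ᶠ[𝓝 ξ] fun x => (⟪B.gg x (B.X0 x), B.X0 x⟫ - B.r2 x) / B.r2 x + 1 := by
        filter_upwards [c2.continuous.continuousAt.eventually_ne h0.ne'] with x hx
        unfold vr
        field_simp
        ring
      rw [e.fderiv_eq, fderiv_add_const]
      refine (B.CarlA_quot h0 ((c3.sub c2).differentiable one_ne_zero ξ)).2.trans ?_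
      calc _ ≤ c * √(B.r2 ξ) ^ 2 / B.r2 ξ + 8 * (c * √(B.r2 ξ) ^ 3) * √(B.r2 ξ) / B.r2 ξ ^ 2 := by
            gcongr
        _ = c * √(B.r2 ξ) ^ 2 / B.r2 ξ + 8 * c * (√(B.r2 ξ) ^ 2) ^ 2 / B.r2 ξ ^ 2 := by ring
        _ = 9 * c := by
          rw [r4]
          field_simp
          ring

/-- the closed shell -/
theorem CarlA_shell {a b : ℝ} (hb : Real.exp b < B.R) :
    IsCompact {ξ | ξ ≠ B.ξ₀ ∧ B.lg ξ ∈ Icc a b} ∧ {ξ | ξ ≠ B.ξ₀ ∧ B.lg ξ ∈ Icc a b} ⊆ B.O ∧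
      B.lg B.ξ₀ ∉ Icc a b ∧ ∀ ξ, ξ ≠ B.ξ₀ → B.lg ξ ∈ Icc a b → √(B.r2 ξ) ≤ 1 := by
  have h0 : B.r2 B.ξ₀ = 0 := le_antisymm (by simpa using B.r2_hi B.ξ₀) (B.CarlA_r _).1
  have e : {ξ | ξ ≠ B.ξ₀ ∧ B.lg ξ ∈ Icc a b} =
      (fun ξ => √(B.r2 ξ)) ⁻¹' Icc (Real.exp a) (Real.exp b) := by
    ext ξ
    simp only [mem_ofPred_eq, mem_preimage, mem_Icc]
    constructor
    · rintro ⟨h1, h2, h3⟩
      rw [← (B.lg_calc ξ h1).2.1]
      exact ⟨Real.exp_le_exp.2 h2, Real.exp_le_exp.2 h3⟩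
    · rintro ⟨h2, h3⟩
      have h1 : ξ ≠ B.ξ₀ := by
        rintro rfl
        rw [h0, Real.sqrt_zero] at h2
        exact absurd h2 (not_le.2 (Real.exp_pos a))
      rw [← (B.lg_calc ξ h1).2.1] at h2 h3
      exact ⟨h1, Real.exp_le_exp.1 h2, Real.exp_le_exp.1 h3⟩
  have hR := B.R_le
  refine ⟨?_, ?_, ?_, fun ξ h1 h2 => ?_⟩
  · rw [e]
    refine (isCompact_closedBall B.ξ₀ (Real.exp b)).of_isClosed_subset
      (isClosed_Icc.preimage B.cr2.continuous.sqrt) fun ξ hξ => ?_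
    rw [mem_closedBall, dist_eq_norm]
    exact (B.CarlA_r ξ).2.1.trans hξ.2
  · rw [e, B.O_eq]
    intro ξ hξ
    have k : √(B.r2 ξ) < B.R := hξ.2.trans_lt hb
    rw [mem_ofPred_eq, ← (B.CarlA_r ξ).2.2.2.2]
    exact pow_lt_pow_left₀ k (Real.sqrt_nonneg _) two_ne_zero
  · rintro ⟨-, h2⟩
    unfold lg at h2
    rw [h0, Real.log_zero, zero_div] at h2
    have := Real.one_le_exp h2
    linarith
  · rw [← (B.lg_calc ξ h1).2.1]
    have := Real.exp_le_exp.2 h2.2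
    linarith

theorem CarlA_out {a b : ℝ} (hb : Real.exp b < B.R) {ξ : E m}
    (h : ξ ∉ {ξ | ξ ≠ B.ξ₀ ∧ B.lg ξ ∈ Icc a b}) : B.lg ξ ∉ Icc a b := by
  intro h2
  rcases eq_or_ne ξ B.ξ₀ with rfl | h1
  · exact (B.CarlA_shell hb).2.2.1 h2
  · exact h ⟨h1, h2⟩

theorem CarlA_supp {G : Type} [NormedAddCommGroup G] [NormedSpace ℝ G] {f : ℝ → ℝ} {a b : ℝ}
    (h0 : ∀ τ, τ ∉ Icc a b → f τ = 0) (hb : Real.exp b < B.R) (X : E m → G) :
    tsupport (fun ξ => f (B.lg ξ) • X ξ) ⊆ {ξ | ξ ≠ B.ξ₀ ∧ B.lg ξ ∈ Icc a b} := by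
  refine closure_minimal (fun ξ hξ => ?_) (B.CarlA_shell hb).1.isClosed
  by_contra hc
  exact hξ (by simp only [h0 _ (B.CarlA_out hb hc), zero_smul])

theorem CarlA_ev {G : Type} [NormedAddCommGroup G] [NormedSpace ℝ G] {f : ℝ → ℝ} {a b : ℝ}
    (h0 : ∀ τ, τ ∉ Icc a b → f τ = 0) (hb : Real.exp b < B.R) (X : E m → G) :
    (fun ξ => f (B.lg ξ) • X ξ) =ᶠ[𝓝 B.ξ₀] fun _ => 0 :=
  notMem_tsupport_iff_eventuallyEq.1 fun h => (B.CarlA_supp h0 hb X h).1 rfl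

/-- A function of `lg` that vanishes outside a shell, times a map that is smooth away from the
centre. Note that `lg ξ₀ = 0 > b`. -/
theorem test_rad {G : Type} [NormedAddCommGroup G] [NormedSpace ℝ G] {f : ℝ → ℝ} {a b : ℝ}
    (hf : ContDiff ℝ 1 f) (h0 : ∀ τ, τ ∉ Icc a b → f τ = 0) (hb : Real.exp b < B.R)
    {X : E m → G} (hX : ∀ ξ, ξ ≠ B.ξ₀ → ContDiffAt ℝ 1 X ξ) :
    Test 1 (fun ξ => f (B.lg ξ) • X ξ) B.O ∧
      tsupport (fun ξ => f (B.lg ξ) • X ξ) ⊆ {ξ | ξ ≠ B.ξ₀ ∧ B.lg ξ ∈ Icc a b} := by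
  obtain ⟨k1, k2, -⟩ := B.CarlA_shell (a := a) hb
  have hs := B.CarlA_supp h0 hb X
  refine ⟨⟨contDiff_iff_contDiffAt.2 fun ξ => ?_,
    k1.of_isClosed_subset (isClosed_tsupport _) hs, hs.trans k2⟩, hs⟩
  rcases eq_or_ne ξ B.ξ₀ with rfl | h1
  · exact contDiffAt_const.congr_of_eventuallyEq (B.CarlA_ev h0 hb X)
  · exact_mod_cast (hf.contDiffAt.comp ξ ((B.lg_calc ξ h1).2.2.1.of_le (by norm_num))).smul (hX ξ h1)

theorem CarlA_cont {f : ℝ → ℝ} {a b : ℝ} (hf : Continuous f) (h0 : ∀ τ, τ ∉ Icc a b → f τ = 0)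
    (hb : Real.exp b < B.R) {X : E m → ℝ} (hX : ∀ ξ, ξ ≠ B.ξ₀ → ContinuousAt X ξ) :
    Continuous fun ξ => f (B.lg ξ) * X ξ := by
  refine continuous_iff_continuousAt.2 fun ξ => ?_
  rcases eq_or_ne ξ B.ξ₀ with rfl | h1
  · exact continuousAt_const.congr (B.CarlA_ev h0 hb X).symm
  · exact (hf.continuousAt.comp (B.lg_calc ξ h1).2.2.1.continuousAt).mul (hX ξ h1)

/-- the product rule -/
theorem CarlA_prod {G : Type} [NormedAddCommGroup G] [NormedSpace ℝ G] {f : ℝ → ℝ} {X : E m → G}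
    {ξ : E m} (h : ξ ≠ B.ξ₀) (hf : Differentiable ℝ f) (hX : DifferentiableAt ℝ X ξ) :
    (∀ u, fderiv ℝ (fun x => f (B.lg x) • X x) ξ u = f (B.lg ξ) • fderiv ℝ X ξ u +
      (deriv f (B.lg ξ) * (⟪B.gg ξ (B.X0 ξ), u⟫ / B.r2 ξ)) • X ξ) ∧
    ‖fderiv ℝ (fun x => f (B.lg x) • X x) ξ‖ ≤ |f (B.lg ξ)| * ‖fderiv ℝ X ξ‖ +
      |deriv f (B.lg ξ)| * (4 / √(B.r2 ξ)) * ‖X ξ‖ := by
  obtain ⟨-, -, l3, -, l5, l6, -⟩ := B.lg_calc ξ h
  have h1 := ((hf (B.lg ξ)).hasDerivAt.comp_hasFDerivAt ξ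
    (l3.differentiableAt (by norm_num)).hasFDerivAt).smul hX.hasFDerivAt
  have h2 : fderiv ℝ (fun x => f (B.lg x) • X x) ξ = _ := h1.fderiv
  have h3 : ∀ u, fderiv ℝ (fun x => f (B.lg x) • X x) ξ u = f (B.lg ξ) • fderiv ℝ X ξ u +
      (deriv f (B.lg ξ) * fderiv ℝ B.lg ξ u) • X ξ := fun u => by
    rw [h2]
    simp only [add_apply, smul_apply, Function.comp_apply,
      ContinuousLinearMap.smulRight_apply, smul_eq_mul]
  refine ⟨fun u => by rw [h3, l5], ContinuousLinearMap.opNorm_le_bound _ (by positivity) fun u => ?_⟩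
  rw [h3]
  have k1 : ‖fderiv ℝ X ξ u‖ ≤ ‖fderiv ℝ X ξ‖ * ‖u‖ := ContinuousLinearMap.le_opNorm _ u
  have k2 : |fderiv ℝ B.lg ξ u| ≤ 4 / √(B.r2 ξ) * ‖u‖ :=
    (ContinuousLinearMap.le_opNorm _ u).trans (mul_le_mul_of_nonneg_right l6 (norm_nonneg u))
  calc _ ≤ ‖f (B.lg ξ) • fderiv ℝ X ξ u‖ + ‖(deriv f (B.lg ξ) * fderiv ℝ B.lg ξ u) • X ξ‖ :=
        norm_add_le _ _
    _ = |f (B.lg ξ)| * ‖fderiv ℝ X ξ u‖ + |deriv f (B.lg ξ)| * |fderiv ℝ B.lg ξ u| * ‖X ξ‖ := by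
      rw [norm_smul, norm_smul, Real.norm_eq_abs, Real.norm_eq_abs, abs_mul]
    _ ≤ |f (B.lg ξ)| * (‖fderiv ℝ X ξ‖ * ‖u‖) +
        |deriv f (B.lg ξ)| * (4 / √(B.r2 ξ) * ‖u‖) * ‖X ξ‖ := by gcongr
    _ = _ := by ring

theorem CarlA_dv_prod {f : ℝ → ℝ} {X : E m → E m} {ξ : E m} (h : ξ ≠ B.ξ₀)
    (hf : Differentiable ℝ f) (hX : DifferentiableAt ℝ X ξ) :
    dv (fun x => f (B.lg x) • X x) ξ = f (B.lg ξ) * dv X ξ +
      deriv f (B.lg ξ) * (⟪B.gg ξ (B.X0 ξ), X ξ⟫ / B.r2 ξ) := by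
  obtain ⟨-, -, l3, -, l5, -⟩ := B.lg_calc ξ h
  have h1 := (hf (B.lg ξ)).hasDerivAt.comp_hasFDerivAt ξ
    (l3.differentiableAt (by norm_num)).hasFDerivAt
  have h2 : fderiv ℝ (fun x => f (B.lg x)) ξ = _ := h1.fderiv
  rw [dv_smul (f := fun x => f (B.lg x)) h1.differentiableAt hX, h2,
    smul_apply, l5, smul_eq_mul]

theorem CarlA_vr (ξ : E m) : |B.vr ξ| ≤ 8 := by
  obtain ⟨r0, -, r2, r3, r4⟩ := B.CarlA_r ξ
  unfold vr
  rw [abs_div, abs_of_nonneg r0]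
  refine div_le_of_le_mul₀ r0 (by norm_num) ((abs_real_inner_le_norm _ _).trans ?_)
  calc _ ≤ 4 * √(B.r2 ξ) * (2 * √(B.r2 ξ)) := mul_le_mul r3 r2 (norm_nonneg _) (by positivity)
    _ = 8 * √(B.r2 ξ) ^ 2 := by ring
    _ = _ := by rw [r4]

theorem CarlA_X0 {ξ : E m} (h1 : √(B.r2 ξ) ≤ 1) : ‖fderiv ℝ B.X0 ξ - 1‖ ≤ c * √(B.r2 ξ) ∧
    ‖fderiv ℝ B.X0 ξ‖ ≤ 2 * c ∧ |dv B.X0 ξ - m| ≤ m * (c * √(B.r2 ξ)) ∧
    ‖fderiv ℝ (dv B.X0) ξ‖ ≤ m * c := by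
  obtain ⟨-, r1, -⟩ := B.CarlA_r ξ
  have hc := B.c_ge
  obtain ⟨k1, k2⟩ := B.dX0 ξ (r1.trans h1)
  obtain ⟨k3, k4⟩ := (CarlA_dv_calc B.cX0).2 ξ
  have k5 : ‖fderiv ℝ B.X0 ξ - 1‖ ≤ c * √(B.r2 ξ) := k1.trans (by gcongr)
  refine ⟨k5, ?_, k4.trans (by gcongr), k3.trans (by gcongr)⟩
  have k6 := norm_le_norm_sub_add (fderiv ℝ B.X0 ξ) 1
  have k7 : ‖(1 : E m →L[ℝ] E m)‖ ≤ 1 := ContinuousLinearMap.norm_id_le
  linarith only [k5, k6, k7, hc, mul_le_of_le_one_right (zero_le_one.trans hc) h1]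

/-- integrability of continuous functions of the data -/
theorem CarlA_int {G : E m × ℝ × ℝ × E m × (E m →L[ℝ] E m) → ℝ} (hG : Continuous G) :
    Integrable (fun y => G (B.ζ y, B.d y, B.h y, B.p y, B.Nn y)) B.μ := by
  have := B.fin
  have hc := B.c_ge
  have e : B.Nn = fun y => ∑ i, ∑ j, ⟪ev i, B.Nn y (ev j)⟫ •
      ((innerSL ℝ (ev j)).smulRight (ev i) : E m →L[ℝ] E m) := by
    funext y
    refine ContinuousLinearMap.ext fun v => ?_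
    conv_lhs => rw [← sum_ev (B.Nn y v)]
    simp only [sum_apply, smul_apply,
      ContinuousLinearMap.smulRight_apply, innerSL_apply_apply, smul_smul]
    refine Finset.sum_congr rfl fun i _ => ?_
    rw [← Finset.sum_smul]
    congr 1
    conv_lhs => rw [← sum_ev v]
    simp only [map_sum, map_smul, inner_sum, real_inner_smul_right, mul_comm]
  have m1 : AEStronglyMeasurable B.Nn B.μ := by
    rw [e]
    exact Finset.aestronglyMeasurable_fun_sum _ fun i _ => Finset.aestronglyMeasurable_fun_sum _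
      fun j _ => (B.mNn _ _).aestronglyMeasurable.smul_const _
  have m2 : AEStronglyMeasurable (fun y => (B.ζ y, B.d y, B.h y, B.p y, B.Nn y)) B.μ :=
    B.mζ.aestronglyMeasurable.prodMk (B.md.aestronglyMeasurable.prodMk
      (B.mh.aestronglyMeasurable.prodMk (B.mp.aestronglyMeasurable.prodMk m1)))
  have : ProperSpace (E m →L[ℝ] E m) := FiniteDimensional.proper ℝ _
  obtain ⟨M, hM⟩ := (isCompact_closedBall (0 : E m × ℝ × ℝ × E m × (E m →L[ℝ] E m))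
    (100 + c * (m + 1))).exists_bound_of_continuousOn hG.continuousOn
  refine Integrable.of_bound (hG.comp_aestronglyMeasurable m2) M ?_
  filter_upwards [B.ae, B.ae2, B.norm_p_le] with y hy hy2 hp
  obtain ⟨a1, a2, a3, a4, a5, -⟩ := hy
  obtain ⟨-, -, n3, -⟩ := hy2
  have hT : B.T ^ 2 ≤ 1 := pow_le_one₀ B.T_pos.le (B.T_le.trans (by norm_num))
  have hm : (0 : ℝ) ≤ m := Nat.cast_nonneg m
  have k1 : c * B.d y ≤ c * m := mul_le_mul_of_nonneg_left a3 (by linarith)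
  have k2 : (m : ℝ) ≤ c * m := le_mul_of_one_le_left hm hc
  have k3 : B.h y * B.d y ≤ 1 * m := mul_le_mul (a5.trans hT) a3 a2 zero_le_one
  have k4 : c * (B.h y * B.d y) ≤ c * (1 * m) := mul_le_mul_of_nonneg_left k3 (by linarith)
  have k5 : ‖B.p y‖ ≤ 1 + c * m := by
    linarith only [sq_nonneg (‖B.p y‖ - 1), hp, k4, k2, hm]
  refine hM _ ?_
  simp only [mem_closedBall_zero_iff, Prod.norm_mk, max_le_iff, Real.norm_eq_abs, abs_of_nonneg a2,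
    abs_of_nonneg a4]
  refine ⟨?_, ?_, ?_, ?_, ?_⟩ <;> linarith only [a1, a3, a5, hT, hm, k1, k2, k5, n3, hc]

end Base

end Pool.Agent.MP_f6c0e6_an.Gen

end

section

/-! The Carleman identity. -/

set_option autoImplicit false

open MeasureTheory Filter Topology Set Metric
open scoped ENNReal RealInnerProductSpace

namespace Pool.Agent.MP_f6c0e6_an.Gen

variable {m N : ℕ}

/-- the coefficient of the third test field -/
noncomputable def bet1 (k : ℝ) (α : ℝ → ℝ) (τ : ℝ) : ℝ :=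
  -(deriv (deriv α) τ + k * deriv α τ) / 2

theorem CarlA_alpha {α : ℝ → ℝ} (hα : ContDiff ℝ 3 α) (k : ℝ) : ContDiff ℝ 1 α ∧
    ContDiff ℝ 1 (deriv α) ∧ ContDiff ℝ 1 (deriv (deriv α)) ∧ ContDiff ℝ 1 (bet1 k α) ∧
    ∀ τ, deriv (bet1 k α) τ = -(deriv (deriv (deriv α)) τ + k * deriv (deriv α) τ) / 2 := by
  have h1 : ContDiff ℝ 2 (deriv α) := hα.deriv'
  have h2 : ContDiff ℝ 1 (deriv (deriv α)) := h1.deriv'
  have h3 : ContDiff ℝ 1 (deriv α) := h1.of_le (by norm_num)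
  refine ⟨hα.of_le (by norm_num), h3, h2, (h2.add (contDiff_const.mul h3)).neg.div_const 2,
    fun τ => ?_⟩
  exact ((((h2.differentiable one_ne_zero τ).hasDerivAt.add
    (((h3.differentiable one_ne_zero τ).hasDerivAt).const_mul k)).neg).div_const 2).deriv

theorem CarlA_half {n k x y : ℝ} (hn : 2 ≤ n) (hk : |k| ≤ n) :
    |-(x + k * y) / 2| ≤ n * (|y| + |x|) := by
  rw [abs_div, abs_neg, abs_two]
  have h1 := abs_add_le x (k * y)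
  rw [abs_mul] at h1
  have h2 := mul_le_mul_of_nonneg_right hk (abs_nonneg y)
  linarith only [h1, h2, abs_nonneg x, mul_le_mul_of_nonneg_right hn (abs_nonneg x),
    mul_nonneg (zero_le_two.trans hn) (abs_nonneg y)]

theorem CarlA_k (m : ℕ) : (2 : ℝ) ≤ m + 2 ∧ |(m : ℝ) - 2| ≤ m + 2 ∧ (0 : ℝ) ≤ m := by
  have h : (0 : ℝ) ≤ m := Nat.cast_nonneg m
  exact ⟨by linarith, abs_le.2 ⟨by linarith, by linarith⟩, h⟩

namespace Base

variable {c : ℝ} {Ω : Type} [MeasurableSpace Ω] (B : Base m c Ω)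

/-- the first test field -/
theorem CarlA_one {α : ℝ → ℝ} (hα : Differentiable ℝ α) {ξ : E m} (h : ξ ≠ B.ξ₀)
    (h1 : √(B.r2 ξ) ≤ 1) {L : E m →L[ℝ] E m} {d : ℝ} (hd : 0 ≤ d) (n3 : ‖L‖ ≤ c * d)
    (n4 : ∑ i, ⟪ev i, L (B.gg ξ (ev i))⟫ = d) :
    ‖α (B.lg ξ) • B.X0 ξ‖ ≤ 2 * √(B.r2 ξ) * |α (B.lg ξ)| ∧
    ‖fderiv ℝ (fun x => α (B.lg x) • B.X0 x) ξ‖ ≤ 8 * c * (|α (B.lg ξ)| + |deriv α (B.lg ξ)|) ∧
    |d * dv (fun x => α (B.lg x) • B.X0 x) ξ -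
      2 * ∑ i, ⟪ev i, fderiv ℝ (fun x => α (B.lg x) • B.X0 x) ξ (L (B.gg ξ (ev i)))⟫ -
      (d * ((m - 2) * α (B.lg ξ) + deriv α (B.lg ξ) * B.vr ξ) -
        2 * deriv α (B.lg ξ) * (⟪B.gg ξ (B.X0 ξ), L (B.gg ξ (B.X0 ξ))⟫ / B.r2 ξ))| ≤
      5 * m * c ^ 2 * (√(B.r2 ξ) * |α (B.lg ξ)| * d) := by
  obtain ⟨-, -, r2, -, -⟩ := B.CarlA_r ξ
  obtain ⟨x1, x2, x3, -⟩ := B.CarlA_X0 h1
  have hc := B.c_ge
  have hr : 0 < √(B.r2 ξ) := Real.sqrt_pos.2 (B.lg_calc ξ h).1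
  have hX := B.cX0.differentiable (by norm_num) ξ
  obtain ⟨p1, p2⟩ := B.CarlA_prod h hα hX
  refine ⟨?_, p2.trans ?_, ?_⟩
  · rw [norm_smul, Real.norm_eq_abs, mul_comm]
    exact mul_le_mul_of_nonneg_right r2 (abs_nonneg _)
  · calc _ ≤ |α (B.lg ξ)| * (2 * c) + |deriv α (B.lg ξ)| * (4 / √(B.r2 ξ)) * (2 * √(B.r2 ξ)) := by
          gcongr
      _ = |α (B.lg ξ)| * (2 * c) + |deriv α (B.lg ξ)| * 8 := by
          field_simp
          ring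
      _ ≤ _ := by
        linarith only [mul_nonneg (abs_nonneg (α (B.lg ξ))) (zero_le_one.trans hc),
          mul_le_mul_of_nonneg_left hc (abs_nonneg (deriv α (B.lg ξ)))]
  · obtain ⟨ε, hε⟩ : ∃ ε, ε = ∑ i, ⟪ev i, ((fderiv ℝ B.X0 ξ - 1) ∘L L ∘L B.gg ξ) (ev i)⟫ := ⟨_, rfl⟩
    have e1 : |ε| ≤ m * (c * √(B.r2 ξ) * (c * d * 2)) := by
      rw [hε]
      refine (abs_sum_ev_le _).trans (mul_le_mul_of_nonneg_left ?_ (Nat.cast_nonneg m))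
      refine (ContinuousLinearMap.opNorm_comp_le _ _).trans (mul_le_mul x1
        ((ContinuousLinearMap.opNorm_comp_le _ _).trans (mul_le_mul n3 (B.gg_bd ξ) (norm_nonneg _)
          (by positivity))) (norm_nonneg _) (by positivity))
    have e2 : ∑ i, ⟪ev i, fderiv ℝ B.X0 ξ (L (B.gg ξ (ev i)))⟫ = ε + d := by
      rw [hε, ← n4, ← Finset.sum_add_distrib]
      simp only [ContinuousLinearMap.comp_apply, sub_apply, one_apply_eq_self, inner_sub_right,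
        sub_add_cancel]
    have e3 : ∀ G v : E m, ∑ i, ⟪G, L (B.gg ξ (ev i))⟫ * ⟪ev i, v⟫ = ⟪G, L (B.gg ξ v)⟫ := by
      intro G v
      conv_rhs => rw [← sum_ev v]
      simp only [map_sum, map_smul, inner_sum, real_inner_smul_right, mul_comm]
    have e4 : ∑ i, ⟪ev i, fderiv ℝ (fun x => α (B.lg x) • B.X0 x) ξ (L (B.gg ξ (ev i)))⟫ =
        α (B.lg ξ) * (ε + d) + deriv α (B.lg ξ) *
          (⟪B.gg ξ (B.X0 ξ), L (B.gg ξ (B.X0 ξ))⟫ / B.r2 ξ) := by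
      rw [← e2, ← e3, Finset.mul_sum, Finset.sum_div, Finset.mul_sum, ← Finset.sum_add_distrib]
      refine Finset.sum_congr rfl fun i _ => ?_
      rw [p1, inner_add_right, real_inner_smul_right, real_inner_smul_right]
      ring
    rw [e4, B.CarlA_dv_prod h hα hX]
    have e5 : d * (α (B.lg ξ) * dv B.X0 ξ +
          deriv α (B.lg ξ) * (⟪B.gg ξ (B.X0 ξ), B.X0 ξ⟫ / B.r2 ξ)) -
        2 * (α (B.lg ξ) * (ε + d) + deriv α (B.lg ξ) *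
          (⟪B.gg ξ (B.X0 ξ), L (B.gg ξ (B.X0 ξ))⟫ / B.r2 ξ)) -
        (d * ((m - 2) * α (B.lg ξ) + deriv α (B.lg ξ) * B.vr ξ) -
          2 * deriv α (B.lg ξ) * (⟪B.gg ξ (B.X0 ξ), L (B.gg ξ (B.X0 ξ))⟫ / B.r2 ξ)) =
        α (B.lg ξ) * (d * (dv B.X0 ξ - m) - 2 * ε) := by
      unfold vr
      ring
    rw [e5, abs_mul]
    have e6 : |d * (dv B.X0 ξ - m) - 2 * ε| ≤ 5 * m * c ^ 2 * (√(B.r2 ξ) * d) := by
      refine (abs_sub _ _).trans ?_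
      rw [abs_mul, abs_mul, abs_two, abs_of_nonneg hd]
      have k1 := mul_le_mul_of_nonneg_left x3 hd
      have k2 : 0 ≤ m * c * (√(B.r2 ξ) * d) := by positivity
      have k3 := mul_le_mul_of_nonneg_left hc k2
      linarith only [k1, k3, e1]
    calc _ ≤ |α (B.lg ξ)| * (5 * m * c ^ 2 * (√(B.r2 ξ) * d)) := by gcongr
      _ = _ := by ring

/-- the second test function -/
theorem CarlA_two {α : ℝ → ℝ} (hα : Differentiable ℝ α) (hα' : Differentiable ℝ (deriv α)) {k n : ℝ}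
    (hn : 2 ≤ n) (hk : |k| ≤ n) {ξ : E m} (h : ξ ≠ B.ξ₀) (h1 : √(B.r2 ξ) ≤ 1) (p : E m) :
    |(-deriv α (B.lg ξ)) • B.vr ξ + (-(k * α (B.lg ξ))) • (1 : ℝ)| ≤
      8 * n * (|α (B.lg ξ)| + |deriv α (B.lg ξ)|) ∧
    ‖fderiv ℝ (fun x => (-deriv α (B.lg x)) • B.vr x + (-(k * α (B.lg x))) • (1 : ℝ)) ξ‖ ≤
      20 * n * c * ((|deriv α (B.lg ξ)| + |deriv (deriv α) (B.lg ξ)|) / √(B.r2 ξ)) ∧
    |fderiv ℝ (fun x => (-deriv α (B.lg x)) • B.vr x + (-(k * α (B.lg x))) • (1 : ℝ)) ξ p -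
      2 * bet1 k α (B.lg ξ) * B.vr ξ * (⟪B.gg ξ (B.X0 ξ), p⟫ / B.r2 ξ)| ≤
      9 * n * c * (|deriv α (B.lg ξ)| * ‖p‖) := by
  obtain ⟨l1, -, l3, l4, l5, l6, l7⟩ := B.lg_calc ξ h
  obtain ⟨l7, l8⟩ := l7 h1
  have hc := B.c_ge
  have hr : 0 < √(B.r2 ξ) := Real.sqrt_pos.2 l1
  have hv := B.CarlA_vr ξ
  have dv1 := l4.differentiableAt one_ne_zero
  have dl := l3.differentiableAt (by norm_num)
  have d1 : Differentiable ℝ fun τ => -deriv α τ := hα'.neg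
  have d2 : Differentiable ℝ fun τ => -(k * α τ) := (hα.const_mul k).neg
  obtain ⟨p1, p2⟩ := B.CarlA_prod h d1 dv1
  obtain ⟨q1, q2⟩ := B.CarlA_prod (X := fun _ => (1 : ℝ)) h d2 (differentiableAt_const 1)
  have e1 : deriv (fun τ => -deriv α τ) (B.lg ξ) = -deriv (deriv α) (B.lg ξ) :=
    (hα' _).hasDerivAt.neg.deriv
  have e2 : deriv (fun τ => -(k * α τ)) (B.lg ξ) = -(k * deriv α (B.lg ξ)) :=
    ((hα _).hasDerivAt.const_mul k).neg.deriv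
  have e3 : fderiv ℝ (fun x => (-deriv α (B.lg x)) • B.vr x + (-(k * α (B.lg x))) • (1 : ℝ)) ξ =
      fderiv ℝ (fun x => (-deriv α (B.lg x)) • B.vr x) ξ +
        fderiv ℝ (fun x => (-(k * α (B.lg x))) • (1 : ℝ)) ξ :=
    fderiv_fun_add (((d1 _).comp ξ dl).smul dv1) (((d2 _).comp ξ dl).smul (differentiableAt_const 1))
  simp only [e1, e2, abs_neg, abs_mul, fderiv_fun_const, Pi.zero_apply, norm_zero, mul_zero,
    zero_add, norm_one, mul_one, zero_apply, smul_zero, Real.norm_eq_abs] at p1 p2 q1 q2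
  have a0 := abs_nonneg (α (B.lg ξ))
  have a1 := abs_nonneg (deriv α (B.lg ξ))
  have a2 := abs_nonneg (deriv (deriv α) (B.lg ξ))
  refine ⟨?_, ?_, ?_⟩
  · refine (abs_add_le _ _).trans ?_
    rw [smul_eq_mul, smul_eq_mul, mul_one, abs_neg, abs_mul, abs_mul, abs_neg]
    have k1 := mul_le_mul_of_nonneg_left hv a1
    have k2 := mul_le_mul_of_nonneg_right hk a0
    linarith only [k1, k2, a1, mul_le_mul_of_nonneg_right hn a1, mul_nonneg (zero_le_two.trans hn) a0]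
  · rw [e3]
    refine (norm_add_le _ _).trans ((add_le_add p2 q2).trans ?_)
    have k0 : 1 ≤ 1 / √(B.r2 ξ) := one_le_one_div hr h1
    have k1 : |deriv α (B.lg ξ)| * ‖fderiv ℝ B.vr ξ‖ ≤
        |deriv α (B.lg ξ)| * (9 * c * (1 / √(B.r2 ξ))) :=
      mul_le_mul_of_nonneg_left (l8.trans (le_mul_of_one_le_right (by linarith) k0)) a1
    have k2 : |deriv (deriv α) (B.lg ξ)| * (4 / √(B.r2 ξ)) * |B.vr ξ| ≤
        |deriv (deriv α) (B.lg ξ)| * (4 / √(B.r2 ξ)) * 8 := by gcongr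
    have k3 : |k| * |deriv α (B.lg ξ)| * (4 / √(B.r2 ξ)) ≤
        n * |deriv α (B.lg ξ)| * (4 / √(B.r2 ξ)) := by gcongr
    refine (add_le_add (add_le_add k1 k2) k3).trans ?_
    have k4 : 0 ≤ |deriv α (B.lg ξ)| / √(B.r2 ξ) := by positivity
    have k5 : 0 ≤ |deriv (deriv α) (B.lg ξ)| / √(B.r2 ξ) := by positivity
    have k6 : 2 * c ≤ n * c := mul_le_mul_of_nonneg_right hn (zero_le_one.trans hc)
    have k7 : n ≤ n * c := le_mul_of_one_le_right (zero_le_two.trans hn) hc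
    calc _ = (9 * c + 4 * n) * (|deriv α (B.lg ξ)| / √(B.r2 ξ)) +
          32 * (|deriv (deriv α) (B.lg ξ)| / √(B.r2 ξ)) := by ring
      _ ≤ (20 * (n * c)) * (|deriv α (B.lg ξ)| / √(B.r2 ξ)) +
          (20 * (n * c)) * (|deriv (deriv α) (B.lg ξ)| / √(B.r2 ξ)) :=
        add_le_add (mul_le_mul_of_nonneg_right (by linarith) k4)
          (mul_le_mul_of_nonneg_right (by linarith) k5)
      _ = _ := by ring
  · rw [e3, add_apply, p1, q1, ← l5]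
    have e4 : -deriv α (B.lg ξ) • fderiv ℝ B.vr ξ p +
        (-deriv (deriv α) (B.lg ξ) * fderiv ℝ B.lg ξ p) • B.vr ξ +
        (-(k * deriv α (B.lg ξ)) * fderiv ℝ B.lg ξ p) • (1 : ℝ) -
        2 * bet1 k α (B.lg ξ) * B.vr ξ * fderiv ℝ B.lg ξ p =
        deriv α (B.lg ξ) * (k * (B.vr ξ - 1) * fderiv ℝ B.lg ξ p - fderiv ℝ B.vr ξ p) := by
      simp only [bet1, smul_eq_mul]
      ring
    rw [e4, abs_mul]
    have k1 : |fderiv ℝ B.vr ξ p| ≤ 9 * c * ‖p‖ :=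
      ((fderiv ℝ B.vr ξ).le_opNorm p).trans (mul_le_mul_of_nonneg_right l8 (norm_nonneg p))
    have k2 : |fderiv ℝ B.lg ξ p| ≤ 4 / √(B.r2 ξ) * ‖p‖ :=
      ((fderiv ℝ B.lg ξ).le_opNorm p).trans (mul_le_mul_of_nonneg_right l6 (norm_nonneg p))
    have k3 : |k * (B.vr ξ - 1) * fderiv ℝ B.lg ξ p| ≤ 4 * n * c * ‖p‖ := by
      rw [abs_mul, abs_mul]
      calc _ ≤ n * (c * √(B.r2 ξ)) * (4 / √(B.r2 ξ) * ‖p‖) := by gcongr
        _ = _ := by field_simp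
    have k4 : 0 ≤ c * ‖p‖ := by positivity
    have k5 := mul_le_mul_of_nonneg_right hn k4
    have k6 : |k * (B.vr ξ - 1) * fderiv ℝ B.lg ξ p - fderiv ℝ B.vr ξ p| ≤ 9 * n * c * ‖p‖ :=
      (abs_sub _ _).trans (by linarith)
    calc _ ≤ |deriv α (B.lg ξ)| * (9 * n * c * ‖p‖) := by gcongr
      _ = _ := by ring

/-- the field `(vr / r2) • X0` -/
theorem CarlA_W {ξ : E m} (h : ξ ≠ B.ξ₀) : ContDiffAt ℝ 1 (fun x => (B.vr x / B.r2 x) • B.X0 x) ξ ∧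
    (√(B.r2 ξ) ≤ 1 → ‖(B.vr ξ / B.r2 ξ) • B.X0 ξ‖ ≤ 16 / √(B.r2 ξ) ∧
    ‖fderiv ℝ (fun x => (B.vr x / B.r2 x) • B.X0 x) ξ‖ ≤ 162 * c / B.r2 ξ ∧
    |dv (fun x => (B.vr x / B.r2 x) • B.X0 x) ξ - (m - 2) * B.vr ξ ^ 2 / B.r2 ξ| ≤
      18 * (m + 2) * c / √(B.r2 ξ)) := by
  obtain ⟨l1, -, -, l4, -, -, l7⟩ := B.lg_calc ξ h
  have c1 : ContDiff ℝ 1 B.X0 := B.cX0.of_le (by norm_num)
  have c2 : ContDiff ℝ 1 B.r2 := B.cr2.of_le (by norm_num)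
  have c3 : ContDiffAt ℝ 1 (fun x => B.vr x / B.r2 x) ξ := l4.div c2.contDiffAt l1.ne'
  refine ⟨c3.smul c1.contDiffAt, fun h1 => ?_⟩
  obtain ⟨l7, l8⟩ := l7 h1
  obtain ⟨-, -, r2, -, r4⟩ := B.CarlA_r ξ
  obtain ⟨-, x2, x3, -⟩ := B.CarlA_X0 h1
  have hc := B.c_ge
  have hr : 0 < √(B.r2 ξ) := Real.sqrt_pos.2 l1
  have hv := B.CarlA_vr ξ
  have d3 := c3.differentiableAt one_ne_zero
  have d1 := c1.differentiable one_ne_zero ξ
  obtain ⟨q1, q2⟩ := B.CarlA_quot l1 (l4.differentiableAt one_ne_zero)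
  have a1 : |B.vr ξ / B.r2 ξ| ≤ 8 / B.r2 ξ := by
    rw [abs_div, abs_of_pos l1]
    gcongr
  refine ⟨?_, ?_, ?_⟩
  · rw [norm_smul, Real.norm_eq_abs]
    calc _ ≤ 8 / B.r2 ξ * (2 * √(B.r2 ξ)) := by gcongr
      _ = 8 / √(B.r2 ξ) ^ 2 * (2 * √(B.r2 ξ)) := by rw [r4]
      _ = _ := by
        field_simp
        norm_num
  · have h2 : fderiv ℝ (fun x => (B.vr x / B.r2 x) • B.X0 x) ξ = _ :=
      (d3.hasFDerivAt.smul d1.hasFDerivAt).fderiv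
    rw [h2]
    refine (norm_add_le _ _).trans ?_
    rw [norm_smul, ContinuousLinearMap.norm_smulRight_apply, Real.norm_eq_abs]
    have k1 : c * √(B.r2 ξ) ≤ c := mul_le_of_le_one_right (by linarith) h1
    calc _ ≤ 8 / B.r2 ξ * (2 * c) +
          (9 * c / B.r2 ξ + 8 * 8 * √(B.r2 ξ) / B.r2 ξ ^ 2) * (2 * √(B.r2 ξ)) :=
          add_le_add (by gcongr) (mul_le_mul (q2.trans (by gcongr)) r2 (norm_nonneg _)
            (by positivity))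
      _ = (16 * c + 18 * (c * √(B.r2 ξ))) / B.r2 ξ + 128 * √(B.r2 ξ) ^ 2 / B.r2 ξ ^ 2 := by ring
      _ = (16 * c + 18 * (c * √(B.r2 ξ)) + 128) / B.r2 ξ := by
        rw [r4]
        field_simp
      _ ≤ _ := div_le_div_of_nonneg_right (by linarith) l1.le
  · rw [dv_smul d3 d1, q1]
    have e : B.vr ξ / B.r2 ξ * dv B.X0 ξ + (fderiv ℝ B.vr ξ (B.X0 ξ) / B.r2 ξ -
        2 * B.vr ξ * ⟪B.gg ξ (B.X0 ξ), B.X0 ξ⟫ / B.r2 ξ ^ 2) - (m - 2) * B.vr ξ ^ 2 / B.r2 ξ =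
        (B.vr ξ * ((dv B.X0 ξ - m) - m * (B.vr ξ - 1)) + fderiv ℝ B.vr ξ (B.X0 ξ)) / B.r2 ξ := by
      have e1 : ⟪B.gg ξ (B.X0 ξ), B.X0 ξ⟫ = B.vr ξ * B.r2 ξ := by
        unfold vr
        field_simp
      rw [e1]
      field_simp
      ring
    rw [e, abs_div, abs_of_pos l1]
    have hm : (0 : ℝ) ≤ m := Nat.cast_nonneg m
    have k1 : |fderiv ℝ B.vr ξ (B.X0 ξ)| ≤ 9 * c * (2 * √(B.r2 ξ)) :=
      ((fderiv ℝ B.vr ξ).le_opNorm _).trans (mul_le_mul l8 r2 (norm_nonneg _) (by linarith))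
    have k2 : |(dv B.X0 ξ - m) - m * (B.vr ξ - 1)| ≤ m * (c * √(B.r2 ξ)) + m * (c * √(B.r2 ξ)) := by
      refine (abs_sub _ _).trans (add_le_add x3 ?_)
      rw [abs_mul, abs_of_nonneg hm]
      gcongr
    have k3 : |B.vr ξ * ((dv B.X0 ξ - m) - m * (B.vr ξ - 1))| ≤
        8 * (m * (c * √(B.r2 ξ)) + m * (c * √(B.r2 ξ))) := by
      rw [abs_mul]
      gcongr
    have k4 : 0 ≤ c * √(B.r2 ξ) := by positivity
    have k5 : 0 ≤ m * (c * √(B.r2 ξ)) := by positivity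
    calc _ ≤ 18 * (m + 2) * c * √(B.r2 ξ) / B.r2 ξ :=
          div_le_div_of_nonneg_right ((abs_add_le _ _).trans
            (by linarith only [k1, k3, k4, k5])) l1.le
      _ = 18 * (m + 2) * c * √(B.r2 ξ) / √(B.r2 ξ) ^ 2 := by rw [r4]
      _ = _ := by field_simp

/-- the third test field -/
theorem CarlA_three {β : ℝ → ℝ} (hβ : Differentiable ℝ β) {ξ : E m} (h : ξ ≠ B.ξ₀)
    (h1 : √(B.r2 ξ) ≤ 1) (p : E m) :
    ‖β (B.lg ξ) • (B.vr ξ / B.r2 ξ) • B.X0 ξ‖ ≤ 16 * (|β (B.lg ξ)| / √(B.r2 ξ)) ∧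
    ‖fderiv ℝ (fun x => β (B.lg x) • (B.vr x / B.r2 x) • B.X0 x) ξ‖ ≤
      162 * c * ((|β (B.lg ξ)| + |deriv β (B.lg ξ)|) / B.r2 ξ) ∧
    ⟪p, B.gg ξ (β (B.lg ξ) • (B.vr ξ / B.r2 ξ) • B.X0 ξ)⟫ =
      β (B.lg ξ) * B.vr ξ * (⟪B.gg ξ (B.X0 ξ), p⟫ / B.r2 ξ) ∧
    |dv (fun x => β (B.lg x) • (B.vr x / B.r2 x) • B.X0 x) ξ -
      (deriv β (B.lg ξ) + (m - 2) * β (B.lg ξ)) * B.vr ξ ^ 2 / B.r2 ξ| ≤
      18 * (m + 2) * c * (|β (B.lg ξ)| / √(B.r2 ξ)) := by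
  obtain ⟨w1, w2⟩ := B.CarlA_W h
  obtain ⟨w2, w3, w4⟩ := w2 h1
  have l1 := (B.lg_calc ξ h).1
  have r4 := (B.CarlA_r ξ).2.2.2.2
  have hc := B.c_ge
  have hr : 0 < √(B.r2 ξ) := Real.sqrt_pos.2 l1
  have d1 := w1.differentiableAt one_ne_zero
  refine ⟨?_, (B.CarlA_prod h hβ d1).2.trans ?_, ?_, ?_⟩
  · rw [norm_smul, Real.norm_eq_abs]
    calc _ ≤ |β (B.lg ξ)| * (16 / √(B.r2 ξ)) := by gcongr
      _ = _ := by ring
  · have k1 : 0 ≤ |deriv β (B.lg ξ)| / B.r2 ξ := by positivity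
    calc _ ≤ |β (B.lg ξ)| * (162 * c / B.r2 ξ) +
          |deriv β (B.lg ξ)| * (4 / √(B.r2 ξ)) * (16 / √(B.r2 ξ)) := by gcongr
      _ = 162 * c * (|β (B.lg ξ)| / B.r2 ξ) + 64 * (|deriv β (B.lg ξ)| / √(B.r2 ξ) ^ 2) := by ring
      _ ≤ 162 * c * (|β (B.lg ξ)| / B.r2 ξ) + 162 * c * (|deriv β (B.lg ξ)| / B.r2 ξ) := by
        rw [r4]
        exact add_le_add le_rfl (mul_le_mul_of_nonneg_right (by linarith) k1)
      _ = _ := by ring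
  · rw [map_smul, map_smul, real_inner_smul_right, real_inner_smul_right, real_inner_comm]
    ring
  · rw [B.CarlA_dv_prod h hβ d1, real_inner_smul_right]
    have e : β (B.lg ξ) * dv (fun x => (B.vr x / B.r2 x) • B.X0 x) ξ + deriv β (B.lg ξ) *
        (B.vr ξ / B.r2 ξ * ⟪B.gg ξ (B.X0 ξ), B.X0 ξ⟫ / B.r2 ξ) -
        (deriv β (B.lg ξ) + (m - 2) * β (B.lg ξ)) * B.vr ξ ^ 2 / B.r2 ξ = β (B.lg ξ) *
        (dv (fun x => (B.vr x / B.r2 x) • B.X0 x) ξ - (m - 2) * B.vr ξ ^ 2 / B.r2 ξ) := by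
      have e1 : ⟪B.gg ξ (B.X0 ξ), B.X0 ξ⟫ = B.vr ξ * B.r2 ξ := by
        unfold vr
        field_simp
      rw [e1]
      field_simp
      ring
    rw [e, abs_mul]
    calc _ ≤ |β (B.lg ξ)| * (18 * (m + 2) * c / √(B.r2 ξ)) := by gcongr
      _ = _ := by ring

/-- the second test function -/
noncomputable def CarlA_g (α : ℝ → ℝ) (x : E m) : ℝ :=
  (-deriv α (B.lg x)) • B.vr x + (-(((m : ℝ) - 2) * α (B.lg x))) • (1 : ℝ)

/-- the third test field -/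
noncomputable def CarlA_U (α : ℝ → ℝ) (x : E m) : E m :=
  bet1 (m - 2) α (B.lg x) • (B.vr x / B.r2 x) • B.X0 x

/-- the main integrand -/
noncomputable def CarlA_F (α : ℝ → ℝ) (y : Ω) : ℝ :=
  -2 * deriv α (B.lg (B.ζ y)) * B.Nr y +
    4 * bet1 (m - 2) α (B.lg (B.ζ y)) * B.vr (B.ζ y) * B.pt y +
    (deriv (bet1 (m - 2) α) (B.lg (B.ζ y)) + (m - 2) * bet1 (m - 2) α (B.lg (B.ζ y))) *
      B.vr (B.ζ y) ^ 2 * B.h y / B.r2 (B.ζ y)

/-- the error integrand -/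
noncomputable def CarlA_E (α : ℝ → ℝ) (y : Ω) : ℝ :=
  (|α (B.lg (B.ζ y))| + |deriv α (B.lg (B.ζ y))|) * (B.T * B.d y + B.h y + √(B.h y * B.d y)) +
    √(B.r2 (B.ζ y)) * |α (B.lg (B.ζ y))| * B.d y +
    (|deriv α (B.lg (B.ζ y))| + |deriv (deriv α) (B.lg (B.ζ y))|) * B.h y / √(B.r2 (B.ζ y)) +
    (|deriv α (B.lg (B.ζ y))| + |deriv (deriv α) (B.lg (B.ζ y))| +
      |deriv (deriv (deriv α)) (B.lg (B.ζ y))|) * (B.T + B.d y) * B.h y / B.r2 (B.ζ y)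

theorem CarlA_tests {α : ℝ → ℝ} {a b : ℝ} (hα : ContDiff ℝ 3 α) (h0 : ∀ τ, τ ∉ Icc a b → α τ = 0)
    (hb : Real.exp b < B.R) :
    (Test 1 (fun ξ => α (B.lg ξ) • B.X0 ξ) B.O ∧
      tsupport (fun ξ => α (B.lg ξ) • B.X0 ξ) ⊆ {ξ | ξ ≠ B.ξ₀ ∧ B.lg ξ ∈ Icc a b}) ∧
    (Test 1 (B.CarlA_g α) B.O ∧ tsupport (B.CarlA_g α) ⊆ {ξ | ξ ≠ B.ξ₀ ∧ B.lg ξ ∈ Icc a b}) ∧
    (Test 1 (B.CarlA_U α) B.O ∧ tsupport (B.CarlA_U α) ⊆ {ξ | ξ ≠ B.ξ₀ ∧ B.lg ξ ∈ Icc a b}) := by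
  obtain ⟨a0, a1, -, a3, -⟩ := CarlA_alpha hα ((m : ℝ) - 2)
  have z1 := CarlA_deriv_zero h0
  have z2 := CarlA_deriv_zero z1
  obtain ⟨g1, g2⟩ := B.test_rad (f := fun τ => -deriv α τ) a1.neg
    (fun τ hτ => by simp only [z1 τ hτ, neg_zero]) hb fun ξ h => (B.lg_calc ξ h).2.2.2.1
  obtain ⟨g3, g4⟩ := B.test_rad (f := fun τ => -(((m : ℝ) - 2) * α τ)) (X := fun _ => (1 : ℝ))
    (contDiff_const.mul a0).neg (fun τ hτ => by simp only [h0 τ hτ, mul_zero, neg_zero]) hb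
    fun ξ _ => contDiffAt_const
  exact ⟨B.test_rad a0 h0 hb fun ξ _ => (B.cX0.of_le (by norm_num)).contDiffAt,
    ⟨CarlA_test_add g1 g3, (tsupport_add _ _).trans (union_subset g2 g4)⟩,
    B.test_rad a3 (fun τ hτ => by simp only [bet1, z1 τ hτ, z2 τ hτ, mul_zero, add_zero, neg_zero,
      zero_div]) hb fun ξ h => (B.CarlA_W h).1⟩

theorem CarlA_intFE {α : ℝ → ℝ} {a b : ℝ} (hα : ContDiff ℝ 3 α) (h0 : ∀ τ, τ ∉ Icc a b → α τ = 0)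
    (hb : Real.exp b < B.R) : Integrable (B.CarlA_F α) B.μ ∧ Integrable (B.CarlA_E α) B.μ := by
  obtain ⟨a0, a1, a2, a3, -⟩ := CarlA_alpha hα ((m : ℝ) - 2)
  have z1 := CarlA_deriv_zero h0
  have z2 := CarlA_deriv_zero z1
  have z3 := CarlA_deriv_zero z2
  have z4 : ∀ τ, τ ∉ Icc a b → bet1 (m - 2) α τ = 0 := fun τ hτ => by
    simp only [bet1, z1 τ hτ, z2 τ hτ, mul_zero, add_zero, neg_zero, zero_div]
  have z5 := CarlA_deriv_zero z4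
  have cr := B.cr2.continuous
  have cG : Continuous fun ξ => B.gg ξ (B.X0 ξ) := B.cgg.continuous.clm_apply B.cX0.continuous
  have i1 : ∀ ξ, ξ ≠ B.ξ₀ → ContinuousAt (fun x => (B.r2 x)⁻¹) ξ := fun ξ h =>
    cr.continuousAt.inv₀ (B.lg_calc ξ h).1.ne'
  have i2 : ∀ ξ, ξ ≠ B.ξ₀ → ContinuousAt (fun x => (√(B.r2 x))⁻¹) ξ := fun ξ h =>
    cr.sqrt.continuousAt.inv₀ (Real.sqrt_pos.2 (B.lg_calc ξ h).1).ne'
  have i3 : ∀ ξ, ξ ≠ B.ξ₀ → ContinuousAt B.vr ξ := fun ξ h => (B.lg_calc ξ h).2.2.2.1.continuousAt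
  have d2 := a2.continuous_deriv le_rfl
  have d3 := a3.continuous_deriv le_rfl
  constructor
  · have u1 := B.CarlA_cont a1.continuous z1 hb i1
    have u2 := B.CarlA_cont a3.continuous z4 hb fun ξ h => (i3 ξ h).mul (i1 ξ h)
    have u3 := B.CarlA_cont (a := a) (f := fun τ => deriv (bet1 (m - 2) α) τ + (m - 2) * bet1 (m - 2) α τ)
      (d3.add (continuous_const.mul a3.continuous))
      (fun τ hτ => by simp only [z4 τ hτ, z5 τ hτ, mul_zero, add_zero]) hb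
      fun ξ h => ((i3 ξ h).pow 2).mul (i1 ξ h)
    have k := B.CarlA_int ((((continuous_const (y := (-2 : ℝ))).mul ((u1.comp continuous_fst).mul
      ((cG.comp continuous_fst).inner (𝕜 := ℝ) (continuous_snd.snd.snd.snd.clm_apply
        (cG.comp continuous_fst))))).add ((continuous_const (y := (4 : ℝ))).mul
      ((u2.comp continuous_fst).mul ((cG.comp continuous_fst).inner (𝕜 := ℝ)
        continuous_snd.snd.snd.fst)))).add ((u3.comp continuous_fst).mul continuous_snd.snd.fst))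
    refine k.congr (Eventually.of_forall fun y => ?_)
    simp only [CarlA_F, Nr, pt, Function.comp_apply, Pi.mul_apply, Pi.pow_apply, Pi.add_apply]
    ring
  · have u0 := B.CarlA_cont (a := a) (X := fun _ => 1) a0.continuous.abs
      (fun τ hτ => by simp only [h0 τ hτ, abs_zero]) hb fun ξ _ => continuousAt_const
    have u1 := B.CarlA_cont (a := a) (X := fun _ => 1) a1.continuous.abs
      (fun τ hτ => by simp only [z1 τ hτ, abs_zero]) hb fun ξ _ => continuousAt_const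
    have u2 := B.CarlA_cont (a := a) (f := fun τ => |deriv α τ| + |deriv (deriv α) τ|)
      (a1.continuous.abs.add a2.continuous.abs)
      (fun τ hτ => by simp only [z1 τ hτ, z2 τ hτ, abs_zero, add_zero]) hb i2
    have u3 := B.CarlA_cont (a := a)
      (f := fun τ => |deriv α τ| + |deriv (deriv α) τ| + |deriv (deriv (deriv α)) τ|)
      ((a1.continuous.abs.add a2.continuous.abs).add d2.abs)
      (fun τ hτ => by simp only [z1 τ hτ, z2 τ hτ, z3 τ hτ, abs_zero, add_zero]) hb i1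
    have qd : Continuous fun q : E m × ℝ × ℝ × E m × (E m →L[ℝ] E m) => q.2.1 := continuous_snd.fst
    have qh : Continuous fun q : E m × ℝ × ℝ × E m × (E m →L[ℝ] E m) => q.2.2.1 :=
      continuous_snd.snd.fst
    have k := B.CarlA_int ((((((u0.comp continuous_fst).add (u1.comp continuous_fst)).mul
      ((((continuous_const (y := B.T)).mul qd).add qh).add (qh.mul qd).sqrt)).add
      (((cr.sqrt.comp continuous_fst).mul (u0.comp continuous_fst)).mul qd)).add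
      ((u2.comp continuous_fst).mul qh)).add
      ((u3.comp continuous_fst).mul (((continuous_const (y := B.T)).add qd).mul qh)))
    refine k.congr (Eventually.of_forall fun y => ?_)
    simp only [CarlA_E, Function.comp_apply, Pi.mul_apply, Pi.add_apply]
    ring

end Base

theorem CarlA_num {n c x0 x1 x2 x3 T d h s r ri qi : ℝ} (hn : 2 ≤ n) (hc : 1 ≤ c) (h0 : 0 ≤ x0)
    (h1 : 0 ≤ x1) (h2 : 0 ≤ x2) (h3 : 0 ≤ x3) (hT : 0 ≤ T) (hd : 0 ≤ d) (hh : 0 ≤ h) (hs : 0 ≤ s)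
    (hr : 0 ≤ r) (hr1 : r ≤ 1) (hri : 0 ≤ ri) (hqi : 0 ≤ qi) {Φ : ℝ}
    (hΦ : Φ = (x0 + x1) * (T * d + h + s) + r * x0 * d + (x1 + x2) * h * ri +
      (x1 + x2 + x3) * (T + d) * h * qi) :
    T * d * (8 * c * (x0 + x1)) + (d + h) * (2 * r * x0) ≤ 400 * n ^ 2 * c ^ 2 * Φ ∧
    8 * n * (x0 + x1) * (h + s) + 20 * n * c * ((x1 + x2) * ri) * h ≤ 400 * n ^ 2 * c ^ 2 * Φ ∧
    h * (16 * (n * (x1 + x2) * ri) + (T + d) * (162 * c * ((n * (x1 + x2) + n * (x2 + x3)) * qi))) ≤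
      400 * n ^ 2 * c ^ 2 * Φ ∧
    5 * n * c ^ 2 * (r * x0 * d) + 9 * n * c * (x1 * (c * s)) + h * (18 * n * c * (n * (x1 + x2) * ri)) ≤
      400 * n ^ 2 * c ^ 2 * Φ := by
  have t1 : 0 ≤ (x0 + x1) * (T * d) := by positivity
  have t2 : 0 ≤ (x0 + x1) * h := by positivity
  have t3 : 0 ≤ (x0 + x1) * s := by positivity
  have t4 : 0 ≤ r * x0 * d := by positivity
  have t5 : 0 ≤ (x1 + x2) * h * ri := by positivity
  have t6 : 0 ≤ (x1 + x2 + x3) * (T + d) * h * qi := by positivity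
  have e : Φ = (x0 + x1) * (T * d) + (x0 + x1) * h + (x0 + x1) * s + r * x0 * d +
      (x1 + x2) * h * ri + (x1 + x2 + x3) * (T + d) * h * qi := by rw [hΦ]; ring
  have hΦ0 : 0 ≤ Φ := by linarith
  obtain ⟨u, hu⟩ : ∃ u, u = n * c := ⟨_, rfl⟩
  have n1 : 1 ≤ n := one_le_two.trans hn
  have n0 : 0 ≤ n := zero_le_one.trans n1
  have c0 : 0 ≤ c := zero_le_one.trans hc
  have u1 : c ≤ u := hu ▸ le_mul_of_one_le_left c0 n1
  have u2 : n ≤ u := hu ▸ le_mul_of_one_le_right n0 hc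
  have u0 : 0 ≤ u := c0.trans u1
  have u3 : u ≤ u ^ 2 := by linarith only [le_mul_of_one_le_left u0 (hc.trans u1)]
  have u4 : n * c ^ 2 ≤ u ^ 2 := by
    have k := mul_le_mul_of_nonneg_left u1 u0
    rw [hu] at k ⊢
    linarith only [k]
  have u5 : n * u ≤ u ^ 2 := by linarith only [mul_le_mul_of_nonneg_right u2 u0]
  have e2 : 400 * n ^ 2 * c ^ 2 * Φ = 400 * (u ^ 2 * Φ) := by rw [hu]; ring
  have key : ∀ w t : ℝ, w ≤ u ^ 2 → 0 ≤ t → t ≤ Φ → w * t ≤ u ^ 2 * Φ := fun w t k1 k2 k3 =>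
    mul_le_mul k1 k3 k2 (sq_nonneg u)
  have p0 : 0 ≤ u ^ 2 * Φ := by positivity
  rw [e2]
  refine ⟨?_, ?_, ?_, ?_⟩
  · have k1 := key c _ (by linarith) t1 (by linarith)
    have k2 := key 1 _ (by linarith) t4 (by linarith)
    have k3 := key 1 _ (by linarith) t2 (by linarith)
    have k4 : r * x0 * h ≤ (x0 + x1) * h :=
      mul_le_mul_of_nonneg_right (by linarith only [mul_le_of_le_one_left h0 hr1, h1]) hh
    linarith only [k1, k2, k3, k4, p0]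
  · have k1 := key n _ (by linarith) t2 (by linarith)
    have k2 := key n _ (by linarith) t3 (by linarith)
    have k3 := key (n * c) _ (by linarith) t5 (by linarith)
    linarith only [k1, k2, k3, p0]
  · have k1 := key n _ (by linarith) t5 (by linarith)
    have k2 := key (n * c) _ (by linarith) t6 (by linarith)
    have k3 : 0 ≤ n * c * ((x1 + x3) * (T + d) * h * qi) := by positivity
    linarith only [k1, k2, k3, p0]
  · have k1 := key (n * c ^ 2) _ u4 t4 (by linarith)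
    have k2 := key (n * c ^ 2) _ u4 t3 (by linarith)
    have k3 := key (n * (n * c)) _ (by rw [← hu]; exact u5) t5 (by linarith)
    have k4 : 0 ≤ n * c ^ 2 * (x0 * s) := by positivity
    linarith only [k1, k2, k3, k4, p0]

theorem CarlA_comb {Ω : Type} [MeasurableSpace Ω] {μ : Measure Ω} {f1 f2 f3 g1 g2 g3 F Φ : Ω → ℝ}
    {Y c K : ℝ} (hc : 0 ≤ c) (i1 : Integrable f1 μ) (i2 : Integrable f2 μ) (i3 : Integrable f3 μ)
    (iF : Integrable F μ) (iΦ : Integrable Φ μ) (E1 : |Y - ∫ y, f1 y ∂μ| ≤ 2 * c * ∫ y, g1 y ∂μ)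
    (E2 : |∫ y, f2 y ∂μ| ≤ c * ∫ y, g2 y ∂μ) (E3 : |∫ y, f3 y ∂μ| ≤ c * ∫ y, g3 y ∂μ)
    (h0 : ∀ᵐ y ∂μ, 0 ≤ g1 y ∧ 0 ≤ g2 y ∧ 0 ≤ g3 y)
    (h : ∀ᵐ y ∂μ, g1 y ≤ K * Φ y ∧ g2 y ≤ K * Φ y ∧ g3 y ≤ K * Φ y ∧
      |f1 y + f2 y + f3 y - F y| ≤ K * Φ y) :
    |(∫ y, F y ∂μ) - Y| ≤ (4 * c + 1) * K * ∫ y, Φ y ∂μ := by
  have j := iΦ.const_mul K
  have k1 := integral_mono_of_nonneg (h0.mono fun y hy => hy.1) j (h.mono fun y hy => hy.1)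
  have k2 := integral_mono_of_nonneg (h0.mono fun y hy => hy.2.1) j (h.mono fun y hy => hy.2.1)
  have k3 := integral_mono_of_nonneg (h0.mono fun y hy => hy.2.2) j (h.mono fun y hy => hy.2.2.1)
  have k4 := norm_integral_le_of_norm_le (f := fun y => f1 y + f2 y + f3 y - F y) j
    (h.mono fun y hy => hy.2.2.2)
  have i4 : Integrable (fun y => f1 y + f2 y) μ := i1.add i2
  have i5 : Integrable (fun y => f1 y + f2 y + f3 y) μ := i4.add i3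
  rw [integral_sub i5 iF, integral_add i4 i3, integral_add i1 i2, Real.norm_eq_abs] at k4
  rw [integral_const_mul] at k1 k2 k3 k4
  have l1 := abs_le.1 (E1.trans (mul_le_mul_of_nonneg_left k1 (by linarith)))
  have l2 := abs_le.1 (E2.trans (mul_le_mul_of_nonneg_left k2 hc))
  have l3 := abs_le.1 (E3.trans (mul_le_mul_of_nonneg_left k3 hc))
  have l4 := abs_le.1 k4
  exact abs_le.2 ⟨by linarith [l1.2, l2.1, l3.1, l4.2], by linarith [l1.1, l2.2, l3.2, l4.1]⟩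

theorem Base.CarlA_pt {c : ℝ} {Ω : Type} [MeasurableSpace Ω] (B : Base m c Ω) {α : ℝ → ℝ} {a b : ℝ}
    (hα : ContDiff ℝ 3 α) (h0 : ∀ τ, τ ∉ Icc a b → α τ = 0) (hb : Real.exp b < B.R) : ∀ᵐ y ∂B.μ,
    B.T * B.d y * ‖fderiv ℝ (fun ξ => α (B.lg ξ) • B.X0 ξ) (B.ζ y)‖ +
      (B.d y + B.h y) * ‖α (B.lg (B.ζ y)) • B.X0 (B.ζ y)‖ ≤
      400 * ((m : ℝ) + 2) ^ 2 * c ^ 2 * B.CarlA_E α y ∧
    |B.CarlA_g α (B.ζ y)| * (B.h y + √(B.h y * B.d y)) + ‖fderiv ℝ (B.CarlA_g α) (B.ζ y)‖ * B.h y ≤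
      400 * ((m : ℝ) + 2) ^ 2 * c ^ 2 * B.CarlA_E α y ∧
    B.h y * (‖B.CarlA_U α (B.ζ y)‖ + (B.T + B.d y) * ‖fderiv ℝ (B.CarlA_U α) (B.ζ y)‖) ≤
      400 * ((m : ℝ) + 2) ^ 2 * c ^ 2 * B.CarlA_E α y ∧
    |(B.d y * dv (fun ξ => α (B.lg ξ) • B.X0 ξ) (B.ζ y) - 2 * ∑ i, ⟪ev i,
        fderiv ℝ (fun ξ => α (B.lg ξ) • B.X0 ξ) (B.ζ y) (B.Nn y (B.gg (B.ζ y) (ev i)))⟫) +
      (B.CarlA_g α (B.ζ y) * B.d y + fderiv ℝ (B.CarlA_g α) (B.ζ y) (B.p y)) +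
      (2 * ⟪B.p y, B.gg (B.ζ y) (B.CarlA_U α (B.ζ y))⟫ + B.h y * dv (B.CarlA_U α) (B.ζ y)) -
      B.CarlA_F α y| ≤ 400 * ((m : ℝ) + 2) ^ 2 * c ^ 2 * B.CarlA_E α y := by
  obtain ⟨a0, a1, a2, a3, a4⟩ := CarlA_alpha hα ((m : ℝ) - 2)
  obtain ⟨⟨-, s1⟩, ⟨-, s2⟩, -, s3⟩ := B.CarlA_tests hα h0 hb
  obtain ⟨hn, hk, hm⟩ := CarlA_k m
  have hc := B.c_ge
  have hT := B.T_pos.le
  filter_upwards [B.ae, B.ae2, B.norm_p_le] with y hy hy2 hp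
  obtain ⟨-, hd, -, hh, -⟩ := hy
  obtain ⟨-, -, n3, n4, -⟩ := hy2
  by_cases hS : B.ζ y ∈ {ξ | ξ ≠ B.ξ₀ ∧ B.lg ξ ∈ Icc a b}
  · have h1 := (B.CarlA_shell hb).2.2.2 _ hS.1 hS.2
    have l1 := (B.lg_calc _ hS.1).1
    obtain ⟨v1, v2, v3⟩ := B.CarlA_one (a0.differentiable one_ne_zero) hS.1 h1 hd n3 n4
    obtain ⟨g1, g2, g3⟩ := B.CarlA_two (a0.differentiable one_ne_zero)
      (a1.differentiable one_ne_zero) hn hk hS.1 h1 (B.p y)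
    obtain ⟨w1, w2, w3, w4⟩ := B.CarlA_three (a3.differentiable one_ne_zero) hS.1 h1 (B.p y)
    have b1 : |bet1 (m - 2) α (B.lg (B.ζ y))| ≤ _ := CarlA_half hn hk
    have b2 : |deriv (bet1 (m - 2) α) (B.lg (B.ζ y))| ≤ _ := (a4 _).symm ▸ CarlA_half hn hk
    have hp' : ‖B.p y‖ ≤ c * √(B.h y * B.d y) := by
      refine (Real.le_sqrt_of_sq_le hp).trans ?_
      rw [Real.sqrt_mul (by linarith)]
      refine mul_le_mul_of_nonneg_right ?_ (Real.sqrt_nonneg _)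
      rw [Real.sqrt_le_left (by linarith)]
      linarith only [le_mul_of_one_le_left (zero_le_one.trans hc) hc]
    obtain ⟨r1, r2, r3, r4⟩ := CarlA_num (Φ := B.CarlA_E α y) hn hc (abs_nonneg (α (B.lg (B.ζ y))))
      (abs_nonneg (deriv α (B.lg (B.ζ y)))) (abs_nonneg (deriv (deriv α) (B.lg (B.ζ y))))
      (abs_nonneg (deriv (deriv (deriv α)) (B.lg (B.ζ y)))) hT hd hh
      (Real.sqrt_nonneg (B.h y * B.d y)) (Real.sqrt_nonneg (B.r2 (B.ζ y))) h1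
      (inv_nonneg.2 (Real.sqrt_nonneg (B.r2 (B.ζ y)))) (inv_nonneg.2 l1.le)
      (by simp only [Base.CarlA_E, div_eq_mul_inv])
    simp only [← div_eq_mul_inv] at r2 r3 r4
    have w1' := w1.trans (mul_le_mul_of_nonneg_left
      (div_le_div_of_nonneg_right b1 (Real.sqrt_nonneg _)) (by norm_num))
    have w2' := w2.trans (mul_le_mul_of_nonneg_left
      (div_le_div_of_nonneg_right (add_le_add b1 b2) l1.le) (by linarith))
    have w4' := w4.trans (mul_le_mul_of_nonneg_left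
      (div_le_div_of_nonneg_right b1 (Real.sqrt_nonneg _)) (by positivity))
    refine ⟨le_trans ?_ r1, le_trans ?_ r2, le_trans ?_ r3, le_trans ?_ r4⟩
    · gcongr
    · exact add_le_add (mul_le_mul_of_nonneg_right g1 (by positivity))
        (mul_le_mul_of_nonneg_right g2 hh)
    · exact mul_le_mul_of_nonneg_left (add_le_add w1'
        (mul_le_mul_of_nonneg_left w2' (by positivity))) hh
    · have v3' := v3.trans (mul_le_mul_of_nonneg_right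
        (show 5 * (m : ℝ) * c ^ 2 ≤ 5 * ((m : ℝ) + 2) * c ^ 2 by linarith only [sq_nonneg c]) (by positivity))
      have g3' := g3.trans (mul_le_mul_of_nonneg_left
        (mul_le_mul_of_nonneg_left hp' (abs_nonneg _)) (by positivity))
      have w5 := mul_le_mul_of_nonneg_left w4' hh
      rw [← abs_of_nonneg hh, ← abs_mul, abs_of_nonneg hh] at w5
      refine le_trans (le_of_eq ?_) ((abs_add_three _ _ _).trans (add_le_add_three v3' g3' w5))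
      congr 1
      have e1 : B.CarlA_g α = fun x => (-deriv α (B.lg x)) • B.vr x +
        (-(((m : ℝ) - 2) * α (B.lg x))) • (1 : ℝ) := rfl
      have e2 : B.CarlA_U α = fun x => bet1 (m - 2) α (B.lg x) • (B.vr x / B.r2 x) • B.X0 x := rfl
      rw [e1, e2]
      simp only
      rw [w3]
      simp only [Base.CarlA_F, Base.Nr, Base.pt, smul_eq_mul]
      ring
  · have hl := B.CarlA_out hb hS
    have z1 := CarlA_deriv_zero h0
    have z2 := CarlA_deriv_zero z1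
    have z3 := CarlA_deriv_zero z2
    obtain ⟨o1, o2⟩ := CarlA_off fun h => hS (s1 h)
    obtain ⟨o3, o4⟩ := CarlA_off fun h => hS (s2 h)
    obtain ⟨o5, o6⟩ := CarlA_off fun h => hS (s3 h)
    simp only [dv, o2, o3, o4, o5, o6, Base.CarlA_F, Base.CarlA_E, a4, bet1, h0 _ hl, z1 _ hl,
      z2 _ hl, z3 _ hl]
    simp

/-- Let `k = m - 2`, `ϱ = vr`, `β = bet1 k α`, `r = √r2`. Add `inner_Y` for `V = α (lg) • X0`
(`DV = α DX0 + α' X0 ⊗ ∇lg`, so `dv V = m α + α' ϱ + O (r α)` and the trace is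
`α d + α' Nr + O (r α d)`), `outer` for `g = - (α' ϱ + k α)` (`Dg p = 2 β ϱ pt + O (α' √(h d))` by
`norm_p_le`), and `outer2` for `V₂ = β • (ϱ / r2) • X0`
(`dv V₂ = (β' + k β) ϱ² / r2 + O (β / r)`). -/
theorem Base.carl_id (m : ℕ) (c : ℝ) : ∃ C : ℝ, 1 ≤ C ∧ ∀ {Ω : Type} [MeasurableSpace Ω]
    (B : Base m c Ω) (Q : ℕ) (α : ℝ → ℝ) (a b : ℝ), ContDiff ℝ 3 α → (∀ τ, τ ∉ Icc a b → α τ = 0) →
    Real.exp b < B.R →
    Integrable (fun y => -2 * deriv α (B.lg (B.ζ y)) * B.Nr y +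
        4 * bet1 (m - 2) α (B.lg (B.ζ y)) * B.vr (B.ζ y) * B.pt y +
        (deriv (bet1 (m - 2) α) (B.lg (B.ζ y)) + (m - 2) * bet1 (m - 2) α (B.lg (B.ζ y))) *
          B.vr (B.ζ y) ^ 2 * B.h y / B.r2 (B.ζ y)) B.μ ∧
    |(∫ y, (-2 * deriv α (B.lg (B.ζ y)) * B.Nr y +
        4 * bet1 (m - 2) α (B.lg (B.ζ y)) * B.vr (B.ζ y) * B.pt y +
        (deriv (bet1 (m - 2) α) (B.lg (B.ζ y)) + (m - 2) * bet1 (m - 2) α (B.lg (B.ζ y))) *
          B.vr (B.ζ y) ^ 2 * B.h y / B.r2 (B.ζ y)) ∂B.μ) -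
      B.Y Q (dv fun ξ => α (B.lg ξ) • B.X0 ξ)| ≤
    C * ∫ y, ((|α (B.lg (B.ζ y))| + |deriv α (B.lg (B.ζ y))|) *
          (B.T * B.d y + B.h y + √(B.h y * B.d y)) +
        √(B.r2 (B.ζ y)) * |α (B.lg (B.ζ y))| * B.d y +
        (|deriv α (B.lg (B.ζ y))| + |deriv (deriv α) (B.lg (B.ζ y))|) * B.h y / √(B.r2 (B.ζ y)) +
        (|deriv α (B.lg (B.ζ y))| + |deriv (deriv α) (B.lg (B.ζ y))| +
          |deriv (deriv (deriv α)) (B.lg (B.ζ y))|) * (B.T + B.d y) * B.h y / B.r2 (B.ζ y)) ∂B.μ := by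
  refine ⟨max 1 ((4 * c + 1) * (400 * ((m : ℝ) + 2) ^ 2 * c ^ 2)), le_max_left _ _, ?_⟩
  intro Ω _ B Q α a b hα h0 hb
  obtain ⟨iF, iE⟩ := B.CarlA_intFE hα h0 hb
  obtain ⟨⟨t1, -⟩, ⟨t2, -⟩, t3, -⟩ := B.CarlA_tests hα h0 hb
  refine ⟨iF, ?_⟩
  have hT := B.T_pos.le
  have c1 : ContDiff ℝ 1 fun ξ => α (B.lg ξ) • B.X0 ξ := by exact_mod_cast t1.smooth
  have c2 : ContDiff ℝ 1 (B.CarlA_g α) := by exact_mod_cast t2.smooth
  have c3 : ContDiff ℝ 1 (B.CarlA_U α) := by exact_mod_cast t3.smooth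
  have cg := B.cgg.continuous
  have qd : Continuous fun q : E m × ℝ × ℝ × E m × (E m →L[ℝ] E m) => q.2.1 := continuous_snd.fst
  have qh : Continuous fun q : E m × ℝ × ℝ × E m × (E m →L[ℝ] E m) => q.2.2.1 :=
    continuous_snd.snd.fst
  have qp : Continuous fun q : E m × ℝ × ℝ × E m × (E m →L[ℝ] E m) => q.2.2.2.1 :=
    continuous_snd.snd.snd.fst
  have i1 := B.CarlA_int ((qd.mul ((continuous_dv c1).comp continuous_fst)).sub
    ((continuous_const (y := (2 : ℝ))).mul (continuous_finsetSum Finset.univ fun i _ =>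
      (continuous_const (y := (ev i : E m))).inner (𝕜 := ℝ)
        (((c1.continuous_fderiv one_ne_zero).comp continuous_fst).clm_apply
          (continuous_snd.snd.snd.snd.clm_apply ((cg.comp continuous_fst).clm_apply
            (continuous_const (y := (ev i : E m)))))))))
  have i2 := B.CarlA_int (((c2.continuous.comp continuous_fst).mul qd).add
    (((c2.continuous_fderiv one_ne_zero).comp continuous_fst).clm_apply qp))
  have i3 := B.CarlA_int (((continuous_const (y := (2 : ℝ))).mul (qp.inner (𝕜 := ℝ)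
    ((cg.comp continuous_fst).clm_apply (c3.continuous.comp continuous_fst)))).add
    (qh.mul ((continuous_dv c3).comp continuous_fst)))
  have key := CarlA_comb (zero_le_one.trans B.c_ge) i1 i2 i3 iF iE (B.inner_Y Q t1) (B.outer _ t2)
    (B.outer2 _ t3) ?_ (B.CarlA_pt hα h0 hb)
  · refine key.trans (mul_le_mul_of_nonneg_right (le_max_right _ _) (integral_nonneg_of_ae ?_))
    filter_upwards [B.ae] with y hy
    obtain ⟨-, hd, -, hh, -⟩ := hy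
    have r0 := (B.CarlA_r (B.ζ y)).1
    unfold Base.CarlA_E
    positivity
  · filter_upwards [B.ae] with y hy
    obtain ⟨-, hd, -, hh, -⟩ := hy
    exact ⟨by positivity, by positivity, by positivity⟩

/-- the weight of the defect -/
theorem Base.dv_rad (m : ℕ) (c : ℝ) : ∃ C : ℝ, 1 ≤ C ∧ ∀ {Ω : Type} [MeasurableSpace Ω]
    (B : Base m c Ω) (α : ℝ → ℝ) (a b : ℝ), ContDiff ℝ 3 α → (∀ τ, τ ∉ Icc a b → α τ = 0) →
    Real.exp b < B.R → ContDiff ℝ 1 (dv fun ξ => α (B.lg ξ) • B.X0 ξ) ∧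
    tsupport (dv fun ξ => α (B.lg ξ) • B.X0 ξ) ⊆ {ξ | ξ ≠ B.ξ₀ ∧ B.lg ξ ∈ Icc a b} ∧
    ∀ ξ, ξ ≠ B.ξ₀ → √(B.r2 ξ) ≤ 1 →
      |dv (fun ξ => α (B.lg ξ) • B.X0 ξ) ξ - (m * α (B.lg ξ) + deriv α (B.lg ξ))| ≤
        C * √(B.r2 ξ) * (|α (B.lg ξ)| + |deriv α (B.lg ξ)|) ∧
      ‖fderiv ℝ (dv fun ξ => α (B.lg ξ) • B.X0 ξ) ξ‖ ≤
        C * (|α (B.lg ξ)| + |deriv α (B.lg ξ)| + |deriv (deriv α) (B.lg ξ)|) / √(B.r2 ξ) := by
  refine ⟨max 1 (32 * (m + 1) * c), le_max_left _ _, ?_⟩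
  intro Ω _ B α a b hα h0 hb
  obtain ⟨a0, a1, -⟩ := CarlA_alpha hα 0
  have z1 := CarlA_deriv_zero h0
  have hc := B.c_ge
  have hm : (0 : ℝ) ≤ m := Nat.cast_nonneg m
  have c1 := (CarlA_dv_calc B.cX0).1
  have d0 := a0.differentiable one_ne_zero
  have d1 := a1.differentiable one_ne_zero
  have e : (dv fun ξ => α (B.lg ξ) • B.X0 ξ) =
      fun ξ => α (B.lg ξ) • dv B.X0 ξ + deriv α (B.lg ξ) • B.vr ξ := by
    funext ξ
    rcases eq_or_ne ξ B.ξ₀ with rfl | h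
    · have hl := (B.CarlA_shell (a := a) hb).2.2.1
      have k := (CarlA_off fun h => (B.CarlA_supp h0 hb B.X0 h).1 rfl).2
      simp only [dv, k, h0 _ hl, z1 _ hl]
      simp
    · exact B.CarlA_dv_prod h d0 (B.cX0.differentiable (by norm_num) ξ)
  obtain ⟨t1, s1⟩ := B.test_rad a0 h0 hb fun ξ _ => c1.contDiffAt
  obtain ⟨t2, s2⟩ := B.test_rad a1 z1 hb fun ξ h => (B.lg_calc ξ h).2.2.2.1
  have c2 : ContDiff ℝ 1 fun ξ => α (B.lg ξ) • dv B.X0 ξ := by exact_mod_cast t1.smooth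
  have c3 : ContDiff ℝ 1 fun ξ => deriv α (B.lg ξ) • B.vr ξ := by exact_mod_cast t2.smooth
  rw [e]
  refine ⟨c2.add c3, (tsupport_add _ _).trans (union_subset s1 s2), fun ξ h h1 => ?_⟩
  obtain ⟨l1, -, -, l4, -, -, l7⟩ := B.lg_calc ξ h
  obtain ⟨l7, l8⟩ := l7 h1
  obtain ⟨-, x2, x3, x4⟩ := B.CarlA_X0 h1
  have hr : 0 < √(B.r2 ξ) := Real.sqrt_pos.2 l1
  have hC := le_max_right 1 (32 * (m + 1) * c)
  generalize max 1 (32 * (m + 1) * c) = C at hC ⊢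
  have k0 : 0 ≤ m * c := by positivity
  have b0 := abs_nonneg (α (B.lg ξ))
  have b1 := abs_nonneg (deriv α (B.lg ξ))
  have b2 := abs_nonneg (deriv (deriv α) (B.lg ξ))
  constructor
  · have e1 : α (B.lg ξ) • dv B.X0 ξ + deriv α (B.lg ξ) • B.vr ξ -
        (m * α (B.lg ξ) + deriv α (B.lg ξ)) =
        α (B.lg ξ) * (dv B.X0 ξ - m) + deriv α (B.lg ξ) * (B.vr ξ - 1) := by
      simp only [smul_eq_mul]
      ring
    rw [e1]
    refine (abs_add_le _ _).trans ?_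
    rw [abs_mul, abs_mul]
    calc _ ≤ |α (B.lg ξ)| * (C * √(B.r2 ξ)) + |deriv α (B.lg ξ)| * (C * √(B.r2 ξ)) :=
          add_le_add (mul_le_mul_of_nonneg_left (x3.trans (by
            rw [← mul_assoc]
            exact mul_le_mul_of_nonneg_right (by linarith) hr.le)) b0)
            (mul_le_mul_of_nonneg_left (l7.trans
              (mul_le_mul_of_nonneg_right (by linarith) hr.le)) b1)
      _ = _ := by ring
  · rw [fderiv_fun_add (c2.differentiable one_ne_zero ξ) (c3.differentiable one_ne_zero ξ)]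
    have p1 := (B.CarlA_prod h d0 (c1.differentiable one_ne_zero ξ)).2
    have p2 := (B.CarlA_prod h d1 (l4.differentiableAt one_ne_zero)).2
    have k1 : 1 ≤ 1 / √(B.r2 ξ) := one_le_one_div hr h1
    have k2 : ‖dv B.X0 ξ‖ ≤ m * (2 * c) := (abs_dv_le _ _).trans (by gcongr)
    have k3 : ‖B.vr ξ‖ ≤ 8 := B.CarlA_vr ξ
    have k4 := x4.trans (le_mul_of_one_le_right k0 k1)
    have k5 := l8.trans (le_mul_of_one_le_right (by linarith) k1)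
    have q0 : 0 ≤ |α (B.lg ξ)| / √(B.r2 ξ) := by positivity
    have q1 : 0 ≤ |deriv α (B.lg ξ)| / √(B.r2 ξ) := by positivity
    have q2 : 0 ≤ |deriv (deriv α) (B.lg ξ)| / √(B.r2 ξ) := by positivity
    calc _ ≤ |α (B.lg ξ)| * (m * c * (1 / √(B.r2 ξ))) +
          |deriv α (B.lg ξ)| * (4 / √(B.r2 ξ)) * (m * (2 * c)) +
          (|deriv α (B.lg ξ)| * (9 * c * (1 / √(B.r2 ξ))) +
            |deriv (deriv α) (B.lg ξ)| * (4 / √(B.r2 ξ)) * 8) :=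
          (norm_add_le _ _).trans (add_le_add (p1.trans (by gcongr)) (p2.trans (by gcongr)))
      _ = m * c * (|α (B.lg ξ)| / √(B.r2 ξ)) + (8 * (m * c) + 9 * c) *
          (|deriv α (B.lg ξ)| / √(B.r2 ξ)) + 32 * (|deriv (deriv α) (B.lg ξ)| / √(B.r2 ξ)) := by
        ring
      _ ≤ C * (|α (B.lg ξ)| / √(B.r2 ξ)) + C * (|deriv α (B.lg ξ)| / √(B.r2 ξ)) +
          C * (|deriv (deriv α) (B.lg ξ)| / √(B.r2 ξ)) :=
        add_le_add_three (mul_le_mul_of_nonneg_right (by linarith) q0)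
          (mul_le_mul_of_nonneg_right (by linarith) q1) (mul_le_mul_of_nonneg_right (by linarith) q2)
      _ = _ := by ring

end Pool.Agent.MP_f6c0e6_an.Gen

end

section

/-! The Carleman weights. -/

set_option autoImplicit false

open MeasureTheory Filter Topology Set Metric
open scoped ENNReal RealInnerProductSpace

namespace Pool.Agent.MP_f6c0e6_an.Gen

variable {m N : ℕ}

/-- the corrected logarithm -/
noncomputable def tl (C t : ℝ) : ℝ := Real.log t - C * t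

/-- the Carleman exponent -/
noncomputable def om (C₁ κ lam o τ : ℝ) : ℝ :=
  (2 - 2 * κ) * τ + 2 * C₁ * κ * Real.exp τ + lam * (τ - o) ^ 2

theorem om_eq (C₁ κ lam o : ℝ) {t : ℝ} (ht : 0 < t) :
    Real.exp (om C₁ κ lam o (Real.log t)) / t ^ 2 =
      Real.exp (-2 * κ * tl C₁ t + lam * (Real.log t - o) ^ 2) := by
  have h2 : t ^ 2 = Real.exp (2 * Real.log t) := by
    rw [show (2 : ℝ) * Real.log t = Real.log t + Real.log t by ring, Real.exp_add,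
      Real.exp_log ht, sq]
  rw [h2, ← Real.exp_sub]
  congr 1
  unfold om tl
  rw [Real.exp_log ht]
  ring

/-- three successive derivatives -/
def CarlB_Ch (f0 f1 f2 f3 : ℝ → ℝ) : Prop :=
  (∀ τ, HasDerivAt f0 (f1 τ) τ) ∧ (∀ τ, HasDerivAt f1 (f2 τ) τ) ∧ ∀ τ, HasDerivAt f2 (f3 τ) τ

lemma CarlB_Ch_mul {f0 f1 f2 f3 g0 g1 g2 g3 : ℝ → ℝ} (hf : CarlB_Ch f0 f1 f2 f3)
    (hg : CarlB_Ch g0 g1 g2 g3) :
    CarlB_Ch (fun τ => f0 τ * g0 τ) (fun τ => f1 τ * g0 τ + f0 τ * g1 τ)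
      (fun τ => f2 τ * g0 τ + 2 * (f1 τ * g1 τ) + f0 τ * g2 τ)
      (fun τ => f3 τ * g0 τ + 3 * (f2 τ * g1 τ) + 3 * (f1 τ * g2 τ) + f0 τ * g3 τ) := by
  obtain ⟨a0, a1, a2⟩ := hf
  obtain ⟨b0, b1, b2⟩ := hg
  refine ⟨fun τ => (a0 τ).fun_mul (b0 τ), fun τ => ?_, fun τ => ?_⟩
  · refine (((a1 τ).fun_mul (b0 τ)).fun_add ((a0 τ).fun_mul (b1 τ))).congr_deriv ?_
    ring
  · refine ((((a2 τ).fun_mul (b0 τ)).fun_add (((a1 τ).fun_mul (b1 τ)).const_mul 2)).fun_add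
      ((a0 τ).fun_mul (b2 τ))).congr_deriv ?_
    ring

lemma CarlB_abs_mul {a b A B : ℝ} (ha : |a| ≤ A) (hb : |b| ≤ B) : |a * b| ≤ A * B := by
  rw [abs_mul]
  exact mul_le_mul ha hb (abs_nonneg _) ((abs_nonneg _).trans ha)

lemma CarlB_bd_mul {a0 a1 a2 a3 b0 b1 b2 b3 A B K : ℝ} (hK : 0 ≤ K) (h0 : |a0| ≤ A)
    (h1 : |a1| ≤ A * K) (h2 : |a2| ≤ A * K ^ 2) (h3 : |a3| ≤ A * K ^ 3) (g0 : |b0| ≤ B)
    (g1 : |b1| ≤ B * K) (g2 : |b2| ≤ B * K ^ 2) (g3 : |b3| ≤ B * K ^ 3) :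
    |a1 * b0 + a0 * b1| ≤ 8 * A * B * K ∧
      |a2 * b0 + 2 * (a1 * b1) + a0 * b2| ≤ 8 * A * B * K ^ 2 ∧
      |a3 * b0 + 3 * (a2 * b1) + 3 * (a1 * b2) + a0 * b3| ≤ 8 * A * B * K ^ 3 := by
  have hA : 0 ≤ A := (abs_nonneg _).trans h0
  have hB : 0 ≤ B := (abs_nonneg _).trans g0
  have p1 : 0 ≤ A * B * K := by positivity
  have p2 : 0 ≤ A * B * K ^ 2 := by positivity
  obtain ⟨c1, c2⟩ := abs_le.1 (CarlB_abs_mul h1 g0)
  obtain ⟨c3, c4⟩ := abs_le.1 (CarlB_abs_mul h0 g1)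
  obtain ⟨d1, d2⟩ := abs_le.1 (CarlB_abs_mul h2 g0)
  obtain ⟨d3, d4⟩ := abs_le.1 (CarlB_abs_mul h1 g1)
  obtain ⟨d5, d6⟩ := abs_le.1 (CarlB_abs_mul h0 g2)
  obtain ⟨e1, e2⟩ := abs_le.1 (CarlB_abs_mul h3 g0)
  obtain ⟨e3, e4⟩ := abs_le.1 (CarlB_abs_mul h2 g1)
  obtain ⟨e5, e6⟩ := abs_le.1 (CarlB_abs_mul h1 g2)
  obtain ⟨e7, e8⟩ := abs_le.1 (CarlB_abs_mul h0 g3)
  refine ⟨abs_le.2 ⟨?_, ?_⟩, abs_le.2 ⟨?_, ?_⟩, abs_le.2 ⟨?_, ?_⟩⟩
  · linarith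
  · linarith
  · linarith
  · linarith only [p2, d2, d4, d6]
  · linarith only [e1, e3, e5, e7]
  · linarith

lemma CarlB_zero {f g : ℝ → ℝ} {u w c : ℝ} (h : ∀ τ, HasDerivAt f (g τ) τ)
    (hc : ∀ τ, u < τ → τ < w → f τ = c) (τ : ℝ) (h1 : u < τ) (h2 : τ < w) : g τ = 0 := by
  have : f =ᶠ[𝓝 τ] fun _ => c := mem_of_superset (Ioo_mem_nhds h1 h2) fun r hr => hc r hr.1 hr.2
  rw [← (h τ).deriv, this.deriv_eq, deriv_const]

lemma CarlB_step : ∃ (S : ℝ) (s1 s2 s3 : ℝ → ℝ), 1 ≤ S ∧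
    CarlB_Ch Real.smoothTransition s1 s2 s3 ∧ ∀ t, |s1 t| ≤ S ∧ |s2 t| ≤ S ∧ |s3 t| ≤ S := by
  have h4 : ContDiff ℝ (3 + 1) Real.smoothTransition := Real.smoothTransition.contDiff
  have hc : HasCompactSupport (deriv Real.smoothTransition) := by
    refine HasCompactSupport.intro (isCompact_Icc (a := (0 : ℝ)) (b := 1)) fun t ht => ?_
    rw [mem_Icc, not_and_or, not_le, not_le] at ht
    rcases ht with ht | ht
    · have : Real.smoothTransition =ᶠ[𝓝 t] fun _ => 0 :=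
        mem_of_superset (Iio_mem_nhds ht) fun r hr =>
          Real.smoothTransition.zero_of_nonpos (le_of_lt hr)
      rw [this.deriv_eq, deriv_const]
    · have : Real.smoothTransition =ᶠ[𝓝 t] fun _ => 1 :=
        mem_of_superset (Ioi_mem_nhds ht) fun r hr =>
          Real.smoothTransition.one_of_one_le (le_of_lt hr)
      rw [this.deriv_eq, deriv_const]
  have h3 : ContDiff ℝ (2 + 1) (deriv Real.smoothTransition) :=
    h4.deriv'.of_le (by norm_num)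
  have h2 : ContDiff ℝ (1 + 1) (deriv (deriv Real.smoothTransition)) :=
    h3.deriv'.of_le (by norm_num)
  have h1 : ContDiff ℝ 1 (deriv (deriv (deriv Real.smoothTransition))) := h2.deriv'
  obtain ⟨C1, hC1⟩ := h3.continuous.bounded_above_of_compact_support hc
  obtain ⟨C2, hC2⟩ := h2.continuous.bounded_above_of_compact_support hc.deriv
  obtain ⟨C3, hC3⟩ := h1.continuous.bounded_above_of_compact_support hc.deriv.deriv
  refine ⟨max 1 (max C1 (max C2 C3)), _, _, _, le_max_left _ _,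
    ⟨fun τ => (h4.differentiable (by norm_num) τ).hasDerivAt,
      fun τ => (h3.differentiable (by norm_num) τ).hasDerivAt,
      fun τ => (h2.differentiable (by norm_num) τ).hasDerivAt⟩, fun t => ⟨?_, ?_, ?_⟩⟩
  · exact (hC1 t).trans ((le_max_left _ _).trans (le_max_right _ _))
  · exact (hC2 t).trans (((le_max_left _ _).trans (le_max_right _ _)).trans (le_max_right _ _))
  · exact (hC3 t).trans (((le_max_right _ _).trans (le_max_right _ _)).trans (le_max_right _ _))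

lemma CarlB_Ch_lin {f0 f1 f2 f3 : ℝ → ℝ} (hf : CarlB_Ch f0 f1 f2 f3) (c a : ℝ) :
    CarlB_Ch (fun τ => f0 (c * (τ - a))) (fun τ => f1 (c * (τ - a)) * c)
      (fun τ => f2 (c * (τ - a)) * c ^ 2) (fun τ => f3 (c * (τ - a)) * c ^ 3) := by
  obtain ⟨a0, a1, a2⟩ := hf
  have hl : ∀ τ : ℝ, HasDerivAt (fun τ => c * (τ - a)) c τ := fun τ => by
    simpa using ((hasDerivAt_id τ).sub_const a).const_mul c
  refine ⟨fun τ => (a0 _).comp τ (hl τ), fun τ => ?_, fun τ => ?_⟩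
  · refine (((a1 _).comp τ (hl τ)).mul_const c).congr_deriv ?_
    ring
  · refine (((a2 _).comp τ (hl τ)).mul_const (c ^ 2)).congr_deriv ?_
    ring

/-- cut-off functions with three bounded derivatives -/
lemma CarlB_cut : ∃ B : ℝ, 1 ≤ B ∧ ∀ K a b : ℝ, 0 < K → ∃ f0 f1 f2 f3 : ℝ → ℝ,
    ContDiff ℝ 3 f0 ∧ CarlB_Ch f0 f1 f2 f3 ∧ (∀ τ, 0 ≤ f0 τ ∧ f0 τ ≤ 1) ∧
      (∀ τ, |f1 τ| ≤ B * K ∧ |f2 τ| ≤ B * K ^ 2 ∧ |f3 τ| ≤ B * K ^ 3) ∧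
      (∀ τ, τ ≤ a ∨ b ≤ τ → f0 τ = 0) ∧
      ∀ τ, a + 1 / K < τ → τ < b - 1 / K → f0 τ = 1 ∧ f1 τ = 0 ∧ f2 τ = 0 ∧ f3 τ = 0 := by
  obtain ⟨S, s1, s2, s3, hS, hch, hb⟩ := CarlB_step
  refine ⟨8 * S * S, by nlinarith only [hS], fun K a b hK => ?_⟩
  have hm := CarlB_Ch_mul (CarlB_Ch_lin hch K a) (CarlB_Ch_lin hch (-K) b)
  have hs : ContDiff ℝ 3 Real.smoothTransition := Real.smoothTransition.contDiff
  have s0 : ∀ t, |Real.smoothTransition t| ≤ S := fun t => by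
    rw [abs_of_nonneg (Real.smoothTransition.nonneg t)]
    exact (Real.smoothTransition.le_one t).trans hS
  have q1 : |K| ≤ K := (abs_of_pos hK).le
  have q2 : |K ^ 2| ≤ K ^ 2 := (abs_of_pos (by positivity)).le
  have q3 : |K ^ 3| ≤ K ^ 3 := (abs_of_pos (by positivity)).le
  have r1 : |-K| ≤ K := by rwa [abs_neg]
  have r2 : |(-K) ^ 2| ≤ K ^ 2 := by rwa [neg_sq]
  have r3 : |(-K) ^ 3| ≤ K ^ 3 := by rwa [show (-K) ^ 3 = -(K ^ 3) by ring, abs_neg]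
  have one : ∀ τ, a + 1 / K < τ → τ < b - 1 / K →
      Real.smoothTransition (K * (τ - a)) * Real.smoothTransition (-K * (τ - b)) = 1 := by
    intro τ h1 h2
    have t1 : 1 ≤ K * (τ - a) := by
      have := mul_le_mul_of_nonneg_left (by linarith : 1 / K ≤ τ - a) hK.le
      rwa [mul_one_div_cancel hK.ne'] at this
    have t2 : 1 ≤ -K * (τ - b) := by
      have := mul_le_mul_of_nonneg_left (by linarith : 1 / K ≤ b - τ) hK.le
      rw [mul_one_div_cancel hK.ne'] at this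
      linarith
    rw [Real.smoothTransition.one_of_one_le t1, Real.smoothTransition.one_of_one_le t2, mul_one]
  have z1 := CarlB_zero hm.1 one
  have z2 := CarlB_zero hm.2.1 z1
  have z3 := CarlB_zero hm.2.2 z2
  refine ⟨_, _, _, _, ?_, hm, fun τ => ?_, fun τ => ?_, fun τ hτ => ?_,
    fun τ h1 h2 => ⟨one τ h1 h2, z1 τ h1 h2, z2 τ h1 h2, z3 τ h1 h2⟩⟩
  · fun_prop
  · exact ⟨mul_nonneg (Real.smoothTransition.nonneg _) (Real.smoothTransition.nonneg _),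
      mul_le_one₀ (Real.smoothTransition.le_one _) (Real.smoothTransition.nonneg _)
        (Real.smoothTransition.le_one _)⟩
  · exact CarlB_bd_mul hK.le (s0 _) (CarlB_abs_mul (hb _).1 q1) (CarlB_abs_mul (hb _).2.1 q2)
      (CarlB_abs_mul (hb _).2.2 q3) (s0 _) (CarlB_abs_mul (hb _).1 r1)
      (CarlB_abs_mul (hb _).2.1 r2) (CarlB_abs_mul (hb _).2.2 r3)
  · rcases hτ with hτ | hτ
    · have : K * (τ - a) ≤ 0 := mul_nonpos_of_nonneg_of_nonpos hK.le (by linarith)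
      simp only [Real.smoothTransition.zero_of_nonpos this, zero_mul]
    · have : -K * (τ - b) ≤ 0 := mul_nonpos_of_nonpos_of_nonneg (by linarith) (by linarith)
      simp only [Real.smoothTransition.zero_of_nonpos this, mul_zero]

/-- the derivative of `om` -/
noncomputable def CarlB_om1 (C₁ κ lam o τ : ℝ) : ℝ :=
  2 - 2 * κ + 2 * C₁ * κ * Real.exp τ + 2 * lam * (τ - o)

lemma CarlB_om_Ch (C₁ κ lam o : ℝ) : CarlB_Ch (om C₁ κ lam o) (CarlB_om1 C₁ κ lam o)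
    (fun τ => 2 * C₁ * κ * Real.exp τ + 2 * lam) (fun τ => 2 * C₁ * κ * Real.exp τ) := by
  have he : ∀ τ, HasDerivAt (fun τ => 2 * C₁ * κ * Real.exp τ) (2 * C₁ * κ * Real.exp τ) τ :=
    fun τ => (Real.hasDerivAt_exp τ).const_mul _
  refine ⟨fun τ => ?_, fun τ => ?_, fun τ => (he τ).add_const _⟩
  · unfold om CarlB_om1
    refine (((((hasDerivAt_id' τ).const_mul (2 - 2 * κ))).fun_add (he τ)).fun_add
      ((((hasDerivAt_id' τ).sub_const o).fun_pow 2).const_mul lam)).congr_deriv ?_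
    norm_num
    ring
  · unfold CarlB_om1
    refine (((he τ).const_add (2 - 2 * κ)).fun_add
      (((hasDerivAt_id' τ).sub_const o).const_mul (2 * lam))).congr_deriv ?_
    ring

lemma CarlB_exp_Ch {w0 w1 w2 w3 : ℝ → ℝ} (h : CarlB_Ch w0 w1 w2 w3) :
    CarlB_Ch (fun τ => Real.exp (w0 τ)) (fun τ => Real.exp (w0 τ) * w1 τ)
      (fun τ => Real.exp (w0 τ) * (w1 τ ^ 2 + w2 τ))
      (fun τ => Real.exp (w0 τ) * (w1 τ ^ 3 + 3 * (w1 τ * w2 τ) + w3 τ)) := by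
  obtain ⟨a0, a1, a2⟩ := h
  refine ⟨fun τ => (a0 τ).exp, fun τ => ?_, fun τ => ?_⟩
  · refine ((a0 τ).exp.fun_mul (a1 τ)).congr_deriv ?_
    ring
  · refine ((a0 τ).exp.fun_mul (((a1 τ).fun_pow 2).fun_add (a2 τ))).congr_deriv ?_
    norm_num
    ring

lemma CarlB_bw {C₁ κ lam i o τ : ℝ} (hC₁ : 0 ≤ C₁) (hκ : 10 ≤ κ) (hl : 0 ≤ lam)
    (he : C₁ * Real.exp o ≤ 1 / 4) (hlam : 2 * lam * (o - i + 1) ≤ κ) (hio : i ≤ o)
    (h₁ : i - 1 ≤ τ) (h₂ : τ ≤ o) :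
    -3 * κ ≤ CarlB_om1 C₁ κ lam o τ ∧ CarlB_om1 C₁ κ lam o τ ≤ -κ ∧
      0 ≤ 2 * C₁ * κ * Real.exp τ ∧ 2 * C₁ * κ * Real.exp τ ≤ κ / 2 ∧ 2 * lam ≤ κ := by
  have hk0 : 0 < κ := by linarith
  have e1 : C₁ * Real.exp τ ≤ 1 / 4 :=
    le_trans (mul_le_mul_of_nonneg_left (Real.exp_le_exp.mpr h₂) hC₁) he
  have e2 : 2 * C₁ * κ * Real.exp τ ≤ κ / 2 := by
    have := mul_le_mul_of_nonneg_right e1 hk0.le
    linarith only [this]
  have e3 : 0 ≤ 2 * C₁ * κ * Real.exp τ := by positivity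
  have e4 : 0 ≤ lam * (o - τ) := mul_nonneg hl (by linarith only [h₂])
  have e5 : 0 ≤ lam * (τ - (i - 1)) := mul_nonneg hl (by linarith only [h₁])
  have e6 : 0 ≤ lam * (o - i) := mul_nonneg hl (by linarith only [hio])
  unfold CarlB_om1
  refine ⟨by linarith only [hlam, e3, e5], by linarith only [hκ, e2, e4], e3, e2, by linarith only [hlam, e6]⟩

lemma CarlB_bE {p E l κ X : ℝ} (hκ : 10 ≤ κ) (hX : 0 < X) (h1 : -3 * κ ≤ p) (h2 : p ≤ -κ)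
    (h3 : 0 ≤ E) (h4 : E ≤ κ / 2) (h5 : 0 ≤ l) (h6 : 2 * l ≤ κ) :
    |X| ≤ 2 * X ∧ |X * p| ≤ 2 * X * (3 * κ) ∧ |X * (p ^ 2 + (E + 2 * l))| ≤ 2 * X * (3 * κ) ^ 2 ∧
      |X * (p ^ 3 + 3 * (p * (E + 2 * l)) + E)| ≤ 2 * X * (3 * κ) ^ 3 := by
  have hk0 : 0 < κ := by linarith
  have hX' : |X| ≤ X := (abs_of_pos hX).le
  have hp : |p| ≤ 3 * κ := abs_le.2 ⟨by linarith, by linarith⟩
  have k2 : 10 * κ ≤ κ ^ 2 := by nlinarith only [hκ]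
  have k3 : 10 * κ ^ 2 ≤ κ ^ 3 := by nlinarith only [hκ]
  have hq : |E + 2 * l| ≤ 2 * κ := abs_le.2 ⟨by linarith, by linarith⟩
  obtain ⟨a1, a2⟩ := abs_le.1 (CarlB_abs_mul hp hp)
  obtain ⟨a3, a4⟩ := abs_le.1 (CarlB_abs_mul (CarlB_abs_mul hp hp) hp)
  obtain ⟨a5, a6⟩ := abs_le.1 (CarlB_abs_mul hp hq)
  have b2 : |p ^ 2 + (E + 2 * l)| ≤ 2 * (3 * κ) ^ 2 := abs_le.2 ⟨by linarith only [hκ, h3, h5, k2, a1], by linarith only [hκ, h4, h6, k2, a2]⟩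
  have b3 : |p ^ 3 + 3 * (p * (E + 2 * l)) + E| ≤ 2 * (3 * κ) ^ 3 :=
    abs_le.2 ⟨by linarith only [hκ, h3, k2, k3, a3, a5], by linarith only [hκ, h4, k2, k3, a4, a6]⟩
  refine ⟨by linarith, (CarlB_abs_mul hX' hp).trans ?_, (CarlB_abs_mul hX' b2).trans_eq (by ring),
    (CarlB_abs_mul hX' b3).trans_eq (by ring)⟩
  have : 0 ≤ X * (3 * κ) := by positivity
  linarith

lemma CarlB_key {p E l κ X k : ℝ} (hκ : 10 ≤ κ) (hX : 0 < X) (h2 : p ≤ -κ)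
    (h3 : 0 ≤ E) (h4 : E ≤ κ / 2) (h5 : 0 ≤ l) (h6 : 2 * l ≤ κ) :
    (κ * E / 8 + l * κ / 2) * X ≤
      -(X * (p ^ 3 + 3 * (p * (E + 2 * l)) + E) + k * (X * (p ^ 2 + (E + 2 * l)))) / 2 +
        k * (-(X * (p ^ 2 + (E + 2 * l)) + k * (X * p)) / 2) -
        2 * (-(X * (p ^ 2 + (E + 2 * l)) + k * (X * p)) / 2) ^ 2 / (-(X * p)) := by
  have hp : 0 < -p := by linarith
  have hp' : p ≠ 0 := by linarith
  set q := E + 2 * l with hq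
  have e : -(X * (p ^ 3 + 3 * (p * q) + E) + k * (X * (p ^ 2 + q))) / 2 +
        k * (-(X * (p ^ 2 + q) + k * (X * p)) / 2) -
        2 * (-(X * (p ^ 2 + q) + k * (X * p)) / 2) ^ 2 / (-(X * p)) =
      (-p * q - E - q ^ 2 / (-p)) / 2 * X := by
    field_simp
    ring
  rw [e]
  refine mul_le_mul_of_nonneg_right ?_ hX.le
  have q0 : 0 ≤ q := by linarith only [h3, h5]
  have q1 : q ^ 2 / (-p) ≤ 2 * q := by
    rw [div_le_iff₀ hp]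
    nlinarith only [h5, hκ, h2, h3, h4, h6]
  have q2 : κ * q ≤ -p * q := mul_le_mul_of_nonneg_right (by linarith) q0
  have q3 : 10 * E ≤ κ * E := mul_le_mul_of_nonneg_right hκ h3
  have q4 : 10 * l ≤ κ * l := mul_le_mul_of_nonneg_right hκ h5
  have q5 : κ * q = κ * E + 2 * (κ * l) := by rw [hq]; ring
  linarith only [h3, h5, q1, q2, q3, q4]

lemma CarlB_inc {w w1 : ℝ → ℝ} {u o κ : ℝ} (hw : ∀ τ, HasDerivAt w (w1 τ) τ) (hκ : 0 ≤ κ)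
    (hb : ∀ τ, u ≤ τ → τ ≤ o → -3 * κ ≤ w1 τ ∧ w1 τ ≤ -κ) :
    ∀ τ ∈ Icc u o, ∀ τ' ∈ Icc u o, τ ≤ τ' → w τ' ≤ w τ ∧ w τ ≤ w τ' + 3 * κ * (τ' - τ) := by
  intro τ hτ τ' hτ' h
  rcases h.eq_or_lt with rfl | h
  · simp
  obtain ⟨c, hc, e⟩ := exists_hasDerivAt_eq_slope w w1 h
    (fun x _ => (hw x).continuousAt.continuousWithinAt) fun x _ => hw x
  obtain ⟨b1, b2⟩ := hb c (hτ.1.trans hc.1.le) (hc.2.le.trans hτ'.2)
  have hd : 0 < τ' - τ := sub_pos.2 h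
  rw [eq_div_iff hd.ne'] at e
  have m1 := mul_le_mul_of_nonneg_right b1 hd.le
  have m2 := mul_le_mul_of_nonneg_right b2 hd.le
  have m3 := mul_nonneg hκ hd.le
  constructor <;> linarith only [e, m1, m2]

/-- On `[i - 1, o]` the derivative of `φ = om` is between `- 3 κ` and `- κ`, `0 ≤ φ'' ≤ κ² / 2`,
`0 ≤ φ''' = 2 C₁ κ exp τ ≤ κ`. Take `α = χ exp φ` with a smooth `χ` equal to one on
`[i - 5 / (2 κ), o - 5 / (2 κ)]` (`Real.smoothTransition`, whose derivatives are bounded). Where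
`χ = 1`, the right side of the last inequality is
`α / 2 * (φ'' (- φ') - φ''' - φ''² / (- φ'))`. -/
theorem exists_weights : ∃ C : ℝ, 1 ≤ C ∧ ∀ k C₁ κ lam i o : ℝ, 0 ≤ C₁ → 10 ≤ κ → 0 ≤ lam →
    i + 3 / κ ≤ o → C₁ * Real.exp o ≤ 1 / 4 → 2 * lam * (o - i + 1) ≤ κ →
    ∃ α χ v : ℝ → ℝ, ContDiff ℝ 3 α ∧ ContDiff ℝ 1 χ ∧ ContDiff ℝ 1 v ∧
      (∀ τ, τ ∉ Icc (i - 3 / κ) (o - 2 / κ) → α τ = 0) ∧
      (∀ τ, τ ∉ Icc (i - 2 / κ) (o - 3 / κ) → χ τ = 0) ∧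
      (∀ τ ∈ Icc (i - 1 / κ) (o - 4 / κ), χ τ = 1) ∧
      (∀ τ, 0 ≤ χ τ ∧ χ τ ≤ 1 ∧ |deriv χ τ| ≤ C * κ) ∧
      (∀ τ, τ ∉ Icc (i - 4 / κ) (o - 1 / κ) → v τ = 0) ∧
      (∀ τ ∈ Icc (i - 3 / κ) (o - 2 / κ), v τ ^ 2 = Real.exp (τ + om C₁ κ lam o τ)) ∧
      (∀ τ ∈ Icc (i - 1) o, ∀ τ' ∈ Icc (i - 1) o, τ ≤ τ' →
        om C₁ κ lam o τ' ≤ om C₁ κ lam o τ ∧ om C₁ κ lam o τ ≤ om C₁ κ lam o τ' + 3 * κ * (τ' - τ)) ∧
      (∀ τ ∈ Icc (i - 1) o, |α τ| ≤ Real.exp (om C₁ κ lam o τ) ∧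
        |deriv α τ| ≤ C * κ * Real.exp (om C₁ κ lam o τ) ∧
        |deriv (deriv α) τ| ≤ C * κ ^ 2 * Real.exp (om C₁ κ lam o τ) ∧
        |deriv (deriv (deriv α)) τ| ≤ C * κ ^ 3 * Real.exp (om C₁ κ lam o τ) ∧
        v τ ^ 2 ≤ Real.exp (τ + om C₁ κ lam o τ) ∧
        deriv v τ ^ 2 ≤ C * κ ^ 2 * Real.exp (τ + om C₁ κ lam o τ)) ∧
      ∀ τ ∈ Icc (i - 2 / κ) (o - 3 / κ), α τ = Real.exp (om C₁ κ lam o τ) ∧
        -3 * κ * α τ ≤ deriv α τ ∧ deriv α τ ≤ -κ * α τ ∧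
        (C₁ * κ ^ 2 * Real.exp τ / 4 + lam * κ / 2) * α τ ≤
          deriv (bet1 k α) τ + k * bet1 k α τ - 2 * bet1 k α τ ^ 2 / (-deriv α τ) := by
  obtain ⟨B, hB, hcut⟩ := CarlB_cut
  have hB2 : B ≤ B ^ 2 := le_self_pow₀ hB two_ne_zero
  refine ⟨432 * B ^ 2, by linarith, fun k C₁ κ lam i o hC₁ hκ hl hio he hlam => ?_⟩
  have hk0 : 0 < κ := by linarith
  have hK : 0 < 3 * κ := by linarith
  have k0 : 0 < 1 / (3 * κ) := one_div_pos.2 hK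
  have k1 : 1 / κ = 3 * (1 / (3 * κ)) := by field_simp
  have k2 : 2 / κ = 6 * (1 / (3 * κ)) := by field_simp; norm_num
  have k3 : 3 / κ = 9 * (1 / (3 * κ)) := by field_simp; norm_num
  have k4 : 4 / κ = 12 * (1 / (3 * κ)) := by field_simp; norm_num
  have k5 : 1 / (3 * κ) ≤ 1 / 30 := one_div_le_one_div_of_le (by norm_num) (by linarith only [hκ])
  obtain ⟨f0, f1, f2, f3, fs, fc, fb0, fb, fz, fo⟩ := hcut (3 * κ) (i - 3 / κ) (o - 2 / κ) hK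
  obtain ⟨g0, g1, g2, g3, gs, gc, gb0, gb, gz, go⟩ := hcut (3 * κ) (i - 2 / κ) (o - 3 / κ) hK
  obtain ⟨h0, h1, h2, h3, hs, hc, hb0, hb, hz, ho⟩ := hcut (3 * κ) (i - 4 / κ) (o - 1 / κ) hK
  have wc := CarlB_om_Ch C₁ κ lam o
  have ws : ContDiff ℝ 3 (om C₁ κ lam o) := by unfold om; fun_prop
  have bw : ∀ τ, i - 1 ≤ τ → τ ≤ o → _ := fun τ a b =>
    CarlB_bw (τ := τ) hC₁ hκ hl he hlam (by linarith only [hio, k0, k3]) a b
  set w := om C₁ κ lam o with hw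
  set w1 := CarlB_om1 C₁ κ lam o with hw1
  obtain ⟨a1, a2, a3⟩ := CarlB_Ch_mul fc (CarlB_exp_Ch wc)
  have d1 := funext fun τ => (a1 τ).deriv
  have d2 := funext fun τ => (a2 τ).deriv
  have d3 := funext fun τ => (a3 τ).deriv
  have dv : ∀ τ, HasDerivAt (fun τ => h0 τ * Real.exp ((τ + w τ) / 2))
      ((h1 τ + h0 τ * ((1 + w1 τ) / 2)) * Real.exp ((τ + w τ) / 2)) τ := fun τ => by
    refine ((hc.1 τ).fun_mul
      (((hasDerivAt_id' τ).fun_add (wc.1 τ)).div_const 2).exp).congr_deriv ?_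
    ring
  have sq2 : ∀ τ, Real.exp ((τ + w τ) / 2) ^ 2 = Real.exp (τ + w τ) := fun τ => by
    rw [sq, ← Real.exp_add, add_halves]
  have out : ∀ {a b τ : ℝ}, τ ∉ Icc a b → τ ≤ a ∨ b ≤ τ := fun h => by
    rw [mem_Icc, not_and_or, not_le, not_le] at h
    exact h.imp le_of_lt le_of_lt
  refine ⟨fun τ => f0 τ * Real.exp (w τ), g0, fun τ => h0 τ * Real.exp ((τ + w τ) / 2),
    fs.mul ws.exp, gs.of_le (by norm_num),
    (hs.mul ((contDiff_id.add ws).div_const 2).exp).of_le (by norm_num),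
    fun τ hτ => ?_, fun τ hτ => gz τ (out hτ), fun τ hτ => ?_, fun τ => ?_, fun τ hτ => ?_,
    fun τ hτ => ?_, CarlB_inc wc.1 hk0.le fun τ a b => ⟨(bw τ a b).1, (bw τ a b).2.1⟩,
    fun τ hτ => ?_, fun τ hτ => ?_⟩
  · simp only [fz τ (out hτ), zero_mul]
  · exact (go τ (by linarith only [hτ.1, k0, k1, k2]) (by linarith only [hτ.2, k0, k3, k4])).1
  · refine ⟨(gb0 τ).1, (gb0 τ).2, ?_⟩
    rw [(gc.1 τ).deriv]
    refine (gb τ).1.trans ?_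
    have := mul_le_mul_of_nonneg_right hB2 hk0.le
    have : 0 ≤ B ^ 2 * κ := by positivity
    linarith only [‹B * κ ≤ B ^ 2 * κ›, this]
  · simp only [hz τ (out hτ), zero_mul]
  · have := (ho τ (by linarith only [hτ.1, k0, k3, k4]) (by linarith only [hτ.2, k0, k1, k2])).1
    simp only [this, one_mul, sq2]
  · obtain ⟨b1, b2, b3, b4, b5⟩ := bw τ hτ.1 hτ.2
    have hE := Real.exp_pos (w τ)
    obtain ⟨e0, e1, e2, e3⟩ := CarlB_bE hκ hE b1 b2 b3 b4 hl b5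
    have f00 : |f0 τ| ≤ B := by rw [abs_of_nonneg (fb0 τ).1]; exact (fb0 τ).2.trans hB
    obtain ⟨m1, m2, m3⟩ :=
      CarlB_bd_mul hK.le f00 (fb τ).1 (fb τ).2.1 (fb τ).2.2 e0 e1 e2 e3
    have n1 : 0 ≤ κ * Real.exp (w τ) := by positivity
    have n2 : 0 ≤ κ ^ 2 * Real.exp (w τ) := by positivity
    have n3 : 0 ≤ κ ^ 3 * Real.exp (w τ) := by positivity
    have hB0 : 0 ≤ B := by linarith only [hB]
    refine ⟨?_, ?_, ?_, ?_, ?_, ?_⟩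
    · rw [abs_mul, abs_of_pos hE, abs_of_nonneg (fb0 τ).1]
      exact mul_le_of_le_one_left hE.le (fb0 τ).2
    · rw [d1]
      refine m1.trans ?_
      linarith only [mul_le_mul_of_nonneg_right hB2 n1, mul_nonneg hB0 n1]
    · rw [d1, d2]
      refine m2.trans ?_
      linarith only [mul_le_mul_of_nonneg_right hB2 n2, mul_nonneg hB0 n2]
    · rw [d1, d2, d3]
      refine m3.trans ?_
      linarith only [mul_le_mul_of_nonneg_right hB2 n3]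
    · rw [mul_pow, sq2]
      exact mul_le_of_le_one_left (Real.exp_pos _).le (pow_le_one₀ (hb0 τ).1 (hb0 τ).2)
    · rw [(dv τ).deriv, mul_pow, sq2]
      refine mul_le_mul_of_nonneg_right ?_ (Real.exp_pos _).le
      have s0 : |h0 τ| ≤ 1 := by rw [abs_of_nonneg (hb0 τ).1]; exact (hb0 τ).2
      have s1 : |(1 + w1 τ) / 2| ≤ 2 * κ :=
        abs_le.2 ⟨by linarith only [b1, hκ], by linarith only [b2, hκ]⟩
      have s2 : |h1 τ + h0 τ * ((1 + w1 τ) / 2)| ≤ 5 * B * κ := by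
        refine (abs_add_le _ _).trans ?_
        linarith only [(hb τ).1, CarlB_abs_mul s0 s1, mul_le_mul_of_nonneg_right hB hk0.le]
      rw [← sq_abs]
      refine (pow_le_pow_left₀ (abs_nonneg _) s2 2).trans ?_
      have : 0 ≤ B ^ 2 * κ ^ 2 := by positivity
      linarith only [this]
  · obtain ⟨b1, b2, b3, b4, b5⟩ := bw τ (by linarith only [hτ.1, k2, k5])
      (by linarith only [hτ.2, k0, k3])
    obtain ⟨o0, o1, o2, o3⟩ := fo τ (by linarith only [hτ.1, k0, k2, k3])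
      (by linarith only [hτ.2, k0, k2, k3])
    have hE := Real.exp_pos (w τ)
    have db := ((a3 τ).fun_add ((a2 τ).const_mul k)).fun_neg.div_const 2
    unfold bet1
    rw [d1, d2, db.deriv]
    simp only [o0, o1, o2, o3, one_mul, zero_mul, mul_zero, zero_add, true_and]
    refine ⟨by linarith only [mul_le_mul_of_nonneg_left b1 hE.le],
      by linarith only [mul_le_mul_of_nonneg_left b2 hE.le], ?_⟩
    refine le_trans (le_of_eq ?_) (CarlB_key (k := k) hκ hE b2 b3 b4 hl b5)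
    ring

end Pool.Agent.MP_f6c0e6_an.Gen

end
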