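import Pool.Agent.MP_f6c0e6_an.All.CarlA

section

/-! Localisation of the key lemma. -/

set_option autoImplicit false

open MeasureTheory Filter Topology Set Metric
open scoped ENNReal RealInnerProductSpace

namespace Pool.Agent.MP_f6c0e6_an.Gen

variable {m N : ℕ}

namespace Base

variable {c : ℝ} {Ω : Type} [MeasurableSpace Ω] (B : Base m c Ω)

/-- the key lemma in all balls of radius at least `s` -/
def KLH (Q : ℕ) (C₂ η s : ℝ) : Prop :=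
  ∀ (ξ₁ : E m) (l : ℝ) (ω : E m → ℝ), s ≤ l → √(B.r2 ξ₁) + 10 * l ≤ B.R →
    Wt ω (1 / (4 * l)) (ball ξ₁ l) → -(C₂ * (η / l ^ 2 + 1 / l) * B.II (ball ξ₁ (9 * l))) ≤ B.Y Q ω

/-- the crude bound for the defect -/
def S0H (Q : ℕ) (C₂ s : ℝ) : Prop :=
  ∀ (f : E m → ℝ) (M : ℝ) (Z : Set (E m)), Measurable f → (∀ x, |f x| ≤ M) → MeasurableSet Z →
    Z ⊆ B.bl (B.R - 9 * s) → (∀ x, x ∉ Z → f x = 0) → |B.Y Q f| ≤ C₂ * M * B.PP (thickening s Z)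

end Base

/-- a piecewise linear transition function -/
noncomputable def CarlC_ps (u ρ : ℝ) : ℝ := max 0 (min 1 (2 - ρ / u))

theorem CarlC_ps_bd (u ρ : ℝ) : 0 ≤ CarlC_ps u ρ ∧ CarlC_ps u ρ ≤ 1 :=
  ⟨le_max_left _ _, max_le zero_le_one (min_le_left _ _)⟩

theorem CarlC_ps_one {u ρ : ℝ} (hu : 0 < u) (h : ρ ≤ u) : CarlC_ps u ρ = 1 := by
  have : ρ / u ≤ 1 := (div_le_one hu).2 h
  rw [CarlC_ps, min_eq_left (by linarith), max_eq_right zero_le_one]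

theorem CarlC_ps_zero {u ρ : ℝ} (hu : 0 < u) (h : 2 * u ≤ ρ) : CarlC_ps u ρ = 0 := by
  have : 2 ≤ ρ / u := (le_div_iff₀ hu).2 h
  exact max_eq_left ((min_le_right _ _).trans (by linarith))

theorem CarlC_ps_mono {u ρ : ℝ} (hu : 0 < u) (h : 0 ≤ ρ) : CarlC_ps u ρ ≤ CarlC_ps (2 * u) ρ := by
  have : ρ / (2 * u) ≤ ρ / u := div_le_div_of_nonneg_left h hu (by linarith)
  exact max_le_max le_rfl (min_le_min le_rfl (by linarith))

theorem CarlC_ps_lip {u : ℝ} (hu : 0 < u) (ρ ρ' : ℝ) :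
    |CarlC_ps u ρ - CarlC_ps u ρ'| ≤ |ρ - ρ'| / u := by
  refine (abs_max_sub_max_le_max _ _ _ _).trans (max_le (by rw [sub_self, abs_zero]; positivity) ?_)
  refine (abs_min_sub_min_le_max _ _ _ _).trans (max_le (by rw [sub_self, abs_zero]; positivity) ?_)
  rw [show 2 - ρ / u - (2 - ρ' / u) = -(ρ - ρ') / u by ring, abs_div, abs_neg, abs_of_pos hu]

theorem CarlC_ps_cont (u : ℝ) : Continuous (CarlC_ps u) := by
  unfold CarlC_ps
  fun_prop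

theorem CarlC_log {κ ρ ρ₀ : ℝ} (hκ : 10 ≤ κ) (h0 : 0 < ρ₀) (h : |ρ - ρ₀| ≤ 19 / (50 * κ) * ρ₀) :
    0 < ρ ∧ |Real.log ρ - Real.log ρ₀| ≤ 1 / (2 * κ) := by
  have hk : 0 < κ := by linarith
  obtain ⟨t, ht⟩ : ∃ t, t = 1 / κ := ⟨_, rfl⟩
  have t0 : 0 < t := by rw [ht]; positivity
  have t1 : t ≤ 1 / 10 := by rw [ht]; exact one_div_le_one_div_of_le (by norm_num) hκ
  rw [show 19 / (50 * κ) = 19 / 50 * t by rw [ht]; field_simp, abs_le] at h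
  rw [show 1 / (2 * κ) = t / 2 by rw [ht]; field_simp]
  have h1 : t * ρ₀ ≤ 1 / 10 * ρ₀ := mul_le_mul_of_nonneg_right t1 h0.le
  have h2 : 0 < ρ := by linarith only [h0, h, h1, h.1]
  refine ⟨h2, abs_le.2 ⟨?_, ?_⟩⟩
  · have h3 := Real.log_le_sub_one_of_pos (div_pos h0 h2)
    rw [Real.log_div h0.ne' h2.ne'] at h3
    have h4 : ρ₀ / ρ ≤ 1 + t / 2 := by
      rw [div_le_iff₀ h2]
      have h5 : 9 / 10 * ρ₀ ≤ ρ := by linarith only [h0, h, h1, h.1]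
      have h6 : t * (9 / 10 * ρ₀) ≤ t * ρ := mul_le_mul_of_nonneg_left h5 t0.le
      nlinarith only [h, h6, h.1, mul_pos t0 h0]
    linarith only [h3, h4]
  · have h3 := Real.log_le_sub_one_of_pos (div_pos h2 h0)
    rw [Real.log_div h2.ne' h0.ne'] at h3
    have h4 : ρ / ρ₀ ≤ 1 + t / 2 := by
      rw [div_le_iff₀ h0]
      nlinarith only [h, h.2, mul_pos t0 h0]
    linarith only [h3, h4]

theorem CarlC_exp {κ x : ℝ} (hκ : 10 ≤ κ) (h : |x| ≤ 1 / (2 * κ)) : Real.exp (3 * κ * |x|) ≤ 8 := by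
  have hk : 0 < κ := by linarith
  have h1 : 3 * κ * |x| ≤ 1 + 1 := by
    calc _ ≤ 3 * κ * (1 / (2 * κ)) := mul_le_mul_of_nonneg_left h (by positivity)
      _ = 3 / 2 := by field_simp
      _ ≤ _ := by norm_num
  refine (Real.exp_le_exp.2 h1).trans ?_
  rw [Real.exp_add]
  nlinarith only [Real.exp_one_lt_d9, Real.exp_pos 1]

theorem CarlC_lip {F P : E m → ℝ} {O : Set (E m)} {M L K : ℝ} (hM0 : 0 ≤ M) (hL0 : 0 ≤ L)
    (hK : 0 ≤ K) (hM : ∀ x ∈ O, |F x| ≤ M)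
    (hL : ∀ x ∈ O, ∀ x' ∈ O, |F x - F x'| ≤ L * ‖x - x'‖) (hP : ∀ x, |P x| ≤ 1) (hP' : Lip K P)
    (h0 : ∀ x, x ∉ O → P x = 0) : Lip (M * K + L) fun x => F x * P x := by
  have key : ∀ x x', x ∈ O → |F x * P x - F x' * P x'| ≤ (M * K + L) * ‖x - x'‖ := by
    intro x x' hx
    have h1 : |F x * (P x - P x')| ≤ M * (K * ‖x - x'‖) := by
      rw [abs_mul]
      exact mul_le_mul (hM x hx) (hP' x x') (abs_nonneg _) hM0
    have h2 : |(F x - F x') * P x'| ≤ L * ‖x - x'‖ := by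
      by_cases hx' : x' ∈ O
      · rw [abs_mul]
        exact (mul_le_mul (hL x hx x' hx') (hP x') (abs_nonneg _) (by positivity)).trans_eq
          (mul_one _)
      · rw [h0 x' hx', mul_zero, abs_zero]; positivity
    calc _ = |F x * (P x - P x') + (F x - F x') * P x'| := by ring_nf
      _ ≤ _ := (abs_add_le _ _).trans (add_le_add h1 h2)
      _ = _ := by ring
  intro x x'
  by_cases hx : x ∈ O
  · exact key x x' hx
  by_cases hx' : x' ∈ O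
  · rw [Real.norm_eq_abs, abs_sub_comm, norm_sub_rev]
    exact key x' x hx'
  · simp only [h0 x hx, h0 x' hx', mul_zero, sub_self, norm_zero]
    positivity

theorem CarlC_tel (A : ℕ → ℝ) (n : ℕ) : ∑ j ∈ Finset.range n, (A (j + 4) - A j) =
    A n + A (n + 1) + A (n + 2) + A (n + 3) - (A 0 + A 1 + A 2 + A 3) := by
  induction n with
  | zero => simp
  | succ n ih => rw [Finset.sum_range_succ, ih]; ring

namespace Base

variable {c : ℝ} {Ω : Type} [MeasurableSpace Ω] (B : Base m c Ω)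

theorem CarlC_r2 (ξ : E m) : 0 ≤ B.r2 ξ := (sq_nonneg _).trans (B.r2_lo ξ)

theorem CarlC_lg (ξ : E m) : B.lg ξ = Real.log √(B.r2 ξ) := (Real.log_sqrt (B.CarlC_r2 ξ)).symm

theorem CarlC_ne {ξ : E m} : ξ ≠ B.ξ₀ ↔ 0 < √(B.r2 ξ) := by
  rw [Real.sqrt_pos]
  refine ⟨fun h => lt_of_lt_of_le (pow_pos (norm_pos_iff.2 (sub_ne_zero.2 h)) 2) (B.r2_lo ξ),
    fun h h' => ?_⟩
  have := B.r2_hi ξ
  rw [h', sub_self, norm_zero] at this
  rw [h'] at h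
  linarith

theorem CarlC_shell {ξ : E m} {p q : ℝ} (h : ξ ≠ B.ξ₀ ∧ B.lg ξ ∈ Icc p q) :
    Real.exp p ≤ √(B.r2 ξ) ∧ √(B.r2 ξ) ≤ Real.exp q := by
  have h1 := Real.exp_log (B.CarlC_ne.1 h.1)
  rw [← B.CarlC_lg] at h1
  rw [← h1]
  exact ⟨Real.exp_le_exp.2 h.2.1, Real.exp_le_exp.2 h.2.2⟩

theorem CarlC_near {A κ l : ℝ} (hA : B.Ex A) (hκ : 10 ≤ κ) (hl : 0 < l) {x₀ z y : E m}
    (h0 : ‖x₀ - z‖ ≤ l / 2) (h1 : 50 * κ * l < √(B.r2 x₀)) (h2 : √(B.r2 x₀) < 200 * κ * l)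
    (hy : y ∈ ball z (9 * l)) : 25 * κ * l < √(B.r2 y) ∧ √(B.r2 y) ≤ 250 * κ * l ∧
      |B.lg y - B.lg x₀| ≤ 1 / (2 * κ) := by
  have hk : 0 < κ := by linarith
  have h3 : ‖y - x₀‖ ≤ 19 / 2 * l := by
    have := norm_sub_le_norm_sub_add_norm_sub y z x₀
    rw [mem_ball, dist_eq_norm] at hy
    rw [norm_sub_rev] at h0
    linarith only [h0, hy, this]
  have h4 : |√(B.r2 y) - √(B.r2 x₀)| ≤ 19 * l := (hA.lip y x₀).trans (by linarith)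
  have h5 : 10 * l ≤ κ * l := mul_le_mul_of_nonneg_right hκ hl.le
  have h6 := abs_le.1 h4
  refine ⟨by linarith [h6.1], by linarith [h6.2], ?_⟩
  rw [B.CarlC_lg, B.CarlC_lg]
  refine (CarlC_log hκ (lt_trans (by positivity) h1) (h4.trans ?_)).2
  calc 19 * l = 19 / (50 * κ) * (50 * κ * l) := by field_simp
    _ ≤ _ := mul_le_mul_of_nonneg_left h1.le (by positivity)

theorem CarlC_h : Integrable B.h B.μ ∧ ∀ᵐ y ∂B.μ, 0 ≤ B.h y := by
  have := B.fin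
  refine ⟨Integrable.of_bound B.mh.aestronglyMeasurable (B.T ^ 2) ?_, ?_⟩
  · filter_upwards [B.ae] with y hy
    rw [Real.norm_of_nonneg hy.2.2.2.1]
    exact hy.2.2.2.2.1
  · filter_upwards [B.ae] with y hy using hy.2.2.2.1

/-- one term of the partition -/
theorem CarlC_piece {Q : ℕ} {A C₂ η s κ p q l K : ℝ} {W φ P : E m → ℝ} {a : ℝ → ℝ} {f : Ω → ℝ}
    (hA : B.Ex A) (hKL : B.KLH Q C₂ η s) (hC : 0 ≤ C₂) (hη : 0 ≤ η) (hκ : 10 ≤ κ) (hl : 0 < l)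
    (hs : s ≤ l) (hK : 1 ≤ K) (hR : Real.exp (q + 1 / κ) ≤ B.R) (hW : ContDiff ℝ 1 W)
    (hW0 : ∀ ξ, 0 ≤ W ξ) (hS : tsupport W ⊆ {ξ | ξ ≠ B.ξ₀ ∧ B.lg ξ ∈ Icc p q})
    (ha : ∀ τ, 0 < a τ)
    (ha' : ∀ τ ∈ Icc (p - 1 / κ) (q + 1 / κ), ∀ τ' ∈ Icc (p - 1 / κ) (q + 1 / κ),
      a τ ≤ Real.exp (3 * κ * |τ - τ'|) * a τ')
    (hWa : ∀ ξ, ξ ≠ B.ξ₀ → B.lg ξ ∈ Icc p q → W ξ ≤ a (B.lg ξ) ∧
      ‖fderiv ℝ W ξ‖ ≤ κ * a (B.lg ξ) / √(B.r2 ξ))
    (hφ : ∀ x, 0 ≤ φ x ∧ φ x ≤ 1) (hφ' : Lip (1 / l) φ) (hP : ∀ x, 0 ≤ P x ∧ P x ≤ 1)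
    (hP' : Lip (K / l) P) {x₀ z : E m} (hP0 : ∀ x, x ∉ ball z l → P x = 0)
    (hc : Continuous fun x => W x * φ x * P x) (hc' : HasCompactSupport fun x => W x * φ x * P x)
    (h0 : ‖x₀ - z‖ ≤ l / 2) (h1 : 50 * κ * l < √(B.r2 x₀)) (h2 : √(B.r2 x₀) < 200 * κ * l)
    (h3 : W x₀ ≠ 0) (hf : Integrable f B.μ)
    (hf' : ∀ y, B.ζ y ≠ B.ξ₀ ∧ B.lg (B.ζ y) ∈ Icc (p - 1 / κ) (q + 1 / κ) → f y =
      (η * κ ^ 2 / B.r2 (B.ζ y) + κ / √(B.r2 (B.ζ y))) * a (B.lg (B.ζ y)) * B.h y) :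
    -(68 * K * 500000 * C₂ * ∫ y in B.ζ ⁻¹' ball z (9 * l), f y ∂B.μ) ≤
      B.Y Q fun x => W x * φ x * P x := by
  have hk : 0 < κ := by linarith
  have hx := hS (subset_tsupport _ h3)
  have hk2 : 1 / (2 * κ) ≤ 1 / κ := one_div_le_one_div_of_le hk (by linarith)
  have hk1 : 0 < 1 / κ := by positivity
  have hx' : B.lg x₀ ∈ Icc (p - 1 / κ) (q + 1 / κ) := ⟨by linarith [hx.2.1], by linarith [hx.2.2]⟩
  obtain ⟨a₀, e₀⟩ : ∃ a₀, a₀ = a (B.lg x₀) := ⟨_, rfl⟩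
  have a0 : 0 < a₀ := e₀ ▸ ha _
  have hn : ∀ y ∈ ball z (9 * l), 25 * κ * l < √(B.r2 y) ∧ √(B.r2 y) ≤ 250 * κ * l ∧
      B.lg y ∈ Icc (p - 1 / κ) (q + 1 / κ) ∧ a (B.lg y) ≤ 8 * a₀ ∧ a₀ ≤ 8 * a (B.lg y) := by
    intro y hy
    obtain ⟨n1, n2, n3⟩ := B.CarlC_near hA hκ hl h0 h1 h2 hy
    have n4 := abs_le.1 n3
    have n5 : B.lg y ∈ Icc (p - 1 / κ) (q + 1 / κ) :=
      ⟨by linarith only [hk2, n4, hx.2.1, n4.1], by linarith [hx.2.2, n4.2]⟩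
    refine ⟨n1, n2, n5, ?_, ?_⟩ <;> rw [e₀]
    · exact (ha' _ n5 _ hx').trans (mul_le_mul_of_nonneg_right (CarlC_exp hκ n3) (ha _).le)
    · rw [abs_sub_comm] at n3
      exact (ha' _ hx' _ n5).trans (mul_le_mul_of_nonneg_right (CarlC_exp hκ n3) (ha _).le)
  have hb : ∀ y ∈ ball z l, W y ≤ 8 * a₀ ∧ ‖fderiv ℝ W y‖ ≤ a₀ / l := by
    intro y hy
    by_cases ht : y ∈ tsupport W
    · obtain ⟨n1, -, -, n4, -⟩ := hn y (ball_subset_ball (by linarith) hy)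
      obtain ⟨b1, b2⟩ := hWa y (hS ht).1 (hS ht).2
      refine ⟨b1.trans n4, b2.trans ?_⟩
      calc _ ≤ κ * (8 * a₀) / (25 * κ * l) :=
            div_le_div₀ (by positivity) (mul_le_mul_of_nonneg_left n4 hk.le) (by positivity) n1.le
        _ = 8 / 25 * (a₀ / l) := by field_simp
        _ ≤ _ := mul_le_of_le_one_left (by positivity) (by norm_num)
    · rw [image_eq_zero_of_notMem_tsupport ht, fderiv_of_notMem_tsupport ℝ ht, norm_zero]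
      exact ⟨by positivity, by positivity⟩
  have hM : ∀ x ∈ ball z l, |W x * φ x| ≤ 8 * a₀ := fun x hx => by
    rw [abs_of_nonneg (mul_nonneg (hW0 x) (hφ x).1)]
    exact (mul_le_of_le_one_right (hW0 x) (hφ x).2).trans (hb x hx).1
  have hL : ∀ x ∈ ball z l, ∀ x' ∈ ball z l,
      |W x * φ x - W x' * φ x'| ≤ 9 * a₀ / l * ‖x - x'‖ := by
    intro x hx x' hx'
    have m1 : |W x - W x'| ≤ a₀ / l * ‖x - x'‖ :=
      (convex_ball z l).norm_image_sub_le_of_norm_fderiv_le (𝕜 := ℝ)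
        (fun y _ => hW.differentiable one_ne_zero y) (fun y hy => (hb y hy).2) hx' hx
    have m2 : |W x * (φ x - φ x')| ≤ 8 * a₀ * (1 / l * ‖x - x'‖) := by
      rw [abs_mul, abs_of_nonneg (hW0 x)]
      exact mul_le_mul (hb x hx).1 (hφ' x x') (abs_nonneg _) (by positivity)
    have m3 : |(W x - W x') * φ x'| ≤ a₀ / l * ‖x - x'‖ := by
      rw [abs_mul, abs_of_nonneg (hφ x').1]
      exact (mul_le_of_le_one_right (abs_nonneg _) (hφ x').2).trans m1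
    calc _ = |W x * (φ x - φ x') + (W x - W x') * φ x'| := by ring_nf
      _ ≤ _ := (abs_add_le _ _).trans (add_le_add m2 m3)
      _ = _ := by ring
  have hLip := CarlC_lip (by positivity) (by positivity) (by positivity) hM hL
    (fun x => by rw [abs_of_nonneg (hP x).1]; exact (hP x).2) hP' hP0
  obtain ⟨D, eD⟩ : ∃ D, D = 68 * K * a₀ := ⟨_, rfl⟩
  have D0 : 0 < D := by rw [eD]; positivity
  have Ka : a₀ ≤ K * a₀ := le_mul_of_one_le_left a0.le hK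
  have hω : Wt (fun x => D⁻¹ * (W x * φ x * P x)) (1 / (4 * l)) (ball z l) := by
    refine ⟨fun x => mul_nonneg (by positivity) (mul_nonneg (mul_nonneg (hW0 x) (hφ x).1) (hP x).1),
      fun x => ?_, fun x x' => ?_, fun x hx => by rw [hP0 x hx, mul_zero, mul_zero]⟩
    · by_cases hx : x ∈ ball z l
      · rw [inv_mul_le_iff₀ D0, mul_one]
        refine (mul_le_of_le_one_right (mul_nonneg (hW0 x) (hφ x).1) (hP x).2).trans ?_
        refine ((le_abs_self _).trans (hM x hx)).trans ?_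
        rw [eD]; linarith
      · rw [hP0 x hx, mul_zero, mul_zero]; exact zero_le_one
    · rw [← mul_sub, norm_mul, Real.norm_of_nonneg (inv_pos.2 D0).le, inv_mul_le_iff₀ D0,
        ← mul_assoc]
      refine (hLip x x').trans (mul_le_mul_of_nonneg_right ?_ (norm_nonneg _))
      calc 8 * a₀ * (K / l) + 9 * a₀ / l = (8 * (K * a₀) + 9 * a₀) / l := by ring
        _ ≤ 17 * (K * a₀) / l := div_le_div_of_nonneg_right (by linarith) hl.le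
        _ = _ := by rw [eD]; field_simp; norm_num
  have hz : √(B.r2 z) + 10 * l ≤ B.R := by
    have m1 := (abs_le.1 (hA.lip x₀ z)).1
    have m2 := (B.CarlC_shell hx).2
    have m3 : 1 / κ + 1 ≤ Real.exp (1 / κ) := Real.add_one_le_exp _
    have m4 : 50 * l ≤ 1 / κ * Real.exp q := by
      calc 50 * l = 1 / κ * (50 * κ * l) := by field_simp
        _ ≤ _ := mul_le_mul_of_nonneg_left (h1.le.trans m2) hk1.le
    have m5 := mul_le_mul_of_nonneg_left m3 (Real.exp_pos q).le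
    rw [Real.exp_add] at hR
    linarith
  have key := hKL z l _ hs hz hω
  rw [(B.Y_lin Q hc hc hc' hc' D⁻¹).2, le_inv_mul_iff₀ D0] at key
  refine le_trans ?_ key
  rw [mul_neg, neg_le_neg_iff]
  have hI : a₀ * (η / l ^ 2 + 1 / l) * B.II (ball z (9 * l)) ≤
      500000 * ∫ y in B.ζ ⁻¹' ball z (9 * l), f y ∂B.μ := by
    rw [Lk.II, ← integral_const_mul, ← integral_const_mul]
    refine setIntegral_mono_on_ae (B.CarlC_h.1.const_mul _).integrableOn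
      (hf.const_mul _).integrableOn (B.mζ measurableSet_ball) ?_
    filter_upwards [B.CarlC_h.2] with y hy hy'
    obtain ⟨n1, n2, n3, -, n5⟩ := hn _ hy'
    have r0 : 0 < √(B.r2 (B.ζ y)) := lt_trans (by positivity) n1
    rw [hf' y ⟨B.CarlC_ne.2 r0, n3⟩, ← mul_assoc]
    refine mul_le_mul_of_nonneg_right ?_ hy
    obtain ⟨ρ, eρ⟩ : ∃ ρ, ρ = √(B.r2 (B.ζ y)) := ⟨_, rfl⟩
    rw [← Real.sq_sqrt (B.CarlC_r2 (B.ζ y)), Real.sqrt_sq r0.le, ← eρ]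
    rw [← eρ] at n2 r0
    have m1 : 1 / l ≤ 250 * (κ / ρ) := by
      rw [← mul_div_assoc, div_le_div_iff₀ hl r0]; linarith
    have m2 : (1 / l) ^ 2 ≤ (250 * (κ / ρ)) ^ 2 := pow_le_pow_left₀ (by positivity) m1 2
    have m3 : η / l ^ 2 + 1 / l ≤ 62500 * (η * κ ^ 2 / ρ ^ 2 + κ / ρ) := by
      have m4 := mul_le_mul_of_nonneg_left m2 hη
      have m5 : 0 ≤ κ / ρ := by positivity
      have m6 : η / l ^ 2 = η * (1 / l) ^ 2 := by ring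
      have m7 : η * (250 * (κ / ρ)) ^ 2 = 62500 * (η * κ ^ 2 / ρ ^ 2) := by ring
      linarith only [m1, m4, m5, m6, m7]
    calc _ ≤ 8 * a (B.lg (B.ζ y)) * (62500 * (η * κ ^ 2 / ρ ^ 2 + κ / ρ)) :=
          mul_le_mul n5 m3 (by positivity) (mul_nonneg (by norm_num) (ha _).le)
      _ = _ := by ring
  calc _ = 68 * K * C₂ * (a₀ * (η / l ^ 2 + 1 / l) * B.II (ball z (9 * l))) := by rw [eD]; ring
    _ ≤ 68 * K * C₂ * (500000 * ∫ y in B.ζ ⁻¹' ball z (9 * l), f y ∂B.μ) :=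
        mul_le_mul_of_nonneg_left hI (by positivity)
    _ = _ := by ring

end Base

/-- Let `r = √r2`, `ψ` from `exists_trans`, `ψ j = ψ (r / (2 ^ j exp p) - 1)` and
`φ j = ψ j - ψ (j - 1)`, `0 ≤ j ≤ n`: non-negative, zero unless `2 ^ (j - 1) ≤ r / exp p ≤ 2 ^ (j + 1)`,
Lipschitz with constant `C / (2 ^ j exp p)` (`Ex.lip`), and of sum one where `W ≠ 0` (telescoping).
With `l j = 2 ^ j exp p / (100 κ)` write `W = ∑ j i, W φ j lp (l j) i ^ 2`. If a term is not zero at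
`x`, then on `ball (lc (l j) i) (9 l j)` we have `|lg - lg x| ≤ 1 / (2 κ)`, so the term divided by
`C a (lg x)` is an admissible weight for `KLH` (mean value inequality on the ball), and
`a (lg x) (η / l² + 1 / l) ≤ C (η κ² / r2 + κ / r) a (lg)` there. `Y_sum`, `sum_ball_le` for each
`j`; a point is used by at most five values of `j`. -/
theorem Base.localise (m : ℕ) : ∃ C : ℝ, 1 ≤ C ∧ ∀ {c : ℝ} {Ω : Type} [MeasurableSpace Ω]
    (B : Base m c Ω) (Q : ℕ) (A C₂ η s κ p q : ℝ) (W : E m → ℝ) (a : ℝ → ℝ), B.Ex A →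
    B.KLH Q C₂ η s → 0 ≤ C₂ → 0 ≤ η → 10 ≤ κ → 100 * κ * s ≤ Real.exp p →
    Real.exp (q + 1 / κ) ≤ B.R → ContDiff ℝ 1 W → (∀ ξ, 0 ≤ W ξ) →
    tsupport W ⊆ {ξ | ξ ≠ B.ξ₀ ∧ B.lg ξ ∈ Icc p q} → Continuous a → (∀ τ, 0 < a τ) →
    (∀ τ ∈ Icc (p - 1 / κ) (q + 1 / κ), ∀ τ' ∈ Icc (p - 1 / κ) (q + 1 / κ),
      a τ ≤ Real.exp (3 * κ * |τ - τ'|) * a τ') →
    (∀ ξ, ξ ≠ B.ξ₀ → B.lg ξ ∈ Icc p q → W ξ ≤ a (B.lg ξ) ∧
      ‖fderiv ℝ W ξ‖ ≤ κ * a (B.lg ξ) / √(B.r2 ξ)) →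
    -(C * C₂ * ∫ y in B.ζ ⁻¹' {ξ | ξ ≠ B.ξ₀ ∧ B.lg ξ ∈ Icc (p - 1 / κ) (q + 1 / κ)},
      (η * κ ^ 2 / B.r2 (B.ζ y) + κ / √(B.r2 (B.ζ y))) * a (B.lg (B.ζ y)) * B.h y ∂B.μ) ≤
      B.Y Q W := by
  obtain ⟨K, K1, HK⟩ := lp_bd m
  obtain ⟨Cs, s1, Hs⟩ := sum_ball_le m
  obtain ⟨_, -, Hl⟩ := lattice_bd m
  have s9 : (1 : ℝ) ≤ 9 ^ m := one_le_pow₀ (by norm_num)
  refine ⟨68 * K * 500000 * (Cs * 9 ^ m) * 4, ?_, ?_⟩
  · have := one_le_mul_of_one_le_of_one_le K1 (one_le_mul_of_one_le_of_one_le s1 s9)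
    linarith
  intro c Ω _ B Q A C₂ η s κ p q W a hA hKL hC hη hκ hs hR hW hW0 hS hac ha ha' hWa
  have hk : 0 < κ := by linarith
  have cr : Continuous fun x => √(B.r2 x) := B.cr2.continuous.sqrt
  have mlg : Measurable B.lg := (Real.measurable_log.comp B.cr2.continuous.measurable).div_const 2
  obtain ⟨S, eS⟩ : ∃ S : Set (E m),
      S = {ξ | ξ ≠ B.ξ₀ ∧ B.lg ξ ∈ Icc (p - 1 / κ) (q + 1 / κ)} := ⟨_, rfl⟩
  obtain ⟨G, eG⟩ : ∃ G : E m → ℝ,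
      G = fun ξ => (η * κ ^ 2 / B.r2 ξ + κ / √(B.r2 ξ)) * a (B.lg ξ) := ⟨_, rfl⟩
  have mS : MeasurableSet S := by
    rw [eS]
    exact (measurableSet_singleton B.ξ₀).compl.inter (mlg measurableSet_Icc)
  have mG : Measurable G := by
    rw [eG]
    exact ((measurable_const.div B.cr2.continuous.measurable).add
      (measurable_const.div cr.measurable)).mul (hac.measurable.comp mlg)
  have G0 : ∀ ξ, 0 ≤ G ξ := fun ξ => by
    have := B.CarlC_r2 ξ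
    have := ha (B.lg ξ)
    rw [eG]
    positivity
  obtain ⟨M, hM⟩ := (isCompact_Icc (a := p - 1 / κ) (b := q + 1 / κ)).exists_bound_of_continuousOn
    hac.continuousOn
  have Gb : ∀ ξ, ‖S.indicator G ξ‖ ≤
      (η * κ ^ 2 / Real.exp (p - 1 / κ) ^ 2 + κ / Real.exp (p - 1 / κ)) * |M| := by
    intro ξ
    by_cases h : ξ ∈ S
    · rw [indicator_of_mem h, Real.norm_of_nonneg (G0 ξ), eG]
      rw [eS] at h
      have h1 := (B.CarlC_shell h).1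
      have h2 : Real.exp (p - 1 / κ) ^ 2 ≤ B.r2 ξ := by
        rw [← Real.sq_sqrt (B.CarlC_r2 ξ)]
        exact pow_le_pow_left₀ (Real.exp_pos _).le h1 2
      refine mul_le_mul (add_le_add
        (div_le_div_of_nonneg_left (by positivity) (by positivity) h2)
        (div_le_div_of_nonneg_left hk.le (Real.exp_pos _) h1))
        (((le_abs_self _).trans (hM _ h.2)).trans (le_abs_self _)) (ha _).le (by positivity)
    · rw [indicator_of_notMem h, norm_zero]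
      positivity
  obtain ⟨f, ef⟩ : ∃ f : Ω → ℝ, f = fun y => S.indicator G (B.ζ y) * B.h y := ⟨_, rfl⟩
  have hf : Integrable f B.μ := by
    rw [ef]
    exact B.CarlC_h.1.bdd_mul ((mG.indicator mS).comp B.mζ).aestronglyMeasurable
      (Eventually.of_forall fun y => Gb _)
  have f0 : ∀ᵐ y ∂B.μ, 0 ≤ f y := by
    filter_upwards [B.CarlC_h.2] with y hy
    rw [ef]
    exact mul_nonneg (indicator_nonneg (fun ξ _ => G0 ξ) _) hy
  have hf' : ∀ y, B.ζ y ≠ B.ξ₀ ∧ B.lg (B.ζ y) ∈ Icc (p - 1 / κ) (q + 1 / κ) → f y =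
      (η * κ ^ 2 / B.r2 (B.ζ y) + κ / √(B.r2 (B.ζ y))) * a (B.lg (B.ζ y)) * B.h y := by
    intro y hy
    have : B.ζ y ∈ S := by rw [eS]; exact hy
    simp only [ef, indicator_of_mem this, eG]
  have eI : ∫ y in B.ζ ⁻¹' S, (η * κ ^ 2 / B.r2 (B.ζ y) + κ / √(B.r2 (B.ζ y))) *
      a (B.lg (B.ζ y)) * B.h y ∂B.μ = ∫ y, f y ∂B.μ := by
    rw [← integral_indicator (B.mζ mS)]
    congr 1
    funext y
    by_cases h : B.ζ y ∈ S
    · rw [indicator_of_mem (show y ∈ B.ζ ⁻¹' S from h), hf' y (by rw [eS] at h; exact h)]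
    · rw [indicator_of_notMem (show y ∉ B.ζ ⁻¹' S from h), ef]
      simp only [indicator_of_notMem h, zero_mul]
  rw [← eS, eI]
  obtain ⟨e, ee⟩ : ∃ e, e = Real.exp p / 4 := ⟨_, rfl⟩
  have e0 : 0 < e := by rw [ee]; positivity
  obtain ⟨D, eD⟩ : ∃ D : ℕ → Set (E m), D = fun k => {x | √(B.r2 x) ≤ 2 ^ k * e} := ⟨_, rfl⟩
  have mD : ∀ k, MeasurableSet (D k) := fun k => by
    rw [eD]
    exact measurableSet_le cr.measurable measurable_const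
  obtain ⟨I, eI'⟩ : ∃ I : ℕ → ℝ, I = fun k => ∫ y in B.ζ ⁻¹' D k, f y ∂B.μ := ⟨_, rfl⟩
  have I0 : ∀ k, 0 ≤ I k ∧ I k ≤ ∫ y, f y ∂B.μ := fun k => by
    rw [eI']
    exact ⟨setIntegral_nonneg_of_ae f0, setIntegral_le_integral hf f0⟩
  obtain ⟨ψ, eψ⟩ : ∃ ψ : ℕ → E m → ℝ, ψ = fun j x => CarlC_ps (2 ^ (j + 1) * e) √(B.r2 x) :=
    ⟨_, rfl⟩
  have cW : HasCompactSupport W := by
    refine (isCompact_closedBall B.ξ₀ (Real.exp q)).of_isClosed_subset (isClosed_tsupport W)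
      fun x hx => ?_
    rw [mem_closedBall, dist_eq_norm]
    exact (Real.le_sqrt_of_sq_le (B.r2_lo x)).trans (B.CarlC_shell (hS hx)).2
  have cψ : ∀ j, Continuous (ψ j) := fun j => by
    rw [eψ]
    exact (CarlC_ps_cont _).comp cr
  have cF : ∀ j, Continuous (fun x => W x * (ψ (j + 1) x - ψ j x)) ∧
      HasCompactSupport fun x => W x * (ψ (j + 1) x - ψ j x) := fun j =>
    ⟨hW.continuous.mul ((cψ _).sub (cψ _)), cW.mul_right⟩
  have step : ∀ j, -(68 * K * 500000 * C₂ * (Cs * 9 ^ m * (I (j + 4) - I j))) ≤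
      B.Y Q fun x => W x * (ψ (j + 1) x - ψ j x) := by
    intro j
    obtain ⟨u, eu⟩ : ∃ u : ℝ, u = 2 ^ (j + 1) * e := ⟨_, rfl⟩
    have u0 : 0 < u := by rw [eu]; positivity
    have e1 : ∀ x, ψ j x = CarlC_ps u √(B.r2 x) := fun x => by rw [eψ, eu]
    have e2 : ∀ x, ψ (j + 1) x = CarlC_ps (2 * u) √(B.r2 x) := fun x => by
      rw [eψ, eu, ← mul_assoc, ← pow_succ']
    obtain ⟨l, el⟩ : ∃ l, l = u / (50 * κ) := ⟨_, rfl⟩
    have l0 : 0 < l := by rw [el]; positivity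
    have ul : 50 * κ * l = u := by rw [el]; field_simp
    have sl : s ≤ l := by
      have h1 : (1 : ℝ) ≤ 2 ^ j := one_le_pow₀ (by norm_num)
      have h2 : e ≤ 2 ^ j * e := le_mul_of_one_le_left e0.le h1
      rw [el, le_div_iff₀ (by positivity), eu, pow_succ]
      linarith
    have hφ : ∀ x, 0 ≤ ψ (j + 1) x - ψ j x ∧ ψ (j + 1) x - ψ j x ≤ 1 := fun x => by
      rw [e1, e2]
      exact ⟨sub_nonneg.2 (CarlC_ps_mono u0 (Real.sqrt_nonneg _)),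
        by linarith [(CarlC_ps_bd u √(B.r2 x)).1, (CarlC_ps_bd (2 * u) √(B.r2 x)).2]⟩
    have hφ' : Lip (1 / l) fun x => ψ (j + 1) x - ψ j x := fun x x' => by
      have h1 := (CarlC_ps_lip u0 _ _).trans (div_le_div_of_nonneg_right (hA.lip x x') u0.le)
      have h2 := (CarlC_ps_lip (u := 2 * u) (by positivity) _ _).trans
        (div_le_div_of_nonneg_right (hA.lip x x') (by positivity))
      have h3 : 3 / u ≤ 1 / l := by
        rw [div_le_div_iff₀ u0 l0, ← ul]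
        nlinarith only [l0, hκ]
      have h4 := mul_le_mul_of_nonneg_right h3 (norm_nonneg (x - x'))
      have h5 : 3 / u * ‖x - x'‖ = 2 * ‖x - x'‖ / u + 2 * ‖x - x'‖ / (2 * u) := by field_simp; ring
      rw [abs_le] at h1 h2
      simp only [e1, e2]
      rw [Real.norm_eq_abs, abs_le]
      constructor <;> linarith only [h1, h2, h4, h5, h1.1, h1.2, h2.1, h2.2]
    have hr : ∀ x, ψ (j + 1) x - ψ j x ≠ 0 →
        50 * κ * l < √(B.r2 x) ∧ √(B.r2 x) < 200 * κ * l := fun x hx => by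
      rw [e1, e2] at hx
      constructor <;> by_contra h <;> rw [not_lt] at h <;> apply hx
      · rw [CarlC_ps_one u0 (by linarith only [ul, h]), CarlC_ps_one (by positivity) (by linarith), sub_self]
      · rw [CarlC_ps_zero u0 (by linarith only [u0, ul, h]), CarlC_ps_zero (by positivity) (by linarith), sub_self]
    have fin : {i : Fin m → ℤ | ∃ x, W x * (ψ (j + 1) x - ψ j x) ≠ 0 ∧
        ‖x - lc l i‖ ≤ l / 2}.Finite := by
      refine ((Hl l l0).1 _ (isBounded_closedBall (x := B.ξ₀) (r := 200 * κ * l + l / 2))).subset ?_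
      rintro i ⟨x, h1, h2⟩
      have h3 := (Real.le_sqrt_of_sq_le (B.r2_lo x)).trans (hr x (right_ne_zero_of_mul h1)).2.le
      have h4 := norm_sub_le_norm_sub_add_norm_sub (lc l i) x B.ξ₀
      rw [norm_sub_rev] at h2
      rw [mem_ofPred_eq, mem_closedBall, dist_eq_norm]
      linarith only [h2, h3, h4]
    have cg : ∀ i : Fin m → ℤ, Continuous (fun x => W x * (ψ (j + 1) x - ψ j x) * lp l i x ^ 2) ∧
        HasCompactSupport fun x => W x * (ψ (j + 1) x - ψ j x) * lp l i x ^ 2 := fun i =>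
      ⟨(cF j).1.mul ((contDiff_lp l i 0).continuous.pow 2), (cF j).2.mul_right⟩
    have dec : (fun x => W x * (ψ (j + 1) x - ψ j x)) =
        fun x => ∑ i ∈ fin.toFinset, W x * (ψ (j + 1) x - ψ j x) * lp l i x ^ 2 := by
      funext x
      rw [← Finset.mul_sum]
      by_cases h : W x * (ψ (j + 1) x - ψ j x) = 0
      · rw [h, zero_mul]
      · rw [(sum_lp_sq l0 _ x).2 fun i hi => fin.mem_toFinset.2 ⟨x, h, hi⟩, mul_one]
    have ov := Hs B.μ B.ζ f l (9 * l) fin.toFinset (D (j + 4) \ D j) l0 (by linarith only [l0]) B.mζ hf f0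
      (fun i hi y hy => by
        obtain ⟨x, h1, h2⟩ := fin.mem_toFinset.1 hi
        obtain ⟨h3, h4⟩ := hr x (right_ne_zero_of_mul h1)
        obtain ⟨n1, n2, -⟩ := B.CarlC_near hA hκ l0 h2 h3 h4 hy
        rw [pow_succ] at eu
        rw [eD]
        refine ⟨?_, fun h => ?_⟩
        · rw [mem_ofPred_eq, pow_add]
          linarith only [eu, u0, ul, n2]
        · rw [mem_ofPred_eq] at h
          linarith only [eu, ul, n1, h])
      ((mD _).diff (mD _))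
    have sub : B.ζ ⁻¹' D j ⊆ B.ζ ⁻¹' D (j + 4) := fun y hy => by
      rw [eD] at hy ⊢
      exact le_trans hy (mul_le_mul_of_nonneg_right
        (pow_le_pow_right₀ (by norm_num) (Nat.le_add_right _ _)) e0.le)
    rw [preimage_sdiff, setIntegral_sdiff (B.mζ (mD j)) hf.integrableOn sub,
      mul_div_cancel_right₀ _ l0.ne'] at ov
    rw [dec, B.Y_sum Q _ fun i _ => cg i, eI']
    refine le_trans (neg_le_neg (mul_le_mul_of_nonneg_left ov (by positivity))) ?_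
    rw [Finset.mul_sum, ← Finset.sum_neg_distrib]
    refine Finset.sum_le_sum fun i hi => ?_
    obtain ⟨x, h1, h2⟩ := fin.mem_toFinset.1 hi
    obtain ⟨h3, h4⟩ := hr x (right_ne_zero_of_mul h1)
    exact B.CarlC_piece hA hKL hC hη hκ l0 sl K1 hR hW hW0 hS ha ha' hWa hφ hφ'
      (fun x => ⟨sq_nonneg _, pow_le_one₀ (lp_nonneg l i x).1 (lp_nonneg l i x).2⟩)
      (HK l l0 i).2.2.2 (fun x hx => by
        rw [mem_ball, dist_eq_norm, not_lt] at hx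
        rw [lp_eq_zero l0 i (by linarith only [l0, hx]), zero_pow two_ne_zero])
      (cg i).1 (cg i).2 h2 h3 h4 (left_ne_zero_of_mul h1) hf hf'
  obtain ⟨n, hn⟩ := pow_unbounded_of_one_lt (Real.exp q / e) (one_lt_two (α := ℝ))
  have dec : W = fun x => ∑ j ∈ Finset.range n, W x * (ψ (j + 1) x - ψ j x) := by
    funext x
    rw [← Finset.mul_sum, Finset.sum_range_sub fun j => ψ j x]
    by_cases h : W x = 0
    · rw [h, zero_mul]
    obtain ⟨h1, h2⟩ := B.CarlC_shell (hS (subset_tsupport _ h))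
    rw [div_lt_iff₀ e0] at hn
    have h3 : (0 : ℝ) < 2 ^ n * e := by positivity
    rw [eψ]
    simp only
    rw [CarlC_ps_one (by positivity) (by rw [pow_succ]; linarith only [ee, e0, hn, h1, h2]),
      CarlC_ps_zero (by positivity) (by norm_num; linarith only [ee, h1]), sub_zero, mul_one]
  rw [dec, B.Y_sum Q _ fun j _ => cF j]
  refine le_trans ?_ (Finset.sum_le_sum fun j _ => step j)
  rw [Finset.sum_neg_distrib, ← Finset.mul_sum, ← Finset.mul_sum, CarlC_tel, neg_le_neg_iff]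
  have h4 : I n + I (n + 1) + I (n + 2) + I (n + 3) - (I 0 + I 1 + I 2 + I 3) ≤
      4 * ∫ y, f y ∂B.μ := by
    linarith only [(I0 n).2, (I0 (n + 1)).2, (I0 (n + 2)).2, (I0 (n + 3)).2, (I0 0).1, (I0 1).1,
      (I0 2).1, (I0 3).1]
  calc _ ≤ 68 * K * 500000 * C₂ * (Cs * 9 ^ m * (4 * ∫ y, f y ∂B.μ)) :=
        mul_le_mul_of_nonneg_left (mul_le_mul_of_nonneg_left h4 (by positivity)) (by positivity)
    _ = _ := by ring

end Pool.Agent.MP_f6c0e6_an.Gen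

end

section

/-! Three spheres on the base: elementary inequalities and tools. -/

set_option autoImplicit false

open MeasureTheory Filter Topology Set Metric
open scoped ENNReal RealInnerProductSpace

namespace Pool.Agent.MP_f6c0e6_an.Gen

variable {m N : ℕ}

/-! ### Real inequalities -/

theorem CarlD_quad {n H p : ℝ} (x y : ℝ) (hn : 0 ≤ n) (hH : 0 ≤ H) (h : p ^ 2 ≤ H * n) :
    |2 * p * x * y| ≤ n * x ^ 2 + H * y ^ 2 := by
  refine abs_le_of_sq_le_sq ?_ (add_nonneg (mul_nonneg hn (sq_nonneg _)) (mul_nonneg hH (sq_nonneg _)))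
  linarith only [mul_le_mul_of_nonneg_right h (sq_nonneg (x * y)), sq_nonneg (n * x ^ 2 - H * y ^ 2)]

theorem CarlD_mid {a β γ n H p ϱ g : ℝ} (ha : 0 < a) (hn : 0 ≤ n) (hH : 0 ≤ H)
    (hp : p ^ 2 ≤ H * n) (hϱ : 1 / 2 ≤ ϱ ^ 2) (g0 : 0 ≤ g) (hg : g ≤ γ - 2 * β ^ 2 / a) :
    g / 2 * H ≤ 2 * a * n + 4 * β * ϱ * p + γ * ϱ ^ 2 * H := by
  have h1 := (abs_le.1 (CarlD_quad a (β * ϱ) hn hH hp)).1
  have h2 : 0 ≤ 2 * a * n + 4 * β * ϱ * p + 2 * β ^ 2 / a * ϱ ^ 2 * H := by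
    have : 2 * a * n + 4 * β * ϱ * p + 2 * β ^ 2 / a * ϱ ^ 2 * H =
        2 * (n * a ^ 2 + H * (β * ϱ) ^ 2 + 2 * p * a * (β * ϱ)) / a := by
      field_simp
      ring
    rw [this]
    exact div_nonneg (by linarith only [h1]) ha.le
  have h3 := mul_le_mul_of_nonneg_right hg (mul_nonneg (sq_nonneg ϱ) hH)
  have h4 := mul_le_mul_of_nonneg_left hϱ (mul_nonneg g0 hH)
  generalize 2 * β ^ 2 / a = q at h2 h3
  linarith only [h2, h3, h4]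

theorem CarlD_abs {x y a b : ℝ} (h1 : |x| ≤ a) (h2 : |y| ≤ b) : |x * y| ≤ a * b := by
  rw [abs_mul]
  exact mul_le_mul h1 h2 (abs_nonneg _) ((abs_nonneg _).trans h1)

theorem CarlD_bdy {a1 a2 a3 k κ u n H p ϱ : ℝ} (hκ : 0 ≤ κ) (hu : 0 ≤ u) (hk : |k| ≤ κ)
    (h1 : |a1| ≤ κ * u) (h2 : |a2| ≤ κ ^ 2 * u) (h3 : |a3| ≤ κ ^ 3 * u) (hn : 0 ≤ n) (hH : 0 ≤ H)
    (hp : p ^ 2 ≤ H * n) (hϱ : |ϱ| ≤ 5 / 4) :
    -(5 * (κ * u * n) + 7 * (κ ^ 3 * u * H)) ≤ -2 * a1 * n + 4 * (-(a2 + k * a1) / 2) * ϱ * p +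
      (-(a3 + k * a2) / 2 + k * (-(a2 + k * a1) / 2)) * ϱ ^ 2 * H := by
  have b1 : |-(a2 + k * a1) / 2| ≤ κ ^ 2 * u := by
    obtain ⟨c1, c2⟩ := abs_le.1 (CarlD_abs hk h1)
    obtain ⟨c3, c4⟩ := abs_le.1 h2
    exact abs_le.2 ⟨by linarith only [c2, c4], by linarith only [c1, c3]⟩
  generalize -(a2 + k * a1) / 2 = β at b1 ⊢
  have b2 : |-(a3 + k * a2) / 2 + k * β| ≤ 2 * (κ ^ 3 * u) := by
    obtain ⟨c1, c2⟩ := abs_le.1 (CarlD_abs hk h2)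
    obtain ⟨c3, c4⟩ := abs_le.1 h3
    obtain ⟨c5, c6⟩ := abs_le.1 (CarlD_abs hk b1)
    exact abs_le.2 ⟨by linarith only [c2, c4, c5], by linarith only [c1, c3, c6]⟩
  generalize -(a3 + k * a2) / 2 + k * β = γ at b2 ⊢
  have b3 := (abs_le.1 (CarlD_abs h1 (abs_of_nonneg hn).le)).2
  have b4 := (abs_le.1 (CarlD_abs (CarlD_abs b2 (CarlD_abs hϱ hϱ)) (abs_of_nonneg hH).le)).1
  have b5 := (abs_le.1 (CarlD_abs (CarlD_abs b1 hϱ) (le_refl |p|))).1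
  have b6 := CarlD_quad 1 κ hn hH hp
  rw [abs_mul, abs_of_nonneg hκ, mul_one, abs_mul, abs_two] at b6
  have b7 := mul_le_mul_of_nonneg_left b6 (mul_nonneg hκ hu)
  have b8 := mul_nonneg (mul_nonneg hκ hu) hn
  have b9 := mul_nonneg (mul_nonneg (pow_nonneg hκ 3) hu) hH
  linarith only [b3, b4, b5, b7, b8, b9]

theorem CarlD_err {a0 a1 a2 a3 κ u r T d h : ℝ} (hκ : 1 ≤ κ) (hu : 0 ≤ u) (h0 : a0 ≤ u)
    (h1 : a1 ≤ κ * u) (h2 : a2 ≤ κ ^ 2 * u) (h3 : a3 ≤ κ ^ 3 * u) (r0 : 0 < r) (r1 : r ≤ 1)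
    (T0 : 0 ≤ T) (hT : T * κ ^ 2 ≤ r ^ 2) (d0 : 0 ≤ d) (hh : 0 ≤ h) (hhT : h ≤ T ^ 2) :
    (a0 + a1) * (T * d + h + √(h * d)) + r * a0 * d + (a1 + a2) * h / r +
      (a1 + a2 + a3) * (T + d) * h / r ^ 2 ≤ 8 * (r * u * d) + 9 * (κ ^ 2 * u / r * h) := by
  have k0 : 0 ≤ κ := zero_le_one.trans hκ
  have k2 : κ ≤ κ ^ 2 := le_self_pow₀ hκ two_ne_zero
  have k3 : κ ^ 2 ≤ κ ^ 3 := pow_le_pow_right₀ hκ (by norm_num)
  have k4 : κ ^ 3 ≤ κ ^ 4 := pow_le_pow_right₀ hκ (by norm_num)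
  have rr : r ^ 2 ≤ r := pow_le_of_le_one r0.le r1 two_ne_zero
  have q0 : 0 < r ^ 2 := pow_pos r0 2
  have y0 : 0 ≤ h / r := div_nonneg hh r0.le
  have z0 : 0 ≤ h / r ^ 2 := div_nonneg hh q0.le
  have f1 : κ * (T * d) ≤ r * d := by
    have := mul_le_mul_of_nonneg_right ((mul_le_mul_of_nonneg_left k2 T0).trans (hT.trans rr)) d0
    linarith only [this]
  have f2 : κ * h ≤ κ ^ 2 * (h / r) :=
    mul_le_mul k2 (le_div_self hh r0 r1) hh (sq_nonneg _)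
  have f3 : κ * √(h * d) ≤ r * d + κ ^ 2 * (h / r) := by
    have e : κ ^ 2 * (h * d) = r * d * (κ ^ 2 * (h / r)) := by field_simp
    have x0 := mul_nonneg r0.le d0
    have x1 := mul_nonneg (sq_nonneg κ) y0
    refine (le_abs_self _).trans (abs_le_of_sq_le_sq ?_ (add_nonneg x0 x1))
    rw [mul_pow, Real.sq_sqrt (mul_nonneg hh d0), e]
    generalize r * d = x at x0 ⊢
    generalize κ ^ 2 * (h / r) = y at x1 ⊢
    linarith only [sq_nonneg x, sq_nonneg y, mul_nonneg x0 x1]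
  have f4 : κ ^ 3 * (T * (h / r ^ 2)) ≤ κ * h := by
    have e : r ^ 2 * (κ * (h / r ^ 2)) = κ * h := by field_simp
    linarith only [e, mul_le_mul_of_nonneg_right hT (mul_nonneg k0 z0)]
  have f5 : κ ^ 3 * (d * (h / r ^ 2)) ≤ r * d := by
    have a : κ ^ 3 * (h / r ^ 2) ≤ r := by
      refine le_trans ?_ rr
      rw [← mul_div_assoc, div_le_iff₀ q0]
      have b1 := mul_le_mul k4 hhT hh (pow_nonneg k0 4)
      have b2 := pow_le_pow_left₀ (mul_nonneg T0 (sq_nonneg κ)) hT 2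
      linarith only [b1, b2]
    linarith only [mul_le_mul_of_nonneg_right a d0]
  have u1 := mul_le_mul_of_nonneg_right hκ hu
  have u2 := mul_le_mul_of_nonneg_right k2 hu
  have u3 := mul_le_mul_of_nonneg_right k3 hu
  have g1 := mul_le_mul_of_nonneg_right (show a0 + a1 ≤ 2 * (κ * u) by linarith only [h0, h1, u1])
    (add_nonneg (add_nonneg (mul_nonneg T0 d0) hh) (Real.sqrt_nonneg (h * d)))
  have g2 := mul_le_mul_of_nonneg_right h0 (mul_nonneg r0.le d0)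
  have g3 := mul_le_mul_of_nonneg_right
    (show a1 + a2 ≤ 2 * (κ ^ 2 * u) by linarith only [h1, h2, u2]) y0
  have g4 := mul_le_mul_of_nonneg_right
    (show a1 + a2 + a3 ≤ 3 * (κ ^ 3 * u) by linarith only [h1, h2, h3, u2, u3])
    (mul_nonneg (add_nonneg T0 d0) z0)
  have e1 : κ ^ 2 * u / r * h = κ ^ 2 * u * (h / r) := by ring
  rw [e1, mul_div_assoc, mul_div_assoc]
  generalize h / r = y at *
  generalize h / r ^ 2 = z at *
  generalize √(h * d) = q at *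
  linarith only [g1, g2, g3, g4, mul_le_mul_of_nonneg_left f1 hu, mul_le_mul_of_nonneg_left f2 hu,
    mul_le_mul_of_nonneg_left f3 hu, mul_le_mul_of_nonneg_left f4 hu,
    mul_le_mul_of_nonneg_left f5 hu]

theorem CarlD_frac {κ : ℝ} (hκ : 10 ≤ κ) : 0 < 1 / κ ∧ 1 / κ ≤ 1 / 10 ∧ 2 / κ = 2 * (1 / κ) ∧
    3 / κ = 3 * (1 / κ) ∧ 4 / κ = 4 * (1 / κ) ∧ 3 / (4 * κ) = 3 / 4 * (1 / κ) ∧
    κ * (1 / κ) = 1 := by
  have k0 : 0 < κ := by linarith only [hκ]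
  exact ⟨one_div_pos.2 k0, one_div_le_one_div_of_le (by norm_num) hκ, by ring, by ring, by ring,
    by field_simp, mul_one_div_cancel k0.ne'⟩

theorem CarlD_exp {κ : ℝ} (hκ : 10 ≤ κ) : Real.exp (-(1 / κ)) < 1 - 3 / (4 * κ) ∧
    1 / 2 ≤ Real.exp (-(4 / κ)) := by
  obtain ⟨a1, a2, -, -, a4, a5, -⟩ := CarlD_frac hκ
  refine ⟨?_, ?_⟩
  · rw [Real.exp_neg, inv_lt_iff_one_lt_mul₀ (Real.exp_pos _), a5]
    have b1 := Real.add_one_le_exp (1 / κ)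
    have b2 := mul_le_mul_of_nonneg_left b1
      (show 0 ≤ 1 - 3 / 4 * (1 / κ) by linarith only [a1, a2])
    have b3 := mul_le_mul_of_nonneg_left a2 a1.le
    generalize 1 / κ = x at *
    linarith only [b2, b3, a1]
  · linarith only [Real.add_one_le_exp (-(4 / κ)), a2, a4]

theorem CarlD_tl {C r t : ℝ} (r0 : 0 < r) (h : r ≤ t) (hC : C * t ≤ 1) : tl C r ≤ tl C t := by
  have t0 : 0 < t := r0.trans_le h
  have h1 := Real.log_le_sub_one_of_pos (div_pos r0 t0)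
  rw [Real.log_div r0.ne' t0.ne'] at h1
  have h2 : r / t ≤ 1 := (div_le_one t0).2 h
  have h3 := mul_le_mul_of_nonneg_right hC (sub_nonneg.2 h2)
  have h4 : t * (r / t) = r := mul_div_cancel₀ r t0.ne'
  have h5 : C * t * (1 - r / t) = C * t - C * r := by rw [mul_sub, mul_one, mul_assoc, h4]
  unfold tl
  linarith only [h1, h3, h5]

theorem CarlD_dz {f : ℝ → ℝ} {a b : ℝ} (h : ∀ τ, τ ∉ Icc a b → f τ = 0) :
    ∀ τ, τ ∉ Icc a b → deriv f τ = 0 := fun τ hτ => by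
  have : f =ᶠ[𝓝 τ] fun _ => 0 := by
    filter_upwards [isClosed_Icc.isOpen_compl.mem_nhds hτ] with x hx using h x hx
  rw [this.deriv_eq, deriv_const]

theorem CarlD_bet {α : ℝ → ℝ} (h : ContDiff ℝ 3 α) (k τ : ℝ) :
    deriv (bet1 k α) τ = -(deriv (deriv (deriv α)) τ + k * deriv (deriv α) τ) / 2 := by
  have h1 : ContDiff ℝ 2 (deriv α) := (h.of_le (m := 2 + 1) (by norm_num)).deriv'
  have h2 : ContDiff ℝ 1 (deriv (deriv α)) := (h1.of_le (m := 1 + 1) (by norm_num)).deriv'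
  exact ((((h2.differentiable one_ne_zero τ).hasDerivAt.add
    ((h1.differentiable two_ne_zero τ).hasDerivAt.const_mul k)).neg).div_const 2).deriv

/-! ### Integrals -/

/-- integrable with a given integral -/
def CarlD_HI {Ω : Type} [MeasurableSpace Ω] (μ : Measure Ω) (f : Ω → ℝ) (c : ℝ) : Prop :=
  Integrable f μ ∧ ∫ y, f y ∂μ = c

section Tools

variable {Ω : Type} [MeasurableSpace Ω] {μ : Measure Ω} {f g : Ω → ℝ} {a e : ℝ}

theorem CarlD_HI.add (h : CarlD_HI μ f a) (h' : CarlD_HI μ g e) :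
    CarlD_HI μ (fun y => f y + g y) (a + e) :=
  ⟨h.1.add h'.1, by rw [integral_add h.1 h'.1, h.2, h'.2]⟩

theorem CarlD_HI.cmul (h : CarlD_HI μ f a) (e : ℝ) : CarlD_HI μ (fun y => e * f y) (e * a) :=
  ⟨h.1.const_mul e, by rw [integral_const_mul, h.2]⟩

theorem CarlD_HI.le (h : CarlD_HI μ f a) (h0 : ∀ᵐ y ∂μ, 0 ≤ g y ∧ g y ≤ f y) :
    ∫ y, g y ∂μ ≤ a :=
  h.2 ▸ integral_mono_of_nonneg (h0.mono fun _ h => h.1) h.1 (h0.mono fun _ h => h.2)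

theorem CarlD_HI.ge (h : CarlD_HI μ f a) (hg : Integrable g μ) (h0 : ∀ᵐ y ∂μ, f y ≤ g y) :
    a ≤ ∫ y, g y ∂μ := h.2 ▸ integral_mono_ae h.1 hg h0

end Tools

/-- the indicator function -/
noncomputable def CarlD_i (Z : Set (E m)) (x : E m) : ℝ := Z.indicator 1 x

theorem CarlD_i_one {Z : Set (E m)} {x : E m} (h : x ∈ Z) : CarlD_i Z x = 1 :=
  indicator_of_mem h _

theorem CarlD_i_zero {Z : Set (E m)} {x : E m} (h : x ∉ Z) : CarlD_i Z x = 0 :=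
  indicator_of_notMem h _

theorem CarlD_i_nn (Z : Set (E m)) (x : E m) : 0 ≤ CarlD_i Z x := by
  by_cases h : x ∈ Z
  · rw [CarlD_i_one h]; exact zero_le_one
  · rw [CarlD_i_zero h]

section Geo

variable {c : ℝ} {Ω : Type} [MeasurableSpace Ω] (B : Base m c Ω)

theorem CarlD_set {f : Ω → ℝ} (hf : Integrable f B.μ) {Z : Set (E m)} (hZ : MeasurableSet Z) :
    CarlD_HI B.μ (fun y => CarlD_i Z (B.ζ y) * f y) (∫ y in B.ζ ⁻¹' Z, f y ∂B.μ) := by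
  have e : (fun y => CarlD_i Z (B.ζ y) * f y) = (B.ζ ⁻¹' Z).indicator f := by
    funext y
    by_cases hy : B.ζ y ∈ Z
    · rw [CarlD_i_one hy, one_mul, indicator_of_mem (show y ∈ B.ζ ⁻¹' Z from hy)]
    · rw [CarlD_i_zero hy, zero_mul, indicator_of_notMem (show y ∉ B.ζ ⁻¹' Z from hy)]
  rw [e]
  exact ⟨hf.indicator (B.mζ hZ), integral_indicator (B.mζ hZ)⟩

theorem CarlD_mul {f : Ω → ℝ} (hf : Integrable f B.μ) {φ : E m → ℝ} (hφ : Measurable φ) {M : ℝ}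
    (h : ∀ x, |φ x| ≤ M) : Integrable (fun y => φ (B.ζ y) * f y) B.μ :=
  hf.bdd_mul (c := M) (hφ.comp B.mζ).aestronglyMeasurable (Eventually.of_forall fun _ => h _)

/-- a shell -/
def CarlD_sh (a b : ℝ) : Set (E m) := {ξ | ξ ≠ B.ξ₀ ∧ B.lg ξ ∈ Icc a b}

/-- a slightly smaller ball -/
def CarlD_Z (κ t : ℝ) : Set (E m) := B.bl (t * (1 - 3 / (4 * κ)))

theorem CarlD_mlg : Measurable B.lg :=
  (Real.measurable_log.comp B.cr2.continuous.measurable).div_const 2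

theorem CarlD_msh (a b : ℝ) : MeasurableSet (CarlD_sh B a b) :=
  (measurableSet_singleton B.ξ₀).compl.inter (CarlD_mlg B measurableSet_Icc)

theorem CarlD_mbl (t : ℝ) : MeasurableSet (B.bl t) :=
  measurableSet_lt B.cr2.continuous.measurable measurable_const

theorem CarlD_r20 : B.r2 B.ξ₀ = 0 := by
  have h1 := B.r2_lo B.ξ₀
  have h2 := B.r2_hi B.ξ₀
  rw [sub_self, norm_zero] at h1 h2
  linarith only [h1, h2]

theorem CarlD_mem {a b : ℝ} (hb : b < 0) {ξ : E m} (h : B.lg ξ ∈ Icc a b) : ξ ∈ CarlD_sh B a b := by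
  refine ⟨fun e => ?_, h⟩
  rw [e, Base.lg, CarlD_r20, Real.log_zero, zero_div] at h
  exact absurd h.2 (not_le.2 hb)

theorem CarlD_bl {t : ℝ} (ht : 0 ≤ t) {ξ : E m} : ξ ∈ B.bl t ↔ √(B.r2 ξ) < t := by
  rcases ht.eq_or_lt with h | h
  · subst h
    have := (sq_nonneg _).trans (B.r2_lo ξ)
    constructor
    · intro h
      have h' : B.r2 ξ < 0 ^ 2 := h
      rw [zero_pow two_ne_zero] at h'
      exact absurd h' (not_lt.2 this)
    · exact fun h => absurd h (not_lt.2 (Real.sqrt_nonneg _))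
  · exact (Real.sqrt_lt' h).symm

theorem CarlD_bl_mono {s t : ℝ} (hs : 0 ≤ s) (h : s ≤ t) : B.bl s ⊆ B.bl t := fun _ hx =>
  lt_of_lt_of_le hx (pow_le_pow_left₀ hs h 2)

theorem CarlD_inZ {κ j : ℝ} (hκ : 10 ≤ κ) {ξ : E m} (h0 : ξ ≠ B.ξ₀) (h : B.lg ξ ≤ j - 1 / κ) :
    ξ ∈ CarlD_Z B κ (Real.exp j) := by
  have h1 := mul_lt_mul_of_pos_left (CarlD_exp hκ).1 (Real.exp_pos j)
  rw [← Real.exp_add] at h1
  have h2 := (Real.exp_le_exp.2 h).trans_lt h1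
  rw [CarlD_Z, CarlD_bl B ((Real.exp_pos _).trans h2).le, ← (B.lg_calc ξ h0).2.1]
  exact h2

theorem CarlD_Zsub {κ t : ℝ} (hκ : 10 ≤ κ) (ht : 0 ≤ t) : 0 ≤ t * (1 - 3 / (4 * κ)) ∧
    CarlD_Z B κ t ⊆ B.bl t := by
  obtain ⟨a1, a2, -, -, -, a5, -⟩ := CarlD_frac hκ
  have h1 : 0 ≤ t * (1 - 3 / (4 * κ)) := mul_nonneg ht (by linarith only [a2, a5])
  exact ⟨h1, CarlD_bl_mono B h1 (mul_le_of_le_one_right ht (by linarith only [a1, a5]))⟩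

theorem CarlD_rad {κ j : ℝ} (hκ : 10 ≤ κ) {ξ : E m} (h0 : ξ ≠ B.ξ₀) (h : j - 4 / κ ≤ B.lg ξ) :
    Real.exp j ^ 2 ≤ 4 * B.r2 ξ := by
  have h1 := mul_le_mul_of_nonneg_left (CarlD_exp hκ).2 (Real.exp_pos j).le
  rw [← Real.exp_add] at h1
  have h2 := h1.trans (Real.exp_le_exp.2 h)
  rw [(B.lg_calc ξ h0).2.1] at h2
  have h3 := pow_le_pow_left₀ (mul_pos (Real.exp_pos j) one_half_pos).le h2 2
  rw [Real.sq_sqrt (B.lg_calc ξ h0).1.le] at h3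
  linarith only [h3]

theorem CarlD_PP {A Cc κ s t : ℝ} (hE : B.Ex A) (hCc : 0 ≤ Cc)
    (hc : ∀ a b : ℝ, 0 ≤ a → a < b → b ≤ B.R → B.PP (B.bl a) ≤ Cc * B.II (B.bl b) / (b - a) ^ 2)
    (hκ : 10 ≤ κ) (s0 : 0 < s) (hs : 1000 * κ * s ≤ t) (tR : t ≤ B.R) :
    B.PP (thickening s (CarlD_Z B κ t)) ≤ 4 * Cc * κ ^ 2 * (B.II (B.bl t) / t ^ 2) ∧
    B.PP (CarlD_Z B κ t) ≤ 4 * Cc * κ ^ 2 * (B.II (B.bl t) / t ^ 2) ∧
    CarlD_Z B κ t ⊆ B.bl (B.R - 9 * s) := by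
  obtain ⟨a1, a2, -, -, -, a5, a6⟩ := CarlD_frac hκ
  have k0 : 0 < κ := by linarith only [hκ]
  have t0 : 0 < t := lt_of_lt_of_le (by positivity) hs
  have z0 := (CarlD_Zsub B hκ t0.le).1
  have b1 : 1000 * s ≤ t * (1 / κ) := by
    have := mul_le_mul_of_nonneg_right hs a1.le
    have e : 1000 * κ * s * (1 / κ) = 1000 * s * (κ * (1 / κ)) := by ring
    rw [e, a6, mul_one] at this
    exact this
  have b2 : t * (1 - 3 / (4 * κ)) = t - 3 / 4 * (t * (1 / κ)) := by rw [a5]; ring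
  have b3 : 0 < t * (1 / κ) / 2 := half_pos (mul_pos t0 a1)
  have b4 : thickening s (CarlD_Z B κ t) ⊆ B.bl (t * (1 - 3 / (4 * κ)) + 2 * s) := fun x hx => by
    obtain ⟨z, hz, hd⟩ := mem_thickening_iff.1 hx
    rw [CarlD_Z, CarlD_bl B z0] at hz
    rw [CarlD_bl B (by linarith only [z0, s0])]
    rw [dist_eq_norm] at hd
    linarith only [hz, hd, (abs_le.1 (hE.lip x z)).2]
  have b5 : B.PP (thickening s (CarlD_Z B κ t)) ≤ 4 * Cc * κ ^ 2 * (B.II (B.bl t) / t ^ 2) := by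
    refine (B.PP_mono b4).2.1.trans ((hc _ t (by linarith only [z0, s0])
      (by linarith only [b1, b2, b3]) tR).trans ?_)
    refine (div_le_div_of_nonneg_left (mul_nonneg hCc (B.II_mono (Subset.refl _)).1)
      (pow_pos b3 2) (pow_le_pow_left₀ b3.le (by linarith only [b1, b2, b3]) 2)).trans_eq ?_
    field_simp
    norm_num
  exact ⟨b5, (B.PP_mono (self_subset_thickening s0 _)).2.1.trans b5,
    CarlD_bl_mono B z0 (by linarith only [b1, b2, b3, tR])⟩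

theorem CarlD_chain {f : ℝ → ℝ} (hf : ContDiff ℝ 1 f) {ξ : E m} (h0 : ξ ≠ B.ξ₀) :
    DifferentiableAt ℝ (fun x => f (B.lg x)) ξ ∧
      ‖fderiv ℝ (fun x => f (B.lg x)) ξ‖ ≤ |deriv f (B.lg ξ)| * (4 / √(B.r2 ξ)) := by
  obtain ⟨-, -, h1, -, -, h2, -⟩ := B.lg_calc ξ h0
  have h3 := (hf.differentiable one_ne_zero (B.lg ξ)).hasDerivAt.comp_hasFDerivAt ξ
    (h1.differentiableAt two_ne_zero).hasFDerivAt
  refine ⟨h3.differentiableAt, ?_⟩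
  have h4 : fderiv ℝ (fun x => f (B.lg x)) ξ = deriv f (B.lg ξ) • fderiv ℝ B.lg ξ := h3.fderiv
  rw [h4, norm_smul, Real.norm_eq_abs]
  exact mul_le_mul_of_nonneg_left h2 (abs_nonneg _)

theorem CarlD_Yint {f : E m → ℝ} (hf : Measurable f) {M : ℝ} (hM : ∀ x, |f x| ≤ M)
    (h0 : ∀ x, x ∉ B.bl B.R → f x = 0) :
    Integrable f ∧ Integrable (fun y => f (B.ζ y) * (1 - B.d y / 2)) B.μ := by
  refine ⟨?_, CarlD_mul B B.LockA_w hf hM⟩
  have h1 : IntegrableOn f (ball B.ξ₀ B.R) :=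
    Measure.integrableOn_of_bounded (M := M) measure_ball_lt_top.ne hf.aestronglyMeasurable
      (Eventually.of_forall hM)
  refine h1.integrable_of_forall_notMem_eq_zero fun x hx => h0 x fun h => hx ?_
  exact mem_ball_iff_norm.2 (lt_of_pow_lt_pow_left₀ 2 B.R_pos.le ((B.r2_lo x).trans_lt h))

theorem CarlD_Ysum (Q : ℕ) {f f₀ f₁ f₂ : E m → ℝ} (h : ∀ x, f x = -(f₀ x + f₁ x + f₂ x))
    (h₀ : Integrable f₀ ∧ Integrable (fun y => f₀ (B.ζ y) * (1 - B.d y / 2)) B.μ)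
    (h₁ : Integrable f₁ ∧ Integrable (fun y => f₁ (B.ζ y) * (1 - B.d y / 2)) B.μ)
    (h₂ : Integrable f₂ ∧ Integrable (fun y => f₂ (B.ζ y) * (1 - B.d y / 2)) B.μ) :
    B.Y Q f = -(B.Y Q f₀ + B.Y Q f₁ + B.Y Q f₂) := by
  have a1 := ((CarlD_HI.add ⟨h₀.1, rfl⟩ ⟨h₁.1, rfl⟩).add ⟨h₂.1, rfl⟩).cmul (-1)
  have a2 := ((CarlD_HI.add ⟨h₀.2, rfl⟩ ⟨h₁.2, rfl⟩).add ⟨h₂.2, rfl⟩).cmul (-1)
  have e1 : ∫ x, f x = _ := (integral_congr_ae (Eventually.of_forall fun x => by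
    rw [h x]; ring)).trans a1.2
  have e2 : ∫ y, f (B.ζ y) * (1 - B.d y / 2) ∂B.μ = _ :=
    (integral_congr_ae (Eventually.of_forall fun x => by rw [h]; ring)).trans a2.2
  simp only [Lk.Y]
  rw [e1, e2]
  ring

end Geo

end Pool.Agent.MP_f6c0e6_an.Gen

end

section

/-! Three spheres on the base: pointwise bounds. -/

set_option autoImplicit false

open MeasureTheory Filter Topology Set Metric
open scoped ENNReal RealInnerProductSpace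

namespace Pool.Agent.MP_f6c0e6_an.Gen

variable {m N : ℕ} {c : ℝ} {Ω : Type} [MeasurableSpace Ω]

/-- the hypotheses on the parameters and the weights -/
structure CarlD_S (B : Base m c Ω) (Cw C₁ κ g i o : ℝ) (α χ v w : ℝ → ℝ) : Prop where
  hCw : 1 ≤ Cw
  hκ : 10 ≤ κ
  hm : 2 * (m : ℝ) + 2 ≤ κ
  hc : c * B.R ≤ 1 / 4
  hC₁ : 0 ≤ C₁
  hg : 0 ≤ g
  eo : Real.exp o = B.R
  io : i + 4 / κ ≤ o
  hT : 10 * B.T * κ ^ 2 ≤ Real.exp i ^ 2
  wc : Continuous w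
  w0 : ∀ τ, 0 < w τ
  cα : ContDiff ℝ 3 α
  cχ : ContDiff ℝ 1 χ
  cv : ContDiff ℝ 1 v
  zα : ∀ τ, τ ∉ Icc (i - 3 / κ) (o - 2 / κ) → α τ = 0
  zχ : ∀ τ, τ ∉ Icc (i - 2 / κ) (o - 3 / κ) → χ τ = 0
  χ1 : ∀ τ ∈ Icc (i - 1 / κ) (o - 4 / κ), χ τ = 1
  χb : ∀ τ, 0 ≤ χ τ ∧ χ τ ≤ 1 ∧ |deriv χ τ| ≤ Cw * κ
  zv : ∀ τ, τ ∉ Icc (i - 4 / κ) (o - 1 / κ) → v τ = 0
  v2 : ∀ τ ∈ Icc (i - 3 / κ) (o - 2 / κ), v τ ^ 2 = Real.exp τ * w τ
  mono : ∀ τ ∈ Icc (i - 1) o, ∀ τ' ∈ Icc (i - 1) o, τ ≤ τ' →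
    w τ' ≤ w τ ∧ w τ ≤ Real.exp (3 * κ * (τ' - τ)) * w τ'
  bd : ∀ τ ∈ Icc (i - 1) o, |α τ| ≤ w τ ∧ |deriv α τ| ≤ Cw * κ * w τ ∧
    |deriv (deriv α) τ| ≤ Cw * κ ^ 2 * w τ ∧ |deriv (deriv (deriv α)) τ| ≤ Cw * κ ^ 3 * w τ ∧
    v τ ^ 2 ≤ Real.exp τ * w τ ∧ deriv v τ ^ 2 ≤ Cw * κ ^ 2 * (Real.exp τ * w τ)
  mid : ∀ τ ∈ Icc (i - 2 / κ) (o - 3 / κ), α τ = w τ ∧ -3 * κ * α τ ≤ deriv α τ ∧
    deriv α τ ≤ -κ * α τ ∧ (C₁ * κ ^ 2 * Real.exp τ / 4 + g * κ ^ 2 * κ / 2) * α τ ≤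
      deriv (bet1 (m - 2) α) τ + (m - 2) * bet1 (m - 2) α τ -
        2 * bet1 (m - 2) α τ ^ 2 / (-deriv α τ)

/-- the first weight of the middle zone -/
noncomputable def CarlD_mA (B : Base m c Ω) (κ i o : ℝ) (w : ℝ → ℝ) (ξ : E m) : ℝ :=
  CarlD_i (CarlD_sh B (i - 2 / κ) (o - 3 / κ)) ξ * (κ ^ 2 * w (B.lg ξ) / √(B.r2 ξ))

/-- the second weight of the middle zone -/
noncomputable def CarlD_mB (B : Base m c Ω) (κ i o : ℝ) (w : ℝ → ℝ) (ξ : E m) : ℝ :=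
  CarlD_i (CarlD_sh B (i - 2 / κ) (o - 3 / κ)) ξ * (κ ^ 3 * w (B.lg ξ) / B.r2 ξ)

/-- the weight of a boundary zone -/
noncomputable def CarlD_b (B : Base m c Ω) (κ j : ℝ) (w : ℝ → ℝ) (y : Ω) : ℝ :=
  κ * (Real.exp 12 * w j) * (CarlD_i (CarlD_Z B κ (Real.exp j)) (B.ζ y) * (B.d y + B.h y)) +
    κ ^ 3 * (Real.exp 12 * w j) / Real.exp j ^ 2 *
      (CarlD_i (CarlD_Z B κ (Real.exp j)) (B.ζ y) * B.h y)

theorem CarlD_div {κ r x : ℝ} (hκ : 1 ≤ κ) (r0 : 0 < r) (r1 : r ≤ 1) (hx : 0 ≤ x) :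
    κ ^ 2 * x / r ≤ κ ^ 3 * x / r ^ 2 :=
  div_le_div₀ (mul_nonneg (pow_nonneg (zero_le_one.trans hκ) 3) hx)
    (mul_le_mul_of_nonneg_right (pow_le_pow_right₀ hκ (by norm_num)) hx) (pow_pos r0 2)
    (pow_le_of_le_one r0.le r1 two_ne_zero)

namespace CarlD_S

variable {B : Base m c Ω} {Cw C₁ κ g i o : ℝ} {α χ v w : ℝ → ℝ}
  (h : CarlD_S B Cw C₁ κ g i o α χ v w)
include h

theorem k0 : 0 < κ := by linarith only [h.hκ]

theorem k1 : 1 ≤ κ := by linarith only [h.hκ]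

theorem o0 : o < 0 := Real.exp_lt_one_iff.1 (by linarith only [h.eo, B.R_le])

theorem lt {x : ℝ} (hx : 0 < x) : Real.exp (o - x / κ) < B.R ∧ o - x / κ < 0 := by
  have := div_pos hx h.k0
  rw [← h.eo, Real.exp_lt_exp]
  exact ⟨by linarith only [this], by linarith only [this, h.o0]⟩

theorem sub {τ : ℝ} (hτ : τ ∈ Icc (i - 4 / κ) (o - 1 / κ)) : τ ∈ Icc (i - 1) o := by
  obtain ⟨a1, a2, -, -, a4, -⟩ := CarlD_frac h.hκ
  exact ⟨by linarith only [hτ.1, a2, a4], by linarith only [hτ.2, a1]⟩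

theorem sub1 {τ : ℝ} (hτ : τ ∈ Icc (i - 3 / κ) (o - 2 / κ)) : τ ∈ Icc (i - 4 / κ) (o - 1 / κ) := by
  obtain ⟨a1, -, a2, a3, a4, -⟩ := CarlD_frac h.hκ
  exact ⟨by linarith only [hτ.1, a1, a3, a4], by linarith only [hτ.2, a1, a2]⟩

theorem sub2 {τ : ℝ} (hτ : τ ∈ Icc (i - 2 / κ) (o - 3 / κ)) : τ ∈ Icc (i - 3 / κ) (o - 2 / κ) := by
  obtain ⟨a1, -, a2, a3, -⟩ := CarlD_frac h.hκ
  exact ⟨by linarith only [hτ.1, a1, a2, a3], by linarith only [hτ.2, a1, a2, a3]⟩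

theorem io' : i ∈ Icc i o ∧ o ∈ Icc i o := by
  have : i ≤ o := by linarith only [h.io, div_pos four_pos h.k0]
  exact ⟨⟨le_rfl, this⟩, ⟨this, le_rfl⟩⟩

theorem wb {j τ : ℝ} (hj : j ∈ Icc i o) (h1 : j - 4 / κ ≤ τ) (h2 : τ ≤ o) :
    w τ ≤ Real.exp 12 * w j := by
  obtain ⟨a1, a2, -, -, a4, -, a6⟩ := CarlD_frac h.hκ
  have b1 : τ ∈ Icc (i - 1) o := ⟨by linarith only [h1, hj.1, a2, a4], h2⟩
  have b2 : j ∈ Icc (i - 1) o := ⟨by linarith only [hj.1], hj.2⟩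
  rcases le_total τ j with hτ | hτ
  · refine (h.mono τ b1 j b2 hτ).2.trans (mul_le_mul_of_nonneg_right (Real.exp_le_exp.2 ?_)
      (h.w0 j).le)
    have := mul_le_mul_of_nonneg_left (show j - τ ≤ 4 * (1 / κ) by linarith only [h1, a4]) h.k0.le
    linarith only [this, a6]
  · exact (h.mono j b2 τ b1 hτ).1.trans
      (le_mul_of_one_le_left (h.w0 j).le (Real.one_le_exp (by norm_num)))

theorem geo {ξ : E m} (hξ : ξ ∈ CarlD_sh B (i - 4 / κ) (o - 1 / κ)) : 0 < √(B.r2 ξ) ∧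
    √(B.r2 ξ) < B.R ∧ √(B.r2 ξ) ≤ 1 ∧ √(B.r2 ξ) ^ 2 = B.r2 ξ ∧ Real.exp (B.lg ξ) = √(B.r2 ξ) ∧
    Real.exp i ^ 2 ≤ 4 * B.r2 ξ ∧ |B.vr ξ - 1| ≤ 1 / 4 ∧ B.T * κ ^ 2 ≤ B.r2 ξ ∧
    w (B.lg ξ) ≤ Real.exp 12 * w i := by
  obtain ⟨a1, a2, -, -, -, -, a3⟩ := B.lg_calc ξ hξ.1
  have b1 : √(B.r2 ξ) < B.R := a2 ▸ (Real.exp_le_exp.2 hξ.2.2).trans_lt (h.lt one_pos).1
  have b2 : √(B.r2 ξ) ≤ 1 := by linarith only [b1, B.R_le]
  have b3 := CarlD_rad B h.hκ hξ.1 hξ.2.1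
  have b4 := mul_le_mul_of_nonneg_left b1.le (zero_le_one.trans B.c_ge)
  exact ⟨Real.sqrt_pos.2 a1, b1, b2, Real.sq_sqrt a1.le, a2, b3,
    (a3 b2).1.trans (b4.trans h.hc), by linarith only [h.hT, b3, a1],
    h.wb h.io'.1 hξ.2.1 (h.sub hξ.2).2⟩

theorem b_nn (j : ℝ) {y : Ω} (d0 : 0 ≤ B.d y) (h0 : 0 ≤ B.h y) : 0 ≤ CarlD_b B κ j w y := by
  have a1 := mul_pos (Real.exp_pos 12) (h.w0 j)
  exact add_nonneg (mul_nonneg (mul_pos h.k0 a1).le (mul_nonneg (CarlD_i_nn _ _) (add_nonneg d0 h0)))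
    (mul_nonneg (div_nonneg (mul_pos (pow_pos h.k0 3) a1).le (sq_nonneg _))
      (mul_nonneg (CarlD_i_nn _ _) h0))

theorem zone1 {j : ℝ} (hj : j ∈ Icc i o) {y : Ω} (d0 : 0 ≤ B.d y) (h0 : 0 ≤ B.h y)
    (h1 : B.ζ y ≠ B.ξ₀) (h2 : j - 4 / κ ≤ B.lg (B.ζ y)) (h3 : B.lg (B.ζ y) ≤ j - 1 / κ) :
    κ * w (B.lg (B.ζ y)) * B.d y ≤ CarlD_b B κ j w y ∧
      κ ^ 3 * w (B.lg (B.ζ y)) / B.r2 (B.ζ y) * B.h y ≤ 4 * CarlD_b B κ j w y := by
  have a1 := h.wb hj h2 (by linarith only [h3, hj.2, (CarlD_frac h.hκ).1])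
  have a2 := CarlD_rad B h.hκ h1 h2
  have a3 := mul_pos (Real.exp_pos 12) (h.w0 j)
  have a4 : κ ^ 3 * w (B.lg (B.ζ y)) / B.r2 (B.ζ y) ≤
      4 * (κ ^ 3 * (Real.exp 12 * w j) / Real.exp j ^ 2) := by
    refine (div_le_div₀ (mul_pos (pow_pos h.k0 3) a3).le
      (mul_le_mul_of_nonneg_left a1 (pow_pos h.k0 3).le)
      (show 0 < Real.exp j ^ 2 / 4 by positivity) (by linarith only [a2])).trans_eq ?_
    rw [div_div_eq_mul_div, mul_comm _ (4 : ℝ), mul_div_assoc]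
  have a5 := mul_le_mul_of_nonneg_right a4 h0
  have a6 := mul_le_mul_of_nonneg_right (mul_le_mul_of_nonneg_left a1 h.k0.le) d0
  have a7 := mul_nonneg (mul_pos h.k0 a3).le h0
  have a8 := mul_nonneg (mul_pos h.k0 a3).le d0
  have a9 := mul_nonneg (div_nonneg (mul_pos (pow_pos h.k0 3) a3).le (sq_nonneg (Real.exp j))) h0
  rw [CarlD_b, CarlD_i_one (CarlD_inZ B h.hκ h1 h3)]
  generalize κ ^ 3 * (Real.exp 12 * w j) / Real.exp j ^ 2 = x at *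
  generalize κ ^ 3 * w (B.lg (B.ζ y)) / B.r2 (B.ζ y) = x' at *
  exact ⟨by linarith only [a6, a7, a9], by linarith only [a5, a7, a8]⟩

theorem zone {y : Ω} (d0 : 0 ≤ B.d y) (h0 : 0 ≤ B.h y)
    (h1 : B.ζ y ∈ CarlD_sh B (i - 4 / κ) (o - 1 / κ))
    (h2 : B.ζ y ∉ CarlD_sh B (i - 2 / κ) (o - 3 / κ)) :
    κ * w (B.lg (B.ζ y)) * B.d y ≤ CarlD_b B κ i w y + CarlD_b B κ o w y ∧
      κ ^ 3 * w (B.lg (B.ζ y)) / B.r2 (B.ζ y) * B.h y ≤
        4 * (CarlD_b B κ i w y + CarlD_b B κ o w y) := by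
  obtain ⟨a1, -, a2, a3, a4, -⟩ := CarlD_frac h.hκ
  have b1 := h.b_nn i d0 h0
  have b2 := h.b_nn o d0 h0
  by_cases h3 : B.lg (B.ζ y) < i - 2 / κ
  · obtain ⟨c1, c2⟩ := h.zone1 h.io'.1 d0 h0 h1.1 h1.2.1 (by linarith only [h3, a1, a2])
    exact ⟨by linarith only [c1, b2], by linarith only [c2, b2]⟩
  · have h4 : o - 3 / κ < B.lg (B.ζ y) := not_le.1 fun h4 => h2 ⟨h1.1, not_lt.1 h3, h4⟩
    obtain ⟨c1, c2⟩ := h.zone1 h.io'.2 d0 h0 h1.1 (by linarith only [h4, a1, a3, a4]) h1.2.2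
    exact ⟨by linarith only [c1, b1], by linarith only [c2, b1]⟩

theorem m_bd (ξ : E m) : 0 ≤ CarlD_mA B κ i o w ξ ∧ CarlD_mA B κ i o w ξ ≤ CarlD_mB B κ i o w ξ ∧
    CarlD_mB B κ i o w ξ ≤ κ ^ 3 * (Real.exp 12 * w i) / (Real.exp i ^ 2 / 4) := by
  have a3 := mul_pos (pow_pos h.k0 3) (mul_pos (Real.exp_pos 12) (h.w0 i))
  have a4 : 0 < Real.exp i ^ 2 / 4 := by positivity
  by_cases hξ : ξ ∈ CarlD_sh B (i - 2 / κ) (o - 3 / κ)
  · obtain ⟨b1, -, b2, b3, -, b4, -, -, b5⟩ := h.geo ⟨hξ.1, h.sub1 (h.sub2 hξ.2)⟩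
    have b6 := CarlD_div h.k1 b1 b2 (h.w0 (B.lg ξ)).le
    rw [b3] at b6
    rw [CarlD_mA, CarlD_mB, CarlD_i_one hξ, one_mul, one_mul]
    exact ⟨div_nonneg (mul_pos (pow_pos h.k0 2) (h.w0 _)).le b1.le, b6, div_le_div₀ a3.le
      (mul_le_mul_of_nonneg_left b5 (pow_pos h.k0 3).le) a4 (by linarith only [b4])⟩
  · rw [CarlD_mA, CarlD_mB, CarlD_i_zero hξ, zero_mul, zero_mul]
    exact ⟨le_rfl, le_rfl, div_nonneg a3.le a4.le⟩

theorem m_int : Integrable (fun y => CarlD_mA B κ i o w (B.ζ y) * B.h y) B.μ ∧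
    Integrable (fun y => CarlD_mB B κ i o w (B.ζ y) * B.h y) B.μ := by
  have a1 : Measurable (CarlD_i (CarlD_sh B (i - 2 / κ) (o - 3 / κ))) :=
    measurable_one.indicator (CarlD_msh B _ _)
  have a2 := h.wc.measurable.comp (CarlD_mlg B)
  have a3 := B.cr2.continuous.measurable
  exact ⟨CarlD_mul B B.LockA_h (a1.mul ((a2.const_mul _).div a3.sqrt)) fun x =>
      (abs_of_nonneg (h.m_bd x).1).trans_le ((h.m_bd x).2.1.trans (h.m_bd x).2.2),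
    CarlD_mul B B.LockA_h (a1.mul ((a2.const_mul _).div a3)) fun x =>
      (abs_of_nonneg ((h.m_bd x).1.trans (h.m_bd x).2.1)).trans_le (h.m_bd x).2.2⟩

theorem AB {y : Ω} (d0 : 0 ≤ B.d y) (h0 : 0 ≤ B.h y)
    (h1 : B.ζ y ∈ CarlD_sh B (i - 4 / κ) (o - 1 / κ)) :
    κ ^ 2 * w (B.lg (B.ζ y)) / √(B.r2 (B.ζ y)) * B.h y ≤
      CarlD_mA B κ i o w (B.ζ y) * B.h y + 4 * (CarlD_b B κ i w y + CarlD_b B κ o w y) ∧
    κ ^ 3 * w (B.lg (B.ζ y)) / B.r2 (B.ζ y) * B.h y ≤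
      CarlD_mB B κ i o w (B.ζ y) * B.h y + 4 * (CarlD_b B κ i w y + CarlD_b B κ o w y) := by
  have b1 := h.b_nn i d0 h0
  have b2 := h.b_nn o d0 h0
  by_cases h2 : B.ζ y ∈ CarlD_sh B (i - 2 / κ) (o - 3 / κ)
  · rw [CarlD_mA, CarlD_mB, CarlD_i_one h2, one_mul, one_mul]
    exact ⟨by linarith only [b1, b2], by linarith only [b1, b2]⟩
  · obtain ⟨c1, -, c2, c3, -⟩ := h.geo h1
    have c4 := CarlD_div h.k1 c1 c2 (h.w0 (B.lg (B.ζ y))).le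
    rw [c3] at c4
    have c5 := (h.zone d0 h0 h1 h2).2
    simp only [CarlD_mA, CarlD_mB, CarlD_i_zero h2, zero_mul, zero_add]
    exact ⟨(mul_le_mul_of_nonneg_right c4 h0).trans c5, c5⟩

theorem zero {τ : ℝ} (hτ : τ ∉ Icc (i - 3 / κ) (o - 2 / κ)) : α τ = 0 ∧ deriv α τ = 0 ∧
    deriv (deriv α) τ = 0 ∧ deriv (deriv (deriv α)) τ = 0 :=
  ⟨h.zα τ hτ, CarlD_dz h.zα τ hτ, CarlD_dz (CarlD_dz h.zα) τ hτ,
    CarlD_dz (CarlD_dz (CarlD_dz h.zα)) τ hτ⟩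

/-- the lower bound for the main integrand -/
theorem pt1 : ∀ᵐ y ∂B.μ, C₁ / 8 * (CarlD_mA B κ i o w (B.ζ y) * B.h y) +
    g / 4 * (CarlD_mB B κ i o w (B.ζ y) * B.h y) +
    -((80 * c + 28) * Cw) * (CarlD_b B κ i w y + CarlD_b B κ o w y) ≤
    -2 * deriv α (B.lg (B.ζ y)) * B.Nr y +
      4 * bet1 (m - 2) α (B.lg (B.ζ y)) * B.vr (B.ζ y) * B.pt y +
      (deriv (bet1 (m - 2) α) (B.lg (B.ζ y)) + (m - 2) * bet1 (m - 2) α (B.lg (B.ζ y))) *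
        B.vr (B.ζ y) ^ 2 * B.h y / B.r2 (B.ζ y) := by
  filter_upwards [B.ae, B.pt_bd] with y ⟨_, d0, _, h0, _⟩ ⟨n0, n1, n2⟩
  have c0 : 0 ≤ c := zero_le_one.trans B.c_ge
  have C0 : 0 ≤ Cw := zero_le_one.trans h.hCw
  have b0 := add_nonneg (h.b_nn i d0 h0) (h.b_nn o d0 h0)
  have b1 := mul_nonneg (mul_nonneg (show 0 ≤ 80 * c + 28 by linarith only [c0]) C0) b0
  have H0 : 0 ≤ B.h y / B.r2 (B.ζ y) := div_nonneg h0 ((sq_nonneg _).trans (B.r2_lo _))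
  have n3 : B.pt y ^ 2 ≤ B.h y / B.r2 (B.ζ y) * B.Nr y := by rwa [div_mul_eq_mul_div]
  rw [mul_div_assoc]
  by_cases h2 : B.ζ y ∈ CarlD_sh B (i - 2 / κ) (o - 3 / κ)
  · obtain ⟨c1, -, -, c3, c4, -, c5, -⟩ := h.geo ⟨h2.1, h.sub1 (h.sub2 h2.2)⟩
    obtain ⟨e1, -, e2, e3⟩ := h.mid _ h2.2
    have w0 := h.w0 (B.lg (B.ζ y))
    rw [e1] at e2 e3
    rw [c4] at e3
    have k0 := h.k0
    have g0 := h.hg
    have g1 := h.hC₁
    have e4 := CarlD_mid (ϱ := B.vr (B.ζ y))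
      (show 0 < -deriv α (B.lg (B.ζ y)) by linarith only [e2, mul_pos h.k0 w0]) n0 H0 n3
      (by
        have := pow_le_pow_left₀ (by norm_num : (0 : ℝ) ≤ 3 / 4)
          (show 3 / 4 ≤ B.vr (B.ζ y) by linarith only [(abs_le.1 c5).1]) 2
        linarith only [this]) (by positivity) e3
    have e5 : (C₁ * κ ^ 2 * √(B.r2 (B.ζ y)) / 4 + g * κ ^ 2 * κ / 2) * w (B.lg (B.ζ y)) / 2 *
        (B.h y / B.r2 (B.ζ y)) = C₁ / 8 * (κ ^ 2 * w (B.lg (B.ζ y)) / √(B.r2 (B.ζ y)) * B.h y) +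
        g / 4 * (κ ^ 3 * w (B.lg (B.ζ y)) / B.r2 (B.ζ y) * B.h y) := by
      generalize √(B.r2 (B.ζ y)) = r at c1 c3
      rw [← c3]
      field_simp
      ring
    rw [CarlD_mA, CarlD_mB, CarlD_i_one h2, one_mul, one_mul, ← e5]
    linarith only [e4, b1]
  rw [CarlD_mA, CarlD_mB, CarlD_i_zero h2, zero_mul, zero_mul, mul_zero, zero_mul, zero_mul,
    mul_zero, CarlD_bet h.cα, bet1]
  by_cases h3 : B.lg (B.ζ y) ∈ Icc (i - 3 / κ) (o - 2 / κ)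
  · have h4 : B.ζ y ∈ CarlD_sh B (i - 4 / κ) (o - 1 / κ) :=
      CarlD_mem B (h.lt one_pos).2 (h.sub1 h3)
    obtain ⟨-, -, -, -, -, -, c5, -⟩ := h.geo h4
    obtain ⟨-, e1, e2, e3, -⟩ := h.bd _ (h.sub h4.2)
    obtain ⟨z1, z2⟩ := h.zone d0 h0 h4 h2
    have w0 := (h.w0 (B.lg (B.ζ y))).le
    have m0 : (0 : ℝ) ≤ m := Nat.cast_nonneg m
    have e4 := CarlD_bdy (k := (m : ℝ) - 2) (ϱ := B.vr (B.ζ y)) h.k0.le (mul_nonneg C0 w0)
      (abs_le.2 ⟨by linarith only [m0, h.hκ], by linarith only [m0, h.hm]⟩)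
      (e1.trans_eq (by ring)) (e2.trans_eq (by ring)) (e3.trans_eq (by ring)) n0 H0 n3
      (abs_le.2 ⟨by linarith only [(abs_le.1 c5).1], by linarith only [(abs_le.1 c5).2]⟩)
    have e5 := mul_le_mul_of_nonneg_left n1 (mul_nonneg h.k0.le (mul_nonneg C0 w0))
    have e6 := mul_le_mul_of_nonneg_left z1 (mul_nonneg c0 C0)
    rw [div_mul_eq_mul_div, mul_div_assoc] at z2
    have e7 := mul_le_mul_of_nonneg_left z2 C0
    generalize B.h y / B.r2 (B.ζ y) = H at *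
    linarith only [e4, e5, e6, e7]
  · obtain ⟨-, e1, e2, e3⟩ := h.zero h3
    rw [e1, e2, e3]
    linarith only [b1]

/-- the upper bound for the errors -/
theorem pt2 : ∀ᵐ y ∂B.μ, (|α (B.lg (B.ζ y))| + |deriv α (B.lg (B.ζ y))|) *
          (B.T * B.d y + B.h y + √(B.h y * B.d y)) +
        √(B.r2 (B.ζ y)) * |α (B.lg (B.ζ y))| * B.d y +
        (|deriv α (B.lg (B.ζ y))| + |deriv (deriv α) (B.lg (B.ζ y))|) * B.h y / √(B.r2 (B.ζ y)) +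
        (|deriv α (B.lg (B.ζ y))| + |deriv (deriv α) (B.lg (B.ζ y))| +
          |deriv (deriv (deriv α)) (B.lg (B.ζ y))|) * (B.T + B.d y) * B.h y / B.r2 (B.ζ y) ≤
      8 * Cw * (v (B.lg (B.ζ y)) ^ 2 * B.d y) + 9 * Cw * (CarlD_mA B κ i o w (B.ζ y) * B.h y +
        4 * (CarlD_b B κ i w y + CarlD_b B κ o w y)) := by
  filter_upwards [B.ae] with y ⟨_, d0, _, h0, h1, _⟩
  have C0 : 0 ≤ Cw := zero_le_one.trans h.hCw
  by_cases h3 : B.lg (B.ζ y) ∈ Icc (i - 3 / κ) (o - 2 / κ)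
  · have h4 : B.ζ y ∈ CarlD_sh B (i - 4 / κ) (o - 1 / κ) :=
      CarlD_mem B (h.lt one_pos).2 (h.sub1 h3)
    obtain ⟨c1, -, c2, c3, c4, -, -, c5, -⟩ := h.geo h4
    obtain ⟨e0, e1, e2, e3, -⟩ := h.bd _ (h.sub h4.2)
    have w0 := (h.w0 (B.lg (B.ζ y))).le
    have e4 := CarlD_err h.k1 (mul_nonneg C0 w0) (e0.trans (le_mul_of_one_le_left w0 h.hCw))
      (e1.trans_eq (by ring)) (e2.trans_eq (by ring)) (e3.trans_eq (by ring)) c1 c2 B.T_pos.le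
      (c5.trans_eq c3.symm) d0 h0 h1
    have e5 := mul_le_mul_of_nonneg_left (h.AB d0 h0 h4).1 C0
    have e6 : κ ^ 2 * (Cw * w (B.lg (B.ζ y))) / √(B.r2 (B.ζ y)) * B.h y =
        Cw * (κ ^ 2 * w (B.lg (B.ζ y)) / √(B.r2 (B.ζ y)) * B.h y) := by ring
    rw [c3, e6] at e4
    rw [h.v2 _ h3, c4]
    refine e4.trans ?_
    generalize κ ^ 2 * w (B.lg (B.ζ y)) / √(B.r2 (B.ζ y)) = x at *
    linarith only [e5]
  · obtain ⟨e0, e1, e2, e3⟩ := h.zero h3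
    have a1 := mul_nonneg C0 (mul_nonneg (sq_nonneg (v (B.lg (B.ζ y)))) d0)
    have a2 := mul_nonneg C0 (mul_nonneg (h.m_bd (B.ζ y)).1 h0)
    have a3 := mul_nonneg C0 (add_nonneg (h.b_nn i d0 h0) (h.b_nn o d0 h0))
    simp only [e0, e1, e2, e3, abs_zero, add_zero, zero_mul, mul_zero, zero_div]
    linarith only [a1, a2, a3]

theorem test_v : Test 1 (fun ξ => v (B.lg ξ)) B.O ∧
    tsupport (fun ξ => v (B.lg ξ)) ⊆ CarlD_sh B (i - 4 / κ) (o - 1 / κ) := by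
  have := B.test_rad h.cv h.zv (h.lt one_pos).1 (X := fun _ => (1 : ℝ)) fun _ _ => contDiffAt_const
  simp only [smul_eq_mul, mul_one] at this
  exact this

/-- the right side of the Caccioppoli inequality -/
theorem pt3 : ∀ᵐ y ∂B.μ,
    B.h y * (‖fderiv ℝ (fun ξ => v (B.lg ξ)) (B.ζ y)‖ ^ 2 + v (B.lg (B.ζ y)) ^ 2) ≤
      17 * Cw * (CarlD_mA B κ i o w (B.ζ y) * B.h y +
        4 * (CarlD_b B κ i w y + CarlD_b B κ o w y)) := by
  filter_upwards [B.ae] with y ⟨_, d0, _, h0, _⟩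
  have C0 : 0 ≤ Cw := zero_le_one.trans h.hCw
  by_cases h4 : B.ζ y ∈ CarlD_sh B (i - 4 / κ) (o - 1 / κ)
  · obtain ⟨c1, -, c2, -, c4, -⟩ := h.geo h4
    obtain ⟨-, -, -, -, e1, e2⟩ := h.bd _ (h.sub h4.2)
    have w0 := (h.w0 (B.lg (B.ζ y))).le
    have e3 := pow_le_pow_left₀ (norm_nonneg _) (CarlD_chain B h.cv h4.1).2 2
    have e5 := mul_le_mul_of_nonneg_left (h.AB d0 h0 h4).1 C0
    rw [mul_pow, sq_abs] at e3
    rw [c4] at e1 e2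
    generalize √(B.r2 (B.ζ y)) = r at *
    generalize w (B.lg (B.ζ y)) = x at *
    have f1 := mul_le_mul_of_nonneg_right e2 (sq_nonneg (4 / r))
    have f2 : Cw * κ ^ 2 * (r * x) * (4 / r) ^ 2 = 16 * (Cw * (κ ^ 2 * x / r)) := by
      field_simp
      norm_num
    have f3 : r * x ≤ Cw * (κ ^ 2 * x / r) := by
      have g1 : x ≤ κ ^ 2 * x := le_mul_of_one_le_left w0 (one_le_pow₀ h.k1)
      have g2 := le_div_self (w0.trans g1) c1 c2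
      have g3 := le_mul_of_one_le_left ((w0.trans g1).trans g2) h.hCw
      linarith only [g1, g2, g3, mul_le_of_le_one_left w0 c2]
    generalize κ ^ 2 * x / r = z at *
    have f4 := mul_le_mul_of_nonneg_left (add_le_add (e3.trans (f1.trans_eq f2)) (e1.trans f3)) h0
    linarith only [f4, e5]
  · have a0 : B.ζ y ∉ tsupport fun ξ => v (B.lg ξ) := fun hx => h4 (h.test_v.2 hx)
    have a1 : v (B.lg (B.ζ y)) = 0 :=
      image_eq_zero_of_notMem_tsupport (f := fun ξ => v (B.lg ξ)) a0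
    have a2 := mul_nonneg C0 (mul_nonneg (h.m_bd (B.ζ y)).1 h0)
    have a3 := mul_nonneg C0 (add_nonneg (h.b_nn i d0 h0) (h.b_nn o d0 h0))
    rw [a1, fderiv_of_notMem_tsupport ℝ a0, norm_zero]
    linarith only [a2, a3]

/-- the integrand of the localised key lemma -/
theorem pt4 {η Ca : ℝ} (η0 : 0 ≤ η) (η1 : η ≤ 1) (C0 : 0 ≤ Ca) :
    ∀ᵐ y ∂B.μ, B.ζ y ∈ CarlD_sh B (i - 4 / κ) (o - 1 / κ) →
    (η * κ ^ 2 / B.r2 (B.ζ y) + κ / √(B.r2 (B.ζ y))) * (Ca * κ * w (B.lg (B.ζ y))) * B.h y ≤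
      Ca * (η * (CarlD_mB B κ i o w (B.ζ y) * B.h y) + CarlD_mA B κ i o w (B.ζ y) * B.h y +
        8 * (CarlD_b B κ i w y + CarlD_b B κ o w y)) := by
  filter_upwards [B.ae] with y ⟨_, d0, _, h0, _⟩ h4
  obtain ⟨a1, a2⟩ := h.AB d0 h0 h4
  have a3 := mul_le_mul_of_nonneg_right η1 (add_nonneg (h.b_nn i d0 h0) (h.b_nn o d0 h0))
  have a4 := mul_le_mul_of_nonneg_left a2 η0
  have e : (η * κ ^ 2 / B.r2 (B.ζ y) + κ / √(B.r2 (B.ζ y))) * (Ca * κ * w (B.lg (B.ζ y))) * B.h y =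
      Ca * (η * (κ ^ 3 * w (B.lg (B.ζ y)) / B.r2 (B.ζ y) * B.h y) +
        κ ^ 2 * w (B.lg (B.ζ y)) / √(B.r2 (B.ζ y)) * B.h y) := by ring
  rw [e]
  refine mul_le_mul_of_nonneg_left ?_ C0
  generalize κ ^ 3 * w (B.lg (B.ζ y)) / B.r2 (B.ζ y) = x at *
  generalize κ ^ 2 * w (B.lg (B.ζ y)) / √(B.r2 (B.ζ y)) = x' at *
  linarith only [a1, a3, a4]

end CarlD_S

end Pool.Agent.MP_f6c0e6_an.Gen

end

section

/-! Three spheres on the base. -/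

set_option autoImplicit false

open MeasureTheory Filter Topology Set Metric
open scoped ENNReal RealInnerProductSpace

namespace Pool.Agent.MP_f6c0e6_an.Gen

variable {m N : ℕ}

theorem CarlD_fin {C₁ K₀ Ci Cw Cc C₂ K₂ η A Bq D P IF IE V YD Y1 : ℝ} (hCi : 0 ≤ Ci) (hCw : 0 ≤ Cw)
    (hCc : 0 ≤ Cc) (hK₀ : 0 ≤ K₀) (hK₂ : 0 ≤ K₂) (A0 : 0 ≤ A)
    (hC₁ : 8 * (Ci * (136 * Cw ^ 2 * Cc + 9 * Cw) + K₂) ≤ C₁)
    (h1 : C₁ / 8 * A + 4 * (K₂ + 1) * η / 4 * Bq + -K₀ * D ≤ IF) (h2 : |IF - YD| ≤ Ci * IE)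
    (h3 : IE ≤ 8 * Cw * V + 9 * Cw * (A + 4 * D)) (h4 : V ≤ Cc * (17 * Cw * (A + 4 * D)))
    (h5 : YD ≤ -Y1 + C₂ * (2 * Cw) * (4 * Cc * P)) (h6 : -(K₂ * (η * Bq + A + 8 * D)) ≤ Y1)
    (h7 : D ≤ (4 * Cc + 1) * P) :
    η * Bq ≤ ((K₀ + 4 * (Ci * (136 * Cw ^ 2 * Cc + 9 * Cw)) + 8 * K₂) * (4 * Cc + 1) +
      8 * C₂ * Cw * Cc) * P := by
  have a1 := mul_le_mul_of_nonneg_left h3 hCi
  have a2 := mul_le_mul_of_nonneg_left h4 (mul_nonneg hCi hCw)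
  have a3 := mul_le_mul_of_nonneg_right hC₁ A0
  have a4 := mul_le_mul_of_nonneg_left h7
    (show 0 ≤ K₀ + 4 * (Ci * (136 * Cw ^ 2 * Cc + 9 * Cw)) + 8 * K₂ by positivity)
  linarith only [h1, (abs_le.1 h2).2, a1, a2, a3, a4, h5, h6]

theorem CarlD_last {η κ K C u₂ u₁ uR a b I₂ I₁ IR : ℝ} (η0 : 0 < η) (η1 : η ≤ 1) (hκ : 1 ≤ κ)
    (hK : 0 ≤ K) (hC : K + 1 ≤ C) (i1 : 0 ≤ I₁) (iR : 0 ≤ IR) (ha : uR - u₂ ≤ a)
    (hb : u₁ - u₂ ≤ b) (b0 : 0 ≤ b) (h : η * (κ ^ 3 * Real.exp u₂ * (I₂ + -1 * I₁)) ≤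
      K * (κ ^ 3 * (Real.exp u₁ * I₁ + Real.exp uR * IR))) :
    I₂ ≤ C * κ ^ 3 / η * (Real.exp a * IR + Real.exp b * I₁) := by
  have f : ∀ {u x : ℝ}, u - u₂ ≤ x → Real.exp u ≤ Real.exp u₂ * Real.exp x := fun hx => by
    rw [← Real.exp_add, Real.exp_le_exp]
    linarith only [hx]
  have k3 : 1 ≤ κ ^ 3 := one_le_pow₀ hκ
  have k0 : 0 < κ ^ 3 := one_pos.trans_le k3
  have a1 := mul_le_mul_of_nonneg_left (add_le_add (mul_le_mul_of_nonneg_right (f hb) i1)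
    (mul_le_mul_of_nonneg_right (f ha) iR)) (mul_nonneg hK k0.le)
  have a2 := mul_nonneg (Real.exp_pos a).le iR
  have a3 := le_mul_of_one_le_left i1 (Real.one_le_exp b0)
  have a4 : η * (I₂ - I₁) ≤ K * (Real.exp a * IR + Real.exp b * I₁) :=
    le_of_mul_le_mul_left (by linarith only [h, a1]) (mul_pos k0 (Real.exp_pos u₂))
  have a5 := mul_le_of_le_one_left i1 η1
  have a6 := mul_le_mul_of_nonneg_right (hC.trans (le_mul_of_one_le_right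
    (by linarith only [hK, hC]) k3)) (add_nonneg a2 (i1.trans a3))
  rw [div_mul_eq_mul_div, le_div_iff₀ η0]
  linarith only [a2, a3, a4, a5, a6]

section Aux

variable {c : ℝ} {Ω : Type} [MeasurableSpace Ω]

/-- the properties of the weight of the defect -/
structure CarlD_D (B : Base m c Ω) (Cd κ i o : ℝ) (α : ℝ → ℝ) (D : E m → ℝ) : Prop where
  h1 : 1 ≤ Cd
  hR : Cd * B.R ≤ 1 / 8
  cD : ContDiff ℝ 1 D
  sup : tsupport D ⊆ CarlD_sh B (i - 3 / κ) (o - 2 / κ)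
  bd : ∀ ξ, ξ ≠ B.ξ₀ → √(B.r2 ξ) ≤ 1 →
    |D ξ - (m * α (B.lg ξ) + deriv α (B.lg ξ))| ≤
      Cd * √(B.r2 ξ) * (|α (B.lg ξ)| + |deriv α (B.lg ξ)|) ∧
    ‖fderiv ℝ D ξ‖ ≤
      Cd * (|α (B.lg ξ)| + |deriv α (B.lg ξ)| + |deriv (deriv α) (B.lg ξ)|) / √(B.r2 ξ)

namespace CarlD_S

variable {B : Base m c Ω} {Cw C₁ κ g i o Cd : ℝ} {α χ v w : ℝ → ℝ} {D : E m → ℝ}
  (h : CarlD_S B Cw C₁ κ g i o α χ v w) (hD : CarlD_D B Cd κ i o α D)
include h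

theorem b_int (j : ℝ) : CarlD_HI B.μ (CarlD_b B κ j w)
    (κ * (Real.exp 12 * w j) * B.PP (CarlD_Z B κ (Real.exp j)) +
      κ ^ 3 * (Real.exp 12 * w j) / Real.exp j ^ 2 * B.II (CarlD_Z B κ (Real.exp j))) :=
  have _ := h.hκ
  ((CarlD_set B B.LockA_int (CarlD_mbl B _)).cmul _).add
    ((CarlD_set B B.LockA_h (CarlD_mbl B _)).cmul _)

theorem b_le {A Cc s j : ℝ} (hE : B.Ex A) (hCc : 0 ≤ Cc)
    (hc : ∀ a b : ℝ, 0 ≤ a → a < b → b ≤ B.R → B.PP (B.bl a) ≤ Cc * B.II (B.bl b) / (b - a) ^ 2)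
    (s0 : 0 < s) (hs : 1000 * κ * s ≤ Real.exp i) (hj : j ∈ Icc i o) :
    κ * (Real.exp 12 * w j) * B.PP (CarlD_Z B κ (Real.exp j)) +
      κ ^ 3 * (Real.exp 12 * w j) / Real.exp j ^ 2 * B.II (CarlD_Z B κ (Real.exp j)) ≤
      (4 * Cc + 1) * (Real.exp 12 * (κ ^ 3 * (w j / Real.exp j ^ 2 * B.II (B.bl (Real.exp j))))) ∧
    κ * (Real.exp 12 * w j) * B.PP (thickening s (CarlD_Z B κ (Real.exp j))) ≤
      4 * Cc * (Real.exp 12 * (κ ^ 3 * (w j / Real.exp j ^ 2 * B.II (B.bl (Real.exp j))))) ∧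
    CarlD_Z B κ (Real.exp j) ⊆ B.bl (B.R - 9 * s) := by
  obtain ⟨a1, a2, a3⟩ := CarlD_PP B hE hCc hc h.hκ s0 (hs.trans (Real.exp_le_exp.2 hj.1))
    (h.eo ▸ Real.exp_le_exp.2 hj.2)
  have a4 := mul_pos (Real.exp_pos 12) (h.w0 j)
  have a5 := mul_le_mul_of_nonneg_left (B.II_mono (CarlD_Zsub B h.hκ (Real.exp_pos j).le).2).2
    (div_nonneg (mul_pos (pow_pos h.k0 3) a4).le (sq_nonneg (Real.exp j)))
  have a6 := mul_le_mul_of_nonneg_left a1 (mul_pos h.k0 a4).le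
  have a7 := mul_le_mul_of_nonneg_left a2 (mul_pos h.k0 a4).le
  simp only [div_eq_mul_inv _ (Real.exp j ^ 2)] at a5 a6 a7 ⊢
  generalize (Real.exp j ^ 2)⁻¹ = x at *
  exact ⟨by linarith only [a5, a7], by linarith only [a6], a3⟩

theorem v_int : Integrable (fun y => v (B.lg (B.ζ y)) ^ 2 * B.d y) B.μ := by
  obtain ⟨M, hM⟩ := h.test_v.1.smooth.continuous.bounded_above_of_compact_support h.test_v.1.cpt
  refine CarlD_mul B B.LockA_d (φ := fun ξ => v (B.lg ξ) ^ 2) (M := M ^ 2)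
    (h.test_v.1.smooth.continuous.measurable.pow_const 2) fun x => ?_
  rw [abs_pow]
  exact pow_le_pow_left₀ (abs_nonneg _) (hM x) 2

theorem low {L t₂ : ℝ} (h1 : Real.exp i ≤ t₂) (h2 : t₂ ≤ Real.exp (o - 4 / κ))
    (hL : ∀ τ, i ≤ τ → Real.exp τ ≤ t₂ → L ≤ w τ / Real.exp τ ^ 2) :
    κ ^ 3 * L * (B.II (B.bl t₂) + -1 * B.II (B.bl (Real.exp i))) ≤
      ∫ y, CarlD_mB B κ i o w (B.ζ y) * B.h y ∂B.μ := by
  refine (((CarlD_set B B.LockA_h (CarlD_mbl B t₂)).add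
    ((CarlD_set B B.LockA_h (CarlD_mbl B (Real.exp i))).cmul (-1))).cmul _).ge h.m_int.2 ?_
  filter_upwards [B.ae] with y ⟨_, _, _, h0, _⟩
  have a0 := mul_nonneg ((h.m_bd (B.ζ y)).1.trans (h.m_bd (B.ζ y)).2.1) h0
  have a1 := CarlD_bl_mono B (Real.exp_pos i).le h1
  by_cases c1 : B.ζ y ∈ B.bl (Real.exp i)
  · rw [CarlD_i_one c1, CarlD_i_one (a1 c1)]
    linarith only [a0]
  by_cases c2 : B.ζ y ∈ B.bl t₂
  · have b0 : B.ζ y ≠ B.ξ₀ := fun e => c1 (by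
      change B.r2 (B.ζ y) < _
      rw [e, CarlD_r20]
      exact pow_pos (Real.exp_pos i) 2)
    obtain ⟨b1, b2, -⟩ := B.lg_calc _ b0
    rw [CarlD_i_zero c1, CarlD_i_one c2]
    rw [CarlD_bl B (Real.exp_pos i).le, ← b2, Real.exp_lt_exp, not_lt] at c1
    rw [CarlD_bl B ((Real.exp_pos i).le.trans h1), ← b2] at c2
    have b3 := Real.exp_le_exp.1 (c2.le.trans h2)
    obtain ⟨f1, -, f2, f3, f4, -⟩ := CarlD_frac h.hκ
    have b4 := hL _ c1 c2.le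
    rw [b2, Real.sq_sqrt b1.le] at b4
    rw [CarlD_mB, CarlD_i_one (Z := CarlD_sh B (i - 2 / κ) (o - 3 / κ))
      ⟨b0, by linarith only [c1, f1, f2], by linarith only [b3, f1, f3, f4]⟩, mul_div_assoc]
    have b5 := mul_le_mul_of_nonneg_left b4 (mul_nonneg (pow_pos h.k0 3).le h0)
    generalize w (B.lg (B.ζ y)) / B.r2 (B.ζ y) = x at *
    linarith only [b5]
  · rw [CarlD_i_zero c1, CarlD_i_zero c2]
    linarith only [a0]

include hD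

theorem D_bd {ξ : E m} (hξ : ξ ∈ CarlD_sh B (i - 4 / κ) (o - 1 / κ)) :
    |D ξ| ≤ 2 * (Cw * κ * w (B.lg ξ)) ∧
      ‖fderiv ℝ D ξ‖ ≤ 3 * Cd * (Cw * κ ^ 2 * w (B.lg ξ)) / √(B.r2 ξ) ∧
      (B.lg ξ ∈ Icc (i - 2 / κ) (o - 3 / κ) → D ξ ≤ 0) := by
  obtain ⟨c1, c2, c3, -⟩ := h.geo hξ
  obtain ⟨e0, e1, e2, -⟩ := h.bd _ (h.sub hξ.2)
  obtain ⟨d1, d2⟩ := hD.bd ξ hξ.1 c3
  have w0 := (h.w0 (B.lg ξ)).le
  have C0 : 0 ≤ Cd := zero_le_one.trans hD.h1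
  have a1 := d1.trans (mul_le_mul_of_nonneg_right
    ((mul_le_mul_of_nonneg_left c2.le C0).trans hD.hR) (add_nonneg (abs_nonneg _) (abs_nonneg _)))
  have a2 := le_mul_of_one_le_left w0 h.k1
  have a3 := le_mul_of_one_le_left (w0.trans a2) h.hCw
  have a4 := mul_le_mul_of_nonneg_right h.hm w0
  have a5 := abs_le.1 (CarlD_abs (abs_of_nonneg (Nat.cast_nonneg (α := ℝ) m)).le e0)
  have a6 := mul_le_mul_of_nonneg_right (le_self_pow₀ h.k1 two_ne_zero)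
    (mul_nonneg (zero_le_one.trans h.hCw) w0)
  obtain ⟨a7, a8⟩ := abs_le.1 a1
  obtain ⟨a9, a10⟩ := abs_le.1 e1
  refine ⟨abs_le.2 ⟨by linarith only [a7, a5.1, a9, e0, e1, a2, a3, a4, w0],
    by linarith only [a8, a5.2, a10, e0, e1, a2, a3, a4, w0]⟩,
    d2.trans (div_le_div_of_nonneg_right ?_ c1.le), fun hm => ?_⟩
  · have := mul_le_mul_of_nonneg_left (show |α (B.lg ξ)| + |deriv α (B.lg ξ)| +
      |deriv (deriv α) (B.lg ξ)| ≤ 3 * (Cw * κ ^ 2 * w (B.lg ξ)) by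
        linarith only [e0, e1, e2, a2, a3, a6]) C0
    linarith only [this]
  · obtain ⟨b1, b2, b3, -⟩ := h.mid _ hm
    rw [b1] at a8 b2 b3
    rw [abs_of_nonneg w0, abs_of_nonpos (by linarith only [b3, a2, w0])] at a8
    linarith only [a8, b2, b3, a2, a4, w0]

theorem D_or (ξ : E m) : D ξ = 0 ∨ ξ ∈ CarlD_sh B (i - 3 / κ) (o - 2 / κ) := by
  have _ := h.hκ
  by_cases hξ : ξ ∈ tsupport D
  · exact Or.inr (hD.sup hξ)
  · exact Or.inl (image_eq_zero_of_notMem_tsupport hξ)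

theorem u_int {u : E m → ℝ} (hu : Measurable u) (u1 : ∀ x, 0 ≤ u x ∧ u x ≤ 1) :
    Measurable (fun x => u x * -D x) ∧ (∀ x, |u x * -D x| ≤ |D x|) ∧
    (∀ x, |u x * -D x| ≤ 2 * Cw * (κ * (Real.exp 12 * w i))) ∧
    Integrable (fun x => u x * -D x) ∧
      Integrable (fun y => u (B.ζ y) * -D (B.ζ y) * (1 - B.d y / 2)) B.μ := by
  have C0 := mul_nonneg (zero_le_one.trans h.hCw) h.k0.le
  have a1 := hu.mul hD.cD.continuous.measurable.neg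
  have a2 : ∀ x, |u x * -D x| ≤ |D x| := fun x => by
    rw [abs_mul, abs_neg, abs_of_nonneg (u1 x).1]
    exact mul_le_of_le_one_left (abs_nonneg _) (u1 x).2
  have a3 : ∀ x, |u x * -D x| ≤ 2 * Cw * (κ * (Real.exp 12 * w i)) := fun x => by
    refine (a2 x).trans ?_
    rcases h.D_or hD x with hx | hx
    · rw [hx, abs_zero]
      linarith only [mul_nonneg C0 (mul_pos (Real.exp_pos 12) (h.w0 i)).le]
    · have hx' : x ∈ CarlD_sh B (i - 4 / κ) (o - 1 / κ) := ⟨hx.1, h.sub1 hx.2⟩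
      linarith only [(h.D_bd hD hx').1,
        mul_le_mul_of_nonneg_left (h.geo hx').2.2.2.2.2.2.2.2 C0]
  refine ⟨a1, a2, a3, CarlD_Yint B a1 a3 fun x hx => ?_⟩
  rcases h.D_or hD x with h1 | h1
  · rw [h1, neg_zero, mul_zero]
  · exact absurd ((CarlD_bl B B.R_pos.le).2 (h.geo ⟨h1.1, h.sub1 h1.2⟩).2.1) hx

theorem Ysplit {Q : ℕ} {C₂ s : ℝ} (hS : B.S0H Q C₂ s)
    (h1 : CarlD_Z B κ (Real.exp i) ⊆ B.bl (B.R - 9 * s))
    (h2 : CarlD_Z B κ (Real.exp o) ⊆ B.bl (B.R - 9 * s)) :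
    B.Y Q D ≤ -B.Y Q (fun ξ => χ (B.lg ξ) * -D ξ) + C₂ * (2 * Cw) *
      (κ * (Real.exp 12 * w i) * B.PP (thickening s (CarlD_Z B κ (Real.exp i))) +
        κ * (Real.exp 12 * w o) * B.PP (thickening s (CarlD_Z B κ (Real.exp o)))) := by
  have mχ := h.cχ.continuous.measurable.comp (CarlD_mlg B)
  have mi : Measurable (CarlD_i (CarlD_Z B κ (Real.exp i))) :=
    measurable_one.indicator (CarlD_mbl B _)
  have C0 := mul_nonneg (zero_le_one.trans h.hCw) h.k0.le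
  obtain ⟨-, -, -, a0⟩ := h.u_int hD (u := fun ξ => χ (B.lg ξ)) mχ
    fun x => ⟨(h.χb _).1, (h.χb _).2.1⟩
  obtain ⟨a1, -, a2, a3⟩ := h.u_int hD
    (u := fun ξ => CarlD_i (CarlD_Z B κ (Real.exp i)) ξ * (1 - χ (B.lg ξ)))
    (mi.mul (mχ.const_sub 1)) fun x => by
      by_cases hx : x ∈ CarlD_Z B κ (Real.exp i)
      · rw [CarlD_i_one hx]
        exact ⟨by linarith only [(h.χb (B.lg x)).2.1], by linarith only [(h.χb (B.lg x)).1]⟩
      · rw [CarlD_i_zero hx, zero_mul]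
        exact ⟨le_rfl, zero_le_one⟩
  obtain ⟨a4, a5, -, a6⟩ := h.u_int hD
    (u := fun ξ => (1 - CarlD_i (CarlD_Z B κ (Real.exp i)) ξ) * (1 - χ (B.lg ξ)))
    ((mi.const_sub 1).mul (mχ.const_sub 1)) fun x => by
      by_cases hx : x ∈ CarlD_Z B κ (Real.exp i)
      · rw [CarlD_i_one hx, sub_self, zero_mul]
        exact ⟨le_rfl, zero_le_one⟩
      · rw [CarlD_i_zero hx]
        exact ⟨by linarith only [(h.χb (B.lg x)).2.1], by linarith only [(h.χb (B.lg x)).1]⟩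
  have b0 : ∀ x, (1 - CarlD_i (CarlD_Z B κ (Real.exp i)) x) * (1 - χ (B.lg x)) * -D x = 0 ∨
      (x ∈ CarlD_Z B κ (Real.exp o) ∧ |D x| ≤ 2 * Cw * (κ * (Real.exp 12 * w o))) := fun x => by
    by_cases hx : x ∈ CarlD_Z B κ (Real.exp i)
    · exact Or.inl (by rw [CarlD_i_one hx, sub_self, zero_mul, zero_mul])
    rcases h.D_or hD x with c1 | c1
    · exact Or.inl (by rw [c1, neg_zero, mul_zero])
    have c2 : x ∈ CarlD_sh B (i - 4 / κ) (o - 1 / κ) := ⟨c1.1, h.sub1 c1.2⟩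
    by_cases c3 : B.lg x ≤ o - 4 / κ
    · exact Or.inl (by rw [h.χ1 _ ⟨(not_le.1 fun c4 => hx (CarlD_inZ B h.hκ c1.1 c4)).le, c3⟩,
        sub_self, mul_zero, zero_mul])
    · refine Or.inr ⟨CarlD_inZ B h.hκ c1.1 c2.2.2, ?_⟩
      linarith only [(h.D_bd hD c2).1, mul_le_mul_of_nonneg_left
        (h.wb h.io'.2 (not_le.1 c3).le (h.sub c2.2).2) C0]
  have b1 := hS _ _ (CarlD_Z B κ (Real.exp i)) a1 a2 (CarlD_mbl B _) h1 fun x hx => by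
    rw [CarlD_i_zero hx, zero_mul, zero_mul]
  have b2 := hS _ (2 * Cw * (κ * (Real.exp 12 * w o))) (CarlD_Z B κ (Real.exp o)) a4 (fun x => by
    rcases b0 x with hx | hx
    · rw [hx, abs_zero]
      linarith only [mul_nonneg C0 (mul_pos (Real.exp_pos 12) (h.w0 o)).le]
    · exact (a5 x).trans hx.2) (CarlD_mbl B _) h2 fun x hx => (b0 x).resolve_right fun c => hx c.1
  rw [CarlD_Ysum B Q (f := D) (fun x => by ring) a0 a3 a6]
  linarith only [(abs_le.1 b1).1, (abs_le.1 b2).1]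

theorem W_prop : ContDiff ℝ 1 (fun ξ => χ (B.lg ξ) * -D ξ) ∧ (∀ ξ, 0 ≤ χ (B.lg ξ) * -D ξ) ∧
    tsupport (fun ξ => χ (B.lg ξ) * -D ξ) ⊆ CarlD_sh B (i - 2 / κ) (o - 3 / κ) ∧
    ∀ ξ, ξ ≠ B.ξ₀ → B.lg ξ ∈ Icc (i - 2 / κ) (o - 3 / κ) →
      χ (B.lg ξ) * -D ξ ≤ (8 * Cw ^ 2 + 3 * Cd * Cw) * κ * w (B.lg ξ) ∧
      ‖fderiv ℝ (fun ξ => χ (B.lg ξ) * -D ξ) ξ‖ ≤
        κ * ((8 * Cw ^ 2 + 3 * Cd * Cw) * κ * w (B.lg ξ)) / √(B.r2 ξ) := by
  obtain ⟨a1, a2⟩ := B.test_rad h.cχ h.zχ (h.lt three_pos).1 (X := fun ξ => -D ξ)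
    fun _ _ => hD.cD.neg.contDiffAt
  refine ⟨a1.smooth, fun ξ => ?_, a2, fun ξ h0 h1 => ?_⟩
  · by_cases h1 : B.lg ξ ∈ Icc (i - 2 / κ) (o - 3 / κ)
    · exact mul_nonneg (h.χb _).1 (neg_nonneg.2 ((h.D_bd hD
        (CarlD_mem B (h.lt one_pos).2 (h.sub1 (h.sub2 h1)))).2.2 h1))
    · rw [h.zχ _ h1, zero_mul]
  have hξ : ξ ∈ CarlD_sh B (i - 4 / κ) (o - 1 / κ) := ⟨h0, h.sub1 (h.sub2 h1)⟩
  obtain ⟨b1, b2, b3⟩ := h.D_bd hD hξ
  obtain ⟨c1, c2, c3⟩ := h.χb (B.lg ξ)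
  obtain ⟨d1, d2⟩ := CarlD_chain B h.cχ h0
  have r0 := (h.geo hξ).1
  have u0 := mul_nonneg (mul_nonneg (zero_le_one.trans h.hCw) h.k0.le) (h.w0 (B.lg ξ)).le
  refine ⟨?_, ?_⟩
  · have e1 := mul_le_of_le_one_left (neg_nonneg.2 (b3 h1)) c2
    have e2 := le_mul_of_one_le_left u0 h.hCw
    have e3 := mul_nonneg (zero_le_one.trans hD.h1) u0
    linarith only [e1, e2, e3, u0, (abs_le.1 b1).1]
  · have e1 := (d1.hasFDerivAt.mul
      (hD.cD.differentiable one_ne_zero ξ).hasFDerivAt.neg).fderiv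
    have e2 : fderiv ℝ (fun ξ => χ (B.lg ξ) * -D ξ) ξ = _ := e1
    rw [e2]
    refine (norm_add_le _ _).trans ?_
    rw [norm_smul, norm_smul, norm_neg, Real.norm_of_nonneg c1, Pi.neg_apply, norm_neg,
      Real.norm_eq_abs]
    have e3 := mul_le_of_le_one_left (norm_nonneg (fderiv ℝ D ξ)) c2
    have e4 := mul_le_mul b1 (d2.trans (mul_le_mul_of_nonneg_right c3
      (div_nonneg zero_le_four r0.le))) (norm_nonneg _) (mul_nonneg zero_le_two u0)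
    simp only [div_eq_mul_inv _ √(B.r2 ξ)] at b2 e4 ⊢
    generalize (√(B.r2 ξ))⁻¹ = x at *
    linarith only [b2, e3, e4]

omit hD in
theorem ratio {Ca : ℝ} (C0 : 0 ≤ Ca) :
    ∀ τ ∈ Icc (i - 2 / κ - 1 / κ) (o - 3 / κ + 1 / κ),
      ∀ τ' ∈ Icc (i - 2 / κ - 1 / κ) (o - 3 / κ + 1 / κ),
      Ca * κ * w τ ≤ Real.exp (3 * κ * |τ - τ'|) * (Ca * κ * w τ') := fun τ h1 τ' h2 => by
  obtain ⟨f1, f2, f3, f4, -⟩ := CarlD_frac h.hκ
  have a1 : τ ∈ Icc (i - 1) o :=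
    ⟨by linarith only [h1.1, f2, f3], by linarith only [h1.2, f1, f4]⟩
  have a2 : τ' ∈ Icc (i - 1) o :=
    ⟨by linarith only [h2.1, f2, f3], by linarith only [h2.2, f1, f4]⟩
  rw [mul_left_comm]
  refine mul_le_mul_of_nonneg_left ?_ (mul_nonneg C0 h.k0.le)
  rcases le_total τ τ' with c | c
  · rw [abs_sub_comm, abs_of_nonneg (sub_nonneg.2 c)]
    exact (h.mono τ a1 τ' a2 c).2
  · exact (h.mono τ' a2 τ a1 c).1.trans (le_mul_of_one_le_left (h.w0 _).le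
      (Real.one_le_exp (mul_nonneg (mul_pos three_pos h.k0).le (abs_nonneg _))))

omit hD in
theorem loc {η Ca D₀ : ℝ} (η0 : 0 ≤ η) (η1 : η ≤ 1) (C0 : 0 ≤ Ca)
    (hb : CarlD_HI B.μ (fun y => CarlD_b B κ i w y + CarlD_b B κ o w y) D₀) :
    ∫ y in B.ζ ⁻¹' CarlD_sh B (i - 2 / κ - 1 / κ) (o - 3 / κ + 1 / κ),
      (η * κ ^ 2 / B.r2 (B.ζ y) + κ / √(B.r2 (B.ζ y))) * (Ca * κ * w (B.lg (B.ζ y))) * B.h y ∂B.μ ≤
      Ca * (η * (∫ y, CarlD_mB B κ i o w (B.ζ y) * B.h y ∂B.μ) +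
        (∫ y, CarlD_mA B κ i o w (B.ζ y) * B.h y ∂B.μ) + 8 * D₀) := by
  rw [← integral_indicator (B.mζ (CarlD_msh B _ _))]
  refine ((((CarlD_HI.cmul ⟨h.m_int.2, rfl⟩ η).add ⟨h.m_int.1, rfl⟩).add (hb.cmul 8)).cmul Ca).le ?_
  filter_upwards [B.ae, h.pt4 η0 η1 C0] with y ⟨_, d0, _, h0, _⟩ hy
  obtain ⟨f1, -, f3, f4, f5, -⟩ := CarlD_frac h.hκ
  by_cases c : y ∈ B.ζ ⁻¹' CarlD_sh B (i - 2 / κ - 1 / κ) (o - 3 / κ + 1 / κ)
  · rw [indicator_of_mem c]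
    refine ⟨mul_nonneg (mul_nonneg (add_nonneg (div_nonneg (mul_nonneg η0 (sq_nonneg _))
      ((sq_nonneg _).trans (B.r2_lo _))) (div_nonneg h.k0.le (Real.sqrt_nonneg _)))
      (mul_nonneg (mul_nonneg C0 h.k0.le) (h.w0 _).le)) h0, hy ⟨c.1, ?_, ?_⟩⟩
    · linarith only [c.2.1, f1, f3, f5]
    · linarith only [c.2.2, f1, f4]
  · rw [indicator_of_notMem c]
    obtain ⟨m1, m2, -⟩ := h.m_bd (B.ζ y)
    exact ⟨le_rfl, mul_nonneg C0 (add_nonneg (add_nonneg (mul_nonneg η0 (mul_nonneg (m1.trans m2) h0))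
      (mul_nonneg m1 h0)) (mul_nonneg (by norm_num) (add_nonneg (h.b_nn i d0 h0) (h.b_nn o d0 h0))))⟩

end CarlD_S

end Aux

/-- Take the weights for `k = m - 2`, `i = log t₁`, `o = log R`, `lam = C₃ η κ²`, and let
`α₀ = exp (om (lg))`, `r = √r2`, `W = - dv (α (lg) • X0)`. Zones: inner `i - 4 / κ ≤ lg < i - 1 / κ`
(inside `bl t₁`), outer `o - 4 / κ < lg ≤ o - 1 / κ`, middle `i - 2 / κ ≤ lg ≤ o - 3 / κ`.
1. In the middle the integrand of `carl_id` is at least `(C₁ κ² r / 8 + lam κ / 4) α₀ h / r2`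
(`pt_bd`, `vr² ≥ 1 / 2`); elsewhere it is at least `- C (κ α₀ d + κ³ α₀ h / r2)`, where the energy of
the zones is bounded by the third part of `cacc` and `α₀ ≤ exp 12 * α₀ (i)`, resp. `α₀ (o)`.
2. The errors of `carl_id` are at most `C (r α₀ d + κ² r α₀ h / r2)` (`κ √(h d) ≤ κ² h / r + r d`,
`h ≤ T²`), and `∫ r α₀ d ≤ C κ² ∫ r α₀ h / r2` by `cacc` with `g = v (lg)` (`test_rad`).
3. `Y W = Y (χ W) + Y ((1 - χ) W)`: `χ W ≥ 0` (`dv_rad`), `localise` with `a = C κ exp om`; the second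
weight is a sum of two weights in the inner and the outer zone, `S0H`.
The constants of 2 and 3 do not depend on `C₁` and `C₃`, which are chosen to absorb the middle
parts. On `bl t₂ \ bl t₁`, `α₀ / r2 ≥ exp (- 2 κ tl t₂)` (`om_eq`). -/
theorem Base.three_base (m : ℕ) (c C₂ : ℝ) (hC₂ : 0 ≤ C₂) : ∃ C₁ κ₀ C : ℝ, 1 ≤ C₁ ∧ 10 ≤ κ₀ ∧ 1 ≤ C ∧
    ∀ {Ω : Type} [MeasurableSpace Ω] (B : Base m c Ω) (Q : ℕ) (A η s κ t₁ t₂ : ℝ), B.Ex A →
    B.KLH Q C₂ η s → B.S0H Q C₂ s → 0 < η → η ≤ 1 → κ₀ ≤ κ → B.R ≤ 1 / (4 * C₁) → 0 < s →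
    1000 * κ * s ≤ t₁ → t₁ ≤ t₂ → t₂ ≤ B.R * Real.exp (-4 / κ) → 10 * B.T * κ ^ 2 ≤ t₁ ^ 2 →
    C * η * κ * (Real.log (B.R / t₁) + 1) ≤ 1 →
    B.II (B.bl t₂) ≤ C * κ ^ 3 / η *
      (Real.exp (-2 * κ * (tl C₁ B.R - tl C₁ t₂)) * B.II (B.bl B.R) +
        Real.exp (2 * κ * (tl C₁ t₂ - tl C₁ t₁) + C * η * κ ^ 2 * Real.log (B.R / t₁) ^ 2) *
          B.II (B.bl t₁)) := by
  rcases lt_or_ge c 1 with hc | hc
  · exact ⟨1, 10, 1, le_rfl, le_rfl, le_rfl, fun B => absurd B.c_ge (not_le.2 hc)⟩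
  obtain ⟨Cw, hCw, hw⟩ := exists_weights
  obtain ⟨Ci, hCi, hid⟩ := Base.carl_id m c
  obtain ⟨Cd, hCd, hdv⟩ := Base.dv_rad m c
  obtain ⟨Cc, hCc, hcc⟩ := Base.cacc m c
  obtain ⟨Cl, hCl, hloc⟩ := Base.localise m
  have z := zero_le_one (α := ℝ)
  have p1 := z.trans hCw
  have p2 := z.trans hCi
  have p3 := z.trans hCd
  have p4 := z.trans hCc
  have p5 := z.trans hCl
  have p6 := z.trans hc
  have m0 : (0 : ℝ) ≤ m := Nat.cast_nonneg m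
  have hCa : 0 < 8 * Cw ^ 2 + 3 * Cd * Cw := by positivity
  obtain ⟨K₂, eK₂⟩ : ∃ K₂, K₂ = Cl * C₂ * (8 * Cw ^ 2 + 3 * Cd * Cw) := ⟨_, rfl⟩
  have hK₂ : 0 ≤ K₂ := by rw [eK₂]; positivity
  have hK₁ : 0 ≤ Ci * (136 * Cw ^ 2 * Cc + 9 * Cw) := by positivity
  obtain ⟨C₁, eC₁⟩ : ∃ C₁, C₁ = 8 * (Ci * (136 * Cw ^ 2 * Cc + 9 * Cw) + K₂) + 2 * Cd + c :=
    ⟨_, rfl⟩
  obtain ⟨K, eK⟩ : ∃ K, K = (((80 * c + 28) * Cw + 4 * (Ci * (136 * Cw ^ 2 * Cc + 9 * Cw)) +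
    8 * K₂) * (4 * Cc + 1) + 8 * C₂ * Cw * Cc) * Real.exp 12 := ⟨_, rfl⟩
  have hK : 0 ≤ K := by rw [eK]; positivity
  have hC₁ : 1 ≤ C₁ := by linarith only [eC₁, hK₁, hK₂, p3, hc]
  refine ⟨C₁, 2 * m + 10, K + 1 + 8 * (K₂ + 1), hC₁, by linarith only [m0],
    by linarith only [hK, hK₂], ?_⟩
  intro Ω _ B Q A η s κ t₁ t₂ hE hKL hS η0 η1 hκ hR s0 hs h12 h2R hT hη
  have k10 : 10 ≤ κ := by linarith only [hκ, m0]
  have k0 : 0 < κ := by linarith only [k10]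
  have t0 : 0 < t₁ := lt_of_lt_of_le (by positivity) hs
  have R0 := B.R_pos
  obtain ⟨f1, f2, f3, f4, f5, -⟩ := CarlD_frac k10
  have eR : C₁ * B.R ≤ 1 / 4 := by
    rw [le_div_iff₀ (by linarith only [hC₁])] at hR
    linarith only [hR]
  have e1 := Real.exp_log t0
  have e2 := Real.exp_log R0
  have e3 : t₂ ≤ Real.exp (Real.log B.R - 4 / κ) := by
    rwa [sub_eq_add_neg, Real.exp_add, e2, ← neg_div]
  have e4 : Real.log t₁ + 4 / κ ≤ Real.log B.R := by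
    linarith only [(Real.log_le_iff_le_exp t0).2 (h12.trans e3)]
  have e5 : t₂ ≤ B.R := e3.trans ((Real.exp_le_exp.2 (by linarith only [f1, f5])).trans_eq e2)
  have g0 : 0 ≤ 4 * (K₂ + 1) * η := by positivity
  have l0 : 0 ≤ 4 * (K₂ + 1) * η * κ ^ 2 := by positivity
  rw [Real.log_div R0.ne' t0.ne'] at hη ⊢
  obtain ⟨α, χ, v, w1, w2, w3, w4, w5, w6, w7, w8, w9, w10, w11, w12⟩ := hw (m - 2) C₁ κ
    (4 * (K₂ + 1) * η * κ ^ 2) (Real.log t₁) (Real.log B.R) (z.trans hC₁) k10 l0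
    (by linarith only [e4, f1, f4, f5]) (by rw [e2]; exact eR) (by
      have a1 := mul_le_mul_of_nonneg_left hη k0.le
      have a2 := mul_nonneg (show 0 ≤ (K + 1) * η * κ ^ 2 by positivity)
        (show 0 ≤ Real.log B.R - Real.log t₁ + 1 by linarith only [e4, f1, f5])
      linarith only [a1, a2])
  have h : CarlD_S B Cw C₁ κ (4 * (K₂ + 1) * η) (Real.log t₁) (Real.log B.R) α χ v
      fun τ => Real.exp (om C₁ κ (4 * (K₂ + 1) * η * κ ^ 2) (Real.log B.R) τ) :=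
    { hCw := hCw
      hκ := k10
      hm := by linarith only [hκ]
      hc := (mul_le_mul_of_nonneg_right (by linarith only [eC₁, hK₁, hK₂, p3]) R0.le).trans eR
      hC₁ := z.trans hC₁
      hg := g0
      eo := e2
      io := e4
      hT := by rw [e1]; exact hT
      wc := by unfold om; fun_prop
      w0 := fun _ => Real.exp_pos _
      cα := w1
      cχ := w2
      cv := w3
      zα := w4
      zχ := w5
      χ1 := w6
      χb := w7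
      zv := w8
      v2 := fun τ hτ => by rw [w9 τ hτ, Real.exp_add]
      mono := fun τ hτ τ' hτ' hh => by
        rw [← Real.exp_add, Real.exp_le_exp, Real.exp_le_exp, add_comm (3 * κ * _)]
        exact w10 τ hτ τ' hτ' hh
      bd := fun τ hτ => by
        rw [← Real.exp_add]
        exact w11 τ hτ
      mid := w12 }
  have o1 := om_eq C₁ κ (4 * (K₂ + 1) * η * κ ^ 2) (Real.log B.R) t0
  have o2 := om_eq C₁ κ (4 * (K₂ + 1) * η * κ ^ 2) (Real.log B.R) R0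
  have s7 := h.low (L := Real.exp (-2 * κ * tl C₁ t₂)) (e1.trans_le h12) e3 fun τ _ h2 => by
    have a1 := om_eq C₁ κ (4 * (K₂ + 1) * η * κ ^ 2) (Real.log B.R) (Real.exp_pos τ)
    have a2 := mul_le_mul_of_nonneg_left (CarlD_tl (C := C₁) (Real.exp_pos τ) h2 (by
      linarith only [eR, mul_le_mul_of_nonneg_left e5 (z.trans hC₁)])) k0.le
    rw [Real.log_exp] at a1
    rw [a1, Real.exp_le_exp]
    linarith only [a2, mul_nonneg l0 (sq_nonneg (τ - Real.log B.R))]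
  obtain ⟨i1, i2⟩ := hid B Q α _ _ w1 w4 (h.lt two_pos).1
  obtain ⟨d1, d2, d3⟩ := hdv B α _ _ w1 w4 (h.lt two_pos).1
  have hD : CarlD_D B Cd κ (Real.log t₁) (Real.log B.R) α (dv fun ξ => α (B.lg ξ) • B.X0 ξ) :=
    ⟨hCd, by
      have := mul_le_mul_of_nonneg_right
        (show 2 * Cd ≤ C₁ by linarith only [eC₁, hK₁, hK₂, p6]) R0.le
      linarith only [this, eR], d1, d2, d3⟩
  clear w1 w2 w3 w4 w5 w6 w7 w8 w9 w10 w11 w12 d1 d2 d3 hw hid hdv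
  obtain ⟨c1, -, c3⟩ := hcc B
  obtain ⟨b1, b2, b3⟩ := h.b_le hE p4 c3 s0 (hs.trans_eq e1.symm) h.io'.1
  obtain ⟨b4, b5, b6⟩ := h.b_le hE p4 c3 s0 (hs.trans_eq e1.symm) h.io'.2
  have hb := (h.b_int (Real.log t₁)).add (h.b_int (Real.log B.R))
  have s5 := (h.Ysplit hD hS b3 b6).trans (add_le_add le_rfl (mul_le_mul_of_nonneg_left
    ((add_le_add b2 b5).trans_eq (mul_add _ _ _).symm) (by positivity)))
  have s8 := (add_le_add b1 b4).trans_eq (mul_add _ _ _).symm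
  obtain ⟨x1, x2, x3, x4⟩ := h.W_prop hD
  have s6 := hloc B Q A C₂ η s κ _ _ _ _ hE hKL hC₂ η0.le k10 (by
      have a1 := Real.add_one_le_exp (-(2 / κ))
      have a2 := mul_le_mul_of_nonneg_left a1 t0.le
      have a3 := mul_le_mul_of_nonneg_left f2 t0.le
      rw [sub_eq_add_neg, Real.exp_add, e1]
      rw [f3] at a2 ⊢
      linarith only [a2, a3, hs, t0])
    ((Real.exp_le_exp.2 (by linarith only [f1, f4])).trans_eq e2) x1 x2 x3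
    (h.wc.const_mul _) (fun τ => mul_pos (mul_pos hCa k0) (h.w0 τ)) (h.ratio hCa.le) x4
  have s6' := (neg_le_neg (mul_le_mul_of_nonneg_left (h.loc η0.le η1 hCa.le hb)
    (mul_nonneg p5 hC₂))).trans s6
  rw [← mul_assoc, ← eK₂] at s6'
  have hA := (CarlD_HI.add ⟨h.m_int.1, rfl⟩ (hb.cmul 4))
  have s1 := (((CarlD_HI.cmul ⟨h.m_int.1, rfl⟩ _).add (CarlD_HI.cmul ⟨h.m_int.2, rfl⟩ _)).add
    (hb.cmul _)).ge i1 h.pt1
  have s3 := ((CarlD_HI.cmul ⟨h.v_int, rfl⟩ (8 * Cw)).add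
    (hA.cmul (9 * Cw))).le (by
      filter_upwards [B.ae, h.pt2] with y ⟨_, d0, _, h0, _⟩ hy
      have T0 := B.T_pos.le
      have r0 := (sq_nonneg _).trans (B.r2_lo (B.ζ y))
      exact ⟨by positivity, hy⟩)
  have s4 := (c1 _ h.test_v.1).trans (mul_le_mul_of_nonneg_left ((hA.cmul (17 * Cw)).le (by
      filter_upwards [B.ae, h.pt3] with y ⟨_, d0, _, h0, _⟩ hy
      exact ⟨by positivity, hy⟩)) p4)
  have s9 := CarlD_fin p2 p1 p4 (by positivity) hK₂ (integral_nonneg_of_ae (B.ae.mono fun y hy =>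
    mul_nonneg (h.m_bd _).1 hy.2.2.2.1)) (by linarith only [eC₁, p3, p6]) s1 i2 s3 s4 s5 s6' s8
  rw [e1] at s7
  rw [e1, e2, o1, o2, ← mul_add, ← mul_add, ← mul_assoc, ← eK] at s9
  have q1 := mul_le_mul_of_nonneg_left (CarlD_tl (C := C₁) t0 h12 (by
    linarith only [eR, mul_le_mul_of_nonneg_left e5 (z.trans hC₁)])) k0.le
  have q2 : 0 ≤ η * κ ^ 2 * (Real.log B.R - Real.log t₁) ^ 2 := by positivity
  have q3 := mul_nonneg hK q2
  have q4 := mul_nonneg hK₂ q2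
  exact CarlD_last η0 η1 h.k1 hK (by linarith only [hK₂]) (B.II_mono (Subset.refl _)).1
    (B.II_mono (Subset.refl _)).1 (by linarith only []) (by linarith only [q2, q3, q4])
    (by linarith only [q1, q2, q3, q4]) ((mul_le_mul_of_nonneg_left s7 η0.le).trans s9)

end Pool.Agent.MP_f6c0e6_an.Gen

end

section

/-! The numerical consequence of the three spheres inequality. -/

set_option autoImplicit false

open MeasureTheory Filter Topology Set Metric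
open scoped ENNReal RealInnerProductSpace

namespace Pool.Agent.MP_f6c0e6_an.Gen

variable {m N : ℕ}

theorem IterB_log {x y : ℝ} (hx : 0 < x) (hy : 0 < y) : Real.log y - Real.log x ≤ (y - x) / x := by
  rw [← Real.log_div hy.ne' hx.ne', sub_div, div_self hx.ne']
  exact Real.log_le_sub_one_of_pos (div_pos hy hx)

theorem IterB_tl_le {C x y : ℝ} (hC : 1 ≤ C) (hxy : x ≤ y) :
    tl C y - tl C x ≤ Real.log y - Real.log x := by
  unfold tl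
  linarith only [mul_le_mul_of_nonneg_left hxy (zero_le_one.trans hC)]

theorem IterB_tl_ge {C x y : ℝ} (hC : 1 ≤ C) (hx : 0 < x) (hxy : x ≤ y) (hy : y ≤ 1 / (4 * C)) :
    3 / 4 * (Real.log y - Real.log x) ≤ tl C y - tl C x := by
  have hy0 : 0 < y := hx.trans_le hxy
  have h1 := IterB_log hy0 hx
  rw [le_div_iff₀ (by positivity)] at hy
  have h2 : (x - y) / y ≤ 4 * (C * (x - y)) := by
    rw [div_le_iff₀ hy0]
    have h3 : 0 ≤ (y - x) * (1 - y * (4 * C)) := mul_nonneg (sub_nonneg.2 hxy)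
      (by linarith only [hy])
    linarith only [h3]
  unfold tl
  linarith only [h1, h2]

theorem IterB_ev (θ c D : ℝ) (hθ : 0 < θ) : ∃ L₀ : ℝ, ∀ L, L₀ ≤ L → 10 ≤ L ∧
    18 * L ^ 2 ≤ Real.exp (L / 2) ∧ 4 * (c + 28 * Real.log L) ≤ √L ∧ D ≤ L ∧ D ≤ L ^ (θ / 2) := by
  have h1 : ∀ᶠ L : ℝ in atTop, 18 * L ^ 2 ≤ Real.exp (L / 2) := by
    have := (Real.isLittleO_pow_exp_atTop (n := 2)).comp_tendsto
      (tendsto_id.atTop_div_const (by norm_num : (0 : ℝ) < 2))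
    filter_upwards [this.bound (by norm_num : (0 : ℝ) < 1 / 72)] with L hL
    simp only [Function.comp, id, Real.norm_eq_abs, abs_of_pos (Real.exp_pos _),
      abs_of_nonneg (sq_nonneg (L / 2))] at hL
    linarith
  have h2 : ∀ᶠ L : ℝ in atTop, 300 * Real.log L ≤ √L := by
    filter_upwards [(isLittleO_log_rpow_atTop (by norm_num : (0 : ℝ) < 1 / 2)).bound
      (by norm_num : (0 : ℝ) < 1 / 300), eventually_ge_atTop (0 : ℝ)] with L hL h0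
    rw [Real.norm_of_nonneg (Real.rpow_nonneg h0 _), ← Real.sqrt_eq_rpow, Real.norm_eq_abs] at hL
    linarith [le_abs_self (Real.log L)]
  have h3 : ∀ᶠ L : ℝ in atTop, 8 * c ≤ √L := Real.tendsto_sqrt_atTop.eventually_ge_atTop _
  have h4 : ∀ᶠ L : ℝ in atTop, D ≤ L ^ (θ / 2) :=
    (tendsto_rpow_atTop (half_pos hθ)).eventually_ge_atTop _
  obtain ⟨L₀, h⟩ := eventually_atTop.1 ((eventually_ge_atTop (10 : ℝ)).and (h1.and
    ((h2.and h3).and ((eventually_ge_atTop D).and h4))))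
  refine ⟨L₀, fun L hL => ?_⟩
  obtain ⟨a, b, ⟨c1, c2⟩, d, e⟩ := h L hL
  exact ⟨a, b, by linarith [Real.sqrt_nonneg L], d, e⟩

theorem IterB_exp {C C₀ L k W w u2 X IR I1 I2 : ℝ} (hC : 1 ≤ C) (hC₀ : 1 ≤ C₀) (hL : 10 ≤ L)
    (hD : 16 * C * C₀ ≤ L) (hk0 : 0 ≤ k) (hk : k ≤ 2 * L ^ 2) (hW : 0 < W) (hw : 0 < w)
    (hu0 : 0 < u2) (hX : 0 < X) (hR : IR ≤ C₀ * W) (h1 : I1 ≤ 3 * (W * w * u2))
    (h2 : W * w < I2)
    (h : I2 ≤ C * k ^ 3 * L ^ 2 * (w / L ^ 10 * IR + X * I1)) :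
    1 < 48 * C * L ^ 8 * u2 * X := by
  have hL0 : 0 < L := by linarith only [hL]
  have a1 : w / L ^ 10 * IR + X * I1 ≤ W * w * (C₀ / L ^ 10 + X * (3 * u2)) := by
    have b1 : w / L ^ 10 * IR ≤ w / L ^ 10 * (C₀ * W) := by gcongr
    have b3 := mul_le_mul_of_nonneg_left h1 hX.le
    calc _ ≤ w / L ^ 10 * (C₀ * W) + X * (3 * (W * w * u2)) := add_le_add b1 b3
      _ = _ := by ring
  have a2 : C * k ^ 3 * L ^ 2 ≤ C * (2 * L ^ 2) ^ 3 * L ^ 2 := by gcongr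
  have a3 : W * w < C * (2 * L ^ 2) ^ 3 * L ^ 2 * (W * w * (C₀ / L ^ 10 + X * (3 * u2))) :=
    h2.trans_le (h.trans ((mul_le_mul_of_nonneg_left a1 (by positivity)).trans
      (mul_le_mul_of_nonneg_right a2 (by positivity))))
  have a4 : C * (2 * L ^ 2) ^ 3 * L ^ 2 * (W * w * (C₀ / L ^ 10 + X * (3 * u2))) =
      W * w * (8 * C * C₀ / L ^ 2 + 24 * C * L ^ 8 * u2 * X) := by
    field_simp
    ring
  rw [a4] at a3
  have a5 : 1 < 8 * C * C₀ / L ^ 2 + 24 * C * L ^ 8 * u2 * X := by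
    exact (lt_mul_iff_one_lt_right (mul_pos hW hw)).1 a3
  have a6 : 8 * C * C₀ / L ^ 2 ≤ 1 / 2 := by
    rw [div_le_iff₀ (by positivity)]
    have : L ≤ L ^ 2 := le_self_pow₀ (by linarith only [hL]) (by norm_num)
    linarith only [this, hD]
  linarith only [a5, a6]

theorem IterB_fin {g L l c ε a Δ D q : ℝ} (hg : 1 ≤ g) (hg2 : g ≤ 2) (hL : 0 < L) (hl : 0 ≤ l)
    (hε : 0 < ε) (hε1 : ε ≤ 1) (h1 : 2 * (c + 20 * l) ≤ ε * L) (hq : 0 ≤ q)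
    (hΔ0 : 0 < Δ) (hΔ : a - q ≤ Δ) (h2 : 26 * q ≤ ε * a)
    (h : g * L - c ≤ (L + 10 * l) / Δ * D) : g * (1 - ε) * a ≤ D - 11 * q := by
  have hP : 0 < L + 10 * l := by linarith only [hL, hl]
  have hg0 : 0 ≤ g := zero_le_one.trans hg
  have a1 : g * (1 - ε / 2) * (L + 10 * l) ≤ g * L - c := by
    linarith only [h1, mul_nonneg (mul_nonneg hl hε.le) hg0,
      mul_nonneg (sub_nonneg.2 hg) (mul_pos hε hL).le, mul_nonneg (sub_nonneg.2 hg2) hl]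
  have a2 : g * (1 - ε / 2) * Δ ≤ D := by
    have b1 := a1.trans h
    rw [div_mul_eq_mul_div, le_div_iff₀ hΔ0] at b1
    refine le_of_mul_le_mul_left ?_ hP
    linarith only [b1]
  have a3 : g * (1 - ε / 2) * (a - q) ≤ g * (1 - ε / 2) * Δ :=
    mul_le_mul_of_nonneg_left hΔ (mul_nonneg hg0 (by linarith only [hε1]))
  have a4 : g * (1 - ε / 2) * q ≤ 2 * q := by
    have b1 : g * (1 - ε / 2) ≤ 2 := by linarith only [hg2, mul_nonneg hg0 hε.le]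
    exact mul_le_mul_of_nonneg_right b1 hq
  have a5 : ε * a ≤ g * (ε * a) := le_mul_of_one_le_left (by linarith only [h2, hq]) hg
  linarith only [a2, a3, a4, a5, h2]

theorem IterB_small {L g : ℝ} (e1 : 10 ≤ L) (e2 : 18 * L ^ 2 ≤ Real.exp (L / 2)) (hg1 : 1 ≤ g)
    (hg2 : g ≤ 2) : ∃ q u : ℝ, 0 < q ∧ 0 < u ∧ Real.exp (-L * g) = u ^ 2 ∧ u ≤ q ∧
      Real.exp (-L) ≤ u ∧ 180 * L * q ≤ 1 := by
  have hL : 0 < L := by linarith only [e1]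
  have hq0 : 0 < Real.exp (-L / 2) := Real.exp_pos _
  refine ⟨Real.exp (-L / 2), Real.exp (-L * g / 2), hq0, Real.exp_pos _, ?_, ?_, ?_, ?_⟩
  · rw [← Real.exp_nat_mul]; congr 1; push_cast; ring
  · exact Real.exp_le_exp.2 (by linarith only [mul_le_mul_of_nonneg_left hg1 hL.le])
  · exact Real.exp_le_exp.2 (by linarith only [mul_le_mul_of_nonneg_left hg2 hL.le])
  · have h1 : Real.exp (L / 2) * Real.exp (-L / 2) = 1 := by rw [← Real.exp_add]; simp [neg_div]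
    have h2 : 180 * L ≤ Real.exp (L / 2) := by
      linarith only [e2, mul_le_mul_of_nonneg_left e1 hL.le]
    exact (mul_le_mul_of_nonneg_right h2 hq0.le).trans h1.le

theorem IterB_err {C t t' w w' u : ℝ} (hC : 1 ≤ C) (hu0 : 0 < u) (hwu : w' = u ^ 2)
    (hw2 : w ^ 2 ≤ u ^ 2) (hu : u ≤ t') (ht' : t' ≤ t - 10 * w') :
    tl C (t + w ^ 2) - tl C (t - 10 * w') ≤ 11 * u := by
  have hw' : 0 < w' := by rw [hwu]; positivity
  have := sq_nonneg w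
  have d0 : 0 < t - 10 * w' := hu0.trans_le (hu.trans ht')
  have d1 : t - 10 * w' ≤ t + w ^ 2 := by linarith only [this, hw']
  refine (IterB_tl_le hC d1).trans ((IterB_log d0 (d0.trans_le d1)).trans ?_)
  rw [div_le_iff₀ d0]
  linarith only [mul_le_mul_of_nonneg_left (hu.trans ht') hu0.le, hwu, hw2]

theorem IterB_pow {θ L : ℝ} (hθ : 0 < θ) (hθ1 : θ ≤ 1) (hL : 1 ≤ L) :
    1 ≤ L ^ (θ / 2) ∧ L ^ (θ / 2) ≤ √L ∧ L ^ (1 + θ) = L * (L ^ (θ / 2)) ^ 2 ∧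
      L ^ (-(θ / 2)) = (L ^ (θ / 2))⁻¹ := by
  have hL0 : 0 < L := zero_lt_one.trans_le hL
  refine ⟨Real.one_le_rpow hL (half_pos hθ).le, ?_, ?_, Real.rpow_neg hL0.le _⟩
  · rw [Real.sqrt_eq_rpow]
    exact Real.rpow_le_rpow_of_exponent_le hL (by linarith only [hθ1])
  · rw [Real.rpow_add hL0, Real.rpow_one, pow_two, ← Real.rpow_add hL0, add_halves]

/-- Let `L = log w⁻¹`, `b = θ / 2`, `Δ₀ = tl R - tl t`, `t₂ = t + w²`, `Δ = tl R - tl t₂ ≥ Δ₀ / 2`,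
`κ = (L + 10 log L) / (2 Δ)`, which is between `κ₀` and `2 L ^ (1 + b)`; on `(0, R]` we have
`3 / 4 * log (x / y) ≤ tl x - tl y ≤ log (x / y)` for `y ≤ x`. If the claim is false then
`Δ' = tl t₂ - tl t' ≤ 2 Δ₀ + 11 √w'`, so `κ log (R / t') ≤ 5 L` and the hypothesis applies. Its
first term is at most `w ^ (n + 1) / 2`, hence
`2 κ Δ' ≥ (1 + 1 / n) L - 25 C L ^ (1 - θ) - 12 log L`. -/
theorem three_num (θ C₁ κ₀ C C₀ : ℝ) (hθ : 0 < θ) (hθ1 : θ ≤ 1) (hC₁ : 1 ≤ C₁) (hκ : 10 ≤ κ₀)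
    (hC : 1 ≤ C) (hC₀ : 1 ≤ C₀) (n : ℕ) (hn : 1 ≤ n) :
    ∃ w₀ : ℝ, 0 < w₀ ∧ ∀ (I : ℝ → ℝ) (w w' L R t t' : ℝ), 0 < w → w ≤ w₀ → L = Real.log w⁻¹ →
    w' = w ^ (1 + 1 / n : ℝ) → R ≤ 1 / (4 * C₁) → t ≤ R → t' ≤ t - 10 * w' → √w' ≤ t' →
    Real.log R - Real.log t ≤ L / (2 * κ₀) →
    (∀ κ t₂, κ₀ ≤ κ → κ ≤ w⁻¹ → t' ≤ t₂ → t₂ ≤ R * Real.exp (-5 / κ) →
      C * κ * (Real.log (R / t') + 1) ≤ L ^ (1 + θ) →
      I t₂ ≤ C * κ ^ 3 * L ^ 2 * (Real.exp (-2 * κ * (tl C₁ R - tl C₁ t₂)) * I R +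
        Real.exp (2 * κ * (tl C₁ t₂ - tl C₁ t') +
          C * κ ^ 2 * Real.log (R / t') ^ 2 / L ^ (1 + θ)) * I t')) →
    I R ≤ C₀ * w ^ n → (∀ r, t < r → r ≤ R → w ^ (n + 1) < I r) →
    I t' ≤ 3 * (w ^ (n + 1) * w') → L ^ (-(θ / 2)) ≤ tl C₁ R - tl C₁ t →
    (1 + 1 / n) * (1 - L ^ (-(θ / 2))) * (tl C₁ R - tl C₁ t) ≤
      tl C₁ (t - 10 * w') - tl C₁ t' := by
  obtain ⟨L₀, hL₀⟩ := IterB_ev θ (Real.log (48 * C)) (100 * C * C₀) hθ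
  refine ⟨Real.exp (-L₀), Real.exp_pos _, ?_⟩
  intro I w w' L R t t' hw hw0 hLw hw' hR htR ht' hu hlog h3 hIR hI hI1 ha
  have hwd : w = Real.exp (-L) := by rw [hLw, Real.log_inv, neg_neg, Real.exp_log hw]
  obtain ⟨e1, e2, e3, e4, e5⟩ := hL₀ L (by rw [hwd] at hw0; simpa using hw0)
  have hL : 0 < L := by linarith only [e1]
  have hL1 : 1 ≤ L := by linarith only [e1]
  obtain ⟨p1, p2, p3, p4⟩ := IterB_pow hθ hθ1 hL1
  rw [p3] at h3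
  rw [p4] at ha ⊢
  set g : ℝ := 1 + 1 / n with hg
  have hn1 : (1 : ℝ) ≤ n := by exact_mod_cast hn
  have hg1 : 1 ≤ g := le_add_of_nonneg_right (by positivity)
  have hg2 : g ≤ 2 := by
    have : 1 / (n : ℝ) ≤ 1 / 1 := one_div_le_one_div_of_le one_pos hn1
    linarith only [this, hg]
  rw [hwd, ← Real.exp_mul] at hw'
  obtain ⟨q, u, hq0, hu0, hwu, huq, hww, hq1⟩ := IterB_small e1 e2 hg1 hg2
  rw [← hw'] at hwu
  rw [← hwd] at hww
  rw [hwu, Real.sqrt_sq hu0.le] at hu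
  set E := L ^ (θ / 2) with hE
  clear_value g E
  clear hL₀ hw0 hg p3 p4 hLw
  have hC0 : 0 < C := zero_lt_one.trans_le hC
  have hCC : C ≤ C * C₀ := le_mul_of_one_le_right hC0.le hC₀
  have hE0 : 0 < E := zero_lt_one.trans_le p1
  have hEC : 100 * C ≤ E := by linarith only [e5, hCC]
  set ε := E⁻¹ with hε
  have hε0 : 0 < ε := inv_pos.2 hE0
  have hεE : ε * E = 1 := inv_mul_cancel₀ hE0.ne'
  have hε1 : ε ≤ 1 := inv_le_one_of_one_le₀ p1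
  clear_value ε
  have hs : 1 ≤ √L := Real.one_le_sqrt.2 hL1
  have hss : √L * √L = L := Real.mul_self_sqrt hL.le
  have hsL : √L ≤ L := (le_mul_of_one_le_left (zero_le_one.trans hs) hs).trans hss.le
  have hεs : 1 ≤ ε * √L := hεE.ge.trans (mul_le_mul_of_nonneg_left p2 hε0.le)
  have hεL : √L ≤ ε * L := by
    have := mul_le_mul_of_nonneg_right hεs (zero_le_one.trans hs)
    rwa [one_mul, mul_assoc, hss] at this
  have hε2 : 1 ≤ ε * ε * L := by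
    have := mul_le_mul_of_nonneg_left hεL hε0.le
    linarith only [this, hεs]
  have hqε : 180 * q ≤ ε * ε := by
    refine le_of_mul_le_mul_right ?_ hL
    linarith only [hq1, hε2]
  have hεε : ε * ε ≤ ε := mul_le_of_le_one_right hε0.le hε1
  have hw2 : w ^ 2 ≤ u ^ 2 := pow_le_pow_left₀ hw.le hww 2
  have hw'0 : 0 < w' := by rw [hwu]; exact pow_pos hu0 2
  have ht0 : u ≤ t := by linarith only [hu, ht', hw'0]
  have htp : 0 < t := hu0.trans_le ht0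
  have ht'p : 0 < t' := hu0.trans_le hu
  have hRp : 0 < R := htp.trans_le htR
  have hw20 : 0 < w ^ 2 := pow_pos hw 2
  have htw : 0 < t + w ^ 2 := add_pos htp hw20
  have b1 : Real.log (t + w ^ 2) - Real.log t ≤ w := by
    refine (IterB_log htp htw).trans ?_
    rw [div_le_iff₀ htp, add_sub_cancel_left, pow_two]
    exact mul_le_mul_of_nonneg_left (hww.trans ht0) hw.le
  have b2 := IterB_tl_le hC₁ htR
  have b3 : t + w ^ 2 ≤ R := by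
    rw [← Real.log_le_log_iff htw hRp]
    linarith only [b1, b2, ha, hww, huq, hqε, hεε, hq0]
  have htt : t ≤ t + w ^ 2 := le_add_of_nonneg_right hw20.le
  have b4 := IterB_tl_le hC₁ htt
  have b5 : tl C₁ t ≤ tl C₁ (t + w ^ 2) := by
    have := IterB_tl_ge hC₁ htp htt (b3.trans hR)
    linarith only [this, Real.log_le_log htp htt]
  have b6 := IterB_tl_le hC₁ b3
  have ht't : t' ≤ t + w ^ 2 := by linarith only [ht', hw'0, hw20]
  have b9 := IterB_tl_ge hC₁ ht'p (ht't.trans b3) hR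
  have c1 := IterB_err hC₁ hu0 hwu hw2 hu ht'
  by_contra hcon
  rw [not_le] at hcon
  set a := tl C₁ R - tl C₁ t with hadef
  have ha0 : 0 < a := hε0.trans_le ha
  have hga : g * (1 - ε) * a ≤ 2 * a := by
    refine mul_le_mul_of_nonneg_right ?_ ha0.le
    linarith only [hg2, mul_nonneg (zero_le_one.trans hg1) hε0.le]
  set Δ := tl C₁ R - tl C₁ (t + w ^ 2) with hΔ
  have hΔa : a - q ≤ Δ := by linarith only [hΔ, hadef, b1, b4, hww, huq]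
  have hΔ1 : ε / 2 ≤ Δ := by linarith only [hΔa, ha, hqε, hεε, hq0]
  have hΔ0 : 0 < Δ := (half_pos hε0).trans_le hΔ1
  have hκ0 : 0 < κ₀ := by linarith only [hκ]
  have hΔ2 : Δ ≤ L / (2 * κ₀) := by linarith only [hΔ, hadef, b5, b2, hlog]
  have hlg : Real.log (R / t') ≤ 14 / 3 * Δ := by
    rw [Real.log_div hRp.ne' ht'p.ne']
    linarith only [b9, c1, hcon, hga, hΔa, hΔ, huq, hqε, hεε, hΔ1, hq0]
  have hlg0 : 0 ≤ Real.log (R / t') :=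
    Real.log_nonneg ((one_le_div ht'p).2 (ht't.trans b3))
  clear_value Δ a
  have hl : 0 ≤ Real.log L := Real.log_nonneg hL1
  have hc : 0 ≤ Real.log (48 * C) := Real.log_nonneg (by linarith only [hC])
  have hΔ3 : 0 < 2 * Δ := mul_pos two_pos hΔ0
  set k := (L + 10 * Real.log L) / (2 * Δ) with hk
  have hkΔ : 2 * k * Δ = L + 10 * Real.log L := by rw [hk]; field_simp
  have hk1 : κ₀ ≤ k := by
    rw [hk, le_div_iff₀ hΔ3]
    rw [le_div_iff₀ (mul_pos two_pos hκ0)] at hΔ2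
    linarith only [hΔ2, hl]
  have hl1 : 10 * Real.log L ≤ L := by linarith only [e3, hsL, hc, hl]
  have hkE : k ≤ 2 * L * E := by
    rw [hk, div_le_iff₀ hΔ3]
    have h1 := mul_le_mul_of_nonneg_left hΔ1 (mul_pos hL hE0).le
    have h2 : L * E * (ε / 2) = L / 2 := by
      rw [show L * E * (ε / 2) = L / 2 * (ε * E) by ring, hεE, mul_one]
    linarith only [h1, h2, hl1]
  have hk2 : k ≤ 2 * L ^ 2 := by
    have := mul_le_mul_of_nonneg_left (p2.trans hsL) hL.le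
    linarith only [this, hkE]
  clear_value k
  have hk3 : k ≤ w⁻¹ := by
    rw [hwd, ← Real.exp_neg, neg_neg]
    have := Real.exp_le_exp.2 (half_le_self hL.le)
    linarith only [sq_nonneg L, this, e2, hk2]
  have hk0 : 0 < k := hκ0.trans_le hk1
  have b7 : t + w ^ 2 ≤ R * Real.exp (-5 / k) := by
    rw [← Real.log_le_log_iff htw (mul_pos hRp (Real.exp_pos _)),
      Real.log_mul hRp.ne' (Real.exp_pos _).ne', Real.log_exp]
    have : 5 / k ≤ Δ := by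
      rw [div_le_iff₀ hk0]
      linarith only [hkΔ, hl, e1]
    rw [neg_div]
    linarith only [this, b6]
  have hkl : k * Real.log (R / t') ≤ 5 * L := by
    have := mul_le_mul_of_nonneg_left hlg hk0.le
    linarith only [this, hkΔ, hl1, hL]
  have b10 : C * k * (Real.log (R / t') + 1) ≤ L * E ^ 2 := by
    have h1 : k * (Real.log (R / t') + 1) ≤ 7 * (L * E) := by
      linarith only [hkl, hkE, mul_le_mul_of_nonneg_left p1 hL.le]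
    have h2 := mul_le_mul_of_nonneg_left h1 hC0.le
    have h3 := mul_le_mul_of_nonneg_right hEC (mul_pos hL hE0).le
    have h4 := mul_pos hC0 (mul_pos hL hE0)
    linarith only [h2, h3, h4]
  have h4 := h3 k (t + w ^ 2) hk1 hk3 ht't b7 b10
  have b8 : Real.exp (-2 * k * Δ) = w / L ^ 10 := by
    rw [show -2 * k * Δ = -L - (10 : ℕ) * Real.log L by push_cast; linarith only [hkΔ],
      Real.exp_sub, Real.exp_nat_mul, Real.exp_log hL, hwd]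
  rw [← hΔ, b8] at h4
  have h5 := IterB_exp hC hC₀ e1 (by linarith only [e4, hCC, hC0]) hk0.le hk2 (pow_pos hw n) hw hw'0
    (Real.exp_pos _) hIR (by rw [← pow_succ]; exact hI1)
    (by rw [← pow_succ]; exact hI _ (lt_add_of_pos_right _ hw20) b3) h4
  have h6 := (Real.log_pos h5).le
  have hC48 : 48 * C ≠ 0 := (mul_pos (by norm_num) hC0).ne'
  have hL10 : L ^ 8 ≠ 0 := (pow_pos hL 8).ne'
  rw [Real.log_mul (mul_ne_zero (mul_ne_zero hC48 hL10) hw'0.ne') (Real.exp_pos _).ne',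
    Real.log_exp, Real.log_mul (mul_ne_zero hC48 hL10) hw'0.ne', Real.log_mul hC48 hL10,
    Real.log_pow, hw', Real.log_exp] at h6
  have herr : C * k ^ 2 * Real.log (R / t') ^ 2 / (L * E ^ 2) ≤ ε * L / 4 := by
    rw [div_le_iff₀ (mul_pos hL (pow_pos hE0 2))]
    have h1 : (k * Real.log (R / t')) ^ 2 ≤ (5 * L) ^ 2 :=
      pow_le_pow_left₀ (mul_nonneg hk0.le hlg0) hkl 2
    have h2 := mul_le_mul_of_nonneg_left h1 hC0.le
    have h3 : ε * L / 4 * (L * E ^ 2) = L ^ 2 * E / 4 := by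
      rw [show ε * L / 4 * (L * E ^ 2) = L ^ 2 * E / 4 * (ε * E) by ring, hεE, mul_one]
    have h4 := mul_le_mul_of_nonneg_left hEC (sq_nonneg L)
    rw [h3]
    linarith only [h2, h4]
  have h7 := IterB_fin (g := g) (L := L) (l := Real.log L)
    (c := Real.log (48 * C) + 8 * Real.log L + ε * L / 4) (ε := ε)
    (a := a) (Δ := Δ) (D := tl C₁ (t + w ^ 2) - tl C₁ t') (q := q) hg1 hg2 hL hl hε0 hε1
    (by linarith only [e3, hεL]) hq0.le hΔ0 hΔa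
    (by linarith only [mul_le_mul_of_nonneg_left ha hε0.le, hqε, hq0])
    (by
      have : (L + 10 * Real.log L) / Δ = 2 * k := by rw [← hkΔ]; field_simp
      rw [this]
      push_cast at h6
      linarith only [h6, herr])
  linarith only [h7, c1, huq, hcon]

end Pool.Agent.MP_f6c0e6_an.Gen

end
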