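import Pool.Agent.MP_f6c0e6_an.All.Calc

section

/-! The Fermi chart. -/

set_option autoImplicit false

open MeasureTheory Filter Topology Set Metric
open scoped ENNReal RealInnerProductSpace

namespace Pool.Agent.MP_f6c0e6_an.Gen

variable {m N : ℕ}

namespace Ref

variable (S : Ref m N)

theorem ChartA_dw : Differentiable ℝ S.w := S.smooth.differentiable (by norm_num)

theorem ChartA_ddw : Differentiable ℝ (fderiv ℝ S.w) :=
  (S.smooth.fderiv_right (m := 2) (by norm_num)).differentiable (by norm_num)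

theorem ChartA_pr1 (ξ u : E m) : pr S.ι (fderiv ℝ S.w ξ u) = 0 := by
  have h1 := (pr S.ι).hasFDerivAt.comp ξ (S.ChartA_dw ξ).hasFDerivAt
  have h2 : (pr S.ι) ∘ S.w = fun _ => 0 := funext S.vert
  rw [h2] at h1
  exact DFunLike.congr_fun (h1.unique (hasFDerivAt_const 0 ξ)) u

theorem ChartA_pr2 (ξ u v : E m) : pr S.ι (fderiv ℝ (fderiv ℝ S.w) ξ u v) = 0 := by
  have h1 := (pr S.ι ∘L ContinuousLinearMap.apply ℝ (E N) v).hasFDerivAt.comp ξ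
    (S.ChartA_ddw ξ).hasFDerivAt
  have h2 : (pr S.ι ∘L ContinuousLinearMap.apply ℝ (E N) v) ∘ fderiv ℝ S.w = fun _ => 0 :=
    funext fun x => S.ChartA_pr1 x v
  rw [h2] at h1
  exact DFunLike.congr_fun (h1.unique (hasFDerivAt_const 0 ξ)) u

theorem ChartA_wlip (ξ ξ' : E m) : ‖S.w ξ - S.w ξ'‖ ≤ 1 / 100 * ‖ξ - ξ'‖ :=
  convex_univ.norm_image_sub_le_of_norm_fderiv_le (fun x _ => S.ChartA_dw x)
    (fun x _ => S.b1 x) (mem_univ ξ') (mem_univ ξ)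

theorem ChartA_dwlip (ξ ξ' : E m) :
    ‖fderiv ℝ S.w ξ - fderiv ℝ S.w ξ'‖ ≤ 1 / 100 * ‖ξ - ξ'‖ :=
  convex_univ.norm_image_sub_le_of_norm_fderiv_le (fun x _ => S.ChartA_ddw x)
    (fun x _ => S.b2 x) (mem_univ ξ') (mem_univ ξ)

theorem ChartA_La (ξ u : E m) : S.La ξ u = S.ι u + fderiv ℝ S.w ξ u := rfl

theorem F_calc (ξ : E m) : HasFDerivAt S.F (S.La ξ) ξ ∧ ContDiff ℝ 3 S.F ∧ ContDiff ℝ 2 S.La ∧
    fderiv ℝ S.La ξ = fderiv ℝ (fderiv ℝ S.w) ξ ∧ pr S.ι (S.F ξ) = ξ ∧ vt S.ι (S.F ξ) = S.w ξ := by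
  refine ⟨S.ι.toContinuousLinearMap.hasFDerivAt.add (S.ChartA_dw ξ).hasFDerivAt,
    S.ι.toContinuousLinearMap.contDiff.add S.smooth,
    contDiff_const.add (S.smooth.fderiv_right (by norm_num)), fderiv_const_add _, ?_, ?_⟩
  · rw [F, map_add, pr_iota, S.vert, add_zero]
  · rw [F, vt_add, vt_iota, vt_of_pr _ (S.vert ξ), zero_add]

theorem La_bd (ξ u v : E m) : pr S.ι (S.La ξ u) = u ∧ ⟪S.La ξ u, S.La ξ v⟫ = ⟪gW S.w ξ u, v⟫ ∧
    (S.La ξ).adjoint (S.La ξ u) = gW S.w ξ u ∧ ‖u‖ ≤ ‖S.La ξ u‖ ∧ ‖S.La ξ‖ ≤ 101 / 100 ∧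
    pr S.ι (fderiv ℝ S.w ξ u) = 0 ∧ pr S.ι (fderiv ℝ (fderiv ℝ S.w) ξ u v) = 0 ∧
    ‖gW S.w ξ‖ ≤ 101 / 100 := by
  have h1 : ∀ a, pr S.ι (S.La ξ a) = a := fun a => by
    rw [ChartA_La, map_add, pr_iota, ChartA_pr1, add_zero]
  have h2 : ∀ a, vt S.ι (S.La ξ a) = fderiv ℝ S.w ξ a := fun a => by
    rw [ChartA_La, vt_add, vt_iota, vt_of_pr _ (S.ChartA_pr1 ξ a), zero_add]
  have h3 : ∀ a b, ⟪S.La ξ a, S.La ξ b⟫ = ⟪gW S.w ξ a, b⟫ := fun a b => by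
    rw [(inner_vt S.ι _ _).2, h1, h1, h2, h2, inner_gW]
  have h4 := S.b1 ξ
  refine ⟨h1 u, h3 u v, ext_inner_right ℝ fun b => ?_, ?_, ?_, S.ChartA_pr1 ξ u,
    S.ChartA_pr2 ξ u v, ?_⟩
  · rw [ContinuousLinearMap.adjoint_inner_left, h3]
  · have h5 := (norm_pr_le S.ι (S.La ξ u)).1
    rwa [h1] at h5
  · have h5 := norm_add_le S.ι.toContinuousLinearMap (fderiv ℝ S.w ξ)
    have h6 := S.ι.norm_toContinuousLinearMap_le
    exact h5.trans (by linarith)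
  · have h5 := (gW_bd S.w ξ).2.1
    have h6 : ‖(1 : E m →L[ℝ] E m)‖ ≤ 1 := ContinuousLinearMap.norm_id_le
    have h7 := norm_add_le (gW S.w ξ - 1) 1
    rw [sub_add_cancel] at h7
    have h8 : ‖fderiv ℝ S.w ξ‖ ^ 2 ≤ (1 / 100) ^ 2 := pow_le_pow_left₀ (norm_nonneg _) h4 2
    linarith

theorem F_lip (ξ ξ' : E m) : ‖ξ - ξ'‖ ≤ ‖S.F ξ - S.F ξ'‖ ∧
    ‖S.F ξ - S.F ξ'‖ ≤ 101 / 100 * ‖ξ - ξ'‖ ∧ ‖S.La ξ - S.La ξ'‖ ≤ ‖ξ - ξ'‖ / 100 ∧
    ‖S.F ξ - S.F ξ' - S.La ξ' (ξ - ξ')‖ ≤ ‖ξ - ξ'‖ ^ 2 / 100 ∧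
    ‖S.F ξ - S.F ξ' - S.La ξ' (ξ - ξ')‖ ≤ ‖ξ - ξ'‖ / 50 := by
  have h1 : S.F ξ - S.F ξ' = S.ι (ξ - ξ') + (S.w ξ - S.w ξ') := by
    rw [F, F, map_sub]
    abel
  have h2 : S.F ξ - S.F ξ' - S.La ξ' (ξ - ξ') =
      S.w ξ - S.w ξ' - fderiv ℝ S.w ξ' (ξ - ξ') := by
    rw [h1, ChartA_La]
    abel
  refine ⟨?_, ?_, ?_, ?_, ?_⟩
  · have h3 := (norm_pr_le S.ι (S.F ξ - S.F ξ')).1
    rwa [map_sub, (S.F_calc ξ).2.2.2.2.1, (S.F_calc ξ').2.2.2.2.1] at h3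
  · have h3 := norm_add_le (S.ι (ξ - ξ')) (S.w ξ - S.w ξ')
    rw [← h1, S.ι.norm_map] at h3
    linarith [S.ChartA_wlip ξ ξ']
  · rw [La, La, add_sub_add_left_eq_sub]
    linarith [S.ChartA_dwlip ξ ξ']
  · rw [h2]
    have h3 := (convex_closedBall ξ' ‖ξ - ξ'‖).norm_image_sub_le_of_norm_fderiv_le'
      (f := S.w) (φ := fderiv ℝ S.w ξ') (C := 1 / 100 * ‖ξ - ξ'‖) (fun x _ => S.ChartA_dw x)
      (fun x hx => (S.ChartA_dwlip x ξ').trans (by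
        rw [mem_closedBall, dist_eq_norm] at hx
        linarith)) (mem_closedBall_self (norm_nonneg _))
      (show ξ ∈ closedBall ξ' ‖ξ - ξ'‖ by rw [mem_closedBall, dist_eq_norm])
    exact h3.trans_eq (by ring)
  · rw [h2]
    have h3 := norm_sub_le (S.w ξ - S.w ξ') (fderiv ℝ S.w ξ' (ξ - ξ'))
    have h4 := (fderiv ℝ S.w ξ').le_of_opNorm_le (S.b1 ξ') (ξ - ξ')
    linarith [S.ChartA_wlip ξ ξ']

/-- the distance to `F ξ₀` increases along rays: the derivative of its square in `t` is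
`2 (t ‖v‖² + ⟪Dw v, w - w ξ₀⟫) ≥ 0` -/
theorem F_star (ξ₀ ξ : E m) {t : ℝ} (h0 : 0 ≤ t) (h1 : t ≤ 1) :
    ‖S.F (ξ₀ + t • (ξ - ξ₀)) - S.F ξ₀‖ ≤ ‖S.F ξ - S.F ξ₀‖ := by
  obtain ⟨v, hv⟩ : ∃ v, v = ξ - ξ₀ := ⟨_, rfl⟩
  obtain ⟨η, hη⟩ : ∃ η, η = ξ₀ + t • (ξ - ξ₀) := ⟨_, rfl⟩
  rw [← hη]
  have e1 : η - ξ₀ = t • v := by rw [hη, hv, add_sub_cancel_left]
  have e2 : ξ - η = (1 - t) • v := by
    rw [hη, hv, sub_smul, one_smul]
    abel
  have h2 : 0 ≤ 1 - t := sub_nonneg.2 h1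
  have a1 : ‖S.w η - S.w ξ₀‖ ≤ 1 / 100 * (t * ‖v‖) := by
    have := S.ChartA_wlip η ξ₀
    rwa [e1, norm_smul, Real.norm_eq_abs, abs_of_nonneg h0] at this
  have a2 : ‖S.w ξ - S.w η‖ ≤ 1 / 100 * ((1 - t) * ‖v‖) := by
    have := S.ChartA_wlip ξ η
    rwa [e2, norm_smul, Real.norm_eq_abs, abs_of_nonneg h2] at this
  have a3 : ⟪S.F η - S.F ξ₀, S.F ξ - S.F η⟫ =
      t * ((1 - t) * ‖v‖ ^ 2) + ⟪S.w η - S.w ξ₀, S.w ξ - S.w η⟫ := by
    rw [(inner_vt S.ι _ _).2, map_sub, map_sub, vt_sub, vt_sub]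
    simp only [(S.F_calc _).2.2.2.2.1, (S.F_calc _).2.2.2.2.2]
    rw [e1, e2, real_inner_smul_left, real_inner_smul_right, real_inner_self_eq_norm_sq]
  have a4 : |⟪S.w η - S.w ξ₀, S.w ξ - S.w η⟫| ≤
      1 / 100 * (t * ‖v‖) * (1 / 100 * ((1 - t) * ‖v‖)) :=
    (abs_real_inner_le_norm _ _).trans (mul_le_mul a1 a2 (norm_nonneg _) (by positivity))
  have a5 : 0 ≤ t * ((1 - t) * ‖v‖ ^ 2) := by positivity
  have a6 : 0 ≤ ⟪S.F η - S.F ξ₀, S.F ξ - S.F η⟫ := by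
    rw [a3]
    nlinarith [(abs_le.1 a4).1]
  have a7 := norm_add_sq_real (S.F η - S.F ξ₀) (S.F ξ - S.F η)
  rw [show S.F η - S.F ξ₀ + (S.F ξ - S.F η) = S.F ξ - S.F ξ₀ by abel] at a7
  exact (abs_le_of_sq_le_sq' (by linarith [sq_nonneg ‖S.F ξ - S.F η‖]) (norm_nonneg _)).2

theorem gh_calc (y : E N) : pr S.ι (S.gh y) = 0 ∧ ContDiff ℝ 3 S.gh ∧
    S.gh y = vt S.ι y - S.w (pr S.ι y) ∧ Lip (101 / 100) S.gh ∧
    (∀ s, fderiv ℝ S.gh y s = s - S.La (pr S.ι y) (pr S.ι s)) ∧ ∀ ξ, S.gh (S.F ξ) = 0 := by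
  have h1 : ∀ x, S.gh x = vt S.ι x - S.w (pr S.ι x) := fun x => by
    rw [gh, F, vt]
    abel
  refine ⟨?_, contDiff_id.sub ((S.F_calc 0).2.1.comp (pr S.ι).contDiff), h1 y, fun x x' => ?_,
    fun s => ?_, fun ξ => ?_⟩
  · rw [gh, map_sub, (S.F_calc _).2.2.2.2.1, sub_self]
  · have h2 : S.gh x - S.gh x' = vt S.ι (x - x') - (S.w (pr S.ι x) - S.w (pr S.ι x')) := by
      rw [h1, h1, vt_sub]
      abel
    have h3 := norm_sub_le (vt S.ι (x - x')) (S.w (pr S.ι x) - S.w (pr S.ι x'))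
    have h4 := S.ChartA_wlip (pr S.ι x) (pr S.ι x')
    rw [← map_sub] at h4
    have h5 := norm_pr_le S.ι (x - x')
    rw [h2]
    linarith [h5.1, h5.2.1]
  · have h2 := (hasFDerivAt_id y).sub ((S.F_calc (pr S.ι y)).1.comp y (pr S.ι).hasFDerivAt)
    have h3 : fderiv ℝ S.gh y = _ := h2.fderiv
    rw [h3]
    rfl
  · rw [gh, (S.F_calc _).2.2.2.2.1, sub_self]

theorem isOpen_tube : IsOpen S.tube ∧ ∀ y₀ t, IsOpen (S.dom y₀ t) := by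
  exact ⟨isOpen_lt (S.gh_calc 0).2.1.continuous.norm continuous_const, fun y₀ t =>
    isOpen_lt ((S.F_calc 0).2.1.continuous.sub continuous_const).norm continuous_const⟩

theorem ChartA_adj_le (A : E m →L[ℝ] E N) {c : ℝ} (h : ‖A‖ ≤ c) (z : E N) :
    ‖A.adjoint z‖ ≤ c * ‖z‖ :=
  A.adjoint.le_of_opNorm_le ((ContinuousLinearMap.adjoint.norm_map A).le.trans h) z

theorem ChartA_adj (ξ : E m) (z : E N) :
    (S.La ξ).adjoint z = pr S.ι z + (fderiv ℝ S.w ξ).adjoint z := by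
  rw [La, map_add]
  rfl

theorem ChartA_adj_vt (ξ : E m) (z : E N) :
    (fderiv ℝ S.w ξ).adjoint z = (fderiv ℝ S.w ξ).adjoint (vt S.ι z) := by
  refine ext_inner_right ℝ fun u => ?_
  rw [ContinuousLinearMap.adjoint_inner_left, ContinuousLinearMap.adjoint_inner_left,
    (inner_vt S.ι _ _).1, vt_of_pr _ (S.ChartA_pr1 ξ u)]

theorem ChartA_eqn {y : E N} {ξ : E m} (h : (S.La ξ).adjoint (y - S.F ξ) = 0) :
    ξ = pr S.ι y + (fderiv ℝ S.w ξ).adjoint (vt S.ι y - S.w ξ) := by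
  rw [ChartA_adj, ChartA_adj_vt, map_sub, vt_sub, (S.F_calc ξ).2.2.2.2.1,
    (S.F_calc ξ).2.2.2.2.2] at h
  rw [← sub_eq_zero, ← neg_eq_zero, ← h]
  abel

theorem ChartA_foot {y y' : E N} (hy' : y' ∈ S.tube) {ξ ξ' : E m}
    (h : (S.La ξ).adjoint (y - S.F ξ) = 0) (h' : (S.La ξ').adjoint (y' - S.F ξ') = 0) :
    ‖ξ - ξ'‖ ≤ 102 / 100 * ‖y - y'‖ := by
  have e1 := S.ChartA_eqn h
  have e2 := S.ChartA_eqn h'
  have e3 : ξ - ξ' = pr S.ι (y - y') +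
      (fderiv ℝ S.w ξ).adjoint (vt S.ι (y - y') - (S.w ξ - S.w ξ')) +
      (fderiv ℝ S.w ξ - fderiv ℝ S.w ξ').adjoint (vt S.ι y' - S.w ξ') := by
    have e4 : vt S.ι (y - y') - (S.w ξ - S.w ξ') =
        (vt S.ι y - S.w ξ) - (vt S.ι y' - S.w ξ') := by
      rw [vt_sub]
      abel
    rw [e4, map_sub (fderiv ℝ S.w ξ).adjoint, map_sub (pr S.ι),
      map_sub ContinuousLinearMap.adjoint, sub_apply]
    conv_lhs => rw [e1, e2]
    abel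
  have a1 : ‖vt S.ι y' - S.w ξ'‖ ≤ 52 / 100 := by
    have a2 : vt S.ι y' - S.w ξ' = S.gh y' + (S.w (pr S.ι y') - S.w ξ') := by
      rw [(S.gh_calc y').2.2.1]
      abel
    have a3 : ‖S.gh y'‖ < 1 / 2 := hy'
    rw [a2]
    linarith [norm_add_le (S.gh y') (S.w (pr S.ι y') - S.w ξ'),
      norm_sub_le (S.w (pr S.ι y')) (S.w ξ'), S.b0 ξ', S.b0 (pr S.ι y')]
  have a4 := ChartA_adj_le _ (S.b1 ξ) (vt S.ι (y - y') - (S.w ξ - S.w ξ'))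
  have a5 := ChartA_adj_le _ (S.ChartA_dwlip ξ ξ') (vt S.ι y' - S.w ξ')
  have a6 : 1 / 100 * ‖ξ - ξ'‖ * ‖vt S.ι y' - S.w ξ'‖ ≤ 1 / 100 * ‖ξ - ξ'‖ * (52 / 100) :=
    mul_le_mul_of_nonneg_left a1 (by positivity)
  have a7 := norm_sub_le (vt S.ι (y - y')) (S.w ξ - S.w ξ')
  have a8 := S.ChartA_wlip ξ ξ'
  have a9 := norm_pr_le S.ι (y - y')
  have a10 := norm_add₃_le (a := pr S.ι (y - y'))
    (b := (fderiv ℝ S.w ξ).adjoint (vt S.ι (y - y') - (S.w ξ - S.w ξ')))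
    (c := (fderiv ℝ S.w ξ - fderiv ℝ S.w ξ').adjoint (vt S.ι y' - S.w ξ'))
  rw [← e3] at a10
  linarith [a9.1, a9.2.1, norm_nonneg (y - y')]

/-- The equation reads `ξ = pr y + (Dw ξ)ᵀ (vt y - w ξ)`, and the right side is a contraction. -/
theorem foot_unique {y : E N} (hy : y ∈ S.tube) {ξ ξ' : E m}
    (h : (S.La ξ).adjoint (y - S.F ξ) = 0) (h' : (S.La ξ').adjoint (y - S.F ξ') = 0) : ξ = ξ' := by
  have h1 := S.ChartA_foot (y := y) hy h h'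
  rwa [sub_self, norm_zero, mul_zero, norm_le_zero_iff, sub_eq_zero] at h1

theorem ChartA_exists (y : E N) :
    ∃ η, (S.La η).adjoint (y - S.F η) = 0 ∧ ‖y - S.F η‖ ≤ ‖S.gh y‖ := by
  have hc : Continuous fun η => ‖y - S.F η‖ :=
    (continuous_const.sub (S.F_calc 0).2.1.continuous).norm
  have h0 : pr S.ι y ∈ closedBall (pr S.ι y) ‖S.gh y‖ := mem_closedBall_self (norm_nonneg _)
  obtain ⟨η, -, hmin⟩ := (isCompact_closedBall (pr S.ι y) ‖S.gh y‖).exists_isMinOn ⟨_, h0⟩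
    hc.continuousOn
  have h1 : ‖y - S.F η‖ ≤ ‖S.gh y‖ := hmin h0
  have h2 : ∀ ξ, ‖y - S.F η‖ ≤ ‖y - S.F ξ‖ := by
    intro ξ
    by_cases hξ : ξ ∈ closedBall (pr S.ι y) ‖S.gh y‖
    · exact hmin hξ
    · rw [mem_closedBall, dist_eq_norm, not_le, norm_sub_rev] at hξ
      have h3 := (norm_pr_le S.ι (y - S.F ξ)).1
      rw [map_sub, (S.F_calc ξ).2.2.2.2.1] at h3
      linarith
  have hloc : IsLocalMin (fun ξ => ‖y - S.F ξ‖ ^ 2) η :=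
    Eventually.of_forall fun ξ => pow_le_pow_left₀ (norm_nonneg _) (h2 ξ) 2
  have hzero := hloc.hasFDerivAt_eq_zero ((S.F_calc η).1.const_sub y).norm_sq
  refine ⟨η, ext_inner_right ℝ fun u => ?_, h1⟩
  have c1 := DFunLike.congr_fun hzero u
  simp only [smul_apply, ContinuousLinearMap.comp_apply, neg_apply, innerSL_apply_apply,
    inner_neg_right, zero_apply, smul_neg, neg_eq_zero, nsmul_eq_mul, mul_eq_zero] at c1
  rw [ContinuousLinearMap.adjoint_inner_left, inner_zero_left]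
  rcases c1 with c1 | c1
  · norm_num at c1
  · exact c1

/-- The function `ξ ↦ ‖y - F ξ‖²` has a minimum, which solves the equation. -/
theorem tube_spec {y : E N} (hy : y ∈ S.tube) :
    (S.La (S.zeta y)).adjoint (S.zz y) = 0 ∧ y = S.F (S.zeta y) + S.zz y ∧
      ‖S.zz y‖ ≤ ‖S.gh y‖ ∧ ‖S.gh y‖ ≤ 102 / 100 * ‖S.zz y‖ ∧
      ‖S.zeta y - pr S.ι y‖ ≤ ‖S.zz y‖ / 100 := by
  obtain ⟨η, h1, h2⟩ := S.ChartA_exists y
  have h3 : S.zeta y = Classical.epsilon fun ξ => (S.La ξ).adjoint (y - S.F ξ) = 0 := by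
    unfold zeta
    rw [if_pos hy]
  have h4 : S.zz y = y - S.F (S.zeta y) := by
    unfold zz
    rw [if_pos hy]
  have h5 : (S.La (S.zeta y)).adjoint (y - S.F (S.zeta y)) = 0 := by
    rw [h3]
    exact Classical.epsilon_spec (p := fun ξ => (S.La ξ).adjoint (y - S.F ξ) = 0) ⟨η, h1⟩
  have h6 := S.foot_unique hy h5 h1
  refine ⟨by rw [h4]; exact h5, by rw [h4]; abel, by rw [h4, h6]; exact h2, ?_, ?_⟩
  · have h7 := (S.gh_calc y).2.2.2.1 y (S.F (S.zeta y))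
    rw [(S.gh_calc y).2.2.2.2.2, sub_zero, ← h4] at h7
    linarith [norm_nonneg (S.zz y)]
  · rw [ChartA_adj, map_sub, (S.F_calc _).2.2.2.2.1, ← h4] at h5
    have h7 : S.zeta y - pr S.ι y = (fderiv ℝ S.w (S.zeta y)).adjoint (S.zz y) := by
      rw [← sub_eq_zero, ← neg_eq_zero, ← h5]
      abel
    rw [h7]
    linarith [ChartA_adj_le _ (S.b1 (S.zeta y)) (S.zz y)]

theorem zz_bd (y : E N) : ‖S.zz y‖ ≤ 1 / 2 ∧ ‖S.zz y‖ ≤ ‖S.gh y‖ ∧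
    (S.La (S.zeta y)).adjoint (S.zz y) = 0 := by
  by_cases hy : y ∈ S.tube
  · obtain ⟨t1, -, t3, -⟩ := S.tube_spec hy
    have h1 : ‖S.gh y‖ < 1 / 2 := hy
    exact ⟨by linarith, t3, t1⟩
  · have h1 : S.zz y = 0 := by
      unfold zz
      rw [if_neg hy]
    rw [h1, norm_zero]
    exact ⟨by norm_num, norm_nonneg _, map_zero _⟩

theorem zeta_eq {ξ : E m} {z : E N} (hz : ‖z‖ ≤ 1 / 4) (hn : (S.La ξ).adjoint z = 0) :
    S.F ξ + z ∈ S.tube ∧ S.zeta (S.F ξ + z) = ξ ∧ S.zz (S.F ξ + z) = z := by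
  have h1 := (S.gh_calc 0).2.2.2.1 (S.F ξ + z) (S.F ξ)
  rw [(S.gh_calc 0).2.2.2.2.2, sub_zero, add_sub_cancel_left] at h1
  have hy : S.F ξ + z ∈ S.tube := show ‖S.gh (S.F ξ + z)‖ < 1 / 2 by linarith
  obtain ⟨t1, t2, -⟩ := S.tube_spec hy
  have h2 : S.F ξ + z - S.F (S.zeta (S.F ξ + z)) = S.zz (S.F ξ + z) := sub_eq_of_eq_add' t2
  have h3 := S.foot_unique hy (ξ := S.zeta (S.F ξ + z)) (ξ' := ξ) (by rw [h2]; exact t1)
    (by rw [add_sub_cancel_left]; exact hn)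
  exact ⟨hy, h3, by rw [← h2, h3, add_sub_cancel_left]⟩

theorem zeta_lip {y y' : E N} (hy : y ∈ S.tube) (hy' : y' ∈ S.tube) :
    ‖S.zeta y - S.zeta y'‖ ≤ 102 / 100 * ‖y - y'‖ ∧ ‖S.zz y - S.zz y'‖ ≤ 3 * ‖y - y'‖ := by
  obtain ⟨t1, t2, -⟩ := S.tube_spec hy
  obtain ⟨s1, s2, -⟩ := S.tube_spec hy'
  have h2 : y - S.F (S.zeta y) = S.zz y := sub_eq_of_eq_add' t2
  have h2' : y' - S.F (S.zeta y') = S.zz y' := sub_eq_of_eq_add' s2
  have h3 := S.ChartA_foot (y := y) hy' (ξ := S.zeta y) (ξ' := S.zeta y') (by rw [h2]; exact t1)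
    (by rw [h2']; exact s1)
  have h4 := (S.F_lip (S.zeta y) (S.zeta y')).2.1
  have h5 : S.zz y - S.zz y' = (y - y') - (S.F (S.zeta y) - S.F (S.zeta y')) := by
    rw [← h2, ← h2']
    abel
  refine ⟨h3, ?_⟩
  have h6 := norm_sub_le (y - y') (S.F (S.zeta y) - S.F (S.zeta y'))
  rw [← h5] at h6
  linarith [norm_nonneg (y - y')]

theorem measurable_zeta : Measurable S.zeta ∧ Measurable S.zz := by
  classical
  have hm := S.isOpen_tube.1.measurableSet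
  have c1 : ContinuousOn S.zeta S.tube :=
    (LipschitzOnWith.of_dist_le' (K := 102 / 100) fun x hx y hy => by
      rw [dist_eq_norm, dist_eq_norm]
      exact (S.zeta_lip hx hy).1).continuousOn
  have c2 : ContinuousOn S.zz S.tube :=
    (LipschitzOnWith.of_dist_le' (K := 3) fun x hx y hy => by
      rw [dist_eq_norm, dist_eq_norm]
      exact (S.zeta_lip hx hy).2).continuousOn
  have h1 : ContinuousOn S.zeta S.tubeᶜ := by
    refine (continuousOn_const (c := (0 : E m))).congr fun y hy => ?_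
    unfold zeta
    rw [if_neg hy]
  have h2 : ContinuousOn S.zz S.tubeᶜ := by
    refine (continuousOn_const (c := (0 : E N))).congr fun y hy => ?_
    unfold zz
    rw [if_neg hy]
  have h3 := c1.measurable_piecewise h1 hm
  have h4 := c2.measurable_piecewise h2 hm
  rw [piecewise_same] at h3 h4
  exact ⟨h3, h4⟩

theorem isCompact_cyl {K : Set (E m)} (hK : IsCompact K) {T : ℝ} (hT : T ≤ 1 / 4) :
    IsCompact {y | y ∈ S.tube ∧ S.zeta y ∈ K ∧ ‖S.zz y‖ ≤ T} ∧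
      IsCompact {y | pr S.ι y ∈ K ∧ ‖S.gh y‖ ≤ T} := by
  have hB : IsCompact (K ×ˢ closedBall (0 : E N) T) := hK.prod (isCompact_closedBall _ _)
  have hF : Continuous fun q : E m × E N => S.F q.1 + q.2 :=
    ((S.F_calc 0).2.1.continuous.comp continuous_fst).add continuous_snd
  have hd : Continuous fun q : E m × E N => (S.La q.1).adjoint q.2 :=
    ((GCalc_adj m N).continuous.comp
      ((S.F_calc 0).2.2.1.continuous.comp continuous_fst)).clm_apply continuous_snd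
  constructor
  · have hc := (hB.inter_right (isClosed_eq hd (continuous_const (y := (0 : E m))))).image hF
    have he : {y | y ∈ S.tube ∧ S.zeta y ∈ K ∧ ‖S.zz y‖ ≤ T} =
        (fun q : E m × E N => S.F q.1 + q.2) '' ((K ×ˢ closedBall (0 : E N) T) ∩
          {q : E m × E N | (S.La q.1).adjoint q.2 = 0}) := by
      ext y
      constructor
      · rintro ⟨hy, h1, h2⟩
        obtain ⟨t1, t2, -⟩ := S.tube_spec hy
        exact ⟨(S.zeta y, S.zz y), ⟨⟨h1, mem_closedBall_zero_iff.2 h2⟩, t1⟩, t2.symm⟩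
      · rintro ⟨⟨ξ, z⟩, ⟨⟨h1, h2⟩, h3⟩, rfl⟩
        have h2' : ‖z‖ ≤ T := mem_closedBall_zero_iff.1 h2
        obtain ⟨t1, t2, t3⟩ := S.zeta_eq (ξ := ξ) (z := z) (h2'.trans hT) h3
        refine ⟨t1, ?_, ?_⟩
        · rw [t2]
          exact h1
        · rw [t3]
          exact h2'
    rw [he]
    exact hc
  · refine (hB.image hF).of_isClosed_subset ((hK.isClosed.preimage (pr S.ι).continuous).inter
      (isClosed_le (S.gh_calc 0).2.1.continuous.norm continuous_const)) ?_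
    rintro y ⟨h1, h2⟩
    exact ⟨(pr S.ι y, S.gh y), ⟨h1, mem_closedBall_zero_iff.2 h2⟩, add_sub_cancel _ _⟩

end Ref

end Pool.Agent.MP_f6c0e6_an.Gen

end

section

/-! Pointwise algebra in Fermi coordinates. -/

set_option autoImplicit false

open MeasureTheory Filter Topology Set Metric
open scoped ENNReal RealInnerProductSpace

namespace Pool.Agent.MP_f6c0e6_an.Gen

variable {m N : ℕ}

theorem AlgA_trace {T : E m →L[ℝ] E m} (hsym : ∀ u v, ⟪T u, v⟫ = ⟪u, T v⟫)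
    (hpos : ∀ u, 0 ≤ ⟪u, T u⟫) (w : E m → E N) (x : E m) :
    ∑ i, ⟪ev i, T (ev i)⟫ ≤ ∑ i, ⟪ev i, T (gW w x (ev i))⟫ := by
  have h1 : ∀ i, ⟪ev i, T (gW w x (ev i))⟫ = ⟪ev i, T (ev i)⟫ + ∑ j,
      ⟪ev i, (fderiv ℝ w x).adjoint (ev j)⟫ * ⟪ev i, T ((fderiv ℝ w x).adjoint (ev j))⟫ :=
    fun i => by
      rw [← hsym, real_inner_comm, inner_gW, ← sum_inner_ev (fderiv ℝ w x (ev i))]
      congr 1
      refine Finset.sum_congr rfl fun j _ => ?_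
      rw [← hsym, ContinuousLinearMap.adjoint_inner_right, ContinuousLinearMap.adjoint_inner_right,
        real_inner_comm (ev j), real_inner_comm (ev j)]
  simp only [h1, Finset.sum_add_distrib]
  rw [Finset.sum_comm]
  refine le_add_of_nonneg_right (Finset.sum_nonneg fun j _ => ?_)
  rw [sum_inner_ev]
  exact hpos _

theorem AlgA_num {a z t : ℝ} (ha : 0 ≤ a) (hz : 0 ≤ z) (ht : 0 ≤ t) (hta : t ≤ a) :
    a * (z * t) ≤ t + a ^ 3 * z ^ 2 := by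
  have h0 : 0 ≤ a * z := mul_nonneg ha hz
  rcases le_total (a * z) 1 with h | h
  · have h1 : 0 ≤ a ^ 3 * z ^ 2 := by positivity
    nlinarith only [h1, ht, h]
  · have h1 : a * z * t ≤ a * z * a := mul_le_mul_of_nonneg_left hta h0
    have h2 : a * z * a * 1 ≤ a * z * a * (a * z) := mul_le_mul_of_nonneg_left h (by positivity)
    nlinarith only [ht, h1, h2]

theorem AlgA_num2 {C C' a t J D x : ℝ} (hC : 1 ≤ C) (hC' : 1 ≤ C') (ha : 0 ≤ a) (ht : 0 ≤ t)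
    (hta : t ≤ a) (hJ0 : 0 ≤ J) (hx : 0 ≤ x) (hJ : |1 - t / 2 - J| ≤ C * t ^ 2)
    (hD : |D - 1| ≤ (C' + a) * x) :
    |1 - t / 2 - |D| * J| ≤ (C + (1 + C * a ^ 2) * (C' + a) + a + a ^ 3) * (t ^ 2 + x) := by
  have h1 : |(|D|) - 1| ≤ (C' + a) * x := by
    have h2 := abs_abs_sub_abs_le D 1
    rw [abs_one] at h2
    exact h2.trans hD
  have h2 : J ≤ 1 + C * a ^ 2 := by
    have h3 := neg_le_of_abs_le hJ
    have h4 : C * t ^ 2 ≤ C * a ^ 2 := by gcongr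
    linarith only [ht, h3, h4]
  have h3 : |(|D| - 1) * J| ≤ (C' + a) * x * (1 + C * a ^ 2) := by
    rw [abs_mul, abs_of_nonneg hJ0]
    exact mul_le_mul h1 h2 hJ0 (by positivity)
  have h4 : 1 - t / 2 - |D| * J = (1 - t / 2 - J) - (|D| - 1) * J := by ring
  have h5 : 0 ≤ ((1 + C * a ^ 2) * (C' + a) + a + a ^ 3) * t ^ 2 := by positivity
  have h6 : 0 ≤ (C + a + a ^ 3) * x := by positivity
  rw [h4]
  exact (abs_sub _ _).trans (by nlinarith only [hJ, h3, h5, h6])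

namespace Ref

variable (S : Ref m N)

theorem al_calc (ξ u : E m) (s : E N) : s = S.La ξ (S.al ξ s) + S.nor ξ s ∧
    (S.La ξ).adjoint (S.nor ξ s) = 0 ∧ ⟪s, S.La ξ u⟫ = ⟪gW S.w ξ (S.al ξ s), u⟫ ∧
    S.al ξ (S.La ξ u) = u ∧ ‖s‖ ^ 2 = ‖S.La ξ (S.al ξ s)‖ ^ 2 + ‖S.nor ξ s‖ ^ 2 ∧
    ‖S.al ξ s‖ ≤ ‖s‖ ∧ ‖S.nor ξ s‖ ≤ ‖s - S.La ξ u‖ := by
  have hg : ∀ s : E N, gW S.w ξ (S.al ξ s) = (S.La ξ).adjoint s := fun s => (giW_gW _ _ _).2
  have h1 : s = S.La ξ (S.al ξ s) + S.nor ξ s := by rw [nor, add_sub_cancel]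
  have h2 : (S.La ξ).adjoint (S.nor ξ s) = 0 := by
    rw [nor, map_sub, (S.La_bd ξ _ u).2.2.1, hg, sub_self]
  have h3 : ∀ v, ⟪S.La ξ v, S.nor ξ s⟫ = 0 := fun v => by
    rw [← ContinuousLinearMap.adjoint_inner_right, h2, inner_zero_right]
  have h4 : ∀ v, ‖S.La ξ v + S.nor ξ s‖ ^ 2 = ‖S.La ξ v‖ ^ 2 + ‖S.nor ξ s‖ ^ 2 := fun v => by
    rw [norm_add_sq_real, h3]
    ring
  have h5 : ‖s‖ ^ 2 = ‖S.La ξ (S.al ξ s)‖ ^ 2 + ‖S.nor ξ s‖ ^ 2 := by rw [← h4, ← h1]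
  refine ⟨h1, h2, ?_, ?_, h5, ?_, ?_⟩
  · rw [hg, ContinuousLinearMap.adjoint_inner_left]
  · rw [al, (S.La_bd ξ u u).2.2.1, (giW_gW _ _ _).1]
  · refine ((S.La_bd ξ _ u).2.2.2.1).trans (abs_le_of_sq_le_sq' ?_ (norm_nonneg _)).2
    rw [h5]
    exact le_add_of_nonneg_right (sq_nonneg _)
  · refine (abs_le_of_sq_le_sq' ?_ (norm_nonneg _)).2
    have h6 : s - S.La ξ u = S.La ξ (S.al ξ s - u) + S.nor ξ s := by
      rw [map_sub, nor]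
      abel
    rw [h6, h4]
    exact le_add_of_nonneg_left (sq_nonneg _)

theorem II_calc (ξ u v : E m) (z : E N) :
    ⟪S.II ξ z u, v⟫ = ⟪z, fderiv ℝ (fderiv ℝ S.w) ξ u v⟫ ∧ ⟪S.II ξ z u, v⟫ = ⟪u, S.II ξ z v⟫ ∧
      ‖S.II ξ z‖ ≤ ‖z‖ / 100 ∧ ‖S.KK ξ z‖ ≤ ‖z‖ / 100 ∧
      (ξ ∈ S.D → ∑ i, ⟪ev i, S.KK ξ z (ev i)⟫ = 0) := by
  have hw : ContDiff ℝ 2 S.w := S.smooth.of_le (by norm_num)
  have h1 : ∀ u v, ⟪S.II ξ z u, v⟫ = ⟪z, fderiv ℝ (fderiv ℝ S.w) ξ u v⟫ := fun u v => by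
    rw [hess_symm hw ξ u v]
    conv_rhs => rw [← sum_ev v, map_sum, sum_apply, inner_sum]
    simp only [II, sum_apply, ContinuousLinearMap.smulRight_apply, ContinuousLinearMap.comp_apply,
      innerSL_apply_apply, sum_inner, real_inner_smul_left, map_smul, smul_apply,
      real_inner_smul_right]
    exact Finset.sum_congr rfl fun i _ => mul_comm _ _
  have h2 : ‖S.II ξ z‖ ≤ ‖z‖ / 100 := by
    refine ContinuousLinearMap.opNorm_le_bound _ (by positivity) fun u => ?_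
    have h3 := h1 u (S.II ξ z u)
    rw [real_inner_self_eq_norm_sq] at h3
    have h4 : ‖fderiv ℝ (fderiv ℝ S.w) ξ u (S.II ξ z u)‖ ≤ 1 / 100 * ‖u‖ * ‖S.II ξ z u‖ := by
      refine (ContinuousLinearMap.le_opNorm₂ _ _ _).trans ?_
      gcongr
      exact S.b2 ξ
    have h5 := (real_inner_le_norm z _).trans (mul_le_mul_of_nonneg_left h4 (norm_nonneg z))
    rcases (norm_nonneg (S.II ξ z u)).eq_or_lt with h6 | h6
    · rw [← h6]
      positivity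
    · refine le_of_mul_le_mul_right ?_ h6
      nlinarith only [h3, h5]
  refine ⟨h1 u v, ?_, h2, ?_, fun hξ => ?_⟩
  · rw [real_inner_comm (S.II ξ z v), h1, h1, hess_symm hw]
  · refine (ContinuousLinearMap.opNorm_comp_le _ _).trans ?_
    have h3 := mul_le_mul (gW_bd (w := S.w) (x := ξ)).1 h2 (norm_nonneg _) zero_le_one
    rwa [one_mul] at h3
  · have h3 : ∀ i, ⟪ev i, S.KK ξ z (ev i)⟫ =
        ⟪z, fderiv ℝ (fderiv ℝ S.w) ξ (ev i) (giW S.w ξ (ev i))⟫ := fun i => by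
      rw [KK, ContinuousLinearMap.comp_apply, ← giW_symm, real_inner_comm, h1]
    have h4 : ∑ i, fderiv ℝ (fderiv ℝ S.w) ξ (ev i) (giW S.w ξ (ev i)) = 0 := S.min ξ hξ
    simp only [h3]
    rw [← inner_sum, h4, inner_zero_right]

theorem eta_calc (ξ : E m) {z : E N} (hz : ‖z‖ ≤ 1 / 2) (s : E N) : IsUnit (1 - S.KK ξ z) ∧
    ‖Ring.inverse (1 - S.KK ξ z)‖ ≤ 101 / 100 ∧ ‖Ring.inverse (1 - S.KK ξ z) - 1‖ ≤ ‖z‖ / 99 ∧
    S.eta ξ z s - S.al ξ s = S.KK ξ z (S.eta ξ z s) ∧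
    S.mm ξ z s = S.nor ξ s - S.La ξ (S.KK ξ z (S.eta ξ z s)) ∧
    ‖S.eta ξ z s‖ ≤ 101 / 100 * ‖s‖ ∧ ‖S.mm ξ z s‖ ≤ ‖S.nor ξ s‖ + ‖z‖ * ‖s‖ / 50 := by
  have hK := (S.II_calc ξ 0 0 z).2.2.2.1
  have hz0 := norm_nonneg z
  have hu : IsUnit (1 - S.KK ξ z) := isUnit_one_sub_of_norm_lt_one (by linarith only [hz, hK])
  have h1 : (1 - S.KK ξ z) * Ring.inverse (1 - S.KK ξ z) = 1 := Ring.mul_inverse_cancel _ hu
  have h2 : Ring.inverse (1 - S.KK ξ z) - 1 = S.KK ξ z * Ring.inverse (1 - S.KK ξ z) := by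
    rw [sub_mul, one_mul] at h1
    rw [sub_eq_iff_eq_add] at h1 ⊢
    rw [add_comm]
    exact h1
  have h3 : ‖Ring.inverse (1 - S.KK ξ z) - 1‖ ≤ ‖z‖ / 100 * ‖Ring.inverse (1 - S.KK ξ z)‖ := by
    rw [h2]
    exact (norm_mul_le _ _).trans (mul_le_mul_of_nonneg_right hK (norm_nonneg _))
  have h4 : ‖Ring.inverse (1 - S.KK ξ z)‖ ≤ 200 / 199 := by
    have h5 := norm_le_norm_add_norm_sub' (Ring.inverse (1 - S.KK ξ z)) 1
    have h6 : ‖(1 : E m →L[ℝ] E m)‖ ≤ 1 := ContinuousLinearMap.norm_id_le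
    have h7 := norm_nonneg (Ring.inverse (1 - S.KK ξ z))
    nlinarith only [h3, h5, h6, hz, h7]
  have h5 : S.eta ξ z s - S.al ξ s = S.KK ξ z (S.eta ξ z s) := by
    have h6 := congrArg (fun L : E m →L[ℝ] E m => L (S.al ξ s)) h2
    exact h6
  have h6 : S.mm ξ z s = S.nor ξ s - S.La ξ (S.KK ξ z (S.eta ξ z s)) := by
    rw [← h5, map_sub, mm, nor]
    abel
  have h7 : ‖S.eta ξ z s‖ ≤ 101 / 100 * ‖s‖ :=
    (ContinuousLinearMap.le_opNorm _ _).trans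
      (mul_le_mul (by linarith only [h4]) (S.al_calc ξ 0 s).2.2.2.2.2.1 (norm_nonneg _) (by norm_num))
  refine ⟨hu, by linarith only [h4], h3.trans (by nlinarith only [hz0, h4]), h5, h6, h7, ?_⟩
  rw [h6]
  refine (norm_sub_le _ _).trans (add_le_add le_rfl ?_)
  have h8 : ‖S.KK ξ z (S.eta ξ z s)‖ ≤ ‖z‖ / 100 * (101 / 100 * ‖s‖) :=
    (ContinuousLinearMap.le_opNorm _ _).trans (mul_le_mul hK h7 (norm_nonneg _) (by positivity))
  have h9 := (ContinuousLinearMap.le_opNorm (S.La ξ) _).trans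
    (mul_le_mul (S.La_bd ξ 0 0).2.2.2.2.1 h8 (norm_nonneg _) (by norm_num))
  have h10 : 0 ≤ ‖z‖ * ‖s‖ := by positivity
  nlinarith only [h9, h10]

/-- the normal part at two foot points -/
theorem nor_lip (ξ ξ' : E m) (s : E N) : ‖S.nor ξ s - S.nor ξ' s‖ ≤ ‖ξ - ξ'‖ * ‖s‖ / 20 := by
  have hL := (S.F_lip ξ ξ').2.2.1
  have hd := norm_nonneg (ξ - ξ')
  have hs := norm_nonneg s
  have h1 : S.nor ξ s - S.nor ξ' s =
      S.La ξ' (S.al ξ' (S.nor ξ s)) - S.nor ξ' (S.La ξ (S.al ξ s)) := by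
    simp only [nor, al, map_sub]
    abel
  have h2 : ‖S.nor ξ' (S.La ξ (S.al ξ s))‖ ≤ ‖ξ - ξ'‖ / 100 * ‖s‖ := by
    refine (S.al_calc ξ' (S.al ξ s) _).2.2.2.2.2.2.trans ?_
    rw [← sub_apply]
    exact (ContinuousLinearMap.le_opNorm _ _).trans
      (mul_le_mul hL (S.al_calc ξ 0 s).2.2.2.2.2.1 (norm_nonneg _) (by positivity))
  have h3 : ‖S.La ξ' (S.al ξ' (S.nor ξ s))‖ ≤ ‖ξ - ξ'‖ / 100 * ‖s‖ := by
    have h4 : ‖S.nor ξ s‖ ≤ ‖s‖ := by simpa using (S.al_calc ξ 0 s).2.2.2.2.2.2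
    have h5 : ⟪S.nor ξ s, S.La ξ (S.al ξ' (S.nor ξ s))⟫ = 0 := by
      rw [← ContinuousLinearMap.adjoint_inner_left, (S.al_calc ξ 0 s).2.1, inner_zero_left]
    have h6 : ‖S.La ξ' (S.al ξ' (S.nor ξ s))‖ ^ 2 =
        -⟪S.nor ξ s, (S.La ξ - S.La ξ') (S.al ξ' (S.nor ξ s))⟫ := by
      rw [sub_apply, inner_sub_right, h5, (S.al_calc ξ' _ _).2.2.1,
        ← real_inner_self_eq_norm_sq, (S.La_bd ξ' _ _).2.1]
      ring
    have h7 : ‖(S.La ξ - S.La ξ') (S.al ξ' (S.nor ξ s))‖ ≤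
        ‖ξ - ξ'‖ / 100 * ‖S.La ξ' (S.al ξ' (S.nor ξ s))‖ :=
      (ContinuousLinearMap.le_opNorm _ _).trans
        (mul_le_mul hL (S.La_bd ξ' _ 0).2.2.2.1 (norm_nonneg _) (by positivity))
    have h8 := (neg_le_abs _).trans ((abs_real_inner_le_norm (S.nor ξ s) _).trans
      (mul_le_mul h4 h7 (norm_nonneg _) hs))
    rw [← h6] at h8
    rcases (norm_nonneg (S.La ξ' (S.al ξ' (S.nor ξ s)))).eq_or_lt with h9 | h9
    · rw [← h9]
      positivity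
    · refine le_of_mul_le_mul_right ?_ h9
      nlinarith only [h8]
  rw [h1]
  have h4 : 0 ≤ ‖ξ - ξ'‖ * ‖s‖ := by positivity
  exact (norm_sub_le _ _).trans (by nlinarith only [h2, h3, h4])

theorem AlgA_str (ξ : E m) (s : Fin m → E N) (u : E m) :
    S.str ξ s u = giW S.w ξ u - ∑ l, ⟪S.al ξ (s l), u⟫ • S.al ξ (s l) := by
  simp only [str, sub_apply, sum_apply, ContinuousLinearMap.smulRight_apply, innerSL_apply_apply]

theorem AlgA_symm (ξ : E m) (s : Fin m → E N) (u v : E m) :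
    ⟪S.str ξ s u, v⟫ = ⟪u, S.str ξ s v⟫ := by
  simp only [AlgA_str, inner_sub_left, inner_sub_right, sum_inner, inner_sum, real_inner_smul_left,
    real_inner_smul_right, giW_symm, real_inner_comm u, mul_comm]

theorem AlgA_nor (ξ : E m) (s : E N) : ⟪s, S.nor ξ s⟫ = ‖S.nor ξ s‖ ^ 2 := by
  have h := congrArg (fun y => ⟪y, S.nor ξ s⟫) (S.al_calc ξ 0 s).1
  simp only [inner_add_left, ← ContinuousLinearMap.adjoint_inner_right, (S.al_calc ξ 0 s).2.1,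
    inner_zero_right, zero_add, real_inner_self_eq_norm_sq] at h
  exact h

/-- the component of `La ξ u` normal to the frame -/
noncomputable def AlgA_T (ξ : E m) (s : Fin m → E N) : E m →L[ℝ] E N :=
  (1 - ∑ l, (innerSL ℝ (s l)).smulRight (s l) : E N →L[ℝ] E N) ∘L S.La ξ

theorem AlgA_T_apply (ξ : E m) (s : Fin m → E N) (u : E m) :
    S.AlgA_T ξ s u = S.La ξ u - ∑ l, ⟪s l, S.La ξ u⟫ • s l := by
  simp only [AlgA_T, ContinuousLinearMap.comp_apply, sub_apply, sum_apply,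
    ContinuousLinearMap.smulRight_apply, innerSL_apply_apply, one_apply_eq_self]

theorem AlgA_inner (ξ : E m) {s : Fin m → E N} (hs : Orthonormal ℝ s) (u v : E m) :
    ⟪S.AlgA_T ξ s u, S.AlgA_T ξ s v⟫ = ⟪gW S.w ξ u, S.str ξ s (gW S.w ξ v)⟫ := by
  have h : ∀ l u, ⟪s l, S.La ξ u⟫ = ⟪S.al ξ (s l), gW S.w ξ u⟫ := fun l u => by
    rw [(S.al_calc ξ u _).2.2.1, gW_symm]
  rw [AlgA_T_apply, AlgA_T_apply, inner_sub_left, inner_sub_right, inner_sub_right,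
    hs.inner_sum _ _ Finset.univ, sum_inner, inner_sum, (S.La_bd ξ u v).2.1, AlgA_str,
    (giW_gW _ _ _).1, inner_sub_right, inner_sum]
  simp only [real_inner_smul_left, real_inner_smul_right, real_inner_comm (s _) (S.La ξ u), h,
    real_inner_comm (S.al ξ _) (gW S.w ξ u), conj_trivial, mul_comm]
  ring

/-- the trace of a linear map along the frame -/
theorem sum_al (ξ : E m) (s : Fin m → E N) (L : E m →L[ℝ] E m) :
    ∑ l, ⟪gW S.w ξ (S.al ξ (s l)), L (S.al ξ (s l))⟫ =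
      ∑ i, ⟪ev i, L (ev i)⟫ - ∑ i, ⟪ev i, L (S.str ξ s (gW S.w ξ (ev i)))⟫ := by
  simp only [AlgA_str, (giW_gW _ _ _).1, map_sub, map_sum, map_smul, inner_sub_right, inner_sum,
    real_inner_smul_right, Finset.sum_sub_distrib, sub_sub_cancel]
  rw [Finset.sum_comm]
  refine Finset.sum_congr rfl fun l _ => ?_
  rw [← sum_inner_ev]
  refine Finset.sum_congr rfl fun i _ => ?_
  rw [← gW_symm, real_inner_comm (S.al ξ (s l))]

/-- `⟪u, str u⟫` is the square of the component of `La (giW u)` normal to the frame -/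
theorem str_bd (ξ : E m) {s : Fin m → E N} (hs : Orthonormal ℝ s) :
    0 ≤ S.tilt ξ s ∧ S.tilt ξ s ≤ m ∧ (∀ u v, ⟪S.str ξ s u, v⟫ = ⟪u, S.str ξ s v⟫) ∧
    (∀ u, 0 ≤ ⟪u, S.str ξ s u⟫) ∧ ‖S.str ξ s‖ ≤ S.tilt ξ s ∧
    ∑ i, ⟪ev i, S.str ξ s (gW S.w ξ (ev i))⟫ = S.tilt ξ s ∧
    (∀ u, ‖S.La ξ u - ∑ l, ⟪s l, S.La ξ u⟫ • s l‖ ^ 2 =
      ⟪gW S.w ξ u, S.str ξ s (gW S.w ξ u)⟫) ∧
    (∀ u, ‖S.La ξ u - ∑ l, ⟪s l, S.La ξ u⟫ • s l‖ ≤ 2 * √(S.tilt ξ s) * ‖u‖) ∧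
    ∀ z, (S.La ξ).adjoint z = 0 → ∀ u,
      ⟪u, ∑ l, ⟪z, s l⟫ • S.al ξ (s l)⟫ ^ 2 ≤ ‖z‖ ^ 2 * ⟪u, S.str ξ s u⟫ := by
  have hn : ∀ l, ‖S.nor ξ (s l)‖ ≤ 1 := fun l => by
    simpa [hs.1 l] using (S.al_calc ξ 0 (s l)).2.2.2.2.2.2
  have ht0 : 0 ≤ S.tilt ξ s := Finset.sum_nonneg fun l _ => sq_nonneg _
  have htm : S.tilt ξ s ≤ m := by
    refine (Finset.sum_le_sum fun l _ => pow_le_one₀ (norm_nonneg _) (hn l)).trans ?_
    simp
  have hsym := S.AlgA_symm ξ s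
  have hT : ∀ u v, ⟪S.AlgA_T ξ s (giW S.w ξ u), S.AlgA_T ξ s (giW S.w ξ v)⟫ =
      ⟪u, S.str ξ s v⟫ := fun u v => by rw [S.AlgA_inner ξ hs, (giW_gW _ _ _).2, (giW_gW _ _ _).2]
  have hT2 : ∀ u, ‖S.AlgA_T ξ s (giW S.w ξ u)‖ ^ 2 = ⟪u, S.str ξ s u⟫ := fun u => by
    rw [← hT, real_inner_self_eq_norm_sq]
  have hpos : ∀ u, 0 ≤ ⟪u, S.str ξ s u⟫ := fun u => by
    rw [← hT2]
    positivity
  have htr : ∑ i, ⟪ev i, S.str ξ s (gW S.w ξ (ev i))⟫ = S.tilt ξ s := by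
    have h1 := S.sum_al ξ s 1
    have h2 : ∀ l, ⟪gW S.w ξ (S.al ξ (s l)), S.al ξ (s l)⟫ = 1 - ‖S.nor ξ (s l)‖ ^ 2 := fun l => by
      have h3 := (S.al_calc ξ 0 (s l)).2.2.2.2.1
      rw [hs.1 l] at h3
      rw [← (S.La_bd ξ _ _).2.1, real_inner_self_eq_norm_sq]
      linarith
    simp only [one_apply_eq_self, h2, real_inner_self_eq_norm_sq, norm_ev, Finset.sum_sub_distrib,
      one_pow] at h1
    rw [tilt]
    linarith
  have hle : ∀ u, ⟪u, S.str ξ s u⟫ ≤ S.tilt ξ s * ‖u‖ ^ 2 := fun u => by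
    have h1 := FlatA_hs (S.AlgA_T ξ s ∘L giW S.w ξ) u
    simp only [ContinuousLinearMap.comp_apply, hT2] at h1
    refine h1.trans (mul_le_mul_of_nonneg_right ?_ (sq_nonneg _))
    rw [← htr]
    exact AlgA_trace hsym hpos S.w ξ
  have hsq : ∀ u, ‖S.AlgA_T ξ s (giW S.w ξ u)‖ ≤ √(S.tilt ξ s) * ‖u‖ := fun u => by
    refine (abs_le_of_sq_le_sq' ?_ (by positivity)).2
    rw [mul_pow, Real.sq_sqrt ht0, hT2]
    exact hle u
  refine ⟨ht0, htm, hsym, hpos, ?_, htr, fun u => ?_, fun u => ?_, fun z hz u => ?_⟩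
  · refine ContinuousLinearMap.opNorm_le_bound _ ht0 fun u => ?_
    have h1 := (real_inner_le_norm _ _).trans
      (mul_le_mul (hsq (S.str ξ s u)) (hsq u) (norm_nonneg _) (by positivity))
    rw [hT, real_inner_self_eq_norm_sq, mul_mul_mul_comm, Real.mul_self_sqrt ht0] at h1
    rcases (norm_nonneg (S.str ξ s u)).eq_or_lt with h2 | h2
    · rw [← h2]
      positivity
    · refine le_of_mul_le_mul_right ?_ h2
      nlinarith only [h1]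
  · rw [← S.AlgA_T_apply, ← S.AlgA_inner ξ hs, real_inner_self_eq_norm_sq]
  · have h1 := hsq (gW S.w ξ u)
    rw [(giW_gW _ _ _).1, S.AlgA_T_apply] at h1
    have h2 : ‖gW S.w ξ u‖ ≤ 2 * ‖u‖ := (ContinuousLinearMap.le_opNorm _ _).trans
      (mul_le_mul_of_nonneg_right ((S.La_bd ξ 0 0).2.2.2.2.2.2.2.trans (by norm_num))
        (norm_nonneg _))
    refine h1.trans ((mul_le_mul_of_nonneg_left h2 (Real.sqrt_nonneg _)).trans_eq ?_)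
    ring
  · have h1 : ⟪u, ∑ l, ⟪z, s l⟫ • S.al ξ (s l)⟫ = -⟪z, S.AlgA_T ξ s (giW S.w ξ u)⟫ := by
      rw [S.AlgA_T_apply, inner_sub_right, ← ContinuousLinearMap.adjoint_inner_left, hz,
        inner_zero_left, zero_sub, neg_neg, inner_sum, inner_sum]
      refine Finset.sum_congr rfl fun l _ => ?_
      rw [real_inner_smul_right, real_inner_smul_right, (S.al_calc ξ _ _).2.2.1, gW_symm,
        (giW_gW _ _ _).2, real_inner_comm u, mul_comm]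
    rw [h1, neg_sq, ← hT2, ← mul_pow]
    exact sq_le_sq' (neg_le_of_abs_le (abs_real_inner_le_norm _ _)) (real_inner_le_norm _ _)

theorem AlgA_P (ξ : E m) {s : Fin m → E N} (hs : Orthonormal ℝ s) :
    ‖S.str ξ s * gW S.w ξ‖ ≤ 101 / 100 * S.tilt ξ s := by
  obtain ⟨ht, -, -, -, h, -⟩ := S.str_bd ξ hs
  rw [mul_comm (101 / 100 : ℝ)]
  exact (norm_mul_le _ _).trans (mul_le_mul h (S.La_bd ξ 0 0).2.2.2.2.2.2.2 (norm_nonneg _) ht)

theorem AlgA_sum (ξ : E m) (z : E N) (s : Fin m → E N) (L : E m →L[ℝ] E m) :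
    ∑ l, ⟪s l, S.La ξ (L (S.eta ξ z (s l)))⟫ = ∑ i, ⟪ev i, L (ev i)⟫ +
      (∑ i, ⟪ev i, (L * (Ring.inverse (1 - S.KK ξ z) - 1)) (ev i)⟫ -
        ∑ i, ⟪ev i, (L * (Ring.inverse (1 - S.KK ξ z) * (S.str ξ s * gW S.w ξ))) (ev i)⟫) := by
  have h1 := S.sum_al ξ s (L * Ring.inverse (1 - S.KK ξ z))
  have h2 : ∀ l, ⟪s l, S.La ξ (L (S.eta ξ z (s l)))⟫ =
      ⟪gW S.w ξ (S.al ξ (s l)), L (Ring.inverse (1 - S.KK ξ z) (S.al ξ (s l)))⟫ := fun l =>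
    (S.al_calc ξ _ _).2.2.1
  simp only [mul_apply_eq_comp] at h1
  simp only [h2, h1, mul_apply_eq_comp, sub_apply, one_apply_eq_self, map_sub, inner_sub_right,
    Finset.sum_sub_distrib]
  ring

theorem AlgA_inv (ξ : E m) {z : E N} (hz : ‖z‖ ≤ 1 / 2) :
    S.KK ξ z * Ring.inverse (1 - S.KK ξ z) = Ring.inverse (1 - S.KK ξ z) - 1 := by
  have h1 := Ring.mul_inverse_cancel _ (S.eta_calc ξ hz 0).1
  rw [sub_mul, one_mul] at h1
  rw [← sub_sub_cancel (Ring.inverse (1 - S.KK ξ z)) (S.KK ξ z * _), h1]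

theorem AlgA_vol (ξ : E m) (s : Fin m → E N) : (sgW S.w ξ * vol fun l => S.al ξ (s l)) ^ 2 =
    LinearMap.det ((1 - S.str ξ s * gW S.w ξ : E m →L[ℝ] E m) : E m →ₗ[ℝ] E m) := by
  have h1 : 1 - S.str ξ s * gW S.w ξ =
      (∑ l, (innerSL ℝ (S.al ξ (s l))).smulRight (S.al ξ (s l))) * gW S.w ξ := by
    rw [str, sub_mul, GCalc_inv_mul, sub_sub_cancel]
  have h2 := GCalc_dt_mul (∑ l, (innerSL ℝ (S.al ξ (s l))).smulRight (S.al ξ (s l))) (gW S.w ξ)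
  rw [h1, mul_pow, vol_sq, sgW, Real.sq_sqrt (zero_le_one.trans (sgW_bd _ _).1), mul_comm]
  exact h2.symm

/-- the stress in the inner variation identity -/
noncomputable def Nm (ξ : E m) (z : E N) (s : Fin m → E N) : E m →L[ℝ] E m :=
  Ring.inverse (1 - S.KK ξ z) ∘L S.str ξ s ∘L gW S.w ξ ∘L (1 - S.KK ξ z)

theorem Nm_bd (ξ : E m) {z : E N} (hz : ‖z‖ ≤ 1 / 2) {s : Fin m → E N} (hs : Orthonormal ℝ s)
    (L : E m →L[ℝ] E m) : ‖S.Nm ξ z s‖ ≤ 2 * S.tilt ξ s ∧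
    ‖S.Nm ξ z s - S.str ξ s ∘L gW S.w ξ‖ ≤ ‖z‖ * S.tilt ξ s ∧
    ∑ l, ⟪s l, S.lift ξ z (L (S.eta ξ z (s l)))⟫ =
      ∑ i, ⟪ev i, L (ev i)⟫ - ∑ i, ⟪ev i, L (S.Nm ξ z s (ev i))⟫ ∧
    |∑ l, ⟪s l, S.La ξ (L (S.eta ξ z (s l)))⟫ - ∑ i, ⟪ev i, L (ev i)⟫| ≤
      2 * m * (‖z‖ + S.tilt ξ s) * ‖L‖ := by
  obtain ⟨hu, hR, hR1, -⟩ := S.eta_calc ξ hz 0
  have hK := (S.II_calc ξ 0 0 z).2.2.2.1
  obtain ⟨ht, -⟩ := S.str_bd ξ hs
  have hP := S.AlgA_P ξ hs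
  have hz0 := norm_nonneg z
  have hL0 := norm_nonneg L
  have hm0 : (0 : ℝ) ≤ m := Nat.cast_nonneg m
  have h1K : ‖1 - S.KK ξ z‖ ≤ 101 / 100 := by
    have h6 : ‖(1 : E m →L[ℝ] E m)‖ ≤ 1 := ContinuousLinearMap.norm_id_le
    exact (norm_sub_le _ _).trans (by linarith only [hz, hK, h6])
  have hPK : ‖S.str ξ s * gW S.w ξ * (1 - S.KK ξ z)‖ ≤ 101 / 100 * S.tilt ξ s * (101 / 100) :=
    (norm_mul_le _ _).trans (mul_le_mul hP h1K (norm_nonneg _) (by positivity))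
  have hN : S.Nm ξ z s =
      Ring.inverse (1 - S.KK ξ z) * (S.str ξ s * gW S.w ξ * (1 - S.KK ξ z)) := rfl
  refine ⟨?_, ?_, ?_, ?_⟩
  · rw [hN]
    refine (norm_mul_le _ _).trans
      ((mul_le_mul hR hPK (norm_nonneg _) (by norm_num)).trans (by linarith only [ht]))
  · have h1 : S.Nm ξ z s - S.str ξ s ∘L gW S.w ξ =
        (Ring.inverse (1 - S.KK ξ z) - 1) * (S.str ξ s * gW S.w ξ * (1 - S.KK ξ z)) -
          S.str ξ s * gW S.w ξ * S.KK ξ z := by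
      rw [hN, ← ContinuousLinearMap.mul_def, sub_mul, one_mul, mul_sub _ 1, mul_one]
      abel
    have h2 := (norm_mul_le _ _).trans (mul_le_mul hR1 hPK (norm_nonneg _) (by positivity))
    have h3 := (norm_mul_le _ _).trans (mul_le_mul hP hK (norm_nonneg _) (by positivity))
    have h4 : 0 ≤ ‖z‖ * S.tilt ξ s := by positivity
    rw [h1]
    exact (norm_sub_le _ _).trans (by nlinarith only [h2, h3, h4])
  · have h1 := S.sum_al ξ s ((1 - S.KK ξ z) * (L * Ring.inverse (1 - S.KK ξ z)))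
    have h2 := sum_ev_comm (1 - S.KK ξ z) (L * Ring.inverse (1 - S.KK ξ z))
    have h3 := sum_ev_comm (1 - S.KK ξ z)
      (L * Ring.inverse (1 - S.KK ξ z) * (S.str ξ s * gW S.w ξ))
    have h4 : ∀ v, Ring.inverse (1 - S.KK ξ z) ((1 - S.KK ξ z) v) = v := fun v =>
      congrArg (fun L : E m →L[ℝ] E m => L v) (Ring.inverse_mul_cancel _ hu)
    simp only [mul_apply_eq_comp, h4] at h1 h2 h3
    rw [h2, h3] at h1
    rw [← show _ = ∑ i, ⟪ev i, L (ev i)⟫ - ∑ i, ⟪ev i, L (S.Nm ξ z s (ev i))⟫ from h1]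
    exact Finset.sum_congr rfl fun l _ => (S.al_calc ξ _ _).2.2.1
  · rw [S.AlgA_sum ξ z s L]
    have h1 := abs_sum_ev_le (L * (Ring.inverse (1 - S.KK ξ z) - 1))
    have h2 := abs_sum_ev_le (L * (Ring.inverse (1 - S.KK ξ z) * (S.str ξ s * gW S.w ξ)))
    have h3 := (norm_mul_le L _).trans (mul_le_mul_of_nonneg_left hR1 hL0)
    have h4 := (norm_mul_le L _).trans (mul_le_mul_of_nonneg_left
      ((norm_mul_le _ _).trans (mul_le_mul hR hP (norm_nonneg _) (by norm_num))) hL0)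
    have h5 := h1.trans (mul_le_mul_of_nonneg_left h3 hm0)
    have h6 := h2.trans (mul_le_mul_of_nonneg_left h4 hm0)
    have h7 : 0 ≤ m * ‖z‖ * ‖L‖ := by positivity
    have h8 : 0 ≤ m * S.tilt ξ s * ‖L‖ := by positivity
    rw [add_sub_cancel_left]
    exact (abs_sub _ _).trans (by nlinarith only [h5, h6, h7, h8])

end Ref

/-- The divergence of the displacement is `d - ∑ g (a_l, K η_l)` and `K` has trace zero. The
Jacobian: `vol η = |det (1 - K)|⁻¹ vol a`, `vol a ^ 2 = det (giW - str)` (`vol_map`, `vol_sq`,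
`det_expand`, `sqrt_det_expand` for `str ∘ gW`). -/
theorem Ref.div_jac (m : ℕ) : ∃ c : ℝ, 1 ≤ c ∧ ∀ {N : ℕ} (S : Ref m N) (ξ : E m) (z : E N)
    (s : Fin m → E N), ξ ∈ S.D → ‖z‖ ≤ 1 / 2 → Orthonormal ℝ s →
    |∑ l, ⟪s l, S.mm ξ z (s l)⟫ - S.tilt ξ s| ≤ c * (‖z‖ ^ 2 + ‖z‖ * S.tilt ξ s) ∧
    -(c * ‖z‖ ^ 2) ≤ ∑ l, ⟪s l, S.mm ξ z (s l)⟫ ∧
    |1 - S.tilt ξ s / 2 - sgW S.w ξ * vol fun l => S.eta ξ z (s l)| ≤
      c * (S.tilt ξ s ^ 2 + ‖z‖ ^ 2) := by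
  obtain ⟨C, hC, h⟩ := sqrt_det_expand m
  obtain ⟨C', hC', h'⟩ := det_expand m
  have hm0 : (0 : ℝ) ≤ m := Nat.cast_nonneg m
  have hc1 : 0 ≤ (1 + C * m ^ 2) * (C' + m) := by positivity
  have hc2 : (0 : ℝ) ≤ m ^ 3 := by positivity
  refine ⟨C + (1 + C * m ^ 2) * (C' + m) + m + m ^ 3, by linarith, fun S ξ z s hξ hz hs => ?_⟩
  obtain ⟨-, hR, hR1, -⟩ := S.eta_calc ξ hz 0
  obtain ⟨-, -, -, hK, hK0⟩ := S.II_calc ξ 0 0 z
  obtain ⟨ht, htm, -, -, -, htr, -⟩ := S.str_bd ξ hs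
  have hP := S.AlgA_P ξ hs
  have hz0 := norm_nonneg z
  have hzz : 0 ≤ ‖z‖ ^ 2 := sq_nonneg _
  have hzt : 0 ≤ ‖z‖ * S.tilt ξ s := by positivity
  have hA : |∑ i, ⟪ev i, (S.KK ξ z * (Ring.inverse (1 - S.KK ξ z) - 1)) (ev i)⟫| ≤
      m * ‖z‖ ^ 2 := by
    refine (abs_sum_ev_le _).trans (mul_le_mul_of_nonneg_left ?_ hm0)
    exact ((norm_mul_le _ _).trans (mul_le_mul hK hR1 (norm_nonneg _) (by positivity))).trans
      (by nlinarith only [])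
  have hB : |∑ i, ⟪ev i, (S.KK ξ z * (Ring.inverse (1 - S.KK ξ z) * (S.str ξ s * gW S.w ξ)))
      (ev i)⟫| ≤ m * (‖z‖ * S.tilt ξ s) := by
    refine (abs_sum_ev_le _).trans (mul_le_mul_of_nonneg_left ?_ hm0)
    have h1 := (norm_mul_le _ _).trans (mul_le_mul hR hP (norm_nonneg _) (by norm_num))
    exact ((norm_mul_le _ _).trans (mul_le_mul hK h1 (norm_nonneg _) (by positivity))).trans
      (by nlinarith only [hzt])
  have hD : |∑ l, ⟪s l, S.mm ξ z (s l)⟫ - S.tilt ξ s| ≤ m * ‖z‖ ^ 2 + m * (‖z‖ * S.tilt ξ s) := by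
    have h1 : ∀ l, ⟪s l, S.mm ξ z (s l)⟫ = ‖S.nor ξ (s l)‖ ^ 2 -
        ⟪s l, S.La ξ (S.KK ξ z (S.eta ξ z (s l)))⟫ := fun l => by
      rw [(S.eta_calc ξ hz (s l)).2.2.2.2.1, inner_sub_right, S.AlgA_nor]
    simp only [h1, Finset.sum_sub_distrib]
    rw [S.AlgA_sum ξ z s, hK0 hξ, zero_add, tilt, sub_sub_cancel_left, abs_neg]
    exact (abs_sub _ _).trans (add_le_add hA hB)
  refine ⟨hD.trans ?_, ?_, ?_⟩
  · rw [← mul_add]
    exact mul_le_mul_of_nonneg_right (by linarith only [hC, hc1, hc2]) (by positivity)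
  · have h1 := AlgA_num hm0 hz0 ht htm
    have h2 := neg_le_of_abs_le hD
    have h3 : 0 ≤ (C + (1 + C * m ^ 2) * (C' + m)) * ‖z‖ ^ 2 := by positivity
    nlinarith only [h1, h2, h3]
  · have hJ0 : 0 ≤ sgW S.w ξ * vol fun l => S.al ξ (s l) :=
      mul_nonneg (Real.sqrt_nonneg _) (abs_nonneg _)
    have hJ := h (S.str ξ s * gW S.w ξ) _ (S.tilt ξ s) hJ0 (S.AlgA_vol ξ s) htr.symm
      (hP.trans (by linarith only [ht])) htm
    have h1 : ‖1 - Ring.inverse (1 - S.KK ξ z)‖ ≤ ‖z‖ := by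
      rw [norm_sub_rev]
      linarith only [hR1, hz0]
    have h2 := h' (1 - Ring.inverse (1 - S.KK ξ z)) (by linarith only [hz, h1])
    have h3 : ∑ i, ⟪ev i, (1 - Ring.inverse (1 - S.KK ξ z)) (ev i)⟫ =
        -∑ i, ⟪ev i, (S.KK ξ z * (Ring.inverse (1 - S.KK ξ z) - 1)) (ev i)⟫ := by
      rw [← zero_sub, ← neg_zero, ← hK0 hξ, ← Finset.sum_neg_distrib, ← Finset.sum_sub_distrib]
      refine Finset.sum_congr rfl fun i _ => ?_
      have h4 := congrArg (fun L : E m →L[ℝ] E m => L (ev i)) (S.AlgA_inv ξ hz)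
      simp only [sub_apply, mul_apply_eq_comp, one_apply_eq_self] at h4
      simp only [sub_apply, mul_apply_eq_comp, one_apply_eq_self, map_sub, h4, inner_sub_right]
      ring
    rw [sub_sub_cancel, h3] at h2
    have h4 : C' * ‖1 - Ring.inverse (1 - S.KK ξ z)‖ ^ 2 ≤ C' * ‖z‖ ^ 2 := by gcongr
    have h5 : |LinearMap.det ((Ring.inverse (1 - S.KK ξ z) : E m →L[ℝ] E m) : E m →ₗ[ℝ] E m) - 1|
        ≤ (C' + m) * ‖z‖ ^ 2 := by
      rw [abs_le] at hA h2 ⊢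
      constructor <;> linarith only [hA, h2, h4, hA.1, hA.2, h2.1, h2.2]
    have h6 : vol (fun l => S.eta ξ z (s l)) = _ := vol_map _ fun l => S.al ξ (s l)
    rw [h6, mul_left_comm]
    exact AlgA_num2 hC hC' hm0 ht htm hJ0 hzz hJ h5

end Pool.Agent.MP_f6c0e6_an.Gen

end
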