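import Pool.Agent.MP_f6c0e6_an.All.Conv

section

/-! The weak type bound. -/

set_option autoImplicit false

open MeasureTheory Filter Topology Set Metric
open scoped ENNReal RealInnerProductSpace

namespace Pool.Agent.MP_f6c0e6_an.Gen

variable {m N : ℕ}

theorem CZB_cheb {f : E m → ℝ} (h0 : ∀ x, 0 ≤ f x) (hf : Integrable f) {ε B : ℝ} (hε : 0 < ε)
    (hB : ∫ x, f x ≤ B) : volume {x | ε ≤ f x} ≤ ENNReal.ofReal (B / ε) := by
  have h1 := meas_ge_le_lintegral_div (μ := volume) (f := fun x => ENNReal.ofReal (f x))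
    hf.aemeasurable.ennreal_ofReal (ε := ENNReal.ofReal ε) (by simpa using hε) ENNReal.ofReal_ne_top
  rw [← ofReal_integral_eq_lintegral_ofReal hf (Eventually.of_forall h0),
    ← ENNReal.ofReal_div_of_pos hε] at h1
  refine (measure_mono fun x hx => ?_).trans (h1.trans (ENNReal.ofReal_le_ofReal ?_))
  · exact ENNReal.ofReal_le_ofReal hx
  · exact div_le_div_of_nonneg_right hB hε.le

theorem CZB_fub {Ω : Type} [MeasurableSpace Ω] (μ : Measure Ω) [IsFiniteMeasure μ]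
    {k : E m → Ω → ℝ} {w : Ω → ℝ} {c : ℝ} (hk : Measurable fun p : E m × Ω => k p.1 p.2)
    (hw : Measurable w) (hwi : Integrable w μ) (h0 : ∀ x y, 0 ≤ k x y)
    (hi : ∀ y, Integrable fun x => k x y) (hc : ∀ y, ∫ x, k x y = c) :
    Integrable (fun p : E m × Ω => k p.1 p.2 * |w p.2|) (volume.prod μ) ∧
      ∫ x, ∫ y, k x y * |w y| ∂μ = c * ∫ y, |w y| ∂μ := by
  have hm : Measurable fun p : E m × Ω => k p.1 p.2 * |w p.2| :=
    hk.mul (hw.comp measurable_snd).abs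
  have h1 : ∀ y, ∫ x, k x y * |w y| = c * |w y| := fun y => by rw [integral_mul_const, hc]
  have hint : Integrable (fun p : E m × Ω => k p.1 p.2 * |w p.2|) (volume.prod μ) := by
    rw [integrable_prod_iff' hm.aestronglyMeasurable]
    refine ⟨Eventually.of_forall fun y => (hi y).mul_const |w y|, ?_⟩
    refine (hwi.abs.const_mul c).congr (Eventually.of_forall fun y => ?_)
    simp only
    rw [← h1]
    refine integral_congr_ae (Eventually.of_forall fun x => ?_)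
    simp only
    rw [Real.norm_of_nonneg (mul_nonneg (h0 _ _) (abs_nonneg _))]
  refine ⟨hint, ?_⟩
  rw [integral_integral_swap (f := fun x y => k x y * |w y|) hint]
  simp only [h1]
  rw [integral_const_mul]

theorem CZB_meas_rho : Measurable fun p : ℝ × E m => rho p.1 p.2 := by
  unfold rho
  have := contDiff_gam.continuous.measurable
  fun_prop

theorem CZB_int_rho {r : ℝ} (hr : 0 < r) (η : E m) : Integrable fun x => rho r (x - η) :=
  Integrable.of_integral_ne_zero (by rw [integral_rho hr]; exact one_ne_zero)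

/-- the majorant of the difference of the kernels -/
noncomputable def CZB_phi (t : ℝ) (u : E m) : ℝ :=
  (t ^ m)⁻¹ * (1 + ‖t⁻¹ • u‖) ^ (-((m : ℝ) + 1))

theorem CZB_phi_nonneg {t : ℝ} (ht : 0 < t) (u : E m) : 0 ≤ CZB_phi t u := by
  unfold CZB_phi; positivity

theorem CZB_phi_int {t : ℝ} (ht : 0 < t) (η : E m) :
    (Integrable fun ξ => CZB_phi t (η - ξ)) ∧
      ∫ ξ, CZB_phi t (η - ξ) = ∫ u : E m, (1 + ‖u‖) ^ (-((m : ℝ) + 1)) := by
  have h1 : Integrable fun u : E m => (1 + ‖u‖) ^ (-((m : ℝ) + 1)) :=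
    integrable_one_add_norm (by rw [finrank_euclideanSpace_fin]; linarith)
  refine ⟨((h1.comp_smul (inv_ne_zero ht.ne')).const_mul _).comp_sub_left η, ?_⟩
  rw [integral_sub_left_eq_self (CZB_phi t) volume η]
  unfold CZB_phi
  rw [integral_const_mul, Measure.integral_comp_inv_smul_of_nonneg volume
    (fun u : E m => (1 + ‖u‖) ^ (-((m : ℝ) + 1))) ht.le, finrank_euclideanSpace_fin, smul_eq_mul,
    ← mul_assoc, inv_mul_cancel₀ (by positivity), one_mul]

theorem CZB_phi_ge {t R : ℝ} (ht : 0 < t) {u : E m} (h1 : t ≤ R) (h2 : ‖u‖ ≤ R) :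
    t / R ^ (m + 1) ≤ 2 ^ (m + 1) * CZB_phi t u := by
  have hm : 0 < R := ht.trans_le h1
  have h3 : 1 + ‖t⁻¹ • u‖ ≤ 2 * R / t := by
    rw [norm_smul, Real.norm_of_nonneg (inv_pos.2 ht).le, le_div_iff₀ ht, add_mul, mul_right_comm,
      inv_mul_cancel₀ ht.ne']
    linarith
  have h0 : -((m : ℝ) + 1) ≤ 0 := by
    have : (0 : ℝ) ≤ m := Nat.cast_nonneg m
    linarith
  have h4 := Real.rpow_le_rpow_of_nonpos (by positivity) h3 h0
  have h5 : (2 * R / t) ^ (-((m : ℝ) + 1)) = t ^ (m + 1) / (2 ^ (m + 1) * R ^ (m + 1)) := by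
    rw [Real.rpow_neg (by positivity), show ((m : ℝ) + 1) = ((m + 1 : ℕ) : ℝ) by push_cast; ring,
      Real.rpow_natCast, div_pow, mul_pow, inv_div]
  rw [h5] at h4
  calc t / R ^ (m + 1)
      = 2 ^ (m + 1) * ((t ^ m)⁻¹ * (t ^ (m + 1) / (2 ^ (m + 1) * R ^ (m + 1)))) := by
        field_simp
        ring
    _ ≤ _ := by unfold CZB_phi; gcongr

theorem CZB_diff {K : E m → ℝ} {C r t : ℝ} (hC : 0 ≤ C) (hr : 0 < r) (hK : Continuous K)
    (h1 : ∀ w, |K w| ≤ C / r ^ m)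
    (h2 : ∀ w w', ‖w' - w‖ ≤ ‖w‖ / 2 → |K w' - K w| ≤ C * ‖w' - w‖ / ‖w‖ ^ (m + 1))
    {η ξ : E m} (hrt : r ≤ t) (ht : t ≤ max ‖η - ξ‖ r) :
    |K (η - ξ) - ∫ x, K (x - ξ) * rho (t / 4) (x - η)| ≤
      2 * C * 2 ^ (m + 1) * CZB_phi t (η - ξ) := by
  have ht0 : 0 < t := hr.trans_le hrt
  have ht4 : 0 < t / 4 := by positivity
  have hρ := CZB_int_rho ht4 η
  have hb : ∀ x, ‖x - η‖ < t / 4 →
      |K (η - ξ) - K (x - ξ)| ≤ 2 * C * 2 ^ (m + 1) * CZB_phi t (η - ξ) := by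
    intro x hx
    rcases le_or_gt t ‖η - ξ‖ with h | h
    · have h3 := h2 (η - ξ) (x - ξ) (by rw [sub_sub_sub_cancel_right]; linarith)
      rw [sub_sub_sub_cancel_right] at h3
      have h4 := CZB_phi_ge ht0 h (le_refl ‖η - ξ‖)
      have h5 : 0 < ‖η - ξ‖ := ht0.trans_le h
      calc _ = |K (x - ξ) - K (η - ξ)| := abs_sub_comm _ _
        _ ≤ C * ‖x - η‖ / ‖η - ξ‖ ^ (m + 1) := h3
        _ ≤ C * (2 * t) / ‖η - ξ‖ ^ (m + 1) := by gcongr; linarith
        _ = 2 * C * (t / ‖η - ξ‖ ^ (m + 1)) := by ring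
        _ ≤ 2 * C * (2 ^ (m + 1) * CZB_phi t (η - ξ)) := by gcongr
        _ = _ := by ring
    · have h3 : t = r := le_antisymm ((le_max_iff.1 ht).resolve_left (not_le.2 h)) hrt
      have h4 := CZB_phi_ge ht0 (le_refl t) h.le
      calc _ ≤ C / r ^ m + C / r ^ m := (abs_sub _ _).trans (add_le_add (h1 _) (h1 _))
        _ = 2 * C * (t / t ^ (m + 1)) := by rw [h3]; field_simp; ring
        _ ≤ 2 * C * (2 ^ (m + 1) * CZB_phi t (η - ξ)) := by gcongr
        _ = _ := by ring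
  have hi : Integrable fun x => K (x - ξ) * rho (t / 4) (x - η) :=
    hρ.bdd_mul (hK.comp (continuous_id.sub continuous_const)).aestronglyMeasurable
      (Eventually.of_forall fun x => h1 _)
  have he : K (η - ξ) = ∫ x, K (η - ξ) * rho (t / 4) (x - η) := by
    rw [integral_const_mul, integral_rho ht4, mul_one]
  have hi0 : Integrable fun x => K (η - ξ) * rho (t / 4) (x - η) := hρ.const_mul _
  rw [he, ← integral_sub hi0 hi, ← Real.norm_eq_abs]
  refine (norm_integral_le_of_norm_le (hρ.const_mul (2 * C * 2 ^ (m + 1) * CZB_phi t (η - ξ)))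
    (Eventually.of_forall fun x => ?_)).trans ?_
  · rw [← sub_mul, norm_mul, Real.norm_of_nonneg (rho_nonneg ht4 _), Real.norm_eq_abs]
    rcases lt_or_ge ‖x - η‖ (t / 4) with h | h
    · exact mul_le_mul_of_nonneg_right (hb x h) (rho_nonneg ht4 _)
    · rw [rho_eq_zero ht4 h, mul_zero, mul_zero]
  · rw [integral_const_mul, integral_rho ht4, mul_one]

theorem CZB_good {Ω : Type} [MeasurableSpace Ω] (μ : Measure Ω) {ζ : Ω → E m} {w : Ω → ℝ}
    {t : E m → ℝ} {G : Set (E m)} {lam : ℝ} (hζ : Measurable ζ) (hwi : Integrable w μ)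
    (ht0 : ∀ x, 0 < t x) (ht : ∀ x y, t x ≤ t y + ‖x - y‖) (hG : ∀ x, ∃ p ∈ G, ‖x - p‖ < 2 * t x)
    (hm : ∀ p ∈ G, ∀ s, 0 < s → ∫ y in ζ ⁻¹' ball p s, |w y| ∂μ ≤ lam * s ^ m) (x : E m) :
    |∫ y, rho (t (ζ y) / 4) (x - ζ y) * w y ∂μ| ≤ 15 ^ m / cg m * lam := by
  obtain ⟨p, hp, hxp⟩ := hG x
  have hx := ht0 x
  have hc := cg_pos m
  have hms : MeasurableSet (ζ ⁻¹' ball p (3 * t x)) := hζ measurableSet_ball
  rw [← Real.norm_eq_abs]
  refine (norm_integral_le_of_norm_le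
    ((hwi.abs.indicator hms).const_mul (1 / (cg m * (t x / 5) ^ m)))
    (Eventually.of_forall fun y => ?_)).trans ?_
  · have hy := ht0 (ζ y)
    have hy4 : 0 < t (ζ y) / 4 := by positivity
    rw [norm_mul, Real.norm_of_nonneg (rho_nonneg hy4 _), Real.norm_eq_abs]
    rcases lt_or_ge ‖x - ζ y‖ (t (ζ y) / 4) with h | h
    · have a1 := ht x (ζ y)
      have a2 := ht (ζ y) x
      rw [norm_sub_rev] at a2
      have a3 : y ∈ ζ ⁻¹' ball p (3 * t x) := by
        rw [mem_preimage, mem_ball, dist_eq_norm]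
        have := norm_sub_le_norm_sub_add_norm_sub (ζ y) x p
        rw [norm_sub_rev (ζ y) x] at this
        linarith
      rw [indicator_of_mem a3]
      refine mul_le_mul_of_nonneg_right ((rho_le hy4 _).trans ?_) (abs_nonneg _)
      have a4 : t x / 5 ≤ t (ζ y) / 4 := by linarith
      gcongr
    · rw [rho_eq_zero hy4 h, zero_mul]
      exact mul_nonneg (by positivity) (indicator_nonneg (fun _ _ => abs_nonneg _) _)
  · rw [integral_const_mul, integral_indicator hms]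
    calc _ ≤ 1 / (cg m * (t x / 5) ^ m) * (lam * (3 * t x) ^ m) :=
          mul_le_mul_of_nonneg_left (hm p hp _ (by positivity)) (by positivity)
      _ = _ := by
          rw [show (15 : ℝ) = 3 * 5 by norm_num, mul_pow, mul_pow, div_pow]
          field_simp

theorem CZB_fin {A B D W lam : ℝ} (hA : 0 ≤ A) (hB : 0 ≤ B) (hD : 0 ≤ D) (hW0 : 0 ≤ W)
    (hl : 0 < lam) :
    ENNReal.ofReal (A / lam * W) + (ENNReal.ofReal (4 * (B * lam * W) / (lam / 2) ^ 2) +
      ENNReal.ofReal (D * W / (lam / 2))) ≤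
      ENNReal.ofReal ((A + 16 * B + 2 * D) / lam * W) := by
  rw [← ENNReal.ofReal_add (by positivity) (by positivity),
    ← ENNReal.ofReal_add (by positivity) (by positivity)]
  refine ENNReal.ofReal_le_ofReal (le_of_eq ?_)
  field_simp
  ring

theorem CZB_set (hm : 1 ≤ m) {Ω : Type} [MeasurableSpace Ω] (μ : Measure Ω) {ζ : Ω → E m}
    {w : Ω → ℝ} {lam : ℝ} (hζ : Measurable ζ) (hwi : Integrable w μ) (hl : 0 < lam) :
    ∃ G : Set (E m), G.Nonempty ∧ volume Gᶜ ≤ ENNReal.ofReal (12 ^ m / lam * ∫ y, |w y| ∂μ) ∧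
      ∀ p ∈ G, ∀ s, 0 < s → ∫ y in ζ ⁻¹' ball p s, |w y| ∂μ ≤ lam * s ^ m := by
  have : Nonempty (Fin m) := ⟨⟨0, hm⟩⟩
  set ν : Measure (E m) := (μ.withDensity fun y => ENNReal.ofReal |w y|).map ζ with hν
  have h1 : ∀ B, MeasurableSet B → ν B = ENNReal.ofReal (∫ y in ζ ⁻¹' B, |w y| ∂μ) := by
    intro B hB
    rw [hν, Measure.map_apply hζ hB, withDensity_apply _ (hζ hB),
      ofReal_integral_eq_lintegral_ofReal hwi.abs.integrableOn
        (Eventually.of_forall fun _ => abs_nonneg _)]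
  have : IsFiniteMeasure ν := ⟨by rw [h1 _ MeasurableSet.univ]; exact ENNReal.ofReal_lt_top⟩
  have h2 := weak_max hm ν hl
  rw [h1 _ MeasurableSet.univ, preimage_univ, Measure.restrict_univ,
    ← ENNReal.ofReal_mul (by positivity)] at h2
  refine ⟨{ξ : E m | ∃ s, 0 < s ∧ lam * s ^ m < (ν (ball ξ s)).toReal}ᶜ, ?_, by rwa [compl_compl],
    fun p hp s hs => ?_⟩
  · rw [nonempty_compl]
    intro he
    rw [he, measure_univ_of_isAddLeftInvariant, top_le_iff] at h2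
    exact ENNReal.ofReal_ne_top h2
  · by_contra hc
    refine hp ⟨s, hs, ?_⟩
    rw [h1 _ measurableSet_ball, ENNReal.toReal_ofReal (integral_nonneg fun _ => abs_nonneg _)]
    exact not_le.1 hc

theorem CZB_inner_le (i j : Fin m) (L : E m →L[ℝ] E m) : |⟪ev i, L (ev j)⟫| ≤ ‖L‖ := by
  refine (abs_real_inner_le_norm _ _).trans ?_
  rw [norm_ev, one_mul]
  simpa only [norm_ev, mul_one] using L.le_opNorm (ev j)

/-- the kernel is a Calderon-Zygmund kernel -/
theorem CZB_kernel (m : ℕ) (hm : 1 ≤ m) : ∃ C : ℝ, 0 ≤ C ∧ ∀ a b : ℝ, 0 < a → a ≤ b →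
    ∀ i j : Fin m, Continuous (czK a b i j) ∧ (∀ u, |czK a b i j u| ≤ C / a ^ m) ∧
      ∀ u u', ‖u' - u‖ ≤ ‖u‖ / 2 →
        |czK a b i j u' - czK a b i j u| ≤ C * ‖u' - u‖ / ‖u‖ ^ (m + 1) := by
  obtain ⟨C, hC, hV⟩ := Gt_bd m hm
  have hC0 : 0 ≤ C := by linarith
  have h2 : (1 : ℝ) ≤ 2 ^ (m + 1) := one_le_pow₀ (by norm_num)
  refine ⟨C * 2 ^ (m + 1), by positivity, fun a b ha hab i j => ?_⟩
  have hs : ContDiff ℝ 3 fun x : E m => Gt a b x • x := (contDiff_Gm ha hab).2.smul contDiff_id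
  have hs1 : ContDiff ℝ 2 (fderiv ℝ fun x : E m => Gt a b x • x) :=
    hs.fderiv_right (by norm_num)
  refine ⟨?_, fun u => ?_, fun u u' hu => ?_⟩
  · exact continuous_const.inner (hs1.continuous.clm_apply continuous_const)
  · refine (CZB_inner_le i j _).trans ((hV a b ha hab u).2.2.1.trans ?_)
    calc C / max ‖u‖ a ^ m ≤ C / a ^ m := by gcongr; exact le_max_right _ _
      _ ≤ _ := by gcongr; exact le_mul_of_one_le_right hC0 h2
  · rcases eq_or_lt_of_le (norm_nonneg u) with h0 | h0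
    · have : u' = u := by
        rw [← sub_eq_zero, ← norm_le_zero_iff]
        linarith
      simp [this]
    have hb : ∀ x ∈ closedBall u (‖u‖ / 2),
        ‖fderiv ℝ (fderiv ℝ fun x : E m => Gt a b x • x) x‖ ≤ C * 2 ^ (m + 1) / ‖u‖ ^ (m + 1) := by
      intro x hx
      rw [mem_closedBall, dist_eq_norm] at hx
      have h3 : ‖u‖ / 2 ≤ max ‖x‖ a := by
        have := norm_sub_norm_le u x
        rw [norm_sub_rev] at this
        exact le_max_of_le_left (by linarith)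
      refine (hV a b ha hab x).2.2.2.trans ?_
      calc C / max ‖x‖ a ^ (m + 1) ≤ C / (‖u‖ / 2) ^ (m + 1) := by gcongr
        _ = _ := by rw [div_pow]; field_simp
    have h4 := (convex_closedBall u (‖u‖ / 2)).norm_image_sub_le_of_norm_fderiv_le
      (fun x _ => hs1.differentiable (by norm_num) x) hb (mem_closedBall_self (by positivity))
      (show u' ∈ closedBall u (‖u‖ / 2) by rwa [mem_closedBall, dist_eq_norm])
    have h5 : czK a b i j u' - czK a b i j u = ⟪ev i, (fderiv ℝ (fun x : E m => Gt a b x • x) u' -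
        fderiv ℝ (fun x : E m => Gt a b x • x) u) (ev j)⟫ := by
      rw [sub_apply, inner_sub_right]
      rfl
    rw [h5]
    refine (CZB_inner_le i j _).trans (h4.trans (le_of_eq ?_))
    ring

/-- Let `ν` be the image of `|w| μ` under `ζ`, `G` the set of points where all ratios
`ν (ball ξ s) / s ^ m` are at most `lam' = lam / C'` (a closed set, non-empty as its complement has
finite measure by `weak_max`), and `t η = max (infDist η G) a`. Put
`g x = ∫ rho (t (ζ y) / 4) (x - ζ y) * w y dμ`. Then `|g| ≤ C lam'` everywhere (if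
`|x - η| < t η / 4` then `t η` and `t x` are comparable and these `η` lie in a ball of radius
`C t x` centred in `G`), `∫ |g| ≤ ν univ`, and `g` has bounded support. With `K = czK a b i j`,
for `ξ ∈ G` and `η = ζ y`, the difference `K (η - ξ) - ∫ K (x - ξ) rho (t η / 4) (x - η) dx` is at
most `C t η / |η - ξ| ^ (m + 1)` when `t η ≤ |η - ξ|` (`Gt_bd`) and at most `C / a ^ m` when
`|η - ξ| < t η` (then `t η = a`); its integral in `ξ` over `G` is at most `C`. Chebyshev twice and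
`cz_L2`. -/
theorem cz_weak (m : ℕ) (hm : 1 ≤ m) : ∃ C : ℝ, 1 ≤ C ∧ ∀ {Ω : Type} [MeasurableSpace Ω]
    (μ : Measure Ω) [IsFiniteMeasure μ] {ζ : Ω → E m} {w : Ω → ℝ} {a b lam M : ℝ} (i j : Fin m),
    Measurable ζ → Measurable w → (∀ᵐ y ∂μ, ‖ζ y‖ ≤ M ∧ |w y| ≤ M) → 0 < a → a ≤ b → 0 < lam →
    volume {ξ : E m | lam < |∫ y, czK a b i j (ζ y - ξ) * w y ∂μ|} ≤
      ENNReal.ofReal (C / lam * ∫ y, |w y| ∂μ) := by
  obtain ⟨C, hC0, hV⟩ := CZB_kernel m hm
  set I := ∫ u : E m, (1 + ‖u‖) ^ (-((m : ℝ) + 1)) with hI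
  have hI0 : 0 ≤ I := integral_nonneg fun u => by positivity
  have hcg := cg_pos m
  set A : ℝ := 15 ^ m / cg m with hA
  have hA0 : 0 ≤ A := by positivity
  set D : ℝ := 2 * C * 2 ^ (m + 1) with hD
  have hD0 : 0 ≤ D := by positivity
  have h12 : (1 : ℝ) ≤ 12 ^ m := one_le_pow₀ (by norm_num)
  refine ⟨12 ^ m + 16 * A + 2 * (D * I), by linarith only [mul_nonneg hD0 hI0, h12, hA0], ?_⟩
  intro Ω _ μ _ ζ w r s lam M i j hζ hw hM hr hrs hl
  have hwi : Integrable w μ := Integrable.of_bound hw.aestronglyMeasurable M (hM.mono fun _ h => h.2)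
  set W := ∫ y, |w y| ∂μ with hW
  have hW0 : 0 ≤ W := integral_nonneg fun _ => abs_nonneg _
  obtain ⟨G, hGne, hGc, hGm⟩ := CZB_set hm μ hζ hwi hl
  obtain ⟨hKc, hK1, hK2⟩ := hV r s hr hrs i j
  set K := czK r s i j with hK
  set t : E m → ℝ := fun η => max (infDist η G) r with ht
  have ht0 : ∀ x, 0 < t x := fun x => hr.trans_le (le_max_right _ _)
  have ht4 : ∀ x, 0 < t x / 4 := fun x => by linarith [ht0 x]
  have htc : Continuous t := (continuous_infDist_pt G).max continuous_const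
  have htl : ∀ x y, t x ≤ t y + ‖x - y‖ := by
    intro x y
    have h1 := infDist_le_infDist_add_dist (x := x) (y := y) (s := G)
    rw [dist_eq_norm] at h1
    exact max_le (h1.trans (by gcongr; exact le_max_left _ _))
      ((le_max_right _ _).trans (le_add_of_nonneg_right (norm_nonneg _)))
  have hGp : ∀ x, ∃ p ∈ G, ‖x - p‖ < 2 * t x := by
    intro x
    have h1 : infDist x G < 2 * t x := by linarith [ht0 x, le_max_left (infDist x G) r]
    simpa only [dist_eq_norm] using (infDist_lt_iff hGne).1 h1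
  set g : E m → ℝ := fun x => ∫ y, rho (t (ζ y) / 4) (x - ζ y) * w y ∂μ with hg
  have hgb : ∀ x, |g x| ≤ A * lam := CZB_good μ hζ hwi ht0 htl hGp hGm
  have hmρ : Measurable fun p : E m × Ω => rho (t (ζ p.2) / 4) (p.1 - ζ p.2) :=
    (CZB_meas_rho.comp (((htc.measurable.comp (hζ.comp measurable_snd)).div_const 4).prodMk
      (measurable_fst.sub (hζ.comp measurable_snd))) :)
  have hmg : Measurable fun p : E m × Ω => rho (t (ζ p.2) / 4) (p.1 - ζ p.2) * w p.2 :=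
    hmρ.mul (hw.comp measurable_snd)
  have hgm : Measurable g := hmg.stronglyMeasurable.integral_prod_right'.measurable
  have hgs : ∀ x, M + (t 0 + M) / 4 ≤ ‖x‖ → g x = 0 := by
    intro x hx
    refine integral_eq_zero_of_ae (hM.mono fun y hy => ?_)
    have h1 := htl (ζ y) 0
    have h2 := norm_sub_norm_le x (ζ y)
    rw [sub_zero] at h1
    simp only [Pi.zero_apply]
    rw [rho_eq_zero (ht4 _) (by linarith [hy.1]), zero_mul]
  obtain ⟨f1, f2⟩ := CZB_fub μ (k := fun x y => rho (t (ζ y) / 4) (x - ζ y)) (c := 1) hmρ hw hwi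
    (fun _ _ => rho_nonneg (ht4 _) _) (fun y => CZB_int_rho (ht4 _) _)
    fun y => integral_rho (ht4 _) _
  have hnorm : ∀ x y, ‖rho (t (ζ y) / 4) (x - ζ y) * w y‖ =
      rho (t (ζ y) / 4) (x - ζ y) * |w y| := fun x y => by
    rw [norm_mul, Real.norm_of_nonneg (rho_nonneg (ht4 _) _), Real.norm_eq_abs]
  have f3 : Integrable (fun p : E m × Ω => rho (t (ζ p.2) / 4) (p.1 - ζ p.2) * w p.2)
      (volume.prod μ) :=
    f1.mono' hmg.aestronglyMeasurable (Eventually.of_forall fun p => (hnorm _ _).le)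
  have hg2 : ∫ x, g x ^ 2 ≤ A * lam * W := by
    calc _ ≤ ∫ x, A * lam * ∫ y, rho (t (ζ y) / 4) (x - ζ y) * |w y| ∂μ := by
          refine integral_mono_of_nonneg (Eventually.of_forall fun x => by positivity)
            (f1.integral_prod_left.const_mul _) (Eventually.of_forall fun x => ?_)
          simp only
          rw [← sq_abs, pow_two]
          refine mul_le_mul (hgb x) ?_ (abs_nonneg _) (by positivity)
          rw [← Real.norm_eq_abs]
          refine (norm_integral_le_integral_norm _).trans ?_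
          simp only [hnorm, le_refl]
      _ = _ := by rw [integral_const_mul, f2, one_mul]
  obtain ⟨l1, l2⟩ := cz_L2 hr hrs i j hgm hgb hgs
  have c1 := CZB_cheb (fun _ => by positivity) l1 (ε := (lam / 2) ^ 2) (B := 4 * (A * lam * W))
    (by positivity) (l2.trans (by linarith only [hg2]))
  have hmφ : Measurable fun p : E m × Ω => CZB_phi (t (ζ p.2)) (ζ p.2 - p.1) := by
    have h1 : Measurable fun p : E m × Ω => t (ζ p.2) :=
      htc.measurable.comp (hζ.comp measurable_snd)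
    have h2 : Measurable fun p : E m × Ω => ζ p.2 := hζ.comp measurable_snd
    unfold CZB_phi
    fun_prop
  obtain ⟨e1, e2⟩ := CZB_fub μ (k := fun x y => CZB_phi (t (ζ y)) (ζ y - x)) (c := I) hmφ hw hwi
    (fun _ _ => CZB_phi_nonneg (ht0 _) _) (fun y => (CZB_phi_int (ht0 _) _).1)
    fun y => (CZB_phi_int (ht0 _) _).2
  have c2 := CZB_cheb
    (f := fun ξ => D * ∫ y, CZB_phi (t (ζ y)) (ζ y - ξ) * |w y| ∂μ)
    (fun ξ => mul_nonneg hD0 (integral_nonneg fun y =>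
      mul_nonneg (CZB_phi_nonneg (ht0 _) _) (abs_nonneg _)))
    (e1.integral_prod_left.const_mul _) (ε := lam / 2) (B := D * I * W) (by positivity)
    (by rw [integral_const_mul, e2, mul_assoc D I W])
  have key : ∀ ξ ∈ G, |∫ y, K (ζ y - ξ) * w y ∂μ| ≤ |∫ x, K (x - ξ) * g x| +
      D * ∫ y, CZB_phi (t (ζ y)) (ζ y - ξ) * |w y| ∂μ := by
    intro ξ hξ
    have hKm : Measurable fun x => K (x - ξ) :=
      (hKc.comp (continuous_id.sub continuous_const)).measurable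
    have f4 : Integrable (fun p : E m × Ω =>
        K (p.1 - ξ) * (rho (t (ζ p.2) / 4) (p.1 - ζ p.2) * w p.2)) (volume.prod μ) :=
      f3.bdd_mul (hKm.comp measurable_fst).aestronglyMeasurable (Eventually.of_forall fun p => hK1 _)
    have f5 : ∫ x, K (x - ξ) * g x =
        ∫ y, (∫ x, K (x - ξ) * rho (t (ζ y) / 4) (x - ζ y)) * w y ∂μ := by
      simp only [hg, ← integral_const_mul, ← integral_mul_const, mul_assoc]
      exact integral_integral_swap
        (f := fun x y => K (x - ξ) * (rho (t (ζ y) / 4) (x - ζ y) * w y)) f4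
    have f6 : Integrable (fun y =>
        (∫ x, K (x - ξ) * rho (t (ζ y) / 4) (x - ζ y)) * w y) μ := by
      simpa only [← integral_mul_const, mul_assoc] using f4.integral_prod_right
    have f7 : Integrable (fun y => K (ζ y - ξ) * w y) μ :=
      hwi.bdd_mul (hKm.comp hζ).aestronglyMeasurable (Eventually.of_forall fun p => hK1 _)
    have f8 : Integrable (fun y => CZB_phi (t (ζ y)) (ζ y - ξ) * |w y|) μ := by
      refine hwi.abs.bdd_mul (c := (r ^ m)⁻¹)
        (hmφ.comp (measurable_const.prodMk measurable_id)).aestronglyMeasurable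
        (Eventually.of_forall fun y => ?_)
      rw [Real.norm_of_nonneg (CZB_phi_nonneg (ht0 _) _)]
      have h0 : -((m : ℝ) + 1) ≤ 0 := by
        have : (0 : ℝ) ≤ m := Nat.cast_nonneg m
        linarith
      refine (mul_le_of_le_one_right (inv_nonneg.2 (pow_nonneg (ht0 _).le m))
        (Real.rpow_le_one_of_one_le_of_nonpos (le_add_of_nonneg_right (norm_nonneg _)) h0)).trans ?_
      exact inv_anti₀ (pow_pos hr m) (pow_le_pow_left₀ hr.le (le_max_right _ _) m)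
    rw [← sub_le_iff_le_add']
    refine (abs_sub_abs_le_abs_sub _ _).trans ?_
    rw [f5, ← integral_sub f7 f6, ← integral_const_mul, ← Real.norm_eq_abs]
    refine norm_integral_le_of_norm_le (f8.const_mul _) (Eventually.of_forall fun y => ?_)
    rw [← sub_mul, Real.norm_eq_abs, abs_mul, ← mul_assoc]
    refine mul_le_mul_of_nonneg_right (CZB_diff hC0 hr hKc hK1 hK2 (le_max_right _ _) ?_)
      (abs_nonneg _)
    exact max_le_max (by simpa only [dist_eq_norm] using infDist_le_dist_of_mem hξ) le_rfl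
  have hsub : {ξ : E m | lam < |∫ y, K (ζ y - ξ) * w y ∂μ|} ⊆ Gᶜ ∪
      ({ξ | (lam / 2) ^ 2 ≤ (∫ x, K (x - ξ) * g x) ^ 2} ∪
        {ξ | lam / 2 ≤ D * ∫ y, CZB_phi (t (ζ y)) (ζ y - ξ) * |w y| ∂μ}) := by
    intro ξ hξ
    by_cases hG : ξ ∈ G
    · right
      by_cases h1 : lam / 2 ≤ |∫ x, K (x - ξ) * g x|
      · refine Or.inl ?_
        have h2 := pow_le_pow_left₀ (by positivity) h1 2
        rwa [sq_abs] at h2
      · have h2 := key ξ hG
        have h3 : lam < |∫ y, K (ζ y - ξ) * w y ∂μ| := hξ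
        exact Or.inr (show lam / 2 ≤ _ by linarith only [h1, h2, h3])
    · exact Or.inl hG
  refine (measure_mono hsub).trans ((measure_union_le _ _).trans ((add_le_add hGc
    ((measure_union_le _ _).trans (add_le_add c1 c2))).trans ?_))
  exact CZB_fin (by positivity) hA0 (mul_nonneg hD0 hI0) hW0 hl

end Pool.Agent.MP_f6c0e6_an.Gen

end

section

/-! The local mass. -/

set_option autoImplicit false

open MeasureTheory Filter Topology Set Metric
open scoped ENNReal RealInnerProductSpace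

namespace Pool.Agent.MP_f6c0e6_an.Gen

variable {m N : ℕ}

namespace Lk

variable {c : ℝ} {Ω : Type} [MeasurableSpace Ω]

theorem integrable_of_bd (B : Lk m c Ω) {F : Type} [NormedAddCommGroup F] [MeasurableSpace F]
    [BorelSpace F] [SecondCountableTopology F] {f : Ω → F} (hf : Measurable f) {M : ℝ}
    (h : ∀ᵐ y ∂B.μ, ‖f y‖ ≤ M) : Integrable f B.μ := by
  have := B.fin
  exact Integrable.of_bound hf.aestronglyMeasurable M h

theorem LockA_d (B : Lk m c Ω) : Integrable B.d B.μ :=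
  B.integrable_of_bd B.md (M := m) (B.ae.mono fun y hy => by
    rw [Real.norm_of_nonneg hy.2.1]
    exact hy.2.2.1)

theorem LockA_h (B : Lk m c Ω) : Integrable B.h B.μ :=
  B.integrable_of_bd B.mh (M := B.T ^ 2) (B.ae.mono fun y hy => by
    rw [Real.norm_of_nonneg hy.2.2.2.1]
    exact hy.2.2.2.2.1)

theorem LockA_d2 (B : Lk m c Ω) : Integrable (fun y => B.d y ^ 2) B.μ :=
  B.integrable_of_bd (B.md.pow_const 2) (M := (m : ℝ) ^ 2) (B.ae.mono fun y hy => by
    rw [Real.norm_of_nonneg (sq_nonneg _)]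
    exact pow_le_pow_left₀ hy.2.1 hy.2.2.1 2)

theorem LockA_int (B : Lk m c Ω) : Integrable (fun y => B.d y + B.h y) B.μ :=
  B.LockA_d.add B.LockA_h

theorem LockA_w (B : Lk m c Ω) : Integrable (fun y => 1 - B.d y / 2) B.μ := by
  have := B.fin
  exact (integrable_const (1 : ℝ)).sub (B.LockA_d.div_const 2)

theorem LockA_b (B : Lk m c Ω) : Integrable (fun y => 2 * c * (B.d y ^ 2 + B.h y)) B.μ :=
  (B.LockA_d2.add B.LockA_h).const_mul (2 * c)

theorem LockA_J (B : Lk m c Ω) : Integrable B.J B.μ :=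
  B.integrable_of_bd B.mJ (M := 1 + c * ((m : ℝ) ^ 2 + B.T ^ 2)) (B.ae.mono fun y hy => by
    obtain ⟨-, h1, h2, h3, h4, -, -, h5, h6⟩ := hy
    rw [Real.norm_of_nonneg h5]
    have h7 : c * (B.d y ^ 2 + B.h y) ≤ c * ((m : ℝ) ^ 2 + B.T ^ 2) :=
      mul_le_mul_of_nonneg_left (add_le_add (pow_le_pow_left₀ h1 h2 2) h4)
        (zero_le_one.trans B.c_ge)
    linarith only [h1, h7, h6, (abs_le.1 h6).1])

theorem LockA_nonneg (B : Lk m c Ω) (Z : Set (E m)) : 0 ≤ B.PP Z :=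
  integral_nonneg_of_ae (ae_restrict_of_ae (B.ae.mono fun y hy => by
    obtain ⟨-, h1, -, h3, -⟩ := hy
    exact add_nonneg h1 h3))

theorem PP_mono (B : Lk m c Ω) {Z Z' : Set (E m)} (h : Z ⊆ Z') :
    0 ≤ B.PP Z ∧ B.PP Z ≤ B.PP Z' ∧ 0 ≤ B.D2 Z ∧ B.D2 Z ≤ B.D2 Z' ∧ B.D2 Z ≤ m * B.PP Z := by
  have hs : B.ζ ⁻¹' Z ≤ᵐ[B.μ] B.ζ ⁻¹' Z' := (preimage_mono h).eventuallyLE
  refine ⟨B.LockA_nonneg Z, ?_, integral_nonneg fun y => sq_nonneg _, ?_, ?_⟩
  · exact setIntegral_mono_set B.LockA_int.integrableOn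
      (ae_restrict_of_ae (B.ae.mono fun y hy => add_nonneg hy.2.1 hy.2.2.2.1)) hs
  · exact setIntegral_mono_set B.LockA_d2.integrableOn
      (Eventually.of_forall fun y => sq_nonneg _) hs
  · rw [D2, PP, ← integral_const_mul]
    refine integral_mono_ae B.LockA_d2.integrableOn (B.LockA_int.const_mul _).integrableOn
      (ae_restrict_of_ae (B.ae.mono fun y hy => ?_))
    obtain ⟨-, h1, h2, h3, -⟩ := hy
    have h4 : (0 : ℝ) ≤ m := Nat.cast_nonneg m
    nlinarith only [h4, h3, h2, h1, mul_nonneg h4 h3, mul_le_mul_of_nonneg_right h2 h1]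

theorem LockA_steep (B : Lk m c Ω) {x a : ℝ} {Z : Set (E m)} (hZ : MeasurableSet Z) {f : Ω → ℝ}
    (hf : Integrable f B.μ) (h : ∀ᵐ y ∂B.μ, 0 ≤ f y ∧ (x < B.d y → a ≤ f y)) :
    a * B.steep x Z ≤ ∫ y in B.ζ ⁻¹' Z, f y ∂B.μ := by
  have := B.fin
  have hm := B.mζ hZ
  have hS : MeasurableSet {y | x < B.d y ∧ B.ζ y ∈ Z} :=
    (measurableSet_lt measurable_const B.md).inter hm
  rw [steep, ← measureReal_def, ← integral_indicator_one hS, ← integral_const_mul,
    ← integral_indicator hm]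
  refine integral_mono_ae (((integrable_const (1 : ℝ)).indicator hS).const_mul a)
    (hf.indicator hm) (h.mono fun y hy => ?_)
  by_cases h1 : y ∈ {y | x < B.d y ∧ B.ζ y ∈ Z}
  · simp only [indicator_of_mem h1, indicator_of_mem (show y ∈ B.ζ ⁻¹' Z from h1.2),
      Pi.one_apply, mul_one]
    exact hy.2 h1.1
  · simp only [indicator_of_notMem h1, mul_zero]
    by_cases h2 : y ∈ B.ζ ⁻¹' Z
    · rw [indicator_of_mem h2]
      exact hy.1
    · rw [indicator_of_notMem h2]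

theorem steep_le (B : Lk m c Ω) {x : ℝ} (hx : 0 < x) {Z : Set (E m)} (hZ : MeasurableSet Z) :
    x * B.steep x Z ≤ B.PP Z ∧ x ^ 2 * B.steep x Z ≤ B.D2 Z :=
  ⟨B.LockA_steep hZ B.LockA_int (B.ae.mono fun y hy =>
      ⟨add_nonneg hy.2.1 hy.2.2.2.1, fun h => by linarith only [hy, h, hy.2.2.2.1]⟩),
    B.LockA_steep hZ B.LockA_d2 (Eventually.of_forall fun y =>
      ⟨sq_nonneg _, fun h => pow_le_pow_left₀ hx.le h.le 2⟩)⟩

theorem LockA_mrho (B : Lk m c Ω) (r : ℝ) (ξ : E m) : Measurable fun y => rho r (B.ζ y - ξ) :=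
  (contDiff_rho r).continuous.measurable.comp (B.mζ.sub_const ξ)

theorem LockA_rho (B : Lk m c Ω) {r : ℝ} (hr : 0 < r) (ξ : E m) {w : Ω → ℝ}
    (hw : Integrable w B.μ) : Integrable (fun y => rho r (B.ζ y - ξ) * w y) B.μ :=
  hw.bdd_mul (c := 1 / (cg m * r ^ m)) (B.LockA_mrho r ξ).aestronglyMeasurable
    (Eventually.of_forall fun y => by
      rw [Real.norm_of_nonneg (rho_nonneg hr _)]
      exact rho_le hr _)

theorem continuousOn_ff (B : Lk m c Ω) :
    ContinuousOn (fun q : ℝ × E m => B.ff q.1 q.2) (Ioi 0 ×ˢ univ) := by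
  intro q hq
  have hq0 : 0 < q.1 := hq.1
  have hc := cg_pos m
  refine ContinuousAt.continuousWithinAt ?_
  have hn : ∀ᶠ p : ℝ × E m in 𝓝 q, q.1 / 2 < p.1 :=
    continuousAt_fst.eventually (lt_mem_nhds (by linarith))
  refine continuousAt_of_dominated
    (F := fun (p : ℝ × E m) y => rho p.1 (B.ζ y - p.2) * (1 - B.d y / 2))
    (bound := fun y => 1 / (cg m * (q.1 / 2) ^ m) * ‖1 - B.d y / 2‖)
    (Eventually.of_forall fun p =>
      ((B.LockA_mrho p.1 p.2).aestronglyMeasurable.mul B.LockA_w.1))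
    (hn.mono fun p hp => Eventually.of_forall fun y => ?_) (B.LockA_w.norm.const_mul _)
    (Eventually.of_forall fun y => ?_)
  · have hp0 : 0 < p.1 := by linarith
    rw [norm_mul, Real.norm_of_nonneg (rho_nonneg hp0 _)]
    refine mul_le_mul_of_nonneg_right ((rho_le hp0 _).trans ?_) (norm_nonneg _)
    gcongr
  · refine ContinuousAt.mul ?_ continuousAt_const
    have h1 : ContinuousAt (fun q : ℝ × E m => rho q.1 q.2) (q.1, B.ζ y - q.2) :=
      continuousOn_rho.continuousAt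
        ((isOpen_Ioi.prod isOpen_univ).mem_nhds ⟨hq0, mem_univ _⟩)
    exact ContinuousAt.comp (f := fun p : ℝ × E m => (p.1, B.ζ y - p.2)) h1 (by fun_prop)

theorem ff_eq_Y (B : Lk m c Ω) (Q : ℕ) {s : ℝ} (hs : 0 < s) (ξ : E m) :
    B.ff s ξ - Q = -B.Y Q (fun x => rho s (x - ξ)) / 2 := by
  rw [Y, integral_rho hs, ff]
  ring

theorem LockA_le (B : Lk m c Ω) {Z : Set (E m)} (hZ : MeasurableSet Z) {f : Ω → ℝ} {a : ℝ}
    (h : ∀ᵐ y ∂B.μ, (B.ζ y ∈ Z → |f y| ≤ a * (B.d y + B.h y)) ∧ (B.ζ y ∉ Z → f y = 0)) :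
    |∫ y, f y ∂B.μ| ≤ a * B.PP Z := by
  have hm := B.mζ hZ
  rw [PP, ← integral_const_mul, ← integral_indicator hm]
  refine norm_integral_le_of_norm_le (f := f) ((B.LockA_int.const_mul a).indicator hm)
    (h.mono fun y hy => ?_)
  by_cases hz : B.ζ y ∈ Z
  · rw [indicator_of_mem (show y ∈ B.ζ ⁻¹' Z from hz)]
    exact hy.1 hz
  · rw [indicator_of_notMem (show y ∉ B.ζ ⁻¹' Z from hz), hy.2 hz, norm_zero]

theorem LockA_ev (i : Fin m) : ‖(ev i : E m)‖ = 1 := by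
  simp [ev]

theorem LockA_sum {A : Fin m → Fin m → ℝ} {L : E m →L[ℝ] E m} {a b : ℝ} (hA : ∀ i j, |A i j| ≤ a)
    (hL : ‖L‖ ≤ b) : |∑ i, ∑ j, A i j * ⟪ev i, L (ev j)⟫| ≤ m * (m * (a * b)) := by
  have h1 : ∀ i j, |A i j * ⟪ev i, L (ev j)⟫| ≤ a * b := fun i j => by
    rw [abs_mul]
    refine mul_le_mul (hA i j) ((abs_real_inner_le_norm _ _).trans ?_) (abs_nonneg _)
      ((abs_nonneg _).trans (hA i j))
    rw [LockA_ev, one_mul]
    refine (L.le_opNorm _).trans ?_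
    rw [LockA_ev, mul_one]
    exact hL
  refine (Finset.abs_sum_le_sum_abs _ _).trans ?_
  refine (Finset.sum_le_card_nsmul _ _ (m * (a * b)) fun i _ => ?_).trans (by simp)
  refine (Finset.abs_sum_le_sum_abs _ _).trans ?_
  exact (Finset.sum_le_card_nsmul _ _ (a * b) fun j _ => h1 i j).trans (by simp)

theorem LockA_inner (B : Lk m c Ω) {Z : Set (E m)} (hZ : MeasurableSet Z) (hZO : Z ⊆ B.O)
    {V : E m → E m} (hV : Test 1 V Z) {a : ℝ} (h0 : ∀ x, ‖V x‖ ≤ a)
    (h1 : ∀ x, ‖fderiv ℝ V x‖ ≤ a) :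
    |∫ y, dv V (B.ζ y) * (1 - B.d y / 2) ∂B.μ| ≤ ((m * m + 1) * c + m) * a * B.PP Z := by
  have h2 := B.inner V ⟨hV.smooth, hV.cpt, hV.supp.trans hZO⟩
  have ha : 0 ≤ a := (norm_nonneg _).trans (h0 0)
  have hc : 0 ≤ c := zero_le_one.trans B.c_ge
  have hm : (0 : ℝ) ≤ m := Nat.cast_nonneg m
  have hz : ∀ x, x ∉ Z → V x = 0 ∧ fderiv ℝ V x = 0 := fun x hx =>
    ⟨image_eq_zero_of_notMem_tsupport fun h => hx (hV.supp h),
      fderiv_of_notMem_tsupport _ fun h => hx (hV.supp h)⟩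
  have hs : ContDiff ℝ 1 V := by exact_mod_cast hV.smooth
  have hdv : ∀ x, |dv V x| ≤ m * a := fun x =>
    (abs_dv_le V x).trans (mul_le_mul_of_nonneg_left (h1 x) hm)
  have m1 : Measurable fun y => dv V (B.ζ y) := (continuous_dv hs).measurable.comp B.mζ
  have m2 : Measurable fun y => ∑ i, ∑ j, B.Nm y i j * ⟪ev i, fderiv ℝ V (B.ζ y) (ev j)⟫ := by
    refine Finset.measurable_sum _ fun i _ => Finset.measurable_sum _ fun j _ =>
      (B.mN i j).mul ?_
    have hc' := hs.continuous_fderiv (by simp)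
    exact (show Continuous fun x => ⟪ev i, fderiv ℝ V x (ev j)⟫ by fun_prop).measurable.comp B.mζ
  have m3 : Measurable fun y => ⟪B.Bv y, V (B.ζ y)⟫ :=
    B.mBv.inner (hs.continuous.measurable.comp B.mζ)
  have b2 : ∀ᵐ y ∂B.μ, |∑ i, ∑ j, B.Nm y i j * ⟪ev i, fderiv ℝ V (B.ζ y) (ev j)⟫| ≤
      m * (m * (c * B.d y * a)) := B.ae.mono fun y hy => LockA_sum hy.2.2.2.2.2.1 (h1 _)
  have b3 : ∀ᵐ y ∂B.μ, |⟪B.Bv y, V (B.ζ y)⟫| ≤ c * (B.d y + B.h y) * a :=
    B.ae.mono fun y hy => (abs_real_inner_le_norm _ _).trans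
      (mul_le_mul hy.2.2.2.2.2.2.1 (h0 _) (norm_nonneg _)
        (mul_nonneg hc (add_nonneg hy.2.1 hy.2.2.2.1)))
  have i1 : Integrable (fun y => dv V (B.ζ y) * (1 - B.d y / 2)) B.μ :=
    B.LockA_w.bdd_mul (c := m * a) m1.aestronglyMeasurable (Eventually.of_forall fun y => hdv _)
  have i0 : Integrable (fun y => dv V (B.ζ y)) B.μ :=
    B.integrable_of_bd m1 (M := m * a) (Eventually.of_forall fun y => hdv _)
  have i2 : Integrable
      (fun y => ∑ i, ∑ j, B.Nm y i j * ⟪ev i, fderiv ℝ V (B.ζ y) (ev j)⟫) B.μ :=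
    ((((B.LockA_d.const_mul c).mul_const a).const_mul (m : ℝ)).const_mul (m : ℝ)).mono'
      m2.aestronglyMeasurable b2
  have i3 : Integrable (fun y => ⟪B.Bv y, V (B.ζ y)⟫) B.μ :=
    ((B.LockA_int.const_mul c).mul_const a).mono' m3.aestronglyMeasurable b3
  have h3 := B.LockA_le hZ (a := ((m * m + 1) * c + m) * a)
    (f := fun y => dv V (B.ζ y) * (1 - B.d y / 2) -
      (dv V (B.ζ y) - ∑ i, ∑ j, B.Nm y i j * ⟪ev i, fderiv ℝ V (B.ζ y) (ev j)⟫ +
        ⟪B.Bv y, V (B.ζ y)⟫)) (by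
      filter_upwards [B.ae, b2, b3] with y hy e2 e3
      obtain ⟨-, d0, -, h0', -⟩ := hy
      refine ⟨fun _ => ?_, fun h => by simp [dv, (hz _ h).1, (hz _ h).2]⟩
      have e1 : |dv V (B.ζ y) * B.d y| ≤ m * a * B.d y := by
        rw [abs_mul, abs_of_nonneg d0]
        exact mul_le_mul_of_nonneg_right (hdv _) d0
      have e4 : 0 ≤ m * a * B.d y := by positivity
      have e5 : 0 ≤ m * a * B.h y := by positivity
      have e6 : 0 ≤ m * (m * (c * B.h y * a)) := by positivity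
      rw [abs_le] at e1 e2 e3 ⊢
      constructor <;> linarith only [e1.1, e1.2, e2.1, e2.2, e3.1, e3.2, e4, e5, e6])
  have i4 : Integrable (fun y => dv V (B.ζ y) -
      ∑ i, ∑ j, B.Nm y i j * ⟪ev i, fderiv ℝ V (B.ζ y) (ev j)⟫ + ⟪B.Bv y, V (B.ζ y)⟫) B.μ :=
    (i0.sub i2).add i3
  rwa [integral_sub i1 i4, h2, sub_zero] at h3

theorem LockA_scale (m : ℕ) (hm : 1 ≤ m) (c : ℝ) : ∃ C : ℝ, 0 ≤ C ∧
    ∀ {Ω : Type} [MeasurableSpace Ω] (B : Lk m c Ω) (ξ : E m) (r s : ℝ), 0 < r → r ≤ s →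
      s ≤ 10 → closedBall ξ s ⊆ B.O →
      |B.ff r ξ - B.ff s ξ| ≤ C * B.PP (closedBall ξ s) / r ^ m := by
  obtain ⟨C, hC, h⟩ := Gt_bd m hm
  refine ⟨((m * m + 1) * |c| + m) * (10 * C), by positivity, fun B ξ r s hr hrs hs hO => ?_⟩
  rw [abs_of_nonneg (zero_le_one.trans B.c_ge)]
  have hG : ContDiff ℝ 1 (fun x : E m => Gt r s x • x) :=
    ((contDiff_Gm hr hrs).2.of_le (by norm_num)).smul contDiff_id
  have hz : ∀ x : E m, s ≤ ‖x‖ → Gt r s x = 0 := fun x hx => (Gm_eq_zero hr hrs hx).2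
  have hsupp : tsupport (fun w : E m => Gt r s (w - ξ) • (w - ξ)) ⊆ closedBall ξ s :=
    closure_minimal (fun w hw => by
      by_contra hn
      refine hw ?_
      simp only [hz _ (not_le.1 fun h' => hn (mem_closedBall_iff_norm.2 h')).le, zero_smul])
      isClosed_closedBall
  have hmax : ∀ v : E m, C / (max ‖v‖ r) ^ m ≤ C / r ^ m := fun v => by
    gcongr
    exact le_max_right _ _
  have hpos : 0 ≤ C / r ^ m := by positivity
  have hD : ∀ w, fderiv ℝ (fun w : E m => Gt r s (w - ξ) • (w - ξ)) w =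
      fderiv ℝ (fun x : E m => Gt r s x • x) (w - ξ) := fun w =>
    fderiv_comp_sub (f := fun x : E m => Gt r s x • x) ξ
  have h1 := B.LockA_inner measurableSet_closedBall hO (a := 10 * C / r ^ m)
    (V := fun w => Gt r s (w - ξ) • (w - ξ))
    ⟨by exact_mod_cast hG.comp (contDiff_id.sub contDiff_const),
      (isCompact_closedBall ξ s).of_isClosed_subset (isClosed_tsupport _) hsupp, hsupp⟩
    (fun x => by
      rw [mul_div_assoc]
      by_cases hx : s ≤ ‖x - ξ‖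
      · simp only [hz _ hx, zero_smul, norm_zero]
        positivity
      · rw [norm_smul, Real.norm_of_nonneg (Gm_nonneg hr hrs _).2, mul_comm]
        exact mul_le_mul (by linarith) ((h r s hr hrs _).1.trans (hmax _))
          (Gm_nonneg hr hrs _).2 (by norm_num))
    (fun x => by
      rw [hD, mul_div_assoc]
      linarith [(h r s hr hrs (x - ξ)).2.2.1.trans (hmax _)])
  have h2 : B.ff r ξ - B.ff s ξ =
      ∫ y, dv (fun w => Gt r s (w - ξ) • (w - ξ)) (B.ζ y) * (1 - B.d y / 2) ∂B.μ := by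
    rw [ff, ff, ← integral_sub (B.LockA_rho hr ξ B.LockA_w)
      (B.LockA_rho (hr.trans_le hrs) ξ B.LockA_w)]
    refine integral_congr_ae (Eventually.of_forall fun y => ?_)
    have e1 := dv_Gt hr hrs (B.ζ y - ξ)
    rw [dv] at e1
    simp only [dv, hD, e1]
    ring
  rw [h2]
  exact h1.trans_eq (by ring)

theorem LockA_centre (m : ℕ) (c : ℝ) : ∃ C : ℝ, 0 ≤ C ∧
    ∀ {Ω : Type} [MeasurableSpace Ω] (B : Lk m c Ω) (ξ ξ' q : E m) (s ρ : ℝ), 0 < s → s ≤ 10 →
      ξ ∈ closedBall q ρ → ξ' ∈ closedBall q ρ → closedBall q (ρ + s) ⊆ B.O →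
      |B.ff s ξ - B.ff s ξ'| ≤ C * B.PP (closedBall q (ρ + s)) / s ^ (m + 1) * ‖ξ - ξ'‖ := by
  obtain ⟨C, hC, h⟩ := rho_bd m
  refine ⟨((m * m + 1) * |c| + m) * (10 * C), by positivity,
    fun B ξ ξ' q s ρ hs hs1 hξ hξ' hq => ?_⟩
  have hc : 0 ≤ c := zero_le_one.trans B.c_ge
  rw [abs_of_nonneg hc]
  have hb : Bd2 (rho s : E m → ℝ) (C / s ^ m) (C / s ^ (m + 1)) (C / s ^ (m + 2)) := by
    simpa using (h s hs 0).1
  have hr1 : ContDiff ℝ 1 (rho s : E m → ℝ) := (contDiff_rho s).of_le (by norm_num)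
  obtain ⟨h1, h2⟩ := conv_meas1 B.μ B.mζ B.LockA_w hr1 hb.b0 hb.b1
  have hd := hr1.differentiable (by norm_num)
  refine (convex_closedBall q ρ).norm_image_sub_le_of_norm_fderiv_le (𝕜 := ℝ) (f := B.ff s)
    (fun x _ => h1.differentiable (by norm_num) x) (fun x hx => ?_) hξ' hξ
  have hP := B.LockA_nonneg (closedBall q (ρ + s))
  refine ContinuousLinearMap.opNorm_le_bound _ (by positivity) fun v => ?_
  have hD : ∀ w, HasFDerivAt (fun w => rho s (w - x) • v)
      ((fderiv ℝ (rho s) (w - x)).smulRight v) w := fun w => by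
    have := ((hd (w - x)).hasFDerivAt.comp w ((hasFDerivAt_id w).sub_const x)).smul_const v
    rwa [ContinuousLinearMap.comp_id] at this
  have hsupp : tsupport (fun w => rho s (w - x) • v) ⊆ closedBall x s :=
    (tsupport_smul_subset_left _ _).trans (tsupport_rho hs x)
  have hpos : 0 ≤ C / s ^ (m + 1) := by positivity
  have hsm : ContDiff ℝ 1 fun w : E m => rho s (w - x) • v :=
    (hr1.comp (contDiff_id.sub contDiff_const)).smul contDiff_const
  have h3 := B.LockA_inner measurableSet_closedBall hq (V := fun w => rho s (w - x) • v)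
    (a := 10 * (C / s ^ (m + 1)) * ‖v‖)
    ⟨by exact_mod_cast hsm,
      (isCompact_closedBall x s).of_isClosed_subset (isClosed_tsupport _) hsupp,
      hsupp.trans (closedBall_subset_closedBall' (by linarith [mem_closedBall.1 hx]))⟩
    (fun w => by
      rw [norm_smul]
      refine mul_le_mul_of_nonneg_right ((hb.b0 _).trans ?_) (norm_nonneg _)
      calc C / s ^ m = s * (C / s ^ (m + 1)) := by rw [pow_succ]; field_simp
        _ ≤ _ := mul_le_mul_of_nonneg_right hs1 hpos)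
    (fun w => by
      rw [(hD w).fderiv, ContinuousLinearMap.norm_smulRight_apply]
      exact mul_le_mul_of_nonneg_right ((hb.b1 _).trans (by linarith)) (norm_nonneg _))
  have h4 : ∀ w, dv (fun w => rho s (w - x) • v) w = fderiv ℝ (rho s) (w - x) v := fun w => by
    have e1 : DifferentiableAt ℝ (fun w : E m => rho s (w - x)) w :=
      (hd (w - x)).comp w (differentiableAt_id.sub_const x)
    have e2 := dv_smul (V := fun _ => v) e1 (differentiableAt_const v)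
    rw [e2, fderiv_comp_sub (f := (rho s : E m → ℝ)) x]
    simp [dv]
  have h5 := h2 x v
  change fderiv ℝ (B.ff s) x v = _ at h5
  rw [h5, norm_neg, Real.norm_eq_abs]
  simp only [h4] at h3
  exact h3.trans_eq (by ring)

/-- change of scale: `inner` with `V x = Gt r s (x - ξ) • (x - ξ)` (`dv_Gt`, `Gt_bd`); change of
centre: `inner` with `rho s (· - ξ) • v` bounds the derivative in `ξ`. -/
theorem ff_move (m : ℕ) (hm : 1 ≤ m) (c : ℝ) : ∃ C : ℝ, 1 ≤ C ∧ ∀ {Ω : Type} [MeasurableSpace Ω]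
    (B : Lk m c Ω),
    (∀ (ξ : E m) (r s : ℝ), 0 < r → r ≤ s → s ≤ 10 → closedBall ξ s ⊆ B.O →
      |B.ff r ξ - B.ff s ξ| ≤ C * B.PP (closedBall ξ s) / r ^ m) ∧
    ∀ (ξ ξ' q : E m) (s ρ : ℝ), 0 < s → s ≤ 10 → ξ ∈ closedBall q ρ → ξ' ∈ closedBall q ρ →
      closedBall q (ρ + s) ⊆ B.O →
      |B.ff s ξ - B.ff s ξ'| ≤ C * B.PP (closedBall q (ρ + s)) / s ^ (m + 1) * ‖ξ - ξ'‖ := by
  obtain ⟨C, hC, h⟩ := LockA_scale m hm c
  obtain ⟨C', hC', h'⟩ := LockA_centre m c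
  refine ⟨1 + C + C', by linarith, fun B => ⟨fun ξ r s hr hrs hs hO => ?_,
    fun ξ ξ' q s ρ hs hs1 h1 h2 h3 => ?_⟩⟩
  · refine (h B ξ r s hr hrs hs hO).trans ?_
    have := B.LockA_nonneg (closedBall ξ s)
    gcongr
    linarith
  · refine (h' B ξ ξ' q s ρ hs hs1 h1 h2 h3).trans ?_
    have := B.LockA_nonneg (closedBall q (ρ + s))
    gcongr
    linarith

theorem mass_le_ff (B : Lk m c Ω) (ξ : E m) {s : ℝ} (hs : 0 < s) :
    (B.μ (B.ζ ⁻¹' closedBall ξ (s / 2))).toReal ≤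
      4 * cg m * s ^ m * B.ff s ξ + 2 * B.PP (closedBall ξ s) := by
  have := B.fin
  have hc := cg_pos m
  have hm := B.mζ (measurableSet_closedBall (x := ξ) (ε := s / 2))
  have hm' := B.mζ (measurableSet_closedBall (x := ξ) (ε := s))
  have h1 := (B.LockA_rho hs ξ B.LockA_w).const_mul (4 * cg m * s ^ m)
  have h2 := (B.LockA_int.indicator hm').const_mul 2
  rw [ff, PP, ← integral_const_mul, ← integral_indicator hm', ← integral_const_mul,
    ← integral_add h1 h2, ← measureReal_def, ← integral_indicator_one hm]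
  refine integral_mono_ae ((integrable_const (1 : ℝ)).indicator hm) (h1.add h2)
    (B.ae.mono fun y hy => ?_)
  obtain ⟨-, d0, -, h0, -⟩ := hy
  have k0 : 0 ≤ 4 * cg m * s ^ m * rho s (B.ζ y - ξ) :=
    mul_nonneg (by positivity) (rho_nonneg hs _)
  have k4 : 4 * cg m * s ^ m * rho s (B.ζ y - ξ) ≤ 4 := by
    have := rho_le hs (B.ζ y - ξ)
    rw [le_div_iff₀ (by positivity)] at this
    nlinarith only [this]
  have k1 : indicator (B.ζ ⁻¹' closedBall ξ (s / 2)) (1 : Ω → ℝ) y ≤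
      4 * cg m * s ^ m * rho s (B.ζ y - ξ) := by
    by_cases hz : y ∈ B.ζ ⁻¹' closedBall ξ (s / 2)
    · have h4 := rho_ge hs (x := B.ζ y - ξ) (mem_closedBall_iff_norm.1 hz)
      rw [div_le_iff₀ (by positivity)] at h4
      rw [indicator_of_mem hz, Pi.one_apply]
      linarith
    · rw [indicator_of_notMem hz]
      exact k0
  refine k1.trans ?_
  by_cases hz : y ∈ B.ζ ⁻¹' closedBall ξ s
  · simp only [indicator_of_mem hz]
    nlinarith only [h0, k4, d0, mul_le_mul_of_nonneg_right k4 d0]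
  · simp only [indicator_of_notMem hz,
      rho_eq_zero hs (not_le.1 fun h' => hz (mem_closedBall_iff_norm.2 h')).le]
    simp

theorem LockA_area (B : Lk m c Ω) {g : E m → ℝ} (hg : Measurable g) (h0 : ∀ x, 0 ≤ g x) :
    ∫⁻ y, ENNReal.ofReal (g (B.ζ y) * B.J y) ∂B.μ = ∫⁻ x, ENNReal.ofReal (g x * B.θ x) := by
  simp only [ENNReal.ofReal_mul (h0 _), ENNReal.ofReal_natCast]
  exact B.area _ hg.ennreal_ofReal

theorem LockA_theta (B : Lk m c Ω) : Integrable (fun x => (B.θ x : ℝ)) := by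
  have hm : Measurable fun x => (B.θ x : ℝ) := measurable_from_top.comp B.mθ
  refine ⟨hm.aestronglyMeasurable, ?_⟩
  rw [hasFiniteIntegral_iff_ofReal (Eventually.of_forall fun x => Nat.cast_nonneg _)]
  have := B.LockA_area (g := fun _ => 1) measurable_const fun _ => zero_le_one
  simp only [one_mul] at this
  rw [← this]
  exact B.LockA_J.lintegral_lt_top

/-- Lebesgue points of `θ` (which is integrable by `area`) and the area formula -/
theorem ae_ff_lim (B : Lk m c Ω) :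
    ∀ᵐ ξ : E m, ∀ ε > 0, ∀ᶠ r in 𝓝[>] (0 : ℝ),
      |B.ff r ξ - B.θ ξ| ≤ ε + c * (m + 1) / cg m * B.PP (ball ξ r) / r ^ m := by
  have hθ := B.LockA_theta
  have hcg := cg_pos m
  have hc0 : 0 ≤ c := zero_le_one.trans B.c_ge
  filter_upwards [(Besicovitch.vitaliFamily volume).ae_tendsto_average_norm_sub
    hθ.locallyIntegrable] with ξ hξ ε hε
  have h1 := (hξ.comp (Besicovitch.tendsto_filterAt volume ξ)).eventually
    (gt_mem_nhds (show 0 < ε * cg m / 2 ^ m by positivity))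
  filter_upwards [h1, self_mem_nhdsWithin] with r h2 hr
  replace hr : 0 < r := hr
  have hc : Continuous fun x => rho r (x - ξ) := (contDiff_rho r).continuous.comp (by fun_prop)
  have hb : ∀ x, ‖rho r (x - ξ)‖ ≤ 1 / (cg m * r ^ m) := fun x => by
    rw [Real.norm_of_nonneg (rho_nonneg hr _)]
    exact rho_le hr _
  have i1 : Integrable fun x => rho r (x - ξ) * (B.θ x : ℝ) :=
    hθ.bdd_mul hc.aestronglyMeasurable (Eventually.of_forall hb)
  have i2 : Integrable fun x => rho r (x - ξ) := hc.integrable_of_hasCompactSupport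
    ((isCompact_closedBall ξ r).of_isClosed_subset (isClosed_tsupport _) (tsupport_rho hr ξ))
  have e1 : ∫ y, rho r (B.ζ y - ξ) * B.J y ∂B.μ = ∫ x, rho r (x - ξ) * (B.θ x : ℝ) := by
    rw [integral_eq_lintegral_of_nonneg_ae
        (B.ae.mono fun y hy => mul_nonneg (rho_nonneg hr _) hy.2.2.2.2.2.2.2.1)
        (B.LockA_rho hr ξ B.LockA_J).1,
      integral_eq_lintegral_of_nonneg_ae
        (Eventually.of_forall fun x => mul_nonneg (rho_nonneg hr _) (Nat.cast_nonneg _)) i1.1,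
      B.LockA_area hc.measurable fun x => rho_nonneg hr _]
  have e2 := B.LockA_le (measurableSet_ball (x := ξ) (ε := r))
    (a := 1 / (cg m * r ^ m) * (c * (m + 1)))
    (f := fun y => rho r (B.ζ y - ξ) * (1 - B.d y / 2) - rho r (B.ζ y - ξ) * B.J y)
    (B.ae.mono fun y hy => by
      obtain ⟨-, h1, h2, h3, -, -, -, -, h6⟩ := hy
      refine ⟨fun _ => ?_, fun h => ?_⟩
      · rw [← mul_sub, abs_mul, mul_assoc, mul_assoc]
        refine mul_le_mul (hb _) (h6.trans (mul_le_mul_of_nonneg_left ?_ hc0)) (abs_nonneg _)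
          (by positivity)
        have h4 : (0 : ℝ) ≤ m := Nat.cast_nonneg m
        nlinarith only [h1, h4, h3, h2, mul_nonneg h4 h3, mul_le_mul_of_nonneg_right h2 h1]
      · rw [rho_eq_zero hr (not_lt.1 fun h' => h (mem_ball_iff_norm.2 h'))]
        ring)
  rw [integral_sub (B.LockA_rho hr ξ B.LockA_w) (B.LockA_rho hr ξ B.LockA_J), e1] at e2
  have e3 : |(∫ x, rho r (x - ξ) * (B.θ x : ℝ)) - B.θ ξ| ≤ ε := by
    have e4 : (∫ x, rho r (x - ξ) * (B.θ x : ℝ)) - B.θ ξ =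
        ∫ x, rho r (x - ξ) * ((B.θ x : ℝ) - B.θ ξ) := by
      simp only [mul_sub]
      rw [integral_sub i1 (i2.mul_const _), integral_mul_const, integral_rho hr, one_mul]
    have hm := measurableSet_closedBall (x := ξ) (ε := r)
    have i3 : IntegrableOn (fun x => 1 / (cg m * r ^ m) * ‖(B.θ x : ℝ) - B.θ ξ‖)
        (closedBall ξ r) :=
      ((hθ.integrableOn.sub (integrableOn_const measure_closedBall_lt_top.ne)).norm).const_mul _
    have e5 := norm_integral_le_of_norm_le (i3.integrable_indicator hm)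
      (f := fun x => rho r (x - ξ) * ((B.θ x : ℝ) - B.θ ξ)) (Eventually.of_forall fun x => by
        by_cases hx : x ∈ closedBall ξ r
        · rw [indicator_of_mem hx, norm_mul]
          exact mul_le_mul_of_nonneg_right (hb x) (norm_nonneg _)
        · rw [indicator_of_notMem hx,
            rho_eq_zero hr (not_le.1 fun h' => hx (mem_closedBall_iff_norm.2 h')).le]
          simp)
    rw [integral_indicator hm, integral_const_mul] at e5
    obtain ⟨hv, hv'⟩ := volume_ball_le ξ hr.le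
    simp only [Function.comp, setAverage_eq, smul_eq_mul, measureReal_def] at h2
    rw [inv_mul_lt_iff₀ (lt_of_lt_of_le (by positivity) hv')] at h2
    rw [e4]
    refine e5.trans ?_
    calc _ ≤ 1 / (cg m * r ^ m) * (2 ^ m * r ^ m * (ε * cg m / 2 ^ m)) :=
          mul_le_mul_of_nonneg_left
            (h2.le.trans (mul_le_mul_of_nonneg_right hv (by positivity))) (by positivity)
      _ = ε := by field_simp
  rw [show c * (m + 1) / cg m * B.PP (ball ξ r) / r ^ m =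
    1 / (cg m * r ^ m) * (c * (m + 1)) * B.PP (ball ξ r) by field_simp, ff]
  obtain ⟨h3, h4⟩ := abs_le.1 e2
  obtain ⟨h5, h6⟩ := abs_le.1 e3
  exact abs_le.2 ⟨by linarith only [h3, h5], by linarith only [h4, h6]⟩

theorem LockA_b0 (B : Lk m c Ω) : ∀ᵐ y ∂B.μ, 0 ≤ 2 * c * (B.d y ^ 2 + B.h y) :=
  B.ae.mono fun _ hy => mul_nonneg (mul_nonneg zero_le_two (zero_le_one.trans B.c_ge))
    (add_nonneg (sq_nonneg _) hy.2.2.2.1)

theorem LockA_apply (B : Lk m c Ω) (Q : ℕ) {Z : Set (E m)} (hZ : MeasurableSet Z) :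
    B.bet Q Z = ENNReal.ofReal (2 * c * (B.D2 Z + ∫ y in B.ζ ⁻¹' Z, B.h y ∂B.μ)) +
      ∫⁻ ξ in Z, ENNReal.ofReal (2 * |(B.θ ξ : ℝ) - Q|) := by
  rw [bet, Measure.add_apply, Measure.map_apply B.mζ hZ, withDensity_apply _ (B.mζ hZ),
    withDensity_apply _ hZ, D2,
    ← integral_add B.LockA_d2.integrableOn B.LockA_h.integrableOn, ← integral_const_mul,
    ofReal_integral_eq_lintegral_ofReal B.LockA_b.integrableOn (ae_restrict_of_ae B.LockA_b0)]

theorem bet_finite (B : Lk m c Ω) (Q : ℕ) {Z : Set (E m)} (hZ : Bornology.IsBounded Z) :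
    B.bet Q Z < ⊤ := by
  obtain ⟨R, hR⟩ := hZ.subset_closedBall 0
  refine (measure_mono hR).trans_lt ?_
  rw [B.LockA_apply Q measurableSet_closedBall]
  refine ENNReal.add_lt_top.2 ⟨ENNReal.ofReal_lt_top, ?_⟩
  have i3 : IntegrableOn (fun ξ => 2 * |(B.θ ξ : ℝ) - Q|) (closedBall (0 : E m) R) :=
    ((B.LockA_theta.integrableOn.sub
      (integrableOn_const measure_closedBall_lt_top.ne)).abs).const_mul _
  exact i3.lintegral_lt_top

theorem bet_apply (B : Lk m c Ω) (Q : ℕ) {Z : Set (E m)} (hZ : MeasurableSet Z) :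
    B.bet Q Z = ENNReal.ofReal (2 * c * (B.D2 Z + ∫ y in B.ζ ⁻¹' Z, B.h y ∂B.μ)) +
      ∫⁻ ξ in Z, ENNReal.ofReal (2 * |(B.θ ξ : ℝ) - Q|) :=
  B.LockA_apply Q hZ

theorem LockA_wd (B : Lk m c Ω) {f g : Ω → ℝ} (hf : Measurable f) (h0 : ∀ᵐ y ∂B.μ, 0 ≤ f y) :
    ∫ y, g y ∂(B.μ.withDensity fun y => ENNReal.ofReal (f y)) = ∫ y, f y * g y ∂B.μ := by
  rw [integral_withDensity_eq_integral_toReal_smul hf.ennreal_ofReal (by simp)]
  exact integral_congr_ae (h0.mono fun y hy => by simp [hy])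

theorem LockA_map (B : Lk m c Ω) : (B.μ.withDensity fun y => ENNReal.ofReal (B.J y)).map B.ζ =
    volume.withDensity fun ξ => ENNReal.ofReal (B.θ ξ) := by
  ext Z hZ
  rw [Measure.map_apply B.mζ hZ, withDensity_apply _ (B.mζ hZ), withDensity_apply _ hZ,
    ← lintegral_indicator hZ, ← lintegral_indicator (B.mζ hZ)]
  refine Eq.trans (lintegral_congr fun y => ?_)
    ((B.area (Z.indicator 1) (measurable_one.indicator hZ)).trans (lintegral_congr fun ξ => ?_))
  · by_cases hy : B.ζ y ∈ Z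
    · simp [indicator_of_mem hy, indicator_of_mem (show y ∈ B.ζ ⁻¹' Z from hy)]
    · simp [indicator_of_notMem hy, indicator_of_notMem (show y ∉ B.ζ ⁻¹' Z from hy)]
  · by_cases hy : ξ ∈ Z
    · simp [indicator_of_mem hy]
    · simp [indicator_of_notMem hy]

/-- the defect is dominated by `bet` -/
theorem abs_Y_le (B : Lk m c Ω) (Q : ℕ) {g : E m → ℝ} (hg : Measurable g) {M ρ : ℝ}
    (hM : ∀ x, |g x| ≤ M) (hρ : ∀ x, ρ ≤ ‖x‖ → g x = 0) :
    Integrable g (B.bet Q) ∧ |B.Y Q g| ≤ ∫ x, |g x| ∂(B.bet Q) := by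
  have mθ : Measurable fun ξ => (B.θ ξ : ℝ) := measurable_from_top.comp B.mθ
  have mθ' : Measurable fun ξ => 2 * |(B.θ ξ : ℝ) - Q| := by fun_prop
  have md : Measurable fun y => 2 * c * (B.d y ^ 2 + B.h y) :=
    ((B.md.pow_const 2).add B.mh).const_mul (2 * c)
  have i1 := B.LockA_b
  have i2 := B.LockA_J
  have i3 := B.LockA_w
  have f1 := isFiniteMeasure_withDensity_ofReal i1.2
  have f2 := isFiniteMeasure_withDensity_ofReal i2.2
  have ig : Integrable g := by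
    refine (integrableOn_iff_integrable_of_support_subset (s := ball 0 ρ) fun x hx => ?_).1
      (IntegrableOn.of_bound measure_ball_lt_top hg.aestronglyMeasurable M
        (Eventually.of_forall hM))
    exact mem_ball_zero_iff.2 (not_le.1 fun h => hx (hρ x h))
  have igθ : Integrable fun ξ => (B.θ ξ : ℝ) * g ξ :=
    B.LockA_theta.mul_bdd hg.aestronglyMeasurable (Eventually.of_forall hM)
  have iQ : Integrable fun ξ => ((B.θ ξ : ℝ) - Q) * g ξ := by
    simp only [sub_mul]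
    exact igθ.sub (ig.const_mul Q)
  have j1 := Integrable.of_bound
    (μ := (B.μ.withDensity fun y => ENNReal.ofReal (2 * c * (B.d y ^ 2 + B.h y))).map B.ζ)
    hg.aestronglyMeasurable M (Eventually.of_forall hM)
  have j2 : Integrable g (volume.withDensity fun ξ => ENNReal.ofReal (2 * |(B.θ ξ : ℝ) - Q|)) := by
    rw [integrable_withDensity_iff_integrable_smul' mθ'.ennreal_ofReal
      (Eventually.of_forall fun _ => ENNReal.ofReal_lt_top)]
    refine (iQ.norm.const_mul 2).mono'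
      (mθ'.ennreal_ofReal.ennreal_toReal.mul hg).aestronglyMeasurable
      (Eventually.of_forall fun ξ => le_of_eq ?_)
    rw [ENNReal.toReal_ofReal (by positivity)]
    simp [mul_assoc]
  refine ⟨j1.add_measure j2, ?_⟩
  have hgζ := (hg.comp B.mζ).aestronglyMeasurable (μ := B.μ)
  have hb : ∀ᵐ y ∂B.μ, ‖g (B.ζ y)‖ ≤ M := Eventually.of_forall fun y => hM _
  have hb' : ∀ᵐ y ∂B.μ, ‖|g (B.ζ y)|‖ ≤ M := Eventually.of_forall fun y => by simpa using hM _
  have k1 := i1.mul_bdd hgζ.norm hb'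
  have k2 := i2.mul_bdd hgζ hb
  have k3 := i3.bdd_mul hgζ hb
  simp only [Function.comp_apply, Real.norm_eq_abs] at k1 k2 k3
  have e1 : ∫ y, B.J y * g (B.ζ y) ∂B.μ = ∫ ξ, (B.θ ξ : ℝ) * g ξ := by
    rw [← B.LockA_wd B.mJ (B.ae.mono fun y hy => hy.2.2.2.2.2.2.2.1),
      ← integral_map B.mζ.aemeasurable hg.aestronglyMeasurable, B.LockA_map,
      integral_withDensity_eq_integral_toReal_smul mθ.ennreal_ofReal (by simp)]
    simp
  have e2 : ∫ x, |g x| ∂(B.bet Q) = ∫ y, 2 * c * (B.d y ^ 2 + B.h y) * |g (B.ζ y)| ∂B.μ +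
      2 * ∫ ξ, |((B.θ ξ : ℝ) - Q) * g ξ| := by
    rw [bet, integral_add_measure j1.abs j2.abs,
      integral_map B.mζ.aemeasurable hg.abs.aestronglyMeasurable,
      B.LockA_wd md B.LockA_b0,
      integral_withDensity_eq_integral_toReal_smul mθ'.ennreal_ofReal
        (Eventually.of_forall fun _ => ENNReal.ofReal_lt_top),
      ← integral_const_mul]
    refine congrArg _ (integral_congr_ae (Eventually.of_forall fun ξ => ?_))
    dsimp only
    rw [ENNReal.toReal_ofReal (by positivity), abs_mul, smul_eq_mul, mul_assoc]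
  have e3 : ∫ ξ, ((B.θ ξ : ℝ) - Q) * g ξ = (∫ ξ, (B.θ ξ : ℝ) * g ξ) - Q * ∫ ξ, g ξ := by
    simp only [sub_mul]
    rw [integral_sub igθ (ig.const_mul Q), integral_const_mul]
  have e4 := abs_integral_le_integral_abs (f := fun ξ => ((B.θ ξ : ℝ) - Q) * g ξ) (μ := volume)
  have e5 : |∫ y, 2 * (B.J y * g (B.ζ y) - g (B.ζ y) * (1 - B.d y / 2)) ∂B.μ| ≤
      ∫ y, 2 * c * (B.d y ^ 2 + B.h y) * |g (B.ζ y)| ∂B.μ := by
    rw [← Real.norm_eq_abs]
    refine norm_integral_le_of_norm_le k1 (B.ae.mono fun y hy => ?_)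
    have h1 := mul_le_mul_of_nonneg_left hy.2.2.2.2.2.2.2.2 (abs_nonneg (g (B.ζ y)))
    rw [show 2 * (B.J y * g (B.ζ y) - g (B.ζ y) * (1 - B.d y / 2)) =
      -2 * (g (B.ζ y) * (1 - B.d y / 2 - B.J y)) by ring, Real.norm_eq_abs, abs_mul, abs_mul,
      abs_neg, abs_two]
    linarith only [h1]
  rw [integral_const_mul, integral_sub k2 k3, e1] at e5
  rw [e3] at e4
  rw [e2, Y, abs_le]
  rw [abs_le] at e4 e5
  constructor <;> linarith only [e4.1, e4.2, e5.1, e5.2]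

end Lk

end Pool.Agent.MP_f6c0e6_an.Gen

end

section

/-! One scale. -/

set_option autoImplicit false

open MeasureTheory Filter Topology Set Metric
open scoped ENNReal RealInnerProductSpace

namespace Pool.Agent.MP_f6c0e6_an.Gen

variable {m N : ℕ}

/-- Chebyshev's inequality for a convolution -/
theorem LockB_cheb {Ω : Type} [MeasurableSpace Ω] (μ : Measure Ω) [IsFiniteMeasure μ]
    {ζ : Ω → E m} (hζ : Measurable ζ) {g : Ω → ℝ} (hg : Measurable g) (hgi : Integrable g μ)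
    {k : E m → ℝ} (hk : Measurable k) (hki : Integrable k) {t : ℝ} (ht : 0 < t) :
    volume {ξ : E m | t < ∫ y, k (ζ y - ξ) * g y ∂μ} ≤
      ENNReal.ofReal ((∫ x, ‖k x‖) * (∫ y, ‖g y‖ ∂μ) / t) := by
  have hm : Measurable (Function.uncurry fun (ξ : E m) (y : Ω) => ‖k (ζ y - ξ)‖ₑ * ‖g y‖ₑ) :=
    (hk.comp ((hζ.comp measurable_snd).sub measurable_fst)).enorm.mul (hg.comp measurable_snd).enorm
  have h1 : {ξ : E m | t < ∫ y, k (ζ y - ξ) * g y ∂μ} ⊆
      {ξ | ENNReal.ofReal t ≤ ∫⁻ y, ‖k (ζ y - ξ)‖ₑ * ‖g y‖ₑ ∂μ} := fun ξ hξ => by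
    have h2 := enorm_integral_le_lintegral_enorm (μ := μ) fun y => k (ζ y - ξ) * g y
    simp only [enorm_mul] at h2
    refine le_trans ?_ h2
    rw [← ofReal_norm]
    exact ENNReal.ofReal_le_ofReal ((le_of_lt hξ).trans (le_abs_self _))
  refine (measure_mono h1).trans ((meas_ge_le_lintegral_div hm.lintegral_prod_right.aemeasurable
    (ENNReal.ofReal_pos.2 ht).ne' ENNReal.ofReal_ne_top).trans (le_of_eq ?_))
  rw [lintegral_lintegral_swap hm.aemeasurable]
  have h3 : ∀ y, ∫⁻ ξ : E m, ‖k (ζ y - ξ)‖ₑ * ‖g y‖ₑ = (∫⁻ x, ‖k x‖ₑ) * ‖g y‖ₑ := fun y => by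
    rw [lintegral_mul_const _ (f := fun ξ : E m => ‖k (ζ y - ξ)‖ₑ)
      (hk.comp (measurable_const.sub measurable_id)).enorm,
      lintegral_sub_left_eq_self (fun x => ‖k x‖ₑ) (ζ y)]
  simp only [h3]
  rw [lintegral_const_mul _ hg.enorm, ← ofReal_integral_norm_eq_lintegral_enorm hki,
    ← ofReal_integral_norm_eq_lintegral_enorm hgi,
    ← ENNReal.ofReal_mul (integral_nonneg fun _ => norm_nonneg _), ENNReal.ofReal_div_of_pos ht]

theorem LockB_pick {S : Set (E m)} {b : ℝ≥0∞} (hb : b < volume S) {P : E m → Prop}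
    (hP : ∀ᵐ ξ : E m, P ξ) {Z : ℕ → Set (E m)} (hZ : ∀ n, volume (Z n) ≤ b) :
    ∃ ξ ∈ S, P ξ ∧ ∃ᶠ n in atTop, ξ ∉ Z n := by
  by_contra hcon
  have hmono : Monotone fun k : ℕ => ⋂ n ≥ k, Z n := fun k k' h =>
    biInter_subset_biInter_left fun n hn => h.trans hn
  have h1 : volume (⋃ k : ℕ, ⋂ n ≥ k, Z n) ≤ b := by
    rw [hmono.measure_iUnion]
    exact iSup_le fun k => (measure_mono (biInter_subset_of_mem (le_refl k))).trans (hZ k)
  have h2 : S ⊆ {ξ | ¬P ξ} ∪ ⋃ k : ℕ, ⋂ n ≥ k, Z n := by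
    intro ξ hξ
    by_cases c1 : P ξ
    · have c3 : ¬∃ᶠ n in atTop, ξ ∉ Z n := fun c => hcon ⟨ξ, hξ, c1, c⟩
      rw [not_frequently] at c3
      obtain ⟨k, hk⟩ := eventually_atTop.1 c3
      exact Or.inr (mem_iUnion.2 ⟨k, mem_iInter₂.2 fun n hn => not_not.1 (hk n hn)⟩)
    · exact Or.inl c1
  have h3 : volume S ≤ b := by
    refine (measure_mono h2).trans ((measure_union_le _ _).trans ?_)
    rw [ae_iff.1 hP, zero_add]
    exact h1
  exact absurd hb (not_lt.2 h3)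

/-- the kernel dominating all the regular terms -/
noncomputable def LockB_k (r s : ℝ) (v : E m) : ℝ :=
  rho r v + rho s v + rho (2 * r) v + Gt r s v * ‖v‖

theorem LockB_cpt {F : Type} [Zero F] [TopologicalSpace F] {f : E m → F} {s : ℝ}
    (h : ∀ v, s ≤ ‖v‖ → f v = 0) (ξ : E m) :
    tsupport (fun x => f (x - ξ)) ⊆ closedBall ξ s ∧ HasCompactSupport fun x => f (x - ξ) := by
  have h1 : tsupport (fun x => f (x - ξ)) ⊆ closedBall ξ s := by
    refine closure_minimal (fun x hx => ?_) isClosed_closedBall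
    by_contra hc
    rw [mem_closedBall_iff_norm, not_le] at hc
    exact hx (h _ hc.le)
  exact ⟨h1, (isCompact_closedBall ξ s).of_isClosed_subset (isClosed_tsupport _) h1⟩

theorem LockB_cpt0 {F : Type} [Zero F] [TopologicalSpace F] {f : E m → F} {s : ℝ}
    (h : ∀ v, s ≤ ‖v‖ → f v = 0) : HasCompactSupport f := by
  simpa using (LockB_cpt h 0).2

theorem LockB_kcont {r s : ℝ} (hr : 0 < r) (hrs : r ≤ s) :
    Continuous (LockB_k r s : E m → ℝ) :=
  (((contDiff_rho r).continuous.add (contDiff_rho s).continuous).add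
    (contDiff_rho (2 * r)).continuous).add
    ((contDiff_Gm hr hrs).2.continuous.mul continuous_norm)

theorem LockB_kcpt {r s : ℝ} (hr : 0 < r) (hrs : r ≤ s) :
    HasCompactSupport (LockB_k r s : E m → ℝ) := by
  refine LockB_cpt0 (s := 2 * s) fun v hv => ?_
  rw [LockB_k, rho_eq_zero hr (by linarith), rho_eq_zero (hr.trans_le hrs) (by linarith),
    rho_eq_zero (by linarith) (by linarith), (Gm_eq_zero hr hrs (by linarith)).2]
  ring

theorem LockB_kge {r s : ℝ} (hr : 0 < r) (hrs : r ≤ s) (v : E m) :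
    0 ≤ LockB_k r s v ∧ rho (2 * r) v ≤ LockB_k r s v ∧
      rho r v + rho s v + Gt r s v * ‖v‖ ≤ LockB_k r s v := by
  have h1 := rho_nonneg hr v
  have h2 := rho_nonneg (hr.trans_le hrs) v
  have h3 := rho_nonneg (show 0 < 2 * r by linarith) v
  have h4 := mul_nonneg (Gm_nonneg hr hrs v).2 (norm_nonneg v)
  unfold LockB_k
  exact ⟨by linarith, by linarith, by linarith⟩

theorem LockB_kint {r s a : ℝ} (hr : 0 < r) (hrs : r ≤ s)
    (ha : ∫ v : E m, Gt r s v * ‖v‖ ≤ a) : ∫ v : E m, ‖LockB_k r s v‖ ≤ 3 + a := by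
  have hi : ∀ t : ℝ, 0 < t → Integrable (rho t : E m → ℝ) ∧ ∫ v : E m, rho t v = 1 := fun t ht => by
    have h1 : ∫ v : E m, rho t v = 1 := by simpa using integral_rho ht (0 : E m)
    exact ⟨integrable_of_integral_eq_one h1, h1⟩
  have hs := hr.trans_le hrs
  have h2 : 0 < 2 * r := by linarith
  have hG : Integrable fun v : E m => Gt r s v * ‖v‖ :=
    ((contDiff_Gm hr hrs).2.continuous.mul continuous_norm).integrable_of_hasCompactSupport
      (LockB_cpt0 (s := s) fun v hv => by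
        rw [Pi.mul_apply, (Gm_eq_zero hr hrs hv).2, zero_mul])
  have h3 : ∀ v : E m, ‖LockB_k r s v‖ = rho r v + rho s v + rho (2 * r) v + Gt r s v * ‖v‖ :=
    fun v => Real.norm_of_nonneg (LockB_kge hr hrs v).1
  simp only [h3]
  have e1 := integral_add (((hi r hr).1.add (hi s hs).1).add (hi _ h2).1) hG
  have e2 := integral_add ((hi r hr).1.add (hi s hs).1) (hi _ h2).1
  have e3 := integral_add (hi r hr).1 (hi s hs).1
  simp only [Pi.add_apply] at e1 e2
  rw [e1, e2, e3, (hi r hr).2, (hi s hs).2, (hi _ h2).2]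
  linarith

namespace Lk

section aux

variable {c : ℝ} {Ω : Type} [MeasurableSpace Ω] (B : Lk m c Ω)

/-- the density of `PP` -/
noncomputable def LockB_G (Z : Set (E m)) (y : Ω) : ℝ :=
  (B.ζ ⁻¹' Z).indicator (fun y => B.d y + B.h y) y

/-- the weights of the singular terms -/
noncomputable def LockB_w (Z : Set (E m)) (i j : Fin m) (y : Ω) : ℝ :=
  (B.ζ ⁻¹' Z).indicator (fun y => B.Nm y i j) y

theorem LockB_int : Integrable (fun y => B.d y + B.h y) B.μ := by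
  refine B.integrable_of_bd (B.md.add B.mh) (M := m + B.T ^ 2) ?_
  filter_upwards [B.ae] with y hy
  obtain ⟨-, h1, h2, h3, h4, -⟩ := hy
  rw [Real.norm_eq_abs, abs_of_nonneg (by linarith)]
  linarith

theorem LockB_Gm {Z : Set (E m)} (hZ : MeasurableSet Z) : Measurable (B.LockB_G Z) :=
  (B.md.add B.mh).indicator (B.mζ hZ)

theorem LockB_Gint {Z : Set (E m)} (hZ : MeasurableSet Z) : Integrable (B.LockB_G Z) B.μ :=
  B.LockB_int.indicator (B.mζ hZ)

theorem LockB_Geq {Z : Set (E m)} (hZ : MeasurableSet Z) : ∫ y, B.LockB_G Z y ∂B.μ = B.PP Z :=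
  integral_indicator (B.mζ hZ)

theorem LockB_Gmem {Z : Set (E m)} {y : Ω} (h : B.ζ y ∈ Z) : B.LockB_G Z y = B.d y + B.h y :=
  indicator_of_mem (s := B.ζ ⁻¹' Z) h _

theorem LockB_Gnn (Z : Set (E m)) {y : Ω} (h : 0 ≤ B.d y + B.h y) : 0 ≤ B.LockB_G Z y :=
  indicator_apply_nonneg fun _ => h

theorem LockB_Gnorm {Z : Set (E m)} (hZ : MeasurableSet Z) :
    ∫ y, ‖B.LockB_G Z y‖ ∂B.μ = B.PP Z := by
  rw [← B.LockB_Geq hZ]
  refine integral_congr_ae ?_
  filter_upwards [B.ae] with y hy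
  exact Real.norm_of_nonneg (B.LockB_Gnn Z (add_nonneg hy.2.1 hy.2.2.2.1))

theorem LockB_wm {Z : Set (E m)} (hZ : MeasurableSet Z) (i j : Fin m) :
    Measurable (B.LockB_w Z i j) := (B.mN i j).indicator (B.mζ hZ)

theorem LockB_wle (Z : Set (E m)) (i j : Fin m) : ∀ᵐ y ∂B.μ,
    |B.LockB_w Z i j y| ≤ c * B.LockB_G Z y ∧ ‖B.ζ y‖ ≤ 100 + c * m ∧
      |B.LockB_w Z i j y| ≤ 100 + c * m := by
  filter_upwards [B.ae] with y hy
  obtain ⟨h0, h1, h2, h3, -, h5, -⟩ := hy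
  have hc : 0 ≤ c := zero_le_one.trans B.c_ge
  have h6 := mul_le_mul_of_nonneg_left h2 hc
  have h7 := mul_nonneg hc h1
  have h8 := mul_nonneg hc h3
  by_cases hy : B.ζ y ∈ Z
  · rw [B.LockB_Gmem hy, LockB_w, indicator_of_mem (s := B.ζ ⁻¹' Z) hy]
    have := h5 i j
    exact ⟨by linarith, by linarith, by linarith⟩
  · have := mul_nonneg hc (B.LockB_Gnn Z (add_nonneg h1 h3))
    rw [LockB_w, indicator_of_notMem (s := B.ζ ⁻¹' Z) hy, abs_zero]
    exact ⟨this, by linarith, by linarith⟩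

theorem LockB_wint {Z : Set (E m)} (hZ : MeasurableSet Z) (i j : Fin m) :
    ∫ y, |B.LockB_w Z i j y| ∂B.μ ≤ c * B.PP Z := by
  rw [← B.LockB_Geq hZ, ← integral_const_mul]
  refine integral_mono_of_nonneg (Eventually.of_forall fun y => abs_nonneg _)
    ((B.LockB_Gint hZ).const_mul c) ?_
  filter_upwards [B.LockB_wle Z i j] with y hy using hy.1

theorem LockB_mul {f : E m → ℝ} (hf : Continuous f) (hc : HasCompactSupport f) (ξ : E m)
    {g : Ω → ℝ} (hg : Integrable g B.μ) : Integrable (fun y => f (B.ζ y - ξ) * g y) B.μ := by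
  obtain ⟨C, hC⟩ := hf.bounded_above_of_compact_support hc
  exact hg.bdd_mul (hf.measurable.comp (B.mζ.sub_const ξ)).aestronglyMeasurable
    (Eventually.of_forall fun y => hC _)

theorem LockB_aint (ξ : E m) {r : ℝ} (hr : 0 < r) :
    Integrable (fun y => rho r (B.ζ y - ξ) * (1 - B.d y / 2)) B.μ := by
  refine B.LockB_mul (contDiff_rho r).continuous (LockB_cpt0 fun v hv => rho_eq_zero hr hv) ξ
    (B.integrable_of_bd ((B.md.div_const 2).const_sub 1) (M := 1 + m) ?_)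
  filter_upwards [B.ae] with y hy
  obtain ⟨-, h1, h2, -⟩ := hy
  rw [Real.norm_eq_abs, abs_le]
  constructor <;> linarith only [h2, h1]

theorem LockB_ball {Z : Set (E m)} (hZ : MeasurableSet Z) (ξ : E m) {r s : ℝ} (hr : 0 < r)
    (hrs : r ≤ s) (hξ : closedBall ξ s ⊆ Z) :
    B.PP (ball ξ r) / r ^ m ≤
      4 * cg m * 2 ^ m * ∫ y, LockB_k r s (B.ζ y - ξ) * B.LockB_G Z y ∂B.μ := by
  have hcg := cg_pos m
  rw [← B.LockB_Geq measurableSet_ball, ← integral_div, ← integral_const_mul]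
  refine integral_mono_ae ((B.LockB_Gint measurableSet_ball).div_const _)
    ((B.LockB_mul (LockB_kcont hr hrs) (LockB_kcpt hr hrs) ξ (B.LockB_Gint hZ)).const_mul _) ?_
  filter_upwards [B.ae] with y hy
  have h0 := add_nonneg hy.2.1 hy.2.2.2.1
  have hk := LockB_kge hr hrs (B.ζ y - ξ)
  have hp : 0 < 4 * cg m * 2 ^ m := by positivity
  by_cases h1 : B.ζ y ∈ ball ξ r
  · rw [B.LockB_Gmem h1, B.LockB_Gmem (hξ (closedBall_subset_closedBall hrs
      (ball_subset_closedBall h1))), ← mul_assoc, div_eq_inv_mul]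
    refine mul_le_mul_of_nonneg_right ?_ h0
    have h2 := (rho_ge (r := 2 * r) (x := B.ζ y - ξ) (by linarith)
      (by have := mem_ball_iff_norm.1 h1; linarith only [this])).trans hk.2.1
    refine le_trans (le_of_eq ?_) (mul_le_mul_of_nonneg_left h2 hp.le)
    rw [mul_pow]
    field_simp
  · rw [LockB_G, indicator_of_notMem (s := B.ζ ⁻¹' ball ξ r) h1, zero_div]
    exact mul_nonneg hp.le (mul_nonneg hk.1 (B.LockB_Gnn Z h0))

theorem LockB_id {Z : Set (E m)} (hZ : MeasurableSet Z) (hZO : Z ⊆ B.O) (ξ : E m) {r s : ℝ}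
    (hr : 0 < r) (hrs : r ≤ s) (hξ : closedBall ξ s ⊆ Z) :
    |B.ff r ξ - B.ff s ξ| ≤ ∑ i, ∑ j, |∫ y, czK r s i j (B.ζ y - ξ) * B.LockB_w Z i j y ∂B.μ| +
      c * ∫ y, LockB_k r s (B.ζ y - ξ) * B.LockB_G Z y ∂B.μ := by
  have hs := hr.trans_le hrs
  have hc := B.c_ge
  set K : E m → E m := fun v => Gt r s v • v with hK
  have hKs : ContDiff ℝ 1 K := ((contDiff_Gm hr hrs).2.of_le (by norm_num)).smul contDiff_id
  have hK0 : ∀ v, s ≤ ‖v‖ → K v = 0 := fun v hv => by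
    simp only [hK, (Gm_eq_zero hr hrs hv).2, zero_smul]
  have hsup := LockB_cpt hK0 ξ
  have hin := B.inner (fun x => K (x - ξ))
    ⟨hKs.comp (contDiff_id.sub contDiff_const), hsup.2, hsup.1.trans (hξ.trans hZO)⟩
  have hcz : ∀ i j, Integrable (fun y => czK r s i j (B.ζ y - ξ) * B.LockB_w Z i j y) B.μ := by
    intro i j
    refine B.LockB_mul (continuous_const.inner ((hKs.continuous_fderiv (by norm_num)).clm_apply
      continuous_const)) ?_ ξ (B.integrable_of_bd (B.LockB_wm hZ i j) (M := 100 + c * m) ?_)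
    · exact ((LockB_cpt0 hK0).fderiv ℝ).comp_left
        (g := fun L : E m →L[ℝ] E m => ⟪ev i, L (ev j)⟫) (by simp)
    · filter_upwards [B.LockB_wle Z i j] with y hy using hy.2.2
  have hmr : ∀ t, Measurable fun y => rho t (B.ζ y - ξ) := fun t =>
    (contDiff_rho t).continuous.measurable.comp (B.mζ.sub_const ξ)
  set e : Ω → ℝ := fun y => (rho r (B.ζ y - ξ) - rho s (B.ζ y - ξ)) * (B.d y / 2) +
    ⟪B.Bv y, K (B.ζ y - ξ)⟫ with he
  have hDi := (B.LockB_mul (LockB_kcont hr hrs) (LockB_kcpt hr hrs) ξ (B.LockB_Gint hZ)).const_mul c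
  have heD : ∀ᵐ y ∂B.μ, ‖e y‖ ≤ c * (LockB_k r s (B.ζ y - ξ) * B.LockB_G Z y) := by
    filter_upwards [B.ae] with y hy
    obtain ⟨-, h1, -, h3, -, -, h6, -⟩ := hy
    have hk := LockB_kge hr hrs (B.ζ y - ξ)
    by_cases hy : B.ζ y ∈ Z
    · rw [B.LockB_Gmem hy]
      have a1 := rho_nonneg hr (B.ζ y - ξ)
      have a2 := rho_nonneg hs (B.ζ y - ξ)
      have a3 : |(rho r (B.ζ y - ξ) - rho s (B.ζ y - ξ)) * (B.d y / 2)| ≤
          (rho r (B.ζ y - ξ) + rho s (B.ζ y - ξ)) * (c * (B.d y + B.h y)) := by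
        rw [abs_mul]
        refine mul_le_mul (abs_le.2 ⟨by linarith, by linarith⟩) ?_ (abs_nonneg _) (by linarith)
        rw [abs_of_nonneg (by linarith)]
        nlinarith only [h1, h3, hc]
      have a4 : |⟪B.Bv y, K (B.ζ y - ξ)⟫| ≤
          c * (B.d y + B.h y) * (Gt r s (B.ζ y - ξ) * ‖B.ζ y - ξ‖) := by
        refine (abs_real_inner_le_norm _ _).trans (mul_le_mul h6 (le_of_eq ?_) (norm_nonneg _)
          (mul_nonneg (by linarith) (by linarith)))
        simp only [hK, norm_smul, Real.norm_of_nonneg (Gm_nonneg hr hrs _).2]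
      have a5 := mul_le_mul_of_nonneg_left hk.2.2
        (mul_nonneg (by linarith : 0 ≤ c) (add_nonneg h1 h3))
      refine (abs_add_le _ _).trans ?_
      linarith only [a3, a4, a5]
    · have b1 : s ≤ ‖B.ζ y - ξ‖ := by
        by_contra hh
        exact hy (hξ (mem_closedBall_iff_norm.2 (not_le.1 hh).le))
      simp only [he, hK0 _ b1, rho_eq_zero hr (hrs.trans b1), rho_eq_zero hs b1, sub_zero, zero_mul,
        inner_zero_right, add_zero, norm_zero]
      exact mul_nonneg (by linarith) (mul_nonneg hk.1 (B.LockB_Gnn Z (add_nonneg h1 h3)))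
  have hei : Integrable e B.μ := by
    refine hDi.mono' (Measurable.aestronglyMeasurable ?_) heD
    exact (((hmr r).sub (hmr s)).mul (B.md.div_const 2)).add
      (B.mBv.inner (hKs.continuous.measurable.comp (B.mζ.sub_const ξ)))
  have hebd := norm_integral_le_of_norm_le hDi heD
  rw [integral_const_mul, Real.norm_eq_abs] at hebd
  have hpt : ∀ y, dv (fun x => K (x - ξ)) (B.ζ y) -
      ∑ i, ∑ j, B.Nm y i j * ⟪ev i, fderiv ℝ (fun x => K (x - ξ)) (B.ζ y) (ev j)⟫ +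
      ⟪B.Bv y, K (B.ζ y - ξ)⟫ =
      (rho r (B.ζ y - ξ) * (1 - B.d y / 2) - rho s (B.ζ y - ξ) * (1 - B.d y / 2)) -
        ∑ i, ∑ j, czK r s i j (B.ζ y - ξ) * B.LockB_w Z i j y + e y := fun y => by
    have a1 : ∀ i j, B.Nm y i j * ⟪ev i, fderiv ℝ (fun x => K (x - ξ)) (B.ζ y) (ev j)⟫ =
        czK r s i j (B.ζ y - ξ) * B.LockB_w Z i j y := fun i j => by
      by_cases hy : B.ζ y ∈ Z
      · rw [LockB_w, indicator_of_mem (s := B.ζ ⁻¹' Z) hy, fderiv_comp_sub, mul_comm]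
        rfl
      · have b1 : fderiv ℝ (fun x => K (x - ξ)) (B.ζ y) = 0 :=
          fderiv_of_notMem_tsupport ℝ fun hh => hy (hξ (hsup.1 hh))
        rw [LockB_w, indicator_of_notMem (s := B.ζ ⁻¹' Z) hy, b1]
        simp
    have a2 : dv (fun x => K (x - ξ)) (B.ζ y) = rho r (B.ζ y - ξ) - rho s (B.ζ y - ξ) := by
      rw [← dv_Gt hr hrs, dv, fderiv_comp_sub]
      rfl
    simp only [a1, a2, he]
    ring
  simp only [hpt] at hin
  have hai := (B.LockB_aint ξ hr).sub (B.LockB_aint ξ hs)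
  have hcj := fun i => integrable_finsetSum Finset.univ fun j _ => hcz i j
  have hci := integrable_finsetSum Finset.univ fun i _ => hcj i
  have e1 := integral_add (hai.sub hci) hei
  have e2 := integral_sub hai hci
  have e3 := integral_sub (B.LockB_aint ξ hr) (B.LockB_aint ξ hs)
  simp only [Pi.sub_apply] at e1 e2
  rw [e1, e2, e3, integral_finsetSum _ fun i _ => hcj i] at hin
  simp only [fun i => integral_finsetSum Finset.univ fun j _ => hcz i j] at hin
  have e5 : |∑ i, ∑ j, ∫ y, czK r s i j (B.ζ y - ξ) * B.LockB_w Z i j y ∂B.μ| ≤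
      ∑ i, ∑ j, |∫ y, czK r s i j (B.ζ y - ξ) * B.LockB_w Z i j y ∂B.μ| :=
    (Finset.abs_sum_le_sum_abs _ _).trans
      (Finset.sum_le_sum fun i _ => Finset.abs_sum_le_sum_abs _ _)
  rw [abs_le] at hebd e5 ⊢
  unfold ff
  constructor <;> linarith only [hebd, hin, e5, hebd.1, hebd.2, e5.1, e5.2]

end aux

/-- One scale: small energy forces the local mass to be close to an integer. For `ξ` in
`ball ξ₁ s` and `r ≤ s`, `inner` with `Gt r s (· - ξ) • (· - ξ)` gives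
`|ff r ξ - ff s ξ| ≤ C (maximal function of PP) + ∑ i j, |czK term with w = Nm i j| +
C ∫ (d + h) Gt r s ‖·‖`, everything restricted to `ball ξ₁ (3 s)`. Each term is small outside a
set of measure `C δ s ^ m`, uniformly in `r` (`weak_max`, `cz_weak`, Chebyshev with
`integral_Gm`). Take `r = s / n`; the set of points that are bad for all large `n` has
measure at most `C δ s ^ m < cg m * s ^ m`; pick a point outside it where `ae_ff_lim` holds, and
move the centre with `ff_move`. -/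
theorem one_scale (m : ℕ) (hm : 1 ≤ m) (c : ℝ) : ∃ δ : ℝ, 0 < δ ∧ ∀ {Ω : Type} [MeasurableSpace Ω]
    (B : Lk m c Ω) (ξ₁ : E m) (s : ℝ), 0 < s → s ≤ 10 → ball ξ₁ (3 * s) ⊆ B.O →
    B.PP (ball ξ₁ (3 * s)) ≤ δ * s ^ m → ∃ q : ℕ, |B.ff s ξ₁ - q| ≤ 1 / 100 := by
  rcases lt_or_ge c 1 with hc | hc
  · exact ⟨1, one_pos, fun B => absurd B.c_ge (not_le.2 hc)⟩
  obtain ⟨C₁, hC₁, hmove⟩ := ff_move m hm c
  obtain ⟨C₂, hC₂, hweak⟩ := cz_weak m hm
  obtain ⟨C₃, hC₃, hGm⟩ := integral_Gm m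
  have hcg := cg_pos m
  have hc0 : 0 < c := by linarith
  have hC10 : 0 < C₁ := by linarith
  obtain ⟨t, ht, ht1⟩ : ∃ t : ℝ, 0 < t ∧
      ((m : ℝ) * m + c + 4 * c * (m + 1) * 2 ^ m) * t = 1 / 1000 := by
    have h : 0 < (m : ℝ) * m + c + 4 * c * (m + 1) * 2 ^ m := by positivity
    exact ⟨1 / 1000 / ((m : ℝ) * m + c + 4 * c * (m + 1) * 2 ^ m), by positivity,
      mul_div_cancel₀ _ h.ne'⟩
  obtain ⟨K, hK, hK0⟩ : ∃ K : ℝ, K = (3 + 10 * C₃) / t + (m * m : ℕ) * (C₂ / t * c) ∧ 0 < K :=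
    ⟨_, rfl, by positivity⟩
  obtain ⟨δ, hδ, hδ1, hδ2⟩ : ∃ δ : ℝ, 0 < δ ∧ C₁ * δ ≤ 1 / 1000 ∧ K * δ ≤ cg m / 2 := by
    refine ⟨min (1 / 1000 / C₁) (cg m / 2 / K), by positivity, ?_, ?_⟩
    · exact (mul_le_mul_of_nonneg_left (min_le_left _ _) hC10.le).trans
        (le_of_eq (mul_div_cancel₀ _ hC10.ne'))
    · exact (mul_le_mul_of_nonneg_left (min_le_right _ _) hK0.le).trans
        (le_of_eq (mul_div_cancel₀ _ hK0.ne'))
  refine ⟨δ, hδ, ?_⟩
  intro Ω _ B ξ₁ s hs hs10 hOR hPP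
  have := B.fin
  have hsm : 0 < s ^ m := pow_pos hs m
  have hZ : MeasurableSet (ball ξ₁ (3 * s)) := measurableSet_ball
  set Z := ball ξ₁ (3 * s) with hZdef
  have hP0 : 0 ≤ B.PP Z := (B.PP_mono (subset_refl Z)).1
  have hr : ∀ n : ℕ, 0 < s / 2 ^ n := fun n => by positivity
  have hrs : ∀ n : ℕ, s / 2 ^ n ≤ s := fun n => div_le_self hs.le (one_le_pow₀ one_le_two)
  have hvol : ENNReal.ofReal (K * B.PP Z) < volume (closedBall ξ₁ s) := by
    have h1 := (volume_ball_le ξ₁ hs.le).2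
    have h2 := mul_le_mul_of_nonneg_left hPP hK0.le
    have h3 := mul_le_mul_of_nonneg_right hδ2 hsm.le
    have h4 := mul_pos hcg hsm
    rw [ENNReal.ofReal_lt_iff_lt_toReal (by positivity) measure_closedBall_lt_top.ne]
    linarith only [h1, h2, h3, h4]
  have hbad : ∀ n : ℕ, volume
      ({ξ | t < ∫ y, LockB_k (s / 2 ^ n) s (B.ζ y - ξ) * B.LockB_G Z y ∂B.μ} ∪
        ⋃ p : Fin m × Fin m, {ξ | t < |∫ y, czK (s / 2 ^ n) s p.1 p.2 (B.ζ y - ξ) *
          B.LockB_w Z p.1 p.2 y ∂B.μ|}) ≤ ENNReal.ofReal (K * B.PP Z) := fun n => by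
    have h1 := (LockB_cheb B.μ B.mζ (B.LockB_Gm hZ) (B.LockB_Gint hZ)
      (LockB_kcont (hr n) (hrs n)).measurable ((LockB_kcont (hr n) (hrs n)
        ).integrable_of_hasCompactSupport (LockB_kcpt (hr n) (hrs n))) ht).trans
      (ENNReal.ofReal_le_ofReal (q := (3 + 10 * C₃) / t * B.PP Z) (by
        rw [B.LockB_Gnorm hZ, div_mul_eq_mul_div]
        refine div_le_div_of_nonneg_right (mul_le_mul_of_nonneg_right
          (LockB_kint (hr n) (hrs n) ((hGm _ _ (hr n) (hrs n)).2.1.trans ?_)) hP0) ht.le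
        nlinarith only [hs10, hC₃]))
    have h2 : ∀ p : Fin m × Fin m, volume {ξ | t < |∫ y, czK (s / 2 ^ n) s p.1 p.2 (B.ζ y - ξ) *
        B.LockB_w Z p.1 p.2 y ∂B.μ|} ≤ ENNReal.ofReal (C₂ / t * c * B.PP Z) := fun p =>
      (hweak B.μ (M := 100 + c * m) p.1 p.2 B.mζ (B.LockB_wm hZ _ _)
        (by filter_upwards [B.LockB_wle Z p.1 p.2] with y hy using hy.2) (hr n) (hrs n) ht).trans
        (ENNReal.ofReal_le_ofReal (by
          rw [mul_assoc]
          exact mul_le_mul_of_nonneg_left (B.LockB_wint hZ _ _) (by positivity)))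
    refine (measure_union_le _ _).trans ((add_le_add h1 ((measure_iUnion_fintype_le _ _).trans
      (Finset.sum_le_sum fun p _ => h2 p))).trans (le_of_eq ?_))
    rw [Finset.sum_const, Finset.card_univ, Fintype.card_prod, Fintype.card_fin, nsmul_eq_mul,
      ← ENNReal.ofReal_natCast, ← ENNReal.ofReal_mul (by positivity),
      ← ENNReal.ofReal_add (by positivity) (by positivity), hK]
    congr 1
    ring
  obtain ⟨ξ, hξ, hlim, hfr⟩ := LockB_pick hvol B.ae_ff_lim hbad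
  have htend : Tendsto (fun n : ℕ => s / 2 ^ n) atTop (𝓝[>] 0) := by
    refine tendsto_nhdsWithin_iff.2 ⟨?_, Eventually.of_forall fun n => mem_Ioi.2 (hr n)⟩
    exact (tendsto_pow_atTop_atTop_of_one_lt one_lt_two).const_div_atTop s
  obtain ⟨n, hn1, hn2⟩ :=
    (hfr.and_eventually (htend.eventually (hlim (1 / 1000) (by norm_num)))).exists
  have hsub : closedBall ξ₁ (s + s) ⊆ Z := closedBall_subset_ball (by linarith only [hs])
  have hξZ : closedBall ξ s ⊆ Z :=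
    (closedBall_subset_closedBall' (by have := mem_closedBall.1 hξ; linarith only [this])).trans hsub
  simp only [mem_union, mem_iUnion, mem_ofPred_eq, not_or, not_exists, not_lt] at hn1
  have f1 := B.LockB_id hZ hOR ξ (hr n) (hrs n) hξZ
  have f2 : ∑ i, ∑ j, |∫ y, czK (s / 2 ^ n) s i j (B.ζ y - ξ) * B.LockB_w Z i j y ∂B.μ| ≤
      (m : ℝ) * m * t := by
    refine (Finset.sum_le_sum fun i _ => Finset.sum_le_sum fun j _ => hn1.2 (i, j)).trans ?_
    simp [mul_assoc]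
  have f3 := (B.LockB_ball hZ ξ (hr n) (hrs n) hξZ).trans
    (mul_le_mul_of_nonneg_left hn1.1 (by positivity))
  have f3' : c * (m + 1) / cg m * B.PP (ball ξ (s / 2 ^ n)) / (s / 2 ^ n) ^ m ≤
      4 * c * (m + 1) * 2 ^ m * t := by
    rw [mul_div_assoc]
    refine (mul_le_mul_of_nonneg_left f3 (by positivity)).trans (le_of_eq ?_)
    field_simp
  have f4 := (hmove B).2 ξ₁ ξ ξ₁ s s hs hs10 (mem_closedBall_self hs.le) hξ (hsub.trans hOR)
  have f5 : C₁ * B.PP (closedBall ξ₁ (s + s)) / s ^ (m + 1) * ‖ξ₁ - ξ‖ ≤ C₁ * δ := by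
    have a1 : ‖ξ₁ - ξ‖ ≤ s := mem_closedBall_iff_norm'.1 hξ
    have a2 : C₁ * B.PP (closedBall ξ₁ (s + s)) / s ^ (m + 1) ≤ C₁ * (δ * s ^ m) / s ^ (m + 1) :=
      div_le_div_of_nonneg_right (mul_le_mul_of_nonneg_left ((B.PP_mono hsub).2.1.trans hPP)
        hC10.le) (by positivity)
    refine (mul_le_mul a2 a1 (norm_nonneg _) (by positivity)).trans (le_of_eq ?_)
    rw [pow_succ]
    field_simp
  have f6 := mul_le_mul_of_nonneg_left hn1.1 hc0.le
  refine ⟨B.θ ξ, ?_⟩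
  have g1 := abs_le.1 (f1.trans (add_le_add f2 f6))
  have g2 := abs_le.1 (hn2.trans (add_le_add le_rfl f3'))
  have g3 := abs_le.1 (f4.trans f5)
  rw [abs_le]
  constructor <;> linarith only [ht1, hδ1, g1, g2, g3, g1.1, g1.2, g2.1, g2.2, g3.1, g3.2]

/-- the integer is constant along a connected family (`continuousOn_ff`,
`IsPreconnected.intermediate_value`) -/
theorem lock_path (m : ℕ) (hm : 1 ≤ m) (c : ℝ) : ∃ δ : ℝ, 0 < δ ∧ ∀ {Ω : Type} [MeasurableSpace Ω]
    (B : Lk m c Ω) (Q : ℕ) (P : Set (ℝ × E m)), IsPreconnected P →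
    (∀ q ∈ P, 0 < q.1 ∧ q.1 ≤ 10 ∧ ball q.2 (3 * q.1) ⊆ B.O ∧
      B.PP (ball q.2 (3 * q.1)) ≤ δ * q.1 ^ m) →
    (∃ q ∈ P, |B.ff q.1 q.2 - Q| ≤ 1 / 4) → ∀ q ∈ P, |B.ff q.1 q.2 - Q| ≤ 1 / 100 := by
  obtain ⟨δ, hδ, h⟩ := one_scale m hm c
  refine ⟨δ, hδ, ?_⟩
  intro Ω _ B Q P hP hall ⟨q₀, hq₀, h0⟩ q hq
  have hint : ∀ q ∈ P, ∃ n : ℕ, |B.ff q.1 q.2 - n| ≤ 1 / 100 := fun q hq =>
    h B q.2 q.1 (hall q hq).1 (hall q hq).2.1 (hall q hq).2.2.1 (hall q hq).2.2.2
  have hcont : ContinuousOn (fun q : ℝ × E m => B.ff q.1 q.2) P :=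
    B.continuousOn_ff.mono fun q hq => ⟨(hall q hq).1, mem_univ _⟩
  have hno : ∀ q ∈ P, ∀ z : ℤ, B.ff q.1 q.2 ≠ z + 1 / 2 := fun q hq z hz => by
    obtain ⟨n, hn⟩ := hint q hq
    rw [hz, abs_le] at hn
    rcases le_or_gt (n : ℤ) z with h1 | h1
    · have : ((n : ℤ) : ℝ) ≤ z := by exact_mod_cast h1
      push_cast at this
      linarith only [hn, this, hn.2]
    · have : ((z + 1 : ℤ) : ℝ) ≤ (n : ℤ) := by exact_mod_cast h1
      push_cast at this
      linarith only [hn, this, hn.1]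
  obtain ⟨n, hn⟩ := hint q hq
  rw [abs_le] at h0
  rcases lt_trichotomy n Q with h1 | h1 | h1
  · have h2 : ((n + 1 : ℕ) : ℝ) ≤ Q := by exact_mod_cast h1
    push_cast at h2
    rw [abs_le] at hn
    obtain ⟨q', hq', e⟩ := hP.intermediate_value hq hq₀ hcont
      (show (Q : ℝ) - 1 / 2 ∈ Icc _ _ from ⟨by linarith only [hn, h2, hn.2], by linarith only [h0, h0.1]⟩)
    refine absurd ?_ (hno q' hq' (Q - 1))
    push_cast
    linarith only [e]
  · rwa [h1] at hn
  · have h2 : ((Q + 1 : ℕ) : ℝ) ≤ n := by exact_mod_cast h1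
    push_cast at h2
    rw [abs_le] at hn
    obtain ⟨q', hq', e⟩ := hP.intermediate_value hq₀ hq hcont
      (show (Q : ℝ) + 1 / 2 ∈ Icc _ _ from ⟨by linarith only [h0, h0.2], by linarith only [hn, h2, hn.1]⟩)
    refine absurd ?_ (hno q' hq' Q)
    push_cast
    linarith only [e]

end Lk

end Pool.Agent.MP_f6c0e6_an.Gen

end

section

/-! Locking along the scales. -/

set_option autoImplicit false

open MeasureTheory Filter Topology Set Metric
open scoped ENNReal RealInnerProductSpace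

namespace Pool.Agent.MP_f6c0e6_an.Gen

variable {m N : ℕ}

namespace Lk

section aux

variable {c : ℝ} {Ω : Type} [MeasurableSpace Ω] (B : Lk m c Ω)

theorem LockC_int_d : Integrable B.d B.μ :=
  B.integrable_of_bd B.md (M := m) (B.ae.mono fun y hy => by
    rw [Real.norm_eq_abs, abs_of_nonneg hy.2.1]; exact hy.2.2.1)

theorem LockC_int_h : Integrable B.h B.μ :=
  B.integrable_of_bd B.mh (M := B.T ^ 2) (B.ae.mono fun y hy => by
    rw [Real.norm_eq_abs, abs_of_nonneg hy.2.2.2.1]; exact hy.2.2.2.2.1)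

theorem LockC_mono {Z Z' : Set (E m)} (h : Z ⊆ Z') : B.PP Z ≤ B.PP Z' := (B.PP_mono h).2.1

theorem LockC_steep_mono (x : ℝ) {Z Z' : Set (E m)} (h : Z ⊆ Z') :
    B.steep x Z ≤ B.steep x Z' :=
  haveI := B.fin
  ENNReal.toReal_mono (measure_ne_top _ _) (measure_mono fun _ hy => ⟨hy.1, h hy.2⟩)

theorem LockC_T {δ : ℝ} (hT : |B.T| ≤ δ) (hδ : δ ≤ 1) : B.T ^ 2 ≤ δ := by
  have h0 := abs_nonneg B.T
  rw [← sq_abs]
  nlinarith only [hT, h0, hδ]

theorem LockC_PP_le {x δ : ℝ} (hx : x ≤ δ) (hT : |B.T| ≤ δ) (hδ : δ ≤ 1) (Z : Set (E m)) :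
    B.PP Z ≤ 2 * δ * (B.μ (B.ζ ⁻¹' Z)).toReal + m * B.steep x Z := by
  have := B.fin
  have hm : MeasurableSet {y | x < B.d y} := measurableSet_lt measurable_const B.md
  have hi : Integrable ({y | x < B.d y}.indicator (1 : Ω → ℝ)) (B.μ.restrict (B.ζ ⁻¹' Z)) :=
    (integrable_const (1 : ℝ)).indicator hm
  have h1 : B.PP Z ≤ ∫ y in B.ζ ⁻¹' Z, (2 * δ + m * {y | x < B.d y}.indicator 1 y) ∂B.μ := by
    refine integral_mono_ae (B.LockC_int_d.add B.LockC_int_h).integrableOn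
      ((integrable_const _).add (hi.const_mul m)) (ae_restrict_of_ae (B.ae.mono fun y hy => ?_))
    have h2 : B.h y ≤ δ := hy.2.2.2.2.1.trans (B.LockC_T hT hδ)
    have h3 := (abs_nonneg B.T).trans hT
    show B.d y + B.h y ≤ 2 * δ + m * {y | x < B.d y}.indicator 1 y
    by_cases h : x < B.d y
    · rw [indicator_of_mem (show y ∈ {y | x < B.d y} from h), Pi.one_apply]
      linarith only [hy, h2, hy.2.2.1]
    · rw [indicator_of_notMem (show y ∉ {y | x < B.d y} from h)]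
      linarith only [hx, h2, h, not_lt.1 h]
  rw [integral_add (integrable_const _) (hi.const_mul m), integral_const,
    integral_const_mul (m : ℝ), integral_indicator_one hm, smul_eq_mul, mul_comm, measureReal_def,
    measureReal_def, Measure.restrict_apply hm, Measure.restrict_apply_univ] at h1
  exact h1

/-- the mass of a cylinder when the local mass and the energy are bounded -/
theorem LockC_mass (ξ : E m) {s q : ℝ} (hs : 0 < s) (hf : B.ff (2 * s) ξ ≤ q)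
    (hP : B.PP (ball ξ (4 * s)) ≤ (4 * s) ^ m) :
    (B.μ (B.ζ ⁻¹' closedBall ξ s)).toReal ≤ (4 * cg m * 2 ^ m * q + 2 * 4 ^ m) * s ^ m := by
  have h1 := B.mass_le_ff ξ (s := 2 * s) (by positivity)
  rw [show 2 * s / 2 = s by ring] at h1
  have h2 := B.LockC_mono (closedBall_subset_ball (x := ξ) (show 2 * s < 4 * s by linarith))
  have h3 := cg_pos m
  have h4 := mul_le_mul_of_nonneg_left hf (show 0 ≤ 4 * cg m * (2 * s) ^ m by positivity)
  rw [mul_pow] at hP h4 h1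
  linarith only [hP, h1, h2, h4]

/-- a bound for the local mass gives a bound for the energy -/
theorem LockC_energy {x δ s q : ℝ} (ξ : E m) (hx : x ≤ δ) (hT : |B.T| ≤ δ) (hδ : δ ≤ 1)
    (hs : 0 < s) (hf : B.ff (2 * s) ξ ≤ q) (hP : B.PP (ball ξ (4 * s)) ≤ (4 * s) ^ m)
    (hst : B.steep x (ball ξ (2 * s)) ≤ δ * (2 * s) ^ m) :
    B.PP (closedBall ξ s) ≤
      δ * (2 * (4 * cg m * 2 ^ m * q + 2 * 4 ^ m) + m * 2 ^ m) * s ^ m := by
  have hδ0 : 0 ≤ δ := (abs_nonneg B.T).trans hT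
  have h1 := B.LockC_PP_le hx hT hδ (closedBall ξ s)
  have h2 := mul_le_mul_of_nonneg_left (B.LockC_mass ξ hs hf hP) (show 0 ≤ 2 * δ by positivity)
  have h4 := mul_le_mul_of_nonneg_left ((B.LockC_steep_mono x (closedBall_subset_ball (x := ξ)
    (show s < 2 * s by linarith))).trans hst) (Nat.cast_nonneg (α := ℝ) m)
  rw [mul_pow] at h4
  linarith only [h1, h2, h4]

/-- the multiplicity is controlled by the mass of the cylinder -/
theorem LockC_theta (hT : |B.T| ≤ 1) {W : Set (E m)} (hW : MeasurableSet W) :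
    ∫⁻ ξ in W, (B.θ ξ : ℝ≥0∞) ≤ ENNReal.ofReal (1 + c * (m ^ 2 + 1)) * B.μ (B.ζ ⁻¹' W) := by
  have h1 := B.area (W.indicator 1) (measurable_one.indicator hW)
  have h2 : ∫⁻ ξ in W, (B.θ ξ : ℝ≥0∞) = ∫⁻ ξ, W.indicator 1 ξ * (B.θ ξ : ℝ≥0∞) := by
    rw [← lintegral_indicator hW]
    refine lintegral_congr fun ξ => ?_
    by_cases h : ξ ∈ W <;> simp [h]
  rw [h2, ← h1, ← lintegral_indicator_const (B.mζ hW)]
  refine lintegral_mono_ae (B.ae.mono fun y hy => ?_)
  obtain ⟨-, a1, a2, a3, a4, -, -, -, a5⟩ := hy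
  have hJ : B.J y ≤ 1 + c * (m ^ 2 + 1) := by
    have h3 := (abs_le.1 a5).1
    have h4 := mul_le_mul_of_nonneg_left (add_le_add (pow_le_pow_left₀ a1 a2 2)
      (a4.trans (B.LockC_T hT le_rfl))) (zero_le_one.trans B.c_ge)
    linarith only [h3, h4, a1]
  by_cases h : B.ζ y ∈ W
  · rw [indicator_of_mem h, indicator_of_mem (show y ∈ B.ζ ⁻¹' W from h), Pi.one_apply, one_mul]
    exact ENNReal.ofReal_le_ofReal hJ
  · rw [indicator_of_notMem h, zero_mul]
    exact zero_le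

/-- the defect of the multiplicity over a ball where the local mass is locked -/
theorem LockC_ball (hT : |B.T| ≤ 1) (Q : ℕ) (ξ : E m) {s q : ℝ} (hs : 0 < s) (hq : 0 ≤ q)
    (hf : B.ff (2 * s) ξ ≤ q) (hP : B.PP (ball ξ (4 * s)) ≤ (4 * s) ^ m) :
    ∫⁻ η in ball ξ s, ENNReal.ofReal |(B.θ η : ℝ) - Q| ≤
      ENNReal.ofReal (((1 + c * (m ^ 2 + 1)) * (4 * cg m * 2 ^ m * q + 2 * 4 ^ m) + Q * 2 ^ m) *
        s ^ m) := by
  have := B.fin
  have hQ : (0 : ℝ) ≤ Q := Nat.cast_nonneg Q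
  have hc : 0 ≤ c := zero_le_one.trans B.c_ge
  have hg := cg_pos m
  have h6 : B.μ (B.ζ ⁻¹' ball ξ s) ≤
      ENNReal.ofReal ((4 * cg m * 2 ^ m * q + 2 * 4 ^ m) * s ^ m) := by
    refine (measure_mono (preimage_mono ball_subset_closedBall)).trans ?_
    rw [← ENNReal.ofReal_toReal (measure_ne_top B.μ _)]
    exact ENNReal.ofReal_le_ofReal (B.LockC_mass ξ hs hf hP)
  have h7 : volume (ball ξ s) ≤ ENNReal.ofReal (2 ^ m * s ^ m) := by
    refine (measure_mono ball_subset_closedBall).trans ?_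
    rw [← ENNReal.ofReal_toReal (measure_closedBall_lt_top (x := ξ) (r := s)).ne]
    exact ENNReal.ofReal_le_ofReal (volume_ball_le ξ hs.le).1
  have mθ : Measurable fun η => (B.θ η : ℝ≥0∞) := (measurable_from_top).comp B.mθ
  calc ∫⁻ η in ball ξ s, ENNReal.ofReal |(B.θ η : ℝ) - Q|
      ≤ ∫⁻ η in ball ξ s, ((B.θ η : ℝ≥0∞) + (Q : ℝ≥0∞)) := by
        refine lintegral_mono fun η => ?_
        rw [← ENNReal.ofReal_natCast, ← ENNReal.ofReal_natCast Q,
          ← ENNReal.ofReal_add (Nat.cast_nonneg _) hQ]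
        refine ENNReal.ofReal_le_ofReal (abs_le.2 ⟨?_, ?_⟩) <;>
          linarith only [Nat.cast_nonneg (α := ℝ) (B.θ η), hQ]
    _ = (∫⁻ η in ball ξ s, (B.θ η : ℝ≥0∞)) + Q * volume (ball ξ s) := by
        rw [lintegral_add_left mθ, setLIntegral_const]
    _ ≤ ENNReal.ofReal (1 + c * (m ^ 2 + 1)) *
          ENNReal.ofReal ((4 * cg m * 2 ^ m * q + 2 * 4 ^ m) * s ^ m) +
          Q * ENNReal.ofReal (2 ^ m * s ^ m) :=
        add_le_add ((B.LockC_theta hT measurableSet_ball).trans (mul_le_mul' le_rfl h6))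
          (mul_le_mul' le_rfl h7)
    _ = _ := by
        rw [← ENNReal.ofReal_natCast Q, ← ENNReal.ofReal_mul hQ,
          ← ENNReal.ofReal_mul (by positivity), ← ENNReal.ofReal_add (by positivity) (by positivity)]
        congr 1
        ring

end aux

/-- `locking` for `κ ≤ 1` -/
theorem LockC_locking (m : ℕ) (hm : 1 ≤ m) (c : ℝ) (Q : ℕ) (κ : ℝ) (hκ : 0 < κ) (hκ1 : κ ≤ 1) :
    ∃ δ : ℝ, 0 < δ ∧ δ ≤ 1 ∧ ∀ {Ω : Type} [MeasurableSpace Ω] (B : Lk m c Ω)
    (ξ : E m) (s₀ s₁ x : ℝ), 0 < s₀ → s₀ ≤ 1 → ball ξ (3 * s₀) ⊆ B.O → x ≤ δ → |B.T| ≤ δ →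
    B.PP (ball ξ (3 * s₀)) ≤ δ * s₀ ^ m → |B.ff s₀ ξ - Q| ≤ 1 / 10 →
    (∀ s, 0 < s → s₁ < s → s ≤ s₀ → B.steep x (ball ξ s) ≤ δ * s ^ m) →
    ∀ s, 0 < s → s₁ < s → s ≤ s₀ →
      |B.ff s ξ - Q| ≤ 1 / 50 ∧ B.PP (ball ξ s) ≤ κ * s ^ m := by
  obtain ⟨C, hC, hmove⟩ := ff_move m hm c
  obtain ⟨δ₁, hδ₁, hone⟩ := one_scale m hm c
  have hQ := Nat.cast_nonneg (α := ℝ) Q
  have hg := cg_pos m
  obtain ⟨η, hη0, hη1, hη2, hη3⟩ : ∃ η : ℝ, 0 < η ∧ η ≤ δ₁ ∧ C * η ≤ 1 / 1000 ∧ η ≤ κ :=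
    ⟨min (min δ₁ (1 / 1000 / C)) κ, by positivity, (min_le_left _ _).trans (min_le_left _ _), by
      rw [mul_comm, ← le_div_iff₀ (by linarith)]
      exact (min_le_left _ _).trans (min_le_right _ _), min_le_right _ _⟩
  obtain ⟨K, hK⟩ : ∃ K : ℝ,
      K = (2 * (4 * cg m * 2 ^ m * (Q + 1) + 2 * 4 ^ m) + m * 2 ^ m) * 3 ^ m := ⟨_, rfl⟩
  have hK0 : 0 ≤ K := by rw [hK]; positivity
  have h12 : (1 : ℝ) ≤ 12 ^ m := one_le_pow₀ (by norm_num)
  obtain ⟨δ, hδ0, hδ⟩ : ∃ δ : ℝ, 0 < δ ∧ δ * (K + 12 ^ m) = η :=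
    ⟨η / (K + 12 ^ m), by positivity, by field_simp⟩
  have hδ2 : δ * 12 ^ m ≤ η := by nlinarith only [hδ, hδ0, hK0, mul_nonneg hδ0.le hK0]
  have hδ3 : δ * K ≤ η := by nlinarith only [hδ, hδ0, h12, mul_nonneg hδ0.le (zero_le_one.trans h12)]
  have hδ1 : δ ≤ 1 := by nlinarith only [hκ1, hη3, hδ2, h12, hδ0, mul_le_mul_of_nonneg_left h12 hδ0.le]
  refine ⟨δ, hδ0, hδ1, fun B ξ s₀ s₁ x hs₀ hs₀1 hsub hx hT htot hff hst => ?_⟩
  have key : ∀ s t, 0 < s → s ≤ t → t ≤ s₀ → B.PP (closedBall ξ t) ≤ η * s ^ m →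
      B.PP (ball ξ (3 * s)) ≤ η * s ^ m → |B.ff t ξ - Q| ≤ 1 / 10 →
      |B.ff s ξ - Q| ≤ 1 / 50 ∧ B.PP (ball ξ s) ≤ κ * s ^ m := by
    intro s t hs hst' ht h1 h2 h3
    have hs2 : 0 < s ^ m := by positivity
    obtain ⟨q, hq'⟩ := hone B ξ s hs (by linarith only [hs₀1, hst', ht]) ((ball_subset_ball (by linarith only [hst', ht])).trans hsub)
      (h2.trans (mul_le_mul_of_nonneg_right hη1 hs2.le))
    have h4 := (hmove B).1 ξ s t hs hst' (by linarith only [hs₀1, ht])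
      ((closedBall_subset_ball (by linarith only [hs₀, ht])).trans hsub)
    have h5 : C * B.PP (closedBall ξ t) / s ^ m ≤ 1 / 1000 := by
      rw [div_le_iff₀ hs2]
      have a1 := mul_le_mul_of_nonneg_left h1 (show 0 ≤ C by linarith only [hC])
      have a2 := mul_le_mul_of_nonneg_right hη2 hs2.le
      linarith only [a1, a2]
    have h6 : q = Q := by
      rw [abs_le] at hq' h3 h4
      have a1 : (q : ℝ) < Q + 1 := by linarith only [h3, hq', h4, h5]
      have a2 : (Q : ℝ) < q + 1 := by linarith only [h3, hq', h4, h5]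
      have a3 : q < Q + 1 := by exact_mod_cast a1
      have a4 : Q < q + 1 := by exact_mod_cast a2
      omega
    rw [h6] at hq'
    have h7 := B.LockC_mono (ball_subset_ball (x := ξ) (show s ≤ 3 * s by linarith only [hs]))
    have h8 := mul_le_mul_of_nonneg_right hη3 hs2.le
    exact ⟨by linarith only [hq'], by linarith only [h2, h7, h8]⟩
  have base : ∀ s, 0 < s → s ≤ s₀ → s₀ ≤ 12 * s →
      |B.ff s ξ - Q| ≤ 1 / 50 ∧ B.PP (ball ξ s) ≤ κ * s ^ m := by
    intro s hs h1 h2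
    have h3 : B.PP (ball ξ (3 * s₀)) ≤ η * s ^ m := by
      have a1 := mul_le_mul_of_nonneg_left (pow_le_pow_left₀ hs₀.le h2 m) hδ0.le
      have a2 := mul_le_mul_of_nonneg_right hδ2 (pow_nonneg hs.le m)
      rw [mul_pow] at a1
      linarith
    exact key s s₀ hs h1 le_rfl ((B.LockC_mono (closedBall_subset_ball (by linarith))).trans h3)
      ((B.LockC_mono (ball_subset_ball (by linarith))).trans h3) hff
  have ind : ∀ i : ℕ, ∀ s, 0 < s → s₁ < s → s ≤ s₀ → s₀ ≤ 12 * (2 ^ i * s) →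
      |B.ff s ξ - Q| ≤ 1 / 50 ∧ B.PP (ball ξ s) ≤ κ * s ^ m := by
    intro i
    induction i with
    | zero => intro s hs _ h1 h2; exact base s hs h1 (by simpa using h2)
    | succ i ih =>
      intro s hs h0 h1 h2
      rcases le_total s₀ (12 * s) with h3 | h3
      · exact base s hs h1 h3
      have hp : 0 ≤ 2 ^ i * s := by positivity
      rw [pow_succ] at h2
      have a1 := (ih (2 * s) (by linarith only [hs]) (by linarith only [hs, h0]) (by linarith) (by linarith)).1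
      have a2 := (ih (2 * (3 * s)) (by linarith) (by linarith) (by linarith) (by linarith)).1
      have a5 := (ih (4 * (3 * s)) (by linarith only [hs]) (by linarith only [hs, h0]) (by linarith only [h3]) (by linarith only [hs, h2, h3])).2
      have a3 := B.LockC_energy ξ (q := Q + 1) hx hT hδ1 (show 0 < 3 * s by linarith)
        (by linarith [(abs_le.1 a2).2])
        (a5.trans (mul_le_of_le_one_left (by positivity) hκ1))
        (hst (2 * (3 * s)) (by linarith) (by linarith) (by linarith))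
      have a4 : B.PP (closedBall ξ (3 * s)) ≤ η * s ^ m := by
        refine a3.trans (le_trans (le_of_eq ?_)
          (mul_le_mul_of_nonneg_right hδ3 (pow_nonneg hs.le m)))
        rw [hK, mul_pow]
        ring
      exact key s (2 * s) hs (by linarith only [hs]) (by linarith)
        ((B.LockC_mono (closedBall_subset_closedBall (by linarith))).trans a4)
        ((B.LockC_mono ball_subset_closedBall).trans a4) (by linarith only [hs₀1, hs, h3, a1])
  intro s hs h0 h1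
  obtain ⟨i, hi⟩ := pow_unbounded_of_one_lt (s₀ / s) (show (1 : ℝ) < 2 by norm_num)
  rw [div_lt_iff₀ hs] at hi
  exact ind i s hs h0 h1 (by linarith)

/-- Locking. Induction on `i` for the scales `s ≥ s₀ / (24 * 2 ^ i)`. For `s₀ / 24 ≤ s` use the
total, `ff_move` and `one_scale`. For smaller `s` the claim is known at the scales `8 s` and `20 s`;
by `mass_le_ff` at `20 s` and `d ≤ δ + m * 1 (steep)`, the mass over `closedBall ξ (10 s)` is at
most `C (Q + 1) s ^ m`, so `PP` of this ball is at most `(δ + T²) mass + m steep ≤ C δ s ^ m`;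
`one_scale` at `s` and `ff_move` between `s` and `8 s` give the claim at scale `s`. -/
theorem locking (m : ℕ) (hm : 1 ≤ m) (c : ℝ) (Q : ℕ) (κ : ℝ) (hκ : 0 < κ) :
    ∃ δ : ℝ, 0 < δ ∧ δ ≤ 1 ∧ ∀ {Ω : Type} [MeasurableSpace Ω] (B : Lk m c Ω)
    (ξ : E m) (s₀ s₁ x : ℝ), 0 < s₀ → s₀ ≤ 1 → ball ξ (3 * s₀) ⊆ B.O → x ≤ δ → |B.T| ≤ δ →
    B.PP (ball ξ (3 * s₀)) ≤ δ * s₀ ^ m → |B.ff s₀ ξ - Q| ≤ 1 / 10 →
    (∀ s, 0 < s → s₁ < s → s ≤ s₀ → B.steep x (ball ξ s) ≤ δ * s ^ m) →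
    ∀ s, 0 < s → s₁ < s → s ≤ s₀ →
      |B.ff s ξ - Q| ≤ 1 / 50 ∧ B.PP (ball ξ s) ≤ κ * s ^ m := by
  obtain ⟨δ, h0, h1, h⟩ := LockC_locking m hm c Q (min κ 1) (lt_min hκ one_pos) (min_le_right _ _)
  refine ⟨δ, h0, h1, fun B ξ s₀ s₁ x a1 a2 a3 a4 a5 a6 a7 a8 s b1 b2 b3 => ?_⟩
  obtain ⟨k1, k2⟩ := h B ξ s₀ s₁ x a1 a2 a3 a4 a5 a6 a7 a8 s b1 b2 b3
  exact ⟨k1, k2.trans (mul_le_mul_of_nonneg_right (min_le_left _ _) (pow_nonneg b1.le m))⟩

/-- the defect of the multiplicity is controlled by the steep part -/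
theorem LockC_steep (m : ℕ) (hm : 1 ≤ m) (c : ℝ) (hc : 1 ≤ c) (Q : ℕ) :
    ∃ δ x C : ℝ, 0 < δ ∧ δ ≤ 1 ∧ 0 < x ∧ 0 ≤ C ∧
    ∀ {Ω : Type} [MeasurableSpace Ω] (B : Lk m c Ω) (s₀ : ℝ) (Z : Set (E m)), 0 < s₀ → s₀ ≤ 1 →
    |B.T| ≤ δ → MeasurableSet Z →
    (∀ ξ ∈ Z, ball ξ (3 * s₀) ⊆ B.O ∧ B.PP (ball ξ (3 * s₀)) ≤ δ * s₀ ^ m ∧
      |B.ff s₀ ξ - Q| ≤ 1 / 10) →
    ∫⁻ ξ in Z, ENNReal.ofReal |(B.θ ξ : ℝ) - Q| ≤
      ENNReal.ofReal (C * B.steep x (thickening s₀ Z)) := by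
  have hg := cg_pos m
  have hQ : (0 : ℝ) ≤ Q := Nat.cast_nonneg Q
  have hc0 : 0 < c := by linarith only [hc]
  obtain ⟨a, ha⟩ : ∃ a : ℝ, a = c * (m + 1) / cg m := ⟨_, rfl⟩
  have ha0 : 0 < a := by rw [ha]; positivity
  obtain ⟨κ, hκ0, hκ1, hκ2⟩ : ∃ κ : ℝ, 0 < κ ∧ κ ≤ 1 ∧ a * κ ≤ 1 / 100 :=
    ⟨min 1 (1 / 100 / a), by positivity, min_le_left _ _, by
      rw [mul_comm, ← le_div_iff₀ ha0]; exact min_le_right _ _⟩
  obtain ⟨x, hL0, hL1, hL⟩ := locking m hm c Q κ hκ0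
  obtain ⟨K, hK⟩ : ∃ K : ℝ, K = ((1 + c * (m ^ 2 + 1)) * (4 * cg m * 2 ^ m * (Q + 1) + 2 * 4 ^ m) +
      Q * 2 ^ m) * 6 ^ m := ⟨_, rfl⟩
  have hK0 : 0 ≤ K := by rw [hK]; positivity
  have h24 : (1 : ℝ) ≤ 24 ^ m := one_le_pow₀ (by norm_num)
  have hδx : x * x / 24 ^ m ≤ x :=
    (div_le_self (by positivity) h24).trans (mul_le_of_le_one_left hL0.le hL1)
  refine ⟨x * x / 24 ^ m, x, K / x, by positivity, hδx.trans hL1, hL0, by positivity, ?_⟩
  intro Ω _ B s₀ Z hs hs1' hT hZ hZ'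
  have := B.fin
  have hsm : 0 < s₀ ^ m := by positivity
  have lock := fun ξ (hξ : ξ ∈ Z) s₁ => hL B ξ s₀ s₁ x hs hs1' (hZ' ξ hξ).1 le_rfl
    (hT.trans hδx) ((hZ' ξ hξ).2.1.trans (mul_le_mul_of_nonneg_right hδx hsm.le)) (hZ' ξ hξ).2.2
  have hst : ∀ ξ ∈ Z, ∀ s, s ≤ s₀ → B.steep x (ball ξ s) ≤ x * (s₀ / 24) ^ m := fun ξ hξ s h => by
    have h1 := (B.steep_le hL0 (measurableSet_ball (x := ξ) (ε := s))).1.trans
      ((B.LockC_mono (ball_subset_ball (by linarith only [h, hs]))).trans (hZ' ξ hξ).2.1)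
    refine le_of_mul_le_mul_left (h1.trans (le_of_eq ?_)) hL0
    rw [div_pow]
    ring
  set Zb : Set (E m) := {ξ | ξ ∈ Z ∧ ∃ s, 0 < s ∧ s ≤ s₀ ∧ x * s ^ m < B.steep x (ball ξ s)}
  have hbad : ∀ ξ ∈ Zb, ∃ s, 0 < s ∧ s ≤ s₀ ∧ x * s ^ m < B.steep x (ball ξ s) ∧
      ∫⁻ η in ball ξ (6 * s), ENNReal.ofReal |(B.θ η : ℝ) - Q| ≤ ENNReal.ofReal (K * s ^ m) := by
    rintro ξ ⟨hξ, t, ht⟩
    set S : Set ℝ := {s | 0 < s ∧ s ≤ s₀ ∧ x * s ^ m < B.steep x (ball ξ s)}
    have hbd : BddAbove S := ⟨s₀, fun s hs => hs.2.1⟩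
    have h1 : 0 < sSup S := ht.1.trans_le (le_csSup hbd ht)
    obtain ⟨s, hsS, hs1⟩ := exists_lt_of_lt_csSup ⟨t, ht⟩ (half_lt_self h1)
    have hs0 := hsS.1
    have h2 : s ≤ s₀ / 24 := by
      have h3 := lt_of_mul_lt_mul_left (hsS.2.2.trans_le (hst ξ hξ s hsS.2.1)) hL0.le
      exact (pow_le_pow_iff_left₀ hs0.le (by positivity) (by omega)).1 h3.le
    have h3 := lock ξ hξ (sSup S) fun r r0 r1 r2 => by
      by_contra hn
      exact absurd (le_csSup hbd ⟨r0, r2, not_le.1 hn⟩) (not_le.2 r1)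
    have h4 := (h3 (2 * (6 * s)) (by linarith only [hs0]) (by linarith only [hs1, h1])
      (by linarith only [h2, hs])).1
    have h5 := (h3 (4 * (6 * s)) (by linarith only [hs0]) (by linarith only [hs1, h1])
      (by linarith only [h2, hs])).2
    refine ⟨s, hs0, hsS.2.1, hsS.2.2, (B.LockC_ball (hT.trans (hδx.trans hL1)) Q ξ (q := Q + 1)
      (by positivity) (by positivity) (by linarith only [(abs_le.1 h4).2])
      (h5.trans (mul_le_of_le_one_left (by positivity) hκ1))).trans (le_of_eq ?_)⟩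
    rw [hK, mul_pow]
    congr 1
    ring
  choose! s hs0 hs1 hs2 hs3' using hbad
  have hA' : MeasurableSet {y | x < B.d y} := measurableSet_lt measurable_const B.md
  let ν : Measure (E m) := (B.μ.restrict {y | x < B.d y}).map B.ζ
  have hν : ∀ W, MeasurableSet W → ν W = B.μ {y | x < B.d y ∧ B.ζ y ∈ W} := fun W hW => by
    rw [Measure.map_apply B.mζ hW, Measure.restrict_apply' hA', inter_comm]
    rfl
  obtain ⟨u, hu1, hu2, hu3, hu4⟩ := exists_vitali ν hL0 Zb s (s₀ := s₀) fun ξ hξ =>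
    ⟨hs0 ξ hξ, hs1 ξ hξ, by rw [hν _ measurableSet_ball]; exact (hs2 ξ hξ).le⟩
  have hU : MeasurableSet (⋃ ξ ∈ u, ball ξ (6 * s ξ)) :=
    (isOpen_biUnion fun _ _ => isOpen_ball).measurableSet
  have hgood : ∀ᵐ ξ : E m, ξ ∈ Z → ξ ∉ Zb → (B.θ ξ : ℝ) = Q := by
    filter_upwards [B.ae_ff_lim] with ξ hξ h1 h2
    have h3 := lock ξ h1 0 fun r r0 _ r2 => by
      by_contra hn
      exact h2 ⟨h1, r, r0, r2, not_le.1 hn⟩
    obtain ⟨r, hr1, hr2⟩ := ((hξ (1 / 10) (by norm_num)).and (Ioc_mem_nhdsGT hs)).exists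
    obtain ⟨h4, h5⟩ := h3 r hr2.1 hr2.1 hr2.2
    rw [← ha] at hr1
    have h6 : a * B.PP (ball ξ r) / r ^ m ≤ 1 / 100 := by
      rw [div_le_iff₀ (pow_pos hr2.1 m)]
      linarith only [mul_le_mul_of_nonneg_left h5 ha0.le,
        mul_le_mul_of_nonneg_right hκ2 (pow_pos hr2.1 m).le]
    have h7 := abs_le.1 hr1
    have h8 := abs_le.1 h4
    have h9 : (B.θ ξ : ℝ) < (Q + 1 : ℕ) := by push_cast; linarith only [h7.1, h8.2, h6]
    have h10 : (Q : ℝ) < (B.θ ξ + 1 : ℕ) := by push_cast; linarith only [h7.2, h8.1, h6]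
    have h11 : B.θ ξ = Q := by
      have := Nat.cast_lt.1 h9
      have := Nat.cast_lt.1 h10
      omega
    rw [h11]
  have : Countable u := hu2.to_subtype
  calc ∫⁻ ξ in Z, ENNReal.ofReal |(B.θ ξ : ℝ) - Q|
      ≤ ∫⁻ ξ in ⋃ ξ ∈ u, ball ξ (6 * s ξ), ENNReal.ofReal |(B.θ ξ : ℝ) - Q| := by
        rw [← lintegral_indicator hZ, ← lintegral_indicator hU]
        refine lintegral_mono_ae (hgood.mono fun ξ hξ => ?_)
        by_cases h1 : ξ ∈ Z
        · by_cases h2 : ξ ∈ Zb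
          · rw [indicator_of_mem h1, indicator_of_mem (hu3 h2)]
          · rw [indicator_of_mem h1, hξ h1 h2]
            simp
        · rw [indicator_of_notMem h1]
          exact zero_le
    _ ≤ ∑' ξ : u, ∫⁻ η in ball (ξ : E m) (6 * s ξ), ENNReal.ofReal |(B.θ η : ℝ) - Q| := by
        rw [biUnion_eq_iUnion]
        exact lintegral_iUnion_le _ _
    _ ≤ ∑' ξ : u, ENNReal.ofReal (K / x) * ENNReal.ofReal (x * s ξ ^ m) := by
        refine ENNReal.tsum_le_tsum fun ξ => (hs3' ξ (hu1 ξ.2)).trans (le_of_eq ?_)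
        rw [← ENNReal.ofReal_mul (by positivity)]
        congr 1
        field_simp
    _ ≤ ENNReal.ofReal (K / x) * ν (thickening s₀ Z) := by
        rw [ENNReal.tsum_mul_left]
        refine mul_le_mul' le_rfl (hu4.trans (measure_mono (iUnion₂_subset fun ξ hξ => ?_)))
        exact (ball_subset_ball (hs1 ξ hξ)).trans (ball_subset_thickening hξ.1 s₀)
    _ = ENNReal.ofReal (K / x * B.steep x (thickening s₀ Z)) := by
        rw [ENNReal.ofReal_mul (by positivity), hν _ isOpen_thickening.measurableSet, steep,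
          ENNReal.ofReal_toReal (measure_ne_top _ _)]

/-- Let `x` be the constant of `locking`. Good points (ratio of `steep x` at most `x` at all scales
up to `s₀`) have `θ = Q` almost everywhere by `locking` with `s₁ = 0` and `ae_ff_lim`. For a bad
point let `s₁` be the supremum of the bad scales (at most `s₀ / 100` by `steep_le` and the bound
for `PP`) and `s ξ` a bad scale larger than `s₁ / 2`; by `locking` at the scale `12 s ξ` and
`mass_le_ff` the cylinder over `ball ξ (6 s ξ)` has mass at most `C (s ξ) ^ m`. `exists_vitali` for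
the image of the steep part, `area`, and `steep_le`. -/
theorem lemmaM (m : ℕ) (hm : 1 ≤ m) (c : ℝ) (Q : ℕ) : ∃ δ C : ℝ, 0 < δ ∧ δ ≤ 1 ∧ 1 ≤ C ∧
    ∀ {Ω : Type} [MeasurableSpace Ω] (B : Lk m c Ω) (s₀ : ℝ) (Z : Set (E m)), 0 < s₀ → s₀ ≤ 1 →
    |B.T| ≤ δ → MeasurableSet Z →
    (∀ ξ ∈ Z, ball ξ (3 * s₀) ⊆ B.O ∧ B.PP (ball ξ (3 * s₀)) ≤ δ * s₀ ^ m ∧
      |B.ff s₀ ξ - Q| ≤ 1 / 10) →
    ∫⁻ ξ in Z, ENNReal.ofReal |(B.θ ξ : ℝ) - Q| ≤ ENNReal.ofReal (C * B.D2 (thickening s₀ Z)) ∧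
      (B.bet Q Z).toReal ≤ C * (B.D2 (thickening s₀ Z) + ∫ y in B.ζ ⁻¹' Z, B.h y ∂B.μ) := by
  by_cases hc : 1 ≤ c
  swap
  · exact ⟨1, 1, one_pos, le_rfl, le_rfl, fun B => absurd B.c_ge hc⟩
  obtain ⟨δ, x, C, h0, h1, hx, hC, h⟩ := LockC_steep m hm c hc Q
  have hC' : 0 ≤ C / x ^ 2 := by positivity
  refine ⟨δ, 2 * c + 2 * (C / x ^ 2), h0, h1, by linarith only [hc, hC'], ?_⟩
  intro Ω _ B s₀ Z hs hs1 hT hZ hZ'
  obtain ⟨-, -, a1, a2, -⟩ := B.PP_mono (self_subset_thickening hs Z)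
  have a3 := a1.trans a2
  have a4 : 0 ≤ ∫ y in B.ζ ⁻¹' Z, B.h y ∂B.μ :=
    integral_nonneg_of_ae (ae_restrict_of_ae (B.ae.mono fun _ hy => hy.2.2.2.1))
  have a5 : ∫⁻ ξ in Z, ENNReal.ofReal |(B.θ ξ : ℝ) - Q| ≤
      ENNReal.ofReal (C / x ^ 2 * B.D2 (thickening s₀ Z)) := by
    refine (h B s₀ Z hs hs1 hT hZ hZ').trans (ENNReal.ofReal_le_ofReal ?_)
    refine le_trans (le_of_eq ?_) (mul_le_mul_of_nonneg_left
      (B.steep_le hx (isOpen_thickening (δ := s₀) (E := Z)).measurableSet).2 hC')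
    field_simp
  have a6 := mul_nonneg hC' a3
  have a7 := mul_nonneg hC' a4
  have hc0 : 0 ≤ c := by linarith only [hc]
  have a8 := mul_nonneg hc0 a3
  refine ⟨a5.trans (ENNReal.ofReal_le_ofReal (by linarith only [a6, a8])), ?_⟩
  refine ENNReal.toReal_le_of_le_ofReal (by positivity) ?_
  rw [B.bet_apply Q hZ]
  have a9 : ∫⁻ ξ in Z, ENNReal.ofReal (2 * |(B.θ ξ : ℝ) - Q|) ≤
      ENNReal.ofReal (2 * (C / x ^ 2 * B.D2 (thickening s₀ Z))) := by
    simp_rw [ENNReal.ofReal_mul (show (0 : ℝ) ≤ 2 by norm_num)]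
    rw [lintegral_const_mul' _ _ ENNReal.ofReal_ne_top]
    exact mul_le_mul' le_rfl a5
  refine (add_le_add le_rfl a9).trans ?_
  rw [← ENNReal.ofReal_add (by positivity) (by positivity)]
  refine ENNReal.ofReal_le_ofReal ?_
  linarith only [a7, a2, hc0, mul_le_mul_of_nonneg_left a2 hc0]

end Lk

end Pool.Agent.MP_f6c0e6_an.Gen

end
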