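import Pool.Agent.MP_f6c0e6_an.All.PairA
import Pool.Agent.MP_f6c0e6_an.All.Lock

section

/-! Energy bounds and the multiplicity in the flat model. -/

set_option autoImplicit false

open MeasureTheory Filter Topology Set Metric
open scoped ENNReal RealInnerProductSpace

namespace Pool.Agent.MP_f6c0e6_an.Gen

variable {m N : ℕ}

namespace Flat

/-- `cacc` with `exists_cut` and `mass_ball` -/
theorem cacc_ball (m : ℕ) : ∃ C : ℝ, 1 ≤ C ∧ ∀ {N Q : ℕ} {A : ℝ} (F : Flat m N Q A) (ξ : E m)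
    (ρ : ℝ), F.τ ≤ ρ → ‖ξ‖ + 2 * ρ ≤ 10 →
    F.DS (closedBall ξ ρ) ≤ C * A * F.τ ^ 2 * ρ ^ m / ρ ^ 2 := by
  obtain ⟨C, hC, hcut⟩ := exists_cut
  have h4 : (1 : ℝ) ≤ 4 ^ m := one_le_pow₀ (by norm_num)
  refine ⟨4 * C ^ 2 * 4 ^ m, by nlinarith only [hC, h4, one_le_pow₀ (n := 2) hC], ?_⟩
  intro N Q A F ξ ρ hρ hξ
  have hτ := F.τ_pos
  have hρ0 : 0 < ρ := hτ.trans_le hρ
  obtain ⟨χ, hχ, -, h1, hb⟩ := hcut ξ ρ (2 * ρ) hρ0.le (by linarith)
  have hsub : ball ξ (2 * ρ) ⊆ ball (0 : E m) 10 := by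
    refine ball_subset_ball' ?_
    rw [dist_zero_right]
    linarith
  have hT : Test 1 χ (ball (0 : E m) 10) :=
    ⟨hχ.smooth.of_le (by norm_num), hχ.cpt, hχ.supp.trans hsub⟩
  have hc : HasCompactSupport fun x => χ x ^ 2 :=
    hχ.cpt.comp_left (g := fun t : ℝ => t ^ 2) (by norm_num)
  have hA : Adm fun x => χ x ^ 2 := Adm.of_cpt (hχ.smooth.continuous.pow 2) hc
  have e1 := F.DS_le_DD hA (fun x => sq_nonneg _) (t := 1) (Z := closedBall ξ ρ)
    measurableSet_closedBall fun x hx => by rw [h1 x hx]; norm_num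
  have e2 := F.cacc hT
  have hm : MeasurableSet (F.x ⁻¹' closedBall ξ (2 * ρ)) :=
    F.measurable_all.1 measurableSet_closedBall
  have e3 : ∫ y, ‖fderiv ℝ χ (F.x y)‖ ^ 2 * ‖F.z y‖ ^ 2 ∂F.μ ≤
      ∫ y, (F.x ⁻¹' closedBall ξ (2 * ρ)).indicator (fun _ => (C / ρ) ^ 2 * F.τ ^ 2) y ∂F.μ := by
    refine integral_mono_of_nonneg (Eventually.of_forall fun y => by positivity)
      ((integrable_const _).indicator hm) (F.ae.mono fun y hy => ?_)
    by_cases hy' : y ∈ F.x ⁻¹' closedBall ξ (2 * ρ)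
    · simp only [indicator_of_mem hy']
      have b1 := hb.b1 (F.x y)
      rw [show 2 * ρ - ρ = ρ by ring] at b1
      exact mul_le_mul (pow_le_pow_left₀ (norm_nonneg _) b1 2)
        (pow_le_pow_left₀ (norm_nonneg _) hy.2.1 2) (by positivity) (by positivity)
    · simp only [indicator_of_notMem hy']
      have h0 : F.x y ∉ tsupport χ := fun h => hy' (ball_subset_closedBall (hχ.supp h))
      rw [fderiv_of_notMem_tsupport ℝ h0]
      simp
  rw [integral_indicator_const _ hm, smul_eq_mul, Measure.real] at e3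
  have e4 := F.mass_ball ξ (ρ := 2 * ρ) (by linarith only [hρ, hτ])
  have e5 : (F.μ (F.x ⁻¹' closedBall ξ (2 * ρ))).toReal * ((C / ρ) ^ 2 * F.τ ^ 2) ≤
      A * 2 ^ m * (2 * ρ) ^ m * ((C / ρ) ^ 2 * F.τ ^ 2) :=
    mul_le_mul_of_nonneg_right e4 (by positivity)
  have e6 : 4 * (A * 2 ^ m * (2 * ρ) ^ m * ((C / ρ) ^ 2 * F.τ ^ 2)) =
      4 * C ^ 2 * 4 ^ m * A * F.τ ^ 2 * ρ ^ m / ρ ^ 2 := by
    rw [mul_pow, show (4 : ℝ) ^ m = 2 ^ m * 2 ^ m by rw [← mul_pow]; norm_num]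
    field_simp
  linarith only [e1, e2, e3, e5, e6]

theorem FlatC_ND {Q : ℕ} {A : ℝ} (F : Flat m N Q A) (y : E N) (L : E m →L[ℝ] E m) :
    F.ND y L = ∑ i, ∑ j, F.NN y (ev i) (ev j) * ⟪ev i, L (ev j)⟫ := by
  rw [Finset.sum_comm]
  refine Finset.sum_congr rfl fun j _ => ?_
  unfold Flat.NN
  rw [NF_symm, NF_expand]
  refine Finset.sum_congr rfl fun i _ => ?_
  rw [Finset.sum_eq_single j]
  · rw [inner_ev]
    simp [ev]
  · intro b _ hb
    simp [ev, hb]
  · simp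

theorem FlatC_area {Q : ℕ} {A C : ℝ} (F : Flat m N Q A) (hC : 1 ≤ C)
    (h : ∀ y, |1 - F.d y / 2 - vol fun l => F.a l y| ≤ C * F.d y ^ 2) :
    ∃ θ : E m → ℕ, Measurable θ ∧ ∀ ψ : E m → ℝ≥0∞, Measurable ψ →
      ∫⁻ y, ψ (F.x y) * ENNReal.ofReal (vol fun l => F.a l y) ∂F.μ = ∫⁻ ξ, ψ ξ * (θ ξ : ℝ≥0∞) := by
  obtain ⟨θ, h1, h2⟩ := F.area univ (pr F.ι) isOpen_univ (pr F.ι).contDiff.contDiffOn
    (pr F.ι).continuous.measurable
  have h3 : ∀ y, F.fr.jac (pr F.ι) y = vol fun l => F.a l y := fun y => by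
    simp only [Fr.jac, ContinuousLinearMap.fderiv, Flat.a]
  simp only [Measure.restrict_univ, h3] at h2
  have h4 : Measurable fun ξ => (θ ξ : ℝ≥0∞) := (measurable_from_top (f := ENat.toENNReal)).comp h1
  have h5 : ∀ᵐ ξ : E m, (θ ξ : ℝ≥0∞) < ∞ := by
    refine ae_lt_top h4 ?_
    have e := h2 1 measurable_one
    simp only [Pi.one_apply, one_mul] at e
    rw [← e]
    refine ne_top_of_le_ne_top (b := ∫⁻ _, ENNReal.ofReal (1 + C * m ^ 2) ∂F.μ) (by
      rw [lintegral_const]; exact ENNReal.mul_ne_top ENNReal.ofReal_ne_top (measure_ne_top _ _))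
      (lintegral_mono fun y => ENNReal.ofReal_le_ofReal ?_)
    have b1 := (abs_le.1 (h y)).1
    obtain ⟨b2, b3⟩ := F.d_bd y
    have b4 : C * F.d y ^ 2 ≤ C * m ^ 2 :=
      mul_le_mul_of_nonneg_left (pow_le_pow_left₀ b2 b3 2) (by linarith)
    linarith only [b1, b2, b4]
  refine ⟨fun ξ => (θ ξ).toNat, (measurable_from_top (f := ENat.toNat)).comp h1, fun ψ hψ => ?_⟩
  refine (h2 ψ hψ).trans (lintegral_congr_ae (h5.mono fun ξ hξ => ?_))
  simp only
  rw [← ENat.toENNReal_coe, ENat.natCast_toNat (by simpa using hξ.ne)]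

theorem FlatC_mvol {Q : ℕ} {A : ℝ} (F : Flat m N Q A) :
    Measurable fun y => vol fun l => F.a l y := by
  have h1 : Continuous fun v : Fin m → E m => vol v := by
    unfold vol
    refine Continuous.abs (Continuous.matrix_det ?_)
    refine continuous_matrix fun i j => ?_
    simp only [Matrix.of_apply]
    fun_prop
  exact h1.measurable.comp (measurable_pi_lambda _ F.measurable_all.2.2.1)

/-- The model `Lk` with `h = 0`, `Bv = 0`, `Nm y i j = NN y (ev i) (ev j)`, `J = jac x`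
(`vol_pr`), and the multiplicity of `area` for the open set `univ` (finite almost everywhere; take
`toNat`). -/
theorem exists_lk (m : ℕ) : ∃ c : ℝ, ∀ {N Q : ℕ} {A : ℝ} (F : Flat m N Q A),
    ∃ B : Lk m c (E N), B.μ = F.μ ∧ B.ζ = F.x ∧ B.d = F.d ∧ B.h = (fun _ => 0) ∧
      B.O = ball 0 10 ∧ B.T = 0 ∧ (∀ g, Adm g → B.Y Q g = F.Y g) ∧ ∀ Z, B.PP Z = F.DS Z := by
  obtain ⟨C, hC, hv⟩ := vol_pr m
  refine ⟨C, fun {N Q A} F => ?_⟩
  have hJ : ∀ y, |1 - F.d y / 2 - vol fun l => F.a l y| ≤ C * F.d y ^ 2 := fun y =>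
    hv F.ι (fun l => F.fr.s l y) (F.fr.orth y)
  obtain ⟨θ, hθ, har⟩ := FlatC_area F hC hJ
  obtain ⟨mx, -, -, -, md, mN, -⟩ := F.measurable_all
  refine ⟨{ μ := F.μ, ζ := F.x, d := F.d, h := fun _ => 0
            Nm := fun y i j => F.NN y (ev i) (ev j), Bv := fun _ => 0
            J := fun y => vol fun l => F.a l y, θ := θ, O := ball 0 10, T := 0
            c_ge := hC, fin := F.fin, mζ := mx, md := md, mh := measurable_const
            mN := fun i j => mN _ _ measurable_const measurable_const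
            mBv := measurable_const, mJ := FlatC_mvol F, mθ := hθ, isOpen := isOpen_ball
            ae := ?_, inner := ?_, area := har }, rfl, rfl, rfl, rfl, rfl, rfl, ?_, ?_⟩
  · refine F.ae.mono fun y hy => ?_
    obtain ⟨b2, b3⟩ := F.d_bd y
    have b1 : ‖F.x y‖ < 10 := hy.1
    refine ⟨by linarith, b2, b3, le_rfl, by norm_num, fun i j => ?_, ?_, abs_nonneg _, ?_⟩
    · have b4 := (NF_bd F.ι (F.fr.orth y) (ev i) (ev j)).2.2.2.1
      rw [norm_ev, norm_ev, mul_one, mul_one] at b4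
      exact b4.trans (le_mul_of_one_le_left b2 hC)
    · rw [norm_zero, add_zero]
      positivity
    · rw [add_zero]
      exact hJ y
  · intro V hV
    have h := F.fv_h hV (f := fun _ => (1 : ℝ)) contDiff_const
    simp only [smul_eq_mul, mul_one, fderiv_fun_const, Pi.zero_apply,
      zero_apply, integral_zero, neg_zero, FlatC_ND] at h
    simp only [inner_zero_left, add_zero]
    exact h
  · intro g hg
    obtain ⟨mg, M, hM, -⟩ := hg
    have i1 : Integrable (fun y => g (F.x y)) F.μ :=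
      F.integrable_of_bd (mg.comp mx) (M := M) fun y _ _ => hM _
    have i2 : Integrable (fun y => g (F.x y) * F.d y) F.μ :=
      F.integrable_d.bdd_mul (c := M) (mg.comp mx).aestronglyMeasurable
        (Eventually.of_forall fun y => hM _)
    have e : ∫ y, g (F.x y) * (1 - F.d y / 2) ∂F.μ =
        ∫ y, g (F.x y) ∂F.μ - (∫ y, g (F.x y) * F.d y ∂F.μ) / 2 := by
      rw [← integral_div, ← integral_sub i1 (i2.div_const 2)]
      refine integral_congr_ae (Eventually.of_forall fun y => ?_)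
      simp only
      ring
    simp only [Lk.Y, Flat.Y, Flat.DD, Flat.ee, e]
    ring
  · intro Z
    simp only [Lk.PP, Flat.DS, add_zero]

theorem FlatC_energy (m : ℕ) (A : ℝ) {δ : ℝ} (hδ : 0 < δ) : ∃ C₀ : ℝ, 1 ≤ C₀ ∧
    ∀ {N Q : ℕ} (F : Flat m N Q A) (ξ : E m) (r : ℝ), C₀ * F.τ ≤ r → ‖ξ‖ + 6 * r ≤ 10 →
    F.DS (ball ξ (3 * r)) ≤ δ * r ^ m := by
  obtain ⟨C, hC, h⟩ := cacc_ball m
  have h0 : 0 ≤ C * |A| * 3 ^ m / δ := by positivity
  refine ⟨1 + C * |A| * 3 ^ m / δ, by linarith, fun {N Q} F ξ r hr hξ => ?_⟩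
  have hτ := F.τ_pos
  have hA := F.A_ge
  rw [abs_of_nonneg (by linarith only [hA] : 0 ≤ A)] at hr h0
  have h1 : F.τ ≤ r := le_trans (le_mul_of_one_le_left hτ.le (by linarith only [h0])) hr
  have hr0 : 0 < r := hτ.trans_le h1
  have h2 : C * A * 3 ^ m / δ * F.τ ≤ r := by nlinarith only [hr, hτ]
  have h3 : C * A * 3 ^ m * F.τ ≤ δ * r := by
    rw [div_mul_eq_mul_div, div_le_iff₀ hδ] at h2
    linarith
  refine ((F.DS_mono ball_subset_closedBall).2.trans
    (h F ξ (3 * r) (by linarith only [hτ, h1]) (by linarith only [hξ]))).trans ?_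
  rw [div_le_iff₀ (by positivity), mul_pow]
  have h4 : C * A * 3 ^ m * F.τ * F.τ ≤ δ * r * r :=
    mul_le_mul h3 h1 hτ.le (by positivity)
  have h5 : 0 < δ * r * r := by positivity
  have h6 : C * A * 3 ^ m * F.τ * F.τ ≤ δ * (3 * r) ^ 2 := by nlinarith only [h4, h5]
  calc C * A * F.τ ^ 2 * (3 ^ m * r ^ m) = C * A * 3 ^ m * F.τ * F.τ * r ^ m := by ring
    _ ≤ δ * (3 * r) ^ 2 * r ^ m := mul_le_mul_of_nonneg_right h6 (by positivity)
    _ = δ * r ^ m * (3 * r) ^ 2 := by ring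

theorem FlatC_adm {s : ℝ} (hs : 0 < s) (ξ : E m) : Adm fun x => rho s (x - ξ) := by
  refine Adm.of_cont ((contDiff_rho s).continuous.comp (continuous_id.sub continuous_const))
    (R := ‖ξ‖ + s) fun x hx => rho_eq_zero hs ?_
  have := norm_sub_norm_le x ξ
  linarith

theorem FlatC_ball {ξ : E m} {r : ℝ} (hr : 0 < r) (h : ‖ξ‖ + 6 * r ≤ 10) :
    ball ξ (3 * r) ⊆ ball (0 : E m) 10 := by
  refine ball_subset_ball' ?_
  rw [dist_zero_right]
  linarith

/-- `lock_path` along the segments from `(1, 0)` to `(1 / 10, 0)`, to `(1 / 10, ξ)`, to `(s, ξ)`;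
the energy is bounded by `cacc_ball` -/
theorem anchor_all (m : ℕ) (hm : 1 ≤ m) (Q : ℕ) (A : ℝ) : ∃ C₀ : ℝ, 1 ≤ C₀ ∧ ∀ {N : ℕ}
    (F : Flat m N Q A) (ξ : E m) (s : ℝ), ‖ξ‖ ≤ 9 → C₀ * F.τ ≤ s → s ≤ 1 / 10 →
    |F.Y fun x => rho s (x - ξ)| ≤ 1 / 50 := by
  obtain ⟨c, hc⟩ := exists_lk m
  obtain ⟨δ, hδ, hl⟩ := Lk.lock_path m hm c
  obtain ⟨C₀, hC₀, he⟩ := FlatC_energy m A hδ
  refine ⟨C₀, hC₀, fun {N} F ξ s hξ hs hs1 => ?_⟩
  obtain ⟨B, e1, e2, e3, -, e5, -, e7, e8⟩ := hc F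
  have hτ := F.τ_pos
  have hs0 : 0 < s := lt_of_lt_of_le (by positivity) hs
  have hP : Convex ℝ {q : ℝ × E m | s ≤ q.1 ∧ ‖q.2‖ + 6 * q.1 ≤ 10} := by
    intro p hp q hq a b ha hb hab
    obtain ⟨p1, p2⟩ := hp
    obtain ⟨q1, q2⟩ := hq
    have n1 : ‖a • p.2 + b • q.2‖ ≤ a * ‖p.2‖ + b * ‖q.2‖ := by
      refine (norm_add_le _ _).trans ?_
      rw [norm_smul, norm_smul, Real.norm_of_nonneg ha, Real.norm_of_nonneg hb]
    have n2 := mul_le_mul_of_nonneg_left p1 ha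
    have n3 := mul_le_mul_of_nonneg_left q1 hb
    have n4 := mul_le_mul_of_nonneg_left p2 ha
    have n5 := mul_le_mul_of_nonneg_left q2 hb
    have n6 : a * s + b * s = s := by rw [← add_mul, hab, one_mul]
    refine ⟨?_, ?_⟩
    · change s ≤ a * p.1 + b * q.1
      linarith only [n2, n3, n6]
    · change ‖a • p.2 + b • q.2‖ + 6 * (a * p.1 + b * q.1) ≤ 10
      linarith only [hab, n1, n4, n5]
  have h := hl B Q _ hP.isPreconnected (fun q hq => by
    have q0 : 0 < q.1 := hs0.trans_le hq.1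
    have q1 := hq.2
    have q2 := norm_nonneg q.2
    refine ⟨q0, by linarith only [hs1, hs0, q1, q2], ?_, ?_⟩
    · rw [e5]
      exact FlatC_ball q0 q1
    · rw [e8]
      exact he F q.2 q.1 (hs.trans hq.1) q1)
    ⟨(1, 0), ⟨by change s ≤ 1; linarith, by simp only [norm_zero]; norm_num⟩, by
      have a := F.anchor
      simp only [Lk.ff, e1, e2, e3, sub_zero]
      exact a.trans (by norm_num)⟩ (s, ξ) ⟨le_rfl, by change ‖ξ‖ + 6 * s ≤ 10; linarith only [hξ, hs1, hs0]⟩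
  simp only at h
  rw [B.ff_eq_Y Q hs0 ξ, e7 _ (FlatC_adm hs0 ξ), abs_div, abs_neg, abs_two] at h
  linarith

/-- `lemmaM` at the scale `s₀ = C₀ τ`, `abs_Y_le`, and `d² ≤ m d` -/
theorem S0a (m : ℕ) (hm : 1 ≤ m) (Q : ℕ) (A : ℝ) : ∃ C C₀ : ℝ, 1 ≤ C ∧ 1 ≤ C₀ ∧ ∀ {N : ℕ}
    (F : Flat m N Q A) (f : E m → ℝ) (M : ℝ) (Z : Set (E m)), C₀ * F.τ ≤ 1 / 10 →
    Measurable f → (∀ x, |f x| ≤ M) → MeasurableSet Z → Z ⊆ ball 0 9 → (∀ x, x ∉ Z → f x = 0) →
    |F.Y f| ≤ C * M * F.DS (thickening (C₀ * F.τ) Z) := by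
  obtain ⟨c, hc⟩ := exists_lk m
  obtain ⟨δ, C, hδ, -, hC, hl⟩ := Lk.lemmaM m hm c Q
  obtain ⟨C₁, hC₁, he⟩ := FlatC_energy m A hδ
  obtain ⟨C₂, hC₂, ha⟩ := anchor_all m hm Q A
  have hm' : (1 : ℝ) ≤ m := by exact_mod_cast hm
  refine ⟨C * m, C₁ + C₂, by nlinarith only [hm', hC], by linarith, ?_⟩
  intro N F f M Z hs1 hf hM hZ hZ9 h0
  obtain ⟨B, e1, e2, e3, e4, e5, e6, e7, e8⟩ := hc F
  have hτ := F.τ_pos
  have hs0 : 0 < (C₁ + C₂) * F.τ := by positivity
  have hM0 : 0 ≤ M := (abs_nonneg _).trans (hM 0)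
  have l1 : C₁ * F.τ ≤ (C₁ + C₂) * F.τ := mul_le_mul_of_nonneg_right (by linarith only [hC₂, hs1, hs0]) hτ.le
  have l2 : C₂ * F.τ ≤ (C₁ + C₂) * F.τ := mul_le_mul_of_nonneg_right (by linarith) hτ.le
  have h9 : ∀ x : E m, 9 ≤ ‖x‖ → f x = 0 := fun x hx => h0 x fun hx' => by
    have := mem_ball_zero_iff.1 (hZ9 hx')
    linarith
  have h := (hl B ((C₁ + C₂) * F.τ) Z hs0 (by linarith only [hs1, hs0]) (by rw [e6, abs_zero]; exact hδ.le) hZ
    fun ξ hξ => by
      have x1 := mem_ball_zero_iff.1 (hZ9 hξ)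
      have x2 : ‖ξ‖ + 6 * ((C₁ + C₂) * F.τ) ≤ 10 := by linarith
      refine ⟨?_, ?_, ?_⟩
      · rw [e5]
        exact FlatC_ball hs0 x2
      · rw [e8]
        exact he F ξ _ l1 x2
      · have x3 := ha F ξ _ x1.le l2 hs1
        rw [B.ff_eq_Y Q hs0 ξ, e7 _ (FlatC_adm hs0 ξ), abs_div, abs_neg, abs_two]
        linarith only [hs1, hs0, x3]).2
  simp only [e4, integral_zero, add_zero] at h
  have h2 := (B.PP_mono (subset_refl (thickening ((C₁ + C₂) * F.τ) Z))).2.2.2.2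
  rw [e8] at h2
  obtain ⟨-, h3⟩ := B.abs_Y_le Q hf hM h9
  have hA : Adm f := ⟨hf, max M 9, fun x => (hM x).trans (le_max_left _ _),
    fun x hx => h9 x ((le_max_right _ _).trans hx)⟩
  rw [e7 f hA] at h3
  have hfin := B.bet_finite Q (isBounded_ball.subset hZ9)
  have h4 : ∫ x, |f x| ∂(B.bet Q) ≤ ∫ x, Z.indicator (fun _ => M) x ∂(B.bet Q) := by
    refine integral_mono_of_nonneg (Eventually.of_forall fun x => abs_nonneg _)
      ((integrable_indicator_iff hZ).2 (integrableOn_const hfin.ne))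
      (Eventually.of_forall fun x => ?_)
    by_cases hx : x ∈ Z
    · simp only [indicator_of_mem hx]
      exact hM x
    · simp only [indicator_of_notMem hx, h0 x hx, abs_zero, le_refl]
  rw [integral_indicator_const _ hZ, smul_eq_mul, Measure.real] at h4
  calc |F.Y f| ≤ (B.bet Q Z).toReal * M := h3.trans h4
    _ ≤ C * (m * F.DS (thickening ((C₁ + C₂) * F.τ) Z)) * M :=
      mul_le_mul_of_nonneg_right (h.trans (mul_le_mul_of_nonneg_left h2 (by linarith))) hM0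
    _ = C * m * M * F.DS (thickening ((C₁ + C₂) * F.τ) Z) := by ring

/-- comparison of the projected measure with Lebesgue measure -/
theorem mass_cmp (m : ℕ) (hm : 1 ≤ m) (Q : ℕ) (A : ℝ) : ∃ C C₀ : ℝ, 1 ≤ C ∧ 1 ≤ C₀ ∧ ∀ {N : ℕ}
    (F : Flat m N Q A) (f : E m → ℝ) (M : ℝ) (Z : Set (E m)), C₀ * F.τ ≤ 1 / 10 →
    Measurable f → (∀ x, |f x| ≤ M) → MeasurableSet Z → Z ⊆ ball 0 9 → (∀ x, x ∉ Z → f x = 0) →
    |F.ee f| ≤ C * M * F.DS (thickening (C₀ * F.τ) Z) := by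
  obtain ⟨C, C₀, hC, hC₀, h⟩ := S0a m hm Q A
  refine ⟨C, C₀, hC, hC₀, ?_⟩
  intro N F f M Z hs1 hf hM hZ hZ9 h0
  have hτ := F.τ_pos
  have h1 := h F f M Z hs1 hf hM hZ hZ9 h0
  have hM0 : 0 ≤ M := (abs_nonneg _).trans (hM 0)
  have h2 := F.abs_DD_le hf hM hZ h0
  obtain ⟨h3, h4⟩ := F.DS_mono (self_subset_thickening (δ := C₀ * F.τ) (by positivity) Z)
  have h5 : M * F.DS Z ≤ C * M * F.DS (thickening (C₀ * F.τ) Z) :=
    mul_le_mul (le_mul_of_one_le_left hM0 hC) h4 h3 (by positivity)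
  have h6 : F.ee f = (F.DD f - F.Y f) / 2 := by
    unfold Flat.Y
    ring
  rw [h6, abs_div, abs_two]
  have h7 := abs_sub (F.DD f) (F.Y f)
  linarith only [h1, h2, h5, h7]

end Flat

end Pool.Agent.MP_f6c0e6_an.Gen

end

section

/-! The box lemma and domination by the pair energy. -/

set_option autoImplicit false

open MeasureTheory Filter Topology Set Metric
open scoped ENNReal RealInnerProductSpace

namespace Pool.Agent.MP_f6c0e6_an.Gen

variable {m N : ℕ}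

/-- a bump function equal to one on the ball of radius `R` and zero outside the ball of radius
`2 R` -/
noncomputable def bmp (R : ℝ) (z : E N) : ℝ := Real.smoothTransition ((4 - ‖z‖ ^ 2 / R ^ 2) / 3)

theorem FlatD_prof : ∃ C : ℝ, 1 ≤ C ∧
    ContDiff ℝ 3 (fun t : ℝ => Real.smoothTransition ((4 - t) / 3)) ∧
    (∀ t, |deriv (fun t : ℝ => Real.smoothTransition ((4 - t) / 3)) t| ≤ C) ∧
    ∀ t, |deriv (deriv fun t : ℝ => Real.smoothTransition ((4 - t) / 3)) t| ≤ C := by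
  set ψ : ℝ → ℝ := fun t => Real.smoothTransition ((4 - t) / 3) with hψ
  have h3 : ContDiff ℝ 3 ψ :=
    Real.smoothTransition.contDiff.comp ((contDiff_const.sub contDiff_id).div_const 3)
  have h0 : ∀ t, t ≤ 1 → ψ t = 1 := fun t ht =>
    Real.smoothTransition.one_of_one_le (by linarith only [ht])
  have h1 : ∀ t, 4 ≤ t → ψ t = 0 := fun t ht =>
    Real.smoothTransition.zero_of_nonpos (by linarith)
  have hc : HasCompactSupport (deriv ψ) := by
    refine HasCompactSupport.intro (isCompact_Icc (a := (1 : ℝ)) (b := 4)) fun t ht => ?_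
    rw [mem_Icc, not_and_or, not_le, not_le] at ht
    rcases ht with ht | ht
    · have : ψ =ᶠ[𝓝 t] fun _ => 1 :=
        mem_of_superset (Iio_mem_nhds ht) fun r hr => h0 r (le_of_lt hr)
      rw [this.deriv_eq, deriv_const]
    · have : ψ =ᶠ[𝓝 t] fun _ => 0 :=
        mem_of_superset (Ioi_mem_nhds ht) fun r hr => h1 r (le_of_lt hr)
      rw [this.deriv_eq, deriv_const]
  have h2 : ContDiff ℝ 2 (deriv ψ) := (show ContDiff ℝ (2 + 1) ψ from h3).deriv'
  obtain ⟨C1, hC1⟩ := h2.continuous.bounded_above_of_compact_support hc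
  obtain ⟨C2, hC2⟩ := (h2.continuous_deriv (by norm_num)).bounded_above_of_compact_support hc.deriv
  exact ⟨max 1 (max C1 C2), le_max_left _ _, h3,
    fun t => (hC1 t).trans ((le_max_left _ _).trans (le_max_right _ _)),
    fun t => (hC2 t).trans ((le_max_right _ _).trans (le_max_right _ _))⟩

theorem FlatD_dz {f : ℝ → ℝ} (h : ∀ t, 4 < t → f t = 0) (t : ℝ) (ht : 4 < t) :
    deriv f t = 0 := by
  have : f =ᶠ[𝓝 t] fun _ => 0 := mem_of_superset (Ioi_mem_nhds ht) fun r hr => h r hr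
  rw [this.deriv_eq, deriv_const]

theorem FlatD_norm {V W : Type} [NormedAddCommGroup V] [NormedSpace ℝ V] [NormedAddCommGroup W]
    [NormedSpace ℝ W] (J : V →L[ℝ] W) (hJ : ‖J‖ ≤ 1) (α γ β : ℝ) (l : V →L[ℝ] ℝ) (w : W) :
    ‖α • (γ • J) + (β • l).smulRight w‖ ≤ |α| * |γ| + |β| * ‖l‖ * ‖w‖ := by
  refine (norm_add_le _ _).trans ?_
  rw [ContinuousLinearMap.norm_smulRight_apply, norm_smul, norm_smul, norm_smul]
  simp only [Real.norm_eq_abs]
  nlinarith only [hJ, mul_nonneg (abs_nonneg α) (abs_nonneg γ)]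

theorem FlatD_bmp_zero {R : ℝ} (hR : 0 < R) {z : E N} (hz : 2 * R ≤ ‖z‖) : bmp R z = 0 := by
  refine Real.smoothTransition.zero_of_nonpos ?_
  have h : 4 ≤ ‖z‖ ^ 2 / R ^ 2 := by
    rw [le_div_iff₀ (by positivity)]
    nlinarith only [hR, hz]
  linarith only [h]

theorem FlatD_bmp_one {R : ℝ} (hR : 0 < R) {z : E N} (hz : ‖z‖ ≤ R) : bmp R z = 1 := by
  refine Real.smoothTransition.one_of_one_le ?_
  have h : ‖z‖ ^ 2 / R ^ 2 ≤ 1 := by
    rw [div_le_one (by positivity)]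
    exact pow_le_pow_left₀ (norm_nonneg _) hz 2
  linarith only [h]

theorem FlatD_bmp : ∃ C : ℝ, 1 ≤ C ∧ ∀ {N : ℕ} (R : ℝ), 0 < R → ∀ c : E N,
    ContDiff ℝ 3 (fun z : E N => bmp R (z - c)) ∧
    (∀ z, ‖fderiv ℝ (fun z : E N => bmp R (z - c)) z‖ ≤ C / R) ∧
    (∀ z, ‖fderiv ℝ (fderiv ℝ fun z : E N => bmp R (z - c)) z‖ ≤ C / R ^ 2) ∧
    (∀ z, 2 * R < ‖z - c‖ → fderiv ℝ (fun z : E N => bmp R (z - c)) z = 0 ∧
      fderiv ℝ (fderiv ℝ fun z : E N => bmp R (z - c)) z = 0) ∧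
    ∀ z, ‖z - c‖ ≤ R → fderiv ℝ (fun z : E N => bmp R (z - c)) z = 0 := by
  obtain ⟨C, hC, h3, hd1, hd2⟩ := FlatD_prof
  set ψ : ℝ → ℝ := fun t => Real.smoothTransition ((4 - t) / 3) with hψ
  refine ⟨18 * C, by linarith, fun {N} R hR c => ?_⟩
  let u : E N → ℝ := fun x => ‖x - c‖ ^ 2 / R ^ 2
  have eb : (fun z : E N => bmp R (z - c)) = fun x => ψ (u x) := rfl
  obtain ⟨J, hJ, hJn⟩ : ∃ J : E N →L[ℝ] E N →L[ℝ] ℝ, (∀ v, J v = innerSL ℝ v) ∧ ‖J‖ ≤ 1 :=
    ⟨innerSL ℝ, fun _ => rfl, norm_innerSL_le ℝ⟩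
  let L : E N → E N →L[ℝ] ℝ := fun x => (2 / R ^ 2) • J (x - c)
  have hu3 : ContDiff ℝ 3 u :=
    ((contDiff_norm_sq ℝ).comp (contDiff_id.sub contDiff_const)).div_const _
  have hu : ∀ x, HasFDerivAt u (L x) x := fun x => by
    have h4 := (((hasFDerivAt_id x).sub_const c).norm_sq).mul_const (R ^ 2)⁻¹
    refine (h4.congr_fderiv ?_).congr_of_eventuallyEq (Eventually.of_forall fun y => ?_)
    · ext v
      simp [L, hJ]
      ring
    · simp only [u, div_eq_mul_inv, id]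
  have hL : ∀ x, HasFDerivAt L ((2 / R ^ 2) • J) x := fun x => by
    have h4 := (J.hasFDerivAt.comp x
      ((hasFDerivAt_id x).sub_const c)).const_smul (2 / R ^ 2)
    exact h4.congr_fderiv (by rw [ContinuousLinearMap.comp_id])
  have h2 : ContDiff ℝ 2 (deriv ψ) := (show ContDiff ℝ (2 + 1) ψ from h3).deriv'
  have dψ : ∀ t, HasDerivAt ψ (deriv ψ t) t := fun t =>
    (h3.differentiable (by norm_num) t).hasDerivAt
  have dψ' : ∀ t, HasDerivAt (deriv ψ) (deriv (deriv ψ) t) t := fun t =>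
    (h2.differentiable (by norm_num) t).hasDerivAt
  have z1 : ∀ t, 4 < t → deriv ψ t = 0 := FlatD_dz fun t ht =>
    Real.smoothTransition.zero_of_nonpos (by linarith)
  have z2 : ∀ t, 4 < t → deriv (deriv ψ) t = 0 := FlatD_dz z1
  have z3 : ∀ t, t ≤ 1 → deriv ψ t = 0 := fun t ht => by
    refine IsLocalMax.deriv_eq_zero (Eventually.of_forall fun s => ?_)
    have : ψ t = 1 := Real.smoothTransition.one_of_one_le (by linarith)
    rw [this]
    exact Real.smoothTransition.le_one _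
  have e1 : fderiv ℝ (fun x => ψ (u x)) = fun x => deriv ψ (u x) • L x :=
    funext fun x => ((dψ (u x)).comp_hasFDerivAt x (hu x)).fderiv
  have e2 : ∀ x, fderiv ℝ (fun x => deriv ψ (u x) • L x) x =
      deriv ψ (u x) • ((2 / R ^ 2) • J) +
        (deriv (deriv ψ) (u x) • L x).smulRight (L x) := fun x =>
    (((dψ' (u x)).comp_hasFDerivAt x (hu x)).smul (hL x)).fderiv
  have hLb : ∀ x, u x ≤ 4 → ‖L x‖ ≤ 4 / R := fun x hx => by
    have h4 : ‖x - c‖ ^ 2 ≤ (2 * R) ^ 2 := by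
      have := (div_le_iff₀ (by positivity)).1 hx
      linarith
    have h5 : ‖x - c‖ ≤ 2 * R :=
      (pow_le_pow_iff_left₀ (norm_nonneg _) (by positivity) two_ne_zero).1 h4
    simp only [L]
    rw [norm_smul, hJ, innerSL_apply_norm, Real.norm_eq_abs, abs_of_pos (by positivity),
      div_mul_eq_mul_div, div_le_div_iff₀ (by positivity) hR]
    nlinarith only [hR, h5]
  rw [eb]
  refine ⟨h3.comp hu3, fun x => ?_, fun x => ?_, fun x hx => ?_, fun x hx => ?_⟩
  · rw [e1]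
    rcases le_or_gt (u x) 4 with hx | hx
    · rw [norm_smul]
      refine (mul_le_mul (hd1 _) (hLb x hx) (norm_nonneg _) (by linarith)).trans ?_
      rw [← mul_div_assoc]
      exact div_le_div_of_nonneg_right (by linarith) hR.le
    · simp only [z1 _ hx, zero_smul, norm_zero]
      positivity
  · rw [e1, e2]
    refine (FlatD_norm J hJn _ _ _ (L x) (L x)).trans ?_
    rcases le_or_gt (u x) 4 with hx | hx
    · have k2 := mul_le_mul (hd2 (u x)) (hLb x hx) (norm_nonneg _) (by linarith)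
      have k3 := mul_le_mul k2 (hLb x hx) (norm_nonneg _) (by positivity)
      have k4 := mul_le_mul_of_nonneg_right (hd1 (u x)) (abs_nonneg (2 / R ^ 2))
      rw [abs_of_pos (by positivity : 0 < 2 / R ^ 2)] at k4 ⊢
      have k5 : C * (2 / R ^ 2) + C * (4 / R) * (4 / R) = 18 * C / R ^ 2 := by
        field_simp
        ring
      linarith only [k3, k4, k5]
    · simp only [z1 _ hx, z2 _ hx, abs_zero, zero_mul, add_zero]
      positivity
  · have hx' : 4 < u x := by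
      rw [lt_div_iff₀ (by positivity)]
      nlinarith only [hR, hx]
    rw [e1, e2]
    refine ⟨by simp only [z1 _ hx', zero_smul], ?_⟩
    ext v w
    simp [z1 _ hx', z2 _ hx']
  · have hx' : u x ≤ 1 := by
      rw [div_le_one (by positivity)]
      exact pow_le_pow_left₀ (norm_nonneg _) hx 2
    rw [e1]
    simp only [z3 _ hx', zero_smul]

theorem FlatD_fld {χ : E N → ℝ} (hχ : ContDiff ℝ 2 χ) (c x : E N) :
    (∀ v, fderiv ℝ (fun z => χ z • (z - c)) x v = χ x • v + fderiv ℝ χ x v • (x - c)) ∧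
    ‖fderiv ℝ (fun z => χ z • (z - c)) x‖ ≤ |χ x| + ‖fderiv ℝ χ x‖ * ‖x - c‖ ∧
    ‖fderiv ℝ (fderiv ℝ fun z => χ z • (z - c)) x‖ ≤
      2 * ‖fderiv ℝ χ x‖ + ‖fderiv ℝ (fderiv ℝ χ) x‖ * ‖x - c‖ := by
  have hd : Differentiable ℝ χ := hχ.differentiable (by norm_num)
  have hd' : Differentiable ℝ (fderiv ℝ χ) :=
    (hχ.fderiv_right (m := 1) (by norm_num)).differentiable (by norm_num)
  have e1 : ∀ y v, fderiv ℝ (fun z => χ z • (z - c)) y v = χ y • v + fderiv ℝ χ y v • (y - c) :=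
    fun y v => by
      have h0 : HasFDerivAt (fun z => χ z • (z - c)) _ y :=
        (hd y).hasFDerivAt.fun_smul ((hasFDerivAt_id y).sub_const c)
      rw [h0.fderiv]
      simp
  have hV : ContDiff ℝ 2 fun z => χ z • (z - c) := hχ.smul (contDiff_id.sub contDiff_const)
  have hV' : Differentiable ℝ (fderiv ℝ fun z => χ z • (z - c)) :=
    (hV.fderiv_right (m := 1) (by norm_num)).differentiable (by norm_num)
  refine ⟨e1 x, ContinuousLinearMap.opNorm_le_bound _ (by positivity) fun v => ?_,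
    ContinuousLinearMap.opNorm_le_bound₂ _ (by positivity) fun u v => ?_⟩
  · rw [e1]
    refine (norm_add_le _ _).trans ?_
    rw [norm_smul, norm_smul, Real.norm_eq_abs]
    have := mul_le_mul_of_nonneg_right ((fderiv ℝ χ x).le_opNorm v) (norm_nonneg (x - c))
    nlinarith only [this]
  · have h1 : HasFDerivAt (fun y => fderiv ℝ (fun z => χ z • (z - c)) y v)
        ((fderiv ℝ (fderiv ℝ fun z => χ z • (z - c)) x).flip v) x := by
      have := (hV' x).hasFDerivAt.clm_apply (hasFDerivAt_const v x)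
      simpa using this
    have h2 : HasFDerivAt (fun y => fderiv ℝ χ y v) ((fderiv ℝ (fderiv ℝ χ) x).flip v) x := by
      have := (hd' x).hasFDerivAt.clm_apply (hasFDerivAt_const v x)
      simpa using this
    have h3 := ((hd x).hasFDerivAt.smul_const v).fun_add
      (h2.fun_smul ((hasFDerivAt_id x).sub_const c))
    simp only [e1] at h1
    have h4 := congrArg (fun L : E N →L[ℝ] E N => L u) (h1.unique h3)
    simp only [ContinuousLinearMap.flip_apply, add_apply,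
      ContinuousLinearMap.smulRight_apply, smul_apply,
      ContinuousLinearMap.id_apply, id] at h4
    rw [h4]
    refine (norm_add_le _ _).trans ((add_le_add_right (norm_add_le _ _) _).trans ?_)
    rw [norm_smul, norm_smul, norm_smul]
    have a1 := mul_le_mul_of_nonneg_right ((fderiv ℝ χ x).le_opNorm u) (norm_nonneg v)
    have a2 := mul_le_mul_of_nonneg_right ((fderiv ℝ χ x).le_opNorm v) (norm_nonneg u)
    have a3 := mul_le_mul_of_nonneg_right ((fderiv ℝ (fderiv ℝ χ) x).le_opNorm₂ u v)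
      (norm_nonneg (x - c))
    nlinarith only [a1, a2, a3]

theorem bmp_bd : ∃ C : ℝ, 1 ≤ C ∧ ∀ {N : ℕ} (R : ℝ), 0 < R → ∀ c : E N,
    ContDiff ℝ 3 (fun z : E N => bmp R (z - c)) ∧ (∀ z : E N, 0 ≤ bmp R z ∧ bmp R z ≤ 1) ∧
    (∀ z : E N, ‖z‖ ≤ R → bmp R z = 1) ∧ (∀ z : E N, 2 * R ≤ ‖z‖ → bmp R z = 0) ∧
    Bd2 (fun z : E N => bmp R (z - c)) 1 (C / R) (C / R ^ 2) ∧
    ContDiff ℝ 3 (fun z : E N => bmp R (z - c) • (z - c)) ∧
    Bd2 (fun z : E N => bmp R (z - c) • (z - c)) (2 * R) C (C / R) ∧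
    ∀ z : E N, ‖z - c‖ ≤ R → ∀ v, fderiv ℝ (fun z : E N => bmp R (z - c) • (z - c)) z v = v := by
  obtain ⟨C, hC, h⟩ := FlatD_bmp
  refine ⟨4 * C, by linarith, fun {N} R hR c => ?_⟩
  obtain ⟨h3, b1, b2, hz, ho⟩ := h R hR c
  have h01 : ∀ z : E N, 0 ≤ bmp R z ∧ bmp R z ≤ 1 := fun z =>
    ⟨Real.smoothTransition.nonneg _, Real.smoothTransition.le_one _⟩
  have hab : ∀ z : E N, |bmp R z| ≤ 1 := fun z => by
    rw [abs_of_nonneg (h01 z).1]
    exact (h01 z).2
  have h2 : ContDiff ℝ 2 fun z : E N => bmp R (z - c) := h3.of_le (by norm_num)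
  have q1 : 0 < C / R := by positivity
  refine ⟨h3, h01, fun z hz => FlatD_bmp_one hR hz, fun z hz => FlatD_bmp_zero hR hz,
    ⟨fun z => hab _, fun z => (b1 z).trans (div_le_div_of_nonneg_right (by linarith) hR.le),
      fun z => (b2 z).trans (div_le_div_of_nonneg_right (by linarith) (by positivity))⟩,
    h3.smul (contDiff_id.sub contDiff_const), ⟨fun z => ?_, fun z => ?_, fun z => ?_⟩,
    fun z hz v => ?_⟩
  · rcases le_total (2 * R) ‖z - c‖ with hx | hx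
    · rw [FlatD_bmp_zero hR hx, zero_smul, norm_zero]
      positivity
    · rw [norm_smul]
      exact (mul_le_of_le_one_left (norm_nonneg _) (hab _)).trans hx
  · refine (FlatD_fld h2 c z).2.1.trans ?_
    have a1 := hab (z - c)
    rcases le_or_gt ‖z - c‖ (2 * R) with hx | hx
    · have a2 := mul_le_mul (b1 z) hx (norm_nonneg _) q1.le
      have a3 : C / R * (2 * R) = 2 * C := by field_simp
      linarith
    · rw [(hz z hx).1, norm_zero, zero_mul]
      linarith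
  · refine (FlatD_fld h2 c z).2.2.trans ?_
    rcases le_or_gt ‖z - c‖ (2 * R) with hx | hx
    · have a2 := mul_le_mul (b2 z) hx (norm_nonneg _) (by positivity)
      have a3 : C / R ^ 2 * (2 * R) = 2 * (C / R) := by field_simp
      have a4 : 4 * C / R = 4 * (C / R) := by ring
      have a5 := b1 z
      linarith only [a2, a3, a4, a5]
    · rw [(hz z hx).1, (hz z hx).2, norm_zero, ContinuousLinearMap.opNorm_zero, zero_mul, mul_zero,
        add_zero]
      positivity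
  · rw [(FlatD_fld h2 c z).1, ho z hz, FlatD_bmp_one hR hz]
    simp

theorem FlatD_ii {a b : ℝ} (ha : 0 < a) (hab : a ≤ b) (v : E m) :
    IntervalIntegrable (fun r => pk r v / r) volume a b := by
  refine ContinuousOn.intervalIntegrable_of_Icc hab ?_
  refine ContinuousOn.div (continuousOn_pk.comp (f := fun r : ℝ => (r, v))
    (by fun_prop) fun r hr => ⟨ha.trans_le hr.1, mem_univ _⟩) continuousOn_id
    fun r hr => (ha.trans_le hr.1).ne'

theorem FlatD_Gm_mono {a b a' b' : ℝ} (ha : 0 < a') (h1 : a' ≤ a) (h2 : a ≤ b) (h3 : b ≤ b')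
    (v : E m) : Gm a b v ≤ Gm a' b' v := by
  have e1 := (Gm_add ha h1 (h2.trans h3) v).1
  have e2 := (Gm_add (ha.trans_le h1) h2 h3 v).1
  have n1 := (Gm_nonneg ha h1 v).1
  have n2 := (Gm_nonneg ((ha.trans_le h1).trans_le h2) h3 v).1
  linarith

/-- integrate over `r ∈ [2 max, 4 max]` with `pk_ge` -/
theorem Gm_ge (m : ℕ) : ∃ c : ℝ, 0 < c ∧ ∀ a b : ℝ, 0 < a → ∀ v : E m, 4 * max ‖v‖ a ≤ b →
    c * (max ‖v‖ a) ^ 2 / (max ‖v‖ a) ^ m ≤ Gm a b v := by
  have hc := cg_pos m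
  refine ⟨4 / (50 * cg m * 4 ^ m), by positivity, fun a b ha v hb => ?_⟩
  obtain ⟨M, hM⟩ : ∃ M, M = max ‖v‖ a := ⟨_, rfl⟩
  rw [← hM] at hb ⊢
  have h1 : a ≤ M := hM ▸ le_max_right _ _
  have h2 : ‖v‖ ≤ M := hM ▸ le_max_left _ _
  have hM0 : 0 < M := ha.trans_le h1
  refine le_trans ?_ (FlatD_Gm_mono (a := 2 * M) (b := 4 * M) ha (by linarith) (by linarith) hb v)
  have h3 := intervalIntegral.integral_mono_on (f := fun _ => 2 * M / (50 * cg m * (4 * M) ^ m))
    (g := fun r => pk r v / r) (μ := volume) (a := 2 * M) (b := 4 * M) (by linarith)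
    intervalIntegrable_const (FlatD_ii (by linarith) (by linarith) v) fun r hr => by
      have r0 : 0 < r := by linarith [hr.1]
      have k1 := pk_ge r0 (v := v) (by linarith [hr.1])
      rw [le_div_iff₀ r0]
      refine le_trans ?_ k1
      rw [div_mul_eq_mul_div]
      refine div_le_div₀ (by positivity) (by nlinarith only [r0, hr.1]) (by positivity) ?_
      exact mul_le_mul_of_nonneg_left (pow_le_pow_left₀ r0.le hr.2 m) (by positivity)
  rw [intervalIntegral.integral_const, smul_eq_mul] at h3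
  refine le_trans (le_of_eq ?_) h3
  rw [mul_pow]
  field_simp
  ring

/-- change of the centre: `pk_le_pk'` with `s = 6 r` -/
theorem Gm_move (m : ℕ) : ∃ C : ℝ, 1 ≤ C ∧ ∀ a b a' b' : ℝ, 0 < a' → a' ≤ 6 * a → a ≤ b →
    6 * b ≤ b' → ∀ v v' : E m, ‖v - v'‖ ≤ 2 * a → Gm a b v ≤ C * Gm a' b' v' := by
  have h6 : (1 : ℝ) ≤ 6 ^ m := one_le_pow₀ (by norm_num)
  refine ⟨6 ^ m, h6, fun a b a' b' ha' h1 hab h2 v v' hv => ?_⟩
  have ha : 0 < a := by linarith
  refine le_trans ?_ (mul_le_mul_of_nonneg_left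
    (FlatD_Gm_mono (a := 6 * a) (b := 6 * b) ha' h1 (by linarith) h2 v') (by linarith))
  have e : Gm (6 * a) (6 * b) v' = ∫ r in a..b, 6 * (pk (6 * r) v' / (6 * r)) := by
    unfold Gm
    rw [← intervalIntegral.mul_integral_comp_mul_left, intervalIntegral.integral_const_mul]
  have hi : IntervalIntegrable (fun r => pk (6 * r) v' / (6 * r)) volume a b := by
    have := (FlatD_ii (a := 6 * a) (b := 6 * b) (by linarith) (by linarith) v').comp_mul_left
      (c := 6)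
    simpa using this
  rw [e, ← intervalIntegral.integral_const_mul]
  refine intervalIntegral.integral_mono_on hab (FlatD_ii ha hab v)
    ((hi.const_mul _).const_mul _) fun r hr => ?_
  have r0 : 0 < r := ha.trans_le hr.1
  have k := (pk_le_pk' r0 (s := 6 * r) (v := v) (v' := v') (by linarith [hr.1])).1
  have p0 := pk_nonneg (show 0 < 6 * r by linarith) v'
  have k2 : pk r v ≤ 6 ^ m * pk (6 * r) v' := by
    refine le_of_mul_le_mul_left (k.trans ?_) (by positivity : 0 < r ^ m * (6 * r) ^ 2)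
    rw [mul_pow]
    have : 0 ≤ 6 ^ m * r ^ m * r ^ 2 * pk (6 * r) v' := by positivity
    nlinarith only [this]
  have e2 : (6 : ℝ) ^ m * (6 * (pk (6 * r) v' / (6 * r))) = 6 ^ m * pk (6 * r) v' / r := by
    field_simp
  rw [e2]
  exact div_le_div_of_nonneg_right k2 r0.le

namespace Flat

theorem FlatD_far {x ξ : E m} {b : ℝ} (hx : ‖ξ‖ + b ≤ ‖x‖) : b ≤ ‖x - ξ‖ := by
  have := norm_sub_norm_le x ξ
  linarith

theorem FlatD_admG {a b : ℝ} (ha : 0 < a) (hab : a ≤ b) (ξ : E m) :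
    Adm fun x => Gm a b (x - ξ) :=
  Adm.of_cont ((contDiff_Gm ha hab).1.continuous.comp (continuous_id.sub continuous_const))
    (R := ‖ξ‖ + b) fun _ hx => (Gm_eq_zero ha hab (FlatD_far hx)).1

theorem FlatD_admR {s : ℝ} (hs : 0 < s) (ξ : E m) : Adm fun x => rho s (x - ξ) :=
  Adm.of_cont ((contDiff_rho s).continuous.comp (continuous_id.sub continuous_const))
    (R := ‖ξ‖ + s) fun _ hx => rho_eq_zero hs (FlatD_far hx)

theorem UU_mono {Q : ℕ} {A : ℝ} (F : Flat m N Q A) {a b a' b' : ℝ} (ha : 0 < a') (h1 : a' ≤ a)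
    (h2 : a ≤ b) (h3 : b ≤ b') (ξ : E m) : 0 ≤ F.UU a b ξ ∧ F.UU a b ξ ≤ F.UU a' b' ξ := by
  have ha' := ha.trans_le h1
  exact ⟨F.DD_nonneg fun x => (Gm_nonneg ha' h2 _).1,
    F.DD_mono (FlatD_admG ha' h2 ξ) (FlatD_admG ha (h1.trans (h2.trans h3)) ξ)
      fun x => FlatD_Gm_mono ha h1 h2 h3 _⟩

theorem UU_eq {Q : ℕ} {A : ℝ} (F : Flat m N Q A) {a b : ℝ} (ha : 0 < a) (hab : a ≤ b) (ξ : E m) :
    F.UU a b ξ = ∫ ρ in a..b, F.psi ξ ρ / ρ := by
  have hc := cg_pos m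
  let cl : ℝ → ℝ := fun s => max a (min s b)
  have c1 : ∀ s, a ≤ cl s := fun s => le_max_left _ _
  have c2 : ∀ s, cl s ≤ b := fun s => max_le hab (min_le_right _ _)
  have c0 : ∀ s, 0 < cl s := fun s => ha.trans_le (c1 s)
  have c3 : ∀ s ∈ Ioc a b, cl s = s := fun s hs => by
    simp only [cl, min_eq_left hs.2, max_eq_right hs.1.le]
  have cc : Continuous cl := by fun_prop
  have hf : Continuous fun q : ℝ × E m => pk (cl q.1) (q.2 - ξ) / cl q.1 := by
    refine Continuous.div (continuousOn_pk.comp_continuous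
      (f := fun q : ℝ × E m => (cl q.1, q.2 - ξ)) (by fun_prop)
      fun q => ⟨c0 _, mem_univ _⟩) (cc.comp continuous_fst) fun q => (c0 _).ne'
  have h := (F.lin_integral (volume.restrict (Ioc a b))
    (f := fun s x => pk (cl s) (x - ξ) / cl s) hf.measurable
    (M := fun _ => b ^ 2 / (10 * cg m * a ^ m) / a) (integrable_const _)
    (fun s x => by
      rw [abs_of_nonneg (div_nonneg (pk_nonneg (c0 s) _) (c0 s).le)]
      refine div_le_div₀ (by positivity) ((pk_le (c0 s) _).2.trans ?_) ha (c1 s)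
      refine div_le_div₀ (by positivity) (pow_le_pow_left₀ (c0 s).le (c2 s) 2) (by positivity) ?_
      exact mul_le_mul_of_nonneg_left (pow_le_pow_left₀ ha.le (c1 s) m) (by positivity))
    (R := ‖ξ‖ + b) fun s x hx => by
      rw [pk_eq_zero (c0 s) ((c2 s).trans (FlatD_far hx)), zero_div]).2.2.2.2.1
  have e1 : (fun x => ∫ s in Ioc a b, pk (cl s) (x - ξ) / cl s) = fun x => Gm a b (x - ξ) := by
    funext x
    unfold Gm
    rw [intervalIntegral.integral_of_le hab]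
    exact setIntegral_congr_fun measurableSet_Ioc fun s hs => by simp only [c3 s hs]
  rw [e1] at h
  rw [intervalIntegral.integral_of_le hab]
  refine h.trans (setIntegral_congr_fun measurableSet_Ioc fun s hs => ?_)
  simp only [c3 s hs, Flat.psi, Flat.DD]
  rw [← integral_div]
  exact integral_congr_ae (Eventually.of_forall fun y => by ring)

theorem FlatD_cpt {a b : ℝ} (ha : 0 < a) (hab : a ≤ b) (ξ : E m) :
    tsupport (fun x => Gm a b (x - ξ)) ⊆ closedBall ξ b ∧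
      HasCompactSupport fun x => Gm a b (x - ξ) := by
  have hz : ∀ x, x ∉ closedBall ξ b → Gm a b (x - ξ) = 0 := fun x hx => by
    rw [mem_closedBall, dist_eq_norm, not_le] at hx
    exact (Gm_eq_zero ha hab hx.le).1
  exact ⟨closure_minimal (fun x hx => by_contra fun h => hx (hz x h)) isClosed_closedBall,
    HasCompactSupport.intro (isCompact_closedBall _ _) hz⟩

theorem contDiff_UU {Q : ℕ} {A : ℝ} (F : Flat m N Q A) {a b : ℝ} (ha : 0 < a) (hab : a ≤ b) :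
    ContDiff ℝ 2 (F.UU a b) ∧ HasCompactSupport (F.UU a b) ∧ ∀ ξ, lap (F.UU a b) ξ =
      F.DD (fun v => rho b (v - ξ)) - F.DD fun v => rho a (v - ξ) := by
  have h2 : ContDiff ℝ 2 (Gm a b : E m → ℝ) := (contDiff_Gm ha hab).1.of_le (by norm_num)
  have hc : HasCompactSupport (Gm a b : E m → ℝ) := by
    simpa using (FlatD_cpt ha hab (0 : E m)).2
  obtain ⟨a0, hb⟩ := exists_Bd2 h2 hc
  obtain ⟨k1, -, -, k2⟩ := conv_meas F.μ F.measurable_all.1 F.integrable_d h2 hb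
  refine ⟨k1, HasCompactSupport.intro (isCompact_closedBall (0 : E m) (10 + b)) fun ξ hξ => ?_,
    fun ξ => (k2 ξ).trans ?_⟩
  · rw [mem_closedBall_zero_iff, not_le] at hξ
    refine integral_eq_zero_of_ae (F.ae.mono fun y hy => ?_)
    have h1 : ‖F.x y‖ < 10 := hy.1
    have h3 := norm_sub_norm_le ξ (F.x y)
    rw [norm_sub_rev] at h3
    simp only [(Gm_eq_zero ha hab (show b ≤ ‖F.x y - ξ‖ by linarith)).1, zero_mul, Pi.zero_apply]
  · rw [← (F.lin_sub (FlatD_admR (ha.trans_le hab) ξ) (FlatD_admR ha ξ)).1]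
    simp only [lap_Gm ha hab, smul_eq_mul, Flat.DD]

theorem FlatD_hess (m : ℕ) (hm : 1 ≤ m) : ∃ C : ℝ, 0 < C ∧ ∀ a b : ℝ, 0 < a → a ≤ b → ∀ v : E m,
    ‖fderiv ℝ (fderiv ℝ (Gm a b)) v‖ ≤ C / a ^ 2 * Gm a (4 * b) v := by
  obtain ⟨C, hC, h⟩ := Gt_bd m hm
  obtain ⟨c, hc, h'⟩ := Gm_ge m
  refine ⟨C / c, by positivity, fun a b ha hab v => ?_⟩
  have n0 := (Gm_nonneg ha (show a ≤ 4 * b by linarith) v).1
  rcases le_or_gt ‖v‖ b with hv | hv
  · have k1 := (h a b ha hab v).2.2.1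
    have k2 := h' a (4 * b) ha v (by linarith [max_le hv hab])
    have hM : a ≤ max ‖v‖ a := le_max_right _ _
    generalize max ‖v‖ a = M at k1 k2 hM
    have hM0 : 0 < M := ha.trans_le hM
    have k3 : ‖fderiv ℝ (fderiv ℝ (Gm a b)) v‖ ≤ C / M ^ m := by
      refine ContinuousLinearMap.opNorm_le_bound₂ _ (by positivity) fun u u' => ?_
      rw [hess_Gm ha hab, norm_neg]
      refine (norm_inner_le_norm _ _).trans ?_
      have := ((fderiv ℝ (fun x => Gt a b x • x) v).le_opNorm u).trans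
        (mul_le_mul_of_nonneg_right k1 (norm_nonneg u))
      rw [mul_comm]
      exact mul_le_mul_of_nonneg_right this (norm_nonneg _)
    refine k3.trans (le_trans ?_ (mul_le_mul_of_nonneg_left k2 (by positivity)))
    have e : C / c / a ^ 2 * (c * M ^ 2 / M ^ m) = C / M ^ m * (M ^ 2 / a ^ 2) := by field_simp
    rw [e]
    exact le_mul_of_one_le_right (by positivity)
      ((one_le_div (by positivity)).2 (pow_le_pow_left₀ ha.le hM 2))
  · have h0 : v ∉ tsupport (fderiv ℝ (Gm a b : E m → ℝ)) := fun h1 => by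
      have h2 := tsupport_fderiv_subset ℝ h1
      have h3 := (FlatD_cpt ha hab (0 : E m)).1
      simp only [sub_zero] at h3
      exact absurd (mem_closedBall_zero_iff.1 (h3 h2)) hv.not_ge
    rw [fderiv_of_notMem_tsupport ℝ h0, ContinuousLinearMap.opNorm_zero]
    positivity

theorem FlatD_shift (g : E m → ℝ) (ξ x : E m) :
    fderiv ℝ (fderiv ℝ fun v => g (v - ξ)) x = fderiv ℝ (fderiv ℝ g) (x - ξ) := by
  have e : (fderiv ℝ fun v => g (v - ξ)) = fun v => fderiv ℝ g (v - ξ) :=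
    funext fun v => fderiv_comp_sub ξ
  rw [e]
  exact fderiv_comp_sub ξ

theorem FlatD_iDD {Q : ℕ} {A : ℝ} (F : Flat m N Q A) {g : E m → ℝ} (hg : Adm g) :
    Integrable (fun y => g (F.x y) * F.d y) F.μ := by
  obtain ⟨mg, M, hM, -⟩ := hg
  exact F.integrable_d.bdd_mul (c := M) (mg.comp F.measurable_all.1).aestronglyMeasurable
    (Eventually.of_forall fun y => hM _)

theorem FlatD_iNH {Q : ℕ} {A : ℝ} (F : Flat m N Q A) {ψ : E m → ℝ} (hψ : ContDiff ℝ 2 ψ)
    (hc : HasCompactSupport ψ) {G : Type} [NormedAddCommGroup G] [NormedSpace ℝ G] {f : E N → G}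
    (hf : Continuous f) : Integrable (fun y => F.NH ψ y • f (F.z y)) F.μ := by
  obtain ⟨a0, hb⟩ := exists_Bd2 hψ hc
  obtain ⟨mx, -, -, -, -, mN, -⟩ := F.measurable_all
  have c2 : Continuous (fderiv ℝ (fderiv ℝ ψ)) :=
    (hψ.fderiv_right (m := 1) (by norm_num)).continuous_fderiv (by norm_num)
  refine F.integrable_cont (g := fun q => f q.2) (hf.comp continuous_snd) (f := F.NH ψ) ?_
    (M := m ^ 2 * m * a0) fun y => (F.abs_NH_le ψ y).trans ?_
  · refine Finset.measurable_sum _ fun i _ => Finset.measurable_sum _ fun j _ => ?_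
    exact (mN _ _ measurable_const measurable_const).mul
      ((((c2.clm_apply continuous_const).clm_apply continuous_const).measurable).comp mx)
  · obtain ⟨d0, d1⟩ := F.d_bd y
    exact mul_le_mul (mul_le_mul_of_nonneg_left d1 (by positivity)) (hb.b2 _)
      (ContinuousLinearMap.opNorm_nonneg _) (by positivity)

/-- Change of scale. `fv_lap` with `ψ = Gm a b (· - ξ)`; the Hessian of `ψ` is at most
`C / max ‖v‖ a ^ m ≤ C Gm a (4 b) v / a ^ 2` and vanishes for `b ≤ ‖v‖`. -/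
theorem scale_change (m : ℕ) (hm : 1 ≤ m) : ∃ C : ℝ, 1 ≤ C ∧ ∀ {N Q : ℕ} {A : ℝ}
    (F : Flat m N Q A) {G : Type} [NormedAddCommGroup G] [InnerProductSpace ℝ G] [CompleteSpace G]
    (f : E N → G) (f0 f2 a b : ℝ) (ξ : E m), ContDiff ℝ 2 f →
    (∀ z, ‖z‖ ≤ F.τ → ‖f z‖ ≤ f0 ∧ ‖fderiv ℝ (fderiv ℝ f) z‖ ≤ f2) → 0 < a → a ≤ b →
    ‖ξ‖ + b < 10 →
    ‖(∫ y, rho a (F.x y - ξ) • f (F.z y) ∂F.μ) - ∫ y, rho b (F.x y - ξ) • f (F.z y) ∂F.μ‖ ≤
      C * (f0 / a ^ 2 + f2) * F.UU a (4 * b) ξ := by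
  obtain ⟨C, hC, hH⟩ := FlatD_hess m hm
  refine ⟨1 + m ^ 2 * C, by nlinarith only [hC, sq_nonneg (m : ℝ)], ?_⟩
  intro N Q A F G _ _ _ f f0 f2 a b ξ hf hfb ha hab hξ
  have hb : 0 < b := ha.trans_le hab
  have hab4 : a ≤ 4 * b := by linarith
  have h2 : ContDiff ℝ 2 fun v : E m => Gm a b (v - ξ) :=
    ((contDiff_Gm ha hab).1.of_le (by norm_num)).comp (contDiff_id.sub contDiff_const)
  obtain ⟨s1, s2⟩ := FlatD_cpt ha hab ξ
  have hT : Test 2 (fun v : E m => Gm a b (v - ξ)) (ball 0 10) :=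
    ⟨h2, s2, s1.trans (closedBall_subset_ball' (by rw [dist_zero_right]; linarith))⟩
  have key := F.fv_lap hT hf
  have hl : ∀ x, lap (fun v : E m => Gm a b (v - ξ)) x = rho b (x - ξ) - rho a (x - ξ) :=
    fun x => by
      rw [← lap_Gm ha hab]
      simp only [lap, FlatD_shift]
  have iR : ∀ s : ℝ, Integrable (fun y => rho s (F.x y - ξ) • f (F.z y)) F.μ := fun s => by
    have := F.integrable_cont (g := fun q => rho s (q.1 - ξ) • f q.2)
      (((contDiff_rho s).continuous.comp (continuous_fst.sub continuous_const)).smul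
        (hf.continuous.comp continuous_snd)) (f := fun _ => 1) measurable_const (M := 1)
      fun _ => by norm_num
    simpa using this
  have iN := FlatD_iNH F h2 s2 hf.continuous
  simp only [hl, sub_smul] at key
  have iR2 : Integrable (fun y => rho b (F.x y - ξ) • f (F.z y) - rho a (F.x y - ξ) • f (F.z y))
      F.μ := (iR b).sub (iR a)
  rw [integral_sub iR2 iN, integral_sub (iR b) (iR a)] at key
  have hτ := F.τ_pos
  have p0 : 0 ≤ f0 := (norm_nonneg _).trans (hfb 0 (by rw [norm_zero]; exact hτ.le)).1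
  have p2 : 0 ≤ f2 :=
    (ContinuousLinearMap.opNorm_nonneg _).trans (hfb 0 (by rw [norm_zero]; exact hτ.le)).2
  have iG := FlatD_iDD F (FlatD_admG ha hab4 ξ)
  have b1 : ‖∫ y, F.NH (fun v : E m => Gm a b (v - ξ)) y • f (F.z y) ∂F.μ‖ ≤
      m ^ 2 * C * (f0 / a ^ 2) * F.UU a (4 * b) ξ := by
    refine (norm_integral_le_of_norm_le (iG.const_mul (m ^ 2 * C * (f0 / a ^ 2)))
      (F.ae.mono fun y hy => ?_)).trans (le_of_eq (integral_const_mul _ _))
    have k1 := F.abs_NH_le (fun v : E m => Gm a b (v - ξ)) y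
    rw [FlatD_shift] at k1
    have d0 := (F.d_bd y).1
    have k2 := k1.trans (mul_le_mul_of_nonneg_left (hH a b ha hab (F.x y - ξ)) (by positivity))
    rw [norm_smul, Real.norm_eq_abs]
    refine (mul_le_mul k2 (hfb _ hy.2.1).1 (norm_nonneg _) ((abs_nonneg _).trans k2)).trans
      (le_of_eq (by ring))
  have b2 : ‖∫ y, Gm a b (F.x y - ξ) •
      ∑ l, fderiv ℝ (fderiv ℝ f) (F.z y) (F.b l y) (F.b l y) ∂F.μ‖ ≤ f2 * F.UU a (4 * b) ξ := by
    refine (norm_integral_le_of_norm_le (iG.const_mul f2)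
      (F.ae.mono fun y hy => ?_)).trans (le_of_eq (integral_const_mul _ _))
    have k1 : ‖∑ l, fderiv ℝ (fderiv ℝ f) (F.z y) (F.b l y) (F.b l y)‖ ≤ f2 * F.d y := by
      refine (norm_sum_le _ _).trans ?_
      have e : F.d y = ∑ l, ‖F.b l y‖ ^ 2 := rfl
      rw [e, Finset.mul_sum]
      refine Finset.sum_le_sum fun l _ => (ContinuousLinearMap.le_opNorm₂ _ _ _).trans ?_
      rw [mul_assoc, ← sq]
      exact mul_le_mul_of_nonneg_right (hfb _ hy.2.1).2 (sq_nonneg _)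
    have n1 := (Gm_nonneg ha hab (F.x y - ξ)).1
    have n2 := FlatD_Gm_mono ha le_rfl hab (show b ≤ 4 * b by linarith) (F.x y - ξ)
    rw [norm_smul, Real.norm_of_nonneg n1]
    refine (mul_le_mul n2 k1 (norm_nonneg _) (n1.trans n2)).trans (le_of_eq (by ring))
  have u0 := (F.UU_mono ha le_rfl hab4 le_rfl ξ).1
  rw [norm_sub_rev, sub_eq_iff_eq_add.1 key]
  refine (norm_add_le _ _).trans ((add_le_add b2 b1).trans ?_)
  have q1 : 0 ≤ f0 / a ^ 2 * F.UU a (4 * b) ξ := by positivity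
  have q2 : 0 ≤ m ^ 2 * C * f2 * F.UU a (4 * b) ξ := by positivity
  nlinarith only [q1, q2]

theorem FlatD_ibmp {Q : ℕ} {A : ℝ} (F : Flat m N Q A) {s : ℝ} (hs : 0 < s) (R : ℝ) (y : E N) :
    Integrable (fun y' => rho s (F.x y' - F.x y) * bmp R (F.z y' - F.z y)) F.μ := by
  obtain ⟨mx, mz, -⟩ := F.measurable_all
  have c1 : Continuous (bmp R : E N → ℝ) := by
    unfold bmp
    exact Real.smoothTransition.continuous.comp (by fun_prop)
  refine F.integrable_of_bd ((((contDiff_rho s).continuous.measurable).comp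
    (mx.sub_const _)).mul (c1.measurable.comp (mz.sub_const _))) (M := 1 / (cg m * s ^ m))
    fun y' _ _ => ?_
  have n0 : 0 ≤ bmp R (F.z y' - F.z y) := Real.smoothTransition.nonneg _
  rw [Real.norm_of_nonneg (mul_nonneg (rho_nonneg hs _) n0)]
  exact (mul_le_of_le_one_right (rho_nonneg hs _) (Real.smoothTransition.le_one _)).trans
    (rho_le hs _)

theorem FlatD_start {Q : ℕ} {A : ℝ} (F : Flat m N Q A) {a : ℝ} (ha : 0 < a) (ha1 : a ≤ 1 / 2)
    {y : E N} (hx : ‖F.x y‖ + a ≤ 10) (hz : ‖F.z y‖ ≤ F.τ) (hy : LD m F.μ y (cg m)) :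
    1 ≤ ∫ y', rho a (F.x y' - F.x y) * bmp a (F.z y' - F.z y) ∂F.μ := by
  have hc := cg_pos m
  have ex : ∀ y', F.x y' - F.x y = pr F.ι (y' - y) := fun y' => (map_sub _ _ _).symm
  have ez : ∀ y', F.z y' - F.z y = vt F.ι (y' - y) := fun y' => (vt_sub _ _ _).symm
  have hτ := F.τ_le
  have h1 := LD.le_mk F.stat hy ha fun y' hy' => by
    rw [mem_ball, dist_eq_norm] at hy'
    obtain ⟨n1, n2, -⟩ := norm_pr_le F.ι (y' - y)
    rw [← ex] at n1
    rw [← ez] at n2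
    have n3 := norm_sub_norm_le (F.x y') (F.x y)
    have n4 := norm_sub_norm_le (F.z y') (F.z y)
    exact ⟨show ‖F.x y'‖ < 10 by linarith, show ‖F.z y'‖ < 1 by linarith only [ha, ha1, hz, hτ, hy', n2, n4]⟩
  have h2 : ∫ y', gam (‖y' - y‖ ^ 2 / a ^ 2) / (cg m * a ^ m) ∂F.μ ≤
      ∫ y', rho a (F.x y' - F.x y) * bmp a (F.z y' - F.z y) ∂F.μ := by
    refine integral_mono_of_nonneg
      (Eventually.of_forall fun y' => div_nonneg (gam_nonneg _) (by positivity))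
      (FlatD_ibmp F ha a y) (Eventually.of_forall fun y' => ?_)
    obtain ⟨n1, n2, -⟩ := norm_pr_le F.ι (y' - y)
    rw [← ex] at n1
    rw [← ez] at n2
    rcases le_total a ‖y' - y‖ with h | h
    · simp only
      rw [gam_eq_zero ((one_le_div (by positivity)).2 (pow_le_pow_left₀ ha.le h 2)), zero_div]
      exact mul_nonneg (rho_nonneg ha _) (Real.smoothTransition.nonneg _)
    · simp only
      rw [FlatD_bmp_one ha (n2.trans h), mul_one]
      exact div_le_div_of_nonneg_right (gam_anti (div_le_div_of_nonneg_right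
        (pow_le_pow_left₀ (norm_nonneg _) n1 2) (by positivity))) (by positivity)
  refine le_trans ?_ h2
  rw [integral_div, one_le_div (by positivity)]
  unfold Gen.mk at h1
  rwa [le_inv_mul_iff₀ (by positivity), mul_comm] at h1

/-- The box lemma. Let `f = bmp (g / 2) (· - z y)`. At the scale `a = g / 2`,
`gam (|y' - y|² / a²) ≤ gam (|x' - x|² / a²) f (z')`, so the left side of `scale_change` at the
centre `x y` starts from at least `mk m μ y a / cg m ≥ 1` (`LD.le_mk`); `Gm_move`. -/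
theorem box (m : ℕ) (hm : 1 ≤ m) : ∃ c : ℝ, 0 < c ∧ ∀ {N Q : ℕ} {A : ℝ} (F : Flat m N Q A)
    (g r rb : ℝ) (ξ : E m), 0 < g → g ≤ r → 30 * r ≤ rb → rb ≤ 1 → ‖ξ‖ ≤ 9 →
    F.UU g rb ξ ≤ c * g ^ 2 → ∀ y, ‖F.z y‖ ≤ F.τ → LD m F.μ y (cg m) → ‖F.x y - ξ‖ ≤ g →
    1 / 2 ≤ ∫ y', rho r (F.x y' - F.x y) * bmp (g / 2) (F.z y' - F.z y) ∂F.μ := by
  obtain ⟨C1, hC1, hs⟩ := scale_change m hm
  obtain ⟨C2, hC2, hmv⟩ := Gm_move m
  obtain ⟨C3, hC3, hb⟩ := bmp_bd
  refine ⟨1 / (8 * C1 * (1 + C3) * C2), by positivity, ?_⟩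
  intro N Q A F g r rb ξ hg hgr hr hrb hξ hU y hz hy hx
  have ha : 0 < g / 2 := by linarith
  have hr0 : 0 < r := by linarith
  have n1 := norm_sub_norm_le (F.x y) ξ
  obtain ⟨k1, -, -, -, k2, -⟩ := hb (g / 2) ha (F.z y)
  have h1 := hs F (fun z => bmp (g / 2) (z - F.z y)) 1 (C3 / (g / 2) ^ 2) (g / 2) r (F.x y)
    (k1.of_le (by norm_num)) (fun z _ => ⟨k2.b0 z, k2.b2 z⟩) ha (by linarith) (by linarith only [hg, hgr, hr, hrb, hξ, hx, n1])
  have h2 := FlatD_start F ha (by linarith only [hg, hgr, hr, hrb]) (by linarith only [hg, hgr, hr, hrb, hξ, hx, n1]) hz hy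
  have h3 : F.UU (g / 2) (4 * r) (F.x y) ≤ C2 * F.UU g rb ξ := by
    unfold Flat.UU
    rw [← (F.lin_smul C2 _).1]
    refine F.DD_mono (FlatD_admG ha (by linarith only [hg, hgr]) _)
      ((FlatD_admG hg (by linarith only [hg, hgr, hr]) ξ).const_mul C2) fun x => ?_
    refine hmv _ _ _ _ hg (by linarith) (by linarith only [hg, hgr]) (by linarith only [hg, hgr, hr]) _ _ ?_
    rw [sub_sub_sub_cancel_left, norm_sub_rev]
    linarith
  have h4 := h1.trans (mul_le_mul_of_nonneg_left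
    (h3.trans (mul_le_mul_of_nonneg_left hU (by linarith))) (by positivity))
  have e : C1 * (1 / (g / 2) ^ 2 + C3 / (g / 2) ^ 2) *
      (C2 * (1 / (8 * C1 * (1 + C3) * C2) * g ^ 2)) = 1 / 2 := by
    field_simp
    ring
  rw [e, Real.norm_eq_abs] at h4
  simp only [smul_eq_mul] at h4
  linarith only [h2, h4, (abs_le.1 h4).2]

theorem FlatD_lpe {Q : ℕ} {A : ℝ} (F : Flat m N Q A) {g g' r : ℝ} (hg : 0 < g) (hg' : g ≤ g')
    (hr : 0 < r) {y : E N}
    (h : 1 / 2 ≤ ∫ y', rho r (F.x y' - F.x y) * bmp (g / 2) (F.z y' - F.z y) ∂F.μ) :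
    F.d y ^ 2 ≤ 6 * m * F.lpe g' r y := by
  have hg0 : 0 < g' := hg.trans_le hg'
  obtain ⟨mx, -⟩ := F.measurable_all
  have i2 : Integrable (fun y' => rho r (F.x y' - F.x y) * pe F.fr F.ι g' y y') F.μ := by
    have m1 : Measurable fun y' => rho r (F.x y' - F.x y) :=
      (contDiff_rho r).continuous.measurable.comp (mx.sub_const _)
    have m2 : Measurable fun y' => pe F.fr F.ι g' y y' :=
      Measurable.of_uncurry_left (f := pe F.fr F.ι g') (measurable_pe F.fr F.ι g')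
    refine F.integrable_of_bd (m1.mul m2) (M := 1 / (cg m * r ^ m) * (6 * m)) fun y' _ _ => ?_
    obtain ⟨p0, p1⟩ := pe_bd F.fr F.ι hg0 y y'
    rw [Real.norm_of_nonneg (mul_nonneg (rho_nonneg hr _) p0)]
    exact mul_le_mul (rho_le hr _) p1 p0 ((rho_nonneg hr (0 : E m)).trans (rho_le hr _))
  have h1 : ∫ y', F.d y ^ 2 * (rho r (F.x y' - F.x y) * bmp (g / 2) (F.z y' - F.z y)) ∂F.μ ≤
      ∫ y', 3 * m * (rho r (F.x y' - F.x y) * pe F.fr F.ι g' y y') ∂F.μ := by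
    refine integral_mono ((FlatD_ibmp F hr _ y).const_mul _) (i2.const_mul _) fun y' => ?_
    have p0 := (pe_bd F.fr F.ι hg0 y y').1
    have r0 := rho_nonneg hr (F.x y' - F.x y)
    rcases le_total g ‖F.z y' - F.z y‖ with hz | hz
    · simp only
      rw [FlatD_bmp_zero (by linarith) (by linarith), mul_zero, mul_zero]
      positivity
    · have hz' : ‖vt F.ι (y - y')‖ ≤ g' := by
        rw [vt_sub, norm_sub_rev]
        exact hz.trans hg'
      have k : F.d y ^ 2 + F.d y' ^ 2 ≤ 3 * m * pe F.fr F.ι g' y y' :=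
        ((peh_bd F.ι hg0 _ (F.fr.orth y) (F.fr.orth y')).2.2 hz').2
      have k2 : F.d y ^ 2 ≤ 3 * m * pe F.fr F.ι g' y y' := by linarith [sq_nonneg (F.d y')]
      have k3 : rho r (F.x y' - F.x y) * bmp (g / 2) (F.z y' - F.z y) ≤ rho r (F.x y' - F.x y) :=
        mul_le_of_le_one_right r0 (Real.smoothTransition.le_one _)
      exact (mul_le_mul k2 k3 (mul_nonneg r0 (Real.smoothTransition.nonneg _))
        (by positivity)).trans (le_of_eq (by ring))
  rw [integral_const_mul, integral_const_mul] at h1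
  have h2 := mul_le_mul_of_nonneg_left h (sq_nonneg (F.d y))
  unfold Flat.lpe
  linarith

theorem FlatD_energy (m : ℕ) {δ : ℝ} (hδ : 0 < δ) : ∃ c : ℝ, 0 < c ∧ ∀ {N Q : ℕ} {A : ℝ}
    (F : Flat m N Q A) (g rb s : ℝ) (ξ : E m), 0 < g → g ≤ s → 12 * s ≤ rb →
    F.UU g rb ξ ≤ c * g ^ 2 → F.DS (ball ξ (3 * s)) ≤ δ * s ^ m := by
  obtain ⟨c, hc, h⟩ := Gm_ge m
  refine ⟨δ * c / 3 ^ m, by positivity, fun {N Q A} F g rb s ξ hg hs hrb hU => ?_⟩
  have hs0 : 0 < s := hg.trans_le hs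
  have hgr : g ≤ rb := by linarith
  have h1 := F.DS_le_DD (FlatD_admG hg hgr ξ) (fun x => (Gm_nonneg hg hgr _).1)
    (t := c * g ^ 2 / (3 * s) ^ m) (Z := ball ξ (3 * s)) measurableSet_ball fun x hx => by
      rw [mem_ball, dist_eq_norm] at hx
      have k1 : max ‖x - ξ‖ g ≤ 3 * s := max_le hx.le (by linarith)
      have k2 : g ≤ max ‖x - ξ‖ g := le_max_right _ _
      refine le_trans ?_ (h g rb hg (x - ξ) (by linarith))
      refine div_le_div₀ (by positivity) (mul_le_mul_of_nonneg_left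
        (pow_le_pow_left₀ hg.le k2 2) hc.le) (pow_pos (hg.trans_le k2) m)
        (pow_le_pow_left₀ (hg.le.trans k2) k1 m)
  refine le_of_mul_le_mul_left (h1.trans (hU.trans (le_of_eq ?_)))
    (by positivity : 0 < c * g ^ 2 / (3 * s) ^ m)
  rw [mul_pow]
  field_simp

/-- By `box` and `peh_bd`, `d y ^ 2 ≤ 6 m * lpe g' r y` for the good points over
`thickening g Z`. For `lemmaM` at the scale `s₀ = g`: for `g ≤ ρ ≤ rb / 4` the energy of
`ball ξ ρ` is at most `C c g² ρ ^ (m - 2)` (`Gm_ge`), so `lock_path` moves the anchor from the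
scale `rb / 20` (`anchor_all`) to `g`. -/
theorem S0b (m : ℕ) (hm : 1 ≤ m) (Q : ℕ) (A : ℝ) : ∃ c C C₀ : ℝ, 0 < c ∧ 1 ≤ C ∧ 1 ≤ C₀ ∧
    ∀ {N : ℕ} (F : Flat m N Q A) (g g' r rb : ℝ) (Z : Set (E m)), 0 < g → g ≤ g' → g ≤ r →
    30 * r ≤ rb → C₀ * F.τ ≤ rb → rb ≤ 1 → MeasurableSet Z → Z ⊆ ball 0 9 →
    (∀ ξ ∈ Z, F.UU g rb ξ ≤ c * g ^ 2) →
    ∫ y in F.x ⁻¹' thickening g Z, F.d y ^ 2 ∂F.μ ≤ C * F.RS g' r (thickening g Z) ∧
    ∀ (f : E m → ℝ) (M : ℝ), Measurable f → (∀ x, |f x| ≤ M) → (∀ x, x ∉ Z → f x = 0) →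
      |F.Y f| ≤ C * M * F.RS g' r (thickening g Z) := by
  obtain ⟨c, hc⟩ := exists_lk m
  obtain ⟨δ, C, hδ, -, hC, hl⟩ := Lk.lemmaM m hm c Q
  obtain ⟨δ', hδ', hp⟩ := Lk.lock_path m hm c
  obtain ⟨c1, hc1, he⟩ := FlatD_energy m (lt_min hδ hδ')
  obtain ⟨c2, hc2, hb⟩ := box m hm
  obtain ⟨C₂, hC₂, ha⟩ := anchor_all m hm Q A
  have hm' : (1 : ℝ) ≤ m := by exact_mod_cast hm
  refine ⟨min c1 c2, C * (6 * m), 20 * C₂, lt_min hc1 hc2, by nlinarith only [hm', hC], by linarith, ?_⟩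
  intro N F g g' r rb Z hg hg' hgr hr hτ hrb hZ hZ9 hU
  have hr0 : 0 < r := hg.trans_le hgr
  have hg0 : 0 < g' := hg.trans_le hg'
  have hT : MeasurableSet (thickening g Z) := isOpen_thickening.measurableSet
  have hU1 : ∀ ξ ∈ Z, F.UU g rb ξ ≤ c1 * g ^ 2 := fun ξ hξ =>
    (hU ξ hξ).trans (mul_le_mul_of_nonneg_right (min_le_left _ _) (sq_nonneg _))
  have hU2 : ∀ ξ ∈ Z, F.UU g rb ξ ≤ c2 * g ^ 2 := fun ξ hξ =>
    (hU ξ hξ).trans (mul_le_mul_of_nonneg_right (min_le_right _ _) (sq_nonneg _))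
  have h9' : ∀ ξ ∈ Z, ‖ξ‖ < 9 := fun ξ hξ => mem_ball_zero_iff.1 (hZ9 hξ)
  have R0 := (F.RS_mono hg0 hr0 hT hT subset_rfl).1
  have P1 : ∫ y in F.x ⁻¹' thickening g Z, F.d y ^ 2 ∂F.μ ≤
      6 * m * F.RS g' r (thickening g Z) := by
    rw [F.RS_eq hg0 hr0 hT, ← integral_const_mul]
    refine integral_mono_of_nonneg (Eventually.of_forall fun y => sq_nonneg _)
      (((F.lpe_bd hg0 hr0).2.1.const_mul _).restrict) ?_
    rw [EventuallyLE, ae_restrict_iff' (F.measurable_all.1 hT)]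
    refine F.ae.mono fun y hy hyZ => ?_
    obtain ⟨ξ, hξ, hd⟩ := mem_thickening_iff.1 hyZ
    rw [dist_eq_norm] at hd
    exact FlatD_lpe F hg hg' hr0
      (hb F g r rb ξ hg hgr hr hrb (h9' ξ hξ).le (hU2 ξ hξ) y hy.2.1 hy.2.2 hd.le)
  refine ⟨P1.trans (mul_le_mul_of_nonneg_right
    (le_mul_of_one_le_left (by linarith) hC) R0), fun f M hf hM h0 => ?_⟩
  obtain ⟨B, e1, e2, e3, e4, e5, e6, e7, e8⟩ := hc F
  have hM0 : 0 ≤ M := (abs_nonneg _).trans (hM 0)
  have h9 : ∀ x : E m, 9 ≤ ‖x‖ → f x = 0 := fun x hx => h0 x fun hx' => by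
    linarith [h9' x hx']
  have hball : ∀ ξ ∈ Z, ∀ s, s ≤ rb / 20 → ball ξ (3 * s) ⊆ B.O := fun ξ hξ s hs => by
    rw [e5]
    refine ball_subset_ball' ?_
    rw [dist_zero_right]
    linarith [h9' ξ hξ]
  have hen : ∀ ξ ∈ Z, ∀ s, g ≤ s → s ≤ rb / 20 → B.PP (ball ξ (3 * s)) ≤ min δ δ' * s ^ m :=
    fun ξ hξ s hs hs' => by
      rw [e8]
      exact he F g rb s ξ hg hs (by linarith) (hU1 ξ hξ)
  have hg20 : g ≤ rb / 20 := by linarith
  have h := (hl B g Z hg (by linarith) (by rw [e6, abs_zero]; exact hδ.le) hZ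
    fun ξ hξ => ⟨hball ξ hξ g hg20, (hen ξ hξ g le_rfl hg20).trans
      (mul_le_mul_of_nonneg_right (min_le_left _ _) (by positivity)), by
      have x1 := hp B Q (Icc g (rb / 20) ×ˢ {ξ}) (isPreconnected_Icc.prod isPreconnected_singleton)
        (fun q hq => by
          obtain ⟨⟨q1, q2⟩, q3⟩ := hq
          have q0 : 0 < q.1 := hg.trans_le q1
          rw [mem_singleton_iff.1 q3]
          exact ⟨q0, by linarith, hball ξ hξ _ q2, (hen ξ hξ _ q1 q2).trans
            (mul_le_mul_of_nonneg_right (min_le_right _ _) (by positivity))⟩)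
        ⟨(rb / 20, ξ), ⟨⟨hg20, le_rfl⟩, rfl⟩, by
          have s0 : 0 < rb / 20 := hg.trans_le hg20
          have x3 := ha F ξ (rb / 20) (h9' ξ hξ).le (by linarith) (by linarith)
          simp only
          rw [B.ff_eq_Y Q s0 ξ, e7 _ (FlatD_admR s0 ξ), abs_div, abs_neg, abs_two]
          linarith only [hg, hgr, hr, hrb, x3]⟩ (g, ξ) ⟨⟨le_rfl, hg20⟩, rfl⟩
      exact x1.trans (by norm_num)⟩).2
  simp only [e4, integral_zero, add_zero] at h
  have h2 : B.D2 (thickening g Z) ≤ 6 * m * F.RS g' r (thickening g Z) := by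
    simp only [Lk.D2, e1, e2, e3]
    exact P1
  obtain ⟨-, h3⟩ := B.abs_Y_le Q hf hM h9
  have hA : Adm f := ⟨hf, max M 9, fun x => (hM x).trans (le_max_left _ _),
    fun x hx => h9 x ((le_max_right _ _).trans hx)⟩
  rw [e7 f hA] at h3
  have hfin := B.bet_finite Q (isBounded_ball.subset hZ9)
  have h4 : ∫ x, |f x| ∂(B.bet Q) ≤ ∫ x, Z.indicator (fun _ => M) x ∂(B.bet Q) := by
    refine integral_mono_of_nonneg (Eventually.of_forall fun x => abs_nonneg _)
      ((integrable_indicator_iff hZ).2 (integrableOn_const hfin.ne))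
      (Eventually.of_forall fun x => ?_)
    by_cases hx : x ∈ Z
    · simp only [indicator_of_mem hx]
      exact hM x
    · simp only [indicator_of_notMem hx, h0 x hx, abs_zero, le_refl]
  rw [integral_indicator_const _ hZ, smul_eq_mul, Measure.real] at h4
  calc |F.Y f| ≤ (B.bet Q Z).toReal * M := h3.trans h4
    _ ≤ C * (6 * m * F.RS g' r (thickening g Z)) * M :=
      mul_le_mul_of_nonneg_right (h.trans (mul_le_mul_of_nonneg_left h2 (by linarith))) hM0
    _ = C * (6 * m) * M * F.RS g' r (thickening g Z) := by ring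

end Flat

end Pool.Agent.MP_f6c0e6_an.Gen

end

section

/-! Auxiliary facts for the differential equation of the excess ratio. -/

set_option autoImplicit false

open MeasureTheory Filter Topology Set Metric
open scoped ENNReal RealInnerProductSpace

namespace Pool.Agent.MP_f6c0e6_an.Gen

variable {m N : ℕ}

theorem FlatE_rv {r : ℝ} (hr : 0 < r) (v : E m) : rho r v * ‖v‖ ^ 2 ≤ rho r v * r ^ 2 := by
  rcases le_total r ‖v‖ with hv | hv
  · simp only [rho_eq_zero hr hv, zero_mul, le_refl]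
  · exact mul_le_mul_of_nonneg_left (pow_le_pow_left₀ (norm_nonneg _) hv 2) (rho_nonneg hr v)

theorem FlatE_bd (m : ℕ) {a : ℝ} (b : ℝ) (ha : 0 < a) : ∃ M : ℝ, 0 ≤ M ∧ ∀ r ∈ Icc a b,
    ∀ v : E m, pk r v ≤ M ∧ rho r v * ‖v‖ ^ 2 ≤ M := by
  have hc := cg_pos m
  refine ⟨b ^ 2 * (1 / (cg m * a ^ m)), by positivity, fun r hr v => ?_⟩
  have hr0 : 0 < r := ha.trans_le hr.1
  have h1 : rho r v ≤ 1 / (cg m * a ^ m) := (rho_le hr0 v).trans
    (one_div_le_one_div_of_le (by positivity)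
      (mul_le_mul_of_nonneg_left (pow_le_pow_left₀ ha.le hr.1 m) hc.le))
  have h2 : r ^ 2 ≤ b ^ 2 := pow_le_pow_left₀ hr0.le hr.2 2
  have h0 := rho_nonneg hr0 v
  have h3 : r ^ 2 * rho r v ≤ b ^ 2 * (1 / (cg m * a ^ m)) :=
    mul_le_mul h2 h1 h0 (sq_nonneg b)
  have h4 := (pk_le hr0 v).1
  have h5 := FlatE_rv hr0 v
  have h6 : 0 ≤ r ^ 2 * rho r v := mul_nonneg (sq_nonneg r) h0
  constructor <;> linarith

theorem FlatE_cont {Ω : Type} [MeasurableSpace Ω] (μ : Measure Ω) [IsFiniteMeasure μ]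
    {G : E m × ℝ → Ω → ℝ} (hG : ∀ q, Measurable (G q))
    (hc : ∀ y, ContinuousOn (fun q => G q y) (univ ×ˢ Ioi 0))
    (hb : ∀ a b : ℝ, 0 < a → ∃ M : ℝ, ∀ q : E m × ℝ, q.2 ∈ Icc a b → ∀ y, |G q y| ≤ M) :
    ContinuousOn (fun q => ∫ y, G q y ∂μ) (univ ×ˢ Ioi 0) := by
  intro q hq
  have hq0 : 0 < q.2 := hq.2
  obtain ⟨M, hM⟩ := hb (q.2 / 2) (2 * q.2) (by linarith)
  have ho : univ ×ˢ Ioi (0 : ℝ) ∈ 𝓝 q := (isOpen_univ.prod isOpen_Ioi).mem_nhds hq
  have hn : ∀ᶠ p : E m × ℝ in 𝓝 q, p.2 ∈ Icc (q.2 / 2) (2 * q.2) :=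
    continuous_snd.continuousAt.eventually (Icc_mem_nhds (by linarith) (by linarith))
  refine ContinuousAt.continuousWithinAt ?_
  exact continuousAt_of_dominated (bound := fun _ => M)
    (Eventually.of_forall fun p => (hG p).aestronglyMeasurable)
    (hn.mono fun p hp => ae_of_all _ fun y => hM p hp y) (integrable_const M)
    (ae_of_all _ fun y => (hc y).continuousAt ho)

theorem FlatE_swap (x : E m) : ContinuousOn (fun q : E m × ℝ => pk q.2 (x - q.1)) (univ ×ˢ Ioi 0) ∧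
    ContinuousOn (fun q : E m × ℝ => rho q.2 (x - q.1)) (univ ×ˢ Ioi 0) := by
  have h : Continuous fun q : E m × ℝ => (q.2, x - q.1) :=
    continuous_snd.prodMk (continuous_const.sub continuous_fst)
  have hm : MapsTo (fun q : E m × ℝ => (q.2, x - q.1)) (univ ×ˢ Ioi 0) (Ioi 0 ×ˢ univ) :=
    fun q hq => ⟨hq.2, mem_univ _⟩
  have h1 := (continuousOn_pk (m := m)).comp h.continuousOn hm
  have h2 := (continuousOn_rho (m := m)).comp h.continuousOn hm
  simp only [Function.comp_def] at h1 h2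
  exact ⟨h1, h2⟩

theorem FlatE_cpk (r : ℝ) (ξ : E m) : Continuous (fun v => pk r (v - ξ)) ∧
    Continuous fun v => rho r (v - ξ) :=
  ⟨(contDiff_pk r).continuous.comp (continuous_id.sub continuous_const),
    (contDiff_rho r).continuous.comp (continuous_id.sub continuous_const)⟩

theorem FlatE_far {ξ x : E m} {r : ℝ} (h : ‖ξ‖ + r ≤ ‖x‖) : r ≤ ‖x - ξ‖ := by
  have := norm_sub_norm_le x ξ
  linarith

theorem FlatE_adm {r : ℝ} (hr : 0 < r) (ξ : E m) : Adm fun v => pk r (v - ξ) :=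
  Adm.of_cont (FlatE_cpk r ξ).1 (R := ‖ξ‖ + r) fun _ hx => pk_eq_zero hr (FlatE_far hx)

theorem FlatE_int_pk {r : ℝ} (hr : 0 < r) (ξ : E m) :
    ∫ v, pk r (v - ξ) = r ^ 2 * ∫ v : E m, pk 1 v := by
  rw [integral_sub_right_eq_self (fun x : E m => pk r x) ξ]
  have e : ∀ x : E m, pk r x = r ^ 2 / r ^ m * pk 1 (r⁻¹ • x) := fun x => by
    have h := pk_smul hr 1 (r⁻¹ • x)
    rw [mul_one, smul_inv_smul₀ hr.ne'] at h
    rw [h]
    ring
  simp only [e]
  rw [integral_const_mul, Measure.integral_comp_inv_smul_of_nonneg volume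
    (fun x : E m => pk 1 x) hr.le, finrank_euclideanSpace_fin, smul_eq_mul]
  have : r ^ m ≠ 0 := (pow_pos hr m).ne'
  field_simp

theorem FlatE_meas : Measurable (fun q : ℝ × E m => pk q.1 q.2) ∧
    Measurable fun q : ℝ × E m => rho q.1 q.2 := by
  have h1 : Measurable fun q : ℝ × E m => ‖q.2‖ ^ 2 / q.1 ^ 2 :=
    (measurable_snd.norm.pow_const 2).div (measurable_fst.pow_const 2)
  exact ⟨((contDiff_Gam.continuous.measurable.comp h1).mul (measurable_fst.pow_const 2)).div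
      ((measurable_fst.pow_const m).const_mul _),
    (contDiff_gam.continuous.measurable.comp h1).div ((measurable_fst.pow_const m).const_mul _)⟩

/-- the first time at which `e` is non-negative -/
theorem FlatE_first {f f' e : ℝ → ℝ} {a b : ℝ} (hab : a ≤ b)
    (hf : ∀ t ∈ Icc a b, HasDerivAt f (f' t) t) (he : ContinuousOn e (Icc a b))
    (h : ∀ t ∈ Icc a b, e t < 0 → 0 ≤ f' t) :
    ∃ t ∈ Icc a b, f a ≤ f t ∧ (t = b ∨ 0 ≤ e t) := by
  have hT : IsCompact ((Icc a b ∩ e ⁻¹' Ici 0) ∪ {b}) :=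
    (isCompact_Icc.of_isClosed_subset
      (he.preimage_isClosed_of_isClosed isClosed_Icc isClosed_Ici) inter_subset_left).union
      isCompact_singleton
  obtain ⟨t, ht, hl⟩ := hT.exists_isLeast ⟨b, Or.inr rfl⟩
  have ht' : t ∈ Icc a b := by
    rcases ht with ht | ht
    · exact ht.1
    · rw [mem_singleton_iff.1 ht]
      exact right_mem_Icc.2 hab
  have hs : Icc a t ⊆ Icc a b := Icc_subset_Icc_right ht'.2
  refine ⟨t, ht', ?_, ?_⟩
  · refine monotoneOn_of_hasDerivWithinAt_nonneg (f' := f') (convex_Icc a t)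
      (fun s hs' => (hf s (hs hs')).continuousAt.continuousWithinAt)
      (fun s hs' => (hf s (hs (interior_subset hs'))).hasDerivWithinAt) (fun s hs' => ?_)
      (left_mem_Icc.2 ht'.1) (right_mem_Icc.2 ht'.1) ht'.1
    have h1 := hs (interior_subset hs')
    rw [interior_Icc] at hs'
    refine h s h1 (not_le.1 fun h2 => ?_)
    exact absurd (hl (Or.inl ⟨h1, h2⟩)) (not_le.2 hs'.2)
  · rcases ht with ht | ht
    · exact Or.inr ht.2
    · exact Or.inl ht

/-- growth from a differential inequality -/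
theorem FlatE_grow {f f' : ℝ → ℝ} {a δ : ℝ} (ha : 0 < a)
    (hf : ∀ t ∈ Icc a (2 * a), HasDerivAt f (f' t) t) (hp : ∀ t ∈ Icc a (2 * a), 0 < f t)
    (h : ∀ t ∈ Icc a (2 * a), δ * f t / t ≤ f' t) : (2 : ℝ) ^ δ * f a ≤ f (2 * a) := by
  have hab : a ≤ 2 * a := by linarith
  have hd : ∀ t ∈ Icc a (2 * a), HasDerivAt (fun s => Real.log (f s) - δ * Real.log s)
      (f' t / f t - δ * t⁻¹) t := fun t ht =>
    ((hf t ht).log (hp t ht).ne').sub ((Real.hasDerivAt_log (ha.trans_le ht.1).ne').const_mul δ)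
  have hm := monotoneOn_of_hasDerivWithinAt_nonneg (convex_Icc a (2 * a))
    (fun s hs => (hd s hs).continuousAt.continuousWithinAt)
    (fun s hs => (hd s (interior_subset hs)).hasDerivWithinAt) (fun s hs => by
      have hs' := interior_subset hs
      have h1 := h s hs'
      have h2 := hp s hs'
      rw [sub_nonneg, le_div_iff₀ h2]
      refine le_trans (le_of_eq ?_) h1
      ring)
    (left_mem_Icc.2 hab) (right_mem_Icc.2 hab) hab
  have h1 := hp a (left_mem_Icc.2 hab)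
  have h2 := hp (2 * a) (right_mem_Icc.2 hab)
  simp only [Real.log_mul two_ne_zero ha.ne'] at hm
  rw [← Real.log_le_log_iff (by positivity) h2, Real.log_mul (by positivity) h1.ne',
    Real.log_rpow two_pos]
  linarith

theorem FlatE_pow {m : ℕ} (hm : 2 ≤ m) (r : ℝ) : r ^ m = r ^ (m - 2) * r ^ 2 := by
  rw [← pow_add, Nat.sub_add_cancel hm]

theorem FlatE_hess {a b : ℝ} (ha : 0 < a) (hab : a ≤ b) (v : E m) :
    ‖fderiv ℝ (fderiv ℝ (Gm a b)) v‖ ≤ ‖fderiv ℝ (fun x => Gt a b x • x) v‖ := by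
  refine ContinuousLinearMap.opNorm_le_bound₂ _ (norm_nonneg _) fun u u' => ?_
  rw [hess_Gm ha hab, norm_neg]
  refine (norm_inner_le_norm _ _).trans ?_
  rw [mul_comm]
  exact mul_le_mul_of_nonneg_right (ContinuousLinearMap.le_opNorm _ _) (norm_nonneg _)

theorem FlatE_hess0 {a b : ℝ} (ha : 0 < a) (hab : a ≤ b) {v : E m} (hv : b < ‖v‖) :
    fderiv ℝ (fderiv ℝ (Gm a b)) v = 0 := by
  have h : (Gm a b : E m → ℝ) =ᶠ[𝓝 v] fun _ => 0 :=
    (continuous_norm.continuousAt.eventually (lt_mem_nhds hv)).mono fun x hx =>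
      (Gm_eq_zero ha hab (le_of_lt hx)).1
  rw [h.fderiv.fderiv_eq]
  simp

/-- the Hessian of the potential is dominated by a potential with a larger cut-off -/
theorem FlatE_hess_le (m : ℕ) (hm : 1 ≤ m) : ∃ K : ℝ, 1 ≤ K ∧ ∀ a b : ℝ, 0 < a → a ≤ b →
    ∀ v : E m, ‖fderiv ℝ (fderiv ℝ (Gm a b)) v‖ ≤ K / a ^ 2 * Gm a (4 * b) v := by
  obtain ⟨C, hC, h1⟩ := Gt_bd m hm
  obtain ⟨c, hc, h2⟩ := Gm_ge m
  refine ⟨max 1 (C / c), le_max_left _ _, fun a b ha hab v => ?_⟩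
  have hG := (Gm_nonneg ha (by linarith : a ≤ 4 * b) v).1
  have hK : 0 ≤ max 1 (C / c) / a ^ 2 := by positivity
  rcases lt_or_ge b ‖v‖ with hv | hv
  · rw [FlatE_hess0 ha hab hv, ContinuousLinearMap.opNorm_zero]
    exact mul_nonneg hK hG
  · have h3 := h2 a (4 * b) ha v (by linarith [max_le hv hab])
    have h4 := (FlatE_hess ha hab v).trans (h1 a b ha hab v).2.2.1
    have hM : a ≤ max ‖v‖ a := le_max_right _ _
    generalize max ‖v‖ a = M at h3 h4 hM
    have hM0 : 0 < M := ha.trans_le hM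
    have h5 : a ^ 2 ≤ M ^ 2 := pow_le_pow_left₀ ha.le hM 2
    calc _ ≤ C / M ^ m := h4
      _ = C / c / M ^ 2 * (c * M ^ 2 / M ^ m) := by field_simp
      _ ≤ max 1 (C / c) / a ^ 2 * Gm a (4 * b) v := by
        refine mul_le_mul ?_ h3 (by positivity) hK
        exact div_le_div₀ (by positivity) (le_max_right _ _) (by positivity) h5

theorem FlatE_sq2 (z u : E N) :
    fderiv ℝ (fderiv ℝ fun w : E N => ‖w‖ ^ 2) z u u = 2 * ‖u‖ ^ 2 := by
  have e : fderiv ℝ (fun w : E N => ‖w‖ ^ 2) = fun w => (2 : ℝ) • innerSL ℝ w := by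
    funext w
    rw [fderiv_norm_sq_apply]
    simp [two_smul]
  have h : HasFDerivAt (fun w : E N => (2 : ℝ) • innerSL ℝ w)
      ((2 : ℝ) • (innerSL ℝ : E N →L[ℝ] E N →L[ℝ] ℝ)) z :=
    (innerSL ℝ : E N →L[ℝ] E N →L[ℝ] ℝ).hasFDerivAt.const_smul (2 : ℝ)
  rw [e, h.fderiv, ← real_inner_self_eq_norm_sq]
  rfl

namespace Flat

variable {Q : ℕ} {A : ℝ} (F : Flat m N Q A)

theorem FlatE_NN (y : E N) (v : E m) : 0 ≤ F.NN y v v ∧ F.NN y v v ≤ F.d y * ‖v‖ ^ 2 :=
  ⟨(NF_bd F.ι (F.fr.orth y) v v).1, (NF_bd F.ι (F.fr.orth y) v v).2.1⟩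

theorem FlatE_mx (ξ : E m) : Measurable fun y => F.x y - ξ :=
  F.measurable_all.1.sub measurable_const

theorem FlatE_mNN (ξ : E m) : Measurable fun y => F.NN y (F.x y - ξ) (F.x y - ξ) :=
  F.measurable_all.2.2.2.2.2.1 _ _ (F.FlatE_mx ξ) (F.FlatE_mx ξ)

theorem FlatE_rN {r : ℝ} (hr : 0 < r) (y : E N) (v : E m) : 0 ≤ rho r v * F.NN y v v ∧
    rho r v * F.NN y v v ≤ rho r v * ‖v‖ ^ 2 * m := by
  have h0 := rho_nonneg hr v
  have h1 := F.FlatE_NN y v
  have h2 := F.d_bd y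
  refine ⟨mul_nonneg h0 h1.1, ?_⟩
  rw [mul_assoc]
  refine mul_le_mul_of_nonneg_left (h1.2.trans ?_) h0
  rw [mul_comm]
  exact mul_le_mul_of_nonneg_left h2.2 (sq_nonneg _)

theorem FlatE_int {f : E N → ℝ} (hf : Measurable f) {M : ℝ} (h : ∀ y, |f y| ≤ M) :
    Integrable f F.μ :=
  Integrable.of_bound hf.aestronglyMeasurable M (ae_of_all _ h)

theorem FlatE_ints {r : ℝ} (hr : 0 < r) (ξ : E m) :
    Integrable (fun y => pk r (F.x y - ξ)) F.μ ∧
    Integrable (fun y => rho r (F.x y - ξ) * ‖F.x y - ξ‖ ^ 2) F.μ ∧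
    Integrable (fun y => pk r (F.x y - ξ) * F.d y) F.μ ∧
    Integrable (fun y => rho r (F.x y - ξ) * F.NN y (F.x y - ξ) (F.x y - ξ)) F.μ := by
  obtain ⟨M, hM0, hM⟩ := FlatE_bd m r hr
  have hM' := hM r ⟨le_rfl, le_rfl⟩
  have m1 : Measurable fun y => pk r (F.x y - ξ) :=
    (contDiff_pk r).continuous.measurable.comp (F.FlatE_mx ξ)
  have m2 : Measurable fun y => rho r (F.x y - ξ) :=
    (contDiff_rho r).continuous.measurable.comp (F.FlatE_mx ξ)
  refine ⟨F.FlatE_int m1 (M := M) fun y => ?_,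
    F.FlatE_int (m2.mul ((F.FlatE_mx ξ).norm.pow_const 2)) (M := M) fun y => ?_,
    F.FlatE_int (m1.mul F.measurable_all.2.2.2.2.1) (M := M * m) fun y => ?_,
    F.FlatE_int (m2.mul (F.FlatE_mNN ξ)) (M := M * m) fun y => ?_⟩
  · rw [abs_of_nonneg (pk_nonneg hr _)]
    exact (hM' _).1
  · rw [abs_of_nonneg (mul_nonneg (rho_nonneg hr _) (sq_nonneg _))]
    exact (hM' _).2
  · rw [abs_of_nonneg (mul_nonneg (pk_nonneg hr _) (F.d_bd y).1)]
    exact mul_le_mul (hM' _).1 (F.d_bd y).2 (F.d_bd y).1 hM0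
  · rw [abs_of_nonneg (F.FlatE_rN hr y _).1]
    exact (F.FlatE_rN hr y _).2.trans (mul_le_mul_of_nonneg_right (hM' _).2 (Nat.cast_nonneg m))

theorem FlatE_Phi {r : ℝ} (hr : 0 < r) (ξ : E m) :
    F.Phi ξ r = ∫ y, pk r (F.x y - ξ) ∂F.μ - Q * (r ^ 2 * ∫ v : E m, pk 1 v) := by
  rw [← FlatE_int_pk hr ξ]
  rfl

theorem FlatE_ND {g : E m → ℝ} {v : E m} (hg : DifferentiableAt ℝ g v) {t : ℝ}
    (h : ∀ u, fderiv ℝ g v u = t * ⟪v, u⟫) (y : E N) :
    F.ND y (fderiv ℝ (fun x => g x • x) v) = g v * F.d y + t * F.NN y v v := by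
  have e1 : ∀ i, F.NN y (ev i) (fderiv ℝ (fun x => g x • x) v (ev i)) =
      g v * F.NN y (ev i) (ev i) + t * F.NN y (⟪ev i, v⟫ • ev i) v := fun i => by
    rw [(KernB_has_smul hg).fderiv]
    simp only [add_apply, smul_apply,
      ContinuousLinearMap.id_apply, ContinuousLinearMap.smulRight_apply, h, Flat.NN]
    rw [NF_symm, NF_add, NF_smul, NF_smul, NF_smul, NF_symm _ _ v, real_inner_comm]
    ring
  have e2 : ∀ J : Finset (Fin m), ∑ i ∈ J, F.NN y (⟪ev i, v⟫ • ev i) v =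
      F.NN y (∑ i ∈ J, ⟪ev i, v⟫ • ev i) v := fun J => by
    classical
    induction J using Finset.induction_on with
    | empty =>
      have := NF_smul F.ι (fun l => F.fr.s l y) 0 0 v
      simp only [Finset.sum_empty, Flat.NN]
      rw [zero_smul, zero_mul] at this
      exact this.symm
    | insert i J hi ih =>
      rw [Finset.sum_insert hi, Finset.sum_insert hi, ih]
      exact (NF_add _ _ _ _ _).symm
  have e3 : ∑ i, F.NN y (ev i) (ev i) = F.d y := NF_trace_ev F.ι (F.fr.orth y)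
  rw [Flat.ND]
  simp only [e1]
  rw [Finset.sum_add_distrib, ← Finset.mul_sum, ← Finset.mul_sum, e2, KernB_sum_ev, e3]

/-- the stress identity for the radial field -/
theorem FlatE_stress (ξ : E m) {ρ : ℝ} (hρ : 0 < ρ) (h : ‖ξ‖ + ρ < 10) :
    m * ∫ y, pk ρ (F.x y - ξ) ∂F.μ - ∫ y, rho ρ (F.x y - ξ) * ‖F.x y - ξ‖ ^ 2 ∂F.μ =
      F.psi ξ ρ - F.nn ξ ρ := by
  have c1 : ContDiff ℝ 1 (pk ρ : E m → ℝ) := (contDiff_pk ρ).of_le (by norm_num)
  have c2 : ContDiff ℝ 1 fun x : E m => pk ρ x • x := c1.smul contDiff_id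
  have hs : tsupport (fun x => pk ρ (x - ξ) • (x - ξ)) ⊆ closedBall ξ ρ := by
    refine closure_minimal (fun x hx => ?_) isClosed_closedBall
    rw [mem_closedBall, dist_eq_norm]
    by_contra h
    exact hx (by simp only [pk_eq_zero hρ (not_le.1 h).le, zero_smul])
  have hV : Test 1 (fun x => pk ρ (x - ξ) • (x - ξ)) (ball 0 10) :=
    ⟨c2.comp (contDiff_id.sub contDiff_const),
      (isCompact_closedBall ξ ρ).of_isClosed_subset (isClosed_tsupport _) hs,
      hs.trans (closedBall_subset_ball' (by rw [dist_zero_right]; linarith))⟩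
  have e0 : ∀ x, fderiv ℝ (fun x => pk ρ (x - ξ) • (x - ξ)) x =
      fderiv ℝ (fun x : E m => pk ρ x • x) (x - ξ) := fun x =>
    fderiv_comp_sub (f := fun x : E m => pk ρ x • x) ξ
  have e1 : ∀ x, dv (fun x => pk ρ (x - ξ) • (x - ξ)) x =
      m * pk ρ (x - ξ) - rho ρ (x - ξ) * ‖x - ξ‖ ^ 2 := fun x => by
    have := KernB_dv (c1.differentiable one_ne_zero (x - ξ))
    rw [fderiv_pk hρ, real_inner_self_eq_norm_sq, dv] at this
    rw [dv, e0, this]
    ring
  have e2 : ∀ y, F.ND y (fderiv ℝ (fun x => pk ρ (x - ξ) • (x - ξ)) (F.x y)) =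
      pk ρ (F.x y - ξ) * F.d y - rho ρ (F.x y - ξ) * F.NN y (F.x y - ξ) (F.x y - ξ) := fun y => by
    rw [e0, F.FlatE_ND (c1.differentiable one_ne_zero _) (fderiv_pk hρ _)]
    ring
  have key := F.ee_dv hV
  obtain ⟨i1, i2, i3, i4⟩ := F.FlatE_ints hρ ξ
  rw [Flat.ee, integral_dv hV.smooth hV.cpt, mul_zero, sub_zero] at key
  simp only [e1, e2] at key
  rw [integral_sub (i1.const_mul _) i2, integral_const_mul, integral_sub i3 i4] at key
  exact key

theorem FlatE_der (ξ : E m) {ρ : ℝ} (hρ : 0 < ρ) :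
    HasDerivAt (fun s => ∫ y, pk s (F.x y - ξ) ∂F.μ)
      ((∫ y, rho ρ (F.x y - ξ) * ‖F.x y - ξ‖ ^ 2 ∂F.μ +
        (2 - m) * ∫ y, pk ρ (F.x y - ξ) ∂F.μ) / ρ) ρ := by
  obtain ⟨M, hM0, hM⟩ := FlatE_bd m (2 * ρ) (half_pos hρ)
  obtain ⟨i1, i2, -, -⟩ := F.FlatE_ints hρ ξ
  have h := (hasDerivAt_integral_of_dominated_loc_of_deriv_le (μ := F.μ) (x₀ := ρ)
    (s := Icc (ρ / 2) (2 * ρ)) (F := fun s y => pk s (F.x y - ξ))
    (F' := fun s y => (rho s (F.x y - ξ) * ‖F.x y - ξ‖ ^ 2 + (2 - m) * pk s (F.x y - ξ)) / s)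
    (bound := fun _ => (M + |(2 : ℝ) - m| * M) / (ρ / 2))
    (Icc_mem_nhds (by linarith) (by linarith))
    (Eventually.of_forall fun s =>
      ((contDiff_pk s).continuous.measurable.comp (F.FlatE_mx ξ)).aestronglyMeasurable)
    i1 ((i2.add (i1.const_mul _)).div_const ρ).aestronglyMeasurable
    (ae_of_all _ fun y s hs => ?_) (integrable_const _)
    (ae_of_all _ fun y s hs => hasDerivAt_pk ((half_pos hρ).trans_le hs.1) _)).2
  · rw [integral_div, integral_add i2 (i1.const_mul _), integral_const_mul] at h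
    exact h
  · have hs0 := (half_pos hρ).trans_le hs.1
    have h1 := hM s hs (F.x y - ξ)
    rw [Real.norm_eq_abs, abs_div, abs_of_pos hs0]
    refine div_le_div₀ (by positivity) ((abs_add_le _ _).trans (add_le_add ?_ ?_))
      (half_pos hρ) hs.1
    · rw [abs_of_nonneg (mul_nonneg (rho_nonneg hs0 _) (sq_nonneg _))]
      exact h1.2
    · rw [abs_mul, abs_of_nonneg (pk_nonneg hs0 _)]
      exact mul_le_mul_of_nonneg_left h1.1 (abs_nonneg _)

end Flat

end Pool.Agent.MP_f6c0e6_an.Gen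

end
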