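import Pool.Agent.MP_f6c0e6_an.All.FlatA

section

/-! The differential equation of the excess ratio and the counting of scales. -/

set_option autoImplicit false

open MeasureTheory Filter Topology Set Metric
open scoped ENNReal RealInnerProductSpace

namespace Pool.Agent.MP_f6c0e6_an.Gen

variable {m N : ℕ}

namespace Flat

variable {Q : ℕ} {A : ℝ} (F : Flat m N Q A)

theorem cont_ratio :
    ContinuousOn (fun q : E m × ℝ => F.psi q.1 q.2) (univ ×ˢ Ioi 0) ∧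
    ContinuousOn (fun q : E m × ℝ => F.Phi q.1 q.2) (univ ×ˢ Ioi 0) ∧
    ContinuousOn (fun q : E m × ℝ => F.eta q.1 q.2) (univ ×ˢ Ioi 0) ∧
    ContinuousOn (fun q : E m × ℝ => F.nn q.1 q.2) (univ ×ˢ Ioi 0) := by
  have mp : ∀ q : E m × ℝ, Measurable fun y => pk q.2 (F.x y - q.1) := fun q =>
    (contDiff_pk q.2).continuous.measurable.comp (F.FlatE_mx q.1)
  have mr : ∀ q : E m × ℝ, Measurable fun y => rho q.2 (F.x y - q.1) := fun q =>
    (contDiff_rho q.2).continuous.measurable.comp (F.FlatE_mx q.1)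
  have h1 : ContinuousOn (fun q : E m × ℝ => F.psi q.1 q.2) (univ ×ˢ Ioi 0) := by
    refine FlatE_cont F.μ (G := fun q y => pk q.2 (F.x y - q.1) * F.d y)
      (fun q => (mp q).mul F.measurable_all.2.2.2.2.1)
      (fun y => (FlatE_swap (F.x y)).1.mul continuousOn_const) fun a b ha => ?_
    obtain ⟨M, hM0, hM⟩ := FlatE_bd m b ha
    refine ⟨M * m, fun q hq y => ?_⟩
    rw [abs_of_nonneg (mul_nonneg (pk_nonneg (ha.trans_le hq.1) _) (F.d_bd y).1)]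
    exact mul_le_mul (hM _ hq _).1 (F.d_bd y).2 (F.d_bd y).1 hM0
  have h0 : ContinuousOn (fun q : E m × ℝ => ∫ y, pk q.2 (F.x y - q.1) ∂F.μ) (univ ×ˢ Ioi 0) := by
    refine FlatE_cont F.μ (G := fun q y => pk q.2 (F.x y - q.1)) mp
      (fun y => (FlatE_swap (F.x y)).1) fun a b ha => ?_
    obtain ⟨M, hM0, hM⟩ := FlatE_bd m b ha
    refine ⟨M, fun q hq y => ?_⟩
    rw [abs_of_nonneg (pk_nonneg (ha.trans_le hq.1) _)]
    exact (hM _ hq _).1
  have h2 : ContinuousOn (fun q : E m × ℝ => F.Phi q.1 q.2) (univ ×ˢ Ioi 0) := by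
    have hc : Continuous fun q : E m × ℝ => (Q : ℝ) * (q.2 ^ 2 * ∫ v : E m, pk 1 v) :=
      continuous_const.mul ((continuous_snd.pow 2).mul continuous_const)
    exact (h0.sub hc.continuousOn).congr fun q hq => F.FlatE_Phi hq.2 q.1
  refine ⟨h1, h2, (h1.sub (continuousOn_const.mul h2)).congr fun q _ => rfl, ?_⟩
  refine FlatE_cont F.μ
    (G := fun q y => rho q.2 (F.x y - q.1) * F.NN y (F.x y - q.1) (F.x y - q.1))
    (fun q => (mr q).mul (F.FlatE_mNN q.1))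
    (fun y => (FlatE_swap (F.x y)).2.mul (Continuous.continuousOn ?_)) fun a b ha => ?_
  · have hc : Continuous fun q : E m × ℝ => F.x y - q.1 := continuous_const.sub continuous_fst
    exact (hc.inner hc).sub (continuous_finsetSum _ fun l _ =>
      (continuous_const.inner hc).mul (continuous_const.inner hc))
  · obtain ⟨M, hM0, hM⟩ := FlatE_bd m b ha
    refine ⟨M * m, fun q hq y => ?_⟩
    have hq0 := ha.trans_le hq.1
    rw [abs_of_nonneg (F.FlatE_rN hq0 y _).1]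
    exact (F.FlatE_rN hq0 y _).2.trans
      (mul_le_mul_of_nonneg_right (hM _ hq _).2 (Nat.cast_nonneg m))

theorem FlatE_slice (ξ : E m) {a b : ℝ} (ha : 0 < a) :
    ContinuousOn (fun t => F.psi ξ t) (Icc a b) ∧ ContinuousOn (fun t => F.eta ξ t) (Icc a b) ∧
      ContinuousOn (fun t => F.nn ξ t) (Icc a b) := by
  have h : Continuous fun t : ℝ => (ξ, t) := continuous_const.prodMk continuous_id
  have hm : MapsTo (fun t : ℝ => (ξ, t)) (Icc a b) (univ ×ˢ Ioi 0) :=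
    fun t ht => ⟨mem_univ _, ha.trans_le ht.1⟩
  obtain ⟨h1, -, h2, h3⟩ := F.cont_ratio
  have h1' := h1.comp h.continuousOn hm
  have h2' := h2.comp h.continuousOn hm
  have h3' := h3.comp h.continuousOn hm
  simp only [Function.comp_def] at h1' h2' h3'
  exact ⟨h1', h2', h3'⟩

theorem ratio_nonneg (ξ : E m) {ρ : ℝ} (hρ : 0 < ρ) : 0 ≤ F.psi ξ ρ ∧ 0 ≤ F.nn ξ ρ ∧
    0 ≤ F.Xi ξ ρ ∧ F.eta ξ ρ = F.psi ξ ρ - 2 * F.Phi ξ ρ := by
  have h1 : 0 ≤ F.psi ξ ρ := F.DD_nonneg fun _ => pk_nonneg hρ _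
  exact ⟨h1, integral_nonneg fun y => (F.FlatE_rN hρ y _).1,
    le_trans (by linarith) (le_max_right _ _), rfl⟩

/-- `hasDerivAt_pk` under the integral sign, and `ee_dv` for the field `pk ρ v • v`, whose
divergence is `m pk - rho |v|²` -/
theorem hasDerivAt_Phi (ξ : E m) {ρ : ℝ} (hρ : 0 < ρ) (h : ‖ξ‖ + ρ < 10) :
    HasDerivAt (F.Phi ξ) ((F.nn ξ ρ - F.eta ξ ρ) / ρ) ρ := by
  have h1 := F.FlatE_der ξ hρ
  have h2 := F.FlatE_stress ξ hρ h
  have h3 := (F.ratio_nonneg ξ hρ).2.2.2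
  have h4 := F.FlatE_Phi hρ ξ
  have h5 := (((hasDerivAt_pow 2 ρ).mul_const (∫ v : E m, pk 1 v)).const_mul (Q : ℝ))
  have h6 : F.Phi ξ =ᶠ[𝓝 ρ]
      fun s => ∫ y, pk s (F.x y - ξ) ∂F.μ - Q * (s ^ 2 * ∫ v : E m, pk 1 v) :=
    (lt_mem_nhds hρ).mono fun s hs => F.FlatE_Phi hs ξ
  refine ((h1.sub h5).congr_of_eventuallyEq h6).congr_deriv ?_
  rw [h3, h4]
  generalize ∫ y, pk ρ (F.x y - ξ) ∂F.μ = I1 at h2
  generalize ∫ y, rho ρ (F.x y - ξ) * ‖F.x y - ξ‖ ^ 2 ∂F.μ = I2 at h2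
  generalize ∫ v : E m, pk 1 v = P
  have h7 : F.nn ξ ρ = F.psi ξ ρ - (m * I1 - I2) := by linarith only [h2]
  rw [h7]
  field_simp
  push_cast
  ring

/-- the integrated form -/
theorem integral_nn (ξ : E m) {a b : ℝ} (ha : 0 < a) (hab : a ≤ b) (h : ‖ξ‖ + b < 10) :
    ∫ ρ in a..b, F.nn ξ ρ / ρ = F.Phi ξ b - F.Phi ξ a + ∫ ρ in a..b, F.eta ξ ρ / ρ ∧
    ∫ ρ in a..b, F.eta ξ ρ / ρ = F.Y (fun v => Gm a b (v - ξ)) ∧
    ∫ ρ in a..b, F.nn ξ ρ / ρ =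
      ∫ y, Gt a b (F.x y - ξ) * F.NN y (F.x y - ξ) (F.x y - ξ) ∂F.μ := by
  have hd : ∀ {f : ℝ → ℝ}, ContinuousOn f (Icc a b) →
      IntervalIntegrable (fun t => f t / t) volume a b := fun hf =>
    (hf.div continuousOn_id fun t ht => (ha.trans_le ht.1).ne').intervalIntegrable_of_Icc hab
  obtain ⟨-, c2, c3⟩ := F.FlatE_slice (b := b) ξ ha
  obtain ⟨M, hM0, hM⟩ := FlatE_bd m b ha
  refine ⟨?_, ?_, ?_⟩
  · have h1 := intervalIntegral.integral_eq_sub_of_hasDerivAt (f := F.Phi ξ) (a := a) (b := b)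
      (f' := fun t => (F.nn ξ t - F.eta ξ t) / t) (fun t ht => by
        rw [uIcc_of_le hab] at ht
        exact F.hasDerivAt_Phi ξ (ha.trans_le ht.1) (by linarith [ht.2])) (hd (c3.sub c2))
    simp only [sub_div] at h1
    rw [intervalIntegral.integral_sub (hd c3) (hd c2)] at h1
    linarith only [h1]
  · have hf : Measurable fun q : ℝ × E m => pk q.1 (q.2 - ξ) / q.1 := by
      have h1 := (FlatE_meas (m := m)).1.comp
        (measurable_fst.prodMk (measurable_snd.sub (measurable_const (a := ξ))))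
      simp only [Function.comp_def] at h1
      exact h1.div measurable_fst
    have h1 := (F.lin_integral (volume.restrict (Ioc a b))
      (f := fun s x => if s ∈ Ioc a b then pk s (x - ξ) / s else 0)
      (Measurable.ite (measurable_fst measurableSet_Ioc) hf measurable_const)
      (M := fun _ => M / a) (integrable_const _) (fun s x => ?_) (R := ‖ξ‖ + b)
      fun s x hx => ?_).2.2.2.2.2.2
    · have e1 : (fun x => ∫ s in Ioc a b, if s ∈ Ioc a b then pk s (x - ξ) / s else 0) =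
          fun v => Gm a b (v - ξ) := funext fun x => by
        rw [Gm, intervalIntegral.integral_of_le hab]
        exact setIntegral_congr_fun measurableSet_Ioc fun s hs => if_pos hs
      rw [e1] at h1
      rw [h1, intervalIntegral.integral_of_le hab]
      refine setIntegral_congr_fun measurableSet_Ioc fun s hs => ?_
      simp only [if_pos hs, div_eq_inv_mul]
      exact (F.lin_smul _ _).2.2.symm
    · split_ifs with hs
      · have hs0 := ha.trans hs.1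
        rw [abs_of_nonneg (div_nonneg (pk_nonneg hs0 _) hs0.le)]
        exact div_le_div₀ hM0 (hM s ⟨hs.1.le, hs.2⟩ _).1 ha hs.1.le
      · rw [abs_zero]
        positivity
    · split_ifs with hs
      · rw [pk_eq_zero (ha.trans hs.1) (hs.2.trans (FlatE_far hx)), zero_div]
      · rfl
  · have hf : Measurable fun q : ℝ × E N =>
        rho q.1 (F.x q.2 - ξ) / q.1 * F.NN q.2 (F.x q.2 - ξ) (F.x q.2 - ξ) := by
      have h1 := (FlatE_meas (m := m)).2.comp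
        (measurable_fst.prodMk ((F.FlatE_mx ξ).comp (measurable_snd (α := ℝ))))
      have h2 : Measurable fun q : ℝ × E N => F.NN q.2 (F.x q.2 - ξ) (F.x q.2 - ξ) :=
        (F.FlatE_mNN ξ).comp measurable_snd
      simp only [Function.comp_def] at h1
      exact (h1.div measurable_fst).mul h2
    have hi : Integrable (Function.uncurry fun (s : ℝ) (y : E N) =>
        rho s (F.x y - ξ) / s * F.NN y (F.x y - ξ) (F.x y - ξ))
        ((volume.restrict (uIoc a b)).prod F.μ) := by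
      rw [uIoc_of_le hab]
      refine Integrable.of_bound hf.aestronglyMeasurable (M * m / a) ?_
      refine (Measure.quasiMeasurePreserving_fst.ae (ae_restrict_mem measurableSet_Ioc)).mono
        fun q hq => ?_
      have hs0 := ha.trans hq.1
      have h1 := F.FlatE_rN hs0 q.2 (F.x q.2 - ξ)
      change ‖rho q.1 (F.x q.2 - ξ) / q.1 * F.NN q.2 (F.x q.2 - ξ) (F.x q.2 - ξ)‖ ≤ _
      rw [div_mul_eq_mul_div, Real.norm_eq_abs, abs_of_nonneg (div_nonneg h1.1 hs0.le)]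
      exact div_le_div₀ (by positivity) (h1.2.trans (mul_le_mul_of_nonneg_right
        (hM _ ⟨hq.1.le, hq.2⟩ _).2 (Nat.cast_nonneg m))) ha hq.1.le
    simp only [Gt, ← intervalIntegral.integral_mul_const]
    rw [← intervalIntegral_integral_swap hi]
    simp only [nn, div_mul_eq_mul_div, integral_div]

theorem psi_mono (hm : 2 ≤ m) (ξ : E m) {ρ ρ' : ℝ} (hρ : 0 < ρ) (h : ρ ≤ ρ') :
    ρ ^ (m - 2) * F.psi ξ ρ ≤ ρ' ^ (m - 2) * F.psi ξ ρ' := by
  have hρ' := hρ.trans_le h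
  rw [psi, psi, ← (F.lin_smul _ _).1, ← (F.lin_smul _ _).1]
  refine F.DD_mono ((FlatE_adm hρ ξ).const_mul _) ((FlatE_adm hρ' ξ).const_mul _) fun x => ?_
  have h1 := pk_le_pk hρ h (x - ξ)
  rw [FlatE_pow hm ρ, FlatE_pow hm ρ'] at h1
  refine le_of_mul_le_mul_left (a := ρ ^ 2 * ρ' ^ 2) ?_ (by positivity)
  linarith

theorem psi_cmp (hm : 2 ≤ m) (ξ : E m) {ρ : ℝ} (hρ : 0 < ρ) :
    10 * cg m * ρ ^ (m - 2) * F.psi ξ ρ ≤ F.DS (ball ξ ρ) ∧
      F.DS (closedBall ξ (ρ / 2)) ≤ 50 * cg m * ρ ^ (m - 2) * F.psi ξ ρ := by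
  have hc := cg_pos m
  have hp : 0 < ρ ^ (m - 2) := pow_pos hρ _
  have h1 := F.abs_DD_le (f := fun v => pk ρ (v - ξ)) (FlatE_cpk ρ ξ).1.measurable
    (M := ρ ^ 2 / (10 * cg m * ρ ^ m))
    (fun x => by rw [abs_of_nonneg (pk_nonneg hρ _)]; exact (pk_le hρ _).2)
    (Z := ball ξ ρ) measurableSet_ball
    fun x hx => pk_eq_zero hρ (by rwa [mem_ball, dist_eq_norm, not_lt] at hx)
  have h2 := F.DS_le_DD (FlatE_adm hρ ξ) (fun x => pk_nonneg hρ _)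
    (t := ρ ^ 2 / (50 * cg m * ρ ^ m)) (Z := closedBall ξ (ρ / 2)) measurableSet_closedBall
    fun x hx => pk_ge hρ (by rwa [mem_closedBall, dist_eq_norm] at hx)
  have e : ∀ t : ℝ, 0 < t → ρ ^ 2 / (t * cg m * ρ ^ m) = (t * cg m * ρ ^ (m - 2))⁻¹ :=
    fun t ht => by
      rw [FlatE_pow hm ρ]
      field_simp
  rw [e 10 (by norm_num)] at h1
  rw [e 50 (by norm_num), inv_mul_le_iff₀ (by positivity)] at h2
  exact ⟨(le_inv_mul_iff₀ (by positivity)).1 ((le_abs_self _).trans h1), h2⟩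

theorem nn_cmp (ξ : E m) {ρ : ℝ} (hρ : 0 < ρ) :
    ∫ y in F.x ⁻¹' closedBall ξ (ρ / 2), F.NN y (F.x y - ξ) (F.x y - ξ) ∂F.μ ≤
      4 * cg m * ρ ^ m * F.nn ξ ρ ∧
    cg m * ρ ^ m * F.nn ξ ρ ≤ ρ ^ 2 * F.DS (ball ξ ρ) := by
  have hc := cg_pos m
  have hp : 0 < ρ ^ m := pow_pos hρ _
  have i4 := (F.FlatE_ints hρ ξ).2.2.2
  have s1 : MeasurableSet (F.x ⁻¹' closedBall ξ (ρ / 2)) :=
    F.measurable_all.1 measurableSet_closedBall
  have s2 : MeasurableSet (F.x ⁻¹' ball ξ ρ) := F.measurable_all.1 measurableSet_ball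
  constructor
  · rw [nn, ← integral_const_mul, ← integral_indicator s1]
    refine integral_mono_of_nonneg
      (ae_of_all _ fun y => indicator_nonneg (fun y _ => (F.FlatE_NN y _).1) y)
      (i4.const_mul _) (ae_of_all _ fun y => ?_)
    by_cases hy : y ∈ F.x ⁻¹' closedBall ξ (ρ / 2)
    · have h1 := rho_ge hρ (x := F.x y - ξ) (by rwa [← dist_eq_norm])
      rw [div_le_iff₀ (by positivity)] at h1
      have h2 := mul_le_mul_of_nonneg_right h1 (F.FlatE_NN y (F.x y - ξ)).1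
      simp only [indicator_of_mem hy]
      linarith
    · simp only [indicator_of_notMem hy]
      exact mul_nonneg (by positivity) (F.FlatE_rN hρ y _).1
  · rw [nn, DS, ← integral_const_mul, ← integral_const_mul, ← integral_indicator s2]
    refine integral_mono (i4.const_mul _) ((F.integrable_d.const_mul _).indicator s2) fun y => ?_
    by_cases hy : y ∈ F.x ⁻¹' ball ξ ρ
    · have h1 := rho_le hρ (F.x y - ξ)
      rw [le_div_iff₀ (by positivity)] at h1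
      have h2 := F.FlatE_NN y (F.x y - ξ)
      have h3 : ‖F.x y - ξ‖ ^ 2 ≤ ρ ^ 2 :=
        pow_le_pow_left₀ (norm_nonneg _) (by rw [← dist_eq_norm]; exact le_of_lt hy) 2
      have h4 := mul_le_mul_of_nonneg_left h3 (F.d_bd y).1
      have h5 := mul_le_mul_of_nonneg_right h1 h2.1
      simp only [indicator_of_mem hy]
      linarith [h2.2]
    · have h1 : rho ρ (F.x y - ξ) = 0 :=
        rho_eq_zero hρ (by rwa [mem_preimage, mem_ball, dist_eq_norm, not_lt] at hy)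
      simp only [indicator_of_notMem hy, h1, zero_mul, mul_zero, le_refl]

/-- While `Phi ≥ psi / 2` the function `Phi` increases; from the first scale where
`Phi = psi / 2` use `psi_mono`. -/
theorem Xi_mono (hm : 2 ≤ m) (ξ : E m) {ρ ρ' : ℝ} (hρ : 0 < ρ) (h : ρ ≤ ρ') (h' : ‖ξ‖ + ρ' < 10) :
    ρ ^ (m - 2) * F.Xi ξ ρ ≤ ρ' ^ (m - 2) * F.Xi ξ ρ' := by
  have hρ' := hρ.trans_le h
  have hc : ContinuousOn (fun t => F.eta ξ t) (Icc ρ ρ') := F.FlatE_slice ξ hρ |>.2.1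
  obtain ⟨t, ht, h1, h2⟩ := FlatE_first (f := F.Phi ξ) (e := fun t => F.eta ξ t)
    (f' := fun t => (F.nn ξ t - F.eta ξ t) / t) h
    (fun t ht => F.hasDerivAt_Phi ξ (hρ.trans_le ht.1) (by linarith [ht.2])) hc fun t ht h0 =>
      div_nonneg (by linarith [(F.ratio_nonneg ξ (hρ.trans_le ht.1)).2.1]) (hρ.trans_le ht.1).le
  have ht0 := hρ.trans_le ht.1
  have p1 : 0 < ρ ^ (m - 2) := pow_pos hρ _
  have p2 : 0 < ρ' ^ (m - 2) := pow_pos hρ' _
  have hX := (F.ratio_nonneg ξ hρ').2.2.1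
  have hP : ρ' ^ (m - 2) * (F.psi ξ ρ' / 2) ≤ ρ' ^ (m - 2) * F.Xi ξ ρ' :=
    mul_le_mul_of_nonneg_left (le_max_right _ _) p2.le
  rw [Xi, mul_max_of_nonneg _ _ p1.le]
  refine max_le ?_ (by linarith only [hP, hm, hρ, h, F.psi_mono hm ξ hρ h])
  rcases h2 with h2 | h2
  · rw [h2] at h1
    calc ρ ^ (m - 2) * F.Phi ξ ρ ≤ ρ ^ (m - 2) * F.Xi ξ ρ' :=
          mul_le_mul_of_nonneg_left (h1.trans (le_max_left _ _)) p1.le
      _ ≤ _ := mul_le_mul_of_nonneg_right (pow_le_pow_left₀ hρ.le h _) hX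
  · obtain ⟨h3, -, -, h4⟩ := F.ratio_nonneg ξ ht0
    have h5 := F.psi_mono hm ξ ht0 ht.2
    have h6 : ρ ^ (m - 2) * F.Phi ξ ρ ≤ ρ ^ (m - 2) * (F.psi ξ t / 2) :=
      mul_le_mul_of_nonneg_left (by linarith only [h1, h2, h4]) p1.le
    have h7 : ρ ^ (m - 2) * F.psi ξ t ≤ t ^ (m - 2) * F.psi ξ t :=
      mul_le_mul_of_nonneg_right (pow_le_pow_left₀ hρ.le ht.1 _) h3
    linarith only [hP, h5, h6, h7]

/-- the window `[ρ, 2 ρ]` contains a scale where the defect is almost non-negative -/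
def Easy (δ : ℝ) (ξ : E m) (ρ : ℝ) : Prop := ∃ t ∈ Icc ρ (2 * ρ), -δ * F.psi ξ t ≤ F.eta ξ t

/-- in a hard window `Xi = Phi > 0` and `ρ Phi' ≥ - eta ≥ δ Phi` -/
theorem Xi_hard {δ : ℝ} (hδ : 0 < δ) (hδ1 : δ ≤ 1) (ξ : E m) {ρ : ℝ} (hρ : 0 < ρ)
    (h' : ‖ξ‖ + 2 * ρ < 10) (h : ¬F.Easy δ ξ ρ) : (2 : ℝ) ^ δ * F.Xi ξ ρ ≤ F.Xi ξ (2 * ρ) := by
  have key : ∀ t ∈ Icc ρ (2 * ρ), 0 < F.Phi ξ t ∧ F.psi ξ t / 2 ≤ F.Phi ξ t ∧
      δ * F.Phi ξ t ≤ -F.eta ξ t := fun t ht => by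
    have h1 : F.eta ξ t < -δ * F.psi ξ t := not_le.1 fun h2 => h ⟨t, ht, h2⟩
    obtain ⟨h3, -, -, h4⟩ := F.ratio_nonneg ξ (hρ.trans_le ht.1)
    have h5 : 0 ≤ δ * F.psi ξ t := mul_nonneg hδ.le h3
    refine ⟨by linarith, by linarith, ?_⟩
    have h6 : F.Phi ξ t = (F.psi ξ t - F.eta ξ t) / 2 := by linarith only [h4]
    have h7 : δ * -F.eta ξ t ≤ 1 * -F.eta ξ t := mul_le_mul_of_nonneg_right hδ1 (by linarith)
    rw [h6]
    linarith
  have hab : ρ ≤ 2 * ρ := by linarith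
  rw [Xi, Xi, max_eq_left (key _ (left_mem_Icc.2 hab)).2.1,
    max_eq_left (key _ (right_mem_Icc.2 hab)).2.1]
  refine FlatE_grow (f' := fun t => (F.nn ξ t - F.eta ξ t) / t) hρ
    (fun t ht => F.hasDerivAt_Phi ξ (hρ.trans_le ht.1) (by linarith [ht.2]))
    (fun t ht => (key t ht).1) fun t ht => ?_
  refine div_le_div_of_nonneg_right ?_ (hρ.trans_le ht.1).le
  linarith [(key t ht).2.2, (F.ratio_nonneg ξ (hρ.trans_le ht.1)).2.1]

open Classical in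
/-- the number of easy windows between the scales `r 2 ^ i` and `r 2 ^ j` -/
noncomputable def cnt (δ : ℝ) (ξ : E m) (r : ℝ) (i j : ℕ) : ℕ :=
  ((Finset.Ico i j).filter fun l => F.Easy δ ξ (r * 2 ^ l)).card

theorem cnt_add (δ : ℝ) (ξ : E m) (r : ℝ) {i j l : ℕ} (h : i ≤ j) (h' : j ≤ l) :
    F.cnt δ ξ r i l = F.cnt δ ξ r i j + F.cnt δ ξ r j l ∧ F.cnt δ ξ r i j ≤ j - i := by
  classical
  constructor
  · simp only [cnt, Finset.card_filter]
    exact (Finset.sum_Ico_consecutive _ h h').symm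
  · exact (Finset.card_filter_le _ _).trans (Nat.card_Ico i j).le

theorem Xi_count (hm : 2 ≤ m) {δ : ℝ} (hδ : 0 < δ) (hδ1 : δ ≤ 1) (ξ : E m) {r : ℝ} (hr : 0 < r)
    {i j : ℕ} (hij : i ≤ j) (h' : ‖ξ‖ + r * 2 ^ j < 10) :
    (2 : ℝ) ^ (δ * ((j : ℝ) - i - F.cnt δ ξ r i j)) * F.Xi ξ (r * 2 ^ i) ≤
      2 ^ ((m - 2) * F.cnt δ ξ r i j) * F.Xi ξ (r * 2 ^ j) := by
  induction j, hij using Nat.le_induction with
  | base => simp [cnt]
  | succ j hij ih =>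
    have p : 0 < r * 2 ^ j := by positivity
    have e : r * 2 ^ (j + 1) = 2 * (r * 2 ^ j) := by ring
    rw [e] at h' ⊢
    have ih' := ih (by linarith)
    rw [(F.cnt_add δ ξ r hij (Nat.le_add_right j 1)).1]
    by_cases hE : F.Easy δ ξ (r * 2 ^ j)
    · have h1 : F.cnt δ ξ r j (j + 1) = 1 := by
        simp [cnt, Finset.filter_singleton, hE]
      have h2 := F.Xi_mono hm ξ p (by linarith : r * 2 ^ j ≤ 2 * (r * 2 ^ j)) h'
      rw [mul_pow (2 : ℝ), mul_comm (2 ^ (m - 2) : ℝ), mul_assoc] at h2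
      have h3 := le_of_mul_le_mul_left h2 (pow_pos p _)
      rw [h1, show δ * (((j + 1 : ℕ) : ℝ) - i - ((F.cnt δ ξ r i j + 1 : ℕ) : ℝ)) =
        δ * ((j : ℝ) - i - F.cnt δ ξ r i j) by push_cast; ring, mul_add, mul_one, pow_add,
        mul_assoc]
      exact ih'.trans (mul_le_mul_of_nonneg_left h3 (by positivity))
    · have h1 : F.cnt δ ξ r j (j + 1) = 0 := by
        simp [cnt, Finset.filter_singleton, hE]
      have h2 := F.Xi_hard hδ hδ1 ξ p h' hE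
      rw [h1, add_zero, show δ * (((j + 1 : ℕ) : ℝ) - i - (F.cnt δ ξ r i j : ℝ)) =
        δ + δ * ((j : ℝ) - i - F.cnt δ ξ r i j) by push_cast; ring, Real.rpow_add two_pos,
        mul_assoc]
      calc _ ≤ (2 : ℝ) ^ δ * (2 ^ ((m - 2) * F.cnt δ ξ r i j) * F.Xi ξ (r * 2 ^ j)) :=
            mul_le_mul_of_nonneg_left ih' (by positivity)
        _ = 2 ^ ((m - 2) * F.cnt δ ξ r i j) * ((2 : ℝ) ^ δ * F.Xi ξ (r * 2 ^ j)) := by ring
        _ ≤ _ := mul_le_mul_of_nonneg_left h2 (by positivity)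

theorem FlatE_admG {a b : ℝ} (ha : 0 < a) (hab : a ≤ b) (ξ : E m) : Adm fun v => Gm a b (v - ξ) :=
  Adm.of_cont ((contDiff_Gm ha hab).1.continuous.comp (continuous_id.sub continuous_const))
    (R := ‖ξ‖ + b) fun _ hx => (Gm_eq_zero ha hab (FlatE_far hx)).1

theorem FlatE_UU_add {a b c : ℝ} (ha : 0 < a) (hab : a ≤ b) (hbc : b ≤ c) (ξ : E m) :
    F.UU a c ξ = F.UU a b ξ + F.UU b c ξ := by
  rw [UU, UU, UU, ← (F.lin_add (FlatE_admG ha hab ξ) (FlatE_admG (ha.trans_le hab) hbc ξ)).1]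
  simp only [fun v : E m => (Gm_add ha hab hbc v).1]

theorem FlatE_UU_le (hm : 2 ≤ m) (ξ : E m) {a b : ℝ} (ha : 0 < a) (hab : a ≤ b) :
    (a / b) ^ (m - 2) * F.UU a b ξ ≤ Real.log (b / a) * F.psi ξ b := by
  have hb := ha.trans_le hab
  have hd : ∀ {f : ℝ → ℝ}, ContinuousOn f (Icc a b) →
      IntervalIntegrable (fun t => f t / t) volume a b := fun hf =>
    (hf.div continuousOn_id fun t ht => (ha.trans_le ht.1).ne').intervalIntegrable_of_Icc hab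
  rw [F.UU_eq ha hab, ← intervalIntegral.integral_const_mul, ← integral_inv_of_pos ha hb,
    ← intervalIntegral.integral_mul_const]
  simp only [← div_eq_inv_mul]
  refine intervalIntegral.integral_mono_on hab ((hd (F.FlatE_slice ξ ha).1).const_mul _)
    (hd continuousOn_const) fun t ht => ?_
  have ht0 := ha.trans_le ht.1
  rw [← mul_div_assoc, div_pow, div_mul_eq_mul_div]
  refine div_le_div_of_nonneg_right ?_ ht0.le
  rw [div_le_iff₀' (pow_pos hb _)]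
  exact (mul_le_mul_of_nonneg_right (pow_le_pow_left₀ ha.le ht.1 _)
    (F.ratio_nonneg ξ ht0).1).trans (F.psi_mono hm ξ ht0 ht.2)

theorem FlatE_UU (m : ℕ) (hm : 1 ≤ m) : ∃ K : ℝ, 1 ≤ K ∧ ∀ {N Q : ℕ} {A : ℝ} (F : Flat m N Q A)
    (ξ : E m) (a b : ℝ), F.τ ≤ a → a ≤ b → ‖ξ‖ + b < 10 → 2 * F.UU a b ξ ≤
      F.τ ^ 2 * (2 * (A * 2 ^ m / cg m)) + F.τ ^ 2 * (K / a ^ 2 * F.UU a (4 * b) ξ) := by
  obtain ⟨K, hK, H⟩ := FlatE_hess_le m hm
  have hm1 : (1 : ℝ) ≤ (m : ℝ) ^ 2 := one_le_pow₀ (by exact_mod_cast hm)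
  refine ⟨m ^ 2 * K, one_le_mul_of_one_le_of_one_le hm1 hK, fun {N Q A} F ξ a b h1 hab h2 => ?_⟩
  have ha : 0 < a := F.τ_pos.trans_le h1
  have hb := ha.trans_le hab
  have hab4 : a ≤ 4 * b := by linarith
  have c1 : ContDiff ℝ 2 (Gm a b : E m → ℝ) := (contDiff_Gm ha hab).1.of_le (by norm_num)
  have hs : tsupport (fun x => Gm a b (x - ξ)) ⊆ closedBall ξ b := by
    refine closure_minimal (fun x hx => ?_) isClosed_closedBall
    rw [mem_closedBall, dist_eq_norm]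
    by_contra h
    exact hx (Gm_eq_zero ha hab (not_le.1 h).le).1
  have hψ : Test 2 (fun x => Gm a b (x - ξ)) (ball 0 10) :=
    ⟨c1.comp (contDiff_id.sub contDiff_const),
      (isCompact_closedBall ξ b).of_isClosed_subset (isClosed_tsupport _) hs,
      hs.trans (closedBall_subset_ball' (by rw [dist_zero_right]; linarith))⟩
  have e1 : ∀ x, fderiv ℝ (fderiv ℝ fun x => Gm a b (x - ξ)) x =
      fderiv ℝ (fderiv ℝ (Gm a b)) (x - ξ) := fun x => by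
    have e : fderiv ℝ (fun x => Gm a b (x - ξ)) = fun x => fderiv ℝ (Gm a b) (x - ξ) :=
      funext fun x => fderiv_comp_sub ξ
    rw [e, fderiv_comp_sub]
  have e2 : ∀ x, lap (fun x => Gm a b (x - ξ)) x = rho b (x - ξ) - rho a (x - ξ) := fun x => by
    rw [← lap_Gm ha hab, lap, lap, e1]
  have key := F.fv_lap hψ (f := fun w : E N => ‖w‖ ^ 2) (contDiff_norm_sq ℝ)
  have e3 : ∀ y, Gm a b (F.x y - ξ) • ∑ l, fderiv ℝ (fderiv ℝ fun w : E N => ‖w‖ ^ 2) (F.z y)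
      (F.b l y) (F.b l y) = 2 * (Gm a b (F.x y - ξ) * F.d y) := fun y => by
    simp only [FlatE_sq2]
    rw [← Finset.mul_sum, smul_eq_mul, mul_left_comm]
    rfl
  simp only [e3] at key
  rw [integral_const_mul] at key
  have ir : ∀ r : ℝ, 0 < r → Integrable (fun y => rho r (F.x y - ξ)) F.μ := fun r hr =>
    F.FlatE_int ((contDiff_rho r).continuous.measurable.comp (F.FlatE_mx ξ))
      (M := 1 / (cg m * r ^ m)) fun y => by
        rw [abs_of_nonneg (rho_nonneg hr _)]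
        exact rho_le hr _
  have iG : Integrable (fun y => Gm a (4 * b) (F.x y - ξ) * F.d y) F.μ := by
    obtain ⟨g1, M, g2, -⟩ := FlatE_admG ha hab4 ξ
    refine F.FlatE_int ((g1.comp F.measurable_all.1).mul F.measurable_all.2.2.2.2.1)
      (M := M * m) fun y => ?_
    rw [abs_mul, abs_of_nonneg (F.d_bd y).1]
    exact mul_le_mul (g2 _) (F.d_bd y).2 (F.d_bd y).1 ((abs_nonneg _).trans (g2 0))
  have bd := norm_integral_le_of_norm_le (μ := F.μ)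
    (f := fun y => (lap (fun x => Gm a b (x - ξ)) (F.x y) - F.NH (fun x => Gm a b (x - ξ)) y) •
      ‖F.z y‖ ^ 2)
    (g := fun y => F.τ ^ 2 * (rho b (F.x y - ξ) + rho a (F.x y - ξ) +
      m ^ 2 * K / a ^ 2 * (Gm a (4 * b) (F.x y - ξ) * F.d y)))
    ((((ir b hb).add (ir a ha)).add (iG.const_mul _)).const_mul _) (F.ae.mono fun y hy => ?_)
  · have i2 : Integrable (fun y => rho b (F.x y - ξ) + rho a (F.x y - ξ)) F.μ :=
      (ir b hb).add (ir a ha)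
    rw [key, integral_const_mul, integral_add i2 (iG.const_mul _),
      integral_add (ir b hb) (ir a ha), integral_const_mul] at bd
    have r1 := F.integral_rho_le ξ h1
    have r2 := F.integral_rho_le ξ (h1.trans hab)
    rw [← mul_add]
    refine ((le_abs_self _).trans bd).trans (mul_le_mul_of_nonneg_left ?_ (sq_nonneg _))
    exact add_le_add (by linarith) le_rfl
  · have z1 : ‖F.z y‖ ^ 2 ≤ F.τ ^ 2 := pow_le_pow_left₀ (norm_nonneg _) hy.2.1 2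
    have z2 := F.abs_NH_le (fun x => Gm a b (x - ξ)) y
    rw [e1] at z2
    have z3 := mul_le_mul_of_nonneg_left (H a b ha hab (F.x y - ξ))
      (mul_nonneg (sq_nonneg (m : ℝ)) (F.d_bd y).1)
    have z4 := rho_nonneg ha (F.x y - ξ)
    have z5 := rho_nonneg hb (F.x y - ξ)
    have z6 : |rho b (F.x y - ξ) - rho a (F.x y - ξ)| ≤ rho b (F.x y - ξ) + rho a (F.x y - ξ) :=
      abs_le.2 ⟨by linarith, by linarith⟩
    rw [norm_smul, mul_comm, Real.norm_eq_abs, Real.norm_eq_abs, abs_of_nonneg (sq_nonneg _), e2]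
    refine mul_le_mul z1 ((abs_sub _ _).trans (add_le_add z6 ((z2.trans z3).trans
      (le_of_eq ?_)))) (abs_nonneg _) (sq_nonneg _)
    ring

end Flat

/-- `S0a`, `psi_cmp`, `cacc_ball`; for `UU` the identity `fv_lap` with `ψ = Gm a b` and
`f = ‖·‖ ^ 2` gives `2 UU a b ≤ C τ² + C (τ / a)² UU a (4 b)`, and `UU b (4 b) ≤ C τ²` -/
theorem Flat.Xi_le (m : ℕ) (hm : 2 ≤ m) (Q : ℕ) (A : ℝ) : ∃ C C₀ : ℝ, 1 ≤ C ∧ 1 ≤ C₀ ∧ ∀ {N : ℕ}
    (F : Flat m N Q A) (ξ : E m) (ρ : ℝ), C₀ * F.τ ≤ 1 / 10 → C₀ * F.τ ≤ ρ →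
    (‖ξ‖ + ρ ≤ 9 → ρ ^ (m - 2) * F.Xi ξ ρ ≤ C * F.DS (ball ξ (2 * ρ)) ∧
      ρ ^ (m - 2) * |F.eta ξ ρ| ≤ C * F.DS (ball ξ (2 * ρ))) ∧
    (‖ξ‖ + 4 * ρ ≤ 9 → F.Xi ξ ρ ≤ C * F.τ ^ 2 ∧ F.psi ξ ρ ≤ C * F.τ ^ 2) ∧
    (‖ξ‖ + 8 * ρ ≤ 10 → F.UU (C₀ * F.τ) ρ ξ ≤ C * F.τ ^ 2) := by
  have hc := cg_pos m
  obtain ⟨C1, C0, hC1, hC0, H1⟩ := Flat.S0a m (by omega) Q A
  obtain ⟨C2, hC2, H2⟩ := Flat.cacc_ball m
  obtain ⟨K, hK, H3⟩ := Flat.FlatE_UU m (by omega)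
  have hA : 1 ≤ max 1 A := le_max_left _ _
  obtain ⟨D, hD, hD1⟩ : ∃ D : ℝ, 1 ≤ D ∧ (C1 + 1) / (10 * cg m) ≤ D :=
    ⟨max 1 _, le_max_left _ _, le_max_right _ _⟩
  obtain ⟨B, hB, hB1⟩ : ∃ B : ℝ, 1 ≤ B ∧ C2 * A ≤ B := ⟨max 1 _, le_max_left _ _, le_max_right _ _⟩
  obtain ⟨L, hL, hL1⟩ : ∃ L : ℝ, 0 ≤ L ∧ 2 * (A * 2 ^ m / cg m) ≤ L :=
    ⟨max 0 _, le_max_left _ _, le_max_right _ _⟩
  have h4 : (1 : ℝ) ≤ 4 ^ (m - 2) := one_le_pow₀ (by norm_num)
  have hDB : 1 ≤ D * B := one_le_mul_of_one_le_of_one_le hD hB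
  have hW : 1 ≤ 4 ^ (m - 2) * (D * B) := one_le_mul_of_one_le_of_one_le h4 hDB
  have hDW : D ≤ 4 ^ (m - 2) * (D * B) :=
    (le_mul_of_one_le_right (by linarith) hB).trans (le_mul_of_one_le_left (by linarith) h4)
  refine ⟨3 * (4 ^ (m - 2) * (D * B)) + L, max C0 K, by linarith, hC0.trans (le_max_left _ _),
    fun F ξ ρ h1 h2 => ?_⟩
  have hτ := F.τ_pos
  have t0 : C0 * F.τ ≤ max C0 K * F.τ := mul_le_mul_of_nonneg_right (le_max_left _ _) hτ.le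
  have t1 : F.τ ≤ C0 * F.τ := le_mul_of_one_le_left hτ.le hC0
  have hρ : 0 < ρ := by linarith
  have hp : 0 < ρ ^ (m - 2) := pow_pos hρ _
  have hτ2 : 0 ≤ F.τ ^ 2 := sq_nonneg _
  -- the energy of a ball
  have en : ∀ s : ℝ, ρ ≤ s → ‖ξ‖ + 2 * s ≤ 10 → F.DS (ball ξ s) ≤ s ^ (m - 2) * (B * F.τ ^ 2) :=
    fun s hs hs' => by
      have hs0 : 0 < s := hρ.trans_le hs
      have h3 := (F.DS_mono ball_subset_closedBall).2.trans (H2 F ξ s (by linarith) hs')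
      rw [FlatE_pow hm s, ← mul_assoc, mul_div_cancel_right₀ _ (pow_pos hs0 2).ne', mul_comm] at h3
      exact h3.trans (mul_le_mul_of_nonneg_left (mul_le_mul_of_nonneg_right hB1 hτ2)
        (pow_pos hs0 _).le)
  have part1 : ‖ξ‖ + ρ ≤ 9 → ρ ^ (m - 2) * F.Xi ξ ρ ≤ D * F.DS (ball ξ (2 * ρ)) ∧
      ρ ^ (m - 2) * F.psi ξ ρ ≤ D * F.DS (ball ξ (2 * ρ)) ∧
      ρ ^ (m - 2) * |F.eta ξ ρ| ≤ D * F.DS (ball ξ (2 * ρ)) := fun h3 => by
    have h5 := H1 F (fun v => pk ρ (v - ξ)) (ρ ^ 2 / (10 * cg m * ρ ^ m)) (ball ξ ρ)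
      (by linarith only [h1, t0]) (FlatE_cpk ρ ξ).1.measurable
      (fun x => by rw [abs_of_nonneg (pk_nonneg hρ _)]; exact (pk_le hρ _).2) measurableSet_ball
      (ball_subset_ball' (by rw [dist_zero_right]; linarith))
      fun x hx => pk_eq_zero hρ (by rwa [mem_ball, dist_eq_norm, not_lt] at hx)
    have h6 := (F.DS_mono ((Metric.thickening_ball ξ (C0 * F.τ) ρ).trans
      (ball_subset_ball (by linarith : C0 * F.τ + ρ ≤ 2 * ρ)))).2
    obtain ⟨h7, h8⟩ := F.DS_mono (ball_subset_ball (x := ξ) (by linarith : ρ ≤ 2 * ρ))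
    have h9 := (F.psi_cmp hm ξ hρ).1.trans h8
    have h0 := h7.trans h8
    generalize F.DS (ball ξ (2 * ρ)) = S at h6 h9 h0 ⊢
    have k1 : ρ ^ (m - 2) * |F.eta ξ ρ| ≤ C1 / (10 * cg m) * S := by
      refine (mul_le_mul_of_nonneg_left (h5.trans (mul_le_mul_of_nonneg_left h6
        (by positivity))) hp.le).trans (le_of_eq ?_)
      rw [FlatE_pow hm ρ]
      field_simp
    have k2 : ρ ^ (m - 2) * F.psi ξ ρ ≤ 1 / (10 * cg m) * S := by
      rw [one_div, le_inv_mul_iff₀ (by positivity), ← mul_assoc]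
      exact h9
    have k3 : C1 / (10 * cg m) * S + 1 / (10 * cg m) * S ≤ D * S := by
      rw [← add_mul, ← add_div]
      exact mul_le_mul_of_nonneg_right hD1 h0
    have k4 : 0 ≤ C1 / (10 * cg m) * S := by positivity
    have k5 : 0 ≤ 1 / (10 * cg m) * S := by positivity
    refine ⟨?_, by linarith only [k2, k3, k4], by linarith only [k1, k3, k5]⟩
    obtain ⟨k6, -, -, k7⟩ := F.ratio_nonneg ξ hρ
    have k8 : F.Phi ξ ρ ≤ (F.psi ξ ρ + |F.eta ξ ρ|) / 2 := by linarith only [k7, neg_abs_le (F.eta ξ ρ)]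
    have k9 := mul_le_mul_of_nonneg_left k8 hp.le
    rw [Flat.Xi, mul_max_of_nonneg _ _ hp.le]
    exact max_le (by linarith only [k1, k2, k3, k4, k5, k9]) (by linarith only [k2, k3, k4, k5])
  refine ⟨fun h3 => ?_, fun h3 => ?_, fun h3 => ?_⟩
  · obtain ⟨k1, -, k2⟩ := part1 h3
    have k3 : D * F.DS (ball ξ (2 * ρ)) ≤
        (3 * (4 ^ (m - 2) * (D * B)) + L) * F.DS (ball ξ (2 * ρ)) :=
      mul_le_mul_of_nonneg_right (by linarith) (F.DS_mono subset_rfl).1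
    exact ⟨k1.trans k3, k2.trans k3⟩
  · obtain ⟨k1, k2, -⟩ := part1 (by linarith only [h2, hτ, t0, t1, h3])
    have k3 := mul_le_mul_of_nonneg_left (en (2 * ρ) (by linarith) (by linarith only [h1, hτ, t0, t1, h3]))
      (by linarith only [hD, h1, hτ, t0, t1] : 0 ≤ D)
    have k4 : D * ((2 * ρ) ^ (m - 2) * (B * F.τ ^ 2)) ≤
        ρ ^ (m - 2) * ((3 * (4 ^ (m - 2) * (D * B)) + L) * F.τ ^ 2) := by
      have k5 : (2 : ℝ) ^ (m - 2) * (D * B) ≤ 4 ^ (m - 2) * (D * B) :=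
        mul_le_mul_of_nonneg_right (pow_le_pow_left₀ (by norm_num) (by norm_num) _) (by linarith only [hDB, h1, hτ, t0, t1])
      calc _ = ρ ^ (m - 2) * (2 ^ (m - 2) * (D * B) * F.τ ^ 2) := by rw [mul_pow]; ring
        _ ≤ _ := mul_le_mul_of_nonneg_left (mul_le_mul_of_nonneg_right (by linarith only [hL, hW, h1, hτ, t0, t1, k5]) hτ2) hp.le
    exact ⟨le_of_mul_le_mul_left (k1.trans (k3.trans k4)) hp,
      le_of_mul_le_mul_left (k2.trans (k3.trans k4)) hp⟩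
  · have ha : 0 < max C0 K * F.τ := by linarith only [hτ, t0, t1]
    have k1 := H3 F ξ (max C0 K * F.τ) ρ (by linarith) h2 (by linarith)
    have k2 : F.τ ^ 2 * (K / (max C0 K * F.τ) ^ 2) ≤ 1 := by
      have k3 : K ≤ max C0 K := le_max_right _ _
      rw [← mul_div_assoc, div_le_one (by positivity), mul_pow, mul_comm]
      exact mul_le_mul_of_nonneg_right (by nlinarith only [t0, t1, hC0, hK, hτ, k3]) hτ2
    have k3 := F.FlatE_UU_add ha h2 (by linarith : ρ ≤ 4 * ρ) ξ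
    have k4 := mul_le_mul_of_nonneg_right k2
      (F.UU_mono ha le_rfl (by linarith : max C0 K * F.τ ≤ 4 * ρ) le_rfl ξ).1
    have k5 := F.FlatE_UU_le hm ξ hρ (by linarith : ρ ≤ 4 * ρ)
    have k6 := (F.psi_cmp hm ξ (by linarith : 0 < 4 * ρ)).1.trans
      (en (4 * ρ) (by linarith only [h2, hτ, t0, t1]) (by linarith only [h3]))
    have k7 : F.psi ξ (4 * ρ) ≤ D * B * F.τ ^ 2 := by
      have p4 : 0 < (4 * ρ) ^ (m - 2) := by positivity
      rw [mul_comm (10 * cg m), mul_assoc] at k6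
      have k8 := le_of_mul_le_mul_left k6 p4
      have k9 : 1 ≤ 10 * cg m * D := by
        rw [div_le_iff₀ (by positivity)] at hD1
        linarith only [hC1, hD1, h1, hτ, t0, t1]
      refine le_of_mul_le_mul_left (k8.trans ?_) (by positivity : 0 < 10 * cg m)
      calc B * F.τ ^ 2 = 1 * (B * F.τ ^ 2) := (one_mul _).symm
        _ ≤ 10 * cg m * D * (B * F.τ ^ 2) := mul_le_mul_of_nonneg_right k9 (by positivity)
        _ = _ := by ring
    have k8 : Real.log (4 * ρ / ρ) ≤ 3 := by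
      rw [mul_div_cancel_right₀ _ hρ.ne']
      linarith only [Real.log_le_sub_one_of_pos (by norm_num : (0 : ℝ) < 4)]
    have k9 : F.UU ρ (4 * ρ) ξ ≤ 4 ^ (m - 2) * (3 * (D * B * F.τ ^ 2)) := by
      have e : ρ / (4 * ρ) = 4⁻¹ := by field_simp
      rw [e, inv_pow, inv_mul_le_iff₀ (by positivity)] at k5
      refine k5.trans (mul_le_mul_of_nonneg_left ?_ (by positivity))
      exact mul_le_mul k8 k7 (F.ratio_nonneg ξ (by linarith only [h2, hτ, t0, t1])).1 (by norm_num)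
    have k10 := mul_le_mul_of_nonneg_left hL1 hτ2
    rw [mul_assoc] at k4
    linarith only [k1, k3, k4, k9, k10]

/-- at a point where the potential is large, `psi ξ ρ ≥ t / (1 + log (rb / g))` for some
`ρ ∈ [g, rb]`; then `psi_mono` -/
theorem Flat.Xi_ge {Q : ℕ} {A : ℝ} (F : Flat m N Q A) (hm : 2 ≤ m) (ξ : E m) {g rb t : ℝ}
    (hg : 0 < g) (h : g ≤ rb) (ht : t ≤ F.UU g rb ξ) :
    (g / rb) ^ (m - 2) * t ≤ 2 * (1 + Real.log (rb / g)) * F.Xi ξ rb := by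
  have hrb := hg.trans_le h
  have h1 := F.FlatE_UU_le hm ξ hg h
  have h2 : 0 ≤ Real.log (rb / g) := Real.log_nonneg ((one_le_div hg).2 h)
  have h3 : F.psi ξ rb / 2 ≤ F.Xi ξ rb := le_max_right _ _
  have h4 := (F.ratio_nonneg ξ hrb).2.2.1
  have h5 := mul_le_mul_of_nonneg_left ht (by positivity : 0 ≤ (g / rb) ^ (m - 2))
  have h6 := mul_le_mul_of_nonneg_left h3 h2
  linarith

end Pool.Agent.MP_f6c0e6_an.Gen

end

section

/-! Auxiliary facts for the tube. -/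

set_option autoImplicit false

open MeasureTheory Filter Topology Set Metric
open scoped ENNReal RealInnerProductSpace

namespace Pool.Agent.MP_f6c0e6_an.Gen

variable {m N : ℕ}

theorem TubeA_loc_lt {f : ℝ → ℝ} {a c : ℝ} (h : ∀ t, t < a → f t = c) {t : ℝ} (ht : t < a) :
    deriv f t = 0 := by
  have : f =ᶠ[𝓝 t] fun _ => c := mem_of_superset (Iio_mem_nhds ht) fun r hr => h r hr
  rw [this.deriv_eq, deriv_const]

theorem TubeA_loc_gt {f : ℝ → ℝ} {a c : ℝ} (h : ∀ t, a < t → f t = c) {t : ℝ} (ht : a < t) :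
    deriv f t = 0 := by
  have : f =ᶠ[𝓝 t] fun _ => c := mem_of_superset (Ioi_mem_nhds ht) fun r hr => h r hr
  rw [this.deriv_eq, deriv_const]

/-- the inner profile -/
theorem TubeA_H : ∃ (H H1 H2 : ℝ → ℝ) (C : ℝ), 1 ≤ C ∧ ContDiff ℝ 2 H ∧
    (∀ s, HasDerivAt H (H1 s) s) ∧ (∀ s, HasDerivAt H1 (H2 s) s) ∧ (∀ s, s ≤ 1 → H s = 1) ∧
    (∀ s, 0 ≤ H s ∧ H s ≤ 1 ∧ H1 s ≤ 0) ∧
    ∀ q, 0 ≤ q → -2 * q ^ 2 * H1 (q ^ 2) ≤ H (q ^ 2) ∧ q * H (q ^ 2) ≤ 2 ∧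
      q * |H1 (q ^ 2)| ≤ 1 ∧ q ^ 3 * |H2 (q ^ 2)| ≤ C := by
  obtain ⟨ψ, C, hC, hs, -, h1, h0, hb, hd, -⟩ := exists_trans
  obtain ⟨v, hv⟩ : ∃ v : ℝ → ℝ, v = fun s => (1 - ψ (s - 1)) / 2 := ⟨_, rfl⟩
  have v3 : ContDiff ℝ 3 v := by
    rw [hv]
    exact (contDiff_const.sub (hs.comp (contDiff_id.sub contDiff_const))).div_const _
  have vc := v3.continuous
  have vb : ∀ s, 0 ≤ v s ∧ v s ≤ 1 / 2 := fun s => by
    rw [hv]
    constructor <;> linarith only [(hb (s - 1)).1, (hb (s - 1)).2]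
  have v0 : ∀ s, s ≤ 1 → v s = 0 := fun s h => by
    rw [hv]
    simp only
    rw [h1 _ (by linarith), sub_self, zero_div]
  have v1 : ∀ s, 2 ≤ s → v s = 1 / 2 := fun s h => by
    rw [hv]
    simp only
    rw [h0 _ (by linarith), sub_zero]
  have vd : ∀ s, HasDerivAt v (-deriv ψ (s - 1) / 2) s := fun s => by
    rw [hv]
    have h := (hs.differentiable (by norm_num) (s - 1)).hasDerivAt.comp_sub_const s 1
    exact (h.const_sub 1).div_const 2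
  obtain ⟨u, hu⟩ : ∃ u : ℝ → ℝ, u = fun s => 1 + ∫ x in (1 : ℝ)..s, v x := ⟨_, rfl⟩
  have ud : ∀ s, HasDerivAt u (v s) s := fun s => by
    rw [hu]
    exact (vc.integral_hasStrictDerivAt 1 s).hasDerivAt.const_add 1
  have u2 : ContDiff ℝ 2 u := by
    have e : deriv u = v := funext fun s => (ud s).deriv
    rw [show (2 : WithTop ℕ∞) = 1 + 1 from rfl, contDiff_succ_iff_deriv]
    refine ⟨fun s => (ud s).differentiableAt, by simp, ?_⟩
    rw [e]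
    exact v3.of_le (by norm_num)
  have u0 : ∀ s, s ≤ 1 → u s = 1 := fun s h => by
    rw [hu]
    simp only
    rw [intervalIntegral.integral_congr (g := fun _ => 0) fun x hx => v0 x (by
      rw [uIcc_of_ge h] at hx
      exact hx.2)]
    simp
  have u1 : ∀ s, 1 ≤ u s := fun s => by
    rcases le_total s 1 with h | h
    · rw [u0 s h]
    · rw [hu]
      have := intervalIntegral.integral_nonneg (μ := volume) h fun x _ => (vb x).1
      simp only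
      linarith
  have uh : ∀ s, s ≤ 2 * u s := fun s => by
    rcases le_total s 2 with h | h
    · linarith [u1 s]
    · have e1 := intervalIntegral.integral_add_adjacent_intervals
        (vc.intervalIntegrable (μ := volume) 1 2) (vc.intervalIntegrable (μ := volume) 2 s)
      have e2 : ∫ x in (2 : ℝ)..s, v x = (s - 2) / 2 := by
        rw [intervalIntegral.integral_congr (g := fun _ => 1 / 2) fun x hx => v1 x (by
          rw [uIcc_of_le h] at hx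
          exact hx.1)]
        simp only [intervalIntegral.integral_const, smul_eq_mul]
        ring
      have e3 := intervalIntegral.integral_nonneg (μ := volume) (one_le_two (α := ℝ))
        fun x _ => (vb x).1
      rw [hu]
      simp only
      linarith only [e1, e2, e3]
  have up : ∀ s, 0 < u s := fun s => by linarith [u1 s]
  obtain ⟨H, hH⟩ : ∃ H : ℝ → ℝ, H = fun s => (√(u s))⁻¹ := ⟨_, rfl⟩
  have sp : ∀ s, 0 < √(u s) := fun s => Real.sqrt_pos.2 (up s)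
  have Hp : ∀ s, 0 < H s := fun s => by
    rw [hH]
    exact inv_pos.2 (sp s)
  have Hu : ∀ s, H s ^ 2 * u s = 1 := fun s => by
    rw [hH]
    simp only
    rw [inv_pow, Real.sq_sqrt (up s).le, inv_mul_cancel₀ (up s).ne']
  have H1 : ∀ s, H s ≤ 1 := fun s => by
    rw [hH]
    exact inv_le_one_of_one_le₀ (Real.one_le_sqrt.2 (u1 s))
  have Hd : ∀ s, HasDerivAt H (-(v s / 2) * H s ^ 3) s := fun s => by
    rw [hH]
    refine (((ud s).sqrt (up s).ne').inv (sp s).ne').congr_deriv ?_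
    have := (sp s).ne'
    field_simp
  have hq : ∀ q : ℝ, 0 ≤ q → q * H (q ^ 2) ≤ 2 := fun q hq => by
    have a1 : (q * H (q ^ 2)) ^ 2 ≤ 2 ^ 2 := by
      have := mul_le_mul_of_nonneg_left (uh (q ^ 2)) (sq_nonneg (H (q ^ 2)))
      nlinarith only [this, Hu (q ^ 2)]
    exact (pow_le_pow_iff_left₀ (mul_nonneg hq (Hp _).le) (by norm_num) two_ne_zero).1 a1
  refine ⟨H, fun s => -(v s / 2) * H s ^ 3,
    fun s => deriv ψ (s - 1) / 4 * H s ^ 3 + 3 / 4 * v s ^ 2 * H s ^ 5, 2 * C + 2, by linarith,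
    ?_, Hd, fun s => ?_, fun s h => ?_, fun s => ⟨(Hp s).le, H1 s, ?_⟩,
    fun q h => ⟨?_, hq q h, ?_, ?_⟩⟩
  · rw [hH]
    exact (u2.sqrt fun s => (up s).ne').inv fun s => (sp s).ne'
  · refine ((((vd s).div_const 2).neg).mul ((Hd s).pow 3)).congr_deriv ?_
    simp only [Nat.cast_ofNat, Nat.add_one_sub_one, Pi.neg_apply, Pi.pow_apply]
    ring
  · rw [hH]
    simp only
    rw [u0 s h, Real.sqrt_one, inv_one]
  · have := mul_nonneg (vb s).1 (pow_nonneg (Hp s).le 3)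
    linarith
  · have a1 : q ^ 2 * v (q ^ 2) ≤ u (q ^ 2) := by
      nlinarith [uh (q ^ 2), (vb (q ^ 2)).2, sq_nonneg q]
    have a2 := mul_le_mul_of_nonneg_right a1 (pow_nonneg (Hp (q ^ 2)).le 3)
    have a3 : u (q ^ 2) * H (q ^ 2) ^ 3 = H (q ^ 2) := by
      rw [show u (q ^ 2) * H (q ^ 2) ^ 3 = H (q ^ 2) ^ 2 * u (q ^ 2) * H (q ^ 2) by ring, Hu,
        one_mul]
    simp only
    linarith
  · have a0 := Hp (q ^ 2)
    have a1 := vb (q ^ 2)
    have a2 : H (q ^ 2) ^ 2 ≤ 1 := pow_le_one₀ a0.le (H1 _)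
    simp only
    rw [abs_mul, abs_neg, abs_of_nonneg (by linarith [a1.1]), abs_of_pos (by positivity)]
    calc q * (v (q ^ 2) / 2 * H (q ^ 2) ^ 3) =
          q * H (q ^ 2) * (v (q ^ 2) / 2 * H (q ^ 2) ^ 2) := by ring
      _ ≤ 2 * (1 / 2 / 2 * 1) :=
          mul_le_mul (hq q h) (mul_le_mul (by linarith [a1.2]) a2 (by positivity) (by norm_num))
            (mul_nonneg (by linarith [a1.1]) (by positivity)) (by norm_num)
      _ ≤ 1 := by norm_num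
  · have a0 := Hp (q ^ 2)
    have a1 := vb (q ^ 2)
    have a2 : H (q ^ 2) ^ 2 ≤ 1 := pow_le_one₀ a0.le (H1 _)
    have a3 : (q * H (q ^ 2)) ^ 3 ≤ 2 ^ 3 := pow_le_pow_left₀ (by positivity) (hq q h) 3
    have a4 : |deriv ψ (q ^ 2 - 1) / 4 + 3 / 4 * v (q ^ 2) ^ 2 * H (q ^ 2) ^ 2| ≤
        C / 4 + 1 / 4 := by
      refine (abs_add_le _ _).trans (add_le_add ?_ ?_)
      · rw [abs_div, abs_of_pos (by norm_num : (0 : ℝ) < 4)]
        linarith [hd (q ^ 2 - 1)]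
      · rw [abs_of_nonneg (by positivity)]
        have : v (q ^ 2) ^ 2 ≤ (1 / 2) ^ 2 := pow_le_pow_left₀ a1.1 a1.2 2
        nlinarith only [this, a2, sq_nonneg (v (q ^ 2))]
    simp only
    rw [show deriv ψ (q ^ 2 - 1) / 4 * H (q ^ 2) ^ 3 + 3 / 4 * v (q ^ 2) ^ 2 * H (q ^ 2) ^ 5 =
      H (q ^ 2) ^ 3 * (deriv ψ (q ^ 2 - 1) / 4 + 3 / 4 * v (q ^ 2) ^ 2 * H (q ^ 2) ^ 2) by ring,
      abs_mul, abs_of_pos (by positivity), ← mul_assoc, ← mul_pow]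
    calc _ ≤ 2 ^ 3 * (C / 4 + 1 / 4) := mul_le_mul a3 a4 (abs_nonneg _) (by norm_num)
      _ = 2 * C + 2 := by ring

theorem TubeA_est {ra rb q C D α β x H H1 H2 P P1 P2 : ℝ} (hra : 0 < ra) (hab : 4 * ra ≤ rb)
    (hq : 0 ≤ q) (hC : 1 ≤ C) (hD : 1 ≤ D) (αe : α * ra ^ 2 = 1) (βe : β * rb ^ 2 = 4 / 3)
    (hx : β * (ra * q) ^ 2 + -(1 / 3) = x) (b1 : -2 * q ^ 2 * H1 ≤ H) (b2 : q * H ≤ 2)
    (b3 : q * |H1| ≤ 1) (b4 : q ^ 3 * |H2| ≤ D) (c1 : 0 ≤ H) (c2 : H ≤ 1) (p0 : 0 ≤ P)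
    (p1 : P ≤ 1) (p2 : |P1| ≤ C) (p3 : |P2| ≤ C) (z0 : x < 0 → P1 = 0) (z1 : 1 < x → P1 = 0)
    (z2 : 1 < x → P2 = 0) :
    -2 * (ra * q) ^ 2 * (H1 * α * P + H * (P1 * β)) ≤ H * P + (D + 11 * C) * ra / rb ∧
    ra * q * |H1 * α * P + H * (P1 * β)| ≤ (D + 11 * C) / ra ∧
    (ra * q) ^ 3 * |H2 * α * α * P + H1 * α * (P1 * β) +
      (H1 * α * (P1 * β) + H * (P2 * β * β))| ≤ (D + 11 * C) / ra := by
  have hrb : 0 < rb := by linarith only [hra, hab]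
  obtain ⟨w, hw⟩ : ∃ w : ℝ, w = ra * q / rb := ⟨_, rfl⟩
  obtain ⟨e, he⟩ : ∃ e : ℝ, e = ra / rb := ⟨_, rfl⟩
  have w0 : 0 ≤ w := by rw [hw]; positivity
  have e0 : 0 < e := by rw [he]; positivity
  have e1 : e ≤ 1 := by rw [he, div_le_one hrb]; linarith only [hra, hab]
  have we : w = e * q := by rw [hw, he]; ring
  have hα : α = (ra ^ 2)⁻¹ := eq_inv_of_mul_eq_one_left αe
  have hβ : β = 4 / 3 * (rb ^ 2)⁻¹ := by rw [← βe]; field_simp
  have xw : x = 4 / 3 * w ^ 2 - 1 / 3 := by rw [← hx, hβ, hw]; field_simp; ring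
  have k1 : w * |P1| ≤ C ∧ w ^ 2 * |P1| ≤ C ∧ w ^ 3 * |P2| ≤ C := by
    rcases le_or_gt x 1 with h | h
    · have w1 : w ≤ 1 := by nlinarith only [xw, h, w0]
      refine ⟨?_, ?_, ?_⟩
      · exact (mul_le_of_le_one_left (abs_nonneg _) w1).trans p2
      · exact (mul_le_of_le_one_left (abs_nonneg _) (pow_le_one₀ w0 w1)).trans p2
      · exact (mul_le_of_le_one_left (abs_nonneg _) (pow_le_one₀ w0 w1)).trans p3
    · rw [z1 h, z2 h, abs_zero, mul_zero, mul_zero, mul_zero]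
      exact ⟨by linarith only [hC], by linarith only [hC], by linarith only [hC]⟩
  have k2 : H * (w ^ 2 * |P1|) ≤ 4 * C * e := by
    rcases lt_or_ge x 0 with h | h
    · rw [z0 h, abs_zero, mul_zero, mul_zero]
      positivity
    · have w1 : 1 / 2 ≤ w := by nlinarith only [xw, h, w0]
      have a1 : H ≤ 4 * e := by
        have := mul_le_mul_of_nonneg_left b2 e0.le
        nlinarith only [this, c1, we, w1]
      calc _ ≤ 4 * e * C := mul_le_mul a1 k1.2.1 (by positivity) (by positivity)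
        _ = _ := by ring
  refine ⟨?_, ?_, ?_⟩
  · have a1 : -2 * (ra * q) ^ 2 * (H1 * α * P + H * (P1 * β)) =
        -2 * q ^ 2 * H1 * P - 8 / 3 * (H * (w ^ 2 * P1)) := by
      rw [hα, hβ, hw]; field_simp; ring
    have a2 := mul_le_mul_of_nonneg_right b1 p0
    have a3 : -(H * (w ^ 2 * P1)) ≤ H * (w ^ 2 * |P1|) := by
      rw [← mul_neg, ← mul_neg]
      exact mul_le_mul_of_nonneg_left
        (mul_le_mul_of_nonneg_left (neg_le_abs _) (sq_nonneg _)) c1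
    rw [a1, mul_div_assoc, ← he]
    nlinarith only [k2, a2, a3, e0, hC, hD, mul_pos e0 (lt_of_lt_of_le one_pos hC), mul_pos e0 (lt_of_lt_of_le one_pos hD)]
  · rw [le_div_iff₀ hra, ← abs_of_nonneg (by positivity : 0 ≤ ra * q), ← abs_mul,
      ← abs_of_pos hra, ← abs_mul, abs_of_pos hra]
    have a1 : ra * q * (H1 * α * P + H * (P1 * β)) * ra =
        q * H1 * P + 4 / 3 * (e * H) * (w * P1) := by
      rw [hα, hβ, hw, he]; field_simp
    have a2 : |q * H1 * P| ≤ 1 := by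
      rw [abs_mul, abs_mul, abs_of_nonneg hq, abs_of_nonneg p0]
      exact mul_le_one₀ b3 p0 p1
    have a3 : |4 / 3 * (e * H) * (w * P1)| ≤ 4 / 3 * 1 * C := by
      rw [abs_mul, abs_mul w, abs_of_nonneg w0, abs_of_nonneg (by positivity)]
      exact mul_le_mul (mul_le_mul_of_nonneg_left (mul_le_one₀ e1 c1 c2) (by norm_num)) k1.1
        (by positivity) (by norm_num)
    rw [a1]
    linarith only [hC, hD, a2, a3, abs_add_le (q * H1 * P) (4 / 3 * (e * H) * (w * P1))]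
  · rw [le_div_iff₀ hra, ← abs_of_nonneg (by positivity : 0 ≤ (ra * q) ^ 3), ← abs_mul,
      ← abs_of_pos hra, ← abs_mul, abs_of_pos hra]
    have a1 : (ra * q) ^ 3 * (H2 * α * α * P + H1 * α * (P1 * β) +
        (H1 * α * (P1 * β) + H * (P2 * β * β))) * ra =
        q ^ 3 * H2 * P + (8 / 3 * (q * H1) * (w ^ 2 * P1) + 16 / 9 * (e * H) * (w ^ 3 * P2)) := by
      rw [hα, hβ, hw, he]; field_simp; ring
    have a2 : |q ^ 3 * H2 * P| ≤ D := by
      rw [abs_mul, abs_mul, abs_of_nonneg (pow_nonneg hq 3), abs_of_nonneg p0]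
      exact (mul_le_of_le_one_right (by positivity) p1).trans b4
    have a3 : |8 / 3 * (q * H1) * (w ^ 2 * P1)| ≤ 8 / 3 * 1 * C := by
      rw [abs_mul, abs_mul, abs_mul q, abs_mul (w ^ 2), abs_of_nonneg hq,
        abs_of_nonneg (sq_nonneg w), abs_of_pos (by norm_num : (0 : ℝ) < 8 / 3)]
      exact mul_le_mul (mul_le_mul_of_nonneg_left b3 (by norm_num)) k1.2.1
        (by positivity) (by norm_num)
    have a4 : |16 / 9 * (e * H) * (w ^ 3 * P2)| ≤ 16 / 9 * 1 * C := by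
      rw [abs_mul, abs_mul (w ^ 3), abs_of_nonneg (pow_nonneg w0 3), abs_of_nonneg (by positivity)]
      exact mul_le_mul (mul_le_mul_of_nonneg_left (mul_le_one₀ e1 c1 c2) (by norm_num)) k1.2.2
        (by positivity) (by norm_num)
    rw [a1]
    linarith only [hC, a2, a3, a4, abs_add_le (q ^ 3 * H2 * P)
      (8 / 3 * (q * H1) * (w ^ 2 * P1) + 16 / 9 * (e * H) * (w ^ 3 * P2)),
      abs_add_le (8 / 3 * (q * H1) * (w ^ 2 * P1)) (16 / 9 * (e * H) * (w ^ 3 * P2))]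

theorem TubeA_lip {X : Type} [NormedAddCommGroup X] [NormedSpace ℝ X] {f : X → ℝ} {K : ℝ}
    (hf : Differentiable ℝ f) (h : ∀ x, ‖fderiv ℝ f x‖ ≤ K) : Lip K f := fun x x' =>
  convex_univ.norm_image_sub_le_of_norm_fderiv_le (fun y _ => hf y) (fun y _ => h y)
    (mem_univ x') (mem_univ x)

theorem TubeA_lip_comp {X Y : Type} [NormedAddCommGroup X] [NormedAddCommGroup Y] {f : Y → ℝ}
    {g : X → Y} {K : ℝ} (hK : 0 ≤ K) (hf : Lip K f) (hg : ∀ x x', ‖g x - g x'‖ ≤ ‖x - x'‖) :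
    Lip K fun x => f (g x) := fun x x' =>
  (hf _ _).trans (mul_le_mul_of_nonneg_left (hg x x') hK)

theorem TubeA_lip_sq {X : Type} [NormedAddCommGroup X] {f : X → ℝ} {K : ℝ} (hf : Lip K f)
    (h : ∀ x, 0 ≤ f x ∧ f x ≤ 1) : Lip (2 * K) fun x => f x ^ 2 := fun x x' => by
  have h1 := hf x x'
  rw [Real.norm_eq_abs] at h1
  rw [Real.norm_eq_abs, sq_sub_sq, abs_mul, abs_of_nonneg (add_nonneg (h x).1 (h x').1), mul_assoc]
  exact mul_le_mul (by linarith [(h x).2, (h x').2]) h1 (abs_nonneg _) (by norm_num)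

/-- traces along a family that resolves the identity -/
theorem TubeA_tr {I : Type} [Fintype I] {c : I → E m} (hc : ∀ x, ∑ i, ⟪c i, x⟫ • c i = x)
    (L : E m →L[ℝ] E m) : ∑ j, ⟪ev j, L (ev j)⟫ = ∑ i, ⟪c i, L (c i)⟫ := by
  have h1 : ∀ j, ⟪ev j, L (ev j)⟫ = ∑ i, ⟪ev j, c i⟫ * ⟪ev j, L (c i)⟫ := fun j => by
    conv_lhs => rw [← congrArg L (hc (ev j)), map_sum, inner_sum]
    exact Finset.sum_congr rfl fun i _ => by
      rw [map_smul, inner_smul_right, real_inner_comm]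
  simp only [h1]
  rw [Finset.sum_comm]
  exact Finset.sum_congr rfl fun i _ => sum_inner_ev _ _

theorem TubeA_trN {I : Type} [Fintype I] {c : I → E m} (hc : ∀ x, ∑ i, ⟪c i, x⟫ • c i = x)
    (ι : E m →ₗᵢ[ℝ] E N) (s : Fin m → E N) (L : E m →L[ℝ] E m) :
    ∑ i, NF ι s (c i) (L (c i)) = ∑ j, ⟪ev j, L (ev j)⟫ - ∑ l, ⟪pr ι (s l), L (pr ι (s l))⟫ := by
  simp only [NF]
  rw [Finset.sum_sub_distrib, ← TubeA_tr hc L, Finset.sum_comm]
  congr 1
  refine Finset.sum_congr rfl fun l _ => ?_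
  conv_rhs => rw [← congrArg L (hc (pr ι (s l))), map_sum, inner_sum]
  exact Finset.sum_congr rfl fun i _ => by
    rw [map_smul, inner_smul_right, real_inner_comm (c i)]

theorem TubeA_hs {k : ℕ} (T : E k →L[ℝ] E N) (s : E k) :
    ‖T s‖ ^ 2 ≤ ‖s‖ ^ 2 * ∑ i, ‖T (ev i)‖ ^ 2 := by
  have h1 : ‖T s‖ ≤ ∑ i, |⟪ev i, s⟫| * ‖T (ev i)‖ := by
    conv_lhs => rw [← sum_ev s, map_sum]
    refine (norm_sum_le _ _).trans (le_of_eq (Finset.sum_congr rfl fun i _ => ?_))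
    rw [map_smul, norm_smul, Real.norm_eq_abs]
  refine (pow_le_pow_left₀ (norm_nonneg _) h1 2).trans
    ((Finset.sum_mul_sq_le_sq_mul_sq _ _ _).trans (le_of_eq ?_))
  congr 1
  rw [← real_inner_self_eq_norm_sq, ← sum_inner_ev]
  exact Finset.sum_congr rfl fun i _ => by rw [sq_abs, sq]

theorem TubeA_NF2 (ι : E m →ₗᵢ[ℝ] E N) (s : Fin m → E N) (a b : ℝ) (u v : E m) :
    NF ι s (a • u + b • v) (a • u + b • v) =
      a ^ 2 * NF ι s u u + 2 * a * b * NF ι s u v + b ^ 2 * NF ι s v v := by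
  rw [NF_add, NF_smul, NF_smul, NF_symm ι s u, NF_symm ι s v, NF_add, NF_add, NF_smul, NF_smul,
    NF_smul, NF_smul, NF_symm ι s v u]
  ring

theorem TubeA_unit {X : Type} [NormedAddCommGroup X] [NormedSpace ℝ X] (x x' : X) :
    ‖‖x‖⁻¹ • x‖ ≤ 1 ∧ ‖x‖ * ‖‖x‖⁻¹ • x - ‖x'‖⁻¹ • x'‖ ≤ 2 * ‖x - x'‖ := by
  have h1 : ∀ y : X, ‖‖y‖⁻¹ • y‖ ≤ 1 := fun y => by
    rw [norm_smul, norm_inv, norm_norm]
    exact inv_mul_le_one_of_le₀ le_rfl (norm_nonneg y)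
  have h2 : ∀ y : X, ‖y‖ • ‖y‖⁻¹ • y = y := fun y => by
    rcases eq_or_ne y 0 with h | h
    · simp [h]
    · rw [smul_smul, mul_inv_cancel₀ (norm_ne_zero_iff.2 h), one_smul]
  refine ⟨h1 x, ?_⟩
  have h3 : ‖x‖ • (‖x‖⁻¹ • x - ‖x'‖⁻¹ • x') = x - x' + (‖x'‖ - ‖x‖) • ‖x'‖⁻¹ • x' := by
    rw [smul_sub, sub_smul, h2, h2]
    abel
  have h4 : ‖(‖x'‖ - ‖x‖) • ‖x'‖⁻¹ • x'‖ ≤ ‖x - x'‖ := by
    rw [norm_smul, Real.norm_eq_abs, abs_sub_comm]
    exact (mul_le_of_le_one_right (abs_nonneg _) (h1 x')).trans (abs_norm_sub_norm_le x x')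
  calc _ = ‖‖x‖ • (‖x‖⁻¹ • x - ‖x'‖⁻¹ • x')‖ := by rw [norm_smul, norm_norm]
    _ ≤ _ := by
      rw [h3]
      linarith [norm_add_le (x - x') ((‖x'‖ - ‖x‖) • ‖x'‖⁻¹ • x')]

theorem TubeA_box {I : Type} [Fintype I] (b : OrthonormalBasis I ℝ (E m)) (o : E m) {r : I → ℝ}
    (hr : ∀ i, 0 ≤ r i) {Z : Set (E m)} (hZ : ∀ v ∈ Z, ∀ i, |⟪b i, v - o⟫| ≤ r i) :
    (volume Z).toReal ≤ ∏ i, 2 * r i := by
  have h1 := ((PiLp.volume_preserving_ofLp I).comp b.measurePreserving_repr).comp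
    (measurePreserving_sub_right volume o)
  have h2 : Z ⊆ ((WithLp.ofLp ∘ b.repr) ∘ fun v => v - o) ⁻¹' Icc (-r) r := fun v hv => by
    refine ⟨fun i => ?_, fun i => ?_⟩
    · exact (abs_le.1 (hZ v hv i)).1.trans_eq (b.repr_apply_apply (v - o) i).symm
    · exact (b.repr_apply_apply (v - o) i).trans_le (abs_le.1 (hZ v hv i)).2
  have h3 := (measure_mono h2).trans_eq (h1.measure_preimage measurableSet_Icc.nullMeasurableSet)
  refine (ENNReal.toReal_mono measure_Icc_lt_top.ne h3).trans (le_of_eq ?_)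
  rw [Real.volume_Icc_pi_toReal fun i => by simpa using hr i]
  exact Finset.prod_congr rfl fun i _ => by simp [two_mul]

end Pool.Agent.MP_f6c0e6_an.Gen

end

section

/-! The tube: definitions and elementary properties. -/

set_option autoImplicit false

open MeasureTheory Filter Topology Set Metric
open scoped ENNReal RealInnerProductSpace

namespace Pool.Agent.MP_f6c0e6_an.Gen

variable {m N : ℕ}

/-- an orthogonal splitting of the base into the axis and the cross-section -/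
structure Split (k : ℕ) where
  iw : E k →ₗᵢ[ℝ] E (k + 2)
  ic : E 2 →ₗᵢ[ℝ] E (k + 2)
  orth : ∀ u v, ⟪iw u, ic v⟫ = 0
  span : ∀ x, iw (pr iw x) + ic (pr ic x) = x

/-- the exponent relating the two large parameters -/
def P0 (k : ℕ) : ℕ := 1000 * (k + 4) ^ 3

/-- The hypotheses of the tube theorem. The function `bb` is small in the mean; where it is at most
one, the energy of balls scales like `ρ ^ k` and the radial stress is small. -/
structure TI (k N Q : ℕ) (A C : ℝ) extends Flat (k + 2) N Q A where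
  Λ : ℝ
  L : ℝ
  M : ℝ
  G : ℝ
  g : ℝ
  ak : ℝ
  bb : E (k + 2) → ℝ
  ch : E (k + 2) → ℝ
  C_ge : 1 ≤ C
  Λ_ge : 2 ≤ Λ
  L_ge : Λ ^ P0 k ≤ L
  log_le : Real.log L ≤ Λ
  M_eq : M = toFlat.DS (ball 0 3)
  M_pos : 0 < M
  G_pos : 0 < G
  MG : L * M ≤ Λ ^ 30 * G ^ 2
  Gg : G * √Λ ≤ g
  ga : g * Λ ^ 8 ≤ ak
  τG : τ ≤ Λ ^ 20 * G
  τa : τ ≤ ak
  aL : ak ≤ (L ^ 2)⁻¹
  mb : Measurable bb
  b_bd : ∀ x, 0 ≤ bb x ∧ bb x ≤ 2
  b_int : ∫ y in toFlat.x ⁻¹' ball 0 1, bb (toFlat.x y) * toFlat.d y ∂μ ≤ Λ ^ 6 / L * M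
  good : ∀ ξ ∈ ball (0 : E (k + 2)) 1, bb ξ ≤ 1 → ∀ ρ, (Λ ^ (20 * k + 60))⁻¹ / 16 ≤ ρ → ρ ≤ 2 →
    M * ρ ^ k ≤ C * toFlat.DS (ball ξ ρ) ∧ toFlat.DS (ball ξ ρ) ≤ C * M * ρ ^ k ∧
    ∫ y in toFlat.x ⁻¹' ball ξ ρ, toFlat.NN y (toFlat.x y - ξ) (toFlat.x y - ξ) ∂μ ≤
      C * bb ξ * M * ρ ^ (k + 2)
  big : Λ ^ 7 / L * M ≤ toFlat.DS (ball 0 (1 / 2))
  g3 : ∀ ω : E (k + 2) → ℝ, Lip L ω → (∀ x, |ω x| ≤ 1) → (∀ x, 2 ≤ ‖x‖ → ω x = 0) →
    |toFlat.Y ω| ≤ Λ ^ 6 / L * M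
  ch_test : Test 1 ch (ball 0 (1 / 4))
  ch_bd : ∀ x, 0 ≤ ch x ∧ ch x ≤ 1 ∧ ‖fderiv ℝ ch x‖ ≤ C

theorem TubeA_P0 (k : ℕ) : (20 * k + 60) * (k + 4) ≤ P0 k := by
  rw [P0, pow_succ, ← mul_assoc]
  refine Nat.mul_le_mul_right _ ?_
  have h : k + 4 ≤ (k + 4) ^ 2 := Nat.le_self_pow two_ne_zero _
  omega

namespace TI

variable {k Q : ℕ} {A C : ℝ} (T : TI k N Q A C)

/-- the small parameter -/
noncomputable def eps : ℝ := T.Λ ^ 6 / T.L

/-- the admissible error -/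
noncomputable def er : ℝ := T.M / (T.L * T.Λ)

/-- the outer radius of the shell and the scale along the axis -/
noncomputable def rb : ℝ := (T.Λ ^ 40)⁻¹

/-- the inner radius of the shell -/
noncomputable def ra : ℝ := (T.Λ ^ (20 * k + 50))⁻¹

/-- the scale of smoothing -/
noncomputable def rp : ℝ := (T.Λ ^ (20 * k + 60))⁻¹

/-- a smaller scale -/
noncomputable def rq : ℝ := T.rp ^ (k + 4)

/-- a very small number -/
noncomputable def sm : ℝ := (T.Λ ^ (100 * (k + 4) ^ 2))⁻¹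

/-- the normalised potential of the energy -/
noncomputable def U (ξ : E (k + 2)) : ℝ := T.L / T.G ^ 2 * T.UU T.G (30 * T.rp) ξ

/-- the cut-off function of the necks -/
noncomputable def Fu (ξ : E (k + 2)) : ℝ := 1 - (max (1 - T.U ξ) 0) ^ 3

theorem num : 0 < T.eps ∧ 0 < T.er ∧ 0 < T.sm ∧ 0 < T.rq ∧ T.rq ≤ T.rp ∧ 0 < T.rp ∧
    T.rp * T.Λ ^ 10 = T.ra ∧ T.ra * T.Λ ^ (20 * k + 10) = T.rb ∧ T.rb ≤ 1 / 10 ^ 12 ∧
    1000 * T.rp ≤ T.ra ∧ 1000 * T.ra ≤ T.rb ∧ 1 ≤ T.L ∧ T.τ ≤ (T.L ^ 2)⁻¹ ∧ T.G ≤ T.g ∧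
    T.g ≤ T.ak ∧ T.ak * T.L ≤ T.rq ∧ T.eps * T.M = T.Λ ^ 7 * T.er ∧
    T.eps * T.M ≤ T.Λ ^ 36 / T.L ^ 2 * T.G ^ 2 ∧ T.M ≤ (T.L ^ 4)⁻¹ := by
  have h2 := T.Λ_ge
  have h1 : 1 ≤ T.Λ := by linarith
  have h0 : 0 < T.Λ := by linarith
  have hM := T.M_pos
  have hG := T.G_pos
  have hP : ∀ n : ℕ, n ≤ P0 k → T.Λ ^ n ≤ T.L := fun n hn =>
    (pow_le_pow_right₀ h1 hn).trans T.L_ge
  have hk : 64 ≤ (k + 4) ^ 3 := Nat.pow_le_pow_left (Nat.le_add_left 4 k) 3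
  have hL1 : 1 ≤ T.L := by simpa using hP 0 (Nat.zero_le _)
  have hL : 0 < T.L := by linarith
  have rp0 : 0 < T.rp := by rw [rp]; positivity
  have ra0 : 0 < T.ra := by rw [ra]; positivity
  have rp1 : T.rp ≤ 1 := inv_le_one_of_one_le₀ (one_le_pow₀ h1)
  have e1 : T.rp * T.Λ ^ 10 = T.ra := by
    rw [rp, ra, show 20 * k + 60 = 20 * k + 50 + 10 from rfl, pow_add]
    field_simp
  have e2 : T.ra * T.Λ ^ (20 * k + 10) = T.rb := by
    rw [ra, rb, show 20 * k + 50 = 20 * k + 10 + 40 from rfl, pow_add]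
    field_simp
  have p10 : 1000 ≤ T.Λ ^ 10 := le_trans (by norm_num) (pow_le_pow_left₀ (by norm_num) h2 10)
  have p40 : 10 ^ 12 ≤ T.Λ ^ 40 := le_trans (by norm_num) (pow_le_pow_left₀ (by norm_num) h2 40)
  have p11 : 1000 ≤ T.Λ ^ (20 * k + 10) := p10.trans (pow_le_pow_right₀ h1 (by omega))
  have Gg : T.G ≤ T.g := (le_mul_of_one_le_right hG.le (Real.one_le_sqrt.2 h1)).trans T.Gg
  have ga : T.g ≤ T.ak :=
    (le_mul_of_one_le_right (hG.le.trans Gg) (one_le_pow₀ h1)).trans T.ga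
  have aq : T.ak * T.L ≤ T.rq := by
    have a1 : T.ak * T.L ≤ T.L⁻¹ := by
      refine (mul_le_mul_of_nonneg_right T.aL hL.le).trans (le_of_eq ?_)
      field_simp
    refine a1.trans ?_
    rw [rq, rp, inv_pow, ← pow_mul]
    refine inv_anti₀ (by positivity) (hP _ ?_)
    exact TubeA_P0 k
  have hMG : T.M ≤ T.Λ ^ 30 * T.G ^ 2 / T.L := by
    rw [le_div_iff₀ hL, mul_comm]
    exact T.MG
  refine ⟨by rw [eps]; positivity, by rw [er]; positivity, by rw [sm]; positivity,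
    pow_pos rp0 _, pow_le_of_le_one rp0.le rp1 (by omega), rp0, e1, e2, ?_, ?_, ?_, hL1,
    T.τa.trans T.aL, Gg, ga, aq, ?_, ?_, ?_⟩
  · rw [rb, one_div]
    exact inv_anti₀ (by norm_num) p40
  · rw [← e1, mul_comm]
    exact mul_le_mul_of_nonneg_left p10 rp0.le
  · rw [← e2, mul_comm]
    exact mul_le_mul_of_nonneg_left p11 ra0.le
  · rw [eps, er]
    field_simp
  · rw [eps]
    refine (mul_le_mul_of_nonneg_left hMG (by positivity)).trans (le_of_eq ?_)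
    field_simp
  · have a1 : T.G ^ 2 ≤ ((T.L ^ 2)⁻¹) ^ 2 :=
      pow_le_pow_left₀ hG.le (Gg.trans (ga.trans T.aL)) 2
    have a2 : T.Λ ^ 30 ≤ T.L := hP 30 (by rw [P0]; omega)
    refine hMG.trans ?_
    rw [div_le_iff₀ hL]
    refine (mul_le_mul a2 a1 (by positivity) hL.le).trans (le_of_eq ?_)
    field_simp

theorem Fu_bd : ContDiff ℝ 2 T.U ∧ ContDiff ℝ 2 T.Fu ∧ HasCompactSupport T.Fu ∧
    ∀ ξ, 0 ≤ T.U ξ ∧ 0 ≤ T.Fu ξ ∧ T.Fu ξ ≤ 1 ∧ T.Fu ξ ≤ 3 * T.U ξ ∧ (1 ≤ T.U ξ → T.Fu ξ = 1) := by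
  obtain ⟨-, -, -, -, n5, n6, -, -, -, -, -, n12, -, n14, n15, n16, -⟩ := T.num
  have hG := T.G_pos
  have h1 : T.G ≤ 30 * T.rp := by
    have := le_mul_of_one_le_right (hG.le.trans (n14.trans n15)) n12
    linarith
  obtain ⟨c1, c2, -⟩ := T.toFlat.contDiff_UU hG h1
  have hU : ContDiff ℝ 2 T.U := contDiff_const.mul c1
  refine ⟨hU, contDiff_const.sub ((Kern_contDiff 2).comp hU), ?_, fun ξ => ?_⟩
  · have e : T.Fu = (fun t : ℝ => 1 - (max (1 - T.L / T.G ^ 2 * t) 0) ^ 3) ∘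
        T.UU T.G (30 * T.rp) := rfl
    rw [e]
    refine c2.comp_left ?_
    rw [mul_zero, sub_zero, max_eq_left zero_le_one, one_pow, sub_self]
  · have u0 : 0 ≤ T.U ξ := mul_nonneg (by positivity)
      (T.toFlat.UU_mono hG le_rfl h1 le_rfl ξ).1
    have m0 : 0 ≤ max (1 - T.U ξ) 0 := le_max_right _ _
    have m1 : max (1 - T.U ξ) 0 ≤ 1 := max_le (by linarith) zero_le_one
    have f1 : 1 ≤ T.U ξ → T.Fu ξ = 1 := fun h => by
      rw [Fu, max_eq_right (by linarith)]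
      norm_num
    refine ⟨u0, sub_nonneg.2 (pow_le_one₀ m0 m1), sub_le_self _ (pow_nonneg m0 3), ?_, f1⟩
    rcases le_total 1 (T.U ξ) with h | h
    · rw [f1 h]
      linarith
    · rw [Fu, max_eq_left (by linarith)]
      nlinarith only [h, mul_nonneg (sq_nonneg (T.U ξ)) (by linarith : 0 ≤ 3 - T.U ξ)]

end TI

/-- the properties of the two radial profiles, as functions of the square of the distance to the
axis -/
structure Profile (χ χ₁ : ℝ → ℝ) (ra rb C : ℝ) : Prop where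
  smooth : ContDiff ℝ 2 χ
  one : ∀ t, t ≤ ra ^ 2 → χ t = 1
  zero : ∀ t, rb ^ 2 ≤ t → χ t = 0
  bd : ∀ t, 0 ≤ χ t ∧ χ t ≤ 1 ∧ deriv χ t ≤ 0
  bd' : ∀ t, 0 ≤ t → -2 * t * deriv χ t ≤ χ t + C * ra / rb ∧ √t * |deriv χ t| ≤ C / ra ∧
    √t ^ 3 * |deriv (deriv χ) t| ≤ C / ra
  smooth₁ : ContDiff ℝ 2 χ₁
  one₁ : ∀ t, t ≤ (ra / 4) ^ 2 → χ₁ t = 1
  zero₁ : ∀ t, (ra / 2) ^ 2 ≤ t → χ₁ t = 0
  bd₁ : ∀ t, 0 ≤ χ₁ t ∧ χ₁ t ≤ 1 ∧ |deriv χ₁ t| ≤ C / ra ^ 2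

/-- `χ t = H (t / ra²) ψ ((t / rb² - 1 / 4) * 4 / 3)` with `ψ` from `exists_trans` and
`H s = exp (- ∫ σ in 1..s, smoothTransition (σ - 1) / (2 σ))`, so `- 2 s H' ≤ H ≤ √(2 / s)` -/
theorem exists_profile : ∃ C : ℝ, 1 ≤ C ∧ ∀ ra rb : ℝ, 0 < ra → 4 * ra ≤ rb →
    ∃ χ χ₁ : ℝ → ℝ, Profile χ χ₁ ra rb C := by
  obtain ⟨ψ, C, hC, hs, hanti, h1, h0, hb, hd, hdd⟩ := exists_trans
  obtain ⟨H, H1, H2, D, hD, Hs, Hd, Hdd, He, Hb, Hq⟩ := TubeA_H
  have ψd : ∀ x, HasDerivAt ψ (deriv ψ x) x := fun x =>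
    (hs.differentiable (by norm_num) x).hasDerivAt
  have ψ2 : ContDiff ℝ 2 (deriv ψ) := by
    have := hs
    rw [show (3 : WithTop ℕ∞) = 2 + 1 from rfl, contDiff_succ_iff_deriv] at this
    exact this.2.2
  have ψdd : ∀ x, HasDerivAt (deriv ψ) (deriv (deriv ψ) x) x := fun x =>
    (ψ2.differentiable (by norm_num) x).hasDerivAt
  have z1 : ∀ x, 1 < x → deriv ψ x = 0 := Cut_deriv_zero fun t ht => h0 t ht.le
  have z2 : ∀ x, 1 < x → deriv (deriv ψ) x = 0 := Cut_deriv_zero z1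
  have z0 : ∀ x, x < 0 → deriv ψ x = 0 := fun x hx => TubeA_loc_lt (fun t ht => h1 t ht.le) hx
  have zn : ∀ x, deriv ψ x ≤ 0 := fun x => hanti.deriv_nonpos
  refine ⟨D + 11 * C, by linarith, fun ra rb hra hab => ?_⟩
  have hrb : 0 < rb := by linarith
  have aff : ∀ a b t : ℝ, HasDerivAt (fun t : ℝ => a * t + b) a t := fun a b t => by
    simpa using ((hasDerivAt_id t).const_mul a).add_const b
  obtain ⟨α, hα⟩ : ∃ α : ℝ, α = (ra ^ 2)⁻¹ := ⟨_, rfl⟩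
  obtain ⟨β, hβ⟩ : ∃ β : ℝ, β = 4 / 3 * (rb ^ 2)⁻¹ := ⟨_, rfl⟩
  have αp : 0 < α := by rw [hα]; positivity
  have βp : 0 < β := by rw [hβ]; positivity
  have αe : α * ra ^ 2 = 1 := by rw [hα]; field_simp
  have βe : β * rb ^ 2 = 4 / 3 := by rw [hβ]; field_simp
  have d1 : ∀ t, HasDerivAt (fun t => H (α * t + 0) * ψ (β * t + -(1 / 3)))
      (H1 (α * t + 0) * α * ψ (β * t + -(1 / 3)) +
        H (α * t + 0) * (deriv ψ (β * t + -(1 / 3)) * β)) t := fun t =>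
    ((Hd _).comp t (aff α 0 t)).mul ((ψd _).comp t (aff β _ t))
  have e1 : deriv (fun t => H (α * t + 0) * ψ (β * t + -(1 / 3))) = _ :=
    funext fun t => (d1 t).deriv
  have d2 : ∀ t, HasDerivAt (fun t => H1 (α * t + 0) * α * ψ (β * t + -(1 / 3)) +
        H (α * t + 0) * (deriv ψ (β * t + -(1 / 3)) * β))
      (H2 (α * t + 0) * α * α * ψ (β * t + -(1 / 3)) +
        H1 (α * t + 0) * α * (deriv ψ (β * t + -(1 / 3)) * β) +
        (H1 (α * t + 0) * α * (deriv ψ (β * t + -(1 / 3)) * β) +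
        H (α * t + 0) * (deriv (deriv ψ) (β * t + -(1 / 3)) * β * β))) t := fun t =>
    ((((Hdd _).comp t (aff α 0 t)).mul_const α).mul ((ψd _).comp t (aff β _ t))).add
      (((Hd _).comp t (aff α 0 t)).mul (((ψdd _).comp t (aff β _ t)).mul_const β))
  have d3 : ∀ t, HasDerivAt (fun t => ψ (16 / 3 * α * t + -(1 / 3)))
      (deriv ψ (16 / 3 * α * t + -(1 / 3)) * (16 / 3 * α)) t := fun t =>
    (ψd _).comp t (aff _ _ t)
  have ca : ∀ a b : ℝ, ContDiff ℝ 2 fun t : ℝ => a * t + b := fun a b => by fun_prop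
  have s2 : ContDiff ℝ 2 ψ := hs.of_le (by norm_num)
  refine ⟨fun t => H (α * t + 0) * ψ (β * t + -(1 / 3)), fun t => ψ (16 / 3 * α * t + -(1 / 3)),
    (Hs.comp (ca _ _)).mul (s2.comp (ca _ _)), fun t ht => ?_, fun t ht => ?_, fun t => ?_,
    fun t ht => ?_, s2.comp (ca _ _), fun t ht => h1 _ (by nlinarith only [αe, αp, ht]),
    fun t ht => h0 _ (by nlinarith only [αe, αp, ht]), fun t => ⟨(hb _).1, (hb _).2, ?_⟩⟩
  · have a1 : (4 * ra) ^ 2 ≤ rb ^ 2 := pow_le_pow_left₀ (by positivity) hab 2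
    rw [He _ (by nlinarith only [αe, αp, ht]), h1 _ (by nlinarith only [βe, βp, ht, a1]), one_mul]
  · rw [h0 _ (by nlinarith only [βe, βp, ht]), mul_zero]
  · refine ⟨mul_nonneg (Hb _).1 (hb _).1, mul_le_one₀ (Hb _).2.1 (hb _).1 (hb _).2, ?_⟩
    rw [(d1 t).deriv]
    exact add_nonpos
      (mul_nonpos_of_nonpos_of_nonneg (mul_nonpos_of_nonpos_of_nonneg (Hb _).2.2 αp.le) (hb _).1)
      (mul_nonpos_of_nonneg_of_nonpos (Hb _).1 (mul_nonpos_of_nonpos_of_nonneg (zn _) βp.le))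
  · rw [e1, (d2 t).deriv]
    simp only
    obtain ⟨q, hq, rfl⟩ : ∃ q : ℝ, 0 ≤ q ∧ t = (ra * q) ^ 2 :=
      ⟨√t / ra, by positivity, by rw [mul_div_cancel₀ _ hra.ne', Real.sq_sqrt ht]⟩
    have e2 : α * (ra * q) ^ 2 + 0 = q ^ 2 := by rw [mul_pow, ← mul_assoc, αe, one_mul, add_zero]
    rw [Real.sqrt_sq (by positivity), e2]
    obtain ⟨b1, b2, b3, b4⟩ := Hq q hq
    obtain ⟨c1, c2, -⟩ := Hb (q ^ 2)
    generalize hx : β * (ra * q) ^ 2 + -(1 / 3) = x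
    exact TubeA_est hra hab hq hC hD αe βe hx b1 b2 b3 b4 c1 c2 (hb x).1 (hb x).2 (hd x) (hdd x)
      (z0 x) (z1 x) (z2 x)
  · rw [(d3 t).deriv, abs_mul, abs_of_pos (by positivity : 0 < 16 / 3 * α), div_eq_mul_inv _ (ra ^ 2),
      ← hα]
    nlinarith only [αp, hC, hD, mul_le_mul_of_nonneg_right (hd (16 / 3 * α * t + -(1 / 3))) αp.le]

/-- The axis of the tube. -/
structure Tb {k N Q : ℕ} {A C : ℝ} (T : TI k N Q A C) (C' : ℝ) where
  S : Split k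
  o : E (k + 2)
  χ : ℝ → ℝ
  χ₁ : ℝ → ℝ
  C_ge : 1 ≤ C'
  prof : Profile χ χ₁ T.ra T.rb C'
  o_le : ‖o‖ ≤ 51 / 100
  nw : ∫ y in T.x ⁻¹' ball 0 1, ∑ i, T.NN y (S.iw (ev i)) (S.iw (ev i)) ∂T.μ ≤ C' * T.eps * T.M
  mom : ∫ y in T.x ⁻¹' ball 0 1, ‖vt S.iw (T.x y - o)‖ ^ 2 * T.d y ∂T.μ ≤ C' * T.eps * T.M
  out : T.DS {v | ‖v‖ < 9 / 10 ∧ T.rp / 8 ≤ ‖vt S.iw (v - o)‖} ≤ T.eps * T.M
  up : ∀ (v : E (k + 2)) (ρ : ℝ), T.rp / 16 ≤ ρ → T.DS (ball v ρ ∩ ball 0 1) ≤ C' * T.M * ρ ^ k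
  low : ∀ ρ, T.rp ≤ ρ → ρ ≤ 2 → T.M * ρ ^ k ≤ C' * T.DS (ball o ρ)

/-- the quadratic form of the stress tensor in the direction `u` -/
noncomputable def Tq (p : E m →L[ℝ] E N) (u : E m) : ℝ := ‖p u‖ ^ 2 - (∑ i, ‖p (ev i)‖ ^ 2) / 2

theorem TubeA_cross {k : ℕ} (S : Split k) {x : E (k + 2)} (hx : pr S.iw x = 0) :
    x = ∑ j, ⟪S.ic (ev j), x⟫ • S.ic (ev j) := by
  have h := S.span x
  rw [hx, map_zero, zero_add] at h
  conv_lhs => rw [← h, ← sum_ev (pr S.ic x), map_sum]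
  exact Finset.sum_congr rfl fun j _ => by rw [map_smul, inner_iota]

theorem TubeA_res {k : ℕ} (S : Split k) (x : E (k + 2)) :
    ∑ i : Fin k ⊕ Fin 2, ⟪Sum.elim (fun i => S.iw (ev i)) (fun j => S.ic (ev j)) i, x⟫ •
      Sum.elim (fun i => S.iw (ev i)) (fun j => S.ic (ev j)) i = x := by
  rw [Fintype.sum_sum_type]
  conv_rhs => rw [← S.span x, ← sum_ev (pr S.iw x), ← sum_ev (pr S.ic x), map_sum, map_sum]
  simp only [Sum.elim_inl, Sum.elim_inr, map_smul, inner_iota]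

theorem TubeA_sq {k : ℕ} (S : Split k) (x : E (k + 2)) :
    ⟪S.ic (ev 0), x⟫ ^ 2 + ⟪S.ic (ev 1), x⟫ ^ 2 = ‖pr S.ic x‖ ^ 2 := by
  rw [← real_inner_self_eq_norm_sq, ← sum_inner_ev (pr S.ic x) (pr S.ic x), Fin.sum_univ_two,
    inner_iota, inner_iota, sq, sq]

theorem TubeA_ev (i j : Fin m) : ⟪(ev i : E m), ev j⟫ = if i = j then 1 else 0 := by
  rw [← GCalc_ev, ← GCalc_ev]
  exact orthonormal_iff_ite.1 (EuclideanSpace.basisFun (Fin m) ℝ).orthonormal i j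

theorem TubeA_rot {k : ℕ} (S : Split k) (x : E (k + 2)) :
    ‖⟪S.ic (ev 0), x⟫ • S.ic (ev 1) - ⟪S.ic (ev 1), x⟫ • S.ic (ev 0)‖ ≤ ‖x‖ := by
  refine le_trans (le_of_eq ?_) (norm_pr_le S.ic x).1
  rw [← sq_eq_sq₀ (norm_nonneg _) (norm_nonneg _), ← TubeA_sq, norm_sub_sq_real, norm_smul,
    norm_smul, inner_smul_left, inner_smul_right, S.ic.inner_map_map, TubeA_ev, S.ic.norm_map,
    S.ic.norm_map, norm_ev, norm_ev]
  simp

theorem TubeA_onb {k : ℕ} (S : Split k) : ∃ b : OrthonormalBasis (Fin k ⊕ Fin 2) ℝ (E (k + 2)),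
    (∀ i, b (Sum.inl i) = S.iw (ev i)) ∧ ∀ j, b (Sum.inr j) = S.ic (ev j) := by
  have h1 : Orthonormal ℝ (Sum.elim (fun i => S.iw (ev i)) fun j => S.ic (ev j)) := by
    rw [orthonormal_iff_ite]
    rintro (i | i) (j | j)
    · simp only [Sum.elim_inl, S.iw.inner_map_map, TubeA_ev, Sum.inl.injEq]
    · simp [S.orth]
    · simp [real_inner_comm, S.orth]
    · simp only [Sum.elim_inr, S.ic.inner_map_map, TubeA_ev, Sum.inr.injEq]
  refine ⟨OrthonormalBasis.mk h1 fun x _ => ?_, fun i => by simp, fun j => by simp⟩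
  rw [← TubeA_res S x]
  exact Submodule.sum_mem _ fun i _ => Submodule.smul_mem _ _ (Submodule.subset_span ⟨i, rfl⟩)

namespace Tb

variable {k Q : ℕ} {A C C' : ℝ} {T : TI k N Q A C} (B : Tb T C')

/-- the component in the cross-section -/
noncomputable def cx (v : E (k + 2)) : E (k + 2) := vt B.S.iw (v - B.o)

/-- the coordinate along the axis -/
noncomputable def wx (v : E (k + 2)) : E k := pr B.S.iw (v - B.o)

/-- the point of the axis -/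
noncomputable def ax (s : E k) : E (k + 2) := B.o + B.S.iw s

/-- the stress along the axis -/
noncomputable def Nw (y : E N) : ℝ := ∑ i, T.NN y (B.S.iw (ev i)) (B.S.iw (ev i))

/-- the radial unit vector -/
noncomputable def ur (v : E (k + 2)) : E (k + 2) := ‖B.cx v‖⁻¹ • B.cx v

/-- the angular unit vector -/
noncomputable def ut (v : E (k + 2)) : E (k + 2) :=
  ⟪B.S.ic (ev 0), B.ur v⟫ • B.S.ic (ev 1) - ⟪B.S.ic (ev 1), B.ur v⟫ • B.S.ic (ev 0)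

/-- the radial stress -/
noncomputable def Nr (y : E N) : ℝ := T.NN y (B.ur (T.x y)) (B.ur (T.x y))

/-- the profile of the tube -/
noncomputable def chi (v : E (k + 2)) : ℝ := B.χ (‖B.cx v‖ ^ 2)

/-- the profile of the core -/
noncomputable def chi1 (v : E (k + 2)) : ℝ := B.χ₁ (‖B.cx v‖ ^ 2)

/-- the weight of the shell, `- r ∂_r chi` -/
noncomputable def vth (v : E (k + 2)) : ℝ := -2 * ‖B.cx v‖ ^ 2 * deriv B.χ (‖B.cx v‖ ^ 2)

/-- the kernel along the axis -/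
noncomputable def k1 (s : E k) (v : E (k + 2)) : ℝ := rho T.rb (B.wx v - s)

/-- the smoothed weight along the axis -/
noncomputable def cw (v : E (k + 2)) : ℝ := ∫ s, T.ch (B.ax s) ^ 2 * B.k1 s v

/-- the weight along the axis -/
noncomputable def chc (v : E (k + 2)) : ℝ := T.ch (B.ax (B.wx v))

/-- the localised weight of the shell -/
noncomputable def phi (v : E (k + 2)) : ℝ := B.chc v ^ 2 * B.vth v

/-- the tension -/
noncomputable def M0 : ℝ := T.ee fun v => B.k1 0 v * B.chi1 v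

/-- the centre of the core -/
noncomputable def gm (s : E k) : E (k + 2) :=
  B.M0⁻¹ • ∑ j, (T.ee fun v => B.k1 s v * B.chi1 v * ⟪B.S.ic (ev j), B.cx v⟫) • B.S.ic (ev j)

/-- the closed shell -/
def Sh0 : Set (E (k + 2)) := {v | ‖B.ax (B.wx v)‖ ≤ 1 / 4 ∧ T.ra ≤ ‖B.cx v‖ ∧ ‖B.cx v‖ ≤ T.rb}

/-- the open shell -/
def Sh : Set (E (k + 2)) := {v | ‖v‖ < 2 / 5 ∧ T.ra / 2 < ‖B.cx v‖ ∧ ‖B.cx v‖ < 2 * T.rb}

/-- the region outside the core, of energy at most `eps M` -/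
def Out : Set (E (k + 2)) := {v | ‖v‖ < 9 / 10 ∧ T.rp / 8 ≤ ‖B.cx v‖}

theorem coord (v v' : E (k + 2)) (s : E k) : B.ax (B.wx v) + B.cx v = v ∧ B.wx (B.ax s) = s ∧
    B.cx (B.ax s) = 0 ∧ ‖v - v'‖ ^ 2 = ‖B.wx v - B.wx v'‖ ^ 2 + ‖B.cx v - B.cx v'‖ ^ 2 ∧
    pr B.S.iw (B.cx v) = 0 ∧ B.cx v = ∑ j, ⟪B.S.ic (ev j), B.cx v⟫ • B.S.ic (ev j) := by
  refine ⟨?_, ?_, ?_, ?_, pr_vt _ _, TubeA_cross B.S (pr_vt _ _)⟩
  · rw [ax, wx, cx, add_assoc, iota_pr_add_vt, add_sub_cancel]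
  · rw [ax, wx, add_sub_cancel_left, pr_iota]
  · rw [ax, cx, add_sub_cancel_left, vt_iota]
  · rw [wx, wx, cx, cx, ← map_sub, ← vt_sub, sub_sub_sub_cancel_right, norm_sq_split B.S.iw]

theorem calc_coord (v : E (k + 2)) : HasFDerivAt B.cx (vtL B.S.iw) v ∧
    HasFDerivAt B.wx (pr B.S.iw) v ∧ (∀ n : ℕ, ContDiff ℝ n B.cx ∧ ContDiff ℝ n B.wx) := by
  refine ⟨?_, ?_, fun n => ⟨(contDiff_vt _ n).comp (contDiff_id.sub contDiff_const),
    (pr B.S.iw).contDiff.comp (contDiff_id.sub contDiff_const)⟩⟩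
  · have h := (hasFDerivAt_vt B.S.iw (v - B.o)).comp v ((hasFDerivAt_id v).sub_const B.o)
    rw [ContinuousLinearMap.comp_id] at h
    exact h
  · have h := (pr B.S.iw).hasFDerivAt.comp v ((hasFDerivAt_id v).sub_const B.o)
    rw [ContinuousLinearMap.comp_id] at h
    exact h

/-- traces with respect to the adapted basis -/
theorem trace_split (L : E (k + 2) →L[ℝ] E (k + 2)) (y : E N) :
    ∑ i, ⟪ev i, L (ev i)⟫ = ∑ i, ⟪B.S.iw (ev i), L (B.S.iw (ev i))⟫ +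
      ∑ j, ⟪B.S.ic (ev j), L (B.S.ic (ev j))⟫ ∧
    T.ND y L = ∑ i, T.NN y (B.S.iw (ev i)) (L (B.S.iw (ev i))) +
      ∑ j, T.NN y (B.S.ic (ev j)) (L (B.S.ic (ev j))) ∧
    T.d y = B.Nw y + ∑ j, T.NN y (B.S.ic (ev j)) (B.S.ic (ev j)) := by
  have h2 : ∀ L : E (k + 2) →L[ℝ] E (k + 2), T.ND y L =
      ∑ i, T.NN y (B.S.iw (ev i)) (L (B.S.iw (ev i))) +
      ∑ j, T.NN y (B.S.ic (ev j)) (L (B.S.ic (ev j))) := fun L => by
    have h := TubeA_trN (TubeA_res B.S) T.ι (fun l => T.fr.s l y) L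
    rw [← TubeA_trN sum_ev, Fintype.sum_sum_type] at h
    exact h.symm
  refine ⟨?_, h2 L, ?_⟩
  · rw [TubeA_tr (TubeA_res B.S) L, Fintype.sum_sum_type]
    rfl
  · exact (NF_trace_ev T.ι (T.fr.orth y)).symm.trans (h2 1)

theorem TubeA_dist (v v' : E (k + 2)) : ‖B.cx v - B.cx v'‖ ≤ ‖v - v'‖ ∧
    ‖B.wx v - B.wx v'‖ ≤ ‖v - v'‖ := by
  rw [wx, wx, cx, cx, ← map_sub, ← vt_sub, sub_sub_sub_cancel_right]
  exact ⟨(norm_pr_le _ _).2.1, (norm_pr_le _ _).1⟩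

theorem TubeA_ax (s s' : E k) : ‖B.ax s - B.ax s'‖ = ‖s - s'‖ := by
  rw [ax, ax, add_sub_add_left_eq_sub, ← map_sub, B.S.iw.norm_map]

theorem TubeA_cax (n : ℕ) : ContDiff ℝ n B.ax := contDiff_const.add B.S.iw.contDiff

theorem Nw_bd (y : E N) : 0 ≤ B.Nw y ∧ B.Nw y ≤ T.d y ∧
    (∀ s, T.NN y (B.S.iw s) (B.S.iw s) ≤ ‖s‖ ^ 2 * B.Nw y) ∧ 0 ≤ B.Nr y ∧ B.Nr y ≤ T.d y ∧
    ∀ v, B.cx v ≠ 0 → T.d y = B.Nw y + T.NN y (B.ur v) (B.ur v) + T.NN y (B.ut v) (B.ut v) := by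
  have ho := T.fr.orth y
  have h0 : ∀ u, 0 ≤ T.NN y u u := fun u => (NF_bd T.ι ho u u).1
  have h3 := (B.trace_split 1 y).2.2
  refine ⟨Finset.sum_nonneg fun i _ => h0 _, ?_, fun s => ?_, h0 _, ?_, fun v hv => ?_⟩
  · rw [h3]
    exact le_add_of_nonneg_right (Finset.sum_nonneg fun i _ => h0 _)
  · have h := TubeA_hs ((1 - ∑ l, (innerSL ℝ (T.fr.s l y)).smulRight (T.fr.s l y) :
      E N →L[ℝ] E N) ∘L T.ι.toContinuousLinearMap ∘L B.S.iw.toContinuousLinearMap) s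
    simp only [Nw, Flat.NN, NF_self T.ι ho]
    simpa using h
  · refine (NF_bd T.ι ho _ (B.ur (T.x y))).2.1.trans (mul_le_of_le_one_right (T.d_bd y).1 ?_)
    exact pow_le_one₀ (norm_nonneg _) (TubeA_unit (B.cx (T.x y)) 0).1
  · have h1 : pr B.S.iw (B.ur v) = 0 := by rw [ur, map_smul, cx, pr_vt, smul_zero]
    have h2 := TubeA_cross B.S h1
    have h4 := TubeA_sq B.S (B.ur v)
    have h5 : ‖pr B.S.ic (B.ur v)‖ = 1 := by
      have h6 := B.S.span (B.ur v)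
      rw [h1, map_zero, zero_add] at h6
      rw [← B.S.ic.norm_map, h6, ur, norm_smul, norm_inv, norm_norm,
        inv_mul_cancel₀ (norm_ne_zero_iff.2 hv)]
    rw [Fin.sum_univ_two] at h2 h3
    rw [h5, one_pow] at h4
    rw [ut, sub_eq_add_neg, ← neg_smul]
    generalize ⟪B.S.ic (ev 0), B.ur v⟫ = a at h2 h4
    generalize ⟪B.S.ic (ev 1), B.ur v⟫ = b at h2 h4
    rw [h2, h3]
    simp only [Flat.NN, TubeA_NF2]
    rw [NF_symm T.ι _ (B.S.ic (ev 1)) (B.S.ic (ev 0))]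
    linear_combination (-NF T.ι (fun l => T.fr.s l y) (B.S.ic (ev 0)) (B.S.ic (ev 0)) -
      NF T.ι (fun l => T.fr.s l y) (B.S.ic (ev 1)) (B.S.ic (ev 1))) * h4

theorem measurable_all : Measurable B.Nw ∧ Measurable B.Nr ∧ Measurable B.ur ∧ Measurable B.ut ∧
    IsCompact B.Sh0 ∧ IsOpen B.Sh ∧ MeasurableSet B.Out := by
  obtain ⟨mx, -, -, -, -, mN, -⟩ := T.toFlat.measurable_all
  have c1 := ((B.calc_coord 0).2.2 0).1.continuous
  have c2 := ((B.calc_coord 0).2.2 0).2.continuous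
  have c3 := (B.TubeA_cax 0).continuous
  have mu : Measurable B.ur := c1.norm.measurable.inv.smul c1.measurable
  refine ⟨Finset.measurable_sum _ fun i _ => mN _ _ measurable_const measurable_const,
    mN _ _ (mu.comp mx) (mu.comp mx), mu,
    ((measurable_const.inner mu).smul_const _).sub ((measurable_const.inner mu).smul_const _),
    isCompact_of_isClosed_isBounded ?_ ?_, ?_, ?_⟩
  · exact (isClosed_le (c3.comp c2).norm continuous_const).inter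
      ((isClosed_le continuous_const c1.norm).inter (isClosed_le c1.norm continuous_const))
  · refine (isBounded_closedBall (x := 0) (r := 1 / 4 + T.rb)).subset fun v hv => ?_
    rw [mem_closedBall_zero_iff, ← (B.coord v v 0).1]
    exact (norm_add_le _ _).trans (add_le_add hv.1 hv.2.2)
  · exact (isOpen_lt continuous_norm continuous_const).inter
      ((isOpen_lt continuous_const c1.norm).inter (isOpen_lt c1.norm continuous_const))
  · exact (isOpen_lt continuous_norm continuous_const).measurableSet.inter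
      (isClosed_le continuous_const c1.norm).measurableSet

theorem ur_bd (v v' : E (k + 2)) : ‖B.ur v‖ ≤ 1 ∧ ‖B.ut v‖ ≤ 1 ∧
    ‖B.cx v‖ * ‖B.ur v - B.ur v'‖ ≤ 2 * ‖v - v'‖ ∧
    ‖B.cx v‖ * ‖B.ut v - B.ut v'‖ ≤ 2 * ‖v - v'‖ := by
  obtain ⟨h1, h2⟩ := TubeA_unit (B.cx v) (B.cx v')
  have h3 : ‖B.cx v‖ * ‖B.ur v - B.ur v'‖ ≤ 2 * ‖v - v'‖ :=
    h2.trans (mul_le_mul_of_nonneg_left (B.TubeA_dist v v').1 zero_le_two)
  refine ⟨h1, (TubeA_rot B.S _).trans h1, h3,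
    le_trans (mul_le_mul_of_nonneg_left ?_ (norm_nonneg _)) h3⟩
  refine le_trans (le_of_eq (congrArg _ ?_)) (TubeA_rot B.S _)
  rw [ut, ut, inner_sub_right, inner_sub_right, sub_smul, sub_smul]
  abel

theorem shell_sub : thickening (T.ra / 2) B.Sh0 ⊆ B.Sh ∧ thickening (T.ra / 4) B.Sh ⊆ B.Out ∧
    T.DS B.Out ≤ T.eps * T.M ∧ (volume B.Sh).toReal ≤ 2 ^ (k + 4) * T.rb ^ 2 := by
  obtain ⟨-, -, -, -, -, n6, -, -, n9, n10, n11, -⟩ := T.num
  have hrb : T.rb ≤ 1 / 100 := n9.trans (by norm_num)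
  refine ⟨fun v hv => ?_, fun v hv => ?_, B.out, ?_⟩
  · obtain ⟨z, hz, h⟩ := mem_thickening_iff.1 hv
    rw [dist_eq_norm] at h
    have h1 : ‖z‖ ≤ 1 / 4 + T.rb := by
      rw [← (B.coord z z 0).1]
      exact (norm_add_le _ _).trans (add_le_add hz.1 hz.2.2)
    have h2 := abs_le.1 ((abs_norm_sub_norm_le _ _).trans (B.TubeA_dist v z).1)
    exact ⟨by linarith only [n6, n9, n10, n11, h, h1, norm_sub_norm_le v z], by linarith only [h, h2, hz.2.1], by linarith only [n6, n10, n11, h, h2, hz.2.2]⟩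
  · obtain ⟨z, hz, h⟩ := mem_thickening_iff.1 hv
    rw [dist_eq_norm] at h
    have h2 := abs_le.1 ((abs_norm_sub_norm_le _ _).trans (B.TubeA_dist v z).1)
    exact ⟨by linarith only [n6, n9, n10, n11, h, norm_sub_norm_le v z, hz.1], by linarith only [n6, n10, h, h2, hz.2.1]⟩
  · obtain ⟨b, b1, b2⟩ := TubeA_onb B.S
    refine (TubeA_box b B.o (r := Sum.elim (fun _ => 1) fun _ => 2 * T.rb) ?_ ?_).trans
      (le_of_eq ?_)
    · rintro (i | i)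
      · exact zero_le_one
      · show 0 ≤ 2 * T.rb
        linarith
    · rintro v hv (i | i)
      · refine (abs_real_inner_le_norm _ _).trans ?_
        rw [b.orthonormal.1, one_mul]
        show _ ≤ (1 : ℝ)
        linarith [norm_sub_le v B.o, hv.1, B.o_le]
      · have h1 : ⟪b (Sum.inr i), v - B.o⟫ = ⟪b (Sum.inr i), B.cx v⟫ := by
          conv_lhs => rw [← iota_pr_add_vt B.S.iw (v - B.o)]
          rw [inner_add_right, b2, real_inner_comm, B.S.orth, zero_add, cx]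
        rw [h1]
        refine (abs_real_inner_le_norm _ _).trans ?_
        rw [b.orthonormal.1, one_mul]
        exact hv.2.2.le
    · rw [Fintype.prod_sum_type]
      simp only [Sum.elim_inl, Sum.elim_inr, Finset.prod_const, Finset.card_univ, Fintype.card_fin]
      ring

theorem TubeA_rad {φ : ℝ → ℝ} {φ' : ℝ} {v : E (k + 2)} (h : HasDerivAt φ φ' (‖B.cx v‖ ^ 2)) :
    DifferentiableAt ℝ (fun v => φ (‖B.cx v‖ ^ 2)) v ∧
      ∀ u, fderiv ℝ (fun v => φ (‖B.cx v‖ ^ 2)) v u = 2 * φ' * ⟪B.cx v, u⟫ := by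
  have h2 : HasFDerivAt (fun v => φ (‖B.cx v‖ ^ 2)) _ v :=
    h.comp_hasFDerivAt v (B.calc_coord v).1.norm_sq
  refine ⟨h2.differentiableAt, fun u => ?_⟩
  have h3 : ⟪B.cx v, vtL B.S.iw u⟫ = ⟪B.cx v, u⟫ := by
    rw [vtL_apply, ← (inner_vt _ _ _).1, vt_of_pr _ (B.coord v v 0).2.2.2.2.1]
  rw [h2.fderiv, ← h3]
  simp only [smul_apply, ContinuousLinearMap.comp_apply, innerSL_apply_apply,
    smul_eq_mul, nsmul_eq_mul, Nat.cast_ofNat]
  ring

theorem TubeA_radlip {φ φ' : ℝ → ℝ} {K : ℝ} (h : ∀ t, HasDerivAt φ (φ' t) t)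
    (hb : ∀ r, 0 ≤ r → 2 * (r * |φ' (r ^ 2)|) ≤ K) : Lip K fun v => φ (‖B.cx v‖ ^ 2) := by
  refine TubeA_lip (fun v => (B.TubeA_rad (h _)).1) fun v => ?_
  refine le_trans (ContinuousLinearMap.opNorm_le_bound _ (by positivity) fun u => ?_)
    (hb _ (norm_nonneg (B.cx v)))
  rw [(B.TubeA_rad (h _)).2, Real.norm_eq_abs, abs_mul, abs_mul, abs_two]
  refine (mul_le_mul_of_nonneg_left (abs_real_inner_le_norm _ _) (by positivity)).trans
    (le_of_eq ?_)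
  ring

theorem TubeA_cw : ContDiff ℝ 1 B.chc ∧ ContDiff ℝ 1 B.cw ∧ Lip C B.chc ∧ Lip (2 * C) B.cw ∧
    ∀ v, 0 ≤ B.cw v ∧ B.cw v ≤ 1 ∧ |B.cw v - B.chc v ^ 2| ≤ 2 * C * T.rb ∧
      (1 / 4 + T.rb ≤ ‖B.ax (B.wx v)‖ → B.cw v = 0) := by
  have hC : 0 ≤ C := zero_le_one.trans T.C_ge
  have hrb : 0 < T.rb := by
    have := T.Λ_ge
    rw [TI.rb]
    positivity
  have l1 : Lip C T.ch :=
    TubeA_lip (T.ch_test.smooth.differentiable (by norm_num)) fun x => (T.ch_bd x).2.2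
  have l2 : Lip C fun s => T.ch (B.ax s) := TubeA_lip_comp hC l1 fun s s' => (B.TubeA_ax s s').le
  have l3 : Lip (2 * C) fun s => T.ch (B.ax s) ^ 2 :=
    TubeA_lip_sq l2 fun s => ⟨(T.ch_bd _).1, (T.ch_bd _).2.1⟩
  obtain ⟨m1, m2, -, m4⟩ := moll_lip l3 (by positivity) hrb
  have e : B.cw = fun v => (fun ξ => ∫ x, rho T.rb (x - ξ) • T.ch (B.ax x) ^ 2) (B.wx v) := by
    funext v
    refine integral_congr_ae (Eventually.of_forall fun s => ?_)
    simp only [k1]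
    rw [← rho_neg, neg_sub, smul_eq_mul, mul_comm]
  have cw := ((B.calc_coord 0).2.2 1).2
  refine ⟨T.ch_test.smooth.comp ((B.TubeA_cax 1).comp cw), ?_,
    TubeA_lip_comp (g := B.wx) hC l2 fun v v' => (B.TubeA_dist v v').2, ?_,
    fun v => ⟨?_, ?_, ?_, fun hv => ?_⟩⟩
  · rw [e]
    exact (m1.of_le (by norm_num)).comp cw
  · rw [e]
    exact TubeA_lip_comp (g := B.wx) (by positivity) m2 fun v v' => (B.TubeA_dist v v').2
  · exact integral_nonneg fun s => mul_nonneg (sq_nonneg _) (rho_nonneg hrb _)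
  · rw [e, ← integral_rho hrb (B.wx v)]
    refine integral_mono_of_nonneg
      (Eventually.of_forall fun s => mul_nonneg (rho_nonneg hrb _) (sq_nonneg _))
      (((contDiff_rho _).continuous.comp (continuous_id.sub continuous_const)
        ).integrable_of_hasCompactSupport (Conv_shift (Conv_rho hrb) _))
      (Eventually.of_forall fun s => ?_)
    exact mul_le_of_le_one_right (rho_nonneg hrb _)
      (pow_le_one₀ (T.ch_bd _).1 (T.ch_bd _).2.1)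
  · rw [e]
    exact m4 (B.wx v)
  · refine (integral_congr_ae (Eventually.of_forall fun s => ?_)).trans (integral_zero _ _)
    rcases le_or_gt T.rb ‖B.wx v - s‖ with h | h
    · simp only [k1]
      rw [rho_eq_zero hrb h, mul_zero]
    · have h1 : B.ax s ∉ tsupport T.ch := fun h1 => by
        have h2 := mem_ball_zero_iff.1 (T.ch_test.supp h1)
        have h3 := norm_sub_norm_le (B.ax (B.wx v)) (B.ax s)
        rw [B.TubeA_ax] at h3
        linarith only [hv, h, h2, h3]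
      show T.ch (B.ax s) ^ 2 * B.k1 s v = 0
      rw [image_eq_zero_of_notMem_tsupport h1, sq, zero_mul, zero_mul]

/-- the weights; `C' ra / rb ≤ 1` -/
theorem weights (h : C' ≤ T.Λ) : ContDiff ℝ 2 B.chi ∧ ContDiff ℝ 2 B.chi1 ∧ ContDiff ℝ 1 B.vth ∧
    ContDiff ℝ 1 B.chc ∧ ContDiff ℝ 1 B.cw ∧ ContDiff ℝ 1 B.phi ∧
    (∀ v, 0 ≤ B.vth v ∧ B.vth v ≤ 2 ∧ B.vth v ≤ B.chi v - B.chi1 v + C' * T.ra / T.rb ∧
      0 ≤ B.phi v ∧ B.phi v ≤ 2 ∧ (v ∉ B.Sh0 → B.phi v = 0) ∧ 0 ≤ B.cw v ∧ B.cw v ≤ 1 ∧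
      0 ≤ B.chc v ∧ B.chc v ≤ 1 ∧ |B.cw v - B.chc v ^ 2| ≤ 2 * C * T.rb ∧
      (1 / 4 + T.rb ≤ ‖B.ax (B.wx v)‖ → B.cw v = 0) ∧ B.chi1 v ≤ B.chi v ∧
      fderiv ℝ B.chi v (B.cx v) = -B.vth v ∧
      ∀ u, fderiv ℝ B.chi v u = 2 * deriv B.χ (‖B.cx v‖ ^ 2) * ⟪B.cx v, u⟫) ∧
    Lip C B.chc ∧ Lip (2 * C) B.cw ∧ Lip (2 * C' / T.ra) B.chi ∧ Lip (C' / T.ra) B.chi1 ∧
    Lip (8 * C' / T.ra) B.vth ∧ Lip ((8 * C' + 4 * C) / T.ra) B.phi := by
  obtain ⟨-, -, -, -, -, n6, -, n8, n9, n10, n11, -⟩ := T.num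
  have P := B.prof
  have hC := T.C_ge
  have hC' := B.C_ge
  have hra : 0 < T.ra := by linarith
  have hrb : 0 < T.rb := by linarith
  have ra1 : T.ra ≤ 1 := by
    have : T.rb ≤ 1 := n9.trans (by norm_num)
    linarith
  have q1 : C' * T.ra / T.rb ≤ 1 := by
    have h1 : 1 ≤ T.Λ := by linarith [T.Λ_ge]
    rw [div_le_one hrb, ← n8, mul_comm]
    exact mul_le_mul_of_nonneg_left (h.trans (le_self_pow₀ h1 (by omega))) hra.le
  have q0 : 0 ≤ C' * T.ra / T.rb := div_nonneg (mul_nonneg (by linarith) hra.le) hrb.le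
  have q2 : 0 ≤ T.ra / 2 := by linarith
  have s1 : ContDiff ℝ 1 (deriv B.χ) := by
    have := P.smooth
    rw [show (2 : WithTop ℕ∞) = 1 + 1 from rfl, contDiff_succ_iff_deriv] at this
    exact this.2.2
  have d0 : ∀ t, HasDerivAt B.χ (deriv B.χ t) t := fun t =>
    (P.smooth.differentiable (by norm_num) t).hasDerivAt
  have d1 : ∀ t, HasDerivAt B.χ₁ (deriv B.χ₁ t) t := fun t =>
    (P.smooth₁.differentiable (by norm_num) t).hasDerivAt
  have d2 : ∀ t, HasDerivAt (fun t => -2 * t * deriv B.χ t)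
      (-2 * 1 * deriv B.χ t + -2 * t * deriv (deriv B.χ) t) t := fun t =>
    ((hasDerivAt_id t).const_mul (-2)).mul (s1.differentiable (by norm_num) t).hasDerivAt
  have c2 : ContDiff ℝ 2 fun v => ‖B.cx v‖ ^ 2 := ((B.calc_coord 0).2.2 2).1.norm_sq ℝ
  have c1 : ContDiff ℝ 1 fun v => ‖B.cx v‖ ^ 2 := c2.of_le (by norm_num)
  have c3 : ContDiff ℝ 1 B.vth := (contDiff_const.mul c1).mul (s1.comp c1)
  obtain ⟨w1, w2, w3, w4, w5⟩ := B.TubeA_cw
  have z1 : ∀ v, ‖B.cx v‖ < T.ra → B.vth v = 0 := fun v hv => by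
    rw [vth, TubeA_loc_lt (fun t ht => P.one t ht.le)
      (pow_lt_pow_left₀ hv (norm_nonneg _) two_ne_zero), mul_zero]
  have z2 : ∀ v, T.rb < ‖B.cx v‖ → B.vth v = 0 := fun v hv => by
    rw [vth, TubeA_loc_gt (fun t ht => P.zero t ht.le)
      (pow_lt_pow_left₀ hv hrb.le two_ne_zero), mul_zero]
  have z3 : ∀ v, ‖B.cx v‖ < T.ra → B.chi v = 1 := fun v hv =>
    P.one _ (pow_le_pow_left₀ (norm_nonneg _) hv.le 2)
  have z4 : ∀ v, T.ra ≤ ‖B.cx v‖ → B.chi1 v = 0 := fun v hv =>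
    P.zero₁ _ (pow_le_pow_left₀ q2 (by linarith) 2)
  have v0 : ∀ v, 0 ≤ B.vth v := fun v =>
    mul_nonneg_of_nonpos_of_nonpos (by nlinarith only [sq_nonneg ‖B.cx v‖]) (P.bd _).2.2
  have v1 : ∀ v, B.vth v ≤ B.chi v + C' * T.ra / T.rb := fun v => (P.bd' _ (sq_nonneg _)).1
  have v2 : ∀ v, B.vth v ≤ 2 := fun v => by
    have : B.chi v ≤ 1 := (P.bd _).2.1
    linarith [v1 v]
  have u0 : ∀ v, 0 ≤ B.chc v ∧ B.chc v ≤ 1 := fun v => ⟨(T.ch_bd _).1, (T.ch_bd _).2.1⟩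
  have u1 : ∀ v, B.chc v ^ 2 ≤ 1 := fun v => pow_le_one₀ (u0 v).1 (u0 v).2
  have L3 : Lip (8 * C' / T.ra) B.vth := by
    refine B.TubeA_radlip d2 fun r hr => ?_
    obtain ⟨-, b2, b3⟩ := P.bd' (r ^ 2) (sq_nonneg r)
    rw [Real.sqrt_sq hr] at b2 b3
    have b4 : |-2 * 1 * deriv B.χ (r ^ 2) + -2 * r ^ 2 * deriv (deriv B.χ) (r ^ 2)| ≤
        2 * |deriv B.χ (r ^ 2)| + 2 * r ^ 2 * |deriv (deriv B.χ) (r ^ 2)| := by
      refine (abs_add_le _ _).trans (le_of_eq ?_)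
      rw [abs_mul, abs_mul (-2 * r ^ 2), abs_mul _ (r ^ 2), abs_of_nonneg (sq_nonneg r)]
      norm_num
    have b5 := mul_le_mul_of_nonneg_left b4 hr
    have b6 : r * (2 * |deriv B.χ (r ^ 2)| + 2 * r ^ 2 * |deriv (deriv B.χ) (r ^ 2)|) =
        2 * (r * |deriv B.χ (r ^ 2)|) + 2 * (r ^ 3 * |deriv (deriv B.χ) (r ^ 2)|) := by ring
    rw [mul_div_assoc]
    generalize C' / T.ra = z at b2 b3 ⊢
    linarith
  refine ⟨P.smooth.comp c2, P.smooth₁.comp c2, c3, w1, w2, (w1.pow 2).mul c3, fun v => ⟨v0 v, v2 v,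
    ?_, mul_nonneg (sq_nonneg _) (v0 v), ?_, fun hv => ?_, (w5 v).1, (w5 v).2.1, (u0 v).1, (u0 v).2,
    (w5 v).2.2.1, (w5 v).2.2.2, ?_, ?_, (B.TubeA_rad (d0 _)).2⟩, w3, w4, ?_, ?_, L3, fun v v' => ?_⟩
  · rcases lt_or_ge ‖B.cx v‖ T.ra with h1 | h1
    · have : B.chi1 v ≤ 1 := (P.bd₁ _).2.1
      rw [z1 v h1, z3 v h1]
      linarith
    · rw [z4 v h1, sub_zero]
      exact v1 v
  · exact (mul_le_of_le_one_left (v0 v) (u1 v)).trans (v2 v)
  · rw [phi]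
    rcases lt_or_ge ‖B.cx v‖ T.ra with h1 | h1
    · rw [z1 v h1, mul_zero]
    rcases lt_or_ge T.rb ‖B.cx v‖ with h2 | h2
    · rw [z2 v h2, mul_zero]
    have h3 : B.ax (B.wx v) ∉ tsupport T.ch := fun h3 =>
      hv ⟨(mem_ball_zero_iff.1 (T.ch_test.supp h3)).le, h1, h2⟩
    rw [chc, image_eq_zero_of_notMem_tsupport h3, sq, zero_mul, zero_mul]
  · rcases lt_or_ge ‖B.cx v‖ T.ra with h1 | h1
    · rw [z3 v h1]
      exact (P.bd₁ _).2.1
    · rw [z4 v h1]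
      exact (P.bd _).1
  · refine ((B.TubeA_rad (d0 _)).2 _).trans ?_
    rw [real_inner_self_eq_norm_sq, vth]
    ring
  · refine B.TubeA_radlip d0 fun r hr => ?_
    obtain ⟨-, b2, -⟩ := P.bd' (r ^ 2) (sq_nonneg r)
    rw [Real.sqrt_sq hr] at b2
    rw [mul_div_assoc]
    linarith
  · refine B.TubeA_radlip d1 fun r hr => ?_
    rcases le_or_gt r (T.ra / 2) with h1 | h1
    · refine (mul_le_mul_of_nonneg_left (mul_le_mul h1 (P.bd₁ _).2.2 (abs_nonneg _) q2)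
        zero_le_two).trans (le_of_eq ?_)
      have := hra.ne'
      field_simp
    · rw [TubeA_loc_gt (fun t ht => P.zero₁ t ht.le) (pow_lt_pow_left₀ h1 q2 two_ne_zero), abs_zero,
        mul_zero, mul_zero]
      exact div_nonneg (by linarith) hra.le
  · have a1 := L3 v v'
    have a2 := TubeA_lip_sq w3 u0 v v'
    have a3 : B.phi v - B.phi v' =
        B.chc v ^ 2 * (B.vth v - B.vth v') + B.vth v' * (B.chc v ^ 2 - B.chc v' ^ 2) := by
      rw [phi, phi]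
      ring
    have a4 : 4 * C ≤ 4 * C / T.ra := le_div_self (by linarith) hra ra1
    rw [a3, add_div, add_mul]
    refine (norm_add_le _ _).trans (add_le_add ?_ ?_)
    · rw [norm_mul, Real.norm_of_nonneg (sq_nonneg _)]
      exact (mul_le_of_le_one_left (norm_nonneg _) (u1 v)).trans a1
    · rw [norm_mul, Real.norm_of_nonneg (v0 v')]
      refine (mul_le_mul (v2 v') a2 (norm_nonneg _) zero_le_two).trans ?_
      nlinarith only [a4, mul_le_mul_of_nonneg_right a4 (norm_nonneg (v - v'))]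

end Tb

end Pool.Agent.MP_f6c0e6_an.Gen

end
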