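import Pool.Agent.MP_f6c0e6_an.All.Calc
import Pool.Agent.MP_f6c0e6_an.All.Stat
import Pool.Agent.MP_f6c0e6_an.All.Conv

section

/-! First variation identities of the flat model. -/

set_option autoImplicit false

open MeasureTheory Filter Topology Set Metric
open scoped ENNReal RealInnerProductSpace

namespace Pool.Agent.MP_f6c0e6_an.Gen

variable {m N : ℕ}

/-- admissible weights: measurable, bounded, with bounded support -/
def Adm (f : E m → ℝ) : Prop :=
  Measurable f ∧ ∃ M : ℝ, (∀ x, |f x| ≤ M) ∧ ∀ x, M ≤ ‖x‖ → f x = 0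

theorem Adm.integrable {f : E m → ℝ} (h : Adm f) : Integrable f := by
  obtain ⟨hm, M, hb, h0⟩ := h
  have h1 : IntegrableOn f (closedBall 0 M) :=
    Measure.integrableOn_of_bounded (M := M) measure_closedBall_lt_top.ne hm.aestronglyMeasurable
      (Eventually.of_forall fun x => hb x)
  refine (integrableOn_iff_integrable_of_support_subset fun x hx => ?_).1 h1
  by_contra hc
  exact hx (h0 x (not_le.1 (mt mem_closedBall_zero_iff.2 hc)).le)

theorem Adm.of_cont {f : E m → ℝ} (h : Continuous f) {R : ℝ} (h0 : ∀ x, R ≤ ‖x‖ → f x = 0) :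
    Adm f := by
  have hc : HasCompactSupport f := HasCompactSupport.intro (isCompact_closedBall 0 R) fun x hx =>
    h0 x (not_le.1 (mt mem_closedBall_zero_iff.2 hx)).le
  obtain ⟨C, hC⟩ := h.bounded_above_of_compact_support hc
  exact ⟨h.measurable, max C R, fun x => (hC x).trans (le_max_left _ _),
    fun x hx => h0 x ((le_max_right _ _).trans hx)⟩

theorem Adm.of_cpt {f : E m → ℝ} (h : Continuous f) (hc : HasCompactSupport f) : Adm f := by
  obtain ⟨R, hR⟩ := hc.isCompact.isBounded.subset_ball 0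
  refine Adm.of_cont h (R := R) fun x hx => image_eq_zero_of_notMem_tsupport fun hh => ?_
  exact absurd (mem_ball_zero_iff.1 (hR hh)) (not_lt.2 hx)

theorem Adm.add {f g : E m → ℝ} (hf : Adm f) (hg : Adm g) : Adm fun x => f x + g x := by
  obtain ⟨hm, M, hb, h0⟩ := hf
  obtain ⟨hm', M', hb', h0'⟩ := hg
  have h1 : 0 ≤ M := (abs_nonneg _).trans (hb 0)
  have h2 : 0 ≤ M' := (abs_nonneg _).trans (hb' 0)
  refine ⟨hm.add hm', M + M', fun x => (abs_add_le _ _).trans (add_le_add (hb x) (hb' x)),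
    fun x hx => ?_⟩
  beta_reduce
  rw [h0 x (by linarith), h0' x (by linarith), add_zero]

theorem Adm.sub {f g : E m → ℝ} (hf : Adm f) (hg : Adm g) : Adm fun x => f x - g x := by
  obtain ⟨hm, M, hb, h0⟩ := hf
  obtain ⟨hm', M', hb', h0'⟩ := hg
  have h1 : 0 ≤ M := (abs_nonneg _).trans (hb 0)
  have h2 : 0 ≤ M' := (abs_nonneg _).trans (hb' 0)
  refine ⟨hm.sub hm', M + M', fun x => (abs_sub _ _).trans (add_le_add (hb x) (hb' x)),
    fun x hx => ?_⟩
  beta_reduce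
  rw [h0 x (by linarith), h0' x (by linarith), sub_zero]

theorem Adm.const_mul {f : E m → ℝ} (hf : Adm f) (t : ℝ) : Adm fun x => t * f x := by
  obtain ⟨hm, M, hb, h0⟩ := hf
  refine ⟨hm.const_mul t, max (|t| * M) M, fun x => ?_, fun x hx => ?_⟩
  · rw [abs_mul]
    exact (mul_le_mul_of_nonneg_left (hb x) (abs_nonneg t)).trans (le_max_left _ _)
  · beta_reduce
    rw [h0 x ((le_max_right _ _).trans hx), mul_zero]

theorem Adm.mul_bdd {f g : E m → ℝ} (hf : Adm f) (hg : Measurable g) {M : ℝ}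
    (hM : ∀ x, |g x| ≤ M) : Adm fun x => f x * g x := by
  obtain ⟨hm, M', hb, h0⟩ := hf
  refine ⟨hm.mul hg, max (M' * M) M', fun x => ?_, fun x hx => ?_⟩
  · rw [abs_mul]
    exact (mul_le_mul (hb x) (hM x) (abs_nonneg _) ((abs_nonneg _).trans (hb 0))).trans
      (le_max_left _ _)
  · beta_reduce
    rw [h0 x ((le_max_right _ _).trans hx), zero_mul]

theorem Adm.mul_cont {f g : E m → ℝ} (hf : Adm f) (hg : Continuous g) :
    Adm fun x => f x * g x := by
  obtain ⟨hm, M, hb, h0⟩ := hf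
  obtain ⟨C, hC⟩ := (isCompact_closedBall (0 : E m) M).exists_bound_of_continuousOn hg.continuousOn
  have h1 : 0 ≤ M := (abs_nonneg _).trans (hb 0)
  have h2 : 0 ≤ C := (norm_nonneg _).trans (hC 0 (mem_closedBall_self h1))
  refine ⟨hm.mul hg.measurable, max (M * C) M, fun x => ?_, fun x hx => ?_⟩
  · refine le_trans ?_ (le_max_left _ _)
    beta_reduce
    rcases le_total M ‖x‖ with hx | hx
    · rw [h0 x hx, zero_mul, abs_zero]
      positivity
    · rw [abs_mul]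
      exact mul_le_mul (hb x) (hC x (mem_closedBall_zero_iff.2 hx)) (abs_nonneg _) h1
  · beta_reduce
    rw [h0 x ((le_max_right _ _).trans hx), zero_mul]

theorem Adm.sum {I : Type} (J : Finset I) {f : I → E m → ℝ} (hf : ∀ j ∈ J, Adm (f j)) :
    Adm fun x => ∑ j ∈ J, f j x := by
  classical
  induction J using Finset.induction_on with
  | empty => exact ⟨by simp, 0, by simp, by simp⟩
  | insert a s ha ih =>
    simp only [Finset.sum_insert ha]
    exact (hf a (Finset.mem_insert_self _ _)).add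
      (ih fun j hj => hf j (Finset.mem_insert_of_mem hj))

theorem Lip.continuous {X F : Type*} [NormedAddCommGroup X] [NormedAddCommGroup F] {K : ℝ}
    {f : X → F} (h : Lip K f) : Continuous f := by
  exact (LipschitzWith.of_dist_le' (K := K) fun x y => by
    rw [dist_eq_norm, dist_eq_norm]
    exact h x y).continuous

theorem Wt.adm {ω : E m → ℝ} {K : ℝ} {O : Set (E m)} (h : Wt ω K O)
    (hO : Bornology.IsBounded O) : Adm ω := by
  obtain ⟨R, hR⟩ := hO.subset_ball 0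
  refine Adm.of_cont h.lip.continuous (R := R) fun x hx => h.zero x fun hh => ?_
  exact absurd (mem_ball_zero_iff.1 (hR hh)) (not_lt.2 hx)

theorem FlatB_grad0 (φ : E m → ℝ) (x w : E m) : ⟪w, gradient φ x⟫ = fderiv ℝ φ x w := by
  rw [real_inner_comm, gradient, InnerProductSpace.toDual_symm_apply]

theorem FlatB_grad (φ : E m → ℝ) : gradient φ = fun y => ∑ j, fderiv ℝ φ y (ev j) • ev j :=
  funext fun y => by
    rw [← sum_ev (gradient φ y)]
    simp only [FlatB_grad0]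

theorem FlatB_grad1 {φ : E m → ℝ} (h : ContDiff ℝ 1 φ) : Continuous (gradient φ) := by
  rw [FlatB_grad]
  exact continuous_finsetSum _ fun j _ => (Conv_cf h _).smul continuous_const

theorem FlatB_grad2 {φ : E m → ℝ} (h : ContDiff ℝ 2 φ) : ContDiff ℝ 1 (gradient φ) ∧
    ∀ x v w, ⟪w, fderiv ℝ (gradient φ) x v⟫ = fderiv ℝ (fderiv ℝ φ) x v w := by
  have h1 : ContDiff ℝ 1 (gradient φ) := by
    rw [FlatB_grad]
    exact ContDiff.sum fun j _ => (Conv_fd2 h _).1.smul contDiff_const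
  refine ⟨h1, fun x v w => ?_⟩
  have h2 : HasFDerivAt (fun x => ⟪w, gradient φ x⟫) _ x :=
    (innerSL ℝ w).hasFDerivAt.comp x (h1.differentiable one_ne_zero x).hasFDerivAt
  have h3 : (fun x => fderiv ℝ φ x w) = fun x => ⟪w, gradient φ x⟫ :=
    funext fun x => (FlatB_grad0 φ x w).symm
  rw [← (Conv_fd2 h w).2, h3, h2.fderiv]
  rfl

theorem FlatB_cs {X : Type} [MeasurableSpace X] (ν : Measure X) [IsFiniteMeasure ν] {g : X → ℝ}
    (h1 : Integrable g ν) (h2 : Integrable (fun x => g x ^ 2) ν) :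
    (∫ x, g x ∂ν) ^ 2 ≤ (ν univ).toReal * ∫ x, g x ^ 2 ∂ν := by
  rcases eq_or_ne ν 0 with rfl | hν
  · simp
  have hm : 0 < (ν univ).toReal :=
    ENNReal.toReal_pos (Measure.measure_univ_ne_zero.2 hν) (measure_ne_top _ _)
  set m := (ν univ).toReal with hmd
  set I := ∫ x, g x ∂ν with hI
  have h3 : 0 ≤ ∫ x, (m ^ 2 * g x ^ 2 - 2 * m * I * g x + I ^ 2) ∂ν :=
    integral_nonneg fun x => by
      have := sq_nonneg (m * g x - I)
      simp only [Pi.zero_apply]
      nlinarith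
  have h4 : Integrable (fun x => m ^ 2 * g x ^ 2 - 2 * m * I * g x) ν :=
    (h2.const_mul _).sub (h1.const_mul _)
  rw [integral_add h4 (integrable_const _), integral_sub (h2.const_mul _) (h1.const_mul _),
    integral_const_mul, integral_const_mul, integral_const, smul_eq_mul, ← hI] at h3
  have h5 : ν.real univ = m := rfl
  rw [h5] at h3
  by_contra hc
  rw [not_le] at hc
  nlinarith

theorem FlatB_fub {X Ω : Type} [MeasurableSpace X] [MeasurableSpace Ω] (ν : Measure X) [SFinite ν]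
    (κ : Measure Ω) [SFinite κ] {f : X → Ω → ℝ} (hf : Measurable fun q : X × Ω => f q.1 q.2)
    {M : X → ℝ} (hM : Integrable M ν) {g : Ω → ℝ} (hg : Integrable g κ)
    (hb : ∀ s y, |f s y| ≤ M s * g y) :
    Integrable (fun s => ∫ y, f s y ∂κ) ν ∧ ∫ y, ∫ s, f s y ∂ν ∂κ = ∫ s, ∫ y, f s y ∂κ ∂ν := by
  have hI : Integrable (fun q : X × Ω => f q.1 q.2) (ν.prod κ) :=
    (hM.mul_prod hg).mono' hf.aestronglyMeasurable (Eventually.of_forall fun q => hb _ _)
  exact ⟨hI.integral_prod_left, (integral_integral_swap hI).symm⟩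

namespace Flat

variable {Q : ℕ} {A : ℝ} (F : Flat m N Q A)

instance : IsFiniteMeasure F.μ := F.fin

theorem FlatB_cx : Continuous F.x := (pr F.ι).continuous

theorem FlatB_cz : Continuous F.z := (contDiff_vt F.ι 0).continuous

theorem measurable_all : Measurable F.x ∧ Measurable F.z ∧ (∀ l, Measurable (F.a l)) ∧
    (∀ l, Measurable (F.b l)) ∧ Measurable F.d ∧
    (∀ u v : E N → E m, Measurable u → Measurable v → Measurable fun y => F.NN y (u y) (v y)) ∧
    (∀ u : E N → E m, Measurable u → Measurable fun y => F.Bt y (u y)) ∧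
    ∀ L : E N → E m →L[ℝ] E m, (∀ i, Measurable fun y => L y (ev i)) →
      Measurable fun y => F.ND y (L y) := by
  have ha : ∀ l, Measurable (F.a l) := fun l => F.FlatB_cx.measurable.comp (F.fr.meas l)
  have hb : ∀ l, Measurable (F.b l) := fun l => F.FlatB_cz.measurable.comp (F.fr.meas l)
  have hN : ∀ u v : E N → E m, Measurable u → Measurable v →
      Measurable fun y => F.NN y (u y) (v y) := fun u v hu hv =>
    (hu.inner hv).sub (Finset.measurable_sum _ fun l _ => ((ha l).inner hu).mul ((ha l).inner hv))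
  refine ⟨F.FlatB_cx.measurable, F.FlatB_cz.measurable, ha, hb, ?_, hN, fun u hu => ?_,
    fun L hL => ?_⟩
  · show Measurable fun y => ∑ l, ‖F.b l y‖ ^ 2
    exact Finset.measurable_sum _ fun l _ => (hb l).norm.pow_const 2
  · show Measurable fun y => ∑ l, ⟪F.a l y, u y⟫ • F.b l y
    exact Finset.measurable_sum _ fun l _ => ((ha l).inner (𝕜 := ℝ) hu).smul (hb l)
  · exact Finset.measurable_sum _ fun i _ => hN _ _ measurable_const (hL i)

theorem d_bd (y : E N) : 0 ≤ F.d y ∧ F.d y ≤ m := by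
  exact tlt_bd F.ι (F.fr.orth y)

theorem integrable_of_bd {G : Type} [NormedAddCommGroup G] [MeasurableSpace G] [BorelSpace G]
    [SecondCountableTopology G] {f : E N → G} (hf : Measurable f) {M : ℝ}
    (h : ∀ y, ‖F.x y‖ < 10 → ‖F.z y‖ ≤ F.τ → ‖f y‖ ≤ M) : Integrable f F.μ := by
  refine Integrable.of_bound hf.aestronglyMeasurable M ?_
  filter_upwards [F.ae] with y hy
  exact h y hy.1 hy.2.1

theorem FlatB_bd {G : Type} [NormedAddCommGroup G] {g : E m × E N → G} (hg : Continuous g) :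
    AEStronglyMeasurable (fun y => g (F.x y, F.z y)) F.μ ∧
      ∃ C : ℝ, 0 ≤ C ∧ ∀ᵐ y ∂F.μ, ‖g (F.x y, F.z y)‖ ≤ C := by
  have hc : Continuous fun y => g (F.x y, F.z y) := hg.comp (F.FlatB_cx.prodMk F.FlatB_cz)
  refine ⟨hc.aestronglyMeasurable, ?_⟩
  obtain ⟨C, hC⟩ := ((isCompact_closedBall (0 : E m) 10).prod
    (isCompact_closedBall (0 : E N) F.τ)).exists_bound_of_continuousOn hg.continuousOn
  refine ⟨max C 0, le_max_right _ _, ?_⟩
  filter_upwards [F.ae] with y hy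
  have h1 : F.x y ∈ closedBall (0 : E m) 10 := mem_closedBall_zero_iff.2 hy.1.le
  have h2 : F.z y ∈ closedBall (0 : E N) F.τ := mem_closedBall_zero_iff.2 hy.2.1
  exact (hC (F.x y, F.z y) (mk_mem_prod h1 h2)).trans (le_max_left _ _)

theorem FlatB_app {G H : Type} [NormedAddCommGroup G] [NormedSpace ℝ G] [NormedAddCommGroup H]
    [NormedSpace ℝ H] {g : E m × E N → H →L[ℝ] G} (hg : Continuous g) {u : E N → H}
    (hu : Integrable u F.μ) : Integrable (fun y => g (F.x y, F.z y) (u y)) F.μ := by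
  obtain ⟨h1, C, -, hC⟩ := F.FlatB_bd hg
  refine (hu.norm.const_mul C).mono' ?_ ?_
  · exact isBoundedBilinearMap_apply.continuous.comp_aestronglyMeasurable (h1.prodMk hu.1)
  · filter_upwards [hC] with y hy
    exact (ContinuousLinearMap.le_opNorm _ _).trans
      (mul_le_mul_of_nonneg_right hy (norm_nonneg _))

theorem FlatB_smul {G : Type} [NormedAddCommGroup G] [NormedSpace ℝ G] {g : E m × E N → G}
    (hg : Continuous g) {f : E N → ℝ} (hf : Integrable f F.μ) :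
    Integrable (fun y => f y • g (F.x y, F.z y)) F.μ := by
  obtain ⟨h1, C, -, hC⟩ := F.FlatB_bd hg
  refine (hf.norm.mul_const C).mono' (hf.1.smul h1) ?_
  filter_upwards [hC] with y hy
  rw [norm_smul]
  exact mul_le_mul_of_nonneg_left hy (norm_nonneg _)

/-- a continuous function of the foot point and the height times a bounded function -/
theorem integrable_cont {G : Type} [NormedAddCommGroup G] [NormedSpace ℝ G]
    {g : E m × E N → G} (hg : Continuous g) {f : E N → ℝ} (hf : Measurable f) {M : ℝ}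
    (hM : ∀ y, |f y| ≤ M) : Integrable (fun y => f y • g (F.x y, F.z y)) F.μ := by
  exact F.FlatB_smul hg (F.integrable_of_bd hf fun y _ _ => hM y)

theorem integrable_d : Integrable F.d F.μ := by
  refine F.integrable_of_bd F.measurable_all.2.2.2.2.1 (M := m) fun y _ _ => ?_
  rw [Real.norm_of_nonneg (F.d_bd y).1]
  exact (F.d_bd y).2

/-- apply `stat` to `y ↦ Ψ (x y, z y)` and the compact set over `K` of height `τ` -/
theorem fv {Ψ : E m × E N → E N} (hΨ : ContDiff ℝ 1 Ψ) {K : Set (E m)} (hK : IsCompact K)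
    (hKR : K ⊆ ball 0 10) (h0 : ∀ q : E m × E N, q.1 ∉ K → Ψ q = 0) :
    Integrable (fun y => ∑ l, ⟪F.fr.s l y, fderiv ℝ Ψ (F.x y, F.z y) (F.a l y, F.b l y)⟫) F.μ ∧
      ∫ y, ∑ l, ⟪F.fr.s l y, fderiv ℝ Ψ (F.x y, F.z y) (F.a l y, F.b l y)⟫ ∂F.μ = 0 := by
  have hd : ∀ y, HasFDerivAt (fun y => (F.x y, F.z y)) ((pr F.ι).prod (vtL F.ι)) y := fun y =>
    (pr F.ι).hasFDerivAt.prodMk (hasFDerivAt_vt F.ι y)
  have hc : ContDiff ℝ 1 fun y => Ψ (F.x y, F.z y) :=
    hΨ.comp ((pr F.ι).contDiff.prodMk (contDiff_vt F.ι 1))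
  have he : (fun y => ∑ l, ⟪F.fr.s l y, fderiv ℝ Ψ (F.x y, F.z y) (F.a l y, F.b l y)⟫) =
      F.fr.div fun y => Ψ (F.x y, F.z y) := by
    funext y
    have h3 : HasFDerivAt (fun y => Ψ (F.x y, F.z y)) _ y :=
      (hΨ.differentiable one_ne_zero (F.x y, F.z y)).hasFDerivAt.comp y (hd y)
    rw [Fr.div, h3.fderiv]
    refine Finset.sum_congr rfl fun l _ => ?_
    rw [ContinuousLinearMap.comp_apply, ContinuousLinearMap.prod_apply, vtL_apply]
    rfl
  have hK' : IsCompact {y | F.x y ∈ K ∧ ‖F.z y‖ ≤ F.τ} := by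
    refine (isCompact_closedBall (0 : E N) (10 + F.τ)).of_isClosed_subset
      ((hK.isClosed.preimage F.FlatB_cx).inter (isClosed_le F.FlatB_cz.norm continuous_const))
      fun y hy => ?_
    have h1 : ‖F.x y‖ < 10 := mem_ball_zero_iff.1 (hKR hy.1)
    exact mem_closedBall_zero_iff.2 ((norm_pr_le F.ι y).2.2.trans (add_le_add h1.le hy.2))
  have hz : ∀ᵐ y ∂F.μ, y ∉ {y | F.x y ∈ K ∧ ‖F.z y‖ ≤ F.τ} →
      (fun y => Ψ (F.x y, F.z y)) =ᶠ[𝓝 y] 0 := by
    filter_upwards [F.ae] with y hy hn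
    have hk : F.x y ∉ K := fun h => hn ⟨h, hy.2.1⟩
    filter_upwards [(hK.isClosed.isOpen_compl.preimage F.FlatB_cx).mem_nhds hk] with y' hy'
    exact h0 _ hy'
  rw [he]
  refine ⟨F.fr.integrable_div hK' (fun y _ => hc.contDiffAt) hz,
    F.stat _ _ hK' (fun y hy => ⟨mem_ball_zero_iff.1 (hKR hy.1), ?_⟩) (fun y _ => hc.contDiffAt) hz⟩
  have h1 : ‖F.z y‖ ≤ F.τ := hy.2
  have h2 := F.τ_le
  show ‖F.z y‖ < 1
  linarith

theorem FlatB_iND {L : E m → E m →L[ℝ] E m} (hL : Continuous L) :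
    Integrable (fun y => F.ND y (L (F.x y))) F.μ := by
  obtain ⟨-, C, hC0, hC⟩ := F.FlatB_bd (g := fun q => L q.1) (hL.comp continuous_fst)
  refine Integrable.of_bound (F.measurable_all.2.2.2.2.2.2.2 _ fun i =>
    ((hL.comp F.FlatB_cx).clm_apply continuous_const).measurable).aestronglyMeasurable
    (m * m * C) ?_
  filter_upwards [hC] with y hy
  refine (abs_sum_NF_le F.ι (F.fr.orth y) _).trans ?_
  exact mul_le_mul (mul_le_mul_of_nonneg_left (F.d_bd y).2 (Nat.cast_nonneg m)) hy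
    (norm_nonneg _) (by positivity)

theorem FlatB_iBt {V : E m → E m} (hV : Continuous V) :
    Integrable (fun y => F.Bt y (V (F.x y))) F.μ := by
  obtain ⟨-, C, hC0, hC⟩ := F.FlatB_bd (g := fun q => V q.1) (hV.comp continuous_fst)
  refine Integrable.of_bound (F.measurable_all.2.2.2.2.2.2.1 _
    (hV.comp F.FlatB_cx).measurable).aestronglyMeasurable (√m * C) ?_
  filter_upwards [hC] with y hy
  refine (BF_bd F.ι (F.fr.orth y) _).2.2.1.trans ?_
  exact mul_le_mul (Real.sqrt_le_sqrt (F.d_bd y).2) hy (norm_nonneg _) (Real.sqrt_nonneg _)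

theorem FlatB_ix {G : Type} [NormedAddCommGroup G] [NormedSpace ℝ G] {g : E m → G}
    (hg : Continuous g) : Integrable (fun y => g (F.x y)) F.μ := by
  simpa using F.FlatB_smul (g := fun q => g q.1) (hg.comp continuous_fst) (integrable_const 1)

theorem FlatB_nb (l : Fin m) (y : E N) : ‖F.b l y‖ ≤ 1 :=
  (norm_pr_le F.ι _).2.1.trans (F.fr.norm_s l y).le

theorem FlatB_ib (l : Fin m) : Integrable (F.b l) F.μ :=
  F.integrable_of_bd (F.measurable_all.2.2.2.1 l) fun y _ _ => F.FlatB_nb l y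

theorem FlatB_h {V : E m → E m} (hV : Test 1 V (ball 0 10)) {f : E N → ℝ}
    (hf : ContDiff ℝ 1 f) :
    ∫ y, ((dv V (F.x y) - F.ND y (fderiv ℝ V (F.x y))) * f (F.z y) +
      fderiv ℝ f (F.z y) (F.Bt y (V (F.x y)))) ∂F.μ = 0 := by
  have hV1 : ContDiff ℝ 1 V := hV.smooth
  rw [← (F.fv (Ψ := fun q => f q.2 • F.ι (V q.1)) ((hf.comp contDiff_snd).smul
    (F.ι.toContinuousLinearMap.contDiff.comp (hV1.comp contDiff_fst))) hV.cpt.isCompact hV.supp
    fun q hq => by simp [image_eq_zero_of_notMem_tsupport hq]).2]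
  refine integral_congr_ae (Eventually.of_forall fun y => ?_)
  have h1 : HasFDerivAt (fun q : E m × E N => f q.2) _ (F.x y, F.z y) :=
    (hf.differentiable one_ne_zero (F.z y)).hasFDerivAt.comp (F.x y, F.z y) hasFDerivAt_snd
  have h2 : HasFDerivAt (fun q : E m × E N => V q.1) _ (F.x y, F.z y) :=
    (hV1.differentiable one_ne_zero (F.x y)).hasFDerivAt.comp (F.x y, F.z y) hasFDerivAt_fst
  have h3 : HasFDerivAt (fun q : E m × E N => F.ι (V q.1)) _ (F.x y, F.z y) :=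
    F.ι.toContinuousLinearMap.hasFDerivAt.comp (F.x y, F.z y) h2
  have h4 : HasFDerivAt (fun q : E m × E N => f q.2 • F.ι (V q.1)) _ (F.x y, F.z y) := h1.smul h3
  have h5 : ∀ l u, ⟪F.fr.s l y, F.ι u⟫ = ⟪F.a l y, u⟫ := fun l u => by
    rw [real_inner_comm, inner_iota, real_inner_comm]
    rfl
  have h6 := sum_inner_pr F.ι (fun l => F.fr.s l y) (fderiv ℝ V (F.x y))
  have h7 : dv V (F.x y) - F.ND y (fderiv ℝ V (F.x y)) =
      ∑ l, ⟪F.a l y, fderiv ℝ V (F.x y) (F.a l y)⟫ := h6.symm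
  have h8 : F.Bt y (V (F.x y)) = ∑ l, ⟪F.a l y, V (F.x y)⟫ • F.b l y := rfl
  beta_reduce
  rw [h4.fderiv, h7, h8, map_sum, Finset.sum_mul, ← Finset.sum_add_distrib]
  refine Finset.sum_congr rfl fun l _ => ?_
  simp only [add_apply, smul_apply, ContinuousLinearMap.smulRight_apply,
    ContinuousLinearMap.comp_apply, ContinuousLinearMap.coe_fst', ContinuousLinearMap.coe_snd',
    LinearIsometry.coe_toContinuousLinearMap, inner_add_right, real_inner_smul_right, h5,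
    map_smul, smul_eq_mul]
  ring

/-- horizontal fields `f (z) • ι (V x)`, for each component of `f` -/
theorem fv_h {G : Type} [NormedAddCommGroup G] [InnerProductSpace ℝ G] [CompleteSpace G]
    {V : E m → E m} (hV : Test 1 V (ball 0 10)) {f : E N → G} (hf : ContDiff ℝ 1 f) :
    ∫ y, (dv V (F.x y) - F.ND y (fderiv ℝ V (F.x y))) • f (F.z y) ∂F.μ =
      -∫ y, fderiv ℝ f (F.z y) (F.Bt y (V (F.x y))) ∂F.μ := by
  have hV1 : ContDiff ℝ 1 V := hV.smooth
  have i1 : Integrable (fun y => (dv V (F.x y) - F.ND y (fderiv ℝ V (F.x y))) • f (F.z y)) F.μ :=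
    F.FlatB_smul (g := fun q => f q.2) (hf.continuous.comp continuous_snd)
      ((F.FlatB_ix (continuous_dv hV1)).sub (F.FlatB_iND (hV1.continuous_fderiv one_ne_zero)))
  have i2 : Integrable (fun y => fderiv ℝ f (F.z y) (F.Bt y (V (F.x y)))) F.μ :=
    F.FlatB_app (g := fun q => fderiv ℝ f q.2)
      ((hf.continuous_fderiv one_ne_zero).comp continuous_snd) (F.FlatB_iBt hV1.continuous)
  have i3 : Integrable (fun y => (dv V (F.x y) - F.ND y (fderiv ℝ V (F.x y))) • f (F.z y) +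
      fderiv ℝ f (F.z y) (F.Bt y (V (F.x y)))) F.μ := i1.add i2
  rw [eq_neg_iff_add_eq_zero, ← integral_add i1 i2]
  refine ext_inner_left ℝ fun e => ?_
  rw [inner_zero_right, ← integral_inner i3,
    ← F.FlatB_h hV (f := fun z => ⟪e, f z⟫) ((innerSL ℝ e).contDiff.comp hf)]
  refine integral_congr_ae (Eventually.of_forall fun y => ?_)
  have h1 : HasFDerivAt (fun z => ⟪e, f z⟫) _ (F.z y) :=
    (innerSL ℝ e).hasFDerivAt.comp (F.z y) (hf.differentiable one_ne_zero (F.z y)).hasFDerivAt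
  beta_reduce
  rw [h1.fderiv, inner_add_right, real_inner_smul_right]
  rfl

/-- vertical fields `ψ (x) • vt (f z)` -/
theorem fv_v {ψ : E m → ℝ} (hψ : Test 1 ψ (ball 0 10)) {f : E N → E N} (hf : ContDiff ℝ 1 f) :
    ∫ y, ψ (F.x y) * ∑ l, ⟪F.b l y, fderiv ℝ f (F.z y) (F.b l y)⟫ ∂F.μ =
      -∫ y, ⟪F.Bt y (gradient ψ (F.x y)), f (F.z y)⟫ ∂F.μ := by
  have hψ1 : ContDiff ℝ 1 ψ := hψ.smooth
  have i1 : Integrable
      (fun y => ψ (F.x y) * ∑ l, ⟪F.b l y, fderiv ℝ f (F.z y) (F.b l y)⟫) F.μ := by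
    have : ∀ l, Integrable (fun y => ⟪F.b l y, fderiv ℝ f (F.z y) (F.b l y)⟫) F.μ := fun l => by
      have h1 := F.FlatB_app (g := fun q => fderiv ℝ f q.2)
        ((hf.continuous_fderiv one_ne_zero).comp continuous_snd) (F.FlatB_ib l)
      refine h1.norm.mono' ((F.FlatB_ib l).1.inner h1.1) (Eventually.of_forall fun y => ?_)
      exact (norm_inner_le_norm _ _).trans
        (mul_le_of_le_one_left (norm_nonneg _) (F.FlatB_nb l y))
    have h2 := F.FlatB_smul (g := fun q => ψ q.1) (hψ1.continuous.comp continuous_fst)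
      (integrable_finsetSum Finset.univ fun l _ => this l)
    simpa only [smul_eq_mul, mul_comm] using h2
  have i2 : Integrable (fun y => ⟪F.Bt y (gradient ψ (F.x y)), f (F.z y)⟫) F.μ := by
    have h1 := F.FlatB_app (g := fun q => innerSL ℝ (f q.2))
      ((innerSL ℝ).continuous.comp (hf.continuous.comp continuous_snd))
      (F.FlatB_iBt (FlatB_grad1 hψ1))
    simpa only [innerSL_apply_apply, real_inner_comm] using h1
  rw [eq_neg_iff_add_eq_zero, ← integral_add i1 i2,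
    ← (F.fv (Ψ := fun q => ψ q.1 • vtL F.ι (f q.2)) ((hψ1.comp contDiff_fst).smul
    ((vtL F.ι).contDiff.comp (hf.comp contDiff_snd))) hψ.cpt.isCompact hψ.supp
    fun q hq => by simp [image_eq_zero_of_notMem_tsupport hq]).2]
  refine integral_congr_ae (Eventually.of_forall fun y => ?_)
  have h1 : HasFDerivAt (fun q : E m × E N => ψ q.1) _ (F.x y, F.z y) :=
    (hψ1.differentiable one_ne_zero (F.x y)).hasFDerivAt.comp (F.x y, F.z y) hasFDerivAt_fst
  have h2 : HasFDerivAt (fun q : E m × E N => f q.2) _ (F.x y, F.z y) :=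
    (hf.differentiable one_ne_zero (F.z y)).hasFDerivAt.comp (F.x y, F.z y) hasFDerivAt_snd
  have h3 : HasFDerivAt (fun q : E m × E N => vtL F.ι (f q.2)) _ (F.x y, F.z y) :=
    (vtL F.ι).hasFDerivAt.comp (F.x y, F.z y) h2
  have h4 : HasFDerivAt (fun q : E m × E N => ψ q.1 • vtL F.ι (f q.2)) _ (F.x y, F.z y) :=
    h1.smul h3
  have h5 : ∀ l u, ⟪F.fr.s l y, vtL F.ι u⟫ = ⟪F.b l y, u⟫ := fun l u => by
    rw [vtL_apply, ← (inner_vt F.ι _ _).1]
    rfl
  have h8 : F.Bt y (gradient ψ (F.x y)) = ∑ l, ⟪F.a l y, gradient ψ (F.x y)⟫ • F.b l y := rfl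
  beta_reduce
  rw [h4.fderiv, h8, sum_inner, Finset.mul_sum, ← Finset.sum_add_distrib]
  refine Finset.sum_congr rfl fun l _ => ?_
  simp only [add_apply, smul_apply, ContinuousLinearMap.smulRight_apply,
    ContinuousLinearMap.comp_apply, ContinuousLinearMap.coe_fst', ContinuousLinearMap.coe_snd',
    inner_add_right, real_inner_smul_right, real_inner_smul_left, h5, FlatB_grad0]

/-- the stress contracted with the Hessian -/
noncomputable def NH (ψ : E m → ℝ) (y : E N) : ℝ :=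
  ∑ i, ∑ j, F.NN y (ev i) (ev j) * fderiv ℝ (fderiv ℝ ψ) (F.x y) (ev i) (ev j)

theorem abs_NH_le (ψ : E m → ℝ) (y : E N) :
    |F.NH ψ y| ≤ m ^ 2 * F.d y * ‖fderiv ℝ (fderiv ℝ ψ) (F.x y)‖ := by
  have h : ∀ i j : Fin m, |F.NN y (ev i) (ev j) * fderiv ℝ (fderiv ℝ ψ) (F.x y) (ev i) (ev j)| ≤
      F.d y * ‖fderiv ℝ (fderiv ℝ ψ) (F.x y)‖ := fun i j => by
    rw [abs_mul]
    refine mul_le_mul ?_ ?_ (abs_nonneg _) (F.d_bd y).1
    · have := (NF_bd F.ι (F.fr.orth y) (ev i) (ev j)).2.2.2.1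
      rw [norm_ev, norm_ev, mul_one, mul_one] at this
      exact this
    · simpa [norm_ev] using (fderiv ℝ (fderiv ℝ ψ) (F.x y)).le_opNorm₂ (ev i) (ev j)
  refine (Finset.abs_sum_le_sum_abs _ _).trans ((Finset.sum_le_sum fun i _ =>
    (Finset.abs_sum_le_sum_abs _ _).trans (Finset.sum_le_sum fun j _ => h i j)).trans_eq ?_)
  simp only [Finset.sum_const, Finset.card_univ, Fintype.card_fin, nsmul_eq_mul]
  ring

/-- `fv_h` for the gradient of `ψ` and `fv_v` for the gradient of a component of `f` -/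
theorem fv_lap {G : Type} [NormedAddCommGroup G] [InnerProductSpace ℝ G] [CompleteSpace G]
    {ψ : E m → ℝ} (hψ : Test 2 ψ (ball 0 10)) {f : E N → G} (hf : ContDiff ℝ 2 f) :
    ∫ y, (lap ψ (F.x y) - F.NH ψ y) • f (F.z y) ∂F.μ =
      ∫ y, ψ (F.x y) • ∑ l, fderiv ℝ (fderiv ℝ f) (F.z y) (F.b l y) (F.b l y) ∂F.μ := by
  have hψ2 : ContDiff ℝ 2 ψ := hψ.smooth
  have hψ1 : ContDiff ℝ 1 ψ := hψ2.of_le (by norm_num)
  have hf1 : ContDiff ℝ 1 f := hf.of_le (by norm_num)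
  have hsub : tsupport (gradient ψ) ⊆ tsupport ψ := by
    refine closure_minimal (fun x hx => ?_) (isClosed_tsupport ψ)
    refine support_fderiv_subset ℝ (f := ψ) fun h => hx ?_
    rw [gradient, h, map_zero]
  have hV : Test 1 (gradient ψ) (ball 0 10) :=
    ⟨(FlatB_grad2 hψ2).1, hψ.cpt.isCompact.of_isClosed_subset (isClosed_tsupport _) hsub,
      hsub.trans hψ.supp⟩
  have h1 := F.fv_h hV hf1
  have e1 : ∀ y, F.ND y (fderiv ℝ (gradient ψ) (F.x y)) = F.NH ψ y := fun y => by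
    refine Finset.sum_congr rfl fun i _ => ?_
    have h2 := NF_expand F.ι (fun l => F.fr.s l y) (ev i) (fderiv ℝ (gradient ψ) (F.x y) (ev i))
    refine Eq.trans h2 ?_
    rw [Finset.sum_eq_single i (fun k _ hk => by simp [ev, hk]) (by simp)]
    refine Finset.sum_congr rfl fun j _ => ?_
    rw [← inner_ev j, (FlatB_grad2 hψ2).2, show (ev i : E m) i = 1 by simp [ev], one_mul]
    rfl
  simp only [dv_gradient hψ2, e1] at h1
  rw [h1]
  have c2 : Continuous (fderiv ℝ (fderiv ℝ f)) :=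
    (hf.fderiv_right (m := 1) le_rfl).continuous_fderiv one_ne_zero
  have i1 : Integrable (fun y => fderiv ℝ f (F.z y) (F.Bt y (gradient ψ (F.x y)))) F.μ :=
    F.FlatB_app (g := fun q => fderiv ℝ f q.2)
      ((hf1.continuous_fderiv one_ne_zero).comp continuous_snd) (F.FlatB_iBt (FlatB_grad1 hψ1))
  have i2 : Integrable
      (fun y => ψ (F.x y) • ∑ l, fderiv ℝ (fderiv ℝ f) (F.z y) (F.b l y) (F.b l y)) F.μ := by
    have : ∀ l, Integrable (fun y => fderiv ℝ (fderiv ℝ f) (F.z y) (F.b l y) (F.b l y)) F.μ :=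
      fun l => by
      have h1 := F.FlatB_app (g := fun q => fderiv ℝ (fderiv ℝ f) q.2)
        (c2.comp continuous_snd) (F.FlatB_ib l)
      refine h1.norm.mono' (isBoundedBilinearMap_apply.continuous.comp_aestronglyMeasurable
        (h1.1.prodMk (F.FlatB_ib l).1)) (Eventually.of_forall fun y => ?_)
      exact (ContinuousLinearMap.le_opNorm _ _).trans
        (mul_le_of_le_one_right (norm_nonneg _) (F.FlatB_nb l y))
    exact F.FlatB_app (g := fun q => ψ q.1 • ContinuousLinearMap.id ℝ G)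
      ((hψ1.continuous.comp continuous_fst).smul continuous_const)
      (integrable_finsetSum Finset.univ fun l _ => this l)
  refine ext_inner_left ℝ fun e => ?_
  have hg : ContDiff ℝ 2 fun z => ⟪e, f z⟫ := (innerSL ℝ e).contDiff.comp hf
  have d1 : ∀ z v, fderiv ℝ (fun z => ⟪e, f z⟫) z v = ⟪e, fderiv ℝ f z v⟫ := fun z v => by
    have h1 : HasFDerivAt (fun z => ⟪e, f z⟫) _ z :=
      (innerSL ℝ e).hasFDerivAt.comp z (hf1.differentiable one_ne_zero z).hasFDerivAt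
    rw [h1.fderiv]
    rfl
  have d2 : ∀ z u v, fderiv ℝ (fderiv ℝ fun z => ⟪e, f z⟫) z u v =
      ⟪e, fderiv ℝ (fderiv ℝ f) z u v⟫ := fun z u v => by
    rw [← (Conv_fd2 hg v).2, ← (Conv_fd2 hf v).2]
    simp only [d1]
    have h1 : HasFDerivAt (fun z => ⟪e, fderiv ℝ f z v⟫) _ z :=
      (innerSL ℝ e).hasFDerivAt.comp z
        ((Conv_fd2 hf v).1.differentiable one_ne_zero z).hasFDerivAt
    rw [h1.fderiv]
    rfl
  have h2 := F.fv_v ⟨hψ1, hψ.cpt, hψ.supp⟩ (FlatB_grad2 hg).1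
  simp only [(FlatB_grad2 hg).2, FlatB_grad0, d1, d2] at h2
  rw [inner_neg_right, ← integral_inner i1, ← integral_inner i2, ← h2]
  simp only [real_inner_smul_right, inner_sum]

/-- the stress identity -/
theorem ee_dv {V : E m → E m} (hV : Test 1 V (ball 0 10)) :
    F.ee (dv V) = ∫ y, F.ND y (fderiv ℝ V (F.x y)) ∂F.μ := by
  have hV1 : ContDiff ℝ 1 V := hV.smooth
  have h := F.fv_h hV (f := fun _ => (1 : ℝ)) contDiff_const
  simp only [smul_eq_mul, mul_one, fderiv_fun_const, Pi.zero_apply, zero_apply, integral_zero,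
    neg_zero] at h
  rw [integral_sub (F.FlatB_ix (continuous_dv hV1))
    (F.FlatB_iND (hV1.continuous_fderiv one_ne_zero))] at h
  rw [ee, integral_dv hV1 hV.cpt]
  linarith

theorem FlatB_adm {f : E m → ℝ} (hf : Adm f) : Integrable (fun y => f (F.x y)) F.μ ∧
    Integrable (fun y => f (F.x y) * F.d y) F.μ := by
  obtain ⟨hm, M, hb, -⟩ := hf
  have h1 : Measurable fun y => f (F.x y) := hm.comp F.FlatB_cx.measurable
  exact ⟨F.integrable_of_bd h1 fun y _ _ => hb _, F.integrable_d.bdd_mul (c := M)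
    h1.aestronglyMeasurable (Eventually.of_forall fun y => hb _)⟩

theorem lin_add {f g : E m → ℝ} (hf : Adm f) (hg : Adm g) :
    F.DD (fun x => f x + g x) = F.DD f + F.DD g ∧ F.ee (fun x => f x + g x) = F.ee f + F.ee g ∧
      F.Y (fun x => f x + g x) = F.Y f + F.Y g := by
  have h1 : F.DD (fun x => f x + g x) = F.DD f + F.DD g := by
    simp only [DD, add_mul]
    exact integral_add (F.FlatB_adm hf).2 (F.FlatB_adm hg).2
  have h2 : F.ee (fun x => f x + g x) = F.ee f + F.ee g := by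
    simp only [ee]
    rw [integral_add (F.FlatB_adm hf).1 (F.FlatB_adm hg).1,
      integral_add hf.integrable hg.integrable]
    ring
  refine ⟨h1, h2, ?_⟩
  simp only [Y, h1, h2]
  ring

theorem lin_sub {f g : E m → ℝ} (hf : Adm f) (hg : Adm g) :
    F.DD (fun x => f x - g x) = F.DD f - F.DD g ∧ F.ee (fun x => f x - g x) = F.ee f - F.ee g ∧
      F.Y (fun x => f x - g x) = F.Y f - F.Y g := by
  have h1 : F.DD (fun x => f x - g x) = F.DD f - F.DD g := by
    simp only [DD, sub_mul]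
    exact integral_sub (F.FlatB_adm hf).2 (F.FlatB_adm hg).2
  have h2 : F.ee (fun x => f x - g x) = F.ee f - F.ee g := by
    simp only [ee]
    rw [integral_sub (F.FlatB_adm hf).1 (F.FlatB_adm hg).1,
      integral_sub hf.integrable hg.integrable]
    ring
  refine ⟨h1, h2, ?_⟩
  simp only [Y, h1, h2]
  ring

theorem lin_smul (t : ℝ) (f : E m → ℝ) :
    F.DD (fun x => t * f x) = t * F.DD f ∧ F.ee (fun x => t * f x) = t * F.ee f ∧
      F.Y (fun x => t * f x) = t * F.Y f := by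
  have h1 : F.DD (fun x => t * f x) = t * F.DD f := by
    simp only [DD, mul_assoc]
    exact integral_const_mul _ _
  have h2 : F.ee (fun x => t * f x) = t * F.ee f := by
    simp only [ee]
    rw [integral_const_mul, integral_const_mul]
    ring
  refine ⟨h1, h2, ?_⟩
  simp only [Y, h1, h2]
  ring

theorem lin_sum {I : Type} (J : Finset I) {f : I → E m → ℝ} (hf : ∀ j ∈ J, Adm (f j)) :
    F.DD (fun x => ∑ j ∈ J, f j x) = ∑ j ∈ J, F.DD (f j) ∧
      F.ee (fun x => ∑ j ∈ J, f j x) = ∑ j ∈ J, F.ee (f j) ∧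
      F.Y (fun x => ∑ j ∈ J, f j x) = ∑ j ∈ J, F.Y (f j) := by
  classical
  induction J using Finset.induction_on with
  | empty => simp [Y, DD, ee]
  | insert a s ha ih =>
    have h1 := fun j hj => hf j (Finset.mem_insert_of_mem hj)
    obtain ⟨i1, i2, i3⟩ := ih h1
    obtain ⟨j1, j2, j3⟩ := F.lin_add (hf a (Finset.mem_insert_self _ _)) (Adm.sum s h1)
    simp only [Finset.sum_insert ha]
    rw [j1, j2, j3, i1, i2, i3]
    exact ⟨rfl, rfl, rfl⟩

/-- superposition -/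
theorem lin_integral {X : Type} [MeasurableSpace X] (ν : Measure X) [SFinite ν]
    {f : X → E m → ℝ} (hf : Measurable fun q : X × E m => f q.1 q.2) {M : X → ℝ}
    (hM : Integrable M ν) (hb : ∀ s x, |f s x| ≤ M s) {R : ℝ}
    (h0 : ∀ s x, R ≤ ‖x‖ → f s x = 0) :
    Adm (fun x => ∫ s, f s x ∂ν) ∧
      Integrable (fun s => F.DD (f s)) ν ∧ Integrable (fun s => F.ee (f s)) ν ∧
      Integrable (fun s => F.Y (f s)) ν ∧
      F.DD (fun x => ∫ s, f s x ∂ν) = ∫ s, F.DD (f s) ∂ν ∧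
      F.ee (fun x => ∫ s, f s x ∂ν) = ∫ s, F.ee (f s) ∂ν ∧
      F.Y (fun x => ∫ s, f s x ∂ν) = ∫ s, F.Y (f s) ∂ν := by
  have hx := F.FlatB_cx.measurable
  obtain ⟨a1, a2⟩ := FlatB_fub ν F.μ (f := fun s y => f s (F.x y) * F.d y)
    ((hf.comp (measurable_fst.prodMk (hx.comp measurable_snd))).mul
      (F.measurable_all.2.2.2.2.1.comp measurable_snd)) hM F.integrable_d fun s y => by
      rw [abs_mul, abs_of_nonneg (F.d_bd y).1]
      exact mul_le_mul_of_nonneg_right (hb _ _) (F.d_bd y).1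
  obtain ⟨b1, b2⟩ := FlatB_fub ν F.μ (f := fun s y => f s (F.x y))
    (hf.comp (measurable_fst.prodMk (hx.comp measurable_snd))) hM (integrable_const (1 : ℝ))
    fun s y => by rw [mul_one]; exact hb _ _
  obtain ⟨c1, c2⟩ := FlatB_fub ν (volume : Measure (E m)) hf hM
    (g := (closedBall (0 : E m) R).indicator fun _ => (1 : ℝ))
    ((integrable_indicator_iff measurableSet_closedBall).2
      (integrableOn_const measure_closedBall_lt_top.ne)) fun s y => by
      by_cases hy : y ∈ closedBall (0 : E m) R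
      · rw [indicator_of_mem hy, mul_one]; exact hb _ _
      · rw [indicator_of_notMem hy, mul_zero,
          h0 s y (not_le.1 (mt mem_closedBall_zero_iff.2 hy)).le, abs_zero]
  have i1 : Integrable (fun s => F.DD (f s)) ν := a1
  have i2 : Integrable (fun s => F.ee (f s)) ν := b1.sub (c1.const_mul _)
  have e1 : F.DD (fun x => ∫ s, f s x ∂ν) = ∫ s, F.DD (f s) ∂ν := by
    simp only [DD, ← integral_mul_const]
    exact a2
  have e2 : F.ee (fun x => ∫ s, f s x ∂ν) = ∫ s, F.ee (f s) ∂ν := by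
    simp only [ee]
    rw [integral_sub b1 (c1.const_mul _), integral_const_mul, b2, c2]
  refine ⟨⟨(hf.stronglyMeasurable.integral_prod_left' (μ := ν)).measurable,
    max (∫ s, M s ∂ν) R, fun x => ?_, fun x hx => ?_⟩, i1, i2, i1.sub (i2.const_mul 2), e1, e2, ?_⟩
  · exact (norm_integral_le_of_norm_le (f := fun s => f s x) hM
      (Eventually.of_forall fun s => hb s x)).trans (le_max_left _ _)
  · simp only [fun s => h0 s x ((le_max_right _ _).trans hx), integral_zero]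
  · simp only [Y]
    rw [integral_sub i1 (i2.const_mul 2), integral_const_mul, e1, e2]

theorem DD_mono {f g : E m → ℝ} (hf : Adm f) (hg : Adm g) (h : ∀ x, f x ≤ g x) :
    F.DD f ≤ F.DD g := by
  exact integral_mono (F.FlatB_adm hf).2 (F.FlatB_adm hg).2 fun y =>
    mul_le_mul_of_nonneg_right (h _) (F.d_bd y).1

theorem DD_nonneg {f : E m → ℝ} (h : ∀ x, 0 ≤ f x) : 0 ≤ F.DD f := by
  exact integral_nonneg fun y => mul_nonneg (h _) (F.d_bd y).1

theorem DS_mono {Z Z' : Set (E m)} (h : Z ⊆ Z') : 0 ≤ F.DS Z ∧ F.DS Z ≤ F.DS Z' := by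
  exact ⟨integral_nonneg fun y => (F.d_bd y).1, setIntegral_mono_set F.integrable_d.integrableOn
    (Eventually.of_forall fun y => (F.d_bd y).1) (preimage_mono h).eventuallyLE⟩

theorem abs_DD_le {f : E m → ℝ} (hf : Measurable f) {M : ℝ} (hM : ∀ x, |f x| ≤ M) {Z : Set (E m)}
    (hZ : MeasurableSet Z) (h0 : ∀ x, x ∉ Z → f x = 0) : |F.DD f| ≤ M * F.DS Z := by
  have hZ' : MeasurableSet (F.x ⁻¹' Z) := F.FlatB_cx.measurable hZ
  rw [DS, ← integral_const_mul, ← integral_indicator hZ']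
  refine norm_integral_le_of_norm_le (f := fun y => f (F.x y) * F.d y)
    ((F.integrable_d.const_mul M).indicator hZ') (Eventually.of_forall fun y => ?_)
  by_cases hy : y ∈ F.x ⁻¹' Z
  · rw [indicator_of_mem hy, norm_mul, Real.norm_of_nonneg (F.d_bd y).1]
    exact mul_le_mul_of_nonneg_right (hM _) (F.d_bd y).1
  · rw [indicator_of_notMem hy, h0 _ hy, zero_mul, norm_zero]

theorem DS_le_DD {f : E m → ℝ} (hf : Adm f) (h0 : ∀ x, 0 ≤ f x) {t : ℝ} {Z : Set (E m)}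
    (hZ : MeasurableSet Z) (h : ∀ x ∈ Z, t ≤ f x) : t * F.DS Z ≤ F.DD f := by
  have hZ' : MeasurableSet (F.x ⁻¹' Z) := F.FlatB_cx.measurable hZ
  rw [DS, ← integral_const_mul, ← integral_indicator hZ']
  refine integral_mono ((F.integrable_d.const_mul t).indicator hZ') (F.FlatB_adm hf).2 fun y => ?_
  by_cases hy : y ∈ F.x ⁻¹' Z
  · rw [indicator_of_mem hy]
    exact mul_le_mul_of_nonneg_right (h _ hy) (F.d_bd y).1
  · rw [indicator_of_notMem hy]
    exact mul_nonneg (h0 _) (F.d_bd y).1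

theorem DS_union_le {Z Z' : Set (E m)} (hZ : MeasurableSet Z) (hZ' : MeasurableSet Z') :
    F.DS (Z ∪ Z') ≤ F.DS Z + F.DS Z' := by
  rw [DS, DS, DS, preimage_union,
    ← integral_add_measure F.integrable_d.restrict F.integrable_d.restrict]
  exact integral_mono_measure (Measure.restrict_union_le _ _)
    (Eventually.of_forall fun y => (F.d_bd y).1)
    (F.integrable_d.restrict.add_measure F.integrable_d.restrict)

/-- the cylinder is contained in the ball of radius `2 ρ` about `ι ξ` -/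
theorem mass_ball (ξ : E m) {ρ : ℝ} (hρ : F.τ ≤ ρ) :
    (F.μ (F.x ⁻¹' closedBall ξ ρ)).toReal ≤ A * 2 ^ m * ρ ^ m := by
  have h0 : 0 < ρ := F.τ_pos.trans_le hρ
  have h1 := F.mass.closedBall (F.ι ξ) (ρ := 2 * ρ) (by positivity)
  rw [mul_pow, ← mul_assoc] at h1
  refine le_trans (ENNReal.toReal_mono (measure_ne_top _ _) (measure_mono_ae ?_)) h1
  filter_upwards [F.ae] with y hy hx
  have h2 : ‖pr F.ι y - ξ‖ ≤ ρ := mem_closedBall_iff_norm.1 hx
  have h3 := (norm_pr_le F.ι (y - F.ι ξ)).2.2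
  rw [map_sub, pr_iota, vt_sub, vt_iota, sub_zero] at h3
  exact mem_closedBall_iff_norm.2 (by linarith [hy.2.1])

theorem mass_univ : (F.μ univ).toReal ≤ A * 20 ^ m := by
  have h1 := F.mass_ball 0 (ρ := 10) (by linarith [F.τ_le])
  rw [mul_assoc, ← mul_pow, show (2 : ℝ) * 10 = 20 by norm_num] at h1
  refine le_trans (ENNReal.toReal_mono (measure_ne_top _ _) (measure_mono_ae ?_)) h1
  filter_upwards [F.ae] with y hy _
  exact mem_closedBall_zero_iff.2 hy.1.le

theorem integral_rho_le (ξ : E m) {ρ : ℝ} (hρ : F.τ ≤ ρ) :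
    ∫ y, rho ρ (F.x y - ξ) ∂F.μ ≤ A * 2 ^ m / cg m := by
  have h0 : 0 < ρ := F.τ_pos.trans_le hρ
  have hc := cg_pos m
  have hZ : MeasurableSet (F.x ⁻¹' closedBall ξ ρ) := F.FlatB_cx.measurable measurableSet_closedBall
  have h1 : ∫ y, rho ρ (F.x y - ξ) ∂F.μ ≤
      ∫ y, (F.x ⁻¹' closedBall ξ ρ).indicator (fun _ => 1 / (cg m * ρ ^ m)) y ∂F.μ := by
    refine integral_mono_of_nonneg (Eventually.of_forall fun y => rho_nonneg h0 _)
      ((integrable_const _).indicator hZ) (Eventually.of_forall fun y => ?_)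
    beta_reduce
    by_cases hy : y ∈ F.x ⁻¹' closedBall ξ ρ
    · rw [indicator_of_mem hy]
      exact rho_le h0 _
    · rw [indicator_of_notMem hy,
        rho_eq_zero h0 (not_le.1 (mt mem_closedBall_iff_norm.2 hy)).le]
  rw [integral_indicator hZ, setIntegral_const, smul_eq_mul] at h1
  refine h1.trans ((mul_le_mul_of_nonneg_right (F.mass_ball ξ hρ) (by positivity)).trans_eq ?_)
  field_simp

/-- Fubini with a local bound -/
theorem integral_local {r : ℝ} (hr : F.τ ≤ r) {f : E N → ℝ} (hf : Measurable f)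
    (h0 : ∀ y, 0 ≤ f y) (hi : Integrable f F.μ) {Z : Set (E m)} (hZ : MeasurableSet Z) :
    ∫ y in F.x ⁻¹' Z, (∫ y' in F.x ⁻¹' closedBall (F.x y) r, f y' ∂F.μ) ∂F.μ ≤
      A * 2 ^ m * r ^ m * ∫ y in F.x ⁻¹' cthickening r Z, f y ∂F.μ := by
  have hx := F.FlatB_cx.measurable
  have hZ' : MeasurableSet (F.x ⁻¹' Z) := hx hZ
  have hW : MeasurableSet (F.x ⁻¹' cthickening r Z) := hx isClosed_cthickening.measurableSet
  set U : Set (E N × E N) := {q | F.x q.1 ∈ Z ∧ F.x q.2 ∈ closedBall (F.x q.1) r} with hU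
  have mU : MeasurableSet U := (measurable_fst hZ').inter (measurableSet_le
    ((hx.comp measurable_snd).dist (hx.comp measurable_fst)) measurable_const)
  have hI : Integrable (U.indicator fun q => f q.2) (F.μ.prod F.μ) :=
    (hi.comp_snd F.μ).indicator mU
  have h1 : ∀ y, (F.x ⁻¹' Z).indicator
      (fun y => ∫ y' in F.x ⁻¹' closedBall (F.x y) r, f y' ∂F.μ) y =
      ∫ y', U.indicator (fun q => f q.2) (y, y') ∂F.μ := fun y => by
    by_cases hy : y ∈ F.x ⁻¹' Z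
    · rw [indicator_of_mem hy, ← integral_indicator (hx measurableSet_closedBall)]
      refine integral_congr_ae (Eventually.of_forall fun y' => ?_)
      beta_reduce
      by_cases c : y' ∈ F.x ⁻¹' closedBall (F.x y) r
      · rw [indicator_of_mem c, indicator_of_mem (show (y, y') ∈ U from ⟨hy, c⟩)]
      · rw [indicator_of_notMem c, indicator_of_notMem (show (y, y') ∉ U from fun h => c h.2)]
    · rw [indicator_of_notMem hy]
      simp only [fun y' => indicator_of_notMem (show (y, y') ∉ U from fun h => hy h.1)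
        fun q : E N × E N => f q.2, integral_zero]
  rw [← integral_indicator hZ', ← integral_indicator hW]
  simp only [h1]
  rw [integral_integral_swap (f := fun y y' => U.indicator (fun q => f q.2) (y, y')) hI,
    ← integral_const_mul]
  refine integral_mono hI.integral_prod_right ((hi.indicator hW).const_mul _) fun y' => ?_
  beta_reduce
  by_cases c0 : y' ∈ F.x ⁻¹' cthickening r Z
  · have m1 : MeasurableSet (F.x ⁻¹' closedBall (F.x y') r) := hx measurableSet_closedBall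
    have h2 : ∫ y, U.indicator (fun q => f q.2) (y, y') ∂F.μ ≤
        ∫ y, (F.x ⁻¹' closedBall (F.x y') r).indicator (fun _ => f y') y ∂F.μ := by
      refine integral_mono_of_nonneg (ae_of_all _ fun y => indicator_nonneg (fun q _ => h0 _) _)
        ((integrable_const _).indicator m1) (Eventually.of_forall fun y => ?_)
      beta_reduce
      by_cases c : (y, y') ∈ U
      · have c' : y ∈ F.x ⁻¹' closedBall (F.x y') r := mem_closedBall_comm.1 c.2
        rw [indicator_of_mem c, indicator_of_mem c']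
      · rw [indicator_of_notMem c]
        exact indicator_nonneg (fun _ _ => h0 _) _
    rw [integral_indicator m1, setIntegral_const, smul_eq_mul] at h2
    rw [indicator_of_mem c0]
    exact h2.trans (mul_le_mul_of_nonneg_right (F.mass_ball _ hr) (h0 _))
  · rw [indicator_of_notMem c0, mul_zero]
    have h2 : ∀ y, (y, y') ∉ U := fun y h => c0 (mem_cthickening_of_dist_le _ _ _ _ h.1 h.2)
    simp only [fun y => indicator_of_notMem (h2 y) fun q : E N × E N => f q.2, integral_zero,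
      le_refl]

/-- Cauchy-Schwarz -/
theorem integral_sqrt_d {Z : Set (E N)} (hZ : MeasurableSet Z) :
    ∫ y in Z, √(F.d y) ∂F.μ ≤ √((F.μ Z).toReal * ∫ y in Z, F.d y ∂F.μ) := by
  have hm : Measurable F.d := F.measurable_all.2.2.2.2.1
  have he : ∀ y, √(F.d y) ^ 2 = F.d y := fun y => Real.sq_sqrt (F.d_bd y).1
  have h1 : Integrable (fun y => √(F.d y)) (F.μ.restrict Z) :=
    Integrable.of_bound hm.sqrt.aestronglyMeasurable √m (ae_of_all _ fun y => by
      rw [Real.norm_of_nonneg (Real.sqrt_nonneg _)]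
      exact Real.sqrt_le_sqrt (F.d_bd y).2)
  have h2 : Integrable (fun y => √(F.d y) ^ 2) (F.μ.restrict Z) := by
    simp only [he]
    exact F.integrable_d.restrict
  have h3 := FlatB_cs (F.μ.restrict Z) h1 h2
  simp only [he] at h3
  rw [Measure.restrict_apply_univ] at h3
  exact Real.le_sqrt_of_sq_le h3

/-- Caccioppoli: `fv_v` with `φ ^ 2` and the identity -/
theorem cacc {φ : E m → ℝ} (hφ : Test 1 φ (ball 0 10)) :
    F.DD (fun x => φ x ^ 2) ≤ 4 * ∫ y, ‖fderiv ℝ φ (F.x y)‖ ^ 2 * ‖F.z y‖ ^ 2 ∂F.μ := by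
  have hφ1 : ContDiff ℝ 1 φ := hφ.smooth
  have hsub : tsupport (fun x => φ x ^ 2) ⊆ tsupport φ :=
    closure_mono fun x hx h => hx (by simp [h])
  have hT : Test 1 (fun x => φ x ^ 2) (ball 0 10) :=
    ⟨hφ1.pow 2, hφ.cpt.isCompact.of_isClosed_subset (isClosed_tsupport _) hsub, hsub.trans hφ.supp⟩
  have h1 := F.fv_v hT (f := fun z => z) contDiff_id
  have e1 : ∀ y, ∑ l, ⟪F.b l y, fderiv ℝ (fun z : E N => z) (F.z y) (F.b l y)⟫ = F.d y :=
    fun y => Finset.sum_congr rfl fun l _ => by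
      rw [fderiv_fun_id, ContinuousLinearMap.id_apply, real_inner_self_eq_norm_sq]
      rfl
  simp only [e1] at h1
  have iD := (F.FlatB_adm (Adm.of_cpt hT.smooth.continuous hT.cpt)).2
  have iI : Integrable (fun y => ‖fderiv ℝ φ (F.x y)‖ ^ 2 * ‖F.z y‖ ^ 2) F.μ := by
    simpa using F.FlatB_smul (g := fun q => ‖fderiv ℝ φ q.1‖ ^ 2 * ‖q.2‖ ^ 2)
      ((((hφ1.continuous_fderiv one_ne_zero).comp continuous_fst).norm.pow 2).mul
        (continuous_snd.norm.pow 2)) (integrable_const 1)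
  have h2 : ‖∫ y, ⟪F.Bt y (gradient (fun x => φ x ^ 2) (F.x y)), F.z y⟫ ∂F.μ‖ ≤
      ∫ y, (1 / 2 * (φ (F.x y) ^ 2 * F.d y) + 2 * (‖fderiv ℝ φ (F.x y)‖ ^ 2 * ‖F.z y‖ ^ 2)) ∂F.μ := by
    refine norm_integral_le_of_norm_le ((iD.const_mul _).add (iI.const_mul _))
      (Eventually.of_forall fun y => ?_)
    have d1 : HasFDerivAt (fun x => φ x ^ 2) _ (F.x y) :=
      (hφ1.differentiable one_ne_zero (F.x y)).hasFDerivAt.pow 2
    have n1 : ‖gradient (fun x => φ x ^ 2) (F.x y)‖ = 2 * |φ (F.x y)| * ‖fderiv ℝ φ (F.x y)‖ := by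
      rw [gradient, LinearIsometryEquiv.norm_map, d1.fderiv, norm_smul]
      simp
    have b1 := (BF_bd F.ι (F.fr.orth y) (gradient (fun x => φ x ^ 2) (F.x y))).2.2.1
    rw [n1] at b1
    refine (norm_inner_le_norm _ _).trans ((mul_le_mul_of_nonneg_right b1 (norm_nonneg _)).trans ?_)
    have s1 : √(F.d y) ^ 2 = F.d y := Real.sq_sqrt (F.d_bd y).1
    have s2 := sq_nonneg (|φ (F.x y)| * √(F.d y) - 2 * (‖fderiv ℝ φ (F.x y)‖ * ‖F.z y‖))
    have s3 : (|φ (F.x y)| * √(F.d y)) ^ 2 = φ (F.x y) ^ 2 * F.d y := by rw [mul_pow, sq_abs, s1]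
    show √(F.d y) * (2 * |φ (F.x y)| * ‖fderiv ℝ φ (F.x y)‖) * ‖F.z y‖ ≤ _
    nlinarith
  rw [integral_add (iD.const_mul _) (iI.const_mul _), integral_const_mul, integral_const_mul] at h2
  have h3 := neg_le_abs (∫ y, ⟪F.Bt y (gradient (fun x => φ x ^ 2) (F.x y)), F.z y⟫ ∂F.μ)
  rw [Real.norm_eq_abs] at h2
  rw [DD]
  linarith

end Flat

end Pool.Agent.MP_f6c0e6_an.Gen

end

section

/-! The pair energy density. -/

set_option autoImplicit false

open MeasureTheory Filter Topology Set Metric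
open scoped ENNReal RealInnerProductSpace

namespace Pool.Agent.MP_f6c0e6_an.Gen

variable {m N : ℕ}

theorem PairA_q {g : ℝ} (hg : 0 < g) (z : E N) : 0 < g ^ 2 + ‖z‖ ^ 2 := by positivity

theorem PairA_c {g : ℝ} (hg : 0 < g) (z : E N) : 0 < g / √(g ^ 2 + ‖z‖ ^ 2) ∧
    g / √(g ^ 2 + ‖z‖ ^ 2) ≤ 1 ∧
    (g / √(g ^ 2 + ‖z‖ ^ 2)) ^ 2 = g ^ 2 / (g ^ 2 + ‖z‖ ^ 2) := by
  have hq := PairA_q hg z
  have hs : 0 < √(g ^ 2 + ‖z‖ ^ 2) := Real.sqrt_pos.2 hq
  refine ⟨div_pos hg hs, (div_le_one hs).2 (Real.le_sqrt_of_sq_le (by nlinarith only [sq_nonneg ‖z‖])),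
    ?_⟩
  rw [div_pow, Real.sq_sqrt hq.le]

theorem PairA_abs {g : ℝ} (hg : 0 < g) (z u v : E N) : |Ph2 g z u v| ≤ ‖u‖ * ‖v‖ := by
  have hq := PairA_q hg z
  obtain ⟨c0, c1, -⟩ := PairA_c hg z
  set q := g ^ 2 + ‖z‖ ^ 2 with hqd
  set a := ⟪z, v⟫ / q with ha
  have h1 : ⟪u, v⟫ - ⟪z, u⟫ * ⟪z, v⟫ / q = ⟪u, v - a • z⟫ := by
    rw [inner_sub_right, real_inner_smul_right, real_inner_comm z u, ha]
    ring
  have h2 : ‖v - a • z‖ ≤ ‖v‖ := by
    refine abs_le_of_sq_le_sq' ?_ (norm_nonneg _) |>.2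
    have h3 : ⟪z, v⟫ = a * q := by rw [ha]; field_simp
    rw [norm_sub_sq_real, real_inner_smul_right, norm_smul, mul_pow, Real.norm_eq_abs, sq_abs,
      real_inner_comm z v, h3]
    have h4 : ‖z‖ ^ 2 ≤ q := by rw [hqd]; nlinarith only [sq_nonneg g]
    nlinarith only [h4, hq, mul_le_mul_of_nonneg_left h4 (sq_nonneg a), mul_nonneg (sq_nonneg a) hq.le]
  have h5 : |⟪u, v - a • z⟫| ≤ ‖u‖ * ‖v‖ :=
    (abs_real_inner_le_norm _ _).trans (mul_le_mul_of_nonneg_left h2 (norm_nonneg _))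
  unfold Ph2
  rw [← hqd, h1, abs_mul, abs_of_pos c0]
  calc _ ≤ 1 * (‖u‖ * ‖v‖) := mul_le_mul c1 h5 (abs_nonneg _) zero_le_one
    _ = _ := one_mul _

theorem contDiff_Ph1 {g : ℝ} (hg : 0 < g) (n : ℕ) : ContDiff ℝ n (Ph1 g : E N → E N) := by
  have h1 : ContDiff ℝ n fun z : E N => g ^ 2 + ‖z‖ ^ 2 := contDiff_const.add (contDiff_norm_sq ℝ)
  have h2 : ContDiff ℝ n fun z : E N => √(g ^ 2 + ‖z‖ ^ 2) :=
    h1.sqrt fun z => (PairA_q hg z).ne'
  exact (contDiff_const.div h2 fun z => (Real.sqrt_pos.2 (PairA_q hg z)).ne').smul contDiff_id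

theorem inner_fderiv_Ph1 {g : ℝ} (hg : 0 < g) (z u v : E N) :
    ⟪u, fderiv ℝ (Ph1 g) z v⟫ = Ph2 g z u v := by
  have hq := PairA_q hg z
  have hs : 0 < √(g ^ 2 + ‖z‖ ^ 2) := Real.sqrt_pos.2 hq
  have h1 : HasFDerivAt (fun z : E N => g ^ 2 + ‖z‖ ^ 2) (2 • innerSL ℝ z) z :=
    (hasStrictFDerivAt_norm_sq z).hasFDerivAt.const_add _
  have h2 := ((Real.hasDerivAt_sqrt hq.ne').inv hs.ne').const_mul g
  have h3 := (h2.comp_hasFDerivAt z h1).smul (hasFDerivAt_id z)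
  have h4 : fderiv ℝ (Ph1 g) z = _ := h3.fderiv
  rw [h4]
  simp only [Function.comp, Pi.inv_apply, id, add_apply, smul_apply, ContinuousLinearMap.id_apply,
    ContinuousLinearMap.smulRight_apply, innerSL_apply_apply, inner_add_right,
    real_inner_smul_right, smul_eq_mul, nsmul_eq_mul, Nat.cast_ofNat, Ph2, real_inner_comm z u]
  rw [Real.sq_sqrt hq.le]
  field_simp
  ring

theorem Ph1_bd {g : ℝ} (hg : 0 < g) :
    (∀ z : E N, ‖Ph1 g z‖ ≤ g) ∧ Lip 1 (Ph1 g : E N → E N) ∧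
      ∀ z : E N, Ph1 g (-z) = -Ph1 g z := by
  refine ⟨fun z => ?_, fun x x' => ?_, fun z => ?_⟩
  · have hq := PairA_q hg z
    have hs : 0 < √(g ^ 2 + ‖z‖ ^ 2) := Real.sqrt_pos.2 hq
    have h1 : ‖z‖ ≤ √(g ^ 2 + ‖z‖ ^ 2) := Real.le_sqrt_of_sq_le (by nlinarith only [sq_nonneg g])
    rw [Ph1, norm_smul, Real.norm_eq_abs, abs_of_pos (div_pos hg hs), div_mul_eq_mul_div,
      div_le_iff₀ hs]
    exact mul_le_mul_of_nonneg_left h1 hg.le
  · refine Convex.norm_image_sub_le_of_norm_fderiv_le (𝕜 := ℝ) (s := univ)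
      (fun z _ => (contDiff_Ph1 hg 1).differentiable (by simp) z) (fun z _ => ?_) convex_univ
      (mem_univ _) (mem_univ _)
    refine ContinuousLinearMap.opNorm_le_bound _ zero_le_one fun v => ?_
    have h1 := inner_fderiv_Ph1 hg z (fderiv ℝ (Ph1 g) z v) v
    have h2 := (le_abs_self _).trans (PairA_abs hg z (fderiv ℝ (Ph1 g) z v) v)
    rw [← h1, real_inner_self_eq_norm_sq] at h2
    rcases (norm_nonneg (fderiv ℝ (Ph1 g) z v)).eq_or_lt with h | h
    · rw [← h]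
      positivity
    · rw [sq] at h2
      rw [one_mul]
      exact le_of_mul_le_mul_left h2 h
  · rw [Ph1, Ph1, norm_neg, smul_neg]

theorem Ph2_symm (g : ℝ) (z u v : E N) : Ph2 g z u v = Ph2 g z v u ∧
    Ph2 g (-z) u v = Ph2 g z u v := by
  constructor
  · unfold Ph2
    rw [real_inner_comm u v]
    ring
  · unfold Ph2
    rw [norm_neg, inner_neg_left, inner_neg_left]
    ring

theorem Ph2_add (g : ℝ) (z u u' v : E N) (t : ℝ) :
    Ph2 g z (u + u') v = Ph2 g z u v + Ph2 g z u' v ∧ Ph2 g z (t • u) v = t * Ph2 g z u v := by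
  constructor
  · unfold Ph2
    rw [inner_add_left, inner_add_right]
    ring
  · unfold Ph2
    rw [real_inner_smul_left, real_inner_smul_right]
    ring

theorem Ph2_smul {t : ℝ} (ht : 0 < t) (g : ℝ) (z u v : E N) :
    Ph2 (t * g) (t • z) u v = Ph2 g z u v := by
  have h1 : (t * g) ^ 2 + ‖t • z‖ ^ 2 = t ^ 2 * (g ^ 2 + ‖z‖ ^ 2) := by
    rw [norm_smul, Real.norm_eq_abs, mul_pow, mul_pow, sq_abs]
    ring
  unfold Ph2
  rw [h1, Real.sqrt_mul (sq_nonneg t), Real.sqrt_sq ht.le, mul_div_mul_left _ _ ht.ne',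
    real_inner_smul_left, real_inner_smul_left,
    show t * ⟪z, u⟫ * (t * ⟪z, v⟫) = t ^ 2 * (⟪z, u⟫ * ⟪z, v⟫) by ring,
    mul_div_mul_left _ _ (pow_pos ht 2).ne']

/-- the least eigenvalue is `g ^ 3 / (g ^ 2 + |z| ^ 2) ^ (3 / 2)` -/
theorem Ph2_bd {g : ℝ} (hg : 0 < g) (z u v : E N) : 0 ≤ Ph2 g z u u ∧ Ph2 g z u u ≤ ‖u‖ ^ 2 ∧
    |Ph2 g z u v| ≤ ‖u‖ * ‖v‖ ∧ (‖z‖ ≤ g → ‖u‖ ^ 2 / 3 ≤ Ph2 g z u u) := by
  have hq := PairA_q hg z
  obtain ⟨c0, c1, c2⟩ := PairA_c hg z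
  have hlo : (g / √(g ^ 2 + ‖z‖ ^ 2)) ^ 3 * ‖u‖ ^ 2 ≤ Ph2 g z u u := by
    have h1 : ⟪z, u⟫ * ⟪z, u⟫ ≤ ‖z‖ ^ 2 * ‖u‖ ^ 2 := by
      have h := abs_real_inner_le_norm z u
      rw [← mul_pow, ← sq, ← sq_abs]
      exact pow_le_pow_left₀ (abs_nonneg _) h 2
    have h2 : g ^ 2 / (g ^ 2 + ‖z‖ ^ 2) * ‖u‖ ^ 2 ≤
        ⟪u, u⟫ - ⟪z, u⟫ * ⟪z, u⟫ / (g ^ 2 + ‖z‖ ^ 2) := by
      rw [real_inner_self_eq_norm_sq, div_mul_eq_mul_div, le_sub_iff_add_le, ← add_div,
        div_le_iff₀ hq]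
      linarith
    unfold Ph2
    rw [pow_succ', c2, mul_assoc]
    exact mul_le_mul_of_nonneg_left h2 c0.le
  refine ⟨le_trans (by positivity) hlo, ?_, PairA_abs hg z u v, fun hz => le_trans ?_ hlo⟩
  · rw [sq]
    exact (le_abs_self _).trans (PairA_abs hg z u u)
  · have h1 : 1 / 2 ≤ (g / √(g ^ 2 + ‖z‖ ^ 2)) ^ 2 := by
      rw [c2, le_div_iff₀ hq]
      nlinarith only [hg, hz, norm_nonneg z]
    have h2 : 2 / 3 ≤ g / √(g ^ 2 + ‖z‖ ^ 2) := by
      by_contra h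
      nlinarith only [c0, h1, h]
    have h3 : 1 / 3 ≤ (g / √(g ^ 2 + ‖z‖ ^ 2)) ^ 3 := by
      rw [pow_succ']
      nlinarith only [h1, h2]
    nlinarith only [h3, mul_le_mul_of_nonneg_right h3 (sq_nonneg ‖u‖)]

/-- the Hessian as a bilinear map -/
noncomputable def PairA_H (g : ℝ) (z : E N) : E N →ₗ[ℝ] E N →ₗ[ℝ] ℝ :=
  LinearMap.mk₂ ℝ (Ph2 g z) (fun u u' v => (Ph2_add g z u u' v 0).1)
    (fun t u v => (Ph2_add g z u u v t).2)
    (fun u v v' => by
      rw [(Ph2_symm g z u _).1, (Ph2_add g z v v' u 0).1, (Ph2_symm g z u v).1,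
        (Ph2_symm g z u v').1])
    (fun t u v => by
      rw [(Ph2_symm g z u _).1, (Ph2_add g z v v u t).2, (Ph2_symm g z u v).1, smul_eq_mul])

theorem PairA_H_apply (g : ℝ) (z u v : E N) : PairA_H g z u v = Ph2 g z u v := rfl

theorem PairA_gram {k : ℕ} (B : E N →ₗ[ℝ] E N →ₗ[ℝ] ℝ) (a a' : Fin m → E k)
    (b b' : Fin m → E N) :
    ∑ i, B (∑ l, ⟪a l, ev i⟫ • b l) (∑ l, ⟪a' l, ev i⟫ • b' l) =
      ∑ l, ∑ l', ⟪a l, a' l'⟫ * B (b l) (b' l') := by
  simp only [map_sum, map_smul, LinearMap.sum_apply, LinearMap.smul_apply, smul_eq_mul,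
    Finset.mul_sum]
  rw [Finset.sum_comm, Finset.sum_comm (f := fun l l' => ⟪a l, a' l'⟫ * B (b l) (b' l'))]
  refine Finset.sum_congr rfl fun l' _ => ?_
  rw [Finset.sum_comm]
  refine Finset.sum_congr rfl fun l _ => ?_
  rw [← sum_inner_ev (a l) (a' l'), Finset.sum_mul]
  refine Finset.sum_congr rfl fun i _ => ?_
  rw [real_inner_comm (a l), real_inner_comm (a' l')]
  ring

theorem peh_eq (ι : E m →ₗᵢ[ℝ] E N) (g : ℝ) (z : E N) (s s' : Fin m → E N) :
    peh ι g z s s' = ∑ l, Ph2 g z (vt ι (s l)) (vt ι (s l)) -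
      ∑ i, Ph2 g z (BF ι s (ev i)) (BF ι s' (ev i)) := by
  have h := PairA_gram (PairA_H g z) (fun l => pr ι (s l)) (fun l => pr ι (s' l))
    (fun l => vt ι (s l)) (fun l => vt ι (s' l))
  simp only [PairA_H_apply] at h
  unfold peh BF
  rw [h]

theorem PairA_self (ι : E m →ₗᵢ[ℝ] E N) (g : ℝ) (z : E N) {s : Fin m → E N}
    (hs : Orthonormal ℝ s) : peh ι g z s s = ∑ α : Fin N,
      Ph2 g z (∑ l, ⟪vt ι (s l), ev α⟫ • vt ι (s l)) (∑ l, ⟪vt ι (s l), ev α⟫ • vt ι (s l)) := by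
  have h := PairA_gram (PairA_H g z) (fun l => vt ι (s l)) (fun l => vt ι (s l))
    (fun l => vt ι (s l)) (fun l => vt ι (s l))
  simp only [PairA_H_apply] at h
  rw [h, peh, ← Finset.sum_sub_distrib]
  refine Finset.sum_congr rfl fun l _ => ?_
  rw [sub_eq_iff_eq_add, ← Finset.sum_add_distrib]
  have h1 : ∀ l', ⟪vt ι (s l), vt ι (s l')⟫ * Ph2 g z (vt ι (s l)) (vt ι (s l')) +
      ⟪pr ι (s l), pr ι (s l')⟫ * Ph2 g z (vt ι (s l)) (vt ι (s l')) =
      if l = l' then Ph2 g z (vt ι (s l)) (vt ι (s l')) else 0 := fun l' => by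
    rw [← add_mul, add_comm, ← (inner_vt ι _ _).2, orthonormal_iff_ite.1 hs]
    split_ifs <;> simp
  simp only [h1, Finset.sum_ite_eq, Finset.mem_univ, if_true]

theorem PairA_self_bd (ι : E m →ₗᵢ[ℝ] E N) {g : ℝ} (hg : 0 < g) (z : E N) {s : Fin m → E N}
    (hs : Orthonormal ℝ s) :
    0 ≤ peh ι g z s s ∧ (‖z‖ ≤ g → tlt ι s ^ 2 ≤ 3 * m * peh ι g z s s) := by
  rw [PairA_self ι g z hs]
  refine ⟨Finset.sum_nonneg fun α _ => (Ph2_bd hg z _ 0).1, fun hz => ?_⟩
  have h := PairA_gram (innerₗ (E N)) (fun l => vt ι (s l)) (fun l => vt ι (s l))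
    (fun l => vt ι (s l)) (fun l => vt ι (s l))
  simp only [innerₗ_apply_apply] at h
  have h1 : ∑ l, (‖vt ι (s l)‖ ^ 2) ^ 2 ≤
      ∑ l, ∑ l', ⟪vt ι (s l), vt ι (s l')⟫ * ⟪vt ι (s l), vt ι (s l')⟫ := by
    refine Finset.sum_le_sum fun l _ => ?_
    have h2 := Finset.single_le_sum
      (f := fun l' => ⟪vt ι (s l), vt ι (s l')⟫ * ⟪vt ι (s l), vt ι (s l')⟫)
      (fun l' _ => mul_self_nonneg _) (Finset.mem_univ l)
    simp only [real_inner_self_eq_norm_sq] at h2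
    rwa [sq]
  have h3 : tlt ι s ^ 2 ≤ m * ∑ l, (‖vt ι (s l)‖ ^ 2) ^ 2 := by
    have h4 := sq_sum_le_card_mul_sum_sq (s := Finset.univ) (f := fun l => ‖vt ι (s l)‖ ^ 2)
    rw [Finset.card_univ, Fintype.card_fin] at h4
    exact h4
  have h5 : ∑ α : Fin N, ⟪∑ l, ⟪vt ι (s l), ev α⟫ • vt ι (s l),
      ∑ l, ⟪vt ι (s l), ev α⟫ • vt ι (s l)⟫ ≤ 3 * ∑ α : Fin N,
      Ph2 g z (∑ l, ⟪vt ι (s l), ev α⟫ • vt ι (s l)) (∑ l, ⟪vt ι (s l), ev α⟫ • vt ι (s l)) := by
    rw [Finset.mul_sum]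
    refine Finset.sum_le_sum fun α _ => ?_
    have h6 := (Ph2_bd hg z (∑ l, ⟪vt ι (s l), ev α⟫ • vt ι (s l)) 0).2.2.2 hz
    rw [real_inner_self_eq_norm_sq]
    linarith only [h6]
  rw [h] at h5
  calc _ ≤ _ := h3
    _ ≤ m * (3 * _) := mul_le_mul_of_nonneg_left (h1.trans h5) (Nat.cast_nonneg m)
    _ = _ := by ring

theorem PairA_split (ι : E m →ₗᵢ[ℝ] E N) (g : ℝ) (z : E N) (s s' : Fin m → E N) :
    peh ι g z s s' + peh ι g z s' s = peh ι g z s s + peh ι g z s' s' +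
      ∑ i, Ph2 g z (BF ι s (ev i) - BF ι s' (ev i)) (BF ι s (ev i) - BF ι s' (ev i)) := by
  simp only [peh_eq, ← PairA_H_apply, map_sub, LinearMap.sub_apply, Finset.sum_sub_distrib]
  ring

theorem PairA_half (ι : E m →ₗᵢ[ℝ] E N) {g : ℝ} (hg : 0 < g) (z : E N) {s s' : Fin m → E N}
    (hs : Orthonormal ℝ s) (hs' : Orthonormal ℝ s') :
    peh ι g z s s' ≤ tlt ι s + (tlt ι s + tlt ι s') / 2 := by
  rw [peh_eq]
  have h1 : ∑ l, Ph2 g z (vt ι (s l)) (vt ι (s l)) ≤ tlt ι s :=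
    Finset.sum_le_sum fun l _ => (Ph2_bd hg z _ 0).2.1
  have h2 : ∑ i, -Ph2 g z (BF ι s (ev i)) (BF ι s' (ev i)) ≤
      ∑ i, (‖BF ι s (ev i)‖ ^ 2 + ‖BF ι s' (ev i)‖ ^ 2) / 2 :=
    Finset.sum_le_sum fun i _ => by
      have h3 := (neg_le_abs _).trans (PairA_abs hg z (BF ι s (ev i)) (BF ι s' (ev i)))
      nlinarith only [h3, sq_nonneg (‖BF ι s (ev i)‖ - ‖BF ι s' (ev i)‖)]
  rw [Finset.sum_neg_distrib, ← Finset.sum_div, Finset.sum_add_distrib] at h2
  have h4 := (BF_bd ι hs 0).2.2.2.1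
  have h5 := (BF_bd ι hs' 0).2.2.2.1
  linarith

/-- With `H = Ph2 g z`, the sum of the two halves is `∑ i, H (B e_i - B' e_i, B e_i - B' e_i)` plus
`∑ l l', ⟪b_l, b_l'⟫ H (b_l, b_l')` plus the same for the second frame. The last two sums are traces
of products of two positive matrices; if `H ≥ λ` they are at least `λ ∑ ⟪b_l, b_l'⟫² ≥ λ d² / m`
(diagonalise the Gram matrix, or write `∑ l l', ⟪b_l, b_l'⟫ H (b_l, b_l') = ∑ α, H (c_α, c_α)` with
`c_α = ∑ l, b_l α • b_l`). -/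
theorem peh_bd (ι : E m →ₗᵢ[ℝ] E N) {g : ℝ} (hg : 0 < g) (z : E N) {s s' : Fin m → E N}
    (hs : Orthonormal ℝ s) (hs' : Orthonormal ℝ s') :
    0 ≤ peh ι g z s s' + peh ι g z s' s ∧
    peh ι g z s s' + peh ι g z s' s ≤ 3 * (tlt ι s + tlt ι s') ∧
    (‖z‖ ≤ g → ∑ i, ‖BF ι s (ev i) - BF ι s' (ev i)‖ ^ 2 ≤ 3 * (peh ι g z s s' + peh ι g z s' s) ∧
      tlt ι s ^ 2 + tlt ι s' ^ 2 ≤ 3 * m * (peh ι g z s s' + peh ι g z s' s)) := by
  obtain ⟨a0, a1⟩ := PairA_self_bd ι hg z hs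
  obtain ⟨b0, b1⟩ := PairA_self_bd ι hg z hs'
  have h1 := PairA_half ι hg z hs hs'
  have h2 := PairA_half ι hg z hs' hs
  have h3 := (tlt_bd ι hs).1
  have h4 := (tlt_bd ι hs').1
  have h5 : 0 ≤ ∑ i, Ph2 g z (BF ι s (ev i) - BF ι s' (ev i)) (BF ι s (ev i) - BF ι s' (ev i)) :=
    Finset.sum_nonneg fun i _ => (Ph2_bd hg z _ 0).1
  have h6 := PairA_split ι g z s s'
  refine ⟨by linarith, by linarith, fun hz => ⟨?_, ?_⟩⟩
  · have h7 : ∑ i, ‖BF ι s (ev i) - BF ι s' (ev i)‖ ^ 2 ≤ 3 *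
        ∑ i, Ph2 g z (BF ι s (ev i) - BF ι s' (ev i)) (BF ι s (ev i) - BF ι s' (ev i)) := by
      rw [Finset.mul_sum]
      refine Finset.sum_le_sum fun i _ => ?_
      have h8 := (Ph2_bd hg z (BF ι s (ev i) - BF ι s' (ev i)) 0).2.2.2 hz
      linarith
    linarith
  · have h7 := mul_nonneg (Nat.cast_nonneg (α := ℝ) m) h5
    have h8 := a1 hz
    have h9 := b1 hz
    rw [h6]
    linarith

theorem PairA_mPh2 {X : Type} [MeasurableSpace X] (g : ℝ) {z u v : X → E N} (hz : Measurable z)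
    (hu : Measurable u) (hv : Measurable v) : Measurable fun x => Ph2 g (z x) (u x) (v x) := by
  have h1 : Measurable fun x => g ^ 2 + ‖z x‖ ^ 2 := measurable_const.add (hz.norm.pow_const 2)
  exact (measurable_const.div h1.sqrt).mul
    ((hu.inner hv).sub (((hz.inner hu).mul (hz.inner hv)).div h1))

theorem PairA_mpeh {X : Type} [MeasurableSpace X] (ι : E m →ₗᵢ[ℝ] E N) (g : ℝ) {z : X → E N}
    {s s' : X → Fin m → E N} (hz : Measurable z) (hs : ∀ l, Measurable fun x => s x l)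
    (hs' : ∀ l, Measurable fun x => s' x l) :
    Measurable fun x => peh ι g (z x) (s x) (s' x) := by
  have hv : Measurable (vt ι) := (contDiff_vt ι 0).continuous.measurable
  have hp : Measurable (pr ι) := (pr ι).continuous.measurable
  refine (Finset.measurable_sum _ fun l _ =>
    PairA_mPh2 g hz (hv.comp (hs l)) (hv.comp (hs l))).sub
    (Finset.measurable_sum _ fun l _ => Finset.measurable_sum _ fun l' _ => ?_)
  exact ((hp.comp (hs l)).inner (hp.comp (hs' l'))).mul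
    (PairA_mPh2 g hz (hv.comp (hs l)) (hv.comp (hs' l')))

theorem measurable_pe (fr : Fr m N) (ι : E m →ₗᵢ[ℝ] E N) (g : ℝ) :
    Measurable fun q : E N × E N => pe fr ι g q.1 q.2 := by
  have hv : Measurable fun q : E N × E N => vt ι (q.1 - q.2) :=
    (contDiff_vt ι 0).continuous.measurable.comp (measurable_fst.sub measurable_snd)
  have h1 : ∀ l, Measurable fun q : E N × E N => fr.s l q.1 := fun l =>
    (fr.meas l).comp measurable_fst
  have h2 : ∀ l, Measurable fun q : E N × E N => fr.s l q.2 := fun l =>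
    (fr.meas l).comp measurable_snd
  exact (PairA_mpeh ι g hv h1 h2).add (PairA_mpeh ι g hv h2 h1)

theorem pe_bd (fr : Fr m N) (ι : E m →ₗᵢ[ℝ] E N) {g : ℝ} (hg : 0 < g) (y y' : E N) :
    0 ≤ pe fr ι g y y' ∧ pe fr ι g y y' ≤ 6 * m := by
  obtain ⟨h1, h2, -⟩ := peh_bd ι hg (vt ι (y - y')) (fr.orth y) (fr.orth y')
  have h3 := (tlt_bd ι (fr.orth y)).2
  have h4 := (tlt_bd ι (fr.orth y')).2
  exact ⟨h1, h2.trans (by linarith)⟩

theorem PairA_ker (fr : Fr m N) (ι : E m →ₗᵢ[ℝ] E N) {g r : ℝ} (hg : 0 < g) (hr : 0 < r) :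
    (Measurable fun q : E N × E N => rho r (pr ι (q.1 - q.2)) * pe fr ι g q.1 q.2) ∧
    ∀ y y', 0 ≤ rho r (pr ι (y - y')) * pe fr ι g y y' ∧
      rho r (pr ι (y - y')) * pe fr ι g y y' ≤ 1 / (cg m * r ^ m) * (6 * m) := by
  refine ⟨Measurable.mul ((contDiff_rho r).continuous.measurable.comp
    ((pr ι).continuous.measurable.comp (measurable_fst.sub measurable_snd))) (measurable_pe fr ι g),
    fun y y' => ?_⟩
  obtain ⟨h1, h2⟩ := pe_bd fr ι hg y y'
  exact ⟨mul_nonneg (rho_nonneg hr _) h1,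
    mul_le_mul (rho_le hr _) h2 h1 ((rho_nonneg hr (0 : E m)).trans (rho_le hr _))⟩

/-- the inner integral -/
noncomputable def PairA_L (fr : Fr m N) (μ : Measure (E N)) (ι : E m →ₗᵢ[ℝ] E N) (g r : ℝ)
    (y : E N) : ℝ := ∫ y', rho r (pr ι (y - y')) * pe fr ι g y y' ∂μ

theorem PairA_PR (fr : Fr m N) (μ : Measure (E N)) (ι : E m →ₗᵢ[ℝ] E N) (g r : ℝ)
    (ω : E N → ℝ) : PR fr μ ι g r ω = ∫ y, ω y * PairA_L fr μ ι g r y ∂μ := by
  unfold PR PairA_L
  simp only [mul_assoc, integral_const_mul]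

theorem PairA_int (fr : Fr m N) (μ : Measure (E N)) [IsFiniteMeasure μ] (ι : E m →ₗᵢ[ℝ] E N)
    {g r : ℝ} (hg : 0 < g) (hr : 0 < r) (y : E N) :
    Integrable (fun y' => rho r (pr ι (y - y')) * pe fr ι g y y') μ := by
  obtain ⟨h1, h2⟩ := PairA_ker fr ι hg hr
  refine Integrable.of_bound (h1.comp measurable_prodMk_left).aestronglyMeasurable
    (1 / (cg m * r ^ m) * (6 * m)) (Eventually.of_forall fun y' => ?_)
  rw [Real.norm_of_nonneg (h2 y y').1]
  exact (h2 y y').2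

theorem PairA_L_bd (fr : Fr m N) (μ : Measure (E N)) [IsFiniteMeasure μ] (ι : E m →ₗᵢ[ℝ] E N)
    {g r : ℝ} (hg : 0 < g) (hr : 0 < r) : Measurable (PairA_L fr μ ι g r) ∧
    (∀ y, 0 ≤ PairA_L fr μ ι g r y) ∧ ∃ C, ∀ y, ‖PairA_L fr μ ι g r y‖ ≤ C := by
  obtain ⟨h1, h2⟩ := PairA_ker fr ι hg hr
  refine ⟨(h1.stronglyMeasurable.integral_prod_right' (ν := μ)).measurable,
    fun y => integral_nonneg fun y' => (h2 y y').1,
    1 / (cg m * r ^ m) * (6 * m) * μ.real univ, fun y => ?_⟩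
  refine norm_integral_le_of_norm_le_const (Eventually.of_forall fun y' => ?_)
  rw [Real.norm_of_nonneg (h2 y y').1]
  exact (h2 y y').2

theorem PairA_L_int (fr : Fr m N) (μ : Measure (E N)) [IsFiniteMeasure μ] (ι : E m →ₗᵢ[ℝ] E N)
    {g r : ℝ} (hg : 0 < g) (hr : 0 < r) {ν : Measure (E N)} {ω : E N → ℝ} (hω : Integrable ω ν) :
    Integrable (fun y => ω y * PairA_L fr μ ι g r y) ν := by
  obtain ⟨h1, -, C, hC⟩ := PairA_L_bd fr μ ι hg hr
  exact hω.mul_bdd h1.aestronglyMeasurable (Eventually.of_forall hC)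

theorem integrable_PR (fr : Fr m N) (μ : Measure (E N)) [IsFiniteMeasure μ] (ι : E m →ₗᵢ[ℝ] E N)
    {g r : ℝ} (hg : 0 < g) (hr : 0 < r) {ω : E N → ℝ} (hω : Integrable ω μ) :
    Integrable (fun q : E N × E N => ω q.1 * rho r (pr ι (q.1 - q.2)) * pe fr ι g q.1 q.2)
      (μ.prod μ) := by
  obtain ⟨h1, h2⟩ := PairA_ker fr ι hg hr
  simp only [mul_assoc]
  refine (hω.comp_fst μ).mul_bdd h1.aestronglyMeasurable
    (c := 1 / (cg m * r ^ m) * (6 * m)) (Eventually.of_forall fun q => ?_)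
  rw [Real.norm_of_nonneg (h2 q.1 q.2).1]
  exact (h2 q.1 q.2).2

theorem PR_mono (fr : Fr m N) {μ ν : Measure (E N)} [IsFiniteMeasure ν] (hle : μ ≤ ν)
    (ι : E m →ₗᵢ[ℝ] E N) {g r : ℝ} (hg : 0 < g) (hr : 0 < r) {ω ω' : E N → ℝ}
    (hω : Integrable ω ν) (hω' : Integrable ω' ν) (h0 : ∀ᵐ y ∂ν, 0 ≤ ω' y)
    (h : ∀ᵐ y ∂μ, ω y ≤ ω' y) : PR fr μ ι g r ω ≤ PR fr ν ι g r ω' := by
  have : IsFiniteMeasure μ := isFiniteMeasure_of_le ν hle
  have hac : μ ≪ ν := Measure.absolutelyContinuous_of_le hle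
  have hμ := (PairA_L_bd fr μ ι hg hr).2.1
  have hν := (PairA_L_bd fr ν ι hg hr).2.1
  have hL : ∀ y, PairA_L fr μ ι g r y ≤ PairA_L fr ν ι g r y := fun y =>
    integral_mono_measure hle (Eventually.of_forall fun y' => ((PairA_ker fr ι hg hr).2 y y').1)
      (PairA_int fr ν ι hg hr y)
  rw [PairA_PR, PairA_PR]
  calc _ ≤ ∫ y, ω' y * PairA_L fr ν ι g r y ∂μ := by
        refine integral_mono_ae (PairA_L_int fr μ ι hg hr (hω.mono_measure hle))
          (PairA_L_int fr ν ι hg hr (hω'.mono_measure hle)) ?_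
        filter_upwards [h, hac.ae_le h0] with y h1 h2
        exact (mul_le_mul_of_nonneg_right h1 (hμ y)).trans (mul_le_mul_of_nonneg_left (hL y) h2)
    _ ≤ _ := by
        refine integral_mono_measure hle ?_ (PairA_L_int fr ν ι hg hr hω')
        filter_upwards [h0] with y h1
        exact mul_nonneg h1 (hν y)

theorem PR_sum (fr : Fr m N) (μ : Measure (E N)) [IsFiniteMeasure μ] (ι : E m →ₗᵢ[ℝ] E N)
    {g r : ℝ} (hg : 0 < g) (hr : 0 < r) {I : Type} (J : Finset I) (c : I → ℝ) {ω : I → E N → ℝ}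
    (hω : ∀ j ∈ J, Integrable (ω j) μ) :
    PR fr μ ι g r (fun y => ∑ j ∈ J, c j * ω j y) = ∑ j ∈ J, c j * PR fr μ ι g r (ω j) := by
  simp only [PairA_PR, Finset.sum_mul, mul_assoc]
  rw [integral_finsetSum J fun j hj => (PairA_L_int fr μ ι hg hr (hω j hj)).const_mul (c j)]
  simp only [integral_const_mul]

theorem PairA_scl (μ : Measure (E N)) (y₀ : E N) {t : ℝ} (ht : 0 < t) (f : E N → ℝ) :
    ∫ y, f y ∂scl m μ y₀ t = (t ^ m)⁻¹ * ∫ y, f (t⁻¹ • (y - y₀)) ∂μ := by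
  have h : MeasurableEmbedding fun y : E N => t⁻¹ • (y - y₀) :=
    ((Homeomorph.subRight y₀).trans
      (Homeomorph.smulOfNeZero t⁻¹ (inv_pos.2 ht).ne')).measurableEmbedding
  rw [scl, integral_smul_measure, h.integral_map, ENNReal.toReal_ofReal (by positivity),
    smul_eq_mul]

theorem PairA_pe_scl (fr : Fr m N) (ι : E m →ₗᵢ[ℝ] E N) (y₀ : E N) {t : ℝ} (ht : 0 < t) (g r : ℝ)
    (y y' : E N) :
    rho r (pr ι (t⁻¹ • (y - y₀) - t⁻¹ • (y' - y₀))) *
        pe (fr.scl y₀ t) ι g (t⁻¹ • (y - y₀)) (t⁻¹ • (y' - y₀)) =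
      t ^ m * (rho (t * r) (pr ι (y - y')) * pe fr ι (t * g) y y') := by
  have h1 : ∀ w : E N, y₀ + t • t⁻¹ • (w - y₀) = w := fun w => by
    rw [smul_inv_smul₀ ht.ne', add_sub_cancel]
  have h2 : y - y' = t • (t⁻¹ • (y - y₀) - t⁻¹ • (y' - y₀)) := by
    rw [smul_sub, smul_inv_smul₀ ht.ne', smul_inv_smul₀ ht.ne', sub_sub_sub_cancel_right]
  have h3 : pe fr ι (t * g) y y' = pe (fr.scl y₀ t) ι g (t⁻¹ • (y - y₀)) (t⁻¹ • (y' - y₀)) := by
    unfold pe peh
    simp only [Fr.scl, h1]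
    rw [h2, vt_smul]
    simp only [Ph2_smul ht]
  rw [h3]
  conv_rhs => rw [h2, map_smul, rho_smul ht]
  field_simp

/-- scaling -/
theorem PR_scl (fr : Fr m N) (μ : Measure (E N)) [IsFiniteMeasure μ] (ι : E m →ₗᵢ[ℝ] E N)
    (y₀ : E N) {t g r : ℝ} (ht : 0 < t) (ω : E N → ℝ) :
    PR (fr.scl y₀ t) (scl m μ y₀ t) ι g r ω =
      (t ^ m)⁻¹ * PR fr μ ι (t * g) (t * r) fun y => ω (t⁻¹ • (y - y₀)) := by
  rw [PairA_PR, PairA_PR, PairA_scl μ y₀ ht]
  congr 1
  refine integral_congr_ae (Eventually.of_forall fun y => ?_)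
  simp only [PairA_L]
  rw [PairA_scl μ y₀ ht]
  simp only [PairA_pe_scl fr ι y₀ ht, integral_const_mul]
  rw [inv_mul_cancel_left₀ (pow_pos ht m).ne']

namespace Flat

variable {Q : ℕ} {A : ℝ} (F : Flat m N Q A)

/-- the local pair energy at the point `y` -/
noncomputable def lpe (g r : ℝ) (y : E N) : ℝ :=
  ∫ y', rho r (F.x y' - F.x y) * pe F.fr F.ι g y y' ∂F.μ

theorem PairA_lpe (g r : ℝ) : F.lpe g r = PairA_L F.fr F.μ F.ι g r := by
  funext y
  unfold lpe PairA_L x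
  simp only [map_sub, ← rho_neg r (pr F.ι y - _), neg_sub]

theorem lpe_bd {g r : ℝ} (hg : 0 < g) (hr : 0 < r) :
    Measurable (F.lpe g r) ∧ Integrable (F.lpe g r) F.μ ∧ ∀ y, 0 ≤ F.lpe g r y := by
  rw [F.PairA_lpe]
  obtain ⟨h1, h2, C, hC⟩ := PairA_L_bd F.fr F.μ F.ι hg hr
  exact ⟨h1, Integrable.of_bound h1.aestronglyMeasurable C (Eventually.of_forall hC), h2⟩

theorem RS_eq {g r : ℝ} (hg : 0 < g) (hr : 0 < r) {Z : Set (E m)} (hZ : MeasurableSet Z) :
    F.RS g r Z = ∫ y in F.x ⁻¹' Z, F.lpe g r y ∂F.μ := by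
  rw [RS, PairA_PR, F.PairA_lpe, ← integral_indicator (F.measurable_all.1 hZ)]
  refine integral_congr_ae (Eventually.of_forall fun y => ?_)
  by_cases hy : F.x y ∈ Z
  · simp only [indicator_of_mem hy, indicator_of_mem (show y ∈ F.x ⁻¹' Z from hy), Pi.one_apply,
      one_mul]
  · simp only [indicator_of_notMem hy, indicator_of_notMem (show y ∉ F.x ⁻¹' Z from hy), zero_mul]

theorem RS_mono {g r : ℝ} (hg : 0 < g) (hr : 0 < r) {Z Z' : Set (E m)} (hZ : MeasurableSet Z)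
    (hZ' : MeasurableSet Z') (h : Z ⊆ Z') : 0 ≤ F.RS g r Z ∧ F.RS g r Z ≤ F.RS g r Z' := by
  obtain ⟨-, h2, h3⟩ := F.lpe_bd hg hr
  rw [F.RS_eq hg hr hZ, F.RS_eq hg hr hZ']
  exact ⟨integral_nonneg h3, setIntegral_mono_set h2.integrableOn (Eventually.of_forall h3)
    (LE.le.eventuallyLE (preimage_mono h))⟩

/-- bounded overlap -/
theorem sum_overlap {f : E N → ℝ} (hf : Integrable f F.μ) (h0 : ∀ y, 0 ≤ f y) {I : Type}
    (J : Finset I) {Z : I → Set (E m)} (hZ : ∀ j ∈ J, MeasurableSet (Z j)) {w : I → ℝ} {M : ℝ}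
    (hM : ∀ x, ∑ j ∈ J, (Z j).indicator (fun _ => w j) x ≤ M) :
    ∑ j ∈ J, w j * ∫ y in F.x ⁻¹' Z j, f y ∂F.μ ≤ M * ∫ y, f y ∂F.μ := by
  have h1 : ∀ j ∈ J, w j * ∫ y in F.x ⁻¹' Z j, f y ∂F.μ =
      ∫ y, (F.x ⁻¹' Z j).indicator (fun y => w j * f y) y ∂F.μ := fun j hj => by
    rw [integral_indicator (F.measurable_all.1 (hZ j hj)), integral_const_mul]
  have h2 : ∀ j ∈ J, Integrable ((F.x ⁻¹' Z j).indicator fun y => w j * f y) F.μ := fun j hj =>
    (hf.const_mul (w j)).indicator (F.measurable_all.1 (hZ j hj))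
  rw [Finset.sum_congr rfl h1, ← integral_finsetSum J h2, ← integral_const_mul]
  refine integral_mono (integrable_finsetSum J h2) (hf.const_mul M) fun y => ?_
  refine le_trans (le_of_eq ?_) (mul_le_mul_of_nonneg_right (hM (F.x y)) (h0 y))
  rw [Finset.sum_mul]
  refine Finset.sum_congr rfl fun j _ => ?_
  by_cases hy : F.x y ∈ Z j
  · rw [indicator_of_mem hy, indicator_of_mem (show y ∈ F.x ⁻¹' Z j from hy)]
  · rw [indicator_of_notMem hy, indicator_of_notMem (show y ∉ F.x ⁻¹' Z j from hy), zero_mul]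

end Flat

end Pool.Agent.MP_f6c0e6_an.Gen

end
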