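import Pool.Agent.MP_f6c0e6_an.All.ChartC
import Pool.Agent.MP_f6c0e6_an.All.Conv
import Pool.Agent.MP_f6c0e6_an.All.BaseA
import Pool.Agent.MP_f6c0e6_an.All.PairA
import Pool.Agent.MP_f6c0e6_an.All.Stat

section

/-! The defect in a flat frame and in Fermi coordinates. -/

set_option autoImplicit false

open MeasureTheory Filter Topology Set Metric
open scoped ENNReal RealInnerProductSpace

namespace Pool.Agent.MP_f6c0e6_an.Gen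

variable {m N : ℕ}

/-- the defect in the flat frame `ι'` with origin `y₁`, without rescaling -/
noncomputable def YP (fr : Fr m N) (μ : Measure (E N)) (ι' : E m →ₗᵢ[ℝ] E N) (y₁ : E N) (Q : ℕ)
    (ω : E m → ℝ) : ℝ :=
  2 * Q * (∫ X, ω X) - 2 * ∫ y, ω (pr ι' (y - y₁)) * (1 - tlt ι' (fun l => fr.s l y) / 2) ∂μ

/-- the weight on the base that corresponds to `ω` -/
noncomputable def Ref.wt (S : Ref m N) (ξ₁ : E m) (ι' : E m →ₗᵢ[ℝ] E N) (ω : E m → ℝ) (ξ : E m) :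
    ℝ := ω (S.Psi ξ₁ ι' ξ) * (sgW S.w ξ * (1 - S.tl0 ι' ξ / 2))

theorem FrameB_taylor {ω : E m → ℝ} (hω : ContDiff ℝ 2 ω) {a : ℝ}
    (ha : ∀ x, ‖fderiv ℝ (fderiv ℝ ω) x‖ ≤ a) (x p : E m) :
    |ω (x - p) - ω x + fderiv ℝ ω x p| ≤ a * ‖p‖ ^ 2 := by
  have hd : ContDiff ℝ 1 (fderiv ℝ ω) := hω.fderiv_right (m := 1) (by norm_num)
  have ha0 : 0 ≤ a := (ContinuousLinearMap.opNorm_nonneg _).trans (ha x)
  have h2 : ∀ y ∈ closedBall x ‖p‖, ‖fderiv ℝ ω y - fderiv ℝ ω x‖ ≤ a * ‖p‖ := by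
    intro y hy
    have h3 := (convex_univ (𝕜 := ℝ) (E := E m)).norm_image_sub_le_of_norm_fderiv_le
      (fun z _ => hd.differentiable one_ne_zero z) (fun z _ => ha z) (mem_univ x) (mem_univ y)
    exact h3.trans (mul_le_mul_of_nonneg_left (mem_closedBall_iff_norm.1 hy) ha0)
  have h4 := (convex_closedBall x ‖p‖).norm_image_sub_le_of_norm_fderiv_le'
    (fun z _ => hω.differentiable two_ne_zero z) h2 (mem_closedBall_self (norm_nonneg p))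
    (show x - p ∈ closedBall x ‖p‖ by simp)
  rw [sub_sub_cancel_left, map_neg, sub_neg_eq_add, norm_neg, Real.norm_eq_abs] at h4
  rw [sq, ← mul_assoc]
  exact h4

theorem FrameB_far {S : Ref m N} {ξ₁ : E m} {ι' : E m →ₗᵢ[ℝ] E N} (h : S.Tan ξ₁ ι') (ξ : E m) :
    49 / 50 * ‖ξ - ξ₁‖ ≤ ‖S.Psi ξ₁ ι' ξ‖ := by
  have h1 := (h.near ξ 0 0).2.2.2.2.1
  have h2 := (h.calc (S.Psi ξ₁ ι' ξ) 0).2.2.2.1
  have h3 : ξ - ξ₁ = S.AA ξ₁ ι' (S.Psi ξ₁ ι' ξ) - (ξ₁ + S.AA ξ₁ ι' (S.Psi ξ₁ ι' ξ) - ξ) := by abel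
  have h4 := norm_sub_le (S.AA ξ₁ ι' (S.Psi ξ₁ ι' ξ)) (ξ₁ + S.AA ξ₁ ι' (S.Psi ξ₁ ι' ξ) - ξ)
  rw [← h3] at h4
  linarith only [h1, h2, h4]

theorem FrameB_X {S : Ref m N} (ξ₁ : E m) (ι' : E m →ₗᵢ[ℝ] E N) {y : E N} (hy : y ∈ S.tube) :
    pr ι' (y - S.F ξ₁) - pr ι' (S.zz y) = S.Psi ξ₁ ι' (S.zeta y) := by
  rw [← map_sub, Ref.Psi]
  congr 1
  have h := (S.tube_spec hy).2.1
  rw [eq_comm, ← sub_eq_zero] at h ⊢
  rw [← h]
  abel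

theorem FrameB_div (S : Ref m N) (fr : Fr m N) (ι' : E m →ₗᵢ[ℝ] E N) (y₁ : E N) {ω : E m → ℝ}
    (hω : ContDiff ℝ 2 ω) {y : E N} (hy : y ∈ S.tube) :
    ContDiffAt ℝ 1 (fun x => ω (pr ι' (x - y₁)) • ι' (pr ι' (S.zz x))) y ∧
    fr.div (fun x => ω (pr ι' (x - y₁)) • ι' (pr ι' (S.zz x))) y =
      ω (pr ι' (y - y₁)) *
        ∑ l, ⟪pr ι' (fr.s l y), pr ι' (S.mm (S.zeta y) (S.zz y) (fr.s l y))⟫ +
      ∑ l, fderiv ℝ ω (pr ι' (y - y₁)) (pr ι' (fr.s l y)) *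
        ⟪pr ι' (fr.s l y), pr ι' (S.zz y)⟫ := by
  have hz := (S.contDiffAt_zeta hy).2
  have h1 : ContDiff ℝ 1 fun x : E N => ω (pr ι' (x - y₁)) :=
    (hω.of_le (by norm_num)).comp ((pr ι').contDiff.comp (contDiff_id.sub contDiff_const))
  have h2 : ContDiffAt ℝ 1 (fun x => ι' (pr ι' (S.zz x))) y :=
    (ι'.toContinuousLinearMap ∘L pr ι').contDiff.contDiffAt.comp y hz
  refine ⟨h1.contDiffAt.smul h2, ?_⟩
  rw [fr.div_smul (h1.differentiable one_ne_zero y) (h2.differentiableAt one_ne_zero)]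
  have h3 : HasFDerivAt (fun x : E N => ω (pr ι' (x - y₁)))
      (fderiv ℝ ω (pr ι' (y - y₁)) ∘L pr ι') y := by
    have h4 : HasFDerivAt (fun x : E N => pr ι' (x - y₁)) (pr ι') y := by
      have h6 := (pr ι').hasFDerivAt.comp y ((hasFDerivAt_id y).sub_const y₁)
      rw [ContinuousLinearMap.comp_id] at h6
      exact h6
    exact (hω.differentiable two_ne_zero _).hasFDerivAt.comp y h4
  have h5 : HasFDerivAt (fun x => ι' (pr ι' (S.zz x)))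
      ((ι'.toContinuousLinearMap ∘L pr ι') ∘L fderiv ℝ S.zz y) y :=
    (ι'.toContinuousLinearMap ∘L pr ι').hasFDerivAt.comp y
      (hz.differentiableAt one_ne_zero).hasFDerivAt
  rw [h3.fderiv, Fr.div, h5.fderiv]
  congr 1
  · congr 1
    refine Finset.sum_congr rfl fun l _ => ?_
    rw [ContinuousLinearMap.comp_apply, (S.fderiv_zeta hy _).2, ← FlatA_iota]
    rfl
  · refine Finset.sum_congr rfl fun l _ => ?_
    rw [FlatA_iota]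
    rfl

/-- the derivative along the horizontal parts of the frame -/
theorem FrameB_NF (ι' : E m →ₗᵢ[ℝ] E N) {s : Fin m → E N} (hs : Orthonormal ℝ s)
    (L : E m →L[ℝ] ℝ) (p : E m) :
    |∑ l, L (pr ι' (s l)) * ⟪pr ι' (s l), p⟫ - L p| ≤ tlt ι' s * ‖L‖ * ‖p‖ := by
  obtain ⟨g, rfl⟩ := (InnerProductSpace.toDual ℝ (E m)).surjective L
  have h := (NF_bd ι' hs g p).2.2.2.1
  rw [NF, abs_sub_comm] at h
  simp only [InnerProductSpace.toDual_apply_apply, LinearIsometryEquiv.norm_map]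
  simpa only [real_inner_comm g] using h

theorem FrameB_one {S : Ref m N} {ξ₁ : E m} {ι' : E m →ₗᵢ[ℝ] E N} (h : S.Tan ξ₁ ι') {ξ : E m}
    {z : E N} {T ρ : ℝ} (hz : ‖z‖ ≤ T) (hT : T ≤ ρ) (hρ : ρ ≤ 1 / 50) (hr : ‖ξ - ξ₁‖ ≤ 3 * ρ)
    {s : E N} (hs : ‖s‖ = 1) :
    |⟪pr ι' s, pr ι' (S.mm ξ z s)⟫ - ⟪pr ι' (S.La ξ (S.al ξ s)), pr ι' (S.nor ξ s)⟫ -
      (⟪s, S.mm ξ z s⟫ - ‖S.nor ξ s‖ ^ 2)| ≤ T ^ 2 + T * ρ ^ 2 + ρ * ‖S.nor ξ s‖ ^ 2 := by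
  have hT0 : 0 ≤ T := (norm_nonneg z).trans hz
  have hρ0 : 0 ≤ ρ := hT0.trans hT
  obtain ⟨a1, a2, -, -, -, a6, -⟩ := S.al_calc ξ 0 s
  obtain ⟨-, -, -, -, e5, e6, -⟩ := S.eta_calc ξ (z := z) (by linarith only [hz, hT, hρ]) s
  have hK := (S.II_calc ξ 0 0 z).2.2.2.1
  set n := S.nor ξ s with hn
  set a := S.La ξ (S.al ξ s) with ha
  set k := S.La ξ (S.KK ξ z (S.eta ξ z s)) with hk
  have han : ⟪a, n⟫ = 0 := by
    rw [ha, ← ContinuousLinearMap.adjoint_inner_right, a2, inner_zero_right]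
  have hsn : ⟪s, n⟫ = ‖n‖ ^ 2 := by
    conv_lhs => rw [a1]
    rw [inner_add_left, han, zero_add, real_inner_self_eq_norm_sq]
  have hps : ⟪pr ι' s, pr ι' n⟫ = ⟪pr ι' a, pr ι' n⟫ + ‖pr ι' n‖ ^ 2 := by
    conv_lhs => rw [a1]
    rw [map_add, inner_add_left, real_inner_self_eq_norm_sq]
  have hsk := (inner_vt ι' s k).2
  have e : ⟪pr ι' s, pr ι' (S.mm ξ z s)⟫ - ⟪pr ι' a, pr ι' n⟫ - (⟪s, S.mm ξ z s⟫ - ‖n‖ ^ 2) =
      ‖pr ι' n‖ ^ 2 + ⟪vt ι' s, vt ι' k⟫ := by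
    rw [e5, map_sub, inner_sub_right, inner_sub_right, hps, hsn, hsk]
    ring
  rw [e]
  have b1 : ‖pr ι' n‖ ≤ ρ * ‖n‖ := by
    refine ((h.near ξ 0 n).2.1 a2).trans ?_
    have := norm_nonneg n
    nlinarith only [hT, this, hr, hT0, norm_nonneg (ξ - ξ₁)]
  have b2 : ‖vt ι' s‖ ≤ ρ + ‖n‖ := by
    conv_lhs => rw [a1]
    rw [vt_add]
    refine (norm_add_le _ _).trans (add_le_add ?_ (norm_pr_le ι' n).2.1)
    refine (h.near ξ _ 0).1.trans ?_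
    rw [hs] at a6
    nlinarith only [hT, hT0, a6, hr, norm_nonneg (ξ - ξ₁), norm_nonneg (S.al ξ s)]
  have b3 : ‖vt ι' k‖ ≤ ρ * T := by
    refine (h.near ξ _ 0).1.trans ?_
    have b4 : ‖S.KK ξ z (S.eta ξ z s)‖ ≤ T := by
      refine ((S.KK ξ z).le_opNorm _).trans ?_
      rw [hs] at e6
      nlinarith only [hz, hT0, hK, e6, norm_nonneg (S.KK ξ z), norm_nonneg (S.eta ξ z s)]
    nlinarith only [hT, hT0, b4, hr, norm_nonneg (ξ - ξ₁), norm_nonneg (S.KK ξ z (S.eta ξ z s))]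
  have b5 : |⟪vt ι' s, vt ι' k⟫| ≤ (ρ + ‖n‖) * (ρ * T) :=
    (abs_real_inner_le_norm _ _).trans (mul_le_mul b2 b3 (norm_nonneg _) (by positivity))
  have b6 : ‖pr ι' n‖ ^ 2 ≤ (ρ * ‖n‖) ^ 2 := pow_le_pow_left₀ (norm_nonneg _) b1 2
  refine (abs_add_le _ _).trans ?_
  rw [abs_of_nonneg (sq_nonneg _)]
  have b7 : ‖n‖ * T ≤ ‖n‖ ^ 2 / 2 + T ^ 2 / 2 := by nlinarith only [sq_nonneg (‖n‖ - T)]
  have b8 : ρ * (‖n‖ * T) ≤ ρ * (‖n‖ ^ 2 / 2 + T ^ 2 / 2) := mul_le_mul_of_nonneg_left b7 hρ0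
  have b9 : ρ * (ρ * ‖n‖ ^ 2) ≤ 1 / 50 * (ρ * ‖n‖ ^ 2) :=
    mul_le_mul_of_nonneg_right hρ (by positivity)
  have b10 : ρ * T ^ 2 ≤ 1 / 50 * T ^ 2 := mul_le_mul_of_nonneg_right hρ (by positivity)
  have b11 : 0 ≤ ρ * ‖n‖ ^ 2 := by positivity
  nlinarith only [b5, b6, b8, b9, b10, sq_nonneg T]

theorem FrameB_sum {S : Ref m N} {ξ₁ : E m} {ι' : E m →ₗᵢ[ℝ] E N} (h : S.Tan ξ₁ ι') {ξ : E m}
    {z : E N} {T ρ c : ℝ} (hz : ‖z‖ ≤ T) (hT : T ≤ ρ) (hρ : ρ ≤ 1 / 50) (hr : ‖ξ - ξ₁‖ ≤ 3 * ρ)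
    {s : Fin m → E N} (hs : Orthonormal ℝ s) (hc : 1 ≤ c)
    (hdiv : |∑ l, ⟪s l, S.mm ξ z (s l)⟫ - S.tilt ξ s| ≤ c * (‖z‖ ^ 2 + ‖z‖ * S.tilt ξ s)) :
    |∑ l, ⟪pr ι' (s l), pr ι' (S.mm ξ z (s l))⟫ -
      ∑ l, ⟪pr ι' (S.La ξ (S.al ξ (s l))), pr ι' (S.nor ξ (s l))⟫| ≤
        (c + m + 1) * (T ^ 2 + T * ρ ^ 2 + ρ * S.tilt ξ s) := by
  have hT0 : 0 ≤ T := (norm_nonneg z).trans hz
  have hρ0 : 0 ≤ ρ := hT0.trans hT
  have hd := (S.str_bd ξ hs).1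
  have h1 := (Finset.abs_sum_le_sum_abs _ _).trans (Finset.sum_le_sum (s := Finset.univ)
    fun l _ => FrameB_one h hz hT hρ hr (hs.1 l))
  rw [Finset.sum_sub_distrib, Finset.sum_sub_distrib, Finset.sum_sub_distrib,
    Finset.sum_add_distrib, ← Finset.mul_sum, Finset.sum_const, Finset.card_univ, Fintype.card_fin,
    nsmul_eq_mul] at h1
  change |_ - (_ - S.tilt ξ s)| ≤ _ + ρ * S.tilt ξ s at h1
  have h2 : c * (‖z‖ ^ 2 + ‖z‖ * S.tilt ξ s) ≤ c * (T ^ 2 + T * ρ ^ 2 + ρ * S.tilt ξ s) := by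
    refine mul_le_mul_of_nonneg_left ?_ (by linarith only [hc])
    have h3 := pow_le_pow_left₀ (norm_nonneg _) hz 2
    have h4 := mul_le_mul_of_nonneg_right (hz.trans hT) hd
    have h5 : 0 ≤ T * ρ ^ 2 := by positivity
    linarith only [h3, h4, h5]
  have h6 : 0 ≤ (m : ℝ) * (ρ * S.tilt ξ s) := by positivity
  have h7 : 0 ≤ T ^ 2 + T * ρ ^ 2 := by positivity
  obtain ⟨h8, h9⟩ := abs_le.1 h1
  obtain ⟨h10, h11⟩ := abs_le.1 (hdiv.trans h2)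
  rw [abs_le]
  constructor <;> nlinarith only [h6, h7, h8, h10, h9, h11]

theorem FrameB_num {w w' D D' t t0 d cr σ M U c n : ℝ} (hM : 0 ≤ M) (hU : 0 ≤ U) (hn : 0 ≤ n)
    (hw : |w| ≤ M) (h1 : |w' - w + D| ≤ M * U) (h2 : |D' - D| ≤ (n + 1) * (M * U))
    (h3 : |t - (t0 + d - 2 * cr)| ≤ n * U) (h4 : |σ - cr| ≤ c * U) (h5 : t0 * d ≤ n * U)
    (h6 : |D| * t0 ≤ n * (M * U)) (h7 : |D| * d ≤ M * U) (ht0 : 0 ≤ t0) (ht1 : t0 ≤ n)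
    (hd0 : 0 ≤ d) (hd1 : d ≤ n) :
    |w * (1 - t / 2) - w' * (1 - t0 / 2) * (1 - d / 2) - (w * σ + D')| ≤
      (c + 6 * (n + 1) ^ 2) * (M * U) := by
  have e : w * (1 - t / 2) - w' * (1 - t0 / 2) * (1 - d / 2) - (w * σ + D') =
      w * (-(t - (t0 + d - 2 * cr)) / 2 - t0 * d / 4 - (σ - cr)) +
        D * (-(t0 / 2) - d / 2 + t0 * d / 4) -
        (w' - w + D) * ((1 - t0 / 2) * (1 - d / 2)) - (D' - D) := by ring
  have hMU : 0 ≤ M * U := mul_nonneg hM hU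
  have htd : 0 ≤ t0 * d := mul_nonneg ht0 hd0
  have b1 : |w * (-(t - (t0 + d - 2 * cr)) / 2 - t0 * d / 4 - (σ - cr))| ≤ (c + n) * (M * U) := by
    rw [abs_mul]
    have b : |(-(t - (t0 + d - 2 * cr)) / 2 - t0 * d / 4 - (σ - cr))| ≤ (c + n) * U := by
      obtain ⟨a1, a2⟩ := abs_le.1 h3
      obtain ⟨a3, a4⟩ := abs_le.1 h4
      have a5 : 0 ≤ n * U := mul_nonneg hn hU
      rw [abs_le]
      constructor <;> nlinarith only [h5, htd, a2, a4, a1, a3]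
    calc _ ≤ M * ((c + n) * U) := mul_le_mul hw b (abs_nonneg _) hM
      _ = _ := by ring
  have b2 : |D * (-(t0 / 2) - d / 2 + t0 * d / 4)| ≤ (n + 1) ^ 2 * (M * U) := by
    rw [abs_mul]
    have b : |(-(t0 / 2) - d / 2 + t0 * d / 4)| ≤ t0 + d + n * d := by
      have a5 : t0 * d ≤ n * d := mul_le_mul_of_nonneg_right ht1 hd0
      rw [abs_le]
      constructor <;> linarith only [ht0, hd0, htd, a5]
    have a6 : n * (|D| * d) ≤ n * (M * U) := mul_le_mul_of_nonneg_left h7 hn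
    have a7 : 0 ≤ n ^ 2 * (M * U) := by positivity
    calc _ ≤ |D| * (t0 + d + n * d) := mul_le_mul_of_nonneg_left b (abs_nonneg _)
      _ = |D| * t0 + |D| * d + n * (|D| * d) := by ring
      _ ≤ _ := by nlinarith only [h6, h7, a6, a7]
  have b3 : |(w' - w + D) * ((1 - t0 / 2) * (1 - d / 2))| ≤ (n + 1) ^ 2 * (M * U) := by
    rw [abs_mul, abs_mul, mul_comm, sq]
    refine mul_le_mul (mul_le_mul ?_ ?_ (abs_nonneg _) (by linarith only [hn])) h1 (abs_nonneg _)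
      (by positivity) <;> rw [abs_le] <;> constructor <;> linarith only [hn, ht1, ht0, hd1, hd0]
  have b4 : (n + 1) * (M * U) ≤ (n + 1) ^ 2 * (M * U) :=
    mul_le_mul_of_nonneg_right (by nlinarith only [hn]) hMU
  have b5 : 0 ≤ (n + 1) ^ 2 * (M * U) := by positivity
  obtain ⟨a1, a2⟩ := abs_le.1 b1
  obtain ⟨a3, a4⟩ := abs_le.1 b2
  obtain ⟨a5, a6⟩ := abs_le.1 b3
  obtain ⟨a7, a8⟩ := abs_le.1 h2
  rw [e, abs_le]
  constructor <;> nlinarith only [hMU, b4, b5, a1, a3, a6, a8, a2, a4, a5, a7]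

/-- the pointwise estimate -/
theorem FrameB_pt {S : Ref m N} {ξ₁ : E m} {ι' : E m →ₗᵢ[ℝ] E N} (h : S.Tan ξ₁ ι') (fr : Fr m N)
    {ω : E m → ℝ} {M T ρ c : ℝ} (hω : ContDiff ℝ 2 ω) (hb : Bd2 ω M (M / ρ) (M / ρ ^ 2))
    (hT0 : 0 < T) (hT : T ≤ ρ) (hρ : ρ ≤ 1 / 50) (hc : 1 ≤ c) {y : E N} (hy : y ∈ S.tube)
    (hz : ‖S.zz y‖ ≤ T) (hr : ‖S.zeta y - ξ₁‖ ≤ 3 * ρ)
    (hdiv : |∑ l, ⟪fr.s l y, S.mm (S.zeta y) (S.zz y) (fr.s l y)⟫ - S.dd fr y| ≤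
      c * (‖S.zz y‖ ^ 2 + ‖S.zz y‖ * S.dd fr y)) :
    |ω (pr ι' (y - S.F ξ₁)) * (1 - tlt ι' (fun l => fr.s l y) / 2) -
      ω (S.Psi ξ₁ ι' (S.zeta y)) * (1 - S.tl0 ι' (S.zeta y) / 2) * (1 - S.dd fr y / 2) -
      fr.div (fun x => ω (pr ι' (x - S.F ξ₁)) • ι' (pr ι' (S.zz x))) y| ≤
        (c + m + 1 + 6 * (m + 1) ^ 2) * (M * (T ^ 2 + T * ρ ^ 2 + ρ * S.dd fr y)) := by
  have hρ0 : 0 < ρ := hT0.trans_le hT
  have hM : 0 ≤ M := (norm_nonneg _).trans (hb.b0 0)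
  have hm : (0 : ℝ) ≤ m := Nat.cast_nonneg m
  obtain ⟨hd0, hd1, -⟩ := S.dd_bd fr y
  obtain ⟨-, n2, -, -, -, n6, n7⟩ := h.near (S.zeta y) 0 (S.zz y)
  obtain ⟨t1, t2⟩ := h.tilt (S.zeta y) (fr.orth y)
  have hr2 : ‖S.zeta y - ξ₁‖ ^ 2 ≤ 9 * ρ ^ 2 := by
    have := pow_le_pow_left₀ (norm_nonneg _) hr 2
    linarith only [this]
  have hp : ‖pr ι' (S.zz y)‖ ≤ ρ * T / 10 := by
    refine (n2 (S.zz_bd y).2.2).trans ?_
    have := mul_le_mul hr hz (norm_nonneg _) (by positivity)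
    have : 0 ≤ ρ * T := by positivity
    linarith only [‹‖S.zeta y - ξ₁‖ * ‖S.zz y‖ ≤ 3 * ρ * T›, this]
  have hs := FrameB_sum h hz hT hρ hr (fr.orth y) hc hdiv
  have hN := FrameB_NF ι' (fr.orth y) (fderiv ℝ ω (pr ι' (y - S.F ξ₁))) (pr ι' (S.zz y))
  have hta := FrameB_taylor hω hb.b2 (pr ι' (y - S.F ξ₁)) (pr ι' (S.zz y))
  rw [FrameB_X ξ₁ ι' hy] at hta
  rw [(FrameB_div S fr ι' _ hω hy).2]
  change _ ≤ _ * S.dd fr y at t1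
  change _ ≤ 2 * S.dd fr y + _ at t2
  change _ ≤ _ * (_ + _ * S.dd fr y) at hs
  have ht := (tlt_bd ι' (fr.orth y)).1
  set d := S.dd fr y with hd
  set t0 := S.tl0 ι' (S.zeta y) with ht0
  set L := fderiv ℝ ω (pr ι' (y - S.F ξ₁)) with hL
  set p := pr ι' (S.zz y) with hpp
  have hLp : ‖L‖ * ‖p‖ ≤ M * T / 10 := by
    calc _ ≤ M / ρ * (ρ * T / 10) := mul_le_mul (hb.b1 _) hp (norm_nonneg _) (by positivity)
      _ = _ := by field_simp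
  have hD : |L p| ≤ M * T / 10 := (L.le_opNorm p).trans hLp
  have u1 : 0 ≤ T ^ 2 := by positivity
  have u2 : 0 ≤ T * ρ ^ 2 := by positivity
  have u3 : 0 ≤ ρ * d := by positivity
  have u4 : T * d ≤ ρ * d := mul_le_mul_of_nonneg_right hT hd0
  have u5 : 9 * ρ ^ 2 * d ≤ ρ * d := mul_le_mul_of_nonneg_right (by nlinarith only [hT, hρ, hT0]) hd0
  have u6 : t0 ≤ m * (9 * ρ ^ 2) := n7.trans (mul_le_mul_of_nonneg_left hr2 hm)
  refine FrameB_num (D := L p) hM (by positivity) hm (hb.b0 _) (hta.trans ?_) (hN.trans ?_)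
    (t1.trans ?_) hs ?_ ?_ ?_ n6 ?_ hd0 hd1
  · calc _ ≤ M / ρ ^ 2 * (ρ * T / 10) ^ 2 :=
          mul_le_mul_of_nonneg_left (pow_le_pow_left₀ (norm_nonneg _) hp 2) (by positivity)
      _ = M * (T ^ 2 / 100) := by field_simp; norm_num
      _ ≤ _ := mul_le_mul_of_nonneg_left (by linarith only [u1, u2, u3]) hM
  · have v1 : tlt ι' (fun l => fr.s l y) ≤ 2 * d + m * (9 * ρ ^ 2) :=
      t2.trans (by linarith only [hr2, hm, mul_le_mul_of_nonneg_left hr2 hm])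
    have v2 : 0 ≤ (m : ℝ) * (T ^ 2 + ρ * d) := by positivity
    have v3 : 0 ≤ (m : ℝ) * (T * ρ ^ 2) := by positivity
    calc _ = tlt ι' (fun l => fr.s l y) * (‖L‖ * ‖p‖) := mul_assoc _ _ _
      _ ≤ (2 * d + m * (9 * ρ ^ 2)) * (M * T / 10) :=
          mul_le_mul v1 hLp (by positivity) (by positivity)
      _ = M * (T * d / 5 + 9 / 10 * (m * (T * ρ ^ 2))) := by ring
      _ ≤ M * ((m + 1) * (T ^ 2 + T * ρ ^ 2 + ρ * d)) :=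
          mul_le_mul_of_nonneg_left (by nlinarith only [u2, u3, u4, v2, v3]) hM
      _ = _ := by ring
  · rw [mul_assoc]
    refine mul_le_mul_of_nonneg_left ?_ hm
    linarith only [u1, u2, u5, hr2, hd0, mul_le_mul_of_nonneg_right hr2 hd0]
  · calc _ ≤ m * (9 * ρ ^ 2) * d := mul_le_mul_of_nonneg_right u6 hd0
      _ = m * (9 * ρ ^ 2 * d) := by ring
      _ ≤ _ := mul_le_mul_of_nonneg_left (by linarith only [u1, u2, u5]) hm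
  · calc _ ≤ M * T / 10 * (m * (9 * ρ ^ 2)) := mul_le_mul hD u6 n6 (by positivity)
      _ = m * (M * (9 / 10 * (T * ρ ^ 2))) := by ring
      _ ≤ _ := mul_le_mul_of_nonneg_left (mul_le_mul_of_nonneg_left (by linarith only [u1, u2, u3]) hM) hm
  · calc _ ≤ M * T / 10 * d := mul_le_mul_of_nonneg_right hD hd0
      _ = M * (T * d / 10) := by ring
      _ ≤ _ := mul_le_mul_of_nonneg_left (by linarith only [u1, u2, u3, u4]) hM
  · refine u6.trans ?_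
    have v4 : 9 * ρ ^ 2 ≤ 1 := by nlinarith only [hρ, hT, hT0]
    nlinarith only [v4]

/-- far from `ξ₁` everything vanishes -/
theorem FrameB_out {S : Ref m N} {ξ₁ : E m} {ι' : E m →ₗᵢ[ℝ] E N} (h : S.Tan ξ₁ ι')
    {ω : E m → ℝ} {ρ : ℝ} (hρ : 0 < ρ) (h0 : ∀ X, 2 * ρ ≤ ‖X‖ → ω X = 0) {y : E N}
    (hy : y ∈ S.tube) (hr : 3 * ρ < ‖S.zeta y - ξ₁‖) :
    ω (pr ι' (y - S.F ξ₁)) = 0 ∧
      (fun x => ω (pr ι' (x - S.F ξ₁)) • ι' (pr ι' (S.zz x))) =ᶠ[𝓝 y] 0 := by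
  have h1 := FrameB_far h (S.zeta y)
  have h2 := (h.near (S.zeta y) 0 (S.zz y)).2.1 (S.zz_bd y).2.2
  have h3 := mul_le_mul_of_nonneg_left (S.zz_bd y).1 (norm_nonneg (S.zeta y - ξ₁))
  have h4 := norm_sub_le (pr ι' (y - S.F ξ₁)) (pr ι' (S.zz y))
  rw [FrameB_X ξ₁ ι' hy] at h4
  have h5 : 2 * ρ < ‖pr ι' (y - S.F ξ₁)‖ := by linarith only [hρ, hr, h1, h2, h3, h4]
  refine ⟨h0 _ h5.le, ?_⟩
  have h6 : Continuous fun x : E N => ‖pr ι' (x - S.F ξ₁)‖ := by fun_prop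
  filter_upwards [h6.continuousAt.eventually (lt_mem_nhds h5)] with x hx
  rw [h0 _ hx.le, zero_smul, Pi.zero_apply]

theorem FrameB_cont (S : Ref m N) (ξ₁ : E m) (ι' : E m →ₗᵢ[ℝ] E N) :
    Continuous (S.Psi ξ₁ ι') ∧ Continuous (S.tl0 ι') ∧ Continuous (sgW S.w) ∧
      Continuous fun ξ => vol fun j => pr ι' (S.La ξ (ev j)) := by
  obtain ⟨-, c1, c2, -⟩ := S.F_calc ξ₁
  obtain ⟨-, c3, c4⟩ := contDiff_gW (n := 2) (w := S.w) S.smooth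
  have c5 := c2.continuous
  refine ⟨(pr ι').continuous.comp (c1.continuous.sub continuous_const), ?_, c4.continuous, ?_⟩
  · refine continuous_finsetSum _ fun j _ => Continuous.inner ?_ (c5.clm_apply continuous_const)
    exact (contDiff_vt ι' 0).continuous.comp
      (c5.clm_apply (c3.continuous.clm_apply continuous_const))
  · refine continuous_abs.comp (Continuous.matrix_det (continuous_matrix fun i j => ?_))
    exact (EuclideanSpace.proj i : E m →L[ℝ] ℝ).continuous.comp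
      ((pr ι').continuous.comp (c5.clm_apply continuous_const))

/-- the integral over the base -/
theorem FrameB_base {S : Ref m N} {ξ₁ : E m} {ι' : E m →ₗᵢ[ℝ] E N} (h : S.Tan ξ₁ ι')
    {ω : E m → ℝ} {M ρ C : ℝ} (hω : Continuous ω) (hb : ∀ x, ‖ω x‖ ≤ M) (hρ : 0 < ρ)
    (h0 : ∀ X, 2 * ρ ≤ ‖X‖ → ω X = 0) (hC : 1 ≤ C)
    (hj : ∀ ξ, |sgW S.w ξ * (1 - S.tl0 ι' ξ / 2) - vol fun j => pr ι' (S.La ξ (ev j))| ≤
      C * S.tl0 ι' ξ ^ 2) :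
    |(∫ X, ω X) - ∫ ξ, S.wt ξ₁ ι' ω ξ| ≤ C * (81 * m ^ 2 * 6 ^ m) * (M * (ρ ^ 4 * ρ ^ m)) := by
  obtain ⟨c1, c2, c3, c4⟩ := FrameB_cont S ξ₁ ι'
  have hM : 0 ≤ M := (norm_nonneg _).trans (hb 0)
  have hz : ∀ ξ, ξ ∉ closedBall ξ₁ (3 * ρ) → ω (S.Psi ξ₁ ι' ξ) = 0 := fun ξ hξ => by
    rw [mem_closedBall_iff_norm, not_le] at hξ
    exact h0 _ (by linarith only [hρ, hξ, FrameB_far h ξ])
  have hk : HasCompactSupport fun ξ => ω (S.Psi ξ₁ ι' ξ) :=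
    HasCompactSupport.intro (isCompact_closedBall ξ₁ (3 * ρ)) hz
  have i1 : Integrable fun ξ => ω (S.Psi ξ₁ ι' ξ) * vol fun j => pr ι' (S.La ξ (ev j)) :=
    Conv_ismul (hω.comp c1) hk c4
  have i2 : Integrable (S.wt ξ₁ ι' ω) :=
    Conv_ismul (g := fun ξ => sgW S.w ξ * (1 - S.tl0 ι' ξ / 2)) (hω.comp c1) hk (by fun_prop)
  rw [h.change ω, ← integral_sub i1 i2, ← setIntegral_eq_integral_of_forall_compl_eq_zero
    (s := closedBall ξ₁ (3 * ρ)) fun ξ hξ => by simp only [Ref.wt, hz ξ hξ, zero_mul, sub_zero]]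
  have h1 := norm_setIntegral_le_of_norm_le_const (μ := volume) (s := closedBall ξ₁ (3 * ρ))
    (f := fun ξ => (ω (S.Psi ξ₁ ι' ξ) * vol fun j => pr ι' (S.La ξ (ev j))) - S.wt ξ₁ ι' ω ξ)
    (C := M * (C * (m * (3 * ρ) ^ 2) ^ 2)) measure_closedBall_lt_top fun ξ hξ => by
      rw [Ref.wt, ← mul_sub, norm_mul, norm_sub_rev]
      refine mul_le_mul (hb _) ((hj ξ).trans ?_) (norm_nonneg _) hM
      obtain ⟨-, -, -, -, -, n6, n7⟩ := h.near ξ 0 0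
      refine mul_le_mul_of_nonneg_left (pow_le_pow_left₀ n6 (n7.trans ?_) 2) (by linarith)
      exact mul_le_mul_of_nonneg_left
        (pow_le_pow_left₀ (norm_nonneg _) (mem_closedBall_iff_norm.1 hξ) 2) (Nat.cast_nonneg m)
  refine h1.trans ?_
  have h2 := (volume_ball_le ξ₁ (r := 3 * ρ) (by positivity)).1
  calc _ ≤ M * (C * (m * (3 * ρ) ^ 2) ^ 2) * (2 ^ m * (3 * ρ) ^ m) :=
        mul_le_mul_of_nonneg_left h2 (by positivity)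
    _ = _ := by
        rw [mul_pow 3 ρ m, show (6 : ℝ) = 2 * 3 by norm_num, mul_pow 2 3 m]
        ring

/-- the integral over the varifold -/
theorem FrameB_var {S : Ref m N} {fr : Fr m N} {μ : Measure (E N)} {y₀ : E N} {R T A : ℝ}
    (P : Piece S fr μ y₀ R T A) {ξ₁ : E m} {ι' : E m →ₗᵢ[ℝ] E N} (h : S.Tan ξ₁ ι')
    {ω : E m → ℝ} {M ρ c : ℝ} (hT : T ≤ ρ) (hR : ‖S.F ξ₁ - y₀‖ + 5 * ρ ≤ R)
    (hω : ContDiff ℝ 2 ω) (hb : Bd2 ω M (M / ρ) (M / ρ ^ 2)) (h0 : ∀ X, 2 * ρ ≤ ‖X‖ → ω X = 0)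
    (hc : 1 ≤ c) (hdiv : ∀ (ξ : E m) (z : E N) (s : Fin m → E N), ξ ∈ S.D → ‖z‖ ≤ 1 / 2 →
      Orthonormal ℝ s →
      |∑ l, ⟪s l, S.mm ξ z (s l)⟫ - S.tilt ξ s| ≤ c * (‖z‖ ^ 2 + ‖z‖ * S.tilt ξ s)) :
    |∫ y, ω (pr ι' (y - S.F ξ₁)) * (1 - tlt ι' (fun l => fr.s l y) / 2) ∂μ -
      ∫ y, S.wt ξ₁ ι' ω (S.zeta y) * (1 - S.dd fr y / 2) / sgW S.w (S.zeta y) ∂μ| ≤
        (c + m + 1 + 6 * (m + 1) ^ 2) * (M * ((T ^ 2 + T * ρ ^ 2) * (A * 9 ^ m * ρ ^ m) +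
          ρ * ∫ y in S.zeta ⁻¹' closedBall ξ₁ (3 * ρ), S.dd fr y ∂μ)) := by
  have := P.fin
  have hT0 := P.T_pos
  have hρ0 : 0 < ρ := hT0.trans_le hT
  have hρ : ρ ≤ 1 / 50 := by linarith only [hR, P.R_le, norm_nonneg (S.F ξ₁ - y₀)]
  have hM : 0 ≤ M := (norm_nonneg _).trans (hb.b0 0)
  have hm : (0 : ℝ) ≤ m := Nat.cast_nonneg m
  obtain ⟨c1, c2, -, -⟩ := FrameB_cont S ξ₁ ι'
  have mζ := S.measurable_zeta.1
  have md := (S.measurable_all fr).2.1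
  have e : ∀ y, S.wt ξ₁ ι' ω (S.zeta y) * (1 - S.dd fr y / 2) / sgW S.w (S.zeta y) =
      ω (S.Psi ξ₁ ι' (S.zeta y)) * (1 - S.tl0 ι' (S.zeta y) / 2) * (1 - S.dd fr y / 2) := fun y => by
    have := (sgW_bd S.w (S.zeta y)).2.1
    rw [Ref.wt]
    field_simp
  simp only [e]
  set V : E N → E N := fun x => ω (pr ι' (x - S.F ξ₁)) • ι' (pr ι' (S.zz x)) with hV
  set Z := S.zeta ⁻¹' closedBall ξ₁ (3 * ρ) with hZ
  have mZ : MeasurableSet Z := mζ measurableSet_closedBall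
  have hK := (S.isCompact_cyl (isCompact_closedBall ξ₁ (3 * ρ)) (T := T) (by linarith only [hT, hT0, hρ])).1
  have hV1 : ∀ y ∈ {y | y ∈ S.tube ∧ S.zeta y ∈ closedBall ξ₁ (3 * ρ) ∧ ‖S.zz y‖ ≤ T},
      ContDiffAt ℝ 1 V y := fun y hy => (FrameB_div S fr ι' _ hω hy.1).1
  have hV0 : ∀ᵐ y ∂μ, y ∉ {y | y ∈ S.tube ∧ S.zeta y ∈ closedBall ξ₁ (3 * ρ) ∧ ‖S.zz y‖ ≤ T} →
      V =ᶠ[𝓝 y] 0 := by
    filter_upwards [P.ae_tube] with y hy hn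
    refine (FrameB_out h hρ0 h0 hy.1 (not_le.1 fun hh => hn ⟨hy.1, ?_, hy.2.1⟩)).2
    exact mem_closedBall_iff_norm.2 hh
  have hst : ∫ y, fr.div V y ∂μ = 0 := by
    refine P.stat V _ hK (fun y hy => ?_) hV1 hV0
    have a1 := (S.F_lip (S.zeta y) ξ₁).2.1
    have a2 := mem_closedBall_iff_norm.1 hy.2.1
    have a3 : y - y₀ = (S.F (S.zeta y) - S.F ξ₁) + (S.F ξ₁ - y₀) + S.zz y := by
      conv_lhs => rw [(S.tube_spec hy.1).2.1]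
      abel
    have a4 := norm_add₃_le (a := S.F (S.zeta y) - S.F ξ₁) (b := S.F ξ₁ - y₀) (c := S.zz y)
    rw [mem_ball_iff_norm, a3]
    linarith only [hT, hR, hT0, a1, a2, a4, hy.2.2]
  have i3 := fr.integrable_div hK hV1 hV0
  have i1 : Integrable
      (fun y => ω (pr ι' (y - S.F ξ₁)) * (1 - tlt ι' (fun l => fr.s l y) / 2)) μ := by
    have m1 : Measurable fun y => tlt ι' fun l => fr.s l y :=
      Finset.measurable_sum _ fun l _ =>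
        (((contDiff_vt ι' 0).continuous.measurable.comp (fr.meas l)).norm).pow_const 2
    have m2 : Measurable fun y => ω (pr ι' (y - S.F ξ₁)) :=
      (hω.continuous.comp (by fun_prop)).measurable
    refine P.integrable_of_bd (m2.mul (measurable_const.sub (m1.div_const 2)))
      (M := M * (m + 1)) fun y _ _ => ?_
    obtain ⟨a1, a2⟩ := tlt_bd ι' (fr.orth y)
    rw [norm_mul]
    refine mul_le_mul (hb.b0 _) ?_ (norm_nonneg _) hM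
    rw [Real.norm_eq_abs, abs_le]
    constructor <;> linarith only [hT, hT0, hρ, a2, a1]
  have i2 : Integrable (fun y => ω (S.Psi ξ₁ ι' (S.zeta y)) * (1 - S.tl0 ι' (S.zeta y) / 2) *
      (1 - S.dd fr y / 2)) μ := by
    refine P.integrable_of_bd ((((hω.continuous.comp c1).measurable.comp mζ).mul
      (measurable_const.sub ((c2.measurable.comp mζ).div_const 2))).mul
      (measurable_const.sub (md.div_const 2))) (M := M * (m + 1) * (m + 1)) fun y _ _ => ?_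
    by_cases hr : ‖S.zeta y - ξ₁‖ ≤ 3 * ρ
    · obtain ⟨a1, a2, -⟩ := S.dd_bd fr y
      obtain ⟨-, -, -, -, -, n6, n7⟩ := h.near (S.zeta y) 0 0
      have a3 : ‖S.zeta y - ξ₁‖ ^ 2 ≤ 1 := pow_le_one₀ (norm_nonneg _) (by linarith)
      have a4 := mul_le_mul_of_nonneg_left a3 hm
      rw [norm_mul, norm_mul]
      refine mul_le_mul (mul_le_mul (hb.b0 _) ?_ (norm_nonneg _) hM) ?_ (norm_nonneg _)
        (by positivity) <;> rw [Real.norm_eq_abs, abs_le] <;> constructor <;> linarith only [hT, hT0, hρ, n7, a4, n6, a2, a1]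
    · rw [h0 _ (by linarith only [hT, hT0, hr, FrameB_far h (S.zeta y)]), zero_mul, zero_mul, norm_zero]
      positivity
  have i4 : Integrable (S.dd fr) μ := P.integrable_of_bd md (M := m) fun y _ _ => by
    rw [Real.norm_eq_abs, abs_of_nonneg (S.dd_bd fr y).1]
    exact (S.dd_bd fr y).2.1
  set k : ℝ := c + m + 1 + 6 * (m + 1) ^ 2 with hk
  have i5 : Integrable (fun y => k * (M * (T ^ 2 + T * ρ ^ 2 + ρ * S.dd fr y))) μ :=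
    (((integrable_const _).add (i4.const_mul ρ)).const_mul M).const_mul k
  have key := norm_integral_le_of_norm_le (μ := μ)
    (f := fun y => ω (pr ι' (y - S.F ξ₁)) * (1 - tlt ι' (fun l => fr.s l y) / 2) -
      ω (S.Psi ξ₁ ι' (S.zeta y)) * (1 - S.tl0 ι' (S.zeta y) / 2) * (1 - S.dd fr y / 2) -
      fr.div V y) (i5.indicator mZ) (by
    filter_upwards [P.ae_tube] with y hy
    by_cases hr : ‖S.zeta y - ξ₁‖ ≤ 3 * ρ
    · rw [indicator_of_mem (show y ∈ Z from mem_closedBall_iff_norm.2 hr)]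
      exact FrameB_pt h fr hω hb hT0 hT hρ hc hy.1 hy.2.1 hr
        (hdiv _ _ _ hy.2.2.1 (S.zz_bd y).1 (fr.orth y))
    · obtain ⟨a1, a2⟩ := FrameB_out h hρ0 h0 hy.1 (not_le.1 hr)
      rw [indicator_of_notMem (show y ∉ Z from fun hh => hr (mem_closedBall_iff_norm.1 hh)), a1,
        h0 (S.Psi ξ₁ ι' (S.zeta y)) (by linarith [FrameB_far h (S.zeta y)]),
        StatA_div_zero fr a2]
      simp)
  rw [integral_sub (i1.sub' i2) i3, integral_sub i1 i2, hst, sub_zero, integral_indicator mZ,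
    integral_const_mul, integral_const_mul, integral_add (integrable_const _)
      (i4.const_mul ρ).integrableOn, integral_const_mul, setIntegral_const, smul_eq_mul] at key
  refine key.trans (mul_le_mul_of_nonneg_left (mul_le_mul_of_nonneg_left
    (add_le_add ?_ le_rfl) hM) (by positivity))
  rw [mul_comm]
  refine mul_le_mul_of_nonneg_left ((P.mass_cyl ξ₁ (ρ := 3 * ρ) (by linarith)).1.trans_eq ?_)
    (by positivity)
  rw [mul_pow 3 ρ m, show (9 : ℝ) = 3 * 3 by norm_num, mul_pow 3 3 m]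
  ring

/-- Let `X y = pr ι' (y - F ξ₁) = Psi ζ + pr ι' z`, `P = ι' ∘ pr ι'`, and
`cr = ∑ ⟪pr (La a_l), pr n_l⟫`. For almost every `y`, if `ω (X y)` or `ω (Psi ζ)` is not zero then
`‖ζ - ξ₁‖ ≤ 3 ρ` (`Tan.near`), so `‖pr ι' z‖ ≤ ρ T`.
1. First variation for `y ↦ ω (X y) • P (zz y)` (`Stat` with the compact set over
`closedBall ξ₁ (3 ρ)`): its divergence is `ω ∑ ⟪s_l, P mm_l⟫ + ∑ Dω (pr s_l) ⟪s_l, P z⟫`. The first
sum is `cr + O (ρ² d) - ∑ ⟪s_l, La K η_l⟫ + O ((ρ + √d) ρ T)`, where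
`∑ ⟪s_l, La K η_l⟫ = d - ∑ ⟪s_l, mm_l⟫ = O (T² + T d)` (`div_jac`); the second is
`Dω (pr z) - NF (∇ω, pr z)` (`NF_bd`, `Tan.tilt`).
2. Taylor: `ω (X y) = ω (Psi ζ) + Dω (X y) (pr z) + O (M T²)`.
3. `Tan.tilt`, and `Tan.change`, `jac_psi` for the integral over the base. -/
theorem Piece.transfer (m Q : ℕ) (A : ℝ) : ∃ C : ℝ, 1 ≤ C ∧ ∀ {N : ℕ} {S : Ref m N} {fr : Fr m N}
    {μ : Measure (E N)} {y₀ : E N} {R T : ℝ}, Piece S fr μ y₀ R T A →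
    ∀ (ξ₁ : E m) (ι' : E m →ₗᵢ[ℝ] E N) (ω : E m → ℝ) (M ρ : ℝ), S.Tan ξ₁ ι' → T ≤ ρ →
    ‖S.F ξ₁ - y₀‖ + 5 * ρ ≤ R → ContDiff ℝ 2 ω → Bd2 ω M (M / ρ) (M / ρ ^ 2) →
    (∀ X, 2 * ρ ≤ ‖X‖ → ω X = 0) →
    |YP fr μ ι' (S.F ξ₁) Q ω - S.YF fr μ Q (S.wt ξ₁ ι' ω)| ≤
      C * M * ((T ^ 2 + T * ρ ^ 2 + ρ ^ 4) * ρ ^ m +
        ρ * ∫ y in S.zeta ⁻¹' closedBall ξ₁ (3 * ρ), S.dd fr y ∂μ) := by
  obtain ⟨c, hc, hdiv⟩ := Ref.div_jac m
  obtain ⟨C, hC, hj⟩ := Ref.jac_psi m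
  set k : ℝ := c + m + 1 + 6 * (m + 1) ^ 2 with hk
  set a : ℝ := 2 * Q * (C * (81 * m ^ 2 * 6 ^ m)) with ha
  set b : ℝ := |A| * 9 ^ m with hb
  have k1 : 1 ≤ k := by
    have : (0 : ℝ) ≤ m + 1 + 6 * (m + 1) ^ 2 := by positivity
    linarith only [hc, this]
  have a0 : 0 ≤ a := by positivity
  have b0 : 0 ≤ b := by positivity
  have kb : 0 ≤ k * b := by positivity
  refine ⟨a + 2 * (k * b) + 2 * k, by linarith only [k1, a0, kb], ?_⟩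
  intro N S fr μ y₀ R T P ξ₁ ι' ω M ρ h hT hR hω hB h0
  have hT0 := P.T_pos
  have hρ0 : 0 < ρ := hT0.trans_le hT
  have hM : 0 ≤ M := (norm_nonneg _).trans (hB.b0 0)
  have h1 := FrameB_base h hω.continuous hB.b0 hρ0 h0 hC (hj S ι')
  have h2 := FrameB_var P h hT hR hω hB h0 hc fun ξ z s x1 x2 x3 => (hdiv S ξ z s x1 x2 x3).1
  have hI : 0 ≤ ∫ y in S.zeta ⁻¹' closedBall ξ₁ (3 * ρ), S.dd fr y ∂μ :=
    integral_nonneg fun y => (S.dd_bd fr y).1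
  rw [← hk, ← abs_of_nonneg (zero_le_one.trans P.A_ge), ← hb] at h2
  rw [YP, Ref.YF]
  set I := ∫ y in S.zeta ⁻¹' closedBall ξ₁ (3 * ρ), S.dd fr y ∂μ with hI'
  set I1 := ∫ y, ω (pr ι' (y - S.F ξ₁)) * (1 - tlt ι' (fun l => fr.s l y) / 2) ∂μ
  set I2 := ∫ y, S.wt ξ₁ ι' ω (S.zeta y) * (1 - S.dd fr y / 2) / sgW S.w (S.zeta y) ∂μ
  set J1 := ∫ X, ω X
  set J2 := ∫ ξ, S.wt ξ₁ ι' ω ξ
  have h3 : |2 * Q * (J1 - J2)| ≤ a * (M * (ρ ^ 4 * ρ ^ m)) := by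
    rw [abs_mul, abs_of_nonneg (by positivity), ha, mul_assoc (2 * (Q : ℝ))]
    exact mul_le_mul_of_nonneg_left h1 (by positivity)
  have e : 2 * Q * J1 - 2 * I1 - (2 * Q * J2 - 2 * I2) = 2 * Q * (J1 - J2) - 2 * (I1 - I2) := by
    ring
  obtain ⟨x, hx⟩ : ∃ x, x = M * (ρ ^ 4 * ρ ^ m) := ⟨_, rfl⟩
  obtain ⟨u, hu⟩ : ∃ u, u = M * ((T ^ 2 + T * ρ ^ 2) * ρ ^ m) := ⟨_, rfl⟩
  obtain ⟨v, hv⟩ : ∃ v, v = M * (ρ * I) := ⟨_, rfl⟩
  have x0 : 0 ≤ x := by rw [hx]; positivity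
  have u0 : 0 ≤ u := by rw [hu]; positivity
  have v0 : 0 ≤ v := by rw [hv]; positivity
  have h4 : |I1 - I2| ≤ k * b * u + k * v := h2.trans_eq (by rw [hu, hv]; ring)
  have e2 : (a + 2 * (k * b) + 2 * k) * M * ((T ^ 2 + T * ρ ^ 2 + ρ ^ 4) * ρ ^ m + ρ * I) =
      (a + 2 * (k * b) + 2 * k) * (x + u + v) := by
    rw [hx, hu, hv]
    ring
  rw [e, e2]
  rw [← hx] at h3
  refine (abs_sub _ _).trans ?_
  rw [abs_mul 2, abs_two]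
  have k0 : 0 ≤ k := by linarith only [k1]
  have := mul_nonneg a0 u0
  have := mul_nonneg a0 v0
  have := mul_nonneg kb x0
  have := mul_nonneg kb v0
  have := mul_nonneg k0 x0
  have := mul_nonneg k0 u0
  nlinarith only [h3, h4, ‹0 ≤ a * u›, ‹0 ≤ a * v›, ‹0 ≤ k * b * x›, ‹0 ≤ k * b * v›, ‹0 ≤ k * x›, this]

end Pool.Agent.MP_f6c0e6_an.Gen

end

section

/-! The flat model of a frame. -/

set_option autoImplicit false

open MeasureTheory Filter Topology Set Metric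
open scoped ENNReal RealInnerProductSpace

namespace Pool.Agent.MP_f6c0e6_an.Gen

variable {m N : ℕ}

/-- the relation between a piece and the flat model of the frame `ι'` at `y₁` of scale `ρ` -/
structure FDict {Q : ℕ} {A : ℝ} (S : Ref m N) (fr : Fr m N) (μ : Measure (E N))
    (ι' : E m →ₗᵢ[ℝ] E N) (ξ₁ : E m) (ρ T : ℝ) (F : Flat m N Q A) : Prop where
  τ_eq : F.τ = 2 * T / ρ
  Y_eq : ∀ ω : E m → ℝ, Continuous ω → (∀ X, 10 ≤ ‖X‖ → ω X = 0) →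
    F.Y ω = (ρ ^ m)⁻¹ * YP fr μ ι' (S.F ξ₁) Q fun X => ω (ρ⁻¹ • X)
  DS_le : ρ ^ m * F.DS univ ≤
    2 * (∫ y in S.zeta ⁻¹' closedBall ξ₁ (11 * ρ), S.dd fr y ∂μ) + 121 * m * A * 33 ^ m * ρ ^ (m + 2)
  RS_le : ∀ (g : ℝ) (ϖ : E N → ℝ), 0 < g → Integrable ϖ μ → (∀ y, 0 ≤ ϖ y) →
    (∀ y, ‖pr S.ι y - ξ₁‖ ≤ 11 * ρ → 1 ≤ ϖ y) →
    ρ ^ m * F.RS g F.τ univ ≤ PR fr μ ι' (ρ * g) (2 * T) ϖ

section

variable {S : Ref m N} {fr : Fr m N} {μ : Measure (E N)} {y₀ : E N} {R T A ρ : ℝ} {ξ₁ : E m}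
  {ι' : E m →ₗᵢ[ℝ] E N}

/-- points of the piece over the ball of radius `10 ρ` of the tangent plane -/
theorem FrameC_geo (P : Piece S fr μ y₀ R T A) (h : S.Tan ξ₁ ι') (hT : T ≤ ρ)
    (h2 : 2 * ρ ^ 2 ≤ T) : ∀ᵐ y ∂μ, LD m μ y (cg m) ∧ (‖pr ι' (y - S.F ξ₁)‖ < 10 * ρ →
      ‖pr S.ι y - ξ₁‖ ≤ 11 * ρ ∧ ‖S.zeta y - ξ₁‖ ≤ 11 * ρ ∧ ‖vt ι' (y - S.F ξ₁)‖ ≤ 2 * T) := by
  have hT0 := P.T_pos
  filter_upwards [P.ae, P.ae_tube] with y hy hz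
  refine ⟨hy.2.2, fun hp => ?_⟩
  have h1 := (h.sep y (S.F ξ₁)).1
  rw [(S.F_calc ξ₁).2.2.2.2.1, (S.gh_calc y).2.2.2.2.2 ξ₁, norm_zero, add_zero] at h1
  have h3 : ‖pr S.ι y - ξ₁‖ ≤ 21 / 2 * ρ := by linarith only [hT, hT0, hy, hp, h1, hy.2.1]
  have h4 : ‖S.zeta y - ξ₁‖ ≤ 11 * ρ := by
    have h5 := norm_sub_le_norm_sub_add_norm_sub (S.zeta y) (pr S.ι y) ξ₁
    linarith only [hT, hT0, hy, hz, hp, h1, h5, hz.2.2.2.2.2.1]
  refine ⟨by linarith only [hT, hT0, hy, hp, h1], h4, ?_⟩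
  have e : y - S.F ξ₁ = (S.F (S.zeta y) - S.F ξ₁) + S.zz y := by
    conv_lhs => rw [(S.tube_spec hz.1).2.1]
    abel
  have h6 := (h.near (S.zeta y) 0 0).2.2.1
  have h7 : ‖S.zeta y - ξ₁‖ ^ 2 ≤ (11 * ρ) ^ 2 := pow_le_pow_left₀ (norm_nonneg _) h4 2
  have h8 := (norm_pr_le ι' (S.zz y)).2.1
  rw [e, vt_add]
  refine (norm_add_le _ _).trans ?_
  nlinarith only [h2, hT0, hz, h6, h7, h8, hz.2.1]

theorem FrameC_lt (ι' : E m →ₗᵢ[ℝ] E N) (hρ : 0 < ρ) (v : E N) :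
    ‖pr ι' (ρ⁻¹ • v)‖ < 10 ↔ ‖pr ι' v‖ < 10 * ρ := by
  rw [map_smul, norm_smul, Real.norm_of_nonneg (inv_nonneg.2 hρ.le), inv_mul_lt_iff₀ hρ, mul_comm]

theorem FrameC_ae (P : Piece S fr μ y₀ R T A) (h : S.Tan ξ₁ ι') (hT : T ≤ ρ)
    (h2 : 2 * ρ ^ 2 ≤ T) : ∀ᵐ y ∂(scl m μ (S.F ξ₁) ρ), LD m (scl m μ (S.F ξ₁) ρ) y (cg m) ∧
      (‖pr ι' y‖ < 10 → ‖pr S.ι (S.F ξ₁ + ρ • y) - ξ₁‖ ≤ 11 * ρ ∧ ‖vt ι' y‖ ≤ 2 * T / ρ) := by
  have hρ : 0 < ρ := P.T_pos.trans_le hT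
  rw [ae_scl μ _ hρ]
  filter_upwards [FrameC_geo P h hT h2] with y hy
  rw [StartA_inv _ hρ, FrameC_lt ι' hρ]
  refine ⟨LD.scl hρ ?_, fun hp => ⟨(hy.2 hp).1, ?_⟩⟩
  · rw [StartA_inv _ hρ]
    exact hy.1
  · rw [vt_smul, norm_smul, Real.norm_of_nonneg (inv_nonneg.2 hρ.le), div_eq_inv_mul]
    exact mul_le_mul_of_nonneg_left (hy.2 hp).2.2 (inv_nonneg.2 hρ.le)

theorem FrameC_key (P : Piece S fr μ y₀ R T A) (h : S.Tan ξ₁ ι') (hT : 200 * T ≤ ρ)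
    (h2 : 2 * ρ ^ 2 ≤ T) (f : E N → ℝ) (hf : ∀ y, 10 ≤ ‖pr ι' y‖ → f y = 0) :
    ∫ y, f y ∂((scl m μ (S.F ξ₁) ρ).restrict (cylF ι')) =
      (ρ ^ m)⁻¹ * ∫ y, f (ρ⁻¹ • (y - S.F ξ₁)) ∂μ := by
  have hT0 := P.T_pos
  have hρ : 0 < ρ := by linarith
  have hτ : 2 * T / ρ < 1 := by
    rw [div_lt_one hρ]
    linarith
  rw [setIntegral_eq_integral_of_ae_compl_eq_zero, integral_scl μ _ hρ, smul_eq_mul]
  filter_upwards [FrameC_ae P h (by linarith) h2] with y hy hc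
  exact hf y (not_lt.1 fun h' => hc ⟨h', (hy.2 h').2.trans_lt hτ⟩)

theorem FrameC_mtlt (fr : Fr m N) (ι' : E m →ₗᵢ[ℝ] E N) :
    Measurable fun y => tlt ι' fun l => fr.s l y :=
  Finset.measurable_sum _ fun l _ =>
    (((contDiff_vt ι' 0).continuous.measurable.comp (fr.meas l)).norm.pow_const 2)

theorem FrameC_itlt (fr : Fr m N) (ι' : E m →ₗᵢ[ℝ] E N) (ν : Measure (E N)) [IsFiniteMeasure ν] :
    Integrable (fun y => tlt ι' fun l => fr.s l y) ν :=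
  Integrable.of_bound (FrameC_mtlt fr ι').aestronglyMeasurable m (Eventually.of_forall fun y => by
    rw [Real.norm_of_nonneg (tlt_bd ι' (fr.orth y)).1]
    exact (tlt_bd ι' (fr.orth y)).2)

theorem FrameC_idd (S : Ref m N) (fr : Fr m N) (ν : Measure (E N)) [IsFiniteMeasure ν] :
    Integrable (S.dd fr) ν :=
  Integrable.of_bound (S.measurable_all fr).2.1.aestronglyMeasurable m
    (Eventually.of_forall fun y => by
      rw [Real.norm_of_nonneg (S.dd_bd fr y).1]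
      exact (S.dd_bd fr y).2.1)

/-- the defect of the rescaled measure -/
theorem FrameC_Y (P : Piece S fr μ y₀ R T A) (h : S.Tan ξ₁ ι') (hT : 200 * T ≤ ρ)
    (h2 : 2 * ρ ^ 2 ≤ T) (Q : ℕ) (ω : E m → ℝ) (h0 : ∀ X, 10 ≤ ‖X‖ → ω X = 0) :
    2 * Q * (∫ X, ω X) - 2 * ∫ y, ω (pr ι' y) *
      (1 - tlt ι' (fun l => (fr.scl (S.F ξ₁) ρ).s l y) / 2)
        ∂((scl m μ (S.F ξ₁) ρ).restrict (cylF ι')) =
      (ρ ^ m)⁻¹ * YP fr μ ι' (S.F ξ₁) Q fun X => ω (ρ⁻¹ • X) := by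
  have hT0 := P.T_pos
  have hρ : 0 < ρ := by linarith
  have hρm : (0 : ℝ) < ρ ^ m := by positivity
  rw [FrameC_key P h hT h2 _ fun y hy => by rw [h0 _ hy, zero_mul], YP,
    Measure.integral_comp_inv_smul, finrank_euclideanSpace_fin, abs_of_pos hρm, smul_eq_mul]
  simp only [Fr.scl, StartA_inv _ hρ, map_smul]
  field_simp

theorem FrameC_DS (P : Piece S fr μ y₀ R T A) (h : S.Tan ξ₁ ι') (hT : T ≤ ρ)
    (h2 : 2 * ρ ^ 2 ≤ T) :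
    ρ ^ m * ∫ y, tlt ι' (fun l => (fr.scl (S.F ξ₁) ρ).s l y)
        ∂((scl m μ (S.F ξ₁) ρ).restrict (cylF ι')) ≤
      2 * (∫ y in S.zeta ⁻¹' closedBall ξ₁ (11 * ρ), S.dd fr y ∂μ) +
        121 * m * A * 33 ^ m * ρ ^ (m + 2) := by
  have hT0 := P.T_pos
  have hρ : 0 < ρ := by linarith
  have hρm : (0 : ℝ) < ρ ^ m := by positivity
  have := P.fin
  have hm0 : (0 : ℝ) ≤ m := Nat.cast_nonneg m
  have hZ : MeasurableSet (S.zeta ⁻¹' closedBall ξ₁ (11 * ρ)) :=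
    S.measurable_zeta.1 measurableSet_closedBall
  have hW : MeasurableSet ((fun y => ρ⁻¹ • (y - S.F ξ₁)) ⁻¹' cylF ι') :=
    (StartA_emb _ hρ).measurable (isOpen_cylF ι').measurableSet
  have i1 := FrameC_idd S fr μ
  have i2 : Integrable (fun y => 2 * S.dd fr y + 121 * m * ρ ^ 2) μ :=
    (i1.const_mul 2).add (integrable_const _)
  rw [scl_restrict μ _ hρ, integral_scl _ _ hρ, smul_eq_mul, ← mul_assoc,
    mul_inv_cancel₀ hρm.ne', one_mul]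
  simp only [Fr.scl, StartA_inv _ hρ]
  have a1 : ∫ y in (fun y => ρ⁻¹ • (y - S.F ξ₁)) ⁻¹' cylF ι', tlt ι' (fun l => fr.s l y) ∂μ ≤
      ∫ y in S.zeta ⁻¹' closedBall ξ₁ (11 * ρ), (2 * S.dd fr y + 121 * m * ρ ^ 2) ∂μ := by
    rw [← integral_indicator hW, ← integral_indicator hZ]
    refine integral_mono_ae ((FrameC_itlt fr ι' μ).indicator hW) (i2.indicator hZ) ?_
    filter_upwards [FrameC_geo P h hT h2] with y hy
    by_cases hc : y ∈ (fun y => ρ⁻¹ • (y - S.F ξ₁)) ⁻¹' cylF ι'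
    · have h3 := (hy.2 ((FrameC_lt ι' hρ _).1 hc.1)).2.1
      have h4 : y ∈ S.zeta ⁻¹' closedBall ξ₁ (11 * ρ) := mem_closedBall_iff_norm.2 h3
      rw [indicator_of_mem hc, indicator_of_mem h4]
      have h5 := (h.tilt (S.zeta y) (fr.orth y)).2
      have h6 : ‖S.zeta y - ξ₁‖ ^ 2 ≤ (11 * ρ) ^ 2 := pow_le_pow_left₀ (norm_nonneg _) h3 2
      have h7 := mul_le_mul_of_nonneg_left h6 hm0
      unfold Ref.dd
      linarith
    · rw [indicator_of_notMem hc]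
      exact indicator_nonneg (fun y _ => by
        have := (S.dd_bd fr y).1
        positivity) _
  refine a1.trans ?_
  rw [integral_add (i1.const_mul 2).integrableOn (integrable_const _), integral_const_mul,
    setIntegral_const, smul_eq_mul]
  have a2 := (P.mass_cyl ξ₁ (ρ := 11 * ρ) (by linarith)).1
  have a3 : μ.real (S.zeta ⁻¹' closedBall ξ₁ (11 * ρ)) * (121 * m * ρ ^ 2) ≤
      A * 3 ^ m * (11 * ρ) ^ m * (121 * m * ρ ^ 2) :=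
    mul_le_mul_of_nonneg_right a2 (by positivity)
  have a4 : A * 3 ^ m * (11 * ρ) ^ m * (121 * m * ρ ^ 2) =
      121 * m * A * 33 ^ m * ρ ^ (m + 2) := by
    rw [show (33 : ℝ) = 3 * 11 by norm_num, mul_pow, mul_pow]
    ring
  linarith only [a3, a4]

theorem FrameC_RS (P : Piece S fr μ y₀ R T A) (h : S.Tan ξ₁ ι') (hT : T ≤ ρ)
    (h2 : 2 * ρ ^ 2 ≤ T) {g : ℝ} {ϖ : E N → ℝ} (hg : 0 < g) (hi : Integrable ϖ μ)
    (h0 : ∀ y, 0 ≤ ϖ y) (h1 : ∀ y, ‖pr S.ι y - ξ₁‖ ≤ 11 * ρ → 1 ≤ ϖ y) :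
    ρ ^ m * PR (fr.scl (S.F ξ₁) ρ) ((scl m μ (S.F ξ₁) ρ).restrict (cylF ι')) ι' g (2 * T / ρ)
      (fun _ => 1) ≤ PR fr μ ι' (ρ * g) (2 * T) ϖ := by
  have hT0 := P.T_pos
  have hρ : 0 < ρ := by linarith
  have hρm : (0 : ℝ) < ρ ^ m := by positivity
  have := P.fin
  have := scl_finite (m := m) μ (S.F ξ₁) ρ
  have i1 : Integrable (fun y => ϖ (S.F ξ₁ + ρ • y)) (scl m μ (S.F ξ₁) ρ) := by
    refine Integrable.smul_measure ?_ ENNReal.ofReal_ne_top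
    rw [(StartA_emb _ hρ).integrable_map_iff]
    simpa only [Function.comp_def, StartA_inv _ hρ] using hi
  have a1 := PR_mono (fr.scl (S.F ξ₁) ρ) (μ := (scl m μ (S.F ξ₁) ρ).restrict (cylF ι'))
    (ν := scl m μ (S.F ξ₁) ρ) Measure.restrict_le_self ι' hg (r := 2 * T / ρ) (by positivity)
    (integrable_const (1 : ℝ)) i1 (Eventually.of_forall fun y => h0 _) (by
      filter_upwards [ae_restrict_mem (isOpen_cylF ι').measurableSet,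
        ae_restrict_of_ae (FrameC_ae P h hT h2)] with y hy hy'
      exact h1 _ (hy'.2 hy.1).1)
  rw [PR_scl fr μ ι' _ hρ, mul_div_cancel₀ _ hρ.ne'] at a1
  simp only [StartA_inv _ hρ] at a1
  rw [← le_inv_mul_iff₀ hρm]
  exact a1

theorem FrameC_wt (S : Ref m N) (ξ₁ : E m) (ι' : E m →ₗᵢ[ℝ] E N) {ω : E m → ℝ}
    (hω : Continuous ω) : Continuous (S.wt ξ₁ ι' ω) := by
  obtain ⟨-, h1, h2⟩ := contDiff_gW (w := S.w) (n := 2) S.smooth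
  have c1 := h1.continuous
  have c2 := h2.continuous
  have c3 := (S.F_calc 0).2.1.continuous
  have c4 := (S.F_calc 0).2.2.1.continuous
  have c5 := (contDiff_vt ι' 0).continuous
  have c6 : Continuous (S.Psi ξ₁ ι') := (pr ι').continuous.comp (c3.sub continuous_const)
  have c7 : Continuous (S.tl0 ι') := continuous_finsetSum _ fun j _ =>
    (c5.comp (c4.clm_apply (c1.clm_apply continuous_const))).inner
      (c4.clm_apply continuous_const)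
  exact (hω.comp c6).mul (c2.mul (continuous_const.sub (c7.div_const 2)))

theorem FrameC_wt_bd (h : S.Tan ξ₁ ι') (hρ : 0 < ρ) (hρ1 : ρ ≤ 1 / 2) {ω : E m → ℝ} {M : ℝ}
    (hM : ∀ X, ‖ω X‖ ≤ M) (h0 : ∀ X, ρ ≤ ‖X‖ → ω X = 0) :
    (∀ ξ, ξ ∉ closedBall ξ₁ (2 * ρ) → S.wt ξ₁ ι' ω ξ = 0) ∧
      ∀ ξ, |S.wt ξ₁ ι' ω ξ| ≤ M * (2 ^ m * (1 + m)) := by
  have hM0 : 0 ≤ M := (norm_nonneg _).trans (hM 0)
  have hm0 : (0 : ℝ) ≤ m := Nat.cast_nonneg m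
  have a1 : ∀ ξ, ξ ∉ closedBall ξ₁ (2 * ρ) → S.wt ξ₁ ι' ω ξ = 0 := fun ξ hξ => by
    rw [mem_closedBall_iff_norm, not_le] at hξ
    have h1 := (h.sep (S.F ξ) (S.F ξ₁)).1
    rw [(S.F_calc ξ₁).2.2.2.2.1, (S.F_calc ξ).2.2.2.2.1, (S.gh_calc 0).2.2.2.2.2,
      (S.gh_calc 0).2.2.2.2.2, norm_zero] at h1
    rw [Ref.wt, h0 _ (by rw [Ref.Psi]; linarith only [hρ, hξ, h1]), zero_mul]
  refine ⟨a1, fun ξ => ?_⟩
  by_cases hξ : ξ ∈ closedBall ξ₁ (2 * ρ)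
  · rw [mem_closedBall_iff_norm] at hξ
    obtain ⟨b1, b2⟩ := (h.near ξ 0 0).2.2.2.2.2
    have b3 : ‖ξ - ξ₁‖ ^ 2 ≤ 1 := pow_le_one₀ (norm_nonneg _) (by linarith)
    have b4 := mul_le_mul_of_nonneg_left b3 hm0
    obtain ⟨-, s1, s2⟩ := sgW_bd S.w ξ
    have s3 := s2 ((S.b1 ξ).trans (by norm_num))
    rw [Ref.wt, abs_mul, abs_mul, abs_of_nonneg (by linarith : 0 ≤ sgW S.w ξ)]
    refine mul_le_mul (hM _) (mul_le_mul s3 (abs_le.2 ⟨by linarith only [hρ, hρ1, b2, b4], by linarith⟩) (abs_nonneg _)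
      (by positivity)) (mul_nonneg (by linarith) (abs_nonneg _)) hM0
  · rw [a1 ξ hξ, abs_zero]
    positivity

end

/-- the defect of the mollifier in the flat frame is small -/
theorem FrameC_anchor (m : ℕ) (hm : 1 ≤ m) (Q : ℕ) (A : ℝ) : ∃ δ : ℝ, 0 < δ ∧ ∀ {N : ℕ}
    {S : Ref m N} {fr : Fr m N} {μ : Measure (E N)} {y₀ : E N} {R T : ℝ}, Piece S fr μ y₀ R T A →
    Anch S fr μ Q y₀ R → ∀ (ξ₁ : E m) (ι' : E m →ₗᵢ[ℝ] E N) (ρ : ℝ), S.Tan ξ₁ ι' → T ≤ δ * ρ →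
    ρ ≤ δ → ‖S.F ξ₁ - y₀‖ + 100 * ρ ≤ R → |YP fr μ ι' (S.F ξ₁) Q (rho ρ)| ≤ 1 / 10 := by
  obtain ⟨C₁, hC₁, H₁⟩ := Piece.transfer m Q A
  obtain ⟨δ₀, C₂, hδ₀, hδ₁, hC₂, H₂⟩ := Piece.energy m hm Q A
  obtain ⟨C₃, hC₃, H₃⟩ := rho_bd m
  have hm0 : (0 : ℝ) ≤ m := Nat.cast_nonneg m
  obtain ⟨K, hK⟩ : ∃ K : ℝ, K = C₁ * C₃ * (3 + C₂ * 3 ^ m) +
    C₂ * (C₃ * (2 ^ m * (1 + m))) * (C₂ * 3 ^ m + |A| * 9 ^ m) := ⟨_, rfl⟩
  have hK0 : 0 < K := by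
    rw [hK]
    positivity
  refine ⟨min (min δ₀ (1 / 2)) (1 / (10 * K)), by positivity, ?_⟩
  intro N S fr μ y₀ R T P hA ξ₁ ι' ρ h hT hρδ hR
  generalize hδ : min (min δ₀ (1 / 2)) (1 / (10 * K)) = δ at hT hρδ
  have d0 : 0 < δ := by
    rw [← hδ]
    positivity
  have d1 : δ ≤ δ₀ := hδ ▸ (min_le_left _ _).trans (min_le_left _ _)
  have d2 : δ ≤ 1 / 2 := hδ ▸ (min_le_left _ _).trans (min_le_right _ _)
  have d3 : K * δ ≤ 1 / 10 := by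
    have d4 : δ ≤ 1 / (10 * K) := hδ ▸ min_le_right _ _
    rw [le_div_iff₀ (by positivity)] at d4
    linarith only [d4]
  have hT0 := P.T_pos
  have hA1 := P.A_ge
  have := P.fin
  have hρ : 0 < ρ := (mul_pos_iff_of_pos_left d0).1 (hT0.trans_le hT)
  have hρm : (0 : ℝ) < ρ ^ m := by positivity
  have hTρ : T ≤ ρ := by nlinarith only [hT, hδ₁, hT0, d0, d1]
  have hn := norm_nonneg (S.F ξ₁ - y₀)
  obtain ⟨-, E1, E2⟩ := H₂ P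
  have B := (H₃ ρ hρ 0).1
  simp only [sub_zero] at B
  have B' : Bd2 (rho ρ : E m → ℝ) (C₃ / ρ ^ m) (C₃ / ρ ^ m / ρ) (C₃ / ρ ^ m / ρ ^ 2) := by
    rw [div_div, div_div, ← pow_succ, ← pow_add]
    exact B
  have t1 := H₁ P ξ₁ ι' (rho ρ) (C₃ / ρ ^ m) ρ h hTρ (by linarith)
    ((contDiff_rho ρ).of_le (by norm_num)) B' fun X hX => rho_eq_zero hρ (by linarith)
  obtain ⟨w1, w2⟩ := FrameC_wt_bd h hρ (hρδ.trans d2) B'.b0 fun X hX => rho_eq_zero hρ hX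
  have t2 := (E2 ρ hA (hT.trans (mul_le_mul_of_nonneg_right d1 hρ.le)) (by linarith only [hR, hρ, hn])).2 _ _
    (closedBall ξ₁ (2 * ρ)) (FrameC_wt S ξ₁ ι' (contDiff_rho ρ).continuous).measurable w2
    measurableSet_closedBall (fun ξ hξ => by
      have b1 := (S.F_lip ξ ξ₁).2.1
      have b2 := norm_sub_le_norm_sub_add_norm_sub (S.F ξ) (S.F ξ₁) y₀
      rw [mem_closedBall_iff_norm] at hξ
      change ‖S.F ξ - y₀‖ < R - 10 * ρ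
      linarith only [hR, hρ, hξ, b1, b2]) w1
  have e1 := E1 ξ₁ (3 * ρ) (by linarith only [hρ, hTρ]) (by linarith only [hR, hρ])
  have hT2 : T ^ 2 ≤ δ * ρ ^ 2 := by
    have b1 : T ^ 2 ≤ (δ * ρ) ^ 2 := pow_le_pow_left₀ hT0.le hT 2
    have b2 : δ * δ ≤ δ := by nlinarith only [hδ₁, hδ₀, d0, d1]
    nlinarith only [b1, b2, mul_le_mul_of_nonneg_right b2 (sq_nonneg ρ)]
  have hρ1 : ρ ≤ 1 := by linarith only [hρδ, d0, d2]
  have hρ2 : ρ ^ 2 ≤ 1 := pow_le_one₀ hρ.le hρ1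
  have hT3 : T ^ 2 ≤ δ := hT2.trans (mul_le_of_le_one_right d0.le hρ2)
  have e2 : ∫ y in S.zeta ⁻¹' closedBall ξ₁ (3 * ρ), S.dd fr y ∂μ ≤ C₂ * 3 ^ m * δ * ρ ^ m := by
    refine e1.trans ?_
    rw [div_le_iff₀ (by positivity), mul_pow]
    have b1 : T ^ 2 ≤ δ * (3 * ρ) ^ 2 := by nlinarith only [hT2, mul_pos d0 (pow_pos hρ 2)]
    calc C₂ * T ^ 2 * (3 ^ m * ρ ^ m) = C₂ * 3 ^ m * ρ ^ m * T ^ 2 := by ring
      _ ≤ C₂ * 3 ^ m * ρ ^ m * (δ * (3 * ρ) ^ 2) := mul_le_mul_of_nonneg_left b1 (by positivity)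
      _ = _ := by ring
  have i1 := FrameC_idd S fr μ
  have i2 : Integrable (fun y => ‖S.zz y‖ ^ 2) μ :=
    Integrable.of_bound (S.measurable_zeta.2.norm.pow_const 2).aestronglyMeasurable 1
      (Eventually.of_forall fun y => by
        rw [Real.norm_of_nonneg (sq_nonneg _)]
        exact pow_le_one₀ (norm_nonneg _) ((S.zz_bd y).1.trans (by norm_num)))
  have e3 : ∫ y in S.zeta ⁻¹' thickening ρ (closedBall ξ₁ (2 * ρ)),
      (S.dd fr y + ‖S.zz y‖ ^ 2) ∂μ ≤ (C₂ * 3 ^ m + |A| * 9 ^ m) * δ * ρ ^ m := by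
    have b1 : thickening ρ (closedBall ξ₁ (2 * ρ)) ⊆ closedBall ξ₁ (3 * ρ) := by
      rw [thickening_closedBall hρ (by positivity), show ρ + 2 * ρ = 3 * ρ by ring]
      exact ball_subset_closedBall
    have i3 : Integrable (fun y => S.dd fr y + ‖S.zz y‖ ^ 2) μ := i1.add i2
    refine (setIntegral_mono_set i3.integrableOn (Eventually.of_forall fun y =>
      add_nonneg (S.dd_bd fr y).1 (sq_nonneg _)) (preimage_mono b1).eventuallyLE).trans ?_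
    rw [integral_add i1.integrableOn i2.integrableOn]
    have b2 : ∫ y in S.zeta ⁻¹' closedBall ξ₁ (3 * ρ), ‖S.zz y‖ ^ 2 ∂μ ≤
        ∫ _ in S.zeta ⁻¹' closedBall ξ₁ (3 * ρ), δ ∂μ := by
      refine integral_mono_ae i2.integrableOn (integrable_const _) (ae_restrict_of_ae ?_)
      filter_upwards [P.ae_tube] with y hy
      exact (pow_le_pow_left₀ (norm_nonneg _) hy.2.1 2).trans hT3
    rw [setIntegral_const, smul_eq_mul] at b2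
    have b3 := mul_le_mul_of_nonneg_right (P.mass_cyl ξ₁ (ρ := 3 * ρ) (by linarith only [hρ, hTρ])).1 d0.le
    have b4 : A * 3 ^ m * (3 * ρ) ^ m * δ = |A| * 9 ^ m * δ * ρ ^ m := by
      rw [abs_of_nonneg (by linarith), show (9 : ℝ) = 3 * 3 by norm_num, mul_pow, mul_pow]
      ring
    have b5 : μ.real (S.zeta ⁻¹' closedBall ξ₁ (3 * ρ)) * δ ≤ |A| * 9 ^ m * δ * ρ ^ m :=
      b4 ▸ b3
    linarith
  have e4 : (T ^ 2 + T * ρ ^ 2 + ρ ^ 4) * ρ ^ m +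
      ρ * ∫ y in S.zeta ⁻¹' closedBall ξ₁ (3 * ρ), S.dd fr y ∂μ ≤
      (3 + C₂ * 3 ^ m) * δ * ρ ^ m := by
    have b1 : T * ρ ^ 2 ≤ δ := (mul_le_of_le_one_right hT0.le hρ2).trans (hTρ.trans hρδ)
    have b2 : ρ ^ 4 ≤ δ := (pow_le_of_le_one hρ.le hρ1 (by norm_num)).trans hρδ
    have b3 := mul_le_mul_of_nonneg_right (show T ^ 2 + T * ρ ^ 2 + ρ ^ 4 ≤ 3 * δ by linarith)
      hρm.le
    have b4 := mul_le_mul hρ1 e2 (setIntegral_nonneg (S.measurable_zeta.1 measurableSet_closedBall)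
      fun y _ => (S.dd_bd fr y).1) zero_le_one
    linarith only [b3, b4]
  have f1 := t1.trans (mul_le_mul_of_nonneg_left e4 (by positivity))
  have f2 := t2.trans (mul_le_mul_of_nonneg_left e3 (by positivity))
  have f3 : C₁ * (C₃ / ρ ^ m) * ((3 + C₂ * 3 ^ m) * δ * ρ ^ m) +
      C₂ * (C₃ / ρ ^ m * (2 ^ m * (1 + m))) * ((C₂ * 3 ^ m + |A| * 9 ^ m) * δ * ρ ^ m) =
      K * δ := by
    rw [hK]
    field_simp
  have f4 := abs_sub_abs_le_abs_sub (YP fr μ ι' (S.F ξ₁) Q (rho ρ))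
    (S.YF fr μ Q (S.wt ξ₁ ι' (rho ρ)))
  linarith only [d3, f1, f2, f3, f4]

/-- `μ' = (scl m μ (F ξ₁) ρ).restrict (cylF ι')`, `fr' = fr.scl (F ξ₁) ρ`. For almost every `y`,
`‖y - F ξ₁‖ ≤ R` is small, and if `‖pr ι' (y - F ξ₁)‖ < 10 ρ` then `‖zeta y - ξ₁‖ ≤ 11 ρ`,
`‖pr y - ξ₁‖ ≤ 11 ρ` and `‖vt ι' (y - F ξ₁)‖ ≤ T + (11 ρ)² / 100 ≤ 2 T` (`Tan.near`). The anchor is
`|YP (rho ρ)| / 2`, which is small by `transfer` and `energy` (with `s = ρ`). `PR_scl`, `PR_mono`. -/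
theorem Piece.exists_flat (m : ℕ) (hm : 1 ≤ m) (Q : ℕ) (A : ℝ) : ∃ δ : ℝ, 0 < δ ∧ ∀ {N : ℕ}
    {S : Ref m N} {fr : Fr m N} {μ : Measure (E N)} {y₀ : E N} {R T : ℝ}, Piece S fr μ y₀ R T A →
    Anch S fr μ Q y₀ R → ∀ (ξ₁ : E m) (ι' : E m →ₗᵢ[ℝ] E N) (ρ : ℝ), S.Tan ξ₁ ι' → T ≤ δ * ρ →
    ρ ≤ δ → 2 * ρ ^ 2 ≤ T → ‖S.F ξ₁ - y₀‖ + 100 * ρ ≤ R →
    ∃ F : Flat m N Q A, FDict S fr μ ι' ξ₁ ρ T F := by
  obtain ⟨δ₀, hδ₀, H⟩ := FrameC_anchor m hm Q A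
  refine ⟨min δ₀ (1 / 200), by positivity, ?_⟩
  intro N S fr μ y₀ R T P hA ξ₁ ι' ρ h hT hρδ h2 hR
  have hT0 := P.T_pos
  have d0 : 0 < min δ₀ (1 / 200) := by positivity
  have hρ : 0 < ρ := (mul_pos_iff_of_pos_left d0).1 (hT0.trans_le hT)
  have hρm : (0 : ℝ) < ρ ^ m := by positivity
  have h3 : 200 * T ≤ ρ := by
    linarith only [hT, hρ, mul_le_mul_of_nonneg_right (min_le_right δ₀ (1 / 200)) hρ.le]
  have h4 : T ≤ ρ := by linarith only [hT0, h3]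
  have hanc := H P hA ξ₁ ι' ρ h (hT.trans (mul_le_mul_of_nonneg_right (min_le_left _ _) hρ.le))
    (hρδ.trans (min_le_left _ _)) hR
  have := P.fin
  have := scl_finite (m := m) μ (S.F ξ₁) ρ
  have hO := isOpen_cylF ι'
  have hsub : cylF ι' ⊆ (fun y => S.F ξ₁ + ρ • y) ⁻¹' ball y₀ R := fun y hy => by
    have b1 := (norm_pr_le ι' y).2.2
    have b2 : ‖y‖ < 11 := by linarith only [b1, hy.1, hy.2]
    have b3 := norm_add_le (S.F ξ₁ - y₀) (ρ • y)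
    rw [norm_smul, Real.norm_of_nonneg hρ.le] at b3
    rw [mem_preimage, mem_ball_iff_norm, add_sub_right_comm]
    nlinarith only [hT, h2, hT0, b2, hρδ, hR, b3]
  have hτ : 2 * T / ρ ≤ 1 / 100 := by
    rw [div_le_iff₀ hρ]
    linarith
  refine ⟨⟨fr.scl (S.F ξ₁) ρ, (scl m μ (S.F ξ₁) ρ).restrict (cylF ι'), ι', 2 * T / ρ,
    by positivity, hτ, P.A_ge, inferInstance, ?_, (P.stat.scl _ hρ).restrict hO hsub,
    (P.mass.scl _ hρ).mono Measure.restrict_le_self, (P.area.scl _ hρ).restrict hO, ?_⟩,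
    rfl, fun ω hω h0 => ?_, ?_, fun g ϖ hg hi g0 g1 => ?_⟩
  · filter_upwards [ae_restrict_mem hO.measurableSet, ae_restrict_of_ae (FrameC_ae P h h4 h2)]
      with y hy hy'
    exact ⟨hy.1, (hy'.2 hy.1).2, hy'.1.restrict hO hy⟩
  · have a1 := FrameC_Y P h h3 h2 Q (rho 1) fun X hX => rho_eq_zero one_pos (by linarith)
    have a2 := integral_rho (m := m) one_pos 0
    simp only [sub_zero] at a2
    have a3 : (fun X : E m => rho 1 (ρ⁻¹ • X)) = fun X => ρ ^ m * rho ρ X := by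
      funext X
      have a4 := rho_smul hρ 1 (ρ⁻¹ • X)
      rw [mul_one, smul_inv_smul₀ hρ.ne'] at a4
      rw [a4, mul_div_cancel₀ _ hρm.ne']
    have a5 : (ρ ^ m)⁻¹ * YP fr μ ι' (S.F ξ₁) Q (fun X => ρ ^ m * rho ρ X) =
        YP fr μ ι' (S.F ξ₁) Q (rho ρ) := by
      simp only [YP, mul_assoc, integral_const_mul]
      field_simp
    rw [a2, a3, a5] at a1
    rw [← a1] at hanc
    obtain ⟨a6, a7⟩ := abs_le.1 hanc
    exact abs_le.2 ⟨by linarith only [a7], by linarith only [a6]⟩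
  · rw [← FrameC_Y P h h3 h2 Q ω h0]
    obtain ⟨M, hM⟩ := hω.bounded_above_of_compact_support
      (HasCompactSupport.intro (isCompact_closedBall 0 10) fun X hX =>
        h0 X (not_le.1 fun h' => hX (mem_closedBall_zero_iff.2 h')).le)
    have hm' : Measurable fun y => ω (pr ι' y) := (hω.comp (pr ι').continuous).measurable
    have i1 : Integrable (fun y => ω (pr ι' y)) ((scl m μ (S.F ξ₁) ρ).restrict (cylF ι')) :=
      Integrable.of_bound hm'.aestronglyMeasurable M (Eventually.of_forall fun y => hM _)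
    have i2 := (FrameC_itlt (fr.scl (S.F ξ₁) ρ) ι' ((scl m μ (S.F ξ₁) ρ).restrict
      (cylF ι'))).bdd_mul hm'.aestronglyMeasurable (Eventually.of_forall fun y => hM _)
    have e : ∀ a b : ℝ, a * (1 - b / 2) = a - 1 / 2 * (a * b) := fun a b => by ring
    simp only [Flat.Y, Flat.DD, Flat.ee, Flat.x, Flat.d, e]
    rw [integral_sub i1 (i2.const_mul _), integral_const_mul]
    ring
  · simp only [Flat.DS, preimage_univ, Measure.restrict_univ, Flat.d]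
    exact FrameC_DS P h h4 h2
  · simp only [Flat.RS, indicator_univ, Pi.one_apply]
    exact FrameC_RS P h h4 h2 hg hi g0 g1

end Pool.Agent.MP_f6c0e6_an.Gen

end
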