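import Pool.Agent.MP_f6c0e6_an.All.FlatB
import Pool.Agent.MP_f6c0e6_an.All.Stat
import Pool.Agent.MP_f6c0e6_an.All.Conv

section

/-! Blow-up of the flat model. -/

set_option autoImplicit false

open MeasureTheory Filter Topology Set Metric
open scoped ENNReal RealInnerProductSpace

namespace Pool.Agent.MP_f6c0e6_an.Gen

variable {m N : ℕ}

/-- the weight in the original coordinates -/
noncomputable def up (ξ₀ : E m) (l : ℝ) (f : E m → ℝ) (v : E m) : ℝ := f (l⁻¹ • (v - ξ₀))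

/-- the set in the original coordinates -/
def upS (ξ₀ : E m) (l : ℝ) (Z : Set (E m)) : Set (E m) := {v | l⁻¹ • (v - ξ₀) ∈ Z}

/-- the relation between a flat model and its blow-up at `ξ₀` of scale `l` -/
structure Blow {Q : ℕ} {A : ℝ} (F F' : Flat m N Q A) (ξ₀ : E m) (l : ℝ) : Prop where
  τ_eq : F'.τ = F.τ / l
  lin : ∀ f : E m → ℝ, (∀ x, 10 ≤ ‖x‖ → f x = 0) →
    F'.DD f = (l ^ m)⁻¹ * F.DD (up ξ₀ l f) ∧ F'.Y f = (l ^ m)⁻¹ * F.Y (up ξ₀ l f)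
  DS : ∀ Z : Set (E m), MeasurableSet Z → Z ⊆ ball 0 10 →
    F'.DS Z = (l ^ m)⁻¹ * F.DS (upS ξ₀ l Z)
  ratio : ∀ (ξ : E m) (ρ : ℝ), 0 < ρ → ‖ξ‖ + ρ ≤ 10 →
    F'.psi ξ ρ = (l ^ 2)⁻¹ * F.psi (ξ₀ + l • ξ) (l * ρ) ∧
    F'.nn ξ ρ = (l ^ 2)⁻¹ * F.nn (ξ₀ + l • ξ) (l * ρ) ∧
    F'.Xi ξ ρ = (l ^ 2)⁻¹ * F.Xi (ξ₀ + l • ξ) (l * ρ)
  RS : ∀ (g r : ℝ) (Z : Set (E m)), 0 < g → 0 < r → MeasurableSet Z →
    F'.RS g r Z ≤ (l ^ m)⁻¹ * F.RS (l * g) (l * r) (upS ξ₀ l Z)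

theorem FlatF_pr (ι : E m →ₗᵢ[ℝ] E N) (ξ₀ : E m) (l : ℝ) (y : E N) :
    pr ι (l⁻¹ • (y - ι ξ₀)) = l⁻¹ • (pr ι y - ξ₀) := by
  rw [map_smul, map_sub, pr_iota]

theorem FlatF_vt (ι : E m →ₗᵢ[ℝ] E N) (ξ₀ : E m) (l : ℝ) (y : E N) :
    vt ι (l⁻¹ • (y - ι ξ₀)) = l⁻¹ • vt ι y := by
  rw [vt_smul, vt_sub, vt_iota, sub_zero]

theorem FlatF_arg (ξ₀ ξ v : E m) {l : ℝ} (hl : 0 < l) :
    v - (ξ₀ + l • ξ) = l • (l⁻¹ • (v - ξ₀) - ξ) := by
  rw [smul_sub, smul_smul, mul_inv_cancel₀ hl.ne', one_smul, sub_sub]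

theorem FlatF_meas (ξ₀ : E m) (l : ℝ) {Z : Set (E m)} (hZ : MeasurableSet Z) :
    MeasurableSet (upS ξ₀ l Z) := by
  have h : Measurable fun v : E m => l⁻¹ • (v - ξ₀) := by fun_prop
  exact h hZ

theorem FlatF_vol (ξ₀ : E m) {l : ℝ} (hl : 0 < l) (f : E m → ℝ) :
    ∫ v, up ξ₀ l f v = l ^ m * ∫ v, f v := by
  unfold up
  rw [integral_sub_right_eq_self (fun v : E m => f (l⁻¹ • v)) ξ₀, Measure.integral_comp_inv_smul,
    finrank_euclideanSpace_fin, abs_of_pos (by positivity), smul_eq_mul]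

theorem FlatF_far {ξ v : E m} {ρ : ℝ} (h : ‖ξ‖ + ρ ≤ 10) (hv : 10 ≤ ‖v‖) : ρ ≤ ‖v - ξ‖ := by
  linarith [norm_sub_norm_le v ξ]

theorem FlatF_pk {l : ℝ} (hl : 0 < l) (r : ℝ) (x : E m) :
    pk r x = l ^ m * (l ^ 2)⁻¹ * pk (l * r) (l • x) := by
  rw [pk_smul hl]
  field_simp

theorem FlatF_rho {l : ℝ} (hl : 0 < l) (r : ℝ) (x : E m) :
    rho r x = l ^ m * rho (l * r) (l • x) := by
  rw [rho_smul hl, mul_div_cancel₀ _ (by positivity)]

theorem FlatF_ae {Q : ℕ} {A : ℝ} (F : Flat m N Q A) (ξ₀ : E m) {l : ℝ} (hl : 0 < l) :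
    ∀ᵐ y ∂(scl m F.μ (F.ι ξ₀) l), ‖vt F.ι y‖ ≤ F.τ / l ∧
      LD m (scl m F.μ (F.ι ξ₀) l) y (cg m) := by
  rw [ae_scl F.μ _ hl]
  filter_upwards [F.ae] with y hy
  refine ⟨?_, LD.scl hl ?_⟩
  · rw [FlatF_vt, norm_smul, Real.norm_of_nonneg (inv_nonneg.2 hl.le), div_eq_inv_mul]
    exact mul_le_mul_of_nonneg_left hy.2.1 (inv_nonneg.2 hl.le)
  · rw [StartA_inv _ hl]
    exact hy.2.2

theorem FlatF_key {Q : ℕ} {A : ℝ} (F : Flat m N Q A) (ξ₀ : E m) {l : ℝ} (hl : 0 < l)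
    (hτ : F.τ / l < 1) (f : E N → ℝ) (hf : ∀ y, 10 ≤ ‖pr F.ι y‖ → f y = 0) :
    ∫ y, f y ∂((scl m F.μ (F.ι ξ₀) l).restrict (cylF F.ι)) =
      (l ^ m)⁻¹ * ∫ y, f (l⁻¹ • (y - F.ι ξ₀)) ∂F.μ := by
  rw [setIntegral_eq_integral_of_ae_compl_eq_zero, integral_scl F.μ _ hl, smul_eq_mul]
  filter_upwards [FlatF_ae F ξ₀ hl] with y hy hc
  refine hf y (not_lt.1 fun h => hc ⟨h, hy.1.trans_lt hτ⟩)

theorem FlatF_anchor {Q : ℕ} {A : ℝ} (F : Flat m N Q A) (ξ₀ : E m) {l : ℝ} (hl : 0 < l)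
    (hτ : F.τ / l < 1) :
    ∫ y, rho 1 (pr F.ι y) * (1 - tlt F.ι (fun i => (F.fr.scl (F.ι ξ₀) l).s i y) / 2)
      ∂((scl m F.μ (F.ι ξ₀) l).restrict (cylF F.ι)) - Q =
      -(F.Y fun x => rho l (x - ξ₀)) / 2 := by
  rw [FlatF_key F ξ₀ hl hτ _ fun y hy => by
    rw [rho_eq_zero one_pos (by linarith), zero_mul]]
  have e : ∀ y, rho 1 (pr F.ι (l⁻¹ • (y - F.ι ξ₀))) *
      (1 - tlt F.ι (fun i => (F.fr.scl (F.ι ξ₀) l).s i (l⁻¹ • (y - F.ι ξ₀))) / 2) =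
      l ^ m * (rho l (F.x y - ξ₀) - 1 / 2 * (rho l (F.x y - ξ₀) * F.d y)) := fun y => by
    rw [FlatF_rho hl 1, FlatF_pr, smul_smul, mul_inv_cancel₀ hl.ne', one_smul, mul_one]
    simp only [Fr.scl, StartA_inv _ hl, Flat.x, Flat.d]
    ring
  have hm : Measurable fun y => rho l (F.x y - ξ₀) :=
    (contDiff_rho l).continuous.measurable.comp (F.measurable_all.1.sub_const _)
  have hb : ∀ y, ‖rho l (F.x y - ξ₀)‖ ≤ 1 / (cg m * l ^ m) := fun y => by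
    rw [Real.norm_of_nonneg (rho_nonneg hl _)]
    exact rho_le hl _
  have i1 : Integrable (fun y => rho l (F.x y - ξ₀)) F.μ :=
    Integrable.of_bound hm.aestronglyMeasurable _ (Eventually.of_forall hb)
  have i2 : Integrable (fun y => rho l (F.x y - ξ₀) * F.d y) F.μ :=
    F.integrable_d.bdd_mul hm.aestronglyMeasurable (Eventually.of_forall hb)
  simp only [e]
  rw [integral_const_mul, ← mul_assoc, inv_mul_cancel₀ (by positivity), one_mul,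
    integral_sub i1 (i2.const_mul _), integral_const_mul]
  simp only [Flat.Y, Flat.DD, Flat.ee, integral_rho hl]
  ring

theorem FlatF_blow {Q : ℕ} {A : ℝ} (F F' : Flat m N Q A) (ξ₀ : E m) {l : ℝ} (hl : 0 < l)
    (hτ : F.τ / l < 1) (h1 : F'.fr = F.fr.scl (F.ι ξ₀) l)
    (h2 : F'.μ = (scl m F.μ (F.ι ξ₀) l).restrict (cylF F.ι)) (h3 : F'.ι = F.ι)
    (h4 : F'.τ = F.τ / l) : Blow F F' ξ₀ l := by
  have key := FlatF_key F ξ₀ hl hτ
  rw [← h2] at key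
  have hlm : (0 : ℝ) < l ^ m := by positivity
  have ex : ∀ y, F'.x y = pr F.ι y := fun y => by rw [Flat.x, h3]
  have eX : ∀ y, F'.x (l⁻¹ • (y - F.ι ξ₀)) = l⁻¹ • (F.x y - ξ₀) := fun y => by
    rw [ex, FlatF_pr, Flat.x]
  have eD : ∀ y, F'.d (l⁻¹ • (y - F.ι ξ₀)) = F.d y := fun y => by
    simp only [Flat.d, h1, h3, Fr.scl, StartA_inv _ hl]
  have eN : ∀ y u v, F'.NN (l⁻¹ • (y - F.ι ξ₀)) u v = F.NN y u v := fun y u v => by
    simp only [Flat.NN, h1, h3, Fr.scl, StartA_inv _ hl]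
  have hDD : ∀ f : E m → ℝ, (∀ x, 10 ≤ ‖x‖ → f x = 0) →
      F'.DD f = (l ^ m)⁻¹ * F.DD (up ξ₀ l f) := fun f hf => by
    rw [Flat.DD, key _ fun y hy => by rw [ex, hf _ hy, zero_mul]]
    simp only [eX, eD, Flat.DD, up]
  have hee : ∀ f : E m → ℝ, (∀ x, 10 ≤ ‖x‖ → f x = 0) →
      F'.ee f = (l ^ m)⁻¹ * F.ee (up ξ₀ l f) := fun f hf => by
    rw [Flat.ee, Flat.ee, key _ fun y hy => by rw [ex, hf _ hy], FlatF_vol ξ₀ hl, mul_sub,
      mul_left_comm (Q : ℝ), ← mul_assoc, inv_mul_cancel₀ hlm.ne', one_mul]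
    simp only [eX, up]
  refine ⟨h4, fun f hf => ⟨hDD f hf, ?_⟩, fun Z hZ hZb => ?_, fun ξ ρ hρ hξ => ?_,
    fun g r Z hg hr hZ => ?_⟩
  · rw [Flat.Y, Flat.Y, hDD f hf, hee f hf]
    ring
  · rw [Flat.DS, Flat.DS, ← integral_indicator (F'.measurable_all.1 hZ),
      ← integral_indicator (F.measurable_all.1 (FlatF_meas ξ₀ l hZ)), key]
    · congr 1
      refine integral_congr_ae (Eventually.of_forall fun y => ?_)
      by_cases hy : l⁻¹ • (F.x y - ξ₀) ∈ Z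
      · have a1 : l⁻¹ • (y - F.ι ξ₀) ∈ F'.x ⁻¹' Z := by rwa [mem_preimage, eX]
        have a2 : y ∈ F.x ⁻¹' upS ξ₀ l Z := hy
        simp only [indicator_of_mem a1, indicator_of_mem a2, eD]
      · have a1 : l⁻¹ • (y - F.ι ξ₀) ∉ F'.x ⁻¹' Z := by rwa [mem_preimage, eX]
        have a2 : y ∉ F.x ⁻¹' upS ξ₀ l Z := hy
        simp only [indicator_of_notMem a1, indicator_of_notMem a2]
    · intro y hy
      refine indicator_of_notMem (fun hc => ?_) _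
      have h5 := hZb hc
      rw [mem_ball_zero_iff, ex] at h5
      linarith
  · have hz : ∀ x : E m, 10 ≤ ‖x‖ → pk ρ (x - ξ) = 0 := fun x hx =>
      pk_eq_zero hρ (FlatF_far hξ hx)
    have eu : up ξ₀ l (fun v => pk ρ (v - ξ)) =
        fun v => l ^ m * (l ^ 2)⁻¹ * pk (l * ρ) (v - (ξ₀ + l • ξ)) := by
      funext v
      rw [up, FlatF_pk hl, FlatF_arg ξ₀ ξ v hl]
    have hc : ∀ t : ℝ, (l ^ m)⁻¹ * (l ^ m * (l ^ 2)⁻¹ * t) = (l ^ 2)⁻¹ * t := fun t => by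
      rw [mul_assoc, ← mul_assoc, inv_mul_cancel₀ hlm.ne', one_mul]
    have a1 : F'.psi ξ ρ = (l ^ 2)⁻¹ * F.psi (ξ₀ + l • ξ) (l * ρ) := by
      rw [Flat.psi, Flat.psi, hDD _ hz, eu, (F.lin_smul _ _).1, hc]
    have a2 : F'.Phi ξ ρ = (l ^ 2)⁻¹ * F.Phi (ξ₀ + l • ξ) (l * ρ) := by
      rw [Flat.Phi, Flat.Phi, hee _ hz, eu, (F.lin_smul _ _).2.1, hc]
    refine ⟨a1, ?_, ?_⟩
    · rw [Flat.nn, Flat.nn, key _ fun y hy => by
        rw [ex, rho_eq_zero hρ (FlatF_far hξ hy), zero_mul], ← integral_const_mul,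
        ← integral_const_mul]
      refine integral_congr_ae (Eventually.of_forall fun y => ?_)
      simp only [eX, eN]
      rw [FlatF_arg ξ₀ ξ (F.x y) hl, FlatF_rho hl ρ]
      generalize l⁻¹ • (F.x y - ξ₀) - ξ = w
      have a3 : F.NN y (l • w) (l • w) = l ^ 2 * F.NN y w w := by
        rw [Flat.NN, Flat.NN, NF_smul, NF_symm, NF_smul]
        ring
      rw [a3]
      field_simp
    · rw [Flat.Xi, Flat.Xi, a1, a2, mul_max_of_nonneg _ _ (by positivity), mul_div_assoc]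
  · have := scl_finite (m := m) F.μ (F.ι ξ₀) l
    have hm : Measurable fun y => Z.indicator (1 : E m → ℝ) (F'.x y) :=
      (measurable_one.indicator hZ).comp F'.measurable_all.1
    have hi : Integrable (fun y => Z.indicator (1 : E m → ℝ) (F'.x y))
        (scl m F.μ (F.ι ξ₀) l) := by
      refine Integrable.of_bound hm.aestronglyMeasurable 1 (Eventually.of_forall fun y => ?_)
      by_cases hy : F'.x y ∈ Z
      · simp [indicator_of_mem hy]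
      · simp [indicator_of_notMem hy]
    have a1 := PR_mono F'.fr (μ := F'.μ) (ν := scl m F.μ (F.ι ξ₀) l)
      (by rw [h2]; exact Measure.restrict_le_self) F'.ι hg hr hi hi
      (Eventually.of_forall fun y => indicator_nonneg (fun _ _ => zero_le_one) _)
      (Eventually.of_forall fun y => le_rfl)
    refine a1.trans (le_of_eq ?_)
    rw [h1, h3, PR_scl F.fr F.μ F.ι _ hl, Flat.RS]
    congr 2
    funext y
    rw [eX]
    by_cases hy : l⁻¹ • (F.x y - ξ₀) ∈ Z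
    · have a2 : F.x y ∈ upS ξ₀ l Z := hy
      rw [indicator_of_mem hy, indicator_of_mem a2]
      rfl
    · have a2 : F.x y ∉ upS ξ₀ l Z := hy
      rw [indicator_of_notMem hy, indicator_of_notMem a2]

/-- `μ' = (scl m μ (ι ξ₀) l).restrict (cylF ι)`, `fr' = fr.scl (ι ξ₀) l`; the anchor is
`anchor_all` at the scale `l` -/
theorem exists_blow (m : ℕ) (hm : 1 ≤ m) (Q : ℕ) (A : ℝ) : ∃ C₀ : ℝ, 1 ≤ C₀ ∧ ∀ {N : ℕ}
    (F : Flat m N Q A) (ξ₀ : E m) (l : ℝ), ‖ξ₀‖ ≤ 9 → C₀ * F.τ ≤ l → l ≤ 1 / 10 →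
    ∃ F' : Flat m N Q A, Blow F F' ξ₀ l := by
  obtain ⟨C, hC, H⟩ := Flat.anchor_all m hm Q A
  refine ⟨100 * C, by linarith, fun {N} F ξ₀ l hξ hτ hl1 => ?_⟩
  have hτ0 := F.τ_pos
  have h1 : 100 * F.τ ≤ l := by nlinarith
  have h2 : C * F.τ ≤ l := by nlinarith
  have hl : 0 < l := by linarith
  have h3 : F.τ / l ≤ 1 / 100 := by
    rw [div_le_iff₀ hl]
    linarith
  have h4 : F.τ / l < 1 := by linarith
  have := scl_finite (m := m) F.μ (F.ι ξ₀) l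
  have hO := isOpen_cylF F.ι
  have hsub : cylF F.ι ⊆ (fun y => F.ι ξ₀ + l • y) ⁻¹' cylF F.ι := fun y hy => by
    refine ⟨?_, ?_⟩
    · rw [map_add, map_smul, pr_iota]
      refine (norm_add_le _ _).trans_lt ?_
      rw [norm_smul, Real.norm_of_nonneg hl.le]
      nlinarith [hy.1, norm_nonneg (pr F.ι y)]
    · rw [vt_add, vt_iota, zero_add, vt_smul, norm_smul, Real.norm_of_nonneg hl.le]
      nlinarith [hy.2, norm_nonneg (vt F.ι y)]
  refine ⟨⟨F.fr.scl (F.ι ξ₀) l, (scl m F.μ (F.ι ξ₀) l).restrict (cylF F.ι), F.ι, F.τ / l,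
    div_pos hτ0 hl, h3, F.A_ge, inferInstance, ?_, (F.stat.scl _ hl).restrict hO hsub,
    (F.mass.scl _ hl).mono Measure.restrict_le_self, (F.area.scl _ hl).restrict hO, ?_⟩,
    FlatF_blow F _ ξ₀ hl h4 rfl rfl rfl rfl⟩
  · filter_upwards [ae_restrict_mem hO.measurableSet, ae_restrict_of_ae (FlatF_ae F ξ₀ hl)]
      with y hy hy'
    exact ⟨hy.1, hy'.1, hy'.2.restrict hO hy⟩
  · rw [FlatF_anchor F ξ₀ hl h4, abs_div, abs_neg, abs_two]
    linarith [H F ξ₀ l hξ h2 hl1]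

theorem up_lip {f : E m → ℝ} {K : ℝ} (h : Lip K f) (ξ₀ : E m) {l : ℝ} (hl : 0 < l) :
    Lip (K / l) (up ξ₀ l f) := by
  intro x x'
  refine (h _ _).trans (le_of_eq ?_)
  rw [← smul_sub, sub_sub_sub_cancel_right, norm_smul, Real.norm_of_nonneg (inv_nonneg.2 hl.le),
    div_eq_mul_inv, mul_assoc]

theorem upS_ball (ξ₀ : E m) {l : ℝ} (hl : 0 < l) (p : E m) (r : ℝ) :
    upS ξ₀ l (ball p r) = ball (ξ₀ + l • p) (l * r) := by
  ext v
  rw [upS, mem_ofPred_eq, mem_ball_iff_norm, mem_ball_iff_norm, FlatF_arg ξ₀ p v hl, norm_smul,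
    Real.norm_of_nonneg hl.le, mul_lt_mul_iff_right₀ hl]

theorem measurableSet_upS (ξ₀ : E m) (l : ℝ) {Z : Set (E m)} (hZ : MeasurableSet Z) :
    MeasurableSet (upS ξ₀ l Z) := by
  exact FlatF_meas ξ₀ l hZ

end Pool.Agent.MP_f6c0e6_an.Gen

end

section

/-! The crude lower bound for the defect. -/

set_option autoImplicit false

open MeasureTheory Filter Topology Set Metric
open scoped ENNReal RealInnerProductSpace

namespace Pool.Agent.MP_f6c0e6_an.Gen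

variable {m N : ℕ}

theorem Crude_adm {f : E m → ℝ} (hf : Measurable f) {M R : ℝ} (hM : ∀ x, |f x| ≤ M)
    (h0 : ∀ x, R ≤ ‖x‖ → f x = 0) : Adm f :=
  ⟨hf, max M R, fun x => (hM x).trans (le_max_left _ _),
    fun x hx => h0 x ((le_max_right _ _).trans hx)⟩

theorem Crude_tau {τ L : ℝ} (hτ : 0 < τ) (hL : L = Real.log τ⁻¹) : τ = Real.exp (-L) := by
  rw [hL, Real.log_inv, neg_neg, Real.exp_log hτ]

theorem Crude_L {τ L₀ : ℝ} (hτ : 0 < τ) (h : τ ≤ Real.exp (-L₀)) : L₀ ≤ Real.log τ⁻¹ := by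
  have := Real.log_le_log hτ h
  rw [Real.log_exp] at this
  rw [Real.log_inv]
  linarith

theorem Crude_one {τ : ℝ} (hτ : 0 < τ) (h : τ ≤ 1 / 100) : 3 ≤ Real.log τ⁻¹ := by
  refine Crude_L hτ (h.trans ?_)
  rw [Real.exp_neg, one_div]
  refine inv_anti₀ (Real.exp_pos _) ?_
  have h1 : Real.exp 3 = Real.exp 1 ^ 3 := by rw [← Real.exp_nat_mul]; norm_num
  have h2 := Real.exp_one_lt_d9
  rw [h1]
  calc Real.exp 1 ^ 3 ≤ 3 ^ 3 := pow_le_pow_left₀ (Real.exp_pos _).le (by linarith only [hτ, h, h2]) 3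
    _ ≤ 100 := by norm_num

theorem Crude_logL {L : ℝ} (h : 3 ≤ L) : 1 ≤ Real.log L := by
  rw [Real.le_log_iff_exp_le (by linarith)]
  have := Real.exp_one_lt_d9
  linarith

theorem Crude_rpow {τ L : ℝ} (hτ : 0 < τ) (hL : L = Real.log τ⁻¹) :
    τ ^ (-(1 / 3) : ℝ) = Real.exp (L / 3) := by
  rw [Real.rpow_def_of_pos hτ, hL, Real.log_inv]
  congr 1
  ring

theorem Crude_log {B L : ℝ} (hB : 0 ≤ B) (hL : 0 < L) (h : 4 * B ^ 2 ≤ L) :
    B * Real.log L ≤ L := by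
  have hs : 0 < √L := Real.sqrt_pos.2 hL
  have h1 : Real.log L = 2 * Real.log √L := by rw [Real.log_sqrt hL.le]; ring
  have h2 : Real.log √L ≤ √L := (Real.log_le_sub_one_of_pos hs).trans (by linarith)
  have h3 : 2 * B ≤ √L := Real.le_sqrt_of_sq_le (by linarith)
  have h4 : √L * √L = L := Real.mul_self_sqrt hL.le
  rw [h1]
  calc B * (2 * Real.log √L) ≤ B * (2 * √L) := by gcongr
    _ = 2 * B * √L := by ring
    _ ≤ √L * √L := by gcongr
    _ = L := h4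

theorem Crude_lip {L : ℝ} (h : 5184 ≤ L) :
    Real.exp (L / 3) * Real.exp (-L / 2) ≤ 1 / L ^ 2 / 4 := by
  have hL : 0 < L := by linarith
  have h1 := Real.pow_div_factorial_le_exp (L / 6) (by positivity) 3
  have h2 : Real.exp (L / 3) * Real.exp (-L / 2) = (Real.exp (L / 6))⁻¹ := by
    rw [← Real.exp_add, ← Real.exp_neg]
    congr 1
    ring
  have h3 : 4 * L ^ 2 ≤ Real.exp (L / 6) := by
    refine le_trans ?_ h1
    have : ((Nat.factorial 3 : ℕ) : ℝ) = 6 := by norm_num [Nat.factorial]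
    rw [this]
    nlinarith only [h, sq_nonneg L]
  rw [h2]
  calc (Real.exp (L / 6))⁻¹ ≤ (4 * L ^ 2)⁻¹ := inv_anti₀ (by positivity) h3
    _ = 1 / L ^ 2 / 4 := by field_simp

/-- the arithmetic of the counting argument -/
theorem Crude_count (m : ℕ) (c₀ Cx C₀ : ℝ) (h0 : 0 < c₀) (h1 : c₀ ≤ 1 / 2) (hCx : 1 ≤ Cx)
    (hC₀ : 1 ≤ C₀) : ∃ D L₀ : ℝ, 1 ≤ D ∧ ∀ L : ℝ, L₀ ≤ L → 5184 ≤ L ∧ D * Real.log L ≤ L ∧
    ∃ j : ℕ, C₀ * Real.exp (-L) * 2 ^ j ≤ Real.exp (-L / 2) ∧ ∀ n : ℕ,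
      (2 : ℝ) ^ (D * Real.log L / L * ((j : ℝ) - n)) ≤
        2 ^ ((m - 2) * n) * (Cx * L ^ (2 * m + 2)) → (1 - c₀) ^ n ≤ 1 / L ^ 2 := by
  have hm0 : (0 : ℝ) ≤ m := Nat.cast_nonneg m
  have hic : 0 < 2 / c₀ := by positivity
  obtain ⟨a, ha⟩ : ∃ a, a = 2 / c₀ := ⟨_, rfl⟩
  rw [← ha] at hic
  obtain ⟨D, hD⟩ : ∃ D, D = 4 * (m * a + Cx + (2 * m + 2)) := ⟨_, rfl⟩
  have hD1 : 1 ≤ D := by
    have : 0 ≤ (m : ℝ) * a := by positivity
    linarith only [h0, h1, hCx, hD, this]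
  obtain ⟨B, hB⟩ : ∃ B, B = D + 8 * C₀ + 4 * a := ⟨_, rfl⟩
  have hB0 : 0 ≤ B := by linarith only [h0, h1, hC₀, hic, hD1, hB]
  refine ⟨D, max 5184 (4 * B ^ 2), hD1, fun L hL => ?_⟩
  have hL1 : 5184 ≤ L := (le_max_left _ _).trans hL
  have hL0 : 0 < L := by linarith
  have hl1 : 1 ≤ Real.log L := Crude_logL (by linarith)
  have hBL := Crude_log hB0 hL0 ((le_max_right _ _).trans hL)
  obtain ⟨l, hl⟩ : ∃ l, l = Real.log L := ⟨_, rfl⟩
  rw [← hl] at hl1 hBL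
  have hDl : 0 ≤ D * l := by positivity
  have hCl : C₀ ≤ C₀ * l := by nlinarith only [hl1, h0, h1, hC₀]
  have hal : 0 ≤ a * l := by positivity
  have hBl : D * l + 8 * (C₀ * l) + 4 * (a * l) ≤ L := by rw [hB] at hBL; linarith
  have hlog : Real.log (2 * C₀) ≤ 2 * C₀ :=
    (Real.log_le_sub_one_of_pos (by linarith)).trans (by linarith)
  have hx : 1 ≤ Real.exp (L / 2) / C₀ := by
    rw [le_div_iff₀ (by linarith), one_mul]
    have := Real.add_one_le_exp (L / 2)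
    linarith only [h0, h1, hL1, hDl, hCl, hal, hBl, this]
  obtain ⟨j, hj1, hj2⟩ := exists_nat_pow_near hx (by norm_num : (1 : ℝ) < 2)
  refine ⟨hL1, by rw [← hl]; linarith, j, ?_, fun n hn => ?_⟩
  · rw [le_div_iff₀ (by linarith)] at hj1
    calc C₀ * Real.exp (-L) * 2 ^ j = 2 ^ j * C₀ * Real.exp (-L) := by ring
      _ ≤ Real.exp (L / 2) * Real.exp (-L) := by gcongr
      _ = Real.exp (-L / 2) := by rw [← Real.exp_add]; congr 1; ring
  have hl2 : 0 < Real.log 2 := Real.log_pos (by norm_num)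
  have hl2' : Real.log 2 ≤ 1 := (Real.log_le_sub_one_of_pos (by norm_num)).trans (by norm_num)
  have hj3 : L / 2 - Real.log (2 * C₀) < j * Real.log 2 := by
    rw [div_lt_iff₀ (by linarith only [h0, h1, hC₀])] at hj2
    have h2 : Real.exp (L / 2) < 2 ^ j * (2 * C₀) := by
      calc Real.exp (L / 2) < 2 ^ (j + 1) * C₀ := hj2
        _ = 2 ^ j * (2 * C₀) := by ring
    have h3 := Real.log_lt_log (Real.exp_pos _) h2
    rw [Real.log_exp, Real.log_mul (by positivity) (by positivity), Real.log_pow] at h3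
    linarith only [h3]
  by_cases hc : a * l ≤ n
  · have h2 : (1 - c₀) ^ n ≤ Real.exp (-c₀) ^ n :=
      pow_le_pow_left₀ (by linarith only [h0, h1]) (by have := Real.add_one_le_exp (-c₀); linarith only [this]) n
    have h3 : 2 * l ≤ n * c₀ := by
      have : a * l * c₀ ≤ n * c₀ := by gcongr
      have h4 : a * l * c₀ = 2 * l := by rw [ha]; field_simp
      linarith only [this, h4]
    refine h2.trans ?_
    rw [← Real.exp_nat_mul]
    calc Real.exp (n * -c₀) ≤ Real.exp (-(2 * l)) := Real.exp_le_exp.2 (by linarith only [h3])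
      _ = 1 / L ^ 2 := by
        rw [Real.exp_neg, hl, two_mul, Real.exp_add, Real.exp_log hL0, one_div, sq]
  · exfalso
    rw [not_le] at hc
    have h2 := Real.log_le_log (by positivity) hn
    rw [Real.log_rpow (by norm_num), Real.log_mul (by positivity) (by positivity),
      Real.log_mul (by positivity) (by positivity), Real.log_pow, Real.log_pow, ← hl] at h2
    have hn0 : (0 : ℝ) ≤ n := Nat.cast_nonneg n
    have h3 : (((m - 2) * n : ℕ) : ℝ) * Real.log 2 ≤ m * (a * l) := by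
      have h4 : (((m - 2) * n : ℕ) : ℝ) ≤ m * n := by
        exact_mod_cast Nat.mul_le_mul_right n (Nat.sub_le m 2)
      calc (((m - 2) * n : ℕ) : ℝ) * Real.log 2 ≤ m * n * 1 := by gcongr
        _ ≤ m * (a * l) := by rw [mul_one]; gcongr
    have h4 : Real.log Cx ≤ Cx * l := by
      have := Real.log_le_sub_one_of_pos (show 0 < Cx by linarith only [h0, h1, hCx])
      nlinarith only [h1, hl1, this, h0, hCx]
    have h5 : L / 4 < ((j : ℝ) - n) * Real.log 2 := by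
      have : (n : ℝ) * Real.log 2 ≤ n * 1 := by gcongr
      linarith only [hDl, hCl, hBl, hlog, hj3, hc, this]
    have h6 : D * l / L * (L / 4) < D * l / L * (((j : ℝ) - n) * Real.log 2) :=
      mul_lt_mul_of_pos_left h5 (by positivity)
    have h7 : D * l / L * (L / 4) = m * (a * l) + Cx * l + (2 * m + 2) * l := by
      rw [hD]; field_simp
    push_cast at h2 h3
    rw [mul_assoc] at h2
    linarith only [h4, h6, h7, h2, h3]

/-- a Lipschitz cut-off function -/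
theorem Crude_cut : ∃ χ : E m → ℝ, (∀ x, 0 ≤ χ x ∧ χ x ≤ 1) ∧ Lip 1 χ ∧
    (∀ x, ‖x‖ ≤ 2 → χ x = 1) ∧ ∀ x, 3 ≤ ‖x‖ → χ x = 0 := by
  refine ⟨fun x => max 0 (min 1 (3 - ‖x‖)), fun x => ⟨le_max_left _ _,
    max_le zero_le_one (min_le_left _ _)⟩, fun x x' => ?_, fun x hx => ?_, fun x hx => ?_⟩
  · have h := abs_le.1 (abs_norm_sub_norm_le x x')
    rw [one_mul, Real.norm_eq_abs, abs_le]
    simp only [max_def, min_def]
    split_ifs <;> constructor <;> linarith [h.1, h.2, norm_nonneg (x - x')]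
  · show max 0 (min 1 (3 - ‖x‖)) = 1
    rw [min_eq_left (by linarith), max_eq_right zero_le_one]
  · show max 0 (min 1 (3 - ‖x‖)) = 0
    exact max_eq_left ((min_le_right _ _).trans (by linarith))

namespace Flat

theorem Crude_ksum {Q : ℕ} {A : ℝ} (F : Flat m N Q A) (δ : ℝ) (l : List (E m × ℝ × ℝ))
    (h : ∀ p ∈ l, 0 < p.2.1 ∧ 0 ≤ p.2.2 ∧ -δ * F.psi p.1 p.2.1 ≤ F.eta p.1 p.2.1) :
    Continuous (ksum l) ∧ Adm (ksum l) ∧ (∀ x, 0 ≤ ksum l x) ∧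
      -δ * F.DD (ksum l) ≤ F.Y (ksum l) := by
  induction l with
  | nil =>
    have e : ksum ([] : List (E m × ℝ × ℝ)) = fun x => (0 : ℝ) * (0 : ℝ) := by
      funext x
      simp [ksum]
    rw [e, (F.lin_smul 0 fun _ => 0).1, (F.lin_smul 0 fun _ => 0).2.2]
    exact ⟨continuous_const, Adm.of_cont continuous_const (R := 0) fun _ _ => by simp,
      fun _ => by simp, by simp⟩
  | cons p l ih =>
    obtain ⟨i1, i2, i3, i4⟩ := ih fun q hq => h q (List.mem_cons_of_mem _ hq)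
    obtain ⟨p1, p2, p3⟩ := h p List.mem_cons_self
    have e : ksum (p :: l) = fun x => p.2.2 * pk p.2.1 (x - p.1) + ksum l x := by
      funext x
      simp [ksum]
    have c1 : Continuous fun x : E m => pk p.2.1 (x - p.1) :=
      (contDiff_pk p.2.1).continuous.comp (continuous_id.sub continuous_const)
    have a1 : Adm fun x : E m => pk p.2.1 (x - p.1) :=
      Adm.of_cont c1 (R := p.2.1 + ‖p.1‖) fun x hx =>
        pk_eq_zero p1 (by linarith [norm_sub_norm_le x p.1])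
    rw [e, (F.lin_add (a1.const_mul _) i2).1, (F.lin_add (a1.const_mul _) i2).2.2,
      (F.lin_smul _ _).1, (F.lin_smul _ _).2.2]
    refine ⟨(continuous_const.mul c1).add i1, (a1.const_mul _).add i2,
      fun x => add_nonneg (mul_nonneg p2 (pk_nonneg p1 _)) (i3 x), ?_⟩
    have := mul_le_mul_of_nonneg_left p3 p2
    unfold psi eta at this
    linarith

theorem Crude_DD_le {Q : ℕ} {A : ℝ} (F : Flat m N Q A) {f : E m → ℝ} (hf : Adm f) {κ : ℝ}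
    (hκ : 0 ≤ κ) (h : ∀ x, f x ≤ κ) : F.DD f ≤ κ * F.DS univ := by
  obtain ⟨mf, R, -, hR⟩ := id hf
  have mg : Measurable fun x => max (f x) 0 := mf.max measurable_const
  have bg : ∀ x, |max (f x) 0| ≤ κ := fun x => by
    rw [abs_of_nonneg (le_max_right _ _)]
    exact max_le (h x) hκ
  have ag : Adm fun x => max (f x) 0 :=
    Crude_adm mg bg (R := R) fun x hx => by simp [hR x hx]
  exact (F.DD_mono hf ag fun x => le_max_left _ _).trans ((le_abs_self _).trans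
    (F.abs_DD_le mg bg MeasurableSet.univ fun x hx => (hx (mem_univ x)).elim))

theorem Crude_g {Q : ℕ} {A : ℝ} (F : Flat m N Q A) :
    0 < F.τ / Real.log F.τ⁻¹ ^ 2 ∧ F.τ / Real.log F.τ⁻¹ ^ 2 ≤ F.τ := by
  have h := Crude_one F.τ_pos F.τ_le
  have h0 := F.τ_pos
  exact ⟨by positivity, div_le_self h0.le (one_le_pow₀ (by linarith))⟩

/-- `contraction` with `P ξ t = (- δ psi ξ t ≤ eta ξ t)` and `S = ksum l` -/
theorem contract (m : ℕ) : ∃ c₀ : ℝ, 0 < c₀ ∧ c₀ ≤ 1 / 2 ∧ ∀ {N Q : ℕ} {A : ℝ} (F : Flat m N Q A)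
    (ω : E m → ℝ) (δ K κ M r : ℝ) (i j : ℕ) (Z : Set (E m)), 0 < r → 0 < κ → i ≤ j →
    (∀ x, 0 ≤ ω x ∧ ω x ≤ M) → Lip K ω → 0 ≤ K → K * (r * 2 ^ j) ≤ κ / 4 →
    Bornology.IsBounded Z →
    ∃ S : E m → ℝ, Continuous S ∧ Adm S ∧ (∀ x, 0 ≤ S x ∧ S x ≤ ω x + κ) ∧
      (∀ x, x ∉ thickening (r * 2 ^ j) Z → S x = 0) ∧ -δ * F.DD S ≤ F.Y S ∧
      (∀ ξ ∈ Z, ω ξ + κ - S ξ ≤ (1 - c₀) ^ F.cnt δ ξ r i j * (ω ξ + κ)) ∧
      Lip ((M + κ) / (r * 2 ^ i)) fun x => ω x - S x := by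
  obtain ⟨c₀, h0, h1, H⟩ := contraction m
  refine ⟨c₀, h0, h1, fun {N Q A} F ω δ K κ M r i j Z hr hκ hij hω hL hK hKr hZ => ?_⟩
  obtain ⟨l, l1, l2, l3, l4⟩ := H ω K κ M r i j Z
    (fun ξ t => -δ * F.psi ξ t ≤ F.eta ξ t) hr hκ hij hω hL hK hKr hZ
  have hp : ∀ p ∈ l, 0 < p.2.1 := fun p hp =>
    lt_of_lt_of_le (by positivity) (l1 p hp).2.2.1
  obtain ⟨k1, k2, k3, k4⟩ := F.Crude_ksum δ l fun p hp' =>
    ⟨hp p hp', (l1 p hp').2.2.2.2, (l1 p hp').2.1⟩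
  refine ⟨ksum l, k1, k2, fun x => ⟨k3 x, l2 x⟩, fun x hx => ?_, k4, l3, l4⟩
  refine List.sum_eq_zero fun t ht => ?_
  obtain ⟨p, hp', rfl⟩ := List.mem_map.1 ht
  rw [pk_eq_zero (hp p hp'), mul_zero]
  by_contra hc
  rw [not_le] at hc
  exact hx (mem_thickening_iff.2 ⟨p.1, (l1 p hp').1, by
    rw [dist_eq_norm]; exact hc.trans_le (l1 p hp').2.2.2.1⟩)

/-- the points where the box lemma is not available -/
def Bad {Q : ℕ} {A : ℝ} (F : Flat m N Q A) (c C₀ : ℝ) (ξ : E m) : Prop :=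
  c * (F.τ / Real.log F.τ⁻¹ ^ 2) ^ 2 < F.UU (F.τ / Real.log F.τ⁻¹ ^ 2) (C₀ * F.τ) ξ

/-- A weight that is small at the bad points: split along the measurable set `{|f| ≤ κ}` and use
`S0a` there, `S0b` with `g = g' = τ / L²`, `r = τ`, `rb = C₀ τ` on the rest. The constant `C₀` can
be taken larger than any given number. -/
theorem rest_bd (m : ℕ) (hm : 1 ≤ m) (Q : ℕ) (A C₁ : ℝ) : ∃ c C C₀ τ₀ : ℝ, 0 < c ∧ 1 ≤ C ∧
    C₁ ≤ C₀ ∧ 1 ≤ C₀ ∧ 0 < τ₀ ∧ ∀ {N : ℕ} (F : Flat m N Q A) (f : E m → ℝ) (M κ : ℝ)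
    (Z : Set (E m)), F.τ ≤ τ₀ → Measurable f → (∀ x, |f x| ≤ M) → 0 ≤ κ → MeasurableSet Z →
    Z ⊆ ball 0 9 → (∀ x, x ∉ Z → f x = 0) → (∀ x ∈ Z, F.Bad c C₀ x → |f x| ≤ κ) →
    |F.Y f| ≤ C * (κ * F.DS univ + M * F.RS (F.τ / Real.log F.τ⁻¹ ^ 2) F.τ univ) := by
  obtain ⟨Ca, Ba, a1, a2, Ha⟩ := S0a m hm Q A
  obtain ⟨c, Cb, Bb, b0, b1, b2, Hb⟩ := S0b m hm Q A
  obtain ⟨C₀, hC₀⟩ : ∃ C₀, C₀ = max (max C₁ Bb) 30 := ⟨_, rfl⟩
  have e1 : C₁ ≤ C₀ := hC₀ ▸ (le_max_left _ _).trans (le_max_left _ _)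
  have e2 : Bb ≤ C₀ := hC₀ ▸ (le_max_right _ _).trans (le_max_left _ _)
  have e3 : 30 ≤ C₀ := hC₀ ▸ le_max_right _ _
  refine ⟨c, Ca + Cb, C₀, min (1 / (10 * Ba)) (1 / C₀), b0, by linarith, e1, by linarith,
    by positivity, fun {N} F f M κ Z hτ mf hM hκ mZ hZ h0 hbad => ?_⟩
  have hτ0 := F.τ_pos
  obtain ⟨g0, g1⟩ := F.Crude_g
  have t1 : Ba * F.τ ≤ 1 / 10 := by
    have := (le_div_iff₀ (by positivity)).1 (hτ.trans (min_le_left _ _))
    linarith only [this]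
  have t2 : C₀ * F.τ ≤ 1 := by
    have := (le_div_iff₀ (by positivity)).1 (hτ.trans (min_le_right _ _))
    linarith
  have hM0 : 0 ≤ M := (abs_nonneg _).trans (hM 0)
  have mS : MeasurableSet {x | |f x| ≤ κ} := measurableSet_le mf.abs measurable_const
  have h9 : ∀ x, 9 ≤ ‖x‖ → f x = 0 := fun x hx => h0 x fun h => by
    have := mem_ball_zero_iff.1 (hZ h)
    linarith
  have bi : ∀ (T : Set (E m)) (x : E m), |T.indicator f x| ≤ |f x| := fun T x => by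
    by_cases hx : x ∈ T
    · rw [indicator_of_mem hx]
    · rw [indicator_of_notMem hx, abs_zero]
      exact abs_nonneg _
  have zi : ∀ (T : Set (E m)) (x : E m), f x = 0 → T.indicator f x = 0 := fun T x hx =>
    abs_nonpos_iff.1 ((bi T x).trans (by rw [hx, abs_zero]))
  have ai : ∀ T : Set (E m), MeasurableSet T → Adm (T.indicator f) := fun T hT =>
    Crude_adm (mf.indicator hT) (fun x => (bi T x).trans (hM x)) fun x hx => zi T x (h9 x hx)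
  have y1 := Ha F ({x | |f x| ≤ κ}.indicator f) κ Z t1 (mf.indicator mS) (fun x => by
    by_cases hx : x ∈ {x | |f x| ≤ κ}
    · rw [indicator_of_mem hx]
      exact hx
    · rw [indicator_of_notMem hx, abs_zero]
      exact hκ) mZ hZ fun x hx => zi _ x (h0 x hx)
  have y2 := (Hb F _ _ F.τ (C₀ * F.τ) (Z ∩ {x | |f x| ≤ κ}ᶜ) g0 le_rfl g1 (by gcongr) (by gcongr)
    t2 (mZ.inter mS.compl) (inter_subset_left.trans hZ) fun ξ hξ =>
      not_lt.1 fun hb => hξ.2 (hbad ξ hξ.1 hb)).2 ({x | |f x| ≤ κ}ᶜ.indicator f) M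
    (mf.indicator mS.compl) (fun x => (bi _ x).trans (hM x)) fun x hx => by
      by_cases hx' : x ∈ Z
      · exact indicator_of_notMem (fun h => hx ⟨hx', h⟩) f
      · exact zi _ x (h0 x hx')
  have d1 := F.DS_mono (subset_univ (thickening (Ba * F.τ) Z))
  have d2 := F.RS_mono g0 hτ0 (isOpen_thickening (δ := F.τ / Real.log F.τ⁻¹ ^ 2)
    (E := Z ∩ {x | |f x| ≤ κ}ᶜ)).measurableSet MeasurableSet.univ (subset_univ _)
  have e : F.Y f = F.Y ({x | |f x| ≤ κ}.indicator f) + F.Y ({x | |f x| ≤ κ}ᶜ.indicator f) := by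
    rw [← (F.lin_add (ai _ mS) (ai _ mS.compl)).2.2]
    congr 1
    funext x
    exact (indicator_self_add_compl_apply _ f x).symm
  have y3 := y1.trans (mul_le_mul_of_nonneg_left d1.2 (by positivity))
  have y4 := y2.trans (mul_le_mul_of_nonneg_left d2.2 (by positivity))
  have p1 : 0 ≤ Cb * (κ * F.DS univ) := mul_nonneg (by linarith only [b1]) (mul_nonneg hκ (d1.1.trans d1.2))
  have p2 : 0 ≤ Ca * (M * F.RS (F.τ / Real.log F.τ⁻¹ ^ 2) F.τ univ) :=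
    mul_nonneg (by linarith) (mul_nonneg hM0 (d2.1.trans d2.2))
  rw [e]
  refine (abs_add_le _ _).trans ?_
  linarith

/-- At a bad point `Xi ξ (C₀ τ) ≥ τ² / L ^ p` (`Xi_ge`). -/
theorem bad_Xi (m : ℕ) (hm : 2 ≤ m) (c C₀ : ℝ) (hc : 0 < c) (hC : 1 ≤ C₀) : ∃ τ₀ : ℝ, 0 < τ₀ ∧
    ∀ {N Q : ℕ} {A : ℝ} (F : Flat m N Q A) (ξ : E m), F.τ ≤ τ₀ → F.Bad c C₀ ξ →
    F.τ ^ 2 / Real.log F.τ⁻¹ ^ (2 * m + 2) ≤ F.Xi ξ (C₀ * F.τ) := by
  refine ⟨Real.exp (-(2 * C₀ ^ (m - 2) * (3 + C₀) / c)), Real.exp_pos _,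
    fun {N Q A} F ξ hτ hb => ?_⟩
  have hτ0 := F.τ_pos
  obtain ⟨g0, g1⟩ := F.Crude_g
  have hL := Crude_L hτ0 hτ
  have hL3 := Crude_one hτ0 F.τ_le
  have hX := (F.ratio_nonneg ξ (ρ := C₀ * F.τ) (by positivity)).2.2.1
  have h := F.Xi_ge hm ξ g0 (g1.trans (le_mul_of_one_le_left hτ0.le hC)) (le_of_lt hb)
  generalize F.Xi ξ (C₀ * F.τ) = X at hX h ⊢
  generalize Real.log F.τ⁻¹ = L at hL hL3 h ⊢
  generalize F.τ = τ at hτ0 h ⊢
  obtain ⟨k, rfl⟩ : ∃ k, m = k + 2 := ⟨m - 2, by omega⟩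
  rw [Nat.add_sub_cancel] at h hL
  have hL0 : 0 < L := by linarith only [hL3]
  have e1 : τ / L ^ 2 / (C₀ * τ) = 1 / (C₀ * L ^ 2) := by field_simp
  have e2 : C₀ * τ / (τ / L ^ 2) = C₀ * L ^ 2 := by field_simp
  rw [e1, e2] at h
  have h1 : 1 + Real.log (C₀ * L ^ 2) ≤ (3 + C₀) * L := by
    rw [Real.log_mul (by positivity) (by positivity), Real.log_pow]
    have := Real.log_le_sub_one_of_pos (show 0 < C₀ by linarith only [hC])
    have := Real.log_le_sub_one_of_pos hL0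
    push_cast
    nlinarith only [hC, hL3, ‹Real.log C₀ ≤ C₀ - 1›, this]
  rw [div_le_iff₀ hc] at hL
  have h2 : (1 / (C₀ * L ^ 2)) ^ k * (c * (τ / L ^ 2) ^ 2) ≤ 2 * ((3 + C₀) * L) * X :=
    h.trans (by gcongr)
  have h3 : C₀ ^ k * ((1 / (C₀ * L ^ 2)) ^ k * (c * (τ / L ^ 2) ^ 2)) ≤ c * L ^ 2 * X := by
    calc C₀ ^ k * ((1 / (C₀ * L ^ 2)) ^ k * (c * (τ / L ^ 2) ^ 2))
        ≤ C₀ ^ k * (2 * ((3 + C₀) * L) * X) := by gcongr
      _ = 2 * C₀ ^ k * (3 + C₀) * (L * X) := by ring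
      _ ≤ L * c * (L * X) := by gcongr
      _ = c * L ^ 2 * X := by ring
  have e3 : C₀ ^ k * ((1 / (C₀ * L ^ 2)) ^ k * (c * (τ / L ^ 2) ^ 2)) =
      c * L ^ 2 * (τ ^ 2 / L ^ (2 * (k + 2) + 2)) := by
    rw [div_pow, mul_pow, one_pow, ← pow_mul]
    field_simp
    ring
  rw [e3] at h3
  exact le_of_mul_le_mul_left h3 (by positivity)

/-- Divide by `M`. Take the windows `r 2 ^ l`, `r = C₀ τ`, `0 ≤ l < j`, with
`√τ / 2 < r 2 ^ j ≤ √τ`, so `j ≥ L / 2` for small `τ`, and `κ = 1 / L²`. By `Xi_count`, `bad_Xi`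
and `Xi_le`, with `δ = C log L / L` every bad point has at least `n₁` easy windows, where
`(1 - c₀) ^ n₁ ≤ 1 / L²`. Apply `contract` with `Z` the set of bad points of `O`, and `rest_bd` to
`ω - S`. -/
theorem crude (m : ℕ) (hm : 2 ≤ m) (Q : ℕ) (A : ℝ) : ∃ C τ₀ : ℝ, 1 ≤ C ∧ 0 < τ₀ ∧ ∀ {N : ℕ}
    (F : Flat m N Q A) (L : ℝ) (ω : E m → ℝ) (M : ℝ), F.τ ≤ τ₀ → L = Real.log F.τ⁻¹ → 0 < M →
    (∀ x, 0 ≤ ω x ∧ ω x ≤ M) → Lip (M * F.τ ^ (-(1 / 3) : ℝ)) ω → (∀ x, 8 ≤ ‖x‖ → ω x = 0) →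
    -(C * (Real.log L / L * F.DD ω + M * (F.DS univ / L ^ 2 + F.RS (F.τ / L ^ 2) F.τ univ))) ≤
      F.Y ω := by
  obtain ⟨c₀, c1, c2, Hc⟩ := contract m
  obtain ⟨Cx, Bx, x1, x2, Hx⟩ := Flat.Xi_le m hm Q A
  obtain ⟨c, Cr, C₀, τr, r0, r1, r2, r3, r4, Hr⟩ := rest_bd m (by omega) Q A Bx
  obtain ⟨τb, b0, Hb⟩ := bad_Xi m hm c C₀ r0 r3
  obtain ⟨D, L₀, hD, HD⟩ := Crude_count m c₀ Cx C₀ c1 c2 x1 r3
  refine ⟨D + Cr + 1, min (min τr τb) (Real.exp (-L₀)), by linarith only [c1, c2, r1, hD], by positivity,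
    fun {N} F L ω M hτ hL hM hω hlip h8 => ?_⟩
  have hτ0 := F.τ_pos
  have t1 : F.τ ≤ τr := hτ.trans ((min_le_left _ _).trans (min_le_left _ _))
  have t2 : F.τ ≤ τb := hτ.trans ((min_le_left _ _).trans (min_le_right _ _))
  obtain ⟨hL1, hDL, j, hj, Hj⟩ := HD L (hL ▸ Crude_L hτ0 (hτ.trans (min_le_right _ _)))
  rw [← Crude_tau hτ0 hL] at hj
  rw [Crude_rpow hτ0 hL] at hlip
  have hL0 : 0 < L := by linarith
  have hl1 : 1 ≤ Real.log L := Crude_logL (by linarith)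
  have hs : Real.exp (-L / 2) ≤ 1 / 10 := by
    have h1 := Real.add_one_le_exp (L / 2)
    have h2 : Real.exp (-L / 2) = (Real.exp (L / 2))⁻¹ := by rw [← Real.exp_neg, neg_div]
    rw [h2, one_div]
    exact inv_anti₀ (by norm_num) (by linarith only [c1, c2, hL1, h1])
  have hr : 0 < C₀ * F.τ := by positivity
  have hrj : C₀ * F.τ ≤ C₀ * F.τ * 2 ^ j := le_mul_of_one_le_right hr.le (one_le_pow₀ one_le_two)
  have hBx : Bx * F.τ ≤ C₀ * F.τ := by gcongr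
  have hκ : 0 < M / L ^ 2 := by positivity
  have hκM : M / L ^ 2 ≤ M := div_le_self hM.le (one_le_pow₀ (by linarith only [hL1, hj, hs, hr, hrj]))
  obtain ⟨δ, hδ⟩ : ∃ δ, δ = D * Real.log L / L := ⟨_, rfl⟩
  have hδ0 : 0 < δ := by rw [hδ]; positivity
  have hδ1 : δ ≤ 1 := by rw [hδ, div_le_one hL0]; exact hDL
  obtain ⟨S, s1, s2, s3, s4, s5, s6, -⟩ := Hc F ω δ (M * Real.exp (L / 3)) (M / L ^ 2) M
    (C₀ * F.τ) 0 j {ξ | ‖ξ‖ < 8 ∧ F.Bad c C₀ ξ} hr hκ (Nat.zero_le j) hω hlip (by positivity)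
    (by
      calc M * Real.exp (L / 3) * (C₀ * F.τ * 2 ^ j)
          ≤ M * Real.exp (L / 3) * Real.exp (-L / 2) := by gcongr
        _ = M * (Real.exp (L / 3) * Real.exp (-L / 2)) := by ring
        _ ≤ M * (1 / L ^ 2 / 4) := by gcongr; exact Crude_lip hL1
        _ = M / L ^ 2 / 4 := by ring)
    ((isBounded_ball (x := (0 : E m)) (r := 8)).subset fun ξ hξ => mem_ball_zero_iff.2 hξ.1)
  have aω : Adm ω := Adm.of_cont hlip.continuous h8
  have key : ∀ ξ, ‖ξ‖ < 8 → F.Bad c C₀ ξ →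
      (1 - c₀) ^ F.cnt δ ξ (C₀ * F.τ) 0 j ≤ 1 / L ^ 2 := fun ξ h1 h2 => by
    refine Hj _ ?_
    have k1 := F.Xi_count hm hδ0 hδ1 ξ hr (Nat.zero_le j) (by linarith only [hj, hs, hr, hrj, h1])
    have k2 := Hb F ξ t2 h2
    have k3 := ((Hx F ξ (C₀ * F.τ * 2 ^ j) (by linarith) (by linarith)).2.1 (by linarith only [hj, hs, hr, hrj, h1])).1
    rw [pow_zero, mul_one, Nat.cast_zero, sub_zero] at k1
    rw [← hL] at k2
    rw [← hδ]
    have k4 : (2 : ℝ) ^ (δ * ((j : ℝ) - F.cnt δ ξ (C₀ * F.τ) 0 j)) *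
        (F.τ ^ 2 / L ^ (2 * m + 2)) ≤
        2 ^ ((m - 2) * F.cnt δ ξ (C₀ * F.τ) 0 j) * (Cx * F.τ ^ 2) :=
      ((mul_le_mul_of_nonneg_left k2 (by positivity)).trans k1).trans
        (mul_le_mul_of_nonneg_left k3 (by positivity))
    refine le_of_mul_le_mul_right (k4.trans_eq ?_) (by positivity)
    field_simp
  have y1 := Hr F (fun x => ω x - S x) M (M / L ^ 2) (ball 0 9) t1 (aω.sub s2).1
    (fun x => abs_le.2 ⟨by linarith only [hκM, (s3 x).2], by linarith only [(s3 x).1, (hω x).2]⟩) hκ.le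
    measurableSet_ball subset_rfl
    (fun x hx => by
      have hx9 : 9 ≤ ‖x‖ := not_lt.1 fun h => hx (mem_ball_zero_iff.2 h)
      show ω x - S x = 0
      rw [h8 x (by linarith only [hj, hs, hr, hrj, hx9]), s4 x, sub_zero]
      intro h
      obtain ⟨z, hz, hd⟩ := mem_thickening_iff.1 h
      rw [dist_eq_norm] at hd
      linarith only [hj, hs, hr, hrj, hx9, hd, norm_sub_norm_le x z, hz.1])
    (fun x _ hb => abs_le.2 ⟨by linarith only [(s3 x).2], by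
      show ω x - S x ≤ M / L ^ 2
      by_cases hx : ‖x‖ < 8
      · have k1 := s6 x ⟨hx, hb⟩
        have k2 : (1 - c₀) ^ F.cnt δ x (C₀ * F.τ) 0 j * (ω x + M / L ^ 2) ≤
            1 / L ^ 2 * (2 * M) :=
          mul_le_mul (key x hx hb) (by linarith only [hκM, (hω x).2]) (by linarith only [hκ, (hω x).1])
            (by positivity)
        have k3 : 1 / L ^ 2 * (2 * M) = 2 * (M / L ^ 2) := by ring
        linarith only [k1, k2, k3]
      · rw [h8 x (not_lt.1 hx)]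
        linarith only [hκ, (s3 x).1]⟩)
  rw [← hL, (F.lin_sub aω s2).2.2] at y1
  have y2 := F.Crude_DD_le (s2.sub aω) hκ.le fun x => by
    show S x - ω x ≤ M / L ^ 2
    linarith only [(s3 x).2]
  rw [(F.lin_sub s2 aω).1] at y2
  have d0 : 0 ≤ F.DD ω := F.DD_nonneg fun x => (hω x).1
  have d1 : 0 ≤ F.DS univ := (F.DS_mono subset_rfl).1
  have d2 : 0 ≤ F.RS (F.τ / L ^ 2) F.τ univ :=
    (F.RS_mono (by positivity) hτ0 MeasurableSet.univ MeasurableSet.univ subset_rfl).1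
  have y3 := (abs_le.1 y1).1
  have e1 : M * (F.DS univ / L ^ 2) = M / L ^ 2 * F.DS univ := by ring
  have e2 : δ * F.DD ω = D * (Real.log L / L * F.DD ω) := by rw [hδ]; ring
  have y4 : δ * F.DD S ≤ δ * (F.DD ω + M / L ^ 2 * F.DS univ) :=
    mul_le_mul_of_nonneg_left (by linarith only [y2]) hδ0.le
  have p0 : 0 ≤ M / L ^ 2 * F.DS univ := by positivity
  have y5 : δ * (M / L ^ 2 * F.DS univ) ≤ M / L ^ 2 * F.DS univ := mul_le_of_le_one_left p0 hδ1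
  have p1 : 0 ≤ Real.log L / L * F.DD ω := by positivity
  have p2 : 0 ≤ M * F.RS (F.τ / L ^ 2) F.τ univ := by positivity
  rw [mul_add M, e1]
  generalize M / L ^ 2 * F.DS univ = u at *
  generalize Real.log L / L * F.DD ω = v at *
  generalize M * F.RS (F.τ / L ^ 2) F.τ univ = w at *
  have q1 : 0 ≤ D * u := by positivity
  have q2 : 0 ≤ D * w := by positivity
  have q3 : 0 ≤ Cr * v := by positivity
  linarith only [s5, y4, y5, e2, p1, p2, y3, q1, q2, q3]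

/-- if the energy is very small there are no bad points (`Gm_bd`) -/
theorem KL_off (m : ℕ) (hm : 3 ≤ m) (Q : ℕ) (A : ℝ) : ∃ C τ₀ : ℝ, 1 ≤ C ∧ 0 < τ₀ ∧ ∀ {N : ℕ}
    (F : Flat m N Q A) (L : ℝ) (ω : E m → ℝ), F.τ ≤ τ₀ → L = Real.log F.τ⁻¹ → Measurable ω →
    (∀ x, |ω x| ≤ 1) → (∀ x, 8 ≤ ‖x‖ → ω x = 0) → F.DS univ ≤ F.τ ^ (m + 1) →
    |F.Y ω| ≤ C * F.RS (F.τ / L ^ 2) F.τ univ := by
  obtain ⟨c, Cr, C₀, τr, r0, r1, -, r3, r4, Hr⟩ := rest_bd m (by omega) Q A 1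
  obtain ⟨Cg, g1, Hg⟩ := Gm_bd m hm
  refine ⟨Cr, min τr (Real.exp (-(Cg * (2 * m + 1).factorial / c))), r1, by positivity,
    fun {N} F L ω hτ hL mω hω h8 hD => ?_⟩
  have hτ0 := F.τ_pos
  obtain ⟨g0, g2⟩ := F.Crude_g
  have hL1 := Crude_L hτ0 (hτ.trans (min_le_right _ _))
  have hL3 := Crude_one hτ0 F.τ_le
  have y := Hr F ω 1 0 (ball 0 9) (hτ.trans (min_le_left _ _)) mω hω le_rfl measurableSet_ball
    subset_rfl (fun x hx => h8 x (by
      have : 9 ≤ ‖x‖ := not_lt.1 fun h => hx (mem_ball_zero_iff.2 h)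
      linarith)) fun ξ _ hb => by
    exfalso
    unfold Bad UU at hb
    have hab : F.τ / Real.log F.τ⁻¹ ^ 2 ≤ C₀ * F.τ := g2.trans (le_mul_of_one_le_left hτ0.le r3)
    rw [← hL] at hb hab g0 hL1 hL3
    obtain ⟨g, hg⟩ : ∃ g, g = F.τ / L ^ 2 := ⟨_, rfl⟩
    rw [← hg] at hb hab g0
    have k1 := F.abs_DD_le (f := fun v => Gm g (C₀ * F.τ) (v - ξ)) (M := Cg * g ^ 2 / g ^ m)
      (((contDiff_Gm g0 hab).1.continuous.comp (continuous_id.sub continuous_const)).measurable)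
      (fun v => by
        rw [abs_of_nonneg (Gm_nonneg g0 hab _).1]
        refine (Hg g _ g0 hab _).trans ?_
        obtain ⟨k, rfl⟩ : ∃ k, m = k + 2 := ⟨m - 2, by omega⟩
        have h1 : g ≤ max ‖v - ξ‖ g := le_max_right _ _
        generalize max ‖v - ξ‖ g = t at h1
        have h2 : 0 < t := g0.trans_le h1
        calc Cg * t ^ 2 / t ^ (k + 2) = Cg / t ^ k := by field_simp; ring
          _ ≤ Cg / g ^ k := by gcongr
          _ = Cg * g ^ 2 / g ^ (k + 2) := by field_simp; ring)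
      MeasurableSet.univ fun x hx => (hx (mem_univ x)).elim
    have hL0 : 0 < L := by linarith only [hL3]
    have k2 : Cg * L ^ (2 * m) * F.τ ≤ c := by
      have h1 := Real.pow_div_factorial_le_exp L hL0.le (2 * m + 1)
      have h2 : (0 : ℝ) < (2 * m + 1).factorial := by exact_mod_cast Nat.factorial_pos _
      rw [div_le_iff₀ r0] at hL1
      rw [div_le_iff₀ h2] at h1
      rw [Crude_tau hτ0 hL, Real.exp_neg, ← div_eq_mul_inv, div_le_iff₀ (Real.exp_pos _)]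
      refine le_of_mul_le_mul_right ?_ h2
      calc Cg * L ^ (2 * m) * (2 * m + 1).factorial
          = Cg * (2 * m + 1).factorial * L ^ (2 * m) := by ring
        _ ≤ L * c * L ^ (2 * m) := by gcongr
        _ = c * L ^ (2 * m + 1) := by ring
        _ ≤ c * (Real.exp L * (2 * m + 1).factorial) := by gcongr
        _ = c * Real.exp L * (2 * m + 1).factorial := by ring
    have k3 : Cg * g ^ 2 / g ^ m * F.DS univ ≤ c * g ^ 2 := by
      calc Cg * g ^ 2 / g ^ m * F.DS univ ≤ Cg * g ^ 2 / g ^ m * F.τ ^ (m + 1) := by gcongr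
        _ = Cg * L ^ (2 * m) * F.τ * g ^ 2 := by
          have : g ^ m = F.τ ^ m / L ^ (2 * m) := by rw [hg, div_pow, ← pow_mul]
          rw [this]
          field_simp
          ring
        _ ≤ c * g ^ 2 := by gcongr
    linarith only [hb, k1, k3, le_abs_self (F.DD fun v => Gm g (C₀ * F.τ) (v - ξ))]
  rw [← hL, zero_mul, zero_add, one_mul] at y
  exact y

/-- The two-sided bound. Split each `ω j` into its positive and negative part, and the indices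
according to the sign of the defect; it is enough to bound `|Y ω|` for `ω = ∑ j ∈ J', w j * ω' j`,
where `0 ≤ ω ≤ M (ω₀ + κ) ≤ 2 M` is Lipschitz with constant `4 M K`. The lower bound is `crude`.
For the upper bound apply `crude` to `M ω₀ + M κ χ - ω`, where `χ` is a cut-off function equal to
one on `ball 0 2`, and `S0a` to `χ`. -/
theorem two_sided (m : ℕ) (hm : 2 ≤ m) (Q : ℕ) (A : ℝ) : ∃ C τ₀ : ℝ, 1 ≤ C ∧ 0 < τ₀ ∧ ∀ {N : ℕ}
    (F : Flat m N Q A) (L : ℝ) (ω₀ : E m → ℝ), F.τ ≤ τ₀ → L = Real.log F.τ⁻¹ →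
    Wt ω₀ L (ball 0 1) → F.Y ω₀ ≤ 0 →
    F.RS (F.τ / L ^ 2) F.τ univ ≤ Real.log L / L * F.DS univ →
    ∀ {I : Type} (J : Finset I) (ω : I → E m → ℝ) (O : I → Set (E m)) (w : I → ℝ) (M κ : ℝ),
    0 < M → 0 ≤ κ → κ ≤ 1 →
    (∀ j ∈ J, 0 ≤ w j ∧ (∀ x, |ω j x| ≤ 1) ∧ Lip (F.τ ^ (-(1 / 3) : ℝ) / 10) (ω j) ∧
      O j ⊆ ball 0 2 ∧ ∀ x, x ∉ O j → ω j x = 0) →
    (∀ x, ∑ j ∈ J, (O j).indicator (fun _ => w j) x ≤ M * (ω₀ x + κ)) →
    ∑ j ∈ J, w j * |F.Y (ω j)| ≤ C * M * (Real.log L / L + κ) * F.DS univ := by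
  classical
  obtain ⟨Cc, τc, c1, c2, Hc⟩ := crude m hm Q A
  obtain ⟨Ca, Ba, a1, a2, Ha⟩ := S0a m (by omega) Q A
  obtain ⟨χ, x1, x2, x3, x4⟩ := Crude_cut (m := m)
  refine ⟨12 * Cc + Ca, min τc (1 / (10 * Ba)), by linarith, by positivity,
    fun {N} F L ω₀ hτ hL hω₀ hY hRS I J ω O w M κ hM hκ hκ1 hJ hO => ?_⟩
  have hτ0 := F.τ_pos
  have t1 : Ba * F.τ ≤ 1 / 10 := by
    have := (le_div_iff₀ (by positivity)).1 (hτ.trans (min_le_right _ _))
    linarith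
  have hL3 : 3 ≤ L := hL ▸ Crude_one hτ0 F.τ_le
  have hL0 : 0 < L := by linarith
  have hl1 : 1 ≤ Real.log L := Crude_logL hL3
  have hc := Hc F L
  rw [Crude_rpow hτ0 hL] at hJ hc
  obtain ⟨T, hT⟩ : ∃ T, T = Real.exp (L / 3) := ⟨_, rfl⟩
  have hT1 : L / 3 + 1 ≤ T := hT ▸ Real.add_one_le_exp _
  rw [← hT] at hJ hc
  obtain ⟨σ, hσ⟩ : ∃ σ : I → ℝ, ∀ j, |σ j| = 1 ∧ σ j * F.Y (ω j) = |F.Y (ω j)| := by
    refine ⟨fun j => if 0 ≤ F.Y (ω j) then 1 else -1, fun j => ?_⟩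
    by_cases h : 0 ≤ F.Y (ω j)
    · simp [h, abs_of_nonneg h]
    · simp [h, abs_of_neg (not_le.1 h)]
  have z2 : ∀ j ∈ J, ∀ x, 2 ≤ ‖x‖ → ω j x = 0 := fun j hj x hx =>
    (hJ j hj).2.2.2.2 x fun h => by
      have := mem_ball_zero_iff.1 ((hJ j hj).2.2.2.1 h)
      linarith only [hx, this]
  have aj : ∀ j ∈ J, Adm (ω j) := fun j hj => Adm.of_cont (hJ j hj).2.2.1.continuous (z2 j hj)
  obtain ⟨f, hf⟩ : ∃ f : E m → ℝ, f = fun x => ∑ j ∈ J, w j * σ j * ω j x := ⟨_, rfl⟩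
  have af : Adm f := hf ▸ Adm.sum J fun j hj => (aj j hj).const_mul _
  have yf : F.Y f = ∑ j ∈ J, w j * |F.Y (ω j)| := by
    rw [hf, (F.lin_sum J fun j hj => (aj j hj).const_mul _).2.2]
    exact Finset.sum_congr rfl fun j _ => by
      rw [(F.lin_smul _ _).2.2, mul_assoc, (hσ j).2]
  have hO2 : ∀ x, ∑ j ∈ J, (O j).indicator (fun _ => w j) x ≤ 2 * M := fun x =>
    (hO x).trans (by nlinarith only [hM, hκ1, hω₀.le_one x])
  have i0 : ∀ j ∈ J, ∀ x, 0 ≤ (O j).indicator (fun _ => w j) x := fun j hj x =>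
    indicator_nonneg (fun _ _ => (hJ j hj).1) x
  have bf : ∀ x, |f x| ≤ M * (ω₀ x + κ) := fun x => by
    refine le_trans ?_ (hO x)
    rw [hf]
    refine (Finset.abs_sum_le_sum_abs _ _).trans (Finset.sum_le_sum fun j hj => ?_)
    rw [abs_mul, abs_mul, (hσ j).1, mul_one, abs_of_nonneg (hJ j hj).1]
    by_cases hx : x ∈ O j
    · rw [indicator_of_mem hx]
      exact mul_le_of_le_one_right (hJ j hj).1 ((hJ j hj).2.1 x)
    · rw [indicator_of_notMem hx, (hJ j hj).2.2.2.2 x hx, abs_zero, mul_zero]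
  have zf : ∀ x, 2 ≤ ‖x‖ → f x = 0 := fun x hx => by
    rw [hf]
    exact Finset.sum_eq_zero fun j hj => by rw [z2 j hj x hx, mul_zero]
  have lf : ∀ x x', |f x - f x'| ≤ 4 * M * (T / 10 * ‖x - x'‖) := fun x x' => by
    have hp : 0 ≤ T / 10 * ‖x - x'‖ := mul_nonneg (by linarith only [hL3, hT1]) (norm_nonneg _)
    have h1 : |f x - f x'| ≤ ∑ j ∈ J, ((O j).indicator (fun _ => w j) x +
        (O j).indicator (fun _ => w j) x') * (T / 10 * ‖x - x'‖) := by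
      rw [hf]
      show |∑ j ∈ J, w j * σ j * ω j x - ∑ j ∈ J, w j * σ j * ω j x'| ≤ _
      rw [← Finset.sum_sub_distrib]
      refine (Finset.abs_sum_le_sum_abs _ _).trans (Finset.sum_le_sum fun j hj => ?_)
      rw [← mul_sub, abs_mul, abs_mul, (hσ j).1, mul_one, abs_of_nonneg (hJ j hj).1]
      have h2 : |ω j x - ω j x'| ≤ T / 10 * ‖x - x'‖ := (hJ j hj).2.2.1 x x'
      by_cases hx : x ∈ O j
      · refine mul_le_mul ?_ h2 (abs_nonneg _) (add_nonneg (i0 j hj x) (i0 j hj x'))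
        rw [indicator_of_mem hx]
        linarith only [i0 j hj x']
      · by_cases hx' : x' ∈ O j
        · refine mul_le_mul ?_ h2 (abs_nonneg _) (add_nonneg (i0 j hj x) (i0 j hj x'))
          rw [indicator_of_mem hx']
          linarith only [i0 j hj x]
        · rw [(hJ j hj).2.2.2.2 x hx, (hJ j hj).2.2.2.2 x' hx', sub_zero, abs_zero, mul_zero]
          exact mul_nonneg (add_nonneg (i0 j hj x) (i0 j hj x')) hp
    rw [← Finset.sum_mul, Finset.sum_add_distrib] at h1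
    exact h1.trans (mul_le_mul_of_nonneg_right (by linarith only [hO2 x, hO2 x']) hp)
  have a0 : Adm ω₀ := hω₀.adm isBounded_ball
  have aχ : Adm χ := Adm.of_cont x2.continuous x4
  have hMκ : 0 ≤ M * κ := by positivity
  have hMκ1 : M * κ ≤ M := mul_le_of_le_one_right hM.le hκ1
  have bG : ∀ x, 0 ≤ M * ω₀ x + M * κ * χ x - f x ∧ M * ω₀ x + M * κ * χ x - f x ≤ 4 * M :=
    fun x => by
      have h1 := abs_le.1 (bf x)
      have h2 : 0 ≤ M * ω₀ x := mul_nonneg hM.le (hω₀.nonneg x)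
      have h3 : M * ω₀ x ≤ M := mul_le_of_le_one_right hM.le (hω₀.le_one x)
      have h4 : 0 ≤ M * κ * χ x := mul_nonneg hMκ (x1 x).1
      have h5 : M * κ * χ x ≤ M * κ := mul_le_of_le_one_right hMκ (x1 x).2
      refine ⟨?_, by linarith only [hMκ1, h1, h3, h5, h1.1]⟩
      by_cases hx : ‖x‖ ≤ 2
      · rw [x3 x hx]
        linarith [h1.2]
      · rw [zf x (not_le.1 hx).le]
        linarith
  have aG := ((a0.const_mul M).add (aχ.const_mul (M * κ))).sub af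
  have y1 := hc (fun x => M * ω₀ x + M * κ * χ x - f x) (4 * M) (hτ.trans (min_le_left _ _)) hL
    (by positivity) bG
    (fun x x' => by
      have h1 := abs_le.1 (lf x x')
      have h2 := abs_le.1 (show |ω₀ x - ω₀ x'| ≤ L * ‖x - x'‖ from hω₀.lip x x')
      have h3 := abs_le.1 (show |χ x - χ x'| ≤ 1 * ‖x - x'‖ from x2 x x')
      have h0 := norm_nonneg (x - x')
      generalize ‖x - x'‖ = d at h0 h1 h2 h3 ⊢
      have k1 := mul_le_mul_of_nonneg_left h2.1 hM.le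
      have k2 := mul_le_mul_of_nonneg_left h2.2 hM.le
      have k3 := mul_le_mul_of_nonneg_left h3.1 hMκ
      have k4 := mul_le_mul_of_nonneg_left h3.2 hMκ
      have k5 : M * κ * d ≤ M * d := mul_le_mul_of_nonneg_right hMκ1 h0
      have k6 : M * d * (L / 3 + 1) ≤ M * d * T :=
        mul_le_mul_of_nonneg_left hT1 (mul_nonneg hM.le h0)
      have k7 : 0 ≤ M * d := mul_nonneg hM.le h0
      have k8 : 0 ≤ M * d * L := mul_nonneg k7 hL0.le
      rw [Real.norm_eq_abs, abs_le]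
      constructor <;> linarith only [h1, k1, k3, k4, k5, k6, k2, h1.1, h1.2])
    (fun x hx => by
      show M * ω₀ x + M * κ * χ x - f x = 0
      rw [zf x (by linarith), x4 x (by linarith only [hx]), hω₀.zero x fun h => by
        have := mem_ball_zero_iff.1 h
        linarith only [hx, this]]
      ring)
  have y2 := F.Crude_DD_le aG (by positivity : 0 ≤ 4 * M) fun x => (bG x).2
  rw [(F.lin_sub ((a0.const_mul M).add (aχ.const_mul (M * κ))) af).2.2,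
    (F.lin_add (a0.const_mul M) (aχ.const_mul (M * κ))).2.2, (F.lin_smul _ _).2.2,
    (F.lin_smul _ _).2.2] at y1
  have y3 := Ha F χ 1 (ball 0 3) t1 aχ.1 (fun x => by
    rw [abs_of_nonneg (x1 x).1]; exact (x1 x).2) measurableSet_ball
    (ball_subset_ball (by norm_num)) fun x hx => x4 x (not_lt.1 fun h => hx (mem_ball_zero_iff.2 h))
  have d1 := F.DS_mono (subset_univ (thickening (Ba * F.τ) (ball (0 : E m) 3)))
  have d0 : 0 ≤ F.DS univ := d1.1.trans d1.2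
  have y4 : F.Y χ ≤ Ca * F.DS univ := by
    refine ((le_abs_self _).trans y3).trans ?_
    rw [mul_one]
    exact mul_le_mul_of_nonneg_left d1.2 (by linarith)
  have hq : 0 < Real.log L / L := by positivity
  have y5 : F.DS univ / L ^ 2 ≤ Real.log L / L * F.DS univ := by
    calc F.DS univ / L ^ 2 = 1 / L / L * F.DS univ := by ring
      _ ≤ Real.log L / L * F.DS univ := by
        gcongr
        exact ((div_le_one hL0).2 (by linarith only [hL3])).trans hl1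
  rw [← yf]
  generalize Real.log L / L = q at *
  generalize F.DD (fun x => M * ω₀ x + M * κ * χ x - f x) = dG at *
  have k1 : q * dG + 4 * M * (F.DS univ / L ^ 2 + F.RS (F.τ / L ^ 2) F.τ univ) ≤
      12 * (M * q * F.DS univ) := by
    have h1 := mul_le_mul_of_nonneg_left y2 hq.le
    have h2 := mul_le_mul_of_nonneg_left (add_le_add y5 hRS) (by positivity : 0 ≤ 4 * M)
    linarith only [h1, h2]
  have k2 := mul_le_mul_of_nonneg_left k1 (by linarith only [c1] : 0 ≤ Cc)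
  have k3 := mul_le_mul_of_nonneg_left y4 hMκ
  have k4 : M * F.Y ω₀ ≤ 0 := mul_nonpos_of_nonneg_of_nonpos hM.le hY
  have k5 : 0 ≤ Cc * (M * κ * F.DS univ) := by positivity
  have k6 : 0 ≤ Ca * (M * q * F.DS univ) := by positivity
  linarith only [y1, k2, k3, k4, k5, k6]

end Flat

end Pool.Agent.MP_f6c0e6_an.Gen

end

section

/-! The parameters, and the function that measures the failure of scale invariance. -/

set_option autoImplicit false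

open MeasureTheory Filter Topology Set Metric
open scoped ENNReal RealInnerProductSpace

namespace Pool.Agent.MP_f6c0e6_an.Gen

variable {m N : ℕ}

/-- the second large parameter is `2 ^ nL k L` -/
noncomputable def nL (k : ℕ) (L : ℝ) : ℕ := ⌊Real.logb 2 L / P0 k⌋₊

/-- the second large parameter -/
noncomputable def Lam (k : ℕ) (L : ℝ) : ℝ := 2 ^ nL k L

/-- the number of dyadic scales in a factor `L` -/
noncomputable def qL (L : ℝ) : ℕ := ⌈Real.logb 2 L⌉₊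

/-- the number of windows of a block below its scale; `2 ^ pL = 32 / rp` -/
noncomputable def pL (k : ℕ) (L : ℝ) : ℕ := nL k L * (20 * k + 60) + 5

theorem KLa_grow (c : ℝ) : ∃ n₀ : ℕ, 1 ≤ n₀ ∧ ∀ n : ℕ, n₀ ≤ n → c * ((n : ℝ) + 1) ^ 2 ≤ 2 ^ n := by
  have h := tendsto_pow_const_div_const_pow_of_one_lt 2 (r := 2) (by norm_num)
  have hc : 0 < 4 * (|c| + 1) := by positivity
  obtain ⟨n₀, hn⟩ := eventually_atTop.1 (h.eventually (gt_mem_nhds (inv_pos.2 hc)))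
  refine ⟨max n₀ 1, le_max_right _ _, fun n hn' => ?_⟩
  have h1 := hn n (le_of_max_le_left hn')
  have h2 : (1 : ℝ) ≤ n := by exact_mod_cast le_of_max_le_right hn'
  rw [div_lt_iff₀ (by positivity), inv_mul_eq_div, lt_div_iff₀ hc] at h1
  have h3 : ((n : ℝ) + 1) ^ 2 ≤ 4 * (n : ℝ) ^ 2 := by nlinarith only [h2]
  have h4 : c ≤ |c| + 1 := by linarith [le_abs_self c]
  calc c * ((n : ℝ) + 1) ^ 2 ≤ (|c| + 1) * (4 * (n : ℝ) ^ 2) :=
        mul_le_mul h4 h3 (by positivity) (by positivity)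
    _ ≤ 2 ^ n := by linarith

theorem Lam_bd (k : ℕ) (Λ₀ : ℝ) : ∃ L₀ : ℝ, 1 ≤ L₀ ∧ ∀ L, L₀ ≤ L → Λ₀ ≤ Lam k L ∧ 2 ≤ Lam k L ∧
    Lam k L ^ P0 k ≤ L ∧ L ≤ (2 * Lam k L) ^ P0 k ∧ 1 ≤ Real.log L ∧
    Λ₀ * Real.log L ^ 2 ≤ Lam k L ∧ ((pL k L : ℝ) + 3) ≤ Real.log L ∧ L ≤ 2 ^ qL L ∧
    (2 : ℝ) ^ qL L ≤ 2 * L ∧ (qL L : ℝ) ≤ 2 * Real.log L ∧
    (2 : ℝ) ^ pL k L = 32 * Lam k L ^ (20 * k + 60) := by
  have hP : (20 * k + 60) * 4 ≤ P0 k := le_trans (Nat.mul_le_mul_left _ (by omega)) (TubeA_P0 k)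
  have hPr : (20 * (k : ℝ) + 60) * 4 ≤ P0 k := by exact_mod_cast hP
  have hk : (0 : ℝ) ≤ k := Nat.cast_nonneg k
  have hP1 : (1 : ℝ) ≤ P0 k := by linarith
  obtain ⟨n₀, hn1, hn₀⟩ := KLa_grow (|Λ₀| * (P0 k : ℝ) ^ 2)
  refine ⟨2 ^ (n₀ * P0 k), one_le_pow₀ (by norm_num), fun L hL => ?_⟩
  have hL0 : 0 < L := lt_of_lt_of_le (by positivity) hL
  have hl2 : (0.69 : ℝ) < Real.log 2 := by linarith only [Real.log_two_gt_d9]
  have hl2' : Real.log 2 < 1 := by linarith only [Real.log_two_lt_d9]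
  have hx : L = 2 ^ Real.logb 2 L := (Real.rpow_logb (by norm_num) (by norm_num) hL0).symm
  have hlog : Real.log L = Real.logb 2 L * Real.log 2 := by
    rw [Real.logb, div_mul_cancel₀ _ (by linarith only [hl2, hl2'])]
  have hx0 : ((n₀ * P0 k : ℕ) : ℝ) ≤ Real.logb 2 L := by
    rw [Real.le_logb_iff_rpow_le (by norm_num) hL0, Real.rpow_natCast]; exact hL
  generalize hxx : Real.logb 2 L = x at hx hlog hx0
  have hxn : 0 ≤ x := le_trans (Nat.cast_nonneg _) hx0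
  have hn : n₀ ≤ nL k L := by
    rw [nL, hxx]
    refine Nat.le_floor ?_
    rw [le_div_iff₀ (by linarith only [hPr, hl2, hl2'])]
    exact_mod_cast hx0
  have h1 : (nL k L : ℝ) * P0 k ≤ x := by
    rw [← le_div_iff₀ (by linarith only [hPr, hl2, hl2']), nL, hxx]
    exact Nat.floor_le (by positivity)
  have h2 : x ≤ ((nL k L : ℝ) + 1) * P0 k := by
    rw [← div_le_iff₀ (by linarith only [hPr, hl2, hl2']), nL, hxx]
    exact (Nat.lt_floor_add_one _).le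
  have h3 : x ≤ qL L := by rw [qL, hxx]; exact Nat.le_ceil x
  have h4 : (qL L : ℝ) ≤ x + 1 := by rw [qL, hxx]; exact (Nat.ceil_lt_add_one hxn).le
  have h5 := hn₀ _ hn
  have hn1' : 1 ≤ nL k L := hn1.trans hn
  have hn1r : (1 : ℝ) ≤ nL k L := by exact_mod_cast hn1'
  have h6 : (nL k L : ℝ) * ((20 * (k : ℝ) + 60) * 4) ≤ x :=
    (mul_le_mul_of_nonneg_left hPr (by linarith only [hl2, hl2', hn1r])).trans h1
  have h7 : (60 : ℝ) ≤ (nL k L : ℝ) * (20 * (k : ℝ) + 60) := by nlinarith only [hn1r]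
  have h8 : 0.69 * x ≤ Real.log L := by rw [hlog]; nlinarith only [hl2, hx0]
  have h9 : Real.log L ≤ ((nL k L : ℝ) + 1) * P0 k := by rw [hlog]; nlinarith only [h2, hl2', hx0]
  have h10 : 1 ≤ Real.log L := by nlinarith only [hl2, hl2', h6, h7, h8]
  have h11 : |Λ₀| * Real.log L ^ 2 ≤ Lam k L := by
    refine le_trans ?_ h5
    rw [mul_assoc, ← mul_pow, mul_comm (P0 k : ℝ)]
    exact mul_le_mul_of_nonneg_left (pow_le_pow_left₀ (by linarith only [hl2, hl2', h6, h7, h8]) h9 2) (abs_nonneg _)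
  have h12 : 1 ≤ Real.log L ^ 2 := one_le_pow₀ h10
  refine ⟨?_, ?_, ?_, ?_, h10, ?_, ?_, ?_, ?_, ?_, ?_⟩
  · nlinarith only [h11, hl2, hl2', h12, le_abs_self Λ₀, abs_nonneg Λ₀]
  · rw [Lam]
    exact le_self_pow₀ (by norm_num) (by omega)
  · rw [Lam, ← pow_mul, ← Real.rpow_natCast]
    refine le_trans (Real.rpow_le_rpow_of_exponent_le (by norm_num) ?_) hx.ge
    exact_mod_cast h1
  · rw [Lam, ← pow_succ', ← pow_mul, ← Real.rpow_natCast]
    refine le_trans hx.le (Real.rpow_le_rpow_of_exponent_le (by norm_num) ?_)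
    exact_mod_cast h2
  · exact (mul_le_mul_of_nonneg_right (le_abs_self Λ₀) (by positivity)).trans h11
  · rw [pL]
    push_cast
    linarith only [hl2, hl2', h6, h7, h8]
  · rw [← Real.rpow_natCast]
    exact le_trans hx.le (Real.rpow_le_rpow_of_exponent_le (by norm_num) h3)
  · rw [← Real.rpow_natCast]
    refine le_trans (Real.rpow_le_rpow_of_exponent_le (by norm_num) h4) (le_of_eq ?_)
    rw [Real.rpow_add (by norm_num), ← hx, Real.rpow_one, mul_comm]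
  · linarith only [hl2, hl2', h4, h6, h7, h8]
  · rw [pL, Lam, pow_add, pow_mul]
    ring

namespace Flat

variable {Q : ℕ} {A : ℝ} (F : Flat m N Q A)

/-- the energy ratio with a floor -/
noncomputable def Aw (t : ℝ) (ξ : E m) (ρ : ℝ) : ℝ := F.psi ξ ρ + t

/-- the failure of scale invariance in the window `[ρ, 2 ρ]` -/
noncomputable def bw (t : ℝ) (ξ : E m) (ρ : ℝ) : ℝ :=
  (∫ s in ρ..2 * ρ, F.nn ξ s / s) / F.Aw t ξ (2 * ρ) +
    |Real.log (F.Aw t ξ (2 * ρ) / F.Aw t ξ ρ)|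

/-- the defect in the window `[ρ, 2 ρ]` -/
noncomputable def ew (t : ℝ) (ξ : E m) (ρ : ℝ) : ℝ :=
  (|F.eta ξ ρ| + |F.eta ξ (2 * ρ)| + |F.Y fun v => Gm ρ (2 * ρ) (v - ξ)|) / F.Aw t ξ (2 * ρ)

/-- the failure of scale invariance in the block of the scale `l` -/
noncomputable def bb (t l : ℝ) (p : ℕ) (ξ : E m) : ℝ :=
  min (∑ j ∈ Finset.range (p + 3), F.bw t ξ (l / 2 ^ p * 2 ^ j)) 2

theorem KLa_Y (ξ : E m) {a b : ℝ} (ha : 0 < a) (hab : a ≤ b) :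
    ∫ ρ in a..b, F.eta ξ ρ / ρ = F.Y (fun v => Gm a b (v - ξ)) := by
  obtain ⟨M, hM0, hM⟩ := FlatE_bd m b ha
  have hf : Measurable fun q : ℝ × E m => pk q.1 (q.2 - ξ) / q.1 := by
    have h1 := (FlatE_meas (m := m)).1.comp
      (measurable_fst.prodMk (measurable_snd.sub (measurable_const (a := ξ))))
    simp only [Function.comp_def] at h1
    exact h1.div measurable_fst
  have h1 := (F.lin_integral (volume.restrict (Ioc a b))
    (f := fun s x => if s ∈ Ioc a b then pk s (x - ξ) / s else 0)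
    (Measurable.ite (measurable_fst measurableSet_Ioc) hf measurable_const)
    (M := fun _ => M / a) (integrable_const _) (fun s x => ?_) (R := ‖ξ‖ + b)
    fun s x hx => ?_).2.2.2.2.2.2
  · have e1 : (fun x => ∫ s in Ioc a b, if s ∈ Ioc a b then pk s (x - ξ) / s else 0) =
        fun v => Gm a b (v - ξ) := funext fun x => by
      rw [Gm, intervalIntegral.integral_of_le hab]
      exact setIntegral_congr_fun measurableSet_Ioc fun s hs => if_pos hs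
    rw [e1] at h1
    rw [h1, intervalIntegral.integral_of_le hab]
    refine setIntegral_congr_fun measurableSet_Ioc fun s hs => ?_
    simp only [if_pos hs, div_eq_inv_mul]
    exact (F.lin_smul _ _).2.2.symm
  · split_ifs with hs
    · have hs0 := ha.trans hs.1
      rw [abs_of_nonneg (div_nonneg (pk_nonneg hs0 _) hs0.le)]
      exact div_le_div₀ hM0 (hM s ⟨hs.1.le, hs.2⟩ _).1 ha hs.1.le
    · rw [abs_zero]
      positivity
  · split_ifs with hs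
    · rw [pk_eq_zero (ha.trans hs.1) (hs.2.trans (FlatE_far hx)), zero_div]
    · rfl

omit F in
theorem KLa_par {g : E m → ℝ → ℝ} (hg : ContinuousOn (fun q : E m × ℝ => g q.1 q.2) (univ ×ˢ Ioi 0))
    {a b : ℝ} (ha : 0 < a) (hab : a ≤ b) : Continuous fun ξ => ∫ s in a..b, g ξ s / s := by
  have h0 : ∀ s : ℝ, 0 < max s a := fun s => ha.trans_le (le_max_right _ _)
  have h1 : Continuous fun q : E m × ℝ => g q.1 (max q.2 a) :=
    hg.comp_continuous (f := fun q : E m × ℝ => (q.1, max q.2 a)) (by fun_prop)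
      fun q => ⟨mem_univ _, h0 _⟩
  have h2 : Continuous (Function.uncurry fun (ξ : E m) (s : ℝ) => g ξ (max s a) / max s a) :=
    h1.div (by fun_prop) fun q => (h0 _).ne'
  refine (intervalIntegral.continuous_parametric_intervalIntegral_of_continuous' (μ := volume)
    h2 a b).congr fun ξ => intervalIntegral.integral_congr fun s hs => ?_
  rw [uIcc_of_le hab] at hs
  simp only [max_eq_left hs.1]

omit F in
theorem KLa_slice {g : E m → ℝ → ℝ}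
    (hg : ContinuousOn (fun q : E m × ℝ => g q.1 q.2) (univ ×ˢ Ioi 0)) {a : ℝ} (ha : 0 < a) :
    Continuous fun ξ => g ξ a :=
  hg.comp_continuous (f := fun ξ : E m => (ξ, a)) (by fun_prop) fun _ => ⟨mem_univ _, ha⟩

theorem KLa_bd {a : ℝ} (b : ℝ) (ha : 0 < a) : ∃ K : ℝ, 0 ≤ K ∧ ∀ s ∈ Icc a b, ∀ ξ,
    F.psi ξ s ≤ K ∧ F.nn ξ s ≤ K ∧ |F.eta ξ s| ≤ K := by
  obtain ⟨M, hM0, hM⟩ := FlatE_bd m b ha
  have := F.fin
  have key : ∀ (f : E N → ℝ) (c : ℝ), (∀ y, |f y| ≤ c) → |∫ y, f y ∂F.μ| ≤ c * F.μ.real univ :=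
    fun f c h => norm_integral_le_of_norm_le_const (f := f) (C := c) (ae_of_all F.μ h)
  have hμ : 0 ≤ F.μ.real univ := measureReal_nonneg
  refine ⟨M * m * F.μ.real univ + 2 * (M * F.μ.real univ + Q * (b ^ 2 * |∫ v : E m, pk 1 v|)),
    by positivity, fun s hs ξ => ?_⟩
  have hs0 := ha.trans_le hs.1
  have h1 : |F.psi ξ s| ≤ M * m * F.μ.real univ := key _ _ fun y => by
    rw [abs_of_nonneg (mul_nonneg (pk_nonneg hs0 _) (F.d_bd y).1)]
    exact mul_le_mul (hM _ hs _).1 (F.d_bd y).2 (F.d_bd y).1 hM0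
  have h2 : |F.nn ξ s| ≤ M * m * F.μ.real univ := key _ _ fun y => by
    rw [abs_of_nonneg (F.FlatE_rN hs0 y _).1]
    exact (F.FlatE_rN hs0 y _).2.trans
      (mul_le_mul_of_nonneg_right (hM _ hs _).2 (Nat.cast_nonneg m))
  have h3 : |∫ y, pk s (F.x y - ξ) ∂F.μ| ≤ M * F.μ.real univ := key _ _ fun y => by
    rw [abs_of_nonneg (pk_nonneg hs0 _)]
    exact (hM _ hs _).1
  have h4 : |(Q : ℝ) * (s ^ 2 * ∫ v : E m, pk 1 v)| ≤ Q * (b ^ 2 * |∫ v : E m, pk 1 v|) := by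
    rw [abs_mul, abs_mul, abs_of_nonneg (Nat.cast_nonneg Q), abs_of_nonneg (sq_nonneg s)]
    exact mul_le_mul_of_nonneg_left (mul_le_mul_of_nonneg_right
      (pow_le_pow_left₀ hs0.le hs.2 2) (abs_nonneg _)) (Nat.cast_nonneg Q)
  have h5 : 0 ≤ M * F.μ.real univ + Q * (b ^ 2 * |∫ v : E m, pk 1 v|) := by positivity
  refine ⟨by linarith [le_abs_self (F.psi ξ s)], by linarith [le_abs_self (F.nn ξ s)], ?_⟩
  rw [(F.ratio_nonneg ξ hs0).2.2.2, F.FlatE_Phi hs0]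
  rw [abs_le] at h1 h3 h4 ⊢
  constructor <;> linarith only [h1, h3, h4, h1.1, h1.2, h3.1, h3.2, h4.1, h4.2]

omit F in
theorem KLa_int {g : ℝ → ℝ} {K ρ : ℝ} (hρ : 0 < ρ) (h : ∀ s ∈ Icc ρ (2 * ρ), |g s| ≤ K) :
    |∫ s in ρ..2 * ρ, g s / s| ≤ K := by
  have hK : 0 ≤ K := (abs_nonneg _).trans (h ρ ⟨le_rfl, by linarith⟩)
  have h1 := intervalIntegral.norm_integral_le_of_norm_le_const (a := ρ) (b := 2 * ρ)
    (f := fun s => g s / s) (C := K / ρ) fun s hs => by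
      rw [uIoc_of_le (by linarith)] at hs
      rw [Real.norm_eq_abs, abs_div, abs_of_pos (hρ.trans hs.1)]
      exact div_le_div₀ hK (h s ⟨hs.1.le, hs.2⟩) hρ hs.1.le
  rwa [show 2 * ρ - ρ = ρ by ring, abs_of_pos hρ, div_mul_cancel₀ _ hρ.ne'] at h1

theorem KLa_Aw {t ρ : ℝ} (ξ : E m) (hρ : 0 < ρ) : t ≤ F.Aw t ξ ρ :=
  le_add_of_nonneg_left (F.ratio_nonneg ξ hρ).1

theorem KLa_I (ξ : E m) {ρ : ℝ} (hρ : 0 < ρ) : 0 ≤ ∫ s in ρ..2 * ρ, F.nn ξ s / s :=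
  intervalIntegral.integral_nonneg (by linarith) fun _ hs =>
    div_nonneg (F.ratio_nonneg ξ (hρ.trans_le hs.1)).2.1 (hρ.le.trans hs.1)

theorem bw_cont {t ρ : ℝ} (ht : 0 < t) (hρ : 0 < ρ) :
    Continuous (fun ξ => F.bw t ξ ρ) ∧ Continuous (fun ξ => F.ew t ξ ρ) ∧
      (∀ ξ, 0 ≤ F.bw t ξ ρ ∧ 0 ≤ F.ew t ξ ρ) ∧ ∃ K : ℝ, ∀ ξ, F.bw t ξ ρ ≤ K ∧ F.ew t ξ ρ ≤ K := by
  obtain ⟨c1, -, c2, c3⟩ := F.cont_ratio
  have hρ2 : 0 < 2 * ρ := by linarith
  have hle : ρ ≤ 2 * ρ := by linarith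
  have p : ∀ ξ {r : ℝ}, 0 < r → 0 < F.Aw t ξ r := fun ξ _ hr => ht.trans_le (F.KLa_Aw ξ hr)
  have cA : ∀ {r : ℝ}, 0 < r → Continuous fun ξ => F.Aw t ξ r := fun hr =>
    (KLa_slice c1 hr).add continuous_const
  refine ⟨?_, ?_, fun ξ => ⟨add_nonneg (div_nonneg (F.KLa_I ξ hρ) (p ξ hρ2).le) (abs_nonneg _),
    div_nonneg (by positivity) (p ξ hρ2).le⟩, ?_⟩
  · exact ((KLa_par c3 hρ hle).div (cA hρ2) fun ξ => (p ξ hρ2).ne').add
      (((cA hρ2).div (cA hρ) fun ξ => (p ξ hρ).ne').log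
        fun ξ => (div_pos (p ξ hρ2) (p ξ hρ)).ne').abs
  · refine Continuous.div (((KLa_slice c2 hρ).abs.add (KLa_slice c2 hρ2).abs).add
      (Continuous.abs ?_)) (cA hρ2) fun ξ => (p ξ hρ2).ne'
    exact (KLa_par c2 hρ hle).congr fun ξ => F.KLa_Y ξ hρ hle
  · obtain ⟨K, hK, h⟩ := F.KLa_bd (2 * ρ) hρ
    refine ⟨3 * K / t, fun ξ => ⟨?_, ?_⟩⟩
    · have h1 : ∫ s in ρ..2 * ρ, F.nn ξ s / s ≤ K := (le_abs_self _).trans (KLa_int hρ fun s hs => by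
        rw [abs_of_nonneg (F.ratio_nonneg ξ (hρ.trans_le hs.1)).2.1]
        exact (h s hs ξ).2.1)
      have h2 := div_le_div₀ hK h1 ht (F.KLa_Aw (t := t) ξ hρ2)
      have h3 : ∀ r r', r ∈ Icc ρ (2 * ρ) → r' ∈ Icc ρ (2 * ρ) →
          Real.log (F.Aw t ξ r / F.Aw t ξ r') ≤ K / t := fun r r' hr hr' => by
        have a1 := hρ.trans_le hr.1
        have a2 := hρ.trans_le hr'.1
        refine (Real.log_le_sub_one_of_pos (div_pos (p ξ a1) (p ξ a2))).trans ?_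
        have a3 : F.Aw t ξ r / F.Aw t ξ r' ≤ (K + t) / t :=
          div_le_div₀ (by positivity) (add_le_add_left (h r hr ξ).1 t) ht (F.KLa_Aw ξ a2)
        rw [add_div, div_self ht.ne'] at a3
        linarith
      have h4 := h3 (2 * ρ) ρ ⟨hle, le_rfl⟩ ⟨le_rfl, hle⟩
      have h5 := h3 ρ (2 * ρ) ⟨le_rfl, hle⟩ ⟨hle, le_rfl⟩
      rw [← inv_div, Real.log_inv] at h5
      have h6 : |Real.log (F.Aw t ξ (2 * ρ) / F.Aw t ξ ρ)| ≤ K / t := abs_le.2 ⟨by linarith only [h5], h4⟩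
      have h7 : 0 ≤ K / t := by positivity
      rw [bw, mul_div_assoc]
      linarith only [h2, h4, h5, h6]
    · refine div_le_div₀ (by positivity) ?_ ht (F.KLa_Aw ξ hρ2)
      have h1 := KLa_int (g := F.eta ξ) hρ fun s hs => (h s hs ξ).2.2
      rw [F.KLa_Y ξ hρ hle] at h1
      linarith [(h ρ ⟨le_rfl, hle⟩ ξ).2.2, (h (2 * ρ) ⟨hle, le_rfl⟩ ξ).2.2]

theorem bb_bd {t l : ℝ} (ht : 0 < t) (hl : 0 < l) (p : ℕ) : Continuous (F.bb t l p) ∧
    ∀ ξ, 0 ≤ F.bb t l p ξ ∧ F.bb t l p ξ ≤ 2 ∧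
      F.bb t l p ξ ≤ ∑ j ∈ Finset.range (p + 3), F.bw t ξ (l / 2 ^ p * 2 ^ j) := by
  have h : ∀ j : ℕ, 0 < l / 2 ^ p * 2 ^ j := fun j => by positivity
  refine ⟨(continuous_finsetSum _ fun j _ => (F.bw_cont ht (h j)).1).min continuous_const,
    fun ξ => ⟨le_min (Finset.sum_nonneg fun j _ => ((F.bw_cont ht (h j)).2.2.1 ξ).1) zero_le_two,
      min_le_right _ _, min_le_left _ _⟩⟩

/-- With `x = A₁ / A₂` and `e` the numerator of `ew`, `integral_nn` gives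
`A₂ - A₁ ≥ 2 ∫ nn / s - 2 e`; use `- log x ≥ 1 - x` and `log x ≤ x - 1`. -/
theorem bw_le {t ρ : ℝ} (ht : 0 < t) (hρ : 0 < ρ) (ξ : E m) (h : ‖ξ‖ + 2 * ρ < 10) :
    F.bw t ξ ρ ≤ 3 / 2 * Real.log (F.Aw t ξ (2 * ρ) / F.Aw t ξ ρ) + 5 * F.ew t ξ ρ := by
  have hρ2 : 0 < 2 * ρ := by linarith
  obtain ⟨h1, h2, -⟩ := F.integral_nn ξ hρ (by linarith) h
  have h3 := (F.ratio_nonneg ξ hρ).2.2.2
  have h4 := (F.ratio_nonneg ξ hρ2).2.2.2
  have h5 := F.KLa_I ξ hρ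
  have p1 := ht.trans_le (F.KLa_Aw (t := t) ξ hρ)
  have p2 := ht.trans_le (F.KLa_Aw (t := t) ξ hρ2)
  have h6 : ∫ s in ρ..2 * ρ, F.nn ξ s / s ≤ (F.Aw t ξ (2 * ρ) - F.Aw t ξ ρ) / 2 +
      (|F.eta ξ ρ| + |F.eta ξ (2 * ρ)| + |F.Y fun v => Gm ρ (2 * ρ) (v - ξ)|) := by
    rw [h1, h2, Aw, Aw]
    linarith only [h3, h4, le_abs_self (F.eta ξ ρ), neg_abs_le (F.eta ξ (2 * ρ)), abs_nonneg (F.eta ξ ρ),
      abs_nonneg (F.eta ξ (2 * ρ)), le_abs_self (F.Y fun v => Gm ρ (2 * ρ) (v - ξ))]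
  rw [bw, ew]
  have h7 : 0 ≤ |F.eta ξ ρ| + |F.eta ξ (2 * ρ)| + |F.Y fun v => Gm ρ (2 * ρ) (v - ξ)| := by
    positivity
  generalize |F.eta ξ ρ| + |F.eta ξ (2 * ρ)| + |F.Y fun v => Gm ρ (2 * ρ) (v - ξ)| = e at h6 h7
  generalize ∫ s in ρ..2 * ρ, F.nn ξ s / s = I at h5 h6
  generalize F.Aw t ξ (2 * ρ) = b at p2 h6
  generalize F.Aw t ξ ρ = a at p1 h6
  have h8 := Real.log_le_sub_one_of_pos (div_pos p1 p2)
  rw [← inv_div, Real.log_inv, inv_div] at h8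
  have h9 : I / b ≤ (1 - a / b) / 2 + e / b := by
    rw [div_le_iff₀ p2]
    refine h6.trans (le_of_eq ?_)
    field_simp
  have h10 : 0 ≤ I / b := by positivity
  have h11 : 0 ≤ e / b := by positivity
  rcases abs_cases (Real.log (b / a)) with h12 | h12 <;> linarith only [h8, h9, h11, h12, h10, h12.1, h12.2]

/-- telescoping -/
theorem sum_bw_le {t r : ℝ} (ht : 0 < t) (hr : 0 < r) (ξ : E m) (n : ℕ)
    (h : ‖ξ‖ + r * 2 ^ n < 10) :
    ∑ j ∈ Finset.range n, F.bw t ξ (r * 2 ^ j) ≤ 3 / 2 * Real.log (F.Aw t ξ (r * 2 ^ n) / t) +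
      5 * ∑ j ∈ Finset.range n, F.ew t ξ (r * 2 ^ j) := by
  have p : ∀ j : ℕ, t ≤ F.Aw t ξ (r * 2 ^ j) := fun j => F.KLa_Aw ξ (by positivity)
  induction n with
  | zero =>
    simp only [Finset.range_zero, Finset.sum_empty]
    have := Real.log_nonneg ((one_le_div ht).2 (p 0))
    linarith only [this]
  | succ n ih =>
    have e : r * 2 ^ (n + 1) = 2 * (r * 2 ^ n) := by ring
    have h0 : 0 < r * 2 ^ n := by positivity
    rw [e] at h
    have h1 := ih (by linarith)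
    have h2 := F.bw_le ht h0 ξ h
    have q1 := ht.trans_le (p n)
    have q2 := ht.trans_le (p (n + 1))
    rw [Finset.sum_range_succ, Finset.sum_range_succ, e]
    rw [e] at q2
    rw [Real.log_div q2.ne' q1.ne'] at h2
    rw [Real.log_div q1.ne' ht.ne'] at h1
    rw [Real.log_div q2.ne' ht.ne']
    linarith only [h1, h2]

end Flat

/-- invariance under blow-up -/
theorem Blow.bb {Q : ℕ} {A : ℝ} {F F' : Flat m N Q A} {ξ₀ : E m} {l : ℝ} (h : Blow F F' ξ₀ l)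
    (hl : 0 < l) {t : ℝ} (ht : 0 < t) (p : ℕ) (ξ : E m) (hξ : ‖ξ‖ ≤ 1) :
    F'.bb (t / l ^ 2) 1 p ξ = F.bb t l p (ξ₀ + l • ξ) := by
  unfold Flat.bb
  congr 1
  refine Finset.sum_congr rfl fun j hj => ?_
  have hj' : j ≤ p + 2 := by
    have := Finset.mem_range.1 hj
    omega
  have h0 : (0 : ℝ) < 1 / 2 ^ p * 2 ^ j := by positivity
  have h4 : (1 : ℝ) / 2 ^ p * 2 ^ j ≤ 4 := by
    rw [div_mul_eq_mul_div, div_le_iff₀ (by positivity), one_mul]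
    refine (pow_le_pow_right₀ one_le_two hj').trans (le_of_eq ?_)
    ring
  rw [show l / 2 ^ p * 2 ^ j = l * (1 / 2 ^ p * 2 ^ j) by ring]
  generalize (1 : ℝ) / 2 ^ p * 2 ^ j = ρ at h0 h4
  have hA : ∀ r, 0 < r → r ≤ 8 →
      F'.Aw (t / l ^ 2) ξ r = (l ^ 2)⁻¹ * F.Aw t (ξ₀ + l • ξ) (l * r) := fun r hr hr' => by
    rw [Flat.Aw, Flat.Aw, (h.ratio ξ r hr (by linarith)).1]
    ring
  have hI : ∫ s in ρ..2 * ρ, F'.nn ξ s / s =
      (l ^ 2)⁻¹ * ∫ s in l * ρ..2 * (l * ρ), F.nn (ξ₀ + l • ξ) s / s := by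
    have e1 := intervalIntegral.mul_integral_comp_mul_left (a := ρ) (b := 2 * ρ)
      (f := fun s => F.nn (ξ₀ + l • ξ) s / s) l
    rw [show 2 * (l * ρ) = l * (2 * ρ) by ring, ← e1, ← intervalIntegral.integral_const_mul,
      ← intervalIntegral.integral_const_mul]
    refine intervalIntegral.integral_congr fun s hs => ?_
    rw [uIcc_of_le (by linarith)] at hs
    have hs0 := h0.trans_le hs.1
    rw [(h.ratio ξ s hs0 (by linarith [hs.2])).2.1]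
    field_simp
  have hl2 : (l ^ 2)⁻¹ ≠ 0 := by positivity
  rw [Flat.bw, Flat.bw, hI, hA _ h0 (by linarith only [h4]), hA _ (by linarith) (by linarith),
    mul_div_mul_left _ _ hl2, mul_div_mul_left _ _ hl2, show l * (2 * ρ) = 2 * (l * ρ) by ring]

theorem KLa_dyad (p : ℕ) {x : ℝ} (h1 : 1 ≤ x) (h2 : x ≤ 2 * 2 ^ p) :
    ∃ n, n ≤ p ∧ 2 ^ n ≤ x ∧ x ≤ 2 * 2 ^ n := by
  induction p with
  | zero => exact ⟨0, le_rfl, by simpa using h1, h2⟩
  | succ p ih =>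
    by_cases h : x ≤ 2 * 2 ^ p
    · obtain ⟨n, hn, h3⟩ := ih h
      exact ⟨n, by omega, h3⟩
    · exact ⟨p + 1, le_rfl, by rw [pow_succ]; linarith, h2⟩

theorem KLa_tele {f g : ℕ → ℝ} (h : ∀ j, |f (j + 1) - f j| ≤ g j) {i j : ℕ} (hij : i ≤ j) :
    |f j - f i| ≤ ∑ s ∈ Finset.range j, g s - ∑ s ∈ Finset.range i, g s := by
  induction j, hij using Nat.le_induction with
  | base => simp
  | succ j _ ih =>
    rw [Finset.sum_range_succ]
    linarith only [ih, abs_sub_le (f (j + 1)) (f j) (f i), h j]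

theorem KLa_cmp {a g : ℕ → ℝ} (ha : ∀ j, 0 < a j) (h : ∀ j, |Real.log (a (j + 1) / a j)| ≤ g j)
    {n : ℕ} (hn : ∑ s ∈ Finset.range n, g s ≤ 1) {i j : ℕ} (hi : i ≤ n) (hj : j ≤ n) :
    a i ≤ 3 * a j := by
  have g0 : ∀ j, 0 ≤ g j := fun j => (abs_nonneg _).trans (h j)
  have h1 : ∀ {i j : ℕ}, i ≤ j → j ≤ n → |Real.log (a j) - Real.log (a i)| ≤ 1 := fun {i j} h2 h3 => by
    have h4 := KLa_tele (f := fun j => Real.log (a j)) (g := g)
      (fun j => by rw [← Real.log_div (ha _).ne' (ha _).ne']; exact h j) h2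
    have h5 : ∑ s ∈ Finset.range j, g s ≤ ∑ s ∈ Finset.range n, g s :=
      Finset.sum_le_sum_of_subset_of_nonneg (Finset.range_mono h3) fun s _ _ => g0 s
    have h6 : 0 ≤ ∑ s ∈ Finset.range i, g s := Finset.sum_nonneg fun s _ => g0 s
    linarith only [hn, h4, h5, h6]
  have h2 : Real.log (a i) ≤ Real.log (a j) + 1 := by
    rcases le_total i j with h3 | h3
    · linarith [(abs_le.1 (h1 h3 hj)).1]
    · linarith [(abs_le.1 (h1 h3 hi)).2]
  have h3 := Real.exp_le_exp.2 h2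
  rw [Real.exp_add, Real.exp_log (ha i), Real.exp_log (ha j)] at h3
  nlinarith only [h3, Real.exp_one_lt_d9, ha j]

theorem Flat.KLa_stress {Q : ℕ} {A : ℝ} (F : Flat m N Q A) (ξ : E m) {ρ s : ℝ} (hρ : 0 < ρ)
    (h1 : 2 * ρ ≤ s) (h2 : s ≤ 4 * ρ) :
    ∫ y in F.x ⁻¹' ball ξ ρ, F.NN y (F.x y - ξ) (F.x y - ξ) ∂F.μ ≤
      8 * cg m * (8 * ρ) ^ m * ∫ u in s..2 * s, F.nn ξ u / u := by
  have hc := cg_pos m
  have hs : 0 < s := by linarith
  have hi : Integrable (fun y => F.NN y (F.x y - ξ) (F.x y - ξ)) F.μ := by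
    refine F.integrable_of_bd (F.FlatE_mNN ξ) (M := m * (10 + ‖ξ‖) ^ 2) fun y hy _ => ?_
    rw [Real.norm_eq_abs, abs_of_nonneg (F.FlatE_NN y _).1]
    refine (F.FlatE_NN y _).2.trans (mul_le_mul (F.d_bd y).2
      (pow_le_pow_left₀ (norm_nonneg _) ?_ 2) (by positivity) (by positivity))
    linarith [norm_sub_le (F.x y) ξ]
  generalize hJ : ∫ y in F.x ⁻¹' ball ξ ρ, F.NN y (F.x y - ξ) (F.x y - ξ) ∂F.μ = J
  have h3 : ∀ u ∈ Icc s (2 * s), J / (8 * cg m * (8 * ρ) ^ m) / s ≤ F.nn ξ u / u := by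
    intro u hu
    have hu0 := hs.trans_le hu.1
    have h4 : J ≤ 4 * cg m * u ^ m * F.nn ξ u := by
      refine le_trans ?_ (F.nn_cmp ξ hu0).1
      rw [← hJ]
      refine setIntegral_mono_set hi.integrableOn (ae_of_all _ fun y => (F.FlatE_NN y _).1)
        (LE.le.eventuallyLE (preimage_mono ?_))
      exact ball_subset_closedBall.trans (closedBall_subset_closedBall (by linarith [hu.1]))
    have h5 := (F.ratio_nonneg ξ hu0).2.1
    have h6 : u ^ m ≤ (8 * ρ) ^ m := pow_le_pow_left₀ hu0.le (by linarith [hu.2]) m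
    have h7 : J ≤ 4 * cg m * (8 * ρ) ^ m * F.nn ξ u := h4.trans (by gcongr)
    have h8 : J / (8 * cg m * (8 * ρ) ^ m) ≤ F.nn ξ u / 2 := by
      rw [div_le_iff₀ (by positivity)]
      linarith
    calc J / (8 * cg m * (8 * ρ) ^ m) / s ≤ F.nn ξ u / 2 / s := by gcongr
      _ = F.nn ξ u / (2 * s) := div_div _ _ _
      _ ≤ F.nn ξ u / u := div_le_div_of_nonneg_left h5 hu0 hu.2
  have h4 := intervalIntegral.integral_mono_on (by linarith) intervalIntegrable_const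
    (((F.FlatE_slice (b := 2 * s) ξ hs).2.2.div continuousOn_id
      fun t ht => (hs.trans_le ht.1).ne').intervalIntegrable_of_Icc (μ := volume) (by linarith)) h3
  rw [intervalIntegral.integral_const, smul_eq_mul, show 2 * s - s = s by ring,
    mul_div_cancel₀ _ hs.ne', div_le_iff₀ (by positivity)] at h4
  exact h4.trans (le_of_eq (mul_comm _ _))

/-- All the numbers `Aw t ξ (2 ^ j / 2 ^ p)`, `0 ≤ j ≤ p + 3`, are comparable up to the factor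
`e`. By `psi_cmp`, `psi ξ 8 ≥ c M` and `psi ξ 2 ≤ C M`. For the stress use the window `[s, 2 s]`
with the least dyadic `s ≥ 2 ρ` (so `s ≤ 4`) and `nn_cmp`. -/
theorem Flat.good_of_bb (k : ℕ) : ∃ C : ℝ, 1 ≤ C ∧ ∀ {N Q : ℕ} {A : ℝ} (F : Flat (k + 2) N Q A)
    (t : ℝ) (p : ℕ) (ξ : E (k + 2)), 0 < t → C * t ≤ F.DS (ball 0 3) → ‖ξ‖ < 1 →
    F.bb t 1 p ξ ≤ 1 → ∀ ρ : ℝ, 2 / 2 ^ p ≤ ρ → ρ ≤ 2 →
    F.DS (ball 0 3) * ρ ^ k ≤ C * F.DS (ball ξ ρ) ∧
    F.DS (ball ξ ρ) ≤ C * F.DS (ball 0 3) * ρ ^ k ∧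
    ∫ y in F.x ⁻¹' ball ξ ρ, F.NN y (F.x y - ξ) (F.x y - ξ) ∂F.μ ≤
      C * F.bb t 1 p ξ * F.DS (ball 0 3) * ρ ^ (k + 2) := by
  have hc := cg_pos (k + 2)
  generalize hcc : cg (k + 2) = c at hc
  let B : ℝ := 150 * c * 8 ^ k
  let K : ℝ := 3 * (1 / (10 * c) + 1)
  have hB : 0 < B := by positivity
  have hK : 0 < K := by positivity
  let C1 : ℝ := 2 * B * 2 ^ k / (10 * c)
  let C2 : ℝ := 50 * c * 4 ^ k * K
  let C3 : ℝ := 8 * c * 8 ^ (k + 2) * K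
  have hC1 : 0 < C1 := by positivity
  have hC2 : 0 < C2 := by positivity
  have hC3 : 0 < C3 := by positivity
  refine ⟨1 + 2 * B + C1 + C2 + C3, by linarith only [hB, hC1, hC2, hC3], ?_⟩
  intro N Q A F t p ξ ht hM hξ hb ρ h1 h2
  have hM0 : 0 ≤ F.DS (ball 0 3) := (F.DS_mono subset_rfl).1
  have hp : (0 : ℝ) < 2 ^ p := by positivity
  have hρ : 0 < ρ := lt_of_lt_of_le (by positivity) h1
  have r0 : ∀ j : ℕ, (0 : ℝ) < 1 / 2 ^ p * 2 ^ j := fun j => by positivity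
  have re : ∀ j : ℕ, (1 : ℝ) / 2 ^ p * 2 ^ (j + 1) = 2 * (1 / 2 ^ p * 2 ^ j) := fun j => by ring
  have hsum : ∑ j ∈ Finset.range (p + 3), F.bw t ξ (1 / 2 ^ p * 2 ^ j) = F.bb t 1 p ξ := by
    unfold Flat.bb at hb ⊢
    rcases min_cases (∑ j ∈ Finset.range (p + 3), F.bw t ξ (1 / 2 ^ p * 2 ^ j)) 2 with h | h
    · exact h.1.symm
    · linarith only [hb, h, h.1]
  have a0 : ∀ j : ℕ, 0 < F.Aw t ξ (1 / 2 ^ p * 2 ^ j) := fun j => ht.trans_le (F.KLa_Aw ξ (r0 j))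
  have cmp : ∀ {i j : ℕ}, i ≤ p + 3 → j ≤ p + 3 →
      F.Aw t ξ (1 / 2 ^ p * 2 ^ i) ≤ 3 * F.Aw t ξ (1 / 2 ^ p * 2 ^ j) :=
    KLa_cmp (a := fun j => F.Aw t ξ (1 / 2 ^ p * 2 ^ j))
      (g := fun j => F.bw t ξ (1 / 2 ^ p * 2 ^ j)) a0 (fun j => by
        rw [re]
        exact le_add_of_nonneg_left (div_nonneg (F.KLa_I ξ (r0 j))
          (ht.le.trans (F.KLa_Aw ξ (by linarith [r0 j]))))) (hsum.le.trans hb)
  have pc : ∀ {r : ℝ}, 0 < r → 10 * c * r ^ k * F.psi ξ r ≤ F.DS (ball ξ r) ∧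
      F.DS (closedBall ξ (r / 2)) ≤ 50 * c * r ^ k * F.psi ξ r := fun hr => by
    simpa only [hcc, Nat.add_sub_cancel] using F.psi_cmp (by omega) ξ hr
  have e8 : (1 : ℝ) / 2 ^ p * 2 ^ (p + 3) = 8 := by
    field_simp
    ring
  have e2 : (1 : ℝ) / 2 ^ p * 2 ^ (p + 1) = 2 := by
    field_simp
    ring
  have htM : t ≤ F.DS (ball 0 3) := by nlinarith only [hM, hB, ht, hC1, hC2, hC3]
  have htB : 2 * B * t ≤ F.DS (ball 0 3) := by nlinarith only [ht, hM, hC1, hC2, hC3]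
  have lo : ∀ j ≤ p + 3, F.DS (ball 0 3) ≤ 2 * B * F.psi ξ (1 / 2 ^ p * 2 ^ j) := fun j hj => by
    have b1 := cmp le_rfl hj
    rw [e8] at b1
    have b2 := (pc (r := 8) (by norm_num)).2
    have b3 : F.DS (ball 0 3) ≤ F.DS (closedBall ξ (8 / 2)) := (F.DS_mono fun v hv => by
      rw [mem_ball_zero_iff] at hv
      rw [mem_closedBall, dist_eq_norm]
      linarith [norm_sub_le v ξ]).2
    have b4 : F.psi ξ 8 ≤ 3 * (F.psi ξ (1 / 2 ^ p * 2 ^ j) + t) := by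
      unfold Flat.Aw at b1
      linarith
    have b5 : 50 * c * 8 ^ k * F.psi ξ 8 ≤ B * (F.psi ξ (1 / 2 ^ p * 2 ^ j) + t) :=
      (mul_le_mul_of_nonneg_left b4 (by positivity)).trans (le_of_eq (by simp only [B]; ring))
    linarith only [htB, b2, b3, b5]
  have hi : ∀ j ≤ p + 3, F.Aw t ξ (1 / 2 ^ p * 2 ^ j) ≤ K * F.DS (ball 0 3) := fun j hj => by
    have b1 := cmp hj (by omega : p + 1 ≤ p + 3)
    rw [e2] at b1
    have b2 := (pc (r := 2) (by norm_num)).1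
    have b3 : F.DS (ball ξ 2) ≤ F.DS (ball 0 3) := (F.DS_mono fun v hv => by
      rw [mem_ball, dist_eq_norm] at hv
      rw [mem_ball_zero_iff]
      linarith only [hξ, hv, norm_sub_norm_le v ξ]).2
    have b4 := (F.ratio_nonneg ξ (ρ := 2) (by norm_num)).1
    have b5 : 10 * c * F.psi ξ 2 ≤ 10 * c * 2 ^ k * F.psi ξ 2 :=
      mul_le_mul_of_nonneg_right (le_mul_of_one_le_right (by positivity)
        (one_le_pow₀ one_le_two)) b4
    have b6 : F.psi ξ 2 ≤ 1 / (10 * c) * F.DS (ball 0 3) := by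
      rw [one_div, inv_mul_eq_div, le_div_iff₀ (by positivity)]
      linarith only [b2, b3, b5]
    have b7 : F.Aw t ξ 2 = F.psi ξ 2 + t := rfl
    simp only [K]
    linarith only [htM, b1, b6, b7]
  obtain ⟨n, hn, h3, h4⟩ := KLa_dyad p (x := ρ * 2 ^ p)
    (by rw [div_le_iff₀ hp] at h1; linarith) (mul_le_mul_of_nonneg_right h2 hp.le)
  have h5 : 1 / 2 ^ p * 2 ^ n ≤ ρ := by
    rw [div_mul_eq_mul_div, div_le_iff₀ hp]
    linarith only [h3]
  have h6 : ρ ≤ 2 * (1 / 2 ^ p * 2 ^ n) := by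
    rw [div_mul_eq_mul_div, ← mul_div_assoc, le_div_iff₀ hp]
    linarith only [h4]
  have e4 : (1 : ℝ) / 2 ^ p * 2 ^ (n + 2) = 4 * (1 / 2 ^ p * 2 ^ n) := by ring
  have l1 := lo n (by omega)
  have u1 := hi (n + 2) (by omega)
  have u2 := hi (n + 2 + 1) (by omega)
  have w1 : F.bw t ξ (1 / 2 ^ p * 2 ^ (n + 2)) ≤ F.bb t 1 p ξ := by
    rw [← hsum]
    exact Finset.single_le_sum (f := fun j => F.bw t ξ (1 / 2 ^ p * 2 ^ j))
      (fun j _ => ((F.bw_cont ht (r0 j)).2.2.1 ξ).1) (Finset.mem_range.2 (by omega))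
  have a2 := a0 (n + 2 + 1)
  have hσ := r0 n
  rw [re] at u2 a2
  rw [e4] at u1 u2 w1 a2
  generalize (1 : ℝ) / 2 ^ p * 2 ^ n = σ at h5 h6 l1 u1 u2 w1 a2 hσ
  have hbb := ((F.bb_bd ht one_pos p).2 ξ).1
  have hD : 0 ≤ F.DS (ball ξ ρ) := (F.DS_mono subset_rfl).1
  refine ⟨?_, ?_, ?_⟩
  · have b1 := (pc hσ).1.trans (F.DS_mono (ball_subset_ball h5)).2
    have b2 : ρ ^ k ≤ (2 * σ) ^ k := pow_le_pow_left₀ hρ.le h6 k
    calc F.DS (ball 0 3) * ρ ^ k ≤ 2 * B * F.psi ξ σ * (2 * σ) ^ k :=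
          mul_le_mul l1 b2 (by positivity) (hM0.trans l1)
      _ = C1 * (10 * c * σ ^ k * F.psi ξ σ) := by
          simp only [C1]
          field_simp
          ring
      _ ≤ C1 * F.DS (ball ξ ρ) := mul_le_mul_of_nonneg_left b1 hC1.le
      _ ≤ _ := mul_le_mul_of_nonneg_right (by linarith only [hB, hC2, hC3]) hD
  · have b1 := (F.DS_mono (ball_subset_closedBall.trans (closedBall_subset_closedBall
      (by linarith only [h6] : ρ ≤ 4 * σ / 2)))).2.trans (pc (r := 4 * σ) (by linarith)).2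
    have b2 : (4 * σ) ^ k ≤ (4 * ρ) ^ k := pow_le_pow_left₀ (by linarith only [hρ, h6]) (by linarith only [h5]) k
    have b3 : F.psi ξ (4 * σ) ≤ K * F.DS (ball 0 3) := by
      unfold Flat.Aw at u1
      linarith only [ht, u1]
    have b4 := (F.ratio_nonneg ξ (ρ := 4 * σ) (by linarith only [hρ, h6])).1
    calc F.DS (ball ξ ρ) ≤ 50 * c * (4 * ρ) ^ k * (K * F.DS (ball 0 3)) :=
          b1.trans (by gcongr)
      _ = C2 * (F.DS (ball 0 3) * ρ ^ k) := by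
          simp only [C2]
          ring
      _ ≤ (1 + 2 * B + C1 + C2 + C3) * (F.DS (ball 0 3) * ρ ^ k) :=
          mul_le_mul_of_nonneg_right (by linarith only [hB, hC1, hC3]) (by positivity)
      _ = _ := by ring
  · have b1 := F.KLa_stress ξ hρ (s := 4 * σ) (by linarith only [h6]) (by linarith)
    rw [hcc] at b1
    have b2 : ∫ u in 4 * σ..2 * (4 * σ), F.nn ξ u / u ≤ F.bb t 1 p ξ * (K * F.DS (ball 0 3)) := by
      refine le_trans ?_ (mul_le_mul_of_nonneg_left u2 hbb)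
      rw [← div_le_iff₀ a2]
      exact (le_add_of_nonneg_right (abs_nonneg _)).trans w1
    calc _ ≤ 8 * c * (8 * ρ) ^ (k + 2) * (F.bb t 1 p ξ * (K * F.DS (ball 0 3))) :=
          b1.trans (mul_le_mul_of_nonneg_left b2 (by positivity))
      _ = C3 * (F.bb t 1 p ξ * F.DS (ball 0 3) * ρ ^ (k + 2)) := by
          simp only [C3]
          ring
      _ ≤ (1 + 2 * B + C1 + C2 + C3) * (F.bb t 1 p ξ * F.DS (ball 0 3) * ρ ^ (k + 2)) :=
          mul_le_mul_of_nonneg_right (by linarith only [hB, hC1, hC2]) (by positivity)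
      _ = _ := by ring

end Pool.Agent.MP_f6c0e6_an.Gen

end
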