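import Pool.Agent.MP_f6c0e6_an.All.KeyA

section

/-! The budget for the failure of scale invariance. -/

set_option autoImplicit false

open MeasureTheory Filter Topology Set Metric
open scoped ENNReal RealInnerProductSpace

namespace Pool.Agent.MP_f6c0e6_an.Gen

variable {m N : ℕ}

theorem KLb_exp (B c : ℝ) (hc : 0 < c) (n : ℕ) :
    ∃ L₀ : ℝ, ∀ L, L₀ ≤ L → B * L ^ n ≤ Real.exp (c * L) := by
  have h := (isLittleO_pow_exp_pos_mul_atTop n hc).bound (c := 1 / (|B| + 1)) (by positivity)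
  obtain ⟨L₀, h0⟩ := eventually_atTop.1 h
  refine ⟨L₀, fun L hL => ?_⟩
  have h1 := h0 L hL
  rw [Real.norm_eq_abs, Real.norm_eq_abs, abs_of_pos (Real.exp_pos _), one_div,
    inv_mul_eq_div, le_div_iff₀ (by positivity)] at h1
  calc B * L ^ n ≤ |B * L ^ n| := le_abs_self _
    _ = |B| * |L ^ n| := abs_mul _ _
    _ ≤ |L ^ n| * (|B| + 1) := by nlinarith only [abs_nonneg (L ^ n)]
    _ ≤ _ := h1

theorem KLb_kern (k : ℕ) : ∃ C : ℝ, 1 ≤ C ∧ ∀ ρ : ℝ, 0 < ρ →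
    Lip (C / ρ ^ (k + 1)) (pk ρ : E (k + 2) → ℝ) ∧
    Lip (C / ρ ^ (k + 1)) (pk (2 * ρ) : E (k + 2) → ℝ) ∧
    Lip (C / ρ ^ (k + 1)) (Gm ρ (2 * ρ) : E (k + 2) → ℝ) := by
  obtain ⟨C₁, h1, hp⟩ := pk_bd (k + 2)
  obtain ⟨C₂, h2, hg⟩ := Gt_bd (k + 2) (by omega)
  refine ⟨C₁ + C₂, by linarith, fun ρ hρ => ?_⟩
  have key : ∀ r : ℝ, ρ ≤ r → Lip ((C₁ + C₂) / ρ ^ (k + 1)) (pk r : E (k + 2) → ℝ) := by
    intro r hr
    have hr0 : 0 < r := hρ.trans_le hr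
    refine TubeA_lip ((contDiff_pk r).differentiable (by norm_num)) fun x => ?_
    have := (hp r hr0 0).b1 x
    simp only [sub_zero] at this
    refine this.trans ?_
    have e : C₁ * r / r ^ (k + 2) = C₁ / r ^ (k + 1) := by field_simp; ring
    rw [e]
    gcongr
    linarith
  refine ⟨key ρ le_rfl, key _ (by linarith), ?_⟩
  have hab : ρ ≤ 2 * ρ := by linarith
  refine TubeA_lip ((contDiff_Gm hρ hab).1.differentiable (by norm_num)) fun v => ?_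
  refine ContinuousLinearMap.opNorm_le_bound _ (by positivity) fun u => ?_
  have hM : 0 < max ‖v‖ ρ := lt_max_of_lt_right hρ
  have g0 := (Gm_nonneg hρ hab v).2
  rw [fderiv_Gm hρ hab, Real.norm_eq_abs, abs_mul, abs_neg, abs_of_nonneg g0]
  calc Gt ρ (2 * ρ) v * |⟪v, u⟫| ≤ C₂ / (max ‖v‖ ρ) ^ (k + 2) * (max ‖v‖ ρ * ‖u‖) := by
        gcongr
        · exact (hg ρ _ hρ hab v).1
        · exact (abs_real_inner_le_norm v u).trans (by gcongr; exact le_max_left _ _)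
    _ = C₂ / (max ‖v‖ ρ) ^ (k + 1) * ‖u‖ := by field_simp; ring
    _ ≤ (C₁ + C₂) / ρ ^ (k + 1) * ‖u‖ := by
        gcongr
        · linarith
        · exact le_max_right _ _

theorem KLb_sup {k : ℕ} {K : E (k + 2) → ℝ} {c ρ : ℝ} (hc : 0 ≤ c) (hρ : 0 < ρ) (h : Lip c K)
    (h0 : ∀ v, 2 * ρ ≤ ‖v‖ → K v = 0) (v : E (k + 2)) : |K v| ≤ c * (4 * ρ) := by
  by_cases hv : 2 * ρ ≤ ‖v‖
  · rw [h0 v hv, abs_zero]; positivity
  have e : ‖((2 * ρ) • ev 0 : E (k + 2))‖ = 2 * ρ := by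
    rw [norm_smul, norm_ev, mul_one, Real.norm_eq_abs, abs_of_pos (by positivity)]
  have := h v ((2 * ρ) • ev 0)
  rw [h0 _ e.ge, sub_zero, Real.norm_eq_abs] at this
  refine this.trans (mul_le_mul_of_nonneg_left ((norm_sub_le _ _).trans ?_) hc)
  rw [e]; linarith

theorem KLb_small : ∃ L₀ : ℝ, 3 ≤ L₀ ∧ ∀ L ρ : ℝ, L₀ ≤ L → 0 < ρ →
    Real.exp (-L) ≤ (L * ρ) ^ 4 → ρ ^ 16 ≤ Real.exp (-L) →
    3 * L ^ 3 * ρ ≤ 1 ∧ 1 / ρ ≤ Real.exp (L / 3) / 10 := by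
  obtain ⟨L₁, h1⟩ := KLb_exp (3 ^ 16) 1 one_pos 48
  obtain ⟨L₂, h2⟩ := KLb_exp (10 ^ 4) (1 / 3) (by norm_num) 4
  refine ⟨max 3 (max L₁ L₂), le_max_left _ _, fun L ρ hL hρ ha hb => ?_⟩
  have l3 : 3 ≤ L := (le_max_left _ _).trans hL
  have l1 := h1 L ((le_max_left _ _).trans ((le_max_right _ _).trans hL))
  have l2 := h2 L ((le_max_right _ _).trans ((le_max_right _ _).trans hL))
  have hL0 : 0 < L := by linarith only [l3]
  constructor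
  · refine (pow_le_one_iff_of_nonneg (n := 16) (by positivity) (by norm_num)).1 ?_
    calc (3 * L ^ 3 * ρ) ^ 16 = 3 ^ 16 * L ^ 48 * ρ ^ 16 := by ring
      _ ≤ Real.exp (1 * L) * Real.exp (-L) := by gcongr
      _ = 1 := by rw [← Real.exp_add]; simp
  · rw [div_le_div_iff₀ hρ (by norm_num), one_mul]
    refine le_of_pow_le_pow_left₀ (n := 4) (by norm_num) (by positivity) ?_
    refine le_of_mul_le_mul_right ?_ (pow_pos hL0 4)
    calc (10 : ℝ) ^ 4 * L ^ 4 ≤ Real.exp (1 / 3 * L) := l2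
      _ = Real.exp (L / 3) ^ 4 * Real.exp (-L) := by
          rw [← Real.exp_nat_mul, ← Real.exp_add]; congr 1; push_cast; ring
      _ ≤ Real.exp (L / 3) ^ 4 * (L * ρ) ^ 4 := by gcongr
      _ = (Real.exp (L / 3) * ρ) ^ 4 * L ^ 4 := by ring

theorem KLb_root {τ l C₀ : ℝ} (hτ : 0 < τ) (h1 : τ ≤ 1) (hl : 0 < l) (hC : 1 ≤ C₀)
    (h : τ ≤ 1 / C₀ ^ 4) (h4 : τ ≤ l ^ 4) : C₀ * τ ≤ l := by
  refine le_of_pow_le_pow_left₀ (n := 4) (by norm_num) hl.le (le_trans ?_ h4)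
  rw [le_div_iff₀ (by positivity)] at h
  calc (C₀ * τ) ^ 4 = τ * C₀ ^ 4 * τ ^ 2 * τ := by ring
    _ ≤ 1 * 1 ^ 2 * τ := by gcongr
    _ = τ := by ring

namespace Flat

theorem KLb_int {Q : ℕ} {A : ℝ} (F : Flat m N Q A) {g : E m → ℝ} (hg : Continuous g) :
    Integrable (fun y => g (F.x y) * F.d y) F.μ := by
  have := F.integrable_cont (g := fun q => g q.1) (hg.comp continuous_fst)
    F.measurable_all.2.2.2.2.1 (M := m) fun y => by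
      rw [abs_of_nonneg (F.d_bd y).1]; exact (F.d_bd y).2
  simpa only [smul_eq_mul, mul_comm] using this

theorem KLb_mono {Q : ℕ} {A : ℝ} (F : Flat m N Q A) {g g' : E m → ℝ} (hg : Continuous g)
    (hg' : Continuous g') {Z : Set (E m)} (hZ : MeasurableSet Z) (h : ∀ ξ ∈ Z, g ξ ≤ g' ξ) :
    ∫ y in F.x ⁻¹' Z, g (F.x y) * F.d y ∂F.μ ≤ ∫ y in F.x ⁻¹' Z, g' (F.x y) * F.d y ∂F.μ :=
  setIntegral_mono_on (F.KLb_int hg).integrableOn (F.KLb_int hg').integrableOn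
    (F.measurable_all.1 hZ) fun y hy => mul_le_mul_of_nonneg_right (h _ hy) (F.d_bd y).1

theorem KLb_le {Q : ℕ} {A : ℝ} (F : Flat m N Q A) {g : E m → ℝ} (hg : Continuous g)
    {Z : Set (E m)} (hZ : MeasurableSet Z) {M : ℝ} (h : ∀ ξ ∈ Z, g ξ ≤ M) :
    ∫ y in F.x ⁻¹' Z, g (F.x y) * F.d y ∂F.μ ≤ M * F.DS Z := by
  refine (F.KLb_mono hg (g' := fun _ => M) continuous_const hZ h).trans_eq ?_
  rw [integral_const_mul]; rfl

theorem KLb_sum {Q : ℕ} {A : ℝ} (F : Flat m N Q A) {I : Type} (J : Finset I) {g : I → E m → ℝ}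
    (hg : ∀ j ∈ J, Continuous (g j)) (Z : Set (E m)) :
    ∫ y in F.x ⁻¹' Z, (∑ j ∈ J, g j (F.x y)) * F.d y ∂F.μ =
      ∑ j ∈ J, ∫ y in F.x ⁻¹' Z, g j (F.x y) * F.d y ∂F.μ := by
  simp only [Finset.sum_mul]
  exact integral_finsetSum _ fun j hj => (F.KLb_int (hg j hj)).integrableOn

theorem KLb_cover {Q : ℕ} {A : ℝ} (F : Flat m N Q A) {I : Type} (J : Finset I) {g : E m → ℝ}
    (hg : Continuous g) (h0 : ∀ ξ, 0 ≤ g ξ) {Z : Set (E m)} {O : I → Set (E m)}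
    (hO : ∀ j, MeasurableSet (O j)) (hZ : MeasurableSet Z) (h : ∀ ξ ∈ Z, ∃ j ∈ J, ξ ∈ O j) :
    ∫ y in F.x ⁻¹' Z, g (F.x y) * F.d y ∂F.μ ≤
      ∑ j ∈ J, ∫ y in F.x ⁻¹' O j, g (F.x y) * F.d y ∂F.μ := by
  have mx := F.measurable_all.1
  have hi := F.KLb_int hg
  have p0 : ∀ y, 0 ≤ g (F.x y) * F.d y := fun y => mul_nonneg (h0 _) (F.d_bd y).1
  simp only [← integral_indicator (mx (hO _)), ← integral_indicator (mx hZ)]
  rw [← integral_finsetSum _ fun j _ => hi.indicator (mx (hO j))]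
  refine integral_mono (hi.indicator (mx hZ))
    (integrable_finsetSum _ fun j _ => hi.indicator (mx (hO j))) fun y => ?_
  have q0 : ∀ j ∈ J, 0 ≤ (F.x ⁻¹' O j).indicator (fun y => g (F.x y) * F.d y) y :=
    fun j _ => indicator_nonneg (fun y _ => p0 y) y
  by_cases hy : y ∈ F.x ⁻¹' Z
  · obtain ⟨j, hj, hjy⟩ := h _ hy
    refine le_trans ?_ (Finset.single_le_sum q0 hj)
    rw [indicator_of_mem hy, indicator_of_mem (show y ∈ F.x ⁻¹' O j from hjy)]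
  · rw [indicator_of_notMem hy]
    exact Finset.sum_nonneg q0

theorem KLb_two (k Q : ℕ) (A : ℝ) : ∃ C τ₀ : ℝ, 1 ≤ C ∧ 0 < τ₀ ∧ ∀ {N : ℕ}
    (F : Flat (k + 2) N Q A) (L : ℝ) (ω₀ : E (k + 2) → ℝ) (ρ : ℝ), F.τ ≤ τ₀ →
    L = Real.log F.τ⁻¹ → Wt ω₀ L (ball 0 1) → F.Y ω₀ ≤ 0 →
    F.RS (F.τ / L ^ 2) F.τ univ ≤ Real.log L / L * F.DS univ → 0 < ρ →
    F.τ ≤ (L * ρ) ^ 4 → ρ ^ 16 ≤ F.τ → 3 * L ^ 3 * ρ ≤ 1 ∧
    ∀ (K : E (k + 2) → ℝ) (C₁ : ℝ) (J : Finset (Fin (k + 2) → ℤ))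
      (ξ : (Fin (k + 2) → ℤ) → E (k + 2)), 0 < C₁ → Lip (C₁ / ρ ^ (k + 1)) K →
      (∀ v, 2 * ρ ≤ ‖v‖ → K v = 0) →
      (∀ j ∈ J, ‖lc ρ j‖ < 7 / 4 + ρ ∧ ‖ξ j - lc ρ j‖ ≤ ρ / 2) →
      ∑ j ∈ J, (ω₀ (lc ρ j) + 2 / L ^ 2) * |F.Y fun v => K (v - ξ j)| ≤
        C * C₁ / ρ ^ k * (Real.log L / L) * F.DS univ := by
  obtain ⟨C, τ₁, hC, hτ₁, h2⟩ := two_sided (k + 2) (by omega) Q A
  obtain ⟨Cl, hCl, hl⟩ := lattice_bd (k + 2)
  obtain ⟨L₀, hL₀, hs⟩ := KLb_small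
  have p3 : (1 : ℝ) ≤ 3 ^ (k + 2) := one_le_pow₀ (by norm_num)
  refine ⟨16 * C * (Cl * 3 ^ (k + 2)), min τ₁ (Real.exp (-L₀)),
    one_le_mul_of_one_le_of_one_le (by linarith) (one_le_mul_of_one_le_of_one_le hCl p3),
    lt_min hτ₁ (Real.exp_pos _), ?_⟩
  intro N F L ω₀ ρ hτ hL hω hY hR hρ ha hb
  have hLL : L₀ ≤ L := hL ▸ Crude_L F.τ_pos (hτ.trans (min_le_right _ _))
  have l3 : 3 ≤ L := hL₀.trans hLL
  have hL0 : 0 < L := by linarith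
  have et := Crude_tau F.τ_pos hL
  obtain ⟨s1, s2⟩ := hs L ρ hLL hρ (et ▸ ha) (et ▸ hb)
  refine ⟨s1, fun K C₁ J ξ hC₁ hK hK0 hJ => ?_⟩
  have s3 : L * (3 * ρ) ≤ 1 / L ^ 2 := by
    rw [le_div_iff₀ (by positivity)]
    exact le_of_eq_of_le (by ring) s1
  have s4 : ρ ≤ 1 / 16 := by
    have : 3 * (3 : ℝ) ^ 3 * ρ ≤ 3 * L ^ 3 * ρ := by gcongr
    linarith only [hρ, s1, this]
  have lg := Crude_logL l3
  have s5 : 3 / L ^ 2 ≤ 3 * (Real.log L / L) := by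
    have : 1 ≤ Real.log L * L := one_le_mul_of_one_le_of_one_le lg (by linarith only [hL₀, hρ, hLL, s4])
    calc 3 / L ^ 2 = 3 * (1 / L ^ 2) := by ring
      _ ≤ 3 * (Real.log L * L / L ^ 2) := by gcongr
      _ = _ := by field_simp
  have s6 : 3 / L ^ 2 ≤ 1 := by
    have : (3 : ℝ) ^ 2 ≤ L ^ 2 := by gcongr
    exact div_le_one_of_le₀ (by linarith only [hρ, s4, this]) (by positivity)
  set a : ℝ := ρ ^ k / (4 * C₁) with ha'
  have a0 : 0 < a := by positivity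
  have key := h2 F L ω₀ (hτ.trans (min_le_left _ _)) hL hω hY hR J
    (fun j x => a * K (x - ξ j)) (fun j => ball (lc ρ j) (3 * ρ))
    (fun j => ω₀ (lc ρ j) + 2 / L ^ 2) (Cl * 3 ^ (k + 2)) (3 / L ^ 2) (by positivity)
    (by positivity) s6 (fun j hj => by
      refine ⟨add_nonneg (hω.nonneg _) (by positivity), fun x => ?_, fun x x' => ?_,
        fun x hx => ?_, fun x hx => ?_⟩
      · rw [abs_mul, abs_of_pos a0]
        refine (mul_le_mul_of_nonneg_left (KLb_sup (by positivity) hρ hK hK0 _) a0.le).trans_eq ?_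
        rw [ha']; field_simp; ring
      · rw [← mul_sub, norm_mul, Real.norm_eq_abs, abs_of_pos a0, Crude_rpow F.τ_pos hL]
        refine (mul_le_mul_of_nonneg_left (hK _ _) a0.le).trans ?_
        rw [sub_sub_sub_cancel_right, ← mul_assoc]
        refine mul_le_mul_of_nonneg_right (le_trans ?_ s2) (norm_nonneg _)
        have : a * (C₁ / ρ ^ (k + 1)) = 1 / (4 * ρ) := by rw [ha']; field_simp; ring
        rw [this]
        exact one_div_le_one_div_of_le hρ (by linarith only [hρ])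
      · rw [mem_ball_iff_norm] at hx
        rw [mem_ball_zero_iff]
        have := norm_le_norm_add_norm_sub' x (lc ρ j)
        linarith only [s4, hx, this, (hJ j hj).1]
      · rw [mem_ball_iff_norm, not_lt] at hx
        rw [hK0, mul_zero]
        have := norm_sub_le_norm_sub_add_norm_sub x (ξ j) (lc ρ j)
        linarith only [hρ, hx, this, (hJ j hj).2]) (fun x => by
      have p0 : 0 ≤ ω₀ x + 3 / L ^ 2 := add_nonneg (hω.nonneg _) (by positivity)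
      calc ∑ j ∈ J, (ball (lc ρ j) (3 * ρ)).indicator (fun _ => ω₀ (lc ρ j) + 2 / L ^ 2) x
          ≤ ∑ j ∈ J, if ‖x - lc ρ j‖ ≤ 3 * ρ then ω₀ x + 3 / L ^ 2 else 0 := by
            refine Finset.sum_le_sum fun j _ => ?_
            by_cases hx : x ∈ ball (lc ρ j) (3 * ρ)
            · rw [indicator_of_mem hx]
              rw [mem_ball_iff_norm] at hx
              rw [if_pos hx.le]
              have h1 := hω.lip x (lc ρ j)
              rw [Real.norm_eq_abs] at h1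
              have h3 : L * ‖x - lc ρ j‖ ≤ L * (3 * ρ) := by gcongr
              have h4 := neg_abs_le (ω₀ x - ω₀ (lc ρ j))
              have h5 : 3 / L ^ 2 = 2 / L ^ 2 + 1 / L ^ 2 := by ring
              linarith only [s3, h1, h3, h4, h5]
            · rw [indicator_of_notMem hx]
              split_ifs
              · exact p0
              · exact le_rfl
        _ = ((J.filter fun j => ‖x - lc ρ j‖ ≤ 3 * ρ).card : ℝ) * (ω₀ x + 3 / L ^ 2) := by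
            rw [← Finset.sum_filter, Finset.sum_const, nsmul_eq_mul]
        _ ≤ Cl * 3 ^ (k + 2) * (ω₀ x + 3 / L ^ 2) := by
            refine mul_le_mul_of_nonneg_right ?_ p0
            have := (hl ρ hρ).2 J x (3 * ρ) (by linarith only [hρ])
            rwa [mul_div_assoc, div_self hρ.ne', mul_one] at this)
  simp only [(F.lin_smul a _).2.2, abs_mul, abs_of_pos a0] at key
  have D0 := (F.DS_mono (subset_refl univ)).1
  have e : ∑ j ∈ J, (ω₀ (lc ρ j) + 2 / L ^ 2) * |F.Y fun v => K (v - ξ j)| =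
      a⁻¹ * ∑ j ∈ J, (ω₀ (lc ρ j) + 2 / L ^ 2) * (a * |F.Y fun v => K (v - ξ j)|) := by
    rw [Finset.mul_sum]
    refine Finset.sum_congr rfl fun j _ => ?_
    field_simp
  rw [e]
  calc _ ≤ a⁻¹ * (C * (Cl * 3 ^ (k + 2)) * (Real.log L / L + 3 / L ^ 2) * F.DS univ) := by gcongr
    _ ≤ a⁻¹ * (C * (Cl * 3 ^ (k + 2)) * (4 * (Real.log L / L)) * F.DS univ) := by
        gcongr; linarith only [s5]
    _ = _ := by rw [ha']; field_simp; ring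

/-- Let `K` be one of the kernels `pk ρ`, `pk (2 ρ)`, `Gm ρ (2 ρ)`; then `ρ ^ k K / C` is bounded by
one, Lipschitz with constant `1 / ρ`, and zero outside the ball of radius `2 ρ`. Cover
`ball 0 (7 / 4)` by the balls `Q j = closedBall (lc ρ j) (ρ / 2)` (`sum_lp_sq`, `lattice_bd`). On
`Q j`, `Aw t x (2 ρ) ≥ psi x (2 ρ) ≥ c DS (Q j) / ρ ^ k` (`psi_cmp`); choose `x j ∈ Q j` where
`|Y (K (· - x))|` is maximal, `O j = ball (lc ρ j) (3 ρ)`, `w j = ω₀ (lc ρ j) + 2 / L²`, and apply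
`two_sided` with `κ = 3 / L²`. -/
theorem ew_budget (k Q : ℕ) (A : ℝ) : ∃ C τ₀ : ℝ, 1 ≤ C ∧ 0 < τ₀ ∧ ∀ {N : ℕ}
    (F : Flat (k + 2) N Q A) (L : ℝ) (ω₀ : E (k + 2) → ℝ) (t ρ : ℝ), F.τ ≤ τ₀ →
    L = Real.log F.τ⁻¹ → Wt ω₀ L (ball 0 1) → F.Y ω₀ ≤ 0 →
    F.RS (F.τ / L ^ 2) F.τ univ ≤ Real.log L / L * F.DS univ → 0 < t → 0 < ρ →
    F.τ ≤ (L * ρ) ^ 4 → ρ ^ 16 ≤ F.τ →
    ∫ y in F.x ⁻¹' ball 0 (7 / 4), (ω₀ (F.x y) + 1 / L ^ 2) * F.ew t (F.x y) ρ * F.d y ∂F.μ ≤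
      C * (Real.log L / L) * F.DS univ := by
  obtain ⟨C, τ₀, hC, hτ₀, h2⟩ := KLb_two k Q A
  obtain ⟨C₁, hC₁, hk⟩ := KLb_kern k
  obtain ⟨Cl, -, hl⟩ := lattice_bd (k + 2)
  have g0 := cg_pos (k + 2)
  refine ⟨max 1 (50 * cg (k + 2) * 2 ^ k * (3 * (C * C₁))), τ₀, le_max_left _ _, hτ₀, ?_⟩
  intro N F L ω₀ t ρ hτ hL hω hY hR ht hρ ha hb
  obtain ⟨s1, h3⟩ := h2 F L ω₀ ρ hτ hL hω hY hR hρ ha hb
  have l3 : 3 ≤ L := hL ▸ Crude_one F.τ_pos F.τ_le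
  have hL0 : 0 < L := by linarith only [l3]
  have lg := Crude_logL l3
  obtain ⟨-, c1, c2, Kb, c3⟩ := F.bw_cont ht hρ
  have hρ2 : 0 < 2 * ρ := by linarith
  have cA : Continuous fun ξ => F.Aw t ξ (2 * ρ) :=
    (F.cont_ratio.1.comp_continuous (f := fun ξ => (ξ, 2 * ρ)) (by fun_prop)
      fun ξ => ⟨mem_univ _, hρ2⟩).add continuous_const
  have A0 : ∀ ξ, 0 < F.Aw t ξ (2 * ρ) := fun ξ =>
    add_pos_of_nonneg_of_pos (F.ratio_nonneg ξ hρ2).1 ht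
  have hmax : ∀ j : Fin (k + 2) → ℤ, ∃ ξ ∈ closedBall (lc ρ j) (ρ / 2),
      IsMaxOn (fun ξ => F.ew t ξ ρ * F.Aw t ξ (2 * ρ)) (closedBall (lc ρ j) (ρ / 2)) ξ := fun j =>
    (isCompact_closedBall _ _).exists_isMaxOn ⟨_, mem_closedBall_self (by linarith only [hρ])⟩
      (c1.mul cA).continuousOn
  choose ξ hξ hξm using hmax
  let J := ((hl ρ hρ).1 (ball 0 (7 / 4 + ρ)) isBounded_ball).toFinset
  have hJ : ∀ j, j ∈ J ↔ ‖lc ρ j‖ < 7 / 4 + ρ := fun j => by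
    simp only [J, Finite.mem_toFinset, mem_ofPred_eq, mem_ball_zero_iff]
  have hJ' : ∀ j ∈ J, ‖lc ρ j‖ < 7 / 4 + ρ ∧ ‖ξ j - lc ρ j‖ ≤ ρ / 2 := fun j hj =>
    ⟨(hJ j).1 hj, mem_closedBall_iff_norm.1 (hξ j)⟩
  have cg' : Continuous fun x => (ω₀ x + 1 / L ^ 2) * F.ew t x ρ :=
    (hω.lip.continuous.add continuous_const).mul c1
  have w0 : ∀ x, 0 ≤ ω₀ x + 1 / L ^ 2 := fun x => add_nonneg (hω.nonneg x) (by positivity)
  have w1 : ∀ x, 0 ≤ ω₀ x + 2 / L ^ 2 := fun x => add_nonneg (hω.nonneg x) (by positivity)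
  have s3 : L * (ρ / 2) ≤ 1 / L ^ 2 := by
    rw [le_div_iff₀ (by positivity)]
    have : 0 < L ^ 3 * ρ := by positivity
    calc L * (ρ / 2) * L ^ 2 = L ^ 3 * ρ / 2 := by ring
      _ ≤ 1 := by linarith only [s1, this, mul_assoc 3 (L ^ 3) ρ]
  set c : ℝ := 50 * cg (k + 2) * (2 * ρ) ^ k with hc
  have c0 : 0 < c := by positivity
  have loc : ∀ j ∈ J, ∫ y in F.x ⁻¹' closedBall (lc ρ j) (ρ / 2),
      (ω₀ (F.x y) + 1 / L ^ 2) * F.ew t (F.x y) ρ * F.d y ∂F.μ ≤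
      c * ((ω₀ (lc ρ j) + 2 / L ^ 2) * (F.ew t (ξ j) ρ * F.Aw t (ξ j) (2 * ρ))) := by
    intro j _
    have hw : ∀ x ∈ closedBall (lc ρ j) (ρ / 2), ω₀ x + 1 / L ^ 2 ≤ ω₀ (lc ρ j) + 2 / L ^ 2 := by
      intro x hx
      rw [mem_closedBall_iff_norm] at hx
      have h1 := hω.lip x (lc ρ j)
      rw [Real.norm_eq_abs] at h1
      have h4 : L * ‖x - lc ρ j‖ ≤ L * (ρ / 2) := by gcongr
      have h5 := le_abs_self (ω₀ x - ω₀ (lc ρ j))
      have h6 : 2 / L ^ 2 = 1 / L ^ 2 + 1 / L ^ 2 := by ring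
      linarith only [s3, h1, h4, h5, h6]
    have e0 : 0 ≤ F.ew t (ξ j) ρ * F.Aw t (ξ j) (2 * ρ) := mul_nonneg (c2 _).2 (A0 _).le
    rcases (F.DS_mono (subset_refl (closedBall (lc ρ j) (ρ / 2)))).1.eq_or_lt with hD | hD
    · refine (F.KLb_le cg' measurableSet_closedBall (M := (ω₀ (lc ρ j) + 2 / L ^ 2) * Kb)
        fun x hx => mul_le_mul (hw x hx) (c3 x).2 (c2 x).2 (w1 _)).trans ?_
      rw [← hD, mul_zero]
      exact mul_nonneg c0.le (mul_nonneg (w1 _) e0)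
    · refine (F.KLb_le cg' measurableSet_closedBall (M := (ω₀ (lc ρ j) + 2 / L ^ 2) *
        (c * (F.ew t (ξ j) ρ * F.Aw t (ξ j) (2 * ρ)) / F.DS (closedBall (lc ρ j) (ρ / 2))))
        fun x hx => mul_le_mul (hw x hx) ?_ (c2 x).2 (w1 _)).trans_eq ?_
      · rw [le_div_iff₀ hD]
        have h1 : F.DS (closedBall (lc ρ j) (ρ / 2)) ≤ c * F.Aw t x (2 * ρ) := by
          have h4 := (F.psi_cmp (by omega) x hρ2).2
          rw [Nat.add_sub_cancel] at h4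
          refine (F.DS_mono (closedBall_subset_closedBall' ?_)).2.trans (h4.trans ?_)
          · rw [mem_closedBall'] at hx
            linarith only [hx]
          · exact mul_le_mul_of_nonneg_left (le_add_of_nonneg_right ht.le) c0.le
        calc F.ew t x ρ * F.DS (closedBall (lc ρ j) (ρ / 2))
            ≤ F.ew t x ρ * (c * F.Aw t x (2 * ρ)) := mul_le_mul_of_nonneg_left h1 (c2 x).2
          _ = c * (F.ew t x ρ * F.Aw t x (2 * ρ)) := by ring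
          _ ≤ _ := mul_le_mul_of_nonneg_left (hξm j hx) c0.le
      · field_simp
  have cov := F.KLb_cover J cg' (fun x => mul_nonneg (w0 x) (c2 x).2)
    (O := fun j => closedBall (lc ρ j) (ρ / 2)) (Z := ball 0 (7 / 4))
    (fun _ => measurableSet_closedBall) measurableSet_ball fun x hx => by
      have h1 := (sum_lp_sq hρ J x).2 fun j hj => (hJ j).2 (by
        rw [mem_ball_zero_iff] at hx
        have := norm_le_norm_add_norm_sub x (lc ρ j)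
        linarith only [hρ, hx, hj, this])
      obtain ⟨j, hj, h4⟩ := Finset.exists_ne_zero_of_sum_ne_zero (h1.trans_ne one_ne_zero)
      refine ⟨j, hj, mem_closedBall_iff_norm.2 (not_lt.1 fun h5 => h4 ?_)⟩
      rw [lp_eq_zero hρ j h5]; simp
  refine cov.trans ((Finset.sum_le_sum loc).trans ?_)
  obtain ⟨k1, k2, k3⟩ := hk ρ hρ
  have C0 : 0 < C₁ := by linarith only [hC₁]
  have b1 := h3 _ C₁ J ξ C0 k1 (fun v hv => pk_eq_zero hρ (by linarith only [hρ, hv])) hJ'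
  have b2 := h3 _ C₁ J ξ C0 k2 (fun v hv => pk_eq_zero hρ2 hv) hJ'
  have b3 := h3 _ C₁ J ξ C0 k3 (fun v hv => (Gm_eq_zero hρ (by linarith only [hρ]) hv).1) hJ'
  have e : ∀ j, F.ew t (ξ j) ρ * F.Aw t (ξ j) (2 * ρ) = |F.Y fun v => pk ρ (v - ξ j)| +
      |F.Y fun v => pk (2 * ρ) (v - ξ j)| + |F.Y fun v => Gm ρ (2 * ρ) (v - ξ j)| := fun j =>
    div_mul_cancel₀ _ (A0 _).ne'
  have D0 := (F.DS_mono (subset_refl univ)).1
  simp only [e, mul_add (ω₀ _ + 2 / L ^ 2), ← Finset.mul_sum, Finset.sum_add_distrib]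
  calc _ ≤ c * (3 * (C * C₁ / ρ ^ k * (Real.log L / L) * F.DS univ)) :=
        mul_le_mul_of_nonneg_left (by linarith only [b1, b2, b3]) c0.le
    _ = 50 * cg (k + 2) * 2 ^ k * (3 * (C * C₁)) * (Real.log L / L) * F.DS univ := by
        rw [hc, mul_pow]; field_simp
    _ ≤ _ := by
        gcongr
        exact le_max_right _ _

theorem KLb_range (f : ℕ → ℝ) (q n : ℕ) :
    ∑ β ∈ Finset.range n, ∑ j ∈ Finset.range q, f (β * q + j) = ∑ i ∈ Finset.range (n * q), f i := by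
  induction n with
  | zero => simp
  | succ n ih => rw [Finset.sum_range_succ, ih, Nat.succ_mul, Finset.sum_range_add]

theorem KLb_count {τ l L : ℝ} {n : ℕ} (hτ : 0 < τ) (et : τ = Real.exp (-L))
    (h4 : τ ≤ l ^ 4) (h8 : (l * 2 ^ n) ^ 8 ≤ τ) : (n : ℝ) ≤ L := by
  have h1 : τ * (τ * (2 ^ 8) ^ n) ≤ τ * 1 := by
    calc τ * (τ * (2 ^ 8) ^ n) = τ ^ 2 * (2 ^ 8) ^ n := by ring
      _ ≤ (l ^ 4) ^ 2 * (2 ^ 8) ^ n := by gcongr
      _ = (l * 2 ^ n) ^ 8 := by rw [mul_pow, ← pow_mul, ← pow_mul, ← pow_mul, mul_comm n 8]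
      _ ≤ τ * 1 := by rwa [mul_one]
  have h2 := le_of_mul_le_mul_left h1 hτ
  have h3 : Real.exp n ≤ (2 ^ 8) ^ n := by
    rw [← mul_one (n : ℝ), Real.exp_nat_mul]
    have := Real.exp_one_lt_d9
    exact pow_le_pow_left₀ (Real.exp_pos _).le (by linarith only [this]) n
  have h5 : Real.exp (-L + n) ≤ Real.exp 0 := by
    rw [Real.exp_add, ← et, Real.exp_zero]
    exact (mul_le_mul_of_nonneg_left h3 hτ.le).trans h2
  have := Real.exp_le_exp.1 h5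
  linarith

/-- The windows of the blocks of the scales `l 2 ^ (β (p + 3))` are consecutive; `sum_bw_le`,
`Xi_le` (`psi ≤ C τ²`) and `ew_budget` for each of the at most `L` windows. -/
theorem bb_budget (k Q : ℕ) (A : ℝ) (n : ℕ) : ∃ C τ₀ : ℝ, 1 ≤ C ∧ 0 < τ₀ ∧ ∀ {N : ℕ}
    (F : Flat (k + 2) N Q A) (L : ℝ) (ω₀ : E (k + 2) → ℝ) (t l : ℝ) (p nb : ℕ), F.τ ≤ τ₀ →
    L = Real.log F.τ⁻¹ → Wt ω₀ L (ball 0 1) → F.Y ω₀ ≤ 0 →
    F.RS (F.τ / L ^ 2) F.τ univ ≤ Real.log L / L * F.DS univ → F.τ ^ 2 / L ^ n ≤ t →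
    t ≤ F.τ ^ 2 → 0 < l → F.τ ≤ l ^ 4 → (2 : ℝ) ^ p ≤ L → (l * 2 ^ (nb * (p + 3))) ^ 8 ≤ F.τ →
    ∑ β ∈ Finset.range nb, ∫ y in F.x ⁻¹' ball 0 (7 / 4),
      (ω₀ (F.x y) + 1 / L ^ 2) * F.bb t (l * 2 ^ (β * (p + 3))) p (F.x y) * F.d y ∂F.μ ≤
      C * Real.log L * F.DS univ := by
  obtain ⟨C, τ₁, hC, hτ₁, he⟩ := ew_budget k Q A
  obtain ⟨Cx, C₀, hCx, hC₀, hX⟩ := Flat.Xi_le (k + 2) (by omega) Q A
  obtain ⟨L₀, h0⟩ := KLb_exp (C₀ ^ 4) 1 one_pos 4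
  have n0 : (0 : ℝ) ≤ n := Nat.cast_nonneg n
  refine ⟨3 * (Cx + n) + 5 * C, min τ₁ (min (1 / (10 * C₀)) (Real.exp (-L₀))), by linarith,
    lt_min hτ₁ (lt_min (by positivity) (Real.exp_pos _)), ?_⟩
  intro N F L ω₀ t l p nb hτ hL hω hY hR ht1 ht2 hl h4 hp h8
  have τ0 := F.τ_pos
  have τ1 : F.τ ≤ 1 := F.τ_le.trans (by norm_num)
  have l3 : 3 ≤ L := hL ▸ Crude_one τ0 F.τ_le
  have hL0 : 0 < L := by linarith
  have lg := Crude_logL l3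
  have et := Crude_tau τ0 hL
  have hLL : L₀ ≤ L := hL ▸ Crude_L τ0 (hτ.trans ((min_le_right _ _).trans (min_le_right _ _)))
  have ht : 0 < t := lt_of_lt_of_le (by positivity) ht1
  have a1 : C₀ * F.τ ≤ 1 / 10 := by
    have := hτ.trans ((min_le_right _ _).trans (min_le_left _ _))
    rw [le_div_iff₀ (by positivity)] at this
    linarith only [this]
  have a2 : C₀ * L * F.τ ≤ l := by
    refine KLb_root τ0 τ1 hl (one_le_mul_of_one_le_of_one_le hC₀ (by linarith only [l3])) ?_ h4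
    rw [et, Real.exp_neg, one_div, mul_pow]
    refine inv_anti₀ (by positivity) ?_
    simpa only [one_mul] using h0 L hLL
  set q := p + 3 with hq
  set r : ℝ := l / 2 ^ p with hr
  have r0 : 0 < r := by positivity
  have p1 : ∀ i : ℕ, (1 : ℝ) ≤ 2 ^ i := fun i => one_le_pow₀ (by norm_num)
  have r1 : r ≤ l := div_le_self hl.le (p1 p)
  have r2 : l ≤ L * r := by
    rw [hr, ← mul_div_assoc, le_div_iff₀ (by positivity), mul_comm L]
    gcongr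
  have top : l * 2 ^ (nb * q) ≤ 1 :=
    (pow_le_one_iff_of_nonneg (n := 8) (by positivity) (by norm_num)).1 (h8.trans τ1)
  have top' : r * 2 ^ (nb * q) ≤ 1 := le_trans (by gcongr) top
  have a3 : C₀ * F.τ ≤ r * 2 ^ (nb * q) := by
    refine le_trans (le_of_mul_le_mul_left (a := L) ?_ hL0) (le_mul_of_one_le_right r0.le (p1 _))
    linarith only [a2, r2]
  have cnt := KLb_count τ0 et h4 h8
  have ri : ∀ i : ℕ, 0 < r * 2 ^ i := fun i => by positivity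
  have cω : Continuous fun x => ω₀ x + 1 / L ^ 2 := hω.lip.continuous.add continuous_const
  have w0 : ∀ x, 0 ≤ ω₀ x + 1 / L ^ 2 := fun x => add_nonneg (hω.nonneg x) (by positivity)
  have w1 : ∀ x, ω₀ x + 1 / L ^ 2 ≤ 2 := fun x => by
    have : 1 / L ^ 2 ≤ 1 := div_le_one_of_le₀ (one_le_pow₀ (by linarith only [l3])) (by positivity)
    linarith only [this, hω.le_one x]
  have cb : ∀ β : ℕ, Continuous fun x => (ω₀ x + 1 / L ^ 2) * F.bb t (l * 2 ^ (β * q)) p x :=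
    fun β => cω.mul (F.bb_bd ht (by positivity) p).1
  have ce : ∀ i : ℕ, Continuous fun x => (ω₀ x + 1 / L ^ 2) * F.ew t x (r * 2 ^ i) :=
    fun i => cω.mul (F.bw_cont ht (ri i)).2.1
  have B0 : 0 ≤ (Cx + n) * Real.log L := by positivity
  have pt : ∀ ξ ∈ ball (0 : E (k + 2)) (7 / 4),
      ∑ β ∈ Finset.range nb, (ω₀ ξ + 1 / L ^ 2) * F.bb t (l * 2 ^ (β * q)) p ξ -
        5 * ∑ i ∈ Finset.range (nb * q), (ω₀ ξ + 1 / L ^ 2) * F.ew t ξ (r * 2 ^ i) ≤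
      3 * ((Cx + n) * Real.log L) := by
    intro ξ hξ
    rw [mem_ball_zero_iff] at hξ
    have h1 : ∑ β ∈ Finset.range nb, F.bb t (l * 2 ^ (β * q)) p ξ ≤
        ∑ i ∈ Finset.range (nb * q), F.bw t ξ (r * 2 ^ i) := by
      rw [← KLb_range (fun i => F.bw t ξ (r * 2 ^ i))]
      refine Finset.sum_le_sum fun β _ => ((F.bb_bd ht (by positivity) p).2 ξ).2.2.trans_eq ?_
      refine Finset.sum_congr rfl fun j _ => ?_
      congr 1
      rw [hr, pow_add]; ring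
    have h2 := F.sum_bw_le ht r0 ξ (nb * q) (by linarith only [top', hξ])
    have h3 := ((hX F ξ _ a1 a3).2.1 (by linarith only [top', hξ])).2
    have h5 : Real.log (F.Aw t ξ (r * 2 ^ (nb * q)) / t) ≤ (Cx + n) * Real.log L := by
      have A0 : 0 < F.Aw t ξ (r * 2 ^ (nb * q)) :=
        add_pos_of_nonneg_of_pos (F.ratio_nonneg ξ (ri _)).1 ht
      have h6 : F.Aw t ξ (r * 2 ^ (nb * q)) / t ≤ (Cx + 1) * L ^ n := by
        rw [div_le_iff₀ ht]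
        rw [div_le_iff₀ (by positivity)] at ht1
        calc F.Aw t ξ (r * 2 ^ (nb * q)) ≤ (Cx + 1) * F.τ ^ 2 := by unfold Aw; linarith only [ht2, h3]
          _ ≤ (Cx + 1) * (t * L ^ n) := by gcongr
          _ = _ := by ring
      refine (Real.log_le_log (div_pos A0 ht) h6).trans ?_
      rw [Real.log_mul (by positivity) (by positivity), Real.log_pow]
      have := Real.log_le_sub_one_of_pos (show 0 < Cx + 1 by positivity)
      have h7 : Cx ≤ Cx * Real.log L := le_mul_of_one_le_right (by linarith only [hCx]) lg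
      rw [add_mul]
      linarith only [this, h7]
    rw [← Finset.mul_sum, ← Finset.mul_sum]
    have h7 := mul_le_mul_of_nonneg_left (h1.trans h2) (w0 ξ)
    have h9 : (ω₀ ξ + 1 / L ^ 2) * Real.log (F.Aw t ξ (r * 2 ^ (nb * q)) / t) ≤
        2 * ((Cx + n) * Real.log L) :=
      (mul_le_mul_of_nonneg_left h5 (w0 ξ)).trans (mul_le_mul_of_nonneg_right (w1 ξ) B0)
    rw [mul_add (ω₀ ξ + 1 / L ^ 2), mul_left_comm _ (3 / 2 : ℝ), mul_left_comm _ (5 : ℝ)] at h7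
    linarith only [h7, h9]
  have cS := continuous_finsetSum (Finset.range nb) fun β _ => cb β
  have cE := continuous_finsetSum (Finset.range (nb * q)) fun i _ => ce i
  have key := F.KLb_le (cS.sub (cE.const_mul 5)) measurableSet_ball pt
  simp only [Pi.sub_apply, sub_mul, mul_assoc (5 : ℝ)] at key
  rw [integral_sub (F.KLb_int cS).integrableOn ((F.KLb_int cE).integrableOn.const_mul 5),
    integral_const_mul, F.KLb_sum _ fun β _ => cb β, F.KLb_sum _ fun i _ => ce i] at key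
  have D := F.DS_mono (subset_univ (ball (0 : E (k + 2)) (7 / 4)))
  have D0 := D.1.trans D.2
  have hE : ∑ i ∈ Finset.range (nb * q), ∫ y in F.x ⁻¹' ball 0 (7 / 4),
      (ω₀ (F.x y) + 1 / L ^ 2) * F.ew t (F.x y) (r * 2 ^ i) * F.d y ∂F.μ ≤
      C * Real.log L * F.DS univ := by
    refine (Finset.sum_le_card_nsmul _ _ (C * (Real.log L / L) * F.DS univ) fun i hi => ?_).trans ?_
    · refine he F L ω₀ t _ (hτ.trans (min_le_left _ _)) hL hω hY hR ht (ri i) (h4.trans ?_) ?_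
      · refine pow_le_pow_left₀ hl.le (r2.trans ?_) 4
        exact mul_le_mul_of_nonneg_left (le_mul_of_one_le_right r0.le (p1 i)) hL0.le
      · have h1 : r * 2 ^ i ≤ l * 2 ^ (nb * q) :=
          mul_le_mul r1 (pow_le_pow_right₀ (by norm_num) (Finset.mem_range.1 hi).le)
            (by positivity) hl.le
        calc (r * 2 ^ i) ^ 16 ≤ (r * 2 ^ i) ^ 8 :=
              pow_le_pow_of_le_one (ri i).le (h1.trans top) (by norm_num)
          _ ≤ (l * 2 ^ (nb * q)) ^ 8 := pow_le_pow_left₀ (ri i).le h1 8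
          _ ≤ F.τ := h8
    · rw [Finset.card_range, nsmul_eq_mul]
      calc ((nb * q : ℕ) : ℝ) * (C * (Real.log L / L) * F.DS univ)
          ≤ L * (C * (Real.log L / L) * F.DS univ) := by gcongr
        _ = _ := by field_simp
  have := mul_le_mul_of_nonneg_left D.2 (show 0 ≤ 3 * ((Cx + n) * Real.log L) by positivity)
  calc _ ≤ 3 * ((Cx + n) * Real.log L) * F.DS univ + 5 * (C * Real.log L * F.DS univ) := by
        linarith only [key, hE, this]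
    _ = _ := by ring

theorem KLb_UU {Q : ℕ} {A : ℝ} (F : Flat m N Q A) {l : ℝ} (hl : 0 < l) (p n : ℕ) (ξ : E m) :
    ∑ β ∈ Finset.range n, F.UU (8 * (l * 2 ^ (β * (p + 3)))) (16 * (l * 2 ^ (β * (p + 3)))) ξ ≤
      F.UU (8 * l) (8 * (l * 2 ^ (n * (p + 3)))) ξ := by
  have p1 : ∀ i : ℕ, (1 : ℝ) ≤ 2 ^ i := fun i => one_le_pow₀ (by norm_num)
  have h1 : ∀ i : ℕ, 8 * l ≤ 8 * (l * 2 ^ i) := fun i => by
    have := le_mul_of_one_le_right hl.le (p1 i)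
    linarith
  have l8 : 0 < 8 * l := by positivity
  induction n with
  | zero => exact (F.UU_mono l8 le_rfl (h1 _) le_rfl ξ).1
  | succ n ih =>
    have b0 : 0 < l * 2 ^ (n * (p + 3)) := by positivity
    have h2 : 16 * (l * 2 ^ (n * (p + 3))) ≤ 8 * (l * 2 ^ ((n + 1) * (p + 3))) := by
      have := mul_le_mul_of_nonneg_left (p1 p) b0.le
      rw [Nat.succ_mul, pow_add, pow_add]
      nlinarith only [b0, this]
    have h3 : 8 * (l * 2 ^ (n * (p + 3))) ≤ 16 * (l * 2 ^ (n * (p + 3))) := by linarith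
    have b8 : 0 < 8 * (l * 2 ^ (n * (p + 3))) := by positivity
    have e : F.UU (8 * l) (8 * (l * 2 ^ ((n + 1) * (p + 3)))) ξ =
        F.UU (8 * l) (8 * (l * 2 ^ (n * (p + 3)))) ξ +
          F.UU (8 * (l * 2 ^ (n * (p + 3)))) (8 * (l * 2 ^ ((n + 1) * (p + 3)))) ξ := by
      unfold UU
      rw [← (F.lin_add (FlatE_admG l8 (h1 _) ξ) (FlatE_admG b8 (h3.trans h2) ξ)).1]
      congr 1
      funext v
      exact (Gm_add l8 (h1 _) (h3.trans h2) _).1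
    rw [Finset.sum_range_succ, e]
    exact add_le_add ih (F.UU_mono b8 le_rfl h3 h2 ξ).2

/-- `Gm_add`, `UU_mono`, `Xi_le` -/
theorem UU_budget (k Q : ℕ) (A : ℝ) : ∃ C τ₀ : ℝ, 1 ≤ C ∧ 0 < τ₀ ∧ ∀ {N : ℕ}
    (F : Flat (k + 2) N Q A) (l : ℝ) (p nb : ℕ), F.τ ≤ τ₀ → 0 < l → F.τ ≤ l ^ 4 →
    (l * 2 ^ (nb * (p + 3))) ^ 8 ≤ F.τ →
    ∑ β ∈ Finset.range nb, ∫ y in F.x ⁻¹' ball 0 2,
      F.UU (8 * (l * 2 ^ (β * (p + 3)))) (16 * (l * 2 ^ (β * (p + 3)))) (F.x y) * F.d y ∂F.μ ≤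
      C * F.τ ^ 2 * F.DS univ := by
  obtain ⟨Cx, C₀, hCx, hC₀, hX⟩ := Flat.Xi_le (k + 2) (by omega) Q A
  refine ⟨Cx, min (1 / (10 * C₀)) (min (1 / C₀ ^ 4) ((1 / 8) ^ 8)), hCx,
    lt_min (by positivity) (lt_min (by positivity) (by positivity)), ?_⟩
  intro N F l p nb hτ hl h4 h8
  have τ0 := F.τ_pos
  have τ1 : F.τ ≤ 1 := F.τ_le.trans (by norm_num)
  have a1 : C₀ * F.τ ≤ 1 / 10 := by
    have := hτ.trans (min_le_left _ _)
    rw [le_div_iff₀ (by positivity)] at this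
    linarith
  have a2 : C₀ * F.τ ≤ l :=
    KLb_root τ0 τ1 hl hC₀ (hτ.trans ((min_le_right _ _).trans (min_le_left _ _))) h4
  have top : l * 2 ^ (nb * (p + 3)) ≤ 1 / 8 :=
    le_of_pow_le_pow_left₀ (n := 8) (by norm_num) (by norm_num)
      (h8.trans (hτ.trans ((min_le_right _ _).trans (min_le_right _ _))))
  have a3 : l ≤ l * 2 ^ (nb * (p + 3)) :=
    le_mul_of_one_le_right hl.le (one_le_pow₀ (by norm_num))
  have cU : ∀ β : ℕ, Continuous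
      (F.UU (8 * (l * 2 ^ (β * (p + 3)))) (16 * (l * 2 ^ (β * (p + 3))))) := fun β => by
    have : 0 < l * 2 ^ (β * (p + 3)) := by positivity
    exact (F.contDiff_UU (by positivity) (by linarith only [this])).1.continuous
  rw [← F.KLb_sum _ fun β _ => cU β]
  refine (F.KLb_le (continuous_finsetSum _ fun β _ => cU β) measurableSet_ball
    (M := Cx * F.τ ^ 2) fun ξ hξ => ?_).trans ?_
  · rw [mem_ball_zero_iff] at hξ
    refine (F.KLb_UU hl p nb ξ).trans ((F.UU_mono (a' := C₀ * F.τ) (by positivity) (by linarith)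
      (by linarith only [a3]) le_rfl ξ).2.trans ?_)
    exact (hX F ξ _ a1 (by linarith only [hl, a2, a3])).2.2 (by linarith only [top, hξ])
  · exact mul_le_mul_of_nonneg_left (F.DS_mono (subset_univ _)).2 (by positivity)

end Flat

end Pool.Agent.MP_f6c0e6_an.Gen

end

section

/-! Reduction to the balls that contain a point with few easy windows. -/

set_option autoImplicit false

open MeasureTheory Filter Topology Set Metric
open scoped ENNReal RealInnerProductSpace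

namespace Pool.Agent.MP_f6c0e6_an.Gen

variable {m N : ℕ}

theorem KLd_num (B : ℝ) (p : ℕ) : ∃ L₀ : ℝ, ∀ L, L₀ ≤ L → B * (L ^ p * Real.exp (-L)) ≤ 1 := by
  have h := (Real.tendsto_pow_mul_exp_neg_atTop_nhds_zero p).const_mul B
  rw [mul_zero] at h
  exact eventually_atTop.1 (h.eventually (ge_mem_nhds one_pos))

/-- the numerical facts about the scales -/
theorem KLd_scale {C₀ τ L l : ℝ} {i I q : ℕ} (hC : 1 ≤ C₀) (hτ : 0 < τ) (hτ1 : τ ≤ 1)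
    (hL : 3 ≤ L) (hB : 2 ^ 48 * C₀ ^ 4 * (L ^ 48 * τ) ≤ 1) (q2 : (2 : ℝ) ^ q ≤ 2 * L)
    (hl : l = C₀ * τ * 2 ^ i) (h4 : τ ≤ l ^ 4) (h8 : l ^ 8 ≤ τ) (h16 : (C₀ * τ * 2 ^ I) ^ 16 ≤ τ)
    (h16' : τ ≤ (2 * (C₀ * τ * 2 ^ I)) ^ 16) :
    l ≤ 1 ∧ i + 2 * q ≤ I ∧ 4 * q ≤ i ∧ L * (C₀ * τ * 2 ^ I) ≤ 1 / L ^ 2 / 4 := by
  have hl0 : 0 < l := by rw [hl]; positivity
  have hL0 : 0 < L := by linarith
  have hL1 : 1 ≤ L := by linarith
  have hr : 0 < C₀ * τ := by positivity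
  have c4 : 1 ≤ C₀ ^ 4 := one_le_pow₀ hC
  have hB1 : 2 ^ 48 * (L ^ 48 * τ) ≤ 1 := le_trans (by
    rw [mul_assoc]
    exact mul_le_mul_of_nonneg_left (le_mul_of_one_le_left (by positivity) c4) (by positivity)) hB
  refine ⟨le_of_pow_le_pow_left₀ (n := 8) (by norm_num) zero_le_one (by linarith), ?_, ?_, ?_⟩
  · have h1 : 2 * (l * (2 ^ q) ^ 2) ≤ 2 * (C₀ * τ * 2 ^ I) := by
      refine le_of_pow_le_pow_left₀ (n := 16) (by norm_num) (by positivity) (le_trans ?_ h16')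
      calc (2 * (l * (2 ^ q) ^ 2)) ^ 16 = 2 ^ 16 * (l ^ 8) ^ 2 * (2 ^ q) ^ 32 := by ring
        _ ≤ 2 ^ 16 * τ ^ 2 * (2 * L) ^ 32 := by gcongr
        _ = 2 ^ 48 * (L ^ 32 * τ) * τ := by ring
        _ ≤ 2 ^ 48 * (L ^ 48 * τ) * τ := by gcongr; norm_num
        _ ≤ 1 * τ := by gcongr
        _ = τ := one_mul τ
    have h2 : C₀ * τ * 2 ^ (i + 2 * q) ≤ C₀ * τ * 2 ^ I := by
      have : C₀ * τ * 2 ^ (i + 2 * q) = l * (2 ^ q) ^ 2 := by rw [hl]; ring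
      linarith
    exact (pow_le_pow_iff_right₀ one_lt_two).1 (le_of_mul_le_mul_left h2 hr)
  · have h1 : C₀ * τ * 2 ^ (4 * q) ≤ C₀ * τ * 2 ^ i := by
      rw [← hl]
      refine le_of_pow_le_pow_left₀ (n := 4) (by norm_num) hl0.le (le_trans ?_ h4)
      have t2 : τ ^ 2 ≤ 1 := pow_le_one₀ hτ.le hτ1
      calc (C₀ * τ * 2 ^ (4 * q)) ^ 4 = C₀ ^ 4 * (2 ^ q) ^ 16 * τ * τ ^ 2 * τ := by ring
        _ ≤ C₀ ^ 4 * (2 * L) ^ 16 * τ * 1 * τ := by gcongr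
        _ = 2 ^ 16 * C₀ ^ 4 * (L ^ 16 * τ) * τ := by ring
        _ ≤ 2 ^ 48 * C₀ ^ 4 * (L ^ 48 * τ) * τ := by gcongr <;> norm_num
        _ ≤ 1 * τ := by gcongr
        _ = τ := one_mul τ
    exact (pow_le_pow_iff_right₀ one_lt_two).1 (le_of_mul_le_mul_left h1 hr)
  · have h1 : 4 * L ^ 3 * (C₀ * τ * 2 ^ I) ≤ 1 := by
      refine le_of_pow_le_pow_left₀ (n := 16) (by norm_num) zero_le_one ?_
      calc (4 * L ^ 3 * (C₀ * τ * 2 ^ I)) ^ 16 = 2 ^ 32 * L ^ 48 * (C₀ * τ * 2 ^ I) ^ 16 := by ring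
        _ ≤ 2 ^ 48 * L ^ 48 * τ := by gcongr <;> norm_num
        _ ≤ 1 ^ 16 := by rw [one_pow, mul_assoc]; exact hB1
    rw [div_div, le_div_iff₀ (by positivity)]
    linarith

theorem KLd_pow {c₀ L : ℝ} {c₁ q a : ℕ} (h1 : c₀ ≤ 1 / 2) (h0 : 0 < c₀)
    (h : (1 - c₀) ^ c₁ ≤ 1 / 16) (hL : 3 ≤ L) (q1 : L ≤ 2 ^ q) (ha : c₁ * q ≤ a) {x : ℝ}
    (hx0 : 0 ≤ x) (hx : x ≤ 3) : (1 - c₀) ^ a * x ≤ 1 / L ^ 2 := by
  have hL0 : 0 < L := by linarith only [h1, h0, hL]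
  have e0 : 0 ≤ 1 - c₀ := by linarith
  have e1 : (1 - c₀) ^ a ≤ 1 / L ^ 4 := by
    calc (1 - c₀) ^ a ≤ (1 - c₀) ^ (c₁ * q) := pow_le_pow_of_le_one e0 (by linarith) ha
      _ = ((1 - c₀) ^ c₁) ^ q := pow_mul _ _ _
      _ ≤ (1 / 16) ^ q := by gcongr
      _ = 1 / (2 ^ q) ^ 4 := by rw [← pow_mul, mul_comm q 4, pow_mul, one_div_pow]; norm_num
      _ ≤ 1 / L ^ 4 := by gcongr
  calc (1 - c₀) ^ a * x ≤ 1 / L ^ 4 * L ^ 2 := mul_le_mul e1 (by nlinarith only [hL, hx]) hx0 (by positivity)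
    _ = 1 / L ^ 2 := by field_simp

/-- weighted sums of the partition of unity -/
theorem KLd_part (m : ℕ) : ∃ K : ℝ, 1 ≤ K ∧ ∀ h : ℝ, 0 < h → ∀ (J : Finset (Fin m → ℤ))
    (w : (Fin m → ℤ) → ℝ), (∀ j ∈ J, 0 ≤ w j ∧ w j ≤ 2) →
    (∀ x, 0 ≤ ∑ j ∈ J, w j * lp h j x ^ 2 ∧ ∑ j ∈ J, w j * lp h j x ^ 2 ≤ 2) ∧
      Lip (K / h) fun x => ∑ j ∈ J, w j * lp h j x ^ 2 := by
  classical
  obtain ⟨Cl, l1, Hl⟩ := lp_bd m
  obtain ⟨Ca, a1, Ha⟩ := lattice_bd m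
  refine ⟨4 * Ca * Cl, by nlinarith only [l1, a1], fun h hh J w hw => ⟨fun x => ⟨Finset.sum_nonneg fun j hj =>
    mul_nonneg (hw j hj).1 (sq_nonneg _), ?_⟩, fun x x' => ?_⟩⟩
  · calc ∑ j ∈ J, w j * lp h j x ^ 2 ≤ ∑ j ∈ J, 2 * lp h j x ^ 2 :=
          Finset.sum_le_sum fun j hj => mul_le_mul_of_nonneg_right (hw j hj).2 (sq_nonneg _)
      _ ≤ 2 := by
        rw [← Finset.mul_sum]
        linarith [(sum_lp_sq hh J x).1]
  · obtain ⟨b, hb⟩ : ∃ b, b = 2 * (Cl / h * ‖x - x'‖) := ⟨_, rfl⟩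
    have b0 : 0 ≤ b := by rw [hb]; positivity
    have k1 : ∀ j ∈ J, ‖w j * lp h j x ^ 2 - w j * lp h j x' ^ 2‖ ≤
        (if ‖x - lc h j‖ ≤ h then b else 0) + if ‖x' - lc h j‖ ≤ h then b else 0 := by
      intro j hj
      have k2 : ‖w j * lp h j x ^ 2 - w j * lp h j x' ^ 2‖ ≤ b := by
        rw [← mul_sub, norm_mul, Real.norm_of_nonneg (hw j hj).1, hb]
        exact mul_le_mul (hw j hj).2 ((Hl h hh j).2.2.2 x x') (norm_nonneg _) zero_le_two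
      split_ifs with h1 h2 h2
      · linarith
      · linarith
      · linarith
      · rw [lp_eq_zero hh j (x := x) (by linarith), lp_eq_zero hh j (x := x') (by linarith)]
        simp
    have k3 : ∀ y : E m, ∑ j ∈ J, (if ‖y - lc h j‖ ≤ h then b else 0) ≤ Ca * b := fun y => by
      have := (Ha h hh).2 J y h le_rfl
      rw [div_self hh.ne', one_pow, mul_one] at this
      rw [← Finset.sum_filter, Finset.sum_const, nsmul_eq_mul]
      exact mul_le_mul_of_nonneg_right this b0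
    rw [← Finset.sum_sub_distrib]
    refine (norm_sum_le _ _).trans ((Finset.sum_le_sum k1).trans ?_)
    rw [Finset.sum_add_distrib]
    have : 4 * Ca * Cl / h * ‖x - x'‖ = Ca * b + Ca * b := by rw [hb]; ring
    linarith only [this, k3 x, k3 x']

theorem KLd_zero {l : ℝ} (hl : 0 < l) (hl1 : l ≤ 1) {J : Finset (Fin m → ℤ)}
    (hJ : ∀ j ∈ J, ‖lc (l / 4) j‖ ≤ 3 / 2) (w : (Fin m → ℤ) → ℝ) :
    Adm (fun x => ∑ j ∈ J, w j * lp (l / 4) j x ^ 2) ∧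
      ∀ x, 2 ≤ ‖x‖ → ∑ j ∈ J, w j * lp (l / 4) j x ^ 2 = 0 := by
  have h : ∀ x, 2 ≤ ‖x‖ → ∑ j ∈ J, w j * lp (l / 4) j x ^ 2 = 0 := fun x hx =>
    Finset.sum_eq_zero fun j hj => by
      rw [lp_eq_zero (by positivity) j (x := x) (by
        linarith only [hl1, hx, norm_sub_norm_le x (lc (l / 4) j), hJ j hj]), zero_pow two_ne_zero, mul_zero]
  exact ⟨Adm.of_cont (continuous_finsetSum _ fun j _ => continuous_const.mul
    ((contDiff_lp _ j 0).continuous.pow 2)) h, h⟩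

/-- approximation of a Lipschitz function by its values at the lattice points -/
theorem KLd_approx {l κ : ℝ} (hl : 0 < l) (hl1 : l ≤ 1) (hκ : 0 ≤ κ) {J : Finset (Fin m → ℤ)}
    (hJ : ∀ j, ‖lc (l / 4) j‖ ≤ 3 / 2 → j ∈ J) {Ω : E m → ℝ} (h : Lip (2 * κ / l) Ω)
    (h0 : ∀ x, 5 / 4 ≤ ‖x‖ → Ω x = 0) (x : E m) :
    |Ω x - ∑ j ∈ J, (Ω (lc (l / 4) j) + κ) * lp (l / 4) j x ^ 2| ≤ 2 * κ := by
  have hh : 0 < l / 4 := by positivity
  obtain ⟨s1, s2⟩ := sum_lp_sq hh J x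
  have e : Ω x = ∑ j ∈ J, Ω x * lp (l / 4) j x ^ 2 := by
    rw [← Finset.mul_sum]
    by_cases hx : 5 / 4 ≤ ‖x‖
    · rw [h0 x hx, zero_mul]
    · rw [s2 fun j hj => hJ j (by
        linarith only [hl1, hx, hj, norm_sub_norm_le (lc (l / 4) j) x, norm_sub_rev (lc (l / 4) j) x]), mul_one]
  rw [e, ← Finset.sum_sub_distrib]
  refine (Finset.abs_sum_le_sum_abs _ _).trans ((Finset.sum_le_sum
    (g := fun j => 2 * κ * lp (l / 4) j x ^ 2) fun j _ => ?_).trans ?_)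
  · rw [← sub_mul, abs_mul, abs_of_nonneg (sq_nonneg (lp (l / 4) j x))]
    by_cases hx : l / 4 / 2 < ‖x - lc (l / 4) j‖
    · rw [lp_eq_zero hh j hx, zero_pow two_ne_zero, mul_zero, mul_zero]
    · refine mul_le_mul_of_nonneg_right ?_ (sq_nonneg _)
      have h1 : |Ω x - Ω (lc (l / 4) j)| ≤ 2 * κ / l * (l / 4 / 2) :=
        (h x _).trans (mul_le_mul_of_nonneg_left (not_lt.1 hx) (by positivity))
      have h2 : 2 * κ / l * (l / 4 / 2) = κ / 4 := by field_simp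
      rw [h2, abs_le] at h1
      exact abs_le.2 ⟨by linarith only [hκ, h1, h1.1], by linarith [h1.2]⟩
  · rw [← Finset.mul_sum]
    exact mul_le_of_le_one_right (by positivity) s1

theorem KLd_thick {Z : Set (E m)} {a ρ : ℝ} (hZ : ∀ z ∈ Z, ‖z‖ < a) {x : E m} (hx : a + ρ ≤ ‖x‖) :
    x ∉ thickening ρ Z := fun h => by
  obtain ⟨z, hz, hd⟩ := mem_thickening_iff.1 h
  rw [dist_eq_norm] at hd
  linarith [norm_sub_norm_le x z, hZ z hz]

theorem KLd_K {K l L ρ : ℝ} (hl : 0 < l) (hL : 3 ≤ L) (hK : 16 * K ≤ L) (hρ : 0 ≤ ρ)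
    (h : ρ * L ^ 4 ≤ l) : K / (l / 4) * ρ ≤ 1 / L ^ 2 / 4 := by
  have hL0 : 0 < L := by linarith
  rw [div_mul_eq_mul_div, div_div, div_le_div_iff₀ (by positivity) (by positivity)]
  calc K * ρ * (L ^ 2 * 4) = 16 * K * (ρ * L ^ 2) / 4 := by ring
    _ ≤ L ^ 2 * (ρ * L ^ 2) / 4 := by gcongr; nlinarith only [hL, hK]
    _ = ρ * L ^ 4 / 4 := by ring
    _ ≤ 1 * (l / 4) := by linarith

namespace Flat

/-- the bad points with few easy windows -/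
def Hp {Q : ℕ} {A : ℝ} (F : Flat m N Q A) (c C₀ : ℝ) (n I : ℕ) (ξ : E m) : Prop :=
  F.Bad c C₀ ξ ∧ F.cnt (1 / Real.log F.τ⁻¹ ^ 2) ξ (C₀ * F.τ) 0 I < n * qL (Real.log F.τ⁻¹)

/-- Let `κ = δ = 1 / L²`, `r = C₀ τ`, `q = qL L`, `(1 - c₀) ^ c₁ ≤ 1 / 16`, `n = 2 c₁ + 6`, with
`c, C₀` from `rest_bd`.
1. `contract` for `ω₀`, the windows from `i + 2 q` to `I` and the bad points of `ball 0 1` gives
`S₁`; `Ω = ω₀ - S₁` is Lipschitz with constant `2 / (l L²)`, and `Ω ξ + κ ≤ 2 κ` at each bad point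
with at least `c₁ q` easy windows in this range. Let `J₀` be the set of indices with
`‖lc (l / 4) j‖ ≤ 3 / 2` and `w j = Ω (lc (l / 4) j) + κ`; then `|Ω - ∑ w j lp j ^ 2| ≤ 2 κ`; `S0a`.
2. Let `J` be the set of `j ∈ J₀` with a point `Hp` in the ball, and `ω₁` the sum over `J₀ \ J`, with
values in `[0, 2]` and Lipschitz with constant `C / l`. `contract` for `ω₁`, the windows from `0` to
`i - 4 q` and the bad points where `ω₁ ≠ 0` gives `S₂`. Such a point has `c₁ q` easy windows above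
`i + 2 q` (then `ω₁ ≤ 3 κ` there) or below `i - 4 q` (`cnt_add`), so `|ω₁ - S₂| ≤ 3 κ` at all bad
points; `rest_bd`. -/
theorem reduce (m : ℕ) (hm : 2 ≤ m) (Q : ℕ) (A : ℝ) : ∃ (c C C₀ τ₀ : ℝ) (n : ℕ), 0 < c ∧ 1 ≤ C ∧
    1 ≤ C₀ ∧ 0 < τ₀ ∧ ∀ {N : ℕ} (F : Flat m N Q A) (L l : ℝ) (ω₀ : E m → ℝ) (i I : ℕ), F.τ ≤ τ₀ →
    L = Real.log F.τ⁻¹ → Wt ω₀ L (ball 0 1) → l = C₀ * F.τ * 2 ^ i → F.τ ≤ l ^ 4 → l ^ 8 ≤ F.τ →
    (C₀ * F.τ * 2 ^ I) ^ 16 ≤ F.τ → F.τ ≤ (2 * (C₀ * F.τ * 2 ^ I)) ^ 16 →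
    ∃ (J : Finset (Fin m → ℤ)) (w : (Fin m → ℤ) → ℝ),
      (∀ j ∈ J, 0 ≤ w j ∧ w j ≤ ω₀ (lc (l / 4) j) + 1 / L ^ 2 ∧ ‖lc (l / 4) j‖ ≤ 3 / 2 ∧
        ∃ ξ ∈ ball (lc (l / 4) j) l, F.Hp c C₀ n I ξ) ∧
      F.Y (fun x => ∑ j ∈ J, w j * lp (l / 4) j x ^ 2) -
        C * (F.DS univ / L ^ 2 + F.RS (F.τ / L ^ 2) F.τ univ) ≤ F.Y ω₀ := by
  classical
  obtain ⟨c₀, c1, c2, Hc⟩ := contract m
  obtain ⟨Ca, Ba, a1, a2, Ha⟩ := S0a m (by omega) Q A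
  obtain ⟨c, Cr, C₀, τr, r0, r1, -, r3, r4, Hr⟩ := rest_bd m (by omega) Q A 1
  obtain ⟨K, k1, HK⟩ := KLd_part m
  obtain ⟨Cl, -, Hl⟩ := lattice_bd m
  obtain ⟨c₁, hc₁⟩ := exists_pow_lt_of_lt_one (show (0 : ℝ) < 1 / 16 by norm_num)
    (show 1 - c₀ < 1 by linarith)
  obtain ⟨L₁, -, HL⟩ := Lam_bd 0 0
  obtain ⟨L₂, HN⟩ := KLd_num (2 ^ 48 * C₀ ^ 4) 48
  refine ⟨c, 5 + 2 * Ca + 2 * Cr, C₀,
    min (min τr (1 / (10 * Ba))) (Real.exp (-max (max L₁ L₂) (16 * K))), 2 * c₁ + 6, r0,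
    by linarith, r3, by positivity, fun {N} F L l ω₀ i I hτ hL hω hl h4 h8 h16 h16' => ?_⟩
  have hτ0 := F.τ_pos
  have t1 : F.τ ≤ τr := hτ.trans ((min_le_left _ _).trans (min_le_left _ _))
  have t2 : Ba * F.τ ≤ 1 / 10 := by
    have := (le_div_iff₀ (by positivity)).1
      (hτ.trans ((min_le_left _ _).trans (min_le_right _ _)))
    linarith only [this]
  have hLL : max (max L₁ L₂) (16 * K) ≤ L := hL ▸ Crude_L hτ0 (hτ.trans (min_le_right _ _))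
  have hL3 : 3 ≤ L := hL ▸ Crude_one hτ0 F.τ_le
  have hL0 : 0 < L := by linarith only [hL3]
  have hLK : 16 * K ≤ L := (le_max_right _ _).trans hLL
  obtain ⟨-, -, -, -, -, -, -, q1, q2, -, -⟩ :=
    HL L ((le_max_left _ _).trans ((le_max_left _ _).trans hLL))
  have hB := HN L ((le_max_right _ _).trans ((le_max_left _ _).trans hLL))
  rw [← Crude_tau hτ0 hL] at hB
  obtain ⟨s1, s2, s3, s4⟩ := KLd_scale r3 hτ0 (by linarith only [F.τ_le]) hL3 hB q2 hl h4 h8 h16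
    h16'
  have hr : 0 < C₀ * F.τ := by positivity
  have hl0 : 0 < l := by rw [hl]; positivity
  have hh : 0 < l / 4 := by positivity
  obtain ⟨κ, hκ⟩ : ∃ κ, κ = 1 / L ^ 2 := ⟨_, rfl⟩
  have κ0 : 0 < κ := by rw [hκ]; positivity
  have κ1 : κ ≤ 1 := by rw [hκ]; exact div_le_self zero_le_one (one_le_pow₀ (by linarith only [hL3]))
  have hρ : C₀ * F.τ * 2 ^ I ≤ 1 / 4 := by
    have : C₀ * F.τ * 2 ^ I ≤ L * (C₀ * F.τ * 2 ^ I) :=
      le_mul_of_one_le_left (by positivity) (by linarith only [hL3])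
    linarith only [this, s4, hκ, κ1]
  have ω1 : ∀ x, 1 ≤ ‖x‖ → ω₀ x = 0 := fun x hx => hω.zero x fun h =>
    (mem_ball_zero_iff.1 h).not_ge hx
  have aω : Adm ω₀ := hω.adm isBounded_ball
  obtain ⟨S₁, -, u2, u3, u4, u5, u6, u7⟩ := Hc F ω₀ κ L κ 1 (C₀ * F.τ) (i + 2 * qL L) I
    {ξ | ‖ξ‖ < 1 ∧ F.Bad c C₀ ξ} hr κ0 s2 (fun x => ⟨hω.nonneg x, hω.le_one x⟩) hω.lip hL0.le
    (hκ ▸ s4)
    ((isBounded_ball (x := (0 : E m)) (r := 1)).subset fun ξ hξ => mem_ball_zero_iff.2 hξ.1)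
  have u8 : Lip (2 * κ / l) fun x => ω₀ x - S₁ x := fun x x' => (u7 x x').trans (by
    refine mul_le_mul_of_nonneg_right ?_ (norm_nonneg _)
    have e : C₀ * F.τ * 2 ^ (i + 2 * qL L) = l * (2 ^ qL L) ^ 2 := by rw [hl]; ring
    have e' : 2 * κ / l = 2 / (l * L ^ 2) := by rw [hκ]; field_simp
    rw [e, e']
    gcongr
    linarith only [κ1])
  have u9 : ∀ x, 5 / 4 ≤ ‖x‖ → ω₀ x - S₁ x = 0 := fun x hx => by
    rw [ω1 x (by linarith only [hx]), u4 x (KLd_thick (a := 1) (fun z hz => hz.1)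
      (by linarith only [hx, hρ])), sub_zero]
  obtain ⟨J₀, hJ₀⟩ : ∃ J₀ : Finset (Fin m → ℤ), ∀ j, j ∈ J₀ ↔ ‖lc (l / 4) j‖ ≤ 3 / 2 :=
    ⟨((Hl _ hh).1 _ (isBounded_closedBall (x := 0) (r := 3 / 2))).toFinset, fun j => by simp⟩
  obtain ⟨w, hw⟩ : ∃ w : (Fin m → ℤ) → ℝ,
      w = fun j => ω₀ (lc (l / 4) j) - S₁ (lc (l / 4) j) + κ := ⟨_, rfl⟩
  have w1 : ∀ j, 0 ≤ w j ∧ w j ≤ ω₀ (lc (l / 4) j) + κ := fun j => by
    rw [hw]
    exact ⟨by linarith only [(u3 (lc (l / 4) j)).2], by linarith only [(u3 (lc (l / 4) j)).1]⟩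
  have w2 : ∀ j, 0 ≤ w j ∧ w j ≤ 2 := fun j =>
    ⟨(w1 j).1, by linarith only [(w1 j).2, hω.le_one (lc (l / 4) j), κ1]⟩
  have v1 : ∀ x, |ω₀ x - S₁ x - ∑ j ∈ J₀, w j * lp (l / 4) j x ^ 2| ≤ 2 * κ := fun x =>
    hw ▸ KLd_approx hl0 s1 κ0.le (fun j hj => (hJ₀ j).2 hj) u8 u9 x
  obtain ⟨P, hP⟩ : ∃ P : (Fin m → ℤ) → Prop,
      P = fun j => ∃ ξ ∈ ball (lc (l / 4) j) l, F.Hp c C₀ (2 * c₁ + 6) I ξ := ⟨_, rfl⟩
  obtain ⟨z0, z1⟩ := KLd_zero hl0 s1 (fun j hj => (hJ₀ j).1 hj) w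
  obtain ⟨z2, -⟩ := KLd_zero hl0 s1 (J := J₀.filter P)
    (fun j hj => (hJ₀ j).1 (Finset.mem_filter.1 hj).1) w
  obtain ⟨z4, z5⟩ := KLd_zero hl0 s1 (J := J₀.filter fun j => ¬ P j)
    (fun j hj => (hJ₀ j).1 (Finset.mem_filter.1 hj).1) w
  obtain ⟨p1, -⟩ := HK _ hh (J₀.filter P) w fun j _ => w2 j
  obtain ⟨p2, p3⟩ := HK _ hh (J₀.filter fun j => ¬ P j) w fun j _ => w2 j
  have p4 : ∀ x, ∑ j ∈ J₀.filter (fun j => ¬ P j), w j * lp (l / 4) j x ^ 2 ≠ 0 →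
      ¬ F.Hp c C₀ (2 * c₁ + 6) I x := fun x hx hp => by
    obtain ⟨j, hj, hj'⟩ := Finset.exists_ne_zero_of_sum_ne_zero hx
    refine (Finset.mem_filter.1 hj).2 (hP ▸ ⟨x, mem_ball_iff_norm.2 (not_le.1 fun h => hj' ?_), hp⟩)
    rw [lp_eq_zero hh j (by linarith only [h, hl0]), zero_pow two_ne_zero, mul_zero]
  have p5 : ∀ x, ∑ j ∈ J₀, w j * lp (l / 4) j x ^ 2 =
      ∑ j ∈ J₀.filter P, w j * lp (l / 4) j x ^ 2 +
        ∑ j ∈ J₀.filter (fun j => ¬ P j), w j * lp (l / 4) j x ^ 2 := fun x =>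
    (Finset.sum_filter_add_sum_filter_not _ _ _).symm
  refine ⟨J₀.filter P, w, fun j hj => ⟨(w1 j).1, hκ ▸ (w1 j).2,
    (hJ₀ j).1 (Finset.mem_filter.1 hj).1, by simpa only [hP] using (Finset.mem_filter.1 hj).2⟩, ?_⟩
  have y0 := (F.lin_add z2 z4).2.2
  rw [← funext p5] at y0
  have y1 := Ha F (fun x => ω₀ x - S₁ x - ∑ j ∈ J₀, w j * lp (l / 4) j x ^ 2) (2 * κ) (ball 0 9) t2
    ((aω.sub u2).sub z0).1 v1 measurableSet_ball subset_rfl fun x hx => by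
      have hx9 : 9 ≤ ‖x‖ := not_lt.1 fun h => hx (mem_ball_zero_iff.2 h)
      rw [u9 x (by linarith only [hx9]), z1 x (by linarith only [hx9]), sub_zero]
  rw [(F.lin_sub (aω.sub u2) z0).2.2, (F.lin_sub aω u2).2.2] at y1
  have v2 : ∀ x, ∑ j ∈ J₀.filter (fun j => ¬ P j), w j * lp (l / 4) j x ^ 2 ≤
      ω₀ x - S₁ x + 2 * κ := fun x => by
    linarith only [(abs_le.1 (v1 x)).1, p5 x, (p1 x).1]
  generalize (fun x => ∑ j ∈ J₀, w j * lp (l / 4) j x ^ 2) = f₀ at y0 y1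
  generalize (fun x => ∑ j ∈ J₀.filter P, w j * lp (l / 4) j x ^ 2) = f₁ at y0 ⊢
  obtain ⟨ω₁, hω₁⟩ : ∃ ω₁ : E m → ℝ,
      ω₁ = fun x => ∑ j ∈ J₀.filter (fun j => ¬ P j), w j * lp (l / 4) j x ^ 2 := ⟨_, rfl⟩
  replace z5 : ∀ x, 2 ≤ ‖x‖ → ω₁ x = 0 := hω₁ ▸ z5
  replace p2 : ∀ x, 0 ≤ ω₁ x ∧ ω₁ x ≤ 2 := hω₁ ▸ p2
  replace p4 : ∀ x, ω₁ x ≠ 0 → ¬ F.Hp c C₀ (2 * c₁ + 6) I x := hω₁ ▸ p4
  replace v2 : ∀ x, ω₁ x ≤ ω₀ x - S₁ x + 2 * κ := hω₁ ▸ v2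
  rw [← hω₁] at z4 p3 y0
  have hi : C₀ * F.τ * 2 ^ (i - 4 * qL L) * (2 ^ qL L) ^ 4 = l := by
    rw [hl, ← pow_mul, mul_assoc, ← pow_add, mul_comm (qL L) 4, Nat.sub_add_cancel s3]
  have hi0 : 0 < C₀ * F.τ * 2 ^ (i - 4 * qL L) := by positivity
  have hi1 : C₀ * F.τ * 2 ^ (i - 4 * qL L) * L ^ 4 ≤ l := by rw [← hi]; gcongr
  have hZ : ∀ z ∈ {ξ | ω₁ ξ ≠ 0 ∧ F.Bad c C₀ ξ}, ‖z‖ < 2 := fun z hz =>
    not_le.1 fun h => hz.1 (z5 z h)
  have hi2 : C₀ * F.τ * 2 ^ (i - 4 * qL L) ≤ 1 :=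
    ((le_mul_of_one_le_right hi0.le (one_le_pow₀ (by linarith only [hL3]))).trans hi1).trans s1
  obtain ⟨S₂, -, x2, x3, x4, x5, x6, -⟩ := Hc F ω₁ κ (K / (l / 4)) κ 2 (C₀ * F.τ) 0 (i - 4 * qL L)
    {ξ | ω₁ ξ ≠ 0 ∧ F.Bad c C₀ ξ} hr κ0 (Nat.zero_le _) p2 p3 (by positivity)
    (hκ ▸ KLd_K hl0 hL3 hLK hi0.le hi1)
    ((isBounded_ball (x := (0 : E m)) (r := 2)).subset fun ξ hξ => mem_ball_zero_iff.2 (hZ ξ hξ))
  have y2 := Hr F (fun x => ω₁ x - S₂ x) 2 (2 * κ) (ball 0 9) t1 (z4.sub x2).1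
    (fun x => abs_le.2 ⟨by linarith only [(x3 x).2, κ1], by linarith only [(x3 x).1, (p2 x).2]⟩)
    (by positivity) measurableSet_ball subset_rfl
    (fun x hx => by
      have hx9 : 9 ≤ ‖x‖ := not_lt.1 fun h => hx (mem_ball_zero_iff.2 h)
      rw [z5 x (by linarith only [hx9]), x4 x (KLd_thick hZ (by linarith only [hx9, hi2])),
        sub_zero])
    (fun x _ hb => abs_le.2 ⟨by linarith only [(x3 x).2, κ0], by
      by_cases hx : ω₁ x = 0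
      · linarith only [hx, (x3 x).1, κ0]
      have n1 : (2 * c₁ + 6) * qL L ≤ F.cnt κ x (C₀ * F.τ) 0 I := by
        rw [hκ, hL]
        exact not_lt.1 fun h => p4 x hx ⟨hb, h⟩
      have n2 := (F.cnt_add κ x (C₀ * F.τ) (Nat.zero_le (i + 2 * qL L)) s2).1
      have n3 := (F.cnt_add κ x (C₀ * F.τ) (Nat.zero_le (i - 4 * qL L))
        (show i - 4 * qL L ≤ i + 2 * qL L by omega)).1
      have n4 := (F.cnt_add κ x (C₀ * F.τ) (show i - 4 * qL L ≤ i + 2 * qL L by omega) le_rfl).2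
      rw [add_mul, mul_assoc] at n1
      by_cases n5 : c₁ * qL L ≤ F.cnt κ x (C₀ * F.τ) 0 (i - 4 * qL L)
      · have := (x6 x ⟨hx, hb⟩).trans (KLd_pow c2 c1 hc₁.le hL3 q1 n5
          (by linarith only [(p2 x).1, κ0]) (by linarith only [(p2 x).2, κ1]))
        linarith only [this, hκ, κ0]
      · have n6 : ω₀ x - S₁ x ≤ 0 := by
          by_cases h1 : ‖x‖ < 1
          · have := (u6 x ⟨h1, hb⟩).trans (KLd_pow c2 c1 hc₁.le hL3 q1 (by omega)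
              (by linarith only [hω.nonneg x, κ0]) (by linarith only [hω.le_one x, κ1]))
            linarith only [this, hκ]
          · linarith only [ω1 x (not_lt.1 h1), (u3 x).1]
        linarith only [n6, v2 x, (x3 x).1]⟩)
  rw [← hL, (F.lin_sub z4 x2).2.2] at y2
  have d1 := F.Crude_DD_le u2 zero_le_two fun x => by
    linarith only [(u3 x).2, hω.le_one x, κ1]
  have d2 := F.Crude_DD_le x2 zero_le_three fun x => by linarith only [(x3 x).2, (p2 x).2, κ1]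
  have d3 := F.DS_mono (subset_univ (thickening (Ba * F.τ) (ball (0 : E m) 9)))
  have d4 : 0 ≤ F.RS (F.τ / L ^ 2) F.τ univ :=
    (F.RS_mono (by positivity) hτ0 MeasurableSet.univ MeasurableSet.univ subset_rfl).1
  have y3 := y1.trans (mul_le_mul_of_nonneg_left d3.2 (by positivity))
  have e : F.DS univ / L ^ 2 = κ * F.DS univ := by rw [hκ]; ring
  have d5 := mul_le_mul_of_nonneg_left d1 κ0.le
  have d6 := mul_le_mul_of_nonneg_left d2 κ0.le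
  have d7 : 0 ≤ Ca * F.RS (F.τ / L ^ 2) F.τ univ := by positivity
  rw [e]
  linarith only [(abs_le.1 y3).1, (abs_le.1 y2).1, y0, u5, x5, d4, d5, d6, d7]

/-- `bad_Xi`, `Xi_count` (only `Xi (r 2 ^ a) ≤ 2 ^ ((m - 2) cnt a b) Xi (r 2 ^ b)` is used),
`cnt_add`, `2 ^ q ≤ 2 L ≤ L²` and `Xi_le` at the scale `r 2 ^ I`. For the second part, induction on
`S` (remove the largest element): `√L ^ card S * Xi r ≤ 2 ^ ((m - 2) cnt 0 b) Xi (r 2 ^ b)` for every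
`b ≤ I` above all the `v β`. -/
theorem jump_count (m : ℕ) (hm : 2 ≤ m) (Q : ℕ) (A c C₀ : ℝ) (hc : 0 < c) (hC : 1 ≤ C₀) (n : ℕ) :
    ∃ (τ₀ : ℝ) (n' : ℕ), 0 < τ₀ ∧ ∀ {N : ℕ} (F : Flat m N Q A) (L : ℝ) (I : ℕ) (ξ : E m),
    F.τ ≤ τ₀ → L = Real.log F.τ⁻¹ → (C₀ * F.τ * 2 ^ I) ^ 16 ≤ F.τ →
    F.τ ≤ (2 * (C₀ * F.τ * 2 ^ I)) ^ 16 → ‖ξ‖ ≤ 2 → F.Hp c C₀ n I ξ →
    (∀ i, i ≤ I → F.τ ^ 2 / L ^ n' ≤ F.Xi ξ (C₀ * F.τ * 2 ^ i)) ∧
    ∀ (S : Finset ℕ) (u v : ℕ → ℕ), (∀ β ∈ S, u β ≤ v β ∧ v β ≤ I ∧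
      √L * F.Xi ξ (C₀ * F.τ * 2 ^ u β) ≤ F.Xi ξ (C₀ * F.τ * 2 ^ v β)) →
      (∀ β ∈ S, ∀ β' ∈ S, β < β' → v β ≤ u β') → S.card ≤ n' := by
  obtain ⟨Cx, Bx, x1, x2, Hx⟩ := Flat.Xi_le m hm Q A
  obtain ⟨τb, b0, Hb⟩ := bad_Xi m hm c C₀ hc hC
  obtain ⟨L₁, -, HL⟩ := Lam_bd 0 0
  refine ⟨min (min τb ((1 / (10 * Bx)) ^ 16)) (Real.exp (-max L₁ Cx)),
    2 * (2 * ((m - 2) * n) + (2 * m + 2) + 1), by positivity,
    fun {N} F L I ξ hτ hL h16 h16' hξ hp => ?_⟩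
  have hτ0 := F.τ_pos
  have hτ1 : F.τ ≤ 1 := by linarith only [F.τ_le]
  have hLL : max L₁ Cx ≤ L := hL ▸ Crude_L hτ0 (hτ.trans (min_le_right _ _))
  have hL3 : 3 ≤ L := hL ▸ Crude_one hτ0 F.τ_le
  have hL1 : 1 ≤ L := by linarith only [hL3]
  have hL0 : 0 < L := by linarith only [hL3]
  obtain ⟨-, -, -, -, -, -, -, -, q2, -, -⟩ := HL L ((le_max_left _ _).trans hLL)
  have hr : 0 < C₀ * F.τ := by positivity
  have k0 := Hb F ξ (hτ.trans ((min_le_left _ _).trans (min_le_left _ _))) hp.1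
  have k1 := hp.2
  rw [← hL] at k0 k1
  have t1 : (10 * Bx) ^ 16 * F.τ ≤ 1 := by
    have := hτ.trans ((min_le_left _ _).trans (min_le_right _ _))
    rwa [one_div_pow, le_div_iff₀' (by positivity)] at this
  have t2 : Bx * F.τ ≤ 1 / 10 := by
    have := mul_le_mul_of_nonneg_right (le_self_pow₀ (show 1 ≤ 10 * Bx by linarith only [x2])
      (show 16 ≠ 0 by norm_num)) hτ0.le
    linarith only [this, t1]
  have t3 : Bx * F.τ ≤ C₀ * F.τ * 2 ^ I := by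
    have : 10 * Bx * F.τ ≤ 2 * (C₀ * F.τ * 2 ^ I) := by
      refine le_of_pow_le_pow_left₀ (n := 16) (by norm_num) (by positivity) (le_trans ?_ h16')
      have t4 : F.τ ^ 14 ≤ 1 := pow_le_one₀ hτ0.le hτ1
      calc (10 * Bx * F.τ) ^ 16 = (10 * Bx) ^ 16 * F.τ * F.τ ^ 14 * F.τ := by ring
        _ ≤ 1 * 1 * F.τ := by gcongr
        _ = F.τ := by ring
    have p : 0 < Bx * F.τ := by positivity
    linarith only [this, p]
  have hρ : C₀ * F.τ * 2 ^ I ≤ 1 := le_of_pow_le_pow_left₀ (n := 16) (by norm_num) zero_le_one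
    (by rw [one_pow]; exact h16.trans hτ1)
  have k2 := ((Hx F ξ _ t2 t3).2.1 (by linarith only [hξ, hρ])).1
  obtain ⟨δ, hδ⟩ : ∃ δ, δ = 1 / L ^ 2 := ⟨_, rfl⟩
  rw [← hδ] at k1
  have δ0 : 0 < δ := by rw [hδ]; positivity
  have δ1 : δ ≤ 1 := by rw [hδ]; exact div_le_self zero_le_one (one_le_pow₀ hL1)
  have X0 : ∀ a : ℕ, 0 ≤ F.Xi ξ (C₀ * F.τ * 2 ^ a) := fun a =>
    (F.ratio_nonneg ξ (by positivity)).2.2.1
  have k3 : ∀ a b : ℕ, a ≤ b → b ≤ I → F.Xi ξ (C₀ * F.τ * 2 ^ a) ≤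
      2 ^ ((m - 2) * F.cnt δ ξ (C₀ * F.τ) a b) * F.Xi ξ (C₀ * F.τ * 2 ^ b) := fun a b hab hb => by
    have h1 : C₀ * F.τ * 2 ^ b ≤ C₀ * F.τ * 2 ^ I := by gcongr; norm_num
    refine le_trans (le_mul_of_one_le_left (X0 a) (Real.one_le_rpow one_le_two
      (mul_nonneg δ0.le ?_))) (F.Xi_count hm δ0 δ1 ξ hr hab (by linarith only [h1, hρ, hξ]))
    have h2 : ((F.cnt δ ξ (C₀ * F.τ) a b : ℕ) : ℝ) ≤ ((b - a : ℕ) : ℝ) :=
      Nat.cast_le.2 (F.cnt_add δ ξ (C₀ * F.τ) hab le_rfl).2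
    rw [Nat.cast_sub hab] at h2
    linarith only [h2]
  have k4 : ∀ b, b ≤ I → (2 : ℝ) ^ ((m - 2) * F.cnt δ ξ (C₀ * F.τ) 0 b) ≤
      L ^ (2 * ((m - 2) * n)) := fun b hb => by
    have h1 := (F.cnt_add δ ξ (C₀ * F.τ) (Nat.zero_le b) hb).1
    calc (2 : ℝ) ^ ((m - 2) * F.cnt δ ξ (C₀ * F.τ) 0 b) ≤ 2 ^ (qL L * ((m - 2) * n)) := by
          refine pow_le_pow_right₀ one_le_two ?_
          rw [mul_left_comm, mul_comm (qL L) n]
          exact Nat.mul_le_mul_left _ (by omega)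
      _ = (2 ^ qL L) ^ ((m - 2) * n) := pow_mul _ _ _
      _ ≤ (L ^ 2) ^ ((m - 2) * n) := by gcongr; nlinarith only [q2, hL3]
      _ = L ^ (2 * ((m - 2) * n)) := (pow_mul _ _ _).symm
  have e0 : C₀ * F.τ * 2 ^ 0 = C₀ * F.τ := by rw [pow_zero, mul_one]
  refine ⟨fun i hi => ?_, fun S u v h1 h2 => ?_⟩
  · have h1 := k3 0 i (Nat.zero_le i) hi
    rw [e0] at h1
    have h2 := (k0.trans h1).trans (mul_le_mul_of_nonneg_right (k4 i hi) (X0 i))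
    rw [div_le_iff₀ (by positivity)] at h2 ⊢
    refine h2.trans ?_
    rw [mul_comm (L ^ _), mul_assoc, ← pow_add]
    exact mul_le_mul_of_nonneg_left (pow_le_pow_right₀ hL1 (by omega)) (X0 i)
  · have key : ∀ b, b ≤ I → (∀ β ∈ S, v β ≤ b) → √L ^ S.card * F.Xi ξ (C₀ * F.τ * 2 ^ 0) ≤
        2 ^ ((m - 2) * F.cnt δ ξ (C₀ * F.τ) 0 b) * F.Xi ξ (C₀ * F.τ * 2 ^ b) := by
      induction S using Finset.induction_on_max with
      | empty =>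
        intro b hb _
        rw [Finset.card_empty, pow_zero √L, one_mul]
        exact k3 0 b (Nat.zero_le b) hb
      | insert a s ha ih =>
        intro b hb hv
        have m0 := Finset.mem_insert_self a s
        obtain ⟨g1, g2, g3⟩ := h1 a m0
        have g4 := ih (fun β hβ => h1 β (Finset.mem_insert_of_mem hβ))
          (fun β hβ β' hβ' => h2 β (Finset.mem_insert_of_mem hβ) β' (Finset.mem_insert_of_mem hβ'))
          (u a) (g1.trans g2) fun β hβ => h2 β (Finset.mem_insert_of_mem hβ) a m0 (ha β hβ)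
        have g5 := k3 (v a) b (hv a m0) hb
        have g6 := (F.cnt_add δ ξ (C₀ * F.τ) (Nat.zero_le (u a)) g1).1
        have g7 := (F.cnt_add δ ξ (C₀ * F.τ) (Nat.zero_le (v a)) (hv a m0)).1
        rw [Finset.card_insert_of_notMem fun h => (ha a h).false, pow_succ', mul_assoc]
        refine (mul_le_mul_of_nonneg_left g4 (Real.sqrt_nonneg L)).trans ?_
        rw [mul_left_comm]
        refine (mul_le_mul_of_nonneg_left (g3.trans g5) (by positivity)).trans ?_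
        rw [← mul_assoc, ← pow_add, ← mul_add]
        exact mul_le_mul_of_nonneg_right (pow_le_pow_right₀ one_le_two
          (Nat.mul_le_mul_left _ (by omega))) (X0 b)
    have h3 := key I le_rfl fun β hβ => (h1 β hβ).2.1
    rw [e0] at h3
    have h4 := ((mul_le_mul_of_nonneg_left k0 (by positivity)).trans h3).trans
      (mul_le_mul (k4 I le_rfl) k2 (X0 I) (by positivity))
    have h5 : √L ^ S.card ≤ √L ^ (2 * (2 * ((m - 2) * n) + (2 * m + 2) + 1)) := by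
      rw [pow_mul, Real.sq_sqrt hL0.le]
      rw [← mul_div_assoc, div_le_iff₀ (by positivity)] at h4
      refine le_of_mul_le_mul_right (h4.trans ?_) (show 0 < F.τ ^ 2 by positivity)
      have h6 : Cx ≤ L := (le_max_right _ _).trans hLL
      calc L ^ (2 * ((m - 2) * n)) * (Cx * F.τ ^ 2) * L ^ (2 * m + 2)
          ≤ L ^ (2 * ((m - 2) * n)) * (L * F.τ ^ 2) * L ^ (2 * m + 2) := by gcongr
        _ = _ := by ring
    exact (pow_le_pow_iff_right₀ (Real.lt_sqrt_of_sq_lt (by linarith only [hL3]))).1 h5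

end Flat

end Pool.Agent.MP_f6c0e6_an.Gen

end
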