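import Pool.Agent.MP_f6c0e6_an.All.TubeE

section

/-! The slopes in a cluster are close to the gradient of the mean. -/

set_option autoImplicit false

open MeasureTheory Filter Topology Set Metric
open scoped ENNReal RealInnerProductSpace

namespace Pool.Agent.MP_f6c0e6_an.Gen

variable {m N : ℕ}

theorem TubeK_fin {s d l X u c1 c2 c3 C S1 S2 S3 S4 : ℝ} (hs : 0 ≤ s) (hd : 0 ≤ d) (hl : 0 ≤ l)
    (hX : 0 ≤ X) (hu : 0 ≤ u) (h0 : 4 ≤ C) (h1 : 4 * c1 ≤ C) (h2 : 4 * c2 ≤ C) (h3 : 4 * c3 ≤ C)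
    (a1 : S1 ≤ s * d) (a2 : S2 ≤ c1 * l) (a3 : S3 ≤ c2 * (s * X)) (a4 : S4 ≤ c3 * (u * X)) :
    4 * (S1 + S2 + S3 + S4) ≤ C * (s * d + l + (s + u) * X) := by
  have b1 := mul_le_mul_of_nonneg_right h0 (mul_nonneg hs hd)
  have b2 := mul_le_mul_of_nonneg_right h1 hl
  have b3 := mul_le_mul_of_nonneg_right h2 (mul_nonneg hs hX)
  have b4 := mul_le_mul_of_nonneg_right h3 (mul_nonneg hu hX)
  linarith

/-- the slope and the gradient of the mean at the small scale -/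
theorem TubeK_one (m : ℕ) (A Θ : ℝ) : ∃ C : ℝ, 1 ≤ C ∧ ∀ {N Q : ℕ} (F : Flat m N Q A)
    (R a g θ s : ℝ) (c : E N) (ξ : E m) (y : E N), 0 < R → 0 < a → 3 * R ≤ g → F.τ ≤ 4 * a →
    ‖ξ‖ + a < 10 → ‖ξ - F.x y‖ ≤ a → ‖F.z y - c‖ ≤ R → s ≤ 1 → θ ≤ Θ →
    |∫ y', rho a (F.x y' - ξ) * bmp R (F.z y' - c) ∂F.μ - θ| ≤ s →
    |∫ y', rho a (F.x y' - ξ) * bmp (4 * R) (F.z y' - c) ∂F.μ - θ| ≤ s →
    ∑ i, ‖θ • F.Bt y (ev i) - fderiv ℝ (F.uc R c a) ξ (ev i)‖ ^ 2 ≤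
      C * (s * F.d y + F.lpe g (4 * a) y +
        (s + (R / a) ^ 2) * (F.DS (closedBall (F.x y) (4 * a)) / a ^ m)) := by
  obtain ⟨Cs, hCs, Hs⟩ := sg_bd
  obtain ⟨Cb, -, Hb⟩ := bmp_bd
  obtain ⟨K, hK, HK⟩ := rho_bd m
  refine ⟨max (max 4 (4 * ((Θ + 1) * (12 * 4 ^ m)))) (max (4 * (2 * (Cs ^ 2 / cg m)))
    (4 * (m * (16 * (K ^ 2 * (m * (A * 2 ^ m * 4 ^ m))))))),
    le_max_of_le_left (le_max_of_le_left (by norm_num)),
    fun {N Q} F R a g θ s c ξ y hR ha hg hτ hn hξ hy hs1 hθ n1 n4 => ?_⟩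
  obtain ⟨z3, zb, z1, z0, -⟩ := Hs F R c hR
  obtain ⟨b1, b2, b3, b4, -⟩ := Hb R hR c
  obtain ⟨c1, c2, c3, -, -⟩ := Hb (4 * R) (by linarith) c
  obtain ⟨mx, mz, -⟩ := F.measurable_all
  have hs : 0 ≤ s := (abs_nonneg _).trans n1
  have mρ : Measurable fun y' => rho a (F.x y' - ξ) :=
    (contDiff_rho a).continuous.measurable.comp (mx.sub_const ξ)
  have mβ : Measurable fun y' => bmp R (F.z y' - c) := b1.continuous.measurable.comp mz
  have mδ : Measurable fun y' => bmp (4 * R) (F.z y' - c) := c1.continuous.measurable.comp mz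
  have iρ : Integrable (fun y' => rho a (F.x y' - ξ)) F.μ := (F.FlatB_adm (Flat.FlatC_adm ha ξ)).1
  have iβ : Integrable (fun y' => rho a (F.x y' - ξ) * bmp R (F.z y' - c)) F.μ :=
    iρ.mul_bdd mβ.aestronglyMeasurable (c := 1) (Eventually.of_forall fun y' => by
      rw [Real.norm_of_nonneg (b2 _).1]
      exact (b2 _).2)
  have iδ : Integrable (fun y' => rho a (F.x y' - ξ) * bmp (4 * R) (F.z y' - c)) F.μ :=
    iρ.mul_bdd mδ.aestronglyMeasurable (c := 1) (Eventually.of_forall fun y' => by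
      rw [Real.norm_of_nonneg (c2 _).1]
      exact (c2 _).2)
  have γ0 : ∀ z : E N, 0 ≤ bmp (4 * R) z - bmp R z ∧ bmp (4 * R) z - bmp R z ≤ 1 := fun z => by
    refine ⟨?_, by linarith [(b2 z).1, (c2 z).2]⟩
    rcases le_total ‖z‖ (4 * R) with h | h
    · linarith [c3 z h, (b2 z).2]
    · linarith [b4 z (by linarith), (c2 z).1]
  have hγ : ∀ (z v : E N), ‖bmp R (z - c) • v - fderiv ℝ (zc R c) z v‖ ≤
      (bmp (4 * R) (z - c) - bmp R (z - c)) * (Cs * ‖v‖) := fun z v => by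
    rcases le_total ‖z - c‖ (2 * R) with h | h
    · have e : bmp R (z - c) • v - v = -((1 - bmp R (z - c)) • v) := by
        rw [sub_smul, one_smul, neg_sub]
      rw [z1 z h, c3 _ (by linarith), e, norm_neg, norm_smul,
        Real.norm_of_nonneg (sub_nonneg.2 (b2 _).2)]
      exact mul_le_mul_of_nonneg_left (le_mul_of_one_le_left (norm_nonneg _) hCs)
        (sub_nonneg.2 (b2 _).2)
    rw [b4 _ h, zero_smul, zero_sub, norm_neg, sub_zero]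
    rcases le_total ‖z - c‖ (4 * R) with h' | h'
    · rw [c3 _ h', one_mul]
      exact (fderiv ℝ (zc R c) z).le_of_opNorm_le (zb.b1 z) v
    · rw [z0 z h', zero_apply, norm_zero]
      exact mul_nonneg (c2 _).1 (mul_nonneg (by linarith) (norm_nonneg _))
  have t2 := F.TubeK_t2 ha hR hg hξ hy mβ (fun y' => b2 _) (fun y' h => b4 _ h) (Θ := Θ + 1)
    (by linarith [(abs_le.1 n1).2])
  have t3 := F.TubeK_t3 ha hξ (mδ.sub mβ) (fun y' => γ0 _) (s := 2 * s) (K := Cs) (by linarith)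
    (by
      simp only [Pi.sub_apply, mul_sub]
      rw [integral_sub iδ iβ]
      linarith [(abs_le.1 n1).1, (abs_le.1 n4).2])
    (h := fun i y' => bmp R (F.z y' - c) • F.Bt y' (ev i) -
      fderiv ℝ (zc R c) (F.z y') (F.Bt y' (ev i))) fun i y' => hγ _ _
  have t4 := fun i => F.TubeK_t4 ha hτ hξ (ζ := fun y' => zc R c (F.z y')) (R := 4 * R) (K := K)
    (fun y' => zb.b0 _) (fun v => by simpa using (HK a ha 0).1.b1 v) i
  have e : ∀ i, θ • F.Bt y (ev i) - fderiv ℝ (F.uc R c a) ξ (ev i) =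
      (θ - ∫ y', rho a (F.x y' - ξ) * bmp R (F.z y' - c) ∂F.μ) • F.Bt y (ev i) +
      (∫ y', (rho a (F.x y' - ξ) * bmp R (F.z y' - c)) • (F.Bt y (ev i) - F.Bt y' (ev i)) ∂F.μ) +
      (∫ y', rho a (F.x y' - ξ) • (bmp R (F.z y' - c) • F.Bt y' (ev i) -
        fderiv ℝ (zc R c) (F.z y') (F.Bt y' (ev i))) ∂F.μ) +
      ∫ y', F.NN y' (ev i) (gradient (rho a) (F.x y' - ξ)) • zc R c (F.z y') ∂F.μ := fun i => by
    have j1 : Integrable (fun y' => (rho a (F.x y' - ξ) * bmp R (F.z y' - c)) • F.Bt y' (ev i))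
        F.μ := iβ.smul_bdd (m + 1) (F.TubeK_mB _).aestronglyMeasurable
          (Eventually.of_forall fun y' => (F.TubeK_B y').2 i)
    have cΦ : Continuous fun q : E N × E N => fderiv ℝ (zc R c) q.1 q.2 :=
      ((z3.continuous_fderiv (by norm_num)).comp continuous_fst).clm_apply continuous_snd
    have j2 : Integrable (fun y' => rho a (F.x y' - ξ) •
        fderiv ℝ (zc R c) (F.z y') (F.Bt y' (ev i))) F.μ :=
      iρ.smul_bdd (Cs * (m + 1)) (cΦ.measurable.comp (mz.prodMk (F.TubeK_mB _))).aestronglyMeasurable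
        (Eventually.of_forall fun y' => ((fderiv ℝ (zc R c) _).le_of_opNorm_le (zb.b1 _) _).trans
          (mul_le_mul_of_nonneg_left ((F.TubeK_B y').2 i) (by linarith)))
    simp only [smul_sub, smul_smul]
    rw [(((F.uc_grad hR c ha).2 ξ (ev i)).2 hn), integral_sub (iβ.smul_const _) j1,
      integral_sub j1 j2, integral_smul_const, sub_smul]
    abel
  simp only [e]
  refine (Finset.sum_le_sum fun i _ => TubeK_sq4 _ _ _ _).trans ?_
  rw [← Finset.mul_sum, Finset.sum_add_distrib, Finset.sum_add_distrib, Finset.sum_add_distrib]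
  have X0 : 0 ≤ F.DS (closedBall (F.x y) (4 * a)) / a ^ m :=
    div_nonneg (F.DS_mono (Subset.refl _)).1 (pow_pos ha m).le
  refine TubeK_fin hs (F.d_bd y).1 ((F.lpe_bd (by linarith) (by linarith)).2.2 y) X0 (sq_nonneg _)
    (le_max_of_le_left (le_max_left _ _)) (le_max_of_le_left (le_max_right _ _))
    (le_max_of_le_right (le_max_left _ _)) (le_max_of_le_right (le_max_right _ _)) ?_
    (t2.trans (le_of_eq (by ring))) (t3.trans (le_of_eq (by ring))) ?_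
  · simp only [norm_smul, mul_pow]
    rw [← Finset.mul_sum]
    refine mul_le_mul ?_ (F.TubeK_B y).1 (Finset.sum_nonneg fun i _ => sq_nonneg _) hs
    rw [Real.norm_eq_abs, abs_sub_comm]
    exact (pow_le_pow_left₀ (abs_nonneg _) n1 2).trans (by nlinarith)
  · refine (Finset.sum_le_sum fun i _ => t4 i).trans (le_of_eq ?_)
    rw [Finset.sum_const, Finset.card_univ, Fintype.card_fin, nsmul_eq_mul]
    ring

/-- the local energy, integrated -/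
theorem TubeK_loc {Q : ℕ} {A : ℝ} (F : Flat m N Q A) {r : ℝ} (hr : F.τ ≤ r) {S O : Set (E m)}
    (mS : MeasurableSet S) (hO : cthickening r S ⊆ O) {Z : Set (E N)} (hZ : Z ⊆ F.x ⁻¹' S) :
    IntegrableOn (fun y => F.DS (closedBall (F.x y) r)) Z F.μ ∧
      ∫ y in Z, F.DS (closedBall (F.x y) r) ∂F.μ ≤ A * 2 ^ m * r ^ m * F.DS O := by
  obtain ⟨mx, -, -, -, md, -⟩ := F.measurable_all
  have mU : MeasurableSet {q : E N × E N | F.x q.2 ∈ closedBall (F.x q.1) r} := measurableSet_le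
    ((mx.comp measurable_snd).dist (mx.comp measurable_fst)) measurable_const
  have hI := ((F.integrable_d.comp_snd F.μ).indicator mU).integral_prod_left
  have i1 : Integrable (fun y => F.DS (closedBall (F.x y) r)) F.μ := by
    refine hI.congr (Eventually.of_forall fun y => ?_)
    show _ = ∫ y' in F.x ⁻¹' closedBall (F.x y) r, F.d y' ∂F.μ
    rw [← integral_indicator (mx measurableSet_closedBall)]
    rfl
  refine ⟨i1.integrableOn, (setIntegral_mono_set i1.integrableOn (Eventually.of_forall fun y =>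
    (F.DS_mono (Subset.refl _)).1) hZ.eventuallyLE).trans ?_⟩
  refine (F.integral_local hr md (fun y => (F.d_bd y).1) F.integrable_d mS).trans ?_
  have hA : 0 ≤ A := zero_le_one.trans F.A_ge
  have h0 : 0 ≤ r := F.τ_pos.le.trans hr
  exact mul_le_mul_of_nonneg_left (F.DS_mono hO).2 (by positivity)

theorem TubeK_num {k Q : ℕ} {A C C' C'' : ℝ} {T : TI k N Q A C} {B : Tb T C'} (K : Cl B C'') :
    0 < K.R ∧ K.R ≤ T.ak / 4 ∧ T.sm ≤ (T.Λ ^ 15)⁻¹ ∧ (T.Λ ^ 15)⁻¹ ≤ 1 ∧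
    (K.R / (T.ak / 4)) ^ 2 ≤ (T.Λ ^ 15)⁻¹ ∧ (T.ak / 4 / T.rp) ^ 2 ≤ (T.Λ ^ 15)⁻¹ ∧
    T.G ^ 2 / T.L / K.R ^ 2 + K.R ^ 2 * (T.G ^ 2 / T.L) / (T.ak / 4) ^ 4 ≤ 2 * (T.Λ ^ 15)⁻¹ := by
  obtain ⟨-, -, -, -, -, n6, -, -, -, -, -, n12, -, n14, n15, -⟩ := T.num
  obtain ⟨-, a0, -, aL, -⟩ := TubeC_num T
  have h1 : 1 ≤ T.Λ := by linarith [T.Λ_ge]
  have h0 : 0 < T.Λ := by linarith
  have hG := T.G_pos
  have hR : 0 < K.R := hG.trans_le K.R_ge
  have hRa : K.R ≤ T.ak / 4 := by linarith [K.R_le]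
  have ha : 0 < T.ak / 4 := by linarith
  have hL : 0 < T.L := by linarith
  have p15 : 0 < T.Λ ^ 15 := pow_pos h0 _
  have l1 : T.L⁻¹ ≤ (T.Λ ^ 15)⁻¹ :=
    inv_anti₀ p15 (TubeC_pow T (le_trans (by omega) (TubeC_P0 k).2.1))
  refine ⟨hR, hRa, inv_anti₀ p15 (pow_le_pow_right₀ h1 ?_),
    inv_le_one_of_one_le₀ (one_le_pow₀ h1), ?_, ?_, ?_⟩
  · have := Nat.one_le_pow 2 (k + 4) (by omega)
    omega
  · have e1 : K.R / (T.ak / 4) ≤ (T.Λ ^ 8)⁻¹ := by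
      rw [div_le_iff₀ ha, le_inv_mul_iff₀ (pow_pos h0 8)]
      have := mul_le_mul_of_nonneg_right K.R_le (pow_pos h0 8).le
      linarith [T.ga]
    refine (pow_le_pow_left₀ (div_pos hR ha).le e1 2).trans ?_
    rw [inv_pow, ← pow_mul]
    exact inv_anti₀ p15 (pow_le_pow_right₀ h1 (by norm_num))
  · have e1 : T.ak / 4 / T.rp ≤ T.L⁻¹ := by
      rw [div_le_iff₀ n6, le_inv_mul_iff₀ hL]
      linarith [mul_pos a0 hL]
    refine (pow_le_pow_left₀ (div_pos ha n6).le e1 2).trans (le_trans ?_ l1)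
    exact pow_le_of_le_one (inv_pos.2 hL).le (inv_le_one_of_one_le₀ n12) two_ne_zero
  · have e1 : T.G ^ 2 / T.L / K.R ^ 2 ≤ T.L⁻¹ := by
      rw [div_le_iff₀ (pow_pos hR 2), div_eq_inv_mul]
      exact mul_le_mul_of_nonneg_left (pow_le_pow_left₀ hG.le K.R_ge 2) (inv_pos.2 hL).le
    have e2 : K.R ^ 2 * (T.G ^ 2 / T.L) / (T.ak / 4) ^ 4 ≤ T.L⁻¹ := by
      rw [div_le_iff₀ (pow_pos ha 4), div_eq_inv_mul, mul_left_comm,
        show (T.ak / 4) ^ 4 = (T.ak / 4) ^ 2 * (T.ak / 4) ^ 2 by ring]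
      exact mul_le_mul_of_nonneg_left (mul_le_mul (pow_le_pow_left₀ hR.le hRa 2)
        (pow_le_pow_left₀ hG.le (K.R_ge.trans hRa) 2) (sq_nonneg _) (sq_nonneg _))
        (inv_pos.2 hL).le
    linarith

theorem TubeK_pt {S1 V S3 s u q w d l X Y p r C1 C3 n : ℝ} (hC1 : 0 ≤ C1) (hC3 : 0 ≤ C3)
    (hn : 0 ≤ n) (hd : 0 ≤ d) (hX : 0 ≤ X) (hY : 0 ≤ Y) (hp : 0 < p) (hr : 0 < r) (hs : s ≤ u)
    (hq : q ≤ u) (hw : w ≤ u) (h1 : S1 ≤ C1 * (s * d + l + (s + q) * (X / p)))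
    (h3 : S3 ≤ n * (C3 * Y / r * w)) :
    3 * (S1 + V + S3) ≤ 3 * C1 * u * d + 3 * C1 * l + 6 * C1 * u / p * X +
      3 * n * C3 * u / r * Y + 3 * V := by
  have a1 := mul_le_mul_of_nonneg_right hs hd
  have a2 := mul_le_mul_of_nonneg_right (add_le_add hs hq) (div_nonneg hX hp.le)
  have a3 := mul_le_mul_of_nonneg_left (add_le_add (add_le_add a1 (le_refl l)) a2) hC1
  have a4 := mul_le_mul_of_nonneg_left (mul_le_mul_of_nonneg_left hw
    (div_nonneg (mul_nonneg hC3 hY) hr.le)) hn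
  have e1 : 6 * C1 * u / p * X = 3 * (C1 * ((u + u) * (X / p))) := by ring
  have e2 : 3 * n * C3 * u / r * Y = 3 * (n * (C3 * Y / r * u)) := by ring
  rw [e1, e2]
  linarith

theorem TubeK_end {I1 I2 I3 I4 I5 u ε ρ κ p r c4 c2 C1 C2 C3 Cm n D C₁ : ℝ} (hC1 : 0 ≤ C1)
    (hC3 : 0 ≤ C3) (hn : 0 ≤ n) (hu : 0 ≤ u) (hε : 0 ≤ ε) (hρ : 0 ≤ ρ) (hp : 0 < p) (hr : 0 < r)
    (hD : 0 ≤ D) (h1 : I1 ≤ ε) (h2 : I2 ≤ ρ) (h3 : I3 ≤ κ * (c4 * p) * ε)
    (h4 : I4 ≤ κ * (c2 * r) * ε) (h5 : I5 ≤ C2 * (Cm * (2 * u)) * ε) (b1 : 3 * C1 ≤ C₁)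
    (b2 : 3 * C1 + 6 * C1 * κ * c4 + 3 * n * C3 * κ * c2 + D * (6 * C2 * Cm) ≤ C₁) :
    3 * C1 * u * I1 + 3 * C1 * I2 + 6 * C1 * u / p * I3 + 3 * n * C3 * u / r * I4 +
      D * (3 * I5) ≤ C₁ * (ρ + ε * u) := by
  have a1 := mul_le_mul_of_nonneg_left h1 (by positivity : 0 ≤ 3 * C1 * u)
  have a2 := mul_le_mul_of_nonneg_left h2 (by positivity : 0 ≤ 3 * C1)
  have a3 := mul_le_mul_of_nonneg_left h3 (by positivity : 0 ≤ 6 * C1 * u / p)
  have a4 := mul_le_mul_of_nonneg_left h4 (by positivity : 0 ≤ 3 * n * C3 * u / r)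
  have a5 := mul_le_mul_of_nonneg_left h5 (by positivity : 0 ≤ D * 3)
  have e3 : 6 * C1 * u / p * (κ * (c4 * p) * ε) = 6 * C1 * κ * c4 * (ε * u) := by
    field_simp
  have e4 : 3 * n * C3 * u / r * (κ * (c2 * r) * ε) = 3 * n * C3 * κ * c2 * (ε * u) := by
    field_simp
  have a6 := mul_le_mul_of_nonneg_right b1 hρ
  have a7 := mul_le_mul_of_nonneg_right b2 (mul_nonneg hε hu)
  rw [e3] at a3
  rw [e4] at a4
  linarith

/-- Let `a = ak / 4`, `P s ξ = D (uc R c s) ξ`, `Z` the set of `y` in the statement, and let `Z'` be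
the set of `ξ` within `a` of a point `v ∈ Sh0` with `U v ≤ 1`. For `y ∈ Z` average over `ξ` with
`rho a (ξ - x y) dξ` the square of
`θ B_y - P rp (x y) = (θ B_y - P a ξ) + (P a ξ - P rp ξ) + (P rp ξ - P rp (x y))`.
1. By `uc_grad`, with `1' = 1 {‖z' - c‖ ≤ 2 R}` and `ρ = rho a (x' - ξ)`, `θ B - P a ξ` is the sum
of `(θ - ∫ ρ 1') B`, `∫ ρ 1' (B - B')`, `- ∫ ρ 1 {2 R < ‖z' - c‖ < 4 R} Dζ B'` and the stress term.
As `bmp R ≤ 1' ≤ bmp (4 R)` and `bmp (4 R) - bmp R = 1` on the gap, `near_a` bounds the first factor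
by `sm` and the mass of the gap by `2 sm`. The square of the second term is at most
`C lpe g ak y` (`peh_bd`, `rho_ge`: `‖x' - x‖ ≤ ak / 2`, `‖z - z'‖ ≤ 3 R ≤ g`). The square of the
stress term is at most `C (R / a)² DS (closedBall (x y) ak) / ak ^ m`; `integral_local`, `ga`.
2. Fubini and `integral_rho_le` (with `rho_le_rho`) bound the second part by `C` times the integral
of `|P a - P rp|²` over `Z'` for Lebesgue measure. Use `uc_rep` with `a` and `rp`; only points over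
`Out` matter. On `Z'` we have `UU a (4 rp) ≤ C G² / L` (`Gm_move`), so `trunc_vec` for `μ`
restricted to the points over `Out`, `w = C d / R`, `t = C G² / (L R)` gives `C eps M / L`. The
error of `uc_rep` is `C R K * d` with `K * d ≤ C UU a (4 rp) / a³` on `Z'` (`Gm_ge`) and
`∫ K ≤ C / a` (scaling and `integrable_one_add_norm`; there is no lower bound on `a`).
3. `uc_bd`. -/
theorem Cl.variance (k : ℕ) (hk : 1 ≤ k) (N Q : ℕ) (A C C' C'' : ℝ) : ∃ C₁ Λ₀ : ℝ, 1 ≤ C₁ ∧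
    ∀ {T : TI k N Q A C} {B : Tb T C'} (K : Cl B C''), Λ₀ ≤ T.Λ → ∀ c ∈ K.cs,
    ∫ y in {y | T.x y ∈ B.Sh0 ∧ T.U (T.x y) ≤ 1 ∧ ‖T.z y - c‖ ≤ K.R},
      ∑ i, ‖K.θ c • T.Bt y (ev i) - fderiv ℝ (T.uc K.R c T.rp) (T.x y) (ev i)‖ ^ 2 ∂T.μ ≤
      C₁ * (T.RS T.g T.ak B.Sh + T.eps * T.M / T.Λ ^ 15) := by
  obtain ⟨C1, hC1, H1⟩ := TubeK_one (k + 2) A C''
  obtain ⟨C2, hC2, H2⟩ := TubeK_two (k + 2) (by omega) N
  obtain ⟨C3, hC3, H3⟩ := uc_bd (k + 2) A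
  obtain ⟨Cm, hCm, Hm⟩ := Gm_move (k + 2)
  refine ⟨max (3 * C1) (3 * C1 + 6 * C1 * (A * 2 ^ (k + 2)) * 4 ^ (k + 2) +
    3 * ((k + 2 : ℕ) : ℝ) * C3 * (A * 2 ^ (k + 2)) * 2 ^ (k + 2) +
    4 ^ (k + 2) * (A * 2 ^ (k + 2) / cg (k + 2)) * (6 * C2 * Cm)), 0,
    le_max_of_le_left (by linarith only [hC1]), fun {T B} K _ c hc => ?_⟩
  obtain ⟨n1, -, n3, -, -, n6, -, -, -, n10, -, n12, -, n14, n15, -⟩ := T.num
  obtain ⟨-, a0, aG, -, ap, p1, -⟩ := TubeC_num T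
  obtain ⟨hR, hRa, u1, u2, u3, u4, u5⟩ := TubeK_num K
  obtain ⟨s1, s2, s3, -⟩ := B.shell_sub
  obtain ⟨-, -, -, -, m0, m1, m2⟩ := B.measurable_all
  obtain ⟨mx, mz, -, -, md, -⟩ := T.toFlat.measurable_all
  have hG := T.G_pos
  have hg : 0 < T.g := hG.trans_le n14
  have hL : 0 < T.L := zero_lt_one.trans_le n12
  have hτ := T.τa
  have hRg := K.R_le
  have ha : 0 < T.ak / 4 := by linarith only [a0]
  have hab : T.ak / 4 ≤ T.rp := by linarith only [a0, ap]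
  have e4 : 4 * (T.ak / 4) = T.ak := by ring
  have S01 : B.Sh0 ⊆ B.Sh := (self_subset_thickening (by linarith only [n6, n10]) _).trans s1
  have SO : ∀ r, r ≤ 2 * T.rp → cthickening r B.Sh0 ⊆ B.Out := fun r hr =>
    (cthickening_subset_thickening' (by linarith only [n6, n10]) (by linarith only [n6, n10, hr])
      _).trans ((thickening_subset_of_subset _ S01).trans s2)
  have ht : 0 < Cm * (T.G ^ 2 / T.L) :=
    mul_pos (by linarith only [hCm]) (div_pos (pow_pos hG 2) hL)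
  have cU := (T.toFlat.contDiff_UU ha (by linarith only [hab, n6] : T.ak / 4 ≤ 4 * T.rp)
    ).1.continuous
  obtain ⟨Z', hZ'⟩ : ∃ Z' : Set (E (k + 2)), Z' = thickening (T.ak / 4) B.Sh0 ∩
    {ξ | T.UU (T.ak / 4) (4 * T.rp) ξ ≤ Cm * (T.G ^ 2 / T.L)} := ⟨_, rfl⟩
  have mZ' : MeasurableSet Z' := by
    rw [hZ']
    exact isOpen_thickening.measurableSet.inter (isClosed_le cU continuous_const).measurableSet
  have Z1 : thickening (T.ak / 4) B.Sh0 ⊆ B.Sh :=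
    (thickening_mono (by linarith only [n6, n10, hab]) _).trans s1
  obtain ⟨v1, v2⟩ := H2 T.toFlat K.R (T.ak / 4) T.rp _ c Z' B.Out hR ha hab
    (p1.trans (by norm_num)) ht mZ'
    (fun ξ hξ => mem_ball_zero_iff.2 ((Z1 (hZ' ▸ hξ).1).1.trans (by norm_num))) m2
    fun ξ hξ => ⟨fun v hv => Tb.TubeC_sub B (self_subset_thickening n6 _ (Z1 (hZ' ▸ hξ).1)) hv
      (by linarith only [n6, n10]), (hZ' ▸ hξ).2⟩
  obtain ⟨Z, hZ⟩ : ∃ Z : Set (E N),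
    Z = {y | T.x y ∈ B.Sh0 ∧ T.U (T.x y) ≤ 1 ∧ ‖T.z y - c‖ ≤ K.R} := ⟨_, rfl⟩
  rw [← hZ]
  have mZ : MeasurableSet Z := by
    rw [hZ]
    exact (mx m0.measurableSet).inter ((measurableSet_le (T.Fu_bd.1.continuous.measurable.comp mx)
      measurable_const).inter (measurableSet_le (mz.sub_const c).norm measurable_const))
  have Z0 : Z ⊆ T.x ⁻¹' B.Sh0 := fun y hy => (hZ ▸ hy).1
  obtain ⟨l1, l2⟩ := TubeK_loc T.toFlat hτ m0.measurableSet (SO _ (by linarith only [ap, n6])) Z0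
  obtain ⟨l3, l4⟩ := TubeK_loc T.toFlat (by linarith only [hτ, ap, n6] : T.τ ≤ 2 * T.rp)
    m0.measurableSet (SO _ le_rfl) Z0
  obtain ⟨-, q1, q2⟩ := T.toFlat.lpe_bd hg a0
  have c1 : ∀ s, 0 < s → ∀ i, Continuous fun ξ => fderiv ℝ (T.uc K.R c s) ξ (ev i) :=
    fun s hs i => Conv_cf ((T.toFlat.uc_grad hR c hs).1.of_le (by norm_num)) _
  have cV : Continuous fun ξ => 3 * ∑ i, ‖fderiv ℝ (T.uc K.R c (T.ak / 4)) ξ (ev i) -
      fderiv ℝ (T.uc K.R c T.rp) ξ (ev i)‖ ^ 2 :=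
    continuous_const.mul
      (continuous_finsetSum _ fun i _ => ((c1 _ ha i).sub (c1 _ n6 i)).norm.pow 2)
  have i1 : IntegrableOn (fun y => 3 * C1 * (T.Λ ^ 15)⁻¹ * T.d y) Z T.μ :=
    (T.toFlat.integrable_d.const_mul _).integrableOn
  have i2 : IntegrableOn (fun y => 3 * C1 * T.lpe T.g T.ak y) Z T.μ :=
    (q1.const_mul _).integrableOn
  have i3 : IntegrableOn (fun y => 6 * C1 * (T.Λ ^ 15)⁻¹ / (T.ak / 4) ^ (k + 2) *
      T.DS (closedBall (T.x y) T.ak)) Z T.μ := l1.const_mul _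
  have i4 : IntegrableOn (fun y => 3 * ((k + 2 : ℕ) : ℝ) * C3 * (T.Λ ^ 15)⁻¹ / T.rp ^ (k + 2) *
      T.DS (closedBall (T.x y) (2 * T.rp))) Z T.μ := l3.const_mul _
  have i12 : IntegrableOn (fun y => 3 * C1 * (T.Λ ^ 15)⁻¹ * T.d y + 3 * C1 * T.lpe T.g T.ak y)
      Z T.μ := i1.add i2
  have i13 : IntegrableOn (fun y => 3 * C1 * (T.Λ ^ 15)⁻¹ * T.d y + 3 * C1 * T.lpe T.g T.ak y +
      6 * C1 * (T.Λ ^ 15)⁻¹ / (T.ak / 4) ^ (k + 2) * T.DS (closedBall (T.x y) T.ak)) Z T.μ :=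
    i12.add i3
  refine (T.toFlat.TubeK_avg ha (e4.symm ▸ hτ) mZ
    (fun y => Finset.sum_nonneg fun i _ => sq_nonneg _)
    (H := fun y => 3 * C1 * (T.Λ ^ 15)⁻¹ * T.d y + 3 * C1 * T.lpe T.g T.ak y +
      6 * C1 * (T.Λ ^ 15)⁻¹ / (T.ak / 4) ^ (k + 2) * T.DS (closedBall (T.x y) T.ak) +
      3 * ((k + 2 : ℕ) : ℝ) * C3 * (T.Λ ^ 15)⁻¹ / T.rp ^ (k + 2) *
        T.DS (closedBall (T.x y) (2 * T.rp)))
    (i13.add i4) (cV.measurable.indicator mZ')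
    ((integrable_indicator_iff mZ').2 (v1.const_mul 3))
    (indicator_nonneg fun ξ _ => mul_nonneg zero_le_three
      (Finset.sum_nonneg fun i _ => sq_nonneg _)) fun y hy ξ hξ => ?_).trans ?_
  · obtain ⟨y1, y2, y3⟩ := hZ ▸ hy
    have x1 : ξ ∈ thickening (T.ak / 4) B.Sh0 :=
      mem_thickening_iff.2 ⟨_, y1, by rwa [dist_eq_norm]⟩
    have x2 : ‖ξ‖ < 2 / 5 := (Z1 x1).1
    have x3 : ‖T.x y‖ < 2 / 5 := (S01 y1).1
    have p2 : T.rp ≤ 1 := p1.trans (by norm_num)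
    have x4 : ξ ∈ Z' := by
      rw [hZ']
      refine ⟨x1, ?_⟩
      have h1 : T.UU T.G (30 * T.rp) (T.x y) ≤ T.G ^ 2 / T.L := by
        rw [TI.U, div_mul_eq_mul_div, div_le_one (pow_pos hG 2)] at y2
        rwa [le_div_iff₀ hL, mul_comm]
      refine le_trans ?_ (mul_le_mul_of_nonneg_left h1 (by linarith only [hCm]))
      rw [Flat.UU, Flat.UU, ← (T.toFlat.lin_smul Cm _).1]
      refine T.toFlat.DD_mono (Flat.FlatD_admG ha (by linarith only [hab, n6]) ξ)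
        ((Flat.FlatD_admG hG (by linarith only [aG, ap, n6]) _).const_mul Cm) fun v =>
          Hm _ _ _ _ hG (by linarith only [aG, a0]) (by linarith only [hab, n6])
            (by linarith only [n6]) _ _ ?_
      rw [sub_sub_sub_cancel_left, norm_sub_rev]
      linarith only [hξ, ha]
    rw [indicator_of_mem x4]
    have h1 := H1 T.toFlat K.R (T.ak / 4) T.g (K.θ c) T.sm c ξ y hR ha (by linarith only [hR, hRg])
      (e4.symm ▸ hτ) (by linarith only [x2, hab, p2]) hξ.le y3 (u1.trans u2) (K.θ_bd c hc).2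
      (K.near_a c hc _ y1 y2 ξ hξ.le _ le_rfl (by linarith only [hR]))
      (K.near_a c hc _ y1 y2 ξ hξ.le _ (by linarith only [hR]) le_rfl)
    rw [e4] at h1
    have h3 := (H3 T.toFlat K.R c T.rp (T.x y) hR (hRa.trans hab) (hτ.trans ap)
      (by linarith only [x3, p2])).2.2 ξ (hξ.le.trans hab)
    refine (Finset.sum_le_sum fun i _ => TubeK_sq3 _ (fderiv ℝ (T.uc K.R c (T.ak / 4)) ξ (ev i))
      (fderiv ℝ (T.uc K.R c T.rp) ξ (ev i)) _).trans ?_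
    rw [← Finset.mul_sum, Finset.sum_add_distrib, Finset.sum_add_distrib]
    refine TubeK_pt (by linarith only [hC1]) (by linarith only [hC3]) (Nat.cast_nonneg _)
      (T.toFlat.d_bd y).1 (T.toFlat.DS_mono (Subset.refl _)).1
      (T.toFlat.DS_mono (Subset.refl _)).1 (pow_pos ha _) (pow_pos n6 _) u1 u3
      ((pow_le_pow_left₀ (div_nonneg (norm_nonneg _) n6.le)
        (div_le_div_of_nonneg_right hξ.le n6.le) 2).trans u4) h1 ?_
    refine (Finset.sum_le_sum fun i _ => le_trans ?_ h3).trans (le_of_eq ?_)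
    · refine pow_le_pow_left₀ (norm_nonneg _) ?_ 2
      have h4 := (fderiv ℝ (T.uc K.R c T.rp) (T.x y) - fderiv ℝ (T.uc K.R c T.rp) ξ).le_opNorm
        (ev i)
      rwa [TubeK_ev, mul_one] at h4
    · rw [Finset.sum_const, Finset.card_univ, Fintype.card_fin, nsmul_eq_mul]
  · rw [integral_add i13 i4, integral_add i12 i3, integral_add i1 i2, integral_const_mul,
      integral_const_mul, integral_const_mul, integral_const_mul, integral_indicator mZ',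
      integral_const_mul, div_eq_mul_inv (T.eps * T.M)]
    have hA : 0 ≤ A * 2 ^ (k + 2) := mul_nonneg (zero_le_one.trans T.A_ge) (by positivity)
    have D0 := (T.toFlat.DS_mono (Subset.refl B.Out)).1
    refine TubeK_end (by linarith only [hC1]) (by linarith only [hC3]) (Nat.cast_nonneg _)
      (n3.le.trans u1) (D0.trans s3) (T.toFlat.RS_mono hg a0 m1.measurableSet m1.measurableSet
        (Subset.refl _)).1 (pow_pos ha _) (pow_pos n6 _)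
      (mul_nonneg (pow_nonneg (by norm_num) _) (div_nonneg hA (cg_pos _).le)) ?_ ?_ ?_ ?_ ?_
      (le_max_left _ _) (le_max_right _ _)
    · refine le_trans ?_ s3
      exact setIntegral_mono_set T.toFlat.integrable_d.integrableOn
        (Eventually.of_forall fun y => (T.toFlat.d_bd y).1) (Z0.trans (preimage_mono
          ((self_subset_cthickening _).trans (SO 0 (by linarith only [n6]))))).eventuallyLE
    · rw [T.toFlat.RS_eq hg a0 m1.measurableSet]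
      exact setIntegral_mono_set q1.integrableOn (Eventually.of_forall q2)
        (Z0.trans (preimage_mono S01)).eventuallyLE
    · rw [← mul_pow, e4]
      exact l2.trans (mul_le_mul_of_nonneg_left s3 (mul_nonneg hA (pow_pos a0 _).le))
    · rw [← mul_pow]
      exact l4.trans (mul_le_mul_of_nonneg_left s3
        (mul_nonneg hA (pow_nonneg (by linarith only [n6]) _)))
    · refine v2.trans (mul_le_mul (mul_le_mul_of_nonneg_left ?_ (by linarith only [hC2])) s3 D0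
        (mul_nonneg (by linarith only [hC2]) (mul_nonneg (by linarith only [hCm])
          (by linarith only [n3, u1]))))
      refine le_trans (le_of_eq ?_) (mul_le_mul_of_nonneg_left u5 (by linarith only [hCm]))
      ring

end Pool.Agent.MP_f6c0e6_an.Gen

end

section

/-! From the varifold to the means of the clusters. -/

set_option autoImplicit false

open MeasureTheory Filter Topology Set Metric
open scoped ENNReal RealInnerProductSpace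

namespace Pool.Agent.MP_f6c0e6_an.Gen

variable {m N : ℕ}

theorem TubeL_cont {f : E m → ℝ} {r K : ℝ} (hr : 0 < r)
    (h : ∀ ξ ξ', ‖ξ' - ξ‖ ≤ r → |f ξ' - f ξ| ≤ K * ‖ξ' - ξ‖) : Continuous f := by
  refine continuous_iff_continuousAt.2 fun x => tendsto_iff_norm_sub_tendsto_zero.2 ?_
  have h1 : Tendsto (fun y : E m => K * ‖y - x‖) (𝓝 x) (𝓝 0) := by
    simpa using (tendsto_norm_sub_self x).const_mul K
  refine squeeze_zero' (Eventually.of_forall fun y => norm_nonneg _) ?_ h1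
  filter_upwards [closedBall_mem_nhds x hr] with y hy using h x y (mem_closedBall_iff_norm.1 hy)

theorem TubeL_avg {H : E m → ℝ} (hH : Continuous H) {r ε : ℝ} (hr : 0 < r) (x : E m)
    (h : ∀ ξ, ‖ξ - x‖ ≤ r → |H ξ - H x| ≤ ε) : |H x - ∫ ξ, H ξ * rho r (x - ξ)| ≤ ε := by
  have hc : Continuous fun ξ : E m => rho r (ξ - x) :=
    (contDiff_rho r).continuous.comp (continuous_id.sub continuous_const)
  have hi : ∀ g : E m → ℝ, Continuous g → Integrable fun ξ => rho r (ξ - x) • g ξ := fun g hg =>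
    Conv_ismul hc (Conv_shift (Conv_rho hr) x) hg
  have e1 : ∀ t : ℝ, ∫ ξ : E m, rho r (ξ - x) • t = t := fun t => by
    rw [integral_smul_const, integral_rho hr, one_smul]
  have e2 : ∫ ξ, H ξ * rho r (x - ξ) = ∫ ξ, rho r (ξ - x) • H ξ :=
    integral_congr_ae (Eventually.of_forall fun ξ => by
      simp only [smul_eq_mul]
      rw [← rho_neg, neg_sub, mul_comm])
  rw [e2, ← e1 (H x), ← integral_sub (hi _ continuous_const) (hi _ hH), ← e1 ε]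
  refine norm_integral_le_of_norm_le (f := fun ξ => rho r (ξ - x) • H x - rho r (ξ - x) • H ξ)
    (hi _ continuous_const) (Eventually.of_forall fun ξ => ?_)
  by_cases hξ : ‖ξ - x‖ ≤ r
  · rw [← smul_sub, norm_smul, Real.norm_of_nonneg (rho_nonneg hr _), Real.norm_eq_abs,
      abs_sub_comm]
    exact mul_le_mul_of_nonneg_left (h ξ hξ) (rho_nonneg hr _)
  · simp [rho_eq_zero hr (not_le.1 hξ).le]

theorem Flat.TubeL_fub {Q : ℕ} {A : ℝ} (F : Flat m N Q A) {H : E m → ℝ} (hH : Continuous H)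
    {h0 r ε₁ ε₂ θ : ℝ} (hr : 0 < r) (hb : ∀ ξ, |H ξ| ≤ h0) {S S' : Set (E m)}
    (hS : MeasurableSet S') (hfin : volume S' ≠ ⊤) (hSS : S ⊆ S') (hz : ∀ ξ, ξ ∉ S → H ξ = 0)
    (h1 : ∀ ξ ξ', ‖ξ' - ξ‖ ≤ r → |H ξ' - H ξ| ≤ ε₁) {β : E N → ℝ} (hβ : Measurable β)
    (hβ1 : ∀ y, 0 ≤ β y ∧ β y ≤ 1) (hε : 0 ≤ ε₂)
    (h2 : ∀ ξ ∈ S, |∫ y, rho r (F.x y - ξ) * β y ∂F.μ - θ| ≤ ε₂) :
    |∫ y, β y * H (F.x y) ∂F.μ - θ * ∫ ξ, H ξ| ≤
      ε₁ * (A * 20 ^ m) + h0 * ε₂ * (volume S').toReal := by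
  have hx := F.measurable_all.1
  have hh : 0 ≤ h0 := (abs_nonneg _).trans (hb 0)
  have hε₁ : 0 ≤ ε₁ := (abs_nonneg _).trans (h1 0 0 (by simpa using hr.le))
  have hind : ∀ t : ℝ, Integrable (S'.indicator fun _ => t) := fun t =>
    (integrableOn_const hfin).integrable_indicator hS
  have iH : Integrable H := (hind h0).mono' hH.aestronglyMeasurable
    (Eventually.of_forall fun ξ => by
      by_cases hξ : ξ ∈ S'
      · rw [indicator_of_mem hξ]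
        exact hb ξ
      · rw [indicator_of_notMem hξ, hz ξ fun h => hξ (hSS h), norm_zero])
  have iP : Integrable (fun q : E m × E N => H q.1 * (rho r (F.x q.2 - q.1) * β q.2))
      ((volume : Measure (E m)).prod F.μ) := by
    refine (iH.norm.mul_prod (integrable_const (μ := F.μ) (1 / (cg m * r ^ m)))).mono'
      (Measurable.aestronglyMeasurable ((hH.measurable.comp measurable_fst).mul
        (((contDiff_rho r).continuous.measurable.comp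
          ((hx.comp measurable_snd).sub measurable_fst)).mul (hβ.comp measurable_snd))))
      (Eventually.of_forall fun q => ?_)
    rw [norm_mul, Real.norm_of_nonneg (mul_nonneg (rho_nonneg hr _) (hβ1 _).1)]
    exact mul_le_mul_of_nonneg_left
      ((mul_le_of_le_one_right (rho_nonneg hr _) (hβ1 _).2).trans (rho_le hr _)) (norm_nonneg _)
  have iβ : Integrable (fun y => β y * H (F.x y)) F.μ :=
    F.integrable_of_bd (hβ.mul (hH.measurable.comp hx)) (M := h0) fun y _ _ => by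
      rw [norm_mul, Real.norm_of_nonneg (hβ1 y).1]
      exact (mul_le_of_le_one_left (norm_nonneg _) (hβ1 y).2).trans (hb _)
  have a1 : |∫ y, β y * H (F.x y) ∂F.μ - ∫ q, H q.1 * (rho r (F.x q.2 - q.1) * β q.2)
      ∂(volume : Measure (E m)).prod F.μ| ≤ ε₁ * (A * 20 ^ m) := by
    rw [integral_prod_symm _ iP, ← integral_sub iβ iP.integral_prod_right]
    refine (norm_integral_le_of_norm_le_const (C := ε₁) (f := fun y => β y * H (F.x y) -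
      ∫ ξ, H ξ * (rho r (F.x y - ξ) * β y)) (Eventually.of_forall fun y => ?_)).trans
      (mul_le_mul_of_nonneg_left F.mass_univ hε₁)
    simp only [← mul_assoc]
    rw [integral_mul_const, mul_comm (β y), ← sub_mul, norm_mul, Real.norm_of_nonneg (hβ1 y).1]
    exact (mul_le_of_le_one_right (norm_nonneg _) (hβ1 y).2).trans
      (TubeL_avg hH hr _ fun ξ hξ => h1 _ _ hξ)
  have a2 : |∫ q, H q.1 * (rho r (F.x q.2 - q.1) * β q.2) ∂(volume : Measure (E m)).prod F.μ -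
      θ * ∫ ξ, H ξ| ≤ h0 * ε₂ * (volume S').toReal := by
    rw [integral_prod _ iP, ← integral_const_mul,
      ← integral_sub iP.integral_prod_left (iH.const_mul θ)]
    refine (norm_integral_le_of_norm_le (f := fun ξ =>
      (∫ y, H ξ * (rho r (F.x y - ξ) * β y) ∂F.μ) - θ * H ξ) (hind (h0 * ε₂))
      (Eventually.of_forall fun ξ => ?_)).trans_eq ?_
    · by_cases hξ : ξ ∈ S
      · rw [indicator_of_mem (hSS hξ), integral_const_mul, mul_comm θ, ← mul_sub, norm_mul]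
        exact mul_le_mul (hb ξ) (h2 ξ hξ) (norm_nonneg _) hh
      · simp only [hz ξ hξ, zero_mul, mul_zero, integral_zero, sub_zero, norm_zero]
        exact indicator_nonneg (fun _ _ => mul_nonneg hh hε) ξ
    · rw [integral_indicator hS, setIntegral_const, smul_eq_mul, mul_comm]
      rfl
  exact (abs_sub_le _ _ _).trans (add_le_add a1 a2)

theorem TI.TubeL_num {k Q : ℕ} {A C : ℝ} (T : TI k N Q A C) :
    T.eps * T.M / T.rp ^ (k + 2) * (T.rp ^ 2 * T.Λ ^ 40 / T.L) ≤ T.er ∧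
    T.eps * T.M / T.rp ^ (k + 2) * (T.rq / T.rp) ≤ T.er ∧
    T.eps * T.M / T.rp ^ (k + 2) * T.sm ≤ T.er ∧
    T.Λ ^ 7 * (T.eps * T.M / T.Λ ^ 15) ≤ T.er ∧ T.g ≤ T.rp ∧ T.τ ≤ T.rp := by
  obtain ⟨-, her, -, -, n1, hrp, -, -, n2, n3, n4, hL, -, -, n5, n6, n7, -⟩ := T.num
  replace n2 : T.rb ≤ 1 := n2.trans (by norm_num)
  have hΛ : 1 ≤ T.Λ := by linarith [T.Λ_ge]
  have h0 : 0 < T.Λ := by linarith
  have hak : T.ak ≤ T.rp :=
    (le_mul_of_one_le_right (T.τ_pos.le.trans T.τa) hL).trans (n6.trans n1)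
  have e1 : T.eps * T.M / T.rp ^ (k + 2) = T.er * T.Λ ^ (7 + (20 * k + 60) * (k + 2)) := by
    rw [n7, TI.rp, inv_pow, div_inv_eq_mul, ← pow_mul, pow_add T.Λ 7]
    ring
  have x1 : (20 * k + 60) * (k + 2) = 20 * (k * k) + 100 * k + 120 := by ring
  have x2 : (k + 4) ^ 2 = k * k + 8 * k + 16 := by ring
  have x3 : (k + 4) ^ 3 = k * k * k + 12 * (k * k) + 48 * k + 64 := by ring
  refine ⟨?_, ?_, ?_, ?_, n5.trans hak, T.τa.trans hak⟩
  · have h1 : T.rp ^ 2 ≤ 1 := pow_le_one₀ hrp.le (by linarith only [hrp, n3, n4, n2])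
    have h2 : T.Λ ^ (7 + (20 * k + 60) * (k + 2)) * T.Λ ^ 40 ≤ T.L := by
      rw [← pow_add]
      exact (pow_le_pow_right₀ hΛ (by unfold P0; omega)).trans T.L_ge
    rw [e1, mul_assoc]
    refine mul_le_of_le_one_right her.le ?_
    rw [← mul_div_assoc, div_le_one (by linarith only [hrp, n3, n4, hL, n2])]
    exact (mul_le_mul_of_nonneg_left (mul_le_of_le_one_left (by positivity) h1)
      (by positivity)).trans h2
  · have e2 : T.eps * T.M / T.rp ^ (k + 2) * (T.rq / T.rp) = T.er * (T.Λ ^ 7 * T.rp) := by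
      rw [n7, TI.rq]
      field_simp
      ring
    rw [e2]
    refine mul_le_of_le_one_right her.le ?_
    rw [TI.rp, mul_inv_le_iff₀ (by positivity), one_mul]
    exact pow_le_pow_right₀ hΛ (by omega)
  · rw [e1, mul_assoc]
    refine mul_le_of_le_one_right her.le ?_
    rw [TI.sm, mul_inv_le_iff₀ (by positivity), one_mul]
    exact pow_le_pow_right₀ hΛ (by omega)
  · have e2 : T.Λ ^ 7 * (T.eps * T.M / T.Λ ^ 15) = T.er / T.Λ := by
      rw [n7]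
      field_simp
    rw [e2]
    exact div_le_self her.le hΛ

theorem Tb.TubeL_sub {k Q : ℕ} {A C C' : ℝ} {T : TI k N Q A C} (B : Tb T C') :
    B.Sh0 ⊆ B.Sh ∧ B.Sh ⊆ B.Out ∧ ∀ ξ ∈ B.Sh0, closedBall ξ (2 * T.rp) ⊆ B.Out := by
  obtain ⟨-, -, -, -, -, hrp, -, -, -, n3, -⟩ := T.num
  have h1 : B.Sh0 ⊆ B.Sh := (self_subset_thickening (by linarith) _).trans B.shell_sub.1
  refine ⟨h1, (self_subset_thickening (by linarith) _).trans B.shell_sub.2.1, fun ξ hξ v hv =>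
    B.shell_sub.2.1 (mem_thickening_iff.2 ⟨ξ, h1 hξ, ?_⟩)⟩
  linarith [mem_closedBall.1 hv]

namespace Cl

variable {k Q : ℕ} {A C C' C'' : ℝ} {T : TI k N Q A C} {B : Tb T C'} (K : Cl B C'')

/-- the gradient of the mean -/
noncomputable def TubeL_D (c : E N) (ξ : E (k + 2)) : E (k + 2) →L[ℝ] E N :=
  fderiv ℝ (T.uc K.R c T.rp) ξ

/-- the integrand on the base -/
noncomputable def TubeL_H (c : E N) (ξ : E (k + 2)) : ℝ := B.phi ξ * Tq (K.TubeL_D c ξ) (B.ur ξ)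

/-- the points of the cluster -/
def TubeL_Z (c : E N) : Set (E N) :=
  {y | T.x y ∈ B.Sh0 ∧ T.U (T.x y) ≤ 1 ∧ ‖T.z y - c‖ ≤ K.R}

/-- the variance -/
noncomputable def TubeL_V (c y : E N) : ℝ :=
  ∑ i, ‖K.θ c • T.Bt y (ev i) - K.TubeL_D c (T.x y) (ev i)‖ ^ 2

/-- bounds for the gradient near the shell -/
def TubeL_Bd (s : ℝ) : Prop := ∀ c, ∀ ξ ∈ B.Sh0, ∀ ξ', ‖ξ' - ξ‖ ≤ T.rp →
  ‖K.TubeL_D c ξ'‖ ≤ s ∧ ‖K.TubeL_D c ξ - K.TubeL_D c ξ'‖ ≤ s * (‖ξ' - ξ‖ / T.rp)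

theorem TubeL_R : 0 < K.R := T.G_pos.trans_le K.R_ge

theorem TubeL_bd {Cu : ℝ} (hCu : 1 ≤ Cu) (hu : ∀ (R : ℝ) (c : E N) (s : ℝ) (ξ : E (k + 2)),
    0 < R → R ≤ s → T.τ ≤ s → ‖ξ‖ + 2 * s < 10 →
    ‖fderiv ℝ (T.uc R c s) ξ‖ ^ 2 ≤ Cu * T.DS (closedBall ξ s) / s ^ (k + 2) ∧
    ∀ ξ', ‖ξ' - ξ‖ ≤ s → ‖fderiv ℝ (T.uc R c s) ξ - fderiv ℝ (T.uc R c s) ξ'‖ ^ 2 ≤
      Cu * T.DS (closedBall ξ (2 * s)) / s ^ (k + 2) * (‖ξ' - ξ‖ / s) ^ 2) :
    K.TubeL_Bd √(Cu * (T.eps * T.M / T.rp ^ (k + 2))) := by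
  intro c ξ hξ ξ' h
  obtain ⟨heps, -, -, -, -, hrp, -, -, n2, n3, n4, -⟩ := T.num
  have hM := T.M_pos
  replace n2 : T.rb ≤ 1 := n2.trans (by norm_num)
  have hR : K.R ≤ T.rp := by linarith [K.R_le, K.TubeL_R, T.TubeL_num.2.2.2.2.1]
  have hτ := T.TubeL_num.2.2.2.2.2
  have h1 : ‖ξ‖ < 2 / 5 := (B.TubeL_sub.1 hξ).1
  have h2 : ‖ξ'‖ ≤ ‖ξ‖ + T.rp := by linarith [norm_sub_norm_le ξ' ξ]
  have h3 : ∀ Z ⊆ closedBall ξ (2 * T.rp), Cu * T.DS Z / T.rp ^ (k + 2) ≤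
      Cu * (T.eps * T.M / T.rp ^ (k + 2)) := fun Z hZ => by
    rw [mul_div_assoc]
    exact mul_le_mul_of_nonneg_left (div_le_div_of_nonneg_right
      ((T.DS_mono (hZ.trans (B.TubeL_sub.2.2 ξ hξ))).2.trans B.shell_sub.2.2.1) (by positivity))
      (by linarith)
  constructor
  · refine Real.le_sqrt_of_sq_le (((hu K.R c T.rp ξ' K.TubeL_R hR hτ (by linarith)).1).trans
      (h3 _ (closedBall_subset_closedBall' ?_)))
    rw [dist_eq_norm]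
    linarith
  · refine abs_le_of_sq_le_sq' ?_ (by positivity) |>.2
    rw [mul_pow, Real.sq_sqrt (by positivity)]
    exact ((hu K.R c T.rp ξ K.TubeL_R hR hτ (by linarith)).2 ξ' h).trans
      (mul_le_mul_of_nonneg_right (h3 _ Subset.rfl) (sq_nonneg _))

theorem TubeL_Tq {p : E m →L[ℝ] E N} {u : E m} (hu : ‖u‖ ≤ 1) {s : ℝ} (hp : ‖p‖ ≤ s) :
    |Tq p u| ≤ m * s ^ 2 := by
  have h := Tq_bd p p hu hu le_rfl 1
  exact h.2.2.2.1.trans (h.2.1.trans (mul_le_mul_of_nonneg_left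
    (pow_le_pow_left₀ (norm_nonneg _) hp 2) (Nat.cast_nonneg m)))

theorem TubeL_lip (hΛ : C' ≤ T.Λ) {s : ℝ} (hs : K.TubeL_Bd s) (c : E N) {ξ ξ' : E (k + 2)}
    (hξ : ξ ∈ B.Sh0) (h : ‖ξ' - ξ‖ ≤ T.rp) : |K.TubeL_H c ξ' - K.TubeL_H c ξ| ≤
      ((8 * C' + 4 * C) * (k + 2 : ℕ) + 4 * ((k + 2 : ℕ) + 2) + 8) * s ^ 2 / T.rp * ‖ξ' - ξ‖ := by
  obtain ⟨-, -, -, -, -, hrp, -, -, -, n3, -⟩ := T.num
  have W := B.weights hΛ
  have hC := T.C_ge
  have hC' := B.C_ge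
  obtain ⟨b1, b2⟩ := hs c ξ hξ ξ' h
  have b0 := (hs c ξ hξ ξ (by simpa using hrp.le)).1
  have hs0 : 0 ≤ s := (norm_nonneg _).trans b0
  set δ := ‖ξ' - ξ‖ / T.rp with hδ
  have hδ0 : 0 ≤ δ := by positivity
  have e0 : ‖ξ' - ξ‖ = δ * T.rp := by rw [hδ, div_mul_cancel₀ _ hrp.ne']
  have p1 : |B.phi ξ' - B.phi ξ| ≤ (8 * C' + 4 * C) * δ := by
    refine (W.2.2.2.2.2.2.2.2.2.2.2.2 ξ' ξ).trans ?_
    rw [hδ, div_mul_eq_mul_div, mul_div_assoc]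
    exact mul_le_mul_of_nonneg_left
      (div_le_div_of_nonneg_left (norm_nonneg _) hrp (by linarith)) (by positivity)
  have u1 : ‖B.ur ξ - B.ur ξ'‖ ≤ 2 * δ := by
    have h1 := (B.ur_bd ξ ξ').2.2.1
    rw [norm_sub_rev ξ, e0] at h1
    have h2 := mul_le_mul_of_nonneg_right (show T.rp ≤ ‖B.cx ξ‖ by linarith [hξ.2.1])
      (norm_nonneg (B.ur ξ - B.ur ξ'))
    exact le_of_mul_le_mul_left (by linarith) hrp
  have t1 := TubeL_Tq (B.ur_bd ξ' ξ').1 b1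
  have t2 : |Tq (K.TubeL_D c ξ) (B.ur ξ) - Tq (K.TubeL_D c ξ') (B.ur ξ')| ≤
      ((k + 2 : ℕ) + 2) * (s + s) * (s * δ) + 2 * s ^ 2 * (2 * δ) :=
    (Tq_bd _ _ (B.ur_bd ξ ξ).1 (B.ur_bd ξ' ξ').1 le_rfl 1).2.2.2.2.2.trans (add_le_add
      (mul_le_mul (mul_le_mul_of_nonneg_left (add_le_add b0 b1) (by positivity)) b2
        (norm_nonneg _) (by positivity))
      (mul_le_mul (mul_le_mul_of_nonneg_left (pow_le_pow_left₀ (norm_nonneg _) b0 2) zero_le_two)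
        u1 (norm_nonneg _) (by positivity)))
  have p2 := W.2.2.2.2.2.2.1 ξ
  have e1 : K.TubeL_H c ξ' - K.TubeL_H c ξ = (B.phi ξ' - B.phi ξ) * Tq (K.TubeL_D c ξ') (B.ur ξ') -
      B.phi ξ * (Tq (K.TubeL_D c ξ) (B.ur ξ) - Tq (K.TubeL_D c ξ') (B.ur ξ')) := by
    rw [TubeL_H, TubeL_H]
    ring
  rw [e1, div_mul_eq_mul_div, mul_div_assoc, ← hδ]
  refine (abs_sub _ _).trans ?_
  rw [abs_mul, abs_mul, abs_of_nonneg p2.2.2.2.1]
  refine (add_le_add (mul_le_mul p1 t1 (abs_nonneg _) (by positivity))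
    (mul_le_mul p2.2.2.2.2.1 t2 (abs_nonneg _) zero_le_two)).trans_eq ?_
  ring

theorem TubeL_H_all (hΛ : C' ≤ T.Λ) {s : ℝ} (hs : K.TubeL_Bd s) (c : E N) :
    Continuous (K.TubeL_H c) ∧ (∀ ξ, |K.TubeL_H c ξ| ≤ 2 * ((k + 2 : ℕ) * s ^ 2)) ∧
    (∀ ξ, ξ ∉ B.Sh0 → K.TubeL_H c ξ = 0) ∧ ∀ ξ ξ', ‖ξ' - ξ‖ ≤ T.rp →
      |K.TubeL_H c ξ' - K.TubeL_H c ξ| ≤
      ((8 * C' + 4 * C) * (k + 2 : ℕ) + 4 * ((k + 2 : ℕ) + 2) + 8) * s ^ 2 / T.rp * ‖ξ' - ξ‖ := by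
  have hrp : 0 < T.rp := T.num.2.2.2.2.2.1
  have W := (B.weights hΛ).2.2.2.2.2.2.1
  have hC := T.C_ge
  have hC' := B.C_ge
  have h0 : ∀ ξ, ξ ∉ B.Sh0 → K.TubeL_H c ξ = 0 := fun ξ hξ => by
    rw [TubeL_H, (W ξ).2.2.2.2.2.1 hξ, zero_mul]
  have h1 : ∀ ξ ξ', ‖ξ' - ξ‖ ≤ T.rp → |K.TubeL_H c ξ' - K.TubeL_H c ξ| ≤
      ((8 * C' + 4 * C) * (k + 2 : ℕ) + 4 * ((k + 2 : ℕ) + 2) + 8) * s ^ 2 / T.rp * ‖ξ' - ξ‖ :=
    fun ξ ξ' h => by
      by_cases hξ : ξ ∈ B.Sh0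
      · exact K.TubeL_lip hΛ hs c hξ h
      · by_cases hξ' : ξ' ∈ B.Sh0
        · rw [abs_sub_comm, norm_sub_rev]
          exact K.TubeL_lip hΛ hs c hξ' (by rwa [norm_sub_rev])
        · rw [h0 ξ hξ, h0 ξ' hξ', sub_zero, abs_zero]
          positivity
  refine ⟨TubeL_cont hrp h1, fun ξ => ?_, h0, h1⟩
  by_cases hξ : ξ ∈ B.Sh0
  · rw [TubeL_H, abs_mul, abs_of_nonneg (W ξ).2.2.2.1]
    exact mul_le_mul (W ξ).2.2.2.2.1 (TubeL_Tq (B.ur_bd ξ ξ).1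
      (hs c ξ hξ ξ (by simpa using hrp.le)).1) (abs_nonneg _) zero_le_two
  · rw [h0 ξ hξ, abs_zero]
    positivity

theorem TubeL_Zm (c : E N) : MeasurableSet (K.TubeL_Z c) :=
  (T.measurable_all.1 B.measurable_all.2.2.2.2.1.measurableSet).inter
    ((measurableSet_le (T.Fu_bd.1.continuous.measurable.comp T.measurable_all.1)
      measurable_const).inter
    (measurableSet_le (T.measurable_all.2.1.sub_const c).norm measurable_const))

theorem TubeL_far {c c' z : E N} (hc : c ∈ K.cs) (hc' : c' ∈ K.cs) (hne : c ≠ c')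
    (hz : ‖z - c'‖ ≤ K.R) : 9 * K.R ≤ ‖z - c‖ := by
  have h1 := K.sep c hc c' hc' hne
  have h2 := norm_sub_le_norm_sub_add_norm_sub c z c'
  rw [norm_sub_rev c z] at h2
  linarith

/-- the main term of the cluster -/
noncomputable def TubeL_G (c : E N) : E N → ℝ :=
  (K.TubeL_Z c).indicator fun y => (1 - T.Fu (T.x y)) * K.TubeL_H c (T.x y)

theorem TubeL_Gi (hΛ : C' ≤ T.Λ) {s : ℝ} (hs : K.TubeL_Bd s) (c : E N) :
    Integrable (K.TubeL_G c) T.μ := by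
  obtain ⟨h1, h2, -⟩ := K.TubeL_H_all hΛ hs c
  refine (T.integrable_of_bd (M := 2 * ((k + 2 : ℕ) * s ^ 2))
    (((continuous_const.sub T.Fu_bd.2.1.continuous).mul h1).measurable.comp T.measurable_all.1)
    fun y _ _ => ?_).indicator (K.TubeL_Zm c)
  have h3 := T.Fu_bd.2.2.2 (T.x y)
  change ‖(1 - T.Fu (T.x y)) * K.TubeL_H c (T.x y)‖ ≤ _
  rw [norm_mul, Real.norm_of_nonneg (by linarith [h3.2.2.1])]
  exact (mul_le_of_le_one_left (norm_nonneg _) (by linarith [h3.2.1])).trans (h2 _)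

theorem TubeL_Vi {s : ℝ} (hs : K.TubeL_Bd s) (c : E N) :
    Integrable ((K.TubeL_Z c).indicator (K.TubeL_V c)) T.μ := by
  have hrp : 0 < T.rp := T.num.2.2.2.2.2.1
  have hu : ContDiff ℝ 1 (T.uc K.R c T.rp) := (T.uc_grad K.TubeL_R c hrp).1.of_le (by norm_num)
  have hm : Measurable (K.TubeL_V c) := Finset.measurable_sum _ fun i _ =>
    (((T.measurable_all.2.2.2.2.2.2.1 _ measurable_const).const_smul (K.θ c)).sub
      ((Conv_cf hu (ev i)).measurable.comp T.measurable_all.1)).norm.pow_const 2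
  refine T.integrable_of_bd (M := ∑ _i : Fin (k + 2), (|K.θ c| * √(k + 2 : ℕ) + s) ^ 2)
    (hm.indicator (K.TubeL_Zm c)) fun y _ _ => ?_
  by_cases hy : y ∈ K.TubeL_Z c
  · rw [indicator_of_mem hy, TubeL_V,
      Real.norm_of_nonneg (Finset.sum_nonneg fun _ _ => sq_nonneg _)]
    refine Finset.sum_le_sum fun i _ => pow_le_pow_left₀ (norm_nonneg _)
      ((norm_sub_le _ _).trans (add_le_add ?_ ?_)) 2
    · have h1 := (BF_bd T.ι (T.fr.orth y) (ev i)).2.2.1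
      rw [norm_ev, mul_one] at h1
      rw [norm_smul, Real.norm_eq_abs]
      exact mul_le_mul_of_nonneg_left (h1.trans (Real.sqrt_le_sqrt (T.d_bd y).2)) (abs_nonneg _)
    · have h1 := (K.TubeL_D c (T.x y)).le_opNorm (ev i)
      rw [norm_ev, mul_one] at h1
      exact h1.trans (hs c _ hy.1 _ (by simpa using hrp.le)).1
  · rw [indicator_of_notMem hy, norm_zero]
    exact Finset.sum_nonneg fun _ _ => sq_nonneg _

theorem TubeL_swap (hΛ : C' ≤ T.Λ) {s : ℝ} (hs : K.TubeL_Bd s) {c : E N} (hc : c ∈ K.cs) :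
    |∫ y, K.TubeL_G c y ∂T.μ - ∫ y, bmp K.R (T.z y - c) * K.TubeL_H c (T.x y) ∂T.μ| ≤
      6 * ((k + 2 : ℕ) * s ^ 2) * ∫ y in T.x ⁻¹' B.Sh, T.U (T.x y) ∂T.μ := by
  obtain ⟨h1, h2, h3, -⟩ := K.TubeL_H_all hΛ hs c
  obtain ⟨Cb, -, hb⟩ := bmp_bd
  obtain ⟨b1, b2, b3, b4, -⟩ := hb K.R K.TubeL_R c
  have hR := K.TubeL_R
  have hx := T.measurable_all.1
  have hm : MeasurableSet (T.x ⁻¹' B.Sh) := hx B.measurable_all.2.2.2.2.2.1.measurableSet
  have hh : 0 ≤ ((k + 2 : ℕ) : ℝ) * s ^ 2 := by positivity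
  have i1 : Integrable (fun y => bmp K.R (T.z y - c) * K.TubeL_H c (T.x y)) T.μ :=
    T.integrable_of_bd ((b1.continuous.measurable.comp T.measurable_all.2.1).mul
      (h1.measurable.comp hx)) (M := 2 * ((k + 2 : ℕ) * s ^ 2)) fun y _ _ => by
      rw [norm_mul, Real.norm_of_nonneg (b2 _).1]
      exact (mul_le_of_le_one_left (norm_nonneg _) (b2 _).2).trans (h2 _)
  have i2 : Integrable (fun y => T.U (T.x y)) T.μ := by
    simpa using T.integrable_cont (g := fun q => T.U q.1) (T.Fu_bd.1.continuous.comp continuous_fst)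
      (f := fun _ => 1) measurable_const (M := 1) (fun _ => by simp)
  rw [← integral_sub (K.TubeL_Gi hΛ hs c) i1, ← integral_const_mul, ← integral_indicator hm]
  refine norm_integral_le_of_norm_le (f := fun y => K.TubeL_G c y -
    bmp K.R (T.z y - c) * K.TubeL_H c (T.x y)) ((i2.const_mul _).indicator hm) ?_
  filter_upwards [K.cover] with y hy
  have hU := T.Fu_bd.2.2.2 (T.x y)
  by_cases h4 : T.x y ∈ B.Sh0
  · have h5 : y ∈ T.x ⁻¹' B.Sh := B.TubeL_sub.1 h4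
    rw [indicator_of_mem h5]
    by_cases h6 : T.U (T.x y) ≤ 1
    · obtain ⟨c', hc', hz⟩ := hy h4 h6
      by_cases h7 : c = c'
      · subst h7
        have h8 : y ∈ K.TubeL_Z c := ⟨h4, h6, hz⟩
        rw [TubeL_G, indicator_of_mem h8, b3 _ hz, ← sub_mul, sub_sub_cancel_left, norm_mul,
          norm_neg, Real.norm_of_nonneg hU.2.1]
        exact (mul_le_mul hU.2.2.2.1 (h2 _) (abs_nonneg _) (by linarith [hU.1])).trans_eq
          (by ring)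
      · have h8 := K.TubeL_far hc hc' h7 hz
        have h9 : y ∉ K.TubeL_Z c := fun h => by linarith [h.2.2]
        rw [TubeL_G, indicator_of_notMem h9, b4 _ (by linarith), zero_mul, sub_zero, norm_zero]
        exact mul_nonneg (by positivity) hU.1
    · have h9 : y ∉ K.TubeL_Z c := fun h => h6 h.2.1
      rw [TubeL_G, indicator_of_notMem h9, zero_sub, norm_neg, norm_mul,
        Real.norm_of_nonneg (b2 _).1]
      refine ((mul_le_of_le_one_left (norm_nonneg _) (b2 _).2).trans (h2 _)).trans ?_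
      nlinarith only [hh, hU, h6, not_le.1 h6]
  · have h9 : y ∉ K.TubeL_Z c := fun h => h4 h.1
    rw [TubeL_G, indicator_of_notMem h9, h3 _ h4, mul_zero, sub_zero, norm_zero]
    exact indicator_nonneg (fun y _ => mul_nonneg (by positivity) (T.Fu_bd.2.2.2 _).1) y

theorem TubeL_main (hΛ : C' ≤ T.Λ) {Cu : ℝ} (hCu : 1 ≤ Cu)
    (hs : K.TubeL_Bd √(Cu * (T.eps * T.M / T.rp ^ (k + 2))))
    (hU : ∫ y in T.x ⁻¹' B.Sh, T.U (T.x y) ∂T.μ ≤ T.rp ^ 2 * T.Λ ^ 40 / T.L) {c : E N}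
    (hc : c ∈ K.cs) : K.θ c * (∫ ξ, K.TubeL_H c ξ) - Cu * (6 * (k + 2 : ℕ) +
      ((8 * C' + 4 * C) * (k + 2 : ℕ) + 4 * ((k + 2 : ℕ) + 2) + 8) * (A * 20 ^ (k + 2)) +
      2 * (k + 2 : ℕ) * 2 ^ (k + 4)) * T.er ≤ ∫ y, K.TubeL_G c y ∂T.μ := by
  obtain ⟨heps, -, -, -, n1, hrp, -, -, n2, n3, n4, -⟩ := T.num
  replace n2 : T.rb ≤ 1 := n2.trans (by norm_num)
  obtain ⟨m1, m2, m3, -⟩ := T.TubeL_num
  have hM := T.M_pos
  have hC := T.C_ge
  have hC' := B.C_ge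
  have hA := T.A_ge
  obtain ⟨h1, h2, h3, h4⟩ := K.TubeL_H_all hΛ hs c
  obtain ⟨Cb, -, hb⟩ := bmp_bd
  obtain ⟨b1, b2, -⟩ := hb K.R K.TubeL_R c
  have a1 := K.TubeL_swap hΛ hs hc
  have hfin : volume B.Sh ≠ ⊤ := ((measure_mono fun v hv => mem_ball_zero_iff.2 hv.1).trans_lt
    (measure_ball_lt_top (x := (0 : E (k + 2))) (r := 2 / 5))).ne
  have a2 := T.TubeL_fub h1 T.num.2.2.2.1 h2 B.measurable_all.2.2.2.2.2.1.measurableSet hfin
    B.TubeL_sub.1 h3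
    (fun ξ ξ' h => (h4 ξ ξ' (h.trans n1)).trans (mul_le_mul_of_nonneg_left h (by positivity)))
    (β := fun y => bmp K.R (T.z y - c)) (b1.continuous.measurable.comp T.measurable_all.2.1)
    (fun y => b2 _) T.num.2.2.1.le (K.near c hc)
  rw [Real.sq_sqrt (by positivity)] at a1 a2
  set a := T.eps * T.M / T.rp ^ (k + 2) with ha
  have ha0 : 0 ≤ a := by positivity
  have hv : (volume B.Sh).toReal ≤ 2 ^ (k + 4) := B.shell_sub.2.2.2.trans
    (mul_le_of_le_one_right (by positivity)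
      (pow_le_one₀ (by linarith only [hrp, n3, n4]) n2))
  have c1 : 6 * ((k + 2 : ℕ) * (Cu * a)) * ∫ y in T.x ⁻¹' B.Sh, T.U (T.x y) ∂T.μ ≤
      Cu * (6 * (k + 2 : ℕ)) * T.er :=
    calc _ ≤ 6 * ((k + 2 : ℕ) * (Cu * a)) * (T.rp ^ 2 * T.Λ ^ 40 / T.L) :=
          mul_le_mul_of_nonneg_left hU (by positivity)
      _ = Cu * (6 * (k + 2 : ℕ)) * (a * (T.rp ^ 2 * T.Λ ^ 40 / T.L)) := by ring
      _ ≤ _ := mul_le_mul_of_nonneg_left m1 (by positivity)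
  have c2 : ((8 * C' + 4 * C) * (k + 2 : ℕ) + 4 * ((k + 2 : ℕ) + 2) + 8) * (Cu * a) / T.rp * T.rq *
      (A * 20 ^ (k + 2)) ≤ Cu * (((8 * C' + 4 * C) * (k + 2 : ℕ) + 4 * ((k + 2 : ℕ) + 2) + 8) *
        (A * 20 ^ (k + 2))) * T.er :=
    calc _ = Cu * (((8 * C' + 4 * C) * (k + 2 : ℕ) + 4 * ((k + 2 : ℕ) + 2) + 8) *
        (A * 20 ^ (k + 2))) * (a * (T.rq / T.rp)) := by ring
      _ ≤ _ := mul_le_mul_of_nonneg_left m2 (by positivity)
  have c3 : 2 * ((k + 2 : ℕ) * (Cu * a)) * T.sm * (volume B.Sh).toReal ≤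
      Cu * (2 * (k + 2 : ℕ) * 2 ^ (k + 4)) * T.er :=
    calc _ ≤ 2 * ((k + 2 : ℕ) * (Cu * a)) * T.sm * 2 ^ (k + 4) :=
          mul_le_mul_of_nonneg_left hv (mul_nonneg (by positivity) T.num.2.2.1.le)
      _ = Cu * (2 * (k + 2 : ℕ) * 2 ^ (k + 4)) * (a * T.sm) := by ring
      _ ≤ _ := mul_le_mul_of_nonneg_left m3 (by positivity)
  linarith only [c1, c2, c3, a1, a2, (abs_le.1 a1).1, (abs_le.1 a2).1]

theorem TubeL_one (hΛ : C' ≤ T.Λ) {t : ℝ} (ht : 1 ≤ t) {c y : E N} (hc : c ∈ K.cs) :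
    (K.θ c)⁻¹ ^ 2 * ((1 - T.Fu (T.x y)) * K.TubeL_H c (T.x y)) - 96 * t * K.TubeL_V c y -
      (T.d y ^ 2 + 4 / t * T.d y) ≤
      B.phi (T.x y) * (1 - T.Fu (T.x y)) * (B.Nr y - T.d y / 2) := by
  have W := (B.weights hΛ).2.2.2.2.2.2.1 (T.x y)
  have hF := T.Fu_bd.2.2.2 (T.x y)
  have hθ : 1 / 4 ≤ K.θ c := (K.θ_bd c hc).1
  have hθ0 : 0 < K.θ c := by linarith only [hθ]
  have hd := (T.d_bd y).1
  set w := B.phi (T.x y) * (1 - T.Fu (T.x y)) with hw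
  have w0 : 0 ≤ w := mul_nonneg W.2.2.2.1 (by linarith only [hF, hF.2.2.1])
  have w2 : w ≤ 2 :=
    (mul_le_of_le_one_right W.2.2.2.1 (by linarith [hF.2.1])).trans W.2.2.2.2.1
  have hu := (B.ur_bd (T.x y) (T.x y)).1
  have f := BF_bd T.ι (T.fr.orth y) (B.ur (T.x y))
  have f1 : ‖T.Bt y (B.ur (T.x y))‖ ^ 2 ≤ B.Nr y := f.1
  have f2 : ∑ i, ‖T.Bt y (ev i)‖ ^ 2 ≤ T.d y := f.2.2.2.1
  have f3 : T.d y ≤ ∑ i, ‖T.Bt y (ev i)‖ ^ 2 + T.d y ^ 2 := f.2.2.2.2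
  have s1 : Tq (T.BL y) (B.ur (T.x y)) - T.d y ^ 2 / 2 ≤ B.Nr y - T.d y / 2 := by
    simp only [Tq, T.BL_apply]
    linarith only [f1, f3]
  have q1 := (Tq_bd (T.BL y) (T.BL y) hu hu ht (K.θ c)).2.2.1
  have q2 := (Tq_bd (K.θ c • T.BL y) (K.TubeL_D c (T.x y)) hu hu ht 1).2.2.2.2.1
  have e1 : ∑ i, ‖(K.θ c • T.BL y) (ev i) - K.TubeL_D c (T.x y) (ev i)‖ ^ 2 = K.TubeL_V c y := by
    simp only [TubeL_V, smul_apply, T.BL_apply]
  have e2 : ∑ i, ‖(K.θ c • T.BL y) (ev i)‖ ^ 2 = K.θ c ^ 2 * ∑ i, ‖T.Bt y (ev i)‖ ^ 2 := by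
    simp only [smul_apply, T.BL_apply, norm_smul, mul_pow, Real.norm_eq_abs, sq_abs,
      Finset.mul_sum]
  rw [q1, e1, e2] at q2
  have hV : 0 ≤ K.TubeL_V c y := Finset.sum_nonneg fun _ _ => sq_nonneg _
  have i1 : (K.θ c)⁻¹ ^ 2 ≤ 16 := by
    have h1 : (K.θ c)⁻¹ ≤ 4 := by
      rw [inv_le_comm₀ hθ0 (by norm_num)]
      linarith only [hθ]
    exact (pow_le_pow_left₀ (by positivity) h1 2).trans (by norm_num)
  have i2 : (K.θ c)⁻¹ ^ 2 * K.θ c ^ 2 = 1 := by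
    rw [← mul_pow, inv_mul_cancel₀ hθ0.ne', one_pow]
  have ht0 : 0 < t := by linarith only [ht]
  have s2 : (K.θ c)⁻¹ ^ 2 * Tq (K.TubeL_D c (T.x y)) (B.ur (T.x y)) -
      (48 * t * K.TubeL_V c y + 2 / t * T.d y) ≤ Tq (T.BL y) (B.ur (T.x y)) := by
    have h1 := mul_le_mul_of_nonneg_left (abs_le.1 q2).1 (sq_nonneg (K.θ c)⁻¹)
    have h2 := mul_le_mul_of_nonneg_right i1 (by positivity : 0 ≤ 3 * t * K.TubeL_V c y)
    have h3 := mul_le_mul_of_nonneg_left f2 (by positivity : 0 ≤ 2 / t)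
    have h4 : (K.θ c)⁻¹ ^ 2 * (K.θ c ^ 2 * Tq (T.BL y) (B.ur (T.x y))) =
        Tq (T.BL y) (B.ur (T.x y)) := by rw [← mul_assoc, i2, one_mul]
    have h5 : (K.θ c)⁻¹ ^ 2 * (2 / t * (K.θ c ^ 2 * ∑ i, ‖T.Bt y (ev i)‖ ^ 2)) =
        2 / t * ∑ i, ‖T.Bt y (ev i)‖ ^ 2 := by
      rw [mul_left_comm, ← mul_assoc ((K.θ c)⁻¹ ^ 2), i2, one_mul]
    rw [mul_neg, mul_add, mul_sub, h4, h5] at h1
    linarith only [h1, h2, h3]
  have s3 := mul_le_mul_of_nonneg_left (le_trans (sub_le_sub_right s2 (T.d y ^ 2 / 2)) s1) w0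
  have s4 := mul_le_mul_of_nonneg_right w2
    (by positivity : 0 ≤ 48 * t * K.TubeL_V c y + 2 / t * T.d y + T.d y ^ 2 / 2)
  have e3 : (K.θ c)⁻¹ ^ 2 * ((1 - T.Fu (T.x y)) * K.TubeL_H c (T.x y)) =
      w * ((K.θ c)⁻¹ ^ 2 * Tq (K.TubeL_D c (T.x y)) (B.ur (T.x y))) := by
    rw [TubeL_H, hw]
    ring
  have e4 : 4 / t * T.d y = 2 * (2 / t * T.d y) := by ring
  rw [e3, e4]
  linarith only [s3, s4]

theorem TubeL_point (hΛ : C' ≤ T.Λ) {t : ℝ} (ht : 1 ≤ t) : ∀ᵐ y ∂T.μ,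
    ∑ c ∈ K.cs, ((K.θ c)⁻¹ ^ 2 * K.TubeL_G c y -
      96 * t * (K.TubeL_Z c).indicator (K.TubeL_V c) y) -
      (T.x ⁻¹' {v | v ∈ B.Sh0 ∧ T.U v ≤ 1}).indicator (fun y => T.d y ^ 2 + 4 / t * T.d y) y ≤
      B.phi (T.x y) * (1 - T.Fu (T.x y)) * (B.Nr y - T.d y / 2) := by
  filter_upwards [K.cover] with y hy
  by_cases h : y ∈ T.x ⁻¹' {v | v ∈ B.Sh0 ∧ T.U v ≤ 1}
  · obtain ⟨c, hc, hz⟩ := hy h.1 h.2
    have h1 : y ∈ K.TubeL_Z c := ⟨h.1, h.2, hz⟩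
    rw [Finset.sum_eq_single_of_mem c hc fun c' hc' hne => ?_, indicator_of_mem h, TubeL_G,
      indicator_of_mem h1, indicator_of_mem h1]
    · exact K.TubeL_one hΛ ht hc
    · have h2 : y ∉ K.TubeL_Z c' := fun h2 => by
        linarith [K.TubeL_far hc' hc hne hz, h2.2.2, K.TubeL_R]
      rw [TubeL_G, indicator_of_notMem h2, indicator_of_notMem h2]
      ring
  · have h1 : B.phi (T.x y) * (1 - T.Fu (T.x y)) = 0 := by
      by_cases h2 : T.x y ∈ B.Sh0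
      · rw [(T.Fu_bd.2.2.2 _).2.2.2.2 (not_le.1 fun h3 => h ⟨h2, h3⟩).le, sub_self, mul_zero]
      · rw [((B.weights hΛ).2.2.2.2.2.2.1 _).2.2.2.2.2.1 h2, zero_mul]
    rw [Finset.sum_eq_zero fun c _ => ?_, indicator_of_notMem h, h1, zero_mul, sub_zero]
    have h2 : y ∉ K.TubeL_Z c := fun h2 => h ⟨h2.1, h2.2.1⟩
    rw [TubeL_G, indicator_of_notMem h2, indicator_of_notMem h2]
    ring

theorem TubeL_int (hΛ : C' ≤ T.Λ) {s : ℝ} (hs : K.TubeL_Bd s) :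
    ∑ c ∈ K.cs, ((K.θ c)⁻¹ ^ 2 * (∫ y, K.TubeL_G c y ∂T.μ) -
      96 * T.Λ ^ 7 * ∫ y in K.TubeL_Z c, K.TubeL_V c y ∂T.μ) -
      ((∫ y in T.x ⁻¹' {v | v ∈ B.Sh0 ∧ T.U v ≤ 1}, T.d y ^ 2 ∂T.μ) + 4 * T.er) ≤
      ∫ y, B.phi (T.x y) * (1 - T.Fu (T.x y)) * (B.Nr y - T.d y / 2) ∂T.μ := by
  have hΛ1 : 1 ≤ T.Λ := by linarith [T.Λ_ge]
  have ht : 1 ≤ T.Λ ^ 7 := one_le_pow₀ hΛ1
  have hx := T.measurable_all.1
  have hd := T.measurable_all.2.2.2.2.1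
  have W := B.weights hΛ
  have hm : MeasurableSet (T.x ⁻¹' {v | v ∈ B.Sh0 ∧ T.U v ≤ 1}) :=
    hx (B.measurable_all.2.2.2.2.1.measurableSet.inter
      (measurableSet_le T.Fu_bd.1.continuous.measurable measurable_const))
  have i1 : ∀ c ∈ K.cs, Integrable (fun y => (K.θ c)⁻¹ ^ 2 * K.TubeL_G c y -
      96 * T.Λ ^ 7 * (K.TubeL_Z c).indicator (K.TubeL_V c) y) T.μ := fun c _ =>
    ((K.TubeL_Gi hΛ hs c).const_mul _).sub ((K.TubeL_Vi hs c).const_mul _)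
  have i2 : Integrable (fun y => T.d y ^ 2) T.μ :=
    T.integrable_of_bd (hd.pow_const 2) (M := (k + 2 : ℕ) ^ 2) fun y _ _ => by
      rw [Real.norm_of_nonneg (sq_nonneg _)]
      exact pow_le_pow_left₀ (T.d_bd y).1 (T.d_bd y).2 2
  have i3 : Integrable (fun y => 4 / T.Λ ^ 7 * T.d y) T.μ := T.integrable_d.const_mul _
  have i4 : Integrable (fun y => T.d y ^ 2 + 4 / T.Λ ^ 7 * T.d y) T.μ := i2.add i3
  have i5 : Integrable (fun y => B.phi (T.x y) * (1 - T.Fu (T.x y)) * (B.Nr y - T.d y / 2)) T.μ := by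
    refine T.integrable_of_bd (((W.2.2.2.2.2.1.continuous.mul
      (continuous_const.sub T.Fu_bd.2.1.continuous)).measurable.comp hx).mul
      (B.measurable_all.2.1.sub (hd.div_const 2))) (M := 2 * (k + 2 : ℕ)) fun y _ _ => ?_
    have h1 := W.2.2.2.2.2.2.1 (T.x y)
    have h2 := T.Fu_bd.2.2.2 (T.x y)
    have h3 := B.Nw_bd y
    have h4 := T.d_bd y
    rw [norm_mul, Real.norm_of_nonneg (mul_nonneg h1.2.2.2.1 (by linarith [h2.2.2.1]))]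
    refine mul_le_mul ((mul_le_of_le_one_right h1.2.2.2.1 (by linarith only [h2, h2.2.1])).trans
      h1.2.2.2.2.1) (abs_le.2 ⟨?_, ?_⟩) (norm_nonneg _) zero_le_two
    · linarith only [h3, h4, h3.2.2.2.1, h4.1, h4.2]
    · linarith only [h3, h4, h3.2.2.2.2.1, h4.1, h4.2]
  have h1 := integral_mono_ae ((integrable_finsetSum _ i1).sub (i4.indicator hm)) i5
    (K.TubeL_point hΛ ht)
  have h2 := integral_sub (integrable_finsetSum _ i1) (i4.indicator hm)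
  rw [integral_finsetSum _ i1, integral_indicator hm,
    integral_add i2.integrableOn i3.integrableOn, integral_const_mul] at h2
  have h3 : 4 / T.Λ ^ 7 * ∫ y in T.x ⁻¹' {v | v ∈ B.Sh0 ∧ T.U v ≤ 1}, T.d y ∂T.μ ≤ 4 * T.er := by
    have h4 : T.DS {v | v ∈ B.Sh0 ∧ T.U v ≤ 1} ≤ T.Λ ^ 7 * T.er :=
      ((T.DS_mono fun v hv => B.TubeL_sub.2.1 (B.TubeL_sub.1 hv.1)).2.trans
        B.shell_sub.2.2.1).trans_eq T.num.2.2.2.2.2.2.2.2.2.2.2.2.2.2.2.2.1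
    refine (mul_le_mul_of_nonneg_left h4 (by positivity)).trans_eq ?_
    field_simp
  have h4 : ∑ c ∈ K.cs, ((K.θ c)⁻¹ ^ 2 * (∫ y, K.TubeL_G c y ∂T.μ) -
      96 * T.Λ ^ 7 * ∫ y in K.TubeL_Z c, K.TubeL_V c y ∂T.μ) = ∑ c ∈ K.cs,
      ∫ y, ((K.θ c)⁻¹ ^ 2 * K.TubeL_G c y -
        96 * T.Λ ^ 7 * (K.TubeL_Z c).indicator (K.TubeL_V c) y) ∂T.μ :=
    Finset.sum_congr rfl fun c _ => by
      rw [integral_sub ((K.TubeL_Gi hΛ hs c).const_mul _) ((K.TubeL_Vi hs c).const_mul _),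
        integral_const_mul, integral_const_mul, integral_indicator (K.TubeL_Zm c)]
  have h5 := h2.symm.trans_le h1
  rw [h4]
  linarith only [h3, h5]

end Cl

/-- Let `P c = (θ c)⁻¹ • D (uc R c rp)` and `h c ξ = phi ξ * Tq (P c ξ) (ur ξ)`.
1. `Nr - d / 2 ≥ Tq (BL y) ur - d² / 2` (`BF_bd`), and the integrand vanishes unless `x ∈ Sh0`,
`U < 1`; `shell_Y`.
2. Almost every such `y` is in exactly one cluster; `Tq_bd` with `t = Λ ^ 7` and `variance` replace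
`BL y` by `P c (x y)`.
3. By `uc_bd`, `|h c| ≤ C eps M / rp ^ m`, and `|h c ξ - h c ξ'| ≤ C eps M ‖ξ - ξ'‖ / rp ^ (m + 1)`
for `‖ξ - ξ'‖ ≤ rp` (`weights`, `ur_bd`, `Tq_bd`). Replacing `(1 - Fu) 1 {‖z - c‖ ≤ R}` by
`bmp R (z - c)` costs `C eps M / rp ^ m * ∫ U dμ` (`mass_U`; the two functions of `z` agree at the
covered points), replacing `h c` by `rho rq * h c` costs `C eps M rq / rp ^ (m + 1)`; then Fubini and
`near`. -/
theorem Cl.convert (k : ℕ) (hk : 1 ≤ k) (N Q : ℕ) (A C C' C'' : ℝ) : ∃ C₁ Λ₀ : ℝ, 1 ≤ C₁ ∧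
    ∀ {T : TI k N Q A C} {B : Tb T C'} (K : Cl B C''), Λ₀ ≤ T.Λ →
    (∑ c ∈ K.cs, (K.θ c)⁻¹ * ∫ ξ, B.phi ξ * Tq (fderiv ℝ (T.uc K.R c T.rp) ξ) (B.ur ξ)) -
        C₁ * (T.Λ ^ 7 * T.RS T.g T.ak B.Sh + T.er) ≤
      ∫ y, B.phi (T.x y) * (1 - T.Fu (T.x y)) * (B.Nr y - T.d y / 2) ∂T.μ := by
  obtain ⟨Cy, Λ₁, y1, hY⟩ := Tb.shell_Y k Q A C C'
  obtain ⟨Λ₂, hU⟩ := Tb.mass_U k Q A C C'
  obtain ⟨Cv, Λ₃, v1, hV⟩ := Cl.variance k hk N Q A C C' C''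
  obtain ⟨Cu, u1, hu⟩ := uc_bd (k + 2) A
  set K₀ : ℝ := Cu * (6 * (k + 2 : ℕ) +
      ((8 * C' + 4 * C) * (k + 2 : ℕ) + 4 * ((k + 2 : ℕ) + 2) + 8) * (A * 20 ^ (k + 2)) +
      2 * (k + 2 : ℕ) * 2 ^ (k + 4)) with hK₀
  refine ⟨max 1 (C'' * (16 * K₀ + 96 * Cv) + (Cy + 4)), max (max Λ₁ Λ₂) (max Λ₃ C'),
    le_max_left _ _, fun {T B} K hΛ => ?_⟩
  simp only [max_le_iff] at hΛ
  obtain ⟨⟨l1, l2⟩, l3, l4⟩ := hΛ
  have hs := K.TubeL_bd u1 fun R c s ξ a1 a2 a3 a4 => (hu T.toFlat R c s ξ a1 a2 a3 a4).2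
  have hC := T.C_ge
  have hC' := B.C_ge
  have hA := T.A_ge
  have her : 0 < T.er := T.num.2.1
  have hK : 0 ≤ K₀ := by positivity
  have ht : 1 ≤ T.Λ ^ 7 := one_le_pow₀ (by linarith only [l4, hC', T.Λ_ge])
  have y2 := (hY B l1).2.2
  have hRS : 0 ≤ T.RS T.g T.ak B.Sh := nonneg_of_mul_nonneg_right
    ((integral_nonneg fun y => sq_nonneg _).trans y2) (by linarith)
  set X := T.Λ ^ 7 * T.RS T.g T.ak B.Sh + T.er with hX
  have x1 : T.RS T.g T.ak B.Sh ≤ T.Λ ^ 7 * T.RS T.g T.ak B.Sh := le_mul_of_one_le_left hRS ht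
  have x2 : T.er ≤ X := by linarith
  have x0 : 0 ≤ X := by linarith
  have h1 : ∀ c ∈ K.cs, (K.θ c)⁻¹ * (∫ ξ, K.TubeL_H c ξ) - (16 * K₀ + 96 * Cv) * X ≤
      (K.θ c)⁻¹ ^ 2 * (∫ y, K.TubeL_G c y ∂T.μ) -
        96 * T.Λ ^ 7 * ∫ y in K.TubeL_Z c, K.TubeL_V c y ∂T.μ := fun c hc => by
    have hθ0 : 0 < K.θ c := by linarith only [(K.θ_bd c hc).1]
    have a1 := mul_le_mul_of_nonneg_left (K.TubeL_main l4 u1 hs (hU B l2).1 hc)
      (sq_nonneg (K.θ c)⁻¹)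
    have i1 : (K.θ c)⁻¹ ^ 2 ≤ 16 := by
      have h1 : (K.θ c)⁻¹ ≤ 4 := by
        rw [inv_le_comm₀ hθ0 (by norm_num)]
        linarith only [(K.θ_bd c hc).1]
      exact (pow_le_pow_left₀ (by positivity) h1 2).trans (by norm_num)
    have e1 : (K.θ c)⁻¹ ^ 2 * (K.θ c * ∫ ξ, K.TubeL_H c ξ) = (K.θ c)⁻¹ * ∫ ξ, K.TubeL_H c ξ := by
      field_simp
    rw [← hK₀, mul_sub, e1] at a1
    have a2 := mul_le_mul i1 (mul_le_mul_of_nonneg_left x2 hK) (by positivity) (by norm_num)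
    have a3 : ∫ y in K.TubeL_Z c, K.TubeL_V c y ∂T.μ ≤ _ := hV K l3 c hc
    have a4 := mul_le_mul_of_nonneg_left a3 (by positivity : 0 ≤ 96 * T.Λ ^ 7)
    have a5 := mul_le_mul_of_nonneg_left T.TubeL_num.2.2.2.1 (by positivity : 0 ≤ 96 * Cv)
    rw [hX] at a2 ⊢
    linarith only [a1, a2, a4, a5]
  have h2 := Finset.sum_le_sum h1
  rw [Finset.sum_sub_distrib, Finset.sum_const, nsmul_eq_mul] at h2
  have h3 := K.TubeL_int l4 hs
  have h4 := mul_le_mul_of_nonneg_right K.card (by positivity : 0 ≤ (16 * K₀ + 96 * Cv) * X)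
  have h5 := mul_le_mul_of_nonneg_right
    (le_max_right 1 (C'' * (16 * K₀ + 96 * Cv) + (Cy + 4))) x0
  have h6 := mul_le_mul_of_nonneg_left (show T.RS T.g T.ak B.Sh ≤ X by linarith only [her, x1])
    (by linarith : 0 ≤ Cy)
  change (∑ c ∈ K.cs, (K.θ c)⁻¹ * ∫ ξ, K.TubeL_H c ξ) - _ ≤ _
  linarith only [y2, hRS, x1, h2, h3, h4, h5, h6]

end Pool.Agent.MP_f6c0e6_an.Gen

end
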