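import Pool.Agent.MP_f6c0e6_an.All.FlatB

section

/-! Isotropy at one point and its superposition. -/

set_option autoImplicit false

open MeasureTheory Filter Topology Set Metric
open scoped ENNReal RealInnerProductSpace

namespace Pool.Agent.MP_f6c0e6_an.Gen

variable {m N : ℕ}

theorem TubeG_hat {a b : ℝ} (ha : 0 < a) (hab : a ≤ b) (v : E m) : ∃ h : ℝ, 0 ≤ h ∧
    (∀ u, fderiv ℝ (Gt a b) v u = -h * ⟪v, u⟫) ∧
    h * ‖v‖ ^ 2 = m * Gt a b v - rho a v + rho b v := by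
  have hc := cg_pos m
  have H : ∀ u, fderiv ℝ (Gt a b) v u = -(∫ s in Real.log a..Real.log b,
      8 * (max (1 - ‖v‖ ^ 2 / Real.exp s ^ 2) 0) ^ 3 / (cg m * Real.exp s ^ m) / Real.exp s ^ 2) *
        ⟪v, u⟫ := by
    intro u
    rw [KernB_fd1 ha hab]
    beta_reduce
    rw [ContinuousLinearMap.intervalIntegral_apply
      ((KernB_slice KernB_rho1.continuous v).intervalIntegrable _ _),
      ← intervalIntegral.integral_neg, ← intervalIntegral.integral_mul_const]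
    refine intervalIntegral.integral_congr fun s _ => ?_
    simp only [fderiv_rho (Real.exp_pos s)]
    ring
  refine ⟨_, intervalIntegral.integral_nonneg (Real.log_le_log ha hab) fun s _ => by positivity,
    H, ?_⟩
  have h1 := dv_Gt ha hab v
  rw [KernB_dv ((contDiff_Gm ha hab).2.differentiable (by norm_num) v), H v,
    real_inner_self_eq_norm_sq] at h1
  linarith

/-- the test field -/
noncomputable def TubeG_X (t : E m) (a b : ℝ) (v : E m) : E m :=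
  (⟪t, v⟫ * Gm a b v) • t + (1 / 2 * (⟪t, v⟫ * ⟪t, v⟫) * Gt a b v) • v

theorem TubeG_X_smooth (t : E m) {a b : ℝ} (ha : 0 < a) (hab : a ≤ b) :
    ContDiff ℝ 1 (TubeG_X t a b) := by
  have h1 : ContDiff ℝ 1 fun v : E m => ⟪t, v⟫ := (innerSL ℝ t).contDiff
  have h2 : ContDiff ℝ 1 (Gm a b : E m → ℝ) := (contDiff_Gm ha hab).1.of_le (by norm_num)
  have h3 : ContDiff ℝ 1 (Gt a b : E m → ℝ) := (contDiff_Gm ha hab).2.of_le (by norm_num)
  exact ((h1.mul h2).smul contDiff_const).add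
    (((contDiff_const.mul (h1.mul h1)).mul h3).smul contDiff_id)

theorem TubeG_X_deriv (t : E m) {a b : ℝ} (ha : 0 < a) (hab : a ≤ b) (v : E m) {h : ℝ}
    (hh : ∀ u, fderiv ℝ (Gt a b) v u = -h * ⟪v, u⟫) (u : E m) :
    fderiv ℝ (TubeG_X t a b) v u =
      (Gm a b v * ⟪t, u⟫ - ⟪t, v⟫ * Gt a b v * ⟪v, u⟫) • t +
      (⟪t, v⟫ * Gt a b v * ⟪t, u⟫ - 1 / 2 * ⟪t, v⟫ ^ 2 * h * ⟪v, u⟫) • v +
      (1 / 2 * ⟪t, v⟫ ^ 2 * Gt a b v) • u := by
  have h1 : HasFDerivAt (fun v : E m => ⟪t, v⟫) (innerSL ℝ t) v := (innerSL ℝ t).hasFDerivAt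
  have h2 := ((contDiff_Gm ha hab).1.differentiable (by norm_num) v).hasFDerivAt
  have h3 := ((contDiff_Gm ha hab).2.differentiable (by norm_num) v).hasFDerivAt
  have h4 : HasFDerivAt (TubeG_X t a b) _ v := ((h1.fun_mul h2).smul_const t).fun_add
    ((((h1.fun_mul h1).const_mul (1 / 2)).fun_mul h3).fun_smul (hasFDerivAt_id v))
  rw [h4.fderiv]
  simp only [add_apply, ContinuousLinearMap.smulRight_apply,
    smul_apply, innerSL_apply_apply, smul_eq_mul, hh, fderiv_Gm ha hab,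
    ContinuousLinearMap.id_apply]
  module

theorem TubeG_trace (Bf : E m → E m → ℝ) (hadd : ∀ u v w, Bf u (v + w) = Bf u v + Bf u w)
    (hsmul : ∀ (c : ℝ) u v, Bf u (c • v) = c * Bf u v)
    (hsum : ∀ w p, ∑ i, ⟪w, ev i⟫ * Bf (ev i) p = Bf w p) (t v : E m) (α β γ ε : ℝ) :
    ∑ i, Bf (ev i) ((α * ⟪t, ev i⟫ - β * ⟪v, ev i⟫) • t + (β * ⟪t, ev i⟫ - γ * ⟪v, ev i⟫) • v +
      ε • ev i) =
      α * Bf t t - β * Bf v t + β * Bf t v - γ * Bf v v + ε * ∑ i, Bf (ev i) (ev i) := by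
  rw [← hsum t t, ← hsum v t, ← hsum t v, ← hsum v v]
  simp only [hadd, hsmul, Finset.mul_sum, ← Finset.sum_add_distrib, ← Finset.sum_sub_distrib]
  exact Finset.sum_congr rfl fun i _ => by ring

theorem TubeG_sum_inner (w p : E m) : ∑ i, ⟪w, ev i⟫ * ⟪ev i, p⟫ = ⟪w, p⟫ := by
  rw [← sum_inner_ev w p]
  exact Finset.sum_congr rfl fun i _ => by rw [real_inner_comm]

theorem TubeG_sum_NF (ι : E m →ₗᵢ[ℝ] E N) (s : Fin m → E N) (w p : E m) :
    ∑ i, ⟪w, ev i⟫ * NF ι s (ev i) p = NF ι s w p := by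
  simp only [NF, mul_sub, Finset.sum_sub_distrib, TubeG_sum_inner, Finset.mul_sum]
  congr 1
  rw [Finset.sum_comm]
  refine Finset.sum_congr rfl fun l _ => ?_
  rw [real_inner_comm w, ← TubeG_sum_inner w (pr ι (s l)), Finset.sum_mul]
  exact Finset.sum_congr rfl fun i _ => by rw [real_inner_comm (ev i) (pr ι (s l)), mul_assoc]

theorem TubeG_dv (t : E m) (ht : ‖t‖ = 1) {a b : ℝ} (ha : 0 < a) (hab : a ≤ b) (v : E m) :
    ∑ i, ⟪ev i, fderiv ℝ (TubeG_X t a b) v (ev i)⟫ =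
      Gm a b v + 1 / 2 * (⟪t, v⟫ ^ 2 * rho a v) - 1 / 2 * (⟪t, v⟫ ^ 2 * rho b v) := by
  obtain ⟨h, -, h1, h2⟩ := TubeG_hat ha hab v
  simp only [TubeG_X_deriv t ha hab v h1]
  rw [TubeG_trace (fun u v => ⟪u, v⟫) (fun u v w => inner_add_right _ _ _)
    (fun c u v => real_inner_smul_right _ _ _) TubeG_sum_inner]
  simp only [norm_ev, real_inner_self_eq_norm_sq, ht, Finset.sum_const, Finset.card_univ,
    Fintype.card_fin, nsmul_eq_mul, real_inner_comm t v]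
  linear_combination (-1 / 2 * ⟪t, v⟫ ^ 2) * h2

theorem TubeG_ND (ι : E m →ₗᵢ[ℝ] E N) {s : Fin m → E N} (hs : Orthonormal ℝ s) (t : E m)
    (ht : ‖t‖ = 1) {a b : ℝ} (ha : 0 < a) (hab : a ≤ b) (v : E m) :
    Gm a b v * NF ι s t t - m / 2 * (Gt a b v * NF ι s v v) - 1 / 2 * (rho b v * NF ι s v v) ≤
      ∑ i, NF ι s (ev i) (fderiv ℝ (TubeG_X t a b) v (ev i)) := by
  obtain ⟨h, h0, h1, h2⟩ := TubeG_hat ha hab v
  simp only [TubeG_X_deriv t ha hab v h1]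
  rw [TubeG_trace (NF ι s)
    (fun u v w => by rw [NF_symm, NF_add, NF_symm ι s v, NF_symm ι s w])
    (fun c u v => by rw [NF_symm, NF_smul, NF_symm]) (TubeG_sum_NF ι s), NF_trace_ev ι hs,
    NF_symm ι s v t]
  have k0 := (NF_bd ι hs v v).1
  have k1 : ⟪t, v⟫ ^ 2 ≤ ‖v‖ ^ 2 := by
    have := abs_real_inner_le_norm t v
    rw [ht, one_mul] at this
    exact sq_le_sq' (abs_le.1 this).1 (abs_le.1 this).2
  have k2 : ⟪t, v⟫ ^ 2 * (h * NF ι s v v) ≤ ‖v‖ ^ 2 * (h * NF ι s v v) :=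
    mul_le_mul_of_nonneg_right k1 (mul_nonneg h0 k0)
  have k3 : 0 ≤ ⟪t, v⟫ ^ 2 * Gt a b v * tlt ι s :=
    mul_nonneg (mul_nonneg (sq_nonneg _) (Gm_nonneg ha hab v).2) (tlt_bd ι hs).1
  have k4 : 0 ≤ rho a v * NF ι s v v := mul_nonneg (rho_nonneg ha v) k0
  have k5 : h * ‖v‖ ^ 2 * NF ι s v v = (m * Gt a b v - rho a v + rho b v) * NF ι s v v := by
    rw [h2]
  linarith

theorem TubeG_lin {X : Type} [MeasurableSpace X] {ν : Measure X} {f g h k : X → ℝ}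
    (hf : Integrable f ν) (hg : Integrable g ν) (hh : Integrable h ν) (hk : Integrable k ν)
    (a b c d : ℝ) : Integrable (fun x => a * f x + b * g x + c * h x + d * k x) ν ∧
    ∫ x, (a * f x + b * g x + c * h x + d * k x) ∂ν =
      a * ∫ x, f x ∂ν + b * ∫ x, g x ∂ν + c * ∫ x, h x ∂ν + d * ∫ x, k x ∂ν := by
  have h1 : Integrable (fun x => a * f x + b * g x) ν := (hf.const_mul a).add (hg.const_mul b)
  have h2 : Integrable (fun x => a * f x + b * g x + c * h x) ν := h1.add (hh.const_mul c)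
  refine ⟨h2.add (hk.const_mul d), ?_⟩
  rw [integral_add h2 (hk.const_mul d), integral_add h1 (hh.const_mul c),
    integral_add (hf.const_mul a) (hg.const_mul b)]
  simp only [integral_const_mul]

theorem TubeG_far {s x : E m} {r : ℝ} (hx : r + ‖s‖ ≤ ‖x‖) : r ≤ ‖x - s‖ := by
  linarith [norm_sub_norm_le x s]

namespace Flat

variable {Q : ℕ} {A : ℝ} (F : Flat m N Q A)

theorem TubeG_intN {g : E m → ℝ} {u : E m → E m} (hg : Continuous g) (hu : Continuous u) :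
    Integrable (fun y => g (F.x y) * F.NN y (u (F.x y)) (u (F.x y))) F.μ := by
  have e : (fun y => g (F.x y) * F.NN y (u (F.x y)) (u (F.x y))) = fun y => ∑ i, ∑ j,
      F.NN y (ev i) (ev j) • (fun q : E m × E N => g q.1 * (u q.1 i * u q.1 j)) (F.x y, F.z y) := by
    funext y
    unfold NN
    rw [NF_expand, Finset.mul_sum]
    refine Finset.sum_congr rfl fun i _ => ?_
    rw [Finset.mul_sum]
    exact Finset.sum_congr rfl fun j _ => by simp only [smul_eq_mul]; ring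
  rw [e]
  refine integrable_finsetSum _ fun i _ => integrable_finsetSum _ fun j _ => ?_
  refine F.integrable_cont (g := fun q : E m × E N => g q.1 * (u q.1 i * u q.1 j)) (by fun_prop)
    (F.measurable_all.2.2.2.2.2.1 _ _ measurable_const measurable_const) (M := m) fun y => ?_
  have := (NF_bd F.ι (F.fr.orth y) (ev i) (ev j)).2.2.2.1
  rw [norm_ev, norm_ev, mul_one, mul_one] at this
  exact this.trans (F.d_bd y).2

theorem TubeG_intx {g : E m → ℝ} (hg : Continuous g) : Integrable (fun y => g (F.x y)) F.μ := by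
  simpa using F.integrable_cont (g := fun q => g q.1) (by fun_prop)
    (f := fun _ => (1 : ℝ)) measurable_const (M := 1) fun _ => by simp

theorem TubeG_intd {g : E m → ℝ} (hg : Continuous g) :
    Integrable (fun y => g (F.x y) * F.d y) F.μ := by
  simpa only [smul_eq_mul, mul_comm] using F.integrable_cont (g := fun q => g q.1) (by fun_prop)
    F.measurable_all.2.2.2.2.1 (M := m) fun y => by
      rw [abs_of_nonneg (F.d_bd y).1]
      exact (F.d_bd y).2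

theorem TubeG_iso (s t : E m) (ht : ‖t‖ = 1) {a b : ℝ}
    (ha : 0 < a) (hab : a ≤ b) (h : ‖s‖ + b < 10) :
    ∫ y, Gm a b (F.x y - s) * (F.NN y t t - F.d y / 2) ∂F.μ ≤
      ((m : ℝ) - 1) / 2 * F.Y (fun v => Gm a b (v - s)) +
        |F.Y fun v => ⟪t, v - s⟫ ^ 2 * rho b (v - s)| / 4 + m / 2 * F.Phi s b + F.nn s b / 2 +
        a ^ 2 * ((m + 1) * Q + (m + 1) * ∫ y, rho a (F.x y - s) ∂F.μ) := by
  have hb : 0 < b := ha.trans_le hab
  have cs : Continuous fun x : E m => x - s := continuous_id.sub continuous_const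
  have hz : ∀ x, x ∉ closedBall s b → TubeG_X t a b (x - s) = 0 := fun x hx => by
    rw [mem_closedBall, dist_eq_norm, not_le] at hx
    simp [TubeG_X, (Gm_eq_zero ha hab hx.le).1, (Gm_eq_zero ha hab hx.le).2]
  have hX : Test 1 (fun x => TubeG_X t a b (x - s)) (ball 0 10) :=
    ⟨(TubeG_X_smooth t ha hab).comp (contDiff_id.sub contDiff_const),
      HasCompactSupport.intro (isCompact_closedBall s b) hz,
      (closure_minimal (Function.support_subset_iff'.2 hz) isClosed_closedBall).trans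
        (closedBall_subset_ball' (by rw [dist_zero_right]; linarith))⟩
  have cG : Continuous fun x : E m => Gm a b (x - s) := (contDiff_Gm ha hab).1.continuous.comp cs
  have cT : Continuous fun x : E m => Gt a b (x - s) := (contDiff_Gm ha hab).2.continuous.comp cs
  have cr : ∀ r : ℝ, Continuous fun x : E m => rho r (x - s) := fun r =>
    (contDiff_rho r).continuous.comp cs
  have cq : ∀ r : ℝ, Continuous fun x : E m => ⟪t, x - s⟫ ^ 2 * rho r (x - s) := fun r =>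
    ((continuous_const.inner cs).pow 2).mul (cr r)
  have aG : Adm fun x : E m => Gm a b (x - s) :=
    Adm.of_cont cG fun x hx => (Gm_eq_zero ha hab (TubeG_far hx)).1
  have aq : ∀ r : ℝ, 0 < r → Adm fun x : E m => ⟪t, x - s⟫ ^ 2 * rho r (x - s) := fun r hr =>
    Adm.of_cont (cq r) fun x hx => by rw [rho_eq_zero hr (TubeG_far hx), mul_zero]
  have e0 := F.ee_dv hX
  have e1 : dv (fun x => TubeG_X t a b (x - s)) = fun x => Gm a b (x - s) +
      1 / 2 * (⟪t, x - s⟫ ^ 2 * rho a (x - s)) - 1 / 2 * (⟪t, x - s⟫ ^ 2 * rho b (x - s)) := by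
    funext x
    rw [← TubeG_dv t ht ha hab, dv, fderiv_comp_sub]
  rw [e1, (F.lin_sub (aG.add ((aq a ha).const_mul _)) ((aq b hb).const_mul _)).2.1,
    (F.lin_add aG ((aq a ha).const_mul _)).2.1, (F.lin_smul _ _).2.1, (F.lin_smul _ _).2.1] at e0
  have i0 : Integrable (fun y => F.ND y (fderiv ℝ (fun x => TubeG_X t a b (x - s)) (F.x y)))
      F.μ := by
    have c1 := hX.smooth.continuous_fderiv (by norm_num)
    obtain ⟨K, hK⟩ := c1.bounded_above_of_compact_support (hX.cpt.fderiv ℝ)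
    refine F.integrable_of_bd (F.measurable_all.2.2.2.2.2.2.2 _ fun i =>
      (c1.clm_apply continuous_const).measurable.comp F.measurable_all.1) (M := m * m * K)
      fun y _ _ => (abs_sum_NF_le F.ι (F.fr.orth y) _).trans ?_
    exact mul_le_mul (mul_le_mul_of_nonneg_left (F.d_bd y).2 (Nat.cast_nonneg m)) (hK _)
      (norm_nonneg _) (by positivity)
  have i1 := F.TubeG_intN cG (continuous_const (y := t))
  have i2 := F.TubeG_intN cT cs
  have i3 := F.TubeG_intN (cr b) cs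
  have i4 := F.TubeG_intd cG
  obtain ⟨i5, i6⟩ := TubeG_lin i1 i2 i3 i3 1 (-(m / 2)) (-(1 / 2)) 0
  have k1 := integral_mono i5 i0 fun y => by
    have := TubeG_ND F.ι (F.fr.orth y) t ht ha hab (F.x y - s)
    beta_reduce
    rw [fderiv_comp_sub]
    unfold ND NN
    linarith
  rw [i6, ← e0] at k1
  obtain ⟨n1, n2, n3⟩ := F.integral_nn s ha hab h
  rw [n1, n2] at n3
  rw [← n3] at k1
  have k2 : ∫ y, Gm a b (F.x y - s) * (F.NN y t t - F.d y / 2) ∂F.μ =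
      ∫ y, Gm a b (F.x y - s) * F.NN y t t ∂F.μ - 1 / 2 * F.DD fun v => Gm a b (v - s) := by
    unfold DD
    rw [← integral_const_mul, ← integral_sub i1 (i4.const_mul _)]
    exact integral_congr_ae (ae_of_all _ fun y => by ring)
  have k3 : 0 ≤ F.DD fun x => ⟪t, x - s⟫ ^ 2 * rho b (x - s) :=
    F.DD_nonneg fun x => mul_nonneg (sq_nonneg _) (rho_nonneg hb _)
  have hQ : (0 : ℝ) ≤ Q := Nat.cast_nonneg Q
  have hm : (0 : ℝ) ≤ m := Nat.cast_nonneg m
  have k4 : F.ee (fun x => ⟪t, x - s⟫ ^ 2 * rho a (x - s)) ≤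
      a ^ 2 * ∫ y, rho a (F.x y - s) ∂F.μ := by
    unfold ee
    have h1 : 0 ≤ (Q : ℝ) * ∫ x, ⟪t, x - s⟫ ^ 2 * rho a (x - s) :=
      mul_nonneg hQ (integral_nonneg fun x => mul_nonneg (sq_nonneg _) (rho_nonneg ha _))
    have h2 : ∫ y, ⟪t, F.x y - s⟫ ^ 2 * rho a (F.x y - s) ∂F.μ ≤
        ∫ y, a ^ 2 * rho a (F.x y - s) ∂F.μ :=
      integral_mono (F.TubeG_intx (cq a)) ((F.TubeG_intx (cr a)).const_mul _) fun y => by
        show ⟪t, F.x y - s⟫ ^ 2 * rho a (F.x y - s) ≤ a ^ 2 * rho a (F.x y - s)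
        rcases le_total a ‖F.x y - s‖ with h3 | h3
        · rw [rho_eq_zero ha h3, mul_zero, mul_zero]
        · have h4 := abs_real_inner_le_norm t (F.x y - s)
          rw [ht, one_mul] at h4
          have h5 := abs_le.1 (h4.trans h3)
          exact mul_le_mul_of_nonneg_right (sq_le_sq' h5.1 h5.2) (rho_nonneg ha _)
    rw [integral_const_mul] at h2
    linarith
  have k5 : -F.Phi s a ≤ Q * a ^ 2 := by
    unfold Phi ee
    have h1 : 0 ≤ ∫ y, pk a (F.x y - s) ∂F.μ := integral_nonneg fun y => pk_nonneg ha _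
    have h2 : ∫ x, pk a (x - s) ≤ ∫ x, a ^ 2 / 10 * rho a (x - s) :=
      integral_mono_of_nonneg (ae_of_all _ fun x => pk_nonneg ha _)
        ((Adm.of_cont (cr a) fun x hx => rho_eq_zero ha (TubeG_far hx)).integrable.const_mul _)
        (ae_of_all _ fun x => (pk_le ha _).1)
    rw [integral_const_mul, integral_rho ha, mul_one] at h2
    have h3 := mul_le_mul_of_nonneg_left (h2.trans (by linarith [sq_nonneg a] :
      a ^ 2 / 10 ≤ a ^ 2)) hQ
    linarith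
  have k6 : 0 ≤ a ^ 2 * ∫ y, rho a (F.x y - s) ∂F.μ :=
    mul_nonneg (sq_nonneg a) (integral_nonneg fun y => rho_nonneg ha _)
  have k7 := mul_le_mul_of_nonneg_left k5 hm
  have k8 := mul_nonneg hm k6
  have k9 : 0 ≤ (Q : ℝ) * a ^ 2 := by positivity
  have k10 := mul_nonneg hm k9
  have k11 := le_abs_self (F.Y fun v => ⟪t, v - s⟫ ^ 2 * rho b (v - s))
  have d1 : F.Y (fun v => Gm a b (v - s)) =
    F.DD (fun v => Gm a b (v - s)) - 2 * F.ee fun v => Gm a b (v - s) := rfl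
  have d2 : F.Y (fun v => ⟪t, v - s⟫ ^ 2 * rho b (v - s)) =
    F.DD (fun v => ⟪t, v - s⟫ ^ 2 * rho b (v - s)) -
      2 * F.ee fun v => ⟪t, v - s⟫ ^ 2 * rho b (v - s) := rfl
  have d3 : F.nn s b =
    ∫ y, rho b (F.x y - s) * F.NN y (F.x y - s) (F.x y - s) ∂F.μ := rfl
  rw [k2, d3]
  linarith

theorem TubeG_fub {φ : E m → ℝ} (iφ : Integrable φ) {H : E m → E N → ℝ}
    (mH : Measurable fun q : E m × E N => H q.1 q.2) {B : ℝ} (hB : ∀ s y, |H s y| ≤ B) :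
    Integrable (fun s => φ s * ∫ y, H s y ∂F.μ) ∧
      Integrable (fun y => ∫ s, φ s * H s y) F.μ ∧
      ∫ y, (∫ s, φ s * H s y) ∂F.μ = ∫ s, φ s * ∫ y, H s y ∂F.μ := by
  have h : Integrable (fun q : E m × E N => φ q.1 * H q.1 q.2) (volume.prod F.μ) :=
    (iφ.comp_fst F.μ).mul_bdd mH.aestronglyMeasurable (ae_of_all _ fun q => hB q.1 q.2)
  refine ⟨by simpa only [integral_const_mul] using h.integral_prod_left, h.integral_prod_right, ?_⟩
  rw [← integral_integral_swap (f := fun s y => φ s * H s y) h]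
  simp only [integral_const_mul]

/-- superposition of the inequalities at the points `s` with the weight `φ` -/
theorem TubeG_int {φ : E m → ℝ} {u : E m → E m} (aφ : Adm φ)
    (pφ : ∀ s, 0 ≤ φ s) (mu : Measurable u) (bu : ∀ s, ‖u s‖ ≤ 1) {b R₀ : ℝ}
    (h : ∀ s, φ s ≠ 0 → ‖u s‖ = 1 ∧ ‖s‖ + b < 10 ∧
      |F.Y fun v => ⟪u s, v - s⟫ ^ 2 * rho b (v - s)| / 4 + m / 2 * F.Phi s b + F.nn s b / 2 ≤ R₀) :
    ∃ K : ℝ, 0 ≤ K ∧ ∀ a, 0 < a → a ≤ b →
      Integrable (fun y => ∫ s, φ s * (Gm a b (F.x y - s) * (F.NN y (u s) (u s) - F.d y / 2)))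
        F.μ ∧ Adm (fun x => ∫ s, φ s * Gm a b (x - s)) ∧
      ∫ y, (∫ s, φ s * (Gm a b (F.x y - s) * (F.NN y (u s) (u s) - F.d y / 2))) ∂F.μ ≤
        ((m : ℝ) - 1) / 2 * F.Y (fun x => ∫ s, φ s * Gm a b (x - s)) + R₀ * (∫ s, φ s) +
          a ^ 2 * K := by
  have iφ := aφ.integrable
  obtain ⟨mφ, R, bφ, zφ⟩ := id aφ
  have hR : 0 ≤ R := (abs_nonneg _).trans (bφ 0)
  have hI : 0 ≤ ∫ s, φ s := integral_nonneg pφ
  refine ⟨(m + 1) * Q * (∫ s, φ s) + (m + 1) * (F.μ.real univ * R), by positivity,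
    fun a ha hab => ?_⟩
  have cG : Continuous (Gm a b : E m → ℝ) := (contDiff_Gm ha hab).1.continuous
  obtain ⟨-, BG, hBG, -⟩ := Adm.of_cont cG fun x hx => (Gm_eq_zero ha hab hx).1
  obtain ⟨mx, -, ma, -, md, -⟩ := F.measurable_all
  have mxs : Measurable fun q : E m × E N => F.x q.2 - q.1 :=
    (mx.comp measurable_snd).sub measurable_fst
  have mN : Measurable fun q : E m × E N => F.NN q.2 (u q.1) (u q.1) := by
    have h1 : Measurable fun q : E m × E N => u q.1 := mu.comp measurable_fst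
    exact (h1.inner h1).sub (Finset.measurable_sum _ fun l _ =>
      (((ma l).comp measurable_snd).inner h1).mul (((ma l).comp measurable_snd).inner h1))
  obtain ⟨f1, f2, f3⟩ := F.TubeG_fub iφ
    (H := fun s y => Gm a b (F.x y - s) * (F.NN y (u s) (u s) - F.d y / 2))
    ((cG.measurable.comp mxs).mul (mN.sub ((md.comp measurable_snd).div_const 2))) (B := BG * m)
    fun s y => by
      rw [abs_mul]
      refine mul_le_mul (hBG _) ?_ (abs_nonneg _) ((abs_nonneg _).trans (hBG 0))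
      obtain ⟨h1, h2, -⟩ := NF_bd F.ι (F.fr.orth y) (u s) (u s)
      obtain ⟨h3, h4⟩ := F.d_bd y
      have h5 : F.d y * ‖u s‖ ^ 2 ≤ F.d y :=
        mul_le_of_le_one_right h3 (pow_le_one₀ (norm_nonneg _) (bu s))
      have h6 : F.NN y (u s) (u s) ≤ F.d y := h2.trans h5
      have h7 : 0 ≤ F.NN y (u s) (u s) := h1
      exact abs_le.2 ⟨by linarith, by linarith⟩
  obtain ⟨g1, g2, g3⟩ := F.TubeG_fub iφ (H := fun s y => rho a (F.x y - s))
    ((contDiff_rho a).continuous.measurable.comp mxs) (B := 1 / (cg m * a ^ m)) fun s y => by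
      rw [abs_of_nonneg (rho_nonneg ha _)]
      exact rho_le ha _
  have g4 : ∫ s, φ s * ∫ y, rho a (F.x y - s) ∂F.μ ≤ F.μ.real univ * R := by
    rw [← g3, ← smul_eq_mul, ← integral_const]
    refine integral_mono g2 (integrable_const _) fun y => ?_
    have c1 : Continuous fun s : E m => rho a (s - F.x y) :=
      (contDiff_rho a).continuous.comp (continuous_id.sub continuous_const)
    have h1 : ∫ s, φ s * rho a (F.x y - s) ≤ ∫ s, R * rho a (s - F.x y) :=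
      integral_mono_of_nonneg (ae_of_all _ fun s => mul_nonneg (pφ s) (rho_nonneg ha _))
        ((Adm.of_cont c1 fun x hx => rho_eq_zero ha (TubeG_far hx)).integrable.const_mul _)
        (ae_of_all _ fun s => by
          show φ s * rho a (F.x y - s) ≤ R * rho a (s - F.x y)
          rw [← rho_neg, neg_sub]
          exact mul_le_mul_of_nonneg_right ((le_abs_self _).trans (bφ s)) (rho_nonneg ha _))
    rwa [integral_const_mul, integral_rho ha, mul_one] at h1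
  obtain ⟨l1, -, -, l2, -, -, l3⟩ := F.lin_integral volume
    (f := fun s x => φ s * Gm a b (x - s))
    ((mφ.comp measurable_fst).mul (cG.measurable.comp (measurable_snd.sub measurable_fst)))
    (iφ.mul_const BG) (fun s x => by
      rw [abs_mul, abs_of_nonneg (pφ s)]
      exact mul_le_mul_of_nonneg_left (hBG _) (pφ s)) (R := b + R) fun s x hx => by
      rcases le_total R ‖s‖ with h1 | h1
      · rw [zφ s h1, zero_mul]
      · rw [(Gm_eq_zero ha hab (TubeG_far (by linarith))).1, mul_zero]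
  refine ⟨f2, l1, ?_⟩
  obtain ⟨i5, i6⟩ := TubeG_lin l2 iφ iφ g1 (((m : ℝ) - 1) / 2) R₀ (a ^ 2 * ((m + 1) * Q))
    (a ^ 2 * (m + 1))
  have k1 := integral_mono f1 i5 fun s => by
    beta_reduce
    rw [(F.lin_smul _ _).2.2]
    by_cases h0 : φ s = 0
    · simp [h0]
    · obtain ⟨h1, h2, h3⟩ := h s h0
      have h4 := mul_le_mul_of_nonneg_left (F.TubeG_iso s (u s) h1 ha hab h2) (pφ s)
      have h5 := mul_le_mul_of_nonneg_left h3 (pφ s)
      linarith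
  rw [i6, ← l3, ← f3] at k1
  have k2 := mul_le_mul_of_nonneg_left g4 (by positivity : 0 ≤ a ^ 2 * ((m : ℝ) + 1))
  linarith

end Flat

end Pool.Agent.MP_f6c0e6_an.Gen

end

section

/-! The local mean of the heights in a cluster. -/

set_option autoImplicit false

open MeasureTheory Filter Topology Set Metric
open scoped ENNReal RealInnerProductSpace

namespace Pool.Agent.MP_f6c0e6_an.Gen

variable {m N : ℕ}

/-- the height relative to `c`, cut off at the distance `4 R` -/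
noncomputable def zc (R : ℝ) (c z : E N) : E N := bmp (2 * R) (z - c) • (z - c)

theorem TubeJ_fz {G : Type} [NormedAddCommGroup G] [NormedSpace ℝ G] {g : E m → G}
    (hg : ContDiff ℝ 1 g) {c : E m} {r : ℝ} (hr : 0 < r) (h0 : ∀ v, r ≤ ‖v - c‖ → g v = 0) :
    ∀ v, r ≤ ‖v - c‖ → fderiv ℝ g v = 0 := by
  have h1 : (closedBall c r)ᶜ ⊆ {v | fderiv ℝ g v = 0} := fun v hv => by
    have h2 : g =ᶠ[𝓝 v] fun _ => 0 := by
      filter_upwards [isClosed_closedBall.isOpen_compl.mem_nhds hv] with w hw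
      exact h0 w (not_le.1 (mt mem_closedBall_iff_norm.2 hw)).le
    show fderiv ℝ g v = 0
    rw [h2.fderiv_eq, fderiv_fun_const, Pi.zero_apply]
  have h3 := closure_minimal h1 (isClosed_eq (hg.continuous_fderiv one_ne_zero) continuous_const)
  rw [closure_compl, interior_closedBall c hr.ne'] at h3
  exact fun v hv => h3 fun h => absurd (mem_ball_iff_norm.1 h) (not_lt.2 hv)

theorem TubeJ_test {G : Type} [NormedAddCommGroup G] [NormedSpace ℝ G] {k : ℕ} {g : E m → G}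
    (hg : ContDiff ℝ k g) {c : E m} {r : ℝ} (h0 : ∀ v, r ≤ ‖v - c‖ → g v = 0)
    (h : ‖c‖ + r < 10) : Test k g (ball 0 10) := by
  have hz : ∀ x, x ∉ closedBall c r → g x = 0 := fun x hx =>
    h0 x (not_le.1 (mt mem_closedBall_iff_norm.2 hx)).le
  have hs : tsupport g ⊆ closedBall c r :=
    closure_minimal (fun x hx => by_contra fun h => hx (hz x h)) isClosed_closedBall
  exact ⟨hg, HasCompactSupport.intro (isCompact_closedBall _ _) hz,
    hs.trans (closedBall_subset_ball' (by rw [dist_zero_right]; linarith))⟩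

theorem TubeJ_zc {R : ℝ} (hR : 0 < R) (c : E N) : ContDiff ℝ 3 (zc R c) := by
  obtain ⟨C, -, h⟩ := bmp_bd
  exact (h (2 * R) (by positivity) c).2.2.2.2.2.1

theorem TubeJ_lap {g : E m → ℝ} (hg : ContDiff ℝ 3 g) (e x : E m) :
    lap (fun v => fderiv ℝ g v e) x = fderiv ℝ (lap g) x e := by
  have h2 : ContDiff ℝ 2 g := hg.of_le (by norm_num)
  have hh : ∀ u, ContDiff ℝ 2 fun v => fderiv ℝ g v u := fun u =>
    (hg.fderiv_right (m := 2) (by norm_num)).clm_apply contDiff_const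
  have sy : ∀ {f : E m → ℝ}, ContDiff ℝ 2 f → ∀ y u v,
      fderiv ℝ (fderiv ℝ f) y u v = fderiv ℝ (fderiv ℝ f) y v u := fun hf y u v =>
    (hf.contDiffAt.isSymmSndFDerivAt (by simp)).eq u v
  have e1 : ∀ u, (fun y => fderiv ℝ (fderiv ℝ g) y u u) =
      fun y => fderiv ℝ (fun v => fderiv ℝ g v u) y u := fun u =>
    funext fun y => ((Conv_fd2 h2 u).2 y u).symm
  have e2 : ∀ u, (fun y => fderiv ℝ (fun v => fderiv ℝ g v e) y u) =
      fun y => fderiv ℝ (fun v => fderiv ℝ g v u) y e := fun u =>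
    funext fun y => by rw [(Conv_fd2 h2 e).2, (Conv_fd2 h2 u).2, sy h2]
  have e3 : lap g = fun y => ∑ i, fderiv ℝ (fderiv ℝ g) y (ev i) (ev i) := rfl
  rw [e3, fderiv_fun_sum fun i _ => by
    rw [e1]
    exact (Conv_fd2 (hh _) _).1.differentiable one_ne_zero x, sum_apply, lap]
  refine Finset.sum_congr rfl fun i _ => ?_
  rw [e1, (Conv_fd2 (hh _) _).2, ← (Conv_fd2 (hh e) _).2, e2, (Conv_fd2 (hh _) _).2, sy (hh _)]

theorem TubeJ_shift (g : E m → ℝ) (ξ x : E m) :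
    fderiv ℝ (fderiv ℝ fun v => g (v - ξ)) x = fderiv ℝ (fderiv ℝ g) (x - ξ) := by
  have e : (fderiv ℝ fun v => g (v - ξ)) = fun v => fderiv ℝ g (v - ξ) :=
    funext fun v => fderiv_comp_sub ξ
  rw [e]
  exact fderiv_comp_sub ξ

theorem TubeJ_hess {W : E m → E m} (hW : ContDiff ℝ 2 W) (e x : E m) :
    ‖fderiv ℝ (fderiv ℝ fun v => ⟪e, W v⟫) x‖ ≤ ‖e‖ * ‖fderiv ℝ (fderiv ℝ W) x‖ := by
  have hg : ContDiff ℝ 2 fun z => ⟪e, W z⟫ := (innerSL ℝ e).contDiff.comp hW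
  have d1 : ∀ z v, fderiv ℝ (fun z => ⟪e, W z⟫) z v = ⟪e, fderiv ℝ W z v⟫ := fun z v => by
    have h1 : HasFDerivAt (fun z => ⟪e, W z⟫) _ z :=
      (innerSL ℝ e).hasFDerivAt.comp z (hW.differentiable two_ne_zero z).hasFDerivAt
    rw [h1.fderiv]
    rfl
  refine ContinuousLinearMap.opNorm_le_bound₂ _
    (mul_nonneg (norm_nonneg _) (ContinuousLinearMap.opNorm_nonneg _)) fun u v => ?_
  rw [← (Conv_fd2 hg v).2]
  simp only [d1]
  have h1 : HasFDerivAt (fun z => ⟪e, fderiv ℝ W z v⟫) _ x :=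
    (innerSL ℝ e).hasFDerivAt.comp x ((Conv_fd2 hW v).1.differentiable one_ne_zero x).hasFDerivAt
  rw [h1.fderiv]
  show ‖⟪e, fderiv ℝ (fun z => fderiv ℝ W z v) x u⟫‖ ≤ _
  rw [(Conv_fd2 hW v).2]
  refine (norm_inner_le_norm _ _).trans ?_
  rw [mul_assoc, mul_assoc]
  refine mul_le_mul_of_nonneg_left ?_ (norm_nonneg _)
  rw [← mul_assoc]
  exact ContinuousLinearMap.le_opNorm₂ _ _ _

namespace Flat

variable {Q : ℕ} {A : ℝ} (F : Flat m N Q A)

/-- the local mean at the scale `s` -/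
noncomputable def uc (R : ℝ) (c : E N) (s : ℝ) (ξ : E m) : E N :=
  ∫ y, rho s (F.x y - ξ) • zc R c (F.z y) ∂F.μ

/-- the source -/
noncomputable def sg (R : ℝ) (c : E N) (y : E N) : E N :=
  ∑ l, fderiv ℝ (fderiv ℝ (zc R c)) (F.z y) (F.b l y) (F.b l y)

/-- the slope as a linear map -/
noncomputable def BL (y : E N) : E m →L[ℝ] E N := ∑ l, (innerSL ℝ (F.a l y)).smulRight (F.b l y)

theorem BL_apply (y : E N) (u : E m) : F.BL y u = F.Bt y u := by
  rw [BL, sum_apply]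
  rfl

theorem TubeJ_i1 {k : E m → ℝ} (hk : Continuous k) {f : E N → E N} (hf : Continuous f) :
    Integrable (fun y => k (F.x y) • f (F.z y)) F.μ := by
  simpa using F.FlatB_smul (g := fun q => k q.1 • f q.2)
    ((hk.comp continuous_fst).smul (hf.comp continuous_snd)) (integrable_const 1)

theorem TubeJ_i2 {k : E m → ℝ} (hk : Continuous k) {f : E N → E N} (hf : ContDiff ℝ 1 f)
    (e : E m) : Integrable (fun y => k (F.x y) • fderiv ℝ f (F.z y) (F.Bt y e)) F.μ :=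
  F.FlatB_app (g := fun q => k q.1 • fderiv ℝ f q.2) ((hk.comp continuous_fst).smul
    ((hf.continuous_fderiv one_ne_zero).comp continuous_snd))
    (F.FlatB_iBt (V := fun _ => e) continuous_const)

theorem TubeJ_i3 {V : E m → E m} (hV : Continuous V) {f : E N → E N} (hf : Continuous f)
    (e : E m) : Integrable (fun y => F.NN y e (V (F.x y)) • f (F.z y)) F.μ := by
  refine F.FlatB_smul (g := fun q => f q.2) (hf.comp continuous_snd) ?_
  obtain ⟨-, C, hC0, hC⟩ := F.FlatB_bd (g := fun q => V q.1) (hV.comp continuous_fst)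
  refine Integrable.of_bound (F.measurable_all.2.2.2.2.2.1 _ _ measurable_const
    (hV.comp F.FlatB_cx).measurable).aestronglyMeasurable (m * ‖e‖ * C) ?_
  filter_upwards [hC] with y hy
  refine (NF_bd F.ι (F.fr.orth y) _ _).2.2.2.1.trans ?_
  exact mul_le_mul (mul_le_mul_of_nonneg_right (F.d_bd y).2 (norm_nonneg _)) hy (norm_nonneg _)
    (by positivity)

theorem TubeJ_iNH {ψ : E m → ℝ} (hψ : ContDiff ℝ 2 ψ) (hc : HasCompactSupport ψ)
    {f : E N → E N} (hf : Continuous f) : Integrable (fun y => F.NH ψ y • f (F.z y)) F.μ := by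
  obtain ⟨a0, hb⟩ := exists_Bd2 hψ hc
  obtain ⟨mx, -, -, -, -, mN, -⟩ := F.measurable_all
  have c2 : Continuous (fderiv ℝ (fderiv ℝ ψ)) :=
    (hψ.fderiv_right (m := 1) (by norm_num)).continuous_fderiv (by norm_num)
  refine F.integrable_cont (g := fun q => f q.2) (hf.comp continuous_snd) (f := F.NH ψ) ?_
    (M := m ^ 2 * m * a0) fun y => (F.abs_NH_le ψ y).trans ?_
  · refine Finset.measurable_sum _ fun i _ => Finset.measurable_sum _ fun j _ => ?_
    exact (mN _ _ measurable_const measurable_const).mul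
      ((((c2.clm_apply continuous_const).clm_apply continuous_const).measurable).comp mx)
  · obtain ⟨d0, d1⟩ := F.d_bd y
    exact mul_le_mul (mul_le_mul_of_nonneg_left d1 (by positivity)) (hb.b2 _)
      (ContinuousLinearMap.opNorm_nonneg _) (by positivity)

theorem TubeJ_ND (k : E m → ℝ) (x e : E m) (y : E N) :
    F.ND y ((fderiv ℝ k x).smulRight e) = F.NN y e (gradient k x) := by
  have h : ∀ u, F.NN y e u = ⟪u, FlatA_L F.ι (fun l => F.fr.s l y) e⟫ := fun u => by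
    rw [← FlatA_NF, NF_symm]
    rfl
  have h' : ∀ u v, F.NN y u v = ⟪u, FlatA_L F.ι (fun l => F.fr.s l y) v⟫ := fun u v =>
    FlatA_NF _ _ _ _
  rw [h, FlatB_grad, sum_inner, ND]
  refine Finset.sum_congr rfl fun i _ => ?_
  rw [h', ContinuousLinearMap.smulRight_apply, map_smul, real_inner_smul_left,
    real_inner_smul_right]

theorem TubeJ_h {k : E m → ℝ} (hk : Test 1 k (ball 0 10)) {f : E N → E N} (hf : ContDiff ℝ 1 f)
    (e : E m) : -∫ y, fderiv ℝ k (F.x y) e • f (F.z y) ∂F.μ =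
      (∫ y, k (F.x y) • fderiv ℝ f (F.z y) (F.Bt y e) ∂F.μ) -
        ∫ y, F.NN y e (gradient k (F.x y)) • f (F.z y) ∂F.μ := by
  have hk1 : ContDiff ℝ 1 k := hk.smooth
  have hsub : tsupport (fun x => k x • e) ⊆ tsupport k := tsupport_smul_subset_left _ _
  have hV : Test 1 (fun x => k x • e) (ball 0 10) :=
    ⟨hk1.smul contDiff_const, hk.cpt.isCompact.of_isClosed_subset (isClosed_tsupport _) hsub,
      hsub.trans hk.supp⟩
  have h1 := F.fv_h hV hf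
  have hd : ∀ x, DifferentiableAt ℝ k x := hk1.differentiable one_ne_zero
  have e1 : ∀ x, dv (fun x => k x • e) x = fderiv ℝ k x e := fun x => by
    rw [dv_smul (hd x) (differentiableAt_const e)]
    simp [dv]
  have e2 : ∀ x, fderiv ℝ (fun x => k x • e) x = (fderiv ℝ k x).smulRight e := fun x =>
    ((hd x).hasFDerivAt.smul_const e).fderiv
  have e3 : ∀ y (t : ℝ), F.Bt y (t • e) = t • F.Bt y e := fun y t => BF_smul _ _ _ _
  simp only [e1, e2, TubeJ_ND, e3, map_smul, sub_smul] at h1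
  rw [integral_sub (F.TubeJ_i1 (Conv_cf hk1 e) hf.continuous)
    (F.TubeJ_i3 (FlatB_grad1 hk1) hf.continuous e)] at h1
  rw [sub_eq_iff_eq_add.1 h1]
  abel

theorem TubeJ_isq : Integrable (fun y => √(F.d y)) F.μ :=
  F.integrable_of_bd F.measurable_all.2.2.2.2.1.sqrt (M := √m) fun y _ _ => by
    rw [Real.norm_of_nonneg (Real.sqrt_nonneg _)]
    exact Real.sqrt_le_sqrt (F.d_bd y).2

theorem TubeJ_bd {k : E m → ℝ} (hk : ContDiff ℝ 1 k) {ξ : E m} {r : ℝ} (hr : 0 < r)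
    (h0 : ∀ v, r ≤ ‖v - ξ‖ → k v = 0) (hξ : ‖ξ‖ + r < 10) {k0 k1 : ℝ} (b0 : ∀ x, ‖k x‖ ≤ k0)
    (b1 : ∀ x, ‖fderiv ℝ k x‖ ≤ k1) {f : E N → E N} (hf : ContDiff ℝ 1 f) {f0 f1 : ℝ}
    (c0 : ∀ z, ‖f z‖ ≤ f0) (c1 : ∀ z, ‖fderiv ℝ f z‖ ≤ f1) (e : E m) :
    ‖∫ y, fderiv ℝ k (F.x y) e • f (F.z y) ∂F.μ‖ ≤
      (k0 * f1 * (∫ y in F.x ⁻¹' closedBall ξ r, √(F.d y) ∂F.μ) +
        k1 * f0 * F.DS (closedBall ξ r)) * ‖e‖ := by
  have hZ : MeasurableSet (F.x ⁻¹' closedBall ξ r) :=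
    F.FlatB_cx.measurable measurableSet_closedBall
  have p0 : 0 ≤ k0 := (norm_nonneg _).trans (b0 0)
  have p1 : 0 ≤ k1 := (norm_nonneg _).trans (b1 0)
  have q1 : 0 ≤ f1 := (norm_nonneg _).trans (c1 0)
  have far : ∀ y, y ∉ F.x ⁻¹' closedBall ξ r → r ≤ ‖F.x y - ξ‖ := fun y hy =>
    (not_le.1 (mt mem_closedBall_iff_norm.2 hy)).le
  rw [← norm_neg, F.TubeJ_h (TubeJ_test (k := 1) hk h0 hξ) hf e]
  have t1 : ‖∫ y, k (F.x y) • fderiv ℝ f (F.z y) (F.Bt y e) ∂F.μ‖ ≤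
      k0 * f1 * ‖e‖ * ∫ y in F.x ⁻¹' closedBall ξ r, √(F.d y) ∂F.μ := by
    rw [← integral_const_mul, ← integral_indicator hZ]
    refine norm_integral_le_of_norm_le ((F.TubeJ_isq.const_mul _).indicator hZ)
      (Eventually.of_forall fun y => ?_)
    by_cases hy : y ∈ F.x ⁻¹' closedBall ξ r
    · rw [indicator_of_mem hy, norm_smul]
      have a1 : ‖F.Bt y e‖ ≤ √(F.d y) * ‖e‖ := (BF_bd F.ι (F.fr.orth y) e).2.2.1
      have a2 := ((fderiv ℝ f (F.z y)).le_opNorm (F.Bt y e)).trans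
        (mul_le_mul (c1 _) a1 (norm_nonneg _) q1)
      exact (mul_le_mul (b0 _) a2 (norm_nonneg _) p0).trans (le_of_eq (by ring))
    · rw [indicator_of_notMem hy, h0 _ (far y hy), zero_smul, norm_zero]
  have t2 : ‖∫ y, F.NN y e (gradient k (F.x y)) • f (F.z y) ∂F.μ‖ ≤
      k1 * f0 * ‖e‖ * F.DS (closedBall ξ r) := by
    rw [DS, ← integral_const_mul, ← integral_indicator hZ]
    refine norm_integral_le_of_norm_le ((F.integrable_d.const_mul _).indicator hZ)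
      (Eventually.of_forall fun y => ?_)
    have a1 : |F.NN y e (gradient k (F.x y))| ≤ F.d y * ‖e‖ * ‖gradient k (F.x y)‖ :=
      (NF_bd F.ι (F.fr.orth y) _ _).2.2.2.1
    rw [gradient, LinearIsometryEquiv.norm_map, ← gradient] at a1
    have d0 := (F.d_bd y).1
    by_cases hy : y ∈ F.x ⁻¹' closedBall ξ r
    · rw [indicator_of_mem hy, norm_smul, Real.norm_eq_abs]
      have a2 := a1.trans (mul_le_mul_of_nonneg_left (b1 _) (by positivity))
      exact (mul_le_mul a2 (c0 _) (norm_nonneg _) (by positivity)).trans (le_of_eq (by ring))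
    · rw [TubeJ_fz hk hr h0 _ (far y hy), norm_zero, mul_zero] at a1
      rw [indicator_of_notMem hy, abs_nonpos_iff.1 a1, zero_smul, norm_zero]
  exact (norm_sub_le _ _).trans ((add_le_add t1 t2).trans (le_of_eq (by ring)))

theorem TubeJ_cs (ξ : E m) {r : ℝ} (hr : F.τ ≤ r) :
    F.DS (closedBall ξ r) ≤ m * ∫ y in F.x ⁻¹' closedBall ξ r, √(F.d y) ∂F.μ ∧
    0 ≤ ∫ y in F.x ⁻¹' closedBall ξ r, √(F.d y) ∂F.μ ∧
    (∫ y in F.x ⁻¹' closedBall ξ r, √(F.d y) ∂F.μ) ^ 2 ≤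
      A * 2 ^ m * r ^ m * F.DS (closedBall ξ r) := by
  have hZ : MeasurableSet (F.x ⁻¹' closedBall ξ r) :=
    F.FlatB_cx.measurable measurableSet_closedBall
  have n0 : 0 ≤ ∫ y in F.x ⁻¹' closedBall ξ r, √(F.d y) ∂F.μ :=
    integral_nonneg fun y => Real.sqrt_nonneg _
  have n1 := (F.DS_mono (subset_refl (closedBall ξ r))).1
  refine ⟨?_, n0, ?_⟩
  · rw [DS, ← integral_const_mul]
    refine integral_mono F.integrable_d.restrict (F.TubeJ_isq.const_mul _).restrict fun y => ?_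
    obtain ⟨d0, d1⟩ := F.d_bd y
    have h1 : √(F.d y) ≤ m := by
      refine Real.sqrt_le_iff.2 ⟨Nat.cast_nonneg m, d1.trans ?_⟩
      exact_mod_cast Nat.le_self_pow two_ne_zero m
    have h2 := Real.mul_self_sqrt d0
    have h3 := mul_le_mul_of_nonneg_right h1 (Real.sqrt_nonneg (F.d y))
    show F.d y ≤ m * √(F.d y)
    linarith only [h2, h3]
  · have h0 : ∫ y in F.x ⁻¹' closedBall ξ r, √(F.d y) ∂F.μ ≤
        √((F.μ (F.x ⁻¹' closedBall ξ r)).toReal * F.DS (closedBall ξ r)) := F.integral_sqrt_d hZ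
    have h1 := pow_le_pow_left₀ n0 h0 2
    rw [Real.sq_sqrt (mul_nonneg ENNReal.toReal_nonneg n1)] at h1
    exact h1.trans (mul_le_mul_of_nonneg_right (F.mass_ball ξ hr) n1)

/-- `conv_meas` and `fv_h` for the field `rho s (· - ξ) • e` -/
theorem uc_grad {R : ℝ} (hR : 0 < R) (c : E N) {s : ℝ} (hs : 0 < s) :
    ContDiff ℝ 2 (F.uc R c s) ∧ ∀ ξ e : E m,
      fderiv ℝ (F.uc R c s) ξ e = -∫ y, fderiv ℝ (rho s) (F.x y - ξ) e • zc R c (F.z y) ∂F.μ ∧
      (‖ξ‖ + s < 10 → fderiv ℝ (F.uc R c s) ξ e =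
        (∫ y, rho s (F.x y - ξ) • fderiv ℝ (zc R c) (F.z y) (F.Bt y e) ∂F.μ) -
          ∫ y, F.NN y e (gradient (rho s) (F.x y - ξ)) • zc R c (F.z y) ∂F.μ) := by
  have hz := TubeJ_zc hR c
  have h2 : ContDiff ℝ 2 (rho s : E m → ℝ) := (contDiff_rho s).of_le (by norm_num)
  obtain ⟨a0, hb⟩ := exists_Bd2 h2 (Conv_rho hs)
  have iw : Integrable (fun y => zc R c (F.z y)) F.μ := by
    simpa using F.TubeJ_i1 (k := fun _ => 1) continuous_const hz.continuous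
  obtain ⟨k1, k2, -⟩ := conv_meas F.μ F.measurable_all.1 iw h2 hb
  refine ⟨k1, fun ξ e => ⟨k2 ξ e, fun hξ => (k2 ξ e).trans ?_⟩⟩
  have hk : ContDiff ℝ 1 fun v : E m => rho s (v - ξ) :=
    (h2.of_le one_le_two).comp (contDiff_id.sub contDiff_const)
  have h3 := F.TubeJ_h (TubeJ_test (k := 1) hk (fun v hv => rho_eq_zero hs hv) hξ)
    (hz.of_le (by norm_num)) e
  simpa only [gradient, fderiv_comp_sub] using h3

/-- Fubini -/
theorem DS_avg {s : ℝ} (hs : 0 < s) {Z : Set (E m)} (hZ : MeasurableSet Z)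
    (hb : Bornology.IsBounded Z) :
    IntegrableOn (fun ξ => F.DS (closedBall ξ s)) Z ∧
      ∫ ξ in Z, F.DS (closedBall ξ s) ≤ 2 ^ m * s ^ m * F.DS (cthickening s Z) := by
  have hx := F.FlatB_cx.measurable
  have hW : MeasurableSet (F.x ⁻¹' cthickening s Z) := hx isClosed_cthickening.measurableSet
  set U : Set (E m × E N) := {q | F.x q.2 ∈ closedBall q.1 s} with hU
  have mU : MeasurableSet U :=
    measurableSet_le ((hx.comp measurable_snd).dist measurable_fst) measurable_const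
  have : IsFiniteMeasure ((volume : Measure (E m)).restrict Z) :=
    isFiniteMeasure_restrict.2 hb.measure_lt_top.ne
  obtain ⟨a1, a2⟩ := FlatB_fub ((volume : Measure (E m)).restrict Z) F.μ
    (f := fun ξ y => U.indicator (fun q => F.d q.2) (ξ, y))
    ((F.measurable_all.2.2.2.2.1.comp measurable_snd).indicator mU) (integrable_const (1 : ℝ))
    F.integrable_d fun ξ y => by
      rw [one_mul]
      by_cases c : (ξ, y) ∈ U
      · rw [indicator_of_mem c, abs_of_nonneg (F.d_bd y).1]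
      · rw [indicator_of_notMem c, abs_zero]
        exact (F.d_bd y).1
  have h1 : ∀ ξ, F.DS (closedBall ξ s) = ∫ y, U.indicator (fun q => F.d q.2) (ξ, y) ∂F.μ :=
    fun ξ => by
    rw [DS, ← integral_indicator (hx measurableSet_closedBall)]
    rfl
  simp only [h1]
  refine ⟨a1, ?_⟩
  rw [← a2, DS, ← integral_const_mul, ← integral_indicator hW]
  refine (Real.le_norm_self _).trans (norm_integral_le_of_norm_le
    ((F.integrable_d.const_mul _).indicator hW) (Eventually.of_forall fun y => ?_))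
  have e1 : (fun ξ => U.indicator (fun q => F.d q.2) (ξ, y)) =
      (closedBall (F.x y) s).indicator fun _ => F.d y := funext fun ξ => by
    by_cases c : (ξ, y) ∈ U
    · rw [indicator_of_mem c, indicator_of_mem (mem_closedBall_comm.1 c)]
    · rw [indicator_of_notMem c, indicator_of_notMem fun h => c (mem_closedBall_comm.1 h)]
  rw [e1, integral_indicator measurableSet_closedBall, setIntegral_const, smul_eq_mul,
    norm_mul, Real.norm_of_nonneg (F.d_bd y).1, Real.norm_of_nonneg measureReal_nonneg,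
    measureReal_restrict_apply measurableSet_closedBall]
  by_cases c0 : y ∈ F.x ⁻¹' cthickening s Z
  · rw [indicator_of_mem c0]
    refine mul_le_mul_of_nonneg_right ?_ (F.d_bd y).1
    exact (measureReal_mono inter_subset_left measure_closedBall_lt_top.ne).trans
      (volume_ball_le _ hs.le).1
  · have e2 : closedBall (F.x y) s ∩ Z = ∅ := eq_empty_of_forall_notMem fun ξ h =>
      c0 (mem_cthickening_of_dist_le _ _ _ _ h.2 (mem_closedBall_comm.1 h.1))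
    rw [indicator_of_notMem c0, e2, measureReal_empty, zero_mul]

end Flat

theorem sg_bd : ∃ C : ℝ, 1 ≤ C ∧ ∀ {m N Q : ℕ} {A : ℝ} (F : Flat m N Q A) (R : ℝ) (c : E N),
    0 < R → ContDiff ℝ 3 (zc R c) ∧ Bd2 (zc R c) (4 * R) C (C / R) ∧
      (∀ z, ‖z - c‖ ≤ 2 * R → ∀ v, fderiv ℝ (zc R c) z v = v) ∧
      (∀ z, 4 * R ≤ ‖z - c‖ → fderiv ℝ (zc R c) z = 0) ∧
      Measurable (F.sg R c) ∧ Integrable (F.sg R c) F.μ ∧ ∀ y, ‖F.sg R c y‖ ≤ C / R * F.d y := by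
  obtain ⟨C, hC, h⟩ := bmp_bd
  refine ⟨C, hC, fun {m N Q A} F R c hR => ?_⟩
  obtain ⟨-, -, -, hz, -, h3, hb, h1⟩ := h (2 * R) (by positivity) c
  have h3' : ContDiff ℝ 3 (zc R c) := h3
  have b2 : ∀ z, ‖fderiv ℝ (fderiv ℝ (zc R c)) z‖ ≤ C / R := fun z =>
    (hb.b2 z).trans (div_le_div_of_nonneg_left (by linarith) hR (by linarith))
  have c2 : Continuous (fderiv ℝ (fderiv ℝ (zc R c))) :=
    (h3'.fderiv_right (m := 2) (by norm_num)).continuous_fderiv two_ne_zero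
  have c3 : Continuous fun q : E N × E N => fderiv ℝ (fderiv ℝ (zc R c)) q.1 q.2 q.2 :=
    ((c2.comp continuous_fst).clm_apply continuous_snd).clm_apply continuous_snd
  have ms : Measurable (F.sg R c) := Finset.measurable_sum _ fun l _ =>
    c3.measurable.comp (F.measurable_all.2.1.prodMk (F.measurable_all.2.2.2.1 l))
  have k1 : ∀ y, ‖F.sg R c y‖ ≤ C / R * F.d y := fun y => by
    refine (norm_sum_le _ _).trans ?_
    have e : F.d y = ∑ l, ‖F.b l y‖ ^ 2 := rfl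
    rw [e, Finset.mul_sum]
    refine Finset.sum_le_sum fun l _ => (ContinuousLinearMap.le_opNorm₂ _ _ _).trans ?_
    rw [mul_assoc, ← sq]
    exact mul_le_mul_of_nonneg_right (b2 _) (sq_nonneg _)
  refine ⟨h3', ⟨fun z => (hb.b0 z).trans (le_of_eq (by ring)), hb.b1, b2⟩, h1,
    TubeJ_fz (h3'.of_le (by norm_num)) (by positivity) fun v hv => ?_, ms,
    (F.integrable_d.const_mul (C / R)).mono' ms.aestronglyMeasurable (Eventually.of_forall k1), k1⟩
  rw [zc, hz _ (by linarith), zero_smul]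

theorem TubeJ_sq {X K I D B t m : ℝ} (hX : 0 ≤ X) (hK : 0 ≤ K) (ht : t ≤ 1) (hD0 : 0 ≤ D)
    (h : X ≤ K * (I + t * D)) (hD : D ≤ m * I) (hI : I ^ 2 ≤ B) :
    X ^ 2 ≤ K ^ 2 * (1 + m) ^ 2 * B := by
  have h1 : t * D ≤ m * I := (mul_le_of_le_one_left hD0 ht).trans hD
  have h2 : X ≤ K * ((1 + m) * I) := h.trans (mul_le_mul_of_nonneg_left (by linarith) hK)
  have h3 := pow_le_pow_left₀ hX h2 2
  rw [mul_pow, mul_pow, ← mul_assoc] at h3
  exact h3.trans (mul_le_mul_of_nonneg_left hI (by positivity))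

theorem TubeJ_mv {G : Type} [NormedAddCommGroup G] [NormedSpace ℝ G] {g : E m → G}
    (hg : Differentiable ℝ g) {K : ℝ} (h : ∀ x, ‖fderiv ℝ g x‖ ≤ K) (x ξ ξ' : E m) :
    ‖g (x - ξ) - g (x - ξ')‖ ≤ K * ‖ξ' - ξ‖ := by
  have h1 := convex_univ.norm_image_sub_le_of_norm_fderiv_le (𝕜 := ℝ) (f := g)
    (fun x _ => hg x) (fun x _ => h x) (mem_univ (x - ξ')) (mem_univ (x - ξ))
  rwa [sub_sub_sub_cancel_left] at h1

theorem TubeJ_one (m : ℕ) : ∃ C : ℝ, 1 ≤ C ∧ ∀ {N Q : ℕ} {A : ℝ} (F : Flat m N Q A) (R : ℝ)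
    (c : E N) (s : ℝ) (ξ : E m), 0 < R → 0 < s → ‖ξ‖ + 2 * s < 10 →
    ‖fderiv ℝ (F.uc R c s) ξ‖ ≤ C / s ^ m * ((∫ y in F.x ⁻¹' closedBall ξ s, √(F.d y) ∂F.μ) +
      R / s * F.DS (closedBall ξ s)) ∧
    ∀ ξ', ‖ξ' - ξ‖ ≤ s → ‖fderiv ℝ (F.uc R c s) ξ - fderiv ℝ (F.uc R c s) ξ'‖ ≤
      C / s ^ m * (‖ξ' - ξ‖ / s) * ((∫ y in F.x ⁻¹' closedBall ξ (2 * s), √(F.d y) ∂F.μ) +
        R / s * F.DS (closedBall ξ (2 * s))) := by
  obtain ⟨C1, hC1, h1⟩ := rho_bd m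
  obtain ⟨C2, hC2, h2⟩ := sg_bd
  refine ⟨4 * C1 * C2, by nlinarith only [hC1, hC2], fun {N Q A} F R c s ξ hR hs hξ => ?_⟩
  obtain ⟨z3, zb, -⟩ := h2 F R c hR
  have z1 : ContDiff ℝ 1 (zc R c) := z3.of_le (by norm_num)
  have r3 := contDiff_rho (m := m) s
  have hk : ∀ η : E m, ContDiff ℝ 1 fun v : E m => rho s (v - η) := fun η =>
    (r3.of_le (by norm_num)).comp (contDiff_id.sub contDiff_const)
  have nI : ∀ r, 0 ≤ ∫ y in F.x ⁻¹' closedBall ξ r, √(F.d y) ∂F.μ := fun r =>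
    integral_nonneg fun y => Real.sqrt_nonneg _
  have nD : ∀ r, 0 ≤ F.DS (closedBall ξ r) := fun r => (F.DS_mono (subset_refl _)).1
  have fin : ∀ I D t : ℝ, 0 ≤ I → 0 ≤ D → 0 ≤ t →
      C1 / s ^ m * t * C2 * I + C1 / s ^ (m + 1) * t * (4 * R) * D ≤
        4 * C1 * C2 / s ^ m * t * (I + R / s * D) := fun I D t hI hD ht => by
    have a1 : 0 ≤ C1 / s ^ m * t * C2 * I := by positivity
    have a2 : 0 ≤ C1 / s ^ m * t * (R / s * D) * (C2 - 1) :=
      mul_nonneg (by positivity) (by linarith only [hC2])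
    have e : 4 * C1 * C2 / s ^ m * t * (I + R / s * D) =
        C1 / s ^ m * t * C2 * I + C1 / s ^ (m + 1) * t * (4 * R) * D +
          (3 * (C1 / s ^ m * t * C2 * I) + 4 * (C1 / s ^ m * t * (R / s * D) * (C2 - 1))) := by
      field_simp
      ring
    rw [e]
    linarith only [a1, a2]
  refine ⟨?_, fun ξ' hξ' => ?_⟩
  · have b := (h1 s hs ξ).1
    have f1 := fin _ _ 1 (nI s) (nD s) zero_le_one
    simp only [mul_one] at f1
    refine le_trans (ContinuousLinearMap.opNorm_le_bound _ ?_ fun e => ?_) f1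
    · have := nI s
      have := nD s
      positivity
    · rw [((F.uc_grad hR c hs).2 ξ e).1, norm_neg]
      have k := F.TubeJ_bd (hk ξ) hs (fun v hv => rho_eq_zero hs hv) (by linarith only [hs, hξ]) b.b0 b.b1 z1
        zb.b0 zb.b1 e
      simpa only [fderiv_comp_sub] using k
  · have b := (h1 s hs 0).1
    simp only [sub_zero] at b
    have f1 := fin _ _ (‖ξ' - ξ‖ / s) (nI (2 * s)) (nD (2 * s)) (by positivity)
    have dk : ∀ x, fderiv ℝ (fun v : E m => rho s (v - ξ) - rho s (v - ξ')) x =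
        fderiv ℝ (rho s) (x - ξ) - fderiv ℝ (rho s) (x - ξ') := fun x => by
      rw [fderiv_fun_sub ((hk ξ).differentiable one_ne_zero x)
        ((hk ξ').differentiable one_ne_zero x), fderiv_comp_sub, fderiv_comp_sub]
    refine le_trans (ContinuousLinearMap.opNorm_le_bound _ ?_ fun e => ?_) f1
    · have := nI (2 * s)
      have := nD (2 * s)
      positivity
    · have k := F.TubeJ_bd ((hk ξ).sub (hk ξ')) (ξ := ξ) (r := 2 * s) (by positivity)
        (fun v hv => by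
          have t := norm_sub_le_norm_sub_add_norm_sub v ξ' ξ
          rw [rho_eq_zero hs (by linarith only [hs, hv]), rho_eq_zero hs (by linarith only [hξ', hv, t]), sub_zero]) hξ
        (k0 := C1 / s ^ m * (‖ξ' - ξ‖ / s)) (k1 := C1 / s ^ (m + 1) * (‖ξ' - ξ‖ / s))
        (fun x => (TubeJ_mv (r3.differentiable (by norm_num)) b.b1 x ξ ξ').trans
          (le_of_eq (by field_simp; ring)))
        (fun x => by
          rw [dk]
          exact (TubeJ_mv ((r3.fderiv_right (m := 1) (by norm_num)).differentiable one_ne_zero)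
            b.b2 x ξ ξ').trans (le_of_eq (by field_simp; ring))) z1 zb.b0 zb.b1 e
      have iR : ∀ η : E m, Integrable
          (fun y => fderiv ℝ (rho s) (F.x y - η) e • zc R c (F.z y)) F.μ := fun η =>
        F.TubeJ_i1 (k := fun v => fderiv ℝ (rho s) (v - η) e)
          ((Conv_cf (r3.of_le (by norm_num)) e).comp (continuous_id.sub continuous_const))
          z1.continuous
      simp only [dk, sub_apply, sub_smul] at k
      rw [integral_sub (iR ξ) (iR ξ')] at k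
      rw [sub_apply, ((F.uc_grad hR c hs).2 ξ e).1,
        ((F.uc_grad hR c hs).2 ξ' e).1, neg_sub_neg, norm_sub_rev]
      exact k

/-- `uc_grad`, `rho_bd`, Cauchy-Schwarz and `mass_ball` -/
theorem uc_bd (m : ℕ) (A : ℝ) : ∃ C : ℝ, 1 ≤ C ∧ ∀ {N Q : ℕ} (F : Flat m N Q A) (R : ℝ) (c : E N)
    (s : ℝ) (ξ : E m), 0 < R → R ≤ s → F.τ ≤ s → ‖ξ‖ + 2 * s < 10 →
    ‖fderiv ℝ (F.uc R c s) ξ‖ ≤ C / s ^ m * ((∫ y in F.x ⁻¹' closedBall ξ s, √(F.d y) ∂F.μ) +
      R / s * F.DS (closedBall ξ s)) ∧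
    ‖fderiv ℝ (F.uc R c s) ξ‖ ^ 2 ≤ C * F.DS (closedBall ξ s) / s ^ m ∧
    ∀ ξ', ‖ξ' - ξ‖ ≤ s → ‖fderiv ℝ (F.uc R c s) ξ - fderiv ℝ (F.uc R c s) ξ'‖ ^ 2 ≤
      C * F.DS (closedBall ξ (2 * s)) / s ^ m * (‖ξ' - ξ‖ / s) ^ 2 := by
  obtain ⟨C, hC, h⟩ := TubeJ_one m
  set K : ℝ := C ^ 2 * (1 + m) ^ 2 * (|A| * 2 ^ m * 2 ^ m) with hK
  have K0 : 0 ≤ K := by positivity
  refine ⟨C + K, by linarith only [hC, K0], fun {N Q} F R c s ξ hR hRs hτ hξ => ?_⟩
  have hs : 0 < s := hR.trans_le hRs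
  obtain ⟨h1, h2⟩ := h F R c s ξ hR hs hξ
  have hA : |A| = A := abs_of_nonneg (by linarith only [F.A_ge])
  have A0 : 0 ≤ A := by linarith only [F.A_ge]
  have t1 : R / s ≤ 1 := (div_le_one hs).2 hRs
  have nD : ∀ r, 0 ≤ F.DS (closedBall ξ r) := fun r => (F.DS_mono (subset_refl _)).1
  obtain ⟨a1, a2, a3⟩ := F.TubeJ_cs ξ hτ
  obtain ⟨b1, b2, b3⟩ := F.TubeJ_cs ξ (r := 2 * s) (by linarith only [hR, hRs, hτ])
  refine ⟨h1.trans (mul_le_mul_of_nonneg_right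
    (div_le_div_of_nonneg_right (by linarith only [K0]) (by positivity)) ?_), ?_, fun ξ' hξ' => ?_⟩
  · have := nD s
    positivity
  · refine (TubeJ_sq (norm_nonneg _) (by positivity) t1 (nD s) h1 a1 a3).trans ?_
    have e : (C / s ^ m) ^ 2 * (1 + m) ^ 2 * (A * 2 ^ m * s ^ m * F.DS (closedBall ξ s)) =
        C ^ 2 * (1 + m) ^ 2 * (A * 2 ^ m * 1) * F.DS (closedBall ξ s) / s ^ m := by
      field_simp
    rw [e]
    refine div_le_div_of_nonneg_right (mul_le_mul_of_nonneg_right ?_ (nD s)) (by positivity)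
    have u : C ^ 2 * (1 + m) ^ 2 * (A * 2 ^ m * 1) ≤ K := by
      rw [hK, hA]
      exact mul_le_mul_of_nonneg_left (mul_le_mul_of_nonneg_left (one_le_pow₀ one_le_two)
        (by positivity)) (by positivity)
    linarith only [hC, u]
  · refine (TubeJ_sq (norm_nonneg _) (by positivity) t1 (nD _) (h2 ξ' hξ') b1 b3).trans ?_
    have e : (C / s ^ m * (‖ξ' - ξ‖ / s)) ^ 2 * (1 + m) ^ 2 *
        (A * 2 ^ m * (2 * s) ^ m * F.DS (closedBall ξ (2 * s))) =
        K * F.DS (closedBall ξ (2 * s)) / s ^ m * (‖ξ' - ξ‖ / s) ^ 2 := by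
      rw [hK, hA, mul_pow 2 s]
      field_simp
    rw [e]
    exact mul_le_mul_of_nonneg_right (div_le_div_of_nonneg_right
      (mul_le_mul_of_nonneg_right (by linarith only [hC]) (nD _)) (by positivity)) (sq_nonneg _)

theorem TubeJ_psi (m : ℕ) (hm : 1 ≤ m) : ∃ C : ℝ, 1 ≤ C ∧ ∀ (a b : ℝ) (e : E m), 0 < a → a ≤ b →
    ContDiff ℝ 3 (fun v => fderiv ℝ (Gm a b) v e) ∧
    (∀ v : E m, b ≤ ‖v‖ → fderiv ℝ (Gm a b) v e = 0) ∧
    (∀ v, lap (fun v => fderiv ℝ (Gm a b) v e) v =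
      fderiv ℝ (rho b) v e - fderiv ℝ (rho a) v e) ∧
    (∀ v, ‖fderiv ℝ (fderiv ℝ fun v => fderiv ℝ (Gm a b) v e) v‖ ≤
      ‖e‖ * (C / (max ‖v‖ a) ^ (m + 1))) ∧
    ∀ v : E m, b ≤ ‖v‖ → fderiv ℝ (fderiv ℝ fun v => fderiv ℝ (Gm a b) v e) v = 0 := by
  obtain ⟨C, hC, h⟩ := Gt_bd m hm
  refine ⟨C, hC, fun a b e ha hab => ?_⟩
  obtain ⟨g4, g3⟩ := contDiff_Gm (m := m) ha hab
  have hb : 0 < b := ha.trans_le hab
  have c3 : ContDiff ℝ 3 fun v => fderiv ℝ (Gm a b) v e :=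
    (g4.fderiv_right (m := 3) (by norm_num)).clm_apply contDiff_const
  have z0 : ∀ v : E m, b ≤ ‖v‖ → fderiv ℝ (Gm a b) v e = 0 := fun v hv => by
    rw [fderiv_Gm ha hab, (Gm_eq_zero ha hab hv).2, neg_zero, zero_mul]
  refine ⟨c3, z0, fun v => ?_, fun v => ?_, fun v hv => ?_⟩
  · have e1 : lap (Gm a b : E m → ℝ) = fun v => rho b v - rho a v := funext (lap_Gm ha hab)
    rw [TubeJ_lap (g4.of_le (by norm_num)), e1,
      fderiv_fun_sub ((contDiff_rho b).differentiable (by norm_num) v)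
        ((contDiff_rho a).differentiable (by norm_num) v), sub_apply]
  · have e1 : (fun v => fderiv ℝ (Gm a b) v e) = fun v : E m => ⟪-e, Gt a b v • v⟫ :=
      funext fun v => by
        rw [fderiv_Gm ha hab, real_inner_smul_right, inner_neg_left, real_inner_comm]
        ring
    rw [e1]
    refine (TubeJ_hess ((g3.of_le (by norm_num)).smul contDiff_id) _ _).trans ?_
    rw [norm_neg]
    exact mul_le_mul_of_nonneg_left (h a b ha hab v).2.2.2 (norm_nonneg _)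
  · refine TubeJ_fz (c := 0) (c3.fderiv_right (m := 1) (by norm_num)) hb
      (TubeJ_fz (c3.of_le (by norm_num)) hb fun w hw => z0 w ?_) v ?_
    · rwa [sub_zero] at hw
    · rwa [sub_zero]

/-- `fv_lap` with `ψ = ∂_e Gm a b (· - ξ)`, whose Laplacian is `∂_e rho b - ∂_e rho a` and whose
Hessian is bounded by `Gt_bd` (`fderiv_Gm`) -/
theorem uc_rep (m : ℕ) (hm : 1 ≤ m) : ∃ C : ℝ, 1 ≤ C ∧ ∀ {N Q : ℕ} {A : ℝ} (F : Flat m N Q A)
    (R : ℝ) (c : E N) (a b : ℝ) (ξ e : E m), 0 < R → 0 < a → a ≤ b → ‖ξ‖ + b < 10 →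
    ‖fderiv ℝ (F.uc R c a) ξ e - fderiv ℝ (F.uc R c b) ξ e -
        ∫ y, fderiv ℝ (Gm a b) (F.x y - ξ) e • F.sg R c y ∂F.μ‖ ≤
      C * R * ‖e‖ * ∫ y in F.x ⁻¹' ball ξ b, F.d y / (max ‖F.x y - ξ‖ a) ^ (m + 1) ∂F.μ := by
  obtain ⟨C, hC, h⟩ := TubeJ_psi m hm
  obtain ⟨C2, -, h2⟩ := sg_bd
  have m1 : (1 : ℝ) ≤ m := by exact_mod_cast hm
  refine ⟨4 * m ^ 2 * C, by nlinarith only [m1, hC, one_le_pow₀ (n := 2) m1], ?_⟩
  intro N Q A F R c a b ξ e hR ha hab hξ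
  have hb : 0 < b := ha.trans_le hab
  obtain ⟨c3, z0, hl, hh, z2⟩ := h a b e ha hab
  obtain ⟨z3, zb, -⟩ := h2 F R c hR
  have c2 : ContDiff ℝ 2 fun v : E m => fderiv ℝ (Gm a b) (v - ξ) e :=
    (c3.of_le (by norm_num)).comp (contDiff_id.sub contDiff_const)
  have hT := TubeJ_test (k := 2) c2 (fun v hv => z0 _ hv) hξ
  have key := F.fv_lap hT (z3.of_le (by norm_num))
  have sh := TubeJ_shift (fun v : E m => fderiv ℝ (Gm a b) v e) ξ
  have hl' : ∀ x, lap (fun v : E m => fderiv ℝ (Gm a b) (v - ξ) e) x =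
      fderiv ℝ (rho b) (x - ξ) e - fderiv ℝ (rho a) (x - ξ) e := fun x => by
    rw [← hl]
    simp only [lap, sh]
  have iR : ∀ s : ℝ, Integrable
      (fun y => fderiv ℝ (rho s) (F.x y - ξ) e • zc R c (F.z y)) F.μ := fun s =>
    F.TubeJ_i1 (k := fun v => fderiv ℝ (rho s) (v - ξ) e)
      ((Conv_cf ((contDiff_rho s).of_le (by norm_num)) e).comp
        (continuous_id.sub continuous_const)) z3.continuous
  have iN := F.TubeJ_iNH c2 hT.cpt z3.continuous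
  have iR2 : Integrable (fun y => fderiv ℝ (rho b) (F.x y - ξ) e • zc R c (F.z y) -
      fderiv ℝ (rho a) (F.x y - ξ) e • zc R c (F.z y)) F.μ := (iR b).sub (iR a)
  simp only [hl', sub_smul] at key
  rw [integral_sub iR2 iN, integral_sub (iR b) (iR a)] at key
  have e1 : fderiv ℝ (F.uc R c a) ξ e - fderiv ℝ (F.uc R c b) ξ e -
      ∫ y, fderiv ℝ (Gm a b) (F.x y - ξ) e • F.sg R c y ∂F.μ =
      ∫ y, F.NH (fun v : E m => fderiv ℝ (Gm a b) (v - ξ) e) y • zc R c (F.z y) ∂F.μ := by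
    rw [((F.uc_grad hR c ha).2 ξ e).1, ((F.uc_grad hR c hb).2 ξ e).1]
    simp only [Flat.sg]
    rw [← key]
    abel
  have hZ : MeasurableSet (F.x ⁻¹' ball ξ b) := F.FlatB_cx.measurable measurableSet_ball
  have iD : Integrable (fun y => F.d y / (max ‖F.x y - ξ‖ a) ^ (m + 1)) F.μ := by
    refine F.integrable_of_bd (F.measurable_all.2.2.2.2.1.div
      (((F.measurable_all.1.sub measurable_const).norm.max measurable_const).pow_const _))
      (M := m / a ^ (m + 1)) fun y _ _ => ?_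
    obtain ⟨d0, d1⟩ := F.d_bd y
    have hM : a ≤ max ‖F.x y - ξ‖ a := le_max_right _ _
    rw [Real.norm_of_nonneg (div_nonneg d0 (pow_nonneg (ha.le.trans hM) _))]
    exact div_le_div₀ (Nat.cast_nonneg m) d1 (by positivity) (pow_le_pow_left₀ ha.le hM _)
  rw [e1, ← integral_const_mul, ← integral_indicator hZ]
  refine norm_integral_le_of_norm_le ((iD.const_mul _).indicator hZ)
    (Eventually.of_forall fun y => ?_)
  have k1 := F.abs_NH_le (fun v : E m => fderiv ℝ (Gm a b) (v - ξ) e) y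
  rw [sh] at k1
  have d0 := (F.d_bd y).1
  by_cases hy : y ∈ F.x ⁻¹' ball ξ b
  · have k2 := k1.trans (mul_le_mul_of_nonneg_left (hh _) (by positivity))
    rw [indicator_of_mem hy, norm_smul, Real.norm_eq_abs]
    exact (mul_le_mul k2 (zb.b0 _) (norm_nonneg _) ((abs_nonneg _).trans k2)).trans
      (le_of_eq (by ring))
  · rw [z2 _ (not_lt.1 (mt mem_ball_iff_norm.2 hy)), ContinuousLinearMap.opNorm_zero,
      mul_zero] at k1
    rw [indicator_of_notMem hy, abs_nonpos_iff.1 k1, zero_smul, norm_zero]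

end Pool.Agent.MP_f6c0e6_an.Gen

end

section

/-! Two analytic estimates: truncated potentials and the Pohozaev inequality. -/

set_option autoImplicit false

open MeasureTheory Filter Topology Set Metric
open scoped ENNReal RealInnerProductSpace

namespace Pool.Agent.MP_f6c0e6_an.Gen

variable {m N : ℕ}

theorem TubeI_pot {Ω F : Type} [MeasurableSpace Ω] [NormedAddCommGroup F] [NormedSpace ℝ F]
    [CompleteSpace F] (μ : Measure Ω) {ζ : Ω → E m} (hζ : Measurable ζ) {ρ : ℝ}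
    (hρ : ∀ᵐ y ∂μ, ‖ζ y‖ ≤ ρ) {w : Ω → F} (hw : Integrable w μ) {a b : ℝ} (ha : 0 < a)
    (hab : a ≤ b) : ContDiff ℝ 2 (fun ξ => ∫ y, Gm a b (ζ y - ξ) • w y ∂μ) ∧
    HasCompactSupport (fun ξ => ∫ y, Gm a b (ζ y - ξ) • w y ∂μ) ∧
    (∀ ξ v, fderiv ℝ (fun ξ => ∫ y, Gm a b (ζ y - ξ) • w y ∂μ) ξ v =
      -∫ y, fderiv ℝ (Gm a b) (ζ y - ξ) v • w y ∂μ) ∧
    ∀ ξ, lap (fun ξ => ∫ y, Gm a b (ζ y - ξ) • w y ∂μ) ξ =
      ∫ y, (rho b (ζ y - ξ) - rho a (ζ y - ξ)) • w y ∂μ := by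
  have h2 : ContDiff ℝ 2 (Gm a b : E m → ℝ) := (contDiff_Gm ha hab).1.of_le (by norm_num)
  have hc : HasCompactSupport (Gm a b : E m → ℝ) :=
    HasCompactSupport.intro (isCompact_closedBall 0 b) fun x hx =>
      (Gm_eq_zero ha hab (not_le.1 fun h => hx (mem_closedBall_zero_iff.2 h)).le).1
  obtain ⟨a0, hb⟩ := exists_Bd2 h2 hc
  obtain ⟨k1, k2, -, k3⟩ := conv_meas μ hζ hw h2 hb
  refine ⟨k1, HasCompactSupport.intro (isCompact_closedBall (0 : E m) (ρ + b)) fun ξ hξ => ?_, k2,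
    fun ξ => by simp only [k3, lap_Gm ha hab]⟩
  rw [mem_closedBall_zero_iff, not_le] at hξ
  refine integral_eq_zero_of_ae (hρ.mono fun y hy => ?_)
  have h3 := norm_sub_norm_le ξ (ζ y)
  rw [norm_sub_rev] at h3
  simp only [(Gm_eq_zero ha hab (show b ≤ ‖ζ y - ξ‖ by linarith)).1, zero_smul, Pi.zero_apply]

theorem TubeI_fub {Ω : Type} [MeasurableSpace Ω] (μ : Measure Ω) [SFinite μ] {ζ : Ω → E m}
    (hζ : Measurable ζ) {w : Ω → ℝ} (hw : Integrable w μ) {a : ℝ} (ha : 0 < a) :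
    Integrable (fun ξ => ∫ y, rho a (ζ y - ξ) * w y ∂μ) ∧
      ∫ ξ, ∫ y, rho a (ζ y - ξ) * w y ∂μ = ∫ y, w y ∂μ := by
  have h1 : ∀ z : E m, ∫ ξ, rho a (z - ξ) = 1 := fun z => by
    rw [← integral_rho ha z]
    exact integral_congr_ae (Eventually.of_forall fun ξ => by
      simp only
      rw [← rho_neg, neg_sub])
  have h2 : ∀ z : E m, Integrable fun ξ => rho a (z - ξ) := fun z =>
    Integrable.of_integral_ne_zero (by rw [h1]; exact one_ne_zero)
  have hm : AEStronglyMeasurable (fun q : E m × Ω => rho a (ζ q.2 - q.1) * w q.2)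
      ((volume : Measure (E m)).prod μ) :=
    ((contDiff_rho a).continuous.measurable.comp
      ((hζ.comp measurable_snd).sub measurable_fst)).aestronglyMeasurable.mul hw.1.comp_snd
  have hI : Integrable (fun q : E m × Ω => rho a (ζ q.2 - q.1) * w q.2)
      ((volume : Measure (E m)).prod μ) := by
    rw [integrable_prod_iff' hm]
    refine ⟨Eventually.of_forall fun y => (h2 (ζ y)).mul_const (w y), ?_⟩
    simp only [norm_mul, Real.norm_of_nonneg (rho_nonneg ha _), integral_mul_const, h1, one_mul]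
    exact hw.norm
  refine ⟨hI.integral_prod_left, ?_⟩
  rw [integral_integral_swap (f := fun ξ y => rho a (ζ y - ξ) * w y) hI]
  simp only [integral_mul_const, h1, one_mul]

theorem TubeI_sq {F : Type} [NormedAddCommGroup F] [NormedSpace ℝ F] {V : E m → F}
    (h : ContDiff ℝ 1 V) (hc : HasCompactSupport V) :
    Continuous (fun ξ => ∑ i, ‖fderiv ℝ V ξ (ev i)‖ ^ 2) ∧
      HasCompactSupport fun ξ => ∑ i, ‖fderiv ℝ V ξ (ev i)‖ ^ 2 :=
  ⟨continuous_finsetSum _ fun i _ => (Conv_cf h _).norm.pow 2,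
    (hc.fderiv ℝ).comp_left (g := fun p : E m →L[ℝ] F => ∑ i, ‖p (ev i)‖ ^ 2) (by simp)⟩

theorem TubeI_trunc {V R : E m → ℝ} (h2 : ContDiff ℝ 2 V) (hc : HasCompactSupport V)
    (h0 : ∀ ξ, 0 ≤ V ξ) {t : ℝ} (ht : 0 < t) (hR : Integrable R) (hR0 : ∀ ξ, 0 ≤ R ξ)
    (hl : ∀ ξ, -lap V ξ ≤ R ξ) :
    ∫ ξ in {ξ | V ξ ≤ t}, ∑ i, (fderiv ℝ V ξ (ev i)) ^ 2 ≤ 4 * t * ∫ ξ, R ξ := by
  have h1 : ContDiff ℝ 1 V := h2.of_le (by norm_num)
  have hp : ∀ ξ, 0 < V ξ + t := fun ξ => by linarith [h0 ξ]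
  have g1 : ContDiff ℝ 1 fun ξ => t * V ξ / (V ξ + t) :=
    (contDiff_const.mul h1).div (h1.add contDiff_const) fun ξ => (hp ξ).ne'
  have gc : HasCompactSupport fun ξ => t * V ξ / (V ξ + t) :=
    hc.comp_left (g := fun s => t * s / (s + t)) (by simp)
  have gd : ∀ ξ v, fderiv ℝ (fun ξ => t * V ξ / (V ξ + t)) ξ v =
      t ^ 2 / (V ξ + t) ^ 2 * fderiv ℝ V ξ v := fun ξ v => by
    have d1 : HasDerivAt (fun s => t * s / (s + t)) (t ^ 2 / (V ξ + t) ^ 2) (V ξ) := by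
      refine (((hasDerivAt_id _).const_mul t).div ((hasDerivAt_id _).add_const t)
        (hp ξ).ne').congr_deriv ?_
      simp only [id]
      ring
    have d2 : HasFDerivAt (fun ξ => t * V ξ / (V ξ + t)) _ ξ :=
      d1.comp_hasFDerivAt ξ (h1.differentiable one_ne_zero ξ).hasFDerivAt
    rw [d2.fderiv]
    rfl
  have i1 : ∀ i, Integrable fun ξ =>
      fderiv ℝ (fun ξ => t * V ξ / (V ξ + t)) ξ (ev i) • fderiv ℝ V ξ (ev i) := fun i =>
    Conv_ismul (Conv_cf g1 _) (gc.fderiv_apply ℝ _) (Conv_cf h1 _)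
  have i2 : ∀ i, Integrable fun ξ =>
      (t * V ξ / (V ξ + t)) • fderiv ℝ (fun x => fderiv ℝ V x (ev i)) ξ (ev i) := fun i =>
    Conv_ismul g1.continuous gc (Conv_cf (Conv_fd2 h2 _).1 _)
  have e1 : ∫ ξ, ∑ i, fderiv ℝ (fun ξ => t * V ξ / (V ξ + t)) ξ (ev i) • fderiv ℝ V ξ (ev i) =
      ∫ ξ, t * V ξ / (V ξ + t) * -lap V ξ := by
    rw [integral_finsetSum _ fun i _ => i1 i]
    simp only [integral_parts g1 gc (Conv_fd2 h2 _).1]
    rw [Finset.sum_neg_distrib, ← integral_finsetSum _ fun i _ => i2 i, ← integral_neg]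
    refine integral_congr_ae (Eventually.of_forall fun ξ => ?_)
    simp only [(Conv_fd2 h2 _).2, lap, smul_eq_mul, mul_neg, Finset.mul_sum]
  have e2 : ∫ ξ, t * V ξ / (V ξ + t) * -lap V ξ ≤ t * ∫ ξ, R ξ := by
    rw [← integral_const_mul]
    refine integral_mono (Conv_ismul g1.continuous gc (continuous_lap h2).neg) (hR.const_mul t)
      fun ξ => ?_
    have a0 : 0 ≤ t * V ξ / (V ξ + t) := div_nonneg (mul_nonneg ht.le (h0 ξ)) (hp ξ).le
    have a1 : t * V ξ / (V ξ + t) ≤ t := by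
      rw [div_le_iff₀ (hp ξ)]
      nlinarith only [ht]
    exact (mul_le_mul_of_nonneg_left (hl ξ) a0).trans (mul_le_mul_of_nonneg_right a1 (hR0 ξ))
  have i3 := integrable_finsetSum Finset.univ fun i _ => i1 i
  simp only [gd, smul_eq_mul, mul_assoc, ← Finset.mul_sum, ← sq] at i3 e1
  obtain ⟨c1, c2⟩ := TubeI_sq h1 hc
  simp only [Real.norm_eq_abs, sq_abs] at c1 c2
  have n0 : ∀ ξ, 0 ≤ ∑ i, (fderiv ℝ V ξ (ev i)) ^ 2 := fun ξ =>
    Finset.sum_nonneg fun i _ => sq_nonneg _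
  calc ∫ ξ in {ξ | V ξ ≤ t}, ∑ i, (fderiv ℝ V ξ (ev i)) ^ 2
      ≤ ∫ ξ in {ξ | V ξ ≤ t}, 4 * (t ^ 2 / (V ξ + t) ^ 2 * ∑ i, (fderiv ℝ V ξ (ev i)) ^ 2) := by
        refine setIntegral_mono_on (c1.integrable_of_hasCompactSupport c2).integrableOn
          (i3.const_mul 4).integrableOn
          (isClosed_le h1.continuous continuous_const).measurableSet fun ξ hξ => ?_
        rw [← mul_assoc]
        refine le_mul_of_one_le_left (n0 ξ) ?_
        have a1 : V ξ ≤ t := hξ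
        rw [← mul_div_assoc, one_le_div (pow_pos (hp ξ) 2)]
        nlinarith only [ht, a1, h0 ξ]
    _ ≤ ∫ ξ, 4 * (t ^ 2 / (V ξ + t) ^ 2 * ∑ i, (fderiv ℝ V ξ (ev i)) ^ 2) :=
        setIntegral_le_integral (i3.const_mul 4) (Eventually.of_forall fun ξ =>
          mul_nonneg (by norm_num) (mul_nonneg (by positivity) (n0 ξ)))
    _ ≤ 4 * t * ∫ ξ, R ξ := by
        rw [integral_const_mul, e1, mul_assoc]
        linarith

/-- With `f s = t s / (s + t)`, integrate the divergence of `f (V) ∇V`: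
`∫ f' (V) |∇V|² = - ∫ f (V) lap V = ∫ f (V) (rho a - rho b) * w ≤ t ∫ w` (`conv_meas`, `lap_Gm`,
Fubini), and `f' ≥ 1 / 4` on `[0, t]`. -/
theorem trunc_energy {Ω : Type} [MeasurableSpace Ω] (μ : Measure Ω) [SFinite μ] {ζ : Ω → E m}
    (hζ : Measurable ζ) {ρ : ℝ} (hρ : ∀ᵐ y ∂μ, ‖ζ y‖ ≤ ρ) {w : Ω → ℝ} (hw : Integrable w μ)
    (h0 : ∀ᵐ y ∂μ, 0 ≤ w y) {a b t : ℝ} (ha : 0 < a) (hab : a ≤ b) (ht : 0 < t) :
    ∫ ξ in {ξ | ∫ y, Gm a b (ζ y - ξ) * w y ∂μ ≤ t},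
      ∑ i, (∫ y, fderiv ℝ (Gm a b) (ζ y - ξ) (ev i) * w y ∂μ) ^ 2 ≤ 4 * t * ∫ y, w y ∂μ := by
  obtain ⟨h2, hc, hd, hl⟩ := TubeI_pot μ hζ hρ hw ha hab
  simp only [smul_eq_mul] at h2 hc hd hl
  have hV0 : ∀ ξ, 0 ≤ ∫ y, Gm a b (ζ y - ξ) * w y ∂μ := fun ξ =>
    integral_nonneg_of_ae (h0.mono fun y hy => mul_nonneg (Gm_nonneg ha hab _).1 hy)
  obtain ⟨hR, hI⟩ := TubeI_fub μ hζ hw ha
  have hint : ∀ r : ℝ, 0 < r → ∀ ξ, Integrable (fun y => rho r (ζ y - ξ) * w y) μ := fun r hr ξ =>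
    Conv_int (ContinuousLinearMap.mul ℝ ℝ) hζ hw (contDiff_rho r).continuous
      (fun x => (Real.norm_of_nonneg (rho_nonneg hr x)).trans_le (rho_le hr x)) ξ
  have hpos : ∀ r : ℝ, 0 < r → ∀ ξ, 0 ≤ ∫ y, rho r (ζ y - ξ) * w y ∂μ := fun r hr ξ =>
    integral_nonneg_of_ae (h0.mono fun y hy => mul_nonneg (rho_nonneg hr _) hy)
  have h3 := TubeI_trunc h2 hc hV0 ht hR (hpos a ha) fun ξ => by
    rw [hl]
    simp only [sub_mul]
    rw [integral_sub (hint b (ha.trans_le hab) ξ) (hint a ha ξ)]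
    linarith [hpos b (ha.trans_le hab) ξ]
  simp only [hd, neg_sq] at h3
  rwa [hI] at h3

theorem TubeI_cont {Ω F : Type} [MeasurableSpace Ω] [NormedAddCommGroup F] [NormedSpace ℝ F]
    [CompleteSpace F] (μ : Measure Ω) {ζ : Ω → E m} (hζ : Measurable ζ) {ρ : ℝ}
    (hρ : ∀ᵐ y ∂μ, ‖ζ y‖ ≤ ρ) {w : Ω → F} (hw : Integrable w μ) {a b : ℝ} (ha : 0 < a)
    (hab : a ≤ b) :
    Continuous (fun ξ => ∑ i, ‖∫ y, fderiv ℝ (Gm a b) (ζ y - ξ) (ev i) • w y ∂μ‖ ^ 2) ∧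
    Integrable (fun ξ => ∑ i, ‖∫ y, fderiv ℝ (Gm a b) (ζ y - ξ) (ev i) • w y ∂μ‖ ^ 2) := by
  obtain ⟨h2, hc, hd, -⟩ := TubeI_pot μ hζ hρ hw ha hab
  obtain ⟨c1, c2⟩ := TubeI_sq (h2.of_le (by norm_num)) hc
  simp only [hd, norm_neg] at c1 c2
  exact ⟨c1, c1.integrable_of_hasCompactSupport c2⟩

theorem TubeI_cont' {Ω : Type} [MeasurableSpace Ω] (μ : Measure Ω) {ζ : Ω → E m}
    (hζ : Measurable ζ) {ρ : ℝ} (hρ : ∀ᵐ y ∂μ, ‖ζ y‖ ≤ ρ) {w : Ω → ℝ} (hw : Integrable w μ)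
    {a b : ℝ} (ha : 0 < a) (hab : a ≤ b) :
    Integrable (fun ξ => ∑ i, (∫ y, fderiv ℝ (Gm a b) (ζ y - ξ) (ev i) * w y ∂μ) ^ 2) := by
  simpa only [Real.norm_eq_abs, sq_abs, smul_eq_mul] using (TubeI_cont μ hζ hρ hw ha hab).2

theorem TubeI_half {Ω : Type} [MeasurableSpace Ω] (μ : Measure Ω) [SFinite μ] {ζ : Ω → E m}
    (hζ : Measurable ζ) {ρ : ℝ} (hρ : ∀ᵐ y ∂μ, ‖ζ y‖ ≤ ρ) {w : Ω → ℝ} (hw : Integrable w μ)
    {s : Ω → ℝ} (hs : Integrable s μ) (h0 : ∀ᵐ y ∂μ, 0 ≤ s y ∧ s y ≤ 2 * w y) {a b t : ℝ}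
    (ha : 0 < a) (hab : a ≤ b) (ht : 0 < t) :
    ∫ ξ in {ξ | ∫ y, Gm a b (ζ y - ξ) * w y ∂μ ≤ t},
      ∑ i, (∫ y, fderiv ℝ (Gm a b) (ζ y - ξ) (ev i) * s y ∂μ) ^ 2 ≤ 8 * t * ∫ y, s y ∂μ := by
  refine le_trans ?_ ((trunc_energy μ hζ hρ hs (h0.mono fun y hy => hy.1) ha hab
    (mul_pos two_pos ht)).trans (le_of_eq (by ring)))
  refine setIntegral_mono_set (TubeI_cont' μ hζ hρ hs ha hab).integrableOn
    (Eventually.of_forall fun ξ => Finset.sum_nonneg fun i _ => sq_nonneg _)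
    (LE.le.eventuallyLE fun ξ hξ => ?_)
  have hc : HasCompactSupport (Gm a b : E m → ℝ) :=
    HasCompactSupport.intro (isCompact_closedBall 0 b) fun x hx =>
      (Gm_eq_zero ha hab (not_le.1 fun h => hx (mem_closedBall_zero_iff.2 h)).le).1
  have h1 := (contDiff_Gm (m := m) ha hab).1.continuous
  obtain ⟨c, hc'⟩ := h1.bounded_above_of_compact_support hc
  have i1 : Integrable (fun y => Gm a b (ζ y - ξ) * w y) μ :=
    Conv_int (ContinuousLinearMap.mul ℝ ℝ) hζ hw h1 hc' ξ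
  have h3 : ∫ y, Gm a b (ζ y - ξ) * w y ∂μ ≤ t := hξ
  refine le_trans ?_ (mul_le_mul_of_nonneg_left h3 zero_le_two)
  rw [← integral_const_mul]
  refine integral_mono_of_nonneg (h0.mono fun y hy => mul_nonneg (Gm_nonneg ha hab _).1 hy.1)
    (i1.const_mul 2) (h0.mono fun y hy => ?_)
  exact (mul_le_mul_of_nonneg_left hy.2 (Gm_nonneg ha hab _).1).trans (le_of_eq (by ring))

theorem TubeI_scal {Ω : Type} [MeasurableSpace Ω] (μ : Measure Ω) [SFinite μ] {ζ : Ω → E m}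
    (hζ : Measurable ζ) {ρ : ℝ} (hρ : ∀ᵐ y ∂μ, ‖ζ y‖ ≤ ρ) {w : Ω → ℝ} (hw : Integrable w μ)
    {s : Ω → ℝ} (hs : Integrable s μ) (h0 : ∀ᵐ y ∂μ, |s y| ≤ w y) {a b t : ℝ}
    (ha : 0 < a) (hab : a ≤ b) (ht : 0 < t) :
    ∫ ξ in {ξ | ∫ y, Gm a b (ζ y - ξ) * w y ∂μ ≤ t},
      ∑ i, (∫ y, fderiv ℝ (Gm a b) (ζ y - ξ) (ev i) * s y ∂μ) ^ 2 ≤ 8 * t * ∫ y, w y ∂μ := by
  have p1 := TubeI_half μ hζ hρ hw (hw.add hs) (h0.mono fun y hy => by
    simp only [Pi.add_apply]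
    constructor <;> linarith [abs_le.1 hy |>.1, abs_le.1 hy |>.2]) ha hab ht
  have p2 := TubeI_half μ hζ hρ hw (hw.sub hs) (h0.mono fun y hy => by
    simp only [Pi.sub_apply]
    constructor <;> linarith [abs_le.1 hy |>.1, abs_le.1 hy |>.2]) ha hab ht
  have i1 := TubeI_cont' μ hζ hρ (hw.add hs) ha hab
  have i2 := TubeI_cont' μ hζ hρ (hw.sub hs) ha hab
  simp only [Pi.add_apply, Pi.sub_apply] at p1 p2 i1 i2
  rw [integral_add hw hs] at p1
  rw [integral_sub hw hs] at p2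
  have h2 : ContDiff ℝ 1 (Gm a b : E m → ℝ) := (contDiff_Gm ha hab).1.of_le (by norm_num)
  have hc : HasCompactSupport (Gm a b : E m → ℝ) :=
    HasCompactSupport.intro (isCompact_closedBall 0 b) fun x hx =>
      (Gm_eq_zero ha hab (not_le.1 fun h => hx (mem_closedBall_zero_iff.2 h)).le).1
  have p3 := integral_mono (μ := volume.restrict {ξ | ∫ y, Gm a b (ζ y - ξ) * w y ∂μ ≤ t})
    ((TubeI_cont' μ hζ hρ hs ha hab).const_mul 2).integrableOn (i1.add i2).integrableOn fun ξ => by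
      simp only [Pi.add_apply]
      rw [Finset.mul_sum, ← Finset.sum_add_distrib]
      refine Finset.sum_le_sum fun i _ => ?_
      obtain ⟨c, hc'⟩ := (Conv_cf h2 (ev i)).bounded_above_of_compact_support (hc.fderiv_apply ℝ _)
      have j1 : Integrable (fun y => fderiv ℝ (Gm a b) (ζ y - ξ) (ev i) * w y) μ :=
        Conv_int (ContinuousLinearMap.mul ℝ ℝ) hζ hw (Conv_cf h2 _) hc' ξ
      have j2 : Integrable (fun y => fderiv ℝ (Gm a b) (ζ y - ξ) (ev i) * s y) μ :=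
        Conv_int (ContinuousLinearMap.mul ℝ ℝ) hζ hs (Conv_cf h2 _) hc' ξ
      simp only [mul_add, mul_sub]
      rw [integral_add j1 j2, integral_sub j1 j2]
      nlinarith only [sq_nonneg (∫ y, fderiv ℝ (Gm a b) (ζ y - ξ) (ev i) * w y ∂μ)]
  simp only [Pi.add_apply] at p3
  rw [integral_const_mul, integral_add i1.integrableOn i2.integrableOn] at p3
  linarith

/-- For each component `σ_α` apply `trunc_energy` to `w + σ_α` and `w - σ_α` with `2 t`. -/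
theorem trunc_vec {Ω : Type} [MeasurableSpace Ω] (μ : Measure Ω) [SFinite μ] {ζ : Ω → E m}
    (hζ : Measurable ζ) {ρ : ℝ} (hρ : ∀ᵐ y ∂μ, ‖ζ y‖ ≤ ρ) {w : Ω → ℝ} (hw : Integrable w μ)
    {σ : Ω → E N} (hσ : Integrable σ μ) (h0 : ∀ᵐ y ∂μ, ‖σ y‖ ≤ w y) {a b t : ℝ} (ha : 0 < a)
    (hab : a ≤ b) (ht : 0 < t) :
    Continuous (fun ξ => ∑ i, ‖∫ y, fderiv ℝ (Gm a b) (ζ y - ξ) (ev i) • σ y ∂μ‖ ^ 2) ∧
    Integrable (fun ξ => ∑ i, ‖∫ y, fderiv ℝ (Gm a b) (ζ y - ξ) (ev i) • σ y ∂μ‖ ^ 2) ∧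
    ∫ ξ in {ξ | ∫ y, Gm a b (ζ y - ξ) * w y ∂μ ≤ t},
      ∑ i, ‖∫ y, fderiv ℝ (Gm a b) (ζ y - ξ) (ev i) • σ y ∂μ‖ ^ 2 ≤ 8 * N * t * ∫ y, w y ∂μ := by
  obtain ⟨c1, c2⟩ := TubeI_cont μ hζ hρ hσ ha hab
  refine ⟨c1, c2, ?_⟩
  have hs : ∀ α : Fin N, Integrable (fun y => ⟪ev α, σ y⟫) μ := fun α => hσ.const_inner _
  have hb : ∀ α : Fin N, ∀ᵐ y ∂μ, |⟪ev α, σ y⟫| ≤ w y := fun α => h0.mono fun y hy =>
    (abs_real_inner_le_norm _ _).trans (by rwa [norm_ev, one_mul])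
  have h2 : ContDiff ℝ 1 (Gm a b : E m → ℝ) := (contDiff_Gm ha hab).1.of_le (by norm_num)
  have hc : HasCompactSupport (Gm a b : E m → ℝ) :=
    HasCompactSupport.intro (isCompact_closedBall 0 b) fun x hx =>
      (Gm_eq_zero ha hab (not_le.1 fun h => hx (mem_closedBall_zero_iff.2 h)).le).1
  have e : ∀ ξ, ∑ i, ‖∫ y, fderiv ℝ (Gm a b) (ζ y - ξ) (ev i) • σ y ∂μ‖ ^ 2 =
      ∑ α, ∑ i, (∫ y, fderiv ℝ (Gm a b) (ζ y - ξ) (ev i) * ⟪ev α, σ y⟫ ∂μ) ^ 2 := fun ξ => by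
    rw [Finset.sum_comm]
    refine Finset.sum_congr rfl fun i _ => ?_
    obtain ⟨c, hc'⟩ := (Conv_cf h2 (ev i)).bounded_above_of_compact_support (hc.fderiv_apply ℝ _)
    have i1 : Integrable (fun y => fderiv ℝ (Gm a b) (ζ y - ξ) (ev i) • σ y) μ :=
      Conv_int (ContinuousLinearMap.lsmul ℝ ℝ) hζ hσ (Conv_cf h2 _) hc' ξ
    rw [← real_inner_self_eq_norm_sq, ← sum_inner_ev]
    refine Finset.sum_congr rfl fun α _ => ?_
    rw [← sq, ← integral_inner i1]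
    simp only [inner_smul_right]
  simp only [e]
  rw [integral_finsetSum _ fun α _ => (TubeI_cont' μ hζ hρ (hs α) ha hab).integrableOn]
  refine (Finset.sum_le_sum fun α _ =>
    TubeI_scal μ hζ hρ hw (hs α) (hb α) ha hab ht).trans (le_of_eq ?_)
  rw [Finset.sum_const, Finset.card_univ, Fintype.card_fin, nsmul_eq_mul]
  ring

theorem TubeI_diff (x x' : E N) : |‖x‖ ^ 2 - ‖x'‖ ^ 2| ≤ (‖x‖ + ‖x'‖) * ‖x - x'‖ := by
  rw [sq_sub_sq, abs_mul, abs_of_nonneg (by positivity)]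
  exact mul_le_mul_of_nonneg_left (abs_norm_sub_norm_le _ _) (by positivity)

theorem TubeI_young (x x' : E N) {t : ℝ} (ht : 1 ≤ t) :
    |‖x‖ ^ 2 - ‖x'‖ ^ 2| ≤ 2 * t * ‖x - x'‖ ^ 2 + t⁻¹ * ‖x‖ ^ 2 := by
  have t0 : 0 < t := by linarith
  have h1 : ‖x'‖ ≤ ‖x‖ + ‖x - x'‖ := by
    have := norm_sub_norm_le x' x
    rw [norm_sub_rev] at this
    linarith
  refine (TubeI_diff x x').trans ?_
  have h2 : 0 ≤ t⁻¹ * (‖x‖ - t * ‖x - x'‖) ^ 2 := by positivity
  have h3 : t⁻¹ * (‖x‖ - t * ‖x - x'‖) ^ 2 =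
      t⁻¹ * ‖x‖ ^ 2 - 2 * ‖x‖ * ‖x - x'‖ + t * ‖x - x'‖ ^ 2 := by
    field_simp
    ring
  nlinarith only [h2, h3, h1, ht, mul_le_mul_of_nonneg_right h1 (norm_nonneg (x - x')),
    mul_le_mul_of_nonneg_right ht (sq_nonneg ‖x - x'‖)]

theorem Tq_bd (p p' : E m →L[ℝ] E N) {u u' : E m} (hu : ‖u‖ ≤ 1) (hu' : ‖u'‖ ≤ 1) {t : ℝ}
    (ht : 1 ≤ t) (s : ℝ) :
    ‖p‖ ^ 2 ≤ ∑ i, ‖p (ev i)‖ ^ 2 ∧ ∑ i, ‖p (ev i)‖ ^ 2 ≤ m * ‖p‖ ^ 2 ∧
    Tq (s • p) u = s ^ 2 * Tq p u ∧ |Tq p u| ≤ ∑ i, ‖p (ev i)‖ ^ 2 ∧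
    |Tq p u - Tq p' u| ≤ 3 * t * ∑ i, ‖p (ev i) - p' (ev i)‖ ^ 2 + 2 / t * ∑ i, ‖p (ev i)‖ ^ 2 ∧
    |Tq p u - Tq p' u'| ≤ (m + 2) * (‖p‖ + ‖p'‖) * ‖p - p'‖ + 2 * ‖p‖ ^ 2 * ‖u - u'‖ := by
  have hS : ∀ q : E m →L[ℝ] E N, 0 ≤ ∑ i, ‖q (ev i)‖ ^ 2 := fun q =>
    Finset.sum_nonneg fun i _ => sq_nonneg _
  have hle : ∀ (q : E m →L[ℝ] E N) (v : E m), ‖v‖ ≤ 1 → ‖q v‖ ^ 2 ≤ ∑ i, ‖q (ev i)‖ ^ 2 :=
    fun q v hv => (TubeA_hs q v).trans
      (mul_le_of_le_one_left (hS q) (pow_le_one₀ (norm_nonneg _) hv))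
  have hop : ∀ (q : E m →L[ℝ] E N) (v : E m), ‖v‖ ≤ 1 → ‖q v‖ ≤ ‖q‖ := fun q v hv =>
    q.unit_le_opNorm v hv
  have t0 : 0 < t := by linarith
  refine ⟨?_, ?_, ?_, ?_, ?_, ?_⟩
  · rw [← Real.sq_sqrt (hS p)]
    refine pow_le_pow_left₀ (norm_nonneg _)
      (p.opNorm_le_bound (Real.sqrt_nonneg _) fun v => ?_) 2
    rw [← sq_le_sq₀ (norm_nonneg _) (by positivity), mul_pow, Real.sq_sqrt (hS p), mul_comm]
    exact TubeA_hs p v
  · refine (Finset.sum_le_card_nsmul _ _ (‖p‖ ^ 2) fun i _ =>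
      pow_le_pow_left₀ (norm_nonneg _) (hop p _ (norm_ev i).le) 2).trans (le_of_eq ?_)
    rw [Finset.card_univ, Fintype.card_fin, nsmul_eq_mul]
  · simp only [Tq, smul_apply, norm_smul, mul_pow, Real.norm_eq_abs, sq_abs,
      ← Finset.mul_sum]
    ring
  · rw [Tq, abs_le]
    constructor <;> linarith only [hu, hle p u hu, hS p, sq_nonneg ‖p u‖]
  · have a1 := TubeI_young (p u) (p' u) ht
    have a2 := hle (p - p') u hu
    have a3 := hle p u hu
    have a4 := (Finset.abs_sum_le_sum_abs _ _).trans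
      (Finset.sum_le_sum fun i (_ : i ∈ Finset.univ) => TubeI_young (p (ev i)) (p' (ev i)) ht)
    rw [Finset.sum_sub_distrib, Finset.sum_add_distrib, ← Finset.mul_sum, ← Finset.mul_sum] at a4
    simp only [sub_apply] at a2
    have a5 := mul_le_mul_of_nonneg_left a2 t0.le
    have a6 := mul_le_mul_of_nonneg_left a3 (inv_pos.2 t0).le
    have a7 := mul_nonneg (inv_pos.2 t0).le (hS p)
    rw [Tq, Tq, div_eq_mul_inv 2 t, abs_le]
    rw [abs_le] at a1 a4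
    constructor <;> linarith only [a1, a4, a5, a6, a7, a1.1, a1.2, a4.1, a4.2]
  · have b0 : ∀ v : E m, ‖v‖ ≤ 1 → |‖p v‖ ^ 2 - ‖p' v‖ ^ 2| ≤ (‖p‖ + ‖p'‖) * ‖p - p'‖ :=
      fun v hv => (TubeI_diff _ _).trans (mul_le_mul (add_le_add (hop p v hv) (hop p' v hv))
        (hop (p - p') v hv) (norm_nonneg _) (by positivity))
    have b1 : |‖p u‖ ^ 2 - ‖p u'‖ ^ 2| ≤ (‖p‖ + ‖p‖) * (‖p‖ * ‖u - u'‖) :=
      (TubeI_diff _ _).trans (mul_le_mul (add_le_add (hop p u hu) (hop p u' hu'))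
        (by rw [← map_sub]; exact p.le_opNorm _) (norm_nonneg _) (by positivity))
    have b2 := b0 u' hu'
    have b3 := (Finset.abs_sum_le_sum_abs _ _).trans (Finset.sum_le_card_nsmul Finset.univ _ _
      fun i _ => b0 (ev i) (norm_ev i).le)
    rw [Finset.sum_sub_distrib, Finset.card_univ, Fintype.card_fin, nsmul_eq_mul] at b3
    have b4 : 0 ≤ (‖p‖ + ‖p'‖) * ‖p - p'‖ := by positivity
    have b5 := mul_nonneg (Nat.cast_nonneg (α := ℝ) m) b4
    rw [Tq, Tq, abs_le]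
    rw [abs_le] at b1 b2 b3
    constructor <;> linarith only [b1, b2, b3, b1.1, b1.2, b2.1, b2.2, b3.1, b3.2]

/-- the stress tensor contracted with a linear map -/
noncomputable def TubeI_st (p : E m →L[ℝ] E N) (L : E m →L[ℝ] E m) : ℝ :=
  ∑ i, ⟪p (ev i), p (L (ev i))⟫ - (∑ i, ‖p (ev i)‖ ^ 2) / 2 * ∑ i, ⟪ev i, L (ev i)⟫

theorem TubeI_div {w : E m → E N} (hw : ContDiff ℝ 2 w) {X : E m → E m} {v : E m}
    (hX : DifferentiableAt ℝ X v) :
    ∑ i, fderiv ℝ (fun x => ⟪fderiv ℝ w x (ev i), fderiv ℝ w x (X x)⟫ -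
      (∑ j, ‖fderiv ℝ w x (ev j)‖ ^ 2) / 2 * ⟪ev i, X x⟫) v (ev i) =
      ⟪lap w v, fderiv ℝ w v (X v)⟫ + TubeI_st (fderiv ℝ w v) (fderiv ℝ X v) := by
  have d0 := GCalc_hasFDerivAt v hw
  have d1 := fun i : Fin m => d0.clm_apply (hasFDerivAt_const (ev i) v)
  have d2 := d0.clm_apply hX.hasFDerivAt
  have d3 := (HasFDerivAt.fun_sum fun j (_ : j ∈ Finset.univ) => (d1 j).norm_sq).const_mul (1 / 2)
  have d4 := fun i : Fin m => ((d1 i).inner ℝ d2).sub
    (d3.mul ((hasFDerivAt_const (ev i) v).inner ℝ hX.hasFDerivAt))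
  have e : ∀ i, fderiv ℝ (fun x => ⟪fderiv ℝ w x (ev i), fderiv ℝ w x (X x)⟫ -
      (∑ j, ‖fderiv ℝ w x (ev j)‖ ^ 2) / 2 * ⟪ev i, X x⟫) v (ev i) =
      ⟪fderiv ℝ (fderiv ℝ w) v (ev i) (ev i), fderiv ℝ w v (X v)⟫ +
      ⟪fderiv ℝ w v (ev i), fderiv ℝ w v (fderiv ℝ X v (ev i))⟫ -
      (∑ j, ‖fderiv ℝ w v (ev j)‖ ^ 2) / 2 * ⟪ev i, fderiv ℝ X v (ev i)⟫ +
      (⟪fderiv ℝ w v (ev i), fderiv ℝ (fderiv ℝ w) v (X v) (ev i)⟫ -
      ∑ j, ⟪fderiv ℝ w v (ev j), fderiv ℝ (fderiv ℝ w) v (⟪ev i, X v⟫ • ev i) (ev j)⟫) := fun i => by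
    refine (congrArg (fun L => L (ev i)) (HasFDerivAt.fderiv ((d4 i).congr_of_eventuallyEq
      (Eventually.of_forall fun x => ?_)))).trans ?_
    · simp only [Pi.sub_apply, Pi.mul_apply]
      ring
    · simp only [sub_apply, add_apply, smul_apply, ContinuousLinearMap.comp_apply,
        ContinuousLinearMap.prod_apply, fderivInnerCLM_apply, ContinuousLinearMap.flip_apply,
        zero_apply, map_zero, inner_zero_left, zero_add, add_zero, sum_apply,
        smul_eq_mul, innerSL_apply_apply, inner_add_right, map_smul, inner_smul_right,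
        nsmul_eq_mul, Nat.cast_ofNat, ← Finset.mul_sum, hess_symm hw v (X v)]
      ring
  simp only [e]
  rw [Finset.sum_add_distrib, Finset.sum_sub_distrib (s := Finset.univ) (fun i =>
    ⟪fderiv ℝ w v (ev i), fderiv ℝ (fderiv ℝ w) v (X v) (ev i)⟫), Finset.sum_comm]
  simp only [← inner_sum, ← sum_apply, ← map_sum, sum_ev]
  rw [sub_self, add_zero, Finset.sum_sub_distrib, Finset.sum_add_distrib, ← sum_inner,
    ← Finset.mul_sum, TubeI_st, lap, add_sub_assoc]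

theorem TubeI_poh {w : E m → E N} (hw : ContDiff ℝ 2 w) (hc : HasCompactSupport w)
    {X : E m → E m} (hX : ContDiff ℝ 1 X) :
    Integrable (fun v => ⟪lap w v, fderiv ℝ w v (X v)⟫) ∧
      Integrable (fun v => TubeI_st (fderiv ℝ w v) (fderiv ℝ X v)) ∧
      (∫ v, ⟪lap w v, fderiv ℝ w v (X v)⟫) + ∫ v, TubeI_st (fderiv ℝ w v) (fderiv ℝ X v) = 0 := by
  have d1 : ContDiff ℝ 1 (fderiv ℝ w) := hw.fderiv_right (m := 1) (by norm_num)
  have sup : ∀ {g : E m → ℝ}, (∀ x, fderiv ℝ w x = 0 → g x = 0) → HasCompactSupport g :=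
    fun hg => (hc.fderiv ℝ).mono fun x hx h0 => hx (hg x h0)
  have z1 : ∀ i, ContDiff ℝ 1 fun x => ⟪fderiv ℝ w x (ev i), fderiv ℝ w x (X x)⟫ -
      (∑ j, ‖fderiv ℝ w x (ev j)‖ ^ 2) / 2 * ⟪ev i, X x⟫ := fun i =>
    ((d1.clm_apply contDiff_const).inner ℝ (d1.clm_apply hX)).sub
      (((ContDiff.sum fun j _ => (d1.clm_apply contDiff_const).norm_sq ℝ).div_const 2).mul
        (contDiff_const.inner ℝ hX))
  have z2 : ∀ i, HasCompactSupport fun x => ⟪fderiv ℝ w x (ev i), fderiv ℝ w x (X x)⟫ -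
      (∑ j, ‖fderiv ℝ w x (ev j)‖ ^ 2) / 2 * ⟪ev i, X x⟫ := fun i =>
    sup fun x hx => by simp [hx]
  have i1 : Integrable fun v => ⟪lap w v, fderiv ℝ w v (X v)⟫ :=
    ((continuous_lap hw).inner (d1.clm_apply hX).continuous).integrable_of_hasCompactSupport
      (sup fun x hx => by simp [hx])
  have i0 := fun i => (Conv_cf (z1 i) (ev i)).integrable_of_hasCompactSupport
    (μ := volume) ((z2 i).fderiv_apply ℝ _)
  have i2 := integrable_finsetSum Finset.univ fun i _ => i0 i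
  have e := integral_finsetSum Finset.univ fun i _ => i0 i
  simp only [TubeI_div hw (hX.differentiable one_ne_zero _)] at i2 e
  have i3 : Integrable fun v => TubeI_st (fderiv ℝ w v) (fderiv ℝ X v) :=
    (i2.sub i1).congr (Eventually.of_forall fun v => add_sub_cancel_left _ _)
  refine ⟨i1, i3, ?_⟩
  rw [← integral_add i1 i3, e]
  exact Finset.sum_eq_zero fun i _ => integral_fderiv_zero (z1 i) (z2 i) _

theorem Tb.TubeI_shell {k Q : ℕ} {A C C' : ℝ} {T : TI k N Q A C} (B : Tb T C') (h : C' ≤ T.Λ)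
    (p : E (k + 2) →L[ℝ] E N) (v : E (k + 2)) :
    TubeI_st p (fderiv ℝ (fun v => (B.chi v - 1) • B.cx v) v) =
      (1 - B.chi v) * ∑ i, ‖p (B.S.iw (ev i))‖ ^ 2 - B.vth v * Tq p (B.ur v) := by
  obtain ⟨w1, -, -, -, -, -, w2, -⟩ := B.weights h
  have d1 : HasFDerivAt (fun v => (B.chi v - 1) • B.cx v) _ v :=
    ((w1.differentiable (by norm_num) v).hasFDerivAt.sub_const 1).smul (B.calc_coord v).1
  have d2 : ∀ u, fderiv ℝ (fun v => (B.chi v - 1) • B.cx v) v u = (B.chi v - 1) • vt B.S.iw u +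
      (2 * deriv B.χ (‖B.cx v‖ ^ 2) * ⟪u, B.cx v⟫) • B.cx v := fun u => by
    rw [d1.fderiv, real_inner_comm, ← (w2 v).2.2.2.2.2.2.2.2.2.2.2.2.2.2 u]
    rfl
  have hv : ∀ j, vt B.S.iw (B.S.ic (ev j)) = B.S.ic (ev j) := fun j =>
    vt_of_pr _ (ext_inner_left ℝ fun u => by rw [← inner_iota, B.S.orth, inner_zero_right])
  have t1 := (B.trace_split (p.adjoint ∘L p ∘L vtL B.S.iw) 0).1
  have t2 := (B.trace_split (p.adjoint ∘L p) 0).1
  have t3 := (B.trace_split (vtL B.S.iw) 0).1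
  simp only [ContinuousLinearMap.comp_apply, ContinuousLinearMap.adjoint_inner_right, vtL_apply,
    vt_iota, hv, map_zero, inner_zero_right, real_inner_self_eq_norm_sq, Finset.sum_const_zero,
    zero_add, B.S.ic.norm_map, norm_ev, one_pow, Finset.sum_const, Finset.card_univ,
    Fintype.card_fin, nsmul_eq_mul, mul_one, Nat.cast_ofNat] at t1 t2 t3
  have t4 : ∑ i, ⟪ev i, B.cx v⟫ * ⟪p (ev i), p (B.cx v)⟫ = ‖B.cx v‖ ^ 2 * ‖p (B.ur v)‖ ^ 2 := by
    simp only [← ContinuousLinearMap.adjoint_inner_right p]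
    rw [sum_inner_ev, ContinuousLinearMap.adjoint_inner_right, real_inner_self_eq_norm_sq,
      ← mul_pow, Tb.ur, map_smul, norm_smul, norm_inv, norm_norm]
    rcases eq_or_ne (B.cx v) 0 with h0 | h0
    · simp [h0]
    · rw [mul_inv_cancel_left₀ (norm_ne_zero_iff.2 h0)]
  have t5 := sum_inner_ev (B.cx v) (B.cx v)
  rw [real_inner_self_eq_norm_sq] at t5
  simp only [TubeI_st, d2, map_add, map_smul, inner_add_right, inner_smul_right, mul_assoc,
    Finset.sum_add_distrib, ← Finset.mul_sum, t1, t3, t4, t5, Tq, Tb.vth]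
  rw [t2]
  ring

/-- Let `X = (chi - 1) • cx` and `Z = (Dw)ᵀ (Dw X) - |Dw|² / 2 • X`, of class `C¹` with compact
support. Then `dv Z = ⟪lap w, Dw X⟫ + (1 - chi) ∑ i, ‖Dw (iw e_i)‖² - vth Tq (Dw) ur` (`hess_symm`,
`trace_split`, `weights`), and `chi = 1` for `‖cx‖ ≤ ra`. -/
theorem Tb.pohozaev {k Q : ℕ} {A C C' : ℝ} {T : TI k N Q A C} (B : Tb T C') (h : C' ≤ T.Λ)
    {w : E (k + 2) → E N} (hw : ContDiff ℝ 2 w) (hc : HasCompactSupport w) :
    Integrable (fun v => B.vth v * Tq (fderiv ℝ w v) (B.ur v)) ∧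
    -∫ v in {v | T.ra ≤ ‖B.cx v‖}, ‖lap w v‖ * ‖fderiv ℝ w v‖ * ‖B.cx v‖ ≤
      ∫ v, B.vth v * Tq (fderiv ℝ w v) (B.ur v) := by
  obtain ⟨w1, -⟩ := B.weights h
  have h1 : ContDiff ℝ 1 w := hw.of_le (by norm_num)
  have cx1 := ((B.calc_coord 0).2.2 1).1
  have k1 : ContDiff ℝ 1 fun v => B.chi v - 1 := (w1.of_le (by norm_num)).sub contDiff_const
  obtain ⟨i1, i2, e⟩ := TubeI_poh hw hc (X := fun v => (B.chi v - 1) • B.cx v) (k1.smul cx1)
  have i3 : Integrable fun v => (1 - B.chi v) * ∑ i, ‖fderiv ℝ w v (B.S.iw (ev i))‖ ^ 2 := by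
    refine Continuous.integrable_of_hasCompactSupport
      ((continuous_const.sub w1.continuous).mul
        (continuous_finsetSum _ fun i _ => (Conv_cf h1 _).norm.pow 2)) (HasCompactSupport.mul_left ?_)
    exact (hc.fderiv ℝ).comp_left
      (g := fun p : E (k + 2) →L[ℝ] E N => ∑ i, ‖p (B.S.iw (ev i))‖ ^ 2) (by simp)
  have e2 : (fun v => B.vth v * Tq (fderiv ℝ w v) (B.ur v)) = fun v =>
      (1 - B.chi v) * ∑ i, ‖fderiv ℝ w v (B.S.iw (ev i))‖ ^ 2 -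
        TubeI_st (fderiv ℝ w v) (fderiv ℝ (fun v => (B.chi v - 1) • B.cx v) v) := by
    funext v
    rw [B.TubeI_shell h]
    ring
  rw [e2]
  refine ⟨i3.sub i2, ?_⟩
  have n3 : 0 ≤ ∫ v, (1 - B.chi v) * ∑ i, ‖fderiv ℝ w v (B.S.iw (ev i))‖ ^ 2 :=
    integral_nonneg fun v => mul_nonneg (sub_nonneg.2 (B.prof.bd _).2.1)
      (Finset.sum_nonneg fun i _ => sq_nonneg _)
  have hm : MeasurableSet {v | T.ra ≤ ‖B.cx v‖} :=
    (isClosed_le continuous_const cx1.continuous.norm).measurableSet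
  have i4 : Integrable fun v => ‖lap w v‖ * ‖fderiv ℝ w v‖ * ‖B.cx v‖ :=
    (((continuous_lap hw).norm.mul (h1.continuous_fderiv one_ne_zero).norm).mul
      cx1.continuous.norm).integrable_of_hasCompactSupport (hc.fderiv ℝ).norm.mul_left.mul_right
  have n4 := integral_mono i1.neg (i4.indicator hm) fun v => by
    simp only [Pi.neg_apply]
    by_cases hv : v ∈ {v | T.ra ≤ ‖B.cx v‖}
    · rw [indicator_of_mem hv, mul_assoc]
      refine (neg_le_abs _).trans ((abs_real_inner_le_norm _ _).trans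
        (mul_le_mul_of_nonneg_left (((fderiv ℝ w v).le_opNorm _).trans
          (mul_le_mul_of_nonneg_left ?_ (norm_nonneg _))) (norm_nonneg _)))
      rw [norm_smul, Real.norm_eq_abs]
      refine mul_le_of_le_one_left (norm_nonneg _) (abs_le.2 ?_)
      have a0 : 0 ≤ B.chi v := (B.prof.bd _).1
      have a1 : B.chi v ≤ 1 := (B.prof.bd _).2.1
      constructor <;> linarith
    · have a0 : B.chi v = 1 :=
        B.prof.one _ (pow_le_pow_left₀ (norm_nonneg _) (not_le.1 hv).le 2)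
      rw [indicator_of_notMem hv, a0, sub_self, zero_smul, map_zero, inner_zero_right, neg_zero]
  simp only [Pi.neg_apply] at n4
  rw [integral_indicator hm, integral_neg] at n4
  rw [integral_sub i3 i2]
  linarith

end Pool.Agent.MP_f6c0e6_an.Gen

end
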