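import Pool.Agent.MP_f6c0e6_an.All.TubeB
import Pool.Agent.MP_f6c0e6_an.All.TubeA

section

/-! The energy of the necks in the shell is isotropic. -/

set_option autoImplicit false

open MeasureTheory Filter Topology Set Metric
open scoped ENNReal RealInnerProductSpace

namespace Pool.Agent.MP_f6c0e6_an.Gen

variable {m N : ℕ}

/-- For a unit vector `t`, `v = x - s`, `Γ = Gm a b`, `Γ̃ = Gt a b`, use `ee_dv` for
`X = ⟪t, v⟫ Γ t + (1 / 2) ⟪t, v⟫² Γ̃ v`. Then `dv X = Γ + (1 / 2) ⟪t, v⟫² (rho a - rho b)` and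
`N : DX = Γ N (t, t) + (1 / 2) ⟪t, v⟫² Γ̃ d + (1 / 2) ⟪t, v⟫² N (v, ∇Γ̃)`, where `∇Γ̃ = - Γ̂ v`,
`Γ̂ ≥ 0`, `Γ̂ |v|² = m Γ̃ - rho a + rho b` (`dv_Gt`, `fderiv_rho`). Hence
`∫ Γ (N (t, t) - d / 2) ≤ - Y (dv X) / 2 + DD (⟪t, v⟫² rho a) / 4 +
(1 / 2) ∫ (m Γ̃ + rho b) N (v, v)`, and `∫ Γ̃ N (v, v) = Phi b - Phi a + Y Γ` by `integral_nn`;
`- Phi s a ≤ Q a² / 10`. -/
theorem Flat.iso_point {Q : ℕ} {A : ℝ} (F : Flat m N Q A) (s t : E m) (ht : ‖t‖ = 1) {a b : ℝ}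
    (ha : 0 < a) (hab : a ≤ b) (h : ‖s‖ + b < 10) :
    ∫ y, Gm a b (F.x y - s) * (F.NN y t t - F.d y / 2) ∂F.μ ≤
      ((m : ℝ) - 1) / 2 * F.Y (fun v => Gm a b (v - s)) +
        |F.Y fun v => ⟪t, v - s⟫ ^ 2 * rho b (v - s)| / 4 + m / 2 * F.Phi s b + F.nn s b / 2 +
        a ^ 2 * ((m + 1) * Q + (m + 1) * ∫ y, rho a (F.x y - s) ∂F.μ) := by
  exact F.TubeG_iso s t ht ha hab h

theorem TubeG_lap {V : E m → ℝ} (hV : ContDiff ℝ 2 V) {l : ℝ} (hl : 0 ≤ l) (x : E m)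
    (h0 : 0 ≤ V x) {c : ℝ} (hc : 0 ≤ c) (h : lap V x ≤ c) :
    lap (fun ξ => 1 - (max (1 - l * V ξ) 0) ^ 3) x ≤ 3 * l * c := by
  have d1 : ∀ ξ, HasFDerivAt (fun ξ => l * V ξ) (l • fderiv ℝ V ξ) ξ := fun ξ =>
    (hV.differentiable (by norm_num) ξ).hasFDerivAt.const_mul l
  have e1 : fderiv ℝ (fun ξ => 1 - (max (1 - l * V ξ) 0) ^ 3) =
      fun ξ => (3 * l * (max (1 - l * V ξ) 0) ^ 2) • fderiv ℝ V ξ := by
    funext ξ
    have h2 := ((Kern_deriv 1 (l * V ξ)).comp_hasFDerivAt ξ (d1 ξ)).const_sub 1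
    have h1 : HasFDerivAt (fun ξ => 1 - (max (1 - l * V ξ) 0) ^ 3) _ ξ := h2
    rw [h1.fderiv]
    ext u
    simp only [neg_apply, smul_apply, smul_eq_mul]
    push_cast
    ring
  have d2 : HasFDerivAt (fderiv ℝ V) (fderiv ℝ (fderiv ℝ V) x) x :=
    (((hV.fderiv_right (m := 1) (by norm_num)).differentiable one_ne_zero) x).hasFDerivAt
  have d5 := ((Kern_deriv 0 (l * V x)).comp_hasFDerivAt x (d1 x)).const_mul (3 * l)
  have d3 : HasFDerivAt (fun ξ => 3 * l * (max (1 - l * V ξ) 0) ^ 2) _ x := d5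
  have d4 := (d3.fun_smul d2).fderiv
  have p0 : 0 ≤ max (1 - l * V x) 0 := le_max_right _ _
  have p1 : max (1 - l * V x) 0 ≤ 1 := max_le (by linarith only [hl, h0, mul_nonneg hl h0]) zero_le_one
  have p2 : 0 ≤ 3 * l * (max (1 - l * V x) 0) ^ 2 := by positivity
  have p3 : 3 * l * (max (1 - l * V x) 0) ^ 2 ≤ 3 * l :=
    mul_le_of_le_one_right (by positivity) (pow_le_one₀ p0 p1)
  calc lap (fun ξ => 1 - (max (1 - l * V ξ) 0) ^ 3) x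
      ≤ 3 * l * (max (1 - l * V x) 0) ^ 2 * lap V x := by
        unfold lap
        rw [e1, d4, Finset.mul_sum]
        refine Finset.sum_le_sum fun i _ => ?_
        simp only [add_apply, smul_apply, ContinuousLinearMap.smulRight_apply, smul_eq_mul]
        have : 0 ≤ l * l * max (1 - l * V x) 0 * (fderiv ℝ V x (ev i) * fderiv ℝ V x (ev i)) :=
          mul_nonneg (by positivity) (mul_self_nonneg _)
        push_cast
        linarith only [this]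
    _ ≤ 3 * l * (max (1 - l * V x) 0) ^ 2 * c := mul_le_mul_of_nonneg_left h p2
    _ ≤ 3 * l * c := mul_le_mul_of_nonneg_right p3 hc

theorem TubeG_cmp {w H : E m → ℝ} (iw : Integrable w) (pw : ∀ s, 0 ≤ w s) (mH : Measurable H)
    {β θ η c f : ℝ} (bH : ∀ s, |H s| ≤ β) (hθ : 0 ≤ θ) (h : ∀ s, w s ≠ 0 → |H s - c| ≤ θ)
    (hc : |c| ≤ β) (hf : |(∫ s, w s) - f| ≤ η) (hf1 : f ≤ 1) :
    |(∫ s, w s * H s) - c * f| ≤ θ * (1 + η) + β * η := by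
  have i1 : Integrable fun s => w s * H s :=
    iw.mul_bdd mH.aestronglyMeasurable (ae_of_all _ bH)
  have h1 : |(∫ s, w s * H s) - (∫ s, w s) * c| ≤ (∫ s, w s) * θ := by
    rw [← integral_mul_const, ← integral_mul_const, ← integral_sub i1 (iw.mul_const c)]
    rw [← Real.norm_eq_abs]
    refine norm_integral_le_of_norm_le (iw.mul_const θ) (ae_of_all _ fun s => ?_)
    rw [← mul_sub, Real.norm_eq_abs, abs_mul, abs_of_nonneg (pw s)]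
    by_cases h0 : w s = 0
    · rw [h0, zero_mul, zero_mul]
    · exact mul_le_mul_of_nonneg_left (h s h0) (pw s)
  have h2 : |c * ((∫ s, w s) - f)| ≤ β * η := by
    rw [abs_mul]
    exact mul_le_mul hc hf (abs_nonneg _) ((abs_nonneg _).trans hc)
  have h3 : (∫ s, w s) * θ ≤ (1 + η) * θ :=
    mul_le_mul_of_nonneg_right (by linarith [(abs_le.1 hf).2]) hθ
  obtain ⟨h4, h5⟩ := abs_le.1 h1
  obtain ⟨h6, h7⟩ := abs_le.1 h2
  exact abs_le.2 ⟨by linarith, by linarith⟩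

theorem TubeG_ind {X : Type} [MeasurableSpace X] {ν : Measure X} {f g : X → ℝ} {Z : Set X}
    (mZ : MeasurableSet Z) (hf : Integrable f ν) (hg : IntegrableOn g Z ν) (c : ℝ)
    (h1 : ∀ s ∈ Z, f s ≤ c * g s) (h2 : ∀ s, s ∉ Z → f s ≤ 0) :
    ∫ s, f s ∂ν ≤ c * ∫ s in Z, g s ∂ν := by
  rw [← integral_const_mul, ← integral_indicator mZ]
  refine integral_mono hf ((integrable_indicator_iff mZ).2 (hg.const_mul c)) fun s => ?_
  by_cases hs : s ∈ Z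
  · rw [indicator_of_mem hs]
    exact h1 s hs
  · rw [indicator_of_notMem hs]
    exact h2 s hs

theorem TubeG_N (ι : E m →ₗᵢ[ℝ] E N) {s : Fin m → E N} (hs : Orthonormal ℝ s) {u u' : E m}
    (hu : ‖u‖ ≤ 1) (hu' : ‖u'‖ ≤ 1) : |NF ι s u u - tlt ι s / 2| ≤ tlt ι s ∧
      |NF ι s u u - NF ι s u' u'| ≤ 2 * tlt ι s * ‖u - u'‖ := by
  have h0 := (tlt_bd ι hs).1
  obtain ⟨h1, h2, -⟩ := NF_bd ι hs u u
  have h3 : tlt ι s * ‖u‖ ^ 2 ≤ tlt ι s :=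
    mul_le_of_le_one_right h0 (pow_le_one₀ (norm_nonneg _) hu)
  refine ⟨abs_le.2 ⟨by linarith only [h0, h1], by linarith only [h0, h2, h3]⟩, ?_⟩
  have e1 : NF ι s u u = NF ι s u' u + NF ι s (u - u') u := by
    rw [← NF_add, add_sub_cancel]
  have e2 : NF ι s u u' = NF ι s u' u' + NF ι s (u - u') u' := by
    rw [← NF_add, add_sub_cancel]
  have p := mul_nonneg h0 (norm_nonneg (u - u'))
  have k1 := abs_le.1 ((NF_bd ι hs (u - u') u).2.2.2.1.trans (mul_le_of_le_one_right p hu))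
  have k2 := abs_le.1 ((NF_bd ι hs (u - u') u').2.2.2.1.trans (mul_le_of_le_one_right p hu'))
  rw [NF_symm ι s u' u] at e1
  exact abs_le.2 ⟨by linarith [k1.1, k2.1], by linarith [k1.2, k2.2]⟩

theorem TubeG_P0 (k : ℕ) : 47 + (20 * k + 60) * (k + 2) * 2 ≤ P0 k := by
  have h : P0 k = 47 + (20 * k + 60) * (k + 2) * 2 +
      (1000 * k ^ 3 + 11960 * k ^ 2 + 47800 * k + 63713) := by
    unfold P0
    ring
  rw [h]
  exact Nat.le_add_right _ _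

namespace TI

variable {k Q : ℕ} {A C : ℝ} (T : TI k N Q A C)

/-- the basic small quantity -/
noncomputable def TubeG_e : ℝ := T.Λ ^ 40 / T.L / T.rp ^ (k + 2)

theorem TubeG_num : 0 < T.rp ∧ T.rp ≤ 1 ∧ 1000 * T.rp ≤ T.ra ∧ T.G ≤ T.rp ∧ 0 < T.TubeG_e ∧
    T.TubeG_e ≤ (T.Λ ^ 7)⁻¹ * T.rp ^ (k + 2) ∧ T.TubeG_e ≤ (T.Λ ^ 7)⁻¹ ∧
    T.Λ ^ 40 / T.L ≤ T.TubeG_e ∧ T.rp ≤ (T.Λ ^ 7)⁻¹ * T.ra ∧ 0 < (T.Λ ^ 7)⁻¹ ∧
    (T.Λ ^ 7)⁻¹ ≤ 1 ∧ (T.Λ ^ 7)⁻¹ * (T.eps * T.M) = T.er ∧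
    T.L / T.G ^ 2 * (T.eps * T.M) ≤ T.Λ ^ 40 / T.L ∧ 0 < T.eps * T.M ∧ T.rb ≤ 1 := by
  obtain ⟨n1, n2, -, -, n3, n4, n5, -, n6, n7, n8, n9, -, n10, n11, n12, n13, n14, -⟩ := T.num
  have hΛ : 1 ≤ T.Λ := by linarith only [n4, n6, n7, n8, T.Λ_ge]
  have hG := T.G_pos
  have hrb : T.rb ≤ 1 := n6.trans (by norm_num)
  have h1 : T.rp ≤ 1 := by linarith only [n4, n6, n7, n8]
  have h2 : T.rp ^ (k + 2) ≤ 1 := pow_le_one₀ n4.le h1
  have h3 : T.ak ≤ T.ak * T.L := le_mul_of_one_le_right (by linarith only [n10, n11, hG]) n9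
  have h4 : (T.Λ ^ 7)⁻¹ ≤ 1 := inv_le_one_of_one_le₀ (one_le_pow₀ hΛ)
  have h5 : T.TubeG_e ≤ (T.Λ ^ 7)⁻¹ * T.rp ^ (k + 2) := by
    have h6 : T.Λ ^ (47 + (20 * k + 60) * (k + 2) * 2) ≤ T.L :=
      (pow_le_pow_right₀ hΛ (TubeG_P0 k)).trans T.L_ge
    unfold TubeG_e rp
    rw [inv_pow, ← pow_mul]
    rw [pow_add, pow_mul _ _ 2] at h6
    have h7 : 0 < T.Λ ^ ((20 * k + 60) * (k + 2)) := by positivity
    generalize T.Λ ^ ((20 * k + 60) * (k + 2)) = P at h6 h7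
    rw [div_inv_eq_mul, div_mul_eq_mul_div, div_le_iff₀ (by linarith only [n4, n6, n7, n8, n9])]
    calc T.Λ ^ 40 * P = (T.Λ ^ 7)⁻¹ * P⁻¹ * (T.Λ ^ 47 * P ^ 2) := by field_simp
      _ ≤ (T.Λ ^ 7)⁻¹ * P⁻¹ * T.L := by gcongr
  refine ⟨n4, h1, n7, by linarith only [n3, n10, n11, n12, h3], by unfold TubeG_e; positivity, h5,
    h5.trans (mul_le_of_le_one_right (by positivity) h2),
    le_div_self (by positivity) (by positivity) h2, ?_, by positivity, h4, ?_, ?_,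
    mul_pos n1 T.M_pos, hrb⟩
  · rw [← n5]
    calc T.rp = (T.Λ ^ 7)⁻¹ * (T.rp * T.Λ ^ 7) := by field_simp
      _ ≤ (T.Λ ^ 7)⁻¹ * (T.rp * T.Λ ^ 10) := by gcongr; norm_num
  · rw [n13]
    field_simp
  · calc T.L / T.G ^ 2 * (T.eps * T.M)
        ≤ T.L / T.G ^ 2 * (T.Λ ^ 36 / T.L ^ 2 * T.G ^ 2) := by gcongr
      _ = T.Λ ^ 36 / T.L := by field_simp
      _ ≤ T.Λ ^ 40 / T.L := by gcongr; norm_num

theorem TubeG_intU : Integrable T.U := by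
  obtain ⟨n1, -, -, n2, -⟩ := T.TubeG_num
  exact T.Fu_bd.1.continuous.integrable_of_hasCompactSupport
    (T.contDiff_UU T.G_pos (by linarith)).2.1.mul_left

end TI

namespace Tb

section

variable {k Q : ℕ} {A C C' : ℝ} {T : TI k N Q A C} (B : Tb T C')

theorem TubeG_ut {v : E (k + 2)} (h : B.cx v ≠ 0) : ‖B.ut v‖ = 1 := by
  have h1 : ‖B.ur v‖ = 1 := norm_smul_inv_norm (𝕜 := ℝ) h
  have h2 : B.ur v = ∑ j, ⟪B.S.ic (ev j), B.ur v⟫ • B.S.ic (ev j) := by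
    unfold ur
    simp only [real_inner_smul_right, mul_smul, ← Finset.smul_sum]
    rw [← (B.coord v v 0).2.2.2.2.2]
  have h3 : ⟪B.ur v, B.ur v⟫ = ⟪B.S.ic (ev 0), B.ur v⟫ ^ 2 + ⟪B.S.ic (ev 1), B.ur v⟫ ^ 2 := by
    nth_rewrite 1 [h2]
    rw [Fin.sum_univ_two, inner_add_left, real_inner_smul_left, real_inner_smul_left]
    ring
  have h4 : ⟪B.S.ic (ev 1), B.S.ic (ev 0)⟫ = 0 := by
    rw [LinearIsometry.inner_map_map, inner_ev]
    simp [ev]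
  rw [real_inner_self_eq_norm_sq, h1] at h3
  have h5 : ‖B.ut v‖ ^ 2 = 1 := by
    unfold ut
    rw [norm_sub_sq_real, real_inner_smul_left, real_inner_smul_right, h4, norm_smul, norm_smul,
      LinearIsometry.norm_map, LinearIsometry.norm_map, norm_ev, norm_ev, mul_one, mul_one,
      Real.norm_eq_abs, Real.norm_eq_abs, sq_abs, sq_abs]
    linarith
  exact (pow_eq_one_iff_of_nonneg (norm_nonneg _) two_ne_zero).1 h5

theorem TubeG_geo : (∀ ρ, ρ ≤ T.ra / 2 → thickening ρ B.Sh0 ⊆ B.Sh) ∧ B.Sh0 ⊆ B.Sh ∧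
    (∀ ξ ∈ B.Sh, ∀ ρ, ρ ≤ T.ra / 4 → T.DS (ball ξ ρ) ≤ T.eps * T.M) ∧
    T.DS B.Sh ≤ T.eps * T.M ∧
    (∀ x ∈ thickening T.rp B.Sh0, ∀ s, ‖x - s‖ < T.rp → s ∈ B.Sh) ∧
    ∀ v, 1 ≤ ‖v‖ → v ∉ B.Sh := by
  obtain ⟨n1, -, n2, -⟩ := T.TubeG_num
  obtain ⟨s1, s2, s3, -⟩ := B.shell_sub
  refine ⟨fun ρ h => (thickening_mono h _).trans s1,
    (self_subset_thickening (by linarith only [n1, n2]) _).trans s1, fun ξ hξ ρ h => (T.DS_mono
      (((ball_subset_thickening hξ ρ).trans (thickening_mono h _)).trans s2)).2.trans s3,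
    (T.DS_mono ((self_subset_thickening (by linarith) _).trans s2)).2.trans s3,
    fun x hx s h => s1 ?_, fun v hv h => by linarith [h.1]⟩
  obtain ⟨z, hz, hd⟩ := mem_thickening_iff.1 hx
  refine mem_thickening_iff.2 ⟨z, hz, ?_⟩
  rw [← dist_eq_norm, dist_comm] at h
  linarith [dist_triangle s x z]

theorem TubeG_lam {ξ : E (k + 2)} (hξ : ξ ∈ B.Sh) :
    lap T.Fu ξ ≤ 3 / cg (k + 2) * T.TubeG_e := by
  obtain ⟨n1, -, n2, n3, -, -, -, -, -, -, -, -, n4, n5, -⟩ := T.TubeG_num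
  have hc := cg_pos (k + 2)
  have hG := T.G_pos
  have hL : 0 < T.L := lt_of_lt_of_le one_pos T.num.2.2.2.2.2.2.2.2.2.2.2.1
  have h30 : T.G ≤ 30 * T.rp := by linarith only [n1, n3]
  obtain ⟨u1, -, u2⟩ := T.contDiff_UU hG h30
  have h1 : T.DD (fun v => rho (30 * T.rp) (v - ξ)) ≤
      1 / (cg (k + 2) * T.rp ^ (k + 2)) * (T.eps * T.M) := by
    refine ((le_abs_self _).trans (T.abs_DD_le (f := fun v => rho (30 * T.rp) (v - ξ))
      (M := 1 / (cg (k + 2) * T.rp ^ (k + 2)))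
      ((contDiff_rho _).continuous.comp (continuous_id.sub continuous_const)).measurable
      (fun v => ?_) (measurableSet_ball (x := ξ) (ε := 30 * T.rp)) fun v hv => ?_)).trans
      (mul_le_mul_of_nonneg_left (B.TubeG_geo.2.2.1 ξ hξ _ (by linarith)) (by positivity))
    · rw [abs_of_nonneg (rho_nonneg (by linarith) _)]
      refine (rho_le (by linarith) _).trans ?_
      gcongr
      linarith
    · rw [mem_ball, dist_eq_norm, not_lt] at hv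
      exact rho_eq_zero (by linarith) hv
  have h2 : 0 ≤ T.DD fun v => rho T.G (v - ξ) := T.DD_nonneg fun v => rho_nonneg hG _
  refine (TubeG_lap u1 (l := T.L / T.G ^ 2) (by positivity) ξ
    (T.UU_mono hG le_rfl h30 le_rfl ξ).1
    (c := 1 / (cg (k + 2) * T.rp ^ (k + 2)) * (T.eps * T.M)) (by positivity)
    (by rw [u2]; linarith only [h1, h2])).trans ?_
  calc 3 * (T.L / T.G ^ 2) * (1 / (cg (k + 2) * T.rp ^ (k + 2)) * (T.eps * T.M))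
      = 3 / cg (k + 2) * (T.L / T.G ^ 2 * (T.eps * T.M) / T.rp ^ (k + 2)) := by field_simp
    _ ≤ 3 / cg (k + 2) * T.TubeG_e := by
      unfold TI.TubeG_e
      gcongr

theorem TubeG_W {CG K a : ℝ} (hCG : ∫ v : E (k + 2), Gm a T.rp v ≤ CG * T.rp ^ 2) (hCG0 : 0 ≤ CG)
    (hU : ∫ ξ in B.Sh, T.U ξ ≤ T.rp ^ 2 * T.Λ ^ 40 / T.L) (hK : Lip K T.Fu) (hK0 : 0 ≤ K)
    (ha : 0 < a) (hab : a ≤ T.rp) (haK : K * a ≤ (T.Λ ^ 7)⁻¹) {x : E (k + 2)}
    (hx : x ∈ thickening T.rp B.Sh0) :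
    |(∫ s, (3 / cg (k + 2) * T.TubeG_e - lap T.Fu s) * Gm a T.rp (x - s)) - T.Fu x| ≤
      (1 + 3 / cg (k + 2) + 3 / cg (k + 2) * CG) * (T.Λ ^ 7)⁻¹ := by
  obtain ⟨n1, n2, -, -, n3, -, n4, -⟩ := T.TubeG_num
  obtain ⟨-, f1, f2, f3⟩ := T.Fu_bd
  have hc := cg_pos (k + 2)
  have cs : Continuous fun s : E (k + 2) => s - x := continuous_id.sub continuous_const
  have aG : Adm fun s => Gm a T.rp (s - x) := Adm.of_cont
    ((contDiff_Gm ha hab).1.continuous.comp cs) fun s hs => (Gm_eq_zero ha hab (TubeG_far hs)).1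
  have ar : Adm fun s => rho T.rp (s - x) := Adm.of_cont
    ((contDiff_rho _).continuous.comp cs) fun s hs => rho_eq_zero n1 (TubeG_far hs)
  have e1 : ∫ s, (3 / cg (k + 2) * T.TubeG_e - lap T.Fu s) * Gm a T.rp (x - s) =
      3 / cg (k + 2) * T.TubeG_e * (∫ v : E (k + 2), Gm a T.rp v) -
        ((∫ s, rho T.rp (s - x) • T.Fu s) - ∫ s, rho a (s - x) • T.Fu s) := by
    rw [green_Gm f1 ha hab, ← integral_sub_right_eq_self (Gm a T.rp) x, ← integral_const_mul]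
    simp only [smul_eq_mul]
    rw [← integral_sub (aG.integrable.const_mul _) (aG.mul_cont (continuous_lap f1)).integrable]
    refine integral_congr_ae (ae_of_all _ fun s => ?_)
    beta_reduce
    rw [← (Gm_neg a T.rp (x - s)).1, neg_sub]
    ring
  have k1 : |(∫ s, rho a (s - x) • T.Fu s) - T.Fu x| ≤ K * a := (moll_lip hK hK0 ha).2.2.2 x
  have k2 : 0 ≤ ∫ s, rho T.rp (s - x) • T.Fu s :=
    integral_nonneg fun s => mul_nonneg (rho_nonneg n1 _) (f3 s).2.1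
  have k3 : ∫ s, rho T.rp (s - x) • T.Fu s ≤
      3 / (cg (k + 2) * T.rp ^ (k + 2)) * ∫ s in B.Sh, T.U s :=
    TubeG_ind B.measurable_all.2.2.2.2.2.1.measurableSet (ar.mul_cont f1.continuous).integrable
      T.TubeG_intU.integrableOn _ (fun s _ => by
        calc rho T.rp (s - x) • T.Fu s ≤ 1 / (cg (k + 2) * T.rp ^ (k + 2)) * (3 * T.U s) :=
              mul_le_mul (rho_le n1 _) (f3 s).2.2.2.1 (f3 s).2.1 (by positivity)
          _ = _ := by ring)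
      fun s hs => by
        rw [rho_eq_zero n1 (not_lt.1 fun h => hs (B.TubeG_geo.2.2.2.2.1 x hx s
          (by rwa [norm_sub_rev]))), zero_mul]
  have hp : T.rp ^ 2 ≤ 1 := pow_le_one₀ n1.le n2
  have hq : 0 ≤ T.Λ ^ 40 / T.L := by
    have := T.num.2.2.2.2.2.2.2.2.2.2.2.1
    positivity
  have k4 : 3 / (cg (k + 2) * T.rp ^ (k + 2)) * ∫ s in B.Sh, T.U s ≤
      3 / cg (k + 2) * (T.Λ ^ 7)⁻¹ := by
    calc 3 / (cg (k + 2) * T.rp ^ (k + 2)) * ∫ s in B.Sh, T.U s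
        ≤ 3 / (cg (k + 2) * T.rp ^ (k + 2)) * (T.Λ ^ 40 / T.L) := by
          gcongr
          rw [mul_div_assoc] at hU
          exact hU.trans (mul_le_of_le_one_left hq hp)
      _ = 3 / cg (k + 2) * T.TubeG_e := by unfold TI.TubeG_e; field_simp
      _ ≤ _ := by gcongr
  have k5 : 0 ≤ 3 / cg (k + 2) * T.TubeG_e * ∫ v : E (k + 2), Gm a T.rp v :=
    mul_nonneg (by positivity) (integral_nonneg fun v => (Gm_nonneg ha hab v).1)
  have k6 : 3 / cg (k + 2) * T.TubeG_e * ∫ v : E (k + 2), Gm a T.rp v ≤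
      3 / cg (k + 2) * (T.Λ ^ 7)⁻¹ * CG := by
    have := hCG.trans (mul_le_of_le_one_right hCG0 hp)
    calc _ ≤ 3 / cg (k + 2) * T.TubeG_e * CG := by gcongr
      _ ≤ _ := by gcongr
  obtain ⟨k7, k8⟩ := abs_le.1 k1
  rw [e1]
  exact abs_le.2 ⟨by linarith only [haK, k3, k4, k5, k6, k7], by linarith only [haK, k2, k3, k4, k6, k8]⟩

theorem TubeG_mass (hC : C' ≤ T.Λ) {Cc : ℝ} (hCc : 0 ≤ Cc) {χ : E (k + 2) → ℝ}
    (x1 : Test 3 χ (thickening T.rp B.Sh0)) (x2 : ∀ x, 0 ≤ χ x ∧ χ x ≤ 1)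
    (x3 : ∀ x ∈ thickening (T.rp / 4) B.Sh0, χ x = 1)
    (x4 : Bd2 χ 1 (Cc / T.rp) (Cc / T.rp ^ 2))
    (hU : ∫ ξ in B.Sh, T.U ξ ≤ T.rp ^ 2 * T.Λ ^ 40 / T.L) :
    ∫ s, B.phi s * (3 / cg (k + 2) * T.TubeG_e - lap T.Fu s) ≤
      2 * (3 / cg (k + 2) * 2 ^ (k + 4) + 3 * (k + 2 : ℕ) * Cc) * T.TubeG_e := by
  obtain ⟨n1, -, n2, -, n3, -, -, n4, -, -, -, -, -, -, n5⟩ := T.TubeG_num
  obtain ⟨-, f1, f2, f3⟩ := T.Fu_bd
  obtain ⟨g1, g2, -, -, -, g3⟩ := B.TubeG_geo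
  obtain ⟨-, -, -, -, -, -, w1, -⟩ := B.weights hC
  have hc := cg_pos (k + 2)
  have mS := B.measurable_all.2.2.2.2.2.1.measurableSet
  have hs : tsupport χ ⊆ B.Sh := x1.supp.trans (g1 _ (by linarith))
  have c2 : ContDiff ℝ 2 χ := x1.smooth.of_le (by norm_num)
  have aχ : Adm χ := Adm.of_cpt x1.smooth.continuous x1.cpt
  have zχ : ∀ s, s ∉ B.Sh → χ s = 0 := fun s h => image_eq_zero_of_notMem_tsupport fun h' => h (hs h')
  have i1 := (aχ.mul_cont (continuous_lap f1)).integrable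
  have k1 : ∫ s, B.phi s * (3 / cg (k + 2) * T.TubeG_e - lap T.Fu s) ≤
      ∫ s, (2 * (3 / cg (k + 2) * T.TubeG_e) * χ s - 2 * (χ s * lap T.Fu s)) := by
    refine integral_mono_of_nonneg (ae_of_all _ fun s => ?_)
      ((aχ.integrable.const_mul _).sub (i1.const_mul _)) (ae_of_all _ fun s => ?_)
    · by_cases h : s ∈ B.Sh0
      · exact mul_nonneg (w1 s).2.2.2.1 (sub_nonneg.2 (B.TubeG_lam (g2 h)))
      · show 0 ≤ B.phi s * _
        rw [(w1 s).2.2.2.2.2.1 h, zero_mul]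
    · beta_reduce
      by_cases h : s ∈ B.Sh0
      · have := mul_le_mul_of_nonneg_right (w1 s).2.2.2.2.1 (sub_nonneg.2 (B.TubeG_lam (g2 h)))
        rw [x3 s (self_subset_thickening (by linarith only [n1]) _ h)]
        linarith only [this]
      · rw [(w1 s).2.2.2.2.2.1 h, zero_mul]
        by_cases h' : s ∈ B.Sh
        · have := mul_nonneg (x2 s).1 (sub_nonneg.2 (B.TubeG_lam h'))
          linarith only [this]
        · rw [zχ s h']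
          linarith only []
  rw [integral_sub (aχ.integrable.const_mul _) (i1.const_mul _), integral_const_mul,
    integral_const_mul] at k1
  have k2 : ∫ s, χ s ≤ 2 ^ (k + 4) := by
    have h1 : volume B.Sh ≠ ⊤ := ((isBounded_ball (x := (0 : E (k + 2))) (r := 1)).subset
      fun v hv => mem_ball_zero_iff.2 (not_le.1 fun h => g3 v h hv)).measure_lt_top.ne
    have h2 := TubeG_ind (g := fun _ => (1 : ℝ)) mS aχ.integrable (integrableOn_const h1) 1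
      (fun s _ => by linarith only [(x2 s).2]) fun s h => (zχ s h).le
    rw [setIntegral_const, smul_eq_mul, mul_one, one_mul] at h2
    have h3 : T.rb ^ 2 ≤ 1 := pow_le_one₀ (by unfold TI.rb; have := T.Λ_ge; positivity) n5
    exact (h2.trans B.shell_sub.2.2.2).trans (mul_le_of_le_one_right (by positivity) h3)
  have k3 : ∫ s, -(T.Fu s * lap χ s) ≤
      3 * (k + 2 : ℕ) * Cc / T.rp ^ 2 * ∫ s in B.Sh, T.U s :=
    TubeG_ind mS ((Adm.of_cpt f1.continuous f2).mul_cont (continuous_lap c2)).integrable.neg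
      T.TubeG_intU.integrableOn _ (fun s _ => by
        have h1 : |lap χ s| ≤ (k + 2 : ℕ) * (Cc / T.rp ^ 2) :=
          (norm_lap_le χ s).trans (mul_le_mul_of_nonneg_left (x4.b2 s) (Nat.cast_nonneg _))
        calc -(T.Fu s * lap χ s) = T.Fu s * -lap χ s := by ring
          _ ≤ T.Fu s * ((k + 2 : ℕ) * (Cc / T.rp ^ 2)) :=
            mul_le_mul_of_nonneg_left ((neg_le_abs _).trans h1) (f3 s).2.1
          _ ≤ 3 * T.U s * ((k + 2 : ℕ) * (Cc / T.rp ^ 2)) :=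
            mul_le_mul_of_nonneg_right (f3 s).2.2.2.1 (by positivity)
          _ = _ := by ring)
      fun s h => by
        have h1 : fderiv ℝ (fderiv ℝ χ) s = 0 := by
          by_contra h1
          exact h (hs (tsupport_fderiv_subset ℝ (support_fderiv_subset ℝ h1)))
        simp [lap, h1]
  have k4 : ∫ s, -(T.Fu s * lap χ s) = -∫ s, χ s * lap T.Fu s := by
    rw [integral_neg]
    congr 1
    have := integral_green c2 x1.cpt f1
    simp only [smul_eq_mul] at this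
    rw [← this]
    exact integral_congr_ae (ae_of_all _ fun s => mul_comm _ _)
  have k5 : 3 * (k + 2 : ℕ) * Cc / T.rp ^ 2 * ∫ s in B.Sh, T.U s ≤
      3 * (k + 2 : ℕ) * Cc * T.TubeG_e := by
    calc 3 * (k + 2 : ℕ) * Cc / T.rp ^ 2 * ∫ s in B.Sh, T.U s
        ≤ 3 * (k + 2 : ℕ) * Cc / T.rp ^ 2 * (T.rp ^ 2 * T.Λ ^ 40 / T.L) := by gcongr
      _ = 3 * (k + 2 : ℕ) * Cc * (T.Λ ^ 40 / T.L) := by field_simp
      _ ≤ _ := by gcongr
  have k6 := mul_le_mul_of_nonneg_left k2 (by positivity : 0 ≤ 2 * (3 / cg (k + 2) * T.TubeG_e))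
  linarith only [k1, k3, k4, k5, k6]

theorem TubeG_R {Cs : ℝ} (hCs : 0 ≤ Cs)
    (H : ∀ (f : E (k + 2) → ℝ) (t : ℝ), Measurable f → (∀ v, |f v| ≤ t) →
      (∀ v, v ∉ thickening (T.ra / 8) B.Sh → f v = 0) →
      |T.Y f| ≤ Cs * t * (T.eps * T.M) ∧ |T.ee f| ≤ Cs * t * (T.eps * T.M))
    {s t : E (k + 2)} (hs : s ∈ B.Sh) (ht : ‖t‖ ≤ 1) :
    |T.Y fun v => ⟪t, v - s⟫ ^ 2 * rho T.rp (v - s)| / 4 + (k + 2 : ℕ) / 2 * T.Phi s T.rp +
      T.nn s T.rp / 2 ≤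
      (Cs + (k + 2 : ℕ) * Cs + 1) * (1 / (cg (k + 2) * T.rp ^ (k + 2)) * (T.eps * T.M)) := by
  obtain ⟨n1, n2, n3, -, -, -, -, -, -, -, -, -, -, n4, -⟩ := T.TubeG_num
  have hc := cg_pos (k + 2)
  have hp : T.rp ^ 2 ≤ 1 := pow_le_one₀ n1.le n2
  have cs : Continuous fun v : E (k + 2) => v - s := continuous_id.sub continuous_const
  have hz : ∀ v, v ∉ thickening (T.ra / 8) B.Sh → T.rp ≤ ‖v - s‖ := fun v hv =>
    not_lt.1 fun h => hv (mem_thickening_iff.2 ⟨s, hs, by rw [dist_eq_norm]; linarith only [n1, n3, h]⟩)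
  have k1 := (H (fun v => ⟪t, v - s⟫ ^ 2 * rho T.rp (v - s)) (1 / (cg (k + 2) * T.rp ^ (k + 2)))
    (((continuous_const.inner cs).pow 2).mul ((contDiff_rho _).continuous.comp cs)).measurable
    (fun v => by
      rw [abs_of_nonneg (mul_nonneg (sq_nonneg _) (rho_nonneg n1 _))]
      rcases le_total T.rp ‖v - s‖ with h | h
      · rw [rho_eq_zero n1 h, mul_zero]
        positivity
      · have h1 : |⟪t, v - s⟫| ≤ 1 := (abs_real_inner_le_norm _ _).trans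
          (mul_le_one₀ ht (norm_nonneg _) (h.trans n2))
        exact (mul_le_of_le_one_left (rho_nonneg n1 _) ((sq_le_one_iff_abs_le_one _).2 h1)).trans
          (rho_le n1 _))
    fun v hv => by rw [rho_eq_zero n1 (hz v hv), mul_zero]).1
  have k2 := (H (fun v => pk T.rp (v - s)) (1 / (cg (k + 2) * T.rp ^ (k + 2)))
    ((contDiff_pk _).continuous.comp cs).measurable
    (fun v => by
      rw [abs_of_nonneg (pk_nonneg n1 _)]
      exact ((pk_le n1 _).1.trans (mul_le_of_le_one_left (rho_nonneg n1 _) (by linarith only [hp]))).trans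
        (rho_le n1 _))
    fun v hv => pk_eq_zero n1 (hz v hv)).2
  have k3 : T.nn s T.rp ≤ 1 / (cg (k + 2) * T.rp ^ (k + 2)) * (T.eps * T.M) := by
    have h1 := (T.nn_cmp s n1).2
    have h2 := B.TubeG_geo.2.2.1 s hs T.rp (by linarith only [n1, n3])
    have h3 : T.rp ^ 2 * T.DS (ball s T.rp) ≤ 1 * (T.eps * T.M) :=
      mul_le_mul hp h2 (T.DS_mono subset_rfl).1 zero_le_one
    rw [div_mul_eq_mul_div, le_div_iff₀ (by positivity)]
    linarith only [h1, h3]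
  have k4 : T.Phi s T.rp ≤ Cs * (1 / (cg (k + 2) * T.rp ^ (k + 2))) * (T.eps * T.M) :=
    (le_abs_self _).trans k2
  have k5 := mul_le_mul_of_nonneg_left k4 (by positivity : (0 : ℝ) ≤ (k + 2 : ℕ) / 2)
  have k6 : 0 ≤ 1 / (cg (k + 2) * T.rp ^ (k + 2)) * (T.eps * T.M) := by positivity
  rw [mul_assoc] at k1 k5
  generalize 1 / (cg (k + 2) * T.rp ^ (k + 2)) * (T.eps * T.M) = z at *
  have k7 : 0 ≤ Cs * z := by positivity
  have k8 : 0 ≤ (k + 2 : ℕ) * (Cs * z) := by positivity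
  linarith only [k1, k3, k5, k6, k7, k8]

theorem TubeG_master (hC : C' ≤ T.Λ) {lam : E (k + 2) → ℝ} (cl : Continuous lam)
    (pl : ∀ s ∈ B.Sh, 0 ≤ lam s) {a δ c : ℝ} (ha : 0 < a) (hab : a ≤ T.rp)
    (hδ : T.rp ≤ δ * T.ra) (hδ0 : 0 ≤ δ) (hδ1 : δ ≤ 1) (hc : 0 ≤ c)
    (hW : ∀ x ∈ thickening T.rp B.Sh0, |(∫ s, lam s * Gm a T.rp (x - s)) - T.Fu x| ≤ c * δ)
    {h : E (k + 2) → ℝ} (mh : Measurable h) {β : ℝ} (bh : ∀ s, |h s| ≤ β) (x : E (k + 2))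
    (lh : ∀ s ∈ B.Sh0, ‖x - s‖ < T.rp → |h s - h x| ≤ 4 * β * δ) :
    (x ∉ thickening T.rp B.Sh0 →
      (∫ s, B.phi s * lam s * (Gm a T.rp (x - s) * h s)) - B.phi x * T.Fu x * h x = 0) ∧
    |(∫ s, B.phi s * lam s * (Gm a T.rp (x - s) * h s)) - B.phi x * T.Fu x * h x| ≤
      ((8 * C' + 4 * C + 8) * (1 + c) + 2 * c) * δ * β := by
  obtain ⟨n1, -, n2, -⟩ := T.TubeG_num
  obtain ⟨-, -, -, -, -, w0, w1, -, -, -, -, -, w2⟩ := B.weights hC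
  have hβ : 0 ≤ β := (abs_nonneg _).trans (bh 0)
  have hP : 0 ≤ 8 * C' + 4 * C := by linarith [B.C_ge, T.C_ge]
  have hz : x ∉ thickening T.rp B.Sh0 →
      (∫ s, B.phi s * lam s * (Gm a T.rp (x - s) * h s)) - B.phi x * T.Fu x * h x = 0 := by
    intro hx
    rw [(w1 x).2.2.2.2.2.1 fun h' => hx (self_subset_thickening n1 _ h'), zero_mul, zero_mul,
      sub_zero]
    refine integral_eq_zero_of_ae (ae_of_all _ fun s => ?_)
    show B.phi s * lam s * (Gm a T.rp (x - s) * h s) = 0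
    by_cases hs : s ∈ B.Sh0
    · rw [(Gm_eq_zero ha hab (not_lt.1 fun h' => hx (mem_thickening_iff.2
        ⟨s, hs, by rwa [dist_eq_norm]⟩))).1, zero_mul, mul_zero]
    · rw [(w1 s).2.2.2.2.2.1 hs, zero_mul, zero_mul]
  refine ⟨hz, ?_⟩
  by_cases hx : x ∈ thickening T.rp B.Sh0
  swap
  · rw [hz hx, abs_zero]
    positivity
  have aG : Adm fun s => Gm a T.rp (x - s) := Adm.of_cont
    ((contDiff_Gm ha hab).1.continuous.comp (continuous_const.sub continuous_id))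
    fun s hs => (Gm_eq_zero ha hab (by rw [norm_sub_rev]; exact TubeG_far hs)).1
  have bH : ∀ s, |B.phi s * h s| ≤ 2 * β := fun s => by
    rw [abs_mul, abs_of_nonneg (w1 s).2.2.2.1]
    exact mul_le_mul (w1 s).2.2.2.2.1 (bh s) (abs_nonneg _) zero_le_two
  have near : ∀ s, lam s * Gm a T.rp (x - s) ≠ 0 → ‖x - s‖ < T.rp := fun s hs =>
    not_le.1 fun h' => hs (by rw [(Gm_eq_zero ha hab h').1, mul_zero])
  have key := TubeG_cmp (w := fun s => lam s * Gm a T.rp (x - s)) (H := fun s => B.phi s * h s)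
    (by simpa only [mul_comm] using (aG.mul_cont cl).integrable)
    (fun s => by
      by_cases hs : lam s * Gm a T.rp (x - s) = 0
      · exact hs.ge
      · exact mul_nonneg (pl s (B.TubeG_geo.2.2.2.2.1 x hx s (near s hs))) (Gm_nonneg ha hab _).1)
    (w0.continuous.measurable.mul mh) bH (θ := (8 * C' + 4 * C + 8) * (δ * β)) (by positivity)
    (fun s hs => by
      have h1 := near s hs
      have h2 : |B.phi s - B.phi x| ≤ (8 * C' + 4 * C) * δ := by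
        refine le_trans (w2 s x) ?_
        rw [norm_sub_rev, div_mul_eq_mul_div, div_le_iff₀ (by linarith), mul_assoc]
        exact mul_le_mul_of_nonneg_left (by linarith) hP
      have h3 : |(B.phi s - B.phi x) * h x| ≤ (8 * C' + 4 * C) * δ * β := by
        rw [abs_mul]
        exact mul_le_mul h2 (bh x) (abs_nonneg _) (by positivity)
      have h4 : |B.phi s * (h s - h x)| ≤ 2 * (4 * β * δ) := by
        by_cases h5 : s ∈ B.Sh0
        · rw [abs_mul, abs_of_nonneg (w1 s).2.2.2.1]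
          exact mul_le_mul (w1 s).2.2.2.2.1 (lh s h5 h1) (abs_nonneg _) zero_le_two
        · rw [(w1 s).2.2.2.2.2.1 h5, zero_mul, abs_zero]
          positivity
      obtain ⟨h5, h6⟩ := abs_le.1 h3
      obtain ⟨h7, h8⟩ := abs_le.1 h4
      exact abs_le.2 ⟨by linarith, by linarith⟩)
    (bH x) (hW x hx) (T.Fu_bd.2.2.2 x).2.2.1
  have e1 : ∫ s, B.phi s * lam s * (Gm a T.rp (x - s) * h s) =
      ∫ s, lam s * Gm a T.rp (x - s) * (B.phi s * h s) :=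
    integral_congr_ae (ae_of_all _ fun s => by ring)
  rw [e1, mul_right_comm]
  refine key.trans ?_
  have h1 : (8 * C' + 4 * C + 8) * (δ * β) * (1 + c * δ) ≤
      (8 * C' + 4 * C + 8) * (δ * β) * (1 + c) :=
    mul_le_mul_of_nonneg_left (by linarith [mul_le_of_le_one_right hc hδ1]) (by positivity)
  linarith

end

/-- Put `λ₀ = L / G²`, `λ̃ = - lap Fu + 3 λ₀ DD (rho (30 rp) (· - ξ))`, which is continuous and
non-negative (`lap Fu = F'' |∇U|² + F' lap U`, `F'' ≤ 0`, `0 ≤ F' ≤ 3`, `contDiff_UU`). With a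
cut-off function equal to one on `thickening (2 rp) Sh0` and supported in `Sh` (`exists_cut_set`),
Green's identity and `mass_U`, the integral of `λ̃` over `thickening (2 rp) Sh0` is at most
`Λ ^ 41 / L`. Let `0 < a ≤ rp`, `Γ = Gm a rp`. By `green_Gm`, on `thickening rp Sh0`,
`Γ * λ̃ = rho a * Fu - rho rp * Fu + 3 λ₀ Γ * DD rho = Fu + O (a Lip Fu) + O (sm)`. Integrate
`iso_point` with `t = ut s` against `phi s λ̃ s ds` (`lin_integral`); the terms at the scale `rp` are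
at most `C eps M / rp ^ k` (`Xi_le`, `S0a`, `nn_cmp`), the last term integrates to `O (a²)`.
Replacing `phi s N (ut s, ut s)` by `phi x N (ut x, ut x)` costs `C (rp / ra) eps M`; in the same
way `Y (Γ * (phi λ̃)) = Y (phi Fu) +` small (`shell_Y`), and
`Y (phi Fu) = Y phi - Y (phi (1 - Fu))`, where the last term is bounded by the pair energy
(`shell_Y`). Let `a` tend to zero and use `Nr - d / 2 + Nw = d / 2 - N (ut, ut)`. -/
theorem neck_part (k Q : ℕ) (A C C' : ℝ) : ∃ C'' Λ₀ : ℝ, 1 ≤ C'' ∧ ∀ {N : ℕ} {T : TI k N Q A C}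
    (B : Tb T C'), Λ₀ ≤ T.Λ →
    -(C'' * (|T.Y B.phi| + T.RS T.g T.ak B.Sh + T.er)) ≤
      ∫ y, B.phi (T.x y) * T.Fu (T.x y) * (B.Nr y - T.d y / 2 + B.Nw y) ∂T.μ := by
  obtain ⟨Cs, Λs, s1, Hs⟩ := shell_Y k Q A C C'
  obtain ⟨Λu, Hu⟩ := mass_U k Q A C C'
  obtain ⟨CG, g1, HG⟩ := integral_Gm (k + 2)
  obtain ⟨Cc, c1, Hc⟩ := exists_cut_set (k + 2)
  have hcg := cg_pos (k + 2)
  obtain ⟨c₂, hc₂⟩ : ∃ c, c = 1 + 3 / cg (k + 2) + 3 / cg (k + 2) * CG := ⟨_, rfl⟩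
  obtain ⟨c₃, hc₃⟩ : ∃ c, c = (8 * C' + 4 * C + 8) * (1 + c₂) + 2 * c₂ := ⟨_, rfl⟩
  obtain ⟨c₄, hc₄⟩ : ∃ c : ℝ, c = 2 * (3 / cg (k + 2) * 2 ^ (k + 4) + 3 * (k + 2 : ℕ) * Cc) :=
    ⟨_, rfl⟩
  obtain ⟨c₅, hc₅⟩ : ∃ c : ℝ, c = Cs + (k + 2 : ℕ) * Cs + 1 := ⟨_, rfl⟩
  have p2 : 0 ≤ c₂ := by rw [hc₂]; positivity
  have p4 : 0 ≤ c₄ := by rw [hc₄]; positivity
  have p5 : 0 ≤ c₅ := by rw [hc₅]; positivity
  refine ⟨max 1 (c₃ + (k + 2 : ℕ) * (1 + 2 * Cs + Cs * c₃) + c₅ * c₄ / cg (k + 2) + 1),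
    max (max Λs Λu) C', le_max_left _ _, fun {N T} B hΛ => ?_⟩
  have hC : C' ≤ T.Λ := (le_max_right _ _).trans hΛ
  obtain ⟨y1, y2, -⟩ := Hs B (((le_max_left _ _).trans (le_max_left _ _)).trans hΛ)
  have hU := (Hu B (((le_max_right _ _).trans (le_max_left _ _)).trans hΛ)).2
  have p3 : 0 ≤ c₃ := by
    have : 0 ≤ 8 * C' + 4 * C + 8 := by linarith only [B.C_ge, T.C_ge]
    rw [hc₃]
    positivity
  obtain ⟨n1, n2, n3, n4, n5, n6, -, -, n7, n8, n9, n10, -, n11, -⟩ := T.TubeG_num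
  have er0 : 0 < T.er := T.num.2.1
  obtain ⟨-, f1, f2, f3⟩ := T.Fu_bd
  obtain ⟨e1, e2, -, e3, -, e4⟩ := B.TubeG_geo
  obtain ⟨-, -, -, -, -, w0, w1, -⟩ := B.weights hC
  obtain ⟨-, -, -, mu, cpt, -⟩ := B.measurable_all
  obtain ⟨mx, -, ma, -, md, mN, -⟩ := T.measurable_all
  obtain ⟨χ, x1, x2, x3, x4⟩ := Hc B.Sh0 T.rp cpt.isBounded n1
  have hm := B.TubeG_mass hC (by linarith only [c1]) x1 x2 x3 x4 hU
  rw [← hc₄] at hm
  obtain ⟨K, hK⟩ := exists_Bd2 f1 f2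
  have hK0 : 0 ≤ K := (norm_nonneg _).trans (hK.b0 0)
  have lK : Lip K T.Fu := fun x x' => Convex.norm_image_sub_le_of_norm_fderiv_le
    (fun z _ => f1.differentiable (by norm_num) z) (fun z _ => hK.b1 z) convex_univ
    (mem_univ x') (mem_univ x)
  have hW := fun a ha hab haK x hx => B.TubeG_W (a := a) (x := x) (HG a T.rp ha hab).1
    (by linarith only [g1]) hU lK hK0 ha hab haK hx
  rw [← hc₂] at hW
  have pl : ∀ s ∈ B.Sh, 0 ≤ 3 / cg (k + 2) * T.TubeG_e - lap T.Fu s := fun s hs =>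
    sub_nonneg.2 (B.TubeG_lam hs)
  have cl : Continuous fun s => 3 / cg (k + 2) * T.TubeG_e - lap T.Fu s :=
    continuous_const.sub (continuous_lap f1)
  obtain ⟨lam, hlam⟩ : ∃ lam : E (k + 2) → ℝ,
      ∀ s, 3 / cg (k + 2) * T.TubeG_e - lap T.Fu s = lam s := ⟨_, fun _ => rfl⟩
  simp only [hlam] at hm hW pl cl
  have ap : Adm B.phi := Adm.of_cont w0.continuous fun v hv =>
    (w1 v).2.2.2.2.2.1 fun h => e4 v hv (e2 h)
  have in0 : ∀ s, B.phi s ≠ 0 → s ∈ B.Sh0 := fun s h =>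
    by_contra fun h' => h ((w1 s).2.2.2.2.2.1 h')
  have cx0 : ∀ s ∈ B.Sh0, B.cx s ≠ 0 := fun s hs => norm_pos_iff.1 (by linarith only [n1, n3, hs.2.1])
  obtain ⟨K₀, hK₀, HI⟩ := T.TubeG_int (φ := fun s => B.phi s * lam s) (u := B.ut) (ap.mul_cont cl)
    (fun s => by
      by_cases h : B.phi s = 0
      · rw [h, zero_mul]
      · exact mul_nonneg (w1 s).2.2.2.1 (pl s (e2 (in0 s h))))
    mu (fun s => (B.ur_bd s s).2.1) (b := T.rp)
    (R₀ := c₅ * (1 / (cg (k + 2) * T.rp ^ (k + 2)) * (T.eps * T.M))) fun s hs => by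
      have h := in0 s (left_ne_zero_of_mul hs)
      exact ⟨B.TubeG_ut (cx0 s h), by linarith only [n2, e2, (e2 h).1],
        hc₅ ▸ B.TubeG_R (by linarith only [s1]) y1 (e2 h) (B.ur_bd s s).2.1⟩
  obtain ⟨δ, hδ⟩ : ∃ δ, δ = (T.Λ ^ 7)⁻¹ := ⟨_, rfl⟩
  rw [← hδ] at hW n6 n7 n8 n9 n10
  obtain ⟨a, ha, hab, haK, haK₀⟩ : ∃ a, 0 < a ∧ a ≤ T.rp ∧ K * a ≤ δ ∧ a ^ 2 * K₀ ≤ T.er := by
    refine ⟨min T.rp (min (δ / (K + 1)) (T.er / (K₀ + 1))), by positivity, min_le_left _ _, ?_⟩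
    have h0 : 0 < min T.rp (min (δ / (K + 1)) (T.er / (K₀ + 1))) := by positivity
    have h1 := (min_le_left T.rp (min (δ / (K + 1)) (T.er / (K₀ + 1)))).trans n2
    have h2 := (le_div_iff₀ (by positivity)).1
      ((min_le_right T.rp _).trans (min_le_left (δ / (K + 1)) (T.er / (K₀ + 1))))
    have h3 := (le_div_iff₀ (by positivity)).1
      ((min_le_right T.rp _).trans (min_le_right (δ / (K + 1)) (T.er / (K₀ + 1))))
    generalize min T.rp (min (δ / (K + 1)) (T.er / (K₀ + 1))) = a at h0 h1 h2 h3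
    have h4 : a * (a * K₀) ≤ a * K₀ := mul_le_of_le_one_left (by positivity) h1
    exact ⟨by linarith only [h0, h2], by linarith only [h0, h3, h4]⟩
  obtain ⟨i1, i2, i3⟩ := HI a ha hab
  have HM := fun h mh β bh x lh => B.TubeG_master hC cl pl ha hab n7 n8.le n9 p2
    (hW a ha hab haK) (h := h) mh (β := β) bh x lh
  rw [← hc₃] at HM
  -- the defect
  have M1 := fun x => HM (fun _ => 1) measurable_const 1 (fun _ => by simp) x fun s _ _ => by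
    rw [sub_self, abs_zero]
    positivity
  simp only [mul_one] at M1
  have apF : Adm fun x => B.phi x * T.Fu x := ap.mul_cont f1.continuous
  have k1 := (y1 _ _ (i2.sub apF).1 (fun x => (M1 x).2) fun x hx => (M1 x).1 fun h =>
    hx (self_subset_thickening (by linarith only [n1, n3]) _ (e1 _ (by linarith only [n1, n3]) h))).1
  have k2 := y2 (fun x => B.phi x - B.phi x * T.Fu x) 2 (ap.sub apF).1
    (fun x => by
      have h1 := mul_nonneg (w1 x).2.2.2.1 (f3 x).2.1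
      have h2 := mul_le_of_le_one_right (w1 x).2.2.2.1 (f3 x).2.2.1
      exact abs_le.2 ⟨by linarith only [h2], by linarith only [h1, (w1 x).2.2.2.2.1]⟩)
    fun x hx => by
      show B.phi x - B.phi x * T.Fu x = 0
      rcases hx with h | h
      · rw [(w1 x).2.2.2.2.2.1 h, zero_mul, sub_zero]
      · rw [(f3 x).2.2.2.2 h.le, mul_one, sub_self]
  rw [(T.lin_sub i2 apF).2.2, mul_assoc, mul_assoc, n10] at k1
  rw [(T.lin_sub ap apF).2.2] at k2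
  -- the stress
  have M2 := fun y => HM (fun s => T.NN y (B.ut s) (B.ut s) - T.d y / 2)
    (((mu.inner mu).sub (Finset.measurable_sum _ fun l _ =>
      (measurable_const.inner mu).mul (measurable_const.inner mu))).sub measurable_const)
    (T.d y) (fun s => (TubeG_N T.ι (T.fr.orth y) (B.ur_bd s s).2.1 (B.ur_bd s s).2.1).1) (T.x y)
    fun s hs h => by
      rw [sub_sub_sub_cancel_right]
      refine (TubeG_N T.ι (T.fr.orth y) (B.ur_bd s s).2.1 (B.ur_bd (T.x y) s).2.1).2.trans ?_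
      have h1 := (B.ur_bd s (T.x y)).2.2.2
      have h2 := mul_le_mul_of_nonneg_right hs.2.1 (norm_nonneg (B.ut s - B.ut (T.x y)))
      rw [norm_sub_rev s] at h1
      have h3 : ‖B.ut s - B.ut (T.x y)‖ ≤ 2 * δ :=
        le_of_mul_le_mul_left (a := T.ra) (by linarith only [n7, h, h1, h2]) (by linarith only [n1, n3])
      have h4 := mul_le_mul_of_nonneg_left h3 (T.d_bd y).1
      show 2 * T.d y * _ ≤ _
      linarith only [h4]
  have iG : Integrable (fun y => B.phi (T.x y) * T.Fu (T.x y) *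
      (T.NN y (B.ut (T.x y)) (B.ut (T.x y)) - T.d y / 2)) T.μ :=
    (T.TubeG_intx (w0.continuous.mul f1.continuous)).mul_bdd
      ((mN _ _ (mu.comp mx) (mu.comp mx)).sub (md.div_const 2)).aestronglyMeasurable
      (c := (k + 2 : ℕ)) (ae_of_all _ fun y => (TubeG_N T.ι (T.fr.orth y)
        (B.ur_bd (T.x y) 0).2.1 (B.ur_bd (T.x y) 0).2.1).1.trans (T.d_bd y).2)
  have k3 := TubeG_ind (mx (isOpen_thickening (δ := T.rp) (E := B.Sh0)).measurableSet)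
    (f := fun y => B.phi (T.x y) * T.Fu (T.x y) *
      (T.NN y (B.ut (T.x y)) (B.ut (T.x y)) - T.d y / 2) -
      ∫ s, B.phi s * lam s * (Gm a T.rp (T.x y - s) * (T.NN y (B.ut s) (B.ut s) - T.d y / 2)))
    (iG.sub i1) T.integrable_d.integrableOn (c₃ * δ)
    (fun y _ => by linarith only [(abs_le.1 (M2 y).2).1]) fun y hy => by linarith only [hy, (M2 y).1 hy]
  rw [integral_sub iG i1] at k3
  have k4 : c₃ * δ * ∫ y in T.x ⁻¹' thickening T.rp B.Sh0, T.d y ∂T.μ ≤ c₃ * T.er := by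
    rw [← n10, ← mul_assoc]
    exact mul_le_mul_of_nonneg_left ((T.DS_mono (e1 _ (by linarith only [n1, n3]))).2.trans e3) (by positivity)
  have k5 : c₅ * (1 / (cg (k + 2) * T.rp ^ (k + 2)) * (T.eps * T.M)) * ∫ s, B.phi s * lam s ≤
      c₅ * c₄ / cg (k + 2) * T.er := by
    calc _ ≤ c₅ * (1 / (cg (k + 2) * T.rp ^ (k + 2)) * (T.eps * T.M)) *
          (c₄ * (δ * T.rp ^ (k + 2))) :=
          mul_le_mul_of_nonneg_left (hm.trans (mul_le_mul_of_nonneg_left n6 p4)) (by positivity)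
      _ = c₅ * c₄ / cg (k + 2) * (δ * (T.eps * T.M)) := by field_simp
      _ = _ := by rw [n10]
  have e5 : ∫ y, B.phi (T.x y) * T.Fu (T.x y) * (B.Nr y - T.d y / 2 + B.Nw y) ∂T.μ =
      -∫ y, B.phi (T.x y) * T.Fu (T.x y) *
        (T.NN y (B.ut (T.x y)) (B.ut (T.x y)) - T.d y / 2) ∂T.μ := by
    rw [← integral_neg]
    refine integral_congr_ae (ae_of_all _ fun y => ?_)
    beta_reduce
    by_cases h : B.phi (T.x y) = 0
    · rw [h, zero_mul, zero_mul, zero_mul, neg_zero]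
    · have := (B.Nw_bd y).2.2.2.2.2 _ (cx0 _ (in0 _ h))
      rw [← mul_neg]
      congr 1
      unfold Nr
      linarith only [this]
  have r0 : 0 ≤ T.RS T.g T.ak B.Sh := by
    have h1 := T.num
    have h2 := T.G_pos
    have h3 := B.measurable_all.2.2.2.2.2.1.measurableSet
    exact (T.RS_mono (by linarith only [h1, h2, h1.2.2.2.2.2.2.2.2.2.2.2.2.2.1])
      (by linarith only [h1, h2, h1.2.2.2.2.2.2.2.2.2.2.2.2.2.1, h1.2.2.2.2.2.2.2.2.2.2.2.2.2.2.1]) h3 h3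
      subset_rfl).1
  rw [e5, neg_le_neg_iff]
  have a0 := abs_nonneg (T.Y B.phi)
  refine le_trans ?_ (mul_le_mul_of_nonneg_right (le_max_right _ _) (by positivity))
  have k6 : |T.Y fun x => ∫ s, B.phi s * lam s * Gm a T.rp (x - s)| ≤
      (1 + 2 * Cs + Cs * c₃) * (|T.Y B.phi| + T.RS T.g T.ak B.Sh + T.er) := by
    obtain ⟨h1, h2⟩ := abs_le.1 k1
    obtain ⟨h3, h4⟩ := abs_le.1 k2
    have h5 := le_abs_self (T.Y B.phi)
    have h6 := neg_abs_le (T.Y B.phi)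
    have q1 : 0 ≤ Cs * |T.Y B.phi| := by positivity
    have q2 : 0 ≤ Cs * T.er := by positivity
    have q3 : 0 ≤ Cs * c₃ * |T.Y B.phi| := by positivity
    have q4 : 0 ≤ Cs * c₃ * T.RS T.g T.ak B.Sh := by positivity
    exact abs_le.2 ⟨by linarith only [er0, r0, h1, h4, h6, q1, q2, q3, q4], by linarith only [er0, r0, h2, h3, h5, q1, q2, q3, q4]⟩
  have k7 : (((k + 2 : ℕ) : ℝ) - 1) / 2 * T.Y (fun x => ∫ s, B.phi s * lam s * Gm a T.rp (x - s)) ≤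
      (k + 2 : ℕ) * ((1 + 2 * Cs + Cs * c₃) * (|T.Y B.phi| + T.RS T.g T.ak B.Sh + T.er)) := by
    have h1 : (1 : ℝ) ≤ (k + 2 : ℕ) := by exact_mod_cast Nat.le_add_left 1 (k + 1)
    exact (mul_le_mul_of_nonneg_left ((le_abs_self _).trans k6) (by linarith only [h1])).trans
      (mul_le_mul_of_nonneg_right (by linarith only [h1]) ((abs_nonneg _).trans k6))
  have q1 : 0 ≤ c₃ * (|T.Y B.phi| + T.RS T.g T.ak B.Sh) := by positivity
  have q2 : 0 ≤ c₅ * c₄ / cg (k + 2) * (|T.Y B.phi| + T.RS T.g T.ak B.Sh) := by positivity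
  linarith only [haK₀, i3, k3, k4, k5, r0, a0, k7, q1, q2]

end Tb

end Pool.Agent.MP_f6c0e6_an.Gen

end

section

/-! The potential of the source in the core of the tube. -/

set_option autoImplicit false

open MeasureTheory Filter Topology Set Metric
open scoped ENNReal RealInnerProductSpace

namespace Pool.Agent.MP_f6c0e6_an.Gen

variable {m N : ℕ}

/-- the gradient of the truncated potential -/
theorem TubeM_ker (k : ℕ) : ∃ C : ℝ, 1 ≤ C ∧ ∀ a b : ℝ, 0 < a → a ≤ b → ∀ v e : E (k + 2),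
    |fderiv ℝ (Gm a b) v e| ≤ C / (max ‖v‖ a) ^ (k + 1) * ‖e‖ := by
  obtain ⟨C, hC, h⟩ := Gt_bd (k + 2) (by omega)
  refine ⟨C, hC, fun a b ha hab v e => ?_⟩
  have h1 := (h a b ha hab v).1
  have h0 := (Gm_nonneg ha hab v).2
  have hp : 0 < max ‖v‖ a := lt_max_of_lt_right ha
  have h2 : |⟪v, e⟫| ≤ max ‖v‖ a * ‖e‖ := (abs_real_inner_le_norm v e).trans
    (mul_le_mul_of_nonneg_right (le_max_left _ _) (norm_nonneg _))
  rw [fderiv_Gm ha hab, abs_mul, abs_neg, abs_of_nonneg h0]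
  refine (mul_le_mul h1 h2 (abs_nonneg _) (h0.trans h1)).trans (le_of_eq ?_)
  have := hp.ne'
  field_simp
  ring

theorem TubeM_ker0 {a b : ℝ} (ha : 0 < a) (hab : a ≤ b) {v : E m} (hv : b ≤ ‖v‖) (e : E m) :
    fderiv ℝ (Gm a b) v e = 0 := by
  rw [fderiv_Gm ha hab, (Gm_eq_zero ha hab hv).2, neg_zero, zero_mul]

theorem TubeM_keradd {a b c : ℝ} (ha : 0 < a) (hab : a ≤ b) (hbc : b ≤ c) (v e : E m) :
    fderiv ℝ (Gm a c) v e = fderiv ℝ (Gm a b) v e + fderiv ℝ (Gm b c) v e := by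
  rw [fderiv_Gm ha (hab.trans hbc), fderiv_Gm ha hab, fderiv_Gm (ha.trans_le hab) hbc,
    (Gm_add ha hab hbc v).2]
  ring

theorem TubeM_Bd2 {a b : ℝ} (ha : 0 < a) (hab : a ≤ b) :
    ∃ K : ℝ, Bd2 (Gm a b : E m → ℝ) K K K := by
  refine exists_Bd2 ((contDiff_Gm ha hab).1.of_le (by norm_num)) ?_
  refine HasCompactSupport.intro (isCompact_closedBall (0 : E m) b) fun x hx => ?_
  exact (Gm_eq_zero ha hab (not_le.1 fun h => hx (mem_closedBall_zero_iff.2 h)).le).1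

theorem TubeM_int {Ω : Type} [MeasurableSpace Ω] {μ : Measure Ω} {ζ : Ω → E m}
    (hζ : Measurable ζ) {w : Ω → E N} (hw : Integrable w μ) {a b : ℝ} (ha : 0 < a) (hab : a ≤ b)
    (ξ e : E m) : Integrable (fun y => fderiv ℝ (Gm a b) (ζ y - ξ) e • w y) μ := by
  obtain ⟨K, hK⟩ := TubeM_Bd2 (m := m) ha hab
  exact Conv_int (ContinuousLinearMap.lsmul ℝ ℝ) hζ hw (k := fun v => fderiv ℝ (Gm a b) v e)
    (Conv_cf ((contDiff_Gm ha hab).1.of_le (by norm_num)) e) (a := K * ‖e‖)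
    (fun x => ((fderiv ℝ (Gm a b) x).le_opNorm e).trans
      (mul_le_mul_of_nonneg_right (hK.b1 x) (norm_nonneg _))) ξ

/-- a bound for an integral over a set in terms of the energy -/
theorem TubeM_DS {Q : ℕ} {A : ℝ} (F : Flat m N Q A) {S : Set (E N)} (hS : MeasurableSet S)
    {Z : Set (E m)} (hZ : MeasurableSet Z) {f : E N → E N} {t : ℝ} (ht : 0 ≤ t)
    (h : ∀ y ∈ S, f y = 0 ∨ (F.x y ∈ Z ∧ ‖f y‖ ≤ t * F.d y)) :
    ‖∫ y in S, f y ∂F.μ‖ ≤ t * F.DS Z := by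
  have hZ' : MeasurableSet (F.x ⁻¹' Z) := F.measurable_all.1 hZ
  have hi : Integrable ((F.x ⁻¹' Z).indicator fun y => t * F.d y) F.μ :=
    (F.integrable_d.const_mul t).indicator hZ'
  have h0 : ∀ y, 0 ≤ (F.x ⁻¹' Z).indicator (fun y => t * F.d y) y := fun y =>
    indicator_nonneg (fun y _ => mul_nonneg ht (F.d_bd y).1) y
  refine (norm_integral_le_of_norm_le hi.restrict ?_).trans ?_
  · refine ae_restrict_of_forall_mem hS fun y hy => ?_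
    rcases h y hy with h1 | h1
    · rw [h1, norm_zero]
      exact h0 y
    · rw [indicator_of_mem (show y ∈ F.x ⁻¹' Z from h1.1)]
      exact h1.2
  · refine (setIntegral_le_integral hi (ae_of_all _ h0)).trans (le_of_eq ?_)
    rw [integral_indicator hZ', integral_const_mul, Flat.DS]

namespace Tb

variable {k Q : ℕ} {A C C' : ℝ} {T : TI k N Q A C} (B : Tb T C')

/-- the points over the core -/
def TubeM_Co : Set (E N) := T.x ⁻¹' {v | ‖v‖ < 1 ∧ ‖B.cx v‖ ≤ T.ra / 4}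

/-- the potential of the source `σ` in the core -/
noncomputable def TubeM_w (σ : E N → E N) (ξ : E (k + 2)) : E N :=
  ∫ y in B.TubeM_Co, Gm T.rp T.rp⁻¹ (T.x y - ξ) • -(B.chc (T.x y) • σ y) ∂T.μ

theorem TubeM_mCo : MeasurableSet B.TubeM_Co := B.TubeC_meas _

theorem TubeM_num (T : TI k N Q A C) : 0 < T.rp ∧ T.rp ≤ 1 / 10 ∧ 1 / 10 ≤ T.rp⁻¹ ∧
    T.rp ≤ T.rp⁻¹ ∧ 1000 * T.rp ≤ T.ra ∧ 1000 * T.ra ≤ T.rb ∧ T.rb ≤ 1 / 100 := by
  obtain ⟨-, -, -, -, -, n6, -, -, n9, n10, n11, -⟩ := T.num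
  have h1 : T.rb ≤ 1 / 100 := n9.trans (by norm_num)
  have h2 : T.rp ≤ 1 / 10 := by linarith
  have h3 : 1 ≤ T.rp⁻¹ := (one_le_inv₀ n6).2 (by linarith)
  exact ⟨n6, h2, by linarith, by linarith, n10, n11, h1⟩

theorem TubeM_chc (v : E (k + 2)) : 0 ≤ B.chc v ∧ B.chc v ≤ 1 ∧
    (B.chc v ≠ 0 → ‖B.ax (B.wx v)‖ < 1 / 4 ∧ ‖v‖ < 1 / 4 + ‖B.cx v‖) := by
  refine ⟨(T.ch_bd _).1, (T.ch_bd _).2.1, fun h => ?_⟩
  have h1 : ‖B.ax (B.wx v)‖ < 1 / 4 :=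
    mem_ball_zero_iff.1 (T.ch_test.supp (subset_tsupport _ h))
  refine ⟨h1, ?_⟩
  have h2 := norm_add_le (B.ax (B.wx v)) (B.cx v)
  rw [(B.coord v v 0).1] at h2
  linarith

theorem TubeM_isrc {σ : E N → E N} (hσ : Integrable σ T.μ) :
    Integrable (fun y => B.chc (T.x y) • σ y) T.μ := by
  have hc : Continuous fun y => B.chc (T.x y) := B.TubeA_cw.1.continuous.comp T.FlatB_cx
  refine Integrable.mono hσ (hc.aestronglyMeasurable.smul hσ.aestronglyMeasurable)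
    (ae_of_all _ fun y => ?_)
  rw [norm_smul, Real.norm_of_nonneg (B.TubeM_chc _).1]
  exact mul_le_of_le_one_left (norm_nonneg _) (B.TubeM_chc _).2.1

theorem TubeM_far {ξ : E (k + 2)} {b : ℝ} (hξ : b + 1 ≤ ‖ξ‖) {y : E N} (hy : y ∈ B.TubeM_Co) :
    b ≤ ‖T.x y - ξ‖ := by
  have h1 := norm_sub_norm_le ξ (T.x y)
  rw [norm_sub_rev] at h1
  linarith [hy.1]

theorem TubeM_core {ξ : E (k + 2)} (hξ : T.ra ≤ ‖B.cx ξ‖) {y : E N} (hy : y ∈ B.TubeM_Co) :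
    T.ra / 2 ≤ ‖T.x y - ξ‖ := by
  obtain ⟨n1, -, -, -, n5, -⟩ := TubeM_num T
  linarith [B.TubeC_cx (T.x y) ξ, hy.2]

theorem TubeM_basic {σ : E N → E N} (hσ : Integrable σ T.μ) :
    ContDiff ℝ 2 (B.TubeM_w σ) ∧ HasCompactSupport (B.TubeM_w σ) ∧
    (∀ ξ e, fderiv ℝ (B.TubeM_w σ) ξ e = ∫ y in B.TubeM_Co,
      fderiv ℝ (Gm T.rp T.rp⁻¹) (T.x y - ξ) e • B.chc (T.x y) • σ y ∂T.μ) ∧
    ∀ ξ, lap (B.TubeM_w σ) ξ = ∫ y in B.TubeM_Co,
      (rho T.rp⁻¹ (T.x y - ξ) - rho T.rp (T.x y - ξ)) • -(B.chc (T.x y) • σ y) ∂T.μ := by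
  obtain ⟨n1, -, -, n4, -⟩ := TubeM_num T
  obtain ⟨K, hK⟩ := TubeM_Bd2 (m := k + 2) n1 n4
  obtain ⟨h1, h2, -, h4⟩ := conv_meas (T.μ.restrict B.TubeM_Co) T.measurable_all.1
    (B.TubeM_isrc hσ).neg.restrict ((contDiff_Gm n1 n4).1.of_le (by norm_num)) hK
  refine ⟨h1, ?_, fun ξ e => ?_, fun ξ => ?_⟩
  · refine HasCompactSupport.intro (isCompact_closedBall (0 : E (k + 2)) (T.rp⁻¹ + 1))
      fun ξ hξ => ?_
    have h5 : T.rp⁻¹ + 1 ≤ ‖ξ‖ := (not_le.1 fun h => hξ (mem_closedBall_zero_iff.2 h)).le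
    refine setIntegral_eq_zero_of_forall_eq_zero fun y hy => ?_
    rw [(Gm_eq_zero n1 n4 (B.TubeM_far h5 hy)).1, zero_smul]
  · refine (h2 ξ e).trans ?_
    rw [← integral_neg]
    refine integral_congr_ae (ae_of_all _ fun y => ?_)
    simp only [Pi.neg_apply, smul_neg, neg_neg]
  · refine (h4 ξ).trans (integral_congr_ae (ae_of_all _ fun y => ?_))
    simp only [Pi.neg_apply, lap_Gm n1 n4]

theorem TubeM_src {σ : E N → E N} {κ : ℝ} (hs : ∀ y, ‖σ y‖ ≤ κ * T.d y) (y : E N) :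
    ‖B.chc (T.x y) • σ y‖ ≤ κ * T.d y := by
  rw [norm_smul, Real.norm_of_nonneg (B.TubeM_chc _).1]
  exact (mul_le_of_le_one_left (norm_nonneg _) (B.TubeM_chc _).2.1).trans (hs y)

theorem TubeM_M (T : TI k N Q A C) {t : ℝ} (ht : 0 ≤ t) : t * T.DS (ball 0 1) ≤ t * T.M :=
  mul_le_mul_of_nonneg_left (TubeB_le_M T Subset.rfl) ht

theorem TubeM_lap {σ : E N → E N} (hσ : Integrable σ T.μ) {κ : ℝ} (hκ : 0 ≤ κ)
    (hs : ∀ y, ‖σ y‖ ≤ κ * T.d y) {ξ : E (k + 2)} (hξ : T.ra ≤ ‖B.cx ξ‖) :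
    ‖lap (B.TubeM_w σ) ξ‖ ≤ 1 / (cg (k + 2) * T.rp⁻¹ ^ (k + 2)) * κ * T.M := by
  obtain ⟨n1, -, -, n4, n5, -⟩ := TubeM_num T
  have hb : 0 < T.rp⁻¹ := inv_pos.2 n1
  have h0 : 0 ≤ 1 / (cg (k + 2) * T.rp⁻¹ ^ (k + 2)) :=
    div_nonneg zero_le_one (mul_pos (cg_pos _) (pow_pos hb _)).le
  rw [(B.TubeM_basic hσ).2.2.2]
  refine (TubeM_DS T.toFlat B.TubeM_mCo (Z := ball 0 1) measurableSet_ball (mul_nonneg h0 hκ)
    fun y hy => Or.inr ⟨mem_ball_zero_iff.2 hy.1, ?_⟩).trans (TubeM_M T (mul_nonneg h0 hκ))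
  have h1 : rho T.rp (T.x y - ξ) = 0 := rho_eq_zero n1 (by linarith [B.TubeM_core hξ hy])
  rw [h1, sub_zero, norm_smul, norm_neg, Real.norm_of_nonneg (rho_nonneg hb _), mul_assoc]
  exact mul_le_mul (rho_le hb _) (B.TubeM_src hs y) (norm_nonneg _) h0

theorem TubeM_Dw0 {σ : E N → E N} (hσ : Integrable σ T.μ) {ξ : E (k + 2)}
    (hξ : T.rp⁻¹ + 1 ≤ ‖ξ‖) : fderiv ℝ (B.TubeM_w σ) ξ = 0 := by
  obtain ⟨n1, -, -, n4, -⟩ := TubeM_num T
  refine ContinuousLinearMap.ext fun e => ?_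
  rw [(B.TubeM_basic hσ).2.2.1]
  refine setIntegral_eq_zero_of_forall_eq_zero fun y hy => ?_
  rw [TubeM_ker0 n1 n4 (B.TubeM_far hξ hy), zero_smul]

theorem TubeM_Dw2 {σ : E N → E N} (hσ : Integrable σ T.μ) {κ Cg : ℝ} (hκ : 0 ≤ κ) (hC : 0 ≤ Cg)
    (hs : ∀ y, ‖σ y‖ ≤ κ * T.d y) (hg : ∀ a b : ℝ, 0 < a → a ≤ b → ∀ v e : E (k + 2),
      |fderiv ℝ (Gm a b) v e| ≤ Cg / (max ‖v‖ a) ^ (k + 1) * ‖e‖) {ξ : E (k + 2)} (hξ : 1 ≤ ‖ξ‖) :
    ‖fderiv ℝ (B.TubeM_w σ) ξ‖ ≤ Cg / (‖ξ‖ / 2) ^ (k + 1) * κ * T.M := by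
  obtain ⟨n1, -, -, n4, n5, n6, n7⟩ := TubeM_num T
  have hp : 0 < ‖ξ‖ / 2 := by linarith
  have h0 : 0 ≤ Cg / (‖ξ‖ / 2) ^ (k + 1) := div_nonneg hC (pow_pos hp _).le
  refine ContinuousLinearMap.opNorm_le_bound _
    (mul_nonneg (mul_nonneg h0 hκ) T.M_pos.le) fun e => ?_
  have h1 : 0 ≤ Cg / (‖ξ‖ / 2) ^ (k + 1) * ‖e‖ := mul_nonneg h0 (norm_nonneg _)
  rw [(B.TubeM_basic hσ).2.2.1]
  refine (TubeM_DS T.toFlat B.TubeM_mCo (Z := ball 0 1) measurableSet_ball (mul_nonneg h1 hκ)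
    fun y hy => ?_).trans ((TubeM_M T (mul_nonneg h1 hκ)).trans (le_of_eq (by ring)))
  by_cases h2 : B.chc (T.x y) = 0
  · exact Or.inl (by rw [h2, zero_smul, smul_zero])
  refine Or.inr ⟨mem_ball_zero_iff.2 hy.1, ?_⟩
  have h3 : ‖ξ‖ / 2 ≤ max ‖T.x y - ξ‖ T.rp := by
    refine le_max_of_le_left ?_
    have h4 := norm_sub_norm_le ξ (T.x y)
    rw [norm_sub_rev] at h4
    linarith [((B.TubeM_chc _).2.2 h2).2, hy.2]
  rw [norm_smul, Real.norm_eq_abs, mul_assoc]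
  refine mul_le_mul ((hg _ _ n1 n4 _ e).trans ?_) (B.TubeM_src hs y) (norm_nonneg _) h1
  exact mul_le_mul_of_nonneg_right
    (div_le_div_of_nonneg_left hC (pow_pos hp _) (pow_le_pow_left₀ hp.le h3 _)) (norm_nonneg _)

theorem TubeM_pot {ξ : E (k + 2)} (hξ : T.ra ≤ ‖B.cx ξ‖) (p : ℕ) {f : E N → E N} {t X : ℝ}
    (ht : 0 ≤ t) (h : ∀ y ∈ B.TubeM_Co, ‖f y‖ ≤ t * (T.d y / ‖T.x y - ξ‖ ^ p))
    (hX : ∫ y in B.TubeM_Co, T.d y / ‖T.x y - ξ‖ ^ p ∂T.μ ≤ X) :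
    ‖∫ y in B.TubeM_Co, f y ∂T.μ‖ ≤ t * X := by
  obtain ⟨n1, -, -, n4, n5, -⟩ := TubeM_num T
  have hp : 0 < T.ra / 2 := by linarith
  have hi : Integrable (fun y => T.d y / ‖T.x y - ξ‖ ^ p) (T.μ.restrict B.TubeM_Co) := by
    refine Integrable.mono' (T.integrable_d.div_const ((T.ra / 2) ^ p)).restrict
      (T.measurable_all.2.2.2.2.1.div
        ((T.measurable_all.1.sub_const ξ).norm.pow_const p)).aestronglyMeasurable
      (ae_restrict_of_forall_mem B.TubeM_mCo fun y hy => ?_)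
    rw [Real.norm_of_nonneg (div_nonneg (T.d_bd y).1 (pow_nonneg (norm_nonneg _) _))]
    exact div_le_div_of_nonneg_left (T.d_bd y).1 (pow_pos hp _)
      (pow_le_pow_left₀ hp.le (B.TubeM_core hξ hy) _)
  refine (norm_integral_le_of_norm_le (hi.const_mul t)
    (ae_restrict_of_forall_mem B.TubeM_mCo h)).trans ?_
  rw [integral_const_mul]
  exact mul_le_mul_of_nonneg_left hX ht

theorem TubeM_kcore {Cg : ℝ} (hC : 0 ≤ Cg) (hg : ∀ a b : ℝ, 0 < a → a ≤ b → ∀ v e : E (k + 2),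
      |fderiv ℝ (Gm a b) v e| ≤ Cg / (max ‖v‖ a) ^ (k + 1) * ‖e‖) {ξ : E (k + 2)}
    (hξ : T.ra ≤ ‖B.cx ξ‖) {y : E N} (hy : y ∈ B.TubeM_Co) (e : E (k + 2)) : 0 < ‖T.x y - ξ‖ ∧
    |fderiv ℝ (Gm T.rp T.rp⁻¹) (T.x y - ξ) e| ≤ Cg / ‖T.x y - ξ‖ ^ (k + 1) * ‖e‖ := by
  obtain ⟨n1, -, -, n4, n5, -⟩ := TubeM_num T
  have hp : 0 < ‖T.x y - ξ‖ := by linarith [B.TubeM_core hξ hy]
  refine ⟨hp, (hg _ _ n1 n4 _ e).trans (mul_le_mul_of_nonneg_right ?_ (norm_nonneg _))⟩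
  exact div_le_div_of_nonneg_left hC (pow_pos hp _) (pow_le_pow_left₀ hp.le (le_max_left _ _) _)

theorem TubeM_Dw1 {σ : E N → E N} (hσ : Integrable σ T.μ) {κ Cg X : ℝ} (hκ : 0 ≤ κ) (hC : 0 ≤ Cg)
    (hs : ∀ y, ‖σ y‖ ≤ κ * T.d y) (hg : ∀ a b : ℝ, 0 < a → a ≤ b → ∀ v e : E (k + 2),
      |fderiv ℝ (Gm a b) v e| ≤ Cg / (max ‖v‖ a) ^ (k + 1) * ‖e‖) {ξ : E (k + 2)}
    (hξ : T.ra ≤ ‖B.cx ξ‖) (hX0 : 0 ≤ X)
    (hX : ∫ y in B.TubeM_Co, T.d y / ‖T.x y - ξ‖ ^ (k + 1) ∂T.μ ≤ X) :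
    ‖fderiv ℝ (B.TubeM_w σ) ξ‖ ≤ Cg * κ * X := by
  refine ContinuousLinearMap.opNorm_le_bound _ (mul_nonneg (mul_nonneg hC hκ) hX0) fun e => ?_
  rw [(B.TubeM_basic hσ).2.2.1]
  refine (B.TubeM_pot hξ (k + 1) (t := Cg * κ * ‖e‖)
    (mul_nonneg (mul_nonneg hC hκ) (norm_nonneg _)) (fun y hy => ?_) hX).trans (le_of_eq (by ring))
  obtain ⟨h1, h2⟩ := B.TubeM_kcore hC hg hξ hy e
  rw [norm_smul, Real.norm_eq_abs]
  refine (mul_le_mul h2 (B.TubeM_src hs y) (norm_nonneg _) ((abs_nonneg _).trans h2)).trans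
    (le_of_eq (by ring))

/-- the commutator with the weight along the axis -/
theorem TubeM_comm {σ : E N → E N} (hσ : Integrable σ T.μ) {κ Cg X : ℝ} (hκ : 0 ≤ κ) (hC : 0 ≤ Cg)
    (hs : ∀ y, ‖σ y‖ ≤ κ * T.d y) (hg : ∀ a b : ℝ, 0 < a → a ≤ b → ∀ v e : E (k + 2),
      |fderiv ℝ (Gm a b) v e| ≤ Cg / (max ‖v‖ a) ^ (k + 1) * ‖e‖) {ξ : E (k + 2)}
    (hξ : T.ra ≤ ‖B.cx ξ‖) (hX : ∫ y in B.TubeM_Co, T.d y / ‖T.x y - ξ‖ ^ k ∂T.μ ≤ X)
    (e : E (k + 2)) :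
    ‖fderiv ℝ (B.TubeM_w σ) ξ e - B.chc ξ • ∫ y in B.TubeM_Co,
      fderiv ℝ (Gm T.rp T.rp⁻¹) (T.x y - ξ) e • σ y ∂T.μ‖ ≤ Cg * C * κ * ‖e‖ * X := by
  obtain ⟨n1, -, -, n4, -⟩ := TubeM_num T
  have hC0 : 0 ≤ C := zero_le_one.trans T.C_ge
  have i2 : Integrable (fun y => B.chc ξ • fderiv ℝ (Gm T.rp T.rp⁻¹) (T.x y - ξ) e • σ y)
      (T.μ.restrict B.TubeM_Co) :=
    (TubeM_int T.measurable_all.1 hσ.restrict n1 n4 ξ e).smul (B.chc ξ)
  rw [(B.TubeM_basic hσ).2.2.1, ← integral_smul, ← integral_sub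
    (TubeM_int T.measurable_all.1 (B.TubeM_isrc hσ).restrict n1 n4 ξ e) i2]
  refine B.TubeM_pot hξ k (mul_nonneg (mul_nonneg (mul_nonneg hC hC0) hκ) (norm_nonneg _))
    (fun y hy => ?_) hX
  obtain ⟨h1, h2⟩ := B.TubeM_kcore hC hg hξ hy e
  have h3 : ‖B.chc (T.x y) - B.chc ξ‖ ≤ C * ‖T.x y - ξ‖ := B.TubeA_cw.2.2.1 _ _
  rw [smul_comm (B.chc ξ), ← smul_sub, ← sub_smul, norm_smul, norm_smul, Real.norm_eq_abs]
  refine (mul_le_mul h2 (mul_le_mul h3 (hs y) (norm_nonneg _) ((norm_nonneg _).trans h3))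
    (mul_nonneg (norm_nonneg _) (norm_nonneg _)) ((abs_nonneg _).trans h2)).trans (le_of_eq ?_)
  have := h1.ne'
  field_simp
  ring

/-- the large scales -/
theorem TubeM_ra {σ : E N → E N} {κ Cg : ℝ} (hκ : 0 ≤ κ) (hC : 0 ≤ Cg)
    (hs : ∀ y, ‖σ y‖ ≤ κ * T.d y) (hg : ∀ a b : ℝ, 0 < a → a ≤ b → ∀ v e : E (k + 2),
      |fderiv ℝ (Gm a b) v e| ≤ Cg / (max ‖v‖ a) ^ (k + 1) * ‖e‖) (ξ e : E (k + 2)) :
    ‖∫ y in B.TubeM_Co, fderiv ℝ (Gm (1 / 10) T.rp⁻¹) (T.x y - ξ) e • σ y ∂T.μ‖ ≤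
      Cg / (1 / 10) ^ (k + 1) * ‖e‖ * κ * T.M := by
  obtain ⟨-, -, n3, -⟩ := TubeM_num T
  have hp : (0 : ℝ) < 1 / 10 := by norm_num
  have h1 : 0 ≤ Cg / (1 / 10) ^ (k + 1) * ‖e‖ :=
    mul_nonneg (div_nonneg hC (pow_pos hp _).le) (norm_nonneg _)
  refine (TubeM_DS T.toFlat B.TubeM_mCo (Z := ball 0 1) measurableSet_ball (mul_nonneg h1 hκ)
    fun y hy => Or.inr ⟨mem_ball_zero_iff.2 hy.1, ?_⟩).trans (TubeM_M T (mul_nonneg h1 hκ))
  rw [norm_smul, Real.norm_eq_abs, mul_assoc]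
  refine mul_le_mul ((hg _ _ hp n3 _ e).trans ?_) (hs y) (norm_nonneg _) h1
  exact mul_le_mul_of_nonneg_right (div_le_div_of_nonneg_left hC (pow_pos hp _)
    (pow_le_pow_left₀ hp.le (le_max_right _ _) _)) (norm_nonneg _)

/-- the source outside the core -/
theorem TubeM_rb {σ : E N → E N} {κ Cg : ℝ} (hκ : 0 ≤ κ) (hC : 0 ≤ Cg)
    (hs : ∀ y, ‖σ y‖ ≤ κ * T.d y) (hg : ∀ a b : ℝ, 0 < a → a ≤ b → ∀ v e : E (k + 2),
      |fderiv ℝ (Gm a b) v e| ≤ Cg / (max ‖v‖ a) ^ (k + 1) * ‖e‖) {ξ : E (k + 2)}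
    (hξ : ‖ξ‖ ≤ 1 / 2) (e : E (k + 2)) :
    ‖∫ y in B.TubeM_Coᶜ, fderiv ℝ (Gm T.rp (1 / 10)) (T.x y - ξ) e • σ y ∂T.μ‖ ≤
      Cg / T.rp ^ (k + 1) * ‖e‖ * κ * (T.eps * T.M) := by
  obtain ⟨n1, n2, -, -, n5, -⟩ := TubeM_num T
  have h1 : 0 ≤ Cg / T.rp ^ (k + 1) * ‖e‖ :=
    mul_nonneg (div_nonneg hC (pow_pos n1 _).le) (norm_nonneg _)
  refine (TubeM_DS T.toFlat B.TubeM_mCo.compl (Z := B.Out) B.measurable_all.2.2.2.2.2.2
    (mul_nonneg h1 hκ) fun y hy => ?_).trans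
    (mul_le_mul_of_nonneg_left B.shell_sub.2.2.1 (mul_nonneg h1 hκ))
  rcases le_or_gt (1 / 10) ‖T.x y - ξ‖ with h2 | h2
  · exact Or.inl (by rw [TubeM_ker0 n1 n2 h2, zero_smul])
  have h3 : ‖T.x y‖ < 9 / 10 := by linarith [norm_sub_norm_le (T.x y) ξ]
  have h4 : T.ra / 4 < ‖B.cx (T.x y)‖ := not_le.1 fun h => hy ⟨by linarith, h⟩
  refine Or.inr ⟨⟨h3, by linarith⟩, ?_⟩
  rw [norm_smul, Real.norm_eq_abs, mul_assoc]
  refine mul_le_mul ((hg _ _ n1 n2 _ e).trans ?_) (hs y) (norm_nonneg _) h1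
  exact mul_le_mul_of_nonneg_right (div_le_div_of_nonneg_left hC (pow_pos n1 _)
    (pow_le_pow_left₀ n1.le (le_max_right _ _) _)) (norm_nonneg _)

theorem TubeM_ball {ξ : E m} (hξ : ‖ξ‖ ≤ 1 / 2) : closedBall ξ (1 / 10) ⊆ ball 0 1 := fun v hv => by
  rw [mem_closedBall, dist_eq_norm] at hv
  rw [mem_ball_zero_iff]
  linarith [norm_sub_norm_le v ξ]

/-- the error of the representation -/
theorem TubeM_rc (T : TI k N Q A C) {ξ : E (k + 2)} (hξ : ‖ξ‖ ≤ 1 / 2) (p : ℕ) :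
    ∫ y in T.x ⁻¹' ball ξ (1 / 10), T.d y / (max ‖T.x y - ξ‖ T.rp) ^ p ∂T.μ ≤ T.M / T.rp ^ p := by
  obtain ⟨n1, -⟩ := TubeM_num T
  refine (integral_mono_of_nonneg (ae_of_all _ fun y => ?_)
    (T.integrable_d.div_const (T.rp ^ p)).restrict (ae_of_all _ fun y => ?_)).trans ?_
  · exact div_nonneg (T.d_bd y).1 (pow_nonneg (le_max_of_le_right n1.le) _)
  · exact div_le_div_of_nonneg_left (T.d_bd y).1 (pow_pos n1 _)
      (pow_le_pow_left₀ n1.le (le_max_right _ _) _)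
  · rw [integral_div]
    exact div_le_div_of_nonneg_right
      (TubeB_le_M T (ball_subset_closedBall.trans (TubeM_ball hξ))) (pow_pos n1 _).le

/-- the splitting of the potential -/
theorem TubeM_split {σ : E N → E N} (hσ : Integrable σ T.μ) (ξ e : E (k + 2)) :
    ∫ y in B.TubeM_Co, fderiv ℝ (Gm T.rp T.rp⁻¹) (T.x y - ξ) e • σ y ∂T.μ =
      (∫ y, fderiv ℝ (Gm T.rp (1 / 10)) (T.x y - ξ) e • σ y ∂T.μ) -
      (∫ y in B.TubeM_Coᶜ, fderiv ℝ (Gm T.rp (1 / 10)) (T.x y - ξ) e • σ y ∂T.μ) +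
      ∫ y in B.TubeM_Co, fderiv ℝ (Gm (1 / 10) T.rp⁻¹) (T.x y - ξ) e • σ y ∂T.μ := by
  obtain ⟨n1, n2, n3, -⟩ := TubeM_num T
  have i1 := TubeM_int T.measurable_all.1 hσ n1 n2 ξ e
  have i2 := TubeM_int T.measurable_all.1 hσ (by norm_num) n3 ξ e
  rw [← integral_add_compl B.TubeM_mCo i1, add_sub_cancel_right,
    ← integral_add i1.restrict i2.restrict]
  refine integral_congr_ae (ae_of_all _ fun y => ?_)
  simp only [TubeM_keradd n1 n2 n3, add_smul]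

end Tb

end Pool.Agent.MP_f6c0e6_an.Gen

end

section

/-! The Pohozaev inequality for the mean of a cluster. -/

set_option autoImplicit false

open MeasureTheory Filter Topology Set Metric
open scoped ENNReal RealInnerProductSpace

namespace Pool.Agent.MP_f6c0e6_an.Gen

variable {m N : ℕ}

/-- the size of the potential -/
noncomputable def TubeM_f {k Q : ℕ} {A C : ℝ} (T : TI k N Q A C) : ℝ := √(T.Λ ^ 31 * T.er)

theorem TubeM_num2 {k Q : ℕ} {A C : ℝ} (T : TI k N Q A C) : 0 ≤ TubeM_f T ∧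
    TubeM_f T ^ 2 = T.Λ ^ 31 * T.er ∧ T.M / T.G ≤ TubeM_f T ∧ T.M ≤ TubeM_f T ∧
    √(T.Λ * T.eps * T.M) ≤ TubeM_f T ∧ T.eps ≤ T.rp ^ (k + 1) ∧ T.g ≤ T.rp ^ (k + 3) ∧
    T.g ≤ T.rp ∧ T.τ ≤ T.rp := by
  obtain ⟨n1, n2, -, -, n5, n6, -, -, -, -, -, n12, -, n14, n15, n16, n17, -⟩ := T.num
  obtain ⟨-, m2, m3, -, m5, -⟩ := TubeC_num T
  obtain ⟨-, -, l3, -, -, l6, -⟩ := TubeB_num T
  have h1 : 1 ≤ T.Λ := by linarith [T.Λ_ge]
  have hG := T.G_pos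
  have hM := T.M_pos
  have hL : 0 < T.L := by linarith only [n6, n12, l6]
  have h0 : 0 < T.Λ := by linarith
  have r1 : T.rp ≤ 1 := by linarith
  have a1 : T.M / T.G ≤ TubeM_f T := by
    refine Real.le_sqrt_of_sq_le ?_
    have h2 : T.M / T.G ^ 2 ≤ T.Λ ^ 30 / T.L := by
      rw [div_le_div_iff₀ (pow_pos hG 2) hL, mul_comm]
      exact T.MG
    calc (T.M / T.G) ^ 2 = T.M * (T.M / T.G ^ 2) := by ring
      _ ≤ T.M * (T.Λ ^ 30 / T.L) := mul_le_mul_of_nonneg_left h2 hM.le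
      _ = T.Λ ^ 31 * T.er := by
        rw [TI.er]
        field_simp
  have a2 : T.ak ≤ T.rq := (le_mul_of_one_le_right m2.le n12).trans n16
  refine ⟨Real.sqrt_nonneg _, Real.sq_sqrt (mul_nonneg (pow_nonneg h0.le _) n2.le), a1, ?_, ?_, ?_,
    ?_, by linarith, by linarith [T.τa]⟩
  · exact (le_div_self hM.le hG (by linarith)).trans a1
  · refine Real.sqrt_le_sqrt ?_
    rw [mul_assoc, n17, ← mul_assoc, ← pow_succ']
    exact mul_le_mul_of_nonneg_right (pow_le_pow_right₀ h1 (by norm_num)) n2.le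
  · calc T.eps ≤ T.eps * T.Λ := le_mul_of_one_le_right n1.le h1
      _ ≤ (T.rp / 16) ^ (k + 2) := l3
      _ ≤ T.rp ^ (k + 2) := pow_le_pow_left₀ (by linarith) (by linarith) _
      _ ≤ T.rp ^ (k + 1) := pow_le_pow_of_le_one n6.le r1 (by omega)
  · exact (n15.trans a2).trans (pow_le_pow_of_le_one n6.le r1 (by omega))

theorem TubeM_ind {a : ℝ} (ha : 0 ≤ a) {r : ℝ} (hr : 0 ≤ r) :
    Integrable ((closedBall (0 : E m) r).indicator fun _ => a) ∧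
      ∫ x, (closedBall (0 : E m) r).indicator (fun _ => a) x ≤ a * (2 ^ m * r ^ m) := by
  refine ⟨(integrable_indicator_iff measurableSet_closedBall).2
    (integrableOn_const measure_closedBall_lt_top.ne), ?_⟩
  rw [integral_indicator_const _ measurableSet_closedBall, smul_eq_mul, mul_comm]
  exact mul_le_mul_of_nonneg_left (volume_ball_le _ hr).1 ha

/-- the integral of the left side of the Pohozaev inequality -/
theorem TubeM_step1 (hm : 1 ≤ m) {g : E m → ℝ} {S : Set (E m)} (hS : MeasurableSet S) {a s b : ℝ}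
    (ha : 0 ≤ a) (hs : 1 ≤ s) (hsb : s ≤ b) (h0 : ∀ ξ, 0 ≤ g ξ)
    (h1 : ∀ ξ ∈ S, g ξ ≤ a / b ^ m / max ‖ξ‖ 1) (h2 : ∀ ξ, b + 1 ≤ ‖ξ‖ → g ξ = 0) :
    ∫ ξ in S, g ξ ≤ a * (2 ^ m * (s / b) + 4 ^ m / s) := by
  have s0 : 0 < s := by linarith
  have b0 : 0 < b := by linarith
  have a1 : 0 ≤ a / b ^ m := div_nonneg ha (pow_pos b0 _).le
  have a2 : 0 ≤ a / b ^ m / s := div_nonneg a1 s0.le
  obtain ⟨i1, j1⟩ := TubeM_ind (m := m) a1 s0.le
  obtain ⟨i2, j2⟩ := TubeM_ind (m := m) a2 (r := 2 * b) (by linarith)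
  have p1 : ∀ ξ, 0 ≤ (closedBall (0 : E m) s).indicator (fun _ => a / b ^ m) ξ := fun ξ =>
    indicator_nonneg (fun _ _ => a1) ξ
  have p2 : ∀ ξ, 0 ≤ (closedBall (0 : E m) (2 * b)).indicator (fun _ => a / b ^ m / s) ξ :=
    fun ξ => indicator_nonneg (fun _ _ => a2) ξ
  have i3 : Integrable fun ξ => (closedBall (0 : E m) s).indicator (fun _ => a / b ^ m) ξ +
      (closedBall (0 : E m) (2 * b)).indicator (fun _ => a / b ^ m / s) ξ := i1.add i2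
  refine (integral_mono_of_nonneg (ae_of_all _ h0) i3.restrict
    (ae_restrict_of_forall_mem hS fun ξ hξ => ?_)).trans
    ((setIntegral_le_integral i3 (ae_of_all _ fun ξ => add_nonneg (p1 ξ) (p2 ξ))).trans ?_)
  · show g ξ ≤ _ + _
    rcases le_or_gt (b + 1) ‖ξ‖ with h3 | h3
    · rw [h2 ξ h3]
      exact add_nonneg (p1 ξ) (p2 ξ)
    rcases le_or_gt ‖ξ‖ s with h4 | h4
    · rw [indicator_of_mem (mem_closedBall_zero_iff.2 h4)]
      exact ((h1 ξ hξ).trans (div_le_self a1 (le_max_right _ _))).trans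
        (le_add_of_nonneg_right (p2 ξ))
    · rw [indicator_of_mem (mem_closedBall_zero_iff.2 (by linarith only [hs, hsb, h3] : ‖ξ‖ ≤ 2 * b))]
      exact ((h1 ξ hξ).trans (div_le_div_of_nonneg_left a1 s0 (le_max_of_le_left h4.le))).trans
        (le_add_of_nonneg_left (p1 ξ))
  · rw [integral_add i1 i2, mul_add]
    refine add_le_add (j1.trans ?_) (j2.trans (le_of_eq ?_))
    · have h5 : (s / b) ^ m ≤ s / b :=
        pow_le_of_le_one (div_nonneg s0.le b0.le) ((div_le_one b0).2 hsb) (by omega)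
      calc a / b ^ m * (2 ^ m * s ^ m) = a * (2 ^ m * (s / b) ^ m) := by
            rw [div_pow]
            ring
        _ ≤ _ := mul_le_mul_of_nonneg_left (mul_le_mul_of_nonneg_left h5 (by positivity)) ha
    · rw [mul_pow, show (4 : ℝ) = 2 * 2 by norm_num, mul_pow]
      field_simp

namespace Tb

variable {k Q : ℕ} {A C C' : ℝ} {T : TI k N Q A C} (B : Tb T C')

theorem TubeM_vol {ρ r : ℝ} (hρ : 1 ≤ ρ) (hr : 0 ≤ r) :
    MeasurableSet {v | ‖v‖ ≤ ρ ∧ ‖B.cx v‖ ≤ r} ∧ volume {v | ‖v‖ ≤ ρ ∧ ‖B.cx v‖ ≤ r} ≠ ⊤ ∧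
      (volume {v | ‖v‖ ≤ ρ ∧ ‖B.cx v‖ ≤ r}).toReal ≤ (4 * ρ) ^ k * (4 * r ^ 2) := by
  refine ⟨?_, ?_, ?_⟩
  · exact (measurableSet_le measurable_norm measurable_const).inter
      (measurableSet_le ((B.calc_coord 0).2.2 0).1.continuous.norm.measurable measurable_const)
  · exact ((measure_mono fun v hv => mem_closedBall_zero_iff.2 hv.1).trans_lt
      measure_closedBall_lt_top).ne
  obtain ⟨b, b1, b2⟩ := TubeA_onb B.S
  refine (TubeA_box b B.o (r := Sum.elim (fun _ => 2 * ρ) fun _ => r) ?_ ?_).trans (le_of_eq ?_)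
  · rintro (i | i)
    · show 0 ≤ 2 * ρ
      linarith
    · exact hr
  · rintro v hv (i | i)
    · refine (abs_real_inner_le_norm _ _).trans ?_
      rw [b.orthonormal.1, one_mul]
      show _ ≤ 2 * ρ
      linarith [norm_sub_le v B.o, hv.1, B.o_le]
    · have h1 : ⟪b (Sum.inr i), v - B.o⟫ = ⟪b (Sum.inr i), B.cx v⟫ := by
        conv_lhs => rw [← iota_pr_add_vt B.S.iw (v - B.o)]
        rw [inner_add_right, b2, real_inner_comm, B.S.orth, zero_add, cx]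
      rw [h1]
      refine (abs_real_inner_le_norm _ _).trans ?_
      rw [b.orthonormal.1, one_mul]
      exact hv.2
  · rw [Fintype.prod_sum_type]
    simp only [Sum.elim_inl, Sum.elim_inr, Finset.prod_const, Finset.card_univ, Fintype.card_fin]
    rw [show 2 * (2 * ρ) = 4 * ρ by ring]
    ring

/-- a majorant in the tube -/
theorem TubeM_maj (n : ℕ) {r : ℝ} (hr : 0 ≤ r) : ∃ H : E (k + 2) → ℝ, Integrable H ∧
    (∀ ξ, 0 ≤ H ξ) ∧ (∀ ξ, ‖ξ‖ ≤ 2 ^ n → ‖B.cx ξ‖ ≤ r → 1 / (max ‖ξ‖ 1) ^ (k + 1) ≤ H ξ) ∧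
    ∫ ξ, H ξ ≤ 2 * 8 ^ (k + 1) * r ^ 2 := by
  have h1 : ∀ j : ℕ, (1 : ℝ) ≤ 2 ^ j := fun j => one_le_pow₀ one_le_two
  have hi : ∀ j ∈ Finset.range (n + 1), Integrable ({v | ‖v‖ ≤ 2 ^ j ∧ ‖B.cx v‖ ≤ r}.indicator
      fun _ => ((2 : ℝ) / 2 ^ j) ^ (k + 1)) := fun j _ =>
    (integrable_indicator_iff (B.TubeM_vol (h1 j) hr).1).2
      (integrableOn_const (B.TubeM_vol (h1 j) hr).2.1)
  have h0 : ∀ ξ, ∀ j ∈ Finset.range (n + 1), 0 ≤ {v | ‖v‖ ≤ 2 ^ j ∧ ‖B.cx v‖ ≤ r}.indicator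
      (fun _ => ((2 : ℝ) / 2 ^ j) ^ (k + 1)) ξ := fun ξ j _ =>
    indicator_nonneg (fun _ _ => by positivity) ξ
  refine ⟨fun ξ => ∑ j ∈ Finset.range (n + 1), {v | ‖v‖ ≤ 2 ^ j ∧ ‖B.cx v‖ ≤ r}.indicator
    (fun _ => ((2 : ℝ) / 2 ^ j) ^ (k + 1)) ξ, integrable_finsetSum _ hi,
    fun ξ => Finset.sum_nonneg (h0 ξ), fun ξ hξ hc => ?_, ?_⟩
  · obtain ⟨j, hj, j1, j2⟩ := TubeC_dyad one_pos n (r := ‖ξ‖) (by rwa [mul_one])
    rw [mul_one] at j1 j2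
    refine le_trans ?_ (Finset.single_le_sum (h0 ξ) hj)
    have hp : 0 < max ‖ξ‖ 1 := lt_max_of_lt_right one_pos
    rw [indicator_of_mem (show ξ ∈ {v | ‖v‖ ≤ 2 ^ j ∧ ‖B.cx v‖ ≤ r} from ⟨j1, hc⟩), ← one_div_pow]
    refine pow_le_pow_left₀ (by positivity) ?_ _
    rw [div_le_div_iff₀ hp (by positivity), one_mul]
    exact j2
  · rw [integral_finsetSum _ hi]
    calc _ ≤ ∑ j ∈ Finset.range (n + 1), 8 ^ (k + 1) * r ^ 2 * ((2 : ℝ) ^ j)⁻¹ := by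
          refine Finset.sum_le_sum fun j _ => ?_
          rw [integral_indicator_const _ (B.TubeM_vol (h1 j) hr).1, smul_eq_mul]
          refine (mul_le_mul_of_nonneg_right (B.TubeM_vol (h1 j) hr).2.2 (by positivity)).trans
            (le_of_eq ?_)
          rw [show (8 : ℝ) = 4 * 2 by norm_num, mul_pow, mul_pow, div_pow]
          field_simp
          ring
      _ ≤ _ := by
          rw [← Finset.mul_sum]
          refine (mul_le_mul_of_nonneg_left (TubeC_geom _) (by positivity)).trans (le_of_eq ?_)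
          ring

theorem TubeM_vth {v : E (k + 2)} (h : B.vth v ≠ 0) : T.ra ≤ ‖B.cx v‖ ∧ ‖B.cx v‖ ≤ T.rb := by
  obtain ⟨n1, -, -, -, n5, n6, -⟩ := TubeM_num T
  refine ⟨not_lt.1 fun hv => h ?_, not_lt.1 fun hv => h ?_⟩
  · rw [vth, TubeA_loc_lt (fun t ht => B.prof.one t ht.le)
      (pow_lt_pow_left₀ hv (norm_nonneg _) two_ne_zero), mul_zero]
  · rw [vth, TubeA_loc_gt (fun t ht => B.prof.zero t ht.le)
      (pow_lt_pow_left₀ hv (by linarith) two_ne_zero), mul_zero]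

theorem TubeM_kM (T : TI k N Q A C) {Cs R : ℝ} (hC : 0 ≤ Cs) (hR : T.G ≤ R) :
    0 < R ∧ 0 ≤ Cs / R ∧ Cs / R * T.M ≤ Cs * TubeM_f T := by
  have h0 : 0 < R := T.G_pos.trans_le hR
  refine ⟨h0, div_nonneg hC h0.le, ?_⟩
  rw [div_mul_eq_mul_div, mul_div_assoc]
  exact mul_le_mul_of_nonneg_left ((div_le_div_of_nonneg_left T.M_pos.le T.G_pos hR).trans
    (TubeM_num2 T).2.2.1) hC

/-- the gradient of the mean is the potential of the source in the core -/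
theorem TubeM_rep (k Q : ℕ) (A C C' : ℝ) : ∃ K Λ₀ : ℝ, 1 ≤ K ∧ ∀ {N : ℕ} {T : TI k N Q A C}
    (B : Tb T C') (R : ℝ) (c : E N), Λ₀ ≤ T.Λ → T.G ≤ R → R ≤ T.g → ∀ ξ e, ‖ξ‖ ≤ 1 / 2 →
    ‖(∫ y in B.TubeM_Co, fderiv ℝ (Gm T.rp T.rp⁻¹) (T.x y - ξ) e • T.sg R c y ∂T.μ) -
      fderiv ℝ (T.uc R c T.rp) ξ e‖ ≤ K * TubeM_f T * ‖e‖ := by
  obtain ⟨Cg, hCg, hg⟩ := TubeM_ker k
  obtain ⟨Cs, hCs, hs⟩ := sg_bd
  obtain ⟨Cu, hCu, hu⟩ := uc_bd (k + 2) A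
  obtain ⟨Cr, hCr, hr⟩ := uc_rep (k + 2) (by omega)
  obtain ⟨C1, Λ₁, hC1, h1⟩ := L1B k Q A C C'
  have g0 : 0 ≤ Cg := by linarith
  have s0 : 0 ≤ Cs := by linarith
  have u0 : 0 ≤ Cu / (1 / 10) ^ (k + 2) := div_nonneg (by linarith) (by positivity)
  have g1 : 0 ≤ Cg / (1 / 10) ^ (k + 1) := div_nonneg g0 (by positivity)
  refine ⟨Cr + Cu / (1 / 10) ^ (k + 2) * (C1 + 1) + Cg * Cs + Cg / (1 / 10) ^ (k + 1) * Cs, Λ₁,
    ?_, fun {N T} B R c hΛ hG hR ξ e hξ => ?_⟩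
  · linarith only [hCr, u0, hC1, g0, s0, g1, mul_nonneg u0 (by linarith : 0 ≤ C1 + 1), mul_nonneg g0 s0, mul_nonneg g1 s0]
  obtain ⟨f0, -, -, f4, f5, f6, f7, f8, f9⟩ := TubeM_num2 T
  obtain ⟨n1, n2, -, -, n5, n6, n7⟩ := TubeM_num T
  obtain ⟨R0, κ0, κ1⟩ := TubeM_kM T s0 hG
  obtain ⟨-, -, -, -, -, i1, b1⟩ := hs T.toFlat R c R0
  have hM := T.M_pos
  have e0 := norm_nonneg e
  have a1 : ‖fderiv ℝ (T.uc R c T.rp) ξ e - fderiv ℝ (T.uc R c (1 / 10)) ξ e -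
      ∫ y, fderiv ℝ (Gm T.rp (1 / 10)) (T.x y - ξ) e • T.sg R c y ∂T.μ‖ ≤
      Cr * TubeM_f T * ‖e‖ := by
    refine (hr T.toFlat R c _ _ ξ e R0 n1 n2 (by linarith only [hξ, n1, n5, n6, n7])).trans ?_
    have c1 : R * (T.M / T.rp ^ (k + 2 + 1)) ≤ TubeM_f T := by
      refine le_trans ?_ f4
      rw [← mul_div_assoc, div_le_iff₀ (pow_pos n1 _), mul_comm]
      exact mul_le_mul_of_nonneg_left (hR.trans f7) hM.le
    calc _ ≤ Cr * R * ‖e‖ * (T.M / T.rp ^ (k + 2 + 1)) :=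
          mul_le_mul_of_nonneg_left (TubeM_rc T hξ _)
            (mul_nonneg (mul_nonneg (by linarith only [hCr, n1, n5, n6, n7]) R0.le) e0)
      _ = Cr * (R * (T.M / T.rp ^ (k + 2 + 1))) * ‖e‖ := by ring
      _ ≤ _ := mul_le_mul_of_nonneg_right (mul_le_mul_of_nonneg_left c1 (by linarith only [hCr, n1, n5, n6, n7])) e0
  have a2 : ‖fderiv ℝ (T.uc R c (1 / 10)) ξ e‖ ≤
      Cu / (1 / 10) ^ (k + 2) * (C1 + 1) * TubeM_f T * ‖e‖ := by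
    refine (ContinuousLinearMap.le_opNorm _ e).trans (mul_le_mul_of_nonneg_right ?_ e0)
    refine (hu T.toFlat R c (1 / 10) ξ R0 (by linarith only [hR, f8, n1, n5, n6, n7]) (by linarith only [f9, n1, n5, n6, n7]) (by linarith only [hξ, n1, n5, n6, n7])).1.trans ?_
    rw [mul_assoc, add_mul, one_mul]
    refine mul_le_mul_of_nonneg_left (add_le_add ?_ ?_) u0
    · have i2 : Integrable (fun y => √(T.d y)) T.μ :=
        T.integrable_of_bd T.measurable_all.2.2.2.2.1.sqrt (M := √(k + 2 : ℕ)) fun y _ _ => by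
          rw [Real.norm_of_nonneg (Real.sqrt_nonneg _)]
          exact Real.sqrt_le_sqrt (T.d_bd y).2
      refine (setIntegral_mono_set i2.integrableOn (ae_of_all _ fun y => Real.sqrt_nonneg _)
        (preimage_mono (TubeM_ball hξ)).eventuallyLE).trans ((h1 B hΛ).2.trans ?_)
      exact mul_le_mul_of_nonneg_left f5 (by linarith only [hC1, n1, n5, n6, n7])
    · have c1 : R / (1 / 10) ≤ 1 := by
        rw [div_le_one (by norm_num)]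
        linarith only [hR, f8, n1, n5, n6, n7]
      exact (mul_le_of_le_one_left (T.DS_mono Subset.rfl).1 c1).trans
        ((TubeB_le_M T (TubeM_ball hξ)).trans f4)
  have a3 := (B.TubeM_rb κ0 g0 b1 hg hξ e).trans (b := _) (c := Cg * Cs * TubeM_f T * ‖e‖) (by
    have c1 : T.eps / T.rp ^ (k + 1) ≤ 1 := (div_le_one (pow_pos n1 _)).2 f6
    calc _ = T.eps / T.rp ^ (k + 1) * (Cg * (Cs / R * T.M) * ‖e‖) := by ring
      _ ≤ Cg * (Cs / R * T.M) * ‖e‖ :=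
        mul_le_of_le_one_left (mul_nonneg (mul_nonneg g0 (mul_nonneg κ0 hM.le)) e0) c1
      _ ≤ Cg * (Cs * TubeM_f T) * ‖e‖ :=
        mul_le_mul_of_nonneg_right (mul_le_mul_of_nonneg_left κ1 g0) e0
      _ = _ := by ring)
  have a4 := (B.TubeM_ra κ0 g0 b1 hg ξ e).trans (b := _)
      (c := Cg / (1 / 10) ^ (k + 1) * Cs * TubeM_f T * ‖e‖) (by
    calc _ = Cg / (1 / 10) ^ (k + 1) * (Cs / R * T.M) * ‖e‖ := by ring
      _ ≤ Cg / (1 / 10) ^ (k + 1) * (Cs * TubeM_f T) * ‖e‖ :=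
        mul_le_mul_of_nonneg_right (mul_le_mul_of_nonneg_left κ1 g1) e0
      _ = _ := by ring)
  rw [B.TubeM_split i1]
  have key : ∀ p q x y z : E N, ‖x - y + z - p‖ ≤ ‖p - q - x‖ + ‖q‖ + ‖y‖ + ‖z‖ :=
    fun p q x y z => by
      rw [show x - y + z - p = -(p - q - x) - q - y + z by abel]
      refine (norm_add_le _ _).trans (add_le_add_left ((norm_sub_le _ _).trans
        (add_le_add_left ((norm_sub_le _ _).trans (by rw [norm_neg])) _)) _)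
  refine (key _ (fderiv ℝ (T.uc R c (1 / 10)) ξ e) _ _ _).trans
    ((add_le_add (add_le_add (add_le_add a1 a2) a3) a4).trans (le_of_eq (by ring)))

/-- pointwise bounds -/
theorem TubeM_pt (k : ℕ) (hk : 1 ≤ k) (Q : ℕ) (A C C' : ℝ) : ∃ K Λ₀ : ℝ, 1 ≤ K ∧
    ∀ {N : ℕ} {T : TI k N Q A C} (B : Tb T C') (R : ℝ) (c : E N), Λ₀ ≤ T.Λ → T.G ≤ R → R ≤ T.g →
    Integrable (T.sg R c) T.μ ∧ ∀ ξ, T.ra ≤ ‖B.cx ξ‖ →
      ‖lap (B.TubeM_w (T.sg R c)) ξ‖ ≤ K * TubeM_f T / T.rp⁻¹ ^ (k + 2) ∧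
      ‖fderiv ℝ (B.TubeM_w (T.sg R c)) ξ‖ * ‖B.cx ξ‖ ≤ K * TubeM_f T / max ‖ξ‖ 1 ∧
      (‖B.cx ξ‖ ≤ T.rb → ∀ e, ‖B.chc ξ • fderiv ℝ (T.uc R c T.rp) ξ e -
        fderiv ℝ (B.TubeM_w (T.sg R c)) ξ e‖ ≤
        K * T.Λ * TubeM_f T / (max ‖ξ‖ 1) ^ (k + 1) * ‖e‖) := by
  obtain ⟨Cg, hCg, hg⟩ := TubeM_ker k
  obtain ⟨Cs, hCs, hs⟩ := sg_bd
  obtain ⟨C1, Λ₁, hC1, h1⟩ := core_pot k Q A C C'
  obtain ⟨K, Λ₂, hK, h2⟩ := TubeM_rep k Q A C C'
  have g0 : 0 ≤ Cg := by linarith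
  have s0 : 0 ≤ Cs := by linarith
  have q1 : 0 ≤ Cs / cg (k + 2) := div_nonneg s0 (cg_pos _).le
  have q2 : 0 ≤ Cg * Cs * C1 := mul_nonneg (mul_nonneg g0 s0) (by linarith)
  have q3 : 0 ≤ Cg * Cs * 2 ^ (k + 2) := mul_nonneg (mul_nonneg g0 s0) (by positivity)
  have q4 : 0 ≤ Cg * |C| * Cs * C1 :=
    mul_nonneg (mul_nonneg (mul_nonneg g0 (abs_nonneg _)) s0) (by linarith)
  obtain ⟨K', k0, k1, k2, k3, k4⟩ : ∃ K' : ℝ, 1 ≤ K' ∧ Cs / cg (k + 2) ≤ K' ∧ Cg * Cs * C1 ≤ K' ∧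
      Cg * Cs * 2 ^ (k + 2) ≤ K' ∧ Cg * |C| * Cs * C1 + K ≤ K' :=
    ⟨Cs / cg (k + 2) + Cg * Cs * C1 + Cg * Cs * 2 ^ (k + 2) + (Cg * |C| * Cs * C1 + K),
      by linarith only [hK, q1, q2, q3, q4], by linarith only [hK, q2, q3, q4], by linarith, by linarith only [hK, q1, q2, q4], by linarith only [q1, q2, q3]⟩
  refine ⟨K', max Λ₁ Λ₂, k0, fun {N T} B R c hΛ hG hR => ?_⟩
  obtain ⟨f0, -⟩ := TubeM_num2 T
  obtain ⟨n1, n2, -, -, n5, n6, n7⟩ := TubeM_num T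
  obtain ⟨R0, κ0, κ1⟩ := TubeM_kM T s0 hG
  obtain ⟨-, -, -, -, -, i1, b1⟩ := hs T.toFlat R c R0
  have hM := T.M_pos
  have Λ1 : 1 ≤ T.Λ := by linarith only [n1, n5, n6, n7, T.Λ_ge]
  rw [abs_of_nonneg (zero_le_one.trans T.C_ge)] at q4 k4
  refine ⟨i1, fun ξ hξ => ?_⟩
  obtain ⟨p1, p2⟩ := h1 B ((le_max_left _ _).trans hΛ) ξ (by linarith only [n1, n5, hξ])
  have x0 : 0 < ‖B.cx ξ‖ := by linarith only [n1, n5, hξ]
  have far : 1 ≤ ‖ξ‖ → ‖fderiv ℝ (B.TubeM_w (T.sg R c)) ξ‖ * 2 ≤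
      K' * TubeM_f T / ‖ξ‖ ^ (k + 1) := fun h => by
    have hp : 0 < ‖ξ‖ := by linarith only [n1, n5, n6, n7, h]
    have c0 : 0 ≤ Cg / (‖ξ‖ / 2) ^ (k + 1) := by positivity
    calc _ ≤ Cg / (‖ξ‖ / 2) ^ (k + 1) * (Cs / R) * T.M * 2 :=
          mul_le_mul_of_nonneg_right (B.TubeM_Dw2 i1 κ0 g0 b1 hg h) zero_le_two
      _ = Cg / (‖ξ‖ / 2) ^ (k + 1) * (Cs / R * T.M) * 2 := by ring
      _ ≤ Cg / (‖ξ‖ / 2) ^ (k + 1) * (Cs * TubeM_f T) * 2 :=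
          mul_le_mul_of_nonneg_right (mul_le_mul_of_nonneg_left κ1 c0) zero_le_two
      _ = Cg * Cs * 2 ^ (k + 2) * TubeM_f T / ‖ξ‖ ^ (k + 1) := by
          rw [div_pow]
          field_simp
          ring
      _ ≤ _ := div_le_div_of_nonneg_right (mul_le_mul_of_nonneg_right k3 f0) (pow_pos hp _).le
  refine ⟨(B.TubeM_lap i1 κ0 b1 hξ).trans ?_, ?_, fun hx e => ?_⟩
  · have c0 : 0 < T.rp⁻¹ ^ (k + 2) := pow_pos (inv_pos.2 n1) _
    have c1 := cg_pos (k + 2)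
    calc _ = 1 / (cg (k + 2) * T.rp⁻¹ ^ (k + 2)) * (Cs / R * T.M) := by ring
      _ ≤ 1 / (cg (k + 2) * T.rp⁻¹ ^ (k + 2)) * (Cs * TubeM_f T) :=
          mul_le_mul_of_nonneg_left κ1 (by positivity)
      _ = Cs / cg (k + 2) * TubeM_f T / T.rp⁻¹ ^ (k + 2) := by
          generalize T.rp⁻¹ ^ (k + 2) = z at c0
          field_simp
      _ ≤ _ := div_le_div_of_nonneg_right (mul_le_mul_of_nonneg_right k1 f0) c0.le
  · rcases le_total ‖ξ‖ 1 with h | h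
    · rw [max_eq_right h, div_one]
      have c1 := B.TubeM_Dw1 i1 κ0 g0 b1 hg hξ
        (div_nonneg (mul_nonneg (by linarith only [hC1, n1, n5, n6, n7]) hM.le) x0.le) p1
      calc _ ≤ Cg * (Cs / R) * (C1 * T.M / ‖B.cx ξ‖) * ‖B.cx ξ‖ :=
            mul_le_mul_of_nonneg_right c1 x0.le
        _ = Cg * C1 * (Cs / R * T.M) := by field_simp
        _ ≤ Cg * C1 * (Cs * TubeM_f T) :=
            mul_le_mul_of_nonneg_left κ1 (mul_nonneg g0 (by linarith only [hC1, n1, n5, n6, n7]))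
        _ = Cg * Cs * C1 * TubeM_f T := by ring
        _ ≤ _ := mul_le_mul_of_nonneg_right k2 f0
    · have hp : 0 < ‖ξ‖ := by linarith only [n1, n5, n6, n7, h]
      have c1 : ‖B.cx ξ‖ ≤ 2 * ‖ξ‖ := by
        linarith only [n1, n5, n6, n7, h, (norm_pr_le B.S.iw (ξ - B.o)).2.1, norm_sub_le ξ B.o, B.o_le,
          show B.cx ξ = vt B.S.iw (ξ - B.o) from rfl,
          show ‖B.cx ξ‖ = ‖vt B.S.iw (ξ - B.o)‖ from rfl]
      have c2 : 0 ≤ K' * TubeM_f T := mul_nonneg (by linarith only [k0, n1, n5, n6, n7]) f0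
      rw [max_eq_left h]
      calc _ ≤ ‖fderiv ℝ (B.TubeM_w (T.sg R c)) ξ‖ * (2 * ‖ξ‖) :=
            mul_le_mul_of_nonneg_left c1 (norm_nonneg _)
        _ = ‖fderiv ℝ (B.TubeM_w (T.sg R c)) ξ‖ * 2 * ‖ξ‖ := by ring
        _ ≤ K' * TubeM_f T / ‖ξ‖ ^ 2 * ‖ξ‖ := mul_le_mul_of_nonneg_right ((far h).trans
            (div_le_div_of_nonneg_left c2 (pow_pos hp _) (pow_le_pow_right₀ h (by omega)))) hp.le
        _ = _ := by field_simp
  · have e0 := norm_nonneg e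
    have c2 : K' * TubeM_f T ≤ K' * T.Λ * TubeM_f T :=
      mul_le_mul_of_nonneg_right (le_mul_of_one_le_right (by linarith only [k0, n1, n5, n6, n7]) Λ1) f0
    rcases le_total ‖ξ‖ 1 with h | h
    · rw [max_eq_right h, one_pow, div_one, norm_sub_rev]
      have c3 := B.TubeM_comm i1 κ0 g0 b1 hg hξ p2 e
      have c4 : ‖B.chc ξ • (∫ y in B.TubeM_Co,
          fderiv ℝ (Gm T.rp T.rp⁻¹) (T.x y - ξ) e • T.sg R c y ∂T.μ) -
          B.chc ξ • fderiv ℝ (T.uc R c T.rp) ξ e‖ ≤ K * T.Λ * TubeM_f T * ‖e‖ := by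
        have c5 : K * TubeM_f T * ‖e‖ ≤ K * T.Λ * TubeM_f T * ‖e‖ := mul_le_mul_of_nonneg_right
          (mul_le_mul_of_nonneg_right (le_mul_of_one_le_right (by linarith only [hK, n1, n5, n6, n7]) Λ1) f0) e0
        refine le_trans ?_ c5
        by_cases h3 : B.chc ξ = 0
        · rw [h3, zero_smul, zero_smul, sub_zero, norm_zero]
          exact mul_nonneg (mul_nonneg (by linarith only [hK, n1, n5, n6, n7]) f0) e0
        rw [← smul_sub, norm_smul, Real.norm_of_nonneg (B.TubeM_chc _).1]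
        refine (mul_le_of_le_one_left (norm_nonneg _) (B.TubeM_chc _).2.1).trans
          (h2 B R c ((le_max_right _ _).trans hΛ) hG hR ξ e ?_)
        linarith only [n1, n5, n6, n7, hx, h3, ((B.TubeM_chc _).2.2 h3).2]
      have c6 : 0 ≤ Cg * C * C1 * T.Λ * ‖e‖ := mul_nonneg (mul_nonneg (mul_nonneg
        (mul_nonneg g0 (zero_le_one.trans T.C_ge)) (by linarith only [hC1, n1, n5, n6, n7])) (by linarith only [n1, n5, n6, n7, Λ1])) e0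
      calc _ ≤ _ := norm_sub_le_norm_sub_add_norm_sub _ _ _
        _ ≤ _ := add_le_add c3 c4
        _ = Cg * C * C1 * T.Λ * ‖e‖ * (Cs / R * T.M) + K * T.Λ * TubeM_f T * ‖e‖ := by ring
        _ ≤ Cg * C * C1 * T.Λ * ‖e‖ * (Cs * TubeM_f T) + K * T.Λ * TubeM_f T * ‖e‖ :=
            add_le_add_left (mul_le_mul_of_nonneg_left κ1 c6) _
        _ = (Cg * C * Cs * C1 + K) * (T.Λ * TubeM_f T * ‖e‖) := by ring
        _ ≤ K' * (T.Λ * TubeM_f T * ‖e‖) :=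
            mul_le_mul_of_nonneg_right k4 (mul_nonneg (mul_nonneg (by linarith only [n1, n5, n6, n7, Λ1]) f0) e0)
        _ = _ := by ring
    · have h3 : B.chc ξ = 0 := by
        by_contra h3
        linarith only [n1, n5, n6, n7, hx, h, h3, ((B.TubeM_chc _).2.2 h3).2]
      rw [h3, zero_smul, zero_sub, norm_neg, max_eq_left h]
      refine (ContinuousLinearMap.le_opNorm _ e).trans (mul_le_mul_of_nonneg_right ?_ e0)
      refine le_trans ?_ ((far h).trans (div_le_div_of_nonneg_right c2 (by positivity)))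
      linarith only [norm_nonneg (fderiv ℝ (B.TubeM_w (T.sg R c)) ξ)]

/-- the energy of the mean over the shell -/
theorem TubeM_en : IntegrableOn (fun ξ => T.DS (closedBall ξ T.rp)) B.Sh0 ∧
    ∫ ξ in B.Sh0, T.DS (closedBall ξ T.rp) ≤ 2 ^ (k + 2) * T.rp ^ (k + 2) * (T.eps * T.M) := by
  obtain ⟨n1, -, -, -, n5, -⟩ := TubeM_num T
  have hc := B.measurable_all.2.2.2.2.1
  obtain ⟨h1, h2⟩ := T.DS_avg n1 hc.measurableSet hc.isBounded
  refine ⟨h1, h2.trans (mul_le_mul_of_nonneg_left (le_trans (T.DS_mono ?_).2 B.shell_sub.2.2.1)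
    (by positivity))⟩
  exact ((cthickening_subset_thickening' (by linarith) (by linarith) _).trans B.shell_sub.1).trans
    ((self_subset_thickening (by linarith) _).trans B.shell_sub.2.1)

/-- the comparison of the two stress tensors at a point -/
theorem TubeM_cmp (h : C' ≤ T.Λ) {p q : E (k + 2) →L[ℝ] E N} {ξ : E (k + 2)} {t X Y : ℝ}
    (ht : 1 ≤ t) (hX : 0 ≤ X) (hY : 0 ≤ Y)
    (h1 : T.ra ≤ ‖B.cx ξ‖ → ‖B.cx ξ‖ ≤ T.rb → ∀ i, ‖B.chc ξ • p (ev i) - q (ev i)‖ ^ 2 ≤ X)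
    (h2 : ξ ∈ B.Sh0 → ‖p‖ ^ 2 ≤ Y) :
    B.vth ξ * Tq q (B.ur ξ) - B.phi ξ * Tq p (B.ur ξ) ≤
      6 * t * (k + 2 : ℕ) * X + 4 / t * (k + 2 : ℕ) * B.Sh0.indicator (fun _ => Y) ξ := by
  have t0 : 0 < t := by linarith
  have y0 : 0 ≤ B.Sh0.indicator (fun _ => Y) ξ := indicator_nonneg (fun _ _ => hY) ξ
  by_cases hv : B.vth ξ = 0
  · rw [phi, hv, mul_zero, zero_mul, zero_mul, sub_zero]
    positivity
  obtain ⟨x1, x2⟩ := B.TubeM_vth hv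
  obtain ⟨v0, v2, -⟩ := (B.weights h).2.2.2.2.2.2.1 ξ
  have u1 := (B.ur_bd ξ ξ).1
  obtain ⟨-, a2, -, -, a5, -⟩ := Tq_bd (B.chc ξ • p) q u1 u1 ht 1
  have a3 := (Tq_bd p q u1 u1 ht (B.chc ξ)).2.2.1
  have b1 : ∑ i, ‖(B.chc ξ • p) (ev i) - q (ev i)‖ ^ 2 ≤ (k + 2 : ℕ) * X := by
    refine (Finset.sum_le_card_nsmul _ _ X fun i _ => h1 x1 x2 i).trans (le_of_eq ?_)
    rw [Finset.card_univ, Fintype.card_fin, nsmul_eq_mul]
  have b2 : ‖B.chc ξ • p‖ ^ 2 ≤ B.Sh0.indicator (fun _ => Y) ξ := by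
    by_cases h3 : B.chc ξ = 0
    · rw [norm_smul, h3, norm_zero, zero_mul, sq, zero_mul]
      exact y0
    have h4 : ξ ∈ B.Sh0 := ⟨((B.TubeM_chc _).2.2 h3).1.le, x1, x2⟩
    rw [indicator_of_mem h4]
    refine le_trans (pow_le_pow_left₀ (norm_nonneg _) ?_ 2) (h2 h4)
    rw [norm_smul, Real.norm_of_nonneg (B.TubeM_chc _).1]
    exact mul_le_of_le_one_left (norm_nonneg _) (B.TubeM_chc _).2.1
  have b3 := a2.trans (mul_le_mul_of_nonneg_left b2 (Nat.cast_nonneg _))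
  have b4 := a5.trans (add_le_add (mul_le_mul_of_nonneg_left b1 (by positivity))
    (mul_le_mul_of_nonneg_left b3 (by positivity)))
  calc _ = B.vth ξ * -(Tq (B.chc ξ • p) (B.ur ξ) - Tq q (B.ur ξ)) := by
        rw [a3, phi]
        ring
    _ ≤ B.vth ξ * |Tq (B.chc ξ • p) (B.ur ξ) - Tq q (B.ur ξ)| :=
        mul_le_mul_of_nonneg_left (neg_le_abs _) v0
    _ ≤ _ := mul_le_mul v2 b4 (abs_nonneg _) zero_le_two
    _ = _ := by ring

theorem TubeM_num3 (hk : 1 ≤ k) (T : TI k N Q A C) : 1 ≤ T.Λ ^ 31 ∧ T.Λ ^ 31 ≤ T.rp⁻¹ ∧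
    TubeM_f T ^ 2 * (T.Λ ^ 31 / T.rp⁻¹) ≤ T.er ∧ TubeM_f T ^ 2 / T.Λ ^ 31 = T.er ∧
    T.Λ ^ 7 * (T.Λ * TubeM_f T) ^ 2 * T.rb ^ 2 ≤ T.er ∧ T.eps * T.M / T.Λ ^ 7 = T.er := by
  obtain ⟨-, n2, -, -, -, -, -, -, -, -, -, -, -, -, -, -, n17, -⟩ := T.num
  obtain ⟨-, f2, -⟩ := TubeM_num2 T
  have h1 : 1 ≤ T.Λ := by linarith [T.Λ_ge]
  have h0 : 0 < T.Λ := by linarith
  have e1 : T.rp⁻¹ = T.Λ ^ (20 * k + 60) := by rw [TI.rp, inv_inv]
  refine ⟨one_le_pow₀ h1, ?_, ?_, ?_, ?_, ?_⟩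
  · rw [e1]
    exact pow_le_pow_right₀ h1 (by omega)
  · rw [f2, e1]
    calc _ = T.Λ ^ 62 / T.Λ ^ (20 * k + 60) * T.er := by ring
      _ ≤ _ := mul_le_of_le_one_left n2.le
        ((div_le_one (pow_pos h0 _)).2 (pow_le_pow_right₀ h1 (by omega)))
  · rw [f2]
    field_simp
  · rw [mul_pow, f2, TI.rb]
    calc _ = T.Λ ^ 40 / T.Λ ^ 80 * T.er := by field_simp
      _ ≤ _ := mul_le_of_le_one_left n2.le
        ((div_le_one (pow_pos h0 _)).2 (pow_le_pow_right₀ h1 (by omega)))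
  · rw [n17]
    field_simp

end Tb

/-- Let `P = D (uc R c rp)`, `Co = {‖v‖ < 1, ‖cx v‖ ≤ ra / 4}`, `σ̂ = chc (x) 1_Co (x) • sg`,
`b = 1 / rp`, `w ξ = - ∫ Gm rp b (x - ξ) • σ̂ dμ` (`conv_meas`), `f = M / G`, so
`f² ≤ Λ ^ 30 M / L`, `∫ ‖σ̂‖ ≤ C f`, and `σ̂ = 0` unless `‖x‖ ≤ 3 / 10`.
1. For `‖cx ξ‖ ≥ ra`: `‖lap w‖ ≤ C f / b ^ m`, zero for `‖ξ‖ ≥ b + 1`; `‖Dw‖ ≤ C f / ‖cx ξ‖`
(`Gt_bd`, `core_pot`) and `‖Dw‖ ≤ C f / ‖ξ‖ ^ (m - 1)` for `‖ξ‖ ≥ 1`. As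
`‖ξ‖ ^ (2 - m) ≤ ‖ξ‖⁻¹`, splitting at `‖ξ‖ = √b`, the left side of `pohozaev` is at least
`- C f² / √b`.
2. For `ra ≤ ‖cx ξ‖ ≤ rb`, `‖ξ‖ ≤ 1`: `‖Dw - chc ξ • P ξ‖² ≤ C Λ² f² + C Λ eps M`. Indeed, if
`chc ξ ≠ 0`, use `uc_rep` with `rp` and `1 / 10`: the term at the scale `1 / 10` is bounded by `uc_bd`
and `L1B`, the error by `C R M / rp ^ (m + 1)`, the part of the source outside `Co` by
`C eps f / rp ^ (m - 1)`; `Gm_add`; the commutator with `chc` is bounded by the second part of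
`core_pot`. This set has volume at most `C rb²`. For `‖ξ‖ ≥ 1` in the shell `chc ξ = 0` and
`∫ ‖Dw‖² ≤ C f² rb²` (Fubini for the splitting, or cover `{2 ^ j ≤ ‖ξ‖ ≤ 2 ^ (j + 1)}` with
`cover_plane` after scaling).
3. `∫ ‖P‖² over Sh0 ≤ C eps M` (`uc_bd`, `DS_avg`); `Tq_bd` with `t = Λ ^ 7`. -/
theorem Tb.sheet_part (k : ℕ) (hk : 1 ≤ k) (Q : ℕ) (A C C' : ℝ) : ∃ C₁ Λ₀ : ℝ, 1 ≤ C₁ ∧
    ∀ {N : ℕ} {T : TI k N Q A C} (B : Tb T C') (R : ℝ) (c : E N), Λ₀ ≤ T.Λ → T.G ≤ R → R ≤ T.g →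
    -(C₁ * T.er) ≤ ∫ ξ, B.phi ξ * Tq (fderiv ℝ (T.uc R c T.rp) ξ) (B.ur ξ) := by
  obtain ⟨K, Λ₁, hK, h1⟩ := Tb.TubeM_pt k hk Q A C C'
  obtain ⟨Cu, hCu, hu⟩ := uc_bd (k + 2) A
  have K0 : 0 ≤ K := by linarith
  have u0 : 0 ≤ Cu := by linarith
  have q1 : 0 ≤ K ^ 2 * (2 ^ (k + 2) + 4 ^ (k + 2)) := by positivity
  have q2 : 0 ≤ 12 * (k + 2 : ℕ) * K ^ 2 * 8 ^ (k + 1) := by positivity
  have q3 : 0 ≤ 4 * (k + 2 : ℕ) * Cu * 2 ^ (k + 2) := by positivity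
  refine ⟨1 + K ^ 2 * (2 ^ (k + 2) + 4 ^ (k + 2)) + 12 * (k + 2 : ℕ) * K ^ 2 * 8 ^ (k + 1) +
    4 * (k + 2 : ℕ) * Cu * 2 ^ (k + 2), max Λ₁ C', by linarith, fun {N T} B R c hΛ hG hR => ?_⟩
  have n2 := T.num.2.1
  by_cases hint : ¬ Integrable fun ξ => B.phi ξ * Tq (fderiv ℝ (T.uc R c T.rp) ξ) (B.ur ξ)
  · rw [integral_undef hint, neg_nonpos]
    positivity
  rw [not_not] at hint
  have hC' : C' ≤ T.Λ := (le_max_right _ _).trans hΛ
  obtain ⟨i1, h2⟩ := h1 B R c ((le_max_left _ _).trans hΛ) hG hR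
  obtain ⟨w1, w2, -⟩ := B.TubeM_basic i1
  obtain ⟨i2, po⟩ := B.pohozaev hC' w1 w2
  obtain ⟨f0, -, -, -, -, -, -, f8, f9⟩ := TubeM_num2 T
  obtain ⟨n1, n3, -, -, n5, n6, n7⟩ := Tb.TubeM_num T
  obtain ⟨l1, l2, l3, l4, l5, l6⟩ := Tb.TubeM_num3 hk T
  have Λ1 : 1 ≤ T.Λ := by linarith only [n1, n5, n6, n7, T.Λ_ge]
  have R0 : 0 < R := T.G_pos.trans_le hG
  have a0 : 0 ≤ K * TubeM_f T := mul_nonneg K0 f0
  have s1 : ∫ v in {v | T.ra ≤ ‖B.cx v‖}, ‖lap (B.TubeM_w (T.sg R c)) v‖ *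
      ‖fderiv ℝ (B.TubeM_w (T.sg R c)) v‖ * ‖B.cx v‖ ≤
      K ^ 2 * (2 ^ (k + 2) + 4 ^ (k + 2)) * T.er := by
    refine (TubeM_step1 (by omega) (measurableSet_le measurable_const
      ((B.calc_coord 0).2.2 0).1.continuous.norm.measurable) (sq_nonneg (K * TubeM_f T)) l1 l2
      (fun ξ => by positivity) (fun ξ hξ => ?_) fun ξ hξ => ?_).trans ?_
    · obtain ⟨c1, c2, -⟩ := h2 ξ hξ
      rw [mul_assoc]
      refine (mul_le_mul c1 c2 (by positivity) ((norm_nonneg _).trans c1)).trans (le_of_eq ?_)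
      ring
    · rw [B.TubeM_Dw0 i1 hξ, norm_zero, mul_zero, zero_mul]
    · calc _ = K ^ 2 * (2 ^ (k + 2) * (TubeM_f T ^ 2 * (T.Λ ^ 31 / T.rp⁻¹)) +
            4 ^ (k + 2) * (TubeM_f T ^ 2 / T.Λ ^ 31)) := by ring
        _ ≤ K ^ 2 * (2 ^ (k + 2) * T.er + 4 ^ (k + 2) * T.er) := by
            rw [l4]
            exact mul_le_mul_of_nonneg_left (add_le_add_left
              (mul_le_mul_of_nonneg_left l3 (by positivity)) _) (sq_nonneg _)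
        _ = _ := by ring
  obtain ⟨n, hn, -⟩ := TubeC_nat (x := T.rp⁻¹ + 1) (by linarith only [n1, n5, n6, n7, l1, l2])
  obtain ⟨H, H1, H0, H2, H3⟩ := B.TubeM_maj n (r := T.rb) (by linarith only [n1, n5, n6])
  obtain ⟨e1, e2⟩ := B.TubeM_en
  have mS := B.measurable_all.2.2.2.2.1.measurableSet
  have t1 : 1 ≤ T.Λ ^ 7 := one_le_pow₀ Λ1
  have rp0 : 0 < T.rp ^ (k + 2) := pow_pos n1 _
  have i3 : Integrable fun ξ => 6 * T.Λ ^ 7 * (k + 2 : ℕ) * ((K * T.Λ * TubeM_f T) ^ 2 * H ξ) :=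
    (H1.const_mul _).const_mul _
  have i4 : Integrable fun ξ => 4 / T.Λ ^ 7 * (k + 2 : ℕ) * B.Sh0.indicator
      (fun ξ => Cu * T.DS (closedBall ξ T.rp) / T.rp ^ (k + 2)) ξ :=
    ((integrable_indicator_iff mS).2 ((e1.const_mul _).div_const _)).const_mul _
  have s2 := integral_mono (i2.sub hint) (i3.add i4) fun ξ => by
    refine (B.TubeM_cmp hC' t1 (X := (K * T.Λ * TubeM_f T) ^ 2 * H ξ)
      (Y := Cu * T.DS (closedBall ξ T.rp) / T.rp ^ (k + 2)) (mul_nonneg (sq_nonneg _) (H0 ξ))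
      (div_nonneg (mul_nonneg u0 (T.DS_mono Subset.rfl).1) rp0.le) (fun x1 x2 i => ?_)
      fun hξ => ?_).trans (le_of_eq ?_)
    · rcases le_total (T.rp⁻¹ + 1) ‖ξ‖ with h3 | h3
      · have h4 : B.chc ξ = 0 := by
          by_contra h4
          linarith only [n1, n5, n6, n7, l1, l2, x2, h3, h4, ((B.TubeM_chc _).2.2 h4).2]
        rw [h4, B.TubeM_Dw0 i1 h3, zero_smul, zero_apply, sub_zero, norm_zero,
          sq, zero_mul]
        exact mul_nonneg (sq_nonneg _) (H0 ξ)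
      have c1 := (h2 ξ x1).2.2 x2 (ev i)
      have c2 : 1 ≤ (max ‖ξ‖ 1) ^ (k + 1) := one_le_pow₀ (le_max_right _ _)
      have c3 := H2 ξ (h3.trans hn) x2
      rw [norm_ev, mul_one] at c1
      refine (pow_le_pow_left₀ (norm_nonneg _) c1 2).trans ?_
      rw [div_pow, div_eq_mul_one_div]
      exact mul_le_mul_of_nonneg_left ((one_div_le_one_div_of_le (by linarith only [n1, n5, n6, n7, c2])
        (le_self_pow₀ c2 two_ne_zero)).trans c3) (sq_nonneg _)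
    · have c1 : ‖ξ‖ ≤ 1 / 4 + T.rb := by
        rw [← (B.coord ξ ξ 0).1]
        exact (norm_add_le _ _).trans (add_le_add hξ.1 hξ.2.2)
      exact (hu T.toFlat R c T.rp ξ R0 (hR.trans f8) f9 (by linarith only [n1, n5, n6, n7, c1])).2.1
    · simp only [Pi.add_apply, indicator]
  have s3 : ∫ ξ, 6 * T.Λ ^ 7 * (k + 2 : ℕ) * ((K * T.Λ * TubeM_f T) ^ 2 * H ξ) ≤
      12 * (k + 2 : ℕ) * K ^ 2 * 8 ^ (k + 1) * T.er := by
    rw [integral_const_mul, integral_const_mul]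
    calc _ ≤ 6 * T.Λ ^ 7 * (k + 2 : ℕ) * ((K * T.Λ * TubeM_f T) ^ 2 *
          (2 * 8 ^ (k + 1) * T.rb ^ 2)) := mul_le_mul_of_nonneg_left
            (mul_le_mul_of_nonneg_left H3 (sq_nonneg _)) (by positivity)
      _ = 12 * (k + 2 : ℕ) * K ^ 2 * 8 ^ (k + 1) *
          (T.Λ ^ 7 * (T.Λ * TubeM_f T) ^ 2 * T.rb ^ 2) := by ring
      _ ≤ _ := mul_le_mul_of_nonneg_left l5 q2
  have s4 : ∫ ξ, 4 / T.Λ ^ 7 * (k + 2 : ℕ) * B.Sh0.indicator
      (fun ξ => Cu * T.DS (closedBall ξ T.rp) / T.rp ^ (k + 2)) ξ ≤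
      4 * (k + 2 : ℕ) * Cu * 2 ^ (k + 2) * T.er := by
    rw [integral_const_mul, integral_indicator mS, integral_div, integral_const_mul]
    calc _ ≤ 4 / T.Λ ^ 7 * (k + 2 : ℕ) *
          (Cu * (2 ^ (k + 2) * T.rp ^ (k + 2) * (T.eps * T.M)) / T.rp ^ (k + 2)) :=
          mul_le_mul_of_nonneg_left (div_le_div_of_nonneg_right
            (mul_le_mul_of_nonneg_left e2 u0) rp0.le) (by positivity)
      _ = 4 * (k + 2 : ℕ) * Cu * 2 ^ (k + 2) * (T.eps * T.M / T.Λ ^ 7) := by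
          generalize T.rp ^ (k + 2) = z at rp0
          field_simp
      _ = _ := by rw [l6]
  rw [integral_sub' i2 hint, integral_add' i3 i4] at s2
  linarith only [n2, po, s1, s2, s3, s4]

end Pool.Agent.MP_f6c0e6_an.Gen

end
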