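import Pool.Agent.MP_f6c0e6_an.All.TubeD
import Pool.Agent.MP_f6c0e6_an.All.TubeG
import Pool.Agent.MP_f6c0e6_an.All.TubeF
import Pool.Agent.MP_f6c0e6_an.All.KeyA
import Pool.Agent.MP_f6c0e6_an.All.KeyB

section

/-! The tube theorem. -/

set_option autoImplicit false

open MeasureTheory Filter Topology Set Metric
open scoped ENNReal RealInnerProductSpace

namespace Pool.Agent.MP_f6c0e6_an.Gen

variable {m N : ℕ}

section lip

variable {X : Type} [NormedAddCommGroup X] {f g : X → ℝ} {K K' : ℝ}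

theorem TubeN_lip_mono (h : Lip K f) (hK : K ≤ K') : Lip K' f := fun x x' =>
  (h x x').trans (mul_le_mul_of_nonneg_right hK (norm_nonneg _))

theorem TubeN_lip_mul (hf : Lip K f) (hg : Lip K' g) (bf : ∀ x, |f x| ≤ 1) (bg : ∀ x, |g x| ≤ 1) :
    Lip (K + K') fun x => f x * g x := fun x x' => by
  have h1 := hf x x'
  have h2 := hg x x'
  rw [Real.norm_eq_abs] at h1 h2
  have e : f x * g x - f x' * g x' = (f x - f x') * g x + f x' * (g x - g x') := by ring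
  rw [Real.norm_eq_abs, e, add_mul]
  refine (abs_add_le _ _).trans (add_le_add ?_ ?_)
  · rw [abs_mul]
    exact (mul_le_of_le_one_right (abs_nonneg _) (bg x)).trans h1
  · rw [abs_mul]
    exact (mul_le_of_le_one_left (abs_nonneg _) (bf x')).trans h2

theorem TubeN_lip_sub (hf : Lip K f) (hg : Lip K' g) : Lip (K + K') fun x => f x - g x :=
  fun x x' => by
  have e : f x - g x - (f x' - g x') = (f x - f x') - (g x - g x') := by ring
  rw [e, add_mul]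
  exact (norm_sub_le _ _).trans (add_le_add (hf x x') (hg x x'))

theorem TubeN_lip_one_sub (hf : Lip K f) : Lip K fun x => 1 - f x := fun x x' => by
  have e : 1 - f x - (1 - f x') = -(f x - f x') := by ring
  rw [e, norm_neg]
  exact hf x x'

theorem TubeN_lip_smul (hf : Lip K f) {t : ℝ} (ht : 0 ≤ t) : Lip (t * K) fun x => t * f x :=
  fun x x' => by
  rw [← mul_sub, norm_mul, Real.norm_of_nonneg ht, mul_assoc]
  exact mul_le_mul_of_nonneg_left (hf x x') ht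

end lip

theorem TI.TubeN_num {k Q : ℕ} {A C : ℝ} (T : TI k N Q A C) :
    16 * (T.Λ / T.ra) / T.rb ≤ T.L ∧ 0 < T.ra ∧ T.ra ≤ 1 ∧ 0 < T.rb ∧ T.rb ≤ 1 / 10 ∧
      T.rb * T.Λ ^ 7 ≤ 1 ∧ T.ra / T.rb * T.Λ ^ 7 ≤ 1 := by
  have h2 := T.Λ_ge
  have h1 : (1 : ℝ) ≤ T.Λ := by linarith
  have h0 : (0 : ℝ) < T.Λ := by linarith
  obtain ⟨-, -, -, -, -, -, -, n8, n9, -, n11, -⟩ := T.num
  have ha : 0 < T.ra := by rw [TI.ra]; positivity
  have hb : 0 < T.rb := by rw [TI.rb]; positivity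
  have hb1 : T.rb ≤ 1 / 10 := n9.trans (by norm_num)
  refine ⟨?_, ha, by linarith, hb, hb1, ?_, ?_⟩
  · have e1 : (16 : ℝ) ≤ T.Λ ^ 4 := by
      calc (16 : ℝ) = 2 ^ 4 := by norm_num
        _ ≤ T.Λ ^ 4 := pow_le_pow_left₀ (by norm_num) h2 4
    have e2 : 20 * k + 95 ≤ P0 k := le_trans (by nlinarith only []) (TubeA_P0 k)
    rw [TI.ra, TI.rb, div_inv_eq_mul, div_inv_eq_mul]
    calc 16 * (T.Λ * T.Λ ^ (20 * k + 50)) * T.Λ ^ 40
        ≤ T.Λ ^ 4 * (T.Λ * T.Λ ^ (20 * k + 50)) * T.Λ ^ 40 := by gcongr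
      _ = T.Λ ^ (20 * k + 95) := by ring
      _ ≤ T.Λ ^ P0 k := pow_le_pow_right₀ h1 e2
      _ ≤ T.L := T.L_ge
  · rw [TI.rb, inv_mul_le_iff₀ (by positivity), mul_one]
    exact pow_le_pow_right₀ h1 (by norm_num)
  · rw [div_mul_eq_mul_div, div_le_one hb, ← n8]
    exact mul_le_mul_of_nonneg_left (pow_le_pow_right₀ h1 (by omega)) ha.le

namespace Tb

variable {k Q : ℕ} {A C C' : ℝ} {T : TI k N Q A C} (B : Tb T C')

theorem TubeN_chi (v : E (k + 2)) : 0 ≤ B.chi v ∧ B.chi v ≤ 1 ∧ 0 ≤ B.chi1 v ∧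
    (‖B.cx v‖ ≤ T.ra → B.chi v = 1) ∧ (T.rb ≤ ‖B.cx v‖ → B.chi v = 0) :=
  ⟨(B.prof.bd _).1, (B.prof.bd _).2.1, (B.prof.bd₁ _).1,
    fun h => B.prof.one _ (pow_le_pow_left₀ (norm_nonneg _) h 2),
    fun h => B.prof.zero _ (pow_le_pow_left₀ T.TubeN_num.2.2.2.1.le h 2)⟩

variable (T) in
theorem TubeN_ch : Lip C T.ch ∧ Lip (2 * C) (fun x => T.ch x ^ 2) ∧
    (∀ x, 0 ≤ T.ch x ^ 2 ∧ T.ch x ^ 2 ≤ 1) ∧ ∀ x, 1 / 4 ≤ ‖x‖ → T.ch x = 0 := by
  have l1 : Lip C T.ch :=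
    TubeA_lip (T.ch_test.smooth.differentiable (by norm_num)) fun x => (T.ch_bd x).2.2
  refine ⟨l1, TubeA_lip_sq l1 fun x => ⟨(T.ch_bd x).1, (T.ch_bd x).2.1⟩,
    fun x => ⟨sq_nonneg _, pow_le_one₀ (T.ch_bd x).1 (T.ch_bd x).2.1⟩, fun x hx => ?_⟩
  refine image_eq_zero_of_notMem_tsupport fun h => ?_
  exact absurd (mem_ball_zero_iff.1 (T.ch_test.supp h)) (not_lt.2 hx)

include B in
theorem TubeN_const (h : C' ≤ T.Λ) (hC : C ≤ T.Λ) : 2 * C' / T.ra + 2 * C ≤ T.L ∧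
    1 / 2 * ((8 * C' + 4 * C) / T.ra) ≤ T.L ∧
    (4 * C * T.rb)⁻¹ * (2 * C' / T.ra + (2 * C + 2 * C)) ≤ T.L := by
  obtain ⟨n1, n2, n3, n4, n5, -, -⟩ := T.TubeN_num
  have c1 := T.C_ge
  have c2 := B.C_ge
  have h2 := T.Λ_ge
  have a1 : C' / T.ra ≤ T.Λ / T.ra := div_le_div_of_nonneg_right h n2.le
  have a2 : C / T.ra ≤ T.Λ / T.ra := div_le_div_of_nonneg_right hC n2.le
  have a3 : T.Λ ≤ T.Λ / T.ra := le_div_self (by linarith) n2 n3
  have a4 : 16 * (T.Λ / T.ra) ≤ 16 * (T.Λ / T.ra) / T.rb :=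
    le_div_self (by linarith only [n4, n5, h2, a3]) n4 (by linarith)
  have a5 : 0 ≤ C' / T.ra := by positivity
  refine ⟨?_, ?_, ?_⟩
  · rw [mul_div_assoc]
    linarith only [hC, n1, n4, n5, h2, a1, a3, a4]
  · rw [add_div, mul_div_assoc, mul_div_assoc]
    linarith only [n1, n4, n5, h2, a1, a2, a3, a4]
  · refine le_trans ?_ n1
    rw [mul_div_assoc 2, div_eq_inv_mul (16 * _)]
    refine mul_le_mul (inv_anti₀ n4 (by nlinarith only [n4, n5, c1])) (by linarith only [hC, n4, n5, h2, a1, a3]) (by linarith only [n4, n5, c1, a5]) (by positivity)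

/-- the weight outside the core -/
theorem TubeN_o (h : C' ≤ T.Λ) (hC : C ≤ T.Λ) :
    (∀ x, 0 ≤ (1 - B.chi x) * T.ch x ^ 2 ∧ (1 - B.chi x) * T.ch x ^ 2 ≤ T.ch x ^ 2) ∧
    Lip T.L (fun x => (1 - B.chi x) * T.ch x ^ 2) ∧
    T.DD (fun x => (1 - B.chi x) * T.ch x ^ 2) ≤ T.eps * T.M := by
  obtain ⟨-, l2, b2, z2⟩ := TubeN_ch T
  obtain ⟨-, -, -, -, -, -, -, -, -, w1, -⟩ := B.weights h
  have p1 : ∀ x, 0 ≤ (1 - B.chi x) * T.ch x ^ 2 ∧ (1 - B.chi x) * T.ch x ^ 2 ≤ T.ch x ^ 2 :=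
    fun x => ⟨mul_nonneg (by linarith [(B.TubeN_chi x).2.1]) (b2 x).1,
      mul_le_of_le_one_left (b2 x).1 (by linarith [(B.TubeN_chi x).1])⟩
  have p2 : Lip T.L fun x => (1 - B.chi x) * T.ch x ^ 2 :=
    TubeN_lip_mono (TubeN_lip_mul (TubeN_lip_one_sub w1) l2
      (fun x => abs_le.2 ⟨by linarith [(B.TubeN_chi x).2.1], by linarith [(B.TubeN_chi x).1]⟩)
      fun x => abs_le.2 ⟨by linarith [(b2 x).1], (b2 x).2⟩) (B.TubeN_const h hC).1
  refine ⟨p1, p2, ?_⟩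
  have h3 := T.abs_DD_le (M := 1) (Z := B.Out) p2.continuous.measurable
    (fun x => abs_le.2 ⟨by linarith [(p1 x).1], (p1 x).2.trans (b2 x).2⟩)
    B.measurable_all.2.2.2.2.2.2 fun x hx => by
      rcases le_or_gt (1 / 4) ‖x‖ with h1 | h1
      · rw [z2 x h1]; ring
      · have h4 : ‖B.cx x‖ < T.rp / 8 := by
          by_contra h5
          exact hx ⟨by linarith only [h1], not_lt.1 h5⟩
        obtain ⟨-, -, -, -, -, n6, -, -, -, n10, -⟩ := T.num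
        rw [(B.TubeN_chi x).2.2.2.1 (by linarith)]
        ring
  rw [one_mul] at h3
  exact (le_abs_self _).trans (h3.trans B.shell_sub.2.2.1)

/-- the splitting of the weight -/
theorem TubeN_split (h : C' ≤ T.Λ) (hC : C ≤ T.Λ) :
    T.Y (fun x => (1 - B.chi x) * T.ch x ^ 2) + T.Y (fun v => B.chi v * B.cw v) - 4 * C * T.er ≤
      T.Y fun x => T.ch x ^ 2 := by
  obtain ⟨l1, l2, b2, z2⟩ := TubeN_ch T
  obtain ⟨-, -, -, -, -, -, w0, -, w2, w1, -⟩ := B.weights h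
  obtain ⟨-, -, -, n4, n5, n6, -⟩ := T.TubeN_num
  have c1 := T.C_ge
  have hd : ∀ v, ‖v - B.ax (B.wx v)‖ = ‖B.cx v‖ := fun v => by
    rw [← sub_eq_of_eq_add' (B.coord v v 0).1.symm]
  have z3 : ∀ x, 2 ≤ ‖x‖ → B.chi x * B.cw x = 0 := fun x hx => by
    rcases le_or_gt T.rb ‖B.cx x‖ with h1 | h1
    · rw [(B.TubeN_chi x).2.2.2.2 h1, zero_mul]
    · have h2 := norm_sub_norm_le x (B.ax (B.wx x))
      rw [hd] at h2
      rw [(w0 x).2.2.2.2.2.2.2.2.2.2.2.1 (by linarith), mul_zero]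
  have l3 : Lip (2 * C' / T.ra + (2 * C + 2 * C)) fun x => B.chi x * (T.ch x ^ 2 - B.cw x) :=
    TubeN_lip_mul w1 (TubeN_lip_sub l2 w2)
      (fun x => abs_le.2 ⟨by linarith [(B.TubeN_chi x).1], (B.TubeN_chi x).2.1⟩)
      fun x => abs_le.2 ⟨by linarith [(b2 x).1, (w0 x).2.2.2.2.2.2.2.1],
        by linarith [(b2 x).2, (w0 x).2.2.2.2.2.2.1]⟩
  have z4 : ∀ x, 2 ≤ ‖x‖ → B.chi x * (T.ch x ^ 2 - B.cw x) = 0 := fun x hx => by
    rw [mul_sub, z3 x hx, z2 x (by linarith)]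
    ring
  have hp : 0 < 4 * C * T.rb := by positivity
  have b3 : ∀ x, |B.chi x * (T.ch x ^ 2 - B.cw x)| ≤ 4 * C * T.rb := fun x => by
    rcases le_or_gt T.rb ‖B.cx x‖ with h1 | h1
    · rw [(B.TubeN_chi x).2.2.2.2 h1, zero_mul, abs_zero]
      exact hp.le
    · have h2 := l2 x (B.ax (B.wx x))
      rw [hd, Real.norm_eq_abs] at h2
      have h3 : |B.cw x - T.ch (B.ax (B.wx x)) ^ 2| ≤ 2 * C * T.rb :=
        (w0 x).2.2.2.2.2.2.2.2.2.2.1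
      have h4 : 2 * C * ‖B.cx x‖ ≤ 2 * C * T.rb := mul_le_mul_of_nonneg_left h1.le (by linarith)
      rw [abs_mul, abs_of_nonneg (B.TubeN_chi x).1]
      refine (mul_le_of_le_one_left (abs_nonneg _) (B.TubeN_chi x).2.1).trans ?_
      obtain ⟨a1, a2⟩ := abs_le.1 h2
      obtain ⟨a3, a4⟩ := abs_le.1 h3
      exact abs_le.2 ⟨by linarith, by linarith⟩
  have g := T.g3 (fun x => (4 * C * T.rb)⁻¹ * (B.chi x * (T.ch x ^ 2 - B.cw x)))
    (TubeN_lip_mono (TubeN_lip_smul l3 (inv_pos.2 hp).le) (B.TubeN_const h hC).2.2)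
    (fun x => by
      rw [abs_mul, abs_of_pos (inv_pos.2 hp), inv_mul_le_iff₀ hp, mul_one]
      exact b3 x)
    fun x hx => by rw [z4 x hx, mul_zero]
  rw [(T.lin_smul _ _).2.2, abs_mul, abs_of_pos (inv_pos.2 hp), inv_mul_le_iff₀ hp] at g
  have e1 : T.Λ ^ 6 / T.L * T.M = T.Λ ^ 7 * T.er :=
    T.num.2.2.2.2.2.2.2.2.2.2.2.2.2.2.2.2.1
  have e2 : 4 * C * T.rb * (T.Λ ^ 7 * T.er) ≤ 4 * C * T.er := by
    have e3 : 4 * C * T.rb * (T.Λ ^ 7 * T.er) = 4 * C * T.er * (T.rb * T.Λ ^ 7) := by ring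
    rw [e3]
    exact mul_le_of_le_one_right (mul_nonneg (by linarith) T.num.2.1.le) n6
  rw [e1] at g
  have a1 : Adm fun x => (1 - B.chi x) * T.ch x ^ 2 :=
    Adm.of_cont (B.TubeN_o h hC).2.1.continuous (R := 2) fun x hx => by
      rw [z2 x (by linarith)]; ring
  have a2 : Adm fun x => B.chi x * B.cw x :=
    Adm.of_cont (w1.continuous.mul w2.continuous) (R := 2) z3
  have a3 : Adm fun x => B.chi x * (T.ch x ^ 2 - B.cw x) := Adm.of_cont l3.continuous (R := 2) z4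
  have e4 : (fun x => T.ch x ^ 2) = fun x => ((1 - B.chi x) * T.ch x ^ 2 + B.chi x * B.cw x) +
      B.chi x * (T.ch x ^ 2 - B.cw x) := funext fun x => by ring
  rw [e4, (T.lin_add (a1.add a2) a3).2.2, (T.lin_add a1 a2).2.2]
  linarith only [g, e2, (abs_le.1 (g.trans e2)).1]

theorem TubeN_intg {w : E (k + 2) → ℝ} (hw : Measurable w) (bw : ∀ v, |w v| ≤ 2) {f : E N → ℝ}
    (hf : Measurable f) (bf : ∀ y, |f y| ≤ 2 * T.d y) :
    Integrable (fun y => w (T.x y) * f y) T.μ := by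
  refine T.integrable_of_bd ((hw.comp T.toFlat.measurable_all.1).mul hf)
    (M := 2 * (2 * ((k + 2 : ℕ) : ℝ))) fun y _ _ => ?_
  rw [Real.norm_eq_abs, abs_mul]
  exact mul_le_mul (bw _) ((bf y).trans (by linarith [(T.d_bd y).2])) (abs_nonneg _) (by norm_num)

/-- the splitting of the integrals -/
theorem TubeN_int (h : C' ≤ T.Λ) :
    (∫ y, B.phi (T.x y) * (1 - T.Fu (T.x y)) * (B.Nr y - T.d y / 2) ∂T.μ) +
      (∫ y, B.phi (T.x y) * T.Fu (T.x y) * (B.Nr y - T.d y / 2 + B.Nw y) ∂T.μ) - C' ^ 2 * T.er ≤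
    (∫ y, B.phi (T.x y) * (B.Nr y - T.d y / 2) ∂T.μ) +
      ∫ y, B.chc (T.x y) ^ 2 * (B.chi (T.x y) - B.chi1 (T.x y)) * B.Nw y ∂T.μ := by
  obtain ⟨s1, s2, -, s4, -, s6, w0, -⟩ := B.weights h
  obtain ⟨-, u2, -, u4⟩ := T.Fu_bd
  obtain ⟨m1, m2, -⟩ := B.measurable_all
  obtain ⟨-, n2, -, n4, n5, -, n7⟩ := T.TubeN_num
  have c2 := B.C_ge
  have md := T.toFlat.measurable_all.2.2.2.2.1
  have mp := s6.continuous.measurable
  have mF := u2.continuous.measurable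
  have m3 : Measurable fun y => B.Nr y - T.d y / 2 := m2.sub (md.div_const 2)
  have b1 : ∀ y, |B.Nr y - T.d y / 2| ≤ 2 * T.d y := fun y => by
    obtain ⟨-, -, -, a1, a2, -⟩ := B.Nw_bd y
    exact abs_le.2 ⟨by linarith only [a1, a2], by linarith only [a1, a2]⟩
  have b2 : ∀ y, |B.Nr y - T.d y / 2 + B.Nw y| ≤ 2 * T.d y := fun y => by
    obtain ⟨a3, a4, -, a1, a2, -⟩ := B.Nw_bd y
    exact abs_le.2 ⟨by linarith, by linarith⟩
  have b3 : ∀ y, |B.Nw y| ≤ 2 * T.d y := fun y => by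
    obtain ⟨a3, a4, -⟩ := B.Nw_bd y
    exact abs_le.2 ⟨by linarith, by linarith⟩
  have q1 : ∀ v, 0 ≤ B.chc v ^ 2 ∧ B.chc v ^ 2 ≤ 1 := fun v =>
    ⟨sq_nonneg _, pow_le_one₀ (w0 v).2.2.2.2.2.2.2.2.1 (w0 v).2.2.2.2.2.2.2.2.2.1⟩
  have q2 : ∀ v, 0 ≤ B.chi v - B.chi1 v ∧ B.chi v - B.chi1 v ≤ 1 := fun v =>
    ⟨by linarith [(w0 v).2.2.2.2.2.2.2.2.2.2.2.2.1],
      by linarith [(B.TubeN_chi v).2.1, (B.TubeN_chi v).2.2.1]⟩
  have i1 := TubeN_intg (T := T) (w := fun v => B.phi v * (1 - T.Fu v)) (mp.mul (mF.const_sub 1))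
    (fun v => by
      obtain ⟨-, -, -, a1, a2, -⟩ := w0 v
      obtain ⟨-, a3, a4, -⟩ := u4 v
      exact abs_le.2 ⟨by nlinarith only [n5, n4, a1, a4], by nlinarith only [a2, n4, n5, a1, a3]⟩) m3 b1
  have m4 : Measurable fun y => B.Nr y - T.d y / 2 + B.Nw y := m3.add m1
  have i2 := TubeN_intg (T := T) (w := fun v => B.phi v * T.Fu v) (mp.mul mF)
    (fun v => by
      obtain ⟨-, -, -, a1, a2, -⟩ := w0 v
      obtain ⟨-, a3, a4, -⟩ := u4 v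
      exact abs_le.2 ⟨by nlinarith only [n5, n4, a1, a3], by nlinarith only [a2, n4, n5, a1, a4]⟩) m4 b2
  have i3 := TubeN_intg (T := T) mp (fun v => by
      obtain ⟨-, -, -, a1, a2, -⟩ := w0 v
      exact abs_le.2 ⟨by linarith, a2⟩) m3 b1
  have i4 := TubeN_intg (T := T) (w := fun v => B.chc v ^ 2 * (B.chi v - B.chi1 v))
    ((s4.continuous.measurable.pow_const 2).mul
      (s1.continuous.measurable.sub s2.continuous.measurable))
    (fun v => by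
      obtain ⟨a1, a2⟩ := q1 v
      obtain ⟨a3, a4⟩ := q2 v
      exact abs_le.2 ⟨by nlinarith only [n4, n5, a3], by nlinarith only [n4, n5, a2, a4]⟩) m1 b3
  have mS : MeasurableSet (T.x ⁻¹' ball 0 1) := T.toFlat.measurable_all.1 measurableSet_ball
  have i5 : Integrable B.Nw T.μ := by
    simpa using TubeN_intg (T := T) (w := fun _ => 1) measurable_const (fun _ => by norm_num) m1 b3
  have i6 := (i5.indicator mS).const_mul (C' * T.ra / T.rb)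
  have hκ : 0 ≤ C' * T.ra / T.rb := by positivity
  have key : ∫ y, (B.phi (T.x y) * (1 - T.Fu (T.x y)) * (B.Nr y - T.d y / 2) +
      B.phi (T.x y) * T.Fu (T.x y) * (B.Nr y - T.d y / 2 + B.Nw y)) ∂T.μ ≤
      ∫ y, ((B.phi (T.x y) * (B.Nr y - T.d y / 2) +
        B.chc (T.x y) ^ 2 * (B.chi (T.x y) - B.chi1 (T.x y)) * B.Nw y) +
        C' * T.ra / T.rb * (T.x ⁻¹' ball 0 1).indicator B.Nw y) ∂T.μ := by
    refine integral_mono (i1.add i2) ((i3.add i4).add i6) fun y => ?_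
    have a0 := (B.Nw_bd y).1
    obtain ⟨a1, a2⟩ := q1 (T.x y)
    obtain ⟨a3, -⟩ := q2 (T.x y)
    have a4 : B.phi (T.x y) * T.Fu (T.x y) * B.Nw y ≤
        B.chc (T.x y) ^ 2 * (B.chi (T.x y) - B.chi1 (T.x y)) * B.Nw y +
          C' * T.ra / T.rb * (T.x ⁻¹' ball 0 1).indicator B.Nw y := by
      by_cases hy : T.x y ∈ B.Sh0
      · have a5 : T.x y ∈ B.Sh := B.shell_sub.1 (self_subset_thickening (by linarith only [n2]) _ hy)
        have a6 : y ∈ T.x ⁻¹' ball 0 1 := mem_ball_zero_iff.2 (by linarith [a5.1])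
        rw [indicator_of_mem a6, ← add_mul]
        refine mul_le_mul_of_nonneg_right ?_ a0
        calc B.phi (T.x y) * T.Fu (T.x y) ≤ B.phi (T.x y) :=
              mul_le_of_le_one_right (w0 _).2.2.2.1 (u4 _).2.2.1
          _ ≤ B.chc (T.x y) ^ 2 * (B.chi (T.x y) - B.chi1 (T.x y) + C' * T.ra / T.rb) :=
              mul_le_mul_of_nonneg_left (w0 _).2.2.1 a1
          _ ≤ _ := by
              rw [mul_add]
              exact add_le_add le_rfl (mul_le_of_le_one_left hκ a2)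
      · rw [(w0 _).2.2.2.2.2.1 hy, zero_mul, zero_mul]
        exact add_nonneg (mul_nonneg (mul_nonneg a1 a3) a0)
          (mul_nonneg hκ (indicator_nonneg (fun y _ => (B.Nw_bd y).1) y))
    simp only
    linarith only [a4]
  have i7 : Integrable (fun y => B.phi (T.x y) * (B.Nr y - T.d y / 2) +
      B.chc (T.x y) ^ 2 * (B.chi (T.x y) - B.chi1 (T.x y)) * B.Nw y) T.μ := i3.add i4
  rw [integral_add i1 i2, integral_add i7 i6, integral_add i3 i4, integral_const_mul,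
    integral_indicator mS] at key
  have e0 : ∫ y in T.x ⁻¹' ball 0 1, B.Nw y ∂T.μ ≤ C' * T.eps * T.M := B.nw
  have e1 : T.eps * T.M = T.Λ ^ 7 * T.er := T.num.2.2.2.2.2.2.2.2.2.2.2.2.2.2.2.2.1
  have e2 : C' * T.ra / T.rb * (C' * T.eps * T.M) ≤ C' ^ 2 * T.er := by
    have e3 : C' * T.ra / T.rb * (C' * T.eps * T.M) =
        C' ^ 2 * T.er * (T.ra / T.rb * T.Λ ^ 7) := by
      rw [mul_assoc C' T.eps, e1]; ring
    rw [e3]
    exact mul_le_of_le_one_right (mul_nonneg (sq_nonneg _) T.num.2.1.le) n7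
  linarith only [key, e2, e0, hκ, mul_le_mul_of_nonneg_left e0 hκ]

end Tb

theorem TubeN_sum {k Q : ℕ} {A C C' C'' D : ℝ} {T : TI k N Q A C} {B : Tb T C'} (K : Cl B C'')
    (hD : 0 ≤ D) {f : E N → ℝ} (h : ∀ c, -D ≤ f c) :
    -(4 * C'' * D) ≤ ∑ c ∈ K.cs, (K.θ c)⁻¹ * f c := by
  have h1 : ∑ c ∈ K.cs, -(4 * D) ≤ ∑ c ∈ K.cs, (K.θ c)⁻¹ * f c := by
    refine Finset.sum_le_sum fun c hc => ?_
    have a1 := (K.θ_bd c hc).1
    have a2 : 0 < (K.θ c)⁻¹ := inv_pos.2 (by linarith)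
    have a3 : (K.θ c)⁻¹ ≤ 4 := by
      rw [inv_le_comm₀ (by linarith) (by norm_num)]
      linarith
    nlinarith only [a2, hD, a3, mul_le_mul_of_nonneg_left (h c) a2.le]
  rw [Finset.sum_const, nsmul_eq_mul] at h1
  nlinarith only [h1, hD, K.card]

/-- `exists_Tb`, `exists_Cl`. Take `o = (1 - chi) ch²`, `φ = phi / 2`, `Sh = B.Sh`, and write
`ch² = o + chi cw + chi (ch² - cw)`; the last weight is at most `4 C rb` in absolute value, so its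
defect is at most `4 C rb eps M` by `g3`. In `tube_id` split `phi = phi Fu + phi (1 - Fu)`, use
`neck_part`, `convert`, `sheet_part`, and
`∫ phi Fu Nw ≤ ∫ chc² (chi - chi1) Nw + C' (ra / rb) ∫ Nw over ball 0 1` (`weights`, `nw`). -/
theorem tube (k : ℕ) (hk : 1 ≤ k) (N Q : ℕ) (A C : ℝ) : ∃ C₁ Λ₀ : ℝ, 1 ≤ C₁ ∧
    ∀ T : TI k N Q A C, Λ₀ ≤ T.Λ → ∃ (o φ : E (k + 2) → ℝ) (Sh : Set (E (k + 2))),
      (∀ x, 0 ≤ o x ∧ o x ≤ T.ch x ^ 2) ∧ Lip T.L o ∧ T.DD o ≤ T.eps * T.M ∧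
      (∀ x, |φ x| ≤ 1) ∧ Lip T.L φ ∧ (∀ x, x ∉ Sh → φ x = 0) ∧ IsOpen Sh ∧
      Sh ⊆ ball 0 (1 / 2) ∧ (∀ ξ ∈ thickening T.rp Sh, √T.L * T.Xi ξ T.rp ≤ T.Xi ξ 8) ∧
      T.Y o - C₁ * (T.er + |T.Y φ| + T.Λ ^ 7 * T.RS T.g T.ak Sh) ≤ T.Y fun x => T.ch x ^ 2 := by
  obtain ⟨C', L0, hB⟩ := exists_Tb k hk Q A C
  obtain ⟨C'', L1, c1, hK⟩ := exists_Cl k hk Q A C C'
  obtain ⟨Ct, L2, c2, ht⟩ := Tb.tube_id k Q A C C'
  obtain ⟨Cn, L3, c3, hn⟩ := Tb.neck_part k Q A C C'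
  obtain ⟨Cc, L4, c4, hc⟩ := Cl.convert k hk N Q A C C' C''
  obtain ⟨Cs, L5, c5, hs⟩ := Tb.sheet_part k hk Q A C C'
  obtain ⟨L6, hj⟩ := Tb.jump k Q A C C'
  obtain ⟨Cy, L7, c7, hy⟩ := Tb.shell_Y k Q A C C'
  have p1 : 0 ≤ 4 * C'' * Cs := by positivity
  refine ⟨1 + 4 * |C| + Ct + 2 * Cn + C' ^ 2 + Cc + 4 * C'' * Cs,
    max (max (max L0 L1) (max L2 L3)) (max (max (max L4 L5) (max L6 L7)) (max C C')),
    by nlinarith only [c2, c3, c4, p1, abs_nonneg C, sq_nonneg C'], fun T hΛ => ?_⟩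
  simp only [max_le_iff] at hΛ
  obtain ⟨⟨⟨l0, l1⟩, l2, l3⟩, ⟨⟨l4, l5⟩, l6, l7⟩, hC, h⟩ := hΛ
  obtain ⟨B⟩ := hB T l0
  obtain ⟨K⟩ := hK B l1
  obtain ⟨o1, o2, o3⟩ := B.TubeN_o h hC
  obtain ⟨-, -, -, -, -, -, w0, -, -, -, -, -, w1⟩ := B.weights h
  refine ⟨fun x => (1 - B.chi x) * T.ch x ^ 2, fun x => 1 / 2 * B.phi x, B.Sh, o1, o2, o3,
    fun x => abs_le.2 ⟨by linarith only [(w0 x).2.2.2.1], by linarith [(w0 x).2.2.2.2.1]⟩,
    TubeN_lip_mono (TubeN_lip_smul w1 (by norm_num)) (B.TubeN_const h hC).2.1, fun x hx => ?_,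
    B.measurable_all.2.2.2.2.2.1, fun x hx => mem_ball_zero_iff.2 (by linarith [hx.1]),
    hj B l6, ?_⟩
  · have n2 := T.TubeN_num.2.1
    simp only
    rw [(w0 x).2.2.2.2.2.1 fun h1 =>
      hx (B.shell_sub.1 (self_subset_thickening (by linarith) _ h1)), mul_zero]
  have hRG := K.R_ge
  have hRg := K.R_le
  have hG := T.G_pos
  have her := T.num.2.1
  have hRS : 0 ≤ T.RS T.g T.ak B.Sh :=
    nonneg_of_mul_nonneg_right (le_trans (integral_nonneg fun y => sq_nonneg _) (hy B l7).2.2)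
      (by linarith)
  have h7 : 1 ≤ T.Λ ^ 7 := one_le_pow₀ (by linarith [T.Λ_ge])
  have a1 := B.TubeN_split h hC
  have a2 := ht B l2
  have a3 := hn B l3
  have a4 := hc K l4
  have a5 := TubeN_sum K (D := Cs * T.er) (by positivity)
    fun c => hs B K.R c l5 hRG (by linarith only [hRG, hRg, hG])
  have a6 := B.TubeN_int h
  have e1 : T.Y (fun x => 1 / 2 * B.phi x) = 1 / 2 * T.Y B.phi := (T.lin_smul _ _).2.2
  rw [e1, abs_mul, abs_of_pos (by norm_num : (0 : ℝ) < 1 / 2), abs_of_nonneg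
    (by linarith only [T.C_ge] : 0 ≤ C)]
  generalize T.RS T.g T.ak B.Sh = r at *
  have a7 := neg_abs_le (T.Y B.phi)
  have a8 := abs_nonneg (T.Y B.phi)
  generalize |T.Y B.phi| = a at *
  have a9 : r ≤ T.Λ ^ 7 * r := le_mul_of_one_le_left hRS h7
  generalize T.Λ ^ 7 * r = r' at *
  have hC1 := T.C_ge
  have b1 : Cn * r ≤ Cn * r' := mul_le_mul_of_nonneg_left a9 (by linarith only [c3])
  have b2 : 0 ≤ r' := hRS.trans a9
  have b3 : 0 ≤ (4 * C + Ct + C' ^ 2 + Cc + 4 * C'' * Cs) * a := by positivity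
  have b4 : 0 ≤ (1 + 4 * C + Ct + Cn + C' ^ 2 + 4 * C'' * Cs) * r' := by positivity
  have b5 : 0 ≤ (1 + Cn) * T.er := by positivity
  linarith only [a1, a2, a5, a6, a3, a7, a4, b1, b3, b4, b5]

end Pool.Agent.MP_f6c0e6_an.Gen

end

section

/-! The tube theorem in the original coordinates. -/

set_option autoImplicit false

open MeasureTheory Filter Topology Set Metric
open scoped ENNReal RealInnerProductSpace

namespace Pool.Agent.MP_f6c0e6_an.Gen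

variable {m N : ℕ}

/-- the output of the tube theorem for the ball of index `j` of the lattice of the scale `l` -/
structure GB {k N Q : ℕ} {A : ℝ} (F : Flat (k + 2) N Q A) (L C l : ℝ) (j : Fin (k + 2) → ℤ)
    (o φ : E (k + 2) → ℝ) (Sh : Set (E (k + 2))) : Prop where
  o_bd : ∀ x, 0 ≤ o x ∧ o x ≤ lp (l / 4) j x ^ 2
  o_lip : Lip (L / l) o
  o_en : F.DD o ≤ Lam k L ^ 6 / L * F.DS (ball (lc (l / 4) j) (3 * l))
  φ_bd : ∀ x, |φ x| ≤ 1
  φ_lip : Lip (L / l) φ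
  φ_zero : ∀ x, x ∉ Sh → φ x = 0
  isOpen : IsOpen Sh
  sub : Sh ⊆ ball (lc (l / 4) j) (l / 2)
  jump : ∀ ξ ∈ thickening (32 * l / 2 ^ pL k L) Sh,
    √L * F.Xi ξ (32 * l / 2 ^ pL k L) ≤ F.Xi ξ (8 * l)
  main : F.Y o - C * (F.DS (ball (lc (l / 4) j) (3 * l)) / (L * Lam k L) + |F.Y φ| +
    Lam k L ^ 7 * F.RS (F.τ / Lam k L ^ 10) F.τ Sh) ≤ F.Y fun x => lp (l / 4) j x ^ 2

theorem KLc_ind {Q : ℕ} {A : ℝ} (F : Flat m N Q A) {Z : Set (E m)} (hZ : MeasurableSet Z)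
    (f : E m → ℝ) : F.DD (Z.indicator f) = ∫ y in F.x ⁻¹' Z, f (F.x y) * F.d y ∂F.μ := by
  rw [← integral_indicator (F.measurable_all.1 hZ), Flat.DD]
  refine congrArg _ (funext fun y => ?_)
  by_cases h : F.x y ∈ Z
  · rw [indicator_of_mem h, indicator_of_mem (show y ∈ F.x ⁻¹' Z from h)]
  · rw [indicator_of_notMem h, indicator_of_notMem (show y ∉ F.x ⁻¹' Z from h), zero_mul]

theorem KLc_back (ξ₀ x : E m) {l : ℝ} (hl : 0 < l) : ξ₀ + l • l⁻¹ • (x - ξ₀) = x := by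
  rw [smul_inv_smul₀ hl.ne', add_sub_cancel]

theorem KLc_norm (ξ₀ x : E m) {l : ℝ} (hl : 0 < l) : l * ‖l⁻¹ • (x - ξ₀)‖ = ‖x - ξ₀‖ := by
  rw [norm_smul, norm_inv, Real.norm_of_nonneg hl.le, mul_inv_cancel_left₀ hl.ne']

theorem KLc_DS {Q : ℕ} {A : ℝ} {F F' : Flat m N Q A} {ξ₀ : E m} {l : ℝ} (h : Blow F F' ξ₀ l)
    (hl : 0 < l) {r : ℝ} (hr : r ≤ 10) :
    F'.DS (ball 0 r) = (l ^ m)⁻¹ * F.DS (ball ξ₀ (r * l)) := by
  rw [h.DS _ measurableSet_ball (ball_subset_ball hr), upS_ball ξ₀ hl, smul_zero, add_zero,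
    mul_comm l r]

theorem KLc_aL {τ L l : ℝ} (hτ : 0 < τ) (hL : L = Real.log τ⁻¹) (h : 216 ≤ L) (hl : 0 < l)
    (h4 : τ ≤ l ^ 4) : τ / l ≤ (L ^ 2)⁻¹ := by
  have hL0 : 0 < L := by linarith
  have e : Real.exp L = τ⁻¹ := by rw [hL, Real.exp_log (inv_pos.2 hτ)]
  have h1 : L ^ 3 / 6 ≤ τ⁻¹ := by
    have := Real.pow_div_factorial_le_exp L hL0.le 3
    rw [e] at this
    simpa [Nat.factorial] using this
  have h2 : τ * L ^ 3 ≤ 6 := by
    have := mul_le_mul_of_nonneg_left h1 hτ.le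
    rw [mul_inv_cancel₀ hτ.ne'] at this
    linarith only [this]
  have h3 : (τ * L ^ 3) ^ 3 ≤ 6 ^ 3 := by gcongr
  have h5 : τ ^ 3 * L ^ 8 ≤ 1 := by
    refine le_of_mul_le_mul_right ?_ hL0
    calc τ ^ 3 * L ^ 8 * L = (τ * L ^ 3) ^ 3 := by ring
      _ ≤ 6 ^ 3 := h3
      _ ≤ 1 * L := by linarith
  rw [← one_div, div_le_div_iff₀ hl (by positivity), one_mul]
  refine le_of_pow_le_pow_left₀ (n := 4) (by norm_num) hl.le ?_
  calc (τ * L ^ 2) ^ 4 = τ * (τ ^ 3 * L ^ 8) := by ring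
    _ ≤ τ * 1 := by gcongr
    _ ≤ l ^ 4 := by linarith

theorem KLc_ch {h K l : ℝ} (hl : 0 < l) (hh : h = l / 4) (j : Fin m → ℤ) (hK : 0 ≤ K)
    (H : Lip (K / h) (lp h j)) :
    Test 1 (fun v => lp h j (lc h j + l • v)) (ball 0 (1 / 4)) ∧
      (∀ v, 1 / 8 < ‖v‖ → lp h j (lc h j + l • v) = 0) ∧
      ∀ x, ‖fderiv ℝ (fun v => lp h j (lc h j + l • v)) x‖ ≤ 4 * K := by
  have h0 : ∀ v, 1 / 8 < ‖v‖ → lp h j (lc h j + l • v) = 0 := fun v hv => by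
    refine lp_eq_zero (by rw [hh]; positivity) j ?_
    rw [add_sub_cancel_left, norm_smul, Real.norm_of_nonneg hl.le, hh]
    nlinarith only [hl, hv]
  have h1 : tsupport (fun v => lp h j (lc h j + l • v)) ⊆ closedBall 0 (1 / 8) :=
    closure_minimal (fun v hv => mem_closedBall_zero_iff.2 (not_lt.1 fun h => hv (h0 v h)))
      isClosed_closedBall
  refine ⟨⟨(contDiff_lp h j 1).comp (contDiff_const.add (contDiff_id.const_smul l)),
    (isCompact_closedBall 0 (1 / 8)).of_isClosed_subset (isClosed_tsupport _) h1,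
    h1.trans (closedBall_subset_ball (by norm_num))⟩, h0, fun x => ?_⟩
  refine norm_fderiv_le_of_lip' ℝ (by positivity) (Eventually.of_forall fun v => ?_)
  refine (H _ _).trans_eq ?_
  rw [add_sub_add_left_eq_sub, ← smul_sub, norm_smul, Real.norm_of_nonneg hl.le, hh]
  field_simp

/-- transport of the output of the tube theorem -/
theorem KLc_out {k N Q : ℕ} {A C C₁ C₂ : ℝ} (F : Flat (k + 2) N Q A) (T : TI k N Q A C₂) {l : ℝ}
    (hl : 0 < l) (j : Fin (k + 2) → ℤ) (hb : Blow F T.toFlat (lc (l / 4) j) l) (h1 : 1 ≤ C₁)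
    (hC : C₁ ≤ C) (hΛ : T.Λ = Lam k T.L) (hp : (2 : ℝ) ^ pL k T.L = 32 * T.Λ ^ (20 * k + 60))
    (hg : l * T.g = F.τ / T.Λ ^ 10) (ha : l * T.ak = F.τ)
    (hch : ∀ v, T.ch v = lp (l / 4) j (lc (l / 4) j + l • v))
    (hch0 : ∀ v, 1 / 8 < ‖v‖ → T.ch v = 0) {o φ : E (k + 2) → ℝ} {Sh : Set (E (k + 2))}
    (H : (∀ x, 0 ≤ o x ∧ o x ≤ T.ch x ^ 2) ∧ Lip T.L o ∧ T.DD o ≤ T.eps * T.M ∧
      (∀ x, |φ x| ≤ 1) ∧ Lip T.L φ ∧ (∀ x, x ∉ Sh → φ x = 0) ∧ IsOpen Sh ∧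
      Sh ⊆ ball 0 (1 / 2) ∧ (∀ ξ ∈ thickening T.rp Sh, √T.L * T.Xi ξ T.rp ≤ T.Xi ξ 8) ∧
      T.Y o - C₁ * (T.er + |T.Y φ| + T.Λ ^ 7 * T.RS T.g T.ak Sh) ≤ T.Y fun x => T.ch x ^ 2) :
    GB F T.L C l j (up (lc (l / 4) j) l o) (up (lc (l / 4) j) l φ) (upS (lc (l / 4) j) l Sh) := by
  obtain ⟨o1, o2, o3, p1, p2, p3, s1, s2, s3, s4⟩ := H
  have hΛ0 : 0 < T.Λ := by linarith only [T.Λ_ge]
  have hL0 : 0 < T.L := by linarith [T.num.2.2.2.2.2.2.2.2.2.2.2.1]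
  have hm : 0 < (l ^ (k + 2))⁻¹ := by positivity
  have hM : T.M = (l ^ (k + 2))⁻¹ * F.DS (ball (lc (l / 4) j) (3 * l)) := by
    rw [T.M_eq, KLc_DS hb hl (by norm_num)]
  have hup : ∀ x, T.ch (l⁻¹ • (x - lc (l / 4) j)) = lp (l / 4) j x := fun x => by
    rw [hch, KLc_back _ _ hl]
  have o0 : ∀ x, 10 ≤ ‖x‖ → o x = 0 := fun x hx => le_antisymm (by
    have := (o1 x).2
    rwa [hch0 x (by linarith only [hx]), zero_pow two_ne_zero] at this) (o1 x).1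
  have p0 : ∀ x, 10 ≤ ‖x‖ → φ x = 0 := fun x hx => p3 x fun h => by
    have := mem_ball_zero_iff.1 (s2 h)
    linarith only [hx, this]
  have c0 : ∀ x, 10 ≤ ‖x‖ → T.ch x ^ 2 = 0 := fun x hx => by
    rw [hch0 x (by linarith only [hx]), zero_pow two_ne_zero]
  have hτ := F.τ_pos
  have g0 : 0 < T.g := (mul_pos_iff_of_pos_left hl).1 (by rw [hg]; positivity)
  have a0 : 0 < T.ak := (mul_pos_iff_of_pos_left hl).1 (by rw [ha]; exact hτ)
  refine ⟨fun x => ⟨(o1 _).1, hup x ▸ (o1 _).2⟩, up_lip o2 _ hl, ?_, fun x => p1 _,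
    up_lip p2 _ hl, fun x hx => p3 _ hx, s1.preimage (by fun_prop), fun x hx => ?_,
    fun ξ hξ => ?_, ?_⟩
  · rw [(hb.lin o o0).1, hM, TI.eps, hΛ, mul_left_comm] at o3
    exact le_of_mul_le_mul_left o3 hm
  · have := mem_ball_zero_iff.1 (s2 hx)
    rw [mem_ball_iff_norm, ← KLc_norm _ x hl]
    nlinarith only [hl, this]
  · have e : 32 * l / 2 ^ pL k T.L = l * T.rp := by
      rw [hp, TI.rp]
      field_simp
    have r0 : 0 < T.rp := T.num.2.2.2.2.2.1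
    have r1 : T.rp ≤ 1 := inv_le_one_of_one_le₀ (one_le_pow₀ (by linarith [T.Λ_ge]))
    rw [e] at hξ ⊢
    obtain ⟨z, hz, hd⟩ := mem_thickening_iff.1 hξ
    have hd' : ‖l⁻¹ • (ξ - lc (l / 4) j) - l⁻¹ • (z - lc (l / 4) j)‖ < T.rp := by
      rw [← smul_sub, sub_sub_sub_cancel_right]
      refine lt_of_mul_lt_mul_left ?_ hl.le
      rwa [KLc_norm _ _ hl, ← dist_eq_norm]
    have hz0 : l⁻¹ • (z - lc (l / 4) j) ∈ Sh := hz
    have hz' := mem_ball_zero_iff.1 (s2 hz0)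
    have hn := norm_sub_norm_le (l⁻¹ • (ξ - lc (l / 4) j)) (l⁻¹ • (z - lc (l / 4) j))
    have := s3 (l⁻¹ • (ξ - lc (l / 4) j))
      (mem_thickening_iff.2 ⟨_, hz0, (dist_eq_norm _ _).trans_lt hd'⟩)
    rw [(hb.ratio _ _ r0 (by linarith only [r1, hd', hz', hn])).2.2, (hb.ratio _ 8 (by norm_num) (by linarith)).2.2,
      KLc_back _ _ hl, mul_left_comm, mul_comm l 8] at this
    exact le_of_mul_le_mul_left this (by positivity)
  · have r1 := hb.RS T.g T.ak Sh g0 a0 s1.measurableSet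
    have r0 := (F.RS_mono (g := F.τ / T.Λ ^ 10) (by positivity) hτ
      (measurableSet_upS (lc (l / 4) j) l s1.measurableSet) MeasurableSet.univ (subset_univ _)).1
    have d0 := (F.DS_mono (subset_refl (ball (lc (l / 4) j) (3 * l)))).1
    have e : up (lc (l / 4) j) l (fun x => T.ch x ^ 2) = fun x => lp (l / 4) j x ^ 2 :=
      funext fun x => congrArg (· ^ 2) (hup x)
    rw [hg, ha] at r1
    rw [(hb.lin o o0).2, (hb.lin φ p0).2, (hb.lin _ c0).2, e, TI.er, hM, abs_mul,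
      abs_of_pos hm] at s4
    rw [← hΛ]
    refine le_of_mul_le_mul_left (le_trans ?_ s4) hm
    have r2 := mul_le_mul_of_nonneg_left r1 (show 0 ≤ T.Λ ^ 7 by positivity)
    generalize F.RS (F.τ / T.Λ ^ 10) F.τ (upS (lc (l / 4) j) l Sh) = R at *
    generalize F.DS (ball (lc (l / 4) j) (3 * l)) = D at *
    generalize (l ^ (k + 2))⁻¹ = a at *
    generalize hY : |F.Y (up (lc (l / 4) j) l φ)| = Y
    have y0 : 0 ≤ Y := hY ▸ abs_nonneg _
    have x0 : 0 ≤ a * (D / (T.L * T.Λ) + Y + T.Λ ^ 7 * R) := by positivity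
    have x1 : a * D / (T.L * T.Λ) + a * Y + T.Λ ^ 7 * T.RS T.g T.ak Sh ≤
        a * (D / (T.L * T.Λ) + Y + T.Λ ^ 7 * R) := by
      have : a * (D / (T.L * T.Λ) + Y + T.Λ ^ 7 * R) =
          a * D / (T.L * T.Λ) + a * Y + T.Λ ^ 7 * (a * R) := by ring
      linarith only [r2, this]
    have x2 := mul_le_mul hC x1
    have x3 := mul_le_mul_of_nonneg_left x1 (show 0 ≤ C₁ by linarith)
    have x4 := mul_le_mul_of_nonneg_right hC x0
    rw [mul_sub, mul_left_comm a C]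
    linarith only [x3, x4]

theorem KLc_num {Λ τ : ℝ} (h : 2 ≤ Λ) (hτ : 0 < τ) : 0 < τ / Λ ^ 10 / √Λ ∧
    τ / Λ ^ 10 / √Λ * √Λ ≤ τ / Λ ^ 10 ∧ τ / Λ ^ 10 * Λ ^ 8 ≤ τ ∧
    τ ≤ Λ ^ 20 * (τ / Λ ^ 10 / √Λ) ∧ Λ ^ 30 * (τ / Λ ^ 10 / √Λ) ^ 2 = Λ ^ 9 * τ ^ 2 := by
  have hΛ0 : 0 < Λ := by linarith
  have h1 : 1 ≤ Λ := by linarith
  have hs0 : 0 < √Λ := Real.sqrt_pos.2 hΛ0
  refine ⟨by positivity, (div_mul_cancel₀ _ hs0.ne').le, ?_, ?_, ?_⟩
  · have e : τ / Λ ^ 10 * Λ ^ 8 = τ / Λ ^ 2 := by field_simp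
    rw [e]
    exact div_le_self hτ.le (one_le_pow₀ h1)
  · have e : Λ ^ 20 * (τ / Λ ^ 10 / √Λ) = τ * (Λ ^ 10 / √Λ) := by field_simp
    rw [e]
    refine le_mul_of_one_le_right hτ.le ((one_le_div hs0).2 ?_)
    refine (Real.sqrt_le_left (by positivity)).2 ?_
    rw [← pow_mul]
    exact le_self_pow₀ h1 (by norm_num)
  · rw [div_pow, Real.sq_sqrt hΛ0.le]
    field_simp

theorem KLc_l {Cb τ l : ℝ} (b1 : 1 ≤ Cb) (hl : 0 < l) (h4 : τ ≤ l ^ 4)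
    (h8 : l ^ 8 ≤ (1 / (10 * Cb)) ^ 8) : l ≤ 1 / 10 ∧ Cb * τ ≤ l := by
  have hl1 : l ≤ 1 / (10 * Cb) := le_of_pow_le_pow_left₀ (by norm_num) (by positivity) h8
  rw [le_div_iff₀ (by positivity)] at hl1
  have hl2 : l ≤ 1 / 10 := by nlinarith only [hl1, b1, hl]
  refine ⟨hl2, ?_⟩
  have e1 : l ^ 2 ≤ 1 := pow_le_one₀ hl.le (by linarith)
  calc Cb * τ ≤ Cb * l ^ 4 := by gcongr
    _ = l * Cb * l ^ 2 * l := by ring
    _ ≤ 1 * 1 * l := by gcongr; nlinarith only [hl, hl1, hl2]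
    _ = l := by ring

theorem KLc_int {Q : ℕ} {A : ℝ} {F F' : Flat m N Q A} {ξ₀ : E m} {l : ℝ} (hb : Blow F F' ξ₀ l)
    (hl : 0 < l) {t : ℝ} (ht : 0 < t) (p : ℕ) :
    ∫ y in F'.x ⁻¹' ball 0 1, F'.bb (t / l ^ 2) 1 p (F'.x y) * F'.d y ∂F'.μ =
      (l ^ m)⁻¹ * ∫ y in F.x ⁻¹' ball ξ₀ l, F.bb t l p (F.x y) * F.d y ∂F.μ := by
  have e : up ξ₀ l ((ball 0 1).indicator (F'.bb (t / l ^ 2) 1 p)) =
      (ball ξ₀ l).indicator (F.bb t l p) := by
    funext x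
    have hn := KLc_norm ξ₀ x hl
    by_cases hx : x ∈ ball ξ₀ l
    · have h1 : ‖l⁻¹ • (x - ξ₀)‖ < 1 := by
        have := mem_ball_iff_norm.1 hx
        nlinarith only [hn, this, hl]
      rw [up, indicator_of_mem hx, indicator_of_mem (mem_ball_zero_iff.2 h1),
        hb.bb hl ht _ _ h1.le, KLc_back _ _ hl]
    · rw [up, indicator_of_notMem hx, indicator_of_notMem]
      intro h
      have := mem_ball_zero_iff.1 h
      exact hx (mem_ball_iff_norm.2 (by nlinarith only [hn, hl, this]))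
  rw [← KLc_ind F' measurableSet_ball, (hb.lin _ fun x hx => indicator_of_notMem
    (fun h => by linarith [mem_ball_zero_iff.1 h]) _).1, e, KLc_ind F measurableSet_ball]

theorem KLc_g3 {Q : ℕ} {A : ℝ} {F F' : Flat m N Q A} {ξ₀ : E m} {l : ℝ} (hb : Blow F F' ξ₀ l)
    (hl : 0 < l) {L X : ℝ} (H : ∀ ω : E m → ℝ, Lip (L / l) ω → (∀ x, |ω x| ≤ 1) →
      (∀ x, x ∉ ball ξ₀ (2 * l) → ω x = 0) → |F.Y ω| ≤ X) (ω : E m → ℝ) (w1 : Lip L ω)
    (w2 : ∀ x, |ω x| ≤ 1) (w3 : ∀ x, 2 ≤ ‖x‖ → ω x = 0) : |F'.Y ω| ≤ (l ^ m)⁻¹ * X := by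
  have hm : 0 < (l ^ m)⁻¹ := by positivity
  rw [(hb.lin ω fun x hx => w3 x (by linarith)).2, abs_mul, abs_of_pos hm]
  refine mul_le_mul_of_nonneg_left (H _ (up_lip w1 _ hl) (fun x => w2 _) fun x hx => ?_) hm.le
  have hn := KLc_norm ξ₀ x hl
  have := not_lt.1 fun h => hx (mem_ball_iff_norm.2 h)
  exact w3 _ (by nlinarith)

theorem KLc_good {k : ℕ} {a b c M x ρ C C' : ℝ} (hc : C ≤ C') (a0 : 0 ≤ a) (x0 : 0 ≤ x)
    (M0 : 0 ≤ M) (r0 : 0 ≤ ρ) (h : b ≤ C * a ∧ a ≤ C * M * ρ ^ k ∧ c ≤ C * x * M * ρ ^ (k + 2)) :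
    b ≤ C' * a ∧ a ≤ C' * M * ρ ^ k ∧ c ≤ C' * x * M * ρ ^ (k + 2) :=
  ⟨h.1.trans (by gcongr), h.2.1.trans (by gcongr), h.2.2.trans (by gcongr)⟩

theorem KLc_t {k : ℕ} {Cg C t l D : ℝ} (hC : Cg ≤ C) (ht : 0 < t) (hl : 0 < l)
    (h : C * t * l ^ k ≤ D) : Cg * (t / l ^ 2) ≤ (l ^ (k + 2))⁻¹ * D := by
  rw [← div_eq_inv_mul, le_div_iff₀ (by positivity)]
  refine le_trans ?_ h
  have : Cg * (t / l ^ 2) * l ^ (k + 2) = Cg * t * l ^ k := by field_simp; ring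
  rw [this]
  gcongr

theorem KLc_MG {k : ℕ} {L a τ l D : ℝ} (hl : 0 < l) (h : L * D ≤ a * τ ^ 2 * l ^ k) :
    L * ((l ^ (k + 2))⁻¹ * D) ≤ a * (τ / l) ^ 2 := by
  have e : a * (τ / l) ^ 2 = (l ^ (k + 2))⁻¹ * (a * τ ^ 2 * l ^ k) := by field_simp; ring
  rw [e, mul_left_comm]
  exact mul_le_mul_of_nonneg_left h (by positivity)

theorem KLc_p {a b ρ : ℝ} (ha : 0 < a) (h : b = 32 * a) (h1 : a⁻¹ / 16 ≤ ρ) :
    2 / b ≤ ρ ∧ 0 ≤ ρ := by
  refine ⟨le_trans (le_of_eq ?_) h1, le_trans (by positivity) h1⟩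
  rw [h]
  field_simp
  norm_num

/-- Let `F'` be the blow-up at `ξ₀ = lc (l / 4) j` of scale `l` (`exists_blow`), `τ' = τ / l`. The
hypotheses of `tube` hold with `Λ = Lam k L`, `g = τ' / Λ ^ 10`, `G = g / √Λ`, `ak = τ'`,
`bb = F'.bb (t / l²) 1 (pL k L)` (`good_of_bb`, `Blow.bb`, `Lam_bd`) and
`ch v = lp (l / 4) j (ξ₀ + l • v)` (`test_lp`, `lp_bd`). Transport the output with `up`, `upS`. -/
theorem good_ball (k : ℕ) (hk : 1 ≤ k) (N Q : ℕ) (A : ℝ) : ∃ C τ₀ : ℝ, 1 ≤ C ∧ 0 < τ₀ ∧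
    ∀ (F : Flat (k + 2) N Q A) (L l t : ℝ) (j : Fin (k + 2) → ℤ), F.τ ≤ τ₀ →
    L = Real.log F.τ⁻¹ → 0 < l → F.τ ≤ l ^ 4 → l ^ 8 ≤ F.τ → ‖lc (l / 4) j‖ ≤ 2 → 0 < t →
    C * t * l ^ k ≤ F.DS (ball (lc (l / 4) j) (3 * l)) →
    Lam k L ^ 7 / L * F.DS (ball (lc (l / 4) j) (3 * l)) ≤ F.DS (ball (lc (l / 4) j) (l / 2)) →
    ∫ y in F.x ⁻¹' ball (lc (l / 4) j) l, F.bb t l (pL k L) (F.x y) * F.d y ∂F.μ ≤
      Lam k L ^ 6 / L * F.DS (ball (lc (l / 4) j) (3 * l)) →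
    (∀ ω : E (k + 2) → ℝ, Lip (L / l) ω → (∀ x, |ω x| ≤ 1) →
      (∀ x, x ∉ ball (lc (l / 4) j) (2 * l) → ω x = 0) →
      |F.Y ω| ≤ Lam k L ^ 6 / L * F.DS (ball (lc (l / 4) j) (3 * l))) →
    L * F.DS (ball (lc (l / 4) j) (3 * l)) ≤ Lam k L ^ 9 * F.τ ^ 2 * l ^ k →
    ∃ o φ Sh, GB F L C l j o φ Sh := by
  obtain ⟨Cb, b1, Hb⟩ := exists_blow (k + 2) (by omega) Q A
  obtain ⟨Cg, g1, Hg⟩ := Flat.good_of_bb k
  obtain ⟨Cl, l1, Hl⟩ := lp_bd (k + 2)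
  obtain ⟨C₁, Λ₀, c1, Ht⟩ := tube k hk N Q A (Cg + 4 * Cl)
  obtain ⟨L₀, -, HL⟩ := Lam_bd k (max Λ₀ 1)
  refine ⟨C₁ + Cg, min ((1 / (10 * Cb)) ^ 8) (Real.exp (-max L₀ 216)), by linarith,
    by positivity, fun F L l t j hτ hL hl h4 h8 hj ht H1 H2 H3 H4 H5 => ?_⟩
  have hτ0 := F.τ_pos
  have hLL : max L₀ 216 ≤ L := by
    rw [hL, Real.le_log_iff_exp_le (inv_pos.2 hτ0), le_inv_comm₀ (Real.exp_pos _) hτ0,
      ← Real.exp_neg]
    exact hτ.trans (min_le_right _ _)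
  obtain ⟨a1, a2, a3, -, a5, a6, -, -, -, -, a7⟩ := HL L ((le_max_left _ _).trans hLL)
  have hL1 : 216 ≤ L := (le_max_right _ _).trans hLL
  obtain ⟨hl2, hl3⟩ := KLc_l b1 hl h4 (h8.trans (hτ.trans (min_le_left _ _)))
  obtain ⟨F', hb⟩ := Hb F (lc (l / 4) j) l (by linarith only [hj]) hl3 hl2
  obtain ⟨t1, t2, t3⟩ := KLc_ch hl rfl j (by linarith only [l1])
    (Hl (l / 4) (by positivity) j).2.2.1
  have hlog : Real.log L ≤ Lam k L :=
    ((le_self_pow₀ a5 two_ne_zero).trans (le_mul_of_one_le_left (sq_nonneg _)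
      (le_max_right Λ₀ 1))).trans a6
  have hc : Cg ≤ Cg + 4 * Cl := by linarith only [l1]
  have hC0 : 0 < C₁ + Cg := by linarith only [c1, g1]
  have hΛ0 : 0 < Lam k L := by linarith only [a2]
  have hm : 0 < (l ^ (k + 2))⁻¹ := by positivity
  have hM := KLc_DS hb hl (r := 3) (by norm_num)
  have hD : 0 < F.DS (ball (lc (l / 4) j) (3 * l)) := lt_of_lt_of_le (by positivity) H1
  have hM0 : 0 < F'.DS (ball 0 3) := hM ▸ mul_pos hm hD
  have ht' : 0 < t / l ^ 2 := by positivity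
  have hB := F'.bb_bd ht' one_pos (pL k L)
  have hCt : Cg * (t / l ^ 2) ≤ F'.DS (ball 0 3) :=
    hM ▸ KLc_t (by linarith only [c1]) ht hl H1
  obtain ⟨n1, n2, n3, n4, n5⟩ := KLc_num a2 F'.τ_pos
  have hMG : L * F'.DS (ball 0 3) ≤ Lam k L ^ 30 * (F'.τ / Lam k L ^ 10 / √(Lam k L)) ^ 2 := by
    rw [n5, hM, hb.τ_eq]
    exact KLc_MG hl H5
  have haL : F'.τ ≤ (L ^ 2)⁻¹ := hb.τ_eq.trans_le (KLc_aL hτ0 hL hL1 hl h4)
  have hint : ∫ y in F'.x ⁻¹' ball 0 1, F'.bb (t / l ^ 2) 1 (pL k L) (F'.x y) * F'.d y ∂F'.μ ≤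
      Lam k L ^ 6 / L * F'.DS (ball 0 3) := by
    rw [KLc_int hb hl ht, hM, mul_left_comm]
    exact mul_le_mul_of_nonneg_left H3 hm.le
  have hbig : Lam k L ^ 7 / L * F'.DS (ball 0 3) ≤ F'.DS (ball 0 (1 / 2)) := by
    rw [hM, KLc_DS hb hl (by norm_num), mul_left_comm, one_div_mul_eq_div]
    exact mul_le_mul_of_nonneg_left H2 hm.le
  have hg3 : ∀ ω : E (k + 2) → ℝ, Lip L ω → (∀ x, |ω x| ≤ 1) → (∀ x, 2 ≤ ‖x‖ → ω x = 0) →
      |F'.Y ω| ≤ Lam k L ^ 6 / L * F'.DS (ball 0 3) := fun ω w1 w2 w3 => by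
    rw [hM, mul_left_comm]
    exact KLc_g3 hb hl H4 ω w1 w2 w3
  let T : TI k N Q A (Cg + 4 * Cl) :=
    { toFlat := F'
      Λ := Lam k L
      L := L
      M := F'.DS (ball 0 3)
      G := F'.τ / Lam k L ^ 10 / √(Lam k L)
      g := F'.τ / Lam k L ^ 10
      ak := F'.τ
      bb := F'.bb (t / l ^ 2) 1 (pL k L)
      ch := fun v => lp (l / 4) j (lc (l / 4) j + l • v)
      C_ge := g1.trans hc
      Λ_ge := a2
      L_ge := a3
      log_le := hlog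
      M_eq := rfl
      M_pos := hM0
      G_pos := n1
      MG := hMG
      Gg := n2
      ga := n3
      τG := n4
      τa := le_rfl
      aL := haL
      mb := hB.1.measurable
      b_bd := fun x => ⟨(hB.2 x).1, (hB.2 x).2.1⟩
      b_int := hint
      good := fun ξ hξ h ρ h1 h2 => KLc_good hc (F'.DS_mono (subset_refl (ball ξ ρ))).1
        (hB.2 ξ).1 hM0.le (KLc_p (pow_pos hΛ0 _) a7 h1).2 (Hg F' _ (pL k L) ξ ht' hCt
          (mem_ball_zero_iff.1 hξ) h ρ (KLc_p (pow_pos hΛ0 _) a7 h1).1 h2)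
      big := hbig
      g3 := hg3
      ch_test := t1
      ch_bd := fun x => ⟨(lp_nonneg _ _ _).1, (lp_nonneg _ _ _).2,
        (t3 x).trans (by linarith only [g1])⟩ }
  obtain ⟨o, φ, Sh, H⟩ := Ht T ((le_max_left _ _).trans a1)
  have e2 : l * F'.τ = F.τ := by rw [hb.τ_eq, mul_div_cancel₀ _ hl.ne']
  have e1 : l * (F'.τ / Lam k L ^ 10) = F.τ / Lam k L ^ 10 := by rw [← mul_div_assoc, e2]
  exact ⟨_, _, _, KLc_out F T hl j hb c1 (by linarith only [g1]) rfl a7 e1 e2 (fun _ => rfl) t2 H⟩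

end Pool.Agent.MP_f6c0e6_an.Gen

end

section

/-! The estimate for one block of scales. -/

set_option autoImplicit false

open MeasureTheory Filter Topology Set Metric
open scoped ENNReal RealInnerProductSpace

namespace Pool.Agent.MP_f6c0e6_an.Gen

variable {m N : ℕ}

theorem KLe_num (K : ℝ) : ∃ L₀ : ℝ, ∀ L τ l : ℝ, L₀ ≤ L → 0 < τ → L = Real.log τ⁻¹ → 0 < l →
    τ ≤ l ^ 4 → l ^ 8 ≤ τ → K ≤ L ∧ K * (L / l) ≤ τ ^ (-(1 / 3) : ℝ) ∧ 2 * L * l ≤ 1 / L ^ 2 ∧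
    l ≤ 1 / 256 ∧ K * τ ≤ l := by
  refine ⟨288 * |K| + 196608, fun L τ l hL hτ hLτ hl h4 h8 => ?_⟩
  have hK := le_abs_self K
  have hK0 := abs_nonneg K
  have hL0 : 0 < L := by linarith only [hL, hK0]
  have e : τ = Real.exp (-L) := by rw [hLτ, Real.log_inv, neg_neg, Real.exp_log hτ]
  have a1 : Real.exp (-L / 4) ≤ l := by
    refine le_of_pow_le_pow_left₀ (n := 4) (by norm_num) hl.le ?_
    rw [← Real.exp_nat_mul, show ((4 : ℕ) : ℝ) * (-L / 4) = -L by push_cast; ring, ← e]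
    exact h4
  have a2 : l ≤ Real.exp (-L / 8) := by
    refine le_of_pow_le_pow_left₀ (n := 8) (by norm_num) (Real.exp_pos _).le ?_
    rw [← Real.exp_nat_mul, show ((8 : ℕ) : ℝ) * (-L / 8) = -L by push_cast; ring, ← e]
    exact h8
  have b1 : |K| * L ≤ Real.exp (L / 12) := by
    have := Real.pow_div_factorial_le_exp (L / 12) (by positivity) 2
    norm_num [Nat.factorial] at this
    nlinarith only [hL, hK0, this]
  have b2 : 2 * L ^ 3 ≤ Real.exp (L / 8) := by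
    have := Real.pow_div_factorial_le_exp (L / 8) (by positivity) 4
    norm_num [Nat.factorial] at this
    have h3 : 0 < L ^ 3 := by positivity
    nlinarith only [this, hL, h3, hK0]
  have c1 : 2 * L ^ 3 * l ≤ 1 := by
    calc 2 * L ^ 3 * l ≤ Real.exp (L / 8) * Real.exp (-L / 8) := by gcongr
      _ = 1 := by rw [← Real.exp_add, show L / 8 + -L / 8 = 0 by ring, Real.exp_zero]
  have hL1 : 1 ≤ L := by linarith
  have c0 : L ≤ L ^ 3 := le_self_pow₀ hL1 (by norm_num)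
  have c2 : 2 * L * l ≤ 1 := by nlinarith only [c1, hl, c0]
  have c3 : l ≤ 1 / 256 := by nlinarith only [hl, c2, hL, hK0]
  refine ⟨by linarith only [hL, hl, hK, hK0, c3], ?_, ?_, c3, ?_⟩
  · have e3 : τ ^ (-(1 / 3) : ℝ) = Real.exp (L / 12) / Real.exp (-L / 4) := by
      rw [e, ← Real.exp_mul, ← Real.exp_sub]; congr 1; ring
    rw [e3, ← mul_div_assoc]
    calc K * L / l ≤ |K| * L / l := by gcongr
      _ ≤ _ := by gcongr
  · rw [le_div_iff₀ (by positivity)]; nlinarith only [c1]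
  · have d1 : l ^ 3 ≤ l := pow_le_of_le_one hl.le (by linarith only [hl, c3]) (by norm_num)
    have d2 : |K| * l ≤ 1 := by nlinarith only [hl, c2, c3, hL]
    calc K * τ ≤ |K| * l ^ 4 := by gcongr
      _ = |K| * l * l ^ 3 := by ring
      _ ≤ 1 * l := by gcongr
      _ = l := one_mul _

theorem KLe_lip {I : Type} (J : Finset I) (u : I → E m → ℝ) (w : I → ℝ) {K B : ℝ} (hK : 0 ≤ K)
    (hw : ∀ j ∈ J, 0 ≤ w j ∧ w j ≤ 2) (hu : ∀ j ∈ J, Lip K (u j))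
    (hB : ∀ x, ((J.filter fun j => u j x ≠ 0).card : ℝ) ≤ B) :
    Lip (4 * B * K) fun x => ∑ j ∈ J, w j * u j x := by
  classical
  intro x x'
  rw [← Finset.sum_sub_distrib]
  set T := J.filter (fun j => u j x ≠ 0) ∪ J.filter fun j => u j x' ≠ 0 with hT
  have hTJ : T ⊆ J := Finset.union_subset (Finset.filter_subset _ _) (Finset.filter_subset _ _)
  rw [← Finset.sum_subset hTJ fun j hj h => by
    simp only [hT, Finset.mem_union, Finset.mem_filter, hj, true_and, not_or, not_not] at h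
    rw [h.1, h.2, sub_self]]
  have h1 : (T.card : ℝ) ≤ 2 * B := by
    have := Finset.card_union_le (J.filter fun j => u j x ≠ 0) (J.filter fun j => u j x' ≠ 0)
    have h2 : (T.card : ℝ) ≤ ((J.filter fun j => u j x ≠ 0).card : ℝ) +
      ((J.filter fun j => u j x' ≠ 0).card : ℝ) := by exact_mod_cast this
    linarith only [h2, hB x, hB x']
  have h0 : 0 ≤ K * ‖x - x'‖ := by positivity
  calc ‖∑ j ∈ T, (w j * u j x - w j * u j x')‖ ≤ ∑ j ∈ T, ‖w j * u j x - w j * u j x'‖ :=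
        norm_sum_le _ _
    _ ≤ ∑ _j ∈ T, 2 * (K * ‖x - x'‖) := Finset.sum_le_sum fun j hj => by
        rw [← mul_sub, norm_mul, Real.norm_of_nonneg (hw j (hTJ hj)).1]
        exact mul_le_mul (hw j (hTJ hj)).2 (hu j (hTJ hj) x x') (norm_nonneg _) (by norm_num)
    _ = T.card * (2 * (K * ‖x - x'‖)) := by rw [Finset.sum_const, nsmul_eq_mul]
    _ ≤ 2 * B * (2 * (K * ‖x - x'‖)) := by gcongr
    _ = _ := by ring

theorem KLe_lipmono {K K' : ℝ} {f : E m → ℝ} (h : Lip K f) (hK : K ≤ K') : Lip K' f :=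
  fun x x' => (h x x').trans (mul_le_mul_of_nonneg_right hK (norm_nonneg _))

theorem KLe_ball {ξ ξ' : E m} {a b c : ℝ} (h : ‖ξ - ξ'‖ ≤ a) (h' : a + b ≤ c) :
    ball ξ b ⊆ ball ξ' c :=
  ball_subset_ball' (by rw [dist_eq_norm]; linarith)

theorem KLe_wt {ω₀ : E m → ℝ} {L : ℝ} {O : Set (E m)} (h : Wt ω₀ L O) (hL : 0 ≤ L) {ξ x : E m}
    {r : ℝ} (hx : x ∈ ball ξ r) : ω₀ ξ ≤ ω₀ x + L * r := by
  have h1 := h.lip x ξ
  have h2 : L * ‖x - ξ‖ ≤ L * r := mul_le_mul_of_nonneg_left (mem_ball_iff_norm.1 hx).le hL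
  rw [Real.norm_eq_abs, abs_le] at h1
  linarith [h1.1]

namespace Flat

variable {Q : ℕ} {A : ℝ}

theorem KLe_int (F : Flat m N Q A) {g : E m → ℝ} (hg : Continuous g) :
    Integrable (fun y => g (F.x y) * F.d y) F.μ := by
  have := F.integrable_cont (g := fun q : E m × E N => g q.1) (hg.comp continuous_fst)
    F.measurable_all.2.2.2.2.1 (M := m) fun y => by
      rw [abs_of_nonneg (F.d_bd y).1]; exact (F.d_bd y).2
  simpa only [smul_eq_mul, mul_comm] using this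

theorem KLe_mono (F : Flat m N Q A) {g g' : E m → ℝ} (hg : Continuous g) (hg' : Continuous g')
    {Z : Set (E m)} (hZ : MeasurableSet Z) (h : ∀ x ∈ Z, g x ≤ g' x) :
    ∫ y in F.x ⁻¹' Z, g (F.x y) * F.d y ∂F.μ ≤ ∫ y in F.x ⁻¹' Z, g' (F.x y) * F.d y ∂F.μ :=
  setIntegral_mono_on (F.KLe_int hg).integrableOn (F.KLe_int hg').integrableOn
    (F.measurable_all.1 hZ) fun y hy => mul_le_mul_of_nonneg_right (h _ hy) (F.d_bd y).1

theorem KLe_nn (F : Flat m N Q A) {g : E m → ℝ} (h : ∀ x, 0 ≤ g x) (Z : Set (E m)) :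
    0 ≤ ∫ y in F.x ⁻¹' Z, g (F.x y) * F.d y ∂F.μ :=
  integral_nonneg fun y => mul_nonneg (h _) (F.d_bd y).1

theorem KLe_UU {k : ℕ} (F : Flat (k + 2) N Q A) {l : ℝ} (hl : 0 < l) {ξ x : E (k + 2)}
    (hx : x ∈ ball ξ (l / 2)) :
    F.DS (ball ξ (3 * l)) ≤ 100 * cg (k + 2) * 16 ^ k * l ^ k * F.UU (8 * l) (16 * l) x := by
  have hc := cg_pos (k + 2)
  have h8 : 0 < 8 * l := by positivity
  have h16 : 8 * l ≤ 16 * l := by linarith
  set P := F.DS (ball ξ (3 * l)) / (50 * cg (k + 2) * (16 * l) ^ k) with hP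
  have hP0 : 0 ≤ P := div_nonneg (F.DS_mono subset_rfl).1 (by positivity)
  have h1 : ∀ ρ ∈ Icc (8 * l) (16 * l), P / (16 * l) ≤ F.psi x ρ / ρ := fun ρ hρ => by
    have hρ0 : 0 < ρ := h8.trans_le hρ.1
    have h2 := (F.psi_cmp (by omega) x hρ0).2
    rw [Nat.add_sub_cancel] at h2
    have h3 : ball ξ (3 * l) ⊆ closedBall x (ρ / 2) :=
      (KLe_ball (a := l / 2) (by rw [norm_sub_rev]; exact (mem_ball_iff_norm.1 hx).le)
        (by linarith only [hl, hρ.1])).trans ball_subset_closedBall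
    have h4 := (F.ratio_nonneg x hρ0).1
    have h5 : P ≤ F.psi x ρ := by
      rw [hP, div_le_iff₀ (by positivity)]
      calc _ ≤ 50 * cg (k + 2) * ρ ^ k * F.psi x ρ := (F.DS_mono h3).2.trans h2
        _ ≤ 50 * cg (k + 2) * (16 * l) ^ k * F.psi x ρ := by gcongr; exact hρ.2
        _ = _ := by ring
    exact div_le_div₀ h4 h5 hρ0 hρ.2
  have hcont : ContinuousOn (fun ρ => F.psi x ρ / ρ) (Icc (8 * l) (16 * l)) := by
    refine ContinuousOn.div ?_ continuousOn_id fun ρ hρ => (h8.trans_le hρ.1).ne'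
    exact F.cont_ratio.1.comp (f := fun ρ : ℝ => (x, ρ)) (by fun_prop)
      fun ρ hρ => ⟨mem_univ _, h8.trans_le hρ.1⟩
  have h6 := intervalIntegral.integral_mono_on h16 (intervalIntegrable_const (μ := volume))
    (hcont.intervalIntegrable_of_Icc h16) h1
  rw [← F.UU_eq h8 h16, intervalIntegral.integral_const, smul_eq_mul] at h6
  have h7 : (16 * l - 8 * l) * (P / (16 * l)) = P / 2 := by field_simp; ring
  rw [h7, hP, div_div, div_le_iff₀ (by positivity), mul_pow] at h6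
  linarith

theorem KLe_GB {k : ℕ} {F : Flat (k + 2) N Q A} {L C C' l : ℝ} {j : Fin (k + 2) → ℤ}
    {o φ : E (k + 2) → ℝ} {Sh : Set (E (k + 2))} (h : GB F L C l j o φ Sh) (hL : 0 < L)
    (hC : C ≤ C') : GB F L C' l j o φ Sh ∧
      0 ≤ |F.Y φ| + Lam k L ^ 7 * F.RS (F.τ / Lam k L ^ 10) F.τ Sh := by
  have hΛ : 0 < Lam k L := by unfold Lam; positivity
  have hτ := F.τ_pos
  have h1 := (F.RS_mono (g := F.τ / Lam k L ^ 10) (by positivity) hτ h.isOpen.measurableSet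
    h.isOpen.measurableSet subset_rfl).1
  have h2 := (F.DS_mono (subset_refl (ball (lc (l / 4) j) (3 * l)))).1
  refine ⟨⟨h.o_bd, h.o_lip, h.o_en, h.φ_bd, h.φ_lip, h.φ_zero, h.isOpen, h.sub, h.jump,
    le_trans (sub_le_sub_left (mul_le_mul_of_nonneg_right hC (by positivity)) _) h.main⟩,
    by positivity⟩

/-- the energy of the weight of a bad ball -/
theorem KLe_bad {k : ℕ} (F : Flat (k + 2) N Q A) {L Λ l w : ℝ} {ω₀ b : E (k + 2) → ℝ}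
    {ξ : E (k + 2)} (hL : 1 ≤ L) (hΛ : 1 ≤ Λ) (hl : 0 < l) (hω : Wt ω₀ L (ball 0 1))
    (hLl : 2 * L * l ≤ 1 / L ^ 2) (hw0 : 0 ≤ w) (hw : w ≤ ω₀ ξ + 1 / L ^ 2) (hb : Continuous b)
    (hb0 : ∀ x, 0 ≤ b x) (y : ℝ)
    (h : F.DS (ball ξ (l / 2)) < Λ ^ 7 / L * F.DS (ball ξ (3 * l)) ∨
      Λ ^ 6 / L * F.DS (ball ξ (3 * l)) < ∫ y in F.x ⁻¹' ball ξ l, b (F.x y) * F.d y ∂F.μ ∨
      Λ ^ 6 / L * F.DS (ball ξ (3 * l)) < |y| ∨
      Λ ^ 9 * F.τ ^ 2 * l ^ k < L * F.DS (ball ξ (3 * l))) :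
    w * F.DS (ball ξ (l / 2)) ≤ 2 * Λ ^ 7 / L * F.DS (ball ξ (3 * l)) +
      2 * L / Λ ^ 6 * (∫ y in F.x ⁻¹' ball ξ l,
        (ω₀ (F.x y) + 1 / L ^ 2) * b (F.x y) * F.d y ∂F.μ) + L / Λ ^ 6 * (w * |y|) +
      200 * cg (k + 2) * 16 ^ k * L / (Λ ^ 9 * F.τ ^ 2) * ∫ y in F.x ⁻¹' ball ξ (l / 2),
        F.UU (8 * l) (16 * l) (F.x y) * F.d y ∂F.μ := by
  have hc := cg_pos (k + 2)
  have hτ := F.τ_pos
  have h8 : 0 < 8 * l := by positivity
  have h16 : 8 * l ≤ 16 * l := by linarith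
  have hL0 : 0 < L := by linarith
  have hΛ0 : 0 < Λ := by linarith
  have hL2 : 1 / L ^ 2 ≤ 1 := by
    rw [div_le_one (by positivity)]; exact one_le_pow₀ hL
  have hw2 : w ≤ 2 := by linarith [hω.le_one ξ]
  obtain ⟨d0, d1⟩ := F.DS_mono (ball_subset_ball (x := ξ) (show l / 2 ≤ 3 * l by linarith only [hl]))
  have hU0 : ∀ x, 0 ≤ F.UU (8 * l) (16 * l) x := fun x => (F.UU_mono h8 le_rfl h16 le_rfl x).1
  have hUc := (F.contDiff_UU h8 h16).1.continuous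
  have i2 := F.KLe_nn (g := fun x => (ω₀ x + 1 / L ^ 2) * b x)
    (fun x => mul_nonneg (by have := hω.nonneg x; positivity) (hb0 x)) (ball ξ l)
  have i4 := F.KLe_nn hU0 (ball ξ (l / 2))
  set D := F.DS (ball ξ (l / 2)) with hD
  set En := F.DS (ball ξ (3 * l)) with hEn
  set I2 := ∫ y in F.x ⁻¹' ball ξ l, (ω₀ (F.x y) + 1 / L ^ 2) * b (F.x y) * F.d y ∂F.μ with hI2
  set I4 := ∫ y in F.x ⁻¹' ball ξ (l / 2), F.UU (8 * l) (16 * l) (F.x y) * F.d y ∂F.μ with hI4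
  have e0 : 0 ≤ En := d0.trans d1
  have t1 : 0 ≤ 2 * Λ ^ 7 / L * En := by positivity
  have t2 : 0 ≤ 2 * L / Λ ^ 6 * I2 := by positivity
  have t3 : 0 ≤ L / Λ ^ 6 * (w * |y|) := by positivity
  have t4 : 0 ≤ 200 * cg (k + 2) * 16 ^ k * L / (Λ ^ 9 * F.τ ^ 2) * I4 := by positivity
  have key : ∀ z : ℝ, Λ ^ 6 / L * En < z → w * D ≤ L / Λ ^ 6 * (w * z) := fun z hz => by
    have : En ≤ L / Λ ^ 6 * z := by
      rw [div_mul_eq_mul_div, div_lt_iff₀ hL0] at hz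
      rw [div_mul_eq_mul_div, le_div_iff₀ (by positivity)]
      linarith only [hz]
    calc w * D ≤ w * (L / Λ ^ 6 * z) := mul_le_mul_of_nonneg_left (d1.trans this) hw0
      _ = _ := by ring
  rcases h with h | h | h | h
  · have : w * D ≤ 2 * (Λ ^ 7 / L * En) := mul_le_mul hw2 h.le d0 (by norm_num)
    have e : 2 * (Λ ^ 7 / L * En) = 2 * Λ ^ 7 / L * En := by ring
    linarith only [t2, t3, t4, this, e]
  · have h1 := F.KLe_mono (g := fun x => w * b x) (g' := fun x => 2 * ((ω₀ x + 1 / L ^ 2) * b x))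
      (by fun_prop) (by have := hω.lip.continuous; fun_prop) (Z := ball ξ l) measurableSet_ball
      fun x hx => by
        have := KLe_wt hω hL0.le hx
        have h3 := hω.nonneg x
        have h4 : 0 < L * l := by positivity
        rw [← mul_assoc]
        exact mul_le_mul_of_nonneg_right (by linarith only [hLl, hw, this, h3, h4]) (hb0 x)
    simp only [mul_assoc w, mul_assoc (2 : ℝ), integral_const_mul] at h1
    have h2 := (key _ h).trans (mul_le_mul_of_nonneg_left h1 (by positivity))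
    have e : L / Λ ^ 6 * (2 * I2) = 2 * L / Λ ^ 6 * I2 := by ring
    linarith only [t1, t3, t4, h2, e]
  · linarith only [t1, t2, t4, h, key _ h]
  · have h1 := F.KLe_mono (g := fun _ => Λ ^ 9 * F.τ ^ 2)
      (g' := fun x => 100 * cg (k + 2) * 16 ^ k * L * F.UU (8 * l) (16 * l) x)
      (by fun_prop) (by fun_prop) (Z := ball ξ (l / 2)) measurableSet_ball fun x hx => by
        have h2 := h.le.trans (mul_le_mul_of_nonneg_left (F.KLe_UU hl hx) hL0.le)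
        refine le_of_mul_le_mul_right (a := l ^ k) ?_ (by positivity)
        linarith only [h2]
    simp only [mul_assoc (100 * cg (k + 2) * 16 ^ k * L), integral_const_mul] at h1
    have h2 : D ≤ 100 * cg (k + 2) * 16 ^ k * L / (Λ ^ 9 * F.τ ^ 2) * I4 := by
      rw [div_mul_eq_mul_div, le_div_iff₀ (by positivity), mul_comm]
      exact h1
    have h3 : w * D ≤ 2 * (100 * cg (k + 2) * 16 ^ k * L / (Λ ^ 9 * F.τ ^ 2) * I4) :=
      mul_le_mul hw2 h2 d0 (by norm_num)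
    have e : 2 * (100 * cg (k + 2) * 16 ^ k * L / (Λ ^ 9 * F.τ ^ 2) * I4) =
      200 * cg (k + 2) * 16 ^ k * L / (Λ ^ 9 * F.τ ^ 2) * I4 := by ring
    linarith only [t1, t2, t3, h3, e]

/-- the choice of the weight of one ball -/
theorem KLe_one {k : ℕ} (F : Flat (k + 2) N Q A) {L l w t C : ℝ} {ω₀ : E (k + 2) → ℝ}
    {j : Fin (k + 2) → ℤ} (hL : 1 ≤ L) (hΛ : 1 ≤ Lam k L) (hl : 0 < l) (ht : 0 < t)
    (hω : Wt ω₀ L (ball 0 1)) (hLl : 2 * L * l ≤ 1 / L ^ 2) (hw0 : 0 ≤ w)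
    (hw : w ≤ ω₀ (lc (l / 4) j) + 1 / L ^ 2) (hlip : Lip (L / l) fun x => lp (l / 4) j x ^ 2)
    (hg : Lam k L ^ 7 / L * F.DS (ball (lc (l / 4) j) (3 * l)) ≤
      F.DS (ball (lc (l / 4) j) (l / 2)) →
      ∫ y in F.x ⁻¹' ball (lc (l / 4) j) l, F.bb t l (pL k L) (F.x y) * F.d y ∂F.μ ≤
        Lam k L ^ 6 / L * F.DS (ball (lc (l / 4) j) (3 * l)) →
      (∀ ω : E (k + 2) → ℝ, Lip (L / l) ω → (∀ x, |ω x| ≤ 1) →
        (∀ x, x ∉ ball (lc (l / 4) j) (2 * l) → ω x = 0) →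
        |F.Y ω| ≤ Lam k L ^ 6 / L * F.DS (ball (lc (l / 4) j) (3 * l))) →
      L * F.DS (ball (lc (l / 4) j) (3 * l)) ≤ Lam k L ^ 9 * F.τ ^ 2 * l ^ k →
      ∃ o φ Sh, GB F L C l j o φ Sh) :
    ∃ (g : Prop) (u ω φ : E (k + 2) → ℝ) (Sh : Set (E (k + 2))), (g → GB F L C l j u φ Sh) ∧
      (¬g → u = fun x => lp (l / 4) j x ^ 2) ∧ (∀ x, 0 ≤ u x ∧ u x ≤ lp (l / 4) j x ^ 2) ∧
      Lip (L / l) u ∧ (∀ x, |ω x| ≤ 1) ∧ Lip (L / l) ω ∧
      (∀ x, x ∉ ball (lc (l / 4) j) (2 * l) → ω x = 0) ∧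
      w * F.DD u ≤ 2 * Lam k L ^ 7 / L * F.DS (ball (lc (l / 4) j) (3 * l)) +
        2 * L / Lam k L ^ 6 * (∫ y in F.x ⁻¹' ball (lc (l / 4) j) l,
          (ω₀ (F.x y) + 1 / L ^ 2) * F.bb t l (pL k L) (F.x y) * F.d y ∂F.μ) +
        L / Lam k L ^ 6 * (w * |F.Y ω|) +
        200 * cg (k + 2) * 16 ^ k * L / (Lam k L ^ 9 * F.τ ^ 2) *
          ∫ y in F.x ⁻¹' ball (lc (l / 4) j) (l / 2),
            F.UU (8 * l) (16 * l) (F.x y) * F.d y ∂F.μ := by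
  obtain ⟨hb, hb0⟩ := F.bb_bd ht hl (pL k L)
  have hL0 : 0 < L := by linarith
  have hΛ0 : 0 < Lam k L := by linarith
  have hc := cg_pos (k + 2)
  have hτ := F.τ_pos
  have z : Lip (L / l) fun _ : E (k + 2) => (0 : ℝ) := fun x x' => by
    rw [sub_self, norm_zero]; positivity
  have bad : ∀ ω : E (k + 2) → ℝ, _ → w * F.DD (fun x => lp (l / 4) j x ^ 2) ≤ _ := fun ω h => by
    refine le_trans (mul_le_mul_of_nonneg_left ?_ hw0)
      (F.KLe_bad hL hΛ hl hω hLl hw0 hw hb (fun x => (hb0 x).1) (F.Y ω) h)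
    have h1 := F.abs_DD_le (M := 1) hlip.continuous.measurable (fun x => by
      have := (sum_lp_sq (h := l / 4) (by positivity) {j} x).1
      rw [Finset.sum_singleton] at this
      rwa [abs_of_nonneg (sq_nonneg _)]) (Z := ball (lc (l / 4) j) (l / 2)) measurableSet_ball
      fun x hx => by
        rw [mem_ball_iff_norm, not_lt] at hx
        rw [lp_eq_zero (by positivity) j (by linarith only [hl, hx])]; norm_num
    rw [one_mul] at h1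
    exact (le_abs_self _).trans h1
  have q : ∀ x, 0 ≤ lp (l / 4) j x ^ 2 ∧ lp (l / 4) j x ^ 2 ≤ lp (l / 4) j x ^ 2 := fun x =>
    ⟨sq_nonneg _, le_rfl⟩
  by_cases h3 : ∀ ω : E (k + 2) → ℝ, Lip (L / l) ω → (∀ x, |ω x| ≤ 1) →
      (∀ x, x ∉ ball (lc (l / 4) j) (2 * l) → ω x = 0) →
      |F.Y ω| ≤ Lam k L ^ 6 / L * F.DS (ball (lc (l / 4) j) (3 * l))
  swap
  · push Not at h3
    obtain ⟨ω, a1, a2, a3, a4⟩ := h3
    exact ⟨False, _, ω, ω, ∅, False.elim, fun _ => rfl, q, hlip, a2, a1, a3,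
      bad ω (Or.inr (Or.inr (Or.inl a4)))⟩
  by_cases h : F.DS (ball (lc (l / 4) j) (l / 2)) <
      Lam k L ^ 7 / L * F.DS (ball (lc (l / 4) j) (3 * l)) ∨
      Lam k L ^ 6 / L * F.DS (ball (lc (l / 4) j) (3 * l)) <
        ∫ y in F.x ⁻¹' ball (lc (l / 4) j) l, F.bb t l (pL k L) (F.x y) * F.d y ∂F.μ ∨
      Lam k L ^ 9 * F.τ ^ 2 * l ^ k < L * F.DS (ball (lc (l / 4) j) (3 * l))
  · refine ⟨False, _, fun _ => 0, fun _ => 0, ∅, False.elim, fun _ => rfl, q, hlip, by simp, z,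
      fun _ _ => rfl, bad _ ?_⟩
    tauto
  push Not at h
  obtain ⟨o, φ, Sh, G⟩ := hg h.1 h.2.1 h3 h.2.2
  refine ⟨True, o, fun _ => 0, φ, Sh, fun _ => G, fun h => (h trivial).elim, G.o_bd, G.o_lip,
    by simp, z, fun _ _ => rfl, ?_⟩
  have i2 := F.KLe_nn (g := fun x => (ω₀ x + 1 / L ^ 2) * F.bb t l (pL k L) x)
    (fun x => mul_nonneg (by have := hω.nonneg x; positivity) (hb0 x).1) (ball (lc (l / 4) j) l)
  have i4 := F.KLe_nn (fun x => (F.UU_mono (a := 8 * l) (b := 16 * l) (by positivity) le_rfl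
    (by linarith only [hl]) le_rfl x).1) (ball (lc (l / 4) j) (l / 2))
  have e0 := (F.DS_mono (subset_refl (ball (lc (l / 4) j) (3 * l)))).1
  have hL2 : 1 / L ^ 2 ≤ 1 := by
    rw [div_le_one (by positivity)]; exact one_le_pow₀ hL
  have h67 : Lam k L ^ 6 ≤ Lam k L ^ 7 := pow_le_pow_right₀ hΛ (by norm_num)
  have h1 : w * F.DD o ≤ 2 * (Lam k L ^ 7 / L * F.DS (ball (lc (l / 4) j) (3 * l))) :=
    mul_le_mul (by linarith only [hw, hL2, hω.le_one (lc (l / 4) j)]) (G.o_en.trans (by gcongr))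
      (F.DD_nonneg fun x => (G.o_bd x).1) (by norm_num)
  rw [← mul_assoc, ← mul_div_assoc] at h1
  exact le_add_of_le_of_nonneg (le_add_of_le_of_nonneg (le_add_of_le_of_nonneg h1
    (by positivity)) (by positivity)) (by positivity)

end Flat

theorem KLe_fin {Cr Cg Cc a0 a1 a2 a4 P1 P2 P3 P4 P5 D X Z Y0 Y1 Y2 : ℝ} (r : 0 ≤ Cr) (g : 0 ≤ Cg)
    (c : 0 ≤ Cc) (b0 : 0 ≤ a0) (b1 : 0 ≤ a1) (b2 : 0 ≤ a2) (b4 : 0 ≤ a4) (p1 : 0 ≤ P1)
    (p2 : 0 ≤ P2) (p3 : 0 ≤ P3) (p4 : 0 ≤ P4) (p5 : 0 ≤ P5) (hD : D ≤ P2)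
    (h1 : Y1 - Cr * (D + P1) ≤ Y0) (h2 : Y2 - Cg * (Z + P5) ≤ Y1) (hZ : Z ≤ a0 * P2)
    (h3 : -(Cc * (X + 2 * (D + P1))) ≤ Y2) (h4 : X ≤ a1 * P2 + a2 * P3 + a4 * P4) :
    -((Cr + Cg * (1 + a0) + Cc * (a1 + a2 + a4 + 2)) * (P1 + P2 + P3 + P4 + P5)) ≤ Y0 := by
  obtain ⟨S, hS⟩ : ∃ S, S = P1 + P2 + P3 + P4 + P5 := ⟨_, rfl⟩
  rw [← hS]
  have t1 : Cr * (D + P1) ≤ Cr * S := mul_le_mul_of_nonneg_left (by linarith) r
  have s2 : a0 * P2 ≤ a0 * S := mul_le_mul_of_nonneg_left (by linarith) b0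
  have t2 : Cg * (Z + P5) ≤ Cg * ((1 + a0) * S) := mul_le_mul_of_nonneg_left (by linarith) g
  have s3 : a1 * P2 ≤ a1 * S := mul_le_mul_of_nonneg_left (by linarith) b1
  have s4 : a2 * P3 ≤ a2 * S := mul_le_mul_of_nonneg_left (by linarith) b2
  have s5 : a4 * P4 ≤ a4 * S := mul_le_mul_of_nonneg_left (by linarith) b4
  have t3 : Cc * (X + 2 * (D + P1)) ≤ Cc * ((a1 + a2 + a4 + 2) * S) :=
    mul_le_mul_of_nonneg_left (by linarith only [p3, p4, p5, hD, h4, hS, s3, s4, s5]) c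
  linarith

theorem KLe_coef {L Λ e τ c s1 s2 s3 s4 D T2 T4 X : ℝ} (hL : 1 ≤ L) (hΛ : 1 ≤ Λ) (he : 1 ≤ e)
    (h8 : e * Λ ^ 8 ≤ L) (h2 : e ^ 2 ≤ Λ) (hτ : 0 < τ) (a1 : 0 ≤ s1 * D) (a3 : 0 ≤ s3 * D)
    (h : X ≤ 2 * Λ ^ 7 / L * (s1 * D) + 2 * L / Λ ^ 6 * (s2 * T2) +
      L / Λ ^ 6 * (s3 * (e / L + 2 / L ^ 2) * D) + c * L / (Λ ^ 9 * τ ^ 2) * (s4 * T4)) :
    e / L * X ≤ (2 * s1 + 3 * s3) * (D / (L * Λ)) + 2 * s2 * (e / Λ ^ 6 * T2) +
      c * s4 * (e / (Λ ^ 9 * τ ^ 2) * T4) := by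
  have hL0 : 0 < L := by linarith only [hL]
  have hΛ0 : 0 < Λ := by linarith
  have e1 : e / L * (Λ ^ 7 / L) ≤ 1 / (L * Λ) := by
    rw [div_mul_div_comm, div_le_div_iff₀ (by positivity) (by positivity)]
    nlinarith only [h8, hL]
  have e2 : 2 / L ^ 2 ≤ 2 * (e / L) := by
    rw [← mul_div_assoc, div_le_div_iff₀ (by positivity) (by positivity)]
    have : 1 * 1 ≤ e * L := by gcongr
    nlinarith only [hL, he]
  have e3 : e / L * (L / Λ ^ 6 * (e / L + 2 / L ^ 2)) ≤ 3 / (L * Λ) := by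
    have h5 : e ^ 2 ≤ Λ ^ 5 := h2.trans (le_self_pow₀ hΛ (by norm_num))
    calc _ ≤ e / L * (L / Λ ^ 6 * (3 * (e / L))) := by gcongr; linarith only [e2]
      _ = 3 * e ^ 2 / (L * Λ ^ 6) := by field_simp
      _ ≤ 3 * Λ ^ 5 / (L * Λ ^ 6) := by gcongr
      _ = _ := by field_simp
  have f1 := mul_le_mul_of_nonneg_right e1 a1
  have f3 := mul_le_mul_of_nonneg_right e3 a3
  refine (mul_le_mul_of_nonneg_left h (by positivity)).trans ?_
  have g1 : e / L * (2 * L / Λ ^ 6 * (s2 * T2)) = 2 * s2 * (e / Λ ^ 6 * T2) := by field_simp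
  have g2 : e / L * (c * L / (Λ ^ 9 * τ ^ 2) * (s4 * T4)) =
      c * s4 * (e / (Λ ^ 9 * τ ^ 2) * T4) := by field_simp
  rw [mul_add, mul_add, mul_add, g1, g2]
  have g3 : e / L * (2 * Λ ^ 7 / L * (s1 * D)) = 2 * (e / L * (Λ ^ 7 / L) * (s1 * D)) := by ring
  have g4 : e / L * (L / Λ ^ 6 * (s3 * (e / L + 2 / L ^ 2) * D)) =
      e / L * (L / Λ ^ 6 * (e / L + 2 / L ^ 2)) * (s3 * D) := by ring
  have g5 : (2 * s1 + 3 * s3) * (D / (L * Λ)) =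
      2 * (1 / (L * Λ) * (s1 * D)) + 3 / (L * Λ) * (s3 * D) := by ring
  rw [g3, g4, g5]
  linarith only [f1, f3]

/-- Start from `reduce`, let `ξ j = lc (l / 4) j`, `En j = DS (ball (ξ j) (3 l))`, `δ = log L / L`,
`t = τ² / L ^ n'` with `n'` one more than in `jump_count`; then `C t l ^ k ≤ En j` (`Xi_le` at the
point `Hp`). Call `j` good if the four further hypotheses of `good_ball` hold. Apply `crude` with
`M = 2` to `ω = ∑ (bad) w j lp j ^ 2 + ∑ (good) w j o j ≤ 2 ∑ lp j ^ 2`, which is Lipschitz with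
constant `C L / l` (at most `C` terms are not zero at a point). Its energy is at most
`∑ (bad) w j DS (ball (ξ j) (l / 2)) + 2 Λ ^ 6 / L ∑ En j`, and `∑ En j ≤ C DS univ`
(`sum_ball_le`). If the first hypothesis fails the term is at most `2 Λ ^ 7 / L En j`. If the second
fails use `w j ≤ 2 (ω₀ x + 1 / L²)` on the ball and bounded overlap. If the third fails choose the
weight `ω j` and use `two_sided` with `κ = 2 / L²`. If the fourth fails then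
`UU (8 l) (16 l) ≥ c Λ ^ 9 τ² / L` on `ball (ξ j) (l / 2)` (`UU_eq`, `psi_cmp`). -/
theorem Flat.block (k : ℕ) (hk : 1 ≤ k) (N Q : ℕ) (A : ℝ) : ∃ (c C C₀ τ₀ : ℝ) (n n' : ℕ), 0 < c ∧
    1 ≤ C ∧ 1 ≤ C₀ ∧ 0 < τ₀ ∧ ∀ (F : Flat (k + 2) N Q A) (L l : ℝ) (ω₀ : E (k + 2) → ℝ) (i I : ℕ),
    F.τ ≤ τ₀ → L = Real.log F.τ⁻¹ → Wt ω₀ L (ball 0 1) → F.Y ω₀ ≤ 0 →
    F.RS (F.τ / L ^ 2) F.τ univ ≤ Real.log L / L * F.DS univ →
    l = C₀ * F.τ * 2 ^ i → F.τ ≤ l ^ 4 → l ^ 8 ≤ F.τ →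
    (C₀ * F.τ * 2 ^ I) ^ 16 ≤ F.τ → F.τ ≤ (2 * (C₀ * F.τ * 2 ^ I)) ^ 16 →
    ∃ (J : Finset (Fin (k + 2) → ℤ)) (w : (Fin (k + 2) → ℤ) → ℝ)
      (o φ : (Fin (k + 2) → ℤ) → E (k + 2) → ℝ) (Sh : (Fin (k + 2) → ℤ) → Set (E (k + 2))),
      (∀ j ∈ J, 0 ≤ w j ∧ w j ≤ ω₀ (lc (l / 4) j) + 1 / L ^ 2 ∧ ‖lc (l / 4) j‖ ≤ 3 / 2 ∧
        (∃ ξ ∈ ball (lc (l / 4) j) l, F.Hp c C₀ n I ξ) ∧ GB F L C l j (o j) (φ j) (Sh j)) ∧
      -(C * (F.RS (F.τ / L ^ 2) F.τ univ + F.DS univ / (L * Lam k L) +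
        Real.log L / Lam k L ^ 6 * (∫ y in F.x ⁻¹' ball 0 (7 / 4), (ω₀ (F.x y) + 1 / L ^ 2) *
          F.bb (F.τ ^ 2 / L ^ n') l (pL k L) (F.x y) * F.d y ∂F.μ) +
        Real.log L / (Lam k L ^ 9 * F.τ ^ 2) *
          (∫ y in F.x ⁻¹' ball 0 2, F.UU (8 * l) (16 * l) (F.x y) * F.d y ∂F.μ) +
        ∑ j ∈ J, w j * (|F.Y (φ j)| + Lam k L ^ 7 * F.RS (F.τ / Lam k L ^ 10) F.τ (Sh j)))) ≤
      F.Y ω₀ := by
  classical
  have hm : 2 ≤ k + 2 := by omega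
  obtain ⟨c, Cr, C₀, τr, n, c0, r1, r2, r3, Hr⟩ := Flat.reduce (k + 2) hm Q A
  obtain ⟨τj, n₁, j0, Hj⟩ := Flat.jump_count (k + 2) hm Q A c C₀ c0 r2 n
  obtain ⟨Cg, τg, g1, g0, Hg⟩ := good_ball k hk N Q A
  obtain ⟨Cc, τc, c1, c2, Hc⟩ := Flat.crude (k + 2) hm Q A
  obtain ⟨Ct, τt, t1, t2, Ht⟩ := Flat.two_sided (k + 2) hm Q A
  obtain ⟨Cx, Bx, x1, x2, Hx⟩ := Flat.Xi_le (k + 2) hm Q A
  obtain ⟨Cl, l1, Hl⟩ := lp_bd (k + 2)
  obtain ⟨Cb, b1, Hb⟩ := lattice_bd (k + 2)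
  obtain ⟨Cs, s1, Hs⟩ := sum_ball_le (k + 2)
  obtain ⟨L₀, L1, HL⟩ := Lam_bd k 1
  have gx : 0 ≤ Cg * Cx := by positivity
  obtain ⟨K, K1, K2, K3, K4, K5⟩ : ∃ K : ℝ, 10 ≤ K ∧ 2 * Cb ≤ K ∧ 4 * Cl ≤ K ∧ Cg * Cx ≤ K ∧
      Bx ≤ K := ⟨10 + 2 * Cb + 4 * Cl + Cg * Cx + Bx, by
    refine ⟨?_, ?_, ?_, ?_, ?_⟩ <;> linarith only [gx, b1, l1, x2]⟩
  obtain ⟨L₁, HK⟩ := KLe_num K
  have hcg := cg_pos (k + 2)
  obtain ⟨C, hC⟩ : ∃ C, C = Cr + Cg * (1 + 2 * (Cs * 12 ^ (k + 2))) +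
    Cc * (2 * (Cs * 12 ^ (k + 2)) + 3 * (Ct * (Cb * 8 ^ (k + 2))) + 2 * (Cs * 4 ^ (k + 2)) +
      200 * cg (k + 2) * 16 ^ k * (Cs * 2 ^ (k + 2)) + 2) := ⟨_, rfl⟩
  have hCg : Cg ≤ C := by
    rw [hC, mul_add Cg, mul_one]
    exact le_add_of_le_of_nonneg (le_add_of_nonneg_of_le (by positivity)
      (le_add_of_nonneg_right (by positivity))) (by positivity)
  refine ⟨c, C, C₀, min (min (min τr τj) (min τg τc)) (min τt (Real.exp (-max L₀ L₁))), n, n₁ + 1,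
    c0, g1.trans hCg, r2, by positivity, fun F L l ω₀ i I hτ hL hω hY hRS hl h4 h8 hI1 hI2 => ?_⟩
  simp only [le_min_iff] at hτ
  obtain ⟨⟨⟨u1, u2⟩, u3, u4⟩, u5, u6⟩ := hτ
  have hτ := F.τ_pos
  have hLL : max L₀ L₁ ≤ L := by
    have := Real.log_le_log hτ u6
    rw [Real.log_exp] at this
    rw [hL, Real.log_inv]; linarith only [this]
  have hl0 : 0 < l := by rw [hl]; positivity
  have hh : 0 < l / 4 := by positivity
  obtain ⟨k1, k2, k3, k4, k5⟩ := HK L F.τ l ((le_max_right _ _).trans hLL) hτ hL hl0 h4 h8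
  obtain ⟨m1, -, m3, -, m5, m6, -⟩ := HL L ((le_max_left _ _).trans hLL)
  rw [one_mul] at m6
  have hL1 : 10 ≤ L := K1.trans k1
  have hL5 : 1 ≤ L := by linarith only [hL1]
  have hL0 : 0 < L := one_pos.trans_le hL5
  have hΛ0 : 0 < Lam k L := one_pos.trans_le m1
  have hL2 : 2 / L ^ 2 ≤ 1 := by
    rw [div_le_one (by positivity)]; nlinarith only [hL1]
  have hL3 : 2 / L ^ 2 = 1 / L ^ 2 + 1 / L ^ 2 := by ring
  have hL4 : 0 < 1 / L ^ 2 := by positivity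
  have m9 : Lam k L ^ 9 ≤ L := by
    refine (pow_le_pow_right₀ m1 ?_).trans m3
    have : 0 < (k + 4) ^ 3 := by positivity
    unfold P0; omega
  have m8 : Real.log L * Lam k L ^ 8 ≤ L := by
    have : Real.log L ≤ Lam k L := (le_self_pow₀ m5 (by norm_num)).trans m6
    calc _ ≤ Lam k L * Lam k L ^ 8 := by gcongr
      _ = Lam k L ^ 9 := by ring
      _ ≤ L := m9
  have m7 : Lam k L ≤ L := (le_self_pow₀ m1 (by norm_num)).trans m9
  have hiI : i ≤ I := by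
    have a0 : 0 < C₀ * F.τ * 2 ^ I := by positivity
    have a1 : C₀ * F.τ * 2 ^ I ≤ 1 / 4 := by
      refine le_of_pow_le_pow_left₀ (n := 16) (by norm_num) (by norm_num) (hI1.trans (h4.trans ?_))
      calc l ^ 4 ≤ (1 / 256) ^ 4 := by gcongr
        _ = _ := by norm_num
    have a2 : l ≤ (2 * (C₀ * F.τ * 2 ^ I)) ^ 2 := by
      refine le_of_pow_le_pow_left₀ (n := 8) (by norm_num) (by positivity) ?_
      rw [← pow_mul]; exact h8.trans hI2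
    have a3 : C₀ * F.τ * 2 ^ i ≤ C₀ * F.τ * 2 ^ I := by
      rw [← hl]; nlinarith only [a0, a1, a2]
    exact (pow_le_pow_iff_right₀ one_lt_two).1 (le_of_mul_le_mul_left a3 (by positivity))
  have ht : 0 < F.τ ^ 2 / L ^ (n₁ + 1) := by positivity
  have hLl : 0 < L / l := by positivity
  have hlp : ∀ j : Fin (k + 2) → ℤ, Lip (L / l) fun x => lp (l / 4) j x ^ 2 := fun j =>
    KLe_lipmono (Hl _ hh j).2.2.2 (by
      rw [div_div_eq_mul_div]; exact div_le_div_of_nonneg_right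
        (by linarith only [K3, k1]) hl0.le)
  obtain ⟨J, w, hJ, h1⟩ := Hr F L l ω₀ i I u1 hL hω hl h4 h8 hI1 hI2
  have hw2 : ∀ j ∈ J, 0 ≤ w j ∧ w j ≤ 2 := fun j hj =>
    ⟨(hJ j hj).1, by linarith only [(hJ j hj).2.1, hω.le_one (lc (l / 4) j), hL2, hL3, hL4]⟩
  have hEn : ∀ j ∈ J, Cg * (F.τ ^ 2 / L ^ (n₁ + 1)) * l ^ k ≤
      F.DS (ball (lc (l / 4) j) (3 * l)) := fun j hj => by
    obtain ⟨-, -, a1, ξ, a2, a3⟩ := hJ j hj
    have a4 := (mem_ball_iff_norm.1 a2).le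
    have a5 : ‖ξ‖ ≤ 2 := by
      linarith only [norm_le_norm_add_norm_sub' ξ (lc (l / 4) j), a1, a4, k4]
    have a6 := (Hj F L I ξ u2 hL hI1 hI2 a5 a3).1 i hiI
    rw [← hl] at a6
    have a7 : Bx * F.τ ≤ l := (mul_le_mul_of_nonneg_right K5 hτ.le).trans k5
    have a8 := ((Hx F ξ l (by linarith only [a7, k4]) a7).1 (by linarith only [a5, k4])).1
    rw [Nat.add_sub_cancel] at a8
    obtain ⟨a9, a10⟩ := F.DS_mono (KLe_ball (b := 2 * l) (c := 3 * l) a4 (by linarith only))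
    have a11 := ((mul_le_mul_of_nonneg_left a6 (pow_nonneg hl0.le k)).trans a8).trans
      (mul_le_mul_of_nonneg_left a10 (zero_le_one.trans x1))
    calc _ = Cg * (l ^ k * (F.τ ^ 2 / L ^ n₁)) / L := by rw [pow_succ L, ← div_div]; ring
      _ ≤ Cg * (Cx * F.DS (ball (lc (l / 4) j) (3 * l))) / L := by gcongr
      _ ≤ _ := by
          rw [div_le_iff₀ hL0, ← mul_assoc, mul_comm]
          exact mul_le_mul_of_nonneg_left (K4.trans k1) (a9.trans a10)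
  choose! g u ω φ Sh G1 G2 G3 G4 G5 G6 G7 G8 using fun j (hj : j ∈ J) =>
    F.KLe_one hL5 m1 hl0 ht hω k3 (hJ j hj).1 (hJ j hj).2.1 (hlp j)
      (Hg F L l _ j u3 hL hl0 h4 h8 (by linarith only [(hJ j hj).2.2.1]) ht (hEn j hj))
  have z1 : ∀ (j : Fin (k + 2) → ℤ) x, l / 4 < ‖x - lc (l / 4) j‖ → lp (l / 4) j x ^ 2 = 0 :=
    fun j x h => by rw [lp_eq_zero hh j (by linarith only [h, hl0])]; norm_num
  have z2 : ∀ j ∈ J, ∀ x, 8 ≤ ‖x‖ → lp (l / 4) j x ^ 2 = 0 := fun j hj x h =>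
    z1 j x (by
      linarith only [norm_le_norm_add_norm_sub' x (lc (l / 4) j), (hJ j hj).2.2.1, h, k4])
  have z3 : ∀ j ∈ J, ∀ x, lp (l / 4) j x ^ 2 = 0 → u j x = 0 := fun j hj x h =>
    le_antisymm (h ▸ (G3 j hj x).2) (G3 j hj x).1
  have y1 := (F.lin_sum J fun j hj => (Adm.of_cont (hlp j).continuous (z2 j hj)).const_mul (w j)).2.2
  obtain ⟨y2, -, y3⟩ := F.lin_sum J fun j hj => (Adm.of_cont (G4 j hj).continuous
    fun x hx => z3 j hj x (z2 j hj x hx)).const_mul (w j)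
  simp only [(F.lin_smul _ _).1, (F.lin_smul _ _).2.2] at y1 y2 y3
  have h3 := Hc F L (fun x => ∑ j ∈ J, w j * u j x) 2 u4 hL two_pos (fun x =>
    ⟨Finset.sum_nonneg fun j hj => mul_nonneg (hJ j hj).1 (G3 j hj x).1, by
      have := (sum_lp_sq hh J x).1
      have h2 : ∑ j ∈ J, w j * u j x ≤ ∑ j ∈ J, 2 * lp (l / 4) j x ^ 2 :=
        Finset.sum_le_sum fun j hj =>
          mul_le_mul (hw2 j hj).2 (G3 j hj x).2 (G3 j hj x).1 two_pos.le
      rw [← Finset.mul_sum] at h2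
      linarith only [h2, this]⟩)
    (KLe_lipmono (KLe_lip (B := Cb) J u w hLl.le hw2 G4 fun x => by
      have := (Hb _ hh).2 J x _ le_rfl
      rw [div_self hh.ne', one_pow, mul_one] at this
      refine le_trans (Nat.cast_le.2 (Finset.card_le_card fun j hj => ?_)) this
      rw [Finset.mem_filter] at hj ⊢
      exact ⟨hj.1, not_lt.1 fun h => hj.2 (z3 j hj.1 x (z1 j x h))⟩) (by
        linarith only [mul_le_mul_of_nonneg_right K2 hLl.le, k2]))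
    fun x hx => Finset.sum_eq_zero fun j hj => by rw [z3 j hj x (z2 j hj x hx), mul_zero]
  have sub : ∀ j ∈ J, ∀ b R : ℝ, 3 / 2 + b ≤ R → ball (lc (l / 4) j) b ⊆ ball 0 R :=
    fun j hj b R h => KLe_ball (by rw [sub_zero]; exact (hJ j hj).2.2.1) h
  have v3 := Ht F L ω₀ u5 hL hω hY hRS J ω (fun j => ball (lc (l / 4) j) (2 * l)) w
    (Cb * 8 ^ (k + 2)) (2 / L ^ 2) (by positivity) (by positivity) hL2
    (fun j hj => ⟨(hJ j hj).1, G5 j hj, KLe_lipmono (G6 j hj) (by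
      linarith only [mul_le_mul_of_nonneg_right K1 hLl.le, k2]),
      sub j hj _ _ (by linarith only [k4]), G7 j hj⟩) fun x => by
      have a1 := (Hb _ hh).2 J x (2 * l) (by linarith only [hl0])
      rw [show 2 * l / (l / 4) = 8 by field_simp; norm_num] at a1
      have a2 : 0 ≤ ω₀ x + 2 / L ^ 2 := by linarith only [hω.nonneg x, hL3, hL4]
      refine le_trans ?_ (mul_le_mul_of_nonneg_right a1 a2)
      rw [← nsmul_eq_mul, ← Finset.sum_const, Finset.sum_filter]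
      refine Finset.sum_le_sum fun j hj => ?_
      by_cases hx : x ∈ ball (lc (l / 4) j) (2 * l)
      · rw [indicator_of_mem hx, if_pos (mem_ball_iff_norm.1 hx).le]
        linarith only [KLe_wt hω hL0.le hx, (hJ j hj).2.1, k3, hL3]
      · rw [indicator_of_notMem hx]
        split_ifs
        exacts [a2, le_rfl]
  obtain ⟨hb, hb0⟩ := F.bb_bd ht hl0 (pL k L)
  have hωc := hω.lip.continuous
  have n2 : ∀ x, 0 ≤ (ω₀ x + 1 / L ^ 2) * F.bb (F.τ ^ 2 / L ^ (n₁ + 1)) l (pL k L) x := fun x =>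
    mul_nonneg (add_nonneg (hω.nonneg x) hL4.le) (hb0 x).1
  have n4 : ∀ x, 0 ≤ F.UU (8 * l) (16 * l) x := fun x =>
    (F.UU_mono (by positivity) le_rfl (by linarith only [hl0]) le_rfl x).1
  have v1 : ∑ j ∈ J, F.DS (ball (lc (l / 4) j) (3 * l)) ≤ _ * F.DS univ :=
    Hs F.μ F.x F.d (l / 4) (3 * l) J univ hh (by linarith only [hl0]) F.measurable_all.1
    F.integrable_d (Eventually.of_forall fun y => (F.d_bd y).1) (fun _ _ => subset_univ _)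
    MeasurableSet.univ
  have v2 := Hs F.μ F.x _ (l / 4) l J (ball 0 (7 / 4)) hh (by linarith only [hl0])
    F.measurable_all.1
    (F.KLe_int (g := fun x => (ω₀ x + 1 / L ^ 2) * F.bb (F.τ ^ 2 / L ^ (n₁ + 1)) l (pL k L) x)
      (by fun_prop)) (Eventually.of_forall fun y => mul_nonneg (n2 _) (F.d_bd y).1)
    (fun j hj => sub j hj _ _ (by linarith only [k4])) measurableSet_ball
  have v4 := Hs F.μ F.x _ (l / 4) (l / 2) J (ball 0 2) hh (by linarith only [hl0])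
    F.measurable_all.1
    (F.KLe_int (F.contDiff_UU (a := 8 * l) (b := 16 * l) (by positivity)
      (by linarith only [hl0])).1.continuous)
    (Eventually.of_forall fun y => mul_nonneg (n4 _) (F.d_bd y).1)
    (fun j hj => sub j hj _ _ (by linarith only [k4])) measurableSet_ball
  rw [show 3 * l / (l / 4) = 12 by field_simp; norm_num] at v1
  rw [show l / (l / 4) = 4 by field_simp] at v2
  rw [show l / 2 / (l / 4) = 2 by field_simp; norm_num] at v4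
  have d0 := (F.DS_mono (subset_refl univ)).1
  have v5 := Finset.sum_le_sum G8
  simp only [Finset.sum_add_distrib, ← Finset.mul_sum] at v5
  rw [← y2] at v5
  have h4 := KLe_coef hL5 m1 m5 m8 m6 hτ (by positivity) (by positivity)
    (v5.trans (add_le_add (add_le_add (add_le_add (mul_le_mul_of_nonneg_left v1 (by positivity))
      (mul_le_mul_of_nonneg_left v2 (by positivity)))
      (mul_le_mul_of_nonneg_left v3 (by positivity)))
      (mul_le_mul_of_nonneg_left v4 (by positivity))))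
  have i2 := F.KLe_nn n2 (ball 0 (7 / 4))
  have i4 := F.KLe_nn n4 (ball 0 2)
  refine ⟨J.filter g, w, u, φ, Sh, fun j hj => ?_, ?_⟩
  · rw [Finset.mem_filter] at hj
    obtain ⟨a1, a2, a3, a4⟩ := hJ j hj.1
    exact ⟨a1, a2, a3, a4, (Flat.KLe_GB (G1 j hj.1 hj.2) hL0 hCg).1⟩
  rw [hC]
  refine KLe_fin (Z := ∑ j ∈ J, w j * (F.DS (ball (lc (l / 4) j) (3 * l)) / (L * Lam k L)))
    (by positivity) (by positivity) (by positivity) (by positivity) (by positivity) (by positivity)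
    (by positivity) (F.RS_mono (by positivity) hτ MeasurableSet.univ MeasurableSet.univ
      subset_rfl).1 (by positivity) (by positivity) (by positivity)
    (Finset.sum_nonneg fun j hj => ?_) ?_ h1 ?_ ?_ h3 h4
  · rw [Finset.mem_filter] at hj
    exact mul_nonneg (hJ j hj.1).1 (Flat.KLe_GB (G1 j hj.1 hj.2) hL0 hCg).2
  · exact div_le_div_of_nonneg_left d0 (by positivity) (by nlinarith only [m7, hL0])
  · rw [y1, y3, Finset.sum_filter, ← Finset.sum_add_distrib, Finset.mul_sum,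
      ← Finset.sum_sub_distrib]
    refine Finset.sum_le_sum fun j hj => ?_
    have a0 := (hJ j hj).1
    split_ifs with hg
    · linarith only [mul_le_mul_of_nonneg_left (G1 j hj hg).main a0]
    · have a1 := (F.DS_mono (subset_refl (ball (lc (l / 4) j) (3 * l)))).1
      rw [G2 j hj hg, add_zero]
      exact sub_le_self _ (by positivity)
  · calc _ ≤ ∑ j ∈ J, 2 / (L * Lam k L) * F.DS (ball (lc (l / 4) j) (3 * l)) :=
          Finset.sum_le_sum fun j hj => by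
            have a1 := (F.DS_mono (subset_refl (ball (lc (l / 4) j) (3 * l)))).1
            rw [div_mul_eq_mul_div, mul_div_assoc]
            exact mul_le_mul_of_nonneg_right (hw2 j hj).2 (by positivity)
      _ ≤ 2 / (L * Lam k L) * (Cs * 12 ^ (k + 2) * F.DS univ) := by
          rw [← Finset.mul_sum]; exact mul_le_mul_of_nonneg_left v1 (by positivity)
      _ = _ := by ring

end Pool.Agent.MP_f6c0e6_an.Gen

end

section

/-! The key lemma in a flat frame. -/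

set_option autoImplicit false

open MeasureTheory Filter Topology Set Metric
open scoped ENNReal RealInnerProductSpace

namespace Pool.Agent.MP_f6c0e6_an.Gen

variable {m N : ℕ}

theorem KLf_exp (K L : ℝ) (hL : 1 ≤ L) (h : K * 2 ^ 25 * (Nat.factorial 25) ≤ L) :
    K * L ^ 24 ≤ Real.exp (L / 2) := by
  have h1 := Real.pow_div_factorial_le_exp (L / 2) (by positivity) 25
  refine le_trans ?_ h1
  have hf : (0 : ℝ) < Nat.factorial 25 := by exact_mod_cast Nat.factorial_pos 25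
  rw [le_div_iff₀ hf, div_pow, le_div_iff₀ (by positivity)]
  have h2 : 0 ≤ L ^ 24 := by positivity
  calc K * L ^ 24 * (Nat.factorial 25) * 2 ^ 25 = K * 2 ^ 25 * (Nat.factorial 25) * L ^ 24 := by ring
    _ ≤ L * L ^ 24 := mul_le_mul_of_nonneg_right h h2
    _ = L ^ 25 := by ring

theorem KLf_dyadic {r τ : ℝ} (hr : 0 < r) (hτ : τ < 1) {n : ℕ} (h0 : r ^ n ≤ τ) :
    ∃ I : ℕ, (r * 2 ^ I) ^ n ≤ τ ∧ τ < (2 * (r * 2 ^ I)) ^ n := by
  classical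
  have hex : ∃ i : ℕ, τ < (r * 2 ^ i) ^ n := by
    obtain ⟨i, hi⟩ := pow_unbounded_of_one_lt (1 / r) (one_lt_two (α := ℝ))
    rw [div_lt_iff₀ hr] at hi
    exact ⟨i, hτ.trans_le (one_le_pow₀ (by linarith))⟩
  have h1 := Nat.find_spec hex
  have h2 : Nat.find hex ≠ 0 := fun e => by
    rw [e, pow_zero, mul_one] at h1
    linarith
  obtain ⟨I, hI⟩ := Nat.exists_eq_succ_of_ne_zero h2
  refine ⟨I, not_lt.1 (Nat.find_min hex (by omega)), ?_⟩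
  rw [hI, Nat.succ_eq_add_one, pow_succ] at h1
  convert h1 using 2
  ring

theorem KLf_basic {K τ L : ℝ} (hτ : τ = Real.exp (-L)) (hL : 1 ≤ L) (hK : 1 ≤ K)
    (h : K * L ^ 24 ≤ Real.exp (L / 2)) : 0 < τ ∧ τ < 1 ∧ K * L ^ 24 * τ < 1 ∧
    K * Real.exp (L / 2) * τ ≤ 1 := by
  have h0 : 0 < τ := hτ ▸ Real.exp_pos _
  have h1 : Real.exp (L / 2) * Real.exp (L / 2) * τ = 1 := by
    rw [hτ, ← Real.exp_add, ← Real.exp_add, show L / 2 + L / 2 + -L = 0 by ring, Real.exp_zero]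
  have h2 : 1 < Real.exp (L / 2) := Real.one_lt_exp_iff.2 (by linarith only [hL])
  have h3 : 1 ≤ L ^ 24 := one_le_pow₀ hL
  have h4 : K ≤ Real.exp (L / 2) := le_trans (by nlinarith only [h3, hK]) h
  have h5 : 0 < Real.exp (L / 2) * τ := by positivity
  refine ⟨h0, hτ ▸ Real.exp_lt_one_iff.2 (by linarith), ?_, ?_⟩
  · have := mul_le_mul_of_nonneg_right h h0.le
    nlinarith only [h1, h2, this]
  · nlinarith only [h1, h4, hK, h2]

theorem KLf_par {C₀ τ L : ℝ} {p nb : ℕ} (hC : 1 ≤ C₀) (hτ : τ = Real.exp (-L)) (hL : 1 ≤ L)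
    (h : 10 ^ 24 * C₀ ^ 16 * L ^ 24 ≤ Real.exp (L / 2)) (hp : (2 : ℝ) ^ p ≤ L)
    (hnb : (nb : ℝ) * (p + 3) ≤ L / 20) :
    ∃ i₀ I : ℕ, p ≤ i₀ ∧ τ ≤ (C₀ * τ * 2 ^ i₀) ^ 4 ∧
      (C₀ * τ * 2 ^ i₀ * 2 ^ (nb * (p + 3))) ^ 8 ≤ τ ∧ (C₀ * τ * 2 ^ I) ^ 16 ≤ τ ∧
      τ ≤ (2 * (C₀ * τ * 2 ^ I)) ^ 16 := by
  have c1 : 1 ≤ C₀ ^ 16 := one_le_pow₀ hC
  obtain ⟨h0, h1, h2, h3⟩ := KLf_basic hτ hL (by nlinarith only [c1]) h
  have hr : 0 < C₀ * τ := by positivity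
  have l1 : 1 ≤ L ^ 24 := one_le_pow₀ hL
  have k1 : C₀ ^ 16 * L ^ 24 * τ ≤ 1 := by
    have : 0 ≤ C₀ ^ 16 * L ^ 24 * τ := by positivity
    nlinarith only [h0, h1, h2]
  have k2 : C₀ ^ 4 * L ^ 4 * τ ≤ 1 := by
    refine le_trans ?_ k1
    gcongr <;> omega
  have k3 : ∀ n : ℕ, τ ^ n ≤ 1 := fun n => pow_le_one₀ h0.le h1.le
  have k4 : (C₀ * τ * L) ^ 4 < τ := by
    have e : (C₀ * τ * L) ^ 4 = C₀ ^ 4 * L ^ 4 * τ * τ ^ 2 * τ := by ring
    have : C₀ ^ 4 * L ^ 4 * τ * τ ^ 2 < 1 := by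
      have h5 : τ ^ 2 < 1 := pow_lt_one₀ h0.le h1 two_ne_zero
      have h6 : 0 < τ ^ 2 := by positivity
      nlinarith only [h5, k2]
    rw [e]
    nlinarith only [h0, this]
  obtain ⟨i, a1, a2⟩ := KLf_dyadic hr h1 (n := 4)
    (le_trans (pow_le_pow_left₀ hr.le (le_mul_of_one_le_right hr.le hL) 4) k4.le)
  obtain ⟨I, b1, b2⟩ := KLf_dyadic hr h1 (n := 16) (by
    have e : (C₀ * τ) ^ 16 = C₀ ^ 16 * 1 * τ * τ ^ 14 * τ := by ring
    have h5 : C₀ ^ 16 * 1 * τ ≤ 1 := le_trans (by gcongr) k1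
    rw [e]
    exact mul_le_of_le_one_left h0.le (mul_le_one₀ h5 (by positivity) (k3 14)))
  have e1 : C₀ * τ * 2 ^ (i + 1) = 2 * (C₀ * τ * 2 ^ i) := by ring
  refine ⟨i + 1, I, ?_, e1 ▸ a2.le, ?_, b1, b2.le⟩
  · by_contra hc
    have h5 : (2 : ℝ) ^ (i + 1) ≤ L :=
      le_trans (pow_le_pow_right₀ one_le_two (by omega)) hp
    have h6 : (C₀ * τ * 2 ^ (i + 1)) ^ 4 ≤ (C₀ * τ * L) ^ 4 := by gcongr
    rw [e1] at h6
    linarith only [k4, a2, h6]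
  · have h5 : ((2 : ℝ) ^ (nb * (p + 3))) ^ 8 ≤ Real.exp (L / 2) := by
      have h6 : (2 : ℝ) ≤ Real.exp 1 := by linarith only [Real.add_one_le_exp 1]
      calc ((2 : ℝ) ^ (nb * (p + 3))) ^ 8 ≤ (Real.exp 1 ^ (nb * (p + 3))) ^ 8 := by gcongr
        _ = Real.exp (8 * (nb * (p + 3))) := by
          rw [← pow_mul, ← Real.exp_nat_mul]
          congr 1
          push_cast
          ring
        _ ≤ Real.exp (L / 2) := Real.exp_le_exp.2 (by linarith only [hL, hnb, h0, h1])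
    have h7 : 0 ≤ (C₀ * τ * 2 ^ i) ^ 4 := by positivity
    have h8 : 256 * Real.exp (L / 2) * τ ≤ 1 := by
      have : 0 ≤ Real.exp (L / 2) * τ := by positivity
      nlinarith only [h0, h1, h3, c1, this]
    calc (C₀ * τ * 2 ^ (i + 1) * 2 ^ (nb * (p + 3))) ^ 8
        = 256 * ((C₀ * τ * 2 ^ i) ^ 4) ^ 2 * (2 ^ (nb * (p + 3))) ^ 8 := by rw [e1]; ring
      _ ≤ 256 * τ ^ 2 * Real.exp (L / 2) := by gcongr
      _ = 256 * Real.exp (L / 2) * τ * τ := by ring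
      _ ≤ τ := mul_le_of_le_one_left h0.le h8

theorem KLf_ten {L : ℝ} (hL : 1 ≤ L) (h : 10 ^ 24 * L ^ 24 ≤ Real.exp (L / 2)) :
    10 * L ≤ Real.exp (L / 12) := by
  refine le_of_pow_le_pow_left₀ (n := 6) (by norm_num) (Real.exp_pos _).le ?_
  rw [← Real.exp_nat_mul, show ((6 : ℕ) : ℝ) * (L / 12) = L / 2 by push_cast; ring]
  refine le_trans ?_ h
  rw [← mul_pow]
  exact pow_le_pow_right₀ (by linarith only [hL]) (by norm_num)

theorem KLf_scale {τ L l : ℝ} (hτ : τ = Real.exp (-L)) (hL : 1 ≤ L)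
    (h : 10 ^ 24 * L ^ 24 ≤ Real.exp (L / 2)) (hl : 0 < l) (h1 : τ ≤ l ^ 4) (h2 : l ^ 8 ≤ τ) :
    L / l ≤ Real.exp (L / 3) / 10 ∧ L * (l / 2) ≤ 1 / L ^ 2 ∧ l ≤ 1 / 2 ∧ (8 * l) ^ 16 < τ := by
  obtain ⟨h0, -, h3, -⟩ := KLf_basic hτ hL (by norm_num) h
  have l1 : 1 ≤ L ^ 24 := one_le_pow₀ hL
  have k1 : 10 ^ 24 * τ < 1 := by nlinarith only [h3, h0, l1]
  refine ⟨?_, ?_, ?_, ?_⟩
  · have a1 := KLf_ten hL h
    have a2 : 1 ≤ l * Real.exp (L / 4) := by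
      refine le_of_pow_le_pow_left₀ (n := 4) (by norm_num) (by positivity) ?_
      rw [mul_pow, ← Real.exp_nat_mul, show ((4 : ℕ) : ℝ) * (L / 4) = L by push_cast; ring, one_pow]
      have : τ * Real.exp L = 1 := by rw [hτ, ← Real.exp_add, neg_add_cancel, Real.exp_zero]
      rw [← this]
      gcongr
    have a3 : Real.exp (L / 3) = Real.exp (L / 12) * Real.exp (L / 4) := by
      rw [← Real.exp_add]; congr 1; ring
    rw [div_le_div_iff₀ hl (by norm_num), a3]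
    have := Real.exp_pos (L / 12)
    nlinarith only [a1, a2, hL, h0, k1]
  · have a1 : L ^ 3 * l ≤ 1 := by
      refine le_of_pow_le_pow_left₀ (n := 8) (by norm_num) zero_le_one ?_
      rw [mul_pow, ← pow_mul, one_pow]
      have : L ^ 24 * l ^ 8 ≤ L ^ 24 * τ := by gcongr
      have : 0 ≤ L ^ 24 * τ := by positivity
      norm_num
      nlinarith only [h0, h3, k1, ‹L ^ 24 * l ^ 8 ≤ L ^ 24 * τ›]
    rw [le_div_iff₀ (by positivity)]
    have : 0 ≤ L ^ 3 * l := by positivity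
    nlinarith only [h0, k1, a1]
  · refine le_of_pow_le_pow_left₀ (n := 8) (by norm_num) (by norm_num) ?_
    norm_num
    linarith only [h2, h0, k1]
  · calc (8 * l) ^ 16 = 8 ^ 16 * (l ^ 8) ^ 2 := by ring
      _ ≤ 8 ^ 16 * τ ^ 2 := by gcongr
      _ = 8 ^ 16 * τ * τ := by ring
      _ < τ := mul_lt_of_lt_one_left h0 (by linarith only [h0, k1])

/-- the number of blocks with a shell through a given point -/
theorem KLf_count {X : E m → ℝ → ℝ} {H : E m → Prop} {r s : ℝ} {n' I i₀ p : ℕ} (hr : 0 < r)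
    (hp : 2 ≤ p) (hpi : p ≤ i₀)
    (hjc : ∀ ξ, ‖ξ‖ ≤ 2 → H ξ → ∀ (S : Finset ℕ) (u v : ℕ → ℕ), (∀ β ∈ S, u β ≤ v β ∧ v β ≤ I ∧
      s * X ξ (r * 2 ^ u β) ≤ X ξ (r * 2 ^ v β)) →
      (∀ β ∈ S, ∀ β' ∈ S, β < β' → v β ≤ u β') → S.card ≤ n')
    (l : ℕ → ℝ) (hl : ∀ β, l β = r * 2 ^ (i₀ + β * (p + 3))) (S : Finset ℕ) (x : E m)
    (hS : ∀ β ∈ S, l β ≤ 1 / 2 ∧ i₀ + β * (p + 3) + 3 ≤ I ∧ ∃ (z ξ : E m) (Sh : Set (E m)),
      ‖z‖ ≤ 3 / 2 ∧ ξ ∈ ball z (l β) ∧ H ξ ∧ x ∈ Sh ∧ Sh ⊆ ball z (l β / 2) ∧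
      ∀ ξ' ∈ thickening (32 * l β / 2 ^ p) Sh, s * X ξ' (32 * l β / 2 ^ p) ≤ X ξ' (8 * l β)) :
    S.card ≤ n' + 1 := by
  rcases S.eq_empty_or_nonempty with rfl | hne
  · simp
  have h0 := S.min'_mem hne
  have hmin : ∀ β ∈ S.erase (S.min' hne), S.min' hne < β := fun β hβ =>
    lt_of_le_of_ne (S.min'_le β (Finset.mem_of_mem_erase hβ)) (Finset.ne_of_mem_erase hβ).symm
  generalize S.min' hne = β₀ at h0 hmin
  obtain ⟨a1, -, z, ξ, Sh, a2, a3, a4, a5, a6, -⟩ := hS β₀ h0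
  have hξ : ‖ξ‖ ≤ 2 := by
    have := norm_sub_norm_le ξ z
    rw [mem_ball_iff_norm] at a3
    linarith only [a1, a2, a3, this]
  have hd : dist ξ x < 2 * l β₀ := by
    have h1 := dist_triangle_right ξ x z
    have h2 := mem_ball.1 (a6 a5)
    have h3 := mem_ball.1 a3
    have h4 := dist_nonneg (x := ξ) (y := z)
    linarith only [h1, h2, h3, h4]
  have key := hjc ξ hξ a4 (S.erase β₀) (fun β => i₀ + β * (p + 3) + 5 - p)
    (fun β => i₀ + β * (p + 3) + 3) (fun β hβ => ?_) (fun β _ β' _ h => ?_)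
  · rw [← Finset.card_erase_add_one h0]
    omega
  · obtain ⟨-, b1, z', ξ', Sh', -, -, -, b5, -, b7⟩ := hS β (Finset.mem_of_mem_erase hβ)
    have e1 : 32 * l β / 2 ^ p = r * 2 ^ (i₀ + β * (p + 3) + 5 - p) := by
      rw [div_eq_iff (by positivity), hl, mul_assoc r, ← pow_add,
        show i₀ + β * (p + 3) + 5 - p + p = i₀ + β * (p + 3) + 5 by omega]
      ring
    have e2 : 8 * l β = r * 2 ^ (i₀ + β * (p + 3) + 3) := by rw [hl]; ring
    refine ⟨by omega, b1, ?_⟩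
    rw [← e1, ← e2]
    refine b7 ξ (mem_thickening_iff.2 ⟨x, b5, hd.trans_le ?_⟩)
    have h1 : (β₀ + 1) * (p + 3) ≤ β * (p + 3) := Nat.mul_le_mul_right _ (hmin β hβ)
    rw [e1, hl, show 2 * (r * 2 ^ (i₀ + β₀ * (p + 3))) = r * 2 ^ (i₀ + β₀ * (p + 3) + 1) by ring]
    rw [add_mul, one_mul] at h1
    exact mul_le_mul_of_nonneg_left (pow_le_pow_right₀ one_le_two (by omega)) hr.le
  · have h1 : (β + 1) * (p + 3) ≤ β' * (p + 3) := Nat.mul_le_mul_right _ h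
    rw [add_mul, one_mul] at h1
    omega

/-- the overlap inside one block -/
theorem KLf_one {Cl L l : ℝ} {ω₀ : E m → ℝ} (hω : Wt ω₀ L (ball 0 1)) (hL : 0 ≤ L) (hl : 0 < l)
    (hLl : L * (l / 2) ≤ 1 / L ^ 2)
    (hC : ∀ (J : Finset (Fin m → ℤ)) (x : E m) (R : ℝ), l / 4 ≤ R →
      ((J.filter fun j => ‖x - lc (l / 4) j‖ ≤ R).card : ℝ) ≤ Cl * (R / (l / 4)) ^ m)
    (J : Finset (Fin m → ℤ)) (w : (Fin m → ℤ) → ℝ) (Sh : (Fin m → ℤ) → Set (E m))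
    (h : ∀ j ∈ J, w j ≤ ω₀ (lc (l / 4) j) + 1 / L ^ 2 ∧ Sh j ⊆ ball (lc (l / 4) j) (l / 2))
    (x : E m) : ∑ j ∈ J, (Sh j).indicator (fun _ => w j) x ≤ Cl * 2 ^ m * (ω₀ x + 2 / L ^ 2) := by
  classical
  have h0 : 0 ≤ ω₀ x + 2 / L ^ 2 := add_nonneg (hω.nonneg x) (by positivity)
  have h1 := hC J x (l / 2) (by linarith only [hl])
  rw [show l / 2 / (l / 4) = 2 by field_simp; norm_num] at h1
  refine le_trans ?_ (mul_le_mul_of_nonneg_right h1 h0)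
  rw [← nsmul_eq_mul, ← Finset.sum_const, Finset.sum_filter]
  refine Finset.sum_le_sum fun j hj => ?_
  by_cases hx : x ∈ Sh j
  · have h2 := (mem_ball_iff_norm.1 ((h j hj).2 hx)).le
    have h3 := hω.lip (lc (l / 4) j) x
    rw [norm_sub_rev (lc (l / 4) j), Real.norm_eq_abs] at h3
    have h4 := mul_le_mul_of_nonneg_left h2 hL
    have h5 := (abs_le.1 h3).2
    have h6 : 2 / L ^ 2 = 1 / L ^ 2 + 1 / L ^ 2 := by ring
    rw [indicator_of_mem hx, if_pos h2]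
    linarith only [hLl, h4, h5, h6, (h j hj).1]
  · rw [indicator_of_notMem hx]
    split_ifs
    · exact h0
    · exact le_rfl

/-- the final computation -/
theorem KLf_arith {Y C CB CU C2 M L Λ g nb τ R1 R2 D B U S1 S2 : ℝ} (hC : 1 ≤ C) (hCB : 1 ≤ CB)
    (hCU : 1 ≤ CU) (hC2 : 1 ≤ C2) (hM : 1 ≤ M) (hg : 1 ≤ g) (hΛ : 40 * g ^ 2 ≤ Λ) (hL : Λ ^ 2 ≤ L)
    (hnb : L ≤ 40 * g * nb) (hτ : 0 < τ) (hR1 : 0 ≤ R1) (hR2 : 0 ≤ R2) (hD : 0 ≤ D)
    (hB : B ≤ CB * g * D) (hU : U ≤ CU * τ ^ 2 * D) (hS1 : S1 ≤ C2 * M * (g / L + 2 / L ^ 2) * D)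
    (hS2 : S2 ≤ M * 3 * R2)
    (h : -(C * (nb * (R1 + D / (L * Λ)) + g / Λ ^ 6 * B + g / (Λ ^ 9 * τ ^ 2) * U +
      (S1 + Λ ^ 7 * S2))) ≤ nb * Y) :
    -(C * (1 + CB + CU + 3 * (C2 * M)) * (R1 + Λ ^ 8 / L * R2 + D / (L * Λ))) ≤ Y := by
  have g1 : 1 ≤ g ^ 2 := one_le_pow₀ hg
  have g2 : g ≤ g ^ 2 := by nlinarith only [g1, hg]
  have l1 : 40 ≤ Λ := by linarith only [hΛ, g1]
  have l0 : 0 < Λ := by linarith only [hΛ, g1]
  have l2 : Λ ≤ L := by nlinarith only [g1, hΛ, hL]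
  have L0 : 0 < L := by linarith only [hΛ, g1, l2]
  have n0 : 0 < nb := by
    by_contra hc
    have : 40 * g * nb ≤ 0 := mul_nonpos_of_nonneg_of_nonpos (by linarith only [hg]) (not_lt.1 hc)
    linarith only [hΛ, hnb, g1, l2, this]
  have hE : 0 ≤ D / (L * Λ) := by positivity
  have hF : 0 ≤ Λ ^ 8 / L * R2 := by positivity
  have hM2 : M ≤ C2 * M := le_mul_of_one_le_left (by linarith only [hM]) hC2
  -- the basic comparison
  have k0 : 1 / (40 * g * Λ) ≤ nb / (L * Λ) := by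
    rw [div_le_div_iff₀ (by positivity) (by positivity)]
    nlinarith only [hnb, hΛ]
  have k1 : ∀ t : ℝ, t ≤ 1 / (40 * g * Λ) → t * D ≤ nb * (D / (L * Λ)) := fun t ht => by
    rw [show nb * (D / (L * Λ)) = nb / (L * Λ) * D by ring]
    exact mul_le_mul_of_nonneg_right (ht.trans k0) hD
  have p2 : 40 * g * Λ ≤ Λ ^ 2 := by nlinarith only [hg, hΛ]
  have b1 : g / Λ ^ 6 * B ≤ CB * (nb * (D / (L * Λ))) := by
    have h1 : g ^ 2 / Λ ^ 6 ≤ 1 / (40 * g * Λ) := by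
      rw [div_le_div_iff₀ (by positivity) (by positivity), one_mul]
      calc g ^ 2 * (40 * g * Λ) ≤ Λ * Λ ^ 2 := by gcongr; linarith only [hΛ, g1]
        _ = Λ ^ 3 := by ring
        _ ≤ Λ ^ 6 := pow_le_pow_right₀ (by linarith only [hΛ, g1]) (by norm_num)
    calc g / Λ ^ 6 * B ≤ g / Λ ^ 6 * (CB * g * D) := by gcongr
      _ = CB * (g ^ 2 / Λ ^ 6 * D) := by ring
      _ ≤ _ := mul_le_mul_of_nonneg_left (k1 _ h1) (by linarith only [hCB])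
  have b2 : g / (Λ ^ 9 * τ ^ 2) * U ≤ CU * (nb * (D / (L * Λ))) := by
    have h1 : g / Λ ^ 9 ≤ 1 / (40 * g * Λ) := by
      rw [div_le_div_iff₀ (by positivity) (by positivity), one_mul]
      calc g * (40 * g * Λ) ≤ Λ * Λ ^ 2 := by gcongr; linarith only [hΛ, g1, g2]
        _ = Λ ^ 3 := by ring
        _ ≤ Λ ^ 9 := pow_le_pow_right₀ (by linarith only [hΛ, g1]) (by norm_num)
    calc g / (Λ ^ 9 * τ ^ 2) * U ≤ g / (Λ ^ 9 * τ ^ 2) * (CU * τ ^ 2 * D) := by gcongr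
      _ = CU * (g / Λ ^ 9 * D) := by field_simp
      _ ≤ _ := mul_le_mul_of_nonneg_left (k1 _ h1) (by linarith only [hCU])
  have b3 : S1 ≤ 2 * (C2 * M) * (nb * (D / (L * Λ))) := by
    have h1 : g / L ≤ 1 / (40 * g * Λ) := by
      rw [div_le_div_iff₀ (by positivity) (by positivity), one_mul]
      nlinarith only [hL, hΛ]
    have h2 : 2 / L ^ 2 ≤ g / L := by
      rw [div_le_div_iff₀ (by positivity) (by positivity)]
      have : 2 ≤ g * L := by nlinarith only [hΛ, hL, g1, p2, hg]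
      nlinarith only [hg, hΛ, g1, p2, hL, l2, this]
    calc S1 ≤ C2 * M * (g / L + 2 / L ^ 2) * D := hS1
      _ ≤ C2 * M * (g / L + g / L) * D := by gcongr
      _ = 2 * (C2 * M) * (g / L * D) := by ring
      _ ≤ _ := mul_le_mul_of_nonneg_left (k1 _ h1) (by linarith only [hM, hM2])
  have b4 : Λ ^ 7 * S2 ≤ 3 * (C2 * M) * (nb * (Λ ^ 8 / L * R2)) := by
    have h1 : 1 ≤ nb * (Λ / L) := by
      rw [← mul_div_assoc, one_le_div L0]
      nlinarith only [hnb, hg, hL, hΛ, n0]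
    calc Λ ^ 7 * S2 ≤ Λ ^ 7 * (M * 3 * R2) := by gcongr
      _ = 3 * M * (1 * (Λ ^ 7 * R2)) := by ring
      _ ≤ 3 * (C2 * M) * (nb * (Λ / L) * (Λ ^ 7 * R2)) := by gcongr
      _ = _ := by ring
  refine le_of_mul_le_mul_left (le_trans ?_ h) n0
  have hK : 0 ≤ C2 * M := by linarith only [hM, hM2]
  generalize C2 * M = K at b3 b4 hK
  generalize D / (L * Λ) = E1 at *
  generalize Λ ^ 8 / L * R2 = E2 at *
  have t1 : 0 ≤ nb * R1 := by positivity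
  have t2 : 0 ≤ nb * E1 := by positivity
  have t3 : 0 ≤ nb * E2 := by positivity
  have main : nb * (R1 + E1) + g / Λ ^ 6 * B + g / (Λ ^ 9 * τ ^ 2) * U + (S1 + Λ ^ 7 * S2) ≤
      (1 + CB + CU + 3 * K) * (nb * R1 + nb * E2 + nb * E1) := by
    have u1 : 0 ≤ (CB + CU + 3 * K) * (nb * R1) := by positivity
    have u2 : 0 ≤ (1 + CB + CU) * (nb * E2) := by positivity
    have u3 : 0 ≤ K * (nb * E1) := by positivity
    linarith only [b1, b2, b3, b4, u1, u2, u3]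
  have := mul_le_mul_of_nonneg_left main (by linarith only [hC] : 0 ≤ C)
  linarith only [this]

/-- If `Y ω₀ > 0` there is nothing to prove, and if the first pair energy is more than
`log L / L * DS univ` use `crude`. Otherwise let `r = C₀ τ`, `p = pL k L`, `i₀` the least index with
`τ ≤ (r 2 ^ i₀) ^ 4` (so `p ≤ i₀` and `r 2 ^ i₀ ≤ 2 τ ^ (1 / 4)`), `I` the largest index with
`(r 2 ^ I) ^ 16 ≤ τ`, `nb = ⌊L / (20 (p + 3))⌋ ≥ L / (40 log L)`, and apply `block` with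
`i β = i₀ + β (p + 3)` for `β < nb`. Add the inequalities and use `bb_budget`, `UU_budget`.
Overlap: let `x` be in a shell for each `β ∈ S`, `β₀` the least element and `ξ` the point `Hp` of
the corresponding ball. For the other `β`, `‖x - ξ‖ < 3 l β₀ / 2 ≤ 32 l β / 2 ^ p`, so `jump` and
`jump_count` with `u β = i β + 5 - p`, `v β = i β + 3` bound the number of elements of `S`; with
`lattice_bd`, `∑ 1_{Sh β j} x * w β j ≤ C (ω₀ x + 2 / L²)`. Then `two_sided` for the index set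
`Σ β, J β`, and `RS_eq`, `sum_overlap`. -/
theorem Flat.KL (k : ℕ) (hk : 1 ≤ k) (N Q : ℕ) (A : ℝ) : ∃ C τ₀ : ℝ, 1 ≤ C ∧ 0 < τ₀ ∧
    ∀ (F : Flat (k + 2) N Q A) (L : ℝ) (ω₀ : E (k + 2) → ℝ), F.τ ≤ τ₀ → L = Real.log F.τ⁻¹ →
    Wt ω₀ L (ball 0 1) →
    -(C * (F.RS (F.τ / L ^ 2) F.τ univ + Lam k L ^ 8 / L * F.RS (F.τ / Lam k L ^ 10) F.τ univ +
      F.DS univ / (L * Lam k L))) ≤ F.Y ω₀ := by
  classical
  obtain ⟨c, C, C₀, τ₁, n, n', hc, hC, hC₀, hτ₁, hblock⟩ := Flat.block k hk N Q A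
  obtain ⟨τ₂, n'', hτ₂, hjc⟩ := Flat.jump_count (k + 2) (by omega) Q A c C₀ hc hC₀ n
  obtain ⟨CB, τ₃, hCB, hτ₃, hbb⟩ := Flat.bb_budget k Q A n'
  obtain ⟨CU, τ₄, hCU, hτ₄, hUU⟩ := Flat.UU_budget k Q A
  obtain ⟨C2, τ₅, hC2, hτ₅, hts⟩ := Flat.two_sided (k + 2) (by omega) Q A
  obtain ⟨Cc, τ₆, hCc, hτ₆, hcr⟩ := Flat.crude (k + 2) (by omega) Q A
  obtain ⟨Cl, hCl, hlat⟩ := lattice_bd (k + 2)
  obtain ⟨L₀, hL₀, hLam⟩ := Lam_bd k 40
  obtain ⟨M, hM⟩ : ∃ M : ℝ, M = ((n'' : ℝ) + 1) * (Cl * 2 ^ (k + 2)) := ⟨_, rfl⟩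
  have hM1 : 1 ≤ M := by
    rw [hM]
    exact one_le_mul_of_one_le_of_one_le (by linarith only [Nat.cast_nonneg (α := ℝ) n''])
      (one_le_mul_of_one_le_of_one_le hCl (one_le_pow₀ one_le_two))
  have hK : 1 ≤ C * (1 + CB + CU + 3 * (C2 * M)) :=
    one_le_mul_of_one_le_of_one_le hC (by nlinarith only [hCB, hCU, hC2, hM1])
  refine ⟨max (C * (1 + CB + CU + 3 * (C2 * M))) (2 * Cc),
    min (min (min τ₁ τ₂) (min τ₃ τ₄)) (min (min τ₅ τ₆)
      (Real.exp (-max L₀ (10 ^ 24 * C₀ ^ 16 * 2 ^ 25 * (Nat.factorial 25))))),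
    le_max_of_le_left hK, by positivity, fun F L ω₀ hτ hL hω => ?_⟩
  simp only [le_min_iff] at hτ
  obtain ⟨⟨⟨t1, t2⟩, t3, t4⟩, ⟨t5, t6⟩, t7⟩ := hτ
  have h0 := F.τ_pos
  have hLL := Crude_L h0 t7
  rw [← hL, max_le_iff] at hLL
  obtain ⟨-, l2, l3, -, l5, l6, l7, -, -, -, l11⟩ := hLam L hLL.1
  have hL1 : 1 ≤ L := hL₀.trans hLL.1
  have hL0 : 0 < L := by linarith only [hL₀, hLL]
  have hexp := KLf_exp _ L hL1 hLL.2
  have hexp' : 10 ^ 24 * L ^ 24 ≤ Real.exp (L / 2) := by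
    refine le_trans (mul_le_mul_of_nonneg_right ?_ (by positivity)) hexp
    exact le_mul_of_one_le_right (by norm_num) (one_le_pow₀ hC₀)
  have hτL := Crude_tau h0 hL
  have hP : 20 * k + 65 ≤ P0 k := by
    have : k + 4 ≤ (k + 4) ^ 3 := Nat.le_self_pow (by norm_num) _
    unfold P0
    omega
  have hΛ1 : 1 ≤ Lam k L := by linarith only [l2]
  have hΛ0 : 0 < Lam k L := by linarith only [l2]
  have hΛ2 : Lam k L ^ 2 ≤ L := (pow_le_pow_right₀ hΛ1 (by omega)).trans l3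
  have hp : (2 : ℝ) ^ pL k L ≤ L := by
    rw [l11]
    refine le_trans ?_ ((pow_le_pow_right₀ hΛ1 hP).trans l3)
    rw [show 20 * k + 65 = 5 + (20 * k + 60) by omega, pow_add _ 5]
    refine mul_le_mul_of_nonneg_right ?_ (by positivity)
    exact le_trans (by norm_num) (pow_le_pow_left₀ zero_le_two l2 5)
  have hR1 : 0 ≤ F.RS (F.τ / L ^ 2) F.τ univ :=
    (F.RS_mono (by positivity) h0 MeasurableSet.univ MeasurableSet.univ subset_rfl).1
  have hR2 : 0 ≤ F.RS (F.τ / Lam k L ^ 10) F.τ univ :=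
    (F.RS_mono (by positivity) h0 MeasurableSet.univ MeasurableSet.univ subset_rfl).1
  have hD : 0 ≤ F.DS univ := (F.DS_mono subset_rfl).1
  have hE2 : 0 ≤ Lam k L ^ 8 / L * F.RS (F.τ / Lam k L ^ 10) F.τ univ := by positivity
  have hE1 : 0 ≤ F.DS univ / (L * Lam k L) := by positivity
  have hT := add_nonneg (add_nonneg hR1 hE2) hE1
  rcases lt_or_ge 0 (F.Y ω₀) with hY | hY
  · exact (neg_nonpos.2 (mul_nonneg (zero_le_one.trans (le_max_of_le_left hK)) hT)).trans hY.le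
  rcases lt_or_ge (Real.log L / L * F.DS univ) (F.RS (F.τ / L ^ 2) F.τ univ) with hR | hR
  · refine le_trans (neg_le_neg (mul_le_mul_of_nonneg_right (le_max_right _ _) hT)) ?_
    have hz : ∀ x, 8 ≤ ‖x‖ → ω₀ x = 0 := fun x hx =>
      hω.zero x fun e => by linarith only [hx, mem_ball_zero_iff.1 e]
    have hlip : Lip (1 * F.τ ^ (-(1 / 3) : ℝ)) ω₀ := fun x x' => by
      refine (hω.lip x x').trans (mul_le_mul_of_nonneg_right ?_ (norm_nonneg _))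
      rw [one_mul, Crude_rpow h0 hL]
      have a1 := KLf_ten hL1 hexp'
      have a2 : Real.exp (L / 12) ≤ Real.exp (L / 3) := Real.exp_le_exp.2 (by linarith only [hL₀, hLL])
      linarith only [hL₀, hLL, a1, a2]
    have hcont : Continuous ω₀ :=
      (LipschitzWith.of_dist_le' (K := L) fun x y => by
        rw [dist_eq_norm, dist_eq_norm]; exact hω.lip x y).continuous
    have a1 : F.DD ω₀ ≤ 1 * F.DS univ :=
      F.Crude_DD_le (Adm.of_cont hcont hz) zero_le_one hω.le_one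
    have a2 : Real.log L / L * F.DD ω₀ ≤ Real.log L / L * F.DS univ :=
      mul_le_mul_of_nonneg_left (by linarith only [a1]) (by positivity)
    have a3 : F.DS univ / L ^ 2 ≤ F.DS univ / (L * Lam k L) := by
      refine div_le_div_of_nonneg_left hD (by positivity) ?_
      rw [sq]
      exact mul_le_mul_of_nonneg_left (by nlinarith only [l2, hΛ2]) hL0.le
    refine le_trans (neg_le_neg ?_)
      (hcr F L ω₀ 1 t6 hL one_pos (fun x => ⟨hω.nonneg x, hω.le_one x⟩) hlip hz)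
    rw [mul_comm 2 Cc, mul_assoc]
    exact mul_le_mul_of_nonneg_left (by linarith only [hE2, hE1, hR, a2, a3]) (by linarith only [hCc])
  refine le_trans (neg_le_neg (mul_le_mul_of_nonneg_right (le_max_left _ _) hT)) ?_
  obtain ⟨nb, hnb1, hnb2⟩ : ∃ nb : ℕ, (nb : ℝ) * (pL k L + 3) ≤ L / 20 ∧
      L ≤ 40 * Real.log L * nb := by
    have a0 : (0 : ℝ) < pL k L + 3 := by positivity
    have a1 := Nat.floor_le (a := L / 20 / (pL k L + 3)) (by positivity)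
    have a2 := Nat.lt_floor_add_one (L / 20 / (pL k L + 3))
    refine ⟨⌊L / 20 / (pL k L + 3)⌋₊, (le_div_iff₀ a0).1 a1, ?_⟩
    rw [div_lt_iff₀ a0] at a2
    have a3 := Nat.cast_nonneg (α := ℝ) ⌊L / 20 / (pL k L + 3)⌋₊
    generalize (⌊L / 20 / (pL k L + 3)⌋₊ : ℝ) = t at a2 a3
    have a4 : (t + 1) * (pL k L + 3) ≤ (t + 1) * Real.log L := by gcongr
    have a5 : 40 * Real.log L ≤ L := by nlinarith only [l6, l7, hΛ2, l2, l5]
    linarith only [a2, a4, a5]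
  obtain ⟨i₀, I, p1, p2, p3, p4, p5⟩ := KLf_par hC₀ hτL hL1 hexp hp hnb1
  have hr : 0 < C₀ * F.τ := by positivity
  have hl0 : 0 < C₀ * F.τ * 2 ^ i₀ := by positivity
  have hB := hbb F L ω₀ (F.τ ^ 2 / L ^ n') _ (pL k L) nb t3 hL hω hY hR le_rfl
    (div_le_self (by positivity) (one_le_pow₀ hL1)) hl0 p2 hp p3
  have hU := hUU F _ (pL k L) nb t4 hl0 p2 p3
  obtain ⟨l, hl⟩ : ∃ l : ℕ → ℝ, ∀ β, C₀ * F.τ * 2 ^ i₀ * 2 ^ (β * (pL k L + 3)) = l β :=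
    ⟨_, fun _ => rfl⟩
  simp only [hl] at hB hU
  have hl' : ∀ β, l β = C₀ * F.τ * 2 ^ (i₀ + β * (pL k L + 3)) := fun β => by
    rw [← hl, pow_add, mul_assoc]
  have hlp : ∀ β, 0 < l β := fun β => by rw [hl']; positivity
  have hl4 : ∀ β, F.τ ≤ l β ^ 4 := fun β => by
    rw [← hl]
    exact p2.trans (pow_le_pow_left₀ hl0.le
      (le_mul_of_one_le_right hl0.le (one_le_pow₀ one_le_two)) 4)
  have hl8 : ∀ β : Fin nb, l β ^ 8 ≤ F.τ := fun β => by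
    refine le_trans (pow_le_pow_left₀ (hlp β).le ?_ 8) p3
    rw [← hl]
    exact mul_le_mul_of_nonneg_left
      (pow_le_pow_right₀ one_le_two (Nat.mul_le_mul_right _ β.2.le)) hl0.le
  have hsc := fun β : Fin nb => KLf_scale hτL hL1 hexp' (hlp β) (hl4 β) (hl8 β)
  choose J w o φ Sh hJ hmain using fun β : Fin nb =>
    hblock F L (l β) ω₀ (i₀ + β * (pL k L + 3)) I t1 hL hω hY hR (hl' β) (hl4 β) (hl8 β) p4 p5
  have hov : ∀ x, ∑ q ∈ Finset.univ.sigma J, (Sh q.1 q.2).indicator (fun _ => w q.1 q.2) x ≤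
      M * (ω₀ x + 2 / L ^ 2) := by
    intro x
    have a0 : 0 ≤ Cl * 2 ^ (k + 2) * (ω₀ x + 2 / L ^ 2) :=
      mul_nonneg (by positivity) (add_nonneg (hω.nonneg x) (by positivity))
    have a1 := KLf_count (X := F.Xi) (H := F.Hp c C₀ n I) (s := √L) (n' := n'') (I := I) hr
      (by unfold pL; omega) p1 (fun ξ h1 h2 => (hjc F L I ξ t2 hL p4 p5 h1 h2).2) l hl'
      ((Finset.univ.filter fun β : Fin nb => ∃ j ∈ J β, x ∈ Sh β j).map Fin.valEmbedding) x (by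
        intro β hβ
        obtain ⟨β, hβ', rfl⟩ := Finset.mem_map.1 hβ
        obtain ⟨j, hj, hx⟩ := (Finset.mem_filter.1 hβ').2
        obtain ⟨-, -, b3, ⟨ξ, b4, b5⟩, b6⟩ := hJ β j hj
        refine ⟨(hsc β).2.2.1, ?_, _, ξ, _, b3, b4, b5, hx, b6.sub, b6.jump⟩
        by_contra hc
        have b7 : 2 * (C₀ * F.τ * 2 ^ I) ≤ 8 * l β := by
          rw [hl', show 2 * (C₀ * F.τ * 2 ^ I) = C₀ * F.τ * 2 ^ (I + 1) by ring,
            show 8 * (C₀ * F.τ * 2 ^ (i₀ + β * (pL k L + 3))) =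
              C₀ * F.τ * 2 ^ (i₀ + β * (pL k L + 3) + 3) by ring]
          exact mul_le_mul_of_nonneg_left (pow_le_pow_right₀ one_le_two (not_le.1 hc)) hr.le
        have b8 := pow_le_pow_left₀ (by positivity) b7 16
        linarith only [p5, b8, (hsc β).2.2.2])
    rw [Finset.card_map] at a1
    rw [Finset.sum_sigma, hM, mul_assoc]
    have a2 := (Nat.cast_le (α := ℝ)).2 a1
    rw [Nat.cast_add, Nat.cast_one] at a2
    refine le_trans ?_ (mul_le_mul_of_nonneg_right a2 a0)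
    rw [← nsmul_eq_mul, ← Finset.sum_const, Finset.sum_filter]
    refine Finset.sum_le_sum fun β _ => ?_
    split_ifs with hβ
    · exact KLf_one hω hL0.le (hlp β) (hsc β).2.1 (hlat _ (by linarith only [hlp β])).2 (J β) (w β)
        (Sh β) (fun j hj => ⟨(hJ β j hj).2.1, (hJ β j hj).2.2.2.2.sub⟩) x
    · refine (Finset.sum_eq_zero fun j hj => ?_).le
      exact indicator_of_notMem (fun e => hβ ⟨j, hj, e⟩) _
  have hκ : 2 / L ^ 2 ≤ 1 := by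
    rw [div_le_one (by positivity)]
    nlinarith only [l2, hΛ2, hL₀, hLL]
  have hS1 := hts F L ω₀ t5 hL hω hY hR (Finset.univ.sigma J) (fun q => φ q.1 q.2)
    (fun q => Sh q.1 q.2) (fun q => w q.1 q.2) M (2 / L ^ 2) (by linarith only [hM1]) (by positivity) hκ
    (fun q hq => by
      obtain ⟨b1, -, b3, -, b6⟩ := hJ q.1 q.2 (Finset.mem_sigma.1 hq).2
      refine ⟨b1, b6.φ_bd, fun x x' => (b6.φ_lip x x').trans
        (mul_le_mul_of_nonneg_right ?_ (norm_nonneg _)), fun x hx => ?_, b6.φ_zero⟩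
      · rw [Crude_rpow h0 hL]
        exact (hsc q.1).1
      · have b7 := mem_ball_iff_norm.1 (b6.sub hx)
        have b8 := norm_sub_norm_le x (lc (l q.1 / 4) q.2)
        rw [mem_ball_zero_iff]
        linarith only [b3, b7, b8, (hsc q.1).2.2.1]) hov
  have hg : 0 < F.τ / Lam k L ^ 10 := by positivity
  obtain ⟨-, i1, i2⟩ := F.lpe_bd hg h0
  have hmeas : ∀ q ∈ Finset.univ.sigma J, MeasurableSet (Sh q.1 q.2) := fun q hq =>
    (hJ q.1 q.2 (Finset.mem_sigma.1 hq).2).2.2.2.2.isOpen.measurableSet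
  have hS2 : ∑ q ∈ Finset.univ.sigma J, w q.1 q.2 * F.RS (F.τ / Lam k L ^ 10) F.τ (Sh q.1 q.2) ≤
      M * 3 * F.RS (F.τ / Lam k L ^ 10) F.τ univ := by
    rw [Finset.sum_congr rfl fun q hq => by rw [F.RS_eq hg h0 (hmeas q hq)],
      F.RS_eq hg h0 MeasurableSet.univ, preimage_univ, Measure.restrict_univ]
    exact F.sum_overlap i1 i2 _ hmeas fun x => (hov x).trans
      (mul_le_mul_of_nonneg_left (by linarith only [hκ, hω.le_one x]) (by linarith only [hM1]))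
  refine KLf_arith hC hCB hCU hC2 hM1 l5 l6 hΛ2 hnb2 h0 hR1 hR2 hD hB hU hS1 hS2 ?_
  have hsum := Finset.sum_le_sum fun β (_ : β ∈ Finset.univ) => hmain β
  rw [Finset.sum_const, Finset.card_univ, Fintype.card_fin, nsmul_eq_mul] at hsum
  refine le_trans (le_of_eq ?_) hsum
  rw [Finset.sum_neg_distrib, ← Finset.mul_sum, Finset.sum_add_distrib, Finset.sum_add_distrib,
    Finset.sum_add_distrib, Finset.sum_const, Finset.card_univ, Fintype.card_fin, nsmul_eq_mul,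
    ← Finset.mul_sum, ← Finset.mul_sum, Finset.sum_range, Finset.sum_range]
  congr 3
  rw [Finset.mul_sum, ← Finset.sum_add_distrib, Finset.sum_sigma]
  refine Finset.sum_congr rfl fun β _ => Finset.sum_congr rfl fun j _ => ?_
  ring

end Pool.Agent.MP_f6c0e6_an.Gen

end
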