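import Pool.Agent.MP_f6c0e6_an.All.PairA
import Pool.Agent.MP_f6c0e6_an.All.Stat
import Pool.Agent.MP_f6c0e6_an.All.ChartC
import Pool.Agent.MP_f6c0e6_an.All.BaseA

section

/-! The identity for the pair energy. -/

set_option autoImplicit false

open MeasureTheory Filter Topology Set Metric
open scoped ENNReal RealInnerProductSpace

namespace Pool.Agent.MP_f6c0e6_an.Gen

variable {m N : ℕ}

/-- the component of `v` normal to the frame at `y` -/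
noncomputable def Fr.nrm (fr : Fr m N) (y v : E N) : E N := v - ∑ l, ⟪fr.s l y, v⟫ • fr.s l y

/-- the main term of the identity -/
noncomputable def pairMain (fr : Fr m N) (ι : E m →ₗᵢ[ℝ] E N) (g r : ℝ) (ϖ : E N → ℝ)
    (y y' : E N) : ℝ :=
  rho r (pr ι (y - y')) * ∑ l, fderiv ℝ ϖ y (fr.s l y) *
    ⟪fr.nrm y' (fr.s l y), Ph1 g (vt ι (y - y'))⟫

/-! ### Pointwise algebra -/

/-- the divergence of a vertical field -/
noncomputable def PairB_TV (ι : E m →ₗᵢ[ℝ] E N) (g f0 : ℝ) (f1 : Fin m → ℝ) (ρ0 : ℝ)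
    (ρ1 : E m →L[ℝ] ℝ) (w : E N) (s : Fin m → E N) : ℝ :=
  ∑ l, (f1 l * ρ0 * ⟪vt ι (s l), Ph1 g w⟫ + f0 * ρ1 (pr ι (s l)) * ⟪vt ι (s l), Ph1 g w⟫ +
    f0 * ρ0 * Ph2 g w (vt ι (s l)) (vt ι (s l)))

/-- the divergence of a horizontal field -/
noncomputable def PairB_TH (ι : E m →ₗᵢ[ℝ] E N) (g f0 : ℝ) (f1 : Fin m → ℝ) (ρ0 : ℝ)
    (ρ1 : E m →L[ℝ] ℝ) (w : E N) (s s' : Fin m → E N) : ℝ :=
  ∑ l, ∑ l', (f1 l * ρ0 * ⟪vt ι (s' l'), Ph1 g w⟫ +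
    f0 * ρ1 (pr ι (s l)) * ⟪vt ι (s' l'), Ph1 g w⟫ +
    f0 * ρ0 * Ph2 g w (vt ι (s' l')) (vt ι (s l))) * ⟪pr ι (s l), pr ι (s' l')⟫

/-- the error of the first kind -/
noncomputable def PairB_E1 (ι : E m →ₗᵢ[ℝ] E N) (ρ1 : E m →L[ℝ] ℝ) (Φ : E N)
    (s s' : Fin m → E N) : ℝ :=
  ∑ l, ⟪vt ι (s l), Φ⟫ * (ρ1 (pr ι (s l)) - ∑ l', ρ1 (pr ι (s' l')) * ⟪pr ι (s' l'), pr ι (s l)⟫)

/-- the error of the second kind -/
noncomputable def PairB_E3 (ι : E m →ₗᵢ[ℝ] E N) (f1 : Fin m → ℝ) (Φ : E N)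
    (s s' : Fin m → E N) : ℝ :=
  ∑ l, f1 l * ∑ l', ⟪vt ι (s' l'), vt ι (s l)⟫ * ⟪vt ι (s' l'), Φ⟫

theorem PairB_vert (ι : E m →ₗᵢ[ℝ] E N) {Φ : E N} (h : pr ι Φ = 0) (u : E N) :
    ⟪u, Φ⟫ = ⟪vt ι u, Φ⟫ := by
  rw [(inner_vt ι u Φ).1, vt_of_pr ι h]

theorem PairB_pr_Ph1 (ι : E m →ₗᵢ[ℝ] E N) (g : ℝ) {w : E N} (h : pr ι w = 0) :
    pr ι (Ph1 g w) = 0 := by
  rw [Ph1, map_smul, h, smul_zero]

theorem PairB_nrm (ι : E m →ₗᵢ[ℝ] E N) {Φ : E N} (h : pr ι Φ = 0) (u : E N)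
    (s' : Fin m → E N) : ⟪u - ∑ l', ⟪s' l', u⟫ • s' l', Φ⟫ = ⟪vt ι u, Φ⟫ -
      ∑ l', ⟪pr ι u, pr ι (s' l')⟫ * ⟪vt ι (s' l'), Φ⟫ -
      ∑ l', ⟪vt ι (s' l'), vt ι u⟫ * ⟪vt ι (s' l'), Φ⟫ := by
  rw [inner_sub_left, sum_inner, PairB_vert ι h u, sub_sub, ← Finset.sum_add_distrib]
  congr 1
  refine Finset.sum_congr rfl fun l' _ => ?_
  rw [real_inner_smul_left, (inner_vt ι (s' l') u).2, PairB_vert ι h (s' l'),
    real_inner_comm (pr ι u)]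
  ring

theorem PairB_alg (ι : E m →ₗᵢ[ℝ] E N) (g f0 : ℝ) (f1 : Fin m → ℝ) (ρ0 : ℝ)
    (ρ1 : E m →L[ℝ] ℝ) {w : E N} (hw : pr ι w = 0) (s s' : Fin m → E N) :
    f0 * ρ0 * (peh ι g w s s' + peh ι g w s' s) +
      ρ0 * ∑ l, f1 l * ⟪s l - ∑ l', ⟪s' l', s l⟫ • s' l', Ph1 g w⟫ -
      (PairB_TV ι g f0 f1 ρ0 ρ1 w s - PairB_TH ι g f0 0 ρ0 ρ1 w s' s +
        PairB_TV ι g f0 0 ρ0 ρ1 w s' - PairB_TH ι g f0 f1 ρ0 ρ1 w s s') =
      -(f0 * PairB_E1 ι ρ1 (Ph1 g w) s s' + f0 * PairB_E1 ι ρ1 (Ph1 g w) s' s +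
        ρ0 * PairB_E3 ι f1 (Ph1 g w) s s') := by
  have hΦ := PairB_pr_Ph1 ι g hw
  simp only [PairB_nrm ι hΦ]
  have c1 : ∑ l', ∑ l, f0 * ρ0 * Ph2 g w (vt ι (s l)) (vt ι (s' l')) * ⟪pr ι (s' l'), pr ι (s l)⟫ =
      f0 * ρ0 * ∑ l, ∑ l', ⟪pr ι (s l), pr ι (s' l')⟫ * Ph2 g w (vt ι (s l)) (vt ι (s' l')) := by
    rw [Finset.sum_comm, Finset.mul_sum]
    refine Finset.sum_congr rfl fun l _ => ?_
    rw [Finset.mul_sum]
    refine Finset.sum_congr rfl fun l' _ => ?_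
    rw [real_inner_comm]
    ring
  have c2 : ∑ l, ∑ l', f0 * ρ0 * Ph2 g w (vt ι (s' l')) (vt ι (s l)) * ⟪pr ι (s l), pr ι (s' l')⟫ =
      f0 * ρ0 * ∑ l', ∑ l, ⟪pr ι (s' l'), pr ι (s l)⟫ * Ph2 g w (vt ι (s' l')) (vt ι (s l)) := by
    rw [Finset.sum_comm, Finset.mul_sum]
    refine Finset.sum_congr rfl fun l _ => ?_
    rw [Finset.mul_sum]
    refine Finset.sum_congr rfl fun l' _ => ?_
    rw [real_inner_comm]
    ring
  have c3 : ∀ s s' : Fin m → E N, ∑ l', ∑ l, f0 * ρ1 (pr ι (s' l')) * ⟪vt ι (s l), Ph1 g w⟫ *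
      ⟪pr ι (s' l'), pr ι (s l)⟫ = ∑ l, f0 * ρ1 (pr ι (s l)) * ⟪vt ι (s l), Ph1 g w⟫ -
        f0 * PairB_E1 ι ρ1 (Ph1 g w) s s' := by
    intro s s'
    rw [Finset.sum_comm, PairB_E1, Finset.mul_sum, ← Finset.sum_sub_distrib]
    refine Finset.sum_congr rfl fun l _ => ?_
    rw [mul_sub, mul_sub, Finset.mul_sum, Finset.mul_sum]
    have : ∀ l', f0 * ρ1 (pr ι (s' l')) * ⟪vt ι (s l), Ph1 g w⟫ * ⟪pr ι (s' l'), pr ι (s l)⟫ =
        f0 * (⟪vt ι (s l), Ph1 g w⟫ * (ρ1 (pr ι (s' l')) * ⟪pr ι (s' l'), pr ι (s l)⟫)) :=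
      fun l' => by ring
    simp only [this]
    ring
  have c4 : ρ0 * ∑ l, f1 l * (⟪vt ι (s l), Ph1 g w⟫ -
      ∑ l', ⟪pr ι (s l), pr ι (s' l')⟫ * ⟪vt ι (s' l'), Ph1 g w⟫ -
      ∑ l', ⟪vt ι (s' l'), vt ι (s l)⟫ * ⟪vt ι (s' l'), Ph1 g w⟫) =
      ∑ l, f1 l * ρ0 * ⟪vt ι (s l), Ph1 g w⟫ -
      ∑ l, ∑ l', f1 l * ρ0 * ⟪vt ι (s' l'), Ph1 g w⟫ * ⟪pr ι (s l), pr ι (s' l')⟫ -
      ρ0 * PairB_E3 ι f1 (Ph1 g w) s s' := by
    rw [PairB_E3, Finset.mul_sum, Finset.mul_sum, ← Finset.sum_sub_distrib,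
      ← Finset.sum_sub_distrib]
    refine Finset.sum_congr rfl fun l _ => ?_
    have : ∑ l', f1 l * ρ0 * ⟪vt ι (s' l'), Ph1 g w⟫ * ⟪pr ι (s l), pr ι (s' l')⟫ =
        f1 l * ρ0 * ∑ l', ⟪pr ι (s l), pr ι (s' l')⟫ * ⟪vt ι (s' l'), Ph1 g w⟫ := by
      rw [Finset.mul_sum]
      exact Finset.sum_congr rfl fun l' _ => by ring
    rw [this]
    ring
  have c5 : ∀ s : Fin m → E N, ∑ l, f0 * ρ0 * Ph2 g w (vt ι (s l)) (vt ι (s l)) =
      f0 * ρ0 * ∑ l, Ph2 g w (vt ι (s l)) (vt ι (s l)) := fun s => (Finset.mul_sum _ _ _).symm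
  rw [c4]
  simp only [PairB_TV, PairB_TH, peh, Pi.zero_apply, zero_mul, zero_add, add_mul,
    Finset.sum_add_distrib, c1, c2, c3, c5]
  ring

theorem PairB_vt_le (ι : E m →ₗᵢ[ℝ] E N) (s : Fin m → E N) (l : Fin m) :
    ‖vt ι (s l)‖ ≤ √(tlt ι s) :=
  Real.le_sqrt_of_sq_le (Finset.single_le_sum (f := fun l => ‖vt ι (s l)‖ ^ 2)
    (fun _ _ => sq_nonneg _) (Finset.mem_univ l))

theorem PairB_E1_le (ι : E m →ₗᵢ[ℝ] E N) (ρ1 : E m →L[ℝ] ℝ) {Φ : E N} {g : ℝ} (hΦ : ‖Φ‖ ≤ g)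
    {s s' : Fin m → E N} (hs : Orthonormal ℝ s) (hs' : Orthonormal ℝ s') :
    |PairB_E1 ι ρ1 Φ s s'| ≤ m * (√(tlt ι s) * g * (tlt ι s' * ‖ρ1‖)) := by
  have hg : 0 ≤ g := (norm_nonneg _).trans hΦ
  refine (Finset.abs_sum_le_sum_abs _ _).trans ((Finset.sum_le_sum
    (g := fun _ => √(tlt ι s) * g * (tlt ι s' * ‖ρ1‖)) fun l _ => ?_).trans (by simp))
  set G := (InnerProductSpace.toDual ℝ (E m)).symm ρ1 with hG
  have h1 : ∀ u, ρ1 u = ⟪G, u⟫ := fun u => by rw [hG, InnerProductSpace.toDual_symm_apply]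
  have h2 : ‖G‖ = ‖ρ1‖ := by rw [hG, LinearIsometryEquiv.norm_map]
  have h3 : ρ1 (pr ι (s l)) - ∑ l', ρ1 (pr ι (s' l')) * ⟪pr ι (s' l'), pr ι (s l)⟫ =
      NF ι s' G (pr ι (s l)) := by
    simp only [h1, NF, real_inner_comm G]
  have h4 : ‖pr ι (s l)‖ ≤ 1 := (norm_pr_le ι (s l)).1.trans (hs.1 l).le
  have h5 := (NF_bd ι hs' G (pr ι (s l))).2.2.2.1
  have h6 := (tlt_bd ι hs').1
  rw [abs_mul, h3]
  refine mul_le_mul ((abs_real_inner_le_norm _ _).trans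
    (mul_le_mul (PairB_vt_le ι s l) hΦ (norm_nonneg _) (Real.sqrt_nonneg _))) (h5.trans ?_)
    (abs_nonneg _) (by positivity)
  rw [h2]
  exact mul_le_of_le_one_right (by positivity) h4

theorem PairB_E3_le (ι : E m →ₗᵢ[ℝ] E N) {f1 : Fin m → ℝ} {D : ℝ} (hD : ∀ l, |f1 l| ≤ D)
    {Φ : E N} {g : ℝ} (hΦ : ‖Φ‖ ≤ g) (s s' : Fin m → E N) :
    |PairB_E3 ι f1 Φ s s'| ≤ m * (D * (√(tlt ι s) * g * tlt ι s')) := by
  have hg : 0 ≤ g := (norm_nonneg _).trans hΦ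
  refine (Finset.abs_sum_le_sum_abs _ _).trans ((Finset.sum_le_sum
    (g := fun _ => D * (√(tlt ι s) * g * tlt ι s')) fun l _ => ?_).trans (by simp))
  rw [abs_mul]
  refine mul_le_mul (hD l) ?_ (abs_nonneg _) ((abs_nonneg _).trans (hD l))
  rw [tlt.eq_def ι s', Finset.mul_sum]
  refine (Finset.abs_sum_le_sum_abs _ _).trans (Finset.sum_le_sum fun l' _ => ?_)
  rw [abs_mul]
  calc _ ≤ (‖vt ι (s' l')‖ * √(tlt ι s)) * (‖vt ι (s' l')‖ * g) :=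
        mul_le_mul ((abs_real_inner_le_norm _ _).trans
          (mul_le_mul_of_nonneg_left (PairB_vt_le ι s l) (norm_nonneg _)))
          ((abs_real_inner_le_norm _ _).trans (mul_le_mul_of_nonneg_left hΦ (norm_nonneg _)))
          (abs_nonneg _) (by positivity)
    _ = _ := by ring

theorem PairB_cube {d d' : ℝ} (hd : 0 ≤ d) (hd' : 0 ≤ d') : √d * d' ≤ √(d + d') ^ 3 := by
  have h1 : √d ≤ √(d + d') := Real.sqrt_le_sqrt (by linarith)
  have h2 : √(d + d') ^ 2 = d + d' := Real.sq_sqrt (by linarith)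
  calc √d * d' ≤ √(d + d') * √(d + d') ^ 2 :=
        mul_le_mul h1 (by linarith) hd' (Real.sqrt_nonneg _)
    _ = _ := by ring

theorem PairB_err (ι : E m →ₗᵢ[ℝ] E N) {g : ℝ} (hg : 0 < g) (f0 : ℝ) {f1 : Fin m → ℝ} {D : ℝ}
    (hD0 : 0 ≤ D) (hD : ∀ l, |f1 l| ≤ D) (ρ0 : ℝ) (ρ1 : E m →L[ℝ] ℝ) {w : E N} (hw : pr ι w = 0)
    {s s' : Fin m → E N} (hs : Orthonormal ℝ s) (hs' : Orthonormal ℝ s') :
    |f0 * ρ0 * (peh ι g w s s' + peh ι g w s' s) +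
      ρ0 * ∑ l, f1 l * ⟪s l - ∑ l', ⟪s' l', s l⟫ • s' l', Ph1 g w⟫ -
      (PairB_TV ι g f0 f1 ρ0 ρ1 w s - PairB_TH ι g f0 0 ρ0 ρ1 w s' s +
        PairB_TV ι g f0 0 ρ0 ρ1 w s' - PairB_TH ι g f0 f1 ρ0 ρ1 w s s')| ≤
      m * g * (2 * (|f0| * ‖ρ1‖) + D * |ρ0|) * √(tlt ι s + tlt ι s') ^ 3 := by
  have hΦ := (Ph1_bd (N := N) hg).1 w
  have e1 := PairB_E1_le ι ρ1 hΦ hs hs'
  have e2 := PairB_E1_le ι ρ1 hΦ hs' hs
  have e3 := PairB_E3_le ι hD hΦ s s'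
  have t1 := (tlt_bd ι hs).1
  have t2 := (tlt_bd ι hs').1
  have u1 := PairB_cube t1 t2
  have u2 := PairB_cube t2 t1
  rw [add_comm (tlt ι s')] at u2
  rw [PairB_alg ι g f0 f1 ρ0 ρ1 hw, abs_neg]
  set U := √(tlt ι s + tlt ι s') ^ 3
  have a1 : |f0 * PairB_E1 ι ρ1 (Ph1 g w) s s'| ≤ m * g * (|f0| * ‖ρ1‖) * U := by
    rw [abs_mul]
    calc _ ≤ |f0| * (m * (√(tlt ι s) * g * (tlt ι s' * ‖ρ1‖))) :=
          mul_le_mul_of_nonneg_left e1 (abs_nonneg _)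
      _ = m * g * (|f0| * ‖ρ1‖) * (√(tlt ι s) * tlt ι s') := by ring
      _ ≤ _ := mul_le_mul_of_nonneg_left u1 (by positivity)
  have a2 : |f0 * PairB_E1 ι ρ1 (Ph1 g w) s' s| ≤ m * g * (|f0| * ‖ρ1‖) * U := by
    rw [abs_mul]
    calc _ ≤ |f0| * (m * (√(tlt ι s') * g * (tlt ι s * ‖ρ1‖))) :=
          mul_le_mul_of_nonneg_left e2 (abs_nonneg _)
      _ = m * g * (|f0| * ‖ρ1‖) * (√(tlt ι s') * tlt ι s) := by ring
      _ ≤ _ := mul_le_mul_of_nonneg_left u2 (by positivity)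
  have a3 : |ρ0 * PairB_E3 ι f1 (Ph1 g w) s s'| ≤ m * g * (D * |ρ0|) * U := by
    rw [abs_mul]
    calc _ ≤ |ρ0| * (m * (D * (√(tlt ι s) * g * tlt ι s'))) :=
          mul_le_mul_of_nonneg_left e3 (abs_nonneg _)
      _ = m * g * (D * |ρ0|) * (√(tlt ι s) * tlt ι s') := by ring
      _ ≤ _ := mul_le_mul_of_nonneg_left u1 (by positivity)
  refine ((abs_add_le _ _).trans (add_le_add ((abs_add_le _ _).trans (add_le_add a1 a2)) a3)).trans
    (le_of_eq ?_)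
  ring

/-! ### The four vector fields -/

/-- the map `v ↦ ι (Bᵀ v)` -/
noncomputable def PairB_L (ι : E m →ₗᵢ[ℝ] E N) (s : Fin m → E N) : E N →L[ℝ] E N :=
  ∑ l, (innerSL ℝ (vt ι (s l))).smulRight (ι (pr ι (s l)))

theorem PairB_L_inner (ι : E m →ₗᵢ[ℝ] E N) (s : Fin m → E N) (u v : E N) :
    ⟪u, PairB_L ι s v⟫ = ∑ l, ⟪vt ι (s l), v⟫ * ⟪pr ι u, pr ι (s l)⟫ := by
  rw [PairB_L, sum_apply, inner_sum]
  refine Finset.sum_congr rfl fun l _ => ?_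
  rw [ContinuousLinearMap.smulRight_apply, innerSL_apply_apply, real_inner_smul_right,
    real_inner_comm (ι _), inner_iota, real_inner_comm (pr ι u)]

/-- the general test field -/
noncomputable def PairB_X (ι : E m →ₗᵢ[ℝ] E N) (g r : ℝ) (f : E N → ℝ) (L : E N →L[ℝ] E N)
    (σ : E N → E N) (x : E N) : E N :=
  (f x * rho r (pr ι (σ x))) • L (Ph1 g (vt ι (σ x)))

theorem PairB_X_cd (ι : E m →ₗᵢ[ℝ] E N) {g : ℝ} (hg : 0 < g) (r : ℝ) {f : E N → ℝ}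
    (hf : ContDiff ℝ 1 f) (L : E N →L[ℝ] E N) {σ : E N → E N} (hσ : ContDiff ℝ 1 σ) :
    ContDiff ℝ 1 (PairB_X ι g r f L σ) := by
  have h1 : ContDiff ℝ 1 (rho r : E m → ℝ) := (contDiff_rho r).of_le (by norm_num)
  exact (hf.mul (h1.comp ((pr ι).contDiff.comp hσ))).smul
    (L.contDiff.comp ((contDiff_Ph1 hg 1).comp ((contDiff_vt ι 1).comp hσ)))

theorem PairB_X_div (fr : Fr m N) (ι : E m →ₗᵢ[ℝ] E N) {g : ℝ} (hg : 0 < g) (r : ℝ) {f : E N → ℝ}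
    (hf : ContDiff ℝ 1 f) (L : E N →L[ℝ] E N) {σ : E N → E N} {ε : ℝ} {x : E N}
    (hσ : HasFDerivAt σ (ε • ContinuousLinearMap.id ℝ (E N)) x) :
    fr.div (PairB_X ι g r f L σ) x = ∑ l,
      (fderiv ℝ f x (fr.s l x) * rho r (pr ι (σ x)) * ⟪fr.s l x, L (Ph1 g (vt ι (σ x)))⟫ +
        ε * (f x * fderiv ℝ (rho r) (pr ι (σ x)) (pr ι (fr.s l x)) *
          ⟪fr.s l x, L (Ph1 g (vt ι (σ x)))⟫ + f x * rho r (pr ι (σ x)) *
          ⟪fr.s l x, L (fderiv ℝ (Ph1 g) (vt ι (σ x)) (vt ι (fr.s l x)))⟫)) := by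
  have h1 := ((contDiff_rho (m := m) r).differentiable (by norm_num) (pr ι (σ x))).hasFDerivAt
  have h2 := ((contDiff_Ph1 (N := N) hg 1).differentiable (by norm_num) (vt ι (σ x))).hasFDerivAt
  have h3 := (hf.differentiable (by norm_num) x).hasFDerivAt
  have h4 := h1.comp x ((pr ι).hasFDerivAt.comp x hσ)
  have h5 := L.hasFDerivAt.comp x (h2.comp x ((hasFDerivAt_vt ι (σ x)).comp x hσ))
  have h6 : HasFDerivAt (PairB_X ι g r f L σ) _ x := (h3.fun_mul h4).fun_smul h5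
  unfold Fr.div
  rw [h6.fderiv]
  refine Finset.sum_congr rfl fun l _ => ?_
  simp only [add_apply, smul_apply,
    ContinuousLinearMap.smulRight_apply, ContinuousLinearMap.comp_apply, Function.comp_apply,
    ContinuousLinearMap.id_apply, map_smul, vtL_apply, inner_add_right, real_inner_smul_right,
    smul_eq_mul]
  ring

theorem PairB_Ph2 (ι : E m →ₗᵢ[ℝ] E N) (g : ℝ) (z u v : E N) :
    Ph2 g (vt ι z) u (vt ι v) = Ph2 g (vt ι z) (vt ι u) (vt ι v) := by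
  rw [Ph2, Ph2, PairB_vert ι (pr_vt ι v) u, real_inner_comm u, PairB_vert ι (pr_vt ι z) u,
    real_inner_comm (vt ι u)]

theorem PairB_divV (fr : Fr m N) (ι : E m →ₗᵢ[ℝ] E N) {g : ℝ} (hg : 0 < g) (r : ℝ) {f : E N → ℝ}
    (hf : ContDiff ℝ 1 f) {σ : E N → E N} {ε : ℝ} {x : E N}
    (hσ : HasFDerivAt σ (ε • ContinuousLinearMap.id ℝ (E N)) x) :
    fr.div (PairB_X ι g r f (ContinuousLinearMap.id ℝ (E N)) σ) x =
      PairB_TV ι g (ε * f x) (fun l => fderiv ℝ f x (fr.s l x)) (rho r (pr ι (σ x)))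
        (fderiv ℝ (rho r) (pr ι (σ x))) (vt ι (σ x)) fun l => fr.s l x := by
  rw [PairB_X_div fr ι hg r hf _ hσ, PairB_TV]
  refine Finset.sum_congr rfl fun l _ => ?_
  rw [ContinuousLinearMap.id_apply, ContinuousLinearMap.id_apply, inner_fderiv_Ph1 hg, PairB_Ph2,
    PairB_vert ι (PairB_pr_Ph1 ι g (pr_vt ι _)) (fr.s l x)]
  ring

theorem PairB_divH (fr : Fr m N) (ι : E m →ₗᵢ[ℝ] E N) {g : ℝ} (hg : 0 < g) (r : ℝ) {f : E N → ℝ}
    (hf : ContDiff ℝ 1 f) (s' : Fin m → E N) {σ : E N → E N} {ε : ℝ} {x : E N}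
    (hσ : HasFDerivAt σ (ε • ContinuousLinearMap.id ℝ (E N)) x) :
    fr.div (PairB_X ι g r f (PairB_L ι s') σ) x =
      PairB_TH ι g (ε * f x) (fun l => fderiv ℝ f x (fr.s l x)) (rho r (pr ι (σ x)))
        (fderiv ℝ (rho r) (pr ι (σ x))) (vt ι (σ x)) (fun l => fr.s l x) s' := by
  rw [PairB_X_div fr ι hg r hf _ hσ, PairB_TH]
  refine Finset.sum_congr rfl fun l _ => ?_
  simp only [PairB_L_inner, inner_fderiv_Ph1 hg, Finset.mul_sum, ← Finset.sum_add_distrib]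
  refine Finset.sum_congr rfl fun l' _ => ?_
  ring

theorem PairB_TV_neg (ι : E m →ₗᵢ[ℝ] E N) (g f0 ρ0 : ℝ) (ρ1 : E m →L[ℝ] ℝ) (w : E N)
    (s : Fin m → E N) : PairB_TV ι g (-1 * f0) 0 ρ0 ρ1 w s = -PairB_TV ι g f0 0 ρ0 ρ1 w s := by
  rw [PairB_TV, PairB_TV, ← Finset.sum_neg_distrib]
  refine Finset.sum_congr rfl fun l _ => ?_
  rw [Pi.zero_apply]
  ring

theorem PairB_TH_neg (ι : E m →ₗᵢ[ℝ] E N) (g f0 ρ0 : ℝ) (ρ1 : E m →L[ℝ] ℝ) (w : E N)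
    (s s' : Fin m → E N) :
    PairB_TH ι g (-1 * f0) 0 ρ0 ρ1 w s s' = -PairB_TH ι g f0 0 ρ0 ρ1 w s s' := by
  rw [PairB_TH, PairB_TH, ← Finset.sum_neg_distrib]
  refine Finset.sum_congr rfl fun l _ => ?_
  rw [← Finset.sum_neg_distrib]
  refine Finset.sum_congr rfl fun l' _ => ?_
  rw [Pi.zero_apply]
  ring

/-- the first variation in the first variable -/
theorem PairB_first {fr : Fr m N} {μ : Measure (E N)} {O K₁ : Set (E N)} (ι : E m →ₗᵢ[ℝ] E N)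
    {g : ℝ} (r : ℝ) {ϖ : E N → ℝ} (hS : Stat fr μ O) (hK : IsCompact K₁) (hO : K₁ ⊆ O)
    (hg : 0 < g) (hϖ : ContDiff ℝ 1 ϖ) (h0 : ∀ᵐ y ∂μ, y ∉ K₁ → ϖ =ᶠ[𝓝 y] 0)
    (L : E N →L[ℝ] E N) (y' : E N) :
    ∫ y, fr.div (PairB_X ι g r ϖ L fun x => x - y') y ∂μ = 0 := by
  refine hS _ K₁ hK hO (fun y _ => (PairB_X_cd ι hg r hϖ L (by fun_prop)).contDiffAt) ?_
  filter_upwards [h0] with y hy hyK
  filter_upwards [hy hyK] with x hx
  rw [PairB_X, hx, Pi.zero_apply, zero_mul, zero_smul, Pi.zero_apply]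

/-- the first variation in the second variable -/
theorem PairB_second {fr : Fr m N} {μ : Measure (E N)} {O K₂ : Set (E N)} (ι : E m →ₗᵢ[ℝ] E N)
    {g r : ℝ} (hS : Stat fr μ O) (hK : IsCompact K₂) (hO : K₂ ⊆ O)
    (hg : 0 < g) (hr : 0 < r) {y : E N} (h0 : ∀ᵐ y' ∂μ, y' ∉ K₂ → r < ‖pr ι (y - y')‖)
    (c : ℝ) (L : E N →L[ℝ] E N) :
    ∫ y', fr.div (PairB_X ι g r (fun _ => c) L fun x => y - x) y' ∂μ = 0 := by
  refine hS _ K₂ hK hO
    (fun y' _ => (PairB_X_cd ι hg r contDiff_const L (by fun_prop)).contDiffAt) ?_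
  filter_upwards [h0] with y' hy hyK
  have h1 : IsOpen {x : E N | r < ‖pr ι (y - x)‖} := isOpen_lt continuous_const (by fun_prop)
  filter_upwards [h1.mem_nhds (hy hyK)] with x hx
  rw [PairB_X, rho_eq_zero hr (le_of_lt hx), mul_zero, zero_smul, Pi.zero_apply]

theorem PairB_d1 (y' x : E N) :
    HasFDerivAt (fun x => x - y') ((1 : ℝ) • ContinuousLinearMap.id ℝ (E N)) x := by
  rw [one_smul]
  exact (hasFDerivAt_id x).sub_const y'

theorem PairB_d2 (y x : E N) :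
    HasFDerivAt (fun x => y - x) ((-1 : ℝ) • ContinuousLinearMap.id ℝ (E N)) x := by
  have h : (-1 : ℝ) • ContinuousLinearMap.id ℝ (E N) = -ContinuousLinearMap.id ℝ (E N) := by
    ext1 v
    simp
  rw [h]
  exact (hasFDerivAt_id x).const_sub y

/-! ### Bounded measurable integrands -/

/-- measurable, and bounded when the first point is in `K` -/
def PairB_B {F : Type} [NormedAddCommGroup F] [MeasurableSpace F] (K : Set (E N))
    (f : E N × E N → F) : Prop :=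
  Measurable f ∧ ∃ M : ℝ, ∀ q, q.1 ∈ K → ‖f q‖ ≤ M

namespace PairB_B

variable {K : Set (E N)}

theorem const (c : ℝ) : PairB_B K fun _ => c := ⟨measurable_const, ‖c‖, fun _ _ => le_rfl⟩

theorem add {f h : E N × E N → ℝ} (hf : PairB_B K f) (hh : PairB_B K h) :
    PairB_B K fun q => f q + h q := by
  obtain ⟨m1, M1, b1⟩ := hf
  obtain ⟨m2, M2, b2⟩ := hh
  exact ⟨m1.add m2, M1 + M2, fun q hq => norm_add_le_of_le (b1 q hq) (b2 q hq)⟩

theorem sub {f h : E N × E N → ℝ} (hf : PairB_B K f) (hh : PairB_B K h) :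
    PairB_B K fun q => f q - h q := by
  obtain ⟨m1, M1, b1⟩ := hf
  obtain ⟨m2, M2, b2⟩ := hh
  exact ⟨m1.sub m2, M1 + M2, fun q hq => norm_sub_le_of_le (b1 q hq) (b2 q hq)⟩

theorem mul {f h : E N × E N → ℝ} (hf : PairB_B K f) (hh : PairB_B K h) :
    PairB_B K fun q => f q * h q := by
  obtain ⟨m1, M1, b1⟩ := hf
  obtain ⟨m2, M2, b2⟩ := hh
  exact ⟨m1.mul m2, M1 * M2, fun q hq => (norm_mul_le _ _).trans (mul_le_mul (b1 q hq) (b2 q hq)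
    (norm_nonneg _) ((norm_nonneg _).trans (b1 q hq)))⟩

theorem sum {f : Fin m → E N × E N → ℝ} (hf : ∀ l, PairB_B K (f l)) :
    PairB_B K fun q => ∑ l, f l q := by
  choose M hM using fun l => (hf l).2
  exact ⟨Finset.measurable_sum _ fun l _ => (hf l).1, ∑ l, M l,
    fun q hq => norm_sum_le_of_le _ fun l _ => hM l q hq⟩

theorem inner {n : ℕ} {f h : E N × E N → E n} (hf : PairB_B K f) (hh : PairB_B K h) :
    PairB_B K fun q => ⟪f q, h q⟫ := by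
  obtain ⟨m1, M1, b1⟩ := hf
  obtain ⟨m2, M2, b2⟩ := hh
  exact ⟨m1.inner m2, M1 * M2, fun q hq => (norm_inner_le_norm _ _).trans
    (mul_le_mul (b1 q hq) (b2 q hq) (norm_nonneg _) ((norm_nonneg _).trans (b1 q hq)))⟩

theorem pr (ι : E m →ₗᵢ[ℝ] E N) {f : E N × E N → E N} (hf : PairB_B K f) :
    PairB_B K fun q => pr ι (f q) := by
  obtain ⟨m1, M1, b1⟩ := hf
  exact ⟨(Gen.pr ι).continuous.measurable.comp m1, M1,
    fun q hq => (norm_pr_le ι _).1.trans (b1 q hq)⟩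

theorem vt (ι : E m →ₗᵢ[ℝ] E N) {f : E N × E N → E N} (hf : PairB_B K f) :
    PairB_B K fun q => vt ι (f q) := by
  obtain ⟨m1, M1, b1⟩ := hf
  exact ⟨(contDiff_vt ι 0).continuous.measurable.comp m1, M1,
    fun q hq => (norm_pr_le ι _).2.1.trans (b1 q hq)⟩

theorem app {n : ℕ} {A : E N × E N → E n →L[ℝ] ℝ} {f : E N × E N → E n} (hA : PairB_B K A)
    (hf : PairB_B K f) : PairB_B K fun q => A q (f q) := by
  obtain ⟨m1, M1, b1⟩ := hA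
  obtain ⟨m2, M2, b2⟩ := hf
  exact ⟨ContinuousLinearMap.measurable_apply₂.comp (m1.prodMk m2), M1 * M2,
    fun q hq => ((A q).le_opNorm _).trans
    (mul_le_mul (b1 q hq) (b2 q hq) (norm_nonneg _) ((norm_nonneg _).trans (b1 q hq)))⟩

theorem norm {F : Type} [NormedAddCommGroup F] [MeasurableSpace F] [OpensMeasurableSpace F]
    {f : E N × E N → F} (hf : PairB_B K f) : PairB_B K fun q => ‖f q‖ := by
  obtain ⟨m1, M1, b1⟩ := hf
  exact ⟨m1.norm, M1, fun q hq => (norm_norm _).trans_le (b1 q hq)⟩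

theorem ph1 {g : ℝ} (hg : 0 < g) {w : E N × E N → E N} (hw : Measurable w) :
    PairB_B K fun q => Ph1 g (w q) :=
  ⟨(contDiff_Ph1 hg 0).continuous.measurable.comp hw, g, fun q _ => (Ph1_bd hg).1 (w q)⟩

theorem ph2 {g : ℝ} (hg : 0 < g) {w f h : E N × E N → E N} (hw : Measurable w)
    (hf : PairB_B K f) (hh : PairB_B K h) : PairB_B K fun q => Ph2 g (w q) (f q) (h q) := by
  obtain ⟨m1, M1, b1⟩ := hf
  obtain ⟨m2, M2, b2⟩ := hh
  refine ⟨?_, M1 * M2, fun q hq => (Ph2_bd hg _ _ _).2.2.1.trans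
    (mul_le_mul (b1 q hq) (b2 q hq) (norm_nonneg _) ((norm_nonneg _).trans (b1 q hq)))⟩
  have h1 : Measurable fun q => g ^ 2 + ‖w q‖ ^ 2 := (hw.norm.pow_const 2).const_add _
  exact (h1.sqrt.const_div g).mul ((m1.inner m2).sub (((hw.inner m1).mul (hw.inner m2)).div h1))

theorem cont {F : Type} [NormedAddCommGroup F] [MeasurableSpace F] [BorelSpace F]
    (hK : IsCompact K) {f : E N → F} (hf : Continuous f) : PairB_B K fun q => f q.1 := by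
  obtain ⟨M, hM⟩ := hK.exists_bound_of_continuousOn hf.continuousOn
  exact ⟨hf.measurable.comp measurable_fst, M, fun q hq => hM _ hq⟩

theorem s1 (fr : Fr m N) (l : Fin m) : PairB_B K fun q => fr.s l q.1 :=
  ⟨(fr.meas l).comp measurable_fst, 1, fun q _ => (fr.norm_s l q.1).le⟩

theorem s2 (fr : Fr m N) (l : Fin m) : PairB_B K fun q => fr.s l q.2 :=
  ⟨(fr.meas l).comp measurable_snd, 1, fun q _ => (fr.norm_s l q.2).le⟩

theorem integrable {f : E N × E N → ℝ} (hf : PairB_B K f) {μ : Measure (E N)} [IsFiniteMeasure μ]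
    (h0 : ∀ᵐ y ∂μ, y ∉ K → ∀ y', f (y, y') = 0) : Integrable f (μ.prod μ) := by
  obtain ⟨m1, M1, b1⟩ := hf
  refine Integrable.of_bound m1.aestronglyMeasurable |M1| ?_
  filter_upwards [(Measure.quasiMeasurePreserving_fst (μ := μ) (ν := μ)).ae h0] with q hq
  by_cases h : q.1 ∈ K
  · exact (b1 q h).trans (le_abs_self _)
  · rw [show f q = 0 from hq h q.2, norm_zero]
    exact abs_nonneg _

variable (ι : E m →ₗᵢ[ℝ] E N) {g : ℝ} {f0 ρ0 : E N × E N → ℝ} {f1 : Fin m → E N × E N → ℝ}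
  {ρ1 : E N × E N → E m →L[ℝ] ℝ} {w : E N × E N → E N} {s s' : Fin m → E N × E N → E N}

theorem TV (hg : 0 < g) (h0 : PairB_B K f0) (h1 : ∀ l, PairB_B K (f1 l)) (r0 : PairB_B K ρ0)
    (r1 : PairB_B K ρ1) (hw : Measurable w) (hs : ∀ l, PairB_B K (s l)) :
    PairB_B K fun q => PairB_TV ι g (f0 q) (fun l => f1 l q) (ρ0 q) (ρ1 q) (w q) fun l => s l q :=
  sum fun l => ((((h1 l).mul r0).mul (((hs l).vt ι).inner (ph1 hg hw))).add
    ((h0.mul (r1.app ((hs l).pr ι))).mul (((hs l).vt ι).inner (ph1 hg hw)))).add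
    ((h0.mul r0).mul (ph2 hg hw ((hs l).vt ι) ((hs l).vt ι)))

theorem TH (hg : 0 < g) (h0 : PairB_B K f0) (h1 : ∀ l, PairB_B K (f1 l)) (r0 : PairB_B K ρ0)
    (r1 : PairB_B K ρ1) (hw : Measurable w) (hs : ∀ l, PairB_B K (s l))
    (hs' : ∀ l, PairB_B K (s' l)) :
    PairB_B K fun q => PairB_TH ι g (f0 q) (fun l => f1 l q) (ρ0 q) (ρ1 q) (w q) (fun l => s l q)
      fun l => s' l q :=
  sum fun l => sum fun l' => (((((h1 l).mul r0).mul (((hs' l').vt ι).inner (ph1 hg hw))).add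
    ((h0.mul (r1.app ((hs l).pr ι))).mul (((hs' l').vt ι).inner (ph1 hg hw)))).add
    ((h0.mul r0).mul (ph2 hg hw ((hs' l').vt ι) ((hs l).vt ι)))).mul
    (((hs l).pr ι).inner ((hs' l').pr ι))

end PairB_B

theorem PairB_rho (m : ℕ) : ∃ C : ℝ, 1 ≤ C ∧ ∀ r : ℝ, 0 < r → ∀ v : E m,
    |rho r v| ≤ C / r ^ m ∧ ‖fderiv ℝ (rho r) v‖ ≤ C / r ^ (m + 1) := by
  obtain ⟨C, h1, hC⟩ := rho_bd m
  refine ⟨C, h1, fun r hr v => ?_⟩
  have h := (hC r hr 0).1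
  simp only [sub_zero] at h
  exact ⟨h.b0 v, h.b1 v⟩

theorem PairB_w (ι : E m →ₗᵢ[ℝ] E N) : Measurable fun q : E N × E N => vt ι (q.1 - q.2) :=
  ((contDiff_vt ι 0).continuous.comp (continuous_fst.sub continuous_snd)).measurable

theorem PairB_r0 (K : Set (E N)) (ι : E m →ₗᵢ[ℝ] E N) {r : ℝ} (hr : 0 < r) :
    PairB_B K fun q => rho r (pr ι (q.1 - q.2)) := by
  obtain ⟨C, -, hC⟩ := PairB_rho m
  exact ⟨((contDiff_rho r).continuous.comp (by fun_prop)).measurable, _,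
    fun q _ => (hC r hr _).1⟩

theorem PairB_r1 (K : Set (E N)) (ι : E m →ₗᵢ[ℝ] E N) {r : ℝ} (hr : 0 < r) :
    PairB_B K fun q => fderiv ℝ (rho r) (pr ι (q.1 - q.2)) := by
  obtain ⟨C, -, hC⟩ := PairB_rho m
  exact ⟨(measurable_fderiv ℝ (rho r)).comp (by fun_prop), _, fun q _ => (hC r hr _).2⟩

/-! ### The four identities -/

/-- the sum of the four divergences -/
noncomputable def PairB_T (fr : Fr m N) (ι : E m →ₗᵢ[ℝ] E N) (g r : ℝ) (ϖ : E N → ℝ)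
    (q : E N × E N) : ℝ :=
  PairB_TV ι g (ϖ q.1) (fun l => fderiv ℝ ϖ q.1 (fr.s l q.1)) (rho r (pr ι (q.1 - q.2)))
      (fderiv ℝ (rho r) (pr ι (q.1 - q.2))) (vt ι (q.1 - q.2)) (fun l => fr.s l q.1) -
    PairB_TH ι g (ϖ q.1) 0 (rho r (pr ι (q.1 - q.2))) (fderiv ℝ (rho r) (pr ι (q.1 - q.2)))
      (vt ι (q.1 - q.2)) (fun l => fr.s l q.2) (fun l => fr.s l q.1) +
    PairB_TV ι g (ϖ q.1) 0 (rho r (pr ι (q.1 - q.2))) (fderiv ℝ (rho r) (pr ι (q.1 - q.2)))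
      (vt ι (q.1 - q.2)) (fun l => fr.s l q.2) -
    PairB_TH ι g (ϖ q.1) (fun l => fderiv ℝ ϖ q.1 (fr.s l q.1)) (rho r (pr ι (q.1 - q.2)))
      (fderiv ℝ (rho r) (pr ι (q.1 - q.2))) (vt ι (q.1 - q.2)) (fun l => fr.s l q.1)
      fun l => fr.s l q.2

theorem PairB_out {μ : Measure (E N)} {K : Set (E N)} {ϖ : E N → ℝ}
    (h0 : ∀ᵐ y ∂μ, y ∉ K → ϖ =ᶠ[𝓝 y] 0) : ∀ᵐ y ∂μ, y ∉ K → ϖ y = 0 ∧ fderiv ℝ ϖ y = 0 := by
  filter_upwards [h0] with y hy hyK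
  refine ⟨(hy hyK).eq_of_nhds, ?_⟩
  rw [(hy hyK).fderiv_eq]
  exact fderiv_const_apply (0 : ℝ)

theorem PairB_zero1 {μ : Measure (E N)} [IsFiniteMeasure μ] {f : E N × E N → ℝ}
    (hf : Integrable f (μ.prod μ)) (h : ∀ y', ∫ y, f (y, y') ∂μ = 0) :
    ∫ q, f q ∂(μ.prod μ) = 0 := by
  rw [integral_prod_symm f hf]
  simp only [h, integral_zero]

theorem PairB_zero2 {μ : Measure (E N)} [IsFiniteMeasure μ] {K : Set (E N)} {f : E N × E N → ℝ}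
    (hf : Integrable f (μ.prod μ)) (h0 : ∀ᵐ y ∂μ, y ∉ K → ∀ y', f (y, y') = 0)
    (h : ∀ y ∈ K, ∫ y', -f (y, y') ∂μ = 0) : ∫ q, f q ∂(μ.prod μ) = 0 := by
  rw [integral_prod f hf]
  refine integral_eq_zero_of_ae ?_
  filter_upwards [h0] with y hy
  by_cases hyK : y ∈ K
  · have h1 := h y hyK
    rwa [integral_neg, neg_eq_zero] at h1
  · simp only [hy hyK, integral_zero, Pi.zero_apply]

theorem PairB_T_int (fr : Fr m N) (μ : Measure (E N)) [IsFiniteMeasure μ] {O K₁ K₂ : Set (E N)}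
    (ι : E m →ₗᵢ[ℝ] E N) {g r : ℝ} {ϖ : E N → ℝ} (hS : Stat fr μ O) (hK₁ : IsCompact K₁)
    (hK₂ : IsCompact K₂) (hO₁ : K₁ ⊆ O) (hO₂ : K₂ ⊆ O) (hg : 0 < g) (hr : 0 < r)
    (hϖ : ContDiff ℝ 1 ϖ) (h1 : ∀ᵐ y ∂μ, y ∉ K₁ → ϖ =ᶠ[𝓝 y] 0)
    (h2 : ∀ y ∈ K₁, ∀ᵐ y' ∂μ, y' ∉ K₂ → r < ‖pr ι (y - y')‖) :
    Integrable (PairB_T fr ι g r ϖ) (μ.prod μ) ∧ ∫ q, PairB_T fr ι g r ϖ q ∂(μ.prod μ) = 0 := by
  have b0 : PairB_B K₁ fun q => ϖ q.1 := .cont hK₁ hϖ.continuous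
  have b1 : ∀ l, PairB_B K₁ fun q => fderiv ℝ ϖ q.1 (fr.s l q.1) := fun l =>
    (PairB_B.cont hK₁ (hϖ.continuous_fderiv one_ne_zero)).app (.s1 fr l)
  have bz : ∀ _ : Fin m, PairB_B K₁ fun _ => (0 : ℝ) := fun _ => .const 0
  have r0 := PairB_r0 K₁ ι hr
  have r1 := PairB_r1 K₁ ι hr
  have hw := PairB_w ι
  have ho := PairB_out h1
  have hc : ∀ (c : ℝ) (x : E N), (fun l => fderiv ℝ (fun _ : E N => c) x (fr.s l x)) = 0 :=
    fun c x => funext fun l => by simp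
  have i1 := (PairB_B.TV ι hg b0 b1 r0 r1 hw (PairB_B.s1 fr)).integrable (μ := μ) (by
    filter_upwards [ho] with y hy hyK y'
    simp [PairB_TV, (hy hyK).1, (hy hyK).2])
  have z2 : ∀ᵐ y ∂μ, y ∉ K₁ → ∀ y', PairB_TH ι g (ϖ y) 0 (rho r (pr ι (y - y')))
      (fderiv ℝ (rho r) (pr ι (y - y'))) (vt ι (y - y')) (fun l => fr.s l y')
      (fun l => fr.s l y) = 0 := by
    filter_upwards [ho] with y hy hyK y'
    simp [PairB_TH, (hy hyK).1]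
  have z3 : ∀ᵐ y ∂μ, y ∉ K₁ → ∀ y', PairB_TV ι g (ϖ y) 0 (rho r (pr ι (y - y')))
      (fderiv ℝ (rho r) (pr ι (y - y'))) (vt ι (y - y')) (fun l => fr.s l y') = 0 := by
    filter_upwards [ho] with y hy hyK y'
    simp [PairB_TV, (hy hyK).1]
  have i2 := (PairB_B.TH ι hg b0 bz r0 r1 hw (PairB_B.s2 fr) (PairB_B.s1 fr)).integrable z2
  have i3 := (PairB_B.TV ι hg b0 bz r0 r1 hw (PairB_B.s2 fr)).integrable z3
  have i4 := (PairB_B.TH ι hg b0 b1 r0 r1 hw (PairB_B.s1 fr) (PairB_B.s2 fr)).integrable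
    (μ := μ) (by
      filter_upwards [ho] with y hy hyK y'
      simp [PairB_TH, (hy hyK).1, (hy hyK).2])
  have e1 := PairB_zero1 i1 fun y' => by
    have h := PairB_first ι r hS hK₁ hO₁ hg hϖ h1 (ContinuousLinearMap.id ℝ (E N)) y'
    simpa only [PairB_divV fr ι hg r hϖ (PairB_d1 y' _), one_mul] using h
  have e4 := PairB_zero1 i4 fun y' => by
    have h := PairB_first ι r hS hK₁ hO₁ hg hϖ h1 (PairB_L ι fun l => fr.s l y') y'
    simpa only [PairB_divH fr ι hg r hϖ _ (PairB_d1 y' _), one_mul] using h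
  have e2 := PairB_zero2 i2 z2 fun y hy => by
    have h := PairB_second ι hS hK₂ hO₂ hg hr (h2 y hy) (ϖ y) (PairB_L ι fun l => fr.s l y)
    simp only [PairB_divH fr ι hg r contDiff_const _ (PairB_d2 y _), hc, PairB_TH_neg] at h
    exact h
  have e3 := PairB_zero2 i3 z3 fun y hy => by
    have h := PairB_second ι hS hK₂ hO₂ hg hr (h2 y hy) (ϖ y) (ContinuousLinearMap.id ℝ (E N))
    simp only [PairB_divV fr ι hg r contDiff_const (PairB_d2 y _), hc, PairB_TV_neg] at h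
    exact h
  refine ⟨((i1.sub i2).add i3).sub i4, ?_⟩
  have h3 := integral_sub ((i1.sub i2).add i3) i4
  have h4 := integral_add (i1.sub i2) i3
  have h5 := integral_sub i1 i2
  rw [e1, e2] at h5
  refine h3.trans ?_
  rw [e4, sub_zero]
  refine h4.trans ?_
  rw [e3, add_zero]
  exact h5.trans (sub_zero 0)

/-- the majorant of the error -/
noncomputable def PairB_M (fr : Fr m N) (ι : E m →ₗᵢ[ℝ] E N) (r : ℝ) (ϖ : E N → ℝ)
    (q : E N × E N) : ℝ :=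
  (|ϖ q.1| / r + ‖fderiv ℝ ϖ q.1‖) / r ^ m *
    √(tlt ι (fun l => fr.s l q.1) + tlt ι fun l => fr.s l q.2) ^ 3

theorem PairB_M_B (fr : Fr m N) {K : Set (E N)} (hK : IsCompact K) (ι : E m →ₗᵢ[ℝ] E N) (r : ℝ)
    {ϖ : E N → ℝ} (hϖ : ContDiff ℝ 1 ϖ) : PairB_B K (PairB_M fr ι r ϖ) := by
  have h1 : Continuous fun y => (|ϖ y| / r + ‖fderiv ℝ ϖ y‖) / r ^ m :=
    ((hϖ.continuous.abs.div_const r).add (hϖ.continuous_fderiv one_ne_zero).norm).div_const _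
  have h2 : ∀ s : Fin m → E N × E N → E N, (∀ l, PairB_B K (s l)) →
      Measurable fun q => tlt ι fun l => s l q := fun s hs =>
    Finset.measurable_sum _ fun l _ => ((hs l).vt ι).norm.1.pow_const 2
  refine (PairB_B.cont hK h1).mul ⟨(((h2 _ (PairB_B.s1 fr)).add
    (h2 _ (PairB_B.s2 fr))).sqrt).pow_const 3, √((m : ℝ) + m) ^ 3, fun q _ => ?_⟩
  rw [Real.norm_eq_abs, abs_of_nonneg (by positivity)]
  exact pow_le_pow_left₀ (Real.sqrt_nonneg _) (Real.sqrt_le_sqrt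
    (add_le_add (tlt_bd ι (fr.orth _)).2 (tlt_bd ι (fr.orth _)).2)) 3

theorem PairB_ind {μ : Measure (E N)} [IsFiniteMeasure μ] {K : Set (E N)} (hK : IsCompact K)
    (ι : E m →ₗᵢ[ℝ] E N) (r : ℝ) {f : E N × E N → ℝ} (hf : PairB_B K f) :
    Integrable ({q : E N × E N | q.1 ∈ K ∧ ‖pr ι (q.1 - q.2)‖ ≤ r}.indicator f) (μ.prod μ) ∧
    ∫ q, {q : E N × E N | q.1 ∈ K ∧ ‖pr ι (q.1 - q.2)‖ ≤ r}.indicator f q ∂(μ.prod μ) =
      ∫ y in K, ∫ y' in {y' | ‖pr ι (y - y')‖ ≤ r}, f (y, y') ∂μ ∂μ := by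
  have hc : IsClosed {q : E N × E N | ‖pr ι (q.1 - q.2)‖ ≤ r} :=
    isClosed_le (by fun_prop) continuous_const
  have hm : MeasurableSet {q : E N × E N | q.1 ∈ K ∧ ‖pr ι (q.1 - q.2)‖ ≤ r} :=
    (measurable_fst hK.measurableSet).inter hc.measurableSet
  have hi : Integrable ({q : E N × E N | q.1 ∈ K ∧ ‖pr ι (q.1 - q.2)‖ ≤ r}.indicator f)
      (μ.prod μ) := by
    obtain ⟨m1, M, hM⟩ := hf
    refine PairB_B.integrable (K := K) ⟨m1.indicator hm, M, fun q hq =>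
      (norm_indicator_le_norm_self _ _).trans (hM q hq)⟩ (ae_of_all _ fun y hy y' => ?_)
    exact indicator_of_notMem (fun h => hy h.1) _
  refine ⟨hi, ?_⟩
  rw [integral_prod _ hi, ← integral_indicator hK.measurableSet]
  refine integral_congr_ae (ae_of_all _ fun y => ?_)
  by_cases hy : y ∈ K
  · have hs : MeasurableSet {y' : E N | ‖pr ι (y - y')‖ ≤ r} :=
      (isClosed_le (by fun_prop) continuous_const).measurableSet
    rw [indicator_of_mem hy, ← integral_indicator hs]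
    refine integral_congr_ae (ae_of_all _ fun y' => ?_)
    by_cases h : ‖pr ι (y - y')‖ ≤ r
    · exact (indicator_of_mem (s := {q : E N × E N | q.1 ∈ K ∧ ‖pr ι (q.1 - q.2)‖ ≤ r})
        (a := (y, y')) ⟨hy, h⟩ f).trans (indicator_of_mem (s := {y' | ‖pr ι (y - y')‖ ≤ r}) h
          fun y' => f (y, y')).symm
    · exact (indicator_of_notMem (s := {q : E N × E N | q.1 ∈ K ∧ ‖pr ι (q.1 - q.2)‖ ≤ r})
        (a := (y, y')) (fun h' => h h'.2) f).trans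
        (indicator_of_notMem (s := {y' | ‖pr ι (y - y')‖ ≤ r}) h fun y' => f (y, y')).symm
  · rw [indicator_of_notMem hy]
    refine integral_eq_zero_of_ae (ae_of_all _ fun y' => ?_)
    exact indicator_of_notMem (s := {q : E N × E N | q.1 ∈ K ∧ ‖pr ι (q.1 - q.2)‖ ≤ r})
      (a := (y, y')) (fun h' => hy h'.1) f

theorem PairB_pt {C : ℝ} (hC : 1 ≤ C) (fr : Fr m N) (K : Set (E N)) (ι : E m →ₗᵢ[ℝ] E N) {g r : ℝ}
    (hg : 0 < g) (hr : 0 < r)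
    (hρ : ∀ v : E m, |rho r v| ≤ C / r ^ m ∧ ‖fderiv ℝ (rho r) v‖ ≤ C / r ^ (m + 1))
    (ϖ : E N → ℝ) (q : E N × E N) (h0 : q.1 ∉ K → ϖ q.1 = 0 ∧ fderiv ℝ ϖ q.1 = 0) :
    |ϖ q.1 * rho r (pr ι (q.1 - q.2)) * pe fr ι g q.1 q.2 + pairMain fr ι g r ϖ q.1 q.2 -
      PairB_T fr ι g r ϖ q| ≤ (2 * m * C + 1) * g *
        {q : E N × E N | q.1 ∈ K ∧ ‖pr ι (q.1 - q.2)‖ ≤ r}.indicator (PairB_M fr ι r ϖ) q := by
  have hD : ∀ l, |fderiv ℝ ϖ q.1 (fr.s l q.1)| ≤ ‖fderiv ℝ ϖ q.1‖ := fun l =>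
    ((fderiv ℝ ϖ q.1).le_opNorm _).trans_eq (by rw [fr.norm_s, mul_one])
  refine (PairB_err ι hg (ϖ q.1) (norm_nonneg _) hD (rho r (pr ι (q.1 - q.2)))
    (fderiv ℝ (rho r) (pr ι (q.1 - q.2))) (pr_vt ι (q.1 - q.2)) (fr.orth q.1)
    (fr.orth q.2)).trans ?_
  by_cases hq : q ∈ {q : E N × E N | q.1 ∈ K ∧ ‖pr ι (q.1 - q.2)‖ ≤ r}
  · rw [indicator_of_mem hq, PairB_M]
    refine le_trans (mul_le_mul_of_nonneg_right ?_ (pow_nonneg (Real.sqrt_nonneg _) 3))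
      (mul_assoc _ _ _).le
    obtain ⟨a0, a1⟩ := hρ (pr ι (q.1 - q.2))
    have b1 := mul_le_mul_of_nonneg_left a1 (abs_nonneg (ϖ q.1))
    have b0 := mul_le_mul_of_nonneg_left a0 (norm_nonneg (fderiv ℝ ϖ q.1))
    have b2 : 0 ≤ ‖fderiv ℝ ϖ q.1‖ * (C / r ^ m) := by positivity
    have b3 : 0 ≤ (m : ℝ) * g := by positivity
    calc _ ≤ m * g * (2 * (|ϖ q.1| * (C / r ^ (m + 1))) + 2 * (‖fderiv ℝ ϖ q.1‖ * (C / r ^ m))) :=
          mul_le_mul_of_nonneg_left (by linarith) b3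
      _ = 2 * m * C * g * ((|ϖ q.1| / r + ‖fderiv ℝ ϖ q.1‖) / r ^ m) := by
          rw [pow_succ]
          field_simp
      _ ≤ _ := by gcongr; linarith
  · rw [indicator_of_notMem hq, mul_zero]
    by_cases hK : q.1 ∈ K
    · have h1 : r < ‖pr ι (q.1 - q.2)‖ := not_le.1 fun h => hq ⟨hK, h⟩
      have h2 : fderiv ℝ (rho r) (pr ι (q.1 - q.2)) = 0 := by
        rw [(KernB_ev0 hr h1).fderiv_eq]
        exact fderiv_const_apply (0 : ℝ)
      rw [h2, rho_eq_zero hr h1.le]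
      simp
    · rw [(h0 hK).1, (h0 hK).2]
      simp

/-- Write `ρ = rho r (x - x')`, `DΦ = Ph1 g (z - z')`, `H = Ph2 g (z - z')`, `a, b, B, N, d` for the
frame at `y` and primes for `y'`.
First half. For fixed `y'` test `Stat` (compact set `K₁`) with the vertical field
`y ↦ ϖ ρ DΦ`: `∫ ϖ ρ ∑ H (b_l, b_l) + ϖ ⟪B ∇ρ, DΦ⟫ + ρ ∑ ∂_l ϖ ⟪b_l, DΦ⟫ = 0`. For fixed `y ∈ K₁`
test (compact set `K₂`) with the horizontal field `y' ↦ ρ ι (Bᵀ DΦ)`, where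
`Bᵀ v = ∑ ⟪b_l, v⟫ a_l`: `∫ ⟪∇ρ, Bᵀ DΦ⟫ - N' (∇ρ, Bᵀ DΦ) + ρ ∑ i, H (B e_i, B' e_i) = 0`.
Second half. For fixed `y ∈ K₁` the vertical field `y' ↦ ρ DΦ`, for fixed `y'` the horizontal field
`y ↦ ϖ ρ ι (B'ᵀ DΦ)`. The terms with the derivative of `ϖ` add up to
`- ρ ∑ ∂_l ϖ ⟪b_l - B' a_l, DΦ⟫`, and `b_l - B' a_l` is the vertical part of `nrm y' s_l` plus
`∑ l', ⟪b'_l', b_l⟫ b'_l'`, of norm at most `d' |b_l|`. All integrands are bounded on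
`K₁ × univ`; Fubini. -/
theorem pair_id (m : ℕ) : ∃ C : ℝ, 1 ≤ C ∧ ∀ {N : ℕ} (fr : Fr m N) (μ : Measure (E N))
    [IsFiniteMeasure μ] (O K₁ K₂ : Set (E N)) (ι : E m →ₗᵢ[ℝ] E N) (g r : ℝ) (ϖ : E N → ℝ),
    Stat fr μ O → IsCompact K₁ → IsCompact K₂ → K₁ ⊆ O → K₂ ⊆ O → 0 < g → 0 < r →
    ContDiff ℝ 1 ϖ → (∀ᵐ y ∂μ, y ∉ K₁ → ϖ =ᶠ[𝓝 y] 0) →
    (∀ y ∈ K₁, ∀ᵐ y' ∂μ, y' ∉ K₂ → r < ‖pr ι (y - y')‖) →
    Integrable (fun q : E N × E N => pairMain fr ι g r ϖ q.1 q.2) (μ.prod μ) ∧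
    |PR fr μ ι g r ϖ + ∫ y, ∫ y', pairMain fr ι g r ϖ y y' ∂μ ∂μ| ≤
      C * g * ∫ y in K₁, ∫ y' in {y' | ‖pr ι (y - y')‖ ≤ r},
        (|ϖ y| / r + ‖fderiv ℝ ϖ y‖) / r ^ m *
          √(tlt ι (fun l => fr.s l y) + tlt ι fun l => fr.s l y') ^ 3 ∂μ ∂μ := by
  obtain ⟨C, hC, hρ⟩ := PairB_rho m
  refine ⟨2 * m * C + 1, le_add_of_nonneg_left (by positivity), ?_⟩
  intro N fr μ _ O K₁ K₂ ι g r ϖ hS hK₁ hK₂ hO₁ hO₂ hg hr hϖ h1 h2
  have ho := PairB_out h1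
  have r0 := PairB_r0 K₁ ι hr
  have iM : Integrable (fun q : E N × E N => pairMain fr ι g r ϖ q.1 q.2) (μ.prod μ) := by
    have e : ∀ q : E N × E N, pairMain fr ι g r ϖ q.1 q.2 = rho r (pr ι (q.1 - q.2)) *
        ∑ l, fderiv ℝ ϖ q.1 (fr.s l q.1) * (⟪fr.s l q.1, Ph1 g (vt ι (q.1 - q.2))⟫ -
          ∑ l', ⟪fr.s l' q.2, fr.s l q.1⟫ * ⟪fr.s l' q.2, Ph1 g (vt ι (q.1 - q.2))⟫) := fun q => by
      simp only [pairMain, Fr.nrm, inner_sub_left, sum_inner, real_inner_smul_left]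
    have p := PairB_B.ph1 (K := K₁) hg (PairB_w ι)
    simp only [e]
    refine (r0.mul (.sum fun l => ((PairB_B.cont hK₁ (hϖ.continuous_fderiv one_ne_zero)).app
      (.s1 fr l)).mul (((PairB_B.s1 fr l).inner p).sub (.sum fun l' =>
        ((PairB_B.s2 fr l').inner (.s1 fr l)).mul ((PairB_B.s2 fr l').inner p))))).integrable ?_
    filter_upwards [ho] with y hy hyK y'
    simp [(hy hyK).2]
  have iP : Integrable (fun q : E N × E N => ϖ q.1 * rho r (pr ι (q.1 - q.2)) * pe fr ι g q.1 q.2)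
      (μ.prod μ) := by
    refine (((PairB_B.cont hK₁ hϖ.continuous).mul r0).mul ⟨measurable_pe fr ι g, 6 * m,
      fun q _ => ?_⟩).integrable ?_
    · rw [Real.norm_eq_abs, abs_of_nonneg (pe_bd fr ι hg _ _).1]
      exact (pe_bd fr ι hg _ _).2
    · filter_upwards [ho] with y hy hyK y'
      simp [(hy hyK).1]
  obtain ⟨iT, eT⟩ := PairB_T_int fr μ ι hS hK₁ hK₂ hO₁ hO₂ hg hr hϖ h1 h2
  obtain ⟨iI, eI⟩ := PairB_ind (μ := μ) hK₁ ι r (PairB_M_B fr hK₁ ι r hϖ)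
  refine ⟨iM, ?_⟩
  have e1 : PR fr μ ι g r ϖ + ∫ y, ∫ y', pairMain fr ι g r ϖ y y' ∂μ ∂μ =
      ∫ q, (ϖ q.1 * rho r (pr ι (q.1 - q.2)) * pe fr ι g q.1 q.2 + pairMain fr ι g r ϖ q.1 q.2 -
        PairB_T fr ι g r ϖ q) ∂(μ.prod μ) := by
    refine Eq.trans ?_ (integral_sub (iP.add iM) iT).symm
    rw [eT, sub_zero]
    refine Eq.trans ?_ (integral_add iP iM).symm
    rw [integral_prod _ iP, integral_prod _ iM, PR]
  rw [e1]
  refine le_trans ?_ (le_of_eq (congrArg (fun t => (2 * m * C + 1) * g * t) eI))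
  rw [← integral_const_mul, ← Real.norm_eq_abs]
  refine norm_integral_le_of_norm_le (iI.const_mul _) ?_
  filter_upwards [(Measure.quasiMeasurePreserving_fst (μ := μ) (ν := μ)).ae ho] with q hq
  exact PairB_pt hC fr K₁ ι hg hr (hρ r hr) ϖ q hq

end Pool.Agent.MP_f6c0e6_an.Gen

end

section

/-! The sum of the pair energies over the frames. -/

set_option autoImplicit false

open MeasureTheory Filter Topology Set Metric
open scoped ENNReal RealInnerProductSpace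

namespace Pool.Agent.MP_f6c0e6_an.Gen

variable {m N : ℕ}

theorem PairG_lc (ρ : ℝ) (i b : Fin m → ℤ) : lc ρ (i + b) = lc ρ i + lc ρ b := by
  have h : kv (i + b) = kv i + kv b := by
    ext k
    simp [kv]
  rw [lc, lc, lc, h, smul_add]

theorem PairG_lc_sub (ρ : ℝ) (k b : Fin m → ℤ) : lc ρ (k - b) = lc ρ k - lc ρ b := by
  have h := PairG_lc ρ (k - b) b
  rw [sub_add_cancel] at h
  rw [h, add_sub_cancel_right]

/-- the sum of the squares over a translate of `B` -/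
noncomputable def PairG_u (ρ : ℝ) (B : Finset (Fin m → ℤ)) (i : Fin m → ℤ) (x : E m) : ℝ :=
  ∑ b ∈ B, lp ρ (i + b) x ^ 2

theorem PairG_u_eq (ρ : ℝ) (B : Finset (Fin m → ℤ)) (i : Fin m → ℤ) (x : E m) :
    PairG_u ρ B i x = ∑ k ∈ B.map (addLeftEmbedding i), lp ρ k x ^ 2 := by
  rw [Finset.sum_map]
  rfl

theorem PairG_u_bd {ρ : ℝ} (hρ : 0 < ρ) {B : Finset (Fin m → ℤ)}
    (hB : ∀ b, b ∈ B ↔ ‖lc ρ b‖ ≤ 12 * ρ) (i : Fin m → ℤ) (x : E m) :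
    0 ≤ PairG_u ρ B i x ∧ PairG_u ρ B i x ≤ 1 ∧
      (‖x - lc ρ i‖ ≤ 11 * ρ → PairG_u ρ B i x = 1) ∧
      (25 * ρ / 2 < ‖x - lc ρ i‖ → PairG_u ρ B i x = 0) := by
  refine ⟨Finset.sum_nonneg fun b _ => sq_nonneg _, ?_, fun h => ?_, fun h => ?_⟩
  · rw [PairG_u_eq]
    exact (sum_lp_sq hρ _ x).1
  · rw [PairG_u_eq]
    refine (sum_lp_sq hρ _ x).2 fun k hk => ?_
    refine Finset.mem_map.2 ⟨k - i, (hB _).2 ?_, by simp⟩
    rw [PairG_lc_sub]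
    have h1 : lc ρ k - lc ρ i = (x - lc ρ i) - (x - lc ρ k) := by abel
    rw [h1]
    have := norm_sub_le (x - lc ρ i) (x - lc ρ k)
    linarith only [hρ, h, hk, this]
  · refine Finset.sum_eq_zero fun b hb => ?_
    have h1 := (hB b).1 hb
    have h2 : x - lc ρ i = (x - lc ρ (i + b)) + lc ρ b := by
      rw [PairG_lc]
      abel
    have h3 := norm_add_le (x - lc ρ (i + b)) (lc ρ b)
    rw [← h2] at h3
    rw [lp_eq_zero hρ _ (by linarith only [h, h1, h3])]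
    ring

theorem PairG_u_sum {ρ : ℝ} (hρ : 0 < ρ) {B I : Finset (Fin m → ℤ)}
    (hB : ∀ b, b ∈ B ↔ ‖lc ρ b‖ ≤ 12 * ρ) (x : E m) (hI : ∀ i, ‖x - lc ρ i‖ ≤ 13 * ρ → i ∈ I) :
    ∑ i ∈ I, PairG_u ρ B i x = B.card := by
  unfold PairG_u
  rw [Finset.sum_comm]
  have h : ∀ b ∈ B, ∑ i ∈ I, lp ρ (i + b) x ^ 2 = 1 := fun b hb => by
    have h1 : ∑ i ∈ I, lp ρ (i + b) x ^ 2 = ∑ k ∈ I.map (addRightEmbedding b), lp ρ k x ^ 2 := by
      rw [Finset.sum_map]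
      rfl
    rw [h1]
    refine (sum_lp_sq hρ _ x).2 fun k hk => ?_
    refine Finset.mem_map.2 ⟨k - b, hI _ ?_, by simp⟩
    rw [PairG_lc_sub]
    have h2 : x - (lc ρ k - lc ρ b) = (x - lc ρ k) + lc ρ b := by abel
    rw [h2]
    have h3 := norm_add_le (x - lc ρ k) (lc ρ b)
    have h4 := (hB b).1 hb
    linarith only [hρ, hk, h3, h4]
  rw [Finset.sum_congr rfl h]
  simp

theorem PairG_u_cd (ρ : ℝ) (B : Finset (Fin m → ℤ)) (i : Fin m → ℤ) :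
    ContDiff ℝ 1 (PairG_u ρ B i) :=
  ContDiff.sum fun b _ => (contDiff_lp ρ (i + b) 1).pow 2

theorem PairG_u_der {ρ C : ℝ} (B : Finset (Fin m → ℤ))
    (hC : ∀ j : Fin m → ℤ, ∀ x, ‖fderiv ℝ (fun x => lp ρ j x ^ 2) x‖ ≤ C) (i : Fin m → ℤ)
    (x : E m) : ‖fderiv ℝ (PairG_u ρ B i) x‖ ≤ B.card * C := by
  have h : fderiv ℝ (PairG_u ρ B i) x = ∑ b ∈ B, fderiv ℝ (fun x => lp ρ (i + b) x ^ 2) x :=
    fderiv_fun_sum fun b _ =>
      (((contDiff_lp ρ (i + b) 1).pow 2).differentiable (by simp)).differentiableAt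
  rw [h]
  refine (norm_sum_le _ _).trans ?_
  refine (Finset.sum_le_card_nsmul _ _ C fun b _ => hC _ _).trans ?_
  rw [nsmul_eq_mul]

/-- the weights on the base -/
theorem PairG_weights (m : ℕ) : ∃ C : ℝ, 1 ≤ C ∧ ∀ (ξ₀ : E m) (R ρ : ℝ), 0 < ρ → 1000 * ρ ≤ R →
    ∃ (I : Finset (Fin m → ℤ)) (φ : (Fin m → ℤ) → E m → ℝ),
      (∀ i ∈ I, ‖lc ρ i - ξ₀‖ ≤ 3 * R / 5 + 13 * ρ) ∧
      (∀ j, ‖lc ρ j - ξ₀‖ ≤ 2 * R / 5 → j ∈ I ∧ ∀ x ∈ closedBall (lc ρ j) (11 * ρ), φ j x = 1) ∧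
      (∀ i, ContDiff ℝ 1 (φ i)) ∧
      (∀ i x, 0 ≤ φ i x ∧ φ i x ≤ 1 ∧ ‖fderiv ℝ (φ i) x‖ ≤ C / ρ) ∧
      (∀ i x, 13 * ρ < ‖x - lc ρ i‖ → φ i =ᶠ[𝓝 x] 0) ∧
      (∀ i x, 3 * R / 5 < ‖x - ξ₀‖ → φ i =ᶠ[𝓝 x] 0) ∧
      (∀ x, ‖∑ i ∈ I, fderiv ℝ (φ i) x‖ ≤ C / R) ∧
      ∀ x, ((I.filter fun i => ‖x - lc ρ i‖ ≤ 13 * ρ).card : ℝ) ≤ C := by
  obtain ⟨Cc, hCc, hcut⟩ := exists_cut
  obtain ⟨Cp, hCp, hp⟩ := lp_bd m
  obtain ⟨Cl, hCl, hl⟩ := lattice_bd m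
  have h13 : (1 : ℝ) ≤ 13 ^ m := one_le_pow₀ (by norm_num)
  set n : ℝ := Cl * 13 ^ m with hn
  have hn1 : 1 ≤ n := one_le_mul_of_one_le_of_one_le hCl h13
  refine ⟨10 * Cc * n + n * Cp, by nlinarith only [hCc, hn1, hCp, mul_pos (by linarith : 0 < n) (by linarith : 0 < Cp)],
    fun ξ₀ R ρ hρ hR => ?_⟩
  have hR0 : 0 < R := by linarith
  obtain ⟨χ, hχt, hχ0, hχ1, hχb⟩ := hcut ξ₀ (R / 2) (3 * R / 5) (by linarith) (by linarith)
  have hfB := (hl ρ hρ).1 (closedBall 0 (12 * ρ)) isBounded_closedBall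
  have hfI := (hl ρ hρ).1 (closedBall ξ₀ (3 * R / 5 + 13 * ρ)) isBounded_closedBall
  have hB : ∀ b, b ∈ hfB.toFinset ↔ ‖lc ρ b‖ ≤ 12 * ρ := fun b => by simp
  have hI : ∀ i, i ∈ hfI.toFinset ↔ ‖lc ρ i - ξ₀‖ ≤ 3 * R / 5 + 13 * ρ := fun i => by
    simp [dist_eq_norm]
  generalize hfB.toFinset = B at hB
  generalize hfI.toFinset = I at hI
  have hcard : ∀ (J : Finset (Fin m → ℤ)) (x : E m),
      ((J.filter fun i => ‖x - lc ρ i‖ ≤ 13 * ρ).card : ℝ) ≤ n := fun J x => by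
    have := (hl ρ hρ).2 J x (13 * ρ) (by linarith)
    rwa [mul_div_assoc, div_self hρ.ne', mul_one] at this
  have hBn : (B.card : ℝ) ≤ n := by
    have h1 : B.filter (fun i => ‖(0 : E m) - lc ρ i‖ ≤ 13 * ρ) = B :=
      Finset.filter_true_of_mem fun b hb => by
        have := (hB b).1 hb
        rw [zero_sub, norm_neg]
        linarith
    have := hcard B 0
    rwa [h1] at this
  have hχd : ∀ x, ‖fderiv ℝ χ x‖ ≤ 10 * Cc / R := fun x => by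
    refine (hχb.b1 x).trans (le_of_eq ?_)
    have : 3 * R / 5 - R / 2 = R / 10 := by ring
    rw [this]
    field_simp
  have hχz : ∀ x, 3 * R / 5 ≤ ‖x - ξ₀‖ → χ x = 0 := fun x hx => by
    by_contra h
    have := hχt.supp (subset_tsupport _ h)
    rw [mem_ball, dist_eq_norm] at this
    linarith
  have hχc : ContDiff ℝ 1 χ := hχt.smooth.of_le (by norm_num)
  have hdχ : ∀ x, DifferentiableAt ℝ χ x := fun x => (hχc.differentiable (by simp)) x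
  have hdu : ∀ i x, DifferentiableAt ℝ (PairG_u ρ B i) x := fun i x =>
    ((PairG_u_cd ρ B i).differentiable (by simp)) x
  have hcp : 0 ≤ n * Cp := by positivity
  have hcc : 0 ≤ 10 * Cc * n := by positivity
  refine ⟨I, fun i x => χ x * PairG_u ρ B i x, fun i hi => (hI i).1 hi, fun j hj => ⟨?_, ?_⟩,
    fun i => hχc.mul (PairG_u_cd ρ B i), fun i x => ⟨?_, ?_, ?_⟩, fun i x hx => ?_,
    fun i x hx => ?_, fun x => ?_, fun x => (hcard I x).trans (by nlinarith only [hCc, hn1, hcp])⟩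
  · exact (hI j).2 (by linarith only [hρ, hR, hj])
  · intro x hx
    rw [mem_closedBall, dist_eq_norm] at hx
    have h1 : x - ξ₀ = (x - lc ρ j) + (lc ρ j - ξ₀) := by abel
    have h2 := norm_add_le (x - lc ρ j) (lc ρ j - ξ₀)
    rw [← h1] at h2
    have h3 : χ x = 1 := hχ1 x (by rw [mem_closedBall, dist_eq_norm]; linarith only [hρ, hR, hj, hx, h2])
    simp only [h3, (PairG_u_bd hρ hB j x).2.2.1 hx, mul_one]
  · exact mul_nonneg (hχ0 x).1 (PairG_u_bd hρ hB i x).1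
  · exact mul_le_one₀ (hχ0 x).2 (PairG_u_bd hρ hB i x).1 (PairG_u_bd hρ hB i x).2.1
  · rw [fderiv_fun_mul (hdχ x) (hdu i x)]
    have h1 := PairG_u_der B (fun j => ((hp ρ hρ j).2.1).b1) i x
    have h2 := PairG_u_bd hρ hB i x
    refine (norm_add_le _ _).trans ?_
    rw [norm_smul, norm_smul, Real.norm_eq_abs, Real.norm_eq_abs, abs_of_nonneg (hχ0 x).1,
      abs_of_nonneg h2.1]
    have h3 : χ x * ‖fderiv ℝ (PairG_u ρ B i) x‖ ≤ n * Cp / ρ := by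
      refine (mul_le_of_le_one_left (norm_nonneg _) (hχ0 x).2).trans (h1.trans ?_)
      rw [mul_div_assoc]
      exact mul_le_mul_of_nonneg_right hBn (by positivity)
    have h4 : PairG_u ρ B i x * ‖fderiv ℝ χ x‖ ≤ 10 * Cc * n / ρ := by
      refine (mul_le_of_le_one_left (norm_nonneg _) h2.2.1).trans ((hχd x).trans ?_)
      exact div_le_div₀ hcc (by nlinarith only [hn1, hCc]) hρ (by linarith)
    rw [add_div]
    linarith only [h3, h4]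
  · have h1 : ∀ᶠ z in 𝓝 x, 25 * ρ / 2 < ‖z - lc ρ i‖ :=
      (isOpen_lt continuous_const (by fun_prop)).mem_nhds (show 25 * ρ / 2 < _ by linarith)
    filter_upwards [h1] with z hz
    simp [(PairG_u_bd hρ hB i z).2.2.2 hz]
  · have h1 : ∀ᶠ z in 𝓝 x, 3 * R / 5 < ‖z - ξ₀‖ :=
      (isOpen_lt continuous_const (by fun_prop)).mem_nhds hx
    filter_upwards [h1] with z hz
    simp [hχz z hz.le]
  · have h1 : (fun z => ∑ i ∈ I, χ z * PairG_u ρ B i z) = fun z => (B.card : ℝ) * χ z := by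
      funext z
      rw [← Finset.mul_sum, mul_comm]
      rcases le_or_gt (3 * R / 5) ‖z - ξ₀‖ with h | h
      · simp [hχz z h]
      · rw [PairG_u_sum hρ hB z fun i hi => (hI i).2 ?_]
        have h2 : lc ρ i - ξ₀ = (z - ξ₀) - (z - lc ρ i) := by abel
        have h3 := norm_sub_le (z - ξ₀) (z - lc ρ i)
        rw [h2]
        linarith only [h, hi, h3]
    rw [← fderiv_fun_sum fun i _ => (hdχ x).fun_mul (hdu i x), h1, fderiv_const_mul (hdχ x),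
      norm_smul, Real.norm_eq_abs, abs_of_nonneg (Nat.cast_nonneg _)]
    calc (B.card : ℝ) * ‖fderiv ℝ χ x‖ ≤ n * (10 * Cc / R) :=
          mul_le_mul hBn (hχd x) (norm_nonneg _) (by linarith)
      _ = 10 * Cc * n / R := by ring
      _ ≤ _ := div_le_div_of_nonneg_right (by linarith) hR0.le

/-- the close pairs over `Z` -/
def PairG_W (Z : Set (E N)) (t : ℝ) : Set (E N × E N) :=
  {q | q.1 ∈ Z ∧ q.2 ∈ Z ∧ ‖q.1 - q.2‖ < t}

theorem PairG_W_int {μ : Measure (E N)} [IsFiniteMeasure μ] {A t M : ℝ} (hA : UB m μ A)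
    (ht : 0 < t) {Z : Set (E N)} (hZ : MeasurableSet Z) {h : E N → ℝ} (hm : Measurable h)
    (h0 : ∀ y, 0 ≤ h y) (h1 : ∀ y, h y ≤ M) :
    Integrable ((PairG_W Z t).indicator fun q => h q.1 + h q.2) (μ.prod μ) ∧
      ∫ q, (PairG_W Z t).indicator (fun q => h q.1 + h q.2) q ∂(μ.prod μ) ≤
        2 * (A * t ^ m * ∫ y in Z, h y ∂μ) := by
  have hW : MeasurableSet (PairG_W Z t) :=
    (measurable_fst hZ).inter ((measurable_snd hZ).inter
      (measurableSet_lt (measurable_fst.sub measurable_snd).norm measurable_const))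
  have hb : ∀ y, ‖h y‖ ≤ M := fun y => by
    rw [Real.norm_eq_abs, abs_of_nonneg (h0 y)]
    exact h1 y
  have i0 : Integrable h μ := Integrable.of_bound hm.aestronglyMeasurable M (ae_of_all _ hb)
  have i1 : Integrable ((PairG_W Z t).indicator fun q : E N × E N => h q.1) (μ.prod μ) :=
    (Integrable.of_bound (hm.comp measurable_fst).aestronglyMeasurable M
      (ae_of_all _ fun q => hb _)).indicator hW
  have i2 : Integrable ((PairG_W Z t).indicator fun q : E N × E N => h q.2) (μ.prod μ) :=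
    (Integrable.of_bound (hm.comp measurable_snd).aestronglyMeasurable M
      (ae_of_all _ fun q => hb _)).indicator hW
  have e1 : ∫ q, (PairG_W Z t).indicator (fun q : E N × E N => h q.1) q ∂(μ.prod μ) ≤
      A * t ^ m * ∫ y in Z, h y ∂μ := by
    rw [integral_prod _ i1, ← integral_indicator hZ, ← integral_const_mul]
    refine integral_mono_ae i1.integral_prod_left ((i0.indicator hZ).const_mul _) ?_
    filter_upwards [i1.prod_right_ae] with y hy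
    have h2 : ∫ y', (PairG_W Z t).indicator (fun q : E N × E N => h q.1) (y, y') ∂μ ≤
        ∫ y', (ball y t).indicator (fun _ => Z.indicator h y) y' ∂μ := by
      refine integral_mono hy ((integrable_const _).indicator measurableSet_ball) fun y' => ?_
      by_cases hq : (y, y') ∈ PairG_W Z t
      · have h3 : y' ∈ ball y t := by
          rw [mem_ball', dist_eq_norm]
          exact hq.2.2
        simp only [indicator_of_mem hq, indicator_of_mem h3, indicator_of_mem hq.1, le_refl]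
      · simp only [indicator_of_notMem hq]
        exact indicator_nonneg (fun _ _ => indicator_nonneg (fun _ _ => h0 _) _) _
    refine h2.trans ?_
    rw [integral_indicator measurableSet_ball, setIntegral_const, smul_eq_mul]
    exact mul_le_mul_of_nonneg_right (hA y t ht) (indicator_nonneg (fun _ _ => h0 _) _)
  have e2 : ∫ q, (PairG_W Z t).indicator (fun q : E N × E N => h q.2) q ∂(μ.prod μ) =
      ∫ q, (PairG_W Z t).indicator (fun q : E N × E N => h q.1) q ∂(μ.prod μ) := by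
    rw [← integral_prod_swap]
    refine integral_congr_ae (ae_of_all _ fun q => ?_)
    have h2 : q.swap ∈ PairG_W Z t ↔ q ∈ PairG_W Z t := by
      simp only [PairG_W, mem_ofPred_eq, Prod.fst_swap, Prod.snd_swap, norm_sub_rev q.2 q.1]
      tauto
    by_cases hq : q ∈ PairG_W Z t
    · simp only [indicator_of_mem hq, indicator_of_mem (h2.2 hq), Prod.snd_swap]
    · simp only [indicator_of_notMem hq, indicator_of_notMem (mt h2.1 hq)]
  have h3 : ((PairG_W Z t).indicator fun q : E N × E N => h q.1 + h q.2) = fun q =>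
      (PairG_W Z t).indicator (fun q : E N × E N => h q.1) q +
        (PairG_W Z t).indicator (fun q : E N × E N => h q.2) q := indicator_add _ _ _
  rw [h3]
  refine ⟨i1.add i2, ?_⟩
  rw [integral_add i1 i2, e2]
  linarith

theorem PairG_cube {M a ρ t : ℝ} (hM : 1 ≤ M) (ha : 0 ≤ a) (haM : a ≤ M) (hρ : 0 ≤ ρ)
    (ht0 : 0 ≤ t) (ht : t ≤ a + M * ρ ^ 2) : √t ^ 3 ≤ 4 * M ^ 2 * (a + ρ ^ 3) := by
  have h0 : √t ^ 3 = t * √t := by rw [pow_succ, Real.sq_sqrt ht0]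
  have hρ3 : 0 ≤ ρ ^ 3 := by positivity
  have hM2 : 0 ≤ M ^ 2 := by positivity
  rw [h0]
  rcases le_total (M * ρ ^ 2) a with h | h
  · have h1 : √t ≤ 2 * M := Real.sqrt_le_iff.2 ⟨by linarith, by nlinarith only [hM, haM, ht, h]⟩
    calc t * √t ≤ 2 * a * (2 * M) := mul_le_mul (by linarith) h1 (Real.sqrt_nonneg _) (by linarith)
      _ ≤ 4 * M ^ 2 * a := by nlinarith only [ha, hM, mul_nonneg ha (by linarith : 0 ≤ M - 1)]
      _ ≤ _ := by nlinarith only [hM2, hρ3, mul_nonneg hM2 hρ3]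
  · have h2 : 0 ≤ M * ρ ^ 2 := by positivity
    have h1 : √t ≤ 2 * M * ρ := Real.sqrt_le_iff.2 ⟨by positivity, by
      nlinarith only [ht, h, h2, hM, mul_nonneg h2 (by linarith : 0 ≤ M - 1)]⟩
    calc t * √t ≤ 2 * (M * ρ ^ 2) * (2 * M * ρ) :=
          mul_le_mul (by linarith) h1 (Real.sqrt_nonneg _) (by linarith)
      _ = 4 * M ^ 2 * ρ ^ 3 := by ring
      _ ≤ _ := by nlinarith only [hM2, ha, mul_nonneg hM2 ha]

theorem PairG_near {S : Ref m N} {ξ₁ : E m} {ι' : E m →ₗᵢ[ℝ] E N} (h : S.Tan ξ₁ ι') {T : ℝ}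
    (hT : 0 < T) {y y' : E N} (hy : ‖S.gh y‖ ≤ T) (hy' : ‖S.gh y'‖ ≤ T)
    (hv : ‖pr ι' (y - y')‖ ≤ 2 * T) :
    ‖pr S.ι y - pr S.ι y'‖ ≤ 5 * T / 2 ∧ ‖y - y'‖ < 6 * T := by
  obtain ⟨h1, h2⟩ := h.sep y y'
  constructor <;> linarith only [hT, hy, hy', hv, h1, h2]

theorem PairG_good (S : Ref m N) {T : ℝ} (hT : T ≤ 1 / 100) {y : E N} (hy : ‖S.gh y‖ ≤ T) :
    y ∈ S.tube ∧ ‖S.zeta y - pr S.ι y‖ ≤ T / 100 := by
  have h1 : y ∈ S.tube := show ‖S.gh y‖ < 1 / 2 by linarith only [hT, hy]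
  obtain ⟨-, -, h2, -, h3⟩ := S.tube_spec h1
  exact ⟨h1, by linarith only [hy, h2, h3]⟩

/-- the cubic terms -/
theorem PairG_err (hm : 1 ≤ m) {S : Ref m N} (fr : Fr m N) {ξ₁ : E m} {ι' : E m →ₗᵢ[ℝ] E N}
    (h : S.Tan ξ₁ ι') {T ρ C : ℝ} (hT : 0 < T) (hT1 : T ≤ 1 / 100) (hρ : T ≤ ρ) (hC : 1 ≤ C)
    {ϖ : E N → ℝ} {y y' : E N} (hy : ‖S.gh y‖ ≤ T) (hy' : ‖S.gh y'‖ ≤ T)
    (hx : ‖pr S.ι y - ξ₁‖ ≤ 13 * ρ) (hv : ‖pr ι' (y - y')‖ ≤ 2 * T) (h0 : |ϖ y| ≤ 1)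
    (h1 : ‖fderiv ℝ ϖ y‖ ≤ C / ρ) :
    PairB_M fr ι' (2 * T) ϖ (y, y') ≤ 16 * C * (512 * m) ^ 2 / (T * T ^ m) *
      ((S.dd fr y + ρ ^ 3) + (S.dd fr y' + ρ ^ 3)) := by
  have hm' : (1 : ℝ) ≤ m := by exact_mod_cast hm
  have hρ0 : 0 < ρ := by linarith
  obtain ⟨n1, -⟩ := PairG_near h hT hy hy' hv
  have key : ∀ z : E N, ‖S.gh z‖ ≤ T → ‖pr S.ι z - ξ₁‖ ≤ 31 * ρ / 2 →
      tlt ι' (fun l => fr.s l z) ≤ 2 * S.dd fr z + m * (16 * ρ) ^ 2 := fun z hz hz' => by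
    have h2 := (h.tilt (S.zeta z) (fr.orth z)).2
    have h3 := (PairG_good S hT1 hz).2
    have h4 : S.zeta z - ξ₁ = (S.zeta z - pr S.ι z) + (pr S.ι z - ξ₁) := by abel
    have h5 := norm_add_le (S.zeta z - pr S.ι z) (pr S.ι z - ξ₁)
    rw [← h4] at h5
    have h6 : ‖S.zeta z - ξ₁‖ ^ 2 ≤ (16 * ρ) ^ 2 :=
      pow_le_pow_left₀ (norm_nonneg _) (by linarith only [hT, hρ, hz', h3, h5]) 2
    exact h2.trans (add_le_add le_rfl (mul_le_mul_of_nonneg_left h6 (by linarith)))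
  have k1 := key y hy (by linarith only [hT, hρ, hx])
  have k2 := key y' hy' (by
    have h4 : pr S.ι y' - ξ₁ = (pr S.ι y - ξ₁) - (pr S.ι y - pr S.ι y') := by abel
    have h5 := norm_sub_le (pr S.ι y - ξ₁) (pr S.ι y - pr S.ι y')
    rw [h4]
    linarith only [hρ, hx, n1, h5])
  obtain ⟨d0, d1, -⟩ := S.dd_bd fr y
  obtain ⟨d0', d1', -⟩ := S.dd_bd fr y'
  have t0 := (tlt_bd ι' (fr.orth y)).1
  have t0' := (tlt_bd ι' (fr.orth y')).1
  have c1 := PairG_cube (M := 512 * m) (a := 2 * S.dd fr y + 2 * S.dd fr y') (ρ := ρ)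
    (t := tlt ι' (fun l => fr.s l y) + tlt ι' fun l => fr.s l y') (by linarith only [hT, hT1, hm']) (by linarith only [d0, d0'])
    (by linarith only [hT, hT1, hm', d1, d1']) hρ0.le (by linarith only [t0, t0']) (by nlinarith only [k1, k2])
  have c2 : (|ϖ y| / (2 * T) + ‖fderiv ℝ ϖ y‖) / (2 * T) ^ m ≤ 2 * C / (T * T ^ m) := by
    have e1 : |ϖ y| / (2 * T) ≤ C / T := div_le_div₀ (by linarith only [hT, hT1, hC]) (by linarith only [hC, h0]) hT (by linarith only [hT])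
    have e2 : C / ρ ≤ C / T := div_le_div_of_nonneg_left (by linarith only [hT, hT1, hC]) hT hρ
    have e3 : T ^ m ≤ (2 * T) ^ m := pow_le_pow_left₀ hT.le (by linarith) m
    calc _ ≤ (2 * C / T) / T ^ m :=
          div_le_div₀ (by positivity) (by rw [mul_div_assoc]; linarith only [h1, e1, e2]) (by positivity) e3
      _ = _ := by rw [div_div]
  have hρ3 : 0 ≤ ρ ^ 3 := by positivity
  unfold PairB_M
  calc _ ≤ 2 * C / (T * T ^ m) * (4 * (512 * m) ^ 2 * (2 * S.dd fr y + 2 * S.dd fr y' + ρ ^ 3)) :=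
        mul_le_mul c2 c1 (by positivity) (by positivity)
    _ ≤ 2 * C / (T * T ^ m) *
          (4 * (512 * m) ^ 2 * (2 * ((S.dd fr y + ρ ^ 3) + (S.dd fr y' + ρ ^ 3)))) := by
        gcongr
        linarith only [hρ3]
    _ = _ := by ring

/-- the vector of the main term -/
noncomputable def PairG_V (ι : E m →ₗᵢ[ℝ] E N) (g r : ℝ) (v : E N) : E N :=
  rho r (pr ι v) • Ph1 g (vt ι v)

theorem PairG_main_eq (fr : Fr m N) (ι : E m →ₗᵢ[ℝ] E N) (g r : ℝ) (ϖ : E N → ℝ) (y y' : E N) :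
    pairMain fr ι g r ϖ y y' = ∑ l, fderiv ℝ ϖ y (fr.s l y) *
      ⟪fr.nrm y' (fr.s l y), PairG_V ι g r (y - y')⟫ := by
  rw [pairMain, Finset.mul_sum]
  refine Finset.sum_congr rfl fun l _ => ?_
  rw [PairG_V, real_inner_smul_right]
  ring

theorem PairG_V_le (ι : E m →ₗᵢ[ℝ] E N) {g T : ℝ} (hg : 0 < g) (hT : 0 < T) (v : E N) :
    ‖PairG_V ι g (2 * T) v‖ ≤ g / (cg m * T ^ m) := by
  have hr : 0 < 2 * T := by linarith
  have hc := cg_pos m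
  rw [PairG_V, norm_smul, Real.norm_eq_abs, abs_of_nonneg (rho_nonneg hr _)]
  have e3 : T ^ m ≤ (2 * T) ^ m := pow_le_pow_left₀ hT.le (by linarith) m
  calc _ ≤ 1 / (cg m * (2 * T) ^ m) * g :=
        mul_le_mul (rho_le hr _) ((Ph1_bd hg).1 _) (norm_nonneg _) (by positivity)
    _ ≤ 1 / (cg m * T ^ m) * g := by gcongr
    _ = _ := by ring

theorem PairG_V_sub {S : Ref m N} {ξ₁ ξ₂ : E m} {ι₁ ι₂ : E m →ₗᵢ[ℝ] E N} (h₁ : S.Tan ξ₁ ι₁)
    (h₂ : S.Tan ξ₂ ι₂) {g T ρ : ℝ} (hg : 0 < g) (hgT : g ≤ T) (hξ : ‖ξ₁ - ξ₂‖ ≤ 13 * ρ)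
    {v : E N} (hv : ‖v‖ ≤ 6 * T) :
    ‖PairG_V ι₁ g (2 * T) v - PairG_V ι₂ g (2 * T) v‖ ≤ 51 * ρ * T / (cg m * T ^ m) := by
  have hT : 0 < T := by linarith
  have hr : 0 < 2 * T := by linarith
  have hc := cg_pos m
  have hρ : 0 ≤ ρ := by linarith [norm_nonneg (ξ₁ - ξ₂)]
  obtain ⟨c1, c2⟩ := h₁.cmp h₂ v
  have e3 : T ^ m ≤ (2 * T) ^ m := pow_le_pow_left₀ hT.le (by linarith) m
  have e4 : 1 / (cg m * (2 * T) ^ m) ≤ 1 / (cg m * T ^ m) := by gcongr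
  have a1 : ‖Ph1 g (vt ι₁ v) - Ph1 g (vt ι₂ v)‖ ≤ 4 * ρ * T := by
    have h1 := (Ph1_bd (N := N) hg).2.1 (vt ι₁ v) (vt ι₂ v)
    have h2 : ‖ξ₁ - ξ₂‖ * ‖v‖ ≤ 13 * ρ * (6 * T) :=
      mul_le_mul hξ hv (norm_nonneg _) (by positivity)
    nlinarith only [c1, h1, h2, hρ, hT, mul_nonneg hρ hT.le]
  have a2 : |rho (2 * T) (pr ι₁ v) - rho (2 * T) (pr ι₂ v)| ≤ 47 * ρ / (cg m * T ^ m) := by
    have h1 := gam_lip (a := ‖pr ι₁ v‖ ^ 2 / (2 * T) ^ 2) (b := ‖pr ι₂ v‖ ^ 2 / (2 * T) ^ 2)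
      (by positivity) (by positivity)
    have h2 : ‖ξ₁ - ξ₂‖ * ‖v‖ ^ 2 ≤ 13 * ρ * (6 * T) ^ 2 :=
      mul_le_mul hξ (pow_le_pow_left₀ (norm_nonneg _) hv 2) (by positivity) (by positivity)
    have h3 : |‖pr ι₁ v‖ ^ 2 / (2 * T) ^ 2 - ‖pr ι₂ v‖ ^ 2 / (2 * T) ^ 2| ≤ 47 * ρ / 4 := by
      rw [← sub_div, abs_div, abs_of_pos (by positivity : 0 < (2 * T) ^ 2),
        div_le_iff₀ (by positivity)]
      nlinarith only [c2, h2, hρ, mul_nonneg hρ (sq_nonneg T)]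
    rw [rho, rho, ← sub_div, abs_div, abs_of_pos (by positivity : 0 < cg m * (2 * T) ^ m)]
    exact div_le_div₀ (by positivity) (by linarith only [h1, h3]) (by positivity) (by gcongr)
  have h5 : PairG_V ι₁ g (2 * T) v - PairG_V ι₂ g (2 * T) v =
      (rho (2 * T) (pr ι₁ v) - rho (2 * T) (pr ι₂ v)) • Ph1 g (vt ι₁ v) +
        rho (2 * T) (pr ι₂ v) • (Ph1 g (vt ι₁ v) - Ph1 g (vt ι₂ v)) := by
    rw [PairG_V, PairG_V, sub_smul, smul_sub]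
    abel
  rw [h5]
  refine (norm_add_le _ _).trans ?_
  rw [norm_smul, norm_smul, Real.norm_eq_abs, Real.norm_eq_abs, abs_of_nonneg (rho_nonneg hr _)]
  calc _ ≤ 47 * ρ / (cg m * T ^ m) * T + 1 / (cg m * T ^ m) * (4 * ρ * T) :=
        add_le_add (mul_le_mul a2 (((Ph1_bd hg).1 _).trans hgT) (norm_nonneg _) (by positivity))
          (mul_le_mul ((rho_le hr _).trans e4) a1 (norm_nonneg _) (by positivity))
    _ = _ := by ring

theorem PairG_op (L : E N →L[ℝ] ℝ) {s : E N} (hs : ‖s‖ = 1) : |L s| ≤ ‖L‖ := by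
  have h := L.le_opNorm s
  rwa [hs, mul_one] at h

/-- the sum of the main terms -/
theorem PairG_main {S : Ref m N} (fr : Fr m N) {T ρ R g C : ℝ} (hg : 0 < g) (hgT : g ≤ T)
    (hT1 : T ≤ 1 / 100) (hρ : T ≤ ρ) (hR : 0 < R) (hC : 1 ≤ C)
    {ι : (Fin m → ℤ) → E m →ₗᵢ[ℝ] E N} (hι : ∀ j, S.Tan (lc ρ j) (ι j)) {I : Finset (Fin m → ℤ)}
    {ϖ : (Fin m → ℤ) → E N → ℝ} {y y' : E N} (hy : ‖S.gh y‖ ≤ T) (hy' : ‖S.gh y'‖ ≤ T)
    (hv : ‖y - y'‖ ≤ 6 * T) (h1 : ∀ i, ‖fderiv ℝ (ϖ i) y‖ ≤ C / ρ)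
    (h2 : ∀ i, 13 * ρ < ‖pr S.ι y - lc ρ i‖ → fderiv ℝ (ϖ i) y = 0)
    (h3 : ‖∑ i ∈ I, fderiv ℝ (ϖ i) y‖ ≤ C / R)
    (h4 : ((I.filter fun i => ‖pr S.ι y - lc ρ i‖ ≤ 13 * ρ).card : ℝ) ≤ C) :
    |∑ i ∈ I, pairMain fr (ι i) g (2 * T) (ϖ i) y y'| ≤
      102 * m * C ^ 2 / (cg m * T ^ m) * (g / R + T) *
        ((√(S.dd fr y) + T) + (√(S.dd fr y') + T)) := by
  have hT : 0 < T := by linarith
  have hρ0 : 0 < ρ := by linarith
  have hc := cg_pos m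
  obtain ⟨ι₀, h0⟩ := S.exists_tan (pr S.ι y)
  set a : ℝ := (√(S.dd fr y) + T) + (√(S.dd fr y') + T) with ha
  have s1 := Real.sqrt_nonneg (S.dd fr y)
  have s2 := Real.sqrt_nonneg (S.dd fr y')
  have ha0 : 0 ≤ a := by positivity
  have hn : ∀ l, ‖fr.nrm y' (fr.s l y)‖ ≤ 2 * a := fun l => by
    have e1 := S.nrm_bd fr y y' l
    have e2 := (S.zeta_lip (PairG_good S hT1 hy).1 (PairG_good S hT1 hy').1).1
    unfold Fr.nrm
    linarith only [hg, hgT, hv, s1, e1, e2]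
  have hs : ∀ l, ‖fr.s l y‖ = 1 := fun l => (fr.orth y).1 l
  set k : ℝ := 1 / (cg m * T ^ m) with hk
  have hk0 : 0 ≤ k := by positivity
  have key : ∀ l, |∑ i ∈ I, fderiv ℝ (ϖ i) y (fr.s l y) *
      ⟪fr.nrm y' (fr.s l y), PairG_V (ι i) g (2 * T) (y - y')⟫| ≤
        102 * C ^ 2 * k * (g / R + T) * a := fun l => by
    have e1 : ∑ i ∈ I, fderiv ℝ (ϖ i) y (fr.s l y) *
        ⟪fr.nrm y' (fr.s l y), PairG_V (ι i) g (2 * T) (y - y')⟫ =
        ∑ i ∈ I, fderiv ℝ (ϖ i) y (fr.s l y) * ⟪fr.nrm y' (fr.s l y),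
          PairG_V (ι i) g (2 * T) (y - y') - PairG_V ι₀ g (2 * T) (y - y')⟫ +
        (∑ i ∈ I, fderiv ℝ (ϖ i) y) (fr.s l y) *
          ⟪fr.nrm y' (fr.s l y), PairG_V ι₀ g (2 * T) (y - y')⟫ := by
      rw [sum_apply, Finset.sum_mul, ← Finset.sum_add_distrib]
      refine Finset.sum_congr rfl fun i _ => ?_
      rw [inner_sub_right]
      ring
    have e2 : |(∑ i ∈ I, fderiv ℝ (ϖ i) y) (fr.s l y) *
        ⟪fr.nrm y' (fr.s l y), PairG_V ι₀ g (2 * T) (y - y')⟫| ≤ C / R * (2 * a * (g * k)) := by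
      rw [abs_mul]
      refine mul_le_mul ?_ ((abs_real_inner_le_norm _ _).trans (mul_le_mul (hn l) ?_
        (norm_nonneg _) (by positivity))) (abs_nonneg _) (by positivity)
      · exact (PairG_op _ (hs l)).trans h3
      · rw [hk, mul_one_div]
        exact PairG_V_le ι₀ hg hT _
    have e3 : |∑ i ∈ I, fderiv ℝ (ϖ i) y (fr.s l y) * ⟪fr.nrm y' (fr.s l y),
        PairG_V (ι i) g (2 * T) (y - y') - PairG_V ι₀ g (2 * T) (y - y')⟫| ≤
          C * (C / ρ * (2 * a * (51 * ρ * T * k))) := by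
      rw [← Finset.sum_filter_of_ne (p := fun i => ‖pr S.ι y - lc ρ i‖ ≤ 13 * ρ) fun i _ hi => by
        by_contra hn'
        rw [h2 i (not_le.1 hn')] at hi
        simp at hi]
      refine (Finset.abs_sum_le_sum_abs _ _).trans ?_
      refine (Finset.sum_le_card_nsmul _ _ (C / ρ * (2 * a * (51 * ρ * T * k)))
        fun i hi => ?_).trans ?_
      · rw [abs_mul]
        refine mul_le_mul ?_ ((abs_real_inner_le_norm _ _).trans (mul_le_mul (hn l) ?_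
          (norm_nonneg _) (by positivity))) (abs_nonneg _) (by positivity)
        · exact (PairG_op _ (hs l)).trans (h1 i)
        · rw [hk, mul_one_div]
          refine PairG_V_sub (hι i) h0 hg hgT ?_ hv
          rw [norm_sub_rev]
          exact (Finset.mem_filter.1 hi).2
      · rw [nsmul_eq_mul]
        exact mul_le_mul_of_nonneg_right h4 (by positivity)
    have e4 : C * (C / ρ * (2 * a * (51 * ρ * T * k))) = 102 * C ^ 2 * k * T * a := by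
      field_simp
      ring
    have e5 : C / R * (2 * a * (g * k)) ≤ 102 * C ^ 2 * k * (g / R) * a := by
      have e6 : 0 ≤ k * (g / R) * a := by positivity
      calc _ = 2 * C * (k * (g / R) * a) := by ring
        _ ≤ 102 * C ^ 2 * (k * (g / R) * a) := mul_le_mul_of_nonneg_right (by nlinarith only [hgT, hT1, hC, hg]) e6
        _ = _ := by ring
    rw [e1]
    refine (abs_add_le _ _).trans ?_
    rw [e4] at e3
    linarith only [e2, e3, e5]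
  simp only [PairG_main_eq]
  rw [Finset.sum_comm]
  refine (Finset.abs_sum_le_sum_abs _ _).trans ?_
  refine (Finset.sum_le_card_nsmul _ _ _ fun l _ => key l).trans (le_of_eq ?_)
  rw [nsmul_eq_mul, Finset.card_univ, Fintype.card_fin, hk]
  ring

theorem PairG_comp (ι : E m →ₗᵢ[ℝ] E N) (L : E m →L[ℝ] ℝ) : ‖L ∘L pr ι‖ ≤ ‖L‖ :=
  ContinuousLinearMap.opNorm_le_bound _ (norm_nonneg _) fun v =>
    (L.le_opNorm _).trans (mul_le_mul_of_nonneg_left (norm_pr_le ι v).1 (norm_nonneg _))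

theorem PairG_der (ι : E m →ₗᵢ[ℝ] E N) {φ : E m → ℝ} (hφ : ContDiff ℝ 1 φ) (y : E N) :
    fderiv ℝ (fun y => φ (pr ι y)) y = fderiv ℝ φ (pr ι y) ∘L pr ι :=
  (((hφ.differentiable (by simp)) (pr ι y)).hasFDerivAt.comp y (pr ι).hasFDerivAt).fderiv

/-- the compact sets of the identity -/
def PairG_K (S : Ref m N) (T : ℝ) (ξ : E m) (t : ℝ) : Set (E N) :=
  {y | pr S.ι y ∈ closedBall ξ t ∧ ‖S.gh y‖ ≤ T}

/-- the majorant of the error on the product -/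
noncomputable def PairG_E (S : Ref m N) (fr : Fr m N) (T ρ : ℝ) (ξ : E m) (ι : E m →ₗᵢ[ℝ] E N)
    (ϖ : E N → ℝ) : E N × E N → ℝ :=
  {q : E N × E N | q.1 ∈ PairG_K S T ξ (13 * ρ) ∧ ‖pr ι (q.1 - q.2)‖ ≤ 2 * T}.indicator
    (PairB_M fr ι (2 * T) ϖ)

variable {S : Ref m N} {fr : Fr m N} {μ : Measure (E N)} {y₀ : E N} {R T A : ℝ}

theorem PairG_dist (P : Piece S fr μ y₀ R T A) {y : E N} (hy : ‖S.gh y‖ ≤ T) :
    ‖y - y₀‖ ≤ 101 / 100 * ‖pr S.ι y - pr S.ι y₀‖ + 2 * T := by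
  obtain ⟨ι₀, h0⟩ := S.exists_tan 0
  have h1 := (h0.sep y y₀).2
  have h2 := P.cen
  linarith only [hy, h1, h2]

/-- the identity for one frame -/
theorem PairG_one (m : ℕ) : ∃ C : ℝ, 1 ≤ C ∧ ∀ {N : ℕ} {S : Ref m N} {fr : Fr m N}
    {μ : Measure (E N)} {y₀ : E N} {R T A : ℝ}, Piece S fr μ y₀ R T A →
    ∀ {ρ g : ℝ} {ξ : E m} {ι : E m →ₗᵢ[ℝ] E N} {φ : E m → ℝ}, T ≤ ρ → 1000 * ρ ≤ R → 0 < g →
    S.Tan ξ ι → ‖ξ - pr S.ι y₀‖ ≤ 3 * R / 5 + 13 * ρ → ContDiff ℝ 1 φ →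
    (∀ x, 13 * ρ < ‖x - ξ‖ → φ =ᶠ[𝓝 x] 0) →
    Integrable (fun q : E N × E N => -pairMain fr ι g (2 * T) (fun y => φ (pr S.ι y)) q.1 q.2 +
      C * g * PairG_E S fr T ρ ξ ι (fun y => φ (pr S.ι y)) q) (μ.prod μ) ∧
    PR fr μ ι g (2 * T) (fun y => φ (pr S.ι y)) ≤
      ∫ q, (-pairMain fr ι g (2 * T) (fun y => φ (pr S.ι y)) q.1 q.2 +
        C * g * PairG_E S fr T ρ ξ ι (fun y => φ (pr S.ι y)) q) ∂(μ.prod μ) := by
  obtain ⟨C, hC, hid⟩ := pair_id m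
  refine ⟨C, hC, fun {N S fr μ y₀ R T A} P {ρ g ξ ι φ} hρ hR hg hι hξ hφ h0 => ?_⟩
  have := P.fin
  have hT := P.T_pos
  have hR1 := P.R_le
  have hK : ∀ t, IsCompact (PairG_K S T ξ t) := fun t =>
    (S.isCompact_cyl (isCompact_closedBall ξ t) (by linarith only [hρ, hR, hT, hR1])).2
  have hO : ∀ t, t ≤ 16 * ρ → PairG_K S T ξ t ⊆ ball y₀ R := fun t ht y hy => by
    have h1 := PairG_dist P hy.2
    have h2 := hy.1
    rw [mem_closedBall, dist_eq_norm] at h2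
    have h3 : pr S.ι y - pr S.ι y₀ = (pr S.ι y - ξ) + (ξ - pr S.ι y₀) := by abel
    have h4 := norm_add_le (pr S.ι y - ξ) (ξ - pr S.ι y₀)
    rw [← h3] at h4
    rw [mem_ball, dist_eq_norm]
    linarith only [hρ, hR, hξ, hT, ht, h1, h2, h4]
  have hϖ : ContDiff ℝ 1 fun y => φ (pr S.ι y) := hφ.comp (pr S.ι).contDiff
  obtain ⟨i1, hb⟩ := hid fr μ (ball y₀ R) (PairG_K S T ξ (13 * ρ)) (PairG_K S T ξ (16 * ρ)) ι g
    (2 * T) (fun y => φ (pr S.ι y)) P.stat (hK _) (hK _) (hO _ (by linarith)) (hO _ le_rfl) hg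
    (by linarith) hϖ
    (by
      filter_upwards [P.ae] with y hy hn
      have h1 : 13 * ρ < ‖pr S.ι y - ξ‖ := by
        by_contra h
        exact hn ⟨by rw [mem_closedBall, dist_eq_norm]; exact not_lt.1 h, hy.2.1⟩
      exact (pr S.ι).continuous.continuousAt.eventually (h0 _ h1))
    (fun y hy => by
      filter_upwards [P.ae] with y' hy' hn
      have h1 : 16 * ρ < ‖pr S.ι y' - ξ‖ := by
        by_contra h
        exact hn ⟨by rw [mem_closedBall, dist_eq_norm]; exact not_lt.1 h, hy'.2.1⟩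
      by_contra h
      have h2 := (PairG_near hι hT hy.2 hy'.2.1 (not_lt.1 h)).1
      have h3 := hy.1
      rw [mem_closedBall, dist_eq_norm] at h3
      have h4 : pr S.ι y' - ξ = (pr S.ι y - ξ) - (pr S.ι y - pr S.ι y') := by abel
      have h5 := norm_sub_le (pr S.ι y - ξ) (pr S.ι y - pr S.ι y')
      rw [← h4] at h5
      linarith only [hρ, hT, h1, h2, h3, h5])
  obtain ⟨i2, e2⟩ := PairB_ind (μ := μ) (hK (13 * ρ)) ι (2 * T)
    (PairB_M_B fr (hK (13 * ρ)) ι (2 * T) hϖ)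
  have hb' : |PR fr μ ι g (2 * T) (fun y => φ (pr S.ι y)) +
      ∫ q, pairMain fr ι g (2 * T) (fun y => φ (pr S.ι y)) q.1 q.2 ∂(μ.prod μ)| ≤
        C * g * ∫ q, PairG_E S fr T ρ ξ ι (fun y => φ (pr S.ι y)) q ∂(μ.prod μ) := by
    unfold PairG_E
    rw [e2, integral_prod _ i1]
    exact hb
  have i3 : Integrable (fun q => C * g * PairG_E S fr T ρ ξ ι (fun y => φ (pr S.ι y)) q)
      (μ.prod μ) := i2.const_mul _
  have i4 : Integrable (fun q : E N × E N =>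
      -pairMain fr ι g (2 * T) (fun y => φ (pr S.ι y)) q.1 q.2) (μ.prod μ) := i1.neg
  refine ⟨i4.add i3, ?_⟩
  rw [integral_add i4 i3, integral_neg, integral_const_mul]
  have := (le_abs_self _).trans hb'
  linarith only [this]

theorem PairG_mem (P : Piece S fr μ y₀ R T A) (hT : 1000 * T ≤ R) {y y' : E N} (hy : ‖S.gh y‖ ≤ T)
    (hx : ‖pr S.ι y - pr S.ι y₀‖ ≤ 7 * R / 10) (hv : ‖y - y'‖ < 6 * T) :
    (y, y') ∈ PairG_W (ball y₀ (3 * R / 4)) (6 * T) := by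
  have h1 := PairG_dist P hy
  have h2 : y' - y₀ = (y - y₀) - (y - y') := by abel
  have h3 := norm_sub_le (y - y₀) (y - y')
  rw [← h2] at h3
  have h4 := P.T_pos
  refine ⟨?_, ?_, hv⟩ <;> rw [mem_ball, dist_eq_norm] <;> linarith only [hT, hx, h1, h4, hv, h3]

/-- the pointwise bound for the sum of the cubic terms -/
theorem PairG_sumE (hm : 1 ≤ m) (P : Piece S fr μ y₀ R T A) {ρ C : ℝ} (hρ : T ≤ ρ)
    (hR : 1000 * ρ ≤ R) (hC : 1 ≤ C) {ι : (Fin m → ℤ) → E m →ₗᵢ[ℝ] E N}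
    (hι : ∀ j, S.Tan (lc ρ j) (ι j)) {I : Finset (Fin m → ℤ)} {ϖ : (Fin m → ℤ) → E N → ℝ}
    (hI : ∀ i ∈ I, ‖lc ρ i - pr S.ι y₀‖ ≤ 3 * R / 5 + 13 * ρ) {q : E N × E N}
    (hy : ‖S.gh q.1‖ ≤ T) (hy' : ‖S.gh q.2‖ ≤ T) (h0 : ∀ i, |ϖ i q.1| ≤ 1)
    (h1 : ∀ i, ‖fderiv ℝ (ϖ i) q.1‖ ≤ C / ρ)
    (h4 : ((I.filter fun i => ‖pr S.ι q.1 - lc ρ i‖ ≤ 13 * ρ).card : ℝ) ≤ C) :
    ∑ i ∈ I, PairG_E S fr T ρ (lc ρ i) (ι i) (ϖ i) q ≤ C * (16 * C * (512 * m) ^ 2 / (T * T ^ m)) *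
      (PairG_W (ball y₀ (3 * R / 4)) (6 * T)).indicator
        (fun q => (S.dd fr q.1 + ρ ^ 3) + (S.dd fr q.2 + ρ ^ 3)) q := by
  have hT := P.T_pos
  have hR1 := P.R_le
  have hρ0 : 0 < ρ := by linarith
  by_cases hq : q ∈ PairG_W (ball y₀ (3 * R / 4)) (6 * T)
  · have d0 := (S.dd_bd fr q.1).1
    have d0' := (S.dd_bd fr q.2).1
    rw [indicator_of_mem hq, ← Finset.sum_filter_of_ne
      (p := fun i => ‖pr S.ι q.1 - lc ρ i‖ ≤ 13 * ρ) fun i _ hi => by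
        have h2 := (mem_of_indicator_ne_zero hi).1.1
        rwa [mem_closedBall, dist_eq_norm] at h2]
    refine (Finset.sum_le_card_nsmul _ _ (16 * C * (512 * m) ^ 2 / (T * T ^ m) *
      ((S.dd fr q.1 + ρ ^ 3) + (S.dd fr q.2 + ρ ^ 3))) fun i hi => ?_).trans ?_
    · refine indicator_apply_le' (fun h => ?_) fun _ => by positivity
      exact PairG_err hm fr (hι i) hT (by linarith only [hρ, hR, hT, hR1]) hρ hC hy hy' (Finset.mem_filter.1 hi).2 h.2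
        (h0 i) (h1 i)
    · rw [nsmul_eq_mul, mul_assoc C (16 * C * (512 * m) ^ 2 / (T * T ^ m))]
      exact mul_le_mul_of_nonneg_right h4 (by positivity)
  · rw [indicator_of_notMem hq, mul_zero]
    refine le_of_eq (Finset.sum_eq_zero fun i hi => indicator_of_notMem (fun h => hq ?_) _)
    have h2 := h.1.1
    rw [mem_closedBall, dist_eq_norm] at h2
    have h3 : pr S.ι q.1 - pr S.ι y₀ = (pr S.ι q.1 - lc ρ i) + (lc ρ i - pr S.ι y₀) := by abel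
    have h5 := norm_add_le (pr S.ι q.1 - lc ρ i) (lc ρ i - pr S.ι y₀)
    rw [← h3] at h5
    have h6 := hI i hi
    exact PairG_mem P (by linarith only [hρ, hR]) hy (by linarith only [hρ, hR, hT, h2, h5, h6]) (PairG_near (hι i) hT hy hy' h.2).2

/-- the pointwise bound for the sum of the main terms -/
theorem PairG_sumM (P : Piece S fr μ y₀ R T A) {ρ g C : ℝ} (hg : 0 < g) (hgT : g ≤ T) (hρ : T ≤ ρ)
    (hR : 1000 * ρ ≤ R) (hC : 1 ≤ C) {ι : (Fin m → ℤ) → E m →ₗᵢ[ℝ] E N}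
    (hι : ∀ j, S.Tan (lc ρ j) (ι j)) {I : Finset (Fin m → ℤ)} {ϖ : (Fin m → ℤ) → E N → ℝ}
    {q : E N × E N} (hy : ‖S.gh q.1‖ ≤ T) (hy' : ‖S.gh q.2‖ ≤ T)
    (h1 : ∀ i, ‖fderiv ℝ (ϖ i) q.1‖ ≤ C / ρ)
    (h2 : ∀ i, 13 * ρ < ‖pr S.ι q.1 - lc ρ i‖ → fderiv ℝ (ϖ i) q.1 = 0)
    (h2' : ∀ i, 3 * R / 5 < ‖pr S.ι q.1 - pr S.ι y₀‖ → fderiv ℝ (ϖ i) q.1 = 0)
    (h3 : ‖∑ i ∈ I, fderiv ℝ (ϖ i) q.1‖ ≤ C / R)
    (h4 : ((I.filter fun i => ‖pr S.ι q.1 - lc ρ i‖ ≤ 13 * ρ).card : ℝ) ≤ C) :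
    -∑ i ∈ I, pairMain fr (ι i) g (2 * T) (ϖ i) q.1 q.2 ≤
      102 * m * C ^ 2 / (cg m * T ^ m) * (g / R + T) *
        (PairG_W (ball y₀ (3 * R / 4)) (6 * T)).indicator
          (fun q => (√(S.dd fr q.1) + T) + (√(S.dd fr q.2) + T)) q := by
  have hT := P.T_pos
  have hR1 := P.R_le
  by_cases hq : q ∈ PairG_W (ball y₀ (3 * R / 4)) (6 * T)
  · rw [indicator_of_mem hq]
    exact (neg_le_abs _).trans (PairG_main fr hg hgT (by linarith only [hg, hgT, hρ, hR, hR1]) hρ (by linarith) hC hι hy hy'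
      hq.2.2.le h1 h2 h3 h4)
  · rw [indicator_of_notMem hq, mul_zero, neg_nonpos]
    refine ge_of_eq (Finset.sum_eq_zero fun i _ => ?_)
    by_cases hv : ‖pr (ι i) (q.1 - q.2)‖ ≤ 2 * T
    · have h5 : 3 * R / 5 < ‖pr S.ι q.1 - pr S.ι y₀‖ := by
        by_contra h
        exact hq (PairG_mem P (by linarith only [hρ, hR]) hy (by linarith only [hg, hgT, hρ, hR, h, not_lt.1 h])
          (PairG_near (hι i) hT hy hy' hv).2)
      simp [pairMain, h2' i h5]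
    · rw [pairMain, rho_eq_zero (by linarith) (not_le.1 hv).le, zero_mul]

/-- the integrals over the ball -/
theorem PairG_ints (P : Piece S fr μ y₀ R T A) {L ρ : ℝ} (hL : A ≤ L) (hρ : 0 ≤ ρ)
    (h : ∫ y in ball y₀ (3 * R / 4), S.dd fr y ∂μ ≤ L * (T ^ 2 / R ^ 2) * R ^ m) :
    ∫ y in ball y₀ (3 * R / 4), (S.dd fr y + ρ ^ 3) ∂μ ≤ L * (T ^ 2 / R ^ 2 + ρ ^ 3) * R ^ m ∧
      ∫ y in ball y₀ (3 * R / 4), (√(S.dd fr y) + T) ∂μ ≤ 3 * L * (T / R) * R ^ m := by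
  have := P.fin
  have hT := P.T_pos
  have hT1 := P.T_le
  have hR1 := P.R_le
  have hA := P.A_ge
  have hR : 0 < R := by linarith
  have hd := (S.measurable_all fr).2.1
  have i0 : Integrable (S.dd fr) μ := Integrable.of_bound hd.aestronglyMeasurable m
    (ae_of_all _ fun y => by
      rw [Real.norm_eq_abs, abs_of_nonneg (S.dd_bd fr y).1]
      exact (S.dd_bd fr y).2.1)
  have i1 : IntegrableOn (S.dd fr) (ball y₀ (3 * R / 4)) μ := i0.integrableOn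
  have hμ : μ.real (ball y₀ (3 * R / 4)) ≤ L * R ^ m :=
    (measureReal_mono (subset_univ _)).trans (((P.mass_cyl 0 le_rfl).2.2).trans
      (mul_le_mul_of_nonneg_right hL (by positivity)))
  constructor
  · rw [integral_add i1 (integrable_const _), setIntegral_const, smul_eq_mul]
    have h1 := mul_le_mul_of_nonneg_right hμ (by positivity : 0 ≤ ρ ^ 3)
    nlinarith only [h, h1]
  · have h1 : ∫ y in ball y₀ (3 * R / 4), (√(S.dd fr y) + T) ∂μ ≤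
        ∫ y in ball y₀ (3 * R / 4), (R / T * S.dd fr y + 2 * (T / R)) ∂μ := by
      refine integral_mono_of_nonneg (ae_of_all _ fun y => by positivity)
        ((i1.const_mul _).add (integrable_const _)) (ae_of_all _ fun y => ?_)
      have h2 : T ≤ T / R := by
        rw [le_div_iff₀ hR]
        nlinarith only [hT, hT1, hR1]
      have h3 := Real.sq_sqrt (S.dd_bd fr y).1
      have h4 : √(S.dd fr y) ≤ R / T * S.dd fr y + T / R := by
        set a := √(S.dd fr y)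
        rw [← h3]
        have h5 : R / T * a ^ 2 + T / R - a = R / T * ((a - T / R / 2) ^ 2 + 3 / 4 * (T / R) ^ 2) := by
          field_simp
          ring
        have h6 : 0 ≤ R / T * ((a - T / R / 2) ^ 2 + 3 / 4 * (T / R) ^ 2) := by positivity
        linarith only [h5, h6]
      show √(S.dd fr y) + T ≤ R / T * S.dd fr y + 2 * (T / R)
      linarith only [h2, h4]
    refine h1.trans ?_
    rw [integral_add (i1.const_mul _) (integrable_const _), setIntegral_const, smul_eq_mul,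
      integral_const_mul]
    have h2 := mul_le_mul_of_nonneg_right hμ (by positivity : 0 ≤ 2 * (T / R))
    have h3 := mul_le_mul_of_nonneg_left h (by positivity : 0 ≤ R / T)
    have h4 : R / T * (L * (T ^ 2 / R ^ 2) * R ^ m) = L * (T / R) * R ^ m := by field_simp
    linarith only [h2, h3, h4]

/-- Let `ξ₀ = pr y₀`, `r = 2 T`, `χ` a cut-off function between the radii `R / 2` and `3 R / 5` about
`ξ₀` (`exists_cut`), `B` the finite set of `b` with `‖lc ρ b‖ ≤ 12 ρ`, `n` its cardinality, `I` the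
set of `i` with `‖lc ρ i - ξ₀‖ ≤ 3 R / 5 + 13 ρ`, and
`ϖ i y = χ (pr y) * ∑ b ∈ B, lp ρ (i + b) (pr y) ^ 2 ∈ [0, 1]`. Then `ϖ j = 1` over
`closedBall (lc ρ j) (11 ρ)` for `j ∈ J`, `ϖ i = 0` outside `closedBall (lc ρ i) (25 ρ / 2)`,
`‖Dϖ i‖ ≤ C / ρ`, and `∑ i ∈ I, ϖ i = n χ ∘ pr` (`sum_lp_sq`). Apply `pair_id` for each `i ∈ I` with
the compact sets of height `T` over the closed balls of radii `13 ρ` and `16 ρ` (`isCompact_cyl`,
`Tan.sep`: if `‖pr (ι i) (y - y')‖ ≤ r` then `‖y - y'‖ ≤ 6 T`).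
Cubic terms: `√(d_i + d_i') ^ 3 ≤ C (d + d' + ρ³)` (`Tan.tilt`), the mass of a ball of radius `6 T`
is at most `A (6 T) ^ m`, bounded overlap, `energy` with `σ = R / 40` and `I2_univ`.
Main terms: bound `|∑ i, pairMain (ι i) (ϖ i) y y'|` pointwise, comparing each `ι i` with a frame
tangent at `pr y` (`exists_tan`, `Tan.cmp`, `gam_lip`, `Ph1_bd`, `nrm_bd`, `zeta_lip`): it is at most
`C T ^ (-m) (g / R + T) (√d + √d' + T)` and vanishes unless `‖y - y'‖ ≤ 6 T` and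
`‖pr y - ξ₀‖ ≤ 3 R / 5`; Cauchy-Schwarz. -/
theorem Piece.pair_sum (m : ℕ) (hm : 1 ≤ m) (A : ℝ) : ∃ C : ℝ, 1 ≤ C ∧ ∀ {N : ℕ} {S : Ref m N}
    {fr : Fr m N} {μ : Measure (E N)} {y₀ : E N} {R T : ℝ}, Piece S fr μ y₀ R T A →
    ∀ (ρ g : ℝ) (ι : (Fin m → ℤ) → E m →ₗᵢ[ℝ] E N) (J : Finset (Fin m → ℤ)), T ≤ ρ →
    1000 * ρ ≤ R → 0 < g → g ≤ T → (∀ j, S.Tan (lc ρ j) (ι j)) →
    (∀ j ∈ J, ‖lc ρ j - pr S.ι y₀‖ ≤ 2 * R / 5) →
    ∑ j ∈ J, PR fr μ (ι j) g (2 * T)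
        (fun y => (closedBall (lc ρ j) (11 * ρ)).indicator 1 (pr S.ι y)) ≤
      C * (g / T * (T ^ 2 / R ^ 2 + ρ ^ 3) + T ^ 2 / R) * R ^ m := by
  obtain ⟨Cw, hCw, hw⟩ := PairG_weights m
  obtain ⟨Ci, hCi, hone⟩ := PairG_one m
  obtain ⟨δ, Ce, -, -, hCe, hen⟩ := Piece.energy m hm 0 A
  have hc := cg_pos m
  set K₁ : ℝ := Ci * (Cw * (16 * Cw * (512 * m) ^ 2)) with hK₁
  set K₂ : ℝ := 102 * m * Cw ^ 2 / cg m with hK₂
  have hK₁0 : 0 ≤ K₁ := by positivity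
  have hK₂0 : 0 ≤ K₂ := by positivity
  refine ⟨1 + 2 * 6 ^ m * (1600 * Ce * A ^ 2) * (3 * K₂ + K₁), le_add_of_nonneg_right (by positivity),
    fun {N S fr μ y₀ R T} P ρ g ι J hρ hR hg hgT hι hJ => ?_⟩
  have := P.fin
  have hT := P.T_pos
  have hR1 := P.R_le
  have hA := P.A_ge
  have hρ0 : 0 < ρ := by linarith only [hρ, hg, hgT]
  have hR0 : 0 < R := by linarith only [hρ, hR, hg, hgT]
  have hr : 0 < 2 * T := by linarith
  obtain ⟨I, φ, w1, w2, w3, w4, w5, w6, w7, w8⟩ := hw (pr S.ι y₀) R ρ hρ0 hR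
  set L : ℝ := 1600 * Ce * A with hL
  have hLA : A ≤ L := by nlinarith only [hCe, hρ, hR, hg, hgT, hR1, hA]
  have hen1 : ∫ y in ball y₀ (3 * R / 4), S.dd fr y ∂μ ≤ L * (T ^ 2 / R ^ 2) * R ^ m := by
    have h1 := (hen P).1 (R / 40) (by linarith only [hρ, hR, hg, hgT])
    rw [show R - 10 * (R / 40) = 3 * R / 4 by ring] at h1
    refine h1.trans ?_
    calc Ce * S.I2 μ y₀ R / (R / 40) ^ 2 ≤ Ce * (A * T ^ 2 * R ^ m) / (R / 40) ^ 2 := by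
          gcongr
          exact P.I2_univ.2.2
      _ = _ := by
          rw [hL]
          field_simp
          ring
  obtain ⟨n1, n2⟩ := PairG_ints P hLA hρ0.le hen1
  have hd := (S.measurable_all fr).2.1
  obtain ⟨iE, bE⟩ := PairG_W_int (M := m + ρ ^ 3) P.mass (by linarith only [hg, hgT] : 0 < 6 * T)
    (measurableSet_ball (x := y₀) (ε := 3 * R / 4)) (h := fun y => S.dd fr y + ρ ^ 3)
    (hd.add measurable_const) (fun y => add_nonneg (S.dd_bd fr y).1 (by positivity))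
    fun y => add_le_add (S.dd_bd fr y).2.1 le_rfl
  obtain ⟨iM, bM⟩ := PairG_W_int (M := √m + T) P.mass (by linarith only [hg, hgT] : 0 < 6 * T)
    (measurableSet_ball (x := y₀) (ε := 3 * R / 4)) (h := fun y => √(S.dd fr y) + T)
    (hd.sqrt.add measurable_const) (fun y => by positivity)
    fun y => add_le_add (Real.sqrt_le_sqrt (S.dd_bd fr y).2.1) le_rfl
  have iϖ : ∀ i, Integrable (fun y => φ i (pr S.ι y)) μ := fun i =>
    Integrable.of_bound ((w3 i).continuous.comp (pr S.ι).continuous).aestronglyMeasurable 1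
      (ae_of_all _ fun y => by
        rw [Real.norm_eq_abs, abs_of_nonneg (w4 i _).1]
        exact (w4 i _).2.1)
  have s1 : ∑ j ∈ J, PR fr μ (ι j) g (2 * T)
      (fun y => (closedBall (lc ρ j) (11 * ρ)).indicator 1 (pr S.ι y)) ≤
        ∑ i ∈ I, PR fr μ (ι i) g (2 * T) fun y => φ i (pr S.ι y) := by
    refine (Finset.sum_le_sum fun j hj => ?_).trans (Finset.sum_le_sum_of_subset_of_nonneg
      (fun j hj => (w2 j (hJ j hj)).1) fun i _ _ => ?_)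
    · refine PR_mono fr le_rfl (ι j) hg hr ?_ (iϖ j) (ae_of_all _ fun y => (w4 j _).1)
        (ae_of_all _ fun y => ?_)
      · exact Integrable.of_bound ((measurable_one.indicator measurableSet_closedBall).comp
          (pr S.ι).continuous.measurable).aestronglyMeasurable 1 (ae_of_all _ fun y => by
            by_cases h : pr S.ι y ∈ closedBall (lc ρ j) (11 * ρ) <;> simp [h])
      · refine indicator_apply_le' (fun h => ?_) fun _ => (w4 j _).1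
        exact ((w2 j (hJ j hj)).2 _ h).ge
    · have h1 := PR_mono fr le_rfl (ι i) hg hr (integrable_const (0 : ℝ)) (iϖ i)
        (ae_of_all _ fun y => (w4 i _).1) (ae_of_all _ fun y => (w4 i _).1)
      refine le_trans (le_of_eq ?_) h1
      simp [PR]
  have ho := fun i (hi : i ∈ I) => hone P hρ hR hg (hι i) (w1 i hi) (w3 i) (w5 i)
  have s2 : ∑ i ∈ I, (PR fr μ (ι i) g (2 * T) fun y => φ i (pr S.ι y)) ≤
      K₂ / T ^ m * (g / R + T) * (2 * (A * (6 * T) ^ m * (3 * L * (T / R) * R ^ m))) +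
        K₁ * g / (T * T ^ m) *
          (2 * (A * (6 * T) ^ m * (L * (T ^ 2 / R ^ 2 + ρ ^ 3) * R ^ m))) := by
    refine (Finset.sum_le_sum fun i hi => (ho i hi).2).trans ?_
    rw [← integral_finsetSum _ fun i hi => (ho i hi).1]
    refine (integral_mono_ae (integrable_finsetSum _ fun i hi => (ho i hi).1)
      ((iM.const_mul (K₂ / T ^ m * (g / R + T))).add (iE.const_mul (K₁ * g / (T * T ^ m))))
      ?_).trans ?_
    · filter_upwards [Measure.quasiMeasurePreserving_fst.ae P.ae,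
        Measure.quasiMeasurePreserving_snd.ae P.ae] with q hq hq'
      have d1 : ∀ i, ‖fderiv ℝ (fun y => φ i (pr S.ι y)) q.1‖ ≤ Cw / ρ := fun i => by
        rw [PairG_der _ (w3 i)]
        exact (PairG_comp _ _).trans (w4 i _).2.2
      have d2 : ∀ i, φ i =ᶠ[𝓝 (pr S.ι q.1)] 0 → fderiv ℝ (fun y => φ i (pr S.ι y)) q.1 = 0 :=
        fun i h => by
          rw [PairG_der _ (w3 i), h.fderiv_eq]
          simp
      have d3 : ‖∑ i ∈ I, fderiv ℝ (fun y => φ i (pr S.ι y)) q.1‖ ≤ Cw / R := by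
        simp only [PairG_der _ (w3 _)]
        rw [← ContinuousLinearMap.finsetSum_comp]
        exact (PairG_comp _ _).trans (w7 _)
      have a1 := PairG_sumM P hg hgT hρ hR hCw hι (I := I) (ϖ := fun i y => φ i (pr S.ι y))
        hq.2.1 hq'.2.1 d1 (fun i h => d2 i (w5 i _ h)) (fun i h => d2 i (w6 i _ h)) d3 (w8 _)
      have a2 := PairG_sumE hm P hρ hR hCw hι (ϖ := fun i y => φ i (pr S.ι y)) w1 hq.2.1 hq'.2.1
        (fun i => by
          rw [abs_of_nonneg (w4 i _).1]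
          exact (w4 i _).2.1) d1 (w8 _)
      have a3 := mul_le_mul_of_nonneg_left a2 (by positivity : 0 ≤ Ci * g)
      have e1 : 102 * m * Cw ^ 2 / (cg m * T ^ m) = K₂ / T ^ m := by rw [hK₂, div_div]
      have e2 : Ci * g * (Cw * (16 * Cw * (512 * m) ^ 2 / (T * T ^ m))) =
          K₁ * g / (T * T ^ m) := by
        rw [hK₁]
        ring
      rw [← mul_assoc, e2] at a3
      rw [e1] at a1
      simp only [Pi.add_apply]
      rw [Finset.sum_add_distrib, Finset.sum_neg_distrib, ← Finset.mul_sum]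
      exact add_le_add a1 a3
    · simp only [Pi.add_apply]
      rw [integral_add (iM.const_mul _) (iE.const_mul _), integral_const_mul, integral_const_mul]
      refine add_le_add (mul_le_mul_of_nonneg_left (bM.trans ?_) (by positivity))
        (mul_le_mul_of_nonneg_left (bE.trans ?_) (by positivity))
      · gcongr
      · gcongr
  refine s1.trans (s2.trans ?_)
  have e1 : K₂ / T ^ m * (g / R + T) * (2 * (A * (6 * T) ^ m * (3 * L * (T / R) * R ^ m))) =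
      2 * 6 ^ m * (1600 * Ce * A ^ 2) * (3 * K₂ * (g / T * (T ^ 2 / R ^ 2) + T ^ 2 / R)) *
        R ^ m := by
    rw [hL, mul_pow]
    field_simp
  have e2 : K₁ * g / (T * T ^ m) *
      (2 * (A * (6 * T) ^ m * (L * (T ^ 2 / R ^ 2 + ρ ^ 3) * R ^ m))) =
      2 * 6 ^ m * (1600 * Ce * A ^ 2) * (K₁ * (g / T * (T ^ 2 / R ^ 2 + ρ ^ 3))) * R ^ m := by
    rw [hL, mul_pow]
    field_simp
  rw [e1, e2, ← add_mul, ← mul_add]
  refine mul_le_mul_of_nonneg_right ?_ (by positivity)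
  have p1 : 0 ≤ g / T * (T ^ 2 / R ^ 2) := by positivity
  have p2 : 0 ≤ g / T * ρ ^ 3 := by positivity
  have p3 : 0 ≤ T ^ 2 / R := by positivity
  have p4 : (0 : ℝ) ≤ 2 * 6 ^ m * (1600 * Ce * A ^ 2) := by positivity
  rw [mul_add (g / T)]
  generalize g / T * (T ^ 2 / R ^ 2) = a at *
  generalize g / T * ρ ^ 3 = b at *
  generalize T ^ 2 / R = c at *
  generalize (2 : ℝ) * 6 ^ m * (1600 * Ce * A ^ 2) = k at *
  nlinarith only [p1, p2, p3, p4, hK₂0, hK₁0, mul_nonneg p4 (mul_nonneg hK₂0 p2), mul_nonneg p4 (mul_nonneg hK₁0 p3)]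

end Pool.Agent.MP_f6c0e6_an.Gen

end
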