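import Pool.Agent.MP_f6c0e6_an.All.Frame
import Pool.Agent.MP_f6c0e6_an.All.PairB
import Pool.Agent.MP_f6c0e6_an.All.KeyC
import Pool.Agent.MP_f6c0e6_an.All.ChartC
import Pool.Agent.MP_f6c0e6_an.All.CarlB

section

/-! The key lemma for a piece. -/

set_option autoImplicit false

open MeasureTheory Filter Topology Set Metric
open scoped ENNReal RealInnerProductSpace

namespace Pool.Agent.MP_f6c0e6_an.Gen

variable {m N : ℕ}

theorem KLg_cpt {f : E m → ℝ} {ξ : E m} {r : ℝ} (h : ∀ x, x ∉ closedBall ξ r → f x = 0) :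
    HasCompactSupport f := HasCompactSupport.intro (isCompact_closedBall ξ r) h

theorem KLg_lin {S : Ref m N} {fr : Fr m N} {μ : Measure (E N)} {y₀ : E N} {R T A : ℝ}
    (P : Piece S fr μ y₀ R T A) (Q : ℕ) : (∀ {f g : E m → ℝ} (t : ℝ), Continuous f → Continuous g →
      HasCompactSupport f → HasCompactSupport g →
      S.YF fr μ Q (fun x => f x - t * g x) = S.YF fr μ Q f - t * S.YF fr μ Q g) ∧
    ∀ {I : Type} (J : Finset I) (c : I → ℝ) {f : I → E m → ℝ},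
      (∀ j, Continuous (f j) ∧ HasCompactSupport (f j)) →
      S.YF fr μ Q (fun x => ∑ j ∈ J, c j * f j x) = ∑ j ∈ J, c j * S.YF fr μ Q (f j) := by
  obtain ⟨c, Hc⟩ := Piece.exists_base m
  obtain ⟨B, D, -⟩ := Hc P
  simp only [← D.Y_eq]
  refine ⟨fun {f g} t hf hg hf' hg' => ?_, fun J c f hf => ?_⟩
  swap
  · rw [B.Y_sum Q J (f := fun j x => c j * f j x) fun j _ =>
      ⟨(hf j).1.const_mul _, (hf j).2.mul_left⟩]
    exact Finset.sum_congr rfl fun j _ => (B.Y_lin Q (hf j).1 (hf j).1 (hf j).2 (hf j).2 _).2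
  have h1 := (B.Y_lin Q hf (g := fun x => -t * g x) (by fun_prop) hf' hg'.mul_left 0).1
  rw [(B.Y_lin Q hg hg hg' hg' (-t)).2] at h1
  simpa only [neg_mul, ← sub_eq_add_neg] using h1

theorem KLg_comp {g : E m → ℝ} (hg : ContDiff ℝ 2 g) {a0 a1 a2 : ℝ} (hb : Bd2 g a0 a1 a2)
    (ξ : E m) {L : E m →L[ℝ] E m} (hL : ∀ u, ‖L u‖ ≤ ‖u‖) :
    ContDiff ℝ 2 (fun X => g (ξ + L X)) ∧ Bd2 (fun X => g (ξ + L X)) a0 a1 a2 := by
  have hL1 : ‖L‖ ≤ 1 := L.opNorm_le_bound zero_le_one fun u => by rw [one_mul]; exact hL u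
  have ha : ∀ X, HasFDerivAt (fun X => ξ + L X) L X := fun X => L.hasFDerivAt.const_add ξ
  have e1 : fderiv ℝ (fun X => g (ξ + L X)) = fun X => (fderiv ℝ g (ξ + L X)).comp L := by
    funext X
    exact ((hg.differentiable (by norm_num) _).hasFDerivAt.comp X (ha X)).fderiv
  have h2 : Differentiable ℝ (fderiv ℝ g) :=
    (hg.fderiv_right (m := 1) (by norm_num)).differentiable (by norm_num)
  refine ⟨hg.comp (by fun_prop), fun X => hb.b0 _, fun X => ?_, fun X => ?_⟩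
  · rw [e1]
    exact ((fderiv ℝ g _).opNorm_comp_le L).trans
      ((mul_le_of_le_one_right (norm_nonneg _) hL1).trans (hb.b1 _))
  · have h3 := ((ContinuousLinearMap.compL ℝ (E m) (E m) ℝ).flip L).hasFDerivAt.comp X
      ((h2 _).hasFDerivAt.comp X (ha X))
    have h4 : fderiv ℝ (fun X => (fderiv ℝ g (ξ + L X)).comp L) X = _ := h3.fderiv
    rw [e1, h4]
    have h5 : 0 ≤ a2 := (ContinuousLinearMap.opNorm_nonneg _).trans (hb.b2 ξ)
    refine ContinuousLinearMap.opNorm_le_bound _ h5 fun u => ?_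
    show ‖(fderiv ℝ (fderiv ℝ g) (ξ + L X) (L u)).comp L‖ ≤ _
    refine (ContinuousLinearMap.opNorm_comp_le _ L).trans
      ((mul_le_of_le_one_right (norm_nonneg _) hL1).trans ?_)
    exact ((fderiv ℝ (fderiv ℝ g) _).le_opNorm _).trans
      (mul_le_mul (hb.b2 _) (hL u) (norm_nonneg _) h5)

theorem KLg_lip {f : E m → ℝ} (hf : Differentiable ℝ f) {K : ℝ} (h : ∀ x, ‖fderiv ℝ f x‖ ≤ K) :
    Lip K f := fun x x' =>
  convex_univ.norm_image_sub_le_of_norm_fderiv_le (fun y _ => hf y) (fun y _ => h y)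
    (mem_univ x') (mem_univ x)

theorem KLg_sg (S : Ref m N) : Continuous (sgW S.w) ∧ Lip (m * 2 ^ m) (sgW S.w) ∧
    ∀ ξ, 1 ≤ sgW S.w ξ ∧ sgW S.w ξ ≤ 2 ^ m := by
  have h2 : ContDiff ℝ 2 S.w := S.smooth.of_le (by norm_num)
  have h1 : ContDiff ℝ 1 (sgW S.w) := (contDiff_gW (n := 1) h2).2.2
  have h3 : ∀ ξ, sgW S.w ξ ≤ 2 ^ m := fun ξ => (sgW_bd S.w ξ).2.2 ((S.b1 ξ).trans (by norm_num))
  exact ⟨h1.continuous, KLg_lip (h1.differentiable (by norm_num)) fun ξ =>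
    (dgW_bd ξ h2 ((S.b1 ξ).trans (by norm_num)) ((S.b2 ξ).trans (by norm_num))).2.2.1.trans
      (mul_le_mul_of_nonneg_left (h3 ξ) (Nat.cast_nonneg m)), fun ξ => ⟨(sgW_bd S.w ξ).2.1, h3 ξ⟩⟩

/-- the weight on the base -/
theorem KLg_wt {S : Ref m N} {ξ₁ : E m} {ι' : E m →ₗᵢ[ℝ] E N} (h : S.Tan ξ₁ ι') {g : E m → ℝ}
    {M ρ : ℝ} (hρ : 0 < ρ) (hρ1 : ρ ≤ 1) (hM : 0 ≤ M) (hg : Lip (M / ρ) g) (h1 : ∀ ξ, |g ξ| ≤ 1)
    (h0 : ∀ ξ, ρ / 2 < ‖ξ - ξ₁‖ → g ξ = 0) :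
    Continuous (S.wt ξ₁ ι' fun X => g (ξ₁ + S.AA ξ₁ ι' X)) ∧
    (∀ ξ, ξ ∉ closedBall ξ₁ ρ → S.wt ξ₁ ι' (fun X => g (ξ₁ + S.AA ξ₁ ι' X)) ξ = 0 ∧ g ξ = 0) ∧
    ∀ ξ, |S.wt ξ₁ ι' (fun X => g (ξ₁ + S.AA ξ₁ ι' X)) ξ - sgW S.w ξ₁ * g ξ| ≤
      (M + 2 * m) * 2 ^ m * ρ := by
  obtain ⟨s1, s2, s3⟩ := KLg_sg S
  have z : ∀ ξ, ξ ∉ closedBall ξ₁ ρ →
      S.wt ξ₁ ι' (fun X => g (ξ₁ + S.AA ξ₁ ι' X)) ξ = 0 ∧ g ξ = 0 := fun ξ hξ => by
    rw [mem_closedBall_iff_norm, not_le] at hξ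
    refine ⟨?_, h0 ξ (by linarith)⟩
    have a1 := (h.near ξ 0 0).2.2.2.2.1
    have a2 := norm_sub_le_norm_sub_add_norm_sub ξ (ξ₁ + S.AA ξ₁ ι' (S.Psi ξ₁ ι' ξ)) ξ₁
    rw [norm_sub_rev ξ (ξ₁ + _)] at a2
    unfold Ref.wt
    beta_reduce
    rw [h0 _ (by linarith), zero_mul]
  refine ⟨?_, z, fun ξ => ?_⟩
  · have c1 := hg.continuous
    have c2 := (S.F_calc 0).2.1.continuous
    have c3 := (S.F_calc 0).2.2.1.continuous
    have c4 : Continuous (giW S.w) :=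
      (contDiff_gW (n := 1) (S.smooth.of_le (by norm_num))).2.1.continuous
    unfold Ref.wt Ref.Psi Ref.tl0 vt
    fun_prop
  by_cases hξ : ξ ∈ closedBall ξ₁ ρ
  swap
  · rw [(z ξ hξ).1, (z ξ hξ).2, mul_zero, sub_zero, abs_zero]
    positivity
  rw [mem_closedBall_iff_norm] at hξ
  obtain ⟨-, -, -, a1, -, a2, a3⟩ := h.near ξ 0 0
  have a4 : ‖ξ - ξ₁‖ ^ 2 ≤ ρ ^ 2 := by gcongr
  unfold Ref.wt
  beta_reduce
  set ξ' := ξ₁ + S.AA ξ₁ ι' (S.Psi ξ₁ ι' ξ)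
  set t := S.tl0 ι' ξ
  have b1 : |g ξ' - g ξ| ≤ M * ρ := by
    refine (hg ξ' ξ).trans ?_
    calc M / ρ * ‖ξ' - ξ‖ ≤ M / ρ * ρ ^ 2 := by gcongr; nlinarith only [a4, a1]
      _ = M * ρ := by field_simp
  have b2 : |sgW S.w ξ - sgW S.w ξ₁| ≤ m * 2 ^ m * ρ :=
    (s2 ξ ξ₁).trans (mul_le_mul_of_nonneg_left hξ (by positivity))
  have b3 : |t / 2| ≤ m * ρ := by
    have : (m : ℝ) * ‖ξ - ξ₁‖ ^ 2 ≤ m * ρ := by gcongr; nlinarith only [a4, hρ, hρ1]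
    rw [abs_of_nonneg (by positivity)]; linarith only [a2, a3, this]
  have b4 : |sgW S.w ξ| ≤ 2 ^ m := by
    rw [abs_of_nonneg (zero_le_one.trans (s3 ξ).1)]; exact (s3 ξ).2
  have e : g ξ' * (sgW S.w ξ * (1 - t / 2)) - sgW S.w ξ₁ * g ξ = (g ξ' - g ξ) * sgW S.w ξ +
      g ξ * (sgW S.w ξ - sgW S.w ξ₁) - g ξ' * sgW S.w ξ * (t / 2) := by ring
  have b5 := h1 ξ
  have b6 := h1 ξ'
  rw [e]
  refine (abs_sub _ _).trans ((add_le_add_left (abs_add_le _ _) _).trans ?_)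
  rw [abs_mul, abs_mul, abs_mul, abs_mul]
  calc _ ≤ M * ρ * 2 ^ m + 1 * (m * 2 ^ m * ρ) + 1 * 2 ^ m * (m * ρ) := by gcongr
    _ = _ := by ring

theorem KLg_PR (fr : Fr m N) (μ : Measure (E N)) (ι : E m →ₗᵢ[ℝ] E N) {g r : ℝ} (hg : 0 < g)
    (hr : 0 < r) {ω : E N → ℝ} (h : ∀ y, 0 ≤ ω y) : 0 ≤ PR fr μ ι g r ω :=
  integral_nonneg fun y => integral_nonneg fun y' =>
    mul_nonneg (mul_nonneg (h y) (rho_nonneg hr _)) (pe_bd fr ι hg y y').1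

namespace Piece

variable {S : Ref m N} {fr : Fr m N} {μ : Measure (E N)} {y₀ : E N} {R T A : ℝ}

theorem KLg_dd (P : Piece S fr μ y₀ R T A) : Integrable (S.dd fr) μ :=
  P.integrable_of_bd (S.measurable_all fr).2.1 (M := m) fun y _ _ => by
    rw [Real.norm_of_nonneg (S.dd_bd fr y).1]; exact (S.dd_bd fr y).2.1

theorem KLg_mono (P : Piece S fr μ y₀ R T A) {Z Z' : Set (E N)} (h : ∀ᵐ y ∂μ, y ∈ Z → y ∈ Z') :
    0 ≤ ∫ y in Z, S.dd fr y ∂μ ∧ ∫ y in Z, S.dd fr y ∂μ ≤ ∫ y in Z', S.dd fr y ∂μ :=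
  ⟨integral_nonneg fun y => (S.dd_bd fr y).1, setIntegral_mono_set P.KLg_dd.integrableOn
    (Eventually.of_forall fun y => (S.dd_bd fr y).1) h⟩

theorem KLg_PP (P : Piece S fr μ y₀ R T A) {Z Z' : Set (E N)} (h : Z ⊆ Z') :
    ∫ y in Z, (S.dd fr y + ‖S.zz y‖ ^ 2) ∂μ ≤ ∫ y in Z', S.dd fr y ∂μ + T ^ 2 * (μ Z').toReal := by
  have := P.fin
  have h1 : ∀ᵐ y ∂μ, ‖‖S.zz y‖ ^ 2‖ ≤ T ^ 2 := by
    filter_upwards [P.ae_tube] with y hy
    rw [Real.norm_of_nonneg (by positivity)]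
    exact pow_le_pow_left₀ (norm_nonneg _) hy.2.1 2
  have h2 : Integrable (fun y => ‖S.zz y‖ ^ 2) μ :=
    Integrable.of_bound (S.measurable_zeta.2.norm.pow_const 2).aestronglyMeasurable _ h1
  rw [integral_add P.KLg_dd.integrableOn h2.integrableOn]
  refine add_le_add (P.KLg_mono (Eventually.of_forall h)).2 ?_
  refine ((le_abs_self _).trans (norm_setIntegral_le_of_norm_le_const_ae (measure_lt_top μ Z)
    (ae_restrict_of_ae h1))).trans (mul_le_mul_of_nonneg_left ?_ (by positivity))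
  exact measureReal_mono h

end Piece

/-- One frame. Let `ω' X = g (ξ₁ + AA X)`. If `F.DS univ ≤ τ ^ (m + 1)` use `KL_off`, otherwise `KL`
and `DS_le` (the last term is absorbed as `τ ^ (m + 1) = 2 ^ (m + 1) ρ`). By `Tan.near` and `dgW_bd`,
`|wt ω' - sgW ξ₁ * g| ≤ C ρ` and both functions vanish outside `closedBall ξ₁ (3 ρ)`; use `energy`
with `s = ρ`, `transfer`, and `1 ≤ sgW`. -/
theorem Piece.one_frame (k : ℕ) (hk : 1 ≤ k) (N Q : ℕ) (A C₁ : ℝ) : ∃ C x₀ : ℝ, 1 ≤ C ∧ 0 < x₀ ∧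
    ∀ {S : Ref (k + 2) N} {fr : Fr (k + 2) N} {μ : Measure (E N)} {y₀ : E N} {R T : ℝ},
    Piece S fr μ y₀ R T A → Anch S fr μ Q y₀ R → ∀ (x ρ L : ℝ) (ξ₁ : E (k + 2))
    (ι' : E (k + 2) →ₗᵢ[ℝ] E N) (g : E (k + 2) → ℝ), 0 < x → x ≤ x₀ → T = x ^ (k + 4) →
    ρ = x ^ (k + 3) → L = Real.log (2 * x)⁻¹ → S.Tan ξ₁ ι' → ‖S.F ξ₁ - y₀‖ + 200 * ρ ≤ R →
    ContDiff ℝ 2 g → (∀ ξ, 0 ≤ g ξ) → Bd2 g 1 (C₁ / ρ) (C₁ / ρ ^ 2) →
    (∀ ξ, ρ / 2 < ‖ξ - ξ₁‖ → g ξ = 0) →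
    -(C * (PR fr μ ι' (2 * T / L ^ 2) (2 * T)
          (fun y => (closedBall ξ₁ (11 * ρ)).indicator 1 (pr S.ι y)) +
        Lam k L ^ 8 / L * PR fr μ ι' (2 * T / Lam k L ^ 10) (2 * T)
          (fun y => (closedBall ξ₁ (11 * ρ)).indicator 1 (pr S.ι y)) +
        (∫ y in S.zeta ⁻¹' closedBall ξ₁ (11 * ρ), S.dd fr y ∂μ) / (L * Lam k L) +
        T ^ 2 * ρ ^ (k + 2))) ≤ S.YF fr μ Q g := by
  have hm : 1 ≤ k + 2 := by omega
  obtain ⟨δ, d0, Hf⟩ := Piece.exists_flat (k + 2) hm Q A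
  obtain ⟨Co, τo, o1, o0, Ho⟩ := Flat.KL_off (k + 2) (by omega) Q A
  obtain ⟨Ck, τk, k1, k0, Hk⟩ := Flat.KL k hk N Q A
  obtain ⟨Ct, t1, Ht⟩ := Piece.transfer (k + 2) Q A
  obtain ⟨δe, Ce, e0, -, e1, He⟩ := Piece.energy (k + 2) hm Q A
  obtain ⟨L₀, -, HL⟩ := Lam_bd k 1
  obtain ⟨M, M1, M2⟩ : ∃ M : ℝ, 1 ≤ M ∧ C₁ ≤ M := ⟨max 1 C₁, le_max_left _ _, le_max_right _ _⟩
  obtain ⟨A', A1, A2⟩ : ∃ M : ℝ, 1 ≤ M ∧ A ≤ M := ⟨max 1 A, le_max_left _ _, le_max_right _ _⟩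
  obtain ⟨c, hc⟩ : ∃ c : ℝ, c = 121 * (k + 2 : ℕ) * A' * 33 ^ (k + 2) := ⟨_, rfl⟩
  obtain ⟨b, hb⟩ : ∃ b : ℝ, b = (M + 2 * (k + 2 : ℕ)) * 2 ^ (k + 2) := ⟨_, rfl⟩
  obtain ⟨a, ha⟩ : ∃ a : ℝ, a = A' * 3 ^ (k + 2) * 11 ^ (k + 2) := ⟨_, rfl⟩
  have c0 : 0 < c := by rw [hc]; positivity
  have b0 : 0 < b := by rw [hb]; positivity
  have a0 : 0 < a := by rw [ha]; positivity
  have q1 : 0 ≤ Ct * M := by positivity
  have q2 : 0 ≤ Ce * b := by positivity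
  have q3 : 0 ≤ Ce * b * a := by positivity
  refine ⟨Co + 4 * Ck + 3 * (Ct * M) + Ce * b + Ce * b * a,
    min (min (min δ δe) (min (τo / 2) (τk / 2))) (min (min (1 / 2) (1 / c))
      (Real.exp (-max L₀ M) / 2)), by linarith only [o1, k1, q1, q2, q3], by positivity,
    fun {S fr μ y₀ R T} P hA x ρ L ξ₁ ι' g x0 hx hT hρ hL htan hR hg g0 gb gz => ?_⟩
  simp only [le_min_iff] at hx
  obtain ⟨⟨⟨u1, u2⟩, u3, u4⟩, ⟨u5, u6⟩, u7⟩ := hx
  have := P.fin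
  have ρ0 : 0 < ρ := by rw [hρ]; positivity
  have T0 := P.T_pos
  have x1 : x ≤ 1 := by linarith only [u5]
  have eT : T = x * ρ := by rw [hT, hρ]; ring
  have ρ3 : ρ ≤ x ^ 3 := by rw [hρ]; exact pow_le_pow_of_le_one x0.le x1 (by omega)
  have x3 : x ^ 3 ≤ x / 4 := by nlinarith only [x0, u5, sq_nonneg x]
  have ρx : ρ ≤ x := by linarith only [ρ3, x3, x0]
  have ρ1 : ρ ≤ 1 := ρx.trans x1
  have ρT : 2 * ρ ^ 2 ≤ T := by rw [eT]; nlinarith only [ρ3, x3, ρ0]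
  have Tρ : T ≤ ρ := by rw [eT]; exact mul_le_of_le_one_left ρ0.le x1
  have n0 := norm_nonneg (S.F ξ₁ - y₀)
  obtain ⟨F, D⟩ := Hf P hA ξ₁ ι' ρ htan (by rw [eT]; gcongr) (ρx.trans u1) ρT
    (by linarith only [hR, ρ0])
  have eτ : F.τ = 2 * x := by rw [D.τ_eq, eT]; field_simp
  have hLL : max L₀ M ≤ L := by
    have := Real.log_le_log (by positivity : 0 < 2 * x)
      (show 2 * x ≤ Real.exp (-max L₀ M) by linarith only [u7])
    rw [Real.log_exp] at this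
    rw [hL, Real.log_inv]; linarith only [this]
  obtain ⟨m1, -, m3, -⟩ := HL L ((le_max_left _ _).trans hLL)
  have ML : M ≤ L := (le_max_right _ _).trans hLL
  have L0 : 0 < L := by linarith only [M1, ML]
  have Λ0 : 0 < Lam k L := one_pos.trans_le m1
  have ΛL : Lam k L ≤ L := (le_self_pow₀ m1 (by unfold P0; positivity)).trans m3
  have ρL : ρ ≤ 1 / (L * Lam k L) := by
    have h1 : L ≤ (2 * x)⁻¹ := by
      rw [hL]; exact (Real.log_le_sub_one_of_pos (by positivity)).trans (sub_le_self _ one_pos.le)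
    rw [le_div_iff₀ (by positivity)]
    calc ρ * (L * Lam k L) ≤ x ^ 3 * ((2 * x)⁻¹ * (2 * x)⁻¹) := by gcongr; exact ΛL.trans h1
      _ = x / 4 := by field_simp; norm_num
      _ ≤ 1 := by linarith only [x1]
  have hAA := fun u => (htan.calc u 0).2.2.2
  have gb' : Bd2 g M (M / ρ) (M / ρ ^ 2) := ⟨fun ξ => (gb.b0 ξ).trans M1,
    fun ξ => (gb.b1 ξ).trans (by gcongr), fun ξ => (gb.b2 ξ).trans (by gcongr)⟩
  obtain ⟨w1, w2⟩ := KLg_comp hg gb' ξ₁ fun u => (hAA u).1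
  have gl : Lip (M / ρ) g := KLg_lip (hg.differentiable (by norm_num)) gb'.b1
  have wz : ∀ X, ρ ≤ ‖X‖ → g (ξ₁ + S.AA ξ₁ ι' X) = 0 := fun X hX =>
    gz _ (by rw [add_sub_cancel_left]; linarith only [(hAA X).2.1, hX, ρ0])
  have wz' : ∀ X : E (k + 2), 1 ≤ ‖X‖ → g (ξ₁ + S.AA ξ₁ ι' (ρ • X)) = 0 := fun X hX =>
    wz _ (by rw [norm_smul, Real.norm_of_nonneg ρ0.le]; exact le_mul_of_one_le_right ρ0.le hX)
  have hW : Wt (fun X => g (ξ₁ + S.AA ξ₁ ι' (ρ • X))) L (ball 0 1) := by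
    refine ⟨fun X => g0 _, fun X => (le_abs_self _).trans (gb.b0 _), fun X X' => ?_,
      fun X hX => wz' X (not_lt.1 (mt mem_ball_zero_iff.2 hX))⟩
    refine (gl _ _).trans ?_
    rw [add_sub_add_left_eq_sub, ← map_sub, ← smul_sub]
    calc _ ≤ M / ρ * ‖ρ • (X - X')‖ := mul_le_mul_of_nonneg_left (hAA _).1 (by positivity)
      _ = M * ‖X - X'‖ := by rw [norm_smul, Real.norm_of_nonneg ρ0.le]; field_simp
      _ ≤ _ := by gcongr
  have hY := D.Y_eq _ hW.lip.continuous fun X hX => wz' X (by linarith only [hX])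
  simp only [smul_inv_smul₀ ρ0.ne'] at hY
  have ρm : 0 < ρ ^ (k + 2) := by positivity
  rw [eq_inv_mul_iff_mul_eq₀ ρm.ne'] at hY
  have ϖ0 : ∀ y, 0 ≤ (closedBall ξ₁ (11 * ρ)).indicator (1 : E (k + 2) → ℝ) (pr S.ι y) :=
    fun y => indicator_nonneg (fun _ _ => zero_le_one) _
  have hRS : ∀ G : ℝ, 0 < G → ρ ^ (k + 2) * F.RS (F.τ / G) F.τ univ ≤ PR fr μ ι' (2 * T / G) (2 * T)
      fun y => (closedBall ξ₁ (11 * ρ)).indicator 1 (pr S.ι y) := fun G hG => by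
    have h1 := D.RS_le (F.τ / G) (fun y => (closedBall ξ₁ (11 * ρ)).indicator 1 (pr S.ι y))
      (div_pos F.τ_pos hG) (Integrable.of_bound (C := 1)
      ((measurable_one.indicator measurableSet_closedBall).comp
        (pr S.ι).continuous.measurable).aestronglyMeasurable (Eventually.of_forall fun y => by
          rw [Real.norm_of_nonneg (ϖ0 y)]
          exact indicator_le_self' (fun _ _ => zero_le_one) _)) ϖ0 fun y hy => by
        rw [indicator_of_mem (mem_closedBall_iff_norm.2 hy)]; exact le_rfl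
    rwa [show ρ * (F.τ / G) = 2 * T / G by rw [eτ, eT]; ring] at h1
  have r1 := hRS (L ^ 2) (by positivity)
  have r2 := hRS (Lam k L ^ 10) (by positivity)
  have p1 := KLg_PR fr μ ι' (g := 2 * T / L ^ 2) (r := 2 * T) (by positivity) (by positivity) ϖ0
  have p2 := KLg_PR fr μ ι' (g := 2 * T / Lam k L ^ 10) (r := 2 * T) (by positivity)
    (by positivity) ϖ0
  have hDS := D.DS_le
  obtain ⟨E0, E3⟩ := P.KLg_mono (Eventually.of_forall (preimage_mono (f := S.zeta)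
    (closedBall_subset_closedBall (x := ξ₁) (show 3 * ρ ≤ 11 * ρ by linarith only [ρ0]))))
  have tr := Ht P ξ₁ ι' _ M ρ htan Tρ (by linarith only [hR, ρ0]) w1 w2
    fun X hX => wz X (by linarith only [hX, ρ0])
  obtain ⟨v1, v2, v3⟩ := KLg_wt htan ρ0 ρ1 (zero_le_one.trans M1) gl gb.b0 gz
  rw [← hb] at v3
  have en := ((He P).2.2 ρ hA (by rw [eT]; gcongr) (by linarith only [hR, n0, ρ0])).2
    (fun ξ => S.wt ξ₁ ι' (fun X => g (ξ₁ + S.AA ξ₁ ι' X)) ξ - sgW S.w ξ₁ * g ξ) _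
    (closedBall ξ₁ ρ) (v1.sub (hg.continuous.const_mul _)).measurable v3 measurableSet_closedBall
    (fun ξ hξ => by
      have h1 := (S.F_lip ξ ξ₁).2.1
      have h2 := norm_sub_le_norm_sub_add_norm_sub (S.F ξ) (S.F ξ₁) y₀
      rw [mem_closedBall_iff_norm] at hξ
      show ‖S.F ξ - y₀‖ < R - 10 * ρ
      linarith only [h1, h2, hξ, hR, ρ0])
    fun ξ hξ => by rw [(v2 ξ hξ).1, (v2 ξ hξ).2, mul_zero, sub_zero]
  rw [(KLg_lin P Q).1 _ v1 hg.continuous (KLg_cpt fun ξ h => (v2 ξ h).1)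
    (KLg_cpt fun ξ h => (v2 ξ h).2)] at en
  have pp := P.KLg_PP (preimage_mono (f := S.zeta) (show thickening ρ (closedBall ξ₁ ρ) ⊆
    closedBall ξ₁ (11 * ρ) by
      rw [thickening_closedBall ρ0 ρ0.le]
      exact ball_subset_closedBall.trans (closedBall_subset_closedBall (by linarith only [ρ0]))))
  have ms : (μ (S.zeta ⁻¹' closedBall ξ₁ (11 * ρ))).toReal ≤ a * ρ ^ (k + 2) := by
    refine (P.mass_cyl ξ₁ (by linarith only [Tρ, ρ0])).1.trans ?_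
    rw [ha, mul_pow, ← mul_assoc]; gcongr
  have σ1 := ((KLg_sg S).2.2 ξ₁).1
  generalize PR fr μ ι' (2 * T / L ^ 2) (2 * T) _ = P1 at *
  generalize PR fr μ ι' (2 * T / Lam k L ^ 10) (2 * T) _ = P2 at *
  generalize ∫ y in S.zeta ⁻¹' closedBall ξ₁ (11 * ρ), S.dd fr y ∂μ = En at *
  have E1 : 0 ≤ En := E0.trans E3
  have p2' : 0 ≤ Lam k L ^ 8 / L * P2 := by positivity
  have p3 : 0 ≤ En / (L * Lam k L) := by positivity
  have p4 : 0 ≤ T ^ 2 * ρ ^ (k + 2) := by positivity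
  have p5 : ρ * En ≤ En / (L * Lam k L) := by
    rw [div_eq_mul_one_div En, mul_comm En]; gcongr
  have yp : -(Co * P1 + Ck * (P1 + Lam k L ^ 8 / L * P2 + 4 * (En / (L * Lam k L)))) ≤
      YP fr μ ι' (S.F ξ₁) Q fun X => g (ξ₁ + S.AA ξ₁ ι' X) := by
    rw [← hY]
    rcases le_or_gt (F.DS univ) (F.τ ^ (k + 2 + 1)) with h | h
    · have h1 := (abs_le.1 (Ho F L _ (by linarith only [eτ, u3]) (by rw [eτ, hL])
        hW.lip.continuous.measurable (fun X => gb.b0 _)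
        (fun X hX => wz' X (by linarith only [hX])) h)).1
      have h2 := mul_le_mul_of_nonneg_left h1 ρm.le
      have h3 := mul_le_mul_of_nonneg_left r1 (zero_le_one.trans o1)
      have h4 : 0 ≤ Ck * (P1 + Lam k L ^ 8 / L * P2 + 4 * (En / (L * Lam k L))) := by positivity
      linarith only [h2, h3, h4]
    · have h1 := mul_le_mul_of_nonneg_left
        (Hk F L _ (by linarith only [eτ, u4]) (by rw [eτ, hL]) hW) ρm.le
      have h2 : 2 * ρ ≤ F.DS univ := by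
        refine le_trans ?_ h.le
        rw [eτ, mul_pow, hρ]
        exact mul_le_mul_of_nonneg_right (le_self_pow₀ one_le_two (by omega)) (by positivity)
      have h3 : 121 * (k + 2 : ℕ) * A * 33 ^ (k + 2) * ρ ^ (k + 2 + 2) ≤ ρ ^ (k + 2) * ρ := by
        have : c * ρ ≤ 1 := by
          rw [mul_comm, ← le_div_iff₀ c0]; exact ρx.trans u6
        calc _ ≤ c * ρ ^ (k + 2 + 2) := by rw [hc]; gcongr
          _ = c * ρ * (ρ ^ (k + 2) * ρ) := by ring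
          _ ≤ _ := mul_le_of_le_one_left (by positivity) this
      have h4 : ρ ^ (k + 2) * F.DS univ ≤ 4 * En := by
        linarith only [hDS, h3, mul_le_mul_of_nonneg_left h2 ρm.le]
      have h5 : ρ ^ (k + 2) * (F.DS univ / (L * Lam k L)) ≤ 4 * (En / (L * Lam k L)) := by
        rw [← mul_div_assoc, ← mul_div_assoc]; gcongr
      have h6 := mul_le_mul_of_nonneg_left r2 (show 0 ≤ Lam k L ^ 8 / L by positivity)
      have h7 := mul_le_mul_of_nonneg_left (add_le_add (add_le_add r1 h6) h5)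
        (zero_le_one.trans k1)
      have h8 : 0 ≤ Co * P1 := by positivity
      linarith only [h1, h7, h8]
  have f1 : (T ^ 2 + T * ρ ^ 2 + ρ ^ 4) * ρ ^ (k + 2) + ρ *
      ∫ y in S.zeta ⁻¹' closedBall ξ₁ (3 * ρ), S.dd fr y ∂μ ≤
      3 * (T ^ 2 * ρ ^ (k + 2)) + En / (L * Lam k L) := by
    have h1 : ρ ^ 2 ≤ T := by nlinarith only [ρT]
    have h2 : T ^ 2 + T * ρ ^ 2 + ρ ^ 4 ≤ 3 * T ^ 2 := by nlinarith only [h1, T0, sq_nonneg ρ]
    linarith only [mul_le_mul_of_nonneg_right h2 ρm.le, p5, mul_le_mul_of_nonneg_left E3 ρ0.le]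
  have f2 : ρ * ∫ y in S.zeta ⁻¹' thickening ρ (closedBall ξ₁ ρ),
      (S.dd fr y + ‖S.zz y‖ ^ 2) ∂μ ≤ En / (L * Lam k L) + a * (T ^ 2 * ρ ^ (k + 2)) := by
    have h1 := mul_le_mul_of_nonneg_left (pp.trans (add_le_add_right
      (mul_le_mul_of_nonneg_left ms (sq_nonneg T)) _)) ρ0.le
    have h2 : ρ * (a * (T ^ 2 * ρ ^ (k + 2))) ≤ a * (T ^ 2 * ρ ^ (k + 2)) :=
      mul_le_of_le_one_left (by positivity) ρ1
    linarith only [h1, h2, p5]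
  have f3 := (abs_le.1 (tr.trans (mul_le_mul_of_nonneg_left f1 q1))).2
  have f4 := mul_le_mul_of_nonneg_left f2 q2
  have f5 := (abs_le.1 en).2
  generalize Lam k L ^ 8 / L * P2 = P2' at *
  generalize En / (L * Lam k L) = P3 at *
  generalize T ^ 2 * ρ ^ (k + 2) = P4 at *
  obtain ⟨W, hW'⟩ : ∃ W, W = P1 + P2' + P3 + P4 := ⟨_, rfl⟩
  rw [← hW']
  have g1 : Co * P1 ≤ Co * W := by gcongr; linarith only [hW', p2', p3, p4]
  have g2 : Ck * (P1 + P2' + 4 * P3) ≤ Ck * (4 * W) := by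
    gcongr; linarith only [hW', p1, p2', p4]
  have g3 : Ct * M * (3 * P4 + P3) ≤ Ct * M * (3 * W) := by
    gcongr; linarith only [hW', p1, p2', p3]
  have g4 : Ce * b * P3 ≤ Ce * b * W := by gcongr; linarith only [hW', p1, p2', p4]
  have g5 : Ce * b * a * P4 ≤ Ce * b * a * W := by gcongr; linarith only [hW', p1, p2', p3]
  have g6 : -((Co + 4 * Ck + 3 * (Ct * M) + Ce * b + Ce * b * a) * W) ≤
      sgW S.w ξ₁ * S.YF fr μ Q g := by linarith only [g1, g2, g3, g4, g5, f3, f4, f5, yp]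
  rcases le_total 0 (S.YF fr μ Q g) with h | h
  · refine le_trans (neg_nonpos.2 ?_) h
    have : 0 ≤ W := by rw [hW']; positivity
    positivity
  · exact g6.trans (by nlinarith only [h, σ1])

theorem KLg_num (k : ℕ) {L Λ t : ℝ} (hL : 1 ≤ L) (hΛ : 0 < Λ) (h : L ≤ (2 * Λ) ^ P0 k)
    (h0 : 0 < t) (h1 : t ≤ 2 * (k + 4) * L) :
    1 / (L * Λ) ≤ 2 * (2 * (k + 4)) ^ 2 * t ^ (-(1 + (P0 k : ℝ)⁻¹)) := by
  have hP : P0 k ≠ 0 := by unfold P0; positivity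
  have hP1 : (P0 k : ℝ)⁻¹ ≤ 1 := inv_le_one_of_one_le₀ (by exact_mod_cast Nat.pos_of_ne_zero hP)
  have hθ : 0 ≤ (P0 k : ℝ)⁻¹ := by positivity
  have L0 : 0 < L := one_pos.trans_le hL
  have h2 : L ^ (P0 k : ℝ)⁻¹ ≤ 2 * Λ := by
    have := Real.rpow_le_rpow L0.le h hθ
    rwa [Real.pow_rpow_inv_natCast (by positivity) hP] at this
  have hk : (1 : ℝ) ≤ 2 * (k + 4) := by linarith only [Nat.cast_nonneg (α := ℝ) k]
  have h3 : t ^ (1 + (P0 k : ℝ)⁻¹) ≤ (2 * (k + 4)) ^ 2 * (L * (2 * Λ)) := by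
    refine (Real.rpow_le_rpow h0.le h1 (by positivity)).trans ?_
    rw [Real.mul_rpow (by positivity) L0.le, Real.rpow_add L0, Real.rpow_one, ← Real.rpow_two]
    gcongr
    linarith
  rw [Real.rpow_neg h0.le, ← div_eq_mul_inv, div_le_div_iff₀ (by positivity) (by positivity)]
  linarith only [h3]

/-- Let `x = T ^ (1 / (m + 2))`, `ρ = x ^ (m + 1) ≤ R²`, `θ = 1 / P0 k`. Replace `ω` by its
mollification `ω'` at the scale `ρ` (`moll_lip`, `rho_bd`; the difference is at most `ρ / R`, use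
`energy` with `s = ρ`), write `ω' = ∑ ω' lp ρ j ^ 2`, and add the inequalities `one_frame`
(`pair_sum`, `sum_ball_le`, `energy`, `Lam_bd`; the number of indices is at most
`C (R / ρ) ^ m`). -/
theorem Piece.KL_ball (k : ℕ) (hk : 1 ≤ k) (N Q : ℕ) (A : ℝ) : ∃ θ C T₀ : ℝ, 0 < θ ∧ θ ≤ 1 ∧
    1 ≤ C ∧ 0 < T₀ ∧ ∀ {S : Ref (k + 2) N} {fr : Fr (k + 2) N} {μ : Measure (E N)} {y₀ : E N}
    {R T : ℝ}, Piece S fr μ y₀ R T A → Anch S fr μ Q y₀ R → T ≤ T₀ → T ≤ R ^ 3 →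
    ∀ ω : E (k + 2) → ℝ, Wt ω (1 / R) (ball (pr S.ι y₀) (R / 4)) →
    -(C * (Real.log T⁻¹ ^ (-(1 + θ)) / R ^ 2 + 1 / R) * T ^ 2 * R ^ (k + 2)) ≤ S.YF fr μ Q ω := by
  classical
  have hm : 1 ≤ k + 2 := by omega
  obtain ⟨C₁, -, H₁⟩ := lp_bd (k + 2)
  obtain ⟨C, x₀, c1, x0, Hf⟩ := Piece.one_frame k hk N Q A C₁
  obtain ⟨Cp, p1, Hp⟩ := Piece.pair_sum (k + 2) hm A
  obtain ⟨δ, Ce, e0, -, e1, He⟩ := Piece.energy (k + 2) hm Q A
  obtain ⟨Cb, b1, Hb⟩ := lattice_bd (k + 2)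
  obtain ⟨Cs, s1, Hs⟩ := sum_ball_le (k + 2)
  obtain ⟨L₀, l1, HL⟩ := Lam_bd k 1
  have hP : 8 ≤ P0 k := by unfold P0; nlinarith only [Nat.one_le_pow 3 (k + 4) (by omega)]
  obtain ⟨x₁, x1, u1, u2, u3, u4⟩ : ∃ x₁ : ℝ, 0 < x₁ ∧ x₁ ≤ x₀ ∧ x₁ ≤ 1 / 1000 ∧ x₁ ≤ δ ∧
      x₁ ≤ Real.exp (-L₀) / 2 := ⟨min (min x₀ (1 / 1000)) (min δ (Real.exp (-L₀) / 2)),
    by positivity, by simp, by simp only [min_le_iff, le_refl, true_or, or_true], by simp, by simp⟩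
  obtain ⟨K₁, hK₁⟩ : ∃ K : ℝ, K = C * (8 * Cp + Cs * 12 ^ (k + 2) * (1600 * Ce * A)) := ⟨_, rfl⟩
  obtain ⟨K₂, hK₂⟩ : ∃ K : ℝ, K = C * (2 * Cp + Cb) + Ce * (1600 * Ce * A + A) := ⟨_, rfl⟩
  refine ⟨(P0 k : ℝ)⁻¹, max 1 (max (K₁ * (2 * (2 * (k + 4)) ^ 2)) K₂), x₁ ^ (k + 4),
    inv_pos.2 (Nat.cast_pos.2 (by omega)), inv_le_one_of_one_le₀ (Nat.one_le_cast.2 (by omega)),
    le_max_left _ _, by positivity, fun {S fr μ y₀ R T} P hA hT hTR ω hω => ?_⟩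
  have := P.fin
  have T0 := P.T_pos
  have TR := P.T_le
  have R1 := P.R_le
  have A1 := P.A_ge
  have R0 : 0 < R := by linarith only [T0, TR]
  obtain ⟨x, hx0, hx⟩ : ∃ x : ℝ, 0 < x ∧ T = x ^ (k + 4) := ⟨T ^ ((k + 4 : ℕ) : ℝ)⁻¹,
    by positivity, (Real.rpow_inv_natCast_pow T0.le (by omega)).symm⟩
  have xx : x ≤ x₁ := le_of_pow_le_pow_left₀ (by omega : k + 4 ≠ 0) x1.le (hx ▸ hT)
  obtain ⟨ρ, hρ⟩ : ∃ ρ, ρ = x ^ (k + 3) := ⟨_, rfl⟩
  obtain ⟨L, hL⟩ : ∃ L, L = Real.log (2 * x)⁻¹ := ⟨_, rfl⟩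
  have ρ0 : 0 < ρ := by rw [hρ]; positivity
  have x3 : x ≤ 1 / 1000 := xx.trans u2
  have x4 : x ≤ 1 := by linarith only [x3]
  have eT : T = x * ρ := by rw [hx, hρ]; ring
  have Tρ : T ≤ ρ := by rw [eT]; exact mul_le_of_le_one_left ρ0.le x4
  have ρT : ρ ^ 3 ≤ T ^ 2 := by
    rw [hρ, hx, ← pow_mul, ← pow_mul]; exact pow_le_pow_of_le_one hx0.le x4 (by omega)
  have ρR : ρ ≤ R ^ 2 := le_of_pow_le_pow_left₀ (by norm_num : 3 ≠ 0) (by positivity)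
    (ρT.trans (by rw [← pow_mul, show 2 * 3 = 3 * 2 from rfl, pow_mul]; gcongr))
  have ρR' : 1000 * ρ ≤ R := by
    refine le_of_pow_le_pow_left₀ (by norm_num : 3 ≠ 0) R0.le ?_
    have h1 : T ≤ (1 / 1000) ^ 3 := by
      rw [hx]; exact (pow_le_pow_of_le_one hx0.le x4 (by omega : 3 ≤ k + 4)).trans (by gcongr)
    nlinarith only [ρT, h1, hTR, T0]
  have hLL : L₀ ≤ L := by
    have := Real.log_le_log (by positivity : 0 < 2 * x)
      (show 2 * x ≤ Real.exp (-L₀) by linarith only [xx, u4])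
    rw [Real.log_exp] at this
    rw [hL, Real.log_inv]; linarith only [this]
  obtain ⟨-, m2, m3, m4, -⟩ := HL L hLL
  have L1 : 1 ≤ L := l1.trans hLL
  have m1 : 1 ≤ Lam k L := one_le_two.trans m2
  have m8 : Lam k L ^ 8 ≤ L := (pow_le_pow_right₀ m1 hP).trans m3
  have ΛL : Lam k L ≤ L := (le_self_pow₀ m1 (by norm_num)).trans m8
  have ht0 : 0 < Real.log T⁻¹ := Real.log_pos ((one_lt_inv₀ T0).2 (by linarith only [TR, R1]))
  have hu := KLg_num k L1 (one_pos.trans_le m1) m4 ht0 (by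
    have h1 : Real.log 2 ≤ 1 := (Real.log_le_sub_one_of_pos two_pos).trans (by norm_num)
    have h2 : (0 : ℝ) ≤ k + 4 := by positivity
    rw [Real.log_inv, Real.log_mul two_ne_zero hx0.ne'] at hL
    rw [hx, Real.log_inv, Real.log_pow]
    push_cast
    nlinarith only [hL, h1, h2, L1])
  set ξ₀ := pr S.ι y₀ with hξ₀
  have hF : ∀ ξ, ‖S.F ξ - y₀‖ ≤ 101 / 100 * ‖ξ - ξ₀‖ + T := fun ξ => by
    have h1 := norm_sub_le_norm_sub_add_norm_sub (S.F ξ) (S.F ξ₀) y₀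
    have h2 : ‖S.F ξ₀ - y₀‖ ≤ T := by rw [norm_sub_rev]; exact P.cen
    linarith only [h1, h2, (S.F_lip ξ ξ₀).2.1]
  obtain ⟨J, hJ⟩ : ∃ J : Finset (Fin (k + 2) → ℤ), ∀ j, j ∈ J ↔ ‖lc ρ j - ξ₀‖ ≤ 2 * R / 5 :=
    ⟨((Hb ρ ρ0).1 _ (isBounded_closedBall (x := ξ₀) (r := 2 * R / 5))).toFinset, fun j => by
      rw [Set.Finite.mem_toFinset]; exact mem_closedBall_iff_norm⟩
  choose ι hι using fun j => S.exists_tan (lc ρ j)
  have gz : ∀ j (ξ : E (k + 2)), ρ / 2 < ‖ξ - lc ρ j‖ → lp ρ j ξ ^ 2 = 0 := fun j ξ h => by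
    rw [lp_eq_zero ρ0 j h, zero_pow two_ne_zero]
  have gc : ∀ j, Continuous (fun ξ : E (k + 2) => lp ρ j ξ ^ 2) ∧
      HasCompactSupport fun ξ => lp ρ j ξ ^ 2 :=
    fun j => ⟨(contDiff_lp ρ j 0).continuous.pow 2, KLg_cpt (ξ := lc ρ j) (r := ρ / 2) fun ξ h =>
      gz j ξ (by rwa [mem_closedBall_iff_norm, not_le] at h)⟩
  have fr1 := fun j (hj : j ∈ J) => Hf P hA x ρ L (lc ρ j) (ι j) _ hx0 (xx.trans u1) hx hρ hL (hι j)
    (by linarith only [hF (lc ρ j), (hJ j).1 hj, ρR', TR, R0]) ((contDiff_lp ρ j 2).pow 2)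
    (fun ξ => sq_nonneg _) (H₁ ρ ρ0 j).2.1 (gz j)
  have ω0 : ∀ ξ, ξ ∉ closedBall ξ₀ (9 * R / 20) → ω ξ = 0 := fun ξ h => hω.zero ξ fun h' =>
    h (ball_subset_closedBall.trans (closedBall_subset_closedBall (by linarith only [R0])) h')
  have s0 : ∀ ξ, ξ ∉ closedBall ξ₀ (9 * R / 20) → ∑ j ∈ J, ω (lc ρ j) * lp ρ j ξ ^ 2 = 0 :=
    fun ξ h => Finset.sum_eq_zero fun j hj => by
      rw [mem_closedBall_iff_norm, not_le] at h
      rw [gz j ξ (by linarith only [h, (hJ j).1 hj, ρR', R0,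
        norm_sub_le_norm_sub_add_norm_sub ξ (lc ρ j) ξ₀]), mul_zero]
  have sc : Continuous fun ξ => ∑ j ∈ J, ω (lc ρ j) * lp ρ j ξ ^ 2 :=
    continuous_finsetSum _ fun j _ => (gc j).1.const_mul _
  have df : ∀ ξ, |ω ξ - 1 * ∑ j ∈ J, ω (lc ρ j) * lp ρ j ξ ^ 2| ≤ ρ / R := fun ξ => by
    have h1 : ω ξ = ∑ j ∈ J, ω ξ * lp ρ j ξ ^ 2 := by
      rw [← Finset.mul_sum]
      by_cases h : ξ ∈ ball ξ₀ (R / 4)
      · rw [(sum_lp_sq ρ0 J ξ).2, mul_one]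
        intro j hj
        rw [mem_ball_iff_norm] at h
        rw [norm_sub_rev] at hj
        exact (hJ j).2 (by linarith only [h, hj, ρR', R0,
          norm_sub_le_norm_sub_add_norm_sub (lc ρ j) ξ ξ₀])
      · rw [hω.zero ξ h, zero_mul]
    rw [one_mul, h1, ← Finset.sum_sub_distrib]
    refine (Finset.abs_sum_le_sum_abs _ _).trans ((Finset.sum_le_sum (g := fun j =>
      ρ / R * lp ρ j ξ ^ 2) fun j _ => ?_).trans ?_)
    · rw [← sub_mul, abs_mul, abs_of_nonneg (sq_nonneg (lp ρ j ξ))]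
      rcases le_or_gt ‖ξ - lc ρ j‖ (ρ / 2) with h | h
      · refine mul_le_mul_of_nonneg_right ((hω.lip _ _).trans ?_) (sq_nonneg _)
        rw [one_div_mul_eq_div]; gcongr; linarith only [h, ρ0]
      · rw [gz j ξ h, mul_zero, mul_zero]
    · rw [← Finset.mul_sum]
      exact mul_le_of_le_one_right (by positivity) (sum_lp_sq ρ0 J ξ).1
  have en := ((He P).2.2 ρ hA (by rw [eT]; gcongr; exact xx.trans u3)
    (by linarith only [ρR', R0])).2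
    (fun ξ => ω ξ - 1 * ∑ j ∈ J, ω (lc ρ j) * lp ρ j ξ ^ 2) _ (closedBall ξ₀ (9 * R / 20))
    (hω.lip.continuous.sub (sc.const_mul _)).measurable df measurableSet_closedBall
    (fun ξ hξ => by
      rw [mem_closedBall_iff_norm] at hξ
      show ‖S.F ξ - y₀‖ < R - 10 * ρ
      linarith only [hF ξ, hξ, ρR', TR, R0])
    fun ξ hξ => by rw [ω0 ξ hξ, s0 ξ hξ, mul_zero, sub_zero]
  rw [(KLg_lin P Q).1 _ hω.lip.continuous sc (KLg_cpt ω0) (KLg_cpt s0), (KLg_lin P Q).2 J _ gc,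
    one_mul] at en
  have pp := P.KLg_PP (preimage_mono (f := S.zeta) (show thickening ρ (closedBall ξ₀ (9 * R / 20)) ⊆
    closedBall ξ₀ (R / 2) by
      rw [thickening_closedBall ρ0 (by positivity)]
      exact ball_subset_closedBall.trans
        (closedBall_subset_closedBall (by linarith only [ρR', R0]))))
  have ms : (μ (S.zeta ⁻¹' closedBall ξ₀ (R / 2))).toReal ≤ A * R ^ (k + 2) :=
    (measureReal_mono (μ := μ) (subset_univ _)).trans (P.mass_cyl ξ₀ le_rfl).2.2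
  obtain ⟨V, hV⟩ : ∃ V, V = T ^ 2 * R ^ (k + 2) / R ^ 2 := ⟨_, rfl⟩
  obtain ⟨W, hW⟩ : ∃ W, W = T ^ 2 * R ^ (k + 2) / R := ⟨_, rfl⟩
  have V0 : 0 ≤ V := by rw [hV]; positivity
  have W0 : 0 ≤ W := by rw [hW]; positivity
  have WT : T ^ 2 * R ^ (k + 2) ≤ W := by
    rw [hW, le_div_iff₀ R0]
    exact mul_le_of_le_one_right (by positivity) (by linarith only [R1])
  have E0 : ∫ y in S.zeta ⁻¹' closedBall ξ₀ (R / 2), S.dd fr y ∂μ ≤ 1600 * Ce * A * V := by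
    refine (P.KLg_mono (Z' := ball y₀ (R - 10 * (R / 40))) ?_).2.trans
      (((He P).1 (R / 40) (by linarith only [TR, R0])).trans ?_)
    · filter_upwards [P.ae_tube] with y hy h
      rw [mem_preimage, mem_closedBall_iff_norm] at h
      rw [mem_ball_iff_norm]
      linarith only [hy.2.2.2.2.2.2.1, h, (S.F_lip (S.zeta y) ξ₀).2.1, TR, R0]
    · calc _ ≤ Ce * (A * T ^ 2 * R ^ (k + 2)) / (R / 40) ^ 2 := by gcongr; exact P.I2_univ.2.2
        _ = _ := by rw [hV]; field_simp; norm_num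
  have f1 : ∑ j ∈ J, ∫ y in S.zeta ⁻¹' closedBall (lc ρ j) (11 * ρ), S.dd fr y ∂μ ≤
      Cs * 12 ^ (k + 2) * (1600 * Ce * A * V) := by
    have h1 := Hs μ S.zeta (S.dd fr) ρ (12 * ρ) J (closedBall ξ₀ (R / 2)) ρ0
      (by linarith only [ρ0]) S.measurable_zeta.1 P.KLg_dd
      (Eventually.of_forall fun y => (S.dd_bd fr y).1) (fun j hj ξ h => by
        rw [mem_ball_iff_norm] at h
        rw [mem_closedBall_iff_norm]
        linarith only [h, (hJ j).1 hj, ρR', R0, norm_sub_le_norm_sub_add_norm_sub ξ (lc ρ j) ξ₀])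
      measurableSet_closedBall
    rw [mul_div_cancel_right₀ _ ρ0.ne'] at h1
    refine (Finset.sum_le_sum fun j _ => (P.KLg_mono (Eventually.of_forall (preimage_mono
      (closedBall_subset_ball (by linarith only [ρ0]))))).2).trans (h1.trans ?_)
    gcongr
  have f2 : ∀ G : ℝ, 2 ≤ G → ∑ j ∈ J, PR fr μ (ι j) (2 * T / G) (2 * T)
      (fun y => (closedBall (lc ρ j) (11 * ρ)).indicator 1 (pr S.ι y)) ≤
      Cp * (4 / G * V + W) := fun G hG => by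
    have G0 : 0 < G := two_pos.trans_le hG
    refine (Hp P ρ _ ι J Tρ ρR' (by positivity) (by rw [div_le_iff₀ G0]; nlinarith only [hG, T0])
      hι fun j => (hJ j).1).trans ?_
    have h1 : ρ ^ 3 ≤ T ^ 2 / R ^ 2 := ρT.trans (by
      rw [le_div_iff₀ (by positivity)]
      exact mul_le_of_le_one_right (by positivity) (by nlinarith only [R0, R1]))
    calc _ ≤ Cp * (2 * T / G / T * (T ^ 2 / R ^ 2 + T ^ 2 / R ^ 2) + T ^ 2 / R) * R ^ (k + 2) := by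
          gcongr
      _ = _ := by rw [hV, hW]; field_simp; ring
  have f3 : ∑ j ∈ J, T ^ 2 * ρ ^ (k + 2) ≤ Cb * W := by
    have h1 := (Hb ρ ρ0).2 J ξ₀ R (by linarith only [ρR', ρ0])
    rw [Finset.filter_true_of_mem fun j hj => by
      rw [norm_sub_rev]; linarith only [(hJ j).1 hj, R0]] at h1
    rw [Finset.sum_const, nsmul_eq_mul]
    calc _ ≤ Cb * (R / ρ) ^ (k + 2) * (T ^ 2 * ρ ^ (k + 2)) := by gcongr
      _ = Cb * (T ^ 2 * R ^ (k + 2)) := by rw [div_pow]; field_simp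
      _ ≤ _ := by gcongr
  have Λ0 : 0 < Lam k L := one_pos.trans_le m1
  have L0 : 0 < L := one_pos.trans_le L1
  have g1 := f2 (L ^ 2) (by nlinarith only [m2, ΛL])
  have g2 := mul_le_mul_of_nonneg_left (f2 (Lam k L ^ 10) (m2.trans (le_self_pow₀ m1 (by norm_num))))
    (show 0 ≤ Lam k L ^ 8 / L by positivity)
  have g3 := Finset.sum_le_sum fun j hj => (le_mul_of_le_one_left (neg_nonpos.2 (by
    have q := fun (G : ℝ) (h : 0 < G) => KLg_PR fr μ (ι j) (g := 2 * T / G) (r := 2 * T)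
      (by positivity) (by positivity)
      (ω := fun y => (closedBall (lc ρ j) (11 * ρ)).indicator 1 (pr S.ι y))
      fun y => indicator_nonneg (fun _ _ => zero_le_one) _
    have q1 := q (L ^ 2) (by positivity)
    have q2 := q (Lam k L ^ 10) (by positivity)
    have q3 := (P.KLg_mono (Eventually.of_forall
      (subset_univ (S.zeta ⁻¹' closedBall (lc ρ j) (11 * ρ))))).1
    positivity)) (hω.le_one _)).trans
    (mul_le_mul_of_nonneg_left (fr1 j hj) (hω.nonneg (lc ρ j)))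
  rw [Finset.sum_neg_distrib, ← Finset.mul_sum, Finset.sum_add_distrib, Finset.sum_add_distrib,
    Finset.sum_add_distrib, ← Finset.mul_sum, ← Finset.sum_div] at g3
  have g4 := div_le_div_of_nonneg_right f1 (show 0 ≤ L * Lam k L by positivity)
  obtain ⟨u, hu'⟩ : ∃ u, u = 1 / (L * Lam k L) := ⟨_, rfl⟩
  have u0 : 0 ≤ u := by rw [hu']; positivity
  rw [div_eq_mul_one_div (Cs * 12 ^ (k + 2) * _), ← hu'] at g4
  have g5 : Cp * (4 / L ^ 2 * V + W) ≤ Cp * (4 * u * V + W) := by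
    rw [hu', mul_one_div, sq]; gcongr
  have g6 : Lam k L ^ 8 / L * (Cp * (4 / Lam k L ^ 10 * V + W)) ≤ Cp * (4 * u * V + W) := by
    calc _ = Cp * (4 * u / Lam k L * V + Lam k L ^ 8 / L * W) := by rw [hu']; field_simp
      _ ≤ Cp * (4 * u / 1 * V + 1 * W) := by gcongr; exact (div_le_one L0).2 m8
      _ = _ := by ring
  have g7 : C * (_ + _ + _ + _) ≤ C * _ := mul_le_mul_of_nonneg_left
    (add_le_add (add_le_add (add_le_add (g1.trans g5) (g2.trans g6)) g4) f3) (by positivity)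
  have g8 : Ce * (ρ / R) * ∫ y in S.zeta ⁻¹' thickening ρ (closedBall ξ₀ (9 * R / 20)),
      (S.dd fr y + ‖S.zz y‖ ^ 2) ∂μ ≤ Ce * (1600 * Ce * A + A) * W := by
    have h1 : ρ / R ≤ R := by rw [div_le_iff₀ R0, ← sq]; exact ρR
    have h2 : R * V = W := by rw [hV, hW]; field_simp
    calc _ ≤ Ce * (ρ / R) * (1600 * Ce * A * V + T ^ 2 * (A * R ^ (k + 2))) :=
          mul_le_mul_of_nonneg_left (pp.trans (by gcongr)) (by positivity)
      _ ≤ Ce * R * (1600 * Ce * A * V + T ^ 2 * (A * R ^ (k + 2))) := by gcongr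
      _ = Ce * (1600 * Ce * A * (R * V) + A * (R * (T ^ 2 * R ^ (k + 2)))) := by ring
      _ ≤ Ce * (1600 * Ce * A * W + A * (1 * W)) := by
          rw [h2]; gcongr; linarith only [R1]
      _ = _ := by ring
  have g9 : -(K₁ * u * V + K₂ * W) ≤ S.YF fr μ Q ω := by
    rw [hK₁, hK₂]
    linarith only [g3, g7, g8, (abs_le.1 en).1]
  refine le_trans (neg_le_neg ?_) g9
  rw [← hu'] at hu
  have K1 : 0 ≤ K₁ := by rw [hK₁]; positivity
  have t0 := Real.rpow_nonneg ht0.le (-(1 + (P0 k : ℝ)⁻¹))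
  generalize Real.log T⁻¹ ^ (-(1 + (P0 k : ℝ)⁻¹)) = t at *
  have n1 := (le_max_left (K₁ * (2 * (2 * (k + 4)) ^ 2)) K₂).trans (le_max_right 1 _)
  have n2 := (le_max_right (K₁ * (2 * (2 * (k + 4)) ^ 2)) K₂).trans (le_max_right 1 _)
  generalize max 1 (max (K₁ * (2 * (2 * (k + 4)) ^ 2)) K₂) = K at *
  calc K₁ * u * V + K₂ * W ≤ K₁ * (2 * (2 * (k + 4)) ^ 2 * t) * V + K * W := by gcongr
    _ = K₁ * (2 * (2 * (k + 4)) ^ 2) * t * V + K * W := by ring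
    _ ≤ K * t * V + K * W := by gcongr
    _ = _ := by rw [hV, hW]; ring

/-- Let `y₁ = F ξ₁`, `I = I2 μ y₁ (8 l)`. By `sup_bound` with `σ = 4 l` the height in
`ball y₁ (4 l)` is at most `T₁ = min T (√(C I / l ^ m) + ε)`. Apply `KL_ball` to the restriction
(`restrict`, `YF_restrict`; the anchor is the third part of `energy` with `s = 4 l / 10`), and let
`ε` tend to zero. -/
theorem Piece.KL_loc (k : ℕ) (hk : 1 ≤ k) (N Q : ℕ) (A : ℝ) : ∃ θ C L₀ : ℝ, 0 < θ ∧ θ ≤ 1 ∧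
    1 ≤ C ∧ 1 ≤ L₀ ∧ ∀ {S : Ref (k + 2) N} {fr : Fr (k + 2) N} {μ : Measure (E N)} {y₀ : E N}
    {R T : ℝ}, Piece S fr μ y₀ R T A → Anch S fr μ Q y₀ R → ‖y₀‖ ≤ 1 / 2 → ∀ (L l : ℝ)
    (ξ₁ : E (k + 2)) (ω : E (k + 2) → ℝ), L₀ ≤ L → T ≤ Real.exp (-L) → T ≤ l ^ 3 →
    ‖S.F ξ₁ - y₀‖ + 8 * l ≤ R → Wt ω (1 / (4 * l)) (ball ξ₁ l) →
    -(C * (L ^ (-(1 + θ)) / l ^ 2 + 1 / l) * S.I2 μ (S.F ξ₁) (8 * l)) ≤ S.YF fr μ Q ω := by
  obtain ⟨θ, C, T₀, θ0, θ1, c1, t0, Hb⟩ := Piece.KL_ball k hk N Q A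
  obtain ⟨Cs, s1, Hs⟩ := Piece.sup_bound (k + 2)
  obtain ⟨δ, Ce, e0, e1, -, He⟩ := Piece.energy (k + 2) (by omega) Q A
  obtain ⟨T₂, t2, u1, u2⟩ : ∃ T₂ : ℝ, 0 < T₂ ∧ T₂ ≤ T₀ ∧ T₂ ≤ (δ / 25) ^ 3 :=
    ⟨min T₀ ((δ / 25) ^ 3), by positivity, min_le_left _ _, min_le_right _ _⟩
  refine ⟨θ, C * Cs, max 1 (-Real.log T₂), θ0, θ1, one_le_mul_of_one_le_of_one_le c1 s1,
    le_max_left _ _, fun {S fr μ y₀ R T} P hA hy L l ξ₁ ω hL hT hl hR hω => ?_⟩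
  have := P.fin
  have T0 := P.T_pos
  have R1 := P.R_le
  have n0 := norm_nonneg (S.F ξ₁ - y₀)
  have L0 : 0 < L := one_pos.trans_le ((le_max_left _ _).trans hL)
  have TT : T ≤ T₂ := hT.trans ((Real.le_log_iff_exp_le t2).1
    (by linarith only [(le_max_right _ _).trans hL]))
  have l0 : 0 < l := (Odd.pow_pos_iff (by decide : Odd 3)).1 (T0.trans_le hl)
  have l1 : l ≤ 1 / 80 := by linarith only [hR, R1, n0]
  have Tl : T ≤ l / 25 := hl.trans (by nlinarith only [l0, l1, mul_pos l0 l0])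
  have Tδ : T ≤ δ * (4 * l / 10) := by
    refine le_of_pow_le_pow_left₀ (by norm_num : 3 ≠ 0) (by positivity) ?_
    have h1 : T ≤ 1 := by linarith only [Tl, l1]
    calc T ^ 3 = T * T * T := by ring
      _ ≤ (δ / 25) ^ 3 * l ^ 3 * 1 := by gcongr; exact TT.trans u2
      _ = (δ * (l / 25)) ^ 3 := by ring
      _ ≤ _ := by gcongr (δ * ?_) ^ 3; linarith only [l0]
  have hp : pr S.ι (S.F ξ₁) = ξ₁ := (S.F_calc ξ₁).2.2.2.2.1
  obtain ⟨I, hI⟩ : ∃ I, I = S.I2 μ (S.F ξ₁) (8 * l) := ⟨_, rfl⟩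
  have I0 : 0 ≤ I := hI ▸ (S.I2_mono μ (Subset.refl _)).1
  obtain ⟨b, hb⟩ : ∃ b, b = Cs / (4 * l) ^ (k + 2) * I := ⟨_, rfl⟩
  have b0 : 0 ≤ b := by rw [hb]; positivity
  have t1 := Real.rpow_nonneg L0.le (-(1 + θ))
  have key : ∀ ε : ℝ, 0 < ε → -(C * (L ^ (-(1 + θ)) / l ^ 2 + 1 / l) * (b + ε) * (4 * l) ^ (k + 2)) ≤
      S.YF fr μ Q ω := fun ε hε => by
    obtain ⟨T₁, t1, v1, v2, v3⟩ : ∃ T₁ : ℝ, 0 < T₁ ∧ T₁ ≤ T ∧ T₁ ^ 2 ≤ b + ε ∧
        ∀ z : ℝ, z ≤ T → z ^ 2 ≤ b → z ≤ T₁ := by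
      refine ⟨min T √(b + ε), by positivity, min_le_left _ _, ?_, fun z h1 h2 =>
        le_min h1 (Real.le_sqrt_of_sq_le (by linarith only [h2, hε]))⟩
      exact (pow_le_pow_left₀ (by positivity) (min_le_right _ _) 2).trans_eq
        (Real.sq_sqrt (by positivity))
    have P₁ := P.restrict (y₁ := S.F ξ₁) (R₁ := 4 * l) t1 (by linarith only [v1, Tl])
      (by linarith only [hR, v1, l0]) (by linarith only [hR, l0])
      (by linarith only [norm_le_norm_sub_add (S.F ξ₁) y₀, hR, R1, l0, hy])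
      (by rw [(S.gh_calc y₀).2.2.2.2.2, norm_zero]; exact t1.le) (by
        filter_upwards [P.ae] with y hy h
        rw [mem_ball_iff_norm] at h
        have h1 := norm_sub_le_norm_sub_add_norm_sub y (S.F ξ₁) y₀
        refine v3 _ hy.2.1 ((Hs P (4 * l) y (by positivity) (by linarith only [h, hR, h1])
          hy.2.1 hy.2.2).trans ?_)
        rw [hb, hI]
        refine mul_le_mul_of_nonneg_left (S.I2_mono μ (ball_subset_ball' ?_)).2 (by positivity)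
        rw [dist_eq_norm]; linarith only [h])
    have A₁ : Anch S fr (μ.restrict (ball (S.F ξ₁) (4 * l))) Q (S.F ξ₁) (4 * l) := by
      unfold Anch
      rw [hp, P.YF_restrict Q (ρ := 4 * l / 10) (by linarith only [Tl, l0]) fun x hx =>
        rho_eq_zero (by positivity) (by rwa [mem_ball_iff_norm, not_lt] at hx)]
      exact (((He P).2.2 _ hA Tδ (by linarith only [hR, n0, l0])).1 ξ₁
        (by linarith only [hR, l0])).trans (by norm_num)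
    have h1 := Hb P₁ A₁ (v1.trans (TT.trans u1)) (v1.trans (hl.trans (by gcongr; linarith only [l0])))
      ω (by rw [hp, mul_div_cancel_left₀ _ four_ne_zero]; exact hω)
    rw [P.YF_restrict Q (ρ := l) (by linarith only [Tl, l0]) hω.zero] at h1
    refine le_trans (neg_le_neg ?_) h1
    have h2 : L ≤ Real.log T₁⁻¹ := by
      have := Real.log_le_log t1 (v1.trans hT)
      rw [Real.log_exp] at this
      rw [Real.log_inv]; linarith only [this]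
    have h3 := Real.rpow_le_rpow_of_nonpos L0 h2 (show -(1 + θ) ≤ 0 by linarith only [θ0])
    gcongr <;> linarith only [l0]
  have lim : Tendsto (fun ε : ℝ => -(C * (L ^ (-(1 + θ)) / l ^ 2 + 1 / l) * (b + ε) *
      (4 * l) ^ (k + 2))) (𝓝[>] 0) (𝓝 _) :=
    (Continuous.tendsto (by fun_prop) 0).mono_left nhdsWithin_le_nhds
  refine le_of_eq_of_le ?_ (le_of_tendsto lim (eventually_nhdsWithin_of_forall key))
  rw [← hI, hb]; field_simp; ring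

end Pool.Agent.MP_f6c0e6_an.Gen

end

section

/-! Three spheres for a piece. -/

set_option autoImplicit false

open MeasureTheory Filter Topology Set Metric
open scoped ENNReal RealInnerProductSpace

namespace Pool.Agent.MP_f6c0e6_an.Gen

variable {m N : ℕ}

theorem CarlE_log {t e : ℝ} (ht : 0 < t) (he : 0 ≤ e) :
    Real.log (t + e) ≤ Real.log t + e / t := by
  have h0 : 0 < t + e := by linarith only [ht, he]
  have h1 := Real.log_le_sub_one_of_pos (div_pos h0 ht)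
  rw [Real.log_div h0.ne' ht.ne', add_div, div_self ht.ne'] at h1
  linarith only [h1]

theorem CarlE_tl {C t e : ℝ} (hC : 0 ≤ C) (ht : 0 < t) (he : 0 ≤ e) :
    tl C (t + e) ≤ tl C t + e / t := by
  have h1 := CarlE_log ht he
  have h2 := mul_nonneg hC he
  unfold tl
  linarith only [h1, h2]

theorem CarlE_exp {κ : ℝ} (hκ : 10 ≤ κ) : 1 / 2 ≤ Real.exp (-4 / κ) ∧ Real.exp (-4 / κ) ≤ 1 ∧
    Real.exp (-5 / κ) ≤ Real.exp (-4 / κ) * (1 - 1 / (2 * κ)) := by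
  have k0 : 0 < κ := by linarith only [hκ]
  have a1 : 1 / κ ≤ 1 / 10 := one_div_le_one_div_of_le (by norm_num) hκ
  have a2 : 0 < 1 / κ := one_div_pos.2 k0
  have e4 : -4 / κ = -4 * (1 / κ) := by ring
  have e5 : -5 / κ = -4 / κ + -(1 / κ) := by ring
  have e6 : 1 / (2 * κ) = 1 / κ / 2 := by field_simp
  refine ⟨?_, ?_, ?_⟩
  · have := Real.add_one_le_exp (-4 / κ)
    linarith only [this, e4, a1]
  · exact Real.exp_le_one_iff.2 (by linarith only [e4, a2])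
  · rw [e5, Real.exp_add, e6]
    refine mul_le_mul_of_nonneg_left ?_ (Real.exp_pos _).le
    rw [Real.exp_neg, inv_le_iff_one_le_mul₀ (Real.exp_pos _)]
    have b1 := Real.add_one_le_exp (1 / κ)
    have b2 := mul_le_mul_of_nonneg_left b1 (show 0 ≤ 1 - 1 / κ / 2 by linarith only [a1, a2])
    have b3 := mul_le_mul_of_nonneg_left a1 a2.le
    linarith only [b2, b3, a2]

section Cmp

variable {S : Ref m N} {fr : Fr m N} {μ : Measure (E N)} {y₀ : E N} {R T A c : ℝ}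
  {B : Base m c (E N)}

theorem CarlE_int (P : Piece S fr μ y₀ R T A) :
    Integrable (fun y => ‖S.zz y‖ ^ 2) μ ∧ Integrable (fun y => ‖S.gh y‖ ^ 2) μ := by
  have := P.fin
  refine ⟨Integrable.of_bound (S.measurable_zeta.2.norm.pow_const 2).aestronglyMeasurable
    ((1 / 2) ^ 2) (Eventually.of_forall fun y => ?_), Integrable.of_bound
    ((S.gh_calc 0).2.1.continuous.norm.pow 2).aestronglyMeasurable (T ^ 2)
    (P.ae.mono fun y hy => ?_)⟩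
  · rw [Real.norm_of_nonneg (sq_nonneg _)]
    exact pow_le_pow_left₀ (norm_nonneg _) (S.zz_bd y).1 2
  · rw [Real.norm_of_nonneg (sq_nonneg _)]
    exact pow_le_pow_left₀ (norm_nonneg _) hy.2.1 2

theorem CarlE_II (D : Dict S fr μ y₀ R T B) (Z : Set (E m)) :
    B.II Z = ∫ y in S.zeta ⁻¹' Z, ‖S.zz y‖ ^ 2 ∂B.μ := by
  rw [Lk.II, D.ζ_eq, D.h_eq]

theorem CarlE_up (P : Piece S fr μ y₀ R T A) (D : Dict S fr μ y₀ R T B) {y₁ : E N} {t : ℝ}
    {Z : Set (E m)} (hZ : MeasurableSet Z) (h : ∀ᵐ y ∂μ, y ∈ ball y₁ t → S.zeta y ∈ Z) :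
    S.I2 μ y₁ t ≤ 2 * 2 ^ m * B.II Z := by
  obtain ⟨i1, i2⟩ := CarlE_int P
  have h1 := (D.cmp _ _ (S.measurable_zeta.1 hZ) i1 fun y => sq_nonneg _).2
  have h2 : ∫ y in ball y₁ t, ‖S.zz y‖ ^ 2 ∂μ ≤ ∫ y in S.zeta ⁻¹' Z, ‖S.zz y‖ ^ 2 ∂μ :=
    setIntegral_mono_set i1.integrableOn (Eventually.of_forall fun y => sq_nonneg _) h
  have h3 : S.I2 μ y₁ t ≤ ∫ y in ball y₁ t, 2 * ‖S.zz y‖ ^ 2 ∂μ := by
    refine integral_mono_ae i2.integrableOn (i1.const_mul 2).integrableOn (ae_restrict_of_ae ?_)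
    filter_upwards [P.ae_tube] with y hy
    have a1 := pow_le_pow_left₀ (norm_nonneg _) (S.tube_spec hy.1).2.2.2.1 2
    have a2 := sq_nonneg ‖S.zz y‖
    rw [mul_pow] at a1
    linarith only [a1, a2]
  rw [integral_const_mul] at h3
  rw [CarlE_II D]
  linarith only [h1, h2, h3]

theorem CarlE_down (P : Piece S fr μ y₀ R T A) (D : Dict S fr μ y₀ R T B) {t : ℝ}
    (ht : 0 ≤ t - 2 * T) (hZ : MeasurableSet (B.bl (t - 2 * T))) :
    B.II (B.bl (t - 2 * T)) ≤ S.I2 μ y₀ t := by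
  obtain ⟨i1, i2⟩ := CarlE_int P
  have h1 := (D.cmp _ _ (S.measurable_zeta.1 hZ) i1 fun y => sq_nonneg _).1
  have h2 : ∫ y in S.zeta ⁻¹' B.bl (t - 2 * T), ‖S.zz y‖ ^ 2 ∂μ ≤
      ∫ y in ball y₀ t, ‖S.zz y‖ ^ 2 ∂μ := by
    refine setIntegral_mono_set i1.integrableOn (Eventually.of_forall fun y => sq_nonneg _) ?_
    filter_upwards [P.ae_tube] with y hy h
    have a1 : B.r2 (S.zeta y) < (t - 2 * T) ^ 2 := h
    rw [D.r2_eq, Ref.r2] at a1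
    have a2 := lt_of_pow_lt_pow_left₀ 2 ht a1
    exact mem_ball_iff_norm.2 (by linarith only [a2, hy.2.2.2.2.2.2.1])
  have h3 : ∫ y in ball y₀ t, ‖S.zz y‖ ^ 2 ∂μ ≤ S.I2 μ y₀ t :=
    integral_mono i1.integrableOn i2.integrableOn fun y =>
      pow_le_pow_left₀ (norm_nonneg _) (S.zz_bd y).2.1 2
  rw [CarlE_II D]
  linarith only [h1, h2, h3]

theorem CarlE_up1 (P : Piece S fr μ y₀ R T A) (D : Dict S fr μ y₀ R T B) {t : ℝ}
    (hZ : MeasurableSet (B.bl (t + 2 * T))) :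
    S.I2 μ y₀ t ≤ 2 * 2 ^ m * B.II (B.bl (t + 2 * T)) := by
  refine CarlE_up P D hZ ?_
  filter_upwards [P.ae_tube] with y hy h
  change B.r2 (S.zeta y) < (t + 2 * T) ^ 2
  rw [D.r2_eq, Ref.r2]
  refine pow_lt_pow_left₀ ?_ (norm_nonneg _) two_ne_zero
  linarith only [mem_ball_iff_norm.1 h, hy.2.2.2.2.2.2.2]

theorem CarlE_up2 (P : Piece S fr μ y₀ R T A) (D : Dict S fr μ y₀ R T B) {ξ : E m} {l : ℝ}
    (hl : T ≤ l) : S.I2 μ (S.F ξ) (8 * l) ≤ 2 * 2 ^ m * B.II (ball ξ (9 * l)) := by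
  refine CarlE_up P D measurableSet_ball ?_
  filter_upwards [P.ae_tube] with y hy h
  have a1 := (S.F_lip (S.zeta y) ξ).1
  have a2 : S.F (S.zeta y) - S.F ξ = (y - S.F ξ) - S.zz y := by
    have := (S.tube_spec hy.1).2.1
    calc S.F (S.zeta y) - S.F ξ = (S.F (S.zeta y) + S.zz y - S.F ξ) - S.zz y := by abel
      _ = (y - S.F ξ) - S.zz y := by rw [← this]
  have a3 := norm_sub_le (y - S.F ξ) (S.zz y)
  rw [a2] at a1
  exact mem_ball_iff_norm.2 (by linarith only [a1, a3, mem_ball_iff_norm.1 h, hy.2.1, hl])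

theorem CarlE_cen (P : Piece S fr μ y₀ R T A) (D : Dict S fr μ y₀ R T B) (ξ : E m) :
    ‖S.F ξ - y₀‖ ≤ √(B.r2 ξ) + T := by
  rw [D.r2_eq, Ref.r2, Real.sqrt_sq (norm_nonneg _)]
  have a1 : S.F ξ - y₀ = (S.F ξ - S.F (pr S.ι y₀)) - S.gh y₀ := by rw [Ref.gh]; abel
  rw [a1]
  linarith only [norm_sub_le (S.F ξ - S.F (pr S.ι y₀)) (S.gh y₀), P.cen]

end Cmp

/-- the elementary inequalities between the parameters -/
theorem CarlE_num {κ t₁ t₂ R T : ℝ} (hκ : 10 ≤ κ) (T0 : 0 < T) (R1 : R ≤ 1 / 10)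
    (hT : T ≤ (t₁ / (2000 * κ)) ^ 3) (h12 : t₁ ≤ t₂) (h2R : t₂ ≤ R * Real.exp (-5 / κ))
    (R0 : 0 < R) : 0 < t₁ ∧ t₂ ≤ R ∧ t₁ / (2000 * κ) ≤ 1 / κ ∧ t₁ / (2000 * κ) ≤ t₁ / 20000 ∧
      T ≤ t₁ / (2000 * κ) ∧ t₂ + 2 * T ≤ (R - 2 * T) * Real.exp (-4 / κ) ∧
      10 * T * κ ^ 2 ≤ (t₁ - 2 * T) ^ 2 ∧ 5 / κ ≤ Real.log (R / t₁) ∧
      ∀ t, t₁ / 2 ≤ t → 2 * T / t ≤ 1 / (500 * κ) := by
  have k0 : 0 < κ := by linarith only [hκ]
  obtain ⟨e1, e2, e3⟩ := CarlE_exp hκ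
  have s0 : 0 < t₁ / (2000 * κ) := by
    by_contra h
    have := (Odd.pow_nonpos (by decide : Odd 3) (not_lt.1 h))
    linarith only [this, hT, T0]
  have t0 : 0 < t₁ := (div_pos_iff_of_pos_right (by linarith only [k0])).1 s0
  have e4 : 0 < 1 / (2 * κ) := one_div_pos.2 (by linarith only [k0])
  have e5 : Real.exp (-5 / κ) ≤ 1 := by
    have := mul_pos (Real.exp_pos (-4 / κ)) e4
    linarith only [e2, e3, this]
  have t2 : t₂ ≤ R := h2R.trans (mul_le_of_le_one_right R0.le e5)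
  have s1 : t₁ / (2000 * κ) ≤ t₁ / 20000 :=
    div_le_div_of_nonneg_left t0.le (by norm_num) (by linarith only [hκ])
  have s2 : T ≤ t₁ / (2000 * κ) := hT.trans (pow_le_of_le_one s0.le
    (by linarith only [s1, h12, t2, R1]) (by norm_num))
  have s3 : t₁ / (2000 * κ) = t₁ / 1000 * (1 / (2 * κ)) := by field_simp; norm_num
  refine ⟨t0, t2, ?_, s1, s2, ?_, ?_, ?_, ?_⟩
  · exact div_le_div₀ zero_le_one (by linarith only [h12, t2, R1]) k0 (by linarith only [k0])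
  · have a1 := mul_le_mul_of_nonneg_left e3 R0.le
    have a2 := mul_le_mul_of_nonneg_left e2 T0.le
    have a3 := mul_le_mul_of_nonneg_left e1 (mul_pos R0 e4).le
    have a4 := mul_le_mul_of_nonneg_right (h12.trans t2) e4.le
    have a5 := mul_pos R0 e4
    linarith only [a1, a2, a3, a4, a5, s2, s3, h2R]
  · have a1 : (t₁ / (2000 * κ)) ^ 3 * κ ^ 2 = t₁ / (2000 * κ) * (t₁ ^ 2 / 4000000) := by
      field_simp; norm_num
    have a2 := mul_le_mul_of_nonneg_right hT (sq_nonneg κ)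
    have a3 := mul_le_mul_of_nonneg_right (show t₁ / (2000 * κ) ≤ 1 by
      linarith only [s1, h12, t2, R1]) (show 0 ≤ t₁ ^ 2 / 4000000 by positivity)
    have a4 := pow_le_pow_left₀ (half_pos t0).le
      (show t₁ / 2 ≤ t₁ - 2 * T by linarith only [s1, s2, t0]) 2
    have a5 := sq_nonneg t₁
    have a6 : (t₁ / 2) ^ 2 = t₁ ^ 2 / 4 := by ring
    linarith only [a1, a2, a3, a4, a5, a6]
  · rw [Real.le_log_iff_exp_le (div_pos R0 t0), le_div_iff₀ t0]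
    have a1 := mul_le_mul_of_nonneg_left (h12.trans h2R) (Real.exp_pos (5 / κ)).le
    have a2 : Real.exp (5 / κ) * (R * Real.exp (-5 / κ)) = R := by
      rw [mul_left_comm, ← Real.exp_add, neg_div, add_neg_cancel, Real.exp_zero, mul_one]
    linarith only [a1, a2]
  · intro t ht
    have a0 : 0 < t := (half_pos t0).trans_le ht
    rw [div_le_div_iff₀ a0 (by linarith only [k0])]
    rw [le_div_iff₀ (by linarith only [k0])] at s2
    linarith only [s2, ht]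

theorem CarlE_fin {C κ η L X I₂ J₂ JR J₁ IR I₁ a a' b b' : ℝ} (hC : 1 ≤ C) (hκ : 0 < κ)
    (hL : 1 / η ≤ L ^ 2) (hX : 1 ≤ X) (h2 : I₂ ≤ 2 * X * J₂) (hR0 : 0 ≤ JR)
    (hR : JR ≤ IR) (h10 : 0 ≤ J₁) (h1 : J₁ ≤ I₁) (ha : a' ≤ a + 1) (hb : b' ≤ b + 1)
    (h : J₂ ≤ C * κ ^ 3 / η * (Real.exp a' * JR + Real.exp b' * J₁)) :
    I₂ ≤ 6 * X * C * κ ^ 3 * L ^ 2 * (Real.exp a * IR + Real.exp b * I₁) := by
  have f : ∀ {x x' : ℝ}, x' ≤ x + 1 → Real.exp x' ≤ 3 * Real.exp x := fun {x x'} hx => by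
    refine (Real.exp_le_exp.2 hx).trans ?_
    rw [Real.exp_add, mul_comm]
    exact mul_le_mul_of_nonneg_right (Real.exp_one_lt_d9.le.trans (by norm_num)) (Real.exp_pos _).le
  have a1 := mul_le_mul (f ha) hR hR0 (by positivity)
  have a2 := mul_le_mul (f hb) h1 h10 (by positivity)
  have a3 : C * κ ^ 3 / η ≤ C * κ ^ 3 * L ^ 2 := by
    rw [div_eq_mul_one_div]
    exact mul_le_mul_of_nonneg_left hL (by positivity)
  have a4 := mul_le_mul a3 (add_le_add a1 a2) (by positivity) (by positivity)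
  have a5 := mul_le_mul_of_nonneg_left (h.trans a4) (show 0 ≤ 2 * X by linarith only [hX])
  linarith only [a5, h2]

/-- `three_base` for the base model (`exists_base`, `lock`, `KL_loc`) with `η = L ^ (-(1 + θ))`,
`s = t₁ / (2000 κ)` and the radii `t₁ - 2 T`, `t₂ + 2 T`, `R - 2 T` (`ae_tube`, `Dict.cmp`,
`tube_spec`); the exponents change by at most one. -/
theorem Piece.three (k : ℕ) (hk : 1 ≤ k) (N Q : ℕ) (A : ℝ) : ∃ θ C₁ κ₀ C L₀ : ℝ, 0 < θ ∧ θ ≤ 1 ∧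
    1 ≤ C₁ ∧ 10 ≤ κ₀ ∧ 1 ≤ C ∧ 1 ≤ L₀ ∧ ∀ {S : Ref (k + 2) N} {fr : Fr (k + 2) N}
    {μ : Measure (E N)} {y₀ : E N} {R T : ℝ}, Piece S fr μ y₀ R T A → Anch S fr μ Q y₀ R →
    ‖y₀‖ ≤ 1 / 2 → R ≤ 1 / (4 * C₁) → ∀ L κ t₁ t₂ : ℝ, L₀ ≤ L → T ≤ Real.exp (-L) → κ₀ ≤ κ →
    T ≤ (t₁ / (2000 * κ)) ^ 3 → t₁ ≤ t₂ → t₂ ≤ R * Real.exp (-5 / κ) →
    C * κ * (Real.log (R / t₁) + 1) ≤ L ^ (1 + θ) →
    S.I2 μ y₀ t₂ ≤ C * κ ^ 3 * L ^ 2 *
      (Real.exp (-2 * κ * (tl C₁ R - tl C₁ t₂)) * S.I2 μ y₀ R +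
        Real.exp (2 * κ * (tl C₁ t₂ - tl C₁ t₁) +
          C * κ ^ 2 * Real.log (R / t₁) ^ 2 / L ^ (1 + θ)) * S.I2 μ y₀ t₁) := by
  obtain ⟨c, hB⟩ := Piece.exists_base (k + 2)
  obtain ⟨θ, Ck, L₀, θ0, θ1, hCk, hL₀, hK⟩ := Piece.KL_loc k hk N Q A
  obtain ⟨δ, Cl, δ0, δ1, hCl, hl⟩ := Base.lock (k + 2) (by omega) c (A * 3 ^ (k + 2)) Q
  have X1 : (1 : ℝ) ≤ 2 ^ (k + 2) := one_le_pow₀ one_le_two
  have hC₂ : 0 ≤ Ck * (2 * 2 ^ (k + 2)) := by positivity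
  obtain ⟨C₁, κ₀, C, hC₁, hκ₀, hC, h3⟩ := Base.three_base (k + 2) c (Ck * (2 * 2 ^ (k + 2)) + Cl)
    (by linarith only [hC₂, hCl])
  have XC : C ≤ 2 ^ (k + 2) * C := le_mul_of_one_le_left (by linarith only [hC]) X1
  refine ⟨θ, C₁, κ₀ + 1 / δ, 6 * 2 ^ (k + 2) * C, L₀, θ0, θ1, hC₁,
    by linarith only [hκ₀, one_div_pos.2 δ0], by linarith only [XC, hC], hL₀, ?_⟩
  intro S fr μ y₀ R T P hA hy hR L κ t₁ t₂ hL hTL hκ hT h12 h2R hLκ
  obtain ⟨B, D, hE⟩ := hB P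
  have T0 := P.T_pos
  have TR := P.T_le
  have R0 : 0 < R := by linarith only [T0, TR]
  have k1 : κ₀ ≤ κ := by linarith only [hκ, one_div_pos.2 δ0]
  have k10 : 10 ≤ κ := hκ₀.trans k1
  have k0 : 0 < κ := by linarith only [k10]
  have L1 : 1 ≤ L := hL₀.trans hL
  have L0 : 0 < L := by linarith only [L1]
  obtain ⟨t0, n1, n2, n3, n4, n5, n6, n7, n8⟩ := CarlE_num k10 T0 P.R_le hT h12 h2R R0
  have s0 : 0 < t₁ / (2000 * κ) := T0.trans_le n4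
  have es : 1000 * κ * (t₁ / (2000 * κ)) = t₁ / 2 := by field_simp; norm_num
  generalize t₁ / (2000 * κ) = s at *
  have p1 : 1 ≤ L ^ (1 + θ) := Real.one_le_rpow L1 (by linarith only [θ0])
  have p2 : L ^ (1 + θ) ≤ L ^ 2 := by
    rw [← Real.rpow_two]
    exact Real.rpow_le_rpow_of_exponent_le L1 (by linarith only [θ1])
  have p3 : L ^ (-(1 + θ)) = (L ^ (1 + θ))⁻¹ := Real.rpow_neg L0.le _
  have u1 : t₁ / 2 ≤ t₁ - 2 * T := by linarith only [n3, n4, t0]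
  have u2 : 0 < t₁ - 2 * T := (half_pos t0).trans_le u1
  have u3 : 0 < R - 2 * T := by linarith only [u2, h12, n1]
  have q0 : 0 < 1 / (500 * κ) := one_div_pos.2 (by linarith only [k0])
  have q1 : 1 / (500 * κ) = 5 / κ / 2500 := by field_simp; norm_num
  have q2 : 2 * κ * (1 / (500 * κ)) = 1 / 250 := by field_simp; norm_num
  have l1 : Real.log ((R - 2 * T) / (t₁ - 2 * T)) ≤ 2 * Real.log (R / t₁) := by
    have a1 := CarlE_log u2 (e := 2 * T) (by linarith only [T0])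
    have a2 := Real.log_le_log u3 (show R - 2 * T ≤ R by linarith only [T0])
    have a3 := n8 _ u1
    rw [sub_add_cancel] at a1
    rw [Real.log_div R0.ne' t0.ne'] at n7 ⊢
    rw [Real.log_div u3.ne' u2.ne']
    linarith only [a1, a2, a3, n7, q0, q1]
  have l2 : 0 ≤ Real.log ((R - 2 * T) / (t₁ - 2 * T)) :=
    Real.log_nonneg ((one_le_div u2).2 (by linarith only [h12, n1]))
  have hsδ : T ≤ δ * s := by
    have a1 : 1 / κ ≤ δ := by
      rw [one_div_le k0 δ0]; linarith only [hκ, hκ₀]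
    have a2 : s ^ 2 ≤ s := pow_le_of_le_one s0.le (by linarith only [n2, a1, δ1]) two_ne_zero
    have a3 := mul_le_mul_of_nonneg_right (a2.trans (n2.trans a1)) s0.le
    linarith only [hT, a3]
  have hKL : B.KLH Q (Ck * (2 * 2 ^ (k + 2)) + Cl) (L ^ (1 + θ))⁻¹ s := by
    intro ξ l ω hs hξ hω
    rw [D.R_eq] at hξ
    have l0 : 0 < l := s0.trans_le hs
    have a1 := hK P hA hy L l ξ ω hL hTL (hT.trans (pow_le_pow_left₀ s0.le hs 3))
      (by linarith only [CarlE_cen P D ξ, hξ, T0, l0]) hω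
    have a2 := CarlE_up2 P D (ξ := ξ) (n4.trans hs)
    have a3 := (B.II_mono (Subset.refl (ball ξ (9 * l)))).1
    rw [p3, ← D.Y_eq] at a1
    have a4 : 0 ≤ (L ^ (1 + θ))⁻¹ / l ^ 2 + 1 / l := by positivity
    have a5 := mul_le_mul_of_nonneg_left a2 (mul_nonneg (zero_le_one.trans hCk) a4)
    have a6 := mul_nonneg (mul_nonneg (zero_le_one.trans hCl) a4) a3
    linarith only [a1, a5, a6]
  have hS0 : B.S0H Q (Ck * (2 * 2 ^ (k + 2)) + Cl) s := by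
    intro f M Z hf hM hZ hs h0
    have a1 := (hl B s (R / 10) hE (by rw [D.T_eq]; exact hsδ)
      (by linarith only [n3, h12, n1, t0]) (by rw [D.R_eq]; linarith only [TR, R0]) (by
        rw [D.Y_eq, D.ξ_eq]; exact le_trans hA (by norm_num))).2 f M Z hf hM hZ hs h0
    have a2 := mul_nonneg (mul_nonneg hC₂ ((abs_nonneg _).trans (hM 0)))
      (B.LockA_nonneg (thickening s Z))
    linarith only [a1, a2]
  have η0 : 0 < (L ^ (1 + θ))⁻¹ := inv_pos.2 (by linarith only [p1])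
  have l3 : 0 ≤ Real.log (R / t₁) := by linarith only [l1, l2]
  have key := h3 B Q _ _ s κ (t₁ - 2 * T) (t₂ + 2 * T) hE hKL hS0 η0 (inv_le_one_of_one_le₀ p1) k1
    (by rw [D.R_eq]; linarith only [hR, T0]) s0 (by linarith only [es, u1])
    (by linarith only [h12, T0]) (by rw [D.R_eq]; exact n5) (by rw [D.T_eq]; exact n6) (by
      rw [D.R_eq]
      have a1 : C * κ * (Real.log ((R - 2 * T) / (t₁ - 2 * T)) + 1) ≤
          6 * 2 ^ (k + 2) * C * κ * (Real.log (R / t₁) + 1) := by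
        have b1 := mul_le_mul_of_nonneg_left (show Real.log ((R - 2 * T) / (t₁ - 2 * T)) + 1 ≤
          2 * (Real.log (R / t₁) + 1) by linarith only [l1]) (show 0 ≤ C * κ by positivity)
        have b2 := mul_le_mul_of_nonneg_right (show 2 * C ≤ 6 * 2 ^ (k + 2) * C by
          linarith only [XC, hC]) (show 0 ≤ κ * (Real.log (R / t₁) + 1) by positivity)
        linarith only [b1, b2]
      have a2 := mul_le_mul_of_nonneg_left (a1.trans hLκ) η0.le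
      rw [inv_mul_cancel₀ (by linarith only [p1])] at a2
      linarith only [a2])
  rw [D.R_eq] at key
  have mb : ∀ t, 0 ≤ t → MeasurableSet (B.bl t) := fun t ht => (B.bl_calc hE ht).1.measurableSet
  have C0 : 0 ≤ C₁ := zero_le_one.trans hC₁
  have T2 : 0 ≤ 2 * T := by linarith only [T0]
  have d1 := CarlE_tl C0 u2 T2
  have d2 := CarlE_tl C0 (t0.trans_le h12) T2
  have d3 := CarlE_tl C0 u3 T2
  rw [sub_add_cancel] at d1 d3
  have d4 := n8 _ u1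
  have d5 := n8 t₂ (by linarith only [h12, t0])
  have d6 := n8 (R - 2 * T) (by linarith only [u1, h12, n1])
  have k2 : 0 ≤ 2 * κ := by linarith only [k0]
  refine CarlE_fin hC k0 (by rw [one_div, inv_inv]; exact p2) X1
    (CarlE_up1 P D (mb _ (by linarith only [h12, t0, T0]))) (B.II_mono (Subset.refl _)).1
    (CarlE_down P D u3.le (mb _ u3.le)) (B.II_mono (Subset.refl _)).1
    (CarlE_down P D u2.le (mb _ u2.le)) ?_ ?_ key
  · have := mul_le_mul_of_nonneg_left (show tl C₁ R + tl C₁ (t₂ + 2 * T) ≤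
      tl C₁ (R - 2 * T) + tl C₁ t₂ + 2 * (1 / (500 * κ)) by linarith only [d2, d3, d5, d6]) k2
    linarith only [this, q2]
  · have a1 := mul_le_mul_of_nonneg_left (show tl C₁ t₁ + tl C₁ (t₂ + 2 * T) ≤
      tl C₁ (t₁ - 2 * T) + tl C₁ t₂ + 2 * (1 / (500 * κ)) by linarith only [d1, d2, d4, d5]) k2
    have a2 := pow_le_pow_left₀ l2 l1 2
    have a3 := mul_le_mul_of_nonneg_left a2 (show 0 ≤ C * (L ^ (1 + θ))⁻¹ * κ ^ 2 by positivity)
    have a4 := mul_le_mul_of_nonneg_right (show 4 * C ≤ 6 * 2 ^ (k + 2) * C by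
      linarith only [XC, hC])
      (show 0 ≤ (L ^ (1 + θ))⁻¹ * κ ^ 2 * Real.log (R / t₁) ^ 2 by positivity)
    rw [div_eq_mul_inv _ (L ^ (1 + θ))]
    linarith only [a1, a3, a4, q2]

end Pool.Agent.MP_f6c0e6_an.Gen

end
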