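import Pool.Agent.MP_f6c0e6_an.All.Stat
import Pool.Agent.MP_f6c0e6_an.All.Rect
import Pool.Agent.MP_f6c0e6_an.All.Conv

section

/-! The support of a varifold on a graph. -/

set_option autoImplicit false

open MeasureTheory Filter Topology Set Metric
open scoped ENNReal RealInnerProductSpace

namespace Pool.Agent.MP_f6c0e6_an.Gen

variable {m N : ℕ}

theorem Supp_cpt {f : E N → ℝ} : HasCompactSupport fun w : E N => max (1 - ‖w‖) 0 * f w :=
  HasCompactSupport.intro (isCompact_closedBall 0 1) fun y hy => by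
    rw [mem_closedBall_zero_iff, not_le] at hy
    rw [max_eq_right (by linarith), zero_mul]

theorem Supp_div_zero (fr : Fr m N) {X : E N → E N} {y : E N} (h : X =ᶠ[𝓝 y] 0) :
    fr.div X y = 0 := by
  unfold Fr.div
  rw [h.fderiv_eq]
  simp

theorem Supp_pr_iota (ι : E m →ₗᵢ[ℝ] E N) (ξ : E m) : pr ι (ι ξ) = ξ := by
  refine ext_inner_left ℝ fun v => ?_
  rw [pr, ContinuousLinearMap.adjoint_inner_right]
  exact ι.inner_map_map v ξ

theorem Supp_pr_norm (ι : E m →ₗᵢ[ℝ] E N) (w : E N) : ‖pr ι w‖ ≤ ‖w‖ := by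
  have h1 : ‖pr ι w‖ * ‖pr ι w‖ = ⟪ι (pr ι w), w⟫ := by
    rw [← real_inner_self_eq_norm_mul_norm]
    exact ContinuousLinearMap.adjoint_inner_right ι.toContinuousLinearMap (pr ι w) w
  have h2 := real_inner_le_norm (ι (pr ι w)) w
  rw [ι.norm_map, ← h1] at h2
  rcases (norm_nonneg (pr ι w)).eq_or_lt with h | h
  · rw [← h]; exact norm_nonneg _
  · exact le_of_mul_le_mul_left h2 h

/-- the approximate tangent plane of a measure on a graph is the tangent plane of the graph -/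
theorem Supp_tan {ν : Measure (E N)} [IsFiniteMeasure ν] {p : E N →L[ℝ] E m}
    (hp : ∀ w, ‖p w‖ ≤ ‖w‖) {x₀ : E N} {F : E m → E N} {y : E N} {P : Submodule ℝ (E N)} {κ : ℝ}
    (hκ : 0 < κ) (h : HasTangentPlane m ν y P κ) (hG : ∀ᵐ z ∂ν, z = F (p (z - x₀)))
    (hy : y = F (p (y - x₀))) (hu : DifferentiableAt ℝ F (p (y - x₀))) (v : E m) :
    fderiv ℝ F (p (y - x₀)) v ∈ P := by
  let L : E m →L[ℝ] E N := fderiv ℝ F (p (y - x₀))
  let Λ : E N →L[ℝ] E N := ContinuousLinearMap.id ℝ _ - L.comp p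
  have hΛ : ∀ w, Λ w = w - L (p w) := fun w => rfl
  have c1 : Continuous fun w : E N => max (1 - ‖w‖) 0 * ‖Λ w‖ := by fun_prop
  have c2 : Continuous fun w : E N => max (1 - ‖w‖) 0 * ‖w‖ := by fun_prop
  have t1 := h.2 _ c1 Supp_cpt
  have t2 := h.2 _ c2 Supp_cpt
  obtain ⟨c, hP⟩ := exists_iso P h.1
  rw [hP, integral_plane c] at t1 t2
  generalize hI : ∫ ξ : E m, max (1 - ‖c ξ‖) 0 * ‖Λ (c ξ)‖ = I at t1
  generalize ∫ ξ : E m, max (1 - ‖c ξ‖) 0 * ‖c ξ‖ = J at t2
  have key : ∀ η > (0 : ℝ), κ * I ≤ η * (κ * J) := fun η hη => by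
    obtain ⟨δ, hδ, hb⟩ := Metric.eventually_nhds_iff.1 (hu.hasFDerivAt.isLittleO.def hη)
    refine le_of_tendsto_of_tendsto t1 (t2.const_mul η) ?_
    filter_upwards [Ioo_mem_nhdsGT hδ] with r hr
    rw [mul_left_comm, ← integral_const_mul η]
    refine mul_le_mul_of_nonneg_left (integral_mono_of_nonneg ?_ ?_ ?_)
      (inv_nonneg.2 (pow_nonneg hr.1.le m))
    · exact Eventually.of_forall fun z => mul_nonneg (le_max_right _ _) (norm_nonneg _)
    · refine Integrable.const_mul (Integrable.of_bound (by fun_prop) 1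
        (Eventually.of_forall fun z => ?_)) _
      rw [Real.norm_of_nonneg (by positivity)]
      rcases le_total (1 - ‖r⁻¹ • (z - y)‖) 0 with h3 | h3
      · rw [max_eq_right h3, zero_mul]; exact zero_le_one
      · rw [max_eq_left h3]
        nlinarith [norm_nonneg (r⁻¹ • (z - y))]
    · filter_upwards [hG] with z hz
      rcases le_total (1 - ‖r⁻¹ • (z - y)‖) 0 with h3 | h3
      · simp only [max_eq_right h3, zero_mul, mul_zero, le_refl]
      · rw [mul_left_comm]
        refine mul_le_mul_of_nonneg_left ?_ (le_max_right _ _)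
        have hr' : 0 ≤ r⁻¹ := (inv_pos.2 hr.1).le
        rw [norm_smul, Real.norm_of_nonneg hr', sub_nonneg, inv_mul_le_iff₀ hr.1] at h3
        have h7 : p (z - x₀) - p (y - x₀) = p (z - y) := by
          rw [← map_sub, sub_sub_sub_cancel_right]
        have h4 : ‖p (z - x₀) - p (y - x₀)‖ ≤ ‖z - y‖ := by rw [h7]; exact hp _
        have h5 := hb (y := p (z - x₀)) (by rw [dist_eq_norm]; linarith [hr.2])
        have h6 : Λ (z - y) = F (p (z - x₀)) - F (p (y - x₀)) - L (p (z - x₀) - p (y - x₀)) := by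
          rw [hΛ, h7, ← hz, ← hy]
        rw [map_smul, norm_smul, norm_smul, Real.norm_of_nonneg hr', mul_left_comm, h6]
        refine mul_le_mul_of_nonneg_left (le_trans h5 ?_) hr'
        exact mul_le_mul_of_nonneg_left h4 hη.le
  have hI0 : I ≤ 0 := by
    have h3 : Tendsto (fun η : ℝ => η * (κ * J)) (𝓝[>] 0) (𝓝 (0 * (κ * J))) :=
      (tendsto_id.mono_left nhdsWithin_le_nhds).mul_const _
    have h4 := ge_of_tendsto h3 (mem_of_superset self_mem_nhdsWithin key)
    rw [zero_mul] at h4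
    by_contra h5
    exact absurd h4 (not_le.2 (mul_pos hκ (not_le.1 h5)))
  have hi := c.isometry
  have hle : P ≤ LinearMap.range L.toLinearMap := fun w hw => by
    have hw' : w ∈ range c := hP ▸ hw
    obtain ⟨ξ, rfl⟩ := hw'
    by_contra hc
    have h3 : Λ (c ξ) ≠ 0 := fun e => hc ⟨p (c ξ), (sub_eq_zero.1 e).symm⟩
    have ht : 0 < (‖ξ‖ + 1)⁻¹ := by positivity
    have h4 : c ((‖ξ‖ + 1)⁻¹ • ξ) = (‖ξ‖ + 1)⁻¹ • c ξ := map_smul c _ _
    have h5 := Continuous.integral_pos_of_hasCompactSupport_nonneg_nonzero (μ := volume)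
      (x := (‖ξ‖ + 1)⁻¹ • ξ) (c1.comp hi.continuous)
      (Supp_cpt.comp_isClosedEmbedding hi.isClosedEmbedding)
      (fun ξ => mul_nonneg (le_max_right _ _) (norm_nonneg _)) (by
        refine mul_ne_zero (lt_max_of_lt_left ?_).ne' ?_
        · rw [c.norm_map, norm_smul, Real.norm_of_nonneg ht.le, sub_pos,
            inv_mul_lt_iff₀ (by positivity)]
          linarith
        · rw [h4, map_smul]
          exact norm_ne_zero_iff.2 (smul_ne_zero ht.ne' h3))
    exact absurd (h5.trans_le (hI.le.trans hI0)) (lt_irrefl _)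
  have he := Submodule.eq_of_le_of_finrank_le hle
    ((LinearMap.finrank_range_le _).trans (finrank_euclideanSpace_fin.trans h.1.symm).le)
  rw [he]
  exact ⟨v, rfl⟩

/-- the first variation along a tangent field of the graph -/
theorem Supp_deriv {fr : Fr m N} {ν : Measure (E N)} [IsFiniteMeasure ν] {O : Set (E N)}
    (hs : Stat fr ν O) {p : E N →L[ℝ] E m} (hp : ∀ w, ‖p w‖ ≤ ‖w‖) {x₀ : E N} {F : E m → E N}
    (hπF : ∀ x, p (F x - x₀) = x) {Ω B : Set (E m)} (hΩ : IsOpen Ω)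
    (hu : ContDiffOn ℝ 2 F Ω) (hB : IsCompact B) (hBΩ : B ⊆ Ω) (hBO : ∀ x ∈ B, F x ∈ O)
    (hG : ∀ᵐ z ∂ν, z = F (p (z - x₀)))
    (htan : ∀ᵐ y ∂ν, p (y - x₀) ∈ Ω → ∀ v, fderiv ℝ F (p (y - x₀)) v ∈
      Submodule.span ℝ (range fun i => fr.s i y)) (v : E m) :
    ∃ C, ∀ ψ : E m → ℝ, ContDiff ℝ 1 ψ → tsupport ψ ⊆ B → (∀ x, 0 ≤ ψ x) →
      |∫ y, fderiv ℝ ψ (p (y - x₀)) v ∂ν| ≤ C * ∫ y, ψ (p (y - x₀)) ∂ν := by
  have hπc : ContDiff ℝ 1 fun y : E N => p (y - x₀) := by fun_prop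
  have hπd : ∀ y : E N, HasFDerivAt (fun y : E N => p (y - x₀)) p y := fun y => by
    have h1 := p.hasFDerivAt.comp y ((hasFDerivAt_id y).sub_const x₀)
    rw [ContinuousLinearMap.comp_id] at h1
    exact h1
  have hg : ∀ x ∈ Ω, ContDiffAt ℝ 1 (fun x => fderiv ℝ F x v) x := fun x hx =>
    ((hu.contDiffAt (hΩ.mem_nhds hx)).fderiv_right (m := 1) le_rfl).clm_apply contDiffAt_const
  obtain ⟨C, hC⟩ := hB.exists_bound_of_continuousOn (f := fderiv ℝ fun x => fderiv ℝ F x v)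
    fun x hx => ((hg x (hBΩ hx)).continuousAt_fderiv one_ne_zero).continuousWithinAt
  refine ⟨m * C, fun ψ hψ hsub hpos => ?_⟩
  have hK : IsCompact (F '' B) := hB.image_of_continuousOn (hu.continuousOn.mono hBΩ)
  have hX : ∀ y, p (y - x₀) ∈ Ω → ContDiffAt ℝ 1 (fun z => fderiv ℝ F (p (z - x₀)) v) y :=
    fun y hy => (hg _ hy).comp y (f := fun y : E N => p (y - x₀)) hπc.contDiffAt
  have hf : ContDiff ℝ 1 fun z => ψ (p (z - x₀)) := hψ.comp hπc
  have hz : ∀ y, p (y - x₀) ∉ tsupport ψ →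
      (fun z => ψ (p (z - x₀)) • fderiv ℝ F (p (z - x₀)) v) =ᶠ[𝓝 y] 0 := fun y hy => by
    filter_upwards [hπc.continuous.continuousAt.eventually
      (notMem_tsupport_iff_eventuallyEq.1 hy)] with z hz
    rw [hz, Pi.zero_apply, zero_smul, Pi.zero_apply]
  have h1 : ∀ y ∈ F '' B,
      ContDiffAt ℝ 1 (fun z => ψ (p (z - x₀)) • fderiv ℝ F (p (z - x₀)) v) y := by
    rintro _ ⟨x, hx, rfl⟩
    exact hf.contDiffAt.smul (hX _ (by rw [hπF]; exact hBΩ hx))
  have h2 : ∀ᵐ y ∂ν, y ∉ F '' B →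
      (fun z => ψ (p (z - x₀)) • fderiv ℝ F (p (z - x₀)) v) =ᶠ[𝓝 y] 0 :=
    hG.mono fun y hy hy' => hz y fun h => hy' ⟨p (y - x₀), hsub h, hy.symm⟩
  have h3 := hs _ _ hK (by rintro _ ⟨x, hx, rfl⟩; exact hBO x hx) h1 h2
  have h4 := fr.integrable_div hK h1 h2
  have hc : HasCompactSupport ψ := hB.of_isClosed_subset (isClosed_tsupport _) hsub
  have i1 : Integrable (fun y => ψ (p (y - x₀))) ν := by
    obtain ⟨A, hA⟩ := hψ.continuous.bounded_above_of_compact_support hc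
    exact Integrable.of_bound hf.continuous.aestronglyMeasurable A
      (Eventually.of_forall fun y => hA _)
  have i2 : Integrable (fun y => fderiv ℝ ψ (p (y - x₀)) v) ν := by
    have hd : Continuous fun x => fderiv ℝ ψ x v :=
      (hψ.continuous_fderiv one_ne_zero).clm_apply continuous_const
    obtain ⟨A, hA⟩ := hd.bounded_above_of_compact_support (hc.fderiv_apply ℝ v)
    exact Integrable.of_bound (hd.comp hπc.continuous).aestronglyMeasurable A
      (Eventually.of_forall fun y => hA _)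
  rw [← sub_zero (∫ y, fderiv ℝ ψ (p (y - x₀)) v ∂ν), ← h3, ← integral_sub i2 h4,
    ← integral_const_mul]
  rw [← Real.norm_eq_abs]
  refine norm_integral_le_of_norm_le (i1.const_mul _) ?_
  filter_upwards [htan] with y hy
  by_cases hyB : p (y - x₀) ∈ tsupport ψ
  · have hyΩ := hBΩ (hsub hyB)
    rw [fr.div_smul (hf.differentiable one_ne_zero y) ((hX y hyΩ).differentiableAt one_ne_zero)]
    have e1 : ∑ i, ⟪fr.s i y, fderiv ℝ F (p (y - x₀)) v⟫ • fr.s i y =
        fderiv ℝ F (p (y - x₀)) v := by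
      obtain ⟨a, ha⟩ := (Submodule.mem_span_range_iff_exists_fun ℝ).1 (hy hyΩ v)
      rw [← ha]
      exact Finset.sum_congr rfl fun i _ => by rw [(fr.orth y).inner_right_fintype]
    have e2 : fderiv ℝ (fun z => ψ (p (z - x₀))) y = (fderiv ℝ ψ (p (y - x₀))).comp p :=
      ((hψ.differentiable one_ne_zero _).hasFDerivAt.comp y (hπd y)).fderiv
    have e3 : p (fderiv ℝ F (p (y - x₀)) v) = v := by
      have d1 : HasFDerivAt F (fderiv ℝ F (p (y - x₀))) (p (y - x₀)) :=
        ((hu.contDiffAt (hΩ.mem_nhds hyΩ)).differentiableAt (by simp)).hasFDerivAt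
      have d2 := (hπd _).comp _ d1
      have d3 : ((fun y : E N => p (y - x₀)) ∘ F) = id := funext hπF
      rw [d3] at d2
      exact congrArg (fun T : E m →L[ℝ] E m => T v) (d2.unique (hasFDerivAt_id _))
    have e4 : ∑ i, fderiv ℝ (fun z => ψ (p (z - x₀))) y (fr.s i y) *
        ⟪fr.s i y, fderiv ℝ F (p (y - x₀)) v⟫ = fderiv ℝ ψ (p (y - x₀)) v := by
      have := congrArg (fderiv ℝ (fun z => ψ (p (z - x₀))) y) e1
      rw [map_sum] at this
      simp only [map_smul, smul_eq_mul] at this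
      simp only [mul_comm (fderiv ℝ _ y _)]
      rw [this, e2, ContinuousLinearMap.comp_apply, e3]
    have e5 : fderiv ℝ (fun z => fderiv ℝ F (p (z - x₀)) v) y =
        (fderiv ℝ (fun x => fderiv ℝ F x v) (p (y - x₀))).comp p :=
      (HasFDerivAt.comp (g := fun x => fderiv ℝ F x v) (f := fun y : E N => p (y - x₀)) y
        ((hg _ hyΩ).differentiableAt one_ne_zero).hasFDerivAt (hπd y)).fderiv
    have e6 : ‖fr.div (fun z => fderiv ℝ F (p (z - x₀)) v) y‖ ≤ m * C := by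
      unfold Fr.div
      refine (norm_sum_le_of_le _ (n := fun _ => C) fun i _ => ?_).trans (by simp)
      refine (norm_inner_le_norm _ _).trans ?_
      rw [fr.norm_s, one_mul, e5, ContinuousLinearMap.comp_apply]
      refine (ContinuousLinearMap.le_opNorm _ _).trans ?_
      have := hp (fr.s i y)
      rw [fr.norm_s] at this
      exact (mul_le_of_le_one_right (norm_nonneg _) this).trans (hC _ (hsub hyB))
    rw [e4, sub_add_cancel_right, norm_neg, norm_mul, Real.norm_of_nonneg (hpos _), mul_comm]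
    exact mul_le_mul_of_nonneg_right e6 (hpos _)
  · rw [Supp_div_zero fr (hz y hyB), fderiv_of_notMem_tsupport ℝ hyB,
      image_eq_zero_of_notMem_tsupport hyB]
    simp

/-- Gronwall's inequality for the mollified mass along a segment -/
theorem Supp_gron {ν : Measure (E N)} [IsFiniteMeasure ν] {π : E N → E m} (hπ : Continuous π)
    {p z : E m} {δ ε C : ℝ} (hε : 0 < ε) (hεδ : ε ≤ δ) (hz : z ∈ ball p δ)
    (h : ∀ ψ : E m → ℝ, ContDiff ℝ 1 ψ → tsupport ψ ⊆ closedBall p (2 * δ) → (∀ x, 0 ≤ ψ x) →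
      |∫ y, fderiv ℝ ψ (π y) (p - z) ∂ν| ≤ C * ∫ y, ψ (π y) ∂ν)
    (h0 : ν (π ⁻¹' ball z ε) = 0) : ν (π ⁻¹' ball p ε) = 0 := by
  let b : ContDiffBump (0 : E m) := ⟨ε / 2, ε, half_pos hε, half_lt_self hε⟩
  have hb : ContDiff ℝ 1 b := b.contDiff
  have hd : Continuous fun x => fderiv ℝ b x (p - z) :=
    (hb.continuous_fderiv one_ne_zero).clm_apply continuous_const
  obtain ⟨A, hA⟩ := hd.bounded_above_of_compact_support (b.hasCompactSupport.fderiv_apply ℝ _)
  have i1 : ∀ a : E m, Integrable (fun y => b (π y - a)) ν := fun a =>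
    Integrable.of_bound (b.continuous.comp (hπ.sub continuous_const)).aestronglyMeasurable
      1 (Eventually.of_forall fun y => by rw [Real.norm_of_nonneg b.nonneg]; exact b.le_one)
  have hder : ∀ t : ℝ, HasDerivAt (fun t : ℝ => ∫ y, b (π y - (z + t • (p - z))) ∂ν)
      (∫ y, -fderiv ℝ b (π y - (z + t • (p - z))) (p - z) ∂ν) t := fun t => by
    refine (hasDerivAt_integral_of_dominated_loc_of_deriv_le (s := univ) (bound := fun _ => A)
      (F' := fun t y => -fderiv ℝ b (π y - (z + t • (p - z))) (p - z)) univ_mem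
      (Eventually.of_forall fun t => (i1 _).aestronglyMeasurable) (i1 _)
      (Continuous.aestronglyMeasurable (by fun_prop))
      (Eventually.of_forall fun y t _ => by rw [norm_neg]; exact hA _) (integrable_const A)
      (Eventually.of_forall fun y t _ => ?_)).2
    have h1 : HasDerivAt (fun t : ℝ => π y - (z + t • (p - z))) (-(p - z)) t := by
      simpa using (((hasDerivAt_id t).smul_const (p - z)).const_add z).const_sub (π y)
    have h2 := (hb.differentiable one_ne_zero _).hasFDerivAt.comp_hasDerivAt t h1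
    rw [map_neg] at h2
    exact h2
  have h1 := eq_zero_of_abs_deriv_le_mul_abs_self_of_eq_zero_right (a := 0) (b := 1) (K := C)
    (fun t _ => (hder t).continuousAt.continuousWithinAt) (fun t _ => (hder t).hasDerivWithinAt)
    (integral_eq_zero_of_ae ?_) (fun t ht => ?_) 1 ⟨zero_le_one, le_rfl⟩
  · simp only [one_smul, add_sub_cancel] at h1
    rw [integral_eq_zero_iff_of_nonneg (fun y => b.nonneg) (i1 p)] at h1
    refine measure_mono_null ?_ (ae_iff.1 h1)
    intro y hy e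
    exact (b.pos_of_mem_ball (by rw [mem_ball_zero_iff, ← mem_ball_iff_norm]; exact hy)).ne' e
  · filter_upwards [measure_eq_zero_iff_ae_notMem.1 h0] with y hy
    rw [zero_smul, add_zero]
    exact b.zero_of_le_dist (by rw [dist_zero_right, ← dist_eq_norm]; exact not_lt.1 hy)
  · have h2 := h (fun x => b (x - (z + t • (p - z)))) (hb.comp (contDiff_id.sub contDiff_const))
      (closure_minimal (fun x hx => ?_) isClosed_closedBall) fun x => b.nonneg
    · simp only [fderiv_comp_sub] at h2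
      rw [integral_neg, norm_neg, Real.norm_of_nonneg (integral_nonneg fun y => b.nonneg)]
      exact h2
    · have h3 : ‖x - (z + t • (p - z))‖ < ε := by
        by_contra hc
        exact hx (b.zero_of_le_dist (by rw [dist_zero_right]; exact not_lt.1 hc))
      have h4 : x - p = x - (z + t • (p - z)) + (1 - t) • (z - p) := by module
      rw [mem_ball_iff_norm] at hz
      rw [mem_closedBall_iff_norm, h4]
      refine (norm_add_le _ _).trans ?_
      rw [norm_smul, Real.norm_of_nonneg (by linarith [ht.2])]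
      nlinarith [ht.1, norm_nonneg (z - p)]

/-- the statement for an abstract parametrisation `F` with the left inverse `p (y - x₀)` -/
theorem Supp_main {fr : Fr m N} {μ : Measure (E N)} [IsFiniteMeasure μ] {x₀ : E N} {ρ : ℝ}
    (hρ : 0 < ρ) {p : E N →L[ℝ] E m} (hp : ∀ w, ‖p w‖ ≤ ‖w‖) {F : E m → E N}
    (hπF : ∀ x, p (F x - x₀) = x) (hstat : Stat fr μ (ball x₀ ρ))
    (htan : ∀ᵐ y ∂μ, ∃ κ : ℝ, 0 < κ ∧
      HasTangentPlane m μ y (Submodule.span ℝ (range fun i => fr.s i y)) κ)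
    (hu : ContDiffOn ℝ 2 F (ball 0 ρ)) (h0 : F 0 = x₀) (hx : x₀ ∈ μ.support)
    (hae : ∀ᵐ y ∂μ, y ∈ ball x₀ ρ → y = F (p (y - x₀))) :
    ∃ s, 0 < s ∧ s ≤ ρ ∧ (∀ ξ ∈ ball (0 : E m) s, F ξ ∈ μ.support) ∧
      ∀ y ∈ μ.support ∩ ball x₀ s, y = F (p (y - x₀)) := by
  have hπc : Continuous fun y : E N => p (y - x₀) := by fun_prop
  have hΩ : IsOpen (ball (0 : E m) ρ) := isOpen_ball
  have hst : Stat fr (μ.restrict (ball x₀ ρ)) (ball x₀ ρ) := hstat.restrict isOpen_ball subset_rfl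
  have hF := hu.continuousOn
  have hπb : ∀ t, ∀ y ∈ ball x₀ t, p (y - x₀) ∈ ball (0 : E m) t := fun t y hy => by
    rw [mem_ball_iff_norm] at hy
    rw [mem_ball_zero_iff]
    exact (hp _).trans_lt hy
  have hG : ∀ᵐ z ∂μ.restrict (ball x₀ ρ), z = F (p (z - x₀)) := by
    filter_upwards [ae_restrict_of_ae hae, ae_restrict_mem measurableSet_ball] with z h2 h3
    exact h2 h3
  have hT : ∀ᵐ y ∂μ.restrict (ball x₀ ρ), p (y - x₀) ∈ ball (0 : E m) ρ → ∀ v,
      fderiv ℝ F (p (y - x₀)) v ∈ Submodule.span ℝ (range fun i => fr.s i y) := by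
    filter_upwards [hG, ae_restrict_of_ae htan, ae_restrict_mem measurableSet_ball]
      with y h2 h3 h5 h6 v
    obtain ⟨κ, hκ, h3⟩ := h3
    exact Supp_tan hp hκ (tangent_restrict h3 isOpen_ball h5) hG h2
      ((hu.contDiffAt (hΩ.mem_nhds h6)).differentiableAt (by simp)) v
  obtain ⟨δ₂, hδ₂, hB⟩ := nhds_basis_closedBall.mem_iff.1
    (inter_mem (hΩ.mem_nhds (mem_ball_self hρ))
    ((hF.continuousAt (hΩ.mem_nhds (mem_ball_self hρ))).preimage_mem_nhds
      (by rw [h0]; exact ball_mem_nhds x₀ hρ : ball x₀ ρ ∈ 𝓝 (F 0))))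
  obtain ⟨δ, hδ, rfl⟩ : ∃ δ > (0 : ℝ), δ₂ = 2 * δ := ⟨δ₂ / 2, half_pos hδ₂, by ring⟩
  have hres : ∀ y ∈ ball x₀ ρ, y ∈ μ.support ↔
      ∀ A ∈ 𝓝 y, μ.restrict (ball x₀ ρ) A ≠ 0 := fun y hy => by
    rw [Measure.mem_support_iff_forall]
    refine ⟨fun h A hA e => ?_, fun h A hA => pos_iff_ne_zero.2 fun e => ?_⟩
    · rw [Measure.restrict_apply' measurableSet_ball] at e
      exact (h _ (inter_mem hA (isOpen_ball.mem_nhds hy))).ne' e
    · exact h A hA (le_antisymm ((Measure.restrict_le_self A).trans e.le) bot_le)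
  refine ⟨min δ ρ, lt_min hδ hρ, min_le_right _ _, fun z hz => ?_, fun y hy => ?_⟩
  · have hzb : z ∈ ball (0 : E m) δ := ball_subset_ball (min_le_left _ _) hz
    have hzB := hB (ball_subset_closedBall (ball_subset_ball (by linarith) hzb))
    rw [hres _ hzB.2]
    intro A hA e
    obtain ⟨ε, hε, h2⟩ := Metric.mem_nhds_iff.1
      ((hF.continuousAt (hΩ.mem_nhds hzB.1)).preimage_mem_nhds hA)
    obtain ⟨C, hC⟩ := Supp_deriv hst hp hπF hΩ hu (isCompact_closedBall 0 (2 * δ))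
      (fun x hx => (hB hx).1) (fun x hx => (hB hx).2) hG hT (0 - z)
    have h3 := Supp_gron hπc (lt_min hε hδ) (min_le_right _ _) hzb hC (by
      refine measure_mono_null ?_ (measure_union_null e (ae_iff.1 hG))
      intro w hw
      by_contra hc
      rw [mem_union, not_or, mem_ofPred_eq, not_not] at hc
      exact hc.1 (hc.2 ▸ h2 (ball_subset_ball (min_le_left _ _) hw)))
    refine (hres x₀ (mem_ball_self hρ)).1 hx _ ?_ h3
    refine hπc.continuousAt.preimage_mem_nhds ?_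
    rw [sub_self, map_zero]
    exact ball_mem_nhds 0 (lt_min hε hδ)
  · have hyb : y ∈ ball x₀ ρ := ball_subset_ball (min_le_right _ _) hy.2
    have h := (hres y hyb).1 hy.1
    by_contra hc
    have h2 : ContinuousAt (fun z => z - F (p (z - x₀))) y :=
      continuousAt_id.sub ((hF.continuousAt (hΩ.mem_nhds (hπb ρ y hyb))).comp
        (f := fun y : E N => p (y - x₀)) hπc.continuousAt)
    refine h _ (h2.eventually_ne fun e => hc (sub_eq_zero.1 e)) ?_
    refine measure_mono_null ?_ (ae_iff.1 hG)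
    exact fun z hz e => hz (sub_eq_zero.2 e)

/-- Port of `Supp.lean`: the approximate tangent plane of a measure on a graph is the tangent plane
of the graph; stationarity against `ψ (pr y) • (ι v + D W v)` bounds the derivative of the
projected measure by the measure; Gronwall along segments. -/
theorem supp_full {fr : Fr m N} {μ : Measure (E N)} [IsFiniteMeasure μ] {x₀ : E N} {ρ : ℝ}
    (hρ : 0 < ρ) (ι : E m →ₗᵢ[ℝ] E N) {W : E m → E N} (hstat : Stat fr μ (ball x₀ ρ))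
    (htan : ∀ᵐ y ∂μ, ∃ κ : ℝ, 0 < κ ∧
      HasTangentPlane m μ y (Submodule.span ℝ (range fun i => fr.s i y)) κ)
    (hW : ContDiffOn ℝ 2 W (ball 0 ρ)) (hv : ∀ ξ, pr ι (W ξ) = 0) (h0 : W 0 = 0)
    (hx : x₀ ∈ μ.support)
    (hae : ∀ᵐ y ∂μ, y ∈ ball x₀ ρ → vt ι (y - x₀) = W (pr ι (y - x₀))) :
    ∃ s, 0 < s ∧ s ≤ ρ ∧ (∀ ξ ∈ ball (0 : E m) s, x₀ + ι ξ + W ξ ∈ μ.support) ∧
      ∀ y ∈ μ.support ∩ ball x₀ s, vt ι (y - x₀) = W (pr ι (y - x₀)) := by
  have hiff : ∀ y, y = x₀ + ι (pr ι (y - x₀)) + W (pr ι (y - x₀)) ↔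
      vt ι (y - x₀) = W (pr ι (y - x₀)) := fun y => by
    rw [vt, sub_sub, sub_eq_iff_eq_add']
  obtain ⟨s, hs, hsρ, h1, h2⟩ := Supp_main (F := fun ξ => x₀ + ι ξ + W ξ) hρ (Supp_pr_norm ι)
    (fun ξ => by rw [add_assoc, add_sub_cancel_left, map_add, Supp_pr_iota, hv, add_zero])
    hstat htan ((contDiffOn_const.add ι.toContinuousLinearMap.contDiff.contDiffOn).add hW)
    (by simp [h0]) hx (hae.mono fun y hy hb => (hiff y).2 (hy hb))
  exact ⟨s, hs, hsρ, h1, fun y hy => (hiff y).1 (h2 y hy)⟩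

end Pool.Agent.MP_f6c0e6_an.Gen

end

section

/-! The product with a line: coordinates. -/

set_option autoImplicit false

open MeasureTheory Filter Topology Set Metric
open scoped ENNReal RealInnerProductSpace

namespace Pool.Agent.MP_f6c0e6_an.Gen

variable {m N : ℕ}

/-- forget the first coordinate -/
noncomputable def Prod_dn (N : ℕ) : E (N + 1) →L[ℝ] E N :=
  LinearMap.toContinuousLinearMap
    { toFun := fun z => WithLp.toLp 2 fun i => z i.succ
      map_add' := fun _ _ => rfl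
      map_smul' := fun _ _ => rfl }

/-- the identification of the product with a line -/
noncomputable def Prod_j (N : ℕ) : (E N × ℝ) ≃L[ℝ] E (N + 1) :=
  LinearEquiv.toContinuousLinearEquiv
    { toFun := fun p => WithLp.toLp 2 (Fin.cons p.2 p.1 : Fin (N + 1) → ℝ)
      map_add' := fun p q => by
        ext i
        refine Fin.cases ?_ (fun i => ?_) i <;> simp
      map_smul' := fun c p => by
        ext i
        refine Fin.cases ?_ (fun i => ?_) i <;> simp
      invFun := fun z => (Prod_dn N z, z 0)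
      left_inv := fun p => rfl
      right_inv := fun z => by
        ext i
        refine Fin.cases ?_ (fun i => ?_) i <;> rfl }

@[simp] theorem Prod_j_zero (p : E N × ℝ) : Prod_j N p 0 = p.2 := rfl

@[simp] theorem Prod_j_succ (p : E N × ℝ) (i : Fin N) : Prod_j N p i.succ = p.1 i := rfl

@[simp] theorem Prod_dn_apply (z : E (N + 1)) (i : Fin N) : Prod_dn N z i = z i.succ := rfl

@[simp] theorem Prod_dn_j (p : E N × ℝ) : Prod_dn N (Prod_j N p) = p.1 := rfl

theorem Prod_j_dn (z : E (N + 1)) : Prod_j N (Prod_dn N z, z 0) = z :=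
  (Prod_j N).apply_symm_apply z

theorem Prod_symm (z : E (N + 1)) : (Prod_j N).symm z = (Prod_dn N z, z 0) := rfl

theorem Prod_inner (p q : E N × ℝ) : ⟪Prod_j N p, Prod_j N q⟫ = ⟪p.1, q.1⟫ + p.2 * q.2 := by
  simp only [PiLp.inner_apply, Fin.sum_univ_succ, Prod_j_zero, Prod_j_succ]
  simp [add_comm, mul_comm]

theorem Prod_norm_sq (p : E N × ℝ) : ‖Prod_j N p‖ ^ 2 = ‖p.1‖ ^ 2 + p.2 ^ 2 := by
  rw [← real_inner_self_eq_norm_sq, Prod_inner, real_inner_self_eq_norm_sq, sq p.2]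

theorem Prod_fst_le (p : E N × ℝ) : ‖p.1‖ ≤ ‖Prod_j N p‖ :=
  abs_le_of_sq_le_sq' (by rw [Prod_norm_sq]; nlinarith [sq_nonneg p.2]) (norm_nonneg _) |>.2

theorem Prod_snd_le (p : E N × ℝ) : |p.2| ≤ ‖Prod_j N p‖ :=
  abs_le_of_sq_le_sq (by rw [Prod_norm_sq]; nlinarith [sq_nonneg ‖p.1‖]) (norm_nonneg _)

theorem Prod_le_add (p : E N × ℝ) : ‖Prod_j N p‖ ≤ ‖p.1‖ + |p.2| := by
  refine (abs_le_of_sq_le_sq' ?_ (by positivity)).2
  rw [Prod_norm_sq, ← sq_abs p.2]
  nlinarith [mul_nonneg (norm_nonneg p.1) (abs_nonneg p.2)]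

theorem Prod_dn_le (z : E (N + 1)) : ‖Prod_dn N z‖ ≤ ‖z‖ := by
  have := Prod_fst_le (Prod_dn N z, z 0)
  rwa [Prod_j_dn] at this

theorem Prod_sub (p q : E N × ℝ) : Prod_j N p - Prod_j N q = Prod_j N (p.1 - q.1, p.2 - q.2) := by
  rw [← map_sub]
  rfl

/-- the inclusion of the hyperplane -/
noncomputable def Prod_up (N : ℕ) : E N →ₗᵢ[ℝ] E (N + 1) where
  toFun y := Prod_j N (y, 0)
  map_add' a b := by
    rw [← map_add]
    simp
  map_smul' c a := by
    rw [← map_smul]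
    simp
  norm_map' y := by
    refine (sq_eq_sq₀ (norm_nonneg _) (norm_nonneg _)).1 ?_
    have := Prod_norm_sq (y, (0 : ℝ))
    simpa using this

theorem Prod_up_apply (y : E N) : Prod_up N y = Prod_j N (y, 0) := rfl

@[simp] theorem Prod_dn_up (y : E N) : Prod_dn N (Prod_up N y) = y := rfl

theorem Prod_ev_zero : (ev 0 : E (N + 1)) = Prod_j N (0, 1) := by
  ext i
  refine Fin.cases ?_ (fun i => ?_) i <;> simp [ev]

theorem Prod_ev_succ (i : Fin N) : (ev i.succ : E (N + 1)) = Prod_up N (ev i) := by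
  ext k
  refine Fin.cases ?_ (fun k => ?_) k
  · simp [ev, Prod_up_apply, (Fin.succ_ne_zero i).symm]
  · simp [ev, Prod_up_apply]

theorem Prod_j_eq (y : E N) (t : ℝ) : Prod_j N (y, t) = Prod_up N y + t • ev 0 := by
  rw [Prod_ev_zero, Prod_up_apply, ← map_smul, ← map_add]
  simp

theorem Prod_inner_up (y : E N) (z : E (N + 1)) : ⟪Prod_up N y, z⟫ = ⟪y, Prod_dn N z⟫ := by
  conv_lhs => rw [← Prod_j_dn z]
  rw [Prod_up_apply, Prod_inner]
  simp

theorem Prod_measurable : MeasurableEmbedding (Prod_j N) :=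
  (Prod_j N).toHomeomorph.measurableEmbedding

theorem Prod_volume : MeasurePreserving (Prod_j N) (volume.prod volume) volume := by
  let e : WithLp 2 (E N × ℝ) ≃ₗᵢ[ℝ] E (N + 1) :=
    { toLinearEquiv := (WithLp.linearEquiv 2 ℝ (E N × ℝ)).trans (Prod_j N).toLinearEquiv
      norm_map' := fun p => by
        refine (sq_eq_sq₀ (norm_nonneg _) (norm_nonneg _)).1 ?_
        have := Prod_norm_sq (WithLp.ofLp p)
        rw [WithLp.prod_norm_sq_eq_of_L2]
        simpa using this }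
  exact e.measurePreserving.comp (WithLp.volume_preserving_toLp (E N) ℝ)

/-- the product of an isometry with the identity -/
noncomputable def Prod_iso (ι : E m →ₗᵢ[ℝ] E N) : E (m + 1) →ₗᵢ[ℝ] E (N + 1) where
  toFun ξ := Prod_j N (ι (Prod_dn m ξ), ξ 0)
  map_add' a b := by
    rw [← map_add]
    simp
  map_smul' c a := by
    rw [← map_smul]
    simp
  norm_map' ξ := by
    refine (sq_eq_sq₀ (norm_nonneg _) (norm_nonneg _)).1 ?_
    have h1 := Prod_norm_sq (ι (Prod_dn m ξ), ξ 0)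
    have h2 := Prod_norm_sq (Prod_dn m ξ, ξ 0)
    rw [Prod_j_dn] at h2
    simp only [LinearIsometry.norm_map] at h1
    exact h1.trans h2.symm

theorem Prod_iso_j (ι : E m →ₗᵢ[ℝ] E N) (p : E m × ℝ) :
    Prod_iso ι (Prod_j m p) = Prod_j N (ι p.1, p.2) := rfl

theorem Prod_inner_pr (ι : E m →ₗᵢ[ℝ] E N) (y : E N) (ξ : E m) : ⟪pr ι y, ξ⟫ = ⟪y, ι ξ⟫ :=
  ContinuousLinearMap.adjoint_inner_left _ _ _

theorem Prod_pr_iota (ι : E m →ₗᵢ[ℝ] E N) (ξ : E m) : pr ι (ι ξ) = ξ :=
  ext_inner_right ℝ fun v => by rw [Prod_inner_pr, ι.inner_map_map]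

theorem Prod_pr_le (ι : E m →ₗᵢ[ℝ] E N) (y : E N) : ‖pr ι y‖ ≤ ‖y‖ := by
  have h1 := Prod_inner_pr ι y (pr ι y)
  have h2 := real_inner_le_norm y (ι (pr ι y))
  rw [real_inner_self_eq_norm_sq] at h1
  rw [ι.norm_map] at h2
  by_contra hc
  have h3 := not_le.1 hc
  nlinarith [norm_nonneg y]

theorem Prod_pr (ι : E m →ₗᵢ[ℝ] E N) (p : E N × ℝ) :
    pr (Prod_iso ι) (Prod_j N p) = Prod_j m (pr ι p.1, p.2) := by
  refine ext_inner_right ℝ fun v => ?_
  obtain ⟨q, rfl⟩ := (Prod_j m).surjective v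
  rw [Prod_inner_pr, Prod_iso_j, Prod_inner, Prod_inner, Prod_inner_pr]

theorem Prod_vt (ι : E m →ₗᵢ[ℝ] E N) (p : E N × ℝ) :
    vt (Prod_iso ι) (Prod_j N p) = Prod_up N (vt ι p.1) := by
  rw [vt, Prod_pr, Prod_iso_j, Prod_sub, Prod_up_apply, vt]
  simp

/-- the product of a plane with the line -/
noncomputable def Prod_pl (P : Submodule ℝ (E N)) : Submodule ℝ (E (N + 1)) :=
  P.comap (Prod_dn N : E (N + 1) →ₗ[ℝ] E N)

theorem Prod_pl_range {P : Submodule ℝ (E N)} {ι : E m →ₗᵢ[ℝ] E N} (h : (P : Set (E N)) = range ι) :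
    (Prod_pl P : Set (E (N + 1))) = range (Prod_iso ι) := by
  ext z
  obtain ⟨p, rfl⟩ := (Prod_j N).surjective z
  have e : Prod_j N p ∈ (Prod_pl P : Set (E (N + 1))) ↔ p.1 ∈ (P : Set (E N)) := Iff.rfl
  rw [e, h]
  constructor
  · rintro ⟨ξ, hξ⟩
    exact ⟨Prod_j m (ξ, p.2), by rw [Prod_iso_j, hξ]⟩
  · rintro ⟨ξ, hξ⟩
    exact ⟨Prod_dn m ξ, congrArg (Prod_dn N) hξ⟩

theorem Prod_finrank {P : Submodule ℝ (E N)} {ι : E m →ₗᵢ[ℝ] E N} (h : (P : Set (E N)) = range ι) :
    Module.finrank ℝ P = m := by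
  have e : P = LinearMap.range ι.toLinearMap := SetLike.coe_injective h
  rw [e, LinearMap.finrank_range_of_inj ι.injective]
  simp

/-- the frames of the product -/
noncomputable def Prod_fr (fr : Fr m N) : Fr (m + 1) (N + 1) where
  s := Fin.cons (fun _ => ev 0) fun i z => Prod_up N (fr.s i (Prod_dn N z))
  meas := fun i => by
    refine Fin.cases ?_ (fun i => ?_) i
    · exact measurable_const
    · exact (Prod_up N).continuous.measurable.comp
        ((fr.meas i).comp (Prod_dn N).continuous.measurable)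
  orth := fun z => by
    rw [orthonormal_iff_ite]
    intro i k
    have h := orthonormal_iff_ite.1 (fr.orth (Prod_dn N z))
    refine Fin.cases ?_ (fun i => ?_) i <;> refine Fin.cases ?_ (fun k => ?_) k
    · simp only [Fin.cons_zero, Prod_ev_zero, Prod_inner]
      simp
    · simp [Prod_ev_zero, Prod_up_apply, Prod_inner, (Fin.succ_ne_zero k).symm]
    · simp [Prod_ev_zero, Prod_up_apply, Prod_inner]
    · simp only [Fin.cons_succ, LinearIsometry.inner_map_map, h, Fin.succ_inj]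

theorem Prod_fr_zero (fr : Fr m N) (z : E (N + 1)) : (Prod_fr fr).s 0 z = ev 0 := rfl

theorem Prod_fr_succ (fr : Fr m N) (i : Fin m) (z : E (N + 1)) :
    (Prod_fr fr).s i.succ z = Prod_up N (fr.s i (Prod_dn N z)) := rfl

theorem Prod_span (fr : Fr m N) (z : E (N + 1)) :
    Submodule.span ℝ (range fun i => (Prod_fr fr).s i z) =
      Prod_pl (Submodule.span ℝ (range fun i => fr.s i (Prod_dn N z))) := by
  refine le_antisymm (Submodule.span_le.2 ?_) fun w hw => ?_
  · rintro _ ⟨i, rfl⟩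
    refine Fin.cases ?_ (fun i => ?_) i
    · change Prod_dn N (ev 0) ∈ Submodule.span ℝ (range fun i => fr.s i (Prod_dn N z))
      rw [Prod_ev_zero, Prod_dn_j]
      exact Submodule.zero_mem _
    · exact Submodule.subset_span ⟨i, rfl⟩
  · have h1 : Prod_dn N w ∈ Submodule.span ℝ (range fun i => fr.s i (Prod_dn N z)) := hw
    obtain ⟨c, hc⟩ := (Submodule.mem_span_range_iff_exists_fun ℝ).1 h1
    rw [← Prod_j_dn w, Prod_j_eq, ← hc, map_sum]
    refine Submodule.add_mem _ (Submodule.sum_mem _ fun i _ => ?_)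
      (Submodule.smul_mem _ _ (Submodule.subset_span ⟨0, rfl⟩))
    rw [map_smul]
    exact Submodule.smul_mem _ _ (Submodule.subset_span ⟨i.succ, rfl⟩)

/-- the measure of the product -/
noncomputable def Prod_mu (μ : Measure (E N)) (a : ℝ) : Measure (E (N + 1)) :=
  (μ.prod (volume.restrict (Ioo (-a) a))).map (Prod_j N)

instance Prod_fin (μ : Measure (E N)) [IsFiniteMeasure μ] (a : ℝ) :
    IsFiniteMeasure (Prod_mu μ a) := by
  have : IsFiniteMeasure (volume.restrict (Ioo (-a) a) : Measure ℝ) :=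
    ⟨by simp⟩
  unfold Prod_mu
  infer_instance

theorem Prod_ae (μ : Measure (E N)) (a : ℝ) (q : E (N + 1) → Prop) :
    (∀ᵐ z ∂(Prod_mu μ a), q z) ↔ ∀ᵐ p ∂(μ.prod (volume.restrict (Ioo (-a) a))), q (Prod_j N p) :=
  Prod_measurable.ae_map_iff

theorem Prod_integral (μ : Measure (E N)) (a : ℝ) (f : E (N + 1) → ℝ) :
    ∫ z, f z ∂(Prod_mu μ a) = ∫ p, f (Prod_j N p) ∂(μ.prod (volume.restrict (Ioo (-a) a))) :=
  Prod_measurable.integral_map f

end Pool.Agent.MP_f6c0e6_an.Gen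

end

section

/-! The product with a line: the Hausdorff measure of the product. -/

set_option autoImplicit false

open MeasureTheory Filter Topology Set Metric
open scoped ENNReal NNReal RealInnerProductSpace

namespace Pool.Agent.MP_f6c0e6_an.Gen

variable {m N : ℕ}

theorem Prod_lip_le {a b : ℕ} (d : ℕ) {K : ℝ≥0} {f : E a → E b} {S : Set (E a)}
    (h : LipschitzOnWith K f S) :
    (Measure.euclideanHausdorffMeasure d : Measure (E b)) (f '' S) ≤
      (K : ℝ≥0∞) ^ d * (Measure.euclideanHausdorffMeasure d : Measure (E a)) S := by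
  have h1 := h.hausdorffMeasure_image_le (d := (d : ℝ)) (Nat.cast_nonneg d)
  rw [ENNReal.rpow_natCast] at h1
  simp only [Measure.euclideanHausdorffMeasure_def, Measure.smul_apply, ENNReal.smul_def,
    smul_eq_mul]
  rw [mul_left_comm]
  gcongr

theorem Prod_bilip (ι : E m →ₗᵢ[ℝ] E N) {S : Set (E N)} {c : ℝ≥0}
    (h : ∀ y ∈ S, ∀ y' ∈ S, ‖y - y'‖ ≤ c * ‖pr ι (y - y')‖) :
    volume (pr ι '' S) ≤ (Measure.euclideanHausdorffMeasure m : Measure (E N)) S ∧
      (Measure.euclideanHausdorffMeasure m : Measure (E N)) S ≤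
        (c : ℝ≥0∞) ^ m * volume (pr ι '' S) := by
  rw [← EuclideanSpace.euclideanHausdorffMeasure_eq_volume m]
  constructor
  · have h1 : LipschitzOnWith 1 (pr ι) S := LipschitzOnWith.of_dist_le_mul fun y _ y' _ => by
      rw [dist_eq_norm, dist_eq_norm, ← map_sub]
      simpa using Prod_pr_le ι (y - y')
    simpa using Prod_lip_le m h1
  · have hinj : InjOn (pr ι) S := fun y hy y' hy' e => by
      have := h y hy y' hy'
      rw [map_sub, e, sub_self, norm_zero, mul_zero] at this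
      exact sub_eq_zero.1 (norm_le_zero_iff.1 this)
    have h1 : LipschitzOnWith c (Function.invFunOn (pr ι) S) (pr ι '' S) :=
      LipschitzOnWith.of_dist_le_mul fun ξ hξ ξ' hξ' => by
        obtain ⟨y, hy, rfl⟩ := hξ
        obtain ⟨y', hy', rfl⟩ := hξ'
        rw [hinj.leftInvOn_invFunOn hy, hinj.leftInvOn_invFunOn hy', dist_eq_norm, dist_eq_norm,
          ← map_sub]
        exact h y hy y' hy'
    have h2 := Prod_lip_le m h1
    rwa [hinj.leftInvOn_invFunOn.image_image] at h2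

theorem Prod_pieces {μ : Measure (E N)} [IsFiniteMeasure μ] (fr : Fr m N)
    (h : ∀ᵐ y ∂μ, ∃ κ : ℝ, 1 ≤ κ ∧
      HasTangentPlane m μ y (Submodule.span ℝ (range fun i => fr.s i y)) κ) {c : ℝ} (hc : 1 < c) :
    ∃ (Γ : ℕ → Set (E N)) (ι : ℕ → (E m →ₗᵢ[ℝ] E N)), (∀ k, MeasurableSet (Γ k)) ∧
      Pairwise (Function.onFun Disjoint Γ) ∧ μ (⋃ k, Γ k)ᶜ = 0 ∧
      ∀ k, ∀ y ∈ Γ k, ∀ y' ∈ Γ k, ‖y - y'‖ ≤ c * ‖pr (ι k) (y - y')‖ := by
  have hc0 : 0 < c := by linarith
  have hη : 0 < (1 - c⁻¹) / 2 := by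
    have := inv_lt_one_of_one_lt₀ hc
    linarith
  obtain ⟨Γ, t, h1, h2, h3, h4, -, h6⟩ := exists_cones fr h hη
  have hι : ∀ k, ∃ ι : E m →ₗᵢ[ℝ] E N,
      (Submodule.span ℝ (range (t k)) : Set (E N)) = range ι := fun k =>
    exists_iso _ (by rw [finrank_span_eq_card (h4 k).linearIndependent]; simp)
  choose ι hι using hι
  refine ⟨Γ, ι, h1, h2, h3, fun k y hy y' hy' => ?_⟩
  have h7 := (h6 k y hy y' hy').2
  set v := y - y'
  have hw : (∑ i, ⟪t k i, v⟫ • t k i) ∈ range (ι k) := by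
    rw [← hι k]
    exact Submodule.sum_mem _ fun i _ =>
      Submodule.smul_mem _ _ (Submodule.subset_span ⟨i, rfl⟩)
  obtain ⟨ξ, hξ⟩ := hw
  rw [← hξ] at h7
  have e1 : ‖v‖ ≤ ‖ξ‖ + ‖v - ι k ξ‖ := by
    have := norm_add_le (ι k ξ) (v - ι k ξ)
    rwa [add_sub_cancel, (ι k).norm_map] at this
  have e2 : ‖ξ‖ ≤ ‖pr (ι k) v‖ + ‖v - ι k ξ‖ := by
    have h8 := Prod_pr_le (ι k) (v - ι k ξ)
    rw [map_sub, Prod_pr_iota] at h8
    have := norm_sub_le (pr (ι k) v) (pr (ι k) v - ξ)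
    rw [sub_sub_cancel] at this
    linarith
  have e3 : c⁻¹ * ‖v‖ ≤ ‖pr (ι k) v‖ := by linarith
  calc ‖v‖ = c * (c⁻¹ * ‖v‖) := by field_simp
    _ ≤ c * ‖pr (ι k) v‖ := by gcongr

theorem Prod_cone (ι : E m →ₗᵢ[ℝ] E N) {c : ℝ} (hc : 1 ≤ c) {v : E N} (h : ‖v‖ ≤ c * ‖pr ι v‖)
    (t : ℝ) : ‖Prod_j N (v, t)‖ ≤ c * ‖pr (Prod_iso ι) (Prod_j N (v, t))‖ := by
  rw [Prod_pr]
  refine (abs_le_of_sq_le_sq' ?_ (by positivity)).2
  rw [mul_pow, Prod_norm_sq, Prod_norm_sq]
  have h1 : ‖v‖ ^ 2 ≤ (c * ‖pr ι v‖) ^ 2 := by gcongr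
  have h2 : 1 ≤ c ^ 2 := one_le_pow₀ hc
  have h3 := mul_le_mul_of_nonneg_right h2 (sq_nonneg t)
  simp only
  nlinarith

theorem Prod_one (ι : E m →ₗᵢ[ℝ] E N) {Γ : Set (E N)} {c : ℝ≥0} (hc : 1 ≤ c)
    (h : ∀ y ∈ Γ, ∀ y' ∈ Γ, ‖y - y'‖ ≤ c * ‖pr ι (y - y')‖) {B : Set (E N × ℝ)}
    (hB : MeasurableSet B) (hΓ : ∀ p ∈ B, p.1 ∈ Γ) :
    (Measure.euclideanHausdorffMeasure (m + 1) : Measure (E (N + 1))) (Prod_j N '' B) ≤
      (c : ℝ≥0∞) ^ (m + 1) * ∫⁻ t, (Measure.euclideanHausdorffMeasure m : Measure (E N))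
        ((fun y => (y, t)) ⁻¹' B) ∧
    ∫⁻ t, (Measure.euclideanHausdorffMeasure m : Measure (E N)) ((fun y => (y, t)) ⁻¹' B) ≤
      (c : ℝ≥0∞) ^ m *
        (Measure.euclideanHausdorffMeasure (m + 1) : Measure (E (N + 1))) (Prod_j N '' B) := by
  have hc' : (1 : ℝ) ≤ c := by exact_mod_cast hc
  have h1 := Prod_bilip (Prod_iso ι) (S := Prod_j N '' B) (c := c) (by
    rintro _ ⟨p, hp, rfl⟩ _ ⟨q, hq, rfl⟩
    rw [Prod_sub]
    exact Prod_cone ι hc' (h _ (hΓ p hp) _ (hΓ q hq)) _)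
  have h2 : ∀ t : ℝ, _ := fun t => Prod_bilip ι (S := (fun y => (y, t)) ⁻¹' B) (c := c)
    fun y hy y' hy' => h _ (hΓ _ hy) _ (hΓ _ hy')
  set B' : Set (E m × ℝ) := (fun p : E N × ℝ => (pr ι p.1, p.2)) '' B with hB'
  have hm : MeasurableSet B' := by
    refine hB.image_of_continuousOn_injOn (by fun_prop) fun p hp q hq e => ?_
    have e1 : pr ι p.1 = pr ι q.1 := congrArg Prod.fst e
    have e2 : p.2 = q.2 := (Prod.ext_iff.1 e).2
    have := h _ (hΓ p hp) _ (hΓ q hq)
    rw [map_sub, e1, sub_self, norm_zero, mul_zero] at this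
    exact Prod.ext (sub_eq_zero.1 (norm_le_zero_iff.1 this)) e2
  have e1 : pr (Prod_iso ι) '' (Prod_j N '' B) = Prod_j m '' B' := by
    rw [hB', image_image, image_image]
    exact image_congr fun p _ => Prod_pr ι p
  have e2 : volume (Prod_j m '' B') = ∫⁻ t, volume (pr ι '' ((fun y => (y, t)) ⁻¹' B)) := by
    rw [← Prod_volume.measure_preimage
      (Prod_measurable.measurableSet_image.2 hm).nullMeasurableSet,
      preimage_image_eq _ (Prod_j m).injective, Measure.prod_apply_symm hm]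
    refine lintegral_congr fun t => ?_
    congr 1
    ext ξ
    constructor
    · rintro ⟨p, hp, e⟩
      have e3 : p.2 = t := congrArg Prod.snd e
      exact ⟨p.1, by rw [← e3]; exact hp, congrArg Prod.fst e⟩
    · rintro ⟨y, hy, rfl⟩
      exact ⟨(y, t), hy, rfl⟩
  rw [e1, e2] at h1
  constructor
  · refine h1.2.trans ?_
    gcongr with t
    exact (h2 t).1
  · calc _ ≤ ∫⁻ t, (c : ℝ≥0∞) ^ m * volume (pr ι '' ((fun y => (y, t)) ⁻¹' B)) :=
        lintegral_mono fun t => (h2 t).2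
      _ = (c : ℝ≥0∞) ^ m * ∫⁻ t, volume (pr ι '' ((fun y => (y, t)) ⁻¹' B)) :=
        lintegral_const_mul' _ _ (ENNReal.pow_ne_top ENNReal.coe_ne_top)
      _ ≤ _ := by gcongr; exact h1.1

theorem Prod_lim {a b : ℝ≥0∞} (k : ℕ)
    (h : ∀ n : ℕ, a ≤ ((1 + 1 / ((n : ℝ≥0) + 1) : ℝ≥0) : ℝ≥0∞) ^ k * b) : a ≤ b := by
  have h1 : Tendsto (fun n : ℕ => (1 + 1 / ((n : ℝ≥0) + 1) : ℝ≥0)) atTop (𝓝 1) := by
    rw [← NNReal.tendsto_coe]
    have := (tendsto_one_div_add_atTop_nhds_zero_nat (𝕜 := ℝ)).const_add 1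
    simpa using this
  have h2 : Tendsto (fun n : ℕ => ((1 + 1 / ((n : ℝ≥0) + 1) : ℝ≥0) : ℝ≥0∞) ^ k) atTop (𝓝 1) := by
    have := ENNReal.tendsto_coe.2 (h1.pow k)
    simpa using this
  have h3 := ENNReal.Tendsto.mul_const (b := b) h2 (Or.inl one_ne_zero)
  rw [one_mul] at h3
  exact ge_of_tendsto' h3 h

theorem Prod_sum {M₀ : Set (E N)} (hM : MeasurableSet M₀)
    [SFinite ((Measure.euclideanHausdorffMeasure m : Measure (E N)).restrict M₀)]
    {Γ : ℕ → Set (E N)} {ι : ℕ → (E m →ₗᵢ[ℝ] E N)} (h1 : ∀ k, MeasurableSet (Γ k))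
    (h2 : Pairwise (Function.onFun Disjoint Γ)) (h3 : M₀ ⊆ ⋃ k, Γ k) {c : ℝ≥0} (hc : 1 ≤ c)
    (h : ∀ k, ∀ y ∈ Γ k, ∀ y' ∈ Γ k, ‖y - y'‖ ≤ c * ‖pr (ι k) (y - y')‖) {B : Set (E N × ℝ)}
    (hB : MeasurableSet B) (hBM : ∀ p ∈ B, p.1 ∈ M₀) :
    (Measure.euclideanHausdorffMeasure (m + 1) : Measure (E (N + 1))) (Prod_j N '' B) ≤
      (c : ℝ≥0∞) ^ (m + 1) *
        ((Measure.euclideanHausdorffMeasure m : Measure (E N)).restrict M₀).prod volume B ∧
    ((Measure.euclideanHausdorffMeasure m : Measure (E N)).restrict M₀).prod volume B ≤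
      (c : ℝ≥0∞) ^ m *
        (Measure.euclideanHausdorffMeasure (m + 1) : Measure (E (N + 1))) (Prod_j N '' B) := by
  set Bk : ℕ → Set (E N × ℝ) := fun k => B ∩ Prod.fst ⁻¹' Γ k with hBk
  have hm : ∀ k, MeasurableSet (Bk k) := fun k => hB.inter (measurable_fst (h1 k))
  have hd : Pairwise (Function.onFun Disjoint Bk) := fun k l hkl =>
    ((h2 hkl).preimage Prod.fst).mono inter_subset_right inter_subset_right
  have hU : B = ⋃ k, Bk k := by
    refine Subset.antisymm (fun p hp => ?_) (iUnion_subset fun k => inter_subset_left)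
    obtain ⟨k, hk⟩ := mem_iUnion.1 (h3 (hBM p hp))
    exact mem_iUnion.2 ⟨k, hp, hk⟩
  have e1 : ((Measure.euclideanHausdorffMeasure m : Measure (E N)).restrict M₀).prod volume B =
      ∑' k, ∫⁻ t, (Measure.euclideanHausdorffMeasure m : Measure (E N))
        ((fun y => (y, t)) ⁻¹' Bk k) := by
    rw [hU, measure_iUnion hd hm]
    refine tsum_congr fun k => ?_
    rw [Measure.prod_apply_symm (hm k)]
    refine lintegral_congr fun t => ?_
    rw [Measure.restrict_apply' hM, inter_eq_left.2]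
    exact fun y hy => hBM _ hy.1
  have e2 : (Measure.euclideanHausdorffMeasure (m + 1) : Measure (E (N + 1))) (Prod_j N '' B) =
      ∑' k, (Measure.euclideanHausdorffMeasure (m + 1) : Measure (E (N + 1)))
        (Prod_j N '' Bk k) := by
    rw [hU, image_iUnion, measure_iUnion _ fun k => Prod_measurable.measurableSet_image.2 (hm k)]
    exact fun k l hkl => (disjoint_image_iff (Prod_j N).injective).2 (hd hkl)
  have e3 := fun k => Prod_one (ι k) hc (h k) (hm k) fun p hp => hp.2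
  rw [e1, e2, ← ENNReal.tsum_mul_left, ← ENNReal.tsum_mul_left]
  exact ⟨ENNReal.tsum_le_tsum fun k => (e3 k).1, ENNReal.tsum_le_tsum fun k => (e3 k).2⟩

theorem Prod_map_wd {α β : Type} [MeasurableSpace α] [MeasurableSpace β] {f : α → β}
    (hf : Measurable f) (ν : Measure α) {g : β → ℝ≥0∞} (hg : Measurable g) :
    (ν.withDensity fun x => g (f x)).map f = (ν.map f).withDensity g := by
  ext s hs
  rw [Measure.map_apply hf hs, withDensity_apply _ (hf hs), withDensity_apply _ hs,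
    setLIntegral_map hs hg hf]

theorem Prod_haus {μ : Measure (E N)} [IsFiniteMeasure μ] (fr : Fr m N) {M : Set (E N)}
    {θ : E N → ℕ} (hM : MeasurableSet M) (hθ : Measurable θ) (h1 : ∀ x ∈ M, 1 ≤ θ x)
    (hμ : μ = ((Measure.euclideanHausdorffMeasure m).restrict M).withDensity
      fun x => (θ x : ℝ≥0∞))
    (h : ∀ᵐ y ∂μ, HasTangentPlane m μ y (Submodule.span ℝ (range fun i => fr.s i y)) (θ y))
    (a : ℝ) : ∃ M' : Set (E (N + 1)), MeasurableSet M' ∧ (∀ z ∈ M', 1 ≤ θ (Prod_dn N z)) ∧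
      Prod_mu μ a = ((Measure.euclideanHausdorffMeasure (m + 1)).restrict M').withDensity
        fun z => (θ (Prod_dn N z) : ℝ≥0∞) := by
  have hθ' : Measurable fun x => (θ x : ℝ≥0∞) := measurable_from_top.comp hθ
  have hMae : ∀ᵐ y ∂μ, y ∈ M := by
    rw [hμ]
    exact withDensity_absolutelyContinuous _ _ (ae_restrict_mem hM)
  have h' : ∀ᵐ y ∂μ, ∃ κ : ℝ, 1 ≤ κ ∧
      HasTangentPlane m μ y (Submodule.span ℝ (range fun i => fr.s i y)) κ := by
    filter_upwards [h, hMae] with y hy hyM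
    exact ⟨θ y, by exact_mod_cast h1 y hyM, hy⟩
  have hp : ∀ n : ℕ, _ := fun n => Prod_pieces fr h'
    (c := ((1 + 1 / ((n : ℝ≥0) + 1) : ℝ≥0) : ℝ)) (by
      have : (0 : ℝ) < 1 / ((n : ℝ) + 1) := by positivity
      push_cast
      linarith)
  choose Γ ι g1 g2 g3 g4 using hp
  have hG : MeasurableSet (⋂ n, ⋃ k, Γ n k) :=
    MeasurableSet.iInter fun n => MeasurableSet.iUnion (g1 n)
  have hGae : ∀ᵐ y ∂μ, y ∈ ⋂ n, ⋃ k, Γ n k := by
    simp only [mem_iInter]
    exact ae_all_iff.2 fun n => g3 n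
  set M₀ := (⋂ n, ⋃ k, Γ n k) ∩ M with hM₀
  have hM0 : MeasurableSet M₀ := hG.inter hM
  set ν := (Measure.euclideanHausdorffMeasure m : Measure (E N)).restrict M₀ with hν
  have hμν : μ = ν.withDensity fun x => (θ x : ℝ≥0∞) := by
    rw [← Measure.restrict_eq_self_of_ae_mem hGae]
    conv_lhs => rw [hμ]
    rw [restrict_withDensity hG, Measure.restrict_restrict hG]
  have hfin : IsFiniteMeasure ν := by
    refine ⟨lt_of_le_of_lt ?_ (measure_lt_top μ univ)⟩
    rw [hμν, withDensity_apply _ MeasurableSet.univ, Measure.restrict_univ, ← lintegral_one]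
    refine lintegral_mono_ae ?_
    filter_upwards [ae_restrict_mem hM0] with y hy
    exact_mod_cast h1 y hy.2
  have hI : MeasurableSet (M₀ ×ˢ Ioo (-a) a) := hM0.prod measurableSet_Ioo
  refine ⟨Prod_j N '' (M₀ ×ˢ Ioo (-a) a), Prod_measurable.measurableSet_image.2 hI, ?_, ?_⟩
  · rintro _ ⟨p, hp, rfl⟩
    exact h1 _ hp.1.2
  · have e : (ν.prod (volume.restrict (Ioo (-a) a))).map (Prod_j N) =
        (Measure.euclideanHausdorffMeasure (m + 1)).restrict (Prod_j N '' (M₀ ×ˢ Ioo (-a) a)) := by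
      ext s hs
      have hs' : MeasurableSet (Prod_j N ⁻¹' s) := Prod_measurable.measurable hs
      have e1 : ν.prod (volume.restrict (Ioo (-a) a)) =
          (ν.prod volume).restrict (M₀ ×ˢ Ioo (-a) a) := by
        rw [← Measure.prod_restrict, hν, Measure.restrict_restrict hM0, inter_self]
      rw [Measure.map_apply Prod_measurable.measurable hs, Measure.restrict_apply hs, e1,
        Measure.restrict_apply hs', ← image_preimage_inter]
      have e2 := fun n => Prod_sum (m := m) hM0 (g1 n) (g2 n)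
        (inter_subset_left.trans (iInter_subset _ n)) le_self_add (g4 n) (hs'.inter hI)
        fun p hp => hp.2.1
      exact le_antisymm (Prod_lim m fun n => (e2 n).2) (Prod_lim (m + 1) fun n => (e2 n).1)
    rw [← e, ← Prod_map_wd Prod_measurable.measurable _
      (g := fun z => (θ (Prod_dn N z) : ℝ≥0∞)) (hθ'.comp (Prod_dn N).continuous.measurable),
      Prod_mu, hμν, prod_withDensity_left hθ']
    rfl

end Pool.Agent.MP_f6c0e6_an.Gen

end

section

/-! The product with a line: tangent planes, stationarity and the density hypothesis. -/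

set_option autoImplicit false

open MeasureTheory Filter Topology Set Metric
open scoped ENNReal NNReal RealInnerProductSpace

namespace Pool.Agent.MP_f6c0e6_an.Gen

variable {m N : ℕ}

theorem Prod_smul_sub (r : ℝ) (p q : E N × ℝ) :
    r • (Prod_j N p - Prod_j N q) = Prod_j N (r • (p.1 - q.1), r * (p.2 - q.2)) := by
  rw [Prod_sub, ← map_smul]
  rfl

theorem Prod_tan {μ : Measure (E N)} [IsFiniteMeasure μ] {y : E N} {P : Submodule ℝ (E N)} {κ : ℝ}
    (h : HasTangentPlane m μ y P κ) {a t : ℝ} (ht : t ∈ Ioo (-a) a) :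
    HasTangentPlane (m + 1) (Prod_mu μ a) (Prod_j N (y, t)) (Prod_pl P) κ := by
  obtain ⟨ι, hι⟩ := exists_iso P h.1
  refine ⟨Prod_finrank (Prod_pl_range hι), fun φ hφ hc => ?_⟩
  obtain ⟨R, hR, hR0⟩ := hc.exists_pos_le_norm
  obtain ⟨C, hC⟩ := hφ.bounded_above_of_compact_support hc
  set Φ : E N → ℝ := fun v => ∫ s : ℝ, φ (Prod_j N (v, s)) with hΦ
  have c1 : Continuous Φ := by
    rw [← continuousOn_univ]
    refine continuousOn_integral_of_compact_support (k := Icc (-R) R) isCompact_Icc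
      (Continuous.continuousOn (hφ.comp (Prod_j N).continuous)) fun v s _ hs => hR0 _ ?_
    refine le_trans ?_ (Prod_snd_le (v, s))
    by_contra hh
    exact hs (mem_Icc.2 (abs_le.1 (not_le.1 hh).le))
  have c2 : HasCompactSupport Φ := by
    refine HasCompactSupport.intro (isCompact_closedBall (0 : E N) R) fun v hv => ?_
    rw [mem_closedBall_zero_iff, not_le] at hv
    have : ∀ s : ℝ, φ (Prod_j N (v, s)) = 0 := fun s =>
      hR0 _ (hv.le.trans (Prod_fst_le (v, s)))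
    simp [hΦ, this]
  have e1 : ∫ z in (Prod_pl P : Set (E (N + 1))), φ z ∂(Measure.euclideanHausdorffMeasure (m + 1)) =
      ∫ z in (P : Set (E N)), Φ z ∂(Measure.euclideanHausdorffMeasure m) := by
    rw [Prod_pl_range hι, hι, integral_plane, integral_plane,
      ← Prod_volume.integral_comp Prod_measurable, integral_prod]
    · rfl
    · refine Prod_volume.integrable_comp_of_integrable (g := fun ξ => φ (Prod_iso ι ξ)) ?_
      exact (hφ.comp (Prod_iso ι).continuous).integrable_of_hasCompactSupport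
        (hc.comp_isClosedEmbedding (Prod_iso ι).isometry.isClosedEmbedding)
  rw [e1]
  refine (h.2 Φ c1 c2).congr' ?_
  have hδ : 0 < min (a - t) (a + t) / R :=
    div_pos (lt_min (by linarith [ht.2]) (by linarith [ht.1])) hR
  have : IsFiniteMeasure (volume.restrict (Ioo (-a) a) : Measure ℝ) := ⟨by simp⟩
  filter_upwards [Ioo_mem_nhdsGT hδ] with r hr
  have hr0 := hr.1
  have hr1 : r * R < min (a - t) (a + t) := (lt_div_iff₀ hR).1 hr.2
  rw [Prod_integral, integral_prod]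
  · have e2 : ∀ v : E N, ∫ s in Ioo (-a) a, φ (r⁻¹ • (Prod_j N (v, s) - Prod_j N (y, t))) =
        r * Φ (r⁻¹ • (v - y)) := fun v => by
      simp only [Prod_smul_sub]
      rw [setIntegral_eq_integral_of_forall_compl_eq_zero,
        integral_sub_right_eq_self (fun s : ℝ => φ (Prod_j N (r⁻¹ • (v - y), r⁻¹ * s))) t,
        Measure.integral_comp_inv_mul_left (fun s : ℝ => φ (Prod_j N (r⁻¹ • (v - y), s))) r,
        abs_of_pos hr0, smul_eq_mul]
      intro s hs
      refine hR0 _ (le_trans ?_ (Prod_snd_le _))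
      simp only [abs_mul, abs_inv, abs_of_pos hr0]
      rw [le_inv_mul_iff₀ hr0]
      by_contra hh
      have h3 := abs_lt.1 ((not_le.1 hh).trans hr1)
      exact hs ⟨by linarith [min_le_right (a - t) (a + t)], by linarith [min_le_left (a - t) (a + t)]⟩
    simp only [e2]
    rw [integral_const_mul, pow_succ]
    field_simp
  · exact Integrable.of_bound (Continuous.aestronglyMeasurable (by fun_prop)) C
      (Eventually.of_forall fun p => hC _)

theorem Prod_div (fr : Fr m N) {X : E (N + 1) → E (N + 1)} (hX : Differentiable ℝ X) (y : E N)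
    (t : ℝ) : (Prod_fr fr).div X (Prod_j N (y, t)) =
      ⟪ev 0, fderiv ℝ X (Prod_j N (y, t)) (ev 0)⟫ +
        fr.div (fun v => Prod_dn N (X (Prod_j N (v, t)))) y := by
  have h1 : HasFDerivAt (fun v : E N => Prod_j N (v, t)) (Prod_up N).toContinuousLinearMap y := by
    simp only [Prod_j_eq]
    exact (Prod_up N).toContinuousLinearMap.hasFDerivAt.add_const _
  have h2 := (Prod_dn N).hasFDerivAt.comp y ((hX _).hasFDerivAt.comp y h1)
  have h3 : fderiv ℝ (fun v => Prod_dn N (X (Prod_j N (v, t)))) y = _ := h2.fderiv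
  rw [Fr.div, Fin.sum_univ_succ, Fr.div, h3]
  simp only [Prod_fr_zero, Prod_fr_succ, Prod_inner_up]
  rfl

theorem Prod_stat0 {fr : Fr m N} {μ : Measure (E N)} [IsFiniteMeasure μ] {x₀ : E N} {a : ℝ}
    (ha : 0 < a) (h : Stat fr μ (ball x₀ a)) {X : E (N + 1) → E (N + 1)} (hX : ContDiff ℝ 1 X)
    {L : Set (E (N + 1))} (hL : IsCompact L) (hLO : L ⊆ ball (Prod_j N (x₀, 0)) a)
    (h0 : ∀ z, z ∉ L → X z = 0) : ∫ z, (Prod_fr fr).div X z ∂(Prod_mu μ a) = 0 := by
  have : IsFiniteMeasure (volume.restrict (Ioo (-a) a) : Measure ℝ) := ⟨by simp⟩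
  have hd : Differentiable ℝ X := hX.differentiable one_ne_zero
  have hc : HasCompactSupport X := HasCompactSupport.intro hL h0
  have c1 : Continuous (fderiv ℝ X) := hX.continuous_fderiv one_ne_zero
  obtain ⟨C, hC⟩ := c1.bounded_above_of_compact_support (hc.fderiv ℝ)
  have i0 : Integrable ((Prod_fr fr).div X) (Prod_mu μ a) :=
    (Prod_fr fr).integrable_div hL (fun y _ => hX.contDiffAt) (Eventually.of_forall fun z hz => by
      filter_upwards [hL.isClosed.isOpen_compl.mem_nhds hz] with x hx using h0 x hx)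
  have i1 : Integrable (fun p => (Prod_fr fr).div X (Prod_j N p))
      (μ.prod (volume.restrict (Ioo (-a) a))) := (Prod_measurable.integrable_map_iff).1 i0
  have i2 : Integrable (fun p : E N × ℝ => ⟪ev 0, fderiv ℝ X (Prod_j N p) (ev 0)⟫)
      (μ.prod (volume.restrict (Ioo (-a) a))) := by
    refine Integrable.of_bound (Continuous.aestronglyMeasurable (by fun_prop)) C
      (Eventually.of_forall fun p => ?_)
    refine (norm_inner_le_norm _ _).trans ?_
    rw [norm_ev, one_mul]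
    refine (ContinuousLinearMap.le_opNorm _ _).trans ?_
    rw [norm_ev, mul_one]
    exact hC _
  have i3 : Integrable (fun p : E N × ℝ => fr.div (fun v => Prod_dn N (X (Prod_j N (v, p.2)))) p.1)
      (μ.prod (volume.restrict (Ioo (-a) a))) := by
    refine (i1.sub i2).congr (Eventually.of_forall fun p => ?_)
    have := Prod_div fr hd p.1 p.2
    simp only [Pi.sub_apply]
    rw [show Prod_j N p = Prod_j N (p.1, p.2) from rfl, this]
    ring
  have e1 : ∀ p : E N × ℝ, (Prod_fr fr).div X (Prod_j N p) =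
      ⟪ev 0, fderiv ℝ X (Prod_j N p) (ev 0)⟫ +
        fr.div (fun v => Prod_dn N (X (Prod_j N (v, p.2)))) p.1 := fun p => Prod_div fr hd p.1 p.2
  rw [Prod_integral]
  simp only [e1]
  rw [integral_add i2 i3, integral_prod _ i2, integral_prod_symm _ i3]
  have z1 : ∀ y : E N, ∫ t in Ioo (-a) a, ⟪ev 0, fderiv ℝ X (Prod_j N (y, t)) (ev 0)⟫ = 0 := by
    intro y
    have d1 : ∀ t : ℝ, HasDerivAt (fun s : ℝ => ⟪ev 0, X (Prod_j N (y, s))⟫)
        ⟪ev 0, fderiv ℝ X (Prod_j N (y, t)) (ev 0)⟫ t := fun t => by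
      have d2 : HasDerivAt (fun s : ℝ => Prod_j N (y, s)) (ev 0) t := by
        simp only [Prod_j_eq]
        simpa using ((hasDerivAt_id t).smul_const (ev 0 : E (N + 1))).const_add (Prod_up N y)
      exact (innerSL ℝ (ev 0 : E (N + 1))).hasFDerivAt.comp_hasDerivAt t
        ((hd _).hasFDerivAt.comp_hasDerivAt t d2)
    have z2 : ∀ s : ℝ, |s| = a → X (Prod_j N (y, s)) = 0 := fun s hs => h0 _ fun hh => by
      have h3 := hLO hh
      rw [mem_ball_iff_norm, Prod_sub] at h3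
      have h4 := Prod_snd_le (y - x₀, s - 0)
      simp only [sub_zero] at h3 h4
      linarith
    rw [← integral_Ioc_eq_integral_Ioo, ← intervalIntegral.integral_of_le (by linarith),
      intervalIntegral.integral_eq_sub_of_hasDerivAt (fun t _ => d1 t)
        (Continuous.intervalIntegrable (by fun_prop) _ _),
      z2 a (abs_of_pos ha), z2 (-a) (by rw [abs_neg, abs_of_pos ha])]
    simp
  have z3 : ∀ t : ℝ, ∫ y, fr.div (fun v => Prod_dn N (X (Prod_j N (v, t)))) y ∂μ = 0 := by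
    intro t
    have k1 : IsCompact (Prod_dn N '' L) := hL.image (Prod_dn N).continuous
    refine h _ _ k1 ?_ (fun y _ => ContDiff.contDiffAt (by fun_prop))
      (Eventually.of_forall fun y hy => ?_)
    · rintro _ ⟨z, hz, rfl⟩
      have h3 := hLO hz
      rw [mem_ball_iff_norm] at h3 ⊢
      have h4 := Prod_dn_le (z - Prod_j N (x₀, 0))
      rw [map_sub, Prod_dn_j] at h4
      exact h4.trans_lt h3
    · filter_upwards [k1.isClosed.isOpen_compl.mem_nhds hy] with v hv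
      rw [h0 _ fun hh => hv ⟨_, hh, rfl⟩]
      simp
  simp only [z1, z3]
  simp

theorem Prod_stat {fr : Fr m N} {μ : Measure (E N)} [IsFiniteMeasure μ] {x₀ : E N} {a : ℝ}
    (ha : 0 < a) (h : Stat fr μ (ball x₀ a)) :
    Stat (Prod_fr fr) (Prod_mu μ a) (ball (Prod_j N (x₀, 0)) a) := by
  intro X K hK hKO hX h0
  have hU : IsOpen (ball (Prod_j N (x₀, 0)) a ∩ {y | ContDiffAt ℝ 1 X y}) :=
    isOpen_ball.inter (isOpen_iff_mem_nhds.2 fun y hy => ContDiffAt.eventually hy (by simp))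
  obtain ⟨L, hL, hKL, hLU⟩ := exists_compact_between hK hU fun y hy => ⟨hKO hy, hX y hy⟩
  obtain ⟨f, f1, f0, -⟩ := exists_contMDiffMap_one_nhds_of_subset_interior (n := 1)
    (modelWithCornersSelf ℝ (E (N + 1))) hK.isClosed hKL
  have hf : ContDiff ℝ 1 f := f.contMDiff.contDiff
  have hz : ∀ y, y ∉ L → f y • X y = 0 := fun y hy => by rw [f0 y hy, zero_smul]
  have hc : ContDiff ℝ 1 fun x => f x • X x := by
    refine contDiff_iff_contDiffAt.2 fun y => ?_
    by_cases hy : y ∈ L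
    · exact hf.contDiffAt.smul (hLU hy).2
    · refine (contDiffAt_const (c := 0)).congr_of_eventuallyEq ?_
      filter_upwards [hL.isClosed.isOpen_compl.mem_nhds hy] with x hx using hz x hx
  rw [← Prod_stat0 ha h hc hL (fun y hy => (hLU hy).1) hz]
  refine integral_congr_ae ?_
  filter_upwards [h0] with y hy
  have e : X =ᶠ[𝓝 y] fun x => f x • X x := by
    by_cases hyK : y ∈ K
    · filter_upwards [f1.filter_mono (nhds_le_nhdsSet hyK)] with x hx
      rw [hx, one_smul]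
    · filter_upwards [hy hyK] with x hx
      rw [hx]
      simp
  simp only [Fr.div, e.fderiv_eq]

theorem Prod_H {μ : Measure (E N)} [IsFiniteMeasure μ] {A : Set (E N)} {x₀ : E N} (a : ℝ)
    (h : Tendsto (fun r : ℝ => (r ^ m)⁻¹ * (μ (A ∩ ball x₀ r)).toReal) (𝓝[>] 0) (𝓝 0)) :
    Tendsto (fun r : ℝ => (r ^ (m + 1))⁻¹ *
      (Prod_mu μ a (Prod_dn N ⁻¹' A ∩ ball (Prod_j N (x₀, 0)) r)).toReal) (𝓝[>] 0) (𝓝 0) := by
  have h2 := h.const_mul 2
  rw [mul_zero] at h2
  refine squeeze_zero' ?_ ?_ h2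
  · filter_upwards [self_mem_nhdsWithin] with r hr
    have : 0 < r := hr
    positivity
  · filter_upwards [self_mem_nhdsWithin] with r hr
    have hr0 : 0 < r := hr
    have h3 : Prod_mu μ a (Prod_dn N ⁻¹' A ∩ ball (Prod_j N (x₀, 0)) r) ≤
        μ (A ∩ ball x₀ r) * ENNReal.ofReal (2 * r) := by
      rw [Prod_mu, Prod_measurable.map_apply]
      calc _ ≤ (μ.prod (volume.restrict (Ioo (-a) a))) ((A ∩ ball x₀ r) ×ˢ Ioo (-r) r) := by
            refine measure_mono fun p hp => ?_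
            have h4 := hp.2
            rw [mem_ball_iff_norm, Prod_sub] at h4
            have h5 := Prod_fst_le (p.1 - x₀, p.2 - 0)
            have h6 := Prod_snd_le (p.1 - x₀, p.2 - 0)
            simp only [sub_zero] at h4 h5 h6
            exact ⟨⟨hp.1, mem_ball_iff_norm.2 (h5.trans_lt h4)⟩, abs_lt.1 (h6.trans_lt h4)⟩
        _ ≤ _ := by
            rw [Measure.prod_prod]
            gcongr
            refine (Measure.restrict_le_self _).trans ?_
            rw [Real.volume_Ioo]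
            exact le_of_eq (by congr 1; ring)
    have h4 := ENNReal.toReal_mono (ENNReal.mul_ne_top (measure_ne_top _ _) ENNReal.ofReal_ne_top) h3
    rw [ENNReal.toReal_mul, ENNReal.toReal_ofReal (by positivity)] at h4
    calc _ ≤ (r ^ (m + 1))⁻¹ * ((μ (A ∩ ball x₀ r)).toReal * (2 * r)) := by gcongr
      _ = _ := by
        rw [pow_succ]
        field_simp

end Pool.Agent.MP_f6c0e6_an.Gen

end

section

/-! The product with a line: back to the lower dimension. -/

set_option autoImplicit false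

open MeasureTheory Filter Topology Set Metric
open scoped ENNReal NNReal RealInnerProductSpace

namespace Pool.Agent.MP_f6c0e6_an.Gen

variable {m N : ℕ}

theorem Prod_supp {μ : Measure (E N)} [IsFiniteMeasure μ] {x : E N} {P : Submodule ℝ (E N)} {κ : ℝ}
    (h : HasTangentPlane m μ x P κ) (hκ : 0 < κ) : x ∈ μ.support := by
  rw [Measure.mem_support_iff_forall]
  intro U hU
  obtain ⟨ε, hε, hb⟩ := Metric.mem_nhds_iff.1 hU
  have h1 := (mk_tendsto h).eventually (lt_mem_nhds (mul_pos hκ (cg_pos m)))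
  obtain ⟨ρ, h2, h3⟩ := (h1.and (Ioo_mem_nhdsGT hε)).exists
  have h4 := mk_le_ball (m := m) μ x h3.1
  have h5 : 0 < (μ (ball x ρ)).toReal := lt_of_lt_of_le (mul_pos h2 (pow_pos h3.1 m)) h4
  exact (ENNReal.toReal_pos_iff.1 h5).1.trans_le
    (measure_mono ((ball_subset_ball h3.2.le).trans hb))

theorem Prod_min {W : E m → E N} {V : E (m + 1) → E (N + 1)} {ξ : E m} (hW : ContDiffAt ℝ 2 W ξ)
    (hV : V =ᶠ[𝓝 (Prod_up m ξ)] fun z => Prod_up N (W (Prod_dn m z)))
    (h : MinAt V (Prod_up m ξ)) : MinAt W ξ := by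
  let T : (E m →L[ℝ] E N) →L[ℝ] (E (m + 1) →L[ℝ] E (N + 1)) :=
    (ContinuousLinearMap.compL ℝ (E (m + 1)) (E N) (E (N + 1))
      (Prod_up N).toContinuousLinearMap).comp
      ((ContinuousLinearMap.compL ℝ (E (m + 1)) (E m) (E N)).flip (Prod_dn m))
  have hT : ∀ (A : E m →L[ℝ] E N) (v : E (m + 1)), T A v = Prod_up N (A (Prod_dn m v)) :=
    fun A v => rfl
  have d1 : ∀ᶠ x in 𝓝 ξ, DifferentiableAt ℝ W x := by
    filter_upwards [hW.eventually (by simp)] with x hx using hx.differentiableAt (by simp)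
  have d2 : ∀ᶠ z in 𝓝 (Prod_up m ξ), DifferentiableAt ℝ W (Prod_dn m z) :=
    (Prod_dn m).continuous.continuousAt.tendsto.eventually (p := fun x => DifferentiableAt ℝ W x) d1
  have e1 : fderiv ℝ V =ᶠ[𝓝 (Prod_up m ξ)] fun z => T (fderiv ℝ W (Prod_dn m z)) := by
    refine hV.fderiv.trans ?_
    filter_upwards [d2] with z hz
    exact ((Prod_up N).toContinuousLinearMap.hasFDerivAt.comp z
      (hz.hasFDerivAt.comp z (Prod_dn m).hasFDerivAt)).fderiv
  have d3 : DifferentiableAt ℝ (fderiv ℝ W) (Prod_dn m (Prod_up m ξ)) :=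
    (hW.fderiv_right (m := 1) (by norm_num)).differentiableAt one_ne_zero
  have e2 : ∀ u v, fderiv ℝ (fderiv ℝ V) (Prod_up m ξ) u v =
      Prod_up N (fderiv ℝ (fderiv ℝ W) ξ (Prod_dn m u) (Prod_dn m v)) := fun u v => by
    have h3 : fderiv ℝ (fun z => T (fderiv ℝ W (Prod_dn m z))) (Prod_up m ξ) = _ :=
      (T.hasFDerivAt.comp _ (d3.hasFDerivAt.comp _ (Prod_dn m).hasFDerivAt)).fderiv
    rw [e1.fderiv_eq, h3]
    rfl
  have e3 : ∀ v, fderiv ℝ V (Prod_up m ξ) v = Prod_up N (fderiv ℝ W ξ (Prod_dn m v)) := fun v => by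
    rw [e1.eq_of_nhds]
    rfl
  have e4 : ∀ a, gW V (Prod_up m ξ) (Prod_up m a) = Prod_up m (gW W ξ a) := fun a =>
    ext_inner_right ℝ fun w => by
      rw [inner_gW, e3, e3, LinearIsometry.inner_map_map, Prod_inner_up, Prod_inner_up, inner_gW,
        Prod_dn_up]
  have e5 : ∀ e, giW V (Prod_up m ξ) (Prod_up m e) = Prod_up m (giW W ξ e) := fun e => by
    conv_lhs => rw [← (giW_gW W ξ e).2, ← e4]
    exact (giW_gW V _ _).1
  have e6 : Prod_dn m (ev 0) = 0 := by rw [Prod_ev_zero, Prod_dn_j]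
  rw [MinAt, Fin.sum_univ_succ] at h
  simp only [e2, e6, Prod_ev_succ, e5, Prod_dn_up, map_zero, zero_apply,
    zero_add] at h
  rw [← map_sum] at h
  exact (Prod_up N).injective (h.trans (map_zero _).symm)

theorem Prod_all_t {μ : Measure (E N)} [IsFiniteMeasure μ] (ι : E m →ₗᵢ[ℝ] E N) {x₀ : E N}
    {a ρ : ℝ} (hρ : ρ ≤ a) {V : E (m + 1) → E (N + 1)} (hV : ContinuousOn V (ball 0 ρ))
    (h : ∀ᵐ z ∂(Prod_mu μ a), z ∈ ball (Prod_j N (x₀, 0)) ρ →
      vt (Prod_iso ι) (z - Prod_j N (x₀, 0)) = V (pr (Prod_iso ι) (z - Prod_j N (x₀, 0)))) :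
    ∀ᵐ y ∂μ, y ∈ ball x₀ (ρ / 2) → ∀ t ∈ Ioo (-(ρ / 2)) (ρ / 2),
      V (Prod_j m (pr ι (y - x₀), t)) = Prod_up N (vt ι (y - x₀)) := by
  rw [Prod_ae] at h
  filter_upwards [Measure.ae_ae_of_ae_prod h] with y hy hyb t ht
  rw [mem_ball_iff_norm] at hyb
  have h0 : 0 < ρ / 2 := (norm_nonneg _).trans_lt hyb
  have hs : Ioo (-(ρ / 2)) (ρ / 2) ⊆ Ioo (-a) a := Ioo_subset_Ioo (by linarith) (by linarith)
  refine Measure.eqOn_open_of_ae_eq (μ := volume)
    (f := fun s : ℝ => V (Prod_j m (pr ι (y - x₀), s))) (g := fun _ => Prod_up N (vt ι (y - x₀)))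
    ?_ isOpen_Ioo ?_ continuousOn_const ht
  · filter_upwards [ae_restrict_of_ae_restrict_of_subset hs hy, ae_restrict_mem measurableSet_Ioo]
      with s h1 h2
    simp only [mem_ball_iff_norm, Prod_sub, sub_zero, Prod_vt, Prod_pr] at h1
    refine (h1 ?_).symm
    have h3 := Prod_le_add (y - x₀, s)
    have h4 := abs_lt.2 h2
    simp only at h3
    linarith
  · refine hV.comp (Continuous.continuousOn (by fun_prop)) fun s h2 => ?_
    rw [mem_ball_zero_iff]
    have h3 := Prod_le_add (pr ι (y - x₀), s)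
    have h4 := abs_lt.2 h2
    have h5 := Prod_pr_le ι (y - x₀)
    simp only at h3
    linarith

theorem Prod_on_supp {μ : Measure (E N)} (ι : E m →ₗᵢ[ℝ] E N) {x₀ : E N}
    {ρ : ℝ} {V : E (m + 1) → E (N + 1)} (hV : ContinuousOn V (ball 0 ρ))
    (h : ∀ᵐ y ∂μ, y ∈ ball x₀ (ρ / 2) → ∀ t ∈ Ioo (-(ρ / 2)) (ρ / 2),
      V (Prod_j m (pr ι (y - x₀), t)) = Prod_up N (vt ι (y - x₀)))
    {y : E N} (hy : y ∈ μ.support) (hyb : y ∈ ball x₀ (ρ / 2)) {t : ℝ}
    (ht : t ∈ Ioo (-(ρ / 2)) (ρ / 2)) :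
    V (Prod_j m (pr ι (y - x₀), t)) = Prod_up N (vt ι (y - x₀)) := by
  have c1 : ContinuousOn (fun x => V (Prod_j m (pr ι (x - x₀), t)) - Prod_up N (vt ι (x - x₀)))
      (ball x₀ (ρ / 2)) := by
    refine ContinuousOn.sub (hV.comp (Continuous.continuousOn (by fun_prop)) fun x hx => ?_)
      (Continuous.continuousOn ?_)
    · rw [mem_ball_iff_norm] at hx
      rw [mem_ball_zero_iff]
      have h3 := Prod_le_add (pr ι (x - x₀), t)
      have h4 := abs_lt.2 ht
      have h5 := Prod_pr_le ι (x - x₀)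
      simp only at h3
      linarith
    · unfold vt
      fun_prop
  have o1 := c1.isOpen_inter_preimage isOpen_ball (isOpen_compl_singleton (x := 0))
  by_contra hne
  refine Measure.subset_compl_support_of_isOpen o1 ?_ ⟨hyb, sub_ne_zero.2 hne⟩ hy
  refine measure_eq_zero_iff_ae_notMem.2 ?_
  filter_upwards [h] with x hx hx'
  exact hx'.2 (sub_eq_zero.2 (hx hx'.1 t ht))

theorem Prod_back {fr : Fr m N} {μ : Measure (E N)} [IsFiniteMeasure μ] (ι : E m →ₗᵢ[ℝ] E N)
    {x₀ : E N} {a ρ : ℝ} (h0 : 0 < ρ) (hρ : ρ ≤ a) (hstat : Stat fr μ (ball x₀ a))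
    (htan : ∀ᵐ y ∂μ, ∃ κ : ℝ, 0 < κ ∧
      HasTangentPlane m μ y (Submodule.span ℝ (range fun i => fr.s i y)) κ)
    (hx : x₀ ∈ μ.support) {V : E (m + 1) → E (N + 1)}
    (hV : ContDiffOn ℝ (⊤ : ℕ∞) V (ball 0 ρ)) (hv : ∀ ξ, pr (Prod_iso ι) (V ξ) = 0)
    (hmin : ∀ ξ ∈ ball (0 : E (m + 1)) ρ, MinAt V ξ) (hV0 : V 0 = 0)
    (h : ∀ᵐ z ∂(Prod_mu μ a), z ∈ ball (Prod_j N (x₀, 0)) ρ →
      vt (Prod_iso ι) (z - Prod_j N (x₀, 0)) = V (pr (Prod_iso ι) (z - Prod_j N (x₀, 0)))) :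
    ∃ (W : E m → E N) (s : ℝ), 0 < s ∧ s ≤ a ∧ ContDiffOn ℝ (⊤ : ℕ∞) W (ball 0 s) ∧
      (∀ ξ, pr ι (W ξ) = 0) ∧ (∀ ξ ∈ ball (0 : E m) s, MinAt W ξ) ∧ W 0 = 0 ∧
      ∀ᵐ y ∂μ, y ∈ ball x₀ s → vt ι (y - x₀) = W (pr ι (y - x₀)) := by
  have h1 := Prod_all_t ι hρ hV.continuousOn h
  have h2top : (2 : WithTop ℕ∞) ≤ ((⊤ : ℕ∞) : WithTop ℕ∞) := WithTop.coe_le_coe.2 le_top
  set W : E m → E N := fun ξ => Prod_dn N (V (Prod_up m ξ)) with hWd
  have w1 : ContDiffOn ℝ (⊤ : ℕ∞) W (ball 0 (ρ / 2)) :=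
    (Prod_dn N).contDiff.comp_contDiffOn
      (hV.comp (Prod_up m).toContinuousLinearMap.contDiff.contDiffOn fun ξ hξ => by
        rw [mem_ball_zero_iff] at hξ ⊢
        change ‖Prod_up m ξ‖ < ρ
        rw [LinearIsometry.norm_map]
        linarith)
  have w2 : ∀ ξ, pr ι (W ξ) = 0 := fun ξ => by
    have h2 := hv (Prod_up m ξ)
    rw [← Prod_j_dn (V (Prod_up m ξ)), Prod_pr] at h2
    have h3 := congrArg (Prod_dn m) h2
    rwa [Prod_dn_j, map_zero] at h3
  have w3 : W 0 = 0 := by simp [hWd, hV0]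
  have w4 : ∀ᵐ y ∂μ, y ∈ ball x₀ (ρ / 2) → vt ι (y - x₀) = W (pr ι (y - x₀)) := by
    filter_upwards [h1] with y hy hyb
    have h2 := congrArg (Prod_dn N) (hy hyb 0 ⟨by linarith, by linarith⟩)
    exact h2.symm
  obtain ⟨s, s0, s1, s2, -⟩ := supp_full (half_pos h0) ι
    (hstat.mono (ball_subset_ball (by linarith))) htan (w1.of_le h2top) w2 w3
    hx w4
  have c1 : ContinuousAt (fun ξ => ι ξ + W ξ) 0 :=
    ι.continuous.continuousAt.add
      (w1.continuousOn.continuousAt (ball_mem_nhds _ (half_pos h0)))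
  obtain ⟨δ, δ0, hδ⟩ := Metric.continuousAt_iff.1 c1 (ρ / 2) (half_pos h0)
  have k1 : ∀ ξ ∈ ball (0 : E m) (min s δ), ∀ t ∈ Ioo (-(ρ / 2)) (ρ / 2),
      V (Prod_j m (ξ, t)) = Prod_up N (W ξ) := fun ξ hξ t ht => by
    have h2 := hδ (lt_of_lt_of_le hξ (min_le_right _ _))
    simp only [w3, map_zero, add_zero, dist_zero_right] at h2
    have e : x₀ + ι ξ + W ξ - x₀ = ι ξ + W ξ := by abel
    have h3 := Prod_on_supp ι hV.continuousOn h1
      (s2 ξ (ball_subset_ball (min_le_left _ _) hξ)) (by rw [mem_ball_iff_norm, e]; exact h2) ht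
    have e2 : pr ι (ι ξ + W ξ) = ξ := by rw [map_add, Prod_pr_iota, w2, add_zero]
    rwa [e, vt, e2, add_sub_cancel_left] at h3
  have hs : min s δ ≤ ρ / 2 := (min_le_left _ _).trans s1
  refine ⟨W, min s δ, lt_min s0 δ0, by linarith, w1.mono (ball_subset_ball hs), w2,
    fun ξ hξ => ?_, w3, ?_⟩
  · refine Prod_min (V := V) ((w1.contDiffAt (isOpen_ball.mem_nhds
      (ball_subset_ball hs hξ))).of_le h2top) ?_ (hmin _ ?_)
    · have o1 : IsOpen {z : E (m + 1) | Prod_dn m z ∈ ball (0 : E m) (min s δ) ∧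
          z 0 ∈ Ioo (-(ρ / 2)) (ρ / 2)} :=
        (isOpen_ball.preimage (Prod_dn m).continuous).inter
          (isOpen_Ioo.preimage (by fun_prop : Continuous fun z : E (m + 1) => z 0))
      filter_upwards [o1.mem_nhds (x := Prod_up m ξ) ⟨hξ, by
        change (0 : ℝ) ∈ _
        exact ⟨by linarith, by linarith⟩⟩] with z hz
      rw [← k1 _ hz.1 _ hz.2, Prod_j_dn]
    · rw [mem_ball_zero_iff] at hξ ⊢
      rw [LinearIsometry.norm_map]
      linarith
  · filter_upwards [w4] with y hy hyb using hy (ball_subset_ball hs hyb)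

end Pool.Agent.MP_f6c0e6_an.Gen

end

section

/-! Reduction to a higher dimension: the product with a line. -/

set_option autoImplicit false

open MeasureTheory Filter Topology Set Metric
open scoped ENNReal RealInnerProductSpace

namespace Pool.Agent.MP_f6c0e6_an.Gen

variable {m N : ℕ}

/-- the local statement in dimension `m` -/
def Core (m N : ℕ) : Prop :=
  ∀ (μ : Measure (E N)) [IsFiniteMeasure μ] (fr : Fr m N) (M : Set (E N)) (θ : E N → ℕ)
    (ι : E m →ₗᵢ[ℝ] E N) (P : Submodule ℝ (E N)) (Q : ℕ) (x₀ : E N) (r₀ : ℝ),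
    MeasurableSet M → Measurable θ → (∀ x ∈ M, 1 ≤ θ x) →
    μ = ((Measure.euclideanHausdorffMeasure m).restrict M).withDensity (fun x => (θ x : ℝ≥0∞)) →
    (∀ᵐ y ∂μ, HasTangentPlane m μ y (Submodule.span ℝ (range fun i => fr.s i y)) (θ y)) →
    0 < r₀ → Stat fr μ (ball x₀ r₀) → 1 ≤ Q → (P : Set (E N)) = range ι →
    HasTangentPlane m μ x₀ P Q →
    Tendsto (fun r : ℝ => (r ^ m)⁻¹ * (μ ({x | θ x ≠ Q} ∩ ball x₀ r)).toReal) (𝓝[>] 0) (𝓝 0) →
    ∃ (W : E m → E N) (ρ : ℝ), 0 < ρ ∧ ρ ≤ r₀ ∧ ContDiffOn ℝ (⊤ : ℕ∞) W (ball 0 ρ) ∧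
      (∀ ξ, pr ι (W ξ) = 0) ∧ (∀ ξ ∈ ball (0 : E m) ρ, MinAt W ξ) ∧ W 0 = 0 ∧
      ∀ᵐ y ∂μ, y ∈ ball x₀ ρ → vt ι (y - x₀) = W (pr ι (y - x₀))

/-- Let `j (y, t) = toLp 2 (Fin.snoc y t)` identify `E N × ℝ` with `E (N + 1)`,
`μ' = (μ.prod (volume.restrict (Ioo (-r₀) r₀))).map j`, with the frames `j (s i y, 0)` and
`j (0, 1)`, `θ' (j (y, t)) = θ y`, `ι' (j (ξ, t)) = j (ι ξ, t)`.
1. `μ' = θ' H^(m+1)` on `M' = j (M₀ × Ioo)`, where `M₀ ⊆ M` is the union of the pieces of
`exists_cones` for all `η = 1 / k` (intersection over `k`): on a piece `Γ`, the projection on the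
plane of the frame `t` changes the distances by a factor between `1 - η` and `1`, and so does its
product with the identity on `Γ × ℝ`; so for measurable `A ⊆ Γ × ℝ` both `H^(m+1) (j A)` and
`(H^m × volume) A` are within a factor `(1 - η) ^ (m + 1)` of the volume of the projection of `A`
(`flat_piece` in the dimensions `m` and `m + 1`, or `LipschitzOnWith.hausdorffMeasure_image_le`,
and Fubini).
2. Tangent planes: for `φ` continuous with compact support, `y ↦ ∫ φ (j (y, t)) dt` is continuous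
with compact support; Fubini and `integral_plane`.
3. Stationarity: for `X` of class `C¹` with compact support (multiply by a cut-off function as in
`Stat.restrict`) the divergence is the divergence along `fr` of the slice `X (·, t)` plus
`∂_t X_(N+1)`; Fubini.
4. Apply the hypothesis; by Fubini and continuity, `W' (j (ξ, t))` does not depend on `t` when
`ξ` is the projection of a point of the support (`supp_full` for a slice `W' (j (·, t₀))`, after
showing that it vanishes at `0`, as `x₀` is in the support), so near the origin; then `MinAt W'`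
gives `MinAt W` for `W ξ = ` the first `N` coordinates of `W' (j (ξ, 0))`. -/
theorem core_down (m N : ℕ) (h : Core (m + 1) (N + 1)) : Core m N := by
  intro μ _ fr M θ ι P Q x₀ r₀ hM hθ h1 hμ htan hr hstat hQ hP hx hH
  obtain ⟨M', hM', h1', hμ'⟩ := Prod_haus fr hM hθ h1 hμ htan r₀
  have hMae : ∀ᵐ y ∂μ, y ∈ M := by
    rw [hμ]
    exact withDensity_absolutelyContinuous _ _ (ae_restrict_mem hM)
  have htan' : ∀ᵐ z ∂(Prod_mu μ r₀), HasTangentPlane (m + 1) (Prod_mu μ r₀) z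
      (Submodule.span ℝ (range fun i => (Prod_fr fr).s i z)) (θ (Prod_dn N z)) := by
    rw [Prod_ae]
    filter_upwards [Measure.quasiMeasurePreserving_fst.ae htan,
      Measure.quasiMeasurePreserving_snd.ae (ae_restrict_mem measurableSet_Ioo)] with p hp ht
    obtain ⟨y, t⟩ := p
    rw [Prod_span, Prod_dn_j]
    exact Prod_tan (y := y) (t := t) hp ht
  have hH' := Prod_H (A := {x | θ x ≠ Q}) r₀ hH
  have hθ' : Measurable fun z => θ (Prod_dn N z) := hθ.comp (Prod_dn N).continuous.measurable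
  have hx' := Prod_tan hx (a := r₀) (t := 0) ⟨by linarith, hr⟩
  obtain ⟨V, ρ, g1, g2, g3, g4, g5, g6, g7⟩ := h (Prod_mu μ r₀) (Prod_fr fr) M'
    (fun z => θ (Prod_dn N z)) (Prod_iso ι) (Prod_pl P) Q (Prod_j N (x₀, 0)) r₀ hM'
    hθ' h1' hμ' htan' hr (Prod_stat hr hstat) hQ (Prod_pl_range hP) hx' hH'
  refine Prod_back ι g1 g2 hstat ?_ (Prod_supp hx (by exact_mod_cast hQ)) g3 g4 g5 g6 g7
  filter_upwards [htan, hMae] with y hy hyM
  exact ⟨θ y, by exact_mod_cast h1 y hyM, hy⟩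

end Pool.Agent.MP_f6c0e6_an.Gen

end
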