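import Pool.Agent.MP_f6c0e6_an.All.WienerC

section

/-! The Wiener algebra: regularity and the update of a minimal graph. -/

set_option autoImplicit false

open MeasureTheory Filter Topology Set Metric
open scoped ENNReal RealInnerProductSpace

namespace Pool.Agent.MP_f6c0e6_an.Gen.Wie

section WReg1

open WA

variable {m N s : ℕ}

/-- submultiplicative weights -/
structure Adm (ω : Zm m → ℝ) : Prop where
  one_le : ∀ k, 1 ≤ ω k
  sub : ∀ k l, ω k ≤ ω (k - l) * ω l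

/-- the weight of order `j` at frequency scale `1 / r` -/
noncomputable def wl (r : ℝ) (j : ℕ) (k : Zm m) : ℝ := (1 + r * ‖kv k‖) ^ j

/-- the series of `u` converges with the weight of order `j` -/
def Reg (j : ℕ) (u : WA m s) : Prop := Summable fun k => br k ^ j * ‖u.c k‖

theorem adm_wl {r : ℝ} (hr : 0 ≤ r) (j : ℕ) : Adm (wl r j : Zm m → ℝ) := by
  refine ⟨fun k => one_le_pow₀ (by have := mul_nonneg hr (norm_nonneg (kv k)); linarith),
    fun k l => ?_⟩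
  unfold wl
  rw [← mul_pow]
  have h1 : ‖kv k‖ ≤ ‖kv (k - l)‖ + ‖kv l‖ := by
    rw [kv_sub]
    simpa using norm_add_le (kv k - kv l) (kv l)
  have h2 := mul_nonneg hr (norm_nonneg (kv (k - l)))
  have h3 := mul_nonneg hr (norm_nonneg (kv l))
  have h4 := mul_le_mul_of_nonneg_left h1 hr
  refine pow_le_pow_left₀ (by have := mul_nonneg hr (norm_nonneg (kv k)); linarith) ?_ j
  nlinarith only [h4, h2, h3, mul_nonneg h2 h3]

theorem Adm.min {ω : Zm m → ℝ} (h : Adm ω) {R : ℝ} (hR : 1 ≤ R) : Adm fun k => min (ω k) R := by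
  refine ⟨fun k => le_min (h.one_le k) hR, fun k l => ?_⟩
  have h1 := h.one_le (k - l)
  have h2 := h.one_le l
  rcases le_total (ω (k - l)) R with ha | ha <;> rcases le_total (ω l) R with hb | hb
  · rw [min_eq_left ha, min_eq_left hb]
    exact (min_le_left _ _).trans (h.sub k l)
  · rw [min_eq_left ha, min_eq_right hb]
    exact (min_le_right _ _).trans (by nlinarith only [h1, hR])
  · rw [min_eq_right ha, min_eq_left hb]
    exact (min_le_right _ _).trans (by nlinarith only [h2, hR])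
  · rw [min_eq_right ha, min_eq_right hb]
    exact (min_le_right _ _).trans (by nlinarith)

section Norm

variable {ω : Zm m → ℝ} {u v : WA m s} {A B : ℝ}

theorem Adm.add (h : Adm ω) (hu : S1 ω u.c A) (hv : S1 ω v.c B) : S1 ω (u + v).c (A + B) := by
  have e : (u + v).c = fun k => u.c k + v.c k := funext (add_c u v)
  rw [e]
  exact hu.add hv fun k => zero_le_one.trans (h.one_le k)

theorem Adm.sub' (h : Adm ω) (hu : S1 ω u.c A) (hv : S1 ω v.c B) : S1 ω (u - v).c (A + B) := by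
  have e : (u - v).c = fun k => u.c k + -v.c k :=
    funext fun k => by rw [sub_c, sub_eq_add_neg]
  rw [e]
  refine hu.add (fun F => ?_) fun k => zero_le_one.trans (h.one_le k)
  simpa only [norm_neg] using hv F

theorem Adm.neg (hu : S1 ω u.c A) : S1 ω (-u).c A := by
  intro F
  simpa only [neg_c, norm_neg] using hu F

theorem Adm.mul (h : Adm ω) (hu : S1 ω u.c A) (hv : S1 ω v.c B) : S1 ω (u * v).c (A * B) := by
  rw [mul_c]
  exact S1.cnv h.one_le h.sub hu hv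

theorem Adm.sum (h : Adm ω) {ι : Type*} (I : Finset ι) {u : ι → WA m s} {A : ι → ℝ}
    (hu : ∀ i ∈ I, S1 ω (u i).c (A i)) : S1 ω (∑ i ∈ I, u i).c (∑ i ∈ I, A i) := by
  classical
  induction I using Finset.induction_on with
  | empty =>
    intro F
    simp [zero_c]
  | insert a I ha ih =>
    rw [Finset.sum_insert ha, Finset.sum_insert ha]
    exact h.add (hu a (Finset.mem_insert_self _ _))
      (ih fun i hi => hu i (Finset.mem_insert_of_mem hi))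

/-- `|k i * k j| ≤ ‖kv k‖ ^ 2` -/
theorem Adm.d2 (h : Adm ω) {u : WA m (s + 2)} (hu : S1 ω (lp2 u).c A) (i j : Fin m) :
    S1 ω (d2 i j u).c A := by
  have h1 := hu.of_le (ω' := ω) (a := (WA.d2 i j u).c) zero_le_one fun k => by
    rw [one_mul, d2_c, lp2_c, norm_mul, norm_mul, Complex.norm_real, Complex.norm_real,
      Real.norm_eq_abs, Real.norm_eq_abs, abs_neg, abs_neg, abs_mul, abs_of_nonneg (sq_nonneg ‖kv k‖)]
    refine mul_le_mul_of_nonneg_left (mul_le_mul_of_nonneg_right ?_ (norm_nonneg _))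
      (zero_le_one.trans (h.one_le k))
    rw [sq]
    exact mul_le_mul (abs_le_norm_kv k i) (abs_le_norm_kv k j) (abs_nonneg _) (norm_nonneg _)
  rwa [one_mul] at h1

end Norm

section Reg

variable {j j' : ℕ} {u v : WA m s}

theorem Reg.self (u : WA m s) : Reg s u := u.summable

theorem Reg.exists_s1 (h : Reg j u) : ∃ M, S1 (fun k => br k ^ j) u.c M :=
  ⟨_, S1.of_summable (br_pow_nonneg j) h⟩

theorem Reg.of_s1 {M : ℝ} (h : S1 (fun k => br k ^ j) u.c M) : Reg j u :=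
  (h.summable (br_pow_nonneg j)).1

theorem WReg1_adm (j : ℕ) : Adm fun k : Zm m => br k ^ j :=
  ⟨one_le_br_pow j, br_pow_le_mul j⟩

theorem Reg.mono (h : Reg j u) (hj : j' ≤ j) : Reg j' u := by
  obtain ⟨M, hM⟩ := h.exists_s1
  exact Reg.of_s1 (hM.mono (fun k => pow_le_pow_right₀ (one_le_br k) hj) le_rfl)

theorem Reg.add (hu : Reg j u) (hv : Reg j v) : Reg j (u + v) := by
  obtain ⟨A, hA⟩ := hu.exists_s1
  obtain ⟨B, hB⟩ := hv.exists_s1
  exact Reg.of_s1 ((WReg1_adm j).add hA hB)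

theorem Reg.mul (hu : Reg j u) (hv : Reg j v) : Reg j (u * v) := by
  obtain ⟨A, hA⟩ := hu.exists_s1
  obtain ⟨B, hB⟩ := hv.exists_s1
  exact Reg.of_s1 ((WReg1_adm j).mul hA hB)

theorem Reg.sum {ι : Type*} (I : Finset ι) {u : ι → WA m s} (h : ∀ i ∈ I, Reg j (u i)) :
    Reg j (∑ i ∈ I, u i) := by
  exact Reg.of_s1 ((WReg1_adm j).sum I (A := fun i => ∑' k, br k ^ j * ‖(u i).c k‖)
    fun i hi => S1.of_summable (br_pow_nonneg j) (h i hi))

theorem Reg.one_apply (j : ℕ) (i i' : Fin m) :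
    Reg j ((1 : Matrix (Fin m) (Fin m) (WA m s)) i i') := by
  classical
  refine summable_of_ne_finset_zero (s := {0}) fun k hk => ?_
  have hk0 : k ≠ 0 := by simpa using hk
  by_cases hi : i = i'
  · rw [hi, Matrix.one_apply_eq, one_c, if_neg hk0, norm_zero, mul_zero]
  · rw [Matrix.one_apply_ne hi, zero_c, norm_zero, mul_zero]

theorem Reg.d0 {u : WA m (s + 2)} (h : Reg j u) : Reg j (d0 u) := by
  unfold Reg at h ⊢
  simpa only [d0_c] using h

theorem Reg.d1 {u : WA m (s + 2)} (h : Reg (j + 1) u) (i : Fin m) : Reg j (d1 i u) := by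
  obtain ⟨M, hM⟩ := h.exists_s1
  refine Reg.of_s1 (hM.of_le (C := 1) zero_le_one fun k => ?_)
  rw [one_mul, d1_c, norm_mul, norm_mul, Complex.norm_I, one_mul, Complex.norm_real,
    Real.norm_eq_abs, pow_succ, mul_assoc]
  exact mul_le_mul_of_nonneg_left
    (mul_le_mul_of_nonneg_right (abs_le_br k i) (norm_nonneg _)) (br_pow_nonneg j k)

theorem Reg.d2 {u : WA m (s + 2)} (h : Reg (j + 2) u) (i i' : Fin m) : Reg j (d2 i i' u) := by
  obtain ⟨M, hM⟩ := h.exists_s1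
  refine Reg.of_s1 (hM.of_le (C := 1) zero_le_one fun k => ?_)
  rw [one_mul, d2_c, norm_mul, Complex.norm_real, Real.norm_eq_abs, abs_neg, abs_mul, pow_add,
    mul_assoc (br k ^ j), sq]
  exact mul_le_mul_of_nonneg_left (mul_le_mul_of_nonneg_right
    (mul_le_mul (abs_le_br k i) (abs_le_br k i') (abs_nonneg _) (br_pos k).le)
    (norm_nonneg (u.c k))) (br_pow_nonneg j k)

/-- `lp2_c`, `br_sq_le`; the term `k = 0` does not matter -/
theorem Reg.of_lp2 {u : WA m (s + 2)} (h : Reg j (lp2 u)) : Reg (j + 2) u := by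
  classical
  have h1 : Summable fun k : Zm m => if k = 0 then ‖u.c 0‖ else 0 :=
    summable_of_ne_finset_zero (s := {0}) fun k hk => if_neg (by simpa using hk)
  unfold Reg at h ⊢
  refine Summable.of_nonneg_of_le (fun k => mul_nonneg (br_pow_nonneg _ k) (norm_nonneg (u.c k)))
    (fun k => ?_) ((Summable.mul_left 4 h).add h1)
  by_cases hk : k = 0
  · subst hk
    have := mul_nonneg (br_pow_nonneg j (0 : Zm m)) (norm_nonneg ((lp2 u).c 0))
    rw [if_pos rfl, br_zero, one_pow, one_mul]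
    rw [br_zero] at this
    linarith
  · rw [if_neg hk, add_zero, lp2_c, norm_mul, Complex.norm_real, Real.norm_eq_abs, abs_neg,
      abs_of_nonneg (sq_nonneg ‖kv k‖), pow_add]
    have h2 := mul_le_mul_of_nonneg_left
      (mul_le_mul_of_nonneg_right (br_sq_le hk) (norm_nonneg (u.c k))) (br_pow_nonneg j k)
    linarith

theorem WReg1_wl_le {r : ℝ} (h0 : 0 ≤ r) (h1 : r ≤ 1) (j : ℕ) (k : Zm m) :
    wl r j k ≤ br k ^ j := by
  have h2 := mul_nonneg h0 (norm_nonneg (kv k))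
  have h3 := mul_le_mul_of_nonneg_right h1 (norm_nonneg (kv k))
  unfold wl br
  exact pow_le_pow_left₀ (by linarith) (by linarith) j

/-- `wl r j k ≤ br k ^ j` -/
theorem Reg.exists_wl (h : Reg j u) {r : ℝ} (h0 : 0 ≤ r) (h1 : r ≤ 1) :
    ∃ M, S1 (wl r j) u.c M := by
  obtain ⟨M, hM⟩ := h.exists_s1
  exact ⟨M, hM.mono (WReg1_wl_le h0 h1 j) le_rfl⟩

/-- `br k ^ j ≤ r⁻¹ ^ j * wl r j k` -/
theorem Reg.of_wl {r M : ℝ} (h0 : 0 < r) (h1 : r ≤ 1) (h : S1 (wl r j) u.c M) : Reg j u := by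
  refine Reg.of_s1 (h.of_le (C := r⁻¹ ^ j) (by positivity) fun k => ?_)
  rw [← mul_assoc]
  refine mul_le_mul_of_nonneg_right ?_ (norm_nonneg _)
  unfold wl
  rw [← mul_pow]
  refine pow_le_pow_left₀ (br_pos k).le ?_ j
  have h2 : 1 ≤ r⁻¹ := (one_le_inv₀ h0).2 h1
  rw [mul_add, mul_one, ← mul_assoc, inv_mul_cancel₀ h0.ne', one_mul]
  unfold br
  linarith

/-- dominated convergence (`tendsto_tsum_of_dominated_convergence`) -/
theorem Reg.small (h : Reg j u) {M η : ℝ} (hM : S1 (fun _ => 1) u.c M) (hη : 0 < η) :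
    ∀ᶠ r in 𝓝[>] (0 : ℝ), S1 (wl r j) u.c (M + η) := by
  have h1 : Tendsto (fun r : ℝ => ∑' k, wl r j k * ‖u.c k‖) (𝓝[>] 0)
      (𝓝 (∑' k, 1 * ‖u.c k‖)) := by
    refine tendsto_tsum_of_dominated_convergence (bound := fun k => br k ^ j * ‖u.c k‖) h
      (fun k => ?_) ?_
    · have hc : Continuous fun r : ℝ => wl r j k * ‖u.c k‖ := by
        unfold wl
        fun_prop
      have h2 := (hc.tendsto 0).mono_left (nhdsWithin_le_nhds (s := Ioi (0 : ℝ)))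
      simpa [wl] using h2
    · filter_upwards [Ioc_mem_nhdsGT (zero_lt_one' ℝ)] with r hr k
      rw [Real.norm_eq_abs, abs_of_nonneg (mul_nonneg
        (zero_le_one.trans ((adm_wl hr.1.le j).one_le k)) (norm_nonneg _))]
      exact mul_le_mul_of_nonneg_right (WReg1_wl_le hr.1.le hr.2 j k) (norm_nonneg _)
  have h2 : ∑' k, 1 * ‖u.c k‖ < M + η := by
    have := (hM.summable fun _ => zero_le_one).2
    linarith
  filter_upwards [h1.eventually (gt_mem_nhds h2), Ioc_mem_nhdsGT (zero_lt_one' ℝ)] with r hr hr'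
  obtain ⟨M', hM'⟩ := h.exists_wl hr'.1.le hr'.2
  have h0 : ∀ k : Zm m, 0 ≤ wl r j k := fun k => zero_le_one.trans ((adm_wl hr'.1.le j).one_le k)
  exact (S1.of_summable h0 (hM'.summable h0).1).mono (fun _ => le_rfl) hr.le

theorem Reg.contDiff {u : VW m N s} (h : ∀ α, Reg j (u α)) : ContDiff ℝ j (vec u) := by
  choose M hM using fun α => (h α).exists_s1
  exact (wn_vec_of_s1 u (M := ∑ α, M α) fun α => (hM α).mono (fun _ => le_rfl)
    (Finset.single_le_sum (fun β _ => (hM β).nonneg) (Finset.mem_univ α))).cb.smooth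

end Reg

/-- For `R ≥ 1` the weight `min ω R` is admissible and bounded, so the norms of the `h i` are
finite, and `absorb` (index set `ι × Finset (Zm m)`) applies. For a given finite set take `R`
larger than the values of `ω` on it. -/
theorem bootstrap {ι : Type*} [Fintype ι] (h : ι → WA m s) {ω : Zm m → ℝ} (hω : Adm ω) {T : ℝ}
    (H : ∀ ω' : Zm m → ℝ, Adm ω' → (∀ k, ω' k ≤ ω k) → ∀ M, (∀ i, S1 ω' (h i).c M) →
      ∀ i, S1 ω' (h i).c (M / 2 + T)) (i : ι) : S1 ω (h i).c (2 * T) := by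
  intro F
  have hR : 1 ≤ 1 + ∑ k ∈ F, ω k := by
    have : 0 ≤ ∑ k ∈ F, ω k := Finset.sum_nonneg fun k _ => zero_le_one.trans (hω.one_le k)
    linarith
  set R := 1 + ∑ k ∈ F, ω k with hRdef
  have hb : ∀ i, S1 (fun k => min (ω k) R) (h i).c (R * ∑ i, ‖h i‖) := fun i =>
    ((h i).s1.of_le (C := R) (by linarith) fun k => by
      rw [← mul_assoc]
      refine mul_le_mul_of_nonneg_right ((min_le_right _ _).trans ?_) (norm_nonneg _)
      have := one_le_br_pow s k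
      nlinarith).mono (fun _ => le_rfl) (mul_le_mul_of_nonneg_left
        (Finset.single_le_sum (f := fun i => ‖h i‖) (fun _ _ => norm_nonneg _) (Finset.mem_univ i))
        (by linarith))
  have h1 := absorb (fun p : ι × Finset (Zm m) => ∑ k ∈ p.2, min (ω k) R * ‖(h p.1).c k‖)
    (M₀ := R * ∑ i, ‖h i‖) (T := T) (fun p => hb p.1 p.2)
    (fun M hM p => H _ (hω.min hR) (fun k => min_le_left _ _) M (fun i G => hM (i, G)) p.1 p.2)
    (i, F)
  refine le_trans (le_of_eq (Finset.sum_congr rfl fun k hk => ?_)) h1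
  rw [min_eq_left]
  have := Finset.single_le_sum (f := ω) (fun l _ => zero_le_one.trans (hω.one_le l)) hk
  linarith

end WReg1

section WReg2a

open WA

variable {m N : ℕ}

theorem WReg2a_adm_one : Adm (fun _ : Zm m => (1 : ℝ)) :=
  ⟨fun _ => le_rfl, fun _ _ => by norm_num⟩

/-- the algebraic identity for the localised inverse metric -/
theorem WReg2a_alg {R : Type*} [CommRing R] (G A : Matrix (Fin m) (Fin m) R)
    (h : (1 + G) * A = 1) (χ₁ χ₂ : R) (hχ : χ₂ * χ₁ = χ₂) (i i' : Fin m) :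
    χ₂ * (A i i' - (1 : Matrix (Fin m) (Fin m) R) i i') =
      -(χ₂ * (χ₁ * χ₁ * G i i')) -
        ∑ l, (χ₁ * χ₁ * G i l) * (χ₂ * (A l i' - (1 : Matrix (Fin m) (Fin m) R) l i')) := by
  have h1 : A - 1 = -G - G * (A - 1) := by
    have h2 : A + G * A = 1 := by rw [← h, add_mul, one_mul]
    rw [mul_sub, mul_one, ← h2]
    abel
  have h3 : A i i' - (1 : Matrix (Fin m) (Fin m) R) i i' =
      -G i i' - ∑ l, G i l * (A l i' - (1 : Matrix (Fin m) (Fin m) R) l i') := by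
    have h4 := congrFun (congrFun h1 i) i'
    simpa only [Matrix.sub_apply, Matrix.neg_apply, Matrix.mul_apply] using h4
  have h5 : χ₂ * (χ₁ * χ₁) = χ₂ := by rw [← mul_assoc, hχ, hχ]
  have h6 : ∀ l, (χ₁ * χ₁ * G i l) * (χ₂ * (A l i' - (1 : Matrix (Fin m) (Fin m) R) l i')) =
      χ₂ * (G i l * (A l i' - (1 : Matrix (Fin m) (Fin m) R) l i')) := by
    intro l
    calc (χ₁ * χ₁ * G i l) * (χ₂ * (A l i' - (1 : Matrix (Fin m) (Fin m) R) l i'))
        = (χ₂ * (χ₁ * χ₁)) * (G i l * (A l i' - (1 : Matrix (Fin m) (Fin m) R) l i')) := by ring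
      _ = _ := by rw [h5]
  simp only [h6]
  rw [← Finset.mul_sum, ← mul_assoc χ₂ (χ₁ * χ₁), h5]
  conv_lhs => rw [h3]
  ring

/-- Let `χ₁`, `χ₂` be the functions of `exists_cut_ball` (order `s`) with radii `ρ / 3`, `ρ / 9`
and `c₀ = 2 ^ m * ccut m 0`. Put `p i α = χ₁ * d1 i (W α) = χ₁ * d1 i (w α)` (`ext_box`,
`jet_congr`), `S i l = ∑ α, p i α * p l α`, `B i i' = χ₂ * (aM w i i' - 1 i i')`. Then `S` is
`Reg j` with norm of order zero at most `N c₀² ε²`. From `gM w * aM w = 1` and `χ₂ χ₁ = χ₂`: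
`B i i' = - χ₂ * S i i' - ∑ l, S i l * B l i'`. Choose `r` by `Reg.small` (for `χ₂` and all
`S i l`) and apply `bootstrap`. -/
theorem reg_coef (m N s : ℕ) (hm : 1 ≤ m) {θ : ℝ} (hθ : 0 < θ) : ∃ ε : ℝ, 0 < ε ∧
    ∀ (w W : VW m N (s + 2)) (j : ℕ) (x₀ : E m) (ρ : ℝ), ‖w‖ ≤ ε → IsUnit (gM w).det → 0 < ρ →
    ρ ≤ 1 → ball x₀ ρ ⊆ ball 0 1 → (∀ ξ ∈ ball x₀ ρ, vec W ξ = vec w ξ) →
    (∀ α, Reg (j + 1) (W α)) →
    ∃ (r : ℝ) (B : Fin m → Fin m → WA m s), 0 < r ∧ r ≤ 1 ∧ (∀ i i', S1 (wl r j) (B i i').c θ) ∧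
      ∀ ξ ∈ ball x₀ (ρ / 9), ∀ i i',
        (B i i').f ξ = (aM w i i' - (1 : Matrix (Fin m) (Fin m) (WA m s)) i i').f ξ := by
  set c₀ : ℝ := 2 ^ m * ccut m 0 with hc₀
  have hc1 : 1 ≤ c₀ := by
    have h1 : (1 : ℝ) ≤ 2 ^ m := one_le_pow₀ (by norm_num)
    have h2 := one_le_ccut m 0
    nlinarith only [h1, h2]
  have hmpos : (0 : ℝ) < m := by exact_mod_cast hm
  obtain ⟨σ, hσ, hσ1, hσ2⟩ : ∃ σ : ℝ, 0 < σ ∧ m * σ ≤ 1 / 2 ∧ 2 * ((c₀ + 1) * σ) ≤ θ := by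
    refine ⟨min (1 / (2 * (m : ℝ))) (θ / (2 * (c₀ + 1))), by positivity, ?_, ?_⟩
    · calc (m : ℝ) * min (1 / (2 * (m : ℝ))) (θ / (2 * (c₀ + 1))) ≤ m * (1 / (2 * (m : ℝ))) := by
            gcongr
            exact min_le_left _ _
        _ = 1 / 2 := by field_simp
    · calc 2 * ((c₀ + 1) * min (1 / (2 * (m : ℝ))) (θ / (2 * (c₀ + 1)))) ≤
            2 * ((c₀ + 1) * (θ / (2 * (c₀ + 1)))) := by
            gcongr
            exact min_le_right _ _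
        _ = θ := by field_simp
  obtain ⟨ε, hε, hε1⟩ : ∃ ε : ℝ, 0 < ε ∧ N * ((c₀ * ε) * (c₀ * ε)) ≤ σ / 2 := by
    refine ⟨min 1 (σ / (2 * (N + 1) * c₀ ^ 2)), by positivity, ?_⟩
    set e : ℝ := min 1 (σ / (2 * (N + 1) * c₀ ^ 2)) with he
    have he0 : 0 < e := by positivity
    have he1 : e ≤ 1 := min_le_left _ _
    have he2 : e ≤ σ / (2 * (N + 1) * c₀ ^ 2) := min_le_right _ _
    rw [le_div_iff₀ (by positivity)] at he2
    have hN : (0 : ℝ) ≤ N := Nat.cast_nonneg N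
    have h3 : (N : ℝ) * ((c₀ * e) * (c₀ * e)) ≤ (N + 1) * (c₀ ^ 2 * e) := by
      have h4 : (c₀ * e) * (c₀ * e) ≤ c₀ ^ 2 * e := by
        have : (c₀ * e) * (c₀ * e) = (c₀ ^ 2 * e) * e := by ring
        rw [this]
        exact mul_le_of_le_one_right (by positivity) he1
      gcongr
      linarith only []
    nlinarith only [he2, h3]
  refine ⟨ε, hε, ?_⟩
  intro w W j x₀ ρ hw hu hρ hρ1 hball hvec hW
  obtain ⟨χ₁, h1r, h1s, h1v⟩ := exists_cut_ball hm s (ρ := ρ / 3) (x₀ := x₀) (by positivity)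
    (by linarith only [hρ1]) (by rwa [show 3 * (ρ / 3) = ρ by ring])
  obtain ⟨χ₂, h2r, h2s, h2v⟩ := exists_cut_ball hm s (ρ := ρ / 9) (x₀ := x₀) (by positivity)
    (by linarith only [hρ1]) ((ball_subset_ball (by linarith only [hρ])).trans hball)
  rw [show 3 * (ρ / 3) = ρ by ring] at h1v
  rw [show 3 * (ρ / 9) = ρ / 3 by ring] at h2v
  have hχ : χ₂ * χ₁ = χ₂ := by
    refine ext_box fun x hx => ?_
    by_cases h0 : χ₂.f x = 0
    · simp [h0]
    · simp [(h1v x hx).1 ((h2v x hx).2 h0)]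
  have hp : ∀ i α, χ₁ * d1 i (W α) = χ₁ * d1 i (w α) := by
    intro i α
    refine ext_box fun x hx => ?_
    by_cases h0 : χ₁.f x = 0
    · simp [h0]
    · have hx' := (h1v x hx).2 h0
      have hev : (W α).f =ᶠ[𝓝 x] (w α).f := by
        filter_upwards [isOpen_ball.mem_nhds hx'] with y hy
        rw [← vec_apply, ← vec_apply, hvec y hy]
      simp only [mul_f, (jet_congr hev).2.1 i]
  set G : Matrix (Fin m) (Fin m) (WA m s) :=
    Matrix.of fun i l => ∑ α, d1 i (w α) * d1 l (w α) with hG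
  have hS : ∀ i l, χ₁ * χ₁ * G i l = ∑ α, (χ₁ * d1 i (w α)) * (χ₁ * d1 l (w α)) := by
    intro i l
    simp only [hG, Matrix.of_apply, Finset.mul_sum]
    exact Finset.sum_congr rfl fun α _ => by ring
  have hSreg : ∀ i l, Reg j (χ₁ * χ₁ * G i l) := by
    intro i l
    rw [hS]
    refine Reg.sum _ fun α _ => ?_
    rw [← hp, ← hp]
    exact Reg.mul (Reg.mul (h1r j) (Reg.d1 (hW α) i)) (Reg.mul (h1r j) (Reg.d1 (hW α) l))
  have hp1 : ∀ i α, S1 (fun _ => 1) (χ₁ * d1 i (w α)).c (c₀ * ε) := by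
    intro i α
    refine WReg2a_adm_one.mul h1s ((d1 i (w α)).s1.mono (fun k => one_le_br_pow s k) ?_)
    exact (norm_d1_le i _).trans ((norm_le_pi_norm w α).trans hw)
  have hS1 : ∀ i l, S1 (fun _ => 1) (χ₁ * χ₁ * G i l).c (σ / 2) := by
    intro i l
    rw [hS]
    have h := WReg2a_adm_one.sum Finset.univ
      (u := fun α => (χ₁ * d1 i (w α)) * (χ₁ * d1 l (w α)))
      (A := fun _ => (c₀ * ε) * (c₀ * ε)) fun α _ => WReg2a_adm_one.mul (hp1 i α) (hp1 l α)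
    refine h.mono (fun _ => le_rfl) ?_
    simpa using hε1
  have hev : ∀ᶠ r in 𝓝[>] (0 : ℝ), (0 < r ∧ r ≤ 1) ∧ S1 (wl r j) χ₂.c (c₀ + 1) ∧
      ∀ i l, S1 (wl r j) (χ₁ * χ₁ * G i l).c (σ / 2 + σ / 2) := by
    refine Filter.Eventually.and ?_ (Filter.Eventually.and ?_ ?_)
    · exact Ioc_mem_nhdsGT zero_lt_one
    · exact Reg.small (u := χ₂) (h2r j) h2s zero_lt_one
    · rw [Filter.eventually_all]
      intro i
      rw [Filter.eventually_all]
      intro l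
      exact Reg.small (hSreg i l) (hS1 i l) (by positivity)
  obtain ⟨r, ⟨hr0, hr1⟩, hr2, hr3⟩ := hev.exists
  refine ⟨r, fun i i' => χ₂ * (aM w i i' - (1 : Matrix (Fin m) (Fin m) (WA m s)) i i'),
    hr0, hr1, ?_, ?_⟩
  · intro i i'
    have hinv : (1 + G) * aM w = 1 := Matrix.mul_nonsing_inv _ hu
    have hb := bootstrap (ι := Fin m × Fin m)
      (fun q => χ₂ * (aM w q.1 q.2 - (1 : Matrix (Fin m) (Fin m) (WA m s)) q.1 q.2))
      (adm_wl hr0.le j) (T := (c₀ + 1) * σ) ?_ (i, i')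
    · exact hb.mono (fun _ => le_rfl) hσ2
    intro ω' hω' hle M hM q
    have hM0 : 0 ≤ M := (hM q).nonneg
    have hS' : ∀ i l, S1 ω' (χ₁ * χ₁ * G i l).c σ := fun i l =>
      (hr3 i l).mono hle (by linarith only [])
    have hχ' : S1 ω' χ₂.c (c₀ + 1) := hr2.mono hle le_rfl
    have e := WReg2a_alg G (aM w) hinv χ₁ χ₂ hχ q.1 q.2
    show S1 ω' (χ₂ * (aM w q.1 q.2 - (1 : Matrix (Fin m) (Fin m) (WA m s)) q.1 q.2)).c _
    rw [e]
    have h := hω'.sub' (Adm.neg (hω'.mul hχ' (hS' q.1 q.2)))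
      (hω'.sum Finset.univ
        (u := fun l => (χ₁ * χ₁ * G q.1 l) *
          (χ₂ * (aM w l q.2 - (1 : Matrix (Fin m) (Fin m) (WA m s)) l q.2)))
        (A := fun _ => σ * M) fun l _ => hω'.mul (hS' q.1 l) (hM (l, q.2)))
    refine h.mono (fun _ => le_rfl) ?_
    simp only [Finset.sum_const, Finset.card_univ, Fintype.card_fin, nsmul_eq_mul]
    nlinarith only [hσ1, hM0]
  · intro ξ hξ i i'
    have hξ1 : ξ ∈ box m :=
      ball_subset_box m (ball_subset_ball (by norm_num)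
        (hball (ball_subset_ball (by linarith only [hρ]) hξ)))
    simp only [mul_f, (h2v ξ hξ1).1 hξ, one_mul]

end WReg2a

section WReg2

open WA

variable {m N : ℕ}

/-- the pointwise identity -/
theorem WReg2_id {s : ℕ} (χ u U : WA m (s + 2)) (B a : Fin m → Fin m → WA m s) (x : E m)
    (h : (u.f =ᶠ[𝓝 x] U.f ∧ (∑ i, ∑ i', a i i' * d2 i i' u).f x = 0 ∧ ∀ i i',
      (B i i').f x = (a i i' - (1 : Matrix (Fin m) (Fin m) (WA m s)) i i').f x) ∨
      χ.f =ᶠ[𝓝 x] fun _ => 0) :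
    (lp2 (χ * u)).f x =
      ((∑ i, ∑ i', ((1 : Matrix (Fin m) (Fin m) (WA m s)) i i' + B i i') *
        (d2 i i' χ * d0 U + d1 i χ * d1 i' U + d1 i' χ * d1 i U)) -
        ∑ i, ∑ i', B i i' * d2 i i' (χ * u)).f x := by
  have h1 : (lp2 (χ * u)).f x =
      ∑ i, ∑ i', ((1 : Matrix (Fin m) (Fin m) (WA m s)) i i').f x * (d2 i i' (χ * u)).f x := by
    rw [lp2_apply, sum_f]
    refine Finset.sum_congr rfl fun i _ => ?_
    rw [Finset.sum_eq_single i]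
    · simp
    · intro b _ hb
      rw [Matrix.one_apply_ne hb.symm]
      simp
    · simp
  rw [h1]
  rcases h with ⟨hu, hM, hB⟩ | h0
  · obtain ⟨j0, j1, -⟩ := jet_congr hu
    simp only [sum_f, mul_f] at hM
    have h2 : (d0 χ).f x * ∑ i, ∑ i', (a i i').f x * (d2 i i' u).f x = 0 := by rw [hM, mul_zero]
    simp only [sub_f, sum_f, mul_f, add_f, d2_mul, hB, ← j0, ← j1]
    rw [← sub_eq_zero, ← h2]
    simp only [Finset.mul_sum, ← Finset.sum_sub_distrib]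
    refine Finset.sum_congr rfl fun i _ => Finset.sum_congr rfl fun i' _ => ?_
    ring
  · obtain ⟨j0, j1, j2⟩ := jet_congr (u := χ) (v := 0) h0
    simp only [map_zero, zero_f] at j0 j1 j2
    simp only [sub_f, sum_f, mul_f, add_f, d2_mul, j0, j1, j2]
    simp

/-- Take `θ` with `m² θ ≤ 1 / 2`, `B` from `reg_coef`, `χ` from `exists_cut_ball` (order `s + 2`)
with radius `ρ / 36`, `W' α = χ * w α` and
`G α = ∑ i i', (1 i i' + B i i') * (d2 i i' χ * d0 (W α) + d1 i χ * d1 i' (W α) + d1 i' χ * d1 i (W α))`,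
which is `Reg j`. Then `lp2 (W' α) = G α - ∑ i i', B i i' * d2 i i' (W' α)` by `ext_box`: in
`ball x₀ (ρ / 9)` use `d2_mul`, `minAt_iff`, `jet_congr`; outside this ball `χ` vanishes near the
point, so the jets of `χ` and of `W' α` vanish (`jet_congr` with `0`). Apply `bootstrap` to the
single element `lp2 (W' α)` (`Adm.d2`), then `Reg.of_wl`, `Reg.of_lp2`. -/
theorem reg_step (m N s : ℕ) (hm : 1 ≤ m) : ∃ ε : ℝ, 0 < ε ∧
    ∀ (w W : VW m N (s + 2)) (j : ℕ) (x₀ : E m) (ρ : ℝ), ‖w‖ ≤ ε → IsUnit (gM w).det → 0 < ρ →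
    ρ ≤ 1 → ball x₀ ρ ⊆ ball 0 1 → (∀ ξ ∈ ball x₀ ρ, MinAt (vec w) ξ) →
    (∀ ξ ∈ ball x₀ ρ, vec W ξ = vec w ξ) → (∀ α, Reg (j + 1) (W α)) →
    ∃ W' : VW m N (s + 2), (∀ ξ ∈ ball x₀ (ρ / 36), vec W' ξ = vec w ξ) ∧
      ∀ α, Reg (j + 2) (W' α) := by
  have hm0 : (0 : ℝ) < m := by exact_mod_cast hm
  obtain ⟨ε, hε, H⟩ := reg_coef m N s hm (θ := 1 / (2 * (m * m))) (by positivity)
  refine ⟨ε, hε, fun w W j x₀ ρ hw hu h0 h1 hb hmin hW hR => ?_⟩
  obtain ⟨r, B, hr0, hr1, hB, hBf⟩ := H w W j x₀ ρ hw hu h0 h1 hb hW hR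
  obtain ⟨χ, hχ, -, hχf⟩ := exists_cut_ball hm (s + 2) (ρ := ρ / 36) (x₀ := x₀) (by positivity)
    (by linarith only [h1]) ((ball_subset_ball (by linarith)).trans hb)
  have hbox : ball x₀ ρ ⊆ box m :=
    hb.trans ((ball_subset_ball (by norm_num)).trans (ball_subset_box m))
  refine ⟨fun α => χ * w α, fun ξ hξ => ?_, fun α => ?_⟩
  · ext α
    rw [vec_apply, vec_apply, mul_f, (hχf ξ (hbox (ball_subset_ball (by linarith) hξ))).1 hξ,
      one_mul]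
  have hχR : ∀ j, Reg j χ := hχ
  have hG : Reg j (∑ i, ∑ i', ((1 : Matrix (Fin m) (Fin m) (WA m s)) i i' + B i i') *
      (d2 i i' χ * d0 (W α) + d1 i χ * d1 i' (W α) + d1 i' χ * d1 i (W α))) :=
    Reg.sum _ fun i _ => Reg.sum _ fun i' _ =>
      ((Reg.one_apply j i i').add (Reg.of_wl hr0 hr1 (hB i i'))).mul
        (((((hχR _).d2 i i').mul ((hR α).mono (Nat.le_succ j)).d0).add
          (((hχR _).d1 i).mul ((hR α).d1 i'))).add (((hχR _).d1 i').mul ((hR α).d1 i)))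
  obtain ⟨T, hT⟩ := hG.exists_wl hr0.le hr1
  have hid : lp2 (χ * w α) =
      (∑ i, ∑ i', ((1 : Matrix (Fin m) (Fin m) (WA m s)) i i' + B i i') *
        (d2 i i' χ * d0 (W α) + d1 i χ * d1 i' (W α) + d1 i' χ * d1 i (W α))) -
        ∑ i, ∑ i', B i i' * d2 i i' (χ * w α) := by
    refine ext_box fun x hx => WReg2_id χ (w α) (W α) B (aM w) x ?_
    by_cases hx9 : x ∈ ball x₀ (ρ / 9)
    · have hx1 : x ∈ ball x₀ ρ := ball_subset_ball (by linarith only [h0]) hx9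
      refine Or.inl ⟨?_, (minAt_iff hu x).1 (hmin x hx1) α, hBf x hx9⟩
      filter_upwards [isOpen_ball.mem_nhds hx1] with y hy
      rw [← vec_apply w y α, ← vec_apply W y α, hW y hy]
    · right
      have hx2 : x ∈ (closedBall x₀ (3 * (ρ / 36)))ᶜ := fun h =>
        hx9 (closedBall_subset_ball (by linarith only [h0]) h)
      filter_upwards [(isOpen_box m).mem_nhds hx, isClosed_closedBall.isOpen_compl.mem_nhds hx2]
        with y hy hy2
      by_contra h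
      exact hy2 (ball_subset_closedBall ((hχf y hy).2 h))
  have hb := bootstrap (fun _ : Unit => lp2 (χ * w α)) (adm_wl hr0.le j) (T := T)
    (fun ω' hω' hle M hM _ => by
      have hM' := hM ()
      have h2 := hω'.sub' (hT.mono hle le_rfl) (hω'.sum Finset.univ fun i _ =>
        hω'.sum Finset.univ fun i' _ => hω'.mul ((hB i i').mono hle le_rfl) (hω'.d2 hM' i i'))
      rw [← hid] at h2
      refine h2.mono (fun _ => le_rfl) (le_of_eq ?_)
      simp only [Finset.sum_const, Finset.card_univ, Fintype.card_fin, nsmul_eq_mul]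
      field_simp
      ring) ()
  exact Reg.of_lp2 (Reg.of_wl hr0 hr1 hb)

end WReg2

section WMain

variable {m N : ℕ}

/-- Regularity. For `m = 0` the function is constant. Otherwise `s0 m = (m + 6) + 2`; use
`Wn.exists_vec`, `exists_sm` (for `IsUnit`), induction on `j` with `reg_step`, `Reg.contDiff`,
`contDiffOn_infty`. -/
theorem _root_.Pool.Agent.MP_f6c0e6_an.Gen.minimal_smooth
    (m N : ℕ) : ∃ ε₀ : ℝ, 0 < ε₀ ∧ ∀ {w : E m → E N} {D : Set (E m)},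
    Wn (s0 m) w ε₀ → IsOpen D → D ⊆ ball 0 1 → (∀ ξ ∈ D, MinAt w ξ) →
    ContDiffOn ℝ (⊤ : ℕ∞) w D := by
  rcases Nat.eq_zero_or_pos m with rfl | hm
  · refine ⟨1, one_pos, fun {w D} _ _ _ _ => ?_⟩
    have h : w = fun _ => w 0 := funext fun x => congrArg w (Subsingleton.elim _ _)
    rw [h]
    exact contDiffOn_const
  obtain ⟨ε₁, C, h1, -, -, hS⟩ := exists_sm m N (m + 6) one_pos
  obtain ⟨ε₂, h2, hstep⟩ := reg_step m N (m + 6) hm
  refine ⟨min ε₁ ε₂, lt_min h1 h2, fun {w D} hw hD hD1 hmin => ?_⟩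
  obtain ⟨u, rfl, hu⟩ := Wn.exists_vec (s := m + 6 + 2) hw
  have hunit := hS.unit u (hu.trans (min_le_left _ _))
  have key : ∀ x₀ ∈ D, ∀ j : ℕ, ∃ ρ : ℝ, 0 < ρ ∧ ρ ≤ 1 ∧ ball x₀ ρ ⊆ D ∧
      ∃ W : VW m N (m + 6 + 2), (∀ ξ ∈ ball x₀ ρ, vec W ξ = vec u ξ) ∧ ∀ α, Reg (j + 1) (W α) := by
    intro x₀ hx j
    induction j with
    | zero =>
      obtain ⟨ρ, hρ, hb⟩ := Metric.isOpen_iff.1 hD x₀ hx
      exact ⟨min ρ 1, lt_min hρ one_pos, min_le_right _ _,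
        (ball_subset_ball (min_le_left _ _)).trans hb, u, fun _ _ => rfl,
        fun α => (Reg.self (u α)).mono (by omega)⟩
    | succ j ih =>
      obtain ⟨ρ, h0, hρ1, hb, W, hW, hR⟩ := ih
      obtain ⟨W', hW', hR'⟩ := hstep u W j x₀ ρ (hu.trans (min_le_right _ _)) hunit h0 hρ1
        (hb.trans hD1) (fun ξ hξ => hmin ξ (hb hξ)) hW hR
      exact ⟨ρ / 36, by (clear * - h0; positivity), by linarith only [hρ1],
        (ball_subset_ball (by linarith only [h0])).trans hb, W', hW', hR'⟩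
  refine contDiffOn_infty.2 fun n x₀ hx => ?_
  obtain ⟨ρ, h0, -, -, W, hW, hR⟩ := key x₀ hx n
  have hc : ContDiffAt ℝ n (vec W) x₀ :=
    (Reg.contDiff fun α => (hR α).mono (Nat.le_succ n)).contDiffAt
  refine (hc.congr_of_eventuallyEq ?_).contDiffWithinAt
  filter_upwards [ball_mem_nhds x₀ h0] with ξ hξ using (hW ξ hξ).symm

/-- the solution in the Wiener algebra -/
theorem WMain_A {s : ℕ} (hm : 1 ≤ m) (hs : 3 ≤ s) {ϑ : WA m s} (hϑ : ϑ.c 0 = 1)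
    (hϑ1 : ∀ ξ ∈ ball (0 : E m) 1, ϑ.f ξ = 0) {ε η C₁ : ℝ} (hS : Sm m N s ε η C₁) (hC₁ : 0 ≤ C₁)
    (hη0 : 0 ≤ η) (hη1 : η ≤ 1) (hη : 4 * (1 + ‖ϑ‖) * ((m ^ 2 + N * m) * η) ≤ 1 / 2)
    (w f₀ : VW m N (s + 2)) (χ : WA m s) {R : ℝ} (hR : ‖w‖ + (‖f₀‖ + R) ≤ ε)
    (hR' : 8 * (1 + ‖ϑ‖) * ((1 + m + (1 + ‖χ‖) * (2 * m ^ 2 + N * m)) * ‖f₀‖) ≤ R)
    (Z : Set (E N)) (hZ : ∀ n ∈ Z, ell n w = 0 ∧ ell n f₀ = 0) {T : ℝ}
    (hT : ∀ α, NI (-3) (χ * LL w f₀ α) T) :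
    ∃ (v : VW m N (s + 2)) (q : VW m N s), ‖v‖ ≤ R ∧ (∀ n ∈ Z, ell n v = 0) ∧
      ‖q‖ ≤ C₁ * (‖f₀‖ + R) ^ 2 ∧
      (∀ α, NI (-1) (v α) (8 * (1 + ‖ϑ‖) * (T + C₁ * (‖f₀‖ + R) ^ 2))) ∧
      ∀ ξ ∈ ball (0 : E m) 1, χ.f ξ = 1 → (∀ α, (MM w α).f ξ = 0) →
        ∀ α, (MM (w + (f₀ + v)) α).f ξ = 0 ∧ (LL w (f₀ + v) α).f ξ = (q α).f ξ := by
  have hm1 : (1 : ℝ) ≤ m := by exact_mod_cast hm
  have hN0 : (0 : ℝ) ≤ N := Nat.cast_nonneg N
  have hκ : 0 ≤ 1 + ‖ϑ‖ := by (clear * - ; positivity)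
  have hR0 : 0 ≤ R := le_trans (by (clear * - hm; positivity)) hR'
  have hw : ‖w‖ ≤ ε := by linarith only [norm_nonneg f₀, hR, hR0]
  have hz : ‖w + f₀‖ + R ≤ ε := by linarith only [norm_add_le w f₀, hR]
  have hcl := hS.cl w hw
  set H : VW m N s := MM w + fun α => (1 - χ) * LL w f₀ α with hH
  have hHn : ‖H - MM (w + f₀)‖ ≤ (1 + m + (1 + ‖χ‖) * (2 * m ^ 2 + N * m)) * ‖f₀‖ := by
    have h1 := hS.lin w (w + f₀) hw (by linarith only [hR0, hz])
    rw [add_sub_cancel_left] at h1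
    have h2 := norm_lapV_le f₀
    have h3 : ‖(fun α => (1 - χ) * LL w f₀ α : VW m N s)‖ ≤
        (1 + ‖χ‖) * ((2 * m ^ 2 + N * m) * ‖f₀‖) := by
      refine (pi_norm_le_iff_of_nonneg (by (clear * - hm; positivity))).2 fun α => (norm_mul_le _ _).trans ?_
      refine mul_le_mul ?_ ((norm_le_pi_norm _ α).trans (hcl.norm_LL_le hη1 f₀)) (norm_nonneg _)
        (by (clear * - ; positivity))
      exact (norm_sub_le _ _).trans (by rw [WA.norm_one])
    have e : H - MM (w + f₀) = (fun α => (1 - χ) * LL w f₀ α : VW m N s) -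
        (MM (w + f₀) - MM w - lapV f₀) - lapV f₀ := by
      rw [hH]; abel
    rw [e]
    have h4 := mul_le_mul_of_nonneg_right hη1 (norm_nonneg f₀)
    calc _ ≤ ‖(fun α => (1 - χ) * LL w f₀ α : VW m N s)‖ + ‖MM (w + f₀) - MM w - lapV f₀‖ +
          ‖lapV f₀‖ := (norm_sub_le _ _).trans (add_le_add_left (norm_sub_le _ _) _)
      _ ≤ _ := by linarith only [h1, h2, h3, h4]
  have hη' : 4 * (1 + ‖ϑ‖) * η ≤ 1 / 2 := by
    refine le_trans (mul_le_mul_of_nonneg_left ?_ (by (clear * - ; positivity))) hη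
    exact le_mul_of_one_le_left hη0 (by nlinarith only [hm1])
  obtain ⟨v, hv, hvZ, hfix⟩ := hS.exists_fix ϑ hη' (w + f₀) H hz
    (le_trans (mul_le_mul_of_nonneg_left hHn (by (clear * - ; positivity))) hR') Z fun n hn => by
      obtain ⟨h1, h2⟩ := hZ n hn
      refine ⟨by rw [map_add, h1, h2, add_zero], ?_⟩
      rw [hH, map_add, ell_MM h1, ell_mul, ell_LL h1 h2, mul_zero, add_zero]
  have hu : ‖f₀ + v‖ ≤ ‖f₀‖ + R := (norm_add_le _ _).trans (by linarith only [hv])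
  set q : VW m N s := MM (w + (f₀ + v)) - MM w - LL w (f₀ + v) with hq
  have hqn : ‖q‖ ≤ C₁ * (‖f₀‖ + R) ^ 2 := by
    have h1 := hS.quad w (w + (f₀ + v)) hw ((norm_add_le _ _).trans (by linarith only [hR, hu]))
    rw [add_sub_cancel_left] at h1
    exact h1.trans (mul_le_mul_of_nonneg_left (pow_le_pow_left₀ (norm_nonneg _) hu 2) hC₁)
  rw [add_assoc] at hfix
  refine ⟨v, -q, hv, hvZ, by rwa [norm_neg], fun α => ?_, fun ξ hξ hχ hM α => ?_⟩
  · refine hcl.step2 hs hη (R := fun α => χ * LL w f₀ α + q α) (fun β => ?_) (fun β => ?_) α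
    · refine (hfix β).trans (congrArg _ ?_)
      simp only [hq, hH, LL_add, Pi.add_apply, Pi.sub_apply]
      ring
    · exact (hT β).add ((NI.of_norm (q β) (by omega)).mono le_rfl
        ((norm_le_pi_norm q β).trans hqn))
  · have h1 := congrArg (fun z => (WA.lp2 z).f ξ) (hfix α)
    simp only [lp2_JJ hϑ, WA.sub_f, WA.add_f, WA.smul_f, hϑ1 ξ hξ, hH, Pi.add_apply, WA.mul_f,
      WA.one_f, hχ, hM α] at h1
    have h2 : (MM (w + (f₀ + v)) α).f ξ = 0 := by linarith only [h1]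
    refine ⟨h2, ?_⟩
    simp only [hq, Pi.neg_apply, Pi.sub_apply, WA.neg_f, WA.sub_f, h2, hM α]
    ring

/-- comparison of the solution with the mollified measure -/
theorem WMain_B {s : ℕ} (hm : 1 ≤ m) (f₀ v : VW m N (s + 2)) {O : Set (E m)}
    (hO : MeasurableSet O) {Ω : Type} [MeasurableSpace Ω] (μ : Measure Ω) [IsFiniteMeasure μ]
    {x : Ω → E m} {f : Ω → E N} (hx : Measurable x) (hf : Integrable f μ) {T r ρ B M L : ℝ}
    (hT : ∫ y, ‖f y‖ ∂μ ≤ T) (hr : 0 < r) (hρ : 0 < ρ) (hρ1 : ρ ≤ 1) {ξ : E m} (hξ : ‖ξ‖ ≤ 1)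
    (hb : ball ξ ρ ⊆ O) (hL0 : 0 ≤ L) (hL : Lip L (th ρ : E m → ℝ))
    (hf₀ : ∀ η ∈ box m, vec f₀ η = ∫ y, th r (η - x y) • (x ⁻¹' O).indicator f y ∂μ)
    (hB : ∀ η ∈ ball ξ ρ, ‖fderiv ℝ (vec (f₀ + v)) η‖ ≤ B) (hv : ∀ α, NI (-1) (v α) M) :
    ‖vec (f₀ + v) ξ - ∫ y, th ρ (x y - ξ) • f y ∂μ‖ ≤ ρ * B +
      N * ((2 * Real.pi) ^ m * (cth m 1 / ρ ^ (2 * m)) * M) + L * r * T := by
  have hz : ∀ η, η ∉ ball ξ ρ → th ρ (η - ξ) = 0 := fun η hη =>
    th_eq_zero hρ (by simpa [mem_ball, dist_eq_norm] using hη) hm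
  have hint : ∀ u : VW m N (s + 2), Integrable fun η => th ρ (η - ξ) • vec u η := by
    intro u
    refine Continuous.integrable_of_hasCompactSupport
      (((contDiff_th ρ 0).continuous.comp (continuous_id.sub continuous_const)).smul
        (contDiff_vec u).continuous) ?_
    refine HasCompactSupport.intro (isCompact_closedBall ξ ρ) fun η hη => ?_
    rw [hz η fun h => hη (ball_subset_closedBall h), zero_smul]
  have hg : Integrable ((x ⁻¹' O).indicator f) μ := hf.indicator (hx hO)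
  have hgT : ∫ y, ‖(x ⁻¹' O).indicator f y‖ ∂μ ≤ T :=
    (integral_mono hg.norm hf.norm fun y => norm_indicator_le_norm_self f y).trans hT
  have h1 := mean_sub_le hm ((contDiff_vec (f₀ + v)).of_le (by exact_mod_cast by omega)) hρ hB
  have h2 := pair_le_vec hm hv hρ hρ1 hξ
  have h3 := moll_moll hm hL0 hL hr hρ μ hx hg ξ
  have e1 : ∫ η, th ρ (η - ξ) • vec (f₀ + v) η =
      (∫ η, th ρ (η - ξ) • vec f₀ η) + ∫ η, th ρ (η - ξ) • vec v η := by
    rw [← integral_add (hint f₀) (hint v)]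
    exact integral_congr_ae (Eventually.of_forall fun η => by simp only [vec_add, smul_add])
  have e2 : ∫ η, th ρ (η - ξ) • vec f₀ η =
      ∫ η, th ρ (η - ξ) • ∫ y, th r (η - x y) • (x ⁻¹' O).indicator f y ∂μ := by
    refine integral_congr_ae (Eventually.of_forall fun η => ?_)
    by_cases hη : η ∈ ball ξ ρ
    · have : η ∈ box m := by
        refine ball_subset_box m (mem_ball_zero_iff.2 ?_)
        have h := norm_add_le (η - ξ) ξ
        rw [sub_add_cancel] at h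
        rw [mem_ball, dist_eq_norm] at hη
        linarith only [hρ1, hξ, hη, h]
      simp only [hf₀ η this]
    · simp only [hz η hη, zero_smul]
  have e3 : ∫ y, th ρ (x y - ξ) • (x ⁻¹' O).indicator f y ∂μ = ∫ y, th ρ (x y - ξ) • f y ∂μ := by
    refine integral_congr_ae (Eventually.of_forall fun y => ?_)
    by_cases hy : x y ∈ O
    · simp only [indicator_of_mem (show y ∈ x ⁻¹' O from hy)]
    · simp only [hz _ fun h => hy (hb h), zero_smul]
  rw [← e2, e3] at h3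
  rw [e1] at h1
  have h4 := mul_le_mul_of_nonneg_left hgT (mul_nonneg hL0 hr.le)
  have e : vec (f₀ + v) ξ - ∫ y, th ρ (x y - ξ) • f y ∂μ =
      (vec (f₀ + v) ξ - ((∫ η, th ρ (η - ξ) • vec f₀ η) + ∫ η, th ρ (η - ξ) • vec v η)) +
        (∫ η, th ρ (η - ξ) • vec v η) +
        ((∫ η, th ρ (η - ξ) • vec f₀ η) - ∫ y, th ρ (x y - ξ) • f y ∂μ) := by abel
  rw [e]
  exact (norm_add₃_le).trans (by linarith only [h1, h2, h3, h4])

theorem WMain_div {c c' t ρ : ℝ} {p p' : ℕ} (hc : c ≤ c') (hc0 : 0 ≤ c') (ht : 0 ≤ t)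
    (h0 : 0 < ρ) (h1 : ρ ≤ 1) (hp : p ≤ p') : c * t / ρ ^ p ≤ c' * t / ρ ^ p' :=
  div_le_div₀ (mul_nonneg hc0 ht) (mul_le_mul_of_nonneg_right hc ht) (pow_pos h0 _)
    (pow_le_pow_of_le_one h0.le h1 hp)

/-- The update. Write `M w = g^{ij} ∂_ij w` and
`L u = g^{ij} ∂_ij u - 2 ∑ j, H (e_j, g⁻¹ Dwᵀ Du g⁻¹ e_j)` (the derivative of `M` at `w`,
`H = D² w`). All cut-off functions and data are of the form `th r * ν` with a finite measure `ν`
supported in `ball 0 1`, periodised; their Fourier coefficients are bounded by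
`|ν| * ∏ |𝓕 bump1 (r k_i / (m + 1))|` (one-dimensional Poisson summation for the bump, product,
Fubini). Put `ν = 1_{x ∈ thickening (4 σ) K} f μ`, `f₀ = th r * ν` (norm `C T₁ / r ^ P`),
`χ = th (σ / 4) * 1_{thickening (2 σ) K}`, and let `ϑ` be a fixed bump of mean one supported far
from `ball 0 1`, `Π G = G - (mean G) ϑ`.
1. Solve `Δ u = Π (Δ u - M (w + u) + M w + (1 - χ) L f₀)`, `mean u = mean f₀`, by contraction in
order `s0 m`; so `M (w + u) = M w + (1 - χ) L f₀ + c ϑ`, which vanishes where `χ = 1`. The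
iterates have values in `V`.
2. `M (w + u) - M w = L u + q`, `‖q‖ ≤ C ‖u‖²`. The coefficients of `χ L f₀` are at most
`C (e + r T₁) σ⁻³ (1 + |k|) ^ 3`: test with `ψ = χ cos (k x) e_α / sgW w`, integrate by parts with
`div_sgW` (`∫ sgW ⟪ψ, L f₀⟫ = ∫ sgW ⟪f₀, Lst ψ⟫`), move `th r` to the Lipschitz function
`sgW • Lst ψ` and use the hypothesis. In the weighted supremum norms
`sup (1 + |k|) ^ t |coefficient|` (finite here), `‖a b‖_t ≤ ‖a‖_{Wiener |t|} ‖b‖_t`, so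
`v = u - f₀`, which solves `Δ v = Π ((Δ - L) v - χ L f₀ - q)`, has norm of order `-1` at most
`C ((e + r T₁) σ⁻³ + T₁² / r ^ (2 P))`; pair it with `th s (· - ξ)`.
3. Interior bound: `u` has norm of order `-1` at most `C T₁ σ⁻³` and `L u = - q` on
`thickening (7 σ / 4) K`. With nested cut-off functions `χ_j`,
`L (χ_{j+1} u) = - χ_{j+1} q +` first order terms in `χ_j u`, which gains one order at the price
`σ ^ (-C)`; after `m + 4` steps the order is `m + 3`, so `u` and `Du` are at most `C T₁ / σ ^ P` on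
`thickening σ K`. -/
theorem _root_.Pool.Agent.MP_f6c0e6_an.Gen.upd_solve
    (m N : ℕ) (hm : 1 ≤ m) : ∃ (P : ℕ) (C ε₀ : ℝ), 1 ≤ P ∧ 1 ≤ C ∧ 0 < ε₀ ∧
    ∀ (V : Submodule ℝ (E N)) (w : E m → E N) (K : Set (E m)) {Ω : Type} [MeasurableSpace Ω]
    (μ : Measure Ω) [IsFiniteMeasure μ] (x : Ω → E m) (f : Ω → E N) (T₁ e σ r : ℝ),
    Wn (s0 m) w ε₀ → (∀ ξ, w ξ ∈ V) → K ⊆ ball 0 (1 / 2) → 0 < r → r ≤ σ → σ ≤ 1 / 10 →
    (∀ ξ ∈ thickening (4 * σ) K, MinAt w ξ) → Measurable x → Integrable f μ → (∀ y, f y ∈ V) →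
    ∫ y, ‖f y‖ ∂μ ≤ T₁ → 0 ≤ e → e ≤ T₁ → C * T₁ ≤ r ^ (2 * P) →
    (∀ (ψ : E m → E N) (a : ℝ), Test 2 ψ (thickening (4 * σ) K) → Bd2 ψ a a a →
      |∫ y, ⟪f y, sgW w (x y) • Lst w ψ (x y)⟫ ∂μ| ≤ e * a) →
    ∃ u : E m → E N, Wn (s0 m) u (C * T₁ / r ^ P) ∧ (∀ ξ, u ξ ∈ V) ∧
      (∀ ξ ∈ thickening σ K, MinAt (fun x => w x + u x) ξ) ∧
      (∀ ξ ∈ thickening σ K, ‖u ξ‖ ≤ C * T₁ / σ ^ P ∧ ‖fderiv ℝ u ξ‖ ≤ C * T₁ / σ ^ P) ∧
      ∀ s, 0 < s → s ≤ σ → ∀ ξ ∈ K, ‖u ξ - ∫ y, th s (x y - ξ) • f y ∂μ‖ ≤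
        C * (s * T₁ + (e + r * T₁ + T₁ ^ 2 / r ^ (2 * P)) / s ^ P) / σ ^ P := by
  have hm1 : (1 : ℝ) ≤ m := by exact_mod_cast hm
  have hN0 : (0 : ℝ) ≤ N := Nat.cast_nonneg N
  obtain ⟨ϑ, hϑ, hϑ1⟩ := exists_bump hm (m + 6)
  obtain ⟨κ, hκ⟩ : ∃ κ : ℝ, κ = 1 + ‖ϑ‖ := ⟨_, rfl⟩
  have hκ1 : 1 ≤ κ := by rw [hκ]; linarith only [norm_nonneg ϑ]
  obtain ⟨K₀, hK₀⟩ : ∃ K₀ : ℝ, K₀ = m ^ 2 + N * m := ⟨_, rfl⟩
  have hK1 : 1 ≤ K₀ := by rw [hK₀]; nlinarith only [hm1]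
  obtain ⟨η, hη⟩ : ∃ η : ℝ, η = 1 / (8 * κ * K₀) := ⟨_, rfl⟩
  have hη0 : 0 < η := by rw [hη]; (clear * - hκ1 hK1; positivity)
  have hηa : 4 * κ * (K₀ * η) ≤ 1 / 2 := by rw [hη]; field_simp; norm_num
  have hηb : 4 * (K₀ * η) ≤ 1 / 2 :=
    le_trans (by nlinarith only [mul_pos (zero_lt_one.trans_le hK1) hη0, hκ1, hK1, hη0]) hηa
  have hη1 : η ≤ 1 := by nlinarith only [hK1, hη0, hηb]
  obtain ⟨ε, C₁, hε, -, hC₁, hS⟩ := exists_sm m N (m + 6) hη0
  obtain ⟨C₂, hC₂, htest⟩ := test_bd m N hm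
  obtain ⟨P₃, C₃, hC₃, hint⟩ := interior_bd m N (m + 6) hm (by omega)
  obtain ⟨C₄, hC₄, hth⟩ := th_bd m
  obtain ⟨a, ha⟩ : ∃ a : ℕ, a = (m + 6 + 1) * m := ⟨_, rfl⟩
  obtain ⟨b, hb⟩ : ∃ b : ℕ, b = (m + 6 + 2 + 1) * m := ⟨_, rfl⟩
  obtain ⟨cχ, hcχ⟩ : ∃ c : ℝ, c = ccut m (m + 6) * 4 ^ a := ⟨_, rfl⟩
  have hcχ0 : 0 ≤ cχ := by have := one_le_ccut m (m + 6); rw [hcχ]; (clear * - this; positivity)
  obtain ⟨cf, hcf⟩ : ∃ c : ℝ, c = cth m (m + 6 + 2) := ⟨_, rfl⟩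
  have hcf0 : 0 ≤ cf := by rw [hcf]; exact zero_le_one.trans (one_le_cth _ _)
  obtain ⟨c₄, hc₄⟩ : ∃ c : ℝ, c = 1 + m + (1 + cχ) * (2 * m ^ 2 + N * m) := ⟨_, rfl⟩
  have hc₄0 : 0 ≤ c₄ := by rw [hc₄]; (clear * - hm hcχ0; positivity)
  obtain ⟨c₅, hc₅⟩ : ∃ c : ℝ, c = cf + 8 * κ * c₄ * cf := ⟨_, rfl⟩
  have hc₅0 : 0 ≤ c₅ := by rw [hc₅]; (clear * - hκ1 hcf0 hc₄0; positivity)
  obtain ⟨c₆, hc₆⟩ : ∃ c : ℝ, c = 8 * κ * (C₂ * cχ + C₁ * c₅ ^ 2) := ⟨_, rfl⟩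
  have hc₆0 : 0 ≤ c₆ := by rw [hc₆]; (clear * - hκ1 hC₁ hC₂ hcχ0; positivity)
  obtain ⟨c₇, hc₇⟩ : ∃ c : ℝ, c = N * ((2 * Real.pi) ^ m * cth m 1) := ⟨_, rfl⟩
  have hc₇0 : 0 ≤ c₇ := by have := one_le_cth m 1; rw [hc₇]; (clear * - this; positivity)
  obtain ⟨C, hC⟩ : ∃ c : ℝ,
    c = 1 + 2 * N * c₅ + 3 * c₅ / ε + C₃ * (1 + 3 * c₆) + (c₇ * c₆ + C₄) := ⟨_, rfl⟩
  have p1 : 0 ≤ 2 * N * c₅ := by (clear * - hc₅0; positivity)
  have p2 : 0 ≤ 3 * c₅ / ε := by (clear * - hε hc₅0; positivity)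
  have p3 : 0 ≤ C₃ * (1 + 3 * c₆) := by (clear * - hC₃ hc₆0; positivity)
  have p4 : 0 ≤ c₇ * c₆ + C₄ := by (clear * - hC₄ hc₆0 hc₇0; positivity)
  have hC1 : 1 ≤ C := by linarith only [hC, p1, p2, p3, p4]
  obtain ⟨P, hP⟩ : ∃ P : ℕ, P = a + b + P₃ + 2 * m + 1 := ⟨_, rfl⟩
  refine ⟨P, C, min (ε / 3) (1 / (2 * N + 1)), by omega, hC1, by (clear * - hε; positivity), ?_⟩
  intro V w K Ω _ μ _ x f T₁ e σ r hw hwV hK hr hrσ hσ hmin hx hf hfV hT he heT hCT hweak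
  have hσ0 : 0 < σ := hr.trans_le hrσ
  have hσ1 : σ ≤ 1 := by linarith only [hr, hrσ, hσ]
  have hr1 : r ≤ 1 := by linarith only [hr, hrσ, hσ]
  have hT0 : 0 ≤ T₁ := he.trans heT
  have hth1 : ∀ τ, τ ≤ 4 * σ → thickening τ K ⊆ ball 0 1 := by
    intro τ hτ ξ hξ
    obtain ⟨z, hz, hd⟩ := mem_thickening_iff.1 hξ
    have h1 := mem_ball.1 (hK hz)
    have h2 := dist_triangle ξ z 0
    exact mem_ball.2 (by linarith only [hr, hrσ, hσ, hτ, hd, h1, h2])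
  have hbox : ball (0 : E m) 1 ⊆ box m :=
    (ball_subset_ball (by norm_num)).trans (ball_subset_box m)
  obtain ⟨w, rfl, hw0⟩ := Wn.exists_vec (s := m + 6 + 2) hw
  have hwε : ‖w‖ ≤ ε / 3 := hw0.trans (min_le_left _ _)
  have hwN : 2 * N * ‖w‖ ≤ 1 := by
    have h1 := (le_div_iff₀ (by (clear * - ; positivity))).1 (hw0.trans (min_le_right _ _))
    nlinarith only [norm_nonneg w, h1]
  have hunit := hS.unit w (by linarith only [hε, hwε])
  have hO : IsOpen (thickening (4 * σ) K) := isOpen_thickening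
  have hg : Integrable ((x ⁻¹' thickening (4 * σ) K).indicator f) μ :=
    hf.indicator (hx hO.measurableSet)
  have hgT : ∫ y, ‖(x ⁻¹' thickening (4 * σ) K).indicator f y‖ ∂μ ≤ T₁ :=
    (integral_mono hg.norm hf.norm fun y => norm_indicator_le_norm_self f y).trans hT
  obtain ⟨f₀, hf₀n, hf₀I, hf₀V, hf₀⟩ := exists_cv_vec (m + 6 + 2) hr hr1 μ hx hg fun y hy => by
    have h1 : y ∈ x ⁻¹' thickening (4 * σ) K := mem_of_indicator_ne_zero hy
    have h2 := mem_ball_zero_iff.1 (hth1 _ le_rfl h1)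
    linarith only [hr, hrσ, hσ, h2]
  obtain ⟨χ, hχn, hχ⟩ := exists_cut_thick hm (m + 6) (δ := σ / 4) (τ := 2 * σ) (by (clear * - hσ0; positivity))
    (by linarith only [hr, hrσ, hσ]) (hth1 _ (by linarith only [hr, hrσ]))
  have hχσ : ‖χ‖ ≤ cχ / σ ^ a := by
    rw [← ha, div_pow, div_div_eq_mul_div, ← hcχ] at hχn
    exact hχn
  have hf₀r : ‖f₀‖ ≤ cf * T₁ / r ^ b := by
    rw [← hb, ← hcf] at hf₀n
    refine hf₀n.trans ((mul_le_mul_of_nonneg_left hgT (by (clear * - hcf0 hr; positivity))).trans (le_of_eq ?_))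
    ring
  have hra : r ^ a ≤ 1 := pow_le_one₀ hr.le hr1
  have hσa : σ ^ a ≤ 1 := pow_le_one₀ hσ0.le hσ1
  have hχr : ‖χ‖ ≤ cχ / r ^ a :=
    hχσ.trans (div_le_div_of_nonneg_left hcχ0 (pow_pos hr a) (pow_le_pow_left₀ hr.le hrσ a))
  obtain ⟨R, hR⟩ : ∃ R : ℝ, R = 8 * κ * c₄ * cf * T₁ / r ^ (a + b) := ⟨_, rfl⟩
  have hR' : 8 * (1 + ‖ϑ‖) * ((1 + m + (1 + ‖χ‖) * (2 * m ^ 2 + N * m)) * ‖f₀‖) ≤ R := by
    have h1 : 1 ≤ 1 / r ^ a := (le_div_iff₀ (pow_pos hr a)).2 (by linarith only [hra])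
    have h2 : 1 + m + (1 + ‖χ‖) * (2 * m ^ 2 + N * m) ≤ c₄ / r ^ a := by
      have h3 : (1 : ℝ) + m ≤ (1 + m) * (1 / r ^ a) := le_mul_of_one_le_right (by (clear * - hm; positivity)) h1
      have h4 : (1 + ‖χ‖) * (2 * m ^ 2 + N * m) ≤
          (1 / r ^ a + cχ / r ^ a) * (2 * m ^ 2 + N * m) :=
        mul_le_mul_of_nonneg_right (by linarith only [hχr, h1]) (by (clear * - hm; positivity))
      refine (add_le_add h3 h4).trans (le_of_eq ?_)
      rw [hc₄]; ring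
    rw [← hκ]
    refine (mul_le_mul_of_nonneg_left (mul_le_mul h2 hf₀r (norm_nonneg _) (by (clear * - hc₄0 hr; positivity)))
      (by (clear * - hκ1; positivity))).trans (le_of_eq ?_)
    rw [hR, pow_add]; ring
  have hU : ‖f₀‖ + R ≤ c₅ * T₁ / r ^ P := by
    have h1 := WMain_div (le_refl cf) hcf0 hT0 hr hr1 (show b ≤ P by omega)
    have h2 := WMain_div (le_refl (8 * κ * c₄ * cf)) (by (clear * - hκ1 hcf0 hc₄0; positivity)) hT0 hr hr1
      (show a + b ≤ P by omega)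
    refine (add_le_add (hf₀r.trans h1) (hR.le.trans h2)).trans (le_of_eq ?_)
    rw [hc₅]; ring
  have hrP : 0 < r ^ P := pow_pos hr P
  have hTP : C * (T₁ / r ^ P) ≤ 1 := by
    rw [← mul_div_assoc, div_le_one hrP]
    exact hCT.trans (pow_le_pow_of_le_one hr.le hr1 (by omega))
  have hT2 : T₁ ^ 2 / r ^ (2 * P) ≤ T₁ := by
    rw [div_le_iff₀ (pow_pos hr _), sq]
    exact mul_le_mul_of_nonneg_left ((le_mul_of_one_le_left hT0 hC1).trans hCT) hT0
  have hUε : ‖f₀‖ + R ≤ ε / 3 := by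
    have h1 : 3 * c₅ / ε * (T₁ / r ^ P) ≤ 1 :=
      (mul_le_mul_of_nonneg_right (by linarith only [hC, p1, p3, p4, hr, hrσ, hσ]) (by (clear * - hr hT0; positivity))).trans hTP
    rw [div_mul_eq_mul_div, div_le_one hε] at h1
    rw [mul_div_assoc] at hU
    linarith only [hU, h1]
  have hR0 : 0 ≤ R := by rw [hR]; (clear * - hκ1 hcf0 hc₄0 hr hT0; positivity)
  have hq2 : C₁ * (‖f₀‖ + R) ^ 2 ≤ C₁ * c₅ ^ 2 * (T₁ ^ 2 / r ^ (2 * P)) := by
    refine (mul_le_mul_of_nonneg_left (pow_le_pow_left₀ (by (clear * - hR0; positivity)) hU 2)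
      (by (clear * - hC₁; positivity))).trans (le_of_eq ?_)
    rw [pow_mul']; ring
  have hZ : cthickening (2 * σ + σ / 4) K ⊆ thickening (4 * σ) K :=
    cthickening_subset_thickening' (by (clear * - hσ0; positivity)) (by linarith only [hr, hrσ]) K
  have hTst := htest (m + 6) w f₀ χ _ _ μ x f T₁ e r (by omega) hwN hunit hO
    isClosed_cthickening hZ (hth1 _ le_rfl)
    (fun ξ hξ h => thickening_subset_cthickening _ _ ((hχ ξ hξ).2 h)) hmin hx hf hT he hr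
    (fun ξ hξ => hf₀ ξ (hbox (hth1 _ le_rfl hξ))) hweak
  obtain ⟨v, q, hv, hvV, hq, hvI, heq⟩ := WMain_A hm (by omega) hϑ hϑ1 hS (by linarith only [hC₁, hr, hrσ, hσ]) hη0.le hη1
    (by rw [← hκ, ← hK₀]; exact hηa) w f₀ χ (by linarith only [hε, hwε, hUε]) hR' (Vᗮ : Submodule ℝ (E N))
    (fun n hn => ⟨(vec_mem_iff V w).1 hwV n hn, hf₀V n fun y => by
      by_cases hy : y ∈ x ⁻¹' thickening (4 * σ) K
      · rw [indicator_of_mem hy]
        exact Submodule.inner_left_of_mem_orthogonal (hfV y) hn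
      · rw [indicator_of_notMem hy, inner_zero_right]⟩) hTst
  obtain ⟨W, hW⟩ : ∃ W : ℝ, W = e + r * T₁ + T₁ ^ 2 / r ^ (2 * P) := ⟨_, rfl⟩
  have hrT : r * T₁ ≤ T₁ := mul_le_of_le_one_left hT0 hr1
  have hrT0 : 0 ≤ r * T₁ := by (clear * - hr hT0; positivity)
  have hT20 : 0 ≤ T₁ ^ 2 / r ^ (2 * P) := by (clear * - hr; positivity)
  have hW0 : 0 ≤ W := by rw [hW]; (clear * - hr he hT0; positivity)
  have hW3 : W ≤ 3 * T₁ := by linarith only [heT, hT2, hW, hrT]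
  have hσ1a : 1 ≤ 1 / σ ^ a := (le_div_iff₀ (pow_pos hσ0 a)).2 (by linarith only [hσa])
  have hE : 8 * (1 + ‖ϑ‖) * (C₂ * ‖χ‖ * (e + r * T₁) + C₁ * (‖f₀‖ + R) ^ 2) ≤ c₆ * W / σ ^ a := by
    have h1 : C₂ * ‖χ‖ * (e + r * T₁) ≤ C₂ * (cχ / σ ^ a) * W :=
      mul_le_mul (mul_le_mul_of_nonneg_left hχσ (by (clear * - hC₂; positivity))) (by linarith only [hW, hT20]) (by (clear * - hr he hT0; positivity))
        (by (clear * - hC₂ hcχ0 hσ0; positivity))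
    have h2 : C₁ * c₅ ^ 2 * (T₁ ^ 2 / r ^ (2 * P)) ≤ C₁ * c₅ ^ 2 * (W * (1 / σ ^ a)) :=
      mul_le_mul_of_nonneg_left (le_trans (by linarith only [he, hW, hrT0]) (le_mul_of_one_le_right hW0 hσ1a))
        (by (clear * - hC₁; positivity))
    rw [← hκ]
    refine (mul_le_mul_of_nonneg_left (add_le_add h1 (hq2.trans h2)) (by (clear * - hκ1; positivity))).trans
      (le_of_eq ?_)
    rw [hc₆]; ring
  have hvI' : ∀ α, NI (-1) (v α) (c₆ * W / σ ^ a) := fun α => (hvI α).mono le_rfl hE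
  have hT3 : T₁ + c₆ * W / σ ^ a ≤ (1 + 3 * c₆) * T₁ / σ ^ a := by
    have h1 : T₁ ≤ T₁ * (1 / σ ^ a) := le_mul_of_one_le_right hT0 hσ1a
    have h2 : c₆ * W / σ ^ a ≤ c₆ * (3 * T₁) / σ ^ a :=
      div_le_div_of_nonneg_right (mul_le_mul_of_nonneg_left hW3 hc₆0) (by (clear * - hσ0; positivity))
    refine (add_le_add h1 h2).trans (le_of_eq ?_)
    ring
  have hloc : ∀ ξ ∈ thickening (7 * σ / 4) K, ∀ α,
      (MM (w + (f₀ + v)) α).f ξ = 0 ∧ (LL w (f₀ + v) α).f ξ = (q α).f ξ := by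
    intro ξ hξ
    have h1 := hth1 _ (by linarith only [hr, hrσ]) hξ
    refine heq ξ h1 ((hχ ξ (hbox h1)).1 ?_) ((minAt_iff hunit ξ).1 (hmin ξ ?_))
    · rwa [show 2 * σ - σ / 4 = 7 * σ / 4 by ring]
    · exact thickening_mono (by linarith only [hr, hrσ]) K hξ
  have hqT : ‖q‖ ≤ (1 + 3 * c₆) * T₁ / σ ^ a := by
    have h1 : 0 ≤ C₂ * ‖χ‖ * (e + r * T₁) := by (clear * - hC₂ hr he hT0; positivity)
    have h2 : 0 ≤ C₁ * (‖f₀‖ + R) ^ 2 := by (clear * - hC₁; positivity)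
    have h3 : C₂ * ‖χ‖ * (e + r * T₁) + C₁ * (‖f₀‖ + R) ^ 2 ≤
        8 * (1 + ‖ϑ‖) * (C₂ * ‖χ‖ * (e + r * T₁) + C₁ * (‖f₀‖ + R) ^ 2) :=
      le_mul_of_one_le_left (by (clear * - hC₁ hC₂ hr he hT0; positivity)) (by linarith only [norm_nonneg ϑ, hκ, hκ1, hr, hrσ, hσ])
    linarith only [he, heT, hq, hE, hT3, h1, h3]
  have hI := hint w (f₀ + v) q K σ η _ (hS.cl w (by linarith only [hε, hwε])) hη1 (by rw [← hK₀]; exact hηb) hσ0
    hσ1 (hth1 _ (by linarith only [hr, hrσ])) (fun ξ hξ α => (hloc ξ hξ α).2) hqT fun α =>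
      (((hf₀I α).mono (by norm_num) hgT).add (hvI' α)).mono le_rfl hT3
  have hB : C₃ * ((1 + 3 * c₆) * T₁ / σ ^ a) / σ ^ P₃ ≤ C * T₁ / σ ^ P := by
    refine le_trans (le_of_eq ?_) (WMain_div (c := C₃ * (1 + 3 * c₆)) (by linarith only [hC, p1, p2, p4, hr, hrσ, hσ]) (by linarith only [hC, p1, p2, p3, p4, hr, hrσ, hσ])
      hT0 hσ0 hσ1 (show a + P₃ ≤ P by omega))
    rw [pow_add]; ring
  have hun : ‖f₀ + v‖ ≤ ‖f₀‖ + R := (norm_add_le _ _).trans (by linarith only [hv])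
  refine ⟨vec (f₀ + v), (wn_vec (f₀ + v)).mono ?_, (vec_mem_iff V _).2 fun n hn => ?_,
    fun ξ hξ => ?_, fun ξ hξ => ⟨(hI ξ hξ).1.trans hB, (hI ξ hξ).2.trans hB⟩,
    fun ρ hρ hρσ ξ hξ => ?_⟩
  · refine (mul_le_mul_of_nonneg_left (hun.trans hU) (by (clear * - ; positivity))).trans ?_
    rw [← mul_div_assoc, ← mul_assoc]
    exact WMain_div (by linarith only [hC, p2, p3, p4, hr, hrσ, hσ]) (by linarith only [hC, p1, p2, p3, p4, hr, hrσ, hσ]) hT0 hr hr1 le_rfl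
  · rw [map_add, hvV n hn, add_zero]
    refine hf₀V n fun y => ?_
    by_cases hy : y ∈ x ⁻¹' thickening (4 * σ) K
    · rw [indicator_of_mem hy]
      exact Submodule.inner_left_of_mem_orthogonal (hfV y) hn
    · rw [indicator_of_notMem hy, inner_zero_right]
  · exact (minAt_iff (hS.unit (w + (f₀ + v)) ((norm_add_le _ _).trans (by linarith only [hε, hwε, hUε, hun]))) ξ).2
      fun α => (hloc ξ (thickening_mono (by linarith only [hr, hrσ]) K hξ) α).1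
  · have hρ1 : ρ ≤ 1 := hρσ.trans hσ1
    have hball : ball ξ ρ ⊆ thickening σ K :=
      (ball_subset_ball hρσ).trans (ball_subset_thickening hξ σ)
    have h0 := WMain_B hm f₀ v hO.measurableSet μ hx hf hT hr hρ hρ1
      ((mem_ball_zero_iff.1 (hK hξ)).le.trans (by norm_num))
      (hball.trans (thickening_mono (by linarith only [hr, hrσ]) K)) (by (clear * - hC₄ hρ; positivity)) (hth ρ hρ).2 hf₀
      (fun η hη => (hI η (hball hη)).2.trans hB) hvI'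
    refine h0.trans ?_
    have hσP : σ ^ P ≤ σ ^ a := pow_le_pow_of_le_one hσ0.le hσ1 (by omega)
    have h1 : N * ((2 * Real.pi) ^ m * (cth m 1 / ρ ^ (2 * m)) * (c₆ * W / σ ^ a)) ≤
        c₇ * c₆ * W / ρ ^ P / σ ^ P := by
      refine le_trans (le_of_eq ?_) (div_le_div₀ (by (clear * - hc₆0 hc₇0 hW0 hρ; positivity)) (WMain_div (le_refl (c₇ * c₆))
        (by (clear * - hc₆0 hc₇0; positivity)) hW0 hρ hρ1 (show 2 * m ≤ P by omega)) (pow_pos hσ0 P) hσP)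
      rw [hc₇]; ring
    have h2 : C₄ / ρ ^ (m + 1) * r * T₁ ≤ C₄ * W / ρ ^ P / σ ^ P := by
      refine le_trans ?_ (le_div_self (by (clear * - hC₄ hW0 hρ; positivity)) (pow_pos hσ0 P) (pow_le_one₀ hσ0.le hσ1))
      refine le_trans ?_ (WMain_div (le_refl C₄) (by (clear * - hC₄; positivity)) hW0 hρ hρ1
        (show m + 1 ≤ P by omega))
      have h3 : C₄ * (r * T₁) / ρ ^ (m + 1) ≤ C₄ * W / ρ ^ (m + 1) :=
        div_le_div_of_nonneg_right (mul_le_mul_of_nonneg_left (by linarith only [he, hW, hT20]) (by (clear * - hC₄; positivity)))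
          (by (clear * - hρ; positivity))
      refine le_trans (le_of_eq ?_) h3
      ring
    have h3 : (c₇ * c₆ + C₄) * (W / ρ ^ P / σ ^ P) ≤ C * (W / ρ ^ P / σ ^ P) :=
      mul_le_mul_of_nonneg_right (by linarith only [hC, p1, p2, p3, hr, hrσ, hσ]) (by (clear * - hσ0 hW0 hρ; positivity))
    rw [← hW]
    calc _ ≤ ρ * (C * T₁ / σ ^ P) + c₇ * c₆ * W / ρ ^ P / σ ^ P + C₄ * W / ρ ^ P / σ ^ P :=
          add_le_add (add_le_add le_rfl h1) h2
      _ = ρ * (C * T₁ / σ ^ P) + (c₇ * c₆ + C₄) * (W / ρ ^ P / σ ^ P) := by ring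
      _ ≤ ρ * (C * T₁ / σ ^ P) + C * (W / ρ ^ P / σ ^ P) := add_le_add le_rfl h3
      _ = _ := by ring

end WMain

end Pool.Agent.MP_f6c0e6_an.Gen.Wie

end
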