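import Pool.Agent.MP_f6c0e6_an.All.Mean
import Pool.Agent.MP_f6c0e6_an.All.ChartC
import Pool.Agent.MP_f6c0e6_an.All.WienerD

section

/-! The state of the iteration. -/

set_option autoImplicit false

open MeasureTheory Filter Topology Set Metric
open scoped ENNReal RealInnerProductSpace

namespace Pool.Agent.MP_f6c0e6_an.Gen

variable {m N : ℕ}

/-- the state after an update with parameter `w` -/
structure State {Q : ℕ} {e0 T0 : ℝ} (G : Glob m N Q e0 T0) (M c a : ℕ) (C₀ w : ℝ) (S : Ref m N)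
    (R : ℝ) : Prop where
  pre : Pre G S R (w ^ M)
  total : S.I2 G.μ 0 R ≤ C₀ * w ^ (2 * M + 2 * c)
  floor : ∫ y in G.Gd ∩ ball 0 R, ‖S.gh y‖ ^ 2 ∂G.μ ≤ w ^ (2 * M + 2 * c + 5)
  track : ∀ ξ ∈ S.dom 0 (R - w ^ 2),
    ‖S.mean (G.μ.restrict (ball 0 R)) Q (w ^ (2 * a)) ξ‖ ≤ w ^ (M + c + 2)

section

variable {Q : ℕ} {e0 T0 : ℝ} {G : Glob m N Q e0 T0} {S : Ref m N} {R T : ℝ}

theorem Pre.mono (h : Pre G S R T) {R' : ℝ} (hR : R' ≤ R) : Pre G S R' T := by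
  refine ⟨h.ι_eq, h.zero_le, fun ξ hξ => h.sub ?_, ?_⟩
  · exact lt_of_lt_of_le (b := R' + T) hξ (by linarith only [hR])
  filter_upwards [h.height] with y hy hy'
  exact hy (ball_subset_ball hR hy')

/-- the points over the ball of radius `s` about `ξ` are in the smaller ball -/
theorem Pre.mean_restrict (hm : 1 ≤ m) (h : Pre G S R T) {ρ s : ℝ} (hρ : ρ ≤ R) (hs : 0 < s)
    {ξ : E m} (hξ : ‖S.F ξ‖ + 2 * s + T ≤ ρ) (f : E N → E N) :
    ∫ y, th s (pr S.ι y - ξ) • f y ∂(G.μ.restrict (ball 0 ρ)) =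
      ∫ y, th s (pr S.ι y - ξ) • f y ∂(G.μ.restrict (ball 0 R)) := by
  refine (setIntegral_eq_of_subset_of_ae_sdiff_eq_zero measurableSet_ball.nullMeasurableSet
    (ball_subset_ball hρ) ?_).symm
  filter_upwards [h.height] with y hy hy'
  rw [th_eq_zero hs (not_lt.1 fun hlt => hy'.2 ?_) hm, zero_smul]
  have h1 := hy hy'.1
  have h2 := (S.F_lip (pr S.ι y) ξ).2.1
  have h3 : y = S.gh y + (S.F (pr S.ι y) - S.F ξ) + S.F ξ := by
    rw [Ref.gh]
    abel
  have h4 := norm_add₃_le (a := S.gh y) (b := S.F (pr S.ι y) - S.F ξ) (c := S.F ξ)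
  rw [← h3] at h4
  rw [mem_ball_zero_iff]
  linarith only [h1, h2, h4, hlt, hξ, hs]

/-- the last radius below a threshold; the open balls increase to the open ball -/
theorem exists_radius (S : Ref m N) (μ : Measure (E N)) [IsFiniteMeasure μ] {R η : ℝ}
    (hR : 0 ≤ R) (hη : 0 ≤ η) : ∃ t, 0 ≤ t ∧ t ≤ R ∧ S.I2 μ 0 t ≤ η ∧
      ∀ t', t < t' → t' ≤ R → η < S.I2 μ 0 t' := by
  set A : Set ℝ := {t | 0 ≤ t ∧ t ≤ R ∧ S.I2 μ 0 t ≤ η} with hA
  have h0 : (0 : ℝ) ∈ A := ⟨le_rfl, hR, by simpa [Ref.I2] using hη⟩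
  have hb : BddAbove A := ⟨R, fun t ht => ht.2.1⟩
  refine ⟨sSup A, le_csSup hb h0, csSup_le ⟨0, h0⟩ fun t ht => ht.2.1, ?_, ?_⟩
  · have hlt : ∀ s, s < sSup A → S.I2 μ 0 s ≤ η := by
      intro s hs
      obtain ⟨s', hs', hss⟩ := exists_lt_of_lt_csSup ⟨0, h0⟩ hs
      exact (S.I2_mono μ (ball_subset_ball hss.le)).2.trans hs'.2.2
    have hp : ∀ n : ℕ, (0 : ℝ) < 1 / ((n : ℝ) + 1) := fun n => by positivity
    have hU : (⋃ n : ℕ, ball (0 : E N) (sSup A - 1 / ((n : ℝ) + 1))) = ball 0 (sSup A) := by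
      refine Subset.antisymm (iUnion_subset fun n => ball_subset_ball (by linarith only [hp n]))
        fun y hy => ?_
      obtain ⟨n, hn⟩ := exists_nat_one_div_lt (sub_pos.2 (mem_ball.1 hy))
      refine mem_iUnion.2 ⟨n, ?_⟩
      rw [mem_ball]
      linarith only [hn]
    have hm : Monotone fun n : ℕ => ball (0 : E N) (sSup A - 1 / ((n : ℝ) + 1)) := by
      intro a b hab
      have := Nat.one_div_le_one_div (α := ℝ) hab
      exact ball_subset_ball (by linarith only [this])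
    have hi : IntegrableOn (fun y => ‖S.gh y‖ ^ 2)
        (⋃ n : ℕ, ball (0 : E N) (sSup A - 1 / ((n : ℝ) + 1))) μ := by
      rw [hU]
      exact (((S.gh_calc 0).2.1.continuous.norm.pow 2).continuousOn.integrableOn_compact
        (isCompact_closedBall 0 (sSup A))).mono_set ball_subset_closedBall
    have ht := tendsto_setIntegral_of_monotone (fun n : ℕ => measurableSet_ball) hm hi
    rw [hU] at ht
    exact le_of_tendsto' ht fun n => hlt _ (by linarith only [hp n])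
  · intro t' ht' hR'
    by_contra hc
    have : t' ∈ A := ⟨(le_csSup hb h0).trans ht'.le, hR', not_lt.1 hc⟩
    exact absurd (le_csSup hb this) (not_le.2 ht')

/-- the flat reference -/
theorem exists_flat_ref (G : Glob m N Q e0 T0) (hT : 0 ≤ T0) (t : ℝ) :
    ∃ S : Ref m N, (S.w = fun _ => 0) ∧ Pre G S t T0 := by
  have e1 : fderiv ℝ (fun _ : E m => (0 : E N)) = fun _ => 0 := by
    funext x
    exact fderiv_const_apply _
  have e2 : fderiv ℝ (fderiv ℝ fun _ : E m => (0 : E N)) = fun _ => 0 := by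
    funext x
    rw [e1]
    exact fderiv_const_apply _
  let S : Ref m N :=
    { ι := G.ι
      w := fun _ => 0
      D := univ
      smooth := contDiff_const
      vert := fun _ => map_zero _
      b0 := fun _ => by norm_num
      b1 := fun _ => by rw [e1]; norm_num
      b2 := fun _ => by
        rw [e2]
        exact (norm_zero (E := E m →L[ℝ] E m →L[ℝ] E N)).trans_le (by norm_num)
      b3 := fun ξ u => by
        rw [e2]
        simp only [_root_.zero_apply, fderiv_const_apply]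
        exact (norm_zero (E := E m →L[ℝ] E m →L[ℝ] E N)).trans_le (by positivity)
      isOpen := isOpen_univ
      min := fun ξ _ => by
        rw [MinAt, e2]
        simp only [_root_.zero_apply, Finset.sum_const_zero] }
  have e3 : ∀ y, S.gh y = vt G.ι y := fun y => by
    rw [(S.gh_calc y).2.2.1]
    exact sub_zero _
  refine ⟨S, rfl, rfl, ?_, subset_univ _, G.ae.mono fun y hy _ => ?_⟩
  · rw [e3, ← vtL_apply, map_zero, norm_zero]
    exact hT
  · rw [e3]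
    exact hy.2.2.2

end

/-- `UB_of_mk` -/
theorem Pre.piece (m Q : ℕ) : ∃ A : ℝ, 1 ≤ A ∧ ∀ {N : ℕ} {e0 T0 : ℝ} {G : Glob m N Q e0 T0}
    {S : Ref m N} {R T : ℝ}, Pre G S R T → 0 < T → T ≤ R / 100 → R ≤ 1 / 10 →
    Piece S G.fr (G.μ.restrict (ball 0 R)) 0 R T A := by
  obtain ⟨A, hA, h1⟩ := UB_of_mk m ((Q + 1 / 1000) * cg m)
  refine ⟨A, hA, fun {N e0 T0 G S R T} h hT hTR hR => ?_⟩
  have := G.fin
  refine ⟨hT, hTR, hR, by simp, hA, h.sub, h.zero_le, inferInstance, ?_,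
    G.stat.restrict isOpen_ball (ball_subset_ball (by linarith only [hR])),
    h1 (by simp) hR G.upper, G.area.restrict isOpen_ball⟩
  filter_upwards [ae_restrict_mem measurableSet_ball, ae_restrict_of_ae h.height,
    ae_restrict_of_ae G.ae] with y hy a1 a2
  exact ⟨hy, a1 hy, a2.2.1.restrict isOpen_ball hy⟩

/-- the pointwise comparison of the two kernels -/
theorem StateA_pt {u n g d s δ C : ℝ} (hs : 0 < s) (hu : 0 ≤ u) (hn : 0 ≤ n)
    (hus : u ≤ 20 * s) (hns : n ≤ 10 * s) (h : |u - n| ≤ 40 * δ * s) (hg : 1 ≤ g)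
    (hg' : |g - 1| ≤ C * δ) (hd : 0 ≤ d) :
    |gam (u ^ 2 / s ^ 2) * (1 - d / 2) / g - gam (n ^ 2 / s ^ 2)| ≤
      (4800 + C) * δ + gam (u ^ 2 / s ^ 2) * d := by
  have hs2 : 0 < s ^ 2 := by positivity
  have hg0 : 0 < g := zero_lt_one.trans_le hg
  have a4 : |u ^ 2 / s ^ 2 - n ^ 2 / s ^ 2| ≤ 1200 * δ := by
    rw [← sub_div, abs_div, abs_of_pos hs2, div_le_iff₀ hs2, sq_sub_sq, abs_mul,
      abs_of_nonneg (add_nonneg hu hn)]
    calc _ ≤ 30 * s * (40 * δ * s) :=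
          mul_le_mul (by linarith only [hus, hns]) h (abs_nonneg _) (by positivity)
      _ = _ := by ring
  have a5 := (gam_lip (by positivity) (by positivity)).trans
    (mul_le_mul_of_nonneg_left a4 (by norm_num : (0 : ℝ) ≤ 4))
  have a6 := gam_nonneg (u ^ 2 / s ^ 2)
  have a7 := gam_le_one (t := u ^ 2 / s ^ 2) (by positivity)
  generalize gam (u ^ 2 / s ^ 2) = x at a5 a6 a7 ⊢
  generalize gam (n ^ 2 / s ^ 2) = z at a5 ⊢
  have e : x * (1 - d / 2) / g - z = (x - z) - x * ((g - 1) / g) - x * d / 2 / g := by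
    field_simp
    ring
  have a8 : |x * ((g - 1) / g)| ≤ C * δ := by
    rw [abs_mul, abs_of_nonneg a6, abs_div, abs_of_pos hg0]
    exact (mul_le_of_le_one_left (by positivity) a7).trans
      ((div_le_self (abs_nonneg _) hg).trans hg')
  have hxd := mul_nonneg a6 hd
  have a9 : |x * d / 2 / g| ≤ x * d := by
    rw [abs_of_nonneg (by positivity)]
    exact (div_le_self (by positivity) hg).trans (by linarith only [hxd])
  rw [e]
  refine ((abs_sub _ _).trans (add_le_add ((abs_sub _ _).trans (add_le_add a5 a8)) a9)).trans ?_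
  linarith only []

/-- Let `s = R / 10`. The number `mk m μ 0 s / cg m` is between `Q` and `Q + 1 / 1000`
(`LD.le_mk`, `upper`). For almost every `y` in the piece, `y = F ζ + z` with `‖F 0‖ ≤ T`, so
`|‖y‖ - ‖ζ‖| ≤ δ ‖ζ‖ + 2 T`; both kernels vanish for `‖ζ‖ ≥ 2 s`; `gam_lip`, `sgW_lip`, `mass_cyl`,
and for the term with `d` the first part of `energy` with `σ = R / 20` and `I2_univ` (`rho s ζ = 0`
unless `‖ζ‖ < s`, and then `‖y‖ < R / 2`). -/
theorem Pre.anchor (m : ℕ) (hm : 1 ≤ m) (Q : ℕ) : ∃ δ : ℝ, 0 < δ ∧ ∀ {N : ℕ} {e0 T0 : ℝ}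
    {G : Glob m N Q e0 T0} {S : Ref m N} {R T : ℝ}, Pre G S R T → 0 < T → T ≤ δ * R → R ≤ 1 / 10 →
    (∀ ξ, ‖fderiv ℝ S.w ξ‖ ≤ δ) → Anch S G.fr (G.μ.restrict (ball 0 R)) Q 0 R := by
  obtain ⟨A, hA, hP⟩ := Pre.piece m Q
  obtain ⟨C₁, hC₁, h₁⟩ := sgW_lip m
  obtain ⟨δ₂, C₂, -, -, hC₂, h₂⟩ := Piece.energy m hm Q A
  have hcg := cg_pos m
  obtain ⟨K, hK⟩ : ∃ K : ℝ, K = (4800 + C₁ + 400 * C₂) * A * 10 ^ m / cg m := ⟨_, rfl⟩
  have hK0 : 0 < K := by rw [hK]; positivity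
  refine ⟨min (1 / 100) (1 / (20 * K)), by positivity, fun {N e0 T0 G S R T} h hT hTR hR hw => ?_⟩
  have hδ1 := min_le_left (1 / 100 : ℝ) (1 / (20 * K))
  have hδ2 := min_le_right (1 / 100 : ℝ) (1 / (20 * K))
  have hδ : 0 < min (1 / 100 : ℝ) (1 / (20 * K)) := by positivity
  generalize min (1 / 100 : ℝ) (1 / (20 * K)) = δ at hTR hw hδ hδ1 hδ2
  have hR0 : 0 < R := (pos_iff_pos_of_mul_pos (hT.trans_le hTR)).1 hδ
  have hTR' : T ≤ R / 100 := by linarith only [hTR, mul_le_mul_of_nonneg_right hδ1 hR0.le]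
  have P := hP h hT hTR' hR
  have hfin := G.fin
  obtain ⟨s, rfl⟩ : ∃ s, R = 10 * s := ⟨R / 10, by ring⟩
  have hs : 0 < s := by linarith only [hR0]
  have m1 := mk_restrict (m := m) G.μ measurableSet_ball hs
    (ball_subset_ball (x := (0 : E N)) (by linarith only [hs] : s ≤ 10 * s))
  have m2 := G.centre.le_mk G.stat hs (ball_subset_ball (by linarith only [hR, hs]))
  have m3 := G.upper 0 (mem_ball_self (by norm_num)) s hs (by linarith only [hR, hs])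
  rw [← m1] at m2 m3
  have m4 := (P.mass_cyl 0 le_rfl).2.2
  have m5 := (h₂ P).1 (s / 2) (by linarith only [hTR', hs])
  have m6 := P.I2_univ.2.2
  have hw0 : ‖S.w 0‖ ≤ T := by
    have a1 := h.zero_le
    rwa [(S.gh_calc 0).2.2.1, ← vtL_apply, map_zero, map_zero, zero_sub, norm_neg] at a1
  rw [Anch, Ref.YF, integral_rho (by linarith only [hs]), map_zero,
    show 10 * s / 10 = s by ring]
  generalize G.μ.restrict (ball 0 (10 * s)) = ν at P m2 m3 m4 m5 m6 ⊢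
  have hν := P.fin
  have k0 : 0 < cg m * s ^ m := by positivity
  have md := (S.measurable_all G.fr).2.1
  have mz := S.measurable_zeta.1
  have mg : Measurable fun y => sgW S.w (S.zeta y) :=
    (contDiff_gW (n := 0) (S.smooth.of_le (by norm_num))).2.2.continuous.measurable.comp mz
  have mr : Measurable fun y => gam (‖S.zeta y‖ ^ 2 / s ^ 2) :=
    contDiff_gam.continuous.measurable.comp ((mz.norm.pow_const 2).div_const _)
  have i1 : Integrable (fun y => gam (‖S.zeta y‖ ^ 2 / s ^ 2) * (1 - S.dd G.fr y / 2) /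
      sgW S.w (S.zeta y)) ν := by
    refine P.integrable_of_bd (M := 1 * (1 + m)) ((mr.mul ((md.div_const 2).const_sub 1)).div mg)
      fun y _ _ => ?_
    obtain ⟨a1, a2, -⟩ := S.dd_bd G.fr y
    rw [norm_div, Real.norm_of_nonneg (zero_le_one.trans (sgW_bd S.w _).2.1), norm_mul,
      Real.norm_of_nonneg (gam_nonneg _)]
    refine (div_le_self (mul_nonneg (gam_nonneg _) (norm_nonneg _)) (sgW_bd S.w _).2.1).trans
      (mul_le_mul (gam_le_one (by positivity)) ?_ (norm_nonneg _) zero_le_one)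
    rw [Real.norm_eq_abs, abs_le]
    constructor <;> linarith only [a1, a2]
  have i2 : Integrable (fun y : E N => gam (‖y - 0‖ ^ 2 / s ^ 2)) ν := StatA_int ν 0 s
  have i3 : Integrable (S.dd G.fr) ν := P.integrable_of_bd (M := m) md fun y _ _ => by
    rw [Real.norm_of_nonneg (S.dd_bd G.fr y).1]
    exact (S.dd_bd G.fr y).2.1
  have key : ‖∫ y, (gam (‖S.zeta y‖ ^ 2 / s ^ 2) * (1 - S.dd G.fr y / 2) / sgW S.w (S.zeta y) -
      gam (‖y - 0‖ ^ 2 / s ^ 2)) ∂ν‖ ≤ ∫ y, ((4800 + C₁) * δ +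
        (ball (0 : E N) (10 * s - 10 * (s / 2))).indicator (S.dd G.fr) y) ∂ν := by
    refine norm_integral_le_of_norm_le ((integrable_const _).add
      (i3.indicator measurableSet_ball)) ?_
    filter_upwards [P.ae, P.ae_tube] with y hy ht
    have a1 : ‖y‖ < 10 * s := mem_ball_zero_iff.1 hy.1
    have a2 : ‖S.zeta y‖ ≤ 20 * s := by
      have b1 := norm_le_norm_add_norm_sub' (S.zeta y) (pr S.ι y)
      have b2 := (norm_pr_le S.ι y).1
      linarith only [b1, b2, ht.2.2.2.2.2.1, a1, hTR', hs]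
    have a3 : ‖S.w (S.zeta y) - S.w 0‖ ≤ δ * ‖S.zeta y - 0‖ :=
      convex_univ.norm_image_sub_le_of_norm_fderiv_le
        (fun x _ => S.smooth.differentiable (by norm_num) x) (fun x _ => hw x) (mem_univ _)
        (mem_univ _)
    have a4 : |‖S.zeta y‖ - ‖y‖| ≤ 40 * δ * s := by
      rw [← S.ι.norm_map (S.zeta y)]
      refine (abs_norm_sub_norm_le _ _).trans ?_
      have b1 : S.ι (S.zeta y) - y = -((S.w (S.zeta y) - S.w 0) + S.w 0 + S.zz y) := by
        have b0 := (S.tube_spec ht.1).2.1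
        rw [Ref.F] at b0
        rw [sub_add_cancel, sub_eq_iff_eq_add, neg_add_eq_sub, eq_sub_iff_add_eq, ← add_assoc]
        exact b0.symm
      rw [b1, norm_neg]
      rw [sub_zero] at a3
      have b2 := mul_le_mul_of_nonneg_left a2 hδ.le
      exact norm_add₃_le.trans (by linarith only [a3, b2, hw0, ht.2.1, hTR])
    have a5 : |sgW S.w (S.zeta y) - 1| ≤ C₁ * δ :=
      (h₁ S.w S.w _ ((S.b1 _).trans (by norm_num)) ((S.b1 _).trans (by norm_num))).2.2.trans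
        (mul_le_mul_of_nonneg_left (hw _) (zero_le_one.trans hC₁))
    have a6 := (S.dd_bd G.fr y).1
    rw [sub_zero]
    refine (StateA_pt hs (norm_nonneg _) (norm_nonneg _) a2 a1.le a4 (sgW_bd S.w _).2.1 a5
      a6).trans (add_le_add le_rfl ?_)
    by_cases hy2 : y ∈ ball (0 : E N) (10 * s - 10 * (s / 2))
    · rw [indicator_of_mem hy2]
      exact mul_le_of_le_one_left a6 (gam_le_one (by positivity))
    · rw [indicator_of_notMem hy2, gam_eq_zero (Kern_ge hs ?_), zero_mul]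
      rw [mem_ball_zero_iff, not_lt] at hy2
      have b1 := mul_le_mul_of_nonneg_right hδ1 hs.le
      linarith only [(abs_le.1 a4).1, hy2, b1, hs]
  rw [integral_sub i1 i2, integral_add (integrable_const _) (i3.indicator measurableSet_ball),
    integral_indicator measurableSet_ball, integral_const, smul_eq_mul, Real.norm_eq_abs] at key
  have e1 : ∫ y, rho s (S.zeta y - 0) * (1 - S.dd G.fr y / 2) / sgW S.w (S.zeta y) ∂ν =
      (∫ y, gam (‖S.zeta y‖ ^ 2 / s ^ 2) * (1 - S.dd G.fr y / 2) / sgW S.w (S.zeta y) ∂ν) /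
        (cg m * s ^ m) := by
    rw [← integral_div]
    refine integral_congr_ae (.of_forall fun y => ?_)
    simp only [rho, sub_zero]
    ring
  have e2 : ∫ y, gam (‖y - 0‖ ^ 2 / s ^ 2) ∂ν = Gen.mk m ν 0 s * s ^ m := by
    rw [Gen.mk, mul_comm, mul_inv_cancel_left₀ (by positivity)]
  have b1 : ν.real univ * ((4800 + C₁) * δ) ≤ (4800 + C₁) * (δ * (A * (10 * s) ^ m)) :=
    (mul_le_mul_of_nonneg_right (show ν.real univ ≤ _ from m4) (by positivity)).trans_eq (by ring)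
  have b2 : C₂ * S.I2 ν 0 (10 * s) / (s / 2) ^ 2 ≤ 400 * C₂ * (δ * (A * (10 * s) ^ m)) := by
    rw [div_le_iff₀ (by positivity)]
    have c1 : T ^ 2 ≤ δ * (10 * s) ^ 2 := by
      have d1 : T ^ 2 ≤ (δ * (10 * s)) ^ 2 := pow_le_pow_left₀ hT.le hTR 2
      have d2 : δ * (δ * (10 * s) ^ 2) ≤ 1 * (δ * (10 * s) ^ 2) :=
        mul_le_mul_of_nonneg_right (by linarith only [hδ1]) (by positivity)
      linarith only [d1, d2]
    calc _ ≤ C₂ * (A * (δ * (10 * s) ^ 2) * (10 * s) ^ m) :=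
          mul_le_mul_of_nonneg_left (m6.trans (mul_le_mul_of_nonneg_right
            (mul_le_mul_of_nonneg_left c1 (by positivity)) (by positivity))) (by positivity)
      _ = _ := by ring
  have b3 : (4800 + C₁ + 400 * C₂) * (δ * (A * (10 * s) ^ m)) ≤ 1 / 20 * (cg m * s ^ m) := by
    have c1 : (4800 + C₁ + 400 * C₂) * (δ * (A * (10 * s) ^ m)) = δ * K * (cg m * s ^ m) := by
      rw [hK, mul_pow]
      field_simp
    rw [c1]
    refine mul_le_mul_of_nonneg_right ?_ k0.le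
    rw [le_div_iff₀ (by positivity)] at hδ2
    linarith only [hδ2]
  rw [e1]
  rw [e2] at key
  generalize ∫ y, gam (‖S.zeta y‖ ^ 2 / s ^ 2) * (1 - S.dd G.fr y / 2) /
    sgW S.w (S.zeta y) ∂ν = I at key ⊢
  have b4 := abs_le.1 (key.trans (show _ ≤ 1 / 20 * (cg m * s ^ m) by
    linarith only [b1, b2, b3, m5]))
  have b5 := mul_le_mul_of_nonneg_right m2 (pow_pos hs m).le
  have b6 := mul_le_mul_of_nonneg_right m3 (pow_pos hs m).le
  have b7 : (Q : ℝ) - 1 / 10 ≤ I / (cg m * s ^ m) := by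
    rw [le_div_iff₀ k0]
    linarith only [b4.1, b5, k0]
  have b8 : I / (cg m * s ^ m) ≤ Q + 1 / 10 := by
    rw [div_le_iff₀ k0]
    linarith only [b4.2, b6, k0]
  rw [abs_le]
  constructor <;> linarith only [b7, b8]

/-- improvement of the height by `sup_bound`, also at the origin (`G.centre`) -/
theorem Pre.improve (m Q : ℕ) (hQ : 1 ≤ Q) : ∃ C : ℝ, 1 ≤ C ∧ ∀ {N : ℕ} {e0 T0 : ℝ}
    {G : Glob m N Q e0 T0} {S : Ref m N} {R T σ T' : ℝ}, Pre G S R T → 0 < T → T ≤ R / 100 →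
    R ≤ 1 / 10 → 0 < σ → σ ≤ R → 0 ≤ T' → T' ≤ σ → C / σ ^ m * S.I2 G.μ 0 R ≤ T' ^ 2 →
    Pre G S (R - σ) T' := by
  obtain ⟨A, -, hP⟩ := Pre.piece m Q
  obtain ⟨C, hC, h₁⟩ := Piece.sup_bound m
  refine ⟨C, hC, fun {N e0 T0 G S R T σ T'} h hT hTR hR hσ hσR hT' hTσ hI => ?_⟩
  have P := hP h hT hTR hR
  have hfin := G.fin
  have key : ∀ y : E N, ‖y‖ + σ ≤ R → ‖S.gh y‖ ≤ T → LD m G.μ y (cg m) → ‖S.gh y‖ ≤ T' := by
    intro y hy h1 h2
    have a0 : ball y σ ⊆ ball 0 R := ball_subset_ball' (by rw [dist_zero_right]; linarith only [hy])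
    have a1 := h₁ P σ y hσ (by rwa [sub_zero]) h1
      (h2.restrict isOpen_ball (a0 (mem_ball_self hσ)))
    rw [S.I2_restrict G.μ a0] at a1
    have a2 := mul_le_mul_of_nonneg_left (S.I2_mono G.μ a0).2
      (div_nonneg (zero_le_one.trans hC) (pow_pos hσ m).le)
    exact (pow_le_pow_iff_left₀ (norm_nonneg _) hT' two_ne_zero).1 (a1.trans (a2.trans hI))
  refine ⟨h.ι_eq, key 0 (by rwa [norm_zero, zero_add]) h.zero_le fun ε hε => ?_,
    fun ξ hξ => h.sub (lt_of_lt_of_le (b := R - σ + T') (c := R + T) hξ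
      (by linarith only [hTσ, hT])), ?_⟩
  · refine (G.centre ε hε).mono fun ρ hρ => le_trans ?_ hρ
    have a1 : (1 : ℝ) ≤ Q := by exact_mod_cast hQ
    have a2 := mul_le_mul_of_nonneg_right a1 (cg_pos m).le
    linarith only [a2]
  · filter_upwards [h.height, G.ae] with y h1 h2 hy
    have a1 := mem_ball_zero_iff.1 hy
    exact key y (by linarith only [a1]) (h1 (ball_subset_ball (by linarith only [hσ]) hy)) h2.2.1

end Pool.Agent.MP_f6c0e6_an.Gen

end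

section

/-! Decay from hypothesis (H). -/

set_option autoImplicit false

open MeasureTheory Filter Topology Set Metric
open scoped ENNReal RealInnerProductSpace

namespace Pool.Agent.MP_f6c0e6_an.Gen

variable {m N : ℕ}

theorem StateB_int (S : Ref m N) (μ : Measure (E N)) [IsFiniteMeasure μ] (t : ℝ) :
    IntegrableOn (fun y => ‖S.gh y‖ ^ 2) (ball 0 t) μ := by
  have hc : Continuous fun y => ‖S.gh y‖ ^ 2 :=
    ((S.gh_calc 0).2.1.continuous.norm).pow 2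
  exact (hc.continuousOn.integrableOn_compact (isCompact_closedBall 0 t)).mono_set
    ball_subset_closedBall

/-- `sup_bound` on the piece of radius `t` with `σ = t / 4`, and hypothesis (H) in `ball 0 t` -/
theorem State.decay (m Q : ℕ) : ∃ C : ℝ, 1 ≤ C ∧ ∀ {N : ℕ} {e0 T0 : ℝ} {G : Glob m N Q e0 T0}
    {S : Ref m N} {M c a : ℕ} {C₀ w R t : ℝ}, State G M c a C₀ w S R → 0 < w → R ≤ 1 / 10 →
    t ≤ R → w ^ M ≤ t / 100 →
    S.I2 G.μ 0 (3 / 4 * t) ≤ C * max (G.eH t) 0 * S.I2 G.μ 0 t + w ^ (2 * M + 2 * c + 5) := by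
  obtain ⟨C, hC1, hC⟩ := Piece.sup_bound m
  obtain ⟨A, -, hA⟩ := Pre.piece m Q
  have h4 : (1 : ℝ) ≤ 4 ^ m := one_le_pow₀ (by norm_num)
  refine ⟨C * 4 ^ m, by nlinarith only [hC1, h4], ?_⟩
  intro N e0 T0 G S M c a C₀ w R t h hw hR ht hT
  have := G.fin
  have hT0 : 0 < w ^ M := pow_pos hw M
  have ht0 : 0 < t := by linarith only [hT0, hT]
  have hp := h.pre.mono ht
  have P := hA hp hT0 hT (ht.trans hR)
  have ht1 : t ≤ 1 := by linarith only [ht, hR]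
  have hsub : ∀ {a b : ℝ}, a ≤ b → ball (0 : E N) a ⊆ ball 0 b := fun hab =>
    ball_subset_ball hab
  have h34 : 3 / 4 * t ≤ t := by linarith only [ht0]
  have hint := StateB_int S G.μ (3 / 4 * t)
  have hI0 : 0 ≤ S.I2 G.μ 0 t := (S.I2_mono G.μ (y₀ := 0) (t := t) subset_rfl).1
  set K := C * 4 ^ m / t ^ m * S.I2 G.μ 0 t with hK
  have hC0 : 0 < C := by linarith only [hC1]
  have hK0 : 0 ≤ K := by positivity
  have hae : ∀ᵐ y ∂G.μ, y ∈ ball (0 : E N) (3 / 4 * t) \ G.Gd → ‖S.gh y‖ ^ 2 ≤ K := by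
    filter_upwards [(ae_restrict_iff' measurableSet_ball).1 P.ae] with y hy hyc
    obtain ⟨-, hz, hL⟩ := hy (hsub h34 hyc.1)
    have hy1 : ‖y‖ < 3 / 4 * t := mem_ball_zero_iff.1 hyc.1
    have h1 := hC P (t / 4) y (by positivity) (by rw [sub_zero]; linarith only [hy1]) hz hL
    have hb : ball y (t / 4) ⊆ ball 0 t := by
      refine ball_subset_ball' ?_
      rw [dist_zero_right]
      linarith only [hy1]
    rw [S.I2_restrict G.μ hb] at h1
    have h2 := (S.I2_mono G.μ hb).2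
    refine h1.trans ((mul_le_mul_of_nonneg_left h2 (by positivity)).trans (le_of_eq ?_))
    rw [hK, div_pow]
    field_simp
  have hA1 : ∫ y in ball (0 : E N) (3 / 4 * t) \ G.Gd, ‖S.gh y‖ ^ 2 ∂G.μ ≤
      C * 4 ^ m * max (G.eH t) 0 * S.I2 G.μ 0 t := by
    have h1 : ∫ y in ball (0 : E N) (3 / 4 * t) \ G.Gd, ‖S.gh y‖ ^ 2 ∂G.μ ≤
        ∫ _ in ball (0 : E N) (3 / 4 * t) \ G.Gd, K ∂G.μ :=
      setIntegral_mono_on_ae (hint.mono_set Set.sdiff_subset) (integrable_const K).integrableOn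
        (measurableSet_ball.diff G.mGd) hae
    have h2 : G.μ.real (ball (0 : E N) (3 / 4 * t) \ G.Gd) ≤ max (G.eH t) 0 * t ^ m := by
      have h3 : G.μ (ball (0 : E N) (3 / 4 * t) \ G.Gd) ≤ G.μ (G.Gdᶜ ∩ ball 0 t) :=
        measure_mono fun y hy => ⟨hy.2, hsub h34 hy.1⟩
      refine (ENNReal.toReal_mono (measure_ne_top _ _) h3).trans
        ((G.small t ht0 ht1).trans ?_)
      exact mul_le_mul_of_nonneg_right (le_max_left _ _) (by positivity)
    rw [setIntegral_const, smul_eq_mul] at h1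
    refine h1.trans ((mul_le_mul_of_nonneg_right h2 hK0).trans (le_of_eq ?_))
    rw [hK]
    field_simp
  have hB : ∫ y in ball (0 : E N) (3 / 4 * t) ∩ G.Gd, ‖S.gh y‖ ^ 2 ∂G.μ ≤
      w ^ (2 * M + 2 * c + 5) := by
    refine le_trans (setIntegral_mono_set ((StateB_int S G.μ R).mono_set inter_subset_right)
      (ae_of_all _ fun y => by positivity) (ae_of_all _ fun y hy => ?_)) h.floor
    exact ⟨hy.2, hsub (h34.trans ht) hy.1⟩
  have hs := integral_inter_add_sdiff (μ := G.μ) (s := ball (0 : E N) (3 / 4 * t)) G.mGd hint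
  rw [Ref.I2, ← hs]
  linarith only [hA1, hB]

/-- iterate `decay` -/
theorem State.drop (m Q M c : ℕ) (hM : 2 ≤ M) (C₀ κ : ℝ) (hκ : 0 < κ) (hκ1 : κ ≤ 1 / 4) :
    ∃ e w₀ : ℝ, 0 < e ∧ 0 < w₀ ∧ ∀ {N : ℕ} {e0 T0 : ℝ} {G : Glob m N Q e0 T0} {S : Ref m N}
    {a : ℕ} {R w : ℝ}, State G M c a C₀ w S R → 0 < w → w ≤ w₀ → √w ≤ R → R ≤ 1 / 10 →
    (∀ r, 0 < r → r ≤ R → G.eH r ≤ e) → S.I2 G.μ 0 (R * w ^ κ) ≤ w ^ (2 * M + 2 * c + 1) := by
  obtain ⟨C, hC1, hC⟩ := State.decay m Q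
  have hC0 : 0 < C := by linarith only [hC1]
  obtain ⟨n, hn⟩ : ∃ n : ℕ, n = ⌈2 / κ⌉₊ + 3 := ⟨_, rfl⟩
  have hnκ : 2 ≤ κ * n := by
    have h1 : 2 / κ ≤ (⌈2 / κ⌉₊ : ℝ) := Nat.le_ceil _
    have h2 : (n : ℝ) = ⌈2 / κ⌉₊ + 3 := by rw [hn]; push_cast; ring
    rw [div_le_iff₀ hκ] at h1
    rw [h2]
    linarith only [h1, hκ]
  set b : ℝ := (3 / 4) ^ n with ha
  have ha0 : 0 < b := by positivity
  have ha1 : b ≤ 1 / 2 := by
    have : b ≤ (3 / 4) ^ 3 := pow_le_pow_of_le_one (by norm_num) (by norm_num) (by omega)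
    linarith only [this]
  refine ⟨b / C, min (1 / 100) (b / (2 * (|C₀| + 1))), by positivity, by positivity, ?_⟩
  intro N e0 T0 G S a R w h hw hw0 hR hR1 he
  have := G.fin
  have hw1 : w ≤ 1 / 100 := hw0.trans (min_le_left _ _)
  have hw2 : w * (2 * (|C₀| + 1)) ≤ b := by
    have := hw0.trans (min_le_right _ _)
    rwa [le_div_iff₀ (by positivity)] at this
  have hsq : 0 < √w := Real.sqrt_pos.2 hw
  have hR0 : 0 < R := hsq.trans_le hR
  have hx0 : 0 < w ^ κ := Real.rpow_pos_of_pos hw κ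
  have hx1 : w ^ κ ≤ 1 := Real.rpow_le_one hw.le (by linarith only [hw1]) hκ.le
  have hx2 : √w ≤ w ^ κ := by
    rw [Real.sqrt_eq_rpow]
    exact Real.rpow_le_rpow_of_exponent_ge hw (by linarith only [hw1]) (by linarith only [hκ1])
  obtain ⟨k, hk1, hk2⟩ := exists_nat_pow_near_of_lt_one hx0 hx1
    (show (0 : ℝ) < 3 / 4 by norm_num) (by norm_num)
  have hwM : w ^ M ≤ w / 100 := by
    have h1 : w ^ M ≤ w ^ 2 := pow_le_pow_of_le_one hw.le (by linarith only [hw1]) hM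
    have h2 := mul_le_mul_of_nonneg_left hw1 hw.le
    linarith only [h1, h2]
  have hb : 0 < w ^ (2 * M + 2 * c + 5) := by positivity
  have key : ∀ j, j ≤ k → S.I2 G.μ 0 (R * (3 / 4) ^ j) ≤
      b ^ j * S.I2 G.μ 0 R + 2 * w ^ (2 * M + 2 * c + 5) := by
    intro j
    induction j with
    | zero => intro _; simp only [pow_zero, mul_one, one_mul]; linarith only [hb]
    | succ j ih =>
      intro hj
      have ih := ih (by omega)
      have h1 : ((3 : ℝ) / 4) ^ j ≤ 1 := pow_le_one₀ (by norm_num) (by norm_num)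
      have h2 : ((3 : ℝ) / 4) ^ k ≤ (3 / 4) ^ j :=
        pow_le_pow_of_le_one (by norm_num) (by norm_num) (by omega)
      have ht : R * (3 / 4) ^ j ≤ R := mul_le_of_le_one_right hR0.le h1
      have ht2 : w ≤ R * (3 / 4) ^ j := by
        calc w = √w * √w := (Real.mul_self_sqrt hw.le).symm
          _ ≤ R * (3 / 4) ^ j := mul_le_mul hR (hx2.trans (hk2.trans h2)) hsq.le hR0.le
      have hd := hC h hw hR1 ht (by linarith only [hwM, ht2])
      have h3 : max (G.eH (R * (3 / 4) ^ j)) 0 ≤ b / C :=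
        max_le (he _ (by positivity) ht) (by positivity)
      have h3' : C * max (G.eH (R * (3 / 4) ^ j)) 0 ≤ b := by
        rw [le_div_iff₀ hC0] at h3
        linarith only [h3]
      have h4 : 0 ≤ S.I2 G.μ 0 (R * (3 / 4) ^ j) :=
        (S.I2_mono G.μ (y₀ := 0) (t := R * (3 / 4) ^ j) subset_rfl).1
      have h5 : C * max (G.eH (R * (3 / 4) ^ j)) 0 * S.I2 G.μ 0 (R * (3 / 4) ^ j) ≤
          b * S.I2 G.μ 0 (R * (3 / 4) ^ j) := mul_le_mul_of_nonneg_right h3' h4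
      have h6 := mul_le_mul_of_nonneg_left ih ha0.le
      have h7 : b * (2 * w ^ (2 * M + 2 * c + 5)) ≤ w ^ (2 * M + 2 * c + 5) := by
        have h8 := mul_le_mul_of_nonneg_right ha1 hb.le
        linarith only [h8]
      rw [show R * (3 / 4) ^ (j + 1) = 3 / 4 * (R * (3 / 4) ^ j) by ring, pow_succ b j]
      linarith only [hd, h5, h6, h7]
  have h1 := (S.I2_mono G.μ (y₀ := 0) (y₁ := 0)
    (ball_subset_ball (mul_le_mul_of_nonneg_left hk2 hR0.le))).2
  have h2 : b ^ k * b ≤ w ^ 2 := by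
    calc b ^ k * b = ((3 / 4) ^ (k + 1)) ^ n := by
          rw [ha, ← pow_succ, ← pow_mul, ← pow_mul, mul_comm]
      _ ≤ (w ^ κ) ^ n := pow_le_pow_left₀ (by positivity) hk1.le n
      _ = w ^ (κ * n) := by rw [Real.rpow_mul hw.le, Real.rpow_natCast]
      _ ≤ w ^ ((2 : ℕ) : ℝ) :=
          Real.rpow_le_rpow_of_exponent_ge hw (by linarith only [hw1]) (by exact_mod_cast hnκ)
      _ = w ^ 2 := Real.rpow_natCast w 2
  have hak : 0 < b ^ k := by positivity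
  have h3 : b ^ k * (2 * (|C₀| + 1)) ≤ w := by
    have h4 := mul_le_mul_of_nonneg_left hw2 hak.le
    refine le_of_mul_le_mul_left ?_ hw
    linarith only [h2, h4]
  have hc : 0 < w ^ (2 * M + 2 * c) := by positivity
  have h4 : S.I2 G.μ 0 R ≤ (|C₀| + 1) * w ^ (2 * M + 2 * c) :=
    h.total.trans (mul_le_mul_of_nonneg_right (by linarith only [le_abs_self C₀]) hc.le)
  have h5 : b ^ k * S.I2 G.μ 0 R ≤ w ^ (2 * M + 2 * c + 1) / 2 := by
    have h6 := mul_le_mul_of_nonneg_left h4 hak.le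
    have h7 := mul_le_mul_of_nonneg_right h3 hc.le
    rw [pow_succ w (2 * M + 2 * c)]
    linarith only [h6, h7]
  have h6 : 2 * w ^ (2 * M + 2 * c + 5) ≤ w ^ (2 * M + 2 * c + 1) / 2 := by
    have h7 : w ^ 4 ≤ w ^ 1 := pow_le_pow_of_le_one hw.le (by linarith only [hw1]) (by norm_num)
    have h8 : 0 < w ^ (2 * M + 2 * c + 1) := by positivity
    rw [show 2 * M + 2 * c + 5 = 2 * M + 2 * c + 1 + 4 by ring, pow_add w (2 * M + 2 * c + 1)]
    have h9 := mul_le_mul_of_nonneg_left (show w ^ 4 ≤ 1 / 4 by linarith only [h7, hw1]) h8.le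
    linarith only [h9]
  linarith only [key k le_rfl, h1, h5, h6]

end Pool.Agent.MP_f6c0e6_an.Gen

end

section

/-! The new reference. -/

set_option autoImplicit false

open MeasureTheory Filter Topology Set Metric
open scoped ENNReal RealInnerProductSpace

namespace Pool.Agent.MP_f6c0e6_an.Gen

variable {m N : ℕ}

theorem StateC_div {w : ℝ} (hw : 0 < w) (hw1 : w ≤ 1) {i j k : ℕ} (h : j + k ≤ i) {B B' : ℝ}
    (hB : B ≤ B') (hB' : 0 ≤ B') : B * w ^ i / w ^ j ≤ B' * w ^ k := by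
  rw [div_le_iff₀ (by positivity), mul_assoc, ← pow_add]
  exact mul_le_mul hB (pow_le_pow_of_le_one hw.le hw1 (by omega)) (by positivity) hB'

theorem StateC_one {w B : ℝ} (hw : 0 < w) (hB : B * w ≤ 1) (k : ℕ) : B * w ^ (k + 1) ≤ w ^ k := by
  rw [pow_succ', ← mul_assoc]
  exact mul_le_of_le_one_left (by positivity) hB

theorem StateC_num {w C A s : ℝ} {P M c a ρ : ℕ} (hw : 0 < w) (hw1 : w ≤ 1) (hA : 1 ≤ A)
    (hC : 1 ≤ C) (hK : 4 * C * A ^ 2 * w ≤ 1) (ha : P + 5 ≤ a) (hρ : 4 * a * P + P + 5 ≤ ρ)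
    (hM : ρ * (2 * P) + ρ + c ≤ M) (hs : w ^ (4 * a) ≤ s) (hs' : s ≤ w ^ a) :
    C * (s * (A * w ^ (M + c)) + (w ^ (2 * M) + w ^ ρ * (A * w ^ (M + c)) +
      (A * w ^ (M + c)) ^ 2 / (w ^ ρ) ^ (2 * P)) / s ^ P) / w ^ P ≤ w ^ (M + c + 4) := by
  have hA2 : A ≤ A ^ 2 := by nlinarith only [hA]
  have hA0 : 0 ≤ A ^ 2 := sq_nonneg A
  have e1 : w ^ (2 * M) ≤ A ^ 2 * w ^ (M + c + ρ) :=
    (pow_le_pow_of_le_one hw.le hw1 (by omega)).trans
      (le_mul_of_one_le_left (by positivity) (hA.trans hA2))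
  have e2 : w ^ ρ * (A * w ^ (M + c)) ≤ A ^ 2 * w ^ (M + c + ρ) := by
    rw [pow_add w (M + c) ρ]
    nlinarith only [mul_le_mul_of_nonneg_right hA2 (show 0 ≤ w ^ (M + c) * w ^ ρ by positivity)]
  have e3 : (A * w ^ (M + c)) ^ 2 / (w ^ ρ) ^ (2 * P) ≤ A ^ 2 * w ^ (M + c + ρ) := by
    rw [mul_pow, ← pow_mul, ← pow_mul]
    exact StateC_div hw hw1 (by omega) le_rfl hA0
  have e4 : (w ^ (2 * M) + w ^ ρ * (A * w ^ (M + c)) +
      (A * w ^ (M + c)) ^ 2 / (w ^ ρ) ^ (2 * P)) / s ^ P ≤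
      3 * A ^ 2 * w ^ (M + c + ρ) / w ^ (4 * a * P) := by
    rw [pow_mul w (4 * a) P]
    exact div_le_div₀ (by positivity) (by linarith only [e1, e2, e3]) (by positivity)
      (pow_le_pow_left₀ (by positivity) hs P)
  have e5 : 3 * A ^ 2 * w ^ (M + c + ρ) / w ^ (4 * a * P) ≤ 3 * A ^ 2 * w ^ (M + c + P + 5) :=
    StateC_div hw hw1 (by omega) le_rfl (by positivity)
  have e6 : s * (A * w ^ (M + c)) ≤ A ^ 2 * w ^ (M + c + P + 5) := by
    calc s * (A * w ^ (M + c)) ≤ w ^ (P + 5) * (A ^ 2 * w ^ (M + c)) :=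
          mul_le_mul (hs'.trans (pow_le_pow_of_le_one hw.le hw1 ha))
            (mul_le_mul_of_nonneg_right hA2 (by positivity)) (by positivity) (by positivity)
      _ = _ := by ring
  calc _ ≤ C * (4 * A ^ 2 * w ^ (M + c + P + 5)) / w ^ P :=
        div_le_div_of_nonneg_right (mul_le_mul_of_nonneg_left (by linarith only [e4, e5, e6])
          (zero_le_one.trans hC)) (by positivity)
    _ = 4 * C * A ^ 2 * w ^ (M + c + P + 5) / w ^ P := by ring
    _ ≤ 4 * C * A ^ 2 * w ^ (M + c + 4 + 1) := StateC_div hw hw1 (by omega) le_rfl (by positivity)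
    _ ≤ _ := StateC_one hw hK _

theorem StateC_L1 {S : Ref m N} {fr : Fr m N} {μ : Measure (E N)} {y₀ : E N} {R T A Q t : ℝ}
    (P : Piece S fr μ y₀ R T A) (hQ : 1 ≤ Q) (ht : 0 < t) (hI : S.I2 μ y₀ R ≤ t ^ 2) :
    Integrable (fun y => (Q * sgW S.w (pr S.ι y))⁻¹ • S.gh y) μ ∧
      ∫ y, ‖(Q * sgW S.w (pr S.ι y))⁻¹ • S.gh y‖ ∂μ ≤ A * t := by
  have := P.fin
  have hg : Continuous S.gh := (S.gh_calc 0).2.1.continuous
  have hs : Continuous (sgW S.w) :=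
    (contDiff_gW (n := 0) (S.smooth.of_le (by exact_mod_cast (by norm_num : 1 ≤ 3)))).2.2.continuous
  have hle : ∀ y, ‖(Q * sgW S.w (pr S.ι y))⁻¹ • S.gh y‖ ≤ ‖S.gh y‖ := fun y => by
    have h1 : 1 ≤ Q * sgW S.w (pr S.ι y) := one_le_mul_of_one_le_of_one_le hQ (sgW_bd _ _).2.1
    rw [norm_smul, Real.norm_of_nonneg (inv_nonneg.2 (zero_le_one.trans h1))]
    exact mul_le_of_le_one_left (norm_nonneg _) (inv_le_one_of_one_le₀ h1)
  have i1 : Integrable (fun y => (Q * sgW S.w (pr S.ι y))⁻¹ • S.gh y) μ :=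
    P.integrable_of_bd (((hs.comp (pr S.ι).continuous).measurable.const_mul Q).inv.smul
      hg.measurable) fun y _ hy => (hle y).trans hy
  have i2 : Integrable (fun y => ‖S.gh y‖ ^ 2) μ :=
    P.integrable_of_bd (hg.norm.pow 2).measurable (M := T ^ 2) fun y _ hy => by
      rw [Real.norm_of_nonneg (sq_nonneg _)]
      exact pow_le_pow_left₀ (norm_nonneg _) hy 2
  have hR : R ^ m ≤ 1 := pow_le_one₀ (by linarith only [P.T_pos, P.T_le])
    (by linarith only [P.R_le])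
  have hμ : μ.real univ ≤ A := (P.mass_cyl 0 le_rfl).2.2.trans
    (mul_le_of_le_one_right (zero_le_one.trans P.A_ge) hR)
  refine ⟨i1, (integral_mono i1.norm ((i2.div_const (2 * t)).fun_add (integrable_const (t / 2)))
    fun y => (hle y).trans ?_).trans ?_⟩
  · rw [div_add' _ _ _ (by positivity), le_div_iff₀ (by positivity)]
    nlinarith only [sq_nonneg (‖S.gh y‖ - t)]
  · rw [integral_add (i2.div_const _) (integrable_const _), integral_div, integral_const,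
      P.I2_univ.1, smul_eq_mul]
    have e1 : S.I2 μ y₀ R / (2 * t) ≤ t / 2 := by
      rw [div_le_iff₀ (by positivity)]
      linarith only [hI]
    nlinarith only [e1, mul_le_mul_of_nonneg_right hμ ht.le, mul_le_mul_of_nonneg_right P.A_ge ht.le]

/-- Let `P₀, C, ε₀` be given by `upd_solve`, `c = P₀ + m + 2`, `a = 2 c + P₀ + 10`,
`r = w ^ (4 a P₀ + P₀ + 10)`, `σ = w`, `K = dom 0 (R - 7 w)`, `V = ker (pr ι)`,
`f y = (Q sgW (pr y))⁻¹ • gh y`, `T₁ = C w ^ (M + c)` (Cauchy-Schwarz), `e = w ^ (2 M)` (`jacobi`,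
`qq_le`); `thickening (4 w) K ⊆ dom 0 (R - T) ⊆ D` (`F_lip`). The new reference is `w + u` with the
domain `thickening w K` (`Wn.add`, `Wn.bd`). -/
theorem Piece.update (m : ℕ) (hm : 1 ≤ m) (N : ℕ) (A : ℝ) : ∃ (c a M₀ : ℕ) (ε₀ : ℝ), m + 2 ≤ c ∧
    2 * c + 10 ≤ a ∧ 0 < ε₀ ∧ ε₀ ≤ 1 / 100 ∧ ∀ M : ℕ, M₀ ≤ M → ∃ w₀ : ℝ, 0 < w₀ ∧
    ∀ {S : Ref m N} {fr : Fr m N} {μ : Measure (E N)} {R Q w ε : ℝ},
    Piece S fr μ 0 R (w ^ (M + 1)) A → 1 ≤ Q → 0 < w → w ≤ w₀ →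
    S.I2 μ 0 R ≤ w ^ (2 * M + 2 * c) → ∫ y, S.qq fr y ∂μ ≤ w ^ (2 * M + 2 * c - 3) →
    Wn (s0 m) S.w ε → ε + w ≤ ε₀ →
    ∃ (S' : Ref m N) (u : E m → E N), S'.ι = S.ι ∧ (S'.w = fun ξ => S.w ξ + u ξ) ∧
      Wn (s0 m) u (w ^ 2) ∧ S.dom 0 (R - 7 * w) ⊆ S'.D ∧
      (∀ ξ ∈ thickening w (S.dom 0 (R - 7 * w)),
        ‖u ξ‖ ≤ w ^ (M + 1) ∧ ‖fderiv ℝ u ξ‖ ≤ w ^ (M + 1)) ∧
      ∀ s, w ^ (4 * a) ≤ s → s ≤ w ^ a → ∀ ξ ∈ S.dom 0 (R - 7 * w),
        ‖u ξ - S.mean μ Q s ξ‖ ≤ w ^ (M + c + 4) := by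
  obtain ⟨P₀, C, ε₁, hP₀, hC, hε₁, hU⟩ := upd_solve m N hm
  obtain ⟨C₁, hC₁, hJ⟩ := Piece.jacobi m
  obtain ⟨c, hc⟩ : ∃ c : ℕ, c = P₀ + m + 2 := ⟨_, rfl⟩
  obtain ⟨a, ha⟩ : ∃ a : ℕ, a = 2 * c + P₀ + 10 := ⟨_, rfl⟩
  obtain ⟨ρ, hρ⟩ : ∃ ρ : ℕ, ρ = 4 * a * P₀ + P₀ + 10 := ⟨_, rfl⟩
  refine ⟨c, a, ρ * (2 * P₀) + ρ + c + 3, min ε₁ (1 / 100), by omega, by omega,
    lt_min hε₁ (by norm_num), min_le_right _ _, fun M hM => ?_⟩
  have hK0 : 0 < 4 * C * C₁ * (A ^ 2 + 1) := by positivity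
  refine ⟨(4 * C * C₁ * (A ^ 2 + 1))⁻¹, inv_pos.2 hK0, ?_⟩
  intro S fr μ R Q w ε P hQ hw hw0 hI hq hW hε
  have hfin := P.fin
  have hA := P.A_ge
  have hε' : ε + w ≤ 1 / 100 := hε.trans (min_le_right _ _)
  have hε0 : 0 ≤ ε := hW.cb.nonneg
  have hw1 : w ≤ 1 := by linarith only [hε', hε0]
  have hK : 4 * C * C₁ * (A ^ 2 + 1) * w ≤ 1 := by
    have := mul_le_mul_of_nonneg_left hw0 hK0.le
    rwa [mul_inv_cancel₀ hK0.ne'] at this
  have hA2 : A ≤ A ^ 2 := by nlinarith only [hA]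
  have hK1 : 4 * C * A ^ 2 * w ≤ 1 := le_trans (by
    have e1 : 0 ≤ 4 * C * w := by positivity
    nlinarith only [mul_le_mul_of_nonneg_left (mul_le_mul hC₁ (le_add_of_nonneg_right
      zero_le_one : A ^ 2 ≤ A ^ 2 + 1) (sq_nonneg A) (zero_le_one.trans hC₁)) e1]) hK
  have hK2 : C * A * w ≤ 1 := le_trans (by
    have e1 : 0 ≤ C * w := by positivity
    nlinarith only [mul_le_mul_of_nonneg_left hA2 e1, mul_nonneg e1 (sq_nonneg A)]) hK1
  have hK3 : C₁ * (1 + A) * w ≤ 1 := le_trans (by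
    have e1 : 0 ≤ C₁ * w := by positivity
    have e2 : 1 + A ≤ 4 * C * (A ^ 2 + 1) := by nlinarith only [hA2, hC, sq_nonneg A]
    nlinarith only [mul_le_mul_of_nonneg_left e2 e1]) hK
  have hdiv : ∀ j k, j + k + 1 ≤ M + c → C * (A * w ^ (M + c)) / w ^ j ≤ w ^ k := fun j k h => by
    rw [← mul_assoc]
    exact (StateC_div hw hw1 (k := k + 1) (by omega) le_rfl (by positivity)).trans
      (StateC_one hw hK2 k)
  have hT : w ^ (M + 1) ≤ w := by
    simpa using pow_le_pow_of_le_one hw.le hw1 (show 1 ≤ M + 1 by omega)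
  have hsub : thickening (4 * w) (S.dom 0 (R - 7 * w)) ⊆ S.dom 0 (R - w ^ (M + 1)) := by
    intro ξ hξ
    obtain ⟨ξ', h1, h2⟩ := mem_thickening_iff.1 hξ
    rw [dist_eq_norm] at h2
    have h3 : ‖S.F ξ' - 0‖ < R - 7 * w := h1
    have h4 := norm_sub_le_norm_sub_add_norm_sub (S.F ξ) (S.F ξ') 0
    show ‖S.F ξ - 0‖ < R - w ^ (M + 1)
    linarith only [h2, h3, h4, (S.F_lip ξ ξ').2.1, hT, hw]
  obtain ⟨i1, hL⟩ := StateC_L1 P hQ (pow_pos hw (M + c)) (hI.trans_eq (by ring))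
  obtain ⟨u, hu, huV, hmin, hub, hmean⟩ := hU (LinearMap.ker (pr S.ι : E N →ₗ[ℝ] E m)) S.w
    (S.dom 0 (R - 7 * w)) μ (pr S.ι) (fun y => (Q * sgW S.w (pr S.ι y))⁻¹ • S.gh y)
    (A * w ^ (M + c)) (w ^ (2 * M)) w (w ^ ρ)
    (hW.mono (by linarith only [hε, hw, min_le_left ε₁ (1 / 100)])) S.vert
    (fun ξ hξ => by
      have h1 : ‖S.F ξ - 0‖ < R - 7 * w := hξ
      have h2 := (norm_pr_le S.ι (S.F ξ)).1
      rw [(S.F_calc ξ).2.2.2.2.1] at h2
      rw [sub_zero] at h1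
      exact mem_ball_zero_iff.2 (by linarith only [h1, h2, hw, P.R_le]))
    (pow_pos hw ρ) (by simpa using pow_le_pow_of_le_one hw.le hw1 (show 1 ≤ ρ by omega))
    (by linarith only [hε', hε0])
    (fun ξ hξ => S.min ξ (P.sub (lt_of_lt_of_le (b := R - w ^ (M + 1)) (hsub hξ)
      (by linarith only [P.T_pos]))))
    (pr S.ι).continuous.measurable i1
    (fun y => Submodule.smul_mem _ _ (S.gh_calc y).1) hL (by positivity)
    ((pow_le_pow_of_le_one hw.le hw1 (by omega)).trans (le_mul_of_one_le_left (by positivity) hA))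
    (by
      have := hdiv 0 (ρ * (2 * P₀)) (by omega)
      rwa [pow_zero, div_one, pow_mul] at this)
    (fun ψ b hψ hb => by
      have hb0 : 0 ≤ b := (norm_nonneg _).trans (hb.b0 0)
      have h1 := hJ P ψ b ⟨hψ.smooth, hψ.cpt, hψ.supp.trans hsub⟩ hb
      obtain ⟨j1, j2, -, h2⟩ := P.qq_le
      have e1 : ∀ y, ⟪(Q * sgW S.w (pr S.ι y))⁻¹ • S.gh y,
          sgW S.w (pr S.ι y) • Lst S.w ψ (pr S.ι y)⟫ = Q⁻¹ * ⟪S.gh y, Lst S.w ψ (pr S.ι y)⟫ :=
        fun y => by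
          have h0 : sgW S.w (pr S.ι y) ≠ 0 := (zero_lt_one.trans_le (sgW_bd _ _).2.1).ne'
          rw [real_inner_smul_left, real_inner_smul_right]
          field_simp
      simp only [e1]
      rw [integral_const_mul, abs_mul, abs_of_nonneg (inv_nonneg.2 (zero_le_one.trans hQ))]
      refine (mul_le_of_le_one_left (abs_nonneg _) (inv_le_one_of_one_le₀ hQ)).trans (h1.trans ?_)
      rw [integral_add j1 (j2.const_mul _), integral_const_mul]
      have e2 : ∫ y, S.qq fr y ∂μ ≤ w ^ (2 * M + 1) :=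
        hq.trans (pow_le_pow_of_le_one hw.le hw1 (by omega))
      have e3 : ∫ y, √(S.qq fr y) ∂μ ≤ A * w ^ M := h2.trans (Real.sqrt_le_iff.2
        ⟨by positivity, by
          rw [mul_pow, ← pow_mul]
          exact (mul_le_mul_of_nonneg_left e2 (zero_le_one.trans hA)).trans (mul_le_mul hA2
            (pow_le_pow_of_le_one hw.le hw1 (by omega)) (by positivity) (sq_nonneg A))⟩)
      calc _ ≤ C₁ * b * (w ^ (2 * M + 1) + w ^ (M + 1) * (A * w ^ M)) :=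
            mul_le_mul_of_nonneg_left (add_le_add e2 (mul_le_mul_of_nonneg_left e3
              (by positivity))) (by positivity)
        _ = C₁ * (1 + A) * w ^ (2 * M + 1) * b := by ring
        _ ≤ _ := mul_le_mul_of_nonneg_right (StateC_one hw hK3 _) hb0)
  have hu2 : Wn (s0 m) u (w ^ 2) := hu.mono (by
    rw [← pow_mul]
    exact hdiv _ 2 (by
      have : ρ * (2 * P₀) = 2 * (ρ * P₀) := by ring
      omega))
  have hww : w ^ 2 ≤ w := by nlinarith only [hw, hw1]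
  obtain ⟨h3, hbd, hb3⟩ := ((hW.add hu2).mono (M' := 1 / 100)
    (by linarith only [hε', hww])).bd (show 3 ≤ s0 m by unfold s0; omega)
  refine ⟨⟨S.ι, fun ξ => S.w ξ + u ξ, thickening w (S.dom 0 (R - 7 * w)), h3, fun ξ => ?_, hbd.b0,
    hbd.b1, hbd.b2, hb3, isOpen_thickening, hmin⟩, u, rfl, rfl, hu2, self_subset_thickening hw _,
    fun ξ hξ => ⟨(hub ξ hξ).1.trans (hdiv _ _ (by omega)), (hub ξ hξ).2.trans (hdiv _ _ (by omega))⟩,
    fun s hs hs' ξ hξ => ?_⟩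
  · have h1 : pr S.ι (u ξ) = 0 := huV ξ
    rw [map_add, S.vert, h1, add_zero]
  · refine (hmean s ((pow_pos hw _).trans_le hs) (hs'.trans ?_) ξ hξ).trans
      (StateC_num hw hw1 hA hC hK1 (by omega) (by omega) (by omega) hs hs')
    simpa using pow_le_pow_of_le_one hw.le hw1 (show 1 ≤ a by omega)

end Pool.Agent.MP_f6c0e6_an.Gen

end

section

/-! One update. -/

set_option autoImplicit false

open MeasureTheory Filter Topology Set Metric
open scoped ENNReal RealInnerProductSpace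

namespace Pool.Agent.MP_f6c0e6_an.Gen

variable {m N : ℕ}

theorem StateD_int {F : Type*} [NormedAddCommGroup F] (μ : Measure (E N)) [IsFiniteMeasure μ]
    (R : ℝ) {f : E N → F} (hf : Continuous f) : Integrable f (μ.restrict (ball 0 R)) :=
  (hf.continuousOn.integrableOn_compact (isCompact_closedBall 0 R)).mono_set ball_subset_closedBall

theorem StateD_isq (μ : Measure (E N)) [IsFiniteMeasure μ] (R : ℝ) {f : E N → E N}
    (hf : Continuous f) : Integrable (fun y => ‖f y‖ ^ 2) (μ.restrict (ball 0 R)) :=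
  StateD_int μ R (hf.norm.pow 2)

theorem StateD_sq {ν : Measure (E N)} [IsFiniteMeasure ν] {B : Set (E N)} (hB : MeasurableSet B)
    {f g : E N → E N} {e A : ℝ} (hg : Integrable (fun y => ‖g y‖ ^ 2) ν)
    (hA : (ν univ).toReal ≤ A) (h : ∀ᵐ y ∂ν, y ∈ B → ‖f y - g y‖ ≤ e) :
    ∫ y in B, ‖f y‖ ^ 2 ∂ν ≤ 2 * ∫ y in B, ‖g y‖ ^ 2 ∂ν + 2 * A * e ^ 2 := by
  have i1 : IntegrableOn (fun y => 2 * ‖g y‖ ^ 2) B ν := (hg.const_mul 2).integrableOn
  have i2 : IntegrableOn (fun _ : E N => 2 * e ^ 2) B ν := (integrable_const _).integrableOn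
  have key : ∫ y in B, ‖f y‖ ^ 2 ∂ν ≤ ∫ y in B, (2 * ‖g y‖ ^ 2 + 2 * e ^ 2) ∂ν := by
    refine integral_mono_of_nonneg (Eventually.of_forall fun y => by positivity) (i1.add i2) ?_
    refine (ae_restrict_iff' hB).2 ?_
    filter_upwards [h] with y hy hyB
    have h4 : ‖f y‖ ≤ ‖g y‖ + e := by
      have := norm_add_le (g y) (f y - g y)
      rw [add_sub_cancel] at this
      linarith [hy hyB]
    have h5 : ‖f y‖ ^ 2 ≤ (‖g y‖ + e) ^ 2 := pow_le_pow_left₀ (norm_nonneg _) h4 2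
    linarith only [h5, sq_nonneg (‖g y‖ - e)]
  rw [integral_add i1 i2, integral_const_mul, setIntegral_const, smul_eq_mul] at key
  have h1 : ν.real B ≤ A := (measureReal_mono (subset_univ B)).trans hA
  have h2 : ν.real B * (2 * e ^ 2) ≤ A * (2 * e ^ 2) :=
    mul_le_mul_of_nonneg_right h1 (by positivity)
  linarith

theorem StateD_sg (S : Ref m N) : Continuous fun y : E N => sgW S.w (pr S.ι y) :=
  (contDiff_gW (n := 2) (w := S.w) S.smooth).2.2.continuous.comp (pr S.ι).continuous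

theorem StateD_gh (S : Ref m N) : Continuous S.gh := (S.gh_calc 0).2.1.continuous

theorem StateD_th (S : Ref m N) (s : ℝ) (ξ : E m) :
    Continuous fun y : E N => th s (pr S.ι y - ξ) :=
  (contDiff_th s 0).continuous.comp ((pr S.ι).continuous.sub continuous_const)

theorem StateD_new {S S' : Ref m N} {u : E m → E N} (hι : S'.ι = S.ι)
    (hw : S'.w = fun ξ => S.w ξ + u ξ) :
    (∀ ξ, S'.F ξ = S.F ξ + u ξ) ∧ ∀ y, S'.gh y = S.gh y - u (pr S.ι y) := by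
  have h : ∀ ξ, S'.F ξ = S.F ξ + u ξ := fun ξ => by
    simp only [Ref.F, hι, hw, add_assoc]
  refine ⟨h, fun y => ?_⟩
  simp only [Ref.gh, hι, h, sub_sub]

theorem StateD_dom (S : Ref m N) {y : E N} {ρ T r : ℝ} (hy : y ∈ ball (0 : E N) ρ)
    (hg : ‖S.gh y‖ ≤ T) (hr : ρ + T ≤ r) : pr S.ι y ∈ S.dom 0 r := by
  have e : S.F (pr S.ι y) - 0 = y - S.gh y := by simp [Ref.gh]
  have h1 := norm_sub_le y (S.gh y)
  rw [mem_ball_zero_iff] at hy
  show ‖S.F (pr S.ι y) - 0‖ < r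
  rw [e]
  linarith only [hy, hg, hr, h1]

theorem StateD_track (hm : 1 ≤ m) {S S' : Ref m N} (μ : Measure (E N)) [IsFiniteMeasure μ] (R : ℝ)
    {u : E m → E N} (hι : S'.ι = S.ι) (hw : S'.w = fun ξ => S.w ξ + u ξ) {Q s h Cs CL κ e : ℝ}
    (hQ : 1 ≤ Q) (hs : 0 < s) {ξ : E m} (hud : Differentiable ℝ u)
    (hu : ∀ η ∈ ball ξ s, ‖u η‖ ≤ h ∧ ‖fderiv ℝ u η‖ ≤ h)
    (hg : ∀ᵐ y ∂μ.restrict (ball 0 R), ‖S.gh y‖ ≤ h) (hCs0 : 0 ≤ Cs)
    (hCs : ∀ x, |(sgW S'.w x)⁻¹ - (sgW S.w x)⁻¹| ≤ Cs * ‖fderiv ℝ S'.w x - fderiv ℝ S.w x‖)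
    (hth : ∫ y, th s (pr S.ι y - ξ) ∂μ.restrict (ball 0 R) ≤ CL)
    (hmass : |S.mass (μ.restrict (ball 0 R)) s ξ - Q| ≤ κ)
    (hmean : ‖u ξ - S.mean (μ.restrict (ball 0 R)) Q s ξ‖ ≤ e) :
    ‖S'.mean (μ.restrict (ball 0 R)) Q s ξ‖ ≤ e + κ * h + CL * (h * s + 2 * Cs * h ^ 2) := by
  have hQ0 : 0 < Q := by linarith only [hQ]
  have hh : 0 ≤ h := (norm_nonneg _).trans (hu ξ (mem_ball_self hs)).1
  have hnew := (StateD_new hι hw).2
  have sg1 : ∀ (S : Ref m N) x, 1 ≤ sgW S.w x := fun S x => (sgW_bd S.w x).2.1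
  have ci : ∀ S : Ref m N, Continuous fun y : E N =>
      th s (pr S.ι y - ξ) • ((Q * sgW S.w (pr S.ι y))⁻¹ • S.gh y) := fun S =>
    (StateD_th S s ξ).smul (((continuous_const.mul (StateD_sg S)).inv₀ fun y =>
      (mul_pos hQ0 (by linarith only [sg1 S (pr S.ι y)])).ne').smul (StateD_gh S))
  have cm : Continuous fun y : E N => th s (pr S.ι y - ξ) / sgW S.w (pr S.ι y) :=
    (StateD_th S s ξ).div (StateD_sg S) fun y => by linarith [sg1 S (pr S.ι y)]
  have i1 := StateD_int μ R (ci S')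
  have i2 := StateD_int μ R (ci S)
  have i3 := (StateD_int μ R cm).smul_const (Q⁻¹ • u ξ)
  have i4 := (StateD_int μ R (StateD_th S s ξ)).mul_const (h * s + 2 * Cs * h ^ 2)
  have hX : 0 ≤ h * s + 2 * Cs * h ^ 2 := by positivity
  have key : ‖∫ y, (th s (pr S'.ι y - ξ) • ((Q * sgW S'.w (pr S'.ι y))⁻¹ • S'.gh y) -
      (th s (pr S.ι y - ξ) • ((Q * sgW S.w (pr S.ι y))⁻¹ • S.gh y) -
        (th s (pr S.ι y - ξ) / sgW S.w (pr S.ι y)) • (Q⁻¹ • u ξ))) ∂μ.restrict (ball 0 R)‖ ≤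
      ∫ y, th s (pr S.ι y - ξ) * (h * s + 2 * Cs * h ^ 2) ∂μ.restrict (ball 0 R) := by
    refine norm_integral_le_of_norm_le i4 ?_
    filter_upwards [hg] with y hy
    rw [hι, hnew]
    set x := pr S.ι y with hx
    by_cases hxs : s ≤ ‖x - ξ‖
    · simp [th_eq_zero hs hxs hm]
    have hxb : x ∈ ball ξ s := by rw [mem_ball, dist_eq_norm]; exact not_le.1 hxs
    have hθ := th_nonneg hs (x - ξ)
    set θ := th s (x - ξ)
    have a1 := sg1 S x
    have a2 := sg1 S' x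
    have a3 := hCs x
    set σ := sgW S.w x
    set σ' := sgW S'.w x
    have e1 : θ • ((Q * σ')⁻¹ • (S.gh y - u x)) - (θ • ((Q * σ)⁻¹ • S.gh y) -
        (θ / σ) • (Q⁻¹ • u ξ)) = θ • ((Q⁻¹ * σ⁻¹) • (u ξ - u x) +
          (Q⁻¹ * (σ'⁻¹ - σ⁻¹)) • (S.gh y - u x)) := by
      rw [mul_inv, mul_inv, div_eq_mul_inv]
      module
    rw [e1, norm_smul, Real.norm_of_nonneg hθ]
    refine mul_le_mul_of_nonneg_left ((norm_add_le _ _).trans (add_le_add ?_ ?_)) hθ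
    · have b1 : ‖u ξ - u x‖ ≤ h * ‖ξ - x‖ :=
        (convex_ball ξ s).norm_image_sub_le_of_norm_fderiv_le (fun η _ => hud η)
          (fun η hη => (hu η hη).2) hxb (mem_ball_self hs)
      have b2 : h * ‖ξ - x‖ ≤ h * s := by
        rw [norm_sub_rev]
        exact mul_le_mul_of_nonneg_left (not_le.1 hxs).le hh
      have b3 : ‖Q⁻¹ * σ⁻¹‖ ≤ 1 := by
        rw [Real.norm_of_nonneg (by positivity)]
        exact mul_le_one₀ (inv_le_one_of_one_le₀ hQ) (by positivity) (inv_le_one_of_one_le₀ a1)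
      rw [norm_smul]
      calc _ ≤ 1 * ‖u ξ - u x‖ := mul_le_mul_of_nonneg_right b3 (norm_nonneg _)
        _ ≤ h * s := by linarith only [b1, b2]
    · have b1 : fderiv ℝ S'.w x - fderiv ℝ S.w x = fderiv ℝ u x := by
        rw [hw, fderiv_fun_add (S.smooth.differentiable (by norm_num) x) (hud x),
          add_sub_cancel_left]
      rw [b1] at a3
      have b2 : |σ'⁻¹ - σ⁻¹| ≤ Cs * h := a3.trans (mul_le_mul_of_nonneg_left (hu x hxb).2 hCs0)
      have b3 : ‖Q⁻¹ * (σ'⁻¹ - σ⁻¹)‖ ≤ Cs * h := by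
        rw [norm_mul, Real.norm_of_nonneg (by positivity), Real.norm_eq_abs]
        calc _ ≤ 1 * |σ'⁻¹ - σ⁻¹| :=
              mul_le_mul_of_nonneg_right (inv_le_one_of_one_le₀ hQ) (abs_nonneg _)
          _ ≤ Cs * h := by linarith only [b2]
      have b4 : ‖S.gh y - u x‖ ≤ 2 * h := by linarith only [hy, norm_sub_le (S.gh y) (u x), (hu x hxb).1]
      rw [norm_smul]
      calc _ ≤ Cs * h * (2 * h) := mul_le_mul b3 b4 (norm_nonneg _) (by positivity)
        _ = 2 * Cs * h ^ 2 := by ring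
  rw [integral_sub i1 (i2.sub' i3), integral_sub i2 i3, integral_smul_const,
    integral_mul_const] at key
  change ‖S'.mean (μ.restrict (ball 0 R)) Q s ξ - (S.mean (μ.restrict (ball 0 R)) Q s ξ -
    S.mass (μ.restrict (ball 0 R)) s ξ • (Q⁻¹ • u ξ))‖ ≤ _ at key
  set a := S'.mean (μ.restrict (ball 0 R)) Q s ξ
  set b := S.mean (μ.restrict (ball 0 R)) Q s ξ
  set d := S.mass (μ.restrict (ball 0 R)) s ξ
  have e2 : a = (a - (b - d • (Q⁻¹ • u ξ))) - (u ξ - b) - ((d - Q) * Q⁻¹) • u ξ := by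
    have : (d - Q) * Q⁻¹ = d * Q⁻¹ - 1 := by field_simp
    rw [this]
    module
  have c1 : ‖((d - Q) * Q⁻¹) • u ξ‖ ≤ κ * h := by
    rw [norm_smul, norm_mul, Real.norm_eq_abs, Real.norm_of_nonneg (by positivity)]
    refine mul_le_mul ?_ (hu ξ (mem_ball_self hs)).1 (norm_nonneg _) ((abs_nonneg _).trans hmass)
    calc _ ≤ |d - Q| * 1 := mul_le_mul_of_nonneg_left (inv_le_one_of_one_le₀ hQ) (abs_nonneg _)
      _ ≤ κ := by linarith only [hmass]
  have c2 := mul_le_mul_of_nonneg_right hth hX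
  have c3 := norm_sub_le (a - (b - d • (Q⁻¹ • u ξ)) - (u ξ - b)) (((d - Q) * Q⁻¹) • u ξ)
  have c4 := norm_sub_le (a - (b - d • (Q⁻¹ • u ξ))) (u ξ - b)
  rw [← e2] at c3
  linarith only [hmean, key, c1, c2, c3, c4]

theorem StateD_pw {w C : ℝ} (hw : 0 < w) (hw1 : w ≤ 1) (hC : C * w ≤ 1) {i j : ℕ}
    (h : i + 1 ≤ j) (hC0 : 0 ≤ C) : C * w ^ j ≤ w ^ i := by
  have h1 : w ^ j ≤ w ^ (i + 1) := pow_le_pow_of_le_one hw.le hw1 h
  calc C * w ^ j ≤ C * w ^ (i + 1) := mul_le_mul_of_nonneg_left h1 hC0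
    _ = C * w * w ^ i := by ring
    _ ≤ 1 * w ^ i := mul_le_mul_of_nonneg_right hC (by positivity)
    _ = w ^ i := one_mul _

theorem StateD_div {w : ℝ} (hw : 0 < w) {i j k : ℕ} (h : j + k = i) : w ^ i / w ^ j = w ^ k := by
  rw [← h, pow_add]
  field_simp

theorem StateD_floor {w A Cm J q : ℝ} {M c a : ℕ} (hw : 0 < w) (hw1 : w ≤ 1) (hc : 2 ≤ c)
    (ha : 2 * c + 10 ≤ a) (hM : 2 * a + c + 2 ≤ M) (hA0 : 0 ≤ A) (hA : A * w ≤ 1)
    (hq : q ≤ w ^ (2 * M + 2 * c - 3)) (hJ : J ≤ √(A * q)) :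
    (w ^ (M + c + 3)) ^ 2 + (w ^ (M + 1)) ^ 2 * (Cm * w ^ (M + 1) / w ^ a) ^ 2 +
      (w ^ (M + 1)) ^ 2 * w ^ a / w ^ (M + c + 3) * J ≤ (2 + Cm ^ 2) * w ^ (2 * M + 2 * c + 6) := by
  have pw : ∀ i j : ℕ, i ≤ j → w ^ j ≤ w ^ i := fun i j h => pow_le_pow_of_le_one hw.le hw1 h
  have h1 : J ≤ w ^ (M + c - 2) := by
    refine hJ.trans (Real.sqrt_le_iff.2 ⟨by positivity, ?_⟩)
    rw [← pow_mul]
    exact (mul_le_mul_of_nonneg_left hq hA0).trans (StateD_pw hw hw1 hA (by omega) hA0)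
  have h2 : (w ^ (M + 1)) ^ 2 * w ^ a / w ^ (M + c + 3) = w ^ (M + a - c - 1) := by
    rw [← pow_mul, ← pow_add]
    exact StateD_div hw (by omega)
  have h3 : (w ^ (M + 1)) ^ 2 * (Cm * w ^ (M + 1) / w ^ a) ^ 2 =
      Cm ^ 2 * w ^ ((M + 1) * 2 + (M + 1 - a) * 2) := by
    rw [mul_div_assoc, StateD_div hw (show a + (M + 1 - a) = M + 1 by omega)]
    ring
  have h4 : w ^ (M + a - c - 1) * J ≤ w ^ (2 * M + 2 * c + 6) := by
    refine (mul_le_mul_of_nonneg_left h1 (by positivity)).trans ?_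
    rw [← pow_add]
    exact pw _ _ (by omega)
  have h5 := mul_le_mul_of_nonneg_left
    (pw (2 * M + 2 * c + 6) ((M + 1) * 2 + (M + 1 - a) * 2) (by omega)) (sq_nonneg Cm)
  have h6 : (w ^ (M + c + 3)) ^ 2 = w ^ (2 * M + 2 * c + 6) := by ring
  rw [h2, h3, h6]
  linarith only [h4, h5]

/-- By `improve` (`σ = w`) the data are `Pre` with the radius `t - w` and the height
`T' = w ^ (M + 1)`; by `energy` (`σ = w / 10`) and `qq_le` the piece of radius `R = t - 2 w` has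
`∫ qq ≤ C w ^ (2 M + 2 c - 2)`. Take `S'`, `u` from `Piece.update`; then `gh' y = gh y - u (pr y)`,
`‖u‖ ≤ w²` everywhere (`Wn.bd`), and for almost every `y ∈ ball 0 (t - 10 w)` the projection is in
`K = dom 0 (t - 9 w)`. `total`: `mean_L2` with `s = w ^ a`. `floor`: `Piece.floor` with `s = w ^ a`,
`δ = w ^ (M + c + 3)`, `κ = C T' / s` (`anchor`, `mass_norm`; `mk_mono`, `LD.restrict`). `track`:
with `s = w ^ (2 a)`: first `ξ ∈ K` (`‖u‖ ≤ w²`), so `‖u ξ‖ ≤ w ^ (M + 1)`; by `mean_restrict` for `S`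
(radii `t - 10 w ≤ R`, height `T'`, any `f`) we may use the measure of the piece, and
`mean' ξ = (mean ξ - u ξ) + (1 - mass ξ / Q) • u ξ + ∫ th (Q sgW)⁻¹ • (u ξ - u (pr y)) +
∫ th Q⁻¹ (sgW'⁻¹ - sgW⁻¹) • gh'` (`sgW_lip`). Last part: `mean_restrict` (radii `R ≤ t`,
height `T`) gives `‖u‖ ≤ δ + w ^ (M + c + 4)` on `K`. Take `M₀ ≥ 2 a + c + 2` and `ε₀` below the `δ`
of `anchor`. -/
theorem update_state (m : ℕ) (hm : 1 ≤ m) (N Q : ℕ) (hQ : 1 ≤ Q) : ∃ (c a M₀ : ℕ) (C₀ ε₀ : ℝ),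
    1 ≤ c ∧ 1 ≤ a ∧ 1 ≤ C₀ ∧ 0 < ε₀ ∧ ∀ M : ℕ, M₀ ≤ M → ∃ w₀ : ℝ, 0 < w₀ ∧ ∀ {e0 T0 : ℝ}
    {G : Glob m N Q e0 T0} {S : Ref m N} {t T w ε : ℝ}, Pre G S t T → 0 < T → T ≤ w →
    t ≤ 1 / 10 → w ≤ w₀ → √w ≤ t → S.I2 G.μ 0 t ≤ w ^ (2 * M + 2 * c) → Wn (s0 m) S.w ε →
    ε + w ≤ ε₀ →
    ∃ S' : Ref m N, State G M c a C₀ w S' (t - 10 * w) ∧
      Wn (s0 m) (fun ξ => S'.w ξ - S.w ξ) w ∧ Wn (s0 m) S'.w (ε + w) ∧
      ∀ s δ : ℝ, w ^ (4 * a) ≤ s → s ≤ w ^ a →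
        (∀ ξ ∈ S.dom 0 (t - 9 * w), ‖S.mean (G.μ.restrict (ball 0 t)) Q s ξ‖ ≤ δ) →
        ∀ ρ, ρ ≤ t - 10 * w →
          S.I2 G.μ 0 ρ ≤ 2 * S'.I2 G.μ 0 ρ + C₀ * (δ + w ^ (M + c + 2)) ^ 2 := by
  obtain ⟨A, hA, Hp⟩ := Pre.piece m Q
  obtain ⟨c, a, M₁, ε₁, hc, ha, hε₁, -, Hup⟩ := Piece.update m hm N A
  obtain ⟨Ci, hCi, Him⟩ := Pre.improve m Q hQ
  obtain ⟨δe, Ce, -, -, hCe, Hen⟩ := Piece.energy m hm Q A
  obtain ⟨δa, hδa, Han⟩ := Pre.anchor m hm Q
  obtain ⟨δm, Cm, hδm, hCm, Hmn⟩ := Piece.mass_norm m hm Q A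
  obtain ⟨CL, hCL, HL⟩ := Piece.mean_L2 m hm A
  obtain ⟨Cf, hCf, Hfl⟩ := Piece.floor m hm Q hQ A
  obtain ⟨Cs, hCs, Hs⟩ := sgW_lip m
  have hQ' : (1 : ℝ) ≤ Q := by exact_mod_cast hQ
  refine ⟨c, a, max M₁ (2 * a + c + 2), 4 + 4 * CL + 2 * A, min ε₁ δa, by omega, by omega,
    by linarith only [hA, hCL], lt_min hε₁ hδa, fun M hM => ?_⟩
  obtain ⟨w₁, hw₁, Hup⟩ := Hup M ((le_max_left _ _).trans hM)
  have hM2 : 2 * a + c + 2 ≤ M := (le_max_right _ _).trans hM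
  obtain ⟨K1, hK1⟩ : ∃ K, K = 1000 * Ce + m := ⟨_, rfl⟩
  obtain ⟨K2, hK2⟩ : ∃ K, K = 2 * Cf * (2 + Cm ^ 2) + 2 * A := ⟨_, rfl⟩
  obtain ⟨K3, hK3⟩ : ∃ K, K = 1 + Cm + CL * (1 + 2 * Cs) := ⟨_, rfl⟩
  have k1 : 0 ≤ K1 := by rw [hK1]; positivity
  have k2 : 0 ≤ K2 := by rw [hK2]; positivity
  have k3 : 0 ≤ K3 := by rw [hK3]; positivity
  have hK : 0 < 10 ^ 6 + Ci + K1 + K2 + K3 + Cf + A := by positivity
  refine ⟨min (min w₁ (1 / (10 ^ 6 + Ci + K1 + K2 + K3 + Cf + A))) (min δa δm), by positivity, ?_⟩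
  intro e0 T0 G S t T w ε hpre hT hTw ht1 hw0 hwt hI hWn hε
  have := G.fin
  have hw : 0 < w := hT.trans_le hTw
  have hww₁ : w ≤ w₁ := hw0.trans ((min_le_left _ _).trans (min_le_left _ _))
  have hwa : w ≤ δa := hw0.trans ((min_le_right _ _).trans (min_le_left _ _))
  have hwm : w ≤ δm := hw0.trans ((min_le_right _ _).trans (min_le_right _ _))
  have hwK := (le_div_iff₀ hK).1 (hw0.trans ((min_le_left _ _).trans (min_le_right _ _)))
  have l0 : 0 ≤ Ci * w := by positivity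
  have l1 : 0 ≤ K1 * w := by positivity
  have l2 : 0 ≤ K2 * w := by positivity
  have l3 : 0 ≤ K3 * w := by positivity
  have l4 : 0 ≤ Cf * w := by positivity
  have l5 : 0 ≤ A * w := by positivity
  have hw6 : 10 ^ 6 * w ≤ 1 := by linarith only [hwK, hw, l0, l1, l2, l3, l4, l5]
  have hCiw : Ci * w ≤ 1 := by linarith only [hwK, hw, l0, l1, l2, l3, l4, l5]
  have hK1w : K1 * w ≤ 1 := by linarith only [hwK, hw, l0, l1, l2, l3, l4, l5]
  have hK2w : K2 * w ≤ 1 := by linarith only [hwK, hw, l0, l1, l2, l3, l4, l5]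
  have hK3w : K3 * w ≤ 1 := by linarith only [hwK, hw, l0, l1, l2, l3, l4, l5]
  have hCfw : Cf * w ≤ 1 := by linarith only [hwK, hw, l0, l1, l2, l3, l4, l5]
  have hAw : A * w ≤ 1 := by linarith only [hwK, hw, l0, l1, l2, l3, l4, l5]
  clear hwK hw0 hK l0 l1 l2 l3 l4 l5
  have hw1 : w ≤ 1 := by linarith only [hw6, hw]
  have pw : ∀ i j : ℕ, i ≤ j → w ^ j ≤ w ^ i := fun i j h => pow_le_pow_of_le_one hw.le hw1 h
  have ht : 1000 * w ≤ t := by
    refine le_trans (Real.le_sqrt_of_sq_le ?_) hwt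
    have : (10 ^ 6 * w) * w ≤ 1 * w := mul_le_mul_of_nonneg_right hw6 hw.le
    linarith only [this]
  have sm : ∀ i j : ℕ, i + 1 ≤ j → 1000 * w ^ j ≤ w ^ i := fun i j h =>
    StateD_pw hw hw1 (by linarith only [hw6, hw]) h (by norm_num)
  have s1 : ∀ j : ℕ, 2 ≤ j → 1000 * w ^ j ≤ w := fun j h => by simpa using sm 1 j h
  have hT' : 0 < w ^ (M + 1) := pow_pos hw _
  have t1 := s1 (M + 1) (by omega)
  have t2 := s1 2 le_rfl
  have t3 := s1 a (by omega)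
  have t4 := s1 M (by omega)
  have t5 := sm M (M + 1) le_rfl
  -- the pieces
  have hpre1 : Pre G S (t - w) (w ^ (M + 1)) := by
    refine Him hpre hT (by linarith only [hTw, ht, hw]) ht1 hw (by linarith only [ht, hw]) hT'.le
      (by linarith only [t1, hw]) ?_
    have h1 : Ci / w ^ m * S.I2 G.μ 0 t ≤ Ci / w ^ m * w ^ (2 * M + 2 * c) :=
      mul_le_mul_of_nonneg_left hI (by positivity)
    refine h1.trans ?_
    rw [div_mul_eq_mul_div, mul_div_assoc,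
      StateD_div hw (show m + (2 * M + 2 * c - m) = 2 * M + 2 * c by omega), ← pow_mul]
    exact StateD_pw hw hw1 hCiw (by omega) (by linarith only [hCi])
  have hpre2 : Pre G S (t - 2 * w) (w ^ (M + 1)) := hpre1.mono (by linarith only [hw])
  have P1 := Hp hpre1 hT' (by linarith only [t1, ht, hw]) (by linarith only [ht1, hw])
  have P := Hp hpre2 hT' (by linarith only [t1, ht, hw]) (by linarith only [ht1, hw])
  have hbb : ∀ {r r' : ℝ}, r ≤ r' → ball (0 : E N) r ⊆ ball 0 r' := fun h => ball_subset_ball h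
  have hI1 : ∀ r, r ≤ t → S.I2 (G.μ.restrict (ball 0 r)) 0 r ≤ w ^ (2 * M + 2 * c) := fun r hr => by
    rw [S.I2_restrict G.μ subset_rfl]
    exact (S.I2_mono G.μ (hbb hr)).2.trans hI
  have hI2 := hI1 (t - 2 * w) (by linarith only [hw])
  obtain ⟨-, -, q1, q2⟩ := P.qq_le
  have hqq : ∫ y, S.qq G.fr y ∂G.μ.restrict (ball 0 (t - 2 * w)) ≤ w ^ (2 * M + 2 * c - 3) := by
    have h1 := (Hen P1).1 (w / 10) (by linarith only [t1, hw])
    rw [show t - w - 10 * (w / 10) = t - 2 * w by ring,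
      Measure.restrict_restrict_of_subset (hbb (by linarith only [hw]))] at h1
    have h2 : Ce * S.I2 (G.μ.restrict (ball 0 (t - w))) 0 (t - w) / (w / 10) ^ 2 ≤
        Ce * w ^ (2 * M + 2 * c) / (w / 10) ^ 2 :=
      div_le_div_of_nonneg_right (mul_le_mul_of_nonneg_left (hI1 _ (by linarith only [hw]))
        (by linarith only [hCe])) (by positivity)
    have h3 : Ce * w ^ (2 * M + 2 * c) / (w / 10) ^ 2 = 100 * Ce * w ^ (2 * M + 2 * c - 2) := by
      rw [← StateD_div hw (show 2 + (2 * M + 2 * c - 2) = 2 * M + 2 * c by omega)]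
      field_simp
      norm_num
    have h4 := mul_le_mul_of_nonneg_left (hI2.trans (pw (2 * M + 2 * c - 2) _ (by omega)))
      (Nat.cast_nonneg (α := ℝ) m)
    have h5 := StateD_pw hw hw1 hK1w (show 2 * M + 2 * c - 3 + 1 ≤ 2 * M + 2 * c - 2 by omega) k1
    rw [hK1] at h5
    linarith only [q1, h1, h2, h3, h4, h5]
  -- the new reference
  obtain ⟨S', u, hι, hw', hu, hD, hub, hmean⟩ :=
    Hup P hQ' hw hww₁ hI2 hqq hWn (hε.trans (min_le_left _ _))
  rw [show t - 2 * w - 7 * w = t - 9 * w by ring] at hD hub hmean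
  obtain ⟨hF, hgh⟩ := StateD_new hι hw'
  obtain ⟨u3, ⟨u0, -, -⟩, -⟩ := hu.bd (by unfold s0; omega)
  have huK : ∀ ξ ∈ S.dom 0 (t - 9 * w), ‖u ξ‖ ≤ w ^ (M + 1) := fun ξ hξ =>
    (hub ξ (self_subset_thickening hw _ hξ)).1
  have hdom : ∀ ξ r, ξ ∈ S'.dom 0 r → ∀ b, ‖u ξ‖ ≤ b → ‖S.F ξ - 0‖ < r + b := fun ξ r hξ b hb => by
    have h1 : ‖S'.F ξ - 0‖ < r := hξ
    have h2 := norm_sub_le (S'.F ξ - 0) (u ξ)
    rw [hF, show S.F ξ + u ξ - 0 - u ξ = S.F ξ - 0 by abel, ← hF] at h2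
    linarith only [h1, h2, hb]
  have hK : ∀ y ∈ ball (0 : E N) (t - 10 * w), ‖S.gh y‖ ≤ w ^ (M + 1) →
      pr S.ι y ∈ S.dom 0 (t - 9 * w) := fun y hy hg =>
    StateD_dom S hy hg (by linarith only [t1, hw])
  have hnew : ∀ y ∈ ball (0 : E N) (t - 10 * w), ‖S.gh y‖ ≤ w ^ (M + 1) →
      ‖S'.gh y‖ ≤ w ^ M := fun y hy hg => by
    rw [hgh]
    linarith only [norm_sub_le (S.gh y) (u (pr S.ι y)), huK _ (hK y hy hg), hg, t5, hT']
  have r10 : t - 10 * w ≤ t - 2 * w := by linarith only [hw]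
  have hae : ∀ᵐ y ∂G.μ.restrict (ball 0 (t - 2 * w)), ‖S.gh y‖ ≤ w ^ (M + 1) :=
    P.ae.mono fun y hy => hy.2.1
  have hmass : (G.μ.restrict (ball 0 (t - 2 * w)) univ).toReal ≤ A := by
    refine (P.mass_cyl 0 le_rfl).2.2.trans (mul_le_of_le_one_right (by linarith only [hA]) ?_)
    exact pow_le_one₀ (by linarith only [ht, hw]) (by linarith only [ht1, hw])
  have hAn : Anch S G.fr (G.μ.restrict (ball 0 (t - 2 * w))) Q 0 (t - 2 * w) := by
    refine Han hpre2 hT' ?_ (by linarith only [ht1, hw]) fun ξ => ?_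
    · have h1 : w * w ≤ δa * (t - 2 * w) :=
        mul_le_mul hwa (by linarith only [ht, hw]) hw.le hδa.le
      linarith only [h1, pw 2 (M + 1) (by omega)]
    · have h1 := (hWn.bd (by unfold s0; omega)).2.1.b1 ξ
      linarith only [h1, hε, min_le_right ε₁ δa, hw]
  have hδs : ∀ j, j ≤ M → w ^ (M + 1) ≤ δm * w ^ j := fun j hj => by
    rw [pow_succ, mul_comm]
    exact mul_le_mul hwm (pw _ _ hj) (by positivity) hδm.le
  obtain ⟨m1, -, -, m2⟩ := HL P Q (w ^ a) hQ' (pw _ _ (by omega))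
  have cmn : Continuous fun y =>
      S.mean (G.μ.restrict (ball 0 (t - 2 * w))) Q (w ^ a) (pr S.ι y) :=
    m1.comp (pr S.ι).continuous
  have ig := StateD_isq G.μ (t - 2 * w) (f := fun y => S.gh y -
    S.mean (G.μ.restrict (ball 0 (t - 2 * w))) Q (w ^ a) (pr S.ι y)) ((StateD_gh S).sub cmn)
  have hsq : ∀ B : Set (E N), MeasurableSet B → B ⊆ ball 0 (t - 10 * w) →
      ∫ y in B, ‖S'.gh y‖ ^ 2 ∂G.μ ≤ 2 * ∫ y in B, ‖S.gh y -
        S.mean (G.μ.restrict (ball 0 (t - 2 * w))) Q (w ^ a) (pr S.ι y)‖ ^ 2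
          ∂G.μ.restrict (ball 0 (t - 2 * w)) + 2 * A * (w ^ (M + c + 4)) ^ 2 := by
    intro B hB hBs
    have h1 := StateD_sq hB (f := S'.gh) (e := w ^ (M + c + 4)) ig hmass (by
      filter_upwards [hae] with y hy hyB
      have h2 := hmean (w ^ a) (pw _ _ (by omega)) le_rfl _ (hK y (hBs hyB) hy)
      rw [hgh, sub_sub_sub_cancel_left, norm_sub_rev]
      exact h2)
    rwa [Measure.restrict_restrict_of_subset (hBs.trans (hbb r10))] at h1 ⊢
  have e8 : (w ^ (M + c + 4)) ^ 2 = w ^ (2 * M + 2 * c + 8) := by ring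
  rw [e8] at hsq
  refine ⟨S', ⟨⟨hι.trans hpre.ι_eq, ?_, fun ξ hξ => hD ?_, ?_⟩, ?_, ?_, fun ξ hξ => ?_⟩, ?_, ?_, ?_⟩
  · exact hnew 0 (mem_ball_self (by linarith only [ht, hw])) hpre2.zero_le
  · have h1 := hdom ξ _ hξ _ (u0 ξ)
    exact h1.trans_le (by linarith only [t2, t4, hw])
  · filter_upwards [hpre2.height] with y hy hyb using hnew y hyb (hy (hbb r10 hyb))
  · have h1 := hsq _ measurableSet_ball subset_rfl
    have h2 := setIntegral_le_integral (s := ball (0 : E N) (t - 10 * w)) ig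
      (Eventually.of_forall fun y => by positivity)
    have j1 := StateD_isq G.μ (t - 2 * w) (StateD_gh S)
    have j2 := StateD_isq G.μ (t - 2 * w) cmn
    have h3 := integral_mono ig ((j1.const_mul 2).add (j2.const_mul 2)) (fun y => by
      have g1 := pow_le_pow_left₀ (norm_nonneg _) (norm_sub_le (S.gh y)
        (S.mean (G.μ.restrict (ball 0 (t - 2 * w))) Q (w ^ a) (pr S.ι y))) 2
      have g2 := sq_nonneg (‖S.gh y‖ -
        ‖S.mean (G.μ.restrict (ball 0 (t - 2 * w))) Q (w ^ a) (pr S.ι y)‖)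
      simp only [Pi.add_apply]
      linarith only [g1, g2])
    simp only [Pi.add_apply] at h3
    rw [integral_add (j1.const_mul 2) (j2.const_mul 2), integral_const_mul, integral_const_mul,
      P.I2_univ.1] at h3
    have h4 := mul_le_mul_of_nonneg_left hI2 (show 0 ≤ CL by linarith only [hCL])
    have h5 := mul_le_mul_of_nonneg_left (pw (2 * M + 2 * c) (2 * M + 2 * c + 8) (by omega))
      (show 0 ≤ 2 * A by linarith only [hA])
    unfold Ref.I2 at *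
    linarith only [h1, h2, h3, h4, h5, m2, hI2]
  · have h1 := hsq _ (G.mGd.inter measurableSet_ball) inter_subset_right
    have h2 := Hfl P G.Gd (w ^ a) (w ^ (M + c + 3)) (Cm * w ^ (M + 1) / w ^ a) (t - 10 * w) G.mGd
      (by
        rw [ae_restrict_iff' measurableSet_ball]
        filter_upwards [G.ae] with y hy g1 g2
        exact (hy.2.2.1 g2).restrict isOpen_ball g1)
      (fun y hy ρ g1 g2 => (mk_mono Measure.restrict_le_self y g1).trans
        (G.upper y (hbb (by linarith only [ht1, hw]) hy) ρ g1 g2))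
      (pw _ _ (by omega)) (pow_pos hw _) (by linarith only [ht, hw])
      (by
        have g1 := StateD_pw hw hw1 hCfw (show 1 + 1 ≤ a by omega) (by linarith only [hCf])
        rw [pow_one] at g1
        linarith only [g1, hw])
      (fun ξ hξ => Hmn P hAn _ ξ (hδs a (by omega)) (by
        have g1 : ‖S.F ξ - 0‖ < t - 10 * w + w ^ (M + 1) := hξ
        linarith only [g1, t1, t3, hw]))
    have h3 := mul_le_mul_of_nonneg_left (StateD_floor (Cm := Cm) hw hw1 (by omega) ha hM2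
      (by linarith only [hA]) hAw hqq q2) (show 0 ≤ Cf by linarith only [hCf])
    have h4 := mul_le_mul_of_nonneg_left (pw (2 * M + 2 * c + 6) (2 * M + 2 * c + 8) (by omega))
      (show 0 ≤ 2 * A by linarith only [hA])
    have h5 := StateD_pw hw hw1 hK2w (le_refl (2 * M + 2 * c + 5 + 1)) k2
    rw [hK2] at h5
    linarith only [h1, h2, h3, h4, h5]
  · have g1 : ξ ∈ S.dom 0 (t - 9 * w) :=
      (hdom ξ _ hξ _ (u0 ξ)).trans_le (by linarith only [hw])
    have g2 := hdom ξ _ hξ _ (huK ξ g1)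
    have g3 := sm 2 (M + 1) (by omega)
    have g4 := sm 2 (2 * a) (by omega)
    have g5 := s1 (2 * a) (by omega)
    have hs : 0 < w ^ (2 * a) := pow_pos hw _
    have h1 := hpre2.mean_restrict hm r10 hs (ξ := ξ) (by
      rw [sub_zero] at g2
      linarith only [g2, g3, g4, hT', hs]) fun y => ((Q : ℝ) * sgW S'.w (pr S'.ι y))⁻¹ • S'.gh y
    rw [← hι] at h1
    have h2 := StateD_track hm G.μ (t - 2 * w) hι hw' hQ' hs (ξ := ξ) (h := w ^ (M + 1))
      (u3.differentiable (by norm_num))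
      (fun η hη => hub η (mem_thickening_iff.2 ⟨ξ, g1, by
        linarith only [mem_ball.1 hη, g5, hw]⟩)) hae (Cs := Cs) (by linarith only [hCs])
      (fun x => (Hs S'.w S.w x ((S'.b1 x).trans (by norm_num))
        ((S.b1 x).trans (by norm_num))).2.1)
      ((HL P Q (w ^ (2 * a)) hQ' (pw _ _ (by omega))).2.2.1 ξ)
      (Hmn P hAn _ ξ (hδs _ (by omega)) (by
        have : ‖S.F ξ - 0‖ < t - 9 * w := g1
        linarith only [this, g5, hw]))
      (hmean _ (pw _ _ (by omega)) (pw _ _ (by omega)) ξ g1)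
    have h3 : Cm * w ^ (M + 1) / w ^ (2 * a) * w ^ (M + 1) ≤ Cm * w ^ (M + c + 3) := by
      rw [mul_div_assoc, StateD_div hw (show 2 * a + (M + 1 - 2 * a) = M + 1 by omega), mul_assoc,
        ← pow_add]
      exact mul_le_mul_of_nonneg_left (pw _ _ (by omega)) (by linarith only [hCm])
    have h4 : w ^ (M + 1) * w ^ (2 * a) + 2 * Cs * (w ^ (M + 1)) ^ 2 ≤
        (1 + 2 * Cs) * w ^ (M + c + 3) := by
      rw [← pow_add, ← pow_mul]
      have b1 := pw (M + c + 3) (M + 1 + 2 * a) (by omega)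
      have b2 := mul_le_mul_of_nonneg_left (pw (M + c + 3) ((M + 1) * 2) (by omega))
        (show 0 ≤ 2 * Cs by linarith only [hCs])
      linarith only [b1, b2]
    have h5 := mul_le_mul_of_nonneg_left h4 (show 0 ≤ CL by linarith only [hCL])
    have h6 := StateD_pw hw hw1 hK3w (le_refl (M + c + 2 + 1)) k3
    rw [hK3] at h6
    have h7 := pw (M + c + 3) (M + c + 4) (by omega)
    unfold Ref.mean at h2 ⊢
    rw [h1]
    linarith only [h2, h3, h5, h6, h7]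
  · have e : (fun ξ => S'.w ξ - S.w ξ) = u := by
      funext ξ
      rw [hw', add_sub_cancel_left]
    rw [e]
    exact hu.mono (by linarith only [t2, hw])
  · rw [hw']
    exact (hWn.add hu).mono (by linarith only [t2, hw])
  · intro s δ z1 z2 hδ ρ hρ
    have hs : 0 < s := (pow_pos hw _).trans_le z1
    have h1 := StateD_sq (B := ball 0 ρ) measurableSet_ball (f := S.gh)
      (e := δ + w ^ (M + c + 2)) (StateD_isq G.μ (t - 2 * w) (StateD_gh S')) hmass (by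
      filter_upwards [hae] with y hy hyB
      have g1 := hK y (hbb hρ hyB) hy
      have g2 := hmean s z1 z2 _ g1
      have g3 := hδ _ g1
      have g4 := hpre.mean_restrict hm (show t - 2 * w ≤ t by linarith only [hw]) hs
        (ξ := pr S.ι y) (by
          have : ‖S.F (pr S.ι y) - 0‖ < t - 9 * w := g1
          rw [sub_zero] at this
          linarith only [this, z2, t3, hTw, hw])
        fun y => ((Q : ℝ) * sgW S.w (pr S.ι y))⁻¹ • S.gh y
      unfold Ref.mean at g2 g3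
      rw [g4] at g2
      rw [hgh, sub_sub_cancel]
      have g5 := norm_add_le _ _ |>.trans (add_le_add g2 g3)
      rw [sub_add_cancel] at g5
      linarith only [g5, pw (M + c + 2) (M + c + 4) (by omega)])
    rw [Measure.restrict_restrict_of_subset (hbb (hρ.trans r10))] at h1
    have h2 : 0 ≤ (4 + 4 * CL) * (δ + w ^ (M + c + 2)) ^ 2 := by positivity
    unfold Ref.I2
    linarith only [h1, h2]

end Pool.Agent.MP_f6c0e6_an.Gen

end

section

/-! The limit graph. -/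

set_option autoImplicit false

open MeasureTheory Filter Topology Set Metric
open scoped ENNReal RealInnerProductSpace

namespace Pool.Agent.MP_f6c0e6_an.Gen

variable {m N : ℕ}

/-- the conclusion of the iteration -/
def Lim {Q : ℕ} {e0 T0 : ℝ} (G : Glob m N Q e0 T0) : Prop :=
  ∃ (W : E m → E N) (ρ : ℝ), 0 < ρ ∧ ρ ≤ 1 ∧ ContDiffOn ℝ (⊤ : ℕ∞) W (ball 0 ρ) ∧
    (∀ ξ, pr G.ι (W ξ) = 0) ∧ (∀ ξ ∈ ball (0 : E m) ρ, MinAt W ξ) ∧ W 0 = 0 ∧
    ∀ᵐ y ∂G.μ, y ∈ ball (0 : E N) ρ → vt G.ι y = W (pr G.ι y)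

/-- `Wn.lim`, `Wn.bd`, `MinAt.lim` (`ball 0 (τ / 2) ⊆ dom 0 (R j + T j)` by `F_lip` and `zero_le`),
`minimal_smooth` -/
theorem exists_lim (m N : ℕ) : ∃ ε₀ : ℝ, 0 < ε₀ ∧ ∀ {Q : ℕ} {e0 T0 : ℝ} (G : Glob m N Q e0 T0)
    (S : ℕ → Ref m N) (R T η : ℕ → ℝ) (τ ε : ℝ), 0 < τ → (∀ j, τ ≤ R j) →
    (∀ j, Pre G (S j) (R j) (T j)) → Tendsto T atTop (𝓝 0) → Summable η →
    (∀ j, Wn (s0 m) (fun ξ => (S (j + 1)).w ξ - (S j).w ξ) (η j)) → Wn (s0 m) (S 0).w ε →
    ε + ∑' j, η j ≤ ε₀ → Lim G := by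
  obtain ⟨ε₀, h0, H⟩ := minimal_smooth m N
  refine ⟨ε₀, h0, ?_⟩
  intro Q e0 T0 G S R T η τ ε hτ hR hP hT hη hS h₀ hε
  obtain ⟨W, hW⟩ := Wn.lim (w := fun j => (S j).w) hη hS
  have ht := tendsto_sum_nat_add η
  have hs : 3 ≤ s0 m := by unfold s0; omega
  have hW0 : Wn (s0 m) W ε₀ := by
    have := ((hW 0).add h₀).mono (M' := ε₀) (by simpa [add_comm] using hε)
    simpa using this
  have hb : ∀ j ξ, ‖W ξ - (S j).w ξ‖ ≤ ∑' i, η (i + j) := fun j => ((hW j).bd hs).2.1.b0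
  have key : ∀ y v : E N, (∀ j, ‖v - (S j).w (pr G.ι y)‖ ≤ T j) → v = W (pr G.ι y) := by
    intro y v h
    have h1 := hT.add ht
    rw [add_zero] at h1
    refine sub_eq_zero.1 (norm_le_zero_iff.1 (ge_of_tendsto' h1 fun j => ?_))
    have h2 := norm_sub_le_norm_sub_add_norm_sub v ((S j).w (pr G.ι y)) (W (pr G.ι y))
    have h3 := hb j (pr G.ι y)
    rw [norm_sub_rev] at h3
    linarith [h j]
  have gh : ∀ j y, (S j).gh y = vt G.ι y - (S j).w (pr G.ι y) := fun j y => by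
    rw [((S j).gh_calc y).2.2.1, (hP j).ι_eq]
  have hmin : ∀ ξ ∈ ball (0 : E m) (min (τ / 2) 1), MinAt W ξ := by
    intro ξ hξ
    refine MinAt.lim (hW0.of_le (by omega)) ht (fun j => (hW j).of_le (by omega)) fun j =>
      (S j).min ξ ((hP j).sub ?_)
    have h1 := ((S j).F_lip ξ 0).2.1
    have h2 := (hP j).zero_le
    have h3 := norm_sub_le_norm_sub_add_norm_sub ((S j).F ξ) ((S j).F 0) 0
    have h4 := (mem_ball_zero_iff.1 hξ).trans_le (min_le_left _ _)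
    rw [Ref.gh, map_zero, norm_sub_rev] at h2
    rw [sub_zero] at h1
    show ‖(S j).F ξ - 0‖ < R j + T j
    linarith [hR j]
  refine ⟨W, min (τ / 2) 1, lt_min (by positivity) one_pos, min_le_right _ _,
    H hW0 isOpen_ball (ball_subset_ball (min_le_right _ _)) hmin, fun ξ => ?_, hmin, ?_, ?_⟩
  · refine norm_le_zero_iff.1 (ge_of_tendsto' ht fun j => le_trans ?_ (hb j ξ))
    have h1 := (S j).vert ξ
    rw [(hP j).ι_eq] at h1
    rw [← sub_zero (pr G.ι (W ξ)), ← h1, ← map_sub]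
    exact (norm_pr_le _ _).1
  · have h1 := key 0 (vt G.ι 0) fun j => by rw [← gh]; exact (hP j).zero_le
    rw [map_zero] at h1
    rw [← h1, vt, map_zero, map_zero, sub_self]
  · filter_upwards [ae_all_iff.2 fun j => (hP j).height] with y hy hy'
    refine key y _ fun j => ?_
    rw [← gh]
    exact hy j (ball_subset_ball ((min_le_left _ _).trans (by linarith [hR j])) hy')

end Pool.Agent.MP_f6c0e6_an.Gen

end
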