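import Pool.Agent.MP_f6c0e6_an.All.Rect
import Pool.Agent.MP_f6c0e6_an.All.Calc

section

/-! A rectifiable set is almost covered by almost flat pieces. -/

set_option autoImplicit false

open MeasureTheory Filter Topology Set Metric
open scoped ENNReal RealInnerProductSpace

namespace Pool.Agent.MP_f6c0e6_an.Gen

variable {m N : ℕ}

theorem TanA_piece {f : E m → E N} {A : E m →L[ℝ] E N} {T : Set (E m)} {ε : NNReal} {K : ℝ}
    (hA : ¬Function.Injective A) (hK : ‖A‖ ≤ K) (h0 : 0 < ε) (h1 : ε ≤ 1)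
    (h : ApproximatesLinearOn f A T ε) :
    Measure.euclideanHausdorffMeasure m (f '' T) ≤
      ENNReal.ofReal ((K + 1) ^ m) * (ENNReal.ofReal ε * volume T) := by
  obtain ⟨v, hv, v0⟩ : ∃ v, A v = 0 ∧ v ≠ 0 := by
    by_contra hc
    push Not at hc
    exact hA ((injective_iff_map_eq_zero A).2 hc)
  obtain ⟨e, he, e1⟩ : ∃ e, A e = 0 ∧ ‖e‖ = 1 :=
    ⟨‖v‖⁻¹ • v, by rw [map_smul, hv, smul_zero], norm_smul_inv_norm v0⟩
  have e0 : (0 : ℝ) < ε := h0
  have e2 : (ε : ℝ) ≤ 1 := h1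
  have K0 : 0 ≤ K := (norm_nonneg _).trans hK
  set L : E m →ₗ[ℝ] E m := LinearMap.transvection (innerₛₗ ℝ e) (((ε : ℝ) - 1) • e) with hL
  have La : ∀ x, L x = x + (⟪e, x⟫ * ((ε : ℝ) - 1)) • e := fun x => by
    rw [hL, LinearMap.transvection.apply, smul_smul, innerₛₗ_apply_apply]
  have hdet : LinearMap.det L = ε := by
    rw [hL, LinearMap.transvection.det, innerₛₗ_apply_apply, inner_smul_right,
      real_inner_self_eq_norm_sq, e1]
    ring
  have hl : ∀ x, ε * ‖x‖ ≤ ‖L x‖ := fun x => by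
    refine (pow_le_pow_iff_left₀ (by positivity) (norm_nonneg _) two_ne_zero).1 ?_
    have c : ⟪e, x⟫ ^ 2 ≤ ‖x‖ ^ 2 := by
      have := abs_real_inner_le_norm e x
      rw [e1, one_mul] at this
      exact sq_le_sq' (by linarith [(abs_le.1 this).1]) (abs_le.1 this).2
    rw [La, norm_add_sq_real, inner_smul_right, norm_smul, e1, mul_one, Real.norm_eq_abs, sq_abs,
      real_inner_comm e x]
    nlinarith [mul_nonneg (sub_nonneg.2 c) (show 0 ≤ 1 - (ε : ℝ) ^ 2 by nlinarith)]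
  have hi : Function.Injective L := (injective_iff_map_eq_zero L).2 fun x hx => by
    have := hl x
    rw [hx, norm_zero] at this
    exact norm_eq_zero.1 (le_antisymm (by nlinarith [norm_nonneg x]) (norm_nonneg x))
  have li := Function.leftInverse_invFun hi
  have e3 : f '' T = (f ∘ Function.invFun L) '' (L '' T) := by
    rw [image_image]; exact image_congr fun x _ => by rw [Function.comp_apply, li]
  rw [e3]
  refine (RectD_lip m (K := K + 1) (by linarith) ?_).trans ?_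
  · rintro _ ⟨x, hx, rfl⟩ _ ⟨y, hy, rfl⟩
    rw [Function.comp_apply, Function.comp_apply, li, li, dist_eq_norm, dist_eq_norm, ← map_sub]
    have a1 : ‖A (x - y)‖ ≤ K * ‖L (x - y)‖ := by
      have : A (x - y) = A (L (x - y)) := by rw [La, map_add, map_smul, he, smul_zero, add_zero]
      rw [this]
      exact (A.le_opNorm _).trans (by gcongr)
    have a2 := norm_sub_norm_le (f x - f y) (A (x - y))
    linarith [h x hx y hy, hl (x - y)]
  · rw [RectD_vol, Measure.addHaar_image_linearMap, hdet, abs_of_pos e0]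

theorem TanA_ball {f : E m → E N} {K : NNReal} (hf : LipschitzWith K f) (R : ℝ) :
    Measure.euclideanHausdorffMeasure m (f '' {ξ | ξ ∈ ball 0 R ∧ DifferentiableAt ℝ f ξ ∧
      ¬Function.Injective (fderiv ℝ f ξ)}) = 0 := by
  set s := {ξ : E m | ξ ∈ ball 0 R ∧ DifferentiableAt ℝ f ξ ∧ ¬Function.Injective (fderiv ℝ f ξ)}
  rcases s.eq_empty_or_nonempty with hs | hs
  · rw [hs, image_empty, measure_empty]
  have key : ∀ ε : ℝ, 0 < ε → ε ≤ 1 → Measure.euclideanHausdorffMeasure m (f '' s) ≤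
      ENNReal.ofReal (((K : ℝ) + 1) ^ m) * volume (ball (0 : E m) R) * ENNReal.ofReal ε := by
    intro ε h0 h1
    lift ε to NNReal using h0.le
    obtain ⟨t, A, t1, t2, t3, t4, t5⟩ :=
      exists_partition_approximatesLinearOn_of_hasFDerivWithinAt f s (fderiv ℝ f)
        (fun x hx => hx.2.1.hasFDerivAt.hasFDerivWithinAt) (fun _ => ε)
        fun _ => (NNReal.coe_pos.1 h0).ne'
    calc Measure.euclideanHausdorffMeasure m (f '' s)
        ≤ Measure.euclideanHausdorffMeasure m (⋃ n, f '' (s ∩ t n)) := by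
          rw [← image_iUnion, ← inter_iUnion]
          exact measure_mono (image_mono (subset_inter Subset.rfl t3))
      _ ≤ ∑' n, Measure.euclideanHausdorffMeasure m (f '' (s ∩ t n)) := measure_iUnion_le _
      _ ≤ ∑' n, ENNReal.ofReal (((K : ℝ) + 1) ^ m) *
            (ENNReal.ofReal ε * volume (ball (0 : E m) R ∩ t n)) := by
          refine ENNReal.tsum_le_tsum fun n => ?_
          obtain ⟨y, hy, e⟩ := t5 hs n
          refine (TanA_piece (e ▸ hy.2.2) (e ▸ norm_fderiv_le_of_lipschitz ℝ hf) h0 h1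
            (t4 n)).trans ?_
          gcongr
          exact fun x hx => hx.1
      _ = ENNReal.ofReal (((K : ℝ) + 1) ^ m) *
            (ENNReal.ofReal ε * volume (⋃ n, ball (0 : E m) R ∩ t n)) := by
          rw [ENNReal.tsum_mul_left, ENNReal.tsum_mul_left, measure_iUnion
            (fun i j hij => (t1 hij).mono inter_subset_right inter_subset_right)
            fun n => measurableSet_ball.inter (t2 n)]
      _ ≤ _ := by
          rw [mul_assoc, mul_comm (volume _)]
          gcongr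
          exact iUnion_subset fun n => inter_subset_left
  have lim : Tendsto (fun ε : ℝ => ENNReal.ofReal (((K : ℝ) + 1) ^ m) *
      volume (ball (0 : E m) R) * ENNReal.ofReal ε) (𝓝[>] 0) (𝓝 0) := by
    have := ENNReal.Tendsto.const_mul (a := ENNReal.ofReal (((K : ℝ) + 1) ^ m) *
      volume (ball (0 : E m) R)) (ENNReal.tendsto_ofReal
        (tendsto_nhdsWithin_of_tendsto_nhds (s := Ioi (0 : ℝ)) (tendsto_id (x := 𝓝 (0 : ℝ)))))
      (Or.inr (ENNReal.mul_ne_top ENNReal.ofReal_ne_top measure_ball_lt_top.ne))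
    simpa using this
  refine le_antisymm (ge_of_tendsto lim ?_) zero_le
  filter_upwards [Ioc_mem_nhdsGT one_pos] with ε hε using key ε hε.1 hε.2

/-- The points where `f` is not differentiable are null (`LipschitzWith.ae_differentiableAt`) and so
is their image (`RectD_lip`, `RectD_vol`). Let `s` be the set of the points of `ball 0 R` where the
derivative exists and is not injective, and apply
`exists_partition_approximatesLinearOn_of_hasFDerivWithinAt` with the constant error `ε ≤ 1`. On a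
piece, `A` has a unit vector `e` in its kernel and `‖A‖ ≤ K` (`norm_fderiv_le_of_lipschitz`). The map
`L x = x - (1 - ε) ⟪e, x⟫ • e` has determinant `ε`, `A x = A (L x)` and `ε ‖x‖ ≤ ‖L x‖`, so `f ∘ L⁻¹` is
Lipschitz with constant `K + 1` on the image of the piece, and the image of `s` has measure at most
`(K + 1) ^ m ε volume (ball 0 R)` (`Measure.addHaar_image_linearMap`). -/
theorem image_null {f : E m → E N} {K : NNReal} (hf : LipschitzWith K f) :
    Measure.euclideanHausdorffMeasure m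
      (f '' {ξ | ¬(DifferentiableAt ℝ f ξ ∧ Function.Injective (fderiv ℝ f ξ))}) = 0 := by
  have h1 : Measure.euclideanHausdorffMeasure m (f '' {ξ | ¬DifferentiableAt ℝ f ξ}) = 0 := by
    refine le_antisymm ((RectD_lip m (K := K) K.2 fun x _ y _ => hf.dist_le_mul x y).trans ?_)
      zero_le
    rw [RectD_vol, ae_iff.1 (hf.ae_differentiableAt (μ := volume)), mul_zero]
  refine measure_mono_null ?_
    (measure_union_null h1 (measure_iUnion_null fun n : ℕ => TanA_ball hf n))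
  rintro _ ⟨x, hx, rfl⟩
  by_cases h : DifferentiableAt ℝ f x
  · obtain ⟨n, hn⟩ := exists_nat_gt ‖x‖
    exact Or.inr (mem_iUnion.2 ⟨n, x, ⟨mem_ball_zero_iff.2 hn, h, fun hi => hx ⟨h, hi⟩⟩, rfl⟩)
  · exact Or.inl ⟨x, h, rfl⟩

theorem TanA_err (A : E m →L[ℝ] E N) {η : ℝ} (hη : 0 < η) : ∃ r : NNReal, r ≠ 0 ∧
    (Function.Injective A → ∀ x, r * ‖x‖ ≤ η * (‖A x‖ - r * ‖x‖)) := by
  by_cases h : Function.Injective A
  · obtain ⟨K, K0, hK⟩ := (A : E m →ₗ[ℝ] E N).exists_antilipschitzWith (LinearMap.ker_eq_bot.2 h)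
    have K1 : (0 : ℝ) < K := K0
    have p : 0 < η / (K * (1 + η)) := by positivity
    refine ⟨⟨η / (K * (1 + η)), p.le⟩, fun e => p.ne' (congrArg NNReal.toReal e), fun _ x => ?_⟩
    have h1 : ‖x‖ ≤ K * ‖A x‖ := by simpa using hK.le_mul_dist x 0
    have h2 : η / (K * (1 + η)) * ‖x‖ ≤ η / (K * (1 + η)) * (K * ‖A x‖) := by gcongr
    have h3 : (1 + η) * (η / (K * (1 + η)) * (K * ‖A x‖)) = η * ‖A x‖ := by field_simp
    change η / (K * (1 + η)) * ‖x‖ ≤ η * (‖A x‖ - η / (K * (1 + η)) * ‖x‖)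
    nlinarith
  · exact ⟨1, one_ne_zero, fun h' => absurd h' h⟩

theorem TanA_one (hN : m ≤ N) (f : E m → E N) {η : ℝ} (hη : 0 < η) :
    ∃ (B : ℕ → Set (E N)) (ι : ℕ → E m →ₗᵢ[ℝ] E N),
      f '' {ξ | DifferentiableAt ℝ f ξ ∧ Function.Injective (fderiv ℝ f ξ)} ⊆ ⋃ n, B n ∧
      ∀ n, ∀ y ∈ B n, ∀ y' ∈ B n, ‖vt (ι n) (y - y')‖ ≤ η * ‖y - y'‖ := by
  set s := {ξ : E m | DifferentiableAt ℝ f ξ ∧ Function.Injective (fderiv ℝ f ξ)}
  rcases s.eq_empty_or_nonempty with hs | hs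
  · have ho := (EuclideanSpace.basisFun (Fin N) ℝ).orthonormal.comp _ (Fin.castLE_injective hN)
    obtain ⟨ι, -⟩ := exists_iso (m := m) _
      ((finrank_span_eq_card ho.linearIndependent).trans (Fintype.card_fin m))
    exact ⟨fun _ => ∅, fun _ => ι, by simp [hs], by simp⟩
  choose r r0 hr using fun A : E m →L[ℝ] E N => TanA_err A hη
  obtain ⟨t, A, -, -, t3, t4, t5⟩ :=
    exists_partition_approximatesLinearOn_of_hasFDerivWithinAt f s (fderiv ℝ f)
      (fun x hx => hx.1.hasFDerivAt.hasFDerivWithinAt) r r0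
  have hi : ∀ n, Function.Injective (A n) := fun n => by
    obtain ⟨y, hy, e⟩ := t5 hs n
    exact e ▸ hy.2
  choose ι hι using fun n => exists_iso (m := m) (LinearMap.range (A n : E m →ₗ[ℝ] E N))
    ((LinearMap.finrank_range_of_inj (hi n)).trans finrank_euclideanSpace_fin)
  refine ⟨fun n => f '' (s ∩ t n), ι, ?_, ?_⟩
  · rw [← image_iUnion, ← inter_iUnion]
    exact image_mono (subset_inter Subset.rfl t3)
  · rintro n _ ⟨x, hx, rfl⟩ _ ⟨y, hy, rfl⟩
    obtain ⟨ξ, hξ⟩ : A n (x - y) ∈ range (ι n) := hι n ▸ ⟨x - y, rfl⟩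
    have e : vt (ι n) (f x - f y) = vt (ι n) (f x - f y - A n (x - y)) := by
      rw [vt_sub _ (f x - f y), ← hξ, vt_iota, sub_zero]
    have a1 := t4 n x hx y hy
    have a2 := norm_sub_norm_le (A n (x - y)) (f x - f y)
    rw [norm_sub_rev (A n (x - y))] at a2
    rw [e]
    refine (norm_pr_le _ _).2.1.trans (a1.trans ((hr _ (hi n) _).trans ?_))
    gcongr
    linarith

/-- For each Lipschitz map `f` apply `exists_partition_approximatesLinearOn_of_hasFDerivWithinAt` to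
the set where the derivative exists and is injective, with an error `r A` such that
`r ‖x‖ ≤ η (‖A x‖ - r ‖x‖)` for injective `A` (`LinearMap.exists_antilipschitzWith`); `exists_iso` for
the range of `A`; take closures (`RectC_clos`), enumerate by `ℕ` and disjointify (`disjointed`). An
isometry exists as `m ≤ N` (needed when the set is empty). -/
theorem rect_cones (hN : m ≤ N) {M : Set (E N)} (hM : IsRectifiable m M) {η : ℝ} (hη : 0 < η) :
    ∃ (Γ : ℕ → Set (E N)) (ι : ℕ → E m →ₗᵢ[ℝ] E N), (∀ k, MeasurableSet (Γ k)) ∧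
      Pairwise (Function.onFun Disjoint Γ) ∧
      Measure.euclideanHausdorffMeasure m (M \ ⋃ k, Γ k) = 0 ∧
      ∀ k, ∀ y ∈ Γ k, ∀ y' ∈ Γ k, ‖vt (ι k) (y - y')‖ ≤ η * ‖y - y'‖ := by
  obtain ⟨f, hf, h0⟩ := hM
  choose K hK using hf
  choose B ι hB hι using fun j => TanA_one hN (f j) hη
  refine ⟨disjointed fun k => closure (B k.unpair.1 k.unpair.2), fun k => ι k.unpair.1 k.unpair.2,
    MeasurableSet.disjointed fun k => isClosed_closure.measurableSet, disjoint_disjointed _, ?_,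
    fun k y hy y' hy' => ?_⟩
  · rw [iUnion_disjointed]
    refine measure_mono_null ?_
      (measure_union_null h0 (measure_iUnion_null fun j => image_null (hK j)))
    rintro y ⟨y1, y2⟩
    by_cases h : y ∈ ⋃ j, range (f j)
    · obtain ⟨j, x, rfl⟩ := mem_iUnion.1 h
      refine Or.inr (mem_iUnion.2 ⟨j, x, fun hx => y2 ?_, rfl⟩)
      obtain ⟨n, hn⟩ := mem_iUnion.1 (hB j ⟨x, hx, rfl⟩)
      exact mem_iUnion.2 ⟨Nat.pair j n, subset_closure (by rwa [Nat.unpair_pair])⟩
    · exact Or.inl ⟨y1, h⟩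
  · exact RectC_clos (f := fun p => ‖vt (ι k.unpair.1 k.unpair.2) (p.1 - p.2)‖)
      (g := fun p => η * ‖p.1 - p.2‖)
      (((contDiff_vt _ 0).continuous.comp (continuous_fst.sub continuous_snd)).norm) (by fun_prop)
      (hι _ _) y (disjointed_subset _ k hy) y' (disjointed_subset _ k hy')

end Pool.Agent.MP_f6c0e6_an.Gen

end

section

/-! Blow-up of one almost flat piece. -/

set_option autoImplicit false

open MeasureTheory Filter Topology Set Metric
open scoped ENNReal RealInnerProductSpace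

namespace Pool.Agent.MP_f6c0e6_an.Gen

variable {m N : ℕ}

/-- the blow-ups of `μ` at `x` are close to `κ` times the plane of `ι` -/
def Near (μ : Measure (E N)) (x : E N) (ι : E m →ₗᵢ[ℝ] E N) (κ C η : ℝ) : Prop :=
  ∀ (φ : E N → ℝ) (R ω : ℝ), Continuous φ → 0 < R → (∀ y, |φ y| ≤ 1) → (∀ y, R ≤ ‖y‖ → φ y = 0) →
    (∀ a b, ‖a - b‖ ≤ 2 * η * R → |φ a - φ b| ≤ ω) → ∀ ε > 0, ∀ᶠ r in 𝓝[>] (0 : ℝ),
      |(r ^ m)⁻¹ * (∫ y, φ (r⁻¹ • (y - x)) ∂μ) - κ * ∫ ξ : E m, φ (ι ξ)| ≤
        κ * C * (ω + η) * R ^ m + ε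

theorem TanB_pow (m : ℕ) {t : ℝ} (h0 : 0 ≤ t) (h1 : t ≤ 1) :
    (1 + t) ^ m ≤ 1 + (2 ^ m - 1) * t := by
  induction m with
  | zero => simp
  | succ k ih =>
    have h2 : (1 : ℝ) ≤ 2 ^ k := one_le_pow₀ (by norm_num)
    have h3 : (1 + t) ^ (k + 1) ≤ (1 + (2 ^ k - 1) * t) * (1 + t) := by
      rw [pow_succ]
      exact mul_le_mul_of_nonneg_right ih (by linarith)
    have h4 : (2 ^ k - 1) * t * t ≤ (2 ^ k - 1) * t :=
      mul_le_of_le_one_right (mul_nonneg (by linarith) h0) h1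
    rw [pow_succ (2 : ℝ)]
    nlinarith

/-- two comparable measures give close integrals -/
theorem TanB_cmp {X : Type*} [MeasurableSpace X] {μ₁ μ₂ : Measure X} (h : μ₁ ≤ μ₂) {S : Set X}
    (hfin : μ₂ S ≠ ⊤) {ψ : X → ℝ} (hm : StronglyMeasurable ψ)
    (hb : ∀ y, |ψ y| ≤ 1) (h0 : ∀ y, y ∉ S → ψ y = 0) :
    |∫ y, ψ y ∂μ₂ - ∫ y, ψ y ∂μ₁| ≤ (μ₂ S).toReal - (μ₁ S).toReal := by
  have hle : μ₁.restrict S ≤ μ₂.restrict S := Measure.restrict_mono_measure h S
  have : IsFiniteMeasure (μ₂.restrict S) := isFiniteMeasure_restrict.2 hfin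
  have : IsFiniteMeasure (μ₁.restrict S) := isFiniteMeasure_of_le _ hle
  set ρ := μ₂.restrict S - μ₁.restrict S with hρ
  have : IsFiniteMeasure ρ := isFiniteMeasure_of_le _ Measure.sub_le
  have hsum : ρ + μ₁.restrict S = μ₂.restrict S := Measure.sub_add_cancel_of_le hle
  have hi : ∀ (ν : Measure X) [IsFiniteMeasure ν], Integrable ψ ν := fun ν _ =>
    Integrable.of_bound hm.aestronglyMeasurable 1 (Eventually.of_forall hb)
  rw [← setIntegral_eq_integral_of_forall_compl_eq_zero (μ := μ₂) h0,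
    ← setIntegral_eq_integral_of_forall_compl_eq_zero (μ := μ₁) h0, ← hsum,
    integral_add_measure (hi _) (hi _), add_sub_cancel_right]
  have h1 : ‖∫ y, ψ y ∂ρ‖ ≤ 1 * ρ.real univ :=
    norm_integral_le_of_norm_le_const (Eventually.of_forall hb)
  have h2 : ρ univ + μ₁ S = μ₂ S := by
    have := congrArg (fun ν : Measure X => ν univ) hsum
    simpa only [Measure.add_apply, Measure.restrict_apply_univ] using this
  have h3 : μ₁ S ≠ ⊤ := ne_top_of_le_ne_top hfin (h S)
  have h4 : (ρ univ).toReal + (μ₁ S).toReal = (μ₂ S).toReal := by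
    rw [← ENNReal.toReal_add (measure_ne_top _ _) h3, h2]
  rw [Real.norm_eq_abs, one_mul, Measure.real] at h1
  linarith

theorem TanB_ball (ξ : E m) {r : ℝ} (hr : 0 ≤ r) :
    volume (closedBall ξ r) = ENNReal.ofReal ((volume (ball (0 : E m) 1)).toReal * r ^ m) := by
  rw [Measure.addHaar_closedBall _ _ hr, finrank_euclideanSpace_fin, mul_comm,
    ENNReal.ofReal_mul ENNReal.toReal_nonneg, ENNReal.ofReal_toReal measure_ball_lt_top.ne]

theorem TanB_scale (f : E m → ℝ) (ξ₀ : E m) {r : ℝ} (hr : 0 < r) :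
    ∫ ξ : E m, f (r⁻¹ • (ξ - ξ₀)) = r ^ m * ∫ ξ : E m, f ξ := by
  rw [integral_sub_right_eq_self (fun ξ => f (r⁻¹ • ξ)) ξ₀,
    Measure.integral_comp_inv_smul_of_nonneg _ _ hr.le, finrank_euclideanSpace_fin, smul_eq_mul]

section
variable {Z : Set (E N)} {ι : E m →ₗᵢ[ℝ] E N} {η : ℝ}

theorem TanB_low (hη : 0 < η) (hη2 : η ≤ 1 / 2) {a : E N} (h : ‖vt ι a‖ ≤ η * ‖a‖) :
    ‖a‖ ≤ (1 + 2 * η) * ‖pr ι a‖ := by
  have h1 := (norm_pr_le ι a).2.2
  have h2 := norm_nonneg a
  have h3 : (1 - η) * ‖a‖ ≤ ‖pr ι a‖ := by linarith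
  have h4 : (1 + 2 * η) * ((1 - η) * ‖a‖) ≤ (1 + 2 * η) * ‖pr ι a‖ :=
    mul_le_mul_of_nonneg_left h3 (by linarith)
  have h5 : 0 ≤ η * (1 - 2 * η) * ‖a‖ := mul_nonneg (mul_nonneg hη.le (by linarith)) h2
  nlinarith

theorem TanB_two (hη : 0 < η) (hη2 : η ≤ 1 / 2)
    (hZ : ∀ y ∈ Z, ∀ y' ∈ Z, ‖vt ι (y - y')‖ ≤ η * ‖y - y'‖) {A : Set (E N)} (hA : A ⊆ Z) :
    volume (pr ι '' A) ≤ Measure.euclideanHausdorffMeasure m A ∧
      Measure.euclideanHausdorffMeasure m A ≤
        ENNReal.ofReal ((1 + 2 * η) ^ m) * volume (pr ι '' A) := by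
  constructor
  · have := RectD_lip m (f := pr ι) (s := A) (K := 1) zero_le_one (fun x _ y _ => by
      rw [dist_eq_norm, dist_eq_norm, ← map_sub, one_mul]
      exact (norm_pr_le ι _).1)
    rwa [RectD_vol, one_pow, ENNReal.ofReal_one, one_mul] at this
  · have hd : ∀ y ∈ A, ∀ y' ∈ A, dist y y' ≤ (1 + 2 * η) * dist (pr ι y) (pr ι y') := by
      intro y hy y' hy'
      rw [dist_eq_norm, dist_eq_norm, ← map_sub]
      exact TanB_low hη hη2 (hZ y (hA hy) y' (hA hy'))
    have hinj : InjOn (pr ι) A := by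
      intro y hy y' hy' he
      have := hd y hy y' hy'
      rw [he, dist_self, mul_zero] at this
      exact dist_le_zero.1 this
    have hl := hinj.leftInvOn_invFunOn
    have := RectD_lip m (f := Function.invFunOn (pr ι) A) (s := pr ι '' A) (K := 1 + 2 * η)
      (by linarith) (by
        rintro _ ⟨y, hy, rfl⟩ _ ⟨y', hy', rfl⟩
        rw [hl hy, hl hy']
        exact hd y hy y' hy')
    rwa [RectD_vol, hl.image_image] at this

theorem TanB_map (hη : 0 < η) (hη2 : η ≤ 1 / 2)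
    (hZ : ∀ y ∈ Z, ∀ y' ∈ Z, ‖vt ι (y - y')‖ ≤ η * ‖y - y'‖) :
    volume.restrict (pr ι '' Z) ≤
        ((Measure.euclideanHausdorffMeasure m).restrict Z).map (pr ι) ∧
      ((Measure.euclideanHausdorffMeasure m).restrict Z).map (pr ι) ≤
        ENNReal.ofReal ((1 + 2 * η) ^ m) • volume.restrict (pr ι '' Z) := by
  have hp : Measurable (pr ι) := (pr ι).continuous.measurable
  have key : ∀ B : Set (E m), pr ι '' (pr ι ⁻¹' B ∩ Z) = B ∩ pr ι '' Z := fun B =>
    image_preimage_inter _ _ _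
  constructor
  · refine Measure.le_iff.2 fun B hB => ?_
    rw [Measure.map_apply hp hB, Measure.restrict_apply hB, Measure.restrict_apply (hp hB), ← key]
    exact (TanB_two hη hη2 hZ inter_subset_right).1
  · refine Measure.le_iff.2 fun B hB => ?_
    rw [Measure.map_apply hp hB, Measure.smul_apply, Measure.restrict_apply hB,
      Measure.restrict_apply (hp hB), ← key, smul_eq_mul]
    exact (TanB_two hη hη2 hZ inter_subset_right).2

theorem TanB_up (hη : 0 < η) (hη2 : η ≤ 1 / 2)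
    (hZ : ∀ y ∈ Z, ∀ y' ∈ Z, ‖vt ι (y - y')‖ ≤ η * ‖y - y'‖) (x : E N) {r : ℝ} (hr : 0 ≤ r) :
    Measure.euclideanHausdorffMeasure m (Z ∩ closedBall x r) ≤
      ENNReal.ofReal (2 ^ m * (volume (ball (0 : E m) 1)).toReal * r ^ m) := by
  refine (TanB_two hη hη2 hZ inter_subset_left).2.trans ?_
  have h1 : pr ι '' (Z ∩ closedBall x r) ⊆ closedBall (pr ι x) r := by
    rintro _ ⟨y, ⟨_, hy⟩, rfl⟩
    rw [mem_closedBall, dist_eq_norm] at hy ⊢
    rw [← map_sub]
    exact (norm_pr_le ι _).1.trans hy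
  have h2 : (1 + 2 * η) ^ m ≤ 2 ^ m := pow_le_pow_left₀ (by linarith) (by linarith) m
  rw [mul_assoc, ENNReal.ofReal_mul (by positivity), ← TanB_ball (pr ι x) hr]
  exact mul_le_mul' (ENNReal.ofReal_le_ofReal h2) (measure_mono h1)

/-- the test function is moved to the plane -/
theorem TanB_move (hm : MeasurableSet Z) (hη : 0 < η) (hη2 : η ≤ 1 / 2)
    (hZ : ∀ y ∈ Z, ∀ y' ∈ Z, ‖vt ι (y - y')‖ ≤ η * ‖y - y'‖) {x : E N} (hx : x ∈ Z)
    {φ : E N → ℝ} {R ω r : ℝ} (hφ : Continuous φ) (hR : 0 < R) (hb : ∀ y, |φ y| ≤ 1)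
    (h0 : ∀ y, R ≤ ‖y‖ → φ y = 0) (hω : ∀ a b, ‖a - b‖ ≤ 2 * η * R → |φ a - φ b| ≤ ω)
    (hr : 0 < r) :
    |∫ y, φ (r⁻¹ • (y - x)) ∂(Measure.euclideanHausdorffMeasure m).restrict Z -
      ∫ ξ, φ (ι (r⁻¹ • (ξ - pr ι x)))
        ∂((Measure.euclideanHausdorffMeasure m).restrict Z).map (pr ι)| ≤
      ω * (2 ^ m * (volume (ball (0 : E m) 1)).toReal * (2 * R * r) ^ m) := by
  set μ : Measure (E N) := (Measure.euclideanHausdorffMeasure m).restrict Z with hμ
  have hω0 : 0 ≤ ω := by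
    have := hω 0 0 (by rw [sub_self, norm_zero]; positivity)
    rwa [sub_self, abs_zero] at this
  have hc : Continuous fun ξ : E m => φ (ι (r⁻¹ • (ξ - pr ι x))) :=
    hφ.comp (ι.continuous.comp (by fun_prop))
  rw [integral_map (pr ι).continuous.measurable.aemeasurable hc.aestronglyMeasurable]
  set S := closedBall x (2 * R * r) with hS
  have hSm : MeasurableSet S := measurableSet_closedBall
  have hup := TanB_up hη hη2 hZ x (r := 2 * R * r) (by positivity)
  have hμS : μ S ≤ ENNReal.ofReal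
      (2 ^ m * (volume (ball (0 : E m) 1)).toReal * (2 * R * r) ^ m) := by
    rw [hμ, Measure.restrict_apply hSm, inter_comm]
    exact hup
  have : IsFiniteMeasure (μ.restrict S) :=
    isFiniteMeasure_restrict.2 (ne_top_of_le_ne_top ENNReal.ofReal_ne_top hμS)
  have hZae : ∀ᵐ y ∂μ, y ∈ Z := ae_restrict_mem hm
  have hn : ∀ y : E N, ‖r⁻¹ • (y - x)‖ = r⁻¹ * ‖y - x‖ := fun y => by
    rw [norm_smul, Real.norm_eq_abs, abs_of_pos (inv_pos.2 hr)]
  have hv : ∀ y ∈ Z, ‖vt ι (r⁻¹ • (y - x))‖ ≤ η * ‖r⁻¹ • (y - x)‖ := fun y hy => by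
    rw [vt_smul, hn, norm_smul, Real.norm_eq_abs, abs_of_pos (inv_pos.2 hr), mul_left_comm]
    exact mul_le_mul_of_nonneg_left (hZ y hy x hx) (inv_pos.2 hr).le
  have hp : ∀ y : E N, r⁻¹ • (pr ι y - pr ι x) = pr ι (r⁻¹ • (y - x)) := fun y => by
    rw [map_smul, map_sub]
  have hout : ∀ y : E N, y ∉ S → 2 * R ≤ ‖r⁻¹ • (y - x)‖ := fun y hy => by
    rw [hS, mem_closedBall, dist_eq_norm, not_le] at hy
    rw [hn, le_inv_mul_iff₀ hr]
    linarith
  have e1 : ∫ y in S, φ (r⁻¹ • (y - x)) ∂μ = ∫ y, φ (r⁻¹ • (y - x)) ∂μ :=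
    setIntegral_eq_integral_of_forall_compl_eq_zero fun y hy =>
      h0 _ (by have := hout y hy; linarith)
  have e2 : ∫ y in S, φ (ι (r⁻¹ • (pr ι y - pr ι x))) ∂μ =
      ∫ y, φ (ι (r⁻¹ • (pr ι y - pr ι x))) ∂μ := by
    refine setIntegral_eq_integral_of_ae_compl_eq_zero ?_
    filter_upwards [hZae] with y hy hy'
    refine h0 _ ?_
    have h1 := hout y hy'
    have h2 := TanB_low hη hη2 (hv y hy)
    have h3 : (1 + 2 * η) * ‖pr ι (r⁻¹ • (y - x))‖ ≤ 2 * ‖pr ι (r⁻¹ • (y - x))‖ :=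
      mul_le_mul_of_nonneg_right (by linarith) (norm_nonneg _)
    rw [ι.norm_map, hp]
    linarith
  have hc1 : Continuous fun y : E N => φ (r⁻¹ • (y - x)) := hφ.comp (by fun_prop)
  have hc2 : Continuous fun y : E N => φ (ι (r⁻¹ • (pr ι y - pr ι x))) :=
    hc.comp (pr ι).continuous
  rw [← e1, ← e2, ← integral_sub
    (Integrable.of_bound hc1.aestronglyMeasurable 1 (Eventually.of_forall fun y => hb _))
    (Integrable.of_bound hc2.aestronglyMeasurable 1 (Eventually.of_forall fun y => hb _))]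
  have h1 : ‖∫ y in S, (φ (r⁻¹ • (y - x)) - φ (ι (r⁻¹ • (pr ι y - pr ι x)))) ∂μ‖ ≤
      ω * (μ.restrict S).real univ := by
    refine norm_integral_le_of_norm_le_const ?_
    filter_upwards [ae_restrict_of_ae hZae, ae_restrict_mem hSm] with y hy hy'
    refine hω _ _ ?_
    rw [hp]
    have h2 : ‖r⁻¹ • (y - x)‖ ≤ 2 * R := by
      rw [hS, mem_closedBall, dist_eq_norm] at hy'
      rw [hn, inv_mul_le_iff₀ hr]
      linarith
    have h3 := mul_le_mul_of_nonneg_left h2 hη.le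
    have h4 := hv y hy
    change ‖vt ι (r⁻¹ • (y - x))‖ ≤ _
    linarith
  rw [Real.norm_eq_abs, Measure.real, Measure.restrict_apply_univ] at h1
  refine h1.trans (mul_le_mul_of_nonneg_left ?_ hω0)
  exact ENNReal.toReal_le_of_le_ofReal (by positivity) hμS

/-- the image measure is replaced by the volume -/
theorem TanB_flat (hη : 0 < η) (hη2 : η ≤ 1 / 2)
    (hZ : ∀ y ∈ Z, ∀ y' ∈ Z, ‖vt ι (y - y')‖ ≤ η * ‖y - y'‖) (ξ₀ : E m) {s : ℝ} (hs : 0 ≤ s)
    {ψ : E m → ℝ} (hψ : Continuous ψ) (hb : ∀ y, |ψ y| ≤ 1)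
    (h0 : ∀ y, y ∉ closedBall ξ₀ s → ψ y = 0) :
    |∫ ξ, ψ ξ ∂((Measure.euclideanHausdorffMeasure m).restrict Z).map (pr ι) - ∫ ξ, ψ ξ| ≤
      2 ^ m * (2 * η) * ((volume (ball (0 : E m) 1)).toReal * s ^ m) +
      ((volume (ball (0 : E m) 1)).toReal * s ^ m -
        (volume (pr ι '' Z ∩ closedBall ξ₀ s)).toReal) := by
  set ν := ((Measure.euclideanHausdorffMeasure m).restrict Z).map (pr ι) with hν
  set lam : Measure (E m) := volume.restrict (pr ι '' Z) with hlam
  set S := closedBall ξ₀ s with hS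
  set V := (volume (ball (0 : E m) 1)).toReal * s ^ m with hV
  have hV0 : 0 ≤ V := by positivity
  have hSm : MeasurableSet S := measurableSet_closedBall
  obtain ⟨h1, h2⟩ := TanB_map hη hη2 hZ
  have hvol : volume S = ENNReal.ofReal V := TanB_ball ξ₀ hs
  have hl : lam S = volume (pr ι '' Z ∩ S) := by
    rw [hlam, Measure.restrict_apply hSm, inter_comm]
  have hlv : lam S ≤ ENNReal.ofReal V := hvol ▸ Measure.restrict_le_self S
  have hlf : lam S ≠ ⊤ := ne_top_of_le_ne_top ENNReal.ofReal_ne_top hlv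
  have hνS : ν S ≤ ENNReal.ofReal ((1 + 2 * η) ^ m) * lam S := h2 S
  have hfin : ENNReal.ofReal ((1 + 2 * η) ^ m) * lam S ≠ ⊤ :=
    ENNReal.mul_ne_top ENNReal.ofReal_ne_top hlf
  have c1 := TanB_cmp h1 (ne_top_of_le_ne_top hfin hνS) hψ.stronglyMeasurable hb h0
  have c2 := TanB_cmp (Measure.restrict_le_self (μ := volume) (s := pr ι '' Z))
    (hvol ▸ ENNReal.ofReal_ne_top) hψ.stronglyMeasurable hb h0
  have c3 : (ν S).toReal ≤ (1 + 2 * η) ^ m * (lam S).toReal := by
    have := ENNReal.toReal_mono hfin hνS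
    rwa [ENNReal.toReal_mul, ENNReal.toReal_ofReal (by positivity)] at this
  have c4 : (lam S).toReal ≤ V := ENNReal.toReal_le_of_le_ofReal hV0 hlv
  have c5 := TanB_pow m (t := 2 * η) (by linarith) (by linarith)
  have c6 : 0 ≤ (lam S).toReal := ENNReal.toReal_nonneg
  have c7 : (1 + 2 * η) ^ m * (lam S).toReal ≤ (1 + 2 ^ m * (2 * η)) * (lam S).toReal :=
    mul_le_mul_of_nonneg_right (by linarith) c6
  have c8 : 2 ^ m * (2 * η) * (lam S).toReal ≤ 2 ^ m * (2 * η) * V :=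
    mul_le_mul_of_nonneg_left c4 (by positivity)
  rw [hvol, ENNReal.toReal_ofReal hV0] at c2
  rw [← hl]
  rw [abs_le] at c1 c2 ⊢
  constructor <;> linarith [c1.1, c1.2, c2.1, c2.2]

end

/-- the part of a small ball outside a set of density one -/
theorem TanB_dens {W : Set (E m)} {ξ₀ : E m}
    (h : Tendsto (fun r => volume (W ∩ closedBall ξ₀ r) / volume (closedBall ξ₀ r)) (𝓝[>] 0) (𝓝 1))
    {R ε : ℝ} (hR : 0 < R) (hε : 0 < ε) : ∀ᶠ r in 𝓝[>] (0 : ℝ),
    (volume (ball (0 : E m) 1)).toReal * (R * r) ^ m -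
      (volume (W ∩ closedBall ξ₀ (R * r))).toReal ≤ ε * r ^ m := by
  set V := (volume (ball (0 : E m) 1)).toReal with hV
  have hV0 : 0 < V :=
    ENNReal.toReal_pos (measure_ball_pos _ _ one_pos).ne' measure_ball_lt_top.ne
  have h1 : Tendsto (fun r : ℝ => R * r) (𝓝[>] 0) (𝓝[>] 0) := by
    refine tendsto_nhdsWithin_iff.2 ⟨?_, ?_⟩
    · have : Tendsto (fun r : ℝ => R * r) (𝓝 0) (𝓝 (R * 0)) :=
        (continuous_const.mul continuous_id).tendsto 0
      rw [mul_zero] at this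
      exact this.mono_left nhdsWithin_le_nhds
    · filter_upwards [self_mem_nhdsWithin] with r hr using mul_pos hR hr
  have h2 := (ENNReal.tendsto_toReal ENNReal.one_ne_top).comp (h.comp h1)
  have h3 := (h2.const_sub 1).const_mul (V * R ^ m)
  rw [ENNReal.toReal_one, sub_self, mul_zero] at h3
  filter_upwards [h3.eventually (ge_mem_nhds hε), self_mem_nhdsWithin] with r hr hr0
  have hr1 : 0 < r := hr0
  simp only [Function.comp_apply] at hr
  rw [ENNReal.toReal_div, TanB_ball ξ₀ (mul_pos hR hr1).le,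
    ENNReal.toReal_ofReal (by positivity), ← hV] at hr
  have h4 := mul_le_mul_of_nonneg_right hr (pow_pos hr1 m).le
  refine le_of_eq_of_le ?_ h4
  rw [mul_pow]
  field_simp

/-- Let `p = pr ι`; on `Z` we have `(1 - η) ‖y - y'‖ ≤ ‖p y - p y'‖ ≤ ‖y - y'‖` (`norm_sq_split`), so
`volume (p '' A) ≤ H A ≤ (1 + 2 η) ^ m volume (p '' A)` for `A ⊆ Z` (`RectD_lip`, `RectD_vol`), the set
`p '' Z` is measurable (`MeasurableSet.image_of_continuousOn_injOn`), and the image `ν` of `H` on `Z`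
lies between the volume on `p '' Z` and `(1 + 2 η) ^ m` times it. Take `x ∈ Z` such that `p x` is a
point of density of `p '' Z` (`Besicovitch.ae_tendsto_measure_inter_div`). Replace `φ (r⁻¹ • (y - x))`
by `φ (ι (r⁻¹ • (p y - p x)))` (they differ by at most `ω`, and both vanish unless
`‖y - x‖ ≤ 2 R r`), then `ν` by the volume on `p '' Z`, then by the volume; rescale. -/
theorem piece_blow (m : ℕ) : ∃ C : ℝ, 1 ≤ C ∧ ∀ {N : ℕ} (Z : Set (E N)) (ι : E m →ₗᵢ[ℝ] E N) (η : ℝ),
    MeasurableSet Z → 0 < η → η ≤ 1 / 2 → (∀ y ∈ Z, ∀ y' ∈ Z, ‖vt ι (y - y')‖ ≤ η * ‖y - y'‖) →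
    (∀ (x : E N) (r : ℝ), 0 < r →
      Measure.euclideanHausdorffMeasure m (Z ∩ closedBall x r) ≤ ENNReal.ofReal (C * r ^ m)) ∧
    ∀ᵐ x ∂(Measure.euclideanHausdorffMeasure m).restrict Z,
      Near ((Measure.euclideanHausdorffMeasure m).restrict Z) x ι 1 C η := by
  set V := (volume (ball (0 : E m) 1)).toReal with hV
  have hV0 : 0 ≤ V := ENNReal.toReal_nonneg
  have h2m : (1 : ℝ) ≤ 2 ^ m := one_le_pow₀ (by norm_num)
  have hA : 0 ≤ 2 ^ m * V := by positivity
  have hB : 2 ^ m * V ≤ 2 ^ m * (2 ^ m * V) := le_mul_of_one_le_left hA h2m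
  refine ⟨1 + 2 * (2 ^ m * (2 ^ m * V)), by linarith, ?_⟩
  intro N Z ι η hm hη hη2 hZ
  refine ⟨fun x r hr => (TanB_up hη hη2 hZ x hr.le).trans (ENNReal.ofReal_le_ofReal ?_), ?_⟩
  · exact mul_le_mul_of_nonneg_right (by linarith) (pow_pos hr m).le
  have hd := Besicovitch.ae_tendsto_measure_inter_div (volume : Measure (E m)) (pr ι '' Z)
  have hac := Measure.absolutelyContinuous_of_le_smul (TanB_map hη hη2 hZ).2
  have hd2 := ae_of_ae_map (pr ι).continuous.measurable.aemeasurable (hac.ae_le hd)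
  filter_upwards [hd2, ae_restrict_mem hm] with x hx hxZ
  intro φ R ω hφ hR hb h0 hω ε hε
  filter_upwards [TanB_dens hx hR hε, self_mem_nhdsWithin] with r h3 hr0
  have hr : 0 < r := hr0
  have hω0 : 0 ≤ ω := by
    have := hω 0 0 (by rw [sub_self, norm_zero]; positivity)
    rwa [sub_self, abs_zero] at this
  have h1 := TanB_move hm hη hη2 hZ hxZ hφ hR hb h0 hω hr
  have h2 := TanB_flat hη hη2 hZ (pr ι x) (s := R * r) (mul_pos hR hr).le
    (ψ := fun ξ => φ (ι (r⁻¹ • (ξ - pr ι x)))) (hφ.comp (ι.continuous.comp (by fun_prop)))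
    (fun _ => hb _) (fun y hy => h0 _ (by
      rw [mem_closedBall, dist_eq_norm, not_le] at hy
      rw [ι.norm_map, norm_smul, Real.norm_eq_abs, abs_of_pos (inv_pos.2 hr), le_inv_mul_iff₀ hr]
      linarith))
  rw [TanB_scale (fun ξ => φ (ι ξ)) (pr ι x) hr] at h2
  rw [← hV] at h1 h2 h3
  have hP : 0 < r ^ m := pow_pos hr m
  have hQ : 0 < R ^ m := pow_pos hR m
  have e : ∀ a b : ℝ, |(r ^ m)⁻¹ * a - 1 * b| = (r ^ m)⁻¹ * |a - r ^ m * b| := fun a b => by
    rw [← abs_of_pos (inv_pos.2 hP), ← abs_mul, abs_of_pos (inv_pos.2 hP)]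
    congr 1
    field_simp
  rw [e, inv_mul_le_iff₀ hP]
  refine (abs_sub_le _ _ _).trans ((add_le_add h1 h2).trans ?_)
  rw [mul_pow R r m] at h3
  rw [mul_pow (2 * R) r m, mul_pow 2 R m, mul_pow R r m]
  have k1 : 2 ^ m * (2 ^ m * V) * (ω * (R ^ m * r ^ m)) ≤
      (1 + 2 * (2 ^ m * (2 ^ m * V))) * (ω * (R ^ m * r ^ m)) :=
    mul_le_mul_of_nonneg_right (by linarith) (by positivity)
  have k2 : 2 * (2 ^ m * V) * (η * (R ^ m * r ^ m)) ≤
      (1 + 2 * (2 ^ m * (2 ^ m * V))) * (η * (R ^ m * r ^ m)) :=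
    mul_le_mul_of_nonneg_right (by linarith) (by positivity)
  linarith

end Pool.Agent.MP_f6c0e6_an.Gen

end

section

/-! Approximate planes at almost every point. -/

set_option autoImplicit false

open MeasureTheory Filter Topology Set Metric
open scoped ENNReal RealInnerProductSpace

namespace Pool.Agent.MP_f6c0e6_an.Gen

variable {m N : ℕ}

/-- from one piece to the whole measure at a point of density -/
theorem TanC_near {μ ν : Measure (E N)} [IsFiniteMeasure μ] {Z : Set (E N)} (hZ : MeasurableSet Z)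
    {q : ℕ} (hq : μ.restrict Z = (q : ℝ≥0∞) • ν) {x : E N} {ι : E m →ₗᵢ[ℝ] E N} {C η : ℝ}
    (hC : 1 ≤ C) (hb : ∀ r : ℝ, 0 < r → ν (closedBall x r) ≤ ENNReal.ofReal (C * r ^ m))
    (hn : Near ν x ι 1 C η)
    (hd : Tendsto (fun r => μ (Z ∩ closedBall x r) / μ (closedBall x r)) (𝓝[>] 0) (𝓝 1)) :
    Near μ x ι q C η := by
  intro φ R ω hφ hR h1 h0 hω ε hε
  have hq0 : (0 : ℝ) ≤ q := Nat.cast_nonneg q
  have hK : 0 < (q + 1) * C * R ^ m := by positivity
  obtain ⟨δ, hδ0, hδ1, hδ2⟩ : ∃ δ : ℝ, 0 < δ ∧ δ ≤ 1 / 2 ∧ δ * ((q + 1) * C * R ^ m) ≤ ε / 4 :=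
    ⟨min (1 / 2) (ε / 4 / ((q + 1) * C * R ^ m)), lt_min (by norm_num) (by positivity),
      min_le_left _ _, (le_div_iff₀ hK).mp (min_le_right _ _)⟩
  have t1 : Tendsto (fun r : ℝ => R * r) (𝓝[>] 0) (𝓝[>] 0) := by
    refine tendsto_nhdsWithin_iff.mpr ⟨?_, ?_⟩
    · have : Tendsto (fun r : ℝ => R * r) (𝓝 0) (𝓝 (R * 0)) :=
        (continuous_const.mul continuous_id).tendsto 0
      rw [mul_zero] at this
      exact this.mono_left nhdsWithin_le_nhds
    · filter_upwards [self_mem_nhdsWithin] with r hr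
      exact mul_pos hR hr
  have t2 := ((ENNReal.tendsto_toReal ENNReal.one_ne_top).comp hd).comp t1
  have t3 := t2.eventually (lt_mem_nhds (show 1 - δ < (1 : ℝ≥0∞).toReal by simpa using hδ0))
  filter_upwards [hn φ R ω hφ hR h1 h0 hω (ε / (2 * (q + 1))) (by positivity), t3,
    self_mem_nhdsWithin] with r e1 e2 hr
  have hr : 0 < r := hr
  simp only [Function.comp_apply, ENNReal.toReal_div] at e2
  have hrm : 0 < r ^ m := pow_pos hr m
  have hc : Continuous fun y : E N => φ (r⁻¹ • (y - x)) := by fun_prop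
  have hi : Integrable (fun y : E N => φ (r⁻¹ • (y - x))) μ :=
    Integrable.of_bound hc.aestronglyMeasurable 1 (Eventually.of_forall fun y => h1 _)
  have a1 := integral_add_compl hZ hi
  rw [hq, integral_smul_measure, ENNReal.toReal_natCast, smul_eq_mul] at a1
  have a2 : |∫ y in Zᶜ, φ (r⁻¹ • (y - x)) ∂μ| ≤ μ.real (closedBall x (R * r) \ Z) := by
    rw [setIntegral_eq_of_subset_of_forall_sdiff_eq_zero (s := closedBall x (R * r) \ Z) hZ.compl
      (fun y hy => hy.2) fun y hy => h0 _ ?_]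
    · simpa using norm_setIntegral_le_of_norm_le_const (μ := μ) (s := closedBall x (R * r) \ Z)
        (f := fun y : E N => φ (r⁻¹ • (y - x))) (C := 1) (measure_lt_top _ _) fun y _ => h1 _
    · have h2 : ¬ y ∈ closedBall x (R * r) := fun h => hy.2 ⟨h, hy.1⟩
      rw [mem_closedBall, dist_eq_norm, not_le] at h2
      rw [norm_smul, norm_inv, Real.norm_of_nonneg hr.le, le_inv_mul_iff₀ hr, mul_comm]
      exact h2.le
  have a3 := measureReal_inter_add_sdiff (μ := μ) (s := closedBall x (R * r)) hZ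
  have a4 : μ.real (closedBall x (R * r) ∩ Z) ≤ q * (C * (R * r) ^ m) := by
    rw [Measure.real, ← Measure.restrict_apply measurableSet_closedBall, hq, Measure.smul_apply,
      smul_eq_mul, ENNReal.toReal_mul, ENNReal.toReal_natCast]
    exact mul_le_mul_of_nonneg_left
      (ENNReal.toReal_le_of_le_ofReal (by positivity) (hb _ (mul_pos hR hr))) hq0
  rw [inter_comm] at e2
  change 1 - δ < μ.real (closedBall x (R * r) ∩ Z) / μ.real (closedBall x (R * r)) at e2
  have a5 : 0 ≤ μ.real (closedBall x (R * r)) := measureReal_nonneg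
  have a6 : (1 - δ) * μ.real (closedBall x (R * r)) ≤ μ.real (closedBall x (R * r) ∩ Z) := by
    rcases a5.eq_or_lt with h | h
    · rw [← h, mul_zero]; exact measureReal_nonneg
    · exact ((lt_div_iff₀ h).mp e2).le
  generalize μ.real (closedBall x (R * r)) = b at a3 a5 a6
  generalize μ.real (closedBall x (R * r) ∩ Z) = a at a3 a4 a6
  generalize μ.real (closedBall x (R * r) \ Z) = c at a2 a3
  have a7 : c ≤ ε / 2 * r ^ m := by
    have b1 : b ≤ 2 * a := by nlinarith
    have b2 : c ≤ δ * (2 * a) := by nlinarith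
    have b3 : a ≤ (q + 1) * C * R ^ m * r ^ m := by
      refine a4.trans ?_
      rw [mul_pow]
      have : 0 ≤ C * R ^ m * r ^ m := by positivity
      nlinarith
    calc c ≤ δ * (2 * ((q + 1) * C * R ^ m * r ^ m)) := by
          refine b2.trans (mul_le_mul_of_nonneg_left (by linarith) hδ0.le)
      _ = 2 * r ^ m * (δ * ((q + 1) * C * R ^ m)) := by ring
      _ ≤ 2 * r ^ m * (ε / 4) := mul_le_mul_of_nonneg_left hδ2 (by positivity)
      _ = ε / 2 * r ^ m := by ring
  have a8 : |(r ^ m)⁻¹ * ∫ y in Zᶜ, φ (r⁻¹ • (y - x)) ∂μ| ≤ ε / 2 := by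
    rw [abs_mul, abs_of_pos (inv_pos.mpr hrm), inv_mul_le_iff₀ hrm, mul_comm]
    exact a2.trans a7
  have a9 : q * (ε / (2 * (q + 1))) ≤ ε / 2 := by
    rw [← mul_div_assoc, div_le_div_iff₀ (by positivity) (by norm_num)]
    nlinarith
  rw [← a1]
  generalize ∫ y in Zᶜ, φ (r⁻¹ • (y - x)) ∂μ = J at a8
  generalize ∫ y, φ (r⁻¹ • (y - x)) ∂ν = I at e1
  generalize ∫ ξ : E m, φ (ι ξ) = L at e1
  calc |(r ^ m)⁻¹ * (q * I + J) - q * L|
      = |q * ((r ^ m)⁻¹ * I - 1 * L) + (r ^ m)⁻¹ * J| := by congr 1; ring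
    _ ≤ q * |(r ^ m)⁻¹ * I - 1 * L| + |(r ^ m)⁻¹ * J| := by
        refine (abs_add_le _ _).trans ?_
        rw [abs_mul (q : ℝ), abs_of_nonneg hq0]
    _ ≤ q * (1 * C * (ω + η) * R ^ m + ε / (2 * (q + 1))) + ε / 2 :=
        add_le_add (mul_le_mul_of_nonneg_left e1 hq0) a8
    _ ≤ q * C * (ω + η) * R ^ m + ε := by linarith

/-- Take the pieces `Z = Γ k ∩ M ∩ {θ = q}` (`rect_cones`), which cover almost all of `μ`; on `Z` the
measure `μ` is `q` times the Hausdorff measure. For almost every `x ∈ Z` the ratio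
`μ (Z ∩ closedBall x r) / μ (closedBall x r)` tends to one
(`Besicovitch.ae_tendsto_measure_inter_div`), so `μ (closedBall x r \ Z) = o (r ^ m)` by the first
part of `piece_blow`. Let `ι x = ι k` on `Γ k` (and `ι 0` outside the union). -/
theorem approx_planes (m : ℕ) : ∃ C : ℝ, 1 ≤ C ∧ ∀ {N : ℕ} {μ : Measure (E N)} [IsFiniteMeasure μ]
    {M : Set (E N)} {θ : E N → ℕ}, m ≤ N → MeasurableSet M → Measurable θ → IsRectifiable m M →
    (μ = ((Measure.euclideanHausdorffMeasure m).restrict M).withDensity fun x => (θ x : ℝ≥0∞)) →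
    ∀ η : ℝ, 0 < η → η ≤ 1 / 2 → ∃ ι : E N → E m →ₗᵢ[ℝ] E N, (∀ ξ, Measurable fun x => ι x ξ) ∧
      ∀ᵐ x ∂μ, Near μ x (ι x) (θ x) C η := by
  obtain ⟨C, hC, hP⟩ := piece_blow m
  refine ⟨C, hC, ?_⟩
  intro N μ _ M θ hN hM hθ hR hμ η h0 h1
  obtain ⟨Γ, ι, mΓ, dΓ, nΓ, cΓ⟩ := rect_cones hN hR h0
  classical
  have hp : ∀ x : E N, ∃ n, x ∈ Γ n ∨ x ∉ ⋃ k, Γ k := fun x => by
    by_cases h : x ∈ ⋃ k, Γ k
    · obtain ⟨k, hk⟩ := mem_iUnion.mp h
      exact ⟨k, Or.inl hk⟩
    · exact ⟨0, Or.inr h⟩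
  have hk : Measurable fun x => Nat.find (hp x) :=
    measurable_find hp fun k => (mΓ k).union (MeasurableSet.iUnion mΓ).compl
  refine ⟨fun x => ι (Nat.find (hp x)),
    fun ξ => (measurable_of_countable fun k => ι k ξ).comp hk, ?_⟩
  have ac : μ ≪ (Measure.euclideanHausdorffMeasure m).restrict M :=
    hμ ▸ withDensity_absolutelyContinuous _ _
  have e1 : ∀ᵐ x ∂μ, x ∈ M := ac.ae_le (ae_restrict_mem hM)
  have e2 : ∀ᵐ x ∂μ, x ∈ ⋃ k, Γ k := by
    refine ac.ae_le ((ae_restrict_iff' hM).mpr (measure_mono_null (fun x hx => ?_) nΓ))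
    exact Classical.not_imp.mp hx
  have e3 : ∀ (k q : ℕ), ∀ᵐ x ∂μ, x ∈ Γ k ∩ M ∩ θ ⁻¹' {q} → Near μ x (ι k) q C η := by
    intro k q
    have hZ : MeasurableSet (Γ k ∩ M ∩ θ ⁻¹' {q}) :=
      ((mΓ k).inter hM).inter (hθ (measurableSet_singleton q))
    obtain ⟨b1, b2⟩ := hP _ (ι k) η hZ h0 h1 fun y hy y' hy' => cΓ k y hy.1.1 y' hy'.1.1
    have hq : μ.restrict (Γ k ∩ M ∩ θ ⁻¹' {q}) = (q : ℝ≥0∞) •
        (Measure.euclideanHausdorffMeasure m).restrict (Γ k ∩ M ∩ θ ⁻¹' {q}) := by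
      rw [hμ, restrict_withDensity hZ, Measure.restrict_restrict hZ,
        inter_eq_left.mpr fun x hx => hx.1.2, ← withDensity_const]
      refine withDensity_congr_ae ?_
      filter_upwards [ae_restrict_mem hZ] with x hx
      have : θ x = q := hx.2
      rw [this]
    rw [← ae_restrict_iff' hZ]
    have b3 : ∀ᵐ x ∂μ.restrict (Γ k ∩ M ∩ θ ⁻¹' {q}), Near ((Measure.euclideanHausdorffMeasure
        m).restrict (Γ k ∩ M ∩ θ ⁻¹' {q})) x (ι k) 1 C η := by
      rw [hq]
      exact Measure.ae_smul_measure b2 _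
    filter_upwards [b3, Besicovitch.ae_tendsto_measure_inter_div μ _] with x x1 x2
    refine TanC_near hZ hq hC (fun r hr => ?_) x1 x2
    rw [Measure.restrict_apply measurableSet_closedBall, inter_comm]
    exact b1 x r hr
  filter_upwards [e1, e2, ae_all_iff.mpr fun k => ae_all_iff.mpr (e3 k)] with x x1 x2 x3
  exact x3 _ _ ⟨⟨(Nat.find_spec (hp x)).resolve_right (not_not.mpr x2), x1⟩, rfl⟩

end Pool.Agent.MP_f6c0e6_an.Gen

end

section

/-! Existence, uniqueness and measurability of the approximate tangent plane. -/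

set_option autoImplicit false

open MeasureTheory Filter Topology Set Metric
open scoped ENNReal RealInnerProductSpace

namespace Pool.Agent.MP_f6c0e6_an.Gen

variable {m N : ℕ}

/-- If `v ∈ P` is not in the closed set `P'`, test with a non-negative bump about `v` that vanishes
on `P'` (`exists_iso`, `integral_plane`); so `P ≤ P'`, and the dimensions agree. -/
theorem tangent_unique {μ : Measure (E N)} {x : E N} {P P' : Submodule ℝ (E N)} {c c' : ℝ}
    (h : HasTangentPlane m μ x P c) (h' : HasTangentPlane m μ x P' c') (hc : 0 < c) : P = P' := by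
  have hle : P ≤ P' := by
    intro v hv
    by_contra hv'
    obtain ⟨ε, hε, hb⟩ := Metric.isOpen_iff.1 P'.closed_of_finiteDimensional.isOpen_compl v hv'
    let φ : E N → ℝ := fun y => max 0 (ε - ‖y - v‖)
    have hφ : Continuous φ := by fun_prop
    have hz : ∀ y, y ∉ ball v ε → φ y = 0 := fun y hy => by
      rw [mem_ball_iff_norm, not_lt] at hy
      exact max_eq_left (by linarith)
    have hcs : HasCompactSupport φ :=
      HasCompactSupport.intro (isCompact_closedBall v ε) fun y hy =>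
        hz y fun h1 => hy (ball_subset_closedBall h1)
    have h1 := tendsto_nhds_unique (h.2 φ hφ hcs) (h'.2 φ hφ hcs)
    have h2 : ∫ y in (P' : Set (E N)), φ y ∂(Measure.euclideanHausdorffMeasure m) = 0 :=
      setIntegral_eq_zero_of_forall_eq_zero fun y hy => hz y fun h1 => hb h1 hy
    obtain ⟨ι, hι⟩ := exists_iso P h.1
    rw [h2, mul_zero, hι, integral_plane] at h1
    have hv2 : v ∈ range ι := hι ▸ hv
    obtain ⟨ξ, hξ⟩ := hv2
    have h3 : 0 < ∫ ξ : E m, φ (ι ξ) :=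
      (hφ.comp ι.continuous).integral_pos_of_hasCompactSupport_nonneg_nonzero
        (hcs.comp_isClosedEmbedding ι.isometry.isClosedEmbedding) (fun _ => le_max_left _ _)
        (x := ξ) (by
          simp only [φ, hξ, sub_self, norm_zero, sub_zero]
          exact (lt_max_of_lt_right hε).ne')
    exact (mul_pos hc h3).ne' h1
  exact Submodule.eq_of_le_of_finrank_eq hle (h.1.trans h'.1.symm)

/-- the converse of `tangent_restrict` -/
theorem tangent_extend {μ : Measure (E N)} {x : E N} {P : Submodule ℝ (E N)} {κ : ℝ}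
    {V : Set (E N)} (hV : IsOpen V) (hx : x ∈ V) (h : HasTangentPlane m (μ.restrict V) x P κ) :
    HasTangentPlane m μ x P κ := by
  refine ⟨h.1, fun φ hφ hc => (h.2 φ hφ hc).congr' ?_⟩
  obtain ⟨ε, hε, hb⟩ := Metric.isOpen_iff.1 hV x hx
  obtain ⟨R, hR, hs⟩ := hc.isCompact.isBounded.subset_ball_lt 0 0
  filter_upwards [Ioo_mem_nhdsGT (div_pos hε hR)] with r hr
  rw [setIntegral_eq_integral_of_forall_compl_eq_zero]
  intro y hy
  refine image_eq_zero_of_notMem_tsupport fun hm => hy (hb ?_)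
  have h1 := hs hm
  rw [mem_ball_zero_iff, norm_smul, norm_inv, Real.norm_eq_abs, abs_of_pos hr.1,
    inv_mul_lt_iff₀ hr.1] at h1
  rw [mem_ball_iff_norm]
  have := (lt_div_iff₀ hR).1 hr.2
  linarith

theorem TanD_sum (ι : E m →ₗᵢ[ℝ] E N) (v : E N) :
    ι (pr ι v) = ∑ i, ⟪ι (ev i), v⟫ • ι (ev i) := by
  conv_lhs => rw [← sum_ev (pr ι v), map_sum]
  exact Finset.sum_congr rfl fun i _ => by rw [map_smul, inner_iota]

theorem TanD_proj (ι : E m →ₗᵢ[ℝ] E N) (v : E N) :
    (LinearMap.range ι.toLinearMap).starProjection v = ι (pr ι v) := by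
  refine Submodule.eq_starProjection_of_mem_of_inner_eq_zero ⟨pr ι v, rfl⟩ ?_
  rintro _ ⟨u, rfl⟩
  have h : ⟪ι u, vt ι v⟫ = 0 := by rw [inner_iota, pr_vt, inner_zero_right]
  rw [real_inner_comm]
  exact h

theorem TanD_subseq (ι : ℕ → E m →ₗᵢ[ℝ] E N) : ∃ (ι' : E m →ₗᵢ[ℝ] E N) (ψ : ℕ → ℕ),
    StrictMono ψ ∧ ∀ ξ, Tendsto (fun n => ι (ψ n) ξ) atTop (𝓝 (ι' ξ)) := by
  have : ProperSpace (E m →L[ℝ] E N) := FiniteDimensional.proper_real _
  obtain ⟨A, -, ψ, hψ, hA⟩ := (isCompact_closedBall (0 : E m →L[ℝ] E N) 1).tendsto_subseq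
    (x := fun n => (ι n).toContinuousLinearMap)
    fun n => mem_closedBall_zero_iff.2 (ι n).norm_toContinuousLinearMap_le
  have h1 : ∀ ξ, Tendsto (fun n => ι (ψ n) ξ) atTop (𝓝 (A ξ)) := fun ξ =>
    ((continuous_eval_const ξ).tendsto A).comp hA
  refine ⟨⟨A.toLinearMap, fun ξ => ?_⟩, ψ, hψ, h1⟩
  have h2 := (h1 ξ).norm
  simp only [LinearIsometry.norm_map] at h2
  exact tendsto_nhds_unique h2 tendsto_const_nhds

theorem TanD_lim1 {μ : Measure (E N)} {x : E N} {ι : ℕ → E m →ₗᵢ[ℝ] E N} {κ C : ℝ}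
    (hκ : 0 < κ) (h : ∀ n : ℕ, Near μ x (ι n) κ C (1 / ((n : ℝ) + 2))) {ψ : ℕ → ℕ}
    (hψ : Tendsto ψ atTop atTop) {ι' : E m →ₗᵢ[ℝ] E N}
    (hι : ∀ ξ, Tendsto (fun n => ι (ψ n) ξ) atTop (𝓝 (ι' ξ))) {φ : E N → ℝ} (hφ : Continuous φ)
    (hc : HasCompactSupport φ) (h1 : ∀ y, |φ y| ≤ 1) :
    Tendsto (fun r : ℝ => (r ^ m)⁻¹ * ∫ y, φ (r⁻¹ • (y - x)) ∂μ) (𝓝[>] 0)
      (𝓝 (κ * ∫ ξ : E m, φ (ι' ξ))) := by
  obtain ⟨R, hR, hs⟩ := hc.isCompact.isBounded.subset_ball_lt 0 0
  have hz : ∀ y, R ≤ ‖y‖ → φ y = 0 := fun y hy =>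
    image_eq_zero_of_notMem_tsupport fun hm => by
      have := mem_ball_zero_iff.1 (hs hm)
      linarith
  have hd : Tendsto (fun n => ∫ ξ : E m, φ (ι (ψ n) ξ)) atTop (𝓝 (∫ ξ : E m, φ (ι' ξ))) := by
    refine tendsto_integral_of_dominated_convergence
      ((closedBall (0 : E m) R).indicator fun _ => (1 : ℝ))
      (fun n => (hφ.comp (ι (ψ n)).continuous).aestronglyMeasurable) ?_ (fun n => ?_)
      (Eventually.of_forall fun ξ => (hφ.tendsto _).comp (hι ξ))
    · exact (integrable_indicator_iff measurableSet_closedBall).2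
        (integrableOn_const measure_closedBall_lt_top.ne)
    · refine Eventually.of_forall fun ξ => ?_
      by_cases hξ : ξ ∈ closedBall (0 : E m) R
      · rw [indicator_of_mem hξ]
        exact h1 _
      · rw [indicator_of_notMem hξ, hz, norm_zero]
        rw [mem_closedBall_zero_iff, not_le] at hξ
        rw [LinearIsometry.norm_map]
        exact hξ.le
  rw [Metric.tendsto_nhds]
  intro ε hε
  have hK : 0 < κ * |C| * R ^ m + 1 := by positivity
  set K := κ * |C| * R ^ m + 1 with hKd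
  have hω : 0 < ε / (8 * K) := by positivity
  obtain ⟨δ, hδ, hu⟩ := Metric.uniformContinuous_iff.1
    (hc.uniformContinuous_of_continuous hφ) _ hω
  have hη : Tendsto (fun n => 1 / ((ψ n : ℝ) + 2)) atTop (𝓝 0) :=
    tendsto_const_nhds.div_atTop
      (tendsto_atTop_add_const_right _ _ (tendsto_natCast_atTop_atTop.comp hψ))
  obtain ⟨n, e1, e2, e3⟩ := ((hη.eventually (gt_mem_nhds hω)).and
    ((hη.eventually (gt_mem_nhds (div_pos hδ (by positivity : 0 < 2 * R)))).and
      (Metric.tendsto_nhds.1 (hd.const_mul κ) _ (by positivity : 0 < ε / 4)))).exists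
  have hη0 : 0 < 1 / ((ψ n : ℝ) + 2) := by positivity
  set η := 1 / ((ψ n : ℝ) + 2) with hηd
  have h2 := h (ψ n) φ R (ε / (8 * K)) hφ hR h1 hz (fun a b hab => by
    have h3 : dist a b < δ := by
      rw [dist_eq_norm]
      have := (lt_div_iff₀ (by positivity : 0 < 2 * R)).1 e2
      linarith
    have := hu h3
    rw [Real.dist_eq] at this
    exact this.le) (ε / 4) (by positivity)
  have h3 : κ * C * (ε / (8 * K) + η) * R ^ m ≤ ε / 4 := by
    calc κ * C * (ε / (8 * K) + η) * R ^ m = κ * C * R ^ m * (ε / (8 * K) + η) := by ring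
      _ ≤ K * (ε / (8 * K) + η) := by
        refine mul_le_mul_of_nonneg_right ?_ (by positivity)
        have : κ * C * R ^ m ≤ κ * |C| * R ^ m := by gcongr; exact le_abs_self C
        linarith
      _ ≤ K * (ε / (8 * K) + ε / (8 * K)) := by gcongr
      _ = ε / 4 := by field_simp; ring
  filter_upwards [h2] with r hr
  rw [Real.dist_eq] at e3 ⊢
  have h4 := abs_sub_le ((r ^ m)⁻¹ * ∫ y, φ (r⁻¹ • (y - x)) ∂μ) (κ * ∫ ξ : E m, φ (ι (ψ n) ξ))
    (κ * ∫ ξ : E m, φ (ι' ξ))
  linarith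

theorem TanD_lim {μ : Measure (E N)} {x : E N} {ι : ℕ → E m →ₗᵢ[ℝ] E N} {κ C : ℝ}
    (hκ : 0 < κ) (h : ∀ n : ℕ, Near μ x (ι n) κ C (1 / ((n : ℝ) + 2))) {ψ : ℕ → ℕ}
    (hψ : Tendsto ψ atTop atTop) {ι' : E m →ₗᵢ[ℝ] E N}
    (hι : ∀ ξ, Tendsto (fun n => ι (ψ n) ξ) atTop (𝓝 (ι' ξ))) :
    HasTangentPlane m μ x (LinearMap.range ι'.toLinearMap) κ := by
  refine ⟨by rw [LinearMap.finrank_range_of_inj ι'.injective, finrank_euclideanSpace_fin],
    fun φ hφ hc => ?_⟩
  have e : ((LinearMap.range ι'.toLinearMap : Submodule ℝ (E N)) : Set (E N)) = range ι' := rfl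
  rw [e, integral_plane]
  obtain ⟨B, hB⟩ := hφ.bounded_above_of_compact_support hc
  have hB0 : 0 < |B| + 1 := by positivity
  have h1 := (TanD_lim1 hκ h hψ hι (φ := fun y => (|B| + 1)⁻¹ * φ y) (by fun_prop)
    hc.mul_left fun y => by
      rw [abs_mul, abs_of_pos (inv_pos.2 hB0), inv_mul_le_iff₀ hB0]
      have := hB y
      rw [Real.norm_eq_abs] at this
      linarith [le_abs_self B]).const_mul (|B| + 1)
  simp only [integral_const_mul] at h1
  convert h1 using 2
  · field_simp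
  · field_simp

/-- The vectors `ι n (ev i)` lie in a compact set. If a subsequence of the isometries converges to
`ι'`, then the range of `ι'` is a tangent plane (scale `φ`, uniform continuity, dominated
convergence, `integral_plane`). By `tangent_unique` all such limits have the same range; use
`tendsto_of_subseq_tendsto`. -/
theorem tangent_of_near {μ : Measure (E N)} {x : E N} {ι : ℕ → E m →ₗᵢ[ℝ] E N} {κ C : ℝ}
    (hκ : 0 < κ) (h : ∀ n : ℕ, Near μ x (ι n) κ C (1 / ((n : ℝ) + 2))) :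
    ∃ P : Submodule ℝ (E N), HasTangentPlane m μ x P κ ∧
      ∀ v, Tendsto (fun n => ι n (pr (ι n) v)) atTop (𝓝 (P.starProjection v)) := by
  obtain ⟨ι', ψ, hψ, hι⟩ := TanD_subseq ι
  have hP := TanD_lim hκ h hψ.tendsto_atTop hι
  refine ⟨_, hP, fun v => tendsto_of_subseq_tendsto fun ns hns => ?_⟩
  obtain ⟨ι'', ms, hms, hι'⟩ := TanD_subseq fun n => ι (ns n)
  refine ⟨ms, ?_⟩
  rw [tangent_unique hP (TanD_lim hκ h (ψ := fun n => ns (ms n)) (hns.comp hms.tendsto_atTop) hι')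
    hκ, TanD_proj]
  simp only [TanD_sum]
  exact tendsto_finsetSum _ fun i _ => ((hι' _).inner tendsto_const_nhds).smul (hι' _)

/-- the approximate tangent plane -/
noncomputable def tpl (m : ℕ) (μ : Measure (E N)) (x : E N) : Submodule ℝ (E N) :=
  Classical.epsilon fun P => ∃ c > 0, HasTangentPlane m μ x P c

theorem tpl_eq {μ : Measure (E N)} {x : E N} {P : Submodule ℝ (E N)} {c : ℝ}
    (h : HasTangentPlane m μ x P c) (hc : 0 < c) : tpl m μ x = P := by
  obtain ⟨c', hc', h'⟩ := Classical.epsilon_spec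
    (p := fun P => ∃ c > 0, HasTangentPlane m μ x P c) ⟨P, c, hc, h⟩
  exact tangent_unique h' h hc'

theorem tpl_restrict {μ : Measure (E N)} {x : E N} {V : Set (E N)} (hV : IsOpen V) (hx : x ∈ V) :
    tpl m (μ.restrict V) x = tpl m μ x := by
  unfold tpl
  congr 1
  funext P
  exact propext ⟨fun ⟨c, hc, h⟩ => ⟨c, hc, tangent_extend hV hx h⟩,
    fun ⟨c, hc, h⟩ => ⟨c, hc, tangent_restrict h hV hx⟩⟩

/-- `approx_planes`, `tangent_of_near`, `ι (pr ι v) = ∑ i, ⟪ι (ev i), v⟫ • ι (ev i)`,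
`aemeasurable_of_tendsto_metrizable_ae` -/
theorem tangent_fin (hN : m ≤ N) {μ : Measure (E N)} [IsFiniteMeasure μ] {M : Set (E N)}
    {θ : E N → ℕ} (hM : MeasurableSet M) (hθ : Measurable θ) (h1 : ∀ x ∈ M, 1 ≤ θ x)
    (hR : IsRectifiable m M)
    (hμ : μ = ((Measure.euclideanHausdorffMeasure m).restrict M).withDensity
      fun x => (θ x : ℝ≥0∞)) :
    (∀ᵐ x ∂μ, HasTangentPlane m μ x (tpl m μ x) (θ x)) ∧
      ∀ v, AEMeasurable (fun x => (tpl m μ x).starProjection v) μ := by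
  obtain ⟨C, -, hC⟩ := approx_planes m
  have h2 : ∀ n : ℕ, ∃ ι : E N → E m →ₗᵢ[ℝ] E N, (∀ ξ, Measurable fun x => ι x ξ) ∧
      ∀ᵐ x ∂μ, Near μ x (ι x) (θ x) C (1 / ((n : ℝ) + 2)) := fun n =>
    hC hN hM hθ hR hμ _ (by positivity)
      (one_div_le_one_div_of_le two_pos (by linarith [(Nat.cast_nonneg n : (0 : ℝ) ≤ n)]))
  choose ι hm hn using h2
  have h3 : ∀ᵐ x ∂μ, x ∈ M := by
    rw [hμ]
    exact (withDensity_absolutelyContinuous _ _).ae_le (ae_restrict_mem hM)
  have h4 : ∀ᵐ x ∂μ, HasTangentPlane m μ x (tpl m μ x) (θ x) ∧ ∀ v,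
      Tendsto (fun n => ι n x (pr (ι n x) v)) atTop (𝓝 ((tpl m μ x).starProjection v)) := by
    filter_upwards [h3, ae_all_iff.2 hn] with x hx hx'
    have hpos : (0 : ℝ) < θ x := by exact_mod_cast h1 x hx
    obtain ⟨P, hP, ht⟩ := tangent_of_near (ι := fun n => ι n x) hpos hx'
    rw [tpl_eq hP hpos]
    exact ⟨hP, ht⟩
  refine ⟨h4.mono fun x hx => hx.1, fun v => aemeasurable_of_tendsto_metrizable_ae atTop
    (f := fun n x => ι n x (pr (ι n x) v)) (fun n => Measurable.aemeasurable ?_)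
    (h4.mono fun x hx => hx.2 v)⟩
  simp only [TanD_sum]
  refine Finset.measurable_sum _ fun i _ => ?_
  have h5 : Measurable fun x => ⟪ι n x (ev i), v⟫ := (hm n _).inner measurable_const
  exact h5.smul (hm n (ev i))

end Pool.Agent.MP_f6c0e6_an.Gen

end

section

/-! Every integral weight has a measurable field of tangent planes. -/

set_option autoImplicit false

open MeasureTheory Filter Topology Set Metric
open scoped ENNReal RealInnerProductSpace

namespace Pool.Agent.MP_f6c0e6_an.Gen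

variable {m N : ℕ}

/-- for `N < m` the Hausdorff measure vanishes (`euclideanHausdorffMeasure_zero_or_top` on balls) -/
theorem haus_eq_zero (h : N < m) : (Measure.euclideanHausdorffMeasure m : Measure (E N)) = 0 := by
  have h1 : ∀ n : ℕ, (Measure.euclideanHausdorffMeasure m : Measure (E N)) (ball 0 n) = 0 := by
    intro n
    rcases Measure.euclideanHausdorffMeasure_zero_or_top h (ball (0 : E N) n) with h2 | h2
    · exact h2
    · rw [EuclideanSpace.euclideanHausdorffMeasure_eq_volume] at h2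
      exact absurd h2 measure_ball_lt_top.ne
  rw [← Measure.measure_univ_eq_zero, ← iUnion_ball_nat (0 : E N)]
  exact measure_iUnion_null h1

theorem TanE_cover {U : Set (E N)} (hU : IsOpen U) :
    ∃ T : Set (Set (E N)), T.Countable ∧ (∀ K ∈ T, IsCompact K ∧ K ⊆ U) ∧
      ⋃ K : T, interior (K : Set (E N)) = U := by
  obtain ⟨T, hT, h2⟩ := TopologicalSpace.isOpen_iUnion_countable
    (fun K : {K : Set (E N) // IsCompact K ∧ K ⊆ U} => interior K.1) fun _ => isOpen_interior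
  refine ⟨Subtype.val '' T, hT.image _, ?_, ?_⟩
  · rintro _ ⟨K, -, rfl⟩
    exact K.2
  · apply Subset.antisymm
    · refine iUnion_subset ?_
      rintro ⟨_, K, -, rfl⟩
      exact interior_subset.trans K.2.2
    · intro x hx
      obtain ⟨K, k1, k2, k3⟩ := exists_compact_subset hU hx
      have h3 : x ∈ ⋃ K : {K : Set (E N) // IsCompact K ∧ K ⊆ U}, interior K.1 :=
        mem_iUnion.2 ⟨⟨K, k1, k3⟩, k2⟩
      rw [← h2] at h3
      obtain ⟨K', k4, k5⟩ := mem_iUnion₂.1 h3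
      exact mem_iUnion.2 ⟨⟨K'.1, K', k4, rfl⟩, k5⟩

theorem TanE_glob {U : Set (E N)} (hU : IsOpen U) {μ : Measure (E N)}
    (hfin : ∀ K, IsCompact K → K ⊆ U → μ K < ⊤) {M : Set (E N)} {θ : E N → ℕ}
    (hM : MeasurableSet M) (hMU : M ⊆ U) (hR : IsRectifiable m M) (hθ : Measurable θ)
    (h1 : ∀ x, 1 ≤ θ x)
    (hμ : μ = ((Measure.euclideanHausdorffMeasure m).restrict M).withDensity
      fun x => (θ x : ℝ≥0∞)) :
    (∀ᵐ x ∂μ, HasTangentPlane m μ x (tpl m μ x) (θ x)) ∧
      ∀ v, AEMeasurable (fun x => (tpl m μ x).starProjection v) μ := by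
  rcases lt_or_ge N m with hN | hN
  · have h0 : μ = 0 := by
      rw [hμ, haus_eq_zero hN, Measure.restrict_zero, withDensity_zero_left]
    rw [h0]
    exact ⟨by simp, fun v => aemeasurable_zero_measure⟩
  obtain ⟨T, hT, h2, h3⟩ := TanE_cover hU
  have := hT.to_subtype
  have h4 : μ.restrict U = μ := by
    rw [hμ, restrict_withDensity hU.measurableSet, Measure.restrict_restrict hU.measurableSet,
      inter_eq_right.2 hMU]
  have key : ∀ K : T, (∀ᵐ x ∂μ.restrict (interior (K : Set (E N))),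
      HasTangentPlane m μ x (tpl m μ x) (θ x)) ∧
      ∀ v, AEMeasurable (fun x => (tpl m μ x).starProjection v)
        (μ.restrict (interior (K : Set (E N)))) := by
    intro K
    have hV : IsOpen (interior (K : Set (E N))) := isOpen_interior
    have hf : μ (interior (K : Set (E N))) < ⊤ :=
      (measure_mono interior_subset).trans_lt (hfin _ (h2 _ K.2).1 (h2 _ K.2).2)
    generalize interior (K : Set (E N)) = V at hV hf
    have : IsFiniteMeasure (μ.restrict V) := ⟨by rwa [Measure.restrict_apply_univ]⟩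
    have hR' : IsRectifiable m (V ∩ M) := by
      obtain ⟨f, f1, f2⟩ := hR
      exact ⟨f, f1, measure_mono_null (sdiff_subset_sdiff_left inter_subset_right) f2⟩
    obtain ⟨t1, t2⟩ := tangent_fin (μ := μ.restrict V) (M := V ∩ M) hN
      (hV.measurableSet.inter hM) hθ (fun x _ => h1 x) hR'
      (by rw [hμ, restrict_withDensity hV.measurableSet,
        Measure.restrict_restrict hV.measurableSet])
    refine ⟨?_, fun v => (t2 v).congr ?_⟩
    · filter_upwards [t1, ae_restrict_mem hV.measurableSet] with x hx hxV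
      rw [tpl_restrict hV hxV] at hx
      exact tangent_extend hV hxV hx
    · filter_upwards [ae_restrict_mem hV.measurableSet] with x hxV
      rw [tpl_restrict hV hxV]
  have h5 : μ.restrict (⋃ K : T, interior (K : Set (E N))) = μ := by rw [h3, h4]
  constructor
  · have h6 := (ae_restrict_iUnion_iff _ _).2 fun K => (key K).1
    rwa [h5] at h6
  · intro v
    have h6 := aemeasurable_iUnion_iff.2 fun K => (key K).2 v
    rwa [h5] at h6

theorem TanE_sum (v : E N) : v = ∑ i, v i • ev i := by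
  ext j
  simp [ev, Finset.sum_apply, Pi.single_apply]

theorem TanE_modify {μ : Measure (E N)} {P : E N → Submodule ℝ (E N)}
    (h : ∀ v, AEMeasurable (fun x => (P x).starProjection v) μ) :
    ∃ S : E N → Submodule ℝ (E N), (∀ v, Measurable fun x => (S x).starProjection v) ∧
      ∀ᵐ x ∂μ, P x = S x := by
  classical
  have h1 : ∀ᵐ x ∂μ, ∀ i, (P x).starProjection (ev i) = (h (ev i)).mk _ x :=
    ae_all_iff.2 fun i => (h (ev i)).ae_eq_mk
  obtain ⟨B, b1, b2, b3⟩ := exists_measurable_superset_of_null (ae_iff.1 h1)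
  refine ⟨fun x => if x ∈ B then ⊥ else P x, fun v => ?_, ?_⟩
  · have h2 : (fun x => (if x ∈ B then ⊥ else P x : Submodule ℝ (E N)).starProjection v) =
        fun x => if x ∈ B then 0 else ∑ i, v i • (h (ev i)).mk _ x := by
      funext x
      by_cases hx : x ∈ B
      · simp [hx]
      · have h3 : ∀ i, (P x).starProjection (ev i) = (h (ev i)).mk _ x := by
          by_contra h4
          exact hx (b1 h4)
        simp only [hx, if_false]
        conv_lhs => rw [TanE_sum v]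
        simp only [map_sum, map_smul, h3]
    rw [h2]
    exact Measurable.ite b2 measurable_const
      (Finset.measurable_sum _ fun i _ => (h (ev i)).measurable_mk.const_smul (v i))
  · filter_upwards [measure_eq_zero_iff_ae_notMem.1 b3] with x hx
    simp [hx]

/-- Replace `M` by a measurable `M' ⊆ U` that is almost equal to it, and `θ` by `max 1 θ.mk`. Cover
`U` by countably many open balls with compact closure in `U` and apply `tangent_fin` to the
restrictions (`tangent_extend`, `tpl_restrict`; `μ` is carried by `U`). Let `G` be a measurable set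
of full measure on which the projections of the vectors `ev i` agree with measurable functions, and
let `S x = tpl m μ x` on `G` and `⊥` elsewhere. For `N < m` the measure is zero. -/
theorem exists_field {U : Set (E N)} (hU : IsOpen U) {μ : Measure (E N)}
    (hfin : ∀ K, IsCompact K → K ⊆ U → μ K < ⊤) {M : Set (E N)} {θ : E N → ℕ}
    (hM : NullMeasurableSet M (Measure.euclideanHausdorffMeasure m)) (hMU : M ⊆ U)
    (hR : IsRectifiable m M)
    (hθ : AEMeasurable θ ((Measure.euclideanHausdorffMeasure m).restrict M))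
    (h1 : ∀ x ∈ M, 1 ≤ θ x)
    (hμ : μ = ((Measure.euclideanHausdorffMeasure m).restrict M).withDensity
      fun x => (θ x : ℝ≥0∞)) :
    ∃ S : E N → Submodule ℝ (E N), IsIntegralVarifold m U μ S ∧ ∀ᵐ x ∂μ, tpl m μ x = S x := by
  obtain ⟨M', m1, m2, m3⟩ := hM.exists_measurable_subset_ae_eq
  have hθ' : Measurable fun x => max 1 (hθ.mk θ x) := measurable_const.max hθ.measurable_mk
  have hR' : IsRectifiable m M' := by
    obtain ⟨f, f1, f2⟩ := hR
    exact ⟨f, f1, measure_mono_null (sdiff_subset_sdiff_left m1) f2⟩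
  have hμ' : μ = ((Measure.euclideanHausdorffMeasure m).restrict M').withDensity
      fun x => ((max 1 (hθ.mk θ x) : ℕ) : ℝ≥0∞) := by
    rw [hμ, Measure.restrict_congr_set m3]
    refine withDensity_congr_ae ?_
    filter_upwards [hθ.ae_eq_mk, ae_restrict_mem₀ hM] with x h2 h3
    rw [← h2, max_eq_right (h1 x h3)]
  obtain ⟨t1, t2⟩ := TanE_glob hU hfin m2 (m1.trans hMU) hR' hθ' (fun x => le_max_left _ _) hμ'
  obtain ⟨S, s1, s2⟩ := TanE_modify t2
  refine ⟨S, ⟨hfin, s1, M', _, m2, m1.trans hMU, hR', hθ', fun x _ => le_max_left _ _, hμ', ?_⟩, s2⟩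
  filter_upwards [t1, s2] with x h2 h3
  rwa [← h3]

end Pool.Agent.MP_f6c0e6_an.Gen

end
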