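import Pool.Agent.MP_f6c0e6_an.All.Basic
import Pool.Agent.MP_f6c0e6_an.All.CarlB
import Pool.Agent.MP_f6c0e6_an.All.State
import Pool.Agent.MP_f6c0e6_an.All.KeyD
import Pool.Agent.MP_f6c0e6_an.All.Rect
import Pool.Agent.MP_f6c0e6_an.All.Prod
import Pool.Agent.MP_f6c0e6_an.All.Calc
import Pool.Agent.MP_f6c0e6_an.All.Tan
import Pool.Agent.MP_f6c0e6_an.Spec

section

/-! The iteration does not shrink to a point. -/

set_option autoImplicit false

open MeasureTheory Filter Topology Set Metric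
open scoped ENNReal RealInnerProductSpace

namespace Pool.Agent.MP_f6c0e6_an.Gen

variable {m N : ℕ}

theorem IterD_seq {α : Type} (Inv : ℕ → α → Prop) (Rel : ℕ → α → α → Prop) (x0 : α)
    (h0 : Inv 0 x0) (hs : ∀ j x, Inv j x → ∃ y, Inv (j + 1) y ∧ Rel j x y) :
    ∃ x : ℕ → α, (∀ j, Inv j (x j)) ∧ ∀ j, Rel j (x j) (x (j + 1)) := by
  choose f hf using hs
  let g : (j : ℕ) → {x : α // Inv j x} := fun j =>
    Nat.rec (motive := fun j => {x : α // Inv j x}) ⟨x0, h0⟩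
      (fun j x => ⟨f j x.1 x.2, (hf j x.1 x.2).1⟩) j
  exact ⟨fun j => (g j).1, fun j => (g j).2, fun j => (hf j (g j).1 (g j).2).2⟩

theorem IterD_rp {w γ : ℝ} (hw : 0 < w) (hw1 : w ≤ 1) (hγ1 : γ ≤ 1) :
    (w ^ (1 / 4 : ℝ)) ^ 4 = w ∧ √w = (w ^ (1 / 4 : ℝ)) ^ 2 ∧
      w ^ (1 + γ) = w * (w ^ (γ / 8)) ^ 8 ∧
      (w ^ (1 + γ)) ^ (1 / 4 : ℝ) = w ^ (1 / 4 : ℝ) * (w ^ (γ / 8)) ^ 2 ∧
      w ^ (1 / 4 : ℝ) ≤ w ^ (γ / 8) ∧ w ≤ (w ^ (γ / 8)) ^ 8 := by
  have e : ∀ (a : ℝ) (n : ℕ), (w ^ a) ^ n = w ^ (a * n) := fun a n => by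
    rw [← Real.rpow_natCast, ← Real.rpow_mul hw.le]
  refine ⟨?_, ?_, ?_, ?_, ?_, ?_⟩
  · rw [e]; norm_num
  · rw [e, Real.sqrt_eq_rpow]; norm_num
  · rw [e, Real.rpow_add hw, Real.rpow_one]; congr 2; push_cast; ring
  · rw [e, ← Real.rpow_mul hw.le, ← Real.rpow_add hw]; congr 1; push_cast; ring
  · exact Real.rpow_le_rpow_of_exponent_ge hw hw1 (by linarith)
  · rw [e]
    calc w = w ^ (1 : ℝ) := (Real.rpow_one w).symm
      _ ≤ _ := Real.rpow_le_rpow_of_exponent_ge hw hw1 (by push_cast; linarith)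

/-- the numerical facts on one scale -/
structure IterD_Num (M n : ℕ) (γ c w : ℝ) : Prop where
  pos : 0 < w
  upos : 0 < w ^ (1 / 4 : ℝ)
  vpos : 0 < w ^ (γ / 8)
  vle : w ^ (γ / 8) ≤ 1
  le_c : w ≤ c
  ule : w ^ (1 / 4 : ℝ) ≤ c
  pos' : 0 < w ^ (1 + γ)
  half : w ^ (1 + γ) ≤ w / 2
  sq : w ^ 2 ≤ w ^ (1 + γ)
  pw : (w ^ (1 + γ)) ^ n = w ^ (n + 1)
  rad : (w ^ (1 + γ)) ^ (1 / 4 : ℝ) ≤ w ^ (1 / 4 : ℝ) * w ^ (γ / 8) - 10 * w ^ (1 + γ)
  hei : w ^ M ≤ w ^ (1 / 4 : ℝ) * w ^ (γ / 8) / 100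
  sq1 : √(w ^ (1 + γ)) ≤ w ^ (1 / 4 : ℝ) * w ^ (γ / 8)
  sq2 : √w ≤ w ^ (1 / 4 : ℝ) * w ^ (γ / 8)
  anc : w ^ M ≤ c * w ^ (1 / 4 : ℝ)
  lg : 20 * √w * Real.log w⁻¹ ≤ 1

theorem IterD_num0 {u v w w' c : ℝ} (hup : 0 < u) (hvp : 0 < v) (hc : c ≤ 1 / 100)
    (hv : v ≤ 1 / 2) (hu : u ≤ c) (e1 : u ^ 4 = w) (e3 : w' = w * v ^ 8) (e5 : u ≤ v)
    (e6 : w ≤ v ^ 8) :
    w ≤ c ∧ w' ≤ w / 2 ∧ w ^ 2 ≤ w' ∧ u * v ^ 2 ≤ u * v - 10 * w' ∧ w ≤ u * v / 100 ∧
      u ^ 2 ≤ u * v ∧ w ≤ c * u ∧ 20 * u ^ 2 * (4 * u⁻¹) ≤ 1 := by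
  have hu1 : u ≤ 1 / 100 := hu.trans hc
  have hw : 0 < w := by rw [← e1]; positivity
  have hv8 : v ^ 8 ≤ v := pow_le_of_le_one hvp.le (by linarith only [hv]) (by norm_num)
  have huu : u * u ≤ 1 / 100 * (1 / 100) := mul_le_mul hu1 hu1 hup.le (by norm_num)
  have hwu : w = (u * u) * (u * u) := by rw [← e1]; ring
  have huu0 : 0 ≤ u * u := by positivity
  have hwle : w ≤ (u * u) * (1 / 100 * (1 / 100)) := by
    rw [hwu]; exact mul_le_mul_of_nonneg_left huu huu0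
  have huv : u * u ≤ u * v := mul_le_mul_of_nonneg_left e5 hup.le
  have huc : u * u ≤ u * c := mul_le_mul_of_nonneg_left hu hup.le
  have hu2 : u * u ≤ u * (1 / 100) := mul_le_mul_of_nonneg_left hu1 hup.le
  have huv0 : 0 < u * v := mul_pos hup hvp
  have hh : w' ≤ w / 2 := by
    rw [e3]
    have : w * v ^ 8 ≤ w * (1 / 2) := mul_le_mul_of_nonneg_left (hv8.trans hv) hw.le
    linarith only [this]
  have hvv : u * v * v ≤ u * v * (1 / 2) := mul_le_mul_of_nonneg_left hv huv0.le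
  refine ⟨by linarith only [hwle, hu2, hu, hup], hh, ?_, ?_, by linarith only [hwle, huv, huu0],
    by linarith only [huv], by linarith only [hwle, huc, huu0], ?_⟩
  · rw [e3, sq]; exact mul_le_mul_of_nonneg_left e6 hw.le
  · linarith only [hvv, hh, hwle, huv, huu0]
  · have h2 : 20 * u ^ 2 * (4 * u⁻¹) = 80 * u := by field_simp; ring
    linarith only [h2, hu1]

theorem IterD_num {M n : ℕ} (hM : 1 ≤ M) (hn : 1 ≤ n) {γ c w : ℝ} (hγ : γ = 1 / n)
    (hc : c ≤ 1 / 100) (hw : 0 < w) (hv : w ^ (γ / 8) ≤ 1 / 2) (hu : w ^ (1 / 4 : ℝ) ≤ c) :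
    IterD_Num M n γ c w := by
  have hn' : (1 : ℝ) ≤ n := by exact_mod_cast hn
  have hγ0 : 0 < γ := by rw [hγ]; positivity
  have hγ1 : γ ≤ 1 := by rw [hγ, div_le_one (by positivity)]; linarith only [hn']
  have hw1 : w ≤ 1 := by
    by_contra h
    have := Real.one_le_rpow (not_le.1 h).le (show (0 : ℝ) ≤ 1 / 4 by norm_num)
    linarith only [this, hu, hc]
  obtain ⟨e1, e2, e3, e4, e5, e6⟩ := IterD_rp hw hw1 hγ1
  have hup : 0 < w ^ (1 / 4 : ℝ) := Real.rpow_pos_of_pos hw _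
  have hvp : 0 < w ^ (γ / 8) := Real.rpow_pos_of_pos hw _
  have hlog : Real.log w⁻¹ ≤ 4 * (w ^ (1 / 4 : ℝ))⁻¹ := by
    have h1 := Real.log_le_sub_one_of_pos (inv_pos.2 hup)
    rw [Real.log_inv, Real.log_rpow hw] at h1
    rw [Real.log_inv]; linarith only [h1]
  have hpw : (w ^ (1 + γ)) ^ n = w ^ (n + 1) := by
    rw [← Real.rpow_natCast, ← Real.rpow_mul hw.le, ← Real.rpow_natCast]
    congr 1
    rw [hγ]; push_cast; field_simp
  have hwM : w ^ M ≤ w := pow_le_of_le_one hw.le hw1 (by omega)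
  have hsq : √(w ^ (1 + γ)) ≤ √w := Real.sqrt_le_sqrt (by
    rw [e3]; exact mul_le_of_le_one_right hw.le (pow_le_one₀ hvp.le (by linarith only [hv])))
  have hp' : 0 < w ^ (1 + γ) := Real.rpow_pos_of_pos hw _
  obtain ⟨f1, f2, f3, f4, f5, f6, f7, f8⟩ := IterD_num0 hup hvp hc hv hu e1 e3 e5 e6
  refine ⟨hw, hup, hvp, by linarith only [hv], f1, hu, hp', f2, f3, hpw, by rw [e4]; exact f4,
    hwM.trans f5, hsq.trans (e2.le.trans f6), e2.le.trans f6, hwM.trans f7, ?_⟩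
  rw [e2]
  exact (mul_le_mul_of_nonneg_left hlog (by positivity)).trans f8

theorem IterD_tl {C₁ R t : ℝ} (hC : 1 ≤ C₁) (ht : 0 < t) (htR : t ≤ R) (hR : R ≤ 1 / (4 * C₁)) :
    tl C₁ R - tl C₁ t ≤ Real.log R - Real.log t ∧
      Real.log R - Real.log t ≤ 2 * (tl C₁ R - tl C₁ t) := by
  have hR0 : 0 < R := ht.trans_le htR
  have h1 : Real.log t - Real.log R ≤ t / R - 1 := by
    rw [← Real.log_div ht.ne' hR0.ne']; exact Real.log_le_sub_one_of_pos (by positivity)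
  have h2 : 4 * C₁ * R ≤ 1 := by rwa [le_div_iff₀ (by positivity), mul_comm] at hR
  have h3 : 4 * C₁ * (R - t) ≤ 1 - t / R := by
    have : 1 - t / R = (R - t) / R := by field_simp
    rw [this, le_div_iff₀ hR0]
    linarith only [mul_le_mul_of_nonneg_right h2 (sub_nonneg.2 htR)]
  have h4 := mul_le_mul_of_nonneg_left htR (zero_le_one.trans hC)
  unfold tl
  exact ⟨by linarith only [h4], by linarith only [h1, h3, h4]⟩

theorem IterD_log {t x : ℝ} (ht : 0 < t) (hx : 0 ≤ x) (h : 2 * x ≤ t) :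
    Real.log t - Real.log (t - x) ≤ 2 * x / t := by
  have h0 : 0 < t - x := by linarith
  rw [← Real.log_div ht.ne' h0.ne']
  refine (Real.log_le_sub_one_of_pos (by positivity)).trans ?_
  rw [div_sub_one h0.ne', div_le_div_iff₀ h0 ht]
  linarith only [mul_le_mul_of_nonneg_left h hx]

theorem IterD_drop {R t w κ : ℝ} (hw : 0 < w) (hR : 0 < R) (h : R * w ^ κ ≤ t) :
    Real.log R - Real.log t ≤ κ * Real.log w⁻¹ := by
  have h1 := Real.log_le_log (mul_pos hR (Real.rpow_pos_of_pos hw κ)) h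
  rw [Real.log_mul hR.ne' (Real.rpow_pos_of_pos hw κ).ne', Real.log_rpow hw] at h1
  rw [Real.log_inv]; linarith only [h1]

theorem IterD_err {p : ℕ} {C₀ w w' : ℝ} (hC : 0 ≤ C₀) (hw : 0 < w) (hw' : 0 < w') (h1 : w' ≤ w)
    (h2 : w ^ 2 ≤ w') (h3 : 4 * C₀ * w ≤ 1) :
    C₀ * (w ^ (p + 2) + w' ^ (p + 2)) ^ 2 ≤ w ^ (2 * p + 1) * w' := by
  have a2 : w' ^ (p + 2) ≤ w ^ (p + 2) := pow_le_pow_left₀ hw'.le h1 _
  have a4 : (w ^ (p + 2) + w' ^ (p + 2)) ^ 2 ≤ (2 * w ^ (p + 2)) ^ 2 :=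
    pow_le_pow_left₀ (by positivity) (by linarith only [a2]) 2
  calc _ ≤ C₀ * (2 * w ^ (p + 2)) ^ 2 := mul_le_mul_of_nonneg_left a4 hC
    _ = (4 * C₀ * w) * (w ^ (2 * p + 1) * w ^ 2) := by ring
    _ ≤ 1 * (w ^ (2 * p + 1) * w') :=
        mul_le_mul h3 (mul_le_mul_of_nonneg_left h2 (by positivity)) (by positivity) zero_le_one
    _ = _ := one_mul _

theorem IterD_cube {M : ℕ} (hM : 10 ≤ M) {w w' t κ : ℝ} (hw : 0 < w) (hw1 : w ≤ 1 / 3000)
    (h2 : w ^ 2 ≤ w') (ht : √w' ≤ t) (hκ0 : 0 < κ) (hκ : κ ≤ w⁻¹) :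
    w ^ M ≤ (t / (2000 * κ)) ^ 3 := by
  have h1 : w ≤ t := (Real.le_sqrt_of_sq_le h2).trans ht
  have h3 : κ * w ≤ 1 := by
    have := mul_le_mul_of_nonneg_right hκ hw.le
    rwa [inv_mul_cancel₀ hw.ne'] at this
  have h4 : w ^ 3 ≤ t / (2000 * κ) := by
    rw [le_div_iff₀ (by positivity)]
    calc w ^ 3 * (2000 * κ) = (2000 * w) * (κ * w) * w := by ring
      _ ≤ 1 * 1 * w := mul_le_mul_of_nonneg_right
          (mul_le_mul (by linarith only [hw1]) h3 (by positivity) zero_le_one) hw.le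
      _ ≤ t := by linarith only [h1]
  calc w ^ M ≤ w ^ 9 := pow_le_pow_of_le_one hw.le (by linarith only [hw1]) (by omega)
    _ = (w ^ 3) ^ 3 := by ring
    _ ≤ _ := pow_le_pow_left₀ (by positivity) h4 3

/-- the data at one step -/
structure IterD_X (m N : ℕ) where
  S : Ref m N
  R : ℝ
  t : ℝ

/-- the invariant -/
structure IterD_Inv {Q : ℕ} {e0 T0 : ℝ} (G : Glob m N Q e0 T0) (M c a : ℕ) (C₀ t₀ ε₁ w : ℝ)
    (x : IterD_X m N) : Prop where
  st : State G M c a C₀ w x.S x.R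
  lo : w ^ (1 / 4 : ℝ) ≤ x.R
  hi : x.R ≤ t₀
  eps : Wn (s0 m) x.S.w (ε₁ - 2 * w)
  tle : x.t ≤ x.R
  I_le : x.S.I2 G.μ 0 x.t ≤ w ^ (2 * M + 2 * c + 1)
  I_gt : ∀ r, x.t < r → r ≤ x.R → w ^ (2 * M + 2 * c + 1) < x.S.I2 G.μ 0 r

/-- the relation between two consecutive steps -/
structure IterD_Rel {Q : ℕ} {e0 T0 : ℝ} (G : Glob m N Q e0 T0) (M c a : ℕ) (C₀ w : ℝ)
    (x y : IterD_X m N) : Prop where
  R_eq : y.R = x.t - 10 * w
  close : Wn (s0 m) (fun ξ => y.S.w ξ - x.S.w ξ) w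
  cmp : ∀ s δ : ℝ, w ^ (4 * a) ≤ s → s ≤ w ^ a →
    (∀ ξ ∈ x.S.dom 0 (x.t - 9 * w), ‖x.S.mean (G.μ.restrict (ball 0 x.t)) Q s ξ‖ ≤ δ) →
    ∀ ρ, ρ ≤ x.t - 10 * w →
      x.S.I2 G.μ 0 ρ ≤ 2 * y.S.I2 G.μ 0 ρ + C₀ * (δ + w ^ (M + c + 2)) ^ 2

theorem IterD_Inv.le_t {Q : ℕ} {e0 T0 : ℝ} {G : Glob m N Q e0 T0} {M c a : ℕ} {C₀ t₀ ε₁ w : ℝ}
    {x : IterD_X m N} (h : IterD_Inv G M c a C₀ t₀ ε₁ w x) {r : ℝ} (hr : r ≤ x.R)
    (hI : x.S.I2 G.μ 0 r ≤ w ^ (2 * M + 2 * c + 1)) : r ≤ x.t := by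
  by_contra hc
  exact absurd (h.I_gt r (not_le.1 hc) hr) (not_lt.2 hI)

theorem IterD_flat {S : Ref m N} {fr : Fr m N} {μ : Measure (E N)} {t₀ T0 A η : ℝ}
    (P : Piece S fr (μ.restrict (ball 0 t₀)) 0 t₀ T0 A) (hη : T0 * A ≤ η) :
    S.I2 μ 0 t₀ ≤ η ^ 2 := by
  have h1 := P.I2_univ.2.2
  rw [S.I2_restrict μ subset_rfl] at h1
  have hT := P.T_pos
  have hA := P.A_ge
  have ht0 : 0 < t₀ := by linarith only [hT, P.T_le]
  have h3 : t₀ ^ m ≤ A := (pow_le_one₀ ht0.le (by linarith only [P.R_le])).trans hA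
  calc _ ≤ A * T0 ^ 2 * t₀ ^ m := h1
    _ ≤ A * T0 ^ 2 * A := mul_le_mul_of_nonneg_left h3 (by positivity)
    _ = (T0 * A) ^ 2 := by ring
    _ ≤ _ := pow_le_pow_left₀ (by positivity) hη 2

theorem IterD_small {γ c b : ℝ} (hγ : 0 < γ) (hc : 0 < c) (hb : 0 < b) : ∃ w0 : ℝ, 0 < w0 ∧
    w0 < 1 ∧ (Real.log w0⁻¹) ^ (-b) ≤ γ / (1 + γ) ∧
    ∀ w, 0 < w → w ≤ w0 → w ^ (γ / 8) ≤ 1 / 2 ∧ w ^ (1 / 4 : ℝ) ≤ c := by
  have t1 : ∀ a : ℝ, 0 < a → Tendsto (fun w : ℝ => w ^ a) (𝓝[>] 0) (𝓝 0) := fun a ha => by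
    have := (Real.continuousAt_rpow_const 0 a (Or.inr ha.le)).tendsto
    rw [Real.zero_rpow ha.ne'] at this
    exact this.mono_left nhdsWithin_le_nhds
  have t2 : Tendsto (fun w : ℝ => (Real.log w⁻¹) ^ (-b)) (𝓝[>] 0) (𝓝 0) :=
    (tendsto_rpow_neg_atTop hb).comp
      (Real.tendsto_log_atTop.comp tendsto_inv_nhdsGT_zero)
  have e1 := (t1 (γ / 8) (by positivity)).eventually (ge_mem_nhds (show (0 : ℝ) < 1 / 2 by norm_num))
  have e2 := (t1 (1 / 4) (by positivity)).eventually (ge_mem_nhds hc)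
  have e3 := t2.eventually (ge_mem_nhds (show 0 < γ / (1 + γ) by positivity))
  obtain ⟨w0, ⟨h1, h2⟩, h3, h4⟩ := ((e1.and e2).and (e3.and (Ioo_mem_nhdsGT zero_lt_one))).exists
  refine ⟨w0, h4.1, h4.2, h3, fun w hw hle => ⟨?_, ?_⟩⟩
  · exact (Real.rpow_le_rpow hw.le hle (by positivity)).trans h1
  · exact (Real.rpow_le_rpow hw.le hle (by positivity)).trans h2

/-- the comparison of two consecutive references at the next radius -/
theorem IterD_cmp (hm : 1 ≤ m) {Q : ℕ} {e0 T0 : ℝ} {G : Glob m N Q e0 T0} {M c a : ℕ}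
    {C₀ t₀ ε₁ w w' : ℝ} {x y : IterD_X m N} (hM : 2 ≤ M) (ha : 1 ≤ a) (hC : 0 ≤ C₀) (hw : 0 < w)
    (hw' : 0 < w') (hw1 : w ≤ 1) (hh : w' ≤ w) (hsq : w ^ 2 ≤ w') (hC4 : 4 * C₀ * w ≤ 1)
    (hpw : w' ^ (2 * M + 2 * c) = w ^ (2 * M + 2 * c + 1))
    (h : IterD_Inv G M c a C₀ t₀ ε₁ w x) (h' : IterD_Inv G M c a C₀ t₀ ε₁ w' y)
    (r : IterD_Rel G M c a C₀ w' x y) :
    x.S.I2 G.μ 0 y.t ≤ 3 * (w ^ (2 * M + 2 * c + 1) * w') := by
  have hs2 : w ^ (2 * a) ≤ w ^ 2 := pow_le_pow_of_le_one hw.le hw1 (by omega)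
  have hT2 : w ^ M ≤ w ^ 2 := pow_le_pow_of_le_one hw.le hw1 hM
  have c1 := r.cmp (w ^ (2 * a)) (w ^ (M + c + 2))
    ((pow_le_pow_left₀ hw'.le hh _).trans (pow_le_pow_of_le_one hw.le hw1 (by omega)))
    (by rw [pow_mul]; exact pow_le_pow_left₀ (by positivity) hsq a)
    (fun ξ hξ => by
      have h1 : ‖x.S.F ξ‖ < x.t - 9 * w' := by simpa [Ref.dom] using hξ
      have h2 : ξ ∈ x.S.dom 0 (x.R - w ^ 2) := by
        show ‖x.S.F ξ - 0‖ < x.R - w ^ 2
        rw [sub_zero]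
        linarith only [h1, h.tle, hsq, hw']
      have h3 := h.st.track ξ h2
      unfold Ref.mean at h3 ⊢
      rw [h.st.pre.mean_restrict hm h.tle (pow_pos hw _)
        (by linarith only [h1, hs2, hT2, hsq, hw'])]
      exact h3)
    y.t (r.R_eq ▸ h'.tle)
  have c2 := h'.I_le
  have c3 := IterD_err (p := M + c) hC hw hw' hh hsq hC4
  have e : 2 * (M + c) + 1 = 2 * M + 2 * c + 1 := by ring
  rw [e] at c3
  rw [pow_succ w', hpw] at c2
  linarith only [c1, c2, c3]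

/-- Port of `IterD.lean` of the two-dimensional proof. Constants: `A` of `Pre.piece`,
`θ, C₁, κ₀, C, L₀` of `Piece.three`, `c, a, M₀, C₀, ε₀` of `update_state`, `M = max M₀ 10`,
`n = 2 M + 2 c`, `γ = 1 / n`, `δ` of `anchor`, `ε₁` the least of `ε₀`, `δ` and the constant of
`exists_lim`, `t₀ = min (1 / (4 C₁)) (1 / 10)`; `e0` and a bound for `w 0` from `State.drop` with
`κ = min (γ / 8) (1 / (2 κ₀))`; `w j = w 0 ^ ((1 + γ) ^ j)`, with `w (j + 1) ≤ w j / 2`;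
`T0 ≤ w 0` so small that the flat reference has `I2 ≤ w 0 ^ n` (`I2_univ`). Invariant at step `j`:
`State G M c a C₀ (w j) S R`, `w j ^ (1 / 4) ≤ R ≤ t₀`, `Wn (s0 m) S.w ε`, `ε + 2 w j ≤ ε₁`. Let `t j`
be given by `exists_radius` for the threshold `w j ^ (n + 1) = w (j + 1) ^ n`; `drop` gives
`R w ^ κ ≤ t j`; `update_state` with `w (j + 1)` gives the next state, of radius
`t j - 10 w (j + 1)`. Put `a j = tl C₁ (R j) - tl C₁ (t j)`, `L j = log (w j)⁻¹`, `b = θ / 2`. `h1` of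
`seq_lemma` is `three_num` (the last part of `update_state` with `s = w j ^ (2 a)`,
`δ = w j ^ (M + c + 2)`, `ρ = t (j + 1)`, using `track` and `mean_restrict`); `h2` is `drop` with
`eH_lim`. Conclude with `exists_lim`. -/
theorem glob_main (k : ℕ) (hk : 1 ≤ k) (N Q : ℕ) (hQ : 1 ≤ Q) : ∃ e0 T0 : ℝ, 0 < e0 ∧ 0 < T0 ∧
    ∀ G : Glob (k + 2) N Q e0 T0, Lim G := by
  have hm : 1 ≤ k + 2 := by omega
  obtain ⟨A, hA, hpc⟩ := Pre.piece (k + 2) Q
  obtain ⟨θ, C₁, κ₀, C, L₀, hθ, hθ1, hC₁, hκ₀, hC, hL₀, h3⟩ := Piece.three k hk N Q A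
  obtain ⟨c', a, M₀, C₀, ε₀, hc', ha, hC₀, hε₀, hU⟩ := update_state (k + 2) hm N Q hQ
  obtain ⟨M, hM0, hM⟩ : ∃ M : ℕ, M₀ ≤ M ∧ 10 ≤ M := ⟨max M₀ 10, le_max_left _ _, le_max_right _ _⟩
  obtain ⟨wU, hwU, hU⟩ := hU M hM0
  obtain ⟨δ, hδ, hanc⟩ := Pre.anchor (k + 2) hm Q
  obtain ⟨εL, hεL, hlim⟩ := exists_lim (k + 2) N
  obtain ⟨wN, hwN, hN⟩ := three_num θ C₁ κ₀ C C₀ hθ hθ1 hC₁ hκ₀ hC hC₀ (2 * M + 2 * c') (by omega)
  obtain ⟨γ, hγ⟩ : ∃ γ : ℝ, γ = 1 / ((2 * M + 2 * c' : ℕ) : ℝ) := ⟨_, rfl⟩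
  have hn4 : (4 : ℝ) ≤ ((2 * M + 2 * c' : ℕ) : ℝ) := by exact_mod_cast (by omega)
  have hγ0 : 0 < γ := by rw [hγ]; positivity
  have hγ1 : γ ≤ 1 / 4 := by
    rw [hγ]; exact one_div_le_one_div_of_le (by norm_num) hn4
  obtain ⟨κ, hκ, hκ1, hκ2⟩ : ∃ κ : ℝ, 0 < κ ∧ κ ≤ γ / 8 ∧ κ ≤ 1 / (2 * κ₀) :=
    ⟨min (γ / 8) (1 / (2 * κ₀)), by positivity, min_le_left _ _, min_le_right _ _⟩
  obtain ⟨e0, wD, he0, hwD, hD⟩ := State.drop (k + 2) Q M c' (by omega) C₀ κ hκ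
    (by linarith only [hγ0, hγ1, hκ1])
  obtain ⟨t₀, ht₀, ht1, ht4⟩ : ∃ t₀ : ℝ, 0 < t₀ ∧ t₀ ≤ 1 / (4 * C₁) ∧ t₀ ≤ 1 / 10 :=
    ⟨min (1 / (4 * C₁)) (1 / 10), by positivity, min_le_left _ _, min_le_right _ _⟩
  obtain ⟨ε₁, hε₁, he1, he2, he3⟩ : ∃ ε₁ : ℝ, 0 < ε₁ ∧ ε₁ ≤ ε₀ ∧ ε₁ ≤ δ ∧ ε₁ ≤ εL :=
    ⟨min ε₀ (min δ εL), by positivity, min_le_left _ _,
      (min_le_right _ _).trans (min_le_left _ _), (min_le_right _ _).trans (min_le_right _ _)⟩
  obtain ⟨c, hc, hc1, hc2, hc3, hc4, hc5, hc6, hc7, hc8⟩ : ∃ c : ℝ, 0 < c ∧ c ≤ Real.exp (-L₀) ∧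
      c ≤ wU ∧ c ≤ wN ∧ c ≤ wD ∧ c ≤ t₀ / 20 ∧ c ≤ 1 / 3000 ∧ c ≤ ε₁ / 3 ∧ c ≤ 1 / (4 * C₀) := by
    have : ∀ᶠ c in 𝓝[>] (0 : ℝ), 0 < c ∧ c ≤ Real.exp (-L₀) ∧ c ≤ wU ∧
      c ≤ wN ∧ c ≤ wD ∧ c ≤ t₀ / 20 ∧ c ≤ 1 / 3000 ∧ c ≤ ε₁ / 3 ∧ c ≤ 1 / (4 * C₀) := by
      have k : ∀ a : ℝ, 0 < a → ∀ᶠ c in 𝓝[>] (0 : ℝ), c ≤ a := fun a ha =>
        mem_nhdsWithin_of_mem_nhds (Iic_mem_nhds ha)
      filter_upwards [self_mem_nhdsWithin, k _ (Real.exp_pos (-L₀)), k _ hwU, k _ hwN, k _ hwD,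
        k (t₀ / 20) (by positivity), k (1 / 3000) (by positivity), k (ε₁ / 3) (by positivity),
        k (1 / (4 * C₀)) (by positivity)] with c a0 a1 a2 a3 a4 a5 a6 a7 a8
      exact ⟨a0, a1, a2, a3, a4, a5, a6, a7, a8⟩
    exact this.exists
  obtain ⟨w0, hw0, hw01, hL1, hsm⟩ := IterD_small hγ0 hc (half_pos hθ)
  have hnum : ∀ w, 0 < w → w ≤ w0 → IterD_Num M (2 * M + 2 * c') γ c w := fun w hw hle =>
    IterD_num (by omega) (by omega) hγ (by linarith only [hc6]) hw (hsm w hw hle).1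
      (hsm w hw hle).2
  obtain ⟨w, hwz, hws⟩ : ∃ w : ℕ → ℝ, w 0 = w0 ∧ ∀ j, w (j + 1) = w j ^ (1 + γ) :=
    ⟨fun j => Nat.rec w0 (fun _ x => x ^ (1 + γ)) j, rfl, fun _ => rfl⟩
  have hwb : ∀ j, 0 < w j ∧ w j ≤ w0 * (1 / 2) ^ j := by
    intro j
    induction j with
    | zero => simp [hwz, hw0]
    | succ j ih =>
      have h1 : w j ≤ w0 := ih.2.trans
        (mul_le_of_le_one_right hw0.le (pow_le_one₀ (by norm_num) (by norm_num)))
      have n := hnum _ ih.1 h1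
      rw [hws, pow_succ]
      exact ⟨n.pos', by linarith only [n.half, ih.2]⟩
  have hn : ∀ j, IterD_Num M (2 * M + 2 * c') γ c (w j) := fun j => hnum _ (hwb j).1
    ((hwb j).2.trans (mul_le_of_le_one_right hw0.le (pow_le_one₀ (by norm_num) (by norm_num))))
  have hsum : Summable w := Summable.of_nonneg_of_le (fun j => (hwb j).1.le) (fun j => (hwb j).2)
    (summable_geometric_two.mul_left w0)
  have hw1 : ∀ j, w j ≤ 1 := fun j => by linarith only [(hn j).le_c, hc6]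
  have hA0 : 0 < A := zero_lt_one.trans_le hA
  refine ⟨e0, min (t₀ / 100) (w0 ^ (M + c') / A), he0, by positivity, fun G => ?_⟩
  have := G.fin
  have hdrop : ∀ {j : ℕ} {x : IterD_X (k + 2) N}, IterD_Inv G M c' a C₀ t₀ ε₁ (w j) x →
      x.R * w j ^ κ ≤ x.t ∧ w j ^ (1 / 4 : ℝ) * w j ^ (γ / 8) ≤ x.t ∧ 0 < x.t := by
    intro j x h
    have n := hn j
    have hR : 0 < x.R := n.upos.trans_le h.lo
    have h0 : w j ^ (γ / 8) ≤ w j ^ κ := Real.rpow_le_rpow_of_exponent_ge n.pos (hw1 j) hκ1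
    have h1 : w j ^ (1 / 4 : ℝ) * w j ^ (γ / 8) ≤ x.R * w j ^ κ :=
      mul_le_mul h.lo h0 n.vpos.le hR.le
    have h2 : x.R * w j ^ κ ≤ x.R :=
      mul_le_of_le_one_right hR.le (Real.rpow_le_one n.pos.le (hw1 j) hκ.le)
    have h3 := h.le_t h2 (hD h.st n.pos (n.le_c.trans hc4) (n.sq2.trans (h1.trans h2))
      (h.hi.trans ht4) fun r _ _ => G.eH_le r)
    exact ⟨h3, h1.trans h3, (mul_pos n.upos n.vpos).trans_le (h1.trans h3)⟩
  have hmk : ∀ {v : ℝ} {S : Ref (k + 2) N} {R : ℝ}, 0 < v → State G M c' a C₀ v S R →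
      v ^ (1 / 4 : ℝ) ≤ R → R ≤ t₀ → Wn (s0 (k + 2)) S.w (ε₁ - 2 * v) →
      ∃ t, IterD_Inv G M c' a C₀ t₀ ε₁ v ⟨S, R, t⟩ := by
    intro v S R hv h1 h2 h3 h4
    obtain ⟨t, -, a1, a2, a3⟩ := exists_radius S G.μ ((Real.rpow_pos_of_pos hv _).le.trans h2)
      (show 0 ≤ v ^ (2 * M + 2 * c' + 1) by positivity)
    exact ⟨t, h1, h2, h3, h4, a1, a2, a3⟩
  obtain ⟨x0, hx0⟩ : ∃ x, IterD_Inv G M c' a C₀ t₀ ε₁ (w 0) x := by
    have n := hn 0
    have hT : 0 < min (t₀ / 100) (w0 ^ (M + c') / A) := by positivity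
    obtain ⟨S, hε, hP⟩ := exists_flat_ref G hT.le t₀
    have hI := IterD_flat (hpc hP hT (min_le_left _ _) ht4)
      (η := w0 ^ (M + c')) (by rw [← le_div_iff₀ hA0]; exact min_le_right _ _)
    have hsq : √(w 0) ≤ t₀ := by
      have := mul_le_of_le_one_right n.upos.le n.vle
      linarith only [n.sq2, n.ule, this, hc5, ht₀]
    have hTw : min (t₀ / 100) (w0 ^ (M + c') / A) ≤ w 0 := by
      rw [hwz]
      exact (min_le_right _ _).trans ((div_le_self (by positivity) hA).trans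
        (pow_le_of_le_one hw0.le hw01.le (by omega)))
    obtain ⟨S', h1, -, h2, -⟩ := hU (ε := 0) hP hT hTw ht4 (n.le_c.trans hc2) hsq
      (by rw [hwz]; refine hI.trans_eq ?_; ring) (by rw [hε]; exact Wn.zero _)
      (by linarith only [n.le_c, hc7, he1, hε₁])
    obtain ⟨t, ht⟩ := hmk n.pos h1 (by linarith only [n.le_c, n.ule, hc5, ht₀])
      (by linarith only [n.pos]) (h2.mono (by linarith only [n.le_c, hc7]))
    exact ⟨_, ht⟩
  have hstep : ∀ j x, IterD_Inv G M c' a C₀ t₀ ε₁ (w j) x →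
      ∃ y, IterD_Inv G M c' a C₀ t₀ ε₁ (w (j + 1)) y ∧ IterD_Rel G M c' a C₀ (w (j + 1)) x y := by
    intro j x h
    have n := hn j
    have n' := hn (j + 1)
    obtain ⟨d1, d2, d3⟩ := hdrop h
    have hh : w (j + 1) ≤ w j / 2 := by rw [hws]; exact n.half
    have hTw : w j ^ M ≤ w (j + 1) := by
      rw [hws]; exact (pow_le_pow_of_le_one n.pos.le (hw1 j) (by omega)).trans n.sq
    obtain ⟨S', h1, h2, h3, h4⟩ := hU (h.st.pre.mono h.tle) (pow_pos n.pos M) hTw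
      (h.tle.trans (h.hi.trans ht4)) (n'.le_c.trans hc2) (by rw [hws]; exact n.sq1.trans d2)
      (by rw [hws, n.pw]; exact h.I_le) h.eps (by linarith only [he1, n'.pos, hh])
    obtain ⟨t, ht⟩ := hmk n'.pos h1 (by rw [hws]; linarith only [n.rad, d2])
      (by linarith only [h.tle, h.hi, n'.pos]) (h3.mono (by linarith only [n'.pos, hh]))
    exact ⟨_, ht, rfl, h2, h4⟩
  obtain ⟨x, hx, hr⟩ := IterD_seq (fun j => IterD_Inv G M c' a C₀ t₀ ε₁ (w j))
    (fun j => IterD_Rel G M c' a C₀ (w (j + 1))) x0 hx0 hstep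
  have htl := fun j => IterD_tl hC₁ (hdrop (hx j)).2.2 (hx j).tle ((hx j).hi.trans ht1)
  have hLpos : ∀ j, 0 < Real.log (w j)⁻¹ := fun j =>
    Real.log_pos (one_lt_inv₀ (hn j).pos |>.2 (by linarith only [(hn j).le_c, hc6]))
  have hsqt : ∀ j, √(w j) ≤ (x j).t := fun j => (hn j).sq2.trans (hdrop (hx j)).2.1
  obtain ⟨τ, hτ, hτt⟩ := seq_lemma hγ0 (half_pos hθ) (L := fun j => Real.log (w j)⁻¹)
    (a := fun j => tl C₁ (x j).R - tl C₁ (x j).t) (t := fun j => (x j).t) (hLpos 0)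
    (by rw [hwz]; exact hL1)
    (fun j => by
      simp only [hws, Real.log_inv]
      rw [Real.log_rpow (hn j).pos]; ring)
    (fun j => (hdrop (hx j)).2.2)
    (antitone_nat_of_succ_le fun j => by
      have := (hx (j + 1)).tle
      rw [(hr j).R_eq] at this
      linarith only [(hn (j + 1)).pos, this])
    (fun j hj => by
      have n := hn j
      have n' := hn (j + 1)
      have h := hx j
      have h' := hx (j + 1)
      have r := hr j
      have hR : 0 < (x j).R := n.upos.trans_le h.lo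
      have hTR : w j ^ M ≤ (x j).R / 100 := by
        linarith only [n.hei, (hdrop h).2.1, h.tle]
      have P := hpc h.st.pre (pow_pos n.pos M) hTR (h.hi.trans ht4)
      have hC4 : 4 * C₀ * w j ≤ 1 := by
        have := n.le_c.trans hc8
        rwa [le_div_iff₀ (by positivity), mul_comm] at this
      have hle' : (x (j + 1)).t ≤ (x j).t - 10 * w (j + 1) := r.R_eq ▸ h'.tle
      have hsq : w j ^ 2 ≤ w (j + 1) := by rw [hws]; exact n.sq
      have hh : w (j + 1) ≤ w j := by rw [hws]; linarith only [n.half, n.pos]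
      show _ ≤ tl C₁ (x (j + 1)).R - tl C₁ (x (j + 1)).t
      rw [r.R_eq, hγ]
      refine hN ((x j).S.I2 G.μ 0) (w j) (w (j + 1)) _ (x j).R (x j).t (x (j + 1)).t n.pos
        (n.le_c.trans hc3) rfl (by rw [hws, hγ]) (h.hi.trans ht1) h.tle hle' (hsqt (j + 1)) ?_ ?_
        h.st.total h.I_gt ?_ hj
      · refine (IterD_drop n.pos hR (hdrop h).1).trans ?_
        refine (mul_le_mul_of_nonneg_right hκ2 (hLpos j).le).trans_eq ?_
        ring
      · intro κ' t₂ k1 k2 k3 k4 k5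
        have hκ' : 0 < κ' := by linarith only [k1, hκ₀]
        have k6 : t₂ ≤ (x j).R := k4.trans (mul_le_of_le_one_right hR.le
          (Real.exp_le_one_iff.2 (div_nonpos_of_nonpos_of_nonneg (by norm_num) hκ'.le)))
        have hAn := hanc h.st.pre (pow_pos n.pos M)
          (n.anc.trans (mul_le_mul (by linarith only [hc7, he2, hε₁]) h.lo n.upos.le hδ.le))
          (h.hi.trans ht4) fun ξ => ((h.eps.bd (by unfold s0; omega)).2.1.b1 ξ).trans
            (by linarith only [he2, n.pos])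
        have hL : L₀ ≤ Real.log (w j)⁻¹ := by
          have := Real.log_le_log n.pos (n.le_c.trans hc1)
          rw [Real.log_exp] at this
          rw [Real.log_inv]
          linarith only [this]
        have hTL : w j ^ M ≤ Real.exp (-Real.log (w j)⁻¹) := by
          rw [Real.log_inv, neg_neg, Real.exp_log n.pos]
          exact pow_le_of_le_one n.pos.le (hw1 j) (by omega)
        have := h3 P hAn (by rw [norm_zero]; norm_num) (h.hi.trans ht1) _ κ' (x (j + 1)).t t₂ hL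
          hTL k1 (IterD_cube hM n.pos (n.le_c.trans hc6) hsq (hsqt (j + 1)) hκ' k2) k3 k4 k5
        rwa [Ref.I2_restrict _ _ subset_rfl, Ref.I2_restrict _ _ (ball_subset_ball k6),
          Ref.I2_restrict _ _ (ball_subset_ball (k3.trans k6))] at this
      · exact IterD_cmp hm (by omega) ha (zero_le_one.trans hC₀) n.pos n'.pos (hw1 j) hh hsq hC4
          (by rw [hws, n.pw]) h h' r)
    (fun κ' hκ' => by
      obtain ⟨e, w', he, hw', hD'⟩ := State.drop (k + 2) Q M c' (by omega) C₀ (min κ' (1 / 4))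
        (by positivity) (min_le_right _ _)
      obtain ⟨ρ, hρ, hρe⟩ : ∃ ρ > 0, ∀ r, 0 < r → r ≤ ρ → G.eH r ≤ e := by
        obtain ⟨ρ, hρ, h⟩ := mem_nhdsGT_iff_exists_Ioc_subset.1
          (G.eH_lim.eventually (ge_mem_nhds he))
        exact ⟨ρ, hρ, fun r r1 r2 => h ⟨r1, r2⟩⟩
      obtain ⟨J, hJ⟩ := eventually_atTop.1
        (hsum.tendsto_atTop_zero.eventually (ge_mem_nhds hw'))
      refine ⟨ρ, hρ, J, fun j hj ht => ?_⟩
      have n' := hn (j + 1)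
      have h' := hx (j + 1)
      have hR : 0 < (x (j + 1)).R := n'.upos.trans_le h'.lo
      have hRρ : (x (j + 1)).R ≤ ρ := by rw [(hr j).R_eq]; linarith only [n'.pos, ht]
      have d := h'.le_t (mul_le_of_le_one_right hR.le
        (Real.rpow_le_one n'.pos.le (hw1 _) (by positivity)))
        (hD' h'.st n'.pos (hJ _ (by omega)) ((hsqt _).trans h'.tle) (h'.hi.trans ht4)
          fun r r1 r2 => hρe r r1 (r2.trans hRρ))
      refine (htl (j + 1)).1.trans ((IterD_drop n'.pos hR d).trans ?_)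
      exact mul_le_mul_of_nonneg_right (min_le_left _ _) (hLpos _).le)
    (fun j => by
      have n := hn j
      have n' := hn (j + 1)
      have hh : w (j + 1) ≤ w j := by rw [hws]; linarith only [n.half, n.pos]
      have ht := (hdrop (hx j)).2.2
      have hs := hsqt j
      have hs0 : 0 < √(w j) := Real.sqrt_pos.2 n.pos
      have hss : √(w j) * √(w j) = w j := Real.mul_self_sqrt n.pos.le
      have hs1 : √(w j) ≤ 1 / 20 := by
        have := mul_le_of_le_one_right n.upos.le n.vle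
        linarith only [n.sq2, n.ule, this, hc6]
      have h1 : w (j + 1) ≤ √(w j) * (x j).t :=
        hh.trans (hss.ge.trans (mul_le_mul_of_nonneg_left hs hs0.le))
      have h2 := IterD_log ht (x := 10 * w (j + 1)) (by linarith only [n'.pos])
        (by linarith only [mul_le_mul_of_nonneg_right hs1 ht.le, h1])
      have h4 : 2 * (10 * w (j + 1)) / (x j).t ≤ 1 / Real.log (w j)⁻¹ := by
        rw [div_le_div_iff₀ ht (hLpos j)]
        have := mul_le_mul_of_nonneg_right h1 (hLpos j).le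
        linarith only [mul_le_mul_of_nonneg_right n.lg ht.le, this]
      have h5 := (htl (j + 1)).2
      rw [← (hr j).R_eq] at h2
      show _ ≤ 2 * (tl C₁ (x (j + 1)).R - tl C₁ (x (j + 1)).t) + 1 / Real.log (w j)⁻¹
      linarith only [h2, h4, h5])
  refine hlim G (fun j => (x j).S) (fun j => (x j).R) (fun j => w j ^ M) (fun j => w (j + 1)) τ
    (ε₁ - 2 * w 0) hτ (fun j => (hτt j).trans (hx j).tle) (fun j => (hx j).st.pre) ?_
    ((summable_nat_add_iff 1).2 hsum) (fun j => (hr j).close) (hx 0).eps ?_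
  · have := hsum.tendsto_atTop_zero.pow M
    rwa [zero_pow (by omega)] at this
  · have h1 : ∑' j, w (j + 1) ≤ ∑' j : ℕ, w0 * (1 / 2) ^ j :=
      ((summable_nat_add_iff 1).2 hsum).tsum_le_tsum
        (fun j => (hwb (j + 1)).2.trans (mul_le_mul_of_nonneg_left
          (pow_le_pow_of_le_one (by norm_num) (by norm_num) (Nat.le_succ j)) hw0.le))
        (summable_geometric_two.mul_left w0)
    rw [tsum_mul_left, tsum_geometric_two] at h1
    linarith only [h1, hwz, he3]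

end Pool.Agent.MP_f6c0e6_an.Gen

end

section

/-! The local statement in every dimension. -/

set_option autoImplicit false

open MeasureTheory Filter Topology Set Metric
open scoped ENNReal RealInnerProductSpace

namespace Pool.Agent.MP_f6c0e6_an.Gen

variable {m N : ℕ}

theorem FinalA_fd {F : Type} [NormedAddCommGroup F] [NormedSpace ℝ F] (g : E m → F) (a b : ℝ)
    (x : E m) :
    fderiv ℝ (fun ξ => a • g (b • ξ)) x = (a * b) • fderiv ℝ g (b • x) := by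
  have h : (fun ξ => a • g (b • ξ)) = a • fun ξ => g (b • ξ) := rfl
  rw [h, fderiv_const_smul_field, Pi.smul_apply, fderiv_comp_smul, smul_smul]

theorem FinalA_min {W : E m → E N} {r : ℝ} (hr : 0 < r) {x : E m} (h : MinAt W (r⁻¹ • x)) :
    MinAt (fun ξ => r • W (r⁻¹ • ξ)) x := by
  have h1 : fderiv ℝ (fun ξ => r • W (r⁻¹ • ξ)) = fun ξ => (1 : ℝ) • fderiv ℝ W (r⁻¹ • ξ) :=
    funext fun ξ => by rw [FinalA_fd W, mul_inv_cancel₀ hr.ne']
  have h2 : giW (fun ξ => r • W (r⁻¹ • ξ)) x = giW W (r⁻¹ • x) := by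
    rw [giW, giW, gW, gW, h1]
    simp only [one_smul]
  rw [MinAt] at h ⊢
  rw [h2, h1, FinalA_fd (fderiv ℝ W)]
  simp only [smul_apply]
  rw [← Finset.smul_sum, h, smul_zero]

/-- `areaProp_of`, `LD_of_tangent`, `exists_glob` with `Gd = {θ = Q}`, `glob_main`; take
`W ξ = r • W' (r⁻¹ • ξ)` and the radius `r ρ` (`ae_scl`); the first derivative is unchanged and the
second is divided by `r`. -/
theorem core_three (k : ℕ) (hk : 1 ≤ k) (N : ℕ) : Core (k + 2) N := by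
  intro μ _ fr M θ ι P Q x₀ r₀ hM hθ h1 hμ htan hr hstat hQ hP hx hH
  obtain ⟨e0, T0, he, hT, H⟩ := glob_main k hk N Q hQ
  have hMae : ∀ᵐ y ∂μ, y ∈ M := by
    rw [hμ]
    exact withDensity_absolutelyContinuous _ _ (ae_restrict_mem hM)
  obtain ⟨r, r0, r1, G, hG, hι⟩ := exists_glob hr ι hP hx hstat (areaProp_of fr hM hθ h1 hμ htan)
    (Gd := {x | θ x = Q}) (hθ (measurableSet_singleton Q)) (by
      filter_upwards [htan, hMae] with y hy hyM
      refine ⟨?_, fun h => LD_of_tangent hy (le_of_eq (congrArg Nat.cast h.symm))⟩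
      have := LD_of_tangent (κ' := 1) hy (by exact_mod_cast h1 y hyM)
      rwa [one_mul] at this) hH he hT
  obtain ⟨W, ρ, g1, g2, g3, g4, g5, g6, g7⟩ := H G
  rw [hι] at g4 g7
  rw [hG, ae_restrict_iff' measurableSet_ball, ae_scl μ x₀ r0] at g7
  have hb : ∀ {n : ℕ} (v : E n), ‖v‖ < r * ρ → r⁻¹ • v ∈ ball (0 : E n) ρ := fun v hv => by
    rw [mem_ball_zero_iff, norm_smul, norm_inv, Real.norm_of_nonneg r0.le, inv_mul_lt_iff₀ r0]
    exact hv
  refine ⟨fun ξ => r • W (r⁻¹ • ξ), r * ρ, mul_pos r0 g1,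
    (mul_le_of_le_one_right r0.le g2).trans r1, ?_, fun ξ => by rw [map_smul, g4, smul_zero],
    fun ξ hξ => FinalA_min r0 (g5 _ (hb ξ (mem_ball_zero_iff.1 hξ))),
    by simp only [smul_zero, g6], ?_⟩
  · exact (g3.comp (contDiff_const_smul _).contDiffOn
      fun ξ hξ => hb ξ (mem_ball_zero_iff.1 hξ)).const_smul r
  · filter_upwards [g7] with y hy hyb
    have h2 := hb _ (mem_ball_iff_norm.1 hyb)
    have h3 := hy (ball_subset_ball g2 h2) h2
    rw [vt_smul, map_smul] at h3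
    rw [← h3, smul_smul, mul_inv_cancel₀ r0.ne', one_smul]

theorem core_all (m N : ℕ) : Core m N :=
  core_down m N (core_down (m + 1) (N + 1) (core_down (m + 2) (N + 2)
    (core_three (m + 1) (by omega) (N + 3))))

end Pool.Agent.MP_f6c0e6_an.Gen

end

section

/-! The main theorems. -/

set_option autoImplicit false

open MeasureTheory Filter Topology Set Metric
open scoped ENNReal RealInnerProductSpace

namespace Pool.Agent.MP_f6c0e6_an.Gen

variable {m N : ℕ}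

theorem FinalB_le {μ : Measure (E N)} {x : E N} {P : Submodule ℝ (E N)} {κ : ℝ}
    (h : HasTangentPlane m μ x P κ) : m ≤ N := by
  simpa [h.1] using P.finrank_le

theorem FinalB_ld {μ : Measure (E N)} {x : E N} {P : Submodule ℝ (E N)} {k : ℕ}
    (h : HasTangentPlane m μ x P k) (hk : 1 ≤ k) : LD m μ x (cg m) := by
  simpa using LD_of_tangent h (κ' := 1) (Nat.one_le_cast.2 hk)

/-- lower bound for the mass of balls about a point of the support -/
theorem FinalB_low {fr : Fr m N} {ν : Measure (E N)} [IsFiniteMeasure ν] {x₀ : E N} {r₀ r : ℝ}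
    (hs : Stat fr ν (ball x₀ r₀)) (hae : ∀ᵐ y ∂ν, LD m ν y (cg m)) (hr : 0 < r)
    (hr' : r ≤ r₀) (hpos : ν (ball x₀ (r / 2)) ≠ 0) :
    cg m / 2 ^ m ≤ (r ^ m)⁻¹ * (ν (ball x₀ r)).toReal := by
  obtain ⟨y, hy, hy'⟩ : ∃ y ∈ ball x₀ (r / 2), LD m ν y (cg m) := by
    by_contra hc
    push Not at hc
    exact hpos (measure_mono_null (fun y hy => hc y hy) (ae_iff.1 hae))
  have h1 : ball y (r / 2) ⊆ ball x₀ r := ball_subset_ball' (by linarith [mem_ball.1 hy])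
  have h2 := LD.le_ball hs hy' (half_pos hr) (h1.trans (ball_subset_ball hr'))
  have h4 : (ν (ball y (r / 2))).toReal ≤ (ν (ball x₀ r)).toReal :=
    ENNReal.toReal_mono (measure_ne_top _ _) (measure_mono h1)
  rw [le_inv_mul_iff₀ (by positivity)]
  refine le_trans (le_of_eq ?_) (h2.trans h4)
  rw [div_pow]
  ring

/-- Restrict `μ` to a small open ball about `x₀` with closure in `U`. The density at `x₀` is a
positive integer: balls about `x₀` have mass at least `c r ^ m`, so by (H) some good point `x` has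
`θ x = density x = density x₀`. Apply `core_all`, `supp_full` and `graph_minimal`. -/
theorem regular_thm {U : Set (E N)} (hU : IsOpen U) {μ : Measure (E N)}
    {S : E N → Submodule ℝ (E N)} (hV : IsIntegralVarifold m U μ S)
    (hS : IsStationary U μ S) {x₀ : E N} (hx : x₀ ∈ U) (hsupp : x₀ ∈ μ.support)
    (hH : HypH m μ x₀) : ∃ s > 0, IsMinimalGraphNear m x₀ (μ.support ∩ ball x₀ s) := by
  obtain ⟨hfin, hmeas, M, θ, hM, -, -, hθ, h1, hμ, htan⟩ := hV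
  obtain ⟨⟨P, hP⟩, hH⟩ := hH
  obtain ⟨r₀, hr₀, hU₀⟩ := nhds_basis_closedBall.mem_iff.1 (hU.mem_nhds hx)
  have hK : ∀ Z ⊆ ball x₀ r₀, μ Z < ⊤ := fun Z hZ =>
    (measure_mono (hZ.trans ball_subset_closedBall)).trans_lt
      (hfin _ (isCompact_closedBall _ _) hU₀)
  obtain ⟨fr, hfr⟩ := exists_frame (FinalB_le hP) hmeas
  have hst : Stat fr (μ.restrict (ball x₀ r₀)) (ball x₀ r₀) :=
    (stat_of_isStationary hU hS fr (htan.mono fun y hy => hfr y hy.1)).restrict isOpen_ball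
      (ball_subset_closedBall.trans hU₀)
  have hMae : ∀ᵐ y ∂μ, y ∈ M := by
    rw [hμ]
    exact withDensity_absolutelyContinuous _ _ (ae_restrict_mem hM)
  have hν : μ.restrict (ball x₀ r₀) = ((Measure.euclideanHausdorffMeasure m).restrict
      (ball x₀ r₀ ∩ M)).withDensity fun x => (θ x : ℝ≥0∞) := by
    rw [hμ, restrict_withDensity measurableSet_ball, Measure.restrict_restrict measurableSet_ball]
  have hle : μ.restrict (ball x₀ r₀) ≤ μ := Measure.restrict_le_self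
  have hsup : ∀ y ∈ ball x₀ r₀, y ∈ μ.support → y ∈ (μ.restrict (ball x₀ r₀)).support :=
    fun y hy hy' => Measure.interior_inter_support ⟨by rwa [isOpen_ball.interior_eq], hy'⟩
  have hP' := tangent_restrict hP isOpen_ball (mem_ball_self hr₀)
  have hgood : ∀ᵐ y ∂μ.restrict (ball x₀ r₀), 1 ≤ θ y ∧ density m μ y = θ y ∧
      HasTangentPlane m (μ.restrict (ball x₀ r₀)) y
        (Submodule.span ℝ (range fun i => fr.s i y)) (θ y) := by
    filter_upwards [ae_restrict_of_ae htan, ae_restrict_of_ae hMae,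
      ae_restrict_mem measurableSet_ball] with y h2 h3 h4
    obtain ⟨ε, hε, h5⟩ := Metric.isOpen_iff.1 isOpen_ball y h4
    refine ⟨h1 y h3, density_eq h2 ⟨ε, hε, hK _ h5⟩, ?_⟩
    rw [hfr y h2.1]
    exact tangent_restrict h2 isOpen_ball h4
  have : IsFiniteMeasure (μ.restrict (ball x₀ r₀)) := isFiniteMeasure_restrict.2 (hK _ le_rfl).ne
  generalize μ.restrict (ball x₀ r₀) = ν at *
  have hx₀ := hsup x₀ (mem_ball_self hr₀) hsupp
  have hcg := cg_pos m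
  have hld : ∀ᵐ y ∂ν, LD m ν y (cg m) := hgood.mono fun y hy => FinalB_ld hy.2.2 hy.1
  have hcmp : ∀ (Z : Set (E N)) r, 0 < r → r ≤ r₀ →
      (∀ᵐ y ∂ν, y ∈ Z → y ∈ {x | density m μ x ≠ density m μ x₀} ∩ ball x₀ r) →
      (r ^ m)⁻¹ * (ν Z).toReal ≤
        (r ^ m)⁻¹ * (μ ({x | density m μ x ≠ density m μ x₀} ∩ ball x₀ r)).toReal :=
    fun Z r hr hr' hZ => mul_le_mul_of_nonneg_left (ENNReal.toReal_mono
      (hK _ (inter_subset_right.trans (ball_subset_ball hr'))).ne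
      ((measure_mono_ae hZ).trans (hle _))) (by positivity)
  have hev : ∀ᶠ r in 𝓝[>] (0 : ℝ), 0 < r ∧ r ≤ r₀ := Ioc_mem_nhdsGT hr₀
  obtain ⟨Q, hQ, hQ'⟩ : ∃ Q : ℕ, 1 ≤ Q ∧ density m μ x₀ = Q := by
    by_contra hc
    push Not at hc
    obtain ⟨r, h2, hr, hr'⟩ :=
      ((hH.eventually (gt_mem_nhds (show 0 < cg m / 2 ^ m by positivity))).and hev).exists
    have h3 := FinalB_low hst hld hr hr'
      ((Measure.mem_support_iff_forall _).1 hx₀ _ (ball_mem_nhds _ (half_pos hr))).ne'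
    have h4 := hcmp (ball x₀ r) r hr hr' (hgood.mono fun y hy hy' =>
      ⟨fun e => hc (θ y) hy.1 (e.symm.trans hy.2.1), hy'⟩)
    linarith
  obtain ⟨ι, hι⟩ := exists_iso P hP.1
  rw [hQ'] at hP'
  obtain ⟨W, ρ, hρ, hρ', hW, hv, hmin, h0, hae⟩ := core_all m N ν fr (ball x₀ r₀ ∩ M) θ ι P Q x₀ r₀
    (measurableSet_ball.inter hM) hθ (fun x hx => h1 x hx.2) hν (hgood.mono fun y hy => hy.2.2)
    hr₀ hst hQ hι hP'
    (squeeze_zero' (hev.mono fun r hr => mul_nonneg (inv_nonneg.2 (pow_nonneg hr.1.le _))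
      ENNReal.toReal_nonneg) (hev.mono fun r hr =>
      hcmp _ r hr.1 hr.2 (hgood.mono fun y hy hy' => ⟨fun e => hy'.1 (by
        rw [hy.2.1, hQ'] at e
        exact Nat.cast_injective e), hy'.2⟩)) hH)
  obtain ⟨s, hs, hsρ, s1, s2⟩ := supp_full hρ ι (hst.mono (ball_subset_ball hρ'))
    (hgood.mono fun y hy => ⟨θ y, Nat.cast_pos.2 hy.1, hy.2.2⟩)
    (hW.of_le (WithTop.coe_le_coe.2 (le_top : (2 : ℕ∞) ≤ ⊤))) hv h0 hx₀ hae
  refine ⟨s, hs, ?_⟩
  convert graph_minimal ι (hW.mono (ball_subset_ball hsρ)) hv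
    (fun ξ hξ => hmin ξ (ball_subset_ball hsρ hξ)) x₀ isOpen_ball (mem_ball_self hs) using 1
  refine Subset.antisymm (fun y hy => ⟨hy.2, pr ι (y - x₀), ?_, ?_⟩) ?_
  · exact mem_ball_zero_iff.2 ((Supp_pr_norm ι _).trans_lt (mem_ball_iff_norm.1 hy.2))
  · have := s2 y ⟨hsup y (ball_subset_ball (hsρ.trans hρ') hy.2) hy.1, hy.2⟩
    simp only [← this, vt]
    abel
  · rintro y ⟨hy, ξ, hξ, rfl⟩
    exact ⟨Measure.support_mono hle (s1 ξ hξ), hy⟩

/-- a null set of points of positive lower density is null for the Hausdorff measure -/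
theorem FinalB_haus {ν : Measure (E N)} [IsFiniteMeasure ν] {A : Set (E N)} (hA : ν A = 0) {c : ℝ}
    (hc : 0 < c) (h : ∀ x ∈ A, ∀ᶠ r in 𝓝[>] (0 : ℝ), c * r ^ m ≤ (ν (ball x r)).toReal) :
    Measure.euclideanHausdorffMeasure m A = 0 := by
  have key : ∀ k : ℕ, ∃ (t : Set (E N)) (r : E N → ℝ), t.Countable ∧ t ⊆ A ∧
      (∀ x ∈ t, r x ∈ {r : ℝ | 0 < r ∧ r ≤ 1 / ((k : ℝ) + 1) ∧
        c * r ^ m ≤ (ν (ball x r)).toReal}) ∧ (A ⊆ ⋃ x ∈ t, closedBall x (r x)) ∧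
      (∑' x : t, ν (closedBall x (r x))) ≤ ν A + ENNReal.ofReal (1 / ((k : ℝ) + 1)) := fun k =>
    Besicovitch.exists_closedBall_covering_tsum_measure_le ν
      (ENNReal.ofReal_pos.2 (by positivity)).ne' _ A fun x hx δ hδ => by
      obtain ⟨r, h1, h2, h3⟩ := ((h x hx).and (inter_mem (Ioo_mem_nhdsGT hδ)
        (Ioc_mem_nhdsGT (show (0 : ℝ) < 1 / ((k : ℝ) + 1) by positivity)))).exists
      exact ⟨r, ⟨h3.1, h3.2, h1⟩, h2⟩
  choose t r h1 h2 h3 h4 h5 using key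
  have := fun k => (h1 k).to_subtype
  have hd : ∀ (x : E N) (ρ : ℝ), ediam (closedBall x ρ) ≤ ENNReal.ofReal (2 * ρ) := fun x ρ =>
    ediam_le_of_forall_dist_le fun a ha b hb => by
      linarith [dist_triangle_right a b x, mem_closedBall.1 ha, mem_closedBall.1 hb]
  have ht : ∀ a : ℝ, Tendsto (fun k : ℕ => ENNReal.ofReal (a * (1 / ((k : ℝ) + 1)))) atTop (𝓝 0) :=
    fun a => by
    have := ENNReal.tendsto_ofReal
      ((tendsto_one_div_add_atTop_nhds_zero_nat (𝕜 := ℝ)).const_mul a)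
    rwa [mul_zero, ENNReal.ofReal_zero] at this
  have h6 := Measure.hausdorffMeasure_le_liminf_tsum (ι := fun k => t k) (m : ℝ) A _ (ht 2)
    (fun k x => closedBall x (r k x))
    (Eventually.of_forall fun k x => (hd _ _).trans (ENNReal.ofReal_le_ofReal
      (mul_le_mul_of_nonneg_left (h3 k x x.2).2.1 zero_le_two)))
    (Eventually.of_forall fun k => by rw [iUnion_coe_set]; exact h4 k)
  have h7 : ∀ k, ∑' x : t k, ediam (closedBall (x : E N) (r k x)) ^ (m : ℝ) ≤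
      ENNReal.ofReal (2 ^ m / c * (1 / ((k : ℝ) + 1))) := fun k => by
    have h8 := h5 k
    rw [hA, zero_add] at h8
    rw [ENNReal.ofReal_mul (by positivity)]
    refine le_trans ?_ (mul_le_mul_right h8 _)
    rw [← ENNReal.tsum_mul_left]
    refine ENNReal.tsum_le_tsum fun x => ?_
    obtain ⟨a1, -, a3⟩ := h3 k x x.2
    rw [ENNReal.rpow_natCast]
    refine (pow_le_pow_left' (hd _ _) m).trans ?_
    refine le_trans ?_ (mul_le_mul_right (measure_mono ball_subset_closedBall) _)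
    rw [← ENNReal.ofReal_toReal (measure_ne_top ν (ball _ _)),
      ← ENNReal.ofReal_mul (by positivity), ← ENNReal.ofReal_pow (by positivity)]
    refine ENNReal.ofReal_le_ofReal ?_
    rw [div_mul_eq_mul_div, le_div_iff₀ hc, mul_pow, mul_assoc, mul_comm _ c]
    exact mul_le_mul_of_nonneg_left a3 (by positivity)
  have h9 := h6.trans ((liminf_le_liminf (Eventually.of_forall h7)).trans (ht _).liminf_eq.le)
  rw [Measure.euclideanHausdorffMeasure_def, Measure.smul_apply, nonpos_iff_eq_zero.1 h9, smul_zero]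

/-- Lebesgue points of the level sets of the multiplicity -/
theorem FinalB_leb {ν : Measure (E N)} [IsFiniteMeasure ν] {θ : E N → ℕ} (hθ : Measurable θ)
    (h : ∀ᵐ y ∂ν, ∃ P κ, HasTangentPlane m ν y P κ) :
    ∀ᵐ y ∂ν, Tendsto (fun r : ℝ => (r ^ m)⁻¹ * (ν ({x | θ x ≠ θ y} ∩ ball y r)).toReal)
      (𝓝[>] 0) (𝓝 0) := by
  filter_upwards [h, ae_all_iff.2 fun k : ℕ =>
    Besicovitch.ae_tendsto_measure_inter_div_of_measurableSet ν
      (hθ (measurableSet_singleton k)).compl] with y ⟨P, κ, hP⟩ h2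
  have h3 := h2 (θ y)
  rw [indicator_of_notMem (by simp)] at h3
  have h4 := (ENNReal.tendsto_toReal ENNReal.zero_ne_top).comp h3
  have h5 : Tendsto (fun r : ℝ => 2 * r) (𝓝[>] 0) (𝓝[>] 0) :=
    tendsto_nhdsWithin_iff.2 ⟨by simpa using
      (tendsto_id.mono_left (nhdsWithin_le_nhds (s := Ioi (0 : ℝ)) (a := 0))).const_mul (2 : ℝ),
      mem_of_superset self_mem_nhdsWithin fun r (hr : 0 < r) => (mul_pos two_pos hr : 0 < 2 * r)⟩
  have hg : 0 < gam ((1 / 2) ^ 2) := by unfold gam; norm_num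
  have h6 := h4.mul (((mk_tendsto hP).comp h5).mul_const (2 ^ m / gam ((1 / 2) ^ 2)))
  rw [ENNReal.toReal_zero, zero_mul] at h6
  refine squeeze_zero' (mem_of_superset self_mem_nhdsWithin fun r (hr : 0 < r) =>
    mul_nonneg (by positivity) ENNReal.toReal_nonneg) ?_ h6
  filter_upwards [self_mem_nhdsWithin] with r hr
  have hr' : (0 : ℝ) < r := hr
  have h7 := ball_le_mk (m := m) ν y (ρ := 2 * r) (t := 1 / 2) (by positivity) (by norm_num)
  rw [show 1 / 2 * (2 * r) = r by ring, mul_pow] at h7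
  have h8 : (ν ({x | θ x ≠ θ y} ∩ ball y r)).toReal ≤
      (ν ((θ ⁻¹' {θ y})ᶜ ∩ closedBall y r) / ν (closedBall y r)).toReal *
        (ν (closedBall y r)).toReal := by
    rw [← ENNReal.toReal_mul]
    rcases eq_or_ne (ν (closedBall y r)) 0 with e | e
    · rw [measure_mono_null (inter_subset_right.trans ball_subset_closedBall) e]
      exact ENNReal.toReal_nonneg
    · rw [ENNReal.div_mul_cancel e (measure_ne_top _ _)]
      exact ENNReal.toReal_mono (measure_ne_top _ _)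
        (measure_mono (inter_subset_inter_right _ ball_subset_closedBall))
  rw [inv_mul_le_iff₀ (by positivity), mul_left_comm]
  refine h8.trans (mul_le_mul_of_nonneg_left ?_ ENNReal.toReal_nonneg)
  rw [Function.comp_apply, ← mul_div_assoc, ← mul_div_assoc, le_div_iff₀ hg]
  linarith

/-- Almost every point satisfies (H) (Lebesgue-Besicovitch differentiation), and a `μ`-null subset
of the support is null for the Hausdorff measure by the lower density bound. -/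
theorem ae_regular {U : Set (E N)} (hU : IsOpen U) {μ : Measure (E N)}
    {S : E N → Submodule ℝ (E N)} (hV : IsIntegralVarifold m U μ S) (hS : IsStationary U μ S) :
    Measure.euclideanHausdorffMeasure m {x | x ∈ U ∧ x ∈ μ.support ∧
      ¬∃ s > 0, IsMinimalGraphNear m x (μ.support ∩ ball x s)} = 0 := by
  refine measure_null_of_locally_null _ fun x₀ hx₀ => ?_
  have hreg := fun x => regular_thm hU hV hS (x₀ := x)
  obtain ⟨hfin, hmeas, M, θ, hM, -, -, hθ, h1, hμ, htan⟩ := hV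
  obtain ⟨r₀, hr₀, hU₀⟩ := nhds_basis_closedBall.mem_iff.1 (hU.mem_nhds hx₀.1)
  refine ⟨_, inter_mem_nhdsWithin _ (ball_mem_nhds x₀ hr₀), ?_⟩
  have hK : ∀ Z ⊆ ball x₀ r₀, μ Z < ⊤ := fun Z hZ =>
    (measure_mono (hZ.trans ball_subset_closedBall)).trans_lt
      (hfin _ (isCompact_closedBall _ _) hU₀)
  have hN : m ≤ N := by
    by_contra hc
    exact ((Measure.mem_support_iff_forall _).1 hx₀.2.1 univ univ_mem).ne'
      (measure_eq_zero_iff_ae_notMem.2 (htan.mono fun y hy _ => hc (FinalB_le hy)))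
  obtain ⟨fr, hfr⟩ := exists_frame hN hmeas
  have hst : Stat fr (μ.restrict (ball x₀ r₀)) (ball x₀ r₀) :=
    (stat_of_isStationary hU hS fr (htan.mono fun y hy => hfr y hy.1)).restrict isOpen_ball
      (ball_subset_closedBall.trans hU₀)
  have hMae : ∀ᵐ y ∂μ, y ∈ M := by
    rw [hμ]
    exact withDensity_absolutelyContinuous _ _ (ae_restrict_mem hM)
  have : IsFiniteMeasure (μ.restrict (ball x₀ r₀)) := isFiniteMeasure_restrict.2 (hK _ le_rfl).ne
  have hgood : ∀ᵐ y ∂μ.restrict (ball x₀ r₀), y ∈ ball x₀ r₀ ∧ 1 ≤ θ y ∧ density m μ y = θ y ∧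
      HasTangentPlane m μ y (S y) (θ y) ∧
      HasTangentPlane m (μ.restrict (ball x₀ r₀)) y (S y) (θ y) := by
    filter_upwards [ae_restrict_of_ae htan, ae_restrict_of_ae hMae,
      ae_restrict_mem measurableSet_ball] with y h2 h3 h4
    obtain ⟨ε, hε, h5⟩ := Metric.isOpen_iff.1 isOpen_ball y h4
    exact ⟨h4, h1 y h3, density_eq h2 ⟨ε, hε, hK _ h5⟩, h2, tangent_restrict h2 isOpen_ball h4⟩
  have hsm : ∀ y ∈ ball x₀ r₀, ∀ᶠ r in 𝓝[>] (0 : ℝ), 0 < r ∧ ball y r ⊆ ball x₀ r₀ := fun y hy => by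
    obtain ⟨ε, hε, h5⟩ := Metric.isOpen_iff.1 isOpen_ball y hy
    filter_upwards [Ioo_mem_nhdsGT hε] with r hr
    exact ⟨hr.1, (ball_subset_ball hr.2.le).trans h5⟩
  have hres : ∀ Z ⊆ ball x₀ r₀, μ.restrict (ball x₀ r₀) Z = μ Z := fun Z hZ => by
    rw [Measure.restrict_apply' measurableSet_ball, inter_eq_left.2 hZ]
  generalize μ.restrict (ball x₀ r₀) = ν at *
  have hcg := cg_pos m
  have hld : ∀ᵐ y ∂ν, LD m ν y (cg m) := hgood.mono fun y hy => FinalB_ld hy.2.2.2.2 hy.2.1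
  refine FinalB_haus (ν := ν) ?_ (c := cg m / 2 ^ m) (by positivity) fun x hx => ?_
  · rw [measure_eq_zero_iff_ae_notMem]
    filter_upwards [hgood, FinalB_leb hθ (hgood.mono fun y hy => ⟨_, _, hy.2.2.2.2⟩)]
      with y h2 h3 h4
    refine h4.1.2.2 (hreg y h4.1.1 h4.1.2.1 ⟨⟨S y, h2.2.2.1 ▸ h2.2.2.2.1⟩, h3.congr' ?_⟩)
    filter_upwards [hsm y h2.1] with r hr
    rw [← hres _ (inter_subset_right.trans hr.2)]
    congr 2
    refine measure_congr (hgood.mono fun x hx => propext ?_)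
    show θ x ≠ θ y ∧ _ ↔ density m μ x ≠ density m μ y ∧ _
    rw [hx.2.2.1, h2.2.2.1, Nat.cast_injective.ne_iff]
  · filter_upwards [hsm x hx.2] with r hr
    have h2 := FinalB_low (hst.mono hr.2) hld hr.1 le_rfl (by
      rw [hres _ ((ball_subset_ball (half_le_self hr.1.le)).trans hr.2)]
      exact ((Measure.mem_support_iff_forall _).1 hx.1.2.1 _
        (ball_mem_nhds _ (half_pos hr.1))).ne')
    rwa [le_inv_mul_iff₀ (pow_pos hr.1 m), mul_comm] at h2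

end Pool.Agent.MP_f6c0e6_an.Gen

end

section

/-! The main theorems for the definitions of `Spec`. -/

set_option autoImplicit false

open MeasureTheory Filter Topology Set Metric
open scoped ENNReal RealInnerProductSpace

namespace Pool.Agent.MP_f6c0e6_an.Gen

variable {m N : ℕ}

theorem field_of_spec {U : Set (E N)} (hU : IsOpen U) {μ : Measure (E N)}
    (hV : Spec.IsIntegralVarifold m U μ) (hS : Spec.IsStationary m U μ) :
    ∃ S : E N → Submodule ℝ (E N), IsIntegralVarifold m U μ S ∧ IsStationary U μ S := by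
  obtain ⟨hfin, M, θ, hM, hMU, hR, hθ, h1, hμ⟩ := hV
  obtain ⟨S, hS1, hS2⟩ := exists_field hU hfin hM hMU hR hθ h1 hμ
  refine ⟨S, hS1, fun X hX hc hs => ?_⟩
  rw [← hS X hX hc hs]
  refine integral_congr_ae ?_
  filter_upwards [hS2] with x hx
  exact (congrArg (fun P : Submodule ℝ (E N) =>
    LinearMap.trace ℝ (E N) (P.starProjection.comp (fderiv ℝ X x)).toLinearMap) hx).symm

theorem regular_main {U : Set (E N)} (hU : IsOpen U) {μ : Measure (E N)}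
    (hV : Spec.IsIntegralVarifold m U μ) (hS : Spec.IsStationary m U μ) {x₀ : E N} (hx : x₀ ∈ U)
    (hsupp : x₀ ∈ μ.support) (hH : Spec.HypH m μ x₀) :
    ∃ s > 0, Spec.IsMinimalGraphNear m x₀ (μ.support ∩ ball x₀ s) := by
  obtain ⟨S, h1, h2⟩ := field_of_spec hU hV hS
  exact regular_thm hU h1 h2 hx hsupp hH

theorem ae_regular_main {U : Set (E N)} (hU : IsOpen U) {μ : Measure (E N)}
    (hV : Spec.IsIntegralVarifold m U μ) (hS : Spec.IsStationary m U μ) :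
    Measure.euclideanHausdorffMeasure m {x | x ∈ U ∧ x ∈ μ.support ∧
      ¬∃ s > 0, Spec.IsMinimalGraphNear m x (μ.support ∩ ball x s)} = 0 := by
  obtain ⟨S, h1, h2⟩ := field_of_spec hU hV hS
  exact ae_regular hU h1 h2

end Pool.Agent.MP_f6c0e6_an.Gen

end
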