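import Pool.Agent.MP_f6c0e6_an.All.ChartC
import Pool.Agent.MP_f6c0e6_an.All.Conv
import Pool.Agent.MP_f6c0e6_an.All.BaseA
import Pool.Agent.MP_f6c0e6_an.All.Basic

section

/-! The weak Jacobi equation for the height over the graph. -/

set_option autoImplicit false

open MeasureTheory Filter Topology Set Metric
open scoped ENNReal RealInnerProductSpace

namespace Pool.Agent.MP_f6c0e6_an.Gen

variable {m N : ℕ}

theorem Jac_frame {s : Fin m → E N} (hs : Orthonormal ℝ s) (p q : E N) :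
    ⟪p, q⟫ = ∑ l, ⟪s l, p⟫ * ⟪s l, q⟫ +
      ⟪p - ∑ l, ⟪s l, p⟫ • s l, q - ∑ l, ⟪s l, q⟫ • s l⟫ := by
  have h1 : ⟪∑ l, ⟪s l, p⟫ • s l, ∑ l, ⟪s l, q⟫ • s l⟫ = ∑ l, ⟪s l, p⟫ * ⟪s l, q⟫ := by
    rw [sum_inner]
    refine Finset.sum_congr rfl fun l _ => ?_
    rw [real_inner_smul_left, hs.inner_right_fintype]
  have h2 : ⟪∑ l, ⟪s l, p⟫ • s l, q⟫ = ∑ l, ⟪s l, p⟫ * ⟪s l, q⟫ := by
    rw [sum_inner]
    exact Finset.sum_congr rfl fun l _ => real_inner_smul_left _ _ _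
  have h3 : ⟪p, ∑ l, ⟪s l, q⟫ • s l⟫ = ∑ l, ⟪s l, p⟫ * ⟪s l, q⟫ := by
    rw [inner_sum]
    refine Finset.sum_congr rfl fun l _ => ?_
    rw [real_inner_smul_right, real_inner_comm (s l) p, mul_comm]
  rw [inner_sub_left, inner_sub_right, inner_sub_right, h1, h2, h3]
  ring

theorem Jac_lin (L : E m →L[ℝ] E N) (q : E N) (a : E m) :
    ⟪q, L a⟫ = ∑ j, ⟪a, ev j⟫ * ⟪q, L (ev j)⟫ := by
  conv_lhs => rw [← sum_ev a, map_sum, inner_sum]
  refine Finset.sum_congr rfl fun j _ => ?_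
  rw [map_smul, real_inner_smul_right, real_inner_comm]

namespace Ref

variable (S : Ref m N)

/-- the derivative of the height along `s` -/
noncomputable def qv (x : E m) (s : E N) : E N := s - S.La x (pr S.ι s)

/-- the slope relative to the graph -/
noncomputable def Bq (x : E m) (s : Fin m → E N) (u : E m) : E N :=
  ∑ l, ⟪pr S.ι (s l), u⟫ • S.qv x (s l)

theorem Jac_La (x u : E m) : S.La x u = S.ι u + fderiv ℝ S.w x u := rfl

theorem Jac_qv (x : E m) (s : E N) : pr S.ι (S.qv x s) = 0 := by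
  rw [qv, map_sub, (S.La_bd x _ 0).1, sub_self]

theorem Jac_Pgi (x u : E m) : ‖fderiv ℝ S.w x (giW S.w x u)‖ ≤ ‖u‖ := by
  have h1 := (fderiv ℝ S.w x).le_of_opNorm_le ((S.b1 x).trans (by norm_num : (1 : ℝ) / 100 ≤ 1))
    (giW S.w x u)
  have h2 := (giW S.w x).le_of_opNorm_le (gW_bd S.w x).1 u
  linarith

theorem Jac_sLa (x u : E m) (s : E N) : ⟪s, S.La x (giW S.w x u)⟫ =
    ⟪pr S.ι s, u⟫ + ⟪S.qv x s, fderiv ℝ S.w x (giW S.w x u)⟫ := by
  have h1 : s = S.La x (pr S.ι s) + S.qv x s := by rw [qv]; abel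
  have h2 : ⟪S.qv x s, S.ι (giW S.w x u)⟫ = 0 := by
    rw [FlatA_iota, S.Jac_qv, inner_zero_left]
  conv_lhs => rw [h1]
  rw [inner_add_left, (S.La_bd x _ _).2.1, gW_symm, (giW_gW S.w x u).2, S.Jac_La x (giW S.w x u),
    inner_add_right, h2, zero_add]

theorem Jac_Bq (x : E m) (s : Fin m → E N) (u : E m) (z : E N) :
    ⟪S.Bq x s u, z⟫ = ∑ l, ⟪pr S.ι (s l), u⟫ * ⟪S.qv x (s l), z⟫ := by
  rw [Bq, sum_inner]
  exact Finset.sum_congr rfl fun l _ => real_inner_smul_left _ _ _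

/-- With `a_l = pr s_l`, `q_l = qv s_l` (vertical), `⟪s_l, La u⟫ = g (a_l, u) + ⟪q_l, Dw u⟫`, and the
component of `La u` normal to the frame is at most `2 √tilt ‖u‖ ≤ 2 √(∑ ‖q_l‖²) ‖u‖` (`str_bd`,
`al_calc`). Expand `g (u', v') = ⟪La u', La v'⟫` along the frame for `u' = g⁻¹ u`, `v' = g⁻¹ v`. -/
theorem gram_pr (x : E m) {s : Fin m → E N} (hs : Orthonormal ℝ s) (u v : E m) :
    |∑ l, ⟪pr S.ι (s l), u⟫ * ⟪pr S.ι (s l), v⟫ - (⟪u, giW S.w x v⟫ -
      ⟪S.Bq x s u, fderiv ℝ S.w x (giW S.w x v)⟫ - ⟪fderiv ℝ S.w x (giW S.w x u), S.Bq x s v⟫)| ≤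
        5 * (∑ l, ‖S.qv x (s l)‖ ^ 2) * ‖u‖ * ‖v‖ ∧
      ‖S.Bq x s u‖ ≤ √(∑ l, ‖S.qv x (s l)‖ ^ 2) * ‖u‖ := by
  obtain ⟨Q, hQ⟩ : ∃ Q, Q = ∑ l, ‖S.qv x (s l)‖ ^ 2 := ⟨_, rfl⟩
  have hQ0 : 0 ≤ Q := hQ ▸ Finset.sum_nonneg fun l _ => sq_nonneg _
  constructor
  · have ht : S.tilt x s ≤ Q := by
      rw [hQ, tilt]
      exact Finset.sum_le_sum fun l _ =>
        pow_le_pow_left₀ (norm_nonneg _) (S.al_calc x (pr S.ι (s l)) (s l)).2.2.2.2.2.2 2
    have hn : ∀ z : E m, ‖S.La x (giW S.w x z) - ∑ l, ⟪s l, S.La x (giW S.w x z)⟫ • s l‖ ≤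
        2 * √Q * ‖z‖ := fun z => by
      refine ((S.str_bd x hs).2.2.2.2.2.2.2.1 _).trans (mul_le_mul
        (mul_le_mul_of_nonneg_left (Real.sqrt_le_sqrt ht) zero_le_two) ?_ (norm_nonneg _)
        (by positivity))
      linarith [(giW S.w x).le_of_opNorm_le (gW_bd S.w x).1 z]
    have h1 := Jac_frame hs (S.La x (giW S.w x u)) (S.La x (giW S.w x v))
    have h2 := (abs_real_inner_le_norm _ _).trans (mul_le_mul (hn u) (hn v) (norm_nonneg _)
      (by positivity))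
    rw [(S.La_bd x _ _).2.1, (giW_gW S.w x u).2] at h1
    have h3 : ∑ l, ⟪s l, S.La x (giW S.w x u)⟫ * ⟪s l, S.La x (giW S.w x v)⟫ =
        ∑ l, ⟪pr S.ι (s l), u⟫ * ⟪pr S.ι (s l), v⟫ +
          ⟪S.Bq x s u, fderiv ℝ S.w x (giW S.w x v)⟫ +
          ⟪fderiv ℝ S.w x (giW S.w x u), S.Bq x s v⟫ +
          ∑ l, ⟪S.qv x (s l), fderiv ℝ S.w x (giW S.w x u)⟫ *
            ⟪S.qv x (s l), fderiv ℝ S.w x (giW S.w x v)⟫ := by
      rw [real_inner_comm (S.Bq x s v), S.Jac_Bq, S.Jac_Bq, ← Finset.sum_add_distrib,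
        ← Finset.sum_add_distrib, ← Finset.sum_add_distrib]
      refine Finset.sum_congr rfl fun l _ => ?_
      rw [S.Jac_sLa, S.Jac_sLa]
      ring
    have h4 : |∑ l, ⟪S.qv x (s l), fderiv ℝ S.w x (giW S.w x u)⟫ *
        ⟪S.qv x (s l), fderiv ℝ S.w x (giW S.w x v)⟫| ≤ Q * ‖u‖ * ‖v‖ := by
      rw [hQ, Finset.sum_mul, Finset.sum_mul]
      refine (Finset.abs_sum_le_sum_abs _ _).trans (Finset.sum_le_sum fun l _ => ?_)
      have b : ∀ z, |⟪S.qv x (s l), fderiv ℝ S.w x (giW S.w x z)⟫| ≤ ‖S.qv x (s l)‖ * ‖z‖ :=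
        fun z => (abs_real_inner_le_norm _ _).trans
          (mul_le_mul_of_nonneg_left (S.Jac_Pgi x z) (norm_nonneg _))
      rw [abs_mul]
      exact (mul_le_mul (b u) (b v) (abs_nonneg _) (by positivity)).trans (le_of_eq (by ring))
    have h5 : 2 * √Q * ‖u‖ * (2 * √Q * ‖v‖) = 4 * (Q * ‖u‖ * ‖v‖) := by
      rw [show 2 * √Q * ‖u‖ * (2 * √Q * ‖v‖) = 4 * (√Q * √Q * ‖u‖ * ‖v‖) by ring,
        Real.mul_self_sqrt hQ0]
    rw [h5] at h2
    rw [h3] at h1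
    rw [← hQ, abs_le] at *
    constructor <;> linarith [h2.1, h2.2, h4.1, h4.2]
  · have h1 : ‖S.Bq x s u‖ ≤ ∑ l, |⟪pr S.ι (s l), u⟫| * ‖S.qv x (s l)‖ :=
      (norm_sum_le _ _).trans (le_of_eq (Finset.sum_congr rfl fun l _ => norm_smul _ _))
    have h2 := Finset.sum_mul_sq_le_sq_mul_sq Finset.univ (fun l => |⟪pr S.ι (s l), u⟫|)
      fun l => ‖S.qv x (s l)‖
    have h3 : ∑ l, |⟪pr S.ι (s l), u⟫| ^ 2 ≤ ‖u‖ ^ 2 := by
      have := hs.sum_inner_products_le (S.ι u) (s := Finset.univ)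
      rw [S.ι.norm_map] at this
      refine le_trans (le_of_eq (Finset.sum_congr rfl fun l _ => ?_)) this
      rw [FlatA_iota, Real.norm_eq_abs]
    rw [← hQ] at h2 ⊢
    refine h1.trans (abs_le_of_sq_le_sq' ?_ (by positivity)).2
    rw [mul_pow, Real.sq_sqrt hQ0, mul_comm]
    exact h2.trans (mul_le_mul_of_nonneg_right h3 hQ0)

theorem Jac_sumB (x : E m) (s : Fin m → E N) (L : E m →L[ℝ] E N) :
    ∑ l, ⟪S.qv x (s l), L (pr S.ι (s l))⟫ = ∑ j, ⟪S.Bq x s (ev j), L (ev j)⟫ := by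
  simp only [S.Jac_Bq]
  rw [Finset.sum_comm]
  exact Finset.sum_congr rfl fun l _ => Jac_lin _ _ _

/-- the second fundamental form along the frame -/
theorem Jac_H {x : E m} (hx : x ∈ S.D) {s : Fin m → E N} (hs : Orthonormal ℝ s) (p : E N) :
    |∑ l, ⟪fderiv ℝ (fderiv ℝ S.w) x (pr S.ι (s l)) (pr S.ι (s l)), p⟫ +
      2 * ∑ j, ⟪S.Bq x s (ev j), fderiv ℝ S.w x (giW S.w x
        ((fderiv ℝ (fderiv ℝ S.w) x (ev j)).adjoint p))⟫| ≤
      m * (5 * (∑ l, ‖S.qv x (s l)‖ ^ 2) * ‖p‖) := by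
  obtain ⟨v, hv⟩ : ∃ v : Fin m → E m, v = fun j => (fderiv ℝ (fderiv ℝ S.w) x (ev j)).adjoint p :=
    ⟨_, rfl⟩
  have hw2 : ContDiff ℝ 2 S.w := S.smooth.of_le (by norm_num)
  have hv1 : ∀ j a, ⟪a, v j⟫ = ⟪fderiv ℝ (fderiv ℝ S.w) x (ev j) a, p⟫ := fun j a => by
    rw [hv]; exact ContinuousLinearMap.adjoint_inner_right _ _ _
  have hv2 : ∀ j, ‖v j‖ ≤ ‖p‖ := fun j => by
    have a1 : ‖(fderiv ℝ (fderiv ℝ S.w) x (ev j)).adjoint‖ ≤ 1 := by
      rw [ContinuousLinearMap.adjoint.norm_map]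
      have := (fderiv ℝ (fderiv ℝ S.w) x).le_of_opNorm_le (S.b2 x) (ev j)
      rw [norm_ev] at this
      linarith
    have := (fderiv ℝ (fderiv ℝ S.w) x (ev j)).adjoint.le_of_opNorm_le a1 p
    rw [hv]
    linarith
  have e1 : ∑ l, ⟪fderiv ℝ (fderiv ℝ S.w) x (pr S.ι (s l)) (pr S.ι (s l)), p⟫ =
      ∑ j, ∑ l, ⟪pr S.ι (s l), ev j⟫ * ⟪pr S.ι (s l), v j⟫ := by
    rw [Finset.sum_comm]
    refine Finset.sum_congr rfl fun l _ => ?_
    rw [real_inner_comm, Jac_lin]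
    refine Finset.sum_congr rfl fun j _ => ?_
    rw [hv1, hess_symm hw2 x (ev j), real_inner_comm p]
  have e2 : ∑ j, ⟪ev j, giW S.w x (v j)⟫ = 0 := by
    have := S.min x hx
    rw [MinAt] at this
    simp only [← giW_symm, hv1]
    rw [← sum_inner, this, inner_zero_left]
  have e3 : ∑ j, ⟪fderiv ℝ S.w x (giW S.w x (ev j)), S.Bq x s (v j)⟫ =
      ∑ j, ⟪S.Bq x s (ev j), fderiv ℝ S.w x (giW S.w x (v j))⟫ := by
    have a1 : ∀ j, ⟪fderiv ℝ S.w x (giW S.w x (ev j)), S.Bq x s (v j)⟫ =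
        ∑ k, ⟪v k, ev j⟫ * ⟪S.Bq x s (ev k), fderiv ℝ S.w x (giW S.w x (ev j))⟫ := fun j => by
      rw [real_inner_comm]
      simp only [S.Jac_Bq, Finset.mul_sum]
      rw [Finset.sum_comm]
      refine Finset.sum_congr rfl fun l _ => ?_
      rw [← sum_inner_ev, Finset.sum_mul]
      refine Finset.sum_congr rfl fun k _ => ?_
      rw [real_inner_comm (ev j) (v k), hv1, hv1, hess_symm hw2 x (ev j),
        real_inner_comm (ev k) (pr S.ι (s l))]
      ring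
    simp only [a1]
    rw [Finset.sum_comm]
    exact Finset.sum_congr rfl fun k _ =>
      (Jac_lin (fderiv ℝ S.w x ∘L giW S.w x) (S.Bq x s (ev k)) (v k)).symm
  have e4 : ∑ j, ∑ l, ⟪pr S.ι (s l), ev j⟫ * ⟪pr S.ι (s l), v j⟫ +
      2 * ∑ j, ⟪S.Bq x s (ev j), fderiv ℝ S.w x (giW S.w x (v j))⟫ =
      ∑ j, (∑ l, ⟪pr S.ι (s l), ev j⟫ * ⟪pr S.ι (s l), v j⟫ - (⟪ev j, giW S.w x (v j)⟫ -
        ⟪S.Bq x s (ev j), fderiv ℝ S.w x (giW S.w x (v j))⟫ -
        ⟪fderiv ℝ S.w x (giW S.w x (ev j)), S.Bq x s (v j)⟫)) := by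
    simp only [Finset.sum_sub_distrib]
    rw [e2, e3]
    ring
  have e5 : ∀ j, (fderiv ℝ (fderiv ℝ S.w) x (ev j)).adjoint p = v j := fun j => by rw [hv]
  simp only [e5]
  rw [e1, e4]
  refine (Finset.abs_sum_le_sum_abs _ _).trans ?_
  refine (Finset.sum_le_card_nsmul _ _ (5 * (∑ l, ‖S.qv x (s l)‖ ^ 2) * ‖p‖) fun j _ => ?_).trans
    (le_of_eq (by simp))
  refine (S.gram_pr x hs _ _).1.trans ?_
  rw [norm_ev, mul_one]
  exact mul_le_mul_of_nonneg_left (hv2 j)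
    (mul_nonneg (by norm_num) (Finset.sum_nonneg fun l _ => sq_nonneg _))

/-- the trace along the frame against the inverse metric -/
theorem Jac_G (x : E m) {s : Fin m → E N} (hs : Orthonormal ℝ s) (L : Fin m → E m →L[ℝ] E N)
    (p : E N) {b : ℝ} (hL : ∀ j, ‖L j‖ ≤ b) :
    |∑ j, ∑ l, ⟪pr S.ι (s l), ev j⟫ * ⟪p, L j (pr S.ι (s l))⟫ -
      ⟪p, ∑ j, L j (giW S.w x (ev j))⟫| ≤
      m * ((5 * (∑ l, ‖S.qv x (s l)‖ ^ 2) + 2 * √(∑ l, ‖S.qv x (s l)‖ ^ 2)) * (b * ‖p‖)) := by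
  rw [inner_sum, ← Finset.sum_sub_distrib]
  refine (Finset.abs_sum_le_sum_abs _ _).trans ?_
  refine (Finset.sum_le_card_nsmul _ _ ((5 * (∑ l, ‖S.qv x (s l)‖ ^ 2) +
    2 * √(∑ l, ‖S.qv x (s l)‖ ^ 2)) * (b * ‖p‖)) fun j _ => ?_).trans (le_of_eq (by simp))
  obtain ⟨t, ht⟩ : ∃ t, t = (L j).adjoint p := ⟨_, rfl⟩
  have h1 : ∀ a, ⟪p, L j a⟫ = ⟪a, t⟫ := fun a => by
    rw [ht, ContinuousLinearMap.adjoint_inner_right, real_inner_comm]
  have h2 : ‖t‖ ≤ b * ‖p‖ := by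
    rw [ht]
    exact (L j).adjoint.le_of_opNorm_le
      (by rw [ContinuousLinearMap.adjoint.norm_map]; exact hL j) p
  simp only [h1]
  rw [giW_symm]
  obtain ⟨g1, g2⟩ := S.gram_pr x hs (ev j) t
  have g3 := (S.gram_pr x hs t t).2
  obtain ⟨Q, hQ⟩ : ∃ Q, Q = ∑ l, ‖S.qv x (s l)‖ ^ 2 := ⟨_, rfl⟩
  have hQ0 : 0 ≤ Q := hQ ▸ Finset.sum_nonneg fun l _ => sq_nonneg _
  rw [← hQ] at g1 g2 g3 ⊢
  rw [norm_ev, mul_one] at g1 g2
  have g4 := (abs_real_inner_le_norm (S.Bq x s (ev j)) _).trans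
    (mul_le_mul g2 (S.Jac_Pgi x t) (norm_nonneg _) (Real.sqrt_nonneg _))
  have g5 := (abs_real_inner_le_norm _ (S.Bq x s t)).trans
    (mul_le_mul (S.Jac_Pgi x (ev j)) g3 (norm_nonneg _) (norm_nonneg _))
  rw [norm_ev, one_mul] at g5
  have g6 := mul_le_mul_of_nonneg_left h2 (show 0 ≤ 5 * Q + 2 * √Q by positivity)
  rw [abs_le] at g1 g4 g5 ⊢
  constructor <;> linarith [g1.1, g1.2, g4.1, g4.2, g5.1, g5.2]

end Ref

theorem Jac_app {F G : Type} [NormedAddCommGroup F] [NormedSpace ℝ F] [NormedAddCommGroup G]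
    [NormedSpace ℝ G] {c : E m → F →L[ℝ] G} {u : E m → F} {x : E m} {c0 c1 u0 u1 : ℝ}
    (hc : DifferentiableAt ℝ c x) (hu : DifferentiableAt ℝ u x) (h0 : ‖c x‖ ≤ c0)
    (h1 : ‖fderiv ℝ c x‖ ≤ c1) (k0 : ‖u x‖ ≤ u0) (k1 : ‖fderiv ℝ u x‖ ≤ u1) :
    ‖c x (u x)‖ ≤ c0 * u0 ∧ ‖fderiv ℝ (fun y => c y (u y)) x‖ ≤ c0 * u1 + c1 * u0 := by
  have hc0 : 0 ≤ c0 := (norm_nonneg _).trans h0
  have hc1 : 0 ≤ c1 := (ContinuousLinearMap.opNorm_nonneg _).trans h1
  refine ⟨((c x).le_opNorm _).trans (mul_le_mul h0 k0 (norm_nonneg _) hc0), ?_⟩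
  rw [fderiv_clm_apply hc hu]
  refine (norm_add_le _ _).trans (add_le_add (((c x).opNorm_comp_le _).trans
    (mul_le_mul h0 k1 (norm_nonneg _) hc0)) ?_)
  refine ((fderiv ℝ c x).flip.le_opNorm _).trans (mul_le_mul ?_ k0 (norm_nonneg _) hc1)
  rw [ContinuousLinearMap.opNorm_flip]
  exact h1

namespace Ref

variable (S : Ref m N)

theorem Jac_cW {ψ : E m → E N} (hψ : ContDiff ℝ 2 ψ) {a : ℝ} (hb : Bd2 ψ a a a) (j : Fin m) :
    ContDiff ℝ 1 (cW S.w ψ j) ∧ ∀ x, ‖fderiv ℝ (cW S.w ψ j) x‖ ≤ a := by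
  have ha : 0 ≤ a := (norm_nonneg _).trans (hb.b0 0)
  have c1 : ContDiff ℝ 2 (fderiv ℝ S.w) := S.smooth.fderiv_right (by norm_num)
  have c2 : ContDiff ℝ 1 (fderiv ℝ (fderiv ℝ S.w)) := c1.fderiv_right (by norm_num)
  have c3 : ContDiff ℝ 1 fun x => fderiv ℝ (fderiv ℝ S.w) x (ev j) := c2.clm_apply contDiff_const
  have c4 : ContDiff ℝ 1 fun x => GCalc_adj m N (fderiv ℝ (fderiv ℝ S.w) x (ev j)) :=
    (GCalc_adj m N).contDiff.comp c3
  have c5 : ContDiff ℝ 1 (giW S.w) := (contDiff_gW (n := 1) (S.smooth.of_le (by norm_num))).2.1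
  have c6 : ContDiff ℝ 1 ψ := hψ.of_le (by norm_num)
  have c7 : ContDiff ℝ 1 (fderiv ℝ S.w) := c1.of_le (by norm_num)
  have c8 := c4.clm_apply c6
  have c9 := c5.clm_apply c8
  refine ⟨c7.clm_apply c9, fun x => ?_⟩
  have n0 : ‖GCalc_adj m N (fderiv ℝ (fderiv ℝ S.w) x (ev j))‖ ≤ 1 / 100 := by
    rw [GCalc_adj_apply, ContinuousLinearMap.adjoint.norm_map]
    have := (fderiv ℝ (fderiv ℝ S.w) x).le_of_opNorm_le (S.b2 x) (ev j)
    rwa [norm_ev, mul_one] at this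
  have n1 : ‖fderiv ℝ (fun x => GCalc_adj m N (fderiv ℝ (fderiv ℝ S.w) x (ev j))) x‖ ≤
      1 / 100 := by
    refine le_trans (le_of_eq (congrArg norm ((GCalc_adj m N).hasFDerivAt.comp x
      (c3.differentiable one_ne_zero x).hasFDerivAt).fderiv)) ?_
    refine ContinuousLinearMap.opNorm_le_bound _ (by norm_num) fun u => ?_
    have := S.b3 x (ev j)
    rw [norm_ev, mul_one] at this
    rw [ContinuousLinearMap.comp_apply, GCalc_adj_apply, ContinuousLinearMap.adjoint.norm_map]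
    exact ContinuousLinearMap.le_of_opNorm_le _ this u
  obtain ⟨a1, a2⟩ := Jac_app (c4.differentiable one_ne_zero x) (c6.differentiable one_ne_zero x)
    n0 n1 (hb.b0 x) (hb.b1 x)
  obtain ⟨a3, a4⟩ := Jac_app (c5.differentiable one_ne_zero x) (c8.differentiable one_ne_zero x)
    (gW_bd S.w x).1 (dgW_bd x (S.smooth.of_le (by norm_num)) ((S.b1 x).trans (by norm_num))
      ((S.b2 x).trans (by norm_num))).2.1 a1 a2
  obtain ⟨-, a6⟩ := Jac_app (c7.differentiable one_ne_zero x) (c9.differentiable one_ne_zero x)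
    (S.b1 x) (S.b2 x) a3 a4
  exact a6.trans (by linarith)

/-- the first test field -/
noncomputable def JacX (ψ : E m → E N) (x : E m) : E N :=
  vtL S.ι (ψ x) - S.ι.toContinuousLinearMap (GCalc_adj m N (fderiv ℝ S.w x) (ψ x))

/-- the coefficients of the second test field -/
noncomputable def JacZ (ψ : E m → E N) (j : Fin m) (x : E m) : E N :=
  fderiv ℝ ψ x (ev j) + (2 : ℝ) • cW S.w ψ j x

/-- the second test field -/
noncomputable def JacY (ψ : E m → E N) (y : E N) : E N :=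
  ∑ j, ⟪S.gh y, S.JacZ ψ j (pr S.ι y)⟫ • S.ι (ev j)

theorem Jac_X {ψ : E m → E N} (hψ : ContDiff ℝ 2 ψ) : ContDiff ℝ 1 (S.JacX ψ) ∧
    ∀ x s, ⟪s, fderiv ℝ (S.JacX ψ) x (pr S.ι s)⟫ = ⟪S.qv x s, fderiv ℝ ψ x (pr S.ι s)⟫ -
      ⟪fderiv ℝ (fderiv ℝ S.w) x (pr S.ι s) (pr S.ι s), ψ x⟫ := by
  have c1 : ContDiff ℝ 1 (fderiv ℝ S.w) := S.smooth.fderiv_right (by norm_num)
  have c6 : ContDiff ℝ 1 ψ := hψ.of_le (by norm_num)
  refine ⟨((vtL S.ι).contDiff.comp c6).sub (S.ι.toContinuousLinearMap.contDiff.comp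
    (((GCalc_adj m N).contDiff.comp c1).clm_apply c6)), fun x s => ?_⟩
  have d1 := (c6.differentiable one_ne_zero x).hasFDerivAt
  have d2 := (GCalc_adj m N).hasFDerivAt.comp x (c1.differentiable one_ne_zero x).hasFDerivAt
  have d3 := ((vtL S.ι).hasFDerivAt.comp x d1).sub
    (S.ι.toContinuousLinearMap.hasFDerivAt.comp x (d2.clm_apply d1))
  have d4 : fderiv ℝ (S.JacX ψ) x (pr S.ι s) = vt S.ι (fderiv ℝ ψ x (pr S.ι s)) -
      S.ι ((fderiv ℝ S.w x).adjoint (fderiv ℝ ψ x (pr S.ι s)) +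
        (fderiv ℝ (fderiv ℝ S.w) x (pr S.ι s)).adjoint (ψ x)) := by
    rw [← vtL_apply]
    exact DFunLike.congr_fun d3.fderiv (pr S.ι s)
  rw [d4, inner_sub_right, ← (inner_vt S.ι _ _).1, FlatA_iota, inner_add_right,
    ContinuousLinearMap.adjoint_inner_right, ContinuousLinearMap.adjoint_inner_right, qv,
    S.Jac_La, vt]
  simp only [inner_sub_left, inner_add_left]
  ring

theorem Jac_Z {ψ : E m → E N} (hψ : ContDiff ℝ 2 ψ) {a : ℝ} (hb : Bd2 ψ a a a) :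
    (∀ j, ContDiff ℝ 1 (S.JacZ ψ j)) ∧ (∀ j x, ‖fderiv ℝ (S.JacZ ψ j) x‖ ≤ 3 * a) ∧
      ∀ x, ∑ j, fderiv ℝ (S.JacZ ψ j) x (giW S.w x (ev j)) = Lst S.w ψ x := by
  have h1 : ∀ j x u, fderiv ℝ (S.JacZ ψ j) x u = fderiv ℝ (fderiv ℝ ψ) x u (ev j) +
      (2 : ℝ) • fderiv ℝ (cW S.w ψ j) x u := fun j x u => by
    have d1 := ((Conv_fd2 hψ (ev j)).1.differentiable one_ne_zero x).hasFDerivAt
    have d2 := ((S.Jac_cW hψ hb j).1.differentiable one_ne_zero x).hasFDerivAt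
    rw [← (Conv_fd2 hψ (ev j)).2]
    exact DFunLike.congr_fun (d1.add (d2.const_smul (2 : ℝ))).fderiv u
  refine ⟨fun j => (Conv_fd2 hψ (ev j)).1.add ((S.Jac_cW hψ hb j).1.const_smul (2 : ℝ)),
    fun j x => ?_, fun x => ?_⟩
  · have ha : 0 ≤ a := (norm_nonneg _).trans (hb.b0 0)
    refine ContinuousLinearMap.opNorm_le_bound _ (by positivity) fun u => ?_
    have a1 := (fderiv ℝ (fderiv ℝ ψ) x).le_opNorm₂ u (ev j)
    rw [norm_ev, mul_one] at a1
    have a2 := mul_le_mul_of_nonneg_right (hb.b2 x) (norm_nonneg u)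
    have a3 := ContinuousLinearMap.le_of_opNorm_le _ ((S.Jac_cW hψ hb j).2 x) u
    rw [h1]
    refine (norm_add_le _ _).trans ?_
    rw [norm_smul, Real.norm_two]
    linarith
  · simp only [h1]
    rw [Finset.sum_add_distrib, Lst, Finset.smul_sum]
    congr 1
    exact Finset.sum_congr rfl fun j _ => hess_symm hψ _ _ _

theorem Jac_Y {ψ : E m → E N} (hZ : ∀ j, ContDiff ℝ 1 (S.JacZ ψ j)) :
    ContDiff ℝ 1 (S.JacY ψ) ∧ ∀ y s, ⟪s, fderiv ℝ (S.JacY ψ) y s⟫ =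
      ∑ j, ⟪pr S.ι s, ev j⟫ * ⟪S.qv (pr S.ι y) s, S.JacZ ψ j (pr S.ι y)⟫ +
      ∑ j, ⟪pr S.ι s, ev j⟫ * ⟪S.gh y, fderiv ℝ (S.JacZ ψ j) (pr S.ι y) (pr S.ι s)⟫ := by
  have c1 : ContDiff ℝ 1 S.gh := (S.gh_calc 0).2.1.of_le (by norm_num)
  have c2 : ∀ j, ContDiff ℝ 1 fun y => S.JacZ ψ j (pr S.ι y) := fun j =>
    (hZ j).comp (pr S.ι).contDiff
  have c3 : ∀ j, ContDiff ℝ 1 fun y => ⟪S.gh y, S.JacZ ψ j (pr S.ι y)⟫ := fun j =>
    c1.inner ℝ (c2 j)
  refine ⟨ContDiff.sum fun j _ => (c3 j).smul contDiff_const, fun y s => ?_⟩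
  have d1 : HasFDerivAt (S.JacY ψ) (∑ j, (fderiv ℝ (fun y => ⟪S.gh y, S.JacZ ψ j (pr S.ι y)⟫)
      y).smulRight (S.ι (ev j))) y :=
    HasFDerivAt.fun_sum fun j _ =>
      ((c3 j).differentiable one_ne_zero y).hasFDerivAt.smul_const _
  rw [d1.fderiv, _root_.sum_apply, inner_sum, ← Finset.sum_add_distrib]
  refine Finset.sum_congr rfl fun j _ => ?_
  have d2 : fderiv ℝ (fun y => S.JacZ ψ j (pr S.ι y)) y s =
      fderiv ℝ (S.JacZ ψ j) (pr S.ι y) (pr S.ι s) :=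
    DFunLike.congr_fun ((((hZ j).differentiable one_ne_zero _).hasFDerivAt.comp y
      (pr S.ι).hasFDerivAt).fderiv) s
  rw [ContinuousLinearMap.smulRight_apply, real_inner_smul_right, FlatA_iota,
    fderiv_inner_apply ℝ (c1.differentiable one_ne_zero y) ((c2 j).differentiable one_ne_zero y),
    d2, (S.gh_calc y).2.2.2.2.1, qv]
  ring

end Ref

theorem Jac_comb {Ω : Type} [MeasurableSpace Ω] {μ : Measure Ω} {f F b : Ω → ℝ}
    (hF : Integrable F μ) (h0 : ∫ y, F y ∂μ = 0) (hb : Integrable b μ)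
    (h : ∀ᵐ y ∂μ, |f y - F y| ≤ b y) : |∫ y, f y ∂μ| ≤ ∫ y, b y ∂μ := by
  by_cases hf : Integrable f μ
  · rw [← sub_zero (∫ y, f y ∂μ), ← h0, ← integral_sub hf hF]
    exact norm_integral_le_of_norm_le (f := fun y => f y - F y) hb h
  · rw [integral_undef hf, abs_zero]
    exact integral_nonneg_of_ae (h.mono fun y hy => (abs_nonneg _).trans hy)

/-- Replace `ψ` by its vertical part (`cW` does not change as `D² w` is vertical). Let `x = pr y`,
`H = D² w`, `B = Bq`, `G = ∑ a_l ⊗ a_l`, `Z j = ∂_j ψ + 2 cW w ψ j`. Use `fvP` twice.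
1. The field `ψ (x) - ι ((Dw x)ᵀ ψ x)` has the divergence
`∑ j, ⟪B e_j, ∂_j ψ⟫ - ⟪ψ, ∑ H (a_l, a_l)⟫`, and by `gram_pr` and `MinAt` (at `pr y ∈ D`)
`⟪ψ, ∑ H (a_l, a_l)⟫ = - 2 ∑ j, ⟪B e_j, cW j⟫ + O (a qq)`.
2. The field `ι (∑ j, ⟪gh y, Z j x⟫ • e_j)` has the divergence
`∑ j, ⟪B e_j, Z j⟫ + ∑ j, ⟪gh, DZ j (G e_j)⟫`, `G = g⁻¹ + O (√qq)` (`qq ≤ 5 m`), `‖DZ j‖ ≤ C a`
(`dgW_bd`, `b3`), and `∑ j, DZ j (g⁻¹ e_j) = Lst w ψ` (`hess_symm`). -/
theorem Piece.jacobi (m : ℕ) : ∃ C : ℝ, 1 ≤ C ∧ ∀ {N : ℕ} {S : Ref m N} {fr : Fr m N}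
    {μ : Measure (E N)} {y₀ : E N} {R T A : ℝ}, Piece S fr μ y₀ R T A →
    ∀ (ψ : E m → E N) (a : ℝ), Test 2 ψ (S.dom y₀ (R - T)) → Bd2 ψ a a a →
    |∫ y, ⟪S.gh y, Lst S.w ψ (pr S.ι y)⟫ ∂μ| ≤
      C * a * ∫ y, (S.qq fr y + T * √(S.qq fr y)) ∂μ := by
  have hm0 : (0 : ℝ) ≤ m := Nat.cast_nonneg m
  refine ⟨20 * m + 1, by linarith, ?_⟩
  intro N S fr μ y₀ R T A P ψ a hψ hb
  have hsm : ContDiff ℝ 2 ψ := hψ.smooth
  have ha : 0 ≤ a := (norm_nonneg _).trans (hb.b0 0)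
  have hK : IsCompact (tsupport ψ) := hψ.cpt
  obtain ⟨x1, x2⟩ := S.Jac_X hsm
  obtain ⟨z1, z2, z3⟩ := S.Jac_Z hsm hb
  obtain ⟨y1, y2⟩ := S.Jac_Y z1
  have x3 : ContDiff ℝ 1 fun y => S.JacX ψ (pr S.ι y) := x1.comp (pr S.ι).contDiff
  obtain ⟨i1, j1⟩ := P.fvP (X := fun y => S.JacX ψ (pr S.ι y)) (fun y _ => x3.contDiffAt) hK
    hψ.supp fun y hy => by
      rw [Ref.JacX, image_eq_zero_of_notMem_tsupport hy]
      simp only [map_zero, sub_zero]
  obtain ⟨i2, j2⟩ := P.fvP (X := S.JacY ψ) (fun y _ => y1.contDiffAt) hK hψ.supp fun y hy => by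
    have a1 : fderiv ℝ ψ (pr S.ι y) = 0 :=
      Function.notMem_support.1 fun h => hy (support_fderiv_subset ℝ h)
    refine Finset.sum_eq_zero fun j _ => ?_
    rw [Ref.JacZ, cW, image_eq_zero_of_notMem_tsupport hy, a1]
    simp
  have hdd := S.dd_bd fr
  have mq := (S.measurable_all fr).2.2.2.1
  have iq : Integrable (S.qq fr) μ := P.integrable_of_bd mq (M := 5 * m) fun y _ _ => by
    rw [Real.norm_of_nonneg (hdd y).2.2.1]; exact (hdd y).2.2.2.1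
  have ir : Integrable (fun y => √(S.qq fr y)) μ :=
    P.integrable_of_bd mq.sqrt (M := √(5 * m)) fun y _ _ => by
      rw [Real.norm_of_nonneg (Real.sqrt_nonneg _)]; exact Real.sqrt_le_sqrt (hdd y).2.2.2.1
  rw [← integral_const_mul]
  refine Jac_comb (i2.sub i1) (by rw [integral_sub' i2 i1, j1, j2, sub_zero])
    ((iq.add (ir.const_mul T)).const_mul _) ?_
  filter_upwards [P.ae, P.ae_tube] with y hy hy'
  have hs := fr.orth y
  have hT0 := P.T_pos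
  have hT1 : T ≤ 1 := by linarith [P.T_le, P.R_le]
  have d1 : ∀ s, fderiv ℝ (fun y => S.JacX ψ (pr S.ι y)) y s =
      fderiv ℝ (S.JacX ψ) (pr S.ι y) (pr S.ι s) := fun s =>
    DFunLike.congr_fun (((x1.differentiable one_ne_zero _).hasFDerivAt.comp y
      (pr S.ι).hasFDerivAt).fderiv) s
  have e1 : fr.div (fun y => S.JacX ψ (pr S.ι y)) y =
      ∑ j, ⟪S.Bq (pr S.ι y) (fun l => fr.s l y) (ev j), fderiv ℝ ψ (pr S.ι y) (ev j)⟫ -
        ∑ l, ⟪fderiv ℝ (fderiv ℝ S.w) (pr S.ι y) (pr S.ι (fr.s l y)) (pr S.ι (fr.s l y)),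
          ψ (pr S.ι y)⟫ := by
    simp only [Fr.div, d1, x2, Finset.sum_sub_distrib]
    rw [S.Jac_sumB (pr S.ι y) fun l => fr.s l y]
  have e2 : fr.div (S.JacY ψ) y =
      ∑ j, ⟪S.Bq (pr S.ι y) (fun l => fr.s l y) (ev j), fderiv ℝ ψ (pr S.ι y) (ev j)⟫ +
      2 * ∑ j, ⟪S.Bq (pr S.ι y) (fun l => fr.s l y) (ev j), cW S.w ψ j (pr S.ι y)⟫ +
      ∑ j, ∑ l, ⟪pr S.ι (fr.s l y), ev j⟫ *
        ⟪S.gh y, fderiv ℝ (S.JacZ ψ j) (pr S.ι y) (pr S.ι (fr.s l y))⟫ := by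
    simp only [Fr.div, y2, Finset.sum_add_distrib]
    refine congrArg₂ (· + ·) ?_ Finset.sum_comm
    rw [Finset.sum_comm, Finset.mul_sum, ← Finset.sum_add_distrib]
    refine Finset.sum_congr rfl fun j _ => ?_
    rw [← S.Jac_Bq (pr S.ι y) (fun l => fr.s l y), Ref.JacZ, inner_add_right,
      real_inner_smul_right]
  have b1 := S.Jac_H hy'.2.2.2.1 hs (ψ (pr S.ι y))
  have b2 := S.Jac_G (pr S.ι y) hs (fun j => fderiv ℝ (S.JacZ ψ j) (pr S.ι y)) (S.gh y)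
    fun j => z2 j _
  rw [z3] at b2
  have eq : ∑ l, ‖S.qv (pr S.ι y) (fr.s l y)‖ ^ 2 = S.qq fr y := rfl
  rw [eq] at b1 b2
  have hq := (hdd y).2.2.1
  have hr := Real.sqrt_nonneg (S.qq fr y)
  have b3 : m * (5 * S.qq fr y * ‖ψ (pr S.ι y)‖) ≤ m * (5 * S.qq fr y * a) :=
    mul_le_mul_of_nonneg_left (mul_le_mul_of_nonneg_left (hb.b0 _) (by positivity)) hm0
  have b4 : m * ((5 * S.qq fr y + 2 * √(S.qq fr y)) * (3 * a * ‖S.gh y‖)) ≤
      m * ((5 * S.qq fr y + 2 * √(S.qq fr y)) * (3 * a * T)) :=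
    mul_le_mul_of_nonneg_left (mul_le_mul_of_nonneg_left
      (mul_le_mul_of_nonneg_left hy.2.1 (by positivity)) (by positivity)) hm0
  have b5 : m * a * S.qq fr y * T ≤ m * a * S.qq fr y :=
    mul_le_of_le_one_right (by positivity) hT1
  have p1 : 0 ≤ m * a * (T * √(S.qq fr y)) := by positivity
  have p2 : 0 ≤ a * (S.qq fr y + T * √(S.qq fr y)) := by positivity
  have e3 : ∀ j, fderiv ℝ S.w (pr S.ι y) (giW S.w (pr S.ι y)
      ((fderiv ℝ (fderiv ℝ S.w) (pr S.ι y) (ev j)).adjoint (ψ (pr S.ι y)))) =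
      cW S.w ψ j (pr S.ι y) := fun j => rfl
  simp only [e3] at b1
  simp only [Pi.sub_apply]
  rw [e1, e2]
  rw [abs_le] at b1 b2 ⊢
  constructor <;> linarith [b1.1, b1.2, b2.1, b2.2]

end Pool.Agent.MP_f6c0e6_an.Gen

end

section

/-! The local mass and the local mean. -/

set_option autoImplicit false

open MeasureTheory Filter Topology Set Metric
open scoped ENNReal RealInnerProductSpace

namespace Pool.Agent.MP_f6c0e6_an.Gen

variable {m N : ℕ}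

theorem Mean_sqrt {a b : ℝ} (ha : 1 ≤ a) (hb : 1 ≤ b) : |√a - √b| ≤ |a - b| := by
  have h1 : 1 ≤ √a := Real.one_le_sqrt.2 ha
  have h2 : 1 ≤ √b := Real.one_le_sqrt.2 hb
  have h3 : a - b = (√a - √b) * (√a + √b) := by
    have e1 := Real.mul_self_sqrt (by linarith : 0 ≤ a)
    have e2 := Real.mul_self_sqrt (by linarith : 0 ≤ b)
    linarith only [e1, e2, show (√a - √b) * (√a + √b) = √a * √a - √b * √b by ring]
  rw [h3, abs_mul, abs_of_nonneg (by linarith : 0 ≤ √a + √b)]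
  exact le_mul_of_one_le_right (abs_nonneg _) (by linarith)

theorem Mean_inv {p q : ℝ} (hp : 1 ≤ p) (hq : 1 ≤ q) : |p⁻¹ - q⁻¹| ≤ |p - q| := by
  have h1 : p⁻¹ - q⁻¹ = (q - p) * (p * q)⁻¹ := by
    field_simp
  have h2 : 1 ≤ p * q := one_le_mul_of_one_le_of_one_le hp hq
  rw [h1, abs_mul, abs_sub_comm, abs_of_nonneg (inv_nonneg.2 (by linarith : 0 ≤ p * q))]
  exact mul_le_of_le_one_right (abs_nonneg _) (inv_le_one_of_one_le₀ h2)

theorem Mean_gW (w : E m → E N) (x : E m) (h : ‖fderiv ℝ w x‖ ≤ 1) :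
    gW w x ∈ closedBall (1 : E m →L[ℝ] E m) 1 := by
  rw [mem_closedBall, dist_eq_norm]
  exact (gW_bd w x).2.1.trans (pow_le_one₀ (norm_nonneg _) h)

theorem Mean_gW_sub (w w' : E m → E N) (x : E m) (h : ‖fderiv ℝ w x‖ ≤ 1)
    (h' : ‖fderiv ℝ w' x‖ ≤ 1) :
    ‖gW w x - gW w' x‖ ≤ 2 * ‖fderiv ℝ w x - fderiv ℝ w' x‖ := by
  obtain ⟨P, hP⟩ : ∃ P, P = fderiv ℝ w x := ⟨_, rfl⟩
  obtain ⟨Q, hQ⟩ : ∃ Q, Q = fderiv ℝ w' x := ⟨_, rfl⟩
  have e : gW w x - gW w' x = P.adjoint ∘L (P - Q) + (P - Q).adjoint ∘L Q := by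
    unfold gW
    rw [← hP, ← hQ, map_sub, ContinuousLinearMap.comp_sub, ContinuousLinearMap.sub_comp]
    abel
  rw [e, ← hP, ← hQ]
  rw [← hP] at h
  rw [← hQ] at h'
  have n1 : ‖P.adjoint‖ = ‖P‖ := ContinuousLinearMap.adjoint.norm_map P
  have n2 : ‖(P - Q).adjoint‖ = ‖P - Q‖ := ContinuousLinearMap.adjoint.norm_map (P - Q)
  have a1 := (P.adjoint).opNorm_comp_le (P - Q)
  have a2 := ((P - Q).adjoint).opNorm_comp_le Q
  rw [n1] at a1
  rw [n2] at a2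
  have a3 := mul_le_mul_of_nonneg_right h (norm_nonneg (P - Q))
  have a4 := mul_le_mul_of_nonneg_left h' (norm_nonneg (P - Q))
  linarith only [a1, a2, a3, a4, norm_add_le (P.adjoint ∘L (P - Q)) ((P - Q).adjoint ∘L Q)]

/-- `det` is a polynomial, hence Lipschitz on bounded sets (or `det_expand` for
`gW w' ⁻¹ gW w`); `1 ≤ sgW` -/
theorem sgW_lip (m : ℕ) : ∃ C : ℝ, 1 ≤ C ∧ ∀ {N : ℕ} (w w' : E m → E N) (x : E m),
    ‖fderiv ℝ w x‖ ≤ 1 → ‖fderiv ℝ w' x‖ ≤ 1 →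
    |sgW w x - sgW w' x| ≤ C * ‖fderiv ℝ w x - fderiv ℝ w' x‖ ∧
    |(sgW w x)⁻¹ - (sgW w' x)⁻¹| ≤ C * ‖fderiv ℝ w x - fderiv ℝ w' x‖ ∧
    |sgW w x - 1| ≤ C * ‖fderiv ℝ w x‖ := by
  obtain ⟨K, hK⟩ := ((GCalc_dt_smooth (m := m) 1).contDiffOn
    (s := closedBall (1 : E m →L[ℝ] E m) 1)).exists_lipschitzOnWith one_ne_zero
    (convex_closedBall _ _) (isCompact_closedBall _ _)
  have hK0 : (0 : ℝ) ≤ K := K.2
  refine ⟨2 * K + 1, by linarith, fun {N} w w' x h h' => ?_⟩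
  have h1 : |sgW w x - sgW w' x| ≤ (2 * K + 1) * ‖fderiv ℝ w x - fderiv ℝ w' x‖ := by
    have a1 := hK.norm_sub_le (Mean_gW w x h) (Mean_gW w' x h')
    have a2 := mul_le_mul_of_nonneg_left (Mean_gW_sub w w' x h h') hK0
    refine (Mean_sqrt (sgW_bd w x).1 (sgW_bd w' x).1).trans ?_
    have a3 : |LinearMap.det (gW w x : E m →ₗ[ℝ] E m) - LinearMap.det (gW w' x : E m →ₗ[ℝ] E m)| ≤
        K * ‖gW w x - gW w' x‖ := a1
    linarith only [a2, a3, norm_nonneg (fderiv ℝ w x - fderiv ℝ w' x)]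
  refine ⟨h1, (Mean_inv (sgW_bd w x).2.1 (sgW_bd w' x).2.1).trans h1, ?_⟩
  have a1 := hK.norm_sub_le (Mean_gW w x h) (mem_closedBall_self zero_le_one)
  rw [GCalc_dt_one] at a1
  have a2 := Mean_sqrt (sgW_bd w x).1 le_rfl
  rw [Real.sqrt_one] at a2
  have a3 : |LinearMap.det (gW w x : E m →ₗ[ℝ] E m) - 1| ≤ K * ‖gW w x - 1‖ := a1
  have a4 : ‖gW w x - 1‖ ≤ ‖fderiv ℝ w x‖ := (gW_bd w x).2.1.trans (by
    rw [sq]; exact mul_le_of_le_one_right (norm_nonneg _) h)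
  have a5 := mul_le_mul_of_nonneg_left a4 hK0
  have a6 := mul_nonneg hK0 (norm_nonneg (fderiv ℝ w x))
  have a7 : |sgW w x - 1| ≤ _ := a2
  linarith [norm_nonneg (fderiv ℝ w x)]

theorem Mean_sg_cd (S : Ref m N) : ContDiff ℝ 1 (sgW S.w) :=
  (contDiff_gW (n := 1) (S.smooth.of_le (by norm_num))).2.2

theorem Mean_sg_lip (S : Ref m N) (a b : E m) :
    |(sgW S.w a)⁻¹ - (sgW S.w b)⁻¹| ≤ m * ‖a - b‖ := by
  have hd : Differentiable ℝ fun x => (sgW S.w x)⁻¹ :=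
    ((Mean_sg_cd S).differentiable one_ne_zero).inv fun x => by linarith [(sgW_bd S.w x).2.1]
  exact convex_univ.norm_image_sub_le_of_norm_fderiv_le (𝕜 := ℝ) (f := fun x => (sgW S.w x)⁻¹)
    (fun x _ => hd x) (fun x _ => (dgW_bd x (S.smooth.of_le (by norm_num))
      ((S.b1 x).trans (by norm_num)) ((S.b2 x).trans (by norm_num))).2.2.2) (mem_univ b) (mem_univ a)

/-- the pointwise comparison of the two weights -/
theorem Mean_pt {ta tb ia ib d K L M T s : ℝ} (hs : 0 < s) (hs1 : s ≤ 1) (hT : 0 ≤ T) (hK : 0 ≤ K)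
    (hM : 0 ≤ M) (htb : 0 ≤ tb) (htb' : tb ≤ K) (hia : 0 ≤ ia) (hia' : ia ≤ 1) (hib : 0 ≤ ib)
    (hib' : ib ≤ 1) (hd : 0 ≤ d) (hL : L ≤ T) (h1 : |ta - tb| ≤ K / s * L)
    (h2 : |ia - ib| ≤ M * L) :
    |ta * ia - tb * (1 - d / 2) * ib| ≤ K * (1 + M) * (T / s) + K * d := by
  have e : ta * ia - tb * (1 - d / 2) * ib = (ta - tb) * ia + tb * (ia - ib) + tb * ib * (d / 2) := by
    ring
  have b1 : |(ta - tb) * ia| ≤ K * (T / s) := by
    rw [abs_mul, abs_of_nonneg hia]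
    refine (mul_le_of_le_one_right (abs_nonneg _) hia').trans (h1.trans ?_)
    calc K / s * L ≤ K / s * T := mul_le_mul_of_nonneg_left hL (by positivity)
      _ = K * (T / s) := by ring
  have hTs : T ≤ T / s := by
    rw [le_div_iff₀ hs]; exact mul_le_of_le_one_right hT hs1
  have b2 : |tb * (ia - ib)| ≤ K * (M * (T / s)) := by
    rw [abs_mul, abs_of_nonneg htb]
    exact mul_le_mul htb' (h2.trans (mul_le_mul_of_nonneg_left (hL.trans hTs) hM)) (abs_nonneg _) hK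
  have b3 : |tb * ib * (d / 2)| ≤ K * d := by
    rw [abs_of_nonneg (by positivity)]
    exact mul_le_mul ((mul_le_of_le_one_right htb hib').trans htb') (by linarith only [hd]) (by positivity) hK
  rw [e]
  have := abs_add_three ((ta - tb) * ia) (tb * (ia - ib)) (tb * ib * (d / 2))
  linarith only [b1, b2, b3, this, show K * (1 + M) * (T / s) = K * (T / s) + K * (M * (T / s)) by ring]

namespace Piece

theorem Mean_th {S : Ref m N} {fr : Fr m N} {μ : Measure (E N)} {y₀ : E N} {R T A : ℝ}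
    (P : Piece S fr μ y₀ R T A) (hm : 1 ≤ m) {s K : ℝ} (hT : T ≤ s) (hK0 : 0 ≤ K)
    (hK : ∀ x : E m, th s x ≤ K / s ^ m) (ξ : E m) :
    ∫ y, th s (pr S.ι y - ξ) ∂μ ≤ K * (A * 3 ^ m) := by
  have := P.fin
  have hs : 0 < s := P.T_pos.trans_le hT
  have hZ : MeasurableSet (pr S.ι ⁻¹' closedBall ξ s) :=
    (isClosed_closedBall.preimage (pr S.ι).continuous).measurableSet
  calc _ ≤ ∫ y, (pr S.ι ⁻¹' closedBall ξ s).indicator (fun _ => K / s ^ m) y ∂μ := by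
        refine integral_mono_of_nonneg (Eventually.of_forall fun y => th_nonneg hs _)
          ((integrable_const _).indicator hZ) (Eventually.of_forall fun y => ?_)
        by_cases hy : y ∈ pr S.ι ⁻¹' closedBall ξ s
        · simp only [indicator_of_mem hy]; exact hK _
        · simp only [indicator_of_notMem hy]
          refine (th_eq_zero hs ?_ hm).le
          rw [mem_preimage, mem_closedBall, dist_eq_norm, not_le] at hy
          exact hy.le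
    _ = (μ (pr S.ι ⁻¹' closedBall ξ s)).toReal * (K / s ^ m) := by
        rw [integral_indicator_const _ hZ]; rfl
    _ ≤ A * 3 ^ m * s ^ m * (K / s ^ m) :=
        mul_le_mul_of_nonneg_right (P.mass_cyl ξ hT).2.1 (by positivity)
    _ = K * (A * 3 ^ m) := by field_simp

/-- Compare with `∫ th s (ζ - ξ) (1 - d / 2) / sgW ζ = Q - YF (th s (· - ξ)) / 2` (`th_bd`,
`dgW_bd`, `ae_tube`, `mass_cyl`, `energy`). -/
theorem mass_norm (m : ℕ) (hm : 1 ≤ m) (Q : ℕ) (A : ℝ) : ∃ δ C : ℝ, 0 < δ ∧ 1 ≤ C ∧ ∀ {N : ℕ}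
    {S : Ref m N} {fr : Fr m N} {μ : Measure (E N)} {y₀ : E N} {R T : ℝ}, Piece S fr μ y₀ R T A →
    Anch S fr μ Q y₀ R → ∀ (s : ℝ) (ξ : E m), T ≤ δ * s → ‖S.F ξ - y₀‖ + 20 * s ≤ R →
    |S.mass μ s ξ - Q| ≤ C * T / s := by
  obtain ⟨δ, C1, hδ, hδ1, hC1, hE⟩ := Piece.energy m hm Q A
  obtain ⟨K, hK1, hK⟩ := th_bd m
  obtain ⟨D, hD⟩ : ∃ D : ℝ, D = C1 * 2 ^ m + |A| * 3 ^ m * 2 ^ m := ⟨_, rfl⟩
  have hD0 : 0 ≤ D := by rw [hD]; positivity
  refine ⟨δ, 1 + C1 * K * D + K * (1 + m) * D + K * D, hδ, ?_, ?_⟩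
  · have : 0 ≤ C1 * K * D + K * (1 + m) * D + K * D := by positivity
    linarith
  intro N S fr μ y₀ R T P hA s ξ hT hξ
  have := P.fin
  have hT0 := P.T_pos
  have hs : 0 < s := by
    by_contra h'
    push Not at h'
    linarith [mul_nonpos_of_nonneg_of_nonpos hδ.le h']
  have hTs : T ≤ s := hT.trans (mul_le_of_le_one_left hs.le hδ1)
  have hn := norm_nonneg (S.F ξ - y₀)
  have hs1 : s ≤ 1 := by linarith only [hξ, hn, P.R_le]
  rw [abs_of_nonneg (by linarith [P.A_ge] : 0 ≤ A)] at hD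
  obtain ⟨-, hE2, hE3⟩ := hE P
  obtain ⟨k1, k2⟩ := hK s hs
  obtain ⟨m1, m2⟩ := S.measurable_zeta
  have md := (S.measurable_all fr).2.1
  have hdd := S.dd_bd fr
  have cth : Continuous (th s : E m → ℝ) := (contDiff_th s 0).continuous
  have csg : Continuous (sgW S.w) := (Mean_sg_cd S).continuous
  obtain ⟨Z, hZ⟩ : ∃ Z, Z = S.zeta ⁻¹' closedBall ξ (2 * s) := ⟨_, rfl⟩
  have mZ : MeasurableSet Z := hZ ▸ m1 measurableSet_closedBall
  have hq : T ^ 2 / s ^ 2 ≤ T / s := by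
    rw [← div_pow, sq]
    exact mul_le_of_le_one_right (by positivity) ((div_le_one hs).2 hTs)
  have hq' : T ^ 2 ≤ T / s := by
    refine le_trans ?_ hq
    rw [le_div_iff₀ (by positivity)]
    exact mul_le_of_le_one_right (by positivity) (pow_le_one₀ hs.le hs1)
  have idd : Integrable (S.dd fr) μ := P.integrable_of_bd md (M := m) fun y _ _ => by
    rw [Real.norm_of_nonneg (hdd y).1]; exact (hdd y).2.1
  have izz : Integrable (fun y => ‖S.zz y‖ ^ 2) μ :=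
    P.integrable_of_bd (m2.norm.pow_const 2) (M := 1) fun y _ _ => by
      rw [Real.norm_of_nonneg (sq_nonneg _)]
      exact pow_le_one₀ (norm_nonneg _) ((S.zz_bd y).1.trans (by norm_num))
  have vZ : (μ Z).toReal ≤ A * 3 ^ m * 2 ^ m * s ^ m := by
    rw [hZ, mul_assoc, ← mul_pow]
    exact (P.mass_cyl ξ (by linarith)).1
  have eD : ∫ y in Z, S.dd fr y ∂μ ≤ C1 * 2 ^ m * s ^ m * (T / s) := by
    rw [hZ]
    refine (hE2 ξ (2 * s) (by linarith) (by linarith)).trans ?_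
    calc C1 * T ^ 2 * (2 * s) ^ m / (2 * s) ^ 2 = C1 * 2 ^ m * s ^ m * (T ^ 2 / s ^ 2 / 4) := by
          rw [mul_pow]; field_simp; ring
      _ ≤ _ := mul_le_mul_of_nonneg_left (by linarith only [hq, hT0, hs, show 0 ≤ T / s by positivity])
          (by positivity)
  have eZ : ∫ y in Z, ‖S.zz y‖ ^ 2 ∂μ ≤ A * 3 ^ m * 2 ^ m * s ^ m * (T / s) := by
    calc _ ≤ ∫ _y in Z, T / s ∂μ := by
          refine integral_mono_ae izz.restrict (integrable_const _) (ae_restrict_of_ae ?_)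
          filter_upwards [P.ae_tube] with y hy
          exact (pow_le_pow_left₀ (norm_nonneg _) hy.2.1 2).trans hq'
      _ = (μ Z).toReal * (T / s) := by rw [setIntegral_const]; rfl
      _ ≤ _ := mul_le_mul_of_nonneg_right vZ (by positivity)
  have hA0 : 0 ≤ A := by linarith only [P.A_ge]
  have d1 : C1 * 2 ^ m ≤ D := by
    rw [hD]; linarith only [hA0, show 0 ≤ A * 3 ^ m * 2 ^ m by positivity]
  have d2 : A * 3 ^ m * 2 ^ m ≤ D := by
    rw [hD]; linarith only [hC1, show 0 ≤ C1 * 2 ^ m by positivity]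
  have hsm : 0 < s ^ m := by positivity
  have hTs0 : 0 ≤ T / s := by positivity
  -- the defect
  have hY : |S.YF fr μ Q fun x => th s (x - ξ)| ≤ C1 * K * D * (T / s) := by
    refine ((hE3 s hA hT (by linarith only [hξ, hs, hn])).2 (fun x => th s (x - ξ)) (K / s ^ m) (closedBall ξ s)
      (cth.measurable.comp (measurable_id.sub_const ξ)) (fun x => ?_) measurableSet_closedBall
      (fun x hx => ?_) (fun x hx => ?_)).trans ?_
    · rw [abs_of_nonneg (th_nonneg hs _)]; exact k1 _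
    · rw [mem_closedBall, dist_eq_norm] at hx
      have a1 := (S.F_lip x ξ).2.1
      have a2 := norm_sub_le_norm_sub_add_norm_sub (S.F x) (S.F ξ) y₀
      show ‖S.F x - y₀‖ < R - 10 * s
      linarith only [hξ, hs, hx, a1, a2]
    · rw [mem_closedBall, dist_eq_norm, not_le] at hx
      exact th_eq_zero hs hx.le hm
    · have hsub : S.zeta ⁻¹' thickening s (closedBall ξ s) ⊆ Z := by
        rw [hZ]
        refine preimage_mono fun x hx => ?_
        obtain ⟨z, hz, hxz⟩ := mem_thickening_iff.1 hx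
        rw [mem_closedBall] at hz ⊢
        linarith [dist_triangle x z ξ]
      have a1 : ∫ y in S.zeta ⁻¹' thickening s (closedBall ξ s), (S.dd fr y + ‖S.zz y‖ ^ 2) ∂μ ≤
          D * s ^ m * (T / s) := by
        refine (setIntegral_mono_set (idd.add izz).integrableOn (Eventually.of_forall fun y =>
          add_nonneg (hdd y).1 (sq_nonneg _)) hsub.eventuallyLE).trans ?_
        rw [integral_add' idd.integrableOn izz.integrableOn, hD]
        linarith only [eD, eZ]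
      calc _ ≤ C1 * (K / s ^ m) * (D * s ^ m * (T / s)) :=
            mul_le_mul_of_nonneg_left a1 (by positivity)
        _ = _ := by field_simp
  -- the comparison
  have hsg := fun x => (sgW_bd S.w x).2.1
  have i1 : Integrable (fun y => th s (pr S.ι y - ξ) / sgW S.w (pr S.ι y)) μ :=
    P.integrable_of_bd ((cth.measurable.comp ((pr S.ι).continuous.measurable.sub_const ξ)).div
      (csg.measurable.comp (pr S.ι).continuous.measurable)) (M := K / s ^ m) fun y _ _ => by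
      rw [Real.norm_of_nonneg (div_nonneg (th_nonneg hs _) (by linarith only [hsg (pr S.ι y)]))]
      exact (div_le_self (th_nonneg hs _) (hsg _)).trans (k1 _)
  have i2 : Integrable (fun y => th s (S.zeta y - ξ) * (1 - S.dd fr y / 2) / sgW S.w (S.zeta y)) μ :=
    P.integrable_of_bd (((cth.measurable.comp (m1.sub_const ξ)).mul
      ((md.div_const 2).const_sub 1)).div (csg.measurable.comp m1))
      (M := K / s ^ m * (1 + m)) fun y _ _ => by
      rw [norm_div, norm_mul, Real.norm_of_nonneg (th_nonneg hs _),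
        Real.norm_of_nonneg (by linarith only [hsg (S.zeta y)] : 0 ≤ sgW S.w (S.zeta y))]
      refine (div_le_self (mul_nonneg (th_nonneg hs _) (norm_nonneg _)) (hsg _)).trans
        (mul_le_mul (k1 _) ?_ (norm_nonneg _) (by positivity))
      rw [Real.norm_eq_abs, abs_le]
      constructor <;> linarith only [(hdd y).1, (hdd y).2.1, (Nat.cast_nonneg m : (0 : ℝ) ≤ m)]
  have hC : |S.mass μ s ξ -
      ∫ y, th s (S.zeta y - ξ) * (1 - S.dd fr y / 2) / sgW S.w (S.zeta y) ∂μ| ≤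
      K * (1 + m) * D * (T / s) + K * D * (T / s) := by
    rw [Ref.mass, ← integral_sub i1 i2, ← Real.norm_eq_abs]
    have ib : Integrable (fun y => K / s ^ m * (1 + m) * (T / s) + K / s ^ m * S.dd fr y) μ :=
      (integrable_const _).add (idd.const_mul _)
    refine (norm_integral_le_of_norm_le (ib.indicator mZ) ?_).trans ?_
    · filter_upwards [P.ae_tube] with y hy
      have hl := hy.2.2.2.2.2.1
      by_cases hyZ : y ∈ Z
      · rw [indicator_of_mem hyZ, div_eq_mul_inv, div_eq_mul_inv (_ * _), Real.norm_eq_abs]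
        refine Mean_pt (L := ‖pr S.ι y - S.zeta y‖) hs hs1 hT0.le (by positivity)
          (Nat.cast_nonneg m) (th_nonneg hs _) (k1 _)
          (inv_nonneg.2 (by linarith only [hsg (pr S.ι y)])) (inv_le_one_of_one_le₀ (hsg _))
          (inv_nonneg.2 (by linarith only [hsg (S.zeta y)])) (inv_le_one_of_one_le₀ (hsg _))
          (hdd y).1 (by rw [norm_sub_rev]; linarith only [hT0, hy]) ?_ (Mean_sg_lip S _ _)
        have a1 := k2 (pr S.ι y - ξ) (S.zeta y - ξ)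
        rw [sub_sub_sub_cancel_right, pow_succ, ← div_div] at a1
        exact a1
      · rw [indicator_of_notMem hyZ]
        rw [hZ, mem_preimage, mem_closedBall, dist_eq_norm, not_le] at hyZ
        have a1 := norm_sub_le_norm_sub_add_norm_sub (S.zeta y) (pr S.ι y) ξ
        rw [th_eq_zero hs (by linarith only [hs, hTs, hy, hyZ, a1] : s ≤ ‖pr S.ι y - ξ‖) hm,
          th_eq_zero hs (by linarith only [hs, hyZ] : s ≤ ‖S.zeta y - ξ‖) hm]
        simp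
    · rw [integral_indicator mZ, integral_add (integrable_const _) (idd.const_mul _).integrableOn,
        setIntegral_const, integral_const_mul, smul_eq_mul]
      refine add_le_add ?_ ?_
      · calc _ ≤ D * s ^ m * (K / s ^ m * (1 + m) * (T / s)) :=
              mul_le_mul_of_nonneg_right (vZ.trans (mul_le_mul_of_nonneg_right d2 hsm.le))
                (by positivity)
          _ = _ := by field_simp
      · calc _ ≤ K / s ^ m * (D * s ^ m * (T / s)) :=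
              mul_le_mul_of_nonneg_left (eD.trans (mul_le_mul_of_nonneg_right
                (mul_le_mul_of_nonneg_right d1 hsm.le) hTs0)) (by positivity)
          _ = _ := by field_simp
  rw [Ref.YF, integral_th hs] at hY
  rw [mul_div_assoc]
  have p1 : 0 ≤ C1 * K * D * (T / s) := by positivity
  rw [abs_le] at hY hC ⊢
  constructor <;> linarith only [hTs0, hY, hC, hY.1, hY.2, hC.1, hC.2]

/-- Cauchy-Schwarz, Fubini, `mass_cyl` -/
theorem mean_L2 (m : ℕ) (hm : 1 ≤ m) (A : ℝ) : ∃ C : ℝ, 1 ≤ C ∧ ∀ {N : ℕ} {S : Ref m N}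
    {fr : Fr m N} {μ : Measure (E N)} {y₀ : E N} {R T : ℝ}, Piece S fr μ y₀ R T A →
    ∀ Q s : ℝ, 1 ≤ Q → T ≤ s → Continuous (S.mean μ Q s) ∧ (∀ ξ, ‖S.mean μ Q s ξ‖ ≤ C * T) ∧
      (∀ ξ, ∫ y, th s (pr S.ι y - ξ) ∂μ ≤ C) ∧
      ∫ y, ‖S.mean μ Q s (pr S.ι y)‖ ^ 2 ∂μ ≤ C * S.I2 μ y₀ R := by
  obtain ⟨K, hK1, hK⟩ := th_bd m
  obtain ⟨M, hM⟩ : ∃ M : ℝ, M = K * (|A| * 3 ^ m) + 1 := ⟨_, rfl⟩
  have hM1 : 1 ≤ M := by
    rw [hM]; linarith only [hK1, show 0 ≤ K * (|A| * 3 ^ m) by positivity]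
  have hMM : M ≤ M * M := le_mul_of_one_le_right (by linarith) hM1
  refine ⟨M * M, hM1.trans hMM, ?_⟩
  intro N S fr μ y₀ R T P Q s hQ hT
  have := P.fin
  have hT0 := P.T_pos
  have hs : 0 < s := hT0.trans_le hT
  rw [abs_of_nonneg (by linarith [P.A_ge] : 0 ≤ A)] at hM
  obtain ⟨k1, -⟩ := hK s hs
  have hth : ∀ ξ, ∫ y, th s (pr S.ι y - ξ) ∂μ ≤ M := fun ξ => by
    linarith only [hM, hm, hT, hK1, Mean_th P hm hT (by linarith) k1 ξ]
  have cth : Continuous (th s : E m → ℝ) := (contDiff_th s 0).continuous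
  have csg : Continuous (sgW S.w) := (Mean_sg_cd S).continuous
  have mp : Measurable (pr S.ι) := (pr S.ι).continuous.measurable
  have cgh : Continuous S.gh := (S.gh_calc 0).2.1.continuous
  have nth : ∀ x : E m, ‖th s x‖ ≤ K / s ^ m := fun x => by
    rw [Real.norm_of_nonneg (th_nonneg hs _)]; exact k1 x
  obtain ⟨g, hg⟩ : ∃ g : E N → E N, g = fun y => (Q * sgW S.w (pr S.ι y))⁻¹ • S.gh y := ⟨_, rfl⟩
  have g1 : ∀ y, ‖g y‖ ≤ ‖S.gh y‖ := fun y => by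
    have a1 : 1 ≤ Q * sgW S.w (pr S.ι y) := one_le_mul_of_one_le_of_one_le hQ (sgW_bd _ _).2.1
    rw [hg, norm_smul, norm_inv, Real.norm_of_nonneg (by linarith)]
    exact mul_le_of_le_one_left (norm_nonneg _) (inv_le_one_of_one_le₀ a1)
  have mg : Measurable g := by
    rw [hg]
    exact (((csg.measurable.comp mp).const_mul Q).inv).smul cgh.measurable
  have ig : Integrable g μ := P.integrable_of_bd mg (M := T) fun y _ h => (g1 y).trans h
  have em : ∀ ξ, S.mean μ Q s ξ = ∫ y, th s (pr S.ι y - ξ) • g y ∂μ := fun ξ => by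
    rw [hg]; rfl
  have ith : ∀ ξ, Integrable (fun y => th s (pr S.ι y - ξ)) μ := fun ξ =>
    P.integrable_of_bd (cth.measurable.comp (mp.sub_const ξ)) fun y _ _ => nth _
  have i2 : Integrable (fun y => ‖S.gh y‖ ^ 2) μ :=
    P.integrable_of_bd (cgh.measurable.norm.pow_const 2) (M := T ^ 2) fun y _ h => by
      rw [Real.norm_of_nonneg (sq_nonneg _)]
      exact pow_le_pow_left₀ (norm_nonneg _) h 2
  have hc : Continuous (S.mean μ Q s) := by
    rw [show S.mean μ Q s = fun ξ => ∫ y, th s (pr S.ι y - ξ) • g y ∂μ from funext em]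
    exact Conv_cont (ContinuousLinearMap.lsmul ℝ ℝ) mp ig cth nth
  have isg : ∀ ξ, Integrable (fun y => th s (pr S.ι y - ξ) • g y) μ := fun ξ =>
    Conv_int (ContinuousLinearMap.lsmul ℝ ℝ) mp ig cth nth ξ
  refine ⟨hc, fun ξ => ?_, fun ξ => (hth ξ).trans hMM, ?_⟩
  · rw [em]
    refine (norm_integral_le_of_norm_le ((ith ξ).mul_const T) ?_).trans ?_
    · filter_upwards [P.ae] with y hy
      rw [norm_smul, Real.norm_of_nonneg (th_nonneg hs _)]
      exact mul_le_mul_of_nonneg_left ((g1 y).trans hy.2.1) (th_nonneg hs _)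
    · rw [integral_mul_const]
      exact mul_le_mul_of_nonneg_right ((hth ξ).trans hMM) hT0.le
  have i3 : ∀ ξ, Integrable (fun y => th s (pr S.ι y - ξ) * ‖S.gh y‖ ^ 2) μ := fun ξ =>
    i2.bdd_mul (cth.measurable.comp (mp.sub_const ξ)).aestronglyMeasurable
      (Eventually.of_forall fun y => nth _)
  have jen : ∀ ξ, ‖S.mean μ Q s ξ‖ ^ 2 ≤ M * ∫ y, th s (pr S.ι y - ξ) * ‖S.gh y‖ ^ 2 ∂μ := by
    intro ξ
    have hM0 : 0 < M := by linarith
    obtain ⟨t, ht⟩ : ∃ t, t = ∫ y, ‖th s (pr S.ι y - ξ) • g y‖ ∂μ := ⟨_, rfl⟩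
    have h1 : ‖S.mean μ Q s ξ‖ ≤ t := by
      rw [em, ht]; exact norm_integral_le_integral_norm _
    have h2 : 2 * t * ∫ y, ‖th s (pr S.ι y - ξ) • g y‖ ∂μ ≤
        t ^ 2 / M * ∫ y, th s (pr S.ι y - ξ) ∂μ +
          M * ∫ y, th s (pr S.ι y - ξ) * ‖S.gh y‖ ^ 2 ∂μ := by
      rw [← integral_const_mul (t ^ 2 / M), ← integral_const_mul M, ← integral_const_mul,
        ← integral_add ((ith ξ).const_mul _) ((i3 ξ).const_mul _)]
      refine integral_mono ((isg ξ).norm.const_mul _)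
        (((ith ξ).const_mul _).add ((i3 ξ).const_mul _)) fun y => ?_
      have h3 := th_nonneg hs (pr S.ι y - ξ)
      have h4 : 2 * t * ‖g y‖ ≤ t ^ 2 / M + M * ‖S.gh y‖ ^ 2 := by
        have a1 : 0 ≤ (t - M * ‖g y‖) ^ 2 / M := by positivity
        have e : (t - M * ‖g y‖) ^ 2 / M = t ^ 2 / M + M * ‖g y‖ ^ 2 - 2 * t * ‖g y‖ := by
          field_simp; ring
        have a2 := mul_le_mul_of_nonneg_left (pow_le_pow_left₀ (norm_nonneg _) (g1 y) 2) hM0.le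
        linarith only [a1, e, a2]
      have h5 := mul_le_mul_of_nonneg_left h4 h3
      simp only [norm_smul, Real.norm_of_nonneg h3]
      linarith only [h5]
    rw [← ht] at h2
    have h3 : t ^ 2 / M * ∫ y, th s (pr S.ι y - ξ) ∂μ ≤ t ^ 2 := by
      refine (mul_le_mul_of_nonneg_left (hth ξ) (by positivity)).trans (le_of_eq ?_)
      field_simp
    have h4 := pow_le_pow_left₀ (norm_nonneg _) h1 2
    nlinarith only [h2, h3, h4]
  have hi : Integrable (Function.uncurry fun y y' =>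
      th s (pr S.ι y' - pr S.ι y) * ‖S.gh y'‖ ^ 2) (μ.prod μ) := by
    have a1 : Integrable (fun q : E N × E N => ‖S.gh q.2‖ ^ 2) (μ.prod μ) := i2.comp_snd μ
    exact a1.bdd_mul (cth.measurable.comp ((mp.comp measurable_snd).sub
      (mp.comp measurable_fst))).aestronglyMeasurable (Eventually.of_forall fun q => nth _)
  calc _ ≤ ∫ y, M * ∫ y', th s (pr S.ι y' - pr S.ι y) * ‖S.gh y'‖ ^ 2 ∂μ ∂μ :=
        integral_mono_of_nonneg (Eventually.of_forall fun y => sq_nonneg _)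
          (hi.integral_prod_left.const_mul _) (Eventually.of_forall fun y => jen _)
    _ = M * ∫ y', ∫ y, th s (pr S.ι y' - pr S.ι y) * ‖S.gh y'‖ ^ 2 ∂μ ∂μ := by
        rw [integral_const_mul, integral_integral_swap hi]
    _ ≤ _ := by
        rw [mul_assoc, ← P.I2_univ.1]
        refine mul_le_mul_of_nonneg_left ?_ (by linarith)
        rw [← integral_const_mul]
        refine integral_mono hi.integral_prod_right (i2.const_mul _) fun y' => ?_
        simp only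
        rw [integral_mul_const]
        refine mul_le_mul_of_nonneg_right (le_trans (le_of_eq ?_) (hth (pr S.ι y'))) (sq_nonneg _)
        refine integral_congr_ae (Eventually.of_forall fun y => ?_)
        simp only
        rw [← th_neg, neg_sub]

/-- the energy along the graph: `dd_bd`, Cauchy-Schwarz -/
theorem qq_le {S : Ref m N} {fr : Fr m N} {μ : Measure (E N)} {y₀ : E N} {R T A : ℝ}
    (P : Piece S fr μ y₀ R T A) : Integrable (S.qq fr) μ ∧
    Integrable (fun y => √(S.qq fr y)) μ ∧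
    ∫ y, S.qq fr y ∂μ ≤ 10 * (∫ y, S.dd fr y ∂μ) + m * S.I2 μ y₀ R ∧
    ∫ y, √(S.qq fr y) ∂μ ≤ √(A * ∫ y, S.qq fr y ∂μ) := by
  have := P.fin
  have hdd := S.dd_bd fr
  have mq := (S.measurable_all fr).2.2.2.1
  have iq : Integrable (S.qq fr) μ := P.integrable_of_bd mq (M := 5 * m) fun y _ _ => by
    rw [Real.norm_of_nonneg (hdd y).2.2.1]; exact (hdd y).2.2.2.1
  have ir : Integrable (fun y => √(S.qq fr y)) μ :=
    P.integrable_of_bd mq.sqrt (M := √(5 * m)) fun y _ _ => by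
      rw [Real.norm_of_nonneg (Real.sqrt_nonneg _)]; exact Real.sqrt_le_sqrt (hdd y).2.2.2.1
  have idd : Integrable (S.dd fr) μ :=
    P.integrable_of_bd (S.measurable_all fr).2.1 (M := m) fun y _ _ => by
      rw [Real.norm_of_nonneg (hdd y).1]; exact (hdd y).2.1
  have izz : Integrable (fun y => ‖S.zz y‖ ^ 2) μ :=
    P.integrable_of_bd (S.measurable_zeta.2.norm.pow_const 2) (M := 1) fun y _ _ => by
      rw [Real.norm_of_nonneg (sq_nonneg _)]
      exact pow_le_one₀ (norm_nonneg _) ((S.zz_bd y).1.trans (by norm_num))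
  refine ⟨iq, ir, ?_, ?_⟩
  · calc _ ≤ ∫ y, (10 * S.dd fr y + m * ‖S.zz y‖ ^ 2) ∂μ := by
          refine integral_mono_ae iq ((idd.const_mul _).add (izz.const_mul _)) ?_
          filter_upwards [P.ae_tube] with y hy
          exact (hdd y).2.2.2.2.2 hy.1
      _ = 10 * (∫ y, S.dd fr y ∂μ) + m * ∫ y, ‖S.zz y‖ ^ 2 ∂μ := by
          rw [integral_add (idd.const_mul _) (izz.const_mul _), integral_const_mul,
            integral_const_mul]
      _ ≤ _ := by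
          linarith [mul_le_mul_of_nonneg_left P.I2_univ.2.1 (Nat.cast_nonneg m : (0 : ℝ) ≤ m)]
  · have hA : 0 < A := by linarith [P.A_ge]
    have hR : 0 < R := by linarith [P.T_pos, P.T_le]
    have hv : (μ univ).toReal ≤ A := (P.mass_cyl 0 le_rfl).2.2.trans
      (mul_le_of_le_one_right hA.le (pow_le_one₀ hR.le (by linarith [P.R_le])))
    obtain ⟨t, ht⟩ : ∃ t, t = ∫ y, √(S.qq fr y) ∂μ := ⟨_, rfl⟩
    have h2 : 2 * t * ∫ y, √(S.qq fr y) ∂μ ≤ ∫ y, (t ^ 2 / A + A * S.qq fr y) ∂μ := by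
      rw [← integral_const_mul]
      refine integral_mono (ir.const_mul _) ((integrable_const _).add (iq.const_mul _)) fun y => ?_
      have a1 : 0 ≤ (t - A * √(S.qq fr y)) ^ 2 / A := by positivity
      have e : (t - A * √(S.qq fr y)) ^ 2 / A =
          t ^ 2 / A + A * √(S.qq fr y) ^ 2 - 2 * t * √(S.qq fr y) := by
        field_simp; ring
      rw [Real.sq_sqrt (hdd y).2.2.1] at e
      simp only
      linarith only [a1, e]
    rw [integral_add (integrable_const _) (iq.const_mul _), integral_const_mul, integral_const,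
      smul_eq_mul, ← ht] at h2
    have h3 : μ.real univ * (t ^ 2 / A) ≤ t ^ 2 :=
      (mul_le_mul_of_nonneg_right hv (by positivity)).trans (le_of_eq (by field_simp))
    rw [← ht]
    exact Real.le_sqrt_of_sq_le (by nlinarith only [h2, h3])

end Piece

end Pool.Agent.MP_f6c0e6_an.Gen

end

section

/-! Points of full density are close to the local mean. -/

set_option autoImplicit false

open MeasureTheory Filter Topology Set Metric
open scoped ENNReal RealInnerProductSpace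

namespace Pool.Agent.MP_f6c0e6_an.Gen

variable {m N : ℕ}

theorem Floor_nonneg (μ : Measure (E N)) {q : E N → ℝ} (h0 : ∀ x, 0 ≤ q x) (y : E N) {t : ℝ}
    (ht : 0 < t) : 0 ≤ mkf m μ q y t :=
  mul_nonneg (by positivity) (integral_nonneg fun x => mul_nonneg (h0 x) (gam_nonneg _))

theorem Floor_int (μ : Measure (E N)) [IsFiniteMeasure μ] {q : E N → ℝ} (hq : Measurable q) {B : ℝ}
    (hB : ∀ x, 0 ≤ q x ∧ q x ≤ B) (y : E N) {t : ℝ} (ht : 0 < t) :
    Integrable (fun x => q x * gam (‖x - y‖ ^ 2 / t ^ 2)) μ :=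
  StatC_int' μ ht le_rfl hq fun x _ => hB x

theorem Floor_cont (μ : Measure (E N)) [IsFiniteMeasure μ] {q : E N → ℝ} (hq : Measurable q)
    {B : ℝ} (hB : ∀ x, 0 ≤ q x ∧ q x ≤ B) (y : E N) : ContinuousOn (mkf m μ q y) (Ioi 0) :=
  fun _ ht => (StatB_hasDerivAt m hq (C := B) (fun x => by
    rw [abs_of_nonneg (hB x).1]
    exact (hB x).2) y ht).2.continuousAt.continuousWithinAt

/-- the set where the Riesz potential of `q` is large has small mass -/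
theorem Floor_bad {μ : Measure (E N)} [IsFiniteMeasure μ] {A : ℝ} (hA0 : 0 ≤ A) (hA : UB m μ A)
    {q : E N → ℝ} (hq : Measurable q) {B : ℝ} (hB : ∀ x, 0 ≤ q x ∧ q x ≤ B) {ρ ε : ℝ} (hρ : 0 < ρ)
    (hε : 0 < ε) : ∃ Bad : Set (E N), MeasurableSet Bad ∧
      (μ Bad).toReal ≤ A * ρ * (∫ x, q x ∂μ) / ε ∧
      ∀ y, y ∉ Bad → ∀ ρ₁ ∈ Ioc 0 ρ, ∫ t in ρ₁..ρ, mkf m μ q y t ≤ ε := by
  have hg : Measurable gam := contDiff_gam.continuous.measurable
  let Φ : E N → ℝ → E N → ℝ≥0∞ := fun y t x =>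
    ENNReal.ofReal ((t ^ m)⁻¹ * (q x * gam (‖x - y‖ ^ 2 / t ^ 2)))
  have hΦ : Measurable fun p : (E N × ℝ) × E N => Φ p.1.1 p.1.2 p.2 := by
    refine ENNReal.measurable_ofReal.comp ?_
    exact ((measurable_snd.comp measurable_fst).pow_const m).inv.mul
      ((hq.comp measurable_snd).mul (hg.comp (by fun_prop)))
  let F : E N → ℝ → ℝ≥0∞ := fun y t => ∫⁻ x, Φ y t x ∂μ
  have hF : Measurable fun p : E N × ℝ => F p.1 p.2 := hΦ.lintegral_prod_right'
  let H : E N → ℝ≥0∞ := fun y => ∫⁻ t in Ioc 0 ρ, F y t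
  have hH : Measurable H := hF.lintegral_prod_right'
  have hFe : ∀ y t, 0 < t → F y t = ENNReal.ofReal (mkf m μ q y t) := fun y t ht => by
    rw [mkf, ← integral_const_mul, ofReal_integral_eq_lintegral_ofReal
      ((Floor_int μ hq hB y ht).const_mul _) (ae_of_all _ fun x =>
        mul_nonneg (by positivity) (mul_nonneg (hB x).1 (gam_nonneg _)))]
  have hqi : Integrable q μ := Integrable.of_bound hq.aestronglyMeasurable B
    (ae_of_all _ fun x => by rw [Real.norm_eq_abs, abs_of_nonneg (hB x).1]; exact (hB x).2)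
  have hI : 0 ≤ ∫ x, q x ∂μ := integral_nonneg fun x => (hB x).1
  have h1 : ∀ t, 0 < t → ∫⁻ y, F y t ∂μ ≤ ENNReal.ofReal (A * ∫ x, q x ∂μ) := fun t ht => by
    have h2 : Measurable (Function.uncurry fun y x => Φ y t x) :=
      hΦ.comp ((measurable_fst.prodMk measurable_const).prodMk measurable_snd)
    rw [lintegral_lintegral_swap h2.aemeasurable, ← integral_const_mul,
      ofReal_integral_eq_lintegral_ofReal (hqi.const_mul A)
        (ae_of_all _ fun x => mul_nonneg hA0 (hB x).1)]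
    refine lintegral_mono fun x => ?_
    have h3 : ∀ y, (t ^ m)⁻¹ * (q x * gam (‖x - y‖ ^ 2 / t ^ 2)) =
        q x * ((t ^ m)⁻¹ * gam (‖y - x‖ ^ 2 / t ^ 2)) := fun y => by
      rw [norm_sub_rev]
      ring
    simp only [Φ, h3]
    rw [← ofReal_integral_eq_lintegral_ofReal (((StatC_int μ x t).const_mul _).const_mul _)
      (ae_of_all _ fun y => mul_nonneg (hB x).1 (mul_nonneg (by positivity) (gam_nonneg _))),
      integral_const_mul, integral_const_mul, mul_comm A]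
    refine ENNReal.ofReal_le_ofReal (mul_le_mul_of_nonneg_left ?_ (hB x).1)
    exact le_of_mul_le_mul_right ((mk_le_ball (m := m) μ x ht).trans (hA x t ht)) (pow_pos ht m)
  have h2 : ∫⁻ y, H y ∂μ ≤ ENNReal.ofReal (A * ρ * ∫ x, q x ∂μ) := by
    rw [lintegral_lintegral_swap hF.aemeasurable]
    refine (setLIntegral_mono' measurableSet_Ioc fun t ht => h1 t ht.1).trans ?_
    rw [setLIntegral_const, Real.volume_Ioc, ← ENNReal.ofReal_mul (by positivity), sub_zero]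
    exact ENNReal.ofReal_le_ofReal (le_of_eq (by ring))
  refine ⟨{y | ENNReal.ofReal ε ≤ H y}, measurableSet_le measurable_const hH, ?_,
    fun y hy ρ₁ hρ₁ => ?_⟩
  · have h3 := (mul_meas_ge_le_lintegral₀ hH.aemeasurable (ENNReal.ofReal ε)).trans h2
    have h4 := ENNReal.toReal_le_of_le_ofReal (by positivity) h3
    rw [ENNReal.toReal_mul, ENNReal.toReal_ofReal hε.le] at h4
    rwa [le_div_iff₀' hε]
  · have hs : Icc ρ₁ ρ ⊆ Ioi 0 := fun t ht => hρ₁.1.trans_le ht.1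
    have h3 : IntegrableOn (mkf m μ q y) (Ioc ρ₁ ρ) :=
      (((Floor_cont μ hq hB y).mono hs).integrableOn_Icc).mono_set Ioc_subset_Icc_self
    rw [intervalIntegral.integral_of_le hρ₁.2, ← ENNReal.ofReal_le_ofReal_iff hε.le,
      ofReal_integral_eq_lintegral_ofReal h3 ((ae_restrict_iff' measurableSet_Ioc).2
        (ae_of_all _ fun t ht => Floor_nonneg μ (fun x => (hB x).1) y (hρ₁.1.trans ht.1)))]
    refine le_trans ?_ (not_le.1 hy).le
    refine le_trans (le_of_eq ?_) (lintegral_mono_set (Ioc_subset_Ioc_left hρ₁.1.le))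
    exact setLIntegral_congr_fun measurableSet_Ioc fun t ht => (hFe y t (hρ₁.1.trans ht.1)).symm

/-- moving the centre -/
theorem Floor_shift {μ : Measure (E N)} [IsFiniteMeasure μ] {A : ℝ} (hA : UB m μ A)
    {f : E N → ℝ} (hf : Measurable f) (h01 : ∀ x, 0 ≤ f x ∧ f x ≤ 1) {y y' : E N} {ρ d : ℝ}
    (hρ : 0 < ρ) (hd : ‖y - y'‖ ≤ d) (hdρ : d ≤ ρ) :
    mkf m μ f y' ρ ≤ mkf m μ f y ρ + 12 * d / ρ * A := by
  have hd0 : 0 ≤ d := (norm_nonneg _).trans hd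
  have h1 : ∀ x, f x * gam (‖x - y'‖ ^ 2 / ρ ^ 2) ≤ f x * gam (‖x - y‖ ^ 2 / ρ ^ 2) +
      (ball y' ρ).indicator (fun _ => 12 * d / ρ) x := fun x => by
    by_cases hx : x ∈ ball y' ρ
    · rw [indicator_of_mem hx]
      have h2 : ‖x - y'‖ ≤ ρ := (mem_ball_iff_norm.1 hx).le
      have h3 : |‖x - y'‖ - ‖x - y‖| ≤ d := by
        have := abs_norm_sub_norm_le (x - y') (x - y)
        rw [show x - y' - (x - y) = y - y' by abel] at this
        exact this.trans hd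
      have h4 := gam_lip (a := ‖x - y'‖ ^ 2 / ρ ^ 2) (b := ‖x - y‖ ^ 2 / ρ ^ 2)
        (by positivity) (by positivity)
      have h5 : |‖x - y'‖ ^ 2 / ρ ^ 2 - ‖x - y‖ ^ 2 / ρ ^ 2| ≤ 3 * ρ / ρ ^ 2 * d := by
        rw [show ‖x - y'‖ ^ 2 / ρ ^ 2 - ‖x - y‖ ^ 2 / ρ ^ 2 =
          ((‖x - y'‖ + ‖x - y‖) / ρ ^ 2) * (‖x - y'‖ - ‖x - y‖) by ring, abs_mul,
          abs_of_nonneg (by positivity)]
        refine mul_le_mul ?_ h3 (abs_nonneg _) (by positivity)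
        have := (abs_le.1 h3).1
        exact div_le_div_of_nonneg_right (by linarith) (by positivity)
      have h6 : 4 * (3 * ρ / ρ ^ 2 * d) = 12 * d / ρ := by
        field_simp
        ring
      have h7 : gam (‖x - y'‖ ^ 2 / ρ ^ 2) ≤ gam (‖x - y‖ ^ 2 / ρ ^ 2) + 12 * d / ρ := by
        linarith only [h5, h6, h4, (abs_le.1 h4).2]
      have h8 := mul_le_mul_of_nonneg_left h7 (h01 x).1
      have h9 : f x * (12 * d / ρ) ≤ 12 * d / ρ := mul_le_of_le_one_left (by positivity) (h01 x).2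
      linarith only [h8, h9, mul_add (f x) (gam (‖x - y‖ ^ 2 / ρ ^ 2)) (12 * d / ρ)]
    · rw [indicator_of_notMem hx, StatA_zero hρ hx, mul_zero, add_zero]
      exact mul_nonneg (h01 x).1 (gam_nonneg _)
  have hi : Integrable ((ball y' ρ).indicator fun _ => 12 * d / ρ) μ :=
    (integrable_const _).indicator measurableSet_ball
  have h2 := integral_mono (Floor_int μ hf h01 y' hρ) ((Floor_int μ hf h01 y hρ).add hi) h1
  simp only [Pi.add_apply] at h2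
  rw [integral_add (Floor_int μ hf h01 y hρ) hi, integral_indicator measurableSet_ball,
    setIntegral_const, smul_eq_mul] at h2
  have h3 : μ.real (ball y' ρ) * (12 * d / ρ) ≤ A * ρ ^ m * (12 * d / ρ) :=
    mul_le_mul_of_nonneg_right (hA y' ρ hρ) (by positivity)
  have h4 : 12 * d / ρ * A = (ρ ^ m)⁻¹ * (A * ρ ^ m * (12 * d / ρ)) := by
    field_simp
  rw [h4, mkf, mkf, ← mul_add]
  exact mul_le_mul_of_nonneg_left (by linarith only [h2, h3]) (by positivity)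

section

variable {ψ : ℝ → ℝ} {K : ℝ} (S : Ref m N) (fr : Fr m N)

/-- the cut-off in the height -/
noncomputable def Floor_f (ψ : ℝ → ℝ) (δ : ℝ) (y x : E N) : ℝ := ψ (‖S.gh x - S.gh y‖ ^ 2 / δ ^ 2)

theorem Floor_smooth (hψ : ContDiff ℝ 3 ψ) (δ : ℝ) (y : E N) : ContDiff ℝ 1 (Floor_f S ψ δ y) := by
  have h1 : ContDiff ℝ 1 S.gh := (S.gh_calc y).2.1.of_le (by norm_num)
  exact (hψ.of_le (by norm_num)).comp (((h1.sub contDiff_const).norm_sq ℝ).div_const _)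

theorem Floor_deriv (hψ : ContDiff ℝ 3 ψ) (h0 : ∀ t, 1 ≤ t → ψ t = 0) (hK : ∀ t, |deriv ψ t| ≤ K)
    {δ : ℝ} (hδ : 0 < δ) (y x v : E N) : |fderiv ℝ (Floor_f S ψ δ y) x v| ≤
      2 * K / δ * ‖v - S.La (pr S.ι x) (pr S.ι v)‖ := by
  have hK0 : 0 ≤ K := (abs_nonneg _).trans (hK 0)
  have h1 : HasFDerivAt S.gh (fderiv ℝ S.gh x) x :=
    ((S.gh_calc y).2.1.differentiable (by norm_num) x).hasFDerivAt
  have h2 := ((h1.sub_const (S.gh y)).norm_sq.mul_const (δ ^ 2)⁻¹)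
  have h3 : HasDerivAt ψ (deriv ψ (‖S.gh x - S.gh y‖ ^ 2 / δ ^ 2)) (‖S.gh x - S.gh y‖ ^ 2 / δ ^ 2) :=
    (hψ.differentiable (by norm_num) _).hasDerivAt
  have h4 : HasFDerivAt (Floor_f S ψ δ y) _ x := h3.comp_hasFDerivAt x h2
  have h5 : fderiv ℝ (Floor_f S ψ δ y) x v = deriv ψ (‖S.gh x - S.gh y‖ ^ 2 / δ ^ 2) *
      ((δ ^ 2)⁻¹ * (2 * ⟪S.gh x - S.gh y, v - S.La (pr S.ι x) (pr S.ι v)⟫)) := by
    rw [h4.fderiv, ← (S.gh_calc x).2.2.2.2.1 v]
    simp only [smul_apply, smul_eq_mul, ContinuousLinearMap.comp_apply, innerSL_apply_apply,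
      nsmul_eq_mul, Nat.cast_ofNat]
  rw [h5]
  rcases le_or_gt ‖S.gh x - S.gh y‖ δ with h | h
  · have h6 := (abs_real_inner_le_norm (S.gh x - S.gh y) (v - S.La (pr S.ι x) (pr S.ι v))).trans
      (mul_le_mul_of_nonneg_right h (norm_nonneg _))
    rw [abs_mul, abs_mul, abs_mul, abs_two, abs_of_nonneg (by positivity : 0 ≤ (δ ^ 2)⁻¹)]
    refine (mul_le_mul (hK _) (mul_le_mul_of_nonneg_left (mul_le_mul_of_nonneg_left h6 zero_le_two)
      (by positivity)) (by positivity) hK0).trans_eq ?_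
    field_simp
  · rw [Cut_deriv_zero (fun t ht => h0 t ht.le) _
      ((one_lt_div (by positivity)).2 (pow_lt_pow_left₀ h hδ.le two_ne_zero)), zero_mul, abs_zero]
    positivity

theorem Floor_q : Measurable (fun x => √(S.qq fr x)) ∧
    ∀ x, 0 ≤ √(S.qq fr x) ∧ √(S.qq fr x) ≤ √(5 * m) :=
  ⟨(S.measurable_all fr).2.2.2.1.sqrt, fun x => ⟨Real.sqrt_nonneg _, Real.sqrt_le_sqrt (S.dd_bd fr x).2.2.2.1⟩⟩

theorem Floor_mer (hψ : ContDiff ℝ 3 ψ) (h0 : ∀ t, 1 ≤ t → ψ t = 0) (hK : ∀ t, |deriv ψ t| ≤ K)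
    {δ : ℝ} (hδ : 0 < δ) (μ : Measure (E N)) [IsFiniteMeasure μ] (y : E N) {t : ℝ} (ht : 0 < t) :
    -(2 * K / δ * mkf m μ (fun x => √(S.qq fr x)) y t * t ^ (m + 1)) ≤
      mer fr μ (Floor_f S ψ δ y) y t := by
  have hK0 : 0 ≤ K := (abs_nonneg _).trans (hK 0)
  obtain ⟨hq, hB⟩ := Floor_q S fr
  have h1 : 2 * K / δ * mkf m μ (fun x => √(S.qq fr x)) y t * t ^ (m + 1) =
      ∫ x, 2 * K / δ * t * (√(S.qq fr x) * gam (‖x - y‖ ^ 2 / t ^ 2)) ∂μ := by
    rw [integral_const_mul, mkf, pow_succ t m]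
    field_simp
  rw [h1, mer]
  refine neg_le_of_abs_le ?_
  rw [← Real.norm_eq_abs]
  refine (norm_integral_le_of_norm_le ((Floor_int μ hq hB y ht).const_mul _)
    (ae_of_all _ fun x => ?_))
  rcases le_total t ‖x - y‖ with hx | hx
  · simp only [StatC_zero ht hx, zero_mul, mul_zero, norm_zero, le_refl]
  · have h2 : ∑ i, ‖fr.s i x - S.La (pr S.ι x) (pr S.ι (fr.s i x))‖ * |⟪fr.s i x, x - y⟫| ≤
        √(S.qq fr x) * t := by
      refine (abs_le_of_sq_le_sq' ?_ (by positivity)).2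
      refine (Finset.sum_mul_sq_le_sq_mul_sq _ _ _).trans ?_
      rw [mul_pow, Real.sq_sqrt (S.dd_bd fr x).2.2.1]
      simp only [sq_abs]
      exact mul_le_mul_of_nonneg_left ((fr.bessel x _).trans (pow_le_pow_left₀ (norm_nonneg _) hx 2))
        (S.dd_bd fr x).2.2.1
    have h3 : |∑ i, fderiv ℝ (Floor_f S ψ δ y) x (fr.s i x) * ⟪fr.s i x, x - y⟫| ≤
        2 * K / δ * (√(S.qq fr x) * t) := by
      refine (Finset.abs_sum_le_sum_abs _ _).trans
        (le_trans ?_ (mul_le_mul_of_nonneg_left h2 (by positivity)))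
      rw [Finset.mul_sum]
      refine Finset.sum_le_sum fun i _ => ?_
      rw [abs_mul, ← mul_assoc]
      exact mul_le_mul_of_nonneg_right (Floor_deriv S hψ h0 hK hδ y x _) (abs_nonneg _)
    rw [Real.norm_eq_abs, abs_mul, abs_of_nonneg (gam_nonneg _)]
    exact (mul_le_mul_of_nonneg_left h3 (gam_nonneg _)).trans_eq (by ring)

theorem Floor_mono (hψ : ContDiff ℝ 3 ψ) (h1 : ∀ t, t ≤ 0 → ψ t = 1) (h0 : ∀ t, 1 ≤ t → ψ t = 0)
    (hb : ∀ t, 0 ≤ ψ t ∧ ψ t ≤ 1) (hK : ∀ t, |deriv ψ t| ≤ K) {δ : ℝ} (hδ : 0 < δ)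
    {μ : Measure (E N)} [IsFiniteMeasure μ] {O : Set (E N)} (h : Stat fr μ O) {y : E N}
    {κ ρ ε : ℝ} (hy : LD m μ y κ) (hρ : 0 < ρ) (hO : closedBall y ρ ⊆ O)
    (hI : ∀ ρ₁ ∈ Ioc 0 ρ, ∫ t in ρ₁..ρ, mkf m μ (fun x => √(S.qq fr x)) y t ≤ ε) :
    κ ≤ mkf m μ (Floor_f S ψ δ y) y ρ + 2 * K / δ * ε := by
  have hK0 : 0 ≤ K := (abs_nonneg _).trans (hK 0)
  obtain ⟨hq, hB⟩ := Floor_q S fr
  have hs := Floor_smooth S hψ δ y
  have h2 := mono_zero h hy hρ hO hs.continuous.measurable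
    (fun x _ => ⟨hs.contDiffAt, (hb _).1⟩)
    (g := fun t => 2 * K / δ * mkf m μ (fun x => √(S.qq fr x)) y t * t ^ (m + 1))
    (G := 2 * K / δ * ε)
    ((continuousOn_const.mul ((Floor_cont μ hq hB y).mono Ioc_subset_Ioi_self)).mul (by fun_prop))
    (fun t ht => Floor_mer S fr hψ h0 hK hδ μ y ht.1) fun ρ₁ hρ₁ => by
      refine le_trans (le_of_eq ?_) (mul_le_mul_of_nonneg_left (hI ρ₁ hρ₁) (by positivity))
      rw [← intervalIntegral.integral_const_mul]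
      refine intervalIntegral.integral_congr fun t ht => ?_
      rw [uIcc_of_le hρ₁.2] at ht
      exact mul_div_cancel_right₀ _ (pow_pos (hρ₁.1.trans_le ht.1) _).ne'
  have h3 : Floor_f S ψ δ y y = 1 := h1 _ (by simp)
  rwa [h3, one_mul] at h2

theorem Floor_sum (h0 : ∀ t, 1 ≤ t → ψ t = 0) (hb : ∀ t, 0 ≤ ψ t ∧ ψ t ≤ 1) {δ : ℝ} (hδ : 0 < δ)
    {y y' : E N} (h : 2 * δ ≤ ‖S.gh y - S.gh y'‖) (x : E N) :
    Floor_f S ψ δ y x + Floor_f S ψ δ y' x ≤ 1 := by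
  have h1 : ∀ z, δ ≤ ‖S.gh x - S.gh z‖ → Floor_f S ψ δ z x = 0 := fun z hz =>
    h0 _ ((one_le_div (by positivity)).2 (pow_le_pow_left₀ hδ.le hz 2))
  rcases le_total δ ‖S.gh x - S.gh y‖ with h2 | h2
  · rw [h1 y h2, zero_add]
    exact (hb _).2
  · have h3 := norm_sub_le (S.gh x - S.gh y') (S.gh x - S.gh y)
    rw [show S.gh x - S.gh y' - (S.gh x - S.gh y) = S.gh y - S.gh y' by abel] at h3
    rw [h1 y' (by linarith), add_zero]
    exact (hb _).2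

end

/-- two points that are not bad have almost the same height -/
theorem Floor_pair (m : ℕ) (A : ℝ) : ∃ C : ℝ, 4 ≤ C ∧ ∀ {N : ℕ} (S : Ref m N) (fr : Fr m N)
    {μ : Measure (E N)} [IsFiniteMeasure μ] {O : Set (E N)}, Stat fr μ O → 0 ≤ A → UB m μ A →
    ∀ s δ : ℝ, 0 < s → 0 < δ → ∃ Bad : Set (E N), MeasurableSet Bad ∧
      (μ Bad).toReal ≤ C * (s / δ * ∫ x, √(S.qq fr x) ∂μ) ∧ ∃ ρ, 0 < ρ ∧ ρ ≤ C * s ∧
      ∀ (Q : ℝ) (y y' : E N), y ∉ Bad → y' ∉ Bad → LD m μ y (Q * cg m) → LD m μ y' (cg m) →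
        closedBall y ρ ⊆ O → closedBall y' ρ ⊆ O → ‖y - y'‖ ≤ 4 * s →
        mk m μ y ρ ≤ (Q + 1 / 1000) * cg m → ‖S.gh y - S.gh y'‖ ≤ 2 * δ := by
  obtain ⟨ψ, K, hK1, hψ, -, h1, h0, hb, hK, -⟩ := exists_trans
  have hc := cg_pos m
  have hC0 : 0 ≤ 480 * |A| / cg m := by positivity
  have hC1 : 0 ≤ |A| * (480 * |A| / cg m + 4) * (20 * K / cg m) := by positivity
  refine ⟨480 * |A| / cg m + 4 + |A| * (480 * |A| / cg m + 4) * (20 * K / cg m), by linarith only [hC0, hC1],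
    fun S fr μ _ O hst hA0 hA s δ hs hδ => ?_⟩
  rw [abs_of_nonneg hA0] at hC0 hC1 ⊢
  obtain ⟨hq, hB⟩ := Floor_q S fr
  have hρ : 0 < (480 * A / cg m + 4) * s := by positivity
  obtain ⟨Bad, hm, hμ, hBad⟩ := Floor_bad hA0 hA hq hB hρ
    (ε := cg m * δ / (20 * K)) (by positivity)
  have hI : 0 ≤ s / δ * ∫ x, √(S.qq fr x) ∂μ :=
    mul_nonneg (by positivity) (integral_nonneg fun x => (hB x).1)
  refine ⟨Bad, hm, hμ.trans ?_, _, hρ, mul_le_mul_of_nonneg_right (by linarith only [hC1]) hs.le,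
    fun Q y y' hy hy' hl hl' hO hO' hd hmk => ?_⟩
  · refine le_trans (le_of_eq ?_) (mul_le_mul_of_nonneg_right
      (show A * (480 * A / cg m + 4) * (20 * K / cg m) ≤ _ by linarith only [hC0]) hI)
    field_simp
  by_contra hcon
  have he : 2 * K / δ * (cg m * δ / (20 * K)) = cg m / 10 := by
    field_simp
    ring
  have h2 := Floor_mono S fr hψ h1 h0 hb hK hδ hst hl hρ hO (hBad y hy)
  have h3 := Floor_mono S fr hψ h1 h0 hb hK hδ hst hl' hρ hO' (hBad y' hy')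
  have hm1 := (Floor_smooth S hψ δ y).continuous.measurable
  have hm2 := (Floor_smooth S hψ δ y').continuous.measurable
  have h4 := Floor_shift hA hm2 (fun x => hb _) hρ hd
    (mul_le_mul_of_nonneg_right (by linarith only [hC0]) hs.le)
  have h5 : 12 * (4 * s) / ((480 * A / cg m + 4) * s) * A ≤ cg m / 10 := by
    rw [div_mul_eq_mul_div, div_le_iff₀ hρ]
    have h6 : cg m / 10 * ((480 * A / cg m + 4) * s) = 48 * A * s + 2 / 5 * (cg m * s) := by
      field_simp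
      ring
    rw [h6]
    nlinarith only [hc, hs, mul_pos hc hs]
  have i1 := Floor_int μ hm1 (fun x => hb _) y hρ
  have i2 := Floor_int μ hm2 (fun x => hb _) y hρ
  have h6 : mkf m μ (Floor_f S ψ δ y) y ((480 * A / cg m + 4) * s) +
      mkf m μ (Floor_f S ψ δ y') y ((480 * A / cg m + 4) * s) ≤
      mk m μ y ((480 * A / cg m + 4) * s) := by
    rw [mkf, mkf, mk, ← mul_add, ← integral_add i1 i2]
    refine mul_le_mul_of_nonneg_left (integral_mono (i1.add i2) (StatC_int μ _ _) fun x => ?_)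
      (by positivity)
    simp only [← add_mul]
    exact mul_le_of_le_one_left (gam_nonneg _) (Floor_sum S h0 hb hδ (not_le.1 hcon).le x)
  rw [he] at h2 h3
  linarith only [hc, hmk, h2, h3, h4, h5, h6]

theorem Floor_th {μ : Measure (E N)} [IsFiniteMeasure μ] (ι : E m →ₗᵢ[ℝ] E N) {s : ℝ} (hs : 0 < s)
    (ν : Measure (E N)) [IsFiniteMeasure ν] :
    (∀ ξ, Integrable (fun x => th s (pr ι x - ξ)) μ) ∧
      Integrable (Function.uncurry fun y x => th s (pr ι x - pr ι y)) (μ.prod ν) := by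
  obtain ⟨C, -, hC⟩ := th_bd m
  have hc : Continuous (th s : E m → ℝ) := (contDiff_th s 0).continuous
  have hb : ∀ v : E m, ‖th s v‖ ≤ C / s ^ m := fun v => by
    rw [Real.norm_eq_abs, abs_of_nonneg (th_nonneg hs v)]
    exact (hC s hs).1 v
  refine ⟨fun ξ => Integrable.of_bound (hc.comp (by fun_prop)).aestronglyMeasurable _
    (ae_of_all _ fun x => hb _), Integrable.of_bound ?_ _ (ae_of_all _ fun x => hb _)⟩
  exact (hc.comp (by fun_prop : Continuous fun p : E N × E N =>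
    pr ι p.2 - pr ι p.1)).aestronglyMeasurable

/-- the distance to the mean at one point -/
theorem Floor_mean (hm : 1 ≤ m) (S : Ref m N) {μ : Measure (E N)} [IsFiniteMeasure μ]
    {Q s T δ κ C : ℝ} (hQ : 1 ≤ Q) (hs : 0 < s) (hδ : 0 ≤ δ) {Bad : Set (E N)}
    (hB : MeasurableSet Bad) {ξ : E m} {h : E N} (hh : ‖h‖ ≤ T) (hκ : |S.mass μ s ξ - Q| ≤ κ)
    (hC : ∫ x, th s (pr S.ι x - ξ) ∂μ ≤ C) (hae : ∀ᵐ x ∂μ, ‖S.gh x‖ ≤ T ∧
      (‖pr S.ι x - ξ‖ < s → x ∉ Bad → ‖h - S.gh x‖ ≤ 2 * δ)) :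
    ‖h - S.mean μ Q s ξ‖ ≤ T * κ + 2 * δ * C + 2 * T * ∫ x in Bad, th s (pr S.ι x - ξ) ∂μ := by
  have hth := (Floor_th (μ := μ) S.ι hs μ).1 ξ
  have hsg : Continuous (sgW S.w) :=
    (contDiff_gW (n := 0) (S.smooth.of_le (by norm_num))).2.2.continuous
  have hs1 : ∀ x, 1 ≤ sgW S.w x := fun x => (sgW_bd _ _).2.1
  have hQ0 : 0 < Q := by linarith
  let a : E N → ℝ := fun x => th s (pr S.ι x - ξ) * (Q * sgW S.w (pr S.ι x))⁻¹
  have ha : ∀ x, 0 ≤ a x ∧ a x ≤ th s (pr S.ι x - ξ) := fun x => by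
    have h1 := hs1 (pr S.ι x)
    exact ⟨mul_nonneg (th_nonneg hs _) (by positivity), mul_le_of_le_one_right (th_nonneg hs _)
      (inv_le_one_of_one_le₀ (one_le_mul_of_one_le_of_one_le hQ h1))⟩
  have hac : Continuous a := ((contDiff_th s 0).continuous.comp (by fun_prop)).mul
    ((continuous_const.mul (hsg.comp (by fun_prop))).inv₀ fun x =>
      (mul_pos hQ0 (zero_lt_one.trans_le (hs1 _))).ne')
  have hai : Integrable a μ := hth.mono' hac.aestronglyMeasurable (ae_of_all _ fun x => by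
    rw [Real.norm_eq_abs, abs_of_nonneg (ha x).1]
    exact (ha x).2)
  have hgi : Integrable (fun x => a x • S.gh x) μ :=
    (hth.mul_const T).mono' (hac.smul (S.gh_calc 0).2.1.continuous).aestronglyMeasurable
      (hae.mono fun x hx => by
        rw [norm_smul, Real.norm_eq_abs, abs_of_nonneg (ha x).1]
        exact mul_le_mul (ha x).2 hx.1 (norm_nonneg _) (th_nonneg hs _))
  have h1 : S.mean μ Q s ξ = ∫ x, a x • S.gh x ∂μ := by simp only [Ref.mean, smul_smul, a]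
  have h2 : S.mass μ s ξ = Q * ∫ x, a x ∂μ := by
    rw [← integral_const_mul, Ref.mass]
    refine integral_congr_ae (ae_of_all _ fun x => ?_)
    have h3 := hs1 (pr S.ι x)
    simp only [a]
    field_simp
  have h3 : h - S.mean μ Q s ξ = (1 - ∫ x, a x ∂μ) • h + ∫ x, a x • (h - S.gh x) ∂μ := by
    simp only [smul_sub]
    rw [integral_sub (hai.smul_const h) hgi, integral_smul_const, h1, sub_smul, one_smul]
    abel
  have h4 : ‖(1 - ∫ x, a x ∂μ) • h‖ ≤ T * κ := by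
    rw [norm_smul, mul_comm T, Real.norm_eq_abs, abs_sub_comm]
    refine mul_le_mul (le_trans ?_ hκ) hh (norm_nonneg _) ((abs_nonneg _).trans hκ)
    rw [h2, ← mul_sub_one, abs_mul, abs_of_pos hQ0]
    exact le_mul_of_one_le_left (abs_nonneg _) hQ
  have hi := (hth.indicator hB).const_mul (2 * T)
  have h5 : ‖∫ x, a x • (h - S.gh x) ∂μ‖ ≤ ∫ x, (2 * δ * th s (pr S.ι x - ξ) +
      2 * T * Bad.indicator (fun x => th s (pr S.ι x - ξ)) x) ∂μ := by
    refine norm_integral_le_of_norm_le ((hth.const_mul _).add hi) (hae.mono fun x hx => ?_)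
    have h6 := th_nonneg hs (pr S.ι x - ξ)
    rw [norm_smul, Real.norm_eq_abs, abs_of_nonneg (ha x).1]
    refine (mul_le_mul_of_nonneg_right (ha x).2 (norm_nonneg _)).trans ?_
    by_cases hb : x ∈ Bad
    · rw [indicator_of_mem hb]
      have h7 : ‖h - S.gh x‖ ≤ 2 * T := (norm_sub_le _ _).trans (by linarith [hx.1])
      have h8 := mul_le_mul_of_nonneg_left h7 h6
      have h9 : 0 ≤ 2 * δ * th s (pr S.ι x - ξ) := by positivity
      linarith
    · rw [indicator_of_notMem hb, mul_zero, add_zero, mul_comm]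
      rcases lt_or_ge ‖pr S.ι x - ξ‖ s with h7 | h7
      · exact mul_le_mul_of_nonneg_right (hx.2 h7 hb) h6
      · rw [th_eq_zero hs h7 hm, mul_zero, mul_zero]
  rw [integral_add (hth.const_mul _) hi, integral_const_mul, integral_const_mul,
    integral_indicator hB] at h5
  have h6 := mul_le_mul_of_nonneg_left hC (by positivity : 0 ≤ 2 * δ)
  rw [h3]
  exact (norm_add_le _ _).trans (by linarith)

theorem Floor_num {x T κ δ C β : ℝ} (hx0 : 0 ≤ x) (hC : 1 ≤ C) (hβ : 0 ≤ β) (hβC : β ≤ C)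
    (h : x ≤ T * κ + 2 * δ * C + 2 * T * β) :
    x ^ 2 ≤ 12 * C ^ 2 * (δ ^ 2 + T ^ 2 * κ ^ 2) + 12 * C * T ^ 2 * β := by
  have h1 : x ^ 2 ≤ 3 * ((T * κ) ^ 2 + (2 * δ * C) ^ 2 + (2 * T * β) ^ 2) :=
    (pow_le_pow_left₀ hx0 h 2).trans (by
      nlinarith only [sq_nonneg (T * κ - 2 * δ * C), sq_nonneg (T * κ - 2 * T * β),
        sq_nonneg (2 * δ * C - 2 * T * β)])
  have h2 : T ^ 2 * β * β ≤ T ^ 2 * β * C := mul_le_mul_of_nonneg_left hβC (by positivity)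
  have h3 : T ^ 2 * κ ^ 2 * 1 ≤ T ^ 2 * κ ^ 2 * C ^ 2 :=
    mul_le_mul_of_nonneg_left (one_le_pow₀ hC) (by positivity)
  have h4 : 0 ≤ T ^ 2 * κ ^ 2 := by positivity
  nlinarith only [h1, h2, h3]

/-- Let `ρ = C s`, `ψ` from `exists_trans`, `f_y x = ψ (‖gh x - gh y‖² / δ²)`, whose derivative along
`s_l` is at most `C ‖q_l‖ / δ` (`gh_calc`), and
`G y = ∫⁻ t in Ioc 0 ρ, C / δ * t ^ (-m) ∫ gam (‖x - y‖² / t²) √(qq x) dμ`. By Tonelli and the mass
bound `∫⁻ G dμ ≤ C ρ / δ ∫ √qq`; let `Bad = {G > cg m / 10}` (Markov).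
By `mono_zero`, `κ - cg m / 10 ≤ mkf f_y y ρ` if `LD m μ y κ` and `y ∉ Bad`. If `y ∈ Gd` and `y'` are
not bad, `‖y - y'‖ ≤ 4 s` and `‖gh y - gh y'‖ ≥ 2 δ`, then `f_y + f_y' ≤ 1`, and moving the centre
from `y'` to `y` costs at most `C A s / ρ ≤ cg m / 10` (`gam_lip`), so
`mk y ρ ≥ (Q + 7 / 10) cg m`, which is false. Hence
`‖gh y - mean (pr y)‖ ≤ T κ + C δ + C T μ (Bad ∩ closedBall y (4 s)) / s ^ m`. -/
theorem Piece.floor (m : ℕ) (hm : 1 ≤ m) (Q : ℕ) (hQ : 1 ≤ Q) (A : ℝ) : ∃ C : ℝ, 1 ≤ C ∧ ∀ {N : ℕ}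
    {S : Ref m N} {fr : Fr m N} {μ : Measure (E N)} {y₀ : E N} {R T : ℝ}, Piece S fr μ y₀ R T A →
    ∀ (Gd : Set (E N)) (s δ κ t : ℝ), MeasurableSet Gd →
    (∀ᵐ y ∂μ, y ∈ Gd → LD m μ y (Q * cg m)) →
    (∀ y ∈ ball y₀ R, ∀ ρ, 0 < ρ → ρ ≤ 1 / 4 → Gen.mk m μ y ρ ≤ ((Q : ℝ) + 1 / 1000) * cg m) →
    T ≤ s → 0 < δ → 0 < t → t + C * s ≤ R → (∀ ξ ∈ S.dom y₀ (t + T), |S.mass μ s ξ - Q| ≤ κ) →
    ∫ y in Gd ∩ ball y₀ t, ‖S.gh y - S.mean μ Q s (pr S.ι y)‖ ^ 2 ∂μ ≤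
      C * (δ ^ 2 + T ^ 2 * κ ^ 2 + T ^ 2 * s / δ * ∫ y, √(S.qq fr y) ∂μ) := by
  obtain ⟨C₀, hC₀, hp⟩ := Floor_pair m A
  obtain ⟨C₁, hC₁, hmean⟩ := Piece.mean_L2 m hm A
  have hA' := abs_nonneg A
  refine ⟨C₀ + 4 + 12 * C₁ ^ 2 * |A| + 16 * C₁ ^ 2 * C₀, by
    have : 0 ≤ 12 * C₁ ^ 2 * |A| + 16 * C₁ ^ 2 * C₀ := by positivity
    linarith, ?_⟩
  intro N S fr μ y₀ R T P Gd s δ κ t hGd hld hup hTs hδ ht hR hκ
  have := P.fin
  have hT := P.T_pos
  have hs : 0 < s := hT.trans_le hTs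
  have hA0 : 0 ≤ A := zero_le_one.trans P.A_ge
  have hQ' : (1 : ℝ) ≤ Q := by exact_mod_cast hQ
  rw [abs_of_nonneg hA0] at hR ⊢
  obtain ⟨Bad, hB, hμ, ρ, hρ, hρs, hpair⟩ := hp S fr P.stat hA0 P.mass s δ hs hδ
  obtain ⟨-, hm2, hm3, -⟩ := hmean P Q s hQ' hTs
  have hR2 : t + 4 * s + ρ ≤ R := by
    have : 0 ≤ (12 * C₁ ^ 2 * A + 16 * C₁ ^ 2 * C₀) * s := by positivity
    nlinarith only [hR, hρs, this]
  have hball : ∀ y, ‖y - y₀‖ < t + 4 * s → closedBall y ρ ⊆ ball y₀ R := fun y hy =>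
    closedBall_subset_ball' (by rw [dist_eq_norm]; linarith)
  obtain ⟨hth, hprod⟩ := Floor_th (μ := μ) S.ι hs (μ.restrict Bad)
  let β : E N → ℝ := fun y => ∫ x in Bad, th s (pr S.ι x - pr S.ι y) ∂μ
  have hβi : Integrable β μ := hprod.integral_prod_left
  have hβ : ∀ y, 0 ≤ β y ∧ β y ≤ C₁ := fun y =>
    ⟨integral_nonneg fun x => th_nonneg hs _, (setIntegral_le_integral (hth _)
      (ae_of_all _ fun x => th_nonneg hs _)).trans (hm3 _)⟩
  have hβI : ∫ y, β y ∂μ ≤ C₁ * (μ Bad).toReal := by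
    rw [integral_integral_swap hprod]
    have h1 : ∀ x, ∫ y, th s (pr S.ι x - pr S.ι y) ∂μ ≤ C₁ := fun x => by
      simpa only [← th_neg s (pr S.ι x - _), neg_sub] using hm3 (pr S.ι x)
    refine (integral_mono_of_nonneg (ae_of_all _ fun x => integral_nonneg fun y => th_nonneg hs _)
      (integrable_const C₁) (ae_of_all _ h1)).trans_eq ?_
    rw [setIntegral_const, smul_eq_mul, mul_comm]
    rfl
  let b : E N → ℝ := fun y => 12 * C₁ ^ 2 * (δ ^ 2 + T ^ 2 * κ ^ 2) + 12 * C₁ * T ^ 2 * β y +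
    Bad.indicator (fun _ => 4 * C₁ ^ 2 * T ^ 2) y
  have hi1 : Integrable (fun y => 12 * C₁ ^ 2 * (δ ^ 2 + T ^ 2 * κ ^ 2) + 12 * C₁ * T ^ 2 * β y) μ :=
    (integrable_const _).add (hβi.const_mul _)
  have hi2 : Integrable (Bad.indicator fun _ => 4 * C₁ ^ 2 * T ^ 2) μ :=
    (integrable_const _).indicator hB
  have hbi : Integrable b μ := hi1.add hi2
  have hb1 : ∀ y, 0 ≤ 12 * C₁ ^ 2 * (δ ^ 2 + T ^ 2 * κ ^ 2) + 12 * C₁ * T ^ 2 * β y := fun y => by
    have := (hβ y).1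
    positivity
  have hb2 : ∀ y, 0 ≤ Bad.indicator (fun _ => 4 * C₁ ^ 2 * T ^ 2) y := fun y =>
    indicator_nonneg (fun _ _ => by positivity) y
  have hpt : ∀ᵐ y ∂μ, y ∈ Gd ∩ ball y₀ t → ‖S.gh y - S.mean μ Q s (pr S.ι y)‖ ^ 2 ≤ b y := by
    filter_upwards [P.ae, hld] with y hy hl hyG
    have hyt := mem_ball_iff_norm.1 hyG.2
    by_cases hyb : y ∈ Bad
    · have h1 : ‖S.gh y - S.mean μ Q s (pr S.ι y)‖ ≤ 2 * C₁ * T := by
        have h2 : T ≤ C₁ * T := le_mul_of_one_le_left hT.le hC₁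
        exact (norm_sub_le _ _).trans (by linarith [hy.2.1, hm2 (pr S.ι y)])
      have h2 := pow_le_pow_left₀ (norm_nonneg _) h1 2
      simp only [b, indicator_of_mem hyb]
      nlinarith only [h2, hb1 y]
    · have h1 : pr S.ι y ∈ S.dom y₀ (t + T) := by
        have h2 := norm_sub_le (y - y₀) (S.gh y)
        rw [show y - y₀ - S.gh y = S.F (pr S.ι y) - y₀ by rw [Ref.gh]; abel] at h2
        exact h2.trans_lt (by linarith [hy.2.1])
      have h2 := Floor_mean hm S hQ' hs hδ.le hB hy.2.1 (hκ _ h1) (hm3 _)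
        (P.ae.mono fun x hx => ⟨hx.2.1, fun h3 h4 => by
          have h5 := (S.F_lip (pr S.ι x) (pr S.ι y)).2.1
          have h6 : y - x = S.gh y - S.gh x - (S.F (pr S.ι x) - S.F (pr S.ι y)) := by
            simp only [Ref.gh]
            abel
          have h7 : ‖y - x‖ ≤ 4 * s := by
            rw [h6]
            refine (norm_sub_le _ _).trans ?_
            linarith only [hTs, hT, hy, hx, h3, h5, norm_sub_le (S.gh y) (S.gh x), hx.2.1, hy.2.1]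
          have h8 := norm_sub_le (y - y₀) (y - x)
          rw [show y - y₀ - (y - x) = x - y₀ by abel] at h8
          exact hpair Q y x hyb h4 (hl hyG.1) hx.2.2 (hball y (by linarith only [hTs, hT, hyt]))
            (hball x (by linarith)) h7 (hup y hy.1 ρ hρ (by linarith only [hTs, ht, hT, hρ, hR2, P.R_le]))⟩)
      exact (Floor_num (norm_nonneg _) hC₁ (hβ y).1 (hβ y).2 h2).trans
        (le_add_of_nonneg_right (hb2 y))
  have h1 := (integral_mono_of_nonneg (ae_of_all _ fun y => sq_nonneg _) hbi.integrableOn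
    ((ae_restrict_iff' (hGd.inter measurableSet_ball)).2 hpt)).trans
    (setIntegral_le_integral hbi (ae_of_all _ fun y => add_nonneg (hb1 y) (hb2 y)))
  rw [integral_add hi1 hi2, integral_add (integrable_const _) (hβi.const_mul _), integral_const,
    integral_const_mul, integral_indicator hB, setIntegral_const, smul_eq_mul, smul_eq_mul] at h1
  have h2 : μ.real univ ≤ A := by
    refine (P.mass_cyl 0 le_rfl).2.2.trans (mul_le_of_le_one_right hA0 (pow_le_one₀ ?_ ?_))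
    · linarith
    · linarith [P.R_le]
  have h3 : μ.real Bad ≤ C₀ * (s / δ * ∫ x, √(S.qq fr x) ∂μ) := hμ
  have hI : 0 ≤ s / δ * ∫ x, √(S.qq fr x) ∂μ :=
    mul_nonneg (by positivity) (integral_nonneg fun x => Real.sqrt_nonneg _)
  have h4 : T ^ 2 * s / δ * ∫ x, √(S.qq fr x) ∂μ = T ^ 2 * (s / δ * ∫ x, √(S.qq fr x) ∂μ) := by ring
  rw [h4]
  generalize s / δ * ∫ x, √(S.qq fr x) ∂μ = J at h3 hI
  have h5 : μ.real univ * (12 * C₁ ^ 2 * (δ ^ 2 + T ^ 2 * κ ^ 2)) ≤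
      A * (12 * C₁ ^ 2 * (δ ^ 2 + T ^ 2 * κ ^ 2)) := mul_le_mul_of_nonneg_right h2 (by positivity)
  have h6 : 12 * C₁ * T ^ 2 * ∫ y, β y ∂μ ≤ 12 * C₁ * T ^ 2 * (C₁ * (C₀ * J)) :=
    mul_le_mul_of_nonneg_left (hβI.trans (mul_le_mul_of_nonneg_left h3 (by positivity)))
      (by positivity)
  have h7 : μ.real Bad * (4 * C₁ ^ 2 * T ^ 2) ≤ C₀ * J * (4 * C₁ ^ 2 * T ^ 2) :=
    mul_le_mul_of_nonneg_right h3 (by positivity)
  have h8 : 0 ≤ (C₀ + 4 + 16 * C₁ ^ 2 * C₀) * (δ ^ 2 + T ^ 2 * κ ^ 2) := by positivity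
  have h9 : 0 ≤ (C₀ + 4 + 12 * C₁ ^ 2 * A) * (T ^ 2 * J) := by positivity
  refine h1.trans ?_
  nlinarith only [h5, h6, h7, h8, h9]

end Pool.Agent.MP_f6c0e6_an.Gen

end
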