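import Pool.Agent.MP_f6c0e6_an.All.FlatB

section

/-! The axis of the tube. -/

set_option autoImplicit false

open MeasureTheory Filter Topology Set Metric
open scoped ENNReal RealInnerProductSpace

namespace Pool.Agent.MP_f6c0e6_an.Gen

variable {m N : ℕ}

/-- Principal axes of a finite measure with bounded support: barycentre `p`, an orthonormal basis
`e` of eigenvectors of the covariance with decreasing eigenvalues `lam`
(`LinearMap.IsSymmetric.eigenvectorBasis`, `eigenvalues_antitone`). -/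
theorem exists_axes {Ω : Type} [MeasurableSpace Ω] (ν : Measure Ω) [IsFiniteMeasure ν]
    {ζ : Ω → E m} (hζ : Measurable ζ) {R : ℝ} (hR : ∀ᵐ y ∂ν, ‖ζ y‖ ≤ R) (h0 : ν univ ≠ 0) :
    ∃ (p : E m) (e : OrthonormalBasis (Fin m) ℝ (E m)) (lam : Fin m → ℝ), ‖p‖ ≤ R ∧ Antitone lam ∧
      (∀ i, 0 ≤ lam i) ∧ ∫ y, (ζ y - p) ∂ν = 0 ∧
      ∀ i j, ∫ y, ⟪e i, ζ y - p⟫ * ⟪e j, ζ y - p⟫ ∂ν = if i = j then lam i else 0 := by
  have hν : 0 < ν.real univ := ENNReal.toReal_pos h0 (measure_ne_top _ _)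
  have iζ : Integrable ζ ν := Integrable.of_bound hζ.aestronglyMeasurable R hR
  obtain ⟨p, hp⟩ : ∃ p : E m, p = (ν.real univ)⁻¹ • ∫ y, ζ y ∂ν := ⟨_, rfl⟩
  have hpR : ‖p‖ ≤ R := by
    rw [hp, norm_smul, norm_inv, Real.norm_of_nonneg hν.le, inv_mul_le_iff₀ hν, mul_comm]
    exact norm_integral_le_of_norm_le_const hR
  have hp0 : ∫ y, (ζ y - p) ∂ν = 0 := by
    rw [integral_sub iζ (integrable_const _), integral_const, hp, smul_inv_smul₀ hν.ne', sub_self]
  have hw : Measurable fun y => ζ y - p := hζ.sub_const p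
  have hb : ∀ᵐ y ∂ν, ‖ζ y - p‖ ≤ R + R :=
    hR.mono fun y hy => (norm_sub_le _ _).trans (add_le_add hy hpR)
  have hi : ∀ v : E m, Integrable (fun y => ⟪v, ζ y - p⟫ • (ζ y - p)) ν := fun v => by
    have hm : Measurable fun y => (⟪v, ζ y - p⟫ : ℝ) := measurable_const.inner hw
    refine Integrable.of_bound (hm.smul hw).aestronglyMeasurable
      (‖v‖ * (R + R) * (R + R)) (hb.mono fun y hy => ?_)
    rw [norm_smul]
    have h1 : ‖⟪v, ζ y - p⟫‖ ≤ ‖v‖ * (R + R) :=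
      (norm_inner_le_norm _ _).trans (mul_le_mul_of_nonneg_left hy (norm_nonneg _))
    exact mul_le_mul h1 hy (norm_nonneg _) ((norm_nonneg _).trans h1)
  let T : E m →ₗ[ℝ] E m :=
    { toFun := fun v => ∫ y, ⟪v, ζ y - p⟫ • (ζ y - p) ∂ν
      map_add' := fun u v => by
        rw [← integral_add (hi u) (hi v)]
        simp only [inner_add_left, add_smul]
      map_smul' := fun c v => by
        simp only [real_inner_smul_left, mul_smul, integral_smul, RingHom.id_apply] }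
  have hT : ∀ u v, ⟪u, T v⟫ = ∫ y, ⟪u, ζ y - p⟫ * ⟪v, ζ y - p⟫ ∂ν := fun u v => by
    change ⟪u, ∫ y, ⟪v, ζ y - p⟫ • (ζ y - p) ∂ν⟫ = _
    rw [← integral_inner (hi v)]
    simp only [real_inner_smul_right, mul_comm]
  have hs : T.IsSymmetric := fun u v => by
    rw [real_inner_comm, hT, hT]
    simp only [mul_comm]
  have hn : Module.finrank ℝ (E m) = m := finrank_euclideanSpace_fin
  have he : ∀ i j, ∫ y, ⟪hs.eigenvectorBasis hn i, ζ y - p⟫ * ⟪hs.eigenvectorBasis hn j, ζ y - p⟫ ∂ν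
      = if i = j then hs.eigenvalues hn i else 0 := fun i j => by
    rw [← hT, hs.apply_eigenvectorBasis, real_inner_smul_right,
      orthonormal_iff_ite.1 (hs.eigenvectorBasis hn).orthonormal]
    split_ifs with h
    · simp [h]
    · simp
  refine ⟨p, hs.eigenvectorBasis hn, hs.eigenvalues hn, hpR, hs.eigenvalues_antitone hn,
    fun i => ?_, hp0, he⟩
  have h := he i i
  rw [if_pos rfl] at h
  rw [← h]
  exact integral_nonneg fun y => mul_self_nonneg _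

theorem TubeB_iso {n : ℕ} {f : Fin n → E m} (hf : Orthonormal ℝ f) :
    ∃ ι : E n →ₗᵢ[ℝ] E m, ∀ i, ι (ev i) = f i := by
  let b := (EuclideanSpace.basisFun (Fin n) ℝ).toBasis
  have hb : ∀ i, b i = ev i := fun i => GCalc_ev i
  have h1 : (b.constr ℝ f : E n →ₗ[ℝ] E m) ∘ b = f := by
    funext i
    simp
  refine ⟨(b.constr ℝ f).isometryOfOrthonormal (v := b)
    (EuclideanSpace.basisFun (Fin n) ℝ).orthonormal (by rw [h1]; exact hf), fun i => ?_⟩
  rw [← hb]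
  exact congrFun h1 i

theorem TubeB_iso_apply {n : ℕ} (ι : E n →ₗᵢ[ℝ] E m) (u : E n) :
    ι u = ∑ i, ⟪ev i, u⟫ • ι (ev i) := by
  conv_lhs => rw [← sum_ev u]
  simp only [map_sum, map_smul]

theorem TubeB_iso_pr {n : ℕ} (ι : E n →ₗᵢ[ℝ] E m) (x : E m) :
    ι (pr ι x) = ∑ i, ⟪ι (ev i), x⟫ • ι (ev i) := by
  rw [TubeB_iso_apply]
  simp only [inner_iota]

/-- the splitting given by the first `k` and the last two vectors of a basis -/
theorem exists_split {k : ℕ} (e : OrthonormalBasis (Fin (k + 2)) ℝ (E (k + 2))) :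
    ∃ S : Split k, (∀ i, S.iw (ev i) = e (Fin.castAdd 2 i)) ∧
      ∀ j, S.ic (ev j) = e (Fin.natAdd k j) := by
  obtain ⟨iw, hw⟩ := TubeB_iso (e.orthonormal.comp (Fin.castAdd 2) (Fin.castAdd_injective k 2))
  obtain ⟨ic, hc⟩ := TubeB_iso (e.orthonormal.comp (Fin.natAdd k) (Fin.natAdd_injective 2 k))
  refine ⟨⟨iw, ic, fun u v => ?_, fun x => ?_⟩, hw, hc⟩
  · rw [TubeB_iso_apply iw, TubeB_iso_apply ic, sum_inner]
    refine Finset.sum_eq_zero fun i _ => ?_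
    rw [inner_sum]
    refine Finset.sum_eq_zero fun j _ => ?_
    rw [real_inner_smul_left, real_inner_smul_right, hw, hc, Function.comp_apply,
      Function.comp_apply, e.orthonormal.2, mul_zero, mul_zero]
    intro h
    have h1 := congrArg Fin.val h
    have h2 := i.2
    simp only [Fin.val_castAdd, Fin.val_natAdd] at h1
    omega
  · rw [TubeB_iso_pr, TubeB_iso_pr]
    simp only [hw, hc, Function.comp_apply]
    rw [← Fin.sum_univ_add fun i => ⟪e i, x⟫ • e i, e.sum_repr']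

/-- The part of the unit ball at distance at most `t` from an affine subspace of dimension `n`
(spanned by `n` vectors of an orthonormal basis) is covered by `C / t ^ n` balls of radius `2 t`
(lattice points `lc t j` in `E n`). -/
theorem cover_plane (n : ℕ) : ∃ C : ℝ, 1 ≤ C ∧ ∀ {m : ℕ} (f : Fin n → E m) (p : E m) (t : ℝ),
    Orthonormal ℝ f → ‖p‖ ≤ 1 → 0 < t → t ≤ 1 → ∃ J : Finset (E m), (J.card : ℝ) ≤ C / t ^ n ∧
      ∀ v : E m, ‖v‖ ≤ 1 → ‖v - p - ∑ i, ⟪f i, v - p⟫ • f i‖ ≤ t → ∃ q ∈ J, ‖v - q‖ < 2 * t := by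
  classical
  have hn : (0 : ℝ) ≤ n := Nat.cast_nonneg n
  refine ⟨(6 * (n + 1) + 1) ^ n, one_le_pow₀ (by linarith only []), fun {m} f p t hf hp ht ht1 => ?_⟩
  obtain ⟨ι, hι⟩ := TubeB_iso hf
  obtain ⟨J, hJ, hc⟩ := Cut_box ht (0 : E n) (R := 3) (by norm_num)
  refine ⟨J.image fun j => p + ι (lc t j), ?_, fun v hv hd => ?_⟩
  · refine le_trans (by exact_mod_cast Finset.card_image_le) (hc.trans ?_)
    rw [← div_pow]
    refine pow_le_pow_left₀ (by positivity) ?_ n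
    rw [le_div_iff₀ ht]
    have : (2 * ((n + 1) / t * 3) + 1) * t = 6 * (n + 1) + t := by field_simp; ring
    rw [this]
    linarith only [ht1]
  · obtain ⟨j, hj⟩ : ∃ j, ‖pr ι (v - p) - lc t j‖ ≤ t / 2 := by
      by_contra hne
      have h := (sum_lp_sq ht ∅ (pr ι (v - p))).2 fun j hj => absurd ⟨j, hj⟩ hne
      simp at h
    have h1 : ‖pr ι (v - p)‖ ≤ 2 :=
      (norm_pr_le ι _).1.trans ((norm_sub_le _ _).trans (by linarith only [hp, hv]))
    have h2 : ‖(0 : E n) - lc t j‖ ≤ 3 := by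
      have := norm_sub_le (pr ι (v - p) - lc t j) (pr ι (v - p))
      rw [show pr ι (v - p) - lc t j - pr ι (v - p) = 0 - lc t j by abel] at this
      linarith only [ht1, hj, h1, this]
    refine ⟨_, Finset.mem_image_of_mem _ (hJ j h2), ?_⟩
    have h3 : v - (p + ι (lc t j)) =
        (v - p - ∑ i, ⟪f i, v - p⟫ • f i) + ι (pr ι (v - p) - lc t j) := by
      rw [map_sub, TubeB_iso_pr]
      simp only [hι]
      abel
    rw [h3]
    refine (norm_add_le _ _).trans_lt ?_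
    rw [ι.norm_map]
    linarith only [ht, hd, hj]

theorem TubeB_bil (ι : E m →ₗᵢ[ℝ] E N) (s : Fin m → E N) :
    ∃ B : E m →ₗ[ℝ] E m →ₗ[ℝ] ℝ, ∀ u v, NF ι s u v = B u v :=
  ⟨LinearMap.mk₂ ℝ (NF ι s) (NF_add ι s) (fun t u v => NF_smul ι s t u v)
    (fun u v v' => by rw [NF_symm, NF_add, NF_symm ι s v, NF_symm ι s v'])
    (fun t u v => by rw [NF_symm, NF_smul, NF_symm ι s v, smul_eq_mul]), fun _ _ => rfl⟩

theorem TubeB_expand (ι : E m →ₗᵢ[ℝ] E N) (s : Fin m → E N)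
    (e : OrthonormalBasis (Fin m) ℝ (E m)) (w u : E m) :
    NF ι s (w - u) (w - u) = NF ι s w w - 2 * ∑ i, ⟪e i, u⟫ * NF ι s w (e i) +
      ∑ i, ∑ j, ⟪e i, u⟫ * ⟪e j, u⟫ * NF ι s (e i) (e j) := by
  obtain ⟨B, hB⟩ := TubeB_bil ι s
  have h1 : B w u = ∑ i, ⟪e i, u⟫ * B w (e i) := by
    conv_lhs => rw [← e.sum_repr' u]
    simp only [map_sum, map_smul, smul_eq_mul]
  have h2 : B u u = ∑ i, ∑ j, ⟪e i, u⟫ * ⟪e j, u⟫ * B (e i) (e j) := by
    have h : B u u = B (∑ i, ⟪e i, u⟫ • e i) (∑ j, ⟪e j, u⟫ • e j) := by rw [e.sum_repr']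
    rw [h, Finset.sum_comm]
    simp only [map_sum, map_smul, LinearMap.sum_apply, LinearMap.smul_apply, smul_eq_mul,
      Finset.mul_sum]
    exact Finset.sum_congr rfl fun i _ => Finset.sum_congr rfl fun j _ => by ring
  have h3 : B u w = B w u := by rw [← hB, ← hB, NF_symm]
  simp only [hB, map_sub, LinearMap.sub_apply]
  rw [h3, ← h1, ← h2]
  ring

/-- the square of the distance to the span of the first vectors of a basis -/
theorem TubeB_dist (e : OrthonormalBasis (Fin m) ℝ (E m)) {n : ℕ} (h : n ≤ m) (w : E m) :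
    ‖w - ∑ i : Fin n, ⟪e (Fin.castLE h i), w⟫ • e (Fin.castLE h i)‖ ^ 2 =
      ∑ j ∈ Finset.univ.filter fun j : Fin m => n ≤ j, ⟪e j, w⟫ * ⟪e j, w⟫ := by
  have h1 : ∑ i : Fin n, ⟪e (Fin.castLE h i), w⟫ • e (Fin.castLE h i) =
      ∑ j ∈ Finset.univ.filter fun j : Fin m => ¬n ≤ j, ⟪e j, w⟫ • e j := by
    refine Finset.sum_bij (fun i _ => Fin.castLE h i) (fun i _ => ?_) (fun i _ j _ hij => ?_)
      (fun j hj => ?_) fun i _ => rfl
    · simp
    · exact Fin.castLE_injective h hij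
    · refine ⟨⟨j, by simpa using hj⟩, Finset.mem_univ _, rfl⟩
  have h2 := Finset.sum_filter_add_sum_filter_not Finset.univ (fun j : Fin m => n ≤ j)
    fun j => ⟪e j, w⟫ • e j
  rw [e.sum_repr'] at h2
  rw [h1, ← eq_sub_iff_add_eq.2 h2, ← real_inner_self_eq_norm_sq, e.orthonormal.inner_sum]
  simp

theorem TubeB_lip {f : E m → ℝ} (hf : Differentiable ℝ f) {K : ℝ} (h : ∀ x, ‖fderiv ℝ f x‖ ≤ K) :
    Lip K f := fun x x' =>
  Convex.norm_image_sub_le_of_norm_fderiv_le (s := univ) (fun y _ => hf y) (fun y _ => h y)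
    convex_univ (mem_univ x') (mem_univ x)

section

variable {Q : ℕ} {A : ℝ} (F : Flat m N Q A)

theorem TubeB_int {a : E m → ℝ} {b c : E m → E m} (ha : Continuous a) (hb : Continuous b)
    (hc : Continuous c) :
    Integrable (fun y => a (F.x y) * F.NN y (b (F.x y)) (c (F.x y))) F.μ := by
  obtain ⟨mx, -, -, -, -, mN, -⟩ := F.measurable_all
  obtain ⟨K, hK⟩ := (isCompact_closedBall (0 : E m) 10).exists_bound_of_continuousOn
    (f := fun x => |a x| * ‖b x‖ * ‖c x‖) (by fun_prop)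
  refine F.integrable_of_bd ((ha.measurable.comp mx).mul
    (mN _ _ (hb.measurable.comp mx) (hc.measurable.comp mx))) (M := m * K) fun y hy _ => ?_
  have h1 := hK (F.x y) (mem_closedBall_zero_iff.2 hy.le)
  rw [Real.norm_of_nonneg (by positivity)] at h1
  have h2 : |F.NN y (b (F.x y)) (c (F.x y))| ≤ F.d y * ‖b (F.x y)‖ * ‖c (F.x y)‖ :=
    (NF_bd F.ι (F.fr.orth y) _ _).2.2.2.1
  obtain ⟨h3, h4⟩ := F.d_bd y
  rw [Real.norm_eq_abs, abs_mul]
  calc |a (F.x y)| * |F.NN y (b (F.x y)) (c (F.x y))|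
      ≤ |a (F.x y)| * (F.d y * ‖b (F.x y)‖ * ‖c (F.x y)‖) :=
        mul_le_mul_of_nonneg_left h2 (abs_nonneg _)
    _ = F.d y * (|a (F.x y)| * ‖b (F.x y)‖ * ‖c (F.x y)‖) := by ring
    _ ≤ m * K := mul_le_mul h4 h1 (by positivity) (Nat.cast_nonneg m)

theorem TubeB_int1 {b c : E m → E m} (hb : Continuous b) (hc : Continuous c) :
    Integrable (fun y => F.NN y (b (F.x y)) (c (F.x y))) F.μ := by
  simpa only [one_mul] using TubeB_int F (a := fun _ => 1) continuous_const hb hc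

theorem TubeB_intd {f : E m → ℝ} (hf : Measurable f) {K : ℝ} (hK : ∀ x, ‖x‖ < 10 → |f x| ≤ K) :
    Integrable (fun y => f (F.x y) * F.d y) F.μ :=
  F.integrable_d.bdd_mul (c := K) (hf.comp F.measurable_all.1).aestronglyMeasurable
    (F.ae.mono fun _ hy => hK _ hy.1)

theorem TubeB_intc {f : E m → ℝ} (hf : Continuous f) :
    Integrable (fun y => f (F.x y) * F.d y) F.μ := by
  obtain ⟨K, hK⟩ := (isCompact_closedBall (0 : E m) 10).exists_bound_of_continuousOn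
    hf.continuousOn
  exact TubeB_intd F hf.measurable fun x hx => hK x (mem_closedBall_zero_iff.2 hx.le)

/-- the inequality of Chebyshev -/
theorem TubeB_cheb {f : E m → ℝ} (hi : Integrable (fun y => f (F.x y) * F.d y) F.μ)
    (h0 : ∀ x, 0 ≤ f x) {Z W : Set (E m)} (hZ : MeasurableSet Z) (hZW : Z ⊆ W) {t : ℝ}
    (ht : ∀ x ∈ Z, t ≤ f x) : t * F.DS Z ≤ ∫ y in F.x ⁻¹' W, f (F.x y) * F.d y ∂F.μ := by
  refine le_trans ?_ (setIntegral_mono_set hi.integrableOn (Eventually.of_forall fun y =>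
    mul_nonneg (h0 _) (F.d_bd y).1) (preimage_mono hZW).eventuallyLE)
  unfold Flat.DS
  rw [← integral_const_mul]
  exact setIntegral_mono_on (F.integrable_d.const_mul t).integrableOn hi.integrableOn
    (F.measurable_all.1 hZ) fun y hy => mul_le_mul_of_nonneg_right (ht _ hy) (F.d_bd y).1

/-- the energy measure over a set -/
noncomputable def TubeB_nu (Z : Set (E m)) : Measure (E m) :=
  ((F.μ.restrict (F.x ⁻¹' Z)).withDensity fun y => ENNReal.ofReal (F.d y)).map F.x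

theorem TubeB_nu_fin (Z : Set (E m)) : IsFiniteMeasure (TubeB_nu F Z) := by
  have := isFiniteMeasure_withDensity_ofReal
    (F.integrable_d.restrict (s := F.x ⁻¹' Z)).hasFiniteIntegral
  unfold TubeB_nu
  infer_instance

theorem TubeB_nu_int (Z : Set (E m)) {f : E m → ℝ} (hf : Measurable f) :
    ∫ x, f x ∂(TubeB_nu F Z) = ∫ y in F.x ⁻¹' Z, f (F.x y) * F.d y ∂F.μ := by
  obtain ⟨mx, -, -, -, md, -⟩ := F.measurable_all
  unfold TubeB_nu
  rw [integral_map mx.aemeasurable hf.aestronglyMeasurable,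
    integral_withDensity_eq_integral_toReal_smul md.ennreal_ofReal
      (Eventually.of_forall fun _ => ENNReal.ofReal_lt_top)]
  refine integral_congr_ae (Eventually.of_forall fun y => ?_)
  simp only [ENNReal.toReal_ofReal (F.d_bd y).1, smul_eq_mul, mul_comm]

theorem TubeB_nu_ae {Z : Set (E m)} (hZ : MeasurableSet Z) : ∀ᵐ x ∂(TubeB_nu F Z), x ∈ Z := by
  have mx := F.measurable_all.1
  unfold TubeB_nu
  refine (ae_map_iff (p := fun x => x ∈ Z) mx.aemeasurable hZ).2 ?_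
  exact withDensity_absolutelyContinuous _ _ (ae_restrict_mem (mx hZ))

theorem TubeB_nu_real {Z W : Set (E m)} (hW : MeasurableSet W) :
    (TubeB_nu F Z).real W = F.DS (W ∩ Z) := by
  have mx := F.measurable_all.1
  rw [← integral_indicator_one hW, TubeB_nu_int F Z (measurable_one.indicator hW)]
  unfold Flat.DS
  rw [preimage_inter, ← Measure.restrict_restrict (mx hW), ← integral_indicator (mx hW)]
  refine integral_congr_ae (Eventually.of_forall fun y => ?_)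
  by_cases hy : F.x y ∈ W
  · simp only [indicator_of_mem hy, indicator_of_mem (mem_preimage.2 hy), Pi.one_apply, one_mul]
  · simp only [indicator_of_notMem hy, indicator_of_notMem (fun h => hy (mem_preimage.1 h)),
      zero_mul]

end

/-- principal axes of a measure in the unit ball -/
structure TubeB_Ax (ν : Measure (E m)) (p : E m) (e : OrthonormalBasis (Fin m) ℝ (E m))
    (lam : Fin m → ℝ) : Prop where
  fin : IsFiniteMeasure ν
  bd : ∀ᵐ x ∂ν, ‖x‖ ≤ 1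
  p_le : ‖p‖ ≤ 1
  anti : Antitone lam
  nonneg : ∀ i, 0 ≤ lam i
  one : ∫ x, (x - p) ∂ν = 0
  two : ∀ i j, ∫ x, ⟪e i, x - p⟫ * ⟪e j, x - p⟫ ∂ν = if i = j then lam i else 0

namespace TubeB_Ax

variable {ν : Measure (E m)} {p : E m} {e : OrthonormalBasis (Fin m) ℝ (E m)} {lam : Fin m → ℝ}

theorem int (h : TubeB_Ax ν p e lam) {G : Type} [NormedAddCommGroup G] {f : E m → G}
    (hf : Continuous f) : Integrable f ν := by
  have := h.fin
  obtain ⟨K, hK⟩ := (isCompact_closedBall (0 : E m) 1).exists_bound_of_continuousOn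
    hf.continuousOn
  exact Integrable.of_bound hf.aestronglyMeasurable K
    (h.bd.mono fun x hx => hK x (mem_closedBall_zero_iff.2 hx))

theorem quad (h : TubeB_Ax ν p e lam) (α : ℝ) (β : Fin m → ℝ) (γ : Fin m → Fin m → ℝ) :
    ∫ x, (α - 2 * ∑ i, ⟪e i, x - p⟫ * β i + ∑ i, ∑ j, ⟪e i, x - p⟫ * ⟪e j, x - p⟫ * γ i j) ∂ν =
      α * ν.real univ + ∑ i, lam i * γ i i := by
  have h1 : ∀ i, ∫ x, ⟪e i, x - p⟫ * β i ∂ν = 0 := fun i => by
    rw [integral_mul_const, integral_inner (h.int (by fun_prop)), h.one, inner_zero_right, zero_mul]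
  have h2 : ∀ i, ∫ x, ∑ j, ⟪e i, x - p⟫ * ⟪e j, x - p⟫ * γ i j ∂ν = lam i * γ i i := fun i => by
    rw [integral_finsetSum _ fun j _ => h.int (by fun_prop)]
    simp only [integral_mul_const, h.two, ite_mul, zero_mul, Finset.sum_ite_eq, Finset.mem_univ,
      if_true]
  rw [integral_add (h.int (by fun_prop)) (h.int (by fun_prop)),
    integral_sub (h.int (by fun_prop)) (h.int (by fun_prop)), integral_const_mul,
    integral_finsetSum _ fun i _ => h.int (by fun_prop),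
    integral_finsetSum _ fun i _ => h.int (by fun_prop), integral_const]
  simp only [h1, h2, Finset.sum_const_zero, mul_zero, sub_zero, smul_eq_mul]
  rw [mul_comm]

theorem mom (h : TubeB_Ax ν p e lam) {n : ℕ} (hn : n ≤ m) (i₀ : Fin m) (hi : (i₀ : ℕ) ≤ n) :
    ∫ x, ‖x - p - ∑ i : Fin n, ⟪e (Fin.castLE hn i), x - p⟫ • e (Fin.castLE hn i)‖ ^ 2 ∂ν ≤
      m * lam i₀ := by
  simp only [TubeB_dist]
  rw [integral_finsetSum _ fun i _ => h.int (by fun_prop)]
  simp only [h.two, if_true]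
  refine (Finset.sum_le_card_nsmul _ _ (lam i₀) fun j hj => h.anti ?_).trans ?_
  · exact hi.trans (Finset.mem_filter.1 hj).2
  · rw [nsmul_eq_mul]
    refine mul_le_mul_of_nonneg_right ?_ (h.nonneg _)
    have := Finset.card_le_univ (Finset.univ.filter fun j : Fin m => n ≤ j)
    rw [Fintype.card_fin] at this
    exact_mod_cast this

/-- a measure that is not concentrated near a plane of dimension `n` -/
theorem lower (n : ℕ) {c K : ℝ} (hc : 0 < c) (hK : 1 ≤ K) : ∃ t c' : ℝ, 0 < t ∧ 0 < c' ∧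
    ∀ {m : ℕ} {ν : Measure (E m)} {p : E m} {e : OrthonormalBasis (Fin m) ℝ (E m)}
      {lam : Fin m → ℝ} (M : ℝ) (i₀ : Fin m), TubeB_Ax ν p e lam → (i₀ : ℕ) = n → 0 ≤ M →
      c * M ≤ ν.real univ → (∀ q, ν.real (ball q t) ≤ K * M * t ^ (n + 1)) →
      c' * M ≤ m * lam i₀ := by
  obtain ⟨C, hC, hcov⟩ := cover_plane n
  obtain ⟨t, ht⟩ : ∃ t : ℝ, t = min 1 (c / (C * K * 2 ^ (n + 2))) := ⟨_, rfl⟩
  have ht0 : 0 < t := by rw [ht]; positivity
  have ht1 : t ≤ 1 := by rw [ht]; exact min_le_left _ _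
  have ht2 : t * (C * K * 2 ^ (n + 2)) ≤ c := by
    rw [← le_div_iff₀ (by positivity), ht]; exact min_le_right _ _
  refine ⟨2 * t, t ^ 2 * c / 2, by positivity, by positivity, ?_⟩
  intro m ν p e lam M i₀ h hi hM h1 h2
  have := h.fin
  have hn : n ≤ m := by rw [← hi]; exact i₀.2.le
  obtain ⟨J, hJ, hcv⟩ := hcov (fun i => e (Fin.castLE hn i)) p t
    (e.orthonormal.comp _ (Fin.castLE_injective hn)) h.p_le ht0 ht1
  obtain ⟨φ, hφ⟩ : ∃ φ : E m → ℝ, φ = fun x =>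
    ‖x - p - ∑ i : Fin n, ⟪e (Fin.castLE hn i), x - p⟫ • e (Fin.castLE hn i)‖ := ⟨_, rfl⟩
  have cφ : Continuous φ := by rw [hφ]; fun_prop
  have mW : MeasurableSet (⋃ q ∈ J, ball q (2 * t)) :=
    Finset.measurableSet_biUnion _ fun _ _ => measurableSet_ball
  have e1 : ν.real (⋃ q ∈ J, ball q (2 * t)) ≤ c * M / 2 := by
    refine (measureReal_biUnion_finset_le _ _).trans
      ((Finset.sum_le_card_nsmul _ _ _ fun q _ => h2 q).trans ?_)
    rw [nsmul_eq_mul]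
    calc (J.card : ℝ) * (K * M * (2 * t) ^ (n + 1)) ≤ C / t ^ n * (K * M * (2 * t) ^ (n + 1)) :=
          mul_le_mul_of_nonneg_right hJ (by positivity)
      _ = t * (C * K * 2 ^ (n + 2)) * M / 2 := by field_simp; ring
      _ ≤ c * M / 2 := by gcongr
  have e2 : c * M / 2 ≤ ν.real (⋃ q ∈ J, ball q (2 * t))ᶜ := by
    rw [measureReal_compl mW]
    linarith only [h1, e1]
  have e3 : ∫ x, (⋃ q ∈ J, ball q (2 * t))ᶜ.indicator (fun _ => t ^ 2) x ∂ν ≤ ∫ x, φ x ^ 2 ∂ν := by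
    refine integral_mono_ae ((integrable_const _).indicator mW.compl) (h.int (cφ.pow 2))
      (h.bd.mono fun x hx => ?_)
    by_cases hx' : x ∈ (⋃ q ∈ J, ball q (2 * t))ᶜ
    · simp only [indicator_of_mem hx']
      refine pow_le_pow_left₀ ht0.le (le_of_not_ge fun hle => hx' ?_) 2
      rw [hφ] at hle
      obtain ⟨q, hq, hq'⟩ := hcv x hx hle
      exact mem_biUnion hq (mem_ball_iff_norm.2 hq')
    · simp only [indicator_of_notMem hx']
      exact sq_nonneg _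
  rw [integral_indicator_const _ mW.compl, smul_eq_mul] at e3
  have e4 := h.mom hn i₀ hi.le
  rw [hφ] at e3
  calc t ^ 2 * c / 2 * M = c * M / 2 * t ^ 2 := by ring
    _ ≤ _ := mul_le_mul_of_nonneg_right e2 (sq_nonneg t)
    _ ≤ _ := e3.trans e4

end TubeB_Ax

section

variable {k Q : ℕ} {A C : ℝ} (T : TI k N Q A C)

theorem TubeB_num : 0 < T.eps ∧ 0 < T.rp ∧ T.eps * T.Λ ≤ (T.rp / 16) ^ (k + 2) ∧
    T.rp * T.Λ ≤ 1 ∧ T.Λ ≤ T.L ∧ T.rp ≤ 1 / 100 ∧ T.eps * T.Λ ≤ 1 ∧ T.eps ≤ (T.rp / 16) ^ k := by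
  obtain ⟨h1, -, -, -, -, h2, -, -, h3, h4, h5, -⟩ := T.num
  have hΛ := T.Λ_ge
  have hΛ1 : 1 ≤ T.Λ := by linarith only [h2, h3, h4, h5, hΛ]
  have hL := T.L_ge
  have hk : 7 + (20 * k + 64) * (k + 2) ≤ P0 k := by
    have a1 : (20 * k + 64) * (k + 2) ≤ (20 * (k + 4)) * (k + 4) :=
      Nat.mul_le_mul (by omega) (by omega)
    have a2 : 4 * 4 ≤ (k + 4) * (k + 4) := Nat.mul_le_mul (by omega) (by omega)
    have a3 : (k + 4) * (k + 4) * 1 ≤ (k + 4) * (k + 4) * (k + 4) :=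
      Nat.mul_le_mul le_rfl (by omega)
    have a4 : P0 k = 1000 * ((k + 4) * (k + 4) * (k + 4)) := by
      unfold P0
      rw [pow_succ, sq]
    rw [mul_assoc] at a1
    omega
  have e1 : T.Λ ^ 7 * (T.Λ ^ (20 * k + 64)) ^ (k + 2) ≤ T.L := by
    rw [← pow_mul, ← pow_add]
    exact (pow_le_pow_right₀ hΛ1 hk).trans hL
  have e2 : (T.Λ ^ (20 * k + 64))⁻¹ ≤ T.rp / 16 := by
    have : (16 : ℝ) ≤ T.Λ ^ 4 := le_trans (by norm_num) (pow_le_pow_left₀ (by norm_num) hΛ 4)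
    unfold TI.rp
    rw [show 20 * k + 64 = 20 * k + 60 + 4 by ring, pow_add, mul_inv, div_eq_mul_inv]
    gcongr
  have e3 : T.eps * T.Λ ≤ (T.rp / 16) ^ (k + 2) := by
    refine le_trans ?_ (pow_le_pow_left₀ (by positivity) e2 _)
    have hL0 : 0 < T.L := lt_of_lt_of_le (by positivity) e1
    unfold TI.eps
    rw [inv_pow, div_mul_eq_mul_div, ← pow_succ, div_le_iff₀ hL0,
      le_inv_mul_iff₀ (by positivity), mul_comm]
    exact e1
  have e4 : T.rp ≤ 1 / 100 := by linarith only [h2, h3, h4, h5]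
  have e5 : T.rp / 16 ≤ 1 := by linarith only [h2, h3, h4, h5]
  have e6 : T.eps ≤ T.eps * T.Λ := le_mul_of_one_le_right h1.le hΛ1
  refine ⟨h1, h2, e3, ?_, ?_, e4, e3.trans (pow_le_one₀ (by positivity) e5),
    e6.trans (e3.trans (pow_le_pow_of_le_one (by positivity) e5 (by omega)))⟩
  · unfold TI.rp
    rw [inv_mul_le_iff₀ (by positivity), mul_one]
    exact le_self_pow₀ hΛ1 (by omega)
  · exact (le_self_pow₀ hΛ1 (by omega)).trans hL

theorem TubeB_bbint : Integrable (fun y => T.bb (T.x y) * T.d y) T.μ :=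
  TubeB_intd T.toFlat T.mb (K := 2) fun x _ => by
    rw [abs_of_nonneg (T.b_bd x).1]; exact (T.b_bd x).2

theorem TubeB_bad {Z : Set (E (k + 2))} (hZ : MeasurableSet Z) (h1 : Z ⊆ ball 0 1) {a : ℝ}
    (ha : ∀ x ∈ Z, a ≤ T.bb x) : a * T.DS Z ≤ T.eps * T.M :=
  (TubeB_cheb T.toFlat (TubeB_bbint T) (fun x => (T.b_bd x).1) hZ h1 ha).trans T.b_int

theorem TubeB_x0 : ∃ x₀ : E (k + 2), ‖x₀‖ < 1 / 2 ∧ T.bb x₀ ≤ 2 / T.Λ ∧ T.bb x₀ ≤ 1 := by
  have hΛ := T.Λ_ge
  have h0 : 2 / T.Λ ≤ 1 := by rw [div_le_one (by linarith)]; exact hΛ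
  by_contra hne
  have h1 := TubeB_bad T (Z := ball 0 (1 / 2)) measurableSet_ball (ball_subset_ball (by norm_num))
    (a := 2 / T.Λ) fun x hx => le_of_not_ge fun h =>
      hne ⟨x, mem_ball_zero_iff.1 hx, h, h.trans h0⟩
  have h2 : 2 / T.Λ * (T.Λ ^ 7 / T.L * T.M) ≤ T.eps * T.M :=
    (mul_le_mul_of_nonneg_left T.big (by positivity)).trans h1
  have h3 : 2 / T.Λ * (T.Λ ^ 7 / T.L * T.M) = 2 * (T.eps * T.M) := by
    unfold TI.eps
    field_simp
  have h4 := mul_pos (TubeB_num T).1 T.M_pos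
  linarith only [h2, h3, h4]

theorem TubeB_le_M {Z : Set (E (k + 2))} (h : Z ⊆ ball 0 1) : T.DS Z ≤ T.M := by
  rw [T.M_eq]
  exact (T.DS_mono (h.trans (ball_subset_ball (by norm_num)))).2

theorem TubeB_up (v : E (k + 2)) (ρ : ℝ) (hρ : T.rp / 16 ≤ ρ) :
    T.DS (ball v ρ ∩ ball 0 1) ≤ C * 2 ^ k * T.M * ρ ^ k := by
  obtain ⟨-, h0, -, -, -, -, -, h1⟩ := TubeB_num T
  have hM := T.M_pos
  have hC := T.C_ge
  have hρ0 : 0 < ρ := lt_of_lt_of_le (by positivity) hρ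
  have h2 : T.M * ρ ^ k ≤ C * 2 ^ k * T.M * ρ ^ k := by
    rw [mul_assoc (C * 2 ^ k)]
    exact le_mul_of_one_le_left (by positivity)
      (one_le_mul_of_one_le_of_one_le hC (one_le_pow₀ one_le_two))
  rcases le_total 1 ρ with h3 | h3
  · exact ((TubeB_le_M T inter_subset_right).trans
      (le_mul_of_one_le_right hM.le (one_le_pow₀ h3))).trans h2
  by_cases h4 : ∃ ξ ∈ ball v ρ ∩ ball 0 1, T.bb ξ ≤ 1
  · obtain ⟨ξ, hξ, h5⟩ := h4
    have h6 := (T.good ξ hξ.2 h5 (2 * ρ) (by change T.rp / 16 ≤ _; linarith only [hρ, hρ0]) (by linarith)).2.1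
    have h7 : ball v ρ ∩ ball 0 1 ⊆ ball ξ (2 * ρ) := by
      refine inter_subset_left.trans (ball_subset_ball' ?_)
      have := mem_ball'.1 hξ.1
      linarith
    refine ((T.DS_mono h7).2.trans h6).trans (le_of_eq ?_)
    rw [mul_pow]
    ring
  · have h5 := TubeB_bad T (Z := ball v ρ ∩ ball 0 1) (measurableSet_ball.inter measurableSet_ball)
      inter_subset_right (a := 1) fun x hx => le_of_not_ge fun h => h4 ⟨x, hx, h⟩
    rw [one_mul] at h5
    refine (h5.trans ?_).trans h2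
    rw [mul_comm]
    exact mul_le_mul_of_nonneg_left (h1.trans (pow_le_pow_left₀ (by positivity) hρ k)) hM.le

/-- the good points -/
def TubeB_G : Set (E (k + 2)) := ball 0 1 ∩ {ξ | T.bb ξ ≤ 1}

theorem TubeB_mG : MeasurableSet (TubeB_G T) :=
  measurableSet_ball.inter (measurableSet_le T.mb measurable_const)

theorem TubeB_diff : T.DS (ball 0 1 \ TubeB_G T) ≤ T.eps * T.M := by
  have h := TubeB_bad T (Z := ball 0 1 \ TubeB_G T) (measurableSet_ball.diff (TubeB_mG T))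
    sdiff_subset (a := 1) fun x hx => le_of_not_ge fun h => hx.2 ⟨hx.1, h⟩
  rwa [one_mul] at h

theorem TubeB_mass (h : C * 2 ^ (k + 1) ≤ T.Λ) :
    (C * 2 ^ (k + 1))⁻¹ * T.M ≤ (TubeB_nu T.toFlat (TubeB_G T)).real univ := by
  obtain ⟨x₀, h1, -, h2⟩ := TubeB_x0 T
  obtain ⟨n1, n2, -, -, -, n3, n4, -⟩ := TubeB_num T
  have hM := T.M_pos
  have hC := T.C_ge
  rw [TubeB_nu_real _ MeasurableSet.univ, univ_inter]
  have h3 := (T.good x₀ (mem_ball_zero_iff.2 (by linarith only [h1, n2, n3])) h2 (1 / 2)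
    (by change T.rp / 16 ≤ _; linarith only [n2, n3]) (by norm_num)).1
  have h4 : ball x₀ (1 / 2) ⊆ TubeB_G T ∪ (ball 0 1 \ TubeB_G T) := by
    rw [union_sdiff_self]
    refine subset_union_of_subset_right (ball_subset_ball' ?_) _
    rw [dist_zero_right]
    linarith only [h1]
  have h5 := (T.DS_mono h4).2.trans
    (T.DS_union_le (TubeB_mG T) (measurableSet_ball.diff (TubeB_mG T)))
  have h6 := TubeB_diff T
  have h7 : T.eps ≤ (C * 2 ^ (k + 1))⁻¹ := by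
    rw [← one_div, le_div_iff₀ (by positivity)]
    exact (mul_le_mul_of_nonneg_left h n1.le).trans n4
  have h8 : 2 * ((C * 2 ^ (k + 1))⁻¹ * T.M) ≤ T.DS (ball x₀ (1 / 2)) := by
    refine le_of_mul_le_mul_left (le_trans (le_of_eq ?_) h3) (by linarith only [n2, n3, hC] : 0 < C)
    rw [one_div, inv_pow]
    field_simp
    ring
  have h9 := mul_le_mul_of_nonneg_right h7 hM.le
  linarith only [h5, h6, h8, h9]

theorem TubeB_key {p : E (k + 2)} {e : OrthonormalBasis (Fin (k + 2)) ℝ (E (k + 2))}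
    {lam : Fin (k + 2) → ℝ} (h : TubeB_Ax (TubeB_nu T.toFlat (TubeB_G T)) p e lam) :
    ∑ i, lam i * ∫ y in T.x ⁻¹' ball 0 1, T.NN y (e i) (e i) ∂T.μ ≤
      C * 2 ^ (k + 2) * T.eps * T.M ^ 2 := by
  obtain ⟨n1, n2, -, -, -, n3, -⟩ := TubeB_num T
  have hM := T.M_pos
  have hC := T.C_ge
  have hq := h.quad (∫ y in T.x ⁻¹' ball 0 1, T.NN y (T.x y - p) (T.x y - p) ∂T.μ)
    (fun i => ∫ y in T.x ⁻¹' ball 0 1, T.NN y (T.x y - p) (e i) ∂T.μ)
    fun i j => ∫ y in T.x ⁻¹' ball 0 1, T.NN y (e i) (e j) ∂T.μ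
  have h0 : 0 ≤ (∫ y in T.x ⁻¹' ball 0 1, T.NN y (T.x y - p) (T.x y - p) ∂T.μ) *
      (TubeB_nu T.toFlat (TubeB_G T)).real univ :=
    mul_nonneg (integral_nonneg fun y => (NF_bd T.ι (T.fr.orth y) _ 0).1) measureReal_nonneg
  have i1 : Integrable (fun y => T.NN y (T.x y - p) (T.x y - p)) T.μ :=
    TubeB_int1 T.toFlat (b := fun x => x - p) (c := fun x => x - p) (by fun_prop) (by fun_prop)
  have i2 : ∀ i, Integrable (fun y => T.NN y (T.x y - p) (e i)) T.μ := fun i =>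
    TubeB_int1 T.toFlat (b := fun x => x - p) (c := fun _ => e i) (by fun_prop) (by fun_prop)
  have i3 : ∀ i j, Integrable (fun y => T.NN y (e i) (e j)) T.μ := fun i j =>
    TubeB_int1 T.toFlat (b := fun _ => e i) (c := fun _ => e j) (by fun_prop) (by fun_prop)
  have ib : Integrable T.bb (TubeB_nu T.toFlat (TubeB_G T)) := by
    have := h.fin
    exact Integrable.of_bound T.mb.aestronglyMeasurable 2 (Eventually.of_forall fun x => by
      rw [Real.norm_of_nonneg (T.b_bd x).1]; exact (T.b_bd x).2)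
  refine le_trans (by linarith only [h0]) (hq.symm.trans_le ((integral_mono_ae (h.int (by fun_prop))
    (ib.const_mul (C * T.M * 2 ^ (k + 2))) ((TubeB_nu_ae _ (TubeB_mG T)).mono
      fun ξ hξ => ?_)).trans ?_))
  · have h1 := (T.good ξ hξ.1 hξ.2 2 (by change T.rp / 16 ≤ _; linarith only [n2, n3]) le_rfl).2.2
    have h2 : ball (0 : E (k + 2)) 1 ⊆ ball ξ 2 := by
      refine ball_subset_ball' ?_
      have := mem_ball'.1 hξ.1
      linarith
    have i4 : Integrable (fun y => T.NN y (T.x y - ξ) (T.x y - ξ)) T.μ :=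
      TubeB_int1 T.toFlat (b := fun x => x - ξ) (c := fun x => x - ξ) (by fun_prop) (by fun_prop)
    have h3 := setIntegral_mono_set (s := T.x ⁻¹' ball 0 1) (t := T.x ⁻¹' ball ξ 2)
      i4.integrableOn (Eventually.of_forall fun y => (NF_bd T.ι (T.fr.orth y) _ 0).1)
      (preimage_mono h2).eventuallyLE
    have h4 : ∀ y, T.NN y (T.x y - ξ) (T.x y - ξ) = T.NN y (T.x y - p) (T.x y - p) -
        2 * ∑ i, ⟪e i, ξ - p⟫ * T.NN y (T.x y - p) (e i) +
        ∑ i, ∑ j, ⟪e i, ξ - p⟫ * ⟪e j, ξ - p⟫ * T.NN y (e i) (e j) := fun y => by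
      have := TubeB_expand T.ι (fun l => T.fr.s l y) e (T.x y - p) (ξ - p)
      rwa [sub_sub_sub_cancel_right] at this
    have j2 : Integrable (fun y => 2 * ∑ i, ⟪e i, ξ - p⟫ * T.NN y (T.x y - p) (e i)) T.μ :=
      (integrable_finsetSum _ fun i _ => (i2 i).const_mul _).const_mul _
    have j3 : ∀ i, Integrable (fun y => ∑ j, ⟪e i, ξ - p⟫ * ⟪e j, ξ - p⟫ * T.NN y (e i) (e j)) T.μ :=
      fun i => integrable_finsetSum _ fun j _ => (i3 i j).const_mul _
    have h5 : ∫ y in T.x ⁻¹' ball 0 1, T.NN y (T.x y - ξ) (T.x y - ξ) ∂T.μ =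
        (∫ y in T.x ⁻¹' ball 0 1, T.NN y (T.x y - p) (T.x y - p) ∂T.μ) -
        2 * ∑ i, ⟪e i, ξ - p⟫ * ∫ y in T.x ⁻¹' ball 0 1, T.NN y (T.x y - p) (e i) ∂T.μ +
        ∑ i, ∑ j, ⟪e i, ξ - p⟫ * ⟪e j, ξ - p⟫ *
          ∫ y in T.x ⁻¹' ball 0 1, T.NN y (e i) (e j) ∂T.μ := by
      have j4 : Integrable (fun y => T.NN y (T.x y - p) (T.x y - p) -
          2 * ∑ i, ⟪e i, ξ - p⟫ * T.NN y (T.x y - p) (e i)) T.μ := i1.sub j2
      simp only [h4]
      rw [integral_add j4.restrict (integrable_finsetSum _ fun i _ => j3 i).restrict,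
        integral_sub i1.restrict j2.restrict, integral_const_mul,
        integral_finsetSum _ fun i _ => ((i2 i).const_mul _).restrict,
        integral_finsetSum _ fun i _ => (j3 i).restrict]
      simp only [integral_const_mul]
      congr 1
      refine Finset.sum_congr rfl fun i _ => ?_
      rw [integral_finsetSum _ fun j _ => ((i3 i j).const_mul _).restrict]
      simp only [integral_const_mul]
    simp only
    rw [← h5]
    exact (h3.trans h1).trans (le_of_eq (by ring))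
  · rw [integral_const_mul, TubeB_nu_int _ _ T.mb]
    have h1 := (setIntegral_mono_set (s := T.x ⁻¹' TubeB_G T) (t := T.x ⁻¹' ball 0 1)
      (TubeB_bbint T).integrableOn (Eventually.of_forall fun y =>
        mul_nonneg (T.b_bd _).1 (T.d_bd y).1) (preimage_mono inter_subset_left).eventuallyLE).trans
      T.b_int
    refine (mul_le_mul_of_nonneg_left h1 (by positivity)).trans (le_of_eq ?_)
    unfold TI.eps
    ring

end

/-- the weight of the stress identity in the direction `u` -/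
noncomputable def TubeB_om (x₀ u x : E m) : ℝ :=
  pk (1 / 2) (x - x₀) - rho (1 / 2) (x - x₀) * ⟪u, x - x₀⟫ ^ 2

theorem TubeB_om_bd (m : ℕ) : ∃ K : ℝ, 1 ≤ K ∧ (∀ v : E m, pk (1 / 2) v ≤ K ∧ rho (1 / 2) v ≤ K) ∧
    ∀ x₀ u : E m, ‖u‖ = 1 → Lip K (TubeB_om x₀ u) ∧ (∀ x, |TubeB_om x₀ u x| ≤ K) ∧
      (∀ x, TubeB_om x₀ u x ≤ pk (1 / 2) (x - x₀)) ∧
      ∀ x, 1 / 2 ≤ ‖x - x₀‖ → TubeB_om x₀ u x = 0 := by
  have hr : (0 : ℝ) < 1 / 2 := by norm_num
  obtain ⟨a, ha⟩ := exists_Bd2 (g := (pk (1 / 2) : E m → ℝ))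
    ((contDiff_pk _).of_le (by norm_num)) (LockB_cpt0 fun v hv => pk_eq_zero hr hv)
  obtain ⟨b, hb⟩ := exists_Bd2 (g := (rho (1 / 2) : E m → ℝ))
    ((contDiff_rho _).of_le (by norm_num)) (Conv_rho hr)
  have ha0 : 0 ≤ a := (norm_nonneg _).trans (ha.b0 0)
  have hb0 : 0 ≤ b := (norm_nonneg _).trans (hb.b0 0)
  have h1 : ∀ v : E m, pk (1 / 2) v ≤ a := fun v => (le_abs_self _).trans (ha.b0 v)
  have h2 : ∀ v : E m, rho (1 / 2) v ≤ b := fun v => (le_abs_self _).trans (hb.b0 v)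
  refine ⟨1 + a + 3 * b, by linarith only [ha0, hb0], fun v => ⟨by linarith only [hb0, h1 v], by linarith only [ha0, hb0, h2 v]⟩,
    fun x₀ u hu => ?_⟩
  have h3 : ∀ v : E m, ‖v‖ ≤ 1 / 2 → |⟪u, v⟫| ≤ 1 := fun v hv => by
    have := abs_real_inner_le_norm u v
    rw [hu] at this
    linarith only [hv, this]
  have h4 : ∀ v : E m, ‖v‖ ≤ 1 / 2 → ⟪u, v⟫ ^ 2 ≤ 1 := fun v hv => by
    rw [sq_le_one_iff_abs_le_one]
    exact h3 v hv
  have hd : ∀ x, HasFDerivAt (TubeB_om x₀ u) (fderiv ℝ (pk (1 / 2)) (x - x₀) -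
      (rho (1 / 2) (x - x₀) • ((2 * ⟪u, x - x₀⟫) • innerSL ℝ u) +
        ⟪u, x - x₀⟫ ^ 2 • fderiv ℝ (rho (1 / 2)) (x - x₀))) x := fun x => by
    have d0 := (hasFDerivAt_id (𝕜 := ℝ) x).sub_const x₀
    have d1 := (((contDiff_pk (m := m) (1 / 2)).differentiable (by norm_num))
      (x - x₀)).hasFDerivAt.comp x d0
    have d2 := (((contDiff_rho (m := m) (1 / 2)).differentiable (by norm_num))
      (x - x₀)).hasFDerivAt.comp x d0
    have d3 := ((innerSL ℝ u).hasFDerivAt.comp x d0).pow 2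
    refine (d1.sub (d2.mul d3)).congr_fderiv ?_
    ext h
    simp
  refine ⟨TubeB_lip (fun x => (hd x).differentiableAt) fun x => ?_, fun x => ?_, fun x => ?_,
    fun x hx => ?_⟩
  · rw [(hd x).fderiv]
    refine (norm_sub_le _ _).trans ?_
    have e1 := ha.b1 (x - x₀)
    by_cases hx : ‖x - x₀‖ ≤ 1 / 2
    · have e2 : ‖rho (1 / 2) (x - x₀) • ((2 * ⟪u, x - x₀⟫) • innerSL ℝ u)‖ ≤ b * 2 := by
        rw [norm_smul, norm_smul, innerSL_apply_norm, hu, mul_one, norm_mul, Real.norm_two]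
        refine mul_le_mul (hb.b0 _) ?_ (by positivity) hb0
        have := h3 _ hx
        rw [Real.norm_eq_abs]
        linarith only [this]
      have e3 : ‖⟪u, x - x₀⟫ ^ 2 • fderiv ℝ (rho (1 / 2)) (x - x₀)‖ ≤ 1 * b := by
        rw [norm_smul, Real.norm_of_nonneg (sq_nonneg _)]
        exact mul_le_mul (h4 _ hx) (hb.b1 _) (norm_nonneg _) zero_le_one
      have e4 := (norm_add_le _ _).trans (add_le_add e2 e3)
      linarith only [e1, e4]
    · rw [not_le] at hx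
      rw [rho_eq_zero hr hx.le, (KernB_ev0 hr hx).fderiv_eq, fderiv_fun_const, Pi.zero_apply,
        zero_smul, smul_zero, add_zero, norm_zero]
      linarith only [hb0, e1]
  · unfold TubeB_om
    have e1 := h1 (x - x₀)
    have e2 := pk_nonneg hr (x - x₀)
    have e3 : 0 ≤ rho (1 / 2) (x - x₀) * ⟪u, x - x₀⟫ ^ 2 :=
      mul_nonneg (rho_nonneg hr _) (sq_nonneg _)
    have e4 : rho (1 / 2) (x - x₀) * ⟪u, x - x₀⟫ ^ 2 ≤ b * 1 := by
      rcases le_total ‖x - x₀‖ (1 / 2) with hx | hx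
      · exact mul_le_mul (h2 _) (h4 _ hx) (sq_nonneg _) hb0
      · rw [rho_eq_zero hr hx, zero_mul]
        linarith only [hb0]
    rw [abs_le]
    constructor <;> linarith only [ha0, hb0, e2, e4, e1, e3]
  · exact sub_le_self _ (mul_nonneg (rho_nonneg hr _) (sq_nonneg _))
  · unfold TubeB_om
    rw [pk_eq_zero hr hx, rho_eq_zero hr hx, zero_mul, sub_zero]

theorem TubeB_id {Q : ℕ} {A : ℝ} (F : Flat m N Q A) {x₀ u : E m} (hx : ‖x₀‖ ≤ 1) (hu : ‖u‖ = 1) :
    F.ee (TubeB_om x₀ u) = ∫ y, (pk (1 / 2) (F.x y - x₀) * F.NN y u u -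
      rho (1 / 2) (F.x y - x₀) * ⟪u, F.x y - x₀⟫ * F.NN y (F.x y - x₀) u) ∂F.μ := by
  have hr : (0 : ℝ) < 1 / 2 := by norm_num
  obtain ⟨V, hV⟩ : ∃ V : E m → E m, V = fun x => (pk (1 / 2) (x - x₀) * ⟪u, x - x₀⟫) • u :=
    ⟨_, rfl⟩
  obtain ⟨g, hg⟩ : ∃ g : E m → E m, g = fun x =>
    pk (1 / 2) (x - x₀) • u + (-(rho (1 / 2) (x - x₀) * ⟪u, x - x₀⟫)) • (x - x₀) := ⟨_, rfl⟩
  have hd : ∀ x, fderiv ℝ V x = (innerSL ℝ (g x)).smulRight u := fun x => by
    have d0 := (hasFDerivAt_id (𝕜 := ℝ) x).sub_const x₀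
    have d1 := (((contDiff_pk (m := m) (1 / 2)).differentiable (by norm_num))
      (x - x₀)).hasFDerivAt.comp x d0
    have d3 := (innerSL ℝ u).hasFDerivAt.comp x d0
    have d4 := ((d1.mul d3).smul_const u).fderiv
    rw [hV]
    refine Eq.trans d4 (ContinuousLinearMap.ext fun h => ?_)
    simp only [ContinuousLinearMap.smulRight_apply, hg, innerSL_apply_apply, inner_add_left,
      real_inner_smul_left, add_apply, smul_apply,
      ContinuousLinearMap.comp_apply, ContinuousLinearMap.id_apply, Function.comp_apply, id,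
      fderiv_pk hr, smul_eq_mul]
    congr 1
    ring
  have hT : Test 1 V (ball 0 10) := by
    have c := LockB_cpt (f := fun v : E m => (pk (1 / 2) v * ⟪u, v⟫) • u) (s := 1 / 2)
      (fun v hv => by rw [pk_eq_zero hr hv, zero_mul, zero_smul]) x₀
    rw [hV]
    refine ⟨?_, c.2, c.1.trans (closedBall_subset_ball' ?_)⟩
    · have c1 : ContDiff ℝ 1 fun x : E m => x - x₀ := contDiff_id.sub contDiff_const
      exact ((((contDiff_pk _).of_le (by norm_num)).comp c1).mul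
        (contDiff_const.inner ℝ c1)).smul contDiff_const
    · rw [dist_zero_right]
      linarith only [hx]
  have h1 : dv V = TubeB_om x₀ u := by
    funext x
    have : dv V x = ⟪g x, u⟫ := by
      rw [← sum_inner_ev]
      simp only [dv, hd, ContinuousLinearMap.smulRight_apply, innerSL_apply_apply,
        real_inner_smul_right, real_inner_comm (g x)]
    rw [this, real_inner_comm, hg]
    simp only [inner_add_right, real_inner_smul_right, real_inner_self_eq_norm_sq, hu, TubeB_om]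
    ring
  rw [← h1, F.ee_dv hT]
  refine integral_congr_ae (Eventually.of_forall fun y => ?_)
  obtain ⟨B, hB⟩ := TubeB_bil F.ι fun l => F.fr.s l y
  have h2 : F.ND y (fderiv ℝ V (F.x y)) = B (g (F.x y)) u := by
    conv_rhs => rw [← sum_ev (g (F.x y))]
    simp only [Flat.ND, Flat.NN, hB, hd, ContinuousLinearMap.smulRight_apply, innerSL_apply_apply,
      map_smul, map_sum, LinearMap.sum_apply, LinearMap.smul_apply, real_inner_comm (g (F.x y))]
  simp only [h2, hg, Flat.NN, hB, map_add, map_smul, LinearMap.add_apply, LinearMap.smul_apply,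
    smul_eq_mul]
  ring

theorem TubeB_pt {P R l d a b t K s : ℝ} (hP : P ≤ K) (hR0 : 0 ≤ R) (hR : R ≤ K) (hl : |l| ≤ 1)
    (ha0 : 0 ≤ a) (ha : a ≤ d) (hb : 0 ≤ b) (ht : t ^ 2 ≤ b * a) (hs : 0 < s) :
    P * d - K * (d - a) - K * (s * b + s⁻¹ * d) ≤ P * a - R * l * t := by
  have h1 : P * (d - a) ≤ K * (d - a) := mul_le_mul_of_nonneg_right hP (by linarith)
  have h2 : |t| ≤ s * b + s⁻¹ * a := by
    refine abs_le_of_sq_le_sq (ht.trans ?_) (by positivity)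
    have e1 : b * a = (s * b) * (s⁻¹ * a) := by field_simp
    rw [e1]
    nlinarith only [hs, hb, ha0, mul_nonneg hs.le hb, mul_nonneg (inv_pos.2 hs).le ha0,
      mul_nonneg (mul_nonneg hs.le hb) (mul_nonneg (inv_pos.2 hs).le ha0)]
  have h3 : s⁻¹ * a ≤ s⁻¹ * d := mul_le_mul_of_nonneg_left ha (inv_pos.2 hs).le
  have h4 : l * t ≤ s * b + s⁻¹ * d := by
    refine (le_abs_self _).trans ?_
    rw [abs_mul]
    exact (mul_le_of_le_one_left (abs_nonneg _) hl).trans (by linarith only [h2, h3])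
  have h5 : R * (l * t) ≤ K * (s * b + s⁻¹ * d) :=
    (mul_le_mul_of_nonneg_left h4 hR0).trans
      (mul_le_mul_of_nonneg_right hR (by have := ha0.trans ha; positivity))
  linarith only [h1, h5]

theorem TubeB_low {Q : ℕ} {A : ℝ} (F : Flat m N Q A) {x₀ u : E m} (hx : ‖x₀‖ ≤ 1 / 2)
    (hu : ‖u‖ = 1) {K s : ℝ} (hK : ∀ v : E m, pk (1 / 2) v ≤ K ∧ rho (1 / 2) v ≤ K) (hs : 0 < s) :
    F.DD (fun x => pk (1 / 2) (x - x₀)) - K * ∫ y in F.x ⁻¹' ball 0 1, (F.d y - F.NN y u u) ∂F.μ -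
      K * (s * ∫ y in F.x ⁻¹' ball x₀ (1 / 2), F.NN y (F.x y - x₀) (F.x y - x₀) ∂F.μ +
        s⁻¹ * F.DS (ball x₀ (1 / 2))) ≤ F.ee (TubeB_om x₀ u) := by
  have hr : (0 : ℝ) < 1 / 2 := by norm_num
  have hK0 : 0 ≤ K := (pk_nonneg hr 0).trans (hK 0).1
  have cp : Continuous fun x : E m => pk (1 / 2) (x - x₀) :=
    (contDiff_pk _).continuous.comp (by fun_prop)
  have cr : Continuous fun x : E m => rho (1 / 2) (x - x₀) :=
    (contDiff_rho _).continuous.comp (by fun_prop)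
  have m1 : MeasurableSet (F.x ⁻¹' ball 0 1) := F.measurable_all.1 measurableSet_ball
  have m2 : MeasurableSet (F.x ⁻¹' ball x₀ (1 / 2)) := F.measurable_all.1 measurableSet_ball
  have i1 := TubeB_intc F cp
  have i2 : Integrable (fun y => F.d y - F.NN y u u) F.μ := F.integrable_d.sub
    (TubeB_int1 F (b := fun _ => u) (c := fun _ => u) continuous_const continuous_const)
  have i3 : Integrable (fun y => F.NN y (F.x y - x₀) (F.x y - x₀)) F.μ :=
    TubeB_int1 F (b := fun x => x - x₀) (c := fun x => x - x₀) (by fun_prop) (by fun_prop)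
  have i4 : Integrable (fun y => s * F.NN y (F.x y - x₀) (F.x y - x₀) + s⁻¹ * F.d y) F.μ :=
    (i3.const_mul s).add (F.integrable_d.const_mul _)
  have i5 : Integrable (fun y => pk (1 / 2) (F.x y - x₀) * F.NN y u u -
      rho (1 / 2) (F.x y - x₀) * ⟪u, F.x y - x₀⟫ * F.NN y (F.x y - x₀) u) F.μ :=
    (TubeB_int F (b := fun _ => u) (c := fun _ => u) cp continuous_const continuous_const).sub
      (TubeB_int F (a := fun x => rho (1 / 2) (x - x₀) * ⟪u, x - x₀⟫) (b := fun x => x - x₀)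
        (c := fun _ => u) (cr.mul (by fun_prop)) (by fun_prop) continuous_const)
  have i6 := (i2.indicator m1).const_mul K
  have i7 := (i4.indicator m2).const_mul K
  have i8 : Integrable (fun y => pk (1 / 2) (F.x y - x₀) * F.d y -
      K * (F.x ⁻¹' ball 0 1).indicator (fun y => F.d y - F.NN y u u) y) F.μ := i1.sub i6
  rw [TubeB_id F (by linarith only [hx]) hu]
  refine le_trans (le_of_eq ?_) (integral_mono (i8.sub i7) i5 fun y => ?_)
  · rw [integral_sub' i8 i7, integral_sub i1 i6, integral_const_mul, integral_const_mul,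
      integral_indicator m1, integral_indicator m2,
      integral_add (i3.const_mul s).restrict (F.integrable_d.const_mul _).restrict,
      integral_const_mul, integral_const_mul]
    rfl
  · obtain ⟨a0, a1, -⟩ := NF_bd F.ι (F.fr.orth y) u u
    obtain ⟨b0, -, b1, -⟩ := NF_bd F.ι (F.fr.orth y) (F.x y - x₀) u
    rw [hu, one_pow, mul_one] at a1
    simp only [Pi.sub_apply]
    by_cases hy : y ∈ F.x ⁻¹' ball x₀ (1 / 2)
    · have h1 : ‖F.x y - x₀‖ < 1 / 2 := mem_ball_iff_norm.1 hy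
      have h2 : y ∈ F.x ⁻¹' ball 0 1 := by
        refine ball_subset_ball' ?_ hy
        rw [dist_zero_right]
        linarith only [hx]
      rw [indicator_of_mem hy, indicator_of_mem h2]
      refine TubeB_pt (hK _).1 (rho_nonneg hr _) (hK _).2 ?_ a0 a1 b0 b1 hs
      have := abs_real_inner_le_norm u (F.x y - x₀)
      rw [hu] at this
      linarith only [h1, this]
    · have h1 : 1 / 2 ≤ ‖F.x y - x₀‖ := le_of_not_gt fun h => hy (mem_ball_iff_norm.2 h)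
      have h2 : 0 ≤ (F.x ⁻¹' ball 0 1).indicator (fun y => F.d y - F.NN y u u) y :=
        indicator_apply_nonneg fun _ => sub_nonneg.2 a1
      rw [indicator_of_notMem hy, pk_eq_zero hr h1, rho_eq_zero hr h1]
      have := mul_nonneg hK0 h2
      linarith only [this]

theorem TubeB_trans (k : ℕ) {C : ℝ} (hC : 1 ≤ C) : ∃ c Λ₀ : ℝ, 0 < c ∧ ∀ {N Q : ℕ} {A : ℝ}
    (T : TI k N Q A C) (u : E (k + 2)), Λ₀ ≤ T.Λ → ‖u‖ = 1 →
    c * T.M ≤ ∫ y in T.x ⁻¹' ball 0 1, (T.d y - T.NN y u u) ∂T.μ := by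
  have hr : (0 : ℝ) < 1 / 2 := by norm_num
  obtain ⟨K, hK, hb, hom⟩ := TubeB_om_bd (k + 2)
  have hcg := cg_pos (k + 2)
  obtain ⟨a, ha⟩ : ∃ a : ℝ, a = (1 / 2) ^ 2 / (50 * cg (k + 2) * (1 / 2) ^ (k + 2)) := ⟨_, rfl⟩
  have ha0 : 0 < a := by rw [ha]; positivity
  obtain ⟨c, hc⟩ : ∃ c : ℝ, c = a * (1 / 4) ^ k / C := ⟨_, rfl⟩
  have hc0 : 0 < c := by rw [hc]; positivity
  obtain ⟨s, hs⟩ : ∃ s : ℝ, s = 8 * K / c := ⟨_, rfl⟩
  have hs0 : 0 < s := by rw [hs]; positivity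
  refine ⟨c / (8 * K), 16 * K * s * C / c + 4 * K / c, by positivity, ?_⟩
  intro N Q A T u hΛ hu
  obtain ⟨x₀, h1, h2, h3⟩ := TubeB_x0 T
  obtain ⟨n1, n2, -, -, n5, n3, n4, -⟩ := TubeB_num T
  obtain ⟨o1, o2, o3, o4⟩ := hom x₀ u hu
  have hM := T.M_pos
  have hΛ2 := T.Λ_ge
  have hx1 : x₀ ∈ ball (0 : E (k + 2)) 1 := mem_ball_zero_iff.2 (by linarith only [h1, n2, n3])
  have hz : ∀ x : E (k + 2), 2 ≤ ‖x‖ → 1 / 2 ≤ ‖x - x₀‖ := fun x hx => by
    have := norm_sub_norm_le x x₀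
    linarith only [h1, n2, n3, hx, this]
  have a1 : Adm fun x : E (k + 2) => pk (1 / 2) (x - x₀) :=
    Adm.of_cont ((contDiff_pk _).continuous.comp (by fun_prop)) (R := 2)
      fun x hx => pk_eq_zero hr (hz x hx)
  have a2 : Adm (TubeB_om x₀ u) := Adm.of_cont o1.continuous (R := 2) fun x hx => o4 x (hz x hx)
  have e1 : c * T.M ≤ T.DD fun x => pk (1 / 2) (x - x₀) := by
    have g1 := (T.good x₀ hx1 h3 (1 / 4) (by change T.rp / 16 ≤ _; linarith only [n2, n3]) (by norm_num)).1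
    have g2 := T.DS_le_DD a1 (fun x => pk_nonneg hr _) (t := a) (Z := ball x₀ (1 / 4))
      measurableSet_ball fun x hx => by
        rw [ha]
        exact pk_ge hr (by have := mem_ball_iff_norm.1 hx; linarith only [this])
    refine le_trans ?_ g2
    rw [hc, div_mul_eq_mul_div, div_le_iff₀ (by linarith only [hC, n2, n3])]
    have g3 := mul_le_mul_of_nonneg_left g1 ha0.le
    linarith only [g3]
  have e2 : -(K * (T.eps * T.M)) ≤ T.Y (TubeB_om x₀ u) := by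
    have g1 := T.g3 (fun x => K⁻¹ * TubeB_om x₀ u x) (fun x x' => by
      rw [← mul_sub, norm_mul, norm_inv, Real.norm_of_nonneg (by linarith only [hK, n2, n3] : 0 ≤ K),
        inv_mul_le_iff₀ (by linarith only [hK, n2, n3]), ← mul_assoc]
      exact (o1 x x').trans (mul_le_mul_of_nonneg_right
        (le_mul_of_one_le_right (by linarith only [hK, n2, n3]) (by linarith only [n2, n5, n3, hΛ2])) (norm_nonneg _))) (fun x => by
      rw [abs_mul, abs_inv, abs_of_nonneg (by linarith only [hK, n2, n3] : 0 ≤ K), inv_mul_le_iff₀ (by linarith only [hK, n2, n3]),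
        mul_one]
      exact o2 x) fun x hx => by rw [o4 x (hz x hx), mul_zero]
    rw [(T.lin_smul _ _).2.2, abs_mul, abs_inv, abs_of_nonneg (by linarith only [hK, n2, n3] : 0 ≤ K),
      inv_mul_le_iff₀ (by linarith only [hK, n2, n3])] at g1
    exact (abs_le.1 g1).1
  have e3 := T.DD_mono a2 a1 o3
  have e4 : T.Y (TubeB_om x₀ u) = T.DD (TubeB_om x₀ u) - 2 * T.ee (TubeB_om x₀ u) := rfl
  have e5 := TubeB_low T.toFlat h1.le hu hb hs0
  have e6 : ∫ y in T.x ⁻¹' ball x₀ (1 / 2), T.NN y (T.x y - x₀) (T.x y - x₀) ∂T.μ ≤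
      C * (2 / T.Λ) * T.M := by
    refine (T.good x₀ hx1 h3 (1 / 2) (by change T.rp / 16 ≤ _; linarith only [n2, n3]) (by norm_num)).2.2.trans ?_
    have := (T.b_bd x₀).1
    refine (mul_le_of_le_one_right (by positivity) (pow_le_one₀ hr.le (by norm_num))).trans ?_
    gcongr
  have e7 : T.DS (ball x₀ (1 / 2)) ≤ T.M := by
    refine TubeB_le_M T (ball_subset_ball' ?_)
    rw [dist_zero_right]
    linarith only [h1]
  have p1 : 0 ≤ 16 * K * s * C / c := by positivity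
  have p2 : 0 ≤ 4 * K / c := by positivity
  have f1 : K * (s * (C * (2 / T.Λ) * T.M)) ≤ c * T.M / 8 := by
    have g1 : 16 * K * s * C ≤ T.Λ * c := by rw [← div_le_iff₀ hc0]; linarith only [hΛ, p2]
    have g2 : K * (s * (C * (2 / T.Λ) * T.M)) = 16 * K * s * C / T.Λ * T.M / 8 := by ring
    have g3 : 16 * K * s * C / T.Λ ≤ c := by rw [div_le_iff₀ (by linarith only [n2, n3, hΛ2])]; linarith only [g1]
    rw [g2]
    gcongr
  have f2 : K * (s⁻¹ * T.M) = c * T.M / 8 := by rw [hs]; field_simp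
  have f3 : K * (T.eps * T.M) ≤ c * T.M / 4 := by
    have g1 : T.eps * (4 * K / c) ≤ 1 :=
      (mul_le_mul_of_nonneg_left (by linarith only [hΛ, p1]) n1.le).trans n4
    rw [← mul_div_assoc, div_le_one hc0] at g1
    have g2 := mul_le_mul_of_nonneg_right g1 hM.le
    linarith only [g2]
  have f4 : K * (s * ∫ y in T.x ⁻¹' ball x₀ (1 / 2), T.NN y (T.x y - x₀) (T.x y - x₀) ∂T.μ +
      s⁻¹ * T.DS (ball x₀ (1 / 2))) ≤ K * (s * (C * (2 / T.Λ) * T.M) + s⁻¹ * T.M) := by gcongr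
  rw [div_mul_eq_mul_div, div_le_iff₀ (by positivity)]
  linarith only [e1, e2, e3, e4, e5, f1, f2, f3, f4]

theorem TubeB_sum {a : ℕ} {lam nn : Fin m → ℝ} (h : Antitone lam) (h0 : ∀ i, 0 ≤ lam i)
    (h1 : ∀ i, 0 ≤ nn i) {φ : Fin a → Fin m} (hφ : Function.Injective φ) {i₀ : Fin m}
    (hi : ∀ i, φ i ≤ i₀) : lam i₀ * ∑ i, nn (φ i) ≤ ∑ j, lam j * nn j := by
  classical
  rw [Finset.mul_sum]
  refine (Finset.sum_le_sum fun i _ => mul_le_mul_of_nonneg_right (h (hi i)) (h1 _)).trans ?_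
  rw [← Finset.sum_image (f := fun j => lam j * nn j) hφ.injOn]
  exact Finset.sum_le_sum_of_subset_of_nonneg (Finset.subset_univ _)
    fun j _ _ => mul_nonneg (h0 j) (h1 j)

theorem TubeB_axis (n : ℕ) {C : ℝ} (hC : 1 ≤ C) : ∃ K Λ₀ : ℝ, 1 ≤ K ∧ ∀ {N Q : ℕ} {A : ℝ}
    (T : TI (n + 1) N Q A C), Λ₀ ≤ T.Λ → ∃ (S : Split (n + 1)) (p : E (n + 1 + 2)),
    ∫ y in T.x ⁻¹' ball 0 1, ∑ i, T.NN y (S.iw (ev i)) (S.iw (ev i)) ∂T.μ ≤ K * T.eps * T.M ∧
    ∫ y in T.x ⁻¹' ball 0 1, ‖vt S.iw (T.x y - p)‖ ^ 2 * T.d y ∂T.μ ≤ K * T.eps * T.M := by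
  obtain ⟨t, c, ht, hc, hlow⟩ := TubeB_Ax.lower n (c := (C * 2 ^ (n + 1 + 1))⁻¹)
    (K := C * 2 ^ (n + 1)) (by positivity)
    (one_le_mul_of_one_le_of_one_le hC (one_le_pow₀ one_le_two))
  obtain ⟨c₃, Λ₃, hc₃, htr⟩ := TubeB_trans (n + 1) hC
  obtain ⟨K, hK⟩ : ∃ K : ℝ, K = ((n + 1 + 2 : ℕ) : ℝ) * (C * 2 ^ (n + 1 + 2)) := ⟨_, rfl⟩
  have hK0 : 0 ≤ K := by rw [hK]; positivity
  have p1 : 0 ≤ K / c := by positivity
  have p2 : 0 ≤ K / c₃ := by positivity
  refine ⟨K / c + K / c₃ + 4, max (max (C * 2 ^ (n + 1 + 1)) Λ₃) t⁻¹, by linarith, ?_⟩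
  intro N Q A T hΛ
  obtain ⟨n1, n2, -, n4, -⟩ := TubeB_num T
  have hM := T.M_pos
  have hεM := mul_pos n1 hM
  have l1 := TubeB_mass T ((le_max_left _ _).trans ((le_max_left _ _).trans hΛ))
  have l2 := fun u => htr T u ((le_max_right _ _).trans ((le_max_left _ _).trans hΛ))
  have l3 : T.rp / 16 ≤ t := by
    have g1 := mul_le_mul_of_nonneg_left ((le_max_right _ _).trans hΛ) n2.le
    have g2 : T.rp * t⁻¹ ≤ 1 := g1.trans n4
    rw [mul_inv_le_iff₀ ht] at g2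
    linarith only [ht, g2]
  have fin := TubeB_nu_fin T.toFlat (TubeB_G T)
  have bd : ∀ᵐ x ∂(TubeB_nu T.toFlat (TubeB_G T)), ‖x‖ ≤ 1 :=
    (TubeB_nu_ae _ (TubeB_mG T)).mono fun x hx => (mem_ball_zero_iff.1 hx.1).le
  obtain ⟨p, e, lam, b1, b2, b3, b4, b5⟩ := exists_axes (TubeB_nu T.toFlat (TubeB_G T))
    measurable_id bd fun h => by
      rw [Measure.real, h, ENNReal.toReal_zero] at l1
      exact absurd l1 (not_le.2 (by positivity))
  have hA : TubeB_Ax (TubeB_nu T.toFlat (TubeB_G T)) p e lam := ⟨fin, bd, b1, b2, b3, b4, b5⟩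
  obtain ⟨S, hS, -⟩ := exists_split e
  have key := TubeB_key T hA
  have nn0 : ∀ i, 0 ≤ ∫ y in T.x ⁻¹' ball 0 1, T.NN y (e i) (e i) ∂T.μ := fun i =>
    integral_nonneg fun y => (NF_bd T.ι (T.fr.orth y) _ 0).1
  have i3 : ∀ i, Integrable (fun y => T.NN y (e i) (e i)) (T.μ.restrict (T.x ⁻¹' ball 0 1)) :=
    fun i => (TubeB_int1 T.toFlat (b := fun _ => e i) (c := fun _ => e i) (by fun_prop)
      (by fun_prop)).restrict
  have hm : (0 : ℝ) ≤ (n + 1 + 2 : ℕ) := Nat.cast_nonneg _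
  refine ⟨S, p, ?_, ?_⟩
  · have g1 := hlow T.M ⟨n, by omega⟩ hA rfl hM.le l1 fun q => by
      rw [TubeB_nu_real _ measurableSet_ball]
      exact (T.DS_mono (inter_subset_inter_right _ inter_subset_left)).2.trans (TubeB_up T q t l3)
    have g2 := (TubeB_sum b2 b3 nn0 (Fin.castAdd_injective (n + 1) 2) (i₀ := ⟨n, by omega⟩)
      fun i => Nat.lt_succ_iff.1 i.2).trans key
    simp only [hS]
    rw [integral_finsetSum _ fun i _ => i3 _]
    have g3 : 0 ≤ ∑ i, ∫ y in T.x ⁻¹' ball 0 1,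
        T.NN y (e (Fin.castAdd 2 i)) (e (Fin.castAdd 2 i)) ∂T.μ :=
      Finset.sum_nonneg fun i _ => nn0 _
    have g4 := (mul_le_mul_of_nonneg_right g1 g3).trans
      ((mul_assoc _ _ _).trans_le (mul_le_mul_of_nonneg_left g2 hm))
    refine le_trans (le_of_mul_le_mul_left (g4.trans_eq ?_) (mul_pos hc hM))
      (b := K / c * (T.eps * T.M)) (by nlinarith only [hεM, p2])
    rw [hK]
    field_simp
  · have g1 := l2 (e (Fin.last _)) (e.orthonormal.1 _)
    have g2 := (TubeB_sum b2 b3 nn0 (Fin.castSucc_injective (n + 1 + 1)) (i₀ := ⟨n + 1, by omega⟩)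
      fun i => Nat.lt_succ_iff.1 i.2).trans key
    have g3 : ∀ y, T.d y - T.NN y (e (Fin.last _)) (e (Fin.last _)) =
        ∑ i : Fin (n + 1 + 1), T.NN y (e i.castSucc) (e i.castSucc) := fun y => by
      have := NF_trace T.ι (T.fr.orth y) e
      rw [Fin.sum_univ_castSucc] at this
      exact (eq_sub_of_add_eq this).symm
    simp only [g3] at g1
    rw [integral_finsetSum _ fun i _ => i3 _] at g1
    have g4 := (mul_le_mul_of_nonneg_left g1 (b3 _)).trans g2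
    have g5 := hA.mom (Nat.le_add_right (n + 1) 2) ⟨n + 1, by omega⟩ le_rfl
    have g6 : ∀ x, vt S.iw (x - p) = x - p - ∑ i : Fin (n + 1),
        ⟪e (Fin.castLE (Nat.le_add_right (n + 1) 2) i), x - p⟫ •
          e (Fin.castLE (Nat.le_add_right (n + 1) 2) i) := fun x => by
      rw [vt, TubeB_iso_pr]
      simp only [hS]
      rfl
    have cf : Continuous fun x => ‖vt S.iw (x - p)‖ ^ 2 :=
      (((contDiff_vt S.iw 0).continuous.comp (by fun_prop)).norm).pow 2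
    simp only [← g6] at g5
    rw [TubeB_nu_int _ _ cf.measurable] at g5
    have g7 : ((n + 1 + 2 : ℕ) : ℝ) * lam ⟨n + 1, by omega⟩ ≤ K / c₃ * (T.eps * T.M) := by
      refine le_of_mul_le_mul_right (((mul_assoc _ _ _).trans_le
        (mul_le_mul_of_nonneg_left g4 hm)).trans_eq ?_) (mul_pos hc₃ hM)
      rw [hK]
      field_simp
    have mx := T.measurable_all.1
    have ii := TubeB_intc T.toFlat cf
    have g8 : ∫ y in T.x ⁻¹' (ball 0 1 \ TubeB_G T), ‖vt S.iw (T.x y - p)‖ ^ 2 * T.d y ∂T.μ ≤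
        4 * T.DS (ball 0 1 \ TubeB_G T) := by
      unfold Flat.DS
      rw [← integral_const_mul]
      refine setIntegral_mono_on ii.integrableOn (T.integrable_d.const_mul _).integrableOn
        (mx (measurableSet_ball.diff (TubeB_mG T))) fun y hy =>
          mul_le_mul_of_nonneg_right ?_ (T.d_bd y).1
      have a1 := (norm_pr_le S.iw (T.x y - p)).2.1
      have a2 := norm_sub_le (T.x y) p
      have a3 := mem_ball_zero_iff.1 hy.1
      exact (pow_le_pow_left₀ (norm_nonneg _) (b := 2) (by linarith only [b1, a1, a2, a3]) 2).trans_eq (by norm_num)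
    have g9 := setIntegral_sdiff (s := T.x ⁻¹' ball 0 1) (mx (TubeB_mG T)) ii.integrableOn
      (preimage_mono inter_subset_left)
    rw [preimage_sdiff, g9] at g8
    have g10 := TubeB_diff T
    nlinarith only [g5, g7, g8, g10, p1, hεM]

theorem TubeB_near {k Q : ℕ} {A C K : ℝ} (T : TI k N Q A C) (S : Split k) {o : E (k + 2)}
    (h : ∫ y in T.x ⁻¹' ball 0 1, ‖vt S.iw (T.x y - o)‖ ^ 2 * T.d y ∂T.μ ≤ K * T.eps * T.M)
    (hΛ : C * K < T.Λ) {ξ : E (k + 2)} (h1 : ‖ξ‖ < 9 / 10) (h2 : T.bb ξ ≤ 1) :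
    ‖vt S.iw (ξ - o)‖ < T.rp / 8 := by
  obtain ⟨n1, n2, n3, -, -, n4, -⟩ := TubeB_num T
  have hM := T.M_pos
  have hC := T.C_ge
  by_contra hge
  rw [not_lt] at hge
  have cf : Continuous fun x => ‖vt S.iw (x - o)‖ ^ 2 :=
    (((contDiff_vt S.iw 0).continuous.comp (by fun_prop)).norm).pow 2
  have g1 := (TubeB_cheb T.toFlat (TubeB_intc T.toFlat cf) (fun x => sq_nonneg _)
    (Z := ball ξ (T.rp / 16)) (W := ball 0 1) measurableSet_ball (ball_subset_ball' (by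
      rw [dist_zero_right]; linarith only [h1, n2, n4])) (t := (T.rp / 16) ^ 2) fun v hv => by
      refine pow_le_pow_left₀ (by positivity) ?_ 2
      have a1 : vt S.iw (ξ - o) = vt S.iw (v - o) + vt S.iw (ξ - v) := by
        rw [← vt_add]
        congr 1
        abel
      have a2 := (norm_pr_le S.iw (ξ - v)).2.1
      have a3 := mem_ball_iff_norm'.1 hv
      have a4 := norm_add_le (vt S.iw (v - o)) (vt S.iw (ξ - v))
      rw [← a1] at a4
      linarith only [hge, a2, a3, a4]).trans h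
  have g2 := (T.good ξ (mem_ball_zero_iff.2 (by linarith only [h1, n2, n4])) h2 (T.rp / 16) le_rfl (by linarith only [n2, n4])).1
  have g3 : T.M * (T.rp / 16) ^ (k + 2) ≤ C * (K * T.eps * T.M) :=
    calc T.M * (T.rp / 16) ^ (k + 2) = T.M * (T.rp / 16) ^ k * (T.rp / 16) ^ 2 := by ring
      _ ≤ C * T.DS (ball ξ (T.rp / 16)) * (T.rp / 16) ^ 2 :=
        mul_le_mul_of_nonneg_right g2 (sq_nonneg _)
      _ = C * ((T.rp / 16) ^ 2 * T.DS (ball ξ (T.rp / 16))) := by ring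
      _ ≤ C * (K * T.eps * T.M) := mul_le_mul_of_nonneg_left g1 (by linarith)
  have g4 := mul_le_mul_of_nonneg_left n3 hM.le
  have g5 := mul_lt_mul_of_pos_right hΛ (mul_pos n1 hM)
  linarith only [g3, g4, g5]

theorem TubeB_prof {χ χ₁ : ℝ → ℝ} {ra rb C C' : ℝ} (h : Profile χ χ₁ ra rb C) (ha : 0 < ra)
    (hb : 0 < rb) (hC : C ≤ C') : Profile χ χ₁ ra rb C' :=
  { h with
    bd' := fun t ht => by
      obtain ⟨h1, h2, h3⟩ := h.bd' t ht
      exact ⟨h1.trans (by gcongr), h2.trans (by gcongr), h3.trans (by gcongr)⟩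
    bd₁ := fun t => ⟨(h.bd₁ t).1, (h.bd₁ t).2.1, (h.bd₁ t).2.2.trans (by gcongr)⟩ }

/-- Let `x₀ ∈ ball 0 (1 / 2)` have `bb x₀ ≤ 1 / Λ` (`big`, `b_int`), let `ν` be the restriction of
`d μ` to the points over `Gd = {ξ ∈ ball 0 1 | bb ξ ≤ 1}`, of mass `M₁ ≥ c M` (`good` at `x₀`,
`ρ = 1 / 2`, and Chebyshev), with axes `p, e, lam`.
1. For `y'` over `ball 0 1`, `∫ N_{y'} (x' - x, x' - x) dν = M₁ N (x' - p, x' - p) +
∑ lam i * N (e i, e i)`; integrate in `y'` and use `good` with `ρ = 2`: each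
`lam i * ∫ N (e i, e i)` is at most `C eps M²`.
2. The `k`-th eigenvalue is at least `c M`: the `t`-neighbourhood of the plane through `p` spanned
by the first `k - 1` vectors has `ν`-mass at most `C M t` (`cover_plane`, `good`), take `t` a small
constant; the second moment with respect to this plane is at most three times this eigenvalue.
3. The `(k + 1)`-th eigenvalue is at most `C eps M`: with `v = x - x₀`, `u` the last vector, `ee_dv`
for `pk (1 / 2) v ⟪v, u⟫ u` reads, with `ω = pk - rho ⟪v, u⟫²`,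
`DD ω / 2 - Y ω / 2 = psi - ∑ (i ≤ k + 1) ∫ pk N (e i, e i) - ∫ rho ⟪v, u⟫ N (u, v)`, so
`c M ≤ psi / 2 ≤ C eps M + C eps M² / lam (k + 1) + C M / √Λ` (`g3`, `psi_cmp`, `NF_bd`).
4. Hence `nw`, `mom` for the axis through `p`; let `o` be the point of the axis nearest to `x₀`.
`out`: a good point at distance at least `rp / 8` from the axis would have
`c M rp ^ k ≤ DS (ball ξ (rp / 16)) ≤ C eps M / rp ^ 2`, which is false; so `bb > 1` there (this
also gives `‖x₀ - o‖ < rp / 8`). `up`: either the set contains a good point or `bb > 1` on it. -/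
theorem exists_Tb (k : ℕ) (hk : 1 ≤ k) (Q : ℕ) (A C : ℝ) : ∃ C' Λ₀ : ℝ, ∀ {N : ℕ}
    (T : TI k N Q A C), Λ₀ ≤ T.Λ → Nonempty (Tb T C') := by
  by_cases hC : 1 ≤ C
  swap
  · exact ⟨1, 1, fun T _ => absurd T.C_ge hC⟩
  obtain ⟨n, rfl⟩ : ∃ n, k = n + 1 := ⟨k - 1, by omega⟩
  obtain ⟨K, Λ₁, hK, hax⟩ := TubeB_axis n hC
  obtain ⟨Cp, hCp, hpr⟩ := exists_profile
  have p1 : 0 ≤ C * 2 ^ (n + 1) := by positivity
  refine ⟨Cp + K + C * 2 ^ (n + 1), max Λ₁ (C * K + 1), fun {N} T hΛ => ?_⟩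
  obtain ⟨S, p, h1, h2⟩ := hax T ((le_max_left _ _).trans hΛ)
  have hΛ' : C * K < T.Λ := by linarith [(le_max_right _ _).trans hΛ]
  obtain ⟨x₀, x1, -, x2⟩ := TubeB_x0 T
  obtain ⟨n1, n2, -, -, -, n3, -⟩ := TubeB_num T
  obtain ⟨-, -, -, -, -, -, -, -, -, n4, n5, -⟩ := T.num
  have hM := T.M_pos
  obtain ⟨χ, χ₁, hχ⟩ := hpr T.ra T.rb (by linarith only [n2, n4]) (by linarith only [n2, n4, n5])
  obtain ⟨o, ho⟩ : ∃ o, o = p + S.iw (pr S.iw (x₀ - p)) := ⟨_, rfl⟩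
  have v1 : ∀ v, vt S.iw (v - o) = vt S.iw (v - p) := fun v => by
    rw [ho, ← sub_sub, vt_sub S.iw (v - p), vt_iota, sub_zero]
  have v2 : vt S.iw (x₀ - o) = x₀ - o := by
    rw [v1, ho, ← sub_sub]
    rfl
  simp only [← v1] at h2
  have v3 := TubeB_near T S h2 hΛ' (ξ := x₀) (by linarith only [x1, n2, n3]) x2
  rw [v2] at v3
  have l1 : K * T.eps * T.M ≤ (Cp + K + C * 2 ^ (n + 1)) * T.eps * T.M := by
    gcongr
    linarith only [hCp, p1, n2, n3]
  refine ⟨⟨S, o, χ, χ₁, by linarith only [hK, hCp, p1, n2, n3], TubeB_prof hχ (by linarith only [n2, n4]) (by linarith) (by linarith only [hK, p1, n2, n3]), ?_,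
    h1.trans l1, h2.trans l1, ?_, fun v ρ hρ => ?_, fun ρ hρ hρ2 => ?_⟩⟩
  · have := norm_sub_le x₀ (x₀ - o)
    rw [sub_sub_cancel] at this
    linarith only [x1, n2, n3, v3, this]
  · have cf : Continuous fun x => ‖vt S.iw (x - o)‖ :=
      ((contDiff_vt S.iw 0).continuous.comp (by fun_prop)).norm
    have h := TubeB_bad T (Z := {v | ‖v‖ < 9 / 10 ∧ T.rp / 8 ≤ ‖vt S.iw (v - o)‖})
      ((measurableSet_lt measurable_norm measurable_const).inter
        (measurableSet_le measurable_const cf.measurable))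
      (fun v hv => mem_ball_zero_iff.2 (by linarith only [n2, n3, hv.1])) (a := 1) fun v hv =>
        le_of_not_ge fun hb => absurd hv.2 (not_le.2 (TubeB_near T S h2 hΛ' hv.1 hb))
    rwa [one_mul] at h
  · have hρ0 : 0 < ρ := lt_of_lt_of_le (by positivity) hρ
    refine (TubeB_up T v ρ hρ).trans ?_
    gcongr
    linarith only [hK, hCp]
  · have g1 := (T.good x₀ (mem_ball_zero_iff.2 (by linarith)) x2 (ρ / 2)
      (by change T.rp / 16 ≤ _; linarith) (by linarith only [n2, n3, hρ2])).1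
    obtain ⟨g2, g3⟩ := T.DS_mono (Z := ball x₀ (ρ / 2)) (Z' := ball o ρ) (ball_subset_ball' (by
      rw [dist_eq_norm]; linarith only [n2, v3, hρ]))
    calc T.M * ρ ^ (n + 1) = 2 ^ (n + 1) * (T.M * (ρ / 2) ^ (n + 1)) := by
          rw [div_pow]; field_simp
      _ ≤ 2 ^ (n + 1) * (C * T.DS (ball x₀ (ρ / 2))) := mul_le_mul_of_nonneg_left g1 (by positivity)
      _ = C * 2 ^ (n + 1) * T.DS (ball x₀ (ρ / 2)) := by ring
      _ ≤ (Cp + K + C * 2 ^ (n + 1)) * T.DS (ball o ρ) :=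
        mul_le_mul (by linarith only [hK, hCp, n2, n3]) g3 g2 (by linarith only [hK, hCp, p1, n2, n3])

end Pool.Agent.MP_f6c0e6_an.Gen

end

section

/-! Geometric bounds in the tube. -/

set_option autoImplicit false

open MeasureTheory Filter Topology Set Metric
open scoped ENNReal RealInnerProductSpace

namespace Pool.Agent.MP_f6c0e6_an.Gen

variable {m N : ℕ}

/-- integration over a finite cover -/
theorem TubeC_cover {Ω I : Type} [MeasurableSpace Ω] (μ : Measure Ω) {S : Set Ω}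
    (hS : MeasurableSet S) {w f : Ω → ℝ} (hw : Integrable w μ) (hw0 : ∀ y, 0 ≤ w y)
    (hf0 : ∀ y ∈ S, 0 ≤ f y) (J : Finset I) {Z : I → Set Ω} (hZ : ∀ j ∈ J, MeasurableSet (Z j))
    {a : I → ℝ} (ha : ∀ j ∈ J, 0 ≤ a j) (h : ∀ y ∈ S, ∃ j ∈ J, y ∈ Z j ∧ f y ≤ a j * w y) :
    ∫ y in S, f y ∂μ ≤ ∑ j ∈ J, a j * ∫ y in Z j, w y ∂μ := by
  have hi : ∀ j ∈ J, Integrable (fun y => a j * (Z j).indicator w y) μ := fun j hj =>
    (hw.indicator (hZ j hj)).const_mul _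
  have hn : ∀ y, ∀ j ∈ J, 0 ≤ a j * (Z j).indicator w y := fun y j hj =>
    mul_nonneg (ha j hj) (indicator_nonneg (fun y _ => hw0 y) y)
  calc ∫ y in S, f y ∂μ = ∫ y, S.indicator f y ∂μ := (integral_indicator hS).symm
    _ ≤ ∫ y, ∑ j ∈ J, a j * (Z j).indicator w y ∂μ := by
        refine integral_mono_of_nonneg (Eventually.of_forall fun y => ?_)
          (integrable_finsetSum J hi) (Eventually.of_forall fun y => ?_)
        · exact indicator_nonneg hf0 y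
        · by_cases hy : y ∈ S
          · obtain ⟨j, hj, hyj, hle⟩ := h y hy
            simp only [indicator_of_mem hy]
            calc f y ≤ a j * (Z j).indicator w y := by rwa [indicator_of_mem hyj]
              _ ≤ _ := Finset.single_le_sum (hn y) hj
          · simp only [indicator_of_notMem hy]
            exact Finset.sum_nonneg (hn y)
    _ = ∑ j ∈ J, a j * ∫ y in Z j, w y ∂μ := by
        rw [integral_finsetSum J hi]
        refine Finset.sum_congr rfl fun j hj => ?_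
        rw [integral_const_mul, integral_indicator (hZ j hj)]

/-- the dyadic scale of a number -/
theorem TubeC_dyad {s r : ℝ} (hs : 0 < s) (n : ℕ) (h : r ≤ 2 ^ n * s) :
    ∃ j ∈ Finset.range (n + 1), r ≤ 2 ^ j * s ∧ 2 ^ j * s ≤ 2 * max r s := by
  induction n with
  | zero =>
    refine ⟨0, by simp, h, ?_⟩
    have := le_max_right r s
    simp only [pow_zero, one_mul]
    linarith
  | succ n ih =>
    by_cases h' : r ≤ 2 ^ n * s
    · obtain ⟨j, hj, h1, h2⟩ := ih h'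
      exact ⟨j, Finset.mem_range.2 (by have := Finset.mem_range.1 hj; omega), h1, h2⟩
    · refine ⟨n + 1, by simp, h, ?_⟩
      have := le_max_left r s
      rw [pow_succ]
      push Not at h'
      linarith

theorem TubeC_geom (n : ℕ) : ∑ j ∈ Finset.range n, ((2 : ℝ) ^ j)⁻¹ ≤ 2 := by
  have : ∀ n : ℕ, ∑ j ∈ Finset.range n, ((2 : ℝ) ^ j)⁻¹ = 2 - 2 * (2 ^ n)⁻¹ := by
    intro n
    induction n with
    | zero => simp
    | succ n ih => rw [Finset.sum_range_succ, ih, pow_succ]; field_simp; ring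
  rw [this]
  have : (0 : ℝ) < (2 ^ n)⁻¹ := by positivity
  linarith only [this]

/-- a natural number comparable to `x` -/
theorem TubeC_nat {x : ℝ} (hx : 1 ≤ x) : ∃ n : ℕ, x ≤ 2 ^ n ∧ (n : ℝ) ≤ 2 * x := by
  refine ⟨⌈x⌉₊, (Nat.le_ceil x).trans ?_, ?_⟩
  · exact_mod_cast (Nat.lt_two_pow_self).le
  · have := Nat.ceil_lt_add_one (by linarith : 0 ≤ x)
    linarith

theorem TubeC_log {L Λ : ℝ} (hL : 1 ≤ L) (h : Real.log L ≤ Λ) (hΛ : 1 ≤ Λ) :
    ∃ n : ℕ, L ≤ 2 ^ n ∧ (n : ℝ) ≤ 4 * Λ := by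
  refine ⟨2 * ⌈Λ⌉₊, ?_, ?_⟩
  · have h1 : L ≤ Real.exp (⌈Λ⌉₊ : ℕ) := by
      calc L = Real.exp (Real.log L) := (Real.exp_log (by linarith)).symm
        _ ≤ _ := Real.exp_le_exp.2 (h.trans (Nat.le_ceil Λ))
    have h2 : Real.exp 1 ≤ 2 ^ 2 := by
      have := Real.exp_one_lt_d9
      linarith only [this]
    rw [← Real.exp_one_pow] at h1
    rw [pow_mul]
    exact h1.trans (pow_le_pow_left₀ (Real.exp_pos 1).le h2 _)
  · have := Nat.ceil_lt_add_one (by linarith : 0 ≤ Λ)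
    push_cast
    linarith only [hΛ, this]

theorem TubeC_pow {k Q : ℕ} {A C : ℝ} (T : TI k N Q A C) {n : ℕ} (hn : n ≤ P0 k) :
    T.Λ ^ n ≤ T.L :=
  (pow_le_pow_right₀ (by linarith only [T.Λ_ge]) hn).trans T.L_ge

theorem TubeC_P0 (k : ℕ) : 2 * (7 + k * (20 * k + 60)) ≤ P0 k ∧ 20 * (k + 2) ≤ P0 k ∧
    1 ≤ P0 k := by
  unfold P0
  have : (k + 4) ^ 3 = k * k * k + 12 * (k * k) + 48 * k + 64 := by ring
  rw [this]
  have h : k * (20 * k + 60) = 20 * (k * k) + 60 * k := by ring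
  rw [h]
  omega

theorem TubeC_num {k Q : ℕ} {A C : ℝ} (T : TI k N Q A C) : T.Λ ≤ T.L ∧ 0 < T.ak ∧
    T.G ≤ T.ak ∧ T.ak * T.L ≤ T.rp ∧ T.ak ≤ T.rp ∧ T.rp ≤ 1 / 10 ^ 12 ∧ T.ra ≤ 1 / 10 ^ 12 ∧
    ∀ c, c ≤ T.Λ → c * T.τ ≤ T.rp := by
  obtain ⟨-, -, -, -, h5, h6, -, -, h9, h10, h11, h12, -, h14, h15, h16, -⟩ := T.num
  have h1 : T.Λ ≤ T.L := by simpa using TubeC_pow T (TubeC_P0 k).2.2
  have h2 : 0 < T.ak := T.τ_pos.trans_le T.τa
  refine ⟨h1, h2, h14.trans h15, h16.trans h5, by nlinarith only [h5, h16, h12, h2], by linarith only [h6, h9, h10, h11], by linarith only [h6, h9, h10, h11],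
    fun c hc => ?_⟩
  have h3 := T.τ_pos
  have h4 := T.τa
  calc c * T.τ ≤ T.L * T.τ := mul_le_mul_of_nonneg_right (hc.trans h1) h3.le
    _ ≤ T.L * T.ak := mul_le_mul_of_nonneg_left h4 (by linarith only [h6, h9, h10, h11, h12])
    _ ≤ T.rp := by linarith

theorem TubeC_meas_pk : Measurable fun q : ℝ × E m => pk q.1 q.2 := by
  have h : Measurable Gam := contDiff_Gam.continuous.measurable
  unfold pk
  fun_prop

theorem TubeC_adm {a b : ℝ} (ha : 0 < a) (hab : a ≤ b) : Adm (Gm a b : E m → ℝ) :=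
  Adm.of_cont (contDiff_Gm ha hab).1.continuous (R := b) fun _ hx => (Gm_eq_zero ha hab hx).1

/-- Fubini in the scale -/
theorem TubeC_Gm {Ω : Type} [MeasurableSpace Ω] (μ : Measure Ω) [IsFiniteMeasure μ] {ζ : Ω → E m}
    (hζ : Measurable ζ) {a b K : ℝ} (ha : 0 < a) (hab : a ≤ b) (hK : 0 ≤ K)
    (h : ∀ r, a ≤ r → r ≤ b → ∫ y, rho r (ζ y) ∂μ ≤ K) : ∫ y, Gm a b (ζ y) ∂μ ≤ K * b ^ 2 := by
  have hcg := cg_pos m
  have hb : 0 < b := ha.trans_le hab
  have hm : Measurable fun q : Ω × ℝ => pk q.2 (ζ q.1) / q.2 :=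
    (TubeC_meas_pk.comp (measurable_snd.prodMk (hζ.comp measurable_fst))).div measurable_snd
  have hi : Integrable (fun q : Ω × ℝ => pk q.2 (ζ q.1) / q.2)
      (μ.prod (volume.restrict (Ioc a b))) := by
    refine Integrable.of_bound hm.aestronglyMeasurable (b ^ 2 / (10 * cg m * a ^ m) / a) ?_
    have : ∀ᵐ q : Ω × ℝ ∂μ.prod (volume.restrict (Ioc a b)), q.2 ∈ Ioc a b :=
      Measure.QuasiMeasurePreserving.ae Measure.quasiMeasurePreserving_snd
        (ae_restrict_mem measurableSet_Ioc)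
    filter_upwards [this] with q hq
    have hq0 : 0 < q.2 := ha.trans hq.1
    rw [Real.norm_eq_abs, abs_of_nonneg (div_nonneg (pk_nonneg hq0 _) hq0.le)]
    have h1 := (pk_le hq0 (ζ q.1)).2
    have h2 := hq.1.le
    have h3 := hq.2
    calc pk q.2 (ζ q.1) / q.2 ≤ q.2 ^ 2 / (10 * cg m * q.2 ^ m) / q.2 := by gcongr
      _ ≤ b ^ 2 / (10 * cg m * a ^ m) / a := by gcongr
  have e : ∫ y, Gm a b (ζ y) ∂μ = ∫ r in Ioc a b, ∫ y, pk r (ζ y) / r ∂μ := by
    rw [← integral_integral_swap hi]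
    refine integral_congr_ae (Eventually.of_forall fun y => ?_)
    simp only [Gm, intervalIntegral.integral_of_le hab]
  rw [e]
  have hle : ∀ r ∈ Ioc a b, ‖∫ y, pk r (ζ y) / r ∂μ‖ ≤ K * b := fun r hr => by
    have hr0 : 0 < r := ha.trans hr.1
    have hir : Integrable (fun y => rho r (ζ y)) μ :=
      Integrable.of_bound ((contDiff_rho r).continuous.measurable.comp hζ).aestronglyMeasurable
        (1 / (cg m * r ^ m)) (Eventually.of_forall fun y => by
          rw [Real.norm_eq_abs, abs_of_nonneg (rho_nonneg hr0 _)]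
          exact rho_le hr0 _)
    rw [Real.norm_eq_abs,
      abs_of_nonneg (integral_nonneg fun y => div_nonneg (pk_nonneg hr0 _) hr0.le)]
    calc ∫ y, pk r (ζ y) / r ∂μ ≤ ∫ y, r * rho r (ζ y) ∂μ := by
          refine integral_mono_of_nonneg
            (Eventually.of_forall fun y => div_nonneg (pk_nonneg hr0 _) hr0.le) (hir.const_mul r)
            (Eventually.of_forall fun y => ?_)
          have h1 := (pk_le hr0 (ζ y)).1
          have h2 := rho_nonneg hr0 (ζ y)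
          have h3 : 0 ≤ r ^ 2 * rho r (ζ y) := by positivity
          show pk r (ζ y) / r ≤ r * rho r (ζ y)
          rw [div_le_iff₀ hr0]
          nlinarith only [h1, h3]
      _ = r * ∫ y, rho r (ζ y) ∂μ := integral_const_mul _ _
      _ ≤ r * K := mul_le_mul_of_nonneg_left (h r hr.1.le hr.2) hr0.le
      _ ≤ K * b := by rw [mul_comm]; exact mul_le_mul_of_nonneg_left hr.2 hK
  have h2 := norm_setIntegral_le_of_norm_le_const (μ := volume) (s := Ioc a b)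
    (f := fun r => ∫ y, pk r (ζ y) / r ∂μ) (by simp) hle
  rw [Real.volume_real_Ioc_of_le hab, Real.norm_eq_abs] at h2
  refine (le_abs_self _).trans (h2.trans ?_)
  have : 0 ≤ K * b := by positivity
  nlinarith only [ha, this]

/-- Fubini for the potential -/
theorem TubeC_fub {Q : ℕ} {A : ℝ} (F : Flat m N Q A) {Ω : Type} [MeasurableSpace Ω]
    (ν : Measure Ω) [SFinite ν] {ζ : Ω → E m} (hζ : Measurable ζ) {S O : Set (E m)}
    (hS : MeasurableSet S) (hO : MeasurableSet O) (hν : ν (ζ ⁻¹' S) ≠ ⊤) (hS1 : S ⊆ ball 0 1)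
    {a b K : ℝ} (ha : 0 < a) (hab : a ≤ b) (hSO : ∀ ξ ∈ S, ∀ v, dist v ξ < b → v ∈ O)
    (hK : ∀ v, ∫ s in ζ ⁻¹' S, Gm a b (v - ζ s) ∂ν ≤ K) :
    ∫ s in ζ ⁻¹' S, F.UU a b (ζ s) ∂ν ≤ K * F.DS O := by
  obtain ⟨hGm, M, hM, -⟩ := TubeC_adm (m := m) ha hab
  have hS' := hζ hS
  set f : Ω → E m → ℝ := fun s x => (ζ ⁻¹' S).indicator (fun s => Gm a b (x - ζ s)) s with hf
  have hfm : Measurable fun q : Ω × E m => f q.1 q.2 := by
    have : (fun q : Ω × E m => f q.1 q.2) =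
        (Prod.fst ⁻¹' (ζ ⁻¹' S)).indicator fun q => Gm a b (q.2 - ζ q.1) := by
      ext q
      by_cases hq : q.1 ∈ ζ ⁻¹' S
      · rw [indicator_of_mem (show q ∈ Prod.fst ⁻¹' (ζ ⁻¹' S) from hq)]
        exact indicator_of_mem hq _
      · rw [indicator_of_notMem (show q ∉ Prod.fst ⁻¹' (ζ ⁻¹' S) from hq)]
        exact indicator_of_notMem hq _
    rw [this]
    exact (hGm.comp (measurable_snd.sub (hζ.comp measurable_fst))).indicator (measurable_fst hS')
  have hz : ∀ s x, (ζ s ∈ S → b ≤ dist x (ζ s)) → f s x = 0 := fun s x h => by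
    by_cases hs : s ∈ ζ ⁻¹' S
    · simp only [hf, indicator_of_mem hs]
      exact (Gm_eq_zero ha hab (by rw [← dist_eq_norm]; exact h hs)).1
    · simp only [hf, indicator_of_notMem hs]
  obtain ⟨h1, -, -, -, h2, -⟩ := F.lin_integral ν hfm (M := (ζ ⁻¹' S).indicator fun _ => M)
    ((integrable_indicator_iff hS').2 (integrableOn_const hν)) (fun s x => by
      by_cases hs : s ∈ ζ ⁻¹' S
      · simp only [hf, indicator_of_mem hs, hM]
      · simp only [hf, indicator_of_notMem hs, abs_zero, le_refl]) (R := 1 + b) fun s x hx =>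
    hz s x fun hs => by
      have := mem_ball_zero_iff.1 (hS1 hs)
      rw [dist_eq_norm]
      linarith [norm_sub_norm_le x (ζ s)]
  have e : ∫ s in ζ ⁻¹' S, F.UU a b (ζ s) ∂ν = ∫ s, F.DD (f s) ∂ν := by
    rw [← integral_indicator hS']
    refine integral_congr_ae (Eventually.of_forall fun s => ?_)
    by_cases hs : s ∈ ζ ⁻¹' S
    · simp only [hf, indicator_of_mem hs, Flat.UU]
    · simp only [hf, indicator_of_notMem hs, Flat.DD, zero_mul, integral_zero]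
  rw [e, ← h2]
  refine (le_abs_self _).trans (F.abs_DD_le h1.1 (fun x => ?_) hO fun x hx => ?_)
  · simp only [hf]
    rw [integral_indicator hS', abs_of_nonneg (integral_nonneg fun s => (Gm_nonneg ha hab _).1)]
    exact hK x
  · have : ∀ s, f s x = 0 := fun s => hz s x fun hs => not_lt.1 fun h => hx (hSO _ hs x h)
    simp only [this, integral_zero]

theorem TubeC_rho {Q : ℕ} {A : ℝ} (F : Flat m N Q A) (S : Set (E N)) (v : E m) {r t : ℝ}
    (hr : 0 < r) (ht : 1 ≤ t) (hτ : F.τ ≤ t * r) :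
    ∫ y in S, rho r (v - F.x y) ∂F.μ ≤ t ^ m * (A * 2 ^ m / cg m) := by
  have hs : 0 < t * r := by positivity
  have hi : Integrable (fun y => rho (t * r) (F.x y - v)) F.μ :=
    F.integrable_of_bd
      ((contDiff_rho _).continuous.measurable.comp (F.measurable_all.1.sub_const v))
      (M := 1 / (cg m * (t * r) ^ m)) fun y _ _ => by
        rw [Real.norm_eq_abs, abs_of_nonneg (rho_nonneg hs _)]
        exact rho_le hs _
  calc ∫ y in S, rho r (v - F.x y) ∂F.μ ≤ ∫ y in S, t ^ m * rho (t * r) (F.x y - v) ∂F.μ := by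
        refine integral_mono_of_nonneg (Eventually.of_forall fun y => rho_nonneg hr _)
          (hi.const_mul _).integrableOn (Eventually.of_forall fun y => ?_)
        have := rho_le_rho hr (le_mul_of_one_le_left hr.le ht) (F.x y - v)
        rw [mul_div_assoc, div_self hr.ne', mul_one] at this
        show rho r (v - F.x y) ≤ _
        rwa [← neg_sub, rho_neg]
    _ = t ^ m * ∫ y in S, rho (t * r) (F.x y - v) ∂F.μ := integral_const_mul _ _
    _ ≤ _ := mul_le_mul_of_nonneg_left ((setIntegral_le_integral hi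
        (Eventually.of_forall fun y => rho_nonneg hs _)).trans (F.integral_rho_le v hτ))
        (by positivity)

theorem TubeC_mu {k Q : ℕ} {A C : ℝ} (T : TI k N Q A C) (S : Set (E N)) (v : E (k + 2)) :
    ∫ y in S, Gm T.G (30 * T.rp) (v - T.x y) ∂T.μ ≤
      901 * (A * 2 ^ (k + 2) / cg (k + 2)) * T.rp ^ 2 := by
  obtain ⟨-, hak, hGa, hL', harp, -⟩ := TubeC_num T
  obtain ⟨-, -, -, -, -, hrp, -, -, -, -, -, hL, -⟩ := T.num
  have hG := T.G_pos
  have hΛ := T.Λ_ge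
  have hA := T.A_ge
  have hcg := cg_pos (k + 2)
  set K := A * 2 ^ (k + 2) / cg (k + 2) with hK
  have hK0 : 0 ≤ K := by positivity
  have hζ : Measurable fun y => v - T.x y := T.measurable_all.1.const_sub v
  have h30 : T.ak ≤ 30 * T.rp := by linarith only [hak, harp]
  have hi : ∀ a b, 0 < a → a ≤ b → IntegrableOn (fun y => Gm a b (v - T.x y)) S T.μ := by
    intro a b ha hab
    obtain ⟨hm, M, hM, -⟩ := TubeC_adm (m := k + 2) ha hab
    exact (T.integrable_of_bd (hm.comp hζ) (M := M) fun y _ _ => hM _).integrableOn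
  have h20 : 1 ≤ T.Λ ^ 20 := one_le_pow₀ (by linarith)
  have h1 := TubeC_Gm (T.μ.restrict S) hζ hG hGa (K := (T.Λ ^ 20) ^ (k + 2) * K) (by positivity)
    fun r h _ => TubeC_rho T.toFlat S v (hG.trans_le h) h20 (T.τG.trans (by gcongr))
  have h2 := TubeC_Gm (T.μ.restrict S) hζ hak h30 (K := 1 ^ (k + 2) * K) (by positivity)
    fun r h _ => TubeC_rho T.toFlat S v (hak.trans_le h) le_rfl (by linarith [T.τa])
  have h3 : (T.Λ ^ 20) ^ (k + 2) * T.ak ^ 2 ≤ T.rp ^ 2 := by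
    rw [← pow_mul]
    calc T.Λ ^ (20 * (k + 2)) * T.ak ^ 2 ≤ T.L ^ 2 * T.ak ^ 2 := by
          refine mul_le_mul_of_nonneg_right ((TubeC_pow T (TubeC_P0 k).2.1).trans ?_) (sq_nonneg _)
          nlinarith only [hL]
      _ = (T.ak * T.L) ^ 2 := by ring
      _ ≤ T.rp ^ 2 := by gcongr
  have e : ∫ y in S, Gm T.G (30 * T.rp) (v - T.x y) ∂T.μ =
      ∫ y in S, Gm T.G T.ak (v - T.x y) ∂T.μ + ∫ y in S, Gm T.ak (30 * T.rp) (v - T.x y) ∂T.μ := by
    rw [← integral_add (hi _ _ hG hGa) (hi _ _ hak h30)]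
    exact integral_congr_ae (Eventually.of_forall fun y => (Gm_add hG hGa h30 _).1)
  rw [e]
  rw [one_pow, one_mul] at h2
  have h4 := mul_le_mul_of_nonneg_left h3 hK0
  nlinarith only [h1, h2, h4]

namespace Tb

theorem TubeC_sub {k Q : ℕ} {A C C' : ℝ} {T : TI k N Q A C} (B : Tb T C') {v ξ : E (k + 2)}
    {r r' : ℝ} (hξ : ξ ∈ thickening r B.Sh) (hv : dist v ξ < r') (h : r + r' ≤ T.ra / 4) :
    v ∈ B.Out := by
  obtain ⟨z, hz, hd⟩ := mem_thickening_iff.1 hξ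
  refine B.shell_sub.2.1 (mem_thickening_iff.2 ⟨z, hz, ?_⟩)
  linarith only [hv, h, hd, dist_triangle v ξ z]

theorem TubeC_pot {k Q : ℕ} {A C C' : ℝ} {T : TI k N Q A C} (B : Tb T C') (c : ℕ → E (k + 2))
    {s : ℝ} (hs : T.rp / 16 ≤ s) (n p : ℕ) {S : Set (E N)} (hS : MeasurableSet S) {f : E N → ℝ}
    (hf0 : ∀ y ∈ S, 0 ≤ f y) (h : ∀ y ∈ S, ∃ j ∈ Finset.range n,
      T.x y ∈ ball (c j) (2 * (2 ^ j * s)) ∩ ball 0 1 ∧ f y ≤ (2 / (2 ^ j * s)) ^ p * T.d y) :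
    ∫ y in S, f y ∂T.μ ≤
      ∑ j ∈ Finset.range n, (2 / (2 ^ j * s)) ^ p * (C' * T.M * (2 * (2 ^ j * s)) ^ k) := by
  have hrp := T.num.2.2.2.2.2.1
  have hs0 : 0 < s := by linarith only [hs, hrp]
  refine (TubeC_cover T.μ hS T.integrable_d (fun y => (T.d_bd y).1) hf0 (Finset.range n)
    (Z := fun j => T.x ⁻¹' (ball (c j) (2 * (2 ^ j * s)) ∩ ball 0 1))
    (fun j _ => T.measurable_all.1 (measurableSet_ball.inter measurableSet_ball))
    (a := fun j => (2 / (2 ^ j * s)) ^ p) (fun j _ => by positivity) h).trans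
    (Finset.sum_le_sum fun j _ => mul_le_mul_of_nonneg_left (B.up _ _ ?_) (by positivity))
  have : (1 : ℝ) ≤ 2 ^ j := one_le_pow₀ one_le_two
  nlinarith only [hs, hs0, this, hrp]

theorem TubeC_inv {r t d : ℝ} (p : ℕ) (ht : 0 < t) (hd : 0 ≤ d) (h : t ≤ 2 * r) :
    d / r ^ p ≤ (2 / t) ^ p * d := by
  have hr : 0 < r := by linarith
  rw [div_eq_inv_mul, ← inv_pow]
  refine mul_le_mul_of_nonneg_right (pow_le_pow_left₀ (by positivity) ?_ p) hd
  rw [inv_eq_one_div, div_le_div_iff₀ hr ht]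
  linarith

theorem TubeC_cx {k Q : ℕ} {A C C' : ℝ} {T : TI k N Q A C} (B : Tb T C') (v v' : E (k + 2)) :
    ‖B.cx v'‖ - ‖B.cx v‖ ≤ ‖v - v'‖ := by
  have h := (B.coord v v' 0).2.2.2.1
  have h1 : ‖B.cx v - B.cx v'‖ ≤ ‖v - v'‖ :=
    abs_le_of_sq_le_sq' (by linarith only [h, sq_nonneg ‖B.wx v - B.wx v'‖]) (norm_nonneg _) |>.2
  linarith [norm_sub_norm_le (B.cx v') (B.cx v), norm_sub_rev (B.cx v') (B.cx v)]

theorem TubeC_meas {k Q : ℕ} {A C C' : ℝ} {T : TI k N Q A C} (B : Tb T C') (ρ : ℝ) :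
    MeasurableSet (T.x ⁻¹' {v | ‖v‖ < 1 ∧ ‖B.cx v‖ ≤ ρ}) :=
  T.measurable_all.1 ((measurableSet_lt measurable_norm measurable_const).inter
    (measurableSet_le ((B.calc_coord 0).2.2 0).1.continuous.measurable.norm measurable_const))

theorem TubeC_mass (k : ℕ) (A : ℝ) : ∃ C₂ : ℝ, 1 ≤ C₂ ∧ ∀ {N Q : ℕ} {C C' : ℝ} {T : TI k N Q A C}
    (B : Tb T C') (ρ : ℝ), T.τ ≤ ρ →
    (T.μ (T.x ⁻¹' {v | ‖v‖ < 1 ∧ ‖B.cx v‖ ≤ ρ})).toReal ≤ C₂ * ρ ^ 2 := by
  obtain ⟨C₁, hC₁, H⟩ := cover_plane k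
  have h20 : (1 : ℝ) ≤ 20 ^ (k + 2) := one_le_pow₀ (by norm_num)
  refine ⟨C₁ * (max A 1 * 20 ^ (k + 2)), one_le_mul_of_one_le_of_one_le hC₁
    (one_le_mul_of_one_le_of_one_le (le_max_right _ _) h20), fun {N Q C C' T} B ρ hρ => ?_⟩
  have hA := T.A_ge
  rw [max_eq_left hA]
  have hρ0 : 0 < ρ := T.τ_pos.trans_le hρ
  rcases le_total ρ 1 with h1 | h1
  · have ho : Orthonormal ℝ fun i => B.S.iw (ev i) :=
      (EuclideanSpace.orthonormal_single (𝕜 := ℝ) (ι := Fin k)).comp_linearIsometry B.S.iw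
    obtain ⟨J, hJ, hc⟩ := H _ B.o ρ ho (by linarith only [B.o_le]) hρ0 h1
    have hsub : T.x ⁻¹' {v | ‖v‖ < 1 ∧ ‖B.cx v‖ ≤ ρ} ⊆
        ⋃ q ∈ J, T.x ⁻¹' closedBall q (2 * ρ) := fun y hy => by
      obtain ⟨q, hq, h⟩ := hc (T.x y) hy.1.le (by
        have e : B.S.iw (pr B.S.iw (T.x y - B.o)) =
            ∑ i, ⟪B.S.iw (ev i), T.x y - B.o⟫ • B.S.iw (ev i) := by
          conv_lhs => rw [← sum_ev (pr B.S.iw (T.x y - B.o))]
          simp only [map_sum, map_smul, inner_iota]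
        rw [← e]
        exact hy.2)
      exact mem_biUnion hq (mem_closedBall_iff_norm.2 h.le)
    calc _ ≤ T.μ.real (⋃ q ∈ J, T.x ⁻¹' closedBall q (2 * ρ)) :=
          measureReal_mono hsub (measure_ne_top _ _)
      _ ≤ ∑ q ∈ J, T.μ.real (T.x ⁻¹' closedBall q (2 * ρ)) := measureReal_biUnion_finset_le _ _
      _ ≤ ∑ q ∈ J, A * 2 ^ (k + 2) * (2 * ρ) ^ (k + 2) :=
          Finset.sum_le_sum fun q _ => T.mass_ball q (by linarith)
      _ = J.card * (A * 2 ^ (k + 2) * (2 * ρ) ^ (k + 2)) := by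
          rw [Finset.sum_const, nsmul_eq_mul]
      _ ≤ C₁ / ρ ^ k * (A * 2 ^ (k + 2) * (2 * ρ) ^ (k + 2)) := by gcongr
      _ = C₁ * (A * (2 * 2) ^ (k + 2)) * ρ ^ 2 := by
          rw [mul_pow 2 ρ, mul_pow 2 2, pow_add ρ k 2]
          field_simp
      _ ≤ _ := by gcongr; norm_num
  · have h2 : 1 ≤ ρ ^ 2 := one_le_pow₀ h1
    calc _ ≤ T.μ.real univ := measureReal_mono (subset_univ _) (measure_ne_top _ _)
      _ ≤ 1 * (A * 20 ^ (k + 2)) * 1 := by rw [one_mul, mul_one]; exact T.mass_univ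
      _ ≤ _ := by gcongr

theorem TubeC_wt {k Q : ℕ} {A C C' C₂ : ℝ} {T : TI k N Q A C} (B : Tb T C') (hC₂ : 1 ≤ C₂)
    (H : ∀ ρ, T.τ ≤ ρ → (T.μ (T.x ⁻¹' {v | ‖v‖ < 1 ∧ ‖B.cx v‖ ≤ ρ})).toReal ≤ C₂ * ρ ^ 2) :
    ∫ y in T.x ⁻¹' ball 0 1, 1 / (‖B.cx (T.x y)‖ ^ 2 + T.eps) ∂T.μ ≤ 20 * C₂ * T.Λ := by
  obtain ⟨he, -, -, -, -, -, -, -, -, -, -, hL, hτ, -⟩ := T.num
  have hΛ := T.Λ_ge
  obtain ⟨s, hs⟩ : ∃ s, s = √T.eps := ⟨_, rfl⟩
  have hs0 : 0 < s := hs ▸ Real.sqrt_pos.2 he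
  have hss : s ^ 2 = T.eps := hs ▸ Real.sq_sqrt he.le
  have hL0 : 0 < T.L := by linarith
  have h1 : T.L⁻¹ ≤ s := by
    rw [hs]
    apply Real.le_sqrt_of_sq_le
    have : 1 ≤ T.Λ ^ 6 := one_le_pow₀ (by linarith)
    rw [TI.eps, inv_pow, inv_eq_one_div, div_le_div_iff₀ (by positivity) hL0]
    nlinarith only [hL, this]
  have h2 : T.τ ≤ s := by
    refine hτ.trans (le_trans ?_ h1)
    exact inv_anti₀ hL0 (by nlinarith only [hL])
  obtain ⟨n, hn, hn'⟩ := TubeC_log hL T.log_le (by linarith)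
  have h3 : 2 ≤ 2 ^ (n + 1) * s := by
    calc (2 : ℝ) = T.L * 2 * T.L⁻¹ := by field_simp
      _ ≤ _ := by rw [pow_succ]; gcongr
  refine (TubeC_cover T.μ (T.measurable_all.1 measurableSet_ball) (integrable_const (1 : ℝ))
    (fun _ => zero_le_one) (fun y _ => by positivity) (Finset.range (n + 1 + 1))
    (Z := fun j => T.x ⁻¹' {v | ‖v‖ < 1 ∧ ‖B.cx v‖ ≤ 2 ^ j * s}) (fun j _ => B.TubeC_meas _)
    (a := fun j => (2 / (2 ^ j * s)) ^ 2) (fun j _ => by positivity) fun y hy => ?_).trans ?_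
  · have hy1 := mem_ball_zero_iff.1 hy
    have h4 : ‖B.cx (T.x y)‖ ≤ 2 := by
      linarith only [hy1, (norm_pr_le B.S.iw (T.x y - B.o)).2.1, norm_sub_le (T.x y) B.o, B.o_le,
        show ‖B.cx (T.x y)‖ = ‖vt B.S.iw (T.x y - B.o)‖ from rfl]
    obtain ⟨j, hj, h5, h6⟩ := TubeC_dyad hs0 (n + 1) (h4.trans h3)
    refine ⟨j, hj, ⟨hy1, h5⟩, le_trans ?_ (TubeC_inv 2 (by positivity) zero_le_one h6)⟩
    refine one_div_le_one_div_of_le (pow_pos (hs0.trans_le (le_max_right _ _)) 2) ?_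
    rw [← hss]
    rcases max_choice ‖B.cx (T.x y)‖ s with h | h <;> rw [h]
    · linarith [sq_nonneg s]
    · linarith [sq_nonneg ‖B.cx (T.x y)‖]
  · calc _ ≤ ∑ j ∈ Finset.range (n + 1 + 1), 4 * C₂ := by
          refine Finset.sum_le_sum fun j _ => ?_
          have h5 : (1 : ℝ) ≤ 2 ^ j := one_le_pow₀ one_le_two
          have h6 := H (2 ^ j * s) (h2.trans (le_mul_of_one_le_left hs0.le h5))
          rw [setIntegral_const, smul_eq_mul, mul_one]
          calc _ ≤ (2 / (2 ^ j * s)) ^ 2 * (C₂ * (2 ^ j * s) ^ 2) :=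
                mul_le_mul_of_nonneg_left h6 (by positivity)
            _ = 4 * C₂ := by field_simp; norm_num
      _ ≤ _ := by
          rw [Finset.sum_const, Finset.card_range, nsmul_eq_mul]
          push_cast
          nlinarith only [hΛ, hn', hC₂]

theorem TubeC_amgm {d w t : ℝ} (hd : 0 ≤ d) (hw : 0 < w) (ht : 0 < t) :
    √d ≤ t * (w * d) + t⁻¹ * (1 / w) := by
  have ha : 0 ≤ t * (w * d) := by positivity
  have hb : 0 ≤ t⁻¹ * (1 / w) := by positivity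
  have hab : t * (w * d) * (t⁻¹ * (1 / w)) = d := by field_simp
  rw [Real.sqrt_le_left (by positivity)]
  nlinarith only [hab, ha, hb]

/-- `cover_plane` and `mass_ball`; then Cauchy-Schwarz with the weight `‖cx‖² + eps` and dyadic
shells, `log (1 / eps) ≤ log L ≤ Λ` -/
theorem L1B (k Q : ℕ) (A C C' : ℝ) : ∃ C'' Λ₀ : ℝ, 1 ≤ C'' ∧ ∀ {N : ℕ} {T : TI k N Q A C}
    (B : Tb T C'), Λ₀ ≤ T.Λ →
    (∀ ρ, T.τ ≤ ρ → (T.μ (T.x ⁻¹' {v | ‖v‖ < 1 ∧ ‖B.cx v‖ ≤ ρ})).toReal ≤ C'' * ρ ^ 2) ∧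
    ∫ y in T.x ⁻¹' ball 0 1, √(T.d y) ∂T.μ ≤ C'' * √(T.Λ * T.eps * T.M) := by
  obtain ⟨C₂, hC₂, H⟩ := TubeC_mass k A
  have hm := le_max_right C' 1
  refine ⟨max C' 1 + 1 + 20 * C₂, 0, by linarith, fun {N T} B _ => ⟨fun ρ hρ => ?_, ?_⟩⟩
  · exact (H B ρ hρ).trans (mul_le_mul_of_nonneg_right (by linarith) (sq_nonneg _))
  rw [max_eq_left B.C_ge]
  have he := T.num.1
  have hM := T.M_pos
  have hΛ := T.Λ_ge
  have hC := B.C_ge
  obtain ⟨R, hR⟩ : ∃ R, R = √(T.Λ * T.eps * T.M) := ⟨_, rfl⟩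
  have hP : 0 < T.Λ * T.eps * T.M := mul_pos (mul_pos (by linarith) he) hM
  have hR0 : 0 < R := hR ▸ Real.sqrt_pos.2 hP
  have hRR : R * R = T.Λ * T.eps * T.M := hR ▸ Real.mul_self_sqrt hP.le
  rw [← hR]
  have ht : 0 < T.Λ / R := div_pos (by linarith) hR0
  have hcx : Measurable fun y => ‖B.cx (T.x y)‖ ^ 2 :=
    (((B.calc_coord 0).2.2 0).1.continuous.measurable.comp T.measurable_all.1).norm.pow_const 2
  have i1 : Integrable (fun y => ‖B.cx (T.x y)‖ ^ 2 * T.d y) T.μ :=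
    T.integrable_of_bd (hcx.mul T.measurable_all.2.2.2.2.1) (M := 11 ^ 2 * ((k + 2 : ℕ) : ℝ))
      fun y hy _ => by
        have h4 : ‖B.cx (T.x y)‖ ≤ 11 := by
          linarith only [hy, (norm_pr_le B.S.iw (T.x y - B.o)).2.1, norm_sub_le (T.x y) B.o, B.o_le,
            show ‖B.cx (T.x y)‖ = ‖vt B.S.iw (T.x y - B.o)‖ from rfl]
        rw [Real.norm_eq_abs, abs_of_nonneg (mul_nonneg (sq_nonneg _) (T.d_bd y).1)]
        exact mul_le_mul (pow_le_pow_left₀ (norm_nonneg _) h4 2) (T.d_bd y).2 (T.d_bd y).1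
          (by norm_num)
  have hw : ∀ y, 0 < ‖B.cx (T.x y)‖ ^ 2 + T.eps := fun y =>
    add_pos_of_nonneg_of_pos (sq_nonneg _) he
  have i2 : Integrable (fun y => 1 / (‖B.cx (T.x y)‖ ^ 2 + T.eps)) T.μ :=
    T.integrable_of_bd ((hcx.add_const _).const_div 1) (M := 1 / T.eps) fun y _ _ => by
      rw [Real.norm_eq_abs, abs_of_nonneg (one_div_pos.2 (hw y)).le]
      exact one_div_le_one_div_of_le he (le_add_of_nonneg_left (sq_nonneg _))
  have i3 : Integrable (fun y => ‖B.cx (T.x y)‖ ^ 2 * T.d y + T.eps * T.d y) T.μ :=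
    i1.add (T.integrable_d.const_mul _)
  have e1 : ∫ y in T.x ⁻¹' ball 0 1, (‖B.cx (T.x y)‖ ^ 2 * T.d y + T.eps * T.d y) ∂T.μ ≤
      (C' + 1) * (T.eps * T.M) := by
    rw [integral_add i1.integrableOn (T.integrable_d.const_mul _).integrableOn, integral_const_mul]
    have h1 : T.DS (ball 0 1) ≤ T.M := by
      rw [T.M_eq]
      exact (T.DS_mono (ball_subset_ball (by norm_num))).2
    have h2 := mul_le_mul_of_nonneg_left h1 he.le
    have h3 := B.mom
    simp only [Flat.DS] at h2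
    simp only [Tb.cx]
    linarith
  have e2 := B.TubeC_wt hC₂ (H B)
  calc _ ≤ ∫ y in T.x ⁻¹' ball 0 1,
        (T.Λ / R * (‖B.cx (T.x y)‖ ^ 2 * T.d y + T.eps * T.d y) +
          (T.Λ / R)⁻¹ * (1 / (‖B.cx (T.x y)‖ ^ 2 + T.eps))) ∂T.μ := by
        refine integral_mono_of_nonneg (Eventually.of_forall fun y => Real.sqrt_nonneg _)
          ((i3.const_mul _).add (i2.const_mul _)).integrableOn (Eventually.of_forall fun y => ?_)
        have := TubeC_amgm (T.d_bd y).1 (hw y) ht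
        rwa [add_mul] at this
    _ ≤ T.Λ / R * ((C' + 1) * (T.eps * T.M)) + (T.Λ / R)⁻¹ * (20 * C₂ * T.Λ) := by
        rw [integral_add (i3.const_mul _).integrableOn (i2.const_mul _).integrableOn,
          integral_const_mul, integral_const_mul]
        exact add_le_add (mul_le_mul_of_nonneg_left e1 ht.le)
          (mul_le_mul_of_nonneg_left e2 (inv_pos.2 ht).le)
    _ = (C' + 1) * (T.Λ * T.eps * T.M / R) + 20 * C₂ * R := by
        have : T.Λ ≠ 0 := by linarith only [hΛ]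
        field_simp
    _ = _ := by rw [← hRR, mul_div_assoc, div_self hR0.ne']; ring

/-- dyadic decomposition with `up`; a point of the core is at distance at least `‖cx ξ‖ / 2` -/
theorem core_pot (k Q : ℕ) (A C C' : ℝ) : ∃ C'' Λ₀ : ℝ, 1 ≤ C'' ∧ ∀ {N : ℕ} {T : TI k N Q A C}
    (B : Tb T C'), Λ₀ ≤ T.Λ → ∀ ξ, T.ra / 2 ≤ ‖B.cx ξ‖ →
    ∫ y in T.x ⁻¹' {v | ‖v‖ < 1 ∧ ‖B.cx v‖ ≤ T.ra / 4}, T.d y / ‖T.x y - ξ‖ ^ (k + 1) ∂T.μ ≤
      C'' * T.M / ‖B.cx ξ‖ ∧
    ∫ y in T.x ⁻¹' {v | ‖v‖ < 1 ∧ ‖B.cx v‖ ≤ T.ra / 4}, T.d y / ‖T.x y - ξ‖ ^ k ∂T.μ ≤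
      C'' * T.Λ * T.M := by
  refine ⟨(40 * k + 103) * 4 ^ k * max C' 1, 0, ?_, fun {N T} B _ ξ hξ => ?_⟩
  · have h1 : (1 : ℝ) ≤ 4 ^ k := one_le_pow₀ (by norm_num)
    have h2 : (1 : ℝ) ≤ 40 * k + 103 := by linarith [Nat.cast_nonneg (α := ℝ) k]
    exact one_le_mul_of_one_le_of_one_le (one_le_mul_of_one_le_of_one_le h2 h1) (le_max_right _ _)
  rw [max_eq_left B.C_ge]
  obtain ⟨-, -, -, -, -, -, hra1, -⟩ := TubeC_num T
  obtain ⟨-, -, -, -, -, hrp, -, -, -, h10, -⟩ := T.num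
  have hM := T.M_pos
  have hΛ := T.Λ_ge
  have hC := B.C_ge
  have hk : (0 : ℝ) ≤ k := Nat.cast_nonneg k
  have hra : 0 < T.ra := by linarith only [hrp, h10]
  have hD : 0 < ‖B.cx ξ‖ := by linarith only [hξ, hrp, h10]
  have hd : ∀ y ∈ T.x ⁻¹' {v | ‖v‖ < 1 ∧ ‖B.cx v‖ ≤ T.ra / 4}, ‖B.cx ξ‖ / 2 ≤ ‖T.x y - ξ‖ :=
    fun y hy => by linarith only [hξ, B.TubeC_cx (T.x y) ξ, hy.2]
  constructor
  · set s := ‖B.cx ξ‖ / 2 with hs
    have hs0 : 0 < s := by positivity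
    obtain ⟨n, hn⟩ := pow_unbounded_of_one_lt ((1 + ‖ξ‖) / s) (one_lt_two (α := ℝ))
    rw [div_lt_iff₀ hs0] at hn
    refine (B.TubeC_pot (fun _ => ξ) (s := s) (by linarith only [hξ, hrp, h10, hs]) (n + 1) (k + 1) (B.TubeC_meas _)
      (fun y _ => div_nonneg (T.d_bd y).1 (by positivity)) fun y hy => ?_).trans ?_
    · obtain ⟨j, hj, h1, h2⟩ := TubeC_dyad (r := ‖T.x y - ξ‖) hs0 n
        (by linarith only [hn, norm_sub_le (T.x y) ξ, hy.1])
      rw [max_eq_left (hd y hy)] at h2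
      have h3 : 0 < 2 ^ j * s := by positivity
      exact ⟨j, hj, ⟨mem_ball_iff_norm.2 (by linarith only [h1, h3]), mem_ball_zero_iff.2 hy.1⟩,
        TubeC_inv _ h3 (T.d_bd y).1 h2⟩
    · have e : ∀ j : ℕ, (2 / (2 ^ j * s)) ^ (k + 1) * (C' * T.M * (2 * (2 ^ j * s)) ^ k) =
          (2 * 4 ^ k * C' * T.M / s) * (2 ^ j)⁻¹ := fun j => by
        have : (4 : ℝ) ^ k = 2 ^ k * 2 ^ k := by rw [← mul_pow]; norm_num
        rw [this, div_pow, mul_pow 2 (2 ^ j * s), pow_succ (2 ^ j * s), pow_succ 2 k]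
        field_simp
      simp only [e]
      rw [← Finset.mul_sum]
      calc _ ≤ (2 * 4 ^ k * C' * T.M / s) * 2 :=
            mul_le_mul_of_nonneg_left (TubeC_geom _) (by positivity)
        _ = 8 * 4 ^ k * C' * T.M / ‖B.cx ξ‖ := by rw [hs]; field_simp; norm_num
        _ ≤ _ := by gcongr; linarith only [hra1, hrp, h10]
  · obtain ⟨s, hs⟩ : ∃ s, s = T.ra / 4 := ⟨_, rfl⟩
    have hs0 : 0 < s := by linarith only [hrp, h10, hs]
    obtain ⟨l, hl, hl'⟩ := TubeC_nat (by linarith only [hra1, hrp, h10, hΛ] : 1 ≤ T.Λ)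
    have hn : 1 ≤ 2 ^ (l * (20 * k + 50) + 2) * s := by
      have h1 : T.Λ ^ (20 * k + 50) ≤ 2 ^ (l * (20 * k + 50)) := by
        rw [pow_mul 2 l]
        gcongr
      have h2 : 0 < T.Λ ^ (20 * k + 50) := by positivity
      rw [hs, TI.ra, pow_add 2 _ 2]
      calc (1 : ℝ) = T.Λ ^ (20 * k + 50) * 2 ^ 2 * ((T.Λ ^ (20 * k + 50))⁻¹ / 4) := by
            field_simp
            norm_num
        _ ≤ _ := by gcongr
    set n := l * (20 * k + 50) + 2 with hndef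
    refine (B.TubeC_pot (fun j => if 1 ≤ 2 ^ j * s then 0 else ξ) (s := s) (by linarith only [hrp, h10, hs]) (n + 1) k
      (B.TubeC_meas _) (fun y _ => div_nonneg (T.d_bd y).1 (by positivity)) fun y hy => ?_).trans ?_
    · obtain ⟨j, hj, h1, h2⟩ := TubeC_dyad (r := min ‖T.x y - ξ‖ 1) hs0 n
        ((min_le_right _ _).trans hn)
      have h4 : s ≤ ‖T.x y - ξ‖ := by linarith only [hξ, hs, hd y hy]
      rw [max_eq_left (le_min h4 (by linarith only [hra1, hrp, h10, hs]))] at h2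
      have h3 : 0 < 2 ^ j * s := by positivity
      refine ⟨j, hj, ⟨?_, mem_ball_zero_iff.2 hy.1⟩,
        TubeC_inv _ h3 (T.d_bd y).1 (by linarith only [h2, min_le_left ‖T.x y - ξ‖ 1])⟩
      split_ifs with h5
      · exact mem_ball_zero_iff.2 (by linarith only [hra1, hrp, h10, h5, hy.1])
      · rcases min_le_iff.1 h1 with h6 | h6
        · exact mem_ball_iff_norm.2 (by linarith only [hrp, h10, hs, h4, h6])
        · exact absurd h6 h5
    · have e : ∀ j : ℕ, (2 / (2 ^ j * s)) ^ k * (C' * T.M * (2 * (2 ^ j * s)) ^ k) =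
          4 ^ k * C' * T.M := fun j => by
        have : (4 : ℝ) ^ k = 2 ^ k * 2 ^ k := by rw [← mul_pow]; norm_num
        rw [this, div_pow, mul_pow 2 (2 ^ j * s)]
        field_simp
      simp only [e]
      rw [Finset.sum_const, Finset.card_range, nsmul_eq_mul]
      have h1 : ((n + 1 : ℕ) : ℝ) ≤ (40 * k + 103) * T.Λ := by
        rw [hndef]
        push_cast
        nlinarith only [hra1, hrp, h10, hΛ, hl']
      calc _ ≤ (40 * k + 103) * T.Λ * (4 ^ k * C' * T.M) := by gcongr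
        _ = _ := by ring

/-- Fubini; only the energy of `Out` matters. For the first bound `∫ pk ρ (x - ξ) dμ` is at most
`C ρ²` for `ρ ≥ τ` and at most `C ρ² (τ / ρ) ^ m ≤ C ρ² Λ ^ (20 m)` for `G ≤ ρ ≤ τ`. -/
theorem mass_U (k Q : ℕ) (A C C' : ℝ) : ∃ Λ₀ : ℝ, ∀ {N : ℕ} {T : TI k N Q A C}
    (B : Tb T C'), Λ₀ ≤ T.Λ →
    ∫ y in T.x ⁻¹' B.Sh, T.U (T.x y) ∂T.μ ≤ T.rp ^ 2 * T.Λ ^ 40 / T.L ∧
    ∫ ξ in B.Sh, T.U ξ ≤ T.rp ^ 2 * T.Λ ^ 40 / T.L := by
  obtain ⟨C₁, hC₁, H⟩ := integral_Gm (k + 2)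
  refine ⟨max (901 * (A * 2 ^ (k + 2) / cg (k + 2))) (900 * C₁), fun {N T} B hΛ => ?_⟩
  have hΛ0 := (le_max_left _ _).trans hΛ
  have hΛ1 := (le_max_right _ _).trans hΛ
  obtain ⟨-, hak, hGa, -, harp, -⟩ := TubeC_num T
  obtain ⟨he, -, -, -, -, hrp, -, -, -, h10, -, hL, -, -, -, -, -, hE, -⟩ := T.num
  have hG := T.G_pos
  have hΛ2 := T.Λ_ge
  have hGb : T.G ≤ 30 * T.rp := by linarith only [hak, hGa, harp]
  have hS := B.measurable_all.2.2.2.2.2.1.measurableSet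
  have hO := B.measurable_all.2.2.2.2.2.2
  have hS1 : B.Sh ⊆ ball 0 1 := fun v hv => mem_ball_zero_iff.2 (by linarith only [hv.1])
  have hSO : ∀ ξ ∈ B.Sh, ∀ v, dist v ξ < 30 * T.rp → v ∈ B.Out := fun ξ hξ v hv =>
    B.TubeC_sub (self_subset_thickening hrp _ hξ) hv (by linarith only [hak, harp, h10])
  have key : ∀ I : ℝ, I ≤ T.Λ * T.rp ^ 2 * T.DS B.Out →
      T.L / T.G ^ 2 * I ≤ T.rp ^ 2 * T.Λ ^ 40 / T.L := fun I hI => by
    have h1 := B.shell_sub.2.2.1.trans hE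
    have h2 : T.Λ ^ 37 ≤ T.Λ ^ 40 := pow_le_pow_right₀ (by linarith only [hC₁, hΛ1]) (by norm_num)
    calc T.L / T.G ^ 2 * I ≤
          T.L / T.G ^ 2 * (T.Λ * T.rp ^ 2 * (T.Λ ^ 36 / T.L ^ 2 * T.G ^ 2)) := by
          refine mul_le_mul_of_nonneg_left (hI.trans ?_) (by positivity)
          gcongr
      _ = T.rp ^ 2 * T.Λ ^ 37 / T.L := by field_simp
      _ ≤ _ := by gcongr
  simp only [TI.U, integral_const_mul]
  refine ⟨key _ ?_, key _ ?_⟩
  · refine TubeC_fub T.toFlat T.μ T.measurable_all.1 hS hO (measure_ne_top _ _) hS1 hG hGb hSO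
      fun v => (TubeC_mu T _ v).trans ?_
    gcongr
  · refine TubeC_fub T.toFlat volume measurable_id hS hO
      ((measure_mono hS1).trans_lt measure_ball_lt_top).ne hS1 hG hGb hSO fun v => ?_
    have hi := (TubeC_adm (m := k + 2) hG hGb).integrable.comp_sub_left v
    refine (setIntegral_le_integral hi
      (Eventually.of_forall fun s => (Gm_nonneg hG hGb _).1)).trans ?_
    rw [integral_sub_left_eq_self (Gm T.G (30 * T.rp)) volume v]
    refine (H _ _ hG hGb).1.trans ?_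
    have : 0 ≤ T.rp ^ 2 := sq_nonneg _
    nlinarith only [hΛ1]

/-- `Xi_le` with the energy of `Out`, and `Xi ξ 8 ≥ psi ξ 8 / 2 ≥ c M` -/
theorem jump (k Q : ℕ) (A C C' : ℝ) : ∃ Λ₀ : ℝ, ∀ {N : ℕ} {T : TI k N Q A C}
    (B : Tb T C'), Λ₀ ≤ T.Λ → ∀ ξ ∈ thickening T.rp B.Sh, √T.L * T.Xi ξ T.rp ≤ T.Xi ξ 8 := by
  obtain ⟨C₁, C₀, hC₁, hC₀, H⟩ := Flat.Xi_le (k + 2) (by omega) Q A
  refine ⟨max C₀ (100 * cg (k + 2) * 8 ^ k * C₁), fun {N T} B hΛ ξ hξ => ?_⟩
  have hΛ0 : C₀ ≤ T.Λ := (le_max_left _ _).trans hΛ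
  have hΛ1 : 100 * cg (k + 2) * 8 ^ k * C₁ ≤ T.Λ := (le_max_right _ _).trans hΛ
  obtain ⟨-, -, -, -, -, hrp1, -, hτ⟩ := TubeC_num T
  obtain ⟨he, -, -, -, -, hrp, -, -, -, h10, -, hL, -⟩ := T.num
  have hM := T.M_pos
  have hΛ2 := T.Λ_ge
  have hcg := cg_pos (k + 2)
  have hξ1 : ‖ξ‖ < 9 / 10 :=
    (B.TubeC_sub hξ (by simpa using hrp : dist ξ ξ < T.rp) (by linarith only [hrp, h10])).1
  have h1 := ((H T.toFlat ξ T.rp (by linarith only [hrp1, hrp, hΛ0, hτ _ hΛ0]) (hτ _ hΛ0)).1 (by linarith only [hrp1, hrp, hξ1])).1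
  have h2 : T.DS (ball ξ (2 * T.rp)) ≤ T.eps * T.M :=
    (T.DS_mono fun v hv => B.TubeC_sub hξ (mem_ball.1 hv) (by linarith only [hrp, h10])).2.trans
      B.shell_sub.2.2.1
  have h3 := (T.psi_cmp (by omega) ξ (by norm_num : (0 : ℝ) < 8)).2
  have h4 : T.M ≤ T.DS (closedBall ξ (8 / 2)) := by
    rw [T.M_eq]
    refine (T.DS_mono fun v hv => ?_).2
    rw [mem_ball_zero_iff] at hv
    rw [mem_closedBall, dist_eq_norm]
    linarith only [hrp1, hrp, hξ1, hv, norm_sub_le v ξ]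
  have h5 : T.psi ξ 8 / 2 ≤ T.Xi ξ 8 := le_max_right _ _
  have h6 := (T.ratio_nonneg ξ hrp).2.2.1
  simp only [Nat.add_sub_cancel] at h1 h3
  set K := 100 * cg (k + 2) * 8 ^ k with hK
  have hK0 : 0 < K := by positivity
  have h7 : T.M ≤ K * T.Xi ξ 8 := by
    have : 50 * cg (k + 2) * 8 ^ k * T.psi ξ 8 = K * (T.psi ξ 8 / 2) := by rw [hK]; ring
    have := mul_le_mul_of_nonneg_left h5 hK0.le
    linarith only [h4, h3, this]
  set P := T.Λ ^ (k * (20 * k + 60)) with hP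
  have hP0 : 0 < P := by positivity
  have h8 : T.rp ^ k = P⁻¹ := by
    rw [hP, TI.rp, inv_pow, ← pow_mul, mul_comm]
  have h9 : T.Λ ^ 7 * P ≤ √T.L := by
    apply Real.le_sqrt_of_sq_le
    rw [hP, ← pow_add, ← pow_mul, mul_comm]
    exact TubeC_pow T (TubeC_P0 k).1
  have hs : 0 < √T.L := Real.sqrt_pos.2 (by linarith only [hrp1, hrp, hL])
  have hss : √T.L * √T.L = T.L := Real.mul_self_sqrt (by linarith only [hrp1, hrp, hL])
  have h11 : T.Xi ξ T.rp ≤ P * (C₁ * (T.eps * T.M)) := by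
    rw [h8, inv_mul_le_iff₀ hP0] at h1
    exact h1.trans (by gcongr)
  refine le_of_mul_le_mul_left ?_ hK0
  refine le_trans ?_ h7
  calc K * (√T.L * T.Xi ξ T.rp) ≤ K * (√T.L * (P * (C₁ * (T.eps * T.M)))) := by gcongr
    _ = (K * C₁) * (T.Λ ^ 6 * P) * (√T.L / T.L) * T.M := by rw [TI.eps]; ring
    _ ≤ T.Λ * (T.Λ ^ 6 * P) * (√T.L / T.L) * T.M := by gcongr
    _ = (T.Λ ^ 7 * P) * (√T.L / T.L) * T.M := by ring
    _ ≤ √T.L * (√T.L / T.L) * T.M := by gcongr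
    _ = T.M := by rw [← mul_div_assoc, hss, div_self (by linarith only [hrp1, hrp, hL]), one_mul]

/-- `S0a` for weights in the shell, and `S0b` (with `g = G`, `g' = g`, `r = ak`, `rb = 30 rp`) for
weights that vanish where `U > 1` -/
theorem shell_Y (k Q : ℕ) (A C C' : ℝ) : ∃ C'' Λ₀ : ℝ, 1 ≤ C'' ∧ ∀ {N : ℕ} {T : TI k N Q A C}
    (B : Tb T C'), Λ₀ ≤ T.Λ →
    (∀ (f : E (k + 2) → ℝ) (t : ℝ), Measurable f → (∀ v, |f v| ≤ t) →
      (∀ v, v ∉ thickening (T.ra / 8) B.Sh → f v = 0) →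
      |T.Y f| ≤ C'' * t * (T.eps * T.M) ∧ |T.ee f| ≤ C'' * t * (T.eps * T.M)) ∧
    (∀ (f : E (k + 2) → ℝ) (t : ℝ), Measurable f → (∀ v, |f v| ≤ t) →
      (∀ v, v ∉ B.Sh0 ∨ 1 < T.U v → f v = 0) → |T.Y f| ≤ C'' * t * T.RS T.g T.ak B.Sh) ∧
    ∫ y in T.x ⁻¹' {v | v ∈ B.Sh0 ∧ T.U v ≤ 1}, T.d y ^ 2 ∂T.μ ≤ C'' * T.RS T.g T.ak B.Sh := by
  obtain ⟨C₁, D₁, hC₁, hD₁, H₁⟩ := Flat.S0a (k + 2) (by omega) Q A
  obtain ⟨C₂, D₂, hC₂, hD₂, H₂⟩ := Flat.mass_cmp (k + 2) (by omega) Q A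
  obtain ⟨c, C₃, D₃, hc, hC₃, hD₃, H₃⟩ := Flat.S0b (k + 2) (by omega) Q A
  refine ⟨C₁ + C₂ + C₃, D₁ + D₂ + D₃ + c⁻¹, by linarith, fun {N T} B hΛ => ?_⟩
  have hc' : 0 < c⁻¹ := inv_pos.2 hc
  obtain ⟨hΛL, hak, hGa, -, harp, hrp1, -, hτ⟩ := TubeC_num T
  obtain ⟨he, -, -, -, -, hrp, -, -, -, h10, -, hL, -, hGg, -⟩ := T.num
  have hM := T.M_pos
  have hG := T.G_pos
  have t1 := hτ D₁ (by linarith only [hD₂, hD₃, hΛ, hc', hak, harp, hrp1])
  have t2 := hτ D₂ (by linarith only [hD₁, hD₃, hΛ, hc', hak, harp, hrp1])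
  have t3 := hτ D₃ (by linarith only [hD₁, hD₂, hΛ, hc', hak, harp, hrp1])
  have hZ : thickening (T.ra / 8) B.Sh ⊆ ball 0 9 := fun v hv => by
    have := (B.TubeC_sub hv (by simpa using hrp : dist v v < T.rp) (by linarith only [hak, harp, h10])).1
    rw [mem_ball_zero_iff]
    linarith only [hak, harp, hrp1, this]
  have hout : ∀ r, r ≤ T.rp → T.DS (thickening r (thickening (T.ra / 8) B.Sh)) ≤ T.eps * T.M := by
    intro r hr
    refine (T.DS_mono fun v hv => ?_).2.trans B.shell_sub.2.2.1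
    obtain ⟨z, hz, hd⟩ := mem_thickening_iff.1 hv
    exact B.TubeC_sub hz hd (by linarith only [hak, harp, h10, hr])
  set Z : Set (E (k + 2)) := {v | v ∈ B.Sh0 ∧ T.U v ≤ 1} with hZdef
  have hZm : MeasurableSet Z :=
    B.measurable_all.2.2.2.2.1.measurableSet.inter
      (measurableSet_le T.Fu_bd.1.continuous.measurable measurable_const)
  have hZs : thickening T.G Z ⊆ B.Sh :=
    ((thickening_subset_of_subset _ fun v hv => hv.1).trans
      (thickening_mono (by linarith only [hak, hGa, harp, h10]) _)).trans B.shell_sub.1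
  have hZ9 : Z ⊆ ball 0 9 := fun v hv => by
    have := (hZs (self_subset_thickening hG _ hv)).1
    rw [mem_ball_zero_iff]
    linarith only [hak, harp, hrp1, this]
  have hU : ∀ ξ ∈ Z, T.UU T.G (30 * T.rp) ξ ≤ c * T.G ^ 2 := fun ξ hξ => by
    have h1 : T.L / T.G ^ 2 * T.UU T.G (30 * T.rp) ξ ≤ 1 := hξ.2
    have h2 : (0 : ℝ) < T.G ^ 2 := by positivity
    have h3 := (T.UU_mono hG le_rfl (by linarith only [hak, hGa, harp] : T.G ≤ 30 * T.rp) le_rfl ξ).1
    rw [div_mul_eq_mul_div, div_le_one h2] at h1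
    have h4 : c⁻¹ * T.UU T.G (30 * T.rp) ξ ≤ T.G ^ 2 :=
      (mul_le_mul_of_nonneg_right (by linarith only [hD₁, hD₂, hD₃, hΛ, hΛL, hak, harp, hrp1]) h3).trans h1
    rwa [inv_mul_le_iff₀ hc] at h4
  obtain ⟨K1, K2⟩ := H₃ T.toFlat T.G T.g T.ak (30 * T.rp) Z hG hGg hGa (by linarith only [harp]) (by linarith only [hak, harp, t3])
    (by linarith only [hak, harp, hrp1]) hZm hZ9 hU
  obtain ⟨R0, R1⟩ := T.RS_mono (hG.trans_le hGg) hak isOpen_thickening.measurableSet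
    B.measurable_all.2.2.2.2.2.1.measurableSet hZs
  refine ⟨fun f t hf ht h0 => ?_, fun f t hf ht h0 => ?_, ?_⟩
  · have ht0 : 0 ≤ t := (abs_nonneg _).trans (ht 0)
    have e1 := H₁ T.toFlat f t _ (by linarith only [hak, harp, hrp1, t1]) hf ht isOpen_thickening.measurableSet hZ h0
    have e2 := H₂ T.toFlat f t _ (by linarith only [hak, harp, hrp1, t2]) hf ht isOpen_thickening.measurableSet hZ h0
    refine ⟨e1.trans ?_, e2.trans ?_⟩
    · exact mul_le_mul (mul_le_mul_of_nonneg_right (by linarith only [hC₂, hC₃, hak, harp, hrp1]) ht0) (hout _ t1)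
        (T.DS_mono Subset.rfl).1 (by positivity)
    · exact mul_le_mul (mul_le_mul_of_nonneg_right (by linarith only [hC₁, hC₃, hak, harp, hrp1]) ht0) (hout _ t2)
        (T.DS_mono Subset.rfl).1 (by positivity)
  · have ht0 : 0 ≤ t := (abs_nonneg _).trans (ht 0)
    refine (K2 f t hf ht fun v hv => h0 v ?_).trans
      (mul_le_mul (mul_le_mul_of_nonneg_right (by linarith only [hC₁, hC₂, hak, harp, hrp1]) ht0) R1 R0 (by positivity))
    by_contra hn
    push Not at hn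
    exact hv hn
  · have hi : Integrable (fun y => T.d y ^ 2) T.μ :=
      T.integrable_of_bd (T.measurable_all.2.2.2.2.1.pow_const 2) (M := ((k + 2 : ℕ) : ℝ) ^ 2)
        fun y _ _ => by
          rw [Real.norm_eq_abs, abs_of_nonneg (sq_nonneg _)]
          exact pow_le_pow_left₀ (T.d_bd y).1 (T.d_bd y).2 2
    refine le_trans ?_ (K1.trans (mul_le_mul (by linarith only [hC₁, hC₂, hak, harp, hrp1]) R1 R0 (by positivity)))
    exact setIntegral_mono_set hi.integrableOn (Eventually.of_forall fun y => sq_nonneg _)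
      (preimage_mono (self_subset_thickening hG _)).eventuallyLE

end Tb

end Pool.Agent.MP_f6c0e6_an.Gen

end
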