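import Pool.Agent.MP_f6c0e6_an.All.TubeB

section

/-! The stress identity for the weights of the core. -/

set_option autoImplicit false

open MeasureTheory Filter Topology Set Metric
open scoped ENNReal RealInnerProductSpace

namespace Pool.Agent.MP_f6c0e6_an.Gen

variable {m N : ℕ}

/-- the vector representing the stress -/
noncomputable def TubeD_P {Q : ℕ} {A : ℝ} (F : Flat m N Q A) (y : E N) (e : E m) : E m :=
  e - ∑ l, ⟪F.a l y, e⟫ • F.a l y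

theorem TubeD_inner {Q : ℕ} {A : ℝ} (F : Flat m N Q A) (y : E N) (u e : E m) :
    ⟪u, TubeD_P F y e⟫ = F.NN y u e := by
  simp only [TubeD_P, Flat.NN, NF, Flat.a, inner_sub_right, inner_sum, real_inner_smul_right]
  congr 1
  exact Finset.sum_congr rfl fun l _ => by rw [mul_comm, real_inner_comm]

theorem TubeD_ND {Q : ℕ} {A : ℝ} (F : Flat m N Q A) (y : E N) (φ : E m →L[ℝ] ℝ) (e : E m) :
    F.ND y (φ.smulRight e) = φ (TubeD_P F y e) := by
  conv_rhs => rw [← sum_ev (TubeD_P F y e), map_sum]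
  refine Finset.sum_congr rfl fun i _ => ?_
  rw [map_smul, TubeD_inner, ContinuousLinearMap.smulRight_apply, Flat.NN, NF_symm, NF_smul,
    NF_symm, smul_eq_mul, mul_comm]
  rfl

theorem TubeD_NN {Q : ℕ} {A : ℝ} (F : Flat m N Q A) (y : E N) (u v : E m) : 0 ≤ F.NN y u u ∧
    F.NN y u u ≤ F.d y * ‖u‖ ^ 2 ∧ F.NN y u v ^ 2 ≤ F.NN y u u * F.NN y v v ∧
    |F.NN y u v| ≤ F.d y * ‖u‖ * ‖v‖ :=
  have h := NF_bd F.ι (F.fr.orth y) u v
  ⟨h.1, h.2.1, h.2.2.1, h.2.2.2.1⟩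

theorem TubeD_P_le {Q : ℕ} {A : ℝ} (F : Flat m N Q A) (y : E N) (e : E m) :
    ‖TubeD_P F y e‖ ≤ F.d y * ‖e‖ := by
  have h := (le_abs_self _).trans (TubeD_NN F y (TubeD_P F y e) e).2.2.2
  rw [← TubeD_inner, real_inner_self_eq_norm_sq] at h
  have h0 := (F.d_bd y).1
  rcases (norm_nonneg (TubeD_P F y e)).eq_or_lt with k | k
  · rw [← k]; positivity
  · exact le_of_mul_le_mul_left (by nlinarith only [h]) k

theorem TubeD_int_NN {Q : ℕ} {A : ℝ} (F : Flat m N Q A) {f : E m → ℝ} (hf : Continuous f)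
    (u v : E m) : Integrable (fun y => f (F.x y) * F.NN y u v) F.μ := by
  have h := F.integrable_cont (g := fun q => f q.1) (by fun_prop)
    (F.measurable_all.2.2.2.2.2.1 (fun _ => u) (fun _ => v) measurable_const measurable_const)
    (M := m * ‖u‖ * ‖v‖) fun y => (TubeD_NN F y u v).2.2.2.trans (by
      gcongr; exact (F.d_bd y).2)
  simpa only [smul_eq_mul, mul_comm] using h

theorem TubeD_int {Q : ℕ} {A : ℝ} (F : Flat m N Q A) {f : E m → ℝ} (hf : Continuous f) :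
    Integrable (fun y => f (F.x y)) F.μ := by
  simpa using F.integrable_cont (g := fun q => f q.1) (by fun_prop) (f := fun _ => 1)
    measurable_const (M := 1) fun _ => by simp

theorem TubeD_int_d {Q : ℕ} {A : ℝ} (F : Flat m N Q A) {f : E m → ℝ} (hf : Continuous f) :
    Integrable (fun y => f (F.x y) * F.d y) F.μ := by
  have h := F.integrable_cont (g := fun q => f q.1) (by fun_prop) F.measurable_all.2.2.2.2.1
    (M := m) fun y => by rw [abs_of_nonneg (F.d_bd y).1]; exact (F.d_bd y).2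
  simpa only [smul_eq_mul, mul_comm] using h

/-- the stress identity for a constant direction -/
theorem TubeD_stress {Q : ℕ} {A : ℝ} (F : Flat m N Q A) {f : E m → ℝ} (hf : ContDiff ℝ 1 f)
    (h0 : ∀ v, 1 ≤ ‖v‖ → f v = 0) (e : E m) :
    Integrable (fun y => fderiv ℝ f (F.x y) (TubeD_P F y e)) F.μ ∧
    F.ee (fun v => fderiv ℝ f v e) = ∫ y, fderiv ℝ f (F.x y) (TubeD_P F y e) ∂F.μ ∧
    F.ee (fun v => fderiv ℝ f v e) = ∫ y, fderiv ℝ f (F.x y) e ∂F.μ := by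
  have hd := hf.differentiable one_ne_zero
  have h1 : ∀ v, v ∉ closedBall (0 : E m) 1 → f v = 0 := fun v hv =>
    h0 v (by rw [mem_closedBall_zero_iff, not_le] at hv; exact hv.le)
  have h2 : ∀ v, fderiv ℝ (fun v => f v • e) v = (fderiv ℝ f v).smulRight e := fun v =>
    fderiv_smul_const (hd v) e
  have h3 : dv (fun v => f v • e) = fun v => fderiv ℝ f v e := by
    funext v
    rw [dv_smul (hd v) (differentiableAt_const e)]
    simp [dv]
  have h3' : tsupport (fun v => f v • e) ⊆ closedBall 0 1 :=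
    closure_minimal (Function.support_subset_iff'.2 fun v hv => by rw [h1 v hv, zero_smul])
      isClosed_closedBall
  have h4 := F.ee_dv (V := fun v => f v • e) ⟨hf.smul contDiff_const,
    HasCompactSupport.intro (isCompact_closedBall 0 1) fun v hv => by rw [h1 v hv, zero_smul],
    h3'.trans (closedBall_subset_ball (by norm_num))⟩
  simp only [h2, h3, TubeD_ND] at h4
  refine ⟨?_, h4, ?_⟩
  · have h5 : ∀ y, fderiv ℝ f (F.x y) (TubeD_P F y e) =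
        ∑ i, fderiv ℝ f (F.x y) (ev i) * F.NN y (ev i) e := fun y => by
      conv_lhs => rw [← sum_ev (TubeD_P F y e), map_sum]
      exact Finset.sum_congr rfl fun i _ => by rw [map_smul, TubeD_inner, smul_eq_mul, mul_comm]
    simp only [h5]
    exact integrable_finsetSum _ fun i _ => TubeD_int_NN F (f := fun v => fderiv ℝ f v (ev i))
      ((hf.continuous_fderiv one_ne_zero).clm_apply continuous_const) _ _
  · rw [Flat.ee, integral_fderiv_zero hf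
      (HasCompactSupport.intro (isCompact_closedBall 0 1) h1), mul_zero, sub_zero]

namespace Tb

section aux

variable {k Q : ℕ} {A C C' : ℝ} {T : TI k N Q A C} (B : Tb T C')

/-- the weights of the core -/
noncomputable def TubeD_f (s : E k) (a : ℝ) (c v : E (k + 2)) : ℝ :=
  B.k1 s v * (B.chi1 v * (a + ⟪c, B.cx v⟫))

/-- the derivative of the kernel -/
noncomputable def TubeD_k (s : E k) (v : E (k + 2)) : E k →L[ℝ] ℝ :=
  fderiv ℝ (rho T.rb) (B.wx v - s)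

theorem TubeD_cont (hC : C' ≤ T.Λ) (s : E k) : ContDiff ℝ 1 B.cx ∧ ContDiff ℝ 1 B.wx ∧
    ContDiff ℝ 1 B.chi1 ∧ ContDiff ℝ 1 (B.k1 s) ∧ Continuous (B.TubeD_k s) := by
  have h1 := ((B.calc_coord 0).2.2 1).1
  have h2 := ((B.calc_coord 0).2.2 1).2
  have h3 : ContDiff ℝ 1 (rho T.rb : E k → ℝ) := (contDiff_rho T.rb).of_le (by norm_num)
  exact ⟨h1, h2, (B.weights hC).2.1.of_le (by norm_num), h3.comp (h2.sub contDiff_const),
    (h3.continuous_fderiv one_ne_zero).comp (h2.continuous.sub continuous_const)⟩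

theorem TubeD_smooth (hC : C' ≤ T.Λ) (s : E k) (a : ℝ) (c : E (k + 2)) :
    ContDiff ℝ 1 (B.TubeD_f s a c) := by
  obtain ⟨h1, -, h3, h4, -⟩ := B.TubeD_cont hC s
  exact h4.mul (h3.mul (contDiff_const.add (contDiff_const.inner ℝ h1)))

theorem TubeD_fderiv (hC : C' ≤ T.Λ) (s : E k) (a : ℝ) {c : E (k + 2)} (hc : pr B.S.iw c = 0)
    (v z : E (k + 2)) : fderiv ℝ (B.TubeD_f s a c) v z =
      B.TubeD_k s v (pr B.S.iw z) * (B.chi1 v * (a + ⟪c, B.cx v⟫)) +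
        B.k1 s v * (fderiv ℝ B.chi1 v z * (a + ⟪c, B.cx v⟫)) + B.k1 s v * B.chi1 v * ⟪c, z⟫ := by
  have h1 := (B.calc_coord v).1
  have h2 := (B.calc_coord v).2.1
  have h3 : HasFDerivAt (B.k1 s) ((B.TubeD_k s v).comp (pr B.S.iw)) v :=
    (((contDiff_rho T.rb).differentiable (by norm_num)) _).hasFDerivAt.comp v (h2.sub_const s)
  have h4 := ((B.TubeD_cont hC s).2.2.1.differentiable one_ne_zero v).hasFDerivAt
  have h5 : HasFDerivAt (fun v => a + ⟪c, B.cx v⟫) ((innerSL ℝ c).comp (vtL B.S.iw)) v :=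
    ((innerSL ℝ c).hasFDerivAt.comp v h1).const_add a
  have h6 : HasFDerivAt (B.TubeD_f s a c) _ v := h3.mul (h4.mul h5)
  rw [h6.fderiv]
  have h7 : ⟪c, vt B.S.iw z⟫ = ⟪c, z⟫ := by
    rw [← (inner_vt B.S.iw c z).1, vt_of_pr B.S.iw hc]
  simp only [add_apply, smul_apply, ContinuousLinearMap.comp_apply, innerSL_apply_apply, vtL_apply,
    h7, smul_eq_mul]
  ring

theorem TubeD_chi1 (hC : C' ≤ T.Λ) (v : E (k + 2)) : 0 ≤ B.chi1 v ∧ B.chi1 v ≤ 1 ∧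
    ‖fderiv ℝ B.chi1 v‖ ≤ C' / T.ra ∧ (∀ u, fderiv ℝ B.chi1 v (B.S.iw u) = 0) ∧
    (‖B.cx v‖ ≤ T.ra / 4 → B.chi1 v = 1) ∧ (‖B.cx v‖ < T.ra / 4 → fderiv ℝ B.chi1 v = 0) ∧
    (T.ra / 2 < ‖B.cx v‖ → B.chi1 v = 0 ∧ fderiv ℝ B.chi1 v = 0) := by
  obtain ⟨-, -, -, -, -, hp, -, -, -, hr, -⟩ := T.num
  have hra : 0 < T.ra := by linarith
  have hc := (B.TubeD_cont hC 0).1.continuous
  have h1 : ∀ v, ‖B.cx v‖ ≤ T.ra / 4 → B.chi1 v = 1 := fun v hv =>
    B.prof.one₁ _ (pow_le_pow_left₀ (norm_nonneg _) hv 2)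
  have h2 : ∀ v, T.ra / 2 ≤ ‖B.cx v‖ → B.chi1 v = 0 := fun v hv =>
    B.prof.zero₁ _ (pow_le_pow_left₀ (by linarith : 0 ≤ T.ra / 2) hv 2)
  refine ⟨(B.prof.bd₁ _).1, (B.prof.bd₁ _).2.1, norm_fderiv_le_of_lip' ℝ
    (div_nonneg (by linarith [B.C_ge]) hra.le) (Eventually.of_forall fun x =>
      (B.weights hC).2.2.2.2.2.2.2.2.2.2.1 x v), fun u => ?_, h1 v, fun hv => ?_,
    fun hv => ⟨h2 v hv.le, ?_⟩⟩
  · have h3 : Differentiable ℝ fun z : E (k + 2) => B.χ₁ (‖z‖ ^ 2) :=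
      (B.prof.smooth₁.differentiable (by norm_num)).comp
        ((contDiff_norm_sq ℝ (n := 1)).differentiable one_ne_zero)
    have h4 : HasFDerivAt B.chi1 _ v := (h3 _).hasFDerivAt.comp v (B.calc_coord v).1
    rw [h4.fderiv, ContinuousLinearMap.comp_apply, vtL_apply, vt_iota, map_zero]
  · have : B.chi1 =ᶠ[𝓝 v] fun _ => 1 :=
      ((isOpen_lt hc.norm continuous_const).eventually_mem hv).mono fun w hw => h1 w (le_of_lt hw)
    rw [this.fderiv_eq, fderiv_fun_const, Pi.zero_apply]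
  · have : B.chi1 =ᶠ[𝓝 v] fun _ => 0 :=
      ((isOpen_lt continuous_const hc.norm).eventually_mem hv).mono fun w hw => h2 w (le_of_lt hw)
    rw [this.fderiv_eq, fderiv_fun_const, Pi.zero_apply]

/-- the support of the weights -/
theorem TubeD_cases (hC : C' ≤ T.Λ) (s : E k) (v : E (k + 2)) :
    (B.k1 s v = 0 ∧ B.TubeD_k s v = 0) ∨ (B.chi1 v = 0 ∧ fderiv ℝ B.chi1 v = 0) ∨
      (‖v - B.ax s‖ < 2 * T.rb ∧ ‖B.cx v‖ ≤ T.ra / 2) := by
  obtain ⟨-, -, -, -, -, hp, -, -, -, hr, hr', -⟩ := T.num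
  have hrb : 0 < T.rb := by linarith
  by_cases h1 : T.rb ≤ ‖B.wx v - s‖
  · refine Or.inl ⟨rho_eq_zero hrb h1, ContinuousLinearMap.ext fun u => ?_⟩
    rw [TubeD_k, fderiv_rho hrb, max_eq_right]
    · simp
    · rw [sub_nonpos, one_le_div (by positivity)]
      exact pow_le_pow_left₀ hrb.le h1 2
  by_cases h2 : T.ra / 2 < ‖B.cx v‖
  · exact Or.inr (Or.inl ((B.TubeD_chi1 hC v).2.2.2.2.2.2 h2))
  rw [not_le] at h1
  rw [not_lt] at h2
  refine Or.inr (Or.inr ⟨?_, h2⟩)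
  obtain ⟨-, e1, e2, e3, -⟩ := B.coord v (B.ax s) s
  rw [e1, e2, sub_zero] at e3
  refine lt_of_pow_lt_pow_left₀ 2 (by positivity) ?_
  have := norm_nonneg (B.wx v - s)
  have := norm_nonneg (B.cx v)
  nlinarith only [e3, hp, hr, hr', h1, h2, ‹0 ≤ ‖B.wx v - s‖›, this]

theorem TubeD_cases' (hC : C' ≤ T.Λ) {s : E k} (hs : ‖B.ax s‖ ≤ 3 / 5) (v : E (k + 2)) :
    (B.k1 s v = 0 ∧ B.TubeD_k s v = 0) ∨ (B.chi1 v = 0 ∧ fderiv ℝ B.chi1 v = 0) ∨
      (‖v‖ < 7 / 10 ∧ ‖B.cx v‖ ≤ 1) := by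
  obtain ⟨-, -, -, -, -, hp, -, -, hb, hr, hr', -⟩ := T.num
  refine (B.TubeD_cases hC s v).imp_right (Or.imp_right fun h => ⟨?_, by linarith [h.2]⟩)
  linarith only [hs, hp, hb, hr, hr', h, norm_le_norm_sub_add v (B.ax s), h.1]

theorem TubeD_zero (hC : C' ≤ T.Λ) {s : E k} (hs : ‖B.ax s‖ ≤ 3 / 5) (a : ℝ) (c : E (k + 2))
    {v : E (k + 2)} (hv : 7 / 10 ≤ ‖v‖) : B.k1 s v * B.chi1 v = 0 ∧ B.TubeD_f s a c v = 0 := by
  rcases B.TubeD_cases' hC hs v with h | h | h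
  · simp [TubeD_f, h.1]
  · simp [TubeD_f, h.1]
  · linarith [h.1]

/-- domination by the small quantities -/
theorem TubeD_dom {g : E N → ℝ} {K K' : ℝ} (hK : 0 ≤ K) (hK' : 0 ≤ K')
    (h : ∀ y, g y = 0 ∨ (‖T.x y‖ < 7 / 10 ∧ |g y| ≤ K * (B.Nw y + ‖B.cx (T.x y)‖ ^ 2 * T.d y +
      if T.ra / 4 ≤ ‖B.cx (T.x y)‖ then T.d y else 0) + K' * T.d y)) :
    |∫ y, g y ∂T.μ| ≤ K * (3 * C' * T.eps * T.M) + K' * T.M := by
  obtain ⟨he, -, -, -, -, hp, -, -, hb, hr, hr', -⟩ := T.num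
  have m1 : MeasurableSet (T.x ⁻¹' ball 0 1) := T.measurable_all.1 measurableSet_ball
  have m2 : MeasurableSet (T.x ⁻¹' B.Out) := T.measurable_all.1 B.measurable_all.2.2.2.2.2.2
  have i1 : Integrable B.Nw T.μ := T.integrable_of_bd B.measurable_all.1 (M := (k + 2 : ℕ))
    fun y _ _ => by
      rw [Real.norm_of_nonneg (B.Nw_bd y).1]; exact (B.Nw_bd y).2.1.trans (T.d_bd y).2
  have i2 : Integrable (fun y => ‖B.cx (T.x y)‖ ^ 2 * T.d y) T.μ :=
    TubeD_int_d T.toFlat (f := fun v => ‖B.cx v‖ ^ 2)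
      (((B.calc_coord 0).2.2 1).1.continuous.norm.pow 2)
  have j1 := i1.indicator m1
  have j2 := i2.indicator m1
  have j3 := T.integrable_d.indicator m2
  have j4 := T.integrable_d.indicator m1
  have h1 := norm_integral_le_of_norm_le (f := g)
    ((((j1.add j2).add j3).const_mul K).add (j4.const_mul K')) (Eventually.of_forall fun y => by
      have d0 := (T.d_bd y).1
      have n0 := (B.Nw_bd y).1
      simp only [Pi.add_apply]
      rcases h y with h | ⟨h1, h2⟩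
      · rw [h, norm_zero]
        have a1 := indicator_nonneg (s := T.x ⁻¹' ball 0 1) (f := B.Nw)
          (fun y _ => (B.Nw_bd y).1) y
        have a2 := indicator_nonneg (s := T.x ⁻¹' ball 0 1)
          (f := fun y => ‖B.cx (T.x y)‖ ^ 2 * T.d y)
          (fun y _ => mul_nonneg (sq_nonneg _) (T.d_bd y).1) y
        have a3 := indicator_nonneg (s := T.x ⁻¹' B.Out) (f := T.d) (fun y _ => (T.d_bd y).1) y
        have a4 := indicator_nonneg (s := T.x ⁻¹' ball 0 1) (f := T.d) (fun y _ => (T.d_bd y).1) y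
        positivity
      · have k1 : y ∈ T.x ⁻¹' ball 0 1 := mem_ball_zero_iff.2 (by linarith only [hp, hb, hr, hr', h1])
        simp only [indicator_of_mem k1]
        refine h2.trans (add_le_add_left (mul_le_mul_of_nonneg_left (add_le_add_right ?_ _) hK) _)
        split_ifs with k2
        · rw [indicator_of_mem (show y ∈ T.x ⁻¹' B.Out from ⟨by linarith only [hp, hb, hr, hr', h1], by linarith only [hp, hr, k2]⟩)]
        · exact indicator_nonneg (fun y _ => (T.d_bd y).1) y)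
  refine h1.trans ?_
  rw [integral_add' ((((j1.add j2).add j3).const_mul K)) (j4.const_mul K'), integral_const_mul,
    integral_const_mul, integral_add' (j1.add j2) j3, integral_add' j1 j2, integral_indicator m1,
    integral_indicator m1, integral_indicator m2, integral_indicator m1]
  have b1 : ∫ y in T.x ⁻¹' ball 0 1, B.Nw y ∂T.μ ≤ _ := B.nw
  have b2 : ∫ y in T.x ⁻¹' ball 0 1, ‖B.cx (T.x y)‖ ^ 2 * T.d y ∂T.μ ≤ _ := B.mom
  have b3 : ∫ y in T.x ⁻¹' B.Out, T.d y ∂T.μ ≤ _ := B.out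
  have b4 : ∫ y in T.x ⁻¹' ball 0 1, T.d y ∂T.μ ≤ T.M :=
    T.M_eq ▸ (T.DS_mono (ball_subset_ball (by norm_num : (1 : ℝ) ≤ 3))).2
  have b5 : T.eps * T.M ≤ C' * T.eps * T.M := by
    rw [mul_assoc]
    exact le_mul_of_one_le_left (mul_pos he T.M_pos).le B.C_ge
  exact add_le_add (mul_le_mul_of_nonneg_left (by linarith) hK) (mul_le_mul_of_nonneg_left b4 hK')

theorem TubeD_pr (y : E N) (e : E (k + 2)) :
    ‖pr B.S.iw (TubeD_P T.toFlat y e)‖ ^ 2 ≤ B.Nw y * T.NN y e e := by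
  set q := pr B.S.iw (TubeD_P T.toFlat y e) with hq
  have h1 : T.NN y (B.S.iw q) e = ‖q‖ ^ 2 := by
    rw [← TubeD_inner, inner_iota, ← hq, real_inner_self_eq_norm_sq]
  have h2 := (TubeD_NN T.toFlat y (B.S.iw q) e).2.2.1
  have h3 := mul_le_mul_of_nonneg_right ((B.Nw_bd y).2.2.1 q) (TubeD_NN T.toFlat y e e).1
  have h4 := mul_nonneg (B.Nw_bd y).1 (TubeD_NN T.toFlat y e e).1
  rw [h1] at h2
  rcases (sq_nonneg ‖q‖).eq_or_lt with k | k
  · rwa [← k]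
  · exact le_of_mul_le_mul_left (by nlinarith only [h2, h3]) k

/-- the stress identity for the weights of the core -/
theorem TubeD_master (hC : C' ≤ T.Λ) {H : ℝ} (h0 : ∀ x : E k, |rho T.rb x| ≤ H)
    (h1 : ∀ x : E k, ‖fderiv ℝ (rho T.rb) x‖ ≤ H) {s : E k} (hs : ‖B.ax s‖ ≤ 3 / 5) {a n : ℝ}
    {c e : E (k + 2)} (hc : pr B.S.iw c = 0) (hn : 0 ≤ n)
    (hl : ∀ v, ‖B.cx v‖ ≤ 1 → |a + ⟪c, B.cx v⟫| * ‖e‖ ≤ n)
    (hN : ∀ y, ‖B.cx (T.x y)‖ ≤ 1 → (a + ⟪c, B.cx (T.x y)⟫) ^ 2 * T.NN y e e ≤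
      n ^ 2 * (B.Nw y + ‖B.cx (T.x y)‖ ^ 2 * T.d y)) :
    |T.ee (fun v => fderiv ℝ (B.TubeD_f s a c) v e) -
      ∫ y, B.k1 s (T.x y) * B.chi1 (T.x y) * T.NN y c e ∂T.μ| ≤
      (H + H * (C' / T.ra)) * n * (3 * C' * T.eps * T.M) := by
  obtain ⟨-, -, -, -, -, hp, -, -, hb, hr, hr', -⟩ := T.num
  have hH : 0 ≤ H := (abs_nonneg _).trans (h0 0)
  have hD : 0 ≤ C' / T.ra := div_nonneg (by linarith only [hp, hb, hr, hr', B.C_ge]) (by linarith)
  obtain ⟨i1, e1, -⟩ := TubeD_stress T.toFlat (B.TubeD_smooth hC s a c)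
    (fun v hv => (B.TubeD_zero hC hs a c (by linarith only [hp, hb, hr, hr', hv])).2) e
  obtain ⟨-, -, c3, c4, -⟩ := B.TubeD_cont hC s
  rw [e1, ← integral_sub i1 (TubeD_int_NN T.toFlat (f := fun v => B.k1 s v * B.chi1 v)
    (c4.continuous.mul c3.continuous) c e)]
  refine (B.TubeD_dom (K := (H + H * (C' / T.ra)) * n) (K' := 0) (by positivity) le_rfl
    fun y => ?_).trans_eq (by ring)
  rw [B.TubeD_fderiv hC s a hc, TubeD_inner, add_sub_cancel_right]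
  rcases B.TubeD_cases' hC hs (T.x y) with h | h | h
  · exact Or.inl (by simp [h.1, h.2])
  · exact Or.inl (by simp [h.1, h.2])
  refine Or.inr ⟨h.1, (abs_add_le _ _).trans ?_⟩
  obtain ⟨x0, x1, x2, -, -, x3, -⟩ := B.TubeD_chi1 hC (T.x y)
  have d0 := (T.d_bd y).1
  have n0 := (B.Nw_bd y).1
  have l1 := hl _ h.2
  have l2 := hN _ h.2
  have p1 := B.TubeD_pr y e
  have p2 := TubeD_P_le T.toFlat y e
  generalize a + ⟪c, B.cx (T.x y)⟫ = l at *
  have w0 : 0 ≤ ‖B.cx (T.x y)‖ ^ 2 * T.d y := by positivity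
  have t1 : ‖pr B.S.iw (TubeD_P T.toFlat y e)‖ * |l| ≤
      n * (B.Nw y + ‖B.cx (T.x y)‖ ^ 2 * T.d y) := by
    refine le_of_pow_le_pow_left₀ two_ne_zero (by positivity) ?_
    rw [mul_pow, sq_abs, mul_pow]
    calc _ ≤ B.Nw y * T.NN y e e * l ^ 2 := mul_le_mul_of_nonneg_right p1 (sq_nonneg _)
      _ = B.Nw y * (l ^ 2 * T.NN y e e) := by ring
      _ ≤ (B.Nw y + ‖B.cx (T.x y)‖ ^ 2 * T.d y) *
          (n ^ 2 * (B.Nw y + ‖B.cx (T.x y)‖ ^ 2 * T.d y)) :=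
        mul_le_mul (by linarith only [w0]) l2 (mul_nonneg (sq_nonneg _) (TubeD_NN T.toFlat y e e).1)
          (by positivity)
      _ = _ := by ring
  have t2 : |B.TubeD_k s (T.x y) (pr B.S.iw (TubeD_P T.toFlat y e)) * (B.chi1 (T.x y) * l)| ≤
      H * (n * (B.Nw y + ‖B.cx (T.x y)‖ ^ 2 * T.d y)) := by
    rw [abs_mul, abs_mul, abs_of_nonneg x0]
    calc _ ≤ H * ‖pr B.S.iw (TubeD_P T.toFlat y e)‖ * (1 * |l|) := by
          gcongr
          exact (B.TubeD_k s (T.x y)).le_of_opNorm_le (h1 _) _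
      _ ≤ _ := by rw [one_mul, mul_assoc]; exact mul_le_mul_of_nonneg_left t1 hH
  have t3 : |B.k1 s (T.x y) * (fderiv ℝ B.chi1 (T.x y) (TubeD_P T.toFlat y e) * l)| ≤
      H * (C' / T.ra) * n * if T.ra / 4 ≤ ‖B.cx (T.x y)‖ then T.d y else 0 := by
    split_ifs with k1
    · rw [abs_mul, abs_mul]
      calc _ ≤ H * (C' / T.ra * (T.d y * ‖e‖) * |l|) := by
            gcongr
            · exact h0 _
            · exact ((fderiv ℝ B.chi1 (T.x y)).le_of_opNorm_le x2 _).trans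
                (mul_le_mul_of_nonneg_left p2 hD)
        _ = H * (C' / T.ra) * (|l| * ‖e‖) * T.d y := by ring
        _ ≤ _ := by gcongr
    · simp [x3 (not_le.1 k1)]
  have t4 : 0 ≤ if T.ra / 4 ≤ ‖B.cx (T.x y)‖ then T.d y else 0 := by
    split_ifs
    · exact d0
    · exact le_rfl
  generalize (if T.ra / 4 ≤ ‖B.cx (T.x y)‖ then T.d y else 0) = z at *
  generalize ‖B.cx (T.x y)‖ ^ 2 * T.d y = w at *
  have t5 : 0 ≤ H * n * z := by positivity
  have t6 : 0 ≤ H * (C' / T.ra) * n * (B.Nw y + w) := by positivity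
  nlinarith only [t3, t2, t5, t6]

theorem TubeD_conv (hC : C' ≤ T.Λ) {H : ℝ} (h0 : ∀ x : E k, |rho T.rb x| ≤ H)
    (h1 : ∀ x : E k, ‖fderiv ℝ (rho T.rb) x‖ ≤ H) (a : ℝ) (c : E (k + 2)) :
    ContDiff ℝ 1 (fun s => T.ee (B.TubeD_f s a c)) ∧ ∀ s u,
      fderiv ℝ (fun s => T.ee (B.TubeD_f s a c)) s u = -∫ y, B.TubeD_k s (T.x y) u *
        (B.chi1 (T.x y) * (a + ⟪c, B.cx (T.x y)⟫)) ∂T.μ := by
  obtain ⟨c1, c2, c3, -⟩ := B.TubeD_cont hC 0
  obtain ⟨k1, k2⟩ := conv_meas1 T.μ (ζ := fun y => B.wx (T.x y))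
    (c2.continuous.measurable.comp T.measurable_all.1)
    (TubeD_int T.toFlat (f := fun v => B.chi1 v * (a + ⟪c, B.cx v⟫))
      (c3.continuous.mul (continuous_const.add (continuous_const.inner c1.continuous))))
    ((contDiff_rho T.rb).of_le (by norm_num)) h0 h1
  have e : (fun s => T.ee (B.TubeD_f s a c)) = fun s => (∫ y, rho T.rb (B.wx (T.x y) - s) •
      (B.chi1 (T.x y) * (a + ⟪c, B.cx (T.x y)⟫)) ∂T.μ) - Q * ∫ ξ, B.TubeD_f 0 a c ξ := by
    funext s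
    rw [Flat.ee, ← integral_add_right_eq_self (B.TubeD_f s a c) (B.S.iw s)]
    congr 3
    funext ξ
    have e1 : B.wx (ξ + B.S.iw s) - s = B.wx ξ - 0 := by
      rw [wx, wx, add_sub_right_comm, map_add, pr_iota, add_sub_cancel_right, sub_zero]
    have e2 : B.cx (ξ + B.S.iw s) = B.cx ξ := by
      rw [cx, cx, add_sub_right_comm, vt_add, vt_iota, add_zero]
    simp only [TubeD_f, Tb.k1, chi1, e1, e2]
  rw [e]
  refine ⟨k1.sub contDiff_const, fun s u => ?_⟩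
  rw [fderiv_sub_const, k2]
  rfl

theorem TubeD_ell (a : ℝ) (c : E (k + 2)) {v : E (k + 2)} (hv : ‖B.cx v‖ ≤ 1) :
    |a + ⟪c, B.cx v⟫| ≤ |a| + ‖c‖ :=
  (abs_add_le _ _).trans (add_le_add_right ((abs_real_inner_le_norm _ _).trans
    (mul_le_of_le_one_right (norm_nonneg _) hv)) _)

/-- tension and tilt -/
theorem TubeD_tilt (hC : C' ≤ T.Λ) {H : ℝ} (h0 : ∀ x : E k, |rho T.rb x| ≤ H)
    (h1 : ∀ x : E k, ‖fderiv ℝ (rho T.rb) x‖ ≤ H) {s : E k} (hs : ‖B.ax s‖ ≤ 3 / 5) (a : ℝ)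
    {c : E (k + 2)} (hc : pr B.S.iw c = 0) (u : E k) :
    |∫ y, B.TubeD_k s (T.x y) u * (B.chi1 (T.x y) * (a + ⟪c, B.cx (T.x y)⟫)) ∂T.μ -
      ∫ y, B.k1 s (T.x y) * B.chi1 (T.x y) * T.NN y c (B.S.iw u) ∂T.μ| ≤
      (H + H * (C' / T.ra)) * ((|a| + ‖c‖) * ‖u‖) * (3 * C' * T.eps * T.M) := by
  have h := B.TubeD_master hC h0 h1 hs (a := a) (n := (|a| + ‖c‖) * ‖u‖) (e := B.S.iw u) hc
    (by positivity) (fun v hv => by
      rw [B.S.iw.norm_map]
      exact mul_le_mul_of_nonneg_right (B.TubeD_ell a c hv) (norm_nonneg _)) fun y hy => by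
      have k1 := pow_le_pow_left₀ (abs_nonneg _) (B.TubeD_ell a c hy) 2
      rw [sq_abs] at k1
      have k2 := mul_nonneg (sq_nonneg ‖B.cx (T.x y)‖) (T.d_bd y).1
      calc _ ≤ (|a| + ‖c‖) ^ 2 * (‖u‖ ^ 2 * B.Nw y) := mul_le_mul k1 ((B.Nw_bd y).2.2.1 u)
            (TubeD_NN T.toFlat y _ (B.S.iw u)).1 (sq_nonneg _)
        _ = ((|a| + ‖c‖) * ‖u‖) ^ 2 * B.Nw y := by ring
        _ ≤ _ := mul_le_mul_of_nonneg_left (by linarith) (sq_nonneg _)
  rw [(TubeD_stress T.toFlat (B.TubeD_smooth hC s a c)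
    (fun v hv => (B.TubeD_zero hC hs a c (by linarith)).2) _).2.2] at h
  have e : ⟪c, B.S.iw u⟫ = 0 := by rw [real_inner_comm, inner_iota, hc, inner_zero_right]
  simpa only [B.TubeD_fderiv hC s a hc, pr_iota, fun v => (B.TubeD_chi1 hC v).2.2.2.1 u, e,
    zero_mul, mul_zero, add_zero] using h

/-- isotropy -/
theorem TubeD_iso (hC : C' ≤ T.Λ) {H Cm : ℝ} (h0 : ∀ x : E k, |rho T.rb x| ≤ H)
    (h1 : ∀ x : E k, ‖fderiv ℝ (rho T.rb) x‖ ≤ H) {s : E k} (hs : ‖B.ax s‖ ≤ 3 / 5)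
    (hm : ∀ (f : E (k + 2) → ℝ) (t : ℝ), Measurable f → (∀ x, |f x| ≤ t) →
      (∀ x, ¬(‖x‖ < 7 / 10 ∧ T.ra / 4 ≤ ‖B.cx x‖) → f x = 0) → |T.ee f| ≤ Cm * t * (T.eps * T.M))
    {c : E (k + 2)} (hc : pr B.S.iw c = 0) :
    |‖c‖ ^ 2 * T.ee (fun v => B.k1 s v * B.chi1 v) -
      ∫ y, B.k1 s (T.x y) * B.chi1 (T.x y) * T.NN y c c ∂T.μ| ≤
      (H + H * (C' / T.ra)) * ‖c‖ ^ 2 * (3 * C' * T.eps * T.M) +
        Cm * (H * (C' / T.ra) * ‖c‖ ^ 2) * (T.eps * T.M) := by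
  obtain ⟨-, -, -, -, -, hp, -, -, hb, hr, hr', -⟩ := T.num
  have hH : 0 ≤ H := (abs_nonneg _).trans (h0 0)
  have hD : 0 ≤ C' / T.ra := div_nonneg (by linarith [B.C_ge]) (by linarith)
  have l1 : ∀ v, ‖B.cx v‖ ≤ 1 → |0 + ⟪c, B.cx v⟫| ≤ ‖c‖ := fun v hv => by
    simpa using B.TubeD_ell 0 c hv
  have h := B.TubeD_master hC h0 h1 hs (a := 0) (n := ‖c‖ ^ 2) (e := c) hc (by positivity)
    (fun v hv => by rw [sq]; exact mul_le_mul_of_nonneg_right (l1 v hv) (norm_nonneg _))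
    fun y hy => by
      have k1 := pow_le_pow_left₀ (abs_nonneg _) (abs_real_inner_le_norm c (B.cx (T.x y))) 2
      rw [sq_abs] at k1
      rw [zero_add]
      calc _ ≤ (‖c‖ * ‖B.cx (T.x y)‖) ^ 2 * (T.d y * ‖c‖ ^ 2) := mul_le_mul k1
            (TubeD_NN T.toFlat y c c).2.1 (TubeD_NN T.toFlat y c c).1 (sq_nonneg _)
        _ = (‖c‖ ^ 2) ^ 2 * (‖B.cx (T.x y)‖ ^ 2 * T.d y) := by ring
        _ ≤ _ := mul_le_mul_of_nonneg_left (by linarith [(B.Nw_bd y).1]) (sq_nonneg _)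
  obtain ⟨c1, -, c3, c4, -⟩ := B.TubeD_cont hC s
  have c5 : Continuous fun v => B.k1 s v * (fderiv ℝ B.chi1 v c * (0 + ⟪c, B.cx v⟫)) :=
    c4.continuous.mul (((c3.continuous_fderiv one_ne_zero).clm_apply continuous_const).mul
      (continuous_const.add (continuous_const.inner c1.continuous)))
  have z : ∀ x, ¬(‖x‖ < 7 / 10 ∧ T.ra / 4 ≤ ‖B.cx x‖) →
      B.k1 s x * (fderiv ℝ B.chi1 x c * (0 + ⟪c, B.cx x⟫)) = 0 := fun x hx => by
    rcases B.TubeD_cases' hC hs x with k | k | k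
    · simp [k.1]
    · simp [k.2]
    · simp [(B.TubeD_chi1 hC x).2.2.2.2.2.1 (not_le.1 fun j => hx ⟨k.1, j⟩)]
  have h2 := hm _ (H * (C' / T.ra) * ‖c‖ ^ 2) c5.measurable (fun x => by
    rcases B.TubeD_cases' hC hs x with k | k | k
    · simp only [k.1, zero_mul, abs_zero]; positivity
    · simp only [k.2, zero_apply, zero_mul, mul_zero, abs_zero]; positivity
    · rw [abs_mul, abs_mul]
      calc _ ≤ H * (C' / T.ra * ‖c‖ * ‖c‖) := by
            gcongr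
            · exact h0 _
            · exact (fderiv ℝ B.chi1 x).le_of_opNorm_le (B.TubeD_chi1 hC x).2.2.1 _
            · exact l1 x k.2
        _ = _ := by ring) z
  have e : (fun v => fderiv ℝ (B.TubeD_f s 0 c) v c) = fun v =>
      B.k1 s v * (fderiv ℝ B.chi1 v c * (0 + ⟪c, B.cx v⟫)) + ‖c‖ ^ 2 * (B.k1 s v * B.chi1 v) := by
    funext v
    rw [B.TubeD_fderiv hC s 0 hc, hc, map_zero, real_inner_self_eq_norm_sq]
    ring
  rw [e, (T.lin_add (Adm.of_cont c5 (R := 7 / 10) fun x hx => z x fun j => j.1.not_ge hx)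
    ((Adm.of_cont (f := fun v => B.k1 s v * B.chi1 v) (c4.continuous.mul c3.continuous)
      (R := 7 / 10) fun x hx => (B.TubeD_zero hC hs 0 c hx).1).const_mul _)).2.1,
    (T.lin_smul _ _).2.1] at h
  rw [abs_le] at h h2 ⊢
  constructor <;> linarith only [h, h2, h.1, h.2, h2.1, h2.2]

theorem TubeD_abs (hC : C' ≤ T.Λ) {H : ℝ} (h0 : ∀ x : E k, |rho T.rb x| ≤ H) (s : E k)
    (v : E (k + 2)) : |B.k1 s v * B.chi1 v| ≤ H := by
  rw [abs_mul, abs_of_nonneg (B.TubeD_chi1 hC v).1]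
  exact (mul_le_of_le_one_right (abs_nonneg _) (B.TubeD_chi1 hC v).2.1).trans (h0 _)

/-- the defect -/
theorem TubeD_Y (hC : C' ≤ T.Λ) {H : ℝ} (hH : 0 < H) (h0 : ∀ x : E k, |rho T.rb x| ≤ H)
    (h1 : ∀ x : E k, ‖fderiv ℝ (rho T.rb) x‖ ≤ H) {s : E k} (hs : ‖B.ax s‖ ≤ 3 / 5) {a : ℝ}
    {c : E (k + 2)} (hc : pr B.S.iw c = 0) (ha : |a| + ‖c‖ ≤ 1) (hL : 2 + C' / T.ra ≤ T.L) :
    |T.Y (B.TubeD_f s a c)| ≤ H * (T.eps * T.M) := by
  obtain ⟨-, -, -, -, -, hp, -, -, hb, hr, hr', -⟩ := T.num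
  have hD : 0 ≤ C' / T.ra := div_nonneg (by linarith only [hp, hb, hr, hr', B.C_ge]) (by linarith only [hp, hr])
  have b1 : ∀ v, ‖fderiv ℝ (B.TubeD_f s a c) v‖ ≤ H * (2 + C' / T.ra) := fun v => by
    refine ContinuousLinearMap.opNorm_le_bound _ (by positivity) fun z => ?_
    rw [B.TubeD_fderiv hC s a hc, Real.norm_eq_abs]
    rcases B.TubeD_cases' hC hs v with k | k | k
    · simp only [k.1, k.2, zero_apply, zero_mul, add_zero, abs_zero]; positivity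
    · simp only [k.1, k.2, zero_apply, zero_mul, mul_zero, add_zero, abs_zero]; positivity
    have l := (B.TubeD_ell a c k.2).trans ha
    obtain ⟨x0, x1, x2, -⟩ := B.TubeD_chi1 hC v
    have t1 : |B.TubeD_k s v (pr B.S.iw z) * (B.chi1 v * (a + ⟪c, B.cx v⟫))| ≤
        H * ‖z‖ * (1 * 1) := by
      rw [abs_mul, abs_mul, abs_of_nonneg x0]
      gcongr
      exact ((B.TubeD_k s v).le_of_opNorm_le (h1 _) _).trans
        (mul_le_mul_of_nonneg_left (norm_pr_le _ z).1 hH.le)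
    have t2 : |B.k1 s v * (fderiv ℝ B.chi1 v z * (a + ⟪c, B.cx v⟫))| ≤
        H * (C' / T.ra * ‖z‖ * 1) := by
      rw [abs_mul, abs_mul]
      gcongr
      · exact h0 _
      · exact (fderiv ℝ B.chi1 v).le_of_opNorm_le x2 _
    have t3 : |B.k1 s v * B.chi1 v * ⟪c, z⟫| ≤ H * ‖z‖ := by
      rw [abs_mul]
      gcongr
      · exact B.TubeD_abs hC h0 s v
      · exact (abs_real_inner_le_norm _ _).trans
          (mul_le_of_le_one_left (norm_nonneg _) (by linarith only [ha, abs_nonneg a]))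
    refine ((abs_add_le _ _).trans (add_le_add_left (abs_add_le _ _) _)).trans ?_
    linarith only [t1, t2, t3]
  have h := T.g3 (fun v => H⁻¹ * B.TubeD_f s a c v) (fun x x' => by
    have := convex_univ.norm_image_sub_le_of_norm_fderiv_le (fun v _ =>
      (B.TubeD_smooth hC s a c).differentiable one_ne_zero v) (fun v _ => b1 v)
      (mem_univ x') (mem_univ x)
    rw [← mul_sub, norm_mul, Real.norm_of_nonneg (inv_pos.2 hH).le, inv_mul_le_iff₀ hH]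
    refine this.trans ?_
    rw [mul_assoc]
    gcongr) (fun v => by
    rw [abs_mul, abs_of_pos (inv_pos.2 hH), inv_mul_le_iff₀ hH, mul_one]
    rcases B.TubeD_cases' hC hs v with k | k | k
    · simp [TubeD_f, k.1, hH.le]
    · simp [TubeD_f, k.1, hH.le]
    · rw [TubeD_f, ← mul_assoc, abs_mul]
      exact (mul_le_of_le_one_right (abs_nonneg _) ((B.TubeD_ell a c k.2).trans ha)).trans
        (B.TubeD_abs hC h0 s v))
    fun v hv => by rw [(B.TubeD_zero hC hs a c (by linarith)).2, mul_zero]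
  rwa [(T.lin_smul _ _).2.2, abs_mul, abs_of_pos (inv_pos.2 hH), inv_mul_le_iff₀ hH] at h

end aux

end Tb

end Pool.Agent.MP_f6c0e6_an.Gen

end

section

/-! Energy, tension and centre of the core. -/

set_option autoImplicit false

open MeasureTheory Filter Topology Set Metric
open scoped ENNReal RealInnerProductSpace

namespace Pool.Agent.MP_f6c0e6_an.Gen

variable {m N : ℕ}

namespace Tb

section aux

variable {k Q : ℕ} {A C C' : ℝ} {T : TI k N Q A C} (B : Tb T C')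

theorem TubeD_nonneg (hC : C' ≤ T.Λ) (s : E k) (v : E (k + 2)) : 0 ≤ B.k1 s v * B.chi1 v := by
  obtain ⟨-, -, -, -, -, hp, -, -, -, hr, hr', -⟩ := T.num
  exact mul_nonneg (rho_nonneg (by linarith) _) (B.TubeD_chi1 hC v).1

/-- upper bound for the energy of the core -/
theorem TubeD_up (hC : C' ≤ T.Λ) {H : ℝ} (h0 : ∀ x : E k, |rho T.rb x| ≤ H) {s : E k}
    (hs : ‖B.ax s‖ ≤ 3 / 5) :
    T.DD (fun v => B.k1 s v * B.chi1 v) ≤ H * (C' * T.M * (2 * T.rb) ^ k) := by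
  obtain ⟨-, -, -, -, -, hp, -, -, hb, hr, hr', -⟩ := T.num
  obtain ⟨-, -, c3, c4, -⟩ := B.TubeD_cont hC s
  refine (le_abs_self _).trans ((T.abs_DD_le (f := fun v => B.k1 s v * B.chi1 v)
    (c4.continuous.mul c3.continuous).measurable (B.TubeD_abs hC h0 s)
    (Z := ball (B.ax s) (2 * T.rb) ∩ ball 0 1) (measurableSet_ball.inter measurableSet_ball)
    fun v hv => ?_).trans (mul_le_mul_of_nonneg_left (B.up _ _ (by linarith only [hp, hr, hr']))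
      ((abs_nonneg _).trans (h0 0))))
  rcases B.TubeD_cases hC s v with h | h | h
  · simp [h.1]
  · simp [h.1]
  · exact absurd ⟨mem_ball_iff_norm.2 h.1, mem_ball_zero_iff.2 (by
      linarith only [hs, hp, hb, hr, hr', h, norm_le_norm_sub_add v (B.ax s), h.1])⟩ hv

theorem TubeD_ax : ‖B.ax 0‖ ≤ 3 / 5 := by
  rw [ax, map_zero, add_zero]
  linarith [B.o_le]

/-- lower bound for the energy of the core -/
theorem TubeD_low (hC : C' ≤ T.Λ) {H : ℝ} (h0 : ∀ x : E k, |rho T.rb x| ≤ H) :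
    T.M ≤ 4 * cg k * 2 ^ k * C' * (T.DD (fun v => B.k1 0 v * B.chi1 v) + H * (T.eps * T.M)) := by
  obtain ⟨he, -, -, -, -, hp, -, -, hb, hr, hr', -⟩ := T.num
  obtain ⟨-, -, c3, c4, -⟩ := B.TubeD_cont hC 0
  have hrb : 0 < T.rb := by linarith
  have hg := cg_pos k
  have hC' : 0 < C' := by linarith [B.C_ge]
  have mo := B.measurable_all.2.2.2.2.2.2
  have mz : MeasurableSet (ball B.o (T.rb / 2) \ B.Out) := measurableSet_ball.diff mo
  have h1 := T.DS_le_DD (Adm.of_cont (f := fun v => B.k1 0 v * B.chi1 v)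
    (c4.continuous.mul c3.continuous) (R := 7 / 10)
      fun x hx => (B.TubeD_zero hC B.TubeD_ax 0 0 hx).1) (B.TubeD_nonneg hC 0)
    (t := 1 / (4 * cg k * T.rb ^ k)) mz fun v hv => by
      have k1 := mem_ball_iff_norm.1 hv.1
      have k2 : ‖B.cx v‖ < T.rp / 8 := not_le.1 fun j => hv.2 ⟨by
        linarith only [hp, hb, hr, hr', k1, norm_le_norm_sub_add v B.o, B.o_le], j⟩
      rw [(B.TubeD_chi1 hC v).2.2.2.2.1 (by linarith), mul_one]
      refine rho_ge hrb ?_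
      rw [sub_zero]
      exact (norm_pr_le _ _).1.trans k1.le
  have h2 := (B.low (T.rb / 2) (by linarith only [hp, hr, hr']) (by linarith)).trans (mul_le_mul_of_nonneg_left
    (((T.DS_mono (by rw [sdiff_union_self]; exact subset_union_left)).2.trans
      (T.DS_union_le mz mo)).trans (add_le_add_right B.out _)) hC'.le)
  have h3 : 1 / (4 * cg k * T.rb ^ k) ≤ H :=
    (rho_ge hrb (x := (0 : E k)) (by rw [norm_zero]; positivity)).trans
      ((le_abs_self _).trans (h0 0))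
  have h4 := mul_le_mul_of_nonneg_right h3 (mul_pos he T.M_pos).le
  calc T.M = 4 * cg k * 2 ^ k * (1 / (4 * cg k * T.rb ^ k) * (T.M * (T.rb / 2) ^ k)) := by
        rw [div_pow]; field_simp
    _ ≤ 4 * cg k * 2 ^ k * (1 / (4 * cg k * T.rb ^ k) *
        (C' * (T.DS (ball B.o (T.rb / 2) \ B.Out) + T.eps * T.M))) := by gcongr
    _ = 4 * cg k * 2 ^ k * C' * (1 / (4 * cg k * T.rb ^ k) * T.DS (ball B.o (T.rb / 2) \ B.Out) +
        1 / (4 * cg k * T.rb ^ k) * (T.eps * T.M)) := by ring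
    _ ≤ _ := by gcongr

/-- the first moments -/
theorem TubeD_mom (hC : C' ≤ T.Λ) {H t : ℝ} (h0 : ∀ x : E k, |rho T.rb x| ≤ H) (ht : 0 < t)
    {s : E k} (hs : ‖B.ax s‖ ≤ 3 / 5) {c : E (k + 2)} (hc : ‖c‖ ≤ 1) :
    |T.DD (B.TubeD_f s 0 c)| ≤ H / t * (3 * C' * T.eps * T.M) + H * t * T.M ∧ ∀ u,
      |∫ y, B.k1 s (T.x y) * B.chi1 (T.x y) * T.NN y c (B.S.iw u) ∂T.μ| ≤
        (H / t * (3 * C' * T.eps * T.M) + H * t * T.M) * ‖u‖ := by
  have hH : 0 ≤ H := (abs_nonneg _).trans (h0 0)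
  have t4 : ∀ y, 0 ≤ if T.ra / 4 ≤ ‖B.cx (T.x y)‖ then T.d y else 0 := fun y => by
    split_ifs
    · exact (T.d_bd y).1
    · exact le_rfl
  refine ⟨B.TubeD_dom (by positivity) (by positivity) fun y => ?_, fun u =>
    (B.TubeD_dom (K := H * ‖u‖ / t) (K' := H * ‖u‖ * t) (by positivity) (by positivity)
      fun y => ?_).trans_eq (by ring)⟩
  · by_cases h : ‖T.x y‖ < 7 / 10
    · refine Or.inr ⟨h, ?_⟩
      have d0 := (T.d_bd y).1
      have n0 := (B.Nw_bd y).1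
      have l : |⟪c, B.cx (T.x y)⟫| ≤ ‖B.cx (T.x y)‖ ^ 2 / t + t := by
        refine ((abs_real_inner_le_norm _ _).trans
          (mul_le_of_le_one_left (norm_nonneg _) hc)).trans ?_
        rw [div_add' _ _ _ ht.ne', le_div_iff₀ ht]
        nlinarith only [sq_nonneg (‖B.cx (T.x y)‖ - t), mul_nonneg (norm_nonneg (B.cx (T.x y))) ht.le]
      rw [TubeD_f, zero_add, ← mul_assoc, abs_mul, abs_mul (_ * _), abs_of_nonneg d0]
      calc _ ≤ H * (‖B.cx (T.x y)‖ ^ 2 / t + t) * T.d y := by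
            gcongr
            exact B.TubeD_abs hC h0 s _
        _ = H / t * (0 + ‖B.cx (T.x y)‖ ^ 2 * T.d y + 0) + H * t * T.d y := by ring
        _ ≤ _ := by gcongr; exact t4 y
    · exact Or.inl (by rw [(B.TubeD_zero hC hs 0 c (not_lt.1 h)).2, zero_mul])
  · by_cases h : ‖T.x y‖ < 7 / 10
    · refine Or.inr ⟨h, ?_⟩
      have d0 := (T.d_bd y).1
      have n0 := (B.Nw_bd y).1
      have l : |T.NN y c (B.S.iw u)| ≤ ‖u‖ * (B.Nw y / t + t * T.d y) := by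
        refine abs_le_of_sq_le_sq ?_ (by positivity)
        calc _ ≤ _ := (TubeD_NN T.toFlat y c (B.S.iw u)).2.2.1
          _ ≤ T.d y * 1 ^ 2 * (‖u‖ ^ 2 * B.Nw y) := mul_le_mul ((TubeD_NN T.toFlat y c c).2.1.trans
              (by gcongr)) ((B.Nw_bd y).2.2.1 u) (TubeD_NN T.toFlat y _ (B.S.iw u)).1
              (by positivity)
          _ = ‖u‖ ^ 2 * (B.Nw y / t * (t * T.d y)) := by field_simp
          _ ≤ _ := by
            rw [mul_pow]
            have a1 : 0 ≤ B.Nw y / t := by positivity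
            have a2 : 0 ≤ t * T.d y := by positivity
            exact mul_le_mul_of_nonneg_left (by nlinarith only [a1, a2, mul_nonneg a1 a2]) (sq_nonneg _)
      rw [abs_mul]
      calc _ ≤ H * (‖u‖ * (B.Nw y / t + t * T.d y)) := by
            gcongr
            exact B.TubeD_abs hC h0 s _
        _ = H * ‖u‖ / t * (B.Nw y + 0 + 0) + H * ‖u‖ * t * T.d y := by ring
        _ ≤ _ := by
          gcongr
          · positivity
          · exact t4 y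
    · exact Or.inl (by rw [(B.TubeD_zero hC hs 0 c (not_lt.1 h)).1, zero_mul])

/-- the excess outside the core -/
theorem TubeD_hm {Cm C₀ : ℝ} (hm : 1 ≤ Cm) (h0 : C₀ * T.τ ≤ T.ra / 8)
    (h : ∀ (f : E (k + 2) → ℝ) (M : ℝ) (Z : Set (E (k + 2))), C₀ * T.τ ≤ 1 / 10 →
      Measurable f → (∀ x, |f x| ≤ M) → MeasurableSet Z → Z ⊆ ball 0 9 → (∀ x, x ∉ Z → f x = 0) →
      |T.ee f| ≤ Cm * M * T.DS (thickening (C₀ * T.τ) Z))
    (f : E (k + 2) → ℝ) (t : ℝ) (hf : Measurable f) (ht : ∀ x, |f x| ≤ t)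
    (hz : ∀ x, ¬(‖x‖ < 7 / 10 ∧ T.ra / 4 ≤ ‖B.cx x‖) → f x = 0) :
    |T.ee f| ≤ Cm * t * (T.eps * T.M) := by
  obtain ⟨he, -, -, -, -, hp, -, -, hb, hr, hr', -⟩ := T.num
  have hc := ((B.calc_coord 0).2.2 1).1.continuous
  have h1 : 0 ≤ t := (abs_nonneg _).trans (ht 0)
  refine (h f t {x | ‖x‖ < 7 / 10 ∧ T.ra / 4 ≤ ‖B.cx x‖} (by linarith only [h0, hp, hb, hr, hr']) hf ht
    ((isOpen_lt continuous_norm continuous_const).measurableSet.inter
      (isClosed_le continuous_const hc.norm).measurableSet)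
    (fun x hx => mem_ball_zero_iff.2 (by linarith [hx.1])) hz).trans
    (mul_le_mul_of_nonneg_left ((T.DS_mono fun x hx => ?_).2.trans B.out) (by positivity))
  obtain ⟨z, hz, hd⟩ := mem_thickening_iff.1 hx
  rw [dist_eq_norm] at hd
  have k1 : ‖B.cx z - B.cx x‖ ≤ ‖x - z‖ := by
    refine le_of_pow_le_pow_left₀ two_ne_zero (norm_nonneg _) ?_
    rw [(B.coord x z 0).2.2.2.1, norm_sub_rev (B.cx z)]
    exact le_add_of_nonneg_left (sq_nonneg _)
  exact ⟨by linarith only [h0, hp, hb, hr, hr', hd, norm_le_norm_sub_add x z, hz.1], show T.rp / 8 ≤ ‖B.cx x‖ by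
    linarith only [h0, hp, hr, hd, k1, norm_le_norm_sub_add (B.cx z) (B.cx x), hz.2]⟩

/-- the tension is almost constant -/
theorem TubeD_ten (hC : C' ≤ T.Λ) {H : ℝ} (h0 : ∀ x : E k, |rho T.rb x| ≤ H)
    (h1 : ∀ x : E k, ‖fderiv ℝ (rho T.rb) x‖ ≤ H) {s : E k} (hs : ‖B.ax s‖ ≤ 3 / 5) :
    |T.ee (fun v => B.k1 s v * B.chi1 v) - B.M0| ≤
      (H + H * (C' / T.ra)) * (3 * C' * T.eps * T.M) * 2 := by
  obtain ⟨he, -, -, -, -, hp, -, -, hb, hr, hr', -⟩ := T.num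
  have hH : 0 ≤ H := (abs_nonneg _).trans (h0 0)
  have hC' : 0 < C' := by linarith only [hp, hb, hr, hr', B.C_ge]
  have hD : 0 ≤ C' / T.ra := div_nonneg hC'.le (by linarith only [hp, hr])
  have hE : 0 ≤ (H + H * (C' / T.ra)) * (3 * C' * T.eps * T.M) :=
    mul_nonneg (add_nonneg hH (mul_nonneg hH hD))
      (mul_nonneg (mul_nonneg (by linarith) he.le) T.M_pos.le)
  obtain ⟨k1, k2⟩ := B.TubeD_conv hC h0 h1 1 0
  have e : ∀ s, B.TubeD_f s 1 0 = fun v => B.k1 s v * B.chi1 v := fun s => by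
    funext v
    simp [TubeD_f]
  have hv : Convex ℝ {s : E k | ‖B.ax s‖ ≤ 3 / 5} := fun x hx y hy a b ha hb hab => by
    have h : B.ax (a • x + b • y) = a • B.ax x + b • B.ax y := by
      simp only [ax, map_add, map_smul, smul_add]
      rw [add_add_add_comm, ← add_smul, hab, one_smul]
    rw [mem_ofPred_eq, h]
    exact mem_closedBall_zero_iff.1 (convex_closedBall 0 _ (mem_closedBall_zero_iff.2 hx)
      (mem_closedBall_zero_iff.2 hy) ha hb hab)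
  have h := hv.norm_image_sub_le_of_norm_fderiv_le (fun s _ => k1.differentiable one_ne_zero s)
    (C := (H + H * (C' / T.ra)) * (3 * C' * T.eps * T.M)) (fun s hs =>
      ContinuousLinearMap.opNorm_le_bound _ hE fun u => by
        have := B.TubeD_tilt hC h0 h1 hs 1 (c := 0) (map_zero _) u
        rw [k2, norm_neg, Real.norm_eq_abs]
        simp only [← TubeD_inner, inner_zero_left (𝕜 := ℝ) (TubeD_P _ _ _), mul_zero, integral_zero,
          sub_zero, abs_one, norm_zero, add_zero, one_mul] at this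
        exact this.trans_eq (by ring)) B.TubeD_ax hs
  rw [e, e, Real.norm_eq_abs] at h
  refine h.trans (mul_le_mul_of_nonneg_left ?_ hE)
  have h2 : ‖s‖ = ‖B.ax s - B.o‖ := by rw [ax, add_sub_cancel_left, B.S.iw.norm_map]
  rw [sub_zero, h2]
  linarith only [hs, hp, hb, hr, hr', norm_sub_le (B.ax s) B.o, B.o_le]

theorem TubeD_c (j : Fin 2) : pr B.S.iw (B.S.ic (ev j)) = 0 ∧ ‖B.S.ic (ev j)‖ = 1 :=
  ⟨ext_inner_left ℝ fun u => by rw [← inner_iota, B.S.orth, inner_zero_right],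
    by rw [B.S.ic.norm_map, norm_ev]⟩

theorem TubeD_two {a : Fin 2 → ℝ} {b : ℝ} (t : ℝ) (h : ∀ j, |a j| ≤ b) :
    ‖t • ∑ j, a j • B.S.ic (ev j)‖ ≤ |t| * (2 * b) := by
  rw [norm_smul, Real.norm_eq_abs]
  refine mul_le_mul_of_nonneg_left ((norm_sum_le _ _).trans ?_) (abs_nonneg _)
  simp only [norm_smul, (B.TubeD_c _).2, mul_one, Real.norm_eq_abs, Fin.sum_univ_two]
  linarith [h 0, h 1]

theorem TubeD_pr2 (a : Fin 2 → ℝ) (t : ℝ) : pr B.S.iw (t • ∑ j, a j • B.S.ic (ev j)) = 0 := by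
  simp only [map_smul, map_sum, (B.TubeD_c _).1, smul_zero, Finset.sum_const_zero]

theorem TubeD_gm_eq (s : E k) :
    B.gm s = B.M0⁻¹ • ∑ j, T.ee (B.TubeD_f s 0 (B.S.ic (ev j))) • B.S.ic (ev j) := by
  rw [gm]
  congr 2
  funext j
  congr 2
  funext v
  rw [TubeD_f, zero_add, mul_assoc]

/-- the derivative of the centre -/
theorem TubeD_gm (hC : C' ≤ T.Λ) {H : ℝ} (h0 : ∀ x : E k, |rho T.rb x| ≤ H)
    (h1 : ∀ x : E k, ‖fderiv ℝ (rho T.rb) x‖ ≤ H) : ContDiff ℝ 1 B.gm ∧ ∀ s u,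
      fderiv ℝ B.gm s u = B.M0⁻¹ • ∑ j, (-∫ y, B.TubeD_k s (T.x y) u * (B.chi1 (T.x y) *
        (0 + ⟪B.S.ic (ev j), B.cx (T.x y)⟫)) ∂T.μ) • B.S.ic (ev j) := by
  have h := fun j => B.TubeD_conv hC h0 h1 0 (B.S.ic (ev j))
  rw [funext B.TubeD_gm_eq]
  refine ⟨(ContDiff.sum fun j _ => (h j).1.smul contDiff_const).const_smul _, fun s u => ?_⟩
  have h2 := (HasFDerivAt.fun_sum (u := Finset.univ) fun j _ =>
    ((h j).1.differentiable one_ne_zero s).hasFDerivAt.smul_const (B.S.ic (ev j))).fun_const_smul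
      B.M0⁻¹
  rw [h2.fderiv]
  simp only [smul_apply, sum_apply, ContinuousLinearMap.smulRight_apply,
    (h _).2]

theorem TubeD_gm_inner (hC : C' ≤ T.Λ) {H : ℝ} (h0 : ∀ x : E k, |rho T.rb x| ≤ H)
    (h1 : ∀ x : E k, ‖fderiv ℝ (rho T.rb) x‖ ≤ H) (hM : B.M0 ≠ 0) (s u : E k) (c : E (k + 2)) :
    B.M0 * ⟪c, fderiv ℝ B.gm s u⟫ =
      -∫ y, B.TubeD_k s (T.x y) u * (B.chi1 (T.x y) * (0 + ⟪c, B.cx (T.x y)⟫)) ∂T.μ := by
  obtain ⟨c1, -, c3, -, c5⟩ := B.TubeD_cont hC s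
  rw [(B.TubeD_gm hC h0 h1).2, real_inner_smul_right, mul_inv_cancel_left₀ hM, inner_sum]
  simp only [real_inner_smul_right, neg_mul, ← integral_mul_const, Finset.sum_neg_distrib]
  rw [← integral_finsetSum _ fun j _ => (TubeD_int T.toFlat (f := fun v => B.TubeD_k s v u *
    (B.chi1 v * (0 + ⟪B.S.ic (ev j), B.cx v⟫))) ((c5.clm_apply continuous_const).mul
      (c3.continuous.mul (continuous_const.add
        (continuous_const.inner c1.continuous))))).mul_const _]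
  congr 2
  funext y
  conv_rhs => rw [(B.coord (T.x y) 0 0).2.2.2.2.2]
  simp only [inner_sum, real_inner_smul_right, zero_add, Finset.mul_sum, mul_assoc]

/-- positivity of the stress -/
theorem TubeD_pos (hC : C' ≤ T.Λ) (s : E k) (t : Fin k → E (k + 2)) :
    -∑ i, (∫ y, B.k1 s (T.x y) * B.chi1 (T.x y) * T.NN y (t i) (B.S.iw (ev i)) ∂T.μ +
      ∫ y, B.k1 s (T.x y) * B.chi1 (T.x y) * T.NN y (t i) (t i) ∂T.μ) ≤
    ∫ y, B.k1 s (T.x y) * B.chi1 (T.x y) *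
      (B.Nw y + ∑ i, T.NN y (B.S.iw (ev i)) (t i)) ∂T.μ := by
  obtain ⟨-, -, c3, c4, -⟩ := B.TubeD_cont hC s
  have hi := TubeD_int_NN T.toFlat (f := fun v => B.k1 s v * B.chi1 v)
    (c4.continuous.mul c3.continuous)
  simp only [Nw, ← Finset.sum_add_distrib, Finset.mul_sum, mul_add]
  rw [integral_finsetSum _ fun i _ => (hi _ _).fun_add (hi _ _), ← Finset.sum_neg_distrib]
  refine Finset.sum_le_sum fun i _ => ?_
  rw [← integral_add (hi _ _) (hi _ _), ← integral_neg]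
  refine integral_mono ((hi _ _).add (hi _ _)).neg ((hi _ _).add (hi _ _)) fun y => ?_
  have h := mul_nonneg (B.TubeD_nonneg hC s (T.x y))
    (TubeD_NN T.toFlat y (B.S.iw (ev i) + t i) 0).1
  simp only [Flat.NN] at h ⊢
  rw [NF_add, NF_symm _ _ (B.S.iw (ev i)), NF_symm _ _ (t i), NF_add, NF_add,
    NF_symm _ _ (B.S.iw (ev i)) (t i)] at h
  rw [NF_symm _ _ (B.S.iw (ev i)) (t i)]
  linarith

end aux

end Tb

end Pool.Agent.MP_f6c0e6_an.Gen

end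

section

/-! Tension, isotropy and tilt of the core. -/

set_option autoImplicit false

open MeasureTheory Filter Topology Set Metric
open scoped ENNReal RealInnerProductSpace

namespace Pool.Agent.MP_f6c0e6_an.Gen

variable {m N : ℕ}

namespace Tb

section aux

variable {k Q : ℕ} {A C C' : ℝ} {T : TI k N Q A C} (B : Tb T C')

theorem TubeD_main (hC : C' ≤ T.Λ) {H Cm e W K : ℝ} (hH : 0 < H)
    (h0 : ∀ x : E k, |rho T.rb x| ≤ H) (h1 : ∀ x : E k, ‖fderiv ℝ (rho T.rb) x‖ ≤ H)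
    (hm : ∀ (f : E (k + 2) → ℝ) (t : ℝ), Measurable f → (∀ x, |f x| ≤ t) →
      (∀ x, ¬(‖x‖ < 7 / 10 ∧ T.ra / 4 ≤ ‖B.cx x‖) → f x = 0) → |T.ee f| ≤ Cm * t * (T.eps * T.M))
    (hL : 2 + C' / T.ra ≤ T.L) (e1 : (H + H * (C' / T.ra)) * (3 * C' * T.eps * T.M) ≤ e)
    (e2 : Cm * (H * (C' / T.ra)) * (T.eps * T.M) ≤ e) (e3 : H * (T.eps * T.M) ≤ e)
    (e4 : H / T.sm ^ 2 * (3 * C' * T.eps * T.M) + H * T.sm ^ 2 * T.M + e ≤ W)
    (hK : 4 * cg k * 2 ^ k * C' * 4 ≤ K) (e5 : K * e ≤ T.M) (e6 : K * (2 * W) ≤ T.sm * T.M)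
    (e7 : k * (5 * e * T.sm) ≤ T.er) (e8 : T.sm ≤ 1) :
    T.M ≤ K * B.M0 ∧ ContDiff ℝ 1 B.gm ∧
    (∀ s, pr B.S.iw (B.gm s) = 0) ∧ ∀ s, ‖B.ax s‖ ≤ 3 / 5 →
      |T.ee (fun v => B.k1 s v * B.chi1 v) - B.M0| ≤ 2 * e ∧
      ‖B.gm s‖ ≤ T.sm ∧ ‖fderiv ℝ B.gm s‖ ≤ T.sm ∧
      -T.er ≤ ∫ y, B.k1 s (T.x y) * B.chi1 (T.x y) *
        (B.Nw y + ∑ i, T.NN y (B.S.iw (ev i)) (fderiv ℝ B.gm s (ev i))) ∂T.μ := by
  have he := T.num.1
  have hsm := T.num.2.2.1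
  have hM := T.M_pos
  have he0 : 0 ≤ e := (mul_pos hH (mul_pos he hM)).le.trans e3
  have hc : 0 < 4 * cg k * 2 ^ k * C' :=
    mul_pos (by have := cg_pos k; positivity) (by linarith only [B.C_ge])
  have hY : ∀ {s : E k}, ‖B.ax s‖ ≤ 3 / 5 → ∀ {a : ℝ} {c : E (k + 2)}, pr B.S.iw c = 0 →
      |a| + ‖c‖ ≤ 1 → |T.DD (B.TubeD_f s a c) - 2 * T.ee (B.TubeD_f s a c)| ≤ e :=
    fun hs _ _ hc ha => (B.TubeD_Y hC hH h0 h1 hs hc ha hL).trans e3
  have m1 : T.M ≤ 4 * cg k * 2 ^ k * C' * 4 * B.M0 := by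
    have k1 := B.TubeD_low hC h0
    have k2 := hY B.TubeD_ax (a := 1) (c := 0) (map_zero _) (by simp)
    rw [show B.TubeD_f 0 1 0 = fun v => B.k1 0 v * B.chi1 v from funext fun v => by
      simp [TubeD_f]] at k2
    have k3 := mul_le_mul_of_nonneg_right hK he0
    have k4 : T.DD (fun v => B.k1 0 v * B.chi1 v) + H * (T.eps * T.M) ≤ 2 * B.M0 + 2 * e := by
      rw [M0]; linarith only [e3, k2, (abs_le.1 k2).2]
    have k5 := mul_le_mul_of_nonneg_left k4 hc.le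
    linarith only [e5, k1, k3, k5]
  have m2 : 0 < B.M0 := (mul_pos_iff_of_pos_left (by linarith only [hc])).1 (hM.trans_le m1)
  have m3 : T.M ≤ K * B.M0 := m1.trans (mul_le_mul_of_nonneg_right hK m2.le)
  have m4 : |B.M0⁻¹| * (2 * W) ≤ T.sm := by
    rw [abs_of_pos (inv_pos.2 m2), inv_mul_le_iff₀ m2]
    refine le_of_mul_le_mul_left (e6.trans ?_) (by linarith only [hK, hc] : 0 < K)
    calc _ ≤ T.sm * (K * B.M0) := mul_le_mul_of_nonneg_left m3 hsm.le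
      _ = _ := by ring
  obtain ⟨g1, g2⟩ := B.TubeD_gm hC h0 h1
  refine ⟨m3, g1, fun s => B.TubeD_pr2 _ _, fun s hs => ?_⟩
  have ten : |T.ee (fun v => B.k1 s v * B.chi1 v) - B.M0| ≤ 2 * e :=
    (B.TubeD_ten hC h0 h1 hs).trans (by linarith only [e1])
  have mom := fun j => B.TubeD_mom hC h0 (pow_pos hsm 2) hs (B.TubeD_c j).2.le
  have tilt : ∀ {c : E (k + 2)}, pr B.S.iw c = 0 → ∀ u : E k,
      |∫ y, B.TubeD_k s (T.x y) u * (B.chi1 (T.x y) * (0 + ⟪c, B.cx (T.x y)⟫)) ∂T.μ -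
        ∫ y, B.k1 s (T.x y) * B.chi1 (T.x y) * T.NN y c (B.S.iw u) ∂T.μ| ≤ e * (‖c‖ * ‖u‖) :=
    fun {c} hc u => (B.TubeD_tilt hC h0 h1 hs 0 hc u).trans (by
      rw [abs_zero, zero_add, mul_right_comm]
      exact mul_le_mul_of_nonneg_right e1 (mul_nonneg (norm_nonneg _) (norm_nonneg _)))
  have der : ‖fderiv ℝ B.gm s‖ ≤ T.sm := by
    refine ContinuousLinearMap.opNorm_le_bound _ hsm.le fun u => ?_
    rw [g2]
    refine (B.TubeD_two (b := W * ‖u‖) _ fun j => ?_).trans ?_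
    · have k1 := tilt (B.TubeD_c j).1 u
      have k2 := (mom j).2 u
      have k3 := mul_le_mul_of_nonneg_right e4 (norm_nonneg u)
      rw [(B.TubeD_c j).2, one_mul, abs_le] at k1
      rw [abs_le] at k2 ⊢
      constructor <;> linarith only [k1, k2, k3, k1.1, k1.2, k2.1, k2.2]
    · rw [← mul_assoc 2, ← mul_assoc]
      exact mul_le_mul_of_nonneg_right m4 (norm_nonneg u)
  refine ⟨ten, ?_, der, le_trans ?_ (B.TubeD_pos hC s _)⟩
  · rw [B.TubeD_gm_eq]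
    refine (B.TubeD_two (b := W) _ fun j => ?_).trans m4
    have k1 := hY hs (a := 0) (B.TubeD_c j).1 (by rw [(B.TubeD_c j).2, abs_zero, zero_add])
    have k2 := (mom j).1
    have k3 := (abs_nonneg _).trans k2
    rw [abs_le] at k1 k2 ⊢
    constructor <;> linarith only [e4, he0, k1, k2, k1.1, k1.2, k2.1, k2.2]
  · refine neg_le_neg (le_trans ?_ e7)
    refine (Finset.sum_le_card_nsmul _ _ (5 * e * T.sm) fun i _ => ?_).trans_eq (by simp)
    have p : pr B.S.iw (fderiv ℝ B.gm s (ev i)) = 0 := by rw [g2]; exact B.TubeD_pr2 _ _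
    have k1 := tilt p (ev i)
    have k2 := B.TubeD_iso hC h0 h1 hs hm p
    have k3 := B.TubeD_gm_inner hC h0 h1 m2.ne' s (ev i) (fderiv ℝ B.gm s (ev i))
    have k4 : ‖fderiv ℝ B.gm s (ev i)‖ ≤ T.sm := by
      simpa only [norm_ev, mul_one] using (fderiv ℝ B.gm s).le_of_opNorm_le der (ev i)
    have k5 := norm_nonneg (fderiv ℝ B.gm s (ev i))
    rw [real_inner_self_eq_norm_sq] at k3
    rw [norm_ev, mul_one] at k1
    generalize ‖fderiv ℝ B.gm s (ev i)‖ = n at *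
    have k6 : n ^ 2 ≤ T.sm := by nlinarith only [k4, e8, k5]
    have k7 := mul_le_mul_of_nonneg_left (abs_le.1 ten).2 (sq_nonneg n)
    have k8 := mul_le_mul_of_nonneg_left e1 (sq_nonneg n)
    have k9 := mul_le_mul_of_nonneg_left e2 (sq_nonneg n)
    have k10 := mul_le_mul_of_nonneg_left k4 he0
    have k11 := mul_le_mul_of_nonneg_left k6 he0
    linarith only [k3, k7, k8, k9, k10, k11, k1, k2, (abs_le.1 k1).1, (abs_le.1 k2).1]

omit B in
theorem TubeD_nat (k : ℕ) : 6 + 100 * (k + 4) ^ 2 * 4 ≤ P0 k ∧ 20 * k + 60 ≤ P0 k ∧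
    60 * k + 106 ≤ 100 * (k + 4) ^ 2 ∧ 60 * k + 104 ≤ 100 * (k + 2) := by
  have h : (k + 4) ^ 2 = k * k + 8 * k + 16 := by ring
  have h2 : (k + 4) ^ 2 * 4 ≤ (k + 4) ^ 3 := by
    rw [pow_succ (k + 4) 2]
    exact Nat.mul_le_mul_left _ (by omega)
  rw [P0]
  omega

omit B in
theorem TubeD_num (T : TI k N Q A C) : 30 * T.Λ ^ 9 * T.Λ ^ (60 * k + 92) * T.sm ≤ 1 ∧
    T.eps ≤ T.sm ^ 4 ∧ 12 * T.Λ * T.Λ ^ (60 * k + 92) * T.eps ≤ T.Λ ^ (100 * (k + 2)) / T.L ∧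
    2 + T.Λ ^ (20 * k + 51) ≤ T.L ∧ T.Λ * T.τ ≤ T.ra / 8 := by
  have h2 := T.Λ_ge
  have h1 : 1 ≤ T.Λ := by linarith
  have h0 : 0 < T.Λ := by linarith
  have hL := T.num.2.2.2.2.2.2.2.2.2.2.2.1
  have hp : ∀ {a b : ℕ}, a ≤ b → T.Λ ^ a ≤ T.Λ ^ b := fun h => pow_le_pow_right₀ h1 h
  have h5 : 32 ≤ T.Λ ^ 5 := le_trans (by norm_num) (pow_le_pow_left₀ zero_le_two h2 5)
  obtain ⟨hP, hQ, n1, n2⟩ := TubeD_nat k
  have hR : T.Λ ^ (20 * k + 60) ≤ T.L := (hp hQ).trans T.L_ge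
  refine ⟨?_, ?_, ?_, ?_, ?_⟩
  · rw [TI.sm, mul_inv_le_iff₀ (by positivity), one_mul]
    calc _ ≤ T.Λ ^ 5 * T.Λ ^ 9 * T.Λ ^ (60 * k + 92) := by gcongr; linarith only [h5]
      _ = T.Λ ^ (60 * k + 106) := by ring
      _ ≤ _ := hp n1
  · rw [TI.sm, TI.eps, inv_pow, ← pow_mul, div_le_iff₀ (by linarith only [hL]),
      le_inv_mul_iff₀ (by positivity), ← pow_add, add_comm]
    exact (hp hP).trans T.L_ge
  · rw [TI.eps, ← mul_div_assoc]
    refine div_le_div_of_nonneg_right ?_ (by linarith only [hL])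
    calc _ ≤ T.Λ ^ 5 * T.Λ * T.Λ ^ (60 * k + 92) * T.Λ ^ 6 := by gcongr; linarith only [h5]
      _ = T.Λ ^ (60 * k + 104) := by ring
      _ ≤ _ := hp n2
  · have h3 : T.Λ ^ 1 ≤ T.Λ ^ (20 * k + 51) := hp (Nat.le_add_left _ _)
    have h4 := mul_le_mul_of_nonneg_left h2 (pow_pos h0 (20 * k + 51)).le
    calc _ ≤ T.Λ ^ (20 * k + 51) * T.Λ := by linarith only [h2, h3, h4]
      _ ≤ T.Λ ^ (20 * k + 60) := (pow_succ _ _).ge.trans (hp (by omega))
      _ ≤ _ := hR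
  · have h3 : T.τ ≤ (T.Λ ^ (20 * k + 60))⁻¹ := T.num.2.2.2.2.2.2.2.2.2.2.2.2.1.trans
      (inv_anti₀ (by positivity) (hR.trans (le_self_pow₀ hL two_ne_zero)))
    refine (mul_le_mul_of_nonneg_left h3 h0.le).trans ?_
    rw [TI.ra, mul_inv_le_iff₀ (by positivity), div_mul_eq_mul_div, le_div_iff₀ (by norm_num),
      le_inv_mul_iff₀ (by positivity)]
    calc _ ≤ T.Λ ^ (20 * k + 50) * (T.Λ * T.Λ ^ 5) := by gcongr; linarith only [h5]
      _ = T.Λ ^ (20 * k + 56) := by ring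
      _ ≤ _ := hp (by omega)

end aux

/-- Write `k₁ = k1 s`, `χ₁ = chi1`, `e_i = iw (ev i)`, `c_j = ic (ev j)`, `x_j = ⟪c_j, cx⟫`,
`M0 s = ee (k₁ χ₁)`, `κ = Λ ^ (100 (k + 2)) / L`; all errors below are at most `κ M / 10`, by
Cauchy-Schwarz (`NF_bd`) with `nw`, `mom`, `out` (the gradient of `χ₁` lives in `Out`), `g3`.
For `‖ax s‖ ≤ 3 / 5` the weights are supported in `ball 0 (7 / 10)`.
Tension: `∂_i M0 s = - ee (dv (k₁ χ₁ e_i)) = - ∫ N (e_i, ∇ (k₁ χ₁))` (`conv_meas1`, `ee_dv`); the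
set of these `s` is convex and contains `0`. Lower bound: `2 M0 = DD - Y`, `low` with `ρ = rb / 2`
and `out`. Upper bound: `up` and `out`.
Isotropy: `ee_dv` for `k₁ χ₁ x_l c_j` gives `∫ k₁ χ₁ N (c_j, c_l) = δ_jl M0 s +` error.
Tilt: `M0 ∂_i (gm s)_j = - ee (dv (k₁ χ₁ x_j e_i)) = - ∫ k₁ χ₁ N (e_i, c_j) +` error.
With `t = ∂_i gm s` and `N̄ = ∫ k₁ χ₁ N`, `0 ≤ N̄ (e_i + t, e_i + t)` gives
`N̄ (e_i, e_i) + N̄ (e_i, t) ≥ - N̄ (e_i, t) - N̄ (t, t) ≥ - κ M (‖t‖ + ‖t‖²)`. -/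
theorem core (k Q : ℕ) (A C C' : ℝ) : ∃ C'' Λ₀ : ℝ, 1 ≤ C'' ∧ ∀ {N : ℕ} {T : TI k N Q A C}
    (B : Tb T C'), Λ₀ ≤ T.Λ → T.M ≤ C'' * B.M0 ∧ ContDiff ℝ 1 B.gm ∧
    (∀ s, pr B.S.iw (B.gm s) = 0) ∧ ∀ s, ‖B.ax s‖ ≤ 3 / 5 →
      |T.ee (fun v => B.k1 s v * B.chi1 v) - B.M0| ≤ T.Λ ^ (100 * (k + 2)) / T.L * T.M ∧
      T.DD (fun v => B.k1 s v * B.chi1 v) ≤ C'' * T.M ∧
      ‖B.gm s‖ ≤ T.sm ∧ ‖fderiv ℝ B.gm s‖ ≤ T.sm ∧
      -T.er ≤ ∫ y, B.k1 s (T.x y) * B.chi1 (T.x y) *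
        (B.Nw y + ∑ i, T.NN y (B.S.iw (ev i)) (fderiv ℝ B.gm s (ev i))) ∂T.μ := by
  obtain ⟨Cr, hr1, hr⟩ := rho_bd k
  obtain ⟨Cm, C₀, hm1, hm0, hm⟩ := Flat.mass_cmp (k + 2) (by omega) Q A
  obtain ⟨K, hK⟩ : ∃ K : ℝ, K = max (max (4 * cg k * 2 ^ k * C' * 4) (Cr * C' * 2 ^ k)) 1 :=
    ⟨_, rfl⟩
  have K1 : 1 ≤ K := hK ▸ le_max_right _ _
  have K2 : 4 * cg k * 2 ^ k * C' * 4 ≤ K := hK ▸ (le_max_left _ _).trans (le_max_left _ _)
  have K3 : Cr * C' * 2 ^ k ≤ K := hK ▸ (le_max_right _ _).trans (le_max_left _ _)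
  refine ⟨K, Cr + C' + Cm + C₀ + k + K, K1, fun {N T} B hΛ => ?_⟩
  have hC1 := B.C_ge
  have hk : (0 : ℝ) ≤ k := Nat.cast_nonneg k
  have l1 : Cr ≤ T.Λ := by linarith
  have hC : C' ≤ T.Λ := by linarith
  have l2 : Cm ≤ T.Λ := by linarith
  have l3 : C₀ ≤ T.Λ := by linarith
  have l4 : (k : ℝ) ≤ T.Λ := by linarith
  have l5 : K ≤ T.Λ := by linarith
  have h1 : 1 ≤ T.Λ := by linarith
  have h0 : 0 < T.Λ := by linarith
  obtain ⟨n1, n2, n3, n4, n5⟩ := TubeD_num T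
  have he := T.num.1.le
  have her := T.num.2.1.le
  have hsm := T.num.2.2.1
  have hM := T.M_pos.le
  have hem : T.eps * T.M = T.Λ ^ 7 * T.er := T.num.2.2.2.2.2.2.2.2.2.2.2.2.2.2.2.2.1
  have hrb : 0 < T.rb := inv_pos.2 (pow_pos h0 _)
  have hb := (hr T.rb hrb 0).1
  simp only [sub_zero] at hb
  have b1 : Cr / T.rb ^ (k + 1) ≤ T.Λ ^ (40 * k + 41) := by
    rw [TI.rb, inv_pow, div_inv_eq_mul, ← pow_mul]
    exact (mul_le_mul_of_nonneg_right l1 (pow_pos h0 _).le).trans_eq (by ring)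
  have b0 : Cr / T.rb ^ k ≤ T.Λ ^ (40 * k + 41) := by
    rw [TI.rb, inv_pow, div_inv_eq_mul, ← pow_mul]
    exact (mul_le_mul_of_nonneg_right l1 (pow_pos h0 _).le).trans
      ((pow_succ' _ _).ge.trans (pow_le_pow_right₀ h1 (by omega)))
  have d1 : C' / T.ra ≤ T.Λ ^ (20 * k + 51) := by
    rw [TI.ra, div_inv_eq_mul]
    exact (mul_le_mul_of_nonneg_right hC (pow_pos h0 _).le).trans_eq (by ring)
  have x0 := pow_pos h0 (40 * k + 41)
  have x1 : T.Λ ^ (40 * k + 41) ≤ T.Λ ^ (60 * k + 92) := pow_le_pow_right₀ h1 (by omega)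
  have x2 : T.Λ ^ (40 * k + 41) * (C' / T.ra) ≤ T.Λ ^ (60 * k + 92) :=
    (mul_le_mul_of_nonneg_left d1 x0.le).trans_eq (by ring)
  have x3 : 1 ≤ T.Λ ^ (60 * k + 92) := one_le_pow₀ h1
  have hL : 2 + C' / T.ra ≤ T.L := (add_le_add_right d1 2).trans n4
  have hm' := B.TubeD_hm hm1 ((mul_le_mul_of_nonneg_right l3 T.τ_pos.le).trans n5) (hm T.toFlat)
  have hb0 : ∀ x : E k, |rho T.rb x| ≤ T.Λ ^ (40 * k + 41) := fun x => (hb.b0 x).trans b0
  have hb1 : ∀ x : E k, ‖fderiv ℝ (rho T.rb) x‖ ≤ T.Λ ^ (40 * k + 41) :=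
    fun x => (hb.b1 x).trans b1
  generalize T.Λ ^ (40 * k + 41) = H at *
  generalize T.Λ ^ (60 * k + 92) = X at *
  have main := fun e W => B.TubeD_main (e := e) (W := W) (K := K) hC x0 hb0 hb1 hm' hL
  have up : ∀ s, ‖B.ax s‖ ≤ 3 / 5 → T.DD (fun v => B.k1 s v * B.chi1 v) ≤ K * T.M := fun s hs =>
    ((B.TubeD_up hC hb.b0 hs).trans_eq (by rw [mul_pow]; field_simp)).trans
      (mul_le_mul_of_nonneg_right K3 hM)
  have z : T.Λ ^ (100 * (k + 2)) / T.L * T.M ≥ 12 * T.Λ * X * T.eps * T.M :=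
    mul_le_mul_of_nonneg_right n3 hM
  clear hb hb0 hb1 hm' hm hr hK b0 b1 d1 n3 n4 n5 hrb hL hΛ
  generalize H * (C' / T.ra) = Y at *
  generalize T.sm = σ at *
  generalize T.eps = ε at *
  have q1 : 30 * T.Λ ^ 2 * X * σ ≤ 1 := by
    refine le_trans ?_ n1
    gcongr
    norm_num
  have q0 : 1 * 1 * 1 * σ ≤ 30 * T.Λ ^ 2 * X * σ := by
    gcongr
    · norm_num
    · exact one_le_pow₀ h1
  have q2 : σ ≤ 1 := by linarith only [q0, q1]
  have q3 : ε ≤ σ ^ 2 := n2.trans (pow_le_pow_of_le_one hsm.le q2 (by norm_num))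
  have q4 : ε ≤ σ := q3.trans (pow_le_of_le_one hsm.le q2 two_ne_zero)
  have hX : 0 ≤ X := zero_le_one.trans x3
  have hXM : 0 ≤ T.Λ * X * (ε * T.M) := by positivity
  have x4 : H ≤ T.Λ * X := x1.trans (le_mul_of_one_le_left hX h1)
  have x5 : Cm * Y ≤ T.Λ * X := (mul_le_mul_of_nonneg_left x2 (zero_le_one.trans hm1)).trans
    (mul_le_mul_of_nonneg_right l2 hX)
  obtain ⟨r1, r2, r3, r4⟩ := main (6 * T.Λ * X * ε * T.M) (10 * T.Λ * X * σ ^ 2 * T.M)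
    (calc _ ≤ (X + X) * (3 * T.Λ * ε * T.M) := by gcongr
      _ = _ := by ring)
    ((mul_le_mul_of_nonneg_right x5 (mul_nonneg he hM)).trans (by linarith only [hXM]))
    ((mul_le_mul_of_nonneg_right x4 (mul_nonneg he hM)).trans (by linarith only [hXM]))
    (calc _ ≤ X / σ ^ 2 * (3 * T.Λ * σ ^ 4 * T.M) + T.Λ * X * σ ^ 2 * T.M +
          6 * T.Λ * X * σ ^ 2 * T.M := by gcongr
      _ = _ := by field_simp; ring) K2
    (calc _ ≤ T.Λ * (30 * T.Λ * X * σ * T.M) := by gcongr; norm_num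
      _ = 30 * T.Λ ^ 2 * X * σ * T.M := by ring
      _ ≤ _ := mul_le_of_le_one_left hM q1)
    (calc _ ≤ T.Λ * (3 * (10 * T.Λ * X * σ ^ 2 * T.M)) := by gcongr; norm_num
      _ = 30 * T.Λ ^ 2 * X * σ * (σ * T.M) := by ring
      _ ≤ _ := mul_le_of_le_one_left (mul_nonneg hsm.le hM) q1)
    (calc _ ≤ T.Λ * (5 * (6 * T.Λ * X * ε * T.M) * σ) := by gcongr
      _ = 30 * T.Λ ^ 2 * X * σ * (ε * T.M) := by ring
      _ = 30 * T.Λ ^ 9 * X * σ * T.er := by rw [hem]; ring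
      _ ≤ _ := mul_le_of_le_one_left her n1) q2
  refine ⟨r1, r2, r3, fun s hs => ?_⟩
  obtain ⟨s1, s2⟩ := r4 s hs
  exact ⟨s1.trans (by linarith only [z]), up s hs, s2⟩

end Tb

end Pool.Agent.MP_f6c0e6_an.Gen

end

section

/-! The second moment of the core: pointwise bounds. -/

set_option autoImplicit false

open MeasureTheory Filter Topology Set Metric
open scoped ENNReal RealInnerProductSpace

namespace Pool.Agent.MP_f6c0e6_an.Gen

variable {m N : ℕ}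

/-! ### General facts -/

theorem TubeE_amgm {z P R : ℝ} (hP : 0 ≤ P) (hR : 0 ≤ R) (h : z ^ 2 ≤ P * R) : z ≤ P / 4 + R :=
  (abs_le_of_sq_le_sq' (h.trans (by nlinarith only [sq_nonneg (P / 4 - R)])) (by positivity)).2

/-- the gradient of the mollifier -/
theorem TubeE_grad {r : ℝ} (hr : 0 < r) (w : E m) : ∃ a : E m,
    HasFDerivAt (rho r) (innerSL ℝ a) w ∧ ‖a‖ ≤ 8 * (1 / (cg m * r ^ m)) / r ∧
      ‖a‖ ^ 2 ≤ 64 * (1 / (cg m * r ^ m)) / r ^ 2 * rho r w := by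
  obtain ⟨q, hq⟩ : ∃ q, q = max (1 - ‖w‖ ^ 2 / r ^ 2) 0 := ⟨_, rfl⟩
  obtain ⟨c, hc⟩ : ∃ c, c = 1 / (cg m * r ^ m) := ⟨_, rfl⟩
  have hc0 : 0 < c := by
    have := cg_pos m
    rw [hc]
    positivity
  have q0 : 0 ≤ q := hq ▸ le_max_right _ _
  have q1 : q ≤ 1 := by
    have : 0 ≤ ‖w‖ ^ 2 / r ^ 2 := by positivity
    rw [hq]
    exact max_le (by linarith only [this]) zero_le_one
  have qw : q * ‖w‖ ≤ q * r := by
    rcases le_total ‖w‖ r with h | h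
    · exact mul_le_mul_of_nonneg_left h q0
    · have h1 : 1 ≤ ‖w‖ ^ 2 / r ^ 2 := (one_le_div (pow_pos hr 2)).2 (pow_le_pow_left₀ hr.le h 2)
      rw [hq, max_eq_right (by linarith only [h1]), zero_mul, zero_mul]
  have hn : ‖(-8 * q ^ 3 * c / r ^ 2) • w‖ ≤ 8 * c / r * q ^ 2 := by
    have e : -8 * q ^ 3 * c / r ^ 2 = -(8 * q ^ 3 * c / r ^ 2) := by ring
    rw [norm_smul, e, norm_neg, Real.norm_of_nonneg (by positivity)]
    calc 8 * q ^ 3 * c / r ^ 2 * ‖w‖ = 8 * q ^ 2 * c / r ^ 2 * (q * ‖w‖) := by ring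
      _ ≤ 8 * q ^ 2 * c / r ^ 2 * (1 * r) :=
          mul_le_mul_of_nonneg_left (qw.trans (mul_le_mul_of_nonneg_right q1 hr.le))
            (by positivity)
      _ = 8 * c / r * q ^ 2 := by field_simp
  rw [← hc]
  refine ⟨(-8 * q ^ 3 * c / r ^ 2) • w, ?_, ?_, ?_⟩
  · have h1 := ((contDiff_rho (m := m) r).differentiable (by norm_num) w).hasFDerivAt
    refine h1.congr_fderiv (ContinuousLinearMap.ext fun u => ?_)
    rw [fderiv_rho hr, innerSL_apply_apply, real_inner_smul_left, ← hq, hc]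
    ring
  · exact hn.trans (mul_le_of_le_one_right (by positivity) (pow_le_one₀ q0 q1))
  · refine (pow_le_pow_left₀ (norm_nonneg _) hn 2).trans (le_of_eq ?_)
    have e : rho r w = q ^ 4 * c := by
      rw [rho, gam, ← hq, hc]
      ring
    rw [e]
    ring

theorem TubeE_rho_lip {r : ℝ} (hr : 0 < r) :
    Lip (8 * (1 / (cg m * r ^ m)) / r) (rho r : E m → ℝ) := by
  intro x x'
  choose a h1 h2 _ using fun w : E m => TubeE_grad hr w
  exact (convex_univ (𝕜 := ℝ)).norm_image_sub_le_of_norm_hasFDerivWithin_le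
    (f' := fun w => innerSL ℝ (a w)) (fun w _ => (h1 w).hasFDerivWithinAt)
    (fun w _ => by rw [innerSL_apply_norm]; exact h2 w) (mem_univ x') (mem_univ x)

theorem TubeE_lip_mul {W φ : E m → ℝ} {S : Set (E m)} {K a0 a b : ℝ} (hW : Lip K W) (hK : 0 ≤ K)
    (h0 : ∀ v, |W v| ≤ a0) (hS : ∀ v, v ∉ S → W v = 0) (ha : 0 ≤ a) (hb : 0 ≤ b)
    (h1 : ∀ v ∈ S, |φ v| ≤ a) (h2 : ∀ v ∈ S, ∀ v' ∈ S, |φ v - φ v'| ≤ b * ‖v - v'‖) :
    Lip (K * a + a0 * b) fun v => W v * φ v := by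
  have ha0 : 0 ≤ a0 := (abs_nonneg _).trans (h0 0)
  have key : ∀ v ∈ S, ∀ v', |W v * φ v - W v' * φ v'| ≤ (K * a + a0 * b) * ‖v - v'‖ := by
    intro v hv v'
    have e : W v * φ v - W v' * φ v' = (W v - W v') * φ v + W v' * (φ v - φ v') := by ring
    have k1 : |(W v - W v') * φ v| ≤ K * ‖v - v'‖ * a := by
      rw [abs_mul]
      exact mul_le_mul (hW v v') (h1 v hv) (abs_nonneg _) (by positivity)
    have k2 : |W v' * (φ v - φ v')| ≤ a0 * (b * ‖v - v'‖) := by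
      by_cases hv' : v' ∈ S
      · rw [abs_mul]
        exact mul_le_mul (h0 v') (h2 v hv v' hv') (abs_nonneg _) ha0
      · rw [hS v' hv', zero_mul, abs_zero]
        positivity
    rw [e]
    refine (abs_add_le _ _).trans ?_
    linarith
  intro v v'
  rw [Real.norm_eq_abs]
  by_cases hv : v ∈ S
  · exact key v hv v'
  by_cases hv' : v' ∈ S
  · rw [abs_sub_comm, norm_sub_rev]
    exact key v' hv' v
  · simp only [hS v hv, hS v' hv', zero_mul, sub_zero, abs_zero]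
    positivity

/-- divergence and stress of a product -/
theorem TubeE_prod {Q : ℕ} {A : ℝ} (F : Flat m N Q A) {f : E m → ℝ} {U : E m → E m} {v G : E m}
    {L : E m →L[ℝ] E m} (hf : HasFDerivAt f (innerSL ℝ G) v) (hU : HasFDerivAt U L v) (y : E N) :
    dv (fun x => f x • U x) v = f v * ∑ i, ⟪ev i, L (ev i)⟫ + ⟪G, U v⟫ ∧
      F.ND y (fderiv ℝ (fun x => f x • U x) v) = f v * F.ND y L + F.NN y G (U v) := by
  have h : fderiv ℝ (fun x => f x • U x) v = f v • L + (innerSL ℝ G).smulRight (U v) :=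
    (hf.smul hU).fderiv
  have e : ∀ u, fderiv ℝ (fun x => f x • U x) v u = f v • L u + ⟪G, u⟫ • U v := fun u => by
    rw [h]
    rfl
  constructor
  · unfold dv
    simp only [e, inner_add_right, real_inner_smul_right]
    rw [Finset.sum_add_distrib, Finset.mul_sum, ← sum_inner_ev G]
    simp only [real_inner_comm G]
  · unfold Flat.ND Flat.NN
    simp only [e, FlatA_NF, map_add, map_smul, inner_add_right, real_inner_smul_right]
    rw [Finset.sum_add_distrib, Finset.mul_sum, ← sum_inner_ev G]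
    simp only [real_inner_comm G]

theorem TubeE_fub {Ω : Type} [MeasurableSpace Ω] (μ : Measure Ω) [SFinite μ] {ζ : Ω → E m}
    (hζ : Measurable ζ) {g : Ω → ℝ} (hm : Measurable g) (hg : Integrable g μ) {r : ℝ}
    (hr : 0 < r) : Integrable (fun s => ∫ y, rho r (ζ y - s) * g y ∂μ) ∧
      ∫ s, ∫ y, rho r (ζ y - s) * g y ∂μ = ∫ y, g y ∂μ := by
  have e : ∀ y s, rho r (ζ y - s) = rho r (s - ζ y) := fun y s => by rw [← rho_neg, neg_sub]
  have hi : ∀ c : E m, Integrable fun s => rho r (s - c) := fun c => by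
    by_contra h
    have := integral_rho hr c
    rw [integral_undef h] at this
    exact zero_ne_one this
  have hM : Measurable (Function.uncurry fun (y : Ω) (s : E m) => rho r (ζ y - s) * g y) :=
    ((contDiff_rho r).continuous.measurable.comp
      ((hζ.comp measurable_fst).sub measurable_snd)).mul (hm.comp measurable_fst)
  have hI : Integrable (Function.uncurry fun (y : Ω) (s : E m) => rho r (ζ y - s) * g y)
      (μ.prod volume) := by
    rw [integrable_prod_iff hM.aestronglyMeasurable]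
    refine ⟨Eventually.of_forall fun y => ?_, ?_⟩
    · simp only [Function.uncurry, e]
      exact (hi _).mul_const _
    · refine hg.norm.congr (Eventually.of_forall fun y => ?_)
      simp only [Function.uncurry, e, norm_mul, Real.norm_of_nonneg (rho_nonneg hr _)]
      rw [integral_mul_const, integral_rho hr, one_mul]
  refine ⟨hI.integral_prod_right, ?_⟩
  rw [← integral_integral_swap hI]
  simp only [e]
  simp only [integral_mul_const, integral_rho hr, one_mul]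

namespace Tb

section
variable {k Q : ℕ} {A C C' : ℝ} {T : TI k N Q A C} (B : Tb T C')

/-- the piece of the core -/
def TubeE_P (s : E k) : Set (E (k + 2)) := {v | ‖B.wx v - s‖ < T.rb ∧ ‖B.cx v‖ ≤ T.ra / 2}

/-- the height of the kernel -/
noncomputable def TubeE_a (T : TI k N Q A C) : ℝ := 1 / (cg k * T.rb ^ k)

/-- the weight -/
noncomputable def TubeE_W (s : E k) (v : E (k + 2)) : ℝ := B.k1 s v * B.chi1 v

/-- the local error -/
noncomputable def TubeE_G (s : E k) : ℝ :=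
  ∫ y in T.x ⁻¹' B.TubeE_P s, (T.bb (T.x y) * T.d y + B.Nw y) ∂T.μ

theorem TubeE_num (T : TI k N Q A C) : 0 < T.rp ∧ 0 < T.ra ∧ 0 < T.rb ∧ 1000 * T.rp ≤ T.ra ∧
    1000 * T.ra ≤ T.rb ∧ T.rb ≤ 1 / 1000 ∧ 0 < T.eps ∧ 0 < TubeE_a T ∧ T.L * T.τ ≤ T.rp := by
  obtain ⟨h1, -, -, -, h5, h6, -, -, h9, h10, h11, h12, -, -, -, h16, -⟩ := T.num
  have hb : 0 < T.rb := by linarith only [h6, h10, h11]
  have hc := cg_pos k
  refine ⟨h6, by linarith only [h6, h10], hb, h10, h11, h9.trans (by norm_num), h1, ?_, ?_⟩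
  · unfold TubeE_a
    positivity
  · have := mul_le_mul_of_nonneg_left T.τa (zero_le_one.trans h12)
    linarith

theorem TubeE_lipc (v v' : E (k + 2)) :
    ‖B.cx v - B.cx v'‖ ≤ ‖v - v'‖ ∧ ‖B.wx v - B.wx v'‖ ≤ ‖v - v'‖ := by
  have h := (B.coord v v' 0).2.2.2.1
  constructor
  · refine (abs_le_of_sq_le_sq' ?_ (norm_nonneg _)).2
    rw [h]
    exact le_add_of_nonneg_left (sq_nonneg _)
  · refine (abs_le_of_sq_le_sq' ?_ (norm_nonneg _)).2
    rw [h]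
    exact le_add_of_nonneg_right (sq_nonneg _)

theorem TubeE_tri (v v' : E (k + 2)) : ‖v - v'‖ ≤ ‖B.wx v - B.wx v'‖ + ‖B.cx v - B.cx v'‖ := by
  refine (abs_le_of_sq_le_sq' ?_ (by positivity)).2
  rw [(B.coord v v' 0).2.2.2.1]
  nlinarith only [mul_nonneg (norm_nonneg (B.wx v - B.wx v')) (norm_nonneg (B.cx v - B.cx v'))]

theorem TubeE_cont : Continuous B.cx ∧ Continuous B.wx :=
  ⟨((B.calc_coord 0).2.2 0).1.continuous, ((B.calc_coord 0).2.2 0).2.continuous⟩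

theorem TubeE_mP (s : E k) : MeasurableSet (B.TubeE_P s) :=
  (measurableSet_lt (B.TubeE_cont.2.sub continuous_const).norm.measurable measurable_const).inter
    (measurableSet_le B.TubeE_cont.1.norm.measurable measurable_const)

theorem TubeE_near {s : E k} {v : E (k + 2)} (hv : v ∈ B.TubeE_P s) :
    ‖v‖ < ‖B.ax s‖ + 1 / 4 := by
  obtain ⟨-, n2, n3, -, n5, n6, -⟩ := TubeE_num T
  have h := B.TubeE_tri v (B.ax s)
  obtain ⟨-, e1, e2, -⟩ := B.coord v v s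
  rw [e1, e2, sub_zero] at h
  have h2 := norm_sub_norm_le v (B.ax s)
  linarith only [n2, n5, n6, h, h2, hv.1, hv.2]

theorem TubeE_W_bd (s : E k) (v : E (k + 2)) : 0 ≤ B.k1 s v ∧ B.k1 s v ≤ TubeE_a T ∧
    0 ≤ B.chi1 v ∧ B.chi1 v ≤ 1 ∧ 0 ≤ B.TubeE_W s v ∧ B.TubeE_W s v ≤ TubeE_a T ∧
    (v ∉ B.TubeE_P s → B.TubeE_W s v = 0) := by
  obtain ⟨-, n2, n3, -⟩ := TubeE_num T
  have a1 : 0 ≤ B.k1 s v := rho_nonneg n3 _
  have a2 : B.k1 s v ≤ TubeE_a T := rho_le n3 _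
  have a3 : 0 ≤ B.chi1 v := (B.prof.bd₁ _).1
  have a4 : B.chi1 v ≤ 1 := (B.prof.bd₁ _).2.1
  refine ⟨a1, a2, a3, a4, mul_nonneg a1 a3, (mul_le_of_le_one_right a1 a4).trans a2, fun hv => ?_⟩
  unfold TubeE_W
  by_cases h1 : ‖B.wx v - s‖ < T.rb
  · have h2 : T.ra / 2 ≤ ‖B.cx v‖ := (not_le.1 fun h => hv ⟨h1, h⟩).le
    have h3 : B.chi1 v = 0 := B.prof.zero₁ _ (pow_le_pow_left₀ (by positivity) h2 2)
    rw [h3, mul_zero]
  · have h3 : B.k1 s v = 0 := rho_eq_zero n3 (not_lt.1 h1)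
    rw [h3, zero_mul]

theorem TubeE_cd (s : E k) : ContDiff ℝ 1 (B.k1 s) ∧ ContDiff ℝ 1 B.chi1 ∧
    ContDiff ℝ 1 (B.TubeE_W s) ∧ ContDiff ℝ 1 B.cx := by
  obtain ⟨c1, c2⟩ := (B.calc_coord 0).2.2 1
  have a1 : ContDiff ℝ 1 (B.k1 s) :=
    ((contDiff_rho T.rb).of_le (by norm_num)).comp (c2.sub contDiff_const)
  have a2 : ContDiff ℝ 1 B.chi1 :=
    (B.prof.smooth₁.of_le (by norm_num)).comp ((contDiff_norm_sq ℝ).comp c1)
  exact ⟨a1, a2, a1.mul a2, c1⟩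

theorem TubeE_adm (s : E k) {φ : E (k + 2) → ℝ} (hφ : Continuous φ) :
    Adm (B.TubeE_W s) ∧ Adm fun v => B.TubeE_W s v * φ v := by
  have h : Adm (B.TubeE_W s) :=
    Adm.of_cont (B.TubeE_cd s).2.2.1.continuous (R := ‖B.ax s‖ + 1 / 4) fun v hv =>
      (B.TubeE_W_bd s v).2.2.2.2.2.2 fun h => (B.TubeE_near h).not_ge hv
  exact ⟨h, h.mul_cont hφ⟩

theorem TubeE_W_lip (h : C' ≤ T.Λ) (s : E k) :
    Lip (TubeE_a T * (8 / T.rb + C' / T.ra)) (B.TubeE_W s) := by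
  obtain ⟨-, n2, n3, -, -, -, -, n8, -⟩ := TubeE_num T
  have hC := B.C_ge
  have l1 : Lip (8 * TubeE_a T / T.rb) (B.k1 s) := fun v v' => by
    refine (TubeE_rho_lip n3 _ _).trans ?_
    rw [sub_sub_sub_cancel_right]
    exact mul_le_mul_of_nonneg_left (B.TubeE_lipc v v').2
      (show 0 ≤ 8 * TubeE_a T / T.rb by positivity)
  have l2 : Lip (C' / T.ra) B.chi1 := (B.weights h).2.2.2.2.2.2.2.2.2.2.1
  have l3 := TubeE_lip_mul (S := univ) (a0 := TubeE_a T) (a := 1) (b := C' / T.ra) (φ := B.chi1)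
    l1 (by positivity) (fun v => by
      rw [abs_of_nonneg (B.TubeE_W_bd s v).1]
      exact (B.TubeE_W_bd s v).2.1) (fun v hv => absurd (mem_univ v) hv) zero_le_one
    (by positivity) (fun v _ => by
      rw [abs_of_nonneg (B.TubeE_W_bd s v).2.2.1]
      exact (B.TubeE_W_bd s v).2.2.2.1) fun v _ v' _ => l2 v v'
  have e : TubeE_a T * (8 / T.rb + C' / T.ra) =
      8 * TubeE_a T / T.rb * 1 + TubeE_a T * (C' / T.ra) := by ring
  rw [e]
  exact l3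

/-- the defect of the weights -/
theorem TubeE_Y (h : C' ≤ T.Λ) (hL : (10 + C') / T.ra ≤ T.L) {s : E k} (hs : ‖B.ax s‖ ≤ 1 / 4)
    {φ : E (k + 2) → ℝ} {a : ℝ} (ha : 0 < a) (h1 : ∀ v ∈ B.TubeE_P s, |φ v| ≤ a)
    (h2 : ∀ v ∈ B.TubeE_P s, ∀ v' ∈ B.TubeE_P s, |φ v - φ v'| ≤ a * (2 / T.ra) * ‖v - v'‖) :
    |T.Y fun v => B.TubeE_W s v * φ v| ≤ TubeE_a T * a * (T.eps * T.M) := by
  obtain ⟨-, n2, n3, -, n5, -, -, n8, -⟩ := TubeE_num T
  have hC := B.C_ge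
  have w0 : ∀ v, |B.TubeE_W s v| ≤ TubeE_a T := fun v => by
    rw [abs_of_nonneg (B.TubeE_W_bd s v).2.2.2.2.1]
    exact (B.TubeE_W_bd s v).2.2.2.2.2.1
  have wz : ∀ v, v ∉ B.TubeE_P s → B.TubeE_W s v = 0 := fun v => (B.TubeE_W_bd s v).2.2.2.2.2.2
  have l := TubeE_lip_mul (B.TubeE_W_lip h s) (by positivity) w0 wz ha.le (by positivity) h1 h2
  have hc : 0 < TubeE_a T * a := by positivity
  have hK : TubeE_a T * (8 / T.rb + C' / T.ra) * a + TubeE_a T * (a * (2 / T.ra)) ≤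
      TubeE_a T * a * T.L := by
    have e1 : 8 / T.rb ≤ 8 / T.ra := div_le_div_of_nonneg_left (by norm_num) n2 (by linarith only [n2, n5])
    have e2 : (10 + C') / T.ra = 8 / T.ra + C' / T.ra + 2 / T.ra := by ring
    calc _ = TubeE_a T * a * (8 / T.rb + C' / T.ra + 2 / T.ra) := by ring
      _ ≤ _ := mul_le_mul_of_nonneg_left (by linarith only [hL, e1, e2]) hc.le
  have g := T.g3 (fun v => (TubeE_a T * a)⁻¹ * (B.TubeE_W s v * φ v)) (fun v v' => by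
      rw [← mul_sub, norm_mul, Real.norm_of_nonneg (inv_pos.2 hc).le, inv_mul_le_iff₀ hc,
        ← mul_assoc]
      exact (l v v').trans (mul_le_mul_of_nonneg_right hK (norm_nonneg _)))
    (fun v => by
      rw [abs_mul, abs_of_pos (inv_pos.2 hc), inv_mul_le_iff₀ hc, mul_one, abs_mul]
      by_cases hv : v ∈ B.TubeE_P s
      · exact mul_le_mul (w0 v) (h1 v hv) (abs_nonneg _) n8.le
      · rw [wz v hv, abs_zero, zero_mul]
        exact hc.le)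
    (fun v hv => by
      rw [wz v fun h => by linarith only [hs, hv, B.TubeE_near h], zero_mul, mul_zero])
  rw [(T.toFlat.lin_smul _ _).2.2, abs_mul, abs_of_pos (inv_pos.2 hc), inv_mul_le_iff₀ hc] at g
  exact g

theorem TubeE_NN (T : TI k N Q A C) (y : E N) (u v : E (k + 2)) : 0 ≤ T.NN y u u ∧
    T.NN y u u ≤ T.d y * ‖u‖ ^ 2 ∧ T.NN y u v ^ 2 ≤ T.NN y u u * T.NN y v v ∧
    |T.NN y u v| ≤ T.d y * ‖u‖ * ‖v‖ ∧
    T.NN y (u + v) (u + v) ≤ 2 * T.NN y u u + 2 * T.NN y v v :=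
  NF_bd T.ι (T.fr.orth y) u v

theorem TubeE_int : Integrable (fun y => T.bb (T.x y) * T.d y) T.μ ∧ Integrable B.Nw T.μ ∧
    (∀ y, 0 ≤ T.bb (T.x y) * T.d y) ∧ ∀ ξ : E (k + 2),
      Integrable (fun y => T.NN y (T.x y - ξ) (T.x y - ξ)) T.μ := by
  obtain ⟨m1, -, -, -, m5, m6, -⟩ := T.toFlat.measurable_all
  refine ⟨?_, ?_, fun y => mul_nonneg (T.b_bd _).1 (T.toFlat.d_bd y).1, fun ξ => ?_⟩
  · refine T.toFlat.integrable_of_bd ((T.mb.comp m1).mul m5) (M := 2 * (k + 2 : ℕ))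
      fun y _ _ => ?_
    rw [Real.norm_of_nonneg (mul_nonneg (T.b_bd _).1 (T.toFlat.d_bd y).1)]
    exact mul_le_mul (T.b_bd _).2 (T.toFlat.d_bd y).2 (T.toFlat.d_bd y).1 (by norm_num)
  · refine T.toFlat.integrable_of_bd B.measurable_all.1 (M := (k + 2 : ℕ)) fun y _ _ => ?_
    rw [Real.norm_of_nonneg (B.Nw_bd y).1]
    exact (B.Nw_bd y).2.1.trans (T.toFlat.d_bd y).2
  · refine T.toFlat.integrable_of_bd (m6 _ _ (m1.sub_const ξ) (m1.sub_const ξ))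
      (M := (k + 2 : ℕ) * (10 + ‖ξ‖) ^ 2) fun y hy _ => ?_
    obtain ⟨b1, b2, -⟩ := TubeE_NN T y (T.x y - ξ) (T.x y - ξ)
    rw [Real.norm_of_nonneg b1]
    refine b2.trans (mul_le_mul (T.toFlat.d_bd y).2 (pow_le_pow_left₀ (norm_nonneg _) ?_ 2)
      (by positivity) (by positivity))
    linarith [norm_sub_le (T.x y) ξ]

theorem TubeE_G_bd {s : E k} (hs : ‖B.ax s‖ ≤ 1 / 4) :
    ∫ y in T.x ⁻¹' B.TubeE_P s, T.bb (T.x y) * T.d y ∂T.μ ≤ B.TubeE_G s ∧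
    ∫ y in T.x ⁻¹' B.TubeE_P s, B.Nw y ∂T.μ ≤ B.TubeE_G s ∧ 0 ≤ B.TubeE_G s ∧
    B.TubeE_G s ≤ (1 + C') * (T.eps * T.M) ∧
    ∫ y in T.x ⁻¹' ball 0 1, (T.bb (T.x y) * T.d y + B.Nw y) ∂T.μ ≤ (1 + C') * (T.eps * T.M) := by
  obtain ⟨i1, i2, p1, -⟩ := B.TubeE_int
  have p2 : ∀ y, 0 ≤ B.Nw y := fun y => (B.Nw_bd y).1
  have e : B.TubeE_G s = ∫ y in T.x ⁻¹' B.TubeE_P s, T.bb (T.x y) * T.d y ∂T.μ +
      ∫ y in T.x ⁻¹' B.TubeE_P s, B.Nw y ∂T.μ := integral_add i1.integrableOn i2.integrableOn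
  have q1 : 0 ≤ ∫ y in T.x ⁻¹' B.TubeE_P s, T.bb (T.x y) * T.d y ∂T.μ := integral_nonneg p1
  have q2 : 0 ≤ ∫ y in T.x ⁻¹' B.TubeE_P s, B.Nw y ∂T.μ := integral_nonneg p2
  have q3 : ∫ y in T.x ⁻¹' ball 0 1, (T.bb (T.x y) * T.d y + B.Nw y) ∂T.μ ≤
      (1 + C') * (T.eps * T.M) := by
    rw [integral_add i1.integrableOn i2.integrableOn]
    have b1 : ∫ y in T.x ⁻¹' ball 0 1, T.bb (T.x y) * T.d y ∂T.μ ≤ T.eps * T.M := T.b_int
    have b2 : ∫ y in T.x ⁻¹' ball 0 1, B.Nw y ∂T.μ ≤ C' * T.eps * T.M := B.nw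
    linarith
  refine ⟨by linarith only [e, q2], by linarith, by linarith, le_trans ?_ q3, q3⟩
  refine setIntegral_mono_set (i1.add i2).integrableOn
    (Eventually.of_forall fun y => add_nonneg (p1 y) (p2 y))
    (LE.le.eventuallyLE fun y hy => ?_)
  have := B.TubeE_near hy
  rw [mem_preimage, mem_ball_zero_iff]
  linarith only [hs, this]

/-- a good point in the core -/
theorem TubeE_point (h : C' ≤ T.Λ) (hL : (10 + C') / T.ra ≤ T.L) {s : E k}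
    (hs : ‖B.ax s‖ ≤ 1 / 4) {C₁ κ : ℝ} (hC₁ : 1 ≤ C₁) (h1 : T.M ≤ C₁ * B.M0)
    (h2 : |T.ee (B.TubeE_W s) - B.M0| ≤ κ * T.M)
    (h3 : C₁ * (2 * κ + 2 * (TubeE_a T * T.eps)) ≤ 1) :
    ∃ x₀ ∈ B.TubeE_P s, ‖B.cx x₀‖ < T.rp / 8 ∧
      T.bb x₀ * T.M ≤ C₁ * (TubeE_a T * B.TubeE_G s + T.eps * T.M) := by
  obtain ⟨n1, n2, n3, n4, n5, n6, n7, n8, -⟩ := TubeE_num T
  have hM := T.M_pos
  by_contra hne
  push Not at hne
  obtain ⟨P, hP⟩ : ∃ P, P = B.TubeE_P s ∩ {v | ‖B.cx v‖ < T.rp / 8} := ⟨_, rfl⟩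
  have mP : MeasurableSet P := hP ▸ (B.TubeE_mP s).inter
    (measurableSet_lt B.TubeE_cont.1.norm.measurable measurable_const)
  have y1 := B.TubeE_Y h hL hs (φ := fun _ => 1) one_pos (fun _ _ => abs_one.le)
    fun _ _ _ _ => by
      rw [sub_self, abs_zero]
      exact mul_nonneg (mul_nonneg zero_le_one (div_pos two_pos n2).le) (norm_nonneg _)
  simp only [mul_one] at y1
  have y2 : T.Y (B.TubeE_W s) = T.DD (B.TubeE_W s) - 2 * T.ee (B.TubeE_W s) := rfl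
  have d1 := T.toFlat.abs_DD_le (B.TubeE_cd s).2.2.1.continuous.measurable (M := TubeE_a T)
    (fun v => by
      rw [abs_of_nonneg (B.TubeE_W_bd s v).2.2.2.2.1]
      exact (B.TubeE_W_bd s v).2.2.2.2.2.1) (B.TubeE_mP s)
    fun v => (B.TubeE_W_bd s v).2.2.2.2.2.2
  have d2 : T.DS (B.TubeE_P s) ≤ T.DS P + T.eps * T.M := by
    have hsub : B.TubeE_P s ⊆ P ∪ B.Out := fun v hv => by
      by_cases hc : ‖B.cx v‖ < T.rp / 8
      · exact Or.inl (hP ▸ ⟨hv, hc⟩)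
      · exact Or.inr ⟨by linarith only [hs, n1, n4, n5, n6, B.TubeE_near hv], not_lt.1 hc⟩
    have := T.toFlat.DS_union_le mP B.measurable_all.2.2.2.2.2.2
    linarith only [this, hsub, (T.toFlat.DS_mono hsub).2, B.shell_sub.2.2.1]
  have d3 : T.M ≤ C₁ * (TubeE_a T * T.DS P) := by
    have a1 := mul_le_mul_of_nonneg_left d2 n8.le
    have a2 : 2 * B.M0 - (2 * κ + 2 * (TubeE_a T * T.eps)) * T.M ≤ TubeE_a T * T.DS P := by
      have := (abs_le.1 y1).1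
      have := (abs_le.1 h2).1
      have := (abs_le.1 d1).2
      change T.Y (B.TubeE_W s) = _ at y2
      nlinarith only [a1, ‹-(TubeE_a T * (T.eps * T.M)) ≤ T.Y fun v => B.TubeE_W s v›, ‹-(κ * T.M) ≤ T.ee (B.TubeE_W s) - B.M0›, this, y2]
    have a3 := mul_le_mul_of_nonneg_left a2 (zero_le_one.trans hC₁)
    have a4 := mul_le_mul_of_nonneg_right h3 hM.le
    nlinarith only [h1, a3, a4]
  obtain ⟨i1, -, p1, -⟩ := B.TubeE_int
  obtain ⟨g1, -, g0, -⟩ := B.TubeE_G_bd hs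
  obtain ⟨t, ht⟩ : ∃ t, t = C₁ * (TubeE_a T * B.TubeE_G s + T.eps * T.M) := ⟨_, rfl⟩
  rw [← ht] at hne
  have mx := T.toFlat.measurable_all.1
  have d4 : t * T.DS P ≤ T.M * B.TubeE_G s := by
    calc t * T.DS P = ∫ y in T.x ⁻¹' P, t * T.d y ∂T.μ := (integral_const_mul _ _).symm
      _ ≤ ∫ y in T.x ⁻¹' P, T.M * (T.bb (T.x y) * T.d y) ∂T.μ := by
          refine setIntegral_mono_on (T.toFlat.integrable_d.const_mul _).integrableOn
            (i1.const_mul _).integrableOn (mx mP) fun y hy => ?_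
          rw [hP] at hy
          have := mul_le_mul_of_nonneg_right (hne _ hy.1 hy.2).le (T.toFlat.d_bd y).1
          linarith only [this]
      _ = T.M * ∫ y in T.x ⁻¹' P, T.bb (T.x y) * T.d y ∂T.μ := integral_const_mul _ _
      _ ≤ T.M * B.TubeE_G s := by
          refine mul_le_mul_of_nonneg_left (le_trans ?_ g1) hM.le
          exact setIntegral_mono_set i1.integrableOn (Eventually.of_forall p1)
            (LE.le.eventuallyLE fun y hy => by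
              rw [hP] at hy
              exact hy.1)
  have e0 : 0 < T.eps * T.M := by positivity
  have e1 : 0 ≤ TubeE_a T * B.TubeE_G s := by positivity
  have d5 := mul_le_mul_of_nonneg_left d3 (add_pos_of_nonneg_of_pos e1 e0).le
  have d6 := mul_le_mul_of_nonneg_left d4 n8.le
  have d7 : (TubeE_a T * B.TubeE_G s + T.eps * T.M) * (C₁ * (TubeE_a T * T.DS P)) =
      TubeE_a T * (t * T.DS P) := by
    rw [ht]
    ring
  nlinarith only [d5, d6, d7, e0, hM, mul_pos e0 hM]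

/-- the radial derivative of the profile of the core -/
noncomputable def TubeE_b (v : E (k + 2)) : ℝ := 2 * deriv B.χ₁ (‖B.cx v‖ ^ 2)

/-- the region where the profile is not constant -/
def TubeE_Z (s : E k) : Set (E (k + 2)) := B.TubeE_P s ∩ {v | T.ra / 4 ≤ ‖B.cx v‖}

theorem TubeE_dsq {p : E (k + 2)} (hp : pr B.S.iw p = 0) (v : E (k + 2)) :
    HasFDerivAt (fun v => ‖B.cx v - p‖ ^ 2) (innerSL ℝ ((2 : ℝ) • (B.cx v - p))) v := by
  have h := ((B.calc_coord v).1.sub_const p).norm_sq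
  refine h.congr_fderiv (ContinuousLinearMap.ext fun u => ?_)
  have e : vt B.S.iw (B.cx v - p) = B.cx v - p :=
    vt_of_pr _ (by rw [map_sub, hp, (B.coord v v 0).2.2.2.2.1, sub_zero])
  rw [innerSL_apply_apply, real_inner_smul_left, two_smul, add_apply,
    ContinuousLinearMap.comp_apply, innerSL_apply_apply, vtL_apply, ← (inner_vt _ _ _).1, e,
    two_mul]

theorem TubeE_dchi (v : E (k + 2)) :
    HasFDerivAt B.chi1 (innerSL ℝ (B.TubeE_b v • B.cx v)) v := by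
  have h1 := B.TubeE_dsq (map_zero _) v
  simp only [sub_zero] at h1
  have h2 := (B.prof.smooth₁.differentiable (by norm_num) (‖B.cx v‖ ^ 2)).hasDerivAt
  refine (h2.comp_hasFDerivAt v h1).congr_fderiv (ContinuousLinearMap.ext fun u => ?_)
  rw [smul_apply, innerSL_apply_apply, innerSL_apply_apply, real_inner_smul_left,
    real_inner_smul_left, smul_eq_mul, TubeE_b]
  ring

theorem TubeE_dk (s : E k) (v : E (k + 2)) : ∃ a : E k,
    HasFDerivAt (B.k1 s) (innerSL ℝ (B.S.iw a)) v ∧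
      ‖a‖ ^ 2 ≤ 64 * TubeE_a T / T.rb ^ 2 * B.k1 s v := by
  obtain ⟨a, h1, -, h2⟩ := TubeE_grad (TubeE_num T).2.2.1 (B.wx v - s)
  refine ⟨a, ?_, h2⟩
  refine (h1.comp v ((B.calc_coord v).2.1.sub_const s)).congr_fderiv
    (ContinuousLinearMap.ext fun u => ?_)
  rw [ContinuousLinearMap.comp_apply, innerSL_apply_apply, innerSL_apply_apply, inner_iota]

theorem TubeE_b_bd (s : E k) : Continuous B.TubeE_b ∧ MeasurableSet (B.TubeE_Z s) ∧
    (∀ v, v ∉ B.TubeE_Z s → B.k1 s v * B.TubeE_b v = 0) ∧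
    ∀ v, |B.k1 s v * B.TubeE_b v| ≤ TubeE_a T * (2 * (C' / T.ra ^ 2)) := by
  obtain ⟨-, n2, n3, -, -, -, -, n8, -⟩ := TubeE_num T
  refine ⟨continuous_const.mul ((B.prof.smooth₁.continuous_deriv (by norm_num)).comp
    (B.TubeE_cont.1.norm.pow 2)), (B.TubeE_mP s).inter
    (measurableSet_le measurable_const B.TubeE_cont.1.norm.measurable), fun v hv => ?_,
    fun v => ?_⟩
  · by_cases h1 : ‖B.wx v - s‖ < T.rb
    · have h2 : deriv B.χ₁ (‖B.cx v‖ ^ 2) = 0 := by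
        by_cases h3 : ‖B.cx v‖ ≤ T.ra / 2
        · have h4 : ‖B.cx v‖ < T.ra / 4 := not_le.1 fun h => hv ⟨⟨h1, h3⟩, h⟩
          have h5 : B.χ₁ =ᶠ[𝓝 (‖B.cx v‖ ^ 2)] fun _ => 1 :=
            mem_of_superset (Iio_mem_nhds (pow_lt_pow_left₀ h4 (norm_nonneg _) two_ne_zero))
              fun t ht => B.prof.one₁ t (le_of_lt ht)
          rw [h5.deriv_eq, deriv_const]
        · have h5 : B.χ₁ =ᶠ[𝓝 (‖B.cx v‖ ^ 2)] fun _ => 0 :=
            mem_of_superset (Ioi_mem_nhds (pow_lt_pow_left₀ (not_le.1 h3) (half_pos n2).le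
              two_ne_zero)) fun t ht => B.prof.zero₁ t (le_of_lt ht)
          rw [h5.deriv_eq, deriv_const]
      rw [TubeE_b, h2, mul_zero, mul_zero]
    · have h3 : B.k1 s v = 0 := rho_eq_zero n3 (not_lt.1 h1)
      rw [h3, zero_mul]
  · rw [abs_mul, abs_of_nonneg (B.TubeE_W_bd s v).1, TubeE_b, abs_mul, abs_two]
    exact mul_le_mul (B.TubeE_W_bd s v).2.1
      (mul_le_mul_of_nonneg_left (B.prof.bd₁ _).2.2 zero_le_two) (by positivity) n8.le

theorem TubeE_tr (y : E N) : ∑ i, ⟪ev i, vtL B.S.iw (ev i)⟫ = 2 ∧ T.ND y (vtL B.S.iw) ≤ T.d y := by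
  obtain ⟨h1, h2, h3⟩ := B.trace_split (vtL B.S.iw) y
  have e1 : ∀ u, vtL B.S.iw (B.S.iw u) = 0 := fun u => vt_iota _ u
  have e2 : ∀ u, vtL B.S.iw (B.S.ic u) = B.S.ic u := fun u =>
    vt_of_pr _ (ext_inner_left ℝ fun w => ((inner_iota B.S.iw w (B.S.ic u)).symm.trans
      (B.S.orth w u)).trans (inner_zero_right w).symm)
  have e3 : ∀ u, T.NN y u 0 = 0 := fun u => by
    have := (TubeE_NN T y u 0).2.2.2.1
    rwa [norm_zero, mul_zero, abs_nonpos_iff] at this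
  constructor
  · rw [h1]
    simp only [e1, e2, inner_zero_right, Finset.sum_const_zero, zero_add,
      LinearIsometry.inner_map_map, real_inner_self_eq_norm_sq, norm_ev]
    simp
  · rw [h2]
    simp only [e1, e2, e3, Finset.sum_const_zero, zero_add]
    linarith [(B.Nw_bd y).1]

/-- divergence and stress of the test field -/
theorem TubeE_field {p : E (k + 2)} (hp : pr B.S.iw p = 0) (s : E k) (v : E (k + 2)) (y : E N) :
    dv (fun x => (B.TubeE_W s x * ‖B.cx x - p‖ ^ 2) • (B.cx x - p)) v =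
      4 * (B.TubeE_W s v * ‖B.cx v - p‖ ^ 2) +
        B.k1 s v * B.TubeE_b v * (‖B.cx v - p‖ ^ 2 * ⟪B.cx v, B.cx v - p⟫) ∧
    ∃ a : E k, ‖a‖ ^ 2 ≤ 64 * TubeE_a T / T.rb ^ 2 * B.k1 s v ∧
      T.ND y (fderiv ℝ (fun x => (B.TubeE_W s x * ‖B.cx x - p‖ ^ 2) • (B.cx x - p)) v) ≤
        B.TubeE_W s v * ‖B.cx v - p‖ ^ 2 * T.d y +
        B.chi1 v * ‖B.cx v - p‖ ^ 2 * T.NN y (B.S.iw a) (B.cx v - p) +
        B.k1 s v * B.TubeE_b v * (‖B.cx v - p‖ ^ 2 * T.NN y (B.cx v) (B.cx v - p)) +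
        2 * B.TubeE_W s v * T.NN y (B.cx v - p) (B.cx v - p) := by
  obtain ⟨a, h1, h2⟩ := B.TubeE_dk s v
  have hf : HasFDerivAt (fun x => B.TubeE_W s x * ‖B.cx x - p‖ ^ 2)
      (innerSL ℝ ((B.chi1 v * ‖B.cx v - p‖ ^ 2) • B.S.iw a +
        (B.k1 s v * B.TubeE_b v * ‖B.cx v - p‖ ^ 2) • B.cx v +
        (2 * B.TubeE_W s v) • (B.cx v - p))) v := by
    refine ((h1.mul (B.TubeE_dchi v)).mul (B.TubeE_dsq hp v)).congr_fderiv
      (ContinuousLinearMap.ext fun u => ?_)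
    simp only [add_apply, smul_apply, innerSL_apply_apply, inner_add_left, real_inner_smul_left,
      smul_eq_mul, TubeE_W, Pi.mul_apply]
    ring
  obtain ⟨e1, e2⟩ := TubeE_prod T.toFlat hf ((B.calc_coord v).1.sub_const p) y
  obtain ⟨t1, t2⟩ := B.TubeE_tr y
  refine ⟨?_, a, h2, ?_⟩
  · have e : ⟪B.S.iw a, B.cx v - p⟫ = 0 := by
      rw [inner_iota, map_sub, hp, (B.coord v v 0).2.2.2.2.1, sub_zero, inner_zero_right]
    rw [e1, t1, inner_add_left, inner_add_left, real_inner_smul_left, real_inner_smul_left,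
      real_inner_smul_left, e, real_inner_self_eq_norm_sq]
    ring
  · rw [e2]
    have h3 := mul_le_mul_of_nonneg_left t2
      (mul_nonneg (B.TubeE_W_bd s v).2.2.2.2.1 (sq_nonneg ‖B.cx v - p‖))
    unfold Flat.NN
    rw [NF_add, NF_add, NF_smul, NF_smul, NF_smul]
    linarith only [h3]

theorem TubeE_small {s : E k} {v x₀ : E (k + 2)} (hv : v ∈ B.TubeE_P s) (h0 : x₀ ∈ B.TubeE_P s) :
    ‖B.cx v - B.cx x₀‖ ≤ T.ra ∧ ‖B.wx x₀ - B.wx v‖ < 2 * T.rb ∧ ‖v - x₀‖ < 3 * T.rb := by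
  obtain ⟨-, n2, n3, -, n5, -⟩ := TubeE_num T
  have h1 := norm_sub_le (B.cx v) (B.cx x₀)
  have h2 := norm_sub_le_norm_sub_add_norm_sub (B.wx x₀) s (B.wx v)
  have h3 := B.TubeE_tri v x₀
  rw [norm_sub_rev s] at h2
  rw [norm_sub_rev (B.wx v)] at h3
  refine ⟨?_, ?_, ?_⟩ <;> linarith only [h1, h2, n2, n5, h3, hv.1, hv.2, h0.1, h0.2]

theorem TubeE_out {s : E k} (hs : ‖B.ax s‖ ≤ 1 / 4) {δ : ℝ} (hδ : δ ≤ T.rp) :
    thickening δ (B.TubeE_Z s) ⊆ B.Out ∧ B.TubeE_Z s ⊆ B.Out ∧ B.TubeE_Z s ⊆ ball 0 9 := by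
  obtain ⟨n1, n2, n3, n4, n5, n6, -⟩ := TubeE_num T
  refine ⟨fun v hv => ?_, fun v hv => ?_, fun v hv => ?_⟩
  · obtain ⟨z, hz, hd⟩ := mem_thickening_iff.1 hv
    rw [dist_eq_norm] at hd
    have h1 := B.TubeE_near hz.1
    have h2 := norm_sub_norm_le v z
    have h3 := (B.TubeE_lipc z v).1
    have h4 := norm_sub_norm_le (B.cx z) (B.cx v)
    have h5 : T.ra / 4 ≤ ‖B.cx z‖ := hz.2
    rw [norm_sub_rev z] at h3
    exact ⟨by linarith only [hs, hδ, n1, n4, n5, n6, hd, h1, h2], by linarith only [hδ, n1, n4, hd, h3, h4, h5]⟩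
  · have h1 := B.TubeE_near hv.1
    have h5 : T.ra / 4 ≤ ‖B.cx v‖ := hv.2
    exact ⟨by linarith only [hs, n1, n4, n5, n6, h1], by linarith only [n1, n4, h5]⟩
  · have h1 := B.TubeE_near hv.1
    rw [mem_ball_zero_iff]
    linarith only [hs, n1, n4, n5, n6, h1]

theorem TubeE_gbd {s : E k} {v x₀ : E (k + 2)} (h0 : x₀ ∈ B.TubeE_P s) {z d : ℝ} (hd : 0 ≤ d)
    (hz : |z| ≤ d * ‖B.cx v‖ * ‖B.cx v - B.cx x₀‖) :
    |B.k1 s v * B.TubeE_b v * (‖B.cx v - B.cx x₀‖ ^ 2 * z)| ≤ TubeE_a T * C' * T.ra ^ 2 * d := by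
  obtain ⟨-, n2, -, -, -, -, -, n8, -⟩ := TubeE_num T
  have hC := B.C_ge
  obtain ⟨-, -, b1, b2⟩ := B.TubeE_b_bd s
  by_cases hv : v ∈ B.TubeE_Z s
  · have h1 := (B.TubeE_small hv.1 h0).1
    have h2 : |‖B.cx v - B.cx x₀‖ ^ 2 * z| ≤ T.ra ^ 2 * (d * (T.ra / 2) * T.ra) := by
      rw [abs_mul, abs_of_nonneg (sq_nonneg _)]
      refine mul_le_mul (pow_le_pow_left₀ (norm_nonneg _) h1 2) (hz.trans ?_) (abs_nonneg _)
        (sq_nonneg _)
      exact mul_le_mul (mul_le_mul_of_nonneg_left hv.1.2 hd) h1 (norm_nonneg _) (by positivity)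
    rw [abs_mul]
    refine (mul_le_mul (b2 v) h2 (abs_nonneg _) (by positivity)).trans (le_of_eq ?_)
    field_simp
  · rw [b1 v hv, zero_mul, abs_zero]
    positivity

/-- the pointwise bound for the stress -/
theorem TubeE_pt {s : E k} (hs : ‖B.ax s‖ ≤ 1 / 4) {x₀ : E (k + 2)} (h0 : x₀ ∈ B.TubeE_P s)
    (y : E N) :
    T.ND y (fderiv ℝ (fun x => (B.TubeE_W s x * ‖B.cx x - B.cx x₀‖ ^ 2) • (B.cx x - B.cx x₀))
      (T.x y)) ≤ 5 / 4 * (B.TubeE_W s (T.x y) * ‖B.cx (T.x y) - B.cx x₀‖ ^ 2 * T.d y) +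
      (T.x ⁻¹' B.TubeE_P s).indicator (fun y => 80 * TubeE_a T * T.rb ^ 2 * B.Nw y +
        4 * TubeE_a T * T.NN y (T.x y - x₀) (T.x y - x₀)) y +
      (T.x ⁻¹' B.Out).indicator (fun y => TubeE_a T * C' * T.ra ^ 2 * T.d y) y := by
  obtain ⟨-, n2, n3, -, n5, -, -, n8, -⟩ := TubeE_num T
  have hC := B.C_ge
  obtain ⟨-, a, ha, h⟩ := B.TubeE_field (B.coord x₀ x₀ 0).2.2.2.2.1 s (T.x y) y
  refine h.trans ?_
  obtain ⟨w1, w2, w3, w4, w5, w6, w7⟩ := B.TubeE_W_bd s (T.x y)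
  have d0 := (T.toFlat.d_bd y).1
  have N0 := (B.Nw_bd y).1
  have t3 : B.k1 s (T.x y) * B.TubeE_b (T.x y) * (‖B.cx (T.x y) - B.cx x₀‖ ^ 2 *
      T.NN y (B.cx (T.x y)) (B.cx (T.x y) - B.cx x₀)) ≤
      (T.x ⁻¹' B.Out).indicator (fun y => TubeE_a T * C' * T.ra ^ 2 * T.d y) y := by
    by_cases hv : T.x y ∈ B.TubeE_Z s
    · rw [indicator_of_mem (show y ∈ T.x ⁻¹' B.Out from (B.TubeE_out hs le_rfl).2.1 hv)]
      exact (le_abs_self _).trans (B.TubeE_gbd h0 d0 (TubeE_NN T y _ _).2.2.2.1)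
    · rw [(B.TubeE_b_bd s).2.2.1 _ hv, zero_mul]
      refine indicator_nonneg (fun y _ => ?_) y
      have := (T.toFlat.d_bd y).1
      positivity
  obtain ⟨u, hu⟩ : ∃ u, u = B.cx (T.x y) - B.cx x₀ := ⟨_, rfl⟩
  rw [← hu] at t3 ⊢
  have t2 : (B.chi1 (T.x y) * ‖u‖ ^ 2 * T.NN y (B.S.iw a) u) ^ 2 ≤
      (B.TubeE_W s (T.x y) * ‖u‖ ^ 2 * T.d y) *
        (64 * TubeE_a T / T.rb ^ 2 * B.chi1 (T.x y) * (‖u‖ ^ 2) ^ 2 * B.Nw y) := by
    have a1 := (TubeE_NN T y (B.S.iw a) u).2.2.1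
    have a2 := ((B.Nw_bd y).2.2.1 a).trans (mul_le_mul_of_nonneg_right ha N0)
    have a3 := a1.trans (mul_le_mul a2 (TubeE_NN T y u u).2.1 (TubeE_NN T y u u).1
      (by positivity))
    rw [mul_pow]
    refine (mul_le_mul_of_nonneg_left a3 (sq_nonneg _)).trans (le_of_eq ?_)
    unfold TubeE_W
    ring
  have hP : 0 ≤ B.TubeE_W s (T.x y) * ‖u‖ ^ 2 * T.d y := by positivity
  by_cases hv : T.x y ∈ B.TubeE_P s
  · rw [indicator_of_mem (show y ∈ T.x ⁻¹' B.TubeE_P s from hv)]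
    obtain ⟨s1, s2, -⟩ := B.TubeE_small hv h0
    rw [← hu] at s1
    have b1 := TubeE_amgm hP (by positivity) t2
    have b2 : 64 * TubeE_a T / T.rb ^ 2 * B.chi1 (T.x y) * (‖u‖ ^ 2) ^ 2 * B.Nw y ≤
        64 * TubeE_a T * T.rb ^ 2 * B.Nw y := by
      have c1 : (‖u‖ ^ 2) ^ 2 ≤ (T.rb ^ 2) ^ 2 := pow_le_pow_left₀ (sq_nonneg _)
        (pow_le_pow_left₀ (norm_nonneg _) (by linarith only [n2, n5, s1]) 2) 2
      have c2 := mul_le_mul (mul_le_mul_of_nonneg_left w4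
        (show 0 ≤ 64 * TubeE_a T / T.rb ^ 2 by positivity)) c1 (by positivity) (by positivity)
      refine mul_le_mul_of_nonneg_right (c2.trans (le_of_eq ?_)) N0
      field_simp
    have e : u = (T.x y - x₀) + B.S.iw (B.wx x₀ - B.wx (T.x y)) := by
      have e1 := (B.coord (T.x y) x₀ 0).1
      have e2 := (B.coord x₀ x₀ 0).1
      unfold ax at e1 e2
      rw [hu, map_sub, eq_sub_of_add_eq' e1, eq_sub_of_add_eq' e2]
      abel
    have b3 : T.NN y u u ≤ 2 * T.NN y (T.x y - x₀) (T.x y - x₀) + 2 * (4 * T.rb ^ 2 * B.Nw y) := by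
      have c1 := (TubeE_NN T y (T.x y - x₀) (B.S.iw (B.wx x₀ - B.wx (T.x y)))).2.2.2.2
      have c2 := (B.Nw_bd y).2.2.1 (B.wx x₀ - B.wx (T.x y))
      have c3 := mul_le_mul_of_nonneg_right (pow_le_pow_left₀ (norm_nonneg _) s2.le 2) N0
      rw [← e] at c1
      nlinarith only [c1, c2, c3]
    have b4 := mul_le_mul w6 b3 (TubeE_NN T y u u).1 n8.le
    linarith only [t3, b1, b2, b4]
  · rw [indicator_of_notMem (show y ∉ T.x ⁻¹' B.TubeE_P s from hv)]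
    rw [w7 hv, zero_mul, zero_mul, zero_mul] at t2
    have b1 := pow_eq_zero_iff two_ne_zero |>.1 (le_antisymm t2 (sq_nonneg _))
    rw [b1, w7 hv]
    linarith only [t3]

end

end Tb

end Pool.Agent.MP_f6c0e6_an.Gen

end
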