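import Pool.Agent.MP_f6c0e6_an.All.TubeC

section

/-! The second moment of the core: integral bounds. -/

set_option autoImplicit false

open MeasureTheory Filter Topology Set Metric
open scoped ENNReal RealInnerProductSpace

namespace Pool.Agent.MP_f6c0e6_an.Gen

variable {m N : ℕ}

namespace Tb

section
variable {k Q : ℕ} {A C C' : ℝ} {T : TI k N Q A C} (B : Tb T C')

/-- the second moment about a good point -/
theorem TubeE_J (h : C' ≤ T.Λ) (hL : (10 + C') / T.ra ≤ T.L) {s : E k} (hs : ‖B.ax s‖ ≤ 1 / 4)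
    {x₀ : E (k + 2)} (h0 : x₀ ∈ B.TubeE_P s) (hb : T.bb x₀ ≤ 1) {C₂ δ : ℝ} (hC₂ : 1 ≤ C₂)
    (hδ : δ ≤ T.rp) (hm : ∀ (f : E (k + 2) → ℝ) (M : ℝ) (Z : Set (E (k + 2))), Measurable f →
      (∀ x, |f x| ≤ M) → MeasurableSet Z → Z ⊆ ball 0 9 → (∀ x, x ∉ Z → f x = 0) →
      |T.ee f| ≤ C₂ * M * T.DS (thickening δ Z)) :
    3 / 4 * T.DD (fun v => B.TubeE_W s v * ‖B.cx v - B.cx x₀‖ ^ 2) ≤
      (2 + C₂ * C' + C') * (TubeE_a T * T.ra ^ 2 * (T.eps * T.M)) +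
      80 * T.rb ^ 2 * (TubeE_a T * B.TubeE_G s) +
      4 * TubeE_a T * (C * T.bb x₀ * T.M * (3 * T.rb) ^ (k + 2)) := by
  obtain ⟨-, n2, n3, n4, n5, n6, n7, n8, -⟩ := TubeE_num T
  have hC := B.C_ge
  have cx := B.TubeE_cont.1
  have mx := T.toFlat.measurable_all.1
  have c1 : Continuous fun v => ‖B.cx v - B.cx x₀‖ ^ 2 := (cx.sub continuous_const).norm.pow 2
  have A1 := (B.TubeE_adm s c1).2
  obtain ⟨b0, bm, b1, -⟩ := B.TubeE_b_bd s
  obtain ⟨o1, -, o3⟩ := B.TubeE_out hs hδ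
  obtain ⟨g, hg⟩ : ∃ g : E (k + 2) → ℝ, g = fun v => B.k1 s v * B.TubeE_b v *
    (‖B.cx v - B.cx x₀‖ ^ 2 * ⟪B.cx v, B.cx v - B.cx x₀⟫) := ⟨_, rfl⟩
  have cg : Continuous g := hg ▸ ((B.TubeE_cd s).1.continuous.mul b0).mul
    (c1.mul (cx.inner (cx.sub continuous_const)))
  have g0 : ∀ v, v ∉ B.TubeE_Z s → g v = 0 := fun v hv => by
    rw [hg]
    simp only [b1 v hv, zero_mul]
  have A2 : Adm g := Adm.of_cont cg (R := 9) fun v hv => g0 v fun h =>
    (mem_ball_zero_iff.1 (o3 h)).not_ge hv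
  have hO : T.DS B.Out ≤ T.eps * T.M := B.shell_sub.2.2.1
  have p1 : 0 ≤ TubeE_a T * C' * T.ra ^ 2 :=
    mul_nonneg (mul_nonneg n8.le (zero_le_one.trans hC)) (sq_nonneg _)
  have e1 : |T.ee g| ≤ C₂ * (TubeE_a T * C' * T.ra ^ 2 * 1) * (T.eps * T.M) := by
    refine (hm g _ _ cg.measurable (fun v => ?_) bm o3 g0).trans
      (mul_le_mul_of_nonneg_left ((T.toFlat.DS_mono o1).2.trans hO)
        (mul_nonneg (zero_le_one.trans hC₂) (mul_nonneg p1 zero_le_one)))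
    rw [hg]
    exact B.TubeE_gbd h0 zero_le_one (by rw [one_mul]; exact abs_real_inner_le_norm _ _)
  have e2 := B.TubeE_Y h hL hs (φ := fun v => ‖B.cx v - B.cx x₀‖ ^ 2) (pow_pos n2 2)
    (fun v hv => by
      rw [abs_of_nonneg (sq_nonneg _)]
      exact pow_le_pow_left₀ (norm_nonneg _) (B.TubeE_small hv h0).1 2)
    fun v hv v' hv' => by
      have a1 := (B.TubeE_small hv h0).1
      have a2 := (B.TubeE_small hv' h0).1
      have a3 := abs_norm_sub_norm_le (B.cx v - B.cx x₀) (B.cx v' - B.cx x₀)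
      rw [sub_sub_sub_cancel_right] at a3
      have e : T.ra ^ 2 * (2 / T.ra) = T.ra + T.ra := by
        field_simp
        ring
      rw [sq_sub_sq, abs_mul, abs_of_nonneg (by positivity), e]
      exact mul_le_mul (add_le_add a1 a2) (a3.trans (B.TubeE_lipc v v').1) (abs_nonneg _)
        (add_pos n2 n2).le
  have hz : ∀ v, v ∉ closedBall (0 : E (k + 2)) 1 →
      (B.TubeE_W s v * ‖B.cx v - B.cx x₀‖ ^ 2) • (B.cx v - B.cx x₀) = 0 := fun v hv => by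
    rw [mem_closedBall_zero_iff, not_le] at hv
    rw [(B.TubeE_W_bd s v).2.2.2.2.2.2 fun h => by linarith only [hs, n2, n5, n6, hv, B.TubeE_near h], zero_mul, zero_smul]
  have hV : Test 1 (fun x => (B.TubeE_W s x * ‖B.cx x - B.cx x₀‖ ^ 2) • (B.cx x - B.cx x₀))
      (ball 0 10) := by
    have d1 : ContDiff ℝ 1 fun x => B.cx x - B.cx x₀ := (B.TubeE_cd s).2.2.2.sub contDiff_const
    refine ⟨((B.TubeE_cd s).2.2.1.mul ((contDiff_norm_sq ℝ).comp d1)).smul d1,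
      HasCompactSupport.intro (isCompact_closedBall 0 1) hz, ?_⟩
    refine (closure_minimal (fun v hv => ?_) isClosed_closedBall).trans
      (closedBall_subset_ball (show (1 : ℝ) < 10 by norm_num))
    by_contra h'
    exact hv (hz v h')
  have e3 := T.toFlat.ee_dv hV
  have e4 : dv (fun x => (B.TubeE_W s x * ‖B.cx x - B.cx x₀‖ ^ 2) • (B.cx x - B.cx x₀)) =
      fun v => 4 * (B.TubeE_W s v * ‖B.cx v - B.cx x₀‖ ^ 2) + g v := by
    rw [hg]
    exact funext fun v => (B.TubeE_field (B.coord x₀ x₀ 0).2.2.2.2.1 s v 0).1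
  rw [e4, (T.toFlat.lin_add (A1.const_mul 4) A2).2.1, (T.toFlat.lin_smul _ _).2.1] at e3
  obtain ⟨-, i2, -, i3⟩ := B.TubeE_int
  have i4 : Integrable (fun y => B.TubeE_W s (T.x y) * ‖B.cx (T.x y) - B.cx x₀‖ ^ 2 * T.d y)
      T.μ := by
    obtain ⟨a1, M, a2, -⟩ := A1
    exact T.toFlat.integrable_d.bdd_mul (a1.comp mx).aestronglyMeasurable
      (Eventually.of_forall fun y => a2 _)
  have mP := mx (B.TubeE_mP s)
  have mO := mx B.measurable_all.2.2.2.2.2.2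
  have i5 : Integrable (fun y => 80 * TubeE_a T * T.rb ^ 2 * B.Nw y +
      4 * TubeE_a T * T.NN y (T.x y - x₀) (T.x y - x₀)) T.μ :=
    (i2.const_mul _).add ((i3 x₀).const_mul _)
  have i6 : Integrable (fun y => TubeE_a T * C' * T.ra ^ 2 * T.d y) T.μ :=
    T.toFlat.integrable_d.const_mul _
  have i8 : Integrable (fun y =>
      5 / 4 * (B.TubeE_W s (T.x y) * ‖B.cx (T.x y) - B.cx x₀‖ ^ 2 * T.d y) +
      (T.x ⁻¹' B.TubeE_P s).indicator (fun y => 80 * TubeE_a T * T.rb ^ 2 * B.Nw y +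
        4 * TubeE_a T * T.NN y (T.x y - x₀) (T.x y - x₀)) y) T.μ :=
    (i4.const_mul (5 / 4)).add (i5.indicator mP)
  have i7 := i8.add (i6.indicator mO)
  have e5 : ∫ y, T.ND y (fderiv ℝ (fun x => (B.TubeE_W s x * ‖B.cx x - B.cx x₀‖ ^ 2) •
      (B.cx x - B.cx x₀)) (T.x y)) ∂T.μ ≤
      ∫ y, (5 / 4 * (B.TubeE_W s (T.x y) * ‖B.cx (T.x y) - B.cx x₀‖ ^ 2 * T.d y) +
      (T.x ⁻¹' B.TubeE_P s).indicator (fun y => 80 * TubeE_a T * T.rb ^ 2 * B.Nw y +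
        4 * TubeE_a T * T.NN y (T.x y - x₀) (T.x y - x₀)) y +
      (T.x ⁻¹' B.Out).indicator (fun y => TubeE_a T * C' * T.ra ^ 2 * T.d y) y) ∂T.μ := by
    by_cases hi : Integrable (fun y => T.ND y (fderiv ℝ (fun x => (B.TubeE_W s x *
      ‖B.cx x - B.cx x₀‖ ^ 2) • (B.cx x - B.cx x₀)) (T.x y))) T.μ
    · exact integral_mono hi i7 fun y => B.TubeE_pt hs h0 y
    · rw [integral_undef hi]
      refine integral_nonneg fun y => add_nonneg (add_nonneg ?_ (indicator_nonneg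
        (fun y _ => ?_) y)) (indicator_nonneg (fun y _ => ?_) y)
      · have := (T.toFlat.d_bd y).1
        have := (B.TubeE_W_bd s (T.x y)).2.2.2.2.1
        positivity
      · have := (B.Nw_bd y).1
        have := (TubeE_NN T y (T.x y - x₀) 0).1
        positivity
      · exact mul_nonneg p1 (T.toFlat.d_bd y).1
  rw [integral_add i8 (i6.indicator mO),
    integral_add (i4.const_mul (5 / 4)) (i5.indicator mP), integral_indicator mP,
    integral_indicator mO, integral_add (i2.const_mul _).integrableOn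
    ((i3 x₀).const_mul _).integrableOn, integral_const_mul, integral_const_mul,
    integral_const_mul, integral_const_mul] at e5
  have e6 := (B.TubeE_G_bd hs).2.1
  have hx : x₀ ∈ ball (0 : E (k + 2)) 1 := by
    have := B.TubeE_near h0
    rw [mem_ball_zero_iff]
    linarith only [hs, n2, n5, n6, this]
  have e7 : ∫ y in T.x ⁻¹' B.TubeE_P s, T.NN y (T.x y - x₀) (T.x y - x₀) ∂T.μ ≤
      C * T.bb x₀ * T.M * (3 * T.rb) ^ (k + 2) := by
    refine le_trans ?_ (T.good x₀ hx hb (3 * T.rb) (show T.rp / 16 ≤ _ by linarith only [n2, n4, n5])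
      (by linarith only [n2, n5, n6])).2.2
    refine setIntegral_mono_set (i3 x₀).integrableOn
      (Eventually.of_forall fun y => (TubeE_NN T y _ 0).1) (LE.le.eventuallyLE fun y hy => ?_)
    exact mem_ball_iff_norm.2 (B.TubeE_small hy h0).2.2
  have e8 : T.Y (fun v => B.TubeE_W s v * ‖B.cx v - B.cx x₀‖ ^ 2) =
      T.DD (fun v => B.TubeE_W s v * ‖B.cx v - B.cx x₀‖ ^ 2) -
        2 * T.ee (fun v => B.TubeE_W s v * ‖B.cx v - B.cx x₀‖ ^ 2) := rfl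
  have e9 : ∫ y, B.TubeE_W s (T.x y) * ‖B.cx (T.x y) - B.cx x₀‖ ^ 2 * T.d y ∂T.μ =
      T.DD (fun v => B.TubeE_W s v * ‖B.cx v - B.cx x₀‖ ^ 2) := rfl
  have e10 : ∫ y in T.x ⁻¹' B.Out, T.d y ∂T.μ = T.DS B.Out := rfl
  rw [e9, e10] at e5
  have f1 := mul_le_mul_of_nonneg_left e6 (show 0 ≤ 80 * TubeE_a T * T.rb ^ 2 by positivity)
  have f2 := mul_le_mul_of_nonneg_left e7 (show 0 ≤ 4 * TubeE_a T by positivity)
  have f3 := mul_le_mul_of_nonneg_left hO p1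
  have f4 := (abs_le.1 e1).1
  have f5 := (abs_le.1 e2).2
  linarith only [e3, e5, e8, f1, f2, f3, f4, f5]

/-- the centre is close to the good point -/
theorem TubeE_centre (h : C' ≤ T.Λ) (hL : (10 + C') / T.ra ≤ T.L) {s : E k}
    (hs : ‖B.ax s‖ ≤ 1 / 4) {x₀ : E (k + 2)} (h0 : x₀ ∈ B.TubeE_P s) {C₁ κ : ℝ} (hC₁ : 1 ≤ C₁)
    (h1 : T.M ≤ C₁ * B.M0) (h2 : |T.ee (B.TubeE_W s) - B.M0| ≤ κ * T.M)
    (h3 : T.DD (B.TubeE_W s) ≤ C₁ * T.M) (h4 : (TubeE_a T * T.eps + κ) ^ 2 ≤ T.eps) :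
    T.M * ‖B.gm s - B.cx x₀‖ ^ 2 ≤
      C₁ ^ 3 * T.DD (fun v => B.TubeE_W s v * ‖B.cx v - B.cx x₀‖ ^ 2) +
        4 * C₁ ^ 2 * (T.rb ^ 2 * (T.eps * T.M)) := by
  obtain ⟨-, n2, n3, -, n5, -, n7, n8, -⟩ := TubeE_num T
  have hM := T.M_pos
  have hC0 : 0 < C₁ := by linarith only [hC₁]
  have hM0 : 0 < B.M0 := (pos_iff_pos_of_mul_pos (hM.trans_le h1)).1 hC0
  have cx := B.TubeE_cont.1
  have W0 : ∀ v, 0 ≤ B.TubeE_W s v := fun v => (B.TubeE_W_bd s v).2.2.2.2.1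
  have J0 : 0 ≤ T.DD (fun v => B.TubeE_W s v * ‖B.cx v - B.cx x₀‖ ^ 2) :=
    T.toFlat.DD_nonneg fun v => mul_nonneg (W0 v) (sq_nonneg _)
  obtain ⟨u, hu⟩ : ∃ u, u = B.gm s - B.cx x₀ := ⟨_, rfl⟩
  rw [← hu]
  rcases (norm_nonneg u).eq_or_lt with hδ | hδ
  · rw [← hδ, zero_pow two_ne_zero, mul_zero]
    positivity
  have A0 := (B.TubeE_adm s (φ := fun _ => 0) continuous_const).1
  have A1 : Adm fun v => B.TubeE_W s v * ‖B.cx v - B.cx x₀‖ ^ 2 :=
    (B.TubeE_adm s ((cx.sub continuous_const).norm.pow 2)).2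
  have A2 : Adm fun v => B.TubeE_W s v * ⟪u, B.cx v - B.cx x₀⟫ :=
    (B.TubeE_adm s (continuous_const.inner (cx.sub continuous_const))).2
  have A3 : ∀ j, Adm fun v => B.TubeE_W s v * ⟪B.S.ic (ev j), B.cx v⟫ := fun j =>
    (B.TubeE_adm s (continuous_const.inner cx)).2
  have e1 : B.M0 * ⟪u, B.gm s⟫ = T.ee (fun v => B.TubeE_W s v * ⟪u, B.cx v - B.cx x₀⟫) +
      ⟪u, B.cx x₀⟫ * T.ee (B.TubeE_W s) := by
    rw [← (T.toFlat.lin_smul _ _).2.1, ← (T.toFlat.lin_add A2 (A0.const_mul _)).2.1]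
    have e : (fun v => B.TubeE_W s v * ⟪u, B.cx v - B.cx x₀⟫ + ⟪u, B.cx x₀⟫ * B.TubeE_W s v) =
        fun v => ∑ j, ⟪u, B.S.ic (ev j)⟫ * (B.TubeE_W s v * ⟪B.S.ic (ev j), B.cx v⟫) := by
      funext v
      have e' : ⟪u, B.cx v⟫ = ∑ j, ⟪B.S.ic (ev j), B.cx v⟫ * ⟪u, B.S.ic (ev j)⟫ := by
        conv_lhs => rw [(B.coord v v 0).2.2.2.2.2]
        simp only [inner_sum, real_inner_smul_right]
      rw [inner_sub_right, e', mul_sub, Finset.mul_sum, mul_comm ⟪u, B.cx x₀⟫, sub_add_cancel]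
      exact Finset.sum_congr rfl fun j _ => by ring
    rw [e, (T.toFlat.lin_sum _ fun j _ => (A3 j).const_mul _).2.1, gm, real_inner_smul_right,
      mul_inv_cancel_left₀ hM0.ne', inner_sum]
    refine Finset.sum_congr rfl fun j _ => ?_
    rw [(T.toFlat.lin_smul _ _).2.1, real_inner_smul_right, mul_comm]
    rfl
  have e2 : ⟪u, B.gm s⟫ = ‖u‖ ^ 2 + ⟪u, B.cx x₀⟫ := by
    rw [← real_inner_self_eq_norm_sq, ← inner_add_right, hu, sub_add_cancel]
  have e3 := B.TubeE_Y h hL hs (φ := fun v => ⟪u, B.cx v - B.cx x₀⟫) (mul_pos hδ n2)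
    (fun v hv => (abs_real_inner_le_norm _ _).trans
      (mul_le_mul_of_nonneg_left (B.TubeE_small hv h0).1 hδ.le))
    fun v _ v' _ => by
      have e : ‖u‖ * T.ra * (2 / T.ra) = 2 * ‖u‖ := by field_simp
      rw [← inner_sub_right, sub_sub_sub_cancel_right, e]
      exact (abs_real_inner_le_norm _ _).trans (mul_le_mul (by linarith only [hδ]) (B.TubeE_lipc v v').1
        (norm_nonneg _) (by positivity))
  have e4 : 4 * C₁ ^ 2 * T.DD (fun v => B.TubeE_W s v * ⟪u, B.cx v - B.cx x₀⟫) ≤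
      4 * ‖u‖ ^ 2 * T.DD (B.TubeE_W s) +
        C₁ ^ 4 * T.DD (fun v => B.TubeE_W s v * ‖B.cx v - B.cx x₀‖ ^ 2) := by
    rw [← (T.toFlat.lin_smul _ _).1, ← (T.toFlat.lin_smul _ _).1, ← (T.toFlat.lin_smul _ _).1,
      ← (T.toFlat.lin_add (A0.const_mul _) (A1.const_mul _)).1]
    refine T.toFlat.DD_mono (A2.const_mul _) ((A0.const_mul _).add (A1.const_mul _)) fun v => ?_
    have a1 := mul_le_mul_of_nonneg_left (real_inner_le_norm u (B.cx v - B.cx x₀))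
      (show 0 ≤ 4 * C₁ ^ 2 by positivity)
    have a2 : 4 * C₁ ^ 2 * ⟪u, B.cx v - B.cx x₀⟫ ≤ 4 * ‖u‖ ^ 2 + C₁ ^ 4 * ‖B.cx v - B.cx x₀‖ ^ 2 := by
      nlinarith only [a1, sq_nonneg (2 * ‖u‖ - C₁ ^ 2 * ‖B.cx v - B.cx x₀‖)]
    have a3 := mul_le_mul_of_nonneg_left a2 (W0 v)
    linarith
  have e5 : T.Y (fun v => B.TubeE_W s v * ⟪u, B.cx v - B.cx x₀⟫) =
      T.DD (fun v => B.TubeE_W s v * ⟪u, B.cx v - B.cx x₀⟫) -
        2 * T.ee (fun v => B.TubeE_W s v * ⟪u, B.cx v - B.cx x₀⟫) := rfl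
  have e6 : ⟪u, B.cx x₀⟫ * (T.ee (B.TubeE_W s) - B.M0) ≤ ‖u‖ * T.rb * (κ * T.M) := by
    refine (le_abs_self _).trans ?_
    rw [abs_mul]
    refine mul_le_mul ((abs_real_inner_le_norm _ _).trans
      (mul_le_mul_of_nonneg_left ?_ hδ.le)) h2 (abs_nonneg _) (by positivity)
    linarith only [n2, n5, h0.2]
  have e7 : TubeE_a T * (‖u‖ * T.ra) * (T.eps * T.M) ≤
      TubeE_a T * (‖u‖ * T.rb) * (T.eps * T.M) :=
    mul_le_mul_of_nonneg_right (mul_le_mul_of_nonneg_left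
      (mul_le_mul_of_nonneg_left (by linarith) hδ.le) n8.le) (by positivity)
  have e8 : 0 ≤ TubeE_a T * (‖u‖ * T.rb) * (T.eps * T.M) := by positivity
  have f1 : B.M0 * ‖u‖ ^ 2 ≤ T.DD (fun v => B.TubeE_W s v * ⟪u, B.cx v - B.cx x₀⟫) / 2 +
      ‖u‖ * T.rb * (TubeE_a T * T.eps + κ) * T.M := by
    have := (abs_le.1 e3).1
    rw [e2] at e1
    linarith only [e1, e5, e6, e7, e8, this]
  have f2 := mul_le_mul_of_nonneg_right h1 (sq_nonneg ‖u‖)
  have f3 := mul_le_mul_of_nonneg_left h3 (show 0 ≤ 4 * ‖u‖ ^ 2 by positivity)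
  have f4 : 4 * C₁ * (‖u‖ * T.rb * (TubeE_a T * T.eps + κ)) ≤
      ‖u‖ ^ 2 + 4 * C₁ ^ 2 * (T.rb ^ 2 * T.eps) := by
    have a1 := mul_le_mul_of_nonneg_left h4 (show 0 ≤ 4 * C₁ ^ 2 * T.rb ^ 2 by positivity)
    nlinarith only [a1, sq_nonneg (‖u‖ - 2 * C₁ * T.rb * (TubeE_a T * T.eps + κ))]
  have f5 := mul_le_mul_of_nonneg_right f4 hM.le
  have f6 := mul_le_mul_of_nonneg_left f1 hC0.le
  have f7 : C₁ * (4 * C₁ * T.DD (fun v => B.TubeE_W s v * ⟪u, B.cx v - B.cx x₀⟫)) ≤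
      C₁ * (4 * ‖u‖ ^ 2 * T.M +
        C₁ ^ 3 * T.DD (fun v => B.TubeE_W s v * ‖B.cx v - B.cx x₀‖ ^ 2)) := by linarith only [e4, f3]
  have f8 := le_of_mul_le_mul_left f7 hC0
  have f9 := mul_nonneg (pow_pos hC0 3).le J0
  linarith only [f2, f5, f6, f8, f9]

theorem TubeE_num2 (T : TI k N Q A C) : T.Λ * (T.Λ ^ (100 * (k + 2)) / T.L) ≤ 1 ∧
    TubeE_a T * T.eps ≤ 1 / cg k * (T.Λ ^ (100 * (k + 2)) / T.L) ∧
    T.eps ≤ T.Λ ^ (100 * (k + 2)) / T.L ∧ T.Λ * (T.Λ ^ (100 * (k + 2)) / T.L) ^ 2 ≤ T.eps ∧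
    T.Λ / T.ra ≤ T.L ∧ TubeE_a T * T.ra ^ 2 ≤ 1 / cg k * T.rb ^ 2 ∧
    TubeE_a T * T.rb ^ k = 1 / cg k ∧ T.Λ ≤ T.L := by
  have h1 : 1 ≤ T.Λ := by linarith [T.Λ_ge]
  have h0 : 0 < T.Λ := by linarith
  have hc := cg_pos k
  have hp : ∀ n, n ≤ 1000 * (k + 4) → T.Λ ^ n ≤ T.L := fun n hn =>
    (pow_le_pow_right₀ h1 (hn.trans (Nat.mul_le_mul_left _
      (Nat.le_self_pow (by norm_num) _)))).trans T.L_ge
  have hL : 0 < T.L := (pow_pos h0 0).trans_le (hp 0 (Nat.zero_le _))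
  have ea : TubeE_a T = 1 / cg k * T.Λ ^ (40 * k) := by
    unfold TubeE_a TI.rb
    rw [inv_pow, ← pow_mul]
    field_simp
  refine ⟨?_, ?_, ?_, ?_, ?_, ?_, ?_, ?_⟩
  · rw [← mul_div_assoc, div_le_one hL, ← pow_succ']
    exact hp _ (by omega)
  · rw [ea, mul_assoc, TI.eps, ← mul_div_assoc, ← pow_add]
    exact mul_le_mul_of_nonneg_left (div_le_div_of_nonneg_right
      (pow_le_pow_right₀ h1 (by omega)) hL.le) (one_div_pos.2 hc).le
  · exact div_le_div_of_nonneg_right (pow_le_pow_right₀ h1 (by omega)) hL.le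
  · rw [TI.eps, div_pow, ← mul_div_assoc, ← pow_mul, ← pow_succ', sq, ← div_div]
    refine div_le_div_of_nonneg_right ?_ hL.le
    exact ((div_le_one hL).2 (hp _ (by omega))).trans (one_le_pow₀ h1)
  · rw [TI.ra, div_inv_eq_mul, ← pow_succ']
    exact hp _ (by omega)
  · rw [ea, mul_assoc, TI.ra, TI.rb, inv_pow, inv_pow, ← pow_mul, ← pow_mul]
    refine mul_le_mul_of_nonneg_left ?_ (one_div_pos.2 hc).le
    rw [mul_inv_le_iff₀ (pow_pos h0 _), le_inv_mul_iff₀ (pow_pos h0 _), ← pow_add]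
    exact pow_le_pow_right₀ h1 (by omega)
  · have := (pow_pos (TubeE_num T).2.2.1 k).ne'
    unfold TubeE_a
    field_simp
  · simpa only [pow_one] using hp 1 (by omega)

theorem TubeE_contR (hg : Continuous B.gm) :
    Continuous fun s => T.DD fun v => B.TubeE_W s v * ‖B.cx v - B.gm s‖ ^ 2 := by
  obtain ⟨-, n2, -, -, -, -, -, n8, -⟩ := TubeE_num T
  obtain ⟨m1, -, -, -, m5, -⟩ := T.toFlat.measurable_all
  refine continuous_iff_continuousAt.2 fun s₀ => ?_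
  refine continuousAt_of_dominated
    (bound := fun y => TubeE_a T * (T.ra / 2 + (‖B.gm s₀‖ + 1)) ^ 2 * T.d y)
    (Eventually.of_forall fun s => ?_) ?_ (T.toFlat.integrable_d.const_mul _)
    (Eventually.of_forall fun y => ?_)
  · exact ((((B.TubeE_cd s).2.2.1.continuous.mul ((B.TubeE_cont.1.sub continuous_const).norm.pow
      2)).measurable.comp m1).mul m5).aestronglyMeasurable
  · filter_upwards [hg.norm.continuousAt.eventually_lt continuousAt_const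
      (lt_add_one ‖B.gm s₀‖)] with s hs
    refine Eventually.of_forall fun y => ?_
    obtain ⟨-, -, -, -, w5, w6, w7⟩ := B.TubeE_W_bd s (T.x y)
    have d0 := (T.toFlat.d_bd y).1
    rw [Real.norm_of_nonneg (mul_nonneg (mul_nonneg w5 (sq_nonneg _)) d0)]
    refine mul_le_mul_of_nonneg_right ?_ d0
    by_cases hv : T.x y ∈ B.TubeE_P s
    · refine mul_le_mul w6 (pow_le_pow_left₀ (norm_nonneg _) ?_ 2) (sq_nonneg _) n8.le
      exact (norm_sub_le _ _).trans (add_le_add hv.2 hs.le)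
    · rw [w7 hv, zero_mul]
      exact mul_nonneg n8.le (sq_nonneg _)
  · refine Continuous.continuousAt (Continuous.mul (Continuous.mul (Continuous.mul ?_
      continuous_const) ((continuous_const.sub hg).norm.pow 2)) continuous_const)
    exact (contDiff_rho T.rb).continuous.comp (continuous_const.sub continuous_id)

/-- Fubini -/
theorem TubeE_total {R : E k → ℝ} (hR : ∀ s, 0 ≤ R s) {K : ℝ} (hK : 0 ≤ K)
    (h : ∀ s, ‖B.ax s‖ ≤ 1 / 4 → R s ≤ K * (TubeE_a T * B.TubeE_G s + T.eps * T.M)) :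
    ∫ s in {s | ‖B.ax s‖ ≤ 1 / 4}, R s ≤ K * (2 ^ k * (5 + 4 * C') * (T.eps * T.M)) := by
  obtain ⟨-, -, n3, -, -, -, n7, n8, -⟩ := TubeE_num T
  obtain ⟨m1, -, -, -, m5, -⟩ := T.toFlat.measurable_all
  obtain ⟨i1, i2, p1, -⟩ := B.TubeE_int
  have hr : 0 < 2 * T.rb := by linarith
  have e0 : 0 < T.eps * T.M := mul_pos n7 T.M_pos
  obtain ⟨g, hg⟩ : ∃ g : E N → ℝ, g = (T.x ⁻¹' ball 0 1).indicator
    fun y => T.bb (T.x y) * T.d y + B.Nw y := ⟨_, rfl⟩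
  have mB : MeasurableSet (T.x ⁻¹' ball 0 1) := m1 measurableSet_ball
  have i3 : Integrable (fun y => T.bb (T.x y) * T.d y + B.Nw y) T.μ := i1.add i2
  have mg : Measurable g :=
    hg ▸ (((T.mb.comp m1).mul m5).add B.measurable_all.1).indicator mB
  have ig : Integrable g T.μ := hg ▸ i3.indicator mB
  have g0 : ∀ y, 0 ≤ g y := fun y =>
    hg ▸ indicator_nonneg (fun y _ => add_nonneg (p1 y) (B.Nw_bd y).1) y
  have mζ : Measurable fun y => B.wx (T.x y) := B.TubeE_cont.2.measurable.comp m1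
  obtain ⟨f1, f2⟩ := TubeE_fub T.μ mζ mg ig hr
  have cS : Continuous B.ax := continuous_const.add B.S.iw.continuous
  have mS : MeasurableSet {s | ‖B.ax s‖ ≤ 1 / 4} :=
    measurableSet_le cS.norm.measurable measurable_const
  have hsub : {s | ‖B.ax s‖ ≤ 1 / 4} ⊆ closedBall (0 : E k) 1 := fun s hs => by
    have h1 := norm_sub_le (B.ax s) B.o
    have h2 : ‖B.ax s‖ ≤ 1 / 4 := hs
    rw [ax, add_sub_cancel_left, B.S.iw.norm_map, ← ax] at h1
    rw [mem_closedBall_zero_iff]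
    linarith only [h1, h2, B.o_le]
  have hfin : volume {s | ‖B.ax s‖ ≤ 1 / 4} ≠ ⊤ :=
    ((measure_mono hsub).trans_lt measure_closedBall_lt_top).ne
  have hvol : volume.real {s | ‖B.ax s‖ ≤ 1 / 4} ≤ 2 ^ k := by
    have h1 := (volume_ball_le (0 : E k) zero_le_one).1
    rw [one_pow, mul_one] at h1
    exact (ENNReal.toReal_mono measure_closedBall_lt_top.ne (measure_mono hsub)).trans h1
  have hG : ∀ s, ‖B.ax s‖ ≤ 1 / 4 → TubeE_a T * B.TubeE_G s ≤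
      4 * 2 ^ k * ∫ y, rho (2 * T.rb) (B.wx (T.x y) - s) * g y ∂T.μ := by
    intro s hs
    have mP := m1 (B.TubeE_mP s)
    have i4 : Integrable (fun y => rho (2 * T.rb) (B.wx (T.x y) - s) * g y) T.μ :=
      ig.bdd_mul ((contDiff_rho _).continuous.measurable.comp
        (mζ.sub_const s)).aestronglyMeasurable (Eventually.of_forall fun y => by
          rw [Real.norm_of_nonneg (rho_nonneg hr _)]
          exact rho_le hr _)
    rw [TubeE_G, ← integral_indicator mP, ← integral_const_mul, ← integral_const_mul]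
    refine integral_mono ((i3.indicator mP).const_mul _) (i4.const_mul _) fun y => ?_
    by_cases hy : y ∈ T.x ⁻¹' B.TubeE_P s
    · have hy' : y ∈ T.x ⁻¹' ball 0 1 := by
        have := B.TubeE_near hy
        rw [mem_preimage, mem_ball_zero_iff]
        linarith only [hs, this]
      have a1 := rho_ge hr (x := B.wx (T.x y) - s) (by linarith [hy.1])
      have a2 : TubeE_a T = 4 * 2 ^ k * (1 / (4 * cg k * (2 * T.rb) ^ k)) := by
        have := (cg_pos k).ne'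
        have := n3.ne'
        unfold TubeE_a
        rw [mul_pow]
        field_simp
      have a3 := mul_le_mul_of_nonneg_right (mul_le_mul_of_nonneg_left a1
        (show (0 : ℝ) ≤ 4 * 2 ^ k by positivity)) (g0 y)
      rw [← a2, mul_assoc] at a3
      rw [hg, indicator_of_mem hy'] at a3
      simp only [hg, indicator_of_mem hy, indicator_of_mem hy']
      exact a3
    · simp only [indicator_of_notMem hy, mul_zero]
      exact mul_nonneg (by positivity) (mul_nonneg (rho_nonneg hr _) (g0 y))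
  have i5 : IntegrableOn (fun _ => T.eps * T.M) {s | ‖B.ax s‖ ≤ 1 / 4} volume :=
    integrableOn_const hfin
  have i6 := (f1.const_mul (4 * 2 ^ k)).integrableOn (s := {s | ‖B.ax s‖ ≤ 1 / 4})
  have hint : ∫ y, g y ∂T.μ ≤ (1 + C') * (T.eps * T.M) := by
    rw [hg, integral_indicator mB, integral_add i1.integrableOn i2.integrableOn]
    have b1 : ∫ y in T.x ⁻¹' ball 0 1, T.bb (T.x y) * T.d y ∂T.μ ≤ T.eps * T.M := T.b_int
    have b2 : ∫ y in T.x ⁻¹' ball 0 1, B.Nw y ∂T.μ ≤ C' * T.eps * T.M := B.nw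
    linarith
  calc ∫ s in {s | ‖B.ax s‖ ≤ 1 / 4}, R s
      ≤ ∫ s in {s | ‖B.ax s‖ ≤ 1 / 4}, K * (4 * 2 ^ k *
          (∫ y, rho (2 * T.rb) (B.wx (T.x y) - s) * g y ∂T.μ) + T.eps * T.M) := by
        refine integral_mono_of_nonneg (Eventually.of_forall hR) ((i6.add i5).const_mul K)
          (ae_restrict_of_forall_mem mS fun s hs => (h s hs).trans ?_)
        exact mul_le_mul_of_nonneg_left (add_le_add (hG s hs) le_rfl) hK
    _ ≤ K * (2 ^ k * (5 + 4 * C') * (T.eps * T.M)) := by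
        rw [integral_const_mul, integral_add i6 i5, integral_const_mul, setIntegral_const,
          smul_eq_mul]
        refine mul_le_mul_of_nonneg_left ?_ hK
        have a1 := (setIntegral_le_integral (s := {s | ‖B.ax s‖ ≤ 1 / 4}) f1
          (Eventually.of_forall fun s => integral_nonneg fun y =>
            mul_nonneg (rho_nonneg hr _) (g0 y))).trans (f2.le.trans hint)
        have a2 := mul_le_mul_of_nonneg_left a1 (show (0 : ℝ) ≤ 4 * 2 ^ k by positivity)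
        have a3 := mul_le_mul_of_nonneg_right hvol e0.le
        linarith only [a2, a3]

end

end Tb

end Pool.Agent.MP_f6c0e6_an.Gen

end

section

/-! The second moment of the core at the small scale. -/

set_option autoImplicit false

open MeasureTheory Filter Topology Set Metric
open scoped ENNReal RealInnerProductSpace

namespace Pool.Agent.MP_f6c0e6_an.Gen

variable {m N : ℕ}

namespace Tb

theorem TubeE_alg1 {J p c q C₁ r2 G e a x : ℝ} (hp : 0 ≤ p) (hc : 0 ≤ c) (hq : 0 ≤ q)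
    (hr : 0 ≤ r2) (hG : 0 ≤ G) (he : 0 ≤ e) (h1 : a ≤ c * r2) (h2 : x ≤ C₁ * (G + e))
    (h : 3 / 4 * J ≤ p * (a * e) + 80 * r2 * G + q * r2 * x) :
    J ≤ 4 / 3 * (p * c + 80 + q * C₁) * (r2 * (G + e)) := by
  have a1 := mul_le_mul_of_nonneg_left (mul_le_mul_of_nonneg_right h1 he) hp
  have a2 := mul_nonneg (mul_nonneg hp hc) (mul_nonneg hr hG)
  have a3 := mul_nonneg hr he
  have a5 := mul_le_mul_of_nonneg_left h2 (mul_nonneg hq hr)
  linarith

theorem TubeE_alg2 {R J D W KJ C₁ M r2 G e : ℝ} (hC : 0 ≤ C₁) (hr : 0 ≤ r2) (hG : 0 ≤ G)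
    (hD : 0 ≤ D) (h1 : R ≤ 2 * J + 2 * D * W) (h2 : W ≤ C₁ * M)
    (h3 : M * D ≤ C₁ ^ 3 * J + 4 * C₁ ^ 2 * (r2 * e)) (h4 : J ≤ KJ * (r2 * (G + e))) :
    R ≤ ((2 + 2 * C₁ ^ 4) * KJ + 8 * C₁ ^ 3) * r2 * (G + e) := by
  have b2 := mul_le_mul_of_nonneg_left h2 (show 0 ≤ 2 * D by positivity)
  have b3 := mul_le_mul_of_nonneg_left h3 (show 0 ≤ 2 * C₁ by positivity)
  have b5 := mul_le_mul_of_nonneg_left h4 (show 0 ≤ 2 + 2 * C₁ ^ 4 by positivity)
  have b6 := mul_nonneg (pow_nonneg hC 3) (mul_nonneg hr hG)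
  linarith

theorem TubeE_alg3 {C₁ C' c κ Λ ε x : ℝ} (h1 : 1 ≤ C₁) (h2 : 1 ≤ C') (hc : 0 < c) (hε : 0 < ε)
    (hx : 0 < x) (u1 : Λ * κ ≤ 1) (u2 : x ≤ c * κ) (u3 : ε ≤ κ) (u4 : Λ * κ ^ 2 ≤ ε)
    (l4 : 2 * C₁ * (1 + C') * (1 + c) ≤ Λ) (l5 : (1 + c) ^ 2 ≤ Λ) :
    C₁ * (2 * κ + 2 * x) ≤ 1 ∧ (x + κ) ^ 2 ≤ ε ∧ C₁ * ((1 + C') * x + ε) ≤ 1 := by
  have κ0 : 0 < κ := hε.trans_le u3
  have C0 : 0 < C₁ := by linarith
  have v0 : 2 * C₁ * (1 + C') * (1 + c) * κ ≤ 1 := (mul_le_mul_of_nonneg_right l4 κ0.le).trans u1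
  have v1 : 0 ≤ C₁ * κ := (mul_pos C0 κ0).le
  have v2 : 0 ≤ C₁ * (c * κ) := (mul_pos C0 (mul_pos hc κ0)).le
  have v3 := mul_le_mul_of_nonneg_left u2 C0.le
  have v4 := mul_nonneg v1 (zero_le_one.trans h2)
  have v5 := mul_nonneg v2 (zero_le_one.trans h2)
  refine ⟨by linarith, ?_, ?_⟩
  · have a1 : x + κ ≤ (1 + c) * κ := by linarith
    refine (pow_le_pow_left₀ (add_pos hx κ0).le a1 2).trans ?_
    rw [mul_pow]
    exact (mul_le_mul_of_nonneg_right l5 (sq_nonneg _)).trans u4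
  · have a2 := mul_le_mul_of_nonneg_left v3 (show 0 ≤ 1 + C' by linarith)
    have a3 := mul_le_mul_of_nonneg_left u3 C0.le
    linarith

theorem TubeE_shift {k Q : ℕ} {A C C' : ℝ} {T : TI k N Q A C} (B : Tb T C') (s : E k)
    (p q : E (k + 2)) : T.DD (fun v => B.TubeE_W s v * ‖B.cx v - q‖ ^ 2) ≤
      2 * T.DD (fun v => B.TubeE_W s v * ‖B.cx v - p‖ ^ 2) +
        2 * ‖q - p‖ ^ 2 * T.DD (B.TubeE_W s) := by
  have A0 := (B.TubeE_adm s (φ := fun _ => 0) continuous_const).1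
  have A1 : ∀ p, Adm fun v => B.TubeE_W s v * ‖B.cx v - p‖ ^ 2 := fun p =>
    (B.TubeE_adm s ((B.TubeE_cont.1.sub continuous_const).norm.pow 2)).2
  rw [← (T.toFlat.lin_smul _ _).1, ← (T.toFlat.lin_smul _ _).1,
    ← (T.toFlat.lin_add ((A1 _).const_mul _) (A0.const_mul _)).1]
  refine T.toFlat.DD_mono (A1 _) (((A1 _).const_mul _).add (A0.const_mul _)) fun v => ?_
  have a1 := norm_sub_le (B.cx v - p) (q - p)
  rw [sub_sub_sub_cancel_right] at a1
  have a2 := pow_le_pow_left₀ (norm_nonneg _) a1 2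
  have a3 : ‖B.cx v - q‖ ^ 2 ≤ 2 * ‖B.cx v - p‖ ^ 2 + 2 * ‖q - p‖ ^ 2 := by
    nlinarith [sq_nonneg (‖B.cx v - p‖ - ‖q - p‖)]
  have a4 := mul_le_mul_of_nonneg_left a3 (B.TubeE_W_bd s v).2.2.2.2.1
  linarith

/-- the local bound -/
theorem TubeE_loc {k Q : ℕ} {A C C' : ℝ} {T : TI k N Q A C} (B : Tb T C') (h : C' ≤ T.Λ)
    (hL : (10 + C') / T.ra ≤ T.L) {s : E k} (hs : ‖B.ax s‖ ≤ 1 / 4) {C₁ C₂ κ δ : ℝ}
    (hC₁ : 1 ≤ C₁) (hC₂ : 1 ≤ C₂) (k1 : T.M ≤ C₁ * B.M0)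
    (c1 : |T.ee (B.TubeE_W s) - B.M0| ≤ κ * T.M) (c2 : T.DD (B.TubeE_W s) ≤ C₁ * T.M)
    (w1 : C₁ * (2 * κ + 2 * (TubeE_a T * T.eps)) ≤ 1) (w2 : (TubeE_a T * T.eps + κ) ^ 2 ≤ T.eps)
    (w3 : C₁ * ((1 + C') * (TubeE_a T * T.eps) + T.eps) ≤ 1) (hδ : δ ≤ T.rp)
    (hm : ∀ (f : E (k + 2) → ℝ) (M : ℝ) (Z : Set (E (k + 2))), Measurable f →
      (∀ x, |f x| ≤ M) → MeasurableSet Z → Z ⊆ ball 0 9 → (∀ x, x ∉ Z → f x = 0) →
      |T.ee f| ≤ C₂ * M * T.DS (thickening δ Z)) :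
    T.DD (fun v => B.TubeE_W s v * ‖B.cx v - B.gm s‖ ^ 2) ≤
      ((2 + 2 * C₁ ^ 4) * (4 / 3 * ((2 + C₂ * C' + C') * (1 / cg k) + 80 +
        4 * C * 3 ^ (k + 2) * (1 / cg k) * C₁)) + 8 * C₁ ^ 3) * T.rb ^ 2 *
        (TubeE_a T * B.TubeE_G s + T.eps * T.M) := by
  obtain ⟨-, -, -, -, -, -, n7, n8, -⟩ := TubeE_num T
  obtain ⟨-, -, -, -, -, u6, u7, -⟩ := TubeE_num2 T
  have hC := zero_le_one.trans T.C_ge
  have hC' := zero_le_one.trans B.C_ge
  have hM := T.M_pos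
  have C0 : 0 ≤ C₁ := zero_le_one.trans hC₁
  have c0 := (one_div_pos.2 (cg_pos k)).le
  obtain ⟨x₀, h0, -, hb⟩ := B.TubeE_point h hL hs hC₁ k1 c1 w1
  obtain ⟨-, -, g0, g1, -⟩ := B.TubeE_G_bd hs
  have G0 : 0 ≤ TubeE_a T * B.TubeE_G s := mul_nonneg n8.le g0
  have hb1 : T.bb x₀ ≤ 1 := by
    have a1 := mul_le_mul_of_nonneg_left g1 n8.le
    have a5 := mul_le_mul_of_nonneg_right w3 hM.le
    have a6 := mul_le_mul_of_nonneg_left a1 C0
    exact le_of_mul_le_mul_right (by linarith) hM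
  have hJ := B.TubeE_J h hL hs h0 hb1 hC₂ hδ hm
  have a4 : 4 * TubeE_a T * (C * T.bb x₀ * T.M * (3 * T.rb) ^ (k + 2)) =
      4 * C * 3 ^ (k + 2) * (1 / cg k) * T.rb ^ 2 * (T.bb x₀ * T.M) := by
    rw [← u7]
    ring
  rw [a4] at hJ
  exact TubeE_alg2 C0 (sq_nonneg _) G0 (sq_nonneg _) (B.TubeE_shift s (B.cx x₀) (B.gm s)) c2
    (B.TubeE_centre h hL hs h0 hC₁ k1 c1 c2 w2)
    (TubeE_alg1 (add_nonneg (add_nonneg zero_le_two (mul_nonneg (zero_le_one.trans hC₂) hC')) hC')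
      c0 (mul_nonneg (mul_nonneg (mul_nonneg (by norm_num) hC) (pow_nonneg (by norm_num) _)) c0)
      (sq_nonneg _) G0 (mul_pos n7 hM).le u6 hb hJ)

/-- Fix `s`, let `Π = {‖wx v - s‖ < rb, ‖cx v‖ ≤ ra / 2}`. By `core`, `g3`, `out`, the part of `Π`
with `‖cx v‖ < rp / 8` has energy at least `c M rb ^ k`, so it contains a point `x₀` with
`bb x₀ ≤ C rb ^ (-k) (∫ over Π of bb d) / M ≤ 1`. Put `p = cx x₀`, `v' = cx v - p`,
`J = DD (k₁ χ₁ |v'|²)`. `ee_dv` for `k₁ χ₁ |v'|² v'`, whose divergence is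
`4 k₁ χ₁ |v'|² + k₁ |v'|² ∇χ₁ · v'`, gives
`J ≤ 2 ∫ k₁ χ₁ N (v', v') + ∫ χ₁ |v'|² N (v', ∇k₁) + C eps M ra² / rb ^ k`; the middle term is at
most `J / 4 + C ra ^ 4 rb ^ (-k - 2) ∫ Nw over Π` as `|∇k₁|² ≤ C k₁ rb ^ (-k - 2)` (`fderiv_rho`),
and `N (v', v') ≤ 2 N (x - x₀, x - x₀) + 8 rb² Nw`; `good` at `x₀` with `ρ = 3 rb`. Then
`M0 (gm s - p) = ee (k₁ χ₁ v') + (M0 s - M0) p` gives `M ‖gm s - p‖² ≤ C J + eps rb² M`. Integrate
the resulting bound `C rb ^ (2 - k) (∫ over Π of (bb d + Nw)) + C eps rb² M` in `s` (Fubini). -/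
theorem moment (k Q : ℕ) (A C C' : ℝ) : ∃ C'' Λ₀ : ℝ, 1 ≤ C'' ∧ ∀ {N : ℕ} {T : TI k N Q A C}
    (B : Tb T C'), Λ₀ ≤ T.Λ →
    Continuous (fun s => T.DD fun v => B.k1 s v * B.chi1 v * ‖B.cx v - B.gm s‖ ^ 2) ∧
    ∫ s in {s | ‖B.ax s‖ ≤ 1 / 4}, T.DD (fun v => B.k1 s v * B.chi1 v * ‖B.cx v - B.gm s‖ ^ 2) ≤
      C'' * T.eps * T.rb ^ 2 * T.M := by
  obtain ⟨C₁, Λ₁, hC₁, hcore⟩ := core k Q A C C'
  obtain ⟨C₂, C₀, hC₂, hC₀, hmass⟩ := Flat.mass_cmp (k + 2) (by omega) Q A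
  have c0 := one_div_pos.2 (cg_pos k)
  obtain ⟨K, hK⟩ : ∃ K, K = (2 + 2 * C₁ ^ 4) * (4 / 3 * ((2 + C₂ * C' + C') * (1 / cg k) + 80 +
    4 * C * 3 ^ (k + 2) * (1 / cg k) * C₁)) + 8 * C₁ ^ 3 := ⟨_, rfl⟩
  have K0 : 0 ≤ C → 0 ≤ C' → 0 ≤ K := fun h1 h2 => by
    rw [hK]
    positivity
  refine ⟨max 1 (K * (2 ^ k * (5 + 4 * C'))), max (max (max Λ₁ C₀) (10 + C'))
    (max (2 * C₁ * (1 + C') * (1 + 1 / cg k)) ((1 + 1 / cg k) ^ 2)), le_max_left _ _,
    fun {N T} B hΛ => ?_⟩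
  simp only [max_le_iff] at hΛ
  obtain ⟨⟨⟨l1, l2⟩, l3⟩, l4, l5⟩ := hΛ
  obtain ⟨k1, k2, -, k4⟩ := hcore B l1
  obtain ⟨-, n2, n3, n4, n5, n6, n7, n8, n9⟩ := TubeE_num T
  obtain ⟨u1, u2, u3, u4, u5, -, -, u8⟩ := TubeE_num2 T
  obtain ⟨w1, w2, w3⟩ := TubeE_alg3 hC₁ B.C_ge c0 n7 (mul_pos n8 n7) u1 u2 u3 u4 l4 l5
  have hL : (10 + C') / T.ra ≤ T.L := (div_le_div_of_nonneg_right l3 n2.le).trans u5
  have hδ : C₀ * T.τ ≤ T.rp := (mul_le_mul_of_nonneg_right (l2.trans u8) T.τ_pos.le).trans n9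
  have hδ' : C₀ * T.τ ≤ 1 / 10 := by linarith only [hδ, n2, n3, n4, n5, n6]
  refine ⟨B.TubeE_contR k2.continuous, ?_⟩
  have fin := B.TubeE_total
    (R := fun s => T.DD fun v => B.TubeE_W s v * ‖B.cx v - B.gm s‖ ^ 2)
    (fun s => T.toFlat.DD_nonneg fun v => mul_nonneg (B.TubeE_W_bd s v).2.2.2.2.1 (sq_nonneg _))
    (mul_nonneg (K0 (zero_le_one.trans T.C_ge) (zero_le_one.trans B.C_ge)) (sq_nonneg T.rb))
    fun s hs => by
      obtain ⟨c1, c2, -⟩ := k4 s (hs.trans (by norm_num))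
      rw [hK]
      exact B.TubeE_loc (by linarith only [l3]) hL hs hC₁ hC₂ k1 c1 c2 w1 w2 w3 hδ
        fun f M Z => hmass T.toFlat f M Z hδ'
  refine fin.trans ?_
  have a1 := mul_le_mul_of_nonneg_right (le_max_right 1 (K * (2 ^ k * (5 + 4 * C'))))
    (mul_nonneg (sq_nonneg T.rb) (mul_pos n7 T.M_pos).le)
  linarith only [a1]

end Tb

end Pool.Agent.MP_f6c0e6_an.Gen

end

section

/-! The identity of the tube: the vector field and its derivative. -/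

set_option autoImplicit false

open MeasureTheory Filter Topology Set Metric
open scoped ENNReal RealInnerProductSpace

namespace Pool.Agent.MP_f6c0e6_an.Gen

variable {m N : ℕ}

section conv

variable {F : Type} [NormedAddCommGroup F] [NormedSpace ℝ F]

/-- the convolution with the mollifier -/
noncomputable def TubeF_cv (r : ℝ) (h : E m → F) (w : E m) : F := ∫ s, rho r (s - w) • h s

theorem TubeF_rc (r : ℝ) (w : E m) : ContDiff ℝ 1 fun s : E m => rho r (s - w) :=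
  ((contDiff_rho r).of_le (by norm_num)).comp (contDiff_id.sub contDiff_const)

theorem TubeF_ri {r : ℝ} (hr : 0 < r) {g : E m → F} (hg : Continuous g) (w : E m) :
    Integrable fun s => rho r (s - w) • g s :=
  Conv_ismul (TubeF_rc r w).continuous (Conv_shift (Conv_rho hr) w) hg

theorem TubeF_cv_bd {r : ℝ} (hr : 0 < r) {g : E m → F} {a : ℝ} (h : ∀ s, ‖g s‖ ≤ a) (w : E m) :
    ‖TubeF_cv r g w‖ ≤ a := by
  have h1 : Integrable fun s : E m => rho r (s - w) • a := TubeF_ri hr continuous_const w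
  refine (norm_integral_le_of_norm_le h1 (Eventually.of_forall fun s => ?_)).trans_eq ?_
  · rw [norm_smul, Real.norm_of_nonneg (rho_nonneg hr _), smul_eq_mul]
    exact mul_le_mul_of_nonneg_left (h s) (rho_nonneg hr _)
  · rw [integral_smul_const, integral_rho hr, one_smul]

theorem TubeF_cv_zero {r : ℝ} (hr : 0 < r) {g : E m → F} {w : E m}
    (h : ∀ s, ‖s - w‖ < r → g s = 0) : TubeF_cv r g w = 0 := by
  have h1 : (fun s => rho r (s - w) • g s) = fun _ => 0 := by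
    funext s
    by_cases hs : ‖s - w‖ < r
    · rw [h s hs, smul_zero]
    · rw [rho_eq_zero hr (not_lt.1 hs), zero_smul]
  rw [TubeF_cv, h1, integral_zero]

theorem TubeF_cv_der [CompleteSpace F] {r : ℝ} (hr : 0 < r) {h : E m → F} (hh : ContDiff ℝ 1 h)
    (hc : HasCompactSupport h) : ContDiff ℝ 1 (TubeF_cv r h) ∧
      ∀ w u, fderiv ℝ (TubeF_cv r h) w u = TubeF_cv r (fun s => fderiv ℝ h s u) w := by
  obtain ⟨C, -, hC⟩ := rho_bd m
  have hb := (hC r hr 0).1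
  simp only [sub_zero] at hb
  have h1 := conv_meas1 (volume : Measure (E m)) (ζ := fun s => s) measurable_id
    (hh.continuous.integrable_of_hasCompactSupport hc)
    ((contDiff_rho r).of_le (by norm_num)) (fun x => hb.b0 x) (fun x => hb.b1 x)
  refine ⟨h1.1, fun w u => ?_⟩
  have h2 := integral_parts (TubeF_rc r w) (Conv_shift (Conv_rho hr) w) hh u
  have h3 : ∀ s : E m, fderiv ℝ (fun s : E m => rho r (s - w)) s = fderiv ℝ (rho r) (s - w) :=
    fun s => fderiv_comp_sub w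
  simp only [h3] at h2
  exact (h1.2 w u).trans (by rw [h2, neg_neg]; rfl)

end conv

/-- the stress as an inner product -/
noncomputable def Flat.TubeF_a {Q : ℕ} {A : ℝ} (F : Flat m N Q A) (y : E N) (u : E m) : E m :=
  FlatA_L F.ι (fun l => F.fr.s l y) u

theorem Flat.TubeF_NN {Q : ℕ} {A : ℝ} (F : Flat m N Q A) (y : E N) (u v : E m) :
    F.NN y u v = ⟪F.TubeF_a y u, v⟫ := by
  rw [Flat.NN, NF_symm, FlatA_NF, real_inner_comm]
  rfl

theorem Flat.TubeF_bd {Q : ℕ} {A : ℝ} (F : Flat m N Q A) (y : E N) (u v : E m) :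
    0 ≤ F.NN y u u ∧ F.NN y u u ≤ F.d y * ‖u‖ ^ 2 ∧ F.NN y u v ^ 2 ≤ F.NN y u u * F.NN y v v ∧
      |F.NN y u v| ≤ F.d y * ‖u‖ * ‖v‖ ∧ F.NN y u v = F.NN y v u :=
  have h := NF_bd F.ι (F.fr.orth y) u v
  ⟨h.1, h.2.1, h.2.2.1, h.2.2.2.1, NF_symm _ _ _ _⟩

namespace Tb

variable {k Q : ℕ} {A C C' : ℝ} {T : TI k N Q A C} (B : Tb T C')

/-- what is used about the centre of the core -/
structure TubeF_H : Prop where
  hΛ : C' ≤ T.Λ
  c1 : ContDiff ℝ 1 B.gm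
  pr0 : ∀ s, pr B.S.iw (B.gm s) = 0
  b0 : ∀ s, ‖B.ax s‖ ≤ 3 / 5 → ‖B.gm s‖ ≤ T.sm
  b1 : ∀ s, ‖B.ax s‖ ≤ 3 / 5 → ‖fderiv ℝ B.gm s‖ ≤ T.sm

/-- the weight on the axis -/
noncomputable def TubeF_c (s : E k) : ℝ := T.ch (B.ax s) ^ 2

/-- the weighted centre -/
noncomputable def TubeF_h (s : E k) : E (k + 2) := B.TubeF_c s • B.gm s

theorem TubeF_ax (s s' : E k) : ‖B.ax s - B.ax s'‖ = ‖s - s'‖ ∧ ‖s‖ ≤ ‖B.ax s‖ + 51 / 100 := by
  constructor
  · rw [Tb.ax, Tb.ax, add_sub_add_left_eq_sub, ← map_sub, LinearIsometry.norm_map]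
  · have h1 : B.S.iw s = B.ax s - B.o := by rw [Tb.ax, add_sub_cancel_left]
    have h2 := norm_sub_le (B.ax s) B.o
    rw [← h1, LinearIsometry.norm_map] at h2
    linarith only [h2, B.o_le]

theorem TubeF_axd (s : E k) : HasFDerivAt B.ax B.S.iw.toContinuousLinearMap s :=
  B.S.iw.toContinuousLinearMap.hasFDerivAt.const_add B.o

theorem TubeF_axc : ContDiff ℝ 1 B.ax :=
  contDiff_const.add B.S.iw.toContinuousLinearMap.contDiff

theorem TubeF_ch {v : E (k + 2)} (hv : 1 / 4 ≤ ‖v‖) : T.ch v = 0 := by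
  by_contra h
  have h1 := T.ch_test.supp (subset_tsupport _ h)
  rw [mem_ball_zero_iff] at h1
  linarith only [hv, h1]

theorem TubeF_c_all : ContDiff ℝ 1 B.TubeF_c ∧ HasCompactSupport B.TubeF_c ∧
    ∀ s, 0 ≤ B.TubeF_c s ∧ B.TubeF_c s ≤ 1 ∧ (∀ u, |fderiv ℝ B.TubeF_c s u| ≤ 2 * C * ‖u‖) ∧
      (1 / 4 ≤ ‖B.ax s‖ → B.TubeF_c s = 0 ∧ ∀ u, fderiv ℝ B.TubeF_c s u = 0) := by
  have h0 : ∀ s, 1 / 4 ≤ ‖B.ax s‖ → B.TubeF_c s = 0 := fun s hs => by
    rw [TubeF_c, TubeF_ch hs]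
    norm_num
  have hd : ∀ s u, fderiv ℝ B.TubeF_c s u =
      2 * T.ch (B.ax s) * fderiv ℝ T.ch (B.ax s) (B.S.iw u) := fun s u => by
    have h1 := ((T.ch_test.smooth.differentiable (by norm_num) (B.ax s)).hasFDerivAt.comp s
      (B.TubeF_axd s)).pow 2
    have h2 : fderiv ℝ B.TubeF_c s = _ := h1.fderiv
    rw [h2]
    simp
  refine ⟨(T.ch_test.smooth.comp B.TubeF_axc).pow 2, ?_, fun s => ⟨sq_nonneg _, ?_, fun u => ?_,
    fun hs => ⟨h0 s hs, fun u => ?_⟩⟩⟩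
  · refine HasCompactSupport.intro (isCompact_closedBall 0 1) fun s hs => h0 s ?_
    rw [mem_closedBall_zero_iff, not_le] at hs
    linarith only [hs, (B.TubeF_ax s s).2]
  · exact pow_le_one₀ (T.ch_bd _).1 (T.ch_bd _).2.1
  · have h1 := T.ch_bd (B.ax s)
    have h2 : |fderiv ℝ T.ch (B.ax s) (B.S.iw u)| ≤ C * ‖u‖ := by
      have h3 := (fderiv ℝ T.ch (B.ax s)).le_opNorm (B.S.iw u)
      rw [LinearIsometry.norm_map] at h3
      exact h3.trans (mul_le_mul_of_nonneg_right h1.2.2 (norm_nonneg _))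
    rw [hd, abs_mul, abs_of_nonneg (by linarith [h1.1] : 0 ≤ 2 * T.ch (B.ax s))]
    calc 2 * T.ch (B.ax s) * |fderiv ℝ T.ch (B.ax s) (B.S.iw u)| ≤ 2 * 1 * (C * ‖u‖) :=
          mul_le_mul (by linarith [h1.2.1]) h2 (abs_nonneg _) (by norm_num)
      _ = 2 * C * ‖u‖ := by ring
  · rw [hd, TubeF_ch hs]
    ring

theorem TubeF_h_all (H : B.TubeF_H) : ContDiff ℝ 1 B.TubeF_h ∧ HasCompactSupport B.TubeF_h ∧
    ∀ s, (∀ u, fderiv ℝ B.TubeF_h s u =
        fderiv ℝ B.TubeF_c s u • B.gm s + B.TubeF_c s • fderiv ℝ B.gm s u) ∧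
      ‖B.TubeF_h s‖ ≤ T.sm ∧ (∀ u, ‖fderiv ℝ B.TubeF_h s u‖ ≤ (2 * C + 1) * T.sm * ‖u‖) ∧
      (1 / 4 ≤ ‖B.ax s‖ → B.TubeF_h s = 0 ∧ ∀ u, fderiv ℝ B.TubeF_h s u = 0) ∧
      pr B.S.iw (B.TubeF_h s) = 0 := by
  obtain ⟨c1, c2, c3⟩ := B.TubeF_c_all
  have hsm : 0 < T.sm := T.num.2.2.1
  have hC := T.C_ge
  have hd : ∀ s u, fderiv ℝ B.TubeF_h s u =
      fderiv ℝ B.TubeF_c s u • B.gm s + B.TubeF_c s • fderiv ℝ B.gm s u := fun s u => by
    have h1 := (c1.differentiable (by norm_num) s).hasFDerivAt.smul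
      (H.c1.differentiable (by norm_num) s).hasFDerivAt
    have h2 : fderiv ℝ B.TubeF_h s = _ := h1.fderiv
    rw [h2]
    exact add_comm _ _
  have hz : ∀ s, 1 / 4 ≤ ‖B.ax s‖ → B.TubeF_h s = 0 ∧ ∀ u, fderiv ℝ B.TubeF_h s u = 0 :=
    fun s hs => by
      obtain ⟨h1, h2⟩ := (c3 s).2.2.2 hs
      refine ⟨by rw [TubeF_h, h1, zero_smul], fun u => ?_⟩
      rw [hd, h1, h2, zero_smul, zero_smul, add_zero]
  refine ⟨c1.smul H.c1, c2.smul_right, fun s => ⟨hd s, ?_, fun u => ?_, hz s, ?_⟩⟩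
  · by_cases hs : 1 / 4 ≤ ‖B.ax s‖
    · rw [(hz s hs).1, norm_zero]
      exact hsm.le
    · rw [TubeF_h, norm_smul, Real.norm_of_nonneg (c3 s).1]
      exact (mul_le_of_le_one_left (norm_nonneg _) (c3 s).2.1).trans (H.b0 s (by linarith only [hs]))
  · by_cases hs : 1 / 4 ≤ ‖B.ax s‖
    · rw [(hz s hs).2, norm_zero]
      positivity
    · have h1 := H.b0 s (by linarith only [hs])
      have h2 : ‖fderiv ℝ B.gm s u‖ ≤ T.sm * ‖u‖ :=
        ((fderiv ℝ B.gm s).le_opNorm u).trans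
          (mul_le_mul_of_nonneg_right (H.b1 s (by linarith only [hs])) (norm_nonneg _))
      rw [hd]
      refine (norm_add_le _ _).trans ?_
      rw [norm_smul, norm_smul, Real.norm_eq_abs, Real.norm_of_nonneg (c3 s).1]
      calc |fderiv ℝ B.TubeF_c s u| * ‖B.gm s‖ + B.TubeF_c s * ‖fderiv ℝ B.gm s u‖
          ≤ 2 * C * ‖u‖ * T.sm + T.sm * ‖u‖ :=
            add_le_add (mul_le_mul ((c3 s).2.2.1 u) h1 (norm_nonneg _) (by positivity))
              ((mul_le_of_le_one_left (norm_nonneg _) (c3 s).2.1).trans h2)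
        _ = (2 * C + 1) * T.sm * ‖u‖ := by ring
  · rw [TubeF_h, map_smul, H.pr0, smul_zero]

/-- the smoothed weight as a function on the axis -/
noncomputable def TubeF_c0 : E k → ℝ := TubeF_cv T.rb B.TubeF_c

/-- the smoothed centre as a function on the axis -/
noncomputable def TubeF_g0 : E k → E (k + 2) := TubeF_cv T.rb B.TubeF_h

theorem TubeF_k1 (s : E k) (v : E (k + 2)) : B.k1 s v = rho T.rb (s - B.wx v) := by
  rw [Tb.k1, ← rho_neg, neg_sub]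

theorem TubeF_cw (v : E (k + 2)) : B.cw v = B.TubeF_c0 (B.wx v) := by
  simp only [Tb.cw, TubeF_c0, TubeF_cv, TubeF_k1, smul_eq_mul, TubeF_c, mul_comm]

theorem TubeF_rb : 0 < T.rb ∧ 0 < T.ra ∧ T.ra ≤ T.rb ∧ T.rb ≤ 1 / 100 := by
  obtain ⟨-, -, -, -, -, h1, -, -, h2, h3, h4, -⟩ := T.num
  refine ⟨by linarith, by linarith, by linarith, h2.trans (by norm_num)⟩

theorem TubeF_far {s w : E k} (hw : 1 / 4 + T.rb ≤ ‖B.ax w‖) (hs : ‖s - w‖ < T.rb) :
    1 / 4 ≤ ‖B.ax s‖ := by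
  have h1 := (B.TubeF_ax s w).1
  have h2 := norm_sub_norm_le (B.ax w) (B.ax s)
  rw [norm_sub_rev] at h2
  linarith

theorem TubeF_c0_all : ContDiff ℝ 1 B.TubeF_c0 ∧ ∀ w u,
    fderiv ℝ B.TubeF_c0 w u = TubeF_cv T.rb (fun s => fderiv ℝ B.TubeF_c s u) w ∧
    |fderiv ℝ B.TubeF_c0 w u| ≤ 2 * C * ‖u‖ ∧
    (1 / 4 + T.rb ≤ ‖B.ax w‖ → fderiv ℝ B.TubeF_c0 w u = 0) := by
  obtain ⟨c1, c2, c3⟩ := B.TubeF_c_all
  have hr := (TubeF_rb (T := T)).1
  obtain ⟨d1, d2⟩ := TubeF_cv_der hr c1 c2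
  refine ⟨d1, fun w u => ⟨d2 w u, ?_, fun hw => ?_⟩⟩
  · rw [TubeF_c0, d2]
    exact TubeF_cv_bd (g := fun s => fderiv ℝ B.TubeF_c s u) hr (fun s => (c3 s).2.2.1 u) w
  · rw [TubeF_c0, d2]
    exact TubeF_cv_zero hr fun s hs => ((c3 s).2.2.2 (B.TubeF_far hw hs)).2 u

theorem TubeF_g0_all (H : B.TubeF_H) : ContDiff ℝ 1 B.TubeF_g0 ∧ ∀ w u,
    fderiv ℝ B.TubeF_g0 w u = TubeF_cv T.rb (fun s => fderiv ℝ B.TubeF_h s u) w ∧
    ‖B.TubeF_g0 w‖ ≤ T.sm ∧ ‖fderiv ℝ B.TubeF_g0 w u‖ ≤ (2 * C + 1) * T.sm * ‖u‖ ∧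
    (1 / 4 + T.rb ≤ ‖B.ax w‖ → B.TubeF_g0 w = 0 ∧ fderiv ℝ B.TubeF_g0 w u = 0) ∧
    pr B.S.iw (fderiv ℝ B.TubeF_g0 w u) = 0 := by
  obtain ⟨c1, c2, c3⟩ := B.TubeF_h_all H
  have hr := (TubeF_rb (T := T)).1
  obtain ⟨d1, d2⟩ := TubeF_cv_der hr c1 c2
  have hp : ∀ w, pr B.S.iw (B.TubeF_g0 w) = 0 := fun w => by
    rw [TubeF_g0, TubeF_cv, ← ContinuousLinearMap.integral_comp_comm _
      (TubeF_ri hr c1.continuous w)]
    simp only [map_smul, (c3 _).2.2.2.2, smul_zero, integral_zero]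
  refine ⟨d1, fun w u => ⟨d2 w u, TubeF_cv_bd hr (fun s => (c3 s).2.1) w, ?_, fun hw => ⟨?_, ?_⟩,
    ?_⟩⟩
  · rw [TubeF_g0, d2]
    exact TubeF_cv_bd (g := fun s => fderiv ℝ B.TubeF_h s u) hr (fun s => (c3 s).2.2.1 u) w
  · exact TubeF_cv_zero hr fun s hs => ((c3 s).2.2.2.1 (B.TubeF_far hw hs)).1
  · rw [TubeF_g0, d2]
    exact TubeF_cv_zero hr fun s hs => ((c3 s).2.2.2.1 (B.TubeF_far hw hs)).2 u
  · have h1 := ((pr B.S.iw).hasFDerivAt.comp w
      (d1.differentiable (by norm_num) w).hasFDerivAt).fderiv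
    have h2 : (pr B.S.iw : E (k + 2) → E k) ∘ TubeF_cv T.rb B.TubeF_h = fun _ => 0 :=
      funext fun w => hp w
    rw [h2, fderiv_const_apply] at h1
    exact (congrArg (fun L : E k →L[ℝ] E k => L u) h1).symm

/-- the field before the radial cut-off -/
noncomputable def TubeF_V (v : E (k + 2)) : E (k + 2) :=
  B.TubeF_c0 (B.wx v) • B.cx v - B.TubeF_g0 (B.wx v)

/-- its derivative along the axis -/
noncomputable def TubeF_p (u : E k) (v : E (k + 2)) : E (k + 2) :=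
  fderiv ℝ B.TubeF_c0 (B.wx v) u • B.cx v - fderiv ℝ B.TubeF_g0 (B.wx v) u

/-- the gradient of `chi` -/
noncomputable def TubeF_g (v : E (k + 2)) : E (k + 2) :=
  (2 * deriv B.χ (‖B.cx v‖ ^ 2)) • B.cx v

/-- the test field -/
noncomputable def TubeF_xi (v : E (k + 2)) : E (k + 2) := B.chi v • B.TubeF_V v

theorem TubeF_V_all (H : B.TubeF_H) : ContDiff ℝ 1 B.TubeF_V ∧ ∀ v u,
    fderiv ℝ B.TubeF_V v u = B.TubeF_p (pr B.S.iw u) v + B.cw v • vt B.S.iw u := by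
  have c1 := B.TubeF_c0_all.1
  have c2 := (B.TubeF_g0_all H).1
  have c3 := ((B.calc_coord 0).2.2 1).1
  have c4 := ((B.calc_coord 0).2.2 1).2
  refine ⟨((c1.comp c4).smul c3).sub (c2.comp c4), fun v u => ?_⟩
  have h1 := ((((c1.differentiable (by norm_num) _).hasFDerivAt.comp v
    (B.calc_coord v).2.1).smul (B.calc_coord v).1).sub
    ((c2.differentiable (by norm_num) _).hasFDerivAt.comp v (B.calc_coord v).2.1)).fderiv
  have h2 : fderiv ℝ B.TubeF_V v = _ := h1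
  rw [h2, TubeF_p, TubeF_cw]
  simp only [sub_apply, add_apply, smul_apply, ContinuousLinearMap.comp_apply,
    ContinuousLinearMap.smulRight_apply, Function.comp_apply, vtL_apply]
  abel

theorem TubeF_xi_der (H : B.TubeF_H) : ContDiff ℝ 1 B.TubeF_xi ∧ ∀ v u,
    fderiv ℝ B.TubeF_xi v u = ⟪B.TubeF_g v, u⟫ • B.TubeF_V v +
      B.chi v • (B.TubeF_p (pr B.S.iw u) v + B.cw v • vt B.S.iw u) := by
  obtain ⟨c1, c2⟩ := B.TubeF_V_all H
  have W := B.weights H.hΛ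
  have c3 : ContDiff ℝ 1 B.chi := W.1.of_le (by norm_num)
  refine ⟨c3.smul c1, fun v u => ?_⟩
  have h1 := ((c3.differentiable (by norm_num) v).hasFDerivAt.smul
    (c1.differentiable (by norm_num) v).hasFDerivAt).fderiv
  have h2 : fderiv ℝ B.TubeF_xi v = _ := h1
  have h3 := (W.2.2.2.2.2.2.1 v).2.2.2.2.2.2.2.2.2.2.2.2.2.2 u
  rw [h2, ← c2, TubeF_g, real_inner_smul_left, ← h3]
  exact add_comm _ _

theorem TubeF_ic (j : Fin 2) : pr B.S.iw (B.S.ic (ev j)) = 0 ∧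
    vt B.S.iw (B.S.ic (ev j)) = B.S.ic (ev j) ∧ ⟪B.S.ic (ev j), B.S.ic (ev j)⟫ = 1 := by
  have h : pr B.S.iw (B.S.ic (ev j)) = 0 := by
    refine ext_inner_left ℝ fun u => ?_
    rw [← inner_iota, B.S.orth, inner_zero_right]
  refine ⟨h, vt_of_pr _ h, ?_⟩
  rw [real_inner_self_eq_norm_sq, LinearIsometry.norm_map, norm_ev, one_pow]

theorem TubeF_p0 (v : E (k + 2)) : B.TubeF_p 0 v = 0 := by
  rw [TubeF_p, map_zero, map_zero, zero_smul, sub_zero]

theorem TubeF_gsum (v a : E (k + 2)) {b : Fin 2 → ℝ} (hb : ∀ j, b j = ⟪B.S.ic (ev j), a⟫) :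
    ∑ j, ⟪B.TubeF_g v, B.S.ic (ev j)⟫ * b j = ⟪B.TubeF_g v, a⟫ := by
  have h := (B.coord v v 0).2.2.2.2.2
  simp only [hb, TubeF_g, real_inner_smul_left, mul_assoc, ← Finset.mul_sum]
  congr 2
  conv_rhs => rw [h, sum_inner]
  exact Finset.sum_congr rfl fun j _ => by rw [real_inner_smul_left, real_inner_comm]

theorem TubeF_trace (H : B.TubeF_H) (v : E (k + 2)) (y : E N) :
    dv B.TubeF_xi v = ⟪B.TubeF_g v, B.TubeF_V v⟫ + 2 * (B.chi v * B.cw v) ∧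
    T.ND y (fderiv ℝ B.TubeF_xi v) = T.NN y (B.TubeF_g v) (B.TubeF_V v) +
      B.chi v * (B.cw v * (T.d y - B.Nw y) +
        ∑ i, T.NN y (B.S.iw (ev i)) (B.TubeF_p (ev i) v)) := by
  have hd := (B.TubeF_xi_der H).2 v
  obtain ⟨t1, t2, t3⟩ := B.trace_split (fderiv ℝ B.TubeF_xi v) y
  have hx := (B.coord v v 0).2.2.2.2.1
  have e1 : ∀ u, fderiv ℝ B.TubeF_xi v (B.S.iw u) = B.chi v • B.TubeF_p u v := fun u => by
    rw [hd, pr_iota, vt_iota, smul_zero, add_zero, real_inner_comm, inner_iota, TubeF_g, map_smul,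
      hx, smul_zero, inner_zero_right, zero_smul, zero_add]
  have e2 : ∀ j, fderiv ℝ B.TubeF_xi v (B.S.ic (ev j)) =
      ⟪B.TubeF_g v, B.S.ic (ev j)⟫ • B.TubeF_V v + (B.chi v * B.cw v) • B.S.ic (ev j) := fun j => by
    rw [hd, (B.TubeF_ic j).1, (B.TubeF_ic j).2.1, TubeF_p0, zero_add, smul_smul]
  have e3 : ∀ u u', ⟪B.S.iw u, B.TubeF_p u' v⟫ = 0 := fun u u' => by
    rw [inner_iota, TubeF_p, map_sub, map_smul, hx, ((B.TubeF_g0_all H).2 _ _).2.2.2.2, smul_zero,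
      sub_zero, inner_zero_right]
  constructor
  · rw [dv, t1]
    simp only [e1, e2, real_inner_smul_right, e3, mul_zero, Finset.sum_const_zero, zero_add,
      inner_add_right, (B.TubeF_ic _).2.2, Finset.sum_add_distrib]
    rw [B.TubeF_gsum v (B.TubeF_V v) fun j => rfl]
    simp
  · have e4 : ∑ j, T.NN y (B.S.ic (ev j)) (B.S.ic (ev j)) = T.d y - B.Nw y := by linarith
    have e5 : ∀ j, T.NN y (B.S.ic (ev j)) (fderiv ℝ B.TubeF_xi v (B.S.ic (ev j))) =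
        ⟪B.TubeF_g v, B.S.ic (ev j)⟫ * ⟪B.S.ic (ev j), T.TubeF_a y (B.TubeF_V v)⟫ +
          B.chi v * B.cw v * T.NN y (B.S.ic (ev j)) (B.S.ic (ev j)) := fun j => by
      rw [e2, T.TubeF_NN, inner_add_right, real_inner_smul_right, real_inner_smul_right,
        ← T.TubeF_NN, ← T.TubeF_NN, (T.TubeF_bd y _ (B.TubeF_V v)).2.2.2.2,
        T.TubeF_NN y (B.TubeF_V v), real_inner_comm (T.TubeF_a y (B.TubeF_V v))]
    have e6 : ∀ i, T.NN y (B.S.iw (ev i)) (fderiv ℝ B.TubeF_xi v (B.S.iw (ev i))) =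
        B.chi v * T.NN y (B.S.iw (ev i)) (B.TubeF_p (ev i) v) := fun i => by
      rw [e1, T.TubeF_NN, real_inner_smul_right, ← T.TubeF_NN]
    rw [t2]
    simp only [e5, e6, Finset.sum_add_distrib, ← Finset.mul_sum]
    rw [B.TubeF_gsum v (T.TubeF_a y (B.TubeF_V v)) fun j => rfl, e4, real_inner_comm, ← T.TubeF_NN,
      (T.TubeF_bd y _ (B.TubeF_g v)).2.2.2.2]
    ring

end Tb

end Pool.Agent.MP_f6c0e6_an.Gen

end

section

/-! The identity of the tube: the part of the core. -/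

set_option autoImplicit false

open MeasureTheory Filter Topology Set Metric
open scoped ENNReal RealInnerProductSpace

namespace Pool.Agent.MP_f6c0e6_an.Gen

variable {m N : ℕ}

theorem TubeF_prod {Ω : Type} [MeasurableSpace Ω] (μ : Measure Ω) [IsFiniteMeasure μ]
    {G : E m × Ω → ℝ} (hG : Measurable G) {a : ℝ} (hb : ∀ q, |G q| ≤ a)
    (h0 : ∀ q, 1 < ‖q.1‖ → G q = 0) : Integrable G ((volume : Measure (E m)).prod μ) := by
  have h1 : Integrable ((closedBall (0 : E m) 1).indicator fun _ => a) :=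
    (integrableOn_const measure_closedBall_lt_top.ne).integrable_indicator measurableSet_closedBall
  have h2 := h1.mul_prod (integrable_const (μ := μ) (1 : ℝ))
  refine h2.mono' hG.aestronglyMeasurable (Eventually.of_forall fun q => ?_)
  by_cases hq : q.1 ∈ closedBall (0 : E m) 1
  · rw [indicator_of_mem hq, mul_one]
    exact hb q
  · rw [indicator_of_notMem hq, h0 q (by simpa using hq)]
    simp

theorem TubeF_amgm {a b t r : ℝ} (ha : 0 ≤ a) (hb : 0 ≤ b) (hr : 0 < r) (h : t ^ 2 ≤ a * b) :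
    2 * |t| ≤ r * a + b / r := by
  have h1 : (r * a + b / r) ^ 2 = (r * a - b / r) ^ 2 + 4 * (a * b) := by
    field_simp
    ring
  refine abs_le_of_sq_le_sq' ?_ (by positivity) |>.2
  rw [h1, mul_pow, sq_abs]
  linarith only [h, sq_nonneg (r * a - b / r)]

theorem Flat.TubeF_mNN {Q : ℕ} {A : ℝ} (F : Flat m N Q A) {X : Type} [MeasurableSpace X]
    {y : X → E N} {u v : X → E m} (hy : Measurable y) (hu : Measurable u) (hv : Measurable v) :
    Measurable fun q => F.NN (y q) (u q) (v q) := by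
  have ha : ∀ l, Measurable fun q => pr F.ι (F.fr.s l (y q)) := fun l =>
    (pr F.ι).continuous.measurable.comp ((F.fr.meas l).comp hy)
  exact (hu.inner hv).sub (Finset.measurable_sum _ fun l _ =>
    ((ha l).inner hu).mul ((ha l).inner hv))

namespace Tb

variable {k Q : ℕ} {A C C' : ℝ} {T : TI k N Q A C} (B : Tb T C')

/-- the localising weight -/
noncomputable def TubeF_kc (q : E k × E N) : ℝ := B.k1 q.1 (T.x q.2) * B.chi1 (T.x q.2)

/-- the support of the weight on the axis -/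
def TubeF_Z : Set (E k) := {s | ‖B.ax s‖ ≤ 1 / 4}

/-- the main term -/
noncomputable def TubeF_F1 (q : E k × E N) : ℝ := B.TubeF_c q.1 * (B.TubeF_kc q *
  (B.Nw q.2 + ∑ i, T.NN q.2 (B.S.iw (ev i)) (fderiv ℝ B.gm q.1 (ev i))))

/-- the second moment -/
noncomputable def TubeF_F2 (q : E k × E N) : ℝ := B.TubeF_Z.indicator 1 q.1 *
  (B.TubeF_kc q * ‖B.cx (T.x q.2) - B.gm q.1‖ ^ 2 * T.d q.2)

/-- the stress along the axis -/
noncomputable def TubeF_F3 (q : E k × E N) : ℝ := B.TubeF_Z.indicator 1 q.1 *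
  (B.TubeF_kc q * B.Nw q.2)

/-- the mixed term -/
noncomputable def TubeF_F4 (q : E k × E N) : ℝ := B.TubeF_kc q *
  ∑ i, fderiv ℝ B.TubeF_c q.1 (ev i) * T.NN q.2 (B.S.iw (ev i)) (B.cx (T.x q.2) - B.gm q.1)

/-- the part of the core -/
noncomputable def TubeF_core (y : E N) : ℝ := B.chi1 (T.x y) *
  (B.cw (T.x y) * B.Nw y - ∑ i, T.NN y (B.S.iw (ev i)) (B.TubeF_p (ev i) (T.x y)))

theorem TubeF_chi1 (v : E (k + 2)) : 0 ≤ B.chi1 v ∧ B.chi1 v ≤ 1 ∧
    (B.chi1 v ≠ 0 → ‖B.cx v‖ ≤ T.ra / 2) := by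
  refine ⟨(B.prof.bd₁ _).1, (B.prof.bd₁ _).2.1, fun h => ?_⟩
  by_contra h1
  have hr := (TubeF_rb (T := T)).2.1
  exact h (B.prof.zero₁ _ (pow_le_pow_left₀ (by linarith) (not_le.1 h1).le 2))

theorem TubeF_kc_all (H : B.TubeF_H) : Measurable B.TubeF_kc ∧
    ∀ q, 0 ≤ B.TubeF_kc q ∧ B.TubeF_kc q ≤ 1 / (cg k * T.rb ^ k) ∧
      B.TubeF_kc q ≤ rho T.rb (q.1 - B.wx (T.x q.2)) := by
  have hr := (TubeF_rb (T := T)).1
  have hx : Measurable fun q : E k × E N => T.x q.2 := T.measurable_all.1.comp measurable_snd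
  have hw := ((B.calc_coord 0).2.2 1).2.continuous.measurable
  refine ⟨?_, fun q => ?_⟩
  · exact ((contDiff_rho T.rb).continuous.measurable.comp ((hw.comp hx).sub measurable_fst)).mul
      ((B.weights H.hΛ).2.1.continuous.measurable.comp hx)
  · have h1 := B.TubeF_chi1 (T.x q.2)
    have h2 : B.TubeF_kc q ≤ rho T.rb (q.1 - B.wx (T.x q.2)) := by
      rw [TubeF_kc, TubeF_k1]
      exact mul_le_of_le_one_right (rho_nonneg hr _) h1.2.1
    exact ⟨mul_nonneg (rho_nonneg hr _) h1.1, h2.trans (rho_le hr _), h2⟩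

theorem TubeF_Zm : MeasurableSet B.TubeF_Z :=
  (isClosed_le B.TubeF_axc.continuous.norm continuous_const).measurableSet

theorem TubeF_out {s : E k} (hs : 1 < ‖s‖) : 1 / 4 < ‖B.ax s‖ := by
  linarith only [hs, (B.TubeF_ax s s).2]

theorem TubeF_i1 (H : B.TubeF_H) : Integrable B.TubeF_F1 ((volume : Measure (E k)).prod T.μ) := by
  obtain ⟨c1, -, c3⟩ := B.TubeF_c_all
  obtain ⟨k1, k2⟩ := B.TubeF_kc_all H
  have hsm : 0 < T.sm := T.num.2.2.1
  have hK : 0 ≤ 1 / (cg k * T.rb ^ k) := (k2 (0, 0)).1.trans (k2 (0, 0)).2.1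
  refine TubeF_prod T.μ (a := 1 * (1 / (cg k * T.rb ^ k) *
    ((k + 2 : ℕ) + k * ((k + 2 : ℕ) * T.sm)))) ?_ (fun q => ?_) fun q hq => ?_
  · exact (c1.continuous.measurable.comp measurable_fst).mul (k1.mul
      ((B.measurable_all.1.comp measurable_snd).add (Finset.measurable_sum _ fun i _ =>
        T.TubeF_mNN measurable_snd measurable_const
          ((Conv_cf H.c1 (ev i)).measurable.comp measurable_fst))))
  · by_cases hs : 1 / 4 ≤ ‖B.ax q.1‖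
    · rw [TubeF_F1, ((c3 _).2.2.2 hs).1, zero_mul, abs_zero]
      positivity
    · have hd := T.d_bd q.2
      have h1 : ∀ i : Fin k, |T.NN q.2 (B.S.iw (ev i)) (fderiv ℝ B.gm q.1 (ev i))| ≤
          (k + 2 : ℕ) * T.sm := fun i => by
        refine (T.TubeF_bd _ _ _).2.2.2.1.trans ?_
        have h2 := (fderiv ℝ B.gm q.1).le_opNorm (ev i)
        rw [norm_ev, mul_one] at h2
        rw [LinearIsometry.norm_map, norm_ev, mul_one]
        exact mul_le_mul hd.2 (h2.trans (H.b1 _ (by linarith only [hs]))) (norm_nonneg _) (by positivity)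
      have h2 : |∑ i, T.NN q.2 (B.S.iw (ev i)) (fderiv ℝ B.gm q.1 (ev i))| ≤
          k * ((k + 2 : ℕ) * T.sm) := by
        refine (Finset.abs_sum_le_sum_abs _ _).trans ((Finset.sum_le_sum fun i _ => h1 i).trans ?_)
        simp
      have h3 := B.Nw_bd q.2
      rw [TubeF_F1, abs_mul, abs_mul, abs_of_nonneg (c3 _).1, abs_of_nonneg (k2 q).1]
      refine mul_le_mul (c3 _).2.1 (mul_le_mul (k2 q).2.1 ((abs_add_le _ _).trans
        (add_le_add ?_ h2)) (abs_nonneg _) hK) (mul_nonneg (k2 q).1 (abs_nonneg _)) zero_le_one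
      rw [abs_of_nonneg h3.1]
      exact h3.2.1.trans hd.2
  · rw [TubeF_F1, ((c3 _).2.2.2 (B.TubeF_out hq).le).1, zero_mul]

theorem TubeF_i2 (H : B.TubeF_H) : Integrable B.TubeF_F2 ((volume : Measure (E k)).prod T.μ) := by
  obtain ⟨k1, k2⟩ := B.TubeF_kc_all H
  have hK : 0 ≤ 1 / (cg k * T.rb ^ k) := (k2 (0, 0)).1.trans (k2 (0, 0)).2.1
  have hx : Measurable fun q : E k × E N => T.x q.2 := T.measurable_all.1.comp measurable_snd
  have hc := ((B.calc_coord 0).2.2 1).1.continuous.measurable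
  refine TubeF_prod T.μ (a := 1 / (cg k * T.rb ^ k) * (T.ra / 2 + T.sm) ^ 2 * (k + 2 : ℕ))
    ?_ (fun q => ?_) fun q hq => ?_
  · exact ((measurable_one.indicator B.TubeF_Zm).comp measurable_fst).mul
      ((k1.mul (((hc.comp hx).sub (H.c1.continuous.measurable.comp measurable_fst)).norm.pow_const
        2)).mul (T.measurable_all.2.2.2.2.1.comp measurable_snd))
  · by_cases hs : q.1 ∈ B.TubeF_Z
    · by_cases h0 : B.chi1 (T.x q.2) = 0
      · rw [TubeF_F2, TubeF_kc, h0, mul_zero, zero_mul, zero_mul, mul_zero, abs_zero]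
        positivity
      · have hd := T.d_bd q.2
        have h1 : ‖B.cx (T.x q.2) - B.gm q.1‖ ≤ T.ra / 2 + T.sm :=
          (norm_sub_le _ _).trans (add_le_add ((B.TubeF_chi1 _).2.2 h0)
            (H.b0 _ (le_trans hs (by norm_num))))
        rw [TubeF_F2, indicator_of_mem hs, Pi.one_apply, one_mul,
          abs_of_nonneg (mul_nonneg (mul_nonneg (k2 q).1 (sq_nonneg _)) hd.1)]
        exact mul_le_mul (mul_le_mul (k2 q).2.1 (pow_le_pow_left₀ (norm_nonneg _) h1 2)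
          (sq_nonneg _) hK) hd.2 hd.1 (mul_nonneg hK (sq_nonneg _))
    · rw [TubeF_F2, indicator_of_notMem hs, zero_mul, abs_zero]
      positivity
  · have h1 : q.1 ∉ B.TubeF_Z := fun h => (B.TubeF_out hq).not_ge h
    rw [TubeF_F2, indicator_of_notMem h1, zero_mul]

theorem TubeF_i3 (H : B.TubeF_H) : Integrable B.TubeF_F3 ((volume : Measure (E k)).prod T.μ) := by
  obtain ⟨k1, k2⟩ := B.TubeF_kc_all H
  have hK : 0 ≤ 1 / (cg k * T.rb ^ k) := (k2 (0, 0)).1.trans (k2 (0, 0)).2.1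
  refine TubeF_prod T.μ (a := 1 / (cg k * T.rb ^ k) * (k + 2 : ℕ)) ?_ (fun q => ?_) fun q hq => ?_
  · exact ((measurable_one.indicator B.TubeF_Zm).comp measurable_fst).mul
      (k1.mul (B.measurable_all.1.comp measurable_snd))
  · by_cases hs : q.1 ∈ B.TubeF_Z
    · have h3 := B.Nw_bd q.2
      rw [TubeF_F3, indicator_of_mem hs, Pi.one_apply, one_mul,
        abs_of_nonneg (mul_nonneg (k2 q).1 h3.1)]
      exact mul_le_mul (k2 q).2.1 (h3.2.1.trans (T.d_bd _).2) h3.1 hK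
    · rw [TubeF_F3, indicator_of_notMem hs, zero_mul, abs_zero]
      positivity
  · have h1 : q.1 ∉ B.TubeF_Z := fun h => (B.TubeF_out hq).not_ge h
    rw [TubeF_F3, indicator_of_notMem h1, zero_mul]

theorem TubeF_F4_le (H : B.TubeF_H) (q : E k × E N) :
    |B.TubeF_F4 q| ≤ C * T.rb * B.TubeF_F3 q + C * k / T.rb * B.TubeF_F2 q := by
  obtain ⟨-, -, c3⟩ := B.TubeF_c_all
  have k2 := ((B.TubeF_kc_all H).2 q).1
  have hr := (TubeF_rb (T := T)).1
  have hC := T.C_ge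
  by_cases hs : q.1 ∈ B.TubeF_Z
  · set z := B.cx (T.x q.2) - B.gm q.1 with hz
    have h1 : ∀ i : Fin k, |fderiv ℝ B.TubeF_c q.1 (ev i) * T.NN q.2 (B.S.iw (ev i)) z| ≤
        C * (T.rb * T.NN q.2 (B.S.iw (ev i)) (B.S.iw (ev i)) + T.d q.2 * ‖z‖ ^ 2 / T.rb) :=
      fun i => by
        have h2 := T.TubeF_bd q.2 (B.S.iw (ev i)) z
        have h3 := T.TubeF_bd q.2 z z
        have h4 := TubeF_amgm h2.1 (h3.1.trans h3.2.1) hr
          (h2.2.2.1.trans (mul_le_mul_of_nonneg_left h3.2.1 h2.1))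
        have h5 := (c3 q.1).2.2.1 (ev i)
        rw [norm_ev, mul_one] at h5
        rw [abs_mul]
        calc _ ≤ 2 * C * |T.NN q.2 (B.S.iw (ev i)) z| :=
              mul_le_mul_of_nonneg_right h5 (abs_nonneg _)
          _ = C * (2 * |T.NN q.2 (B.S.iw (ev i)) z|) := by ring
          _ ≤ _ := mul_le_mul_of_nonneg_left h4 (by linarith)
    have h2 := (Finset.abs_sum_le_sum_abs _ _).trans
      (Finset.sum_le_sum (s := Finset.univ) fun i _ => h1 i)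
    rw [← Finset.mul_sum, Finset.sum_add_distrib, ← Finset.mul_sum, Finset.sum_const,
      Finset.card_univ, Fintype.card_fin, nsmul_eq_mul] at h2
    rw [TubeF_F4, TubeF_F3, TubeF_F2, indicator_of_mem hs, Pi.one_apply, one_mul, one_mul, abs_mul,
      abs_of_nonneg k2]
    refine (mul_le_mul_of_nonneg_left h2 k2).trans_eq ?_
    rw [Tb.Nw]
    ring
  · have h1 := ((c3 q.1).2.2.2 (not_le.1 hs).le).2
    simp only [TubeF_F4, TubeF_F3, TubeF_F2, indicator_of_notMem hs, h1, zero_mul,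
      Finset.sum_const_zero, mul_zero, abs_zero, add_zero, le_refl]

theorem TubeF_i4 (H : B.TubeF_H) : Integrable B.TubeF_F4 ((volume : Measure (E k)).prod T.μ) := by
  have hx : Measurable fun q : E k × E N => T.x q.2 := T.measurable_all.1.comp measurable_snd
  have hc := ((B.calc_coord 0).2.2 1).1.continuous.measurable
  refine (((B.TubeF_i3 H).const_mul (C * T.rb)).add
    ((B.TubeF_i2 H).const_mul (C * k / T.rb))).mono' (Measurable.aestronglyMeasurable ?_)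
    (Eventually.of_forall fun q => B.TubeF_F4_le H q)
  exact (B.TubeF_kc_all H).1.mul (Finset.measurable_sum _ fun i _ =>
    ((Conv_cf B.TubeF_c_all.1 (ev i)).measurable.comp measurable_fst).mul
      (T.TubeF_mNN measurable_snd measurable_const
        ((hc.comp hx).sub (H.c1.continuous.measurable.comp measurable_fst))))

theorem TubeF_p_eq (H : B.TubeF_H) (a v : E (k + 2)) (u : E k) :
    Integrable (fun s => rho T.rb (s - B.wx v) * (fderiv ℝ B.TubeF_c s u * ⟪a, B.cx v - B.gm s⟫ -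
      B.TubeF_c s * ⟪a, fderiv ℝ B.gm s u⟫)) ∧
    ⟪a, B.TubeF_p u v⟫ = ∫ s, rho T.rb (s - B.wx v) *
      (fderiv ℝ B.TubeF_c s u * ⟪a, B.cx v - B.gm s⟫ - B.TubeF_c s * ⟪a, fderiv ℝ B.gm s u⟫) := by
  have hr := (TubeF_rb (T := T)).1
  obtain ⟨c1, -, -⟩ := B.TubeF_c_all
  obtain ⟨g1, -, g3⟩ := B.TubeF_h_all H
  have i1 := TubeF_ri hr (Conv_cf c1 u) (B.wx v)
  have i2 := TubeF_ri hr (Conv_cf g1 u) (B.wx v)
  have e : ∀ s, rho T.rb (s - B.wx v) * (fderiv ℝ B.TubeF_c s u * ⟪a, B.cx v - B.gm s⟫ -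
      B.TubeF_c s * ⟪a, fderiv ℝ B.gm s u⟫) =
      (rho T.rb (s - B.wx v) • fderiv ℝ B.TubeF_c s u) * ⟪a, B.cx v⟫ -
        ⟪a, rho T.rb (s - B.wx v) • fderiv ℝ B.TubeF_h s u⟫ := fun s => by
    rw [(g3 s).1, real_inner_smul_right, inner_add_right, real_inner_smul_right,
      real_inner_smul_right, inner_sub_right, smul_eq_mul]
    ring
  simp only [e]
  refine ⟨(i1.mul_const _).sub (i2.const_inner a), ?_⟩
  rw [integral_sub (i1.mul_const _) (i2.const_inner a), integral_mul_const, integral_inner i2,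
    TubeF_p, inner_sub_right, real_inner_smul_right, (B.TubeF_c0_all.2 _ _).1,
    ((B.TubeF_g0_all H).2 _ _).1]
  rfl

theorem TubeF_core_eq (H : B.TubeF_H) (y : E N) :
    B.TubeF_core y = ∫ s, (B.TubeF_F1 (s, y) - B.TubeF_F4 (s, y)) := by
  have hr := (TubeF_rb (T := T)).1
  have i1 := (TubeF_ri hr B.TubeF_c_all.1.continuous (B.wx (T.x y))).mul_const (B.Nw y)
  have hp := fun i : Fin k => B.TubeF_p_eq H (T.TubeF_a y (B.S.iw (ev i))) (T.x y) (ev i)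
  rw [TubeF_core, TubeF_cw, TubeF_c0, TubeF_cv]
  simp only [T.TubeF_NN y, (hp _).2]
  rw [← integral_finsetSum _ fun i _ => (hp i).1, ← integral_mul_const,
    ← integral_sub i1 (integrable_finsetSum _ fun i _ => (hp i).1), ← integral_const_mul]
  refine integral_congr_ae (Eventually.of_forall fun s => ?_)
  simp only [TubeF_F1, TubeF_F4, TubeF_kc, TubeF_k1, T.TubeF_NN y, smul_eq_mul, ← Finset.mul_sum,
    Finset.sum_sub_distrib]
  ring

theorem TubeF_I1 (H : B.TubeF_H) (hc : ∀ s, ‖B.ax s‖ ≤ 3 / 5 →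
    -T.er ≤ ∫ y, B.k1 s (T.x y) * B.chi1 (T.x y) *
      (B.Nw y + ∑ i, T.NN y (B.S.iw (ev i)) (fderiv ℝ B.gm s (ev i))) ∂T.μ) :
    -(2 ^ k * T.er) ≤ ∫ q, B.TubeF_F1 q ∂(volume : Measure (E k)).prod T.μ := by
  obtain ⟨-, -, c3⟩ := B.TubeF_c_all
  have her : 0 < T.er := T.num.2.1
  have h1 : Integrable ((closedBall (0 : E k) 1).indicator fun _ => -T.er) :=
    (integrableOn_const measure_closedBall_lt_top.ne).integrable_indicator measurableSet_closedBall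
  rw [integral_prod _ (B.TubeF_i1 H)]
  refine le_trans ?_ (integral_mono h1 (B.TubeF_i1 H).integral_prod_left fun s => ?_)
  · rw [integral_indicator measurableSet_closedBall, setIntegral_const, smul_eq_mul, mul_neg,
      neg_le_neg_iff]
    exact mul_le_mul_of_nonneg_right Kern_vol her.le
  · simp only [TubeF_F1, TubeF_kc]
    rw [integral_const_mul]
    by_cases hs : 1 / 4 ≤ ‖B.ax s‖
    · rw [((c3 s).2.2.2 hs).1, zero_mul]
      exact indicator_nonpos (fun _ _ => by linarith) s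
    · have h2 : s ∈ closedBall (0 : E k) 1 := by
        rw [mem_closedBall_zero_iff]
        linarith [(B.TubeF_ax s s).2]
      have h3 := mul_le_mul_of_nonneg_left (hc s (by linarith only [hs])) (c3 s).1
      have h4 := mul_le_mul_of_nonneg_right (c3 s).2.1 her.le
      rw [indicator_of_mem h2]
      linarith

theorem TubeF_I2 (H : B.TubeF_H) : ∫ q, B.TubeF_F2 q ∂(volume : Measure (E k)).prod T.μ =
    ∫ s in B.TubeF_Z,
      T.DD (fun v => B.k1 s v * B.chi1 v * ‖B.cx v - B.gm s‖ ^ 2) := by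
  rw [integral_prod _ (B.TubeF_i2 H)]
  refine Eq.trans (integral_congr_ae (Eventually.of_forall fun s => ?_))
    (integral_indicator B.TubeF_Zm)
  simp only [TubeF_F2, TubeF_kc]
  rw [integral_const_mul]
  by_cases hs : s ∈ B.TubeF_Z
  · rw [indicator_of_mem hs, indicator_of_mem hs, Pi.one_apply, one_mul]
    rfl
  · rw [indicator_of_notMem hs, indicator_of_notMem hs, zero_mul]

theorem TubeF_nrm (v : E (k + 2)) : ‖v‖ ≤ ‖B.ax (B.wx v)‖ + ‖B.cx v‖ := by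
  conv_lhs => rw [← (B.coord v v 0).1]
  exact norm_add_le _ _

theorem TubeF_I3 (H : B.TubeF_H) :
    ∫ q, B.TubeF_F3 q ∂(volume : Measure (E k)).prod T.μ ≤ C' * T.eps * T.M := by
  obtain ⟨hr, hra, hab, hb⟩ := TubeF_rb (T := T)
  have hm : MeasurableSet (T.x ⁻¹' ball 0 1) := T.measurable_all.1 measurableSet_ball
  have h1 : Integrable B.Nw T.μ := T.integrable_d.mono' B.measurable_all.1.aestronglyMeasurable
    (Eventually.of_forall fun y => by
      rw [Real.norm_of_nonneg (B.Nw_bd y).1]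
      exact (B.Nw_bd y).2.1)
  rw [integral_prod_symm _ (B.TubeF_i3 H)]
  refine (integral_mono (B.TubeF_i3 H).integral_prod_right (h1.indicator hm) fun y => ?_).trans
    ((integral_indicator hm).trans_le B.nw)
  have hN := (B.Nw_bd y).1
  by_cases hy : y ∈ T.x ⁻¹' ball 0 1
  · rw [indicator_of_mem hy]
    have h2 : Integrable fun s : E k => rho T.rb (s - B.wx (T.x y)) • B.Nw y :=
      TubeF_ri hr continuous_const _
    refine (integral_mono_of_nonneg (Eventually.of_forall fun s => ?_) h2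
      (Eventually.of_forall fun s => ?_)).trans_eq ?_
    · exact mul_nonneg (indicator_nonneg (fun _ _ => zero_le_one) _)
        (mul_nonneg ((B.TubeF_kc_all H).2 _).1 hN)
    · have h3 := (B.TubeF_kc_all H).2 (s, y)
      exact (mul_le_of_le_one_left (mul_nonneg h3.1 hN)
        (indicator_le_self' (fun _ _ => zero_le_one) _)).trans
        (mul_le_mul_of_nonneg_right h3.2.2 hN)
    · rw [integral_smul_const, integral_rho hr, one_smul]
  · rw [indicator_of_notMem hy]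
    refine le_of_eq (integral_eq_zero_of_ae (Eventually.of_forall fun s => ?_))
    change B.TubeF_F3 (s, y) = 0
    by_contra h
    have h2 : s ∈ B.TubeF_Z := by
      by_contra h2
      exact h (by rw [TubeF_F3, indicator_of_notMem h2, zero_mul])
    have h3 : B.chi1 (T.x y) ≠ 0 := fun h3 =>
      h (by rw [TubeF_F3, TubeF_kc, h3, mul_zero, zero_mul, mul_zero])
    have h4 : ‖s - B.wx (T.x y)‖ < T.rb := by
      by_contra h4
      exact h (by
        rw [TubeF_F3, TubeF_kc, TubeF_k1, rho_eq_zero hr (not_lt.1 h4), zero_mul, zero_mul,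
          mul_zero])
    have h5 := (B.TubeF_chi1 _).2.2 h3
    have h6 := B.TubeF_nrm (T.x y)
    have h7 := norm_sub_norm_le (B.ax (B.wx (T.x y))) (B.ax s)
    rw [norm_sub_rev, (B.TubeF_ax _ _).1] at h7
    have h8 : ‖B.ax s‖ ≤ 1 / 4 := h2
    exact hy (mem_ball_zero_iff.2 (by linarith only [hr, hab, hb, h4, h5, h6, h7, h8]))

theorem TubeF_core_int (H : B.TubeF_H) (hc : ∀ s, ‖B.ax s‖ ≤ 3 / 5 →
    -T.er ≤ ∫ y, B.k1 s (T.x y) * B.chi1 (T.x y) *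
      (B.Nw y + ∑ i, T.NN y (B.S.iw (ev i)) (fderiv ℝ B.gm s (ev i))) ∂T.μ) {C₂ : ℝ}
    (hm : ∫ s in B.TubeF_Z,
      T.DD (fun v => B.k1 s v * B.chi1 v * ‖B.cx v - B.gm s‖ ^ 2) ≤ C₂ * T.eps * T.rb ^ 2 * T.M) :
    Integrable B.TubeF_core T.μ ∧
    -(2 ^ k * T.er + C * (C' + k * C₂) * (T.rb * (T.eps * T.M))) ≤ ∫ y, B.TubeF_core y ∂T.μ := by
  have hr := (TubeF_rb (T := T)).1
  have hC := T.C_ge
  have e : B.TubeF_core = fun y => ∫ s, (B.TubeF_F1 (s, y) - B.TubeF_F4 (s, y)) :=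
    funext (B.TubeF_core_eq H)
  have i14 : Integrable (fun q => B.TubeF_F1 q - B.TubeF_F4 q)
      ((volume : Measure (E k)).prod T.μ) := (B.TubeF_i1 H).sub (B.TubeF_i4 H)
  have j3 := (B.TubeF_i3 H).const_mul (C * T.rb)
  have j2 := (B.TubeF_i2 H).const_mul (C * k / T.rb)
  rw [e]
  refine ⟨i14.integral_prod_right, ?_⟩
  rw [← integral_prod_symm _ i14, integral_sub (B.TubeF_i1 H) (B.TubeF_i4 H)]
  have h1 := integral_mono (B.TubeF_i4 H) (j3.add j2) fun q =>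
    (le_abs_self _).trans (B.TubeF_F4_le H q)
  have h2 := integral_add j3 j2
  rw [integral_const_mul, integral_const_mul, B.TubeF_I2 H] at h2
  have h3 := mul_le_mul_of_nonneg_left (B.TubeF_I3 H) (by positivity : 0 ≤ C * T.rb)
  have h4 := mul_le_mul_of_nonneg_left hm (by positivity : 0 ≤ C * k / T.rb)
  have h5 : C * k / T.rb * (C₂ * T.eps * T.rb ^ 2 * T.M) =
      C * (k * C₂) * (T.rb * (T.eps * T.M)) := by
    field_simp
  have h6 := B.TubeF_I1 H hc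
  have h7 := h1.trans_eq h2
  nlinarith only [h3, h4, h5, h6, h7, h3, h4, h5, h6, h7]

end Tb

end Pool.Agent.MP_f6c0e6_an.Gen

end

section

/-! The identity of the tube. -/

set_option autoImplicit false

open MeasureTheory Filter Topology Set Metric
open scoped ENNReal RealInnerProductSpace

namespace Pool.Agent.MP_f6c0e6_an.Gen

variable {m N : ℕ}

theorem Flat.TubeF_int {Q : ℕ} {A : ℝ} (F : Flat m N Q A) {f : E N → ℝ} (hf : Measurable f) {t : ℝ}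
    (h : ∀ y, |f y| ≤ t * F.d y) : Integrable f F.μ :=
  (F.integrable_d.const_mul t).mono' hf.aestronglyMeasurable (Eventually.of_forall h)

theorem Flat.TubeF_small {Q : ℕ} {A : ℝ} (F : Flat m N Q A) {f : E N → ℝ} {t : ℝ}
    (h : ∀ y, |f y| ≤ t * F.d y) {Z : Set (E m)} (hZ : MeasurableSet Z)
    (h0 : ∀ y, F.x y ∉ Z → f y = 0) : |∫ y, f y ∂F.μ| ≤ t * F.DS Z := by
  have hm : MeasurableSet (F.x ⁻¹' Z) := F.measurable_all.1 hZ
  refine (norm_integral_le_of_norm_le (f := f) ((F.integrable_d.const_mul t).indicator hm)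
    (Eventually.of_forall fun y => ?_)).trans_eq ?_
  · by_cases hy : y ∈ F.x ⁻¹' Z
    · rw [indicator_of_mem hy]
      exact h y
    · rw [indicator_of_notMem hy, h0 y hy, norm_zero]
  · rw [integral_indicator hm, integral_const_mul]
    rfl

theorem TubeF_mul {a b s t : ℝ} (ha : |a| ≤ s) (hb : |b| ≤ t) : |a * b| ≤ s * t := by
  rw [abs_mul]
  exact mul_le_mul ha hb (abs_nonneg _) ((abs_nonneg _).trans ha)

theorem TI.TubeF_num {k Q : ℕ} {A C : ℝ} (T : TI k N Q A C) :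
    T.sm / T.ra ≤ T.rb ∧ T.sm ≤ T.rb ∧ T.rb * (T.eps * T.M) ≤ T.er := by
  have hΛ : 1 ≤ T.Λ := by linarith [T.Λ_ge]
  have h0 : 0 < T.Λ := by linarith
  have her : 0 < T.er := T.num.2.1
  have hk : 4 * (k + 4) ≤ (k + 4) ^ 2 := by
    rw [sq]
    exact Nat.mul_le_mul_right _ (by omega)
  refine ⟨?_, ?_, ?_⟩
  · rw [TI.sm, TI.ra, TI.rb, div_inv_eq_mul, inv_mul_le_iff₀ (by positivity),
      le_mul_inv_iff₀ (by positivity), ← pow_add]
    exact pow_le_pow_right₀ hΛ (by omega)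
  · exact inv_anti₀ (by positivity) (pow_le_pow_right₀ hΛ (by omega))
  · rw [T.num.2.2.2.2.2.2.2.2.2.2.2.2.2.2.2.2.1, TI.rb, inv_mul_le_iff₀ (by positivity)]
    exact mul_le_mul_of_nonneg_right (pow_le_pow_right₀ hΛ (by norm_num)) her.le

namespace Tb

section aux

variable {k Q : ℕ} {A C C' : ℝ} {T : TI k N Q A C} (B : Tb T C')

/-- the error of the weight in the shell -/
noncomputable def TubeF_f (v : E (k + 2)) : ℝ :=
  B.vth v * (B.cw v - B.chc v ^ 2) + ⟪B.TubeF_g v, B.TubeF_g0 (B.wx v)⟫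

/-- the error outside the core -/
noncomputable def TubeF_Err (y : E N) : ℝ :=
  -(B.TubeF_f (T.x y) * T.d y / 2) +
    B.vth (T.x y) * (B.cw (T.x y) - B.chc (T.x y) ^ 2) * B.Nr y +
    T.NN y (B.TubeF_g (T.x y)) (B.TubeF_g0 (B.wx (T.x y))) +
    (B.chi (T.x y) - B.chi1 (T.x y)) * ((B.cw (T.x y) - B.chc (T.x y) ^ 2) * B.Nw y -
      ∑ i, T.NN y (B.S.iw (ev i)) (B.TubeF_p (ev i) (T.x y)))

theorem TubeF_rad (H : B.TubeF_H) (v : E (k + 2)) :
    (‖B.cx v‖ < T.ra ∨ T.rb < ‖B.cx v‖ → B.vth v = 0 ∧ B.TubeF_g v = 0) ∧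
    (‖B.cx v‖ ≤ T.ra / 4 ∨ T.rb ≤ ‖B.cx v‖ → B.chi v - B.chi1 v = 0) ∧
    (T.rb ≤ ‖B.cx v‖ → B.chi v = 0) ∧ ‖B.TubeF_g v‖ ≤ 2 * (C' / T.ra) ∧
    |B.chi v - B.chi1 v| ≤ 1 := by
  obtain ⟨hr, hra, hab, -⟩ := TubeF_rb (T := T)
  have hn := norm_nonneg (B.cx v)
  have h1 : B.chi1 v ≤ B.chi v :=
    ((B.weights H.hΛ).2.2.2.2.2.2.1 v).2.2.2.2.2.2.2.2.2.2.2.2.1
  have h2 := B.TubeF_chi1 v
  have h3 : T.rb ≤ ‖B.cx v‖ → B.chi v = 0 := fun h => B.prof.zero _ (pow_le_pow_left₀ hr.le h 2)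
  refine ⟨fun h => ?_, fun h => ?_, h3, ?_, ?_⟩
  · have h4 : deriv B.χ (‖B.cx v‖ ^ 2) = 0 := by
      rcases h with h | h
      · have h5 : B.χ =ᶠ[𝓝 (‖B.cx v‖ ^ 2)] fun _ => 1 :=
          (eventually_lt_nhds (pow_lt_pow_left₀ h hn two_ne_zero)).mono fun t ht =>
            B.prof.one t ht.le
        rw [h5.deriv_eq, deriv_const]
      · have h5 : B.χ =ᶠ[𝓝 (‖B.cx v‖ ^ 2)] fun _ => 0 :=
          (eventually_gt_nhds (pow_lt_pow_left₀ h hr.le two_ne_zero)).mono fun t ht =>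
            B.prof.zero t ht.le
        rw [h5.deriv_eq, deriv_const]
    exact ⟨by rw [Tb.vth, h4, mul_zero], by rw [TubeF_g, h4, mul_zero, zero_smul]⟩
  · rcases h with h | h
    · rw [Tb.chi, Tb.chi1, B.prof.one _ (pow_le_pow_left₀ hn (by linarith) 2),
        B.prof.one₁ _ (pow_le_pow_left₀ hn h 2), sub_self]
    · have h4 := h3 h
      linarith [h2.1]
  · have h4 := (B.prof.bd' _ (sq_nonneg ‖B.cx v‖)).2.1
    rw [Real.sqrt_sq hn] at h4
    rw [TubeF_g, norm_smul, Real.norm_eq_abs, abs_mul, abs_two]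
    linarith
  · have h4 : B.chi v ≤ 1 := (B.prof.bd _).2.1
    rw [abs_of_nonneg (by linarith)]
    linarith [h2.1]

theorem TubeF_lon (H : B.TubeF_H) {v : E (k + 2)} (hv : 1 / 4 + T.rb ≤ ‖B.ax (B.wx v)‖) :
    B.cw v = 0 ∧ B.chc v = 0 ∧ B.TubeF_g0 (B.wx v) = 0 ∧ ∀ u, B.TubeF_p u v = 0 := by
  have hr := (TubeF_rb (T := T)).1
  refine ⟨((B.weights H.hΛ).2.2.2.2.2.2.1 v).2.2.2.2.2.2.2.2.2.2.2.1 hv, TubeF_ch (by linarith only [hv, hr]),
    (((B.TubeF_g0_all H).2 _ 0).2.2.2.1 hv).1, fun u => ?_⟩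
  rw [TubeF_p, (B.TubeF_c0_all.2 _ u).2.2 hv, (((B.TubeF_g0_all H).2 _ u).2.2.2.1 hv).2, zero_smul,
    sub_zero]

theorem TubeF_gg (H : B.TubeF_H) (v : E (k + 2)) :
    ‖B.TubeF_g v‖ * ‖B.TubeF_g0 (B.wx v)‖ ≤ 2 * C' * T.rb := by
  have hra := (TubeF_rb (T := T)).2.1
  have hC := B.C_ge
  calc _ ≤ 2 * (C' / T.ra) * T.sm := mul_le_mul (B.TubeF_rad H v).2.2.2.1
        ((B.TubeF_g0_all H).2 _ 0).2.1 (norm_nonneg _) (by positivity)
    _ = 2 * C' * (T.sm / T.ra) := by ring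
    _ ≤ _ := mul_le_mul_of_nonneg_left T.TubeF_num.1 (by positivity)

theorem TubeF_vc (H : B.TubeF_H) (v : E (k + 2)) :
    |B.vth v * (B.cw v - B.chc v ^ 2)| ≤ 2 * (2 * C * T.rb) := by
  have W := (B.weights H.hΛ).2.2.2.2.2.2.1 v
  exact TubeF_mul (by rw [abs_of_nonneg W.1]; exact W.2.1) W.2.2.2.2.2.2.2.2.2.2.1

theorem TubeF_cont (H : B.TubeF_H) : Continuous B.TubeF_g ∧
    Continuous (fun v => B.TubeF_g0 (B.wx v)) ∧ (∀ u, Continuous (B.TubeF_p u)) ∧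
    Continuous B.TubeF_f := by
  have W := B.weights H.hΛ
  have c3 := ((B.calc_coord 0).2.2 1).1.continuous
  have c4 := ((B.calc_coord 0).2.2 1).2.continuous
  have h1 : Continuous B.TubeF_g :=
    (continuous_const.mul ((B.prof.smooth.continuous_deriv (by norm_num)).comp
      (c3.norm.pow 2))).smul c3
  have h2 : Continuous fun v => B.TubeF_g0 (B.wx v) := (B.TubeF_g0_all H).1.continuous.comp c4
  refine ⟨h1, h2, fun u => (((Conv_cf B.TubeF_c0_all.1 u).comp c4).smul c3).sub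
    ((Conv_cf (B.TubeF_g0_all H).1 u).comp c4), ?_⟩
  exact (W.2.2.1.continuous.mul (W.2.2.2.2.1.continuous.sub (W.2.2.2.1.continuous.pow 2))).add
    (h1.inner h2)

theorem TubeF_f_all (H : B.TubeF_H) (v : E (k + 2)) :
    |B.TubeF_f v| ≤ (4 * C + 2 * C') * T.rb ∧ (v ∉ B.Sh → B.TubeF_f v = 0) := by
  obtain ⟨hr, hra, hab, hb⟩ := TubeF_rb (T := T)
  refine ⟨(abs_add_le _ _).trans ?_, fun hv => ?_⟩
  · have h1 := B.TubeF_vc H v
    have h2 := (abs_real_inner_le_norm _ _).trans (B.TubeF_gg H v)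
    linarith
  · by_cases h1 : ‖B.cx v‖ < T.ra ∨ T.rb < ‖B.cx v‖
    · obtain ⟨h2, h3⟩ := (B.TubeF_rad H v).1 h1
      rw [TubeF_f, h2, h3, zero_mul, inner_zero_left, add_zero]
    · by_cases h2 : 1 / 4 + T.rb ≤ ‖B.ax (B.wx v)‖
      · obtain ⟨h3, h4, h5, -⟩ := B.TubeF_lon H h2
        rw [TubeF_f, h3, h4, h5, inner_zero_right]
        ring
      · rw [not_or, not_lt, not_lt] at h1
        have h3 := B.TubeF_nrm v
        exact absurd ⟨by linarith only [hr, hb, h1, h2, h3, h1.2], by linarith [h1.1], by linarith [h1.2]⟩ hv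

theorem TubeF_Err_all (H : B.TubeF_H) : Measurable B.TubeF_Err ∧
    (∀ y, |B.TubeF_Err y| ≤ (8 * C + 3 * C' + k * (4 * C + 1)) * T.rb * T.d y) ∧
    ∀ y, T.x y ∉ B.Out → B.TubeF_Err y = 0 := by
  obtain ⟨hr, hra, hab, hb⟩ := TubeF_rb (T := T)
  have W := B.weights H.hΛ
  have hC := T.C_ge
  have hC' := B.C_ge
  refine ⟨?_, fun y => ?_, fun y hy => ?_⟩
  · obtain ⟨c1, c2, c3, c4⟩ := B.TubeF_cont H
    have hx := T.measurable_all.1
    have h1 : Measurable fun y => B.cw (T.x y) - B.chc (T.x y) ^ 2 :=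
      (W.2.2.2.2.1.continuous.sub (W.2.2.2.1.continuous.pow 2)).measurable.comp hx
    exact (((((c4.measurable.comp hx).mul T.measurable_all.2.2.2.2.1).div_const 2).neg.add
      (((W.2.2.1.continuous.measurable.comp hx).mul h1).mul B.measurable_all.2.1)).add
      (T.TubeF_mNN measurable_id (c1.measurable.comp hx) (c2.measurable.comp hx))).add
      (((W.1.continuous.sub W.2.1.continuous).measurable.comp hx).mul
        ((h1.mul B.measurable_all.1).sub (Finset.measurable_sum _ fun i _ =>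
          T.TubeF_mNN measurable_id measurable_const ((c3 _).measurable.comp hx))))
  · have hd := (T.d_bd y).1
    have hN := B.Nw_bd y
    have h1 : |B.TubeF_f (T.x y) * T.d y| ≤ (4 * C + 2 * C') * T.rb * T.d y :=
      TubeF_mul (B.TubeF_f_all H _).1 (abs_of_nonneg hd).le
    have h2 : |B.vth (T.x y) * (B.cw (T.x y) - B.chc (T.x y) ^ 2) * B.Nr y| ≤
        2 * (2 * C * T.rb) * T.d y :=
      TubeF_mul (B.TubeF_vc H _) ((abs_of_nonneg hN.2.2.2.1).trans_le hN.2.2.2.2.1)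
    have h3 : |T.NN y (B.TubeF_g (T.x y)) (B.TubeF_g0 (B.wx (T.x y)))| ≤
        T.d y * (2 * C' * T.rb) := by
      refine (T.TubeF_bd _ _ _).2.2.2.1.trans ?_
      rw [mul_assoc]
      exact mul_le_mul_of_nonneg_left (B.TubeF_gg H _) hd
    have h4 : |(B.chi (T.x y) - B.chi1 (T.x y)) * ((B.cw (T.x y) - B.chc (T.x y) ^ 2) * B.Nw y -
        ∑ i, T.NN y (B.S.iw (ev i)) (B.TubeF_p (ev i) (T.x y)))| ≤
        1 * (2 * C * T.rb * T.d y + k * (T.d y * ((4 * C + 1) * T.rb))) := by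
      by_cases hc : T.rb ≤ ‖B.cx (T.x y)‖
      · rw [(B.TubeF_rad H _).2.1 (Or.inr hc), zero_mul, abs_zero]
        positivity
      · have h5 : ∀ i : Fin k, |T.NN y (B.S.iw (ev i)) (B.TubeF_p (ev i) (T.x y))| ≤
            T.d y * ((4 * C + 1) * T.rb) := fun i => by
          refine (T.TubeF_bd _ _ _).2.2.2.1.trans ?_
          rw [LinearIsometry.norm_map, norm_ev, mul_one]
          refine mul_le_mul_of_nonneg_left ((norm_sub_le _ _).trans ?_) hd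
          have h6 := (B.TubeF_c0_all.2 (B.wx (T.x y)) (ev i)).2.1
          have h7 := ((B.TubeF_g0_all H).2 (B.wx (T.x y)) (ev i)).2.2.1
          rw [norm_ev, mul_one] at h6 h7
          have h8 := mul_le_mul h6 (not_le.1 hc).le (norm_nonneg _) (by positivity)
          have h9 := mul_le_mul_of_nonneg_left T.TubeF_num.2.1 (by positivity : 0 ≤ 2 * C + 1)
          rw [norm_smul, Real.norm_eq_abs]
          linarith
        have h6 : |∑ i, T.NN y (B.S.iw (ev i)) (B.TubeF_p (ev i) (T.x y))| ≤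
            k * (T.d y * ((4 * C + 1) * T.rb)) := by
          refine (Finset.abs_sum_le_sum_abs _ _).trans
            ((Finset.sum_le_sum fun i _ => h5 i).trans_eq ?_)
          rw [Finset.sum_const, Finset.card_univ, Fintype.card_fin, nsmul_eq_mul]
        exact TubeF_mul (B.TubeF_rad H _).2.2.2.2 ((abs_sub _ _).trans (add_le_add
          (TubeF_mul (W.2.2.2.2.2.2.1 _).2.2.2.2.2.2.2.2.2.2.1
            ((abs_of_nonneg hN.1).trans_le hN.2.1)) h6))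
    rw [abs_le] at h1 h2 h3 h4
    rw [TubeF_Err, abs_le]
    constructor <;> linarith only [h1, h2, h3, h4, h1.1, h1.2, h2.1, h2.2, h3.1, h3.2, h4.1, h4.2]
  · by_cases h1 : ‖B.cx (T.x y)‖ ≤ T.ra / 4 ∨ T.rb < ‖B.cx (T.x y)‖
    · obtain ⟨h2, h3⟩ := (B.TubeF_rad H (T.x y)).1 (h1.imp_left fun h => by linarith)
      have h4 := (B.TubeF_rad H (T.x y)).2.1 (h1.imp_right le_of_lt)
      rw [TubeF_Err, TubeF_f, h2, h3, h4, (T.TubeF_bd _ _ _).2.2.2.2, T.TubeF_NN, inner_zero_left,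
        inner_zero_right]
      ring
    · by_cases h2 : 1 / 4 + T.rb ≤ ‖B.ax (B.wx (T.x y))‖
      · obtain ⟨h3, h4, h5, h6⟩ := B.TubeF_lon H h2
        rw [TubeF_Err, TubeF_f, h3, h4, h5]
        simp only [T.TubeF_NN y, h6, inner_zero_right, Finset.sum_const_zero]
        ring
      · rw [not_or, not_lt, not_le] at h1
        have h3 := B.TubeF_nrm (T.x y)
        have h4 : 1000 * T.rp ≤ T.ra := T.num.2.2.2.2.2.2.2.2.2.1
        exact absurd ⟨by linarith [h1.2], by linarith [h1.1]⟩ hy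

theorem TubeF_point (H : B.TubeF_H) :
    (dv B.TubeF_xi = fun v => 2 * (B.chi v * B.cw v) - B.phi v - B.TubeF_f v) ∧
    ∀ y, T.ND y (fderiv ℝ B.TubeF_xi (T.x y)) = 1 / 2 * (dv B.TubeF_xi (T.x y) * T.d y) -
      (B.phi (T.x y) * (B.Nr y - T.d y / 2) +
        B.chc (T.x y) ^ 2 * (B.chi (T.x y) - B.chi1 (T.x y)) * B.Nw y + B.TubeF_core y +
        B.TubeF_Err y) := by
  have h1 : ∀ v, dv B.TubeF_xi v = 2 * (B.chi v * B.cw v) - B.phi v - B.TubeF_f v := fun v => by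
    have h0 : ⟪B.TubeF_g v, B.cx v⟫ = -B.vth v := by
      rw [TubeF_g, real_inner_smul_left, real_inner_self_eq_norm_sq, Tb.vth]
      ring
    rw [(B.TubeF_trace H v 0).1, TubeF_V, ← TubeF_cw, inner_sub_right, real_inner_smul_right, h0,
      TubeF_f, Tb.phi]
    ring
  refine ⟨funext h1, fun y => ?_⟩
  have h2 : ‖B.cx (T.x y)‖ • B.ur (T.x y) = B.cx (T.x y) := by
    by_cases h : B.cx (T.x y) = 0
    · rw [h, norm_zero, zero_smul]
    · rw [Tb.ur, smul_inv_smul₀ (norm_ne_zero_iff.2 h)]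
  have h3 : T.NN y (B.TubeF_g (T.x y)) (B.cx (T.x y)) = -(B.vth (T.x y) * B.Nr y) := by
    have h4 : T.NN y (B.cx (T.x y)) (B.cx (T.x y)) = ‖B.cx (T.x y)‖ ^ 2 * B.Nr y := by
      conv_lhs => rw [← h2]
      rw [Flat.NN, NF_smul, NF_symm, NF_smul, Tb.Nr, Flat.NN]
      ring
    rw [TubeF_g, Flat.NN, NF_smul]
    rw [Flat.NN] at h4
    rw [h4, Tb.vth]
    ring
  have h5 : T.NN y (B.TubeF_g (T.x y)) (B.TubeF_V (T.x y)) =
      B.cw (T.x y) * -(B.vth (T.x y) * B.Nr y) -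
        T.NN y (B.TubeF_g (T.x y)) (B.TubeF_g0 (B.wx (T.x y))) := by
    rw [← h3, TubeF_V, ← TubeF_cw, T.TubeF_NN, inner_sub_right, real_inner_smul_right,
      ← T.TubeF_NN, ← T.TubeF_NN]
  rw [(B.TubeF_trace H (T.x y) y).2, h5, h1, TubeF_core, TubeF_Err, Tb.phi]
  ring

theorem TubeF_test (H : B.TubeF_H) : Test 1 B.TubeF_xi (ball 0 10) ∧
    Adm (fun v => B.chi v * B.cw v) ∧ Adm B.phi ∧ Adm B.TubeF_f := by
  obtain ⟨hr, hra, hab, hb⟩ := TubeF_rb (T := T)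
  have W := B.weights H.hΛ
  have h0 : ∀ v, 1 ≤ ‖v‖ → T.rb ≤ ‖B.cx v‖ ∨ 1 / 4 + T.rb ≤ ‖B.ax (B.wx v)‖ := fun v hv => by
    by_contra h
    rw [not_or, not_le, not_le] at h
    linarith only [hr, hb, hv, h, B.TubeF_nrm v, h.1, h.2]
  have h1 : ∀ v, v ∉ closedBall (0 : E (k + 2)) 1 → B.TubeF_xi v = 0 := fun v hv => by
    rw [mem_closedBall_zero_iff, not_le] at hv
    rcases h0 v hv.le with h | h
    · rw [TubeF_xi, (B.TubeF_rad H v).2.2.1 h, zero_smul]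
    · rw [TubeF_xi, TubeF_V, ← TubeF_cw, (B.TubeF_lon H h).1, (B.TubeF_lon H h).2.2.1, zero_smul,
        sub_zero, smul_zero]
  refine ⟨⟨(B.TubeF_xi_der H).1, HasCompactSupport.intro (isCompact_closedBall 0 1) h1, ?_⟩,
    Adm.of_cont (W.1.continuous.mul W.2.2.2.2.1.continuous) (R := 1) fun v hv => ?_,
    Adm.of_cont W.2.2.2.2.2.1.continuous (R := 1) fun v hv => ?_,
    Adm.of_cont (B.TubeF_cont H).2.2.2 (R := 1) fun v hv => ?_⟩
  · refine (closure_minimal (fun v hv => ?_) isClosed_closedBall).trans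
      (closedBall_subset_ball (by norm_num : (1 : ℝ) < 10))
    by_contra h
    exact hv (h1 v h)
  · rcases h0 v hv with h | h
    · rw [(B.TubeF_rad H v).2.2.1 h, zero_mul]
    · rw [(B.TubeF_lon H h).1, mul_zero]
  · refine (W.2.2.2.2.2.2.1 v).2.2.2.2.2.1 fun h => ?_
    linarith [B.TubeF_nrm v, h.1, h.2.2]
  · refine (B.TubeF_f_all H v).2 fun h => ?_
    linarith [h.1]

theorem TubeF_ident (H : B.TubeF_H) (hc : Integrable B.TubeF_core T.μ) :
    T.Y (fun v => B.chi v * B.cw v) = T.Y B.phi / 2 + T.Y B.TubeF_f / 2 +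
      ((∫ y, B.phi (T.x y) * (B.Nr y - T.d y / 2) ∂T.μ) +
      (∫ y, B.chc (T.x y) ^ 2 * (B.chi (T.x y) - B.chi1 (T.x y)) * B.Nw y ∂T.μ) +
      (∫ y, B.TubeF_core y ∂T.μ) + ∫ y, B.TubeF_Err y ∂T.μ) := by
  obtain ⟨t1, a1, a2, a3⟩ := B.TubeF_test H
  obtain ⟨p1, p2⟩ := B.TubeF_point H
  have W := B.weights H.hΛ
  have hx := T.measurable_all.1
  have hd := T.measurable_all.2.2.2.2.1
  have a4 : Adm (dv B.TubeF_xi) := by
    rw [p1]
    exact ((a1.const_mul 2).sub a2).sub a3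
  have e1 : T.Y (dv B.TubeF_xi) =
      2 * T.Y (fun v => B.chi v * B.cw v) - T.Y B.phi - T.Y B.TubeF_f := by
    rw [p1, (T.lin_sub ((a1.const_mul 2).sub a2) a3).2.2, (T.lin_sub (a1.const_mul 2) a2).2.2,
      (T.lin_smul 2 _).2.2]
  have i0 : Integrable (fun y => dv B.TubeF_xi (T.x y) * T.d y) T.μ := by
    obtain ⟨hm, M, hM, -⟩ := a4
    exact T.TubeF_int ((hm.comp hx).mul hd) fun y =>
      TubeF_mul (hM _) (abs_of_nonneg (T.d_bd y).1).le
  have i1 : Integrable (fun y => B.phi (T.x y) * (B.Nr y - T.d y / 2)) T.μ := by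
    refine T.TubeF_int (t := 2) ((W.2.2.2.2.2.1.continuous.measurable.comp hx).mul
      (B.measurable_all.2.1.sub (hd.div_const 2))) fun y => TubeF_mul ?_ ?_
    · rw [abs_of_nonneg (W.2.2.2.2.2.2.1 _).2.2.2.1]
      exact (W.2.2.2.2.2.2.1 _).2.2.2.2.1
    · have h1 := B.Nw_bd y
      rw [abs_le]
      constructor <;> linarith only [h1, h1.2.2.2.1, h1.2.2.2.2.1]
  have i2 : Integrable (fun y => B.chc (T.x y) ^ 2 * (B.chi (T.x y) - B.chi1 (T.x y)) * B.Nw y)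
      T.μ := by
    refine T.TubeF_int (t := 1 * 1) ((((W.2.2.2.1.continuous.pow 2).mul
      (W.1.continuous.sub W.2.1.continuous)).measurable.comp hx).mul B.measurable_all.1)
      fun y => TubeF_mul (TubeF_mul ?_ (B.TubeF_rad H _).2.2.2.2) ?_
    · rw [abs_of_nonneg (sq_nonneg _)]
      exact pow_le_one₀ (T.ch_bd _).1 (T.ch_bd _).2.1
    · rw [abs_of_nonneg (B.Nw_bd y).1]
      exact (B.Nw_bd y).2.1
  have i3 : Integrable B.TubeF_Err T.μ := T.TubeF_int (B.TubeF_Err_all H).1 (B.TubeF_Err_all H).2.1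
  have i12 : Integrable (fun y => B.phi (T.x y) * (B.Nr y - T.d y / 2) +
      B.chc (T.x y) ^ 2 * (B.chi (T.x y) - B.chi1 (T.x y)) * B.Nw y) T.μ := i1.add i2
  have i13 : Integrable (fun y => B.phi (T.x y) * (B.Nr y - T.d y / 2) +
      B.chc (T.x y) ^ 2 * (B.chi (T.x y) - B.chi1 (T.x y)) * B.Nw y + B.TubeF_core y) T.μ :=
    i12.add hc
  have i14 : Integrable (fun y => B.phi (T.x y) * (B.Nr y - T.d y / 2) +
      B.chc (T.x y) ^ 2 * (B.chi (T.x y) - B.chi1 (T.x y)) * B.Nw y + B.TubeF_core y +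
      B.TubeF_Err y) T.μ := i13.add i3
  have e2 := T.ee_dv t1
  simp only [p2] at e2
  rw [integral_sub (i0.const_mul _) i14, integral_const_mul, integral_add i13 i3,
    integral_add i12 hc, integral_add i1 i2] at e2
  rw [Flat.Y, e2, Flat.DD] at e1
  linarith only [e1]

end aux

/-- Let `c s = ch (ax s) ^ 2`, `γ̃ v = ∫ c s k₁ (s, v) • gm s ds` and
`ξ v = chi v • (cw v • cx v - γ̃ v)`. Move the derivatives along the axis from `k₁` to `c` and
`c • gm` (`integral_parts` in `E k`). Then `dv ξ = 2 chi cw - vth cw - ∇chi · γ̃` and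
`N : Dξ = - cw vth Nr - N (∇chi, γ̃) + chi cw (d - Nw) +
chi ∑ i ∫ k₁ ∂_i c N (e_i, cx - gm s) ds - chi ∑ i ∫ k₁ c N (e_i, ∂_i gm s) ds` (`trace_split`).
`ee_dv` and `2 ee = DD - Y` give `Y (chi cw) = Y ω₁ / 2 + ∫ cw vth (Nr - d / 2) + ∫ chi cw Nw + A₂ -
A₁ + ∫ N (∇chi, γ̃) - DD (∇chi · γ̃) / 2` with `ω₁ = vth cw + ∇chi · γ̃`, `A₁`, `A₂` the integrals of
the last two sums. Split `chi = chi1 + (chi - chi1)`; the second part lives in `Out`. The core part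
of `∫ chi cw Nw + A₂` is `∫ c s (last line of core) ds ≥ - C er`; the core part of `A₁` is at most
`C √(∫ Nw) √(moment) ≤ C rb eps M`; the other parts are at most `C (rb + sm / ra) eps M`. Replace
`cw` by `chc ^ 2` in the shell (`weights`, `shell_Y`). -/
theorem tube_id (k Q : ℕ) (A C C' : ℝ) : ∃ C'' Λ₀ : ℝ, 1 ≤ C'' ∧ ∀ {N : ℕ} {T : TI k N Q A C}
    (B : Tb T C'), Λ₀ ≤ T.Λ →
    T.Y B.phi / 2 + (∫ y, B.phi (T.x y) * (B.Nr y - T.d y / 2) ∂T.μ) +
      (∫ y, B.chc (T.x y) ^ 2 * (B.chi (T.x y) - B.chi1 (T.x y)) * B.Nw y ∂T.μ) - C'' * T.er ≤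
      T.Y fun v => B.chi v * B.cw v := by
  obtain ⟨C₁, Λ₁, h1, hY⟩ := shell_Y k Q A C C'
  obtain ⟨C₂, Λ₂, h2, hM⟩ := moment k Q A C C'
  obtain ⟨C₃, Λ₃, -, hK⟩ := core k Q A C C'
  refine ⟨max 1 (C₁ * (4 * C + 2 * C') / 2 + 2 ^ k + C * (C' + k * C₂) +
    (8 * C + 3 * C' + k * (4 * C + 1))), max (max Λ₁ Λ₂) (max Λ₃ C'), le_max_left _ _,
    fun {N T} B hΛ => ?_⟩
  simp only [max_le_iff] at hΛ
  obtain ⟨⟨l1, l2⟩, l3, l4⟩ := hΛ
  obtain ⟨-, k1, k2, k3⟩ := hK B l3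
  have H : B.TubeF_H := ⟨l4, k1, k2, fun s hs => (k3 s hs).2.2.1, fun s hs => (k3 s hs).2.2.2.1⟩
  obtain ⟨c1, c2⟩ := B.TubeF_core_int H (fun s hs => (k3 s hs).2.2.2.2) (hM B l2).2
  obtain ⟨hr, hra, -, -⟩ := TubeF_rb (T := T)
  have hC := T.C_ge
  have hC' := B.C_ge
  have her : 0 < T.er := T.num.2.1
  have hn := T.TubeF_num.2.2
  have y1 := ((hY B l1).1 B.TubeF_f _ (B.TubeF_cont H).2.2.2.measurable
    (fun v => (B.TubeF_f_all H v).1) fun v hv => (B.TubeF_f_all H v).2 fun h =>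
      hv (self_subset_thickening (by positivity) _ h)).1
  have y2 := (T.TubeF_small (B.TubeF_Err_all H).2.1 B.measurable_all.2.2.2.2.2.2
    (B.TubeF_Err_all H).2.2).trans
    (mul_le_mul_of_nonneg_left B.shell_sub.2.2.1 (by positivity))
  have z1 := mul_le_mul_of_nonneg_left hn (by positivity : 0 ≤ C₁ * (4 * C + 2 * C'))
  have z2 := mul_le_mul_of_nonneg_left hn (by positivity : 0 ≤ C * (C' + k * C₂))
  have z3 := mul_le_mul_of_nonneg_left hn (by positivity : 0 ≤ 8 * C + 3 * C' + k * (4 * C + 1))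
  have z4 := mul_le_mul_of_nonneg_right (le_max_right 1 (C₁ * (4 * C + 2 * C') / 2 + 2 ^ k +
    C * (C' + k * C₂) + (8 * C + 3 * C' + k * (4 * C + 1)))) her.le
  rw [B.TubeF_ident H c1]
  linarith only [c2, z1, z2, z3, z4, y1, y2, (abs_le.1 y1).1, (abs_le.1 y2).1]

end Tb

end Pool.Agent.MP_f6c0e6_an.Gen

end
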