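import Pool.Agent.MP_f6c0e6_an.All.TubeB
import Pool.Agent.MP_f6c0e6_an.All.TubeA

section

/-! The clusters of heights over the shell. -/

set_option autoImplicit false

open MeasureTheory Filter Topology Set Metric
open scoped ENNReal RealInnerProductSpace

namespace Pool.Agent.MP_f6c0e6_an.Gen

variable {m N : ℕ}

/-- Greedy clustering: as long as two centres are closer than `10 R`, delete one of them and
replace `R` by `11 R`. Induction on the number of points. -/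
theorem exists_cluster (S : Finset (E N)) {R₀ : ℝ} (h : 0 < R₀) : ∃ (cs : Finset (E N)) (R : ℝ),
    cs ⊆ S ∧ R₀ ≤ R ∧ R ≤ 11 ^ S.card * R₀ ∧ (∀ c ∈ cs, ∀ c' ∈ cs, c ≠ c' → 10 * R ≤ ‖c - c'‖) ∧
    ∀ z : E N, (∃ c ∈ S, ‖z - c‖ ≤ R₀) → ∃ c ∈ cs, ‖z - c‖ ≤ R := by
  classical
  induction S using Finset.strongInduction generalizing R₀ with
  | H S ih =>
    by_cases hs : ∀ c ∈ S, ∀ c' ∈ S, c ≠ c' → 10 * R₀ ≤ ‖c - c'‖
    · exact ⟨S, R₀, subset_rfl, le_rfl, le_mul_of_one_le_left h.le (one_le_pow₀ (by norm_num)),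
        hs, fun z hz => hz⟩
    · push Not at hs
      obtain ⟨c, hc, c', hc', hne, hlt⟩ := hs
      obtain ⟨cs, R, h1, h2, h3, h4, h5⟩ := ih (S.erase c') (Finset.erase_ssubset hc')
        (R₀ := 11 * R₀) (by linarith)
      refine ⟨cs, R, h1.trans (Finset.erase_subset _ _), by linarith, ?_, h4, fun z hz => h5 z ?_⟩
      · rw [← Finset.card_erase_add_one hc', pow_succ, mul_assoc]
        exact h3
      · obtain ⟨c'', hc'', hz⟩ := hz
        by_cases e : c'' = c'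
        · refine ⟨c, Finset.mem_erase.2 ⟨hne, hc⟩, ?_⟩
          rw [e] at hz
          have := norm_sub_le_norm_sub_add_norm_sub z c' c
          rw [norm_sub_rev c' c] at this
          linarith
        · exact ⟨c'', Finset.mem_erase.2 ⟨e, hc''⟩, by linarith⟩

/-- a maximal separated subset -/
theorem TubeH_net (H : Set (E N)) {δ n0 : ℝ} (hδ : 0 < δ)
    (hb : ∀ S : Finset (E N), (∀ c ∈ S, c ∈ H) → (∀ c ∈ S, ∀ c' ∈ S, c ≠ c' → δ ≤ ‖c - c'‖) →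
      (S.card : ℝ) ≤ n0) :
    ∃ S : Finset (E N), (∀ c ∈ S, c ∈ H) ∧ (S.card : ℝ) ≤ n0 ∧ ∀ h ∈ H, ∃ c ∈ S, ‖h - c‖ ≤ δ := by
  classical
  let P : ℕ → Prop := fun n => ∃ S : Finset (E N), (∀ c ∈ S, c ∈ H) ∧
    (∀ c ∈ S, ∀ c' ∈ S, c ≠ c' → δ ≤ ‖c - c'‖) ∧ S.card = n
  have h0 : P 0 := ⟨∅, by simp, by simp, rfl⟩
  obtain ⟨S, h1, h2, h3⟩ : P (Nat.findGreatest P ⌈n0⌉₊) := Nat.findGreatest_spec (Nat.zero_le _) h0
  refine ⟨S, h1, hb S h1 h2, fun h hh => ?_⟩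
  by_contra hcon
  push Not at hcon
  have hn : h ∉ S := fun hS => by
    have := hcon h hS
    rw [sub_self, norm_zero] at this
    linarith
  have g1 : ∀ c ∈ insert h S, c ∈ H := fun c hc => by
    rcases Finset.mem_insert.1 hc with rfl | hc
    exacts [hh, h1 c hc]
  have g2 : ∀ c ∈ insert h S, ∀ c' ∈ insert h S, c ≠ c' → δ ≤ ‖c - c'‖ := fun c hc c' hc' hne => by
    rcases Finset.mem_insert.1 hc with e | hc <;> rcases Finset.mem_insert.1 hc' with e' | hc'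
    · exact absurd (e.trans e'.symm) hne
    · exact e ▸ (hcon c' hc').le
    · rw [norm_sub_rev]
      exact e' ▸ (hcon c hc).le
    · exact h2 c hc c' hc' hne
  have g3 : (insert h S).card ≤ ⌈n0⌉₊ := by
    have := (hb _ g1 g2).trans (Nat.le_ceil n0)
    exact_mod_cast this
  have g4 := Nat.le_findGreatest g3 (show P _ from ⟨_, g1, g2, rfl⟩)
  rw [Finset.card_insert_of_notMem hn] at g4
  omega

theorem TubeH_chord {p q : E m} {a b : ℝ} (ha : 0 ≤ a) (hp : ‖p‖ ≤ b) (hq : ‖q‖ ≤ b)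
    (h : (a ≤ ‖p‖ ∧ a ≤ ‖q‖ ∧ a ^ 2 ≤ ⟪p, q⟫) ∨ (2 * a ≤ ‖p‖ ∧ 2 * a ≤ ‖q‖ ∧ 0 ≤ ⟪p, q⟫))
    {s t : ℝ} (hs : 0 ≤ s) (ht : 0 ≤ t) (hst : s + t = 1) :
    a ≤ ‖s • p + t • q‖ ∧ ‖s • p + t • q‖ ≤ b := by
  constructor
  · refine le_of_sq_le_sq ?_ (norm_nonneg _)
    rw [norm_add_sq_real, norm_smul, norm_smul, real_inner_smul_left, real_inner_smul_right,
      Real.norm_of_nonneg hs, Real.norm_of_nonneg ht, mul_pow, mul_pow]
    have e : a ^ 2 = (s + t) ^ 2 * a ^ 2 := by rw [hst]; ring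
    have hst' := mul_nonneg hs ht
    rcases h with ⟨h1, h2, h3⟩ | ⟨h1, h2, h3⟩
    · have g1 := mul_le_mul_of_nonneg_left (pow_le_pow_left₀ ha h1 2) (sq_nonneg s)
      have g2 := mul_le_mul_of_nonneg_left (pow_le_pow_left₀ ha h2 2) (sq_nonneg t)
      have g3 := mul_le_mul_of_nonneg_left h3 hst'
      rw [e]
      linarith only [g1, g2, g3]
    · have g1 := mul_le_mul_of_nonneg_left (pow_le_pow_left₀ (by linarith) h1 2) (sq_nonneg s)
      have g2 := mul_le_mul_of_nonneg_left (pow_le_pow_left₀ (by linarith) h2 2) (sq_nonneg t)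
      have g3 := mul_nonneg hst' h3
      have g4 := mul_nonneg (sq_nonneg (s - t)) (sq_nonneg a)
      have g5 := mul_nonneg (sq_nonneg s) (sq_nonneg a)
      have g6 := mul_nonneg (sq_nonneg t) (sq_nonneg a)
      rw [e]
      linarith only [g1, g2, g3, g4, g5, g6]
  · refine (norm_add_le _ _).trans ?_
    rw [norm_smul, norm_smul, Real.norm_of_nonneg hs, Real.norm_of_nonneg ht]
    have g1 := mul_le_mul_of_nonneg_left hp hs
    have g2 := mul_le_mul_of_nonneg_left hq ht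
    have : s * b + t * b = b := by rw [← add_mul, hst, one_mul]
    linarith

/-- a vector of the plane that makes a non-obtuse angle with two given vectors -/
theorem TubeH_mid (u u' : E 2) : ∃ w : E 2, ‖w‖ = ‖u‖ ∧ 0 ≤ ⟪u, w⟫ ∧ 0 ≤ ⟪w, u'⟫ := by
  have h1 : ‖(!₂[-u 1, u 0] : E 2)‖ = ‖u‖ := by
    rw [EuclideanSpace.norm_eq, EuclideanSpace.norm_eq, Fin.sum_univ_two, Fin.sum_univ_two]
    simp [add_comm]
  have h2 : ⟪u, (!₂[-u 1, u 0] : E 2)⟫ = 0 := by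
    rw [PiLp.inner_apply, Fin.sum_univ_two]
    simp [mul_comm]
  rcases le_total 0 ⟪(!₂[-u 1, u 0] : E 2), u'⟫ with h | h
  · exact ⟨_, h1, h2.ge, h⟩
  · exact ⟨-!₂[-u 1, u 0], by rw [norm_neg, h1], by rw [inner_neg_right, h2, neg_zero],
      by rw [inner_neg_left]; linarith⟩

namespace Tb

variable {k Q : ℕ} {A C C' : ℝ} {T : TI k N Q A C} (B : Tb T C')

/-- a closed neighbourhood of the shell -/
def Sh1 : Set (E (k + 2)) :=
  {v | ‖B.ax (B.wx v)‖ ≤ 3 / 10 ∧ T.ra / 2 ≤ ‖B.cx v‖ ∧ ‖B.cx v‖ ≤ 2 * T.rb}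

theorem TubeH_mem (s : E k) (p : E 2) : B.ax s + B.S.ic p ∈ B.Sh1 ↔
    ‖B.ax s‖ ≤ 3 / 10 ∧ T.ra / 2 ≤ ‖p‖ ∧ ‖p‖ ≤ 2 * T.rb := by
  have h0 : pr B.S.iw (B.S.ic p) = 0 :=
    ext_inner_left ℝ fun u => by rw [← inner_iota, B.S.orth, inner_zero_right]
  have e : B.ax s + B.S.ic p - B.o = B.S.iw s + B.S.ic p := by rw [ax]; abel
  have h1 : B.wx (B.ax s + B.S.ic p) = s := by rw [wx, e, map_add, pr_iota, h0, add_zero]
  have h2 : B.cx (B.ax s + B.S.ic p) = B.S.ic p := by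
    rw [cx, e, vt_add, vt_iota, vt_of_pr _ h0, zero_add]
  rw [Sh1, mem_ofPred_eq, h1, h2, B.S.ic.norm_map]

theorem TubeH_par (v : E (k + 2)) : ∃ s p, v = B.ax s + B.S.ic p :=
  ⟨pr B.S.iw (v - B.o), pr B.S.ic (v - B.o), by rw [ax, add_assoc, B.S.span, add_sub_cancel]⟩

theorem TubeH_seg {f : E (k + 2) → ℝ} (hf : ContDiff ℝ 1 f) {K : ℝ}
    (hK : ∀ v ∈ B.Sh1, ‖fderiv ℝ f v‖ ≤ K) {s s' : E k} {p p' : E 2} (hs : ‖B.ax s‖ ≤ 3 / 10)
    (hs' : ‖B.ax s'‖ ≤ 3 / 10) (hp : ∀ a b : ℝ, 0 ≤ a → 0 ≤ b → a + b = 1 →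
      T.ra / 2 ≤ ‖a • p + b • p'‖ ∧ ‖a • p + b • p'‖ ≤ 2 * T.rb) :
    |f (B.ax s + B.S.ic p) - f (B.ax s' + B.S.ic p')| ≤
      K * ‖B.ax s + B.S.ic p - (B.ax s' + B.S.ic p')‖ := by
  refine (convex_segment (B.ax s + B.S.ic p)
    (B.ax s' + B.S.ic p')).norm_image_sub_le_of_norm_fderiv_le (𝕜 := ℝ)
    (fun y _ => hf.differentiable one_ne_zero y) (fun y hy => hK y ?_) (right_mem_segment _ _ _)
    (left_mem_segment _ _ _)
  obtain ⟨a, b, ha, hb, hab, rfl⟩ := hy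
  have e1 : B.ax (a • s + b • s') = a • B.ax s + b • B.ax s' := by
    simp only [ax, map_add, map_smul, smul_add]
    rw [add_add_add_comm, ← add_smul, hab, one_smul]
  have e : a • (B.ax s + B.S.ic p) + b • (B.ax s' + B.S.ic p') =
      B.ax (a • s + b • s') + B.S.ic (a • p + b • p') := by
    rw [e1, map_add, map_smul, map_smul, smul_add, smul_add, add_add_add_comm]
  rw [e, TubeH_mem, e1]
  refine ⟨(norm_add_le _ _).trans ?_, hp a b ha hb hab⟩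
  rw [norm_smul, norm_smul, Real.norm_of_nonneg ha, Real.norm_of_nonneg hb]
  nlinarith only [hab, hs, ha, hs', hb, mul_le_mul_of_nonneg_left hs ha, mul_le_mul_of_nonneg_left hs' hb]

/-- Join `v` and `v'` by segments in `Sh1`: along the axis, radially to `‖cx‖ = rb`, then to
`± rb • ic (ev 1)` and to `rb • ic (ev 0)` (on the chord between two unit vectors with non-negative
inner product the norm is at least `1 / √2`). -/
theorem path {f : E (k + 2) → ℝ} (hf : ContDiff ℝ 1 f) {K : ℝ}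
    (hK : ∀ v ∈ B.Sh1, ‖fderiv ℝ f v‖ ≤ K) {v v' : E (k + 2)} (hv : v ∈ B.Sh1) (hv' : v' ∈ B.Sh1) :
    |f v - f v'| ≤ K := by
  obtain ⟨-, -, -, -, -, n6, -, -, n9, n10, n11, -⟩ := T.num
  have hK0 : 0 ≤ K := (norm_nonneg _).trans (hK v hv)
  obtain ⟨s, p, rfl⟩ := B.TubeH_par v
  obtain ⟨s', p', rfl⟩ := B.TubeH_par v'
  obtain ⟨hs, hp1, hp2⟩ := (B.TubeH_mem s p).1 hv
  obtain ⟨hs', hp1', hp2'⟩ := (B.TubeH_mem s' p').1 hv'
  have hra : 0 < T.ra / 2 := by linarith only [n6, n10]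
  have h1 : |f (B.ax s + B.S.ic p) - f (B.ax s' + B.S.ic p)| ≤ K * (6 / 10) := by
    refine (B.TubeH_seg hf hK hs hs' fun a b _ _ hab => ?_).trans
      (mul_le_mul_of_nonneg_left ?_ hK0)
    · rw [← add_smul, hab, one_smul]
      exact ⟨hp1, hp2⟩
    · rw [add_sub_add_right_eq_sub]
      linarith only [hs, hs', norm_sub_le (B.ax s) (B.ax s')]
  have h2 : ∀ q q' : E 2, ‖q‖ ≤ 2 * T.rb → ‖q'‖ ≤ 2 * T.rb →
      ((T.ra / 2 ≤ ‖q‖ ∧ T.ra / 2 ≤ ‖q'‖ ∧ (T.ra / 2) ^ 2 ≤ ⟪q, q'⟫) ∨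
        (2 * (T.ra / 2) ≤ ‖q‖ ∧ 2 * (T.ra / 2) ≤ ‖q'‖ ∧ 0 ≤ ⟪q, q'⟫)) →
      |f (B.ax s' + B.S.ic q) - f (B.ax s' + B.S.ic q')| ≤ K * (1 / 10) := fun q q' hq hq' h => by
    refine (B.TubeH_seg hf hK hs' hs' fun a b ha hb hab =>
      TubeH_chord hra.le hq hq' h ha hb hab).trans (mul_le_mul_of_nonneg_left ?_ hK0)
    rw [add_sub_add_left_eq_sub, ← map_sub, B.S.ic.norm_map]
    linarith only [n6, n9, n10, n11, hq, hq', norm_sub_le q q']
  have h3 : ∀ q : E 2, T.ra / 2 ≤ ‖q‖ → ‖q‖ ≤ 2 * T.rb → ∃ u : E 2, ‖u‖ = 2 * T.rb ∧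
      |f (B.ax s' + B.S.ic q) - f (B.ax s' + B.S.ic u)| ≤ K * (1 / 10) := fun q hq hq' => by
    have hq0 : 0 < ‖q‖ := hra.trans_le hq
    have hn : ‖(2 * T.rb / ‖q‖) • q‖ = 2 * T.rb := by
      rw [norm_smul, Real.norm_of_nonneg (div_nonneg (by linarith only [n6, n10, n11]) hq0.le),
        div_mul_cancel₀ _ hq0.ne']
    refine ⟨_, hn, h2 _ _ hq' hn.le (Or.inl ⟨hq, by linarith only [n6, n10, n11, hn], ?_⟩)⟩
    rw [real_inner_smul_right, real_inner_self_eq_norm_sq, sq ‖q‖, ← mul_assoc,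
      div_mul_cancel₀ _ hq0.ne', sq]
    exact mul_le_mul (by linarith only [n6, n10, n11]) hq hra.le (by linarith only [n6, n10, n11])
  obtain ⟨u, hu, h4⟩ := h3 p hp1 hp2
  obtain ⟨u', hu', h5⟩ := h3 p' hp1' hp2'
  obtain ⟨w, hw, hw1, hw2⟩ := TubeH_mid u u'
  rw [hu] at hw
  have h6 := h2 u w hu.le hw.le (Or.inr ⟨by linarith only [n6, n10, n11, hu], by linarith only [n6, n10, n11, hw], hw1⟩)
  have h7 := h2 w u' hw.le hu'.le (Or.inr ⟨by linarith only [n6, n10, n11, hw], by linarith only [n6, n10, n11, hu'], hw2⟩)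
  rw [abs_le] at h1 h4 h5 h6 h7 ⊢
  constructor <;> linarith only [h1, h4, h5, h6, h7, h1.1, h1.2, h4.1, h4.2, h5.1, h5.2, h6.1, h6.2, h7.1, h7.2]

theorem TubeH_norm {v : E (k + 2)} (hv : v ∈ B.Sh1) : ‖v‖ ≤ 1 / 3 := by
  obtain ⟨-, -, -, -, -, -, -, -, n9, -⟩ := T.num
  rw [← (B.coord v v 0).1]
  linarith only [n9, norm_add_le (B.ax (B.wx v)) (B.cx v), hv.1, hv.2.2]

theorem TubeH_out {ξ : E (k + 2)} (hξ : ξ ∈ B.Sh1) {r : ℝ} (hr : r ≤ 4 * T.rp) :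
    T.DS (closedBall ξ r) ≤ T.eps * T.M := by
  obtain ⟨-, -, -, -, -, n6, -, -, n9, n10, n11, -⟩ := T.num
  refine (T.DS_mono fun v hv => ?_).2.trans B.shell_sub.2.2.1
  rw [mem_closedBall, dist_eq_norm] at hv
  have h2 := abs_le.1 ((abs_norm_sub_norm_le _ _).trans (B.TubeA_dist v ξ).1)
  exact ⟨by linarith only [hr, n6, n9, n10, n11, hv, norm_sub_norm_le v ξ, B.TubeH_norm hξ], by linarith only [hr, n6, n10, hv, h2, hξ.2.1, h2.1]⟩

theorem TubeH_near {v w : E (k + 2)} (hv : v ∈ B.Sh0) (h : ‖w - v‖ ≤ 2 * T.rp) :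
    w ∈ B.Sh1 ∧ w ∈ B.Sh := by
  obtain ⟨-, -, -, -, -, n6, -, -, n9, n10, n11, -⟩ := T.num
  have h2 := abs_le.1 ((abs_norm_sub_norm_le _ _).trans (B.TubeA_dist w v).1)
  have h3 := norm_sub_norm_le (B.ax (B.wx w)) (B.ax (B.wx v))
  rw [B.TubeA_ax] at h3
  refine ⟨⟨by linarith only [h, n6, n9, n10, n11, h3, (B.TubeA_dist w v).2, hv.1], by linarith only [h, n6, n10, h2, hv.2.1, h2.1],
    by linarith only [h, n6, n10, n11, h2, hv.2.2, h2.2]⟩, B.shell_sub.1 (mem_thickening_iff.2 ⟨v, hv, ?_⟩)⟩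
  rw [dist_eq_norm]
  linarith only [h, n6, n10]

end Tb

theorem TubeH_num {k Q : ℕ} {A C : ℝ} (T : TI k N Q A C) : 0 < T.sm / T.Λ ∧ T.sm / T.Λ ≤ 1 ∧
    T.sm ≤ 1 ∧ T.G ≤ T.rq ∧ T.rp ≤ 1 ∧ (∀ c, 4 * c ≤ T.Λ → c * (T.sm / T.Λ) ≤ T.sm / 4) ∧
    ∀ i ≤ (k + 4) ^ 2, T.Λ ^ 40 / T.L ≤ T.rp ^ i * (T.sm / T.Λ) ^ 2 ∧
      T.eps * T.M ≤ T.G ^ 2 * (T.rp ^ i * (T.sm / T.Λ) ^ 2) := by
  obtain ⟨-, -, n3, -, -, n6, -, -, -, -, -, n12, -, n14, n15, n16, -, n18, -⟩ := T.num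
  have h2 := T.Λ_ge
  have h1 : 1 ≤ T.Λ := by linarith only [h2]
  have h0 : 0 < T.Λ := by linarith
  have hL : 0 < T.L := by linarith
  have hG := T.G_pos
  have s1 : T.sm ≤ 1 := inv_le_one_of_one_le₀ (one_le_pow₀ h1)
  refine ⟨by positivity, (div_le_one h0).2 (by linarith only [h2, s1]), s1, ?_,
    inv_le_one_of_one_le₀ (one_le_pow₀ h1), fun c hc => ?_, fun i hi => ?_⟩
  · have := le_mul_of_one_le_right (hG.le.trans (n14.trans n15)) n12
    linarith only [n14, n15, n16, this]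
  · rw [← mul_div_assoc, div_le_div_iff₀ h0 (by norm_num)]
    nlinarith only [n3, hc]
  · have h3 : 42 + (20 * k + 60) * i + 100 * (k + 4) ^ 2 * 2 ≤ P0 k := by
      rw [P0]
      obtain ⟨K, hK⟩ : ∃ K, K = k + 4 := ⟨_, rfl⟩
      rw [← hK] at hi ⊢
      have a1 : (20 * k + 60) * i ≤ (20 * K) * K ^ 2 := Nat.mul_le_mul (by omega) hi
      have a2 : 4 * K ^ 2 ≤ K * K ^ 2 := Nat.mul_le_mul_right _ (by omega)
      have a3 : 4 ^ 2 ≤ K ^ 2 := Nat.pow_le_pow_left (by omega) 2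
      have a4 : K ^ 3 = K * K ^ 2 := by ring
      rw [mul_assoc] at a1
      omega
    have h4 : T.Λ ^ 40 / T.L ≤ T.rp ^ i * (T.sm / T.Λ) ^ 2 := by
      have h5 := TubeC_pow T h3
      rw [pow_add, pow_add, pow_mul, pow_mul] at h5
      rw [TI.rp, TI.sm, div_pow, inv_pow, inv_pow, div_le_iff₀ hL]
      refine le_trans (le_of_eq ?_) (mul_le_mul_of_nonneg_left h5 (by positivity))
      field_simp
    refine ⟨h4, n18.trans ?_⟩
    rw [mul_comm]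
    refine mul_le_mul_of_nonneg_left (le_trans ?_ h4) (sq_nonneg _)
    exact div_le_div₀ (by positivity) (pow_le_pow_right₀ h1 (by norm_num)) hL
      (le_self_pow₀ n12 two_ne_zero)

theorem TubeH_int {Q : ℕ} {A : ℝ} (F : Flat m N Q A) (r : ℝ) (ξ : E m) {f : E N → ℝ}
    (hf : Continuous f) : Integrable (fun y => rho r (F.x y - ξ) * f (F.z y)) F.μ :=
  F.FlatB_smul (g := fun q => f q.2) (hf.comp continuous_snd)
    (F.FlatB_ix (g := fun x => rho r (x - ξ))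
      ((contDiff_rho r).continuous.comp (continuous_id.sub continuous_const)))

theorem TubeH_grad (m : ℕ) : ∃ C : ℝ, 1 ≤ C ∧ ∀ {N Q : ℕ} {A : ℝ} (F : Flat m N Q A)
    (f : E N → ℝ) (f1 r δ : ℝ), ContDiff ℝ 1 f → (∀ z, |f z| ≤ 1) →
    (∀ z, ‖fderiv ℝ f z‖ ≤ f1) → 0 < δ → F.τ ≤ r →
    ContDiff ℝ 1 (fun ξ => ∫ y, rho r (F.x y - ξ) * f (F.z y) ∂F.μ) ∧ ∀ ξ : E m, ‖ξ‖ + r < 10 →
      ‖fderiv ℝ (fun ξ => ∫ y, rho r (F.x y - ξ) * f (F.z y) ∂F.μ) ξ‖ ≤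
        m * (C / r ^ (m + 1) * F.DS (closedBall ξ r)) +
          f1 * (δ * (A * 2 ^ m / cg m) + δ⁻¹ * (C / r ^ m * F.DS (closedBall ξ r))) := by
  obtain ⟨C, hC, hb⟩ := rho_bd m
  refine ⟨C, hC, fun {N Q A} F f f1 r δ hf h0 h1 hδ hτ => ?_⟩
  have hr : 0 < r := F.τ_pos.trans_le hτ
  have hf1 : 0 ≤ f1 := (norm_nonneg _).trans (h1 0)
  have hw : Integrable (fun y => f (F.z y)) F.μ :=
    F.integrable_of_bd (hf.continuous.measurable.comp F.measurable_all.2.1) (M := 1)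
      fun y _ _ => h0 _
  have hρ : ContDiff ℝ 1 (rho r : E m → ℝ) := (contDiff_rho r).of_le (by norm_num)
  have hc := conv_meas1 F.μ F.measurable_all.1 hw hρ (a0 := C / r ^ m) (a1 := C / r ^ (m + 1))
    (fun x => by simpa using (hb r hr 0).1.b0 x) (fun x => by simpa using (hb r hr 0).1.b1 x)
  simp only [smul_eq_mul] at hc
  refine ⟨hc.1, fun ξ hξ => ?_⟩
  have hA := F.A_ge
  have hcg := cg_pos m
  have hD := (F.DS_mono (subset_refl (closedBall ξ r))).1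
  refine ContinuousLinearMap.opNorm_le_bound _ (by positivity) fun e => ?_
  obtain ⟨φ, hφe⟩ : ∃ φ : E m → ℝ, φ = fun x => rho r (x - ξ) := ⟨_, rfl⟩
  have hφ : ContDiff ℝ 1 φ := hφe ▸ hρ.comp (contDiff_id.sub contDiff_const)
  have hφd : ∀ x, DifferentiableAt ℝ φ x := hφ.differentiable one_ne_zero
  have hφs : tsupport φ ⊆ closedBall ξ r := hφe ▸ tsupport_rho hr ξ
  have hφ0 : ∀ x, 0 ≤ φ x := fun x => hφe ▸ rho_nonneg hr _
  have hbd : Bd2 φ (C / r ^ m) (C / r ^ (m + 1)) (C / r ^ (m + 2)) := hφe ▸ (hb r hr ξ).1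
  have hVs : tsupport (fun x => φ x • e) ⊆ closedBall ξ r :=
    (tsupport_smul_subset_left _ _).trans hφs
  have hV1 : ContDiff ℝ 1 fun x => φ x • e := hφ.smul contDiff_const
  have hV : Test 1 (fun x => φ x • e) (ball 0 10) :=
    ⟨hV1, (isCompact_closedBall ξ r).of_isClosed_subset (isClosed_tsupport _) hVs,
      hVs.trans (closedBall_subset_ball' (by rw [dist_zero_right]; linarith))⟩
  have e1 : ∀ x, dv (fun x => φ x • e) x = fderiv ℝ (rho r) (x - ξ) e := fun x => by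
    rw [dv_smul (hφd x) (differentiableAt_const e), hφe, fderiv_comp_sub]
    simp [dv]
  have i1 := F.FlatB_smul (g := fun q => f q.2) (hf.continuous.comp continuous_snd)
    (F.FlatB_ix (continuous_dv hV1))
  have i2 := F.FlatB_smul (g := fun q => f q.2) (hf.continuous.comp continuous_snd)
    (F.FlatB_iND (hV1.continuous_fderiv one_ne_zero))
  have i3 := F.FlatB_app (g := fun q => fderiv ℝ f q.2)
    ((hf.continuous_fderiv one_ne_zero).comp continuous_snd) (F.FlatB_iBt hV1.continuous)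
  have key := F.fv_h hV hf
  simp only [sub_smul] at key
  rw [integral_sub i1 i2, sub_eq_iff_eq_add, neg_add_eq_sub, ← integral_sub i2 i3] at key
  simp only [e1, smul_eq_mul] at key
  have j1 := TubeB_intc F (hφ.continuous_fderiv one_ne_zero).norm
  have j2 := F.FlatB_ix hφ.continuous
  have j3 := TubeB_intc F hφ.continuous
  have j4 : Integrable (fun y => δ * φ (F.x y) + δ⁻¹ * (φ (F.x y) * F.d y)) F.μ :=
    (j2.const_mul _).add (j3.const_mul _)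
  have b1 : ∫ y, ‖fderiv ℝ φ (F.x y)‖ * F.d y ∂F.μ ≤ C / r ^ (m + 1) * F.DS (closedBall ξ r) :=
    (le_abs_self _).trans (F.abs_DD_le (hφ.continuous_fderiv one_ne_zero).norm.measurable
      (fun x => by rw [abs_norm]; exact hbd.b1 x) measurableSet_closedBall fun x hx => by
        rw [Function.notMem_support.1 fun h => hx (hφs (support_fderiv_subset ℝ h)), norm_zero])
  have b2 : ∫ y, φ (F.x y) ∂F.μ ≤ A * 2 ^ m / cg m := hφe ▸ F.integral_rho_le ξ hτ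
  have b3 : ∫ y, φ (F.x y) * F.d y ∂F.μ ≤ C / r ^ m * F.DS (closedBall ξ r) :=
    (le_abs_self _).trans (F.abs_DD_le hφ.continuous.measurable hbd.b0 measurableSet_closedBall
      fun x hx => image_eq_zero_of_notMem_tsupport fun h => hx (hφs h))
  rw [hc.2, norm_neg, key]
  refine (norm_integral_le_of_norm_le (g := fun y => (m * (‖fderiv ℝ φ (F.x y)‖ * F.d y) +
    f1 * (δ * φ (F.x y) + δ⁻¹ * (φ (F.x y) * F.d y))) * ‖e‖)
    (((j1.const_mul _).add (j4.const_mul _)).mul_const _)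
    (Eventually.of_forall fun y => ?_)).trans ?_
  · have hd := (F.d_bd y).1
    have a1 : |F.ND y (fderiv ℝ (fun x => φ x • e) (F.x y))| ≤
        m * F.d y * (‖fderiv ℝ φ (F.x y)‖ * ‖e‖) := by
      refine (abs_sum_NF_le F.ι (F.fr.orth y) _).trans (le_of_eq ?_)
      rw [fderiv_smul_const (hφd _), ContinuousLinearMap.norm_smulRight_apply]
      rfl
    have a2 : ‖F.Bt y (φ (F.x y) • e)‖ ≤ √(F.d y) * (φ (F.x y) * ‖e‖) := by
      refine (BF_bd F.ι (F.fr.orth y) _).2.2.1.trans (le_of_eq ?_)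
      rw [norm_smul, Real.norm_of_nonneg (hφ0 _)]
      rfl
    have a3 : √(F.d y) ≤ δ + δ⁻¹ * F.d y := by
      have := Tb.TubeC_amgm hd one_pos (inv_pos.2 hδ)
      rw [inv_inv, one_mul, div_one, mul_one] at this
      linarith only [this]
    have a4 : ‖fderiv ℝ f (F.z y) (F.Bt y (φ (F.x y) • e))‖ ≤
        f1 * ((δ + δ⁻¹ * F.d y) * (φ (F.x y) * ‖e‖)) :=
      ((fderiv ℝ f (F.z y)).le_opNorm _).trans (mul_le_mul (h1 _) (a2.trans
        (mul_le_mul_of_nonneg_right a3 (mul_nonneg (hφ0 _) (norm_nonneg _)))) (norm_nonneg _) hf1)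
    have a5 : ‖F.ND y (fderiv ℝ (fun x => φ x • e) (F.x y)) * f (F.z y)‖ ≤
        m * F.d y * (‖fderiv ℝ φ (F.x y)‖ * ‖e‖) := by
      rw [Real.norm_eq_abs, abs_mul]
      exact (mul_le_of_le_one_right (abs_nonneg _) (h0 _)).trans a1
    refine (norm_sub_le _ _).trans ((add_le_add a5 a4).trans (le_of_eq ?_))
    ring
  · rw [integral_mul_const, integral_add (j1.const_mul _) (j4.const_mul _), integral_const_mul,
      integral_const_mul, integral_add (j2.const_mul _) (j3.const_mul _), integral_const_mul, integral_const_mul]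
    gcongr

/-- the local mass near a height -/
noncomputable def TubeH_mm {Q : ℕ} {A : ℝ} (F : Flat m N Q A) (r t : ℝ) (h : E N) (ξ : E m) : ℝ :=
  ∫ y, rho r (F.x y - ξ) * bmp t (F.z y - h) ∂F.μ

theorem TubeH_var (k Q : ℕ) (A C C' : ℝ) : ∃ Λ₀ : ℝ, ∀ {N : ℕ} {T : TI k N Q A C} (B : Tb T C'),
    Λ₀ ≤ T.Λ → ∀ t, T.G / 2 ≤ t → ∀ h, ∀ v ∈ B.Sh1, ∀ v' ∈ B.Sh1,
    |TubeH_mm T.toFlat T.rp t h v - TubeH_mm T.toFlat T.rp t h v'| ≤ T.sm / 4 := by
  obtain ⟨C1, hC1, H1⟩ := TubeH_grad (k + 2)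
  obtain ⟨C2, hC2, H2⟩ := bmp_bd
  refine ⟨4 * ((k + 2 : ℕ) * C1 + 2 * C2 * (A * 2 ^ (k + 2) / cg (k + 2)) + 2 * C2 * C1),
    fun {N T} B hΛ t ht h v hv v' hv' => ?_⟩
  obtain ⟨η0, η1, s1, Gq, rp1, hc, hn⟩ := TubeH_num T
  obtain ⟨-, -, -, -, n5, n6, -⟩ := T.num
  obtain ⟨-, -, -, -, -, rp2, -, hτ⟩ := TubeC_num T
  have hG := T.G_pos
  have ht0 : 0 < t := by linarith only [ht, hG]
  have hτ' : T.τ ≤ T.rp := by simpa using hτ 1 (by linarith only [n6, rp2, T.Λ_ge])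
  obtain ⟨b1, b2, -, -, b5, -⟩ := H2 t ht0 h
  have hc' := hc _ hΛ
  generalize T.sm / T.Λ = η at η0 η1 hc' hn
  obtain ⟨g1, g2⟩ := H1 T.toFlat (fun z => bmp t (z - h)) (2 * C2 / T.G) T.rp (T.G * η)
    (b1.of_le (by norm_num)) b5.b0 (fun z => (b5.b1 z).trans (by
      rw [div_le_div_iff₀ ht0 hG]; nlinarith only [ht, hC2])) (by positivity) hτ'
  refine (B.path g1 (fun w hw => (g2 w (by linarith only [n6, rp2, B.TubeH_norm hw])).trans ?_) hv hv').trans hc'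
  have hD := B.TubeH_out hw (r := T.rp) (by linarith only [n6])
  have d1 : T.DS (closedBall w T.rp) ≤ T.rp ^ (k + 2 + 1) * η := by
    refine hD.trans ((hn (k + 2 + 1) (by nlinarith only [])).2.trans ?_)
    refine (mul_le_of_le_one_left (by positivity) (pow_le_one₀ hG.le (by linarith only [Gq, n5, n6, rp2]))).trans ?_
    exact mul_le_mul_of_nonneg_left (pow_le_of_le_one η0.le η1 two_ne_zero) (by positivity)
  have d2 := hD.trans (hn (k + 2) (by nlinarith only [])).2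
  have a1 : C1 / T.rp ^ (k + 2 + 1) * T.DS (closedBall w T.rp) ≤ C1 * η := by
    refine (mul_le_mul_of_nonneg_left d1 (by positivity)).trans (le_of_eq ?_)
    field_simp
  have a2 : (T.G * η)⁻¹ * (C1 / T.rp ^ (k + 2) * T.DS (closedBall w T.rp)) ≤ T.G * η * C1 := by
    refine (mul_le_mul_of_nonneg_left (mul_le_mul_of_nonneg_left d2 (by positivity))
      (by positivity)).trans (le_of_eq ?_)
    field_simp
  refine (add_le_add (mul_le_mul_of_nonneg_left a1 (Nat.cast_nonneg _))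
    (mul_le_mul_of_nonneg_left (add_le_add le_rfl a2) (by positivity))).trans (le_of_eq ?_)
  field_simp
  ring

theorem TubeH_sc (m : ℕ) (hm : 1 ≤ m) : ∃ C : ℝ, 1 ≤ C ∧ ∀ {N Q : ℕ} {A : ℝ} (F : Flat m N Q A)
    (G a b t : ℝ) (h : E N) (ξ : E m), 0 < G → G ≤ 4 * a → a ≤ b → G ≤ t → ‖ξ‖ + b < 10 →
    |TubeH_mm F a t h ξ - TubeH_mm F b t h ξ| ≤ C / G ^ 2 * F.UU a (4 * b) ξ := by
  obtain ⟨C1, hC1, H1⟩ := Flat.scale_change m hm
  obtain ⟨C2, hC2, H2⟩ := bmp_bd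
  refine ⟨C1 * (16 + C2), by nlinarith only [hC1, hC2], fun {N Q A} F G a b t h ξ hG ha hab ht hξ => ?_⟩
  have ht0 : 0 < t := by linarith
  have ha0 : 0 < a := by linarith
  obtain ⟨b1, b2, -, -, b5, -⟩ := H2 t ht0 h
  have h1 := H1 F (fun z => bmp t (z - h)) 1 (C2 / t ^ 2) a b ξ (b1.of_le (by norm_num))
    (fun z _ => ⟨b5.b0 z, b5.b2 z⟩) ha0 hab hξ
  refine le_trans h1 (mul_le_mul_of_nonneg_right ?_
    (F.UU_mono ha0 le_rfl (by linarith) le_rfl ξ).1)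
  rw [mul_div_assoc, add_div]
  refine mul_le_mul_of_nonneg_left (add_le_add ?_ ?_) (by linarith)
  · rw [div_le_div_iff₀ (by positivity) (by positivity)]
    nlinarith only [hG, ha]
  · gcongr

theorem TubeH_sc1 (k : ℕ) (hk : 1 ≤ k) (Q : ℕ) (A C C' : ℝ) : ∃ Λ₀ : ℝ, ∀ {N : ℕ}
    {T : TI k N Q A C} (B : Tb T C'), Λ₀ ≤ T.Λ → ∀ t, T.G ≤ t → ∀ h, ∀ ξ ∈ B.Sh1,
    |TubeH_mm T.toFlat T.rq t h ξ - TubeH_mm T.toFlat T.rp t h ξ| ≤ T.sm / 4 := by
  obtain ⟨C1, hC1, H1⟩ := TubeH_sc (k + 2) (by omega)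
  obtain ⟨C2, hC2, H2⟩ := Gm_bd (k + 2) (by omega)
  refine ⟨4 * (C1 * C2), fun {N T} B hΛ t ht h ξ hξ => ?_⟩
  obtain ⟨η0, η1, s1, Gq, rp1, hc, hn⟩ := TubeH_num T
  obtain ⟨-, -, -, n4, n5, n6, -⟩ := T.num
  have hG := T.G_pos
  have hc' := hc _ hΛ
  generalize T.sm / T.Λ = η at η0 η1 hc' hn
  have h4 : T.rq ≤ 4 * T.rp := by linarith only [n4, n5]
  refine (H1 T.toFlat T.G T.rq T.rp t h ξ hG (by linarith only [Gq, n4]) n5 ht
    (by linarith only [rp1, B.TubeH_norm hξ])).trans (le_trans ?_ hc')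
  have a1 : T.UU T.rq (4 * T.rp) ξ ≤ C2 / T.rq ^ k * T.DS (closedBall ξ (4 * T.rp)) := by
    refine (le_abs_self _).trans (T.abs_DD_le (Flat.FlatD_admG n4 h4 ξ).1 (fun x => ?_)
      measurableSet_closedBall fun x hx => (Gm_eq_zero n4 h4 ?_).1)
    · rw [abs_of_nonneg (Gm_nonneg n4 h4 _).1]
      refine (H2 _ _ n4 h4 _).trans ?_
      have h5 : T.rq ≤ max ‖x - ξ‖ T.rq := le_max_right _ _
      generalize max ‖x - ξ‖ T.rq = u at h5
      have h6 : 0 < u := n4.trans_le h5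
      rw [pow_add, mul_div_mul_right _ _ (by positivity)]
      gcongr
    · rw [mem_closedBall, dist_eq_norm, not_le] at hx
      exact hx.le
  have a2 := (B.TubeH_out hξ le_rfl).trans (hn ((k + 4) * k) (by nlinarith only [hk])).2
  rw [pow_mul, ← TI.rq] at a2
  refine (mul_le_mul_of_nonneg_left (a1.trans (mul_le_mul_of_nonneg_left a2 (by positivity)))
    (by positivity)).trans ?_
  refine le_trans (le_of_eq ?_) (mul_le_mul_of_nonneg_left
    (pow_le_of_le_one η0.le η1 two_ne_zero) (by positivity))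
  field_simp

theorem TubeH_UU {k Q : ℕ} {A C : ℝ} (T : TI k N Q A C) {v : E (k + 2)} (hv : T.U v ≤ 1) :
    T.UU T.G (30 * T.rp) v ≤ T.G ^ 2 / T.L := by
  obtain ⟨-, -, -, -, -, -, -, -, -, -, -, n12, -⟩ := T.num
  have hG := T.G_pos
  rw [TI.U, div_mul_eq_mul_div, div_le_one (by positivity)] at hv
  rwa [le_div_iff₀ (by linarith), mul_comm]

theorem TubeH_sc2 (k Q : ℕ) (A C : ℝ) : ∃ Λ₀ : ℝ, ∀ {N : ℕ} (T : TI k N Q A C), Λ₀ ≤ T.Λ →
    ∀ t, T.G ≤ t → ∀ h v ξ, ‖ξ‖ ≤ 1 → T.U v ≤ 1 → ‖ξ - v‖ ≤ T.ak / 4 →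
    |TubeH_mm T.toFlat (T.ak / 4) t h ξ - TubeH_mm T.toFlat T.rp t h ξ| ≤ T.sm / 4 := by
  obtain ⟨C1, hC1, H1⟩ := TubeH_sc (k + 2) (by omega)
  obtain ⟨C2, hC2, H2⟩ := Gm_move (k + 2)
  refine ⟨4 * (C1 * C2), fun {N} T hΛ t ht h v ξ hξ hv hd => ?_⟩
  obtain ⟨η0, η1, s1, Gq, rp1, hc, hn⟩ := TubeH_num T
  obtain ⟨-, -, -, n4, n5, n6, -, -, -, -, -, n12, -⟩ := T.num
  obtain ⟨-, ak0, Ga, -, ap, -⟩ := TubeC_num T
  have hG := T.G_pos
  have hc' := hc _ hΛ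
  generalize T.sm / T.Λ = η at η0 η1 hc' hn
  refine (H1 T.toFlat T.G (T.ak / 4) T.rp t h ξ hG (by linarith only [Ga]) (by linarith only [n4, n5, ap]) ht
    (by linarith)).trans (le_trans ?_ hc')
  have a1 : T.UU (T.ak / 4) (4 * T.rp) ξ ≤ C2 * T.UU T.G (30 * T.rp) v := by
    refine (T.DD_mono (Flat.FlatD_admG (by linarith) (by linarith only [n4, n5, ap]) ξ)
      ((Flat.FlatD_admG hG (by linarith only [Gq, n4, n5] : T.G ≤ 30 * T.rp) v).const_mul C2) fun x => ?_).trans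
      (T.lin_smul C2 _).1.le
    refine H2 _ _ _ _ hG (by linarith only [ak0, Ga]) (by linarith only [n4, n5, ap]) (by linarith) _ _ ?_
    rw [sub_sub_sub_cancel_left, norm_sub_rev]
    linarith
  have a2 : 1 / T.L ≤ η := by
    have h1 := (hn 0 (Nat.zero_le _)).1
    rw [pow_zero, one_mul] at h1
    exact (div_le_div_of_nonneg_right (one_le_pow₀ (by linarith only [T.Λ_ge])) (by linarith only [n12])).trans
      (h1.trans (pow_le_of_le_one η0.le η1 two_ne_zero))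
  refine (mul_le_mul_of_nonneg_left (a1.trans (mul_le_mul_of_nonneg_left (TubeH_UU T hv)
    (by positivity))) (by positivity)).trans ?_
  refine le_trans (le_of_eq ?_) (mul_le_mul_of_nonneg_left a2 (by positivity))
  field_simp

theorem TubeH_gap (k Q : ℕ) (A C C' : ℝ) : ∃ Λ₀ : ℝ, ∀ {N : ℕ} {T : TI k N Q A C} (B : Tb T C'),
    Λ₀ ≤ T.Λ → ∀ f g : E N → ℝ, Continuous f → Continuous g → (∀ z, |f z - g z| ≤ 1) →
    (∀ᵐ y ∂T.μ, T.x y ∈ B.Sh1 → T.U (T.x y) ≤ 1 → f (T.z y) = g (T.z y)) →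
    ∀ v ∈ B.Sh0, ∀ ξ, ‖ξ - v‖ ≤ T.rp →
    |∫ y, rho T.rp (T.x y - ξ) * f (T.z y) ∂T.μ - ∫ y, rho T.rp (T.x y - ξ) * g (T.z y) ∂T.μ| ≤
      T.sm / 4 := by
  obtain ⟨Λ1, H1⟩ := Tb.mass_U k Q A C C'
  refine ⟨max Λ1 (4 * (1 / cg (k + 2))), fun {N T} B hΛ f g hf hg h1 hae v hv ξ hξ => ?_⟩
  obtain ⟨η0, η1, s1, Gq, rp1, hc, hn⟩ := TubeH_num T
  obtain ⟨-, -, -, n4, n5, n6, -, -, -, -, -, n12, -⟩ := T.num
  have hc' := hc _ ((le_max_right _ _).trans hΛ)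
  generalize T.sm / T.Λ = η at η0 η1 hc' hn
  have hcg := cg_pos (k + 2)
  have hS : MeasurableSet (T.x ⁻¹' B.Sh) :=
    T.toFlat.measurable_all.1 B.measurable_all.2.2.2.2.2.1.measurableSet
  have iU := T.toFlat.FlatB_ix T.Fu_bd.1.continuous
  have U0 := fun x => (T.Fu_bd.2.2.2 x).1
  rw [← integral_sub (TubeH_int _ _ _ hf) (TubeH_int _ _ _ hg), ← Real.norm_eq_abs]
  refine (norm_integral_le_of_norm_le (g := fun y => 1 / (cg (k + 2) * T.rp ^ (k + 2)) *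
    (T.x ⁻¹' B.Sh).indicator (fun y => T.U (T.x y)) y) ((iU.indicator hS).const_mul _) ?_).trans
    (le_trans ?_ hc')
  · filter_upwards [hae] with y hy
    have i0 : 0 ≤ (T.x ⁻¹' B.Sh).indicator (fun y => T.U (T.x y)) y :=
      indicator_nonneg (fun y _ => U0 _) _
    rw [← mul_sub, Real.norm_eq_abs, abs_mul, abs_of_nonneg (rho_nonneg n6 _)]
    rcases le_total T.rp ‖T.x y - ξ‖ with hx | hx
    · rw [rho_eq_zero n6 hx, zero_mul]
      positivity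
    · obtain ⟨m1, m2⟩ := B.TubeH_near hv (w := T.x y)
        (by linarith [norm_sub_le_norm_sub_add_norm_sub (T.x y) ξ v])
      refine mul_le_mul (rho_le n6 _) ?_ (abs_nonneg _) (by positivity)
      rcases le_total (T.U (T.x y)) 1 with hU | hU
      · rw [hy m1 hU, sub_self, abs_zero]
        exact i0
      · rw [indicator_of_mem (show y ∈ T.x ⁻¹' B.Sh from m2)]
        exact (h1 _).trans hU
  · rw [integral_const_mul, integral_indicator hS]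
    have a1 := (H1 B ((le_max_left _ _).trans hΛ)).1
    have a2 : T.rp ^ 2 * T.Λ ^ 40 / T.L ≤ T.rp ^ (k + 2) * η := by
      rw [mul_div_assoc]
      refine (mul_le_of_le_one_left (by have := T.Λ_ge; positivity) (pow_le_one₀ n6.le rp1)).trans
        ((hn (k + 2) (by nlinarith only [])).1.trans ?_)
      exact mul_le_mul_of_nonneg_left (pow_le_of_le_one η0.le η1 two_ne_zero) (by positivity)
    refine (mul_le_mul_of_nonneg_left (a1.trans a2) (by positivity)).trans (le_of_eq ?_)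
    field_simp

theorem TubeH_box (k Q : ℕ) (A C C' : ℝ) : ∃ Λ₀ : ℝ, ∀ {N : ℕ} {T : TI k N Q A C} (B : Tb T C'),
    Λ₀ ≤ T.Λ → ∀ᵐ y ∂T.μ, T.x y ∈ B.Sh1 → T.U (T.x y) ≤ 1 →
      1 / 2 ≤ TubeH_mm T.toFlat T.rp (T.G / 2) (T.z y) (T.x y) := by
  obtain ⟨c, hc, H⟩ := Flat.box (k + 2) (by omega)
  refine ⟨c⁻¹, fun {N T} B hΛ => ?_⟩
  obtain ⟨ΛL, -, Ga, -, ap, rp2, -⟩ := TubeC_num T
  have hG := T.G_pos
  filter_upwards [T.ae] with y hy h1 h2
  refine H T.toFlat T.G T.rp (30 * T.rp) (T.x y) hG (by linarith) le_rfl (by linarith)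
    (by linarith only [Ga, ap, rp2, hG, B.TubeH_norm h1]) ((TubeH_UU T h2).trans ?_) y hy.2.1 hy.2.2
    (by rw [sub_self, norm_zero]; exact hG.le)
  rw [div_eq_inv_mul]
  refine mul_le_mul_of_nonneg_right ?_ (sq_nonneg _)
  exact inv_le_of_inv_le₀ hc (hΛ.trans ΛL)

theorem TubeH_le {Q : ℕ} {A : ℝ} (F : Flat m N Q A) {r : ℝ} (hr : F.τ ≤ r) (ξ : E m)
    {f g : E N → ℝ} (hf : Continuous f) (hg : Continuous g) (h : ∀ z, f z ≤ g z) :
    ∫ y, rho r (F.x y - ξ) * f (F.z y) ∂F.μ ≤ ∫ y, rho r (F.x y - ξ) * g (F.z y) ∂F.μ :=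
  integral_mono (TubeH_int F r ξ hf) (TubeH_int F r ξ hg) fun _ =>
    mul_le_mul_of_nonneg_left (h _) (rho_nonneg (F.τ_pos.trans_le hr) _)

theorem TubeH_le1 {Q : ℕ} {A : ℝ} (F : Flat m N Q A) {r : ℝ} (hr : F.τ ≤ r) (ξ : E m)
    {f : E N → ℝ} (hf : Continuous f) (h : ∀ z, f z ≤ 1) :
    ∫ y, rho r (F.x y - ξ) * f (F.z y) ∂F.μ ≤ A * 2 ^ m / cg m := by
  refine (TubeH_le F hr ξ hf continuous_const h).trans ?_
  simpa only [mul_one] using F.integral_rho_le ξ hr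

theorem TubeH_bmp {R : ℝ} (hR : 0 < R) (c : E N) : Continuous (fun z : E N => bmp R (z - c)) ∧
    ∀ z : E N, 0 ≤ bmp R z ∧ bmp R z ≤ 1 := by
  obtain ⟨C2, -, H2⟩ := bmp_bd
  exact ⟨(H2 R hR c).1.continuous, (H2 R hR c).2.1⟩

theorem TubeH_card {Q : ℕ} {A : ℝ} (F : Flat m N Q A) {r G : ℝ} (hr : F.τ ≤ r) (hG : 0 < G)
    (ξ : E m) (S : Finset (E N)) (h1 : ∀ c ∈ S, 1 / 4 ≤ TubeH_mm F r (G / 2) c ξ)
    (h2 : ∀ c ∈ S, ∀ c' ∈ S, c ≠ c' → 2 * G ≤ ‖c - c'‖) :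
    (S.card : ℝ) ≤ 4 * (A * 2 ^ m / cg m) := by
  have hG' : 0 < G / 2 := by linarith
  have a1 := TubeH_le1 F hr ξ (f := fun z => ∑ c ∈ S, bmp (G / 2) (z - c))
    (continuous_finsetSum _ fun c _ => (TubeH_bmp hG' c).1) fun z => by
      by_cases h : ∃ c ∈ S, ‖z - c‖ < G
      · obtain ⟨c, hc, hz⟩ := h
        rw [Finset.sum_eq_single_of_mem c hc fun c' hc' hne => FlatD_bmp_zero hG' (by
          have := norm_sub_le_norm_sub_add_norm_sub c' z c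
          rw [norm_sub_rev c' z] at this
          linarith only [hz, this, hne, h2 c' hc' c hc hne])]
        exact ((TubeH_bmp hG' c).2 _).2
      · push Not at h
        rw [Finset.sum_eq_zero fun c hc => FlatD_bmp_zero hG' (by linarith only [h c hc])]
        exact zero_le_one
  simp only [Finset.mul_sum] at a1
  rw [integral_finsetSum _ fun c _ => TubeH_int F r ξ (TubeH_bmp hG' c).1] at a1
  have a2 := Finset.card_nsmul_le_sum S _ _ h1
  rw [nsmul_eq_mul] at a2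
  have a3 := a2.trans a1
  linarith only [a3]

/-- The clusters of heights. -/
structure Cl {k N Q : ℕ} {A C C' : ℝ} {T : TI k N Q A C} (B : Tb T C') (C'' : ℝ) where
  cs : Finset (E N)
  R : ℝ
  θ : E N → ℝ
  R_ge : T.G ≤ R
  R_le : 4 * R ≤ T.g
  card : (cs.card : ℝ) ≤ C''
  sep : ∀ c ∈ cs, ∀ c' ∈ cs, c ≠ c' → 10 * R ≤ ‖c - c'‖
  cover : ∀ᵐ y ∂T.μ, T.x y ∈ B.Sh0 → T.U (T.x y) ≤ 1 → ∃ c ∈ cs, ‖T.z y - c‖ ≤ R
  θ_bd : ∀ c ∈ cs, 1 / 4 ≤ θ c ∧ θ c ≤ C''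
  near : ∀ c ∈ cs, ∀ ξ ∈ B.Sh0,
    |∫ y, rho T.rq (T.x y - ξ) * bmp R (T.z y - c) ∂T.μ - θ c| ≤ T.sm
  near_a : ∀ c ∈ cs, ∀ v ∈ B.Sh0, T.U v ≤ 1 → ∀ ξ, ‖ξ - v‖ ≤ T.ak / 4 → ∀ t, R ≤ t → t ≤ 4 * R →
    |∫ y, rho (T.ak / 4) (T.x y - ξ) * bmp t (T.z y - c) ∂T.μ - θ c| ≤ T.sm

/-- For `G / 2 ≤ t` let `m t h ξ = ∫ rho rp (x - ξ) * bmp t (z - h) dμ`.
1. By `conv_meas1` and `fv_h` for the field `rho rp (· - ξ) • e` and `f = bmp t (· - h)`, the
gradient of `m t h` on `Sh1` is at most `C / G * √(eps M / rp ^ m) + C eps M / rp ^ (m + 1)` (the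
ball of radius `rp` is in `Out`), which is at most `sm / 10` (`num`); by `path`, `m t h` varies by
at most `sm / 10` on `Sh1`.
2. If `Sh1` is empty take no cluster. Otherwise fix `p₀ ∈ Sh1` and call `h` heavy if
`1 / 4 ≤ m (G / 2) h p₀`. By `box` with `g = G`, `r = rp`, `rb = 30 rp`, `ξ = x y`, for almost
every `y` over `Sh1` with `U ≤ 1` the height `z y` is heavy. A `2 G`-separated set of heavy
heights has at most `4 A 2 ^ m / cg m` elements (disjoint supports, `integral_rho_le`); take one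
of maximal cardinality and apply `exists_cluster` with `R₀ = 2 G`. Put `θ c = m R c p₀`.
3. For `ξ` within `ak` of `Sh0` and `R ≤ t ≤ 4 R`, `bmp t (z - c) = bmp R (z - c)` at the covered
points, so `|m t c ξ - m R c ξ| ≤ C rp ^ (-m) ∫ U dμ over Sh` (`mass_U`).
4. `scale_change` from `rq` to `rp` (`UU rq (4 rp) ξ ≤ C eps M / rq ^ k` by `Gm_bd`), and from
`ak / 4` to `rp` (`UU (ak / 4) (4 rp) ξ ≤ C UU G (30 rp) v ≤ C G² / L` by `Gm_move`). -/
theorem exists_Cl (k : ℕ) (hk : 1 ≤ k) (Q : ℕ) (A C C' : ℝ) : ∃ C'' Λ₀ : ℝ, 1 ≤ C'' ∧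
    ∀ {N : ℕ} {T : TI k N Q A C} (B : Tb T C'), Λ₀ ≤ T.Λ → Nonempty (Cl B C'') := by
  obtain ⟨Λ1, H1⟩ := TubeH_var k Q A C C'
  obtain ⟨Λ2, H2⟩ := TubeH_sc1 k hk Q A C C'
  obtain ⟨Λ3, H3⟩ := TubeH_sc2 k Q A C
  obtain ⟨Λ4, H4⟩ := TubeH_gap k Q A C C'
  obtain ⟨Λ5, H5⟩ := TubeH_box k Q A C C'
  obtain ⟨A', hA'⟩ : ∃ A', A' = A * 2 ^ (k + 2) / cg (k + 2) := ⟨_, rfl⟩
  refine ⟨max 1 (4 * A'), max (max (max Λ1 Λ2) (max Λ3 Λ4)) (max Λ5 ((8 * 11 ^ ⌈4 * A'⌉₊) ^ 2)),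
    le_max_left _ _, fun {N T} B hΛ => ?_⟩
  simp only [max_le_iff] at hΛ
  obtain ⟨⟨⟨l1, l2⟩, l3, l4⟩, l5, l6⟩ := hΛ
  obtain ⟨-, -, s1, -⟩ := TubeH_num T
  obtain ⟨-, -, s0, -, -, n6, -⟩ := T.num
  obtain ⟨-, ak0, -, -, ap, -, -, hτ⟩ := TubeC_num T
  have hG := T.G_pos
  have hτ' : T.τ ≤ T.rp := by simpa using hτ 1 (by linarith [T.Λ_ge])
  have hg : T.G * (8 * 11 ^ ⌈4 * A'⌉₊) ≤ T.g :=
    (mul_le_mul_of_nonneg_left (Real.le_sqrt_of_sq_le l6) hG.le).trans T.Gg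
  have h01 : ∀ v ∈ B.Sh0, v ∈ B.Sh1 := fun v hv =>
    (B.TubeH_near hv (by rw [sub_self, norm_zero]; linarith)).1
  rcases B.Sh1.eq_empty_or_nonempty with he | ⟨p₀, hp₀⟩
  · have h1 : (1 : ℝ) ≤ 11 ^ ⌈4 * A'⌉₊ := one_le_pow₀ (by norm_num)
    refine ⟨⟨∅, T.G, fun _ => 0, le_rfl, by nlinarith only [hG, hg, h1], by simp, by simp,
      Eventually.of_forall fun y hy => ?_, by simp, by simp, by simp⟩⟩
    have := h01 _ hy
    rw [he] at this
    exact this.elim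
  obtain ⟨S, hS1, hS2, hS3⟩ := TubeH_net {h | 1 / 4 ≤ TubeH_mm T.toFlat T.rp (T.G / 2) h p₀}
    (δ := 2 * T.G) (n0 := 4 * A') (by linarith)
    fun S h1 h2 => hA' ▸ TubeH_card T.toFlat hτ' hG p₀ S h1 h2
  obtain ⟨cs, R, c1, c2, c3, c4, c5⟩ := exists_cluster S (R₀ := 2 * T.G) (by linarith)
  have hR : 0 < R := by linarith
  have hcov : ∀ᵐ y ∂T.μ, T.x y ∈ B.Sh1 → T.U (T.x y) ≤ 1 → ∃ c ∈ cs, ‖T.z y - c‖ ≤ R := by
    filter_upwards [H5 B l5] with y hy h1 h2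
    refine c5 _ (hS3 _ ?_)
    have a1 := hy h1 h2
    have a2 := (abs_le.1 (H1 B l1 (T.G / 2) le_rfl (T.z y) _ h1 _ hp₀)).2
    rw [mem_ofPred_eq]
    linarith
  have hA0 : 0 ≤ A' := by
    have := T.A_ge
    have := cg_pos (k + 2)
    rw [hA']
    positivity
  refine ⟨⟨cs, R, fun c => TubeH_mm T.toFlat T.rp R c p₀, by linarith, ?_, ?_, c4, ?_,
    fun c hc => ⟨?_, ?_⟩, fun c _ ξ hξ => ?_, fun c hc v hv hU ξ hξ t ht1 ht2 => ?_⟩⟩
  · have a1 : S.card ≤ ⌈4 * A'⌉₊ := by exact_mod_cast hS2.trans (Nat.le_ceil _)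
    have a2 : (11 : ℝ) ^ S.card ≤ 11 ^ ⌈4 * A'⌉₊ := pow_le_pow_right₀ (by norm_num) a1
    nlinarith only [hg, c3, hG, a2]
  · exact le_trans (by exact_mod_cast Finset.card_le_card c1) (hS2.trans (le_max_right _ _))
  · filter_upwards [hcov] with y hy h1 h2 using hy (h01 _ h1) h2
  · refine le_trans (hS1 c (c1 hc)) (TubeH_le T.toFlat hτ' p₀ (TubeH_bmp (by linarith) c).1
      (TubeH_bmp hR c).1 fun z => ?_)
    rcases le_total ‖z - c‖ R with h | h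
    · rw [FlatD_bmp_one hR h]
      exact ((TubeH_bmp (by linarith) c).2 _).2
    · rw [FlatD_bmp_zero (by linarith) (by linarith)]
      exact ((TubeH_bmp hR c).2 _).1
  · refine (TubeH_le1 T.toFlat hτ' p₀ (TubeH_bmp hR c).1 fun z => ((TubeH_bmp hR c).2 _).2).trans
      (le_trans ?_ (le_max_right _ _))
    rw [← hA']
    linarith
  · have a1 := H2 B l2 R (by linarith) c ξ (h01 ξ hξ)
    have a2 := H1 B l1 R (by linarith only [hG, c2]) c ξ (h01 ξ hξ) p₀ hp₀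
    refine (abs_sub_le _ _ _).trans ((add_le_add a1 a2).trans (by linarith))
  · have hξ1 := (B.TubeH_near hv (w := ξ) (by linarith)).1
    have ht0 : 0 < t := by linarith
    have a1 := H3 T l3 t (by linarith) c v ξ (by linarith only [B.TubeH_norm hξ1]) hU hξ
    have a2 := H1 B l1 R (by linarith only [hG, c2]) c ξ hξ1 p₀ hp₀
    have a3 := H4 B l4 (fun z => bmp t (z - c)) (fun z => bmp R (z - c)) (TubeH_bmp ht0 c).1
      (TubeH_bmp hR c).1 (fun z => by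
        have b1 := (TubeH_bmp ht0 c).2 (z - c)
        have b2 := (TubeH_bmp hR c).2 (z - c)
        exact abs_le.2 ⟨by linarith only [b1, b2, b1.1, b2.2], by linarith [b1.2, b2.1]⟩) (by
        filter_upwards [hcov] with y hy h1 h2
        obtain ⟨c', hc', hz⟩ := hy h1 h2
        by_cases e : c' = c
        · rw [e] at hz
          rw [FlatD_bmp_one hR hz, FlatD_bmp_one ht0 (hz.trans ht1)]
        · have b1 := norm_sub_le_norm_sub_add_norm_sub c' (T.z y) c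
          rw [norm_sub_rev c' (T.z y)] at b1
          have b2 := c4 c' hc' c hc e
          rw [FlatD_bmp_zero hR (by linarith only [hG, c2, hz, b1, b2]), FlatD_bmp_zero ht0 (by linarith only [hG, c2, ht2, hz, b1, b2])])
      v hv ξ (by linarith)
    refine (abs_sub_le _ _ _).trans ((add_le_add a1
      ((abs_sub_le _ _ _).trans (add_le_add a3 a2))).trans (by linarith only [s0]))

end Pool.Agent.MP_f6c0e6_an.Gen

end

section

/-! Auxiliary estimates for the variance of the slopes in a cluster. -/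

set_option autoImplicit false

open MeasureTheory Filter Topology Set Metric
open scoped ENNReal RealInnerProductSpace

namespace Pool.Agent.MP_f6c0e6_an.Gen

variable {m N : ℕ}

/-- the weighted Cauchy-Schwarz inequality -/
theorem TubeK_cs {Ω G : Type} [MeasurableSpace Ω] [NormedAddCommGroup G] [NormedSpace ℝ G]
    (ν : Measure Ω) {w f : Ω → ℝ} {h : Ω → G} (w0 : ∀ y, 0 ≤ w y) (hh : ∀ y, ‖h y‖ ≤ w y * f y)
    (i0 : Integrable w ν) (i1 : Integrable (fun y => w y * f y) ν)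
    (i2 : Integrable (fun y => w y * f y ^ 2) ν) :
    ‖∫ y, h y ∂ν‖ ^ 2 ≤ (∫ y, w y ∂ν) * ∫ y, w y * f y ^ 2 ∂ν := by
  have d := discrim_le_zero (a := ∫ y, w y ∂ν) (b := -2 * ∫ y, w y * f y ∂ν)
    (c := ∫ y, w y * f y ^ 2 ∂ν) fun t => by
      have h1 : 0 ≤ ∫ y, (w y * (t * t) + -2 * (w y * f y) * t + w y * f y ^ 2) ∂ν :=
        integral_nonneg fun y => by
          have h2 := mul_nonneg (w0 y) (sq_nonneg (t - f y))
          change 0 ≤ _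
          linarith
      have j : Integrable (fun y => w y * (t * t) + -2 * (w y * f y) * t) ν :=
        (i0.mul_const _).add ((i1.const_mul _).mul_const _)
      rwa [integral_add j i2, integral_add (i0.mul_const _) ((i1.const_mul _).mul_const _),
        integral_mul_const, integral_mul_const, integral_const_mul] at h1
  rw [discrim] at d
  have h1 : ‖∫ y, h y ∂ν‖ ≤ ∫ y, w y * f y ∂ν :=
    norm_integral_le_of_norm_le i1 (Eventually.of_forall hh)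
  have h2 := pow_le_pow_left₀ (norm_nonneg _) h1 2
  linarith

/-- Fubini with a bounded kernel -/
theorem TubeK_fub {X Ω : Type} [MeasurableSpace X] [MeasurableSpace Ω] (ν : Measure X)
    [IsFiniteMeasure ν] (κ : Measure Ω) [SFinite κ] {k : X → Ω → ℝ}
    (hk : Measurable fun q : X × Ω => k q.1 q.2) {M K : ℝ} (hb : ∀ s y, 0 ≤ k s y ∧ k s y ≤ M)
    {g : Ω → ℝ} (mg : Measurable g) (ig : Integrable g κ) (g0 : ∀ y, 0 ≤ g y)
    (hK : ∀ y, ∫ s, k s y ∂ν ≤ K) :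
    Integrable (fun s => ∫ y, k s y * g y ∂κ) ν ∧
      ∫ s, ∫ y, k s y * g y ∂κ ∂ν ≤ K * ∫ y, g y ∂κ := by
  obtain ⟨h1, h2⟩ := FlatB_fub ν κ (f := fun s y => k s y * g y) (hk.mul (mg.comp measurable_snd))
    (M := fun _ => M) (integrable_const M) ig fun s y => by
      rw [abs_of_nonneg (mul_nonneg (hb s y).1 (g0 y))]
      exact mul_le_mul_of_nonneg_right (hb s y).2 (g0 y)
  refine ⟨h1, ?_⟩
  rw [← h2, ← integral_const_mul]
  refine integral_mono_of_nonneg (Eventually.of_forall fun y => integral_nonneg fun s =>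
    mul_nonneg (hb s y).1 (g0 y)) (ig.const_mul _) (Eventually.of_forall fun y => ?_)
  simp only [integral_mul_const]
  exact mul_le_mul_of_nonneg_right (hK y) (g0 y)

/-- the mass of the error kernel -/
theorem TubeK_ker (m : ℕ) : ∃ C : ℝ, 1 ≤ C ∧ ∀ a : ℝ, 0 < a → ∀ v : E m,
    Integrable (fun ξ => 1 / (max ‖v - ξ‖ a) ^ (m + 1)) ∧
      ∫ ξ, 1 / (max ‖v - ξ‖ a) ^ (m + 1) ≤ C / a := by
  have hf : Module.finrank ℝ (E m) = m := finrank_euclideanSpace_fin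
  have c1 : Continuous fun x : E m => 1 / (max ‖x‖ 1) ^ (m + 1) :=
    continuous_const.div ((continuous_norm.max continuous_const).pow _) fun x =>
      (pow_pos (lt_max_of_lt_right one_pos) _).ne'
  have i1 : Integrable fun x : E m => 1 / (max ‖x‖ 1) ^ (m + 1) := by
    have h := integrable_one_add_norm (E := E m) (μ := volume) (r := ((m + 1 : ℕ) : ℝ))
      (by rw [hf]; exact_mod_cast Nat.lt_succ_self m)
    refine (h.const_mul (2 ^ (m + 1))).mono' c1.aestronglyMeasurable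
      (Eventually.of_forall fun x => ?_)
    have p0 : 0 < max ‖x‖ 1 := lt_max_of_lt_right one_pos
    have p1 : 0 < 1 + ‖x‖ := by positivity
    rw [Real.norm_of_nonneg (by positivity), Real.rpow_neg p1.le, Real.rpow_natCast,
      ← div_eq_mul_inv, ← div_pow, ← one_div_pow]
    refine pow_le_pow_left₀ (by positivity) ?_ _
    rw [div_le_div_iff₀ p0 p1]
    linarith [le_max_left ‖x‖ 1, le_max_right ‖x‖ 1]
  refine ⟨max 1 (∫ x : E m, 1 / (max ‖x‖ 1) ^ (m + 1)), le_max_left _ _, fun a ha v => ?_⟩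
  have e : ∀ x : E m, 1 / (max ‖x‖ a) ^ (m + 1) =
      (a ^ (m + 1))⁻¹ * (1 / (max ‖a⁻¹ • x‖ 1) ^ (m + 1)) := fun x => by
    have h1 : max ‖x‖ a = a * max ‖a⁻¹ • x‖ 1 := by
      rw [mul_max_of_nonneg _ _ ha.le, norm_smul, norm_inv, Real.norm_of_nonneg ha.le,
        mul_inv_cancel_left₀ ha.ne', mul_one]
    rw [h1, mul_pow, one_div, mul_inv, one_div]
  have i2 : Integrable fun x : E m => 1 / (max ‖x‖ a) ^ (m + 1) := by
    simp only [e]
    exact (i1.comp_smul (inv_ne_zero ha.ne')).const_mul _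
  refine ⟨i2.comp_sub_left v, ?_⟩
  rw [integral_sub_left_eq_self (fun x : E m => 1 / (max ‖x‖ a) ^ (m + 1)) volume v]
  simp only [e]
  rw [integral_const_mul, Measure.integral_comp_inv_smul_of_nonneg volume
    (fun x : E m => 1 / (max ‖x‖ 1) ^ (m + 1)) ha.le, hf, smul_eq_mul, ← mul_assoc, mul_comm,
    div_eq_mul_inv _ a]
  have e2 : (a ^ (m + 1))⁻¹ * a ^ m = a⁻¹ := by
    rw [pow_succ]
    field_simp
  rw [e2]
  exact mul_le_mul_of_nonneg_right (le_max_right _ _) (by positivity)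

theorem TubeK_sq4 {G : Type} [NormedAddCommGroup G] (a b c d : G) :
    ‖a + b + c + d‖ ^ 2 ≤ 4 * (‖a‖ ^ 2 + ‖b‖ ^ 2 + ‖c‖ ^ 2 + ‖d‖ ^ 2) := by
  have h : ‖a + b + c + d‖ ≤ ‖a‖ + ‖b‖ + ‖c‖ + ‖d‖ :=
    (norm_add_le _ _).trans (add_le_add norm_add₃_le le_rfl)
  refine (pow_le_pow_left₀ (norm_nonneg _) h 2).trans ?_
  nlinarith only [sq_nonneg (‖a‖ - ‖b‖), sq_nonneg (‖a‖ - ‖c‖), sq_nonneg (‖a‖ - ‖d‖),
    sq_nonneg (‖b‖ - ‖c‖), sq_nonneg (‖b‖ - ‖d‖), sq_nonneg (‖c‖ - ‖d‖)]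

theorem TubeK_sq3 {G : Type} [NormedAddCommGroup G] (p q r s : G) :
    ‖p - s‖ ^ 2 ≤ 3 * (‖p - q‖ ^ 2 + ‖q - r‖ ^ 2 + ‖s - r‖ ^ 2) := by
  have h : ‖p - s‖ ≤ ‖p - q‖ + ‖q - r‖ + ‖s - r‖ := by
    rw [norm_sub_rev s r]
    have e : p - s = p - q + (q - r) + (r - s) := by abel
    rw [e]
    exact norm_add₃_le
  refine (pow_le_pow_left₀ (norm_nonneg _) h 2).trans ?_
  nlinarith only [sq_nonneg (‖p - q‖ - ‖q - r‖), sq_nonneg (‖p - q‖ - ‖s - r‖),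
    sq_nonneg (‖q - r‖ - ‖s - r‖)]

theorem TubeK_ev (i : Fin m) : ‖(ev i : E m)‖ = 1 := by
  simp [ev]

namespace Flat

variable {Q : ℕ} {A : ℝ} (F : Flat m N Q A)

/-- averaging over a small ball -/
theorem TubeK_avg {a : ℝ} (ha : 0 < a) (hτ : F.τ ≤ 4 * a) {Z : Set (E N)} (hZ : MeasurableSet Z)
    {S H : E N → ℝ} {W : E m → ℝ} (S0 : ∀ y, 0 ≤ S y) (iH : IntegrableOn H Z F.μ)
    (mW : Measurable W) (iW : Integrable W) (W0 : ∀ ξ, 0 ≤ W ξ)
    (h : ∀ y ∈ Z, ∀ ξ, ‖ξ - F.x y‖ < a → S y ≤ H y + W ξ) :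
    ∫ y in Z, S y ∂F.μ ≤ ∫ y in Z, H y ∂F.μ + 4 ^ m * (A * 2 ^ m / cg m) * ∫ ξ, W ξ := by
  obtain ⟨mx, -⟩ := F.measurable_all
  obtain ⟨f1, f2⟩ := TubeK_fub (F.μ.restrict Z) volume (k := fun y ξ => rho a (ξ - F.x y))
    ((contDiff_rho a).continuous.measurable.comp (measurable_snd.sub (mx.comp measurable_fst)))
    (fun y ξ => ⟨rho_nonneg ha _, rho_le ha _⟩) mW iW W0
    (fun ξ => TubeC_rho F Z ξ ha (by norm_num : (1 : ℝ) ≤ 4) hτ)
  refine le_trans ?_ (add_le_add le_rfl f2)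
  rw [← integral_add iH f1]
  refine integral_mono_of_nonneg (Eventually.of_forall S0) (iH.add f1)
    ((ae_restrict_iff' hZ).2 (Eventually.of_forall fun y hy => ?_))
  have i0 : Integrable fun ξ : E m => rho a (ξ - F.x y) := (FlatC_adm ha (F.x y)).integrable
  have i1 : Integrable fun ξ : E m => rho a (ξ - F.x y) * W ξ :=
    iW.bdd_mul i0.aestronglyMeasurable (c := 1 / (cg m * a ^ m)) (Eventually.of_forall fun ξ => by
      rw [Real.norm_of_nonneg (rho_nonneg ha _)]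
      exact rho_le ha _)
  have h1 : ∫ ξ, rho a (ξ - F.x y) * (S y - H y) ≤ ∫ ξ, rho a (ξ - F.x y) * W ξ := by
    refine integral_mono (i0.mul_const _) i1 fun ξ => ?_
    rcases le_or_gt a ‖ξ - F.x y‖ with h1 | h1
    · simp only [rho_eq_zero ha h1, zero_mul, le_refl]
    · exact mul_le_mul_of_nonneg_left (by linarith [h y hy ξ h1]) (rho_nonneg ha _)
  rw [integral_mul_const, integral_rho ha, one_mul] at h1
  show S y ≤ H y + ∫ ξ, rho a (ξ - F.x y) * W ξ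
  linarith

end Flat

theorem TubeK_kbd {a : ℝ} (ha : 0 < a) (v : E m) : 0 ≤ 1 / (max ‖v‖ a) ^ (m + 1) ∧
    1 / (max ‖v‖ a) ^ (m + 1) ≤ 1 / a ^ (m + 1) :=
  ⟨(one_div_pos.2 (pow_pos (lt_max_of_lt_right ha) _)).le,
    one_div_le_one_div_of_le (pow_pos ha _) (pow_le_pow_left₀ ha.le (le_max_right _ _) _)⟩

theorem TubeK_alg {r a c G d : ℝ} (n : ℕ) (ha : 0 < a) (har : a ≤ r) (hc : 0 < c) (hd : 0 ≤ d)
    (h : c * r ^ 2 / r ^ n ≤ G) : d / r ^ (n + 1) ≤ 1 / (c * a ^ 3) * (G * d) := by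
  have hr : 0 < r := ha.trans_le har
  have h1 : d / r ^ (n + 1) = 1 / (c * r ^ 3) * (c * r ^ 2 / r ^ n * d) := by
    field_simp
    ring
  rw [h1]
  refine mul_le_mul (one_div_le_one_div_of_le (by positivity) ?_)
    (mul_le_mul_of_nonneg_right h hd) (by positivity) (by positivity)
  exact mul_le_mul_of_nonneg_left (pow_le_pow_left₀ ha.le har 3) hc.le

/-- the change of scale of the gradient of the mean -/
theorem TubeK_two (m : ℕ) (hm : 1 ≤ m) (N : ℕ) : ∃ C : ℝ, 1 ≤ C ∧ ∀ {Q : ℕ} {A : ℝ}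
    (F : Flat m N Q A) (R a b t : ℝ) (c : E N) (Z O : Set (E m)), 0 < R → 0 < a → a ≤ b → b ≤ 1 →
    0 < t → MeasurableSet Z → Z ⊆ ball 0 1 → MeasurableSet O →
    (∀ ξ ∈ Z, ball ξ b ⊆ O ∧ F.UU a (4 * b) ξ ≤ t) →
    IntegrableOn (fun ξ => ∑ i, ‖fderiv ℝ (F.uc R c a) ξ (ev i) -
      fderiv ℝ (F.uc R c b) ξ (ev i)‖ ^ 2) Z ∧
    ∫ ξ in Z, ∑ i, ‖fderiv ℝ (F.uc R c a) ξ (ev i) - fderiv ℝ (F.uc R c b) ξ (ev i)‖ ^ 2 ≤
      C * (t / R ^ 2 + R ^ 2 * t / a ^ 4) * F.DS O := by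
  obtain ⟨Cs, hCs, Hs⟩ := sg_bd
  obtain ⟨Cr, hCr, Hr⟩ := uc_rep m hm
  obtain ⟨c0, hc0, Hg⟩ := Gm_ge m
  obtain ⟨Ck, hCk, Hk⟩ := TubeK_ker m
  refine ⟨16 * N * Cs ^ 2 + 2 * m * Cr ^ 2 * Ck / c0 + 1, le_add_of_nonneg_left (by positivity),
    fun F R a b t c Z O hR ha hab hb1 ht mZ hZ mO H => ?_⟩
  obtain ⟨-, -, -, -, -, iσ, bσ⟩ := Hs F R c hR
  obtain ⟨mx, -, -, -, md, -⟩ := F.measurable_all
  have hb : 0 < b := ha.trans_le hab
  have d0 : ∀ y, 0 ≤ F.d y := fun y => (F.d_bd y).1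
  have q0 : 0 < Cs / R := by positivity
  obtain ⟨-, j2, j3⟩ := trunc_vec (F.μ.restrict (F.x ⁻¹' O)) mx (ρ := 10)
    (ae_restrict_of_ae (F.ae.mono fun y hy => hy.1.le)) (w := fun y => Cs / R * F.d y)
    (F.integrable_d.const_mul _).integrableOn iσ.integrableOn (Eventually.of_forall bσ) ha hab
    (mul_pos q0 ht)
  have : IsFiniteMeasure (volume.restrict Z) :=
    isFiniteMeasure_restrict.2 (isBounded_ball.subset hZ).measure_lt_top.ne
  have mk : Measurable fun v : E m => 1 / (max ‖v‖ a) ^ (m + 1) := by fun_prop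
  obtain ⟨e1, e2⟩ := TubeK_fub (volume.restrict Z) (F.μ.restrict (F.x ⁻¹' O))
    (k := fun ξ y => 1 / (max ‖F.x y - ξ‖ a) ^ (m + 1))
    (mk.comp ((mx.comp measurable_snd).sub measurable_fst)) (fun ξ y => TubeK_kbd ha _) md
    F.integrable_d.integrableOn d0 (K := Ck / a) fun y =>
      (setIntegral_le_integral (Hk a ha _).1
        (Eventually.of_forall fun ξ => (TubeK_kbd ha _).1)).trans (Hk a ha _).2
  have c1 : ∀ s, 0 < s → ∀ i, Continuous fun ξ => fderiv ℝ (F.uc R c s) ξ (ev i) := fun s hs i =>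
    Conv_cf ((F.uc_grad hR c hs).1.of_le (by norm_num)) _
  have cV : Continuous fun ξ => ∑ i, ‖fderiv ℝ (F.uc R c a) ξ (ev i) -
      fderiv ℝ (F.uc R c b) ξ (ev i)‖ ^ 2 :=
    continuous_finsetSum _ fun i _ => ((c1 a ha i).sub (c1 b hb i)).norm.pow 2
  have iG : ∀ ξ, Integrable (fun y => Gm a (4 * b) (F.x y - ξ) * F.d y) F.μ := fun ξ =>
    (F.FlatB_adm (Flat.FlatD_admG ha (by linarith only [ha, hab]) ξ)).2
  have key : ∀ ξ ∈ Z, ∑ i, ‖fderiv ℝ (F.uc R c a) ξ (ev i) - fderiv ℝ (F.uc R c b) ξ (ev i)‖ ^ 2 ≤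
      2 * ∑ i, ‖∫ y in F.x ⁻¹' O, fderiv ℝ (Gm a b) (F.x y - ξ) (ev i) • F.sg R c y ∂F.μ‖ ^ 2 +
      2 * m * Cr ^ 2 * R ^ 2 * (1 / (c0 * a ^ 3) * t) *
        ∫ y in F.x ⁻¹' O, 1 / (max ‖F.x y - ξ‖ a) ^ (m + 1) * F.d y ∂F.μ := by
    intro ξ hξ
    obtain ⟨hO, hU⟩ := H ξ hξ
    have hn : ‖ξ‖ + b < 10 := by linarith only [hb1, hZ, mem_ball_zero_iff.1 (hZ hξ)]
    have mB : MeasurableSet (F.x ⁻¹' ball ξ b) := mx measurableSet_ball
    have iK : Integrable (fun y => 1 / (max ‖F.x y - ξ‖ a) ^ (m + 1) * F.d y) F.μ :=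
      F.integrable_d.bdd_mul (mk.comp (mx.sub_const ξ)).aestronglyMeasurable
        (c := 1 / a ^ (m + 1)) (Eventually.of_forall fun y => by
          rw [Real.norm_of_nonneg (TubeK_kbd ha _).1]
          exact (TubeK_kbd ha _).2)
    have a0 : ∀ y, 0 ≤ F.d y / (max ‖F.x y - ξ‖ a) ^ (m + 1) := fun y =>
      div_nonneg (d0 y) (pow_pos (lt_max_of_lt_right ha) _).le
    have a1 : 0 ≤ ∫ y in F.x ⁻¹' ball ξ b, F.d y / (max ‖F.x y - ξ‖ a) ^ (m + 1) ∂F.μ :=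
      integral_nonneg a0
    have a2 : ∫ y in F.x ⁻¹' ball ξ b, F.d y / (max ‖F.x y - ξ‖ a) ^ (m + 1) ∂F.μ ≤
        ∫ y in F.x ⁻¹' O, 1 / (max ‖F.x y - ξ‖ a) ^ (m + 1) * F.d y ∂F.μ := by
      simp only [one_div_mul_eq_div] at iK ⊢
      exact setIntegral_mono_set iK.integrableOn (Eventually.of_forall a0)
        (preimage_mono hO).eventuallyLE
    have a3 : ∫ y in F.x ⁻¹' ball ξ b, F.d y / (max ‖F.x y - ξ‖ a) ^ (m + 1) ∂F.μ ≤
        1 / (c0 * a ^ 3) * t := by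
      refine le_trans ?_ (mul_le_mul_of_nonneg_left hU (by positivity))
      refine le_trans ?_ (mul_le_mul_of_nonneg_left (setIntegral_le_integral
        (s := F.x ⁻¹' ball ξ b) (iG ξ) (Eventually.of_forall fun y =>
          mul_nonneg (Gm_nonneg ha (by linarith only [ha, hab]) _).1 (d0 y))) (by positivity))
      rw [← integral_const_mul]
      refine integral_mono_of_nonneg (Eventually.of_forall a0) ((iG ξ).const_mul _).integrableOn
        ((ae_restrict_iff' mB).2 (Eventually.of_forall fun y hy => ?_))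
      have h1 : ‖F.x y - ξ‖ < b := mem_ball_iff_norm.1 hy
      exact TubeK_alg m ha (le_max_right _ _) hc0 (d0 y)
        (Hg a (4 * b) ha _ (by linarith [max_le h1.le hab]))
    have a4 : ∀ i, ‖fderiv ℝ (F.uc R c a) ξ (ev i) - fderiv ℝ (F.uc R c b) ξ (ev i)‖ ^ 2 ≤
        2 * ‖∫ y in F.x ⁻¹' O, fderiv ℝ (Gm a b) (F.x y - ξ) (ev i) • F.sg R c y ∂F.μ‖ ^ 2 +
        2 * Cr ^ 2 * R ^ 2 * (1 / (c0 * a ^ 3) * t) *
          ∫ y in F.x ⁻¹' O, 1 / (max ‖F.x y - ξ‖ a) ^ (m + 1) * F.d y ∂F.μ := fun i => by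
      have h1 := Hr F R c a b ξ (ev i) hR ha hab hn
      rw [setIntegral_eq_integral_of_forall_compl_eq_zero (f := fun y =>
        fderiv ℝ (Gm a b) (F.x y - ξ) (ev i) • F.sg R c y) fun y hy => by
          have h2 : b ≤ ‖F.x y - ξ‖ := not_lt.1 fun h2 => hy (hO (mem_ball_iff_norm.2 h2))
          rw [fderiv_Gm ha hab, (Gm_eq_zero ha hab h2).2, neg_zero, zero_mul, zero_smul]]
      rw [TubeK_ev, mul_one] at h1
      have h2 := mul_le_mul a3 a2 a1 (by positivity)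
      generalize ∫ y in F.x ⁻¹' ball ξ b, F.d y / (max ‖F.x y - ξ‖ a) ^ (m + 1) ∂F.μ = e at *
      generalize ∫ y, fderiv ℝ (Gm a b) (F.x y - ξ) (ev i) • F.sg R c y ∂F.μ = J at *
      generalize fderiv ℝ (F.uc R c a) ξ (ev i) - fderiv ℝ (F.uc R c b) ξ (ev i) = D at *
      have h3 : ‖D‖ ≤ ‖J‖ + Cr * R * e := by linarith only [h1, norm_sub_norm_le D J]
      have h4 := pow_le_pow_left₀ (norm_nonneg _) h3 2
      have h5 := mul_le_mul_of_nonneg_left h2 (by positivity : 0 ≤ 2 * Cr ^ 2 * R ^ 2)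
      nlinarith only [h4, h5, sq_nonneg (‖J‖ - Cr * R * e)]
    refine (Finset.sum_le_sum fun i _ => a4 i).trans (le_of_eq ?_)
    rw [Finset.sum_add_distrib, ← Finset.mul_sum, Finset.sum_const, Finset.card_univ,
      Fintype.card_fin, nsmul_eq_mul]
    ring
  have iR := (j2.integrableOn (s := Z).const_mul 2).add
    (e1.const_mul (2 * m * Cr ^ 2 * R ^ 2 * (1 / (c0 * a ^ 3) * t)))
  have V0 : ∀ ξ, 0 ≤ ∑ i, ‖fderiv ℝ (F.uc R c a) ξ (ev i) - fderiv ℝ (F.uc R c b) ξ (ev i)‖ ^ 2 :=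
    fun ξ => Finset.sum_nonneg fun i _ => sq_nonneg _
  have hae := (ae_restrict_iff' (μ := volume) mZ).2 (Eventually.of_forall key)
  refine ⟨iR.mono' cV.aestronglyMeasurable (hae.mono fun ξ hξ => ?_), ?_⟩
  · rw [Real.norm_of_nonneg (V0 ξ)]
    exact hξ
  refine (integral_mono_of_nonneg (Eventually.of_forall V0) iR hae).trans ?_
  rw [integral_add' (j2.integrableOn (s := Z).const_mul 2) (e1.const_mul _), integral_const_mul,
    integral_const_mul]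
  have hs : Z ⊆ {ξ | ∫ y in F.x ⁻¹' O, Gm a b (F.x y - ξ) * (Cs / R * F.d y) ∂F.μ ≤
      Cs / R * t} := fun ξ hξ => by
    show ∫ y in F.x ⁻¹' O, Gm a b (F.x y - ξ) * (Cs / R * F.d y) ∂F.μ ≤ Cs / R * t
    refine le_trans ?_ (mul_le_mul_of_nonneg_left (H ξ hξ).2 q0.le)
    refine le_trans ?_ (mul_le_mul_of_nonneg_left (setIntegral_le_integral
      (s := F.x ⁻¹' O) (iG ξ) (Eventually.of_forall fun y =>
        mul_nonneg (Gm_nonneg ha (by linarith only [ha, hab]) _).1 (d0 y))) q0.le)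
    rw [← integral_const_mul]
    refine integral_mono_of_nonneg (Eventually.of_forall fun y => mul_nonneg
      (Gm_nonneg ha hab _).1 (mul_nonneg q0.le (d0 y))) ((iG ξ).const_mul _).integrableOn
      (Eventually.of_forall fun y => ?_)
    show Gm a b (F.x y - ξ) * (Cs / R * F.d y) ≤ Cs / R * (Gm a (4 * b) (F.x y - ξ) * F.d y)
    rw [mul_left_comm]
    exact mul_le_mul_of_nonneg_left (mul_le_mul_of_nonneg_right
      (FlatD_Gm_mono ha le_rfl hab (by linarith only [ha, hab]) _) (d0 y)) q0.le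
  have j4 := (setIntegral_mono_set j2.integrableOn (Eventually.of_forall fun ξ =>
    Finset.sum_nonneg fun i _ => sq_nonneg _) hs.eventuallyLE).trans j3
  rw [integral_const_mul] at j4
  have D0 : 0 ≤ F.DS O := (F.DS_mono (Subset.refl O)).1
  have j5 := mul_le_mul_of_nonneg_left e2
    (by positivity : 0 ≤ 2 * m * Cr ^ 2 * R ^ 2 * (1 / (c0 * a ^ 3) * t))
  refine (add_le_add (mul_le_mul_of_nonneg_left j4 zero_le_two) j5).trans ?_
  have e3 : ∫ y in F.x ⁻¹' O, F.d y ∂F.μ = F.DS O := rfl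
  rw [e3]
  have e4 : 2 * (8 * N * (Cs / R * t) * (Cs / R * F.DS O)) +
      2 * m * Cr ^ 2 * R ^ 2 * (1 / (c0 * a ^ 3) * t) * (Ck / a * F.DS O) =
      (16 * N * Cs ^ 2 * (t / R ^ 2) + 2 * m * Cr ^ 2 * Ck / c0 * (R ^ 2 * t / a ^ 4)) *
        F.DS O := by
    field_simp
    ring
  rw [e4]
  refine mul_le_mul_of_nonneg_right ?_ D0
  have p1 : 0 ≤ 16 * N * Cs ^ 2 := by positivity
  have p2 : 0 ≤ 2 * m * Cr ^ 2 * Ck / c0 := by positivity
  have p3 : 0 ≤ t / R ^ 2 := by positivity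
  have p4 : 0 ≤ R ^ 2 * t / a ^ 4 := by positivity
  nlinarith only [p3, p4, p1, p2, mul_nonneg p1 p4, mul_nonneg p2 p3]

namespace Flat

variable {Q : ℕ} {A : ℝ} (F : Flat m N Q A)

theorem TubeK_B (y : E N) : ∑ i, ‖F.Bt y (ev i)‖ ^ 2 ≤ F.d y ∧ ∀ i, ‖F.Bt y (ev i)‖ ≤ m + 1 := by
  have h : ∑ i, ‖F.Bt y (ev i)‖ ^ 2 ≤ F.d y := (BF_bd F.ι (F.fr.orth y) 0).2.2.2.1
  refine ⟨h, fun i => ?_⟩
  have h1 : ‖F.Bt y (ev i)‖ ^ 2 ≤ ∑ i, ‖F.Bt y (ev i)‖ ^ 2 :=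
    Finset.single_le_sum (f := fun i => ‖F.Bt y (ev i)‖ ^ 2) (fun _ _ => sq_nonneg _)
      (Finset.mem_univ i)
  nlinarith only [h, h1, (F.d_bd y).2, sq_nonneg (‖F.Bt y (ev i)‖ - 1), Nat.cast_nonneg (α := ℝ) m]

/-- a bounded weight and a bounded function -/
theorem TubeK_cs' {G : Type} [NormedAddCommGroup G] [NormedSpace ℝ G] {w f : E N → ℝ}
    {h : E N → G} {p q : ℝ} (mw : Measurable w) (mf : Measurable f)
    (w0 : ∀ y, 0 ≤ w y ∧ w y ≤ p) (f0 : ∀ y, 0 ≤ f y ∧ f y ≤ q) (hh : ∀ y, ‖h y‖ ≤ w y * f y) :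
    Integrable (fun y => w y * f y ^ 2) F.μ ∧
      ‖∫ y, h y ∂F.μ‖ ^ 2 ≤ (∫ y, w y ∂F.μ) * ∫ y, w y * f y ^ 2 ∂F.μ := by
  have p0 : 0 ≤ p := (w0 0).1.trans (w0 0).2
  have i2 : Integrable (fun y => w y * f y ^ 2) F.μ :=
    F.FlatE_int (mw.mul (mf.pow_const 2)) (M := p * q ^ 2) fun y => by
      rw [abs_of_nonneg (mul_nonneg (w0 y).1 (sq_nonneg _))]
      exact mul_le_mul (w0 y).2 (pow_le_pow_left₀ (f0 y).1 (f0 y).2 2) (sq_nonneg _) p0
  refine ⟨i2, TubeK_cs F.μ (fun y => (w0 y).1) hh (F.FlatE_int mw (M := p) fun y => ?_)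
    (F.FlatE_int (mw.mul mf) (M := p * q) fun y => ?_) i2⟩
  · rw [abs_of_nonneg (w0 y).1]
    exact (w0 y).2
  · rw [abs_of_nonneg (mul_nonneg (w0 y).1 (f0 y).1)]
    exact mul_le_mul (w0 y).2 (f0 y).2 (f0 y).1 p0

theorem TubeK_mB (e : E m) : Measurable fun y => F.Bt y e :=
  F.measurable_all.2.2.2.2.2.2.1 _ measurable_const

/-- the oscillation of the slopes in the cluster -/
theorem TubeK_t2 {a g R : ℝ} (ha : 0 < a) (hR : 0 < R) (hg : 3 * R ≤ g) {c : E N} {ξ : E m}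
    {y : E N} (hξ : ‖ξ - F.x y‖ ≤ a) (hy : ‖F.z y - c‖ ≤ R) {β : E N → ℝ} (mβ : Measurable β)
    (β0 : ∀ y', 0 ≤ β y' ∧ β y' ≤ 1) (β1 : ∀ y', 2 * R ≤ ‖F.z y' - c‖ → β y' = 0) {Θ : ℝ}
    (hΘ : ∫ y', rho a (F.x y' - ξ) * β y' ∂F.μ ≤ Θ) :
    ∑ i, ‖∫ y', (rho a (F.x y' - ξ) * β y') • (F.Bt y (ev i) - F.Bt y' (ev i)) ∂F.μ‖ ^ 2 ≤
      Θ * (12 * 4 ^ m * F.lpe g (4 * a) y) := by
  have mx := F.measurable_all.1
  have hg0 : 0 < g := by linarith
  have hr : 0 < 4 * a := by linarith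
  have mw : Measurable fun y' => rho a (F.x y' - ξ) * β y' :=
    ((contDiff_rho a).continuous.measurable.comp (mx.sub_const ξ)).mul mβ
  have w0 : ∀ y', 0 ≤ rho a (F.x y' - ξ) * β y' ∧
      rho a (F.x y' - ξ) * β y' ≤ 1 / (cg m * a ^ m) := fun y' =>
    ⟨mul_nonneg (rho_nonneg ha _) (β0 y').1,
      (mul_le_of_le_one_right (rho_nonneg ha _) (β0 y').2).trans (rho_le ha _)⟩
  have H : ∀ i, Integrable (fun y' => rho a (F.x y' - ξ) * β y' *
      ‖F.Bt y (ev i) - F.Bt y' (ev i)‖ ^ 2) F.μ ∧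
      ‖∫ y', (rho a (F.x y' - ξ) * β y') • (F.Bt y (ev i) - F.Bt y' (ev i)) ∂F.μ‖ ^ 2 ≤
        (∫ y', rho a (F.x y' - ξ) * β y' ∂F.μ) * ∫ y', rho a (F.x y' - ξ) * β y' *
          ‖F.Bt y (ev i) - F.Bt y' (ev i)‖ ^ 2 ∂F.μ := fun i =>
    F.TubeK_cs' mw ((F.TubeK_mB _).const_sub _).norm w0 (q := m + 1 + (m + 1))
      (fun y' => ⟨norm_nonneg _, (norm_sub_le _ _).trans
        (add_le_add ((F.TubeK_B y).2 i) ((F.TubeK_B y').2 i))⟩) fun y' => by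
      rw [norm_smul, Real.norm_of_nonneg (w0 y').1]
  have i2 : Integrable (fun y' => rho (4 * a) (F.x y' - F.x y) * pe F.fr F.ι g y y') F.μ := by
    have m1 : Measurable fun y' => rho (4 * a) (F.x y' - F.x y) :=
      (contDiff_rho _).continuous.measurable.comp (mx.sub_const _)
    have m2 : Measurable fun y' => pe F.fr F.ι g y y' :=
      Measurable.of_uncurry_left (f := pe F.fr F.ι g) (measurable_pe F.fr F.ι g)
    refine F.integrable_of_bd (m1.mul m2) (M := 1 / (cg m * (4 * a) ^ m) * (6 * m))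
      fun y' _ _ => ?_
    obtain ⟨p0, p1⟩ := pe_bd F.fr F.ι hg0 y y'
    rw [Real.norm_of_nonneg (mul_nonneg (rho_nonneg hr _) p0)]
    exact mul_le_mul (rho_le hr _) p1 p0 ((rho_nonneg hr (0 : E m)).trans (rho_le hr _))
  have I0 : 0 ≤ ∫ y', rho a (F.x y' - ξ) * β y' ∂F.μ := integral_nonneg fun y' => (w0 y').1
  refine (Finset.sum_le_sum fun i _ => (H i).2).trans ?_
  rw [← Finset.mul_sum, ← integral_finsetSum _ fun i _ => (H i).1]
  refine mul_le_mul hΘ ?_ (integral_nonneg fun y' => Finset.sum_nonneg fun i _ =>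
    mul_nonneg (w0 y').1 (sq_nonneg _)) (I0.trans hΘ)
  rw [Flat.lpe, ← integral_const_mul]
  refine integral_mono (integrable_finsetSum _ fun i _ => (H i).1) (i2.const_mul _) fun y' => ?_
  have p0 := (pe_bd F.fr F.ι hg0 y y').1
  simp only
  rw [← Finset.mul_sum]
  rcases le_or_gt (2 * R) ‖F.z y' - c‖ with h1 | h1
  · rw [β1 y' h1, mul_zero, zero_mul]
    exact mul_nonneg (by positivity) (mul_nonneg (rho_nonneg hr _) p0)
  have h2 : ‖vt F.ι (y - y')‖ ≤ g := by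
    rw [vt_sub]
    have h3 := norm_sub_le (F.z y - c) (F.z y' - c)
    rw [sub_sub_sub_cancel_right] at h3
    exact h3.trans (by linarith)
  have h3 : ∑ i, ‖F.Bt y (ev i) - F.Bt y' (ev i)‖ ^ 2 ≤ 3 * pe F.fr F.ι g y y' :=
    ((peh_bd F.ι hg0 _ (F.fr.orth y) (F.fr.orth y')).2.2 h2).1
  have h4 := (pk_le_pk' (v := F.x y' - ξ) (v' := F.x y' - F.x y) (s := 4 * a) ha (by
    rw [sub_sub_sub_cancel_left, norm_sub_rev]
    linarith)).2
  have h5 : rho a (F.x y' - ξ) ≤ 4 * 4 ^ m * rho (4 * a) (F.x y' - F.x y) := by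
    refine le_of_mul_le_mul_left (h4.trans (le_of_eq ?_)) (pow_pos ha m)
    rw [mul_pow]
    ring
  refine (mul_le_mul ((mul_le_of_le_one_right (rho_nonneg ha _) (β0 y').2).trans h5) h3
    (Finset.sum_nonneg fun i _ => sq_nonneg _)
    (mul_nonneg (by positivity) (rho_nonneg hr _))).trans (le_of_eq ?_)
  ring

theorem TubeK_far {a : ℝ} (ha : 0 < a) {ξ p v : E m} (hξ : ‖ξ - p‖ ≤ a)
    (hv : v ∉ closedBall p (4 * a)) : a < ‖v - ξ‖ := by
  have h1 : 4 * a < ‖v - p‖ := not_le.1 fun h => hv (mem_closedBall_iff_norm.2 h)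
  have h2 := norm_add_le (v - ξ) (ξ - p)
  rw [sub_add_sub_cancel] at h2
  linarith

/-- the contribution of the gap -/
theorem TubeK_t3 {a : ℝ} (ha : 0 < a) {ξ p : E m} (hξ : ‖ξ - p‖ ≤ a) {γ : E N → ℝ}
    (mγ : Measurable γ) (γ0 : ∀ y', 0 ≤ γ y' ∧ γ y' ≤ 1) {s K : ℝ} (hK : 0 ≤ K)
    (hs : ∫ y', rho a (F.x y' - ξ) * γ y' ∂F.μ ≤ s) {h : Fin m → E N → E N}
    (hh : ∀ i y', ‖h i y'‖ ≤ γ y' * (K * ‖F.Bt y' (ev i)‖)) :
    ∑ i, ‖∫ y', rho a (F.x y' - ξ) • h i y' ∂F.μ‖ ^ 2 ≤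
      s * (K ^ 2 / cg m * (F.DS (closedBall p (4 * a)) / a ^ m)) := by
  have mx := F.measurable_all.1
  have mρ : Measurable fun v : E m => rho a (v - ξ) :=
    (contDiff_rho a).continuous.measurable.comp (measurable_id.sub_const ξ)
  have mw : Measurable fun y' => rho a (F.x y' - ξ) * γ y' := (mρ.comp mx).mul mγ
  have w0 : ∀ y', 0 ≤ rho a (F.x y' - ξ) * γ y' ∧
      rho a (F.x y' - ξ) * γ y' ≤ 1 / (cg m * a ^ m) := fun y' =>
    ⟨mul_nonneg (rho_nonneg ha _) (γ0 y').1,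
      (mul_le_of_le_one_right (rho_nonneg ha _) (γ0 y').2).trans (rho_le ha _)⟩
  have H : ∀ i, Integrable (fun y' => rho a (F.x y' - ξ) * γ y' *
      (K * ‖F.Bt y' (ev i)‖) ^ 2) F.μ ∧ ‖∫ y', rho a (F.x y' - ξ) • h i y' ∂F.μ‖ ^ 2 ≤
        (∫ y', rho a (F.x y' - ξ) * γ y' ∂F.μ) * ∫ y', rho a (F.x y' - ξ) * γ y' *
          (K * ‖F.Bt y' (ev i)‖) ^ 2 ∂F.μ := fun i =>
    F.TubeK_cs' mw ((F.TubeK_mB _).norm.const_mul K) w0 (q := K * (m + 1))
      (fun y' => ⟨mul_nonneg hK (norm_nonneg _),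
        mul_le_mul_of_nonneg_left ((F.TubeK_B y').2 i) hK⟩) fun y' => by
      rw [norm_smul, Real.norm_of_nonneg (rho_nonneg ha _), mul_assoc]
      exact mul_le_mul_of_nonneg_left (hh i y') (rho_nonneg ha _)
  have I0 : 0 ≤ ∫ y', rho a (F.x y' - ξ) * γ y' ∂F.μ := integral_nonneg fun y' => (w0 y').1
  refine (Finset.sum_le_sum fun i _ => (H i).2).trans ?_
  rw [← Finset.mul_sum, ← integral_finsetSum _ fun i _ => (H i).1]
  refine mul_le_mul hs ?_ (integral_nonneg fun y' => Finset.sum_nonneg fun i _ =>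
    mul_nonneg (w0 y').1 (sq_nonneg _)) (I0.trans hs)
  have h1 := (le_abs_self _).trans (F.abs_DD_le mρ (M := 1 / (cg m * a ^ m)) (fun v => by
    rw [abs_of_nonneg (rho_nonneg ha _)]
    exact rho_le ha _) (measurableSet_closedBall (x := p) (ε := 4 * a))
    fun v hv => rho_eq_zero ha (TubeK_far ha hξ hv).le)
  have e : K ^ 2 / cg m * (F.DS (closedBall p (4 * a)) / a ^ m) =
      K ^ 2 * (1 / (cg m * a ^ m) * F.DS (closedBall p (4 * a))) := by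
    rw [div_mul_div_comm, one_div_mul_eq_div, mul_div_assoc]
  rw [e]
  refine le_trans ?_ (mul_le_mul_of_nonneg_left h1 (sq_nonneg K))
  rw [Flat.DD, ← integral_const_mul]
  refine integral_mono (integrable_finsetSum _ fun i _ => (H i).1)
    ((F.FlatB_adm (FlatC_adm ha ξ)).2.const_mul _) fun y' => ?_
  simp only [mul_pow]
  rw [← Finset.mul_sum, ← Finset.mul_sum]
  refine (mul_le_mul (mul_le_of_le_one_right (rho_nonneg ha _) (γ0 y').2)
    (mul_le_mul_of_nonneg_left (F.TubeK_B y').1 (sq_nonneg K))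
    (mul_nonneg (sq_nonneg K) (Finset.sum_nonneg fun i _ => sq_nonneg _))
    (rho_nonneg ha _)).trans (le_of_eq ?_)
  ring

/-- the contribution of the stress -/
theorem TubeK_t4 {a : ℝ} (ha : 0 < a) (hτ : F.τ ≤ 4 * a) {ξ p : E m} (hξ : ‖ξ - p‖ ≤ a)
    {ζ : E N → E N} {R K : ℝ} (hζ : ∀ y, ‖ζ y‖ ≤ R)
    (hK : ∀ v : E m, ‖fderiv ℝ (rho a) v‖ ≤ K / a ^ (m + 1)) (i : Fin m) :
    ‖∫ y, F.NN y (ev i) (gradient (rho a) (F.x y - ξ)) • ζ y ∂F.μ‖ ^ 2 ≤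
      (R / a) ^ 2 * (K ^ 2 * (m * (A * 2 ^ m * 4 ^ m)) *
        (F.DS (closedBall p (4 * a)) / a ^ m)) := by
  have hR : 0 ≤ R := (norm_nonneg _).trans (hζ 0)
  have cf : Continuous fun v : E m => ‖fderiv ℝ (rho a) (v - ξ)‖ :=
    (((contDiff_rho a).continuous_fderiv (by norm_num)).comp
      (continuous_id.sub continuous_const)).norm
  have b1 : ∀ v : E m, |‖fderiv ℝ (rho a) (v - ξ)‖| ≤ K / a ^ (m + 1) := fun v => by
    rw [abs_norm]
    exact hK _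
  have h1 := (le_abs_self _).trans (F.abs_DD_le cf.measurable b1
    (measurableSet_closedBall (x := p) (ε := 4 * a)) fun v hv => by
      rw [(KernB_ev0 ha (TubeK_far ha hξ hv)).fderiv_eq, fderiv_fun_const, Pi.zero_apply,
        norm_zero])
  have i1 : Integrable (fun y => ‖fderiv ℝ (rho a) (F.x y - ξ)‖ * F.d y) F.μ :=
    F.integrable_d.bdd_mul (cf.measurable.comp F.measurable_all.1).aestronglyMeasurable
      (Eventually.of_forall fun y => b1 _)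
  have h2 : ‖∫ y, F.NN y (ev i) (gradient (rho a) (F.x y - ξ)) • ζ y ∂F.μ‖ ≤
      ∫ y, R * (‖fderiv ℝ (rho a) (F.x y - ξ)‖ * F.d y) ∂F.μ := by
    refine norm_integral_le_of_norm_le (i1.const_mul R) (Eventually.of_forall fun y => ?_)
    have h3 : |F.NN y (ev i) (gradient (rho a) (F.x y - ξ))| ≤
        F.d y * ‖(ev i : E m)‖ * ‖gradient (rho a) (F.x y - ξ)‖ :=
      (NF_bd F.ι (F.fr.orth y) _ _).2.2.2.1
    rw [TubeK_ev, mul_one, gradient, LinearIsometryEquiv.norm_map, mul_comm] at h3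
    rw [norm_smul, mul_comm]
    exact mul_le_mul (hζ y) h3 (norm_nonneg _) hR
  rw [integral_const_mul] at h2
  have h3 := h2.trans (mul_le_mul_of_nonneg_left h1 hR)
  have D0 : 0 ≤ F.DS (closedBall p (4 * a)) := (F.DS_mono (Subset.refl _)).1
  have D1 : F.DS (closedBall p (4 * a)) ≤ m * (A * 2 ^ m * (4 * a) ^ m) := by
    refine le_trans ?_ (mul_le_mul_of_nonneg_left (F.mass_ball p hτ) (Nat.cast_nonneg m))
    refine (le_abs_self _).trans (norm_setIntegral_le_of_norm_le_const (μ := F.μ) (f := F.d)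
      (s := F.x ⁻¹' closedBall p (4 * a)) (measure_lt_top _ _) fun y _ => ?_)
    rw [Real.norm_of_nonneg (F.d_bd y).1]
    exact (F.d_bd y).2
  refine (pow_le_pow_left₀ (norm_nonneg _) h3 2).trans ?_
  generalize F.DS (closedBall p (4 * a)) = D at D0 D1 ⊢
  have e1 : (R * (K / a ^ (m + 1) * D)) ^ 2 = (R / a) ^ 2 * (K ^ 2 * (D / a ^ m) * (D / a ^ m)) := by
    rw [pow_succ a m]
    field_simp
  rw [e1]
  refine mul_le_mul_of_nonneg_left (mul_le_mul_of_nonneg_right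
    (mul_le_mul_of_nonneg_left ?_ (sq_nonneg K)) (by positivity)) (sq_nonneg _)
  rw [div_le_iff₀ (pow_pos ha m)]
  refine D1.trans (le_of_eq ?_)
  rw [mul_pow]
  ring

end Flat

end Pool.Agent.MP_f6c0e6_an.Gen

end
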