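import Pool.Agent.MP_f6c0e6_an.All.Calc
import Pool.Agent.MP_f6c0e6_an.All.Basic

section

/-! Trigonometric series, and bounds for derivatives. -/

set_option autoImplicit false

open MeasureTheory Filter Topology Set Metric
open scoped ENNReal RealInnerProductSpace

namespace Pool.Agent.MP_f6c0e6_an.Gen.Wie

section WBas

variable {m N : ℕ}

section Defs

variable {F : Type*} [NormedAddCommGroup F] [NormedSpace ℝ F]

/-- `Wn` for an arbitrary target space; `Wn s f M` is `WnF s f M` by definition -/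
def WnF (s : ℕ) (f : E m → F) (M : ℝ) : Prop :=
  ∃ a b : (Fin m → ℤ) → F,
    Summable (fun k => (1 + ‖kv k‖) ^ s * (‖a k‖ + ‖b k‖)) ∧
    ∑' k, (1 + ‖kv k‖) ^ s * (‖a k‖ + ‖b k‖) ≤ M ∧
    ∀ x, HasSum (fun k => Real.cos ⟪kv k, x⟫ • a k + Real.sin ⟪kv k, x⟫ • b k) (f x)

/-- a function of class `C^n` with all derivatives up to order `n` bounded by `M` -/
structure Cb (n : ℕ) (f : E m → F) (M : ℝ) : Prop where
  smooth : ContDiff ℝ n f
  bd : ∀ j ≤ n, ∀ x, ‖iteratedFDeriv ℝ j f x‖ ≤ M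

theorem WBas_cb (n : ℕ) (v : E m) {g : ℝ → ℝ} (hg : ContDiff ℝ n g)
    (hb : ∀ j x, |iteratedDeriv j g x| ≤ 1) :
    Cb n (fun x : E m => g ⟪v, x⟫) ((1 + ‖v‖) ^ n) := by
  refine ⟨hg.comp (innerSL ℝ v).contDiff, fun j hj x => ?_⟩
  have h1 := (innerSL ℝ v).iteratedFDeriv_comp_right hg x (i := j) (by exact_mod_cast hj)
  have h2 : iteratedFDeriv ℝ j (fun x : E m => g ⟪v, x⟫) x = _ := h1
  rw [h2]
  refine (ContinuousMultilinearMap.norm_compContinuousLinearMap_le _ _).trans ?_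
  rw [norm_iteratedFDeriv_eq_norm_iteratedDeriv, Real.norm_eq_abs, Finset.prod_const,
    Finset.card_univ, Fintype.card_fin, innerSL_apply_norm]
  have h3 : ‖v‖ ^ j ≤ (1 + ‖v‖) ^ n :=
    (pow_le_pow_left₀ (norm_nonneg v) (le_add_of_nonneg_left zero_le_one) j).trans
      (pow_le_pow_right₀ (le_add_of_nonneg_right (norm_nonneg v)) hj)
  exact (mul_le_mul (hb j _) h3 (by positivity) zero_le_one).trans_eq (one_mul _)

theorem WBas_smul {n : ℕ} {g : E m → ℝ} {M : ℝ} (h : Cb n g M) (a : F) :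
    Cb n (fun x => g x • a) (M * ‖a‖) := by
  refine ⟨h.smooth.smul contDiff_const, fun j hj x => ?_⟩
  rw [iteratedFDeriv_smul_const_apply (h.smooth.contDiffAt.of_le (by exact_mod_cast hj))]
  refine (ContinuousLinearMap.norm_compContinuousMultilinearMap_le _ _).trans ?_
  rw [ContinuousLinearMap.norm_smulRight_apply, ContinuousLinearMap.norm_id, one_mul, mul_comm]
  exact mul_le_mul_of_nonneg_right (h.bd j hj x) (norm_nonneg a)

theorem WBas_add {n : ℕ} {f g : E m → F} {M M' : ℝ} (h : Cb n f M) (h' : Cb n g M') :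
    Cb n (fun x => f x + g x) (M + M') := by
  refine ⟨h.smooth.add h'.smooth, fun j hj x => ?_⟩
  have h1 := iteratedFDeriv_add_apply (x := x) (i := j)
    (h.smooth.contDiffAt.of_le (by exact_mod_cast hj))
    (h'.smooth.contDiffAt.of_le (by exact_mod_cast hj))
  have h2 : iteratedFDeriv ℝ j (fun x => f x + g x) x = _ := h1
  rw [h2]
  exact (norm_add_le _ _).trans (add_le_add (h.bd j hj x) (h'.bd j hj x))

/-- `ContinuousLinearMap.iteratedFDeriv_comp_right`, `norm_iteratedFDeriv_eq_norm_iteratedDeriv`,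
`Real.abs_iteratedDeriv_cos_le_one` -/
theorem cb_cos (n : ℕ) (v : E m) : Cb n (fun x : E m => Real.cos ⟪v, x⟫) ((1 + ‖v‖) ^ n) := by
  exact WBas_cb n v Real.contDiff_cos Real.abs_iteratedDeriv_cos_le_one

theorem cb_sin (n : ℕ) (v : E m) : Cb n (fun x : E m => Real.sin ⟪v, x⟫) ((1 + ‖v‖) ^ n) := by
  exact WBas_cb n v Real.contDiff_sin Real.abs_iteratedDeriv_sin_le_one

/-- termwise differentiation (`contDiff_tsum`, `iteratedFDeriv_tsum`), `cb_cos`, `cb_sin` -/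
theorem WnF.cb [CompleteSpace F] {s : ℕ} {f : E m → F} {M : ℝ} (h : WnF s f M) : Cb s f M := by
  obtain ⟨a, b, h1, h2, h3⟩ := h
  have hc : ∀ k : Fin m → ℤ,
      Cb s (fun x : E m => Real.cos ⟪kv k, x⟫ • a k + Real.sin ⟪kv k, x⟫ • b k)
        ((1 + ‖kv k‖) ^ s * (‖a k‖ + ‖b k‖)) := fun k => by
    rw [mul_add]
    exact WBas_add (WBas_smul (cb_cos s (kv k)) (a k)) (WBas_smul (cb_sin s (kv k)) (b k))
  have hf : f = fun x => ∑' k, (Real.cos ⟪kv k, x⟫ • a k + Real.sin ⟪kv k, x⟫ • b k) :=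
    funext fun x => (h3 x).tsum_eq.symm
  have e1 : ∀ k : Fin m → ℤ, ContDiff ℝ ((s : ℕ∞) : WithTop ℕ∞)
      (fun x : E m => Real.cos ⟪kv k, x⟫ • a k + Real.sin ⟪kv k, x⟫ • b k) :=
    fun k => (hc k).smooth
  have e2 : ∀ (j : ℕ) (k : Fin m → ℤ) (x : E m), (j : ℕ∞) ≤ (s : ℕ∞) → ‖iteratedFDeriv ℝ j
      (fun x : E m => Real.cos ⟪kv k, x⟫ • a k + Real.sin ⟪kv k, x⟫ • b k) x‖ ≤
        (1 + ‖kv k‖) ^ s * (‖a k‖ + ‖b k‖) :=
    fun j k x hj => (hc k).bd j (by exact_mod_cast hj) x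
  rw [hf]
  refine ⟨contDiff_tsum (N := (s : ℕ∞)) e1 (fun _ _ => h1) e2, fun j hj x => ?_⟩
  have hj' : (j : ℕ∞) ≤ (s : ℕ∞) := by exact_mod_cast hj
  rw [iteratedFDeriv_tsum_apply (N := (s : ℕ∞)) e1 (fun _ _ => h1) e2 hj']
  exact (tsum_of_norm_bounded h1.hasSum fun k => e2 j k x hj').trans h2

end Defs

/-- the linearised minimal surface operator at `w` -/
noncomputable def Lf (w u : E m → E N) (x : E m) : E N :=
  ∑ j, fderiv ℝ (fderiv ℝ u) x (ev j) (giW w x (ev j)) -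
    (2 : ℝ) • ∑ j, fderiv ℝ (fderiv ℝ w) x (ev j)
      (giW w x ((fderiv ℝ w x).adjoint (fderiv ℝ u x (giW w x (ev j)))))

theorem _root_.Pool.Agent.MP_f6c0e6_an.Gen.Wn.toF
    {s : ℕ} {f : E m → E N} {M : ℝ} (h : Wn s f M) : WnF s f M := h

theorem _root_.Pool.Agent.MP_f6c0e6_an.Gen.Wn.cb
    {s : ℕ} {f : E m → E N} {M : ℝ} (h : Wn s f M) : Cb s f M := h.toF.cb

theorem _root_.Pool.Agent.MP_f6c0e6_an.Gen.Wn.zero
    (s : ℕ) : Wn s (fun _ : E m => (0 : E N)) 0 := by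
  refine ⟨fun _ => 0, fun _ => 0, ?_, ?_, fun x => ?_⟩
  · simp [summable_zero]
  · simp
  · simp [hasSum_zero]

theorem _root_.Pool.Agent.MP_f6c0e6_an.Gen.Wn.mono
    {s : ℕ} {f : E m → E N} {M M' : ℝ} (h : Wn s f M) (hM : M ≤ M') : Wn s f M' := by
  obtain ⟨a, b, h1, h2, h3⟩ := h
  exact ⟨a, b, h1, h2.trans hM, h3⟩

theorem _root_.Pool.Agent.MP_f6c0e6_an.Gen.Wn.add
    {s : ℕ} {f g : E m → E N} {M M' : ℝ} (h : Wn s f M) (h' : Wn s g M') :
    Wn s (fun x => f x + g x) (M + M') := by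
  obtain ⟨a, b, h1, h2, h3⟩ := h
  obtain ⟨a', b', h1', h2', h3'⟩ := h'
  have hle : ∀ k : Fin m → ℤ, (1 + ‖kv k‖) ^ s * (‖a k + a' k‖ + ‖b k + b' k‖) ≤
      (1 + ‖kv k‖) ^ s * (‖a k‖ + ‖b k‖) + (1 + ‖kv k‖) ^ s * (‖a' k‖ + ‖b' k‖) := fun k => by
    rw [← mul_add]
    refine mul_le_mul_of_nonneg_left ?_ (by positivity)
    linarith [norm_add_le (a k) (a' k), norm_add_le (b k) (b' k)]
  have hs := Summable.of_nonneg_of_le (fun k => by positivity) hle (h1.add h1')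
  refine ⟨fun k => a k + a' k, fun k => b k + b' k, hs, ?_, fun x => ?_⟩
  · refine (hs.tsum_le_tsum hle (h1.add h1')).trans ?_
    rw [h1.tsum_add h1']
    exact add_le_add h2 h2'
  · have e : (fun k => Real.cos ⟪kv k, x⟫ • (a k + a' k) + Real.sin ⟪kv k, x⟫ • (b k + b' k)) =
        fun k => Real.cos ⟪kv k, x⟫ • a k + Real.sin ⟪kv k, x⟫ • b k +
          (Real.cos ⟪kv k, x⟫ • a' k + Real.sin ⟪kv k, x⟫ • b' k) := by
      funext k
      rw [smul_add, smul_add, add_add_add_comm]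
    exact e ▸ (h3 x).add (h3' x)

/-- termwise differentiation (`contDiff_tsum`, `iteratedFDeriv_tsum`) -/
theorem _root_.Pool.Agent.MP_f6c0e6_an.Gen.Wn.contDiff
    {s : ℕ} {f : E m → E N} {M : ℝ} (h : Wn s f M) :
    ContDiff ℝ s f ∧ ∀ j ≤ s, ∀ x, ‖iteratedFDeriv ℝ j f x‖ ≤ M := by
  exact ⟨h.cb.smooth, h.cb.bd⟩

theorem WBas_app {G : Type*} [NormedAddCommGroup G] [NormedSpace ℝ G] {L : E m →L[ℝ] G} {M : ℝ}
    (h : ‖L‖ ≤ M) (u : E m) : ‖L u‖ ≤ M * ‖u‖ := L.le_of_opNorm_le h u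

theorem WBas_tend {G : Type*} [NormedAddCommGroup G] {u d : ℕ → G} {U : G} {t : ℕ → ℝ}
    (ht : Tendsto t atTop (𝓝 0)) (e : ∀ j, u j = U - d j) (hb : ∀ j, ‖d j‖ ≤ t j) :
    Tendsto u atTop (𝓝 U) := by
  rw [tendsto_iff_norm_sub_tendsto_zero]
  refine squeeze_zero (fun j => norm_nonneg _) (fun j => ?_) ht
  rw [e j, sub_sub_cancel_left, norm_neg]
  exact hb j

theorem WBas_fd {G : Type*} [NormedAddCommGroup G] [NormedSpace ℝ G] {g : E m → E m →L[ℝ] G}
    {M : ℝ} {ξ : E m} (hg : DifferentiableAt ℝ g ξ) (h : ‖fderiv ℝ g ξ‖ ≤ M) (u : E m) :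
    ‖fderiv ℝ (fun x => g x u) ξ‖ ≤ M * ‖u‖ := by
  have h6 := (ContinuousLinearMap.apply ℝ G u).hasFDerivAt.comp ξ hg.hasFDerivAt
  have h7 : fderiv ℝ (fun x => g x u) ξ = _ := h6.fderiv
  rw [h7]
  have hM : 0 ≤ M := (ContinuousLinearMap.opNorm_nonneg _).trans h
  refine ContinuousLinearMap.opNorm_le_bound _ (by positivity) fun v => ?_
  exact (WBas_app (WBas_app h v) u).trans_eq (by ring)

theorem WBas_bd2 {F : Type*} [NormedAddCommGroup F] [NormedSpace ℝ F] {s : ℕ} {f : E m → F}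
    {M : ℝ} (h : Cb s f M) (hs : 2 ≤ s) : Bd2 f M M M := by
  refine ⟨fun x => ?_, fun x => ?_, fun x => ?_⟩
  · simpa only [norm_iteratedFDeriv_zero] using h.bd 0 (by omega) x
  · simpa only [norm_iteratedFDeriv_one] using h.bd 1 (by omega) x
  · have h1 := h.bd 2 hs x
    rwa [← norm_iteratedFDeriv_fderiv, norm_iteratedFDeriv_one] at h1

/-- the bounds in the form used by `Ref` -/
theorem _root_.Pool.Agent.MP_f6c0e6_an.Gen.Wn.bd
    {s : ℕ} {f : E m → E N} {M : ℝ} (h : Wn s f M) (hs : 3 ≤ s) :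
    ContDiff ℝ 3 f ∧ Bd2 f M M M ∧
      ∀ ξ u, ‖fderiv ℝ (fun x => fderiv ℝ (fderiv ℝ f) x u) ξ‖ ≤ M * ‖u‖ := by
  have h3 : ContDiff ℝ 3 f := h.cb.smooth.of_le (by exact_mod_cast hs)
  refine ⟨h3, WBas_bd2 h.cb (by omega), fun ξ u => ?_⟩
  have h4 := h.cb.bd 3 hs ξ
  rw [← norm_iteratedFDeriv_fderiv, ← norm_iteratedFDeriv_fderiv, norm_iteratedFDeriv_one] at h4
  have h5 : ContDiff ℝ 1 (fderiv ℝ (fderiv ℝ f)) :=
    (h3.fderiv_right (m := 2) (by norm_num)).fderiv_right (m := 1) (by norm_num)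
  exact WBas_fd (h5.differentiable one_ne_zero ξ) h4 u

theorem WBas_tsum0 {K G : Type*} [NormedAddCommGroup G] [NormedSpace ℝ G] [CompleteSpace G]
    {wt : K → ℝ} (hwt : ∀ k, 1 ≤ wt k) {a b : ℕ → K → G} {η : ℕ → ℝ} (hη : Summable η)
    (h1 : ∀ j, Summable fun k => wt k * (‖a j k‖ + ‖b j k‖))
    (h2 : ∀ j, ∑' k, wt k * (‖a j k‖ + ‖b j k‖) ≤ η j) :
    (Summable fun k => wt k * (‖∑' j, a j k‖ + ‖∑' j, b j k‖)) ∧
      ∑' k, wt k * (‖∑' j, a j k‖ + ‖∑' j, b j k‖) ≤ ∑' j, η j ∧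
      ∀ (c d : K → ℝ) (f : ℕ → G), (∀ k, |c k| ≤ 1) → (∀ k, |d k| ≤ 1) →
        (∀ j, HasSum (fun k => c k • a j k + d k • b j k) (f j)) → Summable f ∧
          HasSum (fun k => c k • ∑' j, a j k + d k • ∑' j, b j k) (∑' j, f j) := by
  obtain ⟨T, hT⟩ : ∃ T : ℕ × K → ℝ, ∀ j k, T (j, k) = wt k * (‖a j k‖ + ‖b j k‖) :=
    ⟨fun p => wt p.2 * (‖a p.1 p.2‖ + ‖b p.1 p.2‖), fun _ _ => rfl⟩
  have hw0 : ∀ k, 0 ≤ wt k := fun k => zero_le_one.trans (hwt k)
  have hw : ∀ j k, ‖a j k‖ + ‖b j k‖ ≤ T (j, k) := fun j k => by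
    rw [hT]
    exact le_mul_of_one_le_left (by positivity) (hwt k)
  have hT0 : ∀ p, 0 ≤ T p := fun p => le_trans (by positivity) (hw p.1 p.2)
  simp only [← hT] at h1 h2
  have hs0 : Summable fun j => ∑' k, T (j, k) :=
    Summable.of_nonneg_of_le (fun j => tsum_nonneg fun k => hT0 _) h2 hη
  have hs : Summable T := (summable_prod_of_nonneg hT0).2 ⟨h1, hs0⟩
  have hs' : Summable fun p : K × ℕ => T p.swap := hs.prod_symm
  have hk : ∀ k, Summable fun j => T (j, k) := fun k => hs'.prod_factor k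
  have ha : ∀ k, Summable fun j => ‖a j k‖ := fun k =>
    Summable.of_nonneg_of_le (fun j => norm_nonneg _)
      (fun j => (le_add_of_nonneg_right (norm_nonneg _)).trans (hw j k)) (hk k)
  have hb : ∀ k, Summable fun j => ‖b j k‖ := fun k =>
    Summable.of_nonneg_of_le (fun j => norm_nonneg _)
      (fun j => (le_add_of_nonneg_left (norm_nonneg _)).trans (hw j k)) (hk k)
  have hle : ∀ k, wt k * (‖∑' j, a j k‖ + ‖∑' j, b j k‖) ≤ ∑' j, T (j, k) := fun k => by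
    simp only [hT]
    rw [tsum_mul_left, (ha k).tsum_add (hb k)]
    exact mul_le_mul_of_nonneg_left
      (add_le_add (norm_tsum_le_tsum_norm (ha k)) (norm_tsum_le_tsum_norm (hb k))) (hw0 k)
  have hs1 : Summable fun k => ∑' j, T (j, k) := hs'.prod
  have hs2 := Summable.of_nonneg_of_le (fun k => mul_nonneg (hw0 k) (by positivity)) hle hs1
  refine ⟨hs2, ?_, fun c d f hc hd h3 => ?_⟩
  · refine (hs2.tsum_le_tsum hle hs1).trans ?_
    have e := Summable.tsum_comm (f := fun j k => T (j, k)) hs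
    rw [e]
    exact hs0.tsum_le_tsum h2 hη
  · obtain ⟨g, hg0⟩ : ∃ g : ℕ × K → G, ∀ j k, g (j, k) = c k • a j k + d k • b j k :=
      ⟨fun p => c p.2 • a p.1 p.2 + d p.2 • b p.1 p.2, fun _ _ => rfl⟩
    have hg : Summable g := by
      refine Summable.of_norm_bounded hs fun ⟨j, k⟩ => ?_
      rw [hg0]
      refine (norm_add_le _ _).trans (le_trans ?_ (hw j k))
      rw [norm_smul, norm_smul, Real.norm_eq_abs, Real.norm_eq_abs]
      exact add_le_add (mul_le_of_le_one_left (norm_nonneg _) (hc k))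
        (mul_le_of_le_one_left (norm_nonneg _) (hd k))
    have e1 : HasSum f (∑' p, g p) := hg.hasSum.prod_fiberwise fun j => by
      simp only [hg0]
      exact h3 j
    have hg' : HasSum (fun p : K × ℕ => g p.swap) (∑' p, g p) :=
      (Equiv.prodComm K ℕ).hasSum_iff.2 hg.hasSum
    refine ⟨e1.summable, ?_⟩
    rw [e1.tsum_eq]
    refine hg'.prod_fiberwise fun k => ?_
    simp only [Prod.swap_prod_mk, hg0]
    exact ((ha k).of_norm.hasSum.const_smul _).add ((hb k).of_norm.hasSum.const_smul _)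

theorem WBas_tsum {s : ℕ} {f : ℕ → E m → E N} {η : ℕ → ℝ} (hη : Summable η)
    (h : ∀ j, Wn s (f j) (η j)) :
    (∀ x, Summable fun j => f j x) ∧ Wn s (fun x => ∑' j, f j x) (∑' j, η j) := by
  choose a b h1 h2 h3 using h
  obtain ⟨e1, e2, e3⟩ := WBas_tsum0 (wt := fun k : Fin m → ℤ => (1 + ‖kv k‖) ^ s)
    (fun k => one_le_pow₀ (le_add_of_nonneg_right (norm_nonneg _))) hη h1 h2
  have e4 := fun x => e3 (fun k => Real.cos ⟪kv k, x⟫) (fun k => Real.sin ⟪kv k, x⟫)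
    (fun j => f j x) (fun k => Real.abs_cos_le_one _) (fun k => Real.abs_sin_le_one _)
    fun j => h3 j x
  exact ⟨fun x => (e4 x).1, fun k => ∑' j, a j k, fun k => ∑' j, b j k, e1, e2,
    fun x => (e4 x).2⟩

/-- completeness -/
theorem _root_.Pool.Agent.MP_f6c0e6_an.Gen.Wn.lim
    {s : ℕ} {w : ℕ → E m → E N} {η : ℕ → ℝ} (hη : Summable η)
    (h : ∀ j, Wn s (fun x => w (j + 1) x - w j x) (η j)) :
    ∃ W : E m → E N, ∀ j, Wn s (fun x => W x - w j x) (∑' i, η (i + j)) := by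
  refine ⟨fun x => w 0 x + ∑' i, (w (i + 1) x - w i x), fun j => ?_⟩
  have h1 := (WBas_tsum hη h).1
  have h2 := (WBas_tsum ((summable_nat_add_iff j).2 hη) fun i => h (i + j)).2
  have h3 : (fun x => w 0 x + ∑' i, (w (i + 1) x - w i x) - w j x) =
      fun x => ∑' i, (w (i + j + 1) x - w (i + j) x) := by
    funext x
    rw [← (h1 x).sum_add_tsum_nat_add j, Finset.sum_range_sub (fun i => w i x)]
    abel
  rw [h3]
  exact h2

/-- the equation passes to the limit -/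
theorem _root_.Pool.Agent.MP_f6c0e6_an.Gen.MinAt.lim
    {w : ℕ → E m → E N} {W : E m → E N} {t : ℕ → ℝ} {M : ℝ} (hW : Wn 2 W M)
    (ht : Tendsto t atTop (𝓝 0)) (h : ∀ j, Wn 2 (fun x => W x - w j x) (t j)) {ξ : E m}
    (hmin : ∀ j, MinAt (w j) ξ) : MinAt W ξ := by
  have hc : ContDiff ℝ 2 W := hW.cb.smooth
  have hd : ∀ j, ContDiff ℝ 2 fun x => W x - w j x := fun j => (h j).cb.smooth
  have hb : ∀ j, Bd2 (fun x => W x - w j x) (t j) (t j) (t j) := fun j =>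
    WBas_bd2 (h j).cb le_rfl
  have e1 : ∀ j, fderiv ℝ (w j) =
      fun x => fderiv ℝ W x - fderiv ℝ (fun x => W x - w j x) x := fun j => by
    funext x
    have h1 := (hc.differentiable two_ne_zero x).hasFDerivAt.sub
      ((hd j).differentiable two_ne_zero x).hasFDerivAt
    have h2 : w j = W - fun x => W x - w j x := by
      funext y
      simp
    rw [← h2] at h1
    exact h1.fderiv
  have e2 : ∀ j, fderiv ℝ (fderiv ℝ (w j)) ξ =
      fderiv ℝ (fderiv ℝ W) ξ - fderiv ℝ (fderiv ℝ fun x => W x - w j x) ξ := fun j => by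
    rw [e1 j]
    exact ((GCalc_hasFDerivAt ξ hc).sub (GCalc_hasFDerivAt ξ (hd j))).fderiv
  have t1 : Tendsto (fun j => fderiv ℝ (w j) ξ) atTop (𝓝 (fderiv ℝ W ξ)) :=
    WBas_tend ht (fun j => congrFun (e1 j) ξ) fun j => (hb j).b1 ξ
  have t2 : ∀ i, Tendsto (fun j => fderiv ℝ (fderiv ℝ (w j)) ξ (ev i)) atTop
      (𝓝 (fderiv ℝ (fderiv ℝ W) ξ (ev i))) := fun i =>
    WBas_tend (d := fun j => fderiv ℝ (fderiv ℝ fun x => W x - w j x) ξ (ev i)) ht
      (fun j => by rw [e2 j, sub_apply])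
      fun j => (WBas_app ((hb j).b2 ξ) (ev i)).trans_eq (by rw [norm_ev, mul_one])
  have c1 : Continuous fun P : E m →L[ℝ] E N => (1 + P.adjoint ∘L P : E m →L[ℝ] E m) :=
    continuous_const.add ((GCalc_adj m N).continuous.clm_comp continuous_id)
  have t3 : Tendsto (fun j => gW (w j) ξ) atTop (𝓝 (gW W ξ)) := (c1.tendsto _).comp t1
  have t4 : Tendsto (fun j => giW (w j) ξ) atTop (𝓝 (giW W ξ)) := by
    obtain ⟨u, hu⟩ := isUnit_gW W ξ
    have h1 := NormedRing.inverse_continuousAt u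
    rw [hu] at h1
    exact h1.tendsto.comp t3
  have c2 : ∀ i, Continuous fun p : (E m →L[ℝ] E N) × (E m →L[ℝ] E m) => p.1 (p.2 (ev i)) :=
    fun i => continuous_fst.clm_apply (continuous_snd.clm_apply continuous_const)
  have t5 := tendsto_finsetSum Finset.univ fun i _ =>
    ((c2 i).tendsto _).comp ((t2 i).prodMk_nhds t4)
  have t6 : Tendsto (fun _ : ℕ => (0 : E N)) atTop
      (𝓝 (∑ i, fderiv ℝ (fderiv ℝ W) ξ (ev i) (giW W ξ (ev i)))) :=
    t5.congr fun j => hmin j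
  exact tendsto_nhds_unique t6 tendsto_const_nhds

theorem _root_.Pool.Agent.MP_f6c0e6_an.Gen.Wn.of_le
    {s s' : ℕ} {f : E m → E N} {M : ℝ} (h : Wn s f M) (hs : s' ≤ s) : Wn s' f M := by
  obtain ⟨a, b, h1, h2, h3⟩ := h
  have hle : ∀ k : Fin m → ℤ, (1 + ‖kv k‖) ^ s' * (‖a k‖ + ‖b k‖) ≤
      (1 + ‖kv k‖) ^ s * (‖a k‖ + ‖b k‖) := fun k =>
    mul_le_mul_of_nonneg_right
      (pow_le_pow_right₀ (le_add_of_nonneg_right (norm_nonneg _)) hs) (by positivity)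
  have hs' := Summable.of_nonneg_of_le (fun k => by positivity) hle h1
  exact ⟨a, b, hs', (hs'.tsum_le_tsum hle h1).trans h2, h3⟩

end WBas

section WCb0

variable {m N : ℕ}

section General

variable {F G H : Type*} [NormedAddCommGroup F] [NormedSpace ℝ F] [NormedAddCommGroup G]
  [NormedSpace ℝ G] [NormedAddCommGroup H] [NormedSpace ℝ H] {n n' : ℕ} {f : E m → F}
  {g : E m → G} {M M' : ℝ}

theorem Cb.nonneg (h : Cb n f M) : 0 ≤ M := by
  exact (norm_nonneg _).trans (h.bd 0 (Nat.zero_le _) 0)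

theorem Cb.mono (h : Cb n f M) (hn : n' ≤ n) (hM : M ≤ M') : Cb n' f M' := by
  exact ⟨h.smooth.of_le (by exact_mod_cast hn), fun j hj x => (h.bd j (hj.trans hn) x).trans hM⟩

theorem Cb.norm_le (h : Cb n f M) (x : E m) : ‖f x‖ ≤ M := by
  have := h.bd 0 (Nat.zero_le _) x
  rwa [norm_iteratedFDeriv_zero] at this

theorem Cb.const (n : ℕ) (c : F) : Cb n (fun _ : E m => c) ‖c‖ := by
  refine ⟨contDiff_const, fun j _ x => ?_⟩
  rcases Nat.eq_zero_or_pos j with rfl | hj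
  · rw [norm_iteratedFDeriv_zero]
  · rw [iteratedFDeriv_const_of_ne hj.ne']
    simp

theorem Cb.add {f' : E m → F} (h : Cb n f M) (h' : Cb n f' M') :
    Cb n (fun x => f x + f' x) (M + M') := by
  refine ⟨h.smooth.add h'.smooth, fun j hj x => ?_⟩
  have h1 : ContDiffAt ℝ j f x := (h.smooth.of_le (by exact_mod_cast hj)).contDiffAt
  have h2 : ContDiffAt ℝ j f' x := (h'.smooth.of_le (by exact_mod_cast hj)).contDiffAt
  have h3 := iteratedFDeriv_add_apply h1 h2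
  have h4 : (fun x => f x + f' x) = f + f' := rfl
  rw [h4, h3]
  exact (norm_add_le _ _).trans (add_le_add (h.bd j hj x) (h'.bd j hj x))

theorem Cb.sum {ι : Type*} (I : Finset ι) {f : ι → E m → F} {M : ι → ℝ}
    (h : ∀ i ∈ I, Cb n (f i) (M i)) : Cb n (fun x => ∑ i ∈ I, f i x) (∑ i ∈ I, M i) := by
  classical
  induction I using Finset.induction_on with
  | empty => simpa using Cb.const (m := m) n (0 : F)
  | insert a s ha ih =>
    simp only [Finset.sum_insert ha]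
    exact (h a (Finset.mem_insert_self _ _)).add
      (ih fun i hi => h i (Finset.mem_insert_of_mem hi))

/-- `ContinuousLinearMap.norm_iteratedFDeriv_comp_left` -/
theorem Cb.clm (h : Cb n f M) (L : F →L[ℝ] G) : Cb n (fun x => L (f x)) (‖L‖ * M) := by
  refine ⟨L.contDiff.comp h.smooth, fun j hj x => ?_⟩
  have h1 := L.norm_iteratedFDeriv_comp_left (x := x) h.smooth.contDiffAt
    (n := j) (by exact_mod_cast hj)
  exact h1.trans (mul_le_mul_of_nonneg_left (h.bd j hj x) (norm_nonneg _))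

theorem WCb0_sum (h : Cb n f M) (h' : Cb n g M') {j : ℕ} (hj : j ≤ n) (x : E m) :
    ∑ i ∈ Finset.range (j + 1), (j.choose i : ℝ) * ‖iteratedFDeriv ℝ i f x‖ *
      ‖iteratedFDeriv ℝ (j - i) g x‖ ≤ 2 ^ n * M * M' := by
  have hM := h.nonneg
  have hM' := h'.nonneg
  calc _ ≤ ∑ i ∈ Finset.range (j + 1), (j.choose i : ℝ) * M * M' := by
        refine Finset.sum_le_sum fun i hi => ?_
        have hi' : i ≤ j := Nat.lt_succ_iff.1 (Finset.mem_range.1 hi)
        have a := h.bd i (hi'.trans hj) x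
        have b := h'.bd (j - i) ((Nat.sub_le _ _).trans hj) x
        gcongr
    _ = (∑ i ∈ Finset.range (j + 1), (j.choose i : ℝ)) * M * M' := by
        rw [Finset.sum_mul, Finset.sum_mul]
    _ = 2 ^ j * M * M' := by
        have : (∑ i ∈ Finset.range (j + 1), (j.choose i : ℝ)) = 2 ^ j := by
          exact_mod_cast Nat.sum_range_choose j
        rw [this]
    _ ≤ 2 ^ n * M * M' := by
        have : (2 : ℝ) ^ j ≤ 2 ^ n := pow_le_pow_right₀ (by norm_num) hj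
        gcongr

/-- `ContinuousLinearMap.norm_iteratedFDeriv_le_of_bilinear`, `Nat.sum_range_choose` -/
theorem Cb.bilin (B : F →L[ℝ] G →L[ℝ] H) (h : Cb n f M) (h' : Cb n g M') :
    Cb n (fun x => B (f x) (g x)) (‖B‖ * 2 ^ n * M * M') := by
  refine ⟨(B.contDiff.comp h.smooth).clm_apply h'.smooth, fun j hj x => ?_⟩
  have h1 := B.norm_iteratedFDeriv_le_of_bilinear h.smooth h'.smooth x (n := j)
    (by exact_mod_cast hj)
  refine h1.trans ?_
  have h2 := WCb0_sum h h' hj x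
  calc _ ≤ ‖B‖ * (2 ^ n * M * M') :=
        mul_le_mul_of_nonneg_left h2 B.opNorm_nonneg
    _ = _ := by ring

theorem Cb.smul {c : E m → ℝ} (h : Cb n c M) (h' : Cb n f M') :
    Cb n (fun x => c x • f x) (2 ^ n * M * M') := by
  refine ⟨h.smooth.smul h'.smooth, fun j hj x => ?_⟩
  exact (norm_iteratedFDeriv_smul_le h.smooth h'.smooth x (n := j)
    (by exact_mod_cast hj)).trans (WCb0_sum h h' hj x)

theorem Cb.mul {c c' : E m → ℝ} (h : Cb n c M) (h' : Cb n c' M') :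
    Cb n (fun x => c x * c' x) (2 ^ n * M * M') := by
  exact h.smul h'

theorem Cb.app {L : E m → F →L[ℝ] G} (h : Cb n L M) (h' : Cb n f M') :
    Cb n (fun x => L x (f x)) (2 ^ n * M * M') := by
  refine ⟨h.smooth.clm_apply h'.smooth, fun j hj x => ?_⟩
  exact (norm_iteratedFDeriv_clm_apply h.smooth h'.smooth x (n := j)
    (by exact_mod_cast hj)).trans (WCb0_sum h h' hj x)

/-- `norm_iteratedFDeriv_fderiv` -/
theorem Cb.fderiv (h : Cb (n + 1) f M) : Cb n (fderiv ℝ f) M := by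
  refine ⟨h.smooth.fderiv_right (by push_cast; exact le_rfl), fun j hj x => ?_⟩
  rw [norm_iteratedFDeriv_fderiv]
  exact h.bd (j + 1) (Nat.succ_le_succ hj) x

/-- `norm_iteratedFDeriv_comp_le` with `D = 1`; the derivatives of `Φ` are bounded on the compact
unit ball -/
theorem Cb.comp [FiniteDimensional ℝ F] (m n : ℕ) {Φ : F → G} (hΦ : ContDiff ℝ n Φ) :
    ∃ C : ℝ, 1 ≤ C ∧ ∀ f : E m → F, Cb n f 1 → Cb n (fun x => Φ (f x)) C := by
  have hb : ∀ j : ℕ, ∃ C : ℝ, 0 ≤ C ∧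
      (j ≤ n → ∀ y ∈ closedBall (0 : F) 1, ‖iteratedFDeriv ℝ j Φ y‖ ≤ C) := by
    intro j
    by_cases hj : j ≤ n
    · have hc : Continuous fun y => iteratedFDeriv ℝ j Φ y :=
        hΦ.continuous_iteratedFDeriv (by exact_mod_cast hj)
      have : ProperSpace F := FiniteDimensional.proper_real F
      obtain ⟨C, hC⟩ := (isCompact_closedBall (0 : F) 1).exists_bound_of_continuousOn
        hc.continuousOn
      exact ⟨max C 0, le_max_right _ _, fun _ y hy => (hC y hy).trans (le_max_left _ _)⟩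
    · exact ⟨0, le_rfl, fun h => absurd h hj⟩
  choose C hC0 hC using hb
  set C0 : ℝ := ∑ j ∈ Finset.range (n + 1), C j with hC0def
  have hC1 : ∀ j ≤ n, C j ≤ C0 := fun j hj =>
    Finset.single_le_sum (f := C) (fun i _ => hC0 i) (Finset.mem_range.2 (Nat.lt_succ_of_le hj))
  have hC2 : 0 ≤ C0 := Finset.sum_nonneg fun i _ => hC0 i
  refine ⟨1 + (n.factorial : ℝ) * C0, le_add_of_nonneg_right (by positivity), fun f hf => ?_⟩
  refine ⟨hΦ.comp hf.smooth, fun j hj x => ?_⟩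
  have hx : f x ∈ closedBall (0 : F) 1 := by
    rw [mem_closedBall_zero_iff]; exact hf.norm_le x
  have h1 := norm_iteratedFDeriv_comp_le hΦ hf.smooth (n := j) (by exact_mod_cast hj) x
    (C := C0) (D := 1) (fun i hi => (hC i (hi.trans hj) _ hx).trans (hC1 i (hi.trans hj)))
    (fun i _ hi => by rw [one_pow]; exact hf.bd i (hi.trans hj) x)
  have h2 : (j.factorial : ℝ) ≤ n.factorial := by exact_mod_cast Nat.factorial_le hj
  have h3 : (j.factorial : ℝ) * C0 ≤ n.factorial * C0 := mul_le_mul_of_nonneg_right h2 hC2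
  rw [one_pow, mul_one] at h1
  have h4 : (fun x => Φ (f x)) = Φ ∘ f := rfl
  rw [h4]
  linarith

theorem Cb.bd2 (h : Cb 2 f M) : Bd2 f M M M := by
  have h1 : Cb 1 (_root_.fderiv ℝ f) M := Cb.fderiv (n := 1) h
  have h2 : Cb 0 (_root_.fderiv ℝ (_root_.fderiv ℝ f)) M := Cb.fderiv (n := 0) h1
  exact ⟨h.norm_le, h1.norm_le, h2.norm_le⟩

theorem Cb.lip (h : Cb 1 f M) : Lip M f := by
  intro x x'
  have h1 : Cb 0 (_root_.fderiv ℝ f) M := Cb.fderiv (n := 0) h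
  have hd : Differentiable ℝ f := h.smooth.differentiable (by simp)
  exact convex_univ.norm_image_sub_le_of_norm_fderiv_le (fun y _ => hd y)
    (fun y _ => h1.norm_le y) (mem_univ x') (mem_univ x)

/-- locality (`Filter.EventuallyEq.iteratedFDeriv` or `iteratedFDerivWithin_univ`) -/
theorem Cb.local {f' : E m → F} (h : Cb n f M)
    (hl : ∀ x, f' =ᶠ[𝓝 x] f ∨ f' =ᶠ[𝓝 x] fun _ => 0) : Cb n f' M := by
  refine ⟨contDiff_iff_contDiffAt.2 fun x => ?_, fun j hj x => ?_⟩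
  · rcases hl x with h1 | h1
    · exact h.smooth.contDiffAt.congr_of_eventuallyEq h1
    · exact contDiffAt_const.congr_of_eventuallyEq h1
  · rcases hl x with h1 | h1
    · rw [(h1.iteratedFDeriv ℝ j).eq_of_nhds]
      exact h.bd j hj x
    · rw [(h1.iteratedFDeriv ℝ j).eq_of_nhds, iteratedFDeriv_fun_zero]
      simpa using h.nonneg

end General

end WCb0

section WCb

variable {m N : ℕ}

theorem WCb_lin (p : E m →L[ℝ] E N) : gW (⇑p) 0 = 1 + GCalc_adj m N p ∘L p := by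
  rw [gW, p.fderiv]
  rfl

theorem WCb_gW (w : E m → E N) (x : E m) : gW (⇑(fderiv ℝ w x)) 0 = gW w x := WCb_lin _

theorem WCb_smooth (m N n : ℕ) :
    ContDiff ℝ n (fun p : E m →L[ℝ] E N => giW (⇑p) 0) ∧
      ContDiff ℝ n (fun p : E m →L[ℝ] E N => sgW (⇑p) 0) ∧
      ContDiff ℝ n (fun p : E m →L[ℝ] E N => (sgW (⇑p) 0)⁻¹) := by
  have h2 : ContDiff ℝ n (fun p : E m →L[ℝ] E N => gW (⇑p) 0) := by
    simp only [WCb_lin]
    exact contDiff_const.add ((GCalc_adj m N).contDiff.clm_comp contDiff_id)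
  have h3 : ContDiff ℝ n (fun p : E m →L[ℝ] E N => sgW (⇑p) 0) :=
    ((GCalc_dt_smooth n).comp h2).sqrt fun p => (zero_lt_one.trans_le (sgW_bd _ _).1).ne'
  refine ⟨contDiff_iff_contDiffAt.2 fun p => ?_, h3,
    h3.inv fun p => (zero_lt_one.trans_le (sgW_bd _ _).2.1).ne'⟩
  obtain ⟨u, hu⟩ := isUnit_gW (⇑p) 0
  have h4 := contDiffAt_ringInverse ℝ (n := n) u
  rw [hu] at h4
  exact h4.comp p h2.contDiffAt

/-- The coefficients are smooth functions of the derivative. -/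
theorem cb_coef (m N n : ℕ) : ∃ C : ℝ, 1 ≤ C ∧ ∀ w : E m → E N, Cb (n + 1) w 1 →
    Cb n (giW w) C ∧ Cb n (sgW w) C ∧ Cb n (fun x => (sgW w x)⁻¹) C := by
  obtain ⟨h1, h2, h3⟩ := WCb_smooth m N n
  obtain ⟨C1, a1, b1⟩ := Cb.comp m n h1
  obtain ⟨C2, -, b2⟩ := Cb.comp m n h2
  obtain ⟨C3, -, b3⟩ := Cb.comp m n h3
  refine ⟨max C1 (max C2 C3), le_max_of_le_left a1, fun w hw => ?_⟩
  have c1 := b1 _ hw.fderiv
  have c2 := b2 _ hw.fderiv
  have c3 := b3 _ hw.fderiv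
  simp only [giW, sgW, WCb_gW] at c1 c2 c3
  exact ⟨c1.mono le_rfl (le_max_left _ _),
    c2.mono le_rfl ((le_max_left _ _).trans (le_max_right _ _)),
    c3.mono le_rfl ((le_max_right _ _).trans (le_max_right _ _))⟩

theorem WCb_ev {G : Type*} [NormedAddCommGroup G] [NormedSpace ℝ G] {n : ℕ}
    {L : E m → E m →L[ℝ] G} {M : ℝ} (h : Cb n L M) (j : Fin m) :
    Cb n (fun x => L x (ev j)) (2 ^ n * M) := by
  have h1 := h.app (Cb.const n (ev j))
  rwa [norm_ev, mul_one] at h1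

theorem cb_Lst (m N : ℕ) : ∃ C : ℝ, 1 ≤ C ∧ ∀ (w ψ : E m → E N) (M : ℝ), Cb 4 w 1 → Cb 3 ψ M →
    Cb 1 (fun x => sgW w x • Lst w ψ x) (C * M) := by
  obtain ⟨C, hC, h⟩ := cb_coef m N 2
  refine ⟨max 1 (2 * C * (m * (8 * C) + 4 * (m * (1024 * ‖GCalc_adj m N‖ * C ^ 2)))),
    le_max_left _ _, fun w ψ M hw hψ => ?_⟩
  obtain ⟨h1, h2, -⟩ := h w (hw.mono (by norm_num) le_rfl)
  have hM := hψ.nonneg
  have g1 : ∀ j, Cb 1 (fun x => giW w x (ev j)) (2 ^ 1 * C) := fun j =>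
    WCb_ev (h1.mono one_le_two le_rfl) j
  have t1 : ∀ j, Cb 1 (fun x => fderiv ℝ (fderiv ℝ ψ) x (ev j) (giW w x (ev j))) (8 * C * M) :=
    fun j => ((WCb_ev hψ.fderiv.fderiv j).app (g1 j)).mono le_rfl (le_of_eq (by ring))
  have c1 : ∀ j, Cb 2 (cW w ψ j) (256 * ‖GCalc_adj m N‖ * C * M) := fun j =>
    ((hw.fderiv.mono (n' := 2) (by norm_num) le_rfl).app (h1.app
      (((WCb_ev hw.fderiv.fderiv j).clm (GCalc_adj m N)).app
        (hψ.mono (n' := 2) (by norm_num) le_rfl)))).mono le_rfl (le_of_eq (by ring))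
  have t2 : ∀ j, Cb 1 (fun x => fderiv ℝ (cW w ψ j) x (giW w x (ev j)))
      (1024 * ‖GCalc_adj m N‖ * C ^ 2 * M) :=
    fun j => ((c1 j).fderiv.app (g1 j)).mono le_rfl (le_of_eq (by ring))
  have s1 := Cb.sum Finset.univ fun j _ => t1 j
  have s2 := (Cb.const (m := m) 1 (2 : ℝ)).smul (Cb.sum Finset.univ fun j _ => t2 j)
  simp only [Finset.sum_const, Finset.card_univ, Fintype.card_fin, nsmul_eq_mul,
    Real.norm_ofNat] at s1 s2
  refine ((h2.mono one_le_two le_rfl).smul (s1.add s2)).mono le_rfl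
    (le_trans (le_of_eq ?_) (mul_le_mul_of_nonneg_right (le_max_right _ _) hM))
  ring

end WCb

end Pool.Agent.MP_f6c0e6_an.Gen.Wie

end

section

/-! Green's identity, mollification and the weak equation. -/

set_option autoImplicit false

open MeasureTheory Filter Topology Set Metric
open scoped ENNReal RealInnerProductSpace

namespace Pool.Agent.MP_f6c0e6_an.Gen.Wie

section WGreen0

variable {m N : ℕ}

/-- `integral_fderiv_eq_zero`-type lemmas: `integral_bilinear_hasFDerivAt_right_eq_neg_left_of_integrable`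
or `integral_mul_fderiv_eq_neg_fderiv_mul_of_integrable` -/
theorem WGreen_dv {V : E m → E m} (hV : ContDiff ℝ 1 V) (hc : HasCompactSupport V) :
    ∫ x, dv V x = 0 := by
  have hd : Differentiable ℝ V := hV.differentiable one_ne_zero
  have hcont : Continuous (fderiv ℝ V) := hV.continuous_fderiv one_ne_zero
  have hint : ∀ i : Fin m, Integrable (fun x => ⟪ev i, fderiv ℝ V x (ev i)⟫) := fun i => by
    refine Continuous.integrable_of_hasCompactSupport (by fun_prop) ?_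
    refine (hc.fderiv ℝ).mono fun x hx => ?_
    intro h0
    apply hx
    simp [h0]
  unfold dv
  rw [integral_finsetSum _ fun i _ => hint i]
  refine Finset.sum_eq_zero fun i _ => ?_
  have hg : ∀ x, HasFDerivAt (fun x => ⟪ev i, V x⟫) ((innerSL ℝ (ev i)).comp (fderiv ℝ V x)) x :=
    fun x => (innerSL ℝ (ev i)).hasFDerivAt.comp x (hd x).hasFDerivAt
  have hgi : Integrable (fun x => ⟪ev i, V x⟫) := by
    refine Continuous.integrable_of_hasCompactSupport (by fun_prop) ?_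
    refine hc.mono fun x hx => ?_
    intro h0
    apply hx
    simp [h0]
  have h := integral_mul_fderiv_eq_neg_fderiv_mul_of_integrable (μ := volume)
    (f := fun _ : E m => (1 : ℝ)) (g := fun x => ⟪ev i, V x⟫) (v := ev i) (by simp)
    (by simpa [fun x => (hg x).fderiv] using hint i) (by simpa using hgi)
    (fun x _ => differentiableAt_const _) (fun x _ => (hg x).differentiableAt)
  simpa [fun x => (hg x).fderiv] using h

/-- the divergence of `h • sgW w • giW w u` is `sgW w * Dh (giW w u)` by `div_sgW` -/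
theorem WGreen_one {w : E m → E N} (hw : ContDiff ℝ 2 w) {O : Set (E m)}
    (hmin : ∀ ξ ∈ O, MinAt w ξ) {h : E m → ℝ} (hh : Test 1 h O) (u : E m) :
    ∫ x, sgW w x * fderiv ℝ h x (giW w x u) = 0 := by
  obtain ⟨-, h2, h3⟩ := contDiff_gW (n := 1) hw
  have hS : ContDiff ℝ 1 (fun y => sgW w y • giW w y u) := h3.smul (h2.clm_apply contDiff_const)
  have hh1 : ContDiff ℝ 1 h := by simpa using hh.smooth
  have hV := WGreen_dv (V := fun y => h y • (sgW w y • giW w y u)) (hh1.smul hS)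
    (hh.cpt.mono fun x hx h0 => hx (by simp [h0]))
  rw [← hV]
  refine integral_congr_ae (Eventually.of_forall fun x => ?_)
  have hd := ((hh1.differentiable one_ne_zero x).hasFDerivAt.smul
    (hS.differentiable one_ne_zero x).hasFDerivAt).fderiv
  have hd' : fderiv ℝ (fun y => h y • (sgW w y • giW w y u)) x = _ := hd
  have h0 : h x * dv (fun y => sgW w y • giW w y u) x = 0 := by
    by_cases hx : x ∈ O
    · rw [div_sgW x hw (hmin x hx), mul_zero]
    · rw [image_eq_zero_of_notMem_tsupport fun hx' => hx (hh.supp hx'), zero_mul]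
  have h1 : fderiv ℝ h x (sgW w x • giW w x u) =
      ∑ i, fderiv ℝ h x (ev i) * ⟪ev i, sgW w x • giW w x u⟫ := by
    conv_lhs => rw [← sum_ev (sgW w x • giW w x u), map_sum]
    exact Finset.sum_congr rfl fun i _ => by rw [map_smul, smul_eq_mul, mul_comm]
  show sgW w x * fderiv ℝ h x (giW w x u) = dv _ x
  rw [← smul_eq_mul, ← map_smul, h1, ← zero_add (∑ _, _), ← h0, dv, dv, hd', Finset.mul_sum,
    ← Finset.sum_add_distrib]
  refine Finset.sum_congr rfl fun i _ => ?_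
  simp only [add_apply, smul_apply, ContinuousLinearMap.smulRight_apply, inner_add_right,
    real_inner_smul_right]

theorem WGreen0_cW {w ψ : E m → E N} (hw : ContDiff ℝ 3 w) (hψ : ContDiff ℝ 2 ψ) (j : Fin m) :
    ContDiff ℝ 1 (cW w ψ j) := by
  obtain ⟨-, h2, -⟩ := contDiff_gW (n := 1) (hw.of_le (by norm_num))
  have h1 : ContDiff ℝ 2 (fderiv ℝ w) := hw.fderiv_right (by norm_num)
  have h3 : ContDiff ℝ 1 (fderiv ℝ (fderiv ℝ w)) := h1.fderiv_right (by norm_num)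
  have h4 : ContDiff ℝ 1 fun x => (fderiv ℝ (fderiv ℝ w) x (ev j)).adjoint :=
    (GCalc_adj m N).contDiff.comp (h3.clm_apply contDiff_const)
  exact (h1.of_le (by norm_num)).clm_apply
    (h2.clm_apply (h4.clm_apply (hψ.of_le (by norm_num))))

theorem WGreen0_ev {w ψ : E m → E N} {x : E m} (hx : x ∉ tsupport ψ) (j : Fin m) :
    cW w ψ j =ᶠ[𝓝 x] fun _ => 0 := by
  filter_upwards [notMem_tsupport_iff_eventuallyEq.1 hx] with y hy
  simp [cW, hy]

theorem WGreen0_Lf {w u : E m → E N} (hw : ContDiff ℝ 2 w) (hu : ContDiff ℝ 2 u) :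
    Continuous (Lf w u) := by
  obtain ⟨-, h2, -⟩ := contDiff_gW (n := 1) hw
  have h2' : Continuous (giW w) := h2.continuous
  have h1 : ContDiff ℝ 1 (fderiv ℝ w) := hw.fderiv_right (by norm_num)
  have h3 : Continuous (fderiv ℝ (fderiv ℝ w)) := h1.continuous_fderiv one_ne_zero
  have h4 : ContDiff ℝ 1 (fderiv ℝ u) := hu.fderiv_right (by norm_num)
  have h5 : Continuous (fderiv ℝ (fderiv ℝ u)) := h4.continuous_fderiv one_ne_zero
  have h6 : Continuous fun x => (fderiv ℝ w x).adjoint :=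
    (GCalc_adj m N).continuous.comp h1.continuous
  have h7 : Continuous (fderiv ℝ u) := h4.continuous
  refine (continuous_finsetSum _ fun j _ => ?_).sub
    ((continuous_finsetSum _ fun j _ => ?_).const_smul (2 : ℝ))
  · exact (h5.clm_apply continuous_const).clm_apply (h2'.clm_apply continuous_const)
  · exact (h3.clm_apply continuous_const).clm_apply
      (h2'.clm_apply (h6.clm_apply (h7.clm_apply (h2'.clm_apply continuous_const))))

/-- the function to which `WGreen_one` is applied -/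
noncomputable def WGreen0_h (w u ψ : E m → E N) (j : Fin m) (x : E m) : ℝ :=
  ⟪ψ x, fderiv ℝ u x (ev j)⟫ - ⟪fderiv ℝ ψ x (ev j), u x⟫ - 2 * ⟪cW w ψ j x, u x⟫

theorem WGreen0_test {w u ψ : E m → E N} (hw : ContDiff ℝ 3 w) (hu : ContDiff ℝ 2 u)
    {O : Set (E m)} (hψ : Test 2 ψ O) (j : Fin m) : Test 1 (WGreen0_h w u ψ j) O := by
  have hψ2 : ContDiff ℝ 2 ψ := by simpa using hψ.smooth
  have h1 : ContDiff ℝ 1 (fderiv ℝ u) := hu.fderiv_right (by norm_num)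
  have h2 : ContDiff ℝ 1 (fderiv ℝ ψ) := hψ2.fderiv_right (by norm_num)
  have hu1 : ContDiff ℝ 1 u := hu.of_le (by norm_num)
  have hψ1 : ContDiff ℝ 1 ψ := hψ2.of_le (by norm_num)
  have hs : tsupport (WGreen0_h w u ψ j) ⊆ tsupport ψ := by
    refine closure_minimal (fun x hx => ?_) (isClosed_tsupport ψ)
    by_contra hx'
    apply hx
    have e1 : ψ x = 0 := image_eq_zero_of_notMem_tsupport hx'
    have e2 : fderiv ℝ ψ x = 0 := fderiv_of_notMem_tsupport ℝ hx'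
    simp [WGreen0_h, cW, e1, e2]
  refine ⟨?_, hψ.cpt.of_isClosed_subset (isClosed_tsupport _) hs, hs.trans hψ.supp⟩
  have : ContDiff ℝ 1 (WGreen0_h w u ψ j) :=
    ((hψ1.inner ℝ (h1.clm_apply contDiff_const)).sub
      ((h2.clm_apply contDiff_const).inner ℝ hu1)).sub
      (contDiff_const.mul ((WGreen0_cW hw hψ2 j).inner ℝ hu1))
  simpa using this

theorem WGreen0_fderiv {w u ψ : E m → E N} (hw : ContDiff ℝ 3 w) (hu : ContDiff ℝ 2 u)
    (hψ : ContDiff ℝ 2 ψ) (j : Fin m) (x v : E m) :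
    fderiv ℝ (WGreen0_h w u ψ j) x v =
      ⟪ψ x, fderiv ℝ (fderiv ℝ u) x (ev j) v⟫ + ⟪fderiv ℝ u x (ev j), fderiv ℝ ψ x v⟫ -
        (⟪fderiv ℝ ψ x (ev j), fderiv ℝ u x v⟫ + ⟪fderiv ℝ (fderiv ℝ ψ) x (ev j) v, u x⟫) -
        2 * (⟪cW w ψ j x, fderiv ℝ u x v⟫ + ⟪fderiv ℝ (cW w ψ j) x v, u x⟫) := by
  have h1 := (GCalc_hasFDerivAt x hu).clm_apply (hasFDerivAt_const (ev j) x)
  have h2 := (GCalc_hasFDerivAt x hψ).clm_apply (hasFDerivAt_const (ev j) x)
  have hu1 := (hu.differentiable (by norm_num) x).hasFDerivAt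
  have hψ1 := (hψ.differentiable (by norm_num) x).hasFDerivAt
  have h3 := ((WGreen0_cW hw hψ j).differentiable one_ne_zero x).hasFDerivAt
  have h4 := ((hψ1.inner ℝ h1).sub (h2.inner ℝ hu1)).sub ((h3.inner ℝ hu1).const_mul (2 : ℝ))
  have h5 : fderiv ℝ (WGreen0_h w u ψ j) x = _ := h4.fderiv
  rw [h5, hess_symm hu x (ev j) v, hess_symm hψ x (ev j) v,
    real_inner_comm (fderiv ℝ ψ x v) (fderiv ℝ u x (ev j))]
  simp [fderivInnerCLM_apply]

theorem WGreen0_sum {w u ψ : E m → E N} (hw : ContDiff ℝ 3 w) (hu : ContDiff ℝ 2 u)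
    (hψ : ContDiff ℝ 2 ψ) (x : E m) :
    ∑ j, fderiv ℝ (WGreen0_h w u ψ j) x (giW w x (ev j)) =
      ⟪ψ x, Lf w u x⟫ - ⟪Lst w ψ x, u x⟫ := by
  have h1 := GCalc_swap (giW_symm w x) (fderiv ℝ u x) (fderiv ℝ ψ x)
  have h2 : ∀ (j : Fin m) (z : E N), ⟪cW w ψ j x, z⟫ = ⟪ψ x, fderiv ℝ (fderiv ℝ w) x (ev j)
      (giW w x ((fderiv ℝ w x).adjoint z))⟫ := fun j z => by
    rw [cW, ← ContinuousLinearMap.adjoint_inner_right, giW_symm,
      ContinuousLinearMap.adjoint_inner_left]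
  simp only [WGreen0_fderiv hw hu hψ, h2, Lf, Lst, inner_sub_right, inner_add_left, inner_sum,
    sum_inner, real_inner_smul_right, real_inner_smul_left, Finset.sum_sub_distrib,
    Finset.sum_add_distrib, mul_add, ← Finset.mul_sum, h1]
  ring

/-- Apply `WGreen_one` with the vector `ev j` to
`h j = ⟪ψ, ∂_j u⟫ - ⟪∂_j ψ, u⟫ - 2 ⟪cW w ψ j, u⟫` and sum over `j`. The terms
`∑ j, ⟪Dψ (g⁻¹ e_j), Du e_j⟫` and `∑ j, ⟪Dψ e_j, Du (g⁻¹ e_j)⟫` cancel by the symmetry of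
`giW`; `⟪cW w ψ j, Du (g⁻¹ e_j)⟫ = ⟪ψ, H (e_j, g⁻¹ Dwᵀ Du g⁻¹ e_j)⟫`. -/
theorem green {w u ψ : E m → E N} (hw : ContDiff ℝ 3 w) (hu : ContDiff ℝ 2 u) {O : Set (E m)}
    (hmin : ∀ ξ ∈ O, MinAt w ξ) (hψ : Test 2 ψ O) :
    ∫ x, sgW w x * ⟪ψ x, Lf w u x⟫ = ∫ x, ⟪sgW w x • Lst w ψ x, u x⟫ := by
  have hw2 : ContDiff ℝ 2 w := hw.of_le (by norm_num)
  have hψ2 : ContDiff ℝ 2 ψ := by simpa using hψ.smooth
  obtain ⟨-, h2, h3⟩ := contDiff_gW (n := 1) hw2
  have hint : ∀ j : Fin m, Integrable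
      (fun x => sgW w x * fderiv ℝ (WGreen0_h w u ψ j) x (giW w x (ev j))) := fun j => by
    have ht := WGreen0_test hw hu hψ j
    have ht1 : ContDiff ℝ 1 (WGreen0_h w u ψ j) := by simpa using ht.smooth
    refine Continuous.integrable_of_hasCompactSupport (h3.continuous.mul
      ((ht1.continuous_fderiv one_ne_zero).clm_apply (h2.continuous.clm_apply continuous_const))) ?_
    refine (ht.cpt.fderiv ℝ).mono fun x hx h0 => hx ?_
    simp [h0]
  have hA : Integrable fun x => sgW w x * ⟪ψ x, Lf w u x⟫ := by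
    refine Continuous.integrable_of_hasCompactSupport (h3.continuous.mul
      (hψ2.continuous.inner (WGreen0_Lf hw2 hu))) ?_
    refine hψ.cpt.mono fun x hx h0 => hx ?_
    simp [h0]
  have hB : ∀ x, ⟪sgW w x • Lst w ψ x, u x⟫ = sgW w x * ⟪ψ x, Lf w u x⟫ -
      ∑ j, sgW w x * fderiv ℝ (WGreen0_h w u ψ j) x (giW w x (ev j)) := fun x => by
    rw [← Finset.mul_sum, WGreen0_sum hw hu hψ2, real_inner_smul_left]
    ring
  simp only [hB]
  rw [integral_sub hA (integrable_finsetSum _ fun j _ => hint j),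
    integral_finsetSum _ fun j _ => hint j,
    Finset.sum_eq_zero fun j _ => WGreen_one hw2 hmin (WGreen0_test hw hu hψ j) (ev j), sub_zero]

theorem Lst_eq_zero (w : E m → E N) {ψ : E m → E N} {x : E m} (hx : x ∉ tsupport ψ) :
    Lst w ψ x = 0 := by
  have h1 : fderiv ℝ (fderiv ℝ ψ) x = 0 :=
    fderiv_of_notMem_tsupport ℝ fun h => hx (tsupport_fderiv_subset ℝ h)
  have h2 : ∀ j, fderiv ℝ (cW w ψ j) x = 0 := fun j => by
    rw [(WGreen0_ev hx j).fderiv_eq]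
    simp
  simp [Lst, h1, h2]

end WGreen0

section WGreen

variable {m N : ℕ}

theorem WGreen_cpt (hm : 1 ≤ m) {s : ℝ} (hs : 0 < s) (ξ₀ : E m) :
    HasCompactSupport fun ξ : E m => th s (ξ - ξ₀) :=
  HasCompactSupport.intro (isCompact_closedBall ξ₀ s) fun ξ hξ =>
    th_eq_zero hs (by
      rw [mem_closedBall, dist_eq_norm, not_le] at hξ
      exact hξ.le) hm

theorem WGreen_cont (s : ℝ) : Continuous (th s : E m → ℝ) := (contDiff_th s 0).continuous

theorem WGreen_lip {F : Type} [NormedAddCommGroup F] {B : E m → F} {K : ℝ} (hK : 0 ≤ K)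
    (hB : Lip K B) : Continuous B :=
  (LipschitzWith.of_dist_le_mul (K := ⟨K, hK⟩) fun a b => by
    rw [dist_eq_norm, dist_eq_norm]
    exact hB a b).continuous

theorem WGreen_int (hm : 1 ≤ m) {F : Type} [NormedAddCommGroup F] [NormedSpace ℝ F]
    {u : E m → F} (hu : Continuous u) {s : ℝ} (hs : 0 < s) (ξ₀ : E m) :
    Integrable fun ξ => th s (ξ - ξ₀) • u ξ :=
  Continuous.integrable_of_hasCompactSupport
    (((WGreen_cont s).comp (continuous_id.sub continuous_const)).smul hu)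
    (WGreen_cpt hm hs ξ₀).smul_right

theorem WGreen_avg (hm : 1 ≤ m) {F : Type} [NormedAddCommGroup F] [NormedSpace ℝ F]
    [CompleteSpace F] {u : E m → F} (hu : Continuous u) {s M : ℝ} (hs : 0 < s) {ξ₀ : E m}
    (hM : ∀ ξ ∈ ball ξ₀ s, ‖u ξ₀ - u ξ‖ ≤ M) : ‖u ξ₀ - ∫ ξ, th s (ξ - ξ₀) • u ξ‖ ≤ M := by
  have h1 : u ξ₀ = ∫ ξ, th s (ξ - ξ₀) • u ξ₀ := by
    rw [integral_smul_const, integral_th hs, one_smul]
  have h2 : M = ∫ ξ, th s (ξ - ξ₀) • M := by
    rw [integral_smul_const, integral_th hs, one_smul]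
  conv_lhs => rw [h1]
  rw [← integral_sub (WGreen_int hm continuous_const hs ξ₀) (WGreen_int hm hu hs ξ₀), h2]
  refine norm_integral_le_of_norm_le (WGreen_int hm continuous_const hs ξ₀) (.of_forall fun ξ => ?_)
  rw [← smul_sub, norm_smul, Real.norm_of_nonneg (th_nonneg hs _), smul_eq_mul]
  by_cases h : ξ ∈ ball ξ₀ s
  · exact mul_le_mul_of_nonneg_left (hM ξ h) (th_nonneg hs _)
  · rw [mem_ball, dist_eq_norm, not_lt] at h
    rw [th_eq_zero hs h hm, zero_mul, zero_mul]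

theorem WGreen_gen (hm : 1 ≤ m) {F G : Type} [NormedAddCommGroup F] [NormedSpace ℝ F]
    [CompleteSpace F] [NormedAddCommGroup G] [NormedSpace ℝ G] [CompleteSpace G]
    (L : F →L[ℝ] E N →L[ℝ] G) (hL : ∀ a b, ‖L a b‖ ≤ ‖a‖ * ‖b‖) {B : E m → F} {K r : ℝ}
    (hK : 0 ≤ K) (hB : Lip K B) (hc : HasCompactSupport B) (hr : 0 < r) {Ω : Type}
    [MeasurableSpace Ω] (μ : Measure Ω) [IsFiniteMeasure μ] {x : Ω → E m} {g : Ω → E N}
    (hx : Measurable x) (hg : Integrable g μ) :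
    ‖(∫ ξ, L (B ξ) (∫ y, th r (ξ - x y) • g y ∂μ)) - ∫ y, L (B (x y)) (g y) ∂μ‖ ≤
      K * r * ∫ y, ‖g y‖ ∂μ := by
  have hBc := WGreen_lip hK hB
  obtain ⟨C, -, hC⟩ := th_bd m
  have hth : ∀ v : E m, ‖th r v‖ ≤ C / r ^ m := fun v => by
    rw [Real.norm_of_nonneg (th_nonneg hr v)]
    exact (hC r hr).1 v
  have hC0 : 0 ≤ C / r ^ m := (norm_nonneg _).trans (hth 0)
  obtain ⟨M, hM⟩ := hBc.bounded_above_of_compact_support hc
  have hf : Integrable (Function.uncurry fun (ξ : E m) (y : Ω) =>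
      L (B ξ) (th r (ξ - x y) • g y)) (volume.prod μ) := by
    refine (((hBc.integrable_of_hasCompactSupport hc).norm.mul_prod hg.norm).const_mul
      (C / r ^ m)).mono' ?_ (.of_forall fun z => ?_)
    · have h0 : AEStronglyMeasurable (fun z : E m × Ω => th r (z.1 - x z.2)) (volume.prod μ) :=
        ((WGreen_cont r).measurable.comp
          (measurable_fst.sub (hx.comp measurable_snd))).aestronglyMeasurable
      have h1 : AEStronglyMeasurable (fun z : E m × Ω => th r (z.1 - x z.2) • g z.2)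
        (volume.prod μ) := h0.smul hg.1.comp_snd
      exact L.aestronglyMeasurable_comp₂ hBc.aestronglyMeasurable.comp_fst h1
    · refine (hL _ _).trans ?_
      rw [norm_smul, mul_left_comm]
      exact mul_le_mul_of_nonneg_right (hth _) (by positivity)
  have h1 : ∀ ξ, L (B ξ) (∫ y, th r (ξ - x y) • g y ∂μ) =
      ∫ y, L (B ξ) (th r (ξ - x y) • g y) ∂μ := fun ξ =>
    ((L (B ξ)).integral_comp_comm (hg.bdd_smul (C / r ^ m) ((WGreen_cont r).measurable.comp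
      (measurable_const.sub hx)).aestronglyMeasurable (.of_forall fun y => hth _))).symm
  have h2 : ∀ y, ∫ ξ, L (B ξ) (th r (ξ - x y) • g y) = L (∫ ξ, th r (ξ - x y) • B ξ) (g y) :=
    fun y => by
      rw [← L.flip_apply, ← (L.flip (g y)).integral_comp_comm (WGreen_int hm hBc hr (x y))]
      simp
  have h3 : Integrable (fun y => L (B (x y)) (g y)) μ := by
    refine (hg.norm.const_mul M).mono' ?_ (.of_forall fun y => ?_)
    · exact L.aestronglyMeasurable_comp₂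
        (hBc.stronglyMeasurable.comp_measurable hx).aestronglyMeasurable hg.1
    · exact (hL _ _).trans (mul_le_mul_of_nonneg_right (hM _) (norm_nonneg _))
  have h4 : Integrable (fun y => ∫ ξ, L (B ξ) (th r (ξ - x y) • g y)) μ := hf.integral_prod_right
  simp only [h1]
  rw [integral_integral_swap hf, ← integral_sub h4 h3, ← integral_const_mul]
  refine norm_integral_le_of_norm_le (hg.norm.const_mul _) (.of_forall fun y => ?_)
  rw [h2, ← sub_apply, ← map_sub]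
  refine (hL _ _).trans (mul_le_mul_of_nonneg_right ?_ (norm_nonneg _))
  rw [norm_sub_rev]
  refine WGreen_avg hm hBc hr fun ξ hξ => (hB _ _).trans (mul_le_mul_of_nonneg_left ?_ hK)
  rw [mem_ball, dist_eq_norm] at hξ
  rw [norm_sub_rev]
  exact hξ.le

/-- Fubini (`integral_integral_swap`); `|∫ th r (ξ - x) • B ξ - B x| ≤ K r` by `integral_th`,
`th_nonneg`, `th_eq_zero` -/
theorem moll_pair (hm : 1 ≤ m) {B : E m → E N} {K r : ℝ} (hK : 0 ≤ K) (hB : Lip K B)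
    (hc : HasCompactSupport B) (hr : 0 < r) {Ω : Type} [MeasurableSpace Ω] (μ : Measure Ω)
    [IsFiniteMeasure μ] {x : Ω → E m} {g : Ω → E N} (hx : Measurable x) (hg : Integrable g μ) :
    |(∫ ξ, ⟪B ξ, ∫ y, th r (ξ - x y) • g y ∂μ⟫) - ∫ y, ⟪B (x y), g y⟫ ∂μ| ≤
      K * r * ∫ y, ‖g y‖ ∂μ :=
  WGreen_gen hm (innerSL ℝ) (fun a b => norm_inner_le_norm a b) hK hB hc hr μ hx hg

/-- `moll_pair` with `B ξ = th s (ξ - ξ₀) • n` for unit vectors `n` -/
theorem moll_moll (hm : 1 ≤ m) {K r s : ℝ} (hK : 0 ≤ K) (hB : Lip K (th s : E m → ℝ)) (hr : 0 < r)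
    (hs : 0 < s) {Ω : Type} [MeasurableSpace Ω] (μ : Measure Ω) [IsFiniteMeasure μ]
    {x : Ω → E m} {g : Ω → E N} (hx : Measurable x) (hg : Integrable g μ) (ξ₀ : E m) :
    ‖(∫ ξ, th s (ξ - ξ₀) • ∫ y, th r (ξ - x y) • g y ∂μ) - ∫ y, th s (x y - ξ₀) • g y ∂μ‖ ≤
      K * r * ∫ y, ‖g y‖ ∂μ :=
  WGreen_gen hm (ContinuousLinearMap.lsmul ℝ ℝ) (fun a b => (norm_smul a b).le)
    (B := fun ξ => th s (ξ - ξ₀)) hK
    (fun a b => (hB _ _).trans_eq (by rw [sub_sub_sub_cancel_right])) (WGreen_cpt hm hs ξ₀) hr μ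
    hx hg

/-- the mean value inequality in the ball -/
theorem mean_sub_le (hm : 1 ≤ m) {u : E m → E N} (hu : ContDiff ℝ 1 u) {s B : ℝ} (hs : 0 < s)
    {ξ₀ : E m} (hB : ∀ ξ ∈ ball ξ₀ s, ‖fderiv ℝ u ξ‖ ≤ B) :
    ‖u ξ₀ - ∫ ξ, th s (ξ - ξ₀) • u ξ‖ ≤ s * B := by
  refine WGreen_avg hm hu.continuous hs fun ξ hξ => ?_
  have h0 : 0 ≤ B := (norm_nonneg _).trans (hB ξ hξ)
  refine ((convex_ball ξ₀ s).norm_image_sub_le_of_norm_fderiv_le
    (fun v _ => hu.differentiable one_ne_zero v) hB hξ (mem_ball_self hs)).trans ?_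
  rw [mem_ball, dist_eq_norm] at hξ
  rw [mul_comm, norm_sub_rev]
  exact mul_le_mul_of_nonneg_right hξ.le h0

end WGreen

section WTest0

variable {m N : ℕ}

/-- Put `ψ ξ = (φ ξ * (sgW w ξ)⁻¹) • n` and `Ψ = sgW w • Lst w ψ`. By `green` the integral is
`∫ ⟪Ψ, u⟫`; `Ψ` vanishes outside `tsupport φ ⊆ O` (`Lst_eq_zero`), so `u` can be replaced by
the mollified measure; use `moll_pair` (`cb_Lst`, `Cb.lip`) and the hypothesis (`Cb.bd2`). -/
theorem weak_bd (m N : ℕ) (hm : 1 ≤ m) : ∃ C : ℝ, 1 ≤ C ∧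
    ∀ (w u : E m → E N) (O : Set (E m)) {Ω : Type} [MeasurableSpace Ω] (μ : Measure Ω)
    [IsFiniteMeasure μ] (x : Ω → E m) (f : Ω → E N) (T e r : ℝ),
    Cb 4 w 1 → ContDiff ℝ 2 u → IsOpen O → (∀ ξ ∈ O, MinAt w ξ) → Measurable x → Integrable f μ →
    ∫ y, ‖f y‖ ∂μ ≤ T → 0 ≤ e → 0 < r →
    (∀ ξ ∈ O, u ξ = ∫ y, th r (ξ - x y) • (x ⁻¹' O).indicator f y ∂μ) →
    (∀ (ψ : E m → E N) (a : ℝ), Test 2 ψ O → Bd2 ψ a a a →
      |∫ y, ⟪f y, sgW w (x y) • Lst w ψ (x y)⟫ ∂μ| ≤ e * a) →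
    ∀ (φ : E m → ℝ) (A : ℝ) (n : E N), Cb 3 φ A → HasCompactSupport φ → tsupport φ ⊆ O →
      ‖n‖ ≤ 1 → |∫ ξ, φ ξ * ⟪n, Lf w u ξ⟫| ≤ C * A * (e + r * T) := by
  obtain ⟨C1, hC1, h1⟩ := cb_coef m N 3
  obtain ⟨C2, hC2, h2⟩ := cb_Lst m N
  refine ⟨64 * C1 * C2, by nlinarith [mul_le_mul hC1 hC2 zero_le_one (by linarith)], ?_⟩
  intro w u O Ω _ μ _ x f T e r hw hu hO hmin hx hf hT he hr hu' hweak φ A n hφ hφc hφO hn
  have hA : 0 ≤ A := hφ.nonneg
  have hT0 : 0 ≤ T := (integral_nonneg fun y => norm_nonneg _).trans hT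
  set ψ : E m → E N := fun ξ => (φ ξ * (sgW w ξ)⁻¹) • n with hψdef
  have hψ3 : Cb 3 ψ (64 * C1 * A) := by
    refine ((hφ.mul (h1 w hw).2.2).smul (Cb.const 3 n)).mono le_rfl ?_
    have h3 : 0 ≤ 64 * C1 * A := by positivity
    calc (2 : ℝ) ^ 3 * (2 ^ 3 * A * C1) * ‖n‖ = 64 * C1 * A * ‖n‖ := by ring
      _ ≤ 64 * C1 * A * 1 := mul_le_mul_of_nonneg_left hn h3
      _ = _ := mul_one _
  have hsupp : tsupport ψ ⊆ tsupport φ := by
    refine closure_mono fun ξ hξ => ?_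
    intro h0
    apply hξ
    simp [hψdef, h0]
  have hψc : HasCompactSupport ψ := hφc.of_isClosed_subset (isClosed_tsupport ψ) hsupp
  have hψT : Test 2 ψ O := ⟨(hψ3.mono (n' := 2) (by norm_num) le_rfl).smooth, hψc,
    hsupp.trans hφO⟩
  set Ψ : E m → E N := fun ξ => sgW w ξ • Lst w ψ ξ with hΨdef
  have hΨ0 : ∀ ξ, ξ ∉ tsupport ψ → Ψ ξ = 0 := fun ξ hξ => by
    simp only [hΨdef, Lst_eq_zero w hξ, smul_zero]
  have hΨO : ∀ ξ, ξ ∉ O → Ψ ξ = 0 := fun ξ hξ => hΨ0 ξ fun h => hξ (hψT.supp h)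
  have hΨc : HasCompactSupport Ψ := HasCompactSupport.intro hψc hΨ0
  have hΨ1 : Cb 1 Ψ (C2 * (64 * C1 * A)) := h2 w ψ _ hw hψ3
  have hg : Integrable ((x ⁻¹' O).indicator f) μ := hf.indicator (hx hO.measurableSet)
  have hK : 0 ≤ C2 * (64 * C1 * A) := by positivity
  have hm1 := moll_pair hm hK hΨ1.lip hΨc hr μ hx hg
  have hgT : ∫ y, ‖(x ⁻¹' O).indicator f y‖ ∂μ ≤ T :=
    (integral_mono hg.norm hf.norm fun y => norm_indicator_le_norm_self f y).trans hT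
  have hw3 : ContDiff ℝ 3 w := (hw.mono (n' := 3) (by norm_num) le_rfl).smooth
  have e1 : ∫ ξ, φ ξ * ⟪n, Lf w u ξ⟫ = ∫ ξ, ⟪Ψ ξ, u ξ⟫ := by
    rw [← green hw3 hu hmin hψT]
    refine integral_congr_ae (Eventually.of_forall fun ξ => ?_)
    have h0 : sgW w ξ ≠ 0 := (zero_lt_one.trans_le (sgW_bd w ξ).2.1).ne'
    simp only [hψdef, real_inner_smul_left]
    field_simp
  have e2 : ∫ ξ, ⟪Ψ ξ, u ξ⟫ =
      ∫ ξ, ⟪Ψ ξ, ∫ y, th r (ξ - x y) • (x ⁻¹' O).indicator f y ∂μ⟫ := by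
    refine integral_congr_ae (Eventually.of_forall fun ξ => ?_)
    by_cases hξ : ξ ∈ O
    · simp only [hu' ξ hξ]
    · simp only [hΨO ξ hξ, inner_zero_left]
  have e3 : ∫ y, ⟪Ψ (x y), (x ⁻¹' O).indicator f y⟫ ∂μ = ∫ y, ⟪f y, Ψ (x y)⟫ ∂μ := by
    refine integral_congr_ae (Eventually.of_forall fun y => ?_)
    by_cases hy : x y ∈ O
    · have hy' : y ∈ x ⁻¹' O := hy
      simp only [indicator_of_mem hy', real_inner_comm]
    · simp only [hΨO _ hy, inner_zero_left, inner_zero_right]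
  have h4 := hweak ψ (64 * C1 * A) hψT (hψ3.mono (n' := 2) (by norm_num) le_rfl).bd2
  rw [e3, ← e2, ← e1] at hm1
  have h5 : C2 * (64 * C1 * A) * r * ∫ y, ‖(x ⁻¹' O).indicator f y‖ ∂μ ≤
      C2 * (64 * C1 * A) * r * T := mul_le_mul_of_nonneg_left hgT (by positivity)
  have h6 : e * (64 * C1 * A) ≤ C2 * (e * (64 * C1 * A)) :=
    le_mul_of_one_le_left (by positivity) hC2
  have h7 := abs_sub_abs_le_abs_sub (∫ ξ, φ ξ * ⟪n, Lf w u ξ⟫) (∫ y, ⟪f y, Ψ (x y)⟫ ∂μ)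
  have h8 : |∫ y, ⟪f y, Ψ (x y)⟫ ∂μ| ≤ e * (64 * C1 * A) := h4
  calc _ ≤ C2 * (e * (64 * C1 * A)) + C2 * (64 * C1 * A) * r * T := by linarith
    _ = _ := by ring

end WTest0

end Pool.Agent.MP_f6c0e6_an.Gen.Wie

end
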