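import Pool.Agent.MP_f6c0e6_an.All.Calc
import Pool.Agent.MP_f6c0e6_an.All.Basic
import Pool.Agent.MP_f6c0e6_an.All.WienerA

section

/-! Characters of the torus, Fourier coefficients, weighted sequence norms, the periodised mollifier. -/

set_option autoImplicit false

open MeasureTheory Filter Topology Set Metric
open scoped ENNReal RealInnerProductSpace

namespace Pool.Agent.MP_f6c0e6_an.Gen.Wie

section WSeq0

variable {m N : ℕ}

abbrev Zm (m : ℕ) : Type := Fin m → ℤ

/-- the weight -/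
noncomputable def br (k : Zm m) : ℝ := 1 + ‖kv k‖

/-- the character -/
noncomputable def ch (k : Zm m) (x : E m) : ℂ := Complex.exp (((⟪kv k, x⟫ : ℝ) : ℂ) * Complex.I)

/-- the open period box -/
def box (m : ℕ) : Set (E m) := {x | ∀ i, |x i| < Real.pi}

/-- the Fourier coefficients -/
noncomputable def cf (f : E m → ℝ) (k : Zm m) : ℂ :=
  (((2 * Real.pi) ^ m)⁻¹ : ℝ) • ∫ x in box m, (f x : ℂ) * ch (-k) x

/-- the weighted sum of the moduli is at most `M` -/
def S1 (ω : Zm m → ℝ) (c : Zm m → ℂ) (M : ℝ) : Prop :=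
  ∀ F : Finset (Zm m), ∑ k ∈ F, ω k * ‖c k‖ ≤ M

/-- the weighted supremum of the moduli is at most `M` -/
def SI (ω : Zm m → ℝ) (c : Zm m → ℂ) (M : ℝ) : Prop := ∀ k, ω k * ‖c k‖ ≤ M

/-- the convolution of sequences -/
noncomputable def cnv (a b : Zm m → ℂ) (k : Zm m) : ℂ := ∑' l, a (k - l) * b l

/-! ### Integer vectors and the weight -/

theorem kv_apply (k : Zm m) (i : Fin m) : kv k i = (k i : ℝ) := rfl

theorem kv_zero : kv (0 : Zm m) = 0 := by
  ext i; simp [kv_apply]

theorem kv_add (k l : Zm m) : kv (k + l) = kv k + kv l := by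
  ext i; simp [kv_apply]

theorem kv_neg (k : Zm m) : kv (-k) = -kv k := by
  ext i; simp [kv_apply]

theorem kv_sub (k l : Zm m) : kv (k - l) = kv k - kv l := by
  ext i; simp [kv_apply]

theorem abs_le_norm_kv (k : Zm m) (i : Fin m) : |(k i : ℝ)| ≤ ‖kv k‖ := by
  have h := PiLp.norm_apply_le (kv k) i
  rwa [kv_apply, Real.norm_eq_abs] at h

theorem norm_kv_sq (k : Zm m) : ‖kv k‖ ^ 2 = ∑ i, (k i : ℝ) ^ 2 := by
  rw [EuclideanSpace.norm_sq_eq]
  refine Finset.sum_congr rfl fun i _ => ?_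
  rw [kv_apply, Real.norm_eq_abs, sq_abs]

theorem one_le_norm_kv {k : Zm m} (hk : k ≠ 0) : 1 ≤ ‖kv k‖ := by
  obtain ⟨i, hi⟩ := Function.ne_iff.mp hk
  have h1 : (1 : ℤ) ≤ |k i| := Int.one_le_abs hi
  have h2 : (1 : ℝ) ≤ |(k i : ℝ)| := by exact_mod_cast h1
  exact h2.trans (abs_le_norm_kv k i)

theorem one_le_br (k : Zm m) : 1 ≤ br k := by
  have := norm_nonneg (kv k)
  unfold br; linarith

theorem br_pos (k : Zm m) : 0 < br k := by
  exact lt_of_lt_of_le one_pos (one_le_br k)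

theorem br_zero : br (0 : Zm m) = 1 := by
  simp [br, kv_zero]

theorem br_neg (k : Zm m) : br (-k) = br k := by
  simp [br, kv_neg]

theorem abs_le_br (k : Zm m) (i : Fin m) : |(k i : ℝ)| ≤ br k := by
  have := abs_le_norm_kv k i
  unfold br; linarith

theorem br_le_mul (k l : Zm m) : br k ≤ br (k - l) * br l := by
  have h1 : ‖kv k‖ ≤ ‖kv (k - l)‖ + ‖kv l‖ := by
    have : kv k = kv (k - l) + kv l := by rw [← kv_add, sub_add_cancel]
    rw [this]; exact norm_add_le _ _
  have h2 := mul_nonneg (norm_nonneg (kv (k - l))) (norm_nonneg (kv l))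
  unfold br; nlinarith only [h1, h2]

theorem br_sq_le {k : Zm m} (hk : k ≠ 0) : br k ^ 2 ≤ 4 * ‖kv k‖ ^ 2 := by
  have := one_le_norm_kv hk
  unfold br; nlinarith only [this]

theorem br_le_prod (k : Zm m) : br k ≤ ∏ i, (1 + |(k i : ℝ)|) := by
  have h1 : ‖kv k‖ ≤ ∑ i, |(k i : ℝ)| := by
    have h0 : 0 ≤ ∑ i, |(k i : ℝ)| := Finset.sum_nonneg fun i _ => abs_nonneg _
    refine (pow_le_pow_iff_left₀ (norm_nonneg _) h0 two_ne_zero).mp ?_
    rw [norm_kv_sq, sq (∑ i, |(k i : ℝ)|), Finset.sum_mul]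
    refine Finset.sum_le_sum fun i _ => ?_
    rw [← sq_abs, sq]
    exact mul_le_mul_of_nonneg_left
      (Finset.single_le_sum (f := fun j => |(k j : ℝ)|) (fun j _ => abs_nonneg _)
        (Finset.mem_univ i)) (abs_nonneg _)
  have h2 : ∀ F : Finset (Fin m), 1 + ∑ i ∈ F, |(k i : ℝ)| ≤ ∏ i ∈ F, (1 + |(k i : ℝ)|) := by
    intro F
    induction F using Finset.induction_on with
    | empty => simp
    | insert a F ha ih =>
      rw [Finset.sum_insert ha, Finset.prod_insert ha]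
      have h0 : 0 ≤ ∑ i ∈ F, |(k i : ℝ)| := Finset.sum_nonneg fun i _ => abs_nonneg _
      have h3 := abs_nonneg (k a : ℝ)
      nlinarith only [ih, h3, h0, mul_nonneg h3 h0, mul_le_mul_of_nonneg_left ih h3]
  have h4 := h2 Finset.univ
  unfold br; linarith

/-- Peetre's inequality -/
theorem br_zpow_le {t : ℤ} {s : ℕ} (h : |t| ≤ s) (k l : Zm m) :
    br k ^ t ≤ br (k - l) ^ s * br l ^ t := by
  have hk := br_pos k
  have hl := br_pos l
  have hd := one_le_br (k - l)
  obtain ⟨n, rfl | rfl⟩ := Int.eq_nat_or_neg t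
  · have hn : n ≤ s := by
      rw [Nat.abs_cast] at h
      exact_mod_cast h
    rw [zpow_natCast, zpow_natCast]
    calc br k ^ n ≤ (br (k - l) * br l) ^ n := pow_le_pow_left₀ hk.le (br_le_mul k l) n
      _ = br (k - l) ^ n * br l ^ n := mul_pow _ _ _
      _ ≤ br (k - l) ^ s * br l ^ n :=
        mul_le_mul_of_nonneg_right (pow_le_pow_right₀ hd hn) (pow_nonneg hl.le _)
  · have hn : n ≤ s := by
      rw [abs_neg, Nat.abs_cast] at h
      exact_mod_cast h
    rw [zpow_neg, zpow_neg, zpow_natCast, zpow_natCast, ← div_eq_mul_inv,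
      le_div_iff₀ (pow_pos hl n), inv_mul_le_iff₀ (pow_pos hk n)]
    have h1 : br l ≤ br k * br (k - l) := by
      have h2 := br_le_mul l k
      rw [← br_neg (l - k), neg_sub, mul_comm] at h2
      exact h2
    calc br l ^ n ≤ (br k * br (k - l)) ^ n := pow_le_pow_left₀ hl.le h1 n
      _ = br k ^ n * br (k - l) ^ n := mul_pow _ _ _
      _ ≤ br k ^ n * br (k - l) ^ s :=
        mul_le_mul_of_nonneg_left (pow_le_pow_right₀ hd hn) (pow_nonneg hk.le _)

theorem WSeq0_aux1 {b : ℝ} (hb : 1 < b) : Summable fun n : ℤ => (1 + |(n : ℝ)|) ^ (-b) := by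
  have h1 := Real.summable_abs_int_rpow hb
  have h2 : Summable fun n : ℤ => if n = 0 then (1 : ℝ) else 0 :=
    (hasSum_ite_eq (0 : ℤ) (1 : ℝ)).summable
  refine Summable.of_nonneg_of_le (fun n => by positivity) (fun n => ?_) (h1.add h2)
  by_cases hn : n = 0
  · subst hn
    have : (0 : ℝ) ≤ |((0 : ℤ) : ℝ)| ^ (-b) := by positivity
    simp only [if_true, Int.cast_zero, abs_zero, add_zero, Real.one_rpow] at this ⊢
    linarith
  · have h3 : (0 : ℝ) < |(n : ℝ)| := abs_pos.mpr (by exact_mod_cast hn)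
    rw [if_neg hn, add_zero]
    exact Real.rpow_le_rpow_of_nonpos h3 (by linarith) (by linarith)

theorem WSeq0_aux2 {g : ℤ → ℝ} (hg : Summable g) (h0 : ∀ n, 0 ≤ g n) :
    Summable fun k : Zm m => ∏ i, g (k i) := by
  classical
  refine summable_of_sum_le (c := ∏ _i : Fin m, ∑' n, g n)
    (fun k => Finset.prod_nonneg fun i _ => h0 _) fun F => ?_
  have hF : F ⊆ Fintype.piFinset fun i => F.image fun k => k i := by
    intro k hk
    rw [Fintype.mem_piFinset]
    exact fun i => Finset.mem_image_of_mem (fun k : Zm m => k i) hk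
  calc ∑ k ∈ F, ∏ i, g (k i)
      ≤ ∑ k ∈ Fintype.piFinset fun i => F.image fun k => k i, ∏ i, g (k i) :=
        Finset.sum_le_sum_of_subset_of_nonneg hF fun k _ _ => Finset.prod_nonneg fun i _ => h0 _
    _ = ∏ i, ∑ n ∈ F.image fun k => k i, g n :=
        (Finset.prod_univ_sum (fun i => F.image fun k : Zm m => k i) fun _ n => g n).symm
    _ ≤ ∏ _i : Fin m, ∑' n, g n :=
        Finset.prod_le_prod (fun i _ => Finset.sum_nonneg fun n _ => h0 n) fun i _ =>
          hg.sum_le_tsum _ fun n _ => h0 n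

/-- For `m ≥ 1` the term is at most `∏ i, (1 + |k i|) ^ (-(m + 1) / m)` (real powers), and finite
sums of the products are bounded by the product of the sums (`Finset.prod_univ_sum` over a
`Fintype.piFinset`); or use `ZLattice.summable_norm_sub_inv_pow`. -/
theorem summable_br (m : ℕ) : Summable fun k : Zm m => (br k ^ (m + 1))⁻¹ := by
  rcases Nat.eq_zero_or_pos m with rfl | hm
  · exact Summable.of_finite
  have hm' : (0 : ℝ) < m := by exact_mod_cast hm
  have hb : (1 : ℝ) < (m + 1) / m := by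
    rw [lt_div_iff₀ hm']; linarith
  refine Summable.of_nonneg_of_le (fun k => by have := br_pos k; positivity) (fun k => ?_)
    (WSeq0_aux2 (m := m) (WSeq0_aux1 hb) fun n => by positivity)
  have hk := br_pos k
  have h1 : (br k ^ (m + 1))⁻¹ = ∏ _i : Fin m, br k ^ (-(((m : ℝ) + 1) / m)) := by
    rw [Finset.prod_const, Finset.card_univ, Fintype.card_fin, ← Real.rpow_natCast,
      ← Real.rpow_natCast, ← Real.rpow_mul hk.le, ← Real.rpow_neg hk.le]
    congr 1
    push_cast
    field_simp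
  rw [h1]
  refine Finset.prod_le_prod (fun i _ => by positivity) fun i _ => ?_
  have h2 := abs_le_norm_kv k i
  refine Real.rpow_le_rpow_of_nonpos (by positivity) ?_ (by linarith only [hb])
  unfold br; linarith

/-! ### Characters -/

theorem ch_add (k l : Zm m) (x : E m) : ch (k + l) x = ch k x * ch l x := by
  unfold ch
  rw [kv_add, inner_add_left, ← Complex.exp_add]
  congr 1
  simp only [Complex.ofReal_add]
  ring

theorem ch_zero (x : E m) : ch (0 : Zm m) x = 1 := by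
  simp [ch, kv_zero]

theorem norm_ch (k : Zm m) (x : E m) : ‖ch k x‖ = 1 := by
  exact Complex.norm_exp_ofReal_mul_I _

theorem ch_neg (k : Zm m) (x : E m) : ch (-k) x = (starRingEnd ℂ) (ch k x) := by
  unfold ch
  rw [kv_neg, inner_neg_left, ← Complex.exp_conj, map_mul, Complex.conj_ofReal, Complex.conj_I]
  congr 1
  push_cast
  ring

theorem ch_sub (k : Zm m) (x y : E m) : ch k (x - y) = ch k x * ch (-k) y := by
  unfold ch
  rw [kv_neg, inner_neg_left, inner_sub_right, ← Complex.exp_add]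
  congr 1
  push_cast
  ring

theorem ch_re (k : Zm m) (x : E m) : (ch k x).re = Real.cos ⟪kv k, x⟫ := by
  exact Complex.exp_ofReal_mul_I_re _

theorem ch_im (k : Zm m) (x : E m) : (ch k x).im = Real.sin ⟪kv k, x⟫ := by
  exact Complex.exp_ofReal_mul_I_im _

theorem ch_eq_prod (k : Zm m) (x : E m) :
    ch k x = ∏ i, Complex.exp ((((k i : ℝ) * x i : ℝ) : ℂ) * Complex.I) := by
  unfold ch
  have h : (⟪kv k, x⟫ : ℝ) = ∑ i, (k i : ℝ) * x i := by
    rw [PiLp.inner_apply]
    refine Finset.sum_congr rfl fun i _ => ?_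
    rw [kv_apply]
    simp [mul_comm]
  rw [h, ← Complex.exp_sum, Complex.ofReal_sum, Finset.sum_mul]

theorem continuous_ch (k : Zm m) : Continuous (ch k) := by
  unfold ch
  fun_prop

theorem hasFDerivAt_ch (k : Zm m) (x : E m) :
    HasFDerivAt (ch k) ((innerSL ℝ (kv k)).smulRight (Complex.I * ch k x)) x := by
  have h1 : HasFDerivAt (fun y : E m => (⟪kv k, y⟫ : ℝ)) (innerSL ℝ (kv k)) x :=
    (innerSL ℝ (kv k)).hasFDerivAt
  have h2 : HasDerivAt (fun t : ℝ => Complex.exp ((t : ℂ) * Complex.I))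
      (Complex.I * ch k x) (⟪kv k, x⟫ : ℝ) := by
    have h3 : HasDerivAt (fun t : ℝ => (t : ℂ) * Complex.I) (1 * Complex.I) (⟪kv k, x⟫ : ℝ) :=
      (Complex.ofRealCLM.hasDerivAt (x := (⟪kv k, x⟫ : ℝ))).mul_const Complex.I
    have h4 := h3.cexp
    convert h4 using 1
    unfold ch
    ring
  have h5 := h2.hasFDerivAt.comp x h1
  have h6 : (innerSL ℝ (kv k)).smulRight (Complex.I * ch k x) =
      (ContinuousLinearMap.toSpanSingleton ℝ (Complex.I * ch k x)).comp (innerSL ℝ (kv k)) := by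
    ext v
    simp
  rw [h6]
  exact h5

end WSeq0

section WSeq1

variable {m N : ℕ}

/-! ### The box -/

theorem isOpen_box (m : ℕ) : IsOpen (box m) := by
  have : box m = ⋂ i, {x : E m | |x i| < Real.pi} := by
    ext x
    simp [box]
  rw [this]
  exact isOpen_iInter_of_finite fun i => isOpen_lt (by fun_prop) continuous_const

theorem ball_subset_box (m : ℕ) : ball (0 : E m) 3 ⊆ box m := by
  intro x hx i
  have h1 : ‖x i‖ ≤ ‖x‖ := PiLp.norm_apply_le x i
  rw [mem_ball_zero_iff] at hx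
  rw [Real.norm_eq_abs] at h1
  linarith [Real.pi_gt_three]

theorem WSeq1_pre (m : ℕ) : (WithLp.toLp 2 : (Fin m → ℝ) → E m) ⁻¹' box m =
    Set.univ.pi fun _ => Ioo (-Real.pi) Real.pi := by
  ext x
  simp [box, abs_lt]

theorem volume_box_lt_top (m : ℕ) : volume (box m) < ⊤ := by
  rw [← (PiLp.volume_preserving_toLp (Fin m)).measure_preimage
    (isOpen_box m).measurableSet.nullMeasurableSet, WSeq1_pre, Real.volume_pi_Ioo]
  exact ENNReal.prod_lt_top fun _ _ => ENNReal.ofReal_lt_top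

theorem WSeq1_one (n : ℤ) : ∫ t in Ioo (-Real.pi) Real.pi,
    Complex.exp ((((n : ℝ) * t : ℝ) : ℂ) * Complex.I) =
    if n = 0 then ((2 * Real.pi : ℝ) : ℂ) else 0 := by
  have hp : -Real.pi ≤ Real.pi := by linarith [Real.pi_pos]
  rw [← integral_Ioc_eq_integral_Ioo, ← intervalIntegral.integral_of_le hp]
  split_ifs with h
  · subst h
    simp [two_mul]
  · have hc : (n : ℂ) * Complex.I ≠ 0 := mul_ne_zero (by exact_mod_cast h) Complex.I_ne_zero
    have e : (fun t : ℝ => Complex.exp ((((n : ℝ) * t : ℝ) : ℂ) * Complex.I)) =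
        fun t : ℝ => Complex.exp ((n : ℂ) * Complex.I * t) := by
      funext t
      push_cast
      ring_nf
    rw [e, integral_exp_mul_complex hc]
    have e2 : (n : ℂ) * Complex.I * (Real.pi : ℝ) =
        (n : ℂ) * Complex.I * ((-Real.pi : ℝ) : ℂ) + n * (2 * Real.pi * Complex.I) := by
      push_cast
      ring
    rw [e2, Complex.exp_add, Complex.exp_int_mul_two_pi_mul_I, mul_one, sub_self, zero_div]

/-- transport to `Fin m → ℝ` (`PiLp.volume_preserving_toLp`), `ch_eq_prod`,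
`integral_fintype_prod_eq_prod` for the restricted measures (`Measure.restrict_pi_pi`) -/
theorem integral_ch (k : Zm m) :
    ∫ x in box m, ch k x = if k = 0 then (((2 * Real.pi) ^ m : ℝ) : ℂ) else 0 := by
  rw [← (PiLp.volume_preserving_toLp (Fin m)).setIntegral_preimage_emb
    (MeasurableEquiv.toLp 2 _).measurableEmbedding, WSeq1_pre, volume_pi, Measure.restrict_pi_pi]
  simp only [ch_eq_prod]
  rw [integral_fintype_prod_eq_prod
    (fun i (t : ℝ) => Complex.exp ((((k i : ℝ) * t : ℝ) : ℂ) * Complex.I))]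
  simp only [WSeq1_one]
  split_ifs with h
  · subst h
    simp
  · obtain ⟨i, hi⟩ := Function.ne_iff.1 h
    exact Finset.prod_eq_zero (Finset.mem_univ i) (if_neg hi)

/-- uniqueness of the coefficients (`hasSum_integral_of_summable_integral_norm` or
`integral_tsum`, `integral_ch`) -/
theorem cf_eq {f : E m → ℝ} {c : Zm m → ℂ} (hc : Summable fun k => ‖c k‖)
    (hf : ∀ x ∈ box m, HasSum (fun k => c k * ch k x) (f x : ℂ)) : cf f = c := by
  funext k
  have : IsFiniteMeasure (volume.restrict (box m)) :=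
    isFiniteMeasure_restrict.2 (volume_box_lt_top m).ne
  have h1 := hasSum_integral_of_summable_integral_norm (μ := volume.restrict (box m))
    (F := fun l x => c l * ch (l - k) x) (fun l => ?_) ?_
  · have h2 : ∫ x in box m, ∑' l, c l * ch (l - k) x = ∫ x in box m, (f x : ℂ) * ch (-k) x := by
      refine setIntegral_congr_fun (f := fun x => ∑' l, c l * ch (l - k) x)
        (g := fun x => (f x : ℂ) * ch (-k) x) (isOpen_box m).measurableSet fun x hx => ?_
      have := ((hf x hx).mul_right (ch (-k) x)).tsum_eq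
      simp only [sub_eq_add_neg, ch_add, ← mul_assoc]
      exact this
    have h3 : HasSum (fun l => ∫ x in box m, c l * ch (l - k) x)
        (c k * (((2 * Real.pi) ^ m : ℝ) : ℂ)) := by
      have := hasSum_single (f := fun l => ∫ x in box m, c l * ch (l - k) x) k fun l hl => by
        rw [integral_const_mul, integral_ch, if_neg (sub_ne_zero.2 hl), mul_zero]
      rwa [integral_const_mul, integral_ch, if_pos (sub_self k)] at this
    have hp : ((2 * Real.pi) ^ m : ℝ) ≠ 0 := by positivity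
    rw [cf, ← h2, h1.unique h3, Complex.real_smul, mul_comm (c k), ← mul_assoc,
      ← Complex.ofReal_mul, inv_mul_cancel₀ hp, Complex.ofReal_one, one_mul]
  · have h0 : Continuous fun x => c l * ch (l - k) x :=
      continuous_const.mul (continuous_ch (l - k))
    refine Integrable.of_bound h0.aestronglyMeasurable ‖c l‖ (Eventually.of_forall fun x => ?_)
    rw [norm_mul, norm_ch, mul_one]
  · simp only [norm_mul, norm_ch, mul_one, integral_const, smul_eq_mul]
    exact hc.mul_left _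

theorem cf_neg (f : E m → ℝ) (k : Zm m) : cf f (-k) = (starRingEnd ℂ) (cf f k) := by
  rw [cf, cf, Complex.real_smul, Complex.real_smul, map_mul, Complex.conj_ofReal, ← integral_conj]
  simp only [map_mul, Complex.conj_ofReal, ← ch_neg]

theorem cf_congr {f g : E m → ℝ} (h : ∀ x ∈ box m, f x = g x) : cf f = cf g := by
  funext k
  rw [cf, cf, setIntegral_congr_fun (isOpen_box m).measurableSet
    (g := fun x => (g x : ℂ) * ch (-k) x) fun x hx => by simp only [h x hx]]

theorem WSeq1_norm {c : Zm m → ℂ} (hc : Summable fun k => ‖c k‖) (x : E m) :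
    Summable fun k => ‖c k * ch k x‖ := by
  simpa only [norm_mul, norm_ch, mul_one] using hc

/-- the sum of a symmetric series is real -/
theorem hasSum_re {c : Zm m → ℂ} (hc : Summable fun k => ‖c k‖)
    (hs : ∀ k, c (-k) = (starRingEnd ℂ) (c k)) (x : E m) :
    HasSum (fun k => c k * ch k x) (((∑' k, c k * ch k x).re : ℝ) : ℂ) := by
  have h1 := (WSeq1_norm hc x).of_norm.hasSum
  have h2 : HasSum (fun k => (starRingEnd ℂ) (c k * ch k x))
      ((starRingEnd ℂ) (∑' k, c k * ch k x)) := h1.star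
  have h3 : HasSum (fun k => c (-k) * ch (-k) x) (∑' k, c k * ch k x) :=
    (Equiv.neg (Zm m)).hasSum_iff.2 h1
  simp only [map_mul, ← hs, ← ch_neg] at h2
  rwa [Complex.conj_eq_iff_re.1 (h2.unique h3)]

/-- the product of two series -/
theorem hasSum_cnv {a b : Zm m → ℂ} (ha : Summable fun k => ‖a k‖) (hb : Summable fun k => ‖b k‖)
    {x : E m} {A B : ℂ} (hA : HasSum (fun k => a k * ch k x) A)
    (hB : HasSum (fun k => b k * ch k x) B) : HasSum (fun k => cnv a b k * ch k x) (A * B) := by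
  have h0 : Summable fun p : Zm m × Zm m => (a p.1 * ch p.1 x) * (b p.2 * ch p.2 x) :=
    summable_mul_of_summable_norm (f := fun k => a k * ch k x) (g := fun k => b k * ch k x)
      (WSeq1_norm ha x) (WSeq1_norm hb x)
  have h1 : HasSum (fun p : Zm m × Zm m => (a p.1 * ch p.1 x) * (b p.2 * ch p.2 x)) (A * B) :=
    HasSum.mul (f := fun k => a k * ch k x) (g := fun k => b k * ch k x) hA hB h0
  let e : Zm m × Zm m ≃ Zm m × Zm m :=
    { toFun := fun p => (p.1 - p.2, p.2)
      invFun := fun p => (p.1 + p.2, p.2)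
      left_inv := fun p => by simp
      right_inv := fun p => by simp }
  have h2 : HasSum (fun p : Zm m × Zm m => a (p.1 - p.2) * b p.2 * ch p.1 x) (A * B) := by
    have h4 : (fun p : Zm m × Zm m => a (p.1 - p.2) * b p.2 * ch p.1 x) =
        (fun p : Zm m × Zm m => (a p.1 * ch p.1 x) * (b p.2 * ch p.2 x)) ∘ e := by
      funext p
      have h5 : ch p.1 x = ch (p.1 - p.2) x * ch p.2 x := by rw [← ch_add, sub_add_cancel]
      change _ = (a (p.1 - p.2) * ch (p.1 - p.2) x) * (b p.2 * ch p.2 x)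
      rw [h5]
      ring
    rw [h4]
    exact (Equiv.hasSum_iff
      (f := fun p : Zm m × Zm m => (a p.1 * ch p.1 x) * (b p.2 * ch p.2 x)) e).2 h1
  suffices h : ∀ k, HasSum (fun l => a (k - l) * b l * ch k x) (cnv a b k * ch k x) from
    HasSum.prod_fiberwise (f := fun p : Zm m × Zm m => a (p.1 - p.2) * b p.2 * ch p.1 x)
      (g := fun k => cnv a b k * ch k x) h2 h
  intro k
  have h3 : Summable fun l => a (k - l) * b l := by
    refine Summable.of_norm_bounded (g := fun l => (∑' j, ‖a j‖) * ‖b l‖)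
      (Summable.mul_left (f := fun l => ‖b l‖) _ hb) fun l => ?_
    rw [norm_mul]
    exact mul_le_mul_of_nonneg_right (ha.le_tsum _ fun _ _ => norm_nonneg _) (norm_nonneg _)
  exact HasSum.mul_right (f := fun l => a (k - l) * b l) (ch k x) h3.hasSum

end WSeq1

section WSeq

variable {m N : ℕ}

/-! ### The weighted norms -/

section Norms

variable {ω ω' : Zm m → ℝ} {a b c : Zm m → ℂ} {A B M M' : ℝ}

theorem S1.nonneg (h : S1 ω c M) : 0 ≤ M := by
  simpa using h ∅

theorem S1.summable (h : S1 ω c M) (hω : ∀ k, 0 ≤ ω k) :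
    Summable (fun k => ω k * ‖c k‖) ∧ ∑' k, ω k * ‖c k‖ ≤ M := by
  have h0 : ∀ k, 0 ≤ ω k * ‖c k‖ := fun k => mul_nonneg (hω k) (norm_nonneg _)
  have hs := summable_of_sum_le h0 h
  exact ⟨hs, hs.tsum_le_of_sum_le h⟩

theorem S1.of_summable (hω : ∀ k, 0 ≤ ω k) (h : Summable fun k => ω k * ‖c k‖) :
    S1 ω c (∑' k, ω k * ‖c k‖) := by
  exact fun F => h.sum_le_tsum F fun k _ => mul_nonneg (hω k) (norm_nonneg _)

theorem S1.summable_norm (h : S1 ω c M) (hω : ∀ k, 1 ≤ ω k) : Summable fun k => ‖c k‖ := by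
  exact (h.summable fun k => zero_le_one.trans (hω k)).1.of_nonneg_of_le
    (fun _ => norm_nonneg _) fun k => le_mul_of_one_le_left (norm_nonneg _) (hω k)

/-- comparison of two weighted sequences -/
theorem S1.of_le (h : S1 ω c M) {C : ℝ} (hC : 0 ≤ C)
    (hle : ∀ k, ω' k * ‖a k‖ ≤ C * (ω k * ‖c k‖)) : S1 ω' a (C * M) := by
  intro F
  refine (Finset.sum_le_sum fun k _ => hle k).trans ?_
  rw [← Finset.mul_sum]
  exact mul_le_mul_of_nonneg_left (h F) hC

theorem S1.mono (h : S1 ω c M) (hω : ∀ k, ω' k ≤ ω k) (hM : M ≤ M') : S1 ω' c M' := by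
  exact fun F => (Finset.sum_le_sum fun k _ =>
    mul_le_mul_of_nonneg_right (hω k) (norm_nonneg _)).trans ((h F).trans hM)

theorem S1.add (ha : S1 ω a A) (hb : S1 ω b B) (hω : ∀ k, 0 ≤ ω k) :
    S1 ω (fun k => a k + b k) (A + B) := by
  intro F
  refine le_trans ?_ (add_le_add (ha F) (hb F))
  rw [← Finset.sum_add_distrib]
  refine Finset.sum_le_sum fun k _ => ?_
  rw [← mul_add]
  exact mul_le_mul_of_nonneg_left (norm_add_le _ _) (hω k)

theorem S1.toSI (h : S1 ω c M) : SI ω c M := by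
  intro k
  simpa using h {k}

theorem WSeq_cnv {k : Zm m} {g : Zm m → ℝ} (h0 : 0 ≤ ω k) (hω : ∀ l, ω k ≤ ω' (k - l) * ω l)
    (hg : Summable g) (hle : ∀ l, ω' (k - l) * ‖a (k - l)‖ * (ω l * ‖b l‖) ≤ g l) :
    ω k * ‖Wie.cnv a b k‖ ≤ ∑' l, g l := by
  have e : ω k * ‖Wie.cnv a b k‖ = ‖∑' l, (ω k : ℂ) * (a (k - l) * b l)‖ := by
    rw [tsum_mul_left, norm_mul, Complex.norm_real, Real.norm_of_nonneg h0, Wie.cnv]
  rw [e]
  refine tsum_of_norm_bounded hg.hasSum fun l => le_trans ?_ (hle l)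
  rw [norm_mul, norm_mul, Complex.norm_real, Real.norm_of_nonneg h0]
  exact (mul_le_mul_of_nonneg_right (hω l) (by positivity)).trans_eq (by ring)

/-- the weighted sums are submultiplicative -/
theorem S1.cnv (h1 : ∀ k, 1 ≤ ω k) (hω : ∀ k l, ω k ≤ ω (k - l) * ω l) (ha : S1 ω a A)
    (hb : S1 ω b B) : S1 ω (cnv a b) (A * B) := by
  have h0 : ∀ k, 0 ≤ ω k := fun k => zero_le_one.trans (h1 k)
  have hx : ∀ k, 0 ≤ ω k * ‖a k‖ := fun k => mul_nonneg (h0 k) (norm_nonneg _)
  have hy : ∀ k, 0 ≤ ω k * ‖b k‖ := fun k => mul_nonneg (h0 k) (norm_nonneg _)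
  obtain ⟨hs, hs'⟩ := hb.summable h0
  have hg : ∀ k, Summable fun l => ω (k - l) * ‖a (k - l)‖ * (ω l * ‖b l‖) := fun k =>
    (hs.mul_left A).of_nonneg_of_le (fun l => mul_nonneg (hx _) (hy _)) fun l =>
      mul_le_mul_of_nonneg_right (ha.toSI _) (hy l)
  intro F
  refine (Finset.sum_le_sum fun k _ => WSeq_cnv (h0 k) (hω k) (hg k) fun _ => le_rfl).trans ?_
  rw [← Summable.tsum_finsetSum fun k _ => hg k]
  refine (Summable.tsum_le_tsum (fun l => ?_) (summable_sum fun k _ => hg k)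
    (hs.mul_left A)).trans ?_
  · rw [← Finset.sum_mul]
    refine mul_le_mul_of_nonneg_right ?_ (hy l)
    have := ha (F.map (Equiv.subRight l).toEmbedding)
    rwa [Finset.sum_map] at this
  · rw [tsum_mul_left]
    exact mul_le_mul_of_nonneg_left hs' ha.nonneg

theorem SI.of_le (h : SI ω c M) {C : ℝ} (hC : 0 ≤ C)
    (hle : ∀ k, ω' k * ‖a k‖ ≤ C * (ω k * ‖c k‖)) : SI ω' a (C * M) := by
  exact fun k => (hle k).trans (mul_le_mul_of_nonneg_left (h k) hC)

theorem SI.mono (h : SI ω c M) (hω : ∀ k, ω' k ≤ ω k) (hM : M ≤ M') : SI ω' c M' := by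
  exact fun k => (mul_le_mul_of_nonneg_right (hω k) (norm_nonneg _)).trans ((h k).trans hM)

theorem SI.add (ha : SI ω a A) (hb : SI ω b B) (hω : ∀ k, 0 ≤ ω k) :
    SI ω (fun k => a k + b k) (A + B) := by
  intro k
  refine le_trans ?_ (add_le_add (ha k) (hb k))
  rw [← mul_add]
  exact mul_le_mul_of_nonneg_left (norm_add_le _ _) (hω k)

/-- the weighted suprema form a module over the weighted sums -/
theorem SI.cnv (h1 : ∀ k, 1 ≤ ω' k) (h0 : ∀ k, 0 < ω k) (hω : ∀ k l, ω k ≤ ω' (k - l) * ω l)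
    (ha : S1 ω' a A) (hb : SI ω b B) : SI ω (cnv a b) (A * B) := by
  have h2 : ∀ k, 0 ≤ ω' k := fun k => zero_le_one.trans (h1 k)
  have hB : 0 ≤ B := (mul_nonneg (h0 0).le (norm_nonneg _)).trans (hb 0)
  obtain ⟨hs, hs'⟩ := ha.summable h2
  intro k
  have hg : Summable fun l => ω' (k - l) * ‖a (k - l)‖ := (Equiv.subLeft k).summable_iff.2 hs
  refine (WSeq_cnv (h0 k).le (hω k) (hg.mul_right B) fun l =>
    mul_le_mul_of_nonneg_left (hb l) (mul_nonneg (h2 _) (norm_nonneg _))).trans ?_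
  rw [tsum_mul_right]
  refine mul_le_mul_of_nonneg_right (le_trans (le_of_eq ?_) hs') hB
  exact (Equiv.subLeft k).tsum_eq fun j => ω' j * ‖a j‖

end Norms

/-- the sum of the series of `summable_br` -/
noncomputable def cbr (m : ℕ) : ℝ := ∑' k : Zm m, (br k ^ (m + 1))⁻¹

theorem one_le_cbr (m : ℕ) : 1 ≤ cbr m := by
  have := (summable_br m).le_tsum 0 fun k _ => (inv_pos.2 (pow_pos (br_pos k) _)).le
  rwa [br_zero, one_pow, inv_one] at this

theorem SI.toS1 {j : ℕ} {c : Zm m → ℂ} {M : ℝ}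
    (h : SI (fun k => br k ^ ((j : ℤ) + m + 1)) c M) : S1 (fun k => br k ^ j) c (cbr m * M) := by
  have hM : 0 ≤ M := (mul_nonneg (zpow_pos (br_pos 0) _).le (norm_nonneg _)).trans (h 0)
  have h0 : ∀ k : Zm m, 0 < br k ^ (m + 1) := fun k => pow_pos (br_pos k) _
  intro F
  refine le_trans (Finset.sum_le_sum (g := fun k => (br k ^ (m + 1))⁻¹ * M) fun k _ => ?_) ?_
  · have e : br k ^ ((j : ℤ) + m + 1) = br k ^ (m + 1) * br k ^ j := by
      rw [← pow_add, ← zpow_natCast]
      congr 1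
      push_cast
      ring
    have := h k
    simp only [e] at this
    rw [le_inv_mul_iff₀ (h0 k), ← mul_assoc]
    exact this
  · rw [← Finset.sum_mul]
    exact mul_le_mul_of_nonneg_right
      ((summable_br m).sum_le_tsum F fun k _ => (inv_pos.2 (h0 k)).le) hM

/-- absorption: apply `h` to the supremum of `φ` -/
theorem absorb {ι : Type*} (φ : ι → ℝ) {M₀ T : ℝ} (h₀ : ∀ i, φ i ≤ M₀)
    (h : ∀ M, (∀ i, φ i ≤ M) → ∀ i, φ i ≤ M / 2 + T) (i : ι) : φ i ≤ 2 * T := by
  have : Nonempty ι := ⟨i⟩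
  have hb : BddAbove (range φ) := ⟨M₀, forall_mem_range.2 h₀⟩
  have h1 := ciSup_le (h _ (le_ciSup hb))
  have h2 := le_ciSup hb i
  linarith

end WSeq

section WPoi0

variable {m : ℕ}

/-- the Fourier transform of the bump -/
noncomputable def ph (ξ : ℝ) : ℂ :=
  ∫ t : ℝ, (bump1 t : ℂ) * Complex.exp (((-(ξ * t) : ℝ) : ℂ) * Complex.I)

theorem ph_zero : ph 0 = 1 := by
  simp only [ph, zero_mul, neg_zero, Complex.ofReal_zero, Complex.exp_zero, mul_one]
  rw [integral_complex_ofReal, bump1, ContDiffBump.integral_normed, Complex.ofReal_one]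

theorem WPoi0_nonneg (t : ℝ) : 0 ≤ bump1 t := ContDiffBump.nonneg_normed _ t

theorem WPoi0_zero {t : ℝ} (ht : 1 ≤ |t|) : bump1 t = 0 := by
  rw [← Function.notMem_support, bump1, ContDiffBump.support_normed_eq, mem_ball_zero_iff]
  exact not_lt.2 ht

theorem norm_ph_le (ξ : ℝ) : ‖ph ξ‖ ≤ 1 := by
  refine (norm_integral_le_integral_norm _).trans_eq ?_
  simp only [norm_mul, Complex.norm_exp_ofReal_mul_I, mul_one, Complex.norm_real,
    Real.norm_of_nonneg (WPoi0_nonneg _)]
  exact ContDiffBump.integral_normed _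

theorem ph_neg (ξ : ℝ) : ph (-ξ) = (starRingEnd ℂ) (ph ξ) := by
  rw [ph, ph, ← integral_conj]
  refine integral_congr_ae (Eventually.of_forall fun t => ?_)
  simp [← Complex.exp_conj]

/-- the rescaled bump as a Schwartz function -/
noncomputable def WPoi0_S {a : ℝ} (ha : 0 < a) : SchwartzMap ℝ ℂ :=
  HasCompactSupport.toSchwartzMap (f := fun x => (bump1 (a * x) : ℂ))
    (HasCompactSupport.intro (isCompact_closedBall 0 a⁻¹) fun x hx => by
      rw [mem_closedBall_zero_iff, not_le, inv_lt_iff_one_lt_mul₀' ha] at hx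
      rw [WPoi0_zero (by rw [abs_mul, abs_of_pos ha]; exact hx.le), Complex.ofReal_zero])
    (Complex.ofRealCLM.contDiff.comp
      ((ContDiffBump.contDiff_normed _).comp (contDiff_const.mul contDiff_id)))

theorem WPoi0_four {a : ℝ} (ha : 0 < a) (ξ : ℝ) :
    FourierTransform.fourier (WPoi0_S ha) ξ = a⁻¹ • ph (2 * Real.pi * ξ / a) := by
  rw [SchwartzMap.fourier_coe, Real.fourier_real_eq_integral_exp_smul, ph,
    ← abs_of_pos (inv_pos.2 ha), ← Measure.integral_comp_mul_left]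
  refine integral_congr_ae (Eventually.of_forall fun t => ?_)
  have e : -(2 * Real.pi * ξ / a * (a * t)) = -2 * Real.pi * t * ξ := by field_simp
  simp only [e]
  exact mul_comm _ _

/-- the bump is a Schwartz function (`HasCompactSupport.toSchwartzMap`), hence so is its Fourier
transform, and `ph ξ = 𝓕 bump1 (ξ / (2 π))`; use `SchwartzMap.decay` or
`SchwartzMap.one_add_le_sup_seminorm_apply` -/
theorem ph_decay (p : ℕ) : ∃ C : ℝ, 1 ≤ C ∧ ∀ ξ : ℝ, (1 + |ξ|) ^ p * ‖ph ξ‖ ≤ C := by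
  have h := SchwartzMap.one_add_le_sup_seminorm_apply (𝕜 := ℝ) (m := (p, 0)) le_rfl le_rfl
    (FourierTransform.fourier (WPoi0_S Real.two_pi_pos))
  refine ⟨max 1 (2 * Real.pi * _), le_max_left _ _, fun ξ => le_max_of_le_right
    (le_trans (le_of_eq ?_) (mul_le_mul_of_nonneg_left (h ξ) Real.two_pi_pos.le))⟩
  rw [norm_iteratedFDeriv_zero, WPoi0_four, mul_div_cancel_left₀ _ Real.two_pi_pos.ne', norm_smul,
    Real.norm_of_nonneg (inv_pos.2 Real.two_pi_pos).le, Real.norm_eq_abs]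
  field_simp

theorem WPoi0_tel {c : ℝ} (hc : 0 < c) (N : ℕ) :
    ∑ k ∈ Finset.range (N + 1), (c / (c + k)) ^ 2 ≤ 1 + c - c ^ 2 / (c + N) := by
  induction N with
  | zero => simp [hc.ne', sq]
  | succ N ih =>
    have h : (c / (c + (N + 1 : ℕ))) ^ 2 ≤ c ^ 2 / (c + N) - c ^ 2 / (c + (N + 1 : ℕ)) := by
      rw [Nat.cast_succ, div_sub_div _ _ (by positivity) (by positivity), div_pow,
        div_le_div_iff₀ (by positivity) (by positivity)]
      nlinarith only [hc, mul_pos (pow_pos hc 2) (by positivity : 0 < c + (N + 1))]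
    rw [Finset.sum_range_succ]
    linarith only [ih, h]

theorem WPoi0_int {c : ℝ} (hc : 1 ≤ c) (F : Finset ℤ) :
    ∑ n ∈ F, (c / (c + |(n : ℝ)|)) ^ 2 ≤ 4 * c := by
  have hc0 : 0 < c := by linarith
  let N := F.sup Int.natAbs
  have h1 : F ⊆ (Finset.range (N + 1)).image (fun k : ℕ => (k : ℤ)) ∪
      (Finset.range (N + 1)).image fun k : ℕ => -(k : ℤ) := fun n hn => by
    have h2 := Finset.mem_range.2 (Nat.lt_succ_of_le (Finset.le_sup (f := Int.natAbs) hn))
    rcases Int.natAbs_eq n with e | e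
    · exact Finset.mem_union_left _ (Finset.mem_image.2 ⟨_, h2, e.symm⟩)
    · exact Finset.mem_union_right _ (Finset.mem_image.2 ⟨_, h2, e.symm⟩)
  refine (Finset.sum_le_sum_of_subset_of_nonneg h1 fun _ _ _ => by positivity).trans ?_
  refine (le_add_of_nonneg_right (Finset.sum_nonneg fun _ _ => by positivity)).trans
    (Finset.sum_union_inter.le.trans ?_)
  rw [Finset.sum_image fun _ _ _ _ e => by exact_mod_cast e,
    Finset.sum_image fun _ _ _ _ e => by exact_mod_cast neg_injective e]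
  have h3 := WPoi0_tel hc0 N
  have h4 : 0 ≤ c ^ 2 / (c + N) := by positivity
  simp only [Int.cast_neg, Int.cast_natCast, abs_neg, Nat.abs_cast]
  linarith only [hc, h3, h4]

/-- `(1 + |n|) ^ j ≤ c ^ j (1 + |n| / c) ^ j`, `ph_decay (j + 2)`, and
`∑ (1 + |n| / c)⁻¹ ^ 2 ≤ 1 + 2 c` by telescoping:
`(1 + (n + 1) / c)⁻¹ ^ 2 ≤ c ((1 + n / c)⁻¹ - (1 + (n + 1) / c)⁻¹)` -/
theorem ph_sum (j : ℕ) : ∃ C : ℝ, 1 ≤ C ∧ ∀ c : ℝ, 1 ≤ c → ∀ F : Finset ℤ,
    ∑ n ∈ F, (1 + |(n : ℝ)|) ^ j * ‖ph (n / c)‖ ≤ C * c ^ (j + 1) := by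
  obtain ⟨C, hC, h⟩ := ph_decay (j + 2)
  refine ⟨4 * C, by linarith, fun c hc F => ?_⟩
  have hc0 : 0 < c := by linarith
  refine (Finset.sum_le_sum (g := fun n : ℤ => C * c ^ j * (c / (c + |(n : ℝ)|)) ^ 2)
    fun n _ => ?_).trans ?_
  · have h1 := h (n / c)
    rw [abs_div, abs_of_pos hc0, one_add_div hc0.ne'] at h1
    calc (1 + |(n : ℝ)|) ^ j * ‖ph (n / c)‖ ≤ (c + |(n : ℝ)|) ^ j * ‖ph (n / c)‖ := by gcongr
      _ = (((c + |(n : ℝ)|) / c) ^ (j + 2) * ‖ph (n / c)‖) * c ^ j * (c / (c + |(n : ℝ)|)) ^ 2 := by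
        simp only [div_pow, pow_add]
        field_simp
      _ ≤ _ := by gcongr
  · rw [← Finset.mul_sum]
    refine (mul_le_mul_of_nonneg_left (WPoi0_int hc F) (by positivity)).trans_eq ?_
    ring

/-- Poisson summation (`SchwartzMap.tsum_eq_tsum_fourier` or
`Real.tsum_eq_tsum_fourier_of_rpow_decay_of_summable`) for `f x = c * bump1 (c * (2 π x))` at the
point `t / (2 π)`; the terms `f (x + n)` with `n ≠ 0` vanish. -/
theorem poisson1 {c : ℝ} (hc : 1 ≤ c) {t : ℝ} (ht : |t| ≤ 2 * Real.pi - 1) :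
    HasSum (fun n : ℤ => ((2 * Real.pi)⁻¹ : ℝ) • ph (n / c) *
      Complex.exp ((((n : ℝ) * t : ℝ) : ℂ) * Complex.I)) ((c * bump1 (c * t) : ℝ) : ℂ) := by
  have hc0 : 0 < c := by linarith
  have hp := Real.two_pi_pos
  have ha : 0 < 2 * Real.pi * c := by positivity
  obtain ⟨C, -, h⟩ := ph_sum 0
  have h1 : Summable fun n : ℤ => ‖ph (n / c)‖ :=
    summable_of_sum_le (fun _ => norm_nonneg _) fun F => by simpa using h c hc F
  have h2 : Summable fun n : ℤ => ((2 * Real.pi)⁻¹ : ℝ) • ph (n / c) *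
      Complex.exp ((((n : ℝ) * t : ℝ) : ℂ) * Complex.I) := by
    refine Summable.of_norm ((h1.mul_left ‖(2 * Real.pi)⁻¹‖).congr fun n => ?_)
    rw [norm_mul, Complex.norm_exp_ofReal_mul_I, mul_one, norm_smul]
  have h3 := SchwartzMap.tsum_eq_tsum_fourier (WPoi0_S ha) (t / (2 * Real.pi))
  rw [tsum_eq_single 0 fun n hn => ?_] at h3
  · have h4 : WPoi0_S ha (t / (2 * Real.pi) + (0 : ℤ)) = (bump1 (c * t) : ℂ) := by
      change (bump1 _ : ℂ) = _
      congr 2
      rw [Int.cast_zero, add_zero]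
      field_simp
    convert h2.hasSum using 1
    rw [Complex.ofReal_mul, ← h4, h3, ← tsum_mul_left]
    refine tsum_congr fun n => ?_
    rw [WPoi0_four, mul_div_mul_left _ _ hp.ne', fourier_coe_apply, ← mul_assoc]
    have h5 : (Real.pi : ℂ) ≠ 0 := by exact_mod_cast Real.pi_ne_zero
    have h6 : (c : ℂ) ≠ 0 := by exact_mod_cast hc0.ne'
    congr 1
    · simp only [Complex.real_smul]
      push_cast
      field_simp
    · congr 1
      push_cast
      field_simp
  · change (bump1 _ : ℂ) = _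
    rw [WPoi0_zero, Complex.ofReal_zero]
    have h4 : (1 : ℝ) ≤ |(n : ℝ)| := by exact_mod_cast Int.one_le_abs hn
    have h5 : 2 * Real.pi * c * (t / (2 * Real.pi) + n) = c * (2 * Real.pi * n - -t) := by
      field_simp
      ring
    have h6 := abs_sub_abs_le_abs_sub (2 * Real.pi * n) (-t)
    rw [abs_mul, abs_of_pos hp, abs_neg] at h6
    rw [h5, abs_mul, abs_of_pos hc0]
    exact one_le_mul_of_one_le_of_one_le hc (by nlinarith only [ht, h6, hp, h4])

end WPoi0

section WPoi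

variable {m : ℕ}

/-- the Fourier coefficients of the periodised mollifier -/
noncomputable def tc (ρ : ℝ) (k : Zm m) : ℂ :=
  ∏ i, ((2 * Real.pi)⁻¹ : ℝ) • ph (k i / (((m : ℝ) + 1) / ρ))

theorem tc_zero (ρ : ℝ) : tc ρ (0 : Zm m) = ((((2 * Real.pi) ^ m)⁻¹ : ℝ) : ℂ) := by
  simp only [tc, Pi.zero_apply, Int.cast_zero, zero_div, ph_zero, Finset.prod_const,
    Finset.card_univ, Fintype.card_fin, Complex.real_smul, mul_one]
  rw [← Complex.ofReal_pow, inv_pow]

theorem WPoi_norm (ρ : ℝ) (k : Zm m) :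
    ‖tc ρ k‖ ≤ ∏ i, ‖ph (k i / (((m : ℝ) + 1) / ρ))‖ := by
  unfold tc
  rw [norm_prod]
  refine Finset.prod_le_prod (fun _ _ => norm_nonneg _) fun i _ => ?_
  have h := Real.pi_gt_three
  rw [norm_smul, Real.norm_of_nonneg (by positivity)]
  exact mul_le_of_le_one_left (norm_nonneg _) (inv_le_one_of_one_le₀ (by linarith))

theorem norm_tc_le (ρ : ℝ) (k : Zm m) : ‖tc ρ k‖ ≤ 1 := by
  refine (WPoi_norm ρ k).trans (Finset.prod_le_one (fun _ _ => norm_nonneg _) fun _ _ => ?_)
  exact norm_ph_le _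

theorem tc_neg (ρ : ℝ) (k : Zm m) : tc ρ (-k) = (starRingEnd ℂ) (tc ρ k) := by
  unfold tc
  rw [map_prod]
  refine Finset.prod_congr rfl fun i _ => ?_
  rw [Pi.neg_apply, Int.cast_neg, neg_div, ph_neg, Complex.real_smul, Complex.real_smul, map_mul,
    Complex.conj_ofReal]

/-- `br_le_prod`, `ph_sum`; a finite set of integer vectors is contained in a
`Fintype.piFinset`, and `Finset.prod_univ_sum` applies -/
theorem tc_s1 (m j : ℕ) : ∃ C : ℝ, 1 ≤ C ∧ ∀ ρ : ℝ, 0 < ρ → ρ ≤ 1 →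
    S1 (fun k : Zm m => br k ^ j) (tc ρ) (C / ρ ^ ((j + 1) * m)) := by
  obtain ⟨C, hC, h⟩ := ph_sum j
  have hm : (1 : ℝ) ≤ (m : ℝ) + 1 := le_add_of_nonneg_left (Nat.cast_nonneg m)
  refine ⟨(C * ((m : ℝ) + 1) ^ (j + 1)) ^ m,
    one_le_pow₀ (one_le_mul_of_one_le_of_one_le hC (one_le_pow₀ hm)), fun ρ h0 h1 F => ?_⟩
  have hc : 1 ≤ ((m : ℝ) + 1) / ρ := (one_le_div h0).2 (h1.trans hm)
  have hsub : F ⊆ Fintype.piFinset fun i => F.image fun k => k i := fun k hk =>
    Fintype.mem_piFinset.2 fun i => Finset.mem_image_of_mem _ hk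
  calc ∑ k ∈ F, br k ^ j * ‖tc ρ k‖
      ≤ ∑ k ∈ F, ∏ i, ((1 + |(k i : ℝ)|) ^ j * ‖ph (k i / (((m : ℝ) + 1) / ρ))‖) := by
        refine Finset.sum_le_sum fun k _ => ?_
        rw [Finset.prod_mul_distrib, Finset.prod_pow]
        exact mul_le_mul (pow_le_pow_left₀ (br_pos k).le (br_le_prod k) j) (WPoi_norm ρ k)
          (norm_nonneg _) (by positivity)
    _ ≤ ∑ k ∈ Fintype.piFinset fun i => (F.image fun k => k i : Finset ℤ),
          ∏ i, ((1 + |(k i : ℝ)|) ^ j * ‖ph (k i / (((m : ℝ) + 1) / ρ))‖) :=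
        Finset.sum_le_sum_of_subset_of_nonneg hsub fun k _ _ => by positivity
    _ = ∏ i, ∑ n ∈ (F.image fun k => k i : Finset ℤ),
          (1 + |(n : ℝ)|) ^ j * ‖ph (n / (((m : ℝ) + 1) / ρ))‖ :=
        (Finset.prod_univ_sum (fun i => (F.image fun k => k i : Finset ℤ))
          fun _ (n : ℤ) => (1 + |(n : ℝ)|) ^ j * ‖ph (n / (((m : ℝ) + 1) / ρ))‖).symm
    _ ≤ ∏ _i : Fin m, C * (((m : ℝ) + 1) / ρ) ^ (j + 1) :=
        Finset.prod_le_prod (fun _ _ => by positivity) fun _ _ => h _ hc _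
    _ = (C * ((m : ℝ) + 1) ^ (j + 1)) ^ m / ρ ^ ((j + 1) * m) := by
        rw [Finset.prod_const, Finset.card_univ, Fintype.card_fin, div_pow, ← mul_div_assoc,
          div_pow, pow_mul]

/-- the constant of `tc_s1` -/
noncomputable def cth (m j : ℕ) : ℝ := (tc_s1 m j).choose

theorem one_le_cth (m j : ℕ) : 1 ≤ cth m j := (tc_s1 m j).choose_spec.1

theorem tc_s1' (j : ℕ) {ρ : ℝ} (h0 : 0 < ρ) (h1 : ρ ≤ 1) :
    S1 (fun k : Zm m => br k ^ j) (tc ρ) (cth m j / ρ ^ ((j + 1) * m)) :=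
  (tc_s1 m j).choose_spec.2 ρ h0 h1

theorem WPoi_mul {ι κ : Type} {f : ι → ℂ} {g : κ → ℂ} {A B : ℂ} (hf : HasSum f A)
    (hg : HasSum g B) : HasSum (fun x : ι × κ => f x.1 * g x.2) (A * B) :=
  hf.mul hg (summable_mul_of_summable_norm hf.summable.norm hg.summable.norm)

/-- a finite product of absolutely convergent series (induction on `n` with `Fin.consEquiv` or
`Fin.insertNthEquiv`, `HasSum.mul`, `summable_mul_of_summable_norm`) -/
theorem hasSum_pi_prod (n : ℕ) (a : Fin n → ℤ → ℂ) (A : Fin n → ℂ)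
    (h : ∀ i, HasSum (a i) (A i)) :
    HasSum (fun k : Fin n → ℤ => ∏ i, a i (k i)) (∏ i, A i) := by
  induction n with
  | zero =>
    have h0 := hasSum_unique fun k : Fin 0 → ℤ => ∏ i, a i (k i)
    rw [Fin.prod_univ_zero] at h0 ⊢
    exact h0
  | succ n ih =>
    have h1 : HasSum (fun k : Fin n → ℤ => ∏ i, a i.succ (k i)) (∏ i : Fin n, A i.succ) :=
      ih (fun i => a i.succ) (fun i => A i.succ) fun i => h i.succ
    have h2 := WPoi_mul (h 0) h1
    rw [Fin.prod_univ_succ]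
    refine (Fin.consEquiv fun _ : Fin (n + 1) => ℤ).hasSum_iff.1 ?_
    have e : ((fun k : Fin (n + 1) → ℤ => ∏ i, a i (k i)) ∘
        (Fin.consEquiv fun _ : Fin (n + 1) => ℤ)) =
        fun x : ℤ × (Fin n → ℤ) => a 0 x.1 * ∏ i, a i.succ (x.2 i) := by
      funext x
      simp only [Function.comp, Fin.prod_univ_succ]
      rfl
    rw [e]
    exact h2

theorem tc_hasSum {ρ : ℝ} (h0 : 0 < ρ) (h1 : ρ ≤ 1) {x : E m}
    (hx : ∀ i, |x i| ≤ 2 * Real.pi - 1) : HasSum (fun k => tc ρ k * ch k x) (th ρ x : ℂ) := by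
  have hm : (1 : ℝ) ≤ (m : ℝ) + 1 := le_add_of_nonneg_left (Nat.cast_nonneg m)
  have hc : 1 ≤ ((m : ℝ) + 1) / ρ := (one_le_div h0).2 (h1.trans hm)
  have h := hasSum_pi_prod m _ _ fun i => poisson1 hc (hx i)
  rw [← Complex.ofReal_prod] at h
  have e : (fun k : Zm m => tc ρ k * ch k x) = fun k : Fin m → ℤ =>
      ∏ i, ((2 * Real.pi)⁻¹ : ℝ) • ph (k i / (((m : ℝ) + 1) / ρ)) *
        Complex.exp ((((k i : ℝ) * x i : ℝ) : ℂ) * Complex.I) := by
    funext k
    rw [Finset.prod_mul_distrib, ch_eq_prod]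
    rfl
  rw [e]
  exact h

end WPoi

end Pool.Agent.MP_f6c0e6_an.Gen.Wie

end

section

/-! The Wiener algebra of real functions as a Banach algebra. -/

set_option autoImplicit false

open MeasureTheory Filter Topology Set Metric
open scoped ENNReal RealInnerProductSpace

namespace Pool.Agent.MP_f6c0e6_an.Gen.Wie

section WAlg0

variable {m s s' : ℕ}

/-- `f` is the sum of its Fourier series, which converges with the weight `br k ^ s` -/
def IsW (s : ℕ) (f : E m → ℝ) : Prop :=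
  Summable (fun k => br k ^ s * ‖cf f k‖) ∧ ∀ x, HasSum (fun k => cf f k * ch k x) (f x : ℂ)

theorem one_le_br_pow (s : ℕ) (k : Zm m) : 1 ≤ br k ^ s := one_le_pow₀ (one_le_br k)

theorem br_pow_nonneg (s : ℕ) (k : Zm m) : 0 ≤ br k ^ s := zero_le_one.trans (one_le_br_pow s k)

theorem br_pow_le_mul (s : ℕ) (k l : Zm m) : br k ^ s ≤ br (k - l) ^ s * br l ^ s := by
  rw [← mul_pow]
  exact pow_le_pow_left₀ (br_pos k).le (br_le_mul k l) s

theorem summable_norm_of_br {c : Zm m → ℂ} (hc : Summable fun k => br k ^ s * ‖c k‖) :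
    Summable fun k => ‖c k‖ :=
  (S1.of_summable (br_pow_nonneg s) hc).summable_norm (one_le_br_pow s)

theorem IsW.of {f : E m → ℝ} {c : Zm m → ℂ} (hc : Summable fun k => br k ^ s * ‖c k‖)
    (hf : ∀ x, HasSum (fun k => c k * ch k x) (f x : ℂ)) : IsW s f ∧ cf f = c := by
  have h := cf_eq (summable_norm_of_br hc) fun x _ => hf x
  exact ⟨⟨by rw [h]; exact hc, by rw [h]; exact hf⟩, h⟩

theorem IsW.add {f g : E m → ℝ} (hf : IsW s f) (hg : IsW s g) :
    IsW s (f + g) ∧ cf (f + g) = fun k => cf f k + cf g k := by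
  refine IsW.of ?_ fun x => ?_
  · exact (((S1.of_summable (br_pow_nonneg s) hf.1).add (S1.of_summable (br_pow_nonneg s) hg.1)
      (br_pow_nonneg s)).summable (br_pow_nonneg s)).1
  · have h := (hf.2 x).add (hg.2 x)
    simpa [add_mul] using h

theorem IsW.mul {f g : E m → ℝ} (hf : IsW s f) (hg : IsW s g) :
    IsW s (f * g) ∧ cf (f * g) = cnv (cf f) (cf g) := by
  refine IsW.of ?_ fun x => ?_
  · exact ((S1.cnv (one_le_br_pow s) (br_pow_le_mul s) (S1.of_summable (br_pow_nonneg s) hf.1)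
      (S1.of_summable (br_pow_nonneg s) hg.1)).summable (br_pow_nonneg s)).1
  · have h := hasSum_cnv (summable_norm_of_br hf.1) (summable_norm_of_br hg.1) (hf.2 x) (hg.2 x)
    simpa using h

theorem IsW.const (s : ℕ) (r : ℝ) :
    IsW s (fun _ : E m => r) ∧ cf (fun _ : E m => r) = fun k => if k = 0 then (r : ℂ) else 0 := by
  refine IsW.of ?_ fun x => ?_
  · refine (hasSum_single (0 : Zm m) fun k hk => ?_).summable
    simp [hk]
  · have h : HasSum (fun k : Zm m => (if k = 0 then (r : ℂ) else 0) * ch k x)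
        ((if (0 : Zm m) = 0 then (r : ℂ) else 0) * ch (0 : Zm m) x) :=
      hasSum_single (0 : Zm m) fun k hk => by simp [hk]
    simpa [ch_zero] using h

/-- the Wiener algebra as an algebra of functions -/
def WS (m s : ℕ) : Subalgebra ℝ (E m → ℝ) where
  carrier := {f | IsW s f}
  mul_mem' := fun ha hb => (IsW.mul ha hb).1
  add_mem' := fun ha hb => (IsW.add ha hb).1
  algebraMap_mem' := fun r => (IsW.const s r).1

/-- the Wiener algebra of order `s` -/
def WA (m s : ℕ) : Type := WS m s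

namespace WA

noncomputable instance instCommRing : CommRing (WA m s) := inferInstanceAs (CommRing (WS m s))

noncomputable instance instAlgebra : Algebra ℝ (WA m s) := inferInstanceAs (Algebra ℝ (WS m s))

/-- the function -/
def f (u : WA m s) : E m → ℝ := Subtype.val (p := fun g => g ∈ WS m s) u

/-- the coefficients -/
noncomputable def c (u : WA m s) : Zm m → ℂ := cf u.f

theorem isW (u : WA m s) : IsW s u.f := Subtype.property (p := fun g => g ∈ WS m s) u

/-- the element given by a function -/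
def mk (g : E m → ℝ) (h : IsW s g) : WA m s := (⟨g, h⟩ : WS m s)

@[simp] theorem mk_f (g : E m → ℝ) (h : IsW s g) : (mk g h).f = g := rfl

theorem ext_f {u v : WA m s} (h : ∀ x, u.f x = v.f x) : u = v := Subtype.ext (funext h)

@[simp] theorem add_f (u v : WA m s) (x : E m) : (u + v).f x = u.f x + v.f x := rfl
@[simp] theorem sub_f (u v : WA m s) (x : E m) : (u - v).f x = u.f x - v.f x := rfl
@[simp] theorem neg_f (u : WA m s) (x : E m) : (-u).f x = -u.f x := rfl
@[simp] theorem mul_f (u v : WA m s) (x : E m) : (u * v).f x = u.f x * v.f x := rfl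
@[simp] theorem smul_f (r : ℝ) (u : WA m s) (x : E m) : (r • u).f x = r * u.f x := rfl
@[simp] theorem zero_f (x : E m) : (0 : WA m s).f x = 0 := rfl
@[simp] theorem one_f (x : E m) : (1 : WA m s).f x = 1 := rfl

/-- evaluation at a point -/
def evR (x : E m) : WA m s →+* ℝ where
  toFun u := u.f x
  map_one' := rfl
  map_mul' _ _ := rfl
  map_zero' := rfl
  map_add' _ _ := rfl

@[simp] theorem evR_apply (x : E m) (u : WA m s) : evR x u = u.f x := rfl

@[simp] theorem sum_f {ι : Type*} (I : Finset ι) (u : ι → WA m s) (x : E m) :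
    (∑ i ∈ I, u i).f x = ∑ i ∈ I, (u i).f x := map_sum (evR x) u I

theorem summable (u : WA m s) : Summable fun k => br k ^ s * ‖u.c k‖ := u.isW.1

theorem summable_norm (u : WA m s) : Summable fun k => ‖u.c k‖ := summable_norm_of_br u.summable

theorem hasSum (u : WA m s) (x : E m) : HasSum (fun k => u.c k * ch k x) (u.f x : ℂ) := u.isW.2 x

theorem ext_c {u v : WA m s} (h : ∀ k, u.c k = v.c k) : u = v := by
  refine ext_f fun x => Complex.ofReal_injective ?_
  have h1 := u.hasSum x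
  simp only [h] at h1
  exact h1.unique (v.hasSum x)

theorem ext_box {u v : WA m s} (h : ∀ x ∈ box m, u.f x = v.f x) : u = v :=
  ext_c (congrFun (cf_congr h))

theorem c_neg (u : WA m s) (k : Zm m) : u.c (-k) = (starRingEnd ℂ) (u.c k) := cf_neg _ _

theorem add_c (u v : WA m s) (k : Zm m) : (u + v).c k = u.c k + v.c k :=
  congrFun (u.isW.add v.isW).2 k

theorem mul_c (u v : WA m s) : (u * v).c = cnv u.c v.c := (u.isW.mul v.isW).2

theorem smul_c (r : ℝ) (u : WA m s) (k : Zm m) : (r • u).c k = (r : ℂ) * u.c k := by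
  have h : IsW s (r • u).f ∧ cf (r • u).f = fun k => (r : ℂ) * u.c k := by
    refine IsW.of ?_ fun x => ?_
    · refine (u.summable.mul_left ‖r‖).congr fun k => ?_
      rw [norm_mul, Complex.norm_real]
      ring
    · have h := (u.hasSum x).mul_left (r : ℂ)
      simpa [mul_assoc] using h
  exact congrFun h.2 k

theorem zero_c (k : Zm m) : (0 : WA m s).c k = 0 := by
  have h := smul_c (0 : ℝ) (0 : WA m s) k
  simpa using h

theorem one_c (k : Zm m) : (1 : WA m s).c k = if k = 0 then 1 else 0 := by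
  have h := congrFun (IsW.const (m := m) s 1).2 k
  rw [Complex.ofReal_one] at h
  exact h

theorem neg_c (u : WA m s) (k : Zm m) : (-u).c k = -u.c k := by
  have h := smul_c (-1 : ℝ) u k
  simpa using h

theorem sub_c (u v : WA m s) (k : Zm m) : (u - v).c k = u.c k - v.c k := by
  rw [sub_eq_add_neg, add_c, neg_c, sub_eq_add_neg]

theorem sum_c {ι : Type*} (I : Finset ι) (u : ι → WA m s) (k : Zm m) :
    (∑ i ∈ I, u i).c k = ∑ i ∈ I, (u i).c k := by
  classical
  induction I using Finset.induction_on with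
  | empty => simp [zero_c]
  | insert i I hi ih => rw [Finset.sum_insert hi, Finset.sum_insert hi, add_c, ih]

/-- the mean value is real -/
theorem c_zero_re (u : WA m s) : (((u.c 0).re : ℝ) : ℂ) = u.c 0 := by
  have h := u.c_neg 0
  rw [neg_zero] at h
  exact Complex.conj_eq_iff_re.1 h.symm

theorem nrm_add_le (u v : WA m s) : ∑' k, br k ^ s * ‖(u + v).c k‖ ≤
    ∑' k, br k ^ s * ‖u.c k‖ + ∑' k, br k ^ s * ‖v.c k‖ := by
  simp only [add_c]
  exact (((S1.of_summable (br_pow_nonneg s) u.summable).add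
    (S1.of_summable (br_pow_nonneg s) v.summable) (br_pow_nonneg s)).summable
    (br_pow_nonneg s)).2

theorem nrm_mul_le (u v : WA m s) : ∑' k, br k ^ s * ‖(u * v).c k‖ ≤
    (∑' k, br k ^ s * ‖u.c k‖) * ∑' k, br k ^ s * ‖v.c k‖ := by
  rw [mul_c]
  exact ((S1.cnv (one_le_br_pow s) (br_pow_le_mul s) (S1.of_summable (br_pow_nonneg s) u.summable)
    (S1.of_summable (br_pow_nonneg s) v.summable)).summable (br_pow_nonneg s)).2

theorem nrm_smul_le (r : ℝ) (u : WA m s) : ∑' k, br k ^ s * ‖(r • u).c k‖ ≤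
    ‖r‖ * ∑' k, br k ^ s * ‖u.c k‖ := by
  rw [← tsum_mul_left]
  refine le_of_eq (tsum_congr fun k => ?_)
  rw [smul_c, norm_mul, Complex.norm_real]
  ring

theorem eq_zero_of_nrm (u : WA m s) (h : ∑' k, br k ^ s * ‖u.c k‖ = 0) : u = 0 := by
  refine ext_c fun k => ?_
  have h1 := (S1.of_summable (br_pow_nonneg s) u.summable).toSI k
  rw [h] at h1
  have h2 : 0 < br k ^ s := lt_of_lt_of_le one_pos (one_le_br_pow s k)
  have h3 : ‖u.c k‖ ≤ 0 := by
    by_contra h4
    exact absurd h1 (not_le.2 (mul_pos h2 (not_le.1 h4)))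
  rw [zero_c]
  exact norm_le_zero_iff.1 h3

/-- the norm -/
noncomputable def gn (m s : ℕ) : AddGroupNorm (WA m s) where
  toFun u := ∑' k, br k ^ s * ‖u.c k‖
  map_zero' := by simp [zero_c]
  add_le' := nrm_add_le
  neg' u := by simp [neg_c]
  eq_zero_of_map_eq_zero' := eq_zero_of_nrm

noncomputable instance instNormedCommRing : NormedCommRing (WA m s) :=
  { (instCommRing : CommRing (WA m s)), (gn m s).toNormedAddCommGroup with
    norm_mul_le := nrm_mul_le }

noncomputable instance instNormedAlgebra : NormedAlgebra ℝ (WA m s) :=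
  { (instAlgebra : Algebra ℝ (WA m s)) with norm_smul_le := nrm_smul_le }

theorem norm_def (u : WA m s) : ‖u‖ = ∑' k, br k ^ s * ‖u.c k‖ := rfl

theorem s1 (u : WA m s) : S1 (fun k => br k ^ s) u.c ‖u‖ :=
  S1.of_summable (br_pow_nonneg s) u.summable

theorem norm_le {u : WA m s} {M : ℝ} (h : S1 (fun k => br k ^ s) u.c M) : ‖u‖ ≤ M :=
  (h.summable (br_pow_nonneg s)).2

theorem norm_one : ‖(1 : WA m s)‖ = 1 := by
  rw [norm_def, tsum_eq_single (0 : Zm m) fun k hk => by simp [one_c, hk]]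
  simp [one_c, br_zero]

theorem abs_f_le (u : WA m s) (x : E m) : |u.f x| ≤ ‖u‖ := by
  have h1 : ‖(u.f x : ℂ)‖ ≤ ∑' k, br k ^ s * ‖u.c k‖ := by
    refine (u.hasSum x).norm_le_of_bounded u.summable.hasSum fun k => ?_
    rw [norm_mul, norm_ch, mul_one]
    exact le_mul_of_one_le_left (norm_nonneg _) (one_le_br_pow s k)
  rwa [Complex.norm_real, Real.norm_eq_abs] at h1

theorem norm_c_le (u : WA m s) (k : Zm m) : ‖u.c k‖ ≤ ‖u‖ := by
  exact (le_mul_of_one_le_left (norm_nonneg _) (one_le_br_pow s k)).trans (u.s1.toSI k)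

/-- the element given by a symmetric sequence -/
noncomputable def ofSeq (a : Zm m → ℂ) (ha : Summable fun k => br k ^ s * ‖a k‖)
    (hs : ∀ k, a (-k) = (starRingEnd ℂ) (a k)) : WA m s :=
  mk (fun x => (∑' k, a k * ch k x).re) (IsW.of ha (hasSum_re (summable_norm_of_br ha) hs)).1

theorem ofSeq_c (a : Zm m → ℂ) (ha : Summable fun k => br k ^ s * ‖a k‖)
    (hs : ∀ k, a (-k) = (starRingEnd ℂ) (a k)) : (ofSeq a ha hs).c = a :=
  (IsW.of ha (hasSum_re (summable_norm_of_br ha) hs)).2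

theorem WAlg0_summable (u : ℕ → WA m s) (hu : Summable fun n => ‖u n‖) (k : Zm m) :
    Summable fun n => (u n).c k :=
  Summable.of_norm_bounded hu fun n => (u n).norm_c_le k

theorem WAlg0_tail (u : ℕ → WA m s) (hu : Summable fun n => ‖u n‖) :
    S1 (fun k => br k ^ s) (fun k => ∑' n, (u n).c k) (∑' n, ‖u n‖) := by
  intro F
  have h0 : ∀ k, Summable fun n => br k ^ s * ‖(u n).c k‖ := fun k =>
    Summable.of_nonneg_of_le (fun n => mul_nonneg (br_pow_nonneg s k) (norm_nonneg _))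
      (fun n => (u n).s1.toSI k) hu
  have h1 : ∀ k, br k ^ s * ‖∑' n, (u n).c k‖ ≤ ∑' n, br k ^ s * ‖(u n).c k‖ := fun k => by
    rw [tsum_mul_left]
    exact mul_le_mul_of_nonneg_left (norm_tsum_le_tsum_norm (WAlg0_summable u hu k).norm)
      (br_pow_nonneg s k)
  calc ∑ k ∈ F, br k ^ s * ‖∑' n, (u n).c k‖
      ≤ ∑ k ∈ F, ∑' n, br k ^ s * ‖(u n).c k‖ := Finset.sum_le_sum fun k _ => h1 k
    _ = ∑' n, ∑ k ∈ F, br k ^ s * ‖(u n).c k‖ :=
        (Summable.tsum_finsetSum fun k _ => h0 k).symm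
    _ ≤ ∑' n, ‖u n‖ :=
        Summable.tsum_le_tsum (fun n => (u n).s1 F) (summable_sum fun k _ => h0 k) hu

/-- `NormedAddCommGroup.completeSpace_of_summable_imp_tendsto`: the limit of the partial sums of
`u n` is `ofSeq fun k => ∑' n, (u n).c k`. Or use the isometric embedding in `lp _ 1`, whose range
is the closed set of symmetric sequences. -/
theorem complete : CompleteSpace (WA m s) := by
  refine NormedAddCommGroup.completeSpace_of_summable_imp_tendsto fun u hu => ?_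
  have hs : ∀ k, (fun k => ∑' n, (u n).c k) (-k) =
      (starRingEnd ℂ) ((fun k => ∑' n, (u n).c k) k) := fun k => by
    simp only [c_neg]
    exact (Complex.conj_tsum _).symm
  refine ⟨ofSeq (fun k => ∑' n, (u n).c k)
    ((WAlg0_tail u hu).summable (br_pow_nonneg s)).1 hs, ?_⟩
  rw [tendsto_iff_norm_sub_tendsto_zero]
  refine squeeze_zero (fun _ => norm_nonneg _) (fun N => ?_) (tendsto_sum_nat_add fun n => ‖u n‖)
  rw [norm_sub_rev]
  refine norm_le ?_
  have h := WAlg0_tail (fun n => u (n + N)) ((summable_nat_add_iff (f := fun n => ‖u n‖) N).2 hu)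
  convert h using 1
  funext k
  rw [sub_c, ofSeq_c, sum_c, ← (WAlg0_summable u hu k).sum_add_tsum_nat_add N]
  ring

instance instCompleteSpace : CompleteSpace (WA m s) := complete

/-- evaluation as a continuous linear map -/
noncomputable def evL (x : E m) : WA m s →L[ℝ] ℝ :=
  LinearMap.mkContinuous ⟨⟨fun u => u.f x, fun _ _ => rfl⟩, fun _ _ => rfl⟩ 1 fun u => by
    simpa using u.abs_f_le x

@[simp] theorem evL_apply (x : E m) (u : WA m s) : evL x u = u.f x := rfl

end WA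

end WAlg0

section WAlg

variable {m s s' : ℕ}

namespace WA

/-- the data of a Fourier multiplier -/
structure Mu (m s s' : ℕ) where
  φ : Zm m → ℂ
  C : ℝ
  C_nonneg : 0 ≤ C
  symm : ∀ k, φ (-k) = (starRingEnd ℂ) (φ k)
  bd : ∀ k, br k ^ s' * ‖φ k‖ ≤ C * br k ^ s

theorem Mu.s1 (μ : Mu m s s') (u : WA m s) :
    S1 (fun k => br k ^ s') (fun k => μ.φ k * u.c k) (μ.C * ‖u‖) := by
  refine u.s1.of_le μ.C_nonneg fun k => ?_
  rw [norm_mul, ← mul_assoc, ← mul_assoc]
  exact mul_le_mul_of_nonneg_right (μ.bd k) (norm_nonneg _)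

/-- the multiplier as a map -/
noncomputable def Mu.app (μ : Mu m s s') (u : WA m s) : WA m s' :=
  ofSeq (fun k => μ.φ k * u.c k) ((μ.s1 u).summable (br_pow_nonneg s')).1 fun k => by
    rw [μ.symm, c_neg, map_mul]

theorem Mu.app_c (μ : Mu m s s') (u : WA m s) (k : Zm m) : (μ.app u).c k = μ.φ k * u.c k :=
  congrFun (ofSeq_c _ _ _) k

/-- the multiplier as a continuous linear map -/
noncomputable def Mu.L (μ : Mu m s s') : WA m s →L[ℝ] WA m s' :=
  LinearMap.mkContinuous
    ⟨⟨μ.app, fun u v => ext_c fun k => by simp only [add_c, μ.app_c, mul_add]⟩,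
      fun r u => ext_c fun k => by
        simp only [smul_c, μ.app_c, RingHom.id_apply]; ring⟩ μ.C fun u =>
    norm_le (by
      have h : (μ.app u).c = fun k => μ.φ k * u.c k := funext (μ.app_c u)
      exact h ▸ μ.s1 u)

theorem Mu.L_c (μ : Mu m s s') (u : WA m s) (k : Zm m) : (μ.L u).c k = μ.φ k * u.c k :=
  μ.app_c u k

theorem Mu.norm_L_le (μ : Mu m s s') (u : WA m s) : ‖μ.L u‖ ≤ μ.C * ‖u‖ :=
  norm_le (by
    have h : (μ.L u).c = fun k => μ.φ k * u.c k := funext (μ.L_c u)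
    exact h ▸ μ.s1 u)

theorem inc_bd (k : Zm m) : br k ^ s * ‖(1 : ℂ)‖ ≤ 1 * br k ^ (s + 1) := by
  rw [NormOneClass.norm_one, mul_one, one_mul]
  exact pow_le_pow_right₀ (one_le_br k) (Nat.le_succ s)

theorem D_bd (i : Fin m) (k : Zm m) :
    br k ^ s * ‖Complex.I * ((k i : ℝ) : ℂ)‖ ≤ 1 * br k ^ (s + 1) := by
  rw [norm_mul, Complex.norm_I, one_mul, one_mul, Complex.norm_real, Real.norm_eq_abs, pow_succ]
  exact mul_le_mul_of_nonneg_left (abs_le_br k i) (br_pow_nonneg s k)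

theorem G0_bd (k : Zm m) :
    br k ^ (s + 2) * ‖((-(‖kv k‖ ^ 2)⁻¹ : ℝ) : ℂ)‖ ≤ 4 * br k ^ s := by
  have h0 := br_pow_nonneg s k
  rw [Complex.norm_real, norm_neg, Real.norm_of_nonneg (by positivity)]
  by_cases hk : k = 0
  · subst hk
    rw [kv_zero, norm_zero]
    simpa using h0
  · have h1 : 0 < ‖kv k‖ ^ 2 := pow_pos (zero_lt_one.trans_le (one_le_norm_kv hk)) 2
    rw [← div_eq_mul_inv, div_le_iff₀ h1, pow_add, mul_comm 4, mul_assoc]
    exact mul_le_mul_of_nonneg_left (br_sq_le hk) h0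

/-- the inclusion -/
noncomputable def inc : WA m (s + 1) →L[ℝ] WA m s :=
  Mu.L ⟨fun _ => 1, 1, zero_le_one, fun _ => by simp, inc_bd⟩

/-- the partial derivative -/
noncomputable def D (i : Fin m) : WA m (s + 1) →L[ℝ] WA m s :=
  Mu.L ⟨fun k => Complex.I * ((k i : ℝ) : ℂ), 1, zero_le_one, fun k => by simp, D_bd i⟩

/-- the inverse of the Laplacian on functions of mean zero -/
noncomputable def G0 : WA m s →L[ℝ] WA m (s + 2) :=
  Mu.L ⟨fun k => ((-(‖kv k‖ ^ 2)⁻¹ : ℝ) : ℂ), 4, by norm_num, fun k => by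
    rw [kv_neg, norm_neg, Complex.conj_ofReal], G0_bd⟩

theorem inc_c (u : WA m (s + 1)) (k : Zm m) : (inc u).c k = u.c k := by
  exact (Mu.L_c _ _ _).trans (one_mul _)

theorem D_c (i : Fin m) (u : WA m (s + 1)) (k : Zm m) :
    (D i u).c k = Complex.I * ((k i : ℝ) : ℂ) * u.c k := Mu.L_c _ _ _

theorem G0_c (u : WA m s) (k : Zm m) : (G0 u).c k = ((-(‖kv k‖ ^ 2)⁻¹ : ℝ) : ℂ) * u.c k :=
  Mu.L_c _ _ _

theorem norm_inc_le (u : WA m (s + 1)) : ‖inc u‖ ≤ ‖u‖ := by
  exact (Mu.norm_L_le _ _).trans_eq (one_mul _)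

theorem norm_D_le (i : Fin m) (u : WA m (s + 1)) : ‖D i u‖ ≤ ‖u‖ := by
  exact (Mu.norm_L_le _ _).trans_eq (one_mul _)

theorem norm_G0_le (u : WA m s) : ‖G0 u‖ ≤ 4 * ‖u‖ := Mu.norm_L_le _ _

@[simp] theorem inc_f (u : WA m (s + 1)) : (inc u).f = u.f := by
  funext x
  have h := (inc u).hasSum x
  simp only [inc_c] at h
  exact_mod_cast h.unique (u.hasSum x)

/-- the real form of the series: `a k = re (c k)`, `b k = - im (c k)` -/
theorem wnF_of_s1 (u : WA m s) {j : ℕ} {M : ℝ} (h : S1 (fun k => br k ^ j) u.c M) :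
    WnF j u.f (2 * M) := by
  obtain ⟨h1, h2⟩ := h.summable (br_pow_nonneg j)
  have h3 : ∀ k, (1 + ‖kv k‖) ^ j * (‖(u.c k).re‖ + ‖-(u.c k).im‖) ≤
      2 * (br k ^ j * ‖u.c k‖) := fun k => by
    have h4 := Complex.abs_re_le_norm (u.c k)
    have h5 := Complex.abs_im_le_norm (u.c k)
    rw [norm_neg, Real.norm_eq_abs, Real.norm_eq_abs, mul_left_comm]
    exact mul_le_mul_of_nonneg_left (by linarith) (br_pow_nonneg j k)
  have h4 : Summable fun k => (1 + ‖kv k‖) ^ j * (‖(u.c k).re‖ + ‖-(u.c k).im‖) :=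
    Summable.of_nonneg_of_le (fun k => by positivity) h3 (h1.mul_left 2)
  refine ⟨fun k => (u.c k).re, fun k => -(u.c k).im, h4, ?_, fun x => ?_⟩
  · refine (h4.tsum_le_tsum h3 (h1.mul_left 2)).trans ?_
    rw [tsum_mul_left]
    linarith
  · have h5 := Complex.hasSum_re (u.hasSum x)
    rw [Complex.ofReal_re] at h5
    refine h5.congr_fun fun k => ?_
    rw [Complex.mul_re, ch_re, ch_im, smul_eq_mul, smul_eq_mul]
    ring

theorem cb_of_s1 (u : WA m s) {j : ℕ} {M : ℝ} (h : S1 (fun k => br k ^ j) u.c M) :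
    Cb j u.f (2 * M) := (u.wnF_of_s1 h).cb

theorem contDiff (u : WA m s) : ContDiff ℝ s u.f := (u.cb_of_s1 u.s1).smooth

theorem WAlg_diff (u : WA m (s + 1)) (x : E m) : DifferentiableAt ℝ u.f x :=
  u.contDiff.differentiable (by simp) x

/-- termwise differentiation (`hasFDerivAt_tsum`, `hasFDerivAt_ch`) -/
theorem D_f (i : Fin m) (u : WA m (s + 1)) (x : E m) : (D i u).f x = fderiv ℝ u.f x (ev i) := by
  let L : Zm m → E m → E m →L[ℝ] ℂ := fun k y =>
    u.c k • (innerSL ℝ (kv k)).smulRight (Complex.I * ch k y)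
  have h1 : ∀ k y, ‖L k y‖ ≤ br k ^ (s + 1) * ‖u.c k‖ := fun k y => by
    refine (norm_smul_le (u.c k) ((innerSL ℝ (kv k)).smulRight (Complex.I * ch k y))).trans ?_
    rw [ContinuousLinearMap.norm_smulRight_apply, innerSL_apply_norm, norm_mul, Complex.norm_I,
      norm_ch, mul_one, mul_one, mul_comm]
    refine mul_le_mul_of_nonneg_right (le_trans ?_ (le_self_pow₀ (one_le_br k) s.succ_ne_zero))
      (norm_nonneg _)
    exact le_add_of_nonneg_left zero_le_one
  have h2 := hasFDerivAt_tsum u.summable (f' := L)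
    (fun k y => (hasFDerivAt_ch k y).const_mul (u.c k)) h1 (u.hasSum x).summable x
  simp only [fun y => (u.hasSum y).tsum_eq] at h2
  have h3 := Complex.ofRealCLM.hasFDerivAt.comp x (WAlg_diff u x).hasFDerivAt
  have h4 := (Summable.of_norm_bounded u.summable fun k => h1 k x).hasSum.mapL
    (ContinuousLinearMap.apply ℝ ℂ (ev i))
  rw [h2.unique h3] at h4
  have h5 := (D i u).hasSum x
  have h6 : ∀ k, (D i u).c k * ch k x = ContinuousLinearMap.apply ℝ ℂ (ev i) (L k x) := fun k => by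
    simp [L, D_c, ev, EuclideanSpace.inner_single_right, kv_apply]
    ring
  simp only [h6] at h5
  simpa using h5.unique h4

theorem inc_mul (u v : WA m (s + 1)) : inc (u * v) = inc u * inc v := by
  exact ext_f fun x => by simp only [inc_f, mul_f]

theorem D_mul (i : Fin m) (u v : WA m (s + 1)) :
    D i (u * v) = D i u * inc v + inc u * D i v := by
  refine ext_f fun x => ?_
  have h : (u * v).f = fun y => u.f y * v.f y := rfl
  rw [D_f, h, fderiv_fun_mul (WAlg_diff u x) (WAlg_diff v x)]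
  simp only [add_f, mul_f, inc_f, D_f, _root_.add_apply, _root_.smul_apply, smul_eq_mul]
  ring

theorem D_inc (i : Fin m) (u : WA m (s + 1 + 1)) : D i (inc u) = inc (D i u) := by
  exact ext_c fun k => by simp only [D_c, inc_c]

/-! ### Operators that lose two orders -/

/-- the inclusion -/
noncomputable def d0 : WA m (s + 2) →L[ℝ] WA m s := inc ∘L inc

/-- the first derivatives -/
noncomputable def d1 (i : Fin m) : WA m (s + 2) →L[ℝ] WA m s := inc ∘L D i

/-- the second derivatives -/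
noncomputable def d2 (i j : Fin m) : WA m (s + 2) →L[ℝ] WA m s := D i ∘L D j

/-- the Laplacian -/
noncomputable def lp2 : WA m (s + 2) →L[ℝ] WA m s := ∑ i, d2 i i

theorem d0_c (u : WA m (s + 2)) (k : Zm m) : (d0 u).c k = u.c k := by
  exact (inc_c _ k).trans (inc_c _ k)

theorem d1_c (i : Fin m) (u : WA m (s + 2)) (k : Zm m) :
    (d1 i u).c k = Complex.I * ((k i : ℝ) : ℂ) * u.c k := by
  exact (inc_c _ k).trans (D_c i _ k)

theorem d2_c (i j : Fin m) (u : WA m (s + 2)) (k : Zm m) :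
    (d2 i j u).c k = ((-((k i : ℝ) * (k j : ℝ)) : ℝ) : ℂ) * u.c k := by
  change (D i (D j u)).c k = _
  rw [D_c, D_c]
  push_cast
  linear_combination ((k i : ℂ) * (k j : ℂ) * u.c k) * Complex.I_sq

theorem lp2_apply (u : WA m (s + 2)) : lp2 u = ∑ i, d2 i i u := by
  exact _root_.sum_apply _ _ _

theorem lp2_c (u : WA m (s + 2)) (k : Zm m) :
    (lp2 u).c k = ((-‖kv k‖ ^ 2 : ℝ) : ℂ) * u.c k := by
  rw [lp2_apply, sum_c, norm_kv_sq]
  simp only [d2_c, ← Finset.sum_mul, ← Complex.ofReal_sum, Finset.sum_neg_distrib, sq]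

theorem d2_comm (i j : Fin m) (u : WA m (s + 2)) : d2 i j u = d2 j i u := by
  exact ext_c fun k => by rw [d2_c, d2_c, mul_comm (k i : ℝ)]

theorem norm_d0_le (u : WA m (s + 2)) : ‖d0 u‖ ≤ ‖u‖ := by
  exact (norm_inc_le _).trans (norm_inc_le _)

theorem norm_d1_le (i : Fin m) (u : WA m (s + 2)) : ‖d1 i u‖ ≤ ‖u‖ := by
  exact (norm_inc_le _).trans (norm_D_le i _)

theorem norm_d2_le (i j : Fin m) (u : WA m (s + 2)) : ‖d2 i j u‖ ≤ ‖u‖ := by
  exact (norm_D_le i _).trans (norm_D_le j _)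

@[simp] theorem d0_f (u : WA m (s + 2)) : (d0 u).f = u.f := by
  exact (inc_f _).trans (inc_f _)

theorem d1_f (i : Fin m) (u : WA m (s + 2)) (x : E m) :
    (d1 i u).f x = fderiv ℝ u.f x (ev i) := by
  exact (congrFun (inc_f _) x).trans (D_f i _ x)

theorem d2_f (i j : Fin m) (u : WA m (s + 2)) (x : E m) :
    (d2 i j u).f x = fderiv ℝ (fderiv ℝ u.f) x (ev i) (ev j) := by
  change (D i (D j u)).f x = _
  have h1 : (D j u).f = fun y => fderiv ℝ u.f y (ev j) := funext (D_f j u)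
  have h2 : DifferentiableAt ℝ (fderiv ℝ u.f) x :=
    ((u.contDiff.fderiv_right (m := 1) (by exact_mod_cast Nat.le_add_left 2 s)).differentiable
      one_ne_zero) x
  rw [D_f, h1, fderiv_clm_apply h2 (differentiableAt_const _)]
  simp

theorem d0_mul (u v : WA m (s + 2)) : d0 (u * v) = d0 u * d0 v := by
  exact ext_f fun x => by simp only [d0_f, mul_f]

theorem d1_mul (i : Fin m) (u v : WA m (s + 2)) :
    d1 i (u * v) = d1 i u * d0 v + d0 u * d1 i v := by
  change inc (D i (u * v)) = inc (D i u) * inc (inc v) + inc (inc u) * inc (D i v)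
  rw [D_mul, map_add, inc_mul, inc_mul]

theorem d2_mul (i j : Fin m) (u v : WA m (s + 2)) :
    d2 i j (u * v) = d2 i j u * d0 v + d1 i u * d1 j v + d1 j u * d1 i v + d0 u * d2 i j v := by
  change D i (D j (u * v)) = D i (D j u) * inc (inc v) + inc (D i u) * inc (D j v) +
    inc (D j u) * inc (D i v) + inc (inc u) * D i (D j v)
  rw [D_mul, map_add, D_mul, D_mul, D_inc, D_inc]
  ring

/-- the jets of order two of elements that agree near a point agree at the point -/
theorem jet_congr {u v : WA m (s + 2)} {x : E m} (h : u.f =ᶠ[𝓝 x] v.f) :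
    (d0 u).f x = (d0 v).f x ∧ (∀ i, (d1 i u).f x = (d1 i v).f x) ∧
      ∀ i j, (d2 i j u).f x = (d2 i j v).f x := by
  refine ⟨by rw [d0_f, d0_f, h.eq_of_nhds], fun i => by rw [d1_f, d1_f, h.fderiv_eq],
    fun i j => by rw [d2_f, d2_f, h.fderiv.fderiv_eq]⟩

theorem lp2_G0 (u : WA m s) : lp2 (G0 u) = u - (u.c 0).re • (1 : WA m s) := by
  refine ext_c fun k => ?_
  rw [lp2_c, G0_c, sub_c, smul_c, one_c, c_zero_re]
  split_ifs with hk
  · subst hk
    simp [kv_zero]
  · have h1 : ‖kv k‖ ^ 2 ≠ 0 := (pow_pos (zero_lt_one.trans_le (one_le_norm_kv hk)) 2).ne'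
    rw [← mul_assoc, ← Complex.ofReal_mul, neg_mul_neg, mul_inv_cancel₀ h1]
    simp

end WA

end WAlg

end Pool.Agent.MP_f6c0e6_an.Gen.Wie

end
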