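import Pool.Agent.MP_f6c0e6_an.All.WienerB
import Pool.Agent.MP_f6c0e6_an.All.WienerA

section

/-! The minimal surface operator in the Wiener algebra. -/

set_option autoImplicit false

open MeasureTheory Filter Topology Set Metric
open scoped ENNReal RealInnerProductSpace

namespace Pool.Agent.MP_f6c0e6_an.Gen.Wie

section WVec

open WA

variable {m N s : ℕ}

/-- tuples of elements of the Wiener algebra, with the supremum norm -/
abbrev VW (m N s : ℕ) : Type := Fin N → WA m s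

/-- the vector valued function -/
noncomputable def vec (u : VW m N s) (x : E m) : E N := WithLp.toLp 2 fun α => (u α).f x

theorem vec_apply (u : VW m N s) (x : E m) (α : Fin N) : vec u x α = (u α).f x := rfl

theorem vec_add (u v : VW m N s) (x : E m) : vec (u + v) x = vec u x + vec v x := rfl

theorem vec_sub (u v : VW m N s) (x : E m) : vec (u - v) x = vec u x - vec v x := rfl

theorem WVec_hs {ι F : Type*} [AddCommMonoid F] [TopologicalSpace F] {f g : ι → F} {a : F}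
    (h : HasSum f a) (e : ∀ k, g k = f k) : HasSum g a := by
  rwa [funext e]

theorem WVec_half (p q : ℝ) :
    ‖((p : ℂ) - Complex.I * q) / 2‖ ≤ (|p| + |q|) / 2 ∧
      ‖((p : ℂ) + Complex.I * q) / 2‖ ≤ (|p| + |q|) / 2 := by
  have h1 : ‖(p : ℂ)‖ = |p| := Complex.norm_real p
  have h2 : ‖Complex.I * (q : ℂ)‖ = |q| := by
    rw [norm_mul, Complex.norm_I, one_mul]
    exact Complex.norm_real q
  have h3 : ‖(2 : ℂ)‖ = 2 := Complex.norm_two
  have h4 := norm_sub_le (p : ℂ) (Complex.I * q)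
  have h5 := norm_add_le (p : ℂ) (Complex.I * q)
  rw [h1, h2] at h4 h5
  rw [norm_div, norm_div, h3]
  constructor <;> linarith only [h4, h5]

/-- the scalar case -/
theorem WVec_scalar {g : E m → ℝ} {p q : Zm m → ℝ} {G : Zm m → ℝ} {M : ℝ} (hG : Summable G)
    (hM : ∑' k, G k ≤ M) (hle : ∀ k, br k ^ s * (|p k| + |q k|) ≤ G k)
    (hg : ∀ x, HasSum (fun k => Real.cos ⟪kv k, x⟫ * p k + Real.sin ⟪kv k, x⟫ * q k) (g x)) :
    ∃ u : WA m s, u.f = g ∧ ‖u‖ ≤ M := by
  have hG' : Summable fun k => G (-k) := (Equiv.neg (Zm m)).summable_iff.2 hG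
  have hT : ∑' k, G (-k) = ∑' k, G k := (Equiv.neg (Zm m)).tsum_eq G
  have hH : Summable fun k => (G k + G (-k)) / 2 := (hG.add hG').div_const 2
  have hHM : ∑' k, (G k + G (-k)) / 2 ≤ M := by
    rw [tsum_div_const, hG.tsum_add hG', hT]
    linarith
  obtain ⟨c, hc⟩ : ∃ c : Zm m → ℂ, ∀ k, c k = ((p k : ℂ) - Complex.I * q k) / 2 +
    ((p (-k) : ℂ) + Complex.I * q (-k)) / 2 := ⟨_, fun _ => rfl⟩
  have hcb : ∀ k, br k ^ s * ‖c k‖ ≤ (G k + G (-k)) / 2 := fun k => by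
    have h1 := hle k
    have h2 := hle (-k)
    rw [br_neg] at h2
    have h3 : ‖c k‖ ≤ (|p k| + |q k|) / 2 + (|p (-k)| + |q (-k)|) / 2 := by
      rw [hc]
      exact (norm_add_le _ _).trans (add_le_add (WVec_half _ _).1 (WVec_half _ _).2)
    have h4 := mul_le_mul_of_nonneg_left h3 (br_pow_nonneg s k)
    linarith only [h1, h2, h4]
  have hcs : Summable fun k => br k ^ s * ‖c k‖ :=
    hH.of_nonneg_of_le (fun k => mul_nonneg (br_pow_nonneg s k) (norm_nonneg _)) hcb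
  have hsum : ∀ x, HasSum (fun k => c k * ch k x) (g x : ℂ) := fun x => by
    obtain ⟨T, hTd⟩ : ∃ T : Zm m → ℂ, ∀ k, T k = ((p k : ℂ) - Complex.I * q k) / 2 * ch k x :=
      ⟨_, fun _ => rfl⟩
    have hTs : Summable T := by
      refine Summable.of_norm_bounded hG fun k => ?_
      rw [hTd, norm_mul, norm_ch, mul_one]
      have h1 := (WVec_half (p k) (q k)).1
      have h2 := hle k
      have h3 : 0 ≤ |p k| + |q k| := add_nonneg (abs_nonneg _) (abs_nonneg _)
      have h4 := le_mul_of_one_le_left h3 (one_le_br_pow s k)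
      linarith only [h1, h2, h3, h4]
    have h1 := hTs.hasSum
    have h2 : HasSum (fun k => (starRingEnd ℂ) (T k)) ((starRingEnd ℂ) (∑' k, T k)) :=
      Complex.hasSum_conj'.2 h1
    have h3 : HasSum (fun k => (starRingEnd ℂ) (T (-k))) ((starRingEnd ℂ) (∑' k, T k)) :=
      (Equiv.neg (Zm m)).hasSum_iff.2 h2
    have h4 : HasSum (fun k => T k + (starRingEnd ℂ) (T k)) (g x : ℂ) := by
      refine WVec_hs (Complex.hasSum_ofReal.2 (hg x)) fun k => ?_
      rw [Complex.add_conj, hTd, ← ch_re, ← ch_im]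
      congr 1
      simp only [Complex.mul_re, Complex.div_ofNat_re, Complex.div_ofNat_im, Complex.sub_re,
        Complex.sub_im, Complex.mul_im, Complex.ofReal_re, Complex.ofReal_im, Complex.I_re,
        Complex.I_im]
      ring
    rw [← (h1.add h2).unique h4]
    refine WVec_hs (h1.add h3) fun k => ?_
    rw [hc, hTd, hTd, ch_neg]
    simp only [map_mul, map_div₀, map_sub, Complex.conj_ofReal, Complex.conj_I,
      Complex.conj_conj, Complex.conj_ofNat]
    ring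
  obtain ⟨h1, h2⟩ := IsW.of hcs hsum
  refine ⟨WA.mk g h1, rfl, ?_⟩
  have h3 : (WA.mk g h1).c = c := h2
  rw [norm_def, h3]
  exact (hcs.tsum_le_tsum hcb hH).trans hHM

/-- the component `α` has the coefficients
`(a k α - I * b k α) / 2 + (a (-k) α + I * b (-k) α) / 2`; use `IsW.of` -/
theorem _root_.Pool.Agent.MP_f6c0e6_an.Gen.Wn.exists_vec
    {w : E m → E N} {M : ℝ} (h : Wn s w M) :
    ∃ u : VW m N s, vec u = w ∧ ‖u‖ ≤ M := by
  obtain ⟨a, b, h1, h2, h3⟩ := h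
  have hM : 0 ≤ M := le_trans (tsum_nonneg fun k => mul_nonneg (br_pow_nonneg s k)
    (add_nonneg (norm_nonneg _) (norm_nonneg _))) h2
  have h4 : ∀ α, ∃ u : WA m s, u.f = (fun x => w x α) ∧ ‖u‖ ≤ M := fun α =>
    WVec_scalar (p := fun k => a k α) (q := fun k => b k α) h1 h2
      (fun k => mul_le_mul_of_nonneg_left
        (add_le_add (PiLp.norm_apply_le (a k) α) (PiLp.norm_apply_le (b k) α))
        (br_pow_nonneg s k))
      fun x => (EuclideanSpace.proj α : E N →L[ℝ] ℝ).hasSum (h3 x)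
  choose u hu hb using h4
  refine ⟨u, ?_, (pi_norm_le_iff_of_nonneg hM).2 hb⟩
  funext x
  ext α
  rw [vec_apply, hu]

theorem WVec_sum_ev (v : E m) : ∑ i, v i • ev i = v := by
  simpa only [inner_ev] using sum_ev v

theorem WVec_inner (u v : E m) : ⟪u, v⟫ = ∑ i, u i * v i := by
  simpa only [inner_ev] using (sum_inner_ev u v).symm

theorem WVec_norm_sum (t : Fin N → ℝ) : ‖∑ α, t α • (ev α : E N)‖ ≤ ∑ α, ‖t α‖ :=
  (norm_sum_le _ _).trans (Finset.sum_le_sum fun α _ => by rw [norm_smul, norm_ev, mul_one])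

/-- `a k α = re ((u α).c k)`, `b k α = - im ((u α).c k)` -/
theorem wn_vec_of_s1 (u : VW m N s) {j : ℕ} {M : ℝ}
    (h : ∀ α, S1 (fun k => br k ^ j) (u α).c M) : Wn j (vec u) (2 * N * M) := by
  choose a b h1 h2 h3 using fun α => (u α).wnF_of_s1 (h α)
  have hle : ∀ k : Zm m, (1 + ‖kv k‖) ^ j *
      (‖∑ α, a α k • (ev α : E N)‖ + ‖∑ α, b α k • (ev α : E N)‖) ≤
      ∑ α, (1 + ‖kv k‖) ^ j * (‖a α k‖ + ‖b α k‖) := fun k => by
    rw [← Finset.mul_sum, Finset.sum_add_distrib]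
    exact mul_le_mul_of_nonneg_left (add_le_add (WVec_norm_sum _) (WVec_norm_sum _))
      (br_pow_nonneg j k)
  have hs : Summable fun k : Zm m => ∑ α, (1 + ‖kv k‖) ^ j * (‖a α k‖ + ‖b α k‖) :=
    summable_sum fun α _ => h1 α
  have hs' := hs.of_nonneg_of_le (fun k => mul_nonneg (br_pow_nonneg j k)
    (add_nonneg (norm_nonneg _) (norm_nonneg _))) hle
  refine ⟨fun k => ∑ α, a α k • ev α, fun k => ∑ α, b α k • ev α, hs', ?_, fun x => ?_⟩
  · refine (hs'.tsum_le_tsum hle hs).trans ?_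
    rw [Summable.tsum_finsetSum fun α _ => h1 α]
    refine (Finset.sum_le_sum fun α _ => h2 α).trans (le_of_eq ?_)
    rw [Finset.sum_const, Finset.card_univ, Fintype.card_fin, nsmul_eq_mul]
    ring
  · rw [← WVec_sum_ev (vec u x)]
    refine WVec_hs (hasSum_sum fun α (_ : α ∈ Finset.univ) =>
      (h3 α x).smul_const (ev α : E N)) fun k => ?_
    simp only [Finset.smul_sum, ← Finset.sum_add_distrib, add_smul, smul_assoc]

theorem wn_vec (u : VW m N s) : Wn s (vec u) (2 * N * ‖u‖) :=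
  wn_vec_of_s1 u fun α => (u α).s1.mono (fun _ => le_rfl) (norm_le_pi_norm u α)

theorem contDiff_vec (u : VW m N s) : ContDiff ℝ s (vec u) := (wn_vec u).cb.smooth

theorem WVec_fd1 {F G : Type*} [NormedAddCommGroup F] [NormedSpace ℝ F] [NormedAddCommGroup G]
    [NormedSpace ℝ G] (T : F →L[ℝ] G) {g : E m → F} {x : E m} (hg : DifferentiableAt ℝ g x)
    (v : E m) : fderiv ℝ (fun y => T (g y)) x v = T (fderiv ℝ g x v) :=
  DFunLike.congr_fun (T.hasFDerivAt.comp x hg.hasFDerivAt).fderiv v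

theorem WVec_fd2 {F G : Type*} [NormedAddCommGroup F] [NormedSpace ℝ F] [NormedAddCommGroup G]
    [NormedSpace ℝ G] (T : F →L[ℝ] G) {g : E m → F} (hg : ContDiff ℝ 2 g) (x v v' : E m) :
    fderiv ℝ (fderiv ℝ fun y => T (g y)) x v v' = T (fderiv ℝ (fderiv ℝ g) x v v') := by
  have h1 : fderiv ℝ (fun y => T (g y)) =
      fun y => ContinuousLinearMap.compL ℝ (E m) F G T (fderiv ℝ g y) := by
    funext y
    ext e
    exact WVec_fd1 T (hg.differentiable two_ne_zero y) e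
  rw [h1, WVec_fd1 _ ((hg.fderiv_right (m := 1) (by norm_num)).differentiable one_ne_zero x)]
  rfl

theorem WVec_c2 (u : VW m N (s + 2)) : ContDiff ℝ 2 (vec u) :=
  (contDiff_vec u).of_le (by exact_mod_cast Nat.le_add_left 2 s)

theorem fderiv_vec (u : VW m N (s + 2)) (x : E m) (i : Fin m) (α : Fin N) :
    fderiv ℝ (vec u) x (ev i) α = (d1 i (u α)).f x := by
  rw [d1_f]
  exact (WVec_fd1 (EuclideanSpace.proj α : E N →L[ℝ] ℝ)
    ((WVec_c2 u).differentiable two_ne_zero x) (ev i)).symm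

theorem fderiv2_vec (u : VW m N (s + 2)) (x : E m) (i j : Fin m) (α : Fin N) :
    fderiv ℝ (fderiv ℝ (vec u)) x (ev i) (ev j) α = (d2 i j (u α)).f x := by
  rw [d2_f]
  exact (WVec_fd2 (EuclideanSpace.proj α : E N →L[ℝ] ℝ) (WVec_c2 u) x (ev i) (ev j)).symm

/-- the metric -/
noncomputable def gM (z : VW m N (s + 2)) : Matrix (Fin m) (Fin m) (WA m s) :=
  1 + Matrix.of fun i j => ∑ α, d1 i (z α) * d1 j (z α)

/-- the inverse metric -/
noncomputable def aM (z : VW m N (s + 2)) : Matrix (Fin m) (Fin m) (WA m s) := (gM z)⁻¹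

/-- the minimal surface operator -/
noncomputable def MM (z : VW m N (s + 2)) : VW m N s :=
  fun α => ∑ i, ∑ j, aM z i j * d2 i j (z α)

/-- the first order coefficients of the linearisation -/
noncomputable def bM (z : VW m N (s + 2)) (α β : Fin N) (l : Fin m) : WA m s :=
  (-2 : ℝ) • ∑ i, ∑ j, ∑ p, d2 i j (z α) * aM z j p * d1 p (z β) * aM z l i

/-- the linearisation -/
noncomputable def LL (w u : VW m N (s + 2)) : VW m N s :=
  fun α => ∑ i, ∑ j, aM w i j * d2 i j (u α) + ∑ β, ∑ l, bM w α β l * d1 l (u β)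

/-- the Laplacian -/
noncomputable def lapV (u : VW m N (s + 2)) : VW m N s := fun α => lp2 (u α)

/-- `Matrix.transpose_nonsing_inv` -/
theorem aM_symm (z : VW m N (s + 2)) (i j : Fin m) : aM z i j = aM z j i := by
  have h : (gM z).transpose = gM z := by
    ext i j
    simp only [gM, Matrix.transpose_apply, Matrix.add_apply, Matrix.of_apply, Matrix.one_apply,
      eq_comm (a := j), mul_comm (d1 j _)]
  have h2 := Matrix.transpose_nonsing_inv (gM z)
  rw [h] at h2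
  exact (congrFun (congrFun h2 i) j).symm

theorem WVec_one_f (i j : Fin m) (x : E m) :
    ((1 : Matrix (Fin m) (Fin m) (WA m s)) i j).f x = (ev j : E m) i := by
  rw [Matrix.one_apply]
  by_cases h : i = j <;> simp [ev, h]

theorem gM_f (z : VW m N (s + 2)) (i j : Fin m) (x : E m) :
    (gM z i j).f x = ⟪ev i, gW (vec z) x (ev j)⟫ := by
  rw [← gW_symm, inner_gW, inner_ev, WVec_inner, gM, Matrix.add_apply, add_f, WVec_one_f,
    Matrix.of_apply, sum_f]
  simp only [mul_f, fderiv_vec]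

theorem WVec_giW {z : VW m N (s + 2)} (h : IsUnit (gM z).det) (j : Fin m) (x : E m) :
    giW (vec z) x (ev j) = ∑ i, (aM z i j).f x • ev i := by
  have h1 : gW (vec z) x (∑ i, (aM z i j).f x • ev i) = ev j := by
    ext p
    have h2 := congrArg (fun A : Matrix (Fin m) (Fin m) (WA m s) => (A p j).f x)
      (Matrix.mul_nonsing_inv (gM z) h)
    simp only [Matrix.mul_apply, sum_f, mul_f, WVec_one_f, gM_f] at h2
    rw [← h2, ← inner_ev, map_sum, inner_sum]
    refine Finset.sum_congr rfl fun i _ => ?_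
    rw [map_smul, real_inner_smul_right, mul_comm]
    rfl
  rw [← h1, (giW_gW _ _ _).1]

/-- evaluate `gM z * aM z = 1` at `x`: `gW` maps `∑ i, (aM z i j).f x • ev i` to `ev j` -/
theorem aM_f {z : VW m N (s + 2)} (h : IsUnit (gM z).det) (i j : Fin m) (x : E m) :
    (aM z i j).f x = ⟪ev i, giW (vec z) x (ev j)⟫ := by
  rw [WVec_giW h, inner_ev]
  exact (congrArg (fun v : E m => v i)
    (WVec_sum_ev (WithLp.toLp 2 fun l => (aM z l j).f x))).symm

theorem WVec_hess {z : VW m N (s + 2)} (h : IsUnit (gM z).det) (u : VW m N (s + 2)) (x : E m)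
    (α : Fin N) : (∑ i, fderiv ℝ (fderiv ℝ (vec u)) x (ev i) (giW (vec z) x (ev i))) α =
      (∑ i, ∑ j, aM z i j * d2 i j (u α)).f x := by
  simp only [WVec_giW h, map_sum, map_smul, sum_f, mul_f, WithLp.ofLp_sum, Finset.sum_apply,
    WithLp.ofLp_smul, Pi.smul_apply, smul_eq_mul, fderiv2_vec]
  exact Finset.sum_congr rfl fun i _ => Finset.sum_congr rfl fun j _ => by rw [aM_symm]

theorem vec_MM {z : VW m N (s + 2)} (h : IsUnit (gM z).det) (x : E m) :
    vec (MM z) x = ∑ i, fderiv ℝ (fderiv ℝ (vec z)) x (ev i) (giW (vec z) x (ev i)) := by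
  ext α
  rw [WVec_hess h]
  rfl

theorem minAt_iff {z : VW m N (s + 2)} (h : IsUnit (gM z).det) (x : E m) :
    MinAt (vec z) x ↔ ∀ α, (MM z α).f x = 0 := by
  rw [MinAt, ← vec_MM h]
  exact ⟨fun h1 α => congrArg (fun v : E N => v α) h1, fun h1 => PiLp.ext h1⟩

theorem WVec_comm {A B C : Type*} [Fintype A] [Fintype B] [Fintype C] (g : A → B → C → ℝ) :
    ∑ a, ∑ b, ∑ c, g a b c = ∑ c, ∑ a, ∑ b, g a b c :=
  (Finset.sum_congr rfl fun _ _ => Finset.sum_comm).trans Finset.sum_comm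

theorem WVec_alg (D a : Fin m → Fin m → ℝ) (W U : Fin m → Fin N → ℝ) :
    ∑ β, ∑ l, (-2 * ∑ i, ∑ j, ∑ p, D i j * a j p * W p β * a l i) * U l β =
      -(2 * ∑ i, ∑ p, (∑ β, W p β * ∑ l, a l i * U l β) * ∑ j, a j p * D i j) := by
  simp only [Finset.mul_sum, Finset.sum_mul, ← Finset.sum_neg_distrib]
  rw [WVec_comm]
  refine Finset.sum_congr rfl fun i _ => ?_
  rw [WVec_comm]
  refine Eq.trans ?_ Finset.sum_comm
  refine Finset.sum_congr rfl fun j _ => ?_
  rw [WVec_comm]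
  refine Finset.sum_congr rfl fun p _ => Finset.sum_congr rfl fun β _ =>
    Finset.sum_congr rfl fun l _ => ?_
  ring

theorem WVec_gi {z : VW m N (s + 2)} (h : IsUnit (gM z).det) (x v : E m) :
    giW (vec z) x v = ∑ p, v p • ∑ j, (aM z j p).f x • ev j := by
  conv_lhs => rw [← WVec_sum_ev v]
  simp only [map_sum, map_smul, WVec_giW h]

theorem WVec_adj (L : E m →L[ℝ] E N) (y : E N) (p : Fin m) :
    L.adjoint y p = ∑ β, L (ev p) β * y β := by
  rw [← inner_ev, ContinuousLinearMap.adjoint_inner_right, WVec_inner]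

theorem vec_LL {w : VW m N (s + 2)} (h : IsUnit (gM w).det) (u : VW m N (s + 2)) (x : E m) :
    vec (LL w u) x = Lf (vec w) (vec u) x := by
  ext α
  have h1 : ∀ i, fderiv ℝ (fderiv ℝ (vec w)) x (ev i) (giW (vec w) x
      ((fderiv ℝ (vec w) x).adjoint (fderiv ℝ (vec u) x (giW (vec w) x (ev i))))) α =
      ∑ p, (∑ β, (d1 p (w β)).f x * ∑ l, (aM w l i).f x * (d1 l (u β)).f x) *
        ∑ j, (aM w j p).f x * (d2 i j (w α)).f x := fun i => by
    rw [WVec_gi h x ((fderiv ℝ (vec w) x).adjoint _)]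
    simp only [WVec_adj]
    simp only [WVec_giW h, map_sum, map_smul, WithLp.ofLp_sum, Finset.sum_apply,
      WithLp.ofLp_smul, Pi.smul_apply, smul_eq_mul, fderiv2_vec, fderiv_vec]
  rw [Lf, PiLp.sub_apply, WVec_hess h, PiLp.smul_apply, WithLp.ofLp_sum, Finset.sum_apply,
    smul_eq_mul, Finset.sum_congr rfl fun i _ => h1 i, sub_eq_add_neg, ← WVec_alg, vec_apply, LL,
    add_f]
  simp only [bM, sum_f, mul_f, smul_f]

theorem LL_add (w u v : VW m N (s + 2)) : LL w (u + v) = LL w u + LL w v := by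
  funext α
  simp only [LL, Pi.add_apply, map_add, mul_add, Finset.sum_add_distrib]
  abel

theorem norm_lapV_le (u : VW m N (s + 2)) : ‖lapV u‖ ≤ m * ‖u‖ := by
  refine (pi_norm_le_iff_of_nonneg (mul_nonneg (Nat.cast_nonneg m) (norm_nonneg u))).2 fun α => ?_
  rw [lapV, lp2_apply]
  refine (norm_sum_le _ _).trans ((Finset.sum_le_sum fun i _ =>
    (norm_d2_le i i (u α)).trans (norm_le_pi_norm u α)).trans (le_of_eq ?_))
  rw [Finset.sum_const, Finset.card_univ, Fintype.card_fin, nsmul_eq_mul]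

/-- the value of `LL w u` at a point depends only on the germ of `u` (`jet_congr`) -/
theorem LL_congr (w : VW m N (s + 2)) {u v : VW m N (s + 2)} {x : E m}
    (h : vec u =ᶠ[𝓝 x] vec v) (α : Fin N) : (LL w u α).f x = (LL w v α).f x := by
  have h1 : ∀ β, (u β).f =ᶠ[𝓝 x] (v β).f := fun β =>
    h.mono fun y hy => congrArg (fun e : E N => e β) hy
  have h2 := fun β => (jet_congr (h1 β)).2.1
  have h3 := fun β => (jet_congr (h1 β)).2.2
  simp only [LL, add_f, sum_f, mul_f, h2, h3]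

/-! ### Linear relations between the components -/

/-- the inner product with a constant vector -/
noncomputable def ell (n : E N) : VW m N s →L[ℝ] WA m s :=
  ∑ α, n α • ContinuousLinearMap.proj (R := ℝ) (φ := fun _ : Fin N => WA m s) α

theorem ell_apply (n : E N) (u : VW m N s) : ell n u = ∑ α, n α • u α := by
  simp only [ell, sum_apply, smul_apply, ContinuousLinearMap.proj_apply]

theorem ell_f (n : E N) (u : VW m N s) (x : E m) : (ell n u).f x = ⟪n, vec u x⟫ := by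
  rw [ell_apply, sum_f, WVec_inner]
  rfl

theorem ell_map {s' : ℕ} (n : E N) (T : WA m s →L[ℝ] WA m s') (u : VW m N s) :
    ell n (fun α => T (u α)) = T (ell n u) := by
  simp only [ell_apply, map_sum, map_smul]

theorem ell_mul (n : E N) (a : WA m s) (u : VW m N s) :
    ell n (fun α => a * u α) = a * ell n u := by
  simp only [ell_apply, Finset.mul_sum, mul_smul_comm]

theorem WVec_ell_sum {ι : Type*} [Fintype ι] (n : E N) (g : ι → VW m N s) :
    ell n (fun α => ∑ i, g i α) = ∑ i, ell n (g i) := by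
  rw [← map_sum]
  congr 1
  funext α
  rw [Finset.sum_apply]

theorem WVec_ell_mul (n : E N) (a : WA m s) (u : VW m N s) :
    ell n (fun α => u α * a) = ell n u * a := by
  simp only [ell_apply, Finset.sum_mul, smul_mul_assoc]

theorem WVec_ell_hess {n : E N} (w : VW m N (s + 2)) {z : VW m N (s + 2)} (h : ell n z = 0) :
    ell n (fun α => ∑ i, ∑ j, aM w i j * d2 i j (z α)) = 0 := by
  simp only [WVec_ell_sum, ell_mul, ell_map, h, map_zero, mul_zero, Finset.sum_const_zero]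

theorem WVec_ell_bM {n : E N} {w : VW m N (s + 2)} (h : ell n w = 0) (β : Fin N) (l : Fin m) :
    ell n (fun α => bM w α β l) = 0 := by
  have h1 : (fun α => bM w α β l) = (-2 : ℝ) • fun α =>
    ∑ i, ∑ j, ∑ p, d2 i j (w α) * aM w j p * d1 p (w β) * aM w l i := rfl
  rw [h1, map_smul]
  simp only [WVec_ell_sum, WVec_ell_mul, ell_map, h, map_zero, zero_mul, Finset.sum_const_zero,
    smul_zero]

theorem ell_MM {n : E N} {z : VW m N (s + 2)} (h : ell n z = 0) : ell n (MM z) = 0 := by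
  exact WVec_ell_hess z h

theorem ell_LL {n : E N} {w u : VW m N (s + 2)} (hw : ell n w = 0) (hu : ell n u = 0) :
    ell n (LL w u) = 0 := by
  have h1 : LL w u = (fun α => ∑ i, ∑ j, aM w i j * d2 i j (u α)) +
    fun α => ∑ β, ∑ l, bM w α β l * d1 l (u β) := rfl
  rw [h1, map_add, WVec_ell_hess w hu]
  simp only [WVec_ell_sum, WVec_ell_mul, WVec_ell_bM hw, zero_mul, Finset.sum_const_zero,
    add_zero]

/-- `V = Vᗮᗮ` -/
theorem vec_mem_iff (V : Submodule ℝ (E N)) (u : VW m N s) :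
    (∀ x, vec u x ∈ V) ↔ ∀ n ∈ Vᗮ, ell n u = 0 := by
  constructor
  · intro h n hn
    refine ext_f fun x => ?_
    rw [ell_f, zero_f]
    exact Submodule.inner_left_of_mem_orthogonal (h x) hn
  · intro h x
    rw [← V.orthogonal_orthogonal, Submodule.mem_orthogonal]
    intro n hn
    rw [← ell_f, h n hn, zero_f]

/-- the coefficients of the linearisation at `w` are close to those of the Laplacian -/
structure Cl (w : VW m N (s + 2)) (η : ℝ) : Prop where
  a_bd : ∀ i j, ‖aM w i j - (1 : Matrix (Fin m) (Fin m) (WA m s)) i j‖ ≤ η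
  b_bd : ∀ α β l, ‖bM w α β l‖ ≤ η

/-- the estimates for the nonlinear operator in the ball of radius `ε` -/
structure Sm (m N s : ℕ) (ε η C : ℝ) : Prop where
  unit : ∀ z : VW m N (s + 2), ‖z‖ ≤ ε → IsUnit (gM z).det
  cl : ∀ z : VW m N (s + 2), ‖z‖ ≤ ε → Cl z η
  lin : ∀ z z' : VW m N (s + 2), ‖z‖ ≤ ε → ‖z'‖ ≤ ε →
    ‖MM z' - MM z - lapV (z' - z)‖ ≤ η * ‖z' - z‖
  quad : ∀ z z' : VW m N (s + 2), ‖z‖ ≤ ε → ‖z'‖ ≤ ε →
    ‖MM z' - MM z - LL z (z' - z)‖ ≤ C * ‖z' - z‖ ^ 2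

end WVec

section WNl0

open WA

variable {m N s : ℕ}

/-- `Matrix.det_apply`, `ContDiff.sum`, `contDiff_prod` -/
theorem contDiff_det {X A : Type*} [NormedAddCommGroup X] [NormedSpace ℝ X] [NormedCommRing A]
    [NormedAlgebra ℝ A] {n : ℕ} {g : X → Matrix (Fin m) (Fin m) A}
    (h : ∀ i j, ContDiff ℝ n fun z => g z i j) : ContDiff ℝ n fun z => (g z).det := by
  simp only [Matrix.det_apply']
  exact ContDiff.sum fun σ _ => contDiff_const.mul (contDiff_prod fun i _ => h _ _)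

/-- an operator applied to one component -/
noncomputable def WNl0_L (T : WA m (s + 2) →L[ℝ] WA m s) (α : Fin N) :
    VW m N (s + 2) →L[ℝ] WA m s :=
  T ∘L ContinuousLinearMap.proj (R := ℝ) (φ := fun _ : Fin N => WA m (s + 2)) α

theorem WNl0_L_apply (T : WA m (s + 2) →L[ℝ] WA m s) (α : Fin N) (u : VW m N (s + 2)) :
    WNl0_L T α u = T (u α) := rfl

theorem contDiff_gM (n : ℕ) (i j : Fin m) :
    ContDiff ℝ n fun z : VW m N (s + 2) => gM z i j := by
  simp only [gM, Matrix.add_apply, Matrix.of_apply]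
  exact contDiff_const.add (ContDiff.sum fun α _ =>
    (WNl0_L (d1 i) α).contDiff.mul (WNl0_L (d1 j) α).contDiff)

theorem gM_zero : gM (0 : VW m N (s + 2)) = 1 := by
  ext i j : 2
  simp [gM]

theorem aM_zero : aM (0 : VW m N (s + 2)) = 1 := by
  rw [aM, gM_zero, inv_one]

theorem bM_zero (α β : Fin N) (l : Fin m) : bM (0 : VW m N (s + 2)) α β l = 0 := by
  simp [bM]

theorem LL_zero (u : VW m N (s + 2)) : LL 0 u = lapV u := by
  funext α
  simp [LL, lapV, aM_zero, bM_zero, lp2_apply, Matrix.one_apply]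

/-- `Matrix.inv_def`, `Matrix.adjugate_apply`, `contDiffAt_ringInverse` -/
theorem contDiffAt_aM (n : ℕ) {z : VW m N (s + 2)} (h : IsUnit (gM z).det) (i j : Fin m) :
    ContDiffAt ℝ n (fun z : VW m N (s + 2) => aM z i j) z := by
  simp only [aM, Matrix.inv_def, Matrix.smul_apply, smul_eq_mul, Matrix.adjugate_apply]
  refine ContDiffAt.mul (ContDiffAt.comp z (g := Ring.inverse) ?_
    (contDiff_det (contDiff_gM n)).contDiffAt) (contDiff_det fun p q => ?_).contDiffAt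
  · exact contDiffAt_ringInverse ℝ h.unit
  · simp only [Matrix.updateRow_apply]
    split_ifs
    · exact contDiff_const
    · exact contDiff_gM n p q

theorem contDiffAt_bM (n : ℕ) {z : VW m N (s + 2)} (h : IsUnit (gM z).det) (α β : Fin N)
    (l : Fin m) : ContDiffAt ℝ n (fun z : VW m N (s + 2) => bM z α β l) z := by
  exact (ContDiffAt.sum fun i _ => ContDiffAt.sum fun j _ => ContDiffAt.sum fun p _ =>
    (((WNl0_L (d2 i j) α).contDiff.contDiffAt.mul (contDiffAt_aM n h j p)).mul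
      (WNl0_L (d1 p) β).contDiff.contDiffAt).mul (contDiffAt_aM n h l i)).const_smul (-2 : ℝ)

theorem contDiffAt_MM (n : ℕ) {z : VW m N (s + 2)} (h : IsUnit (gM z).det) :
    ContDiffAt ℝ n (MM : VW m N (s + 2) → VW m N s) z := by
  exact contDiffAt_pi' fun α => ContDiffAt.sum fun i _ => ContDiffAt.sum fun j _ =>
    (contDiffAt_aM n h i j).mul (WNl0_L (d2 i j) α).contDiff.contDiffAt

/-- the units form an open set (`Units.isOpen`) -/
theorem eventually_unit {z : VW m N (s + 2)} (h : IsUnit (gM z).det) :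
    ∀ᶠ z' in 𝓝 z, IsUnit (gM z').det := by
  exact (contDiff_det (contDiff_gM 0)).continuous.continuousAt.eventually
    (Units.isOpen.mem_nhds h)

theorem WNl0_aM {z : VW m N (s + 2)} (h : IsUnit (gM z).det) (i j : Fin m) :
    HasFDerivAt (fun z : VW m N (s + 2) => aM z i j)
      (fderiv ℝ (fun z : VW m N (s + 2) => aM z i j) z) z :=
  ((contDiffAt_aM 1 h i j).differentiableAt one_ne_zero).hasFDerivAt

/-- Differentiate `aM z' * gM z' = 1` (true near `z`) entrywise in the direction `u`: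
`a' * g + a * g' = 0`, so `a' = - a * g' * a`, where
`g' p q = ∑ β, (d1 p (u β) * d1 q (z β) + d1 p (z β) * d1 q (u β))`. -/
theorem fderiv_aM {z : VW m N (s + 2)} (h : IsUnit (gM z).det) (u : VW m N (s + 2))
    (i j : Fin m) : fderiv ℝ (fun z : VW m N (s + 2) => aM z i j) z u =
      -∑ p, ∑ q, aM z i p * (∑ β, (d1 p (u β) * d1 q (z β) + d1 p (z β) * d1 q (u β))) *
        aM z q j := by
  let A : Matrix (Fin m) (Fin m) (WA m s) :=
    Matrix.of fun i j => fderiv ℝ (fun z : VW m N (s + 2) => aM z i j) z u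
  let G : Matrix (Fin m) (Fin m) (WA m s) :=
    Matrix.of fun p q => ∑ β, (d1 p (u β) * d1 q (z β) + d1 p (z β) * d1 q (u β))
  have h1 : A * gM z + aM z * G = 0 := by
    ext i q : 2
    have h2 := HasFDerivAt.fun_sum (u := Finset.univ) fun p _ => (WNl0_aM h i p).mul
      ((HasFDerivAt.fun_sum (u := Finset.univ) fun β _ => (WNl0_L (d1 p) β).hasFDerivAt.mul
        (WNl0_L (d1 q) β).hasFDerivAt).const_add ((1 : Matrix (Fin m) (Fin m) (WA m s)) p q))
    have h3 := congrArg (fun T => T u) (h2.unique ((hasFDerivAt_const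
      ((1 : Matrix (Fin m) (Fin m) (WA m s)) i q) z).congr_of_eventuallyEq
      ((eventually_unit h).mono fun z' h' => congrFun₂ (Matrix.nonsing_inv_mul _ h') i q)))
    simp only [sum_apply, add_apply,
      smul_apply, smul_eq_mul, WNl0_L_apply, Pi.mul_apply] at h3
    refine Eq.trans ?_ h3
    rw [Matrix.add_apply, Matrix.mul_apply, Matrix.mul_apply, ← Finset.sum_add_distrib]
    refine Finset.sum_congr rfl fun p _ => ?_
    simp only [G, Matrix.of_apply]
    rw [add_comm, mul_comm (A i p)]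
    exact congrArg₂ _ (congrArg _ (Finset.sum_congr rfl fun β _ => by ring)) rfl
  have h4 : A = -(aM z * G * aM z) := by
    rw [← neg_mul, ← eq_neg_of_add_eq_zero_left h1, mul_assoc, aM, Matrix.mul_nonsing_inv _ h,
      mul_one]
  refine (congrFun₂ h4 i j).trans ?_
  rw [Matrix.neg_apply, Matrix.mul_apply, Finset.sum_comm]
  simp only [Matrix.mul_apply, Finset.sum_mul]
  rfl

theorem WNl0_alg {A : Type*} [CommRing A] (a H : Fin m → Fin m → A) (U Z : Fin m → Fin N → A)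
    (ha : ∀ i j, a i j = a j i) (hH : ∀ i j, H i j = H j i) :
    ∑ i, ∑ j, H i j * ∑ p, ∑ q, a i p * (∑ β, (U p β * Z q β + Z p β * U q β)) * a q j =
      ∑ β, ∑ l, (∑ i, ∑ j, ∑ p, (H i j * a j p * Z p β * a l i +
        H i j * a j p * Z p β * a l i)) * U l β := by
  simp only [Finset.sum_mul, Finset.mul_sum, add_mul, mul_add, Finset.sum_add_distrib,
    ← Fintype.sum_prod_type']
  congr 1
  · exact Fintype.sum_equiv ⟨fun x => (x.2.2.2.2, x.2.2.1, x.1, x.2.1, x.2.2.2.1),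
      fun x => (x.2.2.1, x.2.2.2.1, x.2.1, x.2.2.2.2, x.1), fun _ => rfl, fun _ => rfl⟩ _ _
      fun ⟨i, j, p, q, β⟩ => by simp only [Equiv.coe_fn_mk, ha i p, ha q j]; ring
  · exact Fintype.sum_equiv ⟨fun x => (x.2.2.2.2, x.2.2.2.1, x.2.1, x.1, x.2.2.1),
      fun x => (x.2.2.2.1, x.2.2.1, x.2.2.2.2, x.2.1, x.1), fun _ => rfl, fun _ => rfl⟩ _ _
      fun ⟨i, j, p, q, β⟩ => by simp only [Equiv.coe_fn_mk, hH i j]; ring

/-- product rule, `fderiv_aM`, and the symmetry of `aM` and `d2` (the two terms of `g'` give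
the same sum after exchanging `i` and `j`) -/
theorem fderiv_MM {z : VW m N (s + 2)} (h : IsUnit (gM z).det) (u : VW m N (s + 2)) :
    fderiv ℝ MM z u = LL z u := by
  rw [(hasFDerivAt_pi.2 fun α => HasFDerivAt.fun_sum (u := Finset.univ) fun i _ =>
    HasFDerivAt.fun_sum (u := Finset.univ) fun j _ =>
      (WNl0_aM h i j).mul (WNl0_L (d2 i j) α).hasFDerivAt : HasFDerivAt MM _ z).fderiv]
  funext α
  simp only [ContinuousLinearMap.pi_apply, sum_apply,
    add_apply, smul_apply, smul_eq_mul, WNl0_L_apply,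
    fderiv_aM h, Finset.sum_add_distrib, LL, bM, mul_neg, Finset.sum_neg_distrib, neg_smul,
    two_smul, neg_mul]
  simp only [← Finset.sum_add_distrib]
  rw [WNl0_alg (aM z) (fun i j => d2 i j (z α)) (fun p β => d1 p (u β)) (fun p β => d1 p (z β))
    (aM_symm z) fun i j => d2_comm i j _]

end WNl0

section WNl

open WA

variable {m N s : ℕ}

theorem WNl_aux1 {X Y : Type*} [NormedAddCommGroup X] [NormedSpace ℝ X] [NormedAddCommGroup Y]
    [NormedSpace ℝ Y] {F : X → Y} (hF : ContDiffAt ℝ (2 : ℕ) F 0) {η : ℝ} (hη : 0 < η) :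
    ∃ r C : ℝ, 0 < r ∧ 1 ≤ C ∧
      (∀ z z' : X, ‖z‖ ≤ r → ‖z'‖ ≤ r → ‖F z' - F z - fderiv ℝ F 0 (z' - z)‖ ≤ η * ‖z' - z‖) ∧
      (∀ z z' : X, ‖z‖ ≤ r → ‖z'‖ ≤ r →
        ‖F z' - F z - fderiv ℝ F z (z' - z)‖ ≤ C * ‖z' - z‖ ^ 2) := by
  have h1 : ContDiffAt ℝ 1 (fderiv ℝ F) 0 := hF.fderiv_right (by norm_num [one_add_one_eq_two])
  obtain ⟨K, t, ht, hK⟩ := h1.exists_lipschitzOnWith
  have h2 : ∀ᶠ y in 𝓝 (0 : X), DifferentiableAt ℝ F y :=
    (hF.eventually (by simp)).mono fun y hy => hy.differentiableAt (by simp)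
  obtain ⟨r0, hr0, hsub⟩ := Metric.nhds_basis_closedBall.mem_iff.1 (Filter.inter_mem ht h2)
  have hK0 : (0 : ℝ) ≤ K := K.2
  have hpos : 0 < η / (K + 1) := div_pos hη (by linarith)
  have hmem : ∀ z : X, ‖z‖ ≤ min r0 (η / (K + 1)) → z ∈ closedBall (0 : X) r0 := fun z hz => by
    rw [mem_closedBall_zero_iff]; exact hz.trans (min_le_left _ _)
  have hlip : ∀ x ∈ closedBall (0 : X) r0, ∀ y ∈ closedBall (0 : X) r0,
      ‖fderiv ℝ F x - fderiv ℝ F y‖ ≤ K * ‖x - y‖ := fun x hx y hy => by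
    have := hK.dist_le_mul x (hsub hx).1 y (hsub hy).1
    rwa [dist_eq_norm, dist_eq_norm] at this
  refine ⟨min r0 (η / (K + 1)), K + 1, lt_min hr0 hpos, by linarith, ?_, ?_⟩
  · intro z z' hz hz'
    refine (convex_closedBall (0 : X) (min r0 (η / (K + 1)))).norm_image_sub_le_of_norm_fderiv_le'
      (𝕜 := ℝ) (fun x hx => (hsub (hmem x (mem_closedBall_zero_iff.1 hx))).2) (fun x hx => ?_)
      (mem_closedBall_zero_iff.2 hz) (mem_closedBall_zero_iff.2 hz')
    have hx' := mem_closedBall_zero_iff.1 hx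
    have h3 := hlip x (hmem x hx') 0 (mem_closedBall_self hr0.le)
    rw [sub_zero] at h3
    have h4 : ‖x‖ ≤ η / (K + 1) := hx'.trans (min_le_right _ _)
    rw [le_div_iff₀ (by linarith)] at h4
    nlinarith only [h3, h4, norm_nonneg x]
  · intro z z' hz hz'
    have hc : Convex ℝ (closedBall (0 : X) r0 ∩ closedBall z ‖z' - z‖) :=
      (convex_closedBall _ _).inter (convex_closedBall _ _)
    have h5 := hc.norm_image_sub_le_of_norm_fderiv_le' (𝕜 := ℝ) (f := F) (φ := fderiv ℝ F z)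
      (C := K * ‖z' - z‖) (x := z) (y := z') (fun x hx => (hsub hx.1).2)
      (fun x hx => by
        have h3 := hlip x hx.1 z (hmem z hz)
        have h4 : ‖x - z‖ ≤ ‖z' - z‖ := by
          have := hx.2
          rwa [mem_closedBall, dist_eq_norm] at this
        exact h3.trans (mul_le_mul_of_nonneg_left h4 hK0))
      ⟨hmem z hz, mem_closedBall_self (norm_nonneg _)⟩
      ⟨hmem z' hz', by rw [mem_closedBall, dist_eq_norm]⟩
    refine h5.trans ?_
    nlinarith only [sq_nonneg ‖z' - z‖]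

theorem WNl_aux2 {X Y : Type*} [NormedAddCommGroup X] [NormedAddCommGroup Y] {g : X → Y}
    (hg : ContinuousAt g 0) {η : ℝ} (hη : 0 < η) : ∀ᶠ z in 𝓝 (0 : X), ‖g z - g 0‖ ≤ η := by
  have := hg.eventually (Metric.closedBall_mem_nhds (g 0) hη)
  refine this.mono fun z hz => ?_
  rwa [← dist_eq_norm]

/-- `MM` is `C²` at `0`, so `fderiv ℝ MM` is Lipschitz with some constant `C` on a ball
(`ContDiffAt.fderiv_right`, `ContDiffAt.exists_lipschitzOnWith`). Both estimates follow from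
`Convex.norm_image_sub_le_of_norm_hasFDerivWithin_le'`, with `φ = fderiv ℝ MM 0` on the closed
ball of radius `ε`, and with `φ = fderiv ℝ MM z` on its intersection with the closed ball of
centre `z` and radius `‖z' - z‖`. The coefficients are continuous at `0`. -/
theorem exists_sm (m N s : ℕ) {η : ℝ} (hη : 0 < η) :
    ∃ ε C : ℝ, 0 < ε ∧ ε ≤ 1 ∧ 1 ≤ C ∧ Sm m N s ε η C := by
  have hu : IsUnit (gM (0 : VW m N (s + 2))).det := by
    rw [gM_zero, Matrix.det_one]; exact isUnit_one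
  obtain ⟨r, C, hr, hC, hlin, hquad⟩ := WNl_aux1 (contDiffAt_MM 2 hu) hη
  have ha : ∀ᶠ z in 𝓝 (0 : VW m N (s + 2)), ∀ i j,
      ‖aM z i j - (1 : Matrix (Fin m) (Fin m) (WA m s)) i j‖ ≤ η := by
    refine eventually_all.2 fun i => eventually_all.2 fun j => ?_
    have := WNl_aux2 (contDiffAt_aM 0 hu i j).continuousAt hη
    simpa only [aM_zero] using this
  have hb : ∀ᶠ z in 𝓝 (0 : VW m N (s + 2)), ∀ α β l, ‖bM z α β l‖ ≤ η := by
    refine eventually_all.2 fun α => eventually_all.2 fun β => eventually_all.2 fun l => ?_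
    have := WNl_aux2 (contDiffAt_bM 0 hu α β l).continuousAt hη
    simpa only [bM_zero, sub_zero] using this
  obtain ⟨r1, hr1, hsub⟩ :=
    Metric.nhds_basis_closedBall.mem_iff.1 ((eventually_unit hu).and (ha.and hb))
  have k1 : min (min r r1) 1 ≤ r := (min_le_left _ _).trans (min_le_left _ _)
  have k2 : min (min r r1) 1 ≤ r1 := (min_le_left _ _).trans (min_le_right _ _)
  have hz : ∀ z : VW m N (s + 2), ‖z‖ ≤ min (min r r1) 1 → IsUnit (gM z).det ∧
      (∀ i j, ‖aM z i j - (1 : Matrix (Fin m) (Fin m) (WA m s)) i j‖ ≤ η) ∧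
      ∀ α β l, ‖bM z α β l‖ ≤ η := fun z h =>
    hsub (mem_closedBall_zero_iff.2 (h.trans k2))
  refine ⟨min (min r r1) 1, C, lt_min (lt_min hr hr1) one_pos, min_le_right _ _, hC,
    fun z h => (hz z h).1, fun z h => ⟨(hz z h).2.1, (hz z h).2.2⟩, fun z z' h h' => ?_,
    fun z z' h h' => ?_⟩
  · have := hlin z z' (h.trans k1) (h'.trans k1)
    rwa [fderiv_MM hu, LL_zero] at this
  · have := hquad z z' (h.trans k1) (h'.trans k1)
    rwa [fderiv_MM (hz z h).1] at this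

end WNl

end Pool.Agent.MP_f6c0e6_an.Gen.Wie

end

section

/-! A priori estimates, cut-off functions and the fixed point. -/

set_option autoImplicit false

open MeasureTheory Filter Topology Set Metric
open scoped ENNReal RealInnerProductSpace

namespace Pool.Agent.MP_f6c0e6_an.Gen.Wie

section WApr0

open WA

variable {m N s : ℕ}

/-- the weighted supremum norm of order `t` is at most `M` -/
def NI (t : ℤ) (u : WA m s) (M : ℝ) : Prop := SI (fun k => br k ^ t) u.c M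

section Basic

variable {t t' : ℤ} {u v : WA m s} {M M' : ℝ}

theorem WApr0_pos (t : ℤ) (k : Zm m) : 0 < br k ^ t := zpow_pos (br_pos k) t

theorem WApr0_two (t : ℤ) (k : Zm m) : br k ^ (t + 2) = br k ^ t * br k ^ 2 := by
  rw [zpow_add₀ (br_pos k).ne', zpow_ofNat]

theorem WApr0_mul {s' : ℕ} {w : WA m s'} {φ : Zm m → ℂ} {C : ℝ} (h : NI t u M)
    (hw : ∀ k, w.c k = φ k * u.c k) (hC : 0 ≤ C) (hφ : ∀ k, br k ^ t' * ‖φ k‖ ≤ C * br k ^ t) :
    NI t' w (C * M) :=
  SI.of_le h hC fun k => by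
    rw [hw, norm_mul, ← mul_assoc, ← mul_assoc]
    exact mul_le_mul_of_nonneg_right (hφ k) (norm_nonneg _)

theorem NI.nonneg (h : NI t u M) : 0 ≤ M := by
  exact (mul_nonneg (WApr0_pos t 0).le (norm_nonneg _)).trans (h 0)

theorem NI.c_zero (h : NI t u M) : ‖u.c 0‖ ≤ M := by
  simpa [br_zero] using h 0

theorem NI.mono (h : NI t u M) (ht : t' ≤ t) (hM : M ≤ M') : NI t' u M' := by
  exact SI.mono h (fun k => zpow_le_zpow_right₀ (one_le_br k) ht) hM

theorem NI.add (h : NI t u M) (h' : NI t v M') : NI t (u + v) (M + M') := by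
  intro k
  rw [add_c]
  exact SI.add h h' (fun k => (WApr0_pos t k).le) k

theorem NI.neg (h : NI t u M) : NI t (-u) M := by
  intro k
  rw [neg_c, norm_neg]
  exact h k

theorem NI.sub (h : NI t u M) (h' : NI t v M') : NI t (u - v) (M + M') := by
  rw [sub_eq_add_neg]
  exact h.add h'.neg

theorem NI.smul (h : NI t u M) (r : ℝ) : NI t (r • u) (|r| * M) := by
  exact WApr0_mul h (smul_c r u) (abs_nonneg r) fun k => by
    rw [Complex.norm_real, Real.norm_eq_abs, mul_comm]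

theorem NI.sum {ι : Type*} (I : Finset ι) {u : ι → WA m s} {M : ι → ℝ}
    (h : ∀ i ∈ I, NI t (u i) (M i)) : NI t (∑ i ∈ I, u i) (∑ i ∈ I, M i) := by
  intro k
  rw [sum_c]
  refine (mul_le_mul_of_nonneg_left (norm_sum_le _ _) (WApr0_pos t k).le).trans ?_
  rw [Finset.mul_sum]
  exact Finset.sum_le_sum fun i hi => h i hi k

theorem NI.of_norm (u : WA m s) (ht : t ≤ s) : NI t u ‖u‖ := by
  refine SI.mono u.s1.toSI (fun k => ?_) le_rfl
  rw [← zpow_natCast]
  exact zpow_le_zpow_right₀ (one_le_br k) ht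

/-- `SI.cnv`, `br_zpow_le` -/
theorem NI.mul_s1 {j : ℕ} {a : WA m s} {A : ℝ} (ha : S1 (fun k => br k ^ j) a.c A) (ht : |t| ≤ j)
    (h : NI t u M) : NI t (a * u) (A * M) := by
  rw [NI, mul_c]
  exact SI.cnv (one_le_br_pow j) (WApr0_pos t) (br_zpow_le ht) ha h

theorem NI.mul (a : WA m s) (ht : |t| ≤ s) (h : NI t u M) : NI t (a * u) (‖a‖ * M) :=
  NI.mul_s1 a.s1 ht h

theorem NI.G0 (h : NI t u M) : NI (t + 2) (G0 u) (4 * M) := by
  refine WApr0_mul h (G0_c u) (by norm_num) fun k => ?_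
  have h1 := mul_le_mul_of_nonneg_left (G0_bd (s := 0) k) (WApr0_pos t k).le
  rw [WApr0_two]
  rw [zero_add, pow_zero] at h1
  linarith

theorem NI.d0 {u : WA m (s + 2)} : NI t (d0 u) M ↔ NI t u M := by
  rw [NI, NI, funext (d0_c u)]

theorem NI.d1 {u : WA m (s + 2)} (h : NI (t + 1) u M) (i : Fin m) : NI t (d1 i u) M := by
  rw [← one_mul M]
  refine WApr0_mul h (d1_c i u) zero_le_one fun k => ?_
  rw [norm_mul, Complex.norm_I, Complex.norm_real, Real.norm_eq_abs, one_mul, one_mul,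
    zpow_add_one₀ (br_pos k).ne']
  exact mul_le_mul_of_nonneg_left (abs_le_br k i) (WApr0_pos t k).le

theorem NI.d2 {u : WA m (s + 2)} (h : NI (t + 2) u M) (i j : Fin m) : NI t (d2 i j u) M := by
  rw [← one_mul M]
  refine WApr0_mul h (d2_c i j u) zero_le_one fun k => ?_
  rw [Complex.norm_real, Real.norm_eq_abs, abs_neg, abs_mul, one_mul, WApr0_two, sq]
  exact mul_le_mul_of_nonneg_left
    (mul_le_mul (abs_le_br k i) (abs_le_br k j) (abs_nonneg _) (br_pos k).le) (WApr0_pos t k).le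

/-- `lp2_c`, `br_sq_le` -/
theorem NI.of_lp2 {u : WA m (s + 2)} (h : NI t (lp2 u) M) (h0 : ‖u.c 0‖ ≤ M') :
    NI (t + 2) u (4 * M + M') := by
  intro k
  have a0 := h.nonneg
  have a1 := (norm_nonneg _).trans h0
  by_cases hk : k = 0
  · subst hk
    simp only [br_zero, one_zpow, one_mul]
    linarith
  · have h1 := h k
    beta_reduce at h1 ⊢
    rw [lp2_c, norm_mul, Complex.norm_real, Real.norm_eq_abs, abs_neg, abs_sq] at h1
    have h2 := mul_le_mul_of_nonneg_left (br_sq_le hk)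
      (mul_nonneg (WApr0_pos t k).le (norm_nonneg (u.c k)))
    rw [WApr0_two]
    linarith

end Basic

/-- the mean value -/
noncomputable def meanL : WA m s →L[ℝ] ℝ :=
  LinearMap.mkContinuous ⟨⟨fun u => (u.c 0).re, fun u v => by simp [add_c]⟩,
    fun r u => by simp [smul_c]⟩ 1 fun u => by
      simpa using (Complex.abs_re_le_norm _).trans (u.norm_c_le 0)

theorem meanL_apply (u : WA m s) : meanL u = (u.c 0).re := rfl

/-- the inverse of the Laplacian up to multiples of `ϑ` -/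
noncomputable def JJ (ϑ : WA m s) : WA m s →L[ℝ] WA m (s + 2) :=
  G0 ∘L (ContinuousLinearMap.id ℝ _ - meanL.smulRight ϑ)

theorem JJ_apply (ϑ G : WA m s) : JJ ϑ G = G0 (G - meanL G • ϑ) := rfl

theorem lp2_JJ {ϑ : WA m s} (h : ϑ.c 0 = 1) (G : WA m s) :
    lp2 (JJ ϑ G) = G - meanL G • ϑ := by
  rw [JJ_apply, lp2_G0, sub_c, smul_c, h, mul_one, meanL_apply, c_zero_re, sub_self,
    Complex.zero_re, zero_smul, sub_zero]

theorem norm_JJ_le (ϑ G : WA m s) : ‖JJ ϑ G‖ ≤ 4 * (1 + ‖ϑ‖) * ‖G‖ := by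
  have h1 : ‖meanL G • ϑ‖ ≤ ‖G‖ * ‖ϑ‖ := by
    rw [norm_smul]
    exact mul_le_mul_of_nonneg_right ((Complex.abs_re_le_norm _).trans (G.norm_c_le 0))
      (norm_nonneg _)
  have h2 := norm_sub_le G (meanL G • ϑ)
  have h3 := norm_G0_le (G - meanL G • ϑ)
  rw [JJ_apply]
  linarith

theorem NI.JJ (ϑ : WA m s) {t : ℤ} {G : WA m s} {M : ℝ} (ht : t ≤ s) (h : NI t G M) :
    NI (t + 2) (JJ ϑ G) (4 * (1 + ‖ϑ‖) * M) := by
  have h1 : |meanL G| * ‖ϑ‖ ≤ M * ‖ϑ‖ :=
    mul_le_mul_of_nonneg_right ((Complex.abs_re_le_norm _).trans h.c_zero) (norm_nonneg _)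
  rw [JJ_apply]
  exact (h.sub ((NI.of_norm ϑ ht).smul (meanL G))).G0.mono le_rfl (by linarith)

end WApr0

section WApr

open WA

variable {m N s : ℕ}

theorem WApr_sum2 {ι κ : Type*} [Fintype ι] [Fintype κ] {t : ℤ} {u : ι → κ → WA m s} {M : ℝ}
    (h : ∀ i j, NI t (u i j) M) :
    NI t (∑ i, ∑ j, u i j) (Fintype.card ι * (Fintype.card κ * M)) := by
  simpa using NI.sum Finset.univ fun i _ => NI.sum Finset.univ fun j _ => h i j

theorem WApr_norm2 {ι κ : Type*} [Fintype ι] [Fintype κ] {u : ι → κ → WA m s} {M : ℝ}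
    (h : ∀ i j, ‖u i j‖ ≤ M) :
    ‖∑ i, ∑ j, u i j‖ ≤ Fintype.card ι * (Fintype.card κ * M) := by
  simpa using norm_sum_le_of_le Finset.univ fun i _ =>
    norm_sum_le_of_le Finset.univ fun j _ => h i j

theorem WApr_mul {t : ℤ} {a u : WA m s} {A M : ℝ} (ha : ‖a‖ ≤ A) (ht : |t| ≤ s) (h : NI t u M) :
    NI t (a * u) (A * M) :=
  (NI.mul a ht h).mono le_rfl (mul_le_mul_of_nonneg_right ha h.nonneg)

theorem WApr_absorb {t : ℤ} (ht : t ≤ s) (u : VW m N s) {T : ℝ}
    (h : ∀ M, (∀ α, NI t (u α) M) → ∀ α, NI t (u α) (M / 2 + T)) (α : Fin N) :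
    NI t (u α) (2 * T) := fun k =>
  absorb (fun p : Fin N × Zm m => br p.2 ^ t * ‖(u p.1).c p.2‖) (M₀ := ‖u‖)
    (fun p => (NI.of_norm (u p.1) ht).mono le_rfl (norm_le_pi_norm u p.1) p.2)
    (fun M hM p => h M (fun β l => hM (β, l)) p.1 p.2) (α, k)

theorem Cl.norm_a_le {w : VW m N (s + 2)} {η : ℝ} (h : Cl w η) (i j : Fin m) :
    ‖aM w i j‖ ≤ 1 + η := by
  have h1 : ‖(1 : Matrix (Fin m) (Fin m) (WA m s)) i j‖ ≤ 1 := by
    rw [Matrix.one_apply]
    split_ifs
    · exact WA.norm_one.le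
    · rw [norm_zero]
      exact zero_le_one
  have h2 := norm_le_norm_add_norm_sub' (aM w i j) ((1 : Matrix (Fin m) (Fin m) (WA m s)) i j)
  linarith [h.a_bd i j]

theorem Cl.norm_LL_le {w : VW m N (s + 2)} {η : ℝ} (h : Cl w η) (hη : η ≤ 1)
    (u : VW m N (s + 2)) : ‖LL w u‖ ≤ (2 * m ^ 2 + N * m) * ‖u‖ := by
  refine (pi_norm_le_iff_of_nonneg (by positivity)).2 fun α => ?_
  have h1 := WApr_norm2 (u := fun i j => aM w i j * d2 i j (u α)) (M := 2 * ‖u‖) fun i j =>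
    (norm_mul_le _ _).trans (mul_le_mul (by linarith [h.norm_a_le i j])
      ((norm_d2_le i j _).trans (norm_le_pi_norm u α)) (norm_nonneg _) zero_le_two)
  have h2 := WApr_norm2 (u := fun β l => bM w α β l * d1 l (u β)) (M := 1 * ‖u‖) fun β l =>
    (norm_mul_le _ _).trans (mul_le_mul ((h.b_bd α β l).trans hη)
      ((norm_d1_le l _).trans (norm_le_pi_norm u β)) (norm_nonneg _) zero_le_one)
  simp only [Fintype.card_fin] at h1 h2
  refine (norm_add_le_of_le h1 h2).trans (le_of_eq ?_)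
  ring

/-- `lp2 (u α) - LL w u α = - ∑ (a - 1) i j * d2 i j (u α) - ∑ b * d1 l (u β)` -/
theorem Cl.pert {w : VW m N (s + 2)} {η : ℝ} (h : Cl w η) {t : ℤ} (ht : |t| ≤ s)
    {u : VW m N (s + 2)} {M : ℝ} (hu : ∀ α, NI (t + 2) (u α) M) (α : Fin N) :
    NI t (lp2 (u α) - LL w u α) ((m ^ 2 + N * m) * η * M) := by
  have h1 := WApr_sum2
    (u := fun i j => (aM w i j - (1 : Matrix (Fin m) (Fin m) (WA m s)) i j) * d2 i j (u α))
    fun i j => WApr_mul (h.a_bd i j) ht ((hu α).d2 i j)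
  have h2 := WApr_sum2 (u := fun β l => bM w α β l * d1 l (u β)) fun β l =>
    WApr_mul (h.b_bd α β l) ht (((hu β).mono (t' := t + 1) (by omega) le_rfl).d1 l)
  have e : lp2 (u α) = ∑ i, ∑ j, (1 : Matrix (Fin m) (Fin m) (WA m s)) i j * d2 i j (u α) := by
    simp [lp2_apply, Matrix.one_apply]
  simp only [Fintype.card_fin] at h1 h2
  convert h1.neg.sub h2 using 1
  · simp only [e, LL, sub_mul, Finset.sum_sub_distrib]
    ring
  · ring

/-- the commutator of `LL w` with the multiplication by `χ` -/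
noncomputable def comm (w : VW m N (s + 2)) (χ : WA m (s + 2)) (u : VW m N (s + 2)) : VW m N s :=
  fun α => ∑ i, ∑ j, aM w i j *
      (d2 i j χ * d0 (u α) + d1 i χ * d1 j (u α) + d1 j χ * d1 i (u α)) +
    ∑ β, ∑ l, bM w α β l * (d1 l χ * d0 (u β))

theorem LL_mul (w : VW m N (s + 2)) (χ : WA m (s + 2)) (u : VW m N (s + 2)) (α : Fin N) :
    LL w (fun β => χ * u β) α = d0 χ * LL w u α + comm w χ u α := by
  simp only [LL, comm, d2_mul, d1_mul]
  rw [mul_add (d0 χ), add_add_add_comm]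
  simp only [Finset.mul_sum, ← Finset.sum_add_distrib]
  congr 1 <;> refine Finset.sum_congr rfl fun i _ => Finset.sum_congr rfl fun j _ => ?_ <;> ring

theorem Cl.comm_bd {w : VW m N (s + 2)} {η : ℝ} (h : Cl w η) (hη : η ≤ 1) {t : ℤ} (ht : |t| ≤ s)
    (χ : WA m (s + 2)) {u : VW m N (s + 2)} {M : ℝ} (hu : ∀ α, NI (t + 1) (u α) M) (α : Fin N) :
    NI t (comm w χ u α) ((6 * m ^ 2 + N * m) * ‖χ‖ * M) := by
  have h0 : ∀ β, NI t (d0 (u β)) M := fun β => NI.d0.2 ((hu β).mono (by omega) le_rfl)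
  have h1 := WApr_sum2 (u := fun i j => aM w i j *
      (d2 i j χ * d0 (u α) + d1 i χ * d1 j (u α) + d1 j χ * d1 i (u α))) fun i j =>
    WApr_mul (A := 2) (by linarith [h.norm_a_le i j]) ht
      (((WApr_mul (norm_d2_le i j χ) ht (h0 α)).add
        (WApr_mul (norm_d1_le i χ) ht ((hu α).d1 j))).add
        (WApr_mul (norm_d1_le j χ) ht ((hu α).d1 i)))
  have h2 := WApr_sum2 (u := fun β l => bM w α β l * (d1 l χ * d0 (u β))) fun β l =>
    WApr_mul ((h.b_bd α β l).trans hη) ht (WApr_mul (norm_d1_le l χ) ht (h0 β))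
  simp only [Fintype.card_fin] at h1 h2
  refine (h1.add h2).mono le_rfl (le_of_eq ?_)
  ring

/-- `absorb` with the index set `Fin N × Zm m`, `Cl.pert`, `NI.JJ` -/
theorem Cl.step2 {w : VW m N (s + 2)} {η : ℝ} (h : Cl w η) (hs : 3 ≤ s) {ϑ : WA m s}
    (hη : 4 * (1 + ‖ϑ‖) * ((m ^ 2 + N * m) * η) ≤ 1 / 2) {v : VW m N (s + 2)} {R : VW m N s}
    {T : ℝ} (hv : ∀ α, v α = JJ ϑ (lp2 (v α) - LL w v α - R α)) (hR : ∀ α, NI (-3) (R α) T)
    (α : Fin N) : NI (-1) (v α) (8 * (1 + ‖ϑ‖) * T) := by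
  have key := WApr_absorb (t := -1) (by omega) v (T := 4 * (1 + ‖ϑ‖) * T) (fun M hM β => by
    have h1 := h.pert (t := -3) (by rw [abs_neg]; exact_mod_cast hs)
      (fun γ => (hM γ).mono (by norm_num) le_rfl) β
    have h2 := (h1.sub (hR β)).JJ ϑ (by omega)
    rw [← hv β] at h2
    refine h2.mono (by norm_num) ?_
    nlinarith only [hη, mul_le_mul_of_nonneg_right hη (hM β).nonneg]) α
  exact key.mono le_rfl (le_of_eq (by ring))

/-- With `U' = χ U` one has `lp2 U' = (lp2 U' - LL w U') + R + comm w χ U`. Use `NI.of_lp2`,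
`Cl.pert`, `Cl.comm_bd`, `NI.mul` (for the mean value) and `absorb`. -/
theorem Cl.step3 {w : VW m N (s + 2)} {η : ℝ} (h : Cl w η) (hη1 : η ≤ 1)
    (hη : 4 * ((m ^ 2 + N * m) * η) ≤ 1 / 2) {t : ℤ} (ht : |t| ≤ s) (χ : WA m (s + 2))
    {U : VW m N (s + 2)} {R : VW m N s} {T M : ℝ} (hU : ∀ α, d0 χ * LL w U α = R α)
    (hR : ∀ α, NI t (R α) T) (hM : ∀ α, NI (t + 1) (U α) M) (α : Fin N) :
    NI (t + 2) (χ * U α) (8 * T + (8 * (6 * m ^ 2 + N * m) + 2) * ‖χ‖ * M) := by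
  have ht' := abs_le.1 ht
  have key := WApr_absorb (t := t + 2) (by push_cast; omega) (fun β => χ * U β)
    (T := 4 * T + (4 * (6 * m ^ 2 + N * m) + 1) * ‖χ‖ * M) (fun M' hM' β => by
      have h1 := ((h.pert ht hM' β).add (hR β)).add (h.comm_bd hη1 ht χ hM β)
      rw [LL_mul, hU β, show lp2 (χ * U β) - (R β + comm w χ U β) + R β + comm w χ U β =
        lp2 (χ * U β) by ring] at h1
      have h2 := (NI.mul χ (t := t + 1) (by rw [abs_le]; push_cast; omega) (hM β)).c_zero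
      refine (h1.of_lp2 h2).mono le_rfl ?_
      nlinarith only [hη, mul_le_mul_of_nonneg_right hη (hM' β).nonneg]) α
  exact key.mono le_rfl (le_of_eq (by ring))

/-- The fixed point. The map `Φ v α = JJ ϑ (lp2 (v α) - MM (z₀ + v) α + H α)` is a contraction
with constant `1 / 2` (`Sm.lin`, `norm_JJ_le`) of the closed set of all `v` with `‖v‖ ≤ R` and
`ell n v = 0` for `n ∈ Z` (`ell_map`, `ell_MM`); use `ContractingWith.exists_fixedPoint'`. -/
theorem Sm.exists_fix {ε η C : ℝ} (h : Sm m N s ε η C) (ϑ : WA m s)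
    (hη : 4 * (1 + ‖ϑ‖) * η ≤ 1 / 2) (z₀ : VW m N (s + 2)) (H : VW m N s) {R : ℝ}
    (hz : ‖z₀‖ + R ≤ ε) (hH : 8 * (1 + ‖ϑ‖) * ‖H - MM z₀‖ ≤ R) (Z : Set (E N))
    (hZ : ∀ n ∈ Z, ell n z₀ = 0 ∧ ell n H = 0) :
    ∃ v : VW m N (s + 2), ‖v‖ ≤ R ∧ (∀ n ∈ Z, ell n v = 0) ∧
      ∀ α, v α = JJ ϑ (lp2 (v α) - MM (z₀ + v) α + H α) := by
  have hR : 0 ≤ R := le_trans (by positivity) hH
  let Φ : VW m N (s + 2) → VW m N (s + 2) := fun v α => JJ ϑ ((lapV v - MM (z₀ + v) + H) α)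
  have hJ : ∀ G : VW m N s, ‖(fun α => JJ ϑ (G α) : VW m N (s + 2))‖ ≤ 4 * (1 + ‖ϑ‖) * ‖G‖ :=
    fun G => (pi_norm_le_iff_of_nonneg (by positivity)).2 fun α =>
      (norm_JJ_le ϑ _).trans (mul_le_mul_of_nonneg_left (norm_le_pi_norm G α) (by positivity))
  have hε : ∀ v : VW m N (s + 2), ‖v‖ ≤ R → ‖z₀ + v‖ ≤ ε := fun v hv =>
    (norm_add_le _ _).trans (by linarith)
  have lip : ∀ v v' : VW m N (s + 2), ‖v‖ ≤ R → ‖v'‖ ≤ R → ‖Φ v - Φ v'‖ ≤ 1 / 2 * ‖v - v'‖ := by
    intro v v' hv hv'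
    have e : Φ v - Φ v' = fun α => JJ ϑ ((-(MM (z₀ + v) - MM (z₀ + v') - lapV (v - v'))) α) := by
      funext α
      simp only [Φ, Pi.sub_apply, Pi.add_apply, Pi.neg_apply, lapV, ← map_sub (JJ ϑ),
        map_sub lp2]
      congr 1
      ring
    have h1 := h.lin _ _ (hε v' hv') (hε v hv)
    rw [add_sub_add_left_eq_sub] at h1
    rw [e]
    refine (hJ _).trans ?_
    rw [norm_neg]
    refine (mul_le_mul_of_nonneg_left h1 (by positivity)).trans ?_
    rw [← mul_assoc]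
    exact mul_le_mul_of_nonneg_right hη (norm_nonneg _)
  have h0 : ‖Φ 0‖ ≤ R / 2 := by
    refine (hJ _).trans ?_
    have e : lapV (0 : VW m N (s + 2)) - MM (z₀ + 0) + H = H - MM z₀ := by
      funext α
      simp only [Pi.sub_apply, Pi.add_apply, Pi.zero_apply, lapV, map_zero, add_zero]
      ring
    rw [e]
    linarith
  let S : Set (VW m N (s + 2)) := {v | ‖v‖ ≤ R ∧ ∀ n ∈ Z, ell n v = 0}
  have hS : IsClosed S := by
    have e : S = {v | ‖v‖ ≤ R} ∩ ⋂ n ∈ Z, {v | ell n v = 0} := by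
      ext v
      simp [S]
    rw [e]
    exact (isClosed_le continuous_norm continuous_const).inter
      (isClosed_biInter fun n _ => isClosed_eq (ell n).continuous continuous_const)
  have hm : MapsTo Φ S S := fun v hv => ⟨by
    have h1 := lip v 0 hv.1 (by rwa [norm_zero])
    have h2 := norm_le_norm_add_norm_sub' (Φ v) (Φ 0)
    rw [sub_zero] at h1
    linarith only [h0, h1, h2, hv.1], fun n hn => by
    have h1 : ell n (lapV v) = 0 := by
      rw [show ell n (lapV v) = lp2 (ell n v) from ell_map n lp2 v, hv.2 n hn, map_zero]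
    have h2 : ell n (MM (z₀ + v)) = 0 :=
      ell_MM (by rw [map_add, (hZ n hn).1, hv.2 n hn, add_zero])
    rw [show ell n (Φ v) = JJ ϑ (ell n (lapV v - MM (z₀ + v) + H)) from ell_map n (JJ ϑ) _,
      map_add, map_sub, h1, h2, (hZ n hn).2, sub_zero, add_zero, map_zero]⟩
  have hc : ContractingWith (1 / 2) (hm.restrict Φ S S) := ⟨by norm_num,
    LipschitzWith.of_dist_le_mul fun v v' => by
      have := lip v.1 v'.1 v.2.1 v'.2.1
      rw [← dist_eq_norm, ← dist_eq_norm] at this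
      simpa [Subtype.dist_eq] using this⟩
  obtain ⟨v, hv, hf, -⟩ := hc.exists_fixedPoint' hS.isComplete hm (x := 0)
    ⟨by rwa [norm_zero], fun n _ => map_zero _⟩ (edist_ne_top _ _)
  exact ⟨v, hv.1, hv.2, fun α => (congrFun hf α).symm⟩

end WApr

section WCut0

open WA

variable {m N : ℕ}

/-- The element is `ofSeq` of the given coefficients. For `ξ` in the box exchange the sum and the
integral (`hasSum_integral_of_summable_integral_norm`), use `ch_sub` and `tc_hasSum`. -/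
theorem exists_cv (s : ℕ) {ρ : ℝ} (h0 : 0 < ρ) (h1 : ρ ≤ 1) {Ω : Type} [MeasurableSpace Ω]
    (μ : Measure Ω) {x : Ω → E m} {g : Ω → ℝ} (hx : Measurable x) (hg : Integrable g μ)
    (hs : ∀ y, g y ≠ 0 → ‖x y‖ ≤ 2) :
    ∃ u : WA m s, (∀ k, u.c k = tc ρ k * ∫ y, (g y : ℂ) * ch (-k) (x y) ∂μ) ∧
      (∀ j, S1 (fun k => br k ^ j) u.c (cth m j / ρ ^ ((j + 1) * m) * ∫ y, |g y| ∂μ)) ∧
      (∀ k, ‖u.c k‖ ≤ ∫ y, |g y| ∂μ) ∧
      ∀ ξ ∈ box m, u.f ξ = ∫ y, th ρ (ξ - x y) * g y ∂μ := by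
  set G : ℝ := ∫ y, |g y| ∂μ with hG
  have hG0 : 0 ≤ G := integral_nonneg fun y => abs_nonneg _
  set I : Zm m → ℂ := fun k => ∫ y, (g y : ℂ) * ch (-k) (x y) ∂μ with hI
  have hIb : ∀ k, ‖I k‖ ≤ G := fun k => by
    refine (norm_integral_le_integral_norm _).trans (le_of_eq ?_)
    refine integral_congr_ae (Eventually.of_forall fun y => ?_)
    simp only [norm_mul, norm_ch, mul_one, Complex.norm_real, Real.norm_eq_abs]
  have hIs : ∀ k, I (-k) = (starRingEnd ℂ) (I k) := fun k => by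
    simp only [hI]
    rw [← integral_conj]
    refine integral_congr_ae (Eventually.of_forall fun y => ?_)
    simp only [map_mul, Complex.conj_ofReal]
    rw [ch_neg (-k)]
  have hS : ∀ j, S1 (fun k => br k ^ j) (fun k => tc ρ k * I k)
      (cth m j / ρ ^ ((j + 1) * m) * G) := fun j => by
    rw [mul_comm]
    refine (tc_s1' j h0 h1).of_le hG0 fun k => ?_
    have h2 : ‖tc ρ k‖ * ‖I k‖ ≤ ‖tc ρ k‖ * G :=
      mul_le_mul_of_nonneg_left (hIb k) (norm_nonneg _)
    have h3 := mul_le_mul_of_nonneg_left h2 (br_pow_nonneg j k)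
    rw [norm_mul]
    linarith
  have hsy : ∀ k, (fun k => tc ρ k * I k) (-k) = (starRingEnd ℂ) ((fun k => tc ρ k * I k) k) :=
    fun k => by simp only [tc_neg, hIs, map_mul]
  have hsum := ((hS s).summable (br_pow_nonneg s)).1
  have hc : (ofSeq (fun k => tc ρ k * I k) hsum hsy).c = fun k => tc ρ k * I k :=
    ofSeq_c _ _ _
  refine ⟨ofSeq (fun k => tc ρ k * I k) hsum hsy, fun k => by rw [hc], fun j => by
    rw [hc]; exact hS j, fun k => ?_, fun ξ hξ => ?_⟩
  · rw [hc, norm_mul]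
    calc ‖tc ρ k‖ * ‖I k‖ ≤ 1 * G :=
          mul_le_mul (norm_tc_le ρ k) (hIb k) (norm_nonneg _) zero_le_one
      _ = G := one_mul G
  · have hA := (ofSeq (fun k => tc ρ k * I k) hsum hsy).hasSum ξ
    rw [hc] at hA
    set F : Zm m → Ω → ℂ := fun k y => tc ρ k * ch k ξ * ((g y : ℂ) * ch (-k) (x y)) with hF
    have hint : ∀ k, Integrable (fun y => (g y : ℂ) * ch (-k) (x y)) μ := fun k => by
      refine Integrable.mul_bdd (c := 1) hg.ofReal
        ((continuous_ch (-k)).measurable.comp hx).aestronglyMeasurable ?_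
      exact Eventually.of_forall fun y => (norm_ch _ _).le
    have hFi : ∀ k, Integrable (F k) μ := fun k => (hint k).const_mul _
    have hFn : ∀ k, ∫ y, ‖F k y‖ ∂μ = ‖tc ρ k‖ * G := fun k => by
      rw [hG, ← integral_const_mul]
      refine integral_congr_ae (Eventually.of_forall fun y => ?_)
      simp only [hF, norm_mul, norm_ch, mul_one, Complex.norm_real, Real.norm_eq_abs]
    have hts : Summable fun k : Zm m => ‖tc ρ k‖ :=
      (tc_s1' 0 h0 h1).summable_norm (one_le_br_pow 0)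
    have hB := hasSum_integral_of_summable_integral_norm hFi
      (by simp only [hFn]; exact hts.mul_right G)
    have hFI : ∀ k, ∫ y, F k y ∂μ = tc ρ k * I k * ch k ξ := fun k => by
      simp only [hF, hI]
      rw [integral_const_mul]
      ring
    simp only [hFI] at hB
    have hT : ∀ y, ∑' k, F k y = ((th ρ (ξ - x y) * g y : ℝ) : ℂ) := fun y => by
      by_cases hy : g y = 0
      · simp [hF, hy]
      · have hb : ∀ i, |(ξ - x y) i| ≤ 2 * Real.pi - 1 := fun i => by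
          have h2 : |ξ i| < Real.pi := hξ i
          have h3 : |x y i| ≤ 2 := by
            have := PiLp.norm_apply_le (x y) i
            rw [Real.norm_eq_abs] at this
            exact this.trans (hs y hy)
          have h4 : |ξ i - x y i| ≤ |ξ i| + |x y i| := abs_sub _ _
          have h5 := Real.pi_gt_three
          rw [PiLp.sub_apply]
          linarith
        have h6 := (tc_hasSum h0 h1 hb).mul_right (g y : ℂ)
        rw [Complex.ofReal_mul, ← h6.tsum_eq]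
        refine tsum_congr fun k => ?_
        simp only [hF, ch_sub]
        ring
    simp only [hT] at hB
    have hE := hA.unique hB
    rw [integral_complex_ofReal] at hE
    exact Complex.ofReal_injective hE

/-- the vector valued version: apply `exists_cv` to the components -/
theorem exists_cv_vec (s : ℕ) {ρ : ℝ} (h0 : 0 < ρ) (h1 : ρ ≤ 1) {Ω : Type} [MeasurableSpace Ω]
    (μ : Measure Ω) {x : Ω → E m} {g : Ω → E N} (hx : Measurable x) (hg : Integrable g μ)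
    (hs : ∀ y, g y ≠ 0 → ‖x y‖ ≤ 2) :
    ∃ u : VW m N s, ‖u‖ ≤ cth m s / ρ ^ ((s + 1) * m) * ∫ y, ‖g y‖ ∂μ ∧
      (∀ α, NI 0 (u α) (∫ y, ‖g y‖ ∂μ)) ∧
      (∀ n : E N, (∀ y, ⟪n, g y⟫ = 0) → ell n u = 0) ∧
      ∀ ξ ∈ box m, vec u ξ = ∫ y, th ρ (ξ - x y) • g y ∂μ := by
  have hgα : ∀ α, Integrable (fun y => g y α) μ := fun α =>
    (EuclideanSpace.proj (𝕜 := ℝ) α).integrable_comp hg
  have hsα : ∀ α y, g y α ≠ 0 → ‖x y‖ ≤ 2 := fun α y h => hs y fun h' => h (by simp [h'])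
  choose u _ hu1 hu2 hu3 using fun α => exists_cv s h0 h1 μ hx (hgα α) (hsα α)
  have hle : ∀ α, ∫ y, |g y α| ∂μ ≤ ∫ y, ‖g y‖ ∂μ := fun α =>
    integral_mono (hgα α).abs hg.norm fun y => by
      have := PiLp.norm_apply_le (g y) α
      rwa [Real.norm_eq_abs] at this
  have hC : 0 ≤ cth m s / ρ ^ ((s + 1) * m) :=
    div_nonneg (zero_le_one.trans (one_le_cth m s)) (pow_nonneg h0.le _)
  have hint : ∀ ξ : E m, Integrable (fun y => th ρ (ξ - x y) • g y) μ := fun ξ => by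
    obtain ⟨C, -, hC⟩ := th_bd m
    refine Integrable.bdd_smul (φ := fun y => th ρ (ξ - x y)) hg (C / ρ ^ m) ?_
      (Eventually.of_forall fun y => ?_)
    · exact ((contDiff_th ρ 0).continuous.measurable.comp
        (measurable_const.sub hx)).aestronglyMeasurable
    · rw [Real.norm_eq_abs, abs_of_nonneg (th_nonneg h0 _)]
      exact (hC ρ h0).1 _
  have hv : ∀ ξ ∈ box m, vec u ξ = ∫ y, th ρ (ξ - x y) • g y ∂μ := fun ξ hξ => by
    ext α
    rw [vec_apply, hu3 α ξ hξ]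
    exact (EuclideanSpace.proj (𝕜 := ℝ) α).integral_comp_comm (hint ξ)
  refine ⟨u, ?_, fun α k => ?_, fun n hn => ext_box fun ξ hξ => ?_, hv⟩
  · refine (pi_norm_le_iff_of_nonneg
      (mul_nonneg hC (integral_nonneg fun y => norm_nonneg _))).2 fun α => ?_
    exact (norm_le (hu1 α s)).trans (mul_le_mul_of_nonneg_left (hle α) hC)
  · simp only [zpow_zero, one_mul]
    exact (hu2 α k).trans (hle α)
  · rw [ell_f, hv ξ hξ, ← integral_inner (hint ξ)]
    simp only [inner_smul_right, hn, mul_zero, integral_zero, zero_f]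

/-- `exists_cv` with the Dirac measure on `Unit`, `x = fun _ => x₀`, `g = fun _ => 1` -/
theorem exists_shift (s : ℕ) {ρ : ℝ} (h0 : 0 < ρ) (h1 : ρ ≤ 1) {x₀ : E m} (hx : ‖x₀‖ ≤ 2) :
    ∃ a : WA m s, a.c 0 = ((((2 * Real.pi) ^ m)⁻¹ : ℝ) : ℂ) ∧
      (∀ j, S1 (fun k => br k ^ j) a.c (cth m j / ρ ^ ((j + 1) * m))) ∧
      ∀ ξ ∈ box m, a.f ξ = th ρ (ξ - x₀) := by
  obtain ⟨a, ha1, ha2, -, ha3⟩ := exists_cv s h0 h1 (Measure.dirac ()) (x := fun _ => x₀)
    (g := fun _ => 1) measurable_const (integrable_const _) fun _ _ => hx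
  refine ⟨a, ?_, fun j => ?_, fun ξ hξ => ?_⟩
  · rw [ha1, tc_zero]
    simp [ch_zero]
  · simpa using ha2 j
  · simpa using ha3 ξ hξ

/-- a multiple of the shift by `2 • ev 0` with `ρ = 1` -/
theorem exists_bump (hm : 1 ≤ m) (s : ℕ) :
    ∃ ϑ : WA m s, ϑ.c 0 = 1 ∧ ∀ ξ ∈ ball (0 : E m) 1, ϑ.f ξ = 0 := by
  have hn : ‖(2 : ℝ) • (ev ⟨0, hm⟩ : E m)‖ = 2 := by
    rw [norm_smul, ev]
    simp
  obtain ⟨a, ha1, -, ha3⟩ := exists_shift s one_pos le_rfl hn.le
  refine ⟨((2 * Real.pi) ^ m : ℝ) • a, ?_, fun ξ hξ => ?_⟩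
  · rw [smul_c, ha1, ← Complex.ofReal_mul, mul_inv_cancel₀ (by positivity), Complex.ofReal_one]
  · have h2 : ‖ξ‖ < 1 := by simpa using hξ
    have h3 : ξ ∈ box m := ball_subset_box m (by
      rw [mem_ball_zero_iff]
      linarith)
    have h4 : (1 : ℝ) ≤ ‖ξ - (2 : ℝ) • (ev ⟨0, hm⟩ : E m)‖ := by
      have := norm_sub_norm_le ((2 : ℝ) • (ev ⟨0, hm⟩ : E m)) ξ
      rw [norm_sub_rev, hn] at this
      linarith
    rw [smul_f, ha3 ξ h3, th_eq_zero one_pos h4 hm, mul_zero]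

/-- The integral is `(2 π) ^ m` times the coefficient at `0` of `a * v`, with `a` from
`exists_shift` (the integrand vanishes outside the box); use `NI.mul_s1` with `j = 1`. -/
theorem pair_le (hm : 1 ≤ m) {s : ℕ} {v : WA m s} {M : ℝ} (hv : NI (-1) v M) {ρ : ℝ} (h0 : 0 < ρ)
    (h1 : ρ ≤ 1) {x₀ : E m} (hx : ‖x₀‖ ≤ 1) :
    |∫ ξ, th ρ (ξ - x₀) * v.f ξ| ≤ (2 * Real.pi) ^ m * (cth m 1 / ρ ^ (2 * m)) * M := by
  obtain ⟨a, -, ha2, ha3⟩ := exists_shift s h0 h1 (x₀ := x₀) (by linarith)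
  have hN := (NI.mul_s1 (ha2 1) (by norm_num) hv).c_zero
  have hout : ∀ ξ, ξ ∉ box m → th ρ (ξ - x₀) * v.f ξ = 0 := fun ξ hξ => by
    have h2 : 3 ≤ ‖ξ‖ := by
      by_contra h
      exact hξ (ball_subset_box m (mem_ball_zero_iff.2 (not_le.1 h)))
    have h3 : ρ ≤ ‖ξ - x₀‖ := by
      have := norm_sub_norm_le ξ x₀
      linarith
    rw [th_eq_zero h0 h3 hm, zero_mul]
  have hc : (a * v).c 0 =
      ((((2 * Real.pi) ^ m)⁻¹ * ∫ ξ, th ρ (ξ - x₀) * v.f ξ : ℝ) : ℂ) := by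
    rw [← setIntegral_eq_integral_of_forall_compl_eq_zero hout, Complex.ofReal_mul,
      ← integral_complex_ofReal, WA.c, cf, Complex.real_smul]
    congr 1
    refine setIntegral_congr_fun (isOpen_box m).measurableSet fun ξ hξ => ?_
    simp only [neg_zero, ch_zero, mul_one, mul_f, ha3 ξ hξ]
  have hp : (0 : ℝ) < (2 * Real.pi) ^ m := by positivity
  rw [hc, Complex.norm_real, Real.norm_eq_abs, abs_mul, abs_of_pos (inv_pos.2 hp),
    inv_mul_le_iff₀ hp] at hN
  rw [mul_assoc]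
  exact hN

theorem WCut0_norm_le (z : E N) : ‖z‖ ≤ ∑ α, |z α| := by
  rw [EuclideanSpace.norm_eq]
  refine Real.sqrt_le_iff.2 ⟨Finset.sum_nonneg fun _ _ => abs_nonneg _, ?_⟩
  simp only [Real.norm_eq_abs]
  exact Finset.sum_sq_le_sq_sum_of_nonneg fun _ _ => abs_nonneg _

/-- the vector valued version -/
theorem pair_le_vec (hm : 1 ≤ m) {s : ℕ} {v : VW m N s} {M : ℝ} (hv : ∀ α, NI (-1) (v α) M)
    {ρ : ℝ} (h0 : 0 < ρ) (h1 : ρ ≤ 1) {x₀ : E m} (hx : ‖x₀‖ ≤ 1) :
    ‖∫ ξ, th ρ (ξ - x₀) • vec v ξ‖ ≤ N * ((2 * Real.pi) ^ m * (cth m 1 / ρ ^ (2 * m)) * M) := by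
  set B : ℝ := (2 * Real.pi) ^ m * (cth m 1 / ρ ^ (2 * m)) * M with hB
  have hint : Integrable fun ξ : E m => th ρ (ξ - x₀) • vec v ξ := by
    refine Continuous.integrable_of_hasCompactSupport ?_ ?_
    · exact ((contDiff_th ρ 0).continuous.comp (continuous_id.sub continuous_const)).smul
        (contDiff_vec v).continuous
    · refine HasCompactSupport.intro (isCompact_closedBall x₀ ρ) fun ξ hξ => ?_
      have h2 : ρ ≤ ‖ξ - x₀‖ := by
        rw [mem_closedBall, dist_eq_norm, not_le] at hξ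
        exact hξ.le
      rw [th_eq_zero h0 h2 hm, zero_smul]
  have hα : ∀ α, |(∫ ξ, th ρ (ξ - x₀) • vec v ξ) α| ≤ B := fun α => by
    have h2 : (∫ ξ, th ρ (ξ - x₀) • vec v ξ) α = ∫ ξ, th ρ (ξ - x₀) * (v α).f ξ :=
      ((EuclideanSpace.proj (𝕜 := ℝ) α).integral_comp_comm hint).symm
    rw [h2]
    exact pair_le hm (hv α) h0 h1 hx
  refine (WCut0_norm_le _).trans ?_
  calc ∑ α, |(∫ ξ, th ρ (ξ - x₀) • vec v ξ) α| ≤ ∑ _α : Fin N, B :=
        Finset.sum_le_sum fun α _ => hα α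
    _ = N * B := by simp

end WCut0

section WCut

open WA

variable {m N : ℕ}

/-- `exists_cv` with Lebesgue measure and the indicator function of `S`; `integral_th`,
`th_neg`, `th_eq_zero` -/
theorem exists_cut (hm : 1 ≤ m) (s : ℕ) {δ : ℝ} (h0 : 0 < δ) (h1 : δ ≤ 1) {S : Set (E m)}
    (hS : MeasurableSet S) (hS1 : S ⊆ ball 0 1) :
    ∃ χ : WA m s,
      (∀ j, S1 (fun k => br k ^ j) χ.c (cth m j / δ ^ ((j + 1) * m) * (volume S).toReal)) ∧
      ∀ ξ ∈ box m, (ball ξ δ ⊆ S → χ.f ξ = 1) ∧ (χ.f ξ ≠ 0 → ∃ y ∈ S, ‖ξ - y‖ < δ) := by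
  have hfin : volume S < ⊤ := (measure_mono hS1).trans_lt measure_ball_lt_top
  have hint : Integrable (S.indicator fun _ : E m => (1 : ℝ)) volume :=
    (integrable_indicator_iff hS).2 (integrableOn_const hfin.ne)
  obtain ⟨χ, -, hb, -, hf⟩ := exists_cv (m := m) s h0 h1 (volume : Measure (E m)) (x := id)
    (g := S.indicator fun _ => (1 : ℝ)) measurable_id hint fun y hy => by
      have hyS : y ∈ S := by
        by_contra hn
        exact hy (indicator_of_notMem hn _)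
      have := mem_ball_zero_iff.1 (hS1 hyS)
      simp only [id]
      linarith
  have habs : ∫ y, |S.indicator (fun _ : E m => (1 : ℝ)) y| = (volume S).toReal := by
    have e : (fun y => |S.indicator (fun _ : E m => (1 : ℝ)) y|) =
        S.indicator fun _ : E m => (1 : ℝ) := by
      funext y
      by_cases hy : y ∈ S
      · simp [indicator_of_mem hy]
      · simp [indicator_of_notMem hy]
    rw [e, integral_indicator hS]
    simp [Measure.real]
  refine ⟨χ, fun j => habs ▸ hb j, fun ξ hξ => ⟨fun hball => ?_, fun hne => ?_⟩⟩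
  · rw [hf ξ hξ]
    refine (integral_congr_ae (Eventually.of_forall fun y => ?_)).trans (integral_th h0 ξ)
    simp only [id]
    by_cases hy : y ∈ S
    · rw [indicator_of_mem hy, mul_one, ← th_neg, neg_sub]
    · have hd : δ ≤ ‖y - ξ‖ := by
        by_contra hlt
        exact hy (hball (mem_ball_iff_norm.2 (not_le.1 hlt)))
      rw [indicator_of_notMem hy, mul_zero, th_eq_zero h0 hd hm]
  · by_contra hn
    apply hne
    rw [hf ξ hξ]
    refine (integral_congr_ae (Eventually.of_forall fun y => ?_)).trans (integral_zero _ _)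
    simp only [id]
    by_cases hy : y ∈ S
    · have hd : δ ≤ ‖ξ - y‖ := by
        by_contra hlt
        exact hn ⟨y, hy, not_le.1 hlt⟩
      rw [th_eq_zero h0 hd hm, zero_mul]
    · rw [indicator_of_notMem hy, mul_zero]

/-- the constant for cut-off functions -/
noncomputable def ccut (m j : ℕ) : ℝ := cth m j * (1 + (volume (ball (0 : E m) 1)).toReal)

theorem one_le_ccut (m j : ℕ) : 1 ≤ ccut m j := by
  have h1 := one_le_cth m j
  have h2 : 0 ≤ (volume (ball (0 : E m) 1)).toReal := ENNReal.toReal_nonneg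
  unfold ccut
  nlinarith

theorem cth_le_ccut (m j : ℕ) : cth m j ≤ ccut m j := by
  have h1 := one_le_cth m j
  have h2 : 0 ≤ (volume (ball (0 : E m) 1)).toReal := ENNReal.toReal_nonneg
  unfold ccut
  nlinarith

/-- cut-off functions for thickenings -/
theorem exists_cut_thick (hm : 1 ≤ m) (s : ℕ) {δ τ : ℝ} (h0 : 0 < δ) (h1 : δ ≤ 1) {K : Set (E m)}
    (hK : thickening τ K ⊆ ball 0 1) :
    ∃ χ : WA m s, ‖χ‖ ≤ ccut m s / δ ^ ((s + 1) * m) ∧
      ∀ ξ ∈ box m, (ξ ∈ thickening (τ - δ) K → χ.f ξ = 1) ∧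
        (χ.f ξ ≠ 0 → ξ ∈ thickening (τ + δ) K) := by
  obtain ⟨χ, hb, hf⟩ := exists_cut hm s h0 h1 isOpen_thickening.measurableSet hK
  refine ⟨χ, (norm_le (hb s)).trans ?_, fun ξ hξ => ⟨fun hin => (hf ξ hξ).1 fun y hy => ?_,
    fun hne => ?_⟩⟩
  · have hv : (volume (thickening τ K)).toReal ≤ (volume (ball (0 : E m) 1)).toReal :=
      ENNReal.toReal_mono measure_ball_lt_top.ne (measure_mono hK)
    have h2 := one_le_cth m s
    have hp : 0 < δ ^ ((s + 1) * m) := pow_pos h0 _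
    rw [div_mul_eq_mul_div]
    refine div_le_div_of_nonneg_right ?_ hp.le
    unfold ccut
    exact mul_le_mul_of_nonneg_left (by linarith) (by linarith)
  · obtain ⟨z, hz, hd⟩ := mem_thickening_iff.1 hin
    refine mem_thickening_iff.2 ⟨z, hz, ?_⟩
    have := dist_triangle y ξ z
    have := mem_ball.1 hy
    linarith
  · obtain ⟨y, hy, hd⟩ := (hf ξ hξ).2 hne
    obtain ⟨z, hz, hd'⟩ := mem_thickening_iff.1 hy
    refine mem_thickening_iff.2 ⟨z, hz, ?_⟩
    have := dist_triangle ξ y z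
    rw [← dist_eq_norm] at hd
    linarith

/-- cut-off functions for small balls; the norm of order zero is bounded uniformly
(`Measure.addHaar_ball`) -/
theorem exists_cut_ball (hm : 1 ≤ m) (s : ℕ) {ρ : ℝ} (h0 : 0 < ρ) (h1 : ρ ≤ 1) {x₀ : E m}
    (hx : ball x₀ (3 * ρ) ⊆ ball 0 1) :
    ∃ χ : WA m s, (∀ j, Summable fun k => br k ^ j * ‖χ.c k‖) ∧
      S1 (fun _ => 1) χ.c (2 ^ m * ccut m 0) ∧
      ∀ ξ ∈ box m, (ξ ∈ ball x₀ ρ → χ.f ξ = 1) ∧ (χ.f ξ ≠ 0 → ξ ∈ ball x₀ (3 * ρ)) := by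
  obtain ⟨χ, hb, hf⟩ := exists_cut hm s h0 h1 (S := ball x₀ (2 * ρ)) measurableSet_ball
    ((ball_subset_ball (by linarith)).trans hx)
  refine ⟨χ, fun j => ((hb j).summable (br_pow_nonneg j)).1, (hb 0).mono (fun k => by simp) ?_,
    fun ξ hξ => ⟨fun hin => (hf ξ hξ).1 fun y hy => ?_, fun hne => ?_⟩⟩
  · have hv : (volume (ball x₀ (2 * ρ))).toReal =
        (2 * ρ) ^ m * (volume (ball (0 : E m) 1)).toReal := by
      rw [Measure.addHaar_ball_of_pos _ _ (by linarith), finrank_euclideanSpace_fin,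
        ENNReal.toReal_mul, ENNReal.toReal_ofReal (by positivity)]
    have h2 := one_le_cth m 0
    have h3 : 0 ≤ (volume (ball (0 : E m) 1)).toReal := ENNReal.toReal_nonneg
    have hp : 0 < ρ ^ m := pow_pos h0 _
    have e : cth m 0 / ρ ^ ((0 + 1) * m) * ((2 * ρ) ^ m * (volume (ball (0 : E m) 1)).toReal) =
        2 ^ m * (cth m 0 * (volume (ball (0 : E m) 1)).toReal) := by
      rw [zero_add, one_mul, mul_pow]
      field_simp
    rw [hv, e]
    refine mul_le_mul_of_nonneg_left ?_ (by positivity)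
    unfold ccut
    exact mul_le_mul_of_nonneg_left (by linarith) (by linarith)
  · have := dist_triangle y ξ x₀
    have := mem_ball.1 hy
    have := mem_ball.1 hin
    exact mem_ball.2 (by linarith)
  · obtain ⟨y, hy, hd⟩ := (hf ξ hξ).2 hne
    have := dist_triangle ξ y x₀
    have := mem_ball.1 hy
    rw [← dist_eq_norm] at hd
    exact mem_ball.2 (by linarith)

end WCut

section WTest

open WA

variable {m N : ℕ}

/-- the cut-off function without its periodic copies (`Cb.local`, `cb_of_s1`) -/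
theorem cb_cut {s : ℕ} (hs : 3 ≤ s) (χ : WA m s) {Z : Set (E m)} (hZ : IsClosed Z)
    (hZ1 : Z ⊆ ball 0 1) (hχ : ∀ ξ ∈ box m, χ.f ξ ≠ 0 → ξ ∈ Z) :
    Cb 3 ((ball 0 2).indicator χ.f) (2 * ‖χ‖) ∧ HasCompactSupport ((ball 0 2).indicator χ.f) ∧
      tsupport ((ball 0 2).indicator χ.f) ⊆ Z ∧
      ∀ ξ, (box m).indicator χ.f ξ = (ball 0 2).indicator χ.f ξ := by
  have h12 : ball (0 : E m) 1 ⊆ ball 0 2 := ball_subset_ball (by norm_num)
  have h23 : ball (0 : E m) 2 ⊆ box m := (ball_subset_ball (by norm_num)).trans (ball_subset_box m)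
  have hz : ∀ ξ, ξ ∉ Z → (ball (0 : E m) 2).indicator χ.f ξ = 0 := by
    intro ξ hξ
    by_cases h : ξ ∈ ball (0 : E m) 2
    · rw [indicator_of_mem h]
      by_contra h0
      exact hξ (hχ ξ (h23 h) h0)
    · exact indicator_of_notMem h _
  have hts : tsupport ((ball (0 : E m) 2).indicator χ.f) ⊆ Z :=
    closure_minimal (Function.support_subset_iff'.2 hz) hZ
  refine ⟨((χ.cb_of_s1 χ.s1).mono hs le_rfl).local fun x => ?_, ?_, hts, fun ξ => ?_⟩
  · by_cases h : x ∈ ball (0 : E m) 2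
    · exact Or.inl ((isOpen_ball.eventually_mem h).mono fun y hy => indicator_of_mem hy _)
    · exact Or.inr ((hZ.isOpen_compl.eventually_mem fun hx => h (h12 (hZ1 hx))).mono
        fun y hy => hz y hy)
  · exact (isCompact_closedBall (0 : E m) 1).of_isClosed_subset (isClosed_tsupport _)
      (hts.trans (hZ1.trans ball_subset_closedBall))
  · by_cases h : ξ ∈ ball (0 : E m) 2
    · rw [indicator_of_mem h, indicator_of_mem (h23 h)]
    · rw [indicator_of_notMem h]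
      by_cases h' : ξ ∈ box m
      · rw [indicator_of_mem h']
        by_contra h0
        exact h (h12 (hZ1 (hχ ξ h' h0)))
      · exact indicator_of_notMem h' _

/-- the modulus of a coefficient of a function with compact support -/
theorem WTest_coef {G : E m → ℝ} (hG : Continuous G) (hc : HasCompactSupport G) (k : Zm m) :
    ‖∫ x, (G x : ℂ) * ch k x‖ ≤
      |∫ x, G x * Real.cos ⟪kv k, x⟫| + |∫ x, G x * Real.sin ⟪kv k, x⟫| := by
  have hi : Integrable fun x => (G x : ℂ) * ch k x := by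
    refine ((Complex.continuous_ofReal.comp hG).mul (continuous_ch k)).integrable_of_hasCompactSupport
      (hc.mono fun x hx h => hx ?_)
    simp [h]
  refine (Complex.norm_le_abs_re_add_abs_im _).trans (le_of_eq ?_)
  have h1 := Complex.reCLM.integral_comp_comm hi
  have h2 := Complex.imCLM.integral_comp_comm hi
  simp only [Complex.reCLM_apply, Complex.imCLM_apply, Complex.re_ofReal_mul, Complex.im_ofReal_mul,
    ch_re, ch_im] at h1 h2
  rw [h1, h2]

theorem WTest_cf {g h χ₀ : E m → ℝ} (hχ : ∀ ξ, (box m).indicator g ξ = χ₀ ξ) (k : Zm m) :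
    ‖cf (fun x => g x * h x) k‖ ≤ ‖∫ x, ((χ₀ x * h x : ℝ) : ℂ) * ch (-k) x‖ := by
  have h1 : ∫ x in box m, ((g x * h x : ℝ) : ℂ) * ch (-k) x =
      ∫ x, ((χ₀ x * h x : ℝ) : ℂ) * ch (-k) x := by
    rw [← integral_indicator (isOpen_box m).measurableSet]
    refine integral_congr_ae (Eventually.of_forall fun x => ?_)
    simp only [← hχ]
    by_cases hx : x ∈ box m
    · simp only [indicator_of_mem hx]
    · simp [indicator_of_notMem hx]
  have h2 : (1 : ℝ) ≤ (2 * Real.pi) ^ m := one_le_pow₀ (by linarith [Real.pi_gt_three])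
  rw [cf, h1, norm_smul, Real.norm_of_nonneg (by positivity)]
  exact mul_le_of_le_one_left (norm_nonneg _) (inv_le_one_of_one_le₀ h2)

/-- The coefficient at `k` is `(2 π) ^ (-m) ∫ χ₀ ⟪ev α, Lf w f₀⟫ ch (-k)` with `χ₀` from `cb_cut`
(`vec_LL`); bound the real and the imaginary part by `weak_bd` with `φ = χ₀ cos ⟪kv k, ·⟫` and
`φ = χ₀ sin ⟪kv k, ·⟫` (`cb_cos`, `cb_sin`). -/
theorem test_bd (m N : ℕ) (hm : 1 ≤ m) : ∃ C : ℝ, 1 ≤ C ∧
    ∀ (s : ℕ) (w f₀ : VW m N (s + 2)) (χ : WA m s) (O Z : Set (E m)) {Ω : Type}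
    [MeasurableSpace Ω] (μ : Measure Ω) [IsFiniteMeasure μ] (x : Ω → E m) (f : Ω → E N)
    (T e r : ℝ), 3 ≤ s → 2 * N * ‖w‖ ≤ 1 → IsUnit (gM w).det → IsOpen O → IsClosed Z → Z ⊆ O →
    O ⊆ ball 0 1 → (∀ ξ ∈ box m, χ.f ξ ≠ 0 → ξ ∈ Z) → (∀ ξ ∈ O, MinAt (vec w) ξ) →
    Measurable x → Integrable f μ → ∫ y, ‖f y‖ ∂μ ≤ T → 0 ≤ e → 0 < r →
    (∀ ξ ∈ O, vec f₀ ξ = ∫ y, th r (ξ - x y) • (x ⁻¹' O).indicator f y ∂μ) →
    (∀ (ψ : E m → E N) (a : ℝ), Test 2 ψ O → Bd2 ψ a a a →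
      |∫ y, ⟪f y, sgW (vec w) (x y) • Lst (vec w) ψ (x y)⟫ ∂μ| ≤ e * a) →
    ∀ α, NI (-3) (χ * LL w f₀ α) (C * ‖χ‖ * (e + r * T)) := by
  obtain ⟨C, hC, hW⟩ := weak_bd m N hm
  refine ⟨32 * C, by linarith, ?_⟩
  intro s w f₀ χ O Z Ω _ μ _ x f T e r hs hw hu hO hZ hZO hO1 hχ hmin hx hf hT he hr hf₀ hweak α k
  obtain ⟨h1, h2, h3, h4⟩ := cb_cut hs χ hZ (hZO.trans hO1) hχ
  set χ₀ := (ball (0 : E m) 2).indicator χ.f with hχ₀
  have hw4 : Cb 4 (vec w) 1 := (wn_vec w).cb.mono (by omega) hw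
  have hf2 : ContDiff ℝ 2 (vec f₀) := ((wn_vec f₀).cb.mono (n' := 2) (by omega) le_rfl).smooth
  have hL : ∀ ξ, (LL w f₀ α).f ξ = ⟪ev α, Lf (vec w) (vec f₀) ξ⟫ := fun ξ => by
    rw [inner_ev, ← vec_LL hu, vec_apply]
  have hB : ∀ c : E m → ℝ, Cb 3 c (br k ^ 3) →
      |∫ ξ, χ₀ ξ * (LL w f₀ α).f ξ * c ξ| ≤ C * (16 * ‖χ‖ * br k ^ 3) * (e + r * T) := by
    intro c hc
    have h5 := hW (vec w) (vec f₀) O μ x f T e r hw4 hf2 hO hmin hx hf hT he hr hf₀ hweak
      (fun ξ => χ₀ ξ * c ξ) (16 * ‖χ‖ * br k ^ 3) (ev α)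
      ((h1.mul hc).mono le_rfl (le_of_eq (by ring))) h2.mul_right
      ((tsupport_mul_subset_left (f := χ₀) (g := c)).trans (h3.trans hZO)) (norm_ev α).le
    simp only [hL, mul_right_comm _ _ (c _)]
    exact h5
  have hbr : (1 + ‖kv (-k)‖) ^ 3 = br k ^ 3 := by rw [← br_neg k, br]
  have h6 := WTest_coef (G := fun ξ => χ₀ ξ * (LL w f₀ α).f ξ)
    (h1.smooth.continuous.mul (LL w f₀ α).contDiff.continuous) h2.mul_right (-k)
  have h7 : ‖(χ * LL w f₀ α).c k‖ ≤ _ := (WTest_cf (h := (LL w f₀ α).f) h4 k).trans h6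
  have h8 := hB _ (hbr ▸ cb_cos 3 (kv (-k)))
  have h9 := hB _ (hbr ▸ cb_sin 3 (kv (-k)))
  have h10 : 0 < br k ^ 3 := pow_pos (br_pos k) 3
  have h11 : br k ^ (-3 : ℤ) = (br k ^ 3)⁻¹ := by
    rw [zpow_neg]
    rfl
  change br k ^ (-3 : ℤ) * _ ≤ _
  rw [h11, inv_mul_le_iff₀ h10]
  refine h7.trans ((add_le_add h8 h9).trans (le_of_eq ?_))
  ring

end WTest

section WInt

open WA

variable {m N : ℕ}

/-- Induction on `j`. Let `δ = σ / (4 (m + 3))` and let `χ` be the cut-off function of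
`exists_cut_thick` of order `s + 2` with `τ = 7 σ / 4 - (2 j + 1) δ`. The new element is `χ U`;
`d0 χ * LL w U α = d0 χ * q α` by `ext_box` and `LL_congr`; apply `Cl.step3` with
`t = j - 2`. -/
theorem interior_ind (m N s : ℕ) (hm : 1 ≤ m) (hs : m + 1 ≤ s) (j : ℕ) (hj : j ≤ m + 3) :
    ∃ (P : ℕ) (C : ℝ), 1 ≤ C ∧ ∀ (w u : VW m N (s + 2)) (q : VW m N s) (K : Set (E m))
    (σ η T : ℝ), Cl w η → η ≤ 1 → 4 * ((m ^ 2 + N * m) * η) ≤ 1 / 2 → 0 < σ → σ ≤ 1 →
    thickening (2 * σ) K ⊆ ball 0 1 →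
    (∀ ξ ∈ thickening (7 * σ / 4) K, ∀ α, (LL w u α).f ξ = (q α).f ξ) → ‖q‖ ≤ T →
    (∀ α, NI (-1) (u α) T) →
    ∃ U : VW m N (s + 2),
      (∀ ξ ∈ thickening (7 * σ / 4 - 2 * j * (σ / (4 * (m + 3)))) K, vec U ξ = vec u ξ) ∧
      ∀ α, NI ((j : ℤ) - 1) (U α) (C * T / σ ^ P) := by
  induction j with
  | zero =>
    refine ⟨0, 1, le_rfl, fun w u q K σ η T _ _ _ _ _ _ _ _ hu => ⟨u, fun _ _ => rfl, fun α => ?_⟩⟩
    simpa using hu α
  | succ j ih =>
    obtain ⟨P, C, hC, ih⟩ := ih (by omega)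
    have hc := one_le_ccut m (s + 2)
    have hm3 : (1 : ℝ) ≤ 4 * (m + 3) := by
      have : (0 : ℝ) ≤ m := Nat.cast_nonneg m
      linarith only []
    obtain ⟨A, hA⟩ : ∃ A, A = ccut m (s + 2) * (4 * ((m : ℝ) + 3)) ^ ((s + 2 + 1) * m) := ⟨_, rfl⟩
    have hA1 : 1 ≤ A := hA ▸ one_le_mul_of_one_le_of_one_le hc (one_le_pow₀ hm3)
    obtain ⟨B, hB⟩ : ∃ B : ℝ, B = 8 * (6 * m ^ 2 + N * m) + 2 := ⟨_, rfl⟩
    have hB0 : 0 ≤ B := by rw [hB]; positivity
    refine ⟨(s + 2 + 1) * m + P, 8 * A + B * A * C, ?_,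
      fun w u q K σ η T hw h1 h2 h0 hσ hK hq hT hu => ?_⟩
    · have : 0 ≤ B * A * C := by positivity
      linarith only [hA1, this]
    obtain ⟨U, hU, hN⟩ := ih w u q K σ η T hw h1 h2 h0 hσ hK hq hT hu
    obtain ⟨δ, hδ⟩ : ∃ δ, δ = σ / (4 * ((m : ℝ) + 3)) := ⟨_, rfl⟩
    rw [← hδ] at hU ⊢
    have hδ0 : 0 < δ := by rw [hδ]; positivity
    have hδ1 : δ ≤ 1 := by
      rw [hδ, div_le_one (by positivity)]
      linarith only [hσ]
    have hj0 : (0 : ℝ) ≤ j * δ := by positivity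
    have hT0 : 0 ≤ T := (norm_nonneg _).trans hT
    have hK' : ∀ τ ≤ 2 * σ, thickening τ K ⊆ ball 0 1 := fun τ hτ =>
      (thickening_mono hτ K).trans hK
    obtain ⟨χ, hχ, hχ'⟩ := exists_cut_thick hm (s + 2) (τ := 7 * σ / 4 - (2 * j + 1) * δ) hδ0 hδ1
      (hK' _ (by linarith only [h0, hδ0, hj0]))
    have hχA : ‖χ‖ ≤ A / σ ^ ((s + 2 + 1) * m) := by
      refine hχ.trans (le_of_eq ?_)
      rw [hA, hδ, div_pow]
      field_simp
    have ht : |(j : ℤ) - 2| ≤ s := abs_le.2 ⟨by omega, by omega⟩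
    have hR : ∀ α, d0 χ * LL w U α = d0 χ * q α := fun α => ext_box fun ξ hξ => by
      rw [mul_f, mul_f, d0_f]
      by_cases hx : χ.f ξ = 0
      · rw [hx, zero_mul, zero_mul]
      · have h3 := (hχ' ξ hξ).2 hx
        rw [show 7 * σ / 4 - (2 * j + 1) * δ + δ = 7 * σ / 4 - 2 * j * δ by ring] at h3
        rw [LL_congr w (v := u) (eventually_of_mem (isOpen_thickening.mem_nhds h3) hU),
          hq ξ (thickening_mono (by linarith only [hj0]) K h3)]
    have hR' : ∀ α, NI ((j : ℤ) - 2) (d0 χ * q α) (‖χ‖ * T) := fun α =>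
      (NI.mul (d0 χ) ht (NI.of_norm (q α) (by omega))).mono le_rfl
        (mul_le_mul (norm_d0_le χ) ((norm_le_pi_norm q α).trans hT) (norm_nonneg _)
          (norm_nonneg _))
    refine ⟨fun α => χ * U α, fun ξ hξ => ?_, fun α => ?_⟩
    · push_cast at hξ
      have h3 : ξ ∈ box m := ball_subset_box m (ball_subset_ball (by norm_num)
        (hK' _ (by linarith only [h0, hδ0, hj0]) hξ))
      have h4 := (hχ' ξ h3).1 (by
        rwa [show 7 * σ / 4 - (2 * j + 1) * δ - δ = 7 * σ / 4 - 2 * (j + 1) * δ by ring])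
      rw [← hU ξ (thickening_mono (by linarith only [hδ0]) K hξ)]
      ext α
      rw [vec_apply, vec_apply, mul_f, h4, one_mul]
    · refine (hw.step3 h1 h2 ht χ hR hR' (M := C * T / σ ^ P)
        (fun β => (hN β).mono (by omega) le_rfl) α).mono (by push_cast; omega) ?_
      rw [← hB]
      have h5 : 0 < σ ^ P := pow_pos h0 _
      have h6 : σ ^ P ≤ 1 := pow_le_one₀ h0.le hσ
      have h7 : 0 < σ ^ ((s + 2 + 1) * m) := pow_pos h0 _
      have h8 : T ≤ T / σ ^ P := by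
        rw [le_div_iff₀ h5]
        exact mul_le_of_le_one_right hT0 h6
      calc 8 * (‖χ‖ * T) + B * ‖χ‖ * (C * T / σ ^ P)
          ≤ 8 * (A / σ ^ ((s + 2 + 1) * m) * (T / σ ^ P)) +
            B * (A / σ ^ ((s + 2 + 1) * m)) * (C * T / σ ^ P) := by gcongr
        _ = _ := by
          rw [pow_add]
          field_simp

/-- `interior_ind` with `j = m + 3`, `SI.toS1` with `j = 1`, `wn_vec_of_s1`, `Wn.cb` -/
theorem interior_bd (m N s : ℕ) (hm : 1 ≤ m) (hs : m + 1 ≤ s) :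
    ∃ (P : ℕ) (C : ℝ), 1 ≤ C ∧ ∀ (w u : VW m N (s + 2)) (q : VW m N s) (K : Set (E m))
    (σ η T : ℝ), Cl w η → η ≤ 1 → 4 * ((m ^ 2 + N * m) * η) ≤ 1 / 2 → 0 < σ → σ ≤ 1 →
    thickening (2 * σ) K ⊆ ball 0 1 →
    (∀ ξ ∈ thickening (7 * σ / 4) K, ∀ α, (LL w u α).f ξ = (q α).f ξ) → ‖q‖ ≤ T →
    (∀ α, NI (-1) (u α) T) →
    ∀ ξ ∈ thickening σ K, ‖vec u ξ‖ ≤ C * T / σ ^ P ∧ ‖fderiv ℝ (vec u) ξ‖ ≤ C * T / σ ^ P := by
  obtain ⟨P, C, hC, h⟩ := interior_ind m N s hm hs (m + 3) le_rfl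
  have hb := one_le_cbr m
  have hN : (0 : ℝ) ≤ N := Nat.cast_nonneg N
  refine ⟨P, (2 * N + 1) * (cbr m * C), one_le_mul_of_one_le_of_one_le (by linarith)
    (one_le_mul_of_one_le_of_one_le hb hC),
    fun w u q K σ η T hw h1 h2 h0 hσ hK hq hT hu ξ hξ => ?_⟩
  obtain ⟨U, hU, hM⟩ := h w u q K σ η T hw h1 h2 h0 hσ hK hq hT hu
  have hT0 : 0 ≤ T := (norm_nonneg _).trans hT
  have he : 7 * σ / 4 - 2 * ((m + 3 : ℕ) : ℝ) * (σ / (4 * (m + 3))) = 5 * σ / 4 := by
    push_cast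
    field_simp
    ring
  rw [he] at hU
  have h3 : vec U =ᶠ[𝓝 ξ] vec u := eventually_of_mem
    (isOpen_thickening.mem_nhds (thickening_mono (by linarith only [h0]) K hξ)) hU
  have h4 : Cb 1 (vec U) (2 * N * (cbr m * (C * T / σ ^ P))) :=
    (wn_vec_of_s1 U fun α => SI.toS1 (j := 1)
      ((hM α).mono (t' := ((1 : ℕ) : ℤ) + m + 1) (by push_cast; omega) le_rfl)).cb
  have h5 : 2 * N * (cbr m * (C * T / σ ^ P)) ≤ (2 * N + 1) * (cbr m * C) * T / σ ^ P := by
    calc 2 * N * (cbr m * (C * T / σ ^ P)) ≤ (2 * N + 1) * (cbr m * (C * T / σ ^ P)) := by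
          gcongr
          linarith only []
      _ = _ := by ring
  rw [← h3.eq_of_nhds, ← h3.fderiv_eq]
  exact ⟨(h4.norm_le ξ).trans h5, ((Cb.fderiv (n := 0) h4).norm_le ξ).trans h5⟩

end WInt

end Pool.Agent.MP_f6c0e6_an.Gen.Wie

end
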